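import Pool.Agent.Lib.MP_ccbbf6_gt.L5.RHO11

/-!
# Level 5, ASM6: `κ = 3`, `n ≥ 5` implies `M = ℍP^m` (helper93)
-/

set_option autoImplicit false
set_option maxSynthPendingDepth 3
set_option linter.unusedSectionVars false

open Set Filter Topology Metric Real Module MeasureTheory
open scoped ContDiff RealInnerProductSpace Quaternion

noncomputable section

namespace Pool.Agent.Lib.MP_ccbbf6_gt.L5

open L4 L4.FR Geo L4.ORI NEG

/-- **`κ = 3`, `n ≥ 5`: `M = ℍP^m`** -/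
theorem isProj_three {n : ℕ} {M : Type} [MetricSpace M] [CompactSpace M] [Nonempty M]
    (hn : 5 ≤ n) (𝒜 : SDist n M) (hB : Bl M) (h3 : 𝒜.HK 3) : ∃ m : ℕ, n = 4 * m ∧ Blaschke.IsProj ℍ m M := by
  borelize M
  obtain ⟨N, rfl⟩ : ∃ N, n = N + 1 := ⟨n - 1, by omega⟩
  rcases model_three hn hB h3 with ⟨h4, -⟩ | ⟨h4, -⟩ | ⟨h4, -⟩ | ⟨-, h4⟩ | ⟨h4, -⟩
  · omega
  · omega
  · omega
  · exact h4
  · omega

end Pool.Agent.Lib.MP_ccbbf6_gt.L5
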