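import Pool.Agent.Lib.MP_ccbbf6_gt.ML

/-!
# Level 5, UOR03: determinant tensors and orientations of subspaces of `ℝ^n` (helper2)

An orientation of an `r`-dimensional subspace `V` of `ℝ^n` is the tensor `o(I) = det (a_j (I k))`, `a` an orthonormal
frame of `V`.
-/

set_option autoImplicit false
set_option linter.unusedSectionVars false
set_option linter.unusedVariables false

open Module
open scoped RealInnerProductSpace

noncomputable section

namespace Pool.Agent.Lib.MP_ccbbf6_gt.L5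

variable {ι : Type*} [Fintype ι] [DecidableEq ι] {r : ℕ}

/-- the determinant tensor of `r` vectors -/
def dtn (a : Fin r → ι → ℝ) (I : Fin r → ι) : ℝ := (Matrix.of fun j k => a j (I k)).det

theorem dtn_mul (a b : Fin r → ι → ℝ) (I J : Fin r → ι) :
    dtn a I * dtn b J = (Matrix.of fun k l => ∑ j, a j (I k) * b j (J l)).det := by
  unfold dtn
  rw [← Matrix.det_transpose, ← Matrix.det_mul]
  rfl

/-- change of the vectors -/
theorem dtn_comb (O : Matrix (Fin r) (Fin r) ℝ) (a : Fin r → ι → ℝ) (I : Fin r → ι) :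
    dtn (fun i x => ∑ j, O i j * a j x) I = O.det * dtn a I := by
  unfold dtn
  rw [← Matrix.det_mul]
  rfl

/-- the Cauchy-Binet formula -/
theorem sum_dtn (a b : Fin r → ι → ℝ) :
    ∑ I, dtn a I * dtn b I = (r.factorial : ℝ) * (Matrix.of fun i j => ∑ x, a i x * b j x).det := by
  have key : ∀ σ : Equiv.Perm (Fin r), ∑ I : Fin r → ι, (∏ k, a (σ k) (I k)) * dtn b I =
      (Equiv.Perm.sign σ : ℝ) * (Matrix.of fun i j => ∑ x, a i x * b j x).det := by
    intro σ
    have h1 : ∀ I : Fin r → ι, (∏ k, a (σ k) (I k)) * dtn b I =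
        ∑ τ : Equiv.Perm (Fin r), (Equiv.Perm.sign τ : ℝ) * ∏ k, (a (σ k) (I k) * b (τ k) (I k)) := by
      intro I
      unfold dtn
      rw [Matrix.det_apply', Finset.mul_sum]
      refine Finset.sum_congr rfl fun τ _ => ?_
      rw [Finset.prod_mul_distrib]
      simp only [Matrix.of_apply]
      ring
    rw [Finset.sum_congr rfl fun I _ => h1 I, Finset.sum_comm]
    have h2 : ∀ τ : Equiv.Perm (Fin r), ∑ I : Fin r → ι, (Equiv.Perm.sign τ : ℝ) *
        ∏ k, (a (σ k) (I k) * b (τ k) (I k)) = (Equiv.Perm.sign τ : ℝ) * ∏ k, ∑ x, a (σ k) x * b (τ k) x := by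
      intro τ
      rw [← Finset.mul_sum, Finset.prod_univ_sum]
      rfl
    rw [Finset.sum_congr rfl fun τ _ => h2 τ]
    have h3 : ∑ τ : Equiv.Perm (Fin r), (Equiv.Perm.sign τ : ℝ) * ∏ k, ∑ x, a (σ k) x * b (τ k) x =
        ((Matrix.of fun i j => ∑ x, a i x * b j x).transpose.submatrix id σ).det := by
      rw [Matrix.det_apply']
      rfl
    rw [h3, Matrix.det_permute', Matrix.det_transpose]
  have h0 : ∀ I : Fin r → ι, dtn a I * dtn b I =
      ∑ σ : Equiv.Perm (Fin r), (Equiv.Perm.sign σ : ℝ) * ((∏ k, a (σ k) (I k)) * dtn b I) := by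
    intro I
    conv_lhs => rw [show dtn a I = ∑ σ : Equiv.Perm (Fin r), (Equiv.Perm.sign σ : ℝ) * ∏ k, a (σ k) (I k) by
      unfold dtn
      rw [Matrix.det_apply']
      rfl]
    rw [Finset.sum_mul]
    exact Finset.sum_congr rfl fun σ _ => by ring
  rw [Finset.sum_congr rfl fun I _ => h0 I, Finset.sum_comm]
  have h4 : ∀ σ : Equiv.Perm (Fin r), ∑ I : Fin r → ι, (Equiv.Perm.sign σ : ℝ) * ((∏ k, a (σ k) (I k)) * dtn b I) =
      (Matrix.of fun i j => ∑ x, a i x * b j x).det := by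
    intro σ
    rw [← Finset.mul_sum, key σ, ← mul_assoc]
    have : (Equiv.Perm.sign σ : ℝ) * (Equiv.Perm.sign σ : ℝ) = 1 := by
      rcases Int.units_eq_one_or (Equiv.Perm.sign σ) with h | h <;> rw [h] <;> norm_num
    rw [this, one_mul]
  rw [Finset.sum_congr rfl fun σ _ => h4 σ, Finset.sum_const, Finset.card_univ, Fintype.card_perm, Fintype.card_fin,
    nsmul_eq_mul]

section euclid

variable {n : ℕ}

/-- the determinant tensor of vectors of `ℝ^n` as a vector -/
def dtE (a : Fin r → EuclideanSpace ℝ (Fin n)) : EuclideanSpace ℝ (Fin r → Fin n) :=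
  WithLp.toLp 2 (dtn fun j => (a j : Fin n → ℝ))

theorem dtE_apply (a : Fin r → EuclideanSpace ℝ (Fin n)) (I : Fin r → Fin n) : dtE a I = dtn (fun j x => a j x) I := rfl

theorem inner_dtE (a b : Fin r → EuclideanSpace ℝ (Fin n)) :
    ⟪dtE a, dtE b⟫ = (r.factorial : ℝ) * (Matrix.of fun i j => ⟪a i, b j⟫).det := by
  rw [PiLp.inner_apply]
  have h1 : ∀ I : Fin r → Fin n, inner ℝ ((dtE a) I) ((dtE b) I) =
      dtn (fun j x => a j x) I * dtn (fun j x => b j x) I := by
    intro I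
    rw [dtE_apply, dtE_apply]
    exact mul_comm _ _
  rw [Finset.sum_congr rfl fun I _ => h1 I, sum_dtn]
  congr 2
  ext i j
  rw [Matrix.of_apply, Matrix.of_apply, PiLp.inner_apply]
  exact Finset.sum_congr rfl fun x _ => mul_comm _ _

theorem dtE_comb (O : Matrix (Fin r) (Fin r) ℝ) (a : Fin r → EuclideanSpace ℝ (Fin n)) :
    dtE (fun i => ∑ j, O i j • a j) = O.det • dtE a := by
  ext I
  rw [PiLp.smul_apply, dtE_apply, dtE_apply, smul_eq_mul, ← dtn_comb]
  congr 1
  funext i x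
  simp only [WithLp.ofLp_sum, WithLp.ofLp_smul, Finset.sum_apply, Pi.smul_apply, smul_eq_mul]

/-- orthonormal frames of a subspace -/
structure IsFr (V : Submodule ℝ (EuclideanSpace ℝ (Fin n))) (a : Fin r → EuclideanSpace ℝ (Fin n)) : Prop where
  mem : ∀ j, a j ∈ V
  on : Orthonormal ℝ a
  rank : finrank ℝ V = r

theorem IsFr.exists {V : Submodule ℝ (EuclideanSpace ℝ (Fin n))} (hV : finrank ℝ V = r) :
    ∃ a : Fin r → EuclideanSpace ℝ (Fin n), IsFr V a := by
  subst hV
  refine ⟨fun j => (stdOrthonormalBasis ℝ V j : EuclideanSpace ℝ (Fin n)), fun j => Subtype.mem _, ?_, rfl⟩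
  exact (stdOrthonormalBasis ℝ V).orthonormal.comp_linearIsometry V.subtypeₗᵢ

theorem IsFr.expand {V : Submodule ℝ (EuclideanSpace ℝ (Fin n))} {a : Fin r → EuclideanSpace ℝ (Fin n)}
    (h : IsFr V a) {x : EuclideanSpace ℝ (Fin n)} (hx : x ∈ V) : x = ∑ j, ⟪a j, x⟫ • a j := by
  have hli := h.on.linearIndependent
  have hspan : Submodule.span ℝ (Set.range a) = V := by
    apply Submodule.eq_of_le_of_finrank_eq
    · rw [Submodule.span_le]
      rintro _ ⟨j, rfl⟩
      exact h.mem j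
    · rw [finrank_span_eq_card hli, Fintype.card_fin, h.rank]
  rw [← hspan] at hx
  obtain ⟨c, rfl⟩ := (Submodule.mem_span_range_iff_exists_fun ℝ).1 hx
  refine Finset.sum_congr rfl fun j _ => ?_
  rw [inner_sum]
  have h1 : ∀ i, ⟪a j, c i • a i⟫ = if i = j then c i else 0 := by
    intro i
    rw [real_inner_smul_right, orthonormal_iff_ite.1 h.on j i]
    by_cases hij : i = j
    · rw [if_pos hij, if_pos hij.symm, mul_one]
    · rw [if_neg hij, if_neg (Ne.symm hij), mul_zero]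
  rw [Finset.sum_congr rfl fun i _ => h1 i, Finset.sum_ite_eq' Finset.univ j c, if_pos (Finset.mem_univ j)]

/-- the matrix of inner products -/
def grm (b a : Fin r → EuclideanSpace ℝ (Fin n)) : Matrix (Fin r) (Fin r) ℝ := Matrix.of fun i j => ⟪b i, a j⟫

theorem IsFr.grm_eq {a : Fin r → EuclideanSpace ℝ (Fin n)} {V : Submodule ℝ (EuclideanSpace ℝ (Fin n))}
    (h : IsFr V a) : grm a a = 1 := by
  ext i j
  rw [grm, Matrix.of_apply, orthonormal_iff_ite.1 h.on i j, Matrix.one_apply]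

theorem IsFr.dtE_of_mem {V : Submodule ℝ (EuclideanSpace ℝ (Fin n))} {a : Fin r → EuclideanSpace ℝ (Fin n)}
    (h : IsFr V a) {b : Fin r → EuclideanSpace ℝ (Fin n)} (hb : ∀ j, b j ∈ V) : dtE b = (grm b a).det • dtE a := by
  rw [← dtE_comb]
  congr 1
  funext i
  rw [h.expand (hb i)]
  refine Finset.sum_congr rfl fun j _ => ?_
  congr 1
  rw [grm, Matrix.of_apply]
  conv_rhs => rw [h.expand (hb i)]
  rw [← h.expand (hb i), real_inner_comm]

theorem IsFr.norm_sq {V : Submodule ℝ (EuclideanSpace ℝ (Fin n))} {a : Fin r → EuclideanSpace ℝ (Fin n)}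
    (h : IsFr V a) : ‖dtE a‖ ^ 2 = (r.factorial : ℝ) := by
  rw [← real_inner_self_eq_norm_sq, inner_dtE]
  have := h.grm_eq
  rw [grm] at this
  rw [this, Matrix.det_one, mul_one]

theorem IsFr.det_sq {V : Submodule ℝ (EuclideanSpace ℝ (Fin n))} {a b : Fin r → EuclideanSpace ℝ (Fin n)}
    (h : IsFr V a) (hb : IsFr V b) : (grm b a).det ^ 2 = 1 := by
  have h1 := hb.norm_sq
  rw [h.dtE_of_mem hb.mem, norm_smul, mul_pow, h.norm_sq, Real.norm_eq_abs, sq_abs] at h1
  have h2 : (r.factorial : ℝ) ≠ 0 := by exact_mod_cast r.factorial_ne_zero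
  exact (mul_left_eq_self₀.1 h1).resolve_right h2

theorem IsFr.pm {V : Submodule ℝ (EuclideanSpace ℝ (Fin n))} {a b : Fin r → EuclideanSpace ℝ (Fin n)}
    (h : IsFr V a) (hb : IsFr V b) : dtE b = dtE a ∨ dtE b = -dtE a := by
  have h0 : ((grm b a).det - 1) * ((grm b a).det + 1) = 0 := by
    have := h.det_sq hb
    ring_nf
    linarith
  rcases mul_eq_zero.1 h0 with h1 | h1
  · left; rw [h.dtE_of_mem hb.mem, sub_eq_zero.1 h1, one_smul]
  · right; rw [h.dtE_of_mem hb.mem, eq_neg_of_add_eq_zero_left h1, neg_one_smul]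

/-- orientations of a subspace -/
def IsOrV (V : Submodule ℝ (EuclideanSpace ℝ (Fin n))) (o : EuclideanSpace ℝ (Fin r → Fin n)) : Prop :=
  ∃ a : Fin r → EuclideanSpace ℝ (Fin n), IsFr V a ∧ o = dtE a

theorem IsOrV.pm {V : Submodule ℝ (EuclideanSpace ℝ (Fin n))} {o o' : EuclideanSpace ℝ (Fin r → Fin n)}
    (h : IsOrV V o) (h' : IsOrV V o') : o' = o ∨ o' = -o := by
  obtain ⟨a, ha, rfl⟩ := h
  obtain ⟨b, hb, rfl⟩ := h'
  exact ha.pm hb

theorem IsOrV.norm_sq {V : Submodule ℝ (EuclideanSpace ℝ (Fin n))} {o : EuclideanSpace ℝ (Fin r → Fin n)}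
    (h : IsOrV V o) : ‖o‖ ^ 2 = (r.factorial : ℝ) := by
  obtain ⟨a, ha, rfl⟩ := h
  exact ha.norm_sq

theorem IsOrV.ne_zero {V : Submodule ℝ (EuclideanSpace ℝ (Fin n))} {o : EuclideanSpace ℝ (Fin r → Fin n)}
    (h : IsOrV V o) : o ≠ 0 := by
  intro h0
  have h1 := h.norm_sq
  rw [h0, norm_zero] at h1
  have h2 : (r.factorial : ℝ) ≠ 0 := by exact_mod_cast r.factorial_ne_zero
  exact h2 (by rw [← h1]; norm_num)

theorem IsOrV.neg (hr : r ≠ 0) {V : Submodule ℝ (EuclideanSpace ℝ (Fin n))} {o : EuclideanSpace ℝ (Fin r → Fin n)}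
    (h : IsOrV V o) : IsOrV V (-o) := by
  obtain ⟨a, ha, rfl⟩ := h
  obtain ⟨s, rfl⟩ : ∃ s, r = s + 1 := ⟨r - 1, by omega⟩
  obtain ⟨c, hc⟩ : ∃ c : Fin (s + 1) → ℝ, c = Fin.cons (-1) fun _ => 1 := ⟨_, rfl⟩
  have hdet : (Matrix.diagonal c).det = -1 := by
    rw [Matrix.det_diagonal, Fin.prod_univ_succ, hc]
    simp
  have hO : (fun i => ∑ j, Matrix.diagonal c i j • a j) = fun i => c i • a i := by
    funext i
    rw [Finset.sum_eq_single i]
    · rw [Matrix.diagonal_apply_eq]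
    · intro j _ hj
      rw [Matrix.diagonal_apply_ne _ (Ne.symm hj), zero_smul]
    · intro h
      exact absurd (Finset.mem_univ i) h
  have hcc : ∀ i, c i * c i = 1 := by
    intro i
    rw [hc]
    refine Fin.cases ?_ (fun j => ?_) i
    · rw [Fin.cons_zero]; norm_num
    · rw [Fin.cons_succ]; norm_num
  refine ⟨fun i => ∑ j, Matrix.diagonal c i j • a j,
    ⟨fun i => Submodule.sum_mem _ fun j _ => Submodule.smul_mem _ _ (ha.mem j), ?_, ha.rank⟩, ?_⟩
  · rw [hO, orthonormal_iff_ite]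
    intro i j
    rw [real_inner_smul_left, real_inner_smul_right, orthonormal_iff_ite.1 ha.on i j]
    by_cases hij : i = j
    · subst hij
      rw [if_pos rfl, mul_one]
      exact hcc i
    · rw [if_neg hij, mul_zero, mul_zero]
  · rw [dtE_comb, hdet, neg_one_smul]

theorem IsFr.isOr {V : Submodule ℝ (EuclideanSpace ℝ (Fin n))} {a : Fin r → EuclideanSpace ℝ (Fin n)}
    (h : IsFr V a) : IsOrV V (dtE a) := ⟨a, h, rfl⟩

theorem IsOrV.exists {V : Submodule ℝ (EuclideanSpace ℝ (Fin n))} (hV : finrank ℝ V = r) :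
    ∃ o : EuclideanSpace ℝ (Fin r → Fin n), IsOrV V o := by
  obtain ⟨a, ha⟩ := IsFr.exists hV
  exact ⟨_, ha.isOr⟩

/-- the projection on the line of the orientations, as a matrix -/
theorem IsFr.rank_one {V : Submodule ℝ (EuclideanSpace ℝ (Fin n))} {a : Fin r → EuclideanSpace ℝ (Fin n)}
    (h : IsFr V a) (I J : Fin r → Fin n) : dtE a I * dtE a J =
      (Matrix.of fun k l => (V.starProjection (EuclideanSpace.single (J l) 1)) (I k)).det := by
  rw [dtE_apply, dtE_apply, dtn_mul]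
  congr 2
  funext k l
  have h1 : V.starProjection (EuclideanSpace.single (J l) (1 : ℝ)) = ∑ j, (a j (J l)) • a j := by
    have h2 := h.expand (V.starProjection_apply_mem (EuclideanSpace.single (J l) (1 : ℝ)))
    rw [h2]
    refine Finset.sum_congr rfl fun j _ => ?_
    congr 1
    rw [← Submodule.inner_starProjection_left_eq_right, Submodule.starProjection_eq_self_iff.2 (h.mem j),
      EuclideanSpace.inner_single_right]
    simp
  rw [h1, WithLp.ofLp_sum, Finset.sum_apply]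
  refine Finset.sum_congr rfl fun j _ => ?_
  rw [WithLp.ofLp_smul, Pi.smul_apply, smul_eq_mul, mul_comm]

end euclid

end Pool.Agent.Lib.MP_ccbbf6_gt.L5
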