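import Mathlib.LinearAlgebra.Matrix.Adjugate
import Pool.Agent.Lib.MP_ccbbf6_gt.L5.UOR03

/-!
# Level 5, SIV1: a determinant sum (helper2)
-/

set_option autoImplicit false
set_option linter.unusedSectionVars false
set_option linter.unusedVariables false

open Matrix

noncomputable section

namespace Pool.Agent.Lib.MP_ccbbf6_gt.L5

variable {ι : Type*} [Fintype ι] [DecidableEq ι] {m : ℕ}

/-- rows: the coordinates of the basis vectors -/
def rwM {r : ℕ} (a : Fin r → ι → ℝ) (I : Fin r → ι) : Matrix (Fin r) (Fin r) ℝ := Matrix.of fun k j => a j (I k)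

theorem dtn_eq {r : ℕ} (a : Fin r → ι → ℝ) (I : Fin r → ι) : dtn a I = (rwM a I).det := by
  unfold dtn rwM
  rw [← Matrix.det_transpose]
  rfl

theorem sum_cramer {r : ℕ} (B : Matrix (Fin r) (Fin r) ℝ) (y : Fin r → ℝ) :
    ∑ k, (B *ᵥ y) k * (B.updateRow k y).det = B.det * ∑ j, y j * y j := by
  have h1 : ∀ k, (B.updateRow k y).det = cramer Bᵀ y k := fun k => (cramer_transpose_apply B y k).symm
  simp only [h1]
  have h2 : ∑ k, (B *ᵥ y) k * cramer Bᵀ y k = (B *ᵥ y) ⬝ᵥ cramer Bᵀ y := rfl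
  rw [h2, dotProduct_comm, dotProduct_mulVec, ← mulVec_transpose, mulVec_cramer, smul_dotProduct, det_transpose, smul_eq_mul]
  rfl

/-- the sum with the `k`-th row replaced -/
def Fk {r : ℕ} (a : Fin r → ι → ℝ) (y : Fin r → ℝ) (k : Fin r) : ℝ :=
  ∑ I : Fin r → ι, dtn a I * ((rwM a I *ᵥ y) k * ((rwM a I).updateRow k y).det)

theorem Fk_eq (a : Fin (m + 1) → ι → ℝ) (y : Fin (m + 1) → ℝ) (k : Fin (m + 1)) : Fk a y k = Fk a y 0 := by
  unfold Fk
  obtain ⟨σ, hσ⟩ : ∃ σ : Equiv.Perm (Fin (m + 1)), σ = Equiv.swap 0 k := ⟨_, rfl⟩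
  have hσ0 : σ 0 = k := by rw [hσ]; exact Equiv.swap_apply_left _ _
  have hs : ((Equiv.Perm.sign σ : ℤ) : ℝ) * ((Equiv.Perm.sign σ : ℤ) : ℝ) = 1 := by
    rcases Int.units_eq_one_or (Equiv.Perm.sign σ) with h | h <;> rw [h] <;> simp
  have hb : Function.Bijective fun I : Fin (m + 1) → ι => I ∘ σ :=
    ⟨fun I J h => by
      funext i
      have := congrFun h (σ.symm i)
      simpa using this, fun I => ⟨I ∘ σ.symm, by funext i; simp⟩⟩
  refine Eq.trans ?_ (Function.Bijective.sum_comp hb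
    (fun I => dtn a I * ((rwM a I *ᵥ y) 0 * ((rwM a I).updateRow 0 y).det)))
  refine Finset.sum_congr rfl fun I _ => ?_
  have h1 : rwM a (I ∘ σ) = (rwM a I).submatrix σ id := rfl
  have h2 : dtn a (I ∘ σ) = ((Equiv.Perm.sign σ : ℤ) : ℝ) * dtn a I := by
    rw [dtn_eq, dtn_eq, h1, det_permute]
  have h3 : (rwM a (I ∘ σ) *ᵥ y) 0 = (rwM a I *ᵥ y) k := by
    rw [h1, ← hσ0]
    rfl
  have h4 : (rwM a (I ∘ σ)).updateRow 0 y = ((rwM a I).updateRow k y).submatrix σ id := by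
    rw [h1]
    ext i j
    rw [submatrix_apply, updateRow_apply, updateRow_apply]
    by_cases hi : i = 0
    · rw [if_pos hi, hi, hσ0, if_pos rfl]
      rfl
    · rw [if_neg hi, if_neg]
      · rfl
      · intro h
        exact hi (σ.injective (h.trans hσ0.symm))
  rw [h2, h3, h4, det_permute]
  calc _ = (((Equiv.Perm.sign σ : ℤ) : ℝ) * ((Equiv.Perm.sign σ : ℤ) : ℝ)) *
        (dtn a I * ((rwM a I *ᵥ y) k * ((rwM a I).updateRow k y).det)) := by rw [hs, one_mul]
    _ = _ := by ring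

/-- **the sum** -/
theorem sum_key {a : Fin (m + 1) → ι → ℝ} (ha : ∀ i j, ∑ x, a i x * a j x = if i = j then 1 else 0)
    {y : Fin (m + 1) → ℝ} (hy : ∑ j, y j * y j = 1) :
    ∑ I : Fin (m + 1) → ι, dtn a I * ((rwM a I *ᵥ y) 0 * ((rwM a I).updateRow 0 y).det) = (m.factorial : ℝ) := by
  have h1 : ∑ k, Fk a y k = ((m + 1).factorial : ℝ) := by
    unfold Fk
    rw [Finset.sum_comm]
    have h2 : ∀ I : Fin (m + 1) → ι, ∑ k, dtn a I * ((rwM a I *ᵥ y) k * ((rwM a I).updateRow k y).det) =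
        dtn a I * dtn a I := by
      intro I
      rw [← Finset.mul_sum, sum_cramer, hy, mul_one, ← dtn_eq]
    simp only [h2]
    rw [sum_dtn]
    have h3 : (Matrix.of fun i j => ∑ x, a i x * a j x) = (1 : Matrix (Fin (m + 1)) (Fin (m + 1)) ℝ) := by
      ext i j
      rw [Matrix.of_apply, ha, one_apply]
    rw [h3, det_one, mul_one]
  have h2 : ∑ k, Fk a y k = ((m : ℝ) + 1) * Fk a y 0 := by
    simp only [Fk_eq a y]
    rw [Finset.sum_const, Finset.card_univ, Fintype.card_fin, nsmul_eq_mul]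
    push_cast
    ring
  rw [h2, Nat.factorial_succ] at h1
  push_cast at h1
  have h3 : ((m : ℝ) + 1) ≠ 0 := by positivity
  exact mul_left_cancel₀ h3 h1

/-- the determinant of the values of the one-forms -/
theorem det_rows (c s : ℝ) (y : Fin (m + 1) → ℝ) (A : Fin m → Fin (m + 1) → ℝ) (t : Fin m → ℝ) :
    (Matrix.of (Fin.cons (c • y) fun k => s • (A k - t k • y) : Fin (m + 1) → Fin (m + 1) → ℝ)).det =
      c * s ^ m * (Matrix.of (Fin.cons y A : Fin (m + 1) → Fin (m + 1) → ℝ)).det := by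
  have h1 : (Matrix.of (Fin.cons (c • y) fun k => s • (A k - t k • y) : Fin (m + 1) → Fin (m + 1) → ℝ)) =
      Matrix.of fun i j => (Fin.cons c fun _ => s : Fin (m + 1) → ℝ) i *
        (Matrix.of (Fin.cons y fun k => A k - t k • y : Fin (m + 1) → Fin (m + 1) → ℝ)) i j := by
    ext i j
    refine Fin.cases ?_ (fun i => ?_) i
    · simp
    · simp
  rw [h1, det_mul_column, Fin.prod_univ_succ]
  simp only [Fin.cons_zero, Fin.cons_succ, Finset.prod_const, Finset.card_univ, Fintype.card_fin]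
  congr 1
  refine det_eq_of_forall_row_eq_smul_add_const (Fin.cons 0 fun k => -t k : Fin (m + 1) → ℝ) 0 (by simp) ?_
  intro i j
  refine Fin.cases ?_ (fun i => ?_) i
  · simp
  · simp only [Matrix.of_apply, Fin.cons_succ, Fin.cons_zero, Pi.sub_apply, Pi.smul_apply, smul_eq_mul]
    ring

theorem cons_eq_updateRow (a : Fin (m + 1) → ι → ℝ) (y : Fin (m + 1) → ℝ) (I : Fin (m + 1) → ι) :
    Matrix.of (Fin.cons y fun (k : Fin m) j => a j (I k.succ) : Fin (m + 1) → Fin (m + 1) → ℝ) =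
      (rwM a I).updateRow 0 y := by
  ext i j
  refine Fin.cases ?_ (fun i => ?_) i
  · rw [updateRow_self]
    rfl
  · rw [updateRow_ne (Fin.succ_ne_zero i)]
    rfl

end Pool.Agent.Lib.MP_ccbbf6_gt.L5
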