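import Pool.Agent.Lib.MP_ccbbf6_gt.L5.INTb

/-!
# Level 5, INTc: algebra of the fibre integration over `R^N` (helper67)

PROOFS. Everything is formal from L4/FRc, FRd (`dd_KK`, `KK_mul`, `KK_up`, `ev_Q0`, `ev_pb`, `Dg_KK`) and L5/Ofv (`ev_dd_congr`).
(0) `hdM k (N+1) (Fin.snoc w s) = hdM k N w`, `tlM k (N+1) (Fin.snoc w s) i.castSucc = tlM k N w i`,
    `tlM k (N+1) (Fin.snoc w s) (Fin.last N) = s` (w : V (k+N); note `k + (N+1) = (k+N)+1` definitionally;
    `Fin.castAdd (N+1) i = (Fin.castAdd N i).castSucc` and `Fin.natAdd k i.castSucc = (Fin.natAdd k i).castSucc` by `rfl`/`Fin.ext`).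
    `hdM k (N+1) = (hdM k N).comp (pr (k+N))`, `upN g (N+1) = (upN g N).up` (Sm.ext).
(1) CS_d: at a point w with t_i < 0 or 1 < t_i the form x vanishes near w, so `ev w (dd x) = 0` (`ev_dd_congr` with 0). At t_i = 0 or
    t_i = 1: for every linear L the function `w ↦ L (ev w (dd x))` is continuous (`contDiff_coef`) and zero on the open half space
    whose closure contains w (approach w along `w - τ e_i` resp. `w + τ e_i`, τ ↓ 0); all linear functionals zero => zero
    (`Module.forall_dual_apply_eq_zero_iff`).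
(2) CS_scM: `ev_pb`, `tl_scM`: t_i ≤ 0 or 1 ≤ t_i gives `3 ≤ |6 t_i - 3|`; `map_zero`.
(3) CS_KK: `KK x = Q0 (cs x)`; `ev_Q0` for all φ; `ev w (pb (sl s) (cs x)) = map _ (ev (snoc w s) (cs x))` and `ev z (cn φ x) = ctr φ (ev z x)`
    (induction on tensors as in L4/FI6 `ev_cn`), which is 0 because snoc w s is a bad point by (0).
(4) CS_faces: `ev_inj`, `ev_pb`, snoc w 1 (snoc w 0) is bad with i = Fin.last N.
(5) Jc_d: induction on N generalising x; `dd_KK x` and (4) give dd (KK x) = - KK (dd x); (3).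
(6) Jc_mul: induction on N generalising x; `pb (hdM k (N+1)) a = pb (pr _) (pb (hdM k N) a)` (`pb_comp`), `KK_mul`, `pb_sg`, and
    `(sg k)^[N+1] a = (sg k)^[N] (sg k a)` (`Function.iterate_succ_apply`).
(7) Jc_nat: induction, `KK_up`. (8) Dg_Jc: induction, `Dg_KK` (`j + (N+1) = (j+N)+1`).
(9) Jc_low: induction on N generalising j, x: for N+1: j = 0: `Dg_fn` (x = fc f) and `cn_fc` give KK x = 0; j = j'+1: `Dg_KK` and induction.
-/

set_option autoImplicit false
set_option linter.unusedSectionVars false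
set_option maxSynthPendingDepth 3

open Set Filter Topology
open scoped ContDiff

noncomputable section

namespace Pool.Agent.Lib.MP_ccbbf6_gt.L5

open L4 L4.FR

variable {k l N : ℕ}

theorem hd_scM (w : V (k + N)) : hdM k N (scM k N w) = hdM k N w :=
  hdM_append (hdM k N w) (fun i => 6 * tlM k N w i - 3)

theorem tl_scM (w : V (k + N)) : tlM k N (scM k N w) = fun i => 6 * tlM k N w i - 3 :=
  tlM_append (hdM k N w) (fun i => 6 * tlM k N w i - 3)

theorem hd_upN (g : FR.Sm k l) (w : V (k + N)) : hdM l N (upN g N w) = g (hdM k N w) :=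
  hdM_append (g (hdM k N w)) (tlM k N w)

theorem tl_upN (g : FR.Sm k l) (w : V (k + N)) : tlM l N (upN g N w) = tlM k N w :=
  tlM_append (g (hdM k N w)) (tlM k N w)

/-- support in the open unit cube (fibre coordinates) -/
def CS {k N : ℕ} (x : Fm (k + N)) : Prop := ∀ w : V (k + N), (∃ i, tlM k N w i ≤ 0 ∨ 1 ≤ tlM k N w i) → ev w x = 0

private theorem INTc_hd_snoc (w : V (k + N)) (s : ℝ) : hdM k (N + 1) (Fin.snoc w s : V (k + N + 1)) = hdM k N w :=
  funext fun i => Fin.snoc_castSucc (α := fun _ => ℝ) s w (Fin.castAdd N i)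

private theorem INTc_tl_snoc (w : V (k + N)) (s : ℝ) (i : Fin N) :
    tlM k (N + 1) (Fin.snoc w s : V (k + N + 1)) i.castSucc = tlM k N w i :=
  Fin.snoc_castSucc (α := fun _ => ℝ) s w (Fin.natAdd k i)

private theorem INTc_tl_last (w : V (k + N)) (s : ℝ) :
    tlM k (N + 1) (Fin.snoc w s : V (k + N + 1)) (Fin.last N) = s :=
  Fin.snoc_last (α := fun _ => ℝ) s w

/-- limits of zeros -/
private theorem INTc_lim {n : ℕ} (θ : Fm n) (w v : V n) (h : ∀ τ : ℝ, 0 < τ → ev (w + τ • v) θ = 0) : ev w θ = 0 := by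
  rw [← Module.forall_dual_apply_eq_zero_iff ℝ]
  intro L
  have hc : Continuous fun τ : ℝ => L (ev (w + τ • v) θ) :=
    (contDiff_coef L θ).continuous.comp (continuous_const.add (continuous_id.smul continuous_const))
  have h1 : Tendsto (fun τ : ℝ => L (ev (w + τ • v) θ)) (𝓝[>] (0 : ℝ)) (𝓝 (L (ev (w + (0 : ℝ) • v) θ))) :=
    hc.continuousAt.tendsto.mono_left nhdsWithin_le_nhds
  have h2 : Tendsto (fun τ : ℝ => L (ev (w + τ • v) θ)) (𝓝[>] (0 : ℝ)) (𝓝 0) := by
    refine tendsto_const_nhds.congr' ?_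
    filter_upwards [self_mem_nhdsWithin] with τ hτ
    rw [h τ hτ, map_zero]
  have h3 := tendsto_nhds_unique h1 h2
  rwa [zero_smul, add_zero] at h3

private theorem INTc_ev_cn {n : ℕ} (φ : V n →ₗ[ℝ] ℝ) (z : V n) (x : Fm n) : ev z (cn φ x) = ctr φ (ev z x) := by
  induction x using Fm_tind with
  | hf f a => rw [cn_tm, ev_tm, ev_tm, map_smul]
  | ha x y hx hy => rw [map_add, map_add, map_add, map_add, hx, hy]

theorem CS_d {x : Fm (k + N)} (hx : CS x) : CS (dd (k + N) x) := by
  rintro w ⟨i, hi⟩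
  have hopen : ∀ y : V (k + N), (y (Fin.natAdd k i) < 0 ∨ 1 < y (Fin.natAdd k i)) → ev y (dd (k + N) x) = 0 := by
    intro y hy
    have hc : Continuous fun z : V (k + N) => z (Fin.natAdd k i) := continuous_apply _
    have h1 : ∀ᶠ z in 𝓝 y, ev z x = ev z (0 : Fm (k + N)) := by
      rcases hy with hy | hy
      · filter_upwards [hc.continuousAt.eventually (gt_mem_nhds hy)] with z hz
        rw [map_zero]
        exact hx z ⟨i, Or.inl (le_of_lt hz)⟩
      · filter_upwards [hc.continuousAt.eventually (lt_mem_nhds hy)] with z hz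
        rw [map_zero]
        exact hx z ⟨i, Or.inr (le_of_lt hz)⟩
    have h2 := ev_dd_congr h1
    rwa [map_zero, map_zero] at h2
  rcases hi with hi | hi
  · refine INTc_lim _ w (-(Pi.single (Fin.natAdd k i) 1)) fun τ hτ => hopen _ (Or.inl ?_)
    have h1 : w (Fin.natAdd k i) ≤ 0 := hi
    have h2 : (w + τ • -(Pi.single (Fin.natAdd k i) 1) : V (k + N)) (Fin.natAdd k i) =
        w (Fin.natAdd k i) - τ := by
      simp only [Pi.add_apply, Pi.smul_apply, Pi.neg_apply, Pi.single_eq_same, smul_eq_mul]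
      ring
    rw [h2]
    linarith
  · refine INTc_lim _ w (Pi.single (Fin.natAdd k i) 1) fun τ hτ => hopen _ (Or.inr ?_)
    have h1 : 1 ≤ w (Fin.natAdd k i) := hi
    have h2 : (w + τ • (Pi.single (Fin.natAdd k i) 1) : V (k + N)) (Fin.natAdd k i) =
        w (Fin.natAdd k i) + τ := by
      simp only [Pi.add_apply, Pi.smul_apply, Pi.single_eq_same, smul_eq_mul]
      ring
    rw [h2]
    linarith

theorem CS_scM {x : Fm (k + N)} (hx : VS x) : CS (pb (scM k N) x) := by
  rintro w ⟨i, hi⟩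
  rw [ev_pb, hx (scM k N w) ⟨i, ?_⟩, map_zero]
  rw [tl_scM]
  show 3 ≤ |6 * tlM k N w i - 3|
  rw [le_abs]
  rcases hi with hi | hi
  · right
    linarith
  · left
    linarith

theorem CS_KK {x : Fm (k + (N + 1))} (hx : CS x) : CS (KK (k + N) x) := by
  rintro w ⟨i, hi⟩
  rw [← Module.forall_dual_apply_eq_zero_iff ℝ]
  intro φ
  rw [KK_apply, ev_Q0]
  have h1 : ∀ s : ℝ, φ (ev w (pb (sl (k + N) s) (cs (k + N) x))) = 0 := by
    intro s
    have h2 : ev (sl (k + N) s w) x = 0 := by
      rw [sl_apply]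
      refine hx (Fin.snoc w s : V (k + N + 1)) ⟨i.castSucc, ?_⟩
      rw [INTc_tl_snoc]
      exact hi
    have h3 : ev (sl (k + N) s w) (cs (k + N) x) = 0 := by
      unfold cs
      rw [INTc_ev_cn, h2, map_zero]
    rw [ev_pb, h3, map_zero, map_zero]
  simp only [h1]
  exact intervalIntegral.integral_zero

theorem CS_faces {x : Fm (k + (N + 1))} (hx : CS x) : pb (sl (k + N) 1) x = 0 ∧ pb (sl (k + N) 0) x = 0 := by
  constructor
  · refine ev_inj fun w => ?_
    have h2 : ev (sl (k + N) 1 w) x = 0 := by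
      rw [sl_apply]
      refine hx (Fin.snoc w 1 : V (k + N + 1)) ⟨Fin.last N, Or.inr ?_⟩
      rw [INTc_tl_last]
    rw [ev_pb, h2, map_zero]
  · refine ev_inj fun w => ?_
    have h2 : ev (sl (k + N) 0 w) x = 0 := by
      rw [sl_apply]
      refine hx (Fin.snoc w 0 : V (k + N + 1)) ⟨Fin.last N, Or.inl ?_⟩
      rw [INTc_tl_last]
    rw [ev_pb, h2, map_zero]

theorem Jc_d {x : Fm (k + N)} (hx : CS x) : dd k (Jc k N x) = (-1 : ℝ) ^ N • Jc k N (dd (k + N) x) := by
  induction N with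
  | zero =>
    rw [pow_zero, one_smul]
    rfl
  | succ N ih =>
    have h1 := ih (CS_KK hx)
    have h2 := dd_KK (k := k + N) x
    obtain ⟨h3, h4⟩ := CS_faces hx
    rw [h3, h4, sub_zero] at h2
    have h5 : dd (k + N) (KK (k + N) x) = -KK (k + N) (dd (k + N + 1) x) := eq_neg_of_add_eq_zero_left h2
    show dd k (Jc k N (KK (k + N) x)) = (-1 : ℝ) ^ (N + 1) • Jc k N (KK (k + N) (dd (k + N + 1) x))
    rw [h1, h5, map_neg, pow_succ, mul_neg_one, neg_smul, smul_neg]

theorem Jc_mul (a : Fm k) (x : Fm (k + N)) : Jc k N (pb (hdM k N) a * x) = (sg k)^[N] a * Jc k N x := by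
  induction N generalizing a with
  | zero =>
    have h1 : pb (hdM k 0) a = a := pb_id a
    show pb (hdM k 0) a * x = a * x
    rw [h1]
  | succ N ih =>
    have h1 : pb (hdM k (N + 1)) a = pb (pr (k + N)) (pb (hdM k N) a) := pb_comp (hdM k N) (pr (k + N)) a
    show Jc k N (KK (k + N) (pb (hdM k (N + 1)) a * x)) = (sg k)^[N + 1] a * Jc k N (KK (k + N) x)
    rw [h1, KK_mul, pb_sg, ih, Function.iterate_succ_apply]

theorem Jc_nat (g : FR.Sm k l) (x : Fm (l + N)) : Jc k N (pb (upN g N) x) = pb g (Jc l N x) := by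
  induction N with
  | zero =>
    have h1 : upN g 0 = g := Sm.ext fun w => funext fun i => Fin.append_left (g w) (tlM k 0 w) i
    show pb (upN g 0) x = pb g x
    rw [h1]
  | succ N ih =>
    have h1 : upN g (N + 1) = (upN g N).up := by
      refine Sm.ext fun w => ?_
      rw [← append_hd_tl (k := l) (N := N + 1) (upN g (N + 1) w), ← append_hd_tl (k := l) (N := N + 1) ((upN g N).up w)]
      have e1 : hdM l (N + 1) ((upN g N).up w) = hdM l (N + 1) (upN g (N + 1) w) := by
        rw [hd_upN]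
        exact (INTc_hd_snoc (upN g N (pr (k + N) w)) (w (Fin.last (k + N)))).trans (hd_upN g (pr (k + N) w))
      have e2 : tlM l (N + 1) ((upN g N).up w) = tlM l (N + 1) (upN g (N + 1) w) := by
        rw [tl_upN]
        funext i
        refine Fin.lastCases ?_ (fun i => ?_) i
        · exact INTc_tl_last (upN g N (pr (k + N) w)) (w (Fin.last (k + N)))
        · refine (INTc_tl_snoc (upN g N (pr (k + N) w)) (w (Fin.last (k + N))) i).trans ?_
          rw [tl_upN]
          rfl
      rw [e1, e2]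
    show Jc k N (KK (k + N) (pb (upN g (N + 1)) x)) = pb g (Jc l N (KK (l + N) x))
    rw [h1, KK_up, ih]

theorem Dg_Jc {j : ℕ} {x : Fm (k + N)} (hx : Dg (j + N) x) : Dg j (Jc k N x) := by
  induction N with
  | zero => exact hx
  | succ N ih => exact ih (Dg_KK (j := j + N) hx)

theorem Jc_low {j : ℕ} {x : Fm (k + N)} (hx : Dg j x) (h : j < N) : Jc k N x = 0 := by
  induction N generalizing j with
  | zero => exact absurd h (Nat.not_lt_zero j)
  | succ N ih =>
    show Jc k N (KK (k + N) x) = 0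
    rcases j with _ | j
    · have h1 : KK (k + N) x = 0 := by
        have h2 : fc (k + N + 1) (fn (k + N + 1) x) = x := Dg_fn hx
        rw [← h2, KK_apply]
        unfold cs
        rw [cn_fc, map_zero]
      rw [h1, map_zero]
    · exact ih (Dg_KK hx) (by omega)

/-- Stokes -/
theorem J_d {x : Fm (k + N)} (hx : VS x) : dd k (Jn k N x) = (-1 : ℝ) ^ N • Jn k N (dd (k + N) x) := by
  have h := Jc_d (CS_scM hx)
  rw [pb_dd] at h
  exact h

/-- projection formula -/
theorem J_mul (a : Fm k) (x : Fm (k + N)) : Jn k N (pb (hdM k N) a * x) = (sg k)^[N] a * Jn k N x := by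
  have h1 : (hdM k N).comp (scM k N) = hdM k N := Sm.ext fun w => hd_scM w
  show Jc k N (pb (scM k N) (pb (hdM k N) a * x)) = _ * Jc k N (pb (scM k N) x)
  rw [map_mul, ← pb_comp, h1, Jc_mul]

/-- naturality -/
theorem J_nat (g : FR.Sm k l) (x : Fm (l + N)) : Jn k N (pb (upN g N) x) = pb g (Jn l N x) := by
  have h1 : (upN g N).comp (scM k N) = (scM l N).comp (upN g N) := Sm.ext fun w => by
    change (Fin.append (g (hdM k N (scM k N w))) (tlM k N (scM k N w)) : V (l + N)) =
      Fin.append (hdM l N (upN g N w)) (fun i => 6 * tlM l N (upN g N w) i - 3)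
    rw [hd_scM, hd_upN, tl_upN, tl_scM]
  show Jc k N (pb (scM k N) (pb (upN g N) x)) = pb g (Jc l N (pb (scM l N) x))
  rw [← pb_comp, h1, pb_comp, Jc_nat]

theorem Dg_J {j : ℕ} {x : Fm (k + N)} (hx : Dg (j + N) x) : Dg j (Jn k N x) := Dg_Jc (Dg_pb _ hx)

theorem J_low {j : ℕ} {x : Fm (k + N)} (hx : Dg j x) (h : j < N) : Jn k N x = 0 := Jc_low (Dg_pb _ hx) h

end Pool.Agent.Lib.MP_ccbbf6_gt.L5
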