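import Pool.Agent.Lib.MP_ccbbf6_gt.L4.Eps
import Pool.Agent.Lib.MP_ccbbf6_gt.L5.INTc

/-!
# Level 5, INTf: fibre integration `JX N X : Om (X × R^N) → Om X` and integration over the unit sphere of `R^N`,
`SI N X : Om (X × (R^N - 0)) → Om X` (helper67)

PROOFS. PART 1 (up to `VSO_cutX`).
(1) xV_cmp: `Subtype.ext`, funext w, `Prod.ext` with `hd_upN`, `tl_upN` (INTc).
(2) JX_mul: `Om_ext`, `on_JX`, `on_mul`, `xV_pV` (on of a pull-back = on of a at `(pV X N).pl (P.xV N) = P.cmp (hdM k N)`; `on_pull`), `on_cmp`, `J_mul`; and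
    `Om.on ((sO X)^[N] a) P = (sg k)^[N] (Om.on a P)` by induction on N (`Function.iterate_succ_apply'`, `on_s`).
(3) KK_sgI: `KK_apply`, cs = cn (lst k), `sg_cn`, `Q0_sg` (FRd). (4) KK_mulr: induction `Fm_ind` on z: function: `fc_comm`, `KK_mul`, `sg_fc`; dx i: from `KK_mul` and
    `dx i * x = sg x * dx i` (proved in CWo/`odd_comm_Fm`: induction `Fm_tind` on x, `ι_swap`), `KK_sgI`; product and sum: associativity, linearity.
(5) Jc_mulr: induction on N, `pb (hdM k (N+1)) a = pb (pr _) (pb (hdM k N) a)` (`pb_comp`), `KK_mulr`. J_mulr: as `J_mul` in INTc. J_sg: induction with `KK_sgI` (and `pb_sg`). JX_mulr, JX_s as (2).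
(6) contDiff_chi_norm: `contDiff_iff_contDiffAt`; at ξ ≠ 0: `contDiffAt_norm` composed (`contDiff_toE`, `contDiff_chi`); at ξ = 0: near 0 the function is 0 (`chi_zero`), `ContDiffAt.congr_of_eventuallyEq`.
    (See L4/Eps.lean lines 54-80 for the same argument.)
(7) ev_dch: `Om.on (dch N X) p = dd k (Om.on (chiX N X) p)` (`on_d`); near z the values `ev y (on chiX p) = algebraMap (chi ‖toE (p.1 y).2‖)` are 0 (first case, open condition, compare with 0) resp. 1 (compare with 1);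
    `ev_dd_congr` of Ofv.
(8) Deg_dch: `Deg 0 (fO ..)` and `Deg_d`; s_dch: `sO (dO x) = - dO (sO x)`, `sO (fO f) = fO f` (ev: `ev_sg'`, `ivo` of a scalar).
(9) van_dch: `Van_res` of Ext0 (hypothesis = values vanish near the points outside U; from (7): outside U means (p.1 x).2 = 0, near it the norm is < 1).
(10) ev_cutX: `ev_ext0`; if `(p.1 z).2 = 0`: `vAt_not`; otherwise `vAt_mul (vU_inj _ _)`, `vAt_res (open_neZ X N)`, (7), `zero_mul`.
(11) VSO_cutX: for `w` with `3 ≤ |tlM k N w i|`: `‖toE ξ‖ ≥ |ξ_i| ≥ 3 > 2` (`norm_toE_sq` or `EuclideanSpace.norm_eq`, or `PiLp.norm_apply_le`), (10) with `p = P.xV N`.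
PART 2 (from `cutX_add` on; part 1 may be used).
(12) cutX_mul: `(inU ..).pull ((pV X N).pull (sO X a)) * (dch-part * Θ)`; use `mul_ext0` (backwards) and `ext0_congr`: need `dχ * (π^* a * Θ) = π^*(sO a) * (dχ * Θ)` in Om (X.xP N): `dχ` is odd:
    `odd_comm'` : `x * y = sO y * x` for `sO x = -x`. Prove this locally (CWo.lean of helper13 has the proof) or through (8). `(pP X N).pull a = (inU ..).pull ((pV X N).pull a)` (pull_comp), `pull_s`.
(13) cutX_mulr: `ext0_mul` and associativity. cutX_s: `ext0_s`, `sO` is a ring hom, s_dch. (14) cutX_d: `ext0_d`, Leibniz `d_mul`, `d_dch`, `s_dch`.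
(15) cutX_nat: `ext0_pull` or directly `ext_unique (open_neZ X N)`: restrictions: `inU_cutX`, `(inU ..).comp = ..` definitional, and `(f.xV N).pull (dch N Y) = dch N X` (chiX is natural: `Om_ext; rfl`; pull_d);
    values outside: `ev_ext0_not` on both sides (a plot p with (p x).2 = 0; `(f.xV N).pl p` has the same second component).
(16) SI_nat: (15) + JX_nat. SI_d: JX_d (VSO_cutX) + (14), signs `(-1)^N * (-1)`. SI_mul: (12) + JX_mul, `Function.iterate_succ_apply`. SI_mulr: (13) + JX_mulr. SI_s: (13) + JX_s.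
(17) Deg_SI: `Deg_mul` (1 + (j+N)), `Deg_ext0`, `Deg_JX` with `j + (N+1) = 1 + (j + N)`. SI_low: same with `JX_low` (1 + j < N).
-/

set_option autoImplicit false
set_option maxSynthPendingDepth 3

open Set Filter Topology MeasureTheory

open scoped ContDiff

noncomputable section

namespace Pool.Agent.Lib.MP_ccbbf6_gt.L5

open L4 L4.FR

variable {k l N : ℕ} {X Y : Space}

theorem xV_cmp (P : X.Plot l) (g : FR.Sm k l) : (P.cmp g).xV N = (P.xV N).cmp (upN g N) := by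

  refine Plot_ext fun w => ?_
  show (P.1 (g (hdM k N w)), tlM k N w) = (P.1 (hdM l N (upN g N w)), tlM l N (upN g N w))
  rw [hd_upN, tl_upN]

theorem xV_pV (P : X.Plot k) : (pV X N).pl (P.xV N) = P.cmp (hdM k N) := rfl

theorem xV_pl (f : SMap X Y) (P : X.Plot k) : (f.xV N).pl (P.xV N) = (f.pl P).xV N := rfl

/-- fibre integration over `[-3, 3]^N` -/
def JX (N : ℕ) (X : Space) : Om (X.xV N) →ₗ[ℝ] Om X where
  toFun Θ := mkO (fun k P => Jn k N (Om.on Θ (P.xV N))) (fun k l P g => by rw [xV_cmp, on_cmp, J_nat])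
  map_add' Θ Θ' := Om_ext fun k P => by simp
  map_smul' r Θ := Om_ext fun k P => by simp

theorem on_JX (Θ : Om (X.xV N)) (P : X.Plot k) : Om.on (JX N X Θ) P = Jn k N (Om.on Θ (P.xV N)) := rfl

theorem JX_nat (f : SMap X Y) (Θ : Om (Y.xV N)) : JX N X ((f.xV N).pull Θ) = f.pull (JX N Y Θ) := rfl

theorem JX_d {Θ : Om (X.xV N)} (h : VSO Θ) : dO X (JX N X Θ) = (-1 : ℝ) ^ N • JX N X (dO _ Θ) :=
  Om_ext fun k P => by
    rw [on_d, on_JX, J_d (h k P)]
    rfl

private theorem INTf_on_iter (a : Om X) (P : X.Plot k) (n : ℕ) :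
    Om.on ((sO X)^[n] a) P = (sg k)^[n] (Om.on a P) := by
  induction n with
  | zero => rfl
  | succ n ih => rw [Function.iterate_succ_apply', Function.iterate_succ_apply', on_s, ih]

theorem JX_mul (a : Om X) (Θ : Om (X.xV N)) : JX N X ((pV X N).pull a * Θ) = (sO X)^[N] a * JX N X Θ := by

  refine Om_ext fun k P => ?_
  rw [on_JX, on_mul, on_pull, xV_pV, on_cmp, J_mul, on_mul, INTf_on_iter, on_JX]

theorem KK_sgI (x : Fm (k + 1)) : KK k (sg (k + 1) x) = -sg k (KK k x) := by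

  rw [KK_apply, KK_apply, cs, ← Q0_sg, sg_cn, map_neg, neg_neg]

private theorem INTf_dx_swap (i : Fin k) (x : Fm k) : dx i * x = sg k x * dx i := by
  induction x using Fm_tind with
  | hf f a => rw [dx, cf_apply, tm_mul, sg_tm, tm_mul, one_mul, mul_one, ee, ι_swap]
  | ha x y hx hy => rw [mul_add, map_add, add_mul, hx, hy]

theorem KK_mulr (z : Fm k) (y : Fm (k + 1)) : KK k (y * pb (pr k) z) = KK k y * z := by

  induction z using Fm_ind generalizing y with
  | hf f =>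
    have h1 : y * pb (pr k) (fc k f) = pb (pr k) (fc k f) * y := by rw [pb_fc, fc_comm]
    rw [h1, KK_mul, sg_fc, fc_comm]
  | hd i =>
    have h1 : y * pb (pr k) (dx i) = pb (pr k) (dx i) * sg (k + 1) y := by
      rw [pb_pr_dx, INTf_dx_swap, sg_sg]
    rw [h1, KK_mul, KK_sgI, sg_dx, neg_mul_neg, INTf_dx_swap, sg_sg]
  | hm z w hz hw => rw [map_mul (pb (pr k)), ← mul_assoc, hw, hz, mul_assoc]
  | ha z w hz hw => rw [map_add, mul_add, map_add, hz, hw, mul_add]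

theorem Jc_mulr (a : Fm k) (x : Fm (k + N)) : Jc k N (x * pb (hdM k N) a) = Jc k N x * a := by

  induction N with
  | zero =>
    have h1 : hdM k 0 = FR.Sm.id k := Sm.ext fun w => rfl
    show x * pb (hdM k 0) a = x * a
    rw [h1]
    exact congrArg (x * ·) (pb_id a)
  | succ N ih =>
    have h1 : hdM k (N + 1) = (hdM k N).comp (pr (k + N)) := Sm.ext fun w => rfl
    show Jc k N (KK (k + N) (x * pb (hdM k (N + 1)) a)) = Jc k N (KK (k + N) x) * a
    rw [h1]
    have h2 : KK (k + N) (x * pb ((hdM k N).comp (pr (k + N))) a) = KK (k + N) x * pb (hdM k N) a := by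
      rw [pb_comp]
      exact KK_mulr _ _
    rw [h2, ih]

theorem J_mulr (a : Fm k) (x : Fm (k + N)) : Jn k N (x * pb (hdM k N) a) = Jn k N x * a := by

  have h1 : (hdM k N).comp (scM k N) = hdM k N := Sm.ext fun w => hd_scM w
  show Jc k N (pb (scM k N) (x * pb (hdM k N) a)) = Jc k N (pb (scM k N) x) * a
  rw [map_mul, ← pb_comp, h1, Jc_mulr]

private theorem INTf_Jc_sg (x : Fm (k + N)) : Jc k N (sg (k + N) x) = (-1 : ℝ) ^ N • sg k (Jc k N x) := by
  induction N with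
  | zero =>
    show sg k x = (-1 : ℝ) ^ 0 • sg k x
    rw [pow_zero, one_smul]
  | succ N ih =>
    show Jc k N (KK (k + N) (sg (k + N + 1) x)) = (-1 : ℝ) ^ (N + 1) • sg k (Jc k N (KK (k + N) x))
    rw [KK_sgI, map_neg, ih, pow_succ, mul_neg_one, neg_smul]

theorem J_sg (x : Fm (k + N)) : Jn k N (sg (k + N) x) = (-1 : ℝ) ^ N • sg k (Jn k N x) := by

  show Jc k N (pb (scM k N) (sg (k + N) x)) = (-1 : ℝ) ^ N • sg k (Jc k N (pb (scM k N) x))
  rw [← pb_sg]
  exact INTf_Jc_sg _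

theorem JX_mulr (a : Om X) (Θ : Om (X.xV N)) : JX N X (Θ * (pV X N).pull a) = JX N X Θ * a := by

  refine Om_ext fun k P => ?_
  rw [on_JX, on_mul, on_pull, xV_pV, on_cmp, J_mulr, on_mul, on_JX]

theorem JX_s (Θ : Om (X.xV N)) : JX N X (sO _ Θ) = (-1 : ℝ) ^ N • sO X (JX N X Θ) := by

  refine Om_ext fun k P => ?_
  rw [on_JX, on_s, J_sg, on_smul, on_s, on_JX]

theorem Deg_JX {j : ℕ} {Θ : Om (X.xV N)} (h : Deg (j + N) Θ) : Deg j (JX N X Θ) := fun k P => Dg_J (h _ _)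

theorem JX_low {j : ℕ} {Θ : Om (X.xV N)} (h : Deg j Θ) (hj : j < N) : JX N X Θ = 0 :=
  Om_ext fun k P => by rw [on_JX, J_low (h _ _) hj, on_zero]

/-! ### the sphere -/

theorem contDiff_chi_norm {N : ℕ} : ContDiff ℝ ∞ fun ξ : V N => chi ‖toE ξ‖ := by

  rw [contDiff_iff_contDiffAt]
  intro x
  by_cases hx : toE x = 0
  · have hE : (fun ξ : V N => chi ‖toE ξ‖) =ᶠ[𝓝 x] fun _ => 0 := by
      have h1 : ∀ᶠ y in 𝓝 x, ‖toE y‖ < 1 := by
        have h2 : Continuous fun y : V N => ‖toE y‖ := contDiff_toE.continuous.norm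
        exact h2.continuousAt.eventually (gt_mem_nhds (by simp only [hx, norm_zero]; exact one_pos))
      filter_upwards [h1] with y hy
      exact chi_zero hy.le
    exact contDiffAt_const.congr_of_eventuallyEq hE
  · have h1 : ContDiffAt ℝ ∞ (fun y : V N => ‖toE y‖) x := by
      have h2 : ContDiffAt ℝ ∞ (fun v : EuclideanSpace ℝ (Fin N) => ‖v‖) (toE x) := contDiffAt_norm ℝ hx
      exact h2.comp x contDiff_toE.contDiffAt
    exact contDiff_chi.contDiffAt.comp x h1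

/-- `χ(|ξ|)` -/
def chiX (N : ℕ) (X : Space) : Om (X.xV N) :=
  fO (fun z => chi ‖toE z.2‖) fun _ p => contDiff_chi_norm.comp p.2.2

/-- `d χ(|ξ|)` -/
def dch (N : ℕ) (X : Space) : Om (X.xV N) := dO _ (chiX N X)

private theorem INTf_cont_norm (p : (X.xV N).Plot k) : Continuous fun y : V k => ‖toE (p.1 y).2‖ :=
  (contDiff_toE.continuous.comp p.2.2.continuous).norm

/-- `dχ = 0` outside `1 ≤ |ξ| ≤ 2` -/
theorem ev_dch (p : (X.xV N).Plot k) (z : V k) (h : ‖toE (p.1 z).2‖ < 1 ∨ 2 < ‖toE (p.1 z).2‖) :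
    ev z (Om.on (dch N X) p) = 0 := by

  have hc := INTf_cont_norm p
  obtain ⟨c, hc1⟩ : ∃ c : ℝ, ∀ᶠ y in 𝓝 z, chi ‖toE (p.1 y).2‖ = c := by
    rcases h with h | h
    · refine ⟨0, ?_⟩
      filter_upwards [hc.continuousAt.eventually (gt_mem_nhds h)] with y hy
      exact chi_zero (le_of_lt hy)
    · refine ⟨1, ?_⟩
      filter_upwards [hc.continuousAt.eventually (lt_mem_nhds h)] with y hy
      exact chi_one (le_of_lt hy)
  have h1 : ev z (dd k (Om.on (chiX N X) p)) = ev z (dd k (algebraMap ℝ (Fm k) c)) := by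
    refine ev_dd_congr ?_
    filter_upwards [hc1] with y hy
    refine (ev_fO _ _ p y).trans ?_
    show algebraMap ℝ (Ex k) (chi ‖toE (p.1 y).2‖) = _
    rw [hy]
    exact ((ev y).commutes c).symm
  have h2 : dd k (algebraMap ℝ (Fm k) c) = 0 := by
    rw [Algebra.algebraMap_eq_smul_one, map_smul, dd_one, smul_zero]
  rw [dch, on_d, h1, h2, map_zero]

theorem Deg_dch : Deg 1 (dch N X) := by

  exact Deg_d (j := 0) fun k p => Dg_fc _

theorem s_dch : sO _ (dch N X) = -dch N X := by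

  exact Deg_odd (j := 0) Deg_dch

theorem d_dch : dO _ (dch N X) = 0 := d_d _

theorem van_dch (X : Space) (N : ℕ) : Van (X.xV N) (neZ X N) ((inU (X.xV N) (neZ X N)).pull (dch N X)) := by

  refine Van_res (open_neZ X N) fun k p x hx => ?_
  have h0 : (p.1 x).2 = 0 := by_contra fun h => hx h
  have h1 : ‖toE (p.1 x).2‖ < 1 := by
    rw [h0]
    show ‖(WithLp.toLp 2 (0 : V N) : EuclideanSpace ℝ (Fin N))‖ < 1
    rw [WithLp.toLp_zero, norm_zero]
    exact one_pos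
  filter_upwards [(INTf_cont_norm p).continuousAt.eventually (gt_mem_nhds h1)] with y hy
  exact ev_dch p y (Or.inl hy)

/-- `d χ(|ξ|) ∧ Θ`, extended by zero -/
def cutX {N : ℕ} (Θ : Om (X.xP N)) : Om (X.xV N) :=
  ext0 (open_neZ X N) ((inU (X.xV N) (neZ X N)).pull (dch N X) * Θ) (Van_mul (van_dch X N) Θ)

theorem inU_cutX (Θ : Om (X.xP N)) : (inU (X.xV N) (neZ X N)).pull (cutX Θ) =
    (inU (X.xV N) (neZ X N)).pull (dch N X) * Θ := ext0_res _ _

/-- the cut-off form has support in `1 ≤ |ξ| ≤ 2` -/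
theorem ev_cutX (Θ : Om (X.xP N)) (p : (X.xV N).Plot k) (z : V k) (h : ‖toE (p.1 z).2‖ < 1 ∨ 2 < ‖toE (p.1 z).2‖) :
    ev z (Om.on (cutX Θ) p) = 0 := by

  unfold cutX
  rw [ev_ext0]
  by_cases hz : (p.1 z).2 = 0
  · exact vAt_not (U := neZ X N) _ fun h1 => h1 hz
  · rw [vAt_mul (vU_inj _ _), vAt_res (open_neZ X N) (dch N X) p hz, ev_dch p z h, zero_mul]

theorem VSO_cutX (Θ : Om (X.xP N)) : VSO (cutX Θ) := by

  intro k P w hw
  obtain ⟨i, hi⟩ := hw
  refine ev_cutX Θ (P.xV N) w (Or.inr ?_)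
  show 2 < ‖toE (tlM k N w)‖
  have h1 : ‖(toE (tlM k N w)) i‖ ≤ ‖toE (tlM k N w)‖ := PiLp.norm_apply_le (toE (tlM k N w)) i
  have h2 : ‖(toE (tlM k N w)) i‖ = |tlM k N w i| := Real.norm_eq_abs _
  rw [h2] at h1
  linarith

theorem cutX_add (Θ Θ' : Om (X.xP N)) : cutX (Θ + Θ') = cutX Θ + cutX Θ' := by
  unfold cutX
  rw [← ext0_add]
  exact ext0_congr _ (mul_add _ _ _) _ _

theorem cutX_smul (r : ℝ) (Θ : Om (X.xP N)) : cutX (r • Θ) = r • cutX Θ := by
  unfold cutX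
  rw [← ext0_smul]
  exact ext0_congr _ (mul_smul_comm _ _ _) _ _

/-- `f × id` -/
def _root_.Pool.Agent.Lib.MP_ccbbf6_gt.L4.FR.SMap.xP (f : SMap X Y) (N : ℕ) : SMap (X.xP N) (Y.xP N) :=
  ⟨fun z => ⟨(f.1 z.1.1, z.1.2), z.2⟩, fun k p => ⟨f.2 k ⟨fun x => (p.1 x).1.1, p.2.1⟩, p.2.2⟩⟩

/-- projection -/
def pP (X : Space) (N : ℕ) : SMap (X.xP N) X := (pV X N).comp (inU (X.xV N) (neZ X N))

private theorem INTf2_odd_Fm {x : Fm k} (hx : sg k x = -x) (y : Fm k) : x * y = sg k y * x := by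
  induction y using Fm_ind with
  | hf f => rw [sg_fc, fc_comm]
  | hd i =>
    have h : ∀ x : Fm k, dx i * x = sg k x * dx i := by
      intro x
      induction x using Fm_tind with
      | hf f a =>
        rw [dx, cf_apply, tm_mul, sg_tm, tm_mul, one_mul, mul_one, ee, ι_swap]
      | ha x y hx hy => rw [mul_add, hx, hy, map_add, add_mul]
    have h2 : sg k (dx i) = -dx i := by
      rw [sg_dx]
    rw [h2, neg_mul, h, hx, neg_mul, neg_neg]
  | hm y z hy hz => rw [← mul_assoc, hy, mul_assoc, hz, map_mul, mul_assoc]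
  | ha y z hy hz => rw [mul_add, hy, hz, map_add, add_mul]

private theorem INTf2_odd {x : Om X} (hx : sO X x = -x) (y : Om X) : x * y = sO X y * x :=
  Om_ext fun k p => by
    rw [on_mul, on_mul, on_s]
    exact INTf2_odd_Fm (by rw [← on_s, hx, on_neg]) _

private theorem INTf2_s (X : Space) (N : ℕ) : sO _ ((inU (X.xV N) (neZ X N)).pull (dch N X)) =
    -(inU (X.xV N) (neZ X N)).pull (dch N X) := by
  rw [pull_s, s_dch, map_neg]

private theorem INTf2_d (X : Space) (N : ℕ) : dO _ ((inU (X.xV N) (neZ X N)).pull (dch N X)) = 0 := by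
  rw [pull_d, d_dch, map_zero]

private theorem INTf2_chi (f : SMap X Y) (N : ℕ) : (f.xV N).pull (chiX N Y) = chiX N X :=
  Om_ext fun _ _ => rfl

private theorem INTf2_dch (f : SMap X Y) (N : ℕ) : (f.xV N).pull (dch N Y) = dch N X := by
  unfold dch
  rw [← pull_d, INTf2_chi]

private theorem INTf2_neg {Θ : Om (X.xP N)} : -cutX Θ = ext0 (open_neZ X N)
    (-((inU (X.xV N) (neZ X N)).pull (dch N X) * Θ)) (Van_neg (Van_mul (van_dch X N) Θ)) :=
  (ext0_neg (open_neZ X N) (Van_mul (van_dch X N) Θ)).symm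

theorem cutX_mul (a : Om X) (Θ : Om (X.xP N)) : cutX ((pP X N).pull a * Θ) = (pV X N).pull (sO X a) * cutX Θ := by
  unfold cutX
  rw [mul_ext0]
  refine ext0_congr _ ?_ _ _
  have h1 : (pP X N).pull a = (inU (X.xV N) (neZ X N)).pull ((pV X N).pull a) := rfl
  have h2 : (inU (X.xV N) (neZ X N)).pull ((pV X N).pull (sO X a)) =
      sO _ ((inU (X.xV N) (neZ X N)).pull ((pV X N).pull a)) := rfl
  rw [h1, h2, ← mul_assoc, INTf2_odd (INTf2_s X N), mul_assoc]

theorem cutX_mulr (a : Om X) (Θ : Om (X.xP N)) : cutX (Θ * (pP X N).pull a) = cutX Θ * (pV X N).pull a := by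
  unfold cutX
  rw [ext0_mul]
  refine ext0_congr _ ?_ _ _
  have h1 : (pP X N).pull a = (inU (X.xV N) (neZ X N)).pull ((pV X N).pull a) := rfl
  rw [h1, mul_assoc]

theorem cutX_s (Θ : Om (X.xP N)) : cutX (sO _ Θ) = -sO _ (cutX Θ) := by
  have h0 : sO _ (cutX Θ) = ext0 (open_neZ X N) (sO _ ((inU (X.xV N) (neZ X N)).pull (dch N X) * Θ))
      (Van_s (Van_mul (van_dch X N) Θ)) := ext0_s (open_neZ X N) _
  rw [h0, ← ext0_neg]
  unfold cutX
  refine ext0_congr _ ?_ _ _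
  rw [map_mul, INTf2_s, neg_mul, neg_neg]

theorem cutX_d (Θ : Om (X.xP N)) : dO _ (cutX Θ) = -cutX (dO _ Θ) := by
  have h0 : dO _ (cutX Θ) = ext0 (open_neZ X N) (dO _ ((inU (X.xV N) (neZ X N)).pull (dch N X) * Θ))
      (Van_d (open_neZ X N) (Van_mul (van_dch X N) Θ)) := ext0_d (open_neZ X N) _
  rw [h0, INTf2_neg]
  refine ext0_congr _ ?_ _ _
  rw [d_mul, INTf2_d, INTf2_s, zero_mul, zero_add, neg_mul]

theorem cutX_nat (f : SMap X Y) (Θ : Om (Y.xP N)) : cutX ((f.xP N).pull Θ) = (f.xV N).pull (cutX Θ) := by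
  refine ext_unique (open_neZ X N) ?_ ?_
  · have h1 : (inU (X.xV N) (neZ X N)).pull ((f.xV N).pull (cutX Θ)) =
        (f.xP N).pull ((inU (Y.xV N) (neZ Y N)).pull (cutX Θ)) := rfl
    have h2 : (f.xP N).pull ((inU (Y.xV N) (neZ Y N)).pull (dch N Y)) =
        (inU (X.xV N) (neZ X N)).pull ((f.xV N).pull (dch N Y)) := rfl
    rw [inU_cutX, h1, inU_cutX, map_mul, h2, INTf2_dch]
  · intro k p x hx
    have h1 : ev x (Om.on (cutX ((f.xP N).pull Θ)) p) = 0 := ev_ext0_not (open_neZ X N) _ p hx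
    have h2 : ev x (Om.on (cutX Θ) ((f.xV N).pl p)) = 0 :=
      ev_ext0_not (open_neZ Y N) (Van_mul (van_dch Y N) Θ) ((f.xV N).pl p) hx
    rw [h1, on_pull, h2]

/-- integration over the unit sphere of `R^N` -/
def SI (N : ℕ) (X : Space) : Om (X.xP N) →ₗ[ℝ] Om X where
  toFun Θ := JX N X (cutX Θ)
  map_add' Θ Θ' := by rw [cutX_add, map_add]
  map_smul' r Θ := by
    rw [cutX_smul, map_smul]
    rfl

theorem SI_def (Θ : Om (X.xP N)) : SI N X Θ = JX N X (cutX Θ) := rfl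

theorem SI_nat (f : SMap X Y) (Θ : Om (Y.xP N)) : SI N X ((f.xP N).pull Θ) = f.pull (SI N Y Θ) := by
  rw [SI_def, SI_def, cutX_nat, JX_nat]

theorem SI_d (Θ : Om (X.xP N)) : dO X (SI N X Θ) = (-1 : ℝ) ^ (N + 1) • SI N X (dO _ Θ) := by
  rw [SI_def, SI_def, JX_d (VSO_cutX Θ), cutX_d, map_neg, pow_succ, mul_neg, mul_one, neg_smul, smul_neg]

theorem SI_mul (a : Om X) (Θ : Om (X.xP N)) : SI N X ((pP X N).pull a * Θ) = (sO X)^[N + 1] a * SI N X Θ := by
  rw [SI_def, SI_def, cutX_mul, JX_mul, Function.iterate_succ_apply]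

theorem SI_mulr (a : Om X) (Θ : Om (X.xP N)) : SI N X (Θ * (pP X N).pull a) = SI N X Θ * a := by
  rw [SI_def, SI_def, cutX_mulr, JX_mulr]

theorem SI_s (Θ : Om (X.xP N)) : SI N X (sO _ Θ) = (-1 : ℝ) ^ (N + 1) • sO X (SI N X Θ) := by
  rw [SI_def, SI_def, cutX_s, map_neg, JX_s, pow_succ, mul_neg, mul_one, neg_smul]

private theorem INTf2_Deg {j : ℕ} {Θ : Om (X.xP N)} (h : Deg j Θ) : Deg (1 + j) (cutX Θ) :=
  Deg_ext0 (open_neZ X N) (Van_mul (van_dch X N) Θ) (Deg_mul (Deg_pull _ Deg_dch) h)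

theorem Deg_SI {j : ℕ} {Θ : Om (X.xP (N + 1))} (h : Deg (j + N) Θ) : Deg j (SI (N + 1) X Θ) := by
  have h1 := INTf2_Deg h
  have h2 : 1 + (j + N) = j + (N + 1) := by omega
  rw [h2] at h1
  exact Deg_JX h1

theorem SI_low {j : ℕ} {Θ : Om (X.xP N)} (h : Deg j Θ) (hj : j + 1 < N) : SI N X Θ = 0 := by
  exact JX_low (INTf2_Deg h) (by omega)

end Pool.Agent.Lib.MP_ccbbf6_gt.L5
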