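import Pool.Agent.Lib.MP_ccbbf6_gt.L5.INTe
import Pool.Agent.Lib.MP_ccbbf6_gt.L5.INTf

/-!
# Level 5, INTg: change of frame (helper67)

PROOFS. (1) SI_frP: `Om_ext`, P a plot of X. `Om.on (SI N X Θ) P = Jn k N (Om.on (cutX Θ) (P.xV N))` (`SI_def`, `on_JX`). Let `A' z := A (P.1 z)` (smooth by hA) and `frM A'` the map of INTe.
 Claim: `Om.on (cutX ((frP hA h1).pull Θ)) (P.xV N) = pb (frM hA' ..) (Om.on (cutX Θ) (P.xV N))`; then `J_frM` (INTe; its support hypothesis is (10) of INTf: `ev_cutX`).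
 Claim: `cutX (frP.pull Θ) = frV.pull (cutX Θ)` where `frV : SMap (X.xV N) (X.xV N) := (x, ξ) ↦ (x, A(x) ξ)`: as `cutX_nat` (15): `frV.pull (dch N X) = dch N X` because `‖toE (A ξ)‖ = ‖toE ξ‖`
 (A^T A = 1: `sqn`/dot product; `norm_toE_sq`), and `frV.pl (P.xV N) = (P.xV N).cmp (frM ..)` (`Subtype.ext`, funext; `hdM_append`, `tlM_append`), `on_pull`, `on_cmp`.
(2) SI_change: evaluate on plots of `spV k`: let p := plM P, p' := plM P' : SMap (spV k) F. `Om.on (SI N F (ptm.pull θ)) P = Om.on (p.pull (SI N F (ptm.pull θ))) (idP k)` (`on_plM`)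
  `= Om.on (SI N (spV k) ((p.xP N).pull (ptm.pull θ))) (idP k)` (`SI_nat`, backwards). The hypothesis says `(p'.xP N) then ptm = frP then (p.xP N) then ptm` as maps (`pull_comp`; equality of SMaps by `Subtype.ext`/funext on points),
  with `A : (spV k).pt → ..`; `SmM A` from `hA` by composition with the plot (a plot of spV k is a smooth map). Then `SI_frP`.
-/

set_option autoImplicit false
set_option maxSynthPendingDepth 3

open Set Filter Topology MeasureTheory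
open scoped ContDiff

noncomputable section

namespace Pool.Agent.Lib.MP_ccbbf6_gt.L5

open L4 L4.FR

variable {k l N : ℕ} {X Y : Space}

/-- smooth matrices on `X` -/
def SmM (A : X.pt → Matrix (Fin N) (Fin N) ℝ) : Prop :=
  ∀ (k : ℕ) (p : X.Plot k) (i j : Fin N), ContDiff ℝ ∞ fun z => A (p.1 z) i j

theorem mulVec_ne {A : Matrix (Fin N) (Fin N) ℝ} (h : A.transpose * A = 1) {ξ : V N} (hξ : ξ ≠ 0) :
    A.mulVec ξ ≠ 0 := fun h0 => hξ (by
  have h1 : A.transpose.mulVec (A.mulVec ξ) = ξ := by rw [Matrix.mulVec_mulVec, h, Matrix.one_mulVec]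
  rw [← h1, h0, Matrix.mulVec_zero])

/-- the map `(x, ξ) ↦ (x, A(x) ξ)` -/
def frP {A : X.pt → Matrix (Fin N) (Fin N) ℝ} (hA : SmM A) (h1 : ∀ x, (A x).transpose * A x = 1) :
    SMap (X.xP N) (X.xP N) :=
  ⟨fun z => ⟨(z.1.1, (A z.1.1).mulVec z.1.2), mulVec_ne (h1 _) z.2⟩, fun k p =>
    ⟨p.2.1, contDiff_mulVec (A := fun x => A (p.1 x).1.1) (fun i j => hA k ⟨fun x => (p.1 x).1.1, p.2.1⟩ i j) p.2.2⟩⟩

/-- the map `(x, ξ) ↦ (x, A(x) ξ)` on `X × R^N` -/
private def INTg_frV {A : X.pt → Matrix (Fin N) (Fin N) ℝ} (hA : SmM A) : SMap (X.xV N) (X.xV N) :=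
  ⟨fun z => (z.1, (A z.1).mulVec z.2), fun k p =>
    ⟨p.2.1, contDiff_mulVec (A := fun x => A (p.1 x).1) (fun i j => hA k ⟨fun x => (p.1 x).1, p.2.1⟩ i j) p.2.2⟩⟩

private theorem INTg_norm {A : Matrix (Fin N) (Fin N) ℝ} (h : A.transpose * A = 1) (ξ : V N) :
    ‖toE (A.mulVec ξ)‖ = ‖toE ξ‖ := by
  have h1 : ∀ η : V N, ‖toE η‖ = Real.sqrt (dotProduct η η) := by
    intro η
    rw [EuclideanSpace.norm_eq]
    refine congrArg Real.sqrt (Finset.sum_congr rfl fun i _ => ?_)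
    show ‖η i‖ ^ 2 = η i * η i
    rw [Real.norm_eq_abs, sq_abs, pow_two]
  rw [h1, h1, Matrix.dotProduct_mulVec, ← Matrix.mulVec_transpose, Matrix.mulVec_mulVec, h, Matrix.one_mulVec]

private theorem INTg_dch {A : X.pt → Matrix (Fin N) (Fin N) ℝ} (hA : SmM A)
    (h1 : ∀ x, (A x).transpose * A x = 1) : (INTg_frV hA).pull (dch N X) = dch N X := by
  have h2 : (INTg_frV hA).pull (chiX N X) = chiX N X := by
    refine Om_ext fun k p => ev_ext fun z => ?_
    rw [on_pull]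
    refine (ev_fO _ _ ((INTg_frV hA).pl p) z).trans ((ev_fO _ _ p z).trans ?_).symm
    show algebraMap ℝ (Ex k) (chi ‖toE (p.1 z).2‖) =
      algebraMap ℝ (Ex k) (chi ‖toE ((A (p.1 z).1).mulVec (p.1 z).2)‖)
    rw [INTg_norm (h1 _)]
  show dO _ ((INTg_frV hA).pull (chiX N X)) = dO _ (chiX N X)
  rw [h2]

private theorem INTg_cutX {A : X.pt → Matrix (Fin N) (Fin N) ℝ} (hA : SmM A)
    (h1 : ∀ x, (A x).transpose * A x = 1) (Θ : Om (X.xP N)) :
    cutX ((frP hA h1).pull Θ) = (INTg_frV hA).pull (cutX Θ) := by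
  refine ext_unique (open_neZ X N) ?_ fun k p x hx => ?_
  · have h2 : (inU (X.xV N) (neZ X N)).pull ((INTg_frV hA).pull (cutX Θ)) =
        (frP hA h1).pull ((inU (X.xV N) (neZ X N)).pull (cutX Θ)) := rfl
    have h3 : (frP hA h1).pull ((inU (X.xV N) (neZ X N)).pull (dch N X)) =
        (inU (X.xV N) (neZ X N)).pull ((INTg_frV hA).pull (dch N X)) := rfl
    rw [inU_cutX, h2, inU_cutX, map_mul, h3, INTg_dch hA h1]
  · have h0 : (p.1 x).2 = 0 := by_contra fun h => hx h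
    have h4 : ((INTg_frV hA).pl p).1 x ∉ neZ X N := fun h => h (by
      show (A (p.1 x).1).mulVec (p.1 x).2 = 0
      rw [h0, Matrix.mulVec_zero])
    rw [on_pull]
    exact (ev_ext0_not (open_neZ X N) _ p hx).trans (ev_ext0_not (open_neZ X N) _ ((INTg_frV hA).pl p) h4).symm

/-- change of frame -/
theorem SI_frP {A : X.pt → Matrix (Fin N) (Fin N) ℝ} (hA : SmM A) (h1 : ∀ x, (A x).transpose * A x = 1) {s : ℝ}
    (hs : |s| = 1) (h2 : ∀ x, (A x).det = s) (Θ : Om (X.xP N)) : SI N X ((frP hA h1).pull Θ) = s • SI N X Θ := by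

  refine Om_ext fun k P => ?_
  have hA' : ∀ i j, ContDiff ℝ ∞ fun z => A (P.1 z) i j := fun i j => hA k P i j
  have h3 : (INTg_frV hA).pl (P.xV N) = (P.xV N).cmp (frM (fun z => A (P.1 z)) hA') := by
    refine Plot_ext fun w => ?_
    show (P.1 (hdM k N w), (A (P.1 (hdM k N w))).mulVec (tlM k N w)) =
      (P.1 (hdM k N (frM (fun z => A (P.1 z)) hA' w)), tlM k N (frM (fun z => A (P.1 z)) hA' w))
    have h4 : hdM k N (frM (fun z => A (P.1 z)) hA' w) = hdM k N w := hdM_append _ _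
    have h5 : tlM k N (frM (fun z => A (P.1 z)) hA' w) = (A (P.1 (hdM k N w))).mulVec (tlM k N w) :=
      tlM_append _ _
    rw [h4, h5]
  have h6 : Om.on (cutX ((frP hA h1).pull Θ)) (P.xV N) =
      pb (frM (fun z => A (P.1 z)) hA') (Om.on (cutX Θ) (P.xV N)) := by
    rw [INTg_cutX hA h1 Θ, on_pull, h3, on_cmp]
  have h7 : VS (pb (frM (fun z => A (P.1 z)) hA') (Om.on (cutX Θ) (P.xV N))) := by
    rw [← h6]
    exact VSO_cutX ((frP hA h1).pull Θ) k P
  rw [SI_def, on_JX, h6, J_frM hA' hs (fun z => h2 (P.1 z)) (VSO_cutX Θ k P) h7, on_smul, SI_def, on_JX]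

/-- the space `R^k` -/
def spV (k : ℕ) : Space where
  pt := V k
  Pl _ := {p | ContDiff ℝ ∞ p}
  pre := fun {_ _ _} hp g => (show ContDiff ℝ ∞ _ from hp).comp g.smooth

/-- a plot as a map -/
def plM (P : X.Plot k) : SMap (spV k) X := ⟨P.1, fun _ p => X.pre P.2 ⟨p.1, p.2⟩⟩

/-- the tautological plot -/
def idP (k : ℕ) : (spV k).Plot k := ⟨fun x => x, show ContDiff ℝ ∞ (fun x : V k => x) from contDiff_id⟩

theorem on_plM (P : X.Plot k) (θ : Om X) : Om.on ((plM P).pull θ) (idP k) = Om.on θ P := rfl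

/-- two families of coordinates -/
theorem SI_change {E F : Space} (ptm : SMap (F.xP N) E) {P P' : F.Plot k} {A : V k → Matrix (Fin N) (Fin N) ℝ}
    (hA : ∀ i j, ContDiff ℝ ∞ fun z => A z i j) (h1 : ∀ z, (A z).transpose * A z = 1) {s : ℝ} (hs : |s| = 1)
    (h2 : ∀ z, (A z).det = s) (h : ∀ z (ξ : V N) (hξ : ξ ≠ 0), ptm.1 ⟨(P'.1 z, ξ), hξ⟩ =
      ptm.1 ⟨(P.1 z, (A z).mulVec ξ), mulVec_ne (h1 z) hξ⟩) (θ : Om E) :
    Om.on (SI N F (ptm.pull θ)) P' = s • Om.on (SI N F (ptm.pull θ)) P := by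

  have hA' : SmM (X := spV k) A := fun k' p i j => (hA i j).comp (g := fun z => A z i j) (f := (p.1 : V k' → V k)) p.2
  have h3 : ((plM P').xP N).pull (ptm.pull θ) =
      (frP (X := spV k) hA' h1).pull (((plM P).xP N).pull (ptm.pull θ)) := by
    have h4 : ptm.comp ((plM P').xP N) = (ptm.comp ((plM P).xP N)).comp (frP (X := spV k) hA' h1) :=
      SMap_ext fun z => h z.1.1 z.1.2 z.2
    exact congrArg (fun f : SMap ((spV k).xP N) E => f.pull θ) h4
  rw [← on_plM P' (SI N F (ptm.pull θ)), ← on_plM P (SI N F (ptm.pull θ)), ← SI_nat, ← SI_nat, h3,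
    SI_frP (X := spV k) hA' h1 hs h2, on_smul]

end Pool.Agent.Lib.MP_ccbbf6_gt.L5
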