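import Pool.Agent.Lib.MP_ccbbf6_gt.L4.Cmp4
import Pool.Agent.Lib.MP_ccbbf6_gt.L4.F4a
import Pool.Agent.Lib.MP_ccbbf6_gt.L5.INTg

/-!
# Level 5, SIV2: fibre integrals over a point as integrals over `R^N` (helper2)
-/

set_option autoImplicit false
set_option maxSynthPendingDepth 3
set_option linter.unusedSectionVars false
set_option linter.unusedVariables false

open Set Filter Topology MeasureTheory
open scoped ContDiff

noncomputable section

namespace Pool.Agent.Lib.MP_ccbbf6_gt.L5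

open L4 L4.FR

variable {k l N m : ℕ} {X Y : Space}

/-- `ξ ↦ (0, ξ)` -/
def plVX (N : ℕ) : ((spV 0).xV N).Plot N := ⟨fun ξ => ((0 : V 0), ξ), show ContDiff ℝ ∞ (fun _ : V N => (0 : V 0)) from contDiff_const, contDiff_id⟩

theorem xV_idP (N : ℕ) : (idP 0).xV N = (plVX N).cmp (tlM 0 N) :=
  Plot_ext fun _ => Prod.ext (Subsingleton.elim (α := V 0) _ _) rfl

theorem topE_cast {m N : ℕ} (h : m = N) (A : V N →ₗ[ℝ] V m) (hA : ∀ v i, A v i = v (Fin.cast h i)) (x : Ex N) :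
    topE m (ExteriorAlgebra.map A x) = topE N x := by
  subst h
  have h1 : A = LinearMap.id := LinearMap.ext fun v => funext fun i => hA v i
  rw [h1, ExteriorAlgebra.map_id]
  rfl

theorem tr_tlM (w : V (0 + N)) (v : V N) (i : Fin (0 + N)) : tr (tlM 0 N) w v i = v (Fin.cast (Nat.zero_add N) i) := by
  show ∑ j, v j * (pd i ((tlM 0 N).cp j) : V (0 + N) → ℝ) w = _
  have h1 : ∀ j, (pd i ((tlM 0 N).cp j) : V (0 + N) → ℝ) w = if Fin.natAdd 0 j = i then 1 else 0 := by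
    intro j
    rw [pd_apply]
    have h2 : (((tlM 0 N).cp j : Cs (0 + N)) : V (0 + N) → ℝ) = fun x => x (Fin.natAdd 0 j) := rfl
    rw [h2]
    have h3 : HasFDerivAt (fun x : V (0 + N) => x (Fin.natAdd 0 j)) (ContinuousLinearMap.proj (R := ℝ) (φ := fun _ : Fin (0 + N) => ℝ) (Fin.natAdd 0 j)) w :=
      (ContinuousLinearMap.proj (R := ℝ) (φ := fun _ : Fin (0 + N) => ℝ) (Fin.natAdd 0 j)).hasFDerivAt
    rw [h3.fderiv]
    show (Pi.single i (1 : ℝ) : V (0 + N)) (Fin.natAdd 0 j) = _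
    rw [Pi.single_apply]
  simp only [h1]
  rw [Finset.sum_eq_single (Fin.cast (Nat.zero_add N) i)]
  · rw [if_pos, mul_one]
    exact Fin.ext (by simp)
  · intro j _ hj
    rw [if_neg, mul_zero]
    intro h
    apply hj
    exact Fin.ext (by
      have := congrArg Fin.val h
      simpa using this)
  · intro h
    exact absurd (Finset.mem_univ _) h

/-- **the fibre integral over a point** -/
theorem topE_JX (Φ : Om ((spV 0).xV N)) (h : VSO Φ) : topE 0 (ev 0 (Om.on (JX N (spV 0) Φ) (idP 0))) =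
    (-1 : ℝ) ^ (N * (N - 1) / 2) * ∫ ξ : V N, topE N (ev ξ (Om.on Φ (plVX N))) := by
  rw [on_JX, ev_J (h 0 (idP 0)) (topE 0) 0, ← integral_const_mul]
  congr 1
  funext ξ
  rw [topE_tN, xV_idP, on_cmp, ev_pb, topE_cast (Nat.zero_add N) _ (tr_tlM _), tlM_append]
  rw [Nat.zero_mul, Nat.zero_add]

/-- values of functions at the point -/
theorem val_idP {θ : Om (spV 0)} (h : Deg 0 θ) : val θ (idP 0) = topE 0 (ev 0 (Om.on θ (idP 0))) := by
  rw [on_val h]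
  have h1 : ev (0 : V 0) (algebraMap ℝ (Fm 0) (val θ (idP 0))) = val θ (idP 0) • (1 : Ex 0) := by
    rw [AlgHom.commutes, Algebra.algebraMap_eq_smul_one]
  rw [h1, map_smul, smul_eq_mul]
  have h2 : topE 0 (1 : Ex 0) = 1 := by
    have h3 := topE_ιMulti (k := 0) (fun i => i.elim0)
    rw [ExteriorAlgebra.ιMulti_apply, List.ofFn_zero, List.prod_nil] at h3
    rw [h3]
    exact Matrix.det_fin_zero
  rw [h2, mul_one]

theorem eq_val {θ : Om (spV 0)} (h : Deg 0 θ) : θ = algebraMap ℝ (Om (spV 0)) (val θ (idP 0)) :=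
  eq_const h fun p => by
    congr 1
    exact Plot_ext fun x => Subsingleton.elim (α := V 0) _ _

/-! ### forms on the sphere over a point -/

/-- a local plot of `R^N - 0` over the point -/
theorem exists_plP {ξ : V N} (h : ξ ≠ 0) : ∃ Q : ((spV 0).xP N).Plot N, ∀ᶠ w in 𝓝 ξ, (Q.1 w).1 = (plVX N).1 w := by
  obtain ⟨Q, hQ⟩ := locPl_of (open_neZ (spV 0) N) (plVX N) (z := ξ) h
  exact ⟨Q, hQ⟩

theorem ev_cutX_plV (Θ : Om ((spV 0).xP N)) {ξ : V N} (Q : ((spV 0).xP N).Plot N)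
    (hQ : ∀ᶠ w in 𝓝 ξ, (Q.1 w).1 = (plVX N).1 w) :
    ev ξ (Om.on (cutX Θ) (plVX N)) = ev ξ (Om.on (dch N (spV 0)) (plVX N)) * ev ξ (Om.on Θ Q) := by
  have h0 : (plVX N).1 ξ ∈ neZ (spV 0) N := by
    rw [← hQ.self_of_nhds]
    exact (Q.1 ξ).2
  have h1 : ev ξ (Om.on (cutX Θ) (plVX N)) = ev ξ (Om.on ((inU _ (neZ (spV 0) N)).pull (cutX Θ)) Q) := by
    rw [← vAt_res (open_neZ (spV 0) N) (cutX Θ) (plVX N) h0, vAt_eq (vU_inj _ _) _ Q hQ]
  have h2 : ev ξ (Om.on (dch N (spV 0)) (plVX N)) = ev ξ (Om.on ((inU _ (neZ (spV 0) N)).pull (dch N (spV 0))) Q) := by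
    rw [← vAt_res (open_neZ (spV 0) N) (dch N (spV 0)) (plVX N) h0, vAt_eq (vU_inj _ _) _ Q hQ]
  rw [h1, h2, inU_cutX, on_mul, map_mul]

/-! ### the norm -/

theorem toE_sq (x : V N) : ‖toE x‖ ^ 2 = ∑ j, x j ^ 2 := by
  rw [EuclideanSpace.norm_sq_eq]
  exact Finset.sum_congr rfl fun i _ => by rw [Real.norm_eq_abs, sq_abs]; rfl

theorem hasFDerivAt_nE {ξ : V N} (h : ξ ≠ 0) : HasFDerivAt (fun x : V N => ‖toE x‖)
    (‖toE ξ‖⁻¹ • ∑ j, ξ j • ContinuousLinearMap.proj (R := ℝ) (φ := fun _ : Fin N => ℝ) j) ξ := by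
  have h0 : ‖toE ξ‖ ≠ 0 := norm_ne_zero_iff.2 (toE_ne h)
  have h1 : HasFDerivAt (fun x : V N => ∑ j, x j ^ 2)
      (∑ j, (2 * ξ j) • ContinuousLinearMap.proj (R := ℝ) (φ := fun _ : Fin N => ℝ) j) ξ := by
    refine HasFDerivAt.fun_sum fun j _ => ?_
    have h2 : HasFDerivAt (fun x : V N => x j) (ContinuousLinearMap.proj (R := ℝ) (φ := fun _ : Fin N => ℝ) j) ξ :=
      (ContinuousLinearMap.proj (R := ℝ) (φ := fun _ : Fin N => ℝ) j).hasFDerivAt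
    have h3 := h2.pow 2
    simpa using h3
  have h2 : ∀ x : V N, ∑ j, x j ^ 2 = ‖toE x‖ ^ 2 := fun x => (toE_sq x).symm
  have h3 : (∑ j, ξ j ^ 2) ≠ 0 := by
    rw [h2]
    exact pow_ne_zero 2 h0
  have h4 := h1.sqrt h3
  have h5 : (fun x : V N => √(∑ j, x j ^ 2)) = fun x => ‖toE x‖ := by
    funext x
    rw [h2, Real.sqrt_sq (norm_nonneg _)]
  rw [h5] at h4
  refine h4.congr_fderiv ?_
  rw [h2, Real.sqrt_sq (norm_nonneg _)]
  ext v
  simp only [_root_.smul_apply, _root_.sum_apply, ContinuousLinearMap.proj_apply, smul_eq_mul]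
  rw [Finset.mul_sum, Finset.mul_sum]
  refine Finset.sum_congr rfl fun j _ => ?_
  field_simp

/-- the unit vector -/
def hat (ξ : V N) : V N := ‖toE ξ‖⁻¹ • ξ

theorem sum_hat {ξ : V N} (h : ξ ≠ 0) : ∑ j, hat ξ j * hat ξ j = 1 := by
  have h0 : ‖toE ξ‖ ≠ 0 := norm_ne_zero_iff.2 (toE_ne h)
  have h1 : ∀ j, hat ξ j * hat ξ j = (‖toE ξ‖⁻¹) ^ 2 * ξ j ^ 2 := fun j => by
    show (‖toE ξ‖⁻¹ * ξ j) * (‖toE ξ‖⁻¹ * ξ j) = _
    ring
  simp only [h1]
  rw [← Finset.mul_sum]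
  have h2 : ∑ j, ξ j ^ 2 = ‖toE ξ‖ ^ 2 := (toE_sq ξ).symm
  rw [h2, inv_pow, inv_mul_cancel₀ (pow_ne_zero 2 h0)]

/-- the value of `dχ` -/
theorem ev_dch_plV {ξ : V N} (h : ξ ≠ 0) :
    ev ξ (Om.on (dch N (spV 0)) (plVX N)) = ExteriorAlgebra.ι ℝ (deriv chi ‖toE ξ‖ • hat ξ) := by
  unfold dch
  rw [on_d]
  have h1 : Om.on (chiX N (spV 0)) (plVX N) = fc N ⟨fun x => chi ‖toE x‖, contDiff_chi_norm⟩ := rfl
  rw [h1, ev_dd_fc]
  congr 1
  funext i
  rw [pd_apply]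
  have h2 : HasFDerivAt (fun x : V N => chi ‖toE x‖) (deriv chi ‖toE ξ‖ • (‖toE ξ‖⁻¹ • ∑ j, ξ j • ContinuousLinearMap.proj (R := ℝ) (φ := fun _ : Fin N => ℝ) j)) ξ := by
    have h3 : HasDerivAt chi (deriv chi ‖toE ξ‖) ‖toE ξ‖ := (contDiff_chi.differentiable (by simp)).differentiableAt.hasDerivAt
    exact h3.comp_hasFDerivAt ξ (hasFDerivAt_nE h)
  have h4 : fderiv ℝ (((⟨fun x => chi ‖toE x‖, contDiff_chi_norm⟩ : Cs N) : Cs N) : V N → ℝ) ξ = _ := h2.fderiv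
  rw [h4]
  simp only [_root_.smul_apply, _root_.sum_apply, ContinuousLinearMap.proj_apply, smul_eq_mul]
  show _ = deriv chi ‖toE ξ‖ * (‖toE ξ‖⁻¹ * ξ i)
  rw [Finset.sum_eq_single i]
  · rw [Pi.single_eq_same, mul_one]
  · intro j _ hj
    rw [Pi.single_eq_of_ne hj, mul_zero]
  · intro h5
    exact absurd (Finset.mem_univ i) h5

end Pool.Agent.Lib.MP_ccbbf6_gt.L5
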