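import Pool.Agent.Lib.MP_ccbbf6_gt.L4.VOL3
import Pool.Agent.Lib.MP_ccbbf6_gt.L5.SIV1
import Pool.Agent.Lib.MP_ccbbf6_gt.L5.SIV2

/-!
# Level 5, SIV3: the integral of the standard angular form over the sphere (helper2)

`yX N X i`: the `i`-th coordinate of the unit vector, `YX a e = ∑ j, a j e • yX j` for a family `a : Fin N → ι → ℝ`,
`StdF a = ∑ I, dtn a I • (YX (I 0) * d YX (I 1) * .. * d YX (I m))` (`N = m + 1`).
`SI_StdF`: for orthonormal `a` the fibre integral is `(-1)^(N (N-1) / 2) N! vol (B^N)`.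
-/

set_option autoImplicit false
set_option maxSynthPendingDepth 3
set_option linter.unusedSectionVars false
set_option linter.unusedVariables false

open Set Filter Topology MeasureTheory
open scoped ContDiff

noncomputable section

namespace Pool.Agent.Lib.MP_ccbbf6_gt.L5

open Geo L4 L4.FR

variable {k l N m : ℕ} {X Y : Space}

theorem onSum {ι : Type*} (s : Finset ι) (f : ι → Om X) (p : X.Plot k) :
    Om.on (∑ i ∈ s, f i) p = ∑ i ∈ s, Om.on (f i) p := by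
  classical
  induction s using Finset.induction_on with
  | empty => rw [Finset.sum_empty, Finset.sum_empty, on_zero]
  | insert a s ha ih => rw [Finset.sum_insert ha, Finset.sum_insert ha, on_add, ih]

theorem DegSum {ι : Type*} (s : Finset ι) {f : ι → Om X} {j : ℕ} (h : ∀ i, Deg j (f i)) : Deg j (∑ i ∈ s, f i) := by
  classical
  induction s using Finset.induction_on with
  | empty =>
    rw [Finset.sum_empty]
    exact Deg_zero
  | insert a s ha ih =>
    rw [Finset.sum_insert ha]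
    exact Deg_add (h a) ih

theorem contDiff_hat {F : Type*} [NormedAddCommGroup F] [NormedSpace ℝ F] {g : F → V N} (hg : ContDiff ℝ ∞ g)
    (h : ∀ x, g x ≠ 0) : ContDiff ℝ ∞ fun x => hat (g x) := by
  unfold hat
  have h1 : ContDiff ℝ ∞ fun x => ‖toE (g x)‖⁻¹ :=
    ContDiff.inv (ContDiff.norm ℝ (contDiff_toE.comp hg) fun x => toE_ne (h x)) fun x => norm_ne_zero_iff.2 (toE_ne (h x))
  exact h1.smul hg

/-- coordinates of the unit vector -/
def yX (N : ℕ) (X : Space) (i : Fin N) : Om (X.xP N) :=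
  fO (fun z => hat z.1.2 i) fun _ p => contDiff_pi.1 (contDiff_hat (g := fun x => (p.1 x).1.2) p.2.2 fun x => (p.1 x).2) i

theorem yX_pull (f : SMap X Y) (i : Fin N) : (f.xP N).pull (yX N Y i) = yX N X i := rfl

section family

variable {ι : Type*} [Fintype ι] [DecidableEq ι]

/-- coordinates of the unit vector in the ambient space -/
def YX (X : Space) (a : Fin N → ι → ℝ) (e : ι) : Om (X.xP N) := ∑ j, a j e • yX N X j

/-- a term of the standard form -/
def TmF (X : Space) (a : Fin (m + 1) → ι → ℝ) (I : Fin (m + 1) → ι) : Om (X.xP (m + 1)) :=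
  YX X a (I 0) * (List.ofFn fun k : Fin m => dO _ (YX X a (I k.succ))).prod

/-- the standard form -/
def StdF (X : Space) (a : Fin (m + 1) → ι → ℝ) : Om (X.xP (m + 1)) := ∑ I : Fin (m + 1) → ι, dtn a I • TmF X a I

theorem YX_pull (f : SMap X Y) (a : Fin N → ι → ℝ) (e : ι) : (f.xP N).pull (YX Y a e) = YX X a e := by
  unfold YX
  rw [map_sum]
  refine Finset.sum_congr rfl fun j _ => ?_
  rw [map_smul, yX_pull]

theorem TmF_pull (f : SMap X Y) (a : Fin (m + 1) → ι → ℝ) (I : Fin (m + 1) → ι) :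
    (f.xP (m + 1)).pull (TmF Y a I) = TmF X a I := by
  unfold TmF
  rw [map_mul, YX_pull, map_list_prod, List.map_ofFn]
  congr 3
  funext k
  show (f.xP (m + 1)).pull (dO _ (YX Y a (I k.succ))) = _
  rw [← pull_d, YX_pull]

theorem StdF_pull (f : SMap X Y) (a : Fin (m + 1) → ι → ℝ) : (f.xP (m + 1)).pull (StdF Y a) = StdF X a := by
  unfold StdF
  rw [map_sum]
  refine Finset.sum_congr rfl fun I _ => ?_
  rw [map_smul, TmF_pull]

theorem Deg_YX (a : Fin N → ι → ℝ) (e : ι) : Deg 0 (YX X a e) := by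
  unfold YX
  exact DegSum _ fun j => Deg_smul _ fun k p => Dg_fc _

theorem Deg_ofFn {X : Space} : ∀ (m : ℕ) (f : Fin m → Om X), (∀ i, Deg 1 (f i)) → Deg m (List.ofFn f).prod
  | 0, f, _ => by
    rw [List.ofFn_zero, List.prod_nil]
    exact Deg_one
  | m + 1, f, h => by
    rw [List.ofFn_succ, List.prod_cons]
    have h1 := Deg_mul (h 0) (Deg_ofFn m (fun i => f i.succ) fun i => h _)
    rwa [add_comm 1 m] at h1

theorem Deg_TmF (a : Fin (m + 1) → ι → ℝ) (I : Fin (m + 1) → ι) : Deg m (TmF X a I) := by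
  have h := Deg_mul (Deg_YX (X := X) a (I 0)) (Deg_ofFn m _ fun k : Fin m => Deg_d (j := 0) (Deg_YX (X := X) a (I k.succ)))
  rwa [zero_add] at h

theorem Deg_StdF (a : Fin (m + 1) → ι → ℝ) : Deg m (StdF X a) := by
  unfold StdF
  exact DegSum _ fun I => Deg_smul _ (Deg_TmF a I)

/-! ### values -/

theorem ev_YX (a : Fin N → ι → ℝ) (e : ι) (Q : ((spV 0).xP N).Plot N) {ξ : V N}
    (hQ : ∀ᶠ w in 𝓝 ξ, (Q.1 w).1 = (plVX N).1 w) :
    ev ξ (Om.on (YX (spV 0) a e) Q) = algebraMap ℝ (Ex N) (∑ j, a j e * hat ξ j) := by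
  unfold YX
  rw [onSum, map_sum, map_sum]
  refine Finset.sum_congr rfl fun j _ => ?_
  rw [on_smul, map_smul, yX, ev_fO]
  have h1 : (Q.1 ξ).1.2 = ξ := by rw [hQ.self_of_nhds]; rfl
  rw [h1, map_mul, Algebra.smul_def]

theorem ev_dYX (a : Fin N → ι → ℝ) (e : ι) (Q : ((spV 0).xP N).Plot N) {ξ : V N} (hξ : ξ ≠ 0)
    (hQ : ∀ᶠ w in 𝓝 ξ, (Q.1 w).1 = (plVX N).1 w) :
    ev ξ (Om.on (dO _ (YX (spV 0) a e)) Q) =
      ExteriorAlgebra.ι ℝ (‖toE ξ‖⁻¹ • ((fun j => a j e) - (∑ j, a j e * hat ξ j) • hat ξ)) := by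
  have h0 : ‖toE ξ‖ ≠ 0 := norm_ne_zero_iff.2 (toE_ne hξ)
  -- one coordinate
  have key : ∀ j, ev ξ (Om.on (dO _ (yX N (spV 0) j)) Q) =
      ExteriorAlgebra.ι ℝ (‖toE ξ‖⁻¹ • ((Pi.single j 1 : V N) - hat ξ j • hat ξ)) := by
    intro j
    rw [on_d]
    have h1 : Om.on (yX N (spV 0) j) Q = fc N ⟨fun x => hat (Q.1 x).1.2 j,
      contDiff_pi.1 (contDiff_hat (g := fun x => (Q.1 x).1.2) Q.2.2 fun x => (Q.1 x).2) j⟩ := rfl
    rw [h1, ev_dd_fc]
    congr 1
    funext i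
    rw [pd_apply]
    have hev : (((⟨fun x => hat (Q.1 x).1.2 j, contDiff_pi.1 (contDiff_hat (g := fun x => (Q.1 x).1.2) Q.2.2
        fun x => (Q.1 x).2) j⟩ : Cs N) : Cs N) : V N → ℝ) =ᶠ[𝓝 ξ] fun x => ‖toE x‖⁻¹ * x j := by
      filter_upwards [hQ] with w hw
      show hat (Q.1 w).1.2 j = _
      rw [hw]
      rfl
    rw [hev.fderiv_eq]
    have h2 : HasFDerivAt (fun x : V N => x j) (ContinuousLinearMap.proj (R := ℝ) (φ := fun _ : Fin N => ℝ) j) ξ :=
      (ContinuousLinearMap.proj (R := ℝ) (φ := fun _ : Fin N => ℝ) j).hasFDerivAt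
    have h3 := ((hasDerivAt_inv h0).comp_hasFDerivAt ξ (hasFDerivAt_nE hξ)).mul h2
    have h4 : fderiv ℝ (fun x : V N => ‖toE x‖⁻¹ * x j) ξ = _ := h3.fderiv
    rw [h4]
    simp only [_root_.add_apply, _root_.smul_apply, _root_.sum_apply, ContinuousLinearMap.proj_apply, smul_eq_mul]
    rw [Finset.sum_eq_single i (fun b _ hb => by rw [Pi.single_eq_of_ne hb, mul_zero])
      (fun h5 => absurd (Finset.mem_univ i) h5), Pi.single_eq_same, mul_one]
    show _ = ‖toE ξ‖⁻¹ * ((Pi.single j 1 : V N) i - ‖toE ξ‖⁻¹ * ξ j * (‖toE ξ‖⁻¹ * ξ i))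
    have h6 : (Pi.single i (1 : ℝ) : V N) j = (Pi.single j 1 : V N) i := by
      rw [Pi.single_apply, Pi.single_apply]
      by_cases hij : j = i
      · rw [if_pos hij, if_pos hij.symm]
      · rw [if_neg hij, if_neg (Ne.symm hij)]
    rw [h6]
    have h7 : ((fun y : ℝ => y⁻¹) ∘ fun x : V N => ‖toE x‖) ξ = ‖toE ξ‖⁻¹ := rfl
    rw [h7]
    field_simp
    ring
  unfold YX
  rw [map_sum, onSum, map_sum]
  have h1 : ∀ j, ev ξ (Om.on (dO _ (a j e • yX N (spV 0) j)) Q) =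
      a j e • ExteriorAlgebra.ι ℝ (‖toE ξ‖⁻¹ • ((Pi.single j 1 : V N) - hat ξ j • hat ξ)) := by
    intro j
    rw [map_smul, on_smul, map_smul, key]
  simp only [h1]
  simp only [← map_smul]
  rw [← map_sum]
  congr 1
  funext i
  rw [Finset.sum_apply]
  show ∑ j, a j e * (‖toE ξ‖⁻¹ * ((Pi.single j 1 : V N) i - hat ξ j * hat ξ i)) =
    ‖toE ξ‖⁻¹ * (a i e - (∑ j, a j e * hat ξ j) * hat ξ i)
  have h2 : ∀ j, a j e * (‖toE ξ‖⁻¹ * ((Pi.single j 1 : V N) i - hat ξ j * hat ξ i)) =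
      ‖toE ξ‖⁻¹ * (a j e * (Pi.single j 1 : V N) i) - ‖toE ξ‖⁻¹ * (a j e * hat ξ j * hat ξ i) := fun j => by ring
  simp only [h2]
  rw [Finset.sum_sub_distrib, ← Finset.mul_sum, ← Finset.mul_sum, ← Finset.sum_mul]
  have h3 : ∑ j, a j e * (Pi.single j 1 : V N) i = a i e := by
    rw [Finset.sum_eq_single i (fun b _ hb => by rw [Pi.single_eq_of_ne (Ne.symm hb), mul_zero])
      (fun h5 => absurd (Finset.mem_univ i) h5), Pi.single_eq_same, mul_one]
  rw [h3]
  ring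

theorem topE_prod (u : V (m + 1)) (c : ℝ) (v : Fin m → V (m + 1)) :
    topE (m + 1) (ExteriorAlgebra.ι ℝ u * (algebraMap ℝ (Ex (m + 1)) c * (List.ofFn fun k => ExteriorAlgebra.ι ℝ (v k)).prod)) =
      c * (Matrix.of (Fin.cons u v : Fin (m + 1) → Fin (m + 1) → ℝ)).det := by
  have h1 : ExteriorAlgebra.ι ℝ u * (algebraMap ℝ (Ex (m + 1)) c * (List.ofFn fun k => ExteriorAlgebra.ι ℝ (v k)).prod) =
      c • ExteriorAlgebra.ιMulti ℝ (m + 1) (Fin.cons u v) := by
    rw [ExteriorAlgebra.ιMulti_apply, List.ofFn_succ, List.prod_cons, Fin.cons_zero, ← Algebra.smul_def, mul_smul_comm]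
    simp only [Fin.cons_succ]
  rw [h1, map_smul, topE_ιMulti, smul_eq_mul]

/-- the value of the integrand -/
theorem topE_StdF {a : Fin (m + 1) → ι → ℝ} (ha : ∀ i j, ∑ x, a i x * a j x = if i = j then 1 else 0) {ξ : V (m + 1)}
    (hξ : ξ ≠ 0) : topE (m + 1) (ev ξ (Om.on (cutX (StdF (spV 0) a)) (plVX (m + 1)))) =
      deriv chi ‖toE ξ‖ / ‖toE ξ‖ ^ m * m.factorial := by
  obtain ⟨Q, hQ⟩ := exists_plP hξ
  rw [ev_cutX_plV _ Q hQ, ev_dch_plV hξ]
  unfold StdF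
  rw [onSum, map_sum, Finset.mul_sum, map_sum]
  have h1 : ∀ I : Fin (m + 1) → ι, topE (m + 1) (ExteriorAlgebra.ι ℝ (deriv chi ‖toE ξ‖ • hat ξ) *
      ev ξ (Om.on (dtn a I • TmF (spV 0) a I) Q)) =
      deriv chi ‖toE ξ‖ * (‖toE ξ‖⁻¹) ^ m * (dtn a I * ((rwM a I).mulVec (hat ξ) 0 * ((rwM a I).updateRow 0 (hat ξ)).det)) := by
    intro I
    have h0 : ev ξ (Om.on (dtn a I • TmF (spV 0) a I) Q) = dtn a I • ev ξ (Om.on (TmF (spV 0) a I) Q) := by
      rw [on_smul, map_smul]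
    have h00 : ∀ (c : ℝ) (x : Ex (m + 1)), topE (m + 1) (ExteriorAlgebra.ι ℝ (deriv chi ‖toE ξ‖ • hat ξ) * (c • x)) =
        c * topE (m + 1) (ExteriorAlgebra.ι ℝ (deriv chi ‖toE ξ‖ • hat ξ) * x) := fun c x => by
      rw [mul_smul_comm, map_smul, smul_eq_mul]
    have h01 : ev ξ (Om.on (TmF (spV 0) a I) Q) = ev ξ (Om.on (YX (spV 0) a (I 0)) Q) *
        ev ξ (Om.on (List.ofFn fun k : Fin m => dO _ (YX (spV 0) a (I k.succ))).prod Q) := by
      rw [TmF, on_mul, map_mul]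
    rw [h0, h00, h01, ev_YX a _ Q hQ]
    have h2 : ev ξ (Om.on (List.ofFn fun k : Fin m => dO _ (YX (spV 0) a (I k.succ))).prod Q) =
        (List.ofFn fun k : Fin m => ExteriorAlgebra.ι ℝ (‖toE ξ‖⁻¹ • ((fun j => a j (I k.succ)) -
          (∑ j, a j (I k.succ) * hat ξ j) • hat ξ))).prod := by
      have h3 : ∀ L : List (Om ((spV 0).xP (m + 1))), ev ξ (Om.on L.prod Q) = (L.map fun x => ev ξ (Om.on x Q)).prod := by
        intro L
        induction L with
        | nil => rw [List.prod_nil, List.map_nil, List.prod_nil, on_one, map_one]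
        | cons x L ih => rw [List.prod_cons, List.map_cons, List.prod_cons, on_mul, map_mul, ih]
      rw [h3, List.map_ofFn]
      congr 2
      funext k
      exact ev_dYX a _ Q hξ hQ
    rw [h2, topE_prod, det_rows, cons_eq_updateRow]
    have h4 : (rwM a I).mulVec (hat ξ) 0 = ∑ j, a j (I 0) * hat ξ j := rfl
    rw [h4]
    ring
  simp only [h1]
  rw [← Finset.mul_sum, sum_key ha (sum_hat hξ), inv_pow, div_eq_mul_inv]

/-! ### the integral -/

theorem integral_radial (m : ℕ) (c : ℝ) : ∫ ξ : V (m + 1), deriv chi ‖toE ξ‖ / ‖toE ξ‖ ^ m * c =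
    (m + 1) * (volume (Metric.ball (0 : Eu (m + 1)) 1)).toReal * c := by
  have h1 : ∫ ξ : V (m + 1), deriv chi ‖toE ξ‖ / ‖toE ξ‖ ^ m * c =
      ∫ x : Eu (m + 1), deriv chi ‖x‖ / ‖x‖ ^ m * c := by
    have h2 := (PiLp.volume_preserving_toLp (Fin (m + 1))).integral_comp
      (MeasurableEquiv.toLp 2 (Fin (m + 1) → ℝ)).measurableEmbedding
      (fun x : Eu (m + 1) => deriv chi ‖x‖ / ‖x‖ ^ m * c)
    exact h2
  rw [h1, integral_mul_const, integral_fun_norm_addHaar (volume : Measure (Eu (m + 1))) (fun r => deriv chi r / r ^ m),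
    finrank_euclideanSpace_fin]
  have h3 : ∫ y in Ioi (0 : ℝ), y ^ (m + 1 - 1) • (deriv chi y / y ^ m) = ∫ y in Ioi (0 : ℝ), deriv chi y := by
    refine setIntegral_congr_fun measurableSet_Ioi fun y hy => ?_
    have hy' : 0 < y := hy
    simp only [Nat.add_sub_cancel, smul_eq_mul]
    field_simp
  rw [h3, dchi_integral, smul_eq_mul, mul_one, nsmul_eq_mul]
  push_cast
  rfl

/-- the number `N! vol (B^N)` -/
def sphN (N : ℕ) : ℝ := N.factorial * (volume (Metric.ball (0 : Eu N) 1)).toReal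

theorem SI_StdF_pt {a : Fin (m + 1) → ι → ℝ} (ha : ∀ i j, ∑ x, a i x * a j x = if i = j then 1 else 0) :
    SI (m + 1) (spV 0) (StdF (spV 0) a) =
      algebraMap ℝ (Om (spV 0)) ((-1 : ℝ) ^ ((m + 1) * m / 2) * sphN (m + 1)) := by
  have hD : Deg 0 (SI (m + 1) (spV 0) (StdF (spV 0) a)) := Deg_SI (by rw [zero_add]; exact Deg_StdF a)
  rw [eq_val hD, val_idP hD]
  congr 1
  rw [SI_def, topE_JX _ (VSO_cutX _), Nat.add_sub_cancel]
  congr 1
  have h1 : ∀ᵐ ξ : V (m + 1), topE (m + 1) (ev ξ (Om.on (cutX (StdF (spV 0) a)) (plVX (m + 1)))) =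
      deriv chi ‖toE ξ‖ / ‖toE ξ‖ ^ m * m.factorial := by
    have h2 : ∀ᵐ ξ : V (m + 1), ξ ≠ 0 := by
      rw [ae_iff]
      simp
    filter_upwards [h2] with ξ hξ
    exact topE_StdF ha hξ
  rw [integral_congr_ae h1, integral_radial, sphN, Nat.factorial_succ]
  push_cast
  ring

/-- **the integral of the standard form** -/
theorem SI_StdF (X : Space) {a : Fin (m + 1) → ι → ℝ} (ha : ∀ i j, ∑ x, a i x * a j x = if i = j then 1 else 0) :
    SI (m + 1) X (StdF X a) = algebraMap ℝ (Om X) ((-1 : ℝ) ^ ((m + 1) * m / 2) * sphN (m + 1)) := by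
  let f : SMap X (spV 0) := ⟨fun _ => (0 : V 0), fun k p => show ContDiff ℝ ∞ (fun _ : V k => (0 : V 0)) from contDiff_const⟩
  rw [← StdF_pull f a, SI_nat, SI_StdF_pt ha, AlgHom.commutes]

end family

end Pool.Agent.Lib.MP_ccbbf6_gt.L5
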