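import Pool.Agent.Lib.MP_ccbbf6_gt.L5.EU9
import Pool.Agent.Lib.MP_ccbbf6_gt.L5.SIV3

/-!
# Level 5, SIV4: the forms `psi` (rank 4) and `f3` (rank 3) of a constant plane and their integrals over the unit sphere (helper2)
-/

set_option autoImplicit false
set_option maxSynthPendingDepth 3
set_option linter.unusedSectionVars false
set_option linter.unusedVariables false

open Set Filter Topology MeasureTheory
open scoped ContDiff

noncomputable section

namespace Pool.Agent.Lib.MP_ccbbf6_gt.L5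

open Geo L4 L4.FR

/-! ### the numbers -/

theorem volume_ball_four : (volume (Metric.ball (0 : Eu 4) 1)).toReal = Real.pi ^ 2 / 2 := by
  rw [EuclideanSpace.volume_ball]
  have h1 : Real.Gamma ((Fintype.card (Fin 4) : ℝ) / 2 + 1) = 2 := by
    rw [Fintype.card_fin]
    have h2 : ((4 : ℕ) : ℝ) / 2 + 1 = ((2 : ℕ) : ℝ) + 1 := by norm_num
    rw [h2, Real.Gamma_nat_eq_factorial]
    norm_num
  have h3 : √Real.pi ^ Fintype.card (Fin 4) = Real.pi ^ 2 := by
    rw [Fintype.card_fin]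
    have h4 : √Real.pi ^ 4 = (√Real.pi ^ 2) ^ 2 := by ring
    rw [h4, Real.sq_sqrt Real.pi_pos.le]
  rw [h1, h3, ENNReal.ofReal_one, one_pow, one_mul, ENNReal.toReal_ofReal (by positivity)]

theorem sphN_four : sphN 4 = 12 * Real.pi ^ 2 := by
  unfold sphN
  rw [volume_ball_four]
  have h1 : ((Nat.factorial 4 : ℕ) : ℝ) = 24 := by norm_num [Nat.factorial]
  rw [h1]
  ring

theorem volume_ball_three : (volume (Metric.ball (0 : Eu 3) 1)).toReal = 4 / 3 * Real.pi := by
  rw [EuclideanSpace.volume_ball_fin_three]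
  rw [ENNReal.ofReal_one, one_pow, one_mul, ENNReal.toReal_ofReal (by positivity)]
  ring

theorem sphN_three : sphN 3 = 8 * Real.pi := by
  unfold sphN
  rw [volume_ball_three]
  have h1 : ((Nat.factorial 3 : ℕ) : ℝ) = 6 := by norm_num [Nat.factorial]
  rw [h1]
  ring

/-! ### constant planes -/

section plane

variable {ι : Type*} [Fintype ι] [DecidableEq ι] {N : ℕ} {X : Space}

/-- coordinates of the unit vector, as smooth functions -/
def ySF (N : ℕ) (X : Space) (i : Fin N) : SF (X.xP N) :=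
  ⟨fun z => hat z.1.2 i, fun _ p => contDiff_pi.1 (contDiff_hat (g := fun x => (p.1 x).1.2) p.2.2 fun x => (p.1 x).2) i⟩

theorem fn_ySF (i : Fin N) : fn _ (ySF N X i) = yX N X i := rfl

/-- coordinates in the ambient space -/
def YSF (X : Space) (a : Fin N → ι → ℝ) (e : ι) : SF (X.xP N) := ∑ j, a j e • ySF N X j

theorem fn_YSF (a : Fin N → ι → ℝ) (e : ι) : fn _ (YSF X a e) = YX X a e := by
  unfold YSF YX
  rw [map_sum]
  exact Finset.sum_congr rfl fun j _ => by rw [map_smul, fn_ySF]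

/-- the constant projection on the span of the family -/
def PC (X : Space) (a : Fin N → ι → ℝ) : Matrix ι ι (SF (X.xP N)) := fun l m => algebraMap ℝ _ (∑ j, a j l * a j m)

theorem fn_const (r : ℝ) (x : Om X) : fn X (algebraMap ℝ _ r) * x = r • x := by
  rw [AlgHom.commutes, Algebra.smul_def]

theorem sum_PC {a : Fin N → ι → ℝ} (ha : ∀ i j, ∑ x, a i x * a j x = if i = j then 1 else 0) (l : ι) :
    ∑ m, (∑ j, a j l * a j m) • YX X a m = YX X a l := by
  unfold YX
  have h1 : ∀ m, (∑ j, a j l * a j m) • ∑ i, a i m • yX N X i = ∑ i, (∑ j, a j l * (a j m * a i m)) • yX N X i := by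
    intro m
    rw [Finset.smul_sum]
    refine Finset.sum_congr rfl fun i _ => ?_
    rw [smul_smul, Finset.sum_mul]
    congr 1
    exact Finset.sum_congr rfl fun j _ => by ring
  simp only [h1]
  rw [Finset.sum_comm]
  refine Finset.sum_congr rfl fun i _ => ?_
  rw [← Finset.sum_smul, Finset.sum_comm]
  congr 1
  simp only [← Finset.mul_sum, ha]
  simp

theorem Dv_PC {a : Fin N → ι → ℝ} (ha : ∀ i j, ∑ x, a i x * a j x = if i = j then 1 else 0) (l : ι) :
    Dv (FO (X.xP N)) (PC X a) (YSF X a) l = dO _ (YX X a l) := by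
  show ∑ m, fn _ (PC X a l m) * dO _ (fn _ (YSF X a m)) = _
  have h1 : ∀ m, fn _ (PC X a l m) * dO _ (fn _ (YSF X a m)) = dO _ ((∑ j, a j l * a j m) • YX X a m) := by
    intro m
    rw [fn_YSF, map_smul]
    exact fn_const _ _
  simp only [h1]
  rw [← map_sum, sum_PC ha]

theorem Rv_PC (a : Fin N → ι → ℝ) (l m : ι) : Rv (FO (X.xP N)) (PC X a) l m = 0 := by
  have h1 : (GO (X.xP N)).D ((PC X a).map (FO (X.xP N)).f) = 0 := by
    refine Matrix.ext fun i j => ?_
    show dO _ (fn _ (algebraMap ℝ _ (∑ k, a k i * a k j))) = 0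
    rw [AlgHom.commutes, Algebra.algebraMap_eq_smul_one, map_smul, d_one, smul_zero]
  unfold Rv GDA.R
  rw [h1, Matrix.mul_zero, Matrix.mul_zero]
  rfl

theorem St_const {r : ℕ} (o : (Fin r → ι) → ℝ) (T : (Fin r → ι) → Om X) :
    St (FO X) (fun I => algebraMap ℝ (SF X) (o I)) T = ∑ I, o I • T I :=
  Finset.sum_congr rfl fun I _ => fn_const _ _

/-- **the angular form of a constant plane of dimension four** -/
theorem psi_PC {a : Fin 4 → ι → ℝ} (ha : ∀ i j, ∑ x, a i x * a j x = if i = j then 1 else 0) (s : ℝ) :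
    psi (FO (X.xP 4)) (PC X a) (fun I => algebraMap ℝ _ (s * dtn a I)) (YSF X a) =
      (s / (12 * Real.pi ^ 2)) • StdF (m := 3) X a := by
  unfold psi psi0 psi1
  rw [St_const, St_const]
  have h1 : ∀ I : Fin 4 → ι, (s * dtn a I) • PM (uv (FO (X.xP 4)) (YSF X a)) (Dv (FO (X.xP 4)) (PC X a) (YSF X a))
      (Rv (FO (X.xP 4)) (PC X a)) I = 0 := by
    intro I
    unfold PM
    rw [Rv_PC, mul_zero, mul_zero, smul_zero]
  have h2 : ∀ I : Fin 4 → ι, (s * dtn a I) • P4 (uv (FO (X.xP 4)) (YSF X a)) (Dv (FO (X.xP 4)) (PC X a) (YSF X a))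
      (Dv (FO (X.xP 4)) (PC X a) (YSF X a)) (Dv (FO (X.xP 4)) (PC X a) (YSF X a)) I = s • (dtn a I • TmF (m := 3) X a I) := by
    intro I
    unfold P4
    rw [Dv_PC ha, Dv_PC ha, Dv_PC ha, smul_smul]
    congr 1
    unfold TmF
    simp only [List.ofFn_succ, List.ofFn_zero, List.prod_cons, List.prod_nil, mul_one]
    have h3 : uv (FO (X.xP 4)) (YSF X a) (I 0) = YX X a (I 0) := fn_YSF _ _
    rw [h3]
    rfl
  simp only [h1, h2]
  rw [Finset.sum_const_zero, smul_zero, add_zero, ← Finset.smul_sum, smul_smul]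
  congr 1
  ring

theorem SI_psi_PC {a : Fin 4 → ι → ℝ} (ha : ∀ i j, ∑ x, a i x * a j x = if i = j then 1 else 0) (s : ℝ) :
    SI 4 X (psi (FO (X.xP 4)) (PC X a) (fun I => algebraMap ℝ _ (s * dtn a I)) (YSF X a)) = algebraMap ℝ (Om X) s := by
  rw [psi_PC ha, map_smul]
  have h1 : SI 4 X (StdF (m := 3) X a) = algebraMap ℝ (Om X) ((-1 : ℝ) ^ ((3 + 1) * 3 / 2) * sphN (3 + 1)) := SI_StdF X ha
  rw [h1, sphN_four, Algebra.smul_def, ← map_mul]
  congr 1
  have h2 : (-1 : ℝ) ^ ((3 + 1) * 3 / 2) = 1 := by norm_num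
  rw [h2]
  have := Real.pi_pos
  field_simp

/-- the Euler form of the orthogonal complement in a constant plane of dimension three -/
theorem f3_PC {a : Fin 3 → ι → ℝ} (ha : ∀ i j, ∑ x, a i x * a j x = if i = j then 1 else 0) {s : ℝ}
    (h : Or 3 (PC X a) (fun I => algebraMap ℝ _ (s * dtn a I))) (hy : Sec (PC X a) (YSF X a)) :
    f3 (FO (X.xP 3)) (PC X a) (fun I => algebraMap ℝ _ (s * dtn a I)) (YSF X a) =
      (s / (4 * Real.pi)) • StdF (m := 2) X a := by
  rw [f3_eq h hy, St_const, St_const]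
  have h1 : ∀ K : Fin 3 → ι, (s * dtn a K) • ((FO (X.xP 3)).f (YSF X a (K 0)) * Rv (FO (X.xP 3)) (PC X a) (K 1) (K 2)) = 0 := by
    intro K
    rw [Rv_PC, mul_zero, smul_zero]
  have h2 : ∀ K : Fin 3 → ι, (s * dtn a K) • ((FO (X.xP 3)).f (YSF X a (K 0)) *
      (Dv (FO (X.xP 3)) (PC X a) (YSF X a) (K 1) * Dv (FO (X.xP 3)) (PC X a) (YSF X a) (K 2))) =
      s • (dtn a K • TmF (m := 2) X a K) := by
    intro K
    rw [Dv_PC ha, Dv_PC ha, smul_smul]
    congr 1
    unfold TmF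
    simp only [List.ofFn_succ, List.ofFn_zero, List.prod_cons, List.prod_nil, mul_one]
    have h3 : (FO (X.xP 3)).f (YSF X a (K 0)) = YX X a (K 0) := fn_YSF _ _
    rw [h3]
    rfl
  simp only [h1, h2]
  rw [Finset.sum_const_zero, zero_add, ← Finset.smul_sum, smul_smul]
  congr 1
  ring

theorem SI_f3_PC {a : Fin 3 → ι → ℝ} (ha : ∀ i j, ∑ x, a i x * a j x = if i = j then 1 else 0) {s : ℝ}
    (h : Or 3 (PC X a) (fun I => algebraMap ℝ _ (s * dtn a I))) (hy : Sec (PC X a) (YSF X a)) :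
    SI 3 X (f3 (FO (X.xP 3)) (PC X a) (fun I => algebraMap ℝ _ (s * dtn a I)) (YSF X a)) = algebraMap ℝ (Om X) (-2 * s) := by
  rw [f3_PC ha h hy, map_smul]
  have h1 : SI 3 X (StdF (m := 2) X a) = algebraMap ℝ (Om X) ((-1 : ℝ) ^ ((2 + 1) * 2 / 2) * sphN (2 + 1)) := SI_StdF X ha
  rw [h1, sphN_three, Algebra.smul_def, ← map_mul]
  congr 1
  have h2 : (-1 : ℝ) ^ ((2 + 1) * 2 / 2) = -1 := by norm_num
  rw [h2]
  have := Real.pi_pos
  field_simp
  ring

end plane

end Pool.Agent.Lib.MP_ccbbf6_gt.L5
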