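import Pool.Agent.Lib.MP_ccbbf6_gt.L5.EG6
import Pool.Agent.Lib.MP_ccbbf6_gt.L5.SIV4

/-!
# Level 5, EGS: integrals over the unit sphere of `psiG` (rank `2 (n + 1)`) and `fG` (rank `2 n + 1`) of a constant plane
(helper13, from helper2's SIV)

* `SI_psiG_PC` : `(-1)^(n + 1) s`;
* `SI_fG_PC` : `- 2 s`.
-/

set_option autoImplicit false
set_option maxSynthPendingDepth 3
set_option linter.unusedSectionVars false
set_option linter.unusedVariables false

open Set Filter Topology MeasureTheory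
open scoped ContDiff

noncomputable section

namespace Pool.Agent.Lib.MP_ccbbf6_gt.L5

open Geo L4 L4.FR

variable {ι : Type*} [Fintype ι] [DecidableEq ι] {n : ℕ} {X : Space}

/-! ### the numbers -/

theorem sphN_even (n : ℕ) : sphN (2 * (n + 1)) = (2 * (n + 1)).factorial * (Real.pi ^ (n + 1) / (n + 1).factorial) := by
  unfold sphN
  congr 1
  rw [EuclideanSpace.volume_ball]
  have h1 : Real.Gamma ((Fintype.card (Fin (2 * (n + 1))) : ℝ) / 2 + 1) = (n + 1).factorial := by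
    rw [Fintype.card_fin]
    have h2 : ((2 * (n + 1) : ℕ) : ℝ) / 2 + 1 = ((n + 1 : ℕ) : ℝ) + 1 := by
      push_cast
      ring
    rw [h2, Real.Gamma_nat_eq_factorial]
  have h3 : √Real.pi ^ Fintype.card (Fin (2 * (n + 1))) = Real.pi ^ (n + 1) := by
    rw [Fintype.card_fin, pow_mul, Real.sq_sqrt Real.pi_pos.le]
  rw [h1, h3, ENNReal.ofReal_one, one_pow, one_mul, ENNReal.toReal_ofReal (by positivity)]

theorem gamma_half (n : ℕ) : Real.Gamma ((n : ℝ) + 1 + 1 / 2) = (2 * n + 1).factorial / (2 ^ (2 * n + 1) * n.factorial) * √Real.pi := by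
  induction n with
  | zero =>
    rw [Nat.cast_zero, zero_add, add_comm, Real.Gamma_add_one (by norm_num), Real.Gamma_one_half_eq]
    norm_num
  | succ n ih =>
    have h1 : (((n + 1 : ℕ) : ℝ) + 1 + 1 / 2) = ((n : ℝ) + 1 + 1 / 2) + 1 := by
      push_cast
      ring
    rw [h1, Real.Gamma_add_one (by positivity), ih]
    have e1 : ((2 * (n + 1) + 1).factorial : ℝ) = (2 * n + 3) * ((2 * n + 2) * (2 * n + 1).factorial) := by
      have e : 2 * (n + 1) + 1 = 2 * n + 1 + 1 + 1 := by ring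
      rw [e, Nat.factorial_succ (2 * n + 1 + 1), Nat.factorial_succ (2 * n + 1)]
      push_cast
      ring
    have e2 : ((n + 1).factorial : ℝ) = (n + 1) * n.factorial := by
      rw [Nat.factorial_succ n]
      push_cast
      ring
    rw [e1, e2]
    have h2 : (n.factorial : ℝ) ≠ 0 := Nat.cast_ne_zero.2 (Nat.factorial_ne_zero n)
    have h3 : ((n : ℝ) + 1) ≠ 0 := by positivity
    field_simp
    ring

theorem sphN_odd (n : ℕ) : sphN (2 * n + 1) = 2 ^ (2 * n + 1) * (Real.pi ^ n * n.factorial) := by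
  unfold sphN
  rw [EuclideanSpace.volume_ball]
  have h1 : Real.Gamma ((Fintype.card (Fin (2 * n + 1)) : ℝ) / 2 + 1) =
      (2 * n + 1).factorial / (2 ^ (2 * n + 1) * n.factorial) * √Real.pi := by
    rw [Fintype.card_fin, ← gamma_half]
    congr 1
    push_cast
    ring
  have h3 : √Real.pi ^ Fintype.card (Fin (2 * n + 1)) = Real.pi ^ n * √Real.pi := by
    rw [Fintype.card_fin, pow_succ, pow_mul, Real.sq_sqrt Real.pi_pos.le]
  have hs : √Real.pi ≠ 0 := (Real.sqrt_pos.2 Real.pi_pos).ne'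
  have h2 : (n.factorial : ℝ) ≠ 0 := Nat.cast_ne_zero.2 (Nat.factorial_ne_zero n)
  have h4 : ((2 * n + 1).factorial : ℝ) ≠ 0 := Nat.cast_ne_zero.2 (Nat.factorial_ne_zero _)
  rw [h1, h3, ENNReal.ofReal_one, one_pow, one_mul, ENNReal.toReal_ofReal (by positivity)]
  field_simp

/-! ### constant planes -/

/-- **the angular form of a constant plane of dimension `2 (n + 1)`** -/
theorem psiG_PC {a : Fin (2 * (n + 1)) → ι → ℝ} (ha : ∀ i j, ∑ x, a i x * a j x = if i = j then 1 else 0) (s : ℝ) :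
    psiG (FO (X.xP (2 * (n + 1)))) (PC X a) (fun I => algebraMap ℝ _ (s * dtn a I)) (YSF X a) =
      (s * cstG n) • StdF (m := 2 * n + 1) X a := by
  rw [psiG_flat (Rv_PC a), St_const]
  have h2 : ∀ I : Fin (2 * (n + 1)) → ι, (s * dtn a I) • ((FO (X.xP (2 * (n + 1)))).f (YSF X a (I 0)) *
      (List.ofFn fun k : Fin (2 * n + 1) => Dv (FO (X.xP (2 * (n + 1)))) (PC X a) (YSF X a) (I k.succ)).prod) =
      s • (dtn a I • TmF (m := 2 * n + 1) X a I) := by
    intro I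
    have h3 : (FO (X.xP (2 * (n + 1)))).f (YSF X a (I 0)) = YX X a (I 0) := fn_YSF _ _
    have h4 : (fun k : Fin (2 * n + 1) => Dv (FO (X.xP (2 * (n + 1)))) (PC X a) (YSF X a) (I k.succ)) =
        fun k : Fin (2 * n + 1) => dO _ (YX X a (I k.succ)) := funext fun k => Dv_PC ha _
    rw [h3, h4, mul_smul]
    rfl
  simp only [h2]
  rw [← Finset.smul_sum, smul_smul, mul_comm (cstG n) s]
  rfl

theorem SI_psiG_PC {a : Fin (2 * (n + 1)) → ι → ℝ} (ha : ∀ i j, ∑ x, a i x * a j x = if i = j then 1 else 0) (s : ℝ) :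
    SI (2 * (n + 1)) X (psiG (FO (X.xP (2 * (n + 1)))) (PC X a) (fun I => algebraMap ℝ _ (s * dtn a I)) (YSF X a)) =
      algebraMap ℝ (Om X) ((-1) ^ (n + 1) * s) := by
  rw [psiG_PC ha, map_smul]
  have h1 : SI (2 * (n + 1)) X (StdF (m := 2 * n + 1) X a) =
      algebraMap ℝ (Om X) ((-1 : ℝ) ^ ((2 * n + 1 + 1) * (2 * n + 1) / 2) * sphN (2 * n + 1 + 1)) := SI_StdF X ha
  rw [h1, Algebra.smul_def, ← map_mul]
  congr 1
  have h2 : (2 * n + 1 + 1) * (2 * n + 1) / 2 = (n + 1) * (2 * n + 1) := by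
    have : (2 * n + 1 + 1) * (2 * n + 1) = 2 * ((n + 1) * (2 * n + 1)) := by ring
    rw [this, Nat.mul_div_cancel_left _ two_pos]
  have h3 : (-1 : ℝ) ^ ((n + 1) * (2 * n + 1)) = (-1) ^ (n + 1) := by
    rw [pow_mul, pow_succ ((-1 : ℝ) ^ (n + 1)), pow_mul ((-1 : ℝ) ^ (n + 1)), ← pow_mul (-1 : ℝ) (n + 1) 2, mul_comm (n + 1) 2,
      pow_mul (-1 : ℝ) 2 (n + 1)]
    norm_num
  have h4 : sphN (2 * n + 1 + 1) = (2 * (n + 1)).factorial * (Real.pi ^ (n + 1) / (n + 1).factorial) := sphN_even n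
  have h5 : ((2 * (n + 1)).factorial : ℝ) = 2 * (n + 1) * (2 * n + 1).factorial := by
    have e : 2 * (n + 1) = 2 * n + 1 + 1 := by ring
    rw [e, Nat.factorial_succ]
    push_cast
    ring
  have h6 : ((n + 1).factorial : ℝ) = (n + 1) * n.factorial := by
    rw [Nat.factorial_succ]
    push_cast
    ring
  rw [h2, h3, h4, cstG_eq, h5, h6]
  have hp := Real.pi_ne_zero
  have hf : (n.factorial : ℝ) ≠ 0 := Nat.cast_ne_zero.2 (Nat.factorial_ne_zero n)
  have hf2 : ((2 * n + 1).factorial : ℝ) ≠ 0 := Nat.cast_ne_zero.2 (Nat.factorial_ne_zero _)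
  have h7 : ((n : ℝ) + 1) ≠ 0 := by positivity
  field_simp

/-- the Euler form of the orthogonal complement in a constant plane of dimension `2 n + 1` -/
theorem fG_PC {a : Fin (2 * n + 1) → ι → ℝ} (ha : ∀ i j, ∑ x, a i x * a j x = if i = j then 1 else 0) {s : ℝ}
    (h : Or (2 * n + 1) (PC X a) (fun I => algebraMap ℝ _ (s * dtn a I))) (hy : Sec (PC X a) (YSF X a)) :
    fG (FO (X.xP (2 * n + 1))) (PC X a) (fun I => algebraMap ℝ _ (s * dtn a I)) (YSF X a) =
      (s * ((-1) ^ (n + 1) / ((4 * Real.pi) ^ n * n.factorial))) • StdF (m := 2 * n) X a := by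
  rw [fG_flat h hy (Rv_PC a), St_const]
  have h2 : ∀ I : Fin (2 * n + 1) → ι, (s * dtn a I) • ((FO (X.xP (2 * n + 1))).f (YSF X a (I 0)) *
      (List.ofFn fun k : Fin (2 * n) => Dv (FO (X.xP (2 * n + 1))) (PC X a) (YSF X a) (I k.succ)).prod) =
      s • (dtn a I • TmF (m := 2 * n) X a I) := by
    intro I
    have h3 : (FO (X.xP (2 * n + 1))).f (YSF X a (I 0)) = YX X a (I 0) := fn_YSF _ _
    have h4 : (fun k : Fin (2 * n) => Dv (FO (X.xP (2 * n + 1))) (PC X a) (YSF X a) (I k.succ)) =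
        fun k : Fin (2 * n) => dO _ (YX X a (I k.succ)) := funext fun k => Dv_PC ha _
    rw [h3, h4, mul_smul]
    rfl
  simp only [h2]
  rw [← Finset.smul_sum, smul_smul, mul_comm _ s]
  rfl

theorem SI_fG_PC {a : Fin (2 * n + 1) → ι → ℝ} (ha : ∀ i j, ∑ x, a i x * a j x = if i = j then 1 else 0) {s : ℝ}
    (h : Or (2 * n + 1) (PC X a) (fun I => algebraMap ℝ _ (s * dtn a I))) (hy : Sec (PC X a) (YSF X a)) :
    SI (2 * n + 1) X (fG (FO (X.xP (2 * n + 1))) (PC X a) (fun I => algebraMap ℝ _ (s * dtn a I)) (YSF X a)) =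
      algebraMap ℝ (Om X) (-2 * s) := by
  rw [fG_PC ha h hy, map_smul]
  have h1 : SI (2 * n + 1) X (StdF (m := 2 * n) X a) =
      algebraMap ℝ (Om X) ((-1 : ℝ) ^ ((2 * n + 1) * (2 * n) / 2) * sphN (2 * n + 1)) := SI_StdF X ha
  rw [h1, Algebra.smul_def, ← map_mul]
  congr 1
  have h2 : (2 * n + 1) * (2 * n) / 2 = n * (2 * n + 1) := by
    have : (2 * n + 1) * (2 * n) = 2 * (n * (2 * n + 1)) := by ring
    rw [this, Nat.mul_div_cancel_left _ two_pos]
  have h3 : (-1 : ℝ) ^ (n * (2 * n + 1)) = (-1) ^ n := by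
    rw [pow_mul, pow_succ ((-1 : ℝ) ^ n), pow_mul ((-1 : ℝ) ^ n), ← pow_mul (-1 : ℝ) n 2, mul_comm n 2,
      pow_mul (-1 : ℝ) 2 n]
    norm_num
  have h8 : (-1 : ℝ) ^ n * (-1) ^ n = 1 := by rw [← mul_pow]; norm_num
  rw [h2, h3, sphN_odd]
  have hp := Real.pi_ne_zero
  have hf : (n.factorial : ℝ) ≠ 0 := Nat.cast_ne_zero.2 (Nat.factorial_ne_zero n)
  have h9 : ((4 * Real.pi) ^ n : ℝ) = 2 ^ (2 * n) * Real.pi ^ n := by
    rw [mul_pow, pow_mul]
    norm_num
  rw [h9, pow_succ (-1 : ℝ) n, pow_succ (2 : ℝ) (2 * n)]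
  field_simp
  linear_combination (-s) * h8

end Pool.Agent.Lib.MP_ccbbf6_gt.L5
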