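import Mathlib.LinearAlgebra.ExteriorAlgebra.Basis
import Pool.Agent.Lib.MP_ccbbf6_gt.L4.FI2

/-!
# Level 5: forms on `R^k` from their values; locality (helper56)

* `SmE w` : `w : V k → Ex k` is smooth; `ofV w : Fm k`, `ev_ofV`;
* `SmE_of_loc` : smoothness is local;
* `ev_dd_congr` : `d` is local.
-/

set_option autoImplicit false
set_option maxSynthPendingDepth 3

open Set Filter Topology MeasureTheory
open scoped TensorProduct ContDiff

noncomputable section

namespace Pool.Agent.Lib.MP_ccbbf6_gt.L5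

open L4 L4.FR

variable {k l n : ℕ}

/-- smooth family of values -/
def SmE (w : V k → Ex k) : Prop := ∀ L : Ex k →ₗ[ℝ] ℝ, ContDiff ℝ ∞ fun x => L (w x)

/-- the standard basis of the exterior algebra -/
def bE (k : ℕ) : Module.Basis (Finset (Fin k)) ℝ (Ex k) := (Pi.basisFun ℝ (Fin k)).ExteriorAlgebra

open Classical in
/-- the form with given values -/
def ofV (w : V k → Ex k) : Fm k :=
  ∑ s, tm (if h : ContDiff ℝ ∞ (fun x => (bE k).coord s (w x)) then mkC _ h else 0) (bE k s)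

lemma ev_ofV {w : V k → Ex k} (hw : SmE w) (x : V k) : ev x (ofV w) = w x := by
  unfold ofV
  rw [map_sum]
  conv_rhs => rw [← (bE k).sum_repr (w x)]
  refine Finset.sum_congr rfl fun s _ => ?_
  rw [dif_pos (hw _), ev_tm]
  rfl

lemma SmE_ev (θ : Fm k) : SmE fun x => ev x θ := fun L => contDiff_coef L θ

lemma ofV_ev (θ : Fm k) : ofV (fun x => ev x θ) = θ := ev_ext fun x => ev_ofV (SmE_ev θ) x

/-- smoothness is local -/
lemma SmE_of_loc {w : V k → Ex k} (h : ∀ x, ∃ θ : Fm k, ∀ᶠ y in 𝓝 x, w y = ev y θ) : SmE w := by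
  intro L
  rw [contDiff_iff_contDiffAt]
  intro x
  obtain ⟨θ, hθ⟩ := h x
  refine (contDiff_coef L θ).contDiffAt.congr_of_eventuallyEq ?_
  filter_upwards [hθ] with y hy
  rw [hy]

/-- values of a pull back by a map which is the identity near the point -/
lemma ev_pb_id {s : Sm k k} {x : V k} (hs : ∀ᶠ y in 𝓝 x, s y = y) (θ : Fm k) : ev x (pb s θ) = ev x θ := by
  rw [ev_pb, tr_of_id hs, hs.self_of_nhds, ExteriorAlgebra.map_id]
  rfl

/-- `d` is local -/
lemma ev_dd_congr {θ τ : Fm k} {x : V k} (h : ∀ᶠ y in 𝓝 x, ev y θ = ev y τ) : ev x (dd k θ) = ev x (dd k τ) := by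
  obtain ⟨s, hs1, hs2⟩ := exists_sq x h
  have h1 : pb s θ = pb s τ := ev_ext fun y => by rw [ev_pb, ev_pb, hs2 y]
  have h2 : ∀ σ : Fm k, ev x (dd k σ) = ev x (dd k (pb s σ)) := by
    intro σ
    rw [pb_dd, ev_pb_id hs1]
  rw [h2 θ, h1, ← h2 τ]

/-- pull backs only depend on germs -/
lemma ev_pb_congr {g h : Sm k l} {x : V k} (e : (g : V k → V l) =ᶠ[𝓝 x] h) (θ : Fm l) :
    ev x (pb g θ) = ev x (pb h θ) := by
  obtain ⟨s, hs1, hs2⟩ := exists_sq x e
  have h1 : g.comp s = h.comp s := Sm.ext fun y => hs2 y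
  have h2 : ∀ f : Sm k l, ev x (pb f θ) = ev x (pb (f.comp s) θ) := by
    intro f
    rw [pb_comp, ev_pb_id hs1]
  rw [h2 g, h1, ← h2 h]

lemma ev_pb_congr' (g : Sm k l) {θ τ : Fm l} {x : V k} (h : ∀ᶠ y in 𝓝 (g x), ev y θ = ev y τ) :
    ev x (pb g θ) = ev x (pb g τ) := by
  rw [ev_pb, ev_pb, h.self_of_nhds]

/-- values of the form of a family of values near a point -/
lemma ev_dd_ofV {w : V k → Ex k} (hw : SmE w) {θ : Fm k} {x : V k} (h : ∀ᶠ y in 𝓝 x, w y = ev y θ) :
    ev x (dd k (ofV w)) = ev x (dd k θ) :=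
  ev_dd_congr (by filter_upwards [h] with y hy; rw [ev_ofV hw, hy])

lemma ofV_ext {w : V k → Ex k} (hw : SmE w) {θ : Fm k} (h : ∀ x, w x = ev x θ) : ofV w = θ :=
  ev_ext fun x => by rw [ev_ofV hw, h]

lemma SmE_zero : SmE fun _ : V k => (0 : Ex k) := fun L => by
  simp only [map_zero]
  exact contDiff_const

lemma SmE_add {w w' : V k → Ex k} (h : SmE w) (h' : SmE w') : SmE fun x => w x + w' x := fun L => by
  simp only [map_add]
  exact (h L).add (h' L)

lemma SmE_mul {w w' : V k → Ex k} (h : SmE w) (h' : SmE w') : SmE fun x => w x * w' x := by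
  have e : (fun x => w x * w' x) = fun x => ev x (ofV w * ofV w') := by
    funext x
    rw [map_mul, ev_ofV h, ev_ofV h']
  rw [e]
  exact SmE_ev _

lemma ofV_mul {w w' : V k → Ex k} (h : SmE w) (h' : SmE w') : ofV (fun x => w x * w' x) = ofV w * ofV w' :=
  ofV_ext (SmE_mul h h') fun x => by rw [map_mul, ev_ofV h, ev_ofV h']

lemma ofV_add {w w' : V k → Ex k} (h : SmE w) (h' : SmE w') : ofV (fun x => w x + w' x) = ofV w + ofV w' :=
  ofV_ext (SmE_add h h') fun x => by rw [map_add, ev_ofV h, ev_ofV h']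

end Pool.Agent.Lib.MP_ccbbf6_gt.L5
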