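import Pool.Agent.Lib.MP_ccbbf6_gt.L4.FXb
import Pool.Agent.Lib.MP_ccbbf6_gt.L5.Ofv

/-!
# Level 5, INTa: descent of forms along maps with local lifts (helper67)
-/

set_option autoImplicit false
set_option maxSynthPendingDepth 3

open Set Filter Topology
open scoped ContDiff

noncomputable section

namespace Pool.Agent.Lib.MP_ccbbf6_gt.L5

open L4 L4.FR

variable {k l : ℕ} {F B X Y : Space}

/-- every plot of `B` lifts locally to `F` -/
def LLift (q : SMap F B) : Prop := ∀ (k : ℕ) (p : B.Plot k) (z : V k), ∃ (h : FR.Sm k k) (P : F.Plot k),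
  (∀ᶠ y in 𝓝 z, h y = y) ∧ q.pl P = p.cmp h

theorem LLift.inj {q : SMap F B} (hq : LLift q) {a b : Om B} (h : q.pull a = q.pull b) : a = b := by
  refine Om_ext fun k p => ev_ext fun z => ?_
  obtain ⟨g, P, hg, hP⟩ := hq k p z
  rw [← ev_local a p z hg, ← ev_local b p z hg, ← hP]
  have h1 : Om.on (q.pull a) P = Om.on (q.pull b) P := by rw [h]
  exact congrArg (ev z) h1

/-- two lifts at the same point -/
theorem LLift.same {q : SMap F B} (Φ : Om F)
    (h : ∀ (k : ℕ) (P P' : F.Plot k), q.pl P = q.pl P' → Om.on Φ P = Om.on Φ P') {p : B.Plot k} {z : V k}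
    {g g' : FR.Sm k k} {P P' : F.Plot k} (hg : ∀ᶠ y in 𝓝 z, g y = y) (hP : q.pl P = p.cmp g)
    (hg' : ∀ᶠ y in 𝓝 z, g' y = y) (hP' : q.pl P' = p.cmp g') : ev z (Om.on Φ P) = ev z (Om.on Φ P') := by
  obtain ⟨s, hs1, hs2⟩ := exists_sq z (hg.and hg')
  have h1 : q.pl (P.cmp s) = q.pl (P'.cmp s) := by
    rw [pl_cmp, pl_cmp, hP, hP']
    refine Plot_ext fun w => ?_
    show p.1 (g (s w)) = p.1 (g' (s w))
    rw [(hs2 w).1, (hs2 w).2]
  rw [← ev_local Φ P z hs1, ← ev_local Φ P' z hs1, h _ _ _ h1]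

/-- descent of forms -/
theorem LLift.descend {q : SMap F B} (hq : LLift q) (Φ : Om F)
    (h : ∀ (k : ℕ) (P P' : F.Plot k), q.pl P = q.pl P' → Om.on Φ P = Om.on Φ P') : ∃ θ : Om B, q.pull θ = Φ := by
  choose G P hG hP using hq
  have hC : ∀ {k : ℕ} {p : B.Plot k} {z : V k} {g' : FR.Sm k k} {P' : F.Plot k}, (∀ᶠ y in 𝓝 z, g' y = y) →
      q.pl P' = p.cmp g' → ev z (Om.on Φ P') = ev z (Om.on Φ (P k p z)) := fun {k p z g' P'} h1 h2 =>
    LLift.same Φ h h1 h2 (hG k p z) (hP k p z)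
  have hS : ∀ (k : ℕ) (p : B.Plot k), SmE fun z => ev z (Om.on Φ (P k p z)) := by
    intro k p
    refine SmE_of_loc fun z => ⟨Om.on Φ (P k p z), ?_⟩
    filter_upwards [(hG k p z).eventually_nhds] with y hy
    exact (hC hy (hP k p z)).symm
  refine ⟨mkO (fun k p => ofV fun z => ev z (Om.on Φ (P k p z))) fun k l p g => ?_, ?_⟩
  · refine ev_ext fun z => ?_
    rw [ev_ofV (hS k _), ev_pb, ev_ofV (hS l p)]
    have h1 : ∀ᶠ w in 𝓝 z, G l p (g z) (g w) = g w :=
      (g.smooth.continuous.continuousAt (x := z)).eventually (hG l p (g z))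
    obtain ⟨s, hs1, hs2⟩ := exists_sq z h1
    have h2 : q.pl (((P l p (g z)).cmp g).cmp s) = (p.cmp g).cmp s := by
      rw [pl_cmp, pl_cmp, hP l p (g z)]
      refine Plot_ext fun w => ?_
      show p.1 (G l p (g z) (g (s w))) = p.1 (g (s w))
      rw [hs2 w]
    rw [← hC hs1 h2, ev_local _ _ _ hs1, on_cmp, ev_pb]
  · refine Om_ext fun k R => ev_ext fun z => ?_
    rw [on_pull, on_mkO, ev_ofV (hS k _)]
    exact (hC (g' := FR.Sm.id k) (Eventually.of_forall fun _ => rfl) rfl).symm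

open Classical in
/-- the descended form -/
def desc (q : SMap F B) (Φ : Om F) : Om B := if h : ∃ θ : Om B, q.pull θ = Φ then h.choose else 0

theorem pull_desc {q : SMap F B} (hq : LLift q) {Φ : Om F}
    (h : ∀ (k : ℕ) (P P' : F.Plot k), q.pl P = q.pl P' → Om.on Φ P = Om.on Φ P') : q.pull (desc q Φ) = Φ := by
  unfold desc
  rw [dif_pos (hq.descend Φ h)]
  exact (hq.descend Φ h).choose_spec

end Pool.Agent.Lib.MP_ccbbf6_gt.L5
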