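import Pool.Agent.Lib.MP_ccbbf6_gt.L5.UOR08

/-!
# Level 5, UOR09: the fibre form `∫ ι_r (exp r v)^* u` on the sphere at `p` is `ψ` (helper2)
-/

set_option autoImplicit false
set_option linter.unusedSectionVars false
set_option linter.unusedVariables false

open Set Filter Topology Metric Real Module
open scoped ContDiff RealInnerProductSpace

noncomputable section

namespace Pool.Agent.Lib.MP_ccbbf6_gt.L5

open Geo L4 L4.FR

variable {k l n : ℕ}

/-! ### fibre integrals only depend on the form over the open interval -/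

theorem snoc_last_val (x : V k) (s : ℝ) : (Fin.snoc x s : V (k + 1)) (Fin.last k) = s := by
  rw [Fin.snoc_last]

theorem ev_cn (φ : V k →ₗ[ℝ] ℝ) (x : V k) (θ : Fm k) : ev x (cn φ θ) = ctr φ (ev x θ) := by
  induction θ using Fm_tind with
  | hf f a => rw [cn_tm, ev_tm, ev_tm, map_smul]
  | ha a b ha hb => rw [map_add, map_add, map_add, map_add, ha, hb]

theorem KK_congr {θ τ : Fm (k + 1)} (h : ∀ z : V (k + 1), 0 < z (Fin.last k) → z (Fin.last k) < 1 → ev z θ = ev z τ) :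
    KK k θ = KK k τ := by
  rw [← sub_eq_zero, ← map_sub]
  refine ev_fun_inj fun φ p => ?_
  rw [KK_apply, ev_Q0]
  have h1 : ∀ s ∈ Ioo (0 : ℝ) 1, φ (ev p (pb (sl k s) (cs k (θ - τ)))) = 0 := by
    intro s hs
    rw [ev_pb]
    have h2 : ev (sl k s p) (cs k (θ - τ)) = 0 := by
      unfold cs
      rw [ev_cn, map_sub, sl_apply, h (Fin.snoc p s) (by rw [snoc_last_val]; exact hs.1)
        (by rw [snoc_last_val]; exact hs.2), sub_self, map_zero]
    rw [h2, map_zero, map_zero]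
  have h3 : ∫ s in (0 : ℝ)..1, φ (ev p (pb (sl k s) (cs k (θ - τ)))) = ∫ s in (0 : ℝ)..1, (0 : ℝ) := by
    refine intervalIntegral.integral_congr_ae ?_
    have h4 : ∀ᵐ s : ℝ, s ≠ 1 := by
      rw [MeasureTheory.ae_iff]
      simp
    filter_upwards [h4] with s hs1 hs2
    rw [uIoc_of_le zero_le_one] at hs2
    exact h1 s ⟨hs2.1, lt_of_le_of_ne hs2.2 hs1⟩
  rw [h3, intervalIntegral.integral_zero]

/-- fibre integral of `d (f(s) pr^* z)` -/
theorem KK_dd_fc_pr (f : Cs (k + 1)) (z : Fm k) (a b : ℝ) (ha : ∀ x : V k, (f : V (k + 1) → ℝ) (Fin.snoc x 1) = a)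
    (hb : ∀ x : V k, (f : V (k + 1) → ℝ) (Fin.snoc x 0) = b) :
    KK k (dd (k + 1) (fc (k + 1) f * pb (pr k) z)) = (a - b) • z := by
  have h1 : KK k (fc (k + 1) f * pb (pr k) z) = 0 := by
    rw [KK_apply]
    have h2 : cs k (fc (k + 1) f * pb (pr k) z) = 0 := by
      unfold cs
      rw [cn_mul, cn_fc, zero_mul, sg_fc, zero_add]
      have h3 : cn (lst k) (pb (pr k) z) = 0 := cs_pr z
      rw [h3, mul_zero]
    rw [h2, map_zero]
  have h2 := dd_KK (fc (k + 1) f * pb (pr k) z)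
  rw [h1, map_zero, zero_add] at h2
  have h3 : ∀ (c e : ℝ), (∀ x : V k, (f : V (k + 1) → ℝ) (Fin.snoc x c) = e) →
      pb (sl k c) (fc (k + 1) f * pb (pr k) z) = e • z := by
    intro c e hc
    rw [map_mul, ← pb_comp, pr_sl, pb_id, pb_fc]
    have h4 : (sl k c).pull f = algebraMap ℝ (Cs k) e := Cs_ext fun x => by
      rw [Sm.pull_apply, sl_apply, hc x]
      rfl
    rw [h4, AlgHom.commutes, Algebra.smul_def]
  rw [h2, h3 1 a ha, h3 0 b hb, sub_smul]

/-! ### plots in the ball -/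

variable {M : Type} [MetricSpace M] [CompactSpace M] {𝒜 : SDist n M}
variable {j : ℕ} {p : M} {ψ : Om (spR n)} {w : Om (spP 𝒜 p)}

/-- `u` on plots of the punctured ball -/
theorem on_uM_R (hB : Bl M) (h : AngD 𝒜 j p ψ w) (P : (spM 𝒜).Plot k) (R : (spR n).Plot k)
    (hR : ∀ z, ‖(R.1 z).1‖ < π ∧ P.1 z = 𝒜.Ex p (R.1 z).1) :
    Om.on (uM hB h) P = Om.on (dO _ (chR n * ψ)) R := by
  refine ev_ext fun z => ?_
  have hd : ∀ y, dist p (P.1 y) = ‖(R.1 y).1‖ := by
    intro y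
    rw [(hR y).2, dist_Ex 𝒜 hB p (hR y).1.le]
  have h1 : P.1 z ≠ p := by
    intro h2
    have := hd z
    rw [h2, dist_self] at this
    exact (R.1 z).2 (norm_eq_zero.1 this.symm)
  rw [ev_uM_ball hB h P h1 (by rw [hd]; exact (hR z).1)]
  refine vAt_eq jR_inj _ R (Eventually.of_forall fun y => ?_)
  show (R.1 y).1 = lgf 𝒜 p (P.1 y)
  rw [(hR y).2, lgf_Ex hB (R.1 y).2 (hR y).1]

/-- the fibre form of `u` -/
def psu (hB : Bl M) (u : Om (spM 𝒜)) : Om (spG 𝒜) := KO _ ((fRho hB).pull u)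

/-- **the fibre form of `u` at `p` is `ψ`** -/
theorem ER_psu (hB : Bl M) (h : AngD 𝒜 j p ψ w) (hh : (nrmR n).pull ψ = ψ) :
    (ER hB p).pull (psu hB (uM hB h)) = ψ := by
  refine Om_ext fun k q => ?_
  rw [on_pull]
  unfold psu
  rw [on_K, on_pull]
  obtain ⟨P, hP⟩ : ∃ P : (spM 𝒜).Plot (k + 1), P = (fRho hB).pl ((ER hB p).pl q).up := ⟨_, rfl⟩
  rw [← hP]
  have hPv : ∀ z : V (k + 1), P.1 z = 𝒜.gv p (nrmR n |>.1 (q.1 (pr k z))).1 (π * z (Fin.last k)) := by
    intro z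
    rw [hP]
    rfl
  -- the comparison form
  obtain ⟨f, hf⟩ : ∃ f : Cs (k + 1), f = mkC (fun z => chi (π * z (Fin.last k)))
    (contDiff_chi.comp (contDiff_const.mul (contDiff_apply ℝ ℝ (Fin.last k)))) := ⟨_, rfl⟩
  have hkey : KK k (Om.on (uM hB h) P) = KK k (dd (k + 1) (fc (k + 1) f * pb (pr k) (Om.on ψ q))) := by
    refine KK_congr fun z hz0 hz1 => ?_
    -- localise
    have hU : {y : V (k + 1) | 0 < y (Fin.last k) ∧ y (Fin.last k) < 1} ∈ 𝓝 z := by
      refine IsOpen.mem_nhds ?_ ⟨hz0, hz1⟩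
      exact (isOpen_lt continuous_const (continuous_apply _)).inter (isOpen_lt (continuous_apply _) continuous_const)
    obtain ⟨g, hg1, hg2⟩ := exists_sq z hU
    have hpos : ∀ y, 0 < π * g y (Fin.last k) := fun y => mul_pos pi_pos (hg2 y).1
    have hunit : ∀ y, ‖(nrmR n |>.1 (q.1 (pr k (g y)))).1‖ = 1 := fun y => normv (q.1 (pr k (g y))).2
    -- the plot of `spR`
    obtain ⟨R, hRv⟩ : ∃ R : (spR n).Plot (k + 1),
        ∀ y, (R.1 y).1 = (π * g y (Fin.last k)) • (nrmR n |>.1 (q.1 (pr k (g y)))).1 := by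
      refine ⟨⟨fun y => ⟨(π * g y (Fin.last k)) • (nrmR n |>.1 (q.1 (pr k (g y)))).1, ?_⟩, ?_⟩, fun y => rfl⟩
      · rw [← norm_ne_zero_iff, norm_smul, hunit, mul_one, Real.norm_eq_abs]
        exact (abs_pos.2 (hpos y).ne').ne'
      · have h1 : ContDiff ℝ ∞ fun y => ((nrmR n).1 (q.1 (pr k (g y)))).1 :=
          (((nrmR n).pl q).cmp ((pr k).comp g)).2
        have h2 : ContDiff ℝ ∞ fun y => g y (Fin.last k) := contDiff_pi.1 g.smooth (Fin.last k)
        exact (contDiff_const.mul h2).smul h1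
    have hR : ∀ y, ‖(R.1 y).1‖ < π ∧ (P.cmp g).1 y = 𝒜.Ex p (R.1 y).1 := by
      intro y
      have h1 : ‖(R.1 y).1‖ = π * g y (Fin.last k) := by
        rw [hRv, norm_smul, hunit, mul_one, Real.norm_eq_abs, abs_of_pos (hpos y)]
      refine ⟨?_, ?_⟩
      · rw [h1]
        nlinarith [(hg2 y).2, pi_pos]
      · show P.1 (g y) = _
        rw [hPv, hRv, Ex_smul 𝒜 hB p (hunit y)]
    have hl : ev z (Om.on (uM hB h) P) = ev z (Om.on (uM hB h) (P.cmp g)) := (ev_local _ P z hg1).symm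
    rw [hl, on_uM_R hB h (P.cmp g) R hR, on_d]
    -- compare
    have h3 : Om.on (chR n * ψ) R = pb g (fc (k + 1) f * pb (pr k) (Om.on ψ q)) := by
      rw [on_mul, map_mul]
      congr 1
      · rw [pb_fc]
        show fc (k + 1) _ = _
        congr 1
        refine Cs_ext fun y => ?_
        show chi ‖(R.1 y).1‖ = (f : V (k + 1) → ℝ) (g y)
        rw [hRv, norm_smul, hunit, mul_one, Real.norm_eq_abs, abs_of_pos (hpos y), hf]
        rfl
      · rw [← pb_comp, ← on_cmp]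
        nth_rewrite 1 [← hh]
        nth_rewrite 2 [← hh]
        rw [on_pull, on_pull]
        congr 1
        refine Plot_ext fun y => Subtype.ext ?_
        show ‖(R.1 y).1‖⁻¹ • (R.1 y).1 = (nrmR n |>.1 (q.1 (pr k (g y)))).1
        have h1 : ‖(R.1 y).1‖ = π * g y (Fin.last k) := by
          rw [hRv, norm_smul, hunit, mul_one, Real.norm_eq_abs, abs_of_pos (hpos y)]
        rw [h1, hRv, smul_smul, inv_mul_cancel₀ (hpos y).ne', one_smul]
    rw [h3, pb_dd]
    exact ev_pb_id hg1 _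
  rw [hkey, KK_dd_fc_pr f _ 1 0]
  · rw [sub_zero, one_smul]
  · intro x
    rw [hf, mkC_apply, snoc_last_val, mul_one]
    exact chi_one (by linarith [pi_gt_three])
  · intro x
    rw [hf, mkC_apply, snoc_last_val, mul_zero]
    exact chi_zero zero_le_one

end Pool.Agent.Lib.MP_ccbbf6_gt.L5
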