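import Pool.Agent.Lib.MP_ccbbf6_gt.L4.OriE
import Pool.Agent.Lib.MP_ccbbf6_gt.L4.Sp
import Pool.Agent.Lib.MP_ccbbf6_gt.L5.INTf

/-!
# Level 5, UOR10: orthonormal frames of the spaces `V` and of `M`; the fibre integral of the path form (helper2)
-/

set_option autoImplicit false
set_option linter.unusedSectionVars false
set_option linter.unusedVariables false

open Set Filter Topology Metric Real Module
open scoped ContDiff RealInnerProductSpace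

noncomputable section

namespace Pool.Agent.Lib.MP_ccbbf6_gt.L5

open Geo L4 L4.FR L4.ORI

variable {n : ℕ} {M : Type} [MetricSpace M] [CompactSpace M] (𝒜 : SDist n M)

/-- orthonormal families of velocities at one point -/
structure IsMF (r : ℕ) (f : Fin (r + 1) → Gs M) : Prop where
  foot : ∀ i, (f i).1 0 = (f 0).1 0
  orth : ∀ i j, ⟪𝒜.vel (f i).1 0, 𝒜.vel (f j).1 0⟫ = if i = j then (1 : ℝ) else 0

/-- the space of orthonormal families of `r + 1` velocities at one point -/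
def spMF (r : ℕ) : Space where
  pt := {f : Fin (r + 1) → Gs M // IsMF 𝒜 r f}
  Pl _ := {p | ∀ i, SmG 𝒜 fun u => (p u).1 i}
  pre := fun {_ _ p} hp g i => SmG.comp (σ := fun u => (p u).1 i) (hp i) g.smooth

/-- frames of the space `V` of a pair of points at distance `π` (all tops are equal) -/
abbrev spVF (κ : ℕ) : Space := sub (spMF 𝒜 κ) {f | ∀ i, (f.1 i).1 π = (f.1 0).1 π}

variable {𝒜} {r : ℕ}

/-- the vector with coordinates `ξ` -/
def vcF (𝒜 : SDist n M) (f : Fin (r + 1) → Gs M) (ξ : V (r + 1)) : Eu n := ∑ i, ξ i • 𝒜.vel (f i).1 0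

theorem inner_vcF {f : Fin (r + 1) → Gs M} (hf : IsMF 𝒜 r f) (ξ ζ : V (r + 1)) :
    ⟪vcF 𝒜 f ξ, vcF 𝒜 f ζ⟫ = ∑ i, ξ i * ζ i := by
  unfold vcF
  rw [sum_inner]
  refine Finset.sum_congr rfl fun i _ => ?_
  rw [inner_sum, Finset.sum_eq_single i]
  · rw [real_inner_smul_left, real_inner_smul_right, hf.orth, if_pos rfl, mul_one]
  · intro j _ hj
    rw [real_inner_smul_left, real_inner_smul_right, hf.orth, if_neg (Ne.symm hj), mul_zero, mul_zero]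
  · intro h
    exact absurd (Finset.mem_univ i) h

theorem vcF_ne {f : Fin (r + 1) → Gs M} (hf : IsMF 𝒜 r f) {ξ : V (r + 1)} (h : ξ ≠ 0) : vcF 𝒜 f ξ ≠ 0 := by
  intro h0
  apply h
  have h1 := inner_vcF hf ξ ξ
  rw [h0, inner_zero_left] at h1
  funext i
  have h2 : ∀ j ∈ Finset.univ, 0 ≤ ξ j * ξ j := fun j _ => mul_self_nonneg _
  exact mul_self_eq_zero.1 ((Finset.sum_eq_zero_iff_of_nonneg h2).1 h1.symm i (Finset.mem_univ i))

theorem smV_vcF (hB : Bl M) {E : Type*} [NormedAddCommGroup E] [NormedSpace ℝ E] {f : E → Fin (r + 1) → Gs M} {ξ : E → V (r + 1)}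
    {u : E} {p : M} (hf : ∀ i, SmGA 𝒜 (fun v => f v i) u) (h0 : ∀ v i, (f v i).1 0 = (f v 0).1 0)
    (hp : (f u 0).1 0 ∈ (𝒜.ψ p).source) (hξ : ContDiffAt ℝ ∞ ξ u) :
    SmV 𝒜 p (fun v => (f v 0).1 0) (fun v => vcF 𝒜 (f v) (ξ v)) u := by
  unfold vcF
  have h1 : ∀ i, SmV 𝒜 p (fun v => (f v 0).1 0) (fun v => ξ v i • 𝒜.vel (f v i).1 0) u := by
    intro i
    have h2 := (hf i).smV hB (p := p) (by rw [h0]; exact hp)
    have h3 : (fun v => (f v i).1 0) = fun v => (f v 0).1 0 := funext fun v => h0 v i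
    rw [h3] at h2
    exact h2.smul (contDiffAt_pi.1 hξ i)
  have h4 : ∀ s : Finset (Fin (r + 1)), SmV 𝒜 p (fun v => (f v 0).1 0) (fun v => ∑ i ∈ s, ξ v i • 𝒜.vel (f v i).1 0) u := by
    intro s
    induction s using Finset.induction_on with
    | empty =>
      simp only [Finset.sum_empty]
      show ContDiffAt ℝ ∞ _ u
      simp only [map_zero]
      exact contDiffAt_const
    | insert a s ha ih =>
      simp only [Finset.sum_insert ha]
      exact (h1 a).add ih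
  exact h4 Finset.univ

/-- the direction with coordinates `ξ` -/
def dirM (𝒜 : SDist n M) (hB : Bl M) (r : ℕ) : SMap ((spMF 𝒜 r).xP (r + 1)) (spG 𝒜) :=
  ⟨fun z => gw 𝒜 hB (z.1.1.1 0) (vcF 𝒜 z.1.1.1 z.1.2), fun k p => smG_of fun u => by
    obtain ⟨q, hq⟩ : ∃ q, q = ((p.1 u).1.1.1 0).1 0 := ⟨_, rfl⟩
    have hq' : ((p.1 u).1.1.1 0).1 0 ∈ (𝒜.ψ q).source := by rw [hq]; exact 𝒜.mem _
    have h1 : ∀ i, SmGA 𝒜 (fun v => (p.1 v).1.1.1 i) u := fun i => (p.2.1 i).at u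
    exact smGA_gw hB (h1 0).1 hq' (smV_vcF hB (f := fun v => (p.1 v).1.1.1) (ξ := fun v => (p.1 v).1.2) h1
      (fun v i => (p.1 v).1.1.2.foot i) hq' (p.2.2.contDiffAt)) (vcF_ne (p.1 u).1.1.2 (p.1 u).2)⟩

/-- the same for frames of `V` -/
def dirV (𝒜 : SDist n M) (hB : Bl M) (κ : ℕ) : SMap ((spVF 𝒜 κ).xP (κ + 1)) (spG 𝒜) :=
  (dirM 𝒜 hB κ).comp ((inU (spMF 𝒜 κ) {f | ∀ i, (f.1 i).1 π = (f.1 0).1 π}).xP (κ + 1))

theorem foot_dirM (hB : Bl M) (z : ((spMF 𝒜 r).xP (r + 1)).pt) : ((dirM 𝒜 hB r).1 z).1 0 = (z.1.1.1 0).1 0 :=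
  gw_zero 𝒜 hB _ _

theorem vel_dirM (hB : Bl M) (z : ((spMF 𝒜 r).xP (r + 1)).pt) :
    𝒜.vel ((dirM 𝒜 hB r).1 z).1 0 = nrm (vcF 𝒜 z.1.1.1 z.1.2) := gw_vel 𝒜 hB _ (vcF_ne z.1.1.2 z.2)

/-- fibre integration over the unit sphere of the span of the frame -/
def JF (𝒜 : SDist n M) (hB : Bl M) (r : ℕ) (θ : Om (spG 𝒜)) : Om (spMF 𝒜 r) :=
  SI (r + 1) (spMF 𝒜 r) ((dirM 𝒜 hB r).pull θ)

/-- fibre integration over the unit sphere of `V` -/
def JV (𝒜 : SDist n M) (hB : Bl M) (κ : ℕ) (θ : Om (spG 𝒜)) : Om (spVF 𝒜 κ) :=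
  SI (κ + 1) (spVF 𝒜 κ) ((dirV 𝒜 hB κ).pull θ)

end Pool.Agent.Lib.MP_ccbbf6_gt.L5
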