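import Pool.Agent.Lib.MP_ccbbf6_gt.L4.Cmp4
import Pool.Agent.Lib.MP_ccbbf6_gt.L5.INTg
import Pool.Agent.Lib.MP_ccbbf6_gt.L5.UOR09
import Pool.Agent.Lib.MP_ccbbf6_gt.L5.UOR10

/-!
# Level 5, UOR11: closed path forms have locally constant integrals over the unit spheres of `V`; change of frame (helper2)
-/

set_option autoImplicit false
set_option linter.unusedSectionVars false
set_option linter.unusedVariables false

open Set Filter Topology Metric Real Module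
open scoped ContDiff RealInnerProductSpace

noncomputable section

namespace Pool.Agent.Lib.MP_ccbbf6_gt.L5

open Geo L4 L4.FR L4.ORI

/-! ### general lemmas -/

section gen

variable {N : ℕ} {X : Space}

/-- pull-backs from the base have integral zero -/
theorem SI_pP (hN : 1 < N) (a : Om X) : SI N X ((pP X N).pull a) = 0 := by
  have h1 : SI N X (1 * (pP X N).pull a) = SI N X 1 * a := SI_mulr a 1
  rw [one_mul, SI_low Deg_one (by omega), zero_mul] at h1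
  exact h1

/-- closed forms whose differential comes from the base -/
theorem d_SI_pP (hN : 1 < N) {Θ : Om (X.xP N)} {a b : Om X} (h : dO _ Θ = (pP X N).pull a - (pP X N).pull b) :
    dO X (SI N X Θ) = 0 := by
  rw [SI_d, h, map_sub, SI_pP hN, SI_pP hN, sub_zero, smul_zero]

end gen

variable {n : ℕ} {M : Type} [MetricSpace M] [CompactSpace M] {𝒜 : SDist n M} {κ r : ℕ}

/-! ### foot and top -/

/-- foot of a frame -/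
def ftF (𝒜 : SDist n M) (r : ℕ) : SMap (spMF 𝒜 r) (spM 𝒜) := ⟨fun f => (f.1 0).1 0, fun _ p => (p.2 0).1⟩

/-- foot and top maps -/
def ftG (hB : Bl M) : SMap (spG 𝒜) (spM 𝒜) := (fRho hB).comp (jO (spG 𝒜) 0)

def tpG (hB : Bl M) : SMap (spG 𝒜) (spM 𝒜) := (fRho hB).comp (jO (spG 𝒜) 1)

theorem ftG_apply (hB : Bl M) (c : (spG 𝒜).pt) : (ftG hB).1 c = c.1 0 := by
  show c.1 (π * 0) = c.1 0
  rw [mul_zero]

theorem tpG_apply (hB : Bl M) (c : (spG 𝒜).pt) : (tpG hB).1 c = c.1 π := by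
  show c.1 (π * 1) = c.1 π
  rw [mul_one]

/-- foot and top of a frame of `V` -/
def ftV (𝒜 : SDist n M) (κ : ℕ) : SMap (spVF 𝒜 κ) (spM 𝒜) :=
  (ftF 𝒜 κ).comp (inU (spMF 𝒜 κ) {f | ∀ i, (f.1 i).1 π = (f.1 0).1 π})

def f0V (𝒜 : SDist n M) (κ : ℕ) : SMap (spVF 𝒜 κ) (spG 𝒜) := ⟨fun f => f.1.1 0, fun _ p => p.2 0⟩

theorem d_psu' (hB : Bl M) {u : Om (spM 𝒜)} (hu : dO _ u = 0) :
    dO _ (psu hB u) = (tpG hB).pull u - (ftG hB).pull u := by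
  have h := d_K ((fRho hB).pull u)
  rw [pull_d, hu, map_zero, map_zero, add_zero] at h
  exact h

theorem Deg_psu {j : ℕ} (hB : Bl M) {u : Om (spM 𝒜)} (hu : Deg (j + 1) u) : Deg j (psu hB u) :=
  Deg_K (Deg_pull _ hu)

theorem vcF_mem (hB : Bl M) (f : (spVF 𝒜 κ).pt) (ξ : V (κ + 1)) :
    vcF 𝒜 f.1.1 ξ ∈ 𝒜.PV ((f.1.1 0).1 0) (𝒜.vel (f.1.1 0).1 0) := by
  unfold vcF
  exact Submodule.sum_mem _ fun i _ => Submodule.smul_mem _ _ (mem_PV_of_top 𝒜 hB (f.1.2.foot i) (f.2 i))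

theorem vel_dirV (hB : Bl M) (z : ((spVF 𝒜 κ).xP (κ + 1)).pt) :
    𝒜.vel ((dirV 𝒜 hB κ).1 z).1 0 = nrm (vcF 𝒜 z.1.1.1.1 z.1.2) := gw_vel 𝒜 hB _ (vcF_ne z.1.1.1.2 z.2)

theorem foot_dirV (hB : Bl M) (z : ((spVF 𝒜 κ).xP (κ + 1)).pt) : ((dirV 𝒜 hB κ).1 z).1 0 = (z.1.1.1.1 0).1 0 :=
  gw_zero 𝒜 hB _ _

theorem top_dirV (hB : Bl M) (z : ((spVF 𝒜 κ).xP (κ + 1)).pt) : ((dirV 𝒜 hB κ).1 z).1 π = (z.1.1.1.1 0).1 π :=
  top_of_mem 𝒜 hB _ (vcF_ne z.1.1.1.2 z.2) (vcF_mem hB z.1.1 z.1.2)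

theorem ft_dirV (hB : Bl M) (a : Om (spM 𝒜)) : (dirV 𝒜 hB κ).pull ((ftG hB).pull a) =
    (pP (spVF 𝒜 κ) (κ + 1)).pull ((f0V 𝒜 κ).pull ((ftG hB).pull a)) := by
  rw [← pull_comp, ← pull_comp, ← pull_comp]
  have h : (ftG hB).comp (dirV 𝒜 hB κ) = (ftG hB).comp ((f0V 𝒜 κ).comp (pP (spVF 𝒜 κ) (κ + 1))) := SMap_ext fun z => by
    show (ftG hB).1 ((dirV 𝒜 hB κ).1 z) = (ftG hB).1 (z.1.1.1.1 0)
    rw [ftG_apply, ftG_apply, foot_dirV]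
  rw [h]

theorem tp_dirV (hB : Bl M) (a : Om (spM 𝒜)) : (dirV 𝒜 hB κ).pull ((tpG hB).pull a) =
    (pP (spVF 𝒜 κ) (κ + 1)).pull ((f0V 𝒜 κ).pull ((tpG hB).pull a)) := by
  rw [← pull_comp, ← pull_comp, ← pull_comp]
  have h : (tpG hB).comp (dirV 𝒜 hB κ) = (tpG hB).comp ((f0V 𝒜 κ).comp (pP (spVF 𝒜 κ) (κ + 1))) := SMap_ext fun z => by
    show (tpG hB).1 ((dirV 𝒜 hB κ).1 z) = (tpG hB).1 (z.1.1.1.1 0)
    rw [tpG_apply, tpG_apply, top_dirV]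
  rw [h]

/-- the integral over the fibres is closed -/
theorem d_JV_psu (hB : Bl M) (hκ : 1 ≤ κ) {u : Om (spM 𝒜)} (hu : dO _ u = 0) : dO _ (JV 𝒜 hB κ (psu hB u)) = 0 := by
  refine d_SI_pP (a := (f0V 𝒜 κ).pull ((tpG hB).pull u)) (b := (f0V 𝒜 κ).pull ((ftG hB).pull u)) (by omega) ?_
  rw [pull_d, d_psu' hB hu, map_sub, tp_dirV, ft_dirV]

theorem Deg_JV {j : ℕ} (hB : Bl M) {θ : Om (spG 𝒜)} (h : Deg (j + κ) θ) : Deg j (JV 𝒜 hB κ θ) := Deg_SI (Deg_pull _ h)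

/-! ### values at frames -/

/-- the constant plot -/
def cpl (f : (spVF 𝒜 κ).pt) : (spVF 𝒜 κ).Plot 0 := ⟨fun _ => f, fun _ => ⟨sm_const _, sm_const _⟩⟩

/-- the integral of the path form at a frame -/
def gV (𝒜 : SDist n M) (hB : Bl M) (κ : ℕ) (θ : Om (spG 𝒜)) (f : (spVF 𝒜 κ).pt) : ℝ := val (JV 𝒜 hB κ θ) (cpl f)

theorem cmp_pt0 {k : ℕ} (q : (spVF 𝒜 κ).Plot k) (x : V k) : q.cmp (pt0 x) = cpl (q.1 x) :=
  Plot_ext fun _ => rfl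

theorem gV_plot (hB : Bl M) {θ : Om (spG 𝒜)} (h : Deg κ θ) {k : ℕ} (q : (spVF 𝒜 κ).Plot k) (x : V k) :
    gV 𝒜 hB κ θ (q.1 x) = (FR.fn k (Om.on (JV 𝒜 hB κ θ) q) : V k → ℝ) x := by
  unfold gV
  rw [← cmp_pt0, val_cmp (Deg_JV (j := 0) hB (by rwa [zero_add]))]

theorem gV_smooth (hB : Bl M) {θ : Om (spG 𝒜)} (h : Deg κ θ) (k : ℕ) (q : (spVF 𝒜 κ).Plot k) :
    ContDiff ℝ ∞ fun x => gV 𝒜 hB κ θ (q.1 x) := by
  simp only [gV_plot hB h]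
  exact Cs_smooth _

theorem JV_eq (hB : Bl M) {θ : Om (spG 𝒜)} (h : Deg κ θ) : JV 𝒜 hB κ θ = fO (gV 𝒜 hB κ θ) (gV_smooth hB h) := by
  refine Om_ext fun k q => ?_
  have h1 : Deg 0 (JV 𝒜 hB κ θ) := Deg_JV (j := 0) hB (by rwa [zero_add])
  rw [← Dg_fn (h1 k q)]
  show _ = fc k ⟨_, _⟩
  congr 1
  refine Cs_ext fun x => ?_
  exact (gV_plot hB h q x).symm

/-- locally constant along plots -/
theorem gV_loc (hB : Bl M) (hκ : 1 ≤ κ) {u : Om (spM 𝒜)} (hu : dO _ u = 0) (h4 : Deg (κ + 1) u) {k : ℕ}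
    (q : (spVF 𝒜 κ).Plot k) (x y : V k) : gV 𝒜 hB κ (psu hB u) (q.1 x) = gV 𝒜 hB κ (psu hB u) (q.1 y) := by
  let L : Sm 1 k := ⟨fun s => (1 - s 0) • x + s 0 • y, ((contDiff_const.sub (contDiff_apply ℝ ℝ (0 : Fin 1))).smul
    contDiff_const).add ((contDiff_apply ℝ ℝ (0 : Fin 1)).smul contDiff_const)⟩
  have h0 : L (fun _ => 0) = x := by
    show (1 - 0 : ℝ) • x + (0 : ℝ) • y = x
    rw [sub_zero, one_smul, zero_smul, add_zero]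
  have h1 : L (fun _ => 1) = y := by
    show (1 - 1 : ℝ) • x + (1 : ℝ) • y = y
    rw [sub_self, one_smul, zero_smul, zero_add]
  have h2 : Deg 0 (JV 𝒜 hB κ (psu hB u)) := Deg_JV (j := 0) hB (by rw [zero_add]; exact Deg_psu hB h4)
  have h3 := val_plot h2 (d_JV_psu hB hκ hu) (q.cmp L) (fun _ => 0) (fun _ => 1)
  rw [cmp_pt0, cmp_pt0] at h3
  have e0 : (q.cmp L).1 (fun _ => 0) = q.1 x := by
    show q.1 (L _) = _
    rw [h0]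
  have e1 : (q.cmp L).1 (fun _ => 1) = q.1 y := by
    show q.1 (L _) = _
    rw [h1]
  rw [e0, e1] at h3
  exact h3

/-! ### change of frame -/

/-- the matrix of a frame in another one -/
def chM (f f' : (spMF 𝒜 r).pt) : Matrix (Fin (r + 1)) (Fin (r + 1)) ℝ :=
  Matrix.of fun i j => ⟪𝒜.vel (f.1 i).1 0, 𝒜.vel (f'.1 j).1 0⟫

theorem isFr_vel (hB : Bl M) (hk : 𝒜.HK κ) (f : (spVF 𝒜 κ).pt) :
    IsFr (𝒜.PV ((f.1.1 0).1 0) (𝒜.vel (f.1.1 0).1 0)) fun i => 𝒜.vel (f.1.1 i).1 0 :=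
  ⟨fun j => mem_PV_of_top 𝒜 hB (f.1.2.foot j) (f.2 j), orthonormal_iff_ite.2 fun i j => f.1.2.orth i j,
    finrank_PV 𝒜 hB hk _ (vel_ne 𝒜 _)⟩

theorem vel_expand (hB : Bl M) (hk : 𝒜.HK κ) {f f' : (spVF 𝒜 κ).pt} (h0 : (f'.1.1 0).1 0 = (f.1.1 0).1 0)
    (h1 : (f'.1.1 0).1 π = (f.1.1 0).1 π) (j : Fin (κ + 1)) :
    𝒜.vel (f'.1.1 j).1 0 = ∑ i, chM f.1 f'.1 i j • 𝒜.vel (f.1.1 i).1 0 := by
  refine (isFr_vel hB hk f).expand ?_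
  exact mem_PV_of_top 𝒜 hB ((f'.1.2.foot j).trans h0) ((f'.2 j).trans h1)

theorem chM_orth (hB : Bl M) (hk : 𝒜.HK κ) {f f' : (spVF 𝒜 κ).pt} (h0 : (f'.1.1 0).1 0 = (f.1.1 0).1 0)
    (h1 : (f'.1.1 0).1 π = (f.1.1 0).1 π) : (chM f.1 f'.1).transpose * chM f.1 f'.1 = 1 := by
  ext i j
  rw [Matrix.mul_apply, Matrix.one_apply, ← f'.1.2.orth i j]
  rw [vel_expand hB hk h0 h1 i, sum_inner]
  refine Finset.sum_congr rfl fun l _ => ?_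
  rw [real_inner_smul_left, Matrix.transpose_apply]
  rfl

theorem dirV_change (hB : Bl M) (hk : 𝒜.HK κ) {f f' : (spVF 𝒜 κ).pt} (h0 : (f'.1.1 0).1 0 = (f.1.1 0).1 0)
    (h1 : (f'.1.1 0).1 π = (f.1.1 0).1 π) {ξ : V (κ + 1)} (hξ : ξ ≠ 0)
    (hA : (chM f.1 f'.1).mulVec ξ ≠ 0) : (dirV 𝒜 hB κ).1 ⟨(f', ξ), hξ⟩ = (dirV 𝒜 hB κ).1 ⟨(f, (chM f.1 f'.1).mulVec ξ), hA⟩ := by
  have h2 : vcF 𝒜 f'.1.1 ξ = vcF 𝒜 f.1.1 ((chM f.1 f'.1).mulVec ξ) := by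
    unfold vcF
    have h3 : ∀ j, ξ j • 𝒜.vel (f'.1.1 j).1 0 = ∑ i, (ξ j * chM f.1 f'.1 i j) • 𝒜.vel (f.1.1 i).1 0 := by
      intro j
      rw [vel_expand hB hk h0 h1 j, Finset.smul_sum]
      exact Finset.sum_congr rfl fun i _ => smul_smul _ _ _
    simp only [h3]
    rw [Finset.sum_comm]
    refine Finset.sum_congr rfl fun i _ => ?_
    rw [← Finset.sum_smul]
    congr 1
    show _ = ∑ j, chM f.1 f'.1 i j * ξ j
    exact Finset.sum_congr rfl fun j _ => mul_comm _ _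
  refine eq_of_vel' 𝒜 ?_ ?_
  · rw [foot_dirV, foot_dirV]
    exact h0
  · rw [vel_dirV, vel_dirV]
    exact congrArg nrm h2

theorem gV_change (hB : Bl M) (hk : 𝒜.HK κ) (θ : Om (spG 𝒜)) {f f' : (spVF 𝒜 κ).pt}
    (h0 : (f'.1.1 0).1 0 = (f.1.1 0).1 0) (h1 : (f'.1.1 0).1 π = (f.1.1 0).1 π) :
    gV 𝒜 hB κ θ f' = (chM f.1 f'.1).det * gV 𝒜 hB κ θ f := by
  have h2 := chM_orth hB hk h0 h1
  have hs : |(chM f.1 f'.1).det| = 1 := by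
    have h3 := congrArg Matrix.det h2
    rw [Matrix.det_mul, Matrix.det_transpose, Matrix.det_one] at h3
    rcases mul_self_eq_one_iff.1 h3 with h4 | h4
    · rw [h4, abs_one]
    · rw [h4, abs_neg, abs_one]
  have h3 := SI_change (dirV 𝒜 hB κ) (P := cpl f) (P' := cpl f') (A := fun _ => chM f.1 f'.1)
    (fun i j => contDiff_const) (fun _ => h2) hs (fun _ => rfl)
    (fun z ξ hξ => dirV_change hB hk h0 h1 hξ _) θ
  unfold gV val JV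
  rw [h3]
  have h4 : FR.fn 0 ((chM f.1 f'.1).det • Om.on (SI (κ + 1) (spVF 𝒜 κ) ((dirV 𝒜 hB κ).pull θ)) (cpl f)) =
      (chM f.1 f'.1).det • FR.fn 0 (Om.on (SI (κ + 1) (spVF 𝒜 κ) ((dirV 𝒜 hB κ).pull θ)) (cpl f)) := map_smul _ _ _
  rw [h4]
  rfl

end Pool.Agent.Lib.MP_ccbbf6_gt.L5
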