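import Pool.Agent.Lib.MP_ccbbf6_gt.L5.G3b
import Pool.Agent.Lib.MP_ccbbf6_gt.L5.INTa
import Pool.Agent.Lib.MP_ccbbf6_gt.L5.UOR11

/-!
# Level 5, UOR14: plots of geodesics lift locally to the frames of `V` (helper2)
-/

set_option autoImplicit false
set_option linter.unusedSectionVars false
set_option linter.unusedVariables false

open Set Filter Topology Metric Real Module
open scoped ContDiff RealInnerProductSpace

noncomputable section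

namespace Pool.Agent.Lib.MP_ccbbf6_gt.L5

open Geo L4 L4.FR L4.ORI

variable {n : ℕ} {M : Type} [MetricSpace M] [CompactSpace M] {𝒜 : SDist n M}

/-- the frame of `V` with first vector the velocity of `c` -/
def consG (𝒜 : SDist n M) (hB : Bl M) {κ : ℕ} (c : Gs M) (w : Fin κ → Eu n) : Fin (κ + 1) → Gs M :=
  Fin.cons c fun i => gw 𝒜 hB c (w i)

theorem consG_foot (hB : Bl M) {κ : ℕ} (c : Gs M) (w : Fin κ → Eu n) (i : Fin (κ + 1)) :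
    (consG 𝒜 hB c w i).1 0 = c.1 0 := by
  refine Fin.cases ?_ (fun j => ?_) i
  · rfl
  · exact gw_zero 𝒜 hB c (w j)

theorem consG_isMF (hB : Bl M) {κ : ℕ} (c : Gs M) {w : Fin κ → Eu n} (ho : Orthonormal ℝ w)
    (h0 : ∀ i, ⟪𝒜.vel c.1 0, w i⟫ = 0) : IsMF 𝒜 κ (consG 𝒜 hB c w) := by
  have hw : ∀ i, ‖w i‖ = 1 := ho.1
  have hv : ∀ i : Fin κ, 𝒜.vel (consG 𝒜 hB c w i.succ).1 0 = w i := fun i => by
    show 𝒜.vel (gw 𝒜 hB c (w i)).1 0 = w i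
    rw [gw_vel 𝒜 hB c (kc_ne (hw i)), nrm_of_norm (hw i)]
  have hv0 : 𝒜.vel (consG 𝒜 hB c w 0).1 0 = 𝒜.vel c.1 0 := rfl
  refine ⟨fun i => consG_foot hB c w i, fun i j => ?_⟩
  refine Fin.cases ?_ (fun i' => ?_) i <;> refine Fin.cases ?_ (fun j' => ?_) j
  · rw [hv0, if_pos rfl, real_inner_self_eq_norm_sq, vel_norm 𝒜 c, one_pow]
  · rw [hv0, hv, h0, if_neg (Fin.succ_ne_zero j').symm]
  · rw [hv0, hv, real_inner_comm, h0, if_neg (Fin.succ_ne_zero i')]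
  · rw [hv, hv]
    have h1 := orthonormal_iff_ite.1 ho i' j'
    rw [h1]
    simp only [Fin.succ_inj]

theorem consG_top (hB : Bl M) {κ : ℕ} (c : Gs M) {w : Fin κ → Eu n} (hw : ∀ i, w i ≠ 0)
    (hV : ∀ i, w i ∈ 𝒜.PV (c.1 0) (𝒜.vel c.1 0)) (i : Fin (κ + 1)) : (consG 𝒜 hB c w i).1 π = c.1 π := by
  refine Fin.cases ?_ (fun j => ?_) i
  · rfl
  · exact top_of_mem 𝒜 hB c (hw j) (hV j)

/-- local frames of `V` along plots of geodesics -/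
theorem LLift_f0V (hB : Bl M) {κ : ℕ} (hk : 𝒜.HK κ) : LLift (f0V 𝒜 κ) := by
  intro k p z
  have hσ : ∀ u, SmGA 𝒜 p.1 u := fun u => p.2.at u
  obtain ⟨b⟩ : Nonempty (OrthonormalBasis (Fin κ) ℝ (Kc 𝒜 (p.1 z))) :=
    ⟨(stdOrthonormalBasis ℝ (Kc 𝒜 (p.1 z))).reindex (finCongr (finrank_Kc 𝒜 hB hk (p.1 z)))⟩
  obtain ⟨w, hw0, hw⟩ := exists_frame_Kc hB hk (hσ z) (r := κ) (a := fun i => (b i : Eu n))
    (b.orthonormal.comp_linearIsometry (Kc 𝒜 (p.1 z)).subtypeₗᵢ) (fun i => (b i).2)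
  have hs : ∀ᶠ y in 𝓝 z, (p.1 y).1 0 ∈ (𝒜.ψ ((p.1 z).1 0)).source :=
    (hσ z).1.1.eventually ((𝒜.ψ _).open_source.mem_nhds (𝒜.mem _))
  obtain ⟨h, h1, h2⟩ := exists_sq z (hw.and hs)
  have ho : ∀ y, Orthonormal ℝ fun i => w i (h y) := fun y => (h2 y).1.1
  have hK : ∀ y i, w i (h y) ∈ Kc 𝒜 (p.1 (h y)) := fun y => (h2 y).1.2.1
  refine ⟨h, ⟨fun y => ⟨⟨consG 𝒜 hB (p.1 (h y)) fun i => w i (h y),
    consG_isMF hB _ (ho y) fun i => ((mem_Kc 𝒜).1 (hK y i)).2⟩, fun i => ?_⟩, fun i => ?_⟩, h1, Plot_ext fun y => rfl⟩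
  · exact consG_top hB _ (fun j => kc_ne ((ho y).1 j)) (fun j => ((mem_Kc 𝒜).1 (hK y j)).1) i
  · refine Fin.cases ?_ (fun j => ?_) i
    · exact (p.cmp h).2
    · refine smG_of fun y => ?_
      have h3 : SmGA 𝒜 (fun y => p.1 (h y)) y := SmGA.comp (hσ (h y)) h.smooth.contDiffAt
      refine smGA_gw hB (c := fun y => p.1 (h y)) (w := fun y => w j (h y)) h3.1 (p := (p.1 z).1 0) (h2 y).2 ?_
        (kc_ne ((ho y).1 j))
      exact ((h2 y).1.2.2 (hσ _) j).comp h.smooth.contDiffAt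

end Pool.Agent.Lib.MP_ccbbf6_gt.L5
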