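import Pool.Agent.Lib.MP_ccbbf6_gt.L5.UOR13
import Pool.Agent.Lib.MP_ccbbf6_gt.L5.UOR14

/-!
# Level 5, UORapi: interface of block UOR (helper2): the closed form `u` of degree `κ + 1` on `M`, the orientation of `V`

`spVF 𝒜 κ`: orthonormal frames `f 0, .., f κ` of the space `V` of a pair of points at distance `π` (same foot, same top); plots: componentwise smooth.
`JV 𝒜 hB κ θ = SI (κ + 1) _ ((dirV 𝒜 hB κ).pull θ)`: fibre integral over the unit sphere of `V` in the coordinates of the frame.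
`psu hB u = ∫_0^π ι_t ev^* u` (file UOR09: `KO _ ((fRho hB).pull u)`).
ORIENTATION PREDICATE: `OV g f := g f = 1`, where `g` is the function of `exists_UD`.
-/

set_option autoImplicit false
set_option linter.unusedSectionVars false
set_option linter.unusedVariables false

open Set Filter Topology Metric Real Module
open scoped ContDiff RealInnerProductSpace

noncomputable section

namespace Pool.Agent.Lib.MP_ccbbf6_gt.L5

open Geo L4 L4.FR L4.ORI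

variable {n : ℕ} {M : Type} [MetricSpace M] [CompactSpace M] {𝒜 : SDist n M}

/-- the form `u` and the orientation function `g = ±1` of the frames of `V` -/
structure UD (𝒜 : SDist n M) (hB : Bl M) (κ : ℕ) (u : Om (spM 𝒜)) (g : (spVF 𝒜 κ).pt → ℝ) : Prop where
  deg : Deg (κ + 1) u
  closed : dO _ u = 0
  smooth : ∀ (k : ℕ) (P : (spVF 𝒜 κ).Plot k), ContDiff ℝ ∞ fun x => g (P.1 x)
  JV : JV 𝒜 hB κ (psu hB u) = fO g smooth
  one : ∀ f, |g f| = 1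

/-- positive frames -/
def OV {κ : ℕ} (g : (spVF 𝒜 κ).pt → ℝ) (f : (spVF 𝒜 κ).pt) : Prop := g f = 1

namespace UD

variable {hB : Bl M} {κ : ℕ} {u : Om (spM 𝒜)} {g : (spVF 𝒜 κ).pt → ℝ}

theorem gV_eq' (h : UD 𝒜 hB κ u g) (f : (spVF 𝒜 κ).pt) : gV 𝒜 hB κ (psu hB u) f = g f := by
  unfold gV
  rw [h.JV]
  unfold val
  rw [on_fO, fn_fc]
  rfl

/-- the path form is a primitive of `u₂ - u₁` -/
theorem d_psu (h : UD 𝒜 hB κ u g) : dO _ (psu hB u) = (tpG hB).pull u - (ftG hB).pull u := d_psu' hB h.closed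

theorem Deg_psu (h : UD 𝒜 hB κ u g) : Deg κ (psu hB u) := L5.Deg_psu hB h.deg

/-- two frames of the same space -/
theorem change (h : UD 𝒜 hB κ u g) (hk : 𝒜.HK κ) {f f' : (spVF 𝒜 κ).pt} (h0 : (f'.1.1 0).1 0 = (f.1.1 0).1 0)
    (h1 : (f'.1.1 0).1 π = (f.1.1 0).1 π) :
    g f' = (Matrix.of fun i j => ⟪𝒜.vel (f.1.1 i).1 0, 𝒜.vel (f'.1.1 j).1 0⟫).det * g f := by
  rw [← h.gV_eq', ← h.gV_eq']
  exact gV_change hB hk _ h0 h1

/-- the orientation is constant along plots -/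
theorem loc (h : UD 𝒜 hB κ u g) (hκ : 1 ≤ κ) {k : ℕ} (P : (spVF 𝒜 κ).Plot k) (z z' : V k) : g (P.1 z) = g (P.1 z') := by
  rw [← h.gV_eq', ← h.gV_eq']
  exact gV_loc hB hκ h.closed h.deg P z z'

end UD

/-- **existence**, with the explicit description of `u` in the ball around `p` (`ψ` homogeneous of degree zero on `R^n - 0`,
`uM_ex`: `Ex_p^* u = dd (χ ψ)`; `ER_psu`: `psu u` restricted to the unit sphere at `p` is `ψ`) -/
theorem exists_UD (hn : 3 ≤ n) (hB : Bl M) (hk : 𝒜.HK 3) (p : M) :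
    ∃ (ψ : Om (spR n)) (w : Om (spP 𝒜 p)) (h : AngD 𝒜 3 p ψ w) (g : (spVF 𝒜 3).pt → ℝ),
      (nrmR n).pull ψ = ψ ∧ UD 𝒜 hB 3 (uM hB h) g := by
  obtain ⟨o, ho⟩ := exists_orP (𝒜 := 𝒜) hn hB (κ := 3) (by norm_num) hk p
  refine ⟨psP hB hk ho, wP hB hk ho, angD hB hk ho, gV 𝒜 hB 3 (psu hB (uM hB (angD hB hk ho))), nrm_psP hB hk ho, ?_⟩
  have hdeg : Deg (3 + 1) (uM hB (angD hB hk ho)) := Deg_uM hB _
  refine ⟨hdeg, d_uM hB _, gV_smooth hB (Deg_psu hB hdeg), JV_eq hB (Deg_psu hB hdeg), fun f => ?_⟩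
  -- a frame at the base point
  obtain ⟨v, hv⟩ : ∃ v : Eu n, ‖v‖ = 1 := ⟨EuclideanSpace.single ⟨0, by omega⟩ 1, by simp⟩
  obtain ⟨Q, hQ⟩ : ∃ Q : (spG 𝒜).Plot 0, Q.1 0 = gvg 𝒜 hB p v hv :=
    ⟨⟨fun _ => gvg 𝒜 hB p v hv, ⟨sm_const _, sm_const _⟩⟩, rfl⟩
  obtain ⟨h, R, hh, hR⟩ := LLift_f0V (𝒜 := 𝒜) hB hk 0 Q 0
  have h1 : ((R.1 0).1.1 0) = gvg 𝒜 hB p v hv := by
    have h2 : (f0V 𝒜 3).1 (R.1 0) = Q.1 (h 0) := congrFun (congrArg Subtype.val hR) 0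
    rw [Subsingleton.elim (h 0) 0, hQ] at h2
    exact h2
  rw [abs_gV_con (by omega) hB hk (by norm_num) (LLift_f0V hB hk) (d_uM hB _) hdeg f (R.1 0)]
  refine abs_gV_base hB hk ho (R.1 0) ?_
  rw [h1]
  exact (gvg_vel 𝒜 hB p v hv).1

end Pool.Agent.Lib.MP_ccbbf6_gt.L5
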