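import Pool.Agent.Lib.MP_ccbbf6_gt.L5.EGD
import Pool.Agent.Lib.MP_ccbbf6_gt.L5.EGS
import Pool.Agent.Lib.MP_ccbbf6_gt.L5.UORapi

/-!
# Level 5, UOR15: the closed form `u` of degree `κ + 1` for all odd `κ = 2 l + 1` (helper56, after helper2's UOR12, UOR13, UORapi)

`exists_UDG` : the form `u` and the orientation function; `psPG`, `wPG`, `angDG`, `nrm_psPG` : the angular data.
-/

set_option autoImplicit false
set_option linter.unusedSectionVars false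
set_option linter.unusedVariables false

open Set Filter Topology Metric Real Module
open scoped ContDiff RealInnerProductSpace

noncomputable section

namespace Pool.Agent.Lib.MP_ccbbf6_gt.L5

open Geo L4 L4.FR L4.ORI

variable {n l : ℕ} {M : Type} [MetricSpace M] [CompactSpace M] {𝒜 : SDist n M}

/-- the angular form of the planes at `p` -/
def psPG (hB : Bl M) (hk : 𝒜.HK (2 * l + 1)) {p : M}
    {o : Eu n → EuclideanSpace ℝ (Fin (2 * l + 1 + 1) → Fin n)} (ho : OrP 𝒜 (2 * l + 1) p o) : Om (spR n) :=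
  psiG (n := l) (FO (spR n)) (PR hB hk p) (oRn ho) (aR n)

/-- the Euler form of the planes at `p`, on `M - p` -/
def wPG (hB : Bl M) (hk : 𝒜.HK (2 * l + 1)) {p : M}
    {o : Eu n → EuclideanSpace ℝ (Fin (2 * l + 1 + 1) → Fin n)} (ho : OrP 𝒜 (2 * l + 1) p o) : Om (spP 𝒜 p) :=
  eulG (m := l + 1) (FO (spP 𝒜 p)) (PX hB hk p) (oX hB hk ho)

theorem d_psPG (hB : Bl M) (hk : 𝒜.HK (2 * l + 1)) {p : M}
    {o : Eu n → EuclideanSpace ℝ (Fin (2 * l + 1 + 1) → Fin n)} (ho : OrP 𝒜 (2 * l + 1) p o) :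
    dO _ (psPG hB hk ho) = eulG (m := l + 1) (FO (spR n)) (PR hB hk p) (oRn ho) :=
  d_psiG (n := l) (G := GO (spR n)) (φ := FO (spR n)) (Or_PR hB hk ho) (Sec_PR hB hk p)

/-- **the angular data exist** -/
theorem angDG (hB : Bl M) (hk : 𝒜.HK (2 * l + 1)) {p : M}
    {o : Eu n → EuclideanSpace ℝ (Fin (2 * l + 1 + 1) → Fin n)} (ho : OrP 𝒜 (2 * l + 1) p o) :
    AngD 𝒜 (2 * l + 1) p (psPG hB hk ho) (wPG hB hk ho) where
  degψ := EGD.Deg_psiG (n := l) (PR hB hk p) (oRn ho) (aR n)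
  degw := EGD.Deg_eulG (m := l + 1) (PX hB hk p) (oX hB hk ho)
  closed := d_eulG (m := l + 1) (G := GO (spP 𝒜 p)) (φ := FO (spP 𝒜 p)) (Or_PX hB hk ho)
  comp := fun k P q h => by
    rw [d_psPG hB hk ho, ← on_plM P, ← on_plM q]
    congr 1
    have h2 := FHom.eulG (m := l + 1) (FHom.pull (plM P)) (P := PX hB hk p) (oX hB hk ho)
    have h3 := FHom.eulG (m := l + 1) (FHom.pull (plM q)) (P := PR hB hk p) (oRn ho)
    refine h2.trans (Eq.trans ?_ h3.symm)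
    have h4 : (PX hB hk p).map (FHom.pull (plM P)).g = (PR hB hk p).map (FHom.pull (plM q)).g := by
      ext i j z
      show ent (prX 𝒜 p (P.1 z).1) i j = ent ((𝒜.PV p (q.1 z).1).starProjection) i j
      rw [prX_eq hB (P.1 z).2 (q.1 z).2 (h z)]
    have h5 : (fun I => (FHom.pull (plM P)).g (oX hB hk ho I)) = fun I => (FHom.pull (plM q)).g (oRn ho I) := by
      funext I
      refine Subtype.ext (funext fun z => ?_)
      exact oX_eq hB hk ho (P.1 z) (q.1 z).2 (h z) I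
    rw [h4]
    exact congrArg (fun w => eulG (m := l + 1) (FO _) ((PR hB hk p).map (FHom.pull (plM q)).g) w) h5

/-- the angular form is homogeneous -/
theorem nrm_psPG (hB : Bl M) (hk : 𝒜.HK (2 * l + 1)) {p : M}
    {o : Eu n → EuclideanSpace ℝ (Fin (2 * l + 1 + 1) → Fin n)} (ho : OrP 𝒜 (2 * l + 1) p o) :
    (nrmR n).pull (psPG hB hk ho) = psPG hB hk ho := by
  have h1 := FHom.psiG (n := l) (FHom.pull (nrmR n)) (P := PR hB hk p) (o := oRn ho) (y := aR n)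
  refine Eq.trans h1 ?_
  have hsame : ∀ x : (spR n).pt, 𝒜.Ex p (rad π ((nrmR n).1 x).1) = 𝒜.Ex p (rad π x.1) := by
    intro x
    congr 1
    show rad π (‖x.1‖⁻¹ • x.1) = rad π x.1
    unfold rad
    rw [normv x.2, div_one, smul_smul, div_eq_mul_inv]
  have h2 : (PR hB hk p).map (FHom.pull (nrmR n)).g = PR hB hk p := by
    ext i j x
    show ent ((𝒜.PV p ((nrmR n).1 x).1).starProjection) i j = ent ((𝒜.PV p x.1).starProjection) i j
    rw [prX_same hB p x.1 ((nrmR n).1 x).1 x.2 ((nrmR n).1 x).2 (hsame x)]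
  have h3 : (fun I => (FHom.pull (nrmR n)).g (oRn ho I)) = oRn ho := by
    funext I
    refine Subtype.ext (funext fun x => ?_)
    show o ((nrmR n).1 x).1 I = o x.1 I
    rw [ho.same x.1 ((nrmR n).1 x).1 x.2 ((nrmR n).1 x).2 (hsame x)]
  have h4 : (fun j => (FHom.pull (nrmR n)).g (aR n j)) = aR n := by
    funext j
    refine Subtype.ext (funext fun x => ?_)
    show (‖(‖x.1‖⁻¹ • x.1 : Eu n)‖⁻¹ • (‖x.1‖⁻¹ • x.1 : Eu n)) j = (‖x.1‖⁻¹ • x.1) j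
    rw [normv x.2, inv_one, one_smul]
  have h5 : ∀ (P1 P2 : Matrix (Fin n) (Fin n) (SF (spR n))) (o1 o2 : (Fin (2 * (l + 1)) → Fin n) → SF (spR n))
      (y1 y2 : Fin n → SF (spR n)), P1 = P2 → o1 = o2 → y1 = y2 →
      psiG (n := l) (FO (spR n)) P1 o1 y1 = psiG (n := l) (FO (spR n)) P2 o2 y2 := by
    rintro P1 _ o1 _ y1 _ rfl rfl rfl
    rfl
  exact h5 _ _ _ _ _ _ h2 h3 h4

/-- **the value at a frame at the base point** -/
theorem abs_gV_baseG (hB : Bl M) (hk : 𝒜.HK (2 * l + 1)) {p : M}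
    {o : Eu n → EuclideanSpace ℝ (Fin (2 * l + 1 + 1) → Fin n)} (ho : OrP 𝒜 (2 * l + 1) p o)
    (f : (spVF 𝒜 (2 * l + 1)).pt) (hf : (f.1.1 0).1 0 = p) :
    |gV 𝒜 hB (2 * l + 1) (psu hB (uM hB (angDG hB hk ho))) f| = 1 := by
  obtain ⟨a, ha⟩ : ∃ a : Fin (2 * l + 1 + 1) → Fin n → ℝ, a = fun j l => 𝒜.vel (f.1.1 j).1 0 l := ⟨_, rfl⟩
  obtain ⟨v, hv⟩ : ∃ v, v = 𝒜.vel (f.1.1 0).1 0 := ⟨_, rfl⟩
  have hv0 : v ≠ 0 := by rw [hv]; exact vel_ne 𝒜 _
  have hfr : IsFr (𝒜.PV p v) fun i => 𝒜.vel (f.1.1 i).1 0 := by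
    have h1 := isFr_vel hB hk f
    rw [hf, ← hv] at h1
    exact h1
  have hon : ∀ i j, ∑ x, a i x * a j x = if i = j then (1 : ℝ) else 0 := by
    rw [ha]
    exact hfr.sum_mul
  have hEx : ∀ {ξ : V (2 * l + 1 + 1)}, ξ ≠ 0 → 𝒜.Ex p (rad π (vcF 𝒜 f.1.1 ξ)) = 𝒜.Ex p (rad π v) := fun hξ => by
    rw [hv]
    exact Ex_vcF hB f hf hξ
  -- the sign
  obtain ⟨s, hs, hos⟩ : ∃ s : ℝ, |s| = 1 ∧ ∀ I, o v I = s * dtn a I := by
    rcases (hfr.isOr).pm (ho.isOr v hv0) with h1 | h1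
    · refine ⟨1, abs_one, fun I => ?_⟩
      rw [h1, one_mul, ha]
      rfl
    · refine ⟨-1, by rw [abs_neg, abs_one], fun I => ?_⟩
      rw [h1, neg_one_mul, ha]
      rfl
  have hdeg : Deg (2 * l + 1) (psu hB (uM hB (angDG hB hk ho))) := Deg_psu hB (Deg_uM hB _)
  have h1 := gV_eq hB hdeg f
  rw [dirV_ER hB f hf, pull_comp, ER_psu hB (angDG hB hk ho) (nrm_psPG hB hk ho)] at h1
  have h2 := FHom.psiG (n := l) (FHom.pull (vR f)) (P := PR hB hk p) (o := oRn ho) (y := aR n)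
  have h3 : (vR f).pull (psPG hB hk ho) = psiG (n := l) (FO ((spV 0).xP (2 * (l + 1)))) (PC (spV 0) a)
      (fun I => algebraMap ℝ _ (s * dtn a I)) (YSF (spV 0) a) := by
    refine Eq.trans h2 ?_
    have e1 : (PR hB hk p).map (FHom.pull (vR f)).g = PC (spV 0) a := by
      ext i j z
      show ent ((𝒜.PV p (vcF 𝒜 f.1.1 z.1.2)).starProjection) i j = ∑ k, a k i * a k j
      rw [prX_same hB p v (vcF 𝒜 f.1.1 z.1.2) hv0 (vcF_ne f.1.2 z.2) (hEx z.2), hfr.proj, ha]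
    have e2 : (fun I => (FHom.pull (vR f)).g (oRn ho I)) =
        fun I => algebraMap ℝ (SF ((spV 0).xP (2 * l + 1 + 1))) (s * dtn a I) := by
      funext I
      refine Subtype.ext (funext fun z => ?_)
      show o (vcF 𝒜 f.1.1 z.1.2) I = s * dtn a I
      rw [ho.same v (vcF 𝒜 f.1.1 z.1.2) hv0 (vcF_ne f.1.2 z.2) (hEx z.2), hos]
    have e3 : (fun l => (FHom.pull (vR f)).g (aR n l)) = YSF (spV 0) a := by
      funext m
      refine Subtype.ext (funext fun z => ?_)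
      show (‖vcF 𝒜 f.1.1 z.1.2‖⁻¹ • vcF 𝒜 f.1.1 z.1.2) m = (YSF (spV 0) a m).1 z
      have e4 : (YSF (spV 0) a m).1 z = ∑ j, a j m * hat z.1.2 j := by
        have e5 : vl z (YSF (spV 0) a m) = ∑ j, a j m * hat z.1.2 j := by
          unfold YSF
          rw [map_sum]
          exact Finset.sum_congr rfl fun j _ => by rw [map_smul]; rfl
        exact e5
      rw [e4, norm_vcF f.1.2, WithLp.ofLp_smul, Pi.smul_apply, smul_eq_mul]
      unfold vcF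
      rw [WithLp.ofLp_sum, Finset.sum_apply, Finset.mul_sum, ha]
      refine Finset.sum_congr rfl fun j _ => ?_
      rw [WithLp.ofLp_smul, Pi.smul_apply, smul_eq_mul]
      show ‖toE z.1.2‖⁻¹ * (z.1.2 j * _) = _ * (‖toE z.1.2‖⁻¹ * z.1.2 j)
      ring
    have e6 : ∀ (P1 P2 : Matrix (Fin n) (Fin n) (SF ((spV 0).xP (2 * (l + 1)))))
        (o1 o2 : (Fin (2 * (l + 1)) → Fin n) → SF ((spV 0).xP (2 * (l + 1))))
        (y1 y2 : Fin n → SF ((spV 0).xP (2 * (l + 1)))), P1 = P2 → o1 = o2 → y1 = y2 →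
        psiG (n := l) (FO ((spV 0).xP (2 * (l + 1)))) P1 o1 y1 =
          psiG (n := l) (FO ((spV 0).xP (2 * (l + 1)))) P2 o2 y2 := by
      rintro P1 _ o1 _ y1 _ rfl rfl rfl
      rfl
    exact e6 _ _ _ _ _ _ e1 e2 e3
  have h31 : SI (2 * l + 1 + 1) (spV 0) ((vR f).pull (psPG hB hk ho)) =
      algebraMap ℝ (Om (spV 0)) ((-1) ^ (l + 1) * s) := by
    rw [h3]
    exact SI_psiG_PC (n := l) (X := spV 0) (a := a) hon s
  rw [h31] at h1
  have h4 : gV 𝒜 hB (2 * l + 1) (psu hB (uM hB (angDG hB hk ho))) f = (-1) ^ (l + 1) * s := by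
    have h5 : val (algebraMap ℝ (Om (spV 0)) ((-1) ^ (l + 1) * s)) (idP 0) =
        val (algebraMap ℝ (Om (spV 0)) (gV 𝒜 hB (2 * l + 1) (psu hB (uM hB (angDG hB hk ho))) f)) (idP 0) := by rw [h1]
    have h6 : ∀ r : ℝ, val (algebraMap ℝ (Om (spV 0)) r) (idP 0) = r := by
      intro r
      unfold val
      have h7 : Om.on (algebraMap ℝ (Om (spV 0)) r) (idP 0) = algebraMap ℝ (Fm 0) r := rfl
      rw [h7, ← (fc 0).commutes, fn_fc]
      rfl
    rw [h6, h6] at h5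
    exact h5.symm
  rw [h4, abs_mul, hs, abs_pow, abs_neg, abs_one, one_pow, one_mul]

/-- **existence**, all odd `κ` -/
theorem exists_UDG (hn : 3 ≤ n) (hB : Bl M) (hk : 𝒜.HK (2 * l + 1)) (p : M) :
    ∃ (o : Eu n → EuclideanSpace ℝ (Fin (2 * l + 1 + 1) → Fin n)) (ho : OrP 𝒜 (2 * l + 1) p o)
      (g : (spVF 𝒜 (2 * l + 1)).pt → ℝ), (nrmR n).pull (psPG hB hk ho) = psPG hB hk ho ∧
        UD 𝒜 hB (2 * l + 1) (uM hB (angDG hB hk ho)) g := by
  obtain ⟨o, ho⟩ := exists_orP (𝒜 := 𝒜) hn hB (κ := 2 * l + 1) (by omega) hk p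
  refine ⟨o, ho, gV 𝒜 hB (2 * l + 1) (psu hB (uM hB (angDG hB hk ho))), nrm_psPG hB hk ho, ?_⟩
  have hdeg : Deg (2 * l + 1 + 1) (uM hB (angDG hB hk ho)) := Deg_uM hB _
  refine ⟨hdeg, d_uM hB _, gV_smooth hB (Deg_psu hB hdeg), JV_eq hB (Deg_psu hB hdeg), fun f => ?_⟩
  -- a frame at the base point
  obtain ⟨v, hv⟩ : ∃ v : Eu n, ‖v‖ = 1 := ⟨EuclideanSpace.single ⟨0, by omega⟩ 1, by simp⟩
  obtain ⟨Q, hQ⟩ : ∃ Q : (spG 𝒜).Plot 0, Q.1 0 = gvg 𝒜 hB p v hv :=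
    ⟨⟨fun _ => gvg 𝒜 hB p v hv, ⟨sm_const _, sm_const _⟩⟩, rfl⟩
  obtain ⟨h, R, hh, hR⟩ := LLift_f0V (𝒜 := 𝒜) hB hk 0 Q 0
  have h1 : ((R.1 0).1.1 0) = gvg 𝒜 hB p v hv := by
    have h2 : (f0V 𝒜 (2 * l + 1)).1 (R.1 0) = Q.1 (h 0) := congrFun (congrArg Subtype.val hR) 0
    rw [Subsingleton.elim (h 0) 0, hQ] at h2
    exact h2
  rw [abs_gV_con (by omega) hB hk (by omega) (LLift_f0V hB hk) (d_uM hB _) hdeg f (R.1 0)]
  refine abs_gV_baseG hB hk ho (R.1 0) ?_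
  rw [h1]
  exact (gvg_vel 𝒜 hB p v hv).1

end Pool.Agent.Lib.MP_ccbbf6_gt.L5
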