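import Pool.Agent.Lib.MP_ccbbf6_gt.ML

/-!
# Level 5, block 3PT 1: the algebra of the three point formula (helper56)

`gser b : ℕ → ℝ⟦X⟧`, `∑ gser b k u^k = 1 / (1 + b (t + u) + (t - u)^2)` (`t = X`).
`casoratian`: with `a_k = t g_k - g_(k-1)`: `A^(k+2) (a_k^2 - a_(k+1) a_(k-1)) = 1 + 2 b t`, `A = 1 + b t + t^2`.
`three_point`: if `[t^(m-a)] P (a_(m-1)^2 - a_m a_(m-2)) = 0` for `a < m` then `P (1 + 2 b t) = A^(m+1)` up to degree `m`.
-/

set_option autoImplicit false

open PowerSeries Finset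

noncomputable section

namespace Pool.Agent.Lib.MP_ccbbf6_gt.L5

/-- `A = 1 + b t + t ^ 2` -/
def Aser (b : ℝ) : PowerSeries ℝ := 1 + C b * X + X ^ 2

/-- `B = b - 2 t` -/
def Bser (b : ℝ) : PowerSeries ℝ := C b - 2 * X

lemma Aser_const (b : ℝ) : constantCoeff (Aser b) = 1 := by
  unfold Aser
  simp

/-- inverse of `A` -/
def Ainv (b : ℝ) : PowerSeries ℝ := (Aser b)⁻¹

lemma A_mul_inv (b : ℝ) : Aser b * Ainv b = 1 := PowerSeries.mul_inv_cancel _ (by rw [Aser_const]; exact one_ne_zero)

/-- coefficients of `1 / (A + B u + u ^ 2)` -/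
def gser (b : ℝ) : ℕ → PowerSeries ℝ
  | 0 => Ainv b
  | 1 => -(Bser b * Ainv b * Ainv b)
  | (k + 2) => -(Ainv b * (Bser b * gser b (k + 1) + gser b k))

lemma gser_zero (b : ℝ) : Aser b * gser b 0 = 1 := A_mul_inv b

lemma gser_one (b : ℝ) : Aser b * gser b 1 + Bser b * gser b 0 = 0 := by
  have h := A_mul_inv b
  change Aser b * (-(Bser b * Ainv b * Ainv b)) + Bser b * Ainv b = 0
  linear_combination (-(Bser b * Ainv b)) * h

lemma gser_succ (b : ℝ) (k : ℕ) : Aser b * gser b (k + 2) + Bser b * gser b (k + 1) + gser b k = 0 := by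
  have h := A_mul_inv b
  change Aser b * (-(Ainv b * (Bser b * gser b (k + 1) + gser b k))) + Bser b * gser b (k + 1) + gser b k = 0
  linear_combination (-(Bser b * gser b (k + 1) + gser b k)) * h

/-- `a_k = t g_k - g_(k-1)` -/
def aser (b : ℝ) : ℕ → PowerSeries ℝ
  | 0 => X * gser b 0
  | (k + 1) => X * gser b (k + 1) - gser b k

lemma aser_zero (b : ℝ) : Aser b * aser b 0 = X := by
  change Aser b * (X * gser b 0) = X
  linear_combination X * gser_zero b

lemma aser_one (b : ℝ) : Aser b * aser b 1 + Bser b * aser b 0 = -1 := by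
  change Aser b * (X * gser b 1 - gser b 0) + Bser b * (X * gser b 0) = -1
  linear_combination X * gser_one b - gser_zero b

lemma aser_succ (b : ℝ) (k : ℕ) : Aser b * aser b (k + 2) + Bser b * aser b (k + 1) + aser b k = 0 := by
  cases k with
  | zero =>
    change Aser b * (X * gser b 2 - gser b 1) + Bser b * (X * gser b 1 - gser b 0) + X * gser b 0 = 0
    linear_combination X * gser_succ b 0 - gser_one b
  | succ k =>
    change Aser b * (X * gser b (k + 3) - gser b (k + 2)) + Bser b * (X * gser b (k + 2) - gser b (k + 1)) +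
      (X * gser b (k + 1) - gser b k) = 0
    linear_combination X * gser_succ b (k + 1) - gser_succ b k

/-- the Casoratian -/
def Wser (b : ℝ) (k : ℕ) : PowerSeries ℝ := aser b (k + 1) ^ 2 - aser b (k + 2) * aser b k

lemma Wser_zero (b : ℝ) : Aser b ^ 3 * Wser b 0 = 1 + 2 * C b * X := by
  have h0 := aser_zero b
  have h1 := aser_one b
  have h2 := aser_succ b 0
  rw [zero_add] at h2
  have e : Aser b ^ 3 * Wser b 0 = Aser b ^ 2 * (Aser b * aser b 1 ^ 2 - (Aser b * aser b 2) * aser b 0) := by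
    unfold Wser
    ring
  have e2 : Aser b * aser b 2 = -(Bser b * aser b 1 + aser b 0) := by linear_combination h2
  rw [e, e2]
  have e3 : Aser b * aser b 1 ^ 2 - -(Bser b * aser b 1 + aser b 0) * aser b 0 = -aser b 1 + aser b 0 ^ 2 := by
    linear_combination aser b 1 * h1
  rw [e3]
  have e4 : Aser b ^ 2 * (-aser b 1 + aser b 0 ^ 2) =
      -(Aser b * (Aser b * aser b 1)) + (Aser b * aser b 0) ^ 2 := by ring
  have e5 : Aser b * aser b 1 = -1 - Bser b * aser b 0 := by linear_combination h1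
  have e6 : Aser b * (-1 - Bser b * aser b 0) = -Aser b - Bser b * X := by linear_combination (-Bser b) * h0
  rw [e4, e5, e6, h0]
  unfold Aser Bser
  ring

lemma Wser_succ (b : ℝ) (k : ℕ) : Aser b * Wser b (k + 1) = Wser b k := by
  have h1 := aser_succ b k
  have h2 := aser_succ b (k + 1)
  unfold Wser
  linear_combination (-aser b (k + 1)) * h2 + aser b (k + 2) * h1

/-- **the Casoratian** -/
theorem casoratian (b : ℝ) (k : ℕ) : Aser b ^ (k + 3) * Wser b k = 1 + 2 * C b * X := by
  induction k with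
  | zero => exact Wser_zero b
  | succ k ih =>
    have e : Aser b ^ (k + 1 + 3) * Wser b (k + 1) = Aser b ^ (k + 3) * (Aser b * Wser b (k + 1)) := by ring
    rw [e, Wser_succ, ih]

/-- **Three point formula, algebra.** `m = k + 2`. -/
theorem three_point {b : ℝ} {k : ℕ} {P : PowerSeries ℝ} (h0 : constantCoeff P = 1)
    (h : ∀ j, 1 ≤ j → j ≤ k + 2 → coeff j (P * Wser b k) = 0) (j : ℕ) (hj : j ≤ k + 2) :
    coeff j (P * (1 + 2 * C b * X)) = coeff j (Aser b ^ (k + 3)) := by
  have hW : constantCoeff (Wser b k) = 1 := by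
    have h1 := congrArg constantCoeff (casoratian b k)
    rw [map_mul, map_pow, Aser_const, one_pow, one_mul] at h1
    rw [h1]
    simp
  have h1 : ∀ i ≤ k + 2, coeff i (P * Wser b k) = coeff i (1 : PowerSeries ℝ) := by
    intro i hi
    rcases Nat.eq_zero_or_pos i with h2 | h2
    · subst h2
      rw [coeff_zero_eq_constantCoeff_apply, coeff_zero_eq_constantCoeff_apply, map_mul, h0, hW]
      simp
    · rw [h i h2 hi, coeff_one, if_neg (by omega)]
  have e : P * (1 + 2 * C b * X) = Aser b ^ (k + 3) * (P * Wser b k) := by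
    rw [← casoratian b k]
    ring
  rw [e, coeff_mul]
  have e2 : coeff j (Aser b ^ (k + 3)) = coeff j (Aser b ^ (k + 3) * 1) := by rw [mul_one]
  rw [e2, coeff_mul]
  refine sum_congr rfl fun p hp => ?_
  rw [h1 p.2]
  have := mem_antidiagonal.1 hp
  omega

end Pool.Agent.Lib.MP_ccbbf6_gt.L5
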