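import Pool.Agent.Lib.MP_ccbbf6_gt.ML

/-!
# Level 5, NW: elementary symmetric functions from power sums, Newton identities for matrices (helper13)
-/

set_option autoImplicit false
set_option linter.unusedSectionVars false

noncomputable section

namespace Pool.Agent.Lib.MP_ccbbf6_gt.L5

open Finset PowerSeries

variable {A : Type*} [CommRing A] [Algebra ℝ A] {A' : Type*} [CommRing A'] [Algebra ℝ A']

/-- the elementary symmetric functions as functions of the power sums `p 1, p 2, ...` -/
def elc (p : ℕ → A) : ℕ → A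
  | 0 => 1
  | n + 1 => ((n : ℝ) + 1)⁻¹ • ∑ k : Fin (n + 1), (-1) ^ (k : ℕ) * (elc p (n - k) * p (k + 1))

theorem elc_zero (p : ℕ → A) : elc p 0 = 1 := by rw [elc]

theorem elc_succ (p : ℕ → A) (n : ℕ) :
    elc p (n + 1) = ((n : ℝ) + 1)⁻¹ • ∑ k ∈ range (n + 1), (-1) ^ k * (elc p (n - k) * p (k + 1)) := by
  rw [elc, Finset.sum_range]

theorem elc_one (p : ℕ → A) : elc p 1 = p 1 := by
  rw [elc_succ]
  simp [elc_zero]

/-- the generating function of the power sums -/
def PS (p : ℕ → A) : A⟦X⟧ := PowerSeries.mk fun k => (-1) ^ k * p (k + 1)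

/-- the generating function of the elementary symmetric functions -/
def EL (p : ℕ → A) : A⟦X⟧ := PowerSeries.mk (elc p)

theorem smul_cast (n : ℕ) (a : A) : ((n : ℝ) + 1) • a = a * ((n : A) + 1) := by
  have h : ((n : ℝ) + 1) • a = (n + 1 : ℕ) • a := by
    rw [← Nat.cast_smul_eq_nsmul ℝ]
    push_cast
    rfl
  rw [h, nsmul_eq_mul, mul_comm]
  push_cast
  rfl

theorem EL_ode (p : ℕ → A) : PowerSeries.derivative A (EL p) = EL p * PS p := by
  ext n
  rw [PowerSeries.coeff_derivative, PowerSeries.coeff_mul]
  unfold EL PS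
  simp only [PowerSeries.coeff_mk]
  rw [elc_succ, ← smul_cast, smul_smul, mul_inv_cancel₀ (by positivity), one_smul,
    Finset.Nat.sum_antidiagonal_eq_sum_range_succ (fun i j => elc p i * ((-1) ^ j * p (j + 1))) n,
    ← Finset.sum_range_reflect]
  refine Finset.sum_congr rfl fun k hk => ?_
  have hk' : k ≤ n := by
    have := Finset.mem_range.1 hk
    omega
  have e1 : n + 1 - 1 - k = n - k := by omega
  rw [e1, Nat.sub_sub_self hk']
  ring

theorem EL_zero (p : ℕ → A) : PowerSeries.constantCoeff (EL p) = 1 := by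
  rw [← PowerSeries.coeff_zero_eq_constantCoeff_apply]
  unfold EL
  rw [PowerSeries.coeff_mk, elc_zero]

/-- uniqueness for the linear equation -/
theorem ode_unique {f g q : A⟦X⟧} (hf : PowerSeries.derivative A f = f * q) (hg : PowerSeries.derivative A g = g * q)
    (h0 : PowerSeries.constantCoeff f = PowerSeries.constantCoeff g) : f = g := by
  have key : ∀ n, ∀ m ≤ n, PowerSeries.coeff m f = PowerSeries.coeff m g := by
    intro n
    induction n with
    | zero =>
      intro m hm
      obtain rfl : m = 0 := by omega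
      rw [PowerSeries.coeff_zero_eq_constantCoeff_apply, PowerSeries.coeff_zero_eq_constantCoeff_apply, h0]
    | succ n ih =>
      intro m hm
      rcases Nat.lt_or_ge m (n + 1) with h | h
      · exact ih m (by omega)
      · obtain rfl : m = n + 1 := by omega
        have h1 := congrArg (PowerSeries.coeff n) hf
        have h2 := congrArg (PowerSeries.coeff n) hg
        rw [PowerSeries.coeff_derivative, PowerSeries.coeff_mul] at h1 h2
        have h3 : ∑ x ∈ antidiagonal n, PowerSeries.coeff x.1 f * PowerSeries.coeff x.2 q =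
            ∑ x ∈ antidiagonal n, PowerSeries.coeff x.1 g * PowerSeries.coeff x.2 q := by
          refine Finset.sum_congr rfl fun x hx => ?_
          rw [ih x.1 (by have := HasAntidiagonal.mem_antidiagonal.1 hx; omega)]
        rw [h3, ← h2, ← smul_cast, ← smul_cast] at h1
        have h4 := congrArg (fun z => ((n : ℝ) + 1)⁻¹ • z) h1
        simp only [smul_smul] at h4
        rwa [inv_mul_cancel₀ (by positivity), one_smul, one_smul] at h4
  ext n
  exact key n n le_rfl

/-- Whitney formula -/
theorem EL_add (p q : ℕ → A) : EL (fun k => p k + q k) = EL p * EL q := by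
  refine ode_unique (q := PS p + PS q) ?_ ?_ ?_
  · rw [EL_ode]
    congr 1
    ext n
    unfold PS
    rw [map_add]
    simp only [PowerSeries.coeff_mk]
    ring
  · rw [Derivation.leibniz, EL_ode, EL_ode, smul_eq_mul, smul_eq_mul]
    ring
  · rw [EL_zero, map_mul, EL_zero, EL_zero, one_mul]

theorem elc_add (p q : ℕ → A) (n : ℕ) :
    elc (fun k => p k + q k) n = ∑ x ∈ antidiagonal n, elc p x.1 * elc q x.2 := by
  have h := congrArg (PowerSeries.coeff n) (EL_add p q)
  rw [PowerSeries.coeff_mul] at h
  unfold EL at h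
  simpa only [PowerSeries.coeff_mk] using h

/-- only the power sums of positive degree matter -/
theorem elc_congr {p q : ℕ → A} (h : ∀ k, p (k + 1) = q (k + 1)) (n : ℕ) : elc p n = elc q n := by
  induction n using Nat.strong_induction_on with
  | _ n ih =>
    rcases n with _ | n
    · rw [elc_zero, elc_zero]
    · rw [elc_succ, elc_succ]
      congr 1
      refine Finset.sum_congr rfl fun k hk => ?_
      rw [h, ih (n - k) (by omega)]

/-- naturality -/
theorem map_elc (f : A →ₐ[ℝ] A') (p : ℕ → A) (n : ℕ) : f (elc p n) = elc (fun k => f (p k)) n := by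
  induction n using Nat.strong_induction_on with
  | _ n ih =>
    rcases n with _ | n
    · rw [elc_zero, elc_zero, map_one]
    · rw [elc_succ, elc_succ, map_smul, map_sum]
      congr 1
      refine Finset.sum_congr rfl fun k hk => ?_
      rw [map_mul, map_mul, map_pow, map_neg, map_one, ih (n - k) (by omega)]

/-- homogeneity -/
theorem elc_homog (a : A) (p : ℕ → A) (n : ℕ) : elc (fun k => a ^ k * p k) n = a ^ n * elc p n := by
  induction n using Nat.strong_induction_on with
  | _ n ih =>
    rcases n with _ | n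
    · rw [elc_zero, elc_zero, pow_zero, one_mul]
    · rw [elc_succ, elc_succ, mul_smul_comm, Finset.mul_sum]
      congr 1
      refine Finset.sum_congr rfl fun k hk => ?_
      have hk' : k ≤ n := by
        have := Finset.mem_range.1 hk
        omega
      rw [ih (n - k) (by omega)]
      have e1 : a ^ (n + 1) = a ^ (n - k) * a ^ (k + 1) := by
        rw [← pow_add]
        congr 1
        omega
      rw [e1]
      ring

theorem elc_single (a : A) (n : ℕ) : elc (fun k => a ^ k) (n + 2) = 0 := by
  have h : EL (fun k => a ^ k) = 1 + PowerSeries.C a * X := by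
    refine ode_unique (q := PS fun k => a ^ k) (EL_ode _) ?_ ?_
    · ext n
      rw [PowerSeries.coeff_derivative, add_mul, one_mul, map_add, map_add, mul_assoc,
        PowerSeries.coeff_C_mul, PowerSeries.coeff_C_mul]
      unfold PS
      rcases n with _ | n
      · simp
      · rw [PowerSeries.coeff_succ_X_mul]
        simp only [PowerSeries.coeff_mk]
        rw [PowerSeries.coeff_X, PowerSeries.coeff_one]
        simp
        ring_nf
    · rw [EL_zero]
      simp
  have h2 := congrArg (PowerSeries.coeff (n + 2)) h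
  unfold EL at h2
  rw [PowerSeries.coeff_mk] at h2
  rw [h2, map_add, PowerSeries.coeff_C_mul, PowerSeries.coeff_X, PowerSeries.coeff_one]
  simp

/-! ### matrices -/

section matrix

variable {n : Type*} [Fintype n] [DecidableEq n] (F : Matrix n n A)

open Matrix

/-- `det (1 + t F)` -/
def dF : Polynomial A := det (1 + (Polynomial.X : Polynomial A) • F.map Polynomial.C)

theorem natDegree_dF : (dF F).natDegree ≤ Fintype.card n := by
  have h := Polynomial.natDegree_det_X_add_C_le F (1 : Matrix n n A)
  unfold dF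
  rw [add_comm]
  convert h using 4
  exact (Matrix.map_one _ Polynomial.C_0 Polynomial.C_1).symm

/-- the inverse of `1 + X F` -/
def NI : Matrix n n A⟦X⟧ := fun i j => PowerSeries.mk fun k => (-1) ^ k * (F ^ k) i j

theorem NI_mul : (1 + (X : A⟦X⟧) • F.map (PowerSeries.C (R := A))) * NI F = 1 := by
  rw [Matrix.add_mul, Matrix.one_mul, Matrix.smul_mul]
  ext i j m
  rw [Matrix.add_apply, Matrix.smul_apply, smul_eq_mul, map_add, Matrix.mul_apply]
  have h1 : PowerSeries.coeff m (NI F i j) = (-1) ^ m * (F ^ m) i j := by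
    unfold NI
    rw [PowerSeries.coeff_mk]
  rw [h1]
  rcases m with _ | m
  · rw [pow_zero, pow_zero, one_mul, PowerSeries.coeff_zero_eq_constantCoeff_apply, map_mul, PowerSeries.constantCoeff_X,
      zero_mul, add_zero, Matrix.one_apply, Matrix.one_apply]
    split_ifs <;> simp
  · rw [PowerSeries.coeff_succ_X_mul, map_sum]
    have h2 : ∀ k, PowerSeries.coeff m ((F.map (PowerSeries.C (R := A))) i k * NI F k j) =
        (-1) ^ m * (F i k * (F ^ m) k j) := by
      intro k
      rw [Matrix.map_apply, PowerSeries.coeff_C_mul]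
      unfold NI
      rw [PowerSeries.coeff_mk]
      ring
    simp only [h2]
    rw [← Finset.mul_sum, ← Matrix.mul_apply, ← pow_succ']
    have h3 : PowerSeries.coeff (m + 1) ((1 : Matrix n n A⟦X⟧) i j) = 0 := by
      rw [Matrix.one_apply]
      split_ifs
      · rw [PowerSeries.coeff_one, if_neg (by omega)]
      · exact map_zero _
    rw [h3, pow_succ]
    ring

theorem mul_trace : trace (NI F * F.map (PowerSeries.C (R := A))) = PS (fun k => trace (F ^ k)) := by
  ext m
  unfold PS Matrix.trace
  rw [PowerSeries.coeff_mk, map_sum, Finset.mul_sum]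
  refine Finset.sum_congr rfl fun i _ => ?_
  rw [Matrix.diag_apply, Matrix.diag_apply, Matrix.mul_apply, map_sum, pow_succ, Matrix.mul_apply, Finset.mul_sum]
  refine Finset.sum_congr rfl fun k _ => ?_
  rw [Matrix.map_apply, PowerSeries.coeff_mul_C]
  unfold NI
  rw [PowerSeries.coeff_mk]
  ring

theorem dF_ode : PowerSeries.derivative A ((dF F : Polynomial A) : A⟦X⟧) =
    ((dF F : Polynomial A) : A⟦X⟧) * PS (fun k => trace (F ^ k)) := by
  -- polynomials over the ring of power series
  obtain ⟨c, hc⟩ : ∃ c : A →+* A⟦X⟧, c = PowerSeries.C (R := A) := ⟨_, rfl⟩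
  obtain ⟨Q, hQ⟩ : ∃ Q : Polynomial A⟦X⟧, Q = (dF F).map c := ⟨_, rfl⟩
  have e1 : ∀ P : Polynomial A, (P.map c).eval (X : A⟦X⟧) = (P : A⟦X⟧) := by
    intro P
    rw [Polynomial.eval_map, hc]
    exact Polynomial.eval₂_C_X_eq_coe
  have hQ1 : Q.eval (X : A⟦X⟧) = (dF F : A⟦X⟧) := by rw [hQ, e1]
  have hQ2 : Q.derivative.eval (X : A⟦X⟧) = PowerSeries.derivative A ((dF F : Polynomial A) : A⟦X⟧) := by
    rw [hQ, Polynomial.derivative_map, e1, PowerSeries.derivative_coe]
  have hQ3 : Q = det (1 + (Polynomial.X : Polynomial A⟦X⟧) • (F.map c).map Polynomial.C) := by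
    rw [hQ]
    unfold dF
    rw [← Polynomial.coe_mapRingHom, RingHom.map_det]
    congr 1
    ext i j : 2
    simp only [RingHom.mapMatrix_apply, Matrix.map_apply, Matrix.add_apply, Matrix.smul_apply, smul_eq_mul, map_add,
      Polynomial.coe_mapRingHom, Polynomial.map_mul, Polynomial.map_X, Polynomial.map_C]
    congr 1
    rw [Matrix.one_apply, Matrix.one_apply]
    split_ifs <;> simp
  rw [← hQ2, ← hQ1, ← mul_trace, ← Polynomial.taylor_coeff_one, ← Polynomial.taylor_coeff_zero]
  have hT : Polynomial.taylor (X : A⟦X⟧) Q = Polynomial.C (det (1 + (X : A⟦X⟧) • F.map c)) *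
      det (1 + (Polynomial.X : Polynomial A⟦X⟧) • (NI F * F.map c).map Polynomial.C) := by
    have e2 : Polynomial.taylor (X : A⟦X⟧) Q = Polynomial.taylorAlgHom (X : A⟦X⟧) Q := rfl
    have e3 : Polynomial.C (det (1 + (X : A⟦X⟧) • F.map c)) =
        det ((Polynomial.C).mapMatrix (1 + (X : A⟦X⟧) • F.map c)) := RingHom.map_det Polynomial.C _
    rw [e2, hQ3, AlgHom.map_det, e3, ← det_mul]
    congr 1
    have e4 : (1 + (X : A⟦X⟧) • F.map c) * NI F = 1 := by rw [hc]; exact NI_mul F
    have e5 : (Polynomial.C).mapMatrix (1 + (X : A⟦X⟧) • F.map c) *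
        (1 + (Polynomial.X : Polynomial A⟦X⟧) • (NI F * F.map c).map Polynomial.C) =
        (Polynomial.C).mapMatrix (1 + (X : A⟦X⟧) • F.map c) +
          (Polynomial.X : Polynomial A⟦X⟧) • (F.map c).map Polynomial.C := by
      rw [Matrix.mul_add, Matrix.mul_one, Matrix.mul_smul]
      congr 2
      have e6 : (NI F * F.map c).map Polynomial.C = (Polynomial.C).mapMatrix (NI F * F.map c) := rfl
      rw [e6, ← map_mul, ← Matrix.mul_assoc, e4, Matrix.one_mul]
      rfl
    rw [e5]
    ext i j : 2
    simp only [RingHom.mapMatrix_apply, AlgHom.mapMatrix_apply, Matrix.map_apply, Matrix.add_apply, Matrix.smul_apply,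
      smul_eq_mul, map_add, map_mul]
    have e7 : (Polynomial.taylorAlgHom (X : A⟦X⟧)) Polynomial.X = Polynomial.X + Polynomial.C (X : A⟦X⟧) :=
      Polynomial.taylor_X _
    have e8 : (Polynomial.taylorAlgHom (X : A⟦X⟧)) (Polynomial.C (c (F i j))) = Polynomial.C (c (F i j)) :=
      Polynomial.taylor_C _ _
    have e9 : (Polynomial.taylorAlgHom (X : A⟦X⟧)) ((1 : Matrix n n (Polynomial A⟦X⟧)) i j) =
        Polynomial.C ((1 : Matrix n n A⟦X⟧) i j) := by
      rw [Matrix.one_apply, Matrix.one_apply]
      split_ifs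
      · rw [map_one, map_one]
      · rw [map_zero, map_zero]
    rw [e7, e8, e9]
    ring
  rw [hT, Polynomial.coeff_C_mul, Polynomial.coeff_C_mul, coeff_det_one_add_X_smul_one, hc]
  congr 1
  rw [Polynomial.coeff_zero_eq_eval_zero, eval_det_add_X_smul]
  simp

/-- Newton identities -/
theorem EL_trace : EL (fun k => trace (F ^ k)) = ((dF F : Polynomial A) : A⟦X⟧) := by
  refine ode_unique (EL_ode _) (dF_ode F) ?_
  rw [EL_zero, ← PowerSeries.coeff_zero_eq_constantCoeff_apply, Polynomial.coeff_coe]
  unfold dF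
  rw [Polynomial.coeff_zero_eq_eval_zero, eval_det_add_X_smul]
  simp

theorem elc_trace {j : ℕ} (hj : Fintype.card n < j) : elc (fun k => trace (F ^ k)) j = 0 := by
  have h := congrArg (PowerSeries.coeff j) (EL_trace F)
  unfold EL at h
  rw [PowerSeries.coeff_mk, Polynomial.coeff_coe] at h
  rw [h]
  exact Polynomial.coeff_eq_zero_of_natDegree_lt (lt_of_le_of_lt (natDegree_dF F) hj)

end matrix

end Pool.Agent.Lib.MP_ccbbf6_gt.L5
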