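import Pool.Agent.Lib.MP_ccbbf6_gt.L5.FRF
import Pool.Agent.Lib.MP_ccbbf6_gt.L5.NW

/-!
# Level 6, RG0: the algebra of the `ρ` side for all `k = 2 h` (helper67)

`GP B D l` : the power sums `P` with `l K_j = l P_j`; `GP_spec`, `mul_elcG`; `IIg` : the coefficient of `e u^(m-1)`.
-/

set_option autoImplicit false
set_option linter.unusedSectionVars false

noncomputable section

open Finset

namespace Pool.Agent.Lib.MP_ccbbf6_gt.L5.FR6

open L4

variable {A : Type*} [CommRing A] [Algebra ℝ A] {A' : Type*} [CommRing A'] [Algebra ℝ A']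

/-- the formal solution -/
def GP (B D : ℕ → A) (l : A) (n : ℕ) : A :=
  (2 * ((n : ℝ) + 1))⁻¹ • (D (n + 1) +
    ∑ a ∈ range (n + 1), ((n + 1).choose (a + 1) : ℝ) • ((-l) ^ a * B (n - a)) -
    ∑ a : Fin n, if Odd (a : ℕ) then (2 * ((n + 1).choose (a + 2) : ℝ)) • (l ^ ((a : ℕ) + 1) * GP B D l (n - 1 - a))
      else 0)
termination_by n
decreasing_by
  have := a.2
  omega

theorem GP_eq (B D : ℕ → A) (l : A) (n : ℕ) : GP B D l n =
    (2 * ((n : ℝ) + 1))⁻¹ • (D (n + 1) +
      ∑ a ∈ range (n + 1), ((n + 1).choose (a + 1) : ℝ) • ((-l) ^ a * B (n - a)) -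
      ∑ a ∈ range n, if Odd a then (2 * ((n + 1).choose (a + 2) : ℝ)) • (l ^ (a + 1) * GP B D l (n - 1 - a))
        else 0) := by
  rw [GP, Finset.sum_range (fun a => if Odd a then (2 * ((n + 1).choose (a + 2) : ℝ)) •
    (l ^ (a + 1) * GP B D l (n - 1 - a)) else 0)]

theorem map_GP (f : A →ₐ[ℝ] A') (B D : ℕ → A) (l : A) (n : ℕ) :
    f (GP B D l n) = GP (fun j => f (B j)) (fun j => f (D j)) (f l) n := by
  induction n using Nat.strong_induction_on with
  | _ n ih =>
    rw [GP_eq, GP_eq, map_smul, map_sub, map_add, map_sum, map_sum]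
    congr 2
    · congr 1
      refine Finset.sum_congr rfl fun a _ => ?_
      rw [map_smul, map_mul, map_pow, map_neg]
    · refine Finset.sum_congr rfl fun a ha => ?_
      have := Finset.mem_range.1 ha
      split_ifs
      · rw [map_smul, map_mul, map_pow, ih (n - 1 - a) (by omega)]
      · exact map_zero f

/-- only finitely many terms matter -/
theorem GP_congr {B B' D D' : ℕ → A} {l : A} (N : ℕ) (hB : ∀ j ≤ N, B j = B' j) (hD : ∀ j ≤ N + 1, D j = D' j) (n : ℕ)
    (hn : n ≤ N) : GP B D l n = GP B' D' l n := by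
  induction n using Nat.strong_induction_on with
  | _ n ih =>
    rw [GP_eq, GP_eq, hD (n + 1) (by omega)]
    congr 2
    · congr 1
      refine Finset.sum_congr rfl fun a _ => ?_
      rw [hB (n - a) (by omega)]
    · refine Finset.sum_congr rfl fun a ha => ?_
      have := Finset.mem_range.1 ha
      rw [ih (n - 1 - a) (by omega) (by omega)]

theorem GP_spec {l : A} {B D K K' : ℕ → A} {N : ℕ} (hK : ∀ j ≤ N, K j + K' j = B j)
    (hL : ∀ j ≤ N, j ≠ 0 → ∑ a ∈ range (j + 1), (j.choose a : ℝ) • (l ^ a * K (j - a)) +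
      ∑ a ∈ range (j + 1), (j.choose a : ℝ) • ((-l) ^ a * K' (j - a)) = B j + l * D j) (n : ℕ) (hn : n + 1 ≤ N) :
    l * K n = l * GP B D l n := by
  induction n using Nat.strong_induction_on with
  | _ n ih =>
    have e1 := hL (n + 1) hn (by omega)
    have hK' : ∀ j ≤ N, K' j = B j - K j := fun j hj => by rw [← hK j hj]; ring
    rw [Finset.sum_range_succ' _ (n + 1), Finset.sum_range_succ' _ (n + 1)] at e1
    have s2 : ∑ a ∈ range (n + 1), ((n + 1).choose (a + 1) : ℝ) • ((-l) ^ (a + 1) * K' (n + 1 - (a + 1))) =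
        ∑ a ∈ range (n + 1), ((n + 1).choose (a + 1) : ℝ) • ((-l) ^ (a + 1) * B (n - a)) -
        ∑ a ∈ range (n + 1), ((n + 1).choose (a + 1) : ℝ) • ((-l) ^ (a + 1) * K (n - a)) := by
      rw [← Finset.sum_sub_distrib]
      refine Finset.sum_congr rfl fun a _ => ?_
      rw [Nat.add_sub_add_right, hK' (n - a) (by omega), mul_sub, smul_sub]
    simp only [Nat.choose_zero_right, Nat.cast_one, one_smul, pow_zero, one_mul, tsub_zero] at e1
    rw [s2, hK' (n + 1) hn] at e1
    have s3 : ∑ a ∈ range (n + 1), ((n + 1).choose (a + 1) : ℝ) • (l ^ (a + 1) * K (n + 1 - (a + 1))) -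
        ∑ a ∈ range (n + 1), ((n + 1).choose (a + 1) : ℝ) • ((-l) ^ (a + 1) * K (n - a)) =
        (2 * ((n : ℝ) + 1)) • (l * K n) + l * ∑ a ∈ range n, if Odd a then (2 * ((n + 1).choose (a + 2) : ℝ)) •
          (l ^ (a + 1) * GP B D l (n - 1 - a)) else 0 := by
      rw [← Finset.sum_sub_distrib, Finset.sum_range_succ' _ n, Finset.mul_sum, add_comm]
      congr 1
      · rw [Nat.add_sub_add_right, ← smul_sub]
        simp only [zero_add, pow_one, Nat.choose_one_right, tsub_zero]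
        rw [neg_mul, sub_neg_eq_add, ← two_smul ℝ (l * K n), smul_smul]
        push_cast
        congr 1
        ring
      · refine Finset.sum_congr rfl fun a ha => ?_
        have ha' := Finset.mem_range.1 ha
        have e3 : n + 1 - (a + 1 + 1) = n - 1 - a := by omega
        have e4 : n - (a + 1) = n - 1 - a := by omega
        rw [e3, e4, ← smul_sub, ← sub_mul]
        have e5 := ih (n - 1 - a) (by omega) (by omega)
        split_ifs with h
        · have h6 : (-l) ^ (a + 1 + 1) = -(l ^ (a + 1 + 1)) := by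
            refine Odd.neg_pow ?_ l
            obtain ⟨c, rfl⟩ := h
            exact ⟨c + 1, by ring⟩
          rw [h6, sub_neg_eq_add, ← two_mul, mul_smul_comm]
          have h7 : 2 * l ^ (a + 1 + 1) * K (n - 1 - a) = (2 : ℝ) • (l * (l ^ (a + 1) * GP B D l (n - 1 - a))) := by
            rw [two_smul ℝ, ← two_mul]
            calc 2 * l ^ (a + 1 + 1) * K (n - 1 - a) = 2 * l ^ (a + 1) * (l * K (n - 1 - a)) := by ring
              _ = _ := by rw [e5]; ring
          rw [h7, smul_smul]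
          congr 1
          ring
        · have h6 : (-l) ^ (a + 1 + 1) = l ^ (a + 1 + 1) := by
            refine Even.neg_pow ?_ l
            rw [Nat.not_odd_iff_even] at h
            obtain ⟨c, rfl⟩ := h
            exact ⟨c + 1, by ring⟩
          rw [h6, sub_self, zero_mul, smul_zero, mul_zero]
    have s4 : ∑ a ∈ range (n + 1), ((n + 1).choose (a + 1) : ℝ) • ((-l) ^ (a + 1) * B (n - a)) =
        -(l * ∑ a ∈ range (n + 1), ((n + 1).choose (a + 1) : ℝ) • ((-l) ^ a * B (n - a))) := by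
      rw [Finset.mul_sum, ← Finset.sum_neg_distrib]
      refine Finset.sum_congr rfl fun a _ => ?_
      rw [mul_smul_comm, ← smul_neg]
      congr 1
      ring
    rw [s4] at e1
    have e6 : (2 * ((n : ℝ) + 1)) • (l * K n) = l * (D (n + 1) +
        ∑ a ∈ range (n + 1), ((n + 1).choose (a + 1) : ℝ) • ((-l) ^ a * B (n - a)) -
        ∑ a ∈ range n, if Odd a then (2 * ((n + 1).choose (a + 2) : ℝ)) • (l ^ (a + 1) * GP B D l (n - 1 - a))
          else 0) := by
      rw [mul_sub l, mul_add l]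
      linear_combination e1 - s3
    rw [GP_eq, mul_smul_comm, ← e6, smul_smul, inv_mul_cancel₀ (by positivity), one_smul]

/-- `l elc K = l elc P` -/
theorem mul_elcG {l : A} {K P : ℕ → A} {N : ℕ} (h : ∀ n, n ≠ 0 → n ≤ N → l * K n = l * P n) (n : ℕ) (hn : n ≤ N) :
    l * elc K n = l * elc P n := by
  induction n using Nat.strong_induction_on with
  | _ n ih =>
    rcases n with _ | n
    · rw [elc_zero, elc_zero]
    · rw [elc_succ, elc_succ, mul_smul_comm, mul_smul_comm, Finset.mul_sum, Finset.mul_sum]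
      congr 1
      refine Finset.sum_congr rfl fun k hk => ?_
      have hk' := Finset.mem_range.1 hk
      have e1 := h (k + 1) (by omega) (by omega)
      have e2 := ih (n - k) (by omega) (by omega)
      linear_combination ((-1) ^ k * elc K (n - k)) * e1 + ((-1) ^ k * P (k + 1)) * e2

/-! ### `l = 0` -/

theorem GP_zero (B D : ℕ → A) (n : ℕ) :
    GP B D 0 (n + 1) = (2 : ℝ)⁻¹ • B (n + 1) + (2 * ((n : ℝ) + 2))⁻¹ • D (n + 2) := by
  have h0 : ∑ a ∈ range (n + 1), (if Odd a then (2 * ((n + 1 + 1).choose (a + 2) : ℝ)) •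
      ((0 : A) ^ (a + 1) * GP B D 0 (n + 1 - 1 - a)) else 0) = 0 := by
    refine Finset.sum_eq_zero fun a _ => ?_
    rw [zero_pow (Nat.succ_ne_zero a), zero_mul, smul_zero, ite_self]
  have h1 : ∑ a ∈ range (n + 1 + 1), ((n + 1 + 1).choose (a + 1) : ℝ) •
      ((-(0 : A)) ^ a * B (n + 1 - a)) = ((n : ℝ) + 2) • B (n + 1) := by
    rw [Finset.sum_eq_single 0]
    · rw [pow_zero, one_mul, zero_add, Nat.choose_one_right, tsub_zero]
      push_cast
      congr 1
      ring
    · intro a _ ha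
      rw [neg_zero, zero_pow ha, zero_mul, smul_zero]
    · intro h
      exact absurd (Finset.mem_range.2 (Nat.succ_pos _)) h
  rw [GP_eq, h0, h1, sub_zero, smul_add, smul_smul, add_comm]
  have h2 : (2 * (((n + 1 : ℕ) : ℝ) + 1))⁻¹ * ((n : ℝ) + 2) = 2⁻¹ := by
    push_cast
    have : (n : ℝ) + 1 + 1 = n + 2 := by ring
    rw [this, mul_inv, mul_assoc, inv_mul_cancel₀ (by positivity), mul_one]
  have h3 : (2 * (((n + 1 : ℕ) : ℝ) + 1))⁻¹ = (2 * ((n : ℝ) + 2))⁻¹ := by
    push_cast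
    congr 2
    ring
  rw [h2, h3]

/-- square zero perturbations -/
theorem elc_sq {e : A} (he : e * e = 0) (g : ℕ → A) (n : ℕ) :
    elc (fun k => e * g k) (n + 1) = ((-1) ^ n * ((n : ℝ) + 1)⁻¹) • (e * g (n + 1)) := by
  have h1 : ∀ n, e * elc (fun k => e * g k) (n + 1) = 0 := by
    intro n
    rw [elc_succ, mul_smul_comm, Finset.mul_sum]
    rw [Finset.sum_eq_zero, smul_zero]
    intro k _
    have h2 : e * ((-1) ^ k * (elc (fun k => e * g k) (n - k) * (e * g (k + 1)))) =
        (e * e) * ((-1) ^ k * (elc (fun k => e * g k) (n - k) * g (k + 1))) := by ring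
    rw [h2, he, zero_mul]
  rw [elc_succ, Finset.sum_eq_single n]
  · rw [Nat.sub_self, elc_zero, one_mul, mul_comm ((-1 : ℝ) ^ n), ← smul_smul]
    congr 1
    have h2 : ((-1 : ℝ) ^ n) • (e * g (n + 1)) = (-1) ^ n * (e * g (n + 1)) := by
      rw [Algebra.smul_def, map_pow, map_neg, map_one]
    rw [h2]
  · intro k hk hkn
    have hk' := Finset.mem_range.1 hk
    obtain ⟨j, hj⟩ : ∃ j, n - k = j + 1 := ⟨n - k - 1, by omega⟩
    rw [hj]
    have h2 : (-1) ^ k * (elc (fun k => e * g k) (j + 1) * (e * g (k + 1))) =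
        (e * elc (fun k => e * g k) (j + 1)) * ((-1) ^ k * g (k + 1)) := by ring
    rw [h2, h1, zero_mul]
  · intro h
    exact absurd (Finset.mem_range.2 (Nat.lt_succ_self n)) h

theorem elc_pert {e : A} (he : e * e = 0) (p g : ℕ → A) (n : ℕ) :
    elc (fun k => p k + e * g k) n = elc p n +
      ∑ k ∈ range n, ((-1) ^ k * ((k : ℝ) + 1)⁻¹) • (e * g (k + 1) * elc p (n - 1 - k)) := by
  rw [elc_add p (fun k => e * g k) n, Finset.Nat.sum_antidiagonal_eq_sum_range_succ
    (fun i j => elc p i * elc (fun k => e * g k) j) n, ← Finset.sum_range_reflect, Finset.sum_range_succ']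
  rw [add_comm]
  congr 1
  · have e1 : n.succ - 1 - 0 = n := by omega
    rw [e1, Nat.sub_self, elc_zero, mul_one]
  · refine Finset.sum_congr rfl fun k hk => ?_
    have hk' := Finset.mem_range.1 hk
    have e1 : n.succ - 1 - (k + 1) = n - 1 - k := by omega
    have e2 : n - (n - 1 - k) = k + 1 := by omega
    rw [e1, e2, elc_sq he, mul_smul_comm, mul_comm (elc p (n - 1 - k))]

/-! ### sequences which live in the multiples of `h` -/

/-- a sequence of numbers on the multiples of `h` -/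
def spr (h : ℕ) (w : ℕ → ℝ) (j : ℕ) : ℝ := if h ∣ j then w (j / h) else 0

theorem spr_mul {h : ℕ} (hh : 0 < h) (w : ℕ → ℝ) (c : ℕ) : spr h w (h * c) = w c := by
  unfold spr
  rw [if_pos (Dvd.intro c rfl), Nat.mul_div_cancel_left c hh]

theorem spr_not {h : ℕ} (w : ℕ → ℝ) {j : ℕ} (hj : ¬ h ∣ j) : spr h w j = 0 := if_neg hj

/-- only the multiples of `h` matter -/
theorem elc_spr {h : ℕ} (w : ℕ → ℝ) {j : ℕ} (hj : ¬ h ∣ j) : elc (spr h w) j = 0 := by
  induction j using Nat.strong_induction_on with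
  | _ j ih =>
    rcases j with _ | j
    · exact absurd (dvd_zero h) hj
    · rw [elc_succ, Finset.sum_eq_zero, smul_zero]
      intro k hk
      have hk' := Finset.mem_range.1 hk
      by_cases h1 : h ∣ k + 1
      · have h2 : ¬ h ∣ j - k := fun h3 => hj (by
          have h4 := dvd_add h3 h1
          have h5 : j - k + (k + 1) = j + 1 := by omega
          rwa [h5] at h4)
        rw [ih (j - k) (by omega) h2, zero_mul, mul_zero]
      · rw [spr_not w h1, mul_zero, mul_zero]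

/-- the graded version -/
theorem elc_gr {h : ℕ} (hh : 0 < h) (w : ℕ → ℝ) (u : A) {N : ℕ} (p : ℕ → A)
    (hp : ∀ j, 1 ≤ j → j ≤ N → p j = spr h w j • u ^ (j / h)) (j : ℕ) (hj : j ≤ N) :
    elc p j = elc (spr h w) j • u ^ (j / h) := by
  induction j using Nat.strong_induction_on with
  | _ j ih =>
    rcases j with _ | j
    · rw [elc_zero, elc_zero, Nat.zero_div, pow_zero, one_smul]
    · rw [elc_succ, elc_succ, smul_assoc, Finset.sum_smul]
      congr 1
      refine Finset.sum_congr rfl fun k hk => ?_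
      have hk' := Finset.mem_range.1 hk
      rw [ih (j - k) (by omega) (by omega), hp (k + 1) (by omega) (by omega), smul_mul_smul_comm, ← pow_add]
      have h0 : ∀ (r : ℝ) (x : A), (-1) ^ k * (r • x) = ((-1) ^ k * r) • x := fun r x => by
        simp only [Algebra.smul_def, map_mul, map_pow, map_neg, map_one, mul_assoc]
      rw [h0]
      by_cases h1 : h ∣ k + 1
      · by_cases h2 : h ∣ j - k
        · congr 2
          obtain ⟨a, ha⟩ := h1
          obtain ⟨b, hb⟩ := h2
          have h3 : j + 1 = h * (b + a) := by rw [mul_add, ← ha, ← hb]; omega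
          rw [ha, hb, h3, Nat.mul_div_cancel_left _ hh, Nat.mul_div_cancel_left _ hh, Nat.mul_div_cancel_left _ hh]
        · rw [elc_spr w h2, zero_mul, mul_zero, zero_smul, zero_smul]
      · rw [spr_not w h1, mul_zero, mul_zero, zero_smul, zero_smul]

theorem elc_congr_le {p q : ℕ → A} {n : ℕ} (h : ∀ k, k + 1 ≤ n → p (k + 1) = q (k + 1)) : elc p n = elc q n := by
  induction n using Nat.strong_induction_on with
  | _ n ih =>
    rcases n with _ | n
    · rw [elc_zero, elc_zero]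
    · rw [elc_succ, elc_succ]
      congr 1
      refine Finset.sum_congr rfl fun k hk => ?_
      have hk' := Finset.mem_range.1 hk
      rw [h k (by omega), ih (n - k) (by omega) fun j hj => h j (by omega)]

/-- the computation modulo `l` -/
theorem IIg_mod {m h : ℕ} (hm1 : 1 ≤ m) (hh : 2 ≤ h) {s : ℝ} {e u : A} (he : e * e = 0) {w τ : ℕ → ℝ} {B D : ℕ → A}
    (hB : ∀ j, 1 ≤ j → j ≤ h * m → B j = spr h w j • u ^ (j / h))
    (hD : ∀ c, 1 ≤ c → c ≤ m → D (h * c) = (τ c / s * c) • (e * u ^ (c - 1))) (hD' : ∀ j, ¬ h ∣ j → D j = 0) :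
    elc (GP B D 0) (h * m - 1) = ((2 * s * h)⁻¹ * ∑ c ∈ range m, (-1) ^ (h * (c + 1)) * τ (c + 1) / (h * (c + 1) - 1) *
      elc (spr h fun c => w c / 2) (h * (m - 1 - c))) • (e * u ^ (m - 1)) := by
  have hh0 : 0 < h := by omega
  have hn1 : 1 ≤ h * m := Nat.mul_pos hh0 hm1
  have hhr : (h : ℝ) ≠ 0 := Nat.cast_ne_zero.2 (by omega)
  obtain ⟨p, hp⟩ : ∃ p : ℕ → A, p = fun j => spr h (fun c => w c / 2) j • u ^ (j / h) := ⟨_, rfl⟩
  obtain ⟨g, hg⟩ : ∃ g : ℕ → A, g = fun j => if h ∣ j + 1 then (τ ((j + 1) / h) * (2 * s * h)⁻¹) • u ^ ((j + 1) / h - 1) else 0 :=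
    ⟨_, rfl⟩
  have e1 : elc (GP B D 0) (h * m - 1) = elc (fun j => p j + e * g j) (h * m - 1) := by
    refine elc_congr_le fun j hj => ?_
    rw [GP_zero, hp, hg]
    congr 1
    · rw [hB (j + 1) (by omega) (by omega), smul_smul]
      congr 1
      unfold spr
      split_ifs
      · ring
      · ring
    · show _ = e * (if h ∣ j + 1 + 1 then _ else 0)
      split_ifs with h1
      · obtain ⟨c, hc⟩ := h1
        have hc1 : 1 ≤ c := by
          rcases Nat.eq_zero_or_pos c with h2 | h2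
          · rw [h2, mul_zero] at hc
            omega
          · exact h2
        have hc2 : c ≤ m := by
          have h2 : h * c ≤ h * m := by omega
          exact Nat.le_of_mul_le_mul_left h2 hh0
        have h3 : D (j + 2) = D (h * c) := congrArg D hc
        rw [h3, hD c hc1 hc2, hc, Nat.mul_div_cancel_left c hh0, smul_smul, mul_smul_comm]
        congr 1
        have h4 : ((j : ℝ) + 2) = h * c := by
          have h5 : ((j + 1 + 1 : ℕ) : ℝ) = ((h * c : ℕ) : ℝ) := congrArg _ hc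
          push_cast at h5
          linarith
        have h6 : (c : ℝ) ≠ 0 := Nat.cast_ne_zero.2 (by omega)
        rw [h4]
        simp only [mul_inv, div_eq_mul_inv]
        field_simp
      · rw [mul_zero, hD' (j + 2) h1, smul_zero]
  have e2 : ∀ j, j ≤ h * m → elc p j = elc (spr h fun c => w c / 2) j • u ^ (j / h) := fun j hj =>
    elc_gr hh0 (fun c => w c / 2) u p (N := h * m) (fun j _ _ => by rw [hp]) j hj
  have e3 : elc p (h * m - 1) = 0 := by
    have h1 : ¬ h ∣ h * m - 1 := fun h2 => by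
      have h3 : h ∣ 1 := by
        have h4 := Nat.dvd_sub (Dvd.intro m rfl : h ∣ h * m) h2
        have h5 : h * m - (h * m - 1) = 1 := by omega
        rwa [h5] at h4
      have := Nat.le_of_dvd one_pos h3
      omega
    rw [e2 _ (by omega), elc_spr _ h1, zero_smul]
  rw [e1, elc_pert he, e3, zero_add, Finset.mul_sum, Finset.sum_smul]
  symm
  refine Finset.sum_of_injOn (fun c => h * (c + 1) - 2) ?_ ?_ ?_ ?_
  · intro a _ b _ hab
    have h1 : h * (a + 1) - 2 = h * (b + 1) - 2 := hab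
    have h2 : 2 ≤ h * (a + 1) := le_trans hh (Nat.le_mul_of_pos_right h (Nat.succ_pos a))
    have h3 : 2 ≤ h * (b + 1) := le_trans hh (Nat.le_mul_of_pos_right h (Nat.succ_pos b))
    have h4 : h * (a + 1) = h * (b + 1) := by omega
    have h5 := Nat.eq_of_mul_eq_mul_left hh0 h4
    omega
  · intro a ha
    have ha' := Finset.mem_range.1 ha
    have h2 : 2 ≤ h * (a + 1) := le_trans hh (Nat.le_mul_of_pos_right h (Nat.succ_pos a))
    have h3 : h * (a + 1) ≤ h * m := Nat.mul_le_mul_left h (by omega)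
    refine Finset.mem_coe.2 (Finset.mem_range.2 ?_)
    show h * (a + 1) - 2 < h * m - 1
    omega
  · intro k hk hk2
    have hk' := Finset.mem_range.1 hk
    have h1 : ¬ h ∣ k + 1 + 1 := fun h2 => hk2 (by
      obtain ⟨c, hc⟩ := h2
      have hc1 : 1 ≤ c := by
        rcases Nat.eq_zero_or_pos c with h3 | h3
        · rw [h3, mul_zero] at hc
          omega
        · exact h3
      have hc2 : c ≤ m := by
        have h2 : h * c ≤ h * m := by omega
        exact Nat.le_of_mul_le_mul_left h2 hh0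
      refine ⟨c - 1, Finset.mem_coe.2 (Finset.mem_range.2 (by omega)), ?_⟩
      show h * (c - 1 + 1) - 2 = k
      rw [Nat.sub_add_cancel hc1]
      omega)
    have h2 : g (k + 1) = 0 := by
      rw [hg]
      exact if_neg h1
    rw [h2, mul_zero, zero_mul, smul_zero]
  · intro c hc
    have hc' := Finset.mem_range.1 hc
    have h2 : 2 ≤ h * (c + 1) := le_trans hh (Nat.le_mul_of_pos_right h (Nat.succ_pos c))
    have h3 : h * (c + 1) ≤ h * m := Nat.mul_le_mul_left h (by omega)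
    have h4 : h * (c + 1) - 2 + 1 + 1 = h * (c + 1) := by omega
    have h5 : h * m - 1 - 1 - (h * (c + 1) - 2) = h * (m - 1 - c) := by
      have h6 : h * m = h * (c + 1) + h * (m - 1 - c) := by
        rw [← mul_add]
        congr 1
        omega
      omega
    have h6 : g (h * (c + 1) - 2 + 1) = (τ (c + 1) * (2 * s * h)⁻¹) • u ^ c := by
      rw [hg]
      show (if h ∣ h * (c + 1) - 2 + 1 + 1 then _ else _) = _
      rw [h4, if_pos (Dvd.intro _ rfl), Nat.mul_div_cancel_left _ hh0, Nat.add_sub_cancel]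
    have h7 : ((h * (c + 1) - 2 : ℕ) : ℝ) + 1 = h * (c + 1) - 1 := by
      rw [Nat.cast_sub h2]
      push_cast
      ring
    have h8 : (-1 : ℝ) ^ (h * (c + 1) - 2) = (-1) ^ (h * (c + 1)) := by
      have h9 : (-1 : ℝ) ^ (h * (c + 1)) = (-1) ^ (h * (c + 1) - 2) * (-1) ^ 2 := by
        rw [← pow_add]
        congr 1
        omega
      rw [h9]
      norm_num
    have h9 : u ^ c * u ^ (m - 1 - c) = u ^ (m - 1) := by
      rw [← pow_add]
      congr 1
      omega
    show _ = ((-1 : ℝ) ^ (h * (c + 1) - 2) * (((h * (c + 1) - 2 : ℕ) : ℝ) + 1)⁻¹) • (e * g (h * (c + 1) - 2 + 1) *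
      elc p (h * m - 1 - 1 - (h * (c + 1) - 2)))
    have h10 : ∀ r γ : ℝ, e * (r • u ^ c) * (γ • u ^ (m - 1 - c)) = (r * γ) • (e * u ^ (m - 1)) := fun r γ => by
      rw [← h9]
      simp only [Algebra.smul_def, map_mul]
      ring
    rw [h5, h6, h7, h8, e2 _ (Nat.mul_le_mul_left h (by omega)), Nat.mul_div_cancel_left _ hh0, h10, smul_smul]
    congr 1
    simp only [div_eq_mul_inv]
    ring

/-- **(IIg)** -/
theorem IIg {l e u1 u2 : A} {m h : ℕ} {s t ρ : ℝ} (hm1 : 1 ≤ m) (hh : 3 ≤ h) (hs : s ≠ 0) (ht : t ≠ 0)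
    (h0 : hm m u1 u2 = 0) (p1 : u1 ^ (m + 1) = 0) (R1 : l * e = s • (u1 - u2))
    (R2 : e ^ 2 = t • l ^ (2 * h - 2) + ρ • ((u1 + u2) * l ^ (h - 2)))
    (X2 : e ^ 2 * (u1 ^ m * u2 ^ (m - 1)) ≠ 0) {w τ : ℕ → ℝ} {B D : ℕ → A}
    (hB : ∀ j, 1 ≤ j → j ≤ h * m → ∃ R, B j = spr h w j • u1 ^ (j / h) + (u1 - u2) * R)
    (hD : ∀ c, 1 ≤ c → c ≤ m → D (h * c) = (τ c / s) • (e * ∑ i ∈ range c, u1 ^ i * u2 ^ (c - 1 - i)))
    (hD' : ∀ j, ¬ h ∣ j → D j = 0) (hF : l * elc (GP B D l) (h * m - 1) = 0) :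
    ∑ c ∈ range m, (-1) ^ (h * (c + 1)) * τ (c + 1) / (h * (c + 1) - 1) *
      elc (spr h fun c => w c / 2) (h * (m - 1 - c)) = 0 := by
  have hq : (2 * h - 2) / 2 - 1 = h - 2 := by omega
  obtain ⟨I, hI, i1, i2, i3, i4, i5⟩ := red (q := 2 * h - 2) hm1 hs h0 p1 R1 (by rw [hq]; exact R2) X2
  rw [hq] at i3
  obtain ⟨α, hα⟩ : ∃ α : ℝ, α = (2 * s * h)⁻¹ * ∑ c ∈ range m, (-1) ^ (h * (c + 1)) * τ (c + 1) / (h * (c + 1) - 1) *
      elc (spr h fun c => w c / 2) (h * (m - 1 - c)) := ⟨_, rfl⟩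
  -- modulo `l`
  obtain ⟨J, hJ⟩ : ∃ J : Ideal A, J = I ⊔ Ideal.span {l} := ⟨_, rfl⟩
  have hIJ : I ≤ J := by rw [hJ]; exact le_sup_left
  have hlJ : l ∈ J := by
    rw [hJ]
    exact (le_sup_right : Ideal.span {l} ≤ I ⊔ Ideal.span {l}) (Ideal.mem_span_singleton_self l)
  obtain ⟨π, hπ⟩ : ∃ π : A →ₐ[ℝ] A ⧸ J, π = Ideal.Quotient.mkₐ ℝ J := ⟨_, rfl⟩
  have hπ0 : ∀ x, π x = 0 ↔ x ∈ J := fun x => by
    rw [hπ]
    exact Ideal.Quotient.eq_zero_iff_mem
  have j1 : π u2 = π u1 := by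
    have h1 := (hπ0 (u1 - u2)).2 (hIJ i1)
    rw [map_sub, sub_eq_zero] at h1
    exact h1.symm
  have j2 : π l = 0 := (hπ0 l).2 hlJ
  have j3 : π e * π e = 0 := by
    have h1 := (hπ0 _).2 (hIJ i3)
    rw [map_sub, map_add, map_smul, map_smul, map_mul, map_pow, map_pow, map_pow, j2, zero_pow (by omega),
      zero_pow (by omega), mul_zero, smul_zero, smul_zero, add_zero, sub_zero, pow_two] at h1
    exact h1
  have j4 : π (elc (GP B D l) (h * m - 1)) = α • (π e * π u1 ^ (m - 1)) := by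
    rw [map_elc]
    have h1 : (fun k => π (GP B D l k)) = GP (fun j => π (B j)) (fun j => π (D j)) 0 := funext fun k => by
      rw [map_GP, j2]
    rw [h1, hα]
    refine IIg_mod hm1 (by omega) j3 (fun j hj hj' => ?_) (fun c hc hc' => ?_) fun j hj => ?_
    · obtain ⟨R, hR⟩ := hB j hj hj'
      rw [hR, map_add, map_smul, map_pow, map_mul, map_sub, j1, sub_self, zero_mul, add_zero]
    · rw [hD c hc hc', map_smul, map_mul, map_sum]
      have h2 : ∀ i ∈ range c, π (u1 ^ i * u2 ^ (c - 1 - i)) = π u1 ^ (c - 1) := fun i hi => by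
        have hi' := Finset.mem_range.1 hi
        rw [map_mul, map_pow, map_pow, j1, ← pow_add]
        congr 1
        omega
      rw [Finset.sum_congr rfl h2, Finset.sum_const, Finset.card_range, ← Nat.cast_smul_eq_nsmul ℝ, mul_smul_comm, smul_smul]
    · rw [hD' j hj, map_zero]
  have j5 : elc (GP B D l) (h * m - 1) - α • (e * u1 ^ (m - 1)) ∈ J := by
    rw [← hπ0, map_sub, map_smul, map_mul, map_pow, j4, sub_self]
  rw [hJ, Submodule.mem_sup] at j5
  obtain ⟨i, hi, y, hy, hiy⟩ := j5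
  obtain ⟨g, rfl⟩ := Ideal.mem_span_singleton'.1 hy
  -- modulo `I`
  obtain ⟨π', hπ'⟩ : ∃ π' : A →ₐ[ℝ] A ⧸ I, π' = Ideal.Quotient.mkₐ ℝ I := ⟨_, rfl⟩
  have hπ0' : ∀ x, π' x = 0 ↔ x ∈ I := fun x => by
    rw [hπ']
    exact Ideal.Quotient.eq_zero_iff_mem
  have k1 : α • (π' e * π' u1 ^ (m - 1)) + π' l * π' g = 0 := by
    have h1 := (hπ0' _).2 (hI _ hF)
    have h2 := (hπ0' _).2 hi
    have h3 : π' (elc (GP B D l) (h * m - 1)) = α • (π' e * π' u1 ^ (m - 1)) + π' i + π' g * π' l := by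
      have h4 : elc (GP B D l) (h * m - 1) = α • (e * u1 ^ (m - 1)) + i + g * l := by
        rw [add_assoc, hiy]
        abel
      rw [h4, map_add, map_add, map_smul, map_mul, map_mul, map_pow]
    rw [h1, h2, add_zero] at h3
    rw [mul_comm (π' l)]
    exact h3.symm
  have k2 : π' l * π' e = 0 := by rw [← map_mul]; exact (hπ0' _).2 i2
  have k3 : π' e ^ 2 = t • π' l ^ (2 * h - 2) + (2 * ρ) • (π' u1 * π' l ^ ((2 * h - 2) / 2 - 1)) := by
    have h1 := (hπ0' _).2 i3
    rw [map_sub, sub_eq_zero, map_add, map_smul, map_smul, map_mul, map_pow, map_pow, map_pow] at h1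
    rw [hq]
    exact h1
  have k4 : π' u1 ^ m = 0 := by rw [← map_pow]; exact (hπ0' _).2 i4
  have k5 : π' l ^ (2 * h - 2) * π' u1 ^ (m - 1) ≠ 0 := by
    rw [← map_pow, ← map_pow, ← map_mul]
    exact fun h1 => i5 ((hπ0' _).1 h1)
  have k6 := ext_e k2 k3 hm1 k4 ht k5 k1
  rw [hα] at k6
  have hhr : (h : ℝ) ≠ 0 := Nat.cast_ne_zero.2 (by omega)
  exact (mul_eq_zero.1 k6).resolve_left (inv_ne_zero (mul_ne_zero (mul_ne_zero two_ne_zero hs) hhr))

/-- `k = 8`, `m = 2` -/
theorem IIg_eight {b : ℝ} {w τ : ℕ → ℝ} (h1 : τ 1 = -4 * b) (h2 : τ 2 = -24 - 4 * b ^ 2) (h3 : w 1 = 4 * b)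
    (h : ∑ c ∈ range 2, (-1) ^ (4 * (c + 1)) * τ (c + 1) / (((4 : ℕ) : ℝ) * (c + 1) - 1) *
      elc (spr 4 fun c => w c / 2) (4 * (2 - 1 - c)) = 0) : b ^ 2 = 36 := by
  have e0 : elc (spr 4 fun c => w c / 2) 4 = -(w 1) / 8 := by
    rw [elc_succ, Finset.sum_range_succ, Finset.sum_eq_zero]
    · have h4 : spr 4 (fun c => w c / 2) (3 + 1) = w 1 / 2 := spr_mul (h := 4) (by norm_num) _ 1
      rw [h4, Nat.sub_self, elc_zero, smul_eq_mul]
      push_cast
      ring
    · intro k hk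
      have hk' := Finset.mem_range.1 hk
      have h4 : ¬ 4 ∣ k + 1 := fun h => by
        have := Nat.le_of_dvd (Nat.succ_pos k) h
        omega
      rw [spr_not _ h4, mul_zero, mul_zero]
  rw [Finset.sum_range_succ, Finset.sum_range_one] at h
  have e1 : 4 * (2 - 1 - 0) = 4 := by norm_num
  have e2 : 4 * (2 - 1 - 1) = 0 := by norm_num
  rw [e1, e2, e0, elc_zero, zero_add, h1, h2, h3] at h
  push_cast at h
  nlinarith

/-- the series `C0` -/
def C0s (h : ℕ) (w : ℕ → ℝ) : PowerSeries ℝ := PowerSeries.mk fun j => elc (spr h fun c => w c / 2) (h * j)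

/-- sign of the complexification: `i^j` for even `j`, `0` for odd `j` -/
def sg (j : ℕ) : ℝ := if Even j then (-1) ^ (j / 2) else 0

end Pool.Agent.Lib.MP_ccbbf6_gt.L5.FR6
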