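import Pool.Agent.Lib.MP_ccbbf6_gt.L4.FXa
import Pool.Agent.Lib.MP_ccbbf6_gt.L4.OriE
import Pool.Agent.Lib.MP_ccbbf6_gt.L4.PO1

/-!
# Level 5, NEG: definitions (sections of `K`, push-off families, the quadratic form, the negative bundle)
-/

set_option autoImplicit false
set_option linter.unusedSectionVars false

open Set Filter Topology Metric Real
open scoped ContDiff RealInnerProductSpace

noncomputable section

namespace Pool.Agent.Lib.MP_ccbbf6_gt.L5.NEG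

open Geo L4 L4.ORI

variable {n : ℕ} {M : Type*} [MetricSpace M] [CompactSpace M] (𝒜 : SDist n M)

/-- the directions in the space `V` of `c` which are orthogonal to `c` -/
def Kc (c : Gs M) : Submodule ℝ (Eu n) := 𝒜.PV (c.1 0) (𝒜.vel c.1 0) ⊓ (Submodule.span ℝ {𝒜.vel c.1 0})ᗮ

/-- the orthogonal projection onto `Kc` -/
def Hc (c : Gs M) : Eu n →L[ℝ] Eu n := (Kc 𝒜 c).starProjection

/-- rotation of `c` about `c 0` towards `w c` -/
def rotw (hB : Bl M) (w : Gs M → Eu n) (s : ℝ) (c : Gs M) : Gs M := gw 𝒜 hB c (𝒜.vel c.1 0 + s • w c)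

/-- a section of `K` -/
structure KSec (w : Gs M → Eu n) : Prop where
  smooth : ∀ {F : Type} [NormedAddCommGroup F] [NormedSpace ℝ F] {σ : F → Gs M} {u : F} {p : M}, SmGAt 𝒜 σ u →
    (σ u).1 0 ∈ (𝒜.ψ p).source → SmV 𝒜 p (fun v => (σ v).1 0) (fun v => w (σ v)) u
  mem : ∀ c, w c ∈ Kc 𝒜 c

/-- the derivative at time `0` of the rotation about `c b`, at the point `c 0` -/
def JW (hB : Bl M) (w : Gs M → Eu n) (c : Gs M) (b : ℝ) : Eu n :=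
  deriv (fun τ => 𝒜.ψ (c.1 0) ((rotw 𝒜 hB w τ (shift b c)).1 (-b))) 0

/-- the density of the quadratic form -/
def LamW (hB : Bl M) (w : Gs M → Eu n) (c : Gs M) : ℝ := -∫ b in (0 : ℝ)..π, ⟪w c, JW 𝒜 hB w c b⟫

/-- the quadratic form -/
def QW (hB : Bl M) (w : Gs M → Eu n) (c : Gs M) : ℝ := ∫ s in (0 : ℝ)..(2 * π), LamW 𝒜 hB w (shift s c)

/-- smooth functions on `Gs M` -/
def SmF {G : Type*} [NormedAddCommGroup G] [NormedSpace ℝ G] (f : Gs M → G) : Prop :=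
  ∀ {F : Type} [NormedAddCommGroup F] [NormedSpace ℝ F] {σ : F → Gs M} {u : F}, SmGAt 𝒜 σ u →
    ContDiffAt ℝ ∞ (fun v => f (σ v)) u

/-- a linear family of rotations, `k ξ c` = the velocity of `R ξ · c` at time `0` -/
structure RotF {N : ℕ} (R : Eu N → ℝ → Gs M → Gs M) (k : Eu N → Gs M → Eu n) : Prop where
  smooth : ∀ {F : Type} [NormedAddCommGroup F] [NormedSpace ℝ F] {σ : F → Gs M} {ξ : F → Eu N} {s : F → ℝ} {u : F},
    SmGAt 𝒜 σ u → ContDiffAt ℝ ∞ ξ u → ContDiffAt ℝ ∞ s u → SmGAt 𝒜 (fun v => R (ξ v) (s v) (σ v)) u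
  zero : ∀ ξ c, R ξ 0 c = c
  foot : ∀ ξ s c, (R ξ s c).1 0 = c.1 0
  top : ∀ ξ s c, (R ξ s c).1 π = c.1 π
  smul : ∀ (r : ℝ) ξ s c, R (r • ξ) s c = R ξ (r * s) c
  vel : ∀ ξ s c, √(1 + s ^ 2 * ‖k ξ c‖ ^ 2) • 𝒜.vel (R ξ s c).1 0 = 𝒜.vel c.1 0 + s • k ξ c
  orth : ∀ ξ c, ⟪𝒜.vel c.1 0, k ξ c⟫ = 0

section emb

variable {𝒜} (e : Emb n 𝒜)

/-- the differential of the retraction at `x` -/
def Dr (x : M) : EuclideanSpace ℝ (Fin e.q) →L[ℝ] Eu n := fderiv ℝ (fun y => 𝒜.ψ x (e.r y)) (e.i x)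

/-- the section of `K` defined by the ambient function `Φ` -/
def kf {N : ℕ} (Φ : e.Q → (Eu N →L[ℝ] EuclideanSpace ℝ (Fin e.q))) (ξ : Eu N) (c : Gs M) : Eu n :=
  Hc 𝒜 c (Dr e (c.1 0) (Φ (e.EE c) ξ))

end emb

section fam

variable {N : ℕ}

/-- the square of the speed at `0` of the loop `s ↦ C ξ (shift s c)` -/
def s2 (C : Eu N → Gs M → M) (c : Gs M) (ξ : Eu N) : ℝ := ‖deriv (fun s => 𝒜.ψ (C ξ c) (C ξ (shift s c))) 0‖ ^ 2

/-- the first order variation -/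
def X1 (C : Eu N → Gs M → M) (c : Gs M) : Eu N →L[ℝ] Eu n := fderiv ℝ (fun ξ => 𝒜.ψ (c.1 0) (C ξ c)) 0

/-- smooth families of maps `Gs M → M` which start at the foot map -/
structure PFam (C : Eu N → Gs M → M) : Prop where
  smooth : ∀ {F : Type} [NormedAddCommGroup F] [NormedSpace ℝ F] {σ : F → Gs M} {ξ : F → Eu N} {u : F}, SmGAt 𝒜 σ u →
    ContDiffAt ℝ ∞ ξ u → SmAt 𝒜 (fun v => C (ξ v) (σ v)) u
  zero : ∀ c, C 0 c = c.1 0
  normal : ∀ c ξ, ⟪𝒜.vel c.1 0, X1 𝒜 C c ξ⟫ = 0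
  first : ∀ c, fderiv ℝ (s2 𝒜 C c) 0 = 0

/-- minus half of the second variation of the speed -/
def LamB (C : Eu N → Gs M → M) (c : Gs M) : Eu N →L[ℝ] Eu N →L[ℝ] ℝ := (-(1 / 4) : ℝ) • fderiv ℝ (fderiv ℝ (s2 𝒜 C c)) 0

/-- the quadratic form: minus half of the second variation of the length of `t ↦ C ξ (shift t c)` -/
def QB (C : Eu N → Gs M → M) (c : Gs M) : Eu N →L[ℝ] Eu N →L[ℝ] ℝ := ∫ t in (0 : ℝ)..(2 * π), LamB 𝒜 C (shift t c)

/-- the symmetric operator of the quadratic form -/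
def QO (C : Eu N → Gs M → M) (c : Gs M) : Eu N →L[ℝ] Eu N :=
  ∑ i, ((QB 𝒜 C c).flip (EuclideanSpace.single i 1)).smulRight (EuclideanSpace.single i (1 : ℝ))

/-- primitive along the orbits of the density minus its mean value -/
def aa (C : Eu N → Gs M → M) (c : Gs M) (ξ : Eu N) : ℝ :=
  (2 * π)⁻¹ * ∫ s in (0 : ℝ)..(2 * π), s * (LamB 𝒜 C (shift s c) ξ ξ - (2 * π)⁻¹ * QB 𝒜 C c ξ ξ)

/-- the push-off with constant speed to the second order -/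
def Cx (C : Eu N → Gs M → M) (x : Eu N) (c : Gs M) : M := C x (shift (aa 𝒜 C c x) c)

/-- the isometry from `K` at `c 0` to `K` at `c π` -/
def thK (hB : Bl M) (c : Gs M) (w : Eu n) : Eu n :=
  √(1 + ‖w‖ ^ 2) • 𝒜.vel (gw 𝒜 hB c (𝒜.vel c.1 0 + w)).1 π - 𝒜.vel c.1 π

/-- the evaluation `E → K` -/
def evc (hB : Bl M) (C : Eu N → Gs M → M) (c : Gs M) (ξ : Eu N) : Eu n :=
  Hc 𝒜 c (X1 𝒜 C c ξ) - thK 𝒜 hB (shift π c) (Hc 𝒜 (shift π c) (X1 𝒜 C (shift π c) ξ))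

/-- the negative bundle: an invariant family of subspaces of `Eu N` of dimension `κ` -/
structure NegData (κ : ℕ) (hB : Bl M) (C : Eu N → Gs M → M) (P : Gs M → Eu N →L[ℝ] Eu N) : Prop where
  fam : PFam 𝒜 C
  smooth : ∀ {F : Type} [NormedAddCommGroup F] [NormedSpace ℝ F] {σ : F → Gs M} {u : F}, SmGAt 𝒜 σ u →
    ContDiffAt ℝ ∞ (fun v => P (σ v)) u
  idem : ∀ c x, P c (P c x) = P c x
  symm : ∀ c x y, ⟪P c x, y⟫ = ⟪x, P c y⟫
  rank : ∀ c, Module.finrank ℝ (LinearMap.range (P c : Eu N →ₗ[ℝ] Eu N)) = κ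
  inv : ∀ t c, P (shift t c) = P c
  pos : ∃ δ : ℝ, 0 < δ ∧ ∀ c ξ, P c ξ = ξ → δ * ‖ξ‖ ^ 2 ≤ QB 𝒜 C c ξ ξ
  ev : ∀ c ξ, P c ξ = ξ → evc 𝒜 hB C c ξ = 0 → ξ = 0

/-- vectors of the negative bundle -/
def InP (P : Gs M → Eu N →L[ℝ] Eu N) (c : Gs M) (x : Eu N) : Prop := P c x = x

/-- the smooth filling over the total space of the negative bundle; `x = 0` is the foot map, `‖x‖ ≥ 1` is invariant under the flow -/
structure FillP (C : Eu N → Gs M → M) (P : Gs M → Eu N →L[ℝ] Eu N) (f : Gs M → Eu N → M) : Prop where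
  smooth : ∀ {F : Type} [NormedAddCommGroup F] [NormedSpace ℝ F] {σ : F → Gs M} {x : F → Eu N}, SmG 𝒜 σ → ContDiff ℝ ∞ x →
    (∀ u, InP P (σ u) (x u)) → Sm 𝒜 (fun u => f (σ u) (x u))
  near : ∃ θ r : ℝ, 0 < θ ∧ 0 < r ∧ ∀ c x, InP P c x → ‖x‖ ≤ r → f c x = Cx 𝒜 C (θ • x) c
  radial : ∀ c x, InP P c x → 1 ≤ ‖x‖ → f c x = f c (‖x‖⁻¹ • x)
  inv : ∀ c x t, InP P c x → 1 ≤ ‖x‖ → f (shift t c) x = f c x
  short : ∀ c x, InP P c x → x ≠ 0 → ∀ a b, dist (f (shift a c) x) (f (shift b c) x) < π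

end fam

section space

variable {n : ℕ} {M : Type} [MetricSpace M] [CompactSpace M] (𝒜 : SDist n M) {N : ℕ}

/-- the unit sphere bundle of the negative bundle as a plot space -/
def spN (P : Gs M → Eu N →L[ℝ] Eu N) : FR.Space where
  pt := {z : Gs M × Eu N // InP P z.1 z.2 ∧ ‖z.2‖ = 1}
  Pl _ := {p | SmG 𝒜 (fun u => (p u).1.1) ∧ ContDiff ℝ ∞ (fun u => (p u).1.2)}
  pre := fun {_ _ p} hp g => ⟨SmG.comp (σ := fun u => (p u).1.1) hp.1 g.smooth,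
    (show ContDiff ℝ ∞ (fun u => (p u).1.2) from hp.2).comp g.smooth⟩

end space

end Pool.Agent.Lib.MP_ccbbf6_gt.L5.NEG
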