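import Pool.Agent.Lib.MP_ccbbf6_gt.L4.CO0
import Pool.Agent.Lib.MP_ccbbf6_gt.L4.PO1a
import Pool.Agent.Lib.MP_ccbbf6_gt.L4.SM4
import Pool.Agent.Lib.MP_ccbbf6_gt.L5.NEGd

/-!
# NS1: smoothness and invariance of the speed function and of the quadratic form of a push-off family (Level 5, block NEG)

PROOFS.
`SmF.continuous`: at `c`: `f c' = (f ∘ e.RR) (e.EE c')` (`e.RR_EE`), `f ∘ e.RR` is `ContDiffAt` at `e.EE c` (`hf (e.smG_RR hB (e.EE_mem c))`), `e.continuous_EE`.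
`s2_smooth`: the field `v ↦ deriv (fun s => 𝒜.ψ (x v) (C (ξ v) (shift s (σ v)))) 0`, `x v = C (ξ v) (σ v)`, is an `SmV` field along `x`: `CC p (x v)` of it is `deriv (fun s => 𝒜.ψ p (C (ξ v) (shift s (σ v)))) 0` near `u`
 (chain rule `hasFDerivAt_ch`, as in `smV_vel` of L4/OriD), which is smooth by `PO.contDiffAt_deriv2'`; then `SmV.inner` and `real_inner_self_eq_norm_sq`. The family `(v, s) ↦ C (ξ v) (shift s (σ v))` is smooth by `hC.smooth`, `SmGAt.shift`.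
`s2_zero`: `C 0 (shift s c) = c s`, the derivative is `𝒜.vel c.1 0`, norm `1`.
`LamB_symm`: second derivatives are symmetric (`ContDiffAt.isSymmSndFDerivAt`). `LamB_smooth`: the function `(v, ξ) ↦ s2 (σ v) ξ` is smooth at `(u, 0)` by `s2_smooth` applied to `F × Eu N`; second partial derivatives in `ξ` at `ξ = 0`
 are smooth (`ContDiffAt.fderiv_right`, composition with `ContinuousLinearMap.inr`; `fderiv (s2 (σ v)) ξ = (fderiv s2' (v, ξ)).comp inr` near `(u, 0)`).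
`QB_smooth`: `(v, t) ↦ LamB (shift t (σ v))` is smooth at every `(u, t)`: integral over `[0, 2π]` with a parameter. `contDiff_param` (L4/SM3) needs globally smooth functions: extend: near `u` use a smooth cut-off: for the local statement use
 `σ' := e.RR ∘ β`, `β : e.Q → e.Q` from `exists_to_ball` (L4/PO1), as in `SmGAt.rot`: `QB (e.RR (β y))` is globally smooth in `y`, compose with `e.EE (σ v)`. (If the universe of `contDiff_param` is a problem: `e.Q : Type`.)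
`QB_shift`: periodicity of the integrand (`shift_add`, `shift_per`; `Function.Periodic.intervalIntegral_add_eq`, see `avg_shift` in L4/SM4).
-/

set_option autoImplicit false
set_option linter.unusedSectionVars false

open Set Filter Topology Metric Real
open scoped ContDiff RealInnerProductSpace

noncomputable section

namespace Pool.Agent.Lib.MP_ccbbf6_gt.L5.NEG

open Geo L4 L4.ORI

variable {n : ℕ} {M : Type*} [MetricSpace M] [CompactSpace M] {𝒜 : SDist n M} {N : ℕ} {C : Eu N → Gs M → M}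

theorem SmF.continuous [Nonempty (Gs M)] (hB : Bl M) (e : Emb n 𝒜) {G : Type*} [NormedAddCommGroup G] [NormedSpace ℝ G]
    {f : Gs M → G} (hf : SmF 𝒜 f) : Continuous f := by
  rw [continuous_iff_continuousAt]
  intro c
  have h1 : ContDiffAt ℝ ∞ (fun v : e.Q => f (e.RR v)) (e.EE c) := hf (e.smG_RR hB (e.EE_mem c))
  have h2 : ContinuousAt (fun c' => f (e.RR (e.EE c'))) c :=
    ContinuousAt.comp (g := fun v : e.Q => f (e.RR v)) h1.continuousAt e.continuous_EE.continuousAt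
  have h3 : (fun c' => f (e.RR (e.EE c'))) = f := by
    funext c'
    rw [e.RR_EE hB]
  rwa [h3] at h2

/-- constant families are smooth -/
theorem smGAt_const_ns1 {F : Type*} [NormedAddCommGroup F] [NormedSpace ℝ F] (c : Gs M) (u : F) :
    SmGAt 𝒜 (fun _ : F => c) u := ⟨smAt_const _ _, smAt_const _ _⟩

/-- the velocity field of a smooth family of curves is smooth -/
theorem smV_deriv_ns1 {F : Type*} [NormedAddCommGroup F] [NormedSpace ℝ F] {g : F × ℝ → M} {u : F}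
    (hg : SmAt 𝒜 g (u, 0)) {p : M} (hp : g (u, 0) ∈ (𝒜.ψ p).source) :
    SmV 𝒜 p (fun v => g (v, 0)) (fun v => deriv (fun s => 𝒜.ψ (g (v, 0)) (g (v, s))) 0) u := by
  unfold SmV
  have h1 : ContDiffAt ℝ ∞ (fun z : F × ℝ => 𝒜.ψ p (g z)) (u, 0) := hg.chart hp
  have h2 : ContDiffAt ℝ ∞ (fun v : F => deriv (fun t => 𝒜.ψ p (g (v, t))) 0) u :=
    PO.contDiffAt_deriv2' (g := fun z : F × ℝ => 𝒜.ψ p (g z)) h1
  refine h2.congr_of_eventuallyEq ?_
  have h3 : ∀ᶠ z in 𝓝 (u, (0 : ℝ)), ∀ᶠ z' in 𝓝 z, g z' ∈ (𝒜.ψ p).source :=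
    eventually_eventually_nhds.2 (hg.cont.eventually ((𝒜.ψ p).open_source.mem_nhds hp))
  have h4 : ∀ᶠ z in 𝓝 (u, (0 : ℝ)), DifferentiableAt ℝ (fun z : F × ℝ => 𝒜.ψ p (g z)) z := PO.eventually_diff h1
  have hc : Tendsto (fun v : F => (v, (0 : ℝ))) (𝓝 u) (𝓝 (u, 0)) :=
    Continuous.tendsto (f := fun v : F => (v, (0 : ℝ))) (by fun_prop) u
  filter_upwards [hc.eventually h3, hc.eventually h4] with v h5 h6
  have h7 : g (v, 0) ∈ (𝒜.ψ p).source := h5.self_of_nhds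
  have h8 : HasDerivAt (fun t => 𝒜.ψ p (g (v, t))) (deriv (fun t => 𝒜.ψ p (g (v, t))) 0) 0 := by
    have h9 := PO.hasDerivAt_snd (g := fun z : F × ℝ => 𝒜.ψ p (g z)) (z := (v, 0)) h6
    exact h9.differentiableAt.hasDerivAt
  have h9 : HasFDerivAt (fun w => 𝒜.ψ (g (v, 0)) ((𝒜.ψ p).symm w)) (DD 𝒜 p (g (v, 0)))
      ((fun t => 𝒜.ψ p (g (v, t))) 0) := hasFDerivAt_DD 𝒜 h7
  have h10 := h9.comp_hasDerivAt (0 : ℝ) h8
  have h11 : (fun s => 𝒜.ψ (g (v, 0)) (g (v, s))) =ᶠ[𝓝 0]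
      ((fun w => 𝒜.ψ (g (v, 0)) ((𝒜.ψ p).symm w)) ∘ fun t => 𝒜.ψ p (g (v, t))) := by
    have hc' : Tendsto (fun s : ℝ => (v, s)) (𝓝 0) (𝓝 (v, 0)) :=
      Continuous.tendsto (f := fun s : ℝ => (v, s)) (by fun_prop) 0
    filter_upwards [hc'.eventually h5] with s hs
    simp only [Function.comp_apply]
    rw [(𝒜.ψ p).left_inv hs]
  have h12 := h10.congr_of_eventuallyEq h11
  rw [h12.deriv, CC_DD 𝒜 h7]

theorem PFam.s2_smooth (hB : Bl M) (hC : PFam 𝒜 C) {F : Type} [NormedAddCommGroup F] [NormedSpace ℝ F] {σ : F → Gs M}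
    {ξ : F → Eu N} {u : F} (hσ : SmGAt 𝒜 σ u) (hξ : ContDiffAt ℝ ∞ ξ u) :
    ContDiffAt ℝ ∞ (fun v => s2 𝒜 C (σ v) (ξ v)) u := by
  have h1 : SmGAt 𝒜 (fun z : F × ℝ => σ z.1) (u, 0) :=
    SmGAt.comp (σ := σ) (f := fun z : F × ℝ => z.1) (v := (u, 0)) hσ contDiffAt_fst
  have h2 : SmGAt 𝒜 (fun z : F × ℝ => L4.shift z.2 (σ z.1)) (u, 0) := h1.shift hB contDiffAt_snd
  have h3 : ContDiffAt ℝ ∞ (fun z : F × ℝ => ξ z.1) (u, 0) :=
    ContDiffAt.comp (g := ξ) (f := fun z : F × ℝ => z.1) (u, (0 : ℝ)) hξ contDiffAt_fst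
  have h4 : SmAt 𝒜 (fun z : F × ℝ => C (ξ z.1) (L4.shift z.2 (σ z.1))) (u, 0) := hC.smooth h2 h3
  have hx : SmAt 𝒜 (fun v => C (ξ v) (σ v)) u := hC.smooth hσ hξ
  have hsh : ∀ c : Gs M, L4.shift 0 c = c := shift_zero
  have hp : (fun z : F × ℝ => C (ξ z.1) (L4.shift z.2 (σ z.1))) (u, 0) ∈ (𝒜.ψ (C (ξ u) (σ u))).source := by
    simp only [hsh]
    exact 𝒜.mem _
  have h5 := smV_deriv_ns1 h4 hp
  simp only [hsh] at h5
  have h6 := SmV.inner hx (𝒜.mem _) h5 h5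
  refine h6.congr_of_eventuallyEq (Eventually.of_forall fun v => ?_)
  simp only [s2]
  rw [real_inner_self_eq_norm_sq]

theorem PFam.s2_zero (hB : Bl M) (hC : PFam 𝒜 C) (c : Gs M) : s2 𝒜 C c 0 = 1 := by
  unfold s2
  have h1 : (fun s => 𝒜.ψ (C 0 c) (C 0 (L4.shift s c))) = fun s => 𝒜.ψ (c.1 0) (c.1 s) := by
    funext s
    rw [hC.zero, hC.zero]
    simp only [L4.shift, zero_add]
  rw [h1]
  have h2 : deriv (fun s => 𝒜.ψ (c.1 0) (c.1 s)) 0 = 𝒜.vel c.1 0 := rfl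
  rw [h2, vel_norm, one_pow]

/-- the partial derivative in the second variable is smooth -/
theorem contDiffAt_fderiv2_ns1 {F E G : Type*} [NormedAddCommGroup F] [NormedSpace ℝ F] [NormedAddCommGroup E]
    [NormedSpace ℝ E] [NormedAddCommGroup G] [NormedSpace ℝ G] {Φ : F × E → G} {z : F × E}
    (h : ContDiffAt ℝ ∞ Φ z) : ContDiffAt ℝ ∞ (fun w : F × E => fderiv ℝ (fun ξ => Φ (w.1, ξ)) w.2) z := by
  have h1 : ContDiffAt ℝ ∞ (fun w => (fderiv ℝ Φ w).comp (ContinuousLinearMap.inr ℝ F E)) z :=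
    (h.fderiv_right (m := ∞) (by simp)).clm_comp contDiffAt_const
  refine h1.congr_of_eventuallyEq ?_
  filter_upwards [PO.eventually_diff h] with w hw
  have h2 : HasFDerivAt (fun ξ : E => (w.1, ξ)) (ContinuousLinearMap.inr ℝ F E) w.2 := hasFDerivAt_prodMk_right w.1 w.2
  have h3 : HasFDerivAt Φ (fderiv ℝ Φ w) ((fun ξ : E => (w.1, ξ)) w.2) := hw.hasFDerivAt
  exact (h3.comp w.2 h2).fderiv

theorem PFam.s2_smooth_ns1 (hB : Bl M) (hC : PFam 𝒜 C) (c : Gs M) (x : Eu N) : ContDiffAt ℝ ∞ (s2 𝒜 C c) x :=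
  PFam.s2_smooth hB hC (F := Eu N) (σ := fun _ => c) (ξ := fun ξ => ξ) (smGAt_const_ns1 c x) contDiffAt_id

theorem PFam.LamB_symm (hB : Bl M) (hC : PFam 𝒜 C) (c : Gs M) (x y : Eu N) : LamB 𝒜 C c x y = LamB 𝒜 C c y x := by
  have h1 : IsSymmSndFDerivAt ℝ (s2 𝒜 C c) 0 :=
    ((PFam.s2_smooth_ns1 hB hC c 0).of_le (m := 2) ENat.LEInfty.out).isSymmSndFDerivAt (by simp)
  have h2 : ∀ a b : Eu N, LamB 𝒜 C c a b = (-(1 / 4) : ℝ) * fderiv ℝ (fderiv ℝ (s2 𝒜 C c)) 0 a b := fun a b => rfl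
  rw [h2, h2, h1 x y]

theorem PFam.LamB_smooth (hB : Bl M) (hC : PFam 𝒜 C) : SmF 𝒜 (LamB 𝒜 C) := by
  intro F _ _ σ u hσ
  have h1 : SmGAt 𝒜 (fun z : F × Eu N => σ z.1) (u, 0) :=
    SmGAt.comp (σ := σ) (f := fun z : F × Eu N => z.1) (v := (u, 0)) hσ contDiffAt_fst
  have h2 : ContDiffAt ℝ ∞ (fun z : F × Eu N => s2 𝒜 C (σ z.1) z.2) (u, 0) :=
    PFam.s2_smooth hB hC (F := F × Eu N) (σ := fun z : F × Eu N => σ z.1) (ξ := fun z : F × Eu N => z.2) h1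
      contDiffAt_snd
  have h3 := contDiffAt_fderiv2_ns1 h2
  have h4 := contDiffAt_fderiv2_ns1 h3
  have h5 : ContDiffAt ℝ ∞ (fun v : F => fderiv ℝ (fderiv ℝ (s2 𝒜 C (σ v))) 0) u :=
    ContDiffAt.comp (g := fun w : F × Eu N => fderiv ℝ (fun ξ => fderiv ℝ (fun ξ' => s2 𝒜 C (σ w.1) ξ') ξ) w.2)
      (f := fun v : F => (v, (0 : Eu N))) u h4 (contDiffAt_id.prodMk contDiffAt_const)
  exact h5.const_smul (-(1 / 4) : ℝ)

theorem PFam.QB_smooth [Nonempty (Gs M)] (hB : Bl M) (e : Emb n 𝒜) (hC : PFam 𝒜 C) : SmF 𝒜 (QB 𝒜 C) := by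
  intro F _ _ σ u hσ
  obtain ⟨β, hβ, hβU, hβe⟩ := exists_to_ball (e.EE (σ u)) (e.isOpen_UU.mem_nhds (e.EE_mem (σ u)))
  have h1 : ContDiff ℝ ∞ (fun z : e.Q × ℝ => LamB 𝒜 C (L4.shift z.2 (e.RR (β z.1)))) := by
    rw [contDiff_iff_contDiffAt]
    intro z
    have h2 : SmGAt 𝒜 (fun z : e.Q × ℝ => e.RR (β z.1)) z :=
      SmGAt.comp (σ := e.RR) (f := fun z : e.Q × ℝ => β z.1) (v := z) (e.smG_RR hB (hβU z.1))
        (ContDiffAt.comp (g := β) (f := fun z : e.Q × ℝ => z.1) z hβ.contDiffAt contDiffAt_fst)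
    exact PFam.LamB_smooth hB hC (F := e.Q × ℝ) (h2.shift hB contDiffAt_snd)
  have h2 := contDiff_param.{0, 0} h1 0 (2 * π)
  have h3 : ContDiffAt ℝ ∞ (fun v => ∫ t in (0 : ℝ)..(2 * π), LamB 𝒜 C (L4.shift t (e.RR (β (e.EE (σ v)))))) u :=
    ContDiffAt.comp (g := fun y : e.Q => ∫ t in (0 : ℝ)..(2 * π), LamB 𝒜 C (L4.shift t (e.RR (β y))))
      (f := fun v => e.EE (σ v)) u h2.contDiffAt (e.smooth_EE hσ)
  refine h3.congr_of_eventuallyEq ?_
  filter_upwards [(e.smooth_EE hσ).continuousAt.eventually hβe] with v hv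
  simp only [hv, id, e.RR_EE hB]
  rfl

theorem PFam.LamB_cont_ns1 [Nonempty (Gs M)] (hB : Bl M) (e : Emb n 𝒜) (hC : PFam 𝒜 C) (c : Gs M) :
    Continuous fun t : ℝ => LamB 𝒜 C (L4.shift t c) :=
  (SmF.continuous hB e (PFam.LamB_smooth hB hC)).comp (gs_continuous_shift.comp (Continuous.prodMk_left c))

theorem PFam.QB_apply [Nonempty (Gs M)] (hB : Bl M) (e : Emb n 𝒜) (hC : PFam 𝒜 C) (c : Gs M) (x y : Eu N) :
    QB 𝒜 C c x y = ∫ t in (0 : ℝ)..(2 * π), LamB 𝒜 C (shift t c) x y := by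
  have h1 := PFam.LamB_cont_ns1 hB e hC c
  unfold QB
  rw [ContinuousLinearMap.intervalIntegral_apply (h1.intervalIntegrable _ _),
    ContinuousLinearMap.intervalIntegral_apply ((h1.clm_apply continuous_const).intervalIntegrable _ _)]

theorem PFam.QB_symm [Nonempty (Gs M)] (hB : Bl M) (e : Emb n 𝒜) (hC : PFam 𝒜 C) (c : Gs M) (x y : Eu N) :
    QB 𝒜 C c x y = QB 𝒜 C c y x := by
  rw [PFam.QB_apply hB e hC, PFam.QB_apply hB e hC]
  simp only [PFam.LamB_symm hB hC _ x y]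

theorem QB_shift (𝒜 : SDist n M) (hB : Bl M) (C : Eu N → Gs M → M) (t : ℝ) (c : Gs M) : QB 𝒜 C (shift t c) = QB 𝒜 C c := by
  unfold QB
  simp only [gs_shift_shift]
  have hp : Function.Periodic (fun s => LamB 𝒜 C (shift s c)) (2 * π) := fun s => by
    simp only [gs_shift_per 𝒜 hB]
  have h1 := intervalIntegral.integral_comp_add_right (a := 0) (b := 2 * π) (fun s => LamB 𝒜 C (shift s c)) t
  rw [h1, zero_add, add_comm (2 * π) t]
  have h2 := hp.intervalIntegral_add_eq t 0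
  rw [zero_add] at h2
  exact h2

theorem QO_inner (𝒜 : SDist n M) (C : Eu N → Gs M → M) (c : Gs M) (x y : Eu N) : ⟪QO 𝒜 C c x, y⟫ = QB 𝒜 C c x y := by
  have h1 : QO 𝒜 C c x = ∑ i, (QB 𝒜 C c x (EuclideanSpace.single i 1)) • EuclideanSpace.single i (1 : ℝ) := by
    unfold QO
    rw [sum_apply]
    rfl
  have h2 : y = ∑ i, y i • EuclideanSpace.single i (1 : ℝ) := by
    have := (EuclideanSpace.basisFun (Fin N) ℝ).sum_repr y
    simpa using this.symm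
  rw [h1, sum_inner]
  conv_rhs => rw [h2, map_sum]
  refine Finset.sum_congr rfl fun i _ => ?_
  rw [real_inner_smul_left, EuclideanSpace.inner_single_left, map_smul, smul_eq_mul, mul_comm]
  simp

end Pool.Agent.Lib.MP_ccbbf6_gt.L5.NEG
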