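import Pool.Agent.Lib.MP_ccbbf6_gt.L4.PO2
import Pool.Agent.Lib.MP_ccbbf6_gt.L5.NS1

/-!
# NS2: second order expansion of the speed, uniform on `Gs M` (Level 5, block NEG)
-/

set_option autoImplicit false
set_option linter.unusedSectionVars false

open Set Filter Topology Metric Real
open scoped ContDiff RealInnerProductSpace

noncomputable section

namespace Pool.Agent.Lib.MP_ccbbf6_gt.L5.NEG

open Geo L4 L4.ORI

variable {n : ℕ} {M : Type*} [MetricSpace M] [CompactSpace M] {𝒜 : SDist n M} {N : ℕ} {C : Eu N → Gs M → M}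

theorem taylor2 {Q : Type*} [NormedAddCommGroup Q] [NormedSpace ℝ Q] {g : ℝ × Q → ℝ} {y0 : Q} (hg : ContDiffAt ℝ ∞ g (0, y0))
    (h0 : ∀ᶠ y in 𝓝 y0, g (0, y) = 1) (h1 : ∀ᶠ y in 𝓝 y0, deriv (fun θ => g (θ, y)) 0 = 0) {ε : ℝ} (hε : 0 < ε) :
    ∀ᶠ z : ℝ × Q in 𝓝 (0, y0), |g z - (1 + z.1 ^ 2 / 2 * deriv (deriv (fun θ => g (θ, z.2))) 0)| ≤ ε * z.1 ^ 2 := by
  -- the functions with the variables exchanged
  let G : Q × ℝ → ℝ := fun w => g (w.2, w.1)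
  have hG : ContDiffAt ℝ ∞ G (y0, 0) :=
    ContDiffAt.comp (g := g) (f := fun w : Q × ℝ => (w.2, w.1)) (y0, 0) hg (contDiffAt_snd.prodMk contDiffAt_fst)
  let G1 : Q × ℝ → ℝ := fun w => deriv (fun t => G (w.1, t)) w.2
  have hG1 : ContDiffAt ℝ ∞ G1 (y0, 0) := PO.contDiffAt_deriv2 hG
  let G2 : Q × ℝ → ℝ := fun w => deriv (fun t => G1 (w.1, t)) w.2
  have hG2 : ContDiffAt ℝ ∞ G2 (y0, 0) := PO.contDiffAt_deriv2 hG1
  have d0 := PO.eventually_diff hG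
  have d1 := PO.eventually_diff hG1
  have c2 : ∀ᶠ w in 𝓝 (y0, (0 : ℝ)), |G2 w - G2 (y0, 0)| < ε / 2 := by
    have h2 : ContinuousAt (fun w => |G2 w - G2 (y0, 0)|) (y0, 0) := (hG2.continuousAt.sub continuousAt_const).abs
    exact h2.eventually (gt_mem_nhds (by show |G2 (y0, 0) - G2 (y0, 0)| < ε / 2; rw [sub_self, abs_zero]; positivity))
  obtain ⟨r, hr, hball⟩ := Metric.eventually_nhds_iff.mp ((d0.and d1).and c2)
  have e3 : ∀ᶠ z : ℝ × Q in 𝓝 ((0 : ℝ), y0), g (0, z.2) = 1 ∧ deriv (fun θ => g (θ, z.2)) 0 = 0 :=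
    (continuous_snd.tendsto ((0 : ℝ), y0)).eventually (h0.and h1)
  filter_upwards [e3, Metric.ball_mem_nhds _ hr] with z hz hzb
  obtain ⟨θ, y⟩ := z
  simp only at hz
  obtain ⟨hz0, hz1⟩ := hz
  rw [mem_ball, Prod.dist_eq, max_lt_iff] at hzb
  simp only at hzb
  have hin : ∀ t ∈ uIcc (0 : ℝ) θ, (DifferentiableAt ℝ G (y, t) ∧ DifferentiableAt ℝ G1 (y, t)) ∧
      |G2 (y, t) - G2 (y0, 0)| < ε / 2 := by
    intro t ht
    refine hball ?_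
    rw [Prod.dist_eq, max_lt_iff]
    refine ⟨hzb.2, ?_⟩
    have h2 := hzb.1
    rw [Real.dist_eq, sub_zero] at h2 ⊢
    have h3 : |t| ≤ |θ| := by
      have := abs_sub_left_of_mem_uIcc ht
      simpa using this
    exact lt_of_le_of_lt h3 h2
  have hD0 : ∀ t ∈ uIcc (0 : ℝ) θ, HasDerivAt (fun t => G (y, t)) (G1 (y, t)) t := fun t ht =>
    (PO.hasDerivAt_snd (z := (y, t)) (hin t ht).1.1).differentiableAt.hasDerivAt
  have hD1 : ∀ t ∈ uIcc (0 : ℝ) θ, HasDerivAt (fun t => G1 (y, t)) (G2 (y, t)) t := fun t ht =>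
    (PO.hasDerivAt_snd (z := (y, t)) (hin t ht).1.2).differentiableAt.hasDerivAt
  have hb2 : ∀ t ∈ uIcc (0 : ℝ) θ, ‖G2 (y, t) - G2 (y, 0)‖ ≤ ε := by
    intro t ht
    have a1 := (hin t ht).2
    have a2 := (hin 0 left_mem_uIcc).2
    rw [Real.norm_eq_abs]
    have a3 : G2 (y, t) - G2 (y, 0) = (G2 (y, t) - G2 (y0, 0)) - (G2 (y, 0) - G2 (y0, 0)) := by ring
    rw [a3]
    exact (abs_sub _ _).trans (by linarith)
  have hconv : Convex ℝ (uIcc (0 : ℝ) θ) := convex_uIcc 0 θ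
  -- first derivative
  have hb1 : ∀ t ∈ uIcc (0 : ℝ) θ, ‖G1 (y, t) - t * G2 (y, 0)‖ ≤ ε * |θ| := by
    intro t ht
    have key := hconv.norm_image_sub_le_of_norm_hasDerivWithin_le (f := fun t => G1 (y, t) - t * G2 (y, 0))
      (f' := fun t => G2 (y, t) - G2 (y, 0)) (C := ε)
      (fun s hs => ((hD1 s hs).sub (by simpa using (hasDerivAt_id s).mul_const (G2 (y, 0)))).hasDerivWithinAt) hb2
      left_mem_uIcc ht
    have h2 : G1 (y, 0) = 0 := hz1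
    simp only [h2, zero_mul, sub_zero] at key
    refine key.trans (mul_le_mul_of_nonneg_left ?_ hε.le)
    rw [Real.norm_eq_abs]
    have := abs_sub_left_of_mem_uIcc ht
    simpa using this
  have key := hconv.norm_image_sub_le_of_norm_hasDerivWithin_le (f := fun t => G (y, t) - t ^ 2 / 2 * G2 (y, 0))
    (f' := fun t => G1 (y, t) - t * G2 (y, 0)) (C := ε * |θ|)
    (fun s hs => ((hD0 s hs).sub (by
      have h2 : HasDerivAt (fun t : ℝ => t ^ 2 / 2 * G2 (y, 0)) (2 * s / 2 * G2 (y, 0)) s := by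
        simpa using (((hasDerivAt_pow 2 s).div_const 2).mul_const (G2 (y, 0)))
      rw [show 2 * s / 2 = s by ring] at h2
      exact h2)).hasDerivWithinAt) hb1 left_mem_uIcc right_mem_uIcc
  have h2 : G (y, 0) = 1 := hz0
  have h3 : deriv (deriv (fun θ => g (θ, y))) 0 = G2 (y, 0) := rfl
  have h4 : G (y, θ) = g (θ, y) := rfl
  rw [h2, h4, Real.norm_eq_abs, Real.norm_eq_abs, sub_zero] at key
  rw [h3]
  have h5 : g (θ, y) - (1 + θ ^ 2 / 2 * G2 (y, 0)) = g (θ, y) - θ ^ 2 / 2 * G2 (y, 0) - (1 - 0 ^ 2 / 2 * G2 (y, 0)) := by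
    ring
  show |g (θ, y) - (1 + θ ^ 2 / 2 * G2 (y, 0))| ≤ ε * θ ^ 2
  rw [h5]
  refine key.trans (le_of_eq ?_)
  rw [mul_assoc, abs_mul_abs_self]
  ring

/-- derivatives along lines -/
theorem line_deriv {f : Eu N → ℝ} (hf : ContDiffAt ℝ ∞ f 0) (ξ : Eu N) :
    deriv (fun θ : ℝ => f (θ • ξ)) 0 = fderiv ℝ f 0 ξ ∧
      deriv (deriv (fun θ : ℝ => f (θ • ξ))) 0 = fderiv ℝ (fderiv ℝ f) 0 ξ ξ := by
  have hl : ∀ t : ℝ, HasDerivAt (fun θ : ℝ => θ • ξ) ξ t := by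
    intro t
    have := (hasDerivAt_id t).smul_const ξ
    rwa [one_smul] at this
  have h1 : ∀ᶠ t in 𝓝 (0 : ℝ), deriv (fun θ : ℝ => f (θ • ξ)) t = fderiv ℝ f (t • ξ) ξ := by
    have h2 : Tendsto (fun θ : ℝ => θ • ξ) (𝓝 0) (𝓝 0) := by
      have := (hl 0).continuousAt.tendsto
      rwa [zero_smul] at this
    filter_upwards [h2.eventually (PO.eventually_diff hf)] with t ht
    exact (HasFDerivAt.comp_hasDerivAt (l := f) (f := fun θ : ℝ => θ • ξ) t ht.hasFDerivAt (hl t)).deriv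
  refine ⟨by rw [h1.self_of_nhds, zero_smul], ?_⟩
  rw [(show deriv (fun θ : ℝ => f (θ • ξ)) =ᶠ[𝓝 0] fun t => fderiv ℝ f (t • ξ) ξ from h1).deriv_eq]
  have h2 : DifferentiableAt ℝ (fderiv ℝ f) 0 := (hf.fderiv_right (m := ∞) (by simp)).differentiableAt (by simp)
  have h3 : HasFDerivAt (fderiv ℝ f) (fderiv ℝ (fderiv ℝ f) 0) ((fun θ : ℝ => θ • ξ) 0) := by
    show HasFDerivAt _ _ ((0 : ℝ) • ξ)
    rw [zero_smul]
    exact h2.hasFDerivAt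
  have h4 := HasFDerivAt.comp_hasDerivAt (l := fderiv ℝ f) (f := fun θ : ℝ => θ • ξ) (0 : ℝ) h3 (hl 0)
  have h5 := h4.clm_apply (hasDerivAt_const (0 : ℝ) ξ)
  simpa using h5.deriv

theorem PFam.s2_expand [Nonempty (Gs M)] (hB : Bl M) (e : Emb n 𝒜) (hC : PFam 𝒜 C) {ε : ℝ} (hε : 0 < ε) :
    ∃ θ₀ : ℝ, 0 < θ₀ ∧ ∀ θ, |θ| < θ₀ → ∀ (c : Gs M) (ξ : Eu N), ‖ξ‖ ≤ 1 →
      |s2 𝒜 C c (θ • ξ) - (1 - 2 * θ ^ 2 * LamB 𝒜 C c ξ ξ)| ≤ ε * θ ^ 2 := by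
  have hs0 : ∀ c, ContDiffAt ℝ ∞ (s2 𝒜 C c) 0 := fun c =>
    hC.s2_smooth hB (smGAt_const c (0 : Eu N)) (ξ := fun ξ => ξ) contDiffAt_id
  have hK : IsCompact ((univ : Set (Gs M)) ×ˢ closedBall (0 : Eu N) 1) := isCompact_univ.prod (isCompact_closedBall _ _)
  have key := hK.eventually_forall_of_forall_eventually (x₀ := (0 : ℝ)) (P := fun θ (z : Gs M × Eu N) =>
    |s2 𝒜 C z.1 (θ • z.2) - (1 - 2 * θ ^ 2 * LamB 𝒜 C z.1 z.2 z.2)| ≤ ε * θ ^ 2) ?_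
  · obtain ⟨r, hr, hball⟩ := Metric.eventually_nhds_iff.mp key
    refine ⟨r, hr, fun θ hθ c ξ hξ => ?_⟩
    refine @hball θ (by rw [Real.dist_eq, sub_zero]; exact hθ) (c, ξ) ⟨trivial, ?_⟩
    rw [mem_closedBall, dist_zero_right]
    exact hξ
  · rintro ⟨c0, ξ0⟩ -
    have hg : ContDiffAt ℝ ∞ (fun z : ℝ × (e.Q × Eu N) => s2 𝒜 C (e.RR z.2.1) (z.1 • z.2.2)) (0, (e.EE c0, ξ0)) := by
      refine hC.s2_smooth hB (SmGAt.comp (σ := e.RR) (f := fun z : ℝ × (e.Q × Eu N) => z.2.1)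
        (v := (0, (e.EE c0, ξ0))) (e.smG_RR hB (e.EE_mem c0)) (contDiffAt_fst.comp _ contDiffAt_snd)) ?_
      exact contDiffAt_fst.smul (contDiffAt_snd.comp _ contDiffAt_snd)
    have h1 := taylor2 hg (Eventually.of_forall fun y => by
      simp only [zero_smul]
      exact hC.s2_zero hB _) (Eventually.of_forall fun y => by
      have := (line_deriv (hs0 (e.RR y.1)) y.2).1
      rw [hC.first] at this
      exact this) hε
    have h2 : Continuous (fun z : ℝ × (Gs M × Eu N) => (z.1, (e.EE z.2.1, z.2.2))) :=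
      continuous_fst.prodMk ((e.continuous_EE.comp (continuous_fst.comp continuous_snd)).prodMk
        (continuous_snd.comp continuous_snd))
    filter_upwards [(h2.tendsto (0, (c0, ξ0))).eventually h1] with z hz
    obtain ⟨θ, c, ξ⟩ := z
    simp only [e.RR_EE hB] at hz
    rw [(line_deriv (hs0 c) ξ).2] at hz
    have h3 : LamB 𝒜 C c ξ ξ = -(1 / 4) * fderiv ℝ (fderiv ℝ (s2 𝒜 C c)) 0 ξ ξ := rfl
    simp only
    rw [h3]
    have h4 : (1 - 2 * θ ^ 2 * (-(1 / 4) * fderiv ℝ (fderiv ℝ (s2 𝒜 C c)) 0 ξ ξ)) =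
        1 + θ ^ 2 / 2 * fderiv ℝ (fderiv ℝ (s2 𝒜 C c)) 0 ξ ξ := by ring
    rw [h4]
    exact hz

end Pool.Agent.Lib.MP_ccbbf6_gt.L5.NEG
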