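import Pool.Agent.Lib.MP_ccbbf6_gt.L4.PO1
import Pool.Agent.Lib.MP_ccbbf6_gt.L4.SM3

/-!
# ZPa: one variable and parameter lemmas (Level 5, push-off)
-/

set_option autoImplicit false
set_option linter.unusedSectionVars false

open Set Filter Topology Metric Real MeasureTheory
open scoped ContDiff RealInnerProductSpace

noncomputable section

namespace Pool.Agent.Lib.MP_ccbbf6_gt.L5

open L4

/-- local version of `contDiff_param` -/
theorem contDiffAt_param {Q F : Type} [NormedAddCommGroup Q] [NormedSpace ℝ Q] [FiniteDimensional ℝ Q]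
    [NormedAddCommGroup F] [NormedSpace ℝ F] [CompleteSpace F] {f : Q × ℝ → F} {y0 : Q} {U : Set Q} (hU : U ∈ 𝓝 y0)
    (hf : ∀ y ∈ U, ∀ t, ContDiffAt ℝ ∞ f (y, t)) (a b : ℝ) :
    ContDiffAt ℝ ∞ (fun y => ∫ t in a..b, f (y, t)) y0 := by
  obtain ⟨β, hβ, hβU, hβe⟩ := exists_to_ball y0 hU
  have h1 : ContDiff ℝ ∞ (fun z : Q × ℝ => f (β z.1, z.2)) := by
    rw [contDiff_iff_contDiffAt]
    rintro ⟨y, t⟩
    refine ContDiffAt.comp (g := f) (f := fun z : Q × ℝ => (β z.1, z.2)) (y, t) (hf _ (hβU y) t) ?_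
    exact (hβ.contDiffAt.comp (y, t) contDiffAt_fst).prodMk contDiffAt_snd
  have h2 := (contDiff_param h1 a b).contDiffAt (x := y0)
  refine h2.congr_of_eventuallyEq ?_
  filter_upwards [hβe] with y hy
  simp only [hy, id]

/-- a weighted integral which is a primitive along the flow -/
theorem hasDerivAt_weighted {h : ℝ → ℝ} (hc : Continuous h) {P : ℝ} (hP : 0 < P) (hp : ∀ s, h (s + P) = h s)
    (h0 : ∫ s in (0 : ℝ)..P, h s = 0) (t : ℝ) :
    HasDerivAt (fun t => P⁻¹ * ∫ s in (0 : ℝ)..P, s * h (s + t)) (h t) t := by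
  have hper : Function.Periodic h P := hp
  have hI : ∀ t, ∫ u in t..(t + P), h u = 0 := by
    intro t
    rw [hper.intervalIntegral_add_eq t 0, zero_add, h0]
  have hq : Continuous (fun u => u * h u) := continuous_id.mul hc
  have e1 : ∀ t, ∫ s in (0 : ℝ)..P, s * h (s + t) =
      (∫ u in (0 : ℝ)..(t + P), u * h u) - ∫ u in (0 : ℝ)..t, u * h u := by
    intro t
    have h1 : (fun s => s * h (s + t)) = fun s => (fun u => (u - t) * h u) (s + t) := by
      funext s
      simp only [add_sub_cancel_right]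
    rw [h1, intervalIntegral.integral_comp_add_right (fun u => (u - t) * h u) t, zero_add, add_comm P t]
    have h2 : (fun u => (u - t) * h u) = fun u => u * h u - t * h u := by
      funext u
      ring
    have hq2 : Continuous (fun u => t * h u) := continuous_const.mul hc
    rw [h2, intervalIntegral.integral_sub (hq.intervalIntegrable _ _) (hq2.intervalIntegrable _ _),
      intervalIntegral.integral_const_mul, hI, mul_zero, sub_zero]
    exact (intervalIntegral.integral_interval_sub_left (hq.intervalIntegrable _ _) (hq.intervalIntegrable _ _)).symm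
  have e2 : (fun t => P⁻¹ * ∫ s in (0 : ℝ)..P, s * h (s + t)) = fun t =>
      P⁻¹ * ((∫ u in (0 : ℝ)..(t + P), u * h u) - ∫ u in (0 : ℝ)..t, u * h u) := by
    funext t
    rw [e1]
  rw [e2]
  have d1 : ∀ x, HasDerivAt (fun x => ∫ u in (0 : ℝ)..x, u * h u) (x * h x) x := fun x =>
    intervalIntegral.integral_hasDerivAt_right (hq.intervalIntegrable _ _)
      hq.aestronglyMeasurable.stronglyMeasurableAtFilter hq.continuousAt
  have d2 : HasDerivAt (fun t => ∫ u in (0 : ℝ)..(t + P), u * h u) ((t + P) * h (t + P)) t := (d1 (t + P)).comp_add_const t P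
  have d3 := (d2.sub (d1 t)).const_mul P⁻¹
  refine d3.congr_deriv ?_
  rw [hp]
  field_simp
  ring

/-- division by the first variable -/
theorem hadamard {X : Type*} [TopologicalSpace X] {L : ℝ → X → ℝ} {L' : ℝ × X → ℝ} (hc : Continuous L')
    (hd : ∀ θ x, HasDerivAt (fun θ => L θ x) (L' (θ, x)) θ) (h0 : ∀ x, L 0 x = 0) :
    ∃ q : ℝ × X → ℝ, Continuous q ∧ (∀ x, q (0, x) = L' (0, x)) ∧ ∀ θ x, L θ x = θ * q (θ, x) := by
  refine ⟨fun z => ∫ t in (0 : ℝ)..1, L' (t * z.1, z.2), ?_, fun x => ?_, fun θ x => ?_⟩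
  · have h1 : Continuous (Function.uncurry fun (z : ℝ × X) (t : ℝ) => L' (t * z.1, z.2)) := by
      have : Continuous (fun w : (ℝ × X) × ℝ => (w.2 * w.1.1, w.1.2)) := by fun_prop
      exact hc.comp this
    exact intervalIntegral.continuous_parametric_intervalIntegral_of_continuous' h1 0 1
  · simp
  · have h1 : ∀ t ∈ uIcc (0 : ℝ) 1, HasDerivAt (fun t => L (t * θ) x) (L' (t * θ, x) * θ) t := by
      intro t _
      have h2 : HasDerivAt (fun t : ℝ => t * θ) θ t := by simpa using (hasDerivAt_id t).mul_const θ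
      exact (hd (t * θ) x).comp t h2
    have h2 : Continuous (fun t : ℝ => L' (t * θ, x) * θ) := by
      have : Continuous (fun t : ℝ => (t * θ, x)) := by fun_prop
      exact (hc.comp this).mul continuous_const
    have h3 := intervalIntegral.integral_eq_sub_of_hasDerivAt h1 (h2.intervalIntegrable 0 1)
    rw [one_mul, zero_mul, h0, sub_zero, intervalIntegral.integral_mul_const] at h3
    rw [← h3, mul_comm]

end Pool.Agent.Lib.MP_ccbbf6_gt.L5
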