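import Pool.Agent.Lib.MP_ccbbf6_gt.L4.PO4a
import Pool.Agent.Lib.MP_ccbbf6_gt.L5.NS2
import Pool.Agent.Lib.MP_ccbbf6_gt.L5.ZPa

/-!
# NS3: the equivariant shift `aa` and the push-off `Cx` (Level 5, block NEG)
-/

set_option autoImplicit false
set_option linter.unusedSectionVars false

open Set Filter Topology Metric Real
open scoped ContDiff RealInnerProductSpace

noncomputable section

namespace Pool.Agent.Lib.MP_ccbbf6_gt.L5.NEG

open Geo L4 L4.ORI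

variable {n : ℕ} {M : Type*} [MetricSpace M] [CompactSpace M] {𝒜 : SDist n M} {N : ℕ} {C : Eu N → Gs M → M}

/-- the density minus its mean value -/
def dd (𝒜 : SDist n M) (C : Eu N → Gs M → M) (c : Gs M) (ξ : Eu N) : ℝ :=
  LamB 𝒜 C c ξ ξ - (2 * π)⁻¹ * QB 𝒜 C c ξ ξ

theorem PFam.smooth_LamB_ap (hB : Bl M) (hC : PFam 𝒜 C) {F : Type} [NormedAddCommGroup F] [NormedSpace ℝ F]
    {σ : F → Gs M} {ξ : F → Eu N} {u : F} (hσ : SmGAt 𝒜 σ u) (hξ : ContDiffAt ℝ ∞ ξ u) :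
    ContDiffAt ℝ ∞ (fun v => LamB 𝒜 C (σ v) (ξ v) (ξ v)) u :=
  ((hC.LamB_smooth hB hσ).clm_apply hξ).clm_apply hξ

theorem PFam.smooth_QB_ap [Nonempty (Gs M)] (hB : Bl M) (e : Emb n 𝒜) (hC : PFam 𝒜 C) {F : Type}
    [NormedAddCommGroup F] [NormedSpace ℝ F] {σ : F → Gs M} {ξ : F → Eu N} {u : F} (hσ : SmGAt 𝒜 σ u)
    (hξ : ContDiffAt ℝ ∞ ξ u) : ContDiffAt ℝ ∞ (fun v => QB 𝒜 C (σ v) (ξ v) (ξ v)) u :=
  ((hC.QB_smooth hB e hσ).clm_apply hξ).clm_apply hξ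

theorem PFam.smooth_dd [Nonempty (Gs M)] (hB : Bl M) (e : Emb n 𝒜) (hC : PFam 𝒜 C) {F : Type}
    [NormedAddCommGroup F] [NormedSpace ℝ F] {σ : F → Gs M} {ξ : F → Eu N} {u : F} (hσ : SmGAt 𝒜 σ u)
    (hξ : ContDiffAt ℝ ∞ ξ u) : ContDiffAt ℝ ∞ (fun v => dd 𝒜 C (σ v) (ξ v)) u :=
  (hC.smooth_LamB_ap hB hσ hξ).sub (contDiffAt_const.mul (hC.smooth_QB_ap hB e hσ hξ))

/-- continuity of functions with values in a normed space -/
theorem cont_of_smooth [Nonempty (Gs M)] (hB : Bl M) (e : Emb n 𝒜) {W G : Type} [NormedAddCommGroup W] [NormedSpace ℝ W]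
    [NormedAddCommGroup G] [NormedSpace ℝ G] {f : Gs M → W → G}
    (h : ∀ (σ : e.Q × W → Gs M) (x : e.Q × W → W) (u : e.Q × W), SmGAt 𝒜 σ u → ContDiffAt ℝ ∞ x u →
      ContDiffAt ℝ ∞ (fun v => f (σ v) (x v)) u) : Continuous (fun z : Gs M × W => f z.1 z.2) := by
  rw [continuous_iff_continuousAt]
  rintro ⟨c, w⟩
  have h1 := (h (fun z => e.RR z.1) (fun z => z.2) (e.EE c, w) (SmGAt.comp (σ := e.RR) (f := fun z : e.Q × W => z.1)
    (v := (e.EE c, w)) (e.smG_RR hB (e.EE_mem c)) contDiffAt_fst) contDiffAt_snd).continuousAt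
  have h2 : Continuous (fun z : Gs M × W => (e.EE z.1, z.2)) := (e.continuous_EE.comp continuous_fst).prodMk continuous_snd
  have h3 := ContinuousAt.comp (g := fun z : e.Q × W => f (e.RR z.1) z.2) (f := fun z : Gs M × W => (e.EE z.1, z.2))
    (x := (c, w)) h1 h2.continuousAt
  simp only [Function.comp_def, e.RR_EE hB] at h3
  exact h3

theorem PFam.cont_LamB_ap [Nonempty (Gs M)] (hB : Bl M) (e : Emb n 𝒜) (hC : PFam 𝒜 C) :
    Continuous (fun z : Gs M × Eu N => LamB 𝒜 C z.1 z.2 z.2) :=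
  cont_of_smooth hB e (f := fun c ξ => LamB 𝒜 C c ξ ξ) fun _ _ _ hσ hx => hC.smooth_LamB_ap hB hσ hx

theorem PFam.cont_dd [Nonempty (Gs M)] (hB : Bl M) (e : Emb n 𝒜) (hC : PFam 𝒜 C) :
    Continuous (fun z : Gs M × Eu N => dd 𝒜 C z.1 z.2) :=
  cont_of_smooth hB e (f := fun c ξ => dd 𝒜 C c ξ) fun _ _ _ hσ hx => hC.smooth_dd hB e hσ hx

theorem LamB_smul_ap (𝒜 : SDist n M) (C : Eu N → Gs M → M) (c : Gs M) (r : ℝ) (x : Eu N) :
    LamB 𝒜 C c (r • x) (r • x) = r ^ 2 * LamB 𝒜 C c x x := by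
  simp only [map_smul, FunLike.coe_smul, Pi.smul_apply, smul_eq_mul]
  ring

theorem dd_smul (𝒜 : SDist n M) (C : Eu N → Gs M → M) (c : Gs M) (r : ℝ) (x : Eu N) :
    dd 𝒜 C c (r • x) = r ^ 2 * dd 𝒜 C c x := by
  unfold dd
  rw [LamB_smul_ap]
  simp only [map_smul, FunLike.coe_smul, Pi.smul_apply, smul_eq_mul]
  ring

theorem aa_eq (hB : Bl M) (C : Eu N → Gs M → M) (c : Gs M) (ξ : Eu N) :
    aa 𝒜 C c ξ = (2 * π)⁻¹ * ∫ s in (0 : ℝ)..(2 * π), s * dd 𝒜 C (shift s c) ξ := by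
  unfold aa dd
  simp only [QB_shift 𝒜 hB]

theorem PFam.aa_deriv [Nonempty (Gs M)] (hB : Bl M) (e : Emb n 𝒜) (hC : PFam 𝒜 C) (c : Gs M) (ξ : Eu N) (t : ℝ) :
    HasDerivAt (fun t => aa 𝒜 C (shift t c) ξ) (LamB 𝒜 C (shift t c) ξ ξ - (2 * π)⁻¹ * QB 𝒜 C c ξ ξ) t := by
  have hπ := Real.pi_pos
  have hc : Continuous (fun s => dd 𝒜 C (shift s c) ξ) := by
    have h1 : Continuous (fun s : ℝ => (shift s c, ξ)) :=
      (gs_continuous_shift.comp (f := fun s : ℝ => (s, c)) (by fun_prop)).prodMk continuous_const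
    have h2 := (hC.cont_dd hB e).comp h1
    exact h2
  have hp : ∀ s, dd 𝒜 C (shift (s + 2 * π) c) ξ = dd 𝒜 C (shift s c) ξ := by
    intro s
    rw [shift_add, shift_per 𝒜 hB]
  have h0 : ∫ s in (0 : ℝ)..(2 * π), dd 𝒜 C (shift s c) ξ = 0 := by
    have hL : Continuous (fun s => LamB 𝒜 C (shift s c) ξ ξ) := by
      have h1 : Continuous (fun s : ℝ => (shift s c, ξ)) :=
        (gs_continuous_shift.comp (f := fun s : ℝ => (s, c)) (by fun_prop)).prodMk continuous_const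
      have h2 := (hC.cont_LamB_ap hB e).comp h1
      exact h2
    unfold dd
    simp only [QB_shift 𝒜 hB]
    rw [intervalIntegral.integral_sub (hL.intervalIntegrable _ _) (continuous_const.intervalIntegrable _ _),
      ← hC.QB_apply hB e, intervalIntegral.integral_const, sub_zero, smul_eq_mul]
    field_simp
    ring
  have key := hasDerivAt_weighted hc (by positivity : (0 : ℝ) < 2 * π) hp h0 t
  have e1 : (fun t => aa 𝒜 C (shift t c) ξ) = fun t => (2 * π)⁻¹ * ∫ s in (0 : ℝ)..(2 * π), s * dd 𝒜 C (shift (s + t) c) ξ := by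
    funext t
    rw [aa_eq hB]
    simp only [← shift_add]
  rw [e1]
  refine key.congr_deriv ?_
  unfold dd
  rw [QB_shift 𝒜 hB]

theorem PFam.aa_smooth [Nonempty (Gs M)] (hB : Bl M) (e : Emb n 𝒜) (hC : PFam 𝒜 C) {F : Type} [NormedAddCommGroup F] [NormedSpace ℝ F]
    {σ : F → Gs M} {ξ : F → Eu N} {u : F} (hσ : SmGAt 𝒜 σ u) (hξ : ContDiffAt ℝ ∞ ξ u) :
    ContDiffAt ℝ ∞ (fun v => aa 𝒜 C (σ v) (ξ v)) u := by
  have h1 : ContDiffAt ℝ ∞ (fun w : e.Q × Eu N => aa 𝒜 C (e.RR w.1) w.2) (e.EE (σ u), ξ u) := by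
    have hU : (Prod.fst : e.Q × Eu N → e.Q) ⁻¹' e.UU ∈ 𝓝 (e.EE (σ u), ξ u) :=
      continuous_fst.continuousAt.preimage_mem_nhds (e.isOpen_UU.mem_nhds (e.EE_mem _))
    have h2 := contDiffAt_param (f := fun w : (e.Q × Eu N) × ℝ => w.2 * dd 𝒜 C (shift w.2 (e.RR w.1.1)) w.1.2) hU ?_ 0
      (2 * π)
    · have h3 := (contDiffAt_const (c := (2 * π)⁻¹)).mul h2
      refine h3.congr_of_eventuallyEq (Eventually.of_forall fun w => ?_)
      exact aa_eq hB C _ _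
    rintro ⟨y, x⟩ hw t
    have h3 : SmGAt 𝒜 (fun w : (e.Q × Eu N) × ℝ => e.RR w.1.1) ((y, x), t) :=
      SmGAt.comp (σ := e.RR) (f := fun w : (e.Q × Eu N) × ℝ => w.1.1) (v := ((y, x), t)) (e.smG_RR hB hw)
        (contDiffAt_fst.comp _ contDiffAt_fst)
    exact contDiffAt_snd.mul (hC.smooth_dd hB e (h3.shift hB contDiffAt_snd) (contDiffAt_snd.comp _ contDiffAt_fst))
  have h2 := ContDiffAt.comp (g := fun w : e.Q × Eu N => aa 𝒜 C (e.RR w.1) w.2) (f := fun v => (e.EE (σ v), ξ v)) u h1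
    ((e.smooth_EE hσ).prodMk hξ)
  simp only [Function.comp_def, e.RR_EE hB] at h2
  exact h2

theorem PFam.smooth_Cx [Nonempty (Gs M)] (hB : Bl M) (e : Emb n 𝒜) (hC : PFam 𝒜 C) {F : Type} [NormedAddCommGroup F] [NormedSpace ℝ F]
    {σ : F → Gs M} {x : F → Eu N} {u : F} (hσ : SmGAt 𝒜 σ u) (hx : ContDiffAt ℝ ∞ x u) :
    SmAt 𝒜 (fun v => Cx 𝒜 C (x v) (σ v)) u := by
  unfold Cx
  exact hC.smooth (hσ.shift hB (hC.aa_smooth hB e hσ hx)) hx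

theorem aa_smul (C : Eu N → Gs M → M) (c : Gs M) (r : ℝ) (x : Eu N) : aa 𝒜 C c (r • x) = r ^ 2 * aa 𝒜 C c x := by
  unfold aa
  have h1 : (fun s => s * (LamB 𝒜 C (shift s c) (r • x) (r • x) - (2 * π)⁻¹ * QB 𝒜 C c (r • x) (r • x))) = fun s =>
      r ^ 2 * (s * (LamB 𝒜 C (shift s c) x x - (2 * π)⁻¹ * QB 𝒜 C c x x)) := by
    funext s
    rw [LamB_smul_ap]
    simp only [map_smul, FunLike.coe_smul, Pi.smul_apply, smul_eq_mul]
    ring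
  rw [h1, intervalIntegral.integral_const_mul]
  ring

theorem PFam.Cx_zero (hC : PFam 𝒜 C) (c : Gs M) : Cx 𝒜 C 0 c = c.1 0 := by
  unfold Cx
  have h := aa_smul (𝒜 := 𝒜) C c 0 0
  rw [zero_smul, zero_pow two_ne_zero, zero_mul] at h
  rw [hC.zero, h]
  show c.1 (0 + 0) = c.1 0
  rw [add_zero]

/-- the first order variation of `Cx` is the one of `C` -/
theorem PFam.Cx_var [Nonempty (Gs M)] (hB : Bl M) (e : Emb n 𝒜) (hC : PFam 𝒜 C) (ξ : Eu N) (c : Gs M) :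
    HasDerivAt (fun θ : ℝ => 𝒜.ψ (c.1 0) (Cx 𝒜 C (θ • ξ) c)) (X1 𝒜 C c ξ) 0 := by
  have hs : ContDiffAt ℝ ∞ (fun z : Eu N × ℝ => 𝒜.ψ (c.1 0) (C z.1 (shift z.2 c))) (0, 0) := by
    have h1 : SmGAt 𝒜 (fun z : Eu N × ℝ => shift z.2 c) (0, 0) := (smGAt_const c ((0 : Eu N), (0 : ℝ))).shift hB contDiffAt_snd
    have h2 := (hC.smooth h1 (ξ := fun z : Eu N × ℝ => z.1) contDiffAt_fst).2
    simp only [hC.zero, shift_zero] at h2
    exact h2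
  have hd := (hs.differentiableAt (by simp)).hasFDerivAt
  have h1 : HasDerivAt (fun θ : ℝ => (θ • ξ, θ ^ 2 * aa 𝒜 C c ξ)) (ξ, (0 : ℝ)) 0 := by
    have a1 : HasDerivAt (fun θ : ℝ => θ • ξ) ξ 0 := by
      have := (hasDerivAt_id (0 : ℝ)).smul_const ξ
      rwa [one_smul] at this
    have a2 : HasDerivAt (fun θ : ℝ => θ ^ 2 * aa 𝒜 C c ξ) 0 0 := by
      have := (hasDerivAt_pow 2 (0 : ℝ)).mul_const (aa 𝒜 C c ξ)
      simpa using this
    exact a1.prodMk a2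
  have h2 : HasFDerivAt (fun z : Eu N × ℝ => 𝒜.ψ (c.1 0) (C z.1 (shift z.2 c)))
      (fderiv ℝ (fun z : Eu N × ℝ => 𝒜.ψ (c.1 0) (C z.1 (shift z.2 c))) (0, 0))
      ((fun θ : ℝ => (θ • ξ, θ ^ 2 * aa 𝒜 C c ξ)) 0) := by
    show HasFDerivAt _ _ ((0 : ℝ) • ξ, (0 : ℝ) ^ 2 * aa 𝒜 C c ξ)
    rw [zero_smul, zero_pow two_ne_zero, zero_mul]
    exact hd
  have h3 := HasFDerivAt.comp_hasDerivAt (l := fun z : Eu N × ℝ => 𝒜.ψ (c.1 0) (C z.1 (shift z.2 c)))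
    (f := fun θ : ℝ => (θ • ξ, θ ^ 2 * aa 𝒜 C c ξ)) (0 : ℝ) h2 h1
  have h4 : fderiv ℝ (fun z : Eu N × ℝ => 𝒜.ψ (c.1 0) (C z.1 (shift z.2 c))) (0, 0) (ξ, 0) = X1 𝒜 C c ξ := by
    have b1 : HasFDerivAt (fun x : Eu N => (x, (0 : ℝ))) (ContinuousLinearMap.inl ℝ (Eu N) ℝ) 0 :=
      hasFDerivAt_prodMk_left (0 : Eu N) (0 : ℝ)
    have b2 := HasFDerivAt.comp (g := fun z : Eu N × ℝ => 𝒜.ψ (c.1 0) (C z.1 (shift z.2 c)))
      (f := fun x : Eu N => (x, (0 : ℝ))) 0 hd b1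
    have b3 : (fun z : Eu N × ℝ => 𝒜.ψ (c.1 0) (C z.1 (shift z.2 c))) ∘ (fun x : Eu N => (x, (0 : ℝ))) =
        fun x : Eu N => 𝒜.ψ (c.1 0) (C x c) := by
      funext x
      simp only [Function.comp_def, shift_zero]
    rw [b3] at b2
    unfold X1
    rw [b2.fderiv]
    rfl
  rw [h4] at h3
  refine h3.congr_of_eventuallyEq (Eventually.of_forall fun θ => ?_)
  simp only [Function.comp_def, Cx, aa_smul]

theorem PFam.continuous_Cx [Nonempty (Gs M)] (hB : Bl M) (e : Emb n 𝒜) (hC : PFam 𝒜 C) :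
    Continuous (fun z : Eu N × Gs M => Cx 𝒜 C z.1 z.2) := by
  rw [continuous_iff_continuousAt]
  rintro ⟨ξ, c⟩
  have h1 : ContinuousAt (fun w : Eu N × e.Q => Cx 𝒜 C w.1 (e.RR w.2)) (ξ, e.EE c) :=
    (hC.smooth_Cx hB e (SmGAt.comp (σ := e.RR) (f := fun w : Eu N × e.Q => w.2) (v := (ξ, e.EE c))
      (e.smG_RR hB (e.EE_mem c)) contDiffAt_snd) contDiffAt_fst).cont
  have h2 : Continuous (fun z : Eu N × Gs M => (z.1, e.EE z.2)) := continuous_fst.prodMk (e.continuous_EE.comp continuous_snd)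
  have h3 := ContinuousAt.comp (g := fun w : Eu N × e.Q => Cx 𝒜 C w.1 (e.RR w.2))
    (f := fun z : Eu N × Gs M => (z.1, e.EE z.2)) (x := (ξ, c)) h1 h2.continuousAt
  simp only [Function.comp_def, e.RR_EE hB] at h3
  exact h3

/-- the speed of the loop at time `0` -/
theorem PFam.Cx_speed [Nonempty (Gs M)] (hB : Bl M) (e : Emb n 𝒜) (hC : PFam 𝒜 C) (x : Eu N) (c : Gs M) :
    ∃ v : Eu n, HasDerivAt (fun s => 𝒜.ψ (Cx 𝒜 C x c) (Cx 𝒜 C x (shift s c))) v 0 ∧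
      ‖v‖ ^ 2 = (1 + dd 𝒜 C c x) ^ 2 * s2 𝒜 C (shift (aa 𝒜 C c x) c) x := by
  set φ0 := aa 𝒜 C c x with hφ0
  set c' := shift φ0 c with hc'
  have hx0 : Cx 𝒜 C x c = C x c' := rfl
  rw [hx0]
  set D := deriv (fun s => 𝒜.ψ (C x c') (C x (shift s c'))) 0 with hD
  have d1 : HasDerivAt (fun s => 𝒜.ψ (C x c') (C x (shift s c'))) D 0 := by
    have h1 : SmAt 𝒜 (fun s : ℝ => C x (shift s c')) 0 :=
      hC.smooth ((smGAt_const c' (0 : ℝ)).shift hB contDiffAt_id) (ξ := fun _ => x) contDiffAt_const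
    have h2 := h1.2
    simp only [shift_zero] at h2
    exact (h2.differentiableAt (by simp)).hasDerivAt
  have d2 : HasDerivAt (fun u => 𝒜.ψ (C x c') (C x (shift u c))) D φ0 := by
    have h1 : HasDerivAt (fun s => 𝒜.ψ (C x c') (C x (shift s c'))) D (φ0 - φ0) := by rw [sub_self]; exact d1
    have h2 := h1.comp_sub_const φ0 φ0
    refine h2.congr_of_eventuallyEq (Eventually.of_forall fun u => ?_)
    simp only [hc', ← shift_add, sub_add_cancel]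
  have d3 : HasDerivAt (fun s => aa 𝒜 C (shift s c) x + s) (dd 𝒜 C c x + 1) 0 := by
    have h1 := (hC.aa_deriv hB e c x 0).add (hasDerivAt_id (0 : ℝ))
    refine h1.congr_deriv ?_
    unfold dd
    rw [shift_zero]
  have d4 : HasDerivAt (fun u => 𝒜.ψ (C x c') (C x (shift u c))) D ((fun s => aa 𝒜 C (shift s c) x + s) 0) := by
    show HasDerivAt _ D (aa 𝒜 C (shift 0 c) x + 0)
    rw [shift_zero, add_zero]
    exact d2
  have d5 := HasDerivAt.scomp (h := fun s => aa 𝒜 C (shift s c) x + s) (0 : ℝ) d4 d3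
  refine ⟨(dd 𝒜 C c x + 1) • D, ?_, ?_⟩
  · refine d5.congr_of_eventuallyEq (Eventually.of_forall fun s => ?_)
    simp only [Function.comp_def, Cx, ← shift_add]
  · rw [norm_smul, mul_pow, Real.norm_eq_abs, sq_abs, add_comm (1 : ℝ)]
    rfl

/-- Lipschitz constant from the squares of the speeds -/
theorem PFam.lip_of_sq [Nonempty (Gs M)] (hB : Bl M) (e : Emb n 𝒜) (hC : PFam 𝒜 C) (x : Eu N) (c : Gs M) {L : ℝ}
    (h : ∀ t : ℝ, (1 + dd 𝒜 C (shift t c) x) ^ 2 * s2 𝒜 C (shift (aa 𝒜 C (shift t c) x) (shift t c)) x ≤ L) :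
    CO.Lip (√L) (fun t => Cx 𝒜 C x (shift t c)) := by
  refine PO.lip_of_speed (α := fun t => Cx 𝒜 C x (shift t c)) fun t μ hμ => ?_
  have hsm : SmAt 𝒜 (fun t : ℝ => Cx 𝒜 C x (shift t c)) t :=
    hC.smooth_Cx hB e ((smGAt_const c t).shift hB (r := fun s => s) contDiffAt_id) (x := fun _ => x) contDiffAt_const
  obtain ⟨v, hv, hn⟩ := hC.Cx_speed hB e x (shift t c)
  have h1 : HasDerivAt (fun s => 𝒜.ψ (Cx 𝒜 C x (shift t c)) (Cx 𝒜 C x (shift s (shift t c)))) v (t - t) := by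
    rw [sub_self]; exact hv
  have h3 := h1.comp_sub_const t t
  have h4 : (fun s => 𝒜.ψ (Cx 𝒜 C x (shift t c)) (Cx 𝒜 C x (shift (s - t) (shift t c)))) =
      fun s => 𝒜.ψ (Cx 𝒜 C x (shift t c)) (Cx 𝒜 C x (shift s c)) := by
    funext s
    rw [← shift_add, sub_add_cancel]
  rw [h4] at h3
  refine speed_upper (𝒜 := 𝒜) (α := fun t => Cx 𝒜 C x (shift t c)) hsm.1 h3 (lt_of_le_of_lt ?_ hμ)
  have h5 : ‖v‖ ^ 2 ≤ L := by rw [hn]; exact h t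
  have h6 := Real.abs_le_sqrt h5
  rwa [abs_of_nonneg (norm_nonneg _)] at h6

/-- **the loops have constant speed to the second order** -/
theorem PFam.lip_Cx [Nonempty (Gs M)] (hB : Bl M) (e : Emb n 𝒜) (hC : PFam 𝒜 C) {ε : ℝ} (hε : 0 < ε) :
    ∃ θ₀ : ℝ, 0 < θ₀ ∧ ∀ θ, |θ| < θ₀ → ∀ (c : Gs M) (ξ : Eu N), ‖ξ‖ ≤ 1 →
      CO.Lip (√(1 - θ ^ 2 * (π⁻¹ * QB 𝒜 C c ξ ξ) + ε * θ ^ 2)) (fun t => Cx 𝒜 C (θ • ξ) (shift t c)) := by
  have hπ := Real.pi_pos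
  obtain ⟨θ1, hθ1, h1⟩ := hC.s2_expand hB e (half_pos hε)
  -- the bracket
  let Br : ℝ → Gs M × Eu N → ℝ := fun θ z => 2 * dd 𝒜 C z.1 z.2 + θ ^ 2 * dd 𝒜 C z.1 z.2 ^ 2 +
    (1 + θ ^ 2 * dd 𝒜 C z.1 z.2) ^ 2 * (-2 * LamB 𝒜 C (shift (θ ^ 2 * aa 𝒜 C z.1 z.2) z.1) z.2 z.2 + ε / 2) +
    π⁻¹ * QB 𝒜 C z.1 z.2 z.2
  have hcaa : Continuous (fun z : Gs M × Eu N => aa 𝒜 C z.1 z.2) :=
    cont_of_smooth hB e (f := fun c ξ => aa 𝒜 C c ξ) fun _ _ _ hσ hx => hC.aa_smooth hB e hσ hx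
  have hcQ : Continuous (fun z : Gs M × Eu N => QB 𝒜 C z.1 z.2 z.2) :=
    cont_of_smooth hB e (f := fun c ξ => QB 𝒜 C c ξ ξ) fun _ _ _ hσ hx => hC.smooth_QB_ap hB e hσ hx
  have hcd := hC.cont_dd hB e
  have hcL := hC.cont_LamB_ap hB e
  have hBr : Continuous (fun w : ℝ × (Gs M × Eu N) => Br w.1 w.2) := by
    have a1 := hcd.comp (continuous_snd (X := ℝ) (Y := Gs M × Eu N))
    have a2 := hcaa.comp (continuous_snd (X := ℝ) (Y := Gs M × Eu N))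
    have a3 := hcQ.comp (continuous_snd (X := ℝ) (Y := Gs M × Eu N))
    simp only [Function.comp_def] at a1 a2 a3
    have a0 : Continuous (fun w : ℝ × (Gs M × Eu N) => w.1 ^ 2) := continuous_fst.pow 2
    have a6 : Continuous (fun w : ℝ × (Gs M × Eu N) => w.2.1) := continuous_fst.comp continuous_snd
    have a7 : Continuous (fun w : ℝ × (Gs M × Eu N) => w.2.2) := continuous_snd.comp continuous_snd
    have a4 := gs_continuous_shift.comp ((a0.mul a2).prodMk a6)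
    simp only [Function.comp_def] at a4
    have a5 := hcL.comp (a4.prodMk a7)
    simp only [Function.comp_def] at a5
    exact (((continuous_const.mul a1).add (a0.mul (a1.pow 2))).add
      (((continuous_const.add (a0.mul a1)).pow 2).mul ((continuous_const.mul a5).add continuous_const))).add
      (continuous_const.mul a3)
  have hBr0 : ∀ z : Gs M × Eu N, Br 0 z = ε / 2 := by
    rintro ⟨c, ξ⟩
    simp only [Br, zero_pow two_ne_zero, zero_mul, shift_zero, add_zero, dd]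
    have : (1 : ℝ) ^ 2 = 1 := one_pow 2
    rw [this]
    field_simp
    ring
  have hK : IsCompact ((univ : Set (Gs M)) ×ˢ closedBall (0 : Eu N) 1) := isCompact_univ.prod (isCompact_closedBall _ _)
  have key := hK.eventually_forall_of_forall_eventually (x₀ := (0 : ℝ)) (P := fun θ z => Br θ z < ε) (fun z _ =>
    (hBr.continuousAt (x := ((0 : ℝ), z))).eventually (gt_mem_nhds (by show Br 0 z < ε; rw [hBr0]; linarith)))
  obtain ⟨θ2, hθ2, h2⟩ := Metric.eventually_nhds_iff.mp key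
  refine ⟨min θ1 θ2, lt_min hθ1 hθ2, fun θ hθ c ξ hξ => ?_⟩
  refine hC.lip_of_sq hB e (θ • ξ) c fun t => ?_
  set ct := shift t c with hct
  have hQ : QB 𝒜 C c ξ ξ = QB 𝒜 C ct ξ ξ := by rw [hct, QB_shift 𝒜 hB]
  rw [hQ, dd_smul, aa_smul]
  have b1 := (abs_le.mp (h1 θ (lt_of_lt_of_le hθ (min_le_left _ _)) (shift (θ ^ 2 * aa 𝒜 C ct ξ) ct) ξ hξ)).2
  have b2 : Br θ (ct, ξ) < ε := @h2 θ (by rw [Real.dist_eq, sub_zero]; exact lt_of_lt_of_le hθ (min_le_right _ _)) (ct, ξ)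
    ⟨trivial, by rw [mem_closedBall, dist_zero_right]; exact hξ⟩
  set A := dd 𝒜 C ct ξ with hA
  set m := LamB 𝒜 C (shift (θ ^ 2 * aa 𝒜 C ct ξ) ct) ξ ξ with hm
  have b3 : s2 𝒜 C (shift (θ ^ 2 * aa 𝒜 C ct ξ) ct) (θ • ξ) ≤ 1 + θ ^ 2 * (-2 * m + ε / 2) := by linarith
  have b4 : (1 + θ ^ 2 * A) ^ 2 * s2 𝒜 C (shift (θ ^ 2 * aa 𝒜 C ct ξ) ct) (θ • ξ) ≤
      (1 + θ ^ 2 * A) ^ 2 * (1 + θ ^ 2 * (-2 * m + ε / 2)) := mul_le_mul_of_nonneg_left b3 (sq_nonneg _)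
  refine b4.trans ?_
  have b5 : (1 + θ ^ 2 * A) ^ 2 * (1 + θ ^ 2 * (-2 * m + ε / 2)) =
      1 - θ ^ 2 * (π⁻¹ * QB 𝒜 C ct ξ ξ) + θ ^ 2 * Br θ (ct, ξ) := by
    simp only [Br, ← hA, ← hm]
    ring
  rw [b5]
  have b6 : θ ^ 2 * Br θ (ct, ξ) ≤ ε * θ ^ 2 := by
    rw [mul_comm ε]
    exact mul_le_mul_of_nonneg_left b2.le (sq_nonneg _)
  linarith

end Pool.Agent.Lib.MP_ccbbf6_gt.L5.NEG
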