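import Pool.Agent.Lib.MP_ccbbf6_gt.L5.NA4
import Pool.Agent.Lib.MP_ccbbf6_gt.L5.NEGd

/-!
# NF3: second order expansion of the push-off, `exists_pfam` (Level 5, block NEG)

The push-off and its exact expansion are in NA1-NA4 (for the structure `RotX`); here `RotF` is reduced to `RotX` with `R x c := R x 1 c`.
-/

set_option autoImplicit false
set_option linter.unusedSectionVars false

open Set Filter Topology Metric Real Asymptotics
open scoped ContDiff RealInnerProductSpace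

noncomputable section

namespace Pool.Agent.Lib.MP_ccbbf6_gt.L5.NEG

open Geo L4 L4.ORI

/-- the second derivative from an exact expansion -/
theorem second_deriv_of_expansion {V : Type*} [NormedAddCommGroup V] [NormedSpace ℝ V] {f : V → ℝ}
    (hf : ContDiffAt ℝ ∞ f 0) {g : ℝ → V → ℝ} (hg : ∀ x, ContinuousAt (fun θ => g θ x) 0)
    (he : ∀ θ x, f (θ • x) = 1 + θ ^ 2 * g θ x) :
    fderiv ℝ f 0 = 0 ∧ ∀ x, fderiv ℝ (fderiv ℝ f) 0 x x = 2 * g 0 x := by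
  have hl : ∀ x : V, HasDerivAt (fun θ : ℝ => θ • x) x 0 := by
    intro x
    have := (hasDerivAt_id (0 : ℝ)).smul_const x
    rwa [one_smul] at this
  have h0 : f 0 = 1 := by
    have := he 0 0
    rwa [smul_zero, zero_pow two_ne_zero, zero_mul, add_zero] at this
  have h1 : fderiv ℝ f 0 = 0 := by
    ext x
    have d1 : HasDerivAt (fun θ : ℝ => f (θ • x)) (fderiv ℝ f 0 x) 0 := by
      have d0 : HasFDerivAt f (fderiv ℝ f 0) ((fun θ : ℝ => θ • x) 0) := by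
        show HasFDerivAt f _ ((0 : ℝ) • x)
        rw [zero_smul]
        exact (hf.differentiableAt (by simp)).hasFDerivAt
      exact HasFDerivAt.comp_hasDerivAt (0 : ℝ) d0 (hl x)
    have d2 : HasDerivAt (fun θ : ℝ => f (θ • x)) 0 0 := by
      have h2 : (fun θ : ℝ => f (θ • x)) = fun θ => 1 + θ * (θ * g θ x) := by
        funext θ
        rw [he]
        ring
      rw [h2]
      have h3 := (hasDerivAt_mul_cont (I := fun θ => θ * g θ x) (continuousAt_id.mul (hg x))).const_add 1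
      simp only [zero_mul] at h3
      exact h3
    exact d1.unique d2
  refine ⟨h1, fun x => ?_⟩
  set D := fderiv ℝ (fderiv ℝ f) 0 with hD
  have hf2 : ContDiffAt ℝ 2 (fun x => f x - f 0) 0 := (hf.of_le two_le_infty).sub contDiffAt_const
  have hfe : fderiv ℝ (fun x => f x - f 0) = fderiv ℝ f := by
    funext x
    rw [fderiv_sub_const]
  have hT := sm0_taylor hf2 (sub_self _) (by rw [hfe]; exact h1)
  rw [hfe, ← hD] at hT
  have hlt : Tendsto (fun θ : ℝ => θ • x) (𝓝[≠] 0) (𝓝 0) := by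
    have := (hl x).continuousAt.tendsto
    simp only [zero_smul] at this
    exact this.mono_left nhdsWithin_le_nhds
  have h3 := hT.comp_tendsto hlt
  have h4 : (fun θ : ℝ => g θ x - D x x / 2) =o[𝓝[≠] 0] fun _ : ℝ => (1 : ℝ) := by
    have h5 : (fun θ : ℝ => (θ ^ 2)⁻¹ * (θ ^ 2 * (g θ x - D x x / 2))) =o[𝓝[≠] 0]
        fun θ : ℝ => (θ ^ 2)⁻¹ * ‖θ • x‖ ^ 2 := by
      refine (isBigO_refl (fun θ : ℝ => (θ ^ 2)⁻¹) _).mul_isLittleO (h3.congr_left fun θ => ?_)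
      simp only [Function.comp_def, he, h0, map_smul, FunLike.coe_smul, Pi.smul_apply, smul_eq_mul]
      ring
    have h6 : (fun θ : ℝ => (θ ^ 2)⁻¹ * ‖θ • x‖ ^ 2) =O[𝓝[≠] 0] fun _ : ℝ => (1 : ℝ) := by
      refine IsBigO.of_bound (‖x‖ ^ 2) ?_
      filter_upwards [self_mem_nhdsWithin] with θ hθ
      have hθ' : θ ≠ 0 := hθ
      have h7 : (θ ^ 2)⁻¹ * ‖θ • x‖ ^ 2 = ‖x‖ ^ 2 := by
        rw [norm_smul, mul_pow, Real.norm_eq_abs, sq_abs, ← mul_assoc, inv_mul_cancel₀ (pow_ne_zero 2 hθ'), one_mul]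
      rw [h7, norm_one, mul_one, Real.norm_eq_abs, abs_of_nonneg (by positivity)]
    refine (h5.trans_isBigO h6).congr' ?_ EventuallyEq.rfl
    filter_upwards [self_mem_nhdsWithin] with θ hθ
    have hθ' : θ ≠ 0 := hθ
    rw [← mul_assoc, inv_mul_cancel₀ (pow_ne_zero 2 hθ'), one_mul]
  have h5 : Tendsto (fun θ : ℝ => g θ x - D x x / 2) (𝓝[≠] 0) (𝓝 0) := (isLittleO_one_iff ℝ).mp h4
  have h6 : Tendsto (fun θ : ℝ => g θ x - D x x / 2) (𝓝[≠] 0) (𝓝 (g 0 x - D x x / 2)) :=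
    ((hg x).tendsto.mono_left nhdsWithin_le_nhds).sub_const _
  have h7 := tendsto_nhds_unique h5 h6
  linarith

variable {n : ℕ} {M : Type*} [MetricSpace M] [CompactSpace M] {𝒜 : SDist n M} {N : ℕ}
  {R : Eu N → ℝ → Gs M → Gs M} {k : Eu N → Gs M → Eu n}

theorem RotF.ksmul (hR : RotF 𝒜 R k) (r : ℝ) (ξ : Eu N) (c : Gs M) : k (r • ξ) c = r • k ξ c := by
  have h1 := hR.vel (r • ξ) 1 c
  have h2 := hR.vel ξ r c
  rw [hR.smul, mul_one, one_smul] at h1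
  set w := 𝒜.vel (R ξ r c).1 0 with hw
  set A := √(1 + 1 ^ 2 * ‖k (r • ξ) c‖ ^ 2) with hA
  set B := √(1 + r ^ 2 * ‖k ξ c‖ ^ 2) with hB
  have hv : ⟪𝒜.vel c.1 0, 𝒜.vel c.1 0⟫ = 1 := by
    rw [real_inner_self_eq_norm_sq, (IsGeo.exists_vel 𝒜 c.2 0).1]; norm_num
  have e1 : A * ⟪𝒜.vel c.1 0, w⟫ = 1 := by
    rw [← real_inner_smul_right, h1, inner_add_right, hv, hR.orth, add_zero]
  have e2 : B * ⟪𝒜.vel c.1 0, w⟫ = 1 := by
    rw [← real_inner_smul_right, h2, inner_add_right, hv, real_inner_smul_right, hR.orth, mul_zero, add_zero]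
  have hne : ⟪𝒜.vel c.1 0, w⟫ ≠ 0 := by
    intro h0
    rw [h0, mul_zero] at e1
    exact zero_ne_one e1
  have hAB : A = B := mul_right_cancel₀ hne (e1.trans e2.symm)
  rw [hAB, h2] at h1
  exact (add_left_cancel h1).symm

theorem RotF.rotX (hR : RotF 𝒜 R k) : RotX 𝒜 k (fun x c => R x 1 c) where
  smooth := fun E' _ _ σ x u hσ hx => hR.smooth hσ hx contDiffAt_const
  zero := fun c => by
    have h := hR.smul 0 0 1 c
    rw [zero_smul, zero_mul, hR.zero] at h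
    exact h
  foot := fun x c => hR.foot x 1 c
  top := fun x c => hR.top x 1 c
  vel := fun x c => ⟨√(1 + 1 ^ 2 * ‖k x c‖ ^ 2), by positivity, by rw [hR.vel, one_smul]⟩
  ksmul := fun a x c => hR.ksmul a x c

theorem s2_smooth_aux (hB : Bl M) {C : Eu N → Gs M → M}
    (hs : ∀ {F : Type} [NormedAddCommGroup F] [NormedSpace ℝ F] {σ : F → Gs M} {ξ : F → Eu N} {u : F}, SmGAt 𝒜 σ u →
    ContDiffAt ℝ ∞ ξ u → SmAt 𝒜 (fun v => C (ξ v) (σ v)) u) (c : Gs M) (ξ0 : Eu N) : ContDiffAt ℝ ∞ (s2 𝒜 C c) ξ0 := by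
  have h1 : SmGAt 𝒜 (fun w : Eu N × ℝ => shift w.2 c) (ξ0, 0) := (smGAt_const c (ξ0, (0 : ℝ))).shift hB contDiffAt_snd
  have h2 := smV_deriv (g := fun w : Eu N × ℝ => C w.1 (shift w.2 c)) (hs h1 contDiffAt_fst) (p := _) (𝒜.mem _)
  simp only [shift_zero] at h2
  have h3 : SmAt 𝒜 (fun ξ : Eu N => C ξ c) ξ0 := hs (smGAt_const c ξ0) contDiffAt_id
  have h4 := SmV.inner h3 (𝒜.mem _) h2 h2
  simp only [real_inner_self_eq_norm_sq] at h4
  exact h4

/-- **the push-off family of a rotation family** -/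
theorem exists_pfam [Nonempty (Gs M)] (hB : Bl M) (e : Emb n 𝒜) (hR : RotF 𝒜 R k) :
    ∃ C : Eu N → Gs M → M, PFam 𝒜 C ∧ ∀ c ξ, LamB 𝒜 C c ξ ξ =
      -∫ b in (0 : ℝ)..π, ⟪k ξ c, deriv (fun τ => 𝒜.ψ (c.1 0) ((R ξ τ (shift b c)).1 (-b))) 0⟫ := by
  have hX := hR.rotX
  obtain ⟨χ, ρ, Ξ, h⟩ := exists_pflowX e hB hX
  obtain ⟨g, hg, hg0, hge⟩ := exists_speed hB hX h
  let C : Eu N → Gs M → M := fun ξ c => CX e Ξ ξ c
  have hs : ∀ {F : Type} [NormedAddCommGroup F] [NormedSpace ℝ F] {σ : F → Gs M} {ξ : F → Eu N} {u : F}, SmGAt 𝒜 σ u →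
      ContDiffAt ℝ ∞ ξ u → SmAt 𝒜 (fun v => C (ξ v) (σ v)) u := fun hσ hξ => smooth_CX hB hX h hσ hξ
  have hz : ∀ c, C 0 c = c.1 0 := CX_zero hB hX h
  have hexp : ∀ c : Gs M, fderiv ℝ (s2 𝒜 C c) 0 = 0 ∧
      ∀ x, fderiv ℝ (fderiv ℝ (s2 𝒜 C c)) 0 x x = 2 * g (0, c, x) := by
    intro c
    refine second_deriv_of_expansion (s2_smooth_aux hB hs c 0) (g := fun θ x => g (θ, c, x)) (fun x => ?_) (fun θ x => hge θ c x)
    exact (hg.comp (f := fun θ : ℝ => (θ, c, x)) (by fun_prop)).continuousAt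
  refine ⟨C, ⟨hs, hz, fun c ξ => ?_, fun c => (hexp c).1⟩, fun c ξ => ?_⟩
  · -- normality of the first variation
    have h1 : SmAt 𝒜 (fun ξ : Eu N => C ξ c) 0 := hs (smGAt_const c 0) contDiffAt_id
    have h2 := h1.2
    simp only [hz] at h2
    have hl : HasDerivAt (fun θ : ℝ => θ • ξ) ξ 0 := by
      have := (hasDerivAt_id (0 : ℝ)).smul_const ξ
      rwa [one_smul] at this
    have h3 : HasFDerivAt (fun ξ : Eu N => 𝒜.ψ (c.1 0) (C ξ c)) (X1 𝒜 C c) ((fun θ : ℝ => θ • ξ) 0) := by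
      show HasFDerivAt _ _ ((0 : ℝ) • ξ)
      rw [zero_smul]
      exact (h2.differentiableAt (by simp)).hasFDerivAt
    have h4 : HasDerivAt (fun θ : ℝ => 𝒜.ψ (c.1 0) (C (θ • ξ) c)) (X1 𝒜 C c ξ) 0 :=
      HasFDerivAt.comp_hasDerivAt (l := fun ξ : Eu N => 𝒜.ψ (c.1 0) (C ξ c)) (f := fun θ : ℝ => θ • ξ) (0 : ℝ) h3 hl
    have h5 : ContinuousAt (fun θ : ℝ => C (θ • ξ) c) 0 :=
      (hs (smGAt_const c (0 : ℝ)) (ξ := fun θ : ℝ => θ • ξ) (contDiffAt_id.smul contDiffAt_const)).cont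
    have h6 := dist_deriv hB (c := c) (α := fun θ : ℝ => C (θ • ξ) c) h5 (by rw [zero_smul, hz]) h4
    have h7 := W_eqX hB hX h c ξ 0
    simp only [zero_smul, hX.zero, zero_mul, neg_zero] at h7
    exact h6.unique h7
  · show ((-(1 / 4) : ℝ) • fderiv ℝ (fderiv ℝ (s2 𝒜 C c)) 0) ξ ξ = _
    simp only [FunLike.coe_smul, Pi.smul_apply, smul_eq_mul]
    rw [(hexp c).2, hg0]
    have h8 : Lam 𝒜 k (fun x c => R x 1 c) c ξ =
        -∫ b in (0 : ℝ)..π, ⟪k ξ c, deriv (fun τ => 𝒜.ψ (c.1 0) ((R ξ τ (shift b c)).1 (-b))) 0⟫ := by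
      unfold Lam JXr
      simp only [hR.smul, mul_one]
    rw [h8]
    ring

end Pool.Agent.Lib.MP_ccbbf6_gt.L5.NEG
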