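import Pool.Agent.Lib.MP_ccbbf6_gt.L4.FXb

/-!
# Level 5, block PHI 1: basic forms (helper56)

* `Bas_of` : `ι w = 0`, `ι dw = 0` imply `Bas c w`;
* `K_rev` : the operator `K` and the reversal `s ↦ 1 - s`;
* `bas_prim` : a basic form with a primitive is `e θ` + `d` (basic).
-/

set_option autoImplicit false
set_option maxSynthPendingDepth 3

open Set Filter Topology
open scoped TensorProduct ContDiff

noncomputable section

namespace Pool.Agent.Lib.MP_ccbbf6_gt.L5

open L4 L4.FR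

variable {k l n : ℕ}

/-! ### Decomposition with respect to the last variable -/

/-- `v ↦ (v, 0)` -/
def emb (k : ℕ) : V k →ₗ[ℝ] V (k + 1) where
  toFun v := Fin.snoc v 0
  map_add' v w := by
    funext i
    refine Fin.lastCases ?_ (fun i => ?_) i
    · simp
    · simp
  map_smul' r v := by
    funext i
    refine Fin.lastCases ?_ (fun i => ?_) i
    · simp
    · simp

/-- inclusion of the covectors -/
def inc (k : ℕ) : Ex k →ₐ[ℝ] Ex (k + 1) := ExteriorAlgebra.map (emb k)

lemma inc_ι (v : V k) : inc k (ExteriorAlgebra.ι ℝ v) = ExteriorAlgebra.ι ℝ (emb k v) :=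
  ExteriorAlgebra.map_apply_ι _ _

lemma emb_ini (v : V (k + 1)) : v = emb k (ini k v) + v (Fin.last k) • (Pi.single (Fin.last k) 1 : V (k + 1)) := by
  funext i
  refine Fin.lastCases ?_ (fun i => ?_) i
  · simp [emb]
  · have h : (Fin.snoc (ini k v) 0 : V (k + 1)) i.castSucc = ini k v i := by simp
    change v i.castSucc = (Fin.snoc (ini k v) 0 : V (k + 1)) i.castSucc + _
    rw [h]
    change v i.castSucc = v i.castSucc + v (Fin.last k) * (Pi.single (Fin.last k) (1 : ℝ) : V (k + 1)) i.castSucc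
    rw [Pi.single_eq_of_ne (Fin.castSucc_lt_last i).ne, mul_zero, add_zero]

lemma dec (a : Ex (k + 1)) : a = inc k (kil k a) + ee (Fin.last k) * inc k (kil k (ctr (lst k) a)) := by
  induction a using CliffordAlgebra.left_induction with
  | algebraMap r =>
    rw [ctr_algebraMap, map_zero, map_zero, mul_zero, add_zero, AlgHom.commutes, AlgHom.commutes]
  | add x y hx hy =>
    conv_lhs => rw [hx, hy]
    simp only [map_add, mul_add]
    abel
  | ι_mul x v hx =>
    change ExteriorAlgebra.ι ℝ v * x = inc k (kil k (ExteriorAlgebra.ι ℝ v * x)) +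
      ee (Fin.last k) * inc k (kil k (ctr (lst k) (ExteriorAlgebra.ι ℝ v * x)))
    have h1 : ExteriorAlgebra.ι ℝ v = inc k (ExteriorAlgebra.ι ℝ (ini k v)) + v (Fin.last k) • ee (Fin.last k) := by
      rw [inc_ι, ee, ← map_smul, ← map_add, ← emb_ini]
    have h2 : ee (Fin.last k) * inc k (ExteriorAlgebra.ι ℝ (ini k v)) =
        -(inc k (ExteriorAlgebra.ι ℝ (ini k v)) * ee (Fin.last k)) := by
      rw [inc_ι, ee]
      exact eq_neg_of_add_eq_zero_left (ExteriorAlgebra.ι_add_mul_swap _ _)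
    have h3 : ee (Fin.last k) * ee (Fin.last k) = 0 := ExteriorAlgebra.ι_sq_zero _
    rw [map_mul (kil k), kil_ι, ctr_ι_mul, map_sub (kil k), map_smul (kil k), map_mul (kil k), kil_ι, map_mul (inc k),
      map_sub (inc k), map_smul (inc k), map_mul (inc k), lst_apply]
    conv_lhs => rw [hx, h1]
    obtain ⟨A, hA⟩ : ∃ A, A = inc k (ExteriorAlgebra.ι ℝ (ini k v)) := ⟨_, rfl⟩
    obtain ⟨B, hB⟩ : ∃ B, B = inc k (kil k x) := ⟨_, rfl⟩
    obtain ⟨C, hC⟩ : ∃ C, C = inc k (kil k (ctr (lst k) x)) := ⟨_, rfl⟩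
    rw [← hA] at h2 ⊢
    rw [← hB, ← hC]
    have h4 : ee (Fin.last k) * (A * C) = -(A * (ee (Fin.last k) * C)) := by
      rw [← mul_assoc, h2, neg_mul, mul_assoc]
    have h5 : ee (Fin.last k) * (ee (Fin.last k) * C) = 0 := by rw [← mul_assoc, h3, zero_mul]
    rw [add_mul, mul_add, mul_add, smul_mul_assoc, smul_mul_assoc, h5, smul_zero, add_zero, mul_sub, h4,
      mul_smul_comm]
    abel

lemma ev_slP (s : ℝ) (x : V k) (θ : Fm (k + 1)) : ev x (pb (sl k s) θ) = kil k (ev (Fin.snoc x s) θ) := by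
  induction θ using Fm_tind with
  | hf f a =>
    rw [pb_sl, ev_tm, ev_tm, map_smul]
    rfl
  | ha x y hx hy => simp only [map_add, hx, hy]

lemma ev_cn' (φ : V k →ₗ[ℝ] ℝ) (z : V k) (x : Fm k) : ev z (cn φ x) = ctr φ (ev z x) := by
  induction x using Fm_tind with
  | hf f a =>
    have h : cn φ (tm f a) = tm f (ctr φ a) := rfl
    rw [h, ev_tm, ev_tm, _root_.map_smul]
  | ha x y hx hy => rw [_root_.map_add, _root_.map_add, hx, hy, _root_.map_add, _root_.map_add]

/-- a form on `R^(k+1)` is zero if its slices and the slices of its contraction vanish -/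
lemma Fm_slice {x : Fm (k + 1)} (h0 : ∀ s, pb (sl k s) x = 0) (h1 : ∀ s, pb (sl k s) (cs k x) = 0) : x = 0 := by
  refine ev_inj fun z => ?_
  have hz : z = Fin.snoc (pr k z) (z (Fin.last k)) := (snoc_pr z).symm
  rw [hz, dec (ev _ x)]
  have h2 := congrArg (ev (pr k z)) (h0 (z (Fin.last k)))
  have h3 := congrArg (ev (pr k z)) (h1 (z (Fin.last k)))
  rw [ev_slP, map_zero] at h2 h3
  rw [cs, ev_cn'] at h3
  rw [h2, h3, map_zero, mul_zero, add_zero]

/-- a form without `ds` and with zero derivative is a pull back -/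
lemma Fm_pr {x : Fm (k + 1)} (h0 : cs k x = 0) (h1 : cs k (dd (k + 1) x) = 0) : x = pb (pr k) (pb (sl k 0) x) := by
  have hL : Ls k x = 0 := by rw [← dd_cs, h0, h1, map_zero, add_zero]
  rw [← sub_eq_zero]
  refine Fm_slice (fun s => ?_) (fun s => ?_)
  · rw [map_sub, ← pb_comp, pr_sl, pb_id]
    refine ev_fun_inj fun φ p => ?_
    rw [map_sub, map_sub, sub_eq_zero]
    have hd : ∀ s, HasDerivAt (fun s => φ (ev p (pb (sl k s) x))) 0 s := by
      intro s
      have h := hasDerivAt_ev φ p x s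
      rwa [hL, map_zero, map_zero, map_zero] at h
    exact is_const_of_deriv_eq_zero (fun s => (hd s).differentiableAt) (fun s => (hd s).deriv) s 0
  · rw [map_sub, h0, cs_pr, sub_zero, map_zero]

lemma cs_ts (t : ℝ) (x : Fm (k + 1)) : cs k (pb (ts k t) x) = pb (ts k t) (cs k x) := by
  have h := cs_sh x
  have h1 : ts k t = (sh k).comp (sl k t).up := (sh_up t).symm
  rw [h1, pb_comp, pb_comp, cs_up, h]

variable {X Y M : Space} (c : Circ X)

/-- closed horizontal forms are basic -/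
lemma Bas_of {w : Om X} (h0 : iO c w = 0) (h1 : iO c (dO X w) = 0) : Bas c w := by
  have key : ∀ w : Om X, iO c w = 0 → ∀ (k : ℕ) (p : X.Plot k), cs k (Om.on w (c.op p)) = 0 := by
    intro w hw k p
    refine Fm_slice (fun s => ?_) (fun s => ?_)
    · have h2 : Om.on (iO c w) ((c.at s).pl p) = 0 := by rw [hw, on_zero]
      rw [on_i, ← op_ts, on_cmp, cs_ts, ← pb_comp, ts_sl, zero_add] at h2
      exact h2
    · rw [cs_cs, map_zero]
  intro k p
  have h2 := key w h0 k p
  have h3 : cs k (dd (k + 1) (Om.on w (c.op p))) = 0 := key (dO X w) h1 k p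
  rw [Fm_pr h2 h3, pb_op_zero]

lemma Bas_closed {w : Om X} (h0 : iO c w = 0) (h1 : dO X w = 0) : Bas c w := Bas_of c h0 (by rw [h1, map_zero])

/-! ### Reversal of the last variable -/

/-- `(x, s) ↦ (x, 1 - s)` -/
def rv (k : ℕ) : Sm (k + 1) (k + 1) :=
  ⟨fun z => Fin.snoc (pr k z) (1 - z (Fin.last k)),
    contDiff_snoc.comp ((pr k).smooth.prodMk (contDiff_const.sub (contDiff_apply ℝ ℝ (Fin.last k))))⟩

lemma rv_sl (s : ℝ) : (rv k).comp (sl k s) = sl k (1 - s) := by
  refine Sm.ext fun x => ?_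
  change (Fin.snoc (pr k (Fin.snoc x s)) (1 - (Fin.snoc x s : V (k + 1)) (Fin.last k)) : V (k + 1)) =
    Fin.snoc x (1 - s)
  rw [pr_snoc, Fin.snoc_last]

lemma cp_rv_castSucc (i : Fin k) : (rv k).cp i.castSucc = co i.castSucc := by
  apply Cs_ext
  intro z
  exact Fin.snoc_castSucc (α := fun _ => ℝ) _ _ i

lemma cp_rv_last : (rv k).cp (Fin.last k) = 1 - co (Fin.last k) := by
  apply Cs_ext
  intro z
  exact Fin.snoc_last (α := fun _ => ℝ) _ _

lemma cs_rv (x : Fm (k + 1)) : cs k (pb (rv k) x) = -pb (rv k) (cs k x) := by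
  induction x using Fm_ind with
  | hf f => rw [pb_fc, cs, cn_fc, cn_fc, map_zero, neg_zero]
  | hd j =>
    refine Fin.lastCases ?_ (fun i => ?_) j
    · rw [pb_dx, cp_rv_last, map_sub, map_sub, map_one, dd_one, zero_sub, fc_pd_co, map_neg, cs, cn_dx, lst_apply,
        Pi.single_eq_same, AlgHom.commutes]
    · rw [pb_dx, cp_rv_castSucc, fc_pd_co, cs, cn_dx, lst_apply,
        Pi.single_eq_of_ne (Fin.castSucc_lt_last i).ne', map_zero, map_zero, neg_zero]
  | hm x y hx hy =>
    rw [cs] at hx hy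
    rw [map_mul, cs, cn_mul, cn_mul, map_add, map_mul, map_mul, hx, hy, pb_sg]
    rw [neg_add, neg_mul, mul_neg]
  | ha x y hx hy => rw [map_add, map_add, hx, hy, map_add, map_add, neg_add]

lemma Q0_rv (x : Fm (k + 1)) : Q0 k (pb (rv k) x) = Q0 k x := by
  rw [← sub_eq_zero]
  refine ev_fun_inj fun φ p => ?_
  rw [map_sub, map_sub, ev_Q0, ev_Q0, sub_eq_zero]
  have h1 : ∀ s, φ (ev p (pb (sl k s) (pb (rv k) x))) = φ (ev p (pb (sl k (1 - s)) x)) := by
    intro s
    rw [← pb_comp, rv_sl]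
  simp only [h1]
  rw [intervalIntegral.integral_comp_sub_left (fun s => φ (ev p (pb (sl k s) x)))]
  simp

lemma KK_rv (x : Fm (k + 1)) : KK k (pb (rv k) x) = -KK k x := by
  rw [KK_apply, cs_rv, map_neg, Q0_rv, KK_apply]

/-- `(x, s) ↦ (x, 1 - s)` -/
def rO (X : Space) : SMap X.xR X.xR := ⟨fun z => (z.1, 1 - z.2), fun _ p => ⟨p.2.1, contDiff_const.sub p.2.2⟩⟩

lemma K_rev (θ : Om X.xR) : KO X ((rO X).pull θ) = -KO X θ :=
  Om_ext fun k p => by
    have h : (rO X).pl p.up = p.up.cmp (rv k) := by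
      refine Plot_ext fun z => ?_
      change (p.1 (pr k z), 1 - z (Fin.last k)) =
        (p.1 (pr k (Fin.snoc (pr k z) (1 - z (Fin.last k)))),
          (Fin.snoc (pr k z) (1 - z (Fin.last k)) : V (k + 1)) (Fin.last k))
      rw [pr_snoc, Fin.snoc_last]
    rw [on_K, on_pull, h, on_cmp, KK_rv, on_neg, on_K]

/-! ### Primitives of basic forms -/

variable {c}

/-- a basic form with a primitive is `e θ` plus `d` of a basic form -/
theorem bas_prim {A w x : Om X} (hA : iO c A = 1) (hA2 : iO c (dO X A) = 0)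
    (hw : Bas c w) (hx : dO X x = w) :
    dO X (iO c (AO c x)) = 0 ∧ Bas c (iO c (AO c x)) ∧ Bas c (AO c x - A * iO c (AO c x)) ∧
      w = dO X A * iO c (AO c x) + dO X (AO c x - A * iO c (AO c x)) := by
  obtain ⟨t, ht⟩ : ∃ t, t = iO c (AO c x) := ⟨_, rfl⟩
  rw [← ht]
  have h1 : dO X (AO c x) = w := by rw [A_d, hx, A_bas c hw]
  have h2 : dO X t = 0 := by
    rw [ht, cartan c (A_inv c x), h1, Bas_i c hw, neg_zero]
  have h3 : iO c t = 0 := by rw [ht, i_i]
  have h4 : iO c (AO c x - A * t) = 0 := by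
    rw [map_sub, i_mul, hA, one_mul, h3, mul_zero, add_zero, ← ht, sub_self]
  have h5 : dO X (AO c x - A * t) = w - dO X A * t := by
    rw [map_sub, h1, d_mul, h2, mul_zero, add_zero]
  refine ⟨h2, Bas_closed c h3 h2, Bas_of c h4 ?_, ?_⟩
  · rw [h5, map_sub, Bas_i c hw, i_mul, hA2, zero_mul, zero_add, h3, mul_zero, sub_zero]
  · rw [h5]
    abel

end Pool.Agent.Lib.MP_ccbbf6_gt.L5
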