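import Pool.Agent.Lib.MP_ccbbf6_gt.L5.NC2

/-!
# NC3: the pairs `(A, B)` orthogonal to `V` are velocities of a family of geodesics (Level 5, block NEG)

PROOF of `exists_var` (dimension count, see the header of NC2). Let `x0 := c.1 0`, `q0 := c.1 π`, `v := 𝒜.vel c.1 0`. For `(a, b) : Eu n × Eu n` with `⟪v, b⟫ = 0` let `τ θ := gw hB (base θ) (W θ)` where `base θ` is any geodesic with foot `(𝒜.ψ x0).symm (θ • a)`
(e.g. `gw` needs a geodesic with that foot: take `gvg`, or the family of `local_D`: `τ (θ) = gw (σ θ) (vel (σ θ) 0 + DD 𝒜 x0 (foot) (θ • b))` with `σ θ := gg (x θ) (c.1 (π/2))`, `SmGAt.of_gg`; then `b` is replaced by `b - (derivative of the direction)`, harmless: use the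
surjectivity form below). CLEAN FORM: let `Φ : Eu n × Eu n → Eu n × Eu n`... `Φ (a, y) := (a, 𝒜.ψ q0 (end point of the geodesic with foot (𝒜.ψ x0).symm a and velocity DD 𝒜 x0 _ (v + y) / norm at time π))`, smooth at `(0,0)` (`smGA_gw`), `D := fderiv Φ (0,0)`.
`D (a, y) = 0` implies `a = 0` and `fderiv (𝒜.X x0 q0 π) v y = 0`, so `y ∈ PV` (`ker_X_PV`): the kernel is `{0} × PV`, of dimension `κ + 1`; so the range of `D` has dimension `2n - κ - 1`. Every element `(A, B)` of the range is an `IsVar` pair (the curve `θ ↦ (θ a, θ y)`).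
The space `Ann := {(A, B) | ⟪v, A⟫ = ⟪vel c π, B⟫ ∧ ∀ w ∈ Kc, ⟪w, A⟫ = ⟪thK w, B⟫}` has dimension `2n - (κ + 1)` (the orthogonal complement of the graph `{(w, -T w)}` of dimension `κ + 1`) and contains the range (`var_vel`, `thK_inner`), so they are equal.
-/

set_option autoImplicit false
set_option linter.unusedSectionVars false

open Set Filter Topology Metric Real Module
open scoped ContDiff RealInnerProductSpace

noncomputable section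

namespace Pool.Agent.Lib.MP_ccbbf6_gt.L5.NEG

open Geo L4 L4.ORI

variable {n : ℕ} {M : Type*} [MetricSpace M] [CompactSpace M] {𝒜 : SDist n M}

/-- the base geodesics of the family -/
def nc3b (𝒜 : SDist n M) (hB : Bl M) (c : Gs M) (a : Eu n) : Gs M :=
  gvg 𝒜 hB ((𝒜.ψ (c.1 0)).symm a) (𝒜.vel c.1 0) (vel_norm 𝒜 c)

/-- the directions of the family -/
def nc3W (𝒜 : SDist n M) (c : Gs M) (z : Eu n × Eu n) : Eu n :=
  DD 𝒜 (c.1 0) ((𝒜.ψ (c.1 0)).symm z.1) (𝒜.vel c.1 0 + z.2)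

/-- the family of geodesics with the parameters: foot, direction -/
def nc3t (𝒜 : SDist n M) (hB : Bl M) (c : Gs M) (z : Eu n × Eu n) : Gs M := gw 𝒜 hB (nc3b 𝒜 hB c z.1) (nc3W 𝒜 c z)

/-- the top of the family in the chart -/
def nc3e (𝒜 : SDist n M) (hB : Bl M) (c : Gs M) (z : Eu n × Eu n) : Eu n := 𝒜.ψ (c.1 π) ((nc3t 𝒜 hB c z).1 π)

theorem nc3_bfoot (hB : Bl M) (c : Gs M) (a : Eu n) : (nc3b 𝒜 hB c a).1 0 = (𝒜.ψ (c.1 0)).symm a :=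
  (gvg_vel 𝒜 hB _ _ _).1

theorem nc3_foot (hB : Bl M) (c : Gs M) (z : Eu n × Eu n) : (nc3t 𝒜 hB c z).1 0 = (𝒜.ψ (c.1 0)).symm z.1 := by
  unfold nc3t
  rw [gw_zero, nc3_bfoot]

theorem nc3_DD (x : M) (b : Eu n) : DD 𝒜 x x b = b := by
  have h := DD_CC 𝒜 (𝒜.mem x) b
  rwa [CC_self] at h

theorem nc3_W0 (c : Gs M) (y : Eu n) : nc3W 𝒜 c (0, y) = 𝒜.vel c.1 0 + y := by
  unfold nc3W
  show DD 𝒜 (c.1 0) ((𝒜.ψ (c.1 0)).symm 0) (𝒜.vel c.1 0 + y) = _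
  rw [symm_zero', nc3_DD]

theorem nc3_t0 (hB : Bl M) (c : Gs M) : nc3t 𝒜 hB c (0, 0) = c := by
  refine eq_of_vel' 𝒜 ?_ ?_
  · rw [nc3_foot]
    exact symm_zero' 𝒜 _
  · unfold nc3t
    have h1 : nc3W 𝒜 c (0, 0) = 𝒜.vel c.1 0 := by rw [nc3_W0, add_zero]
    rw [h1, gw_vel 𝒜 hB _ (vel_ne 𝒜 c), nrm_of_norm (vel_norm 𝒜 c)]

theorem nc3_sm (hB : Bl M) (c : Gs M) : SmGA 𝒜 (nc3t 𝒜 hB c) (0, 0) := by
  have hfoot : (fun z : Eu n × Eu n => (nc3b 𝒜 hB c z.1).1 0) = fun z => (𝒜.ψ (c.1 0)).symm z.1 :=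
    funext fun z => nc3_bfoot hB c z.1
  have hx : SmAt 𝒜 (fun z : Eu n × Eu n => (nc3b 𝒜 hB c z.1).1 0) (0, 0) := by
    rw [hfoot]
    exact smAt_symm contDiffAt_fst (zero_mem_target 𝒜 _)
  have hp : (nc3b 𝒜 hB c ((0 : Eu n), (0 : Eu n)).1).1 0 ∈ (𝒜.ψ (c.1 0)).source := by
    rw [nc3_bfoot]
    show (𝒜.ψ (c.1 0)).symm 0 ∈ _
    rw [symm_zero']
    exact 𝒜.mem _
  refine smGA_gw (c := fun z : Eu n × Eu n => nc3b 𝒜 hB c z.1) (w := nc3W 𝒜 c) hB hx hp ?_ ?_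
  · show ContDiffAt ℝ ∞ (fun z : Eu n × Eu n => CC 𝒜 (c.1 0) ((nc3b 𝒜 hB c z.1).1 0) (nc3W 𝒜 c z)) (0, 0)
    have h1 : ContDiffAt ℝ ∞ (fun z : Eu n × Eu n => 𝒜.vel c.1 0 + z.2) (0, 0) := contDiffAt_const.add contDiffAt_snd
    refine h1.congr_of_eventuallyEq ?_
    filter_upwards [hx.cont.eventually ((𝒜.ψ (c.1 0)).open_source.mem_nhds hp)] with z hz
    rw [nc3_bfoot] at hz ⊢
    exact CC_DD 𝒜 hz _
  · rw [nc3_W0, add_zero]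
    exact vel_ne 𝒜 c

theorem nc3_contDiff (hB : Bl M) (c : Gs M) : ContDiffAt ℝ ∞ (nc3e 𝒜 hB c) (0, 0) := by
  have h1 := (nc3_sm (𝒜 := 𝒜) hB c).at hB π
  exact h1.chart (by rw [nc3_t0]; exact 𝒜.mem _)

theorem nc3_isVar (hB : Bl M) (c : Gs M) (z : Eu n × Eu n) :
    IsVar 𝒜 c z.1 (fderiv ℝ (nc3e 𝒜 hB c) (0, 0) z) := by
  have hz0 : (0 : ℝ) • z = (0, 0) := zero_smul ℝ z
  have hl : HasDerivAt (fun θ : ℝ => θ • z) z 0 := by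
    have := (hasDerivAt_id (0 : ℝ)).smul_const z
    rwa [one_smul] at this
  refine ⟨fun θ => nc3t 𝒜 hB c (θ • z), ?_, ?_, ?_, ?_⟩
  · have h1 : SmGA 𝒜 (nc3t 𝒜 hB c) ((fun θ : ℝ => θ • z) 0) := by
      show SmGA 𝒜 (nc3t 𝒜 hB c) ((0 : ℝ) • z)
      rw [hz0]
      exact nc3_sm hB c
    exact SmGA.comp h1 (contDiffAt_id.smul contDiffAt_const)
  · show nc3t 𝒜 hB c ((0 : ℝ) • z) = c
    rw [hz0, nc3_t0]
  · have h1 : HasDerivAt (fun θ : ℝ => θ • z.1) z.1 0 := by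
      have := (hasDerivAt_id (0 : ℝ)).smul_const z.1
      rwa [one_smul] at this
    refine h1.congr_of_eventuallyEq ?_
    have h2 : Tendsto (fun θ : ℝ => θ • z.1) (𝓝 0) (𝓝 0) := by
      have := h1.continuousAt.tendsto
      rwa [zero_smul] at this
    filter_upwards [h2.eventually ((𝒜.ψ (c.1 0)).open_target.mem_nhds (zero_mem_target 𝒜 _))] with θ hθ
    rw [nc3_foot]
    exact (𝒜.ψ (c.1 0)).right_inv hθ
  · have h1 : HasFDerivAt (nc3e 𝒜 hB c) (fderiv ℝ (nc3e 𝒜 hB c) (0, 0)) ((fun θ : ℝ => θ • z) 0) := by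
      show HasFDerivAt _ _ ((0 : ℝ) • z)
      rw [hz0]
      exact ((nc3_contDiff hB c).differentiableAt (by simp)).hasFDerivAt
    exact h1.comp_hasDerivAt (0 : ℝ) hl

theorem nc3_ker (hB : Bl M) {κ : ℕ} (hk : 𝒜.HK κ) (c : Gs M) {y : Eu n} (h : fderiv ℝ (nc3e 𝒜 hB c) (0, 0) (0, y) = 0) :
    y ∈ 𝒜.PV (c.1 0) (𝒜.vel c.1 0) := by
  have hXs : 𝒜.Ex (c.1 0) (rad π (𝒜.vel c.1 0)) ∈ (𝒜.ψ (c.1 π)).source := by
    rw [← gs_Ex 𝒜 hB]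
    exact 𝒜.mem _
  refine ker_X_PV 𝒜 hB hk (vel_ne 𝒜 c) hXs ?_
  have h3 : HasFDerivAt (nc3e 𝒜 hB c) (fderiv ℝ (nc3e 𝒜 hB c) (0, 0)) (0, 0) :=
    ((nc3_contDiff hB c).differentiableAt (by simp)).hasFDerivAt
  have h4 : HasFDerivAt (fun a : Eu n => nc3e 𝒜 hB c (0, a))
      ((fderiv ℝ (nc3e 𝒜 hB c) (0, 0)).comp (ContinuousLinearMap.inr ℝ (Eu n) (Eu n))) 0 :=
    h3.comp (0 : Eu n) (hasFDerivAt_prodMk_right (0 : Eu n) (0 : Eu n))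
  have h5 : HasFDerivAt (fun a : Eu n => 𝒜.vel c.1 0 + a) (ContinuousLinearMap.id ℝ (Eu n)) 0 :=
    (hasFDerivAt_id (0 : Eu n)).const_add _
  have h6 : HasFDerivAt (𝒜.X (c.1 0) (c.1 π) π) (fderiv ℝ (𝒜.X (c.1 0) (c.1 π) π) (𝒜.vel c.1 0)) (𝒜.vel c.1 0 + 0) := by
    rw [add_zero]
    exact ((contDiffAt_X 𝒜 hB _ (c.1 π) π (vel_ne 𝒜 _) hXs).differentiableAt (by simp)).hasFDerivAt
  have h7 := h6.comp (0 : Eu n) h5
  have h8 : (fun a : Eu n => nc3e 𝒜 hB c (0, a)) =ᶠ[𝓝 0]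
      (𝒜.X (c.1 0) (c.1 π) π) ∘ fun a : Eu n => 𝒜.vel c.1 0 + a := by
    have h9 : ContinuousAt (fun a : Eu n => 𝒜.vel c.1 0 + a) 0 := h5.continuousAt
    have h10 : 𝒜.vel c.1 0 + (0 : Eu n) ≠ 0 := by
      rw [add_zero]; exact vel_ne 𝒜 _
    filter_upwards [h9.eventually_ne h10] with a ha
    show 𝒜.ψ (c.1 π) ((gw 𝒜 hB (nc3b 𝒜 hB c 0) (nc3W 𝒜 c (0, a))).1 π) =
      𝒜.ψ (c.1 π) (𝒜.Ex (c.1 0) (rad π (𝒜.vel c.1 0 + a)))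
    rw [nc3_W0, gw_eq 𝒜 hB _ ha, nc3_bfoot, symm_zero']
  have h11 := congrArg (fun L : Eu n →L[ℝ] Eu n => L y) ((h4.congr_of_eventuallyEq h8.symm).unique h7)
  have h12 : fderiv ℝ (𝒜.X (c.1 0) (c.1 π) π) (𝒜.vel c.1 0) y = fderiv ℝ (nc3e 𝒜 hB c) (0, 0) (0, y) := h11.symm
  rw [h12, h]

/-- pairs (foot velocity, top velocity) of the family -/
def nc3T (𝒜 : SDist n M) (hB : Bl M) (c : Gs M) : Eu n × Eu n →ₗ[ℝ] Eu n × Eu n :=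
  (LinearMap.fst ℝ (Eu n) (Eu n)).prod (fderiv ℝ (nc3e 𝒜 hB c) (0, 0) : Eu n × Eu n →ₗ[ℝ] Eu n)

theorem nc3_finrank_ker (hB : Bl M) {κ : ℕ} (hk : 𝒜.HK κ) (c : Gs M) :
    finrank ℝ (LinearMap.ker (nc3T 𝒜 hB c)) ≤ κ + 1 := by
  have h1 : LinearMap.ker (nc3T 𝒜 hB c) ≤ (𝒜.PV (c.1 0) (𝒜.vel c.1 0)).map (LinearMap.inr ℝ (Eu n) (Eu n)) := by
    rintro ⟨a, y⟩ hz
    rw [LinearMap.mem_ker] at hz
    have h2 : (a, fderiv ℝ (nc3e 𝒜 hB c) (0, 0) (a, y)) = ((0 : Eu n), (0 : Eu n)) := hz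
    rw [Prod.mk.injEq] at h2
    obtain ⟨rfl, h3⟩ := h2
    exact ⟨y, nc3_ker hB hk c h3, rfl⟩
  calc finrank ℝ (LinearMap.ker (nc3T 𝒜 hB c))
      ≤ finrank ℝ ((𝒜.PV (c.1 0) (𝒜.vel c.1 0)).map (LinearMap.inr ℝ (Eu n) (Eu n))) := Submodule.finrank_mono h1
    _ ≤ finrank ℝ (𝒜.PV (c.1 0) (𝒜.vel c.1 0)) := Submodule.finrank_map_le _ _
    _ = κ + 1 := finrank_PV 𝒜 hB hk _ (vel_ne 𝒜 c)

/-- the conditions -/
def nc3P {κ : ℕ} (v v' : Eu n) (b b' : Fin κ → Eu n) : Eu n × Eu n →ₗ[ℝ] ℝ × (Fin κ → ℝ) where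
  toFun z := (⟪v, z.1⟫ - ⟪v', z.2⟫, fun i => ⟪b i, z.1⟫ - ⟪b' i, z.2⟫)
  map_add' x y := by
    ext
    · simp only [Prod.fst_add, Prod.snd_add, inner_add_right]
      ring
    · simp only [Prod.fst_add, Prod.snd_add, inner_add_right, Pi.add_apply]
      ring
  map_smul' r x := by
    ext
    · simp only [Prod.smul_fst, Prod.smul_snd, real_inner_smul_right, RingHom.id_apply, smul_eq_mul]
      ring
    · simp only [Prod.smul_fst, Prod.smul_snd, real_inner_smul_right, RingHom.id_apply, smul_eq_mul, Pi.smul_apply]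
      ring

theorem nc3P_surj {κ : ℕ} {v v' : Eu n} {b b' : Fin κ → Eu n} (hv : ‖v‖ = 1) (hb : Orthonormal ℝ b)
    (hvb : ∀ i, ⟪v, b i⟫ = 0) : Function.Surjective (nc3P v v' b b') := by
  rintro ⟨r, s⟩
  refine ⟨(r • v + ∑ j, s j • b j, 0), ?_⟩
  have hvv : ⟪v, v⟫ = 1 := by rw [real_inner_self_eq_norm_sq, hv]; norm_num
  have e1 : ⟪v, r • v + ∑ j, s j • b j⟫ = r := by
    rw [inner_add_right, real_inner_smul_right, hvv, inner_sum, mul_one]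
    rw [Finset.sum_eq_zero, add_zero]
    intro j _
    rw [real_inner_smul_right, hvb, mul_zero]
  have e2 : ∀ i, ⟪b i, r • v + ∑ j, s j • b j⟫ = s i := by
    intro i
    rw [inner_add_right, real_inner_smul_right, real_inner_comm, hvb, mul_zero, zero_add]
    exact hb.inner_right_fintype s i
  show (⟪v, r • v + ∑ j, s j • b j⟫ - ⟪v', (0 : Eu n)⟫, fun i => ⟪b i, r • v + ∑ j, s j • b j⟫ - ⟪b' i, (0 : Eu n)⟫) = (r, s)
  rw [Prod.mk.injEq]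
  refine ⟨by rw [e1, inner_zero_right, sub_zero], ?_⟩
  funext i
  rw [e2, inner_zero_right, sub_zero]

theorem exists_var (hB : Bl M) {κ : ℕ} (hk : 𝒜.HK κ) {c : Gs M} {A B : Eu n} (h0 : ⟪𝒜.vel c.1 0, A⟫ = ⟪𝒜.vel c.1 π, B⟫)
    (h1 : ∀ w ∈ Kc 𝒜 c, ⟪w, A⟫ = ⟪thK 𝒜 hB c w, B⟫) : IsVar 𝒜 c A B := by
  have hfr := finrank_Kc hB hk c
  have hKe : ∃ b : Fin κ → Eu n, Orthonormal ℝ b ∧ ∀ i, b i ∈ Kc 𝒜 c := by
    obtain ⟨bb⟩ : Nonempty (OrthonormalBasis (Fin κ) ℝ (Kc 𝒜 c)) := by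
      have := stdOrthonormalBasis ℝ (Kc 𝒜 c)
      rw [hfr] at this
      exact ⟨this⟩
    refine ⟨fun i => (bb i : Eu n), ?_, fun i => (bb i).2⟩
    exact bb.orthonormal.comp_linearIsometry (Kc 𝒜 c).subtypeₗᵢ
  obtain ⟨b, hb, hbK⟩ := hKe
  have hvb : ∀ i, ⟪𝒜.vel c.1 0, b i⟫ = 0 := fun i => (mem_Kc_iff.1 (hbK i)).2
  have hsurj := nc3P_surj (v' := 𝒜.vel c.1 π) (b' := fun i => thK 𝒜 hB c (b i)) (vel_norm 𝒜 c) hb hvb
  have hle : LinearMap.range (nc3T 𝒜 hB c) ≤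
      LinearMap.ker (nc3P (𝒜.vel c.1 0) (𝒜.vel c.1 π) b fun i => thK 𝒜 hB c (b i)) := by
    rintro _ ⟨z, rfl⟩
    have hz := nc3_isVar (𝒜 := 𝒜) hB c z
    rw [LinearMap.mem_ker]
    show (⟪𝒜.vel c.1 0, z.1⟫ - ⟪𝒜.vel c.1 π, fderiv ℝ (nc3e 𝒜 hB c) (0, 0) z⟫,
      fun i => ⟪b i, z.1⟫ - ⟪thK 𝒜 hB c (b i), fderiv ℝ (nc3e 𝒜 hB c) (0, 0) z⟫) = 0
    rw [Prod.mk_eq_zero]
    refine ⟨by rw [var_vel hB hz, sub_self], ?_⟩
    funext i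
    rw [thK_inner hB hz (hbK i), sub_self]
    rfl
  have hd1 := LinearMap.finrank_range_add_finrank_ker (nc3T 𝒜 hB c)
  have hd2 := LinearMap.finrank_range_add_finrank_ker (nc3P (𝒜.vel c.1 0) (𝒜.vel c.1 π) b fun i => thK 𝒜 hB c (b i))
  rw [LinearMap.range_eq_top.2 hsurj, finrank_top, Module.finrank_prod, Module.finrank_self, Module.finrank_fin_fun] at hd2
  have hd3 := nc3_finrank_ker (𝒜 := 𝒜) hB hk c
  have heq := Submodule.eq_of_le_of_finrank_le hle (by omega)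
  have hmem : (A, B) ∈ LinearMap.range (nc3T 𝒜 hB c) := by
    rw [heq, LinearMap.mem_ker]
    show (⟪𝒜.vel c.1 0, A⟫ - ⟪𝒜.vel c.1 π, B⟫, fun i => ⟪b i, A⟫ - ⟪thK 𝒜 hB c (b i), B⟫) = 0
    rw [Prod.mk_eq_zero]
    refine ⟨by rw [h0, sub_self], ?_⟩
    funext i
    rw [h1 _ (hbK i), sub_self]
    rfl
  obtain ⟨z, hz⟩ := hmem
  have hz' : (z.1, fderiv ℝ (nc3e 𝒜 hB c) (0, 0) z) = (A, B) := hz
  rw [Prod.mk.injEq] at hz'
  rw [← hz'.1, ← hz'.2]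
  exact nc3_isVar hB c z

end Pool.Agent.Lib.MP_ccbbf6_gt.L5.NEG
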