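import Pool.Agent.Lib.MP_ccbbf6_gt.L5.NC1
import Pool.Agent.Lib.MP_ccbbf6_gt.L5.NC3
import Pool.Agent.Lib.MP_ccbbf6_gt.L5.NS3

/-!
# NC4: the evaluation `evc`; the quadratic form is nonpositive on its kernel (Level 5, block NEG)

PROOFS.
`evc_mem`: `Hc_mem`, `thK_mem` at `shift π c` (`shift π (shift π c) = c` by `shift_add`, `shift_per`). `evc_add`, `evc_smul`: `thK_add`, `thK_smul`, linearity of `X1`, `Hc`. `evc_inner`: `inner_Hc`, `inner_thK`, `thK_thK`: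
 `⟪thK (shift π c) y, w⟫ = ⟪thK (shift π c) y, thK (shift π c) (thK c w)⟫ = ⟪y, thK c w⟫`, `y = Hc (shift π c) (X1 (shift π c) ξ)`.
`evc_smooth`: `v ↦ X1 C (σ v) (ξ v)` is an `SmV` field (`CC p (x v)` of it is `fderiv (fun ξ => 𝒜.ψ p (C ξ (σ v))) 0 (ξ v)`, smooth by `hC.smooth` on `F × Eu N`), `smV_Hc`, `smV_thK`, `SmV.comp` for the shifted family.
`QB_nonpos`: suppose `0 < QB c ξ ξ`, wlog `‖ξ‖ ≤ 1` (scale). Let `x i θ := Cx (θ • ξ) (shift (i π/2) c)`; smooth at `0` (`smooth_Cx`), values `c.1 (i π/2)` at `0` (`Cx_zero`), velocities `v i := X1 (shift (i π/2) c) ξ` (`Cx_var`). By `evc_inner`, `hC.normal` and `exists_var`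
 `IsVar c (v 0) (v 2)` (`⟪vel c 0, v 0⟫ = 0 = ⟪vel c π, v 2⟫` by `hC.normal`; `h1` by `evc = 0`): a family `τ`. `y 0 θ := (τ θ).1 0`, `y 2 θ := (τ θ).1 π`, `y 1 := x 1`, `y 3 := x 3`. `L4g (y ..) ≥ 2 * π` (`four_ge`, `(τ θ).2`). `four_diff`: `L4g (x ..) ≥ 2π - o(θ²)`.
 `lip_Cx`: `L4g (x ..) ≤ 4 * (π/2) * √(1 - θ² π⁻¹ QB + ε θ²) ≤ 2π (1 + θ² (ε - π⁻¹ QB)/2)` (the last side: `Cx (θ • ξ) (shift (2π) c) = Cx (θ • ξ) c`). With `ε := π⁻¹ QB / 2`: contradiction for small `θ ≠ 0`.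
-/

set_option autoImplicit false
set_option linter.unusedSectionVars false

open Set Filter Topology Metric Real Module
open scoped ContDiff RealInnerProductSpace

noncomputable section

namespace Pool.Agent.Lib.MP_ccbbf6_gt.L5.NEG

open Geo L4 L4.ORI

variable {n : ℕ} {M : Type*} [MetricSpace M] [CompactSpace M] {𝒜 : SDist n M} {N : ℕ} {C : Eu N → Gs M → M}

private theorem NC4_pp (𝒜 : SDist n M) (hB : Bl M) (c : Gs M) : shift π (shift π c) = c := by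
  rw [← shift_add, ← two_mul]
  exact shift_per 𝒜 hB c

theorem evc_mem (hB : Bl M) (c : Gs M) (ξ : Eu N) : evc 𝒜 hB C c ξ ∈ Kc 𝒜 c := by
  unfold evc
  refine Submodule.sub_mem _ (Hc_mem c _) ?_
  have h := thK_mem (𝒜 := 𝒜) hB (c := shift π c) (Hc_mem (𝒜 := 𝒜) (shift π c) (X1 𝒜 C (shift π c) ξ))
  rwa [NC4_pp 𝒜 hB] at h

theorem evc_add (hB : Bl M) (c : Gs M) (ξ ξ' : Eu N) : evc 𝒜 hB C c (ξ + ξ') = evc 𝒜 hB C c ξ + evc 𝒜 hB C c ξ' := by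
  unfold evc
  simp only [map_add]
  rw [thK_add hB (Hc_mem _ _) (Hc_mem _ _)]
  abel

theorem evc_smul (hB : Bl M) (c : Gs M) (r : ℝ) (ξ : Eu N) : evc 𝒜 hB C c (r • ξ) = r • evc 𝒜 hB C c ξ := by
  unfold evc
  simp only [map_smul]
  rw [thK_smul hB r (Hc_mem _ _), smul_sub]

theorem evc_inner (hB : Bl M) (c : Gs M) (ξ : Eu N) {w : Eu n} (hw : w ∈ Kc 𝒜 c) :
    ⟪evc 𝒜 hB C c ξ, w⟫ = ⟪X1 𝒜 C c ξ, w⟫ - ⟪X1 𝒜 C (shift π c) ξ, thK 𝒜 hB c w⟫ := by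
  have h1 := thK_mem (𝒜 := 𝒜) hB hw
  have h2 := thK_thK (𝒜 := 𝒜) hB hw
  have h3 := inner_thK (𝒜 := 𝒜) hB (c := shift π c) (Hc_mem (𝒜 := 𝒜) (shift π c) (X1 𝒜 C (shift π c) ξ)) h1
  rw [h2] at h3
  unfold evc
  rw [inner_sub_left, inner_Hc _ _ _ hw, h3, inner_Hc _ _ _ h1]

/-- the first order variation is a smooth field -/
private theorem NC4_X1 (hC : PFam 𝒜 C) {F : Type} [NormedAddCommGroup F] [NormedSpace ℝ F] {σ : F → Gs M}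
    {ξ : F → Eu N} {u : F} (hσ : SmGAt 𝒜 σ u) (hξ : ContDiffAt ℝ ∞ ξ u) {p : M} (hp : (σ u).1 0 ∈ (𝒜.ψ p).source) :
    SmV 𝒜 p (fun v => (σ v).1 0) (fun v => X1 𝒜 C (σ v) (ξ v)) u := by
  have hS : SmAt 𝒜 (fun z : F × Eu N => C z.2 (σ z.1)) (u, 0) :=
    hC.smooth (σ := fun z : F × Eu N => σ z.1) (ξ := fun z : F × Eu N => z.2)
      (SmGAt.comp (σ := σ) (f := fun z : F × Eu N => z.1) (v := (u, 0)) hσ contDiffAt_fst) contDiffAt_snd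
  have h1 : ContDiffAt ℝ ∞ (fun z : F × Eu N => 𝒜.ψ p (C z.2 (σ z.1))) (u, 0) :=
    hS.chart (q := p) (by simp only [hC.zero]; exact hp)
  have h2 : ContDiffAt ℝ ∞ (fun v => fderiv ℝ (fun z : F × Eu N => 𝒜.ψ p (C z.2 (σ z.1))) (v, 0)) u := by
    have h3 : ContDiffAt ℝ ∞ (fderiv ℝ (fun z : F × Eu N => 𝒜.ψ p (C z.2 (σ z.1)))) (u, 0) := h1.fderiv_right (by simp)
    exact ContDiffAt.comp (g := fderiv ℝ (fun z : F × Eu N => 𝒜.ψ p (C z.2 (σ z.1)))) (f := fun v : F => (v, (0 : Eu N))) u h3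
      (contDiffAt_id.prodMk contDiffAt_const)
  have h4 : ContDiffAt ℝ ∞ (fun v => fderiv ℝ (fun z : F × Eu N => 𝒜.ψ p (C z.2 (σ z.1))) (v, 0) ((0 : F), ξ v)) u :=
    h2.clm_apply (contDiffAt_const.prodMk hξ)
  unfold SmV
  refine h4.congr_of_eventuallyEq ?_
  have hd : ∀ᶠ v in 𝓝 u, DifferentiableAt ℝ (fun z : F × Eu N => 𝒜.ψ p (C z.2 (σ z.1))) (v, 0) := by
    have h5 : ∀ᶠ z in 𝓝 (u, (0 : Eu N)), DifferentiableAt ℝ (fun z : F × Eu N => 𝒜.ψ p (C z.2 (σ z.1))) z := by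
      have h6 : ContDiffAt ℝ 1 (fun z : F × Eu N => 𝒜.ψ p (C z.2 (σ z.1))) (u, 0) := h1.of_le (by simp)
      filter_upwards [h6.eventually (by simp)] with z hz
      exact hz.differentiableAt (by simp)
    exact (Continuous.tendsto (f := fun v : F => (v, (0 : Eu N))) (by fun_prop) u).eventually h5
  filter_upwards [hσ.1.1.eventually ((𝒜.ψ p).open_source.mem_nhds hp), hd] with v h5 h6
  have hv : SmAt 𝒜 (fun ξ : Eu N => C ξ (σ v)) 0 :=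
    hC.smooth (σ := fun _ : Eu N => σ v) (ξ := fun ξ : Eu N => ξ) (smGAt_const (σ v) 0) contDiffAt_id
  have hv0 := hv.2
  simp only [hC.zero] at hv0
  have h7 : HasFDerivAt (fun ξ : Eu N => 𝒜.ψ ((σ v).1 0) (C ξ (σ v))) (X1 𝒜 C (σ v)) 0 :=
    (hv0.differentiableAt (by simp)).hasFDerivAt
  have h8 : HasFDerivAt (𝒜.ch p ((σ v).1 0)) (CC 𝒜 p ((σ v).1 0)) (𝒜.ψ ((σ v).1 0) (C 0 (σ v))) := by
    rw [hC.zero, 𝒜.zero]
    exact hasFDerivAt_ch 𝒜 h5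
  have h9 := h8.comp 0 h7
  have h10 : HasFDerivAt (fun ξ : Eu N => 𝒜.ψ p (C ξ (σ v))) ((CC 𝒜 p ((σ v).1 0)).comp (X1 𝒜 C (σ v))) 0 := by
    refine h9.congr_of_eventuallyEq ?_
    have hc := hv.1
    have hm : C 0 (σ v) ∈ (𝒜.ψ ((σ v).1 0)).source := by rw [hC.zero]; exact 𝒜.mem _
    filter_upwards [hc.eventually ((𝒜.ψ ((σ v).1 0)).open_source.mem_nhds hm)] with ζ hζ
    show 𝒜.ψ p (C ζ (σ v)) = 𝒜.ch p ((σ v).1 0) (𝒜.ψ ((σ v).1 0) (C ζ (σ v)))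
    unfold SDist.ch
    rw [(𝒜.ψ ((σ v).1 0)).left_inv hζ]
  have h11 : HasFDerivAt (fun ζ : Eu N => ((v, ζ) : F × Eu N)) (ContinuousLinearMap.inr ℝ F (Eu N)) 0 :=
    hasFDerivAt_prodMk_right v 0
  have h12 := HasFDerivAt.comp (g := fun z : F × Eu N => 𝒜.ψ p (C z.2 (σ z.1))) (f := fun ζ : Eu N => ((v, ζ) : F × Eu N))
    (0 : Eu N) h6.hasFDerivAt h11
  have h13 := h10.unique h12
  exact congrArg (fun L : Eu N →L[ℝ] Eu n => L (ξ v)) h13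

theorem evc_smooth (hB : Bl M) {κ : ℕ} (hk : 𝒜.HK κ) (hC : PFam 𝒜 C) {F : Type} [NormedAddCommGroup F] [NormedSpace ℝ F] {σ : F → Gs M}
    {ξ : F → Eu N} {u : F} (hσ : SmGAt 𝒜 σ u) (hξ : ContDiffAt ℝ ∞ ξ u) {p : M} (hp : (σ u).1 0 ∈ (𝒜.ψ p).source) :
    SmV 𝒜 p (fun v => (σ v).1 0) (fun v => evc 𝒜 hB C (σ v) (ξ v)) u := by
  have h1 := smV_Hc hB hk hσ hp (NC4_X1 hC hσ hξ hp)
  have hσ' : SmGAt 𝒜 (fun v => shift π (σ v)) u := hσ.shift hB (r := fun _ => π) contDiffAt_const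
  have h2 := smV_Hc hB hk hσ' (p := (shift π (σ u)).1 0) (𝒜.mem _) (NC4_X1 hC hσ' hξ (𝒜.mem _))
  have e1 : ∀ c : Gs M, (shift π c).1 π = c.1 0 := by
    intro c
    show c.1 (π + π) = c.1 0
    rw [show π + π = 0 + 2 * π by ring]
    exact c.2.closed 𝒜 hB 0
  have h3 := smV_thK hB hσ' (p := (shift π (σ u)).1 0) (q := p) (𝒜.mem _) (by rw [e1]; exact hp) h2
    (Eventually.of_forall fun v => Hc_mem _ _)
  have h4 := SmV.smul (f := fun _ : F => (-1 : ℝ)) h3 contDiffAt_const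
  simp only [e1] at h4
  have h5 := h1.add h4
  refine h5.congr (Eventually.of_forall fun v => ?_)
  show evc 𝒜 hB C (σ v) (ξ v) = _ + (-1 : ℝ) • _
  rw [neg_one_smul, ← sub_eq_add_neg]
  rfl

private theorem NC4_fin {P : Fin 4 → Prop} (h0 : P 0) (h1 : P 1) (h2 : P 2) (h3 : P 3) : ∀ i, P i := by
  intro i
  fin_cases i <;> assumption

private theorem NC4_core [Nonempty (Gs M)] (hB : Bl M) {κ : ℕ} (hk : 𝒜.HK κ) (e : Emb n 𝒜) (hC : PFam 𝒜 C) {c : Gs M} {ξ : Eu N}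
    (h : evc 𝒜 hB C c ξ = 0) (hξ : ‖ξ‖ ≤ 1) : QB 𝒜 C c ξ ξ ≤ 0 := by
  have hπ := Real.pi_pos
  by_contra hq
  rw [not_le] at hq
  obtain ⟨q, hqd⟩ : ∃ q : ℝ, q = π⁻¹ * QB 𝒜 C c ξ ξ := ⟨_, rfl⟩
  have hq0 : 0 < q := by rw [hqd]; positivity
  -- the curves
  have es : ∀ s : ℝ, (shift s c).1 0 = c.1 s := by
    intro s
    show c.1 (0 + s) = c.1 s
    rw [zero_add]
  have hxs : ∀ s : ℝ, SmAt 𝒜 (fun θ : ℝ => Cx 𝒜 C (θ • ξ) (shift s c)) 0 := fun s =>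
    hC.smooth_Cx hB e (σ := fun _ : ℝ => shift s c) (x := fun θ : ℝ => θ • ξ) (smGAt_const (shift s c) 0)
      (contDiffAt_id.smul contDiffAt_const)
  have hx0 : ∀ s : ℝ, Cx 𝒜 C ((0 : ℝ) • ξ) (shift s c) = c.1 s := by
    intro s
    rw [zero_smul, hC.Cx_zero, es]
  have hxv : ∀ s : ℝ, HasDerivAt (fun θ : ℝ => 𝒜.ψ (c.1 s) (Cx 𝒜 C (θ • ξ) (shift s c))) (X1 𝒜 C (shift s c) ξ) 0 := by
    intro s
    have h1 := hC.Cx_var hB e ξ (shift s c)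
    rwa [es] at h1
  -- the family of geodesics
  have hvar : IsVar 𝒜 c (X1 𝒜 C c ξ) (X1 𝒜 C (shift π c) ξ) := by
    refine exists_var hB hk ?_ ?_
    · rw [hC.normal c ξ]
      have h1 := hC.normal (shift π c) ξ
      have h2 : 𝒜.vel (shift π c).1 0 = 𝒜.vel c.1 π := by
        have h3 := vel_shift 𝒜 (c := c.1) π 0
        rw [zero_add] at h3
        exact h3
      rw [h2] at h1
      exact h1.symm
    · intro w hw
      have h1 := evc_inner (C := C) hB c ξ hw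
      rw [h, inner_zero_left] at h1
      rw [real_inner_comm, real_inner_comm (X1 𝒜 C (shift π c) ξ)]
      linarith
  obtain ⟨τ, hτ, hτ0, hτa, hτb⟩ := hvar
  have e0 : (((0 : Fin 4).val : ℝ) * (π / 2)) = 0 := by simp
  have e1 : (((1 : Fin 4).val : ℝ) * (π / 2)) = π / 2 := by simp
  have e2 : (((2 : Fin 4).val : ℝ) * (π / 2)) = π := by
    have : (((2 : Fin 4).val : ℕ) : ℝ) = 2 := by norm_num
    rw [this]
    ring
  have e3 : (((3 : Fin 4).val : ℝ) * (π / 2)) = 3 * (π / 2) := by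
    have : (((3 : Fin 4).val : ℕ) : ℝ) = 3 := by norm_num
    rw [this]
  obtain ⟨x, hxd⟩ : ∃ x : Fin 4 → ℝ → M, x = fun i θ => Cx 𝒜 C (θ • ξ) (shift ((i.val : ℝ) * (π / 2)) c) := ⟨_, rfl⟩
  obtain ⟨y, hyd⟩ : ∃ y : Fin 4 → ℝ → M, y = ![fun θ => (τ θ).1 0, x 1, fun θ => (τ θ).1 π, x 3] := ⟨_, rfl⟩
  have y0 : y 0 = fun θ => (τ θ).1 0 := by rw [hyd]; rfl
  have y1 : y 1 = x 1 := by rw [hyd]; rfl
  have y2 : y 2 = fun θ => (τ θ).1 π := by rw [hyd]; rfl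
  have y3 : y 3 = x 3 := by rw [hyd]; rfl
  have hx1 : ∀ i, SmAt 𝒜 (x i) 0 := by
    intro i
    rw [hxd]
    exact hxs _
  have hx2 : ∀ i : Fin 4, x i 0 = c.1 ((i.val : ℝ) * (π / 2)) := by
    intro i
    rw [hxd]
    exact hx0 _
  have hx3 : ∀ i : Fin 4, HasDerivAt (fun θ => 𝒜.ψ (c.1 ((i.val : ℝ) * (π / 2))) (x i θ))
      (X1 𝒜 C (shift ((i.val : ℝ) * (π / 2)) c) ξ) 0 := by
    intro i
    rw [hxd]
    exact hxv _
  have hy1 : ∀ i, SmAt 𝒜 (y i) 0 := by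
    refine NC4_fin ?_ ?_ ?_ ?_
    · rw [y0]
      exact hτ.ev hB (t := fun _ => 0) contDiffAt_const
    · rw [y1]
      exact hx1 1
    · rw [y2]
      exact hτ.ev hB (t := fun _ => π) contDiffAt_const
    · rw [y3]
      exact hx1 3
  have hy2 : ∀ i : Fin 4, y i 0 = c.1 ((i.val : ℝ) * (π / 2)) := by
    refine NC4_fin ?_ ?_ ?_ ?_
    · rw [y0, e0]
      simp only [hτ0]
    · rw [y1]
      exact hx2 1
    · rw [y2, e2]
      simp only [hτ0]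
    · rw [y3]
      exact hx2 3
  have hy3 : ∀ i : Fin 4, HasDerivAt (fun θ => 𝒜.ψ (c.1 ((i.val : ℝ) * (π / 2))) (y i θ))
      (X1 𝒜 C (shift ((i.val : ℝ) * (π / 2)) c) ξ) 0 := by
    refine NC4_fin ?_ ?_ ?_ ?_
    · rw [y0, e0, shift_zero]
      exact hτa
    · rw [y1]
      exact hx3 1
    · rw [y2, e2]
      exact hτb
    · rw [y3]
      exact hx3 3
  have hO := four_diff hB c hx1 hy1 hx2 hy2 hx3 hy3
  obtain ⟨θ₀, hθ₀, hlip⟩ := hC.lip_Cx hB e (ε := q / 2) (by positivity)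
  have f1 : ∀ᶠ θ in 𝓝 (0 : ℝ), ‖L4g (x 0 θ) (x 1 θ) (x 2 θ) (x 3 θ) - L4g (y 0 θ) (y 1 θ) (y 2 θ) (y 3 θ)‖ ≤
      π * q / 8 * ‖θ ^ 2‖ := hO.def (by positivity)
  have f2 : ∀ᶠ θ in 𝓝 (0 : ℝ), |θ| < θ₀ := by
    have : ContinuousAt (fun θ : ℝ => |θ|) 0 := continuous_abs.continuousAt
    exact this.eventually (gt_mem_nhds (by simpa using hθ₀))
  have f3 : ∀ᶠ θ in 𝓝 (0 : ℝ), θ ^ 2 * q < 1 := by
    have : ContinuousAt (fun θ : ℝ => θ ^ 2 * q) 0 := by fun_prop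
    exact this.eventually (gt_mem_nhds (by simp))
  obtain ⟨θ, ⟨g1, g2, g3⟩, g4⟩ := (((f1.and (f2.and f3)).filter_mono nhdsWithin_le_nhds).and
    (self_mem_nhdsWithin : {θ : ℝ | θ ≠ 0} ∈ 𝓝[≠] (0 : ℝ))).exists
  have hθ2 : 0 < θ ^ 2 := by
    have : θ ≠ 0 := g4
    positivity
  -- the lower bound
  have hlow : 2 * π ≤ L4g (y 0 θ) (y 1 θ) (y 2 θ) (y 3 θ) := by
    have h1 : dist (y 0 θ) (y 2 θ) = π := by
      rw [y0, y2]
      show dist ((τ θ).1 0) ((τ θ).1 π) = π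
      rw [(τ θ).2 0 π (by rw [zero_sub, abs_neg, abs_of_pos hπ]), zero_sub, abs_neg, abs_of_pos hπ]
    have h2 := four_ge (x0 := y 0 θ) (x1 := y 1 θ) (x2 := y 2 θ) (x3 := y 3 θ)
    rw [h1] at h2
    exact h2
  -- the upper bound
  obtain ⟨L, hLd⟩ : ∃ L : ℝ, L = √(1 - θ ^ 2 * (π⁻¹ * QB 𝒜 C c ξ ξ) + q / 2 * θ ^ 2) := ⟨_, rfl⟩
  have hL := hlip θ g2 c ξ hξ
  rw [← hLd] at hL
  have hup : L4g (x 0 θ) (x 1 θ) (x 2 θ) (x 3 θ) ≤ 2 * π * L := by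
    have h01 := hL 0 (π / 2)
    have h12 := hL (π / 2) π
    have h23 := hL π (3 * (π / 2))
    have h34 := hL (3 * (π / 2)) (2 * π)
    have a1 : |(0 : ℝ) - π / 2| = π / 2 := by rw [zero_sub, abs_neg, abs_of_pos (by positivity)]
    have a2 : |π / 2 - π| = π / 2 := by
      rw [show π / 2 - π = -(π / 2) by ring, abs_neg, abs_of_pos (by positivity)]
    have a3 : |π - 3 * (π / 2)| = π / 2 := by
      rw [show π - 3 * (π / 2) = -(π / 2) by ring, abs_neg, abs_of_pos (by positivity)]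
    have a4 : |3 * (π / 2) - 2 * π| = π / 2 := by
      rw [show 3 * (π / 2) - 2 * π = -(π / 2) by ring, abs_neg, abs_of_pos (by positivity)]
    rw [a1] at h01
    rw [a2] at h12
    rw [a3] at h23
    rw [a4] at h34
    simp only at h01 h12 h23 h34
    rw [shift_per 𝒜 hB] at h34
    rw [shift_zero] at h01
    have x0 : x 0 θ = Cx 𝒜 C (θ • ξ) c := by rw [hxd]; simp only; rw [e0, shift_zero]
    have x1 : x 1 θ = Cx 𝒜 C (θ • ξ) (shift (π / 2) c) := by rw [hxd]; simp only; rw [e1]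
    have x2 : x 2 θ = Cx 𝒜 C (θ • ξ) (shift π c) := by rw [hxd]; simp only; rw [e2]
    have x3 : x 3 θ = Cx 𝒜 C (θ • ξ) (shift (3 * (π / 2)) c) := by rw [hxd]; simp only; rw [e3]
    unfold L4g
    rw [x0, x1, x2, x3]
    linarith
  have hLle : L ≤ 1 - θ ^ 2 * q / 4 := by
    have h1 : L = √(1 + -(θ ^ 2 * q / 2)) := by
      rw [hLd, ← hqd]
      congr 1
      ring
    rw [h1]
    have h2 := Real.sqrt_one_add_le (x := -(θ ^ 2 * q / 2)) (by linarith)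
    linarith
  rw [Real.norm_eq_abs, Real.norm_eq_abs, abs_of_pos hθ2] at g1
  have h3 := (abs_le.1 g1).1
  have h4 : 2 * π * L ≤ 2 * π * (1 - θ ^ 2 * q / 4) := mul_le_mul_of_nonneg_left hLle (by positivity)
  have h5 : 0 < π * q * θ ^ 2 := by positivity
  nlinarith

theorem QB_nonpos [Nonempty (Gs M)] (hB : Bl M) {κ : ℕ} (hk : 𝒜.HK κ) (e : Emb n 𝒜) (hC : PFam 𝒜 C) {c : Gs M} {ξ : Eu N}
    (h : evc 𝒜 hB C c ξ = 0) : QB 𝒜 C c ξ ξ ≤ 0 := by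
  obtain ⟨r, hrd⟩ : ∃ r : ℝ, r = (‖ξ‖ + 1)⁻¹ := ⟨_, rfl⟩
  have hn := norm_nonneg ξ
  have hr : 0 < r := by rw [hrd]; positivity
  have h1 : ‖r • ξ‖ ≤ 1 := by
    rw [norm_smul, Real.norm_eq_abs, abs_of_pos hr, hrd, inv_mul_le_iff₀ (by positivity)]
    linarith
  have h2 : evc 𝒜 hB C c (r • ξ) = 0 := by rw [evc_smul, h, smul_zero]
  have h3 := NC4_core hB hk e hC h2 h1
  have h4 : QB 𝒜 C c (r • ξ) (r • ξ) = r ^ 2 * QB 𝒜 C c ξ ξ := by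
    rw [map_smul, map_smul]
    show r • (r • QB 𝒜 C c ξ ξ) = _
    rw [smul_eq_mul, smul_eq_mul]
    ring
  rw [h4] at h3
  by_contra h5
  rw [not_le] at h5
  have : 0 < r ^ 2 * QB 𝒜 C c ξ ξ := by positivity
  linarith

/-- the evaluation as a linear map -/
def evL (hB : Bl M) (C : Eu N → Gs M → M) (c : Gs M) : Eu N →ₗ[ℝ] Eu n where
  toFun := evc 𝒜 hB C c
  map_add' := evc_add hB c
  map_smul' := evc_smul hB c

theorem evL_apply (hB : Bl M) (c : Gs M) (ξ : Eu N) : evL (𝒜 := 𝒜) hB C c ξ = evc 𝒜 hB C c ξ := rfl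

/-- the index is at most `κ` -/
theorem finrank_pos_le [Nonempty (Gs M)] (hB : Bl M) {κ : ℕ} (hk : 𝒜.HK κ) (e : Emb n 𝒜) (hC : PFam 𝒜 C) (c : Gs M)
    (W : Submodule ℝ (Eu N)) (hW : ∀ ξ ∈ W, ξ ≠ 0 → 0 < QB 𝒜 C c ξ ξ) : finrank ℝ W ≤ κ := by
  obtain ⟨L, hL⟩ : ∃ L : W →ₗ[ℝ] Kc 𝒜 c, ∀ x : W, ((L x : Kc 𝒜 c) : Eu n) = evc 𝒜 hB C c (x : Eu N) :=
    ⟨((evL (𝒜 := 𝒜) hB C c).codRestrict (Kc 𝒜 c) fun x => evc_mem hB c x).domRestrict W, fun x => rfl⟩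
  have hinj : Function.Injective L := by
    rw [injective_iff_map_eq_zero]
    intro x hx
    by_contra h0
    have h1 : evc 𝒜 hB C c x = 0 := by rw [← hL, hx]; rfl
    have h2 := QB_nonpos hB hk e hC h1
    have h3 := hW x x.2 (fun h => h0 (Subtype.ext h))
    linarith
  have h := LinearMap.finrank_le_finrank_of_injective hinj
  rwa [finrank_Kc hB hk c] at h

end Pool.Agent.Lib.MP_ccbbf6_gt.L5.NEG
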