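import Pool.Agent.Lib.MP_ccbbf6_gt.L4.OriF
import Pool.Agent.Lib.MP_ccbbf6_gt.L5.NC4

/-!
# NK: the unit sphere bundle of the negative bundle as a plot space: circle action, isomorphism with `spD` (Level 5, block NEG) (helper93)
-/

set_option autoImplicit false
set_option linter.unusedSectionVars false

open Set Filter Topology Metric Real Module
open scoped ContDiff RealInnerProductSpace

noncomputable section

namespace Pool.Agent.Lib.MP_ccbbf6_gt.L5.NEG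

open Geo L4 L4.ORI L4.FR

variable {n : ℕ} {M : Type} [MetricSpace M] [CompactSpace M] {𝒜 : SDist n M} {N κ : ℕ} {C : Eu N → Gs M → M}
  {P : Gs M → Eu N →L[ℝ] Eu N}

/-- the lifted geodesic flow, period `1` -/
def circN (hB : Bl M) (hN : NegData 𝒜 κ hB C P) : Circ (spN 𝒜 P) where
  a := ⟨fun z => ⟨(shift (2 * π * z.2) z.1.1.1, z.1.1.2), by
    refine ⟨?_, z.1.2.2⟩
    show P (shift (2 * π * z.2) z.1.1.1) z.1.1.2 = z.1.1.2
    rw [hN.inv]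
    exact z.1.2.1⟩, fun _ p => ⟨SmG.shift hB p.2.1.1 (contDiff_const.mul p.2.2), p.2.1.2⟩⟩
  zero := fun z => Subtype.ext (Prod.ext (by
    show shift (2 * π * 0) z.1.1 = z.1.1
    rw [mul_zero, shift_zero]) rfl)
  add := fun z s t => Subtype.ext (Prod.ext (by
    show shift (2 * π * t) (shift (2 * π * s) z.1.1) = shift (2 * π * (s + t)) z.1.1
    rw [← shift_add]
    ring_nf) rfl)
  one := fun z t => Subtype.ext (Prod.ext (by
    show shift (2 * π * (t + 1)) z.1.1 = shift (2 * π * t) z.1.1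
    rw [mul_add, mul_one, shift_add, shift_per 𝒜 hB]) rfl)

/-- the projection to `UM` -/
def prN (𝒜 : SDist n M) (P : Gs M → Eu N →L[ℝ] Eu N) : SMap (spN 𝒜 P) (spG 𝒜) := ⟨fun z => z.1.1, fun _ p => p.2.1⟩

/-- the antipode of the fibres -/
def antN (𝒜 : SDist n M) (P : Gs M → Eu N →L[ℝ] Eu N) : SMap (spN 𝒜 P) (spN 𝒜 P) := ⟨fun z => ⟨(z.1.1, -z.1.2), by
  refine ⟨?_, ?_⟩
  · show P z.1.1 (-z.1.2) = -z.1.2
    rw [map_neg]
    exact congrArg Neg.neg z.2.1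
  · show ‖-z.1.2‖ = 1
    rw [norm_neg]
    exact z.2.2⟩, fun _ p => ⟨p.2.1, p.2.2.neg⟩⟩

theorem evc_ne (hB : Bl M) (hN : NegData 𝒜 κ hB C P) (z : (spN 𝒜 P).pt) : evc 𝒜 hB C z.1.1 z.1.2 ≠ 0 := by
  intro h
  have h1 := hN.ev z.1.1 z.1.2 z.2.1 h
  have h2 := z.2.2
  rw [h1, norm_zero] at h2
  exact zero_ne_one h2

/-- `spN → spD` -/
def toD (hB : Bl M) {κ : ℕ} (hk : 𝒜.HK κ) (hN : NegData 𝒜 κ hB C P) : SMap (spN 𝒜 P) (spD 𝒜) :=
  ⟨fun z => ⟨(z.1.1, gw 𝒜 hB z.1.1 (evc 𝒜 hB C z.1.1 z.1.2)), by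
    have h0 := evc_ne hB hN z
    have hm := mem_Kc_iff.1 (evc_mem (𝒜 := 𝒜) (C := C) hB z.1.1 z.1.2)
    refine ⟨gw_zero 𝒜 hB _ _, top_of_mem 𝒜 hB _ h0 hm.1, ?_⟩
    show ⟪𝒜.vel z.1.1.1 0, 𝒜.vel (gw 𝒜 hB z.1.1 (evc 𝒜 hB C z.1.1 z.1.2)).1 0⟫ = 0
    rw [gw_vel 𝒜 hB _ h0]
    unfold nrm
    rw [real_inner_smul_right, hm.2, mul_zero]⟩, fun k p => by
    refine ⟨p.2.1, smG_of fun u => ?_⟩
    obtain ⟨q, hq⟩ : ∃ q, q = (p.1 u).1.1.1 0 := ⟨_, rfl⟩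
    have hq' : (p.1 u).1.1.1 0 ∈ (𝒜.ψ q).source := by rw [hq]; exact 𝒜.mem _
    exact smGA_gw hB (p.2.1.at u).1 hq' (evc_smooth hB hk hN.fam (σ := fun u => (p.1 u).1.1) (ξ := fun u => (p.1 u).1.2)
      (p.2.1.atP u) p.2.2.contDiffAt hq') (evc_ne hB hN (p.1 u))⟩

end Pool.Agent.Lib.MP_ccbbf6_gt.L5.NEG
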