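import Pool.Agent.Lib.MP_ccbbf6_gt.L5.SPE2

/-! # SPE3: the spectral projection `pp (A v)` is smooth in `v` when there is a gap. -/

noncomputable section
open scoped ContDiff Topology InnerProductSpace
open Filter Module

namespace Pool.Agent.Lib.MP_ccbbf6_gt.L5.SPE

set_option linter.unusedSectionVars false
set_option linter.deprecated false
variable {F : Type*} [NormedAddCommGroup F] [InnerProductSpace ℝ F] [FiniteDimensional ℝ F]

/-- rank and positivity of the projection under the gap hypothesis -/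
theorem rank_pp {A : F →L[ℝ] F} (hA : Sy A) {d : ℝ} (hd : 0 < d) {k : ℕ}
    (h1 : ∃ V : Submodule ℝ F, k ≤ finrank ℝ V ∧ ∀ x ∈ V, d * ‖x‖ ^ 2 ≤ ⟪A x, x⟫_ℝ)
    (h2 : ∀ V : Submodule ℝ F, (∀ x ∈ V, x ≠ 0 → 0 < ⟪A x, x⟫_ℝ) → finrank ℝ V ≤ k) :
    finrank ℝ (LinearMap.range (pp A : F →ₗ[ℝ] F)) = k := by
  have hB : Sy (A - (d / 2) • ContinuousLinearMap.id ℝ F) := by
    intro x y
    simp [inner_sub_left, inner_sub_right, inner_smul_left, inner_smul_right, hA x y]
  obtain ⟨g1, g2, -⟩ := (isPP_pp hB).gap hd h1 h2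
  rw [pp_eq hA g1]
  exact g2

/-- the projection from a square root -/
theorem isPP_of_sqrt {B S T : F →L[ℝ] F} (hB : Sy B) (hs : Sy S) (hp : Pd S)
    (h : S * S = B * B) (h1 : S * T = 1) (h2 : T * S = 1) :
    IsPP B ((1 / 2 : ℝ) • (1 + B * T)) := by
  have hC : S * B - B * S = 0 := by
    refine sylv hs hp ?_
    have e1 : S * (S * B) = B * B * B := by rw [← mul_assoc, h]
    have e2 : B * S * S = B * (B * B) := by rw [mul_assoc, h]
    rw [mul_sub, sub_mul, e1, e2]
    noncomm_ring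
  have hSB : S * B = B * S := sub_eq_zero.1 hC
  have hTB : B * T = T * B := by
    calc B * T = T * S * (B * T) := by rw [h2, one_mul]
      _ = T * (S * B) * T := by noncomm_ring
      _ = T * (B * S) * T := by rw [hSB]
      _ = T * B * (S * T) := by noncomm_ring
      _ = T * B := by rw [h1, mul_one]
  have hTs : Sy T := by
    intro x y
    have e1 : S (T y) = y := by
      have := congrArg (fun R : F →L[ℝ] F => R y) h1
      simpa using this
    have e2 : S (T x) = x := by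
      have := congrArg (fun R : F →L[ℝ] F => R x) h1
      simpa using this
    calc ⟪T x, y⟫_ℝ = ⟪T x, S (T y)⟫_ℝ := by rw [e1]
      _ = ⟪S (T x), T y⟫_ℝ := (hs _ _).symm
      _ = ⟪x, T y⟫_ℝ := by rw [e2]
  have hTBx : ∀ x, B (T x) = T (B x) := by
    intro x
    have := congrArg (fun R : F →L[ℝ] F => R x) hTB
    simpa using this
  have hQQ : ∀ x, B (T (B (T x))) = x := by
    intro x
    have e : B * T * (B * T) = 1 := by
      calc B * T * (B * T) = B * (T * B) * T := by noncomm_ring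
        _ = B * (B * T) * T := by rw [hTB]
        _ = B * B * T * T := by noncomm_ring
        _ = S * S * T * T := by rw [h]
        _ = S * (S * T) * T := by noncomm_ring
        _ = 1 := by rw [h1, mul_one, h1]
    have := congrArg (fun R : F →L[ℝ] F => R x) e
    simpa using this
  have hSQ : ∀ x, S (B (T x)) = B x := by
    intro x
    have e : S * (B * T) = B := by
      calc S * (B * T) = S * B * T := by noncomm_ring
        _ = B * (S * T) := by rw [hSB]; noncomm_ring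
        _ = B := by rw [h1, mul_one]
    have := congrArg (fun R : F →L[ℝ] F => R x) e
    simpa using this
  have hval : ∀ x, ((1 / 2 : ℝ) • (1 + B * T)) x = (1 / 2 : ℝ) • (x + B (T x)) := by
    intro x; simp
  refine ⟨?_, ?_, ?_, ?_, ?_⟩
  · intro x y
    rw [hval, hval, inner_smul_left, inner_smul_right, inner_add_left, inner_add_right,
      hB, hTs, ← hTBx]
    simp
  · intro x
    rw [hval, hval, map_smul, map_smul, map_add, map_add, hQQ, ← smul_add, smul_smul]
    have : x + B (T x) + (B (T x) + x) = (2 : ℝ) • (x + B (T x)) := by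
      rw [two_smul]; abel
    rw [this, smul_smul]
    norm_num
  · intro x
    rw [hval, hval, map_smul, map_add, hTBx x]
  · intro x hx hx0
    rw [hval] at hx
    have e1 : B (T x) = x := by
      have e2 : (2 : ℝ) • ((1 / 2 : ℝ) • (x + B (T x))) = (2 : ℝ) • x := by rw [hx]
      rw [smul_smul] at e2
      norm_num at e2
      rw [two_smul] at e2
      exact add_left_cancel e2
    rw [← hSQ, e1]
    exact hp x hx0
  · intro x hx
    rw [hval] at hx
    have e1 : B (T x) = -x := by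
      have e2 : x + B (T x) = 0 := by
        rcases smul_eq_zero.1 hx with h0 | h0
        · norm_num at h0
        · exact h0
      exact eq_neg_of_add_eq_zero_right e2
    rw [← hSQ, e1, map_neg, inner_neg_left]
    by_cases hx0 : x = 0
    · simp [hx0]
    · have := hp x hx0
      linarith

/-- `|B|` at the base point -/
theorem abs_props {B P : F →L[ℝ] F} (hB : Sy B) (h : IsPP B P)
    (hneg : ∀ x, P x = 0 → x ≠ 0 → ⟪B x, x⟫_ℝ < 0) :
    Sy (B * ((2 : ℝ) • P - 1)) ∧ Pd (B * ((2 : ℝ) • P - 1))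
      ∧ (B * ((2 : ℝ) • P - 1)) * (B * ((2 : ℝ) • P - 1)) = B * B := by
  have hval : ∀ x, (B * ((2 : ℝ) • P - 1)) x = B ((2 : ℝ) • P x - x) := by
    intro x; simp
  have hval2 : ∀ x, (B * ((2 : ℝ) • P - 1)) x = (2 : ℝ) • P (B x) - B x := by
    intro x; rw [hval, map_sub, map_smul, h.comm]
  refine ⟨?_, ?_, ?_⟩
  · intro x y
    rw [hval, hval2, hB, inner_sub_left, inner_sub_right, inner_smul_left, inner_smul_right,
      h.sym]
    simp
  · intro x hx0
    set y := P x with hy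
    set z := x - P x with hz
    have hPy : P y = y := h.idem x
    have hPz : P z = 0 := h.sub_ker x
    have hx : x = y + z := by rw [hz, hy]; abel
    have e1 : (2 : ℝ) • P x - x = y - z := by
      rw [two_smul, hz, ← hy]; abel
    have o1 : ⟪B y, z⟫_ℝ = 0 := h.orth (by rw [← h.comm, hPy]) hPz
    have o2 : ⟪B z, y⟫_ℝ = 0 := by
      rw [real_inner_comm]
      exact h.orth hPy (by rw [← h.comm, hPz, map_zero])
    have e2 : ⟪(B * ((2 : ℝ) • P - 1)) x, x⟫_ℝ = ⟪B y, y⟫_ℝ - ⟪B z, z⟫_ℝ := by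
      rw [hval, e1]
      conv_lhs => rw [hx]
      rw [map_sub, inner_sub_left, inner_add_right, inner_add_right, o1, o2]
      ring
    rw [e2]
    by_cases hy0 : y = 0
    · have hz0 : z ≠ 0 := by
        rintro h0
        rw [hy0, h0, add_zero] at hx
        exact hx0 hx
      have := hneg z hPz hz0
      rw [hy0, map_zero, inner_zero_left]
      linarith
    · have h3 := h.pos y hPy hy0
      have h4 := h.nonpos z hPz
      linarith
  · ext x
    rw [ContinuousLinearMap.mul_apply, hval2 x, hval]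
    rw [map_sub P, map_smul P, h.idem]
    have : (2 : ℝ) • ((2 : ℝ) • P (B x) - P (B x)) - ((2 : ℝ) • P (B x) - B x) = B x := by
      rw [two_smul ℝ (P (B x)), two_smul]; abel
    rw [this]
    rfl

/-- positive definiteness is open -/
theorem Pd.eventually {S : F →L[ℝ] F} (hp : Pd S) : ∀ᶠ T in 𝓝 S, Pd T := by
  by_cases hF : ∃ x : F, x ≠ 0
  · have hc : IsCompact (Metric.sphere (0 : F) 1) := isCompact_sphere 0 1
    have hne : (Metric.sphere (0 : F) 1).Nonempty := by
      obtain ⟨x, hx⟩ := hF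
      refine ⟨‖x‖⁻¹ • x, ?_⟩
      rw [mem_sphere_zero_iff_norm, norm_smul, norm_inv, norm_norm,
        inv_mul_cancel₀ (norm_ne_zero_iff.2 hx)]
    obtain ⟨x0, hx0, hmin⟩ := hc.exists_isMinOn hne
      (f := fun x => ⟪S x, x⟫_ℝ) (by fun_prop)
    have hx0' : x0 ≠ 0 := by
      rintro rfl
      simp at hx0
    have hcpos := hp x0 hx0'
    have hball : ∀ᶠ T in 𝓝 S, ‖T - S‖ < ⟪S x0, x0⟫_ℝ := by
      have : Tendsto (fun T : F →L[ℝ] F => ‖T - S‖) (𝓝 S) (𝓝 0) := by
        have h : Tendsto (fun T : F →L[ℝ] F => ‖T - S‖) (𝓝 S) (𝓝 ‖S - S‖) := by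
          exact (continuous_norm.comp (continuous_id.sub continuous_const)).tendsto S
        simpa using h
      exact this.eventually (gt_mem_nhds hcpos)
    filter_upwards [hball] with T hT x hx
    have hxn : 0 < ‖x‖ := norm_pos_iff.2 hx
    have h1 : ⟪S x0, x0⟫_ℝ * ‖x‖ ^ 2 ≤ ⟪S x, x⟫_ℝ := by
      have h2 : ‖x‖⁻¹ • x ∈ Metric.sphere (0 : F) 1 := by
        rw [mem_sphere_zero_iff_norm, norm_smul, norm_inv, norm_norm,
          inv_mul_cancel₀ hxn.ne']
      have h3 := hmin h2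
      simp only [Set.mem_setOf_eq, map_smul, inner_smul_left, inner_smul_right,
        conj_trivial] at h3
      have h4 : ‖x‖ ^ 2 * (‖x‖⁻¹ * (‖x‖⁻¹ * ⟪S x, x⟫_ℝ)) = ⟪S x, x⟫_ℝ := by
        field_simp
      calc ⟪S x0, x0⟫_ℝ * ‖x‖ ^ 2 = ‖x‖ ^ 2 * ⟪S x0, x0⟫_ℝ := by ring
        _ ≤ ‖x‖ ^ 2 * (‖x‖⁻¹ * (‖x‖⁻¹ * ⟪S x, x⟫_ℝ)) := by
            exact mul_le_mul_of_nonneg_left h3 (by positivity)
        _ = _ := h4
    have h5 : |⟪(T - S) x, x⟫_ℝ| ≤ ‖T - S‖ * ‖x‖ ^ 2 := by
      calc |⟪(T - S) x, x⟫_ℝ| ≤ ‖(T - S) x‖ * ‖x‖ := abs_real_inner_le_norm _ _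
        _ ≤ ‖T - S‖ * ‖x‖ * ‖x‖ := by
            exact mul_le_mul_of_nonneg_right ((T - S).le_opNorm x) (norm_nonneg _)
        _ = _ := by ring
    have h6 : ⟪T x, x⟫_ℝ = ⟪S x, x⟫_ℝ + ⟪(T - S) x, x⟫_ℝ := by
      simp [inner_sub_left]
    rw [h6]
    have h7 := neg_abs_le ⟪(T - S) x, x⟫_ℝ
    have h8 : ‖T - S‖ * ‖x‖ ^ 2 < ⟪S x0, x0⟫_ℝ * ‖x‖ ^ 2 := by
      exact mul_lt_mul_of_pos_right hT (by positivity)
    linarith
  · push Not at hF
    exact Eventually.of_forall fun T x hx => absurd (hF x) hx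

theorem Pd.isUnit {S : F →L[ℝ] F} (hp : Pd S) : IsUnit S := by
  have hinj : Function.Injective (S : F →ₗ[ℝ] F) := by
    rw [injective_iff_map_eq_zero]
    intro x hx
    by_contra h0
    have := hp x h0
    have hx' : S x = 0 := hx
    rw [hx', inner_zero_left] at this
    exact lt_irrefl _ this
  let e := (LinearEquiv.ofInjectiveEndo (S : F →ₗ[ℝ] F) hinj).toContinuousLinearEquiv
  refine ⟨⟨S, (e.symm : F →L[ℝ] F), ?_, ?_⟩, rfl⟩
  · ext x
    exact e.apply_symm_apply x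
  · ext x
    exact e.symm_apply_apply x

/-- symmetric in terms of the adjoint -/
theorem sy_iff [CompleteSpace F] {S : F →L[ℝ] F} : Sy S ↔ ContinuousLinearMap.adjoint S = S := by
  constructor
  · intro h
    exact ((ContinuousLinearMap.eq_adjoint_iff S S).2 h).symm
  · intro h x y
    rw [← h, ContinuousLinearMap.adjoint_inner_left, h]

/-- **smoothness of the spectral projection** -/
theorem contDiffAt_pp {E : Type*} [NormedAddCommGroup E] [NormedSpace ℝ E]
    {A : E → (F →L[ℝ] F)} {u : E} (hA : ContDiffAt ℝ ∞ A u)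
    (hs : ∀ᶠ v in 𝓝 u, Sy (A v)) {d : ℝ} (hd : 0 < d) {k : ℕ}
    (h1 : ∀ᶠ v in 𝓝 u, ∃ V : Submodule ℝ F, k ≤ finrank ℝ V ∧
      ∀ x ∈ V, d * ‖x‖ ^ 2 ≤ ⟪A v x, x⟫_ℝ)
    (h2 : ∀ᶠ v in 𝓝 u, ∀ V : Submodule ℝ F,
      (∀ x ∈ V, x ≠ 0 → 0 < ⟪A v x, x⟫_ℝ) → finrank ℝ V ≤ k) :
    ContDiffAt ℝ ∞ (fun v => pp (A v)) u := by
  have : CompleteSpace F := FiniteDimensional.complete ℝ F
  set B : E → (F →L[ℝ] F) := fun v => A v - (d / 2) • ContinuousLinearMap.id ℝ F with hBdef
  have hBs : ∀ v, Sy (A v) → Sy (B v) := by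
    intro v hv x y
    simp [hBdef, inner_sub_left, inner_sub_right, inner_smul_left, inner_smul_right, hv x y]
  have hBd : ContDiffAt ℝ ∞ B u := hA.sub contDiffAt_const
  have hBsu := hBs u hs.self_of_nhds
  obtain ⟨g1, g2, g3⟩ := (isPP_pp hBsu).gap hd h1.self_of_nhds h2.self_of_nhds
  set P0 := pp (B u) with hP0
  have hneg : ∀ x, P0 x = 0 → x ≠ 0 → ⟪B u x, x⟫_ℝ < 0 := by
    intro x hx hx0
    have h3 := g3 x hx
    have h4 : 0 < ‖x‖ ^ 2 := by have := norm_pos_iff.2 hx0; positivity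
    have h5 : -(d / 2) * ‖x‖ ^ 2 < 0 := by nlinarith
    exact lt_of_le_of_lt h3 h5
  obtain ⟨a1, a2, a3⟩ := abs_props hBsu (isPP_pp hBsu) hneg
  set S0 : F →L[ℝ] F := B u * ((2 : ℝ) • P0 - 1) with hS0
  obtain ⟨g, c1, c2, c3, c4⟩ := exists_sqrt a1 a2
  rw [a3] at c1 c2 c3
  have hBB : ContDiffAt ℝ ∞ (fun v => B v * B v) u := hBd.mul hBd
  have hSd : ContDiffAt ℝ ∞ (fun v => g (B v * B v)) u := c1.comp u hBB
  have hBBt : Tendsto (fun v => B v * B v) (𝓝 u) (𝓝 (B u * B u)) := hBB.continuousAt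
  have hSt : Tendsto (fun v => g (B v * B v)) (𝓝 u) (𝓝 S0) := by
    have h3 : Tendsto (fun v => g (B v * B v)) (𝓝 u) (𝓝 (g (B u * B u))) := hSd.continuousAt
    rwa [c2] at h3
  have e1 : ∀ᶠ v in 𝓝 u, g (B v * B v) * g (B v * B v) = B v * B v := hBBt.eventually c3
  have e3 : ∀ᶠ v in 𝓝 u, Pd (g (B v * B v)) := hSt.eventually a2.eventually
  have hadj : Tendsto (fun v => ContinuousLinearMap.adjoint (g (B v * B v))) (𝓝 u) (𝓝 S0) := by
    have h3 : Tendsto (fun T : F →L[ℝ] F => ContinuousLinearMap.adjoint T) (𝓝 S0)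
        (𝓝 (ContinuousLinearMap.adjoint S0)) :=
      (ContinuousLinearMap.adjoint (𝕜 := ℝ) (E := F) (F := F)).continuous.tendsto S0
    rw [sy_iff.1 a1] at h3
    exact h3.comp hSt
  have e2 : ∀ᶠ v in 𝓝 u, Sy (g (B v * B v)) := by
    filter_upwards [e1, hadj.eventually c4, hs] with v hv1 hv2 hv3
    rw [sy_iff]
    have h3 : ContinuousLinearMap.adjoint (g (B v * B v))
        * ContinuousLinearMap.adjoint (g (B v * B v)) = B v * B v := by
      have h4 : ContinuousLinearMap.adjoint (g (B v * B v) * g (B v * B v))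
          = ContinuousLinearMap.adjoint (g (B v * B v))
            * ContinuousLinearMap.adjoint (g (B v * B v)) :=
        ContinuousLinearMap.adjoint_comp _ _
      rw [← h4, hv1]
      have h5 : ContinuousLinearMap.adjoint (B v * B v)
          = ContinuousLinearMap.adjoint (B v) * ContinuousLinearMap.adjoint (B v) :=
        ContinuousLinearMap.adjoint_comp _ _
      rw [h5, sy_iff.1 (hBs v hv3)]
    rw [h3] at hv2
    exact hv2.symm
  have hu0 : IsUnit S0 := a2.isUnit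
  have hinv : ContDiffAt ℝ ∞ (fun v => Ring.inverse (g (B v * B v))) u := by
    obtain ⟨w, hw⟩ := hu0
    have h3 : ContDiffAt ℝ ∞ (Ring.inverse : (F →L[ℝ] F) → (F →L[ℝ] F)) (w : F →L[ℝ] F) :=
      contDiffAt_ringInverse ℝ w
    rw [hw] at h3
    have h4 : ContDiffAt ℝ ∞ (Ring.inverse : (F →L[ℝ] F) → (F →L[ℝ] F)) (g (B u * B u)) := by
      rw [c2]; exact h3
    exact h4.comp u hSd
  have hPd : ContDiffAt ℝ ∞
      (fun v => (1 / 2 : ℝ) • (1 + B v * Ring.inverse (g (B v * B v)))) u := by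
    have h4 : ContDiffAt ℝ ∞ (fun v => B v * Ring.inverse (g (B v * B v))) u := hBd.mul hinv
    have h5 : ContDiffAt ℝ ∞ (fun v => (1 : F →L[ℝ] F) + B v * Ring.inverse (g (B v * B v))) u :=
      contDiffAt_const.add h4
    exact h5.const_smul (1 / 2 : ℝ)
  refine hPd.congr_of_eventuallyEq ?_
  filter_upwards [e1, e2, e3, hs, h1, h2] with v hv1 hv2 hv3 hv4 hv5 hv6
  have hun := hv3.isUnit
  have h3 := isPP_of_sqrt (hBs v hv4) hv2 hv3 hv1 (Ring.mul_inverse_cancel _ hun)
    (Ring.inverse_mul_cancel _ hun)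
  exact pp_eq hv4 (h3.gap hd hv5 hv6).1

end Pool.Agent.Lib.MP_ccbbf6_gt.L5.SPE
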