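import Pool.Agent.Lib.MP_ccbbf6_gt.Geo.Ifc
import Pool.Agent.Lib.MP_ccbbf6_gt.L5.SPE3

/-!
# SPE: the spectral projection on the positive part of an invertible symmetric operator (Level 5, block NEG) (helper95)
-/

set_option autoImplicit false
set_option linter.unusedSectionVars false
set_option linter.deprecated false

open Set Filter Topology Metric Real Module
open scoped ContDiff RealInnerProductSpace

noncomputable section

namespace Pool.Agent.Lib.MP_ccbbf6_gt.L5.SPE

open Geo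

section core

variable {F : Type*} [NormedAddCommGroup F] [InnerProductSpace ℝ F] [FiniteDimensional ℝ F]

/-- smoothness of the spectral projection at an injective symmetric operator -/
theorem contDiffAt_pp_inj {E : Type*} [NormedAddCommGroup E] [NormedSpace ℝ E]
    {B : E → (F →L[ℝ] F)} {u : E} (hBd : ContDiffAt ℝ ∞ B u)
    (hs : ∀ᶠ v in 𝓝 u, Sy (B v)) (hi : Function.Injective (B u)) :
    ContDiffAt ℝ ∞ (fun v => pp (B v)) u := by
  have : CompleteSpace F := FiniteDimensional.complete ℝ F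
  have hBsu := hs.self_of_nhds
  set P0 := pp (B u) with hP0
  have hPP := isPP_pp hBsu
  have hneg : ∀ x, P0 x = 0 → x ≠ 0 → ⟪B u x, x⟫ < 0 := by
    intro x hx hx0
    have h1 : ⟪B u x, x⟫ ≤ 0 := hPP.nonpos x hx
    refine lt_of_le_of_ne h1 fun h2 => ?_
    have h3 : B u x ≠ 0 := fun h => hx0 (hi (by rw [h, map_zero]))
    have h4 : P0 (B u x) = 0 := by
      rw [← hPP.comm, hx, map_zero]
    have h5 : 0 < ⟪B u x, B u x⟫ := real_inner_self_pos.2 h3
    have h6 : ⟪B u (B u x), B u x⟫ ≤ 0 := hPP.nonpos _ h4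
    have h7 : ∀ t : ℝ, 2 * t * ⟪B u x, B u x⟫ + t ^ 2 * ⟪B u (B u x), B u x⟫ ≤ 0 := by
      intro t
      have h8 : P0 (x + t • B u x) = 0 := by rw [map_add, map_smul, hx, h4, smul_zero, add_zero]
      have h9 := hPP.nonpos _ h8
      have h10 : ⟪B u (B u x), x⟫ = ⟪B u x, B u x⟫ := hBsu _ _
      rw [map_add, map_smul, inner_add_left, inner_add_right, inner_add_right, real_inner_smul_left,
        real_inner_smul_left, real_inner_smul_right, real_inner_smul_right, h2, h10] at h9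
      nlinarith
    have h8 := h7 (⟪B u x, B u x⟫ / (|⟪B u (B u x), B u x⟫| + 1))
    rw [abs_of_nonpos h6] at h8
    set a := ⟪B u x, B u x⟫
    set b := ⟪B u (B u x), B u x⟫
    have h9 : 0 < -b + 1 := by linarith
    have h10 : 2 * (a / (-b + 1)) * a + (a / (-b + 1)) ^ 2 * b = a ^ 2 * (2 * (-b + 1) + b) / (-b + 1) ^ 2 := by
      field_simp
    rw [h10] at h8
    have h11 : 0 < a ^ 2 * (2 * (-b + 1) + b) / (-b + 1) ^ 2 := by
      have : 0 < 2 * (-b + 1) + b := by linarith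
      positivity
    linarith
  obtain ⟨a1, a2, a3⟩ := abs_props hBsu hPP hneg
  set S0 : F →L[ℝ] F := B u * ((2 : ℝ) • P0 - 1) with hS0
  obtain ⟨g, c1, c2, c3, c4⟩ := exists_sqrt a1 a2
  rw [a3] at c1 c2 c3
  have hBB : ContDiffAt ℝ ∞ (fun v => B v * B v) u := hBd.mul hBd
  have hSd : ContDiffAt ℝ ∞ (fun v => g (B v * B v)) u := c1.comp u hBB
  have hBBt : Tendsto (fun v => B v * B v) (𝓝 u) (𝓝 (B u * B u)) := hBB.continuousAt
  have hSt : Tendsto (fun v => g (B v * B v)) (𝓝 u) (𝓝 S0) := by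
    have h3 : Tendsto (fun v => g (B v * B v)) (𝓝 u) (𝓝 (g (B u * B u))) := hSd.continuousAt
    rwa [c2] at h3
  have e1 : ∀ᶠ v in 𝓝 u, g (B v * B v) * g (B v * B v) = B v * B v := hBBt.eventually c3
  have e3 : ∀ᶠ v in 𝓝 u, Pd (g (B v * B v)) := hSt.eventually a2.eventually
  have hadj : Tendsto (fun v => ContinuousLinearMap.adjoint (g (B v * B v))) (𝓝 u) (𝓝 S0) := by
    have h3 : Tendsto (fun T : F →L[ℝ] F => ContinuousLinearMap.adjoint T) (𝓝 S0)
        (𝓝 (ContinuousLinearMap.adjoint S0)) :=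
      (ContinuousLinearMap.adjoint (𝕜 := ℝ) (E := F) (F := F)).continuous.tendsto S0
    rw [sy_iff.1 a1] at h3
    exact h3.comp hSt
  have e2 : ∀ᶠ v in 𝓝 u, Sy (g (B v * B v)) := by
    filter_upwards [e1, hadj.eventually c4, hs] with v hv1 hv2 hv3
    rw [sy_iff]
    have h3 : ContinuousLinearMap.adjoint (g (B v * B v))
        * ContinuousLinearMap.adjoint (g (B v * B v)) = B v * B v := by
      have h4 : ContinuousLinearMap.adjoint (g (B v * B v) * g (B v * B v))
          = ContinuousLinearMap.adjoint (g (B v * B v))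
            * ContinuousLinearMap.adjoint (g (B v * B v)) :=
        ContinuousLinearMap.adjoint_comp _ _
      rw [← h4, hv1]
      have h5 : ContinuousLinearMap.adjoint (B v * B v)
          = ContinuousLinearMap.adjoint (B v) * ContinuousLinearMap.adjoint (B v) :=
        ContinuousLinearMap.adjoint_comp _ _
      rw [h5, sy_iff.1 hv3]
    rw [h3] at hv2
    exact hv2.symm
  have hu0 : IsUnit S0 := a2.isUnit
  have hinv : ContDiffAt ℝ ∞ (fun v => Ring.inverse (g (B v * B v))) u := by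
    obtain ⟨w, hw⟩ := hu0
    have h3 : ContDiffAt ℝ ∞ (Ring.inverse : (F →L[ℝ] F) → (F →L[ℝ] F)) (w : F →L[ℝ] F) :=
      contDiffAt_ringInverse ℝ w
    rw [hw] at h3
    have h4 : ContDiffAt ℝ ∞ (Ring.inverse : (F →L[ℝ] F) → (F →L[ℝ] F)) (g (B u * B u)) := by
      rw [c2]; exact h3
    exact h4.comp u hSd
  have hPd : ContDiffAt ℝ ∞
      (fun v => (1 / 2 : ℝ) • (1 + B v * Ring.inverse (g (B v * B v)))) u := by
    have h4 : ContDiffAt ℝ ∞ (fun v => B v * Ring.inverse (g (B v * B v))) u := hBd.mul hinv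
    have h5 : ContDiffAt ℝ ∞ (fun v => (1 : F →L[ℝ] F) + B v * Ring.inverse (g (B v * B v))) u :=
      contDiffAt_const.add h4
    exact h5.const_smul (1 / 2 : ℝ)
  refine hPd.congr_of_eventuallyEq ?_
  filter_upwards [e1, e2, e3, hs] with v hv1 hv2 hv3 hv4
  have hun := hv3.isUnit
  have h3 := isPP_of_sqrt hv4 hv2 hv3 hv1 (Ring.mul_inverse_cancel _ hun)
    (Ring.inverse_mul_cancel _ hun)
  exact pp_eq hv4 h3

end core

variable {N : ℕ}

/-- the sum of the eigenspaces for positive eigenvalues -/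
def posV (A : Eu N →L[ℝ] Eu N) : Submodule ℝ (Eu N) :=
  ⨆ μ : {μ : ℝ // 0 < μ}, Module.End.eigenspace (A : Eu N →ₗ[ℝ] Eu N) μ.1

/-- the spectral projection -/
def posP (A : Eu N →L[ℝ] Eu N) : Eu N →L[ℝ] Eu N := (posV A).starProjection

theorem mem_posV_of {A : Eu N →L[ℝ] Eu N} (hA : Sy A) (x : Eu N) : pp A x ∈ posV A := by
  have hsym := hA.isSymmetric
  let b := hsym.eigenvectorBasis rfl
  have hx : x = ∑ i, ⟪b i, x⟫ • b i := (b.sum_repr' x).symm
  rw [hx, map_sum]
  refine Submodule.sum_mem _ fun i _ => ?_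
  rw [map_smul]
  refine Submodule.smul_mem _ _ ?_
  have e1 : A (b i) = (hsym.eigenvalues rfl i : ℝ) • b i := hsym.apply_eigenvectorBasis rfl i
  rw [(isPP_pp hA).eig e1]
  split_ifs with h
  · refine Submodule.mem_iSup_of_mem (⟨(hsym.eigenvalues rfl i : ℝ), h⟩ : {μ : ℝ // 0 < μ}) ?_
    rw [Module.End.mem_eigenspace_iff]
    exact e1
  · exact Submodule.zero_mem _

theorem pp_of_mem_posV {A : Eu N →L[ℝ] Eu N} (hA : Sy A) {x : Eu N} (hx : x ∈ posV A) : pp A x = x := by
  unfold posV at hx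
  induction hx using Submodule.iSup_induction' with
  | mem μ x hx =>
    rw [Module.End.mem_eigenspace_iff] at hx
    have e1 : A x = μ.1 • x := hx
    rw [(isPP_pp hA).eig e1, if_pos μ.2]
  | zero => exact map_zero _
  | add x y _ _ h1 h2 => rw [map_add, h1, h2]

theorem posP_eq_pp {A : Eu N →L[ℝ] Eu N} (hA : Sy A) : posP A = pp A := by
  ext1 x
  refine (Submodule.eq_starProjection_of_mem_of_inner_eq_zero (mem_posV_of hA x) fun w hw => ?_)
  have h1 := pp_of_mem_posV hA hw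
  have h2 := (isPP_pp hA).orth h1 ((isPP_pp hA).sub_ker x)
  rw [real_inner_comm]
  exact h2

theorem posV_pos {A : Eu N →L[ℝ] Eu N} (hA : Sy A) {x : Eu N} (hx : x ∈ posV A) (h0 : x ≠ 0) : 0 < ⟪A x, x⟫ :=
  (isPP_pp hA).pos x (pp_of_mem_posV hA hx) h0

theorem posV_neg {A : Eu N →L[ℝ] Eu N} (hA : Sy A) {x : Eu N} (hx : x ∈ (posV A)ᗮ) : ⟪A x, x⟫ ≤ 0 := by
  refine (isPP_pp hA).nonpos x ?_
  have h1 := (Submodule.mem_orthogonal _ _).1 hx (pp A x) (mem_posV_of hA x)
  have h2 : ⟪pp A x, pp A x⟫ = ⟪x, pp A x⟫ := by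
    rw [(isPP_pp hA).sym x (pp A x), (isPP_pp hA).idem]
  rw [← inner_self_eq_zero (𝕜 := ℝ), h2, real_inner_comm]
  exact h1

/-- **smoothness of the spectral projection** -/
theorem posP_smooth {F : Type*} [NormedAddCommGroup F] [NormedSpace ℝ F] {A : F → (Eu N →L[ℝ] Eu N)} {u : F}
    (hA : ContDiffAt ℝ ∞ A u) (hs : ∀ v, Sy (A v)) (hi : Function.Injective (A u)) :
    ContDiffAt ℝ ∞ (fun v => posP (A v)) u := by
  have e : (fun v => posP (A v)) = fun v => pp (A v) := funext fun v => posP_eq_pp (hs v)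
  rw [e]
  exact contDiffAt_pp_inj hA (Eventually.of_forall hs) hi

end Pool.Agent.Lib.MP_ccbbf6_gt.L5.SPE
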