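import Pool.Agent.Lib.MP_ccbbf6_gt.L5.NB2
import Pool.Agent.Lib.MP_ccbbf6_gt.L5.NC4
import Pool.Agent.Lib.MP_ccbbf6_gt.L5.SPEd

/-!
# NG: the negative bundle (Level 5, block NEG), assembly (helper93)
-/

set_option autoImplicit false
set_option linter.unusedSectionVars false

open Set Filter Topology Metric Real Module
open scoped ContDiff RealInnerProductSpace

noncomputable section

namespace Pool.Agent.Lib.MP_ccbbf6_gt.L5.NEG

open Geo L4 L4.ORI

variable {n : ℕ} {M : Type*} [MetricSpace M] [CompactSpace M] {𝒜 : SDist n M}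

theorem contDiffAt_clm_apply_iff {D E F : Type*} [NormedAddCommGroup D] [NormedSpace ℝ D] [NormedAddCommGroup E] [NormedSpace ℝ E]
    [NormedAddCommGroup F] [NormedSpace ℝ F] [FiniteDimensional ℝ E] {f : D → E →L[ℝ] F} {x : D} :
    ContDiffAt ℝ ∞ f x ↔ ∀ y, ContDiffAt ℝ ∞ (fun v => f v y) x := by
  refine ⟨fun h y => h.clm_apply contDiffAt_const, fun h => ?_⟩
  let d := finrank ℝ E
  have hd : d = finrank ℝ (Fin d → ℝ) := (finrank_fin_fun ℝ).symm
  let e₁ := ContinuousLinearEquiv.ofFinrankEq hd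
  let e₂ := (e₁.arrowCongr (1 : F ≃L[ℝ] F)).trans (ContinuousLinearEquiv.piRing (Fin d))
  rw [← Function.id_comp f, ← e₂.symm_comp_self]
  exact e₂.symm.contDiff.contDiffAt.comp x (contDiffAt_pi.mpr fun i => h _)

theorem exists_neg [Nonempty (Gs M)] (hB : Bl M) (e : Emb n 𝒜) {κ : ℕ} (hk : 𝒜.HK κ) :
    ∃ (N : ℕ) (C : Eu N → Gs M → M) (P : Gs M → Eu N →L[ℝ] Eu N), NegData 𝒜 κ hB C P := by
  obtain ⟨N, C, δ, hC, hδ, hW⟩ := exists_pos hB e hk
  obtain ⟨A, hAd⟩ : ∃ A : Gs M → Eu N →L[ℝ] Eu N, A = fun c => QO 𝒜 C c - (δ / 2) • ContinuousLinearMap.id ℝ (Eu N) := ⟨_, rfl⟩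
  have hAi : ∀ c x y, ⟪A c x, y⟫ = QB 𝒜 C c x y - δ / 2 * ⟪x, y⟫ := by
    intro c x y
    rw [hAd]
    show ⟪QO 𝒜 C c x - (δ / 2) • x, y⟫ = _
    rw [inner_sub_left, QO_inner, real_inner_smul_left]
  have hSy : ∀ c, SPE.Sy (A c) := by
    intro c x y
    rw [hAi, real_inner_comm (A c y) x, hAi, hC.QB_symm hB e c x y, real_inner_comm x y]
  have hdim : ∀ c (W : Submodule ℝ (Eu N)), (∀ ξ ∈ W, ξ ≠ 0 → 0 < QB 𝒜 C c ξ ξ) → finrank ℝ W ≤ κ := fun c W h =>
    finrank_pos_le hB hk e hC c W h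
  -- positivity on the positive part
  have hpos : ∀ c, ∀ x ∈ SPE.posV (A c), δ / 2 * ‖x‖ ^ 2 ≤ QB 𝒜 C c x x := by
    intro c x hx
    by_cases h0 : x = 0
    · rw [h0]
      simp
    · have h1 := SPE.posV_pos (hSy c) hx h0
      rw [hAi, real_inner_self_eq_norm_sq] at h1
      linarith
  have hle : ∀ c, finrank ℝ (SPE.posV (A c)) ≤ κ := by
    intro c
    refine hdim c _ fun ξ hξ h0 => ?_
    have h1 := hpos c ξ hξ
    have h2 : 0 < ‖ξ‖ := norm_pos_iff.mpr h0
    have : 0 < δ / 2 * ‖ξ‖ ^ 2 := by positivity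
    linarith
  -- a negative vector of the orthogonal complement
  have hneg : ∀ c, ∀ x ∈ (SPE.posV (A c))ᗮ, QB 𝒜 C c x x ≤ δ / 2 * ‖x‖ ^ 2 := by
    intro c x hx
    have h1 := SPE.posV_neg (hSy c) hx
    rw [hAi, real_inner_self_eq_norm_sq] at h1
    linarith
  have hge : ∀ c, κ ≤ finrank ℝ (SPE.posV (A c)) := by
    intro c
    obtain ⟨W, hW1, hW2⟩ := hW c
    by_contra hlt
    push Not at hlt
    -- `W` meets the complement
    have h1 : finrank ℝ W + finrank ℝ (SPE.posV (A c))ᗮ > finrank ℝ (Eu N) := by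
      have h2 := Submodule.finrank_add_finrank_orthogonal (SPE.posV (A c))
      omega
    have h3 : W ⊓ (SPE.posV (A c))ᗮ ≠ ⊥ := by
      intro hbot
      have h4 := Submodule.finrank_sup_add_finrank_inf_eq W (SPE.posV (A c))ᗮ
      rw [hbot, finrank_bot] at h4
      have h5 := Submodule.finrank_le (W ⊔ (SPE.posV (A c))ᗮ)
      omega
    obtain ⟨x, hx, hx0⟩ := Submodule.exists_mem_ne_zero_of_ne_bot h3
    rw [Submodule.mem_inf] at hx
    have h6 := hW2 x hx.1
    have h7 := hneg c x hx.2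
    have h8 : 0 < ‖x‖ ^ 2 := by
      have := norm_pos_iff.mpr hx0
      positivity
    nlinarith
  have hrank : ∀ c, finrank ℝ (SPE.posV (A c)) = κ := fun c => le_antisymm (hle c) (hge c)
  -- `A c` is injective
  have hinj : ∀ c, Function.Injective (A c) := by
    intro c
    rw [injective_iff_map_eq_zero]
    intro x hx
    by_contra hx0
    have hxn : x ∉ SPE.posV (A c) := fun h => by
      have h1 := SPE.posV_pos (hSy c) h hx0
      rw [hx, inner_zero_left] at h1
      exact lt_irrefl _ h1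
    have h1 : finrank ℝ (SPE.posV (A c) ⊔ Submodule.span ℝ {x} : Submodule ℝ (Eu N)) ≤ κ := by
      refine hdim c _ fun y hy hy0 => ?_
      obtain ⟨p, hp, q, hq, rfl⟩ := Submodule.mem_sup.1 hy
      obtain ⟨r, rfl⟩ := Submodule.mem_span_singleton.1 hq
      have h2 : 0 ≤ ⟪A c p, p⟫ := by
        by_cases h0 : p = 0
        · rw [h0, inner_zero_right]
        · exact (SPE.posV_pos (hSy c) hp h0).le
      have h3 : ⟪A c (p + r • x), p + r • x⟫ = ⟪A c p, p⟫ := by
        rw [map_add, map_smul, hx, smul_zero, add_zero, inner_add_right, real_inner_smul_right, hSy c p x, hx, inner_zero_right,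
          mul_zero, add_zero]
      have h4 := hAi c (p + r • x) (p + r • x)
      rw [h3, real_inner_self_eq_norm_sq] at h4
      have h5 : 0 < ‖p + r • x‖ ^ 2 := by
        have := norm_pos_iff.mpr hy0
        positivity
      nlinarith
    have h2 := Submodule.finrank_sup_add_finrank_inf_eq (SPE.posV (A c)) (Submodule.span ℝ {x})
    have h3 : SPE.posV (A c) ⊓ Submodule.span ℝ {x} = ⊥ := by
      rw [Submodule.eq_bot_iff]
      intro y hy
      obtain ⟨hy1, hy2⟩ := Submodule.mem_inf.1 hy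
      obtain ⟨r, rfl⟩ := Submodule.mem_span_singleton.1 hy2
      by_cases hr : r = 0
      · rw [hr, zero_smul]
      · exact absurd ((Submodule.smul_mem_iff _ hr).1 hy1) hxn
    rw [h3, finrank_bot, finrank_span_singleton hx0, hrank c] at h2
    omega
  refine ⟨N, C, fun c => SPE.posP (A c), ⟨hC, ?_, ?_, ?_, ?_, ?_, ?_, ?_⟩⟩
  · intro F _ _ σ u hσ
    refine SPE.posP_smooth ?_ (fun v => hSy _) (hinj _)
    rw [hAd]
    have h1 := hC.QB_smooth hB e hσ
    unfold QO
    refine ContDiffAt.sub (ContDiffAt.sum fun i _ => ?_) contDiffAt_const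
    refine contDiffAt_clm_apply_iff.2 fun y => ?_
    show ContDiffAt ℝ ∞ (fun v => QB 𝒜 C (σ v) y (EuclideanSpace.single i (1 : ℝ)) • EuclideanSpace.single i (1 : ℝ)) u
    exact ((h1.clm_apply contDiffAt_const).clm_apply contDiffAt_const).smul contDiffAt_const
  · intro c x
    exact Submodule.starProjection_eq_self_iff.2 (Submodule.starProjection_apply_mem _ _)
  · intro c x y
    exact Submodule.inner_starProjection_left_eq_right _ _ _
  · intro c
    have : LinearMap.range (SPE.posP (A c) : Eu N →ₗ[ℝ] Eu N) = SPE.posV (A c) := Submodule.range_starProjection _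
    rw [this]
    exact hrank c
  · intro t c
    have : A (shift t c) = A c := by
      rw [hAd]
      simp only
      unfold QO
      rw [QB_shift 𝒜 hB]
    simp only [this]
  · refine ⟨δ / 2, by positivity, fun c ξ hξ => hpos c ξ ?_⟩
    rw [← hξ]
    exact Submodule.starProjection_apply_mem _ _
  · intro c ξ hξ h0
    by_contra hne
    have h1 := QB_nonpos hB hk e hC h0
    have h2 := hpos c ξ (by rw [← hξ]; exact Submodule.starProjection_apply_mem _ _)
    have h3 : 0 < ‖ξ‖ ^ 2 := by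
      have := norm_pos_iff.mpr hne
      positivity
    nlinarith

end Pool.Agent.Lib.MP_ccbbf6_gt.L5.NEG
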