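import Pool.Agent.Lib.MP_ccbbf6_gt.Geo.KAc
import Pool.Agent.Lib.MP_ccbbf6_gt.L4.OriD

/-!
# Level 5, G3a (helper78): smooth sections, orthonormal frames and projections along smooth families

General `κ`.  `Vc c = PV (c 0) (vel c 0)` is the space of the directions of all minimal geodesics from `c 0` to `c π`,
`Kc c` its subspace perpendicular to `c`, `Nc c` its orthogonal complement (= tangent space at `c 0` of the cut locus of `c π`).
`SecG 𝒜 G x W u₀`: the family of subspaces `W u ⊆ T_(x u) M` has smooth local sections at `u₀`.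
-/

set_option autoImplicit false
set_option linter.unusedSectionVars false

open Set Filter Topology Metric Real Module
open scoped ContDiff RealInnerProductSpace

noncomputable section

namespace Pool.Agent.Lib.MP_ccbbf6_gt.L5

open Geo L4 L4.ORI

section abs

variable {n : ℕ} {E : Type*} [NormedAddCommGroup E] [NormedSpace ℝ E]

/-- smooth sections of a family of subspaces of constant dimension which are contained in the kernels of a smooth family -/
theorem smooth_kernel_gen {A : E → Eu n →L[ℝ] Eu n} {u₀ : E} (hA : ContDiffAt ℝ ∞ A u₀) {V : E → Submodule ℝ (Eu n)}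
    (hker : ∀ x, A u₀ x = 0 → x ∈ V u₀)
    (hV : ∀ᶠ u in 𝓝 u₀, finrank ℝ (V u) = finrank ℝ (V u₀) ∧ ∀ x ∈ V u, A u x = 0) {a : Eu n} (ha : a ∈ V u₀) :
    ∃ k : E → Eu n, k u₀ = a ∧ ∀ᶠ u in 𝓝 u₀, k u ∈ V u ∧ (ContDiffAt ℝ ∞ A u → ContDiffAt ℝ ∞ k u) := by
  obtain ⟨P, hP⟩ : ∃ P, P = (V u₀).starProjection := ⟨_, rfl⟩
  let T : E → Eu n →L[ℝ] Eu n := fun w => (ContinuousLinearMap.adjoint (A u₀)).comp (A w) + P
  have hTapp : ∀ w x, T w x = ContinuousLinearMap.adjoint (A u₀) (A w x) + P x := fun w x => rfl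
  have hTc : ∀ u, ContDiffAt ℝ ∞ A u → ContDiffAt ℝ ∞ T u := fun u h =>
    (contDiffAt_const.clm_comp h).add contDiffAt_const
  have hPx : ∀ x, ⟪P x, x⟫ = ‖P x‖ ^ 2 := by
    intro x
    rw [hP]
    rw [← real_inner_self_eq_norm_sq, ← Submodule.inner_starProjection_left_eq_right (V u₀) _ x]
    congr 1
    exact (Submodule.starProjection_eq_self_iff.2 (Submodule.starProjection_apply_mem _ _)).symm
  have hinj : Function.Injective (T u₀) := by
    rw [injective_iff_map_eq_zero]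
    intro x hx
    have h1 : ⟪T u₀ x, x⟫ = ‖A u₀ x‖ ^ 2 + ‖P x‖ ^ 2 := by
      rw [hTapp, inner_add_left, ContinuousLinearMap.adjoint_inner_left, real_inner_self_eq_norm_sq, hPx]
    rw [hx, inner_zero_left] at h1
    have h2 : ‖A u₀ x‖ ^ 2 = 0 := by nlinarith [sq_nonneg ‖A u₀ x‖, sq_nonneg ‖P x‖]
    have h3 : ‖P x‖ ^ 2 = 0 := by nlinarith [sq_nonneg ‖A u₀ x‖, sq_nonneg ‖P x‖]
    have h5 : A u₀ x = 0 := norm_eq_zero.mp (pow_eq_zero_iff two_ne_zero |>.mp h2)
    have h6 : P x = 0 := norm_eq_zero.mp (pow_eq_zero_iff two_ne_zero |>.mp h3)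
    have h7 : P x = x := by rw [hP]; exact Submodule.starProjection_eq_self_iff.2 (hker x h5)
    rw [← h7, h6]
  let e : Eu n ≃L[ℝ] Eu n := (LinearEquiv.ofInjectiveEndo (T u₀ : Eu n →ₗ[ℝ] Eu n) hinj).toContinuousLinearEquiv
  have he : (e : Eu n →L[ℝ] Eu n) = T u₀ := by ext1 x; rfl
  let k1 : E → Eu n := fun w => ContinuousLinearMap.inverse (T w) a
  have haV : A u₀ a = 0 := hV.self_of_nhds.2 a ha
  have hPa : P a = a := by rw [hP]; exact Submodule.starProjection_eq_self_iff.2 ha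
  have hTa : T u₀ a = a := by rw [hTapp, haV, map_zero, zero_add, hPa]
  have hk1v : k1 u₀ = a := by
    show ContinuousLinearMap.inverse (T u₀) a = a
    rw [← he, ContinuousLinearMap.inverse_equiv]
    apply e.injective
    rw [ContinuousLinearEquiv.coe_coe, e.apply_symm_apply]
    show a = (e : Eu n →L[ℝ] Eu n) a
    rw [he, hTa]
  have hev : ∀ᶠ w in 𝓝 u₀, ∃ e' : Eu n ≃L[ℝ] Eu n, (e' : Eu n →L[ℝ] Eu n) = T w := by
    have h1 : range ((↑) : (Eu n ≃L[ℝ] Eu n) → Eu n →L[ℝ] Eu n) ∈ 𝓝 (T u₀) := by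
      rw [← he]; exact ContinuousLinearEquiv.nhds e
    filter_upwards [(hTc u₀ hA).continuousAt.eventually h1] with w hw
    obtain ⟨e', he'⟩ := hw
    exact ⟨e', he'⟩
  refine ⟨k1, hk1v, ?_⟩
  filter_upwards [hev, hV] with w hw hVw
  obtain ⟨e', he'⟩ := hw
  obtain ⟨h2, h4⟩ := hVw
  refine ⟨?_, fun hAw => ?_⟩
  · let f : V w →ₗ[ℝ] V u₀ := LinearMap.codRestrict (V u₀) ((P : Eu n →ₗ[ℝ] Eu n).comp (V w).subtype) (fun x => by
      show P x ∈ V u₀
      rw [hP]
      exact Submodule.starProjection_apply_mem _ _)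
    have hf : ∀ x : V w, ((f x : V u₀) : Eu n) = P x := fun x => rfl
    have hfi : Function.Injective f := by
      rw [injective_iff_map_eq_zero]
      intro x hx
      have hx' : P (x : Eu n) = 0 := by rw [← hf, hx]; rfl
      have h5 : T w x = 0 := by rw [hTapp, h4 _ x.2, map_zero, hx', add_zero]
      rw [← he'] at h5
      have h6 : (x : Eu n) = 0 := e'.injective (by
        show (e' : Eu n →L[ℝ] Eu n) x = e' 0
        rw [h5, map_zero])
      exact Subtype.ext h6
    have hfs : Function.Surjective f := (LinearMap.injective_iff_surjective_of_finrank_eq_finrank h2).mp hfi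
    obtain ⟨x, hx⟩ := hfs ⟨a, ha⟩
    have hx' : P (x : Eu n) = a := by rw [← hf, hx]
    have h5 : T w x = a := by rw [hTapp, h4 _ x.2, map_zero, zero_add, hx']
    have h6 : k1 w = x := by
      show ContinuousLinearMap.inverse (T w) a = x
      rw [← h5, ← he', ContinuousLinearMap.inverse_equiv]
      exact e'.symm_apply_apply _
    rw [h6]
    exact x.2
  · have h5 : ContDiffAt ℝ ∞ ContinuousLinearMap.inverse (T w) := by
      rw [← he']; exact contDiffAt_map_inverse e'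
    have h6 : ContDiffAt ℝ ∞ (fun w => ContinuousLinearMap.inverse (T w)) w := h5.comp w (hTc w hAw)
    exact h6.clm_apply contDiffAt_const

/-- the projection onto the span of an orthonormal family -/
theorem proj_of_orthonormal {W : Submodule ℝ (Eu n)} {r : ℕ} {w : Fin r → Eu n} (ho : Orthonormal ℝ w) (hw : ∀ i, w i ∈ W)
    (hr : finrank ℝ W = r) (x : Eu n) : W.starProjection x = ∑ i, ⟪w i, x⟫ • w i := by
  have hspan : ∀ y ∈ W, (∀ i, ⟪w i, y⟫ = 0) → y = 0 := by
    intro y hy h0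
    have hle : Submodule.span ℝ (range w) ≤ W := Submodule.span_le.2 (by rintro _ ⟨i, rfl⟩; exact hw i)
    have heq : Submodule.span ℝ (range w) = W := by
      apply Submodule.eq_of_le_of_finrank_eq hle
      rw [finrank_span_eq_card ho.linearIndependent, Fintype.card_fin, hr]
    rw [← heq] at hy
    have h1 : ⟪y, y⟫ = 0 := by
      refine Submodule.span_induction (p := fun z _ => ⟪z, y⟫ = 0) ?_ ?_ ?_ ?_ hy
      · rintro _ ⟨i, rfl⟩; exact h0 i
      · exact inner_zero_left _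
      · intro a b _ _ ha hb; rw [inner_add_left, ha, hb, add_zero]
      · intro c a _ ha; rw [real_inner_smul_left, ha, mul_zero]
    exact inner_self_eq_zero.1 h1
  have hmem : (∑ i, ⟪w i, x⟫ • w i) ∈ W := Submodule.sum_mem _ fun i _ => Submodule.smul_mem _ _ (hw i)
  have h2 : W.starProjection x - ∑ i, ⟪w i, x⟫ • w i = 0 := by
    refine hspan _ (Submodule.sub_mem _ (Submodule.starProjection_apply_mem _ _) hmem) fun i => ?_
    have h3 : ⟪w i, ∑ j, ⟪w j, x⟫ • w j⟫ = ⟪w i, x⟫ := by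
      rw [inner_sum]
      simp only [real_inner_smul_right]
      rw [Finset.sum_eq_single i]
      · rw [real_inner_self_eq_norm_sq, ho.1 i]; ring
      · intro j _ hj
        rw [ho.2 (Ne.symm hj), mul_zero]
      · intro h; exact absurd (Finset.mem_univ i) h
    rw [inner_sub_right, h3, ← Submodule.inner_starProjection_left_eq_right,
      Submodule.starProjection_eq_self_iff.2 (hw i), sub_self]
  exact sub_eq_zero.1 h2

end abs

section sections

variable {n : ℕ} {M : Type*} [MetricSpace M] [CompactSpace M] {𝒜 : SDist n M}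
  {E : Type*} [NormedAddCommGroup E] [NormedSpace ℝ E]

theorem SmV.sum {ι : Type*} (s : Finset ι) {p : M} {x : E → M} {w : ι → E → Eu n} {u : E}
    (h : ∀ i ∈ s, SmV 𝒜 p x (w i) u) : SmV 𝒜 p x (fun v => ∑ i ∈ s, w i v) u := by
  unfold SmV at h ⊢
  simp only [map_sum]
  exact ContDiffAt.sum h

theorem SmV.neg' {p : M} {x : E → M} {w : E → Eu n} {u : E} (h : SmV 𝒜 p x w u) : SmV 𝒜 p x (fun v => -w v) u := by
  unfold SmV at h ⊢
  simp only [map_neg]
  exact ContDiffAt.neg h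

theorem SmV.sub' {p : M} {x : E → M} {w w' : E → Eu n} {u : E} (h : SmV 𝒜 p x w u) (h' : SmV 𝒜 p x w' u) :
    SmV 𝒜 p x (fun v => w v - w' v) u := by
  simp only [sub_eq_add_neg]
  exact SmV.add h (SmV.neg' h')

/-- normalisation of a smooth field -/
theorem SmV.nrm {p : M} {x : E → M} {w : E → Eu n} {u : E} (hx : SmAt 𝒜 x u) (hp : x u ∈ (𝒜.ψ p).source)
    (h : SmV 𝒜 p x w u) (h0 : w u ≠ 0) : SmV 𝒜 p x (fun v => ‖w v‖⁻¹ • w v) u := by
  have h1 : ContDiffAt ℝ ∞ (fun v => ⟪w v, w v⟫) u := SmV.inner hx hp h h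
  have h2 : ContDiffAt ℝ ∞ (fun v => ‖w v‖⁻¹) u := by
    have h3 : (fun v => ‖w v‖⁻¹) = fun v => (√⟪w v, w v⟫)⁻¹ := by
      funext v
      rw [real_inner_self_eq_norm_sq, Real.sqrt_sq (norm_nonneg _)]
    rw [h3]
    have h4 : ⟪w u, w u⟫ ≠ 0 := by
      rw [real_inner_self_eq_norm_sq]; exact pow_ne_zero 2 (norm_ne_zero_iff.mpr h0)
    refine (h1.sqrt h4).inv ?_
    rw [real_inner_self_eq_norm_sq, Real.sqrt_sq (norm_nonneg _)]
    exact norm_ne_zero_iff.mpr h0
  exact h.smul h2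

/-- a smooth field which is not zero at `u` is not zero near `u` -/
theorem SmV.eventually_ne {p : M} {x : E → M} {w : E → Eu n} {u : E} (hx : SmAt 𝒜 x u) (hp : x u ∈ (𝒜.ψ p).source)
    (h : SmV 𝒜 p x w u) (h0 : w u ≠ 0) : ∀ᶠ v in 𝓝 u, w v ≠ 0 := by
  have h1 : ContinuousAt (fun v => ⟪w v, w v⟫) u := (SmV.inner hx hp h h).continuousAt
  have h6 : ⟪w u, w u⟫ ≠ 0 := by
    rw [real_inner_self_eq_norm_sq]; exact pow_ne_zero 2 (norm_ne_zero_iff.mpr h0)
  filter_upwards [h1.eventually_ne h6] with v hv h7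
  rw [h7, inner_zero_left] at hv
  exact hv rfl

/-- smooth local sections of a family of subspaces; `G u` = the family is smooth at `u` -/
def SecG (𝒜 : SDist n M) (G : E → Prop) (x : E → M) (W : E → Submodule ℝ (Eu n)) (u₀ : E) : Prop :=
  ∀ a ∈ W u₀, ∃ w : E → Eu n, w u₀ = a ∧ ∀ᶠ u in 𝓝 u₀, w u ∈ W u ∧ (G u → SmV 𝒜 (x u₀) x w u)

/-- **orthonormal frames from sections** -/
theorem SecG.frame {G : E → Prop} {x : E → M} {W : E → Submodule ℝ (Eu n)} {u₀ : E} (hs : SecG 𝒜 G x W u₀)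
    (hG : G u₀) (hx : ∀ u, G u → SmAt 𝒜 x u) :
    ∀ {r : ℕ} {a : Fin r → Eu n}, Orthonormal ℝ a → (∀ i, a i ∈ W u₀) →
    ∃ w : Fin r → E → Eu n, (∀ i, w i u₀ = a i) ∧ ∀ᶠ u in 𝓝 u₀, Orthonormal ℝ (fun i => w i u) ∧ (∀ i, w i u ∈ W u) ∧
      (G u → ∀ i, SmV 𝒜 (x u₀) x (w i) u) := by
  intro r
  induction r with
  | zero =>
    intro a ho ha
    exact ⟨fun i => i.elim0, fun i => i.elim0, Eventually.of_forall fun u =>
      ⟨⟨fun i => i.elim0, fun i => i.elim0⟩, fun i => i.elim0, fun _ i => i.elim0⟩⟩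
  | succ r ih =>
    intro a ho ha
    have ho' : Orthonormal ℝ (fun i : Fin r => a i.castSucc) := ho.comp _ (Fin.castSucc_injective r)
    obtain ⟨w, hw0, hw⟩ := ih ho' fun i => ha _
    obtain ⟨s, hs0, hs1⟩ := hs (a (Fin.last r)) (ha _)
    have hx0 : SmAt 𝒜 x u₀ := hx u₀ hG
    have hsrc : ∀ᶠ u in 𝓝 u₀, x u ∈ (𝒜.ψ (x u₀)).source :=
      hx0.cont.eventually ((𝒜.ψ (x u₀)).open_source.mem_nhds (𝒜.mem _))
    let s1 : E → Eu n := fun u => s u - ∑ i, ⟪w i u, s u⟫ • w i u
    have hs1m : ∀ᶠ u in 𝓝 u₀, s1 u ∈ W u ∧ (∀ i, ⟪w i u, s1 u⟫ = 0) ∧ (G u → SmV 𝒜 (x u₀) x s1 u) := by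
      filter_upwards [hw, hs1, hsrc] with u h1 h2 h3
      refine ⟨Submodule.sub_mem _ h2.1 (Submodule.sum_mem _ fun i _ => Submodule.smul_mem _ _ (h1.2.1 i)), fun i => ?_, fun hGu => ?_⟩
      · show ⟪w i u, s u - ∑ j, ⟪w j u, s u⟫ • w j u⟫ = 0
        rw [inner_sub_right, inner_sum]
        simp only [real_inner_smul_right]
        rw [Finset.sum_eq_single i]
        · have h4 : ⟪w i u, w i u⟫ = (1 : ℝ) := by rw [real_inner_self_eq_norm_sq, h1.1.1 i]; norm_num
          rw [h4]; ring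
        · intro j _ hj
          have h4 : ⟪w i u, w j u⟫ = (0 : ℝ) := h1.1.2 (Ne.symm hj)
          rw [h4, mul_zero]
        · intro h; exact absurd (Finset.mem_univ i) h
      · refine SmV.sub' (h2.2 hGu) (SmV.sum _ fun i _ => ?_)
        exact (h1.2.2 hGu i).smul (SmV.inner (hx u hGu) h3 (h1.2.2 hGu i) (h2.2 hGu))
    have hs10 : s1 u₀ = a (Fin.last r) := by
      show s u₀ - ∑ i, ⟪w i u₀, s u₀⟫ • w i u₀ = _
      rw [hs0]
      have h4 : ∀ i, ⟪w i u₀, a (Fin.last r)⟫ = (0 : ℝ) := by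
        intro i
        rw [hw0]
        exact ho.2 (Fin.castSucc_lt_last i).ne
      simp only [h4, zero_smul, Finset.sum_const_zero, sub_zero]
    have hn0 : s1 u₀ ≠ 0 := by
      rw [hs10]
      intro h
      have := ho.1 (Fin.last r)
      rw [h, norm_zero] at this
      exact zero_ne_one this
    have hne : ∀ᶠ u in 𝓝 u₀, s1 u ≠ 0 :=
      SmV.eventually_ne hx0 (𝒜.mem _) (hs1m.self_of_nhds.2.2 hG) hn0
    let s2 : E → Eu n := fun u => ‖s1 u‖⁻¹ • s1 u
    refine ⟨fun i => Fin.lastCases (motive := fun _ => E → Eu n) s2 w i, ?_, ?_⟩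
    · intro i
      refine Fin.lastCases ?_ (fun j => ?_) i
      · simp only [Fin.lastCases_last]
        show ‖s1 u₀‖⁻¹ • s1 u₀ = _
        rw [hs10, ho.1, inv_one, one_smul]
      · simp only [Fin.lastCases_castSucc]
        exact hw0 j
    · filter_upwards [hw, hs1m, hne, hsrc] with u h1 h2 h3 h4
      refine ⟨⟨?_, ?_⟩, ?_, ?_⟩
      · intro i
        refine Fin.lastCases ?_ (fun j => ?_) i
        · simp only [Fin.lastCases_last]
          show ‖‖s1 u‖⁻¹ • s1 u‖ = 1
          exact norm_normalize h3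
        · simp only [Fin.lastCases_castSucc]
          exact h1.1.1 j
      · intro i j hij
        have hcross : ∀ k : Fin r, ⟪w k u, s2 u⟫ = (0 : ℝ) := fun k => by
          show ⟪w k u, ‖s1 u‖⁻¹ • s1 u⟫ = 0
          rw [real_inner_smul_right, h2.2.1 k, mul_zero]
        revert hij
        refine Fin.lastCases ?_ (fun i' => ?_) i
        · refine Fin.lastCases ?_ (fun j' => ?_) j
          · intro h; exact absurd rfl h
          · intro _
            simp only [Fin.lastCases_last, Fin.lastCases_castSucc]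
            rw [real_inner_comm]
            exact hcross j'
        · refine Fin.lastCases ?_ (fun j' => ?_) j
          · intro _
            simp only [Fin.lastCases_last, Fin.lastCases_castSucc]
            exact hcross i'
          · intro hij
            simp only [Fin.lastCases_castSucc]
            exact h1.1.2 (fun h => hij (congrArg _ h))
      · intro i
        refine Fin.lastCases ?_ (fun j => ?_) i
        · simp only [Fin.lastCases_last]
          exact Submodule.smul_mem _ _ h2.1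
        · simp only [Fin.lastCases_castSucc]
          exact h1.2.1 j
      · intro hGu i
        refine Fin.lastCases ?_ (fun j => ?_) i
        · simp only [Fin.lastCases_last]
          exact SmV.nrm (hx u hGu) h4 (h2.2.2 hGu) h3
        · simp only [Fin.lastCases_castSucc]
          exact h1.2.2 hGu j

/-- **the projections onto a family of subspaces of constant dimension with sections are smooth** -/
theorem SecG.proj {G : E → Prop} {x : E → M} {W : E → Submodule ℝ (Eu n)} {u₀ : E} (hs : SecG 𝒜 G x W u₀)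
    (hG : G u₀) (hx : ∀ u, G u → SmAt 𝒜 x u) (hd : ∀ᶠ u in 𝓝 u₀, finrank ℝ (W u) = finrank ℝ (W u₀))
    {p : M} (hp : x u₀ ∈ (𝒜.ψ p).source) {y : E → Eu n} (hy : SmV 𝒜 p x y u₀) :
    SmV 𝒜 p x (fun u => (W u).starProjection (y u)) u₀ := by
  have hx0 := hx u₀ hG
  obtain ⟨b, -⟩ : ∃ b : OrthonormalBasis (Fin (finrank ℝ (W u₀))) ℝ (W u₀), b = stdOrthonormalBasis ℝ (W u₀) := ⟨_, rfl⟩
  have ho : Orthonormal ℝ (fun i => (b i : Eu n)) := b.orthonormal.comp_linearIsometry (W u₀).subtypeₗᵢ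
  obtain ⟨w, -, hw⟩ := hs.frame hG hx ho fun i => (b i).2
  have hy' : SmV 𝒜 (x u₀) x y u₀ := hy.chart hx0 hp (𝒜.mem _)
  have h1 := (hw.self_of_nhds).2.2 hG
  have h2 : SmV 𝒜 (x u₀) x (fun u => ∑ i, ⟪w i u, y u⟫ • w i u) u₀ :=
    SmV.sum _ fun i _ => (h1 i).smul (SmV.inner hx0 (𝒜.mem _) (h1 i) hy')
  have h3 : SmV 𝒜 (x u₀) x (fun u => (W u).starProjection (y u)) u₀ := by
    refine h2.congr ?_
    filter_upwards [hw, hd] with u h4 h5
    exact proj_of_orthonormal h4.1 h4.2.1 h5 _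
  exact h3.chart hx0 (𝒜.mem _) hp

/-- sections of the orthogonal complements -/
theorem SecG.compl {G : E → Prop} {x : E → M} {W W' : E → Submodule ℝ (Eu n)} {u₀ : E}
    (hs : ∀ᶠ u in 𝓝 u₀, G u → ∀ y : E → Eu n, SmV 𝒜 (x u₀) x y u → SmV 𝒜 (x u₀) x (fun u => (W u).starProjection (y u)) u)
    (hs' : SecG 𝒜 G x W' u₀) (hle : ∀ u, W u ≤ W' u) : SecG 𝒜 G x (fun u => W' u ⊓ (W u)ᗮ) u₀ := by
  intro a ha
  obtain ⟨w, hw0, hw⟩ := hs' a ha.1
  refine ⟨fun u => w u - (W u).starProjection (w u), ?_, ?_⟩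
  · show w u₀ - (W u₀).starProjection (w u₀) = a
    rw [hw0, (Submodule.starProjection_apply_eq_zero_iff _).2 ha.2, sub_zero]
  · filter_upwards [hs, hw] with u h1 h2
    refine ⟨⟨Submodule.sub_mem _ h2.1 (hle u (Submodule.starProjection_apply_mem _ _)), ?_⟩, fun hG => ?_⟩
    · exact Submodule.sub_starProjection_mem_orthogonal _
    · exact SmV.sub' (h2.2 hG) (h1 hG w (h2.2 hG))

/-- sections of the whole tangent spaces -/
theorem sec_top {x : E → M} {u₀ : E} (hx : SmAt 𝒜 x u₀) : SecG 𝒜 (fun u => SmAt 𝒜 x u) x (fun _ => ⊤) u₀ := by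
  intro a _
  refine ⟨fun u => DD 𝒜 (x u₀) (x u) a, ?_, ?_⟩
  · have h1 := DD_CC 𝒜 (𝒜.mem (x u₀)) a
    rwa [CC_self] at h1
  · filter_upwards [hx.cont.eventually ((𝒜.ψ (x u₀)).open_source.mem_nhds (𝒜.mem _))] with u hu
    refine ⟨trivial, fun hG => ?_⟩
    show ContDiffAt ℝ ∞ (fun v => CC 𝒜 (x u₀) (x v) (DD 𝒜 (x u₀) (x v) a)) u
    refine (contDiffAt_const (c := a)).congr_of_eventuallyEq ?_
    filter_upwards [hG.cont.eventually ((𝒜.ψ (x u₀)).open_source.mem_nhds hu)] with v hv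
    exact CC_DD 𝒜 hv _

end sections

end Pool.Agent.Lib.MP_ccbbf6_gt.L5
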