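import Pool.Agent.Lib.MP_ccbbf6_gt.L4.OriE
import Pool.Agent.Lib.MP_ccbbf6_gt.L5.G3a

/-!
# Level 5, G3b (helper78): the families `Vc`, `Kc`, `Nc` along smooth families of geodesics
-/

set_option autoImplicit false
set_option linter.unusedSectionVars false

open Set Filter Topology Metric Real Module
open scoped ContDiff RealInnerProductSpace

noncomputable section

namespace Pool.Agent.Lib.MP_ccbbf6_gt.L5

open Geo L4 L4.ORI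

variable {n : ℕ} {M : Type*} [MetricSpace M] [CompactSpace M] (𝒜 : SDist n M)

/-- the directions of the minimal geodesics from `c 0` to `c π` -/
def Vc (c : Gs M) : Submodule ℝ (Eu n) := 𝒜.PV (c.1 0) (𝒜.vel c.1 0)

/-- its subspace perpendicular to `c` -/
def Kc (c : Gs M) : Submodule ℝ (Eu n) := Vc 𝒜 c ⊓ (ℝ ∙ 𝒜.vel c.1 0)ᗮ

/-- its orthogonal complement -/
def Nc (c : Gs M) : Submodule ℝ (Eu n) := (Vc 𝒜 c)ᗮ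

theorem vel_mem_Vc (hB : Bl M) (c : Gs M) : 𝒜.vel c.1 0 ∈ Vc 𝒜 c := mem_PV_self 𝒜 hB _ _

theorem finrank_Vc (hB : Bl M) {κ : ℕ} (hk : 𝒜.HK κ) (c : Gs M) : finrank ℝ (Vc 𝒜 c) = κ + 1 :=
  finrank_PV 𝒜 hB hk _ (vel_ne 𝒜 c)

theorem finrank_Nc (hB : Bl M) {κ : ℕ} (hk : 𝒜.HK κ) (c : Gs M) : finrank ℝ (Nc 𝒜 c) + (κ + 1) = n := by
  have h := Submodule.finrank_add_finrank_orthogonal (Vc 𝒜 c)
  rw [finrank_Vc 𝒜 hB hk] at h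
  rw [finrank_euclideanSpace, Fintype.card_fin] at h
  show finrank ℝ (Vc 𝒜 c)ᗮ + (κ + 1) = n
  omega

theorem mem_Kc {c : Gs M} {w : Eu n} : w ∈ Kc 𝒜 c ↔ w ∈ Vc 𝒜 c ∧ ⟪𝒜.vel c.1 0, w⟫ = 0 := by
  unfold Kc
  rw [Submodule.mem_inf, Submodule.mem_orthogonal_singleton_iff_inner_right]

/-- the projection onto `Kc` -/
theorem proj_Kc (hB : Bl M) (c : Gs M) (x : Eu n) :
    (Kc 𝒜 c).starProjection x = (Vc 𝒜 c).starProjection x - ⟪𝒜.vel c.1 0, x⟫ • 𝒜.vel c.1 0 := by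
  have hv := vel_mem_Vc 𝒜 hB c
  have hvv : ⟪𝒜.vel c.1 0, 𝒜.vel c.1 0⟫ = (1 : ℝ) := by rw [real_inner_self_eq_norm_sq, vel_norm]; norm_num
  refine Submodule.eq_starProjection_of_mem_of_inner_eq_zero (K := Kc 𝒜 c) ?_ ?_
  · rw [mem_Kc]
    refine ⟨Submodule.sub_mem _ (Submodule.starProjection_apply_mem (Vc 𝒜 c) x) (Submodule.smul_mem _ _ hv), ?_⟩
    have h0 : ⟪𝒜.vel c.1 0, (Vc 𝒜 c).starProjection x⟫ = ⟪𝒜.vel c.1 0, x⟫ := by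
      have h1 := Submodule.inner_starProjection_left_eq_right (Vc 𝒜 c) (𝒜.vel c.1 0) x
      rw [Submodule.starProjection_eq_self_iff.2 hv] at h1
      exact h1.symm
    rw [inner_sub_right, real_inner_smul_right, hvv, h0]
    ring
  · intro w hw
    rw [mem_Kc] at hw
    have h1 : ⟪x - (Vc 𝒜 c).starProjection x, w⟫ = (0 : ℝ) := Submodule.starProjection_inner_eq_zero _ _ hw.1
    have h2 : x - ((Vc 𝒜 c).starProjection x - ⟪𝒜.vel c.1 0, x⟫ • 𝒜.vel c.1 0) =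
        (x - (Vc 𝒜 c).starProjection x) + ⟪𝒜.vel c.1 0, x⟫ • 𝒜.vel c.1 0 := by abel
    rw [h2, inner_add_left, h1, real_inner_smul_left, hw.2]
    ring

theorem finrank_Kc (hB : Bl M) {κ : ℕ} (hk : 𝒜.HK κ) (c : Gs M) : finrank ℝ (Kc 𝒜 c) = κ := by
  have h1 : (ℝ ∙ 𝒜.vel c.1 0) ≤ Vc 𝒜 c := (Submodule.span_singleton_le_iff_mem _ _).2 (vel_mem_Vc 𝒜 hB c)
  have h2 := Submodule.finrank_add_inf_finrank_orthogonal h1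
  rw [finrank_span_singleton (vel_ne 𝒜 c), finrank_Vc 𝒜 hB hk] at h2
  have h3 : Kc 𝒜 c = (ℝ ∙ 𝒜.vel c.1 0)ᗮ ⊓ Vc 𝒜 c := inf_comm _ _
  rw [h3]
  omega

variable {𝒜}

section fam

variable {E : Type*} [NormedAddCommGroup E] [NormedSpace ℝ E]

/-- **smooth sections of `Vc`** -/
theorem sec_Vc (hB : Bl M) {κ : ℕ} (hk : 𝒜.HK κ) {σ : E → Gs M} {u₀ : E} (hσ : SmGA 𝒜 σ u₀) :
    SecG 𝒜 (fun u => SmGA 𝒜 σ u) (fun u => (σ u).1 0) (fun u => Vc 𝒜 (σ u)) u₀ := by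
  intro a ha
  obtain ⟨x0, hx0⟩ : ∃ x, x = (σ u₀).1 0 := ⟨_, rfl⟩
  obtain ⟨q0, hq0⟩ : ∃ q, q = (σ u₀).1 π := ⟨_, rfl⟩
  -- points near `u₀`
  have hxs : ∀ᶠ u in 𝓝 u₀, (σ u).1 0 ∈ (𝒜.ψ x0).source := by
    refine hσ.1.cont.eventually ((𝒜.ψ x0).open_source.mem_nhds ?_)
    show (σ u₀).1 0 ∈ (𝒜.ψ x0).source
    rw [← hx0]; exact 𝒜.mem _
  have hqs : ∀ᶠ u in 𝓝 u₀, (σ u).1 π ∈ (𝒜.ψ q0).source := by
    refine (hσ.at hB π).cont.eventually ((𝒜.ψ q0).open_source.mem_nhds ?_)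
    show (σ u₀).1 π ∈ (𝒜.ψ q0).source
    rw [← hq0]; exact 𝒜.mem _
  -- the family with the extra parameter
  let W : E × Eu n → Eu n := fun z => 𝒜.vel (σ z.1).1 0 + DD 𝒜 x0 ((σ z.1).1 0) z.2
  let τ : E × Eu n → Gs M := fun z => gw 𝒜 hB (σ z.1) (W z)
  have hW0 : ∀ u, W (u, 0) = 𝒜.vel (σ u).1 0 := by
    intro u
    show _ + DD 𝒜 x0 ((σ u).1 0) 0 = _
    rw [map_zero, add_zero]
  have hτ : ∀ u, SmGA 𝒜 σ u → (σ u).1 0 ∈ (𝒜.ψ x0).source → SmGA 𝒜 τ (u, 0) := by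
    intro u hG hu
    have hfst : SmAt 𝒜 (fun z : E × Eu n => (σ z.1).1 0) (u, 0) :=
      SmAt.comp (g := fun v => (σ v).1 0) (f := Prod.fst) hG.1 contDiffAt_fst
    refine smGA_gw hB hfst hu ?_ (by rw [hW0]; exact vel_ne 𝒜 _)
    have h1 : SmV 𝒜 x0 (fun z : E × Eu n => (σ z.1).1 0) (fun z => 𝒜.vel (σ z.1).1 0) (u, 0) :=
      SmV.comp (f := (Prod.fst : E × Eu n → E)) (v := (u, 0)) (hG.smV hB hu) contDiffAt_fst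
    refine h1.add ?_
    show ContDiffAt ℝ ∞ (fun z : E × Eu n => CC 𝒜 x0 ((σ z.1).1 0) (DD 𝒜 x0 ((σ z.1).1 0) z.2)) (u, 0)
    refine (contDiffAt_snd (𝕜 := ℝ) (E := E) (F := Eu n)).congr_of_eventuallyEq ?_
    filter_upwards [hfst.cont.eventually ((𝒜.ψ x0).open_source.mem_nhds hu)] with z hz
    exact CC_DD 𝒜 hz _
  let e : E × Eu n → Eu n := fun z => 𝒜.ψ q0 ((τ z).1 π)
  have hend : ∀ u, (τ (u, 0)).1 π = (σ u).1 π := by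
    intro u
    show (gw 𝒜 hB (σ u) (W (u, 0))).1 π = _
    rw [hW0, gw_eq 𝒜 hB _ (vel_ne 𝒜 _), ← gs_Ex 𝒜 hB]
  have he : ∀ u, SmGA 𝒜 σ u → (σ u).1 0 ∈ (𝒜.ψ x0).source → (σ u).1 π ∈ (𝒜.ψ q0).source → ContDiffAt ℝ ∞ e (u, 0) := by
    intro u hG h1 h2
    exact ((hτ u hG h1).at hB π).chart (by rw [hend]; exact h2)
  -- the linear maps
  let A : E → Eu n →L[ℝ] Eu n := fun u =>
    (fderiv ℝ (𝒜.X ((σ u).1 0) q0 π) (𝒜.vel (σ u).1 0)).comp (DD 𝒜 x0 ((σ u).1 0))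
  have hAeq : ∀ u, DifferentiableAt ℝ e (u, 0) → (σ u).1 π ∈ (𝒜.ψ q0).source → 
      A u = (fderiv ℝ e (u, 0)).comp (ContinuousLinearMap.inr ℝ E (Eu n)) := by
    intro u hd h2
    ext1 b
    have h3 : HasFDerivAt e (fderiv ℝ e (u, 0)) (u, 0) := hd.hasFDerivAt
    have h4 : HasFDerivAt (fun a : Eu n => e (u, a)) ((fderiv ℝ e (u, 0)).comp (ContinuousLinearMap.inr ℝ E (Eu n))) 0 :=
      h3.comp (0 : Eu n) (hasFDerivAt_prodMk_right u (0 : Eu n))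
    have h5 : HasFDerivAt (fun a : Eu n => 𝒜.vel (σ u).1 0 + DD 𝒜 x0 ((σ u).1 0) a) (DD 𝒜 x0 ((σ u).1 0)) 0 :=
      (DD 𝒜 x0 ((σ u).1 0)).hasFDerivAt.const_add _
    have hXs : 𝒜.Ex ((σ u).1 0) (rad π (𝒜.vel (σ u).1 0)) ∈ (𝒜.ψ q0).source := by
      rw [← gs_Ex 𝒜 hB]; exact h2
    have h6 : HasFDerivAt (𝒜.X ((σ u).1 0) q0 π) (fderiv ℝ (𝒜.X ((σ u).1 0) q0 π) (𝒜.vel (σ u).1 0))
        (𝒜.vel (σ u).1 0 + DD 𝒜 x0 ((σ u).1 0) 0) := by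
      rw [map_zero, add_zero]
      exact ((contDiffAt_X 𝒜 hB _ q0 π (vel_ne 𝒜 _) hXs).differentiableAt (by simp)).hasFDerivAt
    have h7 := h6.comp (0 : Eu n) h5
    have h8 : (fun a : Eu n => e (u, a)) =ᶠ[𝓝 0]
        (𝒜.X ((σ u).1 0) q0 π) ∘ fun a : Eu n => 𝒜.vel (σ u).1 0 + DD 𝒜 x0 ((σ u).1 0) a := by
      have h9 : ContinuousAt (fun a : Eu n => 𝒜.vel (σ u).1 0 + DD 𝒜 x0 ((σ u).1 0) a) 0 := h5.continuousAt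
      have h10 : 𝒜.vel (σ u).1 0 + DD 𝒜 x0 ((σ u).1 0) 0 ≠ 0 := by
        rw [map_zero, add_zero]; exact vel_ne 𝒜 _
      filter_upwards [h9.eventually_ne h10] with a ha
      show 𝒜.ψ q0 ((gw 𝒜 hB (σ u) (W (u, a))).1 π) = 𝒜.ψ q0 (𝒜.Ex ((σ u).1 0) (rad π (W (u, a))))
      rw [gw_eq 𝒜 hB _ ha]
    exact congrArg (fun L : Eu n →L[ℝ] Eu n => L b) (h7.unique (h4.congr_of_eventuallyEq h8.symm))
  have hA : ∀ u, SmGA 𝒜 σ u → (σ u).1 0 ∈ (𝒜.ψ x0).source → (σ u).1 π ∈ (𝒜.ψ q0).source → ContDiffAt ℝ ∞ A u := by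
    intro u hG h1 h2
    have h0 := he u hG h1 h2
    have h3 : ContDiffAt ℝ ∞ (fderiv ℝ e) (u, 0) := h0.fderiv_right (by simp)
    have h4 : ContDiffAt ℝ ∞ (fun v : E => fderiv ℝ e (v, 0)) u :=
      ContDiffAt.comp (g := fderiv ℝ e) (f := fun v : E => (v, (0 : Eu n))) u h3 (contDiffAt_id.prodMk contDiffAt_const)
    have h5 : ContDiffAt ℝ ∞ (fun v : E => (fderiv ℝ e (v, 0)).comp (ContinuousLinearMap.inr ℝ E (Eu n))) u :=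
      h4.clm_comp contDiffAt_const
    refine h5.congr_of_eventuallyEq ?_
    have h6 : ∀ᶠ z in 𝓝 (u, (0 : Eu n)), DifferentiableAt ℝ e z := by
      have h7 : ContDiffAt ℝ 1 e (u, 0) := h0.of_le (by simp)
      filter_upwards [h7.eventually (by simp)] with z hz
      exact hz.differentiableAt (by simp)
    have h8 : ∀ᶠ v in 𝓝 u, DifferentiableAt ℝ e (v, 0) :=
      (Continuous.tendsto (f := fun v : E => (v, (0 : Eu n))) (by fun_prop) u).eventually h6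
    filter_upwards [h8, (hG.at hB π).cont.eventually ((𝒜.ψ q0).open_source.mem_nhds h2)] with v h9 h10
    exact hAeq v h9 h10
  -- the kernels
  let V : E → Submodule ℝ (Eu n) := fun u => (Vc 𝒜 (σ u)).map (CC 𝒜 x0 ((σ u).1 0) : Eu n →ₗ[ℝ] Eu n)
  have hVd : ∀ u, (σ u).1 0 ∈ (𝒜.ψ x0).source → finrank ℝ (V u) = κ + 1 := by
    intro u h1
    have hinj : Function.Injective (CC 𝒜 x0 ((σ u).1 0) : Eu n →ₗ[ℝ] Eu n) := fun a b hab => by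
      have := congrArg (DD 𝒜 x0 ((σ u).1 0)) hab
      rwa [ContinuousLinearMap.coe_coe, DD_CC 𝒜 h1, DD_CC 𝒜 h1] at this
    show finrank ℝ ((Vc 𝒜 (σ u)).map (CC 𝒜 x0 ((σ u).1 0) : Eu n →ₗ[ℝ] Eu n)) = κ + 1
    rw [← (Submodule.equivMapOfInjective _ hinj _).finrank_eq]
    exact finrank_Vc 𝒜 hB hk _
  have hx0s : (σ u₀).1 0 ∈ (𝒜.ψ x0).source := hxs.self_of_nhds
  have hq0s : (σ u₀).1 π ∈ (𝒜.ψ q0).source := hqs.self_of_nhds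
  have hV : ∀ᶠ u in 𝓝 u₀, finrank ℝ (V u) = finrank ℝ (V u₀) ∧ ∀ x ∈ V u, A u x = 0 := by
    filter_upwards [hxs, hqs] with u h1 h2
    constructor
    · rw [hVd u h1, hVd u₀ hx0s]
    · rintro x ⟨y, hy, rfl⟩
      show fderiv ℝ (𝒜.X ((σ u).1 0) q0 π) (𝒜.vel (σ u).1 0) (DD 𝒜 x0 ((σ u).1 0) (CC 𝒜 x0 ((σ u).1 0) y)) = 0
      rw [DD_CC 𝒜 h1]
      exact fderiv_X_PV 𝒜 hB (vel_ne 𝒜 _) (by rw [← gs_Ex 𝒜 hB]; exact h2) hy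
  have hDD0 : ∀ b, DD 𝒜 x0 ((σ u₀).1 0) b = b := by
    intro b
    have h1 := DD_CC 𝒜 hx0s b
    rw [← hx0, CC_self] at h1
    rw [← hx0]
    exact h1
  have hCC0 : ∀ b, CC 𝒜 x0 ((σ u₀).1 0) b = b := by
    intro b
    rw [← hx0, CC_self]
  have hker : ∀ x, A u₀ x = 0 → x ∈ V u₀ := by
    intro x hx
    have hx' : fderiv ℝ (𝒜.X ((σ u₀).1 0) q0 π) (𝒜.vel (σ u₀).1 0) (DD 𝒜 x0 ((σ u₀).1 0) x) = 0 := hx
    rw [hDD0] at hx'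
    have h1 := ker_X_PV 𝒜 hB hk (vel_ne 𝒜 _) (by rw [← gs_Ex 𝒜 hB]; exact hq0s) hx'
    exact ⟨x, h1, hCC0 x⟩
  have ha' : a ∈ V u₀ := ⟨a, ha, hCC0 a⟩
  obtain ⟨k, hk0, hkev⟩ := smooth_kernel_gen (hA u₀ hσ hx0s hq0s) hker hV ha'
  refine ⟨fun u => DD 𝒜 x0 ((σ u).1 0) (k u), ?_, ?_⟩
  · show DD 𝒜 x0 ((σ u₀).1 0) (k u₀) = a
    rw [hDD0, hk0]
  · filter_upwards [hkev, hxs, hqs] with u h1 h2 h3
    refine ⟨?_, fun hG => ?_⟩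
    · obtain ⟨y, hy, hyk⟩ := h1.1
      show DD 𝒜 x0 ((σ u).1 0) (k u) ∈ _
      rw [← hyk, ContinuousLinearMap.coe_coe, DD_CC 𝒜 h2]
      exact hy
    · show ContDiffAt ℝ ∞ (fun v => CC 𝒜 ((σ u₀).1 0) ((σ v).1 0) (DD 𝒜 x0 ((σ v).1 0) (k v))) u
      rw [← hx0]
      refine (h1.2 (hA u hG h2 h3)).congr_of_eventuallyEq ?_
      filter_upwards [hG.1.cont.eventually ((𝒜.ψ x0).open_source.mem_nhds h2)] with v hv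
      exact CC_DD 𝒜 hv _

/-- the projection onto `Vc` preserves smooth fields -/
theorem smV_projV (hB : Bl M) {κ : ℕ} (hk : 𝒜.HK κ) {σ : E → Gs M} {u : E} (hσ : SmGA 𝒜 σ u) {p : M}
    (hp : (σ u).1 0 ∈ (𝒜.ψ p).source) {y : E → Eu n} (hy : SmV 𝒜 p (fun v => (σ v).1 0) y u) :
    SmV 𝒜 p (fun v => (σ v).1 0) (fun v => (Vc 𝒜 (σ v)).starProjection (y v)) u :=
  (sec_Vc hB hk hσ).proj hσ (fun _ h => h.1) (Eventually.of_forall fun v => by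
    show finrank ℝ (Vc 𝒜 (σ v)) = finrank ℝ (Vc 𝒜 (σ u))
    rw [finrank_Vc 𝒜 hB hk, finrank_Vc 𝒜 hB hk]) hp hy

/-- the projection onto `Kc` preserves smooth fields (`H_c` of helper93) -/
theorem smV_projK (hB : Bl M) {κ : ℕ} (hk : 𝒜.HK κ) {σ : E → Gs M} {u : E} (hσ : SmGA 𝒜 σ u) {p : M}
    (hp : (σ u).1 0 ∈ (𝒜.ψ p).source) {y : E → Eu n} (hy : SmV 𝒜 p (fun v => (σ v).1 0) y u) :
    SmV 𝒜 p (fun v => (σ v).1 0) (fun v => (Kc 𝒜 (σ v)).starProjection (y v)) u := by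
  simp only [proj_Kc 𝒜 hB]
  exact SmV.sub' (smV_projV hB hk hσ hp hy) ((hσ.smV hB hp).smul (SmV.inner hσ.1 hp (hσ.smV hB hp) hy))

/-- the projection onto `Nc` preserves smooth fields -/
theorem smV_projN (hB : Bl M) {κ : ℕ} (hk : 𝒜.HK κ) {σ : E → Gs M} {u : E} (hσ : SmGA 𝒜 σ u) {p : M}
    (hp : (σ u).1 0 ∈ (𝒜.ψ p).source) {y : E → Eu n} (hy : SmV 𝒜 p (fun v => (σ v).1 0) y u) :
    SmV 𝒜 p (fun v => (σ v).1 0) (fun v => (Nc 𝒜 (σ v)).starProjection (y v)) u := by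
  have h1 : ∀ v, (Nc 𝒜 (σ v)).starProjection (y v) = y v - (Vc 𝒜 (σ v)).starProjection (y v) := fun v =>
    Submodule.starProjection_orthogonal_val _
  simp only [h1]
  exact SmV.sub' hy (smV_projV hB hk hσ hp hy)

/-- smooth sections of `Kc` -/
theorem sec_Kc (hB : Bl M) {κ : ℕ} (hk : 𝒜.HK κ) {σ : E → Gs M} {u₀ : E} (hσ : SmGA 𝒜 σ u₀) :
    SecG 𝒜 (fun u => SmGA 𝒜 σ u) (fun u => (σ u).1 0) (fun u => Kc 𝒜 (σ u)) u₀ := by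
  intro a ha
  obtain ⟨w, hw0, hw⟩ := sec_Vc hB hk hσ a ((mem_Kc 𝒜).1 ha).1
  refine ⟨fun u => (Kc 𝒜 (σ u)).starProjection (w u), ?_, ?_⟩
  · show (Kc 𝒜 (σ u₀)).starProjection (w u₀) = a
    rw [hw0]
    exact Submodule.starProjection_eq_self_iff.2 ha
  · filter_upwards [hw, hσ.1.cont.eventually ((𝒜.ψ ((σ u₀).1 0)).open_source.mem_nhds (𝒜.mem _))] with u h1 h2
    exact ⟨Submodule.starProjection_apply_mem _ _, fun hG => smV_projK hB hk hG h2 (h1.2 hG)⟩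

/-- smooth sections of `Nc` -/
theorem sec_Nc (hB : Bl M) {κ : ℕ} (hk : 𝒜.HK κ) {σ : E → Gs M} {u₀ : E} (hσ : SmGA 𝒜 σ u₀) :
    SecG 𝒜 (fun u => SmGA 𝒜 σ u) (fun u => (σ u).1 0) (fun u => Nc 𝒜 (σ u)) u₀ := by
  intro a ha
  obtain ⟨w, hw0, hw⟩ := sec_top (𝒜 := 𝒜) hσ.1 a trivial
  refine ⟨fun u => (Nc 𝒜 (σ u)).starProjection (w u), ?_, ?_⟩
  · show (Nc 𝒜 (σ u₀)).starProjection (w u₀) = a
    rw [hw0]
    exact Submodule.starProjection_eq_self_iff.2 ha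
  · filter_upwards [hw, hσ.1.cont.eventually ((𝒜.ψ ((σ u₀).1 0)).open_source.mem_nhds (𝒜.mem _))] with u h1 h2
    exact ⟨Submodule.starProjection_apply_mem _ _, fun hG => smV_projN hB hk hG h2 (h1.2 hG.1)⟩

/-- **smooth orthonormal frames** of `Vc` (`Kc`, `Nc`: the same with `sec_Kc`, `sec_Nc`) with given value at `u₀` -/
theorem exists_frame_Vc (hB : Bl M) {κ : ℕ} (hk : 𝒜.HK κ) {σ : E → Gs M} {u₀ : E} (hσ : SmGA 𝒜 σ u₀) {r : ℕ}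
    {a : Fin r → Eu n} (ho : Orthonormal ℝ a) (ha : ∀ i, a i ∈ Vc 𝒜 (σ u₀)) :
    ∃ w : Fin r → E → Eu n, (∀ i, w i u₀ = a i) ∧ ∀ᶠ u in 𝓝 u₀, Orthonormal ℝ (fun i => w i u) ∧
      (∀ i, w i u ∈ Vc 𝒜 (σ u)) ∧ (SmGA 𝒜 σ u → ∀ i, SmV 𝒜 ((σ u₀).1 0) (fun v => (σ v).1 0) (w i) u) :=
  (sec_Vc hB hk hσ).frame hσ (fun _ h => h.1) ho ha

theorem exists_frame_Kc (hB : Bl M) {κ : ℕ} (hk : 𝒜.HK κ) {σ : E → Gs M} {u₀ : E} (hσ : SmGA 𝒜 σ u₀) {r : ℕ}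
    {a : Fin r → Eu n} (ho : Orthonormal ℝ a) (ha : ∀ i, a i ∈ Kc 𝒜 (σ u₀)) :
    ∃ w : Fin r → E → Eu n, (∀ i, w i u₀ = a i) ∧ ∀ᶠ u in 𝓝 u₀, Orthonormal ℝ (fun i => w i u) ∧
      (∀ i, w i u ∈ Kc 𝒜 (σ u)) ∧ (SmGA 𝒜 σ u → ∀ i, SmV 𝒜 ((σ u₀).1 0) (fun v => (σ v).1 0) (w i) u) :=
  (sec_Kc hB hk hσ).frame hσ (fun _ h => h.1) ho ha

theorem exists_frame_Nc (hB : Bl M) {κ : ℕ} (hk : 𝒜.HK κ) {σ : E → Gs M} {u₀ : E} (hσ : SmGA 𝒜 σ u₀) {r : ℕ}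
    {a : Fin r → Eu n} (ho : Orthonormal ℝ a) (ha : ∀ i, a i ∈ Nc 𝒜 (σ u₀)) :
    ∃ w : Fin r → E → Eu n, (∀ i, w i u₀ = a i) ∧ ∀ᶠ u in 𝓝 u₀, Orthonormal ℝ (fun i => w i u) ∧
      (∀ i, w i u ∈ Nc 𝒜 (σ u)) ∧ (SmGA 𝒜 σ u → ∀ i, SmV 𝒜 ((σ u₀).1 0) (fun v => (σ v).1 0) (w i) u) :=
  (sec_Nc hB hk hσ).frame hσ (fun _ h => h.1) ho ha

/-- smooth orthonormal frames of `T_(x u) M` -/
theorem exists_frame_T {x : E → M} {u₀ : E} (hx : SmAt 𝒜 x u₀) {r : ℕ} {a : Fin r → Eu n} (ho : Orthonormal ℝ a) :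
    ∃ w : Fin r → E → Eu n, (∀ i, w i u₀ = a i) ∧ ∀ᶠ u in 𝓝 u₀, Orthonormal ℝ (fun i => w i u) ∧
      (SmAt 𝒜 x u → ∀ i, SmV 𝒜 (x u₀) x (w i) u) := by
  obtain ⟨w, h0, h1⟩ := (sec_top (𝒜 := 𝒜) hx).frame hx (fun _ h => h) ho (fun _ => trivial)
  exact ⟨w, h0, by filter_upwards [h1] with u hu using ⟨hu.1, hu.2.2⟩⟩

end fam

end Pool.Agent.Lib.MP_ccbbf6_gt.L5
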