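import Mathlib.Analysis.Calculus.BumpFunction.FiniteDimension
import Pool.Agent.Lib.MP_ccbbf6_gt.L4.PO1
import Pool.Agent.Lib.MP_ccbbf6_gt.L5.G3b

/-!
# Level 5, TE1: the tangent bundle as a subbundle of a trivial bundle (helper93)

`TEmb 𝒜` : isometric embeddings `i x : T_x M → ℝ^D` which preserve and reflect the smoothness of vector fields; `exists_TEmb`.
-/

set_option autoImplicit false
set_option linter.unusedSectionVars false

open Set Filter Topology Metric Real Module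
open scoped ContDiff RealInnerProductSpace

noncomputable section

namespace Pool.Agent.Lib.MP_ccbbf6_gt.L5

open Geo L4 L4.ORI

variable {n : ℕ} {M : Type*} [MetricSpace M] [CompactSpace M] {𝒜 : SDist n M}

/-- an isometric embedding of the tangent bundle in a trivial bundle -/
structure TEmb (𝒜 : SDist n M) where
  /-- dimension -/
  D : ℕ
  /-- the embedding -/
  i : M → (Eu n →ₗᵢ[ℝ] EuclideanSpace ℝ (Fin D))
  smooth : ∀ {F : Type} [NormedAddCommGroup F] [NormedSpace ℝ F] {x : F → M} {w : F → Eu n} {u : F} {p : M}, SmAt 𝒜 x u →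
    x u ∈ (𝒜.ψ p).source → (SmV 𝒜 p x w u ↔ ContDiffAt ℝ ∞ (fun v => i (x v) (w v)) u)

/-- local orthonormal frames -/
theorem exists_lf (𝒜 : SDist n M) (p : M) : ∃ (U : Set M) (e : Fin n → M → Eu n), IsOpen U ∧ p ∈ U ∧ U ⊆ (𝒜.ψ p).source ∧
    (∀ x ∈ U, Orthonormal ℝ fun a => e a x) ∧
    ∀ {F : Type} [NormedAddCommGroup F] [NormedSpace ℝ F] {x : F → M} {u : F}, SmAt 𝒜 x u → x u ∈ U →
      ∀ a, SmV 𝒜 p x (fun v => e a (x v)) u := by
  obtain ⟨u₀, hu₀⟩ : ∃ u₀ : Eu n, u₀ = 𝒜.ψ p p := ⟨_, rfl⟩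
  have ht : u₀ ∈ (𝒜.ψ p).target := by
    rw [hu₀]
    exact (𝒜.ψ p).map_source (𝒜.mem p)
  have hp : (𝒜.ψ p).symm u₀ = p := by
    rw [hu₀]
    exact (𝒜.ψ p).left_inv (𝒜.mem p)
  have hx : SmAt 𝒜 (fun y : Eu n => (𝒜.ψ p).symm y) u₀ := smAt_symm (f := fun y : Eu n => y) contDiffAt_id ht
  obtain ⟨w, -, hw⟩ := exists_frame_T hx (EuclideanSpace.basisFun (Fin n) ℝ).orthonormal
  obtain ⟨t, ht1, ht2, ht3⟩ := _root_.eventually_nhds_iff.1 hw
  refine ⟨(𝒜.ψ p).source ∩ (𝒜.ψ p) ⁻¹' t, fun a x => w a (𝒜.ψ p x), (𝒜.ψ p).isOpen_inter_preimage ht2, ?_, ?_, ?_, ?_⟩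
  · refine ⟨𝒜.mem p, ?_⟩
    show 𝒜.ψ p p ∈ t
    rw [← hu₀]
    exact ht3
  · exact inter_subset_left
  · intro x hx
    exact (ht1 _ hx.2).1
  · intro F _ _ x u hxu hxU a
    have h1 := (ht1 _ hxU.2).2 (smAt_symm (f := fun y : Eu n => y) contDiffAt_id ((𝒜.ψ p).map_source hxU.1)) a
    simp only [hp] at h1
    have h2 := SmV.comp (f := fun v => 𝒜.ψ p (x v)) (v := u) h1 (hxu.chart hxU.1)
    unfold SmV at h2 ⊢
    refine h2.congr_of_eventuallyEq ?_
    filter_upwards [hxu.1.eventually ((𝒜.ψ p).open_source.mem_nhds hxU.1)] with v hv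
    rw [(𝒜.ψ p).left_inv hv]

theorem smooth_ei (e : Emb n 𝒜) {F : Type*} [NormedAddCommGroup F] [NormedSpace ℝ F] {x : F → M} {u : F} (h : SmAt 𝒜 x u) :
    ContDiffAt ℝ ∞ (fun v => e.i (x v)) u :=
  SmFA.comp_to (𝒜 := 𝒜) (g := e.i) (r := x) (z := u) (e.smooth_i _) h

/-- a bump function with a local frame on a neighbourhood of its support -/
theorem exists_bf (e : Emb n 𝒜) (p : M) : ∃ (f : M → ℝ) (U V : Set M) (w : Fin n → M → Eu n), IsOpen U ∧ V ∈ 𝓝 p ∧
    U ⊆ (𝒜.ψ p).source ∧ (∀ x, 0 ≤ f x) ∧ (∀ x ∈ V, 0 < f x) ∧ (∀ x, f x ≠ 0 → x ∈ U) ∧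
    (∀ x ∈ U, Orthonormal ℝ fun a => w a x) ∧
    (∀ {F : Type} [NormedAddCommGroup F] [NormedSpace ℝ F] {x : F → M} {u : F}, SmAt 𝒜 x u → x u ∈ U →
      ∀ a, SmV 𝒜 p x (fun v => w a (x v)) u) ∧
    (∀ {F : Type} [NormedAddCommGroup F] [NormedSpace ℝ F] {x : F → M} {u : F}, SmAt 𝒜 x u →
      ContDiffAt ℝ ∞ (fun v => f (x v)) u) ∧
    (∀ {F : Type} [NormedAddCommGroup F] [NormedSpace ℝ F] {x : F → M} {u : F}, SmAt 𝒜 x u → x u ∉ U →
      ∀ᶠ v in 𝓝 u, f (x v) = 0) := by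
  obtain ⟨U, w, hU, hpU, hUs, ho, hs⟩ := exists_lf 𝒜 p
  have h1 : ∀ᶠ y in 𝓝 (e.i p), e.r y ∈ U := by
    refine (e.smooth_r _ (e.mem p)).1.eventually ?_
    rw [e.left]
    exact hU.mem_nhds hpU
  obtain ⟨r, hr, hrU⟩ := Metric.eventually_nhds_iff.1 h1
  have hin : ∀ x, dist (e.i x) (e.i p) < r → x ∈ U := by
    intro x hx
    have := hrU hx
    rwa [e.left] at this
  obtain ⟨b⟩ : Nonempty (ContDiffBump (e.i p)) := ⟨⟨r / 4, r / 2, by positivity, by linarith⟩⟩
  obtain ⟨b, hb⟩ : ∃ b : ContDiffBump (e.i p), b.rOut = r / 2 := ⟨⟨r / 4, r / 2, by positivity, by linarith⟩, rfl⟩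
  have hbr : b.rOut < r := by rw [hb]; linarith
  refine ⟨fun x => b (e.i x), U, {x | dist (e.i x) (e.i p) < b.rOut}, w, hU, ?_, hUs, fun x => b.nonneg, ?_, ?_, ho, hs, ?_, ?_⟩
  · refine IsOpen.mem_nhds ?_ ?_
    · exact isOpen_lt (e.continuous_i.dist continuous_const) continuous_const
    · show dist (e.i p) (e.i p) < b.rOut
      rw [dist_self]
      exact b.rOut_pos
  · intro x hx
    exact b.pos_of_mem_ball hx
  · intro x hx
    refine hin x ?_
    by_contra hcon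
    push Not at hcon
    exact hx (b.zero_of_le_dist (le_trans hbr.le hcon))
  · intro F _ _ x u hx
    exact b.contDiff.contDiffAt.comp u (smooth_ei e hx)
  · intro F _ _ x u hx hxU
    have h2 : r ≤ dist (e.i (x u)) (e.i p) := by
      by_contra hcon
      push Not at hcon
      exact hxU (hin _ hcon)
    have h3 : ContinuousAt (fun v => dist (e.i (x v)) (e.i p)) u :=
      (smooth_ei e hx).continuousAt.dist continuousAt_const
    filter_upwards [h3.eventually (lt_mem_nhds (lt_of_lt_of_le hbr h2))] with v hv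
    exact b.zero_of_le_dist hv.le

/-- the value of the embedding -/
def teV {ι : Type*} (χ : ι → M → ℝ) (w : ι → Fin n → M → Eu n) (x : M) (v : Eu n) (z : ι × Fin n) : ℝ :=
  χ z.1 x * ⟪w z.1 z.2 x, v⟫

/-- **every tangent bundle has an isometric embedding** -/
theorem exists_TEmb [Nonempty M] (𝒜 : SDist n M) : Nonempty (TEmb 𝒜) := by
  classical
  obtain ⟨e⟩ := exists_emb 𝒜
  choose f U V w hU hV hUs hf0 hfV hfU ho hs hfs hfz using exists_bf e
  obtain ⟨t, ht⟩ := CompactSpace.elim_nhds_subcover V hV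
  -- square sum
  obtain ⟨S, hS⟩ : ∃ S : M → ℝ, S = fun x => ∑ j : {p // p ∈ t}, f j x ^ 2 := ⟨_, rfl⟩
  have hSpos : ∀ x, 0 < S x := by
    intro x
    have hx : x ∈ ⋃ p ∈ t, V p := by
      rw [ht]
      trivial
    obtain ⟨p, hp, hxp⟩ := mem_iUnion₂.1 hx
    rw [hS]
    refine Finset.sum_pos' (fun j _ => sq_nonneg _) ⟨⟨p, hp⟩, Finset.mem_univ _, ?_⟩
    exact pow_pos (hfV p x hxp) 2
  obtain ⟨χ, hχ⟩ : ∃ χ : {p // p ∈ t} → M → ℝ, χ = fun (j : {p // p ∈ t}) (x : M) => f j x / √(S x) := ⟨_, rfl⟩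
  have hχ1 : ∀ x, ∑ j, χ j x ^ 2 = 1 := by
    intro x
    have h1 : ∀ j, χ j x ^ 2 = f j x ^ 2 / S x := by
      intro j
      rw [hχ, div_pow, Real.sq_sqrt (hSpos x).le]
    simp only [h1]
    rw [← Finset.sum_div]
    have h2 : S x = ∑ j : {p // p ∈ t}, f j x ^ 2 := by rw [hS]
    rw [← h2]
    exact div_self (hSpos x).ne'
  have hχU : ∀ (j : {p // p ∈ t}) (x : M), χ j x ≠ 0 → x ∈ U j := by
    intro j x hx
    refine hfU j x fun h => hx ?_
    rw [hχ]
    simp only [h, zero_div]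
  have hχs : ∀ (j : {p // p ∈ t}) {F : Type} [NormedAddCommGroup F] [NormedSpace ℝ F] {x : F → M} {u : F}, SmAt 𝒜 x u →
      ContDiffAt ℝ ∞ (fun v => χ j (x v)) u := by
    intro j F _ _ x u hx
    rw [hχ, hS]
    refine (hfs j hx).div ?_ ?_
    · refine ContDiffAt.sqrt (ContDiffAt.sum fun i _ => (hfs i hx).pow 2) ?_
      have := hSpos (x u)
      rw [hS] at this
      exact this.ne'
    · have := hSpos (x u)
      rw [hS] at this
      exact (Real.sqrt_pos.2 this).ne'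
  have hχz : ∀ (j : {p // p ∈ t}) {F : Type} [NormedAddCommGroup F] [NormedSpace ℝ F] {x : F → M} {u : F}, SmAt 𝒜 x u → x u ∉ U j →
      ∀ᶠ v in 𝓝 u, χ j (x v) = 0 := by
    intro j F _ _ x u hx hxU
    filter_upwards [hfz j hx hxU] with v hv
    rw [hχ]
    simp only [hv, zero_div]
  -- the embedding
  obtain ⟨E, hE⟩ : ∃ E : Fin (Fintype.card ({p // p ∈ t} × Fin n)) ≃ ({p // p ∈ t} × Fin n), E = (Fintype.equivFin _).symm :=
    ⟨_, rfl⟩
  have hnorm : ∀ x v, ∑ z : {p // p ∈ t} × Fin n, teV χ (fun j : {p // p ∈ t} => w j) x v z ^ 2 = ‖v‖ ^ 2 := by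
    intro x v
    rw [Fintype.sum_prod_type]
    have h1 : ∀ j, ∑ a, teV χ (fun j : {p // p ∈ t} => w j) x v (j, a) ^ 2 = χ j x ^ 2 * ‖v‖ ^ 2 := by
      intro j
      by_cases hj : χ j x = 0
      · simp [teV, hj]
      · have h2 := ho j x (hχU j x hj)
        have h3 : ∑ a, ⟪w j a x, v⟫ ^ 2 = ‖v‖ ^ 2 := by
          have hsp : ⊤ ≤ Submodule.span ℝ (range fun a => w j a x) := by
            rw [h2.linearIndependent.span_eq_top_of_card_eq_finrank' (by simp)]
          have h4 := (OrthonormalBasis.mk h2 hsp).sum_sq_norm_inner_right v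
          simp only [OrthonormalBasis.coe_mk, Real.norm_eq_abs, sq_abs] at h4
          exact h4
        have h5 : ∀ a, teV χ (fun j : {p // p ∈ t} => w j) x v (j, a) ^ 2 = χ j x ^ 2 * ⟪w j a x, v⟫ ^ 2 := fun a => by
          unfold teV
          exact mul_pow _ _ _
        simp only [h5]
        rw [← Finset.mul_sum, h3]
    simp only [h1]
    rw [← Finset.sum_mul, hχ1, one_mul]
  obtain ⟨io, hio⟩ : ∃ io : M → (Eu n →ₗᵢ[ℝ] EuclideanSpace ℝ (Fin (Fintype.card ({p // p ∈ t} × Fin n)))),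
      ∀ x v k, io x v k = teV χ (fun j : {p // p ∈ t} => w j) x v (E k) := by
    refine ⟨fun x => ⟨⟨⟨fun v => WithLp.toLp 2 fun k => teV χ (fun j : {p // p ∈ t} => w j) x v (E k), fun v v' => ?_⟩, fun r v => ?_⟩,
      fun v => ?_⟩, fun x v k => rfl⟩
    · ext k
      show teV χ (fun j : {p // p ∈ t} => w j) x (v + v') (E k) = teV χ (fun j : {p // p ∈ t} => w j) x v (E k) + teV χ (fun j : {p // p ∈ t} => w j) x v' (E k)
      unfold teV
      rw [inner_add_right, mul_add]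
    · ext k
      show teV χ (fun j : {p // p ∈ t} => w j) x (r • v) (E k) = r * teV χ (fun j : {p // p ∈ t} => w j) x v (E k)
      unfold teV
      rw [real_inner_smul_right]
      ring
    · show ‖(WithLp.toLp 2 fun k => teV χ (fun j : {p // p ∈ t} => w j) x v (E k) : EuclideanSpace ℝ (Fin _))‖ = ‖v‖
      rw [← sq_eq_sq₀ (norm_nonneg _) (norm_nonneg _), EuclideanSpace.norm_sq_eq, ← hnorm x v]
      rw [← E.sum_comp fun z => teV χ (fun j : {p // p ∈ t} => w j) x v z ^ 2]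
      exact Finset.sum_congr rfl fun k _ => by rw [Real.norm_eq_abs, sq_abs]
  refine ⟨⟨_, io, fun {F} _ _ {x} {v} {u} {p} hx hp => ?_⟩⟩
  constructor
  · intro hv
    rw [contDiffAt_euclidean]
    intro k
    simp only [hio]
    unfold teV
    by_cases hxU : x u ∈ U (E k).1
    · refine (hχs _ hx).mul ?_
      exact SmV.inner hx (hUs _ hxU) (hs _ hx hxU _) (hv.chart hx hp (hUs _ hxU))
    · refine (contDiffAt_const (c := (0 : ℝ))).congr_of_eventuallyEq ?_
      filter_upwards [hχz _ hx hxU] with y hy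
      rw [hy, zero_mul]
  · intro hv
    obtain ⟨j, hj⟩ : ∃ j, χ j (x u) ≠ 0 := by
      by_contra hcon
      push Not at hcon
      have := hχ1 (x u)
      simp [hcon] at this
    have hxU := hχU j (x u) hj
    have h1 : SmV 𝒜 j x (fun y => ∑ a, (io (x y) (v y) (E.symm (j, a)) / χ j (x y)) • w j a (x y)) u := by
      refine SmV.sum _ fun a _ => ?_
      refine (hs j hx hxU a).smul ?_
      exact ((contDiffAt_euclidean.1 hv) _).div (hχs j hx) hj
    refine SmV.chart hx (SmV.congr h1 ?_) (hUs _ hxU) hp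
    filter_upwards [hx.1.eventually ((hU j).mem_nhds hxU), (hχs j hx).continuousAt.eventually_ne hj] with y hy1 hy2
    have h2 := ho j (x y) hy1
    have hsp : ⊤ ≤ Submodule.span ℝ (range fun a => w j a (x y)) := by
      rw [h2.linearIndependent.span_eq_top_of_card_eq_finrank' (by simp)]
    have h4 := (OrthonormalBasis.mk h2 hsp).sum_repr' (v y)
    simp only [OrthonormalBasis.coe_mk] at h4
    conv_lhs => rw [← h4]
    refine Finset.sum_congr rfl fun a _ => ?_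
    rw [hio, E.apply_symm_apply]
    unfold teV
    rw [mul_div_cancel_left₀ _ hy2]

end Pool.Agent.Lib.MP_ccbbf6_gt.L5
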