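import Pool.Agent.Lib.MP_ccbbf6_gt.L5.EGT6

/-!
# Level 5, EGD: degrees of the Euler forms and transgressions in all ranks (helper13)
-/

set_option autoImplicit false
set_option maxSynthPendingDepth 3
set_option linter.unusedSectionVars false

open Matrix Function

noncomputable section

namespace Pool.Agent.Lib.MP_ccbbf6_gt.L5.EGD

open L4 L4.FR

variable {X : Space} {ι κ : Type*} [Fintype ι] [DecidableEq ι] [Fintype κ] [DecidableEq κ] {n m l r j : ℕ}

theorem Deg_f0 (a : SF X) : Deg 0 ((FO X).f a) := fun _ _ => Dg_fc _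

theorem Deg_fsum {α : Type*} (s : Finset α) {f : α → Om X} (h : ∀ i, Deg j (f i)) : Deg j (∑ i ∈ s, f i) := by
  classical
  induction s using Finset.induction_on with
  | empty =>
    rw [Finset.sum_empty]
    exact Deg_zero
  | insert a s ha ih =>
    rw [Finset.sum_insert ha]
    exact Deg_add (h a) ih

theorem Deg_fmul (a : SF X) {θ : Om X} (h : Deg j θ) : Deg j ((FO X).f a * θ) := by
  have h1 := Deg_mul (Deg_f0 a) h
  rwa [zero_add] at h1

theorem Deg_mulf (a : SF X) {θ : Om X} (h : Deg j θ) : Deg j (θ * (FO X).f a) := by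
  have h1 := Deg_mul h (Deg_f0 a)
  rwa [add_zero] at h1

theorem Deg_Gd {w : Om X} (h : Deg j w) : Deg (j + 1) ((GO X).d w) := Deg_d h

theorem Deg_Dm (P : Matrix ι κ (SF X)) (a : ι) (b : κ) : Deg 1 ((GO X).D (P.map (FO X).f) a b) := Deg_Gd (Deg_f0 _)

theorem Deg_Rv (P : Matrix ι ι (SF X)) (a b : ι) : Deg 2 (Rv (FO X) P a b) := by
  unfold Rv GDA.R
  rw [Matrix.mul_apply]
  refine Deg_fsum _ fun i => Deg_fmul _ ?_
  rw [Matrix.mul_apply]
  exact Deg_fsum _ fun k => Deg_mul (i := 1) (j := 1) (Deg_Dm P _ _) (Deg_Dm P _ _)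

theorem Deg_Dv (P : Matrix ι ι (SF X)) (y : ι → SF X) (a : ι) : Deg 1 (Dv (FO X) P y a) := by
  unfold Dv pv dv uv
  exact Deg_fsum _ fun i => Deg_fmul _ (Deg_Gd (Deg_f0 _))

/-- products of even elements -/
theorem Deg_prod {α : Type*} (s : Finset α) (x : α → (GO X).Ee) (h : ∀ a, Deg j (x a : Om X)) :
    Deg (j * s.card) ((∏ a ∈ s, x a : (GO X).Ee) : Om X) := by
  classical
  induction s using Finset.induction_on with
  | empty =>
    rw [Finset.prod_empty, Finset.card_empty, mul_zero]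
    exact Deg_one
  | insert a s ha ih =>
    rw [Finset.prod_insert ha, Finset.card_insert_of_notMem ha, mul_add, mul_one, add_comm]
    exact Deg_mul (h a) ih

theorem Deg_eulM (o : (Fin (2 * m) → ι) → SF X) {M : Matrix ι ι (GO X).Ee} (h : ∀ a b, Deg 2 (M a b : Om X)) :
    Deg (2 * m) (eulM (FO X) o M) := by
  unfold eulM
  refine Deg_smul _ ?_
  rw [pfo_St]
  unfold St
  refine Deg_fsum _ fun I => Deg_fmul _ ?_
  have h1 := Deg_prod (Finset.univ : Finset (Fin m)) (fun a => M (I (s0 a)) (I (s1 a))) fun a => h _ _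
  rw [Finset.card_univ, Fintype.card_fin] at h1
  exact h1

theorem Deg_eulG (P : Matrix ι ι (SF X)) (o : (Fin (2 * m) → ι) → SF X) : Deg (2 * m) (eulG (FO X) P o) := by
  rw [eulG_eulM]
  exact Deg_eulM o fun _ _ => Deg_Rv P _ _

theorem Deg_fG (P : Matrix ι ι (SF X)) (o : (Fin (2 * n + 1) → ι) → SF X) (y : ι → SF X) :
    Deg (2 * n) (fG (FO X) P o y) := by
  unfold fG
  exact Deg_smul _ (Deg_eulG _ _)

variable {P : Matrix ι ι (SF X)} {w : Matrix ι ι (Om X)}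

theorem Deg_RT (hw : ∀ a b, Deg 1 (w a b)) (a b : ι) : Deg 2 (RT (FO X) P w a b) := by
  unfold RT
  refine Deg_add (Deg_add (Deg_Rv P _ _) ?_) ?_
  · rw [Matrix.mul_apply]
    refine Deg_fsum _ fun k => Deg_mulf _ ?_
    rw [Matrix.mul_apply]
    exact Deg_fsum _ fun i => Deg_fmul _ (Deg_d (hw _ _))
  · rw [Matrix.mul_apply]
    exact Deg_fsum _ fun k => Deg_mul (i := 1) (j := 1) (hw _ _) (hw _ _)

theorem Deg_DT (hw : ∀ a b, Deg 1 (w a b)) (y : ι → SF X) (a : ι) : Deg 1 (DT (FO X) P w y a) := by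
  unfold DT
  exact Deg_add (Deg_Dv P y a) (Deg_fsum _ fun i => Deg_mulf _ (hw _ _))

theorem Deg_fT (h : Cn (FO X) P w) (hP : P * P = P) (hw : ∀ a b, Deg 1 (w a b)) (o : (Fin (2 * n + 1) → ι) → SF X)
    (y : ι → SF X) : Deg (2 * n) (fT h hP o y) := by
  unfold fT
  refine Deg_smul _ (Deg_eulM _ fun a b => ?_)
  change Deg 2 (RT (FO X) P w a b + DT (FO X) P w y a * DT (FO X) P w y b)
  exact Deg_add (Deg_RT hw a b) (Deg_mul (i := 1) (j := 1) (Deg_DT hw y a) (Deg_DT hw y b))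

theorem Deg_TX {Z : ι → ι → Om X} {M : Fin n → Matrix ι ι (GO X).Ee} (hZ : ∀ a b, Deg 1 (Z a b))
    (hM : ∀ c a b, Deg 2 (M c a b : Om X)) (I : Fin (2 * (n + 1)) → ι) : Deg (2 * n + 1) (TX Z M I) := by
  unfold TX
  have h1 := Deg_prod (Finset.univ : Finset (Fin n)) (fun a => M a (I (s0 a.succ)) (I (s1 a.succ))) fun a => hM _ _ _
  rw [Finset.card_univ, Fintype.card_fin] at h1
  rw [add_comm]
  exact Deg_mul (hZ _ _) h1

theorem Deg_psiT (h : Cn (FO X) P w) (hP : P * P = P) (hw : ∀ a b, Deg 1 (w a b))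
    (o : (Fin (2 * (n + 1)) → ι) → SF X) (y : ι → SF X) : Deg (2 * n + 1) (psiT h hP o y) := by
  unfold psiT psiRT PhiT St
  refine Deg_smul _ (Deg_fsum _ fun S => Deg_smul _ (Deg_fsum _ fun I => Deg_fmul _ (Deg_TX (fun a b => ?_) ?_ I)))
  · exact Deg_fmul _ (Deg_DT hw y b)
  · intro c a b
    unfold MSt
    split_ifs
    · exact Deg_RT hw a b
    · exact Deg_mul (i := 1) (j := 1) (Deg_DT hw y a) (Deg_DT hw y b)

theorem Deg_psiG (P : Matrix ι ι (SF X)) (o : (Fin (2 * (n + 1)) → ι) → SF X) (y : ι → SF X) :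
    Deg (2 * n + 1) (psiG (FO X) P o y) := by
  unfold psiG psiR PhiS St
  refine Deg_smul _ (Deg_fsum _ fun S => Deg_smul _ (Deg_fsum _ fun I => Deg_fmul _ (Deg_TX (fun a b => ?_) ?_ I)))
  · exact Deg_fmul _ (Deg_Dv P y b)
  · intro c a b
    unfold MS
    split_ifs
    · exact Deg_Rv P a b
    · exact Deg_mul (i := 1) (j := 1) (Deg_Dv P y a) (Deg_Dv P y b)

theorem Deg_wA {a : Om X} (ha : Deg 1 a) (θ : Matrix ι ι (SF X)) (i k : ι) : Deg 1 (wA (FO X) a θ i k) := by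
  unfold wA
  exact Deg_neg (Deg_mulf _ ha)

end Pool.Agent.Lib.MP_ccbbf6_gt.L5.EGD
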