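import Pool.Agent.Lib.MP_ccbbf6_gt.L5.EGT6

/-!
# Level 5, EGT7: horizontality of `fT`, `psiT`; block formula for `fT` (helper13)
-/

set_option autoImplicit false
set_option maxSynthPendingDepth 3
set_option linter.unusedSectionVars false

open Matrix Function

noncomputable section

namespace Pool.Agent.Lib.MP_ccbbf6_gt.L5

variable {ι κ : Type*} [Fintype ι] [DecidableEq ι] [Fintype κ] [DecidableEq κ] {n m l r : ℕ} {A : Type*} [CommRing A]
  [Algebra ℝ A] {B : Type*} [Ring B] [Algebra ℝ B] {G : GDA B} {φ : Fun0 A G} {P : Matrix ι ι A} {w : Matrix ι ι B}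
  {y : ι → A}

/-- antiderivations -/
structure AD (G : GDA B) where
  /-- the map -/
  i : B →ₗ[ℝ] B
  mul : ∀ a b, i (a * b) = i a * b + G.s a * i b

variable (D : AD G)

theorem AD.one : D.i 1 = 0 := by
  have h := D.mul 1 1
  rw [mul_one, mul_one, show G.s 1 = 1 from map_one _, one_mul] at h
  have h2 : D.i 1 + 0 = D.i 1 + D.i 1 := by rw [add_zero]; exact h
  exact (add_left_cancel h2).symm

/-- horizontal elements -/
def AD.hor : Subalgebra ℝ B where
  carrier := {x | D.i x = 0}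
  mul_mem' := fun {a b} ha hb => by
    change D.i (a * b) = 0
    rw [D.mul, show D.i a = 0 from ha, show D.i b = 0 from hb, zero_mul, mul_zero, add_zero]
  add_mem' := fun {a b} ha hb => by
    change D.i (a + b) = 0
    rw [map_add, show D.i a = 0 from ha, show D.i b = 0 from hb, add_zero]
  algebraMap_mem' := fun r => by
    change D.i (algebraMap ℝ B r) = 0
    rw [Algebra.algebraMap_eq_smul_one, map_smul, D.one, smul_zero]

theorem AD.mem (x : B) : x ∈ D.hor ↔ D.i x = 0 := Iff.rfl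

/-- products of even elements -/
theorem AD.prod {α : Type*} (s : Finset α) (x : α → G.Ee) (h : ∀ a ∈ s, (x a : B) ∈ D.hor) :
    ((∏ a ∈ s, x a : G.Ee) : B) ∈ D.hor := by
  classical
  induction s using Finset.induction_on with
  | empty =>
    rw [Finset.prod_empty]
    exact D.hor.one_mem
  | insert c s hc ih =>
    rw [Finset.prod_insert hc]
    exact D.hor.mul_mem (h c (Finset.mem_insert_self c s)) (ih fun a ha => h a (Finset.mem_insert_of_mem ha))

theorem AD.eulM {o : (Fin (2 * m) → ι) → A} {M : Matrix ι ι G.Ee} (ho : ∀ I, φ.f (o I) ∈ D.hor)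
    (hM : ∀ i j, (M i j : B) ∈ D.hor) : L5.eulM φ o M ∈ D.hor := by
  unfold L5.eulM
  refine D.hor.smul_mem ?_ _
  rw [pfo_St]
  unfold St
  exact D.hor.sum_mem fun I _ => D.hor.mul_mem (ho I) (D.prod _ _ fun a _ => hM _ _)

theorem AD.St {o : (Fin r → ι) → A} {T : (Fin r → ι) → B} (ho : ∀ I, φ.f (o I) ∈ D.hor) (hT : ∀ I, T I ∈ D.hor) :
    L5.St φ o T ∈ D.hor := by
  unfold L5.St
  exact D.hor.sum_mem fun I _ => D.hor.mul_mem (ho I) (hT I)

/-- `fT` is horizontal -/
theorem AD.fT (h : Cn φ P w) (hP : P * P = P) {o : (Fin (2 * n + 1) → ι) → A} (hf : ∀ a, φ.f a ∈ D.hor)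
    (hR : ∀ i j, RT φ P w i j ∈ D.hor) (hD : ∀ i, DT φ P w y i ∈ D.hor) : L5.fT h hP o y ∈ D.hor := by
  unfold L5.fT
  refine D.hor.smul_mem (D.eulM (fun I => hf _) fun i j => ?_) _
  change RT φ P w i j + DT φ P w y i * DT φ P w y j ∈ D.hor
  exact D.hor.add_mem (hR i j) (D.hor.mul_mem (hD i) (hD j))

/-- `psiT` is horizontal -/
theorem AD.psiT (h : Cn φ P w) (hP : P * P = P) {o : (Fin (2 * (n + 1)) → ι) → A} (hf : ∀ a, φ.f a ∈ D.hor)
    (hR : ∀ i j, RT φ P w i j ∈ D.hor) (hD : ∀ i, DT φ P w y i ∈ D.hor) : L5.psiT h hP o y ∈ D.hor := by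
  unfold L5.psiT psiRT
  refine D.hor.smul_mem (D.hor.sum_mem fun S _ => D.hor.smul_mem ?_ _) _
  unfold PhiT
  refine D.St (fun I => hf _) fun I => ?_
  unfold TX yDt
  refine D.hor.mul_mem (D.hor.mul_mem (hf _) (hD _)) (D.prod _ _ fun a _ => ?_)
  unfold MSt
  split_ifs
  · exact hR _ _
  · exact D.hor.mul_mem (hD _) (hD _)

/-- the twisted curvature is horizontal -/
theorem AD.RT {a : B} {θ : Matrix ι ι A} (ha : G.s a = -a) (h1 : P * θ = θ) (h2 : θ * P = θ)
    (h3 : P.map φ.f * G.D (θ.map φ.f) * P.map φ.f = 0) (hf : ∀ a, φ.f a ∈ D.hor)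
    (hd : ∀ i j, G.d (φ.f (P i j)) ∈ D.hor) (hF : G.d a ∈ D.hor) (i j : ι) : L5.RT φ P (wA φ a θ) i j ∈ D.hor := by
  rw [RT_wA ha h1 h2 h3, Matrix.sub_apply, Matrix.of_apply]
  refine D.hor.sub_mem ?_ (D.hor.mul_mem hF (hf _))
  unfold Rv GDA.R
  rw [Matrix.mul_apply]
  refine D.hor.sum_mem fun k _ => D.hor.mul_mem (hf _) ?_
  rw [Matrix.mul_apply]
  exact D.hor.sum_mem fun l _ => D.hor.mul_mem (hd _ _) (hd _ _)

/-- the twisted covariant derivative of an equivariant section is horizontal -/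
theorem AD.DT {a : B} {θ : Matrix ι ι A} (ha1 : D.i a = 1) (h1 : P * θ = θ)
    (hf : ∀ a, φ.f a ∈ D.hor) (hy : ∀ i, D.i (G.d (φ.f (y i))) = φ.f (θ.mulVec y i)) (i : ι) :
    L5.DT φ P (wA φ a θ) y i ∈ D.hor := by
  have hf' : ∀ a, D.i (φ.f a) = 0 := hf
  rw [AD.mem]
  unfold L5.DT Dv pv dv uv wA
  rw [map_add, _root_.map_sum, _root_.map_sum]
  have e1 : ∀ m, D.i (φ.f (P i m) * G.d (φ.f (y m))) = φ.f (P i m * θ.mulVec y m) := by
    intro m
    rw [D.mul, hf', zero_mul, zero_add, φ.ev, hy, map_mul]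
  have e2 : ∀ m, D.i (-(a * φ.f (θ i m)) * φ.f (y m)) = -φ.f (θ i m * y m) := by
    intro m
    rw [neg_mul, map_neg, mul_assoc, ← map_mul, D.mul, ha1, one_mul, hf', mul_zero, add_zero]
  simp only [e1, e2]
  rw [Finset.sum_neg_distrib, ← _root_.map_sum, ← _root_.map_sum, ← sub_eq_add_neg, sub_eq_zero]
  congr 1
  have h4 : P.mulVec (θ.mulVec y) = θ.mulVec y := by
    rw [Matrix.mulVec_mulVec, h1]
  exact congrFun h4 i

/-! ### block formula for `fT` -/

variable {Q : Matrix κ κ A} {v : Matrix κ κ B}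

theorem Cn.block (h : Cn φ P w) (k : Cn φ Q v) : Cn φ (fromBlocks P 0 0 Q) (fromBlocks w 0 0 v) := by
  have e1 : (fromBlocks P 0 0 Q).map φ.f = fromBlocks (P.map φ.f) 0 0 (Q.map φ.f) := by
    rw [fromBlocks_map]
    congr 1 <;> exact Matrix.map_zero _ (map_zero _)
  constructor
  · unfold GDA.Od
    refine Matrix.ext fun i j => ?_
    rcases i with i | i <;> rcases j with j | j
    · exact h.od.app i j
    · change G.s 0 = -0
      rw [map_zero, neg_zero]
    · change G.s 0 = -0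
      rw [map_zero, neg_zero]
    · exact k.od.app i j
  · rw [fromBlocks_transpose, h.anti, k.anti, Matrix.transpose_zero, Matrix.transpose_zero, fromBlocks_neg, neg_zero,
      neg_zero]
  · rw [e1, fromBlocks_multiply, h.l, k.l]
    simp
  · rw [e1, fromBlocks_multiply, h.r, k.r]
    simp

theorem RT_block (P : Matrix ι ι A) (Q : Matrix κ κ A) (w : Matrix ι ι B) (v : Matrix κ κ B) :
    RT φ (fromBlocks P 0 0 Q) (fromBlocks w 0 0 v) = fromBlocks (RT φ P w) 0 0 (RT φ Q v) := by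
  have e0 : Rv φ (fromBlocks P 0 0 Q) = fromBlocks (Rv φ P) 0 0 (Rv φ Q) := by
    have h1 := congrArg (fun M => M.map G.Ee.val) (Re_block (φ := φ) P Q)
    have h2 : (Re φ (fromBlocks P 0 0 Q)).map G.Ee.val = Rv φ (fromBlocks P 0 0 Q) := rfl
    have h3 : (fromBlocks (Re φ P) 0 0 (Re φ Q)).map G.Ee.val = fromBlocks (Rv φ P) 0 0 (Rv φ Q) := by
      rw [fromBlocks_map]
      congr 1
    rw [← h2, ← h3]
    exact h1
  have e1 : (fromBlocks P 0 0 Q).map φ.f = fromBlocks (P.map φ.f) 0 0 (Q.map φ.f) := by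
    rw [fromBlocks_map]
    congr 1 <;> exact Matrix.map_zero _ (map_zero _)
  have e2 : G.D (fromBlocks w 0 0 v) = fromBlocks (G.D w) 0 0 (G.D v) := by
    ext i j
    rcases i with i | i <;> rcases j with j | j
    · rfl
    · exact map_zero G.d
    · exact map_zero G.d
    · rfl
  unfold RT
  rw [e0, e1, e2, fromBlocks_multiply, fromBlocks_multiply, fromBlocks_multiply, fromBlocks_add, fromBlocks_add]
  simp

/-- sections of the first summand -/
def inlS (κ : Type*) (y : ι → A) : ι ⊕ κ → A := Sum.elim y fun _ => 0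

theorem DT_block (P : Matrix ι ι A) (Q : Matrix κ κ A) (w : Matrix ι ι B) (v : Matrix κ κ B) (y : ι → A) (i : ι) :
    DT φ (fromBlocks P 0 0 Q) (fromBlocks w 0 0 v) (inlS κ y) (Sum.inl i) = DT φ P w y i := by
  unfold DT Dv pv dv uv
  rw [Fintype.sum_sum_type, Fintype.sum_sum_type]
  simp only [fromBlocks_apply₁₁, fromBlocks_apply₁₂, Matrix.zero_apply, map_zero, zero_mul, Finset.sum_const_zero,
    add_zero]
  rfl

theorem DT_block' (P : Matrix ι ι A) (Q : Matrix κ κ A) (w : Matrix ι ι B) (v : Matrix κ κ B) (y : ι → A) (i : κ) :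
    DT φ (fromBlocks P 0 0 Q) (fromBlocks w 0 0 v) (inlS κ y) (Sum.inr i) = 0 := by
  unfold DT Dv pv dv uv
  rw [Fintype.sum_sum_type, Fintype.sum_sum_type]
  simp only [fromBlocks_apply₂₁, fromBlocks_apply₂₂, Matrix.zero_apply, map_zero, zero_mul, Finset.sum_const_zero,
    zero_add]
  have e1 : ∀ j : κ, φ.f (inlS κ y (Sum.inr j)) = 0 := fun j => map_zero φ.f
  simp only [e1, map_zero, mul_zero, Finset.sum_const_zero, add_zero]

theorem Sec.inl (hy : Sec P y) : Sec (fromBlocks P 0 0 Q) (inlS κ y) := by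
  constructor
  · funext i
    rw [Matrix.mulVec, dotProduct, Fintype.sum_sum_type]
    rcases i with i | i
    · have h1 := congrFun hy.pr i
      rw [Matrix.mulVec, dotProduct] at h1
      simp only [fromBlocks_apply₁₁, fromBlocks_apply₁₂, Matrix.zero_apply, zero_mul, Finset.sum_const_zero, add_zero]
      exact h1
    · simp only [fromBlocks_apply₂₁, fromBlocks_apply₂₂, Matrix.zero_apply, zero_mul, Finset.sum_const_zero, zero_add]
      have e1 : ∀ j : κ, inlS κ y (Sum.inr j) = 0 := fun j => rfl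
      simp only [e1, mul_zero, Finset.sum_const_zero]
  · rw [Fintype.sum_sum_type]
    have e1 : ∀ j : κ, inlS κ y (Sum.inr j) = 0 := fun j => rfl
    simp only [e1, mul_zero, Finset.sum_const_zero, add_zero]
    exact hy.un

theorem redP_block : redP (fromBlocks P 0 0 Q) (inlS κ y) = fromBlocks (redP P y) 0 0 Q := by
  refine Matrix.ext fun i j => ?_
  unfold redP
  rcases i with i | i <;> rcases j with j | j
  · rfl
  · change 0 - y i * 0 = 0
    rw [mul_zero, sub_zero]
  · change 0 - 0 * y j = 0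
    rw [zero_mul, sub_zero]
  · change Q i j - 0 * 0 = Q i j
    rw [zero_mul, sub_zero]

/-- **block formula**: at a section of the first summand, `fT = - (-1)^l s fT(first) eulM(second)` -/
theorem fT_block (h : Cn φ P w) (k : Cn φ Q v) {oP : (Fin (2 * n + 1) → ι) → A} {oQ : (Fin (2 * l) → κ) → A}
    {o : (Fin (2 * (n + l) + 1) → ι ⊕ κ) → A} (hP : Or (2 * n + 1) P oP) (hQ : Or (2 * l) Q oQ)
    (ho : Or (2 * (n + l) + 1) (fromBlocks P 0 0 Q) o) (hy : Sec P y) :
    fT (h.block k) ho.idem o (inlS κ y) =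
      ((-1 : ℝ) ^ (l + 1)) • (φ.f (sgn3 (redo oP y) oQ (redo o (inlS κ y))) * (fT h hP.idem oP y * eulM φ oQ (Rte k hQ.idem))) := by
  have hr := ho.red hy.inl
  rw [redP_block] at hr
  have e1 : Rte (h.block k) ho.idem + DDt (h.block k) (inlS κ y) =
      fromBlocks (Rte h hP.idem + DDt h y) 0 0 (Rte k hQ.idem) := by
    refine Matrix.ext fun i j => Subtype.ext ?_
    change RT φ (fromBlocks P 0 0 Q) (fromBlocks w 0 0 v) i j +
      DT φ (fromBlocks P 0 0 Q) (fromBlocks w 0 0 v) (inlS κ y) i *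
      DT φ (fromBlocks P 0 0 Q) (fromBlocks w 0 0 v) (inlS κ y) j = _
    rw [RT_block]
    rcases i with i | i <;> rcases j with j | j
    · rw [DT_block, DT_block]
      rfl
    · rw [DT_block', mul_zero, add_zero]
      rfl
    · rw [DT_block', zero_mul, add_zero]
      rfl
    · rw [DT_block', zero_mul, add_zero]
      rfl
  unfold fT
  rw [e1, eulM_block (hP.red hy) hQ hr, smul_mul_assoc, mul_smul_comm, smul_smul, smul_neg, ← neg_smul]
  congr 1
  ring

end Pool.Agent.Lib.MP_ccbbf6_gt.L5
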