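import Pool.Agent.Lib.MP_ccbbf6_gt.L5.EGC1
import Pool.Agent.Lib.MP_ccbbf6_gt.L5.EGD
import Pool.Agent.Lib.MP_ccbbf6_gt.L5.EGT7
import Pool.Agent.Lib.MP_ccbbf6_gt.L5.PHI01

/-!
# Level 5, EGH: the bundle `N + L ⊗ N_C` (helper13)

* `fY` : the form of a unit section of `N + L ⊗ N_C` (index `ι ⊕ (ι ⊕ ι)`) for the connection `d + (0, - 2 π i a)`;
* `fY_N` : at sections of `N` it is `s fG(N) eC`;
* over a space with a circle action `c` and a connection form `a`: `eC` and `fY` are closed and horizontal.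
-/

set_option autoImplicit false
set_option maxSynthPendingDepth 3
set_option linter.unusedSectionVars false

open Matrix Function
open scoped ContDiff

noncomputable section

namespace Pool.Agent.Lib.MP_ccbbf6_gt.L5.EGH

open L4 L4.FR EGC

section alg

variable {q n : ℕ} {ι : Type} [Fintype ι] [DecidableEq ι] {A B A' B' : Type} [CommRing A] [Algebra ℝ A] [Ring B]
  [Algebra ℝ B] [CommRing A'] [Algebra ℝ A'] [Ring B'] [Algebra ℝ B'] {G : GDA B} {G' : GDA B'} {φ : Fun0 A G}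
  {φ' : Fun0 A' G'} {P : Matrix ι ι A} {a : B}

/-- `N + N_C` -/
def P3 (P : Matrix ι ι A) : Matrix (ι ⊕ (ι ⊕ ι)) (ι ⊕ (ι ⊕ ι)) A := fromBlocks P 0 0 (dP P)

/-- the generator of the rotation -/
def th3 (P : Matrix ι ι A) : Matrix (ι ⊕ (ι ⊕ ι)) (ι ⊕ (ι ⊕ ι)) A := fromBlocks 0 0 0 (thC P)

theorem P3_idem (hP : P * P = P) : P3 P * P3 P = P3 P := by
  unfold P3
  rw [fromBlocks_multiply, hP, dP_idem hP]
  simp

theorem P3_tr (hs : Pᵀ = P) : (P3 P)ᵀ = P3 P := by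
  unfold P3
  rw [fromBlocks_transpose, hs, dP_tr hs, Matrix.transpose_zero, Matrix.transpose_zero]

theorem th3_l (hP : P * P = P) : P3 P * th3 P = th3 P := by
  unfold P3 th3
  rw [fromBlocks_multiply, thC_l hP]
  simp

theorem th3_r (hP : P * P = P) : th3 P * P3 P = th3 P := by
  unfold P3 th3
  rw [fromBlocks_multiply, thC_r hP]
  simp

theorem th3_anti (hs : Pᵀ = P) : (th3 P)ᵀ = -th3 P := by
  unfold th3
  rw [fromBlocks_transpose, thC_anti hs, fromBlocks_neg]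
  simp

theorem P3_map : (P3 P).map φ.f = fromBlocks (P.map φ.f) 0 0 ((dP P).map φ.f) := by
  unfold P3
  rw [fromBlocks_map]
  congr 1 <;> exact Matrix.map_zero _ (map_zero _)

theorem th3_D (hP : P * P = P) : (P3 P).map φ.f * G.D ((th3 P).map φ.f) * (P3 P).map φ.f = 0 := by
  have h1 : G.D ((th3 P).map φ.f) = fromBlocks 0 0 0 (G.D ((thC P).map φ.f)) := by
    ext i j
    rcases i with i | i <;> rcases j with j | j
    · change G.d (φ.f 0) = 0
      rw [map_zero, map_zero]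
    · change G.d (φ.f 0) = 0
      rw [map_zero, map_zero]
    · change G.d (φ.f 0) = 0
      rw [map_zero, map_zero]
    · rfl
  rw [h1, P3_map, fromBlocks_multiply, fromBlocks_multiply]
  simp only [Matrix.mul_zero, Matrix.zero_mul, add_zero, zero_add]
  rw [thC_D hP]
  exact fromBlocks_zero

/-- the connection -/
theorem cn3 (ha : G.s a = -a) (hP : P * P = P) (hs : Pᵀ = P) : Cn φ (P3 P) (wA φ a (th3 P)) :=
  Cn_wA ha (th3_anti hs) (th3_l hP) (th3_r hP)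

theorem w3_eq : fromBlocks 0 0 0 (wA φ a (thC P)) = wA φ a (th3 P) := by
  refine Matrix.ext fun i j => ?_
  rcases i with i | i <;> rcases j with j | j
  · change (0 : B) = -(a * φ.f 0)
    rw [map_zero, mul_zero, neg_zero]
  · change (0 : B) = -(a * φ.f 0)
    rw [map_zero, mul_zero, neg_zero]
  · change (0 : B) = -(a * φ.f 0)
    rw [map_zero, mul_zero, neg_zero]
  · rfl

/-- **the form of the sphere bundle of `N + L ⊗ N_C`** -/
def fY (ha : G.s a = -a) (hP : P * P = P) (hs : Pᵀ = P) (o : (Fin (2 * n + 1) → ι ⊕ (ι ⊕ ι)) → A)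
    (y : ι ⊕ (ι ⊕ ι) → A) : B :=
  fT (cn3 (φ := φ) ha hP hs) (P3_idem hP) o y

theorem fT_congr {κ : Type} [Fintype κ] [DecidableEq κ] {Q Q' : Matrix κ κ A} {w w' : Matrix κ κ B} (hQ : Q = Q')
    (hw : w = w') (h : Cn φ Q w) (h' : Cn φ Q' w') (hP : Q * Q = Q) (hP' : Q' * Q' = Q')
    (o : (Fin (2 * n + 1) → κ) → A) (y : κ → A) : fT h hP o y = fT h' hP' o y := by
  subst hQ hw
  rfl

theorem P3_mapg (f : A →ₐ[ℝ] A') : (P3 P).map f = P3 (P.map f) := by
  unfold P3 dP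
  rw [fromBlocks_map, fromBlocks_map]
  congr 1
  · exact Matrix.map_zero _ (map_zero _)
  · exact Matrix.map_zero _ (map_zero _)
  · congr 1 <;> exact Matrix.map_zero _ (map_zero _)

theorem thC_mapg (f : A →ₐ[ℝ] A') : (thC P).map f = thC (P.map f) := by
  ext i j
  rcases i with i | i <;> rcases j with j | j
  · change f ((2 * Real.pi) • (0 : A)) = (2 * Real.pi) • (0 : A')
    rw [smul_zero, smul_zero, map_zero]
  · change f ((2 * Real.pi) • (-(P i j))) = (2 * Real.pi) • (-(f (P i j)))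
    rw [map_smul, map_neg]
  · change f ((2 * Real.pi) • (P i j)) = (2 * Real.pi) • (f (P i j))
    rw [map_smul]
  · change f ((2 * Real.pi) • (0 : A)) = (2 * Real.pi) • (0 : A')
    rw [smul_zero, smul_zero, map_zero]

theorem th3_mapg (f : A →ₐ[ℝ] A') : (th3 P).map f = th3 (P.map f) := by
  unfold th3
  rw [fromBlocks_map, thC_mapg]
  congr 1 <;> exact Matrix.map_zero _ (map_zero _)

theorem wA_mapg (F : FHom φ φ') {κ : Type} [Fintype κ] [DecidableEq κ] (θ : Matrix κ κ A) :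
    (wA φ a θ).map F.h.f = wA φ' (F.h.f a) (θ.map F.g) := by
  refine Matrix.ext fun i j => ?_
  change F.h.f (-(a * φ.f (θ i j))) = -(F.h.f a * φ'.f (F.g (θ i j)))
  rw [map_neg, map_mul, F.com]

theorem mapg_idem (f : A →ₐ[ℝ] A') (hP : P * P = P) : P.map f * P.map f = P.map f := by
  rw [← Matrix.map_mul, hP]

theorem mapg_tr (f : A →ₐ[ℝ] A') (hs : Pᵀ = P) : (P.map f)ᵀ = P.map f := by
  rw [← Matrix.transpose_map, hs]

theorem s_mapg (F : GHom G G') (ha : G.s a = -a) : G'.s (F.f a) = -F.f a := by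
  rw [← F.f_s, ha, map_neg]

/-- naturality -/
theorem fY_map (F : FHom φ φ') (ha : G.s a = -a) (hP : P * P = P) (hs : Pᵀ = P)
    (o : (Fin (2 * n + 1) → ι ⊕ (ι ⊕ ι)) → A) (y : ι ⊕ (ι ⊕ ι) → A) :
    F.h.f (fY (φ := φ) ha hP hs o y) = fY (φ := φ') (s_mapg F.h ha) (mapg_idem F.g hP) (mapg_tr F.g hs)
      (fun I => F.g (o I)) (fun l => F.g (y l)) := by
  have e1 : (P3 P).map F.g = P3 (P.map F.g) := P3_mapg F.g
  have e2 : (wA φ a (th3 P)).map F.h.f = wA φ' (F.h.f a) (th3 (P.map F.g)) := by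
    rw [wA_mapg, th3_mapg]
  have h' : Cn φ' ((P3 P).map F.g) ((wA φ a (th3 P)).map F.h.f) := by
    rw [e1, e2]
    exact cn3 (s_mapg F.h ha) (mapg_idem F.g hP) (mapg_tr F.g hs)
  have hP' : (P3 P).map F.g * (P3 P).map F.g = (P3 P).map F.g := mapg_idem F.g (P3_idem hP)
  unfold fY
  rw [F.fT _ _ h' hP']
  exact fT_congr e1 e2 _ _ _ _ _ _

/-- naturality of `eC` -/
theorem eC_map (F : FHom φ φ') (ha : G.s a = -a) (hP : P * P = P) (hs : Pᵀ = P) :
    F.h.f (eC (φ := φ) q ha hP hs) = eC (φ := φ') q (s_mapg F.h ha) (mapg_idem F.g hP) (mapg_tr F.g hs) := by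
  unfold eC
  rw [F.eulM]
  have e1 : (fun I => F.g (oG q P I)) = oG q (P.map F.g) := by
    funext I
    unfold oG
    rw [IC.oC_map]
    congr 1
    ext i j
    · rfl
    · exact map_zero F.g
  rw [e1]
  congr 1
  refine GDA.val_inj ?_
  refine Matrix.ext fun i j => ?_
  change F.h.f (RT φ (dP P) (wA φ a (thC P)) i j) = RT φ' (dP (P.map F.g)) (wA φ' (F.h.f a) (thC (P.map F.g))) i j
  have e2 : (dP P).map F.g = dP (P.map F.g) := by
    unfold dP
    rw [fromBlocks_map]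
    congr 1 <;> exact Matrix.map_zero _ (map_zero _)
  rw [← e2, ← thC_mapg, ← wA_mapg, ← F.RT]
  rfl

/-- closed -/
theorem d_fY (ha : G.s a = -a) (hP : P * P = P) (hs : Pᵀ = P) {o : (Fin (2 * n + 1) → ι ⊕ (ι ⊕ ι)) → A}
    {y : ι ⊕ (ι ⊕ ι) → A} (ho : Or (2 * n + 1) (P3 P) o) (hy : Sec (P3 P) y) :
    G.d (fY (φ := φ) ha hP hs o y) = 0 := (cn3 (φ := φ) ha hP hs).d_fT ho hy

theorem fY_neg (ha : G.s a = -a) (hP : P * P = P) (hs : Pᵀ = P) (o : (Fin (2 * n + 1) → ι ⊕ (ι ⊕ ι)) → A)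
    (y : ι ⊕ (ι ⊕ ι) → A) : fY (φ := φ) ha hP hs o (-y) = -fY (φ := φ) ha hP hs o y := fT_neg _ _

/-- closed -/
theorem d_eC (ha : G.s a = -a) (hP : P * P = P) (hs : Pᵀ = P) (ho : Or (2 * q) (dP P) (oG q P)) :
    G.d (eC (φ := φ) q ha hP hs) = 0 := (cnC (φ := φ) ha hP hs).d_eulT ho

/-- the comparison of the orientations -/
def sY (oP : (Fin (2 * n + 1) → ι) → A) (P : Matrix ι ι A) (q : ℕ)
    (o : (Fin (2 * (n + q) + 1) → ι ⊕ (ι ⊕ ι)) → A) (y : ι → A) : A :=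
  sgn3 (redo oP y) (oG q P) (redo o (inlS (ι ⊕ ι) y))

/-- **restriction to the sphere bundle of `N`** -/
theorem fY_N (ha : G.s a = -a) {oP : (Fin (2 * n + 1) → ι) → A} (hP : Or (2 * n + 1) P oP)
    (hG : Or (2 * q) (dP P) (oG q P)) {o : (Fin (2 * (n + q) + 1) → ι ⊕ (ι ⊕ ι)) → A}
    (ho : Or (2 * (n + q) + 1) (P3 P) o) {y : ι → A} (hy : Sec P y) (hq : Odd q) :
    fY (φ := φ) ha hP.idem hP.sym o (inlS (ι ⊕ ι) y) =
      φ.f (sY oP P q o y) * (fG φ P oP y * eC (φ := φ) q ha hP.idem hP.sym) := by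
  have h1 := fT_block (Cn_zero (φ := φ) (P := P)) (cnC (φ := φ) ha hP.idem hP.sym) hP hG ho hy
  have h2 : (-1 : ℝ) ^ (q + 1) = 1 := by
    rw [pow_succ, hq.neg_one_pow]
    norm_num
  rw [h2, one_smul, fT_zero _ hP hy] at h1
  have h3 : fY (φ := φ) ha hP.idem hP.sym o (inlS (ι ⊕ ι) y) =
      fT ((Cn_zero (φ := φ) (P := P)).block (cnC (φ := φ) ha hP.idem hP.sym)) ho.idem o (inlS (ι ⊕ ι) y) := by
    unfold fY
    exact fT_congr rfl w3_eq.symm _ _ _ _ _ _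
  rw [h3, h1]
  rfl

theorem sY_sq {oP : (Fin (2 * n + 1) → ι) → A} (hP : Or (2 * n + 1) P oP)
    (hG : Or (2 * q) (dP P) (oG q P)) {o : (Fin (2 * (n + q) + 1) → ι ⊕ (ι ⊕ ι)) → A}
    (ho : Or (2 * (n + q) + 1) (P3 P) o) {y : ι → A} (hy : Sec P y) : sY oP P q o y * sY oP P q o y = 1 := by
  have hr := ho.red hy.inl
  have e1 : redP (P3 P) (inlS (ι ⊕ ι) y) = fromBlocks (redP P y) 0 0 (dP P) := redP_block
  rw [e1] at hr
  exact sgn3_sq (hP.red hy) hG hr

end alg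

/-! ### circle actions -/

section circ

variable {X Y : Space} {c : Circ X} {n q : ℕ} {ι : Type} [Fintype ι] [DecidableEq ι] {P : Matrix ι ι (SF X)}

/-- contraction with the action -/
def adO (c : Circ X) : AD (GO X) := ⟨iO c, i_mul c⟩

theorem i_fn (f : SF X) : iO c (fn X f) = 0 := Om_ext fun k p => by
  rw [on_i, fn_apply, on_fO, on_zero, cs, cn_fc, map_zero]

theorem f_hor (a : SF X) : (FO X).f a ∈ (adO c).hor := i_fn a

/-- invariant functions -/
def InvF (c : Circ X) (f : SF X) : Prop := ∀ x s, f.1 (c.a.1 (x, s)) = f.1 x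

theorem Bas_fn {f : SF X} (h : InvF c f) : Bas c (fn X f) := (bas_iff _ _).2 (fn_mem c ⟨f, h⟩)

theorem d_hor {f : SF X} (h : InvF c f) : (GO X).d ((FO X).f f) ∈ (adO c).hor := Bas_i _ (Bas_d _ (Bas_fn h))

theorem InvF_zero : InvF c (0 : SF X) := fun _ _ => rfl

theorem pb_cs_dd {k : ℕ} (F : Cs (k + 1)) (r : ℝ) :
    pb (sl k r) (cs k (dd (k + 1) (fc (k + 1) F))) = fc k ((sl k r).pull (pd (Fin.last k) F)) := by
  have h1 := dd_cs (fc (k + 1) F)
  have h2 : cs k (fc (k + 1) F) = 0 := cn_fc _ _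
  have h3 : Ls k (fc (k + 1) F) = fc (k + 1) (pd (Fin.last k) F) := rfl
  rw [h2, map_zero, zero_add, h3] at h1
  rw [h1, pb_fc]

/-- the derivative of a rotated function (helper5's `i_dfn`) -/
theorem i_rot {f g : SF X}
    (h : ∀ x s, f.1 (c.a.1 (x, s)) = Real.cos (2 * Real.pi * s) * f.1 x + Real.sin (2 * Real.pi * s) * g.1 x) :
    iO c (dO X (fn X f)) = (2 * Real.pi) • fn X g := by
  refine Om_ext fun k p => ?_
  rw [on_i, on_d, fn_apply, on_fO, pb_cs_dd, on_smul, fn_apply, on_fO, ← map_smul]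
  congr 1
  refine Cs_ext fun x => ?_
  rw [Sm.pull_apply, pd_apply]
  obtain ⟨F, hF⟩ : ∃ F : Cs (k + 1), F = mkC (fun z => f.1 ((c.op p).1 z)) (f.2 (k + 1) (c.op p)) := ⟨_, rfl⟩
  have hF2 : ContDiff ℝ ∞ (fun z => f.1 ((c.op p).1 z)) := f.2 (k + 1) (c.op p)
  have h1 : HasDerivAt (fun s : ℝ => f.1 ((c.op p).1 (Fin.snoc x s)))
      (fderiv ℝ (fun z => f.1 ((c.op p).1 z)) (sl k 0 x) (Pi.single (Fin.last k) 1)) 0 := by
    have h2 := (hF2.differentiable (by simp) (sl k 0 x)).hasFDerivAt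
    exact h2.comp_hasDerivAt_of_eq (0 : ℝ) (hasDerivAt_snoc x 0) rfl
  have h2 : HasDerivAt (fun s : ℝ => f.1 ((c.op p).1 (Fin.snoc x s))) (2 * Real.pi * g.1 (p.1 x)) 0 := by
    have h3 : (fun s : ℝ => f.1 ((c.op p).1 (Fin.snoc x s))) =
        fun s => Real.cos (2 * Real.pi * s) * f.1 (p.1 x) + Real.sin (2 * Real.pi * s) * g.1 (p.1 x) := by
      funext s
      rw [← h]
      have h4 : (c.op p).1 (Fin.snoc x s) = c.a.1 (p.1 (pr k (Fin.snoc x s)), (Fin.snoc x s : V (k + 1)) (Fin.last k)) := rfl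
      rw [h4, pr_snoc, Fin.snoc_last]
    rw [h3]
    have h5 : HasDerivAt (fun s : ℝ => 2 * Real.pi * s) (2 * Real.pi) 0 := by
      simpa using (hasDerivAt_id (0 : ℝ)).const_mul (2 * Real.pi)
    refine HasDerivAt.congr_deriv ((h5.cos.mul_const (f.1 (p.1 x))).add (h5.sin.mul_const (g.1 (p.1 x)))) ?_
    simp
  exact h1.unique h2

theorem dP_inv (hI : ∀ i j, InvF c (P i j)) (i j : ι ⊕ ι) : InvF c (dP P i j) := by
  rcases i with i | i <;> rcases j with j | j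
  · exact hI i j
  · exact InvF_zero
  · exact InvF_zero
  · exact hI i j

theorem P3_inv (hI : ∀ i j, InvF c (P i j)) (i j : ι ⊕ (ι ⊕ ι)) : InvF c (P3 P i j) := by
  rcases i with i | i <;> rcases j with j | j
  · exact hI i j
  · exact InvF_zero
  · exact InvF_zero
  · exact dP_inv hI i j

/-! ### `eC` -/

variable {a : Om X}

theorem i_eC (ha : sO X a = -a) (hP : P * P = P) (hs : Pᵀ = P) (hI : ∀ i j, InvF c (P i j))
    (hF : iO c (dO X a) = 0) : iO c (eC (φ := FO X) (a := a) q ha hP hs) = 0 := by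
  refine (adO c).eulM (φ := FO X) (fun I => f_hor _) fun i j => ?_
  exact (adO c).RT (φ := FO X) ha (thC_l hP) (thC_r hP) (thC_D hP) f_hor (fun i j => d_hor (dP_inv hI i j)) hF i j

theorem or_dP (hP : P * P = P) (hs : Pᵀ = P) (ht : trace P = (q : SF X)) : Or (2 * q) (dP P) (oG q P) := by
  have h := IC.Or_oC (cP_idem hP) (cP_ad hs) (cP_tr ht)
  rwa [rM_cP] at h

theorem dO_eC (ha : sO X a = -a) (hP : P * P = P) (hs : Pᵀ = P) (ht : trace P = (q : SF X)) :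
    dO X (eC (φ := FO X) (a := a) q ha hP hs) = 0 := d_eC (φ := FO X) ha hP hs (or_dP hP hs ht)

theorem Bas_eC (ha : sO X a = -a) (hP : P * P = P) (hs : Pᵀ = P) (ht : trace P = (q : SF X))
    (hI : ∀ i j, InvF c (P i j)) (hF : iO c (dO X a) = 0) : Bas c (eC (φ := FO X) (a := a) q ha hP hs) :=
  Bas_closed c (i_eC ha hP hs hI hF) (dO_eC ha hP hs ht)

theorem Deg_eC (ha : sO X a = -a) (ha1 : Deg 1 a) (hP : P * P = P) (hs : Pᵀ = P) :
    Deg (2 * q) (eC (φ := FO X) (a := a) q ha hP hs) :=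
  EGD.Deg_eulM _ fun i j => EGD.Deg_RT (fun i j => EGD.Deg_wA ha1 _ i j) i j

/-! ### `fY` -/

/-- a section of `N + L ⊗ N_C` rotated by the circle -/
structure Rot (c : Circ X) (y : ι ⊕ (ι ⊕ ι) → SF X) : Prop where
  inv : ∀ i, InvF c (y (Sum.inl i))
  r1 : ∀ i x s, (y (Sum.inr (Sum.inl i))).1 (c.a.1 (x, s)) = Real.cos (2 * Real.pi * s) * (y (Sum.inr (Sum.inl i))).1 x -
    Real.sin (2 * Real.pi * s) * (y (Sum.inr (Sum.inr i))).1 x
  r2 : ∀ i x s, (y (Sum.inr (Sum.inr i))).1 (c.a.1 (x, s)) = Real.sin (2 * Real.pi * s) * (y (Sum.inr (Sum.inl i))).1 x +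
    Real.cos (2 * Real.pi * s) * (y (Sum.inr (Sum.inr i))).1 x

variable {y : ι ⊕ (ι ⊕ ι) → SF X}

theorem th3_mulVec (hy : (P3 P).mulVec y = y) : (th3 P).mulVec y = Sum.elim (fun _ => 0)
    (Sum.elim (fun i => -((2 * Real.pi) • y (Sum.inr (Sum.inr i)))) fun i => (2 * Real.pi) • y (Sum.inr (Sum.inl i))) := by
  have hv : ∀ v : ι → SF X, P.mulVec v = fun i => ∑ j, P i j * v j := fun v => rfl
  have h1 : ∀ i, ∑ j, P i j * y (Sum.inr (Sum.inl j)) = y (Sum.inr (Sum.inl i)) := by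
    intro i
    have h := congrFun hy (Sum.inr (Sum.inl i))
    rw [Matrix.mulVec, dotProduct, Fintype.sum_sum_type, Fintype.sum_sum_type] at h
    have e1 : ∀ j : ι, P3 P (Sum.inr (Sum.inl i)) (Sum.inl j) = 0 := fun j => rfl
    have e2 : ∀ j : ι, P3 P (Sum.inr (Sum.inl i)) (Sum.inr (Sum.inr j)) = 0 := fun j => rfl
    have e3 : ∀ j : ι, P3 P (Sum.inr (Sum.inl i)) (Sum.inr (Sum.inl j)) = P i j := fun j => rfl
    simp only [e1, e2, e3, zero_mul, Finset.sum_const_zero, zero_add, add_zero] at h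
    exact h
  have h2 : ∀ i, ∑ j, P i j * y (Sum.inr (Sum.inr j)) = y (Sum.inr (Sum.inr i)) := by
    intro i
    have h := congrFun hy (Sum.inr (Sum.inr i))
    rw [Matrix.mulVec, dotProduct, Fintype.sum_sum_type, Fintype.sum_sum_type] at h
    have e1 : ∀ j : ι, P3 P (Sum.inr (Sum.inr i)) (Sum.inl j) = 0 := fun j => rfl
    have e2 : ∀ j : ι, P3 P (Sum.inr (Sum.inr i)) (Sum.inr (Sum.inl j)) = 0 := fun j => rfl
    have e3 : ∀ j : ι, P3 P (Sum.inr (Sum.inr i)) (Sum.inr (Sum.inr j)) = P i j := fun j => rfl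
    simp only [e1, e2, e3, zero_mul, Finset.sum_const_zero, zero_add] at h
    exact h
  funext i
  rw [Matrix.mulVec, dotProduct, Fintype.sum_sum_type, Fintype.sum_sum_type]
  rcases i with i | i | i
  · have e1 : ∀ j : ι ⊕ (ι ⊕ ι), th3 P (Sum.inl i) j = 0 := fun j => by
      rcases j with j | j <;> rfl
    simp only [e1, zero_mul, Finset.sum_const_zero, add_zero]
    rfl
  · have e1 : ∀ j : ι, th3 P (Sum.inr (Sum.inl i)) (Sum.inl j) = 0 := fun j => rfl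
    have e2 : ∀ j : ι, th3 P (Sum.inr (Sum.inl i)) (Sum.inr (Sum.inl j)) = 0 := fun j => by
      change (2 * Real.pi) • (0 : SF X) = 0
      exact smul_zero _
    have e3 : ∀ j : ι, th3 P (Sum.inr (Sum.inl i)) (Sum.inr (Sum.inr j)) = (2 * Real.pi) • (-(P i j)) := fun j => rfl
    simp only [e1, e2, e3, zero_mul, Finset.sum_const_zero, zero_add, smul_mul_assoc, neg_mul]
    rw [← Finset.smul_sum, Finset.sum_neg_distrib, h2, smul_neg]
    rfl
  · have e1 : ∀ j : ι, th3 P (Sum.inr (Sum.inr i)) (Sum.inl j) = 0 := fun j => rfl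
    have e2 : ∀ j : ι, th3 P (Sum.inr (Sum.inr i)) (Sum.inr (Sum.inr j)) = 0 := fun j => by
      change (2 * Real.pi) • (0 : SF X) = 0
      exact smul_zero _
    have e3 : ∀ j : ι, th3 P (Sum.inr (Sum.inr i)) (Sum.inr (Sum.inl j)) = (2 * Real.pi) • P i j := fun j => rfl
    simp only [e1, e2, e3, zero_mul, Finset.sum_const_zero, zero_add, add_zero, smul_mul_assoc]
    rw [← Finset.smul_sum, h1]
    rfl

/-- the action on the section -/
theorem Rot.dy (h : Rot c y) (hy : (P3 P).mulVec y = y) (i : ι ⊕ (ι ⊕ ι)) :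
    iO c (dO X (fn X (y i))) = fn X ((th3 P).mulVec y i) := by
  rw [th3_mulVec hy]
  rcases i with i | i | i
  · have h1 : iO c (dO X (fn X (y (Sum.inl i)))) = 0 := d_hor (h.inv i)
    rw [h1]
    exact (map_zero (fn X)).symm
  · have h1 := i_rot (c := c) (f := y (Sum.inr (Sum.inl i))) (g := -y (Sum.inr (Sum.inr i))) fun x s => by
      rw [h.r1 i x s]
      change _ = _ + Real.sin (2 * Real.pi * s) * (-(y (Sum.inr (Sum.inr i))).1 x)
      ring
    rw [h1, map_neg, smul_neg]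
    change _ = fn X (-((2 * Real.pi) • y (Sum.inr (Sum.inr i))))
    rw [map_neg, map_smul]
  · have h1 := i_rot (c := c) (f := y (Sum.inr (Sum.inr i))) (g := y (Sum.inr (Sum.inl i))) fun x s => by
      rw [h.r2 i x s]
      ring
    rw [h1]
    change _ = fn X ((2 * Real.pi) • y (Sum.inr (Sum.inl i)))
    rw [map_smul]

/-- **`fY` is horizontal** -/
theorem i_fY (ha : sO X a = -a) (hP : P * P = P) (hs : Pᵀ = P) (hI : ∀ i j, InvF c (P i j)) (ha1 : iO c a = 1)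
    (hF : iO c (dO X a) = 0) (o : (Fin (2 * n + 1) → ι ⊕ (ι ⊕ ι)) → SF X) (h : Rot c y) (hy : (P3 P).mulVec y = y) :
    iO c (fY (φ := FO X) (a := a) ha hP hs o y) = 0 := by
  refine (adO c).fT (φ := FO X) (cn3 ha hP hs) (P3_idem hP) f_hor (fun i j => ?_) fun i => ?_
  · exact (adO c).RT (φ := FO X) ha (th3_l hP) (th3_r hP) (th3_D hP) f_hor (fun i j => d_hor (P3_inv hI i j)) hF i j
  · exact (adO c).DT (φ := FO X) ha1 (th3_l hP) f_hor (fun i => h.dy hy i) i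

theorem Deg_fY (ha : sO X a = -a) (ha1 : Deg 1 a) (hP : P * P = P) (hs : Pᵀ = P)
    (o : (Fin (2 * n + 1) → ι ⊕ (ι ⊕ ι)) → SF X) (y : ι ⊕ (ι ⊕ ι) → SF X) :
    Deg (2 * n) (fY (φ := FO X) (a := a) ha hP hs o y) :=
  EGD.Deg_fT (cn3 ha hP hs) (P3_idem hP) (fun i j => EGD.Deg_wA ha1 _ i j) o y

end circ

end Pool.Agent.Lib.MP_ccbbf6_gt.L5.EGH
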