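import Pool.Agent.Lib.MP_ccbbf6_gt.L5.COH3

/-!
# Level 5, PHN 0: closed forms on sphere bundles with a closed fibre form, all degrees (helper56)

`SBun.SSc` : `SBun.SS` without the restriction on the degree, for closed `Ψ`.
`CohD.closed_G` : closed forms of even degree `< 2 (κ + 1) - 2` on `UM`.
-/

set_option autoImplicit false
set_option maxSynthPendingDepth 3

open Set Filter Topology
open scoped ContDiff

noncomputable section

namespace Pool.Agent.Lib.MP_ccbbf6_gt.L5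

open L4 L4.FR

variable {N : ℕ} {S B : Space} (b : SBun N S B)

namespace SBun

theorem SSc_F (hN : 1 ≤ N) {Ψ ζ : Om S} (hΨ : Deg N Ψ) (h1 : b.PI Ψ = 1) (hd : dO S Ψ = 0) (hc : dO S ζ = 0) :
    b.q1.pull ζ = b.q.pull (b.PI (Ψ * ζ)) + (-1 : ℝ) ^ (N + 1) • (b.q1.pull (b.ant.pull Ψ) * b.q.pull (b.PI ζ)) +
      dO b.F ((-1 : ℝ) ^ (N + 1) • b.HS Ψ ζ) := by
  have hK : ∀ θ : Om S, SI N b.F (KO _ (b.pol.pull θ)) = (-1 : ℝ) ^ N • b.q.pull (b.PI θ) := by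
    intro θ
    have h : b.pol.pull θ = (polM b.F N).pull (b.ptm.pull θ) := rfl
    rw [h, SI_pol hN, b.q_PI]
  have hsq : ∀ M : ℕ, (-1 : ℝ) ^ M * (-1 : ℝ) ^ M = 1 := fun M => by
    rw [← mul_pow, neg_one_mul, neg_neg, one_pow]
  have hiter : ∀ M : ℕ, ∀ x : Om b.F, sO b.F x = (-1 : ℝ) ^ N • x →
      (sO b.F)^[M] x = ((-1 : ℝ) ^ N) ^ M • x := by
    intro M x hx
    induction M with
    | zero => rw [Function.iterate_zero_apply, pow_zero, one_smul]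
    | succ M ih => rw [Function.iterate_succ_apply', ih, map_smul, hx, smul_smul, ← pow_succ]
  have hc1 : (sO b.F)^[N + 1] (b.q1.pull (b.ant.pull Ψ)) = b.q1.pull (b.ant.pull Ψ) := by
    have h2 : sO b.F (b.q1.pull (b.ant.pull Ψ)) = (-1 : ℝ) ^ N • b.q1.pull (b.ant.pull Ψ) :=
      Deg_s (Deg_pull _ (Deg_pull _ hΨ))
    rw [hiter _ _ h2, ← pow_mul, (Nat.even_mul_succ_self N).neg_one_pow, one_smul]
  have hj0 : (jO (b.F.xP N) 0).pull (b.pol.pull Ψ * b.KS ζ) = 0 := by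
    rw [map_mul, b.KS_j0, mul_zero]
  have hj1 : (jO (b.F.xP N) 1).pull (b.pol.pull Ψ * b.KS ζ) =
      (pP b.F N).pull (b.q1.pull (b.ant.pull Ψ)) * KO _ (b.pol.pull ζ) := by
    rw [map_mul, b.KS_j1, ← pull_comp, b.pol_j1]
    rfl
  have hdT : dO _ (b.pol.pull Ψ * b.KS ζ) =
        (-1 : ℝ) ^ N • (b.pol.pull (Ψ * ζ) -
          b.pol.pull Ψ * (pO _).pull ((pP b.F N).pull (b.q1.pull ζ))) := by
    rw [d_mul, pull_d, hd, map_zero, zero_mul, zero_add, b.KS_d hc, Deg_s (Deg_pull b.pol hΨ), smul_mul_assoc, mul_sub,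
      map_mul]
  have hKd : KO _ (dO _ (b.pol.pull Ψ * b.KS ζ)) =
        (-1 : ℝ) ^ N • (KO _ (b.pol.pull (Ψ * ζ)) -
          KO _ (b.pol.pull Ψ) * (pP b.F N).pull (b.q1.pull ζ)) := by
    rw [hdT, map_smul, map_sub, KO_mulr]
  have hT : dO _ (KO _ (b.pol.pull Ψ * b.KS ζ)) =
      (pP b.F N).pull (b.q1.pull (b.ant.pull Ψ)) * KO _ (b.pol.pull ζ) -
        (-1 : ℝ) ^ N • (KO _ (b.pol.pull (Ψ * ζ)) -
          KO _ (b.pol.pull Ψ) * (pP b.F N).pull (b.q1.pull ζ)) := by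
    have h := d_K (b.pol.pull Ψ * b.KS ζ)
    rw [hj0, hj1, sub_zero, hKd] at h
    exact eq_sub_of_add_eq h
  have hS : SI N b.F (dO _ (KO _ (b.pol.pull Ψ * b.KS ζ))) =
      (-1 : ℝ) ^ N • (b.q1.pull (b.ant.pull Ψ) * b.q.pull (b.PI ζ)) - b.q.pull (b.PI (Ψ * ζ)) +
        b.q1.pull ζ := by
    rw [hT, map_sub, SI_mul, hc1, hK, map_smul,
      map_sub, hK, SI_mulr, hK, h1, map_one, smul_mul_assoc, one_mul, smul_sub, smul_smul,
      smul_smul, hsq, one_smul, one_smul, mul_smul_comm]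
    abel
  have hH : dO b.F ((-1 : ℝ) ^ (N + 1) • b.HS Ψ ζ) =
      (-1 : ℝ) ^ N • (b.q1.pull (b.ant.pull Ψ) * b.q.pull (b.PI ζ)) - b.q.pull (b.PI (Ψ * ζ)) +
        b.q1.pull ζ := by
    rw [map_smul, HS, SI_d, smul_smul, hsq, one_smul, hS]
  rw [hH, pow_succ, mul_neg, mul_one, neg_smul]
  abel

/-- **closed forms on sphere bundles, closed fibre form** -/
theorem SSc (hN : 1 ≤ N) {Ψ ζ : Om S} (hΨ : Deg N Ψ) (h1 : b.PI Ψ = 1) (hd : dO S Ψ = 0) (hc : dO S ζ = 0) :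
    ∃ η : Om S, (∀ i, Deg (i + 1) ζ → Deg i η) ∧ ζ = b.pi.pull (b.PI (Ψ * ζ)) +
      (-1 : ℝ) ^ (N + 1) • (b.ant.pull Ψ * b.pi.pull (b.PI ζ)) + dO S η := by
  have hη : b.q1.pull (desc b.q1 ((-1 : ℝ) ^ (N + 1) • b.HS Ψ ζ)) = (-1 : ℝ) ^ (N + 1) • b.HS Ψ ζ := by
    refine pull_desc (q := b.q1) b.lift1 fun k P P' h => ?_
    rw [on_smul, on_smul, b.HS_same Ψ ζ k P P' h]
  have hπ : ∀ x : Om B, b.q1.pull (b.pi.pull x) = b.q.pull x := by
    intro x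
    rw [← pull_comp, b.pi_q1]
  refine ⟨desc b.q1 ((-1 : ℝ) ^ (N + 1) • b.HS Ψ ζ), ?_, ?_⟩
  · intro i hζ
    refine INTh_Deg_of (q := b.q1) b.lift1 ?_
    rw [hη]
    refine Deg_smul _ ?_
    obtain ⟨N', rfl⟩ : ∃ N', N = N' + 1 := ⟨N - 1, by omega⟩
    have h2 : Deg i (b.KS ζ) := Deg_K (Deg_pull _ (Deg_pull _ hζ))
    have h3 : Deg (N' + 1 + i) (b.pol.pull Ψ * b.KS ζ) := Deg_mul (Deg_pull _ hΨ) h2
    have h4 : Deg (i + N' + 1) (b.pol.pull Ψ * b.KS ζ) := by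
      have e : i + N' + 1 = N' + 1 + i := by omega
      rw [e]
      exact h3
    exact Deg_SI (Deg_K h4)
  · refine LLift.inj (q := b.q1) b.lift1 ?_
    rw [map_add, map_add, map_smul, map_mul, hπ, hπ, ← pull_d, hη]
    exact b.SSc_F hN hΨ h1 hd hc

end SBun

namespace CohD

variable {κ m : ℕ} {M G F : Space} (D : CohD N κ m M G F)

/-- closed forms of even degree on `UM` -/
theorem closed_G {q i : ℕ} (hκ : κ + 1 = 2 * q) (hi : 1 ≤ i) (h2 : i ≤ 2 * q - 2) (p0 : M.Plot 0) {ζ : Om G}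
    (hζ : Deg (2 * i) ζ) (hd : dO G ζ = 0) :
    ∃ (t : ℝ) (η : Om G), Deg (2 * i - 1) η ∧ ζ = (if i = q then t • D.x else 0) + dO G η := by
  have hm := D.two
  have hN : 2 * i < N := by
    have h3 := D.dim
    have h4 : (κ + 1) * 2 ≤ (κ + 1) * m := Nat.mul_le_mul_left _ hm
    omega
  obtain ⟨w, η, hw, dw, hη, e1⟩ := D.H3 hζ hN hd
  have hη' : Deg (2 * i - 1) η := hη _ (by omega)
  by_cases h : i = q
  · have hw' : Deg ((κ + 1) * 1) w := by
      rw [mul_one, hκ, ← h]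
      exact hw
    obtain ⟨η', k1, k2⟩ := D.H2 p0 dw le_rfl hw'
    refine ⟨D.eps⁻¹ * D.TM p0 (D.u ^ (m - 1) * w), D.foot.pull η' + η,
      Deg_add (Deg_pull _ (k1 _ (by omega))) hη', ?_⟩
    have k3 := congrArg D.foot.pull k2
    rw [map_add, map_smul, pow_one] at k3
    rw [if_pos h, e1, k3, map_add, ← pull_d, add_assoc]
    rfl
  · have hdv : ¬ (κ + 1) ∣ (2 * i - 1 + 1) := by
      rintro ⟨k, hk⟩
      rw [hκ] at hk
      have h5 : i = q * k := by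
        have h6 : 2 * i = 2 * (q * k) := by
          rw [← mul_assoc, ← hk]
          omega
        omega
      have h7 : k = 1 := by
        rcases k with _ | _ | k
        · omega
        · rfl
        · exfalso
          have h8 : q * (k + 1 + 1) = q * k + 2 * q := by ring
          have h9 : 0 ≤ q * k := Nat.zero_le _
          omega
      rw [h7, mul_one] at h5
      exact h h5
    have hw' : Deg (2 * i - 1 + 1) w := by
      rw [show 2 * i - 1 + 1 = 2 * i by omega]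
      exact hw
    obtain ⟨η', k1, k2⟩ := D.H2' dw hw' hdv
    refine ⟨0, D.foot.pull η' + η, Deg_add (Deg_pull _ k1) hη', ?_⟩
    rw [if_neg h, zero_add, e1, k2, map_add, ← pull_d]

end CohD

end Pool.Agent.Lib.MP_ccbbf6_gt.L5
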