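import Pool.Agent.Lib.MP_ccbbf6_gt.L5.PHI06
import Pool.Agent.Lib.MP_ccbbf6_gt.L5.PHN0

/-!
# Level 5, PHN 1: the phi side on the sphere bundle of the negative bundle (helper56)

`NegB` : a sphere bundle `B : SBun N' X G` (`X` = unit sphere bundle of the negative bundle of rank `κ = N' + 1`,
`N' + 2 = 2 q`) over `G = UM` with compatible circle actions, the functional `TG` and the connection `η` on `G`, the
homotopy `fl` from `z_-` to `z_+` through the foot point, and the closed Euler form `f` with `∫ f = 2`.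

Output: `NegB.toPhiK` (all `q`) and `NegB.toPhiD` (`q = 2`), `NegB.volume_le`.
-/

set_option autoImplicit false
set_option maxSynthPendingDepth 3

open Set Filter Topology
open scoped ContDiff

noncomputable section

namespace Pool.Agent.Lib.MP_ccbbf6_gt.L5

open L4 L4.FR

/-- the sphere bundle of the negative bundle -/
structure NegB (X G M F : Space) (N N' m q : ℕ) where
  D : CohD N (N' + 1) m M G F
  hq : N' + 2 = 2 * q
  hq2 : 2 ≤ q
  B : SBun N' X G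
  cG : Circ G
  c : Circ X
  pic : ∀ x s, B.pi.1 (c.a.1 (x, s)) = cG.a.1 (B.pi.1 x, s)
  antc : ∀ x s, B.ant.1 (c.a.1 (x, s)) = c.a.1 (B.ant.1 x, s)
  anta : ∀ x, B.ant.1 (B.ant.1 x) = x
  PI_i : ∀ θ, iO c θ = 0 → iO cG (B.PI θ) = 0
  TG : Om G →ₗ[ℝ] ℝ
  TG_d : ∀ x, TG (dO G x) = 0
  TG_i : ∀ x, iO cG x = 0 → TG x = 0
  TG_e : ∀ x, sO G x = x → TG x = 0
  η : Om G
  η1 : Deg 1 η
  iη : iO cG η = 1
  idη : iO cG (dO G η) = 0
  fl : SMap X.xR M
  fl0 : IMap c (fl.comp (jO X 0))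
  fl1 : IMap c (fl.comp (jO X 1))
  flτ : ∀ x r, fl.1 (B.ant.1 x, r) = fl.1 (x, 1 - r)
  flh : ∀ x, fl.1 (x, 1 / 2) = D.foot.1 (B.pi.1 x)
  f : Om X
  fd : Deg N' f
  df : dO X f = 0
  jf : iO c f = 0
  f2 : B.PI f = algebraMap ℝ (Om G) 2
  fa : B.ant.pull f = -f
  gc : ∀ θ : Om G, Deg 0 θ → dO G θ = 0 → ∃ r : ℝ, θ = algebraMap ℝ (Om G) r
  p0 : M.Plot 0

namespace NegB

variable {X G M F : Space} {N N' m q : ℕ} (P : NegB X G M F N N' m q)

include P in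
lemma hN1 : 1 ≤ N' := by
  have h1 := P.hq
  have h2 := P.hq2
  omega

include P in
lemma sgnN : (-1 : ℝ) ^ N' = 1 := by
  have h1 := P.hq
  have h2 := P.hq2
  have h3 : N' = 2 * (q - 1) := by omega
  rw [h3, pow_mul, neg_one_sq, one_pow]

lemma PI_dP (θ : Om X) : P.B.PI (dO X θ) = dO G (P.B.PI θ) := by
  rw [P.B.PI_d, P.sgnN, one_smul]

lemma PI_sP (θ : Om X) : P.B.PI (sO X θ) = sO G (P.B.PI θ) := by
  rw [P.B.PI_s, P.sgnN, one_smul]

lemma PI_antP (θ : Om X) : P.B.PI (P.B.ant.pull θ) = -P.B.PI θ := by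
  rw [PI_ant, pow_succ, P.sgnN, one_mul, neg_smul, one_smul]

/-- the normalised fibre form -/
def Ψ : Om X := (1 / 2 : ℝ) • P.f

lemma ΨD : Deg N' P.Ψ := Deg_smul _ P.fd

lemma Ψd : dO X P.Ψ = 0 := by
  unfold Ψ
  rw [map_smul, P.df, smul_zero]

lemma Ψ1 : P.B.PI P.Ψ = 1 := by
  unfold Ψ
  rw [P.B.PI_smul, P.f2, Algebra.algebraMap_eq_smul_one, smul_smul]
  norm_num

lemma PI_f_mul (w : Om G) : P.B.PI (P.f * P.B.pi.pull w) = (2 : ℝ) • w := by
  rw [P.B.PI_mulr, P.f2, ← Algebra.smul_def]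

include P in
/-- closed functions on `X` are constant -/
theorem xc {ζ : Om X} (h : Deg 0 ζ) (hd : dO X ζ = 0) : ∃ r : ℝ, ζ = algebraMap ℝ (Om X) r := by
  have h1 := P.B.SSc_F P.hN1 P.ΨD P.Ψ1 P.Ψd hd
  have h2 : P.B.KS ζ = 0 := by
    unfold SBun.KS
    exact KO_zero (Deg_pull _ (Deg_pull _ h))
  have h3 : P.B.HS P.Ψ ζ = 0 := by
    unfold SBun.HS
    rw [h2, mul_zero, map_zero, map_zero]
  rw [h3, smul_zero, map_zero, add_zero, P.B.PI_low h P.hN1, map_zero, mul_zero, smul_zero, add_zero] at h1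
  have h4 : ζ = P.B.pi.pull (P.B.PI (P.Ψ * ζ)) := by
    refine LLift.inj (q := P.B.q1) P.B.lift1 ?_
    rw [h1, ← pull_comp, P.B.pi_q1]
  have h5 : Deg 0 (P.B.PI (P.Ψ * ζ)) := by
    refine P.B.Deg_PI ?_
    have h6 := Deg_mul P.ΨD h
    rwa [add_comm] at h6
  have h6 : dO G (P.B.PI (P.Ψ * ζ)) = 0 := by
    rw [← P.PI_dP, d_mul, P.Ψd, hd, zero_mul, mul_zero, add_zero]
    have := P.B.PI_smul 0 0
    rwa [zero_smul, zero_smul] at this
  obtain ⟨r, hr⟩ := P.gc _ h5 h6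
  exact ⟨r, by rw [h4, hr, AlgHom.commutes]⟩

lemma PI_zero' : P.B.PI 0 = 0 := by
  have h := P.B.PI_smul 0 0
  rwa [zero_smul, zero_smul] at h

/-- closed forms on `X` of even degree `2 i`, `1 ≤ i ≤ 2 q - 2` -/
theorem cX {i : ℕ} (hi : 1 ≤ i) (hi2 : i ≤ 2 * q - 2) {ζ : Om X} (h : Deg (2 * i) ζ) (hd : dO X ζ = 0) :
    ∃ (s t : ℝ) (y : Om X), Deg (2 * i - 1) y ∧
      ζ = (if i = q - 1 then s • P.f else 0) + (if i = q then t • wt P.fl P.D.u (1 / 2) else 0) + dO X y := by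
  have e1 := P.hq
  have e2 := P.hq2
  obtain ⟨η, hη, e3⟩ := P.B.SSc P.hN1 P.ΨD P.Ψ1 P.Ψd hd
  have hηD : Deg (2 * i - 1) η := hη _ (by rwa [show 2 * i - 1 + 1 = 2 * i by omega])
  -- the base part
  have hz : Deg (2 * i) (P.B.PI (P.Ψ * ζ)) := by
    refine P.B.Deg_PI ?_
    have h6 := Deg_mul P.ΨD h
    rwa [add_comm] at h6
  have dz : dO G (P.B.PI (P.Ψ * ζ)) = 0 := by
    rw [← P.PI_dP, d_mul, P.Ψd, hd, zero_mul, mul_zero, add_zero, P.PI_zero']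
  obtain ⟨t, y1, hy1, e4⟩ := P.D.closed_G (q := q) (by omega) hi hi2 P.p0 hz dz
  have hx : P.B.pi.pull P.D.x = wt P.fl P.D.u (1 / 2) := by
    rw [P.D.x_def]
    unfold wt
    have h7 : P.fl.comp (jO X (1 / 2)) = P.D.foot.comp P.B.pi := SMap_ext P.flh
    rw [← pull_comp, ← pull_comp, ← h7]
  have e5 : P.B.pi.pull (P.B.PI (P.Ψ * ζ)) =
      (if i = q then t • wt P.fl P.D.u (1 / 2) else 0) + dO X (P.B.pi.pull y1) := by
    rw [e4, map_add, ← pull_d]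
    split_ifs
    · rw [map_smul, hx]
    · rw [map_zero]
  -- the fibre part
  have dz2 : dO G (P.B.PI ζ) = 0 := by rw [← P.PI_dP, hd, P.PI_zero']
  have sgn : (-1 : ℝ) ^ (N' + 1) • (P.B.ant.pull P.Ψ * P.B.pi.pull (P.B.PI ζ)) =
      (1 / 2 : ℝ) • (P.f * P.B.pi.pull (P.B.PI ζ)) := by
    rw [pow_succ, P.sgnN, one_mul]
    unfold Ψ
    rw [map_smul, P.fa, smul_neg, neg_mul, neg_smul, one_smul, neg_neg, smul_mul_assoc]
  have fib : ∃ (s : ℝ) (y : Om X), Deg (2 * i - 1) y ∧ (1 / 2 : ℝ) • (P.f * P.B.pi.pull (P.B.PI ζ)) =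
      (if i = q - 1 then s • P.f else 0) + dO X y := by
    rcases lt_trichotomy i (q - 1) with h8 | h8 | h8
    · refine ⟨0, 0, Deg_zero, ?_⟩
      rw [if_neg (by omega), P.B.PI_low h (by omega), map_zero, mul_zero, smul_zero, map_zero, add_zero]
    · have h9 : Deg 0 (P.B.PI ζ) := by
        refine P.B.Deg_PI ?_
        rwa [show 0 + N' = 2 * i by omega]
      obtain ⟨r, hr⟩ := P.gc _ h9 dz2
      refine ⟨r / 2, 0, Deg_zero, ?_⟩
      rw [if_pos h8, hr, AlgHom.commutes, Algebra.algebraMap_eq_smul_one, mul_smul_comm, mul_one, smul_smul, map_zero,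
        add_zero]
      congr 1
      ring
    · obtain ⟨j, hj⟩ : ∃ j, i = q - 1 + (j + 1) := ⟨i - q, by omega⟩
      have h9 : Deg (2 * j + 1 + 1) (P.B.PI ζ) := by
        refine P.B.Deg_PI ?_
        rwa [show 2 * j + 1 + 1 + N' = 2 * i by omega]
      obtain ⟨χ, hχ, h10⟩ := P.D.H3_exact h9 (by omega) dz2
      refine ⟨0, (1 / 2 : ℝ) • (P.f * P.B.pi.pull χ), ?_, ?_⟩
      · refine Deg_smul _ ?_
        have h11 := Deg_mul P.fd (Deg_pull P.B.pi hχ)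
        rwa [show N' + (2 * j + 1) = 2 * i - 1 by omega] at h11
      · rw [if_neg (by omega), zero_add, h10, map_smul, d_mul, P.df, zero_mul, zero_add, ← pull_d,
          Deg_even (j := q - 1) (by rw [show 2 * (q - 1) = N' by omega]; exact P.fd)]
  obtain ⟨s, y2, hy2, e6⟩ := fib
  refine ⟨s, t, P.B.pi.pull y1 + y2 + η, Deg_add (Deg_add (Deg_pull _ hy1) hy2) hηD, ?_⟩
  rw [e3, e5, sgn, e6, map_add, map_add]
  abel

/-- the functional on `X` -/
def IX : Om X →ₗ[ℝ] ℝ where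
  toFun x := P.TG (P.B.PI x)
  map_add' x y := by rw [P.B.PI_add, map_add]
  map_smul' r x := by rw [P.B.PI_smul, map_smul, RingHom.id_apply]

lemma IX_d (x : Om X) : P.IX (dO X x) = 0 := by
  change P.TG (P.B.PI (dO X x)) = 0
  rw [P.PI_dP, P.TG_d]

lemma IX_i (x : Om X) (h : iO P.c x = 0) : P.IX x = 0 := P.TG_i _ (P.PI_i _ h)

lemma IX_e (x : Om X) (h : sO X x = x) : P.IX x = 0 := P.TG_e _ (by rw [← P.PI_sP, h])

lemma IX_τ (x : Om X) : P.IX (P.B.ant.pull x) = -P.IX x := by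
  change P.TG (P.B.PI (P.B.ant.pull x)) = -P.TG (P.B.PI x)
  rw [P.PI_antP, map_neg]

lemma ant_pi (w : Om G) : P.B.ant.pull (P.B.pi.pull w) = P.B.pi.pull w := by
  rw [← pull_comp]
  have h : P.B.pi.comp P.B.ant = P.B.pi := SMap_ext fun x => P.B.pi_ant x
  rw [h]

/-- the phi side, all `q` -/
def toPhiK : PhiK X M m q where
  hq := P.hq2
  c := P.c
  τ := P.B.ant
  ττ := P.anta
  τc := P.antc
  I := P.IX
  I_d := P.IX_d
  I_i := P.IX_i
  I_e := P.IX_e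
  I_τ := P.IX_τ
  η := P.B.pi.pull P.η
  η1 := Deg_pull _ P.η1
  iη := by rw [← i_eqv P.cG P.c P.pic, P.iη, map_one]
  idη := by rw [pull_d, ← i_eqv P.cG P.c P.pic, P.idη, map_zero]
  τη := P.ant_pi _
  u := P.D.u
  uq := by
    have h := P.D.Du
    rwa [show N' + 1 + 1 = 2 * q by have := P.hq; omega] at h
  du := P.D.du
  up := P.D.un
  F := P.fl
  F0 := P.fl0
  F1 := P.fl1
  Fτ := P.flτ
  f := P.f
  fq := by
    have h1 := P.hq
    have h : ∀ j, j = N' → Deg j P.f := fun j e => e ▸ P.fd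
    exact h _ (by omega)
  df := P.df
  jf := P.jf
  τf := P.fa
  c0 x h hd := P.xc h hd
  cX i h1 h2 x h hd := P.cX h1 h2 h hd

end NegB

end Pool.Agent.Lib.MP_ccbbf6_gt.L5
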