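import Pool.Agent.Lib.MP_ccbbf6_gt.L5.DG2

/-!
# Level 5, block INTa, part 8: a point whose cut locus misses a smooth family of points (helper91)

`𝒜.PV p v` (`Cls/PolA.lean`) is the `(κ+1)`-dimensional space of directions `w` with `Ex p (rad π w) = Ex p (rad π v)`
(`mem_PV_iff`, `finrank_PV`, `mem_PV_self`), `rad s w = (s / ‖w‖) • w`.

Proof of `exists_generic`. Let `W₀ = {w : Eu n | w 0 = w 1 = w 2 = 0}` (dimension `n - 3`; `n ≥ κ + 1 ≥ 4`, by `finrank_PV`).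
(1) If `dist q (p y) = π` and `y` is near `y₀` (precisely `p y ∈ (𝒜.ψ (p y₀)).source`) there is `w ∈ W₀`, `w ≠ 0` with
`q = 𝒜.Ex (p y) (rad π (DD 𝒜 (p y₀) (p y) w))`. Indeed `v := lg 𝒜 (p y) q` has norm `π` (`norm_lg`), `Ex (p y) v = q` (`Ex_lg`), so
`q = Ex (p y) (rad π v)`; `PV (p y) v` has dimension `κ + 1 ≥ 4`, `DD 𝒜 (p y₀) (p y)` is injective (inverse of `CC`, `CC_DD`), so
its image of `W₀` has dimension `n - 3` and meets `PV (p y) v` in a nonzero vector (`4 + (n - 3) > n`); use `mem_PV_iff`.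
(2) Fix `y₀` and put for `z : Eu n`: `Y z = ![z 0, z 1, z 2] : V 3`, `w z = ` the vector with entries `0, 0, 0, z 3, ..` (`z` with the first
three entries replaced by `0`), `T z = 𝒜.Ex (p (Y z)) (rad π (DD 𝒜 (p y₀) (p (Y z)) (w z)))`. On the open set
`O = {z | p (Y z) ∈ (𝒜.ψ (p y₀)).source ∧ w z ≠ 0}` the map `T : Eu n → M` is smooth (`SmAt 𝒜 T z`): the field
`z ↦ DD 𝒜 (p y₀) (p (Y z)) (w z)` is smooth because `CC 𝒜 (p y₀) x (DD 𝒜 (p y₀) x a) = a` (`SmV` by definition), also multiplied with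
`π / ‖.‖` (`SmV.inner`, `SmV.smul`), and `smAt_Ex2`.
(3) Fix also a point `q₀ : M` and put `g z = 𝒜.ψ q₀ (T z)` on `O' = {z ∈ O | T z ∈ (𝒜.ψ q₀).source}`. `g` is differentiable at every
`z ∈ O'` and `g (z + ε w z) = g z` for small `ε` (`rad` is homogeneous of degree 0), so `fderiv g z (w z) = 0` with `w z ≠ 0`,
`(fderiv ℝ g z).det = 0`. By `MeasureTheory.addHaar_image_eq_zero_of_det_fderivWithin_eq_zero` the set `g '' O'` has measure `0`.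
(4) By Lindelöf countably many `y₀` suffice: the sets `{y | p y ∈ (𝒜.ψ (p y₀)).source}` are open and cover `V 3`
(`TopologicalSpace.isOpen_iUnion_countable` or `countable_cover_nhds`). So the set of `x ∈ (𝒜.ψ q₀).target` such that `q = (𝒜.ψ q₀).symm x`
satisfies `dist q (p y) = π` for some `y` is contained in a countable union of null sets; `(𝒜.ψ q₀).target` is open and nonempty
(contains `0 = ψ q₀ q₀`), so it has positive measure and contains a good `x`. For it `dist q (p y) ≠ π` for all `y`, and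
`dist ≤ π` (`hB.diam`).
-/

set_option autoImplicit false

open Set Filter Topology Metric Real Module MeasureTheory
open scoped ContDiff RealInnerProductSpace

noncomputable section

namespace Pool.Agent.Lib.MP_ccbbf6_gt.L5.IA

open Geo L4 L4.ORI

variable {n : ℕ} {M : Type*} [MetricSpace M] [CompactSpace M] {𝒜 : SDist n M}

section aux

variable {k : ℕ} (Y : Eu n →L[ℝ] (Fin k → ℝ)) (J : (Fin k → ℝ) →L[ℝ] Eu n)

/-- the field used in the proof -/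
def ia08_F (𝒜 : SDist n M) (p : FR.V k → M) (y₀ : FR.V k) (z : Eu n) : Eu n :=
  DD 𝒜 (p y₀) (p (Y z)) (z - J (Y z))

/-- the map used in the proof -/
def ia08_T (𝒜 : SDist n M) (p : FR.V k → M) (y₀ : FR.V k) (z : Eu n) : M :=
  𝒜.Ex (p (Y z)) (rad π (ia08_F Y J 𝒜 p y₀ z))

/-- its domain -/
def ia08_O (𝒜 : SDist n M) (p : FR.V k → M) (y₀ : FR.V k) : Set (Eu n) :=
  {z | p (Y z) ∈ (𝒜.ψ (p y₀)).source ∧ z - J (Y z) ≠ 0}

variable {Y J}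

theorem ia08_F_ne {p : FR.V k → M} {y₀ : FR.V k} {z : Eu n} (hz : z ∈ ia08_O Y J 𝒜 p y₀) :
    ia08_F Y J 𝒜 p y₀ z ≠ 0 := by
  intro h
  apply hz.2
  have h1 := CC_DD 𝒜 hz.1 (z - J (Y z))
  have h2 : DD 𝒜 (p y₀) (p (Y z)) (z - J (Y z)) = 0 := h
  rw [h2, map_zero] at h1
  exact h1.symm

theorem ia08_smV {p : FR.V k → M} (hp : Sm 𝒜 p) {y₀ : FR.V k} {z : Eu n} (hz : z ∈ ia08_O Y J 𝒜 p y₀) :
    SmAt 𝒜 (fun z => p (Y z)) z ∧ SmV 𝒜 (p y₀) (fun z => p (Y z)) (ia08_F Y J 𝒜 p y₀) z := by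
  have hx : SmAt 𝒜 (fun z => p (Y z)) z := (hp (Y z)).comp Y.contDiff.contDiffAt
  refine ⟨hx, ?_⟩
  unfold SmV
  have h1 : ContDiffAt ℝ ∞ (fun z : Eu n => z - J (Y z)) z :=
    contDiffAt_id.sub (J.contDiff.contDiffAt.comp z Y.contDiff.contDiffAt)
  refine h1.congr_of_eventuallyEq ?_
  filter_upwards [hx.cont.eventually ((𝒜.ψ (p y₀)).open_source.mem_nhds hz.1)] with v hv
  exact CC_DD 𝒜 hv _

theorem ia08_smT (hB : Bl M) {p : FR.V k → M} (hp : Sm 𝒜 p) {y₀ : FR.V k} {z : Eu n}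
    (hz : z ∈ ia08_O Y J 𝒜 p y₀) : SmAt 𝒜 (ia08_T Y J 𝒜 p y₀) z := by
  obtain ⟨hx, hw⟩ := ia08_smV hp hz
  have hne := ia08_F_ne hz
  have h1 : ContDiffAt ℝ ∞ (fun v => ⟪ia08_F Y J 𝒜 p y₀ v, ia08_F Y J 𝒜 p y₀ v⟫) z := hw.inner hx hz.1 hw
  have h0 : ⟪ia08_F Y J 𝒜 p y₀ z, ia08_F Y J 𝒜 p y₀ z⟫ ≠ 0 := fun h => hne (inner_self_eq_zero.1 h)
  have h2 : ContDiffAt ℝ ∞ (fun v => π / ‖ia08_F Y J 𝒜 p y₀ v‖) z := by
    have h3 : ContDiffAt ℝ ∞ (fun v => π / √(⟪ia08_F Y J 𝒜 p y₀ v, ia08_F Y J 𝒜 p y₀ v⟫)) z := by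
      refine contDiffAt_const.div (h1.sqrt h0) ?_
      intro h
      have h4 : 0 ≤ ⟪ia08_F Y J 𝒜 p y₀ z, ia08_F Y J 𝒜 p y₀ z⟫ := real_inner_self_nonneg
      exact h0 ((Real.sqrt_eq_zero h4).1 h)
    refine h3.congr_of_eventuallyEq (Eventually.of_forall fun v => ?_)
    show π / ‖ia08_F Y J 𝒜 p y₀ v‖ = π / √(⟪ia08_F Y J 𝒜 p y₀ v, ia08_F Y J 𝒜 p y₀ v⟫)
    rw [real_inner_self_eq_norm_sq, Real.sqrt_sq (norm_nonneg _)]
  exact smAt_Ex2 hB hx hz.1 (hw.smul h2)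

theorem ia08_hom (hYJ : ∀ y, Y (J y) = y) (p : FR.V k → M) (y₀ : FR.V k) (z : Eu n) {ε : ℝ} (hε : -1 < ε) :
    ia08_T Y J 𝒜 p y₀ (z + ε • (z - J (Y z))) = ia08_T Y J 𝒜 p y₀ z := by
  have h1 : Y (z + ε • (z - J (Y z))) = Y z := by
    rw [map_add, map_smul, map_sub, hYJ, sub_self, smul_zero, add_zero]
  unfold ia08_T ia08_F
  rw [h1]
  have h2 : z + ε • (z - J (Y z)) - J (Y z) = (1 + ε) • (z - J (Y z)) := by
    rw [add_smul, one_smul]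
    abel
  rw [h2, map_smul, rad_smul π (by linarith)]

theorem ia08_det (hB : Bl M) (hYJ : ∀ y, Y (J y) = y) {p : FR.V k → M} (hp : Sm 𝒜 p) {y₀ : FR.V k} {q₀ : M} {z : Eu n}
    (hz : z ∈ ia08_O Y J 𝒜 p y₀) (hq : ia08_T Y J 𝒜 p y₀ z ∈ (𝒜.ψ q₀).source) :
    HasFDerivAt (fun z => 𝒜.ψ q₀ (ia08_T Y J 𝒜 p y₀ z)) (fderiv ℝ (fun z => 𝒜.ψ q₀ (ia08_T Y J 𝒜 p y₀ z)) z) z ∧
      (fderiv ℝ (fun z => 𝒜.ψ q₀ (ia08_T Y J 𝒜 p y₀ z)) z).det = 0 := by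
  have h1 : HasFDerivAt (fun z => 𝒜.ψ q₀ (ia08_T Y J 𝒜 p y₀ z)) (fderiv ℝ (fun z => 𝒜.ψ q₀ (ia08_T Y J 𝒜 p y₀ z)) z) z :=
    (((ia08_smT hB hp hz).chart hq).differentiableAt (by simp)).hasFDerivAt
  refine ⟨h1, ?_⟩
  set L := fderiv ℝ (fun z => 𝒜.ψ q₀ (ia08_T Y J 𝒜 p y₀ z)) z with hL
  have h2 : L (z - J (Y z)) = 0 := by
    have h3 : HasDerivAt (fun ε : ℝ => z + ε • (z - J (Y z))) ((1 : ℝ) • (z - J (Y z))) 0 :=
      ((hasDerivAt_id (0 : ℝ)).smul_const (z - J (Y z))).const_add z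
    rw [one_smul] at h3
    have h4 : HasFDerivAt (fun z => 𝒜.ψ q₀ (ia08_T Y J 𝒜 p y₀ z)) L (z + (0 : ℝ) • (z - J (Y z))) := by
      rw [zero_smul, add_zero]
      exact h1
    have h5 := h4.comp_hasDerivAt (0 : ℝ) h3
    have h6 : HasDerivAt ((fun z => 𝒜.ψ q₀ (ia08_T Y J 𝒜 p y₀ z)) ∘ fun ε : ℝ => z + ε • (z - J (Y z))) 0 0 := by
      refine (hasDerivAt_const (0 : ℝ) (𝒜.ψ q₀ (ia08_T Y J 𝒜 p y₀ z))).congr_of_eventuallyEq ?_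
      filter_upwards [lt_mem_nhds (show (-1 : ℝ) < 0 by norm_num)] with ε hε
      show 𝒜.ψ q₀ (ia08_T Y J 𝒜 p y₀ (z + ε • (z - J (Y z)))) = _
      rw [ia08_hom hYJ p y₀ z hε]
    exact h5.unique h6
  by_contra hdet
  have h3 : LinearMap.det (L : Eu n →ₗ[ℝ] Eu n) ≠ 0 := hdet
  have h4 : Function.Injective (L : Eu n →ₗ[ℝ] Eu n) := by
    have h5 : IsUnit (LinearMap.det (L : Eu n →ₗ[ℝ] Eu n)) := isUnit_iff_ne_zero.2 h3
    have h6 := (LinearMap.isUnit_iff_isUnit_det (L : Eu n →ₗ[ℝ] Eu n)).2 h5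
    exact ((Module.End.isUnit_iff _).1 h6).1
  exact hz.2 (h4 (by rw [map_zero]; exact h2))

/-- covering -/
theorem ia08_cover (hB : Bl M) {κ : ℕ} (hk : 𝒜.HK κ) (hκ : k ≤ κ) (hYJ : ∀ y, Y (J y) = y) (p : FR.V k → M)
    {y₀ y : FR.V k} (hy : p y ∈ (𝒜.ψ (p y₀)).source) {q : M} (hq : dist q (p y) = π) :
    ∃ z ∈ ia08_O Y J 𝒜 p y₀, ia08_T Y J 𝒜 p y₀ z = q := by
  have hv : ‖lg 𝒜 (p y) q‖ = π := by rw [norm_lg hB, dist_comm, hq]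
  have hv0 : lg 𝒜 (p y) q ≠ 0 := by
    intro h
    rw [h, norm_zero] at hv
    exact pi_pos.ne hv
  have hrad : rad π (lg 𝒜 (p y) q) = lg 𝒜 (p y) q := by
    unfold rad
    rw [hv, div_self pi_ne_zero, one_smul]
  have hinj : Function.Injective (DD 𝒜 (p y₀) (p y)) := fun a b h => by
    have h1 := congrArg (CC 𝒜 (p y₀) (p y)) h
    rwa [CC_DD 𝒜 hy, CC_DD 𝒜 hy] at h1
  obtain ⟨D, hD⟩ : ∃ D : Eu n →ₗ[ℝ] Eu n, D = (DD 𝒜 (p y₀) (p y) : Eu n →ₗ[ℝ] Eu n) := ⟨_, rfl⟩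
  have hDi : Function.Injective D := by
    rw [hD]
    exact hinj
  have h1 : finrank ℝ (𝒜.PV (p y) (lg 𝒜 (p y) q)) = κ + 1 := finrank_PV 𝒜 hB hk (p y) hv0
  have h2 : finrank ℝ ((LinearMap.ker (Y : Eu n →ₗ[ℝ] (Fin k → ℝ))).map D) =
      finrank ℝ (LinearMap.ker (Y : Eu n →ₗ[ℝ] (Fin k → ℝ))) := (Submodule.equivMapOfInjective D hDi _).finrank_eq.symm
  have h3 := LinearMap.finrank_range_add_finrank_ker (Y : Eu n →ₗ[ℝ] (Fin k → ℝ))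
  have h4 : finrank ℝ (LinearMap.range (Y : Eu n →ₗ[ℝ] (Fin k → ℝ))) ≤ k := by
    have h5 := Submodule.finrank_le (LinearMap.range (Y : Eu n →ₗ[ℝ] (Fin k → ℝ)))
    rwa [Module.finrank_fin_fun] at h5
  have h5 : finrank ℝ (Eu n) = n := finrank_euclideanSpace_fin
  have h6 := Submodule.finrank_sup_add_finrank_inf_eq (𝒜.PV (p y) (lg 𝒜 (p y) q))
    ((LinearMap.ker (Y : Eu n →ₗ[ℝ] (Fin k → ℝ))).map D)
  have h7 := Submodule.finrank_le (𝒜.PV (p y) (lg 𝒜 (p y) q) ⊔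
    (LinearMap.ker (Y : Eu n →ₗ[ℝ] (Fin k → ℝ))).map D)
  have h8 : 𝒜.PV (p y) (lg 𝒜 (p y) q) ⊓ (LinearMap.ker (Y : Eu n →ₗ[ℝ] (Fin k → ℝ))).map D ≠ ⊥ := by
    intro h
    rw [h, finrank_bot] at h6
    omega
  obtain ⟨a, ⟨ha1, ha2⟩, ha0⟩ := Submodule.exists_mem_ne_zero_of_ne_bot h8
  obtain ⟨w, hw, rfl⟩ := ha2
  have hw0 : w ≠ 0 := by
    rintro rfl
    exact ha0 (map_zero D)
  have hYw : Y w = 0 := hw
  have hYz : Y (w + J y) = y := by rw [map_add, hYw, hYJ, zero_add]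
  have hwz : w + J y - J (Y (w + J y)) = w := by rw [hYz, add_sub_cancel_right]
  have hDw : DD 𝒜 (p y₀) (p y) w = D w := by
    rw [hD]
    rfl
  refine ⟨w + J y, ⟨?_, ?_⟩, ?_⟩
  · rw [hYz]
    exact hy
  · rw [hwz]
    exact hw0
  · unfold ia08_T ia08_F
    rw [hwz, hYz, hDw, (mem_PV_iff 𝒜 hB (p y) hv0 ha0).1 ha1, hrad, Ex_lg hB]

end aux

/-- a point at distance less than `π` from all the points of a smooth three-parameter family -/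
theorem exists_generic (hB : Bl M) {κ : ℕ} (hk : 𝒜.HK κ) (hκ : 3 ≤ κ) {p : FR.V 3 → M} (hp : Sm 𝒜 p) :
    ∃ q : M, ∀ y, dist q (p y) < π := by
  by_contra hcon
  have hbad : ∀ q : M, ∃ y, dist q (p y) = π := by
    intro q
    by_contra h
    apply hcon
    refine ⟨q, fun y => lt_of_le_of_ne (hB.diam _ _) fun h1 => h ⟨y, h1⟩⟩
  obtain ⟨q₀, hq₀⟩ : ∃ q : M, q = p 0 := ⟨_, rfl⟩
  -- the dimension
  have hn : 3 ≤ n := by
    obtain ⟨y, hy⟩ := hbad q₀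
    have hv0 : lg 𝒜 (p y) q₀ ≠ 0 := by
      intro h
      have h1 := norm_lg (𝒜 := 𝒜) hB (p y) q₀
      rw [h, norm_zero, dist_comm, hy] at h1
      exact pi_pos.ne h1
    have h1 : finrank ℝ (𝒜.PV (p y) (lg 𝒜 (p y) q₀)) = κ + 1 := finrank_PV 𝒜 hB hk (p y) hv0
    have h2 := Submodule.finrank_le (𝒜.PV (p y) (lg 𝒜 (p y) q₀))
    rw [h1, finrank_euclideanSpace_fin] at h2
    omega
  -- coordinates
  obtain ⟨Y, J, hYJ⟩ : ∃ (Y : Eu n →L[ℝ] (Fin 3 → ℝ)) (J : (Fin 3 → ℝ) →L[ℝ] Eu n), ∀ y, Y (J y) = y := by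
    have hs : Function.Surjective ((LinearMap.funLeft ℝ ℝ (Fin.castLE hn)).comp
        (EuclideanSpace.equiv (Fin n) ℝ : Eu n →ₗ[ℝ] (Fin n → ℝ))) := by
      have h1 := LinearMap.funLeft_surjective_of_injective ℝ ℝ (Fin.castLE hn) (Fin.castLE_injective hn)
      rw [LinearMap.coe_comp]
      exact h1.comp (EuclideanSpace.equiv (Fin n) ℝ).surjective
    obtain ⟨g, hg⟩ := LinearMap.exists_rightInverse_of_surjective _ (LinearMap.range_eq_top.2 hs)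
    refine ⟨LinearMap.toContinuousLinearMap ((LinearMap.funLeft ℝ ℝ (Fin.castLE hn)).comp
      (EuclideanSpace.equiv (Fin n) ℝ : Eu n →ₗ[ℝ] (Fin n → ℝ))), LinearMap.toContinuousLinearMap g, fun y => ?_⟩
    exact congrArg (fun L : (Fin 3 → ℝ) →ₗ[ℝ] (Fin 3 → ℝ) => L y) hg
  -- countable cover
  have hU : ∀ y₀ : FR.V 3, {y | p y ∈ (𝒜.ψ (p y₀)).source} ∈ 𝓝 y₀ := fun y₀ =>
    (hp y₀).cont.eventually ((𝒜.ψ (p y₀)).open_source.mem_nhds (𝒜.mem _))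
  obtain ⟨s, hs, hcov⟩ := TopologicalSpace.countable_cover_nhds hU
  set g : FR.V 3 → Eu n → Eu n := fun y₀ z => 𝒜.ψ q₀ (ia08_T Y J 𝒜 p y₀ z) with hg
  set O : FR.V 3 → Set (Eu n) := fun y₀ => {z | z ∈ ia08_O Y J 𝒜 p y₀ ∧ ia08_T Y J 𝒜 p y₀ z ∈ (𝒜.ψ q₀).source} with hO
  have hnull : ∀ y₀, (volume : Measure (Eu n)) (g y₀ '' O y₀) = 0 := by
    intro y₀
    refine addHaar_image_eq_zero_of_det_fderivWithin_eq_zero volume
      (f' := fun z => fderiv ℝ (fun z => 𝒜.ψ q₀ (ia08_T Y J 𝒜 p y₀ z)) z) (fun z hz => ?_) (fun z hz => ?_)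
    · exact (ia08_det hB hYJ hp hz.1 hz.2).1.hasFDerivWithinAt
    · exact (ia08_det hB hYJ hp hz.1 hz.2).2
  have hsub : (𝒜.ψ q₀).target ⊆ ⋃ y₀ ∈ s, g y₀ '' O y₀ := by
    intro x hx
    obtain ⟨y, hy⟩ := hbad ((𝒜.ψ q₀).symm x)
    have h1 : y ∈ ⋃ y₀ ∈ s, {y | p y ∈ (𝒜.ψ (p y₀)).source} := by
      rw [hcov]
      exact mem_univ y
    obtain ⟨y₀, hy₀, h2⟩ := mem_iUnion₂.1 h1
    obtain ⟨z, hz, hT⟩ := ia08_cover hB hk hκ hYJ p h2 hy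
    refine mem_iUnion₂.2 ⟨y₀, hy₀, z, ⟨hz, ?_⟩, ?_⟩
    · rw [hT]
      exact (𝒜.ψ q₀).map_target hx
    · show 𝒜.ψ q₀ (ia08_T Y J 𝒜 p y₀ z) = x
      rw [hT, (𝒜.ψ q₀).right_inv hx]
  have h0 : (volume : Measure (Eu n)) (𝒜.ψ q₀).target = 0 :=
    measure_mono_null hsub ((measure_biUnion_null_iff hs).2 fun y₀ _ => hnull y₀)
  have hpos : 0 < (volume : Measure (Eu n)) (𝒜.ψ q₀).target :=
    (𝒜.ψ q₀).open_target.measure_pos volume ⟨𝒜.ψ q₀ q₀, (𝒜.ψ q₀).map_source (𝒜.mem q₀)⟩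
  exact hpos.ne' h0

end Pool.Agent.Lib.MP_ccbbf6_gt.L5.IA
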