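import Pool.Agent.Lib.MP_ccbbf6_gt.L5.UOR07

/-!
# Level 5, UOR08: the closed form `u` on `M` from the angular form of the planes at `p` (helper2)
-/

set_option autoImplicit false
set_option linter.unusedSectionVars false
set_option linter.unusedVariables false

open Set Filter Topology Metric Real Module
open scoped ContDiff RealInnerProductSpace

noncomputable section

namespace Pool.Agent.Lib.MP_ccbbf6_gt.L5

open Geo L4 L4.FR

variable {n : ℕ} {M : Type} [MetricSpace M] [CompactSpace M] (𝒜 : SDist n M)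

/-- angular form `ψ` (of degree `j`) and Euler form `w` of the planes at `p` -/
structure AngD (j : ℕ) (p : M) (ψ : Om (spR n)) (w : Om (spP 𝒜 p)) : Prop where
  degψ : Deg j ψ
  degw : Deg (j + 1) w
  closed : dO _ w = 0
  /-- the Euler form is the differential of the angular form, for plots with the same planes -/
  comp : ∀ (k : ℕ) (P : (spP 𝒜 p).Plot k) (q : (spR n).Plot k),
    (∀ z, 𝒜.Ex p (rad π (q.1 z).1) = cutp p (P.1 z).1) → Om.on w P = Om.on (dO _ ψ) q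

variable {𝒜}
variable {j : ℕ} {p : M} {ψ : Om (spR n)} {w : Om (spP 𝒜 p)}

/-- the closed form on the punctured ball -/
theorem AngD.res (hB : Bl M) (h : AngD 𝒜 j p ψ w) :
    (inU (spP 𝒜 p) (UB 𝒜 p)).pull w = (lgB hB p).pull (dO _ ψ) :=
  Om_ext fun k P => h.comp k _ _ fun z => cut_lgf hB (P.1 z).1.2

/-- `(1 - χ) ψ` on the punctured ball -/
def omc (hB : Bl M) (p : M) (ψ : Om (spR n)) : Om (spB 𝒜 p) := (lgB hB p).pull ((1 - chR n) * ψ)

theorem on_chR {k : ℕ} (P : (spR n).Plot k) (z : V k) : ev z (Om.on (chR n) P) = algebraMap ℝ (Ex k) (chi ‖(P.1 z).1‖) :=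
  ev_fO _ _ P z

theorem Van_omc (hB : Bl M) (p : M) (ψ : Om (spR n)) : Van (spP 𝒜 p) (UB 𝒜 p) (omc hB p ψ) := by
  intro k P x hx
  have hd : ∀ᶠ y in 𝓝 x, 2 < dist p (P.1 y).1 := by
    have hc : ContinuousAt (fun y => dist p (P.1 y).1) x := continuousAt_const.dist (Sm.continuous P.2).continuousAt
    refine hc.eventually (lt_mem_nhds ?_)
    have h1 : ¬ dist p (P.1 x).1 < π := hx
    have := pi_gt_three
    linarith [not_lt.1 h1]
  filter_upwards [hd] with y hy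
  by_cases hU : P.1 y ∈ UB 𝒜 p
  · obtain ⟨Q, hQ⟩ := locPl_of (openU_UB 𝒜 p) P hU
    rw [vAt_eq (vU_inj _ _) (omc hB p ψ) Q hQ]
    unfold omc
    rw [on_pull, on_mul, on_sub, on_one, map_mul, map_sub, map_one, on_chR]
    have h1 : ‖(((lgB hB p).pl Q).1 y).1‖ = dist p (P.1 y).1 := by
      have h2 : (Q.1 y).1 = P.1 y := hQ.self_of_nhds
      show ‖lgf 𝒜 p (Q.1 y).1.1‖ = _
      rw [norm_lgf hB (Q.1 y).1.2, h2]
    rw [h1, chi_one hy.le, map_one, sub_self, zero_mul]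
  · exact vAt_not _ hU

/-- the form on `M - p` -/
def uP (hB : Bl M) (p : M) (ψ : Om (spR n)) (w : Om (spP 𝒜 p)) : Om (spP 𝒜 p) :=
  w - dO _ (ext0 (openU_UB 𝒜 p) (omc hB p ψ) (Van_omc hB p ψ))

/-- in the punctured ball -/
theorem uP_res (hB : Bl M) (h : AngD 𝒜 j p ψ w) :
    (inU (spP 𝒜 p) (UB 𝒜 p)).pull (uP hB p ψ w) = (lgB hB p).pull (dO _ (chR n * ψ)) := by
  unfold uP
  rw [map_sub, h.res hB, ← pull_d (inU (spP 𝒜 p) (UB 𝒜 p)), ext0_res]
  unfold omc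
  rw [pull_d, ← map_sub]
  congr 1
  rw [sub_mul, one_mul, map_sub, sub_sub_cancel]

theorem Van_uP (hB : Bl M) (h : AngD 𝒜 j p ψ w) : Van (spM 𝒜) {x | x ≠ p} (uP hB p ψ w) := by
  intro k P x hx
  have hxp : P.1 x = p := by
    by_contra h1
    exact hx h1
  have hd : ∀ᶠ y in 𝓝 x, dist p (P.1 y) < 1 := by
    have hc : ContinuousAt (fun y => dist p (P.1 y)) x := continuousAt_const.dist (Sm.continuous P.2).continuousAt
    refine hc.eventually (gt_mem_nhds ?_)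
    show dist p (P.1 x) < 1
    rw [hxp, dist_self]
    exact one_pos
  filter_upwards [hd.eventually_nhds] with y hy
  by_cases hU : P.1 y ∈ {x : (spM 𝒜).pt | x ≠ p}
  · obtain ⟨Q, hQ⟩ := locPl_of (openU_ne 𝒜 p) P hU
    rw [vAt_eq (vU_inj _ _) (uP hB p ψ w) Q hQ]
    -- into the punctured ball
    have hUB : Q.1 y ∈ UB 𝒜 p := by
      have h1 := hy.self_of_nhds
      have h2 : (Q.1 y).1 = P.1 y := hQ.self_of_nhds
      show dist p (Q.1 y).1 < π
      rw [h2]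
      linarith [pi_gt_three]
    have h3 := vAt_res (openU_UB 𝒜 p) (uP hB p ψ w) Q hUB
    rw [← h3, uP_res hB h]
    obtain ⟨R, hR⟩ := locPl_of (openU_UB 𝒜 p) Q hUB
    rw [vAt_eq (vU_inj _ _) _ R hR, on_pull, on_d]
    have h4 : ∀ᶠ t in 𝓝 y, ev t (Om.on (chR n * ψ) ((lgB hB p).pl R)) = ev t (0 : Fm k) := by
      filter_upwards [hR, hQ, hy] with t ht1 ht2 ht3
      rw [on_mul, map_mul, on_chR]
      have h5 : ‖(((lgB hB p).pl R).1 t).1‖ = dist p (P.1 t) := by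
        have h6 : (R.1 t).1 = Q.1 t := ht1
        have h7 : (Q.1 t).1 = P.1 t := ht2
        show ‖lgf 𝒜 p (R.1 t).1.1‖ = _
        rw [norm_lgf hB (R.1 t).1.2, h6, h7]
      rw [h5, chi_zero ht3.le, map_zero, zero_mul, map_zero]
    rw [ev_dd_congr h4, map_zero, map_zero]
  · exact vAt_not _ hU

/-- **the form `u` on `M`** -/
def uM (hB : Bl M) (h : AngD 𝒜 j p ψ w) : Om (spM 𝒜) := ext0 (openU_ne 𝒜 p) (uP hB p ψ w) (Van_uP hB h)

theorem uM_res (hB : Bl M) (h : AngD 𝒜 j p ψ w) : (inU (spM 𝒜) {x | x ≠ p}).pull (uM hB h) = uP hB p ψ w :=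
  ext0_res _ _

theorem d_uM (hB : Bl M) (h : AngD 𝒜 j p ψ w) : dO _ (uM hB h) = 0 := by
  unfold uM
  rw [ext0_d]
  have h1 : dO _ (uP hB p ψ w) = 0 := by
    unfold uP
    rw [map_sub, h.closed, d_d, sub_zero]
  rw [ext0_congr (openU_ne 𝒜 p) h1 _ Van_zero, ext0_zero]

theorem Deg_chR : Deg 0 (chR n) := fun k P => Dg_fc _

theorem Deg_uM (hB : Bl M) (h : AngD 𝒜 j p ψ w) : Deg (j + 1) (uM hB h) := by
  refine Deg_ext0 _ _ (Deg_sub h.degw (Deg_d (Deg_ext0 _ _ (Deg_pull _ ?_))))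
  have h1 : Deg (0 + j) ((1 - chR n) * ψ) := Deg_mul (Deg_sub Deg_one Deg_chR) h.degψ
  rwa [zero_add] at h1

/-- in the ball, at a point off the centre -/
theorem ev_uM_ball (hB : Bl M) (h : AngD 𝒜 j p ψ w) {k : ℕ} (P : (spM 𝒜).Plot k) {z : V k} (h0 : P.1 z ≠ p)
    (h1 : dist p (P.1 z) < π) :
    ev z (Om.on (uM hB h) P) = vAt (jR n) (dO _ (chR n * ψ)) (fun y => lgf 𝒜 p (P.1 y)) z := by
  have hU : P.1 z ∈ {x : (spM 𝒜).pt | x ≠ p} := h0
  rw [← vAt_res (openU_ne 𝒜 p) (uM hB h) P hU, uM_res]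
  obtain ⟨Q, hQ⟩ := locPl_of (openU_ne 𝒜 p) P hU
  have hQz : (Q.1 z).1 = P.1 z := hQ.self_of_nhds
  have hUB : Q.1 z ∈ UB 𝒜 p := by
    show dist p (Q.1 z).1 < π
    rw [hQz]
    exact h1
  rw [vAt_eq (vU_inj _ _) (uP hB p ψ w) Q hQ, ← vAt_res (openU_UB 𝒜 p) (uP hB p ψ w) Q hUB, uP_res hB h]
  obtain ⟨R, hR⟩ := locPl_of (openU_UB 𝒜 p) Q hUB
  rw [vAt_eq (vU_inj _ _) _ R hR, on_pull]
  refine (vAt_eq jR_inj _ ((lgB hB p).pl R) ?_).symm
  filter_upwards [hR, hQ] with y hy1 hy2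
  have h6 : (R.1 y).1 = Q.1 y := hy1
  have h7 : (Q.1 y).1 = P.1 y := hy2
  show lgf 𝒜 p (R.1 y).1.1 = lgf 𝒜 p (P.1 y)
  rw [h6, h7]

/-- at the centre the form vanishes -/
theorem ev_uM_centre (hB : Bl M) (h : AngD 𝒜 j p ψ w) {k : ℕ} (P : (spM 𝒜).Plot k) {z : V k} (h0 : P.1 z = p) :
    ev z (Om.on (uM hB h) P) = 0 := by
  have hU : P.1 z ∉ {x : (spM 𝒜).pt | x ≠ p} := fun h1 => h1 h0
  exact ev_ext0_not _ _ P hU

/-- **description of `u` in the ball** -/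
theorem uM_ex (hB : Bl M) (h : AngD 𝒜 j p ψ w) (k : ℕ) (P : (spM 𝒜).Plot k) (q : FR.Sm k n)
    (hq : ∀ z, ‖toE (q z)‖ < π ∧ P.1 z = 𝒜.Ex p (toE (q z))) : Om.on (uM hB h) P = pb q (dd n (BBp ψ)) := by
  refine ev_ext fun z => ?_
  rw [ev_pb, ev_dd_BBp, tr_eq]
  have hd : ∀ y, dist p (P.1 y) = ‖toE (q y)‖ := by
    intro y
    rw [(hq y).2, dist_Ex 𝒜 hB p (hq y).1.le]
  by_cases h0 : toE (q z) = 0
  · have h1 : P.1 z = p := by
      have := hd z
      rw [h0, norm_zero] at this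
      exact (dist_eq_zero.1 this).symm
    have h2 : q z = 0 := by
      have h3 : (toE (q z) : Fin n → ℝ) = 0 := by rw [h0]; rfl
      exact h3
    rw [ev_uM_centre hB h P h1, h2, vAt_zero, map_zero]
  · have h1 : P.1 z ≠ p := by
      intro h2
      have := hd z
      rw [h2, dist_self] at this
      exact h0 (norm_eq_zero.1 this.symm)
    have h2 : q z ≠ 0 := fun h3 => h0 (by rw [h3]; rfl)
    rw [ev_uM_ball hB h P h1 (by rw [hd]; exact (hq z).1)]
    have h4 : (fun y => lgf 𝒜 p (P.1 y)) =ᶠ[𝓝 z] fun y => toE (q y) := by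
      have h5 : ∀ᶠ y in 𝓝 z, toE (q y) ≠ 0 := by
        have : ContinuousAt (fun y => toE (q y)) z := (contDiff_toE.comp q.smooth).continuous.continuousAt
        exact this.eventually_ne h0
      filter_upwards [h5] with y hy
      rw [(hq y).2, lgf_Ex hB hy (hq y).1]
    rw [vAt_congr jR_inj _ h4]
    exact (vAt_comp jR_inj _ (p := toE) (g := q) (Eventually.of_forall fun y => q.smooth.contDiffAt)
      (locPl_toE h2)).2

end Pool.Agent.Lib.MP_ccbbf6_gt.L5
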