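import Pool.Agent.Lib.MP_ccbbf6_gt.L5.EU5
import Pool.Agent.Lib.MP_ccbbf6_gt.L5.INTg
import Pool.Agent.Lib.MP_ccbbf6_gt.L5.UOR08

/-!
# Level 5, UOR12: the angular form and the Euler form of the planes `V` at a point: existence of `AngD` for `κ = 3` (helper2)
-/

set_option autoImplicit false
set_option linter.unusedSectionVars false
set_option linter.unusedVariables false

open Set Filter Topology Metric Real Module
open scoped ContDiff RealInnerProductSpace

noncomputable section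

namespace Pool.Agent.Lib.MP_ccbbf6_gt.L5

open Geo L4 L4.FR

/-! ### degrees -/

section degrees

variable {ι κ : Type*} [Fintype ι] [DecidableEq ι] [Fintype κ] {X : Space} {r : ℕ}

theorem Deg_sum' {α : Type*} (s : Finset α) {f : α → Om X} {j : ℕ} (h : ∀ i, Deg j (f i)) : Deg j (∑ i ∈ s, f i) := by
  classical
  induction s using Finset.induction_on with
  | empty =>
    rw [Finset.sum_empty]
    exact Deg_zero
  | insert a s ha ih =>
    rw [Finset.sum_insert ha]
    exact Deg_add (h a) ih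

theorem Deg_fn (a : SF X) : Deg 0 (fn X a) := fun k p => Dg_fc _

theorem Deg_fn_mul {j : ℕ} (a : SF X) {x : Om X} (h : Deg j x) : Deg j (fn X a * x) := by
  have h1 := Deg_mul (Deg_fn a) h
  rwa [zero_add] at h1

theorem Deg_uv (y : ι → SF X) (l : ι) : Deg 0 (uv (FO X) y l) := Deg_fn _

theorem Deg_Dv (P : Matrix ι ι (SF X)) (y : ι → SF X) (l : ι) : Deg 1 (Dv (FO X) P y l) := by
  unfold Dv pv dv
  exact Deg_sum' _ fun m => Deg_fn_mul _ (Deg_d (j := 0) (Deg_fn _))

theorem Deg_Rv (P : Matrix ι ι (SF X)) (l m : ι) : Deg 2 (Rv (FO X) P l m) := by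
  unfold Rv
  rw [Matrix.mul_apply]
  refine Deg_sum' _ fun j => Deg_fn_mul _ ?_
  unfold GDA.R
  rw [Matrix.mul_apply]
  exact Deg_sum' _ fun i => Deg_mul (i := 1) (j := 1) (Deg_d (j := 0) (Deg_fn _)) (Deg_d (j := 0) (Deg_fn _))

theorem Deg_St {j : ℕ} (o : (Fin r → ι) → SF X) {T : (Fin r → ι) → Om X} (h : ∀ I, Deg j (T I)) : Deg j (St (FO X) o T) := by
  unfold St
  exact Deg_sum' _ fun I => Deg_fn_mul _ (h I)

theorem Deg_psi (P : Matrix ι ι (SF X)) (o : (Fin 4 → ι) → SF X) (y : ι → SF X) : Deg 3 (psi (FO X) P o y) := by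
  unfold psi
  refine Deg_smul _ (Deg_add ?_ (Deg_smul _ ?_))
  · exact Deg_St o fun I => Deg_mul (i := 0) (j := 3) (Deg_uv y _) (Deg_mul (i := 1) (j := 2) (Deg_Dv P y _)
      (Deg_mul (i := 1) (j := 1) (Deg_Dv P y _) (Deg_Dv P y _)))
  · exact Deg_St o fun I => Deg_mul (i := 0) (j := 3) (Deg_uv y _) (Deg_mul (i := 1) (j := 2) (Deg_Dv P y _) (Deg_Rv P _ _))

theorem Deg_eul (P : Matrix ι ι (SF X)) (o : (Fin 4 → ι) → SF X) : Deg 4 (eul (FO X) P o) := by
  unfold eul
  exact Deg_smul _ (Deg_St o fun I => Deg_mul (i := 2) (j := 2) (Deg_Rv P _ _) (Deg_Rv P _ _))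

end degrees

/-! ### orientation tensors -/

section bridge

variable {n r : ℕ}

theorem IsFr.proj {V : Submodule ℝ (EuclideanSpace ℝ (Fin n))} {a : Fin r → EuclideanSpace ℝ (Fin n)} (h : IsFr V a)
    (l m : Fin n) : ent V.starProjection l m = ∑ j, a j l * a j m := by
  have h1 : V.starProjection (EuclideanSpace.single m (1 : ℝ)) = ∑ j, (a j m) • a j := by
    rw [h.expand (V.starProjection_apply_mem (EuclideanSpace.single m (1 : ℝ)))]
    refine Finset.sum_congr rfl fun j _ => ?_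
    congr 1
    rw [← Submodule.inner_starProjection_left_eq_right, Submodule.starProjection_eq_self_iff.2 (h.mem j),
      EuclideanSpace.inner_single_right]
    simp
  unfold ent
  rw [Matrix.of_apply, h1, WithLp.ofLp_sum, Finset.sum_apply]
  refine Finset.sum_congr rfl fun j _ => ?_
  rw [WithLp.ofLp_smul, Pi.smul_apply, smul_eq_mul, mul_comm]

theorem IsFr.sum_mul {V : Submodule ℝ (EuclideanSpace ℝ (Fin n))} {a : Fin r → EuclideanSpace ℝ (Fin n)} (h : IsFr V a)
    (i j : Fin r) : ∑ l, a i l * a j l = if i = j then 1 else 0 := by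
  rw [← orthonormal_iff_ite.1 h.on i j, PiLp.inner_apply]
  exact Finset.sum_congr rfl fun l _ => by
    show a i l * a j l = a j l * a i l
    ring

theorem IsOrV.isOr {V : Submodule ℝ (EuclideanSpace ℝ (Fin n))} {o : EuclideanSpace ℝ (Fin r → Fin n)} (h : IsOrV V o) :
    IsOr r (ent V.starProjection) (fun I => o I) := by
  obtain ⟨a, ha, rfl⟩ := h
  exact ⟨fun j l => a j l, ha.sum_mul, ha.proj, fun I => rfl⟩

end bridge

variable {n : ℕ} {M : Type} [MetricSpace M] [CompactSpace M] {𝒜 : SDist n M}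

/-! ### the two bundles -/

theorem Or_PR (hB : Bl M) {κ : ℕ} (hk : 𝒜.HK κ) {p : M} {o : Eu n → EuclideanSpace ℝ (Fin (κ + 1) → Fin n)}
    (ho : OrP 𝒜 κ p o) : Or (κ + 1) (PR hB hk p) (oRn ho) :=
  Or.of_pt fun x => ((ho.isOr x.1 x.2).isOr).or

theorem Or_PX (hB : Bl M) {κ : ℕ} (hk : 𝒜.HK κ) {p : M} {o : Eu n → EuclideanSpace ℝ (Fin (κ + 1) → Fin n)}
    (ho : OrP 𝒜 κ p o) : Or (κ + 1) (PX hB hk p) (oX hB hk ho) :=
  Or.of_pt fun x => by
    obtain ⟨w, hw, hw2⟩ := exists_w (𝒜 := 𝒜) (p := p) hB x.2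
    have h1 : (PX hB hk p).map (vl x) = ent ((𝒜.PV p w).starProjection) := by
      ext i j
      show ent (prX 𝒜 p x.1) i j = _
      rw [prX_eq hB x.2 hw hw2]
    have h2 : (fun I => vl x (oX hB hk ho I)) = fun I => o w I := funext fun I => oX_eq hB hk ho x hw hw2 I
    rw [h1, h2]
    exact ((ho.isOr w hw).isOr).or

/-- entries of a matrix applied to a vector -/
theorem ent_mulVec (L : Eu n →L[ℝ] Eu n) (x : Eu n) : (ent L).mulVec (fun i => x i) = fun i => (L x) i := by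
  funext i
  show ∑ j, L (EuclideanSpace.single j 1) i * x j = L x i
  have h1 : x = ∑ j, x j • EuclideanSpace.single j (1 : ℝ) := by
    ext i
    rw [WithLp.ofLp_sum, Finset.sum_apply, Finset.sum_eq_single i]
    · simp
    · intro j _ hj
      simp [Ne.symm hj]
    · intro h
      exact absurd (Finset.mem_univ i) h
  conv_rhs => rw [h1]
  rw [map_sum, WithLp.ofLp_sum, Finset.sum_apply]
  refine Finset.sum_congr rfl fun j _ => ?_
  rw [map_smul, WithLp.ofLp_smul, Pi.smul_apply, smul_eq_mul, mul_comm]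

theorem Sec_PR (hB : Bl M) {κ : ℕ} (hk : 𝒜.HK κ) (p : M) : Sec (PR hB hk p) (aR n) := by
  constructor
  · funext i
    refine Subtype.ext (funext fun x => ?_)
    have h1 : ((PR hB hk p).mulVec (aR n) i).1 x = ((ent ((𝒜.PV p x.1).starProjection)).mulVec fun i => (‖x.1‖⁻¹ • x.1) i) i := by
      have h2 : vl x ((PR hB hk p).mulVec (aR n) i) = ((PR hB hk p).map (vl x)).mulVec (fun j => vl x (aR n j)) i := by
        show vl x (∑ j, PR hB hk p i j * aR n j) = ∑ j, vl x (PR hB hk p i j) * vl x (aR n j)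
        rw [map_sum]
        exact Finset.sum_congr rfl fun j _ => map_mul _ _ _
      exact h2
    rw [h1, ent_mulVec]
    show ((𝒜.PV p x.1).starProjection (‖x.1‖⁻¹ • x.1)) i = (‖x.1‖⁻¹ • x.1) i
    rw [Submodule.starProjection_eq_self_iff.2 (Submodule.smul_mem _ _ (mem_PV_self 𝒜 hB p x.1))]
  · refine Subtype.ext (funext fun x => ?_)
    have h1 : (∑ e, aR n e * aR n e).1 x = ∑ e, (‖x.1‖⁻¹ • x.1) e * (‖x.1‖⁻¹ • x.1) e := by
      have h2 : vl x (∑ e, aR n e * aR n e) = ∑ e, vl x (aR n e) * vl x (aR n e) := by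
        rw [map_sum]
        exact Finset.sum_congr rfl fun j _ => map_mul _ _ _
      exact h2
    rw [h1]
    have h3 : ∑ e, (‖x.1‖⁻¹ • x.1) e * (‖x.1‖⁻¹ • x.1) e = ‖(‖x.1‖⁻¹ • x.1 : Eu n)‖ ^ 2 := by
      rw [EuclideanSpace.norm_sq_eq]
      exact Finset.sum_congr rfl fun e _ => by rw [Real.norm_eq_abs, sq_abs, sq]
    rw [h3, normv x.2, one_pow]
    rfl

/-- the angular form of the planes at `p` -/
def psP (hB : Bl M) (hk : 𝒜.HK 3) {p : M} {o : Eu n → EuclideanSpace ℝ (Fin (3 + 1) → Fin n)} (ho : OrP 𝒜 3 p o) :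
    Om (spR n) := psi (FO (spR n)) (PR hB hk p) (oRn ho) (aR n)

/-- the Euler form of the planes at `p`, on `M - p` -/
def wP (hB : Bl M) (hk : 𝒜.HK 3) {p : M} {o : Eu n → EuclideanSpace ℝ (Fin (3 + 1) → Fin n)} (ho : OrP 𝒜 3 p o) :
    Om (spP 𝒜 p) := eul (FO (spP 𝒜 p)) (PX hB hk p) (oX hB hk ho)

/-- **the angular data exist** -/
theorem angD (hB : Bl M) (hk : 𝒜.HK 3) {p : M} {o : Eu n → EuclideanSpace ℝ (Fin (3 + 1) → Fin n)} (ho : OrP 𝒜 3 p o) :
    AngD 𝒜 3 p (psP hB hk ho) (wP hB hk ho) where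
  degψ := Deg_psi _ _ _
  degw := Deg_eul _ _
  closed := d_eul (G := GO (spP 𝒜 p)) (φ := FO (spP 𝒜 p)) (Or_PX hB hk ho)
  comp := fun k P q h => by
    have h1 : dO _ (psP hB hk ho) = eul (FO (spR n)) (PR hB hk p) (oRn ho) :=
      d_psi (G := GO (spR n)) (φ := FO (spR n)) (Or_PR hB hk ho) (Sec_PR hB hk p)
    rw [h1, ← on_plM P, ← on_plM q]
    congr 1
    have h2 := FHom.eul (FHom.pull (plM P)) (P := PX hB hk p) (oX hB hk ho)
    have h3 := FHom.eul (FHom.pull (plM q)) (P := PR hB hk p) (oRn ho)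
    refine h2.trans (Eq.trans ?_ h3.symm)
    have h4 : (PX hB hk p).map (FHom.pull (plM P)).g = (PR hB hk p).map (FHom.pull (plM q)).g := by
      ext i j z
      show ent (prX 𝒜 p (P.1 z).1) i j = ent ((𝒜.PV p (q.1 z).1).starProjection) i j
      rw [prX_eq hB (P.1 z).2 (q.1 z).2 (h z)]
    have h5 : (fun I => (FHom.pull (plM P)).g (oX hB hk ho I)) = fun I => (FHom.pull (plM q)).g (oRn ho I) := by
      funext I
      refine Subtype.ext (funext fun z => ?_)
      exact oX_eq hB hk ho (P.1 z) (q.1 z).2 (h z) I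
    rw [h4, h5]

/-- the angular form is homogeneous -/
theorem nrm_psP (hB : Bl M) (hk : 𝒜.HK 3) {p : M} {o : Eu n → EuclideanSpace ℝ (Fin (3 + 1) → Fin n)}
    (ho : OrP 𝒜 3 p o) : (nrmR n).pull (psP hB hk ho) = psP hB hk ho := by
  have h1 := FHom.psi (FHom.pull (nrmR n)) (P := PR hB hk p) (y := aR n) (oRn ho)
  refine h1.trans ?_
  have hsame : ∀ x : (spR n).pt, 𝒜.Ex p (rad π ((nrmR n).1 x).1) = 𝒜.Ex p (rad π x.1) := by
    intro x
    congr 1
    show rad π (‖x.1‖⁻¹ • x.1) = rad π x.1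
    unfold rad
    rw [normv x.2, div_one, smul_smul, div_eq_mul_inv]
  have h2 : (PR hB hk p).map (FHom.pull (nrmR n)).g = PR hB hk p := by
    ext i j x
    show ent ((𝒜.PV p ((nrmR n).1 x).1).starProjection) i j = ent ((𝒜.PV p x.1).starProjection) i j
    rw [prX_same hB p x.1 ((nrmR n).1 x).1 x.2 ((nrmR n).1 x).2 (hsame x)]
  have h3 : (fun I => (FHom.pull (nrmR n)).g (oRn ho I)) = oRn ho := by
    funext I
    refine Subtype.ext (funext fun x => ?_)
    show o ((nrmR n).1 x).1 I = o x.1 I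
    rw [ho.same x.1 ((nrmR n).1 x).1 x.2 ((nrmR n).1 x).2 (hsame x)]
  have h4 : (fun l => (FHom.pull (nrmR n)).g (aR n l)) = aR n := by
    funext l
    refine Subtype.ext (funext fun x => ?_)
    show (‖(‖x.1‖⁻¹ • x.1 : Eu n)‖⁻¹ • (‖x.1‖⁻¹ • x.1 : Eu n)) l = (‖x.1‖⁻¹ • x.1) l
    rw [normv x.2, inv_one, one_smul]
  rw [h2, h3, h4]
  rfl

end Pool.Agent.Lib.MP_ccbbf6_gt.L5
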