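import Pool.Agent.Lib.MP_ccbbf6_gt.L4.OriI
import Pool.Agent.Lib.MP_ccbbf6_gt.L5.INTa
import Pool.Agent.Lib.MP_ccbbf6_gt.L5.SIV4
import Pool.Agent.Lib.MP_ccbbf6_gt.L5.UOR11
import Pool.Agent.Lib.MP_ccbbf6_gt.L5.UOR12

/-!
# Level 5, UOR13: the integral of the path form over the unit sphere of `V` is `± 1` (helper2)
-/

set_option autoImplicit false
set_option linter.unusedSectionVars false
set_option linter.unusedVariables false

open Set Filter Topology Metric Real Module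
open scoped ContDiff RealInnerProductSpace

noncomputable section

namespace Pool.Agent.Lib.MP_ccbbf6_gt.L5

open Geo L4 L4.FR L4.ORI

variable {n : ℕ} {M : Type} [MetricSpace M] [CompactSpace M] {𝒜 : SDist n M} {κ : ℕ}

/-- the directions of a frame as vectors -/
def vR (f : (spVF 𝒜 κ).pt) : SMap ((spV 0).xP (κ + 1)) (spR n) :=
  ⟨fun z => ⟨vcF 𝒜 f.1.1 z.1.2, vcF_ne f.1.2 z.2⟩, fun k p => by
    show ContDiff ℝ ∞ fun x => vcF 𝒜 f.1.1 (p.1 x).1.2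
    unfold vcF
    exact ContDiff.sum fun i _ => (contDiff_pi.1 p.2.2 i).smul contDiff_const⟩

theorem norm_vcF {r : ℕ} {f : Fin (r + 1) → Gs M} (hf : IsMF 𝒜 r f) (ξ : V (r + 1)) : ‖vcF 𝒜 f ξ‖ = ‖toE ξ‖ := by
  have h1 : ‖vcF 𝒜 f ξ‖ ^ 2 = ‖toE ξ‖ ^ 2 := by
    rw [← real_inner_self_eq_norm_sq, inner_vcF hf, toE_sq]
    exact Finset.sum_congr rfl fun i _ => (sq _).symm
  exact (sq_eq_sq₀ (norm_nonneg _) (norm_nonneg _)).1 h1

theorem dirV_ER (hB : Bl M) {p : M} (f : (spVF 𝒜 κ).pt) (hf : (f.1.1 0).1 0 = p) :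
    (dirV 𝒜 hB κ).comp ((plM (cpl f)).xP (κ + 1)) = (ER hB p).comp (vR f) := SMap_ext fun z => by
  have e1 : ((dirV 𝒜 hB κ).comp ((plM (cpl f)).xP (κ + 1))).1 z = (dirV 𝒜 hB κ).1 ⟨(f, z.1.2), z.2⟩ := rfl
  have e2 : ((ER hB p).comp (vR f)).1 z = gvg 𝒜 hB p (‖vcF 𝒜 f.1.1 z.1.2‖⁻¹ • vcF 𝒜 f.1.1 z.1.2) (normv (vcF_ne f.1.2 z.2)) := rfl
  rw [e1, e2]
  have h3 := gvg_vel 𝒜 hB p (‖vcF 𝒜 f.1.1 z.1.2‖⁻¹ • vcF 𝒜 f.1.1 z.1.2) (normv (vcF_ne f.1.2 z.2))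
  refine eq_of_vel' 𝒜 ?_ ?_
  · rw [foot_dirV, h3.1]
    exact hf
  · rw [vel_dirV, h3.2]
    rfl

theorem gV_eq (hB : Bl M) {θ : Om (spG 𝒜)} (h : Deg κ θ) (f : (spVF 𝒜 κ).pt) :
    SI (κ + 1) (spV 0) (((dirV 𝒜 hB κ).comp ((plM (cpl f)).xP (κ + 1))).pull θ) = algebraMap ℝ _ (gV 𝒜 hB κ θ f) := by
  have h1 : SI (κ + 1) (spV 0) (((dirV 𝒜 hB κ).comp ((plM (cpl f)).xP (κ + 1))).pull θ) =
      (plM (cpl f)).pull (JV 𝒜 hB κ θ) := by
    rw [pull_comp, SI_nat]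
    rfl
  have h2 : Deg 0 (JV 𝒜 hB κ θ) := Deg_JV (j := 0) hB (by rwa [zero_add])
  rw [h1, eq_val (Deg_pull _ h2)]
  rfl

/-- same planes -/
theorem Ex_vcF (hB : Bl M) {p : M} (f : (spVF 𝒜 κ).pt) (hf : (f.1.1 0).1 0 = p) {ξ : V (κ + 1)} (hξ : ξ ≠ 0) :
    𝒜.Ex p (rad π (vcF 𝒜 f.1.1 ξ)) = 𝒜.Ex p (rad π (𝒜.vel (f.1.1 0).1 0)) := by
  have h1 := vcF_mem hB f ξ
  rw [hf] at h1
  exact (mem_PV_iff 𝒜 hB p (vel_ne 𝒜 _) (vcF_ne f.1.2 hξ)).1 h1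

/-- **the value at a frame at the base point** -/
theorem abs_gV_base (hB : Bl M) (hk : 𝒜.HK 3) {p : M} {o : Eu n → EuclideanSpace ℝ (Fin (3 + 1) → Fin n)}
    (ho : OrP 𝒜 3 p o) (f : (spVF 𝒜 3).pt) (hf : (f.1.1 0).1 0 = p) :
    |gV 𝒜 hB 3 (psu hB (uM hB (angD hB hk ho))) f| = 1 := by
  obtain ⟨a, ha⟩ : ∃ a : Fin 4 → Fin n → ℝ, a = fun j l => 𝒜.vel (f.1.1 j).1 0 l := ⟨_, rfl⟩
  obtain ⟨v, hv⟩ : ∃ v, v = 𝒜.vel (f.1.1 0).1 0 := ⟨_, rfl⟩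
  have hv0 : v ≠ 0 := by rw [hv]; exact vel_ne 𝒜 _
  have hfr : IsFr (𝒜.PV p v) fun i => 𝒜.vel (f.1.1 i).1 0 := by
    have h1 := isFr_vel hB hk f
    rw [hf, ← hv] at h1
    exact h1
  have hon : ∀ i j, ∑ x, a i x * a j x = if i = j then (1 : ℝ) else 0 := by
    rw [ha]
    exact hfr.sum_mul
  have hEx : ∀ {ξ : V 4}, ξ ≠ 0 → 𝒜.Ex p (rad π (vcF 𝒜 f.1.1 ξ)) = 𝒜.Ex p (rad π v) := fun hξ => by
    rw [hv]
    exact Ex_vcF hB f hf hξ
  -- the sign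
  obtain ⟨s, hs, hos⟩ : ∃ s : ℝ, |s| = 1 ∧ ∀ I, o v I = s * dtn a I := by
    rcases (hfr.isOr).pm (ho.isOr v hv0) with h1 | h1
    · refine ⟨1, abs_one, fun I => ?_⟩
      rw [h1, one_mul, ha]
      rfl
    · refine ⟨-1, by rw [abs_neg, abs_one], fun I => ?_⟩
      rw [h1, neg_one_mul, ha]
      rfl
  have hdeg : Deg 3 (psu hB (uM hB (angD hB hk ho))) := Deg_psu hB (Deg_uM hB _)
  have h1 := gV_eq hB hdeg f
  rw [dirV_ER hB f hf, pull_comp, ER_psu hB (angD hB hk ho) (nrm_psP hB hk ho)] at h1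
  have h2 := FHom.psi (FHom.pull (vR f)) (P := PR hB hk p) (y := aR n) (oRn ho)
  have h3 : (vR f).pull (psP hB hk ho) = psi (FO ((spV 0).xP 4)) (PC (spV 0) a)
      (fun I => algebraMap ℝ _ (s * dtn a I)) (YSF (spV 0) a) := by
    refine h2.trans ?_
    have e1 : (PR hB hk p).map (FHom.pull (vR f)).g = PC (spV 0) a := by
      ext i j z
      show ent ((𝒜.PV p (vcF 𝒜 f.1.1 z.1.2)).starProjection) i j = ∑ k, a k i * a k j
      rw [prX_same hB p v (vcF 𝒜 f.1.1 z.1.2) hv0 (vcF_ne f.1.2 z.2) (hEx z.2), hfr.proj, ha]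
    have e2 : (fun I => (FHom.pull (vR f)).g (oRn ho I)) = fun I => algebraMap ℝ (SF ((spV 0).xP 4)) (s * dtn a I) := by
      funext I
      refine Subtype.ext (funext fun z => ?_)
      show o (vcF 𝒜 f.1.1 z.1.2) I = s * dtn a I
      rw [ho.same v (vcF 𝒜 f.1.1 z.1.2) hv0 (vcF_ne f.1.2 z.2) (hEx z.2), hos]
    have e3 : (fun l => (FHom.pull (vR f)).g (aR n l)) = YSF (spV 0) a := by
      funext l
      refine Subtype.ext (funext fun z => ?_)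
      show (‖vcF 𝒜 f.1.1 z.1.2‖⁻¹ • vcF 𝒜 f.1.1 z.1.2) l = (YSF (spV 0) a l).1 z
      have e4 : (YSF (spV 0) a l).1 z = ∑ j, a j l * hat z.1.2 j := by
        have e5 : vl z (YSF (spV 0) a l) = ∑ j, a j l * hat z.1.2 j := by
          unfold YSF
          rw [map_sum]
          exact Finset.sum_congr rfl fun j _ => by rw [map_smul]; rfl
        exact e5
      rw [e4, norm_vcF f.1.2, WithLp.ofLp_smul, Pi.smul_apply, smul_eq_mul]
      unfold vcF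
      rw [WithLp.ofLp_sum, Finset.sum_apply, Finset.mul_sum, ha]
      refine Finset.sum_congr rfl fun j _ => ?_
      rw [WithLp.ofLp_smul, Pi.smul_apply, smul_eq_mul]
      show ‖toE z.1.2‖⁻¹ * (z.1.2 j * _) = _ * (‖toE z.1.2‖⁻¹ * z.1.2 j)
      ring
    rw [e1, e2, e3]
  rw [h3, SI_psi_PC hon] at h1
  have h4 : gV 𝒜 hB 3 (psu hB (uM hB (angD hB hk ho))) f = s := by
    have h5 : val (algebraMap ℝ (Om (spV 0)) s) (idP 0) =
        val (algebraMap ℝ (Om (spV 0)) (gV 𝒜 hB 3 (psu hB (uM hB (angD hB hk ho))) f)) (idP 0) := by rw [h1]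
    have h6 : ∀ r : ℝ, val (algebraMap ℝ (Om (spV 0)) r) (idP 0) = r := by
      intro r
      unfold val
      have h7 : Om.on (algebraMap ℝ (Om (spV 0)) r) (idP 0) = algebraMap ℝ (Fm 0) r := rfl
      rw [h7, ← (fc 0).commutes, fn_fc]
      rfl
    rw [h6, h6] at h5
    exact h5.symm
  rw [h4]
  exact hs

/-- connectivity: the absolute value of the integral does not depend on the frame -/
theorem abs_gV_con (hn : 2 ≤ n) (hB : Bl M) (hk : 𝒜.HK κ) (hκ : 1 ≤ κ) (hL : LLift (f0V 𝒜 κ)) {u : Om (spM 𝒜)}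
    (hu : dO _ u = 0) (h4 : Deg (κ + 1) u) (f f' : (spVF 𝒜 κ).pt) :
    |gV 𝒜 hB κ (psu hB u) f| = |gV 𝒜 hB κ (psu hB u) f'| := by
  have hch : ∀ {g g' : (spVF 𝒜 κ).pt}, (g'.1.1 0).1 0 = (g.1.1 0).1 0 → (g'.1.1 0).1 π = (g.1.1 0).1 π →
      |gV 𝒜 hB κ (psu hB u) g'| = |gV 𝒜 hB κ (psu hB u) g| := by
    intro g g' e0 e1
    rw [gV_change hB hk (psu hB u) e0 e1, abs_mul]
    have h2 := chM_orth hB hk e0 e1
    have h3 := congrArg Matrix.det h2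
    rw [Matrix.det_mul, Matrix.det_transpose, Matrix.det_one] at h3
    have hs : |(chM g.1 g'.1).det| = 1 := by
      rcases mul_self_eq_one_iff.1 h3 with h4 | h4
      · rw [h4, abs_one]
      · rw [h4, abs_neg, abs_one]
    rw [hs, one_mul]
  obtain ⟨a, ha⟩ : ∃ a, a = |gV 𝒜 hB κ (psu hB u) f| := ⟨_, rfl⟩
  let P : Gs M → Prop := fun c => ∀ g : (spVF 𝒜 κ).pt, (g.1.1 0).1 0 = c.1 0 → (g.1.1 0).1 π = c.1 π →
    |gV 𝒜 hB κ (psu hB u) g| = a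
  have hP : ∀ (q : (spG 𝒜).Plot 1) (s t : V 1), P (q.1 s) → P (q.1 t) := by
    intro q s t hs
    have hloc : IsLocallyConstant fun x : V 1 => P (q.1 x) := by
      rw [IsLocallyConstant.iff_eventually_eq]
      intro x
      obtain ⟨h, Q, hh, hQ⟩ := hL 1 q x
      have hfoot : ∀ᶠ y in 𝓝 x, ((Q.1 y).1.1 0) = q.1 y := by
        filter_upwards [hh] with y hy
        have h1 := congrFun (congrArg Subtype.val hQ) y
        have h2 : (f0V 𝒜 κ).1 (Q.1 y) = q.1 (h y) := h1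
        rw [hy] at h2
        exact h2
      have key : ∀ y, ((Q.1 y).1.1 0) = q.1 y → (P (q.1 y) ↔ |gV 𝒜 hB κ (psu hB u) (Q.1 y)| = a) := by
        intro y hy
        refine ⟨fun h1 => h1 (Q.1 y) (by rw [hy]) (by rw [hy]), fun h1 g e0 e1 => ?_⟩
        rw [hch (g := Q.1 y) (g' := g) (by rw [e0, hy]) (by rw [e1, hy])]
        exact h1
      filter_upwards [hfoot] with y hy
      refine propext ?_
      rw [key y hy, key x hfoot.self_of_nhds, gV_loc hB hκ hu h4 Q y x]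
    have h1 := hloc.apply_eq_of_isPreconnected (s := univ) isPreconnected_univ (mem_univ s) (mem_univ t)
    exact h1 ▸ hs
  have h1 := con_spG hB hn P hP (f.1.1 0) (f'.1.1 0) (fun g e0 e1 => by rw [ha]; exact hch e0 e1) f' rfl rfl
  rw [← ha]
  exact h1.symm

end Pool.Agent.Lib.MP_ccbbf6_gt.L5
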