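import Pool.Agent.Lib.MP_ccbbf6_gt.L5.EPS01
import Pool.Agent.Lib.MP_ccbbf6_gt.L5.UOR13

/-!
# Level 5, INTb, file 7: the sweep-out of the sphere `S(x, y)` by the cube (helper77), any `κ ≥ 1`

`f : (spVF 𝒜 κ).pt` = an orthonormal frame of `V(x, y)`, `x = (f.1.1 0).1 0`, `y = (f.1.1 0).1 π`. `swp f ξ r` = the point at time `π r χ(|ξ|)` on the geodesic from `x` in the direction `Σ ξ_i f_i / |ξ|`; `= x` for `|ξ| ≤ 1`.
PAPER PROOF.
PART 1. `swp_sm`: smoothness is local: near `z` with `‖g z‖ < 1`: `χ = 0` (`chi_zero`), the value is `c 0 = x` (`foot_dirV`; for `ξ = 0` by definition), constant. At `z` with `g z ≠ 0`: near `z` the map is `fRho ∘ (dirF f ∘ (0, g), r χ(‖g‖))`; use a plot of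
    `((spV 0).xP (κ+1)).xR` near `z` (`exists_sq` gives a smooth map `s = id` near `z` with `g (s w) ≠ 0` everywhere; `Sm` at a point is local: `(Sm at z).congr`), `contDiff_chiN`-type lemma: `fun ξ => chi ‖toE ξ‖` is smooth (EPS05 `contDiff_chiN`; SIV/INTf have the same: `cnX`?).
  `swp_top`, `swp_zero`, `swp_mem`: definitions; `fRho z = z.1.1 (π * z.2)`, `chi_one`, `foot_dirV`, `top_dirV`.
PART 2. `swp_int`. Put `θ = Om.on u (swpH f)` in `Fm (κ+2)` (`swpH f : (ξ, r) ↦ swp f ξ r`), `κκ = KK (κ+1) θ`. `dd_KK`: `dd κκ = pb (sl 1) θ - pb (sl 0) θ` (`dd θ = 0`), `pb (sl 1) θ = Om.on u (swp1 f)`, `pb (sl 0) θ = 0` (constant map, degree `κ + 1 > 0`).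
    Let `Θ = (dirF f).pull (psu hB u) : Om ((spV 0).xP (κ+1))`; `dO Θ = 0` (`d_psu'`, `ft_dirV`, `tp_dirV`: pull-backs from the point `spV 0` in positive degree vanish). Let `βf : Fm (κ+1)` = the form with values `χ(|ξ|) Θ` (0 near `ξ = 0`): e.g. `Om.on (ext0 .. (chiX * Θ)) (plVX (κ+1))`
    (INTf: `chiX`, `dch = dO chiX`, `cutX`; plVX of SIV2), so `dd βf = Om.on (cutX Θ) (plVX (κ+1))` (`dO (chi Θ) = dchi * Θ`). For `|ξ| > 2`: `χ = 1`, near `ξ` `swpH f = fRho ∘ (dirF f × id)`, so `ev ξ κκ = ev ξ (Θ) = ev ξ βf` (`psu = KO (fRho.pull u)`, `KK` commutes with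
    `up`; `KK_congr`-type lemma: KK only depends on the values over the segment above the point; UOR09 `KK_congr`). So `κκ - βf` has compact support and `∫ topE (dd (κκ - βf)) = 0` (Stokes on `V (κ+1)`: `L4.FR.stokes` in FRt or `integral_pd_eq_zero` with `tp_dd`), i.e.
    `∫ topE (Om.on u (swp1 f)) = ∫ topE (Om.on (cutX Θ) (plVX))` `= ±` the value of `SI (κ+1) (spV 0) Θ` (`topE_JX`, SIV2) `= ± gV` (`gV_eq`, UOR13; `val_idP`, `topE 0 (algebraMap r) = r`).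
PART 3. `cI_Gc`: `topE (ev z (pb (Gc N) θ)) = 6^N topE (ev (Gc N z) θ)` (`tp_pb` in FRt: determinant of the derivative of `Gc` = `6^N`), `Gc N` maps the cube onto `[-3,3]^N`, outside of which `topE (ev ξ θ) = 0` (`|ξ_i| > 3 ⇒ ‖toE ξ‖ > 2`), so
    `cI N (pb (Gc N) θ) = ∫_z 1_[0,1]^N 6^N F(6 (z - 1/2)) = ∫_z 6^N F(6 (z - 1/2)) = ∫ F` (`integral_comp_smul`, translation invariance; `Measure.setIntegral_comp_smul` etc.). `exists_sweep`: `Φ = (swp1 f).cmp (Gc (κ+1))`; off the open cube `|Gc z i| ≥ 3`, so `‖·‖ ≥ 2`: `swp_top`.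
-/

set_option autoImplicit false
set_option linter.unusedSectionVars false
set_option linter.unusedVariables false

open Set Filter Topology Metric Real Module MeasureTheory
open scoped ContDiff RealInnerProductSpace

noncomputable section

namespace Pool.Agent.Lib.MP_ccbbf6_gt.L5.IB

open Geo L4 L4.FR L4.ORI

variable {n : ℕ} {M : Type} [MetricSpace M] [CompactSpace M] {𝒜 : SDist n M} {κ : ℕ}

/-- directions in a fixed frame -/
def dirFf (hB : Bl M) (f : (spVF 𝒜 κ).pt) : SMap ((spV 0).xP (κ + 1)) (spG 𝒜) := (dirV 𝒜 hB κ).comp ((plM (cpl f)).xP (κ + 1))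

open Classical in
/-- the sweep-out -/
def swp (hB : Bl M) (f : (spVF 𝒜 κ).pt) (ξ : V (κ + 1)) (r : ℝ) : M :=
  if h : ξ ≠ 0 then (fRho hB).1 ((dirFf hB f).1 ⟨((0 : V 0), ξ), h⟩, r * chi ‖toE ξ‖) else (f.1.1 0).1 0

theorem swp_sm (hB : Bl M) (f : (spVF 𝒜 κ).pt) {k : ℕ} {g : V k → V (κ + 1)} (hg : ContDiff ℝ ∞ g) {r : V k → ℝ}
    (hr : ContDiff ℝ ∞ r) : (fun z => swp hB f (g z) (r z)) ∈ (spM 𝒜).Pl k := by
  show Sm 𝒜 fun z => swp hB f (g z) (r z)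
  intro z
  by_cases hz : ‖toE (g z)‖ < 1
  · refine (smAt_const ((f.1.1 0).1 0) z).congr ?_
    have h2 : Continuous fun y : V k => ‖toE (g y)‖ :=
      (contDiff_toE.continuous.comp hg.continuous).norm
    filter_upwards [h2.continuousAt.eventually (gt_mem_nhds hz)] with w hw
    unfold swp
    split_ifs with h
    · show ((dirFf hB f).1 _).1 (π * (r w * chi ‖toE (g w)‖)) = _
      rw [chi_zero hw.le, mul_zero, mul_zero]
      exact foot_dirV hB _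
    · rfl
  · have hne : g z ≠ 0 := by
      intro h
      apply hz
      rw [h]
      have h1 : toE (0 : V (κ + 1)) = 0 := rfl
      rw [h1, norm_zero]
      exact one_pos
    obtain ⟨s, hs1, hs2⟩ := exists_sq z (U := {w | g w ≠ 0})
      (hg.continuous.continuousAt.eventually_ne hne)
    have hs3 : ∀ w, g (s w) ≠ 0 := fun w => hs2 w
    have hgs : ContDiff ℝ ∞ fun w => g (s w) := hg.comp s.smooth
    have h0 : ContDiff ℝ ∞ fun _ : V k => (0 : V 0) := contDiff_const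
    have h1 := (dirFf hB f).2 k ⟨fun w => ⟨((0 : V 0), g (s w)), hs3 w⟩, h0, hgs⟩
    have h2 : ContDiff ℝ ∞ fun w => r (s w) * chi ‖toE (g (s w))‖ :=
      (hr.comp s.smooth).mul (contDiff_chi_norm.comp hgs)
    have h3 : Sm 𝒜 fun w => (fRho hB).1 ((dirFf hB f).1 ⟨((0 : V 0), g (s w)), hs3 w⟩,
        r (s w) * chi ‖toE (g (s w))‖) := (fRho hB).2 k ⟨fun w => ((dirFf hB f).1
          ⟨((0 : V 0), g (s w)), hs3 w⟩, r (s w) * chi ‖toE (g (s w))‖), h1, h2⟩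
    refine (h3 z).congr ?_
    filter_upwards [hs1] with w hw
    have h4 : swp hB f (g (s w)) (r (s w)) = (fRho hB).1 ((dirFf hB f).1
        ⟨((0 : V 0), g (s w)), hs3 w⟩, r (s w) * chi ‖toE (g (s w))‖) := by
      exact dif_pos (hs3 w)
    rw [← h4, hw]

theorem swp_top (hB : Bl M) (f : (spVF 𝒜 κ).pt) {ξ : V (κ + 1)} (h : 2 ≤ ‖toE ξ‖) : swp hB f ξ 1 = (f.1.1 0).1 π := by
  have hne : ξ ≠ 0 := by
    intro h1
    rw [h1] at h
    have h2 : toE (0 : V (κ + 1)) = 0 := rfl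
    rw [h2, norm_zero] at h
    norm_num at h
  unfold swp
  rw [dif_pos hne]
  show ((dirFf hB f).1 _).1 (π * (1 * chi ‖toE ξ‖)) = _
  rw [chi_one h, mul_one, mul_one]
  exact top_dirV hB _

theorem swp_zero (hB : Bl M) (f : (spVF 𝒜 κ).pt) (ξ : V (κ + 1)) : swp hB f ξ 0 = (f.1.1 0).1 0 := by
  unfold swp
  split_ifs with h
  · show ((dirFf hB f).1 _).1 (π * (0 * chi ‖toE ξ‖)) = _
    rw [zero_mul, mul_zero]
    exact foot_dirV hB _
  · rfl

theorem swp_mem (hB : Bl M) (f : (spVF 𝒜 κ).pt) (ξ : V (κ + 1)) :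
    ∃ c : Gs M, c.1 0 = (f.1.1 0).1 0 ∧ c.1 π = (f.1.1 0).1 π ∧ ∃ t ∈ Icc 0 π, swp hB f ξ 1 = c.1 t := by
  by_cases h : ξ ≠ 0
  · refine ⟨(dirFf hB f).1 ⟨((0 : V 0), ξ), h⟩, foot_dirV hB _, top_dirV hB _,
      π * (1 * chi ‖toE ξ‖), ?_, ?_⟩
    · have h0 : 0 ≤ chi ‖toE ξ‖ := sq_nonneg _
      have h1 : chi ‖toE ξ‖ ≤ 1 := Real.sin_sq_le_one _
      rw [one_mul]
      exact ⟨mul_nonneg pi_pos.le h0, mul_le_of_le_one_right pi_pos.le h1⟩
    · unfold swp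
      rw [dif_pos h]
      rfl
  · refine ⟨f.1.1 0, rfl, rfl, 0, ⟨le_rfl, pi_pos.le⟩, ?_⟩
    unfold swp
    rw [dif_neg h]

/-- the plot `(ξ, r) ↦ swp f ξ r` -/
def swpH (hB : Bl M) (f : (spVF 𝒜 κ).pt) : (spM 𝒜).Plot (κ + 1 + 1) :=
  ⟨fun z => (swp hB f (pr (κ + 1) z) (z (Fin.last (κ + 1))) : M), swp_sm hB f (pr (κ + 1)).smooth (contDiff_apply ℝ ℝ _)⟩

/-- the plot `ξ ↦ swp f ξ 1` -/
def swp1 (hB : Bl M) (f : (spVF 𝒜 κ).pt) : (spM 𝒜).Plot (κ + 1) :=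
  ⟨fun ξ => (swp hB f ξ 1 : M), swp_sm hB f contDiff_id contDiff_const⟩

private theorem IB7_Deg_pos {j : ℕ} {θ : Om (spV 0)} (h : Deg (j + 1) θ) : θ = 0 :=
  Om_ext fun k p => by
    have h1 : p = (idP 0).cmp ⟨p.1, p.2⟩ := Plot_ext fun _ => rfl
    rw [h1, on_cmp, Dg_big (Nat.succ_pos j) (h 0 (idP 0)), map_zero, on_zero]

private theorem IB7_dT (hB : Bl M) {u : Om (spM 𝒜)} (hu : dO _ u = 0) (h4 : Deg (κ + 1) u)
    (f : (spVF 𝒜 κ).pt) : dO _ ((dirFf hB f).pull (psu hB u)) = 0 := by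
  rw [pull_d, d_psu' hB hu, map_sub]
  unfold dirFf
  rw [pull_comp, pull_comp, tp_dirV, ft_dirV]
  have h1 : (plM (cpl f)).pull ((f0V 𝒜 κ).pull ((tpG hB).pull u)) = 0 :=
    IB7_Deg_pos (Deg_pull _ (Deg_pull _ (Deg_pull _ h4)))
  have h2 : (plM (cpl f)).pull ((f0V 𝒜 κ).pull ((ftG hB).pull u)) = 0 :=
    IB7_Deg_pos (Deg_pull _ (Deg_pull _ (Deg_pull _ h4)))
  have h3 : ∀ a : Om (spVF 𝒜 κ), ((plM (cpl f)).xP (κ + 1)).pull ((pP (spVF 𝒜 κ) (κ + 1)).pull a) =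
      (pP (spV 0) (κ + 1)).pull ((plM (cpl f)).pull a) := fun a => rfl
  rw [h3, h3, h1, h2, map_zero, sub_zero]

private theorem IB7_van (X : Space) (N : ℕ) :
    Van (X.xV N) (neZ X N) ((inU (X.xV N) (neZ X N)).pull (chiX N X)) := by
  refine Van_res (open_neZ X N) fun k p x hx => ?_
  have h0 : (p.1 x).2 = 0 := by_contra fun h => hx h
  have h1 : ‖toE (p.1 x).2‖ < 1 := by
    rw [h0]
    show ‖(WithLp.toLp 2 (0 : V N) : EuclideanSpace ℝ (Fin N))‖ < 1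
    rw [WithLp.toLp_zero, norm_zero]
    exact one_pos
  have hc : Continuous fun y : V k => ‖toE (p.1 y).2‖ :=
    (contDiff_toE.continuous.comp p.2.2.continuous).norm
  filter_upwards [hc.continuousAt.eventually (gt_mem_nhds h1)] with y hy
  refine (ev_fO _ _ p y).trans ?_
  show algebraMap ℝ (Ex k) (chi ‖toE (p.1 y).2‖) = 0
  rw [chi_zero (le_of_lt hy), map_zero]

/-- `χ(|ξ|) Θ` -/
private def IB7_b {X : Space} {N : ℕ} (Θ : Om (X.xP N)) : Om (X.xV N) :=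
  ext0 (open_neZ X N) ((inU (X.xV N) (neZ X N)).pull (chiX N X) * Θ) (Van_mul (IB7_van X N) Θ)

private theorem IB7_s_chiX (X : Space) (N : ℕ) : sO _ (chiX N X) = chiX N X :=
  Deg_even (j := 0) fun k p => Dg_fc _

private theorem IB7_d_b {X : Space} {N : ℕ} {Θ : Om (X.xP N)} (h : dO _ Θ = 0) :
    dO _ (IB7_b Θ) = cutX Θ := by
  unfold IB7_b cutX
  rw [ext0_d]
  refine ext0_congr _ ?_ _ _
  rw [d_mul, h, mul_zero, add_zero, pull_d]
  rfl

private theorem IB7_loc (hB : Bl M) {u : Om (spM 𝒜)} (f : (spVF 𝒜 κ).pt)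
    {ξ : V (κ + 1)} (hξ : 2 < ‖toE ξ‖) :
    ev ξ (KK (κ + 1) (Om.on u (swpH hB f))) =
      ev ξ (Om.on (IB7_b ((dirFf hB f).pull (psu hB u))) (plVX (κ + 1))) := by
  have hc : Continuous fun y : V (κ + 1) => ‖toE y‖ := contDiff_toE.continuous.norm
  obtain ⟨s, hs1, hs2⟩ := exists_sq ξ (U := {w | 2 < ‖toE w‖})
    (hc.continuousAt.eventually (lt_mem_nhds hξ))
  have hs3 : ∀ w, 2 < ‖toE (s w)‖ := fun w => hs2 w
  have hne : ∀ w, s w ≠ 0 := by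
    intro w h
    have h1 := hs3 w
    rw [h] at h1
    have h2 : toE (0 : V (κ + 1)) = 0 := rfl
    rw [h2, norm_zero] at h1
    norm_num at h1
  have h0 : ContDiff ℝ ∞ fun _ : V (κ + 1) => (0 : V 0) := contDiff_const
  obtain ⟨Q, hQ⟩ : ∃ Q : ((spV 0).xP (κ + 1)).Plot (κ + 1), ∀ w, Q.1 w = ⟨((0 : V 0), s w), hne w⟩ :=
    ⟨⟨fun w => ⟨((0 : V 0), s w), hne w⟩, h0, s.smooth⟩, fun w => rfl⟩
  have hQ2 : (inU ((spV 0).xV (κ + 1)) (neZ (spV 0) (κ + 1))).pl Q = (plVX (κ + 1)).cmp s :=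
    Plot_ext fun w => by
      show (Q.1 w).1 = _
      rw [hQ]
      rfl
  have e1 : pb s (Om.on (IB7_b ((dirFf hB f).pull (psu hB u))) (plVX (κ + 1))) =
      Om.on ((dirFf hB f).pull (psu hB u)) Q := by
    rw [← on_cmp, ← hQ2, ← on_pull]
    unfold IB7_b
    rw [ext0_res, on_mul]
    have h1 : Om.on ((inU ((spV 0).xV (κ + 1)) (neZ (spV 0) (κ + 1))).pull (chiX (κ + 1) (spV 0))) Q
        = 1 := by
      refine ev_ext fun y => ?_
      rw [on_pull]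
      refine (ev_fO _ _ _ y).trans ?_
      show algebraMap ℝ (Ex (κ + 1)) (chi ‖toE (Q.1 y).1.2‖) = _
      rw [hQ, chi_one (le_of_lt (hs3 y)), map_one, map_one]
    rw [h1, one_mul]
  have e2 : pb s (KK (κ + 1) (Om.on u (swpH hB f))) = Om.on ((dirFf hB f).pull (psu hB u)) Q := by
    rw [← KK_up, ← on_cmp, on_pull]
    unfold psu
    rw [on_K, on_pull]
    have h1 : (swpH hB f).cmp s.up = (fRho hB).pl ((dirFf hB f).pl Q).up := by
      refine Plot_ext fun z => ?_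
      show swp hB f (pr (κ + 1) (s.up z)) (s.up z (Fin.last (κ + 1))) =
        (fRho hB).1 ((dirFf hB f).1 (Q.1 (pr (κ + 1) z)), z (Fin.last (κ + 1)))
      have h2 : s.up z = (Fin.snoc (s (pr (κ + 1) z)) (z (Fin.last (κ + 1))) : V (κ + 1 + 1)) := rfl
      rw [h2, pr_snoc, Fin.snoc_last, hQ]
      have h3 : swp hB f (s (pr (κ + 1) z)) (z (Fin.last (κ + 1))) = (fRho hB).1 ((dirFf hB f).1
          ⟨((0 : V 0), s (pr (κ + 1) z)), hne _⟩,
            z (Fin.last (κ + 1)) * chi ‖toE (s (pr (κ + 1) z))‖) := dif_pos (hne _)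
      rw [h3, chi_one (le_of_lt (hs3 _)), mul_one]
    rw [h1]
  rw [← ev_pb_id hs1, e2, ← ev_pb_id hs1 (Om.on (IB7_b ((dirFf hB f).pull (psu hB u))) (plVX (κ + 1))),
    e1]

private theorem IB7_const {k j : ℕ} {u : Om (spM 𝒜)} (h : Deg (j + 1) u) (P : (spM 𝒜).Plot k)
    {a : M} (hP : ∀ x, P.1 x = a) : Om.on u P = 0 := by
  have h0 : Sm 𝒜 fun _ : V 0 => a := sm_const a
  obtain ⟨P0, hP0⟩ : ∃ P0 : (spM 𝒜).Plot 0, ∀ x, P0.1 x = a := ⟨⟨fun _ => a, h0⟩, fun _ => rfl⟩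
  have h1 : P = P0.cmp ⟨fun _ => 0, contDiff_const⟩ := Plot_ext fun x => by
    show P.1 x = P0.1 _
    rw [hP, hP0]
  rw [h1, on_cmp, Dg_big (Nat.succ_pos j) (h 0 P0), map_zero]

theorem swp_int (hB : Bl M) (hκ : 1 ≤ κ) {u : Om (spM 𝒜)} (hu : dO _ u = 0) (h4 : Deg (κ + 1) u) (f : (spVF 𝒜 κ).pt) :
    |∫ ξ : V (κ + 1), topE (κ + 1) (ev ξ (Om.on u (swp1 hB f)))| = |gV 𝒜 hB κ (psu hB u) f| := by
  have hdu : dd (κ + 1 + 1) (Om.on u (swpH hB f)) = 0 := by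
    rw [← on_d, hu, on_zero]
  obtain ⟨Θ, hΘ⟩ : ∃ Θ, Θ = (dirFf hB f).pull (psu hB u) := ⟨_, rfl⟩
  have hdΘ : dO _ Θ = 0 := by
    rw [hΘ]
    exact IB7_dT hB hu h4 f
  obtain ⟨c, hc⟩ : ∃ c, c = KK (κ + 1) (Om.on u (swpH hB f)) := ⟨_, rfl⟩
  have hF : Om.on u (swp1 hB f) = dd (κ + 1) c := by
    have h1 := dd_KK (Om.on u (swpH hB f))
    rw [hdu, map_zero, add_zero, ← on_cmp, ← on_cmp] at h1
    have h2 : (swpH hB f).cmp (sl (κ + 1) 1) = swp1 hB f := Plot_ext fun x => by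
      show swp hB f (pr (κ + 1) (Fin.snoc x 1)) ((Fin.snoc x 1 : V (κ + 1 + 1)) (Fin.last (κ + 1))) =
        swp hB f x 1
      rw [pr_snoc, Fin.snoc_last]
    have h3 : Om.on u ((swpH hB f).cmp (sl (κ + 1) 0)) = 0 := by
      refine IB7_const h4 _ (a := (f.1.1 0).1 0) fun x => ?_
      show swp hB f (pr (κ + 1) (Fin.snoc x 0)) ((Fin.snoc x 0 : V (κ + 1 + 1)) (Fin.last (κ + 1))) = _
      rw [pr_snoc, Fin.snoc_last]
      exact swp_zero hB f x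
    rw [h2, h3, sub_zero] at h1
    rw [hc, h1]
  obtain ⟨B, hBd⟩ : ∃ B, B = Om.on (IB7_b Θ) (plVX (κ + 1)) := ⟨_, rfl⟩
  have hG : Om.on (cutX Θ) (plVX (κ + 1)) = dd (κ + 1) B := by
    rw [← IB7_d_b hdΘ, on_d, hBd]
  have hloc : ∀ x : V (κ + 1), 2 < ‖toE x‖ → ev x c = ev x B := by
    intro x hx
    rw [hc, hBd, hΘ]
    exact IB7_loc hB f hx
  have hcont : Continuous fun y : V (κ + 1) => ‖toE y‖ := contDiff_toE.continuous.norm
  have hK : ∀ x : V (κ + 1), x ∉ {x | L4.EUL.sqn x ≤ 4} → 2 < ‖toE x‖ := by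
    intro x hx
    have h1 : 4 < L4.EUL.sqn x := not_le.1 hx
    have h2 : ‖toE x‖ ^ 2 = L4.EUL.sqn x := toE_sq x
    rw [← h2] at h1
    by_contra h3
    have h4 : ‖toE x‖ ≤ 2 := not_lt.1 h3
    have h5 := norm_nonneg (toE x)
    nlinarith
  have hcpt : IsCompact {x : V (κ + 1) | L4.EUL.sqn x ≤ 4} := L4.EUL.isCompact_sqn_le 4
  have hdd : ∀ x : V (κ + 1), 2 < ‖toE x‖ → ev x (dd (κ + 1) c) = ev x (dd (κ + 1) B) := by
    intro x hx
    refine ev_dd_congr ?_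
    filter_upwards [hcont.continuousAt.eventually (lt_mem_nhds hx)] with y hy
    exact hloc y hy
  have hG0 : ∀ x : V (κ + 1), 2 < ‖toE x‖ → ev x (dd (κ + 1) B) = 0 := by
    intro x hx
    rw [← hG]
    exact ev_cutX Θ (plVX (κ + 1)) x (Or.inr hx)
  have hst := L4.EUL.integral_tp_dd_eq_zero (ξ := c - B) hcpt fun x hx i => by
    rw [map_sub, hloc x (hK x hx), sub_self, mul_zero, map_zero]
  have hi1 : Integrable fun x : V (κ + 1) => topE (κ + 1) (ev x (dd (κ + 1) c)) := by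
    refine (contDiff_coef (topE (κ + 1)) _).continuous.integrable_of_hasCompactSupport ?_
    refine HasCompactSupport.intro hcpt fun x hx => ?_
    show topE (κ + 1) (ev x (dd (κ + 1) c)) = 0
    rw [hdd x (hK x hx), hG0 x (hK x hx), map_zero]
  have hi2 : Integrable fun x : V (κ + 1) => topE (κ + 1) (ev x (dd (κ + 1) B)) := by
    refine (contDiff_coef (topE (κ + 1)) _).continuous.integrable_of_hasCompactSupport ?_
    refine HasCompactSupport.intro hcpt fun x hx => ?_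
    show topE (κ + 1) (ev x (dd (κ + 1) B)) = 0
    rw [hG0 x (hK x hx), map_zero]
  have heq : ∫ x : V (κ + 1), topE (κ + 1) (ev x (dd (κ + 1) c)) =
      ∫ x : V (κ + 1), topE (κ + 1) (ev x (dd (κ + 1) B)) := by
    rw [← sub_eq_zero, ← integral_sub hi1 hi2, ← hst]
    refine integral_congr_ae (Eventually.of_forall fun x => ?_)
    show topE (κ + 1) (ev x (dd (κ + 1) c)) - topE (κ + 1) (ev x (dd (κ + 1) B)) =
      (tp (κ + 1) (dd (κ + 1) (c - B)) : V (κ + 1) → ℝ) x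
    rw [tp_apply, map_sub, map_sub, map_sub]
  have h5 : Deg κ (psu hB u) := Deg_psu hB h4
  have h6 := gV_eq hB h5 f
  have h7 : SI (κ + 1) (spV 0) Θ = algebraMap ℝ _ (gV 𝒜 hB κ (psu hB u) f) := by
    rw [hΘ]
    exact h6
  have h8 := topE_JX (cutX Θ) (VSO_cutX Θ)
  rw [← SI_def, h7] at h8
  have h9 : ∀ a : ℝ, topE 0 (ev 0 (Om.on (algebraMap ℝ (Om (spV 0)) a) (idP 0))) = a := by
    intro a
    have e1 : Om.on (algebraMap ℝ (Om (spV 0)) a) (idP 0) = algebraMap ℝ (Fm 0) a := rfl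
    have e2 : ev (0 : V 0) (algebraMap ℝ (Fm 0) a) = a • (1 : Ex 0) := by
      rw [AlgHom.commutes, Algebra.algebraMap_eq_smul_one]
    have e3 : topE 0 (1 : Ex 0) = 1 := by
      have h3 := topE_ιMulti (k := 0) (fun i => i.elim0)
      rw [ExteriorAlgebra.ιMulti_apply, List.ofFn_zero, List.prod_nil] at h3
      rw [h3]
      exact Matrix.det_fin_zero
    rw [e1, e2, map_smul, smul_eq_mul, e3, mul_one]
  rw [h9, hG] at h8
  rw [hF, heq, h8, abs_mul, abs_pow, abs_neg, abs_one, one_pow, one_mul]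

/-- the rescaling of the cube -/
def Gc (N : ℕ) : FR.Sm N N := ⟨fun z i => 6 * (z i - 1 / 2), contDiff_pi.2 fun i =>
  contDiff_const.mul ((contDiff_apply ℝ ℝ i).sub contDiff_const)⟩

private theorem IB7_fderiv (N : ℕ) (z : V N) : (fderiv ℝ (Gc N : V N → V N) z).det = 6 ^ N := by
  have h1 : HasFDerivAt (Gc N : V N → V N) ((6 : ℝ) • ContinuousLinearMap.id ℝ (V N)) z := by
    have h2 : HasFDerivAt (fun z : V N => (6 : ℝ) • (z - fun _ => (1 / 2 : ℝ)))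
        ((6 : ℝ) • ContinuousLinearMap.id ℝ (V N)) z :=
      ((hasFDerivAt_id z).sub_const _).const_smul (6 : ℝ)
    exact h2
  rw [h1.fderiv]
  change LinearMap.det (((6 : ℝ) • ContinuousLinearMap.id ℝ (V N) : V N →L[ℝ] V N) : V N →ₗ[ℝ] V N) = _
  have h3 : (((6 : ℝ) • ContinuousLinearMap.id ℝ (V N) : V N →L[ℝ] V N) : V N →ₗ[ℝ] V N) =
      (6 : ℝ) • LinearMap.id := rfl
  rw [h3, LinearMap.det_smul, LinearMap.det_id, mul_one, Module.finrank_fin_fun]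

private theorem IB7_norm {N : ℕ} {ξ : V N} {i : Fin N} {c : ℝ} (h : c < |ξ i|) : c < ‖toE ξ‖ :=
  lt_of_lt_of_le h (PiLp.norm_apply_le (toE ξ) i)

private theorem IB7_norm' {N : ℕ} {ξ : V N} {i : Fin N} {c : ℝ} (h : c ≤ |ξ i|) : c ≤ ‖toE ξ‖ :=
  h.trans (PiLp.norm_apply_le (toE ξ) i)

private theorem IB7_flat (hB : Bl M) (u : Om (spM 𝒜)) (f : (spVF 𝒜 κ).pt) (ξ : V (κ + 1)) (h : 2 < ‖toE ξ‖) :
    topE (κ + 1) (ev ξ (Om.on u (swp1 hB f))) = 0 := by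
  let g : FR.Sm (κ + 1) (κ + 1) := ⟨fun _ => ξ, contDiff_const⟩
  have h1 : (swp1 hB f).1 =ᶠ[𝓝 ξ] ((swp1 hB f).cmp g).1 := by
    have h2 : ∀ᶠ ξ' in 𝓝 ξ, 2 < ‖toE ξ'‖ :=
      (contDiff_toE.continuous.norm.continuousAt (x := ξ)).eventually (lt_mem_nhds h)
    filter_upwards [h2] with ξ' hξ'
    change swp hB f ξ' 1 = swp hB f ξ 1
    rw [swp_top hB f hξ'.le, swp_top hB f h.le]
  rw [ev_on_congr u h1, on_cmp, ← tp_apply, tp_pb]
  have h3 : fderiv ℝ (g : V (κ + 1) → V (κ + 1)) ξ = 0 := fderiv_const_apply ξ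
  rw [h3]
  have h4 : (0 : V (κ + 1) →L[ℝ] V (κ + 1)).det = 0 := by
    change LinearMap.det ((0 : V (κ + 1) →L[ℝ] V (κ + 1)) : V (κ + 1) →ₗ[ℝ] V (κ + 1)) = 0
    have h5 : ((0 : V (κ + 1) →L[ℝ] V (κ + 1)) : V (κ + 1) →ₗ[ℝ] V (κ + 1)) = 0 := rfl
    rw [h5, LinearMap.det_zero, Module.finrank_fin_fun, zero_pow (Nat.succ_ne_zero κ)]
  rw [h4, zero_mul]

theorem cI_Gc {N : ℕ} {θ : Fm N} (h : ∀ ξ : V N, 2 < ‖toE ξ‖ → topE N (ev ξ θ) = 0) :
    cI N (pb (Gc N) θ) = ∫ ξ : V N, topE N (ev ξ θ) := by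
  have h1 : ∀ z : V N, topE N (ev z (pb (Gc N) θ)) = 6 ^ N * topE N (ev (Gc N z) θ) := by
    intro z
    rw [← tp_apply, tp_pb, IB7_fderiv, tp_apply]
  have h2 : ∀ z : V N, z ∉ Icc (0 : V N) 1 → topE N (ev z (pb (Gc N) θ)) = 0 := by
    intro z hz
    have h3 : ∃ i, z i < 0 ∨ 1 < z i := by
      by_contra hcon
      push Not at hcon
      exact hz ⟨fun i => (hcon i).1, fun i => (hcon i).2⟩
    obtain ⟨i, hi⟩ := h3
    have h4 : (2 : ℝ) < |(Gc N z) i| := by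
      change (2 : ℝ) < |6 * (z i - 1 / 2)|
      rcases hi with hi | hi
      · rw [abs_of_neg (by linarith)]
        linarith
      · rw [abs_of_pos (by linarith)]
        linarith
    rw [h1, h (Gc N z) (IB7_norm h4), mul_zero]
  unfold cI
  rw [setIntegral_eq_integral_of_forall_compl_eq_zero h2]
  simp only [h1]
  rw [integral_const_mul]
  have h5 : ∫ z : V N, topE N (ev (Gc N z) θ) = ∫ z : V N, topE N (ev ((6 : ℝ) • z) θ) := by
    have h6 : ∀ z : V N, topE N (ev (Gc N z) θ) =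
        (fun w : V N => topE N (ev ((6 : ℝ) • w) θ)) (z - fun _ => (1 / 2 : ℝ)) := fun z => rfl
    simp only [h6]
    exact integral_sub_right_eq_self (fun w : V N => topE N (ev ((6 : ℝ) • w) θ)) _
  rw [h5, Measure.integral_comp_smul (volume : Measure (V N)) (fun w : V N => topE N (ev w θ)) (6 : ℝ),
    Module.finrank_fin_fun, smul_eq_mul, abs_of_pos (by positivity), ← mul_assoc,
    mul_inv_cancel₀ (by positivity), one_mul]

/-- **the sweep-out of `S(x, y)`** -/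
theorem exists_sweep (hB : Bl M) (hκ : 1 ≤ κ) {u : Om (spM 𝒜)} (hu : dO _ u = 0) (h4 : Deg (κ + 1) u)
    (f : (spVF 𝒜 κ).pt) : ∃ Φ : (spM 𝒜).Plot (κ + 1), (∀ z, (∃ i, z i ≤ 0 ∨ 1 ≤ z i) → Φ.1 z = (f.1.1 0).1 π) ∧
      (∀ z, ∃ c : Gs M, c.1 0 = (f.1.1 0).1 0 ∧ c.1 π = (f.1.1 0).1 π ∧ ∃ t ∈ Icc 0 π, Φ.1 z = c.1 t) ∧
      |cI (κ + 1) (Om.on u Φ)| = |gV 𝒜 hB κ (psu hB u) f| := by
  refine ⟨(swp1 hB f).cmp (Gc (κ + 1)), fun z hz => ?_, fun z => swp_mem hB f _, ?_⟩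
  · change swp hB f (Gc (κ + 1) z) 1 = _
    obtain ⟨i, hi⟩ := hz
    apply swp_top
    refine IB7_norm' (i := i) ?_
    change (2 : ℝ) ≤ |6 * (z i - 1 / 2)|
    rcases hi with hi | hi
    · rw [abs_of_neg (by linarith)]
      linarith
    · rw [abs_of_pos (by linarith)]
      linarith
  · rw [on_cmp, cI_Gc (IB7_flat hB u f)]
    exact swp_int hB hκ hu h4 f

end Pool.Agent.Lib.MP_ccbbf6_gt.L5.IB
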