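import Pool.Agent.Lib.MP_ccbbf6_gt.L4.FRd
import Pool.Agent.Lib.MP_ccbbf6_gt.L4.FRt

/-!
# Level 5, block EPS, part 1: the integral over the unit cube
-/

set_option autoImplicit false

open Set Filter Topology MeasureTheory
open scoped ContDiff

noncomputable section

namespace Pool.Agent.Lib.MP_ccbbf6_gt.L5

open L4 L4.FR

variable {k l n : ℕ}

/-- the top coefficient and the last covector -/
theorem topE_last (b : Ex (k + 1)) : topE (k + 1) (ee (Fin.last k) * b) = (-1) ^ k * topE k (kil k b) := by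
  have h : (topE (k + 1)).comp (LinearMap.mulLeft ℝ (ee (Fin.last k))) =
      ((-1 : ℝ) ^ k) • (topE k).comp (kil k).toLinearMap := by
    refine ExteriorAlgebra.lhom_ext fun i => ?_
    ext v
    change topE (k + 1) (ee (Fin.last k) * ExteriorAlgebra.ιMulti ℝ i v) =
      (-1 : ℝ) ^ k * topE k (ExteriorAlgebra.map (ini k) (ExteriorAlgebra.ιMulti ℝ i v))
    have h1 : ee (Fin.last k) * ExteriorAlgebra.ιMulti ℝ i v =
        ExteriorAlgebra.ιMulti ℝ (i + 1) (Fin.cons (Pi.single (Fin.last k) 1) v : Fin (i + 1) → V (k + 1)) := by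
      rw [ExteriorAlgebra.ιMulti_succ_apply]
      rfl
    rw [h1, ExteriorAlgebra.map_apply_ιMulti]
    by_cases hi : i = k
    · subst hi
      rw [topE_ιMulti, topE_ιMulti, Matrix.det_succ_row_zero, Finset.sum_eq_single (Fin.last i)]
      · rw [Fin.val_last]
        have h2 : (Matrix.of (Fin.cons (Pi.single (Fin.last i) 1) v : Fin (i + 1) → V (i + 1))) 0 (Fin.last i) = (1 : ℝ) := by
          simp
        have h3 : ((Matrix.of (Fin.cons (Pi.single (Fin.last i) 1) v : Fin (i + 1) → V (i + 1))).submatrix Fin.succ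
            (Fin.last i).succAbove) = Matrix.of (ini i ∘ v) := by
          ext a b
          simp [ini]
        rw [h2, h3, mul_one]
      · intro j _ hj
        have h2 : (Matrix.of (Fin.cons (Pi.single (Fin.last i) 1) v : Fin (i + 1) → V (i + 1))) 0 j = (0 : ℝ) := by
          simp [Pi.single_eq_of_ne hj]
        rw [h2]
        ring
      · intro h
        exact absurd (Finset.mem_univ _) h
    · rw [topE_ιMulti_ne hi, topE_ιMulti_ne (fun h => hi (by omega)), mul_zero]
  exact LinearMap.congr_fun h b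

theorem single_last_ne (k : ℕ) : lst k (Pi.single (Fin.last k) 1) = 1 := by
  rw [lst_apply, Pi.single_eq_same]

/-- the top coefficient and the contraction with the last vector -/
theorem topE_ctr_last (a : Ex (k + 1)) : topE (k + 1) a = (-1) ^ k * topE k (kil k (ctr (lst k) a)) := by
  have h := topE_ι_mul (lst k) (Pi.single (Fin.last k) 1) a
  rw [single_last_ne, one_mul] at h
  rw [h]
  exact topE_last _

/-- integral of the top coefficient over the unit cube -/
def cI (k : ℕ) (θ : Fm k) : ℝ := ∫ x in Icc (0 : V k) 1, topE k (ev x θ)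

theorem continuous_top (θ : Fm k) : Continuous fun x => topE k (ev x θ) := (contDiff_coef (topE k) θ).continuous

theorem intOn_top (θ : Fm k) : IntegrableOn (fun x => topE k (ev x θ)) (Icc (0 : V k) 1) :=
  (continuous_top θ).continuousOn.integrableOn_compact isCompact_Icc

theorem cI_add (θ τ : Fm k) : cI k (θ + τ) = cI k θ + cI k τ := by
  unfold cI
  rw [← integral_add (intOn_top θ) (intOn_top τ)]
  simp only [map_add]

theorem cI_smul (r : ℝ) (θ : Fm k) : cI k (r • θ) = r * cI k θ := by
  unfold cI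
  rw [← integral_const_mul]
  simp only [map_smul, smul_eq_mul]

theorem cI_zero : cI k 0 = 0 := by
  unfold cI
  simp

theorem cI_neg (θ : Fm k) : cI k (-θ) = -cI k θ := by
  have h := cI_smul (-1) θ
  rwa [neg_one_smul, neg_one_mul] at h

theorem cI_sub (θ τ : Fm k) : cI k (θ - τ) = cI k θ - cI k τ := by
  rw [sub_eq_add_neg, cI_add, cI_neg, sub_eq_add_neg]

theorem cI_congr {θ τ : Fm k} (h : ∀ x ∈ Icc (0 : V k) 1, topE k (ev x θ) = topE k (ev x τ)) : cI k θ = cI k τ :=
  setIntegral_congr_fun measurableSet_Icc h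

/-- `Q0` pointwise under the top coefficient -/
theorem topE_Q0 (y : Fm (k + 1)) (p : V k) :
    topE k (ev p (Q0 k y)) = ∫ s in (0 : ℝ)..1, topE k (kil k (ev (Fin.snoc p s) y)) := by
  rw [ev_Q0]
  refine intervalIntegral.integral_congr fun s _ => ?_
  change topE k (ev p (pb (sl k s) y)) = _
  congr 1
  induction y using Fm_tind with
  | hf f a =>
    rw [pb_sl, ev_tm, ev_tm, map_smul]
    rfl
  | ha x y hx hy => simp only [map_add, hx, hy]

theorem ev_cs (x : V (k + 1)) (θ : Fm (k + 1)) : ev x (cs k θ) = ctr (lst k) (ev x θ) := by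
  induction θ using Fm_tind with
  | hf f a => rw [cs, cn_tm, ev_tm, ev_tm, map_smul]
  | ha x y hx hy => simp only [map_add, hx, hy]

/-- Fubini for the last variable -/
theorem setIntegral_cube_succ {f : V (k + 1) → ℝ} (hf : Continuous f) :
    ∫ x in Icc (0 : V (k + 1)) 1, f x = ∫ p in Icc (0 : V k) 1, ∫ s in (0 : ℝ)..1, f (Fin.snoc p s) := by
  have hmp := (volume_preserving_piFinSuccAbove (fun _ : Fin (k + 1) => ℝ) (Fin.last k)).symm
  have h1 := hmp.setIntegral_preimage_emb (MeasurableEquiv.measurableEmbedding _) f (Icc (0 : V (k + 1)) 1)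
  rw [← h1]
  have h2 : ((MeasurableEquiv.piFinSuccAbove (fun _ : Fin (k + 1) => ℝ) (Fin.last k)).symm ⁻¹' Icc (0 : V (k + 1)) 1) =
      (Icc (0 : ℝ) 1) ×ˢ (Icc (0 : V k) 1) := by
    ext ⟨s, p⟩
    simp only [mem_preimage, mem_prod, mem_Icc, Pi.le_def]
    constructor
    · rintro ⟨ha, hb⟩
      refine ⟨⟨?_, ?_⟩, fun i => ?_, fun i => ?_⟩
      · have := ha (Fin.last k)
        simpa [MeasurableEquiv.piFinSuccAbove] using this
      · have := hb (Fin.last k)
        simpa [MeasurableEquiv.piFinSuccAbove] using this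
      · have := ha i.castSucc
        simpa [MeasurableEquiv.piFinSuccAbove] using this
      · have := hb i.castSucc
        simpa [MeasurableEquiv.piFinSuccAbove] using this
    · rintro ⟨⟨ha, hb⟩, hc, hd⟩
      constructor
      · intro i
        refine Fin.lastCases ?_ (fun i => ?_) i
        · simpa [MeasurableEquiv.piFinSuccAbove] using ha
        · simpa [MeasurableEquiv.piFinSuccAbove] using hc i
      · intro i
        refine Fin.lastCases ?_ (fun i => ?_) i
        · simpa [MeasurableEquiv.piFinSuccAbove] using hb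
        · simpa [MeasurableEquiv.piFinSuccAbove] using hd i
  rw [h2]
  have h3 : ∀ z : ℝ × V k, (MeasurableEquiv.piFinSuccAbove (fun _ : Fin (k + 1) => ℝ) (Fin.last k)).symm z =
      (Fin.snoc z.2 z.1 : V (k + 1)) := by
    intro z
    funext i
    refine Fin.lastCases ?_ (fun i => ?_) i
    · simp [MeasurableEquiv.piFinSuccAbove]
    · simp [MeasurableEquiv.piFinSuccAbove]
  have h3' : (fun z : ℝ × V k => f ((MeasurableEquiv.piFinSuccAbove (fun _ : Fin (k + 1) => ℝ) (Fin.last k)).symm z)) =
      fun z : ℝ × V k => f (Fin.snoc z.2 z.1 : V (k + 1)) := by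
    funext z
    rw [h3]
  have hcont : Continuous fun z : ℝ × V k => f (Fin.snoc z.2 z.1 : V (k + 1)) :=
    hf.comp ((contDiff_snoc (k := k)).continuous.comp (continuous_snd.prodMk continuous_fst))
  have h4 : IntegrableOn (fun z : ℝ × V k => f (Fin.snoc z.2 z.1 : V (k + 1))) ((Icc (0 : ℝ) 1) ×ˢ (Icc (0 : V k) 1)) :=
    hcont.continuousOn.integrableOn_compact (isCompact_Icc.prod isCompact_Icc)
  change ∫ z in (Icc (0 : ℝ) 1) ×ˢ (Icc (0 : V k) 1), f ((MeasurableEquiv.piFinSuccAbove (fun _ : Fin (k + 1) => ℝ) (Fin.last k)).symm z) = _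
  rw [h3']
  change ∫ z in (Icc (0 : ℝ) 1) ×ˢ (Icc (0 : V k) 1), f (Fin.snoc z.2 z.1 : V (k + 1)) ∂(volume.prod volume) = _
  have h5 : ∫ z in (Icc (0 : ℝ) 1) ×ˢ (Icc (0 : V k) 1), f (Fin.snoc z.2 z.1 : V (k + 1)) ∂(volume.prod volume) =
      ∫ z in (Icc (0 : V k) 1) ×ˢ (Icc (0 : ℝ) 1), f (Fin.snoc z.1 z.2 : V (k + 1)) ∂(volume.prod volume) := by
    rw [← Measure.prod_restrict, ← Measure.prod_restrict]
    exact integral_prod_swap (fun z : V k × ℝ => f (Fin.snoc z.1 z.2 : V (k + 1)))
  rw [h5, setIntegral_prod]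
  · refine setIntegral_congr_fun measurableSet_Icc fun p _ => ?_
    change ∫ s in Icc (0 : ℝ) 1, f (Fin.snoc p s) = _
    rw [intervalIntegral.integral_of_le zero_le_one, integral_Icc_eq_integral_Ioc]
  · have hcont' : Continuous fun z : V k × ℝ => f (Fin.snoc z.1 z.2 : V (k + 1)) :=
      hf.comp (contDiff_snoc (k := k)).continuous
    exact hcont'.continuousOn.integrableOn_compact (isCompact_Icc.prod isCompact_Icc)

/-- integration over the last variable first -/
theorem cI_KK (θ : Fm (k + 1)) : cI (k + 1) θ = (-1) ^ k * cI k (KK k θ) := by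
  unfold cI
  rw [setIntegral_cube_succ (continuous_top θ), ← integral_const_mul]
  refine setIntegral_congr_fun measurableSet_Icc fun p _ => ?_
  change ∫ s in (0 : ℝ)..1, topE (k + 1) (ev (Fin.snoc p s) θ) = (-1) ^ k * topE k (ev p (KK k θ))
  rw [KK_apply, topE_Q0, ← intervalIntegral.integral_const_mul]
  refine intervalIntegral.integral_congr fun s _ => ?_
  change topE (k + 1) (ev (Fin.snoc p s) θ) = (-1) ^ k * topE k (kil k (ev (Fin.snoc p s) (cs k θ)))
  rw [ev_cs, ← topE_ctr_last]

/-- the coefficients of `θ` which enter in the top coefficient of `dθ` -/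
def fco (i : Fin k) (θ : Fm k) : Cs k := cof ((topE k).comp (LinearMap.mulLeft ℝ (ee i))) θ

theorem fco_apply (i : Fin k) (θ : Fm k) (x : V k) : (fco i θ : V k → ℝ) x = topE k (ee i * ev x θ) := cof_apply _ _ _

/-- `θ` vanishes on the two faces in the direction `i` -/
def Fz (i : Fin k) (θ : Fm k) : Prop := ∀ x ∈ Icc (0 : V k) 1, (x i = 0 ∨ x i = 1) → topE k (ee i * ev x θ) = 0

theorem insertNth_mem_cube {i : Fin (k + 1)} {r : ℝ} (hr : r = 0 ∨ r = 1) {x : V k} (hx : x ∈ Icc (0 : V k) 1) :
    (i.insertNth r x : V (k + 1)) ∈ Icc (0 : V (k + 1)) 1 := by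
  constructor
  · intro j
    refine Fin.succAboveCases i ?_ (fun j => ?_) j
    · rw [Fin.insertNth_apply_same]
      rcases hr with rfl | rfl
      · exact le_rfl
      · exact zero_le_one
    · rw [Fin.insertNth_apply_succAbove]
      exact hx.1 j
  · intro j
    refine Fin.succAboveCases i ?_ (fun j => ?_) j
    · rw [Fin.insertNth_apply_same]
      rcases hr with rfl | rfl
      · exact zero_le_one
      · exact le_rfl
    · rw [Fin.insertNth_apply_succAbove]
      exact hx.2 j

/-- divergence theorem on the unit cube -/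
theorem cI_dd (θ : Fm (k + 1)) : cI (k + 1) (dd (k + 1) θ) =
    ∑ i, ((∫ x in Icc (0 : V k) 1, topE (k + 1) (ee i * ev (i.insertNth 1 x) θ)) -
      ∫ x in Icc (0 : V k) 1, topE (k + 1) (ee i * ev (i.insertNth 0 x) θ)) := by
  have h := integral_divergence_of_hasFDerivAt_off_countable' (n := k) (E := ℝ) (a := 0) (b := 1)
    (fun _ => zero_le_one) (fun i => (fco i θ : V (k + 1) → ℝ)) (fun i x => fderiv ℝ (fco i θ : V (k + 1) → ℝ) x) ∅
    countable_empty (fun i => (Cs_smooth _).continuous.continuousOn)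
    (fun x _ i => (Cs_diff (fco i θ) x).hasFDerivAt) ?_
  · have h2 : ∀ x : V (k + 1), topE (k + 1) (ev x (dd (k + 1) θ)) =
        ∑ i, fderiv ℝ (fco i θ : V (k + 1) → ℝ) x (Pi.single i 1) := by
      intro x
      rw [← tp_apply, tp_dd, AddSubmonoidClass.coe_finsetSum, Finset.sum_apply]
      rfl
    unfold cI
    simp only [h2]
    rw [h]
    refine Finset.sum_congr rfl fun i _ => ?_
    have h3 : ∀ r : ℝ, ∀ x : V k, (fco i θ : V (k + 1) → ℝ) (i.insertNth r x) =
        topE (k + 1) (ee i * ev (i.insertNth r x) θ) := fun r x => fco_apply _ _ _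
    simp only [h3]
    rfl
  · have h4 : Continuous fun x : V (k + 1) => ∑ i, fderiv ℝ (fco i θ : V (k + 1) → ℝ) x (Pi.single i 1) :=
      continuous_finsetSum _ fun i _ => ((Cs_smooth (fco i θ)).continuous_fderiv (by simp)).clm_apply continuous_const
    exact h4.continuousOn.integrableOn_compact isCompact_Icc

theorem ev_slE (s : ℝ) (p : V k) (θ : Fm (k + 1)) : ev p (pb (sl k s) θ) = kil k (ev (Fin.snoc p s) θ) := by
  induction θ using Fm_tind with
  | hf f a =>
    rw [pb_sl, ev_tm, ev_tm, map_smul]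
    rfl
  | ha x y hx hy => simp only [map_add, hx, hy]

/-- Stokes, all lateral faces vanish -/
theorem cI_dd_last (θ : Fm (k + 1)) (h : ∀ i : Fin k, Fz i.castSucc θ) :
    cI (k + 1) (dd (k + 1) θ) = (-1) ^ k * (cI k (pb (sl k 1) θ) - cI k (pb (sl k 0) θ)) := by
  rw [cI_dd, Fin.sum_univ_castSucc, Finset.sum_eq_zero, zero_add]
  · unfold cI
    rw [mul_sub, ← integral_const_mul, ← integral_const_mul]
    congr 1
    · refine setIntegral_congr_fun measurableSet_Icc fun x _ => ?_
      change topE (k + 1) (ee (Fin.last k) * ev ((Fin.last k).insertNth 1 x) θ) = _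
      rw [topE_last, ev_slE, Fin.insertNth_last']
    · refine setIntegral_congr_fun measurableSet_Icc fun x _ => ?_
      change topE (k + 1) (ee (Fin.last k) * ev ((Fin.last k).insertNth 0 x) θ) = _
      rw [topE_last, ev_slE, Fin.insertNth_last']
  · intro i _
    have h1 : ∀ r : ℝ, (r = 0 ∨ r = 1) →
        ∫ x in Icc (0 : V k) 1, topE (k + 1) (ee i.castSucc * ev (i.castSucc.insertNth r x) θ) = 0 := by
      intro r hr
      rw [setIntegral_congr_fun (g := fun _ => (0 : ℝ)) measurableSet_Icc]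
      · simp
      · intro x hx
        exact h i _ (insertNth_mem_cube hr hx) (by rw [Fin.insertNth_apply_same]; exact hr)
    rw [h1 1 (Or.inr rfl), h1 0 (Or.inl rfl), sub_zero]

/-- Stokes, all faces vanish -/
theorem cI_dd_zero (θ : Fm k) (h : ∀ i : Fin k, Fz i θ) : cI k (dd k θ) = 0 := by
  cases k with
  | zero =>
    have : dd 0 θ = 0 := by
      unfold dd
      simp
    rw [this, cI_zero]
  | succ k =>
    rw [cI_dd]
    refine Finset.sum_eq_zero fun i _ => ?_
    have h1 : ∀ r : ℝ, (r = 0 ∨ r = 1) →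
        ∫ x in Icc (0 : V k) 1, topE (k + 1) (ee i * ev (i.insertNth r x) θ) = 0 := by
      intro r hr
      rw [setIntegral_congr_fun (g := fun _ => (0 : ℝ)) measurableSet_Icc]
      · simp
      · intro x hx
        exact h i _ (insertNth_mem_cube hr hx) (by rw [Fin.insertNth_apply_same]; exact hr)
    rw [h1 1 (Or.inr rfl), h1 0 (Or.inl rfl), sub_zero]

end Pool.Agent.Lib.MP_ccbbf6_gt.L5
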