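import Pool.Agent.Lib.MP_ccbbf6_gt.L4.FI2
import Pool.Agent.Lib.MP_ccbbf6_gt.L5.EPS01

namespace Pool.Agent.Lib.MP_ccbbf6_gt.Geo
end Pool.Agent.Lib.MP_ccbbf6_gt.Geo

/-!
# Level 5, block PER, part 2: mixed boundary conditions on the cube

`FOK g i`: on each of the two faces `x_i = 0`, `x_i = 1` the map does not depend on one of the other
coordinates, or the two faces agree.
-/

set_option autoImplicit false

open Set Filter Topology MeasureTheory Metric
open scoped ContDiff

noncomputable section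

namespace Pool.Agent.Lib.MP_ccbbf6_gt.L5.PE

open Geo L4 L4.FR

variable {k l n N : ℕ} {α β : Type*}

/-- the boundary condition in the direction `i` -/
def FOK (g : V N → α) (i : Fin N) : Prop :=
  (∀ c : ℝ, (c = 0 ∨ c = 1) → ∃ j, j ≠ i ∧ ∀ x ∈ Icc (0 : V N) 1, x i = c → ∀ t ∈ Icc (0 : ℝ) 1,
    g (Function.update x j t) = g x) ∨
  (∀ x ∈ Icc (0 : V N) 1, x i = 0 → g (Function.update x i 1) = g x)

theorem FOK.map {g : V N → α} {i : Fin N} (h : FOK g i) (f : α → β) : FOK (fun x => f (g x)) i := by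
  rcases h with h | h
  · left
    intro c hc
    obtain ⟨j, hj, h1⟩ := h c hc
    exact ⟨j, hj, fun x hx hxi t ht => congrArg f (h1 x hx hxi t ht)⟩
  · right
    exact fun x hx hxi => congrArg f (h x hx hxi)

theorem update_mem_cube {x : V N} (hx : x ∈ Icc (0 : V N) 1) (j : Fin N) {t : ℝ} (ht : t ∈ Icc (0 : ℝ) 1) :
    Function.update x j t ∈ Icc (0 : V N) 1 := by
  constructor
  · intro i
    by_cases h : i = j
    · subst h
      rw [Function.update_self]
      exact ht.1
    · rw [Function.update_of_ne h]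
      exact hx.1 i
  · intro i
    by_cases h : i = j
    · subst h
      rw [Function.update_self]
      exact ht.2
    · rw [Function.update_of_ne h]
      exact hx.2 i

theorem FOK.congr {g g' : V N → α} {i : Fin N} (h : FOK g i) (e : ∀ x ∈ Icc (0 : V N) 1, g' x = g x) : FOK g' i := by
  rcases h with h | h
  · left
    intro c hc
    obtain ⟨j, hj, h1⟩ := h c hc
    refine ⟨j, hj, fun x hx hxi t ht => ?_⟩
    rw [e _ (update_mem_cube hx j ht), e x hx, h1 x hx hxi t ht]
  · right
    intro x hx hxi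
    rw [e _ (update_mem_cube hx i ⟨zero_le_one, le_rfl⟩), e x hx, h x hx hxi]

/-- the boundary condition for a map with one more parameter -/
theorem FOK.up {g : V N → α} {i : Fin N} (h : FOK g i) (f : ℝ → α → β) :
    FOK (fun x : V (N + 1) => f (x (Fin.last N)) (g (pr N x))) i.castSucc := by
  have hm : ∀ x ∈ Icc (0 : V (N + 1)) 1, pr N x ∈ Icc (0 : V N) 1 := fun x hx =>
    ⟨fun i => hx.1 i.castSucc, fun i => hx.2 i.castSucc⟩
  have hu : ∀ (x : V (N + 1)) (j : Fin N) (t : ℝ), pr N (Function.update x j.castSucc t) = Function.update (pr N x) j t := by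
    intro x j t
    funext i
    change Function.update x j.castSucc t i.castSucc = _
    by_cases h : i = j
    · subst h
      rw [Function.update_self, Function.update_self]
    · rw [Function.update_of_ne h, Function.update_of_ne (fun h' => h (Fin.castSucc_injective _ h'))]
      rfl
  have hl : ∀ (x : V (N + 1)) (j : Fin N) (t : ℝ), Function.update x j.castSucc t (Fin.last N) = x (Fin.last N) :=
    fun x j t => Function.update_of_ne (Fin.castSucc_lt_last j).ne' _ _
  rcases h with h | h
  · left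
    intro c hc
    obtain ⟨j, hj, h1⟩ := h c hc
    refine ⟨j.castSucc, fun h' => hj (Fin.castSucc_injective _ h'), fun x hx hxi t ht => ?_⟩
    beta_reduce
    rw [hl, hu, h1 (pr N x) (hm x hx) hxi t ht]
  · right
    intro x hx hxi
    beta_reduce
    rw [hl, hu, h (pr N x) (hm x hx) hxi]

/-! ### Faces -/

/-- the face `x_i = c` -/
def emb (i : Fin (k + 1)) (c : ℝ) : FR.Sm k (k + 1) := ⟨fun x => i.insertNth c x, contDiff_pi.2 fun j => by
  refine Fin.succAboveCases i ?_ (fun j => ?_) j
  · simp only [Fin.insertNth_apply_same]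
    exact contDiff_const
  · simp only [Fin.insertNth_apply_succAbove]
    exact contDiff_apply ℝ ℝ j⟩

theorem emb_apply (i : Fin (k + 1)) (c : ℝ) (x : V k) : emb i c x = i.insertNth c x := rfl

theorem emb_same (i : Fin (k + 1)) (c : ℝ) (x : V k) : emb i c x i = c := by
  rw [emb_apply, Fin.insertNth_apply_same]

theorem emb_succAbove (i : Fin (k + 1)) (c : ℝ) (x : V k) (j : Fin k) : emb i c x (i.succAbove j) = x j := by
  rw [emb_apply, Fin.insertNth_apply_succAbove]

theorem emb_update (i : Fin (k + 1)) (c : ℝ) (x : V k) (j : Fin k) (t : ℝ) :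
    Function.update (emb i c x) (i.succAbove j) t = emb i c (Function.update x j t) := by
  funext a
  refine Fin.succAboveCases i ?_ (fun a => ?_) a
  · rw [Function.update_of_ne (Fin.succAbove_ne i j).symm, emb_same, emb_same]
  · rw [emb_succAbove]
    by_cases h : a = j
    · subst h
      rw [Function.update_self, Function.update_self]
    · rw [Function.update_of_ne h, Function.update_of_ne (fun h' => h (Fin.succAbove_right_injective h')), emb_succAbove]

theorem emb_update_same (i : Fin (k + 1)) (c c' : ℝ) (x : V k) : Function.update (emb i c x) i c' = emb i c' x := by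
  funext a
  refine Fin.succAboveCases i ?_ (fun a => ?_) a
  · rw [Function.update_self, emb_same]
  · rw [Function.update_of_ne (Fin.succAbove_ne i a), emb_succAbove, emb_succAbove]

/-- forget a coordinate -/
def drp (i : Fin (k + 1)) : V (k + 1) →ₗ[ℝ] V k := LinearMap.funLeft ℝ ℝ i.succAbove

theorem drp_apply (i : Fin (k + 1)) (v : V (k + 1)) (j : Fin k) : drp i v j = v (i.succAbove j) := rfl

theorem topE_ee (i : Fin (k + 1)) (b : Ex (k + 1)) :
    topE (k + 1) (ee i * b) = (-1) ^ (i : ℕ) * topE k (ExteriorAlgebra.map (drp i) b) := by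
  have h : (topE (k + 1)).comp (LinearMap.mulLeft ℝ (ee i)) =
      ((-1 : ℝ) ^ (i : ℕ)) • (topE k).comp (ExteriorAlgebra.map (drp i)).toLinearMap := by
    refine ExteriorAlgebra.lhom_ext fun m => ?_
    ext v
    change topE (k + 1) (ee i * ExteriorAlgebra.ιMulti ℝ m v) =
      (-1 : ℝ) ^ (i : ℕ) * topE k (ExteriorAlgebra.map (drp i) (ExteriorAlgebra.ιMulti ℝ m v))
    have h1 : ee i * ExteriorAlgebra.ιMulti ℝ m v =
        ExteriorAlgebra.ιMulti ℝ (m + 1) (Fin.cons (Pi.single i 1) v : Fin (m + 1) → V (k + 1)) := by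
      rw [ExteriorAlgebra.ιMulti_succ_apply]
      rfl
    rw [h1, ExteriorAlgebra.map_apply_ιMulti]
    by_cases hi : m = k
    · subst hi
      rw [topE_ιMulti, topE_ιMulti, Matrix.det_succ_row_zero, Finset.sum_eq_single i]
      · have h2 : (Matrix.of (Fin.cons (Pi.single i 1) v : Fin (m + 1) → V (m + 1))) 0 i = (1 : ℝ) := by
          simp
        have h3 : ((Matrix.of (Fin.cons (Pi.single i 1) v : Fin (m + 1) → V (m + 1))).submatrix Fin.succ
            i.succAbove) = Matrix.of (drp i ∘ v) := by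
          ext a b
          simp [drp]
        rw [h2, h3, mul_one]
      · intro j _ hj
        have h2 : (Matrix.of (Fin.cons (Pi.single i 1) v : Fin (m + 1) → V (m + 1))) 0 j = (0 : ℝ) := by
          simp [Pi.single_eq_of_ne hj]
        rw [h2]
        ring
      · intro h
        exact absurd (Finset.mem_univ _) h
    · rw [topE_ιMulti_ne hi, topE_ιMulti_ne (fun h => hi (by omega)), mul_zero]
  exact LinearMap.congr_fun h b

/-- the linear part of `emb` -/
def embL (i : Fin (k + 1)) : V k →L[ℝ] V (k + 1) :=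
  ContinuousLinearMap.pi fun j => Fin.insertNth (α := fun _ => V k →L[ℝ] ℝ) i (0 : V k →L[ℝ] ℝ)
    (fun j => ContinuousLinearMap.proj (R := ℝ) (φ := fun _ : Fin k => ℝ) j) j

theorem embL_apply (i : Fin (k + 1)) (x : V k) : embL i x = emb i 0 x := by
  funext a
  change (Fin.insertNth (α := fun _ => V k →L[ℝ] ℝ) i (0 : V k →L[ℝ] ℝ)
    (fun j => ContinuousLinearMap.proj (R := ℝ) (φ := fun _ : Fin k => ℝ) j) a : V k →L[ℝ] ℝ) x = _
  refine Fin.succAboveCases i ?_ (fun a => ?_) a
  · rw [Fin.insertNth_apply_same, emb_same]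
    rfl
  · rw [Fin.insertNth_apply_succAbove, emb_succAbove]
    rfl

theorem hasFDerivAt_emb (i : Fin (k + 1)) (c : ℝ) (x : V k) : HasFDerivAt (emb i c : V k → V (k + 1)) (embL i) x := by
  have h1 : (emb i c : V k → V (k + 1)) = fun x => embL i x + Pi.single i c := by
    funext x a
    rw [embL_apply]
    change _ = emb i 0 x a + (Pi.single i c : V (k + 1)) a
    refine Fin.succAboveCases i ?_ (fun a => ?_) a
    · rw [emb_same, emb_same, Pi.single_eq_same, zero_add]
    · rw [emb_succAbove, emb_succAbove, Pi.single_eq_of_ne (Fin.succAbove_ne i a), add_zero]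
  rw [h1]
  exact (embL i).hasFDerivAt.add_const _

theorem tr_emb (i : Fin (k + 1)) (c : ℝ) (x : V k) : tr (emb i c) x = drp i := by
  rw [tr_eq, (hasFDerivAt_emb i c x).fderiv]
  refine LinearMap.ext fun v => funext fun j => ?_
  rw [drp_apply]
  change ∑ a, v a * embL i (Pi.single j 1) a = _
  rw [Fin.sum_univ_succAbove _ i, embL_apply, emb_same, mul_zero, zero_add, Finset.sum_eq_single j]
  · rw [emb_succAbove, Pi.single_eq_same, mul_one]
  · intro b _ hb
    rw [emb_succAbove, Pi.single_eq_of_ne hb, mul_zero]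
  · intro h
    exact absurd (Finset.mem_univ _) h

theorem ev_emb (i : Fin (k + 1)) (c : ℝ) (p : V k) (θ : Fm (k + 1)) :
    ev p (pb (emb i c) θ) = ExteriorAlgebra.map (drp i) (ev (i.insertNth c p) θ) := by
  rw [ev_pb, tr_emb]
  rfl

theorem top_emb (i : Fin (k + 1)) (c : ℝ) (p : V k) (θ : Fm (k + 1)) :
    topE (k + 1) (ee i * ev (i.insertNth c p) θ) = (-1) ^ (i : ℕ) * topE k (ev p (pb (emb i c) θ)) := by
  rw [topE_ee, ev_emb]

/-- Stokes on the cube -/
theorem cI_dd' (θ : Fm (k + 1)) : cI (k + 1) (dd (k + 1) θ) =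
    ∑ i : Fin (k + 1), (-1) ^ (i : ℕ) * (cI k (pb (emb i 1) θ) - cI k (pb (emb i 0) θ)) := by
  rw [cI_dd]
  refine Finset.sum_congr rfl fun i _ => ?_
  unfold cI
  rw [mul_sub, ← integral_const_mul, ← integral_const_mul]
  simp only [top_emb]

/-- the interior of the cube is enough -/
theorem cI_congr_int {θ τ : Fm k} (h : ∀ x : V k, (∀ i, x i ∈ Ioo (0 : ℝ) 1) → topE k (ev x θ) = topE k (ev x τ)) :
    cI k θ = cI k τ := by
  have h1 : (univ.pi fun i : Fin k => Ioo ((0 : V k) i) ((1 : V k) i)) =ᵐ[volume] Icc (0 : V k) 1 :=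
    Measure.univ_pi_Ioo_ae_eq_Icc
  unfold cI
  rw [← setIntegral_congr_set h1, ← setIntegral_congr_set h1]
  exact setIntegral_congr_fun (MeasurableSet.univ_pi fun _ => measurableSet_Ioo) fun x hx => h x fun i => hx i (mem_univ i)

theorem mem_cube_of_Ioo {x : V k} (h : ∀ i, x i ∈ Ioo (0 : ℝ) 1) : x ∈ Icc (0 : V k) 1 :=
  ⟨fun i => (h i).1.le, fun i => (h i).2.le⟩

theorem eventually_Ioo {x : V k} (h : ∀ i, x i ∈ Ioo (0 : ℝ) 1) : ∀ᶠ z in 𝓝 x, ∀ i : Fin k, z i ∈ Ioo (0 : ℝ) 1 := by
  rw [eventually_all]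
  exact fun i => (isOpen_Ioo.preimage (continuous_apply i)).mem_nhds (h i)

/-- set a coordinate equal to `t` -/
def upd (j : Fin k) (t : ℝ) : FR.Sm k k := ⟨fun x => Function.update x j t, contDiff_pi.2 fun a => by
  by_cases h : a = j
  · subst h
    simp only [Function.update_self]
    exact contDiff_const
  · simp only [Function.update_of_ne h]
    exact contDiff_apply ℝ ℝ a⟩

theorem top_upd (j : Fin k) (t : ℝ) (x : V k) (θ : Fm k) : topE k (ev x (pb (upd j t) θ)) = 0 := by
  rw [ev_pb, topE_map, tr_eq, det_trL]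
  have h1 : (fderiv ℝ (upd j t : V k → V k) x) (Pi.single j 1) = 0 := by
    have h2 : HasDerivAt (fun s : ℝ => x + s • (Pi.single j 1 : V k)) (Pi.single j 1 : V k) 0 := by
      simpa using ((hasDerivAt_id (0 : ℝ)).smul_const (Pi.single j 1 : V k)).const_add x
    have h3 : HasDerivAt (fun s : ℝ => upd j t (x + s • (Pi.single j 1 : V k)))
        ((fderiv ℝ (upd j t : V k → V k) x) (Pi.single j 1)) 0 := by
      have h4 : HasFDerivAt (upd j t : V k → V k) (fderiv ℝ (upd j t : V k → V k) x) (x + (0 : ℝ) • (Pi.single j 1 : V k)) := by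
        rw [zero_smul, add_zero]
        exact ((upd j t).diff x).hasFDerivAt
      exact h4.comp_hasDerivAt (0 : ℝ) h2
    have h5 : (fun s : ℝ => upd j t (x + s • (Pi.single j 1 : V k))) = fun _ => upd j t x := by
      funext s a
      change Function.update (x + s • (Pi.single j 1 : V k)) j t a = Function.update x j t a
      by_cases h : a = j
      · subst h
        rw [Function.update_self, Function.update_self]
      · rw [Function.update_of_ne h, Function.update_of_ne h]
        change x a + s * (Pi.single j 1 : V k) a = x a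
        rw [Pi.single_eq_of_ne h, mul_zero, add_zero]
    rw [h5] at h3
    exact h3.unique (hasDerivAt_const _ _)
  have h2 : (fderiv ℝ (upd j t : V k → V k) x).det = 0 := by
    change LinearMap.det (fderiv ℝ (upd j t : V k → V k) x : V k →ₗ[ℝ] V k) = 0
    by_contra h3
    have h4 := (LinearMap.equivOfDetNeZero _ h3).injective
    have h5 : (Pi.single j 1 : V k) = 0 := by
      apply h4
      rw [map_zero]
      exact h1
    have h6 := congrFun h5 j
    rw [Pi.single_eq_same] at h6
    exact one_ne_zero h6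
  rw [h2, zero_mul]

section loc

variable {X : Space}

/-- the two faces of a form which is locally the pull-back of a form by a map with good boundary conditions -/
theorem FE_of_loc (w : Om X) (G : V (k + 1) → X.pt) {i : Fin (k + 1)} (hG : FOK G i) (θ : Fm (k + 1))
    (hloc : ∀ x ∈ Icc (0 : V (k + 1)) 1, (x i = 0 ∨ x i = 1) → ∃ R : X.Plot (k + 1), R.1 =ᶠ[𝓝 x] G ∧
      ev x θ = ev x (Om.on w R)) :
    cI k (pb (emb i 1) θ) = cI k (pb (emb i 0) θ) := by
  have hmem : ∀ (c : ℝ), (c = 0 ∨ c = 1) → ∀ p : V k, (∀ i, p i ∈ Ioo (0 : ℝ) 1) → emb i c p ∈ Icc (0 : V (k + 1)) 1 :=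
    fun c hc p hp => insertNth_mem_cube hc (mem_cube_of_Ioo hp)
  -- the value on a face
  have hR : ∀ (c : ℝ), (c = 0 ∨ c = 1) → ∀ p : V k, (∀ i, p i ∈ Ioo (0 : ℝ) 1) → ∃ R : X.Plot k,
      (∀ᶠ z in 𝓝 p, R.1 z = G (emb i c z)) ∧ ev p (pb (emb i c) θ) = ev p (Om.on w R) := by
    intro c hc p hp
    obtain ⟨R, hR1, hR2⟩ := hloc _ (hmem c hc p hp) (by rw [emb_same]; exact hc)
    refine ⟨R.cmp (emb i c), (emb i c).smooth.continuous.continuousAt.eventually hR1, ?_⟩
    rw [on_cmp, ev_emb, ev_emb]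
    exact congrArg (ExteriorAlgebra.map (drp i)) hR2
  rcases hG with hG | hG
  · -- both sides vanish
    have h0 : ∀ (c : ℝ), (c = 0 ∨ c = 1) → cI k (pb (emb i c) θ) = 0 := by
      intro c hc
      obtain ⟨j, hji, hj⟩ := hG c hc
      obtain ⟨j, rfl⟩ := Fin.exists_succAbove_eq hji
      rw [← cI_zero (k := k)]
      refine cI_congr_int fun p hp => ?_
      obtain ⟨R, hR1, hR2⟩ := hR c hc p hp
      rw [hR2, map_zero, map_zero]
      have h1 : ∀ᶠ z in 𝓝 p, R.1 z = (R.cmp (upd j (p j))).1 z := by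
        have h2 : (upd j (p j) : V k → V k) p = p := Function.update_eq_self _ _
        have h3 : ∀ᶠ z in 𝓝 p, R.1 (upd j (p j) z) = G (emb i c (upd j (p j) z)) := by
          have h4 : Tendsto (upd j (p j) : V k → V k) (𝓝 p) (𝓝 p) := by
            have := (upd j (p j)).smooth.continuous.tendsto p
            rwa [h2] at this
          exact h4.eventually hR1
        filter_upwards [hR1, h3, eventually_Ioo hp] with z hz1 hz2 hz3
        change R.1 z = R.1 (upd j (p j) z)
        rw [hz1, hz2]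
        change _ = G (emb i c (Function.update z j (p j)))
        rw [← emb_update]
        exact (hj _ (hmem c hc z hz3) (emb_same _ _ _) _ ⟨(hp j).1.le, (hp j).2.le⟩).symm
      rw [ev_on_congr w h1, on_cmp]
      exact top_upd _ _ _ _
    rw [h0 1 (Or.inr rfl), h0 0 (Or.inl rfl)]
  · refine cI_congr_int fun p hp => ?_
    obtain ⟨R1, hR1, hR1'⟩ := hR 1 (Or.inr rfl) p hp
    obtain ⟨R0, hR0, hR0'⟩ := hR 0 (Or.inl rfl) p hp
    rw [hR1', hR0']
    congr 1
    refine ev_on_congr w ?_
    filter_upwards [hR1, hR0, eventually_Ioo hp] with z hz1 hz0 hz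
    rw [hz1, hz0, ← emb_update_same i 0 1]
    exact hG _ (hmem 0 (Or.inl rfl) z hz) (emb_same _ _ _)

theorem FE_on (w : Om X) (p : X.Plot (k + 1)) {i : Fin (k + 1)} (h : FOK p.1 i) :
    cI k (pb (emb i 1) (Om.on w p)) = cI k (pb (emb i 0) (Om.on w p)) :=
  FE_of_loc w p.1 h _ fun _ _ _ => ⟨p, EventuallyEq.rfl, rfl⟩

/-- **Stokes' theorem with mixed boundary conditions** -/
theorem cI_dd_FOK (w : Om X) (p : X.Plot k) (h : ∀ i, FOK p.1 i) : cI k (dd k (Om.on w p)) = 0 := by
  cases k with
  | zero =>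
    have : dd 0 (Om.on w p) = 0 := by
      unfold dd
      simp
    rw [this, cI_zero]
  | succ k =>
    rw [cI_dd']
    refine Finset.sum_eq_zero fun i _ => ?_
    rw [FE_on w p (h i), sub_self, mul_zero]

end loc

/-- the vector space as a space -/
def spV (l : ℕ) : Space where
  pt := V l
  Pl _ := {p | ContDiff ℝ ∞ p}
  pre := fun {_ _ _} hp g => (show ContDiff ℝ ∞ _ from hp).comp g.smooth

/-- a plot as a smooth map -/
def smS (p : (spV l).Plot k) : FR.Sm k l := ⟨p.1, p.2⟩

theorem smS_cmp {m : ℕ} (p : (spV l).Plot m) (g : FR.Sm k m) : smS (p.cmp g) = (smS p).comp g := rfl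

/-- a form on the vector space -/
def omV (τ : Fm l) : Om (spV l) := mkO (fun _ p => pb (smS p) τ) fun k m p g => by
  rw [smS_cmp, pb_comp]

/-- a smooth map as a plot -/
def plS (g : FR.Sm k l) : (spV l).Plot k := ⟨g.1, g.2⟩

theorem smS_plS (g : FR.Sm k l) : smS (plS g) = g := rfl

theorem on_omV (τ : Fm l) (g : FR.Sm k l) : Om.on (omV τ) (plS g) = pb g τ := by
  unfold omV
  rw [on_mkO, smS_plS]

theorem FE_pb (τ : Fm l) (g : FR.Sm (k + 1) l) {i : Fin (k + 1)} (h : FOK (g : V (k + 1) → V l) i) :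
    cI k (pb (emb i 1) (pb g τ)) = cI k (pb (emb i 0) (pb g τ)) := by
  rw [← on_omV]
  exact FE_on (omV τ) (plS g) h

end Pool.Agent.Lib.MP_ccbbf6_gt.L5.PE

namespace Pool.Agent.Lib.MP_ccbbf6_gt.L5

export PE (FOK cI_dd_FOK)

end Pool.Agent.Lib.MP_ccbbf6_gt.L5
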