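import Pool.Agent.Lib.MP_ccbbf6_gt.L5.MF
import Pool.Agent.Lib.MP_ccbbf6_gt.L5.PER02

namespace Pool.Agent.Lib.MP_ccbbf6_gt.L5.IB
end Pool.Agent.Lib.MP_ccbbf6_gt.L5.IB

/-!
# Level 5, X5 with mixed faces, file 0: forms without a direction, local retracts, Stokes with mixed faces (helper77)

* `HorE w` : the subalgebra of the exterior algebra of elements without the direction `w`; `topE_HorE` : no top degree part;
* `LR X j` : the space `X` is locally a smooth retract of a vector space (embedding `j`);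
* `FC F i` : boundary condition in the direction `i` for a family of functions on the cube: the two faces agree, or at every
  point of the two faces there is a common direction in the face in which the derivatives vanish;
* `cI_dd_FJ` : Stokes' theorem.
-/

set_option autoImplicit false
set_option maxSynthPendingDepth 3
set_option linter.unusedSectionVars false

open Set Filter Topology Matrix Function
open scoped ContDiff

noncomputable section

namespace Pool.Agent.Lib.MP_ccbbf6_gt.L5.IC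

open L4 L4.FR IB

variable {N k l D : ℕ} {X : Space}

/-! ### elements without a direction -/

/-- the orthogonal projection to the complement of `w` -/
def prw (w : V k) : V k →ₗ[ℝ] V k where
  toFun v := v - ((∑ i, v i * w i) / ∑ i, w i * w i) • w
  map_add' v v' := by
    have h1 : ∑ i, (v + v') i * w i = ∑ i, v i * w i + ∑ i, v' i * w i := by
      rw [← Finset.sum_add_distrib]
      exact Finset.sum_congr rfl fun i _ => add_mul _ _ _
    rw [h1, add_div, add_smul]
    abel
  map_smul' c v := by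
    have h1 : ∑ i, (c • v) i * w i = c * ∑ i, v i * w i := by
      rw [Finset.mul_sum]
      exact Finset.sum_congr rfl fun i _ => mul_assoc _ _ _
    rw [h1, mul_div_assoc, mul_smul, ← smul_sub]
    rfl

theorem prw_apply (w v : V k) : prw w v = v - ((∑ i, v i * w i) / ∑ i, w i * w i) • w := rfl

theorem prw_self {w : V k} (hw : w ≠ 0) : prw w w = 0 := by
  have h1 : ∑ i, w i * w i ≠ 0 := by
    intro h
    apply hw
    funext i
    have h2 := (Finset.sum_eq_zero_iff_of_nonneg (fun i _ => mul_self_nonneg (w i))).1 h i (Finset.mem_univ i)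
    exact mul_self_eq_zero.1 h2
  rw [prw_apply, div_self h1, one_smul, sub_self]

theorem prw_of {w v : V k} (h : ∑ i, v i * w i = 0) : prw w v = v := by
  rw [prw_apply, h, zero_div, zero_smul, sub_zero]

theorem det_prw {w : V k} (hw : w ≠ 0) : LinearMap.det (prw w) = 0 := by
  by_contra h
  have h1 := (LinearMap.equivOfDetNeZero _ h).injective
  refine hw (h1 ?_)
  rw [map_zero]
  exact prw_self hw

/-- elements without the direction `w` -/
def HorE (w : V k) : Subalgebra ℝ (Ex k) := AlgHom.equalizer (ExteriorAlgebra.map (prw w)) (AlgHom.id ℝ _)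

theorem mem_HorE {w : V k} {x : Ex k} : x ∈ HorE w ↔ ExteriorAlgebra.map (prw w) x = x := Iff.rfl

theorem topE_HorE {w : V k} (hw : w ≠ 0) {x : Ex k} (h : x ∈ HorE w) : topE k x = 0 := by
  rw [← mem_HorE.1 h, topE_map, det_prw hw, zero_mul]

theorem ι_mem {w v : V k} (h : ∑ i, v i * w i = 0) : ExteriorAlgebra.ι ℝ v ∈ HorE w := by
  rw [mem_HorE, ExteriorAlgebra.map_apply_ι, prw_of h]

theorem ee_mem {w : V k} {i : Fin k} (h : w i = 0) : ee i ∈ HorE w := by
  refine ι_mem ?_
  rw [Finset.sum_eq_single i, h, mul_zero]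
  · intro j _ hj
    rw [Pi.single_eq_of_ne hj, zero_mul]
  · intro h1
    exact absurd (Finset.mem_univ i) h1

theorem map_mem {w : V k} {L : V l →ₗ[ℝ] V k} (h : ∀ v, ∑ i, L v i * w i = 0) (x : Ex l) :
    ExteriorAlgebra.map L x ∈ HorE w := by
  rw [mem_HorE]
  have h1 : (ExteriorAlgebra.map (prw w)).comp (ExteriorAlgebra.map L) = ExteriorAlgebra.map L := by
    rw [ExteriorAlgebra.map_comp_map]
    congr 1
    exact LinearMap.ext fun v => prw_of (h v)
  exact DFunLike.congr_fun h1 x

/-- forms which do not involve the direction `w` at the point `x` -/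
def KS (x w : V k) : Subalgebra ℝ (Fm k) := (HorE w).comap (ev x)

theorem mem_KS {x w : V k} {θ : Fm k} : θ ∈ KS x w ↔ ev x θ ∈ HorE w := Iff.rfl

theorem fc_mem (x w : V k) (f : Cs k) : fc k f ∈ KS x w := by
  rw [mem_KS, ev_fc]
  exact (HorE w).algebraMap_mem _

theorem dd_fc_mem {x w : V k} {f : Cs k} (h : fderiv ℝ (f : V k → ℝ) x w = 0) : dd k (fc k f) ∈ KS x w := by
  rw [mem_KS, ev_dd_fc]
  refine ι_mem ?_
  have h1 : ∀ i, (pd i f : V k → ℝ) x * w i = fderiv ℝ (f : V k → ℝ) x (w i • (Pi.single i 1 : V k)) := fun i => by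
    rw [pd_apply, map_smul, smul_eq_mul, mul_comm]
  have h5 : w = ∑ i, w i • (Pi.single i (1 : ℝ) : V k) := by
    ext a
    simp [Finset.sum_apply, Pi.single_apply]
  simp only [h1]
  rw [← map_sum, ← h5, h]

/-- the coefficient of the face vanishes -/
theorem topE_KS {x w : V k} (hw : w ≠ 0) {i : Fin k} (hi : w i = 0) {θ : Fm k} (h : θ ∈ KS x w) :
    topE k (ee i * ev x θ) = 0 := topE_HorE hw ((HorE w).mul_mem (ee_mem hi) h)

theorem ev_pb_mem {x w : V k} (g : FR.Sm k l) (h : fderiv ℝ (g : V k → V l) x w = 0) (τ : Fm l) : pb g τ ∈ KS x w := by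
  rw [mem_KS, ev_pb]
  refine map_mem (fun v => ?_) _
  rw [tr_eq, trL_dot, h]
  exact Finset.sum_eq_zero fun j _ => mul_zero _

/-! ### local retracts -/

/-- spaces which are locally smooth retracts of a vector space -/
structure LR (X : Space) (j : X.pt → V D) : Prop where
  sm : ∀ (k : ℕ) (p : X.Plot k), ContDiff ℝ ∞ fun z => j (p.1 z)
  ret : ∀ x : X.pt, ∃ Q : X.Plot D, ∀ᶠ z in 𝓝 (j x), ∀ y : X.pt, j y = z → Q.1 z = y

variable {j : X.pt → V D}

/-- the coordinates of a plot -/
def LR.cd (h : LR X j) (p : X.Plot k) : FR.Sm k D := ⟨fun z => j (p.1 z), h.sm k p⟩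

theorem LR.fac (h : LR X j) (p : X.Plot k) (x : V k) : ∃ Q : X.Plot D, p.1 =ᶠ[𝓝 x] (Q.cmp (h.cd p)).1 := by
  obtain ⟨Q, hQ⟩ := h.ret (p.1 x)
  refine ⟨Q, ?_⟩
  have h1 : Tendsto (fun z => j (p.1 z)) (𝓝 x) (𝓝 (j (p.1 x))) := (h.sm k p).continuous.continuousAt
  filter_upwards [h1.eventually hQ] with z hz
  exact (hz (p.1 z) rfl).symm

theorem LR.mem (h : LR X j) (p : X.Plot k) {x w : V k} (hw : fderiv ℝ (fun z => j (p.1 z)) x w = 0) (τ : Om X) :
    Om.on τ p ∈ KS x w := by
  obtain ⟨Q, hQ⟩ := h.fac p x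
  rw [mem_KS, ev_on_congr τ hQ, on_cmp]
  exact ev_pb_mem (h.cd p) hw _

theorem LR.fn (h : LR X j) (p : X.Plot k) {x w : V k} (hw : fderiv ℝ (fun z => j (p.1 z)) x w = 0) (g : SF X) :
    fderiv ℝ (fun z => g.1 (p.1 z)) x w = 0 := by
  obtain ⟨Q, hQ⟩ := h.fac p x
  have h1 : (fun z => g.1 (p.1 z)) =ᶠ[𝓝 x] fun z => (fun y => g.1 (Q.1 y)) (j (p.1 z)) := by
    filter_upwards [hQ] with z hz
    exact congrArg (fun y => g.1 y) hz
  have h2 : DifferentiableAt ℝ (fun y => g.1 (Q.1 y)) (j (p.1 x)) :=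
    ((show ContDiff ℝ ∞ fun y => g.1 (Q.1 y) from g.2 D Q).differentiable (by simp)).differentiableAt
  have h3 : DifferentiableAt ℝ (fun z => j (p.1 z)) x := ((h.sm k p).differentiable (by simp)).differentiableAt
  rw [h1.fderiv_eq, fderiv_fun_comp x h2 h3]
  show fderiv ℝ (fun y => g.1 (Q.1 y)) (j (p.1 x)) (fderiv ℝ (fun z => j (p.1 z)) x w) = 0
  rw [hw, map_zero]

/-! ### boundary conditions -/

/-- boundary condition in the direction `i` for a family of functions -/
def FC {α : Type*} (F : α → Cs k) (i : Fin k) : Prop :=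
  (∀ x ∈ Icc (0 : V k) 1, ∀ a, (F a : V k → ℝ) (update x i 1) = (F a : V k → ℝ) (update x i 0)) ∨
  (∀ x ∈ Icc (0 : V k) 1, (x i = 0 ∨ x i = 1) → ∃ w : V k, w ≠ 0 ∧ w i = 0 ∧ ∀ a, fderiv ℝ (F a : V k → ℝ) x w = 0)

/-- boundary condition in the direction `i` for a plot -/
def FJ (j : X.pt → V D) (p : V k → X.pt) (i : Fin k) : Prop :=
  (∀ x ∈ Icc (0 : V k) 1, p (update x i 1) = p (update x i 0)) ∨
  (∀ x ∈ Icc (0 : V k) 1, (x i = 0 ∨ x i = 1) → ∃ w : V k, w ≠ 0 ∧ w i = 0 ∧ fderiv ℝ (fun z => j (p z)) x w = 0)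

/-- **Stokes' theorem with mixed boundary conditions** -/
theorem LR.stokes (h : LR X j) (p : X.Plot k) (hF : ∀ i, FJ j p.1 i) (τ : Om X) : cI k (dd k (Om.on τ p)) = 0 := by
  cases k with
  | zero =>
    have : dd 0 (Om.on τ p) = 0 := by
      unfold dd
      simp
    rw [this, cI_zero]
  | succ k =>
    rw [PE.cI_dd']
    refine Finset.sum_eq_zero fun i _ => ?_
    rcases hF i with h1 | h1
    · have h2 : PE.FOK p.1 i := by
        right
        intro x hx hxi
        have h3 : update x i 0 = x := by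
          rw [← hxi]
          exact update_eq_self i x
        rw [h1 x hx, h3]
      rw [PE.FE_on τ p h2, sub_self, mul_zero]
    · have h0 : ∀ c : ℝ, (c = 0 ∨ c = 1) → cI k (pb (PE.emb i c) (Om.on τ p)) = 0 := by
        intro c hc
        refine (cI_congr (τ := 0) fun x hx => ?_).trans cI_zero
        obtain ⟨w, hw, hwi, hw1⟩ := h1 (PE.emb i c x) (insertNth_mem_cube hc hx) (by rw [PE.emb_same]; exact hc)
        have h2 := topE_KS hw hwi (h.mem p hw1 τ)
        have h3 := PE.top_emb i c x (Om.on τ p)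
        rw [← PE.emb_apply, h2] at h3
        rw [map_zero (ev x), map_zero]
        rcases mul_eq_zero.1 h3.symm with h4 | h4
        · exact absurd h4 (pow_ne_zero _ (by norm_num))
        · exact h4
      rw [h0 1 (Or.inr rfl), h0 0 (Or.inl rfl), sub_self, mul_zero]

/-- functions of a plot -/
theorem LR.fc (h : LR X j) (p : X.Plot k) {i : Fin k} (hF : FJ j p.1 i) {α : Type*} {F : α → Cs k} (g : α → SF X)
    (hg : ∀ a z, (F a : V k → ℝ) z = (g a).1 (p.1 z)) : FC F i := by
  rcases hF with h1 | h1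
  · left
    intro x hx a
    rw [hg, hg, h1 x hx]
  · right
    intro x hx hxi
    obtain ⟨w, hw, hwi, hw1⟩ := h1 x hx hxi
    refine ⟨w, hw, hwi, fun a => ?_⟩
    have h2 : (F a : V k → ℝ) = fun z => (g a).1 (p.1 z) := funext fun z => hg a z
    rw [h2]
    exact h.fn p hw1 (g a)

/-- the boundary condition only depends on a neighbourhood of the cube -/
theorem FC.loc {α : Type*} {F F' : α → Cs k} {i : Fin k} (h : FC F i)
    (he : ∀ x ∈ Icc (0 : V k) 1, ∀ a, (F' a : V k → ℝ) =ᶠ[𝓝 x] (F a : V k → ℝ)) : FC F' i := by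
  rcases h with h | h
  · left
    intro x hx a
    rw [(he _ (PE.update_mem_cube hx i ⟨zero_le_one, le_rfl⟩) a).self_of_nhds,
      (he _ (PE.update_mem_cube hx i ⟨le_rfl, zero_le_one⟩) a).self_of_nhds]
    exact h x hx a
  · right
    intro x hx hxi
    obtain ⟨w, hw, hwi, hw1⟩ := h x hx hxi
    refine ⟨w, hw, hwi, fun a => ?_⟩
    rw [(he x hx a).fderiv_eq]
    exact hw1 a

theorem FC.sub {α β : Type*} {F : α → Cs k} {i : Fin k} (h : FC F i) (s : β → α) : FC (fun b => F (s b)) i := by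
  rcases h with h | h
  · exact Or.inl fun x hx b => h x hx (s b)
  · right
    intro x hx hxi
    obtain ⟨w, hw, hwi, hw1⟩ := h x hx hxi
    exact ⟨w, hw, hwi, fun b => hw1 (s b)⟩

end Pool.Agent.Lib.MP_ccbbf6_gt.L5.IC
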