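import Pool.Agent.Lib.MP_ccbbf6_gt.L5.IC2
import Pool.Agent.Lib.MP_ccbbf6_gt.L5.IM0

/-!
# Level 5, X5 with mixed faces, file 1: the space of hermitian projections (helper77)

`spH ι r U` : hermitian idempotent complex matrices of trace `r` in the open set `U`. `LRH` : it is a local retract of the
vector space of matrices; `Taut` : the tautological matrix; `plH` : plots from matrices of functions.
-/

set_option autoImplicit false
set_option maxSynthPendingDepth 3
set_option linter.unusedSectionVars false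

open Set Filter Topology Matrix Function
open scoped ContDiff ComplexOrder

noncomputable section

namespace Pool.Agent.Lib.MP_ccbbf6_gt.L5.IC

open L4 L4.FR IB

variable {N k r : ℕ} {ι : Type} [Fintype ι] [DecidableEq ι]

/-! ### hermitian idempotents over a commutative algebra -/

/-- hermitian idempotents of trace `r` -/
structure HA {A : Type*} [CommRing A] [Algebra ℝ A] (r : ℕ) (P : Matrix ι ι (CB A)) : Prop where
  idem : P * P = P
  herm : (Pᵀ).map CB.conj = P
  tr : trace P = (r : CB A)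

theorem HA.hi {X : Space} {P : Matrix ι ι (CB (SF X))} (h : HA r P) : HI r P := ⟨h.idem, h.herm, h.tr⟩
theorem HI.ha {X : Space} {P : Matrix ι ι (CB (SF X))} (h : HI r P) : HA r P := ⟨h.idem, h.herm, h.tr⟩

/-! ### the retraction -/

/-- the operator whose inverse is used -/
def Cm (A0 A : Matrix ι ι ℂ) : Matrix ι ι ℂ := (A * A0)ᴴ * (A * A0) + (1 - A0)

/-- the projection to the range of `A A0` -/
def Qm (A0 A : Matrix ι ι ℂ) : Matrix ι ι ℂ := A * A0 * (Cm A0 A)⁻¹ * (A * A0)ᴴ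

section alg

variable {A0 A : Matrix ι ι ℂ}

theorem Cm_herm (h0 : A0ᴴ = A0) : (Cm A0 A)ᴴ = Cm A0 A := by
  unfold Cm
  rw [conjTranspose_add, conjTranspose_mul, conjTranspose_conjTranspose, conjTranspose_sub, conjTranspose_one, h0]

theorem Qm_herm (h0 : A0ᴴ = A0) : (Qm A0 A)ᴴ = Qm A0 A := by
  unfold Qm
  rw [conjTranspose_mul (A * A0 * (Cm A0 A)⁻¹), conjTranspose_conjTranspose, conjTranspose_mul (A * A0) (Cm A0 A)⁻¹,
    conjTranspose_nonsing_inv, Cm_herm h0, Matrix.mul_assoc (A * A0)]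

theorem Cm_right (hi : A0 * A0 = A0) : Cm A0 A * (1 - A0) = 1 - A0 := by
  unfold Cm
  have h1 : A0 * (1 - A0) = 0 := by rw [Matrix.mul_sub, Matrix.mul_one, hi, sub_self]
  have h2 : (1 - A0) * (1 - A0) = 1 - A0 := by rw [Matrix.sub_mul, Matrix.one_mul, h1, sub_zero]
  rw [Matrix.add_mul, h2, Matrix.mul_assoc, Matrix.mul_assoc A A0, h1, Matrix.mul_zero, Matrix.mul_zero, zero_add]

theorem Cm_inv_right (hi : A0 * A0 = A0) (hu : IsUnit (Cm A0 A).det) : (Cm A0 A)⁻¹ * (1 - A0) = 1 - A0 := by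
  have h1 : (Cm A0 A)⁻¹ * (Cm A0 A * (1 - A0)) = (Cm A0 A)⁻¹ * (1 - A0) := by rw [Cm_right hi]
  rw [← Matrix.mul_assoc, Matrix.nonsing_inv_mul _ hu, Matrix.one_mul] at h1
  exact h1.symm

theorem BB (A0 A : Matrix ι ι ℂ) : (A * A0)ᴴ * (A * A0) = Cm A0 A - (1 - A0) := by
  unfold Cm
  rw [add_sub_cancel_right]

theorem Qm_idem (hi : A0 * A0 = A0) (hu : IsUnit (Cm A0 A).det) : Qm A0 A * Qm A0 A = Qm A0 A := by
  have h1 : (Cm A0 A)⁻¹ * ((A * A0)ᴴ * (A * A0)) * (Cm A0 A)⁻¹ = (Cm A0 A)⁻¹ - (1 - A0) * (Cm A0 A)⁻¹ := by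
    rw [BB, Matrix.mul_sub, Matrix.nonsing_inv_mul _ hu, Cm_inv_right hi hu, Matrix.sub_mul, Matrix.one_mul]
  have h2 : A * A0 * (1 - A0) = 0 := by
    rw [Matrix.mul_assoc, Matrix.mul_sub, Matrix.mul_one, hi, sub_self, Matrix.mul_zero]
  have h3 : Qm A0 A * Qm A0 A = A * A0 * ((Cm A0 A)⁻¹ * ((A * A0)ᴴ * (A * A0)) * (Cm A0 A)⁻¹) * (A * A0)ᴴ := by
    unfold Qm
    simp only [Matrix.mul_assoc]
  rw [h3, h1, Matrix.mul_sub, ← Matrix.mul_assoc (A * A0), h2, Matrix.zero_mul, sub_zero]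
  rfl

theorem Qm_trace (hi : A0 * A0 = A0) (hu : IsUnit (Cm A0 A).det) : trace (Qm A0 A) = trace A0 := by
  have h1 : trace (Qm A0 A) = trace ((A * A0)ᴴ * (A * A0) * (Cm A0 A)⁻¹) := by
    unfold Qm
    rw [Matrix.trace_mul_comm, ← Matrix.mul_assoc]
  rw [h1, BB, Matrix.sub_mul, Matrix.mul_nonsing_inv _ hu, Matrix.trace_sub, Matrix.trace_one, Matrix.trace_mul_comm (1 - A0),
    Cm_inv_right hi hu, Matrix.trace_sub, Matrix.trace_one, sub_sub_cancel]

/-- projections near `A0` are fixed -/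
theorem Qm_self (h0 : A0ᴴ = A0) (hi : A0 * A0 = A0) (hu : IsUnit (Cm A0 A).det) (hA : A * A = A) (hh : Aᴴ = A)
    (ht : trace A = trace A0) : Qm A0 A = A := by
  have h1 : A * Qm A0 A = Qm A0 A := by
    unfold Qm
    simp only [← Matrix.mul_assoc, hA]
  have h2 : Qm A0 A * A = Qm A0 A := by
    have h3 := congrArg conjTranspose h1
    rwa [conjTranspose_mul, Qm_herm h0, hh] at h3
  have h3 : (A - Qm A0 A) * (A - Qm A0 A) = A - Qm A0 A := by
    rw [Matrix.sub_mul, Matrix.mul_sub, Matrix.mul_sub, hA, h1, h2, Qm_idem hi hu, sub_self, sub_zero]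
  have h4 : (A - Qm A0 A)ᴴ = A - Qm A0 A := by rw [conjTranspose_sub, hh, Qm_herm h0]
  have h5 : A - Qm A0 A = 0 := by
    refine Matrix.trace_conjTranspose_mul_self_eq_zero_iff.1 ?_
    rw [h4, h3, Matrix.trace_sub, ht, Qm_trace hi hu, sub_self]
  exact (sub_eq_zero.1 h5).symm

theorem Cm_self (h0 : A0ᴴ = A0) (hi : A0 * A0 = A0) : Cm A0 A0 = 1 := by
  unfold Cm
  rw [hi, h0, hi, add_sub_cancel]

theorem Qm_zero (h0 : A0ᴴ = A0) (hi : A0 * A0 = A0) : Qm A0 A0 = A0 := by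
  refine Qm_self h0 hi ?_ hi h0 rfl
  rw [Cm_self h0 hi, Matrix.det_one]
  exact isUnit_one

end alg

/-! ### smoothness -/

section smooth

variable {F : Type*} [NormedAddCommGroup F] [NormedSpace ℝ F]

/-- smooth families of matrices -/
def SmM {κ : Type*} (M : F → Matrix ι κ ℂ) (x : F) : Prop := ∀ i j, ContDiffAt ℝ ∞ (fun z => M z i j) x

variable {M M' : F → Matrix ι ι ℂ} {x : F}

theorem SmM.mul (h : SmM M x) (h' : SmM M' x) : SmM (fun z => M z * M' z) x := by
  intro i j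
  show ContDiffAt ℝ ∞ (fun z => (M z * M' z) i j) x
  simp only [Matrix.mul_apply]
  exact ContDiffAt.sum fun l _ => (h i l).mul (h' l j)

theorem SmM.star (h : SmM M x) : SmM (fun z => (M z)ᴴ) x := by
  intro i j
  exact (Complex.conjCLE.contDiff.contDiffAt (x := M x j i)).comp x (h j i)

theorem SmM.add_const (h : SmM M x) (C : Matrix ι ι ℂ) : SmM (fun z => M z + C) x := by
  intro i j
  exact (h i j).add contDiffAt_const

theorem SmM.det (h : SmM M x) : ContDiffAt ℝ ∞ (fun z => (M z).det) x := by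
  simp only [Matrix.det_apply]
  refine ContDiffAt.sum fun σ _ => ?_
  have h1 : ContDiffAt ℝ ∞ (fun z => ∏ i, M z (σ i) i) x := contDiffAt_prod fun i _ => h (σ i) i
  have h2 : (fun z => Equiv.Perm.sign σ • ∏ i, M z (σ i) i) = fun z => ((Equiv.Perm.sign σ : ℤ) : ℂ) * ∏ i, M z (σ i) i := by
    funext z
    rw [Units.smul_def, zsmul_eq_mul]
  rw [h2]
  exact contDiffAt_const.mul h1

theorem SmM.adjugate (h : SmM M x) : SmM (fun z => (M z).adjugate) x := by
  intro i j
  show ContDiffAt ℝ ∞ (fun z => (M z).adjugate i j) x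
  simp only [Matrix.adjugate_apply]
  refine SmM.det fun a b => ?_
  by_cases hab : a = j
  · subst hab
    simp only [Matrix.updateRow_self]
    exact contDiffAt_const
  · simp only [Matrix.updateRow_ne hab]
    exact h a b

theorem SmM.inv (h : SmM M x) (hx : (M x).det ≠ 0) : SmM (fun z => (M z)⁻¹) x := by
  intro i j
  have h1 : (fun z => (M z)⁻¹ i j) = fun z => ((M z).det)⁻¹ * (M z).adjugate i j := by
    funext z
    rw [Matrix.inv_def, Ring.inverse_eq_inv']
    rfl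
  rw [h1]
  exact (h.det.inv hx).mul (h.adjugate i j)

theorem SmM.Cm (h : SmM M x) (A0 : Matrix ι ι ℂ) : SmM (fun z => Cm A0 (M z)) x := by
  have h1 : SmM (fun z => M z * A0) x := h.mul fun i j => contDiffAt_const
  exact (h1.star.mul h1).add_const _

theorem SmM.Qm (h : SmM M x) (A0 : Matrix ι ι ℂ) (hx : (IC.Cm A0 (M x)).det ≠ 0) : SmM (fun z => Qm A0 (M z)) x := by
  have h1 : SmM (fun z => M z * A0) x := h.mul fun i j => contDiffAt_const
  exact (h1.mul ((h.Cm A0).inv hx)).mul h1.star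

end smooth

/-! ### the space -/

/-- a matrix as a function -/
def mf (A : Matrix ι ι ℂ) : ι → ι → ℂ := fun i j => A i j

theorem mf_inj {A B : Matrix ι ι ℂ} (h : mf A = mf B) : A = B := h

/-- hermitian projections of rank `r` in the set `U` -/
def spH (ι : Type) [Fintype ι] [DecidableEq ι] (r : ℕ) (U : Set (ι → ι → ℂ)) : Space where
  pt := {A : Matrix ι ι ℂ // A * A = A ∧ Aᴴ = A ∧ trace A = r ∧ mf A ∈ U}
  Pl _ := {p | ContDiff ℝ ∞ fun z => mf (p z).1}
  pre := fun {_ _ _} hp g => (show ContDiff ℝ ∞ _ from hp).comp g.smooth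

variable {U : Set (ι → ι → ℂ)}

/-- dimension of the space of matrices -/
def dH (ι : Type) [Fintype ι] : ℕ := Module.finrank ℝ (ι → ι → ℂ)

/-- coordinates -/
def eH (ι : Type) [Fintype ι] : (ι → ι → ℂ) ≃L[ℝ] V (dH ι) :=
  ContinuousLinearEquiv.ofFinrankEq (by rw [Module.finrank_fin_fun]; rfl)

/-- the embedding -/
def jH (A : (spH ι r U).pt) : V (dH ι) := eH ι (mf A.1)

theorem LRH (hU : IsOpen U) : LR (spH ι r U) jH where
  sm k p := (eH ι).contDiff.comp (show ContDiff ℝ ∞ fun z => mf (p.1 z).1 from p.2)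
  ret x := by
    obtain ⟨A0, hi, h0, ht, hA0U⟩ := x
    -- the good set
    obtain ⟨Mz, hMzd⟩ : ∃ Mz : V (dH ι) → Matrix ι ι ℂ, ∀ z, mf (Mz z) = (eH ι).symm z := ⟨fun z => (eH ι).symm z, fun z => rfl⟩
    have hMs : ∀ z, SmM Mz z := fun z i j => by
      have h1 : (fun z => Mz z i j) = fun z => (eH ι).symm z i j := funext fun z => congrFun (congrFun (hMzd z) i) j
      rw [h1]
      exact ((contDiff_apply_apply ℝ ℂ i j).comp (eH ι).symm.contDiff).contDiffAt
    have hMz0 : Mz (eH ι (mf A0)) = A0 := mf_inj (by rw [hMzd, (eH ι).symm_apply_apply])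
    obtain ⟨z0, hz0⟩ : ∃ z0, z0 = eH ι (mf A0) := ⟨_, rfl⟩
    rw [← hz0] at hMz0
    have h1 : ∀ᶠ z in 𝓝 z0, (Cm A0 (Mz z)).det ≠ 0 := by
      have h2 : ContinuousAt (fun z => (Cm A0 (Mz z)).det) z0 := (((hMs z0).Cm A0).det).continuousAt
      refine h2.eventually_ne ?_
      rw [hMz0, Cm_self h0 hi, Matrix.det_one]
      exact one_ne_zero
    have h3 : ∀ᶠ z in 𝓝 z0, mf (Qm A0 (Mz z)) ∈ U := by
      have h4 : ContinuousAt (fun z => mf (Qm A0 (Mz z))) z0 := by
        rw [continuousAt_pi]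
        intro i
        rw [continuousAt_pi]
        intro j
        exact ((hMs z0).Qm A0 h1.self_of_nhds i j).continuousAt
      refine h4.eventually (hU.mem_nhds ?_)
      show mf (Qm A0 (Mz z0)) ∈ U
      rw [hMz0, Qm_zero h0 hi]
      exact hA0U
    obtain ⟨κ, hκ1, hκ2⟩ := exists_sq z0 (h1.and h3)
    have hu : ∀ z, IsUnit (Cm A0 (Mz (κ z))).det := fun z => (hκ2 z).1.isUnit
    refine ⟨⟨fun z => ⟨Qm A0 (Mz (κ z)), Qm_idem hi (hu z), Qm_herm h0, (Qm_trace hi (hu z)).trans ht, (hκ2 z).2⟩, ?_⟩, ?_⟩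
    · show ContDiff ℝ ∞ fun z => mf (Qm A0 (Mz (κ z)))
      refine contDiff_pi.2 fun i => contDiff_pi.2 fun j => ?_
      rw [contDiff_iff_contDiffAt]
      intro z
      have h5 : SmM (fun z => Mz (κ z)) z := fun a b =>
        ContDiffAt.comp (g := fun w => Mz w a b) z (hMs (κ z) a b) κ.smooth.contDiffAt
      exact h5.Qm A0 (hκ2 z).1 i j
    · have hj : jH (⟨A0, hi, h0, ht, hA0U⟩ : (spH ι r U).pt) = z0 := hz0.symm
      rw [hj]
      filter_upwards [hκ1, h1] with z hz hz1 y hy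
      refine Subtype.ext ?_
      show Qm A0 (Mz (κ z)) = y.1
      have h6 : Mz z = y.1 := mf_inj (by
        rw [hMzd, ← hy]
        exact (eH ι).symm_apply_apply _)
      rw [hz, h6]
      rw [h6] at hz1
      exact Qm_self h0 hi hz1.isUnit y.2.1 y.2.2.1 (by rw [y.2.2.2.1, ht])

/-! ### the tautological matrix -/

/-- the tautological matrix -/
def Taut (ι : Type) [Fintype ι] [DecidableEq ι] (r : ℕ) (U : Set (ι → ι → ℂ)) : Matrix ι ι (CB (SF (spH ι r U))) := fun i j =>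
  ⟨⟨fun A => (A.1 i j).re, fun _ p => Complex.reCLM.contDiff.comp ((contDiff_apply_apply ℝ ℂ i j).comp
      (show ContDiff ℝ ∞ fun z => mf (p.1 z).1 from p.2))⟩,
    ⟨fun A => (A.1 i j).im, fun _ p => Complex.imCLM.contDiff.comp ((contDiff_apply_apply ℝ ℂ i j).comp
      (show ContDiff ℝ ∞ fun z => mf (p.1 z).1 from p.2))⟩⟩

theorem vlC_Taut (x : (spH ι r U).pt) (i j : ι) : vlC x (Taut ι r U i j) = x.1 i j := Complex.ext rfl rfl

theorem Taut_map (x : (spH ι r U).pt) : (Taut ι r U).map (vlC x) = x.1 := Matrix.ext fun i j => vlC_Taut x i j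

theorem HI_Taut : HI r (Taut ι r U) := by
  refine ⟨?_, ?_, ?_⟩
  · refine Matrix.ext fun i j => CSF_ext fun x => ?_
    have h1 : ((Taut ι r U * Taut ι r U).map (vlC x)) i j = (x.1 * x.1) i j := by
      rw [Matrix.map_mul, Taut_map]
    rw [x.2.1] at h1
    exact h1.trans (vlC_Taut x i j).symm
  · refine Matrix.ext fun i j => CSF_ext fun x => ?_
    have h1 : vlC x (CB.conj (Taut ι r U j i)) = star (x.1 j i) := Complex.ext rfl rfl
    have h2 : star (x.1 j i) = x.1 i j := congrFun (congrFun x.2.2.1 i) j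
    rw [vlC_Taut, ← h2]
    exact h1
  · refine CSF_ext fun x => ?_
    have h1 : vlC x (trace (Taut ι r U)) = trace x.1 := by
      have h2 := AddMonoidHom.map_trace (vlC x).toAddMonoidHom (Taut ι r U)
      refine h2.trans ?_
      exact congrArg trace (Taut_map x)
    rw [h1, x.2.2.2.1, map_natCast]

end Pool.Agent.Lib.MP_ccbbf6_gt.L5.IC
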