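import Pool.Agent.Lib.MP_ccbbf6_gt.L5.IC1
import Pool.Agent.Lib.MP_ccbbf6_gt.L5.IM1
import Pool.Agent.Lib.MP_ccbbf6_gt.L5.Ofv

/-!
# Level 5, X5 with mixed faces, file 2: splitting off trivial complex lines over the cube (helper77)
-/

set_option autoImplicit false
set_option maxSynthPendingDepth 3
set_option linter.unusedSectionVars false

open Set Filter Topology Matrix Function
open scoped ContDiff

noncomputable section

namespace Pool.Agent.Lib.MP_ccbbf6_gt.L5.IC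

open L4 L4.FR IB

variable {N k r q : ℕ} {ι : Type} [Fintype ι] [DecidableEq ι]

/-- value at a point -/
def vC (z : V k) : CB (Cs k) →ₐ[ℝ] ℂ where
  toFun f := ⟨(f.re : V k → ℝ) z, (f.im : V k → ℝ) z⟩
  map_one' := Complex.ext rfl rfl
  map_mul' a b := by
    refine Complex.ext ?_ ?_
    · rw [CB.mul_re, Complex.mul_re]
      rfl
    · rw [CB.mul_im, Complex.mul_im]
      rfl
  map_zero' := Complex.ext rfl rfl
  map_add' _ _ := Complex.ext rfl rfl
  commutes' c := by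
    rw [Algebra.algebraMap_eq_smul_one]
    refine Complex.ext ?_ ?_
    · show c * 1 = c
      rw [mul_one]
    · show c * 0 = 0
      rw [mul_zero]

instance vC_coeFun : CoeFun (CB (Cs k) →ₐ[ℝ] ℂ) (fun _ => CB (Cs k) → ℂ) := ⟨fun f => f⟩

theorem vC_re (z : V k) (f : CB (Cs k)) : (vC z f).re = (f.re : V k → ℝ) z := rfl
theorem vC_im (z : V k) (f : CB (Cs k)) : (vC z f).im = (f.im : V k → ℝ) z := rfl

theorem CCs_ext {f g : CB (Cs k)} (h : ∀ z, vC z f = vC z g) : f = g :=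
  CB.ext (Cs_ext fun z => congrArg Complex.re (h z)) (Cs_ext fun z => congrArg Complex.im (h z))

/-- the functions of a complex matrix -/
def entC (P : Matrix ι ι (CB (Cs k))) (a : (ι × ι) × Bool) : Cs k :=
  if a.2 then (P a.1.1 a.1.2).re else (P a.1.1 a.1.2).im

section map

variable {A A' : Type*} [CommRing A] [Algebra ℝ A] [CommRing A'] [Algebra ℝ A']

theorem HA.map {P : Matrix ι ι (CB A)} (h : HA r P) (f : A →ₐ[ℝ] A') : HA r (P.map (CB.alg f)) := by
  refine ⟨by rw [← Matrix.map_mul, h.idem], ?_, ?_⟩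
  · ext1 i j
    show CB.conj (CB.alg f (P j i)) = CB.alg f (P i j)
    have h1 : CB.conj (P j i) = P i j := congrFun (congrFun h.herm i) j
    rw [← h1]
    exact CB.ext rfl (map_neg f _).symm
  · have h1 := congrArg (CB.alg f) h.tr
    rw [map_natCast] at h1
    rw [← h1]
    exact (AddMonoidHom.map_trace (CB.alg f).toAddMonoidHom P).symm

end map

theorem HA.vC_idem {P : Matrix ι ι (CB (Cs k))} (h : HA r P) (z : V k) : P.map (vC z) * P.map (vC z) = P.map (vC z) := by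
  rw [← Matrix.map_mul, h.idem]

theorem HA.vC_herm {P : Matrix ι ι (CB (Cs k))} (h : HA r P) (z : V k) : (P.map (vC z))ᴴ = P.map (vC z) := by
  ext1 i j
  have h1 : CB.conj (P j i) = P i j := congrFun (congrFun h.herm i) j
  show star (vC z (P j i)) = vC z (P i j)
  rw [← h1]
  rfl

theorem HA.vC_tr {P : Matrix ι ι (CB (Cs k))} (h : HA r P) (z : V k) : trace (P.map (vC z)) = r := by
  have h1 := congrArg (vC z) h.tr
  rw [map_natCast] at h1
  rw [← h1]
  exact (AddMonoidHom.map_trace (vC z).toAddMonoidHom P).symm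

theorem contDiff_vC {P : Matrix ι ι (CB (Cs k))} (i j : ι) : ContDiff ℝ ∞ fun z => (P.map (vC z)) i j := by
  have h1 : (fun z => (P.map (vC z)) i j) = fun z => (((P i j).re : V k → ℝ) z : ℂ) + (((P i j).im : V k → ℝ) z : ℂ) * Complex.I := by
    funext z
    exact Complex.mk_eq_add_mul_I _ _
  rw [h1]
  exact (Complex.ofRealCLM.contDiff.comp (Cs_smooth (P i j).re)).add
    ((Complex.ofRealCLM.contDiff.comp (Cs_smooth (P i j).im)).mul contDiff_const)

/-- **a generic constant vector** -/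
theorem exists_vecC {P : Matrix ι ι (CB (Cs N))} (h : HA r P) (hr : N < 2 * r) :
    ∃ (κ : FR.Sm N N) (w : ι → ℂ), (∀ z ∈ Icc (0 : V N) 1, ∀ᶠ y in 𝓝 z, κ y = y) ∧
      ∀ z, (P.map (vC (κ z))).mulVec w ≠ 0 := by
  obtain ⟨M, hM⟩ : ∃ M : V N → Matrix ι ι ℂ, M = fun z => 1 - P.map (vC z) := ⟨_, rfl⟩
  have hMM : ∀ z, M z * M z = M z := fun z => by
    rw [hM]
    have h1 := h.vC_idem z
    simp only [sub_mul, mul_sub, one_mul, mul_one, h1]
    abel
  have hrc : r ≤ Fintype.card ι := by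
    have h1 := rank_of_trace (h.vC_idem 0) (h.vC_tr 0)
    rw [← h1]
    exact Matrix.rank_le_card_width _
  have htM : ∀ z, trace (M z) = ((Fintype.card ι - r : ℕ) : ℂ) := fun z => by
    rw [hM]
    show trace (1 - P.map (vC z)) = _
    rw [Matrix.trace_sub, Matrix.trace_one, h.vC_tr, Nat.cast_sub hrc]
  have hfr : ∀ z, Module.finrank ℝ (LinearMap.range (mL ι (M z) : (ι → ℂ) →ₗ[ℝ] (ι → ℂ))) = 2 * (Fintype.card ι - r) :=
    fun z => finrank_range_mL (rank_of_trace (hMM z) (htM z))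
  have hsm : ContDiff ℝ ∞ fun z => mL ι (M z) := by
    refine contDiff_mL fun i j => ?_
    rw [hM]
    exact contDiff_const.sub (contDiff_vC i j)
  obtain ⟨κ, B, hκ, hB, -, hQB, hinj⟩ := exists_frame (Q := fun z => mL ι (M z)) hsm (fun z => by rw [mL_comp, hMM])
    (L0 := (LinearMap.range (mL ι (M 0) : (ι → ℂ) →ₗ[ℝ] (ι → ℂ))).subtypeL) (by
      ext1 v
      obtain ⟨u, hu⟩ := v.2
      show (mL ι (M 0)) v.1 = v.1
      have h1 : mL ι (M 0) u = v.1 := hu
      rw [← h1]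
      have h2 := congrArg (fun L : (ι → ℂ) →L[ℝ] (ι → ℂ) => L u) (mL_comp (M 0) (M 0))
      rw [hMM] at h2
      exact h2) (fun a ha => Subtype.ext ha)
  have hdense := ContDiff.dense_compl_range_of_finrank_lt_finrank
    (f := fun z : V N × (LinearMap.range (mL ι (M 0) : (ι → ℂ) →ₗ[ℝ] (ι → ℂ))) => B z.1 z.2)
    (((hB.comp contDiff_fst).clm_apply contDiff_snd).of_le (by simp)) (by
      rw [Module.finrank_prod, hfr 0, finrank_real_of_complex, Module.finrank_fintype_fun_eq_card, Fintype.card_fin,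
        Module.finrank_fintype_fun_eq_card]
      omega)
  obtain ⟨w, hw⟩ := hdense.nonempty
  refine ⟨κ, w, hκ, fun z hx => hw ?_⟩
  have h1 : mL ι (M (κ z)) w = w := by
    rw [mL_apply, hM]
    show (1 - P.map (vC (κ z))).mulVec w = w
    rw [Matrix.sub_mulVec, Matrix.one_mulVec, hx, sub_zero]
  have h2 : LinearMap.range (B z).toLinearMap = LinearMap.range (mL ι (M (κ z)) : (ι → ℂ) →ₗ[ℝ] (ι → ℂ)) := by
    refine Submodule.eq_of_le_of_finrank_eq ?_ ?_
    · rintro v ⟨a, rfl⟩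
      exact ⟨B z a, congrArg (fun L : _ →L[ℝ] (ι → ℂ) => L a) (hQB z)⟩
    · rw [hfr (κ z), ← hfr 0]
      exact LinearMap.finrank_range_of_inj fun a b hab => by
        have h3 : B z (a - b) = 0 := by
          rw [map_sub]
          exact sub_eq_zero.2 hab
        exact sub_eq_zero.1 (hinj z _ h3)
  have h3 : w ∈ LinearMap.range (B z).toLinearMap := by
    rw [h2]
    exact ⟨w, h1⟩
  obtain ⟨a, ha⟩ := h3
  exact ⟨(z, a), ha⟩

/-! ### the classifying plot -/

variable {U : Set (ι → ι → ℂ)} {P : Matrix ι ι (CB (Cs N))}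

/-- the classifying plot -/
def plH (h : HA r P) (hU : ∀ z, mf (P.map (vC z)) ∈ U) : (spH ι r U).Plot N :=
  ⟨fun z => ⟨P.map (vC z), h.vC_idem z, h.vC_herm z, h.vC_tr z, hU z⟩,
    show ContDiff ℝ ∞ fun z => mf (P.map (vC z)) from contDiff_pi.2 fun i => contDiff_pi.2 fun j => contDiff_vC i j⟩

theorem plH_apply (h : HA r P) (hU : ∀ z, mf (P.map (vC z)) ∈ U) (z : V N) : ((plH h hU).1 z).1 = P.map (vC z) := rfl

theorem Taut_plH (h : HA r P) (hU : ∀ z, mf (P.map (vC z)) ∈ U) :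
    (Taut ι r U).map (CB.alg (FHom.on (plH h hU)).g) = P := by
  refine Matrix.ext fun i j => CCs_ext fun z => ?_
  exact Complex.ext rfl rfl

theorem FJ_plH (h : HA r P) (hU : ∀ z, mf (P.map (vC z)) ∈ U) {i : Fin N} (hF : FC (entC P) i) :
    FJ jH (plH h hU).1 i := by
  rcases hF with h1 | h1
  · left
    intro x hx
    refine Subtype.ext (Matrix.ext fun a b => Complex.ext ?_ ?_)
    · exact h1 x hx ((a, b), true)
    · exact h1 x hx ((a, b), false)
  · right
    intro x hx hxi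
    obtain ⟨w, hw, hwi, hw1⟩ := h1 x hx hxi
    refine ⟨w, hw, hwi, ?_⟩
    obtain ⟨G, hG⟩ : ∃ G : V N → ι → ι → ℂ, G = fun z => mf (P.map (vC z)) := ⟨_, rfl⟩
    have hGs : ContDiff ℝ ∞ G := by
      rw [hG]
      exact contDiff_pi.2 fun i => contDiff_pi.2 fun j => contDiff_vC i j
    have hGd : HasFDerivAt G (fderiv ℝ G x) x := ((hGs.differentiable (by simp)) x).hasFDerivAt
    have h2 : fderiv ℝ G x w = 0 := by
      funext a b
      have h3 := hasFDerivAt_pi'.1 (hasFDerivAt_pi'.1 hGd a) b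
      refine Complex.ext ?_ ?_
      · have h4 := (Complex.reCLM.hasFDerivAt.comp x h3).fderiv
        have h5 := hw1 ((a, b), true)
        have h6 : (Complex.reCLM ∘ fun z => G z a b) = ((entC P ((a, b), true) : Cs N) : V N → ℝ) := by
          rw [hG]
          rfl
        rw [h6] at h4
        rw [h4] at h5
        exact h5
      · have h4 := (Complex.imCLM.hasFDerivAt.comp x h3).fderiv
        have h5 := hw1 ((a, b), false)
        have h6 : (Complex.imCLM ∘ fun z => G z a b) = ((entC P ((a, b), false) : Cs N) : V N → ℝ) := by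
          rw [hG]
          rfl
        rw [h6] at h4
        rw [h4] at h5
        exact h5
    have h3 : (fun z => jH ((plH h hU).1 z)) = fun z => eH ι (G z) := by
      rw [hG]
      rfl
    rw [h3]
    have h4 : HasFDerivAt (fun z => eH ι (G z)) ((eH ι : (ι → ι → ℂ) →L[ℝ] V (dH ι)).comp (fderiv ℝ G x)) x :=
      (eH ι : (ι → ι → ℂ) →L[ℝ] V (dH ι)).hasFDerivAt.comp x hGd
    rw [h4.fderiv]
    show (eH ι : (ι → ι → ℂ) →L[ℝ] V (dH ι)) (fderiv ℝ G x w) = 0
    rw [h2, map_zero]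

/-! ### Chern forms -/

/-- the Chern form -/
def chf (h : HA r P) (q : ℕ) : CB (Fm N) := ((GDA.cf ((FF N).C.idem h.idem) q : (GC (GF N)).Zc) : CB (Fm N))

theorem cf_eq {B : Type*} [Ring B] [Algebra ℝ B] {G : GDA B} {P P' : Matrix ι ι B} (e : P = P') (h : G.Idem P)
    (h' : G.Idem P') (q : ℕ) : GDA.cf h q = GDA.cf h' q := by
  subst e
  rfl

/-- values on a plot, with complex coefficients -/
abbrev omC {X : Space} (f : X.Plot N) : CB (Om X) →ₐ[ℝ] CB (Fm N) := CB.alg (omOn f)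

theorem chf_nat {X : Space} {T : Matrix ι ι (CB (SF X))} (hT : HI r T) (f : X.Plot N)
    (h : HA r P) (he : T.map (CB.alg (FHom.on f).g) = P) (q : ℕ) :
    omC f ((GDA.cf hT.Idem q : (GC (GO X)).Zc) : CB (Om X)) = chf h q := by
  have h2 : (T.map (FO X).C.f).map (FHom.on f).cx.h.f = P.map (FF N).C.f := by
    rw [← he]
    ext1 i j
    exact (FHom.on f).cx.com (T i j)
  exact (congrArg Subtype.val (GDA.map_cf (FHom.on f).cx.h hT.Idem q)).trans
    (congrArg Subtype.val (cf_eq h2 ((FHom.on f).cx.h.idem hT.Idem) ((FF N).C.idem h.idem) q))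

theorem chf_pb (h : HA r P) (κ : FR.Sm N N) (q : ℕ) :
    chf (h.map κ.pull) q = CB.alg (FR.pb κ) (chf h q) := by
  have h1 := GDA.map_cf (FHom.pb κ).cx.h ((FF N).C.idem h.idem) q
  have h2 : (P.map (FF N).C.f).map (FHom.pb κ).cx.h.f = (P.map (CB.alg κ.pull)).map (FF N).C.f := by
    ext1 i j
    exact (FHom.pb κ).cx.com (P i j)
  have h3 := cf_eq h2 ((FHom.pb κ).cx.h.idem ((FF N).C.idem h.idem)) ((FF N).C.idem (h.map κ.pull).idem) q
  rw [h3] at h1
  exact (congrArg Subtype.val h1).symm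

/-- the integrals of the multiples of the Chern form -/
def iC (c : ℂ) (θ : CB (Fm N)) : ℝ := c.re * cI N θ.re - c.im * cI N θ.im

theorem iC_sub (c : ℂ) (θ τ : CB (Fm N)) : iC c (θ - τ) = iC c θ - iC c τ := by
  unfold iC
  rw [CB.sub_re, CB.sub_im, cI_sub, cI_sub]
  ring

theorem iC_exact {X : Space} (f : X.Plot N) (hst : ∀ ξ : Om X, cI N (dd N (Om.on ξ f)) = 0) (c : ℂ) (ξ : CB (Om X)) :
    iC c (omC f ((GC (GO X)).d ξ)) = 0 := by
  have e : ∀ a b : ℝ, a = 0 → b = 0 → c.re * a - c.im * b = 0 := fun a b ha hb => by rw [ha, hb]; ring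
  exact e _ _ ((congrArg (cI N) (on_d _ _)).trans (hst ξ.re)) ((congrArg (cI N) (on_d _ _)).trans (hst ξ.im))

theorem chf_step {X : Space} {T T' : Matrix ι ι (CB (SF X))} (hT : HI (r + 1) T) (hT' : HI r T')
    (he : ∀ j, j ≠ 0 → GDA.hps hT'.Idem j = GDA.hps hT.Idem j) (f : X.Plot N) {P : Matrix ι ι (CB (Cs N))}
    (hP : HA (r + 1) P) (hTP : T.map (CB.alg (FHom.on f).g) = P) (hst : ∀ ξ : Om X, cI N (dd N (Om.on ξ f)) = 0)
    (c : ℂ) (q : ℕ) : iC c (chf (hT'.ha.map (FHom.on f).g) q) = iC c (chf hP q) := by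
  -- the forms differ by an exact form of the universal space
  have h1 := hc_reduce hT hT' he q
  rw [← GDA.mk_cf, ← GDA.mk_cf, Ideal.Quotient.eq] at h1
  obtain ⟨ξ, hξ⟩ := h1
  refine sub_eq_zero.1 ((iC_sub c _ _).symm.trans ?_)
  rw [← chf_nat hT' f (hT'.ha.map (FHom.on f).g) rfl q, ← chf_nat hT f hP hTP q, ← map_sub]
  exact (congrArg (iC c) (congrArg _ hξ.symm)).trans (iC_exact f hst c ξ)

theorem iC_pb {κ : FR.Sm N N} (hκ : ∀ z ∈ Icc (0 : V N) 1, ∀ᶠ y in 𝓝 z, κ y = y) (c : ℂ) (θ : CB (Fm N)) :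
    iC c (CB.alg (FR.pb κ) θ) = iC c θ := by
  have h7 : ∀ θ : Fm N, cI N (FR.pb κ θ) = cI N θ := fun θ => cI_congr fun x hx => by
    have h8 : (κ : V N → V N) =ᶠ[𝓝 x] Sm.id N := hκ x hx
    rw [ev_pb_congr h8, pb_id]
  unfold iC
  rw [CB.alg_re, CB.alg_im, h7, h7]

/-- **one step** -/
theorem stepM (hr : N < 2 * (r + 1)) (h : HA (r + 1) P) (hF : ∀ i, FC (entC P) i) :
    ∃ (P' : Matrix ι ι (CB (Cs N))) (h' : HA r P'), (∀ i, FC (entC P') i) ∧
      ∀ (c : ℂ) (q : ℕ), iC c (chf h' q) = iC c (chf h q) := by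
  obtain ⟨κ, w, hκ, hw⟩ := exists_vecC h (by omega)
  have hPκ := h.map κ.pull
  have hFκ : ∀ i, FC (entC (P.map (CB.alg κ.pull))) i := fun i => (hF i).loc fun x hx a => by
    filter_upwards [hκ x hx] with y hy
    obtain ⟨⟨a, b⟩, e⟩ := a
    cases e
    · show ((P a b).im : V N → ℝ) (κ y) = ((P a b).im : V N → ℝ) y
      rw [hy]
    · show ((P a b).re : V N → ℝ) (κ y) = ((P a b).re : V N → ℝ) y
      rw [hy]
  obtain ⟨U, hUo, hUm⟩ : ∃ U : Set (ι → ι → ℂ), IsOpen U ∧ ∀ A : ι → ι → ℂ, A ∈ U ↔ (fun i => ∑ j, A i j * w j) ≠ 0 := by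
    refine ⟨{A | (fun i => ∑ j, A i j * w j) ≠ 0}, ?_, fun A => Iff.rfl⟩
    refine isOpen_ne_fun ?_ continuous_const
    exact continuous_pi fun i => continuous_finsetSum _ fun j _ => (continuous_apply_apply i j).mul continuous_const
  have hval : ∀ z, (P.map (CB.alg κ.pull)).map (vC z) = P.map (vC (κ z)) := fun z => rfl
  have hUz : ∀ z, mf ((P.map (CB.alg κ.pull)).map (vC z)) ∈ U := fun z => by
    rw [hUm, hval]
    exact hw z
  obtain ⟨T', hT', he⟩ := stepX (HI_Taut (ι := ι) (r := r + 1) (U := U)) (w := w) (fun x => by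
    rw [Taut_map]
    exact (hUm _).1 x.2.2.2.2)
  have hLR := LRH (r := r + 1) hUo
  have hFJ : ∀ i, FJ jH (plH hPκ hUz).1 i := fun i => FJ_plH hPκ hUz (hFκ i)
  refine ⟨T'.map (CB.alg (FHom.on (plH hPκ hUz)).g), hT'.ha.map _, fun i => ?_, fun c q =>
    (chf_step HI_Taut hT' he (plH hPκ hUz) hPκ (Taut_plH hPκ hUz) (hLR.stokes _ hFJ) c q).trans ?_⟩
  · refine hLR.fc _ (hFJ i) (fun a : (ι × ι) × Bool => if a.2 then (T' a.1.1 a.1.2).re else (T' a.1.1 a.1.2).im) ?_
    rintro ⟨⟨a, b⟩, e⟩ z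
    cases e
    · rfl
    · rfl
  · rw [chf_pb, iC_pb hκ]

/-- **reduction of the rank** -/
theorem reduceM (hq : N ≤ 2 * q) (s : ℕ) : ∀ {P : Matrix ι ι (CB (Cs N))} (h : HA (q + s) P) (_ : ∀ i, FC (entC P) i),
    ∃ (P' : Matrix ι ι (CB (Cs N))) (h' : HA q P'), (∀ i, FC (entC P') i) ∧
      ∀ (c : ℂ) (j : ℕ), iC c (chf h' j) = iC c (chf h j) := by
  induction s with
  | zero => exact fun {P} h hF => ⟨P, h, hF, fun _ _ => rfl⟩
  | succ s ih =>
    intro P h hF
    obtain ⟨P1, h1, hF1, e1⟩ := stepM (r := q + s) (by omega) (show HA (q + s + 1) P from h) hF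
    obtain ⟨P2, h2, hF2, e2⟩ := ih h1 hF1
    exact ⟨P2, h2, hF2, fun c j => (e2 c j).trans (e1 c j)⟩

end Pool.Agent.Lib.MP_ccbbf6_gt.L5.IC
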