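import Pool.Agent.Lib.MP_ccbbf6_gt.L5.PHT8

/-!
# Level 5, block PH, part 9: the universal oriented bundle; Euler numbers of bundles over the cube

`spO ι N` : the space of oriented subspaces of dimension `N` of `R^ι` (projections with an orientation tensor), `PT`, `oT` the
tautological bundle; `int_eulC` : the Euler number of an oriented bundle over `Cs (2 (n + 1))` with mixed faces is an integer.
-/

set_option autoImplicit false
set_option maxSynthPendingDepth 3
set_option linter.unusedSectionVars false
set_option linter.unusedVariables false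

open Matrix Function Filter Topology Set MeasureTheory
open scoped ContDiff Real

noncomputable section

namespace Pool.Agent.Lib.MP_ccbbf6_gt.L5.PH

open Geo L4 L4.FR OT

variable {ι : Type} [Fintype ι] [DecidableEq ι] {X Y : Space} {n k r m N : ℕ}

/-- oriented subspaces of dimension `N` -/
def spO (ι : Type) [Fintype ι] [DecidableEq ι] (N : ℕ) : Space where
  pt := {z : (ι → ι → ℝ) × ((Fin N → ι) → ℝ) // Or N (Matrix.of z.1) z.2}
  Pl k := {p | ContDiff ℝ ∞ fun x => (p x).1}
  pre := fun {_ _ _} hp g => (show ContDiff ℝ ∞ _ from hp).comp g.smooth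

/-- the tautological projection -/
def PT (ι : Type) [Fintype ι] [DecidableEq ι] (N : ℕ) : Matrix ι ι (SF (spO ι N)) := Matrix.of fun l m =>
  ⟨fun z => z.1.1 l m, fun _ p => contDiff_pi.1 (contDiff_pi.1 (contDiff_fst.comp (show ContDiff ℝ ∞ fun x => (p.1 x).1 from p.2)) l) m⟩

/-- the tautological orientation -/
def oT (ι : Type) [Fintype ι] [DecidableEq ι] (N : ℕ) (I : Fin N → ι) : SF (spO ι N) :=
  ⟨fun z => z.1.2 I, fun _ p => contDiff_pi.1 (contDiff_snd.comp (show ContDiff ℝ ∞ fun x => (p.1 x).1 from p.2)) I⟩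

theorem PT_val (z : (spO ι N).pt) (l m : ι) : (PT ι N l m).1 z = z.1.1 l m := rfl

theorem oT_val (z : (spO ι N).pt) (I : Fin N → ι) : (oT ι N I).1 z = z.1.2 I := rfl

/-- evaluation of functions -/
def evS (z : X.pt) : SF X →+* ℝ := (Pi.evalRingHom (fun _ : X.pt => ℝ) z).comp (SF X).val.toRingHom

theorem evS_apply (z : X.pt) (f : SF X) : evS z f = f.1 z := rfl

theorem or_T : Or N (PT ι N) (oT ι N) where
  sym := Matrix.ext fun l m => sf_ext fun z => by
    have h := congrFun (congrFun z.2.sym l) m
    exact h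
  idem := Matrix.ext fun l m => sf_ext fun z => by
    have h := congrFun (congrFun z.2.idem l) m
    rw [Matrix.mul_apply] at h ⊢
    rw [sf_sum]
    exact h
  tr := sf_ext fun z => by
    have h := z.2.tr
    unfold Matrix.trace at h ⊢
    rw [sf_sum]
    exact h
  alt := fun σ I => sf_ext fun z => by
    have h := z.2.alt σ I
    rw [sf_mul]
    refine h.trans ?_
    congr 1
  rk := fun I J => sf_ext fun z => by
    have h := z.2.rk I J
    rw [sf_mul]
    refine h.trans ?_
    exact ((evS z).map_det (Matrix.of fun k l => PT ι N (I k) (J l))).symm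
  nrm := sf_ext fun z => by
    have h := z.2.nrm
    rw [sf_sum]
    exact h
  inv := fun I k l => sf_ext fun z => by
    have h := z.2.inv I k l
    rw [sf_sum]
    exact h
  sch := fun y hy I e => sf_ext fun z => by
    have hy' : (Matrix.of z.1.1).mulVec (fun i => (y i).1 z) = fun i => (y i).1 z := by
      funext i
      have h1 := congrArg (fun f : SF (spO ι N) => f.1 z) (congrFun hy i)
      have h2 : ((PT ι N).mulVec y i).1 z = ∑ j, z.1.1 i j * (y j).1 z := by
        show (∑ j, PT ι N i j * y j : SF (spO ι N)).1 z = _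
        rw [sf_sum]
        rfl
      exact h2.symm.trans h1
    have h := z.2.sch _ hy' I e
    rw [sf_sum]
    exact h

section cube

variable {P : Matrix ι ι (Cs k)} {o : (Fin N → ι) → Cs k}

/-- the classifying map of an oriented bundle over the cube -/
def clP (h : Or N P o) : (spO ι N).Plot k :=
  ⟨fun x => ⟨(fun l m => (P l m : V k → ℝ) x, fun I => (o I : V k → ℝ) x), h.map' (evR x)⟩,
    (contDiff_pi.2 fun l => contDiff_pi.2 fun m => Cs_smooth (P l m)).prodMk (contDiff_pi.2 fun I => Cs_smooth (o I))⟩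

theorem clP_P (h : Or N P o) : (PT ι N).map (SFon (clP h)) = P := Matrix.ext fun l m => Cs_ext fun x => rfl

theorem clP_o (h : Or N P o) : (fun I => SFon (clP h) (oT ι N I)) = o := funext fun I => Cs_ext fun x => rfl

end cube

/-- boundary condition for an oriented bundle over the cube, in the direction `i`: the two faces agree, or the entries of the
projection have small rank on both faces -/
def FCo {r N : ℕ} (P : Matrix ι ι (Cs (r + 1))) (o : (Fin N → ι) → Cs (r + 1)) (i : Fin (r + 1)) : Prop :=
  (∀ x ∈ Icc (0 : V (r + 1)) 1, x i = 0 → (∀ l m, (P l m : V (r + 1) → ℝ) (Function.update x i 1) = (P l m : V (r + 1) → ℝ) x) ∧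
      ∀ I, (o I : V (r + 1) → ℝ) (Function.update x i 1) = (o I : V (r + 1) → ℝ) x) ∨
    ∀ x ∈ Icc (0 : V (r + 1)) 1, (x i = 0 ∨ x i = 1) → ∃ v : V (r + 1), v ≠ 0 ∧ v i = 0 ∧
      ∀ l m, fderiv ℝ (P l m : V (r + 1) → ℝ) x v = 0

/-- **the Euler number of an oriented bundle over the cube with mixed faces is an integer** -/
theorem int_eulC {P : Matrix ι ι (Cs (2 * (n + 1)))} {o : (Fin (2 * (n + 1)) → ι) → Cs (2 * (n + 1))}
    (h : Or (2 * (n + 1)) P o) (hc : ∀ i, FCo (r := 2 * n + 1) P o i) :
    ∃ k : ℤ, cI (2 * (n + 1)) (eulG (FF (2 * (n + 1))) P o) = k := by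
  have h1 : ∀ i, FXR (r := 2 * n + 1) (PT ι (2 * (n + 1))) (clP h) i := by
    intro i
    rcases hc i with h2 | h2
    · left
      left
      right
      intro x hx hxi
      obtain ⟨h3, h4⟩ := h2 x hx hxi
      refine Subtype.ext (Prod.ext ?_ ?_)
      · exact funext fun l => funext fun m => h3 l m
      · exact funext fun I => h4 I
    · right
      exact h2
  obtain ⟨k, hk⟩ := int_eul or_T (clP h) h1
  refine ⟨k, ?_⟩
  rw [← hk]
  have h2 := (FHom.on (clP h)).eulG (P := PT ι (2 * (n + 1))) (oT ι (2 * (n + 1)))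
  have h3 : (PT ι (2 * (n + 1))).map (FHom.on (clP h)).g = P := clP_P h
  have h4 : (fun I => (FHom.on (clP h)).g (oT ι (2 * (n + 1)) I)) = o := clP_o h
  rw [h3, h4] at h2
  rw [← h2]
  rfl

end Pool.Agent.Lib.MP_ccbbf6_gt.L5.PH
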