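import Pool.Agent.Lib.MP_ccbbf6_gt.L5.IM0
import Pool.Agent.Lib.MP_ccbbf6_gt.L5.PHT9

/-!
# Level 5, X5 with mixed faces, file 5: the Euler form of an oriented bundle of rank `2 q` over the `2 q`-cube
(helper77, from helper18's PHT9)
-/

set_option autoImplicit false
set_option maxSynthPendingDepth 3
set_option linter.unusedSectionVars false

open Set Filter Topology Matrix Function MeasureTheory
open scoped ContDiff

noncomputable section

namespace Pool.Agent.Lib.MP_ccbbf6_gt.L5.IC

open Geo L4 L4.FR IB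

/-- the functions of an oriented bundle -/
def entO {N r : ℕ} {ι : Type} (P : Matrix ι ι (Cs N)) (o : (Fin r → ι) → Cs N) : (ι × ι) ⊕ (Fin r → ι) → Cs N :=
  Sum.elim (fun a => P a.1 a.2) o

/-- **the integral of the Euler form over the cube with mixed faces is an integer** -/
theorem int_eulM {q : ℕ} (hq : 1 ≤ q) {ι : Type} [Fintype ι] [DecidableEq ι] {P : Matrix ι ι (Cs (2 * q))}
    {o : (Fin (2 * q) → ι) → Cs (2 * q)} (h : Or (2 * q) P o) (hF : ∀ i, FC (entO P o) i) :
    ∃ m : ℤ, cI (2 * q) (eulG (FF (2 * q)) P o) = m := by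
  obtain ⟨n, rfl⟩ := Nat.exists_eq_add_of_le' hq
  refine PH.int_eulC h fun i => ?_
  rcases hF i with h1 | h1
  · left
    intro x hx hxi
    have h2 : update x i 0 = x := by
      rw [← hxi]
      exact update_eq_self i x
    refine ⟨fun l m => ?_, fun I => ?_⟩
    · have h3 := h1 x hx (Sum.inl (l, m))
      rw [h2] at h3
      exact h3
    · have h3 := h1 x hx (Sum.inr I)
      rw [h2] at h3
      exact h3
  · right
    intro x hx hxi
    obtain ⟨w, hw, hwi, hw1⟩ := h1 x hx hxi
    exact ⟨w, hw, hwi, fun l m => hw1 (Sum.inl (l, m))⟩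

end Pool.Agent.Lib.MP_ccbbf6_gt.L5.IC
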