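import Pool.Agent.Lib.MP_ccbbf6_gt.L5.IC4b
import Pool.Agent.Lib.MP_ccbbf6_gt.L5.IM2
import Pool.Agent.Lib.MP_ccbbf6_gt.L5.IM5

/-!
# Level 5, X5 with mixed faces, file 6: integrality of Chern and Pontryagin numbers over the cube (helper77)

* `int_cf` : `P` hermitian idempotent of trace `r ≥ q` over the `2 q`-cube, mixed faces: `∫ (i^q c_q(P)).re ∈ (2 π)^q ℤ`;
* `int_cfR` : `P` real symmetric idempotent of trace `r ≥ 2 k` over the `4 k`-cube, mixed faces: `∫ c_{2k}(P) ∈ (2 π)^{2k} ℤ`;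
* `int_cfX` : the same along a plot `a` of a space `X`, `P` over `SF X`.
-/

set_option autoImplicit false
set_option maxSynthPendingDepth 3
set_option linter.unusedSectionVars false

open Set Filter Topology Matrix Function MeasureTheory
open scoped ContDiff Real

noncomputable section

namespace Pool.Agent.Lib.MP_ccbbf6_gt.L5.IC

open Geo L4 L4.FR IB

variable {N k r q : ℕ} {ι : Type} [Fintype ι] [DecidableEq ι] {X : Space}

theorem ofC_pow (q : ℕ) (A : Type*) [Ring A] [Algebra ℝ A] : (CB.ofC (Complex.I ^ q) : CB A) = CB.I ^ q := by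
  rw [map_pow]
  congr 1
  refine CB.ext ?_ ?_
  · show algebraMap ℝ A Complex.I.re = 0
    rw [Complex.I_re, map_zero]
  · show algebraMap ℝ A Complex.I.im = 1
    rw [Complex.I_im, map_one]

theorem cI_ofC (c : ℂ) (θ : CB (Fm N)) : cI N (CB.ofC c * θ).re = iC c θ := by
  have h1 : (CB.ofC c * θ).re = c.re • θ.re - c.im • θ.im := by
    rw [CB.mul_re, Algebra.smul_def, Algebra.smul_def]
    rfl
  rw [h1, cI_sub, cI_smul, cI_smul]
  rfl

theorem int_chf {D : ℕ} {j : X.pt → V D} (hLR : LR X j) (hq : 1 ≤ q) {T : Matrix ι ι (CB (SF X))} (hT : HI q T)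
    (f : X.Plot ((2 : ℕ) * q)) (hFJ : ∀ i, FJ j f.1 i) {P : Matrix ι ι (CB (Cs ((2 : ℕ) * q)))} (hP : HA q P)
    (hTP : T.map (CB.alg (FHom.on f).g) = P) : ∃ m : ℤ, cI ((2 : ℕ) * q) (CB.I ^ q * chf hP q).re = (2 * π) ^ q * m := by
  obtain ⟨o, ε, ho, hε, h3⟩ := exists_eul hT
  have hOr : Or ((2 : ℕ) * q) ((rM T).map (FHom.on f).g) (fun I => (FHom.on f).g (o I)) :=
    ho.map' ((FHom.on f).g : SF X →+* Cs ((2 : ℕ) * q))
  obtain ⟨m, hm⟩ := int_eulM hq hOr (fun i => by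
    refine hLR.fc f (hFJ i) (Sum.elim (fun a : (ι ⊕ ι) × (ι ⊕ ι) => rM T a.1 a.2) o) ?_
    rintro (a | a) z
    · rfl
    · rfl)
  have h4 : (CB.I ^ q * chf hP q).re = (ε * (2 * π) ^ q) • eulG (FF ((2 : ℕ) * q)) ((rM T).map (FHom.on f).g)
      (fun I => (FHom.on f).g (o I)) := by
    have h5 := congrArg (FHom.on f).h.f h3
    rw [map_smul, FHom.eulG (FHom.on f) o] at h5
    rw [← h5, ← chf_nat hT f hP hTP q]
    have h7 : (CB.I : CB (Fm ((2 : ℕ) * q))) = omC f CB.I := CB.ext (map_zero (omOn f)).symm (map_one (omOn f)).symm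
    rw [h7, ← map_pow, ← map_mul]
    rfl
  rw [h4, cI_smul, hm]
  rcases hε with rfl | rfl
  · exact ⟨m, by ring⟩
  · exact ⟨-m, by push_cast; ring⟩

/-- **integrality of the top Chern number over the cube** -/
theorem int_cf (hq : 1 ≤ q) (hr : q ≤ r) {P : Matrix ι ι (CB (Cs ((2 : ℕ) * q)))} (h : HA r P) (hF : ∀ i, FC (entC P) i) :
    ∃ m : ℤ, cI ((2 : ℕ) * q) (CB.I ^ q * chf h q).re = (2 * π) ^ q * m := by
  obtain ⟨s, rfl⟩ := Nat.exists_eq_add_of_le hr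
  obtain ⟨P', h', hF', he⟩ := reduceM (N := 2 * q) (q := q) le_rfl s h hF
  have hU : ∀ z, mf (P'.map (vC z)) ∈ (univ : Set (ι → ι → ℂ)) := fun _ => mem_univ _
  rw [← ofC_pow, cI_ofC, ← he, ← cI_ofC, ofC_pow]
  exact int_chf (LRH (ι := ι) (r := q) (U := univ) isOpen_univ) hq HI_Taut (plH h' hU) (fun i => FJ_plH h' hU (hF' i)) h'
    (Taut_plH h' hU)

/-! ### real bundles -/

/-- the functions of a real matrix -/
def entR (P : Matrix ι ι (Cs k)) (a : ι × ι) : Cs k := P a.1 a.2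

theorem HA_real {A : Type*} [CommRing A] [Algebra ℝ A] {P : Matrix ι ι A} (hP : P * P = P) (hs : Pᵀ = P)
    (ht : trace P = (r : A)) : HA r (P.map CB.ofR : Matrix ι ι (CB A)) := by
  refine ⟨by rw [← Matrix.map_mul, hP], ?_, ?_⟩
  · ext1 i j
    show (CB.conj (CB.ofR (P j i)) : CB A) = CB.ofR (P i j)
    rw [CB.conj_ofR]
    exact congrArg CB.ofR (congrFun (congrFun hs i) j)
  · have h1 := congrArg (CB.ofR : A →ₐ[ℝ] CB A) ht
    rw [map_natCast] at h1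
    rw [← h1]
    exact (AddMonoidHom.map_trace (CB.ofR : A →ₐ[ℝ] CB A).toAddMonoidHom P).symm

theorem FC_real {P : Matrix ι ι (Cs N)} {i : Fin N} (h : FC (entR P) i) :
    FC (entC (P.map CB.ofR : Matrix ι ι (CB (Cs N)))) i := by
  rcases h with h | h
  · left
    rintro x hx ⟨⟨a, b⟩, e⟩
    cases e
    · rfl
    · exact h x hx (a, b)
  · right
    intro x hx hxi
    obtain ⟨w, hw, hwi, hw1⟩ := h x hx hxi
    refine ⟨w, hw, hwi, ?_⟩
    rintro ⟨⟨a, b⟩, e⟩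
    cases e
    · have h1 : ((entC (P.map CB.ofR : Matrix ι ι (CB (Cs N))) ((a, b), false) : Cs N) : V N → ℝ) = fun _ => 0 := rfl
      rw [h1, fderiv_fun_const]
      rfl
    · exact hw1 (a, b)

/-- **integrality of Pontryagin numbers over the cube** -/
theorem int_cfR (hk : 1 ≤ k) (hr : 2 * k ≤ r) {P : Matrix ι ι (Cs ((2 : ℕ) * ((2 : ℕ) * k)))} (hP : P * P = P) (hs : Pᵀ = P)
    (ht : trace P = (r : Cs ((2 : ℕ) * ((2 : ℕ) * k)))) (hF : ∀ i, FC (entR P) i) :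
    ∃ m : ℤ, cI ((2 : ℕ) * ((2 : ℕ) * k)) ((GDA.cf ((FF ((2 : ℕ) * ((2 : ℕ) * k))).idem hP) ((2 : ℕ) * k) : (GF ((2 : ℕ) * ((2 : ℕ) * k))).Zc) : Fm ((2 : ℕ) * ((2 : ℕ) * k))) =
      (2 * π) ^ ((2 : ℕ) * k) * m := by
  obtain ⟨m, hm⟩ := int_cf (q := 2 * k) (by omega) hr (HA_real hP hs ht) fun i => FC_real (hF i)
  have h1 : chf (HA_real hP hs ht) ((2 : ℕ) * k) =
      CB.ofR ((GDA.cf ((FF ((2 : ℕ) * ((2 : ℕ) * k))).idem hP) ((2 : ℕ) * k) : (GF ((2 : ℕ) * ((2 : ℕ) * k))).Zc) : Fm ((2 : ℕ) * ((2 : ℕ) * k))) := by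
    have h2 := GDA.map_cf (GHom.ofR (GF ((2 : ℕ) * ((2 : ℕ) * k)))) ((FF ((2 : ℕ) * ((2 : ℕ) * k))).idem hP) ((2 : ℕ) * k)
    have h3 := cf_eq (show (P.map (FF ((2 : ℕ) * ((2 : ℕ) * k))).f).map (GHom.ofR (GF ((2 : ℕ) * ((2 : ℕ) * k)))).f =
      (P.map CB.ofR : Matrix ι ι (CB (Cs ((2 : ℕ) * ((2 : ℕ) * k))))).map (FF ((2 : ℕ) * ((2 : ℕ) * k))).C.f from (map_ofR (φ := FF ((2 : ℕ) * ((2 : ℕ) * k))) P).symm)
      ((GHom.ofR (GF ((2 : ℕ) * ((2 : ℕ) * k)))).idem ((FF ((2 : ℕ) * ((2 : ℕ) * k))).idem hP)) ((FF ((2 : ℕ) * ((2 : ℕ) * k))).C.idem (HA_real hP hs ht).idem) ((2 : ℕ) * k)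
    rw [h3] at h2
    exact (congrArg Subtype.val h2).symm
  have h4 : (CB.I ^ ((2 : ℕ) * k) : CB (Fm ((2 : ℕ) * ((2 : ℕ) * k)))) = CB.ofR ((-1) ^ k) := by
    rw [pow_mul, pow_two, CB.I_mul_I, map_pow, map_neg, map_one]
  rw [h1, h4, ← map_mul, CB.ofR_re] at hm
  rcases neg_one_pow_eq_or (Fm ((2 : ℕ) * ((2 : ℕ) * k))) k with h5 | h5
  · rw [h5, one_mul] at hm
    exact ⟨m, hm⟩
  · rw [h5, neg_one_mul, cI_neg] at hm
    refine ⟨-m, ?_⟩
    push_cast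
    linarith

/-- **along a plot** -/
theorem int_cfX (hk : 1 ≤ k) (hr : 2 * k ≤ r) {P : Matrix ι ι (SF X)} (hP : P * P = P) (hs : Pᵀ = P)
    (ht : trace P = (r : SF X)) (a : X.Plot ((2 : ℕ) * ((2 : ℕ) * k))) (hF : ∀ i, FC (entR (P.map (FHom.on a).g)) i) :
    ∃ m : ℤ, cI ((2 : ℕ) * ((2 : ℕ) * k)) (Om.on ((GDA.cf ((FO X).idem hP) ((2 : ℕ) * k) : (GO X).Zc) : Om X) a) = (2 * π) ^ ((2 : ℕ) * k) * m := by
  have hP' : P.map (FHom.on a).g * P.map (FHom.on a).g = P.map (FHom.on a).g := by rw [← Matrix.map_mul, hP]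
  have hs' : (P.map (FHom.on a).g)ᵀ = P.map (FHom.on a).g := by rw [← Matrix.transpose_map, hs]
  have ht' : trace (P.map (FHom.on a).g) = (r : Cs ((2 : ℕ) * ((2 : ℕ) * k))) := by
    have h1 := congrArg (FHom.on a).g ht
    rw [map_natCast] at h1
    rw [← h1]
    exact (AddMonoidHom.map_trace (FHom.on a).g.toAddMonoidHom P).symm
  obtain ⟨m, hm⟩ := int_cfR hk hr hP' hs' ht' hF
  refine ⟨m, ?_⟩
  rw [← hm]
  congr 1
  have h2 := GDA.map_cf (FHom.on a).h ((FO X).idem hP) ((2 : ℕ) * k)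
  have h3 := cf_eq (show (P.map (FO X).f).map (FHom.on a).h.f = (P.map (FHom.on a).g).map (FF ((2 : ℕ) * ((2 : ℕ) * k))).f from
    Matrix.ext fun i j => (FHom.on a).com (P i j)) ((FHom.on a).h.idem ((FO X).idem hP)) ((FF ((2 : ℕ) * ((2 : ℕ) * k))).idem hP') ((2 : ℕ) * k)
  rw [h3] at h2
  exact congrArg Subtype.val h2

end Pool.Agent.Lib.MP_ccbbf6_gt.L5.IC
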