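import Pool.Agent.Lib.MP_ccbbf6_gt.L4.FXb

/-!
# Level 5, DGP: the component of degree `j` of a form (helper56)

`dpO j : Om X →ₗ Om X`; it commutes with pull-backs, `dpO (j + 1) ∘ d = d ∘ dpO j`. Consequence: an exact form of degree
`j + 1` has a primitive of degree `j`.
-/

set_option autoImplicit false
set_option maxSynthPendingDepth 3

noncomputable section

namespace Pool.Agent.Lib.MP_ccbbf6_gt.L5

open L4 L4.FR

variable {k l i j : ℕ}

/-- the component of degree `j` in the exterior algebra -/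
def dpE (k j : ℕ) : Ex k →ₗ[ℝ] Ex k where
  toFun a := (DirectSum.decompose (fun i => ⋀[ℝ]^i (V k)) a j : Ex k)
  map_add' a b := by
    rw [DirectSum.decompose_add, DirectSum.add_apply, Submodule.coe_add]
  map_smul' r a := by
    rw [DirectSum.decompose_smul, DirectSum.smul_apply, Submodule.coe_smul, RingHom.id_apply]

theorem dpE_mem (j : ℕ) (a : Ex k) : dpE k j a ∈ ⋀[ℝ]^j (V k) :=
  (DirectSum.decompose (fun i => ⋀[ℝ]^i (V k)) a j).2

theorem dpE_same {a : Ex k} (h : a ∈ ⋀[ℝ]^j (V k)) : dpE k j a = a :=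
  DirectSum.decompose_of_mem_same (fun i => ⋀[ℝ]^i (V k)) h

theorem dpE_ne {a : Ex k} (h : a ∈ ⋀[ℝ]^i (V k)) (hij : i ≠ j) : dpE k j a = 0 :=
  DirectSum.decompose_of_mem_ne (fun i => ⋀[ℝ]^i (V k)) h hij

theorem dpE_sum (a : Ex k) : ∑ j ∈ Finset.range (k + 1), dpE k j a = a := by
  classical
  conv_rhs => rw [← DirectSum.sum_support_decompose (fun i => ⋀[ℝ]^i (V k)) a]
  refine (Finset.sum_subset (fun j hj => ?_) fun j _ hj => ?_).symm
  · rw [Finset.mem_range]
    by_contra h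
    rw [DFinsupp.mem_support_iff] at hj
    exact hj (Subtype.ext (ext_zero (by omega) (dpE_mem j a)))
  · rw [DFinsupp.notMem_support_iff] at hj
    exact congrArg Subtype.val hj

/-- the component of degree `j` of a form on `ℝ^k` -/
def dpF (k j : ℕ) : Fm k →ₗ[ℝ] Fm k := tmap LinearMap.id (dpE k j)

theorem ev_dpF (x : V k) (θ : Fm k) : ev x (dpF k j θ) = dpE k j (ev x θ) := by
  induction θ using Fm_tind with
  | hf f a => rw [dpF, tmap_tm, ev_tm, ev_tm, map_smul]; rfl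
  | ha θ τ h1 h2 => rw [map_add, map_add, map_add, map_add, h1, h2]

theorem dpF_sum (θ : Fm k) : ∑ j ∈ Finset.range (k + 1), dpF k j θ = θ := ev_ext fun x => by
  rw [map_sum]
  simp only [ev_dpF]
  exact dpE_sum _

/-- elements of the exterior power are homogeneous -/
theorem s2_of_mem {a : Ex k} (h : a ∈ ⋀[ℝ]^j (V k)) : s2 k a = (2 : ℝ) ^ j • a := s2_mem h

theorem ivo_of_mem {a : Ex k} (h : a ∈ ⋀[ℝ]^j (V k)) : ivo k a = (-1 : ℝ) ^ j • a := by
  rw [← ExteriorAlgebra.ιMulti_span_fixedDegree] at h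
  induction h using Submodule.span_induction with
  | mem x hx =>
    obtain ⟨v, rfl⟩ := hx
    rw [ExteriorAlgebra.ιMulti_apply, map_list_prod, List.map_ofFn]
    have h1 : (⇑(ivo k) ∘ fun i => (ExteriorAlgebra.ι ℝ) (v i)) = fun i => -(ExteriorAlgebra.ι ℝ) (v i) := by
      funext i
      exact ivo_ι (v i)
    rw [h1]
    have h2 : ∀ (n : ℕ) (f : Fin n → Ex k), (List.ofFn fun i => -f i).prod = (-1 : ℝ) ^ n • (List.ofFn f).prod := by
      intro n
      induction n with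
      | zero => intro f; rw [List.ofFn_zero, List.ofFn_zero, pow_zero, one_smul]
      | succ n ih =>
        intro f
        rw [List.ofFn_succ, List.ofFn_succ, List.prod_cons, List.prod_cons, ih, pow_succ, mul_smul_comm, neg_mul,
          smul_neg, mul_neg_one, neg_smul]
    exact h2 _ _
  | zero => rw [map_zero, smul_zero]
  | add x y _ _ hx hy => rw [map_add, hx, hy, smul_add]
  | smul r x _ hx => rw [map_smul, hx, smul_comm]

theorem ev_sg_dp (x : V k) (θ : Fm k) : ev x (sg k θ) = ivo k (ev x θ) := by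
  induction θ using Fm_tind with
  | hf f a => rw [sg_tm, ev_tm, ev_tm, map_smul]
  | ha θ τ h1 h2 => rw [map_add, map_add, map_add, map_add, h1, h2]

theorem Dg_of_ev {θ : Fm k} (h : ∀ x, ev x θ ∈ ⋀[ℝ]^j (V k)) : Dg j θ :=
  ⟨ev_ext fun x => by rw [ev_Sc, s2_of_mem (h x), map_smul], ev_ext fun x => by rw [ev_sg_dp, ivo_of_mem (h x), map_smul]⟩

theorem Dg_dpF (j : ℕ) (θ : Fm k) : Dg j (dpF k j θ) := Dg_of_ev fun x => by
  rw [ev_dpF]
  exact dpE_mem j _

theorem dpF_same {θ : Fm k} (h : Dg j θ) : dpF k j θ = θ := ev_ext fun x => by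
  rw [ev_dpF]
  exact dpE_same (Dg_ev h x)

theorem dpF_ne {θ : Fm k} (h : Dg i θ) (hij : i ≠ j) : dpF k j θ = 0 := ev_ext fun x => by
  rw [ev_dpF, map_zero]
  exact dpE_ne (Dg_ev h x) hij

theorem dpF_big (h : k < j) (θ : Fm k) : dpF k j θ = 0 := Dg_big h (Dg_dpF j θ)

/-- naturality for linear maps which shift the degree by `d` -/
theorem dpF_nat (A : Fm k →ₗ[ℝ] Fm l) (d : ℕ) (hA : ∀ (i : ℕ) (θ : Fm k), Dg i θ → Dg (i + d) (A θ)) (j : ℕ) (θ : Fm k) :
    dpF l (j + d) (A θ) = A (dpF k j θ) := by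
  conv_lhs => rw [← dpF_sum θ]
  rw [map_sum, map_sum]
  by_cases hj : j ∈ Finset.range (k + 1)
  · rw [Finset.sum_eq_single_of_mem j hj fun i _ hi => ?_]
    · exact dpF_same (hA _ _ (Dg_dpF j θ))
    · exact dpF_ne (hA _ _ (Dg_dpF i θ)) (by omega)
  · rw [dpF_big (by rw [Finset.mem_range] at hj; omega) θ, map_zero]
    refine Finset.sum_eq_zero fun i hi => ?_
    exact dpF_ne (hA _ _ (Dg_dpF i θ)) (by rw [Finset.mem_range] at hi hj; omega)

theorem dpF_pb (g : Sm k l) (j : ℕ) (θ : Fm l) : dpF k j (pb g θ) = pb g (dpF l j θ) :=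
  dpF_nat (pb g).toLinearMap 0 (fun _ _ h => Dg_pb g h) j θ

theorem dpF_dd (j : ℕ) (θ : Fm k) : dpF k (j + 1) (dd k θ) = dd k (dpF k j θ) :=
  dpF_nat (dd k) 1 (fun _ _ h => Dg_dd h) j θ

theorem dpF_dd_zero (θ : Fm k) : dpF k 0 (dd k θ) = 0 := by
  conv_lhs => rw [← dpF_sum θ]
  rw [map_sum, map_sum]
  exact Finset.sum_eq_zero fun i _ => dpF_ne (Dg_dd (Dg_dpF i θ)) (by omega)

variable {X Y : Space}

/-- the component of degree `j` -/
def dpO (X : Space) (j : ℕ) : Om X →ₗ[ℝ] Om X where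
  toFun θ := mkO (fun k p => dpF k j (Om.on θ p)) fun k l p g => by rw [on_cmp, dpF_pb]
  map_add' θ τ := Om_ext fun k p => by rw [on_mkO, on_add, map_add, on_add, on_mkO, on_mkO]
  map_smul' r θ := Om_ext fun k p => by rw [on_mkO, on_smul, map_smul, RingHom.id_apply, on_smul, on_mkO]

theorem on_dp (j : ℕ) (θ : Om X) (p : X.Plot k) : Om.on (dpO X j θ) p = dpF k j (Om.on θ p) := rfl

theorem Deg_dp (j : ℕ) (θ : Om X) : Deg j (dpO X j θ) := fun _ p => Dg_dpF j (Om.on θ p)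

theorem dp_same {θ : Om X} (h : Deg j θ) : dpO X j θ = θ := Om_ext fun k p => by rw [on_dp, dpF_same (h k p)]

theorem dp_ne {θ : Om X} (h : Deg i θ) (hij : i ≠ j) : dpO X j θ = 0 :=
  Om_ext fun k p => by rw [on_dp, dpF_ne (h k p) hij, on_zero]

theorem dp_pull (f : SMap X Y) (j : ℕ) (θ : Om Y) : dpO X j (f.pull θ) = f.pull (dpO Y j θ) := rfl

theorem dp_d (j : ℕ) (θ : Om X) : dpO X (j + 1) (dO X θ) = dO X (dpO X j θ) :=
  Om_ext fun k p => by rw [on_dp, on_d, dpF_dd, on_d, on_dp]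

theorem dp_d_zero (θ : Om X) : dpO X 0 (dO X θ) = 0 :=
  Om_ext fun k p => by rw [on_dp, on_d, dpF_dd_zero, on_zero]

/-- an exact form of degree `j + 1` has a primitive of degree `j` -/
theorem exists_prim_Deg {w ξ : Om X} (h : w = dO X ξ) (hw : Deg (j + 1) w) : ∃ ξ' : Om X, Deg j ξ' ∧ w = dO X ξ' :=
  ⟨dpO X j ξ, Deg_dp j ξ, by rw [← dp_d, ← h, dp_same hw]⟩

/-- an exact form of degree `0` vanishes -/
theorem exact_Deg_zero {w ξ : Om X} (h : w = dO X ξ) (hw : Deg 0 w) : w = 0 := by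
  rw [← dp_same hw, h, dp_d_zero]

end Pool.Agent.Lib.MP_ccbbf6_gt.L5
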