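import Pool.Agent.Lib.MP_ccbbf6_gt.L5.CW0

/-!
# Level 5, CW1: homotopy invariance, isomorphic bundles, additivity (helper13)
-/

set_option autoImplicit false
set_option linter.unusedSectionVars false

noncomputable section

namespace Pool.Agent.Lib.MP_ccbbf6_gt.L5

open Matrix

/-- morphisms of differential algebras -/
structure GHom {B B' : Type*} [Ring B] [Algebra ℝ B] [Ring B'] [Algebra ℝ B'] (G : GDA B) (G' : GDA B') where
  /-- the ring homomorphism -/
  f : B →ₐ[ℝ] B'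
  f_d : ∀ a, f (G.d a) = G'.d (f a)
  f_s : ∀ a, f (G.s a) = G'.s (f a)

/-- the algebra of the product with an interval -/
structure Cyl {B B' : Type*} [Ring B] [Algebra ℝ B] [Ring B'] [Algebra ℝ B'] (G : GDA B) (G' : GDA B') where
  /-- pull-back -/
  p : GHom G G'
  /-- restriction to the left end -/
  j0 : GHom G' G
  /-- restriction to the right end -/
  j1 : GHom G' G
  /-- fibre integration -/
  K : B' →ₗ[ℝ] B
  j0_p : ∀ a, j0.f (p.f a) = a
  j1_p : ∀ a, j1.f (p.f a) = a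
  dK : ∀ a, G.d (K a) + K (G'.d a) = j1.f a - j0.f a
  /-- cosine -/
  c : B'
  /-- sine -/
  t : B'
  c_s : G'.s c = c
  t_s : G'.s t = t
  ct : c * c + t * t = 1
  c0 : j0.f c = 1
  t0 : j0.f t = 0
  c1 : j1.f c = 0
  t1 : j1.f t = 1

variable {B B' : Type*} [Ring B] [Algebra ℝ B] [Ring B'] [Algebra ℝ B'] {G : GDA B} {G' : GDA B'}

variable {ι κ μ : Type*} [Fintype ι] [Fintype κ] [Fintype μ] [DecidableEq ι] [DecidableEq κ] [DecidableEq μ]

namespace GHom

variable (f : GHom G G')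

theorem map_mul' (M : Matrix ι κ B) (N : Matrix κ μ B) : (M * N).map f.f = M.map f.f * N.map f.f := Matrix.map_mul

theorem map_D (M : Matrix ι κ B) : (G.D M).map f.f = G'.D (M.map f.f) := by
  ext i j
  exact f.f_d _

theorem map_S (M : Matrix ι κ B) : (G.S M).map f.f = G'.S (M.map f.f) := by
  ext i j
  exact f.f_s _

theorem ev {M : Matrix ι κ B} (h : G.Ev M) : G'.Ev (M.map f.f) := by
  unfold GDA.Ev
  rw [← f.map_S, h]

theorem idem {P : Matrix ι ι B} (h : G.Idem P) : G'.Idem (P.map f.f) := by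
  constructor
  · rw [← f.map_mul', h.idem]
  · exact f.ev h.ev

theorem map_R (P : Matrix ι ι B) : (G.R P).map f.f = G'.R (P.map f.f) := by
  unfold GDA.R
  rw [f.map_mul', f.map_D]

theorem map_pow' (M : Matrix ι ι B) (j : ℕ) : (M ^ j).map f.f = M.map f.f ^ j := by
  induction j with
  | zero =>
    rw [pow_zero, pow_zero]
    exact Matrix.map_one _ f.f.map_zero f.f.map_one
  | succ j ih => rw [pow_succ, pow_succ, f.map_mul', ih]

theorem map_trace (M : Matrix ι ι B) : f.f (trace M) = trace (M.map f.f) := by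
  unfold trace
  rw [map_sum]
  rfl

/-- naturality -/
theorem ps (P : Matrix ι ι B) (j : ℕ) : f.f (G.ps P j) = G'.ps (P.map f.f) j := by
  unfold GDA.ps
  rw [f.map_trace, f.map_mul', f.map_pow', f.map_R]

end GHom

namespace GDA

/-! ### block matrices -/

theorem D_fromBlocks (M₁ : Matrix ι κ B) (M₂ : Matrix ι μ B) {ν : Type*} (M₃ : Matrix ν κ B) (M₄ : Matrix ν μ B) :
    G.D (fromBlocks M₁ M₂ M₃ M₄) = fromBlocks (G.D M₁) (G.D M₂) (G.D M₃) (G.D M₄) := by
  unfold GDA.D
  rw [Matrix.fromBlocks_map]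

theorem S_fromBlocks (M₁ : Matrix ι κ B) (M₂ : Matrix ι μ B) {ν : Type*} (M₃ : Matrix ν κ B) (M₄ : Matrix ν μ B) :
    G.S (fromBlocks M₁ M₂ M₃ M₄) = fromBlocks (G.S M₁) (G.S M₂) (G.S M₃) (G.S M₄) := by
  unfold GDA.S
  rw [Matrix.fromBlocks_map]

theorem diag_pow (M : Matrix ι ι B) (N : Matrix κ κ B) (j : ℕ) :
    (fromBlocks M 0 0 N) ^ j = fromBlocks (M ^ j) 0 0 (N ^ j) := by
  induction j with
  | zero => rw [pow_zero, pow_zero, pow_zero, fromBlocks_one]
  | succ j ih =>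
    rw [pow_succ, pow_succ, pow_succ, ih, fromBlocks_multiply]
    simp only [Matrix.mul_zero, Matrix.zero_mul, add_zero, zero_add]

theorem R_diag (P : Matrix ι ι B) (Q : Matrix κ κ B) :
    G.R (fromBlocks P 0 0 Q) = fromBlocks (G.R P) 0 0 (G.R Q) := by
  unfold GDA.R
  rw [D_fromBlocks, fromBlocks_multiply]
  simp only [D_zero, Matrix.mul_zero, Matrix.zero_mul, add_zero, zero_add]

/-- direct sums -/
theorem ps_diag (P : Matrix ι ι B) (Q : Matrix κ κ B) (j : ℕ) :
    G.ps (fromBlocks P 0 0 Q) j = G.ps P j + G.ps Q j := by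
  unfold GDA.ps
  rw [R_diag, diag_pow, fromBlocks_multiply]
  simp only [Matrix.mul_zero, Matrix.zero_mul, add_zero, zero_add]
  simp only [Matrix.trace, Fintype.sum_sum_type, Matrix.diag_apply, fromBlocks_apply₁₁, fromBlocks_apply₂₂]

theorem ps_of_zero (j : ℕ) : G.ps (0 : Matrix ι ι B) j = 0 := by
  unfold GDA.ps
  rw [Matrix.zero_mul, Matrix.trace_zero]

theorem Idem.diag {P : Matrix ι ι B} {Q : Matrix κ κ B} (h : G.Idem P) (h' : G.Idem Q) :
    G.Idem (fromBlocks P 0 0 Q) := by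
  constructor
  · rw [fromBlocks_multiply]
    simp only [Matrix.mul_zero, Matrix.zero_mul, add_zero, zero_add, h.idem, h'.idem]
  · unfold GDA.Ev
    rw [S_fromBlocks, h.ev, h'.ev, S_zero, S_zero]

theorem idem_zero : G.Idem (0 : Matrix ι ι B) := ⟨Matrix.mul_zero _, ev_zero⟩

theorem idem_one : G.Idem (1 : Matrix ι ι B) := ⟨Matrix.mul_one _, ev_one⟩

theorem ps_one {j : ℕ} (hj : j ≠ 0) : G.ps (1 : Matrix ι ι B) j = 0 := by
  unfold GDA.ps GDA.R
  rw [D_one, Matrix.mul_zero, zero_pow hj, Matrix.mul_zero, Matrix.trace_zero]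

end GDA

namespace Cyl

variable (C : Cyl G G')

theorem K_zero : C.K 0 = 0 := map_zero C.K

/-- homotopy invariance -/
theorem homotopy {E : Matrix ι ι B'} (h : G'.Idem E) (j : ℕ) :
    G.ps (E.map C.j1.f) j - G.ps (E.map C.j0.f) j = G.d (C.K (G'.ps E j)) := by
  have h1 := C.dK (G'.ps E j)
  rw [h.d_ps, C.K_zero, add_zero] at h1
  rw [← C.j1.ps, ← C.j0.ps, h1]

theorem c_comm (a : B') : C.c * a = a * C.c := G'.comm_even _ _ C.c_s

theorem t_comm (a : B') : C.t * a = a * C.t := G'.comm_even _ _ C.t_s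

theorem mul_smul' {x : B'} (hx : G'.s x = x) (M : Matrix ι κ B') (N : Matrix κ μ B') :
    M * (x • N) = x • (M * N) := by
  ext i j
  rw [Matrix.mul_apply, Matrix.smul_apply, Matrix.mul_apply, smul_eq_mul, Finset.mul_sum]
  refine Finset.sum_congr rfl fun k _ => ?_
  rw [Matrix.smul_apply, smul_eq_mul, ← mul_assoc, ← mul_assoc, G'.comm_even _ _ hx]

theorem smul_mul' {x : B'} (M : Matrix ι κ B') (N : Matrix κ μ B') : (x • M) * N = x • (M * N) := by
  ext i j
  rw [Matrix.mul_apply, Matrix.smul_apply, Matrix.mul_apply, smul_eq_mul, Finset.mul_sum]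
  refine Finset.sum_congr rfl fun k _ => ?_
  rw [Matrix.smul_apply, smul_eq_mul, mul_assoc]

theorem ev_smul {x : B'} (hx : G'.s x = x) {M : Matrix ι κ B'} (h : G'.Ev M) : G'.Ev (x • M) := by
  unfold GDA.Ev
  ext i j
  rw [GDA.S_apply, Matrix.smul_apply, smul_eq_mul, map_mul, hx, h.app]

/-- left factor -/
def u (P : Matrix ι ι B) (b : Matrix κ ι B) : Matrix (ι ⊕ κ) ι B' :=
  fromRows (C.c • P.map C.p.f) (C.t • b.map C.p.f)

/-- right factor -/
def v (P : Matrix ι ι B) (a : Matrix ι κ B) : Matrix ι (ι ⊕ κ) B' :=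
  fromCols (C.c • P.map C.p.f) (C.t • a.map C.p.f)

/-- the isomorphism as a path of idempotents -/
def E (P : Matrix ι ι B) (a : Matrix ι κ B) (b : Matrix κ ι B) : Matrix (ι ⊕ κ) (ι ⊕ κ) B' := C.u P b * C.v P a

section iso

variable {P : Matrix ι ι B} {a : Matrix ι κ B} {b : Matrix κ ι B} (hP : G.Idem P) (ha : G.Ev a) (hb : G.Ev b)
  (h1 : a * b = P) (h2 : P * a = a)

include hP h1 in
theorem v_u : C.v P a * C.u P b = P.map C.p.f := by
  have m1 : P.map C.p.f * P.map C.p.f = P.map C.p.f := by rw [← C.p.map_mul', hP.idem]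
  have m3 : a.map C.p.f * b.map C.p.f = P.map C.p.f := by rw [← C.p.map_mul', h1]
  unfold u v
  rw [fromCols_mul_fromRows, smul_mul', mul_smul' C.c_s, m1, smul_mul', mul_smul' C.t_s, m3, smul_smul, smul_smul,
    ← add_smul, C.ct, one_smul]

include hP h2 in
theorem P_v : P.map C.p.f * C.v P a = C.v P a := by
  have m1 : P.map C.p.f * P.map C.p.f = P.map C.p.f := by rw [← C.p.map_mul', hP.idem]
  have m3 : P.map C.p.f * a.map C.p.f = a.map C.p.f := by rw [← C.p.map_mul', h2]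
  unfold v
  rw [mul_fromCols, mul_smul' C.c_s, m1, mul_smul' C.t_s, m3]

include hP ha hb h1 h2 in
theorem idem_E : G'.Idem (C.E P a b) := by
  constructor
  · unfold E
    rw [Matrix.mul_assoc, ← Matrix.mul_assoc (C.v P a), C.v_u hP h1, C.P_v hP h2]
  · have e1 := ev_smul C.c_s (C.p.ev hP.ev)
    have e2 := ev_smul C.t_s (C.p.ev ha)
    have e3 := ev_smul C.t_s (C.p.ev hb)
    have hu : G'.Ev (C.u P b) := by
      unfold GDA.Ev
      ext i j
      rcases i with i | i
      · exact e1.app i j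
      · exact e3.app i j
    have hv : G'.Ev (C.v P a) := by
      unfold GDA.Ev
      ext i j
      rcases j with j | j
      · exact e1.app i j
      · exact e2.app i j
    exact hu.mul hv

theorem map_smul' (f : GHom G' G) (x : B') (M : Matrix ι κ B') : (x • M).map f.f = f.f x • M.map f.f := by
  ext i j
  exact f.f.map_mul _ _

theorem map_p0 (M : Matrix ι κ B) : (M.map C.p.f).map C.j0.f = M := by
  ext i j
  exact C.j0_p _

theorem map_p1 (M : Matrix ι κ B) : (M.map C.p.f).map C.j1.f = M := by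
  ext i j
  exact C.j1_p _

include hP in
theorem E_0 : (C.E P a b).map C.j0.f = fromBlocks P 0 0 0 := by
  have e1 : (C.u P b).map C.j0.f = fromRows P 0 := by
    unfold u
    rw [fromRows_map, map_smul', map_smul', C.map_p0, C.map_p0, C.c0, C.t0, one_smul, zero_smul]
  have e2 : (C.v P a).map C.j0.f = fromCols P 0 := by
    unfold v
    rw [fromCols_map, map_smul', map_smul', C.map_p0, C.map_p0, C.c0, C.t0, one_smul, zero_smul]
  unfold E
  rw [C.j0.map_mul', e1, e2, fromRows_mul_fromCols, hP.idem, Matrix.mul_zero, Matrix.zero_mul, Matrix.mul_zero]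

theorem E_1 : (C.E P a b).map C.j1.f = fromBlocks 0 0 0 (b * a) := by
  have e1 : (C.u P b).map C.j1.f = fromRows 0 b := by
    unfold u
    rw [fromRows_map, map_smul', map_smul', C.map_p1, C.map_p1, C.c1, C.t1, one_smul, zero_smul]
  have e2 : (C.v P a).map C.j1.f = fromCols 0 a := by
    unfold v
    rw [fromCols_map, map_smul', map_smul', C.map_p1, C.map_p1, C.c1, C.t1, one_smul, zero_smul]
  unfold E
  rw [C.j1.map_mul', e1, e2, fromRows_mul_fromCols, Matrix.mul_zero, Matrix.zero_mul, Matrix.mul_zero]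

include hP ha hb h1 h2 in
theorem iso_aux (j : ℕ) : G.ps (b * a) j - G.ps P j = G.d (C.K (G'.ps (C.E P a b) j)) := by
  have h := C.homotopy (C.idem_E hP ha hb h1 h2) j
  rw [C.E_0 hP, C.E_1, GDA.ps_diag, GDA.ps_diag, GDA.ps_of_zero, GDA.ps_of_zero, zero_add, add_zero] at h
  exact h

end iso

/-- **isomorphic bundles**: if `P = a b` and `Q = b a` then the power sums differ by an exact form -/
theorem iso {P : Matrix ι ι B} {Q : Matrix κ κ B} {a : Matrix ι κ B} {b : Matrix κ ι B} (hP : G.Idem P)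
    (hQ : G.Idem Q) (ha : G.Ev a) (hb : G.Ev b) (h1 : a * b = P) (h2 : b * a = Q) (j : ℕ) :
    G.ps Q j - G.ps P j = G.d (C.K (G'.ps (C.E P (P * a) b) j)) := by
  have e1 : P * a * b = P := by rw [Matrix.mul_assoc, h1, hP.idem]
  have e2 : P * (P * a) = P * a := by rw [← Matrix.mul_assoc, hP.idem]
  have e3 : b * (P * a) = Q := by
    rw [← h1, Matrix.mul_assoc, ← Matrix.mul_assoc b, h2, hQ.idem]
  have h := C.iso_aux hP (hP.ev.mul ha) hb e1 e2 j
  rw [e3] at h
  exact h

include C in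
theorem iso' {P : Matrix ι ι B} {Q : Matrix κ κ B} {a : Matrix ι κ B} {b : Matrix κ ι B} (hP : G.Idem P)
    (hQ : G.Idem Q) (ha : G.Ev a) (hb : G.Ev b) (h1 : a * b = P) (h2 : b * a = Q) (j : ℕ) :
    ∃ ξ, G.ps Q j = G.ps P j + G.d ξ :=
  ⟨_, by rw [← C.iso hP hQ ha hb h1 h2 j, add_sub_cancel]⟩

include C in
/-- additivity -/
theorem add {P Q : Matrix ι ι B} (hP : G.Idem P) (hQ : G.Idem Q) (h1 : P * Q = 0) (h2 : Q * P = 0) (j : ℕ) :
    ∃ ξ, G.ps (P + Q) j = G.ps P j + G.ps Q j + G.d ξ := by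
  have e1 : fromRows P Q * fromCols P Q = fromBlocks P 0 0 Q := by
    rw [fromRows_mul_fromCols, hP.idem, hQ.idem, h1, h2]
  have e2 : fromCols P Q * fromRows P Q = P + Q := by
    rw [fromCols_mul_fromRows, hP.idem, hQ.idem]
  have e3 : G.Ev (fromRows P Q) := by
    unfold GDA.Ev
    ext i k
    rcases i with i | i
    · exact hP.ev.app i k
    · exact hQ.ev.app i k
  have e4 : G.Ev (fromCols P Q) := by
    unfold GDA.Ev
    ext i k
    rcases k with k | k
    · exact hP.ev.app i k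
    · exact hQ.ev.app i k
  have e5 : G.Idem (P + Q) := by
    constructor
    · rw [Matrix.add_mul, Matrix.mul_add, Matrix.mul_add, hP.idem, hQ.idem, h1, h2, add_zero, zero_add]
    · exact hP.ev.add hQ.ev
  obtain ⟨ξ, hξ⟩ := C.iso' (hP.diag hQ) e5 e3 e4 e1 e2 j
  exact ⟨ξ, by rw [hξ, GDA.ps_diag]⟩

include C in
/-- two idempotents with the same image -/
theorem same {P Q : Matrix ι ι B} (hP : G.Idem P) (hQ : G.Idem Q) (h1 : P * Q = Q) (h2 : Q * P = P) (j : ℕ) :
    ∃ ξ, G.ps Q j = G.ps P j + G.d ξ :=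
  C.iso' hP hQ hQ.ev hP.ev h2 h1 j

end Cyl

end Pool.Agent.Lib.MP_ccbbf6_gt.L5
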