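import Pool.Agent.Lib.MP_ccbbf6_gt.L4.FI2
import Pool.Agent.Lib.MP_ccbbf6_gt.L4.FXb
import Pool.Agent.Lib.MP_ccbbf6_gt.L5.CW1

/-!
# Level 5, CWo: the differential algebras `Om X` and basic forms, cylinders (helper13)
-/

set_option autoImplicit false
set_option maxSynthPendingDepth 3
set_option linter.unusedSectionVars false

open scoped ContDiff

noncomputable section

namespace Pool.Agent.Lib.MP_ccbbf6_gt.L5

open L4 L4.FR

variable {k l : ℕ} {X Y Z : Space}

theorem odd_comm_Fm {x : Fm k} (hx : sg k x = -x) (y : Fm k) : x * y = sg k y * x := by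
  induction y using Fm_ind with
  | hf f => rw [sg_fc, fc_comm]
  | hd i =>
    have h : ∀ x : Fm k, dx i * x = sg k x * dx i := by
      intro x
      induction x using Fm_tind with
      | hf f a =>
        rw [dx, cf_apply, tm_mul, sg_tm, tm_mul, one_mul, mul_one, ee, ι_swap]
      | ha x y hx hy => rw [mul_add, hx, hy, map_add, add_mul]
    have h2 : sg k (dx i) = -dx i := by
      rw [sg_dx]
    rw [h2, neg_mul, h, hx, neg_mul, neg_neg]
  | hm y z hy hz => rw [← mul_assoc, hy, mul_assoc, hz, map_mul, mul_assoc]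
  | ha y z hy hz => rw [mul_add, hy, hz, map_add, add_mul]

theorem odd_comm' {x : Om X} (hx : sO X x = -x) (y : Om X) : x * y = sO X y * x :=
  Om_ext fun k p => by
    rw [on_mul, on_mul, on_s]
    exact odd_comm_Fm (by rw [← on_s, hx, on_neg]) _

/-- the differential algebra of a space -/
def GO (X : Space) : GDA (Om X) where
  d := dO X
  s := sO X
  s_s := s_s
  d_d := d_d
  d_mul := d_mul
  s_d := s_d
  comm_even := fun a b h => even_comm' h b
  comm_odd := fun a b h h' => by
    have h1 := odd_comm' h b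
    have h2 : sO X b = -b := h'
    rw [h1, h2, neg_mul]

theorem GO_d (a : Om X) : (GO X).d a = dO X a := rfl
theorem GO_s (a : Om X) : (GO X).s a = sO X a := rfl

/-- pull-backs -/
def GHom.pull (f : SMap X Y) : GHom (GO Y) (GO X) where
  f := f.pull
  f_d := fun _ => rfl
  f_s := fun _ => rfl

/-- functions of the parameter -/
def par (X : Space) (g : ℝ → ℝ) (hg : ContDiff ℝ ∞ g) : Om X.xR :=
  fO (fun z => g z.2) fun _ p => hg.comp p.2.2

theorem fO_congr {f g : X.pt → ℝ} (hf : ∀ (k : ℕ) (p : X.Plot k), ContDiff ℝ ∞ fun x => f (p.1 x))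
    (hg : ∀ (k : ℕ) (p : X.Plot k), ContDiff ℝ ∞ fun x => g (p.1 x)) (h : f = g) : fO f hf = fO g hg := by
  subst h
  rfl

theorem s_fO {f : X.pt → ℝ} (hf : ∀ (k : ℕ) (p : X.Plot k), ContDiff ℝ ∞ fun x => f (p.1 x)) :
    sO X (fO f hf) = fO f hf :=
  Om_ext fun k p => by rw [on_s, on_fO, sg_fc]

theorem pull_fO {f : Y.pt → ℝ} (hf : ∀ (k : ℕ) (p : Y.Plot k), ContDiff ℝ ∞ fun x => f (p.1 x)) (φ : SMap X Y) :
    φ.pull (fO f hf) = fO (fun x => f (φ.1 x)) (fun k p => hf k (φ.pl p)) := rfl

theorem fO_mul {f g : X.pt → ℝ} (hf : ∀ (k : ℕ) (p : X.Plot k), ContDiff ℝ ∞ fun x => f (p.1 x))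
    (hg : ∀ (k : ℕ) (p : X.Plot k), ContDiff ℝ ∞ fun x => g (p.1 x)) :
    fO f hf * fO g hg = fO (fun x => f x * g x) (fun k p => (hf k p).mul (hg k p)) :=
  Om_ext fun k p => by
    rw [on_mul, on_fO, on_fO, on_fO, ← map_mul]
    rfl

theorem fO_add {f g : X.pt → ℝ} (hf : ∀ (k : ℕ) (p : X.Plot k), ContDiff ℝ ∞ fun x => f (p.1 x))
    (hg : ∀ (k : ℕ) (p : X.Plot k), ContDiff ℝ ∞ fun x => g (p.1 x)) :
    fO f hf + fO g hg = fO (fun x => f x + g x) (fun k p => (hf k p).add (hg k p)) :=
  Om_ext fun k p => by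
    rw [on_add, on_fO, on_fO, on_fO, ← map_add]
    rfl

theorem fO_one : fO (fun _ : X.pt => (1 : ℝ)) (fun _ _ => contDiff_const) = 1 :=
  Om_ext fun k p => by
    rw [on_fO, on_one, ← map_one (fc k)]
    rfl

theorem fO_zero : fO (fun _ : X.pt => (0 : ℝ)) (fun _ _ => contDiff_const) = 0 :=
  Om_ext fun k p => by
    rw [on_fO, on_zero, ← map_zero (fc k)]
    rfl

/-- the cylinder over `X` -/
def CylO (X : Space) : Cyl (GO X) (GO X.xR) where
  p := GHom.pull (pO X)
  j0 := GHom.pull (jO X 0)
  j1 := GHom.pull (jO X 1)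
  K := KO X
  j0_p := fun _ => rfl
  j1_p := fun _ => rfl
  dK := d_K
  c := par X (fun s => Real.cos (Real.pi / 2 * s)) (Real.contDiff_cos.comp (contDiff_const.mul contDiff_id))
  t := par X (fun s => Real.sin (Real.pi / 2 * s)) (Real.contDiff_sin.comp (contDiff_const.mul contDiff_id))
  c_s := s_fO _
  t_s := s_fO _
  ct := by
    unfold par
    rw [fO_mul, fO_mul, fO_add, ← fO_one]
    refine fO_congr _ _ (funext fun z => ?_)
    have := Real.cos_sq_add_sin_sq (Real.pi / 2 * z.2)
    rw [sq, sq] at this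
    exact this
  c0 := by
    change (jO X 0).pull (par X _ _) = 1
    unfold par
    rw [pull_fO, ← fO_one]
    refine fO_congr _ _ (funext fun z => ?_)
    change Real.cos (Real.pi / 2 * 0) = 1
    rw [mul_zero, Real.cos_zero]
  t0 := by
    change (jO X 0).pull (par X _ _) = 0
    unfold par
    rw [pull_fO, ← fO_zero]
    refine fO_congr _ _ (funext fun z => ?_)
    change Real.sin (Real.pi / 2 * 0) = 0
    rw [mul_zero, Real.sin_zero]
  c1 := by
    change (jO X 1).pull (par X _ _) = 0
    unfold par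
    rw [pull_fO, ← fO_zero]
    refine fO_congr _ _ (funext fun z => ?_)
    change Real.cos (Real.pi / 2 * 1) = 0
    rw [mul_one, Real.cos_pi_div_two]
  t1 := by
    change (jO X 1).pull (par X _ _) = 1
    unfold par
    rw [pull_fO, ← fO_one]
    refine fO_congr _ _ (funext fun z => ?_)
    change Real.sin (Real.pi / 2 * 1) = 1
    rw [mul_one, Real.sin_pi_div_two]

/-! ### basic forms -/

section basic

variable (c : Circ X)

/-- the graph map of the second coordinate -/
def grM (q : X.xR.Plot k) : FR.Sm k (k + 1) :=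
  ⟨fun u => Fin.snoc u (q.1 u).2, contDiff_snoc.comp (contDiff_id.prodMk q.2.2)⟩

theorem plot_xR (q : X.xR.Plot k) : q = (((pO X).pl q).up).cmp (grM q) := by
  refine Plot_ext fun u => ?_
  change q.1 u = ((q.1 (pr k (Fin.snoc u (q.1 u).2))).1, (Fin.snoc u (q.1 u).2 : V (k + 1)) (Fin.last k))
  rw [pr_snoc, Fin.snoc_last]
  rfl

theorem bas_iff (w : Om X) : Bas c w ↔ c.a.pull w = (pO X).pull w := by
  constructor
  · intro h
    refine Om_ext fun k q => ?_
    rw [plot_xR q, on_cmp, on_cmp, on_p, on_pull]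
    congr 1
    exact h k _
  · intro h k p
    have h1 := congrArg (fun z => Om.on z p.up) h
    have h2 : Om.on w (c.op p) = Om.on ((pO X).pull w) p.up := h1
    rw [h2, on_p]

/-- the basic forms -/
def BasR : Subalgebra ℝ (Om X) where
  carrier := {w | c.a.pull w = (pO X).pull w}
  mul_mem' := fun {a b} ha hb => by
    change c.a.pull (a * b) = (pO X).pull (a * b)
    rw [map_mul, map_mul, show c.a.pull a = _ from ha, show c.a.pull b = _ from hb]
  add_mem' := fun {a b} ha hb => by
    change c.a.pull (a + b) = (pO X).pull (a + b)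
    rw [map_add, map_add, show c.a.pull a = _ from ha, show c.a.pull b = _ from hb]
  algebraMap_mem' := fun r => by
    change c.a.pull (algebraMap ℝ _ r) = (pO X).pull (algebraMap ℝ _ r)
    rw [AlgHom.commutes, AlgHom.commutes]

/-- the ring of basic forms -/
instance BasR.instRing : Ring (BasR c) := Subalgebra.toRing (BasR c)

/-- the ring of basic forms -/
instance BasR.instSemiring : Semiring (BasR c) := (BasR.instRing c).toSemiring

/-- the algebra of basic forms -/
instance BasR.instAlgebra : Algebra ℝ (BasR c) := Subalgebra.algebra (BasR c)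

theorem BasR_bas (w : BasR c) : Bas c (w : Om X) := (bas_iff c _).2 w.2

/-- a basic form as an element of `BasR` -/
def toB {w : Om X} (h : Bas c w) : BasR c := ⟨w, (bas_iff c _).1 h⟩

/-- the differential algebra of the basic forms -/
def GB : GDA (BasR c) where
  d :=
    { toFun := fun w => ⟨dO X w, by
        change c.a.pull (dO X w) = (pO X).pull (dO X w)
        rw [← pull_d, ← pull_d, show c.a.pull (w : Om X) = _ from w.2]⟩
      map_add' := fun _ _ => Subtype.ext (map_add (dO X) _ _)
      map_smul' := fun _ _ => Subtype.ext (map_smul (dO X) _ _) }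
  s :=
    { toFun := fun w => ⟨sO X w, by
        change c.a.pull (sO X w) = (pO X).pull (sO X w)
        rw [← pull_s, ← pull_s, show c.a.pull (w : Om X) = _ from w.2]⟩
      map_one' := Subtype.ext (map_one _)
      map_mul' := fun _ _ => Subtype.ext (map_mul (sO X) _ _)
      map_zero' := Subtype.ext (map_zero _)
      map_add' := fun _ _ => Subtype.ext (map_add (sO X) _ _)
      commutes' := fun _ => Subtype.ext (AlgHom.commutes _ _) }
  s_s := fun a => Subtype.ext (s_s _)
  d_d := fun a => Subtype.ext (d_d _)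
  d_mul := fun a b => Subtype.ext (d_mul _ _)
  s_d := fun a => Subtype.ext (s_d _)
  comm_even := fun a b h => Subtype.ext ((GO X).comm_even _ _ (congrArg Subtype.val h))
  comm_odd := fun a b h h' => Subtype.ext ((GO X).comm_odd _ _ (congrArg Subtype.val h) (congrArg Subtype.val h'))

/-- inclusion of the basic forms -/
def incB : GHom (GB c) (GO X) where
  f := (BasR c).val
  f_d := fun _ => rfl
  f_s := fun _ => rfl

theorem incB_apply (w : BasR c) : (incB c).f w = (w : Om X) := rfl

theorem incB_d (w : BasR c) : (((GB c).d w : BasR c) : Om X) = dO X w := rfl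

/-- equivariant maps -/
def GHom.pullB {c : Circ X} {c' : Circ Y} (f : SMap X Y) (h : ∀ x s, f.1 (c.a.1 (x, s)) = c'.a.1 (f.1 x, s)) :
    GHom (GB c') (GB c) where
  f :=
    { toFun := fun w => ⟨f.pull w, by
        change c.a.pull (f.pull w) = (pO X).pull (f.pull w)
        have h1 : f.comp c.a = c'.a.comp f.up := SMap_ext fun x => h _ _
        rw [← pull_comp, h1, pull_comp, show c'.a.pull (w : Om Y) = _ from w.2]
        rfl⟩
      map_one' := Subtype.ext (map_one _)
      map_mul' := fun _ _ => Subtype.ext (map_mul f.pull _ _)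
      map_zero' := Subtype.ext (map_zero _)
      map_add' := fun _ _ => Subtype.ext (map_add f.pull _ _)
      commutes' := fun _ => Subtype.ext (AlgHom.commutes _ _) }
  f_d := fun _ => rfl
  f_s := fun _ => rfl

/-- the action on the cylinder -/
def Circ.xR : Circ X.xR where
  a := ⟨fun z => (c.a.1 (z.1.1, z.2), z.1.2), fun k p => ⟨c.a.2 k ⟨fun u => ((p.1 u).1.1, (p.1 u).2), p.2.1.1, p.2.2⟩,
    p.2.1.2⟩⟩
  zero := fun _ => Prod.ext (c.zero _) rfl
  add := fun _ _ _ => Prod.ext (c.add _ _ _) rfl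
  one := fun _ _ => Prod.ext (c.one _ _) rfl

/-- swap of the two parameters -/
def swO (X : Space) : SMap X.xR.xR X.xR.xR :=
  ⟨fun z => ((z.1.1, z.2), z.1.2), fun _ p => ⟨⟨p.2.1.1, p.2.2⟩, p.2.1.2⟩⟩

/-- fibre integration of basic forms is basic -/
theorem bas_K {w : Om X.xR} (h : (Circ.xR c).a.pull w = (pO X.xR).pull w) :
    c.a.pull (KO X w) = (pO X).pull (KO X w) := by
  rw [← K_up, ← K_up]
  have h1 : c.a.up.pull w = (swO X).pull ((Circ.xR c).a.pull w) := rfl
  have h2 : (pO X).up.pull w = (swO X).pull ((pO X.xR).pull w) := rfl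
  rw [h1, h2, h]

theorem par_bas (g : ℝ → ℝ) (hg : ContDiff ℝ ∞ g) :
    (Circ.xR c).a.pull (par X g hg) = (pO X.xR).pull (par X g hg) := rfl

/-- the cylinder for basic forms -/
def CylB : Cyl (GB c) (GB (Circ.xR c)) where
  p := GHom.pullB (c := Circ.xR c) (c' := c) (pO X) (fun _ _ => rfl)
  j0 := GHom.pullB (c := c) (c' := Circ.xR c) (jO X 0) (fun _ _ => rfl)
  j1 := GHom.pullB (c := c) (c' := Circ.xR c) (jO X 1) (fun _ _ => rfl)
  K :=
    { toFun := fun w => ⟨KO X w, bas_K c w.2⟩
      map_add' := fun _ _ => Subtype.ext (map_add (KO X) _ _)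
      map_smul' := fun _ _ => Subtype.ext (map_smul (KO X) _ _) }
  j0_p := fun _ => rfl
  j1_p := fun _ => rfl
  dK := fun a => Subtype.ext (d_K _)
  c := ⟨(CylO X).c, rfl⟩
  t := ⟨(CylO X).t, rfl⟩
  c_s := Subtype.ext (CylO X).c_s
  t_s := Subtype.ext (CylO X).t_s
  ct := Subtype.ext (CylO X).ct
  c0 := Subtype.ext (CylO X).c0
  t0 := Subtype.ext (CylO X).t0
  c1 := Subtype.ext (CylO X).c1
  t1 := Subtype.ext (CylO X).t1

end basic

end Pool.Agent.Lib.MP_ccbbf6_gt.L5
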