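import Pool.Agent.Lib.MP_ccbbf6_gt.L5.CB
import Pool.Agent.Lib.MP_ccbbf6_gt.L5.CWo

/-!
# Level 5, MF: smooth functions on a space, matrices of functions as matrices of forms (helper13)

* `SF X` : the algebra of the smooth functions on `X`, `fn X : SF X →ₐ Om X`;
* `SB c` : the invariant functions, `fnB c : SB c →ₐ BasR c`;
* `CB (SF X)` : the complex functions.
A matrix `M` over `SF X` gives the matrix of forms `M.map (fn X)`.
-/

set_option autoImplicit false
set_option maxSynthPendingDepth 3
set_option linter.unusedSectionVars false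

open scoped ContDiff
open Matrix

noncomputable section

namespace Pool.Agent.Lib.MP_ccbbf6_gt.L5

open L4 L4.FR

variable {X Y : Space} {k l : ℕ}

/-- smooth real functions -/
def SmO (X : Space) (f : X.pt → ℝ) : Prop := ∀ (k : ℕ) (p : X.Plot k), ContDiff ℝ ∞ fun x => f (p.1 x)

/-- the algebra of smooth functions -/
def SF (X : Space) : Subalgebra ℝ (X.pt → ℝ) where
  carrier := {f | SmO X f}
  mul_mem' := fun ha hb k p => (ha k p).mul (hb k p)
  add_mem' := fun ha hb k p => (ha k p).add (hb k p)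
  algebraMap_mem' := fun _ _ _ => contDiff_const

/-- the ring of functions -/
instance SF.instCommRing (X : Space) : CommRing (SF X) := Subalgebra.toCommRing (SF X)

/-- the ring of functions -/
instance SF.instCommSemiring (X : Space) : CommSemiring (SF X) := (SF.instCommRing X).toCommSemiring

/-- the ring of functions -/
instance SF.instSemiring (X : Space) : Semiring (SF X) := (SF.instCommSemiring X).toSemiring

/-- the algebra of functions -/
instance SF.instAlgebra (X : Space) : Algebra ℝ (SF X) := Subalgebra.algebra (SF X)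

/-- functions as forms -/
def fn (X : Space) : SF X →ₐ[ℝ] Om X where
  toFun f := fO f.1 f.2
  map_one' := fO_one
  map_mul' f g := (fO_mul f.2 g.2).symm
  map_zero' := fO_zero
  map_add' f g := (fO_add f.2 g.2).symm
  commutes' r := Om_ext fun k p => by
    rw [on_fO]
    have h1 : Om.on (algebraMap ℝ (Om X) r) p = algebraMap ℝ (Fm k) r := rfl
    rw [h1, ← (fc k).commutes r]
    rfl

theorem fn_apply (f : SF X) : fn X f = fO f.1 f.2 := rfl

theorem s_fn (f : SF X) : sO X (fn X f) = fn X f := s_fO f.2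

/-- pull-back of functions -/
def pf (φ : SMap X Y) : SF Y →ₐ[ℝ] SF X where
  toFun f := ⟨fun x => f.1 (φ.1 x), fun k p => f.2 k (φ.pl p)⟩
  map_one' := rfl
  map_mul' _ _ := rfl
  map_zero' := rfl
  map_add' _ _ := rfl
  commutes' _ := rfl

theorem pull_fn (φ : SMap X Y) (f : SF Y) : φ.pull (fn Y f) = fn X (pf φ f) := rfl

/-- value at a point -/
def vl (x : X.pt) : SF X →ₐ[ℝ] ℝ where
  toFun f := f.1 x
  map_one' := rfl
  map_mul' _ _ := rfl
  map_zero' := rfl
  map_add' _ _ := rfl
  commutes' _ := rfl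

theorem vl_apply (x : X.pt) (f : SF X) : vl x f = f.1 x := rfl

theorem SF_ext {f g : SF X} (h : ∀ x, vl x f = vl x g) : f = g := Subtype.ext (funext h)

/-- invariant smooth functions -/
def SB (c : Circ X) : Subalgebra ℝ (SF X) where
  carrier := {f | ∀ x s, f.1 (c.a.1 (x, s)) = f.1 x}
  mul_mem' := fun {f g} ha hb x s => by
    change f.1 _ * g.1 _ = f.1 _ * g.1 _
    rw [ha, hb]
  add_mem' := fun {f g} ha hb x s => by
    change f.1 _ + g.1 _ = f.1 _ + g.1 _
    rw [ha, hb]
  algebraMap_mem' := fun _ _ _ => rfl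

/-- the ring of invariant functions -/
instance SB.instCommRing (c : Circ X) : CommRing (SB c) := Subalgebra.toCommRing (SB c)

/-- the ring of invariant functions -/
instance SB.instCommSemiring (c : Circ X) : CommSemiring (SB c) := (SB.instCommRing c).toCommSemiring

/-- the ring of invariant functions -/
instance SB.instSemiring (c : Circ X) : Semiring (SB c) := (SB.instCommSemiring c).toSemiring

/-- the algebra of invariant functions -/
instance SB.instAlgebra (c : Circ X) : Algebra ℝ (SB c) := Subalgebra.algebra (SB c)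

theorem fn_mem (c : Circ X) (f : SB c) : fn X f.1 ∈ BasR c := by
  change c.a.pull (fn X f.1) = (pO X).pull (fn X f.1)
  rw [pull_fn, pull_fn]
  congr 1
  exact SF_ext fun z => f.2 _ _

/-- invariant functions as basic forms -/
def fnB (c : Circ X) : SB c →ₐ[ℝ] BasR c where
  toFun f := ⟨fn X f.1, fn_mem c f⟩
  map_one' := Subtype.ext (map_one _)
  map_mul' _ _ := Subtype.ext (map_mul (fn X) _ _)
  map_zero' := Subtype.ext (map_zero _)
  map_add' _ _ := Subtype.ext (map_add (fn X) _ _)
  commutes' _ := Subtype.ext (AlgHom.commutes (fn X) _)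

theorem incB_fnB (c : Circ X) (f : SB c) : (incB c).f (fnB c f) = fn X f.1 := rfl

theorem s_fnB (c : Circ X) (f : SB c) : (GB c).s (fnB c f) = fnB c f := Subtype.ext (s_fn f.1)

/-- an algebra of functions in a differential algebra -/
structure Fun0 (A : Type*) [CommRing A] [Algebra ℝ A] {B : Type*} [Ring B] [Algebra ℝ B] (G : GDA B) where
  /-- the inclusion -/
  f : A →ₐ[ℝ] B
  ev : ∀ a, G.s (f a) = f a

/-- functions -/
def FO (X : Space) : Fun0 (SF X) (GO X) := ⟨fn X, s_fn⟩

/-- invariant functions -/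
def FB (c : Circ X) : Fun0 (SB c) (GB c) := ⟨fnB c, s_fnB c⟩

section fun0

variable {A : Type*} [CommRing A] [Algebra ℝ A] {B : Type*} [Ring B] [Algebra ℝ B] {G : GDA B} (φ : Fun0 A G)

variable {ι κ μ : Type*} [Fintype ι] [Fintype κ] [Fintype μ] [DecidableEq ι] [DecidableEq κ] [DecidableEq μ]

theorem Fun0.Ev (M : Matrix ι κ A) : G.Ev (M.map φ.f) := by
  unfold GDA.Ev
  ext i j
  exact φ.ev _

theorem Fun0.mul (M : Matrix ι κ A) (N : Matrix κ μ A) : (M * N).map φ.f = M.map φ.f * N.map φ.f := Matrix.map_mul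

theorem Fun0.add (M N : Matrix ι κ A) : (M + N).map φ.f = M.map φ.f + N.map φ.f := by
  ext i j
  exact map_add φ.f _ _

theorem Fun0.sub (M N : Matrix ι κ A) : (M - N).map φ.f = M.map φ.f - N.map φ.f := by
  ext i j
  exact map_sub φ.f _ _

theorem Fun0.zero : (0 : Matrix ι κ A).map φ.f = 0 := by
  ext i j
  exact map_zero φ.f

theorem Fun0.one : (1 : Matrix ι ι A).map φ.f = 1 := by
  ext i j
  rw [Matrix.map_apply, Matrix.one_apply, Matrix.one_apply, apply_ite φ.f, map_one, map_zero]

theorem Fun0.idem {P : Matrix ι ι A} (h : P * P = P) : G.Idem (P.map φ.f) :=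
  ⟨by rw [← φ.mul, h], φ.Ev P⟩

/-- complex functions -/
def Fun0.cx {A : Type*} [CommRing A] [Algebra ℝ A] {B : Type*} [Ring B] [Algebra ℝ B] {G : GDA B} (φ : Fun0 A G) :
    CB A →ₐ[ℝ] CB B := CB.alg φ.f

instance : CommRing (CB A) :=
  { (inferInstance : Ring (CB A)) with
    mul_comm := fun a b => by
      ext
      · rw [CB.mul_re, CB.mul_re, mul_comm a.re, mul_comm a.im]
      · rw [CB.mul_im, CB.mul_im, mul_comm a.re, mul_comm a.im, add_comm] }

/-- complex functions -/
def Fun0.C (φ : Fun0 A G) : Fun0 (CB A) (GC G) where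
  f := CB.alg φ.f
  ev a := CB.ext (φ.ev _) (φ.ev _)

theorem Fun0.C_re (a : CB A) : (φ.C.f a).re = φ.f a.re := rfl
theorem Fun0.C_im (a : CB A) : (φ.C.f a).im = φ.f a.im := rfl

theorem Fun0.C_conj (a : CB A) : CB.conj (φ.C.f a) = φ.C.f (CB.conj a) :=
  CB.ext rfl (map_neg φ.f a.im).symm

end fun0

/-! ### complex functions on a space -/

/-- value at a point -/
def vlC (x : X.pt) : CB (SF X) →ₐ[ℝ] ℂ where
  toFun f := ⟨vl x f.re, vl x f.im⟩
  map_one' := Complex.ext rfl rfl
  map_mul' a b := Complex.ext (by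
      rw [CB.mul_re, map_sub, map_mul, map_mul, Complex.mul_re]) (by
      rw [CB.mul_im, map_add, map_mul, map_mul, Complex.mul_im])
  map_zero' := Complex.ext rfl rfl
  map_add' _ _ := Complex.ext rfl rfl
  commutes' r := by
    rw [Algebra.algebraMap_eq_smul_one]
    refine Complex.ext ?_ ?_
    · change vl x (r • (1 : SF X)) = r
      rw [map_smul, map_one, smul_eq_mul, mul_one]
    · change vl x (r • (0 : SF X)) = 0
      rw [map_smul, map_zero, smul_zero]

theorem vlC_re (x : X.pt) (f : CB (SF X)) : (vlC x f).re = f.re.1 x := rfl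
theorem vlC_im (x : X.pt) (f : CB (SF X)) : (vlC x f).im = f.im.1 x := rfl

theorem CSF_ext {f g : CB (SF X)} (h : ∀ x, vlC x f = vlC x g) : f = g :=
  CB.ext (SF_ext fun x => congrArg Complex.re (h x)) (SF_ext fun x => congrArg Complex.im (h x))

theorem CSF_mat_ext {ι κ : Type*} {M N : Matrix ι κ (CB (SF X))} (h : ∀ x, M.map (vlC x) = N.map (vlC x)) : M = N := by
  refine Matrix.ext fun i j => ?_
  exact CSF_ext fun x => congrFun (congrFun (h x) i) j

theorem SF_mat_ext {ι κ : Type*} {M N : Matrix ι κ (SF X)} (h : ∀ x, M.map (vl x) = N.map (vl x)) : M = N := by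
  refine Matrix.ext fun i j => ?_
  exact SF_ext fun x => congrFun (congrFun (h x) i) j

/-- a complex function from its values -/
def mkCF (f : X.pt → ℂ) (h : SmO X fun x => (f x).re) (h' : SmO X fun x => (f x).im) : CB (SF X) :=
  ⟨⟨fun x => (f x).re, h⟩, ⟨fun x => (f x).im, h'⟩⟩

theorem vlC_mkCF (f : X.pt → ℂ) (h : SmO X fun x => (f x).re) (h' : SmO X fun x => (f x).im) (x : X.pt) :
    vlC x (mkCF f h h') = f x := rfl

/-- a real matrix function -/
def mkM {ι κ : Type*} (F : X.pt → Matrix ι κ ℝ) (h : ∀ i j, SmO X fun x => F x i j) : Matrix ι κ (SF X) :=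
  fun i j => ⟨fun x => F x i j, h i j⟩

theorem mkM_vl {ι κ : Type*} (F : X.pt → Matrix ι κ ℝ) (h : ∀ i j, SmO X fun x => F x i j) (x : X.pt) :
    (mkM F h).map (vl x) = F x := rfl

/-- a complex matrix function -/
def mkMC {ι κ : Type*} (F : X.pt → Matrix ι κ ℂ) (h : ∀ i j, SmO X fun x => (F x i j).re)
    (h' : ∀ i j, SmO X fun x => (F x i j).im) : Matrix ι κ (CB (SF X)) :=
  fun i j => mkCF (fun x => F x i j) (h i j) (h' i j)

theorem mkMC_vl {ι κ : Type*} (F : X.pt → Matrix ι κ ℂ) (h : ∀ i j, SmO X fun x => (F x i j).re)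
    (h' : ∀ i j, SmO X fun x => (F x i j).im) (x : X.pt) : (mkMC F h h').map (vlC x) = F x := rfl

end Pool.Agent.Lib.MP_ccbbf6_gt.L5
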