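import Pool.Agent.Lib.MP_ccbbf6_gt.L4.AL
import Pool.Agent.Lib.MP_ccbbf6_gt.L5.MF
import Pool.Agent.Lib.MP_ccbbf6_gt.L5.NEGd

/-!
# NX1: the projection onto the negative bundle as a matrix of invariant functions (Level 5, block NEG) (helper93)
-/

set_option autoImplicit false
set_option linter.unusedSectionVars false
set_option maxSynthPendingDepth 3

open Set Filter Topology Metric Real Module Matrix
open scoped ContDiff RealInnerProductSpace

noncomputable section

namespace Pool.Agent.Lib.MP_ccbbf6_gt.L5.NEG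

open Geo L4 L4.ORI L4.FR

variable {n : ℕ} {M : Type} [MetricSpace M] [CompactSpace M] {𝒜 : SDist n M} {N κ : ℕ} {C : Eu N → Gs M → M}
  {P : Gs M → Eu N →L[ℝ] Eu N}

/-- the matrix of an operator -/
def etN (L : Eu N →L[ℝ] Eu N) : Matrix (Fin N) (Fin N) ℝ := Matrix.of fun i j => L (EuclideanSpace.single j 1) i

theorem etN_eq (L : Eu N →L[ℝ] Eu N) : etN L = LinearMap.toMatrix (EuclideanSpace.basisFun (Fin N) ℝ).toBasis
    (EuclideanSpace.basisFun (Fin N) ℝ).toBasis (L : Eu N →ₗ[ℝ] Eu N) := by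
  ext i j
  rw [LinearMap.toMatrix_apply]
  simp [etN]

theorem etN_mul (L L' : Eu N →L[ℝ] Eu N) : etN (L.comp L') = etN L * etN L' := by
  rw [etN_eq, etN_eq, etN_eq, ← LinearMap.toMatrix_comp]
  rfl

theorem etN_mulVec (L : Eu N →L[ℝ] Eu N) (x : Eu N) (i : Fin N) : (etN L).mulVec (fun j => x j) i = L x i := by
  have h : x = ∑ j, x j • EuclideanSpace.single j (1 : ℝ) := by
    ext k
    simp [Finset.sum_apply, Pi.single_apply]
  conv_rhs => rw [h]
  rw [map_sum]
  simp [Matrix.mulVec, dotProduct, etN, mul_comm]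

theorem etN_symm {L : Eu N →L[ℝ] Eu N} (h : ∀ x y, ⟪L x, y⟫ = ⟪x, L y⟫) : (etN L)ᵀ = etN L := by
  ext i j
  have h1 := h (EuclideanSpace.single i (1 : ℝ)) (EuclideanSpace.single j (1 : ℝ))
  rw [EuclideanSpace.inner_single_right, EuclideanSpace.inner_single_left] at h1
  simpa [etN] using h1

theorem etN_trace {L : Eu N →L[ℝ] Eu N} (h : ∀ x, L (L x) = L x) :
    Matrix.trace (etN L) = finrank ℝ (LinearMap.range (L : Eu N →ₗ[ℝ] Eu N)) := by
  rw [etN_eq, ← LinearMap.trace_eq_matrix_trace]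
  refine LinearMap.IsProj.trace ⟨fun x => ⟨x, rfl⟩, ?_⟩
  rintro _ ⟨y, rfl⟩
  exact h y

/-- the projection onto the negative bundle over `UM` -/
def mG {hB : Bl M} (hN : NegData 𝒜 κ hB C P) : Matrix (Fin N) (Fin N) (SF (spG 𝒜)) := Matrix.of fun i j =>
  ⟨fun c => etN (P c) i j, fun k p => by
    rw [contDiff_iff_contDiffAt]
    intro u
    have h := (hN.smooth (p.2.atP u)).clm_apply (contDiffAt_const (c := EuclideanSpace.single j (1 : ℝ)))
    exact (contDiffAt_euclidean.1 h) i⟩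

theorem vl_mG {hB : Bl M} (hN : NegData 𝒜 κ hB C P) (c : Gs M) : (mG hN).map (vl (X := spG 𝒜) c) = etN (P c) := rfl

theorem SF_mat_ext {X : Space} {ι ι' : Type*} {A B : Matrix ι ι' (SF X)} (h : ∀ x, A.map (vl x) = B.map (vl x)) : A = B := by
  ext i j
  exact congrFun (congrArg Subtype.val (SF_ext fun x => congrFun (congrFun (h x) i) j)) _

/-- the matrix with invariant entries -/
def mB {hB : Bl M} (hN : NegData 𝒜 κ hB C P) : Matrix (Fin N) (Fin N) (SB (circPhi hB 𝒜)) := Matrix.of fun i j =>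
  ⟨mG hN i j, fun c s => congrArg (fun L : Eu N →L[ℝ] Eu N => etN L i j) (hN.inv (2 * π * s) c)⟩

variable {hB : Bl M}

theorem etN_idem (hN : NegData 𝒜 κ hB C P) (c : Gs M) : etN (P c) * etN (P c) = etN (P c) := by
  rw [← etN_mul]
  congr 1
  ext1 x
  exact hN.idem c x

theorem mG_idem (hN : NegData 𝒜 κ hB C P) : mG hN * mG hN = mG hN := by
  refine SF_mat_ext fun x => ?_
  have h1 : (mG hN * mG hN).map (vl (X := spG 𝒜) x) = (mG hN).map (vl (X := spG 𝒜) x) * (mG hN).map (vl (X := spG 𝒜) x) :=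
    Matrix.map_mul
  exact h1.trans (etN_idem hN x)

theorem mG_symm (hN : NegData 𝒜 κ hB C P) : (mG hN)ᵀ = mG hN := by
  refine SF_mat_ext fun x => ?_
  exact etN_symm (hN.symm x)

theorem mG_trace (hN : NegData 𝒜 κ hB C P) : trace (mG hN) = (κ : SF (spG 𝒜)) := by
  refine SF_ext fun x => ?_
  have h1 : vl (X := spG 𝒜) x (trace (mG hN)) = trace ((mG hN).map (vl (X := spG 𝒜) x)) := by
    unfold trace
    rw [map_sum]
    rfl
  exact h1.trans (((etN_trace (hN.idem x)).trans (congrArg Nat.cast (hN.rank x))).trans (map_natCast (vl (X := spG 𝒜) x) κ).symm)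

theorem mB_map (hN : NegData 𝒜 κ hB C P) : (mB hN).map (SB (circPhi hB 𝒜)).val = mG hN := rfl

theorem mB_idem (hN : NegData 𝒜 κ hB C P) : mB hN * mB hN = mB hN := by
  refine Matrix.map_injective (f := (SB (circPhi hB 𝒜)).val) Subtype.val_injective ?_
  have h1 : (mB hN * mB hN).map (SB (circPhi hB 𝒜)).val = mG hN * mG hN := Matrix.map_mul
  exact h1.trans (mG_idem hN)

theorem mB_symm (hN : NegData 𝒜 κ hB C P) : (mB hN)ᵀ = mB hN := by
  refine Matrix.map_injective (f := (SB (circPhi hB 𝒜)).val) Subtype.val_injective ?_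
  exact mG_symm hN

theorem mB_trace (hN : NegData 𝒜 κ hB C P) : trace (mB hN) = (κ : SB (circPhi hB 𝒜)) := by
  refine Subtype.val_injective ?_
  have h1 : (SB (circPhi hB 𝒜)).val (trace (mB hN)) = trace (mG hN) := by
    unfold trace
    rw [map_sum]
    rfl
  exact h1.trans ((mG_trace hN).trans (map_natCast (SB (circPhi hB 𝒜)).val κ).symm)

end Pool.Agent.Lib.MP_ccbbf6_gt.L5.NEG
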