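import Pool.Agent.Lib.MP_ccbbf6_gt.L5.Ext0

/-!
# Level 5, INTb: fibre integration over `R^N`, definitions (helper67)
-/

set_option autoImplicit false
set_option maxSynthPendingDepth 3

open Set Filter Topology
open scoped ContDiff

noncomputable section

namespace Pool.Agent.Lib.MP_ccbbf6_gt.L5

open L4 L4.FR

variable {k l : ℕ} {X Y : Space}

/-- first `k` coordinates -/
def hdM (k N : ℕ) : FR.Sm (k + N) k := ⟨fun w i => w (Fin.castAdd N i), contDiff_pi.2 fun _ => contDiff_apply ℝ ℝ _⟩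

/-- last `N` coordinates -/
def tlM (k N : ℕ) : FR.Sm (k + N) N := ⟨fun w i => w (Fin.natAdd k i), contDiff_pi.2 fun _ => contDiff_apply ℝ ℝ _⟩

theorem hdM_append {N : ℕ} (z : V k) (ξ : V N) : hdM k N (Fin.append z ξ) = z :=
  funext fun i => Fin.append_left z ξ i

theorem tlM_append {N : ℕ} (z : V k) (ξ : V N) : tlM k N (Fin.append z ξ) = ξ :=
  funext fun i => Fin.append_right z ξ i

theorem append_hd_tl {N : ℕ} (w : V (k + N)) : (Fin.append (hdM k N w) (tlM k N w) : V (k + N)) = w := by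
  funext i
  refine Fin.addCases (fun i => ?_) (fun i => ?_) i
  · rw [Fin.append_left]; rfl
  · rw [Fin.append_right]; rfl

theorem contDiff_append {N : ℕ} {E : Type*} [NormedAddCommGroup E] [NormedSpace ℝ E] {f : E → V k} {g : E → V N}
    (hf : ContDiff ℝ ∞ f) (hg : ContDiff ℝ ∞ g) : ContDiff ℝ ∞ fun z => (Fin.append (f z) (g z) : V (k + N)) := by
  rw [contDiff_pi]
  intro i
  refine Fin.addCases (fun i => ?_) (fun i => ?_) i
  · simp only [Fin.append_left]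
    exact contDiff_pi.1 hf i
  · simp only [Fin.append_right]
    exact contDiff_pi.1 hg i

/-- `(z, ξ) ↦ (z, 6 ξ - 3)` -/
def scM (k N : ℕ) : FR.Sm (k + N) (k + N) :=
  ⟨fun w => Fin.append (hdM k N w) (fun i => 6 * tlM k N w i - 3), contDiff_append (hdM k N).smooth
    (contDiff_pi.2 fun i => (contDiff_const.mul (contDiff_pi.1 (tlM k N).smooth i)).sub contDiff_const)⟩

/-- `g × id` -/
def upN (g : FR.Sm k l) (N : ℕ) : FR.Sm (k + N) (l + N) :=
  ⟨fun w => Fin.append (g (hdM k N w)) (tlM k N w), contDiff_append (g.smooth.comp (hdM k N).smooth) (tlM k N).smooth⟩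

/-- iterated fibre integration over `[0, 1]` -/
def Jc (k : ℕ) : (N : ℕ) → Fm (k + N) →ₗ[ℝ] Fm k
  | 0 => LinearMap.id
  | N + 1 => (Jc k N).comp (KK (k + N))

/-- fibre integration over `[-3, 3]^N` -/
def Jn (k N : ℕ) : Fm (k + N) →ₗ[ℝ] Fm k := (Jc k N).comp (pb (scM k N)).toLinearMap

/-- support in `|ξ_i| < 3` -/
def VS {k N : ℕ} (x : Fm (k + N)) : Prop := ∀ w : V (k + N), (∃ i, 3 ≤ |tlM k N w i|) → ev w x = 0

/-- the top coefficient with respect to the last `N` coordinates -/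
def tN (k : ℕ) : (N : ℕ) → Ex (k + N) →ₗ[ℝ] Ex k
  | 0 => LinearMap.id
  | N + 1 => (tN k N).comp ((kil (k + N)).toLinearMap.comp (ctr (lst (k + N))))

/-- `X × R^N` -/
def _root_.Pool.Agent.Lib.MP_ccbbf6_gt.L4.FR.Space.xV (X : Space) (N : ℕ) : Space where
  pt := X.pt × V N
  Pl k := {q | (fun x => (q x).1) ∈ X.Pl k ∧ ContDiff ℝ ∞ fun x => (q x).2}
  pre := fun {_ _ _} hp g => ⟨X.pre hp.1 g, hp.2.comp g.smooth⟩

/-- `f × id` -/
def _root_.Pool.Agent.Lib.MP_ccbbf6_gt.L4.FR.SMap.xV (f : SMap X Y) (N : ℕ) : SMap (X.xV N) (Y.xV N) :=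
  ⟨fun z => (f.1 z.1, z.2), fun k p => ⟨f.2 k ⟨fun x => (p.1 x).1, p.2.1⟩, p.2.2⟩⟩

/-- projection -/
def pV (X : Space) (N : ℕ) : SMap (X.xV N) X := ⟨fun z => z.1, fun _ p => p.2.1⟩

/-- `P × id` -/
def _root_.Pool.Agent.Lib.MP_ccbbf6_gt.L4.FR.Space.Plot.xV (P : X.Plot k) (N : ℕ) : (X.xV N).Plot (k + N) :=
  ⟨fun w => (P.1 (hdM k N w), tlM k N w), X.pre P.2 (hdM k N), (tlM k N).smooth⟩

/-- vertically compact support (in `|ξ_i| < 3`) -/
def VSO {N : ℕ} (θ : Om (X.xV N)) : Prop := ∀ (k : ℕ) (P : X.Plot k), VS (Om.on θ (P.xV N))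

/-- the region `ξ ≠ 0` -/
def neZ (X : Space) (N : ℕ) : Set (X.xV N).pt := {z | z.2 ≠ 0}

/-- `X × (R^N - 0)` -/
abbrev _root_.Pool.Agent.Lib.MP_ccbbf6_gt.L4.FR.Space.xP (X : Space) (N : ℕ) : Space := sub (X.xV N) (neZ X N)

theorem open_neZ (X : Space) (N : ℕ) : OpenU (X.xV N) (neZ X N) := fun _ p => isOpen_ne.preimage p.2.2.continuous

end Pool.Agent.Lib.MP_ccbbf6_gt.L5
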