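import Mathlib.Analysis.InnerProductSpace.GramSchmidtOrtho
import Pool.Agent.Lib.MP_ccbbf6_gt.L4.Eps
import Pool.Agent.Lib.MP_ccbbf6_gt.L5.INTb

/-!
# Level 5, INTl: oriented vector bundles with an inner product (helper67)

`VFld E B`: smooth sections along plots of `B` with values in an inner product space `E` (for `TM`: `E = Eu n`, `SmV`; for a trivial bundle: smooth functions).
`OBun r E B`: oriented subbundle of rank `r`; `b.S` the sphere bundle, `b.F` the positive orthonormal frames, `b.q`, `b.pr`, `b.ptm`, `b.an`.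

PROOFS.
(1) sum: induction on the finset (`zero`, `add`). (2) lin_open: Gram determinant: `LinearIndependent` iff `(Matrix.gram ℝ _).det ≠ 0` or: the orthonormal case only through gs. (if you prefer: prove gs by induction directly.)
(3) gs: strong induction over the index with `InnerProductSpace.gramSchmidt_def` (gramSchmidt f n = f n - Σ_(i<n) (⟪g i, f n⟫ / ‖g i‖²) • g i): each g i is a smooth section at z, `‖g i z‖ ≠ 0`
    (`InnerProductSpace.gramSchmidt_ne_zero`), so the coefficients are smooth at z (`inner`, `ContDiffAt.div`); `gramSchmidtNormed = ‖g‖⁻¹ • g`. To get the statement at all y near z: all hypotheses hold near z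
    (linear independence is open: (2)); orthonormal: `gramSchmidtNormed_orthonormal`-type lemma, span: `span_gramSchmidtNormed`.
(4) contDiff of the norm quotient: ptm: ((b, a), ξ) ↦ (b, ‖ξ‖⁻¹ • Σ ξ_i a_i): norm 1: `Orthonormal.norm_sum`-type: ‖Σ ξ_i a_i‖² = Σ ξ_i² = ‖toE ξ‖² (`norm_toE_sq`). Smooth: `sum`, `smul`, the norm of ξ is smooth at ξ ≠ 0.
(5) q, pr, an: an (b, v) = (b, -v): `smul` with the constant -1.
-/

set_option autoImplicit false
set_option maxSynthPendingDepth 3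

open Set Filter Topology

open scoped ContDiff

noncomputable section

namespace Pool.Agent.Lib.MP_ccbbf6_gt.L5

open L4 L4.FR

/-- smooth sections along plots -/
structure VFld (E : Type) [NormedAddCommGroup E] [InnerProductSpace ℝ E] (B : Space) where
  /-- the section `w` along the plot `p` is smooth at `z` -/
  sAt : {k : ℕ} → B.Plot k → (V k → E) → V k → Prop
  zero : ∀ {k : ℕ} (p : B.Plot k) (z : V k), sAt p (fun _ => 0) z
  add : ∀ {k : ℕ} {p : B.Plot k} {w w' : V k → E} {z : V k}, sAt p w z → sAt p w' z → sAt p (fun v => w v + w' v) z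
  smul : ∀ {k : ℕ} {p : B.Plot k} {f : V k → ℝ} {w : V k → E} {z : V k}, ContDiffAt ℝ ∞ f z → sAt p w z →
    sAt p (fun v => f v • w v) z
  inn : ∀ {k : ℕ} {p : B.Plot k} {w w' : V k → E} {z : V k}, sAt p w z → sAt p w' z →
    ContDiffAt ℝ ∞ (fun v => inner ℝ (w v) (w' v)) z
  congr : ∀ {k : ℕ} {p : B.Plot k} {w w' : V k → E} {z : V k}, sAt p w z → w' =ᶠ[𝓝 z] w → sAt p w' z
  comp : ∀ {k l : ℕ} {p : B.Plot l} {w : V l → E} (g : FR.Sm k l) {z : V k}, sAt p w (g z) →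
    sAt (p.cmp g) (fun v => w (g v)) z
  germ : ∀ {k : ℕ} {p p' : B.Plot k} {w : V k → E} {z : V k}, sAt p w z → p'.1 =ᶠ[𝓝 z] p.1 → sAt p' w z

/-- orthonormal frames of a subspace -/
def OFr {r : ℕ} {E : Type} [NormedAddCommGroup E] [InnerProductSpace ℝ E] (W : Submodule ℝ E) (a : Fin r → E) : Prop :=
  (∀ i, a i ∈ W) ∧ Orthonormal ℝ a

variable {k l r N : ℕ} {E : Type} [NormedAddCommGroup E] [InnerProductSpace ℝ E] {B B' : Space}

namespace VFld

variable (S : VFld E B)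

theorem sum {ι : Type*} (s : Finset ι) {p : B.Plot k} {w : ι → V k → E} {z : V k} (h : ∀ i ∈ s, S.sAt p (w i) z) :
    S.sAt p (fun v => ∑ i ∈ s, w i v) z := by
  classical
  induction s using Finset.induction_on with
  | empty =>
    simp only [Finset.sum_empty]
    exact S.zero p z
  | insert a s ha ih =>
    simp only [Finset.sum_insert ha]
    exact S.add (h a (Finset.mem_insert_self a s)) (ih fun i hi => h i (Finset.mem_insert_of_mem hi))

/-- linear independence is an open condition -/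
theorem lin_open {p : B.Plot k} {w : Fin r → V k → E} {z : V k} (h : ∀ i, S.sAt p (w i) z)
    (hl : LinearIndependent ℝ fun i => w i z) : ∀ᶠ y in 𝓝 z, LinearIndependent ℝ fun i => w i y := by
  have h1 : ContinuousAt (fun y => (Matrix.gram ℝ fun i => w i y).det) z := by
    have h2 : ContinuousAt (fun y => Matrix.gram ℝ fun i => w i y) z :=
      continuousAt_pi.2 fun i => continuousAt_pi.2 fun j => (S.inn (h i) (h j)).continuousAt
    exact (continuous_id.matrix_det).continuousAt.comp h2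
  have h3 : (Matrix.gram ℝ fun i => w i z).det ≠ 0 := Matrix.det_gram_ne_zero_iff_linearIndependent.2 hl
  filter_upwards [h1.eventually_ne h3] with y hy
  exact Matrix.det_gram_ne_zero_iff_linearIndependent.1 hy

private theorem INTl_gs {p : B.Plot k} {w : Fin r → V k → E} {y : V k} (h : ∀ i, S.sAt p (w i) y)
    (hl : LinearIndependent ℝ fun i => w i y) (i : Fin r) :
    S.sAt p (fun v => InnerProductSpace.gramSchmidt ℝ (fun j => w j v) i) y := by
  induction i using WellFounded.induction (wellFounded_lt (α := Fin r)) with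
  | _ n ih =>
    have h1 : S.sAt p (fun v => ∑ i ∈ Finset.Iio n,
        -(inner ℝ (InnerProductSpace.gramSchmidt ℝ (fun j => w j v) i) (w n v) /
          inner ℝ (InnerProductSpace.gramSchmidt ℝ (fun j => w j v) i)
            (InnerProductSpace.gramSchmidt ℝ (fun j => w j v) i)) •
          InnerProductSpace.gramSchmidt ℝ (fun j => w j v) i) y := by
      refine S.sum _ fun i hi => ?_
      have h2 := ih i (Finset.mem_Iio.1 hi)
      refine S.smul (f := fun v => -(inner ℝ (InnerProductSpace.gramSchmidt ℝ (fun j => w j v) i) (w n v) /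
          inner ℝ (InnerProductSpace.gramSchmidt ℝ (fun j => w j v) i)
            (InnerProductSpace.gramSchmidt ℝ (fun j => w j v) i))) ?_ h2
      refine ((S.inn h2 (h n)).div (S.inn h2 h2) ?_).neg
      exact inner_self_ne_zero.2 (InnerProductSpace.gramSchmidt_ne_zero i hl)
    refine S.congr (S.add (h n) h1) (Eventually.of_forall fun v => ?_)
    have h3 := InnerProductSpace.gramSchmidt_def'' ℝ (fun j => w j v) n
    have h5 := sub_eq_of_eq_add h3
    refine h5.symm.trans ?_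
    rw [sub_eq_add_neg, ← Finset.sum_neg_distrib]
    refine congrArg (fun x => w n v + x) (Finset.sum_congr rfl fun i _ => ?_)
    rw [real_inner_self_eq_norm_sq, neg_smul]
    rfl

/-- smooth Gram-Schmidt process -/
theorem gs {p : B.Plot k} {w : Fin r → V k → E} {z : V k} (h : ∀ᶠ y in 𝓝 z, ∀ i, S.sAt p (w i) y)
    (hl : LinearIndependent ℝ fun i => w i z) : ∃ a : V k → Fin r → E, ∀ᶠ y in 𝓝 z,
      Orthonormal ℝ (a y) ∧ Submodule.span ℝ (Set.range (a y)) = Submodule.span ℝ (Set.range fun i => w i y) ∧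
      ∀ i, S.sAt p (fun v => a v i) y := by
  refine ⟨fun v => InnerProductSpace.gramSchmidtNormed ℝ fun j => w j v, ?_⟩
  filter_upwards [h, S.lin_open h.self_of_nhds hl] with y hy hly
  refine ⟨InnerProductSpace.gramSchmidtNormed_orthonormal hly, ?_, fun i => ?_⟩
  · rw [InnerProductSpace.span_gramSchmidtNormed_range, InnerProductSpace.span_gramSchmidt]
  · have h1 := INTl_gs S hy hly i
    have h2 : inner ℝ (InnerProductSpace.gramSchmidt ℝ (fun j => w j y) i)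
        (InnerProductSpace.gramSchmidt ℝ (fun j => w j y) i) ≠ 0 :=
      inner_self_ne_zero.2 (InnerProductSpace.gramSchmidt_ne_zero i hly)
    have h3 : ContDiffAt ℝ ∞ (fun v => (Real.sqrt (inner ℝ (InnerProductSpace.gramSchmidt ℝ (fun j => w j v) i)
        (InnerProductSpace.gramSchmidt ℝ (fun j => w j v) i)))⁻¹) y := by
      refine ((S.inn h1 h1).sqrt h2).inv ?_
      exact (Real.sqrt_ne_zero (real_inner_self_nonneg)).2 h2
    refine S.congr (S.smul h3 h1) (Eventually.of_forall fun v => ?_)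
    show ‖InnerProductSpace.gramSchmidt ℝ (fun j => w j v) i‖⁻¹ • InnerProductSpace.gramSchmidt ℝ (fun j => w j v) i =
      (Real.sqrt (inner ℝ (InnerProductSpace.gramSchmidt ℝ (fun j => w j v) i)
        (InnerProductSpace.gramSchmidt ℝ (fun j => w j v) i)))⁻¹ • InnerProductSpace.gramSchmidt ℝ (fun j => w j v) i
    rw [real_inner_self_eq_norm_sq, Real.sqrt_sq (norm_nonneg _)]

/-- pull-back -/
def pull (f : SMap B' B) : VFld E B' where
  sAt p w z := S.sAt (f.pl p) w z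
  zero p z := S.zero _ z
  add h h' := S.add h h'
  smul h h' := S.smul h h'
  inn h h' := S.inn h h'
  congr h h' := S.congr h h'
  comp g _ h := S.comp g h
  germ h e := S.germ h (e.mono fun y hy => by
    show f.1 (_ : B'.pt) = f.1 _
    rw [hy])

end VFld

/-- the trivial bundle -/
def triv (E : Type) [NormedAddCommGroup E] [InnerProductSpace ℝ E] (B : Space) : VFld E B where
  sAt _ w z := ContDiffAt ℝ ∞ w z
  zero _ _ := contDiffAt_const
  add h h' := h.add h'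
  smul h h' := h.smul h'
  inn h h' := h.inner ℝ h'
  congr h h' := h.congr_of_eventuallyEq h'
  comp g z h := by
    have h1 : ContDiffAt ℝ ∞ (g : V _ → V _) z := g.smooth.contDiffAt
    exact h.comp z h1
  germ h _ := h

/-- an oriented vector bundle of rank `r` with inner product -/
structure OBun (r : ℕ) (E : Type) [NormedAddCommGroup E] [InnerProductSpace ℝ E] (B : Space) extends VFld E B where
  /-- the fibres -/
  W : B.pt → Submodule ℝ E
  /-- positive frames -/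
  pos : B.pt → (Fin r → E) → Prop
  rank : ∀ b, Module.finrank ℝ (W b) = r
  pos_iff : ∀ (b : B.pt) (a a' : Fin r → E), OFr (W b) a → OFr (W b) a' → pos b a →
    (pos b a' ↔ (Matrix.of fun i j => inner ℝ (a i) (a' j)).det = 1)
  loc : ∀ {k : ℕ} (p : B.Plot k) (z : V k), ∃ a : V k → Fin r → E, ∀ᶠ y in 𝓝 z,
    OFr (W (p.1 y)) (a y) ∧ pos (p.1 y) (a y) ∧ ∀ i, sAt p (fun v => a v i) y

namespace OBun

variable (b : OBun r E B)

private theorem INTl2_norm {a : Fin r → E} (ha : Orthonormal ℝ a) (ξ : V r) :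
    ‖∑ i, ξ i • a i‖ = ‖toE ξ‖ := by
  have h1 : ‖∑ i, ξ i • a i‖ ^ 2 = ∑ i, ξ i * ξ i := by
    rw [← real_inner_self_eq_norm_sq]
    exact ha.inner_sum ξ ξ Finset.univ
  have h2 : ‖toE ξ‖ ^ 2 = ∑ i, ξ i * ξ i := by
    rw [EuclideanSpace.norm_sq_eq]
    refine Finset.sum_congr rfl fun i _ => ?_
    show ‖ξ i‖ ^ 2 = ξ i * ξ i
    rw [Real.norm_eq_abs, sq_abs, pow_two]
  exact (sq_eq_sq₀ (norm_nonneg _) (norm_nonneg _)).1 (h1.trans h2.symm)

private theorem INTl2_toE_ne {ξ : V r} (h : ξ ≠ 0) : toE ξ ≠ 0 := fun h0 => h (funext fun i =>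
  congrFun (congrArg (fun v : EuclideanSpace ℝ (Fin r) => (v : Fin r → ℝ)) h0) i)

private theorem INTl2_neg (ξ : V r) : ‖toE (-ξ)‖ = ‖toE ξ‖ := by
  have h : toE (-ξ) = -toE ξ := rfl
  rw [h, norm_neg]

private theorem INTl2_smul (t : ℝ) (ht : 0 < t) (ξ : V r) : ‖toE (t • ξ)‖ = t * ‖toE ξ‖ := by
  have h : toE (t • ξ) = t • toE ξ := rfl
  rw [h, norm_smul, Real.norm_eq_abs, abs_of_pos ht]

/-- the sphere bundle -/
def S : Space where
  pt := {z : B.pt × E // z.2 ∈ b.W z.1 ∧ ‖z.2‖ = 1}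
  Pl k := {q | ∃ h : (fun v => (q v).1.1) ∈ B.Pl k, ∀ z, b.sAt ⟨_, h⟩ (fun v => (q v).1.2) z}
  pre := fun {_ _ _} hp g => ⟨B.pre hp.1 g, fun z => b.comp g (hp.2 (g z))⟩

/-- positive orthonormal frames -/
def F : Space where
  pt := {z : B.pt × (Fin r → E) // OFr (b.W z.1) z.2 ∧ b.pos z.1 z.2}
  Pl k := {q | ∃ h : (fun v => (q v).1.1) ∈ B.Pl k, ∀ i z, b.sAt ⟨_, h⟩ (fun v => (q v).1.2 i) z}
  pre := fun {_ _ _} hp g => ⟨B.pre hp.1 g, fun i z => b.comp g (hp.2 i (g z))⟩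

/-- projection of the sphere bundle -/
def pr : SMap b.S B := ⟨fun z => z.1.1, fun _ p => p.2.1⟩

/-- projection of the frame bundle -/
def q : SMap b.F B := ⟨fun z => z.1.1, fun _ p => p.2.1⟩

theorem neg_mem_S (z : b.S.pt) : -z.1.2 ∈ b.W z.1.1 ∧ ‖-z.1.2‖ = 1 := by
  exact ⟨(b.W z.1.1).neg_mem z.2.1, by rw [norm_neg]; exact z.2.2⟩

/-- the antipode -/
def an : SMap b.S b.S := ⟨fun z => ⟨(z.1.1, -z.1.2), b.neg_mem_S z⟩, fun k p => ⟨p.2.1, fun z => by
  have h := b.smul (f := fun _ => (-1 : ℝ)) contDiffAt_const (p.2.2 z)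
  refine b.congr h (Eventually.of_forall fun v => ?_)
  show -(p.1 v).1.2 = (-1 : ℝ) • (p.1 v).1.2
  rw [neg_one_smul]⟩⟩

theorem pt_mem (z : (b.F.xP r).pt) : (‖toE z.1.2‖⁻¹ • ∑ i, z.1.2 i • z.1.1.1.2 i) ∈ b.W z.1.1.1.1 ∧
    ‖‖toE z.1.2‖⁻¹ • ∑ i, z.1.2 i • z.1.1.1.2 i‖ = 1 := by
  have hf : OFr (b.W z.1.1.1.1) z.1.1.1.2 := z.1.1.2.1
  refine ⟨(b.W z.1.1.1.1).smul_mem _ ((b.W z.1.1.1.1).sum_mem fun i _ => (b.W z.1.1.1.1).smul_mem _ (hf.1 i)), ?_⟩
  rw [norm_smul, INTl2_norm hf.2, norm_inv, norm_norm]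
  exact inv_mul_cancel₀ (norm_ne_zero_iff.2 (INTl2_toE_ne z.2))

theorem pt_smooth (p : (b.F.xP r).Plot k) : ∃ h : (fun v => (p.1 v).1.1.1.1) ∈ B.Pl k, ∀ z,
    b.sAt ⟨_, h⟩ (fun v => ‖toE (p.1 v).1.2‖⁻¹ • ∑ i, (p.1 v).1.2 i • (p.1 v).1.1.1.2 i) z := by
  obtain ⟨h, h2⟩ := p.2.1
  have hξ : ContDiff ℝ ∞ fun v => (p.1 v).1.2 := p.2.2
  refine ⟨h, fun z => ?_⟩
  have h3 : toE (p.1 z).1.2 ≠ 0 := INTl2_toE_ne (p.1 z).2
  have h4 : ContDiffAt ℝ ∞ (fun v => ‖toE (p.1 v).1.2‖) z := by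
    have h5 : ContDiffAt ℝ ∞ (fun v : EuclideanSpace ℝ (Fin r) => ‖v‖) (toE (p.1 z).1.2) := contDiffAt_norm ℝ h3
    exact h5.comp z (contDiff_toE.comp hξ).contDiffAt
  refine b.smul (h4.inv (norm_ne_zero_iff.2 h3)) ?_
  refine b.toVFld.sum Finset.univ fun i _ => b.smul ?_ (h2 i z)
  exact (contDiff_pi.1 hξ i).contDiffAt

/-- the direction with coordinates `ξ` -/
def ptm : SMap (b.F.xP r) b.S :=
  ⟨fun z => ⟨(z.1.1.1.1, ‖toE z.1.2‖⁻¹ • ∑ i, z.1.2 i • z.1.1.1.2 i), b.pt_mem z⟩, fun _ p => b.pt_smooth p⟩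

theorem an_ptm (f : b.F.pt) (ξ : V r) (hξ : ξ ≠ 0) :
    b.an.1 (b.ptm.1 ⟨(f, ξ), hξ⟩) = b.ptm.1 ⟨(f, -ξ), neg_ne_zero.2 hξ⟩ := by
  refine Subtype.ext (Prod.ext rfl ?_)
  show -(‖toE ξ‖⁻¹ • ∑ i, ξ i • f.1.2 i) = ‖toE (-ξ)‖⁻¹ • ∑ i, (-ξ) i • f.1.2 i
  have h1 : ∑ i, (-ξ) i • f.1.2 i = -∑ i, ξ i • f.1.2 i := by
    rw [← Finset.sum_neg_distrib]
    exact Finset.sum_congr rfl fun i _ => neg_smul _ _
  rw [INTl2_neg, h1, smul_neg]

theorem hom_ptm (f : b.F.pt) (ξ : V r) (hξ : ξ ≠ 0) (t : ℝ) (ht : 0 < t) :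
    b.ptm.1 ⟨(f, t • ξ), smul_ne_zero ht.ne' hξ⟩ = b.ptm.1 ⟨(f, ξ), hξ⟩ := by
  refine Subtype.ext (Prod.ext rfl ?_)
  show ‖toE (t • ξ)‖⁻¹ • ∑ i, (t • ξ) i • f.1.2 i = ‖toE ξ‖⁻¹ • ∑ i, ξ i • f.1.2 i
  have h1 : ∑ i, (t • ξ) i • f.1.2 i = t • ∑ i, ξ i • f.1.2 i := by
    rw [Finset.smul_sum]
    exact Finset.sum_congr rfl fun i _ => mul_smul _ _ _
  rw [INTl2_smul t ht, h1, smul_smul]
  congr 1
  rw [mul_inv, mul_comm t⁻¹, mul_assoc, inv_mul_cancel₀ ht.ne', mul_one]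

theorem inj_ptm (f : b.F.pt) (ξ ξ' : V r) (hξ : ξ ≠ 0) (hξ' : ξ' ≠ 0) (h1 : ‖toE ξ‖ = 1) (h2 : ‖toE ξ'‖ = 1)
    (h : b.ptm.1 ⟨(f, ξ), hξ⟩ = b.ptm.1 ⟨(f, ξ'), hξ'⟩) : ξ = ξ' := by
  have h3 : ‖toE ξ‖⁻¹ • ∑ i, ξ i • f.1.2 i = ‖toE ξ'‖⁻¹ • ∑ i, ξ' i • f.1.2 i :=
    congrArg (fun z : b.S.pt => z.1.2) h
  rw [h1, h2, inv_one, one_smul, one_smul] at h3
  have hf : OFr (b.W f.1.1) f.1.2 := f.2.1
  funext i
  have h4 := hf.2.inner_right_fintype ξ i
  have h5 := hf.2.inner_right_fintype ξ' i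
  rw [← h4, ← h5, h3]

end OBun

end Pool.Agent.Lib.MP_ccbbf6_gt.L5
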