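import Pool.Agent.Lib.MP_ccbbf6_gt.L5.INTh
import Pool.Agent.Lib.MP_ccbbf6_gt.L5.INTl

/-!
# Level 5, INTm: the sphere bundle of an oriented vector bundle as an `SBun` (helper67)

PROOFS.
(1) frame_expand: for an orthonormal frame `a` of `W` (finrank W = r) every v ∈ W is Σ ⟪a i, v⟫ • a i: the span of `a` has finrank r and is contained in W, so equals W (`Submodule.eq_of_le_of_finrank_eq`, `finrank_span_eq_card`;
    for r = 0: finrank 0.. only needed for r ≥ 1: assume `0 < r`, then W is finite dimensional by `Module.finite_of_finrank_pos`), then `Orthonormal.sum_inner_products_eq`-type lemma on `Submodule.span`, or: v - Σ ⟪a i, v⟫ a i ∈ W = span is orthogonal to all a i.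
(2) gramA: for two orthonormal frames a, a' of W, A i j = ⟪a i, a' j⟫ satisfies A^T A = 1: (A^T A) j j' = Σ_i ⟪a i, a' j⟫ ⟪a i, a' j'⟫ = ⟪a' j, a' j'⟫ by (1).
(3) LL_q: given p : B.Plot k and z: `b.loc p z` gives a; the set where the three properties hold is a neighbourhood; `exists_sq z` (as in Ext0.lean, `locPl_of`) gives h : FR.Sm k k with h y = y near z and h y in that set for all y.
    P := ⟨fun y => ⟨(p.1 (h y), a (h y)), ..⟩, (p.cmp h).2, fun i y => b.comp h (..)⟩; `b.q.pl P = p.cmp h` by `Plot_ext`/rfl.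
(4) change_q: A z i j := ⟪P z i, P' z j⟫; smooth by `b.inn` (both frames are smooth sections along the plot q.pl P = q.pl P'; rewrite along this equality of plots: the base points agree as functions; `Subtype.ext`), det = 1 by `pos_iff`,
    A^T A = 1 by (2); `Σ_j ξ_j a'_j = Σ_i (A ξ)_i a_i` by (1), `‖A ξ‖ = ‖ξ‖` (norm of toE from A^T A = 1; see INTg.lean).
(5) ex_first: for W of finrank r = N + 1 ≥ 2, pos as in OBun and a positive frame a of W, and a unit vector v ∈ W there is a positive orthonormal frame c with c 0 = v: take an orthonormal basis of W with first vector v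
    (`Orthonormal.exists_orthonormalBasis_extension_of_card_eq` or Gram-Schmidt), det(⟪a i, c j⟫) = ±1 (from (2)); if -1 replace c (last) by -c (last) (last ≠ 0 as N ≥ 1): the determinant changes sign (`Matrix.det_updateCol_smul` or
    `det` of the column scaled). `pos_iff`.
(6) LL_q1: given a plot (p, v) of b.S at z. Local frame a near z (b.loc). c := positive frame at p z with c 0 = v z (5). R i j := ⟪c i, a(z) j⟫, a' i (y) := Σ_j R i j • a j (y): orthonormal frame of W near z, a'(z) = c.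
    T_y w := w - (⟪a' 0 y + v y, w⟫ / (1 + ⟪a' 0 y, v y⟫)) • (a' 0 y + v y) + (2 * ⟪a' 0 y, w⟫) • v y, defined near z where 1 + ⟪a' 0, v⟫ > 0 (at z it is 2). T_y preserves inner products (direct computation; x, v unit),
    T_y (a' 0 y) = v y, T_z = id on W (a' 0 z = v z). a'' i y := T_y (a' i y): orthonormal frame of W_y, smooth, first vector v y. Positivity near z: D(y) := det ⟪a i y, a'' j y⟫ is continuous near z, D(y)² = 1 by (2),
    D(z) = det(⟪a i z, c j⟫) = 1, so D(y) = 1 near z; `pos_iff`. Then as (3): P of b.F with q1.pl P = (the plot of S).cmp h: `ptm ∘ e1M`: ‖e1‖⁻¹ • Σ (e1 i) a i = a 0.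
(7) sb: assemble (`hom_ptm`, `an_ptm`, `inj_ptm` of INTl; statement forms match the fields of `SBun`).
-/

set_option autoImplicit false
set_option maxSynthPendingDepth 3

open Set Filter Topology

open scoped ContDiff

noncomputable section

namespace Pool.Agent.Lib.MP_ccbbf6_gt.L5

open L4 L4.FR

variable {k l r N : ℕ} {E : Type} [NormedAddCommGroup E] [InnerProductSpace ℝ E] {B B' : Space}

theorem frame_expand {W : Submodule ℝ E} (hr : 0 < r) (hW : Module.finrank ℝ W = r) {a : Fin r → E} (ha : OFr W a) {v : E}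
    (hv : v ∈ W) : ∑ i, inner ℝ (a i) v • a i = v := by
  have : FiniteDimensional ℝ W := Module.finite_of_finrank_pos (by rw [hW]; exact hr)
  have h1 : Submodule.span ℝ (Set.range a) ≤ W := Submodule.span_le.2 (by
    rintro _ ⟨i, rfl⟩
    exact ha.1 i)
  have h2 : Module.finrank ℝ (Submodule.span ℝ (Set.range a)) = Module.finrank ℝ W := by
    rw [finrank_span_eq_card ha.2.linearIndependent, hW, Fintype.card_fin]
  have h3 : Submodule.span ℝ (Set.range a) = W := Submodule.eq_of_le_of_finrank_eq h1 h2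
  rw [← h3] at hv
  obtain ⟨c, hc⟩ := (Submodule.mem_span_range_iff_exists_fun ℝ).1 hv
  rw [← hc]
  refine Finset.sum_congr rfl fun i _ => ?_
  rw [ha.2.inner_right_fintype c i]

theorem gramA {W : Submodule ℝ E} (hr : 0 < r) (hW : Module.finrank ℝ W = r) {a a' : Fin r → E} (ha : OFr W a)
    (ha' : OFr W a') : (Matrix.of fun i j => inner ℝ (a i) (a' j)).transpose * (Matrix.of fun i j => inner ℝ (a i) (a' j)) =
      (1 : Matrix (Fin r) (Fin r) ℝ) := by
  ext j j'
  rw [Matrix.mul_apply, Matrix.one_apply]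
  have h1 := frame_expand hr hW ha (ha'.1 j)
  have h2 : inner ℝ (a' j) (a' j') = ∑ i, inner ℝ (a i) (a' j) * inner ℝ (a i) (a' j') := by
    conv_lhs => rw [← h1]
    rw [sum_inner]
    refine Finset.sum_congr rfl fun i _ => ?_
    rw [real_inner_smul_left]
  have h3 := orthonormal_iff_ite.1 ha'.2 j j'
  rw [h2] at h3
  exact h3

namespace OBun

private theorem INTm1_norm {n : ℕ} {A : Matrix (Fin n) (Fin n) ℝ} (h : A.transpose * A = 1) (ξ : V n) :
    ‖toE (A.mulVec ξ)‖ = ‖toE ξ‖ := by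
  have h1 : ∀ η : V n, ‖toE η‖ = Real.sqrt (dotProduct η η) := by
    intro η
    rw [EuclideanSpace.norm_eq]
    refine congrArg Real.sqrt (Finset.sum_congr rfl fun i _ => ?_)
    show ‖η i‖ ^ 2 = η i * η i
    rw [Real.norm_eq_abs, sq_abs, pow_two]
  rw [h1, h1, Matrix.dotProduct_mulVec, ← Matrix.mulVec_transpose, Matrix.mulVec_mulVec, h, Matrix.one_mulVec]

/-- the rotation -/
private def INTm3_T (u v w : E) : E :=
  w + (-(inner ℝ (u + v) w / (1 + inner ℝ u v))) • (u + v) + (2 * inner ℝ u w) • v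

private theorem INTm3_T_inner {u v : E} (hu : ‖u‖ = 1) (hv : ‖v‖ = 1) (ht : 1 + inner ℝ u v ≠ 0) (w w' : E) :
    inner ℝ (INTm3_T u v w) (INTm3_T u v w') = inner ℝ w w' := by
  have huu : inner ℝ u u = 1 := by rw [real_inner_self_eq_norm_sq, hu, one_pow]
  have hvv : inner ℝ v v = 1 := by rw [real_inner_self_eq_norm_sq, hv, one_pow]
  obtain ⟨s, hs⟩ : ∃ s : ℝ, s = inner ℝ u v := ⟨_, rfl⟩
  obtain ⟨α, hα⟩ : ∃ α : ℝ, α = inner ℝ u w := ⟨_, rfl⟩
  obtain ⟨β, hβ⟩ : ∃ β : ℝ, β = inner ℝ v w := ⟨_, rfl⟩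
  obtain ⟨α', hα'⟩ : ∃ α' : ℝ, α' = inner ℝ u w' := ⟨_, rfl⟩
  obtain ⟨β', hβ'⟩ : ∃ β' : ℝ, β' = inner ℝ v w' := ⟨_, rfl⟩
  have h1 : inner ℝ v u = s := by rw [hs, real_inner_comm]
  have h2 : inner ℝ w u = α := by rw [hα, real_inner_comm]
  have h3 : inner ℝ w v = β := by rw [hβ, real_inner_comm]
  unfold INTm3_T
  rw [← hs] at ht ⊢
  simp only [inner_add_left, inner_add_right, inner_smul_left, inner_smul_right, huu, hvv, ← hs, ← hα, ← hβ, ← hα',
    ← hβ', h1, h2, h3, RCLike.conj_to_real]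
  field_simp
  ring

private theorem INTm3_T_self {u v : E} (hu : ‖u‖ = 1) (ht : 1 + inner ℝ u v ≠ 0) : INTm3_T u v u = v := by
  have huu : inner ℝ u u = 1 := by rw [real_inner_self_eq_norm_sq, hu, one_pow]
  unfold INTm3_T
  rw [inner_add_left, huu, real_inner_comm u v, div_self ht, mul_one, neg_one_smul, two_smul]
  abel

private theorem INTm3_T_id {u : E} (hu : ‖u‖ = 1) (w : E) : INTm3_T u u w = w := by
  have huu : inner ℝ u u = 1 := by rw [real_inner_self_eq_norm_sq, hu, one_pow]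
  unfold INTm3_T
  have h1 : inner ℝ (u + u) w / (1 + inner ℝ u u) = inner ℝ u w := by
    rw [huu, inner_add_left]
    ring
  rw [h1, ← two_smul ℝ u, smul_smul, add_assoc, ← add_smul]
  have h2 : -(inner ℝ u w) * 2 + 2 * inner ℝ u w = (0 : ℝ) := by ring
  rw [h2, zero_smul, add_zero]

private theorem INTm3_T_mem {W : Submodule ℝ E} {u v w : E} (hu : u ∈ W) (hv : v ∈ W) (hw : w ∈ W) :
    INTm3_T u v w ∈ W :=
  W.add_mem (W.add_mem hw (W.smul_mem _ (W.add_mem hu hv))) (W.smul_mem _ hv)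

/-- linear combinations of an orthonormal family -/
private theorem INTm3_comb {a : Fin r → E} (ha : Orthonormal ℝ a) (l₁ l₂ : Fin r → ℝ) :
    inner ℝ (∑ i, l₁ i • a i) (∑ i, l₂ i • a i) = ∑ i, l₁ i * l₂ i := by
  rw [ha.inner_sum]
  exact Finset.sum_congr rfl fun i _ => by rw [RCLike.conj_to_real]

private theorem INTm3_T_smooth (S : VFld E B) {p : B.Plot k} {u v w : V k → E} {z : V k} (hu : S.sAt p u z)
    (hv : S.sAt p v z) (hw : S.sAt p w z) (ht : 1 + inner ℝ (u z) (v z) ≠ 0) :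
    S.sAt p (fun y => INTm3_T (u y) (v y) (w y)) z := by
  have h1 := S.inn (S.add hu hv) hw
  have h2 := S.inn hu hv
  have h3 := S.inn hu hw
  unfold INTm3_T
  exact S.add (S.add hw (S.smul ((h1.div (contDiffAt_const.add h2) ht).neg) (S.add hu hv)))
    (S.smul (contDiffAt_const.mul h3) hv)

private theorem INTm3_det {W : Submodule ℝ E} (hr : 0 < r) (hW : Module.finrank ℝ W = r) {a a' : Fin r → E}
    (ha : OFr W a) (ha' : OFr W a') : (Matrix.of fun i j => inner ℝ (a i) (a' j)).det ^ 2 = (1 : ℝ) := by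
  have h := congrArg Matrix.det (gramA hr hW ha ha')
  rw [Matrix.det_mul, Matrix.det_transpose, Matrix.det_one] at h
  rw [pow_two]
  exact h

private theorem INTm3_e1 (N : ℕ) : ‖toE (Pi.single 0 1 : V (N + 1))‖ = 1 := by
  rw [EuclideanSpace.norm_eq]
  have h : ∑ i, ‖(toE (Pi.single 0 1 : V (N + 1))) i‖ ^ 2 = 1 := by
    rw [Finset.sum_eq_single 0]
    · show ‖(Pi.single 0 1 : V (N + 1)) 0‖ ^ 2 = 1
      rw [Pi.single_eq_same, norm_one, one_pow]
    · intro i _ hi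
      show ‖(Pi.single 0 1 : V (N + 1)) i‖ ^ 2 = 0
      rw [Pi.single_eq_of_ne hi, norm_zero]
      norm_num
    · intro h
      exact absurd (Finset.mem_univ _) h
  rw [h, Real.sqrt_one]

theorem LL_q (b : OBun r E B) : LLift b.q := by
  intro k p z
  obtain ⟨a, ha⟩ := b.loc p z
  obtain ⟨h, h1, h2⟩ := exists_sq z ha
  refine ⟨h, ⟨fun y => ⟨(p.1 (h y), a (h y)), (h2 y).1, (h2 y).2.1⟩, (p.cmp h).2, fun i y =>
    b.comp h ((h2 y).2.2 i)⟩, h1, ?_⟩
  exact Plot_ext fun y => rfl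

theorem change_q (b : OBun r E B) (hr : 0 < r) (k : ℕ) (P P' : b.F.Plot k) (h : b.q.pl P = b.q.pl P') :
    ∃ A : V k → Matrix (Fin r) (Fin r) ℝ,
    (∀ i j, ContDiff ℝ ∞ fun z => A z i j) ∧ (∀ z, (A z).det = 1) ∧ ∃ h1 : ∀ z, (A z).transpose * A z = 1,
      ∀ z (ξ : V r) (hξ : ξ ≠ 0), b.ptm.1 ⟨(P'.1 z, ξ), hξ⟩ =
        b.ptm.1 ⟨(P.1 z, (A z).mulVec ξ), mulVec_ne (h1 z) hξ⟩ := by
  have hb : ∀ z, (P.1 z).1.1 = (P'.1 z).1.1 := fun z => congrFun (congrArg Subtype.val h) z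
  have ho : ∀ z, OFr (b.W (P.1 z).1.1) (P.1 z).1.2 := fun z => (P.1 z).2.1
  have ho' : ∀ z, OFr (b.W (P.1 z).1.1) (P'.1 z).1.2 := fun z => by
    rw [hb z]
    exact (P'.1 z).2.1
  have hp' : ∀ z, b.pos (P.1 z).1.1 (P'.1 z).1.2 := fun z => by
    rw [hb z]
    exact (P'.1 z).2.2
  refine ⟨fun z => Matrix.of fun i j => inner ℝ ((P.1 z).1.2 i) ((P'.1 z).1.2 j), fun i j => ?_, fun z => ?_,
    fun z => gramA hr (b.rank _) (ho z) (ho' z), fun z ξ hξ => ?_⟩
  · refine contDiff_iff_contDiffAt.2 fun z => ?_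
    have hP : b.sAt (b.q.pl P) (fun v => (P.1 v).1.2 i) z := P.2.2 i z
    have hP' : b.sAt (b.q.pl P') (fun v => (P'.1 v).1.2 j) z := P'.2.2 j z
    rw [← h] at hP'
    exact b.inn hP hP'
  · exact (b.pos_iff _ _ _ (ho z) (ho' z) (P.1 z).2.2).1 (hp' z)
  · have hg := gramA hr (b.rank _) (ho z) (ho' z)
    refine Subtype.ext (Prod.ext (hb z).symm ?_)
    show ‖toE ξ‖⁻¹ • ∑ j, ξ j • (P'.1 z).1.2 j =
      ‖toE ((Matrix.of fun i j => inner ℝ ((P.1 z).1.2 i) ((P'.1 z).1.2 j)).mulVec ξ)‖⁻¹ •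
        ∑ i, ((Matrix.of fun i j => inner ℝ ((P.1 z).1.2 i) ((P'.1 z).1.2 j)).mulVec ξ) i • (P.1 z).1.2 i
    rw [INTm1_norm hg]
    congr 1
    have h3 : ∀ i, ((Matrix.of fun i j => inner ℝ ((P.1 z).1.2 i) ((P'.1 z).1.2 j)).mulVec ξ) i • (P.1 z).1.2 i =
        ∑ j, ξ j • inner ℝ ((P.1 z).1.2 i) ((P'.1 z).1.2 j) • (P.1 z).1.2 i := by
      intro i
      show (∑ j, inner ℝ ((P.1 z).1.2 i) ((P'.1 z).1.2 j) * ξ j) • (P.1 z).1.2 i = _
      rw [Finset.sum_smul]
      refine Finset.sum_congr rfl fun j _ => ?_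
      rw [mul_comm, mul_smul]
    rw [Finset.sum_congr rfl fun i _ => h3 i, Finset.sum_comm]
    refine Finset.sum_congr rfl fun j _ => ?_
    rw [← Finset.smul_sum, frame_expand hr (b.rank _) (ho z) ((ho' z).1 j)]

private theorem INTm_signs {N : ℕ} {c : Fin (N + 1) → E} (hc : Orthonormal ℝ c) :
    Orthonormal ℝ fun i => (if i = Fin.last N then (-1 : ℝ) else 1) • c i := by
  rw [orthonormal_iff_ite] at hc ⊢
  intro i j
  rw [real_inner_smul_left, real_inner_smul_right, hc i j]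
  by_cases hij : i = j
  · subst hij
    split_ifs <;> norm_num
  · rw [if_neg hij, mul_zero, mul_zero]

theorem ex_first (b : OBun (N + 1) E B) (hN : 1 ≤ N) (x : B.pt) {a : Fin (N + 1) → E} (ha : OFr (b.W x) a)
    (hp : b.pos x a) {v : E} (hv : v ∈ b.W x) (hv1 : ‖v‖ = 1) :
    ∃ c : Fin (N + 1) → E, OFr (b.W x) c ∧ b.pos x c ∧ c 0 = v := by
  have hfin : Module.Finite ℝ (b.W x) := Module.finite_of_finrank_pos (by rw [b.rank x]; exact Nat.succ_pos N)
  have hv' : Orthonormal ℝ (({0} : Set (Fin (N + 1))).domRestrict fun _ : Fin (N + 1) => (⟨v, hv⟩ : b.W x)) := by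
    refine ⟨fun i => ?_, fun i j hij => ?_⟩
    · show ‖(⟨v, hv⟩ : b.W x)‖ = 1
      rw [Submodule.coe_norm]
      exact hv1
    · exact absurd (Subtype.ext (i.2.trans j.2.symm)) hij
  obtain ⟨bW, hbW⟩ := hv'.exists_orthonormalBasis_extension_of_card_eq
    (by rw [b.rank x, Fintype.card_fin])
  set c0 : Fin (N + 1) → E := fun i => (bW i : E) with hc0
  have hc00 : c0 0 = v := by
    rw [hc0]
    simp only
    rw [hbW 0 rfl]
  have hO : Orthonormal ℝ c0 := bW.orthonormal.comp_linearIsometry (b.W x).subtypeₗᵢ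
  have hfr0 : OFr (b.W x) c0 := ⟨fun i => (bW i).2, hO⟩
  have hdet := congrArg Matrix.det (gramA (Nat.succ_pos N) (b.rank x) ha hfr0)
  rw [Matrix.det_mul, Matrix.det_transpose, Matrix.det_one] at hdet
  rcases mul_self_eq_one_iff.1 hdet with h1 | h1
  · exact ⟨c0, hfr0, (b.pos_iff x a c0 ha hfr0 hp).2 h1, hc00⟩
  · have hfr : OFr (b.W x) fun i => (if i = Fin.last N then (-1 : ℝ) else 1) • c0 i :=
      ⟨fun i => (b.W x).smul_mem _ (bW i).2, INTm_signs hO⟩
    refine ⟨_, hfr, (b.pos_iff x a _ ha hfr hp).2 ?_, ?_⟩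
    · have h2 : (Matrix.of fun i j => inner ℝ (a i) ((if j = Fin.last N then (-1 : ℝ) else 1) • c0 j)) =
          (Matrix.of fun i j => inner ℝ (a i) (c0 j)) *
            Matrix.diagonal fun j : Fin (N + 1) => if j = Fin.last N then (-1 : ℝ) else 1 := by
        ext i j
        rw [Matrix.mul_diagonal]
        simp only [Matrix.of_apply, real_inner_smul_right]
        ring
      rw [h2, Matrix.det_mul, Matrix.det_diagonal, h1, Finset.prod_ite_eq' Finset.univ (Fin.last N)]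
      simp
    · have h3 : (0 : Fin (N + 1)) ≠ Fin.last N := by
        intro h
        have := congrArg Fin.val h
        simp at this
        omega
      show (if (0 : Fin (N + 1)) = Fin.last N then (-1 : ℝ) else 1) • c0 0 = v
      rw [if_neg h3, one_smul, hc00]

/-- a local smooth positive frame with given first vector -/
private theorem INTm3_frame (b : OBun (N + 1) E B) (hN : 1 ≤ N) (p : B.Plot k) (v : V k → E)
    (hvW : ∀ y, v y ∈ b.W (p.1 y)) (hv1 : ∀ y, ‖v y‖ = 1) (hvs : ∀ y, b.sAt p v y) (z : V k) :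
    ∃ a : V k → Fin (N + 1) → E, ∀ᶠ y in 𝓝 z,
      OFr (b.W (p.1 y)) (a y) ∧ b.pos (p.1 y) (a y) ∧ (∀ i, b.sAt p (fun v => a v i) y) ∧ a y 0 = v y := by
  obtain ⟨a, ha⟩ := b.loc p z
  have haz := ha.self_of_nhds
  obtain ⟨c, hc, hcp, hc0⟩ := b.ex_first hN (p.1 z) haz.1 haz.2.1 (hvW z) (hv1 z)
  obtain ⟨x, hx⟩ : ∃ x : V k → Fin (N + 1) → E, x = fun y i => ∑ j, inner ℝ (c i) (a z j) • a y j := ⟨_, rfl⟩
  have hxe : ∀ y i, x y i = ∑ j, inner ℝ (c i) (a z j) • a y j := fun y i => by rw [hx]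
  have hxz : ∀ i, x z i = c i := by
    intro i
    rw [hxe]
    refine (Finset.sum_congr rfl fun j _ => ?_).trans (frame_expand (Nat.succ_pos N) (b.rank _) haz.1 (hc.1 i))
    rw [real_inner_comm]
  have hxin : ∀ {y : V k}, Orthonormal ℝ (a y) → ∀ i i', inner ℝ (x y i) (x y i') = inner ℝ (c i) (c i') := by
    intro y hy i i'
    rw [← hxz i, ← hxz i', hxe, hxe, hxe, hxe, INTm3_comb hy, INTm3_comb haz.1.2]
  have hxW : ∀ {y : V k}, (∀ j, a y j ∈ b.W (p.1 y)) → ∀ i, x y i ∈ b.W (p.1 y) := by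
    intro y hy i
    rw [hxe]
    exact Submodule.sum_mem _ fun j _ => Submodule.smul_mem _ _ (hy j)
  have hxs : ∀ {y : V k}, (∀ j, b.sAt p (fun v => a v j) y) → ∀ i, b.sAt p (fun v => x v i) y := by
    intro y hy i
    rw [hx]
    exact b.toVFld.sum _ fun j _ => b.smul contDiffAt_const (hy j)
  have hnorm : ∀ {y : V k}, Orthonormal ℝ (a y) → ‖x y 0‖ = 1 := by
    intro y hy
    have h1 := hxin hy 0 0
    rw [real_inner_self_eq_norm_sq, real_inner_self_eq_norm_sq, hc.2.1 0] at h1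
    have h2 : ‖x y 0‖ ^ 2 = 1 := by rw [h1, one_pow]
    exact (pow_eq_one_iff_of_nonneg (norm_nonneg _) two_ne_zero).1 h2
  -- the rotation is defined near `z`
  have hden : ∀ᶠ y in 𝓝 z, 0 < 1 + inner ℝ (x y 0) (v y) := by
    have h1 : ContinuousAt (fun y => 1 + inner ℝ (x y 0) (v y)) z :=
      continuousAt_const.add (b.inn (hxs haz.2.2 0) (hvs z)).continuousAt
    refine h1.eventually (lt_mem_nhds ?_)
    show 0 < 1 + inner ℝ (x z 0) (v z)
    rw [hxz, hc0, real_inner_self_eq_norm_sq, hv1]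
    norm_num
  obtain ⟨t, ht⟩ : ∃ t : V k → Fin (N + 1) → E, t = fun y i => INTm3_T (x y 0) (v y) (x y i) := ⟨_, rfl⟩
  have hte : ∀ y i, t y i = INTm3_T (x y 0) (v y) (x y i) := fun y i => by rw [ht]
  have htz : t z = c := by
    funext i
    rw [hte, hxz, hxz, hc0]
    exact INTm3_T_id (hv1 z) _
  have hgood : ∀ᶠ y in 𝓝 z, OFr (b.W (p.1 y)) (t y) ∧ (∀ i, b.sAt p (fun v => t v i) y) ∧ t y 0 = v y := by
    filter_upwards [ha, hden] with y hy hd
    refine ⟨⟨fun i => ?_, ?_⟩, fun i => ?_, ?_⟩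
    · rw [hte]
      exact INTm3_T_mem (hxW hy.1.1 0) (hvW y) (hxW hy.1.1 i)
    · rw [orthonormal_iff_ite]
      intro i j
      rw [hte, hte, INTm3_T_inner (hnorm hy.1.2) (hv1 y) hd.ne', hxin hy.1.2]
      exact orthonormal_iff_ite.1 hc.2 i j
    · rw [ht]
      exact INTm3_T_smooth b.toVFld (hxs hy.2.2 0) (hvs y) (hxs hy.2.2 i) hd.ne'
    · rw [hte]
      exact INTm3_T_self (hnorm hy.1.2) hd.ne'
  have hgz := hgood.self_of_nhds
  -- positivity
  have hD : ContinuousAt (fun y => (Matrix.of fun i j => inner ℝ (a y i) (t y j)).det) z := by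
    have h1 : ContinuousAt (fun y => (Matrix.of fun i j => inner ℝ (a y i) (t y j) :
        Matrix (Fin (N + 1)) (Fin (N + 1)) ℝ)) z :=
      continuousAt_pi.2 fun i => continuousAt_pi.2 fun j => (b.inn (haz.2.2 i) (hgz.2.1 j)).continuousAt
    exact (Continuous.matrix_det continuous_id).continuousAt.comp h1
  have hDz : (Matrix.of fun i j => inner ℝ (a z i) (t z j)).det = (1 : ℝ) := by
    refine (b.pos_iff (p.1 z) (a z) (t z) haz.1 hgz.1 haz.2.1).1 ?_
    rw [htz]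
    exact hcp
  have hDpos : ∀ᶠ y in 𝓝 z, 0 < (Matrix.of fun i j => inner ℝ (a y i) (t y j)).det := by
    refine hD.eventually (lt_mem_nhds ?_)
    show 0 < (Matrix.of fun i j => inner ℝ (a z i) (t z j)).det
    rw [hDz]
    exact one_pos
  refine ⟨t, ?_⟩
  filter_upwards [ha, hgood, hDpos] with y hy hg hd
  refine ⟨hg.1, (b.pos_iff (p.1 y) (a y) (t y) hy.1 hg.1 hy.2.1).2 ?_, hg.2.1, hg.2.2⟩
  have h1 := INTm3_det (Nat.succ_pos N) (b.rank _) hy.1 hg.1
  exact (pow_eq_one_iff_of_nonneg hd.le two_ne_zero).1 h1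

theorem LL_q1 (b : OBun (N + 1) E B) (hN : 1 ≤ N) : LLift (b.ptm.comp (e1M b.F N)) := by
  intro k p z
  obtain ⟨t, ht⟩ := INTm3_frame b hN ⟨fun y => (p.1 y).1.1, p.2.1⟩ (fun y => (p.1 y).1.2) (fun y => (p.1 y).2.1)
    (fun y => (p.1 y).2.2) (fun y => p.2.2 y) z
  obtain ⟨h, hh1, hh2⟩ := exists_sq z ht
  refine ⟨h, ⟨fun w => ⟨((p.1 (h w)).1.1, t (h w)), (hh2 w).1, (hh2 w).2.1⟩,
    ⟨B.pre p.2.1 h, fun i w => b.comp h ((hh2 w).2.2.1 i)⟩⟩, hh1, ?_⟩
  refine Plot_ext fun w => Subtype.ext (Prod.ext rfl ?_)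
  show ‖toE (Pi.single 0 1 : V (N + 1))‖⁻¹ • ∑ i, (Pi.single 0 1 : V (N + 1)) i • t (h w) i = (p.1 (h w)).1.2
  rw [INTm3_e1, inv_one, one_smul, Finset.sum_eq_single 0]
  · rw [Pi.single_eq_same, one_smul]
    exact (hh2 w).2.2.2
  · intro i _ hi
    rw [Pi.single_eq_of_ne hi, zero_smul]
  · intro h0
    exact absurd (Finset.mem_univ _) h0

/-- **the sphere bundle** -/
def sb (b : OBun (N + 1) E B) (hN : 1 ≤ N) : SBun N b.S B where
  pi := b.pr
  F := b.F
  q := b.q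
  ptm := b.ptm
  ant := b.an
  pi_pt := fun _ => rfl
  pi_ant := fun _ => rfl
  ant_pt := fun f ξ hξ => b.an_ptm f ξ hξ
  hom := fun f ξ hξ t ht => b.hom_ptm f ξ hξ t ht
  inj := fun f ξ ξ' hξ hξ' h1 h2 h => b.inj_ptm f ξ ξ' hξ hξ' h1 h2 h
  lift := b.LL_q
  lift1 := b.LL_q1 hN
  change := fun k P P' h => b.change_q (Nat.succ_pos N) k P P' h

end OBun

end Pool.Agent.Lib.MP_ccbbf6_gt.L5
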