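import Pool.Agent.Lib.MP_ccbbf6_gt.L5.EU8
import Pool.Agent.Lib.MP_ccbbf6_gt.L5.INTm

/-!
# Level 5, OT1: the orientation tensor of an oriented bundle in `ℝ^D` (helper93)
-/

set_option autoImplicit false
set_option maxSynthPendingDepth 3
set_option linter.unusedSectionVars false

open Set Filter Topology Matrix
open scoped ContDiff

noncomputable section

namespace Pool.Agent.Lib.MP_ccbbf6_gt.L5

open L4 L4.FR

/-- an oriented bundle in `ℝ^D` with the usual notion of smooth sections -/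
structure TBun {r D : ℕ} {B : Space} (b : OBun r (EuclideanSpace ℝ (Fin D)) B) : Prop where
  sAt : ∀ {k : ℕ} (p : B.Plot k) (w : V k → EuclideanSpace ℝ (Fin D)) (z : V k), b.sAt p w z → ContDiffAt ℝ ∞ w z
  cst : ∀ x : B.pt, ∃ p : B.Plot 0, ∀ z, p.1 z = x

namespace OT

variable {k r D : ℕ} {B : Space}

/-- the tensor of a frame -/
def tF (a : Fin r → EuclideanSpace ℝ (Fin D)) (I : Fin r → Fin D) : ℝ := (Matrix.of fun j k => a j (I k)).det

theorem tF_gram {W : Submodule ℝ (EuclideanSpace ℝ (Fin D))} (hr : 0 < r) (hW : Module.finrank ℝ W = r)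
    {a a' : Fin r → EuclideanSpace ℝ (Fin D)} (ha : OFr W a) (ha' : OFr W a') (I : Fin r → Fin D) :
    tF a' I = (Matrix.of fun i j => inner ℝ (a i) (a' j)).det * tF a I := by
  have h1 : (Matrix.of fun j k => a' j (I k)) = (Matrix.of fun i j => inner ℝ (a i) (a' j))ᵀ * Matrix.of fun j k => a j (I k) := by
    ext j k
    rw [Matrix.mul_apply]
    have h2 := frame_expand hr hW ha (ha'.1 j)
    have h3 := congrArg (fun v : EuclideanSpace ℝ (Fin D) => v (I k)) h2
    simp only at h3
    rw [Matrix.of_apply, ← h3]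
    simp [Matrix.transpose_apply]
  unfold tF
  rw [h1, Matrix.det_mul, Matrix.det_transpose]

theorem tF_eq (b : OBun r (EuclideanSpace ℝ (Fin D)) B) (hr : 0 < r) {x : B.pt} {a a' : Fin r → EuclideanSpace ℝ (Fin D)}
    (ha : OFr (b.W x) a) (hp : b.pos x a) (ha' : OFr (b.W x) a') (hp' : b.pos x a') : tF a' = tF a := by
  funext I
  rw [tF_gram hr (b.rank x) ha ha' I, (b.pos_iff x a a' ha ha' hp).1 hp', one_mul]

theorem exists_pos (b : OBun r (EuclideanSpace ℝ (Fin D)) B) (hb : TBun b) (x : B.pt) :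
    ∃ a, OFr (b.W x) a ∧ b.pos x a := by
  obtain ⟨p, hp⟩ := hb.cst x
  obtain ⟨a, ha⟩ := b.loc p 0
  obtain ⟨h1, h2, -⟩ := ha.self_of_nhds
  rw [hp] at h1 h2
  exact ⟨_, h1, h2⟩

open Classical in
/-- the tensor at a point -/
def oP (b : OBun r (EuclideanSpace ℝ (Fin D)) B) (x : B.pt) : (Fin r → Fin D) → ℝ :=
  if h : ∃ a, OFr (b.W x) a ∧ b.pos x a then tF h.choose else 0

theorem oP_eq (b : OBun r (EuclideanSpace ℝ (Fin D)) B) (hr : 0 < r) {x : B.pt} {a : Fin r → EuclideanSpace ℝ (Fin D)}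
    (ha : OFr (b.W x) a) (hp : b.pos x a) : oP b x = tF a := by
  have h : ∃ a, OFr (b.W x) a ∧ b.pos x a := ⟨a, ha, hp⟩
  unfold oP
  rw [dif_pos h]
  exact tF_eq b hr ha hp h.choose_spec.1 h.choose_spec.2

theorem contDiffAt_tF {a : V k → Fin r → EuclideanSpace ℝ (Fin D)} {z : V k} (h : ∀ i, ContDiffAt ℝ ∞ (fun v => a v i) z)
    (I : Fin r → Fin D) : ContDiffAt ℝ ∞ (fun v => tF (a v) I) z := by
  unfold tF
  simp only [Matrix.det_apply]
  refine ContDiffAt.sum fun σ _ => ?_
  refine ContDiffAt.const_smul _ ?_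
  refine contDiffAt_prod fun j _ => ?_
  exact (contDiffAt_euclidean.1 (h (σ j))) (I j)

/-- **the orientation tensor** -/
def ot (b : OBun r (EuclideanSpace ℝ (Fin D)) B) (hb : TBun b) (hr : 0 < r) (I : Fin r → Fin D) : SF B :=
  ⟨fun x => oP b x I, fun k p => by
    rw [contDiff_iff_contDiffAt]
    intro z
    obtain ⟨a, ha⟩ := b.loc p z
    have h1 : ContDiffAt ℝ ∞ (fun v => tF (a v) I) z := by
      refine contDiffAt_tF (fun i => ?_) I
      exact hb.sAt p _ z (ha.self_of_nhds.2.2 i)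
    refine h1.congr_of_eventuallyEq ?_
    filter_upwards [ha] with y hy
    rw [oP_eq b hr hy.1 hy.2.1]⟩

/-- the matrix of the orthogonal projection onto a subspace -/
def pW (W : Submodule ℝ (EuclideanSpace ℝ (Fin D))) : Matrix (Fin D) (Fin D) ℝ :=
  Matrix.of fun l m => W.starProjection (EuclideanSpace.single m 1) l

theorem pW_eq {W : Submodule ℝ (EuclideanSpace ℝ (Fin D))} (hr : 0 < r) (hW : Module.finrank ℝ W = r)
    {a : Fin r → EuclideanSpace ℝ (Fin D)} (ha : OFr W a) (l m : Fin D) : pW W l m = ∑ j, a j l * a j m := by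
  have h1 : W.starProjection (EuclideanSpace.single m (1 : ℝ)) = ∑ j, a j m • a j := by
    refine Submodule.eq_starProjection_of_mem_of_inner_eq_zero (K := W) ?_ ?_
    · exact Submodule.sum_mem _ fun j _ => W.smul_mem _ (ha.1 j)
    · intro w hw
      have h2 := frame_expand hr hW ha hw
      have h3 : inner ℝ (EuclideanSpace.single m (1 : ℝ)) w = w m := by
        rw [EuclideanSpace.inner_single_left]
        simp
      rw [inner_sub_left, h3, sum_inner, sub_eq_zero]
      conv_lhs => rw [← h2]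
      simp [real_inner_smul_left, mul_comm]
  have h2 := congrArg (fun v : EuclideanSpace ℝ (Fin D) => v l) h1
  unfold pW
  rw [Matrix.of_apply]
  simp only at h2
  rw [h2]
  simp [mul_comm]

theorem isOr (b : OBun r (EuclideanSpace ℝ (Fin D)) B) (hb : TBun b) (hr : 0 < r) (x : B.pt) :
    IsOr r (pW (b.W x)) (oP b x) := by
  obtain ⟨a, ha, hp⟩ := exists_pos b hb x
  refine ⟨fun j l => a j l, fun i j => ?_, fun l m => pW_eq hr (b.rank x) ha l m, fun I => ?_⟩
  · have h1 := orthonormal_iff_ite.1 ha.2 i j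
    rw [← h1]
    simp [PiLp.inner_apply, mul_comm]
  · rw [oP_eq b hr ha hp]
    rfl

/-- the projection as a matrix of smooth functions -/
def pm (b : OBun r (EuclideanSpace ℝ (Fin D)) B) (hb : TBun b) (hr : 0 < r) : Matrix (Fin D) (Fin D) (SF B) :=
  Matrix.of fun l m => ⟨fun x => pW (b.W x) l m, fun k p => by
    rw [contDiff_iff_contDiffAt]
    intro z
    obtain ⟨a, ha⟩ := b.loc p z
    have h1 : ContDiffAt ℝ ∞ (fun v => ∑ j, a v j l * a v j m) z := by
      refine ContDiffAt.sum fun j _ => ?_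
      have h2 := hb.sAt p _ z (ha.self_of_nhds.2.2 j)
      exact ((contDiffAt_euclidean.1 h2) l).mul ((contDiffAt_euclidean.1 h2) m)
    refine h1.congr_of_eventuallyEq ?_
    filter_upwards [ha] with y hy
    exact pW_eq hr (b.rank _) hy.1 l m⟩

/-- **orientation tensors in the sense of EU0** -/
theorem or_ot (b : OBun r (EuclideanSpace ℝ (Fin D)) B) (hb : TBun b) (hr : 0 < r) : Or r (pm b hb hr) (ot b hb hr) :=
  Or.of_pt fun x => (isOr b hb hr x).or

/-! ### invariance -/

theorem det_pm {W : Submodule ℝ (EuclideanSpace ℝ (Fin D))} (hr : 0 < r) (hW : Module.finrank ℝ W = r)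
    {a a' : Fin r → EuclideanSpace ℝ (Fin D)} (ha : OFr W a) (ha' : OFr W a') :
    (Matrix.of fun i j => inner ℝ (a i) (a' j)).det = 1 ∨ (Matrix.of fun i j => inner ℝ (a i) (a' j)).det = -1 := by
  have h1 := congrArg Matrix.det (gramA hr hW ha ha')
  rw [Matrix.det_mul, Matrix.det_transpose, Matrix.det_one] at h1
  exact mul_self_eq_one_iff.1 h1

theorem oP_pm (b : OBun r (EuclideanSpace ℝ (Fin D)) B) (hb : TBun b) (hr : 0 < r) {x y : B.pt} (h : b.W y = b.W x) :
    oP b y = oP b x ∨ oP b y = fun I => -oP b x I := by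
  obtain ⟨a, ha, hp⟩ := exists_pos b hb x
  obtain ⟨a', ha', hp'⟩ := exists_pos b hb y
  rw [oP_eq b hr ha hp, oP_eq b hr ha' hp']
  rw [h] at ha'
  rcases det_pm hr (b.rank x) ha ha' with h1 | h1
  · left
    funext I
    rw [tF_gram hr (b.rank x) ha ha' I, h1, one_mul]
  · right
    funext I
    rw [tF_gram hr (b.rank x) ha ha' I, h1, neg_one_mul]

theorem exists_ne (b : OBun r (EuclideanSpace ℝ (Fin D)) B) (hb : TBun b) (hr : 0 < r) (x : B.pt) : ∃ I, oP b x I ≠ 0 := by
  by_contra h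
  push Not at h
  have h1 := (isOr b hb hr x).or.nrm
  simp only [h, mul_zero, Finset.sum_const_zero] at h1
  have h2 : (0 : ℝ) < (r.factorial : ℝ) := by exact_mod_cast r.factorial_pos
  rw [← h1] at h2
  exact lt_irrefl _ h2

/-- the tensor is invariant if the fibres are -/
theorem oP_inv (b : OBun r (EuclideanSpace ℝ (Fin D)) B) (hb : TBun b) (hr : 0 < r) (c : Circ B)
    (hW : ∀ x s, b.W (c.a.1 (x, s)) = b.W x) (x : B.pt) (s : ℝ) : oP b (c.a.1 (x, s)) = oP b x := by
  obtain ⟨I, hI⟩ := exists_ne b hb hr x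
  obtain ⟨p, hp⟩ := hb.cst x
  obtain ⟨g, hg⟩ : ∃ g : ℝ → ℝ, g = fun t => oP b (c.a.1 (x, t)) I := ⟨_, rfl⟩
  have hgc : Continuous g := by
    have h1 := (ot b hb hr I).2 1 (c.op p)
    have h2 : (fun v : V 1 => (ot b hb hr I).1 ((c.op p).1 v)) = fun v : V 1 => g (v (Fin.last 0)) := by
      funext v
      rw [hg]
      have h3 : (c.op p).1 v = c.a.1 (x, v (Fin.last 0)) := by
        show c.a.1 (p.1 _, v (Fin.last 0)) = _
        rw [hp]
      show oP b ((c.op p).1 v) I = _
      rw [h3]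
    rw [h2] at h1
    have h4 : g = fun t => (fun v : V 1 => g (v (Fin.last 0))) (fun _ => t) := rfl
    rw [h4]
    exact h1.continuous.comp (continuous_pi fun _ => continuous_id)
  have hg0 : g 0 = oP b x I := by
    rw [hg]
    show oP b (c.a.1 (x, 0)) I = _
    rw [c.zero]
  have hgs : ∀ t, g t = g 0 ∨ g t = -g 0 := by
    intro t
    rw [hg0, hg]
    rcases oP_pm b hb hr (hW x t) with h | h
    · left
      show oP b (c.a.1 (x, t)) I = _
      rw [h]
    · right
      show oP b (c.a.1 (x, t)) I = _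
      rw [h]
  have hne : g 0 ≠ 0 := by
    rw [hg0]
    exact hI
  have hconst : ∀ t, g t = g 0 := by
    intro t
    by_contra hcon
    have h1 : g t = -g 0 := (hgs t).resolve_left hcon
    have h2 : (0 : ℝ) ∈ uIcc (g 0) (g t) := by
      rw [h1, mem_uIcc]
      rcases lt_or_gt_of_ne hne with h3 | h3
      · left
        constructor <;> linarith
      · right
        constructor <;> linarith
    obtain ⟨t', -, h4⟩ := intermediate_value_uIcc (a := (0 : ℝ)) (b := t) hgc.continuousOn h2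
    rcases hgs t' with h5 | h5
    · rw [h4] at h5
      exact hne h5.symm
    · rw [h4] at h5
      exact hne (by linarith)
  rcases oP_pm b hb hr (hW x s) with h | h
  · exact h
  · exfalso
    have h1 := hconst s
    rw [hg0, hg] at h1
    have h2 : oP b (c.a.1 (x, s)) I = oP b x I := h1
    rw [h] at h2
    have h3 : -oP b x I = oP b x I := h2
    exact hI (by linarith)

/-- the orientation tensor as invariant functions -/
def otB (b : OBun r (EuclideanSpace ℝ (Fin D)) B) (hb : TBun b) (hr : 0 < r) (c : Circ B)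
    (hW : ∀ x s, b.W (c.a.1 (x, s)) = b.W x) (I : Fin r → Fin D) : SB c :=
  ⟨ot b hb hr I, fun x s => congrFun (oP_inv b hb hr c hW x s) I⟩

/-- the projection as invariant functions -/
def pmB (b : OBun r (EuclideanSpace ℝ (Fin D)) B) (hb : TBun b) (hr : 0 < r) (c : Circ B)
    (hW : ∀ x s, b.W (c.a.1 (x, s)) = b.W x) : Matrix (Fin D) (Fin D) (SB c) :=
  Matrix.of fun l m => ⟨pm b hb hr l m, fun x s => by
    show pW (b.W (c.a.1 (x, s))) l m = pW (b.W x) l m
    rw [hW]⟩

theorem or_otB (b : OBun r (EuclideanSpace ℝ (Fin D)) B) (hb : TBun b) (hr : 0 < r) (c : Circ B)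
    (hW : ∀ x s, b.W (c.a.1 (x, s)) = b.W x) : Or r (pmB b hb hr c hW) (otB b hb hr c hW) :=
  Or.of_inj ((SB c).val : SB c →+* SF B) Subtype.val_injective (or_ot b hb hr)

/-- positivity in terms of the tensor -/
theorem pos_iff_tF (b : OBun r (EuclideanSpace ℝ (Fin D)) B) (hb : TBun b) (hr : 0 < r) {x : B.pt}
    {a : Fin r → EuclideanSpace ℝ (Fin D)} (ha : OFr (b.W x) a) : b.pos x a ↔ tF a = oP b x := by
  constructor
  · intro hp
    exact (oP_eq b hr ha hp).symm
  · intro h
    obtain ⟨a', ha', hp'⟩ := exists_pos b hb x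
    rw [b.pos_iff x a' a ha' ha hp']
    rcases det_pm hr (b.rank x) ha' ha with h1 | h1
    · exact h1
    · exfalso
      obtain ⟨I, hI⟩ := exists_ne b hb hr x
      have h2 := tF_gram hr (b.rank x) ha' ha I
      rw [h1, h, oP_eq b hr ha' hp'] at h2
      rw [oP_eq b hr ha' hp'] at hI
      exact hI (by linarith)

/-- positivity is invariant if the fibres are -/
theorem pos_inv (b : OBun r (EuclideanSpace ℝ (Fin D)) B) (hb : TBun b) (hr : 0 < r) (c : Circ B)
    (hW : ∀ x s, b.W (c.a.1 (x, s)) = b.W x) (x : B.pt) (s : ℝ) {a : Fin r → EuclideanSpace ℝ (Fin D)}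
    (ha : OFr (b.W x) a) : b.pos (c.a.1 (x, s)) a ↔ b.pos x a := by
  have ha' : OFr (b.W (c.a.1 (x, s))) a := by
    rw [hW]
    exact ha
  rw [pos_iff_tF b hb hr ha', pos_iff_tF b hb hr ha, oP_inv b hb hr c hW]

end OT

end Pool.Agent.Lib.MP_ccbbf6_gt.L5
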