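import Pool.Agent.Lib.MP_ccbbf6_gt.L5.EU9
import Pool.Agent.Lib.MP_ccbbf6_gt.L5.OT1

/-!
# Level 5, OT2: the tautological section of the sphere bundle of an oriented bundle in `ℝ^D`, the forms `f3S`, `psS` (helper93)
-/

set_option autoImplicit false
set_option maxSynthPendingDepth 3
set_option linter.unusedSectionVars false

open Set Filter Topology Matrix
open scoped ContDiff

noncomputable section

namespace Pool.Agent.Lib.MP_ccbbf6_gt.L5

open L4 L4.FR

namespace OT

variable {k r D : ℕ} {B : Space}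

/-- the tautological section -/
def yS (b : OBun r (EuclideanSpace ℝ (Fin D)) B) (hb : TBun b) (i : Fin D) : SF b.S :=
  ⟨fun z => z.1.2 i, fun k p => contDiff_iff_contDiffAt.2 fun z =>
    contDiffAt_euclidean.1 (hb.sAt _ _ z (p.2.2 z)) i⟩

theorem pW_mem {W : Submodule ℝ (EuclideanSpace ℝ (Fin D))} {v : EuclideanSpace ℝ (Fin D)} (hv : v ∈ W) :
    (pW W).mulVec (fun i => v i) = fun i => v i := by
  funext i
  have h1 : W.starProjection v = v := Submodule.starProjection_eq_self_iff.2 hv
  have h2 : v = ∑ j, v j • EuclideanSpace.single j (1 : ℝ) := by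
    ext k
    simp [Finset.sum_apply, Pi.single_apply]
  have h3 : W.starProjection v = ∑ j, v j • W.starProjection (EuclideanSpace.single j (1 : ℝ)) := by
    conv_lhs => rw [h2]
    rw [map_sum]
    exact Finset.sum_congr rfl fun j _ => map_smul _ _ _
  have h4 := congrArg (fun w : EuclideanSpace ℝ (Fin D) => w i) (h3.symm.trans h1)
  rw [Matrix.mulVec, dotProduct]
  refine Eq.trans ?_ h4
  simp [pW, Finset.sum_apply, mul_comm]

/-- the projection over the sphere bundle -/
def pS (b : OBun r (EuclideanSpace ℝ (Fin D)) B) (hb : TBun b) (hr : 0 < r) : Matrix (Fin D) (Fin D) (SF b.S) :=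
  (pm b hb hr).map (pf b.pr)

/-- the orientation over the sphere bundle -/
def oS (b : OBun r (EuclideanSpace ℝ (Fin D)) B) (hb : TBun b) (hr : 0 < r) (I : Fin r → Fin D) : SF b.S :=
  pf b.pr (ot b hb hr I)

theorem orS (b : OBun r (EuclideanSpace ℝ (Fin D)) B) (hb : TBun b) (hr : 0 < r) : Or r (pS b hb hr) (oS b hb hr) :=
  (or_ot b hb hr).map' (pf b.pr : SF B →+* SF b.S)

theorem secS (b : OBun r (EuclideanSpace ℝ (Fin D)) B) (hb : TBun b) (hr : 0 < r) : Sec (pS b hb hr) (yS b hb) := by
  constructor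
  · funext i
    refine SF_ext fun z => ?_
    have h1 := congrFun (pW_mem z.2.1) i
    rw [Matrix.mulVec, dotProduct] at h1
    rw [Matrix.mulVec, dotProduct, map_sum]
    refine Eq.trans ?_ h1
    exact Finset.sum_congr rfl fun j _ => map_mul _ _ _
  · refine SF_ext fun z => ?_
    have h1 := z.2.2
    rw [EuclideanSpace.norm_eq, Real.sqrt_eq_one] at h1
    rw [map_sum, map_one]
    refine Eq.trans ?_ h1
    refine Finset.sum_congr rfl fun j _ => ?_
    rw [map_mul, Real.norm_eq_abs, sq_abs, pow_two]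
    rfl

/-- the form `f` of the sphere bundle of a bundle of rank three -/
def f3S (b : OBun 3 (EuclideanSpace ℝ (Fin D)) B) (hb : TBun b) : Om b.S :=
  f3 (FO b.S) (pS b hb (by norm_num)) (oS b hb (by norm_num)) (yS b hb)

/-- the angular form of the sphere bundle of a bundle of rank four -/
def psS (b : OBun 4 (EuclideanSpace ℝ (Fin D)) B) (hb : TBun b) : Om b.S :=
  psi (FO b.S) (pS b hb (by norm_num)) (oS b hb (by norm_num)) (yS b hb)

theorem d_f3S (b : OBun 3 (EuclideanSpace ℝ (Fin D)) B) (hb : TBun b) : dO _ (f3S b hb) = 0 :=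
  d_f3 (φ := FO b.S) (orS b hb (by norm_num)) (secS b hb (by norm_num))

/-- `f^2 = p_1` up to exact forms -/
theorem f3S_sq (b : OBun 3 (EuclideanSpace ℝ (Fin D)) B) (hb : TBun b) :
    hF (FO b.S) (orS b hb (by norm_num)) (secS b hb (by norm_num)) * hF (FO b.S) (orS b hb (by norm_num)) (secS b hb (by norm_num)) =
      hp1 (FO b.S) (orS b hb (by norm_num)).idem :=
  hF_sq (CylO b.S) (orS b hb (by norm_num)) (secS b hb (by norm_num))

end OT

end Pool.Agent.Lib.MP_ccbbf6_gt.L5
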