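import Pool.Agent.Lib.MP_ccbbf6_gt.L5.EU9

/-!
# Level 5, OT3: degrees of the curvature forms over spaces (helper93)

`Rv`, `eu2`, `eul`, `psi`, `f3` over `FO X` have degrees 2, 2, 4, 3, 2.
-/

set_option autoImplicit false
set_option maxSynthPendingDepth 3
set_option linter.unusedSectionVars false

open Matrix

noncomputable section

namespace Pool.Agent.Lib.MP_ccbbf6_gt.L5

open L4 L4.FR

namespace OT

variable {X : Space} {ι κ μ : Type} [Fintype ι] [DecidableEq ι] [Fintype κ] [DecidableEq κ] {r j : ℕ}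

theorem Deg_fsum {α : Type*} (s : Finset α) {f : α → Om X} (h : ∀ i ∈ s, Deg j (f i)) : Deg j (∑ i ∈ s, f i) := by
  classical
  induction s using Finset.induction_on with
  | empty =>
    rw [Finset.sum_empty]
    exact Deg_zero
  | insert a s ha ih =>
    rw [Finset.sum_insert ha]
    exact Deg_add (h a (Finset.mem_insert_self a s)) (ih fun i hi => h i (Finset.mem_insert_of_mem hi))

theorem Deg_fn (a : SF X) : Deg 0 (fn X a) := fun _ _ => Dg_fc _

theorem Deg_f0 (a : SF X) : Deg 0 ((FO X).f a) := Deg_fn a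

theorem Deg_fmul (a : SF X) {w : Om X} (h : Deg j w) : Deg j ((FO X).f a * w) := by
  have h1 := Deg_mul (Deg_f0 a) h
  rwa [zero_add] at h1

theorem Deg_Gd {w : Om X} (h : Deg j w) : Deg (j + 1) ((GO X).d w) := Deg_d h

theorem Deg_Dm (P : Matrix ι ι (SF X)) (l m : ι) : Deg 1 ((GO X).D (P.map (FO X).f) l m) := by
  unfold GDA.D
  rw [Matrix.map_apply, Matrix.map_apply]
  exact Deg_Gd (Deg_f0 _)

theorem Deg_R (P : Matrix ι ι (SF X)) (l m : ι) : Deg 2 ((GO X).R (P.map (FO X).f) l m) := by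
  unfold GDA.R
  rw [Matrix.mul_apply]
  refine Deg_fsum _ fun i _ => ?_
  exact Deg_mul (i := 1) (j := 1) (Deg_Dm P l i) (Deg_Dm P i m)

theorem Deg_Rv (P : Matrix ι ι (SF X)) (l m : ι) : Deg 2 (Rv (FO X) P l m) := by
  unfold Rv
  rw [Matrix.mul_apply]
  refine Deg_fsum _ fun i _ => ?_
  rw [Matrix.map_apply]
  exact Deg_fmul _ (Deg_R P i m)

theorem Deg_Dv (P : Matrix ι ι (SF X)) (y : ι → SF X) (l : ι) : Deg 1 (Dv (FO X) P y l) := by
  unfold Dv pv dv uv
  refine Deg_fsum _ fun i _ => ?_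
  exact Deg_fmul _ (Deg_Gd (Deg_f0 _))

theorem Deg_St (o : (Fin r → ι) → SF X) {T : (Fin r → ι) → Om X} (h : ∀ I, Deg j (T I)) : Deg j (St (FO X) o T) := by
  unfold St
  exact Deg_fsum _ fun I _ => Deg_fmul _ (h I)

theorem Deg_eu2 (P : Matrix ι ι (SF X)) (o : (Fin 2 → ι) → SF X) : Deg 2 (eu2 (FO X) P o) := by
  unfold eu2
  exact Deg_smul _ (Deg_St _ fun _ => Deg_Rv _ _ _)

theorem Deg_eul (P : Matrix ι ι (SF X)) (o : (Fin 4 → ι) → SF X) : Deg 4 (eul (FO X) P o) := by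
  unfold eul Z5
  refine Deg_smul _ (Deg_St _ fun I => ?_)
  unfold MM
  exact Deg_mul (i := 2) (j := 2) (Deg_Rv _ _ _) (Deg_Rv _ _ _)

theorem Deg_f3 (P : Matrix ι ι (SF X)) (o : (Fin 3 → ι) → SF X) (y : ι → SF X) : Deg 2 (f3 (FO X) P o y) := by
  unfold f3
  exact Deg_eu2 _ _

theorem Deg_psi (P : Matrix ι ι (SF X)) (o : (Fin 4 → ι) → SF X) (y : ι → SF X) : Deg 3 (psi (FO X) P o y) := by
  unfold psi psi0 psi1
  refine Deg_smul _ (Deg_add (Deg_St _ fun I => ?_) (Deg_smul _ (Deg_St _ fun I => ?_)))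
  · unfold P4 uv
    refine Deg_fmul _ ?_
    exact Deg_mul (i := 1) (j := 2) (Deg_Dv _ _ _) (Deg_mul (i := 1) (j := 1) (Deg_Dv _ _ _) (Deg_Dv _ _ _))
  · unfold PM uv
    refine Deg_fmul _ ?_
    exact Deg_mul (i := 1) (j := 2) (Deg_Dv _ _ _) (Deg_Rv _ _ _)

theorem Deg_Rp (P : Matrix ι ι (SF X)) (i : ℕ) : ∀ (l m : ι), Deg (2 * i) (((GO X).R (P.map (FO X).f) ^ i) l m) := by
  induction i with
  | zero =>
    intro l m
    rw [pow_zero, mul_zero, Matrix.one_apply]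
    split_ifs
    · exact Deg_one
    · exact Deg_zero
  | succ i ih =>
    intro l m
    rw [pow_succ, Matrix.mul_apply, Nat.mul_succ]
    refine Deg_fsum _ fun k _ => ?_
    exact Deg_mul (i := 2 * i) (j := 2) (ih l k) (Deg_R P k m)

theorem Deg_ps (P : Matrix ι ι (SF X)) (i : ℕ) : Deg (2 * i) ((GO X).ps (P.map (FO X).f) i) := by
  unfold GDA.ps trace
  refine Deg_fsum _ fun l _ => ?_
  rw [Matrix.diag_apply, Matrix.mul_apply]
  refine Deg_fsum _ fun k _ => ?_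
  rw [Matrix.map_apply]
  exact Deg_fmul _ (Deg_Rp P i k l)

end OT

end Pool.Agent.Lib.MP_ccbbf6_gt.L5
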