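import Pool.Agent.Lib.MP_ccbbf6_gt.L5.NX2
import Pool.Agent.Lib.MP_ccbbf6_gt.L5.OT2
import Pool.Agent.Lib.MP_ccbbf6_gt.L5.OT3

/-!
# NX3: the basic form `f` on the unit sphere bundle of the negative bundle, `κ = 3` (Level 5, block NEG) (helper93)
-/

set_option autoImplicit false
set_option linter.unusedSectionVars false
set_option maxSynthPendingDepth 3

open Set Filter Topology Metric Real Module Matrix
open scoped ContDiff RealInnerProductSpace

noncomputable section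

namespace Pool.Agent.Lib.MP_ccbbf6_gt.L5.NEG

open Geo L4 L4.ORI L4.FR

variable {n : ℕ} {M : Type} [MetricSpace M] [CompactSpace M] {𝒜 : SDist n M} {N κ : ℕ} {C : Eu N → Gs M → M}
  {P : Gs M → Eu N →L[ℝ] Eu N} {hB : Bl M}

/-- pull-back of invariant functions and basic forms from `UM` to the sphere bundle -/
def prF (hN : NegData 𝒜 κ hB C P) : FHom (FB (circPhi hB 𝒜)) (FB (circN hB hN)) := FHom.pullB (prN 𝒜 P) (fun _ _ => rfl)

/-- the tautological section -/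
def yN (hN : NegData 𝒜 κ hB C P) (i : Fin N) : SB (circN hB hN) :=
  ⟨⟨fun z => z.1.2 i, fun _ p => contDiff_iff_contDiffAt.2 fun _ => contDiffAt_euclidean.1 p.2.2.contDiffAt i⟩, fun _ _ => rfl⟩

theorem etN_mem {L : Eu N →L[ℝ] Eu N} {x : Eu N} (h : L x = x) : (etN L).mulVec (fun j => x j) = fun j => x j := by
  funext i
  rw [etN_mulVec, h]

/-- the projection and the orientation of the negative bundle over its sphere bundle -/
def pN (hN : NegData 𝒜 κ hB C P) : Matrix (Fin N) (Fin N) (SB (circN hB hN)) := (mB hN).map (prF hN).g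

/-- orientation -/
def oN (h0 : 0 < κ) (hk : 𝒜.HK κ) (hN : NegData 𝒜 κ hB C P) {b : OBun κ (Eu n) (spG 𝒜)} (hb : KBun b)
    (I : Fin κ → Fin N) : SB (circN hB hN) := (prF hN).g (oB h0 hk hN hb I)

theorem or_oN (h0 : 0 < κ) (hk : 𝒜.HK κ) (hN : NegData 𝒜 κ hB C P) {b : OBun κ (Eu n) (spG 𝒜)} (hb : KBun b) :
    Or κ (pN hN) (oN h0 hk hN hb) := (or_oB h0 hk hN hb).map' ((prF hN).g : SB (circPhi hB 𝒜) →+* SB (circN hB hN))

theorem SB_ext {X : Space} {c : Circ X} {f g : SB c} (h : ∀ x, vl (X := X) x f.1 = vl x g.1) : f = g :=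
  Subtype.ext (SF_ext h)

/-- value of an invariant function at a point -/
def vb {X : Space} (c : Circ X) (x : X.pt) : SB c →ₐ[ℝ] ℝ := (vl x).comp (SB c).val

theorem vb_ext {X : Space} {c : Circ X} {f g : SB c} (h : ∀ x, vb c x f = vb c x g) : f = g :=
  Subtype.ext (SF_ext h)

theorem sec_yN (hN : NegData 𝒜 κ hB C P) : Sec (pN hN) (yN hN) := by
  constructor
  · funext i
    refine vb_ext fun z => ?_
    have h1 := congrFun (etN_mem (show P z.1.1 z.1.2 = z.1.2 from z.2.1)) i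
    rw [Matrix.mulVec, dotProduct] at h1
    rw [Matrix.mulVec, dotProduct, map_sum]
    refine Eq.trans ?_ h1
    exact Finset.sum_congr rfl fun j _ => map_mul _ _ _
  · refine vb_ext fun z => ?_
    have h1 := z.2.2
    rw [EuclideanSpace.norm_eq, Real.sqrt_eq_one] at h1
    rw [map_sum, map_one]
    refine Eq.trans ?_ h1
    refine Finset.sum_congr rfl fun j _ => ?_
    rw [map_mul, Real.norm_eq_abs, sq_abs, pow_two]
    rfl

/-- the antipode as a morphism -/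
def anF (hN : NegData 𝒜 κ hB C P) : FHom (FB (circN hB hN)) (FB (circN hB hN)) := FHom.pullB (antN 𝒜 P) (fun _ _ => rfl)

theorem anF_p (hN : NegData 𝒜 κ hB C P) : (pN hN).map (anF hN).g = pN hN := rfl

theorem anF_o (h0 : 0 < κ) (hk : 𝒜.HK κ) (hN : NegData 𝒜 κ hB C P) {b : OBun κ (Eu n) (spG 𝒜)} (hb : KBun b) :
    (fun I => (anF hN).g (oN h0 hk hN hb I)) = oN h0 hk hN hb := rfl

theorem anF_y (hN : NegData 𝒜 κ hB C P) : (fun i => (anF hN).g (yN hN i)) = -yN hN := rfl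

theorem lt3 : 0 < 3 := by norm_num

section three

variable {N : ℕ} {C : Eu N → Gs M → M} {P : Gs M → Eu N →L[ℝ] Eu N} (hk : 𝒜.HK 3) (hN : NegData 𝒜 3 hB C P)
  {b : OBun 3 (Eu n) (spG 𝒜)} (hb : KBun b)

/-- the basic form `f` -/
def fB : BasR (circN hB hN) := f3 (FB (circN hB hN)) (pN hN) (oN lt3 hk hN hb) (yN hN)

/-- the form `f` -/
def fN : Om (spN 𝒜 P) := (fB hk hN hb : Om (spN 𝒜 P))

theorem d_fB : (GB (circN hB hN)).d (fB hk hN hb) = 0 := d_f3 (or_oN lt3 hk hN hb) (sec_yN hN)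

theorem d_fN : dO _ (fN hk hN hb) = 0 := congrArg Subtype.val (d_fB hk hN hb)

theorem s_fN : sO _ (fN hk hN hb) = fN hk hN hb :=
  congrArg Subtype.val (s_f3 (φ := FB (circN hB hN)) (or_oN lt3 hk hN hb) (sec_yN hN))

theorem Deg_fN : Deg 2 (fN hk hN hb) := by
  have h2 := (FHom.inc (circN hB hN)).f3 (P := pN hN) (y := yN hN) (o := oN lt3 hk hN hb)
  have h3 : fN hk hN hb = f3 (FO (spN 𝒜 P)) ((pN hN).map (FHom.inc (circN hB hN)).g)
      (fun I => (FHom.inc (circN hB hN)).g (oN lt3 hk hN hb I)) (fun l => (FHom.inc (circN hB hN)).g (yN hN l)) := h2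
  rw [h3]
  exact OT.Deg_f3 _ _ _

theorem bas_fN : (circN hB hN).a.pull (fN hk hN hb) = (pO _).pull (fN hk hN hb) := (fB hk hN hb).2

theorem ant_fB : (anF hN).h.f (fB hk hN hb) = -fB hk hN hb := by
  unfold fB
  rw [FHom.f3, anF_p, anF_o, anF_y, f3_neg]

theorem ant_fN : (antN 𝒜 P).pull (fN hk hN hb) = -fN hk hN hb := congrArg Subtype.val (ant_fB hk hN hb)

/-- `f` is the form of the sphere bundle of `bN` -/
theorem fN_eq : (toSN lt3 hk hN hb).pull (OT.f3S (bN lt3 hk hN hb) (tbN lt3 hk hN hb)) = fN hk hN hb := by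
  have h1 := (FHom.pull (toSN lt3 hk hN hb)).f3
    (P := OT.pS (bN lt3 hk hN hb) (tbN lt3 hk hN hb) lt3)
    (y := OT.yS (bN lt3 hk hN hb) (tbN lt3 hk hN hb))
    (o := OT.oS (bN lt3 hk hN hb) (tbN lt3 hk hN hb) lt3)
  have h2 := (FHom.inc (circN hB hN)).f3 (P := pN hN) (y := yN hN) (o := oN lt3 hk hN hb)
  refine Eq.trans h1 (Eq.trans ?_ h2.symm)
  have e1 : (OT.pS (bN lt3 hk hN hb) (tbN lt3 hk hN hb) lt3).map
      (FHom.pull (toSN lt3 hk hN hb)).g = (pN hN).map (FHom.inc (circN hB hN)).g := by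
    unfold OT.pS
    rw [pm_eq]
    rfl
  rw [e1]
  rfl

/-- `f^2 = p_1(N)` in the basic cohomology -/
theorem fB_sq : hF (FB (circN hB hN)) (or_oN lt3 hk hN hb) (sec_yN hN) *
    hF (FB (circN hB hN)) (or_oN lt3 hk hN hb) (sec_yN hN) =
    hp1 (FB (circN hB hN)) (or_oN lt3 hk hN hb).idem :=
  hF_sq (CylB (circN hB hN)) (or_oN lt3 hk hN hb) (sec_yN hN)

end three

end Pool.Agent.Lib.MP_ccbbf6_gt.L5.NEG
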