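import Pool.Agent.Lib.MP_ccbbf6_gt.L5.INTh

/-!
# Level 5, INTn: fibre products, base change and transport of sphere bundles (helper67)

PROOFS.
(1) pull: all fields are componentwise. inj: from `Subtype.ext_iff`, `Prod.ext_iff` (second component) and b.inj. lift (LL_pull): for a plot p of B' at z use b.lift for (f.pl p): h, P; the plot y ↦ ((p (h y), P y), cond) of fp f b.q,
    cond from the equality of plots evaluated at y (`congrFun (congrArg Subtype.val ..) y`). lift1 (LL_pull1): for a plot of fp f b.pi with components (p', s) use b.lift1 for s: h, P; cond: f (p' (h y)) = pi (s (h y)) = pi (q1 (P y)) = q (P y)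
    by pi_pt. change: b.change for the second components (q-images agree: f of the first components).
(2) PI_pull: `PI_nat b (b.pull f) (fpS ..) f (fpS ..)` with the projections (both conditions are rfl or the condition in the subtype).
(3) iso: lift1: LLift (e ∘ q1): for a plot s' of S' at z use b.lift1 for e'.pl s'; then apply e.pl to the equality. (LL_iso1)
(4) PI_iso: unfold PI: the two arguments of desc agree (pull_comp).
-/

set_option autoImplicit false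
set_option maxSynthPendingDepth 3

open Set Filter Topology
open scoped ContDiff

noncomputable section

namespace Pool.Agent.Lib.MP_ccbbf6_gt.L5

open L4 L4.FR

variable {k l N : ℕ} {X Y Z S S' B B' : Space}

/-- fibre product -/
def fp (f : SMap X Z) (g : SMap Y Z) : Space where
  pt := {z : X.pt × Y.pt // f.1 z.1 = g.1 z.2}
  Pl k := {p | (fun x => (p x).1.1) ∈ X.Pl k ∧ (fun x => (p x).1.2) ∈ Y.Pl k}
  pre := fun {_ _ _} hp g => ⟨X.pre hp.1 g, Y.pre hp.2 g⟩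

/-- first projection -/
def fp1 (f : SMap X Z) (g : SMap Y Z) : SMap (fp f g) X := ⟨fun z => z.1.1, fun _ p => p.2.1⟩

/-- second projection -/
def fp2 (f : SMap X Z) (g : SMap Y Z) : SMap (fp f g) Y := ⟨fun z => z.1.2, fun _ p => p.2.2⟩

/-- maps into a fibre product -/
def fpM {f : SMap X Z} {g : SMap Y Z} (a : SMap S X) (b : SMap S Y) (h : ∀ s, f.1 (a.1 s) = g.1 (b.1 s)) :
    SMap S (fp f g) := ⟨fun s => ⟨(a.1 s, b.1 s), h s⟩, fun _ p => ⟨(a.pl p).2, (b.pl p).2⟩⟩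

theorem fp_comm (f : SMap X Z) (g : SMap Y Z) : f.comp (fp1 f g) = g.comp (fp2 f g) := SMap_ext fun z => z.2

namespace SBun

variable (b : SBun N S B) (f : SMap B' B)

/-- the frames of the pull-back -/
def ptP : SMap ((fp f b.q).xP (N + 1)) (fp f b.pi) :=
  ⟨fun z => ⟨(z.1.1.1.1, b.ptm.1 ⟨(z.1.1.1.2, z.1.2), z.2⟩), by rw [b.pi_pt]; exact z.1.1.2⟩, fun k p =>
    ⟨p.2.1.1, b.ptm.2 k ⟨fun x => ⟨((p.1 x).1.1.1.2, (p.1 x).1.2), (p.1 x).2⟩, p.2.1.2, p.2.2⟩⟩⟩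

/-- the antipode of the pull-back -/
def anP : SMap (fp f b.pi) (fp f b.pi) :=
  ⟨fun z => ⟨(z.1.1, b.ant.1 z.1.2), by rw [b.pi_ant]; exact z.2⟩, fun k p =>
    ⟨p.2.1, b.ant.2 k ⟨fun x => (p.1 x).1.2, p.2.2⟩⟩⟩

theorem LL_pull : LLift (fp1 f b.q) := by
  intro k p z
  obtain ⟨h, P, hh, hP⟩ := b.lift k (f.pl p) z
  have hc : ∀ y, f.1 (p.1 (h y)) = b.q.1 (P.1 y) := fun y => (congrFun (congrArg Subtype.val hP) y).symm
  exact ⟨h, ⟨fun y => ⟨(p.1 (h y), P.1 y), hc y⟩, B'.pre p.2 h, P.2⟩, hh, Plot_ext fun _ => rfl⟩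

theorem LL_pull1 : LLift ((b.ptP f).comp (e1M (fp f b.q) N)) := by
  intro k p z
  obtain ⟨h, P, hh, hP⟩ := b.lift1 k ⟨fun y => (p.1 y).1.2, p.2.2⟩ z
  have hs : ∀ y, b.ptm.1 ((e1M b.F N).1 (P.1 y)) = (p.1 (h y)).1.2 := fun y =>
    congrFun (congrArg Subtype.val hP) y
  have hc : ∀ y, f.1 (p.1 (h y)).1.1 = b.q.1 (P.1 y) := fun y => by
    rw [(p.1 (h y)).2, ← hs y, b.pi_pt]
    rfl
  have hp : (fun y => (p.1 (h y)).1.1) ∈ B'.Pl k := B'.pre p.2.1 h
  exact ⟨h, ⟨fun y => ⟨((p.1 (h y)).1.1, P.1 y), hc y⟩, hp, P.2⟩, hh,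
    Plot_ext fun y => Subtype.ext (Prod.ext rfl (hs y))⟩

/-- base change -/
def pull : SBun N (fp f b.pi) B' where
  pi := fp1 f b.pi
  F := fp f b.q
  q := fp1 f b.q
  ptm := b.ptP f
  ant := b.anP f
  pi_pt := fun _ => rfl
  pi_ant := fun _ => rfl
  ant_pt := by
    intro fr ξ hξ
    exact Subtype.ext (Prod.ext rfl (b.ant_pt fr.1.2 ξ hξ))
  hom := by
    intro fr ξ hξ r hr
    exact Subtype.ext (Prod.ext rfl (b.hom fr.1.2 ξ hξ r hr))
  inj := by
    intro fr ξ ξ' hξ hξ' h1 h2 h3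
    exact b.inj fr.1.2 ξ ξ' hξ hξ' h1 h2 (congrArg (fun z : (fp f b.pi).pt => z.1.2) h3)
  lift := b.LL_pull f
  lift1 := b.LL_pull1 f
  change := by
    intro k P P' hP
    have h0 : ∀ y, (P.1 y).1.1 = (P'.1 y).1.1 := fun y => congrFun (congrArg Subtype.val hP) y
    have h1 : b.q.pl ((fp2 f b.q).pl P) = b.q.pl ((fp2 f b.q).pl P') := by
      refine Plot_ext fun y => ?_
      show b.q.1 (P.1 y).1.2 = b.q.1 (P'.1 y).1.2
      rw [← (P.1 y).2, ← (P'.1 y).2, h0 y]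
    obtain ⟨A, hA, hd, h2, h3⟩ := b.change k _ _ h1
    exact ⟨A, hA, hd, h2, fun z ξ hξ => Subtype.ext (Prod.ext (h0 z).symm (h3 z ξ hξ))⟩

/-- base change for fibre integrals -/
theorem PI_pull (θ : Om S) : (b.pull f).PI ((fp2 f b.pi).pull θ) = f.pull (b.PI θ) :=
  PI_nat b (b.pull f) (fp2 f b.pi) f (fp2 f b.q) (fun fr => fr.2.symm) (fun _ => rfl) θ

variable (e : SMap S S') (e' : SMap S' S)

theorem LL_iso1 (h : ∀ s, e.1 (e'.1 s) = s) : LLift ((e.comp b.ptm).comp (e1M b.F N)) := by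
  intro k p z
  obtain ⟨g, P, hg, hP⟩ := b.lift1 k (e'.pl p) z
  refine ⟨g, P, hg, Plot_ext fun y => ?_⟩
  have h1 : b.ptm.1 ((e1M b.F N).1 (P.1 y)) = e'.1 (p.1 (g y)) := congrFun (congrArg Subtype.val hP) y
  show e.1 (b.ptm.1 ((e1M b.F N).1 (P.1 y))) = p.1 (g y)
  rw [h1, h]

/-- transport along an isomorphism of total spaces -/
def iso (h : ∀ s, e'.1 (e.1 s) = s) (h' : ∀ s, e.1 (e'.1 s) = s) : SBun N S' B where
  pi := b.pi.comp e'
  F := b.F
  q := b.q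
  ptm := e.comp b.ptm
  ant := (e.comp b.ant).comp e'
  pi_pt := by
    intro z
    show b.pi.1 (e'.1 (e.1 (b.ptm.1 z))) = _
    rw [h, b.pi_pt]
  pi_ant := by
    intro s
    show b.pi.1 (e'.1 (e.1 (b.ant.1 (e'.1 s)))) = _
    rw [h, b.pi_ant]
    rfl
  ant_pt := by
    intro f ξ hξ
    show e.1 (b.ant.1 (e'.1 (e.1 (b.ptm.1 _)))) = e.1 (b.ptm.1 _)
    rw [h, b.ant_pt]
  hom := by
    intro f ξ hξ r hr
    show e.1 (b.ptm.1 _) = e.1 (b.ptm.1 _)
    rw [b.hom f ξ hξ r hr]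
  inj := by
    intro f ξ ξ' hξ hξ' h1 h2 h3
    refine b.inj f ξ ξ' hξ hξ' h1 h2 ?_
    have h4 := congrArg e'.1 h3
    change e'.1 (e.1 (b.ptm.1 _)) = e'.1 (e.1 (b.ptm.1 _)) at h4
    rwa [h, h] at h4
  lift := b.lift
  lift1 := b.LL_iso1 e e' h'
  change := by
    intro k P P' hP
    obtain ⟨A, hA, hd, h1, h2⟩ := b.change k P P' hP
    refine ⟨A, hA, hd, h1, fun z ξ hξ => ?_⟩
    show e.1 (b.ptm.1 _) = e.1 (b.ptm.1 _)
    rw [h2 z ξ hξ]

theorem PI_iso (h : ∀ s, e'.1 (e.1 s) = s) (h' : ∀ s, e.1 (e'.1 s) = s) (θ : Om S') :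
    (b.iso e e' h h').PI θ = b.PI (e.pull θ) := rfl

end SBun

end Pool.Agent.Lib.MP_ccbbf6_gt.L5
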