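import Pool.Agent.Lib.MP_ccbbf6_gt.L5.INTe

/-!
# Level 5, IOa: fibre integration commutes with the contraction by the generator of a circle action (helper93)

`Circ.xV`, `Circ.xP`: the action on `X × R^N`, `X × (R^N - 0)`; `i_JX`, `i_cutX`, `i_SI`.
-/

set_option autoImplicit false
set_option maxSynthPendingDepth 3

open Set Filter Topology MeasureTheory
open scoped ContDiff

noncomputable section

namespace Pool.Agent.Lib.MP_ccbbf6_gt.L5

open L4 L4.FR

variable {k l m N : ℕ} {X Y : Space}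

/-! ### algebra -/

/-- iterated contraction -/
def ctl : List (V m →ₗ[ℝ] ℝ) → Ex m → Ex m
  | [], x => x
  | φ :: L, x => ctr φ (ctl L x)

theorem ctl_map (A : V l →ₗ[ℝ] V m) : ∀ (L : List (V m →ₗ[ℝ] ℝ)) (x : Ex l),
    ctl L (ExteriorAlgebra.map A x) = ExteriorAlgebra.map A (ctl (L.map fun φ => φ.comp A) x)
  | [], _ => rfl
  | φ :: L, x => by
    rw [List.map_cons, ctl, ctl, ctl_map A L, ctr_map]

theorem ctr_comm (φ ψ : V m →ₗ[ℝ] ℝ) (x : Ex m) : ctr φ (ctr ψ x) = -ctr ψ (ctr φ x) :=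
  CliffordAlgebra.contractLeft_comm (Q := (0 : QuadraticForm ℝ (V m))) φ ψ x

theorem ctl_ctr (ψ : V m →ₗ[ℝ] ℝ) : ∀ (L : List (V m →ₗ[ℝ] ℝ)) (x : Ex m),
    ctl L (ctr ψ x) = (-1 : ℝ) ^ L.length • ctr ψ (ctl L x)
  | [], x => by
    rw [List.length_nil, pow_zero, one_smul]
    rfl
  | φ :: L, x => by
    rw [ctl, ctl_ctr ψ L, map_smul, ctr_comm, smul_neg, List.length_cons, pow_succ, mul_neg_one, neg_smul, ctl]

theorem foldr_ctl (f : Fin N → (V m →ₗ[ℝ] ℝ)) (x : Ex m) :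
    (List.ofFn fun i : Fin N => ctr (f i)).foldr (fun A y => A y) x = ctl (List.ofFn f) x := by
  have h1 : (List.ofFn fun i : Fin N => ctr (f i)) = (List.ofFn f).map ctr := by
    rw [List.map_ofFn]
    rfl
  rw [h1]
  generalize List.ofFn f = L
  induction L with
  | nil => rfl
  | cons φ L ih => rw [List.map_cons, List.foldr_cons, ih, ctl]

theorem tN_ctl (x : Ex (k + N)) : tN k N x = ExteriorAlgebra.map (hdL k N)
    (ctl (List.ofFn fun i : Fin N => vfm k (LinearMap.proj i)) x) := by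
  rw [tN_eq, foldr_ctl]

/-- the reordering `(z, s, ξ) ↦ (z, ξ, s)` on covectors -/
theorem tN_swap (R : V (k + 1 + N) →ₗ[ℝ] V (k + N + 1)) (h1 : (lst (k + N)).comp R = (lst k).comp (hdL (k + 1) N))
    (h2 : ∀ i : Fin N, ((vfm k (LinearMap.proj i)).comp (ini (k + N))).comp R = vfm (k + 1) (LinearMap.proj i))
    (h3 : ((hdL k N).comp (ini (k + N))).comp R = (ini k).comp (hdL (k + 1) N)) (e : Ex (k + 1 + N)) :
    tN k N (kil (k + N) (ctr (lst (k + N)) (ExteriorAlgebra.map R e))) =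
      (-1 : ℝ) ^ N • kil k (ctr (lst k) (tN (k + 1) N e)) := by
  have e1 : ∀ x, kil k x = ExteriorAlgebra.map (ini k) x := fun _ => rfl
  have e2 : ∀ x, kil (k + N) x = ExteriorAlgebra.map (ini (k + N)) x := fun _ => rfl
  have e3 : ∀ {a b c : ℕ} (A : V a →ₗ[ℝ] V b) (B : V b →ₗ[ℝ] V c) (x : Ex a),
      ExteriorAlgebra.map B (ExteriorAlgebra.map A x) = ExteriorAlgebra.map (B.comp A) x := fun A B x => by
    rw [← ExteriorAlgebra.map_comp_map]
    rfl
  rw [tN_ctl, tN_ctl, e1, e2, ctr_map, ctl_map, ctl_map, e3, e3, ctr_map, e3, h1, ctl_ctr, map_smul]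
  have h4 : (List.map (fun φ => φ.comp R) (List.map (fun φ => φ.comp (ini (k + N)))
      (List.ofFn fun i : Fin N => vfm k (LinearMap.proj i)))) = List.ofFn fun i : Fin N => vfm (k + 1) (LinearMap.proj i) := by
    rw [List.map_ofFn, List.map_ofFn]
    congr 1
    funext i
    exact h2 i
  rw [h4, h3]
  rw [List.length_ofFn]

/-! ### the reordering -/

/-- `(z, ξ, s) ↦ (z, s, ξ)` -/
def rhoJ (k N : ℕ) : FR.Sm (k + N + 1) (k + 1 + N) :=
  ⟨fun w => Fin.append (Fin.snoc (hdM k N (pr (k + N) w)) (w (Fin.last (k + N))) : V (k + 1)) (tlM k N (pr (k + N) w)), by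
    refine contDiff_append ?_ ((tlM k N).smooth.comp (pr (k + N)).smooth)
    rw [contDiff_pi]
    intro i
    refine Fin.lastCases ?_ (fun i => ?_) i
    · simp only [Fin.snoc_last]
      exact contDiff_apply ℝ ℝ _
    · simp only [Fin.snoc_castSucc]
      exact contDiff_pi.1 ((hdM k N).smooth.comp (pr (k + N)).smooth) i⟩

theorem rhoJ_snoc (z : V k) (ξ : V N) (s : ℝ) : rhoJ k N (Fin.snoc (Fin.append z ξ : V (k + N)) s) =
    Fin.append (Fin.snoc z s : V (k + 1)) ξ := by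
  show (Fin.append (Fin.snoc (hdM k N (pr (k + N) _)) ((Fin.snoc (Fin.append z ξ : V (k + N)) s : V (k + N + 1))
    (Fin.last (k + N))) : V (k + 1)) (tlM k N (pr (k + N) _)) : V (k + 1 + N)) = _
  rw [pr_snoc, Fin.snoc_last, hdM_append, tlM_append]

/-- the permutation of the coordinates -/
def sigJ (k N : ℕ) (j : Fin (k + 1 + N)) : Fin (k + N + 1) :=
  ⟨if j.1 < k then j.1 else if j.1 = k then k + N else j.1 - 1, by
    have := j.2
    split_ifs <;> omega⟩

theorem sigJ_inj : Function.Injective (sigJ k N) := by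
  intro i j h
  have h1 := congrArg Fin.val h
  have hi := i.2
  have hj := j.2
  refine Fin.ext ?_
  simp only [sigJ] at h1
  split_ifs at h1 <;> omega

theorem sigJ_last : sigJ k N (Fin.castAdd N (Fin.last k)) = Fin.last (k + N) := by
  refine Fin.ext ?_
  simp [sigJ]

theorem sigJ_cast (i : Fin k) : sigJ k N (Fin.castAdd N i.castSucc) = (Fin.castAdd N i).castSucc := by
  refine Fin.ext ?_
  simp [sigJ, i.2]

theorem sigJ_nat (j : Fin N) : sigJ k N (Fin.natAdd (k + 1) j) = (Fin.natAdd k j).castSucc := by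
  refine Fin.ext ?_
  simp only [sigJ, Fin.val_natAdd, Fin.val_castSucc]
  split_ifs <;> omega

theorem rhoJ_sig (w : V (k + N + 1)) (j : Fin (k + 1 + N)) : rhoJ k N w j = w (sigJ k N j) := by
  refine Fin.addCases (fun i => ?_) (fun i => ?_) j
  · refine Fin.lastCases ?_ (fun i => ?_) i
    · rw [sigJ_last]
      show (Fin.append (Fin.snoc _ _ : V (k + 1)) _ : V (k + 1 + N)) _ = _
      rw [Fin.append_left, Fin.snoc_last]
    · rw [sigJ_cast]
      show (Fin.append (Fin.snoc _ _ : V (k + 1)) _ : V (k + 1 + N)) _ = _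
      rw [Fin.append_left, Fin.snoc_castSucc]
      rfl
  · rw [sigJ_nat]
    show (Fin.append (Fin.snoc _ _ : V (k + 1)) _ : V (k + 1 + N)) _ = _
    rw [Fin.append_right]
    rfl

theorem rhoJ_cp (j : Fin (k + 1 + N)) : (rhoJ k N).cp j = co (sigJ k N j) := by
  apply Cs_ext
  intro x
  exact rhoJ_sig x j

theorem tr_rhoJ (w : V (k + N + 1)) (v : V (k + 1 + N)) (j : Fin (k + 1 + N)) : tr (rhoJ k N) w v (sigJ k N j) = v j := by
  change ∑ i, v i * (pd (sigJ k N j) ((rhoJ k N).cp i) : V (k + N + 1) → ℝ) w = _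
  rw [Finset.sum_eq_single j]
  · rw [rhoJ_cp, pd_co, if_pos rfl]
    exact mul_one _
  · intro b _ hb
    rw [rhoJ_cp, pd_co, if_neg fun h => hb (sigJ_inj h).symm]
    exact mul_zero _
  · intro h
    exact absurd (Finset.mem_univ j) h

theorem tN_rhoJ (w : V (k + N + 1)) (e : Ex (k + 1 + N)) :
    tN k N (kil (k + N) (ctr (lst (k + N)) (ExteriorAlgebra.map (tr (rhoJ k N) w) e))) =
      (-1 : ℝ) ^ N • kil k (ctr (lst k) (tN (k + 1) N e)) := by
  refine tN_swap _ ?_ (fun i => ?_) ?_ e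
  · refine LinearMap.ext fun v => ?_
    show tr (rhoJ k N) w v (Fin.last (k + N)) = v (Fin.castAdd N (Fin.last k))
    rw [← sigJ_last, tr_rhoJ]
  · refine LinearMap.ext fun v => ?_
    show tr (rhoJ k N) w v (Fin.natAdd k i).castSucc = v (Fin.natAdd (k + 1) i)
    rw [← sigJ_nat, tr_rhoJ]
  · refine LinearMap.ext fun v => ?_
    funext i
    show tr (rhoJ k N) w v (Fin.castAdd N i).castSucc = v (Fin.castAdd N i.castSucc)
    rw [← sigJ_cast, tr_rhoJ]

/-! ### fibre integration over `R^N` -/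

theorem VS_ctr {x : Fm (k + N + 1)} (h : ∀ w : V (k + N + 1), (∃ i, 3 ≤ |tlM k N (pr (k + N) w) i|) → ev w x = 0) :
    VS (pb (sl (k + N) 0) (cs (k + N) x)) := by
  intro w hw
  rw [INTe_ev_sl, cs, INTe_ev_cn, h _ (by rw [pr_snoc]; exact hw), map_zero, map_zero]

/-- contraction commutes with the integration over the fibres -/
theorem J_ctr {y : Fm (k + 1 + N)} (hy : VS y) :
    pb (sl k 0) (cs k (Jn (k + 1) N y)) =
      (-1 : ℝ) ^ N • Jn k N (pb (sl (k + N) 0) (cs (k + N) (pb (rhoJ k N) y))) := by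
  have hx : VS (pb (sl (k + N) 0) (cs (k + N) (pb (rhoJ k N) y))) := by
    refine VS_ctr fun w hw => ?_
    rw [ev_pb, hy, map_zero]
    obtain ⟨i, hi⟩ := hw
    refine ⟨i, ?_⟩
    show 3 ≤ |(Fin.append (Fin.snoc _ _ : V (k + 1)) _ : V (k + 1 + N)) (Fin.natAdd (k + 1) i)|
    rw [Fin.append_right]
    exact hi
  rw [← sub_eq_zero]
  refine ev_fun_inj fun L z => ?_
  rw [map_sub, map_sub, map_smul, map_smul, smul_eq_mul, ev_J hx, INTe_ev_sl, cs, INTe_ev_cn, sub_eq_zero]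
  have h1 := ev_J hy (L.comp ((kil k).toLinearMap.comp (ctr (lst k)))) (Fin.snoc z 0 : V (k + 1))
  refine Eq.trans h1 ?_
  rw [← integral_const_mul]
  refine integral_congr_ae (Filter.Eventually.of_forall fun ξ => ?_)
  show L (kil k (ctr (lst k) (tN (k + 1) N (ev (Fin.append (Fin.snoc z 0 : V (k + 1)) ξ) y)))) =
    (-1 : ℝ) ^ N * L (tN k N (ev (Fin.append z ξ) (pb (sl (k + N) 0) (cs (k + N) (pb (rhoJ k N) y)))))
  rw [INTe_ev_sl, cs, INTe_ev_cn, ev_pb, tN_rhoJ, rhoJ_snoc, map_smul, smul_eq_mul, ← mul_assoc, ← mul_pow,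
    neg_one_mul, neg_neg, one_pow, one_mul]

end Pool.Agent.Lib.MP_ccbbf6_gt.L5
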