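import Pool.Agent.Lib.MP_ccbbf6_gt.L5.INTh
import Pool.Agent.Lib.MP_ccbbf6_gt.L5.IOa

/-!
# Level 5, IOb: sphere integration commutes with the contraction by the generator of a circle action (helper93)

`SBun.i_PI : iO cB (b.PI θ) = (-1)^N • b.PI (iO cS θ)` for circle actions on `B`, `S` and the frames.
-/

set_option autoImplicit false
set_option maxSynthPendingDepth 3

open Set Filter Topology MeasureTheory
open scoped ContDiff

noncomputable section

namespace Pool.Agent.Lib.MP_ccbbf6_gt.L5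

open L4 L4.FR

variable {k l m N : ℕ} {X Y : Space}

/-- contraction is natural -/
theorem iO_eqv (c : Circ X) (c' : Circ Y) {t : SMap Y X} (ht : ∀ y s, t.1 (c'.a.1 (y, s)) = c.a.1 (t.1 y, s)) (θ : Om X) :
    t.pull (iO c θ) = iO c' (t.pull θ) :=
  Om_ext fun k p => by
    have h : c.op (t.pl p) = t.pl (c'.op p) := Plot_ext fun z => (ht _ _).symm
    rw [on_pull, on_i, on_i, on_pull, h]

/-- the action on `X × R^N` -/
def CircV (c : Circ X) (N : ℕ) : Circ (X.xV N) where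
  a := ⟨fun z => (c.a.1 (z.1.1, z.2), z.1.2), fun k p => ⟨c.a.2 k ⟨fun u => ((p.1 u).1.1, (p.1 u).2), p.2.1.1, p.2.2⟩,
    p.2.1.2⟩⟩
  zero := fun _ => Prod.ext (c.zero _) rfl
  add := fun _ _ _ => Prod.ext (c.add _ _ _) rfl
  one := fun _ _ => Prod.ext (c.one _ _) rfl

/-- the action on `X × (R^N - 0)` -/
def CircP (c : Circ X) (N : ℕ) : Circ (X.xP N) where
  a := ⟨fun z => ⟨(c.a.1 (z.1.1.1, z.2), z.1.1.2), z.1.2⟩,
    fun k p => ⟨c.a.2 k ⟨fun u => ((p.1 u).1.1.1, (p.1 u).2), p.2.1.1, p.2.2⟩, p.2.1.2⟩⟩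
  zero := fun _ => Subtype.ext (Prod.ext (c.zero _) rfl)
  add := fun _ _ _ => Subtype.ext (Prod.ext (c.add _ _ _) rfl)
  one := fun _ _ => Subtype.ext (Prod.ext (c.one _ _) rfl)

theorem opV (c : Circ X) (P : X.Plot k) : (CircV c N).op (P.xV N) = ((c.op P).xV N).cmp (rhoJ k N) := by
  refine Plot_ext fun w => ?_
  show (c.a.1 (P.1 (hdM k N (pr (k + N) w)), w (Fin.last (k + N))), tlM k N (pr (k + N) w)) =
    (c.a.1 (P.1 (pr k (hdM (k + 1) N (rhoJ k N w))), (hdM (k + 1) N (rhoJ k N w)) (Fin.last k)), tlM (k + 1) N (rhoJ k N w))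
  have h1 : hdM (k + 1) N (rhoJ k N w) = Fin.snoc (hdM k N (pr (k + N) w)) (w (Fin.last (k + N))) := hdM_append _ _
  have h2 : tlM (k + 1) N (rhoJ k N w) = tlM k N (pr (k + N) w) := tlM_append _ _
  rw [h1, h2, pr_snoc, Fin.snoc_last]

/-- contraction commutes with the integration over `R^N` -/
theorem i_JX (c : Circ X) {Θ : Om (X.xV N)} (h : VSO Θ) :
    iO c (JX N X Θ) = (-1 : ℝ) ^ N • JX N X (iO (CircV c N) Θ) :=
  Om_ext fun k P => by
    rw [on_i, on_JX, on_smul, on_JX, on_i, opV, on_cmp]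
    exact J_ctr (h _ _)

theorem i_chiX (c : Circ X) : iO (CircV c N) (dch N X) = 0 := by
  refine Bas_i _ (Bas_d _ fun k p => ?_)
  show fc _ _ = pb (pr k) (fc _ _)
  rw [pb_fc]
  rfl

/-- contraction anticommutes with the cut-off -/
theorem i_cutX (c : Circ X) (Θ : Om (X.xP N)) : iO (CircV c N) (cutX Θ) = -cutX (iO (CircP c N) Θ) := by
  have e0 : -cutX (iO (CircP c N) Θ) = cutX (-iO (CircP c N) Θ) := by
    have h := cutX_smul (-1) (iO (CircP c N) Θ)
    rw [neg_one_smul, neg_one_smul] at h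
    exact h.symm
  rw [e0]
  refine ext_unique (open_neZ X N) ?_ ?_
  · rw [iO_eqv (CircV c N) (CircP c N) (t := inU (X.xV N) (neZ X N)) (fun _ _ => rfl), inU_cutX, inU_cutX, i_mul,
      ← iO_eqv (CircV c N) (CircP c N) (t := inU (X.xV N) (neZ X N)) (fun _ _ => rfl), i_chiX, map_zero, zero_mul,
      zero_add, pull_s, s_dch, map_neg, neg_mul, mul_neg]
  · intro k p x hx
    have h0 : (p.1 x).2 = 0 := by_contra fun h => hx h
    have h2 : ∀ (j : ℕ) (q : (X.xV N).Plot j) (y : V j), (q.1 y).2 = 0 → ∀ Θ' : Om (X.xP N), ev y (Om.on (cutX Θ') q) = 0 := by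
      intro j q y hy Θ'
      refine ev_cutX Θ' q y (Or.inl ?_)
      rw [hy]
      show ‖(WithLp.toLp 2 (0 : V N) : EuclideanSpace ℝ (Fin N))‖ < 1
      rw [WithLp.toLp_zero, norm_zero]
      exact one_pos
    rw [h2 _ p x h0, on_i, INTe_ev_sl, cs, INTe_ev_cn, h2, map_zero, map_zero]
    show (p.1 (pr k (Fin.snoc x 0))).2 = 0
    rw [pr_snoc]
    exact h0

/-- contraction commutes with the integration over the unit sphere -/
theorem i_SI (c : Circ X) (Θ : Om (X.xP N)) : iO c (SI N X Θ) = (-1 : ℝ) ^ (N + 1) • SI N X (iO (CircP c N) Θ) := by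
  rw [SI_def, SI_def, i_JX c (VSO_cutX Θ), i_cutX, map_neg, smul_neg, pow_succ, mul_neg_one, neg_smul]

/-- **contraction commutes with the integration over the fibres of a sphere bundle** -/
theorem SBun.i_PI {S B : Space} (b : SBun N S B) (cB : Circ B) (cS : Circ S) (cF : Circ b.F)
    (hq : ∀ f s, b.q.1 (cF.a.1 (f, s)) = cB.a.1 (b.q.1 f, s))
    (hp : ∀ z s, b.ptm.1 ((CircP cF (N + 1)).a.1 (z, s)) = cS.a.1 (b.ptm.1 z, s)) (θ : Om S) :
    iO cB (b.PI θ) = (-1 : ℝ) ^ N • b.PI (iO cS θ) := by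
  refine b.lift.inj ?_
  rw [iO_eqv cB cF hq, b.q_PI, map_smul, b.q_PI, iO_eqv cS (CircP cF (N + 1)) hp, i_SI, INTh_pow]

end Pool.Agent.Lib.MP_ccbbf6_gt.L5
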