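import Pool.Agent.Lib.MP_ccbbf6_gt.L5.NM
import Pool.Agent.Lib.MP_ccbbf6_gt.L5.NX1
import Pool.Agent.Lib.MP_ccbbf6_gt.L5.OT1

/-!
# NX2: the negative bundle as an oriented bundle over `UM` (Level 5, block NEG) (helper93)

The orientation is the one of `K` transported by the evaluation `ev_c : N_c ≅ K_c`.
-/

set_option autoImplicit false
set_option linter.unusedSectionVars false
set_option maxSynthPendingDepth 3

open Set Filter Topology Metric Real Module Matrix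
open scoped ContDiff RealInnerProductSpace

noncomputable section

namespace Pool.Agent.Lib.MP_ccbbf6_gt.L5.NEG

open Geo L4 L4.ORI L4.FR

variable {n : ℕ} {M : Type} [MetricSpace M] [CompactSpace M] {𝒜 : SDist n M} {N κ : ℕ} {C : Eu N → Gs M → M}
  {P : Gs M → Eu N →L[ℝ] Eu N} {hB : Bl M}

/-- `b` is the bundle `K` with the usual smooth sections -/
structure KBun (b : OBun κ (Eu n) (spG 𝒜)) : Prop where
  W : ∀ c : Gs M, b.W c = Kc 𝒜 c
  sm : ∀ {k : ℕ} (σ : (spG 𝒜).Plot k) (w : V k → Eu n) (z : V k),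
    b.sAt σ w z ↔ SmV 𝒜 ((σ.1 z).1 0) (fun v => (σ.1 v).1 0) w z

theorem KBun.ofr {b : OBun κ (Eu n) (spG 𝒜)} (hb : KBun b) {c : Gs M} {w : Fin κ → Eu n} (h : OFr (b.W c) w) :
    OFr (Kc 𝒜 c) w := by
  rw [← hb.W]
  exact h

theorem KBun.ofr' {b : OBun κ (Eu n) (spG 𝒜)} (hb : KBun b) {c : Gs M} {w : Fin κ → Eu n} (h : OFr (Kc 𝒜 c) w) :
    OFr (b.W c) w := by
  rw [hb.W]
  exact h

/-- the fibre of the negative bundle -/
def WN (P : Gs M → Eu N →L[ℝ] Eu N) (c : Gs M) : Submodule ℝ (Eu N) where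
  carrier := {x | InP P c x}
  add_mem' := fun {x y} (hx : P c x = x) (hy : P c y = y) => by
    show P c (x + y) = x + y
    rw [map_add, hx, hy]
  zero_mem' := by
    show P c 0 = 0
    exact map_zero _
  smul_mem' := fun r x (hx : P c x = x) => by
    show P c (r • x) = r • x
    rw [map_smul, hx]

theorem mem_WN {c : Gs M} {x : Eu N} : x ∈ WN P c ↔ P c x = x := Iff.rfl

theorem WN_eq (hN : NegData 𝒜 κ hB C P) (c : Gs M) : WN P c = LinearMap.range (P c : Eu N →ₗ[ℝ] Eu N) := by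
  ext x
  constructor
  · intro hx
    exact ⟨x, hx⟩
  · rintro ⟨y, rfl⟩
    exact hN.idem c y

theorem finrank_WN (hN : NegData 𝒜 κ hB C P) (c : Gs M) : finrank ℝ (WN P c) = κ := by
  rw [WN_eq hN]
  exact hN.rank c

/-- the matrix of the evaluation -/
def evm (𝒜 : SDist n M) (hB : Bl M) (C : Eu N → Gs M → M) (c : Gs M) (a : Fin κ → Eu N) (w : Fin κ → Eu n) :
    Matrix (Fin κ) (Fin κ) ℝ := Matrix.of fun i j => ⟪evc 𝒜 hB C c (a i), w j⟫

theorem evm_left (h0 : 0 < κ) (hN : NegData 𝒜 κ hB C P) {c : Gs M} {a a' : Fin κ → Eu N} (ha : OFr (WN P c) a)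
    (ha' : OFr (WN P c) a') (w : Fin κ → Eu n) :
    evm 𝒜 hB C c a' w = (Matrix.of fun i j => ⟪a i, a' j⟫)ᵀ * evm 𝒜 hB C c a w := by
  ext k j
  rw [Matrix.mul_apply]
  have h1 := frame_expand h0 (finrank_WN hN c) ha (ha'.1 k)
  have h2 : evc 𝒜 hB C c (a' k) = ∑ i, ⟪a i, a' k⟫ • evc 𝒜 hB C c (a i) := by
    conv_lhs => rw [← h1]
    show evL (𝒜 := 𝒜) hB C c _ = _
    rw [map_sum]
    exact Finset.sum_congr rfl fun i _ => map_smul _ _ _
  show ⟪evc 𝒜 hB C c (a' k), w j⟫ = _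
  rw [h2, sum_inner]
  refine Finset.sum_congr rfl fun i _ => ?_
  rw [real_inner_smul_left]
  rfl

theorem evm_right (h0 : 0 < κ) (hk : 𝒜.HK κ) {c : Gs M} {a : Fin κ → Eu N} {w w' : Fin κ → Eu n} (hw : OFr (Kc 𝒜 c) w)
    (hw' : OFr (Kc 𝒜 c) w') :
    evm 𝒜 hB C c a w' = evm 𝒜 hB C c a w * (Matrix.of fun i j => ⟪w i, w' j⟫) := by
  ext k j
  rw [Matrix.mul_apply]
  have h1 := frame_expand h0 (finrank_Kc hB hk c) hw (hw'.1 j)
  show ⟪evc 𝒜 hB C c (a k), w' j⟫ = _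
  conv_lhs => rw [← h1]
  rw [inner_sum]
  refine Finset.sum_congr rfl fun i _ => ?_
  rw [real_inner_smul_right, mul_comm]
  rfl

theorem evm_det (h0 : 0 < κ) (hk : 𝒜.HK κ) (hN : NegData 𝒜 κ hB C P) {c : Gs M} {a : Fin κ → Eu N} {w : Fin κ → Eu n}
    (ha : OFr (WN P c) a) (hw : OFr (Kc 𝒜 c) w) : (evm 𝒜 hB C c a w).det ≠ 0 := by
  intro hd
  obtain ⟨v, hv, h1⟩ := Matrix.exists_vecMul_eq_zero_iff.2 hd
  obtain ⟨x, hx⟩ : ∃ x, x = ∑ i, v i • a i := ⟨_, rfl⟩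
  have hxm : x ∈ WN P c := by
    rw [hx]
    exact Submodule.sum_mem _ fun i _ => Submodule.smul_mem _ _ (ha.1 i)
  have h2 : ∀ j, ⟪w j, evc 𝒜 hB C c x⟫ = 0 := by
    intro j
    have h3 : evc 𝒜 hB C c x = ∑ i, v i • evc 𝒜 hB C c (a i) := by
      rw [hx]
      show evL (𝒜 := 𝒜) hB C c _ = _
      rw [map_sum]
      exact Finset.sum_congr rfl fun i _ => map_smul _ _ _
    have h4 := congrFun h1 j
    rw [real_inner_comm, h3, sum_inner]
    simp only [real_inner_smul_left]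
    exact h4
  have h5 := frame_expand h0 (finrank_Kc hB hk c) hw (evc_mem (𝒜 := 𝒜) (C := C) hB c x)
  simp only [h2, zero_smul, Finset.sum_const_zero] at h5
  have h6 := hN.ev c x hxm h5.symm
  rw [hx] at h6
  refine hv (funext fun i => ?_)
  exact Fintype.linearIndependent_iff.1 ha.2.linearIndependent v h6 i

/-- positivity -/
def posN (𝒜 : SDist n M) (hB : Bl M) (C : Eu N → Gs M → M) (b : OBun κ (Eu n) (spG 𝒜)) (c : Gs M) (a : Fin κ → Eu N) : Prop :=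
  ∃ w : Fin κ → Eu n, OFr (Kc 𝒜 c) w ∧ b.pos c w ∧ 0 < (evm 𝒜 hB C c a w).det

variable {b : OBun κ (Eu n) (spG 𝒜)}

theorem posN_iff (h0 : 0 < κ) (hk : 𝒜.HK κ) (hb : KBun b) {c : Gs M} {a : Fin κ → Eu N} {w : Fin κ → Eu n}
    (hw : OFr (Kc 𝒜 c) w) (hp : b.pos c w) : posN 𝒜 hB C b c a ↔ 0 < (evm 𝒜 hB C c a w).det := by
  constructor
  · rintro ⟨w', hw', hp', h1⟩
    have h2 := (b.pos_iff c w' w (hb.ofr' hw') (hb.ofr' hw) hp').1 hp
    rw [evm_right (hB := hB) (C := C) h0 hk hw' hw, Matrix.det_mul, h2, mul_one]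
    exact h1
  · intro h
    exact ⟨w, hw, hp, h⟩

theorem posN_pos_iff (h0 : 0 < κ) (hk : 𝒜.HK κ) (hN : NegData 𝒜 κ hB C P) (hb : KBun b) (c : Gs M)
    (a a' : Fin κ → Eu N) (ha : OFr (WN P c) a) (ha' : OFr (WN P c) a') (hp : posN 𝒜 hB C b c a) :
    posN 𝒜 hB C b c a' ↔ (Matrix.of fun i j => ⟪a i, a' j⟫).det = 1 := by
  obtain ⟨w, hw, hwp, h1⟩ := hp
  rw [posN_iff h0 hk hb hw hwp, evm_left h0 hN ha ha', Matrix.det_mul, Matrix.det_transpose]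
  constructor
  · intro h2
    rcases OT.det_pm h0 (finrank_WN hN c) ha ha' with h3 | h3
    · exact h3
    · rw [h3] at h2
      linarith
  · intro h2
    rw [h2, one_mul]
    exact h1

theorem exists_posK (hb : KBun b) {k : ℕ} (σ : (spG 𝒜).Plot k) (z : V k) : ∃ w : V k → Fin κ → Eu n, ∀ᶠ y in 𝓝 z,
    OFr (Kc 𝒜 (σ.1 y)) (w y) ∧ b.pos (σ.1 y) (w y) ∧
      ∀ i, SmV 𝒜 ((σ.1 y).1 0) (fun v => (σ.1 v).1 0) (fun v => w v i) y := by
  obtain ⟨w, hw⟩ := b.loc σ z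
  exact ⟨w, hw.mono fun y hy => ⟨hb.ofr hy.1, hy.2.1, fun i => (hb.sm σ _ y).1 (hy.2.2 i)⟩⟩

theorem bN_loc (h0 : 0 < κ) (hk : 𝒜.HK κ) (hN : NegData 𝒜 κ hB C P) (hb : KBun b) {k : ℕ} (σ : (spG 𝒜).Plot k) (z : V k) :
    ∃ a : V k → Fin κ → Eu N, ∀ᶠ y in 𝓝 z,
      OFr (WN P (σ.1 y)) (a y) ∧ posN 𝒜 hB C b (σ.1 y) (a y) ∧ ∀ i, (triv (Eu N) (spG 𝒜)).sAt σ (fun v => a v i) y := by
  obtain ⟨w, hw⟩ := exists_posK hb σ z
  -- the corresponding sections of the negative bundle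
  obtain ⟨s, hs⟩ : ∃ s : Fin κ → V k → Eu N, s = fun i v => xN 𝒜 hB C P (σ.1 v) (w v i) := ⟨_, rfl⟩
  have hs1 : ∀ᶠ y in 𝓝 z, ∀ i, (triv (Eu N) (spG 𝒜)).sAt σ (s i) y := by
    filter_upwards [hw] with y hy i
    rw [hs]
    exact xN_smooth hB hk hN (σ := σ.1) (σ.2.atP y) (𝒜.mem _) (hy.2.2 i)
  have hev : ∀ᶠ y in 𝓝 z, (∀ i, s i y ∈ WN P (σ.1 y)) ∧ ∀ i, evc 𝒜 hB C (σ.1 y) (s i y) = w y i := by
    filter_upwards [hw] with y hy
    rw [hs]
    exact ⟨fun i => xN_mem hB hk hN (hy.1.1 i), fun i => evc_xN hB hk hN (hy.1.1 i)⟩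
  have hlin : ∀ᶠ y in 𝓝 z, LinearIndependent ℝ fun i => s i y := by
    filter_upwards [hw, hev] with y hy he
    refine LinearIndependent.of_comp (evL (𝒜 := 𝒜) hB C (σ.1 y)) ?_
    have h1 : (evL (𝒜 := 𝒜) hB C (σ.1 y) ∘ fun i => s i y) = w y := funext fun i => he.2 i
    rw [h1]
    exact hy.1.2.linearIndependent
  obtain ⟨a, ha⟩ := (triv (Eu N) (spG 𝒜)).gs hs1 hlin.self_of_nhds
  have hfr : ∀ᶠ y in 𝓝 z, OFr (WN P (σ.1 y)) (a y) := by
    filter_upwards [ha, hev] with y hy he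
    refine ⟨fun i => ?_, hy.1⟩
    have h1 : a y i ∈ Submodule.span ℝ (Set.range (a y)) := Submodule.subset_span ⟨i, rfl⟩
    rw [hy.2.1] at h1
    refine Submodule.span_le.2 ?_ h1
    rintro _ ⟨j, rfl⟩
    exact he.1 j
  -- change the sign of the first vector if necessary
  obtain ⟨ε, hε⟩ : ∃ ε : ℝ, (ε = 1 ∨ ε = -1) ∧ 0 < ε * (evm 𝒜 hB C (σ.1 z) (a z) (w z)).det := by
    rcases lt_or_gt_of_ne (evm_det h0 hk hN hfr.self_of_nhds hw.self_of_nhds.1) with h | h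
    · exact ⟨-1, Or.inr rfl, by linarith⟩
    · exact ⟨1, Or.inl rfl, by linarith⟩
  obtain ⟨i0, hi0⟩ : ∃ i0 : Fin κ, i0 = ⟨0, h0⟩ := ⟨_, rfl⟩
  obtain ⟨e, he⟩ : ∃ e : Fin κ → ℝ, e = Function.update (fun _ => (1 : ℝ)) i0 ε := ⟨_, rfl⟩
  have he1 : ∀ i, e i = 1 ∨ e i = -1 := by
    intro i
    rw [he]
    by_cases hi : i = i0
    · rw [hi, Function.update_self]
      exact hε.1
    · rw [Function.update_of_ne hi]
      exact Or.inl rfl
  have heprod : ∏ i, e i = ε := by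
    rw [he, Finset.prod_update_of_mem (Finset.mem_univ i0)]
    simp
  have hdet : ∀ y, (evm 𝒜 hB C (σ.1 y) (fun i => e i • a y i) (w y)).det = ε * (evm 𝒜 hB C (σ.1 y) (a y) (w y)).det := by
    intro y
    have h1 : evm 𝒜 hB C (σ.1 y) (fun i => e i • a y i) (w y) = Matrix.of fun i j => e i * evm 𝒜 hB C (σ.1 y) (a y) (w y) i j := by
      ext i j
      exact (congrArg (fun v => ⟪v, w y j⟫) (evc_smul' hB (σ.1 y) (e i) (a y i))).trans (real_inner_smul_left _ _ _)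
    rw [h1, Matrix.det_mul_column, heprod]
  refine ⟨fun y i => e i • a y i, ?_⟩
  have hcont : ContinuousAt (fun y => (evm 𝒜 hB C (σ.1 y) (a y) (w y)).det) z := by
    have h2 : ContinuousAt (fun y => evm 𝒜 hB C (σ.1 y) (a y) (w y)) z := by
      refine continuousAt_pi.2 fun i => continuousAt_pi.2 fun j => ?_
      have h3 : SmV 𝒜 ((σ.1 z).1 0) (fun v => (σ.1 v).1 0) (fun v => evc 𝒜 hB C (σ.1 v) (a v i)) z :=
        evc_smooth hB hk hN.fam (σ.2.atP z) (ha.self_of_nhds.2.2 i) (𝒜.mem _)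
      have h4 : SmAt 𝒜 (fun v => (σ.1 v).1 0) z := (σ.2.atP z).ev hB (t := fun _ => 0) contDiffAt_const
      exact (SmV.inner h4 (𝒜.mem _) h3 (hw.self_of_nhds.2.2 j)).continuousAt
    exact (continuous_id.matrix_det).continuousAt.comp h2
  have hpos : ∀ᶠ y in 𝓝 z, 0 < ε * (evm 𝒜 hB C (σ.1 y) (a y) (w y)).det :=
    (continuousAt_const.mul hcont).eventually (lt_mem_nhds hε.2)
  filter_upwards [hfr, ha, hw, hpos] with y h1 h2 h3 h4
  refine ⟨⟨fun i => Submodule.smul_mem _ _ (h1.1 i), ?_⟩, ?_, fun i => ?_⟩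
  · rw [orthonormal_iff_ite]
    intro i j
    show ⟪e i • a y i, e j • a y j⟫ = _
    rw [real_inner_smul_left, real_inner_smul_right, orthonormal_iff_ite.1 h2.1 i j]
    by_cases hij : i = j
    · rw [if_pos hij, hij]
      rcases he1 j with h | h
      · simp [h]
      · simp [h]
    · simp [hij]
  · refine (posN_iff h0 hk hb h3.1 h3.2.1).2 ?_
    rw [hdet]
    exact h4
  · exact ContDiffAt.smul (f := fun _ : V k => e i) contDiffAt_const (show ContDiffAt ℝ ∞ (fun v => a v i) y from h2.2.2 i)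

/-- **the negative bundle as an oriented bundle over `UM`** -/
def bN (h0 : 0 < κ) (hk : 𝒜.HK κ) (hN : NegData 𝒜 κ hB C P) (hb : KBun b) : OBun κ (Eu N) (spG 𝒜) where
  toVFld := triv (Eu N) (spG 𝒜)
  W c := WN P c
  pos c a := posN 𝒜 hB C b c a
  rank c := finrank_WN hN c
  pos_iff c a a' ha ha' hp := posN_pos_iff h0 hk hN hb c a a' ha ha' hp
  loc σ z := bN_loc h0 hk hN hb σ z

theorem bN_W (h0 : 0 < κ) (hk : 𝒜.HK κ) (hN : NegData 𝒜 κ hB C P) (hb : KBun b) (c : Gs M) :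
    (bN h0 hk hN hb).W c = WN P c := rfl

theorem tbN (h0 : 0 < κ) (hk : 𝒜.HK κ) (hN : NegData 𝒜 κ hB C P) (hb : KBun b) : TBun (bN h0 hk hN hb) where
  sAt _ _ _ h := h
  cst x := ⟨⟨fun _ => x, smG_of fun u => smGAt_const (𝒜 := 𝒜) x u⟩, fun _ => rfl⟩

/-- the fibres are invariant under the geodesic flow -/
theorem bN_inv (h0 : 0 < κ) (hk : 𝒜.HK κ) (hN : NegData 𝒜 κ hB C P) (hb : KBun b) (x : (spG 𝒜).pt) (s : ℝ) :
    (bN h0 hk hN hb).W ((circPhi hB 𝒜).a.1 (x, s)) = (bN h0 hk hN hb).W x := by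
  have h : ∀ c : Gs M, WN P (shift (2 * π * s) c) = WN P c := fun c => by
    ext y
    rw [mem_WN, mem_WN, hN.inv]
  exact h x

/-- `spN` is the unit sphere bundle of `bN` -/
def toSN (h0 : 0 < κ) (hk : 𝒜.HK κ) (hN : NegData 𝒜 κ hB C P) (hb : KBun b) : SMap (spN 𝒜 P) (bN h0 hk hN hb).S :=
  ⟨fun z => ⟨z.1, z.2⟩, fun _ p => ⟨p.2.1, fun _ => p.2.2.contDiffAt⟩⟩

/-- inverse -/
def ofSN (h0 : 0 < κ) (hk : 𝒜.HK κ) (hN : NegData 𝒜 κ hB C P) (hb : KBun b) : SMap (bN h0 hk hN hb).S (spN 𝒜 P) :=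
  ⟨fun z => ⟨z.1, z.2⟩, fun _ p => ⟨p.2.1, contDiff_iff_contDiffAt.2 p.2.2⟩⟩

theorem of_toSN (h0 : 0 < κ) (hk : 𝒜.HK κ) (hN : NegData 𝒜 κ hB C P) (hb : KBun b) (z : (spN 𝒜 P).pt) :
    (ofSN h0 hk hN hb).1 ((toSN h0 hk hN hb).1 z) = z := rfl

theorem to_ofSN (h0 : 0 < κ) (hk : 𝒜.HK κ) (hN : NegData 𝒜 κ hB C P) (hb : KBun b) (z : (bN h0 hk hN hb).S.pt) :
    (toSN h0 hk hN hb).1 ((ofSN h0 hk hN hb).1 z) = z := rfl

/-! ### the projection over `SB` -/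

/-- the matrix of the projection onto the fibre -/
theorem pW_WN (hN : NegData 𝒜 κ hB C P) (c : Gs M) : OT.pW (WN P c) = etN (P c) := by
  ext i j
  show (WN P c).starProjection (EuclideanSpace.single j 1) i = P c (EuclideanSpace.single j 1) i
  have h1 : (WN P c).starProjection (EuclideanSpace.single j (1 : ℝ)) = P c (EuclideanSpace.single j 1) := by
    refine Submodule.eq_starProjection_of_mem_of_inner_eq_zero (K := WN P c) (hN.idem c _) ?_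
    intro w hw
    rw [inner_sub_left, hN.symm, mem_WN.1 hw, sub_self]
  rw [h1]

theorem pmB_eq (h0 : 0 < κ) (hk : 𝒜.HK κ) (hN : NegData 𝒜 κ hB C P) (hb : KBun b) :
    OT.pmB (bN h0 hk hN hb) (tbN h0 hk hN hb) h0 (circPhi hB 𝒜) (bN_inv h0 hk hN hb) = mB hN := by
  ext i j c
  exact congrFun (congrFun (pW_WN hN c) i) j

theorem pm_eq (h0 : 0 < κ) (hk : 𝒜.HK κ) (hN : NegData 𝒜 κ hB C P) (hb : KBun b) :
    OT.pm (bN h0 hk hN hb) (tbN h0 hk hN hb) h0 = mG hN := by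
  ext i j c
  exact congrFun (congrFun (pW_WN hN c) i) j

/-- the orientation tensor of the negative bundle, invariant functions -/
def oB (h0 : 0 < κ) (hk : 𝒜.HK κ) (hN : NegData 𝒜 κ hB C P) (hb : KBun b) : (Fin κ → Fin N) → SB (circPhi hB 𝒜) :=
  OT.otB (bN h0 hk hN hb) (tbN h0 hk hN hb) h0 (circPhi hB 𝒜) (bN_inv h0 hk hN hb)

theorem or_oB (h0 : 0 < κ) (hk : 𝒜.HK κ) (hN : NegData 𝒜 κ hB C P) (hb : KBun b) : Or κ (mB hN) (oB h0 hk hN hb) := by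
  rw [← pmB_eq h0 hk hN hb]
  exact OT.or_otB (bN h0 hk hN hb) (tbN h0 hk hN hb) h0 (circPhi hB 𝒜) (bN_inv h0 hk hN hb)

end Pool.Agent.Lib.MP_ccbbf6_gt.L5.NEG
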