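import Pool.Agent.Lib.MP_ccbbf6_gt.L4.FI7
import Pool.Agent.Lib.MP_ccbbf6_gt.L5.INTn
import Pool.Agent.Lib.MP_ccbbf6_gt.L5.IOb
import Pool.Agent.Lib.MP_ccbbf6_gt.L5.NX2

/-!
# NX4: the integral over the sphere bundle of the negative bundle (Level 5, block NEG) (helper93)

`sN : SBun K (spN) (spG)`, `κ = K + 1`; `IN = TG ∘ PI`; for even `K` the fields `I_d`, `I_i`, `I_e`, `I_τ` of `PhiD`.
-/

set_option autoImplicit false
set_option linter.unusedSectionVars false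
set_option maxSynthPendingDepth 3

open Set Filter Topology Metric Real Module Matrix
open scoped ContDiff RealInnerProductSpace

noncomputable section

namespace Pool.Agent.Lib.MP_ccbbf6_gt.L5.NEG

open Geo L4 L4.ORI L4.FR

variable {n : ℕ} {M : Type} [MetricSpace M] [CompactSpace M] {𝒜 : SDist n M} {N κ K : ℕ} {C : Eu N → Gs M → M}
  {P : Gs M → Eu N →L[ℝ] Eu N} {hB : Bl M}

/-- the lifted flow on the frames -/
def circF (h0 : 0 < κ) (hk : 𝒜.HK κ) (hN : NegData 𝒜 κ hB C P) {b : OBun κ (Eu n) (spG 𝒜)} (hb : KBun b) :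
    Circ (bN h0 hk hN hb).F where
  a := ⟨fun z => ⟨((circPhi hB 𝒜).a.1 (z.1.1.1, z.2), z.1.1.2), by
    have h1 := z.1.2
    refine ⟨?_, ?_⟩
    · show OFr ((bN h0 hk hN hb).W ((circPhi hB 𝒜).a.1 (z.1.1.1, z.2))) z.1.1.2
      rw [bN_inv]
      exact h1.1
    · exact (OT.pos_inv (bN h0 hk hN hb) (tbN h0 hk hN hb) h0 (circPhi hB 𝒜) (bN_inv h0 hk hN hb) _ _ h1.1).2 h1.2⟩,
    fun k p => ⟨(circPhi hB 𝒜).a.2 k ⟨fun u => ((p.1 u).1.1.1, (p.1 u).2), p.2.1.1, p.2.2⟩, p.2.1.2⟩⟩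
  zero := fun _ => Subtype.ext (Prod.ext ((circPhi hB 𝒜).zero _) rfl)
  add := fun _ _ _ => Subtype.ext (Prod.ext ((circPhi hB 𝒜).add _ _ _) rfl)
  one := fun _ _ => Subtype.ext (Prod.ext ((circPhi hB 𝒜).one _ _) rfl)

section sphere

variable (h1 : 1 ≤ K) (hk : 𝒜.HK (K + 1)) (hN : NegData 𝒜 (K + 1) hB C P) {b : OBun (K + 1) (Eu n) (spG 𝒜)} (hb : KBun b)

/-- **the sphere bundle of the negative bundle** -/
def sN : SBun K (spN 𝒜 P) (spG 𝒜) :=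
  ((bN (Nat.succ_pos K) hk hN hb).sb h1).iso (ofSN (Nat.succ_pos K) hk hN hb) (toSN (Nat.succ_pos K) hk hN hb)
    (fun _ => rfl) (fun _ => rfl)

theorem sN_pi : (sN h1 hk hN hb).pi = prN 𝒜 P := rfl

theorem sN_ant : (sN h1 hk hN hb).ant = antN 𝒜 P := rfl

theorem PI_sN (θ : Om (spN 𝒜 P)) : (sN h1 hk hN hb).PI θ =
    ((bN (Nat.succ_pos K) hk hN hb).sb h1).PI ((ofSN (Nat.succ_pos K) hk hN hb).pull θ) := rfl

/-- fibre integration is equivariant -/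
theorem i_sN (θ : Om (spN 𝒜 P)) : iO (circPhi hB 𝒜) ((sN h1 hk hN hb).PI θ) =
    (-1 : ℝ) ^ K • (sN h1 hk hN hb).PI (iO (circN hB hN) θ) :=
  (sN h1 hk hN hb).i_PI (circPhi hB 𝒜) (circN hB hN) (circF (Nat.succ_pos K) hk hN hb) (fun _ _ => rfl)
    (fun _ _ => rfl) θ

section meas

variable [MeasurableSpace M] [BorelSpace M]

/-- the integral over the sphere bundle -/
def IN : Om (spN 𝒜 P) →ₗ[ℝ] ℝ where
  toFun θ := TG hB ((sN h1 hk hN hb).PI θ)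
  map_add' θ τ := by rw [SBun.PI_add, map_add]
  map_smul' r θ := by rw [SBun.PI_smul, map_smul, RingHom.id_apply]

theorem IN_apply (θ : Om (spN 𝒜 P)) : IN h1 hk hN hb θ = TG hB ((sN h1 hk hN hb).PI θ) := rfl

theorem IN_d (θ : Om (spN 𝒜 P)) : IN h1 hk hN hb (dO _ θ) = 0 := by
  have h := congrArg (TG hB) ((sN h1 hk hN hb).PI_d θ)
  rw [TG_d, map_smul, smul_eq_mul] at h
  have h2 : (-1 : ℝ) ^ K ≠ 0 := pow_ne_zero _ (by norm_num)
  exact (mul_eq_zero.1 h.symm).resolve_left h2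

theorem kills_i {Θ : Om (spG 𝒜)} (h : iO (circPhi hB 𝒜) Θ = 0) : Kills (phiF hB) Θ := by
  intro k p
  have h1 := on_i (circPhi hB 𝒜) Θ p
  rw [h, on_zero] at h1
  exact h1.symm

theorem IN_i (θ : Om (spN 𝒜 P)) (h : iO (circN hB hN) θ = 0) : IN h1 hk hN hb θ = 0 := by
  refine TG_phi hB (kills_i ?_)
  rw [i_sN, h]
  have h3 := (sN h1 hk hN hb).PI_smul 0 0
  rw [zero_smul, zero_smul] at h3
  rw [h3, smul_zero]

theorem IN_e (he : Even K) (θ : Om (spN 𝒜 P)) (h : sO _ θ = θ) : IN h1 hk hN hb θ = 0 := by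
  refine TG_even hB ?_
  have h2 := (sN h1 hk hN hb).PI_s θ
  rw [h, he.neg_one_pow, one_smul] at h2
  exact h2.symm

theorem IN_ant (he : Even K) (θ : Om (spN 𝒜 P)) : IN h1 hk hN hb ((antN 𝒜 P).pull θ) = -IN h1 hk hN hb θ := by
  have h2 := PI_ant (sN h1 hk hN hb) θ
  rw [pow_succ, he.neg_one_pow, one_mul, neg_one_smul] at h2
  have h3 := congrArg (TG hB) h2
  rw [map_neg] at h3
  exact h3

/-- integration along the fibres -/
theorem IN_mul (θ : Om (spN 𝒜 P)) (w : Om (spG 𝒜)) : IN h1 hk hN hb (θ * (prN 𝒜 P).pull w) =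
    TG hB ((sN h1 hk hN hb).PI θ * w) := by
  have h2 := (sN h1 hk hN hb).PI_mulr w θ
  exact congrArg (TG hB) h2

end meas

end sphere

end Pool.Agent.Lib.MP_ccbbf6_gt.L5.NEG
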