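import Pool.Agent.Lib.MP_ccbbf6_gt.L5.NK

/-!
# NZ: the maps `z_±` on the unit sphere bundle of the negative bundle (Level 5, block NEG; input of PHI) (helper93)
-/

set_option autoImplicit false
set_option linter.unusedSectionVars false

open Set Filter Topology Metric Real Module
open scoped ContDiff RealInnerProductSpace

noncomputable section

namespace Pool.Agent.Lib.MP_ccbbf6_gt.L5.NEG

open Geo L4 L4.ORI L4.FR

variable {n : ℕ} {M : Type} [MetricSpace M] [CompactSpace M] {𝒜 : SDist n M} {N κ : ℕ} {C : Eu N → Gs M → M}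
  {P : Gs M → Eu N →L[ℝ] Eu N} {f : Gs M → Eu N → M}

theorem InP_smul {c : Gs M} {x : Eu N} (h : InP P c x) (r : ℝ) : InP P c (r • x) := by
  show P c (r • x) = r • x
  rw [map_smul]
  exact congrArg _ h

/-- `(z, s) ↦ f c (s • x)`, `z = (c, x)` -/
def hmN (hF : FillP 𝒜 C P f) : SMap (spN 𝒜 P).xR (spM 𝒜) :=
  ⟨fun z => f z.1.1.1 (z.2 • z.1.1.2), fun _ p => hF.smooth p.2.1.1 (p.2.2.smul p.2.1.2)
    fun u => InP_smul (p.1 u).1.2.1 _⟩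

theorem hmN_zero (hF : FillP 𝒜 C P f) (hC : PFam 𝒜 C) (z : (spN 𝒜 P).pt) : (hmN hF).1 (z, 0) = z.1.1.1 0 := by
  show f z.1.1 ((0 : ℝ) • z.1.2) = z.1.1.1 0
  rw [zero_smul]
  obtain ⟨θ, r, -, hr, h⟩ := hF.near
  rw [h z.1.1 0 (map_zero (P z.1.1)) (by rw [norm_zero]; exact hr.le), smul_zero, hC.Cx_zero]

theorem hmN_abs (hF : FillP 𝒜 C P f) (z : (spN 𝒜 P).pt) {s : ℝ} (hs : 1 ≤ |s|) :
    (hmN hF).1 (z, s) = (hmN hF).1 (z, SignType.sign s) := by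
  show f z.1.1 (s • z.1.2) = f z.1.1 ((SignType.sign s : ℝ) • z.1.2)
  have hn : ‖s • z.1.2‖ = |s| := by rw [norm_smul, z.2.2, mul_one, Real.norm_eq_abs]
  rw [hF.radial z.1.1 (s • z.1.2) (InP_smul z.2.1 s) (by rw [hn]; exact hs), hn, smul_smul]
  have h0 : |s| ≠ 0 := by
    intro h
    rw [h] at hs
    linarith
  have h1 := sign_mul_abs s
  have : |s|⁻¹ * s = (SignType.sign s : ℝ) := by
    calc |s|⁻¹ * s = |s|⁻¹ * ((SignType.sign s : ℝ) * |s|) := by rw [h1]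
      _ = (SignType.sign s : ℝ) * (|s|⁻¹ * |s|) := by ring
      _ = (SignType.sign s : ℝ) := by rw [inv_mul_cancel₀ h0, mul_one]
  rw [this]

theorem hmN_neg (hF : FillP 𝒜 C P f) (z : (spN 𝒜 P).pt) (s : ℝ) : (hmN hF).1 ((antN 𝒜 P).1 z, s) = (hmN hF).1 (z, -s) := by
  show f z.1.1 (s • -z.1.2) = f z.1.1 (-s • z.1.2)
  rw [smul_neg, neg_smul]

theorem hmN_inv (hB : Bl M) (hN : NegData 𝒜 κ hB C P) (hF : FillP 𝒜 C P f) (z : (spN 𝒜 P).pt) (t : ℝ) {s : ℝ} (hs : 1 ≤ |s|) :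
    (hmN hF).1 ((circN hB hN).a.1 (z, t), s) = (hmN hF).1 (z, s) := by
  refine hF.inv z.1.1 (s • z.1.2) (2 * π * t) (InP_smul z.2.1 s) ?_
  rw [norm_smul, z.2.2, mul_one, Real.norm_eq_abs]
  exact hs

/-- `z_+` -/
def zpN (hF : FillP 𝒜 C P f) : SMap (spN 𝒜 P) (spM 𝒜) := (hmN hF).comp (jO (spN 𝒜 P) 1)

/-- `z_-` -/
def zmN (hF : FillP 𝒜 C P f) : SMap (spN 𝒜 P) (spM 𝒜) := (hmN hF).comp (jO (spN 𝒜 P) (-1))

theorem zmN_eq (hF : FillP 𝒜 C P f) : zmN hF = (zpN hF).comp (antN 𝒜 P) := SMap_ext fun z => by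
  show (hmN hF).1 (z, -1) = (hmN hF).1 ((antN 𝒜 P).1 z, 1)
  rw [hmN_neg]

theorem zpN_inv (hB : Bl M) (hN : NegData 𝒜 κ hB C P) (hF : FillP 𝒜 C P f) (z : (spN 𝒜 P).pt) (t : ℝ) :
    (zpN hF).1 ((circN hB hN).a.1 (z, t)) = (zpN hF).1 z :=
  hmN_inv hB hN hF z t (s := 1) (by rw [abs_one])

theorem zmN_inv (hB : Bl M) (hN : NegData 𝒜 κ hB C P) (hF : FillP 𝒜 C P f) (z : (spN 𝒜 P).pt) (t : ℝ) :
    (zmN hF).1 ((circN hB hN).a.1 (z, t)) = (zmN hF).1 z :=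
  hmN_inv hB hN hF z t (s := -1) (by rw [abs_neg, abs_one])

/-- the antipode commutes with the circle action -/
theorem antN_circ (hB : Bl M) (hN : NegData 𝒜 κ hB C P) (z : (spN 𝒜 P).pt) (t : ℝ) :
    (antN 𝒜 P).1 ((circN hB hN).a.1 (z, t)) = (circN hB hN).a.1 ((antN 𝒜 P).1 z, t) := rfl

theorem antN_antN (z : (spN 𝒜 P).pt) : (antN 𝒜 P).1 ((antN 𝒜 P).1 z) = z :=
  Subtype.ext (Prod.ext rfl (neg_neg _))

theorem prN_circ (hB : Bl M) (hN : NegData 𝒜 κ hB C P) (z : (spN 𝒜 P).pt) (t : ℝ) :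
    (prN 𝒜 P).1 ((circN hB hN).a.1 (z, t)) = (phiF hB).1 ((prN 𝒜 P).1 z, t) := rfl

end Pool.Agent.Lib.MP_ccbbf6_gt.L5.NEG
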