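import Pool.Agent.Lib.MP_ccbbf6_gt.L4.AL
import Pool.Agent.Lib.MP_ccbbf6_gt.L5.NZ

/-!
# NY: the homotopy from `z_-` to `z_+` in the form of the structure `PhiD` of the block PHI (helper93)
-/

set_option autoImplicit false
set_option linter.unusedSectionVars false

open Set Filter Topology Metric Real Module
open scoped ContDiff RealInnerProductSpace

noncomputable section

namespace Pool.Agent.Lib.MP_ccbbf6_gt.L5.NEG

open Geo L4 L4.ORI L4.FR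

variable {n : ℕ} {M : Type} [MetricSpace M] [CompactSpace M] {𝒜 : SDist n M} {N κ : ℕ} {C : Eu N → Gs M → M}
  {P : Gs M → Eu N →L[ℝ] Eu N} {f : Gs M → Eu N → M}

/-- `(z, s) ↦ f c ((2 s - 1) • x)`, `z = (c, x)`: from `z_-` (`s = 0`) through the foot (`s = 1/2`) to `z_+` (`s = 1`) -/
def FN (hF : FillP 𝒜 C P f) : SMap (spN 𝒜 P).xR (spM 𝒜) :=
  ⟨fun z => f z.1.1.1 ((2 * z.2 - 1) • z.1.1.2), fun _ p =>
    hF.smooth p.2.1.1 (((contDiff_const.mul p.2.2).sub contDiff_const).smul p.2.1.2) fun u => InP_smul (p.1 u).1.2.1 _⟩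

theorem FN_eq (hF : FillP 𝒜 C P f) (z : (spN 𝒜 P).pt) (s : ℝ) : (FN hF).1 (z, s) = (hmN hF).1 (z, 2 * s - 1) := rfl

theorem FN_zero (hF : FillP 𝒜 C P f) : (FN hF).comp (jO (spN 𝒜 P) 0) = zmN hF := SMap_ext fun z => by
  show (FN hF).1 (z, 0) = (hmN hF).1 (z, -1)
  rw [FN_eq]
  norm_num

theorem FN_one (hF : FillP 𝒜 C P f) : (FN hF).comp (jO (spN 𝒜 P) 1) = zpN hF := SMap_ext fun z => by
  show (FN hF).1 (z, 1) = (hmN hF).1 (z, 1)
  rw [FN_eq]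
  norm_num

theorem FN_half (hB : Bl M) (hF : FillP 𝒜 C P f) (hC : PFam 𝒜 C) :
    (FN hF).comp (jO (spN 𝒜 P) (1 / 2)) = (foot hB 0).comp (prN 𝒜 P) := SMap_ext fun z => by
  show (FN hF).1 (z, 1 / 2) = z.1.1.1 0
  rw [FN_eq, ← hmN_zero hF hC z]
  norm_num

theorem FN_anti (hF : FillP 𝒜 C P f) (z : (spN 𝒜 P).pt) (s : ℝ) : (FN hF).1 ((antN 𝒜 P).1 z, s) = (FN hF).1 (z, 1 - s) := by
  have h : -(2 * s - 1) = 2 * (1 - s) - 1 := by ring
  rw [FN_eq, FN_eq, hmN_neg, h]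

theorem FN_inv0 (hB : Bl M) (hN : NegData 𝒜 κ hB C P) (hF : FillP 𝒜 C P f) : IMap (circN hB hN) ((FN hF).comp (jO _ 0)) := by
  rw [FN_zero]
  exact fun z t => zmN_inv hB hN hF z t

theorem FN_inv1 (hB : Bl M) (hN : NegData 𝒜 κ hB C P) (hF : FillP 𝒜 C P f) : IMap (circN hB hN) ((FN hF).comp (jO _ 1)) := by
  rw [FN_one]
  exact fun z t => zpN_inv hB hN hF z t

theorem circN_pr (hB : Bl M) (hN : NegData 𝒜 κ hB C P) (z : (spN 𝒜 P).pt) (t : ℝ) :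
    (prN 𝒜 P).1 ((circN hB hN).a.1 (z, t)) = (circPhi hB 𝒜).a.1 ((prN 𝒜 P).1 z, t) := rfl

end Pool.Agent.Lib.MP_ccbbf6_gt.L5.NEG
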