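import Pool.Agent.Lib.MP_ccbbf6_gt.L5.OT2
import Pool.Agent.Lib.MP_ccbbf6_gt.L5.SIV4
import Pool.Agent.Lib.MP_ccbbf6_gt.L5.UOR12

/-!
# Level 5, PIS: fibre integrals of the forms `psS` (rank four) and `f3S` (rank three); embedded bundles (helper67)

PROOFS.
(1) eq_of_pt: two 0-forms which agree after pull-back to `spV 0` along every `plM P`, `P : X.Plot 0`, are equal: `Dg_fn`, for a plot q over V k and z: `q.cmp (const z)` is a plot over V 0 (see `eq_const`, `on_val` in L4/Cmp4; `on_plM`: the value of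
    (plM P).pull a on idP 0 is on a P).
(2) SI_psS_pt: all points of V 0 are equal, x₀ := (P.1 0).1.1 the base point, a₀ := (P.1 0).1.2 the frame (`OFr`, positive), a j l := a₀ j l. `FHom.psi (FHom.pull e)` with e := b.ptm.comp ((plM P).xP 4) : (spV 0).xP 4 → b.S rewrites e.pull (psi ..) as
    psi of the pulled back data; these are PC (spV 0) a (`OT.pW_eq` at x₀), I ↦ algebraMap (1 * dtn a I) (`oP_eq`, tF a₀ I = det (a₀ j (I k)) = dtn a I), YSF (spV 0) a (‖toE ξ‖⁻¹ • Σ ξ_j a_j; see `abs_gV_base` in UOR13, step e3).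
    Then `SI_psi_PC` with s = 1. Same for f3 with `FHom.f3`, `SI_f3_PC` (the hypotheses Or 3, Sec: transport orS, secS: `Or.map'`, `Sec` under the ring homomorphism pf e; or prove them from the constant data).
(3) PI_psS: `lift.inj`, `q_PI`, (1) for the frame space: degrees: `Deg_psi` (UOR12) gives Deg 3, `Deg_SI` 0; the right side is q.pull 1 = 1. `SI_nat` for plM P. For f3: Deg 2: prove `Deg_f3` from `f3_eq` and `Deg_St`, `Deg_Rv`, `Deg_Dv` (UOR12).
(4) emb: W x := map of the linear isometry; rank: `LinearMap.finrank_map_eq`-type (injective). pos_iff: preimages of a, a' under io x are frames of b.W x, inner products are preserved. loc: from b.loc: v ↦ io (p v) (a v i).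
    `(h.sm p w z)` converts smoothness. embS, ofE: the fibres correspond; smoothness by h.sm. PI_emb: `PI_nat` (INTh) with φ : frame spaces (a ↦ io ∘ a), h = id.
-/

set_option autoImplicit false
set_option maxSynthPendingDepth 3

open Set Filter Topology Matrix

open scoped ContDiff

noncomputable section

namespace Pool.Agent.Lib.MP_ccbbf6_gt.L5

open L4 L4.FR

variable {k r D N : ℕ} {B X : Space}

theorem eq_of_pt {a b : Om X} (ha : Deg 0 a) (hb : Deg 0 b) (h : ∀ P : X.Plot 0, (plM P).pull a = (plM P).pull b) :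
    a = b := by
  have hv : ∀ P : X.Plot 0, L4.FR.val a P = L4.FR.val b P := by
    intro P
    unfold L4.FR.val
    rw [← on_plM P a, ← on_plM P b, h P]
  refine Om_ext fun k q => ?_
  rw [← Dg_fn (ha k q), ← Dg_fn (hb k q)]
  congr 1
  apply Cs_ext
  intro x
  rw [← val_cmp ha q x, ← val_cmp hb q x, hv]

namespace OT

private def PIS_a (b : OBun r (EuclideanSpace ℝ (Fin D)) B) (P : b.F.Plot 0) : Fin r → Fin D → ℝ :=
  fun j l => (P.1 0).1.2 j l

private theorem PIS_on (b : OBun r (EuclideanSpace ℝ (Fin D)) B) (P : b.F.Plot 0) (i j : Fin r) :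
    ∑ x, PIS_a b P i x * PIS_a b P j x = if i = j then 1 else 0 := by
  have h1 := orthonormal_iff_ite.1 (P.1 0).2.1.2 i j
  rw [← h1]
  simp [PIS_a, PiLp.inner_apply, mul_comm]

private theorem PIS_P (b : OBun r (EuclideanSpace ℝ (Fin D)) B) (hb : TBun b) (hr : 0 < r)
    (P : b.F.Plot 0) : (pS b hb hr).map (FHom.pull (b.ptm.comp ((plM P).xP r))).g =
      PC (spV 0) (PIS_a b P) := by
  ext i j z
  show pW (b.W (P.1 z.1.1).1.1) i j = ∑ k, PIS_a b P k i * PIS_a b P k j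
  have hz : z.1.1 = (0 : V 0) := Subsingleton.elim (α := V 0) _ _
  rw [hz]
  exact pW_eq hr (b.rank _) (P.1 0).2.1 i j

private theorem PIS_o (b : OBun r (EuclideanSpace ℝ (Fin D)) B) (hb : TBun b) (hr : 0 < r)
    (P : b.F.Plot 0) : (fun I => (FHom.pull (b.ptm.comp ((plM P).xP r))).g (oS b hb hr I)) =
      fun I => algebraMap ℝ (SF ((spV 0).xP r)) (1 * dtn (PIS_a b P) I) := by
  funext I
  refine Subtype.ext (funext fun z => ?_)
  show oP b (P.1 z.1.1).1.1 I = 1 * dtn (PIS_a b P) I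
  have hz : z.1.1 = (0 : V 0) := Subsingleton.elim (α := V 0) _ _
  rw [hz, oP_eq b hr (P.1 0).2.1 (P.1 0).2.2, one_mul]
  rfl

private theorem PIS_y (b : OBun r (EuclideanSpace ℝ (Fin D)) B) (hb : TBun b)
    (P : b.F.Plot 0) : (fun l => (FHom.pull (b.ptm.comp ((plM P).xP r))).g (yS b hb l)) =
      YSF (spV 0) (PIS_a b P) := by
  funext l
  refine Subtype.ext (funext fun z => ?_)
  show (‖toE z.1.2‖⁻¹ • ∑ i, z.1.2 i • (P.1 z.1.1).1.2 i) l = (YSF (spV 0) (PIS_a b P) l).1 z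
  have e4 : (YSF (spV 0) (PIS_a b P) l).1 z = ∑ j, PIS_a b P j l * hat z.1.2 j := by
    have e5 : vl z (YSF (spV 0) (PIS_a b P) l) = ∑ j, PIS_a b P j l * hat z.1.2 j := by
      unfold YSF
      rw [map_sum]
      exact Finset.sum_congr rfl fun j _ => by rw [map_smul]; rfl
    exact e5
  have hz : z.1.1 = (0 : V 0) := Subsingleton.elim (α := V 0) _ _
  rw [e4, hz, WithLp.ofLp_smul, Pi.smul_apply, smul_eq_mul, WithLp.ofLp_sum, Finset.sum_apply,
    Finset.mul_sum]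
  refine Finset.sum_congr rfl fun j _ => ?_
  rw [WithLp.ofLp_smul, Pi.smul_apply, smul_eq_mul]
  show ‖toE z.1.2‖⁻¹ * (z.1.2 j * (P.1 0).1.2 j l) = (P.1 0).1.2 j l * (‖toE z.1.2‖⁻¹ * z.1.2 j)
  ring

theorem SI_psS_pt (b : OBun 4 (EuclideanSpace ℝ (Fin D)) B) (hb : TBun b) (P : b.F.Plot 0) :
    SI 4 (spV 0) ((b.ptm.comp ((plM P).xP 4)).pull (psS b hb)) = 1 := by
  have h2 := FHom.psi (FHom.pull (b.ptm.comp ((plM P).xP 4))) (P := pS b hb (by norm_num))
    (y := yS b hb) (oS b hb (by norm_num))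
  rw [PIS_P, PIS_o, PIS_y] at h2
  have h3 : (b.ptm.comp ((plM P).xP 4)).pull (psS b hb) = psi (FO ((spV 0).xP 4))
      (PC (spV 0) (PIS_a b P)) (fun I => algebraMap ℝ _ (1 * dtn (PIS_a b P) I))
      (YSF (spV 0) (PIS_a b P)) := h2
  rw [h3, SI_psi_PC (PIS_on b P), map_one]

theorem SI_f3S_pt (b : OBun 3 (EuclideanSpace ℝ (Fin D)) B) (hb : TBun b) (P : b.F.Plot 0) :
    SI 3 (spV 0) ((b.ptm.comp ((plM P).xP 3)).pull (f3S b hb)) = algebraMap ℝ (Om (spV 0)) (-2) := by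
  have h2 := FHom.f3 (FHom.pull (b.ptm.comp ((plM P).xP 3))) (P := pS b hb (by norm_num))
    (y := yS b hb) (o := oS b hb (by norm_num))
  have ho : Or 3 ((pS b hb (by norm_num)).map (FHom.pull (b.ptm.comp ((plM P).xP 3))).g)
      (fun I => (FHom.pull (b.ptm.comp ((plM P).xP 3))).g (oS b hb (by norm_num) I)) :=
    (orS b hb (by norm_num)).map'
      ((FHom.pull (b.ptm.comp ((plM P).xP 3))).g : SF b.S →+* SF ((spV 0).xP 3))
  have hy : Sec ((pS b hb (by norm_num)).map (FHom.pull (b.ptm.comp ((plM P).xP 3))).g)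
      (fun l => (FHom.pull (b.ptm.comp ((plM P).xP 3))).g (yS b hb l)) :=
    (secS b hb (by norm_num)).map (FHom.pull (b.ptm.comp ((plM P).xP 3))).g
  rw [PIS_P, PIS_o] at ho
  rw [PIS_P, PIS_y] at hy
  rw [PIS_P, PIS_o, PIS_y] at h2
  have h3 : (b.ptm.comp ((plM P).xP 3)).pull (f3S b hb) = f3 (FO ((spV 0).xP 3))
      (PC (spV 0) (PIS_a b P)) (fun I => algebraMap ℝ _ (1 * dtn (PIS_a b P) I))
      (YSF (spV 0) (PIS_a b P)) := h2
  rw [h3, SI_f3_PC (PIS_on b P) ho hy, mul_one]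

theorem Deg_psS (b : OBun 4 (EuclideanSpace ℝ (Fin D)) B) (hb : TBun b) : Deg 3 (psS b hb) :=
  Deg_psi _ _ _

theorem Deg_f3S (b : OBun 3 (EuclideanSpace ℝ (Fin D)) B) (hb : TBun b) : Deg 2 (f3S b hb) := by
  unfold f3S
  rw [f3_eq (orS b hb (by norm_num)) (secS b hb (by norm_num))]
  refine Deg_smul _ (Deg_add ?_ ?_)
  · exact Deg_St _ fun I => Deg_mul (i := 0) (j := 2) (Deg_uv _ _) (Deg_Rv _ _ _)
  · exact Deg_St _ fun I => Deg_mul (i := 0) (j := 2) (Deg_uv _ _)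
      (Deg_mul (i := 1) (j := 1) (Deg_Dv _ _ _) (Deg_Dv _ _ _))

private theorem PIS_alg (X : Space) (c : ℝ) : Deg 0 (algebraMap ℝ (Om X) c) := by
  rw [Algebra.algebraMap_eq_smul_one]
  refine Deg_smul _ ?_
  intro k p
  have h1 : Om.on (1 : Om X) p = 1 := rfl
  rw [h1]
  exact Dg_one

/-- **the fibre integral of the angular form** -/
theorem PI_psS (b : OBun 4 (EuclideanSpace ℝ (Fin D)) B) (hb : TBun b) (hN : 1 ≤ 3) : (b.sb hN).PI (psS b hb) = 1 := by
  have h1 : Deg 0 (1 : Om b.F) := by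
    have := PIS_alg b.F 1
    rwa [map_one] at this
  have key : SI 4 b.F (b.ptm.pull (psS b hb)) = 1 := by
    refine eq_of_pt (X := b.F) (Deg_SI (N := 3) (j := 0) (Deg_pull b.ptm (Deg_psS b hb))) h1 fun P => ?_
    rw [map_one, ← SI_nat, ← pull_comp]
    exact SI_psS_pt b hb P
  refine (b.sb hN).lift.inj ?_
  rw [(b.sb hN).q_PI, map_one]
  exact key

/-- **the fibre integral of `f3`** -/
theorem PI_f3S (b : OBun 3 (EuclideanSpace ℝ (Fin D)) B) (hb : TBun b) (hN : 1 ≤ 2) :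
    (b.sb hN).PI (f3S b hb) = algebraMap ℝ (Om B) (-2) := by
  have key : SI 3 b.F (b.ptm.pull (f3S b hb)) = algebraMap ℝ (Om b.F) (-2) := by
    refine eq_of_pt (X := b.F) (Deg_SI (N := 2) (j := 0) (Deg_pull b.ptm (Deg_f3S b hb))) (PIS_alg b.F _) fun P => ?_
    rw [AlgHom.commutes, ← SI_nat, ← pull_comp]
    exact SI_f3S_pt b hb P
  refine (b.sb hN).lift.inj ?_
  rw [(b.sb hN).q_PI, AlgHom.commutes]
  exact key

end OT

/-! ### embedded bundles -/

variable {E E' : Type} [NormedAddCommGroup E] [InnerProductSpace ℝ E] [NormedAddCommGroup E'] [InnerProductSpace ℝ E']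

/-- isometric embedding of the fibres which describes the smooth sections -/
structure IsoE (v : VFld E B) (io : B.pt → E →ₗᵢ[ℝ] E') : Prop where
  sm : ∀ {k : ℕ} (p : B.Plot k) (w : V k → E) (z : V k), v.sAt p w z ↔ ContDiffAt ℝ ∞ (fun y => io (p.1 y) (w y)) z

namespace OBun

variable (b : OBun r E B) {io : B.pt → E →ₗᵢ[ℝ] E'} (h : IsoE b.toVFld io)

theorem emb_rank (x : B.pt) : Module.finrank ℝ ((b.W x).map (io x).toLinearMap) = r := by
  exact (Submodule.equivMapOfInjective (io x).toLinearMap (io x).injective (b.W x)).finrank_eq.symm.trans (b.rank x)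

private theorem PIS_inn {x : B.pt} {c c' : Fin r → E} {a a' : Fin r → E'} (hc : ∀ i, io x (c i) = a i)
    (hc' : ∀ i, io x (c' i) = a' i) (i j : Fin r) : (inner ℝ (a i) (a' j) : ℝ) = inner ℝ (c i) (c' j) := by
  rw [← hc, ← hc', (io x).inner_map_map]

private theorem PIS_pre {x : B.pt} {W : Submodule ℝ E} {a : Fin r → E'}
    (ha : OFr (W.map (io x).toLinearMap) a) : ∃ c : Fin r → E, OFr W c ∧ ∀ i, io x (c i) = a i := by
  choose c hc using fun i => Submodule.mem_map.1 (ha.1 i)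
  have h2 : ∀ i, io x (c i) = a i := fun i => (hc i).2
  refine ⟨c, ⟨fun i => (hc i).1, ?_⟩, h2⟩
  rw [orthonormal_iff_ite]
  intro i j
  rw [← orthonormal_iff_ite.1 ha.2 i j, ← h2, ← h2, (io x).inner_map_map]

private theorem PIS_ofr {x : B.pt} {W : Submodule ℝ E} {a : Fin r → E'} {c : Fin r → E}
    (ha : OFr (W.map (io x).toLinearMap) a) (hc : ∀ i, io x (c i) = a i) : OFr W c := by
  obtain ⟨c', hc', h⟩ := PIS_pre ha
  have e : c = c' := funext fun i => (io x).injective ((hc i).trans (h i).symm)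
  rw [e]
  exact hc'

private theorem PIS_map {x : B.pt} {W : Submodule ℝ E} {c : Fin r → E} (hc : OFr W c) :
    OFr (W.map (io x).toLinearMap) fun i => io x (c i) :=
  ⟨fun i => Submodule.mem_map_of_mem (hc.1 i), hc.2.comp_linearIsometry (io x)⟩

theorem emb_pos_iff (x : B.pt) (a a' : Fin r → E') (ha : OFr ((b.W x).map (io x).toLinearMap) a)
    (ha' : OFr ((b.W x).map (io x).toLinearMap) a') (hp : ∃ c, (∀ i, io x (c i) = a i) ∧ b.pos x c) :
    (∃ c, (∀ i, io x (c i) = a' i) ∧ b.pos x c) ↔ (Matrix.of fun i j => inner ℝ (a i) (a' j)).det = (1 : ℝ) := by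
  obtain ⟨c, hc, hcp⟩ := hp
  have h0 := PIS_ofr ha hc
  obtain ⟨c', h0', hc'⟩ := PIS_pre ha'
  have e : (Matrix.of fun i j => (inner ℝ (a i) (a' j) : ℝ)) = Matrix.of fun i j => (inner ℝ (c i) (c' j) : ℝ) := by
    ext i j
    exact PIS_inn hc hc' i j
  rw [e, ← b.pos_iff x c c' h0 h0' hcp]
  constructor
  · rintro ⟨c'', hc'', hp''⟩
    have e2 : c'' = c' := funext fun i => (io x).injective ((hc'' i).trans (hc' i).symm)
    rw [← e2]
    exact hp''
  · intro hp'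
    exact ⟨c', hc', hp'⟩

include h in
theorem emb_loc (p : B.Plot k) (z : V k) : ∃ a : V k → Fin r → E', ∀ᶠ y in 𝓝 z,
    OFr ((b.W (p.1 y)).map (io (p.1 y)).toLinearMap) (a y) ∧
      (∃ c, (∀ i, io (p.1 y) (c i) = a y i) ∧ b.pos (p.1 y) c) ∧ ∀ i, (triv E' B).sAt p (fun v => a v i) y := by
  obtain ⟨a, ha⟩ := b.loc p z
  refine ⟨fun v i => io (p.1 v) (a v i), ha.mono fun y hy => ⟨PIS_map hy.1, ⟨a y, fun _ => rfl, hy.2.1⟩, fun i => ?_⟩⟩
  exact (h.sm p _ y).1 (hy.2.2 i)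

/-- the embedded bundle -/
def emb : OBun r E' B where
  toVFld := triv E' B
  W x := (b.W x).map (io x).toLinearMap
  pos x a := ∃ c, (∀ i, io x (c i) = a i) ∧ b.pos x c
  rank x := b.emb_rank x
  pos_iff x a a' ha ha' hp := b.emb_pos_iff x a a' ha ha' hp
  loc p z := b.emb_loc h p z

/-- the map of the sphere bundles -/
def embS : SMap b.S (b.emb h).S :=
  ⟨fun z => ⟨(z.1.1, io z.1.1 z.1.2), Submodule.mem_map_of_mem z.2.1, by
    show ‖io z.1.1 z.1.2‖ = 1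
    rw [(io z.1.1).norm_map]
    exact z.2.2⟩, fun _ p => ⟨p.2.1, fun z => (h.sm _ _ z).1 (p.2.2 z)⟩⟩

theorem ofE_mem (z : (b.emb h).S.pt) : ∃ w, io z.1.1 w = z.1.2 ∧ w ∈ b.W z.1.1 ∧ ‖w‖ = 1 := by
  obtain ⟨w, hw, hw2⟩ := Submodule.mem_map.1 z.2.1
  have hw3 : io z.1.1 w = z.1.2 := hw2
  refine ⟨w, hw3, hw, ?_⟩
  rw [← (io z.1.1).norm_map, hw3]
  exact z.2.2

theorem ofE_sm (p : (b.emb h).S.Plot k) (z : V k) :
    b.sAt ⟨_, p.2.1⟩ (fun v => (b.ofE_mem h (p.1 v)).choose) z := by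
  refine (h.sm _ _ z).2 ?_
  have h1 : ContDiffAt ℝ ∞ (fun v => (p.1 v).1.2) z := p.2.2 z
  refine h1.congr_of_eventuallyEq (Eventually.of_forall fun v => ?_)
  exact (b.ofE_mem h (p.1 v)).choose_spec.1

/-- the inverse map -/
def ofE : SMap (b.emb h).S b.S :=
  ⟨fun z => ⟨(z.1.1, (b.ofE_mem h z).choose), (b.ofE_mem h z).choose_spec.2⟩, fun _ p => ⟨p.2.1, fun z => b.ofE_sm h p z⟩⟩

theorem ofE_embS (z : b.S.pt) : (b.ofE h).1 ((b.embS h).1 z) = z := by
  refine Subtype.ext (Prod.ext rfl ?_)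
  exact (io z.1.1).injective (b.ofE_mem h ((b.embS h).1 z)).choose_spec.1

theorem embS_ofE (z : (b.emb h).S.pt) : (b.embS h).1 ((b.ofE h).1 z) = z := by
  refine Subtype.ext (Prod.ext rfl ?_)
  exact (b.ofE_mem h z).choose_spec.1

/-- the map of the frame bundles -/
private def PIS_phi : SMap b.F (b.emb h).F :=
  ⟨fun z => ⟨(z.1.1, fun i => io z.1.1 (z.1.2 i)), PIS_map z.2.1, ⟨z.1.2, fun _ => rfl, z.2.2⟩⟩,
    fun _ p => ⟨p.2.1, fun i z => (h.sm _ _ z).1 (p.2.2 i z)⟩⟩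

end OBun

theorem PI_emb (b : OBun (N + 1) E B) {io : B.pt → E →ₗᵢ[ℝ] E'} (h : IsoE b.toVFld io) (hN : 1 ≤ N)
    (θ : Om (b.emb h).S) : (b.sb hN).PI ((b.embS h).pull θ) = ((b.emb h).sb hN).PI θ := by
  refine PI_nat (b := (b.emb h).sb hN) (b' := b.sb hN) (g := b.embS h) (h := SMap.id B) (b.PIS_phi h)
    (fun _ => rfl) (fun z => ?_) θ
  refine Subtype.ext (Prod.ext rfl ?_)
  show io z.1.1.1.1 (‖toE z.1.2‖⁻¹ • ∑ i, z.1.2 i • z.1.1.1.2 i) =
    ‖toE z.1.2‖⁻¹ • ∑ i, z.1.2 i • io z.1.1.1.1 (z.1.1.1.2 i)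
  rw [map_smul, map_sum]
  refine congrArg _ (Finset.sum_congr rfl fun i _ => ?_)
  rw [map_smul]

theorem TBun_emb (b : OBun r E B) {io : B.pt → E →ₗᵢ[ℝ] EuclideanSpace ℝ (Fin D)} (h : IsoE b.toVFld io)
    (hc : ∀ x : B.pt, (fun _ : V 0 => x) ∈ B.Pl 0) : TBun (b.emb h) where
  sAt _ _ _ h := h
  cst x := ⟨⟨_, hc x⟩, fun _ => rfl⟩

end Pool.Agent.Lib.MP_ccbbf6_gt.L5
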