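import Pool.Agent.Lib.MP_ccbbf6_gt.L5.COH4
import Pool.Agent.Lib.MP_ccbbf6_gt.L5.NX3
import Pool.Agent.Lib.MP_ccbbf6_gt.L5.NX4
import Pool.Agent.Lib.MP_ccbbf6_gt.L5.NY
import Pool.Agent.Lib.MP_ccbbf6_gt.L5.PHN1
import Pool.Agent.Lib.MP_ccbbf6_gt.L5.PIS

/-!
# Level 5, PHN 3: the instance of `NegB` for `κ = 3` (helper56)

`negB` : from `GeoD` (cohomology of the Blaschke manifold) and the negative bundle.
-/

set_option autoImplicit false
set_option maxSynthPendingDepth 3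

open Set Filter Topology Real
open scoped ContDiff RealInnerProductSpace

noncomputable section

namespace Pool.Agent.Lib.MP_ccbbf6_gt.L5.NEG

open Geo L4 L4.ORI L4.FR

section fib

variable {n : ℕ} {M : Type} [MetricSpace M] [CompactSpace M] {𝒜 : SDist n M} {hB : Bl M} {R : ℕ}
  {C : Eu R → Gs M → M} {P : Gs M → Eu R →L[ℝ] Eu R} (hk : 𝒜.HK 3) (hN : NegData 𝒜 3 hB C P)
  {b : OBun 3 (Eu n) (spG 𝒜)} (hb : KBun b)

/-- **the fibre integral of `f`** -/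
theorem PI_fN (h1 : 1 ≤ 2) : (sN (K := 2) h1 hk hN hb).PI (fN hk hN hb) = algebraMap ℝ (Om (spG 𝒜)) (-2) := by
  rw [PI_sN, ← fN_eq, ← pull_comp]
  have h : (toSN lt3 hk hN hb).comp (ofSN lt3 hk hN hb) = SMap.id _ := SMap_ext fun _ => rfl
  have h2 : (toSN lt3 hk hN hb).comp (ofSN (Nat.succ_pos 2) hk hN hb) = SMap.id _ := h
  rw [h2, pull_id]
  exact OT.PI_f3S _ (tbN lt3 hk hN hb) h1

end fib

variable {n' m R : ℕ} {M : Type} [MetricSpace M] [CompactSpace M] {𝒜 : SDist (n' + 1) M} {hB : Bl M}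
  {C : Eu R → Gs M → M} {P : Gs M → Eu R →L[ℝ] Eu R} {f : Gs M → Eu R → M}

variable [MeasurableSpace M] [BorelSpace M]

/-- **the instance of `NegB`**, `κ = 3` -/
def negB (D : GeoD 𝒜 hB 3 m) (hN : NegData 𝒜 3 hB C P) (hF : FillP 𝒜 C P f) (hC : PFam 𝒜 C)
    {b : OBun 3 (Eu (n' + 1)) (spG 𝒜)} (hb : KBun b) : NegB (spN 𝒜 P) (spG 𝒜) (spM 𝒜) (spF 𝒜) n' 2 m 2 where
  D := D.coh
  hq := rfl
  hq2 := le_rfl
  B := sN (K := 2) one_le_two D.hk hN hb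
  cG := circPhi hB 𝒜
  c := circN hB hN
  pic _ _ := rfl
  antc _ _ := rfl
  anta z := by
    show (antN 𝒜 P).1 ((antN 𝒜 P).1 z) = z
    exact Subtype.ext (Prod.ext rfl (neg_neg z.1.2))
  PI_i θ h := by
    rw [i_sN, h]
    have h3 := (sN (K := 2) one_le_two D.hk hN hb).PI_smul 0 0
    rw [zero_smul, zero_smul] at h3
    rw [h3, smul_zero]
  TG := TG hB
  TG_d := TG_d hB
  TG_i x h := TG_phi hB (kills_i h)
  TG_e x h := TG_even hB h
  η := AL hB 𝒜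
  η1 := AL_deg hB
  iη := AL_i hB
  idη := AL_id hB
  fl := FN hF
  fl0 := FN_inv0 hB hN hF
  fl1 := FN_inv1 hB hN hF
  flτ z s := FN_anti hF z s
  flh z := by
    have h := congrFun (congrArg Subtype.val (FN_half hB hF hC)) z
    show (FN hF).1 (z, 1 / 2) = (show Gs M from (prN 𝒜 P).1 z).1 (π * 0)
    rw [mul_zero]
    exact h
  f := -fN D.hk hN hb
  fd := Deg_neg (Deg_fN D.hk hN hb)
  df := by rw [map_neg, d_fN, neg_zero]
  jf := by
    have h : iO (circN hB hN) (fN D.hk hN hb) = 0 := Bas_i _ ((bas_iff _ _).2 (fB D.hk hN hb).2)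
    rw [map_neg, h, neg_zero]
  f2 := by
    have h := (sN (K := 2) one_le_two D.hk hN hb).PI_smul (-1) (fN D.hk hN hb)
    rw [neg_one_smul, neg_one_smul, PI_fN] at h
    rw [h, ← map_neg, neg_neg]
  fa := by
    rw [map_neg]
    congr 1
    exact ant_fN D.hk hN hb
  gc := D.cG
  p0 := ⟨fun _ => D.f0.1.1, fun _ => smAt_const _ _⟩

theorem negB_eps (D : GeoD 𝒜 hB 3 m) (hN : NegData 𝒜 3 hB C P) (hF : FillP 𝒜 C P f) (hC : PFam 𝒜 C)
    {b : OBun 3 (Eu (n' + 1)) (spG 𝒜)} (hb : KBun b) : (negB D hN hF hC hb).D.eps = D.ep := rfl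

end Pool.Agent.Lib.MP_ccbbf6_gt.L5.NEG
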