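import Pool.Agent.Lib.MP_ccbbf6_gt.L5.TP01

/-!
# Level 5, block 3PT 2: the three point formula in a ring (helper56)

* `evS u : ℝ⟦X⟧ →+* R⟦X⟧`, `P ↦ P (u X)`; `Asr b u v = 1 + b (u + v) X + (u - v)^2 X^2`;
* `zser b P m u1 u2 u3 : R⟦X⟧` : the series `P (u1 X) / (Asr u1 u2 * Asr u1 u3)` (truncated in `u2`, `u3`);
* `zser_eq` : if `evS u1 P = Z * Asr u1 u2 * Asr u1 u3` and `u2 ^ (m+1) = u3 ^ (m+1) = 0` then `Z = zser`;
* `tp_fun` : the evaluation rule `L (u1^i u2^j u3^l) = c D_j D_l` and `(u2 - u3) zser_j = 0` (`j ≥ 2 m - 3`) give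
  the hypothesis of `three_point`.
-/

set_option autoImplicit false

open PowerSeries Finset

noncomputable section

namespace Pool.Agent.Lib.MP_ccbbf6_gt.L5

variable {R R' : Type*} [CommRing R] [Algebra ℝ R] [CommRing R'] [Algebra ℝ R']

/-- `P ↦ P (u X)` -/
def evS (u : R) : PowerSeries ℝ →+* PowerSeries R := (rescale u).comp (PowerSeries.map (algebraMap ℝ R))

lemma coeff_evS (u : R) (P : PowerSeries ℝ) (j : ℕ) : coeff j (evS u P) = coeff j P • u ^ j := by
  unfold evS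
  rw [RingHom.comp_apply, coeff_rescale, coeff_map, Algebra.smul_def, mul_comm]

lemma evS_C (u : R) (r : ℝ) : evS u (C r) = C (algebraMap ℝ R r) := by
  ext j
  rw [coeff_evS, coeff_C, coeff_C]
  split_ifs with h
  · rw [h, pow_zero, Algebra.smul_def, mul_one]
  · rw [zero_smul]

lemma evS_X (u : R) : evS u (X : PowerSeries ℝ) = C u * X := by
  ext j
  rw [coeff_evS, coeff_X, coeff_C_mul, coeff_X]
  split_ifs with h
  · rw [h, one_smul, pow_one, mul_one]
  · rw [zero_smul, mul_zero]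

/-- the total Pontryagin class of the bundle `V` -/
def Asr (b : ℝ) (u v : R) : PowerSeries R := 1 + C (b • (u + v)) * X + C ((u - v) ^ 2) * X ^ 2

lemma Asr_eq (b : ℝ) (u v : R) :
    Asr b u v = evS u (Aser b) + evS u (Bser b) * (C v * X) + (C v * X) ^ 2 := by
  unfold Asr Aser Bser
  simp only [map_add, map_sub, map_mul, map_one, map_pow, evS_C, evS_X, map_ofNat]
  rw [show b • (u + v) = algebraMap ℝ R b * u + algebraMap ℝ R b * v by
    rw [Algebra.smul_def, mul_add]]
  simp only [map_add, map_mul]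
  ring

/-- partial inverses of `Asr` -/
def Gsr (b : ℝ) (K : ℕ) (u v : R) : PowerSeries R := ∑ k ∈ range K, evS u (gser b k) * (C v * X) ^ k

lemma Asr_mul_Gsr (b : ℝ) (K : ℕ) (u v : R) :
    Asr b u v * Gsr b (K + 2) u v = 1 + evS u (Bser b * gser b (K + 1) + gser b K) * (C v * X) ^ (K + 2) +
      evS u (gser b (K + 1)) * (C v * X) ^ (K + 3) := by
  rw [Asr_eq]
  induction K with
  | zero =>
    have h0 : evS u (Aser b) * evS u (gser b 0) = 1 := by rw [← map_mul, gser_zero, map_one]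
    have h1 : evS u (Aser b) * evS u (gser b 1) + evS u (Bser b) * evS u (gser b 0) = 0 := by
      rw [← map_mul, ← map_mul, ← map_add, gser_one, map_zero]
    unfold Gsr
    rw [sum_range_succ, sum_range_succ, sum_range_zero]
    simp only [zero_add, map_add, map_mul, pow_zero, mul_one, pow_one]
    linear_combination h0 + (C v * X) * h1
  | succ K ih =>
    have h2 : evS u (Aser b) * evS u (gser b (K + 2)) + evS u (Bser b) * evS u (gser b (K + 1)) +
        evS u (gser b K) = 0 := by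
      rw [← map_mul, ← map_mul, ← map_add, ← map_add, gser_succ, map_zero]
    have e : Gsr b (K + 1 + 2) u v = Gsr b (K + 2) u v + evS u (gser b (K + 2)) * (C v * X) ^ (K + 2) := by
      unfold Gsr
      rw [sum_range_succ]
    rw [e, mul_add, ih]
    simp only [map_add, map_mul]
    linear_combination (C v * X) ^ (K + 2) * h2

lemma Asr_mul_Gsr_one (b : ℝ) {m : ℕ} (hm : 1 ≤ m) {u v : R} (hv : v ^ (m + 1) = 0) :
    Asr b u v * Gsr b (m + 1) u v = 1 := by
  obtain ⟨K, rfl⟩ : ∃ K, m = K + 1 := ⟨m - 1, by omega⟩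
  have h := Asr_mul_Gsr b K u v
  have h2 : (C v * X : PowerSeries R) ^ (K + 2) = 0 := by
    rw [mul_pow, ← map_pow, show K + 2 = K + 1 + 1 by rfl, hv, map_zero, zero_mul]
  have h3 : (C v * X : PowerSeries R) ^ (K + 3) = 0 := by
    rw [pow_succ, h2, zero_mul]
  rw [h2, h3, mul_zero, mul_zero, add_zero, add_zero] at h
  exact h

/-- `P (u1 X) / (Asr u1 u2 * Asr u1 u3)` -/
def zser (b : ℝ) (P : PowerSeries ℝ) (m : ℕ) (u1 u2 u3 : R) : PowerSeries R :=
  evS u1 P * Gsr b (m + 1) u1 u2 * Gsr b (m + 1) u1 u3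

lemma zser_eq {b : ℝ} {P : PowerSeries ℝ} {m : ℕ} (hm : 1 ≤ m) {u1 u2 u3 : R} (h2 : u2 ^ (m + 1) = 0)
    (h3 : u3 ^ (m + 1) = 0) {Z : PowerSeries R} (h : evS u1 P = Z * Asr b u1 u2 * Asr b u1 u3) :
    Z = zser b P m u1 u2 u3 := by
  unfold zser
  rw [h]
  have e2 := Asr_mul_Gsr_one b hm (u := u1) h2
  have e3 := Asr_mul_Gsr_one b hm (u := u1) h3
  linear_combination (-(Z * Asr b u1 u3 * Gsr b (m + 1) u1 u3)) * e2 - Z * e3

lemma map_evS (f : R →ₐ[ℝ] R') (u : R) (P : PowerSeries ℝ) :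
    PowerSeries.map (f : R →+* R') (evS u P) = evS (f u) P := by
  ext j
  rw [coeff_map, coeff_evS, coeff_evS]
  change f (coeff j P • u ^ j) = coeff j P • (f u) ^ j
  rw [map_smul, map_pow]

lemma map_Gsr (f : R →ₐ[ℝ] R') (b : ℝ) (K : ℕ) (u v : R) :
    PowerSeries.map (f : R →+* R') (Gsr b K u v) = Gsr b K (f u) (f v) := by
  unfold Gsr
  rw [map_sum]
  refine sum_congr rfl fun k _ => ?_
  rw [map_mul, map_pow, map_mul, map_evS, map_C, map_X]
  rfl

lemma map_zser (f : R →ₐ[ℝ] R') (b : ℝ) (P : PowerSeries ℝ) (m : ℕ) (u1 u2 u3 : R) :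
    PowerSeries.map (f : R →+* R') (zser b P m u1 u2 u3) = zser b P m (f u1) (f u2) (f u3) := by
  unfold zser
  rw [map_mul, map_mul, map_evS, map_Gsr, map_Gsr]

lemma map_zser_coeff (f : R →ₐ[ℝ] R') (b : ℝ) (P : PowerSeries ℝ) (m : ℕ) (u1 u2 u3 : R) (j : ℕ) :
    f (coeff j (zser b P m u1 u2 u3)) = coeff j (zser b P m (f u1) (f u2) (f u3)) := by
  rw [← map_zser, coeff_map]
  rfl

lemma zser_sum (b : ℝ) (P : PowerSeries ℝ) (m : ℕ) (u1 u2 u3 : R) :
    zser b P m u1 u2 u3 = ∑ k ∈ range (m + 1), ∑ l ∈ range (m + 1),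
      evS u1 (P * gser b k * gser b l) * (C (u2 ^ k * u3 ^ l) * X ^ (k + l)) := by
  unfold zser Gsr
  rw [mul_assoc, sum_mul_sum, mul_sum]
  refine sum_congr rfl fun k _ => ?_
  rw [mul_sum]
  refine sum_congr rfl fun l _ => ?_
  simp only [map_mul, map_pow, mul_pow, pow_add]
  ring

lemma coeff_term (Q : PowerSeries ℝ) (u1 c : R) (n j : ℕ) :
    coeff j (evS u1 Q * (C c * X ^ n)) = coeff j (X ^ n * Q) • (u1 ^ (j - n) * c) := by
  rw [← mul_assoc, coeff_mul_X_pow', mul_comm (X ^ n) Q, coeff_mul_X_pow']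
  split_ifs with h
  · rw [mul_comm (evS u1 Q) (C c), coeff_C_mul, coeff_evS, mul_smul_comm, mul_comm c]
  · rw [zero_smul]

/-! ### The functional -/

/-- the function `[j = m - 1] - [j = m]` -/
def Dm (m j : ℕ) : ℝ := (if j + 1 = m then 1 else 0) - (if j = m then 1 else 0)

/-- `∑_k D (k + i) X ^ k g_k` -/
def Sm (b : ℝ) (m i : ℕ) : PowerSeries ℝ := ∑ k ∈ range (m + 1), C (Dm m (k + i)) * X ^ k * gser b k

lemma Sm_zero (b : ℝ) (K : ℕ) : Sm b (K + 2) 0 = -(X ^ (K + 1) * aser b (K + 2)) := by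
  have e : ∀ k ∈ range (K + 2 + 1), C (Dm (K + 2) (k + 0)) * X ^ k * gser b k =
      (if k = K + 1 then X ^ k * gser b k else 0) - (if k = K + 2 then X ^ k * gser b k else 0) := by
    intro k _
    have e1 : Dm (K + 2) (k + 0) = (if k = K + 1 then 1 else 0) - (if k = K + 2 then 1 else 0) := by
      unfold Dm
      congr 1
      refine if_congr ?_ rfl rfl
      omega
    rw [e1]
    split_ifs <;> simp
  unfold Sm
  rw [sum_congr rfl e, sum_sub_distrib, sum_ite_eq', sum_ite_eq', if_pos (mem_range.2 (by omega)),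
    if_pos (mem_range.2 (by omega))]
  change X ^ (K + 1) * gser b (K + 1) - X ^ (K + 2) * gser b (K + 2) =
    -(X ^ (K + 1) * (X * gser b (K + 2) - gser b (K + 1)))
  ring

lemma Sm_one (b : ℝ) (K : ℕ) : Sm b (K + 2) 1 = -(X ^ K * aser b (K + 1)) := by
  have e : ∀ k ∈ range (K + 2 + 1), C (Dm (K + 2) (k + 1)) * X ^ k * gser b k =
      (if k = K then X ^ k * gser b k else 0) - (if k = K + 1 then X ^ k * gser b k else 0) := by
    intro k _
    have e1 : Dm (K + 2) (k + 1) = (if k = K then 1 else 0) - (if k = K + 1 then 1 else 0) := by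
      unfold Dm
      congr 1 <;>
      · refine if_congr ?_ rfl rfl
        omega
    rw [e1]
    split_ifs <;> simp
  unfold Sm
  rw [sum_congr rfl e, sum_sub_distrib, sum_ite_eq', sum_ite_eq', if_pos (mem_range.2 (by omega)),
    if_pos (mem_range.2 (by omega))]
  change X ^ K * gser b K - X ^ (K + 1) * gser b (K + 1) = -(X ^ K * (X * gser b (K + 1) - gser b K))
  ring

lemma Sm_two (b : ℝ) (K : ℕ) : X * Sm b (K + 2) 2 = -(X ^ K * aser b K) := by
  cases K with
  | zero =>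
    have e : ∀ k ∈ range (0 + 2 + 1), C (Dm (0 + 2) (k + 2)) * X ^ k * gser b k =
        -(if k = 0 then X ^ k * gser b k else 0) := by
      intro k _
      have e1 : Dm (0 + 2) (k + 2) = -(if k = 0 then 1 else 0) := by
        unfold Dm
        rw [if_neg (by omega), zero_sub]
        congr 1
        refine if_congr ?_ rfl rfl
        omega
      rw [e1]
      split_ifs <;> simp
    unfold Sm
    rw [sum_congr rfl e, sum_neg_distrib, sum_ite_eq', if_pos (mem_range.2 (by omega))]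
    change X * -(X ^ 0 * gser b 0) = -(X ^ 0 * (X * gser b 0))
    ring
  | succ K =>
    have e : ∀ k ∈ range (K + 1 + 2 + 1), C (Dm (K + 1 + 2) (k + 2)) * X ^ k * gser b k =
        (if k = K then X ^ k * gser b k else 0) - (if k = K + 1 then X ^ k * gser b k else 0) := by
      intro k _
      have e1 : Dm (K + 1 + 2) (k + 2) = (if k = K then 1 else 0) - (if k = K + 1 then 1 else 0) := by
        unfold Dm
        congr 1 <;>
        · refine if_congr ?_ rfl rfl
          omega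
      rw [e1]
      split_ifs <;> simp
    unfold Sm
    rw [sum_congr rfl e, sum_sub_distrib, sum_ite_eq', sum_ite_eq', if_pos (mem_range.2 (by omega)),
      if_pos (mem_range.2 (by omega))]
    change X * (X ^ K * gser b K - X ^ (K + 1) * gser b (K + 1)) = -(X ^ (K + 1) * (X * gser b (K + 1) - gser b K))
    ring

lemma Sm_key (b : ℝ) (K : ℕ) :
    Sm b (K + 2) 1 * Sm b (K + 2) 1 - Sm b (K + 2) 0 * Sm b (K + 2) 2 = X ^ (2 * K) * Wser b K := by
  have e : Sm b (K + 2) 0 * Sm b (K + 2) 2 = -(X ^ K * aser b (K + 2)) * (X * Sm b (K + 2) 2) := by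
    rw [Sm_zero]
    ring
  rw [e, Sm_two, Sm_one]
  unfold Wser
  ring

/-- the sum of the coefficients -/
lemma sum_Sm (b : ℝ) (P : PowerSeries ℝ) (m i i' j : ℕ) :
    ∑ k ∈ range (m + 1), ∑ l ∈ range (m + 1),
      coeff j (X ^ (k + l) * (P * gser b k * gser b l)) * (Dm m (k + i) * Dm m (l + i')) =
      coeff j (P * (Sm b m i * Sm b m i')) := by
  unfold Sm
  rw [sum_mul_sum, mul_sum, map_sum]
  refine sum_congr rfl fun k _ => ?_
  rw [mul_sum, map_sum]
  refine sum_congr rfl fun l _ => ?_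
  have e : P * (C (Dm m (k + i)) * X ^ k * gser b k * (C (Dm m (l + i')) * X ^ l * gser b l)) =
      C (Dm m (k + i) * Dm m (l + i')) * (X ^ (k + l) * (P * gser b k * gser b l)) := by
    rw [map_mul, pow_add]
    ring
  rw [e, coeff_C_mul, mul_comm]

/-- **The three point functional.** -/
theorem tp_fun (L : R →ₗ[ℝ] ℝ) {b c : ℝ} (hc : c ≠ 0) {K : ℕ} {P : PowerSeries ℝ} {u1 u2 u3 : R}
    (hL : ∀ i j l, i + j + l = 3 * K + 4 → L (u1 ^ i * u2 ^ j * u3 ^ l) = c * (Dm (K + 2) j * Dm (K + 2) l))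
    (hF : ∀ j, 2 * K + 1 ≤ j → ∀ x, L ((u2 - u3) * coeff j (zser b P (K + 2) u1 u2 u3) * x) = 0)
    (j : ℕ) (hj : 1 ≤ j) (hj' : j ≤ K + 2) : coeff j (P * Wser b K) = 0 := by
  obtain ⟨a, ha⟩ : ∃ a, a + j = K + 2 := ⟨K + 2 - j, by omega⟩
  have h1 := hF (2 * K + j) (by omega) (u1 ^ a * u3)
  rw [zser_sum, map_sum, mul_sum, sum_mul, map_sum] at h1
  have e : ∀ k ∈ range (K + 2 + 1), L ((u2 - u3) * coeff (2 * K + j) (∑ l ∈ range (K + 2 + 1),
      evS u1 (P * gser b k * gser b l) * (C (u2 ^ k * u3 ^ l) * X ^ (k + l))) * (u1 ^ a * u3)) =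
      ∑ l ∈ range (K + 2 + 1), (coeff (2 * K + j) (X ^ (k + l) * (P * gser b k * gser b l)) *
        (Dm (K + 2) (k + 1) * Dm (K + 2) (l + 1)) * c -
        coeff (2 * K + j) (X ^ (k + l) * (P * gser b k * gser b l)) *
        (Dm (K + 2) (k + 0) * Dm (K + 2) (l + 2)) * c) := by
    intro k _
    rw [map_sum, mul_sum, sum_mul, map_sum]
    refine sum_congr rfl fun l _ => ?_
    rw [coeff_term]
    by_cases h : k + l ≤ 2 * K + j
    · have e2 : (u2 - u3) * (coeff (2 * K + j) (X ^ (k + l) * (P * gser b k * gser b l)) •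
          (u1 ^ (2 * K + j - (k + l)) * (u2 ^ k * u3 ^ l))) * (u1 ^ a * u3) =
          coeff (2 * K + j) (X ^ (k + l) * (P * gser b k * gser b l)) •
            (u1 ^ (2 * K + j - (k + l) + a) * u2 ^ (k + 1) * u3 ^ (l + 1)) -
          coeff (2 * K + j) (X ^ (k + l) * (P * gser b k * gser b l)) •
            (u1 ^ (2 * K + j - (k + l) + a) * u2 ^ (k + 0) * u3 ^ (l + 2)) := by
        rw [← smul_sub, mul_smul_comm, smul_mul_assoc]
        congr 1
        ring
      rw [e2, map_sub, map_smul, map_smul, hL _ _ _ (by omega), hL _ _ _ (by omega), smul_eq_mul, smul_eq_mul]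
      ring
    · have e3 : coeff (2 * K + j) (X ^ (k + l) * (P * gser b k * gser b l)) = 0 := by
        rw [coeff_X_pow_mul', if_neg h]
      rw [e3, zero_smul, mul_zero, zero_mul, map_zero]
      ring
  rw [sum_congr rfl e] at h1
  simp only [sum_sub_distrib, ← sum_mul] at h1
  rw [sum_Sm, sum_Sm, ← sub_mul] at h1
  have h2 := (mul_eq_zero.1 h1).resolve_right hc
  rw [← map_sub, ← mul_sub, Sm_key, ← mul_assoc, mul_comm P, mul_assoc, coeff_X_pow_mul',
    if_pos (by omega), show 2 * K + j - 2 * K = j by omega] at h2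
  exact h2

end Pool.Agent.Lib.MP_ccbbf6_gt.L5
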