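import Pool.Agent.Lib.MP_ccbbf6_gt.L5.CW3

/-!
# Level 5, block 3PT 7: complements of two transversal subbundles, Pontryagin series (helper56)

* `SF_unit` : nowhere vanishing smooth functions are units;
* `cmpl` : for symmetric idempotents `P12, P13 ≤ P1` over `SF X` with `V12 ∩ V13 = 0`: the complement `Z` of
  `V12 + V13` in `P1` : `hps P1 = hps Z + hps P12 + hps P13`, rank `tr P1 - tr P12 - tr P13`;
* `PTc c p` : the series of the Pontryagin classes `p_(c j)`, `PTc_add`.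
-/

set_option autoImplicit false
set_option maxSynthPendingDepth 3
set_option linter.unusedSectionVars false

open Matrix
open scoped ContDiff

noncomputable section

namespace Pool.Agent.Lib.MP_ccbbf6_gt.L5

open L4 L4.FR

variable {X : Space} {ι κ : Type*} [Fintype ι] [DecidableEq ι]

/-- nowhere vanishing smooth functions are units -/
theorem SF_unit {f : SF X} (h : ∀ x, vl x f ≠ 0) : IsUnit f := by
  have hs : SmO X fun x => (f.1 x)⁻¹ := fun k p => (f.2 k p).inv fun z => h (p.1 z)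
  refine IsUnit.of_mul_eq_one (b := (⟨fun x => (f.1 x)⁻¹, hs⟩ : SF X)) (SF_ext fun x => ?_)
  rw [map_mul, map_one]
  exact mul_inv_cancel₀ (h x)

section alg

variable {A : Type*} [CommRing A]

/-- the data of two transversal subbundles -/
structure Tr2 (P1 P12 P13 : Matrix ι ι A) : Prop where
  i1 : P1 * P1 = P1
  i2 : P12 * P12 = P12
  i3 : P13 * P13 = P13
  l2 : P1 * P12 = P12
  l2' : P12 * P1 = P12
  l3 : P1 * P13 = P13
  l3' : P13 * P1 = P13

variable {P1 P12 P13 : Matrix ι ι A}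

namespace Tr2

/-- the operator which must be invertible -/
def C (P1 P12 P13 : Matrix ι ι A) : Matrix ι ι A := P13 * (P1 - P12) * P13 + (1 - P13)

/-- the complement of `P12` -/
def R (P1 P12 : Matrix ι ι A) : Matrix ι ι A := P1 - P12

/-- the image of `P13` in the complement of `P12` -/
def Q (P1 P12 P13 : Matrix ι ι A) : Matrix ι ι A :=
  (P1 - P12) * P13 * (C P1 P12 P13)⁻¹ * P13 * (P1 - P12)

/-- the complement of both -/
def Z (P1 P12 P13 : Matrix ι ι A) : Matrix ι ι A := R P1 P12 - Q P1 P12 P13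

variable (h : Tr2 P1 P12 P13) (hC : IsUnit (C P1 P12 P13).det)

include h in
theorem R_R : (P1 - P12) * (P1 - P12) = P1 - P12 := by
  rw [sub_mul, mul_sub, mul_sub, h.i1, h.l2, h.l2', h.i2, sub_self, sub_zero]

include h in
theorem C_comm : C P1 P12 P13 * P13 = P13 * C P1 P12 P13 := by
  unfold C
  obtain ⟨S, hS⟩ : ∃ S, S = P1 - P12 := ⟨_, rfl⟩
  rw [← hS, add_mul, mul_add, sub_mul, mul_sub, one_mul, mul_one, h.i3, mul_assoc (P13 * S) P13 P13, h.i3,
    ← mul_assoc P13 (P13 * S) P13, ← mul_assoc P13 P13, h.i3]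

include h in
theorem C_P : C P1 P12 P13 * P13 = P13 * (P1 - P12) * P13 := by
  unfold C
  rw [add_mul, sub_mul, one_mul, h.i3, sub_self, add_zero, mul_assoc (P13 * (P1 - P12)) P13 P13, h.i3]

include h hC in
theorem D_comm : (C P1 P12 P13)⁻¹ * P13 = P13 * (C P1 P12 P13)⁻¹ := by
  have h1 := h.C_comm
  have e1 : (C P1 P12 P13)⁻¹ * C P1 P12 P13 = 1 := nonsing_inv_mul _ hC
  have e2 : C P1 P12 P13 * (C P1 P12 P13)⁻¹ = 1 := mul_nonsing_inv _ hC
  calc (C P1 P12 P13)⁻¹ * P13 = (C P1 P12 P13)⁻¹ * (P13 * C P1 P12 P13) * (C P1 P12 P13)⁻¹ := by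
        rw [mul_assoc, mul_assoc P13, e2, mul_one]
    _ = (C P1 P12 P13)⁻¹ * C P1 P12 P13 * P13 * (C P1 P12 P13)⁻¹ := by rw [← h1, ← mul_assoc]
    _ = P13 * (C P1 P12 P13)⁻¹ := by rw [e1, one_mul]

include h hC in
theorem D_key : (C P1 P12 P13)⁻¹ * (P13 * (P1 - P12) * P13) = P13 := by
  rw [← h.C_P, ← mul_assoc, nonsing_inv_mul _ hC, one_mul]

/-- `V13 → V` -/
def ma (P1 P12 P13 : Matrix ι ι A) : Matrix ι ι A := (P1 - P12) * P13
/-- `V → V13` -/
def mb (P1 P12 P13 : Matrix ι ι A) : Matrix ι ι A := (C P1 P12 P13)⁻¹ * P13 * (P1 - P12)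

theorem ma_mb : ma P1 P12 P13 * mb P1 P12 P13 = Q P1 P12 P13 := by
  unfold ma mb Q
  simp only [mul_assoc]

include h hC in
theorem mb_ma : mb P1 P12 P13 * ma P1 P12 P13 = P13 := by
  have e : mb P1 P12 P13 * ma P1 P12 P13 = (C P1 P12 P13)⁻¹ * (P13 * ((P1 - P12) * (P1 - P12)) * P13) := by
    unfold ma mb
    simp only [mul_assoc]
  rw [e, h.R_R, h.D_key hC]

include h hC in
theorem Q_Q : Q P1 P12 P13 * Q P1 P12 P13 = Q P1 P12 P13 := by
  have e : Q P1 P12 P13 * Q P1 P12 P13 = ma P1 P12 P13 * (mb P1 P12 P13 * ma P1 P12 P13) * mb P1 P12 P13 := by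
    rw [← ma_mb]
    simp only [mul_assoc]
  have e2 : ma P1 P12 P13 * P13 = ma P1 P12 P13 := by
    unfold ma
    rw [mul_assoc, h.i3]
  rw [e, h.mb_ma hC, e2, ma_mb]

include h in
theorem R_Q : (P1 - P12) * Q P1 P12 P13 = Q P1 P12 P13 := by
  unfold Q
  simp only [← mul_assoc]
  rw [h.R_R]

include h in
theorem Q_R : Q P1 P12 P13 * (P1 - P12) = Q P1 P12 P13 := by
  unfold Q
  rw [mul_assoc _ (P1 - P12) (P1 - P12), h.R_R]

include h hC in
theorem Z_Z : Z P1 P12 P13 * Z P1 P12 P13 = Z P1 P12 P13 := by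
  have h1 := h.R_R
  have h2 := h.R_Q
  have h3 := h.Q_R
  unfold Z R
  generalize P1 - P12 = S at *
  rw [sub_mul, mul_sub, mul_sub, h1, h2, h3, h.Q_Q hC, sub_self, sub_zero]

include h hC in
theorem Z_Q : Z P1 P12 P13 * Q P1 P12 P13 = 0 := by
  unfold Z R
  rw [sub_mul, h.R_Q, h.Q_Q hC, sub_self]

include h hC in
theorem Q_Z : Q P1 P12 P13 * Z P1 P12 P13 = 0 := by
  unfold Z R
  rw [mul_sub, h.Q_R, h.Q_Q hC, sub_self]

include h in
theorem P_R : P12 * (P1 - P12) = 0 := by rw [mul_sub, h.l2', h.i2, sub_self]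

include h in
theorem R_P : (P1 - P12) * P12 = 0 := by rw [sub_mul, h.l2, h.i2, sub_self]

include h hC in
theorem tr_Z : trace (Z P1 P12 P13) = trace P1 - trace P12 - trace P13 := by
  have h1 : trace (Q P1 P12 P13) = trace P13 := by
    rw [← ma_mb, trace_mul_comm, h.mb_ma hC]
  unfold Z R
  rw [trace_sub, trace_sub, h1]

end Tr2

end alg

/-! ### Over the smooth functions -/

section sf

variable {P1 P12 P13 : Matrix ι ι (SF X)}

/-- ranks of idempotents -/
theorem rank_le_of_trace {P : Matrix ι ι ℝ} (hP : P * P = P) {r : ℕ} (h : trace P ≤ r) : P.rank ≤ r := by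
  obtain ⟨a, b, h1, h2⟩ := exists_split hP
  have h3 : trace P = (P.rank : ℝ) := by
    conv_lhs => rw [← h1, trace_mul_comm, h2, trace_one, Fintype.card_fin]
  rw [h3] at h
  exact_mod_cast h

theorem C_map (x : X.pt) : (Tr2.C P1 P12 P13).map (vl x) = Tr2.C (P1.map (vl x)) (P12.map (vl x)) (P13.map (vl x)) := by
  have hm : ∀ M : Matrix ι ι (SF X), M.map (vl x) = (vl x).mapMatrix M := fun _ => rfl
  unfold Tr2.C
  rw [hm, hm, hm, hm, map_add, map_mul, map_mul, map_sub, map_sub, map_one]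

theorem dot_symm {S : Matrix ι ι ℝ} (h : Sᵀ = S) (y z : ι → ℝ) : S.mulVec y ⬝ᵥ z = y ⬝ᵥ S.mulVec z := by
  rw [Matrix.dotProduct_mulVec, ← Matrix.vecMul_transpose, h]

/-- the pointwise criterion -/
theorem C_unit (h : Tr2 P1 P12 P13) (s2 : P12ᵀ = P12) (s1 : P1ᵀ = P1) (s3 : P13ᵀ = P13)
    (hd : ∀ (x : X.pt) (y : ι → ℝ), (P12.map (vl x)).mulVec y = y → (P13.map (vl x)).mulVec y = y → y = 0) :
    IsUnit (Tr2.C P1 P12 P13).det := by
  refine SF_unit fun x => ?_
  have e0 : vl x (Tr2.C P1 P12 P13).det = ((Tr2.C P1 P12 P13).map (vl x)).det := AlgHom.map_det _ _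
  rw [e0, C_map]
  have hm : ∀ {M N K : Matrix ι ι (SF X)}, M * N = K → M.map (vl x) * N.map (vl x) = K.map (vl x) := by
    intro M N K e
    rw [← Matrix.map_mul, e]
  have ht : ∀ {M : Matrix ι ι (SF X)}, Mᵀ = M → (M.map (vl x))ᵀ = M.map (vl x) := by
    intro M e
    rw [← Matrix.transpose_map, e]
  have i1 := hm h.i1
  have i2 := hm h.i2
  have i3 := hm h.i3
  have l2 := hm h.l2
  have l2' := hm h.l2'
  have l3 := hm h.l3
  have t1 := ht s1
  have t2 := ht s2
  have t3 := ht s3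
  have hd' := hd x
  generalize P1.map (vl x) = A1 at *
  generalize P12.map (vl x) = A2 at *
  generalize P13.map (vl x) = A3 at *
  intro hdet
  obtain ⟨y, hy0, hy⟩ := Matrix.exists_mulVec_eq_zero_iff.2 hdet
  have h1 : A3.mulVec y = y := by
    have e1 := congrArg (fun v => (1 - A3).mulVec v) hy
    simp only [Matrix.mulVec_mulVec, Matrix.mulVec_zero] at e1
    have e2 : (1 - A3) * Tr2.C A1 A2 A3 = 1 - A3 := by
      unfold Tr2.C
      rw [mul_add, ← mul_assoc, ← mul_assoc, sub_mul, one_mul, i3, sub_self, zero_mul, zero_mul, zero_add, sub_mul,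
        one_mul, mul_sub, mul_one, i3, sub_self, sub_zero]
    rw [e2, Matrix.sub_mulVec, Matrix.one_mulVec, sub_eq_zero] at e1
    exact e1.symm
  have h2 : A3.mulVec ((A1 - A2).mulVec y) = 0 := by
    have e1 := hy
    unfold Tr2.C at e1
    rw [Matrix.add_mulVec, Matrix.sub_mulVec, Matrix.one_mulVec, h1, sub_self, add_zero, ← Matrix.mulVec_mulVec, h1,
      ← Matrix.mulVec_mulVec] at e1
    exact e1
  have h3 : (A1 - A2).mulVec y = 0 := by
    have e1 : (A1 - A2).mulVec y ⬝ᵥ (A1 - A2).mulVec y = y ⬝ᵥ (A1 - A2).mulVec y := by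
      have e2 : (A1 - A2) * (A1 - A2) = A1 - A2 := by
        rw [sub_mul, mul_sub, mul_sub, i1, l2, l2', i2, sub_self, sub_zero]
      rw [dot_symm (by rw [Matrix.transpose_sub, t1, t2]), Matrix.mulVec_mulVec, e2]
    have e3 : y ⬝ᵥ (A1 - A2).mulVec y = y ⬝ᵥ A3.mulVec ((A1 - A2).mulVec y) := by
      rw [← dot_symm t3, h1]
    rw [e3, h2, dotProduct_zero] at e1
    exact dotProduct_self_eq_zero.1 e1
  have h4 : A1.mulVec y = y := by
    rw [← h1, Matrix.mulVec_mulVec, l3]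
  rw [Matrix.sub_mulVec, h4, sub_eq_zero] at h3
  exact hy0 (hd' y h3.symm h1)

end sf

end Pool.Agent.Lib.MP_ccbbf6_gt.L5
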