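import Pool.Agent.Lib.MP_ccbbf6_gt.L5.CW2
import Pool.Agent.Lib.MP_ccbbf6_gt.L5.TP07

/-!
# Level 5, block 3PT 8: Pontryagin series (helper56)

* `PTs d p` : the series with coefficients `(2 π)^(-dj) elc p (dj)`; `PTs_add`;
* `PTd d hP` : the series of the classes `p_(dj/2)` of a real bundle (`κ + 1 = 2 d`; `κ = 3`: `d = 2`); `PT_pull`, `PT_whitney`, `PT_rank`.
-/

set_option autoImplicit false
set_option maxSynthPendingDepth 3
set_option linter.unusedSectionVars false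

open Matrix
open scoped ContDiff

noncomputable section

namespace Pool.Agent.Lib.MP_ccbbf6_gt.L5

open L4 L4.FR

section ser

variable {R R' : Type*} [CommRing R] [Algebra ℝ R] [CommRing R'] [Algebra ℝ R']

theorem antidiag_dvd {d : ℕ} (hd : 1 ≤ d) (f : ℕ × ℕ → R) (h : ∀ x : ℕ × ℕ, ¬ d ∣ x.2 → f x = 0) (j : ℕ) :
    ∑ x ∈ Finset.HasAntidiagonal.antidiagonal (d * j), f x =
      ∑ y ∈ Finset.HasAntidiagonal.antidiagonal j, f (d * y.1, d * y.2) := by
  have hinj : Function.Injective fun y : ℕ × ℕ => (d * y.1, d * y.2) := by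
    rintro ⟨a, b⟩ ⟨a', b'⟩ e
    have e1 : d * a = d * a' := congrArg Prod.fst e
    have e2 : d * b = d * b' := congrArg Prod.snd e
    exact Prod.ext (Nat.eq_of_mul_eq_mul_left hd e1) (Nat.eq_of_mul_eq_mul_left hd e2)
  rw [← Finset.sum_image (f := f) (g := fun y : ℕ × ℕ => (d * y.1, d * y.2)) (hinj.injOn)]
  symm
  refine Finset.sum_subset ?_ ?_
  · intro x hx
    obtain ⟨y, hy, rfl⟩ := Finset.mem_image.1 hx
    rw [Finset.HasAntidiagonal.mem_antidiagonal] at hy ⊢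
    rw [← hy, mul_add]
  · rintro ⟨a, b⟩ hx hx2
    refine h _ ?_
    rintro ⟨b', hb'⟩
    rw [Finset.HasAntidiagonal.mem_antidiagonal] at hx
    refine hx2 (Finset.mem_image.2 ⟨(j - b', b'), ?_, ?_⟩)
    · rw [Finset.HasAntidiagonal.mem_antidiagonal]
      have h1 : d * b' ≤ d * j := by
        change b = d * b' at hb'
        rw [← hb', ← hx]
        exact Nat.le_add_left _ _
      have h2 := Nat.le_of_mul_le_mul_left h1 hd
      omega
    · change b = d * b' at hb'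
      change a + b = d * j at hx
      have : a = d * (j - b') := by
        rw [Nat.mul_sub, ← hx, hb']
        omega
      exact Prod.ext this.symm hb'.symm

/-- the classes vanish off the multiples of `d` -/
def Per (d : ℕ) (p : ℕ → R) : Prop := ∀ i, ¬ d ∣ i → elc p i = 0

/-- the series of the classes of degree `2 d j` -/
def PTs (d : ℕ) (p : ℕ → R) : PowerSeries R :=
  PowerSeries.mk fun j => ((2 * Real.pi) ^ (d * j))⁻¹ • elc p (d * j)

theorem coeff_PTs (d : ℕ) (p : ℕ → R) (j : ℕ) :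
    PowerSeries.coeff j (PTs d p) = ((2 * Real.pi) ^ (d * j))⁻¹ • elc p (d * j) := PowerSeries.coeff_mk _ _

theorem PTs_add {d : ℕ} (hd1 : 1 ≤ d) {p p' : ℕ → R} (h : Per d p') :
    PTs d (fun k => p k + p' k) = PTs d p * PTs d p' := by
  ext j
  rw [coeff_PTs, elc_add, PowerSeries.coeff_mul, antidiag_dvd (by omega) _ (fun x hx => by rw [h _ hx, mul_zero]),
    Finset.smul_sum]
  refine Finset.sum_congr rfl fun y hy => ?_
  rw [coeff_PTs, coeff_PTs, smul_mul_smul_comm, ← mul_inv, ← pow_add, ← mul_add, Finset.HasAntidiagonal.mem_antidiagonal.1 hy]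

theorem PTs_congr (d : ℕ) {p p' : ℕ → R} (h : ∀ k, p (k + 1) = p' (k + 1)) : PTs d p = PTs d p' := by
  ext j
  rw [coeff_PTs, coeff_PTs, elc_congr h]

theorem map_PTs (f : R →ₐ[ℝ] R') (d : ℕ) (p : ℕ → R) :
    PowerSeries.map (f : R →+* R') (PTs d p) = PTs d (fun k => f (p k)) := by
  ext j
  rw [PowerSeries.coeff_map, coeff_PTs, coeff_PTs]
  change f (((2 * Real.pi) ^ (d * j))⁻¹ • elc p (d * j)) = _
  rw [map_smul, map_elc]

theorem Per_map (f : R →ₐ[ℝ] R') {d : ℕ} {p : ℕ → R} (h : Per d p) : Per d (fun k => f (p k)) := fun i hi => by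
  rw [← map_elc, h i hi, map_zero]

theorem Per_congr {d : ℕ} {p p' : ℕ → R} (h : ∀ k, p (k + 1) = p' (k + 1)) (hp : Per d p) : Per d p' := fun i hi => by
  rw [← elc_congr h, hp i hi]

/-- odd classes vanish if the odd power sums vanish -/
theorem Per_two {p : ℕ → R} (h : ∀ k, Odd k → p k = 0) : Per 2 p := fun i hi => by
  have h1 : Odd i := Nat.not_even_iff_odd.1 fun h => hi h.two_dvd
  have h2 := elc_homog (-1 : R) p i
  have h3 : (fun k => (-1 : R) ^ k * p k) = p := by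
    funext k
    rcases Nat.even_or_odd k with hk | hk
    · rw [hk.neg_one_pow, one_mul]
    · rw [h k hk, mul_zero]
  rw [h3, h1.neg_one_pow, neg_one_mul] at h2
  have h4 : (2 : ℝ) • elc p i = 0 := by
    rw [two_smul]
    nth_rewrite 1 [h2]
    exact neg_add_cancel _
  exact (smul_eq_zero.1 h4).resolve_left two_ne_zero

end ser

section bundle

variable {X Y : Space} {ι : Type*} [Fintype ι] [DecidableEq ι]

/-- the power sums of a bundle -/
def hpb {P : Matrix ι ι (SF X)} (hP : P * P = P) (j : ℕ) : (GO X).HE := GDA.hps ((FO X).idem hP) j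

/-- the series of the Pontryagin classes of degree `2 d j` -/
def PTd (d : ℕ) {P : Matrix ι ι (SF X)} (hP : P * P = P) : PowerSeries (GO X).HE := PTs d (hpb hP)

theorem hpb_congr {P Q : Matrix ι ι (SF X)} (e : P = Q) (hP : P * P = P) (hQ : Q * Q = Q) (j : ℕ) :
    hpb hP j = hpb hQ j := by
  subst e
  rfl

theorem PT_congr (d : ℕ) {P Q : Matrix ι ι (SF X)} (e : P = Q) (hP : P * P = P) (hQ : Q * Q = Q) :
    PTd d hP = PTd d hQ := by
  subst e
  rfl

theorem map_idem {P : Matrix ι ι (SF Y)} (hP : P * P = P) (φ : SMap X Y) :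
    P.map (pf φ) * P.map (pf φ) = P.map (pf φ) := by rw [← Matrix.map_mul, hP]

theorem hpb_pull {P : Matrix ι ι (SF Y)} (hP : P * P = P) (φ : SMap X Y) (j : ℕ) :
    (GHom.pull φ).he (hpb hP j) = hpb (map_idem hP φ) j := by
  unfold hpb
  rw [GHom.he_hps]
  rfl

theorem PT_pull (d : ℕ) {P : Matrix ι ι (SF Y)} (hP : P * P = P) (φ : SMap X Y) :
    PowerSeries.map ((GHom.pull φ).he : (GO Y).HE →+* (GO X).HE) (PTd d hP) = PTd d (map_idem hP φ) := by
  unfold PTd
  rw [map_PTs]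
  congr 1
  funext j
  exact hpb_pull hP φ j

theorem hpb_odd {P : Matrix ι ι (SF X)} (hP : P * P = P) (hs : Pᵀ = P) {j : ℕ} (hj : Odd j) : hpb hP j = 0 := by
  unfold hpb GDA.hps
  refine GDA.cl_eq_zero.2 ⟨0, ?_⟩
  rw [((FO X).idem hP).ps_odd (by rw [← Matrix.transpose_map, hs]) hj, map_zero]

theorem Per_two_hpb {P : Matrix ι ι (SF X)} (hP : P * P = P) (hs : Pᵀ = P) : Per 2 (hpb hP) :=
  Per_two fun _ hk => hpb_odd hP hs hk

/-- vanishing above the rank -/
theorem PT_rank {d : ℕ} {P : Matrix ι ι (SF X)} (hP : P * P = P) {r : ℕ} (hr : ∀ x, trace (P.map (vl x)) ≤ r) {j : ℕ}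
    (hj : r < d * j) : PowerSeries.coeff j (PTd d hP) = 0 := by
  have h1 : ∀ x, (P.map (vl x)).rank ≤ r := fun x =>
    rank_le_of_trace (by rw [← Matrix.map_mul, hP]) (hr x)
  have h2 := cf_zero_real hP h1 hj
  unfold PTd
  rw [coeff_PTs]
  have h3 : elc (hpb hP) (d * j) = 0 := by
    have h4 := GDA.mk_cf ((FO X).idem hP) (d * j)
    rw [h2, map_zero] at h4
    exact h4.symm
  rw [h3, smul_zero]

theorem tr_map {P : Matrix ι ι (SF X)} (x : X.pt) : trace (P.map (vl x)) = vl x (trace P) := by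
  unfold trace
  rw [map_sum]
  rfl

variable {P1 P12 P13 : Matrix ι ι (SF X)}

/-- the power sums of the complement -/
theorem hpb_cmpl (h : Tr2 P1 P12 P13) (hC : IsUnit (Tr2.C P1 P12 P13).det) (j : ℕ) :
    hpb h.i1 j = hpb (h.Z_Z hC) j + hpb h.i3 j + hpb h.i2 j := by
  have hQ : hpb (h.Q_Q hC) j = hpb h.i3 j := by
    unfold hpb
    refine (CylO X).hps_iso (a := (Tr2.mb P1 P12 P13).map (FO X).f) (b := (Tr2.ma P1 P12 P13).map (FO X).f)
      ((FO X).idem h.i3) ((FO X).idem (h.Q_Q hC)) ((FO X).Ev _) ((FO X).Ev _) ?_ ?_ j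
    · rw [← (FO X).mul, h.mb_ma hC]
    · rw [← (FO X).mul, Tr2.ma_mb]
  have eR : Tr2.Z P1 P12 P13 + Tr2.Q P1 P12 P13 = P1 - P12 := by
    unfold Tr2.Z Tr2.R
    rw [sub_add_cancel]
  have hR : hpb h.R_R j = hpb (h.Z_Z hC) j + hpb (h.Q_Q hC) j := by
    have hs : (Tr2.Z P1 P12 P13 + Tr2.Q P1 P12 P13) * (Tr2.Z P1 P12 P13 + Tr2.Q P1 P12 P13) =
        Tr2.Z P1 P12 P13 + Tr2.Q P1 P12 P13 := by rw [eR, h.R_R]
    rw [← hpb_congr eR hs h.R_R]
    have h1 := (CylO X).hps_add ((FO X).idem (h.Z_Z hC)) ((FO X).idem (h.Q_Q hC))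
      (by rw [← (FO X).add]; exact (FO X).idem hs) (by rw [← (FO X).mul, h.Z_Q hC, (FO X).zero])
      (by rw [← (FO X).mul, h.Q_Z hC, (FO X).zero]) j
    unfold hpb
    rw [← h1]
    congr 1
    exact (FO X).add _ _
  have eP : (P1 - P12) + P12 = P1 := sub_add_cancel _ _
  have hs : ((P1 - P12) + P12) * ((P1 - P12) + P12) = (P1 - P12) + P12 := by rw [eP, h.i1]
  have hP : hpb h.i1 j = hpb h.R_R j + hpb h.i2 j := by
    rw [← hpb_congr eP hs h.i1]
    have h1 := (CylO X).hps_add ((FO X).idem h.R_R) ((FO X).idem h.i2)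
      (by rw [← (FO X).add]; exact (FO X).idem hs) (by rw [← (FO X).mul, h.R_P, (FO X).zero])
      (by rw [← (FO X).mul, h.P_R, (FO X).zero]) j
    unfold hpb
    rw [← h1]
    congr 1
    exact (FO X).add _ _
  rw [hP, hR, hQ]

/-- Whitney formula for the complement -/
theorem PT_cmpl {d : ℕ} (hd1 : 1 ≤ d) (h : Tr2 P1 P12 P13) (hC : IsUnit (Tr2.C P1 P12 P13).det)
    (h2 : Per d (hpb h.i2)) (h3 : Per d (hpb h.i3)) :
    PTd d h.i1 = PTd d (h.Z_Z hC) * PTd d h.i3 * PTd d h.i2 := by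
  unfold PTd
  rw [← PTs_add hd1 h3, ← PTs_add hd1 h2]
  congr 1
  funext j
  exact hpb_cmpl h hC j

end bundle

end Pool.Agent.Lib.MP_ccbbf6_gt.L5
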