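import Pool.Agent.Lib.MP_ccbbf6_gt.L5.COH3
import Pool.Agent.Lib.MP_ccbbf6_gt.L5.DGP
import Pool.Agent.Lib.MP_ccbbf6_gt.L5.TP02
import Pool.Agent.Lib.MP_ccbbf6_gt.L5.TP08

/-!
# Level 5, block 3PT 12: homogeneous classes; the classes of `TM` and of `V` (helper56)

`HD X d x` : the class `x` is represented by a closed form of degree `2 d`.
`CohD.exists_P` : `p(TM) = P(u)`. `CohD.PT_V` : `p(V) = 1 + b (u1 + u2) + (u1 - u2)^2`.
-/

set_option autoImplicit false
set_option maxSynthPendingDepth 3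

open Matrix Filter Topology

noncomputable section

namespace Pool.Agent.Lib.MP_ccbbf6_gt.L5

open L4 L4.FR

variable {X Y : Space}

/-- classes of closed forms of degree `2 d` -/
def HD (X : Space) (d : ℕ) (x : (GO X).HE) : Prop :=
  ∃ (w : Om X) (h : sO X w = w) (h' : dO X w = 0), Deg (2 * d) w ∧ GDA.cl (G := GO X) w h h' = x

theorem HD_of {d : ℕ} {w : Om X} (hw : Deg (2 * d) w) (h' : dO X w = 0) :
    HD X d (GDA.cl (G := GO X) w (Deg_even hw) h') := ⟨w, Deg_even hw, h', hw, rfl⟩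

theorem HD_one : HD X 0 1 := ⟨1, map_one _, d_one, Deg_one, GDA.cl_one⟩

theorem HD_zero {d : ℕ} : HD X d 0 := ⟨0, map_zero _, map_zero _, Deg_zero, GDA.cl_eq_zero.2 ⟨0, (map_zero _).symm⟩⟩

theorem HD_add {d : ℕ} {x y : (GO X).HE} (hx : HD X d x) (hy : HD X d y) : HD X d (x + y) := by
  obtain ⟨w, a, b, h1, rfl⟩ := hx
  obtain ⟨w', a', b', h2, rfl⟩ := hy
  exact ⟨w + w', by rw [map_add, a, a'], by rw [map_add, b, b', add_zero], Deg_add h1 h2, GDA.cl_add.symm⟩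

theorem HD_smul {d : ℕ} (r : ℝ) {x : (GO X).HE} (hx : HD X d x) : HD X d (r • x) := by
  obtain ⟨w, a, b, h1, rfl⟩ := hx
  exact ⟨r • w, by rw [map_smul, a], by rw [map_smul, b, smul_zero], Deg_smul r h1, GDA.cl_smul.symm⟩

theorem HD_mul {d e : ℕ} {x y : (GO X).HE} (hx : HD X d x) (hy : HD X e y) : HD X (d + e) (x * y) := by
  obtain ⟨w, a, b, h1, rfl⟩ := hx
  obtain ⟨w', a', b', h2, rfl⟩ := hy
  refine ⟨w * w', by rw [map_mul, a, a'], by rw [d_mul, b, b', zero_mul, mul_zero, add_zero], ?_, GDA.cl_mul.symm⟩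
  rw [mul_add]
  exact Deg_mul h1 h2

theorem HD_cast {d e : ℕ} {x : (GO X).HE} (h : d = e) (hx : HD X d x) : HD X e x := h ▸ hx

theorem HD_sum {d : ℕ} {ι : Type*} (s : Finset ι) {f : ι → (GO X).HE} (h : ∀ i ∈ s, HD X d (f i)) :
    HD X d (∑ i ∈ s, f i) := by
  classical
  induction s using Finset.induction_on with
  | empty => exact HD_zero
  | insert a s ha ih =>
    rw [Finset.sum_insert ha]
    exact HD_add (h a (Finset.mem_insert_self a s)) (ih fun i hi => h i (Finset.mem_insert_of_mem hi))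

theorem HD_elc {p : ℕ → (GO X).HE} (h : ∀ k, HD X (k + 1) (p (k + 1))) (j : ℕ) : HD X j (elc p j) := by
  induction j using Nat.strong_induction_on with
  | _ j ih =>
    rcases j with _ | n
    · rw [elc_zero]
      exact HD_one
    · rw [elc_succ]
      refine HD_smul _ (HD_sum _ fun k hk => ?_)
      have hk' := Finset.mem_range.1 hk
      have h1 : HD X (n + 1) (elc p (n - k) * p (k + 1)) := HD_cast (by omega) (HD_mul (ih (n - k) (by omega)) (h k))
      rcases Nat.even_or_odd k with h2 | h2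
      · rw [h2.neg_one_pow, one_mul]
        exact h1
      · rw [h2.neg_one_pow, neg_one_mul]
        have h3 := HD_smul (-1) h1
        rwa [neg_one_smul] at h3

/-- matrices of homogeneous forms -/
theorem Deg_matmul {ι κ μ : Type*} [Fintype κ] {i j : ℕ} {A : Matrix ι κ (Om X)} {B : Matrix κ μ (Om X)}
    (hA : ∀ a b, Deg i (A a b)) (hB : ∀ a b, Deg j (B a b)) (a : ι) (b : μ) : Deg (i + j) ((A * B) a b) := by
  classical
  rw [Matrix.mul_apply]
  have h : ∀ s : Finset κ, Deg (i + j) (∑ c ∈ s, A a c * B c b) := by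
    intro s
    induction s using Finset.induction_on with
    | empty => rw [Finset.sum_empty]; exact Deg_zero
    | insert c s hd1 ih => rw [Finset.sum_insert hd1]; exact Deg_add (Deg_mul (hA a c) (hB c b)) ih
  exact h _

theorem Deg_ps {ι : Type*} [Fintype ι] [DecidableEq ι] (P : Matrix ι ι (SF X)) (j : ℕ) :
    Deg (2 * j) ((GO X).ps (P.map (FO X).f) j) := by
  have h0 : ∀ a b, Deg 0 ((P.map (FO X).f) a b) := fun a b k p => Dg_fc _
  have h1 : ∀ a b, Deg 1 ((GO X).D (P.map (FO X).f) a b) := fun a b => Deg_d (h0 a b)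
  have h2 : ∀ a b, Deg 2 ((GO X).R (P.map (FO X).f) a b) := fun a b => Deg_matmul h1 h1 a b
  have h3 : ∀ (j : ℕ) (a b : ι), Deg (2 * j) (((P.map (FO X).f) * (GO X).R (P.map (FO X).f) ^ j) a b) := by
    intro j
    induction j with
    | zero => intro a b; rw [pow_zero, Matrix.mul_one]; exact h0 a b
    | succ j ih => intro a b; rw [pow_succ, ← Matrix.mul_assoc]; exact Deg_matmul ih h2 a b
  unfold GDA.ps Matrix.trace
  have h : ∀ s : Finset ι, Deg (2 * j)
      (∑ c ∈ s, Matrix.diag ((P.map (FO X).f) * (GO X).R (P.map (FO X).f) ^ j) c) := by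
    classical
    intro s
    induction s using Finset.induction_on with
    | empty => rw [Finset.sum_empty]; exact Deg_zero
    | insert c s hd1 ih => rw [Finset.sum_insert hd1]; exact Deg_add (h3 j c c) ih
  exact h _

variable {ι : Type*} [Fintype ι] [DecidableEq ι]

theorem HD_hpb {P : Matrix ι ι (SF X)} (hP : P * P = P) (j : ℕ) : HD X j (hpb hP j) :=
  ⟨_, ((FO X).idem hP).s_ps j, ((FO X).idem hP).d_ps j, Deg_ps P j, rfl⟩

theorem HD_PT (d : ℕ) {P : Matrix ι ι (SF X)} (hP : P * P = P) (j : ℕ) :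
    HD X (d * j) (PowerSeries.coeff j (PTd d hP)) := by
  unfold PTd
  rw [coeff_PTs]
  exact HD_smul _ (HD_elc (fun k => HD_hpb hP (k + 1)) _)

theorem coeff_PT_zero (d : ℕ) {P : Matrix ι ι (SF X)} (hP : P * P = P) :
    PowerSeries.coeff 0 (PTd d hP) = 1 := by
  unfold PTd
  rw [coeff_PTs, mul_zero, pow_zero, inv_one, one_smul, elc_zero]

/-- equality of classes of homogeneous forms -/
theorem HD_prim {d j : ℕ} (hj : 2 * d = j + 1) {w w' : Om X} {h : sO X w = w} {h' : dO X w = 0} {k : sO X w' = w'}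
    {k' : dO X w' = 0} (hw : Deg (2 * d) w) (hw' : Deg (2 * d) w')
    (e : GDA.cl (G := GO X) w h h' = GDA.cl (G := GO X) w' k k') : ∃ ξ : Om X, Deg j ξ ∧ w = w' + dO X ξ := by
  obtain ⟨ξ, hξ⟩ := GDA.cl_eq.1 e
  have h1 : w - w' = dO X ξ := by
    have h2 : w = w' + dO X ξ := hξ
    rw [h2, add_sub_cancel_left]
  obtain ⟨ξ', h3, h4⟩ := exists_prim_Deg (j := j) h1 (hj ▸ Deg_sub hw hw')
  exact ⟨ξ', h3, by rw [← h4, add_sub_cancel]⟩

namespace CohD

variable {N κ m : ℕ} {M G F : Space} (D : CohD N κ m M G F)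

/-- the class of `u` -/
def ku : (GO M).HE := GDA.cl (G := GO M) D.u D.su D.du

/-- the class of `u1` -/
def k1 : (GO F).HE := (GHom.pull D.p1).he D.ku

/-- the class of `u2` -/
def k2 : (GO F).HE := (GHom.pull D.p2).he D.ku

/-- classes of degree divisible by `κ + 1` -/
theorem HD_M (p0 : M.Plot 0) {d : ℕ} (hκ : κ + 1 = 2 * d) {x : (GO M).HE} {j : ℕ} (hj : 1 ≤ j)
    (hx : HD M (d * j) x) : ∃ r : ℝ, x = r • D.ku ^ j := by
  obtain ⟨w, h, h', hw, rfl⟩ := hx
  have hw' : Deg ((κ + 1) * j) w := by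
    have e : 2 * (d * j) = (κ + 1) * j := by rw [hκ]; ring
    rw [← e]
    exact hw
  obtain ⟨η, -, h2⟩ := D.H2 p0 h' hj hw'
  refine ⟨D.eps⁻¹ * D.TM p0 (D.u ^ (m - j) * w), ?_⟩
  obtain ⟨k, k', e⟩ := GDA.cl_pow (G := GO M) (w := D.u) (h := D.su) (h' := D.du) j
  unfold ku
  rw [e, GDA.cl_smul]
  exact GDA.cl_eq.2 ⟨η, h2⟩

/-- **the classes of `TM`** -/
theorem exists_P (p0 : M.Plot 0) {d : ℕ} (hκ : κ + 1 = 2 * d) {PM : Matrix ι ι (SF M)} (iM : PM * PM = PM) :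
    ∃ P : PowerSeries ℝ, PowerSeries.constantCoeff P = 1 ∧ PTd d iM = evS D.ku P := by
  have h : ∀ j : ℕ, ∃ r : ℝ, PowerSeries.coeff j (PTd d iM) = r • D.ku ^ j ∧ (j = 0 → r = 1) := by
    intro j
    rcases Nat.eq_zero_or_pos j with rfl | hj
    · exact ⟨1, by rw [coeff_PT_zero, pow_zero, one_smul], fun _ => rfl⟩
    · obtain ⟨r, hr⟩ := D.HD_M p0 hκ hj (HD_PT d iM j)
      exact ⟨r, hr, fun h => absurd h (by omega)⟩
  choose r hr hr0 using h
  refine ⟨PowerSeries.mk r, ?_, ?_⟩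
  · rw [← PowerSeries.coeff_zero_eq_constantCoeff_apply, PowerSeries.coeff_mk]
    exact hr0 0 rfl
  · ext j
    rw [coeff_evS, PowerSeries.coeff_mk]
    exact hr j

/-- **symmetric classes of degree `κ + 1`** -/
theorem HD_sym (p : F.Plot 0) {d : ℕ} (hκ : κ + 1 = 2 * d) {x : (GO F).HE} (hx : HD F d x) {sw : SMap F F}
    (h1 : ∀ z, D.p1.1 (sw.1 z) = D.p2.1 z) (h2 : ∀ z, D.p2.1 (sw.1 z) = D.p1.1 z)
    (hs : (GHom.pull sw).he x = x) : ∃ b : ℝ, x = b • (D.k1 + D.k2) := by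
  obtain ⟨w, a, a', hw, rfl⟩ := hx
  have hw' : Deg (κ + 1) w := by
    have e : 2 * d = κ + 1 := by rw [hκ]
    rw [← e]
    exact hw
  rw [GHom.he_cl] at hs
  obtain ⟨ξ, hξ, e1⟩ := HD_prim (X := F) (d := d) (j := κ) (by omega) (Deg_pull sw hw) hw hs
  obtain ⟨b, ρ, -, hb⟩ := D.H5sym p hw' a' h1 h2 hξ e1
  refine ⟨b, ?_⟩
  unfold k1 k2 ku
  rw [GHom.he_cl, GHom.he_cl, GDA.cl_add, GDA.cl_smul]
  exact GDA.cl_eq.2 ⟨ρ, hb⟩

/-- **the Euler class** -/
theorem euler {e : Om F} (h : sO F e = e) (h' : dO F e = 0) {η : Om G}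
    (hη : D.g.pull e = dO G η) (hd : Deg κ η) {s : ℝ} (hs : D.bV.PI η = algebraMap ℝ (Om F) s) :
    GDA.cl (G := GO F) e h h' = s • (D.k2 - D.k1) := by
  obtain ⟨ρ, -, e1⟩ := D.H5e hη hd hs
  unfold k1 k2 ku
  rw [GHom.he_cl, GHom.he_cl, GDA.cl_sub, GDA.cl_smul]
  exact GDA.cl_eq.2 ⟨ρ, e1⟩

/-- **the classes of `V`** -/
theorem PT_V (p : F.Plot 0) {d : ℕ} (hd1 : 1 ≤ d) (hκ : κ + 1 = 2 * d) {PV : Matrix ι ι (SF F)} (iV : PV * PV = PV)
    (trV : ∀ x, trace (PV.map (vl x)) = 2 * d) {sw : SMap F F}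
    (h1 : ∀ z, D.p1.1 (sw.1 z) = D.p2.1 z) (h2 : ∀ z, D.p2.1 (sw.1 z) = D.p1.1 z)
    (hs : (GHom.pull sw).he (PowerSeries.coeff 1 (PTd d iV)) = PowerSeries.coeff 1 (PTd d iV))
    (he : PowerSeries.coeff 2 (PTd d iV) = (D.k2 - D.k1) ^ 2) :
    ∃ b : ℝ, PTd d iV = Asr b D.k1 D.k2 := by
  obtain ⟨b, hb⟩ := D.HD_sym p hκ (HD_cast (mul_one _) (HD_PT d iV 1)) h1 h2 hs
  refine ⟨b, ?_⟩
  ext j
  have hX : ∀ i : ℕ, PowerSeries.coeff i (PowerSeries.X : PowerSeries (GO F).HE) = if i = 1 then 1 else 0 :=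
    fun i => PowerSeries.coeff_X i
  unfold Asr
  rw [map_add, map_add, PowerSeries.coeff_C_mul, PowerSeries.coeff_C_mul, PowerSeries.coeff_one, hX,
    PowerSeries.coeff_X_pow]
  rcases j with _ | _ | _ | j
  · rw [coeff_PT_zero, if_pos rfl, if_neg (by norm_num), if_neg (by norm_num), mul_zero, mul_zero, add_zero, add_zero]
  · rw [hb, if_neg (by norm_num), if_pos rfl, if_neg (by norm_num), mul_one, mul_zero, add_zero, zero_add]
  · rw [he, if_neg (by norm_num), if_neg (by norm_num), if_pos rfl, mul_one, mul_zero, add_zero, zero_add]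
    ring
  · rw [if_neg (by omega), if_neg (by omega), if_neg (by omega), mul_zero, mul_zero, add_zero, add_zero]
    refine PT_rank iV (r := 2 * d) (fun x => ?_) ?_
    · rw [trV]
      push_cast
      exact le_rfl
    · nlinarith

end CohD

end Pool.Agent.Lib.MP_ccbbf6_gt.L5
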