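import Pool.Agent.Lib.MP_ccbbf6_gt.L5.PHN1
import Pool.Agent.Lib.MP_ccbbf6_gt.L5.TP12

/-!
# Level 5, PHN 4: the hypotheses of `NegB.volume_le` (helper56)

`NegB.D_ge` : `1 ≤ |D|` from the fibre integral of `ι_φ` of the averaged path form.
`NegB.exists_rho` : `f ^ 2 = 2 b x_0 + d ρ` from the class of `f ^ 2`.
-/

set_option autoImplicit false
set_option maxSynthPendingDepth 3

open Set Filter Topology
open scoped ContDiff

noncomputable section

namespace Pool.Agent.Lib.MP_ccbbf6_gt.L5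

open L4 L4.FR

private theorem val_alg {X : Space} (c : ℝ) (P : X.Plot 0) : val (algebraMap ℝ (Om X) c) P = c := by
  unfold val
  have h1 : Om.on (algebraMap ℝ (Om X) c) P = algebraMap ℝ (Fm 0) c := rfl
  rw [h1, ← (fc 0).commutes, fn_fc]
  rfl

private theorem val_zero' {X : Space} (P : X.Plot 0) : val (0 : Om X) P = 0 := by
  have h := val_alg (X := X) 0 P
  rwa [map_zero] at h

theorem Deg_alg (X : Space) (c : ℝ) : Deg 0 (algebraMap ℝ (Om X) c) := by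
  rw [Algebra.algebraMap_eq_smul_one]
  exact Deg_smul _ Deg_one

namespace NegB

section gen

variable {X G M F : Space} {N N' m q : ℕ} (P : NegB X G M F N N' m q)

include P in
/-- `Om G` is not trivial -/
theorem alg_inj {r : ℝ} (h : algebraMap ℝ (Om G) r = 0) : r = 0 := by
  by_contra hr
  have h1 : (1 : Om G) = 0 := by
    have h2 : algebraMap ℝ (Om G) (r⁻¹ * r) = 0 := by rw [map_mul, h, mul_zero]
    rwa [inv_mul_cancel₀ hr, map_one] at h2
  have h2 : ∀ x : Om G, x = 0 := fun x => by rw [← mul_one x, h1, mul_zero]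
  have h3 := P.D.heps
  have h4 := P.D.bM.PI_smul 0 0
  rw [zero_smul, zero_smul] at h4
  rw [h2 (_ * _), h4] at h3
  have h5 := congrArg (fun x => val x P.p0) h3
  simp only [val_alg, val_zero'] at h5
  exact P.D.eps0 h5.symm

/-- **`|D| = 1`** -/
theorem D_ge {r : ℝ} (hr : |r| = 2) (h : P.B.PI (iO P.c (AO P.c (b0 P.fl P.D.u))) = algebraMap ℝ (Om G) r) (D : ℝ)
    (hy : ∃ y, Bas P.c y ∧ iO P.c (AO P.c (b0 P.fl P.D.u)) - D • P.f = dO X y) : 1 ≤ |D| := by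
  obtain ⟨y, -, hy⟩ := hy
  have h1 : algebraMap ℝ (Om G) (r - 2 * D) = dO G (P.B.PI y) := by
    have h2 := P.B.PI_add (iO P.c (AO P.c (b0 P.fl P.D.u))) ((-D) • P.f)
    rw [neg_smul, ← sub_eq_add_neg, hy, ← neg_smul, P.B.PI_smul, h, P.f2, P.PI_dP] at h2
    rw [h2, Algebra.algebraMap_eq_smul_one, Algebra.algebraMap_eq_smul_one, Algebra.algebraMap_eq_smul_one, smul_smul,
      ← add_smul]
    congr 1
    ring
  have h3 := P.alg_inj (exact_Deg_zero h1 (Deg_alg _ _))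
  have h4 : D = r / 2 := by linarith
  rw [h4, abs_div, hr]
  norm_num

end gen

section four

variable {X G M F : Space} {N m : ℕ} (P : NegB X G M F N 2 m 2)

/-- the class of `x` -/
theorem he_k1 : ∀ (h : sO G P.D.x = P.D.x) (h' : dO G P.D.x = 0), (GHom.pull P.D.g).he P.D.k1 =
    GDA.cl (G := GO G) P.D.x h h' := by
  intro h h'
  unfold CohD.k1 CohD.ku
  rw [GHom.he_cl, GHom.he_cl]
  exact GDA.cl_congr (P.D.g_p1 P.D.u) _ _

theorem he_k2 : ∀ (h : sO G P.D.x = P.D.x) (h' : dO G P.D.x = 0), (GHom.pull P.D.g).he P.D.k2 =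
    GDA.cl (G := GO G) P.D.x h h' := by
  intro h h'
  unfold CohD.k2 CohD.ku
  rw [GHom.he_cl, GHom.he_cl]
  refine GDA.cl_eq.2 ⟨P.D.psi, ?_⟩
  have h1 := P.D.d_psi
  have h2 : P.D.g.pull (P.D.p2.pull P.D.u) = P.D.y := P.D.g_p2 P.D.u
  show P.D.g.pull (P.D.p2.pull P.D.u) = P.D.x + dO G P.D.psi
  rw [h2, h1, add_sub_cancel]

/-- **`f ^ 2 = 2 b x_0 + d ρ`** from the class of `f ^ 2` -/
theorem exists_rho {b : ℝ} (hs : sO X (P.f ^ 2) = P.f ^ 2) (hd : dO X (P.f ^ 2) = 0)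
    (h : GDA.cl (G := GO X) (P.f ^ 2) hs hd =
      (GHom.pull P.B.pi).he ((GHom.pull P.D.g).he (b • (P.D.k1 + P.D.k2)))) :
    ∃ ρ : Om X, Deg 3 ρ ∧ P.f ^ 2 = (2 * b) • P.B.pi.pull P.D.x + dO X ρ := by
  rw [map_smul, map_add, P.he_k1 P.D.sx P.D.dx, P.he_k2 P.D.sx P.D.dx, map_smul, map_add, GHom.he_cl, ← two_smul ℝ,
    smul_smul, GDA.cl_smul] at h
  obtain ⟨ρ, h1, h2⟩ := HD_prim (d := 2) (j := 3) rfl (by
    rw [pow_two]
    exact Deg_mul (i := 2) (j := 2) P.fd P.fd) (Deg_smul _ (Deg_pull _ P.D.Deg_x)) h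
  exact ⟨ρ, h1, by rw [h2, mul_comm b 2]⟩

end four

end NegB

end Pool.Agent.Lib.MP_ccbbf6_gt.L5
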