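import Pool.Agent.Lib.MP_ccbbf6_gt.L5.DG17
import Pool.Agent.Lib.MP_ccbbf6_gt.L5.PHN3
import Pool.Agent.Lib.MP_ccbbf6_gt.L5.PHN4

/-!
# Level 5, PHN 5: the degree and the class of `f ^ 2` for the negative bundle, `κ = 3` (helper56)

`negB_D` : `1 ≤ |D|` from `deg_one`. `negB_rho` : `f ^ 2 = 2 b x_0 + d ρ` from `p_1(N) = g^* p_1(V)` and
`p_1(V) = b (u1 + u2)`.
-/

set_option autoImplicit false
set_option maxSynthPendingDepth 3

open Set Filter Topology Real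
open scoped ContDiff RealInnerProductSpace

noncomputable section

namespace Pool.Agent.Lib.MP_ccbbf6_gt.L5

open L4 L4.FR L4.ORI Geo

variable {X Y : Space} {ι : Type*} [Fintype ι] [DecidableEq ι]

private theorem cl_congr' {B : Type*} [Ring B] [Algebra ℝ B] {G : GDA B} {w w' : B} (e : w = w') (h : G.s w = w)
    (h' : G.d w = 0) (k : G.s w' = w') (k' : G.d w' = 0) : GDA.cl w h h' = GDA.cl w' k k' := by
  subst e
  rfl

private theorem ns_sq {B : Type*} [Ring B] (a : B) : (-a) ^ 2 = a ^ 2 := neg_sq a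

theorem hp1_pull {P : Matrix ι ι (SF Y)} (hP : P * P = P) (φ : SMap X Y) :
    (GHom.pull φ).he (L5.hp1 (FO Y) hP) = L5.hp1 (FO X) (map_idem hP φ) := by
  unfold L5.hp1
  rw [map_smul]
  congr 1
  exact hpb_pull hP φ 2

private theorem val_alg' {X : Space} (c : ℝ) (P : X.Plot 0) : val (algebraMap ℝ (Om X) c) P = c := by
  unfold val
  have h1 : Om.on (algebraMap ℝ (Om X) c) P = algebraMap ℝ (Fm 0) c := rfl
  rw [h1, ← (fc 0).commutes, fn_fc]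
  rfl

namespace NegB

variable {X G M F : Space} {N N' m q : ℕ} (P : NegB X G M F N N' m q)

theorem exists_r0 : ∃ r0 : ℝ, P.B.PI (iO P.c (AO P.c (b0 P.fl P.D.u))) = algebraMap ℝ (Om G) r0 := by
  refine P.gc _ (P.B.Deg_PI (j := 0) ?_) ?_
  · have h1 := P.hq
    have h2 := P.toPhiK.Deg_θ
    have h : ∀ j, j = N' → Deg j P.toPhiK.θ → Deg (0 + N') (iO P.c (AO P.c (b0 P.fl P.D.u))) := by
      rintro j rfl h3
      rw [zero_add]
      exact h3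
    exact h _ (by omega) h2
  · have h : dO X (iO P.c (AO P.c (b0 P.fl P.D.u))) = 0 := P.toPhiK.d_θ
    rw [← P.PI_dP, h, P.PI_zero']

end NegB

namespace NEG

section cls

variable {n : ℕ} {M : Type} [MetricSpace M] [CompactSpace M] {𝒜 : SDist n M} {hB : Bl M} {R : ℕ}
  {C : Eu R → Gs M → M} {P : Gs M → Eu R →L[ℝ] Eu R} (hk : 𝒜.HK 3) (hN : NegData 𝒜 3 hB C P)
  {b : OBun 3 (Eu n) (spG 𝒜)} (hb : KBun b)

/-- **the class of `f ^ 2` is `p_1(N)`** -/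
theorem fN_class (hs : sO _ (fN hk hN hb ^ 2) = fN hk hN hb ^ 2) (hd : dO _ (fN hk hN hb ^ 2) = 0) :
    GDA.cl (G := GO (spN 𝒜 P)) (fN hk hN hb ^ 2) hs hd =
      (GHom.pull (prN 𝒜 P)).he (L5.hp1 (FO (spG 𝒜)) (mG_idem hN)) := by
  have h2 := (FHom.inc (circN hB hN)).f3 (P := pN hN) (y := yN hN) (o := oN lt3 hk hN hb)
  have h3 : fN hk hN hb = f3 (FO (spN 𝒜 P)) ((pN hN).map (FHom.inc (circN hB hN)).g)
      (fun I => (FHom.inc (circN hB hN)).g (oN lt3 hk hN hb I)) (fun l => (FHom.inc (circN hB hN)).g (yN hN l)) := h2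
  have ho : Or 3 ((pN hN).map (FHom.inc (circN hB hN)).g)
      (fun I => (FHom.inc (circN hB hN)).g (oN lt3 hk hN hb I)) :=
    (or_oN lt3 hk hN hb).map' ((FHom.inc (circN hB hN)).g : SB (circN hB hN) →+* SF (spN 𝒜 P))
  have hy : Sec ((pN hN).map (FHom.inc (circN hB hN)).g) (fun l => (FHom.inc (circN hB hN)).g (yN hN l)) :=
    (sec_yN hN).map (FHom.inc (circN hB hN)).g
  have h4 := hF_sq (φ := FO (spN 𝒜 P)) (CylO (spN 𝒜 P)) ho hy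
  unfold hF at h4
  rw [GDA.cl_mul] at h4
  rw [hp1_pull]
  refine (cl_congr' ?_ _ _ _ _).trans h4
  rw [pow_two, h3]

theorem neg_fN_class (hs : sO _ ((-fN hk hN hb) ^ 2) = (-fN hk hN hb) ^ 2) (hd : dO _ ((-fN hk hN hb) ^ 2) = 0) :
    GDA.cl (G := GO (spN 𝒜 P)) ((-fN hk hN hb) ^ 2) hs hd =
      (GHom.pull (prN 𝒜 P)).he (L5.hp1 (FO (spG 𝒜)) (mG_idem hN)) := by
  have e : (-fN hk hN hb) ^ 2 = fN hk hN hb ^ 2 := ns_sq _
  have hs' : sO _ (fN hk hN hb ^ 2) = fN hk hN hb ^ 2 := by rw [← e]; exact hs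
  have hd' : dO _ (fN hk hN hb ^ 2) = 0 := by rw [← e]; exact hd
  rw [← fN_class hk hN hb hs' hd']
  exact cl_congr' e _ _ _ _

end cls

section deg

variable {n K : ℕ} {M : Type} [MetricSpace M] [CompactSpace M] {𝒜 : SDist n M} {hB : Bl M} {R : ℕ}
  {C : Eu R → Gs M → M} {P : Gs M → Eu R →L[ℝ] Eu R} (h1 : 1 ≤ K) (hk : 𝒜.HK (K + 1))
  (hN : NegData 𝒜 (K + 1) hB C P) {b : OBun (K + 1) (Eu n) (spG 𝒜)} (hb : KBun b)

/-- the fibre integral at a point in a frame -/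
theorem PI_ptN {θ : Om (spN 𝒜 P)} {r0 : ℝ} (h0 : (sN h1 hk hN hb).PI θ = algebraMap ℝ (Om (spG 𝒜)) r0) (c : Gs M) :
    ∃ (a : Fin (K + 1) → Eu R) (ha : IsNF P (K + 1) c a), ∀ r : ℝ,
      SI (K + 1) (spV 0) ((ptN (𝒜 := 𝒜) ha).pull θ) = algebraMap ℝ (Om (spV 0)) r → r0 = r := by
  obtain ⟨p, hp⟩ : ∃ p : (spG 𝒜).Plot 0, p.1 0 = c := ⟨⟨fun _ => c, ⟨sm_const _, sm_const _⟩⟩, rfl⟩
  obtain ⟨a, ha⟩ := (bN (Nat.succ_pos K) hk hN hb).loc p 0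
  have h3 := ha.self_of_nhds
  rw [hp] at h3
  obtain ⟨⟨h3a, h3b⟩, h4, -⟩ := h3
  obtain ⟨e, he⟩ : ∃ e : (bN (Nat.succ_pos K) hk hN hb).F.Plot 0, e.1 0 = ⟨(c, a 0), ⟨h3a, h3b⟩, h4⟩ :=
    ⟨⟨fun _ => ⟨(c, a 0), ⟨h3a, h3b⟩, h4⟩, ⟨⟨sm_const _, sm_const _⟩, fun i z =>
      show ContDiffAt ℝ ∞ (fun _ : V 0 => a 0 i) z from contDiffAt_const⟩⟩, rfl⟩
  have hfr : IsNF P (K + 1) c (a 0) := ⟨fun i => h3a i, fun i j => orthonormal_iff_ite.1 h3b i j⟩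
  refine ⟨a 0, hfr, fun r hr => ?_⟩
  rw [PI_sN] at h0
  have h5 := ((bN (Nat.succ_pos K) hk hN hb).sb h1).q_PI ((ofSN (Nat.succ_pos K) hk hN hb).pull θ)
  rw [h0, AlgHom.commutes] at h5
  have h6 : (plM e).pull (algebraMap ℝ (Om (bN (Nat.succ_pos K) hk hN hb).F) r0) = (plM e).pull
      (SI (K + 1) (bN (Nat.succ_pos K) hk hN hb).F ((bN (Nat.succ_pos K) hk hN hb).ptm.pull
        ((ofSN (Nat.succ_pos K) hk hN hb).pull θ))) := congrArg (plM e).pull h5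
  rw [AlgHom.commutes, ← SI_nat, ← pull_comp, ← pull_comp] at h6
  have h7 : (ofSN (Nat.succ_pos K) hk hN hb).comp
      ((bN (Nat.succ_pos K) hk hN hb).ptm.comp ((plM e).xP (K + 1))) = ptN (𝒜 := 𝒜) hfr := by
    refine SMap_ext fun z => ?_
    have hz : z.1.1 = (0 : V 0) := Subsingleton.elim (α := V 0) _ _
    refine Subtype.ext ?_
    show ((e.1 z.1.1).1.1, ‖toE z.1.2‖⁻¹ • ∑ i, z.1.2 i • (e.1 z.1.1).1.2 i) = (c, ‖toE z.1.2‖⁻¹ • vcN (a 0) z.1.2)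
    rw [hz, he]
    rfl
  rw [h7, hr] at h6
  have h8 := congrArg (fun x => val x (idP 0)) h6
  simp only [val_alg'] at h8
  exact h8

end deg

section four

variable {n' m R : ℕ} {M : Type} [MetricSpace M] [CompactSpace M] {𝒜 : SDist (n' + 1) M} {hB : Bl M}
  {C : Eu R → Gs M → M} {P : Gs M → Eu R →L[ℝ] Eu R} {f : Gs M → Eu R → M} [MeasurableSpace M] [BorelSpace M]
  (D : GeoD 𝒜 hB 3 m) (hN : NegData 𝒜 3 hB C P) (hF : FillP 𝒜 C P f) (hC : PFam 𝒜 C)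
  {b : OBun 3 (Eu (n' + 1)) (spG 𝒜)} (hb : KBun b)

/-- **`|D| = 1`** -/
theorem negB_D (hn : 3 ≤ n' + 1) {g : (spVF 𝒜 3).pt → ℝ} (hU : UD 𝒜 hB 3 D.u g) (D' : ℝ)
    (hy : ∃ y, Bas (negB D hN hF hC hb).c y ∧ iO (negB D hN hF hC hb).c (AO (negB D hN hF hC hb).c
      (b0 (negB D hN hF hC hb).fl (negB D hN hF hC hb).D.u)) - D' • (negB D hN hF hC hb).f = dO _ y) : 1 ≤ |D'| := by
  obtain ⟨r0, hr0⟩ := (negB D hN hF hC hb).exists_r0
  obtain ⟨a, ha, h1⟩ := PI_ptN one_le_two D.hk hN hb hr0 (gvg 𝒜 hB D.f0.1.1 (D.f0.1.2 0) (D.f0.2.2.1 0))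
  obtain ⟨r, hr, h2⟩ := deg_one hn hB D.hk (by decide) hN hF hU ha
  rw [h1 r h2] at hr0
  exact (negB D hN hF hC hb).D_ge hr hr0 D' hy

/-- **`f ^ 2 = 2 b x_0 + d ρ`** -/
theorem negB_rho {s : ℝ} (hNV : L5.hp1 (FO (spG 𝒜)) (mG_idem hN) =
    (GHom.pull D.coh.g).he (s • (D.coh.k1 + D.coh.k2))) :
    ∃ ρ : Om (spN 𝒜 P), Deg 3 ρ ∧ (negB D hN hF hC hb).f ^ 2 =
      (2 * s) • (negB D hN hF hC hb).B.pi.pull (negB D hN hF hC hb).D.x + dO _ ρ := by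
  have h1 : Deg (2 * 2) ((negB D hN hF hC hb).f ^ 2) := by
    rw [pow_two]
    exact Deg_mul (i := 2) (j := 2) (negB D hN hF hC hb).fd (negB D hN hF hC hb).fd
  have h2 : dO _ ((negB D hN hF hC hb).f ^ 2) = 0 := by
    rw [pow_two, d_mul, (negB D hN hF hC hb).df, mul_zero, zero_mul, add_zero]
  refine (negB D hN hF hC hb).exists_rho (Deg_even h1) h2 ?_
  have h3 := neg_fN_class D.hk hN hb (Deg_even h1) h2
  rw [hNV] at h3
  exact h3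

end four

end NEG

end Pool.Agent.Lib.MP_ccbbf6_gt.L5
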