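import Pool.Agent.Lib.MP_ccbbf6_gt.L5.NXG
import Pool.Agent.Lib.MP_ccbbf6_gt.L5.PHN5

/-!
# Level 5, PHN 8: the instance of `NegB` for all odd `κ = 2 l + 1 ≥ 3` (helper56)

`negBG` : from `GeoD` and the negative bundle, with helper13's form `fNG`. `negBG_D` : `1 ≤ |D|`.
-/

set_option autoImplicit false
set_option maxSynthPendingDepth 3

open Set Filter Topology Real
open scoped ContDiff RealInnerProductSpace

noncomputable section

namespace Pool.Agent.Lib.MP_ccbbf6_gt.L5.NEG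

open Geo L4 L4.ORI L4.FR

variable {n' l m R : ℕ} {M : Type} [MetricSpace M] [CompactSpace M] {𝒜 : SDist (n' + 1) M} {hB : Bl M}
  {C : Eu R → Gs M → M} {P : Gs M → Eu R →L[ℝ] Eu R} {f : Gs M → Eu R → M} [MeasurableSpace M] [BorelSpace M]

/-- **the instance of `NegB`**, `κ = 2 l + 1` -/
def negBG (D : GeoD 𝒜 hB (2 * l + 1) m) (hl : 1 ≤ l) (hN : NegData 𝒜 (2 * l + 1) hB C P) (hF : FillP 𝒜 C P f)
    (hC : PFam 𝒜 C) {b : OBun (2 * l + 1) (Eu (n' + 1)) (spG 𝒜)} (hb : KBun b) :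
    NegB (spN 𝒜 P) (spG 𝒜) (spM 𝒜) (spF 𝒜) n' (2 * l) m (l + 1) where
  D := D.coh
  hq := by ring
  hq2 := by omega
  B := sN (K := 2 * l) (by omega) D.hk hN hb
  cG := circPhi hB 𝒜
  c := circN hB hN
  pic _ _ := rfl
  antc _ _ := rfl
  anta z := by
    show (antN 𝒜 P).1 ((antN 𝒜 P).1 z) = z
    exact Subtype.ext (Prod.ext rfl (neg_neg z.1.2))
  PI_i θ h := by
    rw [i_sN, h]
    have h3 := (sN (K := 2 * l) (by omega) D.hk hN hb).PI_smul 0 0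
    rw [zero_smul, zero_smul] at h3
    rw [h3, smul_zero]
  TG := TG hB
  TG_d := TG_d hB
  TG_i x h := TG_phi hB (kills_i h)
  TG_e x h := TG_even hB h
  η := AL hB 𝒜
  η1 := AL_deg hB
  iη := AL_i hB
  idη := AL_id hB
  fl := FN hF
  fl0 := FN_inv0 hB hN hF
  fl1 := FN_inv1 hB hN hF
  flτ z s := FN_anti hF z s
  flh z := by
    have h := congrFun (congrArg Subtype.val (FN_half hB hF hC)) z
    show (FN hF).1 (z, 1 / 2) = (show Gs M from (prN 𝒜 P).1 z).1 (π * 0)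
    rw [mul_zero]
    exact h
  f := -fNG D.hk hN hb
  fd := Deg_neg (Deg_fNG D.hk hN hb)
  df := by rw [map_neg, d_fNG, neg_zero]
  jf := by rw [map_neg, i_fNG, neg_zero]
  f2 := by
    have h := (sN (K := 2 * l) (by omega) D.hk hN hb).PI_smul (-1) (fNG D.hk hN hb)
    rw [neg_one_smul, neg_one_smul, PI_fNG] at h
    rw [h, ← map_neg, neg_neg]
  fa := by
    rw [map_neg]
    congr 1
    exact ant_fNG D.hk hN hb
  gc := D.cG
  p0 := ⟨fun _ => D.f0.1.1, fun _ => smAt_const _ _⟩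

section facts

variable (D : GeoD 𝒜 hB (2 * l + 1) m) (hl : 1 ≤ l) (hN : NegData 𝒜 (2 * l + 1) hB C P) (hF : FillP 𝒜 C P f)
  (hC : PFam 𝒜 C) {b : OBun (2 * l + 1) (Eu (n' + 1)) (spG 𝒜)} (hb : KBun b)

theorem negBG_eps : (negBG D hl hN hF hC hb).D.eps = D.ep := rfl

/-- **`|D| = 1`** -/
theorem negBG_D (hn : 3 ≤ n' + 1) {g : (spVF 𝒜 (2 * l + 1)).pt → ℝ} (hU : UD 𝒜 hB (2 * l + 1) D.u g) (D' : ℝ)
    (hy : ∃ y, Bas (negBG D hl hN hF hC hb).c y ∧ iO (negBG D hl hN hF hC hb).c (AO (negBG D hl hN hF hC hb).c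
      (b0 (negBG D hl hN hF hC hb).fl (negBG D hl hN hF hC hb).D.u)) - D' • (negBG D hl hN hF hC hb).f = dO _ y) :
    1 ≤ |D'| := by
  obtain ⟨r0, hr0⟩ := (negBG D hl hN hF hC hb).exists_r0
  obtain ⟨a, ha, h1⟩ := PI_ptN (K := 2 * l) (by omega) D.hk hN hb hr0
    (gvg 𝒜 hB D.f0.1.1 (D.f0.1.2 0) (D.f0.2.2.1 0))
  obtain ⟨r, hr, h2⟩ := deg_one hn hB D.hk ⟨l, rfl⟩ hN hF hU ha
  rw [h1 r h2] at hr0
  exact (negBG D hl hN hF hC hb).D_ge hr hr0 D' hy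

end facts

end Pool.Agent.Lib.MP_ccbbf6_gt.L5.NEG
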