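import Pool.Agent.Lib.MP_ccbbf6_gt.L5.TE3
import Pool.Agent.Lib.MP_ccbbf6_gt.L5.TP08

/-!
# Level 5, TE4: the isometries `V(p, q) → V(q, p)` as a matrix; `p_j(V)` is invariant under the swap (helper93)
-/

set_option autoImplicit false
set_option maxSynthPendingDepth 3
set_option linter.unusedSectionVars false

open Set Filter Topology Matrix Real
open scoped ContDiff RealInnerProductSpace

noncomputable section

namespace Pool.Agent.Lib.MP_ccbbf6_gt.L5.TE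

open L4 L4.FR Geo L4.ORI

variable {n κ : ℕ} {M : Type} [MetricSpace M] [CompactSpace M] {𝒜 : SDist n M} (t : TEmb 𝒜)

/-- the variation of a geodesic along itself -/
theorem isVar_shift (hB : Bl M) (c : Gs M) : NEG.IsVar 𝒜 c (𝒜.vel c.1 0) (𝒜.vel c.1 π) := by
  refine ⟨fun θ => shift θ c, ?_, ?_, ?_, ?_⟩
  · exact SmGAt.shift hB (σ := fun _ : ℝ => c) (r := fun θ => θ) ⟨smAt_const _ _, smAt_const _ _⟩ contDiffAt_id
  · refine Subtype.ext (funext fun s => ?_)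
    show c.1 (s + 0) = c.1 s
    rw [add_zero]
  · have h1 := (IsGeo.exists_vel 𝒜 c.2 0).2
    have h2 : (fun θ : ℝ => 𝒜.ψ (c.1 0) ((shift θ c).1 0)) = fun θ => 𝒜.ψ (c.1 0) (c.1 θ) := by
      funext θ
      rw [G3.shift_zero_pt]
    rw [h2]
    exact h1
  · have h1 := (IsGeo.exists_vel 𝒜 c.2 π).2
    have h2 : HasDerivAt (fun θ : ℝ => π + θ) 1 0 := by
      have := (hasDerivAt_id (0 : ℝ)).const_add π
      exact this
    have h3 : HasDerivAt (fun s => 𝒜.ψ (c.1 π) (c.1 s)) (𝒜.vel c.1 π) (π + 0) := by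
      rw [add_zero]
      exact h1
    have h4 := HasDerivAt.scomp (0 : ℝ) h3 h2
    rw [one_smul] at h4
    exact h4

theorem tb_eq (hB : Bl M) (z : (spF 𝒜).pt) (w : Eu n) : tb hB z w = 𝒜.vel (gz hB z w).1 π := by
  unfold tb
  rw [G3.vel_shift, zero_add]

theorem tb_inner (hB : Bl M) (z : (spF 𝒜).pt) {w w' : Eu n} (hw : w ∈ VF 𝒜 z) (hw' : w' ∈ VF 𝒜 z) (h1 : ‖w‖ = 1)
    (h1' : ‖w'‖ = 1) : ⟪tb hB z w, tb hB z w'⟫ = ⟪w, w'⟫ := by
  have h0 : w ≠ 0 := kc_ne h1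
  have h0' : w' ≠ 0 := kc_ne h1'
  have hv := isVar_shift (𝒜 := 𝒜) hB (gz hB z w')
  rw [gz_vel hB z h1'] at hv
  have hP : 𝒜.PV ((gz hB z w').1 0) (𝒜.vel (gz hB z w').1 0) = VF 𝒜 z := by
    rw [gz_vel hB z h1', gz0, VF_cz hB z]
    have h2 := PV_eq_of_mem 𝒜 hB ((cz hB z).1 0) (v := 𝒜.vel (cz hB z).1 0) (w := w') (by rw [← VF_cz hB z]; exact hw') h0'
    rw [cz0] at h2 ⊢
    exact h2
  have h2 := NEG.top_inner hB hv (w := w) (by rw [hP]; exact hw) h1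
  rw [tb_eq, tb_eq, h2]
  have h3 : gw 𝒜 hB (gz hB z w') w = gz hB z w := by
    refine eq_of_vel' 𝒜 ?_ ?_
    · rw [gw_zero, gz0, gz0]
    · rw [gw_vel 𝒜 hB _ h0, nrm_of_norm h1, gz_vel hB z h1]
  rw [h3]

/-- the images of a frame form a frame -/
theorem tb_ofr (hB : Bl M) (z : (spF 𝒜).pt) {r : ℕ} {a : Fin r → Eu n} (ha : OFr (VF 𝒜 z) a) :
    OFr (VF 𝒜 ((sw 𝒜).1 z)) fun i => tb hB z (a i) := by
  have h1 : ∀ i, ‖a i‖ = 1 := fun i => ha.2.1 i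
  refine ⟨fun i => tb_mem hB z (ha.1 i) (kc_ne (h1 i)), ?_⟩
  rw [orthonormal_iff_ite]
  intro i j
  rw [tb_inner hB z (ha.1 i) (ha.1 j) (h1 i) (h1 j)]
  exact orthonormal_iff_ite.1 ha.2 i j

theorem tb_change (hB : Bl M) (hk : 𝒜.HK κ) (z : (spF 𝒜).pt) {a a' : Fin (κ + 1) → Eu n} (ha : OFr (VF 𝒜 z) a)
    (ha' : OFr (VF 𝒜 z) a') (i : Fin (κ + 1)) : tb hB z (a' i) = ∑ j, ⟪a j, a' i⟫ • tb hB z (a j) := by
  have h1 := frame_expand (Nat.succ_pos κ) (finrank_VF hB hk ((sw 𝒜).1 z)) (tb_ofr hB z ha) ((tb_ofr hB z ha').1 i)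
  refine h1.symm.trans (Finset.sum_congr rfl fun j _ => ?_)
  rw [tb_inner hB z (ha.1 j) (ha'.1 i) (ha.2.1 j) (ha'.2.1 i)]

theorem exists_ofr (hB : Bl M) (hk : 𝒜.HK κ) (z : (spF 𝒜).pt) : ∃ a : Fin (κ + 1) → Eu n, OFr (VF 𝒜 z) a := by
  let b := (stdOrthonormalBasis ℝ (VF 𝒜 z)).reindex (finCongr (finrank_VF hB hk z))
  exact ⟨fun i => (b i : Eu n), fun i => (b i).2, b.orthonormal.comp_linearIsometry (VF 𝒜 z).subtypeₗᵢ⟩

/-- the matrix of the isometry -/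
def thP (hB : Bl M) (hk : 𝒜.HK κ) (z : (spF 𝒜).pt) : Matrix (Fin t.D) (Fin t.D) ℝ :=
  OT.fM (fun i => t.i z.1.1 ((exists_ofr hB hk z).choose i)) fun i => t.i z.1.2 (tb hB z ((exists_ofr hB hk z).choose i))

theorem OFr.mapI {r : ℕ} {E E' : Type} [NormedAddCommGroup E] [InnerProductSpace ℝ E] [NormedAddCommGroup E']
    [InnerProductSpace ℝ E'] {W : Submodule ℝ E} {a : Fin r → E} (ha : OFr W a) (io : E →ₗᵢ[ℝ] E') :
    OFr (W.map io.toLinearMap) fun i => io (a i) :=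
  ⟨fun i => Submodule.mem_map_of_mem (ha.1 i), ha.2.comp_linearIsometry io⟩

theorem thP_eq (hB : Bl M) (hk : 𝒜.HK κ) (z : (spF 𝒜).pt) {a : Fin (κ + 1) → Eu n} (ha : OFr (VF 𝒜 z) a) :
    thP t hB hk z = OT.fM (fun i => t.i z.1.1 (a i)) fun i => t.i z.1.2 (tb hB z (a i)) := by
  have ha0 := (exists_ofr hB hk z).choose_spec
  refine OT.fM_change (Nat.succ_pos κ) (W := WV t z) ?_ (OFr.mapI ha (t.i z.1.1)) (OFr.mapI ha0 (t.i z.1.1)) fun i => ?_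
  · exact (Submodule.equivMapOfInjective (t.i z.1.1).toLinearMap (t.i z.1.1).injective (VF 𝒜 z)).finrank_eq.symm.trans
      (finrank_VF hB hk z)
  · show t.i z.1.2 (tb hB z _) = _
    rw [tb_change hB hk z ha ha0 i, map_sum]
    refine Finset.sum_congr rfl fun j _ => ?_
    rw [map_smul, (t.i z.1.1).inner_map_map]

theorem WV_rank (hB : Bl M) (hk : 𝒜.HK κ) (z : (spF 𝒜).pt) : Module.finrank ℝ (WV t z) = κ + 1 :=
  (Submodule.equivMapOfInjective (t.i z.1.1).toLinearMap (t.i z.1.1).injective (VF 𝒜 z)).finrank_eq.symm.trans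
    (finrank_VF hB hk z)

theorem thP_mul (hB : Bl M) (hk : 𝒜.HK κ) (z : (spF 𝒜).pt) :
    thP t hB hk z * (thP t hB hk z)ᵀ = OT.pW (WV t ((sw 𝒜).1 z)) := by
  obtain ⟨a, ha⟩ := exists_ofr hB hk z
  rw [thP_eq t hB hk z ha, OT.fM_tr, OT.fM_mul (OFr.mapI ha (t.i z.1.1)).2]
  exact OT.fM_self (Nat.succ_pos κ) (WV_rank t hB hk _) (OFr.mapI (tb_ofr hB z ha) (t.i z.1.2))

theorem thP_mul' (hB : Bl M) (hk : 𝒜.HK κ) (z : (spF 𝒜).pt) :
    (thP t hB hk z)ᵀ * thP t hB hk z = OT.pW (WV t z) := by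
  obtain ⟨a, ha⟩ := exists_ofr hB hk z
  rw [thP_eq t hB hk z ha, OT.fM_tr, OT.fM_mul (OFr.mapI (tb_ofr hB z ha) (t.i z.1.2)).2]
  exact OT.fM_self (Nat.succ_pos κ) (WV_rank t hB hk _) (OFr.mapI ha (t.i z.1.1))

theorem tb_smooth (hB : Bl M) {k : ℕ} (p : (spF 𝒜).Plot k) {w : V k → Eu n} {z : V k} (hw : (vF 𝒜).sAt p w z)
    (h1 : ∀ᶠ y in 𝓝 z, w y ∈ VF 𝒜 (p.1 y) ∧ ‖w y‖ = 1) :
    ContDiffAt ℝ ∞ (fun y => t.i (p.1 y).1.2 (tb hB (p.1 y) (w y))) z := by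
  have hx : SmAt 𝒜 (fun v => (cz hB (p.1 v)).1 0) z := by
    have h2 : (fun v => (cz hB (p.1 v)).1 0) = fun v => (p.1 v).1.1 := funext fun v => cz0 hB _
    rw [h2]
    exact p.2.1 z
  have hw' : SmV 𝒜 (p.1 z).1.1 (fun v => (cz hB (p.1 v)).1 0) w z := by
    have h2 : (fun v => (cz hB (p.1 v)).1 0) = fun v => (p.1 v).1.1 := funext fun v => cz0 hB _
    rw [h2]
    exact hw
  have h3 : SmGA 𝒜 (fun v => gz hB (p.1 v) (w v)) z :=
    smGA_gw hB hx (p := (p.1 z).1.1) (by rw [cz0]; exact 𝒜.mem _) hw' (kc_ne h1.self_of_nhds.2)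
  have h4 : SmGA 𝒜 (fun v => shift π (gz hB (p.1 v) (w v))) z :=
    SmGAt.shift hB (r := fun _ => π) h3 contDiffAt_const
  have h5 := h4.smV hB (p := (shift π (gz hB (p.1 z) (w z))).1 0) (𝒜.mem _)
  have h6 := (t.smooth h4.1 (𝒜.mem _)).1 h5
  refine h6.congr_of_eventuallyEq ?_
  filter_upwards [h1] with y hy
  have h7 : (shift π (gz hB (p.1 y) (w y))).1 0 = (p.1 y).1.2 := by
    rw [G3.shift_zero_pt, gzp hB _ hy.1 (kc_ne hy.2)]
  rw [h7]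
  rfl

/-- **the matrix of the isometries** -/
def thM (hB : Bl M) (hk : 𝒜.HK κ) (hL : LocV 𝒜 κ) : Matrix (Fin t.D) (Fin t.D) (SF (spF 𝒜)) :=
  OT.frM (r := κ + 1) (thP t hB hk) fun p z => by
    obtain ⟨a, ha⟩ := (svV hB hk hL).loc p z
    refine ⟨fun y i => t.i (p.1 y).1.1 (a y i), fun y i => t.i (p.1 y).1.2 (tb hB (p.1 y) (a y i)), fun i => ?_, fun i => ?_, ?_⟩
    · exact ((isoF t).sm p _ z).1 (ha.self_of_nhds.2 i)
    · exact tb_smooth t hB p (ha.self_of_nhds.2 i) (ha.mono fun y hy => ⟨hy.1.1 i, hy.1.2.1 i⟩)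
    · filter_upwards [ha] with y hy
      exact thP_eq t hB hk _ hy.1

theorem thM_mul (hB : Bl M) (hk : 𝒜.HK κ) (hL : LocV 𝒜 κ) :
    thM t hB hk hL * (thM t hB hk hL)ᵀ = (PV t hB hk hL).map (pf (sw 𝒜)) := SF_mat_ext fun x => by
  rw [Matrix.map_mul]
  exact thP_mul t hB hk x

theorem thM_mul' (hB : Bl M) (hk : 𝒜.HK κ) (hL : LocV 𝒜 κ) :
    (thM t hB hk hL)ᵀ * thM t hB hk hL = PV t hB hk hL := SF_mat_ext fun x => by
  rw [Matrix.map_mul]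
  exact thP_mul' t hB hk x

/-- isomorphic bundles have the same power sums -/
theorem hpb_iso {X : Space} {ι ι' : Type*} [Fintype ι] [DecidableEq ι] [Fintype ι'] [DecidableEq ι']
    {P : Matrix ι ι (SF X)} {Q : Matrix ι' ι' (SF X)} (hP : P * P = P) (hQ : Q * Q = Q) {a : Matrix ι ι' (SF X)}
    {b : Matrix ι' ι (SF X)} (h1 : a * b = P) (h2 : b * a = Q) (j : ℕ) : hpb hQ j = hpb hP j := by
  unfold hpb
  refine (CylO X).hps_iso (a := a.map (FO X).f) (b := b.map (FO X).f) ((FO X).idem hP) ((FO X).idem hQ) ((FO X).Ev _)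
    ((FO X).Ev _) ?_ ?_ j
  · rw [← (FO X).mul, h1]
  · rw [← (FO X).mul, h2]

/-- **the power sums of `V` are invariant under the swap** -/
theorem hpb_sw (hB : Bl M) (hk : 𝒜.HK κ) (hL : LocV 𝒜 κ) (j : ℕ) :
    (GHom.pull (sw 𝒜)).he (hpb (PV_idem t hB hk hL) j) = hpb (PV_idem t hB hk hL) j := by
  rw [hpb_pull]
  exact hpb_iso (PV_idem t hB hk hL) _ (thM_mul' t hB hk hL) (thM_mul t hB hk hL) j

/-- in particular `p_1` -/
theorem hp1_sw (hB : Bl M) (hk : 𝒜.HK κ) (hL : LocV 𝒜 κ) :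
    (GHom.pull (sw 𝒜)).he (L5.hp1 (FO (spF 𝒜)) (PV_idem t hB hk hL)) = L5.hp1 (FO (spF 𝒜)) (PV_idem t hB hk hL) := by
  have h1 := hpb_sw t hB hk hL 2
  unfold hpb at h1
  unfold L5.hp1
  rw [map_smul, h1]

end Pool.Agent.Lib.MP_ccbbf6_gt.L5.TE
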