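import Pool.Agent.Lib.MP_ccbbf6_gt.L5.NL
import Pool.Agent.Lib.MP_ccbbf6_gt.L5.NX1
import Pool.Agent.Lib.MP_ccbbf6_gt.L5.TE4

/-!
# Level 5, TE5: `K` and the negative bundle over `UM`; `p_j(N) = p_j(K) = p_j(V)` (helper93)
-/

set_option autoImplicit false
set_option maxSynthPendingDepth 3
set_option linter.unusedSectionVars false

open Set Filter Topology Matrix Real Module
open scoped ContDiff RealInnerProductSpace

noncomputable section

namespace Pool.Agent.Lib.MP_ccbbf6_gt.L5.TE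

open L4 L4.FR Geo L4.ORI NEG

variable {n κ : ℕ} {M : Type} [MetricSpace M] [CompactSpace M] {𝒜 : SDist n M} (t : TEmb 𝒜)

/-! ### matrices of linear maps -/

/-- the matrix of a linear map -/
def etR {a b : ℕ} (L : EuclideanSpace ℝ (Fin a) →ₗ[ℝ] EuclideanSpace ℝ (Fin b)) : Matrix (Fin b) (Fin a) ℝ :=
  Matrix.of fun i j => L (EuclideanSpace.single j 1) i

theorem etR_eq {a b : ℕ} (L : EuclideanSpace ℝ (Fin a) →ₗ[ℝ] EuclideanSpace ℝ (Fin b)) : etR L =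
    LinearMap.toMatrix (EuclideanSpace.basisFun (Fin a) ℝ).toBasis (EuclideanSpace.basisFun (Fin b) ℝ).toBasis L := by
  ext i j
  rw [LinearMap.toMatrix_apply]
  simp [etR]

theorem etR_mul {a b c : ℕ} (L : EuclideanSpace ℝ (Fin b) →ₗ[ℝ] EuclideanSpace ℝ (Fin c))
    (L' : EuclideanSpace ℝ (Fin a) →ₗ[ℝ] EuclideanSpace ℝ (Fin b)) : etR (L ∘ₗ L') = etR L * etR L' := by
  rw [etR_eq, etR_eq, etR_eq, ← LinearMap.toMatrix_comp]

/-! ### the bundle `K` -/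

/-- the family `K` -/
theorem svK (hB : Bl M) (hk : 𝒜.HK κ) : SV κ ((vTM 𝒜).pull (foot hB 0)) (fun c : Gs M => L5.Kc 𝒜 c) where
  rank c := L5.finrank_Kc 𝒜 hB hk c
  loc p z := by
    have hσ : ∀ u, SmGA 𝒜 p.1 u := fun u => ⟨p.2.1 u, p.2.2 u⟩
    let b := (stdOrthonormalBasis ℝ (L5.Kc 𝒜 (p.1 z))).reindex (finCongr (L5.finrank_Kc 𝒜 hB hk (p.1 z)))
    have ho : Orthonormal ℝ fun i => (b i : Eu n) := b.orthonormal.comp_linearIsometry (L5.Kc 𝒜 (p.1 z)).subtypeₗᵢ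
    obtain ⟨w, -, hw⟩ := exists_frame_Kc hB hk (hσ z) ho fun i => (b i).2
    refine ⟨fun v i => w i v, ?_⟩
    filter_upwards [hw, (hσ z).1.cont.eventually ((𝒜.ψ ((p.1 z).1 0)).open_source.mem_nhds (𝒜.mem _))] with y h1 h3
    refine ⟨⟨h1.2.1, h1.1⟩, fun i => ?_⟩
    have h5 : SmV 𝒜 ((p.1 y).1 0) (fun v => (p.1 v).1 0) (w i) y :=
      SmV.chart (hσ y).1 (h1.2.2 (hσ y) i) h3 (𝒜.mem _)
    exact h5

/-- the embedding of the tangent spaces at the foot points -/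
theorem isoG (hB : Bl M) : IsoE ((vTM 𝒜).pull (foot hB 0)) (fun c : Gs M => t.i (c.1 0)) :=
  ⟨fun p w z => (isoE t).sm ((foot hB 0).pl p) w z⟩

/-- `K_c` in `ℝ^D` -/
def WK (c : Gs M) : Submodule ℝ (EuclideanSpace ℝ (Fin t.D)) := (L5.Kc 𝒜 c).map (t.i (c.1 0)).toLinearMap

theorem svWK (hB : Bl M) (hk : 𝒜.HK κ) : SV κ (triv (EuclideanSpace ℝ (Fin t.D)) (spG 𝒜)) (WK t) :=
  (svK hB hk).emb (isoG t hB)

/-- the projection matrix of `K` -/
def PK (hB : Bl M) (hk : 𝒜.HK κ) (h0 : 0 < κ) : Matrix (Fin t.D) (Fin t.D) (SF (spG 𝒜)) := OT.mW (svWK t hB hk) h0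

/-- the unit section -/
def yK (hB : Bl M) (l : Fin t.D) : SF (spG 𝒜) :=
  ⟨fun c => t.i (c.1 0) (𝒜.vel c.1 0) l, fun _ p => contDiff_iff_contDiffAt.2 fun z =>
    contDiffAt_euclidean.1 (((isoG t hB).sm p (fun v => 𝒜.vel (p.1 v).1 0) z).1 (smV_G hB p z)) l⟩

theorem WV_gF (hB : Bl M) (c : Gs M) : WV t ((gF hB).1 c) = (Vc 𝒜 c).map (t.i (c.1 0)).toLinearMap := by
  unfold WV
  rw [VF_gF hB c]
  rfl

theorem vel_WV (hB : Bl M) (c : Gs M) : t.i (c.1 0) (𝒜.vel c.1 0) ∈ WV t ((gF hB).1 c) := by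
  rw [WV_gF]
  exact Submodule.mem_map_of_mem (vel_mem_Vc 𝒜 hB c)

theorem vel_nm (c : Gs M) : ‖t.i (c.1 0) (𝒜.vel c.1 0)‖ = 1 := by
  rw [(t.i (c.1 0)).norm_map]
  exact vel_norm 𝒜 c

theorem mem_WK (hB : Bl M) (c : Gs M) (w : EuclideanSpace ℝ (Fin t.D)) :
    w ∈ WK t c ↔ w ∈ WV t ((gF hB).1 c) ∧ ⟪t.i (c.1 0) (𝒜.vel c.1 0), w⟫ = 0 := by
  rw [WV_gF]
  constructor
  · rintro ⟨v, hv, rfl⟩
    have hv' := (mem_Kc 𝒜).1 hv
    exact ⟨⟨v, hv'.1, rfl⟩, ((t.i (c.1 0)).inner_map_map _ _).trans hv'.2⟩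
  · rintro ⟨⟨v, hv, rfl⟩, h2⟩
    exact ⟨v, (mem_Kc 𝒜).2 ⟨hv, ((t.i (c.1 0)).inner_map_map _ _).symm.trans h2⟩, rfl⟩

theorem sec_yK (hB : Bl M) (hk : 𝒜.HK κ) (hL : LocV 𝒜 κ) :
    Sec ((PV t hB hk hL).map (pf (gF hB))) (yK t hB) := by
  constructor
  · funext i
    refine SF_ext fun c => ?_
    have h1 := congrFun (OT.pW_mem (vel_WV t hB c)) i
    rw [Matrix.mulVec, dotProduct] at h1
    rw [Matrix.mulVec, dotProduct, map_sum]
    refine Eq.trans ?_ h1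
    exact Finset.sum_congr rfl fun j _ => map_mul _ _ _
  · refine SF_ext fun c => ?_
    have h1 := vel_nm t (𝒜 := 𝒜) c
    rw [EuclideanSpace.norm_eq, Real.sqrt_eq_one] at h1
    rw [map_sum, map_one]
    refine Eq.trans ?_ h1
    refine Finset.sum_congr rfl fun j _ => ?_
    rw [map_mul, Real.norm_eq_abs, sq_abs, pow_two]
    rfl

/-- the projection onto the complement of a unit vector -/
theorem pW_red {D : ℕ} {V K : Submodule ℝ (EuclideanSpace ℝ (Fin D))} {y : EuclideanSpace ℝ (Fin D)} (hy : y ∈ V)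
    (h1 : ‖y‖ = 1) (hK : ∀ w, w ∈ K ↔ w ∈ V ∧ ⟪y, w⟫ = 0) (i j : Fin D) : OT.pW K i j = OT.pW V i j - y i * y j := by
  have hyy : ⟪y, y⟫ = (1 : ℝ) := by rw [real_inner_self_eq_norm_sq, h1]; norm_num
  obtain ⟨e, he⟩ : ∃ e : EuclideanSpace ℝ (Fin D), e = EuclideanSpace.single j (1 : ℝ) := ⟨_, rfl⟩
  have hye : ⟪y, e⟫ = y j := by
    rw [he, EuclideanSpace.inner_single_right]
    simp
  have h2 : K.starProjection e = V.starProjection e - ⟪y, e⟫ • y := by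
    refine Submodule.eq_starProjection_of_mem_of_inner_eq_zero (K := K) ?_ ?_
    · rw [hK]
      refine ⟨Submodule.sub_mem _ (Submodule.starProjection_apply_mem V e) (Submodule.smul_mem _ _ hy), ?_⟩
      have h3 := Submodule.inner_starProjection_left_eq_right V y e
      rw [Submodule.starProjection_eq_self_iff.2 hy] at h3
      rw [inner_sub_right, real_inner_smul_right, hyy, ← h3]
      ring
    · intro w hw
      rw [hK] at hw
      have h3 : ⟪e - V.starProjection e, w⟫ = (0 : ℝ) := Submodule.starProjection_inner_eq_zero _ _ hw.1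
      have h4 : e - (V.starProjection e - ⟪y, e⟫ • y) = (e - V.starProjection e) + ⟪y, e⟫ • y := by abel
      rw [h4, inner_add_left, h3, real_inner_smul_left, hw.2]
      ring
  have h5 := congrArg (fun v : EuclideanSpace ℝ (Fin D) => v i) h2
  unfold OT.pW
  rw [Matrix.of_apply, Matrix.of_apply, ← he]
  refine h5.trans ?_
  show V.starProjection e i - ⟪y, e⟫ * y i = _
  rw [hye]
  ring

theorem PK_eq (hB : Bl M) (hk : 𝒜.HK κ) (hL : LocV 𝒜 κ) (h0 : 0 < κ) :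
    redP ((PV t hB hk hL).map (pf (gF hB))) (yK t hB) = PK t hB hk h0 := by
  ext i j c
  exact (pW_red (vel_WV t hB c) (vel_nm t c) (mem_WK t hB c) i j).symm

theorem PK_idem (hB : Bl M) (hk : 𝒜.HK κ) (h0 : 0 < κ) : PK t hB hk h0 * PK t hB hk h0 = PK t hB hk h0 := OT.mW_idem _ _

/-- `K` and `V` have the same power sums -/
theorem hpb_K (hB : Bl M) (hk : 𝒜.HK κ) (hL : LocV 𝒜 κ) (h0 : 0 < κ) {j : ℕ} (hj : j ≠ 0) :
    hpb (PK_idem t hB hk h0) j = (GHom.pull (gF (𝒜 := 𝒜) hB)).he (hpb (PV_idem t hB hk hL) j) := by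
  rw [hpb_pull]
  have hs : ((PV t hB hk hL).map (pf (gF hB)))ᵀ = (PV t hB hk hL).map (pf (gF hB)) :=
    Matrix.transpose_map.symm.trans (congrArg (fun Q : Matrix _ _ (SF (spF 𝒜)) => Q.map (pf (gF hB))) (PV_symm t hB hk hL))
  have hR : redP ((PV t hB hk hL).map (pf (gF hB))) (yK t hB) * redP ((PV t hB hk hL).map (pf (gF hB))) (yK t hB) =
      redP ((PV t hB hk hL).map (pf (gF hB))) (yK t hB) := by
    rw [PK_eq t hB hk hL h0, PK_idem]
  have h1 := hps_red (φ := FO (spG 𝒜)) (CylO (spG 𝒜)) (map_idem (PV_idem t hB hk hL) (gF hB)) hs (sec_yK t hB hk hL) hR hj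
  refine Eq.trans ?_ h1
  exact hpb_congr (PK_eq t hB hk hL h0).symm (PK_idem t hB hk h0) hR j

/-! ### the negative bundle -/

section neg

variable {N : ℕ} {C : Eu N → Gs M → M} {P : Gs M → Eu N →L[ℝ] Eu N}

/-- the evaluation in `ℝ^D` -/
def LA (hB : Bl M) (C : Eu N → Gs M → M) (P : Gs M → Eu N →L[ℝ] Eu N) (c : Gs M) :
    Eu N →ₗ[ℝ] EuclideanSpace ℝ (Fin t.D) := (t.i (c.1 0)).toLinearMap ∘ₗ (TN 𝒜 hB C P c : Eu N →ₗ[ℝ] Eu n)

/-- the projection to `K_c` of the adjoint of the embedding -/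
def kad (c : Gs M) : EuclideanSpace ℝ (Fin t.D) →ₗ[ℝ] Eu n :=
  ((L5.Kc 𝒜 c).starProjection : Eu n →ₗ[ℝ] Eu n) ∘ₗ
    (ContinuousLinearMap.adjoint (t.i (c.1 0)).toContinuousLinearMap : EuclideanSpace ℝ (Fin t.D) →ₗ[ℝ] Eu n)

theorem kad_mem (c : Gs M) (e : EuclideanSpace ℝ (Fin t.D)) : kad t c e ∈ L5.Kc 𝒜 c :=
  Submodule.starProjection_apply_mem _ _

theorem kad_inner (c : Gs M) {w : Eu n} (hw : w ∈ L5.Kc 𝒜 c) (e : EuclideanSpace ℝ (Fin t.D)) :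
    ⟪w, kad t c e⟫ = ⟪t.i (c.1 0) w, e⟫ := by
  have h1 := Submodule.inner_starProjection_left_eq_right (L5.Kc 𝒜 c) w
    (ContinuousLinearMap.adjoint (t.i (c.1 0)).toContinuousLinearMap e)
  rw [Submodule.starProjection_eq_self_iff.2 hw] at h1
  refine h1.symm.trans ?_
  rw [ContinuousLinearMap.adjoint_inner_right]
  rfl

theorem kad_io (c : Gs M) {w : Eu n} (hw : w ∈ L5.Kc 𝒜 c) : kad t c (t.i (c.1 0) w) = w := by
  have h2 : ∀ v ∈ L5.Kc 𝒜 c, ⟪v, kad t c (t.i (c.1 0) w) - w⟫ = 0 := by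
    intro v hv
    rw [inner_sub_right, kad_inner t c hv, (t.i (c.1 0)).inner_map_map, sub_self]
  have h3 := h2 _ (Submodule.sub_mem _ (kad_mem t c (t.i (c.1 0) w)) hw)
  rw [inner_self_eq_zero, sub_eq_zero] at h3
  exact h3

theorem kad_frame (h0 : 0 < κ) (hB : Bl M) (hk : 𝒜.HK κ) (c : Gs M) {a : Fin κ → Eu n} (ha : OFr (L5.Kc 𝒜 c) a)
    (e : EuclideanSpace ℝ (Fin t.D)) : kad t c e = ∑ i, ⟪t.i (c.1 0) (a i), e⟫ • a i := by
  rw [← frame_expand h0 (L5.finrank_Kc 𝒜 hB hk c) ha (kad_mem t c e)]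
  exact Finset.sum_congr rfl fun i _ => by rw [kad_inner t c (ha.1 i)]

/-- the inverse of the evaluation -/
def LB (hB : Bl M) (C : Eu N → Gs M → M) (P : Gs M → Eu N →L[ℝ] Eu N) (c : Gs M) :
    EuclideanSpace ℝ (Fin t.D) →ₗ[ℝ] Eu N :=
  ((ivN 𝒜 hB C P c : Eu N →ₗ[ℝ] Eu N) ∘ₗ
    (ContinuousLinearMap.adjoint (TN 𝒜 hB C P c) : Eu n →ₗ[ℝ] Eu N)) ∘ₗ kad t c

theorem LB_apply (hB : Bl M) (c : Gs M) (e : EuclideanSpace ℝ (Fin t.D)) :
    LB t hB C P c e = xN 𝒜 hB C P c (kad t c e) := rfl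

theorem LA_LB (hB : Bl M) (hk : 𝒜.HK κ) (hN : NegData 𝒜 κ hB C P) (c : Gs M) :
    etR (LA t hB C P c ∘ₗ LB t hB C P c) = OT.pW (WK t c) := by
  ext i j
  obtain ⟨e, he⟩ : ∃ e : EuclideanSpace ℝ (Fin t.D), e = EuclideanSpace.single j (1 : ℝ) := ⟨_, rfl⟩
  have h1 : (LA t hB C P c ∘ₗ LB t hB C P c) e = t.i (c.1 0) (kad t c e) := by
    show t.i (c.1 0) (evc 𝒜 hB C c (P c (xN 𝒜 hB C P c (kad t c e)))) = _
    rw [xN_mem hB hk hN (kad_mem t c e), evc_xN hB hk hN (kad_mem t c e)]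
  have h2 : (WK t c).starProjection e = t.i (c.1 0) (kad t c e) := by
    refine Submodule.eq_starProjection_of_mem_of_inner_eq_zero (K := WK t c) (Submodule.mem_map_of_mem (kad_mem t c e)) ?_
    rintro _ ⟨w, hw, rfl⟩
    show ⟪e - t.i (c.1 0) (kad t c e), t.i (c.1 0) w⟫ = 0
    rw [inner_sub_left, (t.i (c.1 0)).inner_map_map, real_inner_comm (t.i (c.1 0) w) e, real_inner_comm w (kad t c e),
      kad_inner t c hw, sub_self]
  show (LA t hB C P c ∘ₗ LB t hB C P c) (EuclideanSpace.single j 1) i = (WK t c).starProjection (EuclideanSpace.single j 1) i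
  rw [← he, h1, h2]

theorem LB_LA (hB : Bl M) (hN : NegData 𝒜 κ hB C P) (c : Gs M) :
    etR (LB t hB C P c ∘ₗ LA t hB C P c) = etN (P c) := by
  ext i j
  show (LB t hB C P c ∘ₗ LA t hB C P c) (EuclideanSpace.single j 1) i = P c (EuclideanSpace.single j 1) i
  have h1 : ∀ x : Eu N, (LB t hB C P c ∘ₗ LA t hB C P c) x = P c x := by
    intro x
    show xN 𝒜 hB C P c (kad t c (t.i (c.1 0) (evc 𝒜 hB C c (P c x)))) = P c x
    rw [kad_io t c (evc_mem (C := C) hB c (P c x)), xN_evc hB hN (hN.idem c x)]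
  rw [h1]

/-- matrix of the evaluation -/
def mA (hB : Bl M) (hk : 𝒜.HK κ) (hN : NegData 𝒜 κ hB C P) : Matrix (Fin t.D) (Fin N) (SF (spG 𝒜)) :=
  Matrix.of fun i j => ⟨fun c => etR (LA t hB C P c) i j, fun k p => contDiff_iff_contDiffAt.2 fun z => by
    have h1 : SmV 𝒜 ((p.1 z).1 0) (fun v => (p.1 v).1 0) (fun v => TN 𝒜 hB C P (p.1 v) (EuclideanSpace.single j 1)) z :=
      TN_smV hB hk hN (σ := p.1) (p.2.atP z) contDiffAt_const (𝒜.mem _)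
    exact contDiffAt_euclidean.1 (((isoG t hB).sm p _ z).1 h1) i⟩

/-- matrix of the inverse of the evaluation -/
def mBi (hB : Bl M) (hk : 𝒜.HK κ) (hN : NegData 𝒜 κ hB C P) (h0 : 0 < κ) : Matrix (Fin N) (Fin t.D) (SF (spG 𝒜)) :=
  Matrix.of fun i j => ⟨fun c => etR (LB t hB C P c) i j, fun k p => contDiff_iff_contDiffAt.2 fun z => by
    obtain ⟨a, ha⟩ := (svK hB hk).loc p z
    have hx : SmV 𝒜 ((p.1 z).1 0) (fun v => (p.1 v).1 0)
        (fun v => ∑ i, ⟪t.i ((p.1 v).1 0) (a v i), EuclideanSpace.single j (1 : ℝ)⟫ • a v i) z := by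
      refine ((vTM 𝒜).pull (foot hB 0)).sum (p := p) Finset.univ fun i _ => ?_
      refine ((vTM 𝒜).pull (foot hB 0)).smul ?_ (ha.self_of_nhds.2 i)
      exact (((isoG t hB).sm p _ z).1 (ha.self_of_nhds.2 i)).inner ℝ contDiffAt_const
    have h1 := xN_smooth hB hk hN (σ := p.1) (p.2.atP z) (𝒜.mem _) hx
    refine (contDiffAt_euclidean.1 h1 i).congr_of_eventuallyEq ?_
    filter_upwards [ha] with y hy
    show xN 𝒜 hB C P (p.1 y) (kad t (p.1 y) (EuclideanSpace.single j 1)) i = _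
    rw [kad_frame t h0 hB hk (p.1 y) hy.1]⟩

theorem mA_mB (hB : Bl M) (hk : 𝒜.HK κ) (hN : NegData 𝒜 κ hB C P) (h0 : 0 < κ) :
    mA t hB hk hN * mBi t hB hk hN h0 = PK t hB hk h0 := SF_mat_ext fun c => by
  rw [Matrix.map_mul]
  exact (etR_mul _ _).symm.trans (LA_LB t hB hk hN c)

theorem mB_mA (hB : Bl M) (hk : 𝒜.HK κ) (hN : NegData 𝒜 κ hB C P) (h0 : 0 < κ) :
    mBi t hB hk hN h0 * mA t hB hk hN = mG hN := SF_mat_ext fun c => by
  rw [Matrix.map_mul]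
  exact (etR_mul _ _).symm.trans (LB_LA t hB hN c)

/-- **the power sums of the negative bundle** -/
theorem hpb_N (hB : Bl M) (hk : 𝒜.HK κ) (hL : LocV 𝒜 κ) (hN : NegData 𝒜 κ hB C P) (h0 : 0 < κ) {j : ℕ} (hj : j ≠ 0) :
    hpb (mG_idem hN) j = (GHom.pull (gF (𝒜 := 𝒜) hB)).he (hpb (PV_idem t hB hk hL) j) := by
  rw [← hpb_K t hB hk hL h0 hj]
  exact hpb_iso (PK_idem t hB hk h0) (mG_idem hN) (mA_mB t hB hk hN h0) (mB_mA t hB hk hN h0) j

end neg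

end Pool.Agent.Lib.MP_ccbbf6_gt.L5.TE
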