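import Pool.Agent.Lib.MP_ccbbf6_gt.L4.ConG
import Pool.Agent.Lib.MP_ccbbf6_gt.L4.FUB

/-!
# Level 5, CON1: concentration of `u ^ m` at the point `p`, `u` of degree `κ + 1` (helper67)

This is L4/ExtB + L4/FUB + the first half of `JR_conn` (L4/F4) with `2` replaced by `κ + 1` and `BB e` by a form `Bf` of degree `κ` on `R^n` with `Bf = χ(|x|) ψ`, `ψ` homogeneous on `R^n - 0`, `Ex_p^* u = dd Bf`.

PROOFS.
(1) ev_scl_B: `ev_pb`; at `scl n δ⁻¹ x` (norm ≥ 2) `eB`, `vAt_mul`, `vAt_chO` and `chi_one`: ev (δ⁻¹ x) Bf = vAt (jR n) ψ toE (δ⁻¹ x), and ev x Bf = vAt (jR n) ψ toE x. Let P be a plot of spR n with P.1 =ᶠ toE near x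
    (`locPl_toE_f4`), P' the plot with values δ⁻¹ • P (a plot, never 0). Then (nrmR n).pl P' = (nrmR n).pl P (`Plot_ext`, norm of δ⁻¹ • v), so with `hrad` on ψ P' = on ψ P (`on_pull`). And ev x (on ψ P') = tr (scl) x (vAt ψ toE (δ⁻¹ x)):
    `vAt_comp` (as in UOR: `(vAt_comp jR_inj _ (p := toE) (g := scl n δ⁻¹) (Eventually.of_forall ..) (locPl_toE_f4 _)).2`) and `vAt_eq` for the function toE ∘ scl.
(2) ev_ddB: `edB`; near x χ = 1: `vAt_local`-type argument: take P as in (1), `vAt_eq`, `on_d`, `dd_local` (L4/F4): for z near x, ev z (on (chR n * ψ) P) = ev z (on ψ P) since χ(|toE z|) = 1 (see `T_supp`, `flat_gl` in L4).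
    T_supp: Dg n ((dd n Bf)^m) (`Dg_pow`, `Dg_dd`, n = (κ+1) m), `FR.eq_zero_of_topE`, `topE_eq_zero_of_ctr (EUL.phi_ne_zero hx)`, `EUL.ctr_pow_eq_zero`, `vAt_rad` for dO ψ (its nrmR-pull is itself: `pull_d`, hrad).
(3) exists_tau: as `exists_tau` in L4/ExtB (use `exists_ext` there with R = 2).
(4) TG_change: `pow_sub_exact` (L4/FU0): (u + dA)^m - u^m = dO W, W = A * Σ ..., Deg (κ + (κ+1)(m-1)) W, so foot^*(dO W) * Th = dO (foot^*W * Th) - sO (foot^*W) * dO Th and sO (foot^*W) * foot^*a = foot^*(sO W * a) = 0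
    (degree > n: `Deg_big`); `TG_d`.
(5) JR_pow: as in `JR_conn` (L4/F4), first half: Ξ = ψ * dψ^(m-1), `integral_fch_eq` with χ and χ^m; pointwise: (a + χ δ)^m with a = dχ ψ: a * a = 0 (dχ is a covector w: ι w * .. ; a * a = ι w * ψ * ι w * ψ = ± ι w * ι w * ..= 0), a commutes with δ
    (δ even: ivo δ = δ, `even`-type commutation for all elements: δ is the value of an even form; or use `even_comm'` for forms of spR n first: compute (dO (chR n * ψ))^m in Om (spR n): chR n * dψ + dχ * ψ, (dχ * ψ)^2 = 0 in Om (spR n):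
    this is easier: all identities in the algebra Om (spR n), with `chO_comm`, `d_chO_pow`, `even_comm'`, `odd`-type commutation sO dχ = - dχ), then `vAt_pow`, `vAt_mul`.
(6) TG_conc: `tendsto_TG` with T = (dd n Bf)^m, as `fub` in L4/FUB.
-/

set_option autoImplicit false
set_option maxSynthPendingDepth 3

open Set Filter Topology Metric Real MeasureTheory

open scoped ContDiff RealInnerProductSpace

noncomputable section

namespace Pool.Agent.Lib.MP_ccbbf6_gt.L5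

open Geo L4 L4.FR

variable {n m κ : ℕ} {M : Type} [MetricSpace M] [CompactSpace M] {𝒜 : SDist n M} {hB : Bl M} {p : M} {ψ : Om (spR n)}
  {Bf : Fm n} {u : Om (spM 𝒜)}

/-- the data of the concentration argument -/
structure ConcD (𝒜 : SDist n M) (hB : Bl M) (κ m : ℕ) (p : M) (ψ : Om (spR n)) (Bf : Fm n) (u : Om (spM 𝒜)) : Prop where
  hn : n = (κ + 1) * m
  hm : 1 ≤ m
  odd : ∃ t, κ = 2 * t + 1
  degψ : Deg κ ψ
  hrad : (nrmR n).pull ψ = ψ
  dgB : Dg κ Bf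
  eB : ∀ x : V n, ev x Bf = vAt (jR n) (chR n * ψ) toE x
  edB : ∀ x : V n, ev x (dd n Bf) = vAt (jR n) (dO _ (chR n * ψ)) toE x
  closed : dO _ u = 0
  deg : Deg (κ + 1) u
  ex : ∀ (k : ℕ) (P : (spM 𝒜).Plot k) (q : FR.Sm k n), (∀ z, ‖toE (q z)‖ < π ∧ P.1 z = 𝒜.Ex p (toE (q z))) →
    Om.on u P = pb q (dd n Bf)
  hER : (ER hB p).pull (b0 (fRho hB) u) = ψ

namespace ConcD

theorem ne_of_two_le {x : V n} (hx : 2 ≤ ‖toE x‖) : x ≠ 0 := by
  rintro rfl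
  have h2 : toE (0 : V n) = 0 := rfl
  rw [h2, norm_zero] at hx
  linarith

/-- the value of `Bf` far away -/
theorem ev_far (h : ConcD 𝒜 hB κ m p ψ Bf u) {x : V n} (hx : 2 ≤ ‖toE x‖) : ev x Bf = vAt (jR n) ψ toE x := by
  rw [h.eB x, vAt_mul jR_inj, chR_eq, vAt_chO contDiff_chi (ne_of_two_le hx), chi_one hx, map_one, one_mul]

theorem ev_scl_B (h : ConcD 𝒜 hB κ m p ψ Bf u) {δ : ℝ} (h0 : 0 < δ) (h1 : δ ≤ 1) {x : V n} (hx : 2 ≤ ‖toE x‖) :
    ev x (pb (scl n δ⁻¹) Bf) = ev x Bf := by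
  have hδ : 1 ≤ δ⁻¹ := (one_le_inv₀ h0).2 h1
  have hδ0 : 0 < δ⁻¹ := by positivity
  have hnx : 2 ≤ ‖toE ((scl n δ⁻¹) x)‖ := by
    have h3 : toE ((scl n δ⁻¹) x) = δ⁻¹ • toE x := rfl
    rw [h3, norm_smul, Real.norm_of_nonneg hδ0.le]
    nlinarith
  rw [ev_pb, h.ev_far hnx, h.ev_far hx, tr_eq]
  have hs : ∀ᶠ z' in 𝓝 x, ContDiffAt ℝ ∞ (scl n δ⁻¹ : V n → V n) z' :=
    Eventually.of_forall fun z' => (scl n δ⁻¹).smooth.contDiffAt
  rw [← (vAt_comp jR_inj ψ hs (p := toE) (locPl_toE_f4 (ne_of_two_le hnx))).2]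
  obtain ⟨P, hP⟩ := locPl_toE_f4 (ne_of_two_le hx)
  let P' : (spR n).Plot n := ⟨fun w => ⟨δ⁻¹ • (P.1 w).1, smul_ne_zero hδ0.ne' (P.1 w).2⟩,
    (show ContDiff ℝ ∞ fun w => (P.1 w).1 from P.2).const_smul δ⁻¹⟩
  have hP' : (fun w => jR n (P'.1 w)) =ᶠ[𝓝 x] fun w => toE ((scl n δ⁻¹ : V n → V n) w) := by
    filter_upwards [hP] with w hw
    change δ⁻¹ • (P.1 w).1 = δ⁻¹ • toE w
    have hw' : (P.1 w).1 = toE w := hw
    rw [hw']
  have e1 : Om.on ψ P' = Om.on ψ P := by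
    conv_lhs => rw [← h.hrad]
    conv_rhs => rw [← h.hrad]
    rw [on_pull, on_pull]
    congr 1
    refine Plot_ext fun w => Subtype.ext ?_
    change ‖δ⁻¹ • (P.1 w).1‖⁻¹ • (δ⁻¹ • (P.1 w).1) = ‖(P.1 w).1‖⁻¹ • (P.1 w).1
    rw [norm_smul, Real.norm_of_nonneg hδ0.le, smul_smul]
    congr 1
    field_simp
  rw [vAt_eq jR_inj ψ P' hP', vAt_eq jR_inj ψ P hP, e1]

theorem ev_ddB (h : ConcD 𝒜 hB κ m p ψ Bf u) {x : V n} (hx : 2 < ‖toE x‖) :
    ev x (dd n Bf) = vAt (jR n) (dO _ ψ) toE x := by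
  have hx0 := ne_of_two_le hx.le
  have h1 : ∀ᶠ r in 𝓝 ‖toE x‖, chi r = 1 := by
    filter_upwards [lt_mem_nhds hx] with r hr
    exact chi_one hr.le
  have hs : sO (spR n) (chO chi contDiff_chi) = chO chi contDiff_chi := sO_chO contDiff_chi
  rw [h.edB x, chR_eq, d_mul, vAt_add jR_inj, vAt_mul jR_inj, vAt_dchO_zero contDiff_chi h1, zero_mul, zero_add, hs,
    vAt_mul jR_inj, vAt_chO contDiff_chi hx0, chi_one hx.le, map_one, one_mul]

theorem T_supp (h : ConcD 𝒜 hB κ m p ψ Bf u) {x : V n} (hx : 2 < ‖toE x‖) : ev x ((dd n Bf) ^ m) = 0 := by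
  have hx0 := ne_of_two_le hx.le
  have h1 : Dg n ((dd n Bf) ^ m) := by
    have := Dg_pow (Dg_dd h.dgB) m
    rwa [← h.hn] at this
  refine FR.eq_zero_of_topE (Dg_ev h1 x) ?_
  have hd : (nrmR n).pull (dO _ ψ) = dO _ ψ := by rw [← pull_d, h.hrad]
  rw [map_pow, h.ev_ddB hx]
  exact topE_eq_zero_of_ctr (EUL.phi_ne_zero hx0) (EUL.ctr_pow_eq_zero (vAt_rad hd hx0) m)

theorem exists_tau (h : ConcD 𝒜 hB κ m p ψ Bf u) :
    ∃ A : ℝ → Om (spM 𝒜), ∀ δ, 0 < δ → δ ≤ 1 → Deg κ (A δ) ∧ ∀ (k : ℕ) (P : (spM 𝒜).Plot k) (q : FR.Sm k n),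
      (∀ z, ‖toE (q z)‖ < π ∧ P.1 z = 𝒜.Ex p (toE (q z))) →
        Om.on ((u + dO _ (A δ)) ^ m) P = pb q (pb (scl n δ⁻¹) ((dd n Bf) ^ m)) := by
  classical
  have key : ∀ δ : ℝ, ∃ A : Om (spM 𝒜), 0 < δ → δ ≤ 1 → Deg κ A ∧ ∀ (k : ℕ) (P : (spM 𝒜).Plot k) (q : FR.Sm k n),
      (∀ z, ‖toE (q z)‖ < π ∧ P.1 z = 𝒜.Ex p (toE (q z))) →
        Om.on ((u + dO _ A) ^ m) P = pb q (pb (scl n δ⁻¹) ((dd n Bf) ^ m)) := by
    intro δ
    by_cases hδ : 0 < δ ∧ δ ≤ 1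
    · obtain ⟨A, hA1, hA2⟩ := exists_ext (𝒜 := 𝒜) hB p (R := 2) (by linarith [Real.pi_gt_three])
        (pb (scl n δ⁻¹) Bf - Bf) (fun x hx => by
          rw [map_sub, h.ev_scl_B hδ.1 hδ.2 hx.le, sub_self])
      refine ⟨A, fun _ _ => ⟨hA1 κ (Dg_sub (Dg_pb _ h.dgB) h.dgB), fun k P q hq => ?_⟩⟩
      rw [on_pow, on_add, on_d, h.ex k P q hq, hA2 k P q hq, map_pow (pb (scl n δ⁻¹)), map_pow (pb q)]
      congr 1
      rw [pb_dd, ← map_add, map_sub, pb_dd]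
      congr 1
      abel
    · exact ⟨0, fun a b => absurd ⟨a, b⟩ hδ⟩
  choose A hA using key
  exact ⟨A, hA⟩

variable [MeasurableSpace M] [BorelSpace M]

omit [MeasurableSpace M] [BorelSpace M] in
private theorem CON1b_Deg_sum {X : Space} {j : ℕ} {ι : Type*} (s : Finset ι) (f : ι → Om X)
    (h : ∀ i ∈ s, Deg j (f i)) : Deg j (∑ i ∈ s, f i) := by
  classical
  induction s using Finset.induction_on with
  | empty =>
    rw [Finset.sum_empty]
    exact Deg_zero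
  | insert a s ha ih =>
    rw [Finset.sum_insert ha]
    exact Deg_add (h a (Finset.mem_insert_self a s)) (ih fun i hi => h i (Finset.mem_insert_of_mem hi))

theorem TG_change (h : ConcD 𝒜 hB κ m p ψ Bf u) {A : Om (spM 𝒜)} (hA : Deg κ A) {Th : Om (spG 𝒜)} {a : Om (spM 𝒜)}
    (ha : Deg n a) (hTh : dO _ Th = (foot hB 0).pull a) :
    TG hB ((foot hB 0).pull ((u + dO _ A) ^ m) * Th) = TG hB ((foot hB 0).pull (u ^ m) * Th) := by
  obtain ⟨t, ht⟩ := h.odd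
  have hs : sO _ u = u := by
    have h1 := h.deg
    have h2 : κ + 1 = 2 * (t + 1) := by omega
    rw [h2] at h1
    exact Deg_even h1
  have hsA : sO _ A = -A := by
    have h1 := hA
    rw [ht] at h1
    exact Deg_odd h1
  obtain ⟨W, hW⟩ : ∃ W, W = A * ∑ i ∈ Finset.range m, (u + dO _ A) ^ i * u ^ (m - 1 - i) := ⟨_, rfl⟩
  have hdW : dO _ W = (u + dO _ A) ^ m - u ^ m := by
    rw [hW]
    exact pow_sub_exact h.closed hs hsA m
  have hD : Deg (κ + (κ + 1) * (m - 1)) W := by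
    rw [hW]
    refine Deg_mul hA (CON1b_Deg_sum _ _ fun i hi => ?_)
    have hi' := Finset.mem_range.1 hi
    have h1 : Deg ((κ + 1) * i + (κ + 1) * (m - 1 - i)) ((u + dO _ A) ^ i * u ^ (m - 1 - i)) :=
      Deg_mul (Deg_pow (Deg_add h.deg (Deg_d hA)) i) (Deg_pow h.deg _)
    have h2 : (κ + 1) * i + (κ + 1) * (m - 1 - i) = (κ + 1) * (m - 1) := by
      rw [← mul_add]
      congr 1
      omega
    rw [h2] at h1
    exact h1
  have hz : W * a = 0 := by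
    refine Deg_big dimLE_spM (j := κ + (κ + 1) * (m - 1) + n) ?_ (Deg_mul hD ha)
    omega
  have hz' : sO _ ((foot hB 0).pull W) * (foot hB 0).pull a = 0 := by
    rw [Deg_s (Deg_pull (foot hB 0) hD), smul_mul_assoc, ← map_mul, hz, map_zero, smul_zero]
  have h3 := TG_d hB ((foot hB 0).pull W * Th)
  rw [d_mul, hTh, hz', add_zero, pull_d, hdW, map_sub, sub_mul, map_sub] at h3
  exact sub_eq_zero.1 h3

omit [MeasurableSpace M] [BorelSpace M] in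
theorem JR_pow (h : ConcD 𝒜 hB κ m p ψ Bf u) :
    (∫ x, (tp n ((dd n Bf) ^ m) : V n → ℝ) x) = JR n (ψ * dO _ ψ ^ (m - 1)) := by
  obtain ⟨t, ht⟩ := h.odd
  have hm := h.hm
  have h00 : (0 : ℝ) < 1 := one_pos
  have hz : ∀ r, r ≤ 1 → chi r = 0 := fun r hr => chi_zero hr
  have ho : ∀ r, 2 ≤ r → chi r = 1 := fun r hr => chi_one hr
  have hz' : ∀ r, r ≤ 1 → chi r ^ m = 0 := fun r hr => by rw [chi_zero hr, zero_pow (by omega)]
  have ho' : ∀ r, 2 ≤ r → chi r ^ m = 1 := fun r hr => by rw [chi_one hr, one_pow]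
  have hs1 : sO (spR n) ψ = -ψ := by
    have h1 := h.degψ
    rw [ht] at h1
    exact Deg_odd h1
  have hs2 : sO (spR n) (dO _ ψ) = dO _ ψ := by
    have h1 := Deg_d h.degψ
    have h2 : κ + 1 = 2 * (t + 1) := by omega
    rw [h2] at h1
    exact Deg_even h1
  -- radial
  have hdb : (nrmR n).pull (dO _ ψ) = dO _ ψ := by rw [← pull_d, h.hrad]
  have hdm : ∀ x, x ≠ 0 → topE n (vAt (jR n) (dO _ ψ) toE x ^ m) = 0 := by
    intro x hx
    exact topE_eq_zero_of_ctr (EUL.phi_ne_zero hx) (EUL.ctr_pow_eq_zero (vAt_rad hdb hx) m)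
  set Ξ : Om (spR n) := ψ * dO _ ψ ^ (m - 1) with hΞdef
  have hdd : ∀ r : ℕ, dO (spR n) (dO _ ψ ^ r) = 0 := fun r => d_pow_zero (d_d ψ) r
  have hdΞ : dO (spR n) Ξ = dO _ ψ ^ m := by
    rw [hΞdef, d_mul, hdd, mul_zero, add_zero, ← pow_succ']
    congr 1
    omega
  have hΞ : ∀ x, x ≠ 0 → topE n (vAt (jR n) (dO _ Ξ) toE x) = 0 := by
    intro x hx
    rw [hdΞ, vAt_pow _ _ hx]
    exact hdm x hx
  -- pointwise identity
  have hpt : ∀ x : V n, fch (contDiff_chi.pow m) Ξ x = (tp n ((dd n Bf) ^ m) : V n → ℝ) x := by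
    intro x
    rw [tp_apply, map_pow, h.edB]
    by_cases hx : x = 0
    · subst hx
      rw [vAt_zero, zero_pow (by omega), map_zero]
      unfold fch
      rw [vAt_zero, map_zero]
    · obtain ⟨w, hw⟩ := vAt_dchO (n := n) contDiff_chi x
      obtain ⟨b, hb⟩ : ∃ b, b = vAt (jR n) ψ toE x := ⟨_, rfl⟩
      obtain ⟨δ, hδ⟩ : ∃ δ, δ = vAt (jR n) (dO _ ψ) toE x := ⟨_, rfl⟩
      have hbs : ivo n b = -b := by
        rw [hb, ← vAt_s, hs1]
        have h1 : (-ψ : Om (spR n)) = (-1 : ℝ) • ψ := by rw [neg_smul, one_smul]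
        rw [h1, vAt_smul jR_inj, neg_smul, one_smul]
      have hL : vAt (jR n) (dO _ (chR n * ψ)) toE x = ExteriorAlgebra.ι ℝ w * b + chi ‖toE x‖ • δ := by
        rw [chR_eq, d_mul, sO_chO, vAt_add jR_inj, vAt_mul jR_inj, vAt_mul jR_inj, hw, ← hb, ← hδ,
          vAt_chO contDiff_chi hx, Algebra.smul_def]
      have hR : vAt (jR n) (dO _ (chO (fun r => chi r ^ m) (contDiff_chi.pow m)) * Ξ) toE x =
          ((m : ℝ) * chi ‖toE x‖ ^ (m - 1)) • (ExteriorAlgebra.ι ℝ w * b * δ ^ (m - 1)) := by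
        rw [chO_pow contDiff_chi m, d_chO_pow, vAt_mul jR_inj, vAt_smul jR_inj, vAt_mul jR_inj, vAt_pow _ _ hx, hw,
          vAt_chO contDiff_chi hx, hΞdef, vAt_mul jR_inj, vAt_pow _ _ hx, ← hb, ← hδ, ← map_pow, ← Algebra.smul_def,
          smul_smul, smul_mul_assoc]
        congr 1
        rw [mul_assoc]
      have hsq : (ExteriorAlgebra.ι ℝ w * b) * (ExteriorAlgebra.ι ℝ w * b) = 0 := by
        have h1 : b * ExteriorAlgebra.ι ℝ w = -(ExteriorAlgebra.ι ℝ w * b) := by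
          rw [ι_swap, hbs, neg_mul, neg_neg]
        rw [mul_assoc, ← mul_assoc b, h1, neg_mul, mul_neg, ← mul_assoc, ← mul_assoc, ExteriorAlgebra.ι_sq_zero,
          zero_mul, zero_mul, neg_zero]
      have hcomm : Commute (ExteriorAlgebra.ι ℝ w * b) (chi ‖toE x‖ • δ) := by
        refine Commute.smul_right ?_ _
        have h1 : vAt (jR n) (dO _ ψ * (dO _ (chO chi contDiff_chi) * ψ)) toE x =
            vAt (jR n) ((dO _ (chO chi contDiff_chi) * ψ) * dO _ ψ) toE x := by rw [even_comm' hs2]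
        rw [vAt_mul jR_inj, vAt_mul jR_inj, vAt_mul jR_inj, vAt_mul jR_inj, hw, ← hb, ← hδ] at h1
        exact h1.symm
      unfold fch
      rw [hR, hL]
      obtain ⟨q, rfl⟩ : ∃ q, m = q + 1 := ⟨m - 1, by omega⟩
      rw [add_pow_sq_zero hcomm hsq q, Nat.add_sub_cancel, map_add, map_smul]
      have h4 : topE n ((chi ‖toE x‖ • δ) ^ (q + 1)) = 0 := by
        rw [smul_pow, map_smul, hδ, hdm x hx, smul_zero]
      rw [h4, zero_add, smul_pow, mul_smul_comm, ← Nat.cast_smul_eq_nsmul ℝ, map_smul, map_smul, smul_smul]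
  have h1 : JR n Ξ = ∫ x, fch contDiff_chi Ξ x := rfl
  have h2 := integral_fch_eq contDiff_chi h00 hz ho (contDiff_chi.pow m) hz' ho' Ξ hΞ
  rw [h1, h2]
  simp only [hpt]

theorem TG_conc (h : ConcD 𝒜 hB κ m p ψ Bf u) {Th : Om (spG 𝒜)} {a : Om (spM 𝒜)} (ha : Deg n a)
    (hTh : dO _ Th = (foot hB 0).pull a) :
    |TG hB ((foot hB 0).pull (u ^ m) * Th)| = |JR n (ψ * dO _ ψ ^ (m - 1))| * |JR n ((ER hB p).pull Th)| := by
  obtain ⟨t, ht⟩ := h.odd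
  have hn : Even n := by
    refine ⟨(t + 1) * m, ?_⟩
    rw [h.hn, ht]
    ring
  -- the forms at scale `δ`
  obtain ⟨A, hA⟩ := h.exists_tau
  have hτ0 : ∀ δ, 0 < δ → δ ≤ 1 → Deg n ((u + dO _ (A δ)) ^ m) := by
    intro δ h0 h1
    have h2 := Deg_pow (Deg_add h.deg (Deg_d (hA δ h0 h1).1)) m
    rwa [← h.hn] at h2
  have hL : ∀ δ, 0 < δ → δ ≤ 1 →
      TG hB ((foot hB 0).pull ((u + dO _ (A δ)) ^ m) * Th) = TG hB ((foot hB 0).pull (u ^ m) * Th) := by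
    intro δ h0 h1
    exact h.TG_change (hA δ h0 h1).1 ha hTh
  obtain ⟨s, hs, hlim⟩ := tendsto_TG hB (n := n) hn p ((dd n Bf) ^ m)
    (fun x hx => h.T_supp hx) (fun δ => (u + dO _ (A δ)) ^ m) hτ0 (fun δ h0 h1 => (hA δ h0 h1).2) Th
  have h1 : TG hB ((foot hB 0).pull (u ^ m) * Th) =
      s * (∫ x, (tp n ((dd n Bf) ^ m) : V n → ℝ) x) * JR n ((ER hB p).pull Th) := by
    refine tendsto_nhds_unique (tendsto_const_nhds.congr' ?_) hlim
    filter_upwards [Ioc_mem_nhdsGT (zero_lt_one' ℝ)] with δ hδ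
    exact (hL δ hδ.1 hδ.2).symm
  rw [h1, h.JR_pow, abs_mul, abs_mul, hs, one_mul]

omit [MeasurableSpace M] [BorelSpace M] in
/-- the restriction of `ψ_u y^(m-1)` to the unit sphere at `p` -/
theorem ER_psi_y (h : ConcD 𝒜 hB κ m p ψ Bf u) (i : ℕ) :
    (ER hB p).pull (b0 (fRho hB) u * wt (fRho hB) u 1 ^ i) = ψ * dO _ ψ ^ i := by
  have hd : dO _ (b0 (fRho hB) u) = wt (fRho hB) u 1 - wt (fRho hB) u 0 := by
    have h2 := d_K ((fRho hB).pull u)
    have h3 : dO _ ((fRho hB).pull u) = 0 := by rw [pull_d, h.closed, map_zero]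
    rw [h3, map_zero, add_zero] at h2
    exact h2
  have e : (fRho hB).comp (jO _ 0) = foot (𝒜 := 𝒜) hB 0 := SMap_ext fun c => by
    change c.1 (π * 0) = c.1 0
    rw [mul_zero]
  have h0 : (ER hB p).pull (wt (fRho hB) u 0) = 0 := by
    have h1 : wt (fRho hB) u 0 = (foot hB 0).pull u := by
      unfold wt
      rw [← pull_comp, e]
    rw [h1, ← pull_comp]
    exact pull_const _ (fun x => ER_foot hB p x) (Nat.succ_pos κ) h.deg
  have h1 : (ER hB p).pull (wt (fRho hB) u 1) = dO _ ψ := by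
    have h2 := congrArg (ER hB p).pull hd
    rw [← pull_d, h.hER, map_sub, h0, sub_zero] at h2
    exact h2.symm
  rw [map_mul, map_pow, h.hER, h1]

/-- **concentration** -/
theorem conc (h : ConcD 𝒜 hB κ m p ψ Bf u) {Th : Om (spG 𝒜)} {a : Om (spM 𝒜)} (ha : Deg n a)
    (hTh : dO _ Th = (foot hB 0).pull a) :
    |TG hB ((foot hB 0).pull (u ^ m) * Th)| =
      |JR n ((ER hB p).pull (b0 (fRho hB) u * wt (fRho hB) u 1 ^ (m - 1)))| * |JR n ((ER hB p).pull Th)| := by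
  rw [h.ER_psi_y, h.TG_conc ha hTh]

end ConcD

end Pool.Agent.Lib.MP_ccbbf6_gt.L5
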