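import Pool.Agent.Lib.MP_ccbbf6_gt.L4.FI6
import Pool.Agent.Lib.MP_ccbbf6_gt.L5.INTm
import Pool.Agent.Lib.MP_ccbbf6_gt.L5.INTn

/-!
# Level 5, INTo: fibre integrals of forms which are killed by a vertical vector (helper67)

`b.VFl g`: near every direction there is a vertical deformation with non-zero velocity which does not change `g`. `PI_kill`: then `b.PI (g.pull θ) = 0`.

PROOFS.
(1) ctr_flow: exactly as the proof of `ev_flow` (L4/FI6.lean, lines 77-115; `exists_glob`, `ev_pb`, `tr_eq`, `ctr_map`): from h1: ctr (lst m) of both sides; ctr (lst m) (ev (snoc z 0) (pb (pr m) Ω)) = 0 (`ev_cn`, `cs_pr`), left side: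
    ctr (lst m) (map (tr g ..) (ev z Ω)) = map (tr g ..) (ctr (lst m ∘ tr g ..) (ev z Ω)); apply map (tr (sl m 0) z) (left inverse: e4 there).
(2) PI_kill: `LLift.inj b.lift`, `q_PI`, `map_zero`: show `SI (N+1) b.F Θ = 0`, Θ := (g.comp b.ptm).pull θ. `Om_ext`, plot P, `ev` and linear functionals L (as in J_frM: `ev_fun_inj`): `ev_J` (INTe; support VSO_cutX): the integrand
    L (tN k (N+1) (ev w Ω)) is 0 for w = append z ξ, Ω := Om.on (cutX Θ) (P.xV (N+1)). ξ = 0: `ev_cutX`. ξ ≠ 0: take R from VFl at w; m := k+(N+1), h u := append (hdM k (N+1) (init u)) (R u) : V (m+1) → V m.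
    `ctr_flow` gives ctr (dotF v) (ev w Ω) = 0 with v = fderiv h (snoc w 0) (single last 1) = append 0 r', r' = deriv (fun s => R (snoc w s)) 0 ≠ 0, and dotF (append 0 r') = vfm k (dotF r'); `tN_eq_zero`.
    Hypothesis h1 of ctr_flow: for gg =ᶠ h: `pb gg Ω = Om.on (cutX Θ) ((P.xV _).cmp gg)`, `pb (pr m) Ω = Om.on (cutX Θ) ((P.xV _).cmp (pr m))` (on_cmp). At the point snoc w 0 both plots have non-zero second component:
    unfold cutX, `ev_ext0`, `vAt_mul (vU_inj ..)`, first factors: `vAt_res`: values of dch on the two plots: `on_d`, `ev_dd_congr` (chi ‖toE (R u)‖ = chi ‖toE (tlM (init u))‖ near the point);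
    second factors: local lifts Q, Q' (`locPl_of (open_neZ ..)`), `vAt_eq`, `on_pull`, and `ev_on_congr θ`: the plots (g.comp b.ptm).pl Q and (g.comp b.ptm).pl Q' agree near the point.
(3) VFl_pull: use VFl b for the plot (fp2 f b.q).pl P. The last condition: apply hg.
(4) VFl_sb: given P : b.F.Plot k and w0 with tlM w0 ≠ 0. Let m = k + (N+1). Near w0 the map w ↦ ptm (P (hdM w), tlM w) is (after squeezing with `exists_sq w0` so that tlM ≠ 0 everywhere) a plot C of b.S; hsec gives the section u near w0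
    (of V m). Put, for U : V (m+1), w = init U, s = U last: R U := fun i => ‖toE (tlM w)‖ * (cos s * (tlM w i / ‖toE (tlM w)‖) + sin s * inner ℝ ((P.1 (hdM w)).1.2 i) (u w)).
    Smooth near snoc w0 0 (`b.inn`; frames and u are smooth sections along the same base plot). R (snoc w 0) = tlM w. With a = frame at P (hdM w), x = (tlM w)/‖·‖ ↔ c = Σ x_i a_i (unit), û_i = ⟪a_i, u⟫, Σ û_i a_i = u (`frame_expand`),
    ⟪c, u⟫ = 0: ‖toE (R U)‖ = ‖toE (tlM w)‖ and ptm (P .., R U) = (base, cos s c + sin s u); so the g-values agree by hsec. Derivative in s at 0: ‖toE (tlM w0)‖ û ≠ 0.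
-/

set_option autoImplicit false
set_option maxSynthPendingDepth 3

open Set Filter Topology MeasureTheory

open scoped ContDiff

noncomputable section

namespace Pool.Agent.Lib.MP_ccbbf6_gt.L5

open L4 L4.FR

variable {k l m r N : ℕ} {E : Type} [NormedAddCommGroup E] [InnerProductSpace ℝ E] {X Y Y' S B B' : Space}

theorem ctr_flow (Ω : Fm m) (z : V m) {h : V (m + 1) → V m}
    (hs : ∀ᶠ z' in 𝓝 (Fin.snoc z 0 : V (m + 1)), ContDiffAt ℝ ∞ h z')
    (h0 : ∀ᶠ w in 𝓝 z, h (Fin.snoc w 0) = w)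
    (h1 : ∀ g : FR.Sm (m + 1) m, (g : V (m + 1) → V m) =ᶠ[𝓝 (Fin.snoc z 0 : V (m + 1))] h →
      ev (Fin.snoc z 0) (pb g Ω) = ev (Fin.snoc z 0) (pb (pr m) Ω)) :
    ctr (dotF (fderiv ℝ h (Fin.snoc z 0) (Pi.single (Fin.last m) 1))) (ev z Ω) = 0 := by
  obtain ⟨g, hg⟩ := exists_glob hs
  have hE := h1 g hg
  have hsl : sl m 0 z = Fin.snoc z 0 := rfl
  have hc : ContinuousAt (fun w : V m => (Fin.snoc w 0 : V (m + 1))) z := (sl m 0).smooth.continuous.continuousAt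
  have e2 : g (Fin.snoc z 0) = z := by rw [hg.self_of_nhds]; exact h0.self_of_nhds
  have e3 : ((g.comp (sl m 0) : FR.Sm m m) : V m → V m) =ᶠ[𝓝 z] fun w => w := by
    filter_upwards [h0, hc.eventually hg] with w h2 h3
    change g (Fin.snoc w 0) = w
    rw [h3, h2]
  have e4 : (tr (sl m 0) z).comp (tr g (Fin.snoc z 0)) = LinearMap.id := by
    rw [tr_eq, tr_eq, ← trL_comp]
    have h5 : (fderiv ℝ (g : V (m + 1) → V m) (Fin.snoc z 0)).comp (fderiv ℝ (sl m 0 : V m → V (m + 1)) z) =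
        ContinuousLinearMap.id ℝ (V m) := by
      have h6 := fderiv_comp (g := (g : V (m + 1) → V m)) (f := (sl m 0 : V m → V (m + 1))) z (g.diff _) ((sl m 0).diff z)
      rw [hsl] at h6
      rw [← h6]
      have h7 : ((g : V (m + 1) → V m) ∘ (sl m 0 : V m → V (m + 1))) =ᶠ[𝓝 z] fun w => w := e3
      rw [h7.fderiv_eq, fderiv_fun_id]
    rw [h5, trL_id]
  have e5 : (lst m).comp (tr g (Fin.snoc z 0)) = dotF (fderiv ℝ h (Fin.snoc z 0) (Pi.single (Fin.last m) 1)) := by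
    rw [tr_eq, hg.fderiv_eq]
    refine LinearMap.ext fun v => ?_
    rw [LinearMap.comp_apply, lst_apply, trL_apply]
    rfl
  have e6 : ctr (lst m) (ev (Fin.snoc z 0) (pb g Ω)) = 0 := by
    rw [hE, ← ev_cn]
    have h2 : cn (lst m) (pb (pr m) Ω) = 0 := cs_pr Ω
    rw [h2, map_zero]
  rw [ev_pb, e2, ctr_map, e5] at e6
  have h8 := ExteriorAlgebra.map_comp_map (R := ℝ) (tr g (Fin.snoc z 0)) (tr (sl m 0) z)
  rw [e4] at h8
  have h9 := congrArg (fun F => F (ctr (dotF (fderiv ℝ h (Fin.snoc z 0) (Pi.single (Fin.last m) 1))) (ev z Ω))) h8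
  simp only [AlgHom.comp_apply, ExteriorAlgebra.map_id, AlgHom.id_apply] at h9
  rw [← h9, e6, map_zero]

/-- near every direction there is a vertical deformation with non-zero velocity which does not change `g` -/
def SBun.VFl (b : SBun N S B) (g : SMap S Y) : Prop :=
  ∀ (k : ℕ) (P : b.F.Plot k) (w0 : V (k + (N + 1))), tlM k (N + 1) w0 ≠ 0 → ∃ R : V (k + (N + 1) + 1) → V (N + 1),
    (∀ᶠ U in 𝓝 (Fin.snoc w0 0 : V (k + (N + 1) + 1)), ContDiffAt ℝ ∞ R U) ∧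
    (∀ᶠ w in 𝓝 w0, R (Fin.snoc w 0) = tlM k (N + 1) w) ∧
    deriv (fun s : ℝ => R (Fin.snoc w0 s)) 0 ≠ 0 ∧
    ∀ᶠ U in 𝓝 (Fin.snoc w0 0 : V (k + (N + 1) + 1)), ‖toE (R U)‖ = ‖toE (tlM k (N + 1) (Fin.init U))‖ ∧
      ∀ (h1 : R U ≠ 0) (h2 : tlM k (N + 1) (Fin.init U) ≠ 0),
        g.1 (b.ptm.1 ⟨(P.1 (hdM k (N + 1) (Fin.init U)), R U), h1⟩) =
          g.1 (b.ptm.1 ⟨(P.1 (hdM k (N + 1) (Fin.init U)), tlM k (N + 1) (Fin.init U)), h2⟩)

/-- the value of the cut-off form on a plot through points with non-zero second component -/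
private theorem INTo_cut {M : ℕ} {X : Space} (Θ : Om (X.xP N)) {p p' : (X.xV N).Plot M} {x : V M} (h : (p.1 x).2 ≠ 0)
    (h' : (p'.1 x).2 ≠ 0) (hn : ∀ᶠ y in 𝓝 x, ‖toE (p.1 y).2‖ = ‖toE (p'.1 y).2‖)
    (hΘ : ∀ Q Q' : (X.xP N).Plot M, (fun y => (Q.1 y).1) =ᶠ[𝓝 x] p.1 → (fun y => (Q'.1 y).1) =ᶠ[𝓝 x] p'.1 →
      ev x (Om.on Θ Q) = ev x (Om.on Θ Q')) : ev x (Om.on (cutX Θ) p) = ev x (Om.on (cutX Θ) p') := by
  unfold cutX
  rw [ev_ext0, ev_ext0, vAt_mul (vU_inj _ _), vAt_mul (vU_inj _ _), vAt_res (open_neZ X N) (dch N X) p h,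
    vAt_res (open_neZ X N) (dch N X) p' h']
  obtain ⟨Q, hQ⟩ := locPl_of (open_neZ X N) p (z := x) h
  obtain ⟨Q', hQ'⟩ := locPl_of (open_neZ X N) p' (z := x) h'
  rw [vAt_eq (vU_inj _ _) _ Q hQ, vAt_eq (vU_inj _ _) _ Q' hQ', hΘ Q Q' hQ hQ']
  congr 1
  unfold dch
  rw [on_d, on_d]
  refine ev_dd_congr ?_
  filter_upwards [hn] with y hy
  refine (ev_fO _ _ p y).trans (Eq.trans ?_ (ev_fO _ _ p' y).symm)
  show algebraMap ℝ (Ex M) (chi ‖toE (p.1 y).2‖) = algebraMap ℝ (Ex M) (chi ‖toE (p'.1 y).2‖)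
  rw [hy]

private theorem INTo_contDiffAt_append {M : ℕ} {f : V M → V k} {g : V M → V l} {x : V M} (hf : ContDiffAt ℝ ∞ f x)
    (hg : ContDiffAt ℝ ∞ g x) : ContDiffAt ℝ ∞ (fun z => (Fin.append (f z) (g z) : V (k + l))) x := by
  rw [contDiffAt_pi]
  intro i
  refine Fin.addCases (fun i => ?_) (fun i => ?_) i
  · simp only [Fin.append_left]
    exact contDiffAt_pi.1 hf i
  · simp only [Fin.append_right]
    exact contDiffAt_pi.1 hg i

private theorem INTo_dotF (k : ℕ) (r : V l) : dotF (Fin.append (0 : V k) r : V (k + l)) = vfm k (dotF r) := by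
  refine LinearMap.ext fun v => ?_
  show ∑ j, v j * (Fin.append (0 : V k) r : V (k + l)) j = ∑ j, v (Fin.natAdd k j) * r j
  rw [Fin.sum_univ_add]
  have h1 : ∑ j : Fin k, v (Fin.castAdd l j) * (Fin.append (0 : V k) r : V (k + l)) (Fin.castAdd l j) = 0 := by
    refine Finset.sum_eq_zero fun j _ => ?_
    rw [Fin.append_left]
    exact mul_zero _
  rw [h1, zero_add]
  refine Finset.sum_congr rfl fun j _ => ?_
  rw [Fin.append_right]

/-- the pointwise statement -/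
private theorem INTo_pt (b : SBun N S B) {g : SMap S Y} (hV : b.VFl g) (θ : Om Y) (P : b.F.Plot k)
    (w : V (k + (N + 1))) :
    tN k (N + 1) (ev w (Om.on (cutX ((g.comp b.ptm).pull θ)) (P.xV (N + 1)))) = 0 := by
  by_cases hw : tlM k (N + 1) w = 0
  · rw [ev_cutX, map_zero]
    left
    show ‖toE (tlM k (N + 1) w)‖ < 1
    rw [hw]
    show ‖(WithLp.toLp 2 (0 : V (N + 1)) : EuclideanSpace ℝ (Fin (N + 1)))‖ < 1
    rw [WithLp.toLp_zero, norm_zero]
    exact one_pos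
  obtain ⟨R, hRs, hR0, hRd, hR⟩ := hV k P w hw
  obtain ⟨h, hh⟩ : ∃ h : V (k + (N + 1) + 1) → V (k + (N + 1)), h = fun u => Fin.append (hdM k (N + 1) (Fin.init u)) (R u) := ⟨_, rfl⟩
  have hinit : ContDiff ℝ ∞ fun u : V (k + (N + 1) + 1) => (Fin.init u : V (k + (N + 1))) :=
    contDiff_pi.2 fun i => contDiff_apply ℝ ℝ (Fin.castSucc i)
  have hs : ∀ᶠ z' in 𝓝 (Fin.snoc w 0 : V (k + (N + 1) + 1)), ContDiffAt ℝ ∞ h z' := by
    filter_upwards [hRs] with z' hz'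
    rw [hh]
    exact INTo_contDiffAt_append ((hdM k (N + 1)).smooth.comp hinit).contDiffAt hz'
  have h0 : ∀ᶠ w' in 𝓝 w, h (Fin.snoc w' 0) = w' := by
    filter_upwards [hR0] with w' hw'
    rw [hh]
    show (Fin.append (hdM k (N + 1) (Fin.init (Fin.snoc w' 0 : V (k + (N + 1) + 1)))) (R (Fin.snoc w' 0)) : V (k + (N + 1))) = w'
    rw [hw', Fin.init_snoc, append_hd_tl]
  have hRw : R (Fin.snoc w 0) = tlM k (N + 1) w := hR0.self_of_nhds
  have h1 : ∀ gg : FR.Sm (k + (N + 1) + 1) (k + (N + 1)), (gg : V (k + (N + 1) + 1) → V (k + (N + 1))) =ᶠ[𝓝 (Fin.snoc w 0 : V (k + (N + 1) + 1))] h →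
      ev (Fin.snoc w 0) (pb gg (Om.on (cutX ((g.comp b.ptm).pull θ)) (P.xV (N + 1)))) =
      ev (Fin.snoc w 0) (pb (pr (k + (N + 1))) (Om.on (cutX ((g.comp b.ptm).pull θ)) (P.xV (N + 1)))) := by
    intro gg hgg
    rw [← on_cmp, ← on_cmp]
    have e1 : ∀ u : V (k + (N + 1) + 1), gg u = h u → ((P.xV (N + 1)).cmp gg).1 u = (P.1 (hdM k (N + 1) (Fin.init u)), R u) := by
      intro u hu
      show (P.1 (hdM k (N + 1) (gg u)), tlM k (N + 1) (gg u)) = _
      rw [hu, hh]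
      show (P.1 (hdM k (N + 1) (Fin.append (hdM k (N + 1) (Fin.init u)) (R u))),
        tlM k (N + 1) (Fin.append (hdM k (N + 1) (Fin.init u)) (R u))) = _
      rw [hdM_append, tlM_append]
    have e2 : ∀ u : V (k + (N + 1) + 1), ((P.xV (N + 1)).cmp (pr (k + (N + 1)))).1 u =
        (P.1 (hdM k (N + 1) (Fin.init u)), tlM k (N + 1) (Fin.init u)) := fun u => rfl
    refine INTo_cut _ ?_ ?_ ?_ ?_
    · rw [e1 _ hgg.self_of_nhds, hRw]
      exact hw
    · rw [e2, Fin.init_snoc]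
      exact hw
    · filter_upwards [hgg, hR] with u hu1 hu2
      rw [e1 u hu1, e2]
      exact hu2.1
    · intro Q Q' hQ hQ'
      rw [on_pull, on_pull]
      refine ev_on_congr θ ?_
      filter_upwards [hQ, hQ', hgg, hR] with u hu1 hu2 hu3 hu4
      rw [e1 u hu3] at hu1
      rw [e2 u] at hu2
      have e3 : ∃ h1 : R u ≠ 0, Q.1 u = ⟨(P.1 (hdM k (N + 1) (Fin.init u)), R u), h1⟩ :=
        ⟨fun h5 => (Q.1 u).2 (by rw [hu1]; exact h5), Subtype.ext hu1⟩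
      have e4 : ∃ h1 : tlM k (N + 1) (Fin.init u) ≠ 0,
          Q'.1 u = ⟨(P.1 (hdM k (N + 1) (Fin.init u)), tlM k (N + 1) (Fin.init u)), h1⟩ :=
        ⟨fun h5 => (Q'.1 u).2 (by rw [hu2]; exact h5), Subtype.ext hu2⟩
      obtain ⟨h5, h6⟩ := e3
      obtain ⟨h7, h8⟩ := e4
      show g.1 (b.ptm.1 (Q.1 u)) = g.1 (b.ptm.1 (Q'.1 u))
      rw [h6, h8]
      exact hu4.2 h5 h7
  have key := ctr_flow _ w hs h0 h1
  have hd1 : HasDerivAt (fun s : ℝ => (Fin.snoc w s : V (k + (N + 1) + 1))) (Pi.single (Fin.last (k + (N + 1))) 1) 0 := by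
    rw [hasDerivAt_pi]
    intro i
    refine Fin.lastCases ?_ (fun i => ?_) i
    · simp only [Fin.snoc_last, Pi.single_eq_same]
      exact hasDerivAt_id _
    · simp only [Fin.snoc_castSucc]
      rw [Pi.single_eq_of_ne (Fin.castSucc_lt_last i).ne]
      exact hasDerivAt_const _ _
  have hd2 : HasDerivAt (fun s : ℝ => h (Fin.snoc w s)) (fderiv ℝ h (Fin.snoc w 0) (Pi.single (Fin.last (k + (N + 1))) 1)) 0 := by
    have h2 : HasFDerivAt h (fderiv ℝ h (Fin.snoc w 0)) (Fin.snoc w 0) :=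
      (hs.self_of_nhds.differentiableAt (by simp)).hasFDerivAt
    exact h2.comp_hasDerivAt 0 hd1
  have hRdiff : DifferentiableAt ℝ (fun s : ℝ => R (Fin.snoc w s)) 0 := by
    have h2 : DifferentiableAt ℝ R (Fin.snoc w 0) := hRs.self_of_nhds.differentiableAt (by simp)
    exact h2.comp (0 : ℝ) hd1.differentiableAt
  have hd3 : HasDerivAt (fun s : ℝ => h (Fin.snoc w s))
      (Fin.append (0 : V k) (deriv (fun s : ℝ => R (Fin.snoc w s)) 0) : V (k + (N + 1))) 0 := by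
    rw [hh]
    have h2 := hasDerivAt_pi.1 hRdiff.hasDerivAt
    rw [hasDerivAt_pi]
    intro i
    refine Fin.addCases (fun i => ?_) (fun i => ?_) i
    · simp only [Fin.append_left, Fin.init_snoc]
      exact hasDerivAt_const _ _
    · simp only [Fin.append_right]
      exact h2 i
  rw [hd2.unique hd3, INTo_dotF] at key
  exact tN_eq_zero (dotF_ne_zero hRd) key

/-- **fibre integrals of forms killed by a vertical vector** -/
theorem SBun.PI_kill (b : SBun N S B) {g : SMap S Y} (hV : b.VFl g) (θ : Om Y) : b.PI (g.pull θ) = 0 := by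
  refine b.lift.inj ?_
  rw [b.q_PI, map_zero, ← pull_comp]
  refine Om_ext fun k P => ?_
  rw [SI_def, on_JX, on_zero]
  refine ev_fun_inj fun L z => ?_
  rw [ev_J (VSO_cutX _ k P)]
  have h1 : ∀ ξ : V (N + 1), L (tN k (N + 1) (ev (Fin.append z ξ) (Om.on (cutX ((g.comp b.ptm).pull θ)) (P.xV (N + 1))))) = 0 := by
    intro ξ
    rw [INTo_pt b hV θ P, map_zero]
  simp only [h1]
  exact integral_zero _ _

theorem SBun.VFl_pull (b : SBun N S B) {g : SMap S Y} (hV : b.VFl g) (f : SMap B' B) (g' : SMap (fp f b.pi) Y')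
    (hg : ∀ z z' : (fp f b.pi).pt, z.1.1 = z'.1.1 → g.1 z.1.2 = g.1 z'.1.2 → g'.1 z = g'.1 z') : (b.pull f).VFl g' := by
  intro k P w0 hw0
  obtain ⟨R, h1, h2, h3, h4⟩ := hV k ((fp2 f b.q).pl P) w0 hw0
  refine ⟨R, h1, h2, h3, ?_⟩
  filter_upwards [h4] with U hU
  refine ⟨hU.1, fun h5 h6 => hg _ _ rfl ?_⟩
  exact hU.2 h5 h6

private theorem INTo_norm_sum {r : ℕ} {a : Fin r → E} (ha : Orthonormal ℝ a) (ξ : V r) :
    ‖∑ i, ξ i • a i‖ = ‖toE ξ‖ := by
  have h1 : ‖∑ i, ξ i • a i‖ ^ 2 = ‖toE ξ‖ ^ 2 := by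
    rw [← real_inner_self_eq_norm_sq, ha.inner_sum, EuclideanSpace.norm_sq_eq]
    refine Finset.sum_congr rfl fun i _ => ?_
    show ξ i * ξ i = ‖ξ i‖ ^ 2
    rw [Real.norm_eq_abs, sq_abs, pow_two]
  exact (pow_left_inj₀ (norm_nonneg _) (norm_nonneg _) two_ne_zero).1 h1

/-- rotation in the fibre -/
private theorem INTo_alg {W : Submodule ℝ E} (hW : Module.finrank ℝ W = N + 1) {a : Fin (N + 1) → E} (ha : OFr W a) {u : E}
    (hu : u ∈ W) (hn : ‖u‖ = 1) {x : V (N + 1)} (hx : x ≠ 0)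
    (ho : inner ℝ (‖toE x‖⁻¹ • ∑ i, x i • a i) u = 0) (σ : ℝ) {ξ : V (N + 1)}
    (hξ : ∀ i, ξ i = Real.cos σ * x i + Real.sin σ * (‖toE x‖ * inner ℝ (a i) u)) :
    ‖toE ξ‖ = ‖toE x‖ ∧ ‖toE ξ‖⁻¹ • ∑ i, ξ i • a i =
      Real.cos σ • (‖toE x‖⁻¹ • ∑ i, x i • a i) + Real.sin σ • u := by
  have hρ : 0 < ‖toE x‖ := by
    rw [norm_pos_iff]
    intro h
    apply hx
    funext i
    exact congrFun (congrArg (fun z : EuclideanSpace ℝ (Fin (N + 1)) => (WithLp.ofLp z : V (N + 1))) h) i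
  have hexp := frame_expand (Nat.succ_pos N) hW ha hu
  obtain ⟨c, hc⟩ : ∃ c, c = ‖toE x‖⁻¹ • ∑ i, x i • a i := ⟨_, rfl⟩
  have hcn : ‖c‖ = 1 := by
    rw [hc, norm_smul, INTo_norm_sum ha.2, norm_inv, norm_norm, inv_mul_cancel₀ hρ.ne']
  have hxc : ∑ i, x i • a i = ‖toE x‖ • c := by
    rw [hc, smul_smul, mul_inv_cancel₀ hρ.ne', one_smul]
  have hX : ∑ i, ξ i • a i = ‖toE x‖ • (Real.cos σ • c + Real.sin σ • u) := by
    have h1 : ∀ i, ξ i • a i = Real.cos σ • (x i • a i) + (Real.sin σ * ‖toE x‖) • (inner ℝ (a i) u • a i) := by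
      intro i
      rw [hξ i, add_smul, mul_smul, smul_smul, smul_smul]
      congr 2
      ring
    simp only [h1]
    rw [Finset.sum_add_distrib, ← Finset.smul_sum, ← Finset.smul_sum, hexp, hxc, smul_add, smul_smul, smul_smul,
      smul_smul, mul_comm (Real.sin σ), mul_comm (Real.cos σ)]
  have hcu : ‖Real.cos σ • c + Real.sin σ • u‖ = 1 := by
    rw [← hc] at ho
    have h1 : ‖Real.cos σ • c + Real.sin σ • u‖ ^ 2 = 1 := by
      rw [norm_add_sq_real, norm_smul, norm_smul, hcn, hn, inner_smul_left, inner_smul_right, ho, mul_zero, mul_zero,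
        mul_zero, add_zero, mul_one, mul_one, Real.norm_eq_abs, Real.norm_eq_abs, sq_abs, sq_abs]
      exact Real.cos_sq_add_sin_sq σ
    nlinarith [norm_nonneg (Real.cos σ • c + Real.sin σ • u)]
  have hnorm : ‖toE ξ‖ = ‖toE x‖ := by
    rw [← INTo_norm_sum ha.2 ξ, hX, norm_smul, hcu, norm_norm, mul_one]
  refine ⟨hnorm, ?_⟩
  rw [hnorm, hX, smul_smul, inv_mul_cancel₀ hρ.ne', one_smul, hc]

/-- deformations from a unit section perpendicular to the tautological one -/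
theorem OBun.VFl_sb (b : OBun (N + 1) E B) (hN : 1 ≤ N) (g : SMap b.S Y)
    (hsec : ∀ (m : ℕ) (C : b.S.Plot m) (z : V m), ∃ u : V m → E, ∀ᶠ y in 𝓝 z,
      b.sAt (b.pr.pl C) u y ∧ u y ∈ b.W (C.1 y).1.1 ∧ ‖u y‖ = 1 ∧ inner ℝ (C.1 y).1.2 (u y) = 0 ∧
      ∀ (s : ℝ) (c' : b.S.pt), c'.1.1 = (C.1 y).1.1 → c'.1.2 = Real.cos s • (C.1 y).1.2 + Real.sin s • u y →
        g.1 c' = g.1 (C.1 y)) : (b.sb hN).VFl g := by
  intro k P w0 hw0
  obtain ⟨s, hs1, hs2⟩ := exists_sq w0 (U := {w | tlM k (N + 1) w ≠ 0})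
    ((isOpen_ne.preimage (tlM k (N + 1)).smooth.continuous).mem_nhds hw0)
  obtain ⟨Q, hQ⟩ : ∃ Q : (b.F.xP (N + 1)).Plot (k + (N + 1)), Q = ⟨fun w => ⟨(P.1 (hdM k (N + 1) (s w)), tlM k (N + 1) (s w)), hs2 w⟩,
      b.F.pre P.2 ((hdM k (N + 1)).comp s), (tlM k (N + 1)).smooth.comp s.smooth⟩ := ⟨_, rfl⟩
  obtain ⟨u, hu⟩ := hsec _ (b.ptm.pl Q) w0
  obtain ⟨R, hR⟩ : ∃ R : V (k + (N + 1) + 1) → V (N + 1), R = fun U i =>
      Real.cos (U (Fin.last _)) * tlM k (N + 1) (Fin.init U) i + Real.sin (U (Fin.last _)) *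
        (‖toE (tlM k (N + 1) (Fin.init U))‖ * inner ℝ ((P.1 (hdM k (N + 1) (Fin.init U))).1.2 i) (u (Fin.init U))) :=
    ⟨_, rfl⟩
  have hinit : ContDiff ℝ ∞ fun u : V (k + (N + 1) + 1) => (Fin.init u : V (k + (N + 1))) :=
    contDiff_pi.2 fun i => contDiff_apply ℝ ℝ (Fin.castSucc i)
  have hc0 : Tendsto (fun u : V (k + (N + 1) + 1) => (Fin.init u : V (k + (N + 1)))) (𝓝 (Fin.snoc w0 0)) (𝓝 w0) := by
    have h : Tendsto (fun u : V (k + (N + 1) + 1) => (Fin.init u : V (k + (N + 1)))) (𝓝 (Fin.snoc w0 0))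
      (𝓝 (Fin.init (Fin.snoc w0 0 : V (k + (N + 1) + 1)))) := hinit.continuous.continuousAt
    rwa [Fin.init_snoc] at h
  have hQw : ∀ w, s w = w → ∃ h : tlM k (N + 1) w ≠ 0, Q.1 w = ⟨(P.1 (hdM k (N + 1) w), tlM k (N + 1) w), h⟩ := by
    intro w hw
    have h := hs2 w
    rw [hw] at h
    refine ⟨h, ?_⟩
    rw [hQ]
    refine Subtype.ext ?_
    show (P.1 (hdM k (N + 1) (s w)), tlM k (N + 1) (s w)) = (P.1 (hdM k (N + 1) w), tlM k (N + 1) w)
    rw [hw]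
  have hfr : ∀ (w : V (k + (N + 1))) (i : Fin (N + 1)), (∀ᶠ y in 𝓝 w, s y = y) →
      b.sAt (b.pr.pl (b.ptm.pl Q)) (fun v => (P.1 (hdM k (N + 1) v)).1.2 i) w := by
    intro w i hw
    obtain ⟨h1, h2⟩ := P.2
    have h3 := b.comp ((hdM k (N + 1)).comp s) (h2 i (((hdM k (N + 1)).comp s) w))
    have h4 : (Space.Plot.cmp (⟨_, h1⟩ : B.Plot k) ((hdM k (N + 1)).comp s)) = b.pr.pl (b.ptm.pl Q) := by
      rw [hQ]
      rfl
    rw [h4] at h3
    refine b.congr h3 ?_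
    filter_upwards [hw] with y hy
    show (P.1 (hdM k (N + 1) y)).1.2 i = (P.1 (hdM k (N + 1) (s y))).1.2 i
    rw [hy]
  refine ⟨R, ?_, ?_, ?_, ?_⟩
  · have h1 := hs1.eventually_nhds
    filter_upwards [hc0.eventually (h1.and hu)] with U hU
    obtain ⟨hU1, hU2, -⟩ := hU
    obtain ⟨hne, -⟩ := hQw _ hU1.self_of_nhds
    rw [hR]
    refine contDiffAt_pi.2 fun i => ?_
    have hl : ContDiffAt ℝ ∞ (fun U : V (k + (N + 1) + 1) => U (Fin.last (k + (N + 1)))) U := contDiffAt_apply ℝ ℝ _ _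
    have ht : ContDiffAt ℝ ∞ (fun U : V (k + (N + 1) + 1) => tlM k (N + 1) (Fin.init U)) U :=
      ((tlM k (N + 1)).smooth.comp hinit).contDiffAt
    have hn : ContDiffAt ℝ ∞ (fun U : V (k + (N + 1) + 1) => ‖toE (tlM k (N + 1) (Fin.init U))‖) U := by
      have h2 : toE (tlM k (N + 1) (Fin.init U)) ≠ 0 := by
        intro h
        apply hne
        funext i
        exact congrFun (congrArg (fun z : EuclideanSpace ℝ (Fin (N + 1)) => (WithLp.ofLp z : V (N + 1))) h) i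
      have h3 : ContDiffAt ℝ ∞ (fun v : EuclideanSpace ℝ (Fin (N + 1)) => ‖v‖) (toE (tlM k (N + 1) (Fin.init U))) :=
        contDiffAt_norm ℝ h2
      exact h3.comp U (contDiff_toE.contDiffAt.comp U ht)
    have hi : ContDiffAt ℝ ∞ (fun U : V (k + (N + 1) + 1) =>
        inner ℝ ((P.1 (hdM k (N + 1) (Fin.init U))).1.2 i) (u (Fin.init U))) U := by
      have h2 := b.inn (hfr _ i hU1) hU2
      exact ContDiffAt.comp (g := fun w : V (k + (N + 1)) => inner ℝ ((P.1 (hdM k (N + 1) w)).1.2 i) (u w)) U h2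
        hinit.contDiffAt
    exact ((Real.contDiff_cos.contDiffAt.comp U hl).mul (contDiffAt_pi.1 ht i)).add
      ((Real.contDiff_sin.contDiffAt.comp U hl).mul (hn.mul hi))
  · refine Eventually.of_forall fun w => ?_
    rw [hR]
    funext i
    show Real.cos ((Fin.snoc w 0 : V (k + (N + 1) + 1)) (Fin.last _)) * tlM k (N + 1) (Fin.init (Fin.snoc w 0 : V (k + (N + 1) + 1))) i +
      Real.sin ((Fin.snoc w 0 : V (k + (N + 1) + 1)) (Fin.last _)) * _ = _
    rw [Fin.snoc_last, Fin.init_snoc, Real.cos_zero, Real.sin_zero, one_mul, zero_mul, add_zero]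
  · intro h0
    obtain ⟨hs0, -, hW, hn, -, -⟩ := (hs1.and hu).self_of_nhds
    obtain ⟨hne, hQ0⟩ := hQw w0 hs0
    have hW' : u w0 ∈ b.W (P.1 (hdM k (N + 1) w0)).1.1 := by
      have h1 : ((b.ptm.pl Q).1 w0).1.1 = (P.1 (hdM k (N + 1) w0)).1.1 := by
        show (b.ptm.1 (Q.1 w0)).1.1 = _
        rw [hQ0]
        rfl
      rwa [h1] at hW
    have hρ : ‖toE (tlM k (N + 1) w0)‖ ≠ 0 := by
      rw [norm_ne_zero_iff]
      intro h
      apply hne
      funext i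
      exact congrFun (congrArg (fun z : EuclideanSpace ℝ (Fin (N + 1)) => (WithLp.ofLp z : V (N + 1))) h) i
    have hd : HasDerivAt (fun s : ℝ => R (Fin.snoc w0 s))
        (fun i => ‖toE (tlM k (N + 1) w0)‖ * inner ℝ ((P.1 (hdM k (N + 1) w0)).1.2 i) (u w0)) 0 := by
      rw [hasDerivAt_pi]
      intro i
      rw [hR]
      simp only [Fin.snoc_last, Fin.init_snoc]
      have h1 := ((Real.hasDerivAt_cos 0).mul_const (tlM k (N + 1) w0 i)).add
        ((Real.hasDerivAt_sin 0).mul_const (‖toE (tlM k (N + 1) w0)‖ * inner ℝ ((P.1 (hdM k (N + 1) w0)).1.2 i) (u w0)))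
      rw [Real.sin_zero, Real.cos_zero, neg_zero, zero_mul, zero_add, one_mul] at h1
      exact h1
    rw [hd.deriv] at h0
    have hexp := frame_expand (Nat.succ_pos N) (b.rank _) (P.1 (hdM k (N + 1) w0)).2.1 hW'
    have h1 : ∀ i, inner ℝ ((P.1 (hdM k (N + 1) w0)).1.2 i) (u w0) = 0 := by
      intro i
      exact (mul_eq_zero.1 (congrFun h0 i)).resolve_left hρ
    simp only [h1, zero_smul, Finset.sum_const_zero] at hexp
    rw [← hexp, norm_zero] at hn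
    exact zero_ne_one hn
  · filter_upwards [hc0.eventually (hs1.and hu)] with U hU
    obtain ⟨hU1, -, hW, hn, ho, hf⟩ := hU
    obtain ⟨hne, hQ0⟩ := hQw _ hU1
    have hCw : (b.ptm.pl Q).1 (Fin.init U) =
        b.ptm.1 ⟨(P.1 (hdM k (N + 1) (Fin.init U)), tlM k (N + 1) (Fin.init U)), hne⟩ := by
      show b.ptm.1 (Q.1 (Fin.init U)) = _
      rw [hQ0]
    rw [hCw] at hW ho hf
    have hal := INTo_alg (b.rank _) (P.1 (hdM k (N + 1) (Fin.init U))).2.1 hW hn hne ho (U (Fin.last _)) (ξ := R U)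
      (fun i => by rw [hR])
    refine ⟨hal.1, fun h1 h2 => ?_⟩
    exact hf (U (Fin.last _)) _ rfl hal.2

end Pool.Agent.Lib.MP_ccbbf6_gt.L5
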