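import Pool.Agent.Lib.MP_ccbbf6_gt.L5.INTp

/-!
# Level 5, INTq: pull-back of oriented bundles, the complement of the tautological section (helper67)

PROOFS.
(1) pullB: `loc` is b.loc (f.pl p) (done). PI_pullB: `PI_nat (b.sb hN) ((b.pullB f).sb hN) (b.pbS f) f φ` with φ : SMap (b.pullB f).F b.F, (x', a) ↦ (f x', a) (define it); the two conditions hold by rfl (`Subtype.ext`, `Prod.ext`).
(2) cons_OFr: v ∈ W, ‖v‖ = 1: (Fin.cons v a) is an orthonormal frame of W iff a is one of W ⊓ (ℝ ∙ v)ᗮ (`orthonormal_iff_ite`, `Fin.cases`, `Submodule.mem_orthogonal_singleton_iff_inner_right`).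
(3) det_cons: the matrix of (cons v a, cons v a') has first row and first column (1, 0, .., 0): `Matrix.det_succ_row_zero` (all terms except the first vanish), `Fin.succAbove`, submatrix = the matrix of (a, a').
(4) rank_perp: `Submodule.finrank_add_inf_finrank_orthogonal` (K₁ = ℝ ∙ v ≤ K₂ = W; finite dimensional), `finrank_span_singleton`.
(5) perp_loc: `b.LL_q1 hN` for the plot C at z gives h, P with `(b.ptm.comp (e1M b.F N)).pl P = C.cmp h`. The frame (P.1 y).1.2 has first vector (C.1 (h y)).1.2 and base (C.1 (h y)).1.1 (evaluate: ‖toE e1‖ = 1, Σ (e1 i) a i = a 0).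
    a y := Fin.tail (P.1 y).1.2. Near z: h y = y, so (2) gives the frame property and positivity (cons (a y 's) = the frame: `Fin.cons_self_tail`); smoothness: P.2.2 gives sAt along the plot (b.q.pl P), which agrees with
    b.pr.pl C near z: `b.germ`.
-/

set_option autoImplicit false
set_option maxSynthPendingDepth 3

open Set Filter Topology

open scoped ContDiff

noncomputable section

namespace Pool.Agent.Lib.MP_ccbbf6_gt.L5

open L4 L4.FR

variable {k l r N : ℕ} {E : Type} [NormedAddCommGroup E] [InnerProductSpace ℝ E] {B B' : Space}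

/-- pull-back of an unoriented bundle -/
def UBun.pullB (b : UBun r E B) (f : SMap B' B) (hc : ∀ x : B'.pt, (fun _ : V 0 => x) ∈ B'.Pl 0) : UBun r E B' where
  toVFld := b.toVFld.pull f
  W x := b.W (f.1 x)
  rank x := b.rank _
  loc p z := b.loc (f.pl p) z
  cst := hc
  cst0 p w z := b.cst0 (f.pl p) w z

namespace OBun

/-- pull-back -/
def pullB (b : OBun r E B) (f : SMap B' B) : OBun r E B' where
  toVFld := b.toVFld.pull f
  W x := b.W (f.1 x)
  pos x a := b.pos (f.1 x) a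
  rank x := b.rank _
  pos_iff x a a' := b.pos_iff _ a a'
  loc p z := b.loc (f.pl p) z

/-- the map of the sphere bundles -/
def pbS (b : OBun r E B) (f : SMap B' B) : SMap (b.pullB f).S b.S :=
  ⟨fun z => ⟨(f.1 z.1.1, z.1.2), z.2⟩, fun _ p => ⟨(f.pl ⟨_, p.2.1⟩).2, p.2.2⟩⟩

/-- the map of the frame bundles -/
private def INTq_phi (b : OBun r E B) (f : SMap B' B) : SMap (b.pullB f).F b.F :=
  ⟨fun z => ⟨(f.1 z.1.1, z.1.2), z.2⟩, fun _ p => ⟨(f.pl ⟨_, p.2.1⟩).2, p.2.2⟩⟩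

theorem PI_pullB (b : OBun (N + 1) E B) (hN : 1 ≤ N) (f : SMap B' B) (θ : Om b.S) :
    ((b.pullB f).sb hN).PI ((b.pbS f).pull θ) = f.pull ((b.sb hN).PI θ) :=
  PI_nat (b.sb hN) ((b.pullB f).sb hN) (b.pbS f) f (INTq_phi b f) (fun _ => rfl) (fun _ => rfl) θ

end OBun

theorem cons_OFr {W : Submodule ℝ E} {v : E} (hv : v ∈ W) (h1 : ‖v‖ = 1) (a : Fin r → E) :
    OFr W (Fin.cons v a : Fin (r + 1) → E) ↔ OFr (W ⊓ (Submodule.span ℝ {v})ᗮ) a := by
  constructor
  · rintro ⟨h2, h3⟩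
    obtain ⟨_, h4, h5⟩ := orthonormal_vecCons_iff.1 h3
    refine ⟨fun i => Submodule.mem_inf.2 ⟨?_, ?_⟩, h5⟩
    · have h6 := h2 i.succ
      rwa [Fin.cons_succ] at h6
    · exact Submodule.mem_orthogonal_singleton_iff_inner_right.2 (h4 i)
  · rintro ⟨h2, h3⟩
    refine ⟨fun i => ?_, orthonormal_vecCons_iff.2 ⟨h1, fun i => ?_, h3⟩⟩
    · refine Fin.cases ?_ (fun j => ?_) i
      · rw [Fin.cons_zero]
        exact hv
      · rw [Fin.cons_succ]
        exact (Submodule.mem_inf.1 (h2 j)).1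
    · exact Submodule.mem_orthogonal_singleton_iff_inner_right.1 (Submodule.mem_inf.1 (h2 i)).2

theorem det_cons {W : Submodule ℝ E} {v : E} (h1 : ‖v‖ = 1) {a a' : Fin r → E}
    (ha : OFr (W ⊓ (Submodule.span ℝ {v})ᗮ) a) (ha' : OFr (W ⊓ (Submodule.span ℝ {v})ᗮ) a') :
    (Matrix.of fun i j => inner ℝ ((Fin.cons v a : Fin (r + 1) → E) i) ((Fin.cons v a' : Fin (r + 1) → E) j)).det =
      (Matrix.of fun i j => inner ℝ (a i) (a' j)).det := by
  rw [Matrix.det_succ_row_zero, Finset.sum_eq_single 0]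
  · have h2 : (Matrix.of fun i j => inner ℝ ((Fin.cons v a : Fin (r + 1) → E) i)
        ((Fin.cons v a' : Fin (r + 1) → E) j)) 0 0 = 1 := by
      show inner ℝ v v = 1
      rw [real_inner_self_eq_norm_sq, h1, one_pow]
    have h3 : ((Matrix.of fun i j => inner ℝ ((Fin.cons v a : Fin (r + 1) → E) i)
        ((Fin.cons v a' : Fin (r + 1) → E) j)).submatrix Fin.succ (Fin.succAbove 0)) =
        Matrix.of fun i j => inner ℝ (a i) (a' j) := by
      ext i j
      show inner ℝ ((Fin.cons v a : Fin (r + 1) → E) i.succ)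
        ((Fin.cons v a' : Fin (r + 1) → E) (Fin.succAbove 0 j)) = inner ℝ (a i) (a' j)
      rw [Fin.zero_succAbove, Fin.cons_succ, Fin.cons_succ]
    rw [h2, h3, Fin.val_zero, pow_zero, one_mul, one_mul]
  · intro j _ hj
    obtain ⟨i, rfl⟩ := Fin.exists_succ_eq.2 hj
    have h2 : (Matrix.of fun i j => inner ℝ ((Fin.cons v a : Fin (r + 1) → E) i)
        ((Fin.cons v a' : Fin (r + 1) → E) j)) 0 i.succ = 0 := by
      show inner ℝ v (a' i) = 0
      exact Submodule.mem_orthogonal_singleton_iff_inner_right.1 (Submodule.mem_inf.1 (ha'.1 i)).2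
    rw [h2, mul_zero, zero_mul]
  · intro h
    exact absurd (Finset.mem_univ _) h

theorem rank_perp {W : Submodule ℝ E} (hW : Module.finrank ℝ W = r + 1) {v : E} (hv : v ∈ W) (h1 : ‖v‖ = 1) :
    Module.finrank ℝ (W ⊓ (Submodule.span ℝ {v})ᗮ : Submodule ℝ E) = r := by
  have hfin : FiniteDimensional ℝ W := Module.finite_of_finrank_pos (by rw [hW]; exact Nat.succ_pos r)
  have hle : Submodule.span ℝ {v} ≤ W := by
    rw [Submodule.span_singleton_le_iff_mem]
    exact hv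
  have h2 := Submodule.finrank_add_inf_finrank_orthogonal hle
  have hv0 : v ≠ 0 := fun h => by
    rw [h, norm_zero] at h1
    exact zero_ne_one h1
  rw [finrank_span_singleton hv0, hW, inf_comm] at h2
  omega

namespace OBun

private theorem INTq_e1 (N : ℕ) : ‖toE (Pi.single 0 1 : V (N + 1))‖ = 1 := by
  rw [EuclideanSpace.norm_eq]
  have h : ∑ i, ‖(toE (Pi.single 0 1 : V (N + 1))) i‖ ^ 2 = 1 := by
    rw [Finset.sum_eq_single 0]
    · show ‖(Pi.single 0 1 : V (N + 1)) 0‖ ^ 2 = 1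
      rw [Pi.single_eq_same, norm_one, one_pow]
    · intro i _ hi
      show ‖(Pi.single 0 1 : V (N + 1)) i‖ ^ 2 = 0
      rw [Pi.single_eq_of_ne hi, norm_zero]
      norm_num
    · intro h
      exact absurd (Finset.mem_univ _) h
  rw [h, Real.sqrt_one]

theorem perp_loc (b : OBun (N + 1) E B) (hN : 1 ≤ N) (C : b.S.Plot k) (z : V k) :
    ∃ a : V k → Fin N → E, ∀ᶠ y in 𝓝 z,
      OFr (b.W (C.1 y).1.1 ⊓ (Submodule.span ℝ {(C.1 y).1.2})ᗮ) (a y) ∧
      b.pos (C.1 y).1.1 (Fin.cons (C.1 y).1.2 (a y)) ∧ ∀ i, b.sAt (b.pr.pl C) (fun v => a v i) y := by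
  obtain ⟨h, P, hh, hP⟩ := b.LL_q1 hN k C z
  have hb : ∀ y, (P.1 y).1.1 = (C.1 (h y)).1.1 := fun y =>
    congrArg (fun s : b.S.pt => s.1.1) (congrFun (congrArg Subtype.val hP) y)
  have hc : ∀ y, (P.1 y).1.2 0 = (C.1 (h y)).1.2 := by
    intro y
    have h1 : ‖toE (Pi.single 0 1 : V (N + 1))‖⁻¹ • ∑ i, (Pi.single 0 1 : V (N + 1)) i • (P.1 y).1.2 i =
        (C.1 (h y)).1.2 := congrArg (fun s : b.S.pt => s.1.2) (congrFun (congrArg Subtype.val hP) y)
    rw [INTq_e1, inv_one, one_smul, Finset.sum_eq_single 0] at h1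
    · rw [Pi.single_eq_same, one_smul] at h1
      exact h1
    · intro i _ hi
      rw [Pi.single_eq_of_ne hi, zero_smul]
    · intro h0
      exact absurd (Finset.mem_univ _) h0
  refine ⟨fun y => Fin.tail (P.1 y).1.2, ?_⟩
  filter_upwards [hh, hh.eventually_nhds] with y hy hy2
  have hby : (P.1 y).1.1 = (C.1 y).1.1 := by rw [hb y, hy]
  have hcy : (P.1 y).1.2 0 = (C.1 y).1.2 := by rw [hc y, hy]
  have hcons : (Fin.cons (C.1 y).1.2 (Fin.tail (P.1 y).1.2) : Fin (N + 1) → E) = (P.1 y).1.2 := by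
    rw [← hcy]
    exact Fin.cons_self_tail _
  have hfr : OFr (b.W (C.1 y).1.1) (P.1 y).1.2 := by
    rw [← hby]
    exact (P.1 y).2.1
  have hpos : b.pos (C.1 y).1.1 (P.1 y).1.2 := by
    rw [← hby]
    exact (P.1 y).2.2
  refine ⟨?_, ?_, fun i => ?_⟩
  · refine (cons_OFr (C.1 y).2.1 (C.1 y).2.2 _).1 ?_
    rw [hcons]
    exact hfr
  · rw [hcons]
    exact hpos
  · refine b.germ (P.2.2 i.succ y) ?_
    filter_upwards [hy2] with w hw
    show (C.1 w).1.1 = (P.1 w).1.1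
    rw [hb w, hw]

/-- the orthogonal complement of the tautological section of the sphere bundle -/
def perp (b : OBun (N + 1) E B) (hN : 1 ≤ N) : OBun N E b.S where
  toVFld := b.toVFld.pull b.pr
  W z := b.W z.1.1 ⊓ (Submodule.span ℝ {z.1.2})ᗮ
  pos z a := b.pos z.1.1 (Fin.cons z.1.2 a)
  rank z := rank_perp (b.rank _) z.2.1 z.2.2
  pos_iff z a a' ha ha' hp := by
    rw [b.pos_iff z.1.1 _ _ ((cons_OFr z.2.1 z.2.2 a).2 ha) ((cons_OFr z.2.1 z.2.2 a').2 ha') hp,
      det_cons z.2.2 ha ha']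
  loc C z := b.perp_loc hN C z

end OBun

end Pool.Agent.Lib.MP_ccbbf6_gt.L5
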