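import Pool.Agent.Lib.MP_ccbbf6_gt.L5.INTm

/-!
# Level 5, INTp: orientation of a vector bundle by a form on its sphere bundle (helper67)

`UBun r E B`: vector bundle of rank `r` without orientation. `u.S`, `u.F` (all orthonormal frames), `u.val Ψ f`: integral of `Ψ` over the fibre with respect to the frame `f`.
`u.orient Ψ`: if `val Ψ` has no zero, the orientation for which `val Ψ > 0`.

PROOFS.
(1) pt_mem, pt_smooth: copy from INTl.lean (`OBun.pt_mem`, `OBun.pt_smooth`; orientation is not used there).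
(2) val_ev: `Deg 0 (u.sig Ψ)` (`Deg_SI` with j = 0, `Deg_pull`), so `ev z (on (sig Ψ) P)` is a scalar (`Dg_fn`-type lemma: x = fc (fn x)); it equals its value for the plot `P.cmp (const z)` over V 0 (`on_cmp`, `ev_pb`; the map on scalars is
    the identity), and `P.cmp (const z) = u.cP (P.1 z)` (`Plot_ext`).
(3) val_change: f, f' over the same point x, A i j = ⟪a i, a' j⟫, A^T A = 1 (`gramA`), s = det A, |s| = 1. Use `SI_change` (INTg) with E := u.S, F := u.F, k = 0, P = u.cP f, P' = u.cP f', A constant; hypothesis: Σ ξ_j a'_j = Σ (A ξ)_i a_i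
    (`frame_expand`), ‖A ξ‖ = ‖ξ‖ (as in `OBun.change_q`).
(4) contDiff_val: from (2): the function y ↦ val (P y) is `fn` of `on (sig Ψ) P`, smooth.
(5) pos_iff (in orient): pos x a := ∃ h, 0 < val ⟨(x, a), h⟩; val f' = det A * val f, det A = ±1: pos f' iff det A = 1.
(6) loc (in orient): u.loc gives a near z; the function val is smooth along the frame (squeeze with `exists_sq` to get a plot of u.F; or only locally), non-zero at z; if positive at z it is positive near z; if negative replace a 0 by -a 0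
    (r = N+1 ≥ 1): det = -1, `val_change`.
(7) PI_or: `LLift.inj`, `q_PI`: on a plot P of (orient).F: the value of SI at z is val (P z) (the frame space of `orient` maps to u.F by forgetting, `SI_nat`), which is |val| = c because val > 0.
-/

set_option autoImplicit false
set_option maxSynthPendingDepth 3

open Set Filter Topology

open scoped ContDiff

noncomputable section

namespace Pool.Agent.Lib.MP_ccbbf6_gt.L5

open L4 L4.FR

variable {k l r N : ℕ} {E : Type} [NormedAddCommGroup E] [InnerProductSpace ℝ E] {B B' : Space}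

/-- a vector bundle of rank `r` with inner product -/
structure UBun (r : ℕ) (E : Type) [NormedAddCommGroup E] [InnerProductSpace ℝ E] (B : Space) extends VFld E B where
  /-- the fibres -/
  W : B.pt → Submodule ℝ E
  rank : ∀ b, Module.finrank ℝ (W b) = r
  loc : ∀ {k : ℕ} (p : B.Plot k) (z : V k), ∃ a : V k → Fin r → E, ∀ᶠ y in 𝓝 z,
    OFr (W (p.1 y)) (a y) ∧ ∀ i, sAt p (fun v => a v i) y
  cst : ∀ x : B.pt, (fun _ : V 0 => x) ∈ B.Pl 0
  cst0 : ∀ (p : B.Plot 0) (w : V 0 → E) (z : V 0), sAt p w z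

namespace UBun

/-- the sphere bundle -/
def S (u : UBun r E B) : Space where
  pt := {z : B.pt × E // z.2 ∈ u.W z.1 ∧ ‖z.2‖ = 1}
  Pl k := {q | ∃ h : (fun v => (q v).1.1) ∈ B.Pl k, ∀ z, u.sAt ⟨_, h⟩ (fun v => (q v).1.2) z}
  pre := fun {_ _ _} hp g => ⟨B.pre hp.1 g, fun z => u.comp g (hp.2 (g z))⟩

/-- orthonormal frames -/
def F (u : UBun r E B) : Space where
  pt := {z : B.pt × (Fin r → E) // OFr (u.W z.1) z.2}
  Pl k := {q | ∃ h : (fun v => (q v).1.1) ∈ B.Pl k, ∀ i z, u.sAt ⟨_, h⟩ (fun v => (q v).1.2 i) z}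
  pre := fun {_ _ _} hp g => ⟨B.pre hp.1 g, fun i z => u.comp g (hp.2 i (g z))⟩

private theorem INTp1_norm {a : Fin r → E} (ha : Orthonormal ℝ a) (ξ : V r) :
    ‖∑ i, ξ i • a i‖ = ‖toE ξ‖ := by
  have h1 : ‖∑ i, ξ i • a i‖ ^ 2 = ∑ i, ξ i * ξ i := by
    rw [← real_inner_self_eq_norm_sq]
    exact ha.inner_sum ξ ξ Finset.univ
  have h2 : ‖toE ξ‖ ^ 2 = ∑ i, ξ i * ξ i := by
    rw [EuclideanSpace.norm_sq_eq]
    refine Finset.sum_congr rfl fun i _ => ?_
    show ‖ξ i‖ ^ 2 = ξ i * ξ i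
    rw [Real.norm_eq_abs, sq_abs, pow_two]
  exact (sq_eq_sq₀ (norm_nonneg _) (norm_nonneg _)).1 (h1.trans h2.symm)

private theorem INTp1_toE_ne {ξ : V r} (h : ξ ≠ 0) : toE ξ ≠ 0 := fun h0 => h (funext fun i =>
  congrFun (congrArg (fun v : EuclideanSpace ℝ (Fin r) => (v : Fin r → ℝ)) h0) i)

private theorem INTp1_mulVec {n : ℕ} {A : Matrix (Fin n) (Fin n) ℝ} (h : A.transpose * A = 1) (ξ : V n) :
    ‖toE (A.mulVec ξ)‖ = ‖toE ξ‖ := by
  have h1 : ∀ η : V n, ‖toE η‖ = Real.sqrt (dotProduct η η) := by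
    intro η
    rw [EuclideanSpace.norm_eq]
    refine congrArg Real.sqrt (Finset.sum_congr rfl fun i _ => ?_)
    show ‖η i‖ ^ 2 = η i * η i
    rw [Real.norm_eq_abs, sq_abs, pow_two]
  rw [h1, h1, Matrix.dotProduct_mulVec, ← Matrix.mulVec_transpose, Matrix.mulVec_mulVec, h, Matrix.one_mulVec]

private theorem INTp1_det {n : ℕ} {A : Matrix (Fin n) (Fin n) ℝ} (h : A.transpose * A = 1) : |A.det| = 1 := by
  have h1 : A.det * A.det = 1 := by
    have h2 := congrArg Matrix.det h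
    rw [Matrix.det_mul, Matrix.det_transpose, Matrix.det_one] at h2
    exact h2
  rcases mul_self_eq_one_iff.1 h1 with h3 | h3
  · rw [h3, abs_one]
  · rw [h3, abs_neg, abs_one]

theorem pt_mem (u : UBun r E B) (z : (u.F.xP r).pt) : (‖toE z.1.2‖⁻¹ • ∑ i, z.1.2 i • z.1.1.1.2 i) ∈ u.W z.1.1.1.1 ∧
    ‖‖toE z.1.2‖⁻¹ • ∑ i, z.1.2 i • z.1.1.1.2 i‖ = 1 := by
  have hf : OFr (u.W z.1.1.1.1) z.1.1.1.2 := z.1.1.2
  refine ⟨(u.W z.1.1.1.1).smul_mem _ ((u.W z.1.1.1.1).sum_mem fun i _ => (u.W z.1.1.1.1).smul_mem _ (hf.1 i)), ?_⟩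
  rw [norm_smul, INTp1_norm hf.2, norm_inv, norm_norm]
  exact inv_mul_cancel₀ (norm_ne_zero_iff.2 (INTp1_toE_ne z.2))

theorem pt_smooth (u : UBun r E B) (p : (u.F.xP r).Plot k) : ∃ h : (fun v => (p.1 v).1.1.1.1) ∈ B.Pl k, ∀ z,
    u.sAt ⟨_, h⟩ (fun v => ‖toE (p.1 v).1.2‖⁻¹ • ∑ i, (p.1 v).1.2 i • (p.1 v).1.1.1.2 i) z := by
  obtain ⟨h, h2⟩ := p.2.1
  have hξ : ContDiff ℝ ∞ fun v => (p.1 v).1.2 := p.2.2
  refine ⟨h, fun z => ?_⟩
  have h3 : toE (p.1 z).1.2 ≠ 0 := INTp1_toE_ne (p.1 z).2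
  have h4 : ContDiffAt ℝ ∞ (fun v => ‖toE (p.1 v).1.2‖) z := by
    have h5 : ContDiffAt ℝ ∞ (fun v : EuclideanSpace ℝ (Fin r) => ‖v‖) (toE (p.1 z).1.2) := contDiffAt_norm ℝ h3
    exact h5.comp z (contDiff_toE.comp hξ).contDiffAt
  refine u.smul (h4.inv (norm_ne_zero_iff.2 h3)) ?_
  refine u.toVFld.sum Finset.univ fun i _ => u.smul ?_ (h2 i z)
  exact (contDiff_pi.1 hξ i).contDiffAt

/-- the direction with coordinates `ξ` -/
def ptm (u : UBun r E B) : SMap (u.F.xP r) u.S :=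
  ⟨fun z => ⟨(z.1.1.1.1, ‖toE z.1.2‖⁻¹ • ∑ i, z.1.2 i • z.1.1.1.2 i), u.pt_mem z⟩, fun _ p => u.pt_smooth p⟩

/-- constant plot -/
def cP (u : UBun r E B) (f : u.F.pt) : u.F.Plot 0 := ⟨fun _ => f, u.cst _, fun _ _ => u.cst0 _ _ _⟩

/-- fibre integral with respect to the frames -/
def sig (u : UBun r E B) (Ψ : Om u.S) : Om u.F := SI r u.F (u.ptm.pull Ψ)

/-- fibre integral with respect to a frame -/
def val (u : UBun r E B) (Ψ : Om u.S) (f : u.F.pt) : ℝ :=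
  ExteriorAlgebra.algebraMapInv (ev 0 (Om.on (u.sig Ψ) (u.cP f)))

theorem val_ev (u : UBun (N + 1) E B) {Ψ : Om u.S} (h : Deg N Ψ) (P : u.F.Plot k) (z : V k) :
    ev z (Om.on (u.sig Ψ) P) = algebraMap ℝ (Ex k) (u.val Ψ (P.1 z)) := by
  have hd : Deg 0 (u.sig Ψ) := Deg_SI (j := 0) (by
    rw [Nat.zero_add]
    exact Deg_pull _ h)
  have h1 := Dg_fn (hd k P)
  have h2 : u.cP (P.1 z) = P.cmp (⟨fun _ => z, contDiff_const⟩ : FR.Sm 0 k) := Plot_ext fun _ => rfl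
  have h3 : u.val Ψ (P.1 z) = (fn k (Om.on (u.sig Ψ) P) : V k → ℝ) z := by
    unfold val
    rw [h2, on_cmp, ← h1, pb_fc, ev_fc, ExteriorAlgebra.algebraMap_leftInverse (V 0), fn_fc]
    rfl
  rw [h3]
  conv_lhs => rw [← h1]
  rw [ev_fc]

theorem val_change (u : UBun (N + 1) E B) {Ψ : Om u.S} (h : Deg N Ψ) (f f' : u.F.pt) (hf : f.1.1 = f'.1.1) :
    u.val Ψ f' = (Matrix.of fun i j => inner ℝ (f.1.2 i) (f'.1.2 j)).det * u.val Ψ f := by
  have ho : OFr (u.W f.1.1) f.1.2 := f.2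
  have ho' : OFr (u.W f.1.1) f'.1.2 := by
    rw [hf]
    exact f'.2
  have hg := gramA (Nat.succ_pos N) (u.rank _) ho ho'
  have h1 := SI_change (k := 0) u.ptm (P := u.cP f) (P' := u.cP f')
    (A := fun _ => Matrix.of fun i j => inner ℝ (f.1.2 i) (f'.1.2 j)) (fun i j => contDiff_const) (fun _ => hg)
    (s := (Matrix.of fun i j => inner ℝ (f.1.2 i) (f'.1.2 j)).det) (INTp1_det hg) (fun _ => rfl) (fun z ξ hξ => by
      refine Subtype.ext (Prod.ext hf.symm ?_)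
      show ‖toE ξ‖⁻¹ • ∑ j, ξ j • f'.1.2 j =
        ‖toE ((Matrix.of fun i j => inner ℝ (f.1.2 i) (f'.1.2 j)).mulVec ξ)‖⁻¹ •
          ∑ i, ((Matrix.of fun i j => inner ℝ (f.1.2 i) (f'.1.2 j)).mulVec ξ) i • f.1.2 i
      rw [INTp1_mulVec hg]
      congr 1
      have h3 : ∀ i, ((Matrix.of fun i j => inner ℝ (f.1.2 i) (f'.1.2 j)).mulVec ξ) i • f.1.2 i =
          ∑ j, ξ j • inner ℝ (f.1.2 i) (f'.1.2 j) • f.1.2 i := by
        intro i
        show (∑ j, inner ℝ (f.1.2 i) (f'.1.2 j) * ξ j) • f.1.2 i = _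
        rw [Finset.sum_smul]
        refine Finset.sum_congr rfl fun j _ => ?_
        rw [mul_comm, mul_smul]
      rw [Finset.sum_congr rfl fun i _ => h3 i, Finset.sum_comm]
      refine Finset.sum_congr rfl fun j _ => ?_
      rw [← Finset.smul_sum, frame_expand (Nat.succ_pos N) (u.rank _) ho (ho'.1 j)]) Ψ
  unfold val sig
  rw [h1, map_smul, map_smul, smul_eq_mul]

theorem contDiff_val (u : UBun (N + 1) E B) {Ψ : Om u.S} (h : Deg N Ψ) (P : u.F.Plot k) :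
    ContDiff ℝ ∞ fun z => u.val Ψ (P.1 z) := by
  have h1 : (fun z => u.val Ψ (P.1 z)) = (fn k (Om.on (u.sig Ψ) P) : V k → ℝ) := by
    funext z
    rw [fn_apply, u.val_ev h P z, ExteriorAlgebra.algebraMap_leftInverse (V k)]
  rw [h1]
  exact Cs_smooth _

/-- the determinant of two orthonormal frames of the same fibre -/
private theorem INTp2_det (u : UBun (N + 1) E B) {x : B.pt} {a a' : Fin (N + 1) → E} (ho : OFr (u.W x) a)
    (ho' : OFr (u.W x) a') : (Matrix.of fun i j => inner ℝ (a i) (a' j)).det = (1 : ℝ) ∨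
      (Matrix.of fun i j => inner ℝ (a i) (a' j)).det = (-1 : ℝ) := by
  have hdet := congrArg Matrix.det (gramA (Nat.succ_pos N) (u.rank x) ho ho')
  rw [Matrix.det_mul, Matrix.det_transpose, Matrix.det_one] at hdet
  exact mul_self_eq_one_iff.1 hdet

private theorem INTp2_pos_iff (u : UBun (N + 1) E B) {Ψ : Om u.S} (h : Deg N Ψ) {x : B.pt} {a a' : Fin (N + 1) → E}
    (ho : OFr (u.W x) a) (ho' : OFr (u.W x) a') (hp : ∃ h : OFr (u.W x) a, 0 < u.val Ψ ⟨(x, a), h⟩) :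
    (∃ h : OFr (u.W x) a', 0 < u.val Ψ ⟨(x, a'), h⟩) ↔ (Matrix.of fun i j => inner ℝ (a i) (a' j)).det = (1 : ℝ) := by
  obtain ⟨_, hpos⟩ := hp
  have hc : u.val Ψ ⟨(x, a'), ho'⟩ = (Matrix.of fun i j => inner ℝ (a i) (a' j)).det * u.val Ψ ⟨(x, a), ho⟩ :=
    u.val_change h ⟨(x, a), ho⟩ ⟨(x, a'), ho'⟩ rfl
  constructor
  · rintro ⟨_, hpos'⟩
    rcases INTp2_det u ho ho' with h1 | h1
    · exact h1
    · exfalso
      rw [hc, h1, neg_one_mul] at hpos'
      linarith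
  · intro h1
    refine ⟨ho', ?_⟩
    rw [hc, h1, one_mul]
    exact hpos

private theorem INTp2_signs {n : ℕ} {c : Fin (n + 1) → E} (hc : Orthonormal ℝ c) :
    Orthonormal ℝ fun i => (if i = 0 then (-1 : ℝ) else 1) • c i := by
  rw [orthonormal_iff_ite] at hc ⊢
  intro i j
  rw [real_inner_smul_left, real_inner_smul_right, hc i j]
  by_cases hij : i = j
  · subst hij
    split_ifs <;> norm_num
  · rw [if_neg hij, mul_zero, mul_zero]

private theorem INTp2_signs_det {n : ℕ} {c : Fin (n + 1) → E} (hc : Orthonormal ℝ c) :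
    (Matrix.of fun i j => inner ℝ (c i) ((if j = 0 then (-1 : ℝ) else 1) • c j)).det = (-1 : ℝ) := by
  have h1 : (Matrix.of fun i j => inner ℝ (c i) ((if j = 0 then (-1 : ℝ) else 1) • c j)) =
      Matrix.diagonal fun j : Fin (n + 1) => if j = 0 then (-1 : ℝ) else 1 := by
    ext i j
    rw [Matrix.of_apply, real_inner_smul_right, orthonormal_iff_ite.1 hc i j, Matrix.diagonal_apply]
    by_cases hij : i = j
    · subst hij
      rw [if_pos rfl, if_pos rfl, mul_one]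
    · rw [if_neg hij, if_neg hij, mul_zero]
  rw [h1, Matrix.det_diagonal, Finset.prod_ite_eq' Finset.univ (0 : Fin (n + 1))]
  simp

private theorem INTp2_loc (u : UBun (N + 1) E B) {Ψ : Om u.S} (h : Deg N Ψ) (h0 : ∀ f, u.val Ψ f ≠ 0)
    (p : B.Plot k) (z : V k) : ∃ a : V k → Fin (N + 1) → E, ∀ᶠ y in 𝓝 z,
      OFr (u.W (p.1 y)) (a y) ∧ (∃ h : OFr (u.W (p.1 y)) (a y), 0 < u.val Ψ ⟨(p.1 y, a y), h⟩) ∧
        ∀ i, u.sAt p (fun v => a v i) y := by
  obtain ⟨a, ha⟩ := u.loc p z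
  obtain ⟨s, hs1, hs2⟩ := exists_sq z ha
  obtain ⟨P, hP⟩ : ∃ P : u.F.Plot k, ∀ y, P.1 y = ⟨(p.1 (s y), a (s y)), (hs2 y).1⟩ :=
    ⟨⟨fun y => ⟨(p.1 (s y), a (s y)), (hs2 y).1⟩, (p.cmp s).2, fun i y => u.comp s ((hs2 y).2 i)⟩, fun _ => rfl⟩
  have hcont : Continuous fun y => u.val Ψ (P.1 y) := (u.contDiff_val h P).continuous
  rcases lt_or_gt_of_ne (h0 (P.1 z)) with hneg | hpos
  · -- change the sign of the first vector
    have h1 : ∀ᶠ y in 𝓝 z, u.val Ψ (P.1 y) < 0 := hcont.continuousAt.eventually (gt_mem_nhds hneg)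
    refine ⟨fun y i => (if i = 0 then (-1 : ℝ) else 1) • a y i, ?_⟩
    filter_upwards [ha, hs1, h1] with y hy hsy hy1
    have ho : OFr (u.W (p.1 y)) fun i => (if i = 0 then (-1 : ℝ) else 1) • a y i :=
      ⟨fun i => (u.W (p.1 y)).smul_mem _ (hy.1.1 i), INTp2_signs hy.1.2⟩
    have h2 : u.val Ψ ⟨(p.1 y, a y), hy.1⟩ < 0 := by
      have h3 : ∀ (y' : V k), s y = y' → ∀ hh : OFr (u.W (p.1 y')) (a y'), u.val Ψ ⟨(p.1 y', a y'), hh⟩ < 0 := by
        rintro _ rfl hh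
        have h4 := hP y
        rw [h4] at hy1
        exact hy1
      exact h3 y hsy hy.1
    refine ⟨ho, ⟨ho, ?_⟩, fun i => u.smul contDiffAt_const (hy.2 i)⟩
    have hc : u.val Ψ ⟨(p.1 y, fun i => (if i = 0 then (-1 : ℝ) else 1) • a y i), ho⟩ =
        (Matrix.of fun i j => inner ℝ (a y i) ((if j = 0 then (-1 : ℝ) else 1) • a y j)).det *
          u.val Ψ ⟨(p.1 y, a y), hy.1⟩ :=
      u.val_change h ⟨(p.1 y, a y), hy.1⟩ ⟨(p.1 y, fun i => (if i = 0 then (-1 : ℝ) else 1) • a y i), ho⟩ rfl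
    rw [hc, INTp2_signs_det hy.1.2, neg_one_mul]
    linarith
  · have h1 : ∀ᶠ y in 𝓝 z, 0 < u.val Ψ (P.1 y) := hcont.continuousAt.eventually (lt_mem_nhds hpos)
    refine ⟨a, ?_⟩
    filter_upwards [ha, hs1, h1] with y hy hsy hy1
    refine ⟨hy.1, ⟨hy.1, ?_⟩, hy.2⟩
    have h3 : ∀ (y' : V k), s y = y' → ∀ hh : OFr (u.W (p.1 y')) (a y'), 0 < u.val Ψ ⟨(p.1 y', a y'), hh⟩ := by
      rintro _ rfl hh
      have h4 := hP y
      rw [h4] at hy1
      exact hy1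
    exact h3 y hsy hy.1

/-- **orientation by a form** -/
def orient (u : UBun (N + 1) E B) {Ψ : Om u.S} (h : Deg N Ψ) (h0 : ∀ f, u.val Ψ f ≠ 0) : OBun (N + 1) E B where
  toVFld := u.toVFld
  W := u.W
  pos x a := ∃ h : OFr (u.W x) a, 0 < u.val Ψ ⟨(x, a), h⟩
  rank := u.rank
  pos_iff := fun _ _ _ ho ho' hp => INTp2_pos_iff u h ho ho' hp
  loc := fun p z => INTp2_loc u h h0 p z

theorem orient_S (u : UBun (N + 1) E B) {Ψ : Om u.S} (h : Deg N Ψ) (h0 : ∀ f, u.val Ψ f ≠ 0) :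
    (u.orient h h0).S = u.S := rfl

private theorem INTp2_const {X : Space} (P : X.Plot k) (c : ℝ) (z : V k) :
    ev z (Om.on (algebraMap ℝ (Om X) c) P) = algebraMap ℝ (Ex k) c := by
  rw [Algebra.algebraMap_eq_smul_one, on_smul, on_one, map_smul, map_one, Algebra.algebraMap_eq_smul_one]

/-- the positive frames are frames -/
private def INTp2_forget (u : UBun (N + 1) E B) {Ψ : Om u.S} (h : Deg N Ψ) (h0 : ∀ f, u.val Ψ f ≠ 0) :
    SMap (u.orient h h0).F u.F := ⟨fun z => ⟨z.1, z.2.1⟩, fun _ p => p.2⟩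

/-- the fibre integral of the form which defines the orientation -/
theorem PI_or (u : UBun (N + 1) E B) (hN : 1 ≤ N) {Ψ : Om u.S} (h : Deg N Ψ) (h0 : ∀ f, u.val Ψ f ≠ 0) {c : ℝ}
    (hc : ∀ f, |u.val Ψ f| = c) : ((u.orient h h0).sb hN).PI Ψ = algebraMap ℝ (Om B) c := by
  refine ((u.orient h h0).sb hN).lift.inj ?_
  rw [((u.orient h h0).sb hN).q_PI, AlgHom.commutes]
  have e1 : ((u.orient h h0).sb hN).ptm = u.ptm.comp ((INTp2_forget u h h0).xP (N + 1)) := SMap_ext fun z => rfl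
  have e2 : SI (N + 1) ((u.orient h h0).sb hN).F (((u.orient h h0).sb hN).ptm.pull Ψ) =
      (INTp2_forget u h h0).pull (u.sig Ψ) := by
    have e0 : SI (N + 1) (u.orient h h0).F (((INTp2_forget u h h0).xP (N + 1)).pull (u.ptm.pull Ψ)) =
        (INTp2_forget u h h0).pull (SI (N + 1) u.F (u.ptm.pull Ψ)) := SI_nat (INTp2_forget u h h0) (u.ptm.pull Ψ)
    exact (congrArg (fun f : SMap ((u.orient h h0).F.xP (N + 1)) u.S => SI (N + 1) (u.orient h h0).F (f.pull Ψ)) e1).trans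
      e0
  rw [e2]
  refine Om_ext fun k P => ev_ext fun z => ?_
  have e3 : ev z (Om.on ((INTp2_forget u h h0).pull (u.sig Ψ)) P) =
      algebraMap ℝ (Ex k) (u.val Ψ (((INTp2_forget u h h0).pl P).1 z)) := u.val_ev h ((INTp2_forget u h h0).pl P) z
  have e4 : u.val Ψ (((INTp2_forget u h h0).pl P).1 z) = c := by
    rw [← hc (((INTp2_forget u h h0).pl P).1 z)]
    refine (abs_of_pos ?_).symm
    obtain ⟨_, h3⟩ := (P.1 z).2.2
    exact h3
  rw [e3, e4]
  exact (INTp2_const P c z).symm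

end UBun

end Pool.Agent.Lib.MP_ccbbf6_gt.L5
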