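import Pool.Agent.Lib.MP_ccbbf6_gt.L4.OMp
import Pool.Agent.Lib.MP_ccbbf6_gt.L4.OriE
import Pool.Agent.Lib.MP_ccbbf6_gt.L4.Sp
import Pool.Agent.Lib.MP_ccbbf6_gt.L5.INTp

/-!
# Level 5, INTr: the tangent bundle, the space `FM` of pairs at distance `π`, the bundle `V` (helper67)

PROOFS.
(1) vTM: fields: zero: `CC .. 0 = 0`; add, smul: `SmV.add`, `SmV.smul`; inn: `SmV.inner (p.2 z) (𝒜.mem _)`; congr: `SmV.congr`; comp: `SmV.comp`; germ: `ContDiffAt.congr_of_eventuallyEq` (and the centre of the chart is the same point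
    by `self_of_nhds`).
(2) uTM_loc: w i v := DD 𝒜 (p.1 z) (p.1 v) (EuclideanSpace.single i 1) (OriD). In the chart centred at p.1 z its coordinates are constant near every y near z (`CC_DD`), so SmV 𝒜 (p.1 z) .. ; change the centre with `SmV.chart` to p.1 y.
    At z linearly independent (`DD_CC`/`CC_DD`: DD is injective). Then `(vTM 𝒜).gs`. Rank: `finrank_euclideanSpace_fin`, `finrank_top`.
(3) cst: a constant family is smooth (`SmAt` of a constant: see L4/Str or PO1, `smAt_const`); cst0: V 0 is a subsingleton: `contDiffAt` on a subsingleton (`contDiff_of_subsingleton`).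
(4) gF: dist (c 0) (c π) = π: `c.2 0 π`; smooth by `SmG.ev'` (as `foot`).
(5) VF: `PV_dirOf`: the vector dirOf x y is a unit vector with Ex x (rad π dirOf) = y for dist x y = π (`dirOf_spec`, `gv`/`kc_Ex`). mem_VF: w ≠ 0: w ∈ VF z ↔ Ex z.1.1 (rad π w) = z.1.2 (`mem_PV_iff`). VF_gF: vel c 0 ∈ VF (gF c); finrank_VF.
(6) toS / ofS: isomorphism of spG with the unit sphere bundles: c ↦ (c 0, vel c 0) and (x, v) ↦ gvg x v. Smoothness of toS: `SmG.at`, `SmGA.smV` (centre of the chart: (c u) 0). Smoothness of ofS: `smG_of`, `smAt_of_vel` for t = 0 and t = π/2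
    (foot and velocity by `gvg_vel`). ofS_toS: `eq_of_vel'`; toS_ofS: `Subtype.ext`, `gvg_vel`.
-/

set_option autoImplicit false
set_option maxSynthPendingDepth 3

open Set Filter Topology Real

open scoped ContDiff RealInnerProductSpace

noncomputable section

namespace Pool.Agent.Lib.MP_ccbbf6_gt.L5

open L4 L4.FR L4.ORI Geo

variable {k l r N n : ℕ} {M : Type} [MetricSpace M] [CompactSpace M]

/-- smooth vector fields along plots -/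
def vTM (𝒜 : SDist n M) : VFld (Eu n) (spM 𝒜) where
  sAt p w z := SmV 𝒜 (p.1 z) p.1 w z
  zero p z := by
    unfold SmV
    simp only [map_zero]
    exact contDiffAt_const
  add h h' := h.add h'
  smul hf h := h.smul hf
  inn {k p w w' z} h h' := SmV.inner (p.2 z) (𝒜.mem _) h h'
  congr h h' := h.congr h'
  comp {k l p w} g {z} h := by
    have h1 := SmV.comp (𝒜 := 𝒜) (x := p.1) (f := fun v => g v) (v := z) h g.smooth.contDiffAt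
    exact h1
  germ {k p p' w z} h e := by
    unfold SmV at h ⊢
    refine h.congr_of_eventuallyEq ?_
    filter_upwards [e] with v hv
    rw [hv, e.self_of_nhds]

theorem uTM_loc (𝒜 : SDist n M) (p : (spM 𝒜).Plot k) (z : V k) : ∃ a : V k → Fin n → Eu n, ∀ᶠ y in 𝓝 z,
    OFr (⊤ : Submodule ℝ (Eu n)) (a y) ∧ ∀ i, (vTM 𝒜).sAt p (fun v => a v i) y := by
  have hsm : Sm 𝒜 p.1 := p.2
  have hnear : ∀ᶠ y in 𝓝 z, p.1 y ∈ (𝒜.ψ (p.1 z)).source :=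
    (hsm z).cont.eventually ((𝒜.ψ (p.1 z)).open_source.mem_nhds (𝒜.mem (p.1 z)))
  have h : ∀ᶠ y in 𝓝 z, ∀ i : Fin n, (vTM 𝒜).sAt p
      (fun v => DD 𝒜 (p.1 z) (p.1 v) (EuclideanSpace.single i (1 : ℝ))) y := by
    filter_upwards [hnear] with y hy i
    have h1 : SmV 𝒜 (p.1 z) p.1 (fun v => DD 𝒜 (p.1 z) (p.1 v) (EuclideanSpace.single i (1 : ℝ))) y := by
      unfold SmV
      refine (contDiffAt_const (c := EuclideanSpace.single i (1 : ℝ))).congr_of_eventuallyEq ?_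
      filter_upwards [(hsm y).cont.eventually ((𝒜.ψ (p.1 z)).open_source.mem_nhds hy)] with v hv
      exact CC_DD 𝒜 hv _
    exact SmV.chart (hsm y) h1 hy (𝒜.mem _)
  have hl : LinearIndependent ℝ fun i : Fin n => DD 𝒜 (p.1 z) (p.1 z) (EuclideanSpace.single i (1 : ℝ)) := by
    have h1 : LinearIndependent ℝ fun i : Fin n => (EuclideanSpace.single i (1 : ℝ) : Eu n) := by
      have h2 := (EuclideanSpace.basisFun (Fin n) ℝ).orthonormal.linearIndependent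
      have h3 : (fun i : Fin n => (EuclideanSpace.single i (1 : ℝ) : Eu n)) = ⇑(EuclideanSpace.basisFun (Fin n) ℝ) :=
        funext fun i => (EuclideanSpace.basisFun_apply (Fin n) ℝ i).symm
      rw [h3]
      exact h2
    have h4 : Function.Injective (DD 𝒜 (p.1 z) (p.1 z) : Eu n →ₗ[ℝ] Eu n) := fun a b hab => by
      have h5 : DD 𝒜 (p.1 z) (p.1 z) a = DD 𝒜 (p.1 z) (p.1 z) b := hab
      rw [← CC_DD 𝒜 (𝒜.mem (p.1 z)) a, h5, CC_DD 𝒜 (𝒜.mem (p.1 z)) b]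
    exact h1.map' (DD 𝒜 (p.1 z) (p.1 z) : Eu n →ₗ[ℝ] Eu n) (LinearMap.ker_eq_bot.2 h4)
  obtain ⟨a, ha⟩ := (vTM 𝒜).gs h hl
  exact ⟨a, ha.mono fun y hy => ⟨⟨fun i => Submodule.mem_top, hy.1⟩, hy.2.2⟩⟩

theorem cst_M (𝒜 : SDist n M) (x : M) : (fun _ : V 0 => x) ∈ (spM 𝒜).Pl 0 := sm_const x

theorem cst0_M (𝒜 : SDist n M) (p : (spM 𝒜).Plot 0) (w : V 0 → Eu n) (z : V 0) : (vTM 𝒜).sAt p w z := by
  have h1 : (fun v => CC 𝒜 (p.1 z) (p.1 v) (w v)) = fun _ => CC 𝒜 (p.1 z) (p.1 z) (w z) :=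
    funext fun v => by rw [Subsingleton.elim v z]
  show ContDiffAt ℝ ∞ (fun v => CC 𝒜 (p.1 z) (p.1 v) (w v)) z
  rw [h1]
  exact contDiffAt_const

/-- the tangent bundle -/
def uTM (𝒜 : SDist n M) : UBun n (Eu n) (spM 𝒜) where
  toVFld := vTM 𝒜
  W _ := ⊤
  rank _ := by
    rw [finrank_top]
    exact finrank_euclideanSpace_fin
  loc p z := uTM_loc 𝒜 p z
  cst := cst_M 𝒜
  cst0 := cst0_M 𝒜

/-- pairs of points at distance `π` -/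
def spF (𝒜 : SDist n M) : Space where
  pt := {z : M × M // dist z.1 z.2 = π}
  Pl _ := {p | Sm 𝒜 (fun u => (p u).1.1) ∧ Sm 𝒜 (fun u => (p u).1.2)}
  pre := fun {_ _ p} hp g => ⟨Sm.comp (g := fun u => (p u).1.1) hp.1 g.smooth,
    Sm.comp (g := fun u => (p u).1.2) hp.2 g.smooth⟩

/-- first point -/
def pF1 (𝒜 : SDist n M) : SMap (spF 𝒜) (spM 𝒜) := ⟨fun z => z.1.1, fun _ p => p.2.1⟩

/-- second point -/
def pF2 (𝒜 : SDist n M) : SMap (spF 𝒜) (spM 𝒜) := ⟨fun z => z.1.2, fun _ p => p.2.2⟩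

variable {𝒜 : SDist n M}

theorem gs_dist_pi (c : Gs M) : dist (c.1 0) (c.1 π) = π := by
  have h : |(0 : ℝ) - π| = π := by rw [zero_sub, abs_neg, abs_of_pos Real.pi_pos]
  rw [c.2 0 π (by rw [h]), h]

/-- end points -/
def gF (hB : Bl M) : SMap (spG 𝒜) (spF 𝒜) := ⟨fun c => ⟨(c.1 0, c.1 π), gs_dist_pi c⟩, fun _ p =>
  ⟨SmG.ev' hB p.2 contDiff_const, SmG.ev' hB p.2 contDiff_const⟩⟩

/-- the directions of the segments from `x` to `y`, `d(x, y) = π` -/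
def VF (𝒜 : SDist n M) (z : (spF 𝒜).pt) : Submodule ℝ (Eu n) := 𝒜.PV z.1.1 (SDist.dirOf 𝒜 z.1.1 z.1.2)

private theorem INTr2_dir (hB : Bl M) (z : (spF 𝒜).pt) : ‖SDist.dirOf 𝒜 z.1.1 z.1.2‖ = 1 ∧
    𝒜.Ex z.1.1 (rad π (SDist.dirOf 𝒜 z.1.1 z.1.2)) = z.1.2 := by
  have hd : dist z.1.1 z.1.2 = π := z.2
  have hne : z.1.2 ≠ z.1.1 := by
    intro h
    rw [h, dist_self] at hd
    exact Real.pi_pos.ne hd
  obtain ⟨h1, h2⟩ := dirOf_spec (𝒜 := 𝒜) (p := z.1.1) hB hne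
  rw [hd] at h2
  exact ⟨h1, by rw [kc_gv 𝒜 h1 hB, h2]⟩

theorem mem_VF (hB : Bl M) (z : (spF 𝒜).pt) {w : Eu n} (hw : w ≠ 0) : w ∈ VF 𝒜 z ↔ 𝒜.Ex z.1.1 (rad π w) = z.1.2 := by
  obtain ⟨h1, h2⟩ := INTr2_dir hB z
  have h3 := mem_PV_iff 𝒜 hB z.1.1 (v := SDist.dirOf 𝒜 z.1.1 z.1.2) (kc_ne h1) hw
  rw [h2] at h3
  exact h3

theorem finrank_VF (hB : Bl M) {κ : ℕ} (hk : 𝒜.HK κ) (z : (spF 𝒜).pt) : Module.finrank ℝ (VF 𝒜 z) = κ + 1 := by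
  obtain ⟨h1, -⟩ := INTr2_dir hB z
  exact finrank_PV 𝒜 hB hk z.1.1 (kc_ne h1)

theorem vel_mem_VF (hB : Bl M) (c : Gs M) : 𝒜.vel c.1 0 ∈ VF 𝒜 ((gF hB).1 c) := by
  rw [mem_VF hB _ (vel_ne 𝒜 c)]
  exact (gs_Ex 𝒜 hB c π).symm

/-- a geodesic with initial velocity in `VF z` ends at the second point -/
theorem gvg_VF (hB : Bl M) (z : (spF 𝒜).pt) {v : Eu n} (hv : v ∈ VF 𝒜 z) (h1 : ‖v‖ = 1) :
    (gF hB).1 (gvg 𝒜 hB z.1.1 v h1) = z := by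
  have h2 : (gvg 𝒜 hB z.1.1 v h1).1 π = z.1.2 := by
    rw [← (mem_VF hB z (kc_ne h1)).1 hv, kc_gv 𝒜 h1 hB]
    rfl
  exact Subtype.ext (Prod.ext (gvg_vel 𝒜 hB z.1.1 v h1).1 h2)

/-- the plane `VF` depends only on the geodesic -/
theorem VF_gF (hB : Bl M) (c : Gs M) : VF 𝒜 ((gF hB).1 c) = 𝒜.PV (c.1 0) (𝒜.vel c.1 0) := by
  exact (PV_eq_of_mem 𝒜 hB (c.1 0) (v := SDist.dirOf 𝒜 (c.1 0) (c.1 π)) (vel_mem_VF hB c) (vel_ne 𝒜 c)).symm

/-- smooth families of unit vectors give smooth families of geodesics -/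
theorem smG_gvg (hB : Bl M) {p : V k → M} (hp : Sm 𝒜 p) {w : V k → Eu n} (h1 : ∀ z, ‖w z‖ = 1)
    (hw : ∀ z, SmV 𝒜 (p z) p w z) : SmG 𝒜 fun z => gvg 𝒜 hB (p z) (w z) (h1 z) := by
  have e0 : (fun z => (gvg 𝒜 hB (p z) (w z) (h1 z)).1 0) = p := funext fun z => (gvg_vel 𝒜 hB (p z) (w z) (h1 z)).1
  have e1 : (fun z => 𝒜.vel (gvg 𝒜 hB (p z) (w z) (h1 z)).1 0) = w :=
    funext fun z => (gvg_vel 𝒜 hB (p z) (w z) (h1 z)).2
  refine smG_of fun u => ⟨?_, ?_⟩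
  · rw [e0]
    exact hp u
  · refine smAt_of_vel hB (p := p u) (τ := fun z => gvg 𝒜 hB (p z) (w z) (h1 z)) ?_ ?_ ?_ ?_
    · rw [e0]
      exact hp u
    · rw [(gvg_vel 𝒜 hB (p u) (w u) (h1 u)).1]
      exact 𝒜.mem _
    · rw [e0, e1]
      exact hw u
    · rw [abs_of_pos (by positivity)]
      linarith [Real.pi_pos]

/-- velocities of a smooth family -/
theorem smV_G (hB : Bl M) (σ : (spG 𝒜).Plot k) (z : V k) :
    SmV 𝒜 ((σ.1 z).1 0) (fun v => (σ.1 v).1 0) (fun v => 𝒜.vel (σ.1 v).1 0) z :=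
  SmGA.smV hB (SmG.at σ.2 z) (𝒜.mem _)

/-- geodesics as unit tangent vectors -/
def toTM (hB : Bl M) : SMap (spG 𝒜) (uTM 𝒜).S :=
  ⟨fun c => ⟨(c.1 0, 𝒜.vel c.1 0), Submodule.mem_top, vel_norm 𝒜 c⟩, fun _ p =>
    ⟨((foot hB 0).pl p).2, fun z => smV_G hB p z⟩⟩

/-- unit tangent vectors as geodesics -/
def ofTM (hB : Bl M) : SMap (uTM 𝒜).S (spG 𝒜) :=
  ⟨fun z => gvg 𝒜 hB z.1.1 z.1.2 z.2.2, fun _ p => smG_gvg hB p.2.1 (fun z => (p.1 z).2.2) p.2.2⟩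

theorem ofTM_toTM (hB : Bl M) (c : (spG 𝒜).pt) : (ofTM hB).1 ((toTM hB).1 c) = c :=
  eq_of_vel' 𝒜 (gvg_vel 𝒜 hB (c.1 0) (𝒜.vel c.1 0) (vel_norm 𝒜 c)).1 (gvg_vel 𝒜 hB (c.1 0) (𝒜.vel c.1 0) (vel_norm 𝒜 c)).2

theorem toTM_ofTM (hB : Bl M) (z : (uTM 𝒜).S.pt) : (toTM hB).1 ((ofTM hB).1 z) = z :=
  Subtype.ext (Prod.ext (gvg_vel 𝒜 hB z.1.1 z.1.2 z.2.2).1 (gvg_vel 𝒜 hB z.1.1 z.1.2 z.2.2).2)

end Pool.Agent.Lib.MP_ccbbf6_gt.L5
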