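import Pool.Agent.Lib.MP_ccbbf6_gt.L4.OriF
import Pool.Agent.Lib.MP_ccbbf6_gt.L5.INTo
import Pool.Agent.Lib.MP_ccbbf6_gt.L5.INTq
import Pool.Agent.Lib.MP_ccbbf6_gt.L5.INTr

/-!
# Level 5, INTs: the sphere bundles `UM → M`, `UM → FM`, `D → UM` (helper67)

`bM : SBun N spG spM` (`dim M = N + 1`), `bV : SBun κ spG spF`, `bK : SBun N spD spG` (`κ = N + 1`).

PROOFS.
(1) uV_loc: hL gives sections w; `(vF 𝒜).gs` gives an orthonormal family with the same span, contained in VF. cst_F, cst0_F as cst_M, cst0_M (INTr).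
(2) toVS / ofVS: membership by `vel_mem_VF`, `vel_norm`; smoothness by `smV_G`, `smG_gvg`. ofVS_toVS: `eq_of_vel'` with `gvg_vel`; toVS_ofVS: `Subtype.ext`, `Prod.ext`, `gvg_VF`, `gvg_vel`.
(3) toKD / ofKD: a pair (c, c') of perpendicular geodesics with the same ends (`Dp`) is (c, vel c'): vel c' ∈ VF (gF c) (`VF_gF`, `mem_PV_of_top`) and perpendicular to vel c. Conversely gvg (c 0) v for v ∈ VF (gF c), v ⊥ vel c: `gvg_VF`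
    gives the same end points. Smoothness: `smV_G` along the same foot, `smG_gvg`.
(4) VFl_iso: unfold: the two statements are the same (`SBun.iso`: F, q unchanged, ptm := e.comp ptm).
(5) VFl_M: `VFl_iso`, `OBun.VFl_sb` for (uTM.orient ..) and g = (gF hB).comp (ofTM hB): for a plot C of S and z: bKo.loc for the plot (ofTM hB).pl C of spG gives a frame a near z; u y := a y ⟨0, _⟩ (κ ≥ 1). Properties: u y ∈ VF (gF (ofTM C)) and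
    perpendicular to vel (ofTM C) = (C y).1.2 (`gvg_vel`); SmV along (C y).1.1 (the foot of ofTM (C y) is (C y).1.1: `gvg_vel`; `germ`/rewrite of plots by `Plot_ext`). For c' with the same foot x and direction w = cos s • v + sin s • u ∈ VF
    (submodule): gF (ofTM c') = gF (ofTM (C y)) by `gvg_VF` applied to both (w and v are unit vectors of VF z', z' = gF (ofTM (C y))).
(6) PI_MF: `PI_kill` with (5). PI_MF_pull: `VFl_pull` and `PI_kill`.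
-/

set_option autoImplicit false
set_option maxSynthPendingDepth 3

open Set Filter Topology Real
open scoped ContDiff RealInnerProductSpace

noncomputable section

namespace Pool.Agent.Lib.MP_ccbbf6_gt.L5

open L4 L4.FR L4.ORI Geo

variable {k l r N n κ : ℕ} {M : Type} [MetricSpace M] [CompactSpace M] {X Y S S' B B' : Space}

/-- local sections of `V` along families of pairs -/
def LocV (𝒜 : SDist n M) (κ : ℕ) : Prop := ∀ {k : ℕ} (p : (spF 𝒜).Plot k) (z : V k), ∃ w : Fin (κ + 1) → V k → Eu n,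
  (∀ᶠ y in 𝓝 z, ∀ i, w i y ∈ VF 𝒜 (p.1 y) ∧ SmV 𝒜 (p.1 y).1.1 (fun v => (p.1 v).1.1) (w i) y) ∧
  LinearIndependent ℝ fun i => w i z

/-- vector fields along the first point -/
def vF (𝒜 : SDist n M) : VFld (Eu n) (spF 𝒜) := (vTM 𝒜).pull (pF1 𝒜)

section one

variable {𝒜 : SDist n M} (hB : Bl M) (hk : 𝒜.HK κ) (hL : LocV 𝒜 κ)

include hB hk hL in
theorem uV_loc (p : (spF 𝒜).Plot k) (z : V k) : ∃ a : V k → Fin (κ + 1) → Eu n, ∀ᶠ y in 𝓝 z,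
    OFr (VF 𝒜 (p.1 y)) (a y) ∧ ∀ i, (vF 𝒜).sAt p (fun v => a v i) y := by
  obtain ⟨w, hw, hl⟩ := hL p z
  have h : ∀ᶠ y in 𝓝 z, ∀ i, (vF 𝒜).sAt p (w i) y := hw.mono fun y hy i => (hy i).2
  have hspan : ∀ y, (∀ i, w i y ∈ VF 𝒜 (p.1 y)) →
      Submodule.span ℝ (Set.range fun i => w i y) ≤ VF 𝒜 (p.1 y) := by
    intro y hy
    refine Submodule.span_le.2 ?_
    rintro _ ⟨i, rfl⟩
    exact hy i
  obtain ⟨a, ha⟩ := (vF 𝒜).gs h hl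
  refine ⟨a, ?_⟩
  filter_upwards [ha, hw] with y hy hwy
  refine ⟨⟨fun i => ?_, hy.1⟩, hy.2.2⟩
  have h1 : a y i ∈ Submodule.span ℝ (Set.range (a y)) := Submodule.subset_span ⟨i, rfl⟩
  rw [hy.2.1] at h1
  exact hspan y (fun i => (hwy i).1) h1

theorem cst_F (x : (spF 𝒜).pt) : (fun _ : V 0 => x) ∈ (spF 𝒜).Pl 0 :=
  ⟨cst_M 𝒜 x.1.1, cst_M 𝒜 x.1.2⟩

/-- the bundle `V` -/
def uV : UBun (κ + 1) (Eu n) (spF 𝒜) where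
  toVFld := vF 𝒜
  W := VF 𝒜
  rank := finrank_VF hB hk
  loc p z := uV_loc hB hk hL p z
  cst := cst_F
  cst0 p w z := cst0_M 𝒜 ((pF1 𝒜).pl p) w z

/-- geodesics as unit vectors of `V` -/
def toVS : SMap (spG 𝒜) (uV hB hk hL).S :=
  ⟨fun c => ⟨((gF hB).1 c, 𝒜.vel c.1 0), vel_mem_VF hB c, vel_norm 𝒜 c⟩, fun _ p =>
    ⟨((gF hB).pl p).2, fun z => smV_G hB p z⟩⟩

/-- unit vectors of `V` as geodesics -/
def ofVS : SMap (uV hB hk hL).S (spG 𝒜) :=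
  ⟨fun z => gvg 𝒜 hB z.1.1.1.1 z.1.2 z.2.2, fun _ p => smG_gvg hB p.2.1.1 (fun z => (p.1 z).2.2) p.2.2⟩

theorem ofVS_toVS (c : (spG 𝒜).pt) : (ofVS hB hk hL).1 ((toVS hB hk hL).1 c) = c :=
  eq_of_vel' 𝒜 (gvg_vel 𝒜 hB (c.1 0) (𝒜.vel c.1 0) (vel_norm 𝒜 c)).1
    (gvg_vel 𝒜 hB (c.1 0) (𝒜.vel c.1 0) (vel_norm 𝒜 c)).2

theorem toVS_ofVS (z : (uV hB hk hL).S.pt) : (toVS hB hk hL).1 ((ofVS hB hk hL).1 z) = z :=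
  Subtype.ext (Prod.ext (gvg_VF hB z.1.1 z.2.1 z.2.2) (gvg_vel 𝒜 hB z.1.1.1.1 z.1.2 z.2.2).2)

/-- `Ψ` orients `V` -/
def OrV (Ψ : Om (spG 𝒜)) : Prop := ∀ f, (uV hB hk hL).val ((ofVS hB hk hL).pull Ψ) f ≠ 0

variable {Ψ : Om (spG 𝒜)} (hΨ : Deg κ Ψ) (h0 : OrV hB hk hL Ψ)

/-- `V` with the orientation given by `Ψ` -/
def bVo : OBun (κ + 1) (Eu n) (spF 𝒜) := (uV hB hk hL).orient (Deg_pull _ hΨ) h0

variable (hκ : 1 ≤ κ)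

/-- **`UM → FM`** -/
def bV : SBun κ (spG 𝒜) (spF 𝒜) :=
  ((bVo hB hk hL hΨ h0).sb hκ).iso (ofVS hB hk hL) (toVS hB hk hL) (toVS_ofVS hB hk hL) (ofVS_toVS hB hk hL)

theorem bV_pi : (bV hB hk hL hΨ h0 hκ).pi = gF hB := rfl

theorem PI_V (hc : ∀ f, |(uV hB hk hL).val ((ofVS hB hk hL).pull Ψ) f| = 1) : (bV hB hk hL hΨ h0 hκ).PI Ψ = 1 := by
  have h2 := (uV hB hk hL).PI_or hκ (Deg_pull (ofVS hB hk hL) hΨ) h0 hc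
  rw [map_one] at h2
  exact h2

/-- **the bundle `K` over `UM`** -/
def bKo : OBun κ (Eu n) (spG 𝒜) := ((bVo hB hk hL hΨ h0).perp hκ).pullB (toVS hB hk hL)

theorem bKo_W (c : Gs M) : (bKo hB hk hL hΨ h0 hκ).W c =
    𝒜.PV (c.1 0) (𝒜.vel c.1 0) ⊓ (Submodule.span ℝ {𝒜.vel c.1 0})ᗮ := by
  show VF 𝒜 ((gF hB).1 c) ⊓ (Submodule.span ℝ {𝒜.vel c.1 0})ᗮ = _
  rw [VF_gF hB c]

theorem Dp_mem (z : (spD 𝒜).pt) : 𝒜.vel z.1.2.1 0 ∈ (bKo hB hk hL hΨ h0 hκ).W z.1.1 ∧ ‖𝒜.vel z.1.2.1 0‖ = 1 := by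
  have hz : Dp 𝒜 z.1.1 z.1.2 := z.2
  refine ⟨?_, vel_norm 𝒜 z.1.2⟩
  rw [bKo_W]
  exact Submodule.mem_inf.2 ⟨mem_PV_of_top 𝒜 hB hz.1 hz.2.1,
    Submodule.mem_orthogonal_singleton_iff_inner_right.2 hz.2.2⟩

include hB in
theorem Dp_sm (p : (spD 𝒜).Plot k) (z : V k) :
    SmV 𝒜 ((p.1 z).1.1.1 0) (fun v => (p.1 v).1.1.1 0) (fun v => 𝒜.vel (p.1 v).1.2.1 0) z := by
  have h0 : ∀ v, (p.1 v).1.2.1 0 = (p.1 v).1.1.1 0 := fun v => (p.1 v).2.1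
  have h1 : SmV 𝒜 ((p.1 z).1.2.1 0) (fun v => (p.1 v).1.2.1 0) (fun v => 𝒜.vel (p.1 v).1.2.1 0) z :=
    smV_G hB ⟨fun v => (p.1 v).1.2, p.2.2⟩ z
  have h2 : (fun v => (p.1 v).1.2.1 0) = fun v => (p.1 v).1.1.1 0 := funext h0
  rw [h2, h0 z] at h1
  exact h1

/-- pairs of perpendicular geodesics as unit vectors of `K` -/
def toKD : SMap (spD 𝒜) (bKo hB hk hL hΨ h0 hκ).S :=
  ⟨fun z => ⟨(z.1.1, 𝒜.vel z.1.2.1 0), Dp_mem hB hk hL hΨ h0 hκ z⟩, fun _ p => ⟨p.2.1, fun z => Dp_sm hB p z⟩⟩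

theorem KD_Dp (z : (bKo hB hk hL hΨ h0 hκ).S.pt) : Dp 𝒜 z.1.1 (gvg 𝒜 hB (z.1.1.1 0) z.1.2 z.2.2) := by
  have h1 : z.1.2 ∈ (bKo hB hk hL hΨ h0 hκ).W z.1.1 := z.2.1
  rw [bKo_W] at h1
  obtain ⟨h2, h3⟩ := Submodule.mem_inf.1 h1
  have h4 : z.1.2 ∈ VF 𝒜 ((gF hB).1 z.1.1) := by
    rw [VF_gF hB z.1.1]
    exact h2
  have h5 := gvg_VF hB ((gF hB).1 z.1.1) h4 z.2.2
  have h6 : (gvg 𝒜 hB (z.1.1.1 0) z.1.2 z.2.2).1 π = z.1.1.1 π := congrArg (fun t : (spF 𝒜).pt => t.1.2) h5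
  have h7 := gvg_vel 𝒜 hB (z.1.1.1 0) z.1.2 z.2.2
  refine ⟨h7.1, h6, ?_⟩
  rw [h7.2]
  exact Submodule.mem_orthogonal_singleton_iff_inner_right.1 h3

/-- unit vectors of `K` as pairs of perpendicular geodesics -/
def ofKD : SMap (bKo hB hk hL hΨ h0 hκ).S (spD 𝒜) :=
  ⟨fun z => ⟨(z.1.1, gvg 𝒜 hB (z.1.1.1 0) z.1.2 z.2.2), KD_Dp hB hk hL hΨ h0 hκ z⟩, fun _ p =>
    ⟨p.2.1, smG_gvg hB ((foot hB 0).pl ⟨_, p.2.1⟩).2 (fun z => (p.1 z).2.2) p.2.2⟩⟩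

theorem ofKD_toKD (z : (spD 𝒜).pt) : (ofKD hB hk hL hΨ h0 hκ).1 ((toKD hB hk hL hΨ h0 hκ).1 z) = z := by
  have hz : Dp 𝒜 z.1.1 z.1.2 := z.2
  have h1 := gvg_vel 𝒜 hB (z.1.1.1 0) (𝒜.vel z.1.2.1 0) (vel_norm 𝒜 z.1.2)
  exact Subtype.ext (Prod.ext rfl (eq_of_vel' 𝒜 (h1.1.trans hz.1.symm) h1.2))

theorem toKD_ofKD (z : (bKo hB hk hL hΨ h0 hκ).S.pt) : (toKD hB hk hL hΨ h0 hκ).1 ((ofKD hB hk hL hΨ h0 hκ).1 z) = z :=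
  Subtype.ext (Prod.ext rfl (gvg_vel 𝒜 hB (z.1.1.1 0) z.1.2 z.2.2).2)

end one

/-- **`D → UM`** (`κ = N + 1`) -/
def bK {𝒜 : SDist n M} (hB : Bl M) (hk : 𝒜.HK (N + 1)) (hL : LocV 𝒜 (N + 1)) {Ψ : Om (spG 𝒜)} (hΨ : Deg (N + 1) Ψ)
    (h0 : OrV hB hk hL Ψ) (hN : 1 ≤ N) : SBun N (spD 𝒜) (spG 𝒜) :=
  ((bKo hB hk hL hΨ h0 (Nat.succ_pos N)).sb hN).iso (ofKD hB hk hL hΨ h0 (Nat.succ_pos N))
    (toKD hB hk hL hΨ h0 (Nat.succ_pos N)) (toKD_ofKD hB hk hL hΨ h0 (Nat.succ_pos N))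
    (ofKD_toKD hB hk hL hΨ h0 (Nat.succ_pos N))

theorem SBun.VFl_iso (b : SBun N S B) (e : SMap S S') (e' : SMap S' S) (h : ∀ s, e'.1 (e.1 s) = s)
    (h' : ∀ s, e.1 (e'.1 s) = s) {g : SMap S' Y} (hV : b.VFl (g.comp e)) : (b.iso e e' h h').VFl g := by
  intro k P w0 hw0
  exact hV k P w0 hw0

section two

variable {𝒜 : SDist (N + 1) M} (hB : Bl M) {Φ : Om (spG 𝒜)} (hΦ : Deg N Φ)

/-- `Φ` orients `TM` -/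
def OrM (hB : Bl M) (Φ : Om (spG 𝒜)) : Prop := ∀ f, (uTM 𝒜).val ((ofTM hB).pull Φ) f ≠ 0

variable (h1 : OrM hB Φ) (hN : 1 ≤ N)

/-- **`UM → M`** -/
def bM : SBun N (spG 𝒜) (spM 𝒜) :=
  ((((uTM 𝒜).orient (Deg_pull _ hΦ) h1)).sb hN).iso (ofTM hB) (toTM hB) (toTM_ofTM hB) (ofTM_toTM hB)

theorem bM_pi : (bM hB hΦ h1 hN).pi = foot hB 0 := rfl

theorem PI_M {c : ℝ} (hc : ∀ f, |(uTM 𝒜).val ((ofTM hB).pull Φ) f| = c) :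
    (bM hB hΦ h1 hN).PI Φ = algebraMap ℝ (Om (spM 𝒜)) c := by
  have h2 := (uTM 𝒜).PI_or hN (Deg_pull (ofTM hB) hΦ) h1 hc
  exact h2

theorem VFl_M (hk : 𝒜.HK κ) (hL : LocV 𝒜 κ) {Ψ : Om (spG 𝒜)} (hΨ : Deg κ Ψ) (h0 : OrV hB hk hL Ψ) (hκ : 1 ≤ κ) :
    (bM hB hΦ h1 hN).VFl (gF hB) := by
  refine SBun.VFl_iso _ (ofTM hB) (toTM hB) (toTM_ofTM hB) (ofTM_toTM hB) ?_
  refine OBun.VFl_sb ((uTM 𝒜).orient (Deg_pull _ hΦ) h1) hN ((gF hB).comp (ofTM hB)) ?_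
  intro m C z
  obtain ⟨a, ha⟩ := (bKo hB hk hL hΨ h0 hκ).loc ((ofTM hB).pl C) z
  refine ⟨fun y => a y ⟨0, hκ⟩, ?_⟩
  have hC : ∀ y, (toTM hB).1 ((ofTM hB).1 (C.1 y)) = C.1 y := fun y => toTM_ofTM hB (C.1 y)
  have hC1 : ∀ y, ((ofTM hB).1 (C.1 y)).1 0 = (C.1 y).1.1 := fun y => congrArg (fun t : (uTM 𝒜).S.pt => t.1.1) (hC y)
  have hC2 : ∀ y, 𝒜.vel ((ofTM hB).1 (C.1 y)).1 0 = (C.1 y).1.2 := fun y =>
    congrArg (fun t : (uTM 𝒜).S.pt => t.1.2) (hC y)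
  filter_upwards [ha] with y hy
  obtain ⟨hO, -, hs⟩ := hy
  have hW : a y ⟨0, hκ⟩ ∈ (bKo hB hk hL hΨ h0 hκ).W ((ofTM hB).1 (C.1 y)) := hO.1 ⟨0, hκ⟩
  rw [bKo_W, hC1, hC2] at hW
  obtain ⟨hW1, hW2⟩ := Submodule.mem_inf.1 hW
  have hvf : VF 𝒜 ((gF hB).1 ((ofTM hB).1 (C.1 y))) = 𝒜.PV (C.1 y).1.1 (C.1 y).1.2 := by
    rw [VF_gF hB, hC1, hC2]
  have hv := vel_mem_VF (𝒜 := 𝒜) hB ((ofTM hB).1 (C.1 y))
  rw [hC2] at hv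
  refine ⟨?_, Submodule.mem_top, hO.2.1 ⟨0, hκ⟩, ?_, ?_⟩
  · have h2 : (vTM 𝒜).sAt ((foot hB 0).pl ((ofTM hB).pl C)) (fun v => a v ⟨0, hκ⟩) y := hs ⟨0, hκ⟩
    exact (vTM 𝒜).germ h2 (Eventually.of_forall fun v => (hC1 v).symm)
  · exact Submodule.mem_orthogonal_singleton_iff_inner_right.1 hW2
  · intro s c' hc1 hc2
    have hmem : c'.1.2 ∈ VF 𝒜 ((gF hB).1 ((ofTM hB).1 (C.1 y))) := by
      rw [hc2]
      refine Submodule.add_mem _ (Submodule.smul_mem _ _ hv) (Submodule.smul_mem _ _ ?_)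
      rw [hvf]
      exact hW1
    have key : ∀ x, x = ((gF hB).1 ((ofTM hB).1 (C.1 y))).1.1 →
        (gF hB).1 (gvg 𝒜 hB x c'.1.2 c'.2.2) = (gF hB).1 ((ofTM hB).1 (C.1 y)) := by
      rintro _ rfl
      exact gvg_VF hB _ hmem c'.2.2
    exact key c'.1.1 (hc1.trans (hC1 y).symm)

/-- fibre integrals over `U_pM` of forms of `FM` vanish -/
theorem PI_MF (hk : 𝒜.HK κ) (hL : LocV 𝒜 κ) {Ψ : Om (spG 𝒜)} (hΨ : Deg κ Ψ) (h0 : OrV hB hk hL Ψ) (hκ : 1 ≤ κ)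
    (θ : Om (spF 𝒜)) : (bM hB hΦ h1 hN).PI ((gF hB).pull θ) = 0 :=
  (bM hB hΦ h1 hN).PI_kill (VFl_M hB hΦ h1 hN hk hL hΨ h0 hκ) θ

/-- the same after a base change -/
theorem PI_MF_pull (hk : 𝒜.HK κ) (hL : LocV 𝒜 κ) {Ψ : Om (spG 𝒜)} (hΨ : Deg κ Ψ) (h0 : OrV hB hk hL Ψ) (hκ : 1 ≤ κ)
    (f : SMap B' (spM 𝒜)) (g' : SMap (fp f (bM hB hΦ h1 hN).pi) Y)
    (hg : ∀ z z' : (fp f (bM hB hΦ h1 hN).pi).pt, z.1.1 = z'.1.1 → (gF hB).1 z.1.2 = (gF hB).1 z'.1.2 → g'.1 z = g'.1 z')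
    (θ : Om Y) : ((bM hB hΦ h1 hN).pull f).PI (g'.pull θ) = 0 :=
  SBun.PI_kill _ ((bM hB hΦ h1 hN).VFl_pull (VFl_M hB hΦ h1 hN hk hL hΨ h0 hκ) f g' hg) θ

end two

end Pool.Agent.Lib.MP_ccbbf6_gt.L5
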