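import Pool.Agent.Lib.MP_ccbbf6_gt.L4.Cmp4
import Pool.Agent.Lib.MP_ccbbf6_gt.L4.F4
import Pool.Agent.Lib.MP_ccbbf6_gt.L5.INTs

/-!
# Level 5, CON2: the fibre integral `bM.PI` at the point `p` is `± JR` (helper67)

PROOFS.
(1) abs_SI_JR: X arbitrary, c : X.Plot 0, f : SMap (X.xP (N+1)) (spR (N+1)) with f (x, ξ) = toE ξ. Value: Om.on (SI (N+1) X Θ) c = Jn 0 (N+1) (Om.on (cutX Θ) (c.xV (N+1))) (`SI_def`, `on_JX`), Θ = f.pull θ. `ev_J` (INTe) with k = 0, z = 0, L = topE 0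
    (topE 0 is, on Ex 0, the same as algebraMapInv: Ex 0 is spanned by 1; both are 1 at 1: `FRt`; use `Dg` 0 or Ex 0 = range of algebraMap as V 0 = 0) and `topE_tN` (INTd) with k = 0: topE 0 (tN 0 n x) = ± topE (0 + n) x, the sign
    (-1)^(0 * n + n (n-1)/2) does not depend on ξ. So |value| = |∫ ξ, topE (0 + n) (ev (append 0 ξ) (Om.on (cutX Θ) (c.xV n)))|.
    VS: `vso_cut` (INTf). For ξ ≠ 0: cutX Θ = ext0 (dch * Θ) restricted to ξ ≠ 0 is dch * Θ (`ext0_res`/`vAt` lemmas of Ext0): with Q a plot of X.xP n = c.xV n near append 0 ξ, ev = ev (on ((inU ..).pull dch * Θ) Q) = ev (on (f.pull (dO chR * θ)) Q)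
    (f.pull (chR n) = (inU ..).pull (chiX n X): the same function `chi ‖toE ξ‖`), = ev w (on (dO chR * θ) (f.pl Q)) = vAt (jR n) (dO chR * θ) (toE ∘ tlM 0 n) w = tr (tlM 0 n) w (vAt (jR n) (..) toE ξ) (`vAt_comp`).
    Then topE (0 + n) (tr (tlM 0 n) w a) = topE n a: general lemma: for h : m' = n and T : V n →ₗ V m', T v i = v (Fin.cast h i): topE m' (ExteriorAlgebra.map T a) = topE n a (subst h; T = id). For ξ = 0 both sides vanish (or a null set: use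
    that both integrands vanish near 0).
(2) abs_val_TM: choose the standard frame f₀ = (p, EuclideanSpace.basisFun): `UBun.val_change` with |det| = 1 (`gramA`, INTp1_det-type). val f₀: let cst : SMap X (uTM 𝒜).F be the constant map (X := spV 0 or the space of one point), `SI_nat` with cst:
    (ofTM ∘ ptm ∘ cst.xP) = ER hB p ∘ f where f : SMap (X.xP (N+1)) (spR (N+1)), f (x, ξ) = toE ξ (both are gvg p (‖ξ‖⁻¹ • ξ), Σ ξ_i e_i = toE ξ). Then (1).
(3) PI_M_at: b := (uTM 𝒜).orient ..; a positive frame at p exists (the standard frame or the one with the sign of the first vector changed: `INTp2_loc`/`OBun.loc` for the constant plot gives one). `q_PI` at the plot over V 0 of the frame; the frame space of orient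
    maps to the frame space of uTM (forget) and ptm is compatible: `SI_nat`. So val (PI θ) (cpM p) = (uTM 𝒜).val ((ofTM hB).pull θ) f.
-/

set_option autoImplicit false
set_option maxSynthPendingDepth 3

open Set Filter Topology Metric Real MeasureTheory

open scoped ContDiff RealInnerProductSpace

noncomputable section

namespace Pool.Agent.Lib.MP_ccbbf6_gt.L5

open Geo L4 L4.FR L4.ORI

variable {k l r N n κ : ℕ} {M : Type} [MetricSpace M] [CompactSpace M] {X Y S S' B B' : Space}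

/-- the fibre coordinate -/
def toR (X : Space) (N : ℕ) : SMap (X.xP N) (spR N) :=
  ⟨fun z => ⟨toE z.1.2, toE_ne z.2⟩, fun _ p => contDiff_toE.comp p.2.2⟩

private theorem CON2a_inv (y : Ex 0) : y = algebraMap ℝ (Ex 0) (ExteriorAlgebra.algebraMapInv y) := by
  have h : AlgHom.id ℝ (Ex 0) = (Algebra.ofId ℝ (Ex 0)).comp (ExteriorAlgebra.algebraMapInv (R := ℝ) (M := V 0)) := by
    refine ExteriorAlgebra.hom_ext (LinearMap.ext fun v => ?_)
    rw [Subsingleton.elim v 0, map_zero, map_zero]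
  exact DFunLike.congr_fun h y

private theorem CON2a_top0 (y : Ex 0) : ExteriorAlgebra.algebraMapInv y = topE 0 y := by
  have h1 : topE 0 (1 : Ex 0) = 1 := by
    have h2 := topE_ιMulti (k := 0) (fun _ => 0)
    rw [ExteriorAlgebra.ιMulti_zero_apply, Matrix.det_fin_zero] at h2
    exact h2
  have h3 : topE 0 y = topE 0 (algebraMap ℝ (Ex 0) (ExteriorAlgebra.algebraMapInv y)) := by rw [← CON2a_inv y]
  rw [h3, Algebra.algebraMap_eq_smul_one, map_smul, h1, smul_eq_mul, mul_one]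

private theorem CON2a_cast {m' : ℕ} (h : m' = n) (T : V n →ₗ[ℝ] V m') (hT : ∀ v i, T v i = v (Fin.cast h i))
    (a : Ex n) : topE m' (ExteriorAlgebra.map T a) = topE n a := by
  subst h
  have h1 : T = LinearMap.id := LinearMap.ext fun v => funext fun i => hT v i
  rw [h1, ExteriorAlgebra.map_id]
  rfl

private theorem CON2a_tr (w : V (0 + n)) (v : V n) (i : Fin (0 + n)) :
    tr (tlM 0 n) w v i = v (Fin.cast (Nat.zero_add n) i) := by
  change ∑ j, v j * (pd i ((tlM 0 n).cp j) : V (0 + n) → ℝ) w = _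
  have h1 : ∀ j : Fin n, (tlM 0 n).cp j = co (Fin.natAdd 0 j) := fun j => rfl
  rw [Finset.sum_eq_single (Fin.cast (Nat.zero_add n) i)]
  · rw [h1, pd_co, if_pos]
    · exact mul_one _
    · refine Fin.ext ?_
      rw [Fin.val_natAdd, Fin.val_cast]
      omega
  · intro j _ hj
    rw [h1, pd_co, if_neg]
    · exact mul_zero _
    · intro h
      refine hj (Fin.ext ?_)
      have h2 := congrArg Fin.val h
      rw [Fin.val_natAdd] at h2
      rw [Fin.val_cast]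
      omega
  · intro h
    exact absurd (Finset.mem_univ _) h

private theorem CON2a_pt (X : Space) (c : X.Plot 0) (θ : Om (spR n)) (ξ : V n) :
    topE (0 + n) (ev (Fin.append (0 : V 0) ξ : V (0 + n)) (Om.on (cutX ((toR X n).pull θ)) (c.xV n))) =
      topE n (vAt (jR n) (dO _ (chR n) * θ) toE ξ) := by
  obtain ⟨w, hw⟩ : ∃ w : V (0 + n), w = Fin.append (0 : V 0) ξ := ⟨_, rfl⟩
  have hwξ : tlM 0 n w = ξ := by rw [hw, tlM_append]
  rw [← hw]
  have h1 : (inU (X.xV n) (neZ X n)).pull (dch n X) * (toR X n).pull θ = (toR X n).pull (dO _ (chR n) * θ) := by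
    rw [map_mul, dch, ← pull_d, ← pull_d]
    rfl
  unfold cutX
  rw [ev_ext0]
  by_cases hξ : ξ = 0
  · have h2 : ((c.xV n).1 w).2 = 0 := by
      show tlM 0 n w = 0
      rw [hwξ, hξ]
    rw [vAt_not (U := neZ X n) _ fun h3 => h3 h2, hξ, vAt_zero, map_zero, map_zero]
  · have h2 : (c.xV n).1 w ∈ neZ X n := by
      show tlM 0 n w ≠ 0
      rw [hwξ]
      exact hξ
    obtain ⟨Q, hQ⟩ := locPl_of (open_neZ X n) (c.xV n) h2
    rw [vAt_eq (vU_inj _ _) _ Q hQ, h1, on_pull]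
    have h3 : (fun y => jR n (((toR X n).pl Q).1 y)) =ᶠ[𝓝 w] fun y => toE (tlM 0 n y) := by
      filter_upwards [hQ] with y hy
      have h4 : (Q.1 y).1 = (c.xV n).1 y := hy
      show toE (Q.1 y).1.2 = toE (tlM 0 n y)
      rw [h4]
      rfl
    rw [← vAt_eq jR_inj _ ((toR X n).pl Q) h3]
    have h5 : LocPl (jR n) toE (tlM 0 n w) := by
      rw [hwξ]
      exact locPl_toE_f4 hξ
    rw [(vAt_comp jR_inj (dO _ (chR n) * θ) (Eventually.of_forall fun y => (tlM 0 n).smooth.contDiffAt) h5).2, ← tr_eq,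
      CON2a_cast (Nat.zero_add n) _ (CON2a_tr w), hwξ]

/-- **the fibre integral over `S^N` and the integral `JR`** -/
theorem abs_SI_JR (X : Space) (c : X.Plot 0) {θ : Om (spR (N + 1))} (hθ : Deg N θ) :
    |val (SI (N + 1) X ((toR X (N + 1)).pull θ)) c| = |JR (N + 1) θ| := by
  unfold val
  rw [fn_apply, SI_def, on_JX]
  have h1 := ev_J (VSO_cutX ((toR X (N + 1)).pull θ) 0 c)
    (ExteriorAlgebra.algebraMapInv (R := ℝ) (M := V 0)).toLinearMap 0
  have h2 : ∀ ξ : V (N + 1), (ExteriorAlgebra.algebraMapInv (R := ℝ) (M := V 0)).toLinearMap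
      (tN 0 (N + 1) (ev (Fin.append (0 : V 0) ξ) (Om.on (cutX ((toR X (N + 1)).pull θ)) (c.xV (N + 1))))) =
      (-1 : ℝ) ^ (0 * (N + 1) + (N + 1) * (N + 1 - 1) / 2) *
        topE (N + 1) (vAt (jR (N + 1)) (dO _ (chR (N + 1)) * θ) toE ξ) := by
    intro ξ
    rw [← CON2a_pt X c θ ξ, ← topE_tN]
    exact CON2a_top0 _
  simp only [h2] at h1
  have h3 : ExteriorAlgebra.algebraMapInv (ev (0 : V 0) (Jn 0 (N + 1) (Om.on (cutX ((toR X (N + 1)).pull θ)) (c.xV (N + 1))))) =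
      (-1 : ℝ) ^ (0 * (N + 1) + (N + 1) * (N + 1 - 1) / 2) * JR (N + 1) θ := by
    refine Eq.trans h1 ?_
    rw [integral_const_mul]
    rfl
  rw [h3, abs_mul, abs_pow, abs_neg, abs_one, one_pow, one_mul]

section

variable {𝒜 : SDist (N + 1) M} (hB : Bl M)

theorem val_eq_val (u : UBun r (Eu n) B) (Ψ : Om u.S) (f : u.F.pt) : u.val Ψ f = L4.FR.val (u.sig Ψ) (u.cP f) :=
  (fn_apply _ _).symm

private theorem CON2b_std (n : ℕ) : OFr (⊤ : Submodule ℝ (Eu n)) fun i => EuclideanSpace.basisFun (Fin n) ℝ i :=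
  ⟨fun _ => Submodule.mem_top, (EuclideanSpace.basisFun (Fin n) ℝ).orthonormal⟩

private theorem CON2b_sum (ξ : V n) : ∑ i, ξ i • EuclideanSpace.basisFun (Fin n) ℝ i = toE ξ :=
  (EuclideanSpace.basisFun (Fin n) ℝ).sum_repr (toE ξ)

private theorem CON2b_det {m : ℕ} {A : Matrix (Fin m) (Fin m) ℝ} (h : A.transpose * A = 1) : |A.det| = 1 := by
  have h1 : A.det * A.det = 1 := by
    have h2 := congrArg Matrix.det h
    rw [Matrix.det_mul, Matrix.det_transpose, Matrix.det_one] at h2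
    exact h2
  rcases mul_self_eq_one_iff.1 h1 with h3 | h3
  · rw [h3, abs_one]
  · rw [h3, abs_neg, abs_one]

/-- the standard frame at `p` -/
private def CON2b_f0 (𝒜 : SDist (N + 1) M) (p : M) : (uTM 𝒜).F.pt :=
  ⟨(p, fun i => EuclideanSpace.basisFun (Fin (N + 1)) ℝ i), CON2b_std (N + 1)⟩

private theorem CON2b_map (p : M) :
    (ofTM hB).comp (((uTM 𝒜).ptm).comp ((plM ((uTM 𝒜).cP (CON2b_f0 𝒜 p))).xP (N + 1))) =
      (ER hB p).comp (toR (spV 0) (N + 1)) := by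
  refine SMap_ext fun z => Subtype.ext ?_
  exact congrArg (fun v : Eu (N + 1) => 𝒜.gv p (‖toE z.1.2‖⁻¹ • v)) (CON2b_sum z.1.2)

theorem abs_val_TM {Φ : Om (spG 𝒜)} (hΦ : Deg N Φ) (f : (uTM 𝒜).F.pt) :
    |(uTM 𝒜).val ((ofTM hB).pull Φ) f| = |JR (N + 1) ((ER hB f.1.1).pull Φ)| := by
  have hΨ : Deg N ((ofTM hB).pull Φ) := Deg_pull _ hΦ
  have h1 : |(uTM 𝒜).val ((ofTM hB).pull Φ) f| = |(uTM 𝒜).val ((ofTM hB).pull Φ) (CON2b_f0 𝒜 f.1.1)| := by
    rw [(uTM 𝒜).val_change hΨ (CON2b_f0 𝒜 f.1.1) f rfl, abs_mul, CON2b_det, one_mul]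
    exact gramA (Nat.succ_pos N) ((uTM 𝒜).rank f.1.1) (CON2b_std (N + 1)) f.2
  rw [h1, val_eq_val]
  have h3 : L4.FR.val ((uTM 𝒜).sig ((ofTM hB).pull Φ)) ((uTM 𝒜).cP (CON2b_f0 𝒜 f.1.1)) =
      L4.FR.val (SI (N + 1) (spV 0) ((toR (spV 0) (N + 1)).pull ((ER hB f.1.1).pull Φ))) (idP 0) := by
    have h4 : (toR (spV 0) (N + 1)).pull ((ER hB f.1.1).pull Φ) =
        ((plM ((uTM 𝒜).cP (CON2b_f0 𝒜 f.1.1))).xP (N + 1)).pull ((uTM 𝒜).ptm.pull ((ofTM hB).pull Φ)) :=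
      (congrArg (fun g : SMap ((spV 0).xP (N + 1)) (spG 𝒜) => g.pull Φ) (CON2b_map hB f.1.1)).symm
    rw [h4, SI_nat]
    rfl
  rw [h3]
  exact abs_SI_JR (spV 0) (idP 0) (Deg_pull _ hΦ)

/-- the constant plot -/
def cpM (𝒜 : SDist (N + 1) M) (p : M) : (spM 𝒜).Plot 0 := ⟨fun _ => p, cst_M 𝒜 p⟩

/-- the positive frames are frames -/
private def CON2c_forget {E : Type} [NormedAddCommGroup E] [InnerProductSpace ℝ E] (u : UBun (N + 1) E B) {Ψ : Om u.S}
    (h : Deg N Ψ) (h0 : ∀ f, u.val Ψ f ≠ 0) : SMap (u.orient h h0).F u.F := ⟨fun z => ⟨z.1, z.2.1⟩, fun _ p => p.2⟩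

private theorem CON2c_val_pull (f : SMap X Y) (θ : Om Y) (p : X.Plot 0) : L4.FR.val (f.pull θ) p = L4.FR.val θ (f.pl p) := rfl

private theorem CON2c_or {E : Type} [NormedAddCommGroup E] [InnerProductSpace ℝ E] (u : UBun (N + 1) E B) (hN : 1 ≤ N)
    {Ψ : Om u.S} (h : Deg N Ψ) (h0 : ∀ f, u.val Ψ f ≠ 0) (Θ : Om u.S) (c : B.Plot 0) :
    ∃ f : u.F.pt, f.1.1 = c.1 0 ∧ L4.FR.val (((u.orient h h0).sb hN).PI Θ) c = L4.FR.val (u.sig Θ) (u.cP f) := by
  obtain ⟨a, ha⟩ := (u.orient h h0).loc c 0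
  have ha0 := ha.self_of_nhds
  obtain ⟨P, hP⟩ : ∃ P : (u.orient h h0).F.Plot 0, P.1 = fun _ => ⟨(c.1 0, a 0), ha0.1, ha0.2.1⟩ :=
    ⟨⟨fun _ => ⟨(c.1 0, a 0), ha0.1, ha0.2.1⟩, u.cst _, fun _ _ => u.cst0 _ _ _⟩, rfl⟩
  have hq : ((u.orient h h0).sb hN).q.pl P = c := by
    refine Plot_ext fun y => ?_
    show (P.1 y).1.1 = c.1 y
    rw [hP, Subsingleton.elim y 0]
  have hF : (CON2c_forget u h h0).pl P = u.cP ⟨(c.1 0, a 0), ha0.1⟩ := by
    refine Plot_ext fun y => ?_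
    show (CON2c_forget u h h0).1 (P.1 y) = _
    rw [hP]
    rfl
  refine ⟨⟨(c.1 0, a 0), ha0.1⟩, rfl, ?_⟩
  rw [← hF, ← CON2c_val_pull]
  conv_lhs => rw [← hq]
  rw [← CON2c_val_pull, ((u.orient h h0).sb hN).q_PI]
  have e1 : ((u.orient h h0).sb hN).ptm = u.ptm.comp ((CON2c_forget u h h0).xP (N + 1)) := SMap_ext fun z => rfl
  have e0 : SI (N + 1) (u.orient h h0).F (((CON2c_forget u h h0).xP (N + 1)).pull (u.ptm.pull Θ)) =
      (CON2c_forget u h h0).pull (SI (N + 1) u.F (u.ptm.pull Θ)) := SI_nat (CON2c_forget u h h0) (u.ptm.pull Θ)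
  have e2 : SI (N + 1) ((u.orient h h0).sb hN).F (((u.orient h h0).sb hN).ptm.pull Θ) =
      (CON2c_forget u h h0).pull (u.sig Θ) :=
    (congrArg (fun f : SMap ((u.orient h h0).F.xP (N + 1)) u.S => SI (N + 1) (u.orient h h0).F (f.pull Θ)) e1).trans e0
  rw [e2]
  rfl

/-- **the fibre integral at the point `p`** -/
theorem abs_PI_M {Φ : Om (spG 𝒜)} (hΦ : Deg N Φ) (h1 : OrM hB Φ) (hN : 1 ≤ N) {θ : Om (spG 𝒜)} (hθ : Deg N θ) (p : M) :
    |val ((bM hB hΦ h1 hN).PI θ) (cpM 𝒜 p)| = |JR (N + 1) ((ER hB p).pull θ)| := by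
  obtain ⟨f, hf, hv⟩ := CON2c_or (uTM 𝒜) hN (Deg_pull (ofTM hB) hΦ) h1 ((ofTM hB).pull θ) (cpM 𝒜 p)
  have hfp : f.1.1 = p := hf
  have h2 : (bM hB hΦ h1 hN).PI θ = (((uTM 𝒜).orient (Deg_pull (ofTM hB) hΦ) h1).sb hN).PI ((ofTM hB).pull θ) :=
    SBun.PI_iso _ _ _ _ _ θ
  rw [h2, hv, ← val_eq_val, abs_val_TM hB hθ f, hfp]

end

end Pool.Agent.Lib.MP_ccbbf6_gt.L5
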