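import Pool.Agent.Lib.MP_ccbbf6_gt.L5.COH4
import Pool.Agent.Lib.MP_ccbbf6_gt.L5.CON1
import Pool.Agent.Lib.MP_ccbbf6_gt.L5.CON2

/-!
# Level 5, COH5: the integral `TG (x^m Θ)` (helper67)
-/

set_option autoImplicit false
set_option maxSynthPendingDepth 3

open Set Filter Topology Real Module
open scoped ContDiff RealInnerProductSpace

noncomputable section

namespace Pool.Agent.Lib.MP_ccbbf6_gt.L5

open L4 L4.FR L4.ORI Geo

variable {N κ m : ℕ} {M : Type} [MetricSpace M] [CompactSpace M]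

/-- the value of a constant form -/
theorem val_algebraMap {X : Space} (c : ℝ) (P : X.Plot 0) : val (algebraMap ℝ (Om X) c) P = c := by
  unfold val
  have h1 : Om.on (algebraMap ℝ (Om X) c) P = algebraMap ℝ (Fm 0) c := rfl
  rw [h1, ← (fc 0).commutes, fn_fc]
  rfl

namespace GeoD

variable {𝒜 : SDist (N + 1) M} {hB : Bl M} (D : GeoD 𝒜 hB κ m)

theorem coh_foot : D.coh.foot = foot hB 0 := SMap_ext fun c => by
  show c.1 (π * 0) = c.1 0
  rw [mul_zero]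

theorem coh_x : D.coh.x = (foot hB 0).pull D.u := by
  rw [CohD.x_def, coh_foot]
  rfl

/-- the absolute value of the constant -/
theorem abs_JR_PhiU (p : M) : |JR (N + 1) ((ER hB p).pull (PhiU hB m D.u))| = |D.coh.eps| := by
  rw [← abs_PI_M hB D.Deg_Ph D.orM D.hN D.Deg_Ph p]
  have h1 : (bM hB D.Deg_Ph D.orM D.hN).PI (PhiU hB m D.u) = algebraMap ℝ (Om (spM 𝒜)) D.ep := D.heps
  rw [h1, val_algebraMap]
  rfl

theorem abs_JR (p : M) {Θ : Om (spG 𝒜)} (hΘ : Deg N Θ) {r : ℝ} (hr : D.coh.bM.PI Θ = algebraMap ℝ (Om (spM 𝒜)) r) :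
    |JR (N + 1) ((ER hB p).pull Θ)| = |r| := by
  rw [← abs_PI_M hB D.Deg_Ph D.orM D.hN hΘ p]
  have h1 : (bM hB D.Deg_Ph D.orM D.hN).PI Θ = algebraMap ℝ (Om (spM 𝒜)) r := hr
  rw [h1, val_algebraMap]

variable [MeasurableSpace M] [BorelSpace M]

/-- **the integral of `x^m Θ`** -/
theorem hfub {p : M} {ψ : Om (spR (N + 1))} {Bf : Fm (N + 1)} (hc : ConcD 𝒜 hB κ m p ψ Bf D.u) {Θ : Om (spG 𝒜)}
    (hΘ : Deg N Θ) {a : Om (spM 𝒜)} (ha : Deg (N + 1) a) (hd : dO _ Θ = D.coh.foot.pull a) {r : ℝ}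
    (hr : D.coh.bM.PI Θ = algebraMap ℝ (Om (spM 𝒜)) r) :
    |TG hB (D.coh.x ^ m * Θ)| = |D.coh.eps| * |r| := by
  rw [coh_foot] at hd
  have h1 := hc.conc ha hd
  rw [map_pow] at h1
  rw [coh_x, h1, D.abs_JR p hΘ hr]
  congr 1
  exact D.abs_JR_PhiU p

end GeoD

end Pool.Agent.Lib.MP_ccbbf6_gt.L5
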