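import Pool.Agent.Lib.MP_ccbbf6_gt.L4.MV

/-!
# Level 5, `κ = 3`: the volume of the model and the final arithmetic
-/

set_option autoImplicit false

open MeasureTheory Set Metric Real
open scoped ENNReal

noncomputable section

namespace Pool.Agent.Lib.MP_ccbbf6_gt.L5

theorem mv3_integral (k : ℕ) : ∫ t in (0 : ℝ)..π, Real.sin t ^ 3 * (2 * Real.sin (t / 2)) ^ k =
    (2 : ℝ) ^ (k + 4) * (2 / (((k : ℝ) + 4) * (k + 6))) := by
  have h1 : ∀ t : ℝ, Real.sin t ^ 3 * (2 * Real.sin (t / 2)) ^ k =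
      (fun u : ℝ => 2 ^ (k + 4) * (u ^ (k + 3) - u ^ (k + 5))) ((fun t : ℝ => Real.sin (t / 2)) t) *
        (Real.cos (t / 2) * (1 / 2)) := by
    intro t
    have h2 : Real.sin t = 2 * Real.sin (t / 2) * Real.cos (t / 2) := by
      rw [← Real.sin_two_mul]
      ring_nf
    have h3 : Real.cos (t / 2) ^ 2 = 1 - Real.sin (t / 2) ^ 2 := Real.cos_sq' _
    simp only [h2]
    have h4 : (2 * Real.sin (t / 2) * Real.cos (t / 2)) ^ 3 * (2 * Real.sin (t / 2)) ^ k =
        2 ^ (k + 4) * (Real.sin (t / 2) ^ (k + 3) * Real.cos (t / 2) ^ 2) * (Real.cos (t / 2) * (1 / 2)) := by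
      ring
    rw [h4, h3]
    ring
  have h3 : ∀ t ∈ uIcc (0 : ℝ) π, HasDerivAt (fun t : ℝ => Real.sin (t / 2)) (Real.cos (t / 2) * (1 / 2)) t := by
    intro t _
    exact ((hasDerivAt_id t).div_const 2).sin
  have h6 : ∫ t in (0 : ℝ)..π, Real.sin t ^ 3 * (2 * Real.sin (t / 2)) ^ k =
      ∫ t in (0 : ℝ)..π, ((fun u : ℝ => 2 ^ (k + 4) * (u ^ (k + 3) - u ^ (k + 5))) ∘
        (fun t : ℝ => Real.sin (t / 2))) t * (Real.cos (t / 2) * (1 / 2)) :=
    intervalIntegral.integral_congr fun t _ => h1 t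
  rw [h6, intervalIntegral.integral_comp_mul_deriv h3 (by fun_prop) (by fun_prop)]
  simp only [zero_div, Real.sin_zero, Real.sin_pi_div_two]
  rw [intervalIntegral.integral_const_mul, intervalIntegral.integral_sub
    ((continuous_pow _).intervalIntegrable _ _) ((continuous_pow _).intervalIntegrable _ _),
    integral_pow, integral_pow, one_pow, one_pow, zero_pow (by omega), zero_pow (by omega), sub_zero]
  congr 1
  push_cast
  field_simp
  ring

/-- the volume of the model with spheres of dimension four -/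
theorem modelVolume_three {m : ℕ} (hm : 0 < m) : Blaschke.modelVolume (4 * m) 3 =
    ENNReal.ofReal (2 ^ (4 * m) / (2 * m + 1)) * volume (ball (0 : EuclideanSpace ℝ (Fin (4 * m))) 1) := by
  obtain ⟨k, hk⟩ : ∃ k, 4 * m = k + 4 := ⟨4 * m - 4, by omega⟩
  have hk' : (4 : ℝ) * m = k + 4 := by exact_mod_cast hk
  unfold Blaschke.modelVolume
  have h1 : ∫ t in (0 : ℝ)..π, Real.sin t ^ 3 * (2 * Real.sin (t / 2)) ^ (4 * m - 1 - 3) =
      (2 : ℝ) ^ (4 * m) / ((4 * m) * (2 * m + 1)) := by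
    rw [show 4 * m - 1 - 3 = k by omega, mv3_integral k, ← hk]
    have h2 : ((k : ℝ) + 4) * (k + 6) = 2 * ((4 * m) * (2 * m + 1)) := by
      rw [show (k : ℝ) = 4 * m - 4 by linarith]
      ring
    rw [h2]
    have hm' : (0 : ℝ) < m := by exact_mod_cast hm
    field_simp
  rw [h1]
  have h2 : ((4 * m : ℕ) : ℝ≥0∞) * volume (ball (0 : EuclideanSpace ℝ (Fin (4 * m))) 1) *
      ENNReal.ofReal ((2 : ℝ) ^ (4 * m) / ((4 * m) * (2 * m + 1))) =
      (ENNReal.ofReal ((2 : ℝ) ^ (4 * m) / ((4 * m) * (2 * m + 1))) * ((4 * m : ℕ) : ℝ≥0∞)) *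
        volume (ball (0 : EuclideanSpace ℝ (Fin (4 * m))) 1) := by ring
  rw [h2]
  congr 1
  have hm' : (0 : ℝ) < m := by exact_mod_cast hm
  have h3 : ((4 * m : ℕ) : ℝ≥0∞) = ENNReal.ofReal (4 * m) := by
    rw [← ENNReal.ofReal_natCast]
    push_cast
    rfl
  rw [h3, ← ENNReal.ofReal_mul (by positivity)]
  congr 1
  field_simp

/-- the final arithmetic -/
theorem final_real3 {m : ℕ} (hm : 0 < m) {V : ℝ}
    (h : ((4 * m - 1).factorial : ℝ) * (4 * m) * (volume (ball (0 : EuclideanSpace ℝ (Fin (4 * m))) 1)).toReal * V /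
      (2 * π) ^ (4 * m) ≤ 2 * ((4 * m - 1).choose (2 * m - 1) : ℝ) / (2 * m + 1)) :
    V ≤ 2 ^ (4 * m) / (2 * m + 1) * (volume (ball (0 : EuclideanSpace ℝ (Fin (4 * m))) 1)).toReal := by
  have hb : volume (ball (0 : EuclideanSpace ℝ (Fin (4 * m))) 1) =
      ENNReal.ofReal (π ^ (2 * m) / (2 * m).factorial) := by
    have h := L4.ball_even (2 * m) (by omega)
    rw [show 2 * (2 * m) = 4 * m by ring] at h
    exact h
  rw [hb, ENNReal.toReal_ofReal (by positivity)] at h ⊢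
  have h1 : ((4 * m - 1).factorial : ℝ) * (4 * m) = (4 * m).factorial := by
    obtain ⟨k, hk⟩ : ∃ k, 4 * m = k + 1 := ⟨4 * m - 1, by omega⟩
    have h2 : (4 * (m : ℝ)) = ((k + 1 : ℕ) : ℝ) := by
      rw [← hk]
      push_cast
      rfl
    rw [h2, hk, Nat.factorial_succ, Nat.add_sub_cancel]
    push_cast
    ring
  have h3 : 2 * ((4 * m - 1).choose (2 * m - 1) : ℝ) * ((2 * m).factorial * (2 * m).factorial) =
      (4 * m).factorial := by
    have h4 := Nat.choose_mul_factorial_mul_factorial (show 2 * m - 1 ≤ 4 * m - 1 by omega)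
    rw [show 4 * m - 1 - (2 * m - 1) = 2 * m by omega] at h4
    have h5 : ((2 * m - 1).factorial : ℝ) * (2 * m) = (2 * m).factorial := by
      obtain ⟨k, hk⟩ : ∃ k, 2 * m = k + 1 := ⟨2 * m - 1, by omega⟩
      have h2 : (2 * (m : ℝ)) = ((k + 1 : ℕ) : ℝ) := by
        rw [← hk]
        push_cast
        rfl
      rw [h2, hk, Nat.factorial_succ, Nat.add_sub_cancel]
      push_cast
      ring
    have h4' : ((4 * m - 1).choose (2 * m - 1) : ℝ) * (2 * m - 1).factorial * (2 * m).factorial =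
        (4 * m - 1).factorial := by exact_mod_cast h4
    linear_combination h1 + 4 * m * h4' -
      2 * ((4 * m - 1).choose (2 * m - 1) : ℝ) * (2 * m).factorial * h5
  rw [h1] at h
  have h5 : (0 : ℝ) < (4 * m).factorial := by positivity
  have h6 : (0 : ℝ) < (2 * m).factorial := by positivity
  have h7 : (0 : ℝ) < π := Real.pi_pos
  rw [div_le_iff₀ (by positivity)] at h
  have h8 : 2 * ((4 * m - 1).choose (2 * m - 1) : ℝ) = (4 * m).factorial / ((2 * m).factorial * (2 * m).factorial) := by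
    rw [← h3]
    field_simp
  rw [h8] at h
  have h9 : (2 * π) ^ (4 * m) = 2 ^ (4 * m) * π ^ (2 * m) * π ^ (2 * m) := by
    rw [mul_pow, mul_assoc, ← pow_add]
    congr 2
    omega
  rw [h9] at h
  have h10 : ((4 * m).factorial : ℝ) * (π ^ (2 * m) / (2 * m).factorial) * V ≤
      ((4 * m).factorial : ℝ) * (π ^ (2 * m) / (2 * m).factorial) *
        (2 ^ (4 * m) / (2 * m + 1) * (π ^ (2 * m) / (2 * m).factorial)) := by
    refine h.trans (le_of_eq ?_)
    field_simp
  exact le_of_mul_le_mul_left h10 (by positivity)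

/-- the final comparison -/
theorem final_ennreal3 {m : ℕ} (hm : 0 < m) {V : ℝ≥0∞} (hV : V ≠ ⊤)
    (h : ((4 * m - 1).factorial : ℝ) * (4 * m) * (volume (ball (0 : EuclideanSpace ℝ (Fin (4 * m))) 1)).toReal *
      V.toReal / (2 * π) ^ (4 * m) ≤ 2 * ((4 * m - 1).choose (2 * m - 1) : ℝ) / (2 * m + 1)) :
    V ≤ Blaschke.modelVolume (4 * m) 3 := by
  have h1 := final_real3 hm h
  rw [modelVolume_three hm]
  have h2 : volume (ball (0 : EuclideanSpace ℝ (Fin (4 * m))) 1) ≠ ⊤ := measure_ball_lt_top.ne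
  rw [← ENNReal.ofReal_toReal hV, ← ENNReal.ofReal_toReal h2, ← ENNReal.ofReal_mul (by positivity)]
  exact ENNReal.ofReal_le_ofReal h1

end Pool.Agent.Lib.MP_ccbbf6_gt.L5
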