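import Pool.Agent.Lib.MP_ccbbf6_gt.Cls.Br
import Pool.Agent.Lib.MP_ccbbf6_gt.Cls.Main2
import Pool.Agent.Lib.MP_ccbbf6_gt.Geo.ASM
import Pool.Agent.Lib.MP_ccbbf6_gt.L4.VO2
import Pool.Agent.Lib.MP_ccbbf6_gt.L5.VOLa

/-!
# Level 5: from the bound of the volume to the model space
-/

set_option autoImplicit false
set_option maxSynthPendingDepth 3

open MeasureTheory Measure Set Filter Topology Metric Real Module
open scoped ContDiff RealInnerProductSpace ENNReal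

noncomputable section

namespace Pool.Agent.Lib.MP_ccbbf6_gt.L5

open Geo L4 L4.FR

/-- the bound of the volume for `κ = 3`, from the bound of `∫ η (dη) ^ (n - 1)` -/
theorem vol_le_three {m : ℕ} (hm : 0 < m) {M : Type} [MetricSpace M] [CompactSpace M] [MeasurableSpace M]
    [BorelSpace M] {𝒜 : SDist (4 * m) M} (hB : Bl M)
    (h : |TG hB (AL hB 𝒜 * dO _ (AL hB 𝒜) ^ (4 * m - 1))| ≤
      2 * ((4 * m - 1).choose (2 * m - 1) : ℝ) / (2 * m + 1)) :
    (μHE[4 * m] : Measure M) univ ≤ Blaschke.modelVolume (4 * m) 3 := by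
  have hfin : (μHE[4 * m] : Measure M) univ ≠ ⊤ := by
    have := finite_of_sdist 𝒜
    exact measure_ne_top _ _
  refine final_ennreal3 hm hfin (le_trans (le_of_eq ?_) h)
  rw [abs_TG_AL (by omega) hB]
  push_cast
  ring

/-- a Blaschke manifold whose volume is at most the volume of the model is the model -/
theorem isModel_of_le {n κ : ℕ} {M : Type*} [MetricSpace M] [CompactSpace M] [MeasurableSpace M] [BorelSpace M]
    [Nonempty M] (hn : 2 ≤ n) (𝒜 : SDist n M) (hB : Bl M) (hκ : κ ≤ n - 1) (h1 : 𝒜.HK κ)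
    (hle : μHE[n] (univ : Set M) ≤ Blaschke.modelVolume n κ) : Blaschke.IsModel n κ M := by
  have hk : 𝒜.HasKappa κ := h1
  have hn0 : 0 < n := by omega
  have := finite_of_sdist 𝒜
  have := openPos_of_sdist 𝒜
  have hP := polar 𝒜 hn0 hB
  have hlow : Blaschke.modelVolume n κ ≤ μHE[n] (univ : Set M) :=
    𝒜.volume_ge_polar hn0 hB hP fun t ht c hc => line_ineq 𝒜 hn hB hk ht hc
  have heq := le_antisymm hle hlow
  have hG : ∀ c : ℝ → M, IsGeo c → ∃ V, 𝒜.Gram c V := by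
    obtain ⟨N, rfl⟩ : ∃ N, n = N + 1 := ⟨n - 1, by omega⟩
    refine gram_of_J 𝒜 hB (κ := κ) (N := N) rfl (fun c hc L hL => thm1 𝒜 rfl hB hk hc hL) fun p q h0 h1 => ?_
    exact 𝒜.J_eq_polar hn0 hB hP (fun t ht c hc => line_ineq 𝒜 hn hB hk ht hc) heq h0 h1
  obtain ⟨p⟩ : Nonempty M := inferInstance
  exact Cl.isModel_of_distForm hn hB.diam (fun q => by
    obtain ⟨ξ, h3, h4⟩ := Ex_surj 𝒜 hB p q
    exact ⟨ξ, h3.trans_le (hB.diam p q), h4⟩) (distForm_PV 𝒜 hB h1 hG p) hκ (part_PV 𝒜 hB h1 hG p)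
    fun v hv => finrank_PV 𝒜 hB h1 p hv

/-- **`κ = 3`**: from the bound of `∫ η (dη) ^ (n - 1)` to the model. -/
theorem isModel_three {m : ℕ} (hm : 0 < m) {M : Type} [MetricSpace M] [CompactSpace M] [MeasurableSpace M]
    [BorelSpace M] [Nonempty M]
    (𝒜 : SDist (4 * m) M) (hB : Bl M) (h3 : 𝒜.HK 3)
    (h : |TG hB (AL hB 𝒜 * dO _ (AL hB 𝒜) ^ (4 * m - 1))| ≤
      2 * ((4 * m - 1).choose (2 * m - 1) : ℝ) / (2 * m + 1)) :
    Blaschke.IsModel (4 * m) 3 M := by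
  exact isModel_of_le (by omega) 𝒜 hB (by omega) h3 (vol_le_three hm hB h)

end Pool.Agent.Lib.MP_ccbbf6_gt.L5
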