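import Pool.Agent.Lib.MP_ccbbf6_gt.L4.FI2
import Pool.Agent.Lib.MP_ccbbf6_gt.L4.FRd

/-!
# Level 5, block EPS, part 2: rank lemmas
-/

set_option autoImplicit false

open Set Filter Topology MeasureTheory
open scoped ContDiff RealInnerProductSpace

noncomputable section

namespace Pool.Agent.Lib.MP_ccbbf6_gt.L5

open L4 L4.FR

variable {k l n : ℕ}

section lin

variable {A B C : Type*} [AddCommGroup A] [Module ℝ A] [FiniteDimensional ℝ A] [AddCommGroup B] [Module ℝ B]
  [AddCommGroup C] [Module ℝ C]

theorem finrank_map_add (f : A →ₗ[ℝ] B) (S : Submodule ℝ A) :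
    Module.finrank ℝ (S.map f) + Module.finrank ℝ (S ⊓ LinearMap.ker f : Submodule ℝ A) = Module.finrank ℝ S := by
  have h := LinearMap.finrank_range_add_finrank_ker (f.domRestrict S)
  have h1 : LinearMap.range (f.domRestrict S) = S.map f := LinearMap.range_domRestrict _ _
  have h2 : Module.finrank ℝ (LinearMap.ker (f.domRestrict S)) =
      Module.finrank ℝ (S ⊓ LinearMap.ker f : Submodule ℝ A) := by
    have h3 : (LinearMap.ker (f.domRestrict S)).map S.subtype = S ⊓ LinearMap.ker f := by
      ext v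
      simp only [Submodule.mem_map, LinearMap.mem_ker, Submodule.mem_inf]
      constructor
      · rintro ⟨w, hw, rfl⟩
        exact ⟨w.2, hw⟩
      · rintro ⟨h1, h2⟩
        exact ⟨⟨v, h1⟩, h2, rfl⟩
    rw [← h3]
    exact (LinearEquiv.finrank_eq (Submodule.equivMapOfInjective _ S.injective_subtype _))
  rw [← h1, ← h2]
  exact h

theorem finrank_map_le_add (f : A →ₗ[ℝ] B) (g : A →ₗ[ℝ] C) (S : Submodule ℝ A) :
    Module.finrank ℝ (S.map f) ≤ Module.finrank ℝ (S.map g) + Module.finrank ℝ ((S ⊓ LinearMap.ker g).map f) := by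
  have h1 := finrank_map_add f S
  have h2 := finrank_map_add g S
  have h3 := finrank_map_add f (S ⊓ LinearMap.ker g)
  have h4 : Module.finrank ℝ ((S ⊓ LinearMap.ker g) ⊓ LinearMap.ker f : Submodule ℝ A) ≤
      Module.finrank ℝ (S ⊓ LinearMap.ker f : Submodule ℝ A) :=
    Submodule.finrank_mono (inf_le_inf_right _ inf_le_left)
  omega

theorem finrank_map_comp_le {B' : Type*} [AddCommGroup B'] [Module ℝ B'] [FiniteDimensional ℝ B'] (f : A →ₗ[ℝ] B')
    (g : B' →ₗ[ℝ] C) (S : Submodule ℝ A) : Module.finrank ℝ (S.map (g.comp f)) ≤ Module.finrank ℝ (S.map f) := by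
  rw [Submodule.map_comp]
  exact Submodule.finrank_map_le g (S.map f)

end lin

/-- maps of small rank kill homogeneous elements -/
theorem extMap_zero {L : V l →ₗ[ℝ] V k} {j : ℕ} (hL : Module.finrank ℝ (LinearMap.range L) < j) {a : Ex l}
    (ha : a ∈ ⋀[ℝ]^j (V l)) : ExteriorAlgebra.map L a = 0 := by
  rw [← ExteriorAlgebra.ιMulti_span_fixedDegree] at ha
  induction ha using Submodule.span_induction with
  | mem x hx =>
    obtain ⟨v, rfl⟩ := hx
    rw [ExteriorAlgebra.map_apply_ιMulti]
    refine AlternatingMap.map_linearDependent _ _ fun h => ?_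
    have h1 : LinearIndependent ℝ (fun i => (⟨L (v i), LinearMap.mem_range_self L _⟩ : LinearMap.range L)) := by
      refine LinearIndependent.of_comp (LinearMap.range L).subtype ?_
      exact h
    have h2 := h1.fintype_card_le_finrank
    rw [Fintype.card_fin] at h2
    omega
  | zero => rw [map_zero]
  | add x y _ _ hx hy => rw [map_add, hx, hy, add_zero]
  | smul r x _ hx => rw [map_smul, hx, smul_zero]

/-- kill one coordinate of covectors -/
def zi (i : Fin k) : V k →ₗ[ℝ] V k where
  toFun v := Function.update v i 0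
  map_add' v w := by
    funext j
    by_cases h : j = i
    · subst h; simp
    · simp [Function.update_of_ne h]
  map_smul' r v := by
    funext j
    by_cases h : j = i
    · subst h; simp
    · simp [Function.update_of_ne h]

theorem zi_apply_same (i : Fin k) (v : V k) : zi i v i = 0 := Function.update_self ..

theorem zi_apply_ne {i j : Fin k} (h : j ≠ i) (v : V k) : zi i v j = v j := Function.update_of_ne h ..

theorem eq_zi_add (i : Fin k) (v : V k) : v = v i • (Pi.single i 1 : V k) + zi i v := by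
  funext j
  by_cases h : j = i
  · subst h
    simp [zi_apply_same]
  · simp [zi_apply_ne h, Pi.single_eq_of_ne h]

theorem ee_mul_ee (i : Fin k) : ee i * ee i = 0 := ExteriorAlgebra.ι_sq_zero _

theorem ee_mul_ι (i : Fin k) (v : V k) : ee i * ExteriorAlgebra.ι ℝ v = ee i * ExteriorAlgebra.ι ℝ (zi i v) := by
  conv_lhs => rw [eq_zi_add i v]
  rw [map_add, map_smul, mul_add, mul_smul_comm]
  change v i • (ee i * ee i) + _ = _
  rw [ee_mul_ee, smul_zero, zero_add]

theorem ee_mul_zi (i : Fin k) (b : Ex k) : ee i * b = ee i * ExteriorAlgebra.map (zi i) b := by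
  induction b using CliffordAlgebra.left_induction with
  | algebraMap r =>
    change ee i * algebraMap ℝ (Ex k) r = ee i * ExteriorAlgebra.map (zi i) (algebraMap ℝ (Ex k) r)
    rw [AlgHom.commutes]
  | add x y hx hy => rw [mul_add, hx, hy, map_add, mul_add]
  | ι_mul x v hx =>
    change ee i * (ExteriorAlgebra.ι ℝ v * x) = ee i * ExteriorAlgebra.map (zi i) (ExteriorAlgebra.ι ℝ v * x)
    have h1 : ∀ w : V k, ∀ y : Ex k, ee i * (ExteriorAlgebra.ι ℝ w * y) = -(ExteriorAlgebra.ι ℝ w * (ee i * y)) := by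
      intro w y
      have h2 : ee i * ExteriorAlgebra.ι ℝ w = -(ExteriorAlgebra.ι ℝ w * ee i) :=
        eq_neg_of_add_eq_zero_left (ExteriorAlgebra.ι_add_mul_swap _ _)
      rw [← mul_assoc, h2, neg_mul, mul_assoc]
    rw [h1, hx, ← h1, ← mul_assoc, ee_mul_ι, mul_assoc, map_mul, ExteriorAlgebra.map_apply_ι]

/-- transpose: the rank of `π_i ∘ A^T` is at most the rank of `A` on `{v_i = 0}` -/
theorem finrank_zi_trL (A : V k →L[ℝ] V l) (i : Fin k) :
    Module.finrank ℝ (LinearMap.range ((zi i).comp (trL A))) ≤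
      Module.finrank ℝ ((LinearMap.ker (LinearMap.proj i : V k →ₗ[ℝ] ℝ)).map (A : V k →ₗ[ℝ] V l)) := by
  set W := (LinearMap.ker (LinearMap.proj i : V k →ₗ[ℝ] ℝ)).map (A : V k →ₗ[ℝ] V l) with hW
  let ρ : V l →ₗ[ℝ] Module.Dual ℝ W :=
    { toFun := fun v => { toFun := fun w => ∑ j, v j * (w : V l) j
                          map_add' := fun x y => by
                            rw [← Finset.sum_add_distrib]
                            exact Finset.sum_congr rfl fun j _ => mul_add _ _ _
                          map_smul' := fun r x => by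
                            rw [RingHom.id_apply, smul_eq_mul, Finset.mul_sum]
                            refine Finset.sum_congr rfl fun j _ => ?_
                            change v j * (r * (x : V l) j) = _
                            ring }
      map_add' := fun v v' => by
        ext w
        change ∑ j, (v j + v' j) * (w : V l) j = ∑ j, v j * (w : V l) j + ∑ j, v' j * (w : V l) j
        rw [← Finset.sum_add_distrib]
        exact Finset.sum_congr rfl fun j _ => add_mul _ _ _
      map_smul' := fun r v => by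
        ext w
        change ∑ j, (r * v j) * (w : V l) j = r * ∑ j, v j * (w : V l) j
        rw [Finset.mul_sum]
        exact Finset.sum_congr rfl fun j _ => mul_assoc _ _ _ }
  have hker : LinearMap.ker ρ ≤ LinearMap.ker ((zi i).comp (trL A)) := by
    intro v hv
    rw [LinearMap.mem_ker] at hv ⊢
    rw [LinearMap.comp_apply]
    funext a
    by_cases ha : a = i
    · rw [ha, zi_apply_same]
      rfl
    · rw [zi_apply_ne ha]
      have h1 : A (Pi.single a 1) ∈ W := by
        refine ⟨Pi.single a 1, ?_, rfl⟩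
        rw [SetLike.mem_coe, LinearMap.mem_ker]
        exact Pi.single_eq_of_ne (Ne.symm ha) _
      have h2 := congrArg (fun f : Module.Dual ℝ W => f ⟨_, h1⟩) hv
      rw [trL_apply]
      exact h2
  have h1 := LinearMap.finrank_range_add_finrank_ker ρ
  have h2 := LinearMap.finrank_range_add_finrank_ker ((zi i).comp (trL A))
  have h3 := Submodule.finrank_mono hker
  have h4 : Module.finrank ℝ (LinearMap.range ρ) ≤ Module.finrank ℝ (Module.Dual ℝ W) := Submodule.finrank_le _
  rw [Subspace.dual_finrank_eq] at h4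
  omega

/-- rank of the derivative along the hyperplane `v_i = 0` -/
def rkF {F : Type*} [NormedAddCommGroup F] [NormedSpace ℝ F] (g : V k → F) (i : Fin k) (x : V k) : ℕ :=
  Module.finrank ℝ ((LinearMap.ker (LinearMap.proj i : V k →ₗ[ℝ] ℝ)).map (fderiv ℝ g x : V k →ₗ[ℝ] F))

/-- a pull-back vanishes on a face on which the map has small rank -/
theorem top_face_zero (g : FR.Sm k l) {θ : Fm l} {j : ℕ} (hθ : Dg j θ) {i : Fin k} {x : V k} (h : rkF (g : V k → V l) i x < j) :
    topE k (ee i * ev x (pb g θ)) = 0 := by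
  rw [ee_mul_zi, ev_pb, ← AlgHom.comp_apply, ExteriorAlgebra.map_comp_map, extMap_zero, mul_zero, map_zero]
  · exact lt_of_le_of_lt (by rw [tr_eq]; exact finrank_zi_trL _ i) h
  · exact Dg_ev hθ _

/-- a pull-back vanishes at a point where the map has small rank -/
theorem ev_pb_zero (g : FR.Sm k l) {θ : Fm l} {j : ℕ} (hθ : Dg j θ) {x : V k}
    (h : Module.finrank ℝ (LinearMap.range (fderiv ℝ (g : V k → V l) x : V k →ₗ[ℝ] V l)) < j) : ev x (pb g θ) = 0 := by
  rw [ev_pb, extMap_zero _ (Dg_ev hθ _)]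
  refine lt_of_le_of_lt ?_ h
  rw [tr_eq]
  set A := fderiv ℝ (g : V k → V l) x
  have h1 : (trL A) = Matrix.mulVecLin (LinearMap.toMatrix' (A : V k →ₗ[ℝ] V l)).transpose := by
    refine LinearMap.ext fun v => funext fun i => ?_
    rw [trL_apply, Matrix.mulVecLin_apply, Matrix.mulVec, dotProduct]
    refine Finset.sum_congr rfl fun j _ => ?_
    rw [Matrix.transpose_apply, LinearMap.toMatrix'_apply, mul_comm]
    rfl
  have h2 : Matrix.rank (LinearMap.toMatrix' (A : V k →ₗ[ℝ] V l)).transpose =
      Matrix.rank (LinearMap.toMatrix' (A : V k →ₗ[ℝ] V l)) := Matrix.rank_transpose _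
  have h3 : Matrix.rank (LinearMap.toMatrix' (A : V k →ₗ[ℝ] V l)) = Module.finrank ℝ (LinearMap.range (A : V k →ₗ[ℝ] V l)) := by
    rw [Matrix.rank, ← Matrix.toLin'_apply', Matrix.toLin'_toMatrix']
  rw [h1]
  exact (h2.trans h3).le

section proj

variable {F : Type*} [NormedAddCommGroup F] [InnerProductSpace ℝ F] [FiniteDimensional ℝ F]

/-- a unit vector field in the range of a family of projections of rank `r + 1`:
the derivative along directions in which the projections do not change has rank at most `r` -/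
theorem rank_sphere {E : Type*} [NormedAddCommGroup E] [NormedSpace ℝ E] {Q : E → F →L[ℝ] F} {N : E → F} {z : E} {r : ℕ}
    (hQ : DifferentiableAt ℝ Q z) (hN : DifferentiableAt ℝ N z) (hQN : ∀ z, Q z (N z) = N z) (h1 : ∀ z, ‖N z‖ = 1)
    (hr : Module.finrank ℝ (LinearMap.range (Q z : F →ₗ[ℝ] F)) ≤ r + 1) :
    Module.finrank ℝ ((LinearMap.ker (fderiv ℝ Q z : E →ₗ[ℝ] F →L[ℝ] F)).map (fderiv ℝ N z : E →ₗ[ℝ] F)) ≤ r := by
  set K := (LinearMap.ker (fderiv ℝ Q z : E →ₗ[ℝ] F →L[ℝ] F)).map (fderiv ℝ N z : E →ₗ[ℝ] F) with hK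
  have hmem : ∀ v : E, fderiv ℝ Q z v = 0 → Q z (fderiv ℝ N z v) = fderiv ℝ N z v := by
    intro v hv
    have h2 := (hQ.hasFDerivAt.clm_apply hN.hasFDerivAt)
    have h3 : (fun z => Q z (N z)) = N := funext hQN
    rw [h3] at h2
    have h4 := congrArg (fun L : E →L[ℝ] F => L v) (h2.unique hN.hasFDerivAt)
    simp only [_root_.add_apply, ContinuousLinearMap.comp_apply, ContinuousLinearMap.flip_apply, hv] at h4
    simpa using h4
  have hperp : ∀ v : E, ⟪N z, fderiv ℝ N z v⟫ = 0 := by
    intro v
    have h2 := hN.hasFDerivAt.inner ℝ hN.hasFDerivAt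
    have h3 : (fun z => ⟪N z, N z⟫) = fun _ => (1 : ℝ) := by
      funext z
      rw [real_inner_self_eq_norm_sq, h1, one_pow]
    rw [h3] at h2
    have h4 := congrArg (fun L : E →L[ℝ] ℝ => L v) (h2.unique (hasFDerivAt_const _ _))
    simp at h4
    have h5 := real_inner_comm (N z) (fderiv ℝ N z v)
    linarith
  have hsub : K ≤ LinearMap.range (Q z : F →ₗ[ℝ] F) ⊓ (ℝ ∙ N z)ᗮ := by
    rintro _ ⟨v, hv, rfl⟩
    have hv' : fderiv ℝ Q z v = 0 := hv
    refine ⟨⟨fderiv ℝ N z v, hmem v hv'⟩, ?_⟩
    rw [SetLike.mem_coe, Submodule.mem_orthogonal_singleton_iff_inner_right]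
    exact hperp v
  have hlt : (LinearMap.range (Q z : F →ₗ[ℝ] F) ⊓ (ℝ ∙ N z)ᗮ : Submodule ℝ F) < LinearMap.range (Q z : F →ₗ[ℝ] F) := by
    refine lt_of_le_of_ne inf_le_left fun h => ?_
    have h2 : N z ∈ LinearMap.range (Q z : F →ₗ[ℝ] F) := ⟨N z, hQN z⟩
    rw [← h] at h2
    have h3 := h2.2
    rw [SetLike.mem_coe, Submodule.mem_orthogonal_singleton_iff_inner_right, real_inner_self_eq_norm_sq, h1] at h3
    norm_num at h3
  have h2 := Submodule.finrank_lt_finrank_of_lt hlt
  have h3 := Submodule.finrank_mono hsub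
  omega

end proj

end Pool.Agent.Lib.MP_ccbbf6_gt.L5
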