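import Pool.Agent.Lib.MP_ccbbf6_gt.L4.Deg

/-!
# Level 5, block EPS, part 3: the degree of a map of a region is an integer

`Z` is closed, `H` is smooth and proper on `Z`; the boundary of `Z` contributes nothing to Stokes' theorem (`hT`)
and has an image of measure zero (`hB`).
-/

set_option autoImplicit false

open Set Filter Topology Metric MeasureTheory
open scoped ContDiff

noncomputable section

namespace Pool.Agent.Lib.MP_ccbbf6_gt.L5.DG

open L4.DEG

section reg

variable {E : Type*} [NormedAddCommGroup E] [NormedSpace ℝ E] [FiniteDimensional ℝ E] [MeasurableSpace E] [BorelSpace E]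
  (μ : Measure E) [μ.IsAddHaarMeasure] {H : E → E} (hH : ContDiff ℝ ∞ H) {Z : Set E} (hZm : IsClosed Z)
  (hZ : ∀ K, IsCompact K → IsCompact (Z ∩ H ⁻¹' K))

include hH hZm hZ in
theorem integrable_compZ {f : E → ℝ} (hf : Continuous f) (hfc : HasCompactSupport f) :
    IntegrableOn (fun x => f (H x) * (fderiv ℝ H x).det) Z μ := by
  have h1 : IntegrableOn (fun x => f (H x) * (fderiv ℝ H x).det) (Z ∩ H ⁻¹' tsupport f) μ :=
    ((hf.comp hH.continuous).mul (continuous_detH hH)).continuousOn.integrableOn_compact (hZ _ hfc)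
  refine h1.of_forall_sdiff_eq_zero hZm.measurableSet fun x hx => ?_
  have h2 : H x ∉ tsupport f := fun h => hx.2 ⟨hx.1, h⟩
  rw [image_eq_zero_of_notMem_tsupport h2, zero_mul]

variable (hT : ∀ f : E → ℝ, ContDiff ℝ ∞ f → HasCompactSupport f → ∀ v : E,
  ∫ x in Z, fderiv ℝ f (H x) v * (fderiv ℝ H x).det ∂μ = 0)

include hH hZm hZ hT in
/-- translation invariance -/
theorem integral_translateZ {f : E → ℝ} (hf : ContDiff ℝ ∞ f) (hfc : HasCompactSupport f) (v : E) :
    ∫ x in Z, f (H x - v) * (fderiv ℝ H x).det ∂μ = ∫ x in Z, f (H x) * (fderiv ℝ H x).det ∂μ := by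
  have hft : ∀ t : ℝ, ContDiff ℝ ∞ fun y => f (y - t • v) := fun t => hf.comp (contDiff_id.sub contDiff_const)
  have hftc : ∀ t : ℝ, HasCompactSupport fun y => f (y - t • v) := fun t =>
    hfc.comp_homeomorph (Homeomorph.subRight (t • v))
  have hfd : Continuous (fderiv ℝ f) := hf.continuous_fderiv (by simp)
  obtain ⟨C, hC⟩ := (hfc.fderiv ℝ).exists_bound_of_continuous hfd
  obtain ⟨R, hR⟩ := hfc.isBounded.subset_closedBall (0 : E)
  have key : ∀ t₀ : ℝ, HasDerivAt (fun t : ℝ => ∫ x in Z, f (H x - t • v) * (fderiv ℝ H x).det ∂μ) 0 t₀ := by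
    intro t₀
    set S : Set E := Z ∩ H ⁻¹' closedBall (0 : E) (R + (|t₀| + 1) * ‖v‖) with hS
    have hScpt : IsCompact S := hZ _ (isCompact_closedBall _ _)
    have hbd : IntegrableOn (S.indicator fun a => C * ‖v‖ * |(fderiv ℝ H a).det|) Z μ := by
      refine Integrable.integrableOn ?_
      rw [integrable_indicator_iff hScpt.measurableSet]
      exact (continuous_const.mul (continuous_detH hH).abs).continuousOn.integrableOn_compact hScpt
    have h := hasDerivAt_integral_of_dominated_loc_of_deriv_le (μ := μ.restrict Z) (𝕜 := ℝ) (x₀ := t₀) (s := ball t₀ 1)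
      (F := fun t x => f (H x - t • v) * (fderiv ℝ H x).det)
      (F' := fun t x => fderiv ℝ f (H x - t • v) (-v) * (fderiv ℝ H x).det)
      (bound := S.indicator fun a => C * ‖v‖ * |(fderiv ℝ H a).det|)
      (ball_mem_nhds _ one_pos)
      (Eventually.of_forall fun t => (integrable_compZ μ hH hZm hZ (hft t).continuous (hftc t)).aestronglyMeasurable)
      (integrable_compZ μ hH hZm hZ (hft t₀).continuous (hftc t₀))
      (Continuous.aestronglyMeasurable
        (((hfd.comp (hH.continuous.sub continuous_const)).clm_apply continuous_const).mul (continuous_detH hH)))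
      ((ae_restrict_iff' hZm.measurableSet).2 (Eventually.of_forall fun a haZ t ht => ?_)) hbd
      (Eventually.of_forall fun a t ht => ?_)
    · have h0 : ∫ x in Z, fderiv ℝ f (H x - t₀ • v) (-v) * (fderiv ℝ H x).det ∂μ = 0 := by
        have h2 := hT _ (hft t₀) (hftc t₀) (-v)
        rw [← h2]
        congr 1
        ext x
        congr 1
        have hd : HasFDerivAt (fun y => f (y - t₀ • v)) (fderiv ℝ f (H x - t₀ • v)) (H x) := by
          have h3 : HasFDerivAt f (fderiv ℝ f (H x - t₀ • v)) (H x - t₀ • v) :=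
            (hf.differentiable (by simp) _).hasFDerivAt
          have h5 := h3.comp (H x) ((hasFDerivAt_id (𝕜 := ℝ) (H x)).sub_const (t₀ • v))
          rwa [ContinuousLinearMap.comp_id] at h5
        rw [hd.fderiv]
      rw [← h0]
      exact h.2
    · show ‖fderiv ℝ f (H a - t • v) (-v) * (fderiv ℝ H a).det‖ ≤ _
      by_cases ha : a ∈ S
      · rw [indicator_of_mem ha, norm_mul, Real.norm_eq_abs (ContinuousLinearMap.det _)]
        refine mul_le_mul_of_nonneg_right ?_ (abs_nonneg _)
        calc ‖fderiv ℝ f (H a - t • v) (-v)‖ ≤ ‖fderiv ℝ f (H a - t • v)‖ * ‖-v‖ := ContinuousLinearMap.le_opNorm _ _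
          _ ≤ C * ‖v‖ := by rw [norm_neg]; exact mul_le_mul_of_nonneg_right (hC _) (norm_nonneg v)
      · rw [indicator_of_notMem ha]
        have h1 : H a - t • v ∉ tsupport f := by
          intro hmem
          apply ha
          have h2 := hR hmem
          rw [mem_closedBall, dist_zero_right] at h2
          refine ⟨haZ, ?_⟩
          rw [mem_preimage, mem_closedBall, dist_zero_right]
          have h3 : |t| ≤ |t₀| + 1 := by
            have h4 : |t - t₀| < 1 := by simpa [Real.dist_eq] using ht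
            have h5 := abs_sub_abs_le_abs_sub t t₀
            linarith
          calc ‖H a‖ = ‖(H a - t • v) + t • v‖ := by rw [sub_add_cancel]
            _ ≤ ‖H a - t • v‖ + ‖t • v‖ := norm_add_le _ _
            _ ≤ R + (|t₀| + 1) * ‖v‖ := by
              rw [norm_smul, Real.norm_eq_abs]
              exact add_le_add h2 (mul_le_mul_of_nonneg_right h3 (norm_nonneg v))
        have h2 : fderiv ℝ f (H a - t • v) = 0 := by
          have := (notMem_tsupport_iff_eventuallyEq.1 h1).fderiv_eq (𝕜 := ℝ)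
          rw [this]; simp
        rw [h2]; simp
    · have h3 : HasFDerivAt f (fderiv ℝ f (H a - t • v)) (H a - t • v) :=
        (hf.differentiable (by simp) _).hasFDerivAt
      have h4 : HasDerivAt (fun t : ℝ => H a - t • v) (-v) t := by
        have := ((hasDerivAt_id t).smul_const v).const_sub (H a)
        simpa using this
      exact (h3.comp_hasDerivAt t h4).mul_const _
  have hconst := is_const_of_deriv_eq_zero (f := fun t : ℝ => ∫ x in Z, f (H x - t • v) * (fderiv ℝ H x).det ∂μ)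
    (fun t => (key t).differentiableAt) (fun t => (key t).deriv) 1 0
  simpa using hconst

include hH hZm hZ hT in
theorem integral_mul_commZ {f g : E → ℝ} (hf : ContDiff ℝ ∞ f) (hfc : HasCompactSupport f)
    (hg : ContDiff ℝ ∞ g) (hgc : HasCompactSupport g) :
    (∫ x in Z, f (H x) * (fderiv ℝ H x).det ∂μ) * ∫ y, g y ∂μ = (∫ x in Z, g (H x) * (fderiv ℝ H x).det ∂μ) * ∫ y, f y ∂μ := by
  have aux : ∀ f g : E → ℝ, ContDiff ℝ ∞ f → HasCompactSupport f → ContDiff ℝ ∞ g → HasCompactSupport g →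
      (∫ x in Z, f (H x) * (fderiv ℝ H x).det ∂μ) * ∫ y, g y ∂μ
        = ∫ x in Z, (∫ y, g y * f (H x - y) ∂μ) * (fderiv ℝ H x).det ∂μ := by
    intro f g hf hfc hg hgc
    have hint : Integrable (Function.uncurry fun (y : E) (x : E) => g y * (f (H x - y) * (fderiv ℝ H x).det))
        (μ.prod (μ.restrict Z)) := by
      have hc : Continuous (Function.uncurry fun (y : E) (x : E) => g y * (f (H x - y) * (fderiv ℝ H x).det)) := by
        refine (hg.continuous.comp continuous_fst).mul ((hf.continuous.comp ?_).mul ((continuous_detH hH).comp continuous_snd))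
        exact (hH.continuous.comp continuous_snd).sub continuous_fst
      have hcp : IsCompact ((tsupport g) ×ˢ (Z ∩ H ⁻¹' ((fun p : E × E => p.1 + p.2) '' ((tsupport f) ×ˢ (tsupport g))))) :=
        hgc.prod (hZ _ ((hfc.prod hgc).image continuous_add))
      have e1 : μ.prod (μ.restrict Z) = (μ.prod μ).restrict (univ ×ˢ Z) := by
        rw [← Measure.prod_restrict, Measure.restrict_univ]
      rw [e1]
      refine (hc.continuousOn.integrableOn_compact hcp).of_forall_sdiff_eq_zero (MeasurableSet.univ.prod hZm.measurableSet) ?_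
      rintro ⟨y, x⟩ ⟨hx1, hx2⟩
      by_contra hxy
      simp only [Function.uncurry_apply_pair] at hxy
      apply hx2
      have h1 : y ∈ tsupport g := subset_tsupport g fun h => hxy (by rw [h, zero_mul])
      have h2 : H x - y ∈ tsupport f := subset_tsupport f fun h => hxy (by rw [h, zero_mul, mul_zero])
      exact ⟨h1, hx1.2, (H x - y, y), ⟨h2, h1⟩, by simp⟩
    calc (∫ x in Z, f (H x) * (fderiv ℝ H x).det ∂μ) * ∫ y, g y ∂μ
        = ∫ y, g y * ∫ x in Z, f (H x - y) * (fderiv ℝ H x).det ∂μ ∂μ := by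
          rw [mul_comm, ← integral_mul_const]
          congr 1
          ext y
          rw [integral_translateZ μ hH hZm hZ hT hf hfc y]
      _ = ∫ y, ∫ x in Z, g y * (f (H x - y) * (fderiv ℝ H x).det) ∂μ ∂μ := by
          congr 1; ext y; rw [integral_const_mul]
      _ = ∫ x in Z, ∫ y, g y * (f (H x - y) * (fderiv ℝ H x).det) ∂μ ∂μ := integral_integral_swap hint
      _ = _ := by
          congr 1
          ext x
          rw [← integral_mul_const]
          congr 1
          ext y
          ring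
  rw [aux f g hf hfc hg hgc, aux g f hg hgc hf hfc]
  congr 1
  ext x
  congr 1
  rw [← integral_sub_left_eq_self _ μ (H x)]
  congr 1
  ext y
  rw [sub_sub_cancel, mul_comm]

include hH hZm hZ hT in
/-- the degree is the number of preimages of a regular value, counted with sign -/
theorem deg_reg {y₀ : E} (hy₁ : y₀ ∉ H '' (Z \ interior Z)) (hy₀ : ∀ x ∈ Z, H x = y₀ → (fderiv ℝ H x).det ≠ 0) :
    ∃ P : Finset E, (∀ x, x ∈ P ↔ x ∈ Z ∧ H x = y₀) ∧ ∀ g : E → ℝ, ContDiff ℝ ∞ g → HasCompactSupport g →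
      ∫ x in Z, g (H x) * (fderiv ℝ H x).det ∂μ =
        (∑ x ∈ P, (if 0 < (fderiv ℝ H x).det then (1 : ℤ) else -1 : ℤ) : ℤ) * ∫ y, g y ∂μ := by
  classical
  have hPc : IsCompact (Z ∩ H ⁻¹' {y₀}) := hZ _ isCompact_singleton
  have hPint : ∀ x ∈ Z ∩ H ⁻¹' {y₀}, x ∈ interior Z := by
    intro x hx
    by_contra h
    exact hy₁ ⟨x, ⟨hx.1, h⟩, hx.2⟩
  have hdc : Continuous fun x => (fderiv ℝ H x).det := continuous_detH hH
  -- local inverse
  have hloc : ∀ x, (fderiv ℝ H x).det ≠ 0 → (∀ U ∈ 𝓝 x, H '' U ∈ 𝓝 (H x)) ∧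
      ∃ U : Set E, IsOpen U ∧ x ∈ U ∧ InjOn H U ∧ ∀ y ∈ U, 0 < (fderiv ℝ H y).det * (fderiv ℝ H x).det := by
    intro x hx
    set A : E ≃L[ℝ] E := (fderiv ℝ H x).toContinuousLinearEquivOfDetNeZero hx with hA
    have hAe : (A : E →L[ℝ] E) = fderiv ℝ H x := by ext v; rfl
    have hs : HasStrictFDerivAt H (A : E →L[ℝ] E) x := by
      rw [hAe]
      exact (hH.contDiffAt).hasStrictFDerivAt (by simp)
    refine ⟨fun U hU => ?_, ?_⟩
    · have h := hs.map_nhds_eq_of_equiv
      rw [← h]
      exact image_mem_map hU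
    · let e := hs.toOpenPartialHomeomorph H
      refine ⟨e.source ∩ {y | 0 < (fderiv ℝ H y).det * (fderiv ℝ H x).det}, ?_, ⟨?_, ?_⟩, ?_, fun y hy => hy.2⟩
      · exact e.open_source.inter (isOpen_lt continuous_const (hdc.mul continuous_const))
      · exact hs.mem_toOpenPartialHomeomorph_source
      · exact mul_self_pos.2 hx
      · intro a ha b hb hab
        exact e.injOn ha.1 hb.1 hab
  have hreg : ∀ x ∈ Z ∩ H ⁻¹' {y₀}, (fderiv ℝ H x).det ≠ 0 := fun x hx => hy₀ x hx.1 hx.2
  choose! U hUo hUm hUi hUs using fun x hx => (hloc x (hreg x hx)).2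
  -- finiteness
  have hfin : (Z ∩ H ⁻¹' {y₀}).Finite := by
    obtain ⟨t, htP, htc⟩ := hPc.elim_nhds_subcover U (fun x hx => (hUo x hx).mem_nhds (hUm x hx))
    refine (t.finite_toSet).subset fun z hz => ?_
    obtain ⟨x, hxt, hzx⟩ := mem_iUnion₂.1 (htc hz)
    have hxP := htP x hxt
    have : z = x := hUi x hxP hzx (hUm x hxP) ((show H z = y₀ from hz.2).trans (show H x = y₀ from hxP.2).symm)
    rw [this]; exact hxt
  obtain ⟨V, hV, hVd⟩ := hfin.t2_separation
  set P : Finset E := hfin.toFinset with hP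
  have hPm : ∀ x, x ∈ P ↔ x ∈ Z ∩ H ⁻¹' {y₀} := fun x => by rw [hP, Set.Finite.mem_toFinset]
  set W : E → Set E := fun x => (U x ∩ V x) ∩ interior Z with hW
  have hWo : ∀ x ∈ P, IsOpen (W x) := fun x hx =>
    ((hUo x ((hPm x).1 hx)).inter (hV x).2).inter isOpen_interior
  have hWm : ∀ x ∈ P, x ∈ W x := fun x hx => ⟨⟨hUm x ((hPm x).1 hx), (hV x).1⟩, hPint x ((hPm x).1 hx)⟩
  have hWi : ∀ x ∈ P, InjOn H (W x) := fun x hx =>
    (hUi x ((hPm x).1 hx)).mono (inter_subset_left.trans inter_subset_left)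
  have hWZ : ∀ x ∈ P, W x ⊆ Z := fun x _ => inter_subset_right.trans interior_subset
  have hWd : (P : Set E).PairwiseDisjoint W := by
    intro a ha b hb hab
    have := hVd (show a ∈ Z ∩ H ⁻¹' {y₀} from (hPm a).1 ha) (show b ∈ Z ∩ H ⁻¹' {y₀} from (hPm b).1 hb) hab
    exact this.mono (inter_subset_left.trans inter_subset_right) (inter_subset_left.trans inter_subset_right)
  have hWU : IsOpen (⋃ x ∈ P, W x) := isOpen_biUnion hWo
  -- the good neighbourhood
  have hN1 : (H '' ((Z ∩ H ⁻¹' closedBall y₀ 1) ∩ (⋃ x ∈ P, W x)ᶜ))ᶜ ∈ 𝓝 y₀ := by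
    have hc : IsCompact ((Z ∩ H ⁻¹' closedBall y₀ 1) ∩ (⋃ x ∈ P, W x)ᶜ) :=
      (hZ _ (isCompact_closedBall _ _)).inter_right hWU.isClosed_compl
    refine (hc.image hH.continuous).isClosed.isOpen_compl.mem_nhds ?_
    rintro ⟨x, hx, hxy⟩
    exact hx.2 (mem_iUnion₂.2 ⟨x, (hPm x).2 ⟨hx.1.1, hxy⟩, hWm x ((hPm x).2 ⟨hx.1.1, hxy⟩)⟩)
  have hN2 : (⋂ x ∈ P, H '' W x) ∈ 𝓝 y₀ := by
    rw [Filter.biInter_finset_mem]
    intro x hx
    have h := (hloc x (hreg x ((hPm x).1 hx))).1 (W x) ((hWo x hx).mem_nhds (hWm x hx))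
    rwa [((hPm x).1 hx).2] at h
  obtain ⟨f, hfs, hfc, hf, hf01, hf1⟩ := exists_contDiff_tsupport_subset (n := ⊤)
    (Filter.inter_mem (Filter.inter_mem hN1 hN2) (closedBall_mem_nhds y₀ one_pos))
  have hpos : 0 < ∫ y, f y ∂μ := by
    have h0 : 0 ≤ f := fun y => (hf01 (mem_range_self y)).1
    rw [integral_pos_iff_support_of_nonneg h0 (hf.continuous.integrable_of_hasCompactSupport hfc)]
    exact (hf.continuous.isOpen_support).measure_pos μ ⟨y₀, by simp [hf1]⟩
  -- the value on `f`
  have hint := integrable_compZ μ hH hZm hZ hf.continuous hfc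
  have hval : ∫ x in Z, f (H x) * (fderiv ℝ H x).det ∂μ
      = ∑ x ∈ P, ∫ z in W x, f (H z) * (fderiv ℝ H z).det ∂μ := by
    rw [← integral_biUnion_finset P (fun x hx => (hWo x hx).measurableSet) hWd
      (fun x hx => hint.mono_set (hWZ x hx))]
    refine setIntegral_eq_of_subset_of_forall_sdiff_eq_zero hZm.measurableSet (iUnion₂_subset hWZ) fun x hx => ?_
    have : f (H x) = 0 := by
      by_contra hne
      have h1 := hfs (subset_tsupport f hne)
      exact h1.1.1 ⟨x, ⟨⟨hx.1, h1.2⟩, hx.2⟩, rfl⟩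
    rw [this, zero_mul]
  have hpiece : ∀ x ∈ P, ∫ z in W x, f (H z) * (fderiv ℝ H z).det ∂μ
      = (if 0 < (fderiv ℝ H x).det then (1 : ℤ) else -1 : ℤ) * ∫ y, f y ∂μ := by
    intro x hx
    have h1 := integral_image_eq_integral_abs_det_fderiv_smul μ (f' := fderiv ℝ H) (hWo x hx).measurableSet
      (fun z _ => (hH.differentiable (by simp) z).hasFDerivAt.hasFDerivWithinAt) (hWi x hx) f
    have h2 : ∫ y in H '' W x, f y ∂μ = ∫ y, f y ∂μ := by
      refine setIntegral_eq_integral_of_forall_compl_eq_zero fun y hy => ?_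
      by_contra hne
      exact hy (mem_iInter₂.1 (hfs (subset_tsupport f hne)).1.2 x hx)
    rw [← h2, h1, ← integral_const_mul]
    refine setIntegral_congr_fun (hWo x hx).measurableSet fun z hz => ?_
    have hs := hUs x ((hPm x).1 hx) z hz.1.1
    simp only [smul_eq_mul]
    split_ifs with hpos'
    · have : 0 < (fderiv ℝ H z).det := by
        by_contra hn
        nlinarith [not_lt.1 hn]
      rw [abs_of_pos this]; push_cast; ring
    · have hx0 := hreg x ((hPm x).1 hx)
      have hx1 : (fderiv ℝ H x).det < 0 := lt_of_le_of_ne (not_lt.1 hpos') hx0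
      have : (fderiv ℝ H z).det < 0 := by
        by_contra hn
        nlinarith [not_lt.1 hn]
      rw [abs_of_neg this]; push_cast; ring
  rw [Finset.sum_congr rfl hpiece, ← Finset.sum_mul] at hval
  refine ⟨P, hPm, fun g hg hgc => ?_⟩
  have h := integral_mul_commZ μ hH hZm hZ hT hg hgc hf hfc
  rw [hval] at h
  push_cast at h ⊢
  refine mul_right_cancel₀ hpos.ne' ?_
  rw [h]; ring

variable (hB : μ (H '' (Z \ interior Z)) = 0)

include hH hZm hZ hT hB in
/-- **the degree is an integer** -/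
theorem deg_int_Z : ∃ k : ℤ, ∀ g : E → ℝ, ContDiff ℝ ∞ g → HasCompactSupport g →
    ∫ x in Z, g (H x) * (fderiv ℝ H x).det ∂μ = k * ∫ y, g y ∂μ := by
  -- a regular value
  obtain ⟨y₀, hy₁, hy₀⟩ : ∃ y₀ : E, y₀ ∉ H '' (Z \ interior Z) ∧ ∀ x, H x = y₀ → (fderiv ℝ H x).det ≠ 0 := by
    by_contra hcon
    push Not at hcon
    have h0 : μ (H '' {x | (fderiv ℝ H x).det = 0}) = 0 :=
      addHaar_image_eq_zero_of_det_fderivWithin_eq_zero μ (f' := fderiv ℝ H)
        (fun x _ => (hH.differentiable (by simp) x).hasFDerivAt.hasFDerivWithinAt) (fun x hx => hx)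
    have h1 : H '' (Z \ interior Z) ∪ H '' {x | (fderiv ℝ H x).det = 0} = univ := by
      refine eq_univ_of_forall fun y => ?_
      by_cases hy : y ∈ H '' (Z \ interior Z)
      · exact Or.inl hy
      · obtain ⟨x, hx, hx0⟩ := hcon y hy
        exact Or.inr ⟨x, hx0, hx⟩
    have h2 := measure_union_null hB h0
    rw [h1] at h2
    exact (isOpen_univ.measure_pos μ univ_nonempty).ne' h2
  obtain ⟨P, _, h⟩ := deg_reg μ hH hZm hZ hT hy₁ (fun x _ => hy₀ x)
  exact ⟨_, h⟩

end reg

end Pool.Agent.Lib.MP_ccbbf6_gt.L5.DG
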