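import Mathlib.MeasureTheory.Function.Jacobian
import Pool.Agent.Lib.MP_ccbbf6_gt.L5.EPS01
import Pool.Agent.Lib.MP_ccbbf6_gt.L5.EPS02
import Pool.Agent.Lib.MP_ccbbf6_gt.L5.EPS03

/-!
# Level 5, block EPS, part 4: the degree of a map of the cube to the sphere

`G : V N → V (N + 1)` is smooth and without zeros, of rank `≤ N - 2` on the faces of the unit cube;
`Hc G (x, r) = r G(x)`.
-/

set_option autoImplicit false

open Set Filter Topology MeasureTheory
open scoped ContDiff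

noncomputable section

namespace Pool.Agent.Lib.MP_ccbbf6_gt.L5

open L4 L4.FR

variable {k l n N : ℕ}

/-- Stokes on a box, all faces vanish -/
theorem box_dd_zero (θ : Fm (k + 1)) {b : V (k + 1)} (hb : 0 ≤ b)
    (h : ∀ i, ∀ x ∈ Icc (0 : V (k + 1)) b, (x i = 0 ∨ x i = b i) → topE (k + 1) (ee i * ev x θ) = 0) :
    ∫ x in Icc (0 : V (k + 1)) b, topE (k + 1) (ev x (dd (k + 1) θ)) = 0 := by
  have h0 := integral_divergence_of_hasFDerivAt_off_countable' (n := k) (E := ℝ) (a := 0) (b := b)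
    hb (fun i => (fco i θ : V (k + 1) → ℝ)) (fun i x => fderiv ℝ (fco i θ : V (k + 1) → ℝ) x) ∅
    countable_empty (fun i => (Cs_smooth _).continuous.continuousOn)
    (fun x _ i => (Cs_diff (fco i θ) x).hasFDerivAt) ?_
  · have h2 : ∀ x : V (k + 1), topE (k + 1) (ev x (dd (k + 1) θ)) =
        ∑ i, fderiv ℝ (fco i θ : V (k + 1) → ℝ) x (Pi.single i 1) := by
      intro x
      rw [← tp_apply, tp_dd, AddSubmonoidClass.coe_finsetSum, Finset.sum_apply]
      rfl
    simp only [h2]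
    rw [h0]
    refine Finset.sum_eq_zero fun i _ => ?_
    have h3 : ∀ r : ℝ, (r = 0 ∨ r = b i) →
        ∫ x in Icc ((0 : V (k + 1)) ∘ i.succAbove) (b ∘ i.succAbove), (fco i θ : V (k + 1) → ℝ) (i.insertNth r x) = 0 := by
      intro r hr
      rw [setIntegral_congr_fun (g := fun _ => (0 : ℝ)) measurableSet_Icc]
      · simp
      · intro x hx
        change (fco i θ : V (k + 1) → ℝ) (i.insertNth r x) = 0
        rw [fco_apply]
        refine h i _ ?_ (by rw [Fin.insertNth_apply_same]; exact hr)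
        have hb0 : 0 ≤ b i := hb i
        constructor
        · intro j
          refine Fin.succAboveCases i ?_ (fun j => ?_) j
          · rw [Fin.insertNth_apply_same]
            rcases hr with rfl | rfl
            · exact le_rfl
            · exact hb0
          · rw [Fin.insertNth_apply_succAbove]
            exact hx.1 j
        · intro j
          refine Fin.succAboveCases i ?_ (fun j => ?_) j
          · rw [Fin.insertNth_apply_same]
            rcases hr with rfl | rfl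
            · exact hb0
            · exact le_rfl
          · rw [Fin.insertNth_apply_succAbove]
            exact hx.2 j
    have h4 := h3 (b i) (Or.inr rfl)
    have h5 := h3 0 (Or.inl rfl)
    rw [show (0 : V (k + 1)) i = 0 from rfl, h4, h5, sub_zero]
  · have h4 : Continuous fun x : V (k + 1) => ∑ i, fderiv ℝ (fco i θ : V (k + 1) → ℝ) x (Pi.single i 1) :=
      continuous_finsetSum _ fun i _ => ((Cs_smooth (fco i θ)).continuous_fderiv (by simp)).clm_apply continuous_const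
    exact h4.continuousOn.integrableOn_compact isCompact_Icc

/-! ### The cone map -/

/-- the cone of a smooth map -/
def Hc (G : FR.Sm N n) : FR.Sm (N + 1) n :=
  ⟨fun x => x (Fin.last N) • G (pr N x), (contDiff_apply ℝ ℝ (Fin.last N)).smul (G.smooth.comp (pr N).smooth)⟩

theorem Hc_apply (G : FR.Sm N n) (x : V (N + 1)) : Hc G x = x (Fin.last N) • G (pr N x) := rfl

/-- forget the last coordinate, as a continuous linear map -/
def prL (k : ℕ) : V (k + 1) →L[ℝ] V k :=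
  ContinuousLinearMap.pi fun i : Fin k => ContinuousLinearMap.proj (R := ℝ) (φ := fun _ : Fin (k + 1) => ℝ) i.castSucc

theorem hasFDerivAt_pr (x : V (k + 1)) : HasFDerivAt (pr k : V (k + 1) → V k) (prL k) x := (prL k).hasFDerivAt

theorem fderiv_Hc (G : FR.Sm N n) (x v : V (N + 1)) :
    fderiv ℝ (Hc G : V (N + 1) → V n) x v =
      x (Fin.last N) • fderiv ℝ (G : V N → V n) (pr N x) (pr N v) + v (Fin.last N) • G (pr N x) := by
  have h1 : HasFDerivAt (fun x : V (N + 1) => x (Fin.last N))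
      (ContinuousLinearMap.proj (R := ℝ) (φ := fun _ : Fin (N + 1) => ℝ) (Fin.last N)) x := hasFDerivAt_apply _ _
  have h2 : HasFDerivAt (fun x : V (N + 1) => G (pr N x)) _ x := (G.diff (pr N x)).hasFDerivAt.comp x (hasFDerivAt_pr x)
  have h3 := h1.smul h2
  have h4 : HasFDerivAt (Hc G : V (N + 1) → V n) _ x := h3
  rw [h4.fderiv]
  rfl

/-- the rank on the lateral faces -/
theorem rkF_Hc_castSucc (G : FR.Sm N n) (i : Fin N) (x : V (N + 1)) :
    rkF (Hc G : V (N + 1) → V n) i.castSucc x ≤ rkF (G : V N → V n) i (pr N x) + 1 := by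
  have h1 : ((LinearMap.ker (LinearMap.proj i.castSucc : V (N + 1) →ₗ[ℝ] ℝ)).map
      (fderiv ℝ (Hc G : V (N + 1) → V n) x : V (N + 1) →ₗ[ℝ] V n)) ≤
      ((LinearMap.ker (LinearMap.proj i : V N →ₗ[ℝ] ℝ)).map (fderiv ℝ (G : V N → V n) (pr N x) : V N →ₗ[ℝ] V n)) ⊔
        Submodule.span ℝ {G (pr N x)} := by
    rintro _ ⟨v, hv, rfl⟩
    change fderiv ℝ (Hc G : V (N + 1) → V n) x v ∈ _
    rw [fderiv_Hc]
    refine Submodule.add_mem_sup (Submodule.smul_mem _ _ ?_) (Submodule.smul_mem _ _ (Submodule.mem_span_singleton_self _))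
    exact ⟨pr N v, hv, rfl⟩
  refine (Submodule.finrank_mono h1).trans ((Submodule.finrank_add_le_finrank_add_finrank _ _).trans ?_)
  refine Nat.add_le_add_left ((finrank_span_le_card (R := ℝ) ({G (pr N x)} : Set (V n))).trans ?_) _
  simp

theorem rkF_Hc_last (G : FR.Sm N n) {x : V (N + 1)} (hx : x (Fin.last N) = 0) :
    rkF (Hc G : V (N + 1) → V n) (Fin.last N) x = 0 := by
  have h1 : ((LinearMap.ker (LinearMap.proj (Fin.last N) : V (N + 1) →ₗ[ℝ] ℝ)).map
      (fderiv ℝ (Hc G : V (N + 1) → V n) x : V (N + 1) →ₗ[ℝ] V n)) = ⊥ := by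
    rw [eq_bot_iff]
    rintro _ ⟨v, hv, rfl⟩
    change fderiv ℝ (Hc G : V (N + 1) → V n) x v ∈ _
    have hv' : v (Fin.last N) = 0 := hv
    rw [fderiv_Hc, hx, hv', zero_smul, zero_smul, add_zero]
    exact Submodule.zero_mem _
  unfold rkF
  rw [h1, finrank_bot]

/-! ### The form `f ι_v vol` -/

theorem ivo_mem {i : ℕ} {a : Ex k} (ha : a ∈ ⋀[ℝ]^i (V k)) : ivo k a = (-1 : ℝ) ^ i • a := by
  rw [← ExteriorAlgebra.ιMulti_span_fixedDegree] at ha
  induction ha using Submodule.span_induction with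
  | mem x hx =>
    obtain ⟨v, rfl⟩ := hx
    induction i with
    | zero =>
      rw [ExteriorAlgebra.ιMulti_zero_apply, map_one, pow_zero, one_smul]
    | succ i ih =>
      rw [ExteriorAlgebra.ιMulti_succ_apply, map_mul, ivo_ι, ih, pow_succ, mul_smul_comm, neg_mul, mul_neg_one,
        smul_neg, neg_smul]
  | zero => rw [map_zero, smul_zero]
  | add x y _ _ hx hy => rw [map_add, hx, hy, smul_add]
  | smul r x _ hx => rw [map_smul, hx, smul_comm]

theorem Dg_cf {j : ℕ} {a : Ex k} (ha : a ∈ ⋀[ℝ]^j (V k)) : Dg j (cf k a) := by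
  constructor
  · rw [cf_apply, Sc_tm, s2_mem ha, tm_smul_right]
  · rw [cf_apply, sg_tm, ivo_mem ha, tm_smul_right]

/-- the volume element -/
def vlE (k : ℕ) : Ex k := ExteriorAlgebra.ιMulti ℝ k (fun i => (Pi.single i 1 : V k))

theorem topE_vlE : topE k (vlE k) = 1 := by
  unfold vlE
  rw [topE_ιMulti]
  have : (Matrix.of fun i => (Pi.single i 1 : V k)) = (1 : Matrix (Fin k) (Fin k) ℝ) := by
    ext i j
    simp [Matrix.one_apply, Pi.single_apply, eq_comm]
  rw [this, Matrix.det_one]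

theorem vlE_mem : vlE k ∈ ⋀[ℝ]^k (V k) := by
  rw [← ExteriorAlgebra.ιMulti_span_fixedDegree]
  exact Submodule.subset_span ⟨_, rfl⟩

/-- the linear form of a vector -/
def lv (v : V k) : V k →ₗ[ℝ] ℝ := ∑ i, v i • LinearMap.proj i

theorem lv_single (v : V k) (i : Fin k) : lv v (Pi.single i 1) = v i := by
  unfold lv
  rw [LinearMap.sum_apply, Finset.sum_eq_single i]
  · simp
  · intro j _ hj
    simp [Pi.single_eq_of_ne hj]
  · intro h
    exact absurd (Finset.mem_univ _) h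

/-- `f ι_v vol` -/
def fiv (f : Cs k) (v : V k) : Fm k := fc k f * cn (lv v) (cf k (vlE k))

theorem Dg_fiv (f : Cs (k + 1)) (v : V (k + 1)) : Dg k (fiv f v) := by
  have h := Dg_mul (Dg_fc f) (Dg_cn (lv v) (Dg_cf (vlE_mem (k := k + 1))))
  rwa [zero_add] at h

theorem top_dd_fiv (f : Cs k) (v : V k) (y : V k) : topE k (ev y (dd k (fiv f v))) = fderiv ℝ (f : V k → ℝ) y v := by
  have h1 : fiv f v = tm f (ctr (lv v) (vlE k)) := by
    unfold fiv
    rw [cf_apply, cn_tm, fc_apply, tm_mul, mul_one, one_mul]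
  rw [h1, dd_tm, map_sum, map_sum]
  have h2 : ∀ i, topE k (ev y (tm (pd i f) (ee i * ctr (lv v) (vlE k)))) = v i * (pd i f : V k → ℝ) y := by
    intro i
    have h3 := topE_ι_mul (lv v) (Pi.single i 1) (vlE k)
    rw [lv_single, topE_vlE, mul_one] at h3
    rw [ev_tm, map_smul, smul_eq_mul, mul_comm]
    unfold ee
    rw [← h3]
  simp only [h2, pd_apply]
  have h5 : v = ∑ j, v j • (Pi.single j (1 : ℝ) : V k) := by
    ext a
    simp [Finset.sum_apply, Pi.single_apply]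
  conv_rhs => rw [h5]
  rw [map_sum]
  refine Finset.sum_congr rfl fun i _ => ?_
  rw [map_smul, smul_eq_mul]

theorem ev_fiv_zero {f : Cs k} {v : V k} {y : V k} (h : (f : V k → ℝ) y = 0) : ev y (fiv f v) = 0 := by
  unfold fiv
  rw [map_mul, ev_fc, h, map_zero, zero_mul]

theorem ev_pb_of_zero (g : FR.Sm k l) {θ : Fm l} {x : V k} (h : ev (g x) θ = 0) : ev x (pb g θ) = 0 := by
  rw [ev_pb, h, map_zero]

/-! ### The region -/

/-- the half infinite cylinder over the unit cube -/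
def Zc (N : ℕ) : Set (V (N + 1)) := {x | pr N x ∈ Icc (0 : V N) 1 ∧ 0 ≤ x (Fin.last N)}

theorem isClosed_Zc : IsClosed (Zc N) :=
  (isClosed_Icc.preimage (pr N).smooth.continuous).inter
    (isClosed_le continuous_const (continuous_apply (Fin.last N)))

theorem mem_Icc_snoc {x : V (N + 1)} {R : ℝ} (h : x ∈ Zc N) (hR : x (Fin.last N) ≤ R) :
    x ∈ Icc (0 : V (N + 1)) (Fin.snoc 1 R : V (N + 1)) := by
  constructor
  · intro i
    refine Fin.lastCases ?_ (fun i => ?_) i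
    · exact h.2
    · exact h.1.1 i
  · intro i
    refine Fin.lastCases ?_ (fun i => ?_) i
    · rw [Fin.snoc_last]; exact hR
    · rw [Fin.snoc_castSucc]; exact h.1.2 i

theorem Icc_snoc_sub {R : ℝ} : Icc (0 : V (N + 1)) (Fin.snoc 1 R : V (N + 1)) ⊆ Zc N := by
  intro x hx
  refine ⟨⟨fun i => hx.1 i.castSucc, fun i => ?_⟩, hx.1 (Fin.last N)⟩
  have := hx.2 i.castSucc
  rwa [Fin.snoc_castSucc] at this

theorem exists_bound_Hc {G : FR.Sm N n} (hG : ∀ x, G x ≠ 0) (K : Set (V n)) (hK : IsCompact K) :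
    ∃ R : ℝ, 0 ≤ R ∧ ∀ x ∈ Zc N, Hc G x ∈ K → x (Fin.last N) ≤ R := by
  obtain ⟨δ, hδ, hδ1⟩ : ∃ δ > 0, ∀ x ∈ Icc (0 : V N) 1, δ ≤ ‖G x‖ := by
    obtain ⟨x0, _, h0⟩ := (isCompact_Icc (a := (0 : V N)) (b := 1)).exists_isMinOn
      (f := fun x => ‖G x‖) ⟨0, by constructor <;> simp⟩ G.smooth.continuous.norm.continuousOn
    exact ⟨‖G x0‖, norm_pos_iff.2 (hG x0), fun x hx => h0 hx⟩
  obtain ⟨C, hC⟩ := hK.isBounded.subset_closedBall (0 : V n)
  refine ⟨|C| / δ, by positivity, fun x hx hxK => ?_⟩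
  have h1 := hC hxK
  rw [Metric.mem_closedBall, dist_zero_right, Hc_apply, norm_smul, Real.norm_eq_abs, abs_of_nonneg hx.2] at h1
  rw [le_div_iff₀ hδ]
  calc x (Fin.last N) * δ ≤ x (Fin.last N) * ‖G (pr N x)‖ := mul_le_mul_of_nonneg_left (hδ1 _ hx.1) hx.2
    _ ≤ C := h1
    _ ≤ |C| := le_abs_self C

theorem compact_Hc {G : FR.Sm N n} (hG : ∀ x, G x ≠ 0) (K : Set (V n)) (hK : IsCompact K) :
    IsCompact (Zc N ∩ (Hc G : V (N + 1) → V n) ⁻¹' K) := by
  obtain ⟨R, _, hR⟩ := exists_bound_Hc hG K hK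
  refine (isCompact_Icc (a := (0 : V (N + 1))) (b := (Fin.snoc 1 R : V (N + 1)))).of_isClosed_subset ?_ ?_
  · exact isClosed_Zc.inter (hK.isClosed.preimage (Hc G).smooth.continuous)
  · rintro x ⟨hx, hxK⟩
    exact mem_Icc_snoc hx (hR x hx hxK)

/-- the boundary contributes nothing -/
theorem Hc_stokes {G : FR.Sm N (N + 1)} (hN : 1 ≤ N) (hG : ∀ x, G x ≠ 0)
    (hF : ∀ i, ∀ x ∈ Icc (0 : V N) 1, (x i = 0 ∨ x i = 1) → rkF (G : V N → V (N + 1)) i x + 2 ≤ N)
    {f : V (N + 1) → ℝ} (hf : ContDiff ℝ ∞ f) (hfc : HasCompactSupport f) (v : V (N + 1)) :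
    ∫ x in Zc N, fderiv ℝ f (Hc G x) v * (fderiv ℝ (Hc G : V (N + 1) → V (N + 1)) x).det = 0 := by
  obtain ⟨R, hR0, hR⟩ := exists_bound_Hc hG (tsupport f) hfc
  set b : V (N + 1) := Fin.snoc 1 (R + 1) with hb
  have hb0 : 0 ≤ b := by
    intro i
    refine Fin.lastCases ?_ (fun i => ?_) i
    · rw [hb, Fin.snoc_last]; change (0 : ℝ) ≤ R + 1; linarith
    · rw [hb, Fin.snoc_castSucc]; exact zero_le_one
  have h1 : ∀ x, fderiv ℝ f (Hc G x) v * (fderiv ℝ (Hc G : V (N + 1) → V (N + 1)) x).det =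
      topE (N + 1) (ev x (dd (N + 1) (pb (Hc G) (fiv (mkC f hf) v)))) := by
    intro x
    rw [pb_dd, ev_pb, topE_map, top_dd_fiv, mul_comm, det_tr]
    rfl
  have h2 : ∀ x ∈ Zc N, R < x (Fin.last N) → Hc G x ∉ tsupport f := by
    intro x hx hxR h
    linarith [hR x hx h]
  rw [← box_dd_zero (pb (Hc G) (fiv (mkC f hf) v)) hb0 ?_]
  · simp only [h1]
    refine setIntegral_eq_of_subset_of_forall_sdiff_eq_zero isClosed_Zc.measurableSet Icc_snoc_sub fun x hx => ?_
    have h3 : R < x (Fin.last N) := by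
      by_contra h
      exact hx.2 (mem_Icc_snoc hx.1 (by linarith [not_lt.1 h]))
    rw [← h1]
    have h4 : fderiv ℝ f (Hc G x) = 0 := by
      have := (notMem_tsupport_iff_eventuallyEq.1 (h2 x hx.1 h3)).fderiv_eq (𝕜 := ℝ)
      rw [this]; simp
    rw [h4]
    simp
  · intro i x hx hxi
    revert hxi
    refine Fin.lastCases ?_ (fun i => ?_) i
    · rintro (hxi | hxi)
      · refine top_face_zero (Hc G) (Dg_fiv _ _) ?_
        rw [rkF_Hc_last G hxi]
        omega
      · rw [hb, Fin.snoc_last] at hxi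
        have h3 : f (Hc G x) = 0 := by
          refine image_eq_zero_of_notMem_tsupport (h2 x (Icc_snoc_sub hx) ?_)
          rw [hxi]
          linarith
        have h4 : ev x (pb (Hc G) (fiv (mkC f hf) v)) = 0 := ev_pb_of_zero _ (ev_fiv_zero h3)
        rw [h4, mul_zero, map_zero]
    · intro hxi
      refine top_face_zero (Hc G) (Dg_fiv _ _) ?_
      rw [hb, Fin.snoc_castSucc] at hxi
      have h3 := hF i (pr N x) (Icc_snoc_sub hx).1 hxi
      have h4 := rkF_Hc_castSucc G i x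
      omega

/-- the image of the boundary is a null set -/
theorem Hc_boundary (G : FR.Sm N (N + 1)) :
    volume ((Hc G : V (N + 1) → V (N + 1)) '' (Zc N \ interior (Zc N))) = 0 := by
  refine addHaar_image_eq_zero_of_differentiableOn_of_addHaar_eq_zero volume
    ((Hc G).diff.differentiableOn) ?_
  have h1 : Zc N \ interior (Zc N) ⊆ ⋃ i : Fin (N + 1), ({x : V (N + 1) | x i = 0} ∪ {x : V (N + 1) | x i = 1}) := by
    intro x hx
    by_contra h
    simp only [mem_iUnion, mem_union, mem_ofPred_eq, not_exists, not_or] at h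
    apply hx.2
    rw [mem_interior]
    refine ⟨{y | (∀ i : Fin N, y i.castSucc ∈ Ioo (0 : ℝ) 1) ∧ 0 < y (Fin.last N)}, ?_, ?_, ?_, ?_⟩
    · intro y hy
      exact ⟨⟨fun i => (hy.1 i).1.le, fun i => (hy.1 i).2.le⟩, hy.2.le⟩
    · have h3 : {y : V (N + 1) | (∀ i : Fin N, y i.castSucc ∈ Ioo (0 : ℝ) 1) ∧ 0 < y (Fin.last N)} =
          (⋂ i : Fin N, {y | y i.castSucc ∈ Ioo (0 : ℝ) 1}) ∩ {y | 0 < y (Fin.last N)} := by
        ext y; simp
      rw [h3]
      refine (isOpen_iInter_of_finite fun i => ?_).inter (isOpen_lt continuous_const (continuous_apply _))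
      exact isOpen_Ioo.preimage (continuous_apply _)
    · intro i
      have h4 := hx.1.1.1 i
      have h5 := hx.1.1.2 i
      exact ⟨lt_of_le_of_ne h4 (Ne.symm (h i.castSucc).1), lt_of_le_of_ne h5 (h i.castSucc).2⟩
    · exact lt_of_le_of_ne hx.1.2 (Ne.symm (h (Fin.last N)).1)
  refine measure_mono_null h1 (measure_iUnion_null fun i => measure_union_null ?_ ?_)
  · have h2 := Measure.pi_hyperplane (fun _ : Fin (N + 1) => (volume : Measure ℝ)) i 0
    exact h2
  · have h2 := Measure.pi_hyperplane (fun _ : Fin (N + 1) => (volume : Measure ℝ)) i 1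
    exact h2

/-- the degree is the number of preimages of a regular value, counted with sign -/
theorem deg_cube_reg {G : FR.Sm N (N + 1)} (hN : 1 ≤ N) (hG : ∀ x, G x ≠ 0)
    (hF : ∀ i, ∀ x ∈ Icc (0 : V N) 1, (x i = 0 ∨ x i = 1) → rkF (G : V N → V (N + 1)) i x + 2 ≤ N) {y₀ : V (N + 1)}
    (hy₁ : y₀ ∉ (Hc G : V (N + 1) → V (N + 1)) '' (Zc N \ interior (Zc N)))
    (hy₀ : ∀ x ∈ Zc N, Hc G x = y₀ → (fderiv ℝ (Hc G : V (N + 1) → V (N + 1)) x).det ≠ 0) :
    ∃ P : Finset (V (N + 1)), (∀ x, x ∈ P ↔ x ∈ Zc N ∧ Hc G x = y₀) ∧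
      ∀ f : V (N + 1) → ℝ, ContDiff ℝ ∞ f → HasCompactSupport f →
        ∫ x in Zc N, f (Hc G x) * (fderiv ℝ (Hc G : V (N + 1) → V (N + 1)) x).det =
          (∑ x ∈ P, (if 0 < (fderiv ℝ (Hc G : V (N + 1) → V (N + 1)) x).det then (1 : ℤ) else -1 : ℤ) : ℤ) * ∫ y, f y :=
  DG.deg_reg volume (Hc G).smooth isClosed_Zc (fun K hK => compact_Hc hG K hK)
    (fun _ hf hfc v => Hc_stokes hN hG hF hf hfc v) hy₁ hy₀

/-- **the degree of a map of the cube to the sphere** -/
theorem deg_cube {G : FR.Sm N (N + 1)} (hN : 1 ≤ N) (hG : ∀ x, G x ≠ 0)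
    (hF : ∀ i, ∀ x ∈ Icc (0 : V N) 1, (x i = 0 ∨ x i = 1) → rkF (G : V N → V (N + 1)) i x + 2 ≤ N) :
    ∃ k : ℤ, ∀ f : V (N + 1) → ℝ, ContDiff ℝ ∞ f → HasCompactSupport f →
      ∫ x in Zc N, f (Hc G x) * (fderiv ℝ (Hc G : V (N + 1) → V (N + 1)) x).det = k * ∫ y, f y :=
  DG.deg_int_Z volume (Hc G).smooth isClosed_Zc (fun K hK => compact_Hc hG K hK)
    (fun _ hf hfc v => Hc_stokes hN hG hF hf hfc v) (Hc_boundary G)

end Pool.Agent.Lib.MP_ccbbf6_gt.L5
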