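import Pool.Agent.Lib.MP_ccbbf6_gt.L4.Eps
import Pool.Agent.Lib.MP_ccbbf6_gt.L4.Sp
import Pool.Agent.Lib.MP_ccbbf6_gt.L5.EPS04
import Pool.Agent.Lib.MP_ccbbf6_gt.L5.Ofv

/-!
# Level 5, block EPS, part 5: integral of forms over the unit sphere, degree of a map of the cube to the sphere

* `Th w = d χ(|y|) ∧ (y / |y|)^* w` on `ℝ^n`, `JS w` its integral;
* `deg_sphere` : `cI N (G^* w) = k * JS w` for a map `G` of the cube to the sphere of small rank on the faces.
-/

set_option autoImplicit false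

open Set Filter Topology MeasureTheory Metric
open scoped ContDiff

noncomputable section

namespace Pool.Agent.Lib.MP_ccbbf6_gt.L5

open Geo L4 L4.FR

variable {k l n N : ℕ}

theorem contDiff_chiN : ContDiff ℝ ∞ fun y : V n => chi ‖toE y‖ := by
  rw [contDiff_iff_contDiffAt]
  intro x
  by_cases hx : toE x = 0
  · have hE : (fun y : V n => chi ‖toE y‖) =ᶠ[𝓝 x] fun _ => 0 := by
      have h1 : ∀ᶠ y in 𝓝 x, ‖toE y‖ < 1 := by
        have h2 : Continuous fun y : V n => ‖toE y‖ := contDiff_toE.continuous.norm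
        exact h2.continuousAt.eventually (gt_mem_nhds (by simp only [hx, norm_zero]; exact one_pos))
      filter_upwards [h1] with y hy
      exact chi_zero hy.le
    exact contDiffAt_const.congr_of_eventuallyEq hE
  · have h1 : ContDiffAt ℝ ∞ (fun y : V n => ‖toE y‖) x :=
      (contDiffAt_norm ℝ hx).comp x contDiff_toE.contDiffAt
    exact contDiff_chi.contDiffAt.comp x h1

/-- the cut-off function of the norm -/
def cn1 (n : ℕ) : Cs n := mkC (fun y => chi ‖toE y‖) contDiff_chiN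

/-- the projection to the unit sphere -/
def nrm (y : V n) : Eu n := ‖toE y‖⁻¹ • toE y

theorem norm_nrm {y : V n} (h : toE y ≠ 0) : ‖nrm y‖ = 1 := by
  unfold nrm
  rw [norm_smul, norm_inv, norm_norm, inv_mul_cancel₀ (norm_ne_zero_iff.2 h)]

/-- away from the origin, `nrm` is locally a plot of the sphere -/
theorem locPl_nrm {y : V n} (h : toE y ≠ 0) : LocPl (X := spS n) (Subtype.val) nrm y := by
  have h1 : ∀ᶠ z in 𝓝 y, toE z ≠ 0 :=
    contDiff_toE.continuous.continuousAt.eventually_ne h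
  obtain ⟨s, hs1, hs2⟩ := exists_sq y h1
  refine ⟨⟨fun w => ⟨nrm (s w), norm_nrm (hs2 w)⟩, ?_⟩, ?_⟩
  · change ContDiff ℝ ∞ fun w => ‖toE (s w)‖⁻¹ • toE (s w)
    have h2 : ContDiff ℝ ∞ fun w => toE (s w) := contDiff_toE.comp s.smooth
    have h3 : ContDiff ℝ ∞ fun w => ‖toE (s w)‖ := h2.norm ℝ hs2
    exact (h3.inv fun w => norm_ne_zero_iff.2 (hs2 w)).smul h2
  · filter_upwards [hs1] with w hw
    change nrm (s w) = nrm w
    rw [hw]

/-- values of `d χ(|y|) ∧ (y / |y|)^* w` -/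
def ThV (w : Om (spS n)) (y : V n) : Ex n := ev y (dd n (fc n (cn1 n))) * vAt (Subtype.val) w nrm y

theorem ev_dcn_zero {y : V n} (h : ‖toE y‖ < 1) : ev y (dd n (fc n (cn1 n))) = 0 := by
  have h1 : ev y (dd n (fc n (cn1 n))) = ev y (dd n (fc n 0)) := by
    refine ev_dd_congr ?_
    have h2 : ∀ᶠ z in 𝓝 y, ‖toE z‖ < 1 := contDiff_toE.continuous.norm.continuousAt.eventually (gt_mem_nhds h)
    filter_upwards [h2] with z hz
    rw [ev_fc, ev_fc]
    congr 1
    exact chi_zero hz.le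
  rw [h1, map_zero, map_zero, map_zero]

theorem ev_dcn_zero' {y : V n} (h : 2 < ‖toE y‖) : ev y (dd n (fc n (cn1 n))) = 0 := by
  have h1 : ev y (dd n (fc n (cn1 n))) = ev y (dd n (fc n 1)) := by
    refine ev_dd_congr ?_
    have h2 : ∀ᶠ z in 𝓝 y, 2 < ‖toE z‖ := contDiff_toE.continuous.norm.continuousAt.eventually (lt_mem_nhds h)
    filter_upwards [h2] with z hz
    rw [ev_fc, ev_fc]
    congr 1
    exact chi_one hz.le
  rw [h1, map_one, dd_one, map_zero]

theorem ThV_near (w : Om (spS n)) {y : V n} (h : toE y ≠ 0) : ∃ P : (spS n).Plot n,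
    (fun z => (P.1 z).1) =ᶠ[𝓝 y] nrm ∧ ∀ᶠ z in 𝓝 y, ThV w z = ev z (dd n (fc n (cn1 n)) * Om.on w P) := by
  obtain ⟨P, hP⟩ := locPl_nrm h
  refine ⟨P, hP, ?_⟩
  filter_upwards [vAt_eventuallyEq Subtype.val_injective w P hP] with z hz
  unfold ThV
  rw [map_mul, hz]

theorem SmE_ThV (w : Om (spS n)) : SmE (ThV w) := by
  refine SmE_of_loc fun y => ?_
  by_cases h : toE y = 0
  · refine ⟨0, ?_⟩
    have h2 : ∀ᶠ z in 𝓝 y, ‖toE z‖ < 1 := contDiff_toE.continuous.norm.continuousAt.eventually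
      (gt_mem_nhds (by change ‖toE y‖ < 1; rw [h, norm_zero]; exact one_pos))
    filter_upwards [h2] with z hz
    unfold ThV
    rw [ev_dcn_zero hz, zero_mul, map_zero]
  · obtain ⟨P, _, hP⟩ := ThV_near w h
    exact ⟨_, hP⟩

/-- `d χ(|y|) ∧ (y / |y|)^* w` -/
def Th (w : Om (spS n)) : Fm n := ofV (ThV w)

theorem ev_Th (w : Om (spS n)) (y : V n) : ev y (Th w) = ThV w y := ev_ofV (SmE_ThV w) y

theorem ev_Th_zero (w : Om (spS n)) {y : V n} (h : 2 < ‖toE y‖) : ev y (Th w) = 0 := by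
  rw [ev_Th]
  unfold ThV
  rw [ev_dcn_zero' h, zero_mul]

/-- the integral of a form over the unit sphere -/
def JS (w : Om (spS n)) : ℝ := ∫ y : V n, topE n (ev y (Th w))

/-- the components of a map to `Eu n` -/
def toV {n : ℕ} (x : Eu n) : V n := x.ofLp

theorem toE_toV (x : Eu n) : toE (toV x) = x := rfl

theorem contDiff_toV : ContDiff ℝ ∞ (toV : Eu n → V n) := (PiLp.continuousLinearEquiv 2 ℝ (fun _ : Fin n => ℝ)).contDiff

/-- a plot of the sphere as a smooth map -/
def plVE (P : (spS n).Plot N) : FR.Sm N n := ⟨fun x => toV (P.1 x).1, contDiff_toV.comp P.2⟩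

theorem plVE_apply (P : (spS n).Plot N) (x : V N) : plVE P x = toV (P.1 x).1 := rfl

/-- `χ(x_last)` -/
def chl (N : ℕ) : Cs (N + 1) := mkC (fun x => chi (x (Fin.last N))) (contDiff_chi.comp (contDiff_apply ℝ ℝ (Fin.last N)))

theorem deriv_chi_zero {r : ℝ} (h : r < 1) : deriv chi r = 0 := by
  have h1 : chi =ᶠ[𝓝 r] fun _ => 0 := by
    filter_upwards [gt_mem_nhds h] with z hz
    exact chi_zero (le_of_lt hz)
  rw [h1.deriv_eq, deriv_const]

theorem deriv_chi_zero' {r : ℝ} (h : 2 < r) : deriv chi r = 0 := by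
  have h1 : chi =ᶠ[𝓝 r] fun _ => 1 := by
    filter_upwards [lt_mem_nhds h] with z hz
    exact chi_one (le_of_lt hz)
  rw [h1.deriv_eq, deriv_const]

theorem ev_dchl (x : V (N + 1)) : ev x (dd (N + 1) (fc (N + 1) (chl N))) = deriv chi (x (Fin.last N)) • ee (Fin.last N) := by
  rw [ev_dd_fc, ι_eq, Finset.sum_eq_single (Fin.last N)]
  · congr 1
    rw [pd_apply]
    have h1 : HasFDerivAt (fun x : V (N + 1) => x (Fin.last N))
        (ContinuousLinearMap.proj (R := ℝ) (φ := fun _ : Fin (N + 1) => ℝ) (Fin.last N)) x := hasFDerivAt_apply _ _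
    have h2 : HasDerivAt chi (deriv chi (x (Fin.last N))) (x (Fin.last N)) :=
      (contDiff_chi.differentiable (by simp) _).hasDerivAt
    have h3 : HasFDerivAt (fun x : V (N + 1) => chi (x (Fin.last N))) (deriv chi (x (Fin.last N)) •
        ContinuousLinearMap.proj (R := ℝ) (φ := fun _ : Fin (N + 1) => ℝ) (Fin.last N)) x :=
      HasDerivAt.comp_hasFDerivAt (h₂ := chi) x h2 h1
    change fderiv ℝ (fun x : V (N + 1) => chi (x (Fin.last N))) x _ = _
    rw [h3.fderiv]
    simp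
  · intro i _ hi
    have h1 : HasFDerivAt (fun x : V (N + 1) => x (Fin.last N))
        (ContinuousLinearMap.proj (R := ℝ) (φ := fun _ : Fin (N + 1) => ℝ) (Fin.last N)) x := hasFDerivAt_apply _ _
    have h2 : HasDerivAt chi (deriv chi (x (Fin.last N))) (x (Fin.last N)) :=
      (contDiff_chi.differentiable (by simp) _).hasDerivAt
    have h3 : HasFDerivAt (fun x : V (N + 1) => chi (x (Fin.last N))) (deriv chi (x (Fin.last N)) •
        ContinuousLinearMap.proj (R := ℝ) (φ := fun _ : Fin (N + 1) => ℝ) (Fin.last N)) x :=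
      HasDerivAt.comp_hasFDerivAt (h₂ := chi) x h2 h1
    have h4 : (pd i (chl N) : V (N + 1) → ℝ) x = 0 := by
      rw [pd_apply]
      change fderiv ℝ (fun x : V (N + 1) => chi (x (Fin.last N))) x _ = _
      rw [h3.fderiv]
      simp [Pi.single_eq_of_ne (Ne.symm hi)]
    rw [h4, zero_smul]
  · intro h
    exact absurd (Finset.mem_univ _) h

/-- the pull-back of `Th w` by the cone map -/
theorem ev_pb_Th (P : (spS n).Plot N) (w : Om (spS n)) {x : V (N + 1)} (hx : 0 ≤ x (Fin.last N)) :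
    ev x (pb (Hc (plVE P)) (Th w)) = ev x (dd (N + 1) (fc (N + 1) (chl N)) * pb (pr N) (Om.on w P)) := by
  have hn : ∀ z : V (N + 1), ‖toE (Hc (plVE P) z)‖ = |z (Fin.last N)| := by
    intro z
    rw [Hc_apply, plVE_apply]
    change ‖z (Fin.last N) • (P.1 (pr N z)).1‖ = _
    rw [norm_smul, (P.1 (pr N z)).2, mul_one, Real.norm_eq_abs]
  rcases hx.eq_or_lt with h0 | h0
  · have h1 : ev (Hc (plVE P) x) (Th w) = 0 := by
      rw [ev_Th]
      unfold ThV
      rw [ev_dcn_zero, zero_mul]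
      rw [hn, ← h0, abs_zero]
      exact one_pos
    rw [ev_pb_of_zero _ h1, map_mul, ev_dchl, ← h0, deriv_chi_zero one_pos, zero_smul, zero_mul]
  · have hne : toE (Hc (plVE P) x) ≠ 0 := by
      rw [← norm_ne_zero_iff, hn]
      exact abs_ne_zero.2 h0.ne'
    obtain ⟨Q, hQ, hQ2⟩ := ThV_near w hne
    have h1 : ev x (pb (Hc (plVE P)) (Th w)) = ev x (pb (Hc (plVE P)) (dd n (fc n (cn1 n)) * Om.on w Q)) := by
      refine ev_pb_congr' _ ?_
      filter_upwards [hQ2] with z hz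
      rw [ev_Th, hz]
    rw [h1, map_mul (pb _), map_mul, map_mul, ← pb_dd, pb_fc, ← on_cmp, ← on_cmp]
    have hpos : ∀ᶠ z : V (N + 1) in 𝓝 x, 0 < z (Fin.last N) :=
      (continuous_apply (Fin.last N)).continuousAt.eventually (lt_mem_nhds h0)
    congr 1
    · refine ev_dd_congr ?_
      filter_upwards [hpos] with z hz
      rw [ev_fc, ev_fc]
      congr 1
      change chi ‖toE (Hc (plVE P) z)‖ = chi (z (Fin.last N))
      rw [hn, abs_of_pos hz]
    · refine ev_on_congr w ?_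
      have hc : ContinuousAt (Hc (plVE P) : V (N + 1) → V n) x := (Hc (plVE P)).smooth.continuous.continuousAt
      filter_upwards [hpos, hc.eventually hQ] with z hz hz2
      refine Subtype.ext ?_
      change (Q.1 (Hc (plVE P) z)).1 = (P.1 (pr N z)).1
      rw [hz2]
      unfold nrm
      rw [hn, abs_of_pos hz, Hc_apply, plVE_apply]
      change (z (Fin.last N))⁻¹ • (z (Fin.last N) • (P.1 (pr N z)).1) = _
      rw [smul_smul, inv_mul_cancel₀ hz.ne', one_smul]

/-- Fubini on the cylinder -/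
theorem setIntegral_cyl {R : ℝ} (hR : 0 ≤ R) {f : V (k + 1) → ℝ} (hf : Continuous f) :
    ∫ x in Icc (0 : V (k + 1)) (Fin.snoc 1 R : V (k + 1)), f x =
      ∫ p in Icc (0 : V k) 1, ∫ s in (0 : ℝ)..R, f (Fin.snoc p s) := by
  have hmp := (volume_preserving_piFinSuccAbove (fun _ : Fin (k + 1) => ℝ) (Fin.last k)).symm
  have h1 := hmp.setIntegral_preimage_emb (MeasurableEquiv.measurableEmbedding _) f
    (Icc (0 : V (k + 1)) (Fin.snoc 1 R : V (k + 1)))
  rw [← h1]
  have h2 : ((MeasurableEquiv.piFinSuccAbove (fun _ : Fin (k + 1) => ℝ) (Fin.last k)).symm ⁻¹'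
      Icc (0 : V (k + 1)) (Fin.snoc 1 R : V (k + 1))) = (Icc (0 : ℝ) R) ×ˢ (Icc (0 : V k) 1) := by
    ext ⟨s, p⟩
    simp only [mem_preimage, mem_prod, mem_Icc, Pi.le_def]
    constructor
    · rintro ⟨ha, hb⟩
      refine ⟨⟨?_, ?_⟩, fun i => ?_, fun i => ?_⟩
      · have := ha (Fin.last k)
        simpa [MeasurableEquiv.piFinSuccAbove] using this
      · have := hb (Fin.last k)
        simpa [MeasurableEquiv.piFinSuccAbove] using this
      · have := ha i.castSucc
        simpa [MeasurableEquiv.piFinSuccAbove] using this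
      · have := hb i.castSucc
        simpa [MeasurableEquiv.piFinSuccAbove] using this
    · rintro ⟨⟨ha, hb⟩, hc, hd⟩
      constructor
      · intro i
        refine Fin.lastCases ?_ (fun i => ?_) i
        · simpa [MeasurableEquiv.piFinSuccAbove] using ha
        · simpa [MeasurableEquiv.piFinSuccAbove] using hc i
      · intro i
        refine Fin.lastCases ?_ (fun i => ?_) i
        · simpa [MeasurableEquiv.piFinSuccAbove] using hb
        · simpa [MeasurableEquiv.piFinSuccAbove] using hd i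
  rw [h2]
  have h3 : ∀ z : ℝ × V k, (MeasurableEquiv.piFinSuccAbove (fun _ : Fin (k + 1) => ℝ) (Fin.last k)).symm z =
      (Fin.snoc z.2 z.1 : V (k + 1)) := by
    intro z
    funext i
    refine Fin.lastCases ?_ (fun i => ?_) i
    · simp [MeasurableEquiv.piFinSuccAbove]
    · simp [MeasurableEquiv.piFinSuccAbove]
  have h3' : (fun z : ℝ × V k => f ((MeasurableEquiv.piFinSuccAbove (fun _ : Fin (k + 1) => ℝ) (Fin.last k)).symm z)) =
      fun z : ℝ × V k => f (Fin.snoc z.2 z.1 : V (k + 1)) := by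
    funext z
    rw [h3]
  change ∫ z in (Icc (0 : ℝ) R) ×ˢ (Icc (0 : V k) 1), f ((MeasurableEquiv.piFinSuccAbove (fun _ : Fin (k + 1) => ℝ) (Fin.last k)).symm z) = _
  rw [h3']
  change ∫ z in (Icc (0 : ℝ) R) ×ˢ (Icc (0 : V k) 1), f (Fin.snoc z.2 z.1 : V (k + 1)) ∂(volume.prod volume) = _
  have h5 : ∫ z in (Icc (0 : ℝ) R) ×ˢ (Icc (0 : V k) 1), f (Fin.snoc z.2 z.1 : V (k + 1)) ∂(volume.prod volume) =
      ∫ z in (Icc (0 : V k) 1) ×ˢ (Icc (0 : ℝ) R), f (Fin.snoc z.1 z.2 : V (k + 1)) ∂(volume.prod volume) := by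
    rw [← Measure.prod_restrict, ← Measure.prod_restrict]
    exact integral_prod_swap (fun z : V k × ℝ => f (Fin.snoc z.1 z.2 : V (k + 1)))
  rw [h5, setIntegral_prod]
  · refine setIntegral_congr_fun measurableSet_Icc fun p _ => ?_
    change ∫ s in Icc (0 : ℝ) R, f (Fin.snoc p s) = _
    rw [intervalIntegral.integral_of_le hR, integral_Icc_eq_integral_Ioc]
  · have hcont' : Continuous fun z : V k × ℝ => f (Fin.snoc z.1 z.2 : V (k + 1)) :=
      hf.comp (contDiff_snoc (k := k)).continuous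
    exact hcont'.continuousOn.integrableOn_compact (isCompact_Icc.prod isCompact_Icc)

theorem topE_dchl (x : V (N + 1)) (θ : Fm N) :
    topE (N + 1) (ev x (dd (N + 1) (fc (N + 1) (chl N)) * pb (pr N) θ)) =
      (-1) ^ N * (deriv chi (x (Fin.last N)) * topE N (ev (pr N x) θ)) := by
  rw [map_mul, ev_dchl, smul_mul_assoc, map_smul, topE_last, smul_eq_mul]
  have h1 : kil N (ev x (pb (pr N) θ)) = ev (pr N x) θ := by
    have h2 := ev_slE (x (Fin.last N)) (pr N x) (pb (pr N) θ)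
    rw [← pb_comp] at h2
    have h3 : (pr N).comp (sl N (x (Fin.last N))) = Sm.id N := Sm.ext fun z => pr_snoc _ _
    rw [h3, pb_id, snoc_pr] at h2
    exact h2.symm
  rw [h1]
  ring

theorem integral_deriv_chi : ∫ s in (0 : ℝ)..3, deriv chi s = 1 := by
  rw [intervalIntegral.integral_deriv_eq_sub' _ rfl
    (fun x _ => contDiff_chi.differentiable (by simp) x)
    ((contDiff_chi.continuous_deriv (by simp)).continuousOn), chi_one (by norm_num), chi_zero (by norm_num), sub_zero]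

/-- the integral of `Th w` along the cone map -/
theorem int_Th (P : (spS (N + 1)).Plot N) (w : Om (spS (N + 1))) :
    ∫ x in Zc N, topE (N + 1) (ev (Hc (plVE P) x) (Th w)) * (fderiv ℝ (Hc (plVE P) : V (N + 1) → V (N + 1)) x).det =
      (-1) ^ N * cI N (Om.on w P) := by
  have h1 : ∀ x ∈ Zc N, topE (N + 1) (ev (Hc (plVE P) x) (Th w)) * (fderiv ℝ (Hc (plVE P) : V (N + 1) → V (N + 1)) x).det =
      (-1) ^ N * (deriv chi (x (Fin.last N)) * topE N (ev (pr N x) (Om.on w P))) := by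
    intro x hx
    rw [← topE_dchl, ← ev_pb_Th P w hx.2, ev_pb, topE_map, det_tr, mul_comm]
  have h2 : ∫ x in Zc N, topE (N + 1) (ev (Hc (plVE P) x) (Th w)) * (fderiv ℝ (Hc (plVE P) : V (N + 1) → V (N + 1)) x).det =
      ∫ x in Icc (0 : V (N + 1)) (Fin.snoc 1 3 : V (N + 1)),
        (-1) ^ N * (deriv chi (x (Fin.last N)) * topE N (ev (pr N x) (Om.on w P))) := by
    rw [setIntegral_congr_fun isClosed_Zc.measurableSet h1]
    refine setIntegral_eq_of_subset_of_forall_sdiff_eq_zero isClosed_Zc.measurableSet Icc_snoc_sub fun x hx => ?_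
    have h3 : 3 < x (Fin.last N) := by
      by_contra h
      exact hx.2 (mem_Icc_snoc hx.1 (by linarith [not_lt.1 h]))
    rw [deriv_chi_zero' (by linarith), zero_mul, mul_zero]
  have hcd : Continuous (deriv chi) := contDiff_chi.continuous_deriv (by simp)
  have hcont : Continuous fun x : V (N + 1) => (-1 : ℝ) ^ N * (deriv chi (x (Fin.last N)) * topE N (ev (pr N x) (Om.on w P))) :=
    continuous_const.mul ((hcd.comp (continuous_apply _)).mul ((continuous_top _).comp (pr N).smooth.continuous))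
  rw [h2, setIntegral_cyl (by norm_num) hcont]
  unfold cI
  rw [← integral_const_mul]
  refine setIntegral_congr_fun measurableSet_Icc fun p _ => ?_
  change ∫ s in (0 : ℝ)..3, (-1 : ℝ) ^ N * (deriv chi ((Fin.snoc p s : V (N + 1)) (Fin.last N)) *
    topE N (ev (pr N (Fin.snoc p s)) (Om.on w P))) = (-1) ^ N * topE N (ev p (Om.on w P))
  simp only [Fin.snoc_last, pr_snoc]
  rw [intervalIntegral.integral_const_mul, intervalIntegral.integral_mul_const, integral_deriv_chi, one_mul]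

theorem plVE_ne (P : (spS n).Plot N) (x : V N) : plVE P x ≠ 0 := by
  intro h
  have h1 := (P.1 x).2
  have h2 : (P.1 x).1 = 0 := by
    have h3 := congrArg toE h
    rw [plVE_apply, toE_toV] at h3
    rw [h3]
    rfl
  rw [h2, norm_zero] at h1
  exact zero_ne_one h1

theorem fderiv_plV (P : (spS n).Plot N) (x : V N) : fderiv ℝ (plVE P : V N → V n) x =
    ((PiLp.continuousLinearEquiv 2 ℝ (fun _ : Fin n => ℝ) : Eu n ≃L[ℝ] V n) : Eu n →L[ℝ] V n).comp
      (fderiv ℝ (fun x => (P.1 x).1) x) := by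
  have hd : DifferentiableAt ℝ (fun x => (P.1 x).1) x := (show ContDiff ℝ ∞ _ from P.2).differentiable (by simp) x
  exact ((PiLp.continuousLinearEquiv 2 ℝ (fun _ : Fin n => ℝ) : Eu n ≃L[ℝ] V n).hasFDerivAt.comp x hd.hasFDerivAt).fderiv

theorem rkF_plV (P : (spS n).Plot N) (i : Fin N) (x : V N) :
    rkF (plVE P : V N → V n) i x = rkF (fun x => (P.1 x).1) i x := by
  unfold rkF
  rw [fderiv_plV]
  have h2 : ((((PiLp.continuousLinearEquiv 2 ℝ (fun _ : Fin n => ℝ) : Eu n ≃L[ℝ] V n) : Eu n →L[ℝ] V n).comp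
      (fderiv ℝ (fun x => (P.1 x).1) x) : V N →L[ℝ] V n) : V N →ₗ[ℝ] V n) =
      ((PiLp.continuousLinearEquiv 2 ℝ (fun _ : Fin n => ℝ) : Eu n ≃L[ℝ] V n).toLinearEquiv : Eu n →ₗ[ℝ] V n).comp
        (fderiv ℝ (fun x => (P.1 x).1) x : V N →ₗ[ℝ] Eu n) := rfl
  rw [h2, Submodule.map_comp]
  exact LinearEquiv.finrank_map_eq (PiLp.continuousLinearEquiv 2 ℝ (fun _ : Fin n => ℝ) : Eu n ≃L[ℝ] V n).toLinearEquiv _

theorem contDiff_Th (w : Om (spS n)) : ContDiff ℝ ∞ fun y => topE n (ev y (Th w)) := contDiff_coef _ _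

theorem compact_Th (w : Om (spS n)) : HasCompactSupport fun y : V n => topE n (ev y (Th w)) := by
  have hc : IsCompact {y : V n | ‖toE y‖ ≤ 2} := by
    have h3 : {y : V n | ‖toE y‖ ≤ 2} = (PiLp.continuousLinearEquiv 2 ℝ (fun _ : Fin n => ℝ)) '' closedBall 0 2 := by
      ext y
      constructor
      · intro hy
        exact ⟨toE y, by rw [mem_closedBall, dist_zero_right]; exact hy, rfl⟩
      · rintro ⟨z, hz, rfl⟩
        rw [mem_closedBall, dist_zero_right] at hz
        exact hz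
    rw [h3]
    exact (isCompact_closedBall _ _).image (PiLp.continuousLinearEquiv 2 ℝ (fun _ : Fin n => ℝ)).continuous
  refine HasCompactSupport.intro hc fun y hy => ?_
  have hy' : 2 < ‖toE y‖ := not_le.1 hy
  rw [ev_Th_zero w hy', map_zero]

/-- from the degree of the cone map to the integral over the cube -/
theorem cI_of_deg {P : (spS (N + 1)).Plot N} {k : ℤ}
    (hk : ∀ f : V (N + 1) → ℝ, ContDiff ℝ ∞ f → HasCompactSupport f →
      ∫ x in Zc N, f (Hc (plVE P) x) * (fderiv ℝ (Hc (plVE P) : V (N + 1) → V (N + 1)) x).det = k * ∫ y, f y)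
    (w : Om (spS (N + 1))) : cI N (Om.on w P) = ((-1) ^ N * k : ℤ) * JS w := by
  have h3 := hk _ (contDiff_Th w) (compact_Th w)
  rw [int_Th P w] at h3
  have h4 : ((-1 : ℝ) ^ N) * ((-1 : ℝ) ^ N) = 1 := by
    rw [← mul_pow]
    norm_num
  unfold JS
  push_cast
  calc cI N (Om.on w P) = ((-1 : ℝ) ^ N * (-1 : ℝ) ^ N) * cI N (Om.on w P) := by rw [h4, one_mul]
    _ = (-1 : ℝ) ^ N * ((-1 : ℝ) ^ N * cI N (Om.on w P)) := by ring
    _ = _ := by rw [h3]; ring

/-- **degree of a map of the cube to the sphere of small rank on the faces** -/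
theorem deg_sphere (hN : 1 ≤ N) (P : (spS (N + 1)).Plot N)
    (hF : ∀ i, ∀ x ∈ Icc (0 : V N) 1, (x i = 0 ∨ x i = 1) → rkF (fun x => (P.1 x).1) i x + 2 ≤ N) :
    ∃ k : ℤ, ∀ w : Om (spS (N + 1)), cI N (Om.on w P) = k * JS w := by
  obtain ⟨k, hk⟩ := deg_cube hN (plVE_ne P) (fun i x hx1 hx => by rw [rkF_plV]; exact hF i x hx1 hx)
  exact ⟨(-1) ^ N * k, fun w => cI_of_deg hk w⟩

end Pool.Agent.Lib.MP_ccbbf6_gt.L5
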