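import Pool.Agent.Lib.MP_ccbbf6_gt.L4.FXb
import Pool.Agent.Lib.MP_ccbbf6_gt.L5.EPS05

/-!
# Level 5, block EPS, part 8: fibre integrals over the cube which are constant; ranks along plots of the sphere
-/

set_option autoImplicit false

open Set Filter Topology MeasureTheory Metric
open scoped ContDiff

noncomputable section

namespace Pool.Agent.Lib.MP_ccbbf6_gt.L5

open Geo L4 L4.FR

variable {k l n N : ℕ}

/-- forget the last `r` coordinates -/
def prn (k : ℕ) : (r : ℕ) → FR.Sm (k + r) k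
  | 0 => Sm.id k
  | r + 1 => (prn k r).comp (pr (k + r))

/-- the last `r` coordinates -/
def yn (k r : ℕ) : FR.Sm (k + r) r := ⟨fun x i => x (Fin.natAdd k i), contDiff_pi.2 fun _ => contDiff_apply ℝ ℝ _⟩

/-- set one of the last `r` coordinates equal to `c` -/
def rho (k : ℕ) (c : ℝ) : (r : ℕ) → Fin r → FR.Sm (k + r) (k + r)
  | 0, i => i.elim0
  | r + 1, i => Fin.lastCases (motive := fun _ => FR.Sm (k + (r + 1)) (k + (r + 1)))
      ((sl (k + r) c).comp (pr (k + r))) (fun i => (rho k c r i).up) i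

theorem rho_last (k : ℕ) (c : ℝ) (r : ℕ) : rho k c (r + 1) (Fin.last r) = (sl (k + r) c).comp (pr (k + r)) := by
  change Fin.lastCases (motive := fun _ => FR.Sm (k + (r + 1)) (k + (r + 1))) _ _ (Fin.last r) = _
  rw [Fin.lastCases_last]

theorem rho_castSucc (k : ℕ) (c : ℝ) (r : ℕ) (i : Fin r) : rho k c (r + 1) i.castSucc = (rho k c r i).up := by
  change Fin.lastCases (motive := fun _ => FR.Sm (k + (r + 1)) (k + (r + 1))) _ _ i.castSucc = _
  rw [Fin.lastCases_castSucc]

theorem prn_apply (k r : ℕ) (x : V (k + r)) (i : Fin k) : prn k r x i = x (Fin.castAdd r i) := by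
  induction r with
  | zero => rfl
  | succ r ih =>
    change prn k r (pr (k + r) x) i = _
    rw [ih]
    rfl

theorem prn_rho (k : ℕ) (c : ℝ) (r : ℕ) (i : Fin r) (x : V (k + r)) : prn k r (rho k c r i x) = prn k r x := by
  induction r with
  | zero => exact i.elim0
  | succ r ih =>
    revert i
    intro i
    refine Fin.lastCases ?_ (fun i => ?_) i
    · rw [rho_last]
      change prn k r (pr (k + r) (Fin.snoc (pr (k + r) x) c)) = prn k r (pr (k + r) x)
      rw [pr_snoc]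
    · rw [rho_castSucc]
      change prn k r (pr (k + r) (Fin.snoc (rho k c r i (pr (k + r) x)) (x (Fin.last (k + r))))) = prn k r (pr (k + r) x)
      rw [pr_snoc, ih]

theorem yn_rho (k : ℕ) (c : ℝ) (r : ℕ) (i : Fin r) (x : V (k + r)) : yn k r (rho k c r i x) i = c := by
  change (rho k c r i x) (Fin.natAdd k i) = c
  induction r with
  | zero => exact i.elim0
  | succ r ih =>
    revert i
    intro i
    refine Fin.lastCases ?_ (fun i => ?_) i
    · rw [rho_last]
      change (Fin.snoc (pr (k + r) x) c : V (k + r + 1)) (Fin.last (k + r)) = c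
      rw [Fin.snoc_last]
    · rw [rho_castSucc]
      change (Fin.snoc (rho k c r i (pr (k + r) x)) (x (Fin.last (k + r))) : V (k + r + 1)) (Fin.natAdd k i).castSucc = c
      rw [Fin.snoc_castSucc]
      exact ih i _

/-- integration over the last `r` variables -/
def Kn (k : ℕ) : (r : ℕ) → Fm (k + r) → Fm k
  | 0, θ => θ
  | r + 1, θ => Kn k r (KK (k + r) θ)

theorem Kn_zero (k r : ℕ) : Kn k r 0 = 0 := by
  induction r with
  | zero => rfl
  | succ r ih =>
    change Kn k r (KK (k + r) 0) = 0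
    rw [map_zero, ih]

theorem Kn_mul {β : Fm k} (hβ : sg k β = β) (r : ℕ) (θ : Fm (k + r)) : Kn k r (pb (prn k r) β * θ) = β * Kn k r θ := by
  induction r with
  | zero =>
    change pb (Sm.id k) β * θ = β * θ
    rw [pb_id]
  | succ r ih =>
    change Kn k r (KK (k + r) (pb ((prn k r).comp (pr (k + r))) β * θ)) = β * Kn k r (KK (k + r) θ)
    have h1 : sg (k + r) (pb (prn k r) β) = pb (prn k r) β := by rw [pb_sg, hβ]
    rw [pb_comp, KK_mul, h1, ih]

theorem abs_cI_Kn (r : ℕ) (θ : Fm (k + r)) : |cI (k + r) θ| = |cI k (Kn k r θ)| := by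
  induction r with
  | zero => rfl
  | succ r ih =>
    change |cI (k + r + 1) θ| = |cI k (Kn k r (KK (k + r) θ))|
    rw [← ih, cI_KK, abs_mul]
    simp

/-- a closed function is constant -/
theorem const_of_closed {A : Fm k} (h0 : Dg 0 A) (hd : dd k A = 0) : A = algebraMap ℝ (Fm k) ((fn k A : V k → ℝ) 0) := by
  have h1 := Dg_fn h0
  have h2 : ∀ x, fderiv ℝ (fn k A : V k → ℝ) x = 0 := by
    intro x
    have h3 : ev x (dd k (fc k (fn k A))) = 0 := by rw [h1, hd, map_zero]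
    rw [ev_dd_fc] at h3
    have h4 : (fun i => (pd i (fn k A) : V k → ℝ) x) = 0 := by
      exact (ExteriorAlgebra.ι_eq_zero_iff (R := ℝ) _).1 h3
    refine ContinuousLinearMap.ext fun v => ?_
    have h5 : v = ∑ j, v j • (Pi.single j (1 : ℝ) : V k) := by
      ext a
      simp [Finset.sum_apply, Pi.single_apply]
    rw [h5, map_sum]
    refine (Finset.sum_eq_zero fun j _ => ?_).trans (by simp)
    rw [map_smul]
    have h6 := congrFun h4 j
    change fderiv ℝ (fn k A : V k → ℝ) x (Pi.single j 1) = 0 at h6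
    rw [h6, smul_zero]
  have h3 : ∀ x, (fn k A : V k → ℝ) x = (fn k A : V k → ℝ) 0 := fun x =>
    is_const_of_fderiv_eq_zero (Cs_diff (fn k A)) h2 x 0
  refine ev_ext fun x => ?_
  conv_lhs => rw [← h1]
  rw [ev_fc, h3 x, AlgHom.commutes]

theorem pb_pr_inj {θ τ : Fm k} (h : pb (pr k) θ = pb (pr k) τ) : θ = τ := by
  have h1 := congrArg (pb (sl k 0)) h
  have h2 : (pr k).comp (sl k 0) = Sm.id k := Sm.ext fun z => pr_snoc _ _
  rwa [← pb_comp, ← pb_comp, h2, pb_id, pb_id] at h1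

theorem dd_Kn_aux (r : ℕ) {A : Fm (k + r)} (hd : dd (k + r) A = 0)
    (hf : ∀ (i : Fin r) (c : ℝ), (c = 0 ∨ c = 1) → pb (rho k c r i) A = 0) : dd k (Kn k r A) = 0 := by
  induction r with
  | zero => exact hd
  | succ r ih =>
    change dd k (Kn k r (KK (k + r) A)) = 0
    have e1 : ∀ c : ℝ, (c = 0 ∨ c = 1) → pb (sl (k + r) c) A = 0 := by
      intro c hc
      refine pb_pr_inj ?_
      have h1 := hf (Fin.last r) c hc
      rw [rho_last, pb_comp] at h1
      rw [h1, map_zero]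
    refine ih ?_ fun i c hc => ?_
    · have h := dd_KK (k := k + r) A
      have hd' : dd (k + r + 1) A = 0 := hd
      rw [hd', map_zero, add_zero, e1 1 (Or.inr rfl), e1 0 (Or.inl rfl), sub_self] at h
      exact h
    · have h1 := hf i.castSucc c hc
      rw [rho_castSucc] at h1
      rw [← KK_up, h1, map_zero]

/-- fibre integrals over the cube of a form which is closed along the fibres and constant on the faces -/
theorem dd_Kn {r : ℕ} (hr : 1 ≤ r) {θ : Fm (k + r)} {η β : Fm k} (hd : dd (k + r) θ = pb (prn k r) η)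
    (hf : ∀ (i : Fin r) (c : ℝ), (c = 0 ∨ c = 1) → pb (rho k c r i) θ = pb (prn k r) β) : dd k (Kn k r θ) = 0 := by
  obtain ⟨r, rfl⟩ : ∃ s, r = s + 1 := ⟨r - 1, by omega⟩
  change dd k (Kn k r (KK (k + r) θ)) = 0
  have hk : ∀ γ : Fm k, KK (k + r) (pb (prn k (r + 1)) γ) = 0 := by
    intro γ
    change KK (k + r) (pb ((prn k r).comp (pr (k + r))) γ) = 0
    rw [pb_comp, KK_pr]
  have e1 : ∀ c : ℝ, (c = 0 ∨ c = 1) → pb (sl (k + r) c) θ = pb (prn k r) β := by
    intro c hc
    refine pb_pr_inj ?_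
    have h1 := hf (Fin.last r) c hc
    rw [rho_last, pb_comp] at h1
    rw [h1]
    change pb ((prn k r).comp (pr (k + r))) β = _
    rw [pb_comp]
  refine dd_Kn_aux r ?_ fun i c hc => ?_
  · have h := dd_KK (k := k + r) θ
    have hd' : dd (k + r + 1) θ = pb (prn k (r + 1)) η := hd
    rw [hd', hk, add_zero, e1 1 (Or.inr rfl), e1 0 (Or.inl rfl), sub_self] at h
    exact h
  · have h1 := hf i.castSucc c hc
    rw [rho_castSucc] at h1
    rw [← KK_up, h1, hk]

/-- the embedding of the last variables over the point `0` -/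
def ptn (k : ℕ) : (r : ℕ) → FR.Sm (0 + r) (k + r)
  | 0 => ⟨fun _ => 0, contDiff_const⟩
  | r + 1 => (ptn k r).up

theorem pb_ptn_Kn (r : ℕ) (θ : Fm (k + r)) : pb (ptn k 0) (Kn k r θ) = Kn 0 r (pb (ptn k r) θ) := by
  induction r with
  | zero => rfl
  | succ r ih =>
    change pb (ptn k 0) (Kn k r (KK (k + r) θ)) = Kn 0 r (KK (0 + r) (pb (ptn k r).up θ))
    rw [ih, KK_up]

theorem prn_ptn (r : ℕ) (y : V (0 + r)) : prn k r (ptn k r y) = 0 := by
  induction r with
  | zero => rfl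
  | succ r ih =>
    change prn k r (pr (k + r) (Fin.snoc (ptn k r (pr (0 + r) y)) (y (Fin.last (0 + r))))) = 0
    rw [pr_snoc, ih]

theorem yn_ptn (r : ℕ) (y : V (0 + r)) : yn k r (ptn k r y) = yn 0 r y := by
  funext i
  change (ptn k r y) (Fin.natAdd k i) = y (Fin.natAdd 0 i)
  induction r with
  | zero => exact i.elim0
  | succ r ih =>
    revert i
    intro i
    refine Fin.lastCases ?_ (fun i => ?_) i
    · change (Fin.snoc (ptn k r (pr (0 + r) y)) (y (Fin.last (0 + r))) : V (k + r + 1)) (Fin.last (k + r)) = y (Fin.last (0 + r))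
      rw [Fin.snoc_last]
    · change (Fin.snoc (ptn k r (pr (0 + r) y)) (y (Fin.last (0 + r))) : V (k + r + 1)) (Fin.natAdd k i).castSucc =
        (pr (0 + r) y) (Fin.natAdd 0 i)
      rw [Fin.snoc_castSucc]
      exact ih _ i

/-- integrals over the cube `V (0 + r)` and `V r` -/
theorem abs_cI_cast (r : ℕ) {X : Space} (w : Om X) (p : X.Plot r) :
    |cI (0 + r) (Om.on w (p.cmp (yn 0 r)))| = |cI r (Om.on w p)| := by
  have key : ∀ (s : ℕ) (e : s = r) (g : FR.Sm s r), (∀ (x : V s) (i : Fin r), g x i = x (Fin.cast e.symm i)) →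
      |cI s (Om.on w (p.cmp g))| = |cI r (Om.on w p)| := by
    rintro s rfl g hg
    have h1 : g = Sm.id s := Sm.ext fun x => funext fun i => hg x i
    rw [h1, cmp_id]
  refine key (0 + r) (Nat.zero_add r) (yn 0 r) fun x i => ?_
  change x (Fin.natAdd 0 i) = _
  congr 1
  exact Fin.ext (Nat.zero_add _)

theorem topE_zero_one : topE 0 (1 : Ex 0) = 1 := by
  have h := topE_vlE (k := 0)
  unfold vlE at h
  rwa [ExteriorAlgebra.ιMulti_zero_apply] at h

theorem cI_zero_algebraMap (c : ℝ) : cI 0 (algebraMap ℝ (Fm 0) c) = c := by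
  unfold cI
  have h1 : ∀ x : V 0, topE 0 (ev x (algebraMap ℝ (Fm 0) c)) = c := by
    intro x
    rw [AlgHom.commutes, Algebra.algebraMap_eq_smul_one, map_smul, topE_zero_one, smul_eq_mul, mul_one]
  simp only [h1]
  rw [setIntegral_const, smul_eq_mul]
  have h2 : (volume : Measure (V 0)).real (Icc (0 : V 0) 1) = 1 := by
    rw [Measure.real, Real.volume_Icc_pi]
    simp
  rw [h2, one_mul]

theorem Dg_Kn {j : ℕ} (r : ℕ) {θ : Fm (k + r)} (h : Dg (j + r) θ) : Dg j (Kn k r θ) := by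
  induction r with
  | zero => exact h
  | succ r ih => exact ih (Dg_KK h)

/-- the constant value of `Kn` -/
theorem Kn_const {r : ℕ} {θ : Fm (k + r)} (h0 : Dg r θ) (hd : dd k (Kn k r θ) = 0) :
    ∃ c : ℝ, Kn k r θ = algebraMap ℝ (Fm k) c ∧ |c| = |cI (0 + r) (pb (ptn k r) θ)| := by
  have hg : Dg 0 (Kn k r θ) := Dg_Kn r (by rwa [zero_add])
  refine ⟨_, const_of_closed hg hd, ?_⟩
  have h1 := pb_ptn_Kn r θ
  have h2 := const_of_closed hg hd
  obtain ⟨c, hc⟩ : ∃ c, c = (fn k (Kn k r θ) : V k → ℝ) 0 := ⟨_, rfl⟩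
  rw [← hc] at h2 ⊢
  have e : pb (ptn k 0) (algebraMap ℝ (Fm k) c) = algebraMap ℝ (Fm 0) c := AlgHom.commutes (pb (ptn k 0)) c
  rw [h2, e] at h1
  have h3 := abs_cI_Kn (k := 0) r (pb (ptn k r) θ)
  rw [← h1, cI_zero_algebraMap] at h3
  exact h3.symm

/-! ### Ranks along plots of the sphere -/

/-- near a point, a plot of the sphere factors through a plot on `ℝ^n` -/
theorem plot_fac (p : (spS n).Plot N) (x : V N) : ∃ R : (spS n).Plot n,
    (fun y => (R.1 y).1) =ᶠ[𝓝 (plVE p x)] nrm ∧ (p.1 =ᶠ[𝓝 x] (R.cmp (plVE p)).1) := by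
  have h0 : toE (plVE p x) ≠ 0 := by
    rw [plVE_apply, toE_toV, ← norm_ne_zero_iff, (p.1 x).2]
    exact one_ne_zero
  obtain ⟨R, hR⟩ := locPl_nrm h0
  refine ⟨R, hR, ?_⟩
  have hc : ContinuousAt (plVE p : V N → V n) x := (plVE p).smooth.continuous.continuousAt
  filter_upwards [hc.eventually hR] with y hy
  refine Subtype.ext ?_
  change (p.1 y).1 = (R.1 (plVE p y)).1
  rw [hy]
  unfold nrm
  rw [plVE_apply, toE_toV, (p.1 y).2, inv_one, one_smul]

/-- forms vanish on faces of small rank -/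
theorem top_face_on {j : ℕ} {w : Om (spS n)} (hw : Deg j w) (p : (spS n).Plot N) {i : Fin N} {x : V N}
    (h : rkF (fun x => (p.1 x).1) i x < j) : topE N (ee i * ev x (Om.on w p)) = 0 := by
  obtain ⟨R, _, hR⟩ := plot_fac p x
  rw [ev_on_congr w hR, on_cmp]
  exact top_face_zero (plVE p) (hw _ _) (by rw [rkF_plV]; exact h)

/-- forms vanish at points of small rank -/
theorem ev_on_zero {j : ℕ} {w : Om (spS n)} (hw : Deg j w) (p : (spS n).Plot N) {x : V N}
    (h : Module.finrank ℝ (LinearMap.range (fderiv ℝ (fun x => (p.1 x).1) x : V N →ₗ[ℝ] Eu n)) < j) :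
    ev x (Om.on w p) = 0 := by
  obtain ⟨R, _, hR⟩ := plot_fac p x
  rw [ev_on_congr w hR, on_cmp]
  refine ev_pb_zero (plVE p) (hw _ _) (lt_of_le_of_lt ?_ h)
  rw [fderiv_plV]
  have h2 : ((((PiLp.continuousLinearEquiv 2 ℝ (fun _ : Fin n => ℝ) : Eu n ≃L[ℝ] V n) : Eu n →L[ℝ] V n).comp
      (fderiv ℝ (fun x => (p.1 x).1) x) : V N →L[ℝ] V n) : V N →ₗ[ℝ] V n) =
      ((PiLp.continuousLinearEquiv 2 ℝ (fun _ : Fin n => ℝ) : Eu n ≃L[ℝ] V n).toLinearEquiv : Eu n →ₗ[ℝ] V n).comp
        (fderiv ℝ (fun x => (p.1 x).1) x : V N →ₗ[ℝ] Eu n) := rfl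
  rw [h2, LinearMap.range_comp]
  exact Submodule.finrank_map_le _ _

/-- a function which is smooth along plots: its derivative along a plot factors through the derivative of the plot -/
theorem fderiv_fac {G : Type*} [NormedAddCommGroup G] [NormedSpace ℝ G] {Q : (spS n).pt → G}
    (hQ : ∀ (k : ℕ) (p : (spS n).Plot k), ContDiff ℝ ∞ fun x => Q (p.1 x)) (p : (spS n).Plot N) (x : V N) :
    ∃ L : Eu n →L[ℝ] G, fderiv ℝ (fun x => Q (p.1 x)) x = L.comp (fderiv ℝ (fun x => (p.1 x).1) x) := by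
  obtain ⟨R, _, hR⟩ := plot_fac p x
  have h1 : (fun x => Q (p.1 x)) =ᶠ[𝓝 x] fun x => Q (R.1 (plVE p x)) := by
    filter_upwards [hR] with y hy
    rw [hy]
    rfl
  have h2 : HasFDerivAt (fun x => Q (R.1 (plVE p x))) ((fderiv ℝ (fun y => Q (R.1 y)) (plVE p x)).comp
      (fderiv ℝ (plVE p : V N → V n) x)) x :=
    ((hQ _ R).differentiable (by simp) _).hasFDerivAt.comp x ((plVE p).diff x).hasFDerivAt
  rw [h1.fderiv_eq, h2.fderiv, fderiv_plV]
  exact ⟨(fderiv ℝ (fun y => Q (R.1 y)) (plVE p x)).comp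
    ((PiLp.continuousLinearEquiv 2 ℝ (fun _ : Fin n => ℝ) : Eu n ≃L[ℝ] V n) : Eu n →L[ℝ] V n), rfl⟩

end Pool.Agent.Lib.MP_ccbbf6_gt.L5
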