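import Pool.Agent.Lib.MP_ccbbf6_gt.L4.FXb
import Pool.Agent.Lib.MP_ccbbf6_gt.L5.EPS05

/-!
# Level 5, block EPS, part 9: data of the fibration, cones
-/

set_option autoImplicit false

open Set Filter Topology MeasureTheory Metric
open scoped ContDiff

noncomputable section

namespace Pool.Agent.Lib.MP_ccbbf6_gt.L5

open Geo L4 L4.FR

variable {k l n N r : ℕ}

/-- smooth fibration of the sphere by great `r`-spheres (projections to the `(r + 1)`-planes) -/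
structure Fib (n r : ℕ) where
  Q : (spS n).pt → Eu n →L[ℝ] Eu n
  sm : ∀ (k : ℕ) (p : (spS n).Plot k), ContDiff ℝ ∞ fun x => Q (p.1 x)
  idem : ∀ ξ, (Q ξ).comp (Q ξ) = Q ξ
  self : ∀ ξ : (spS n).pt, Q ξ ξ.1 = ξ.1
  inv : ∀ ξ η : (spS n).pt, Q ξ η.1 = η.1 → Q η = Q ξ
  rank : ∀ ξ, Module.finrank ℝ (LinearMap.range (Q ξ : Eu n →ₗ[ℝ] Eu n)) ≤ r + 1

/-- an isometric linear map on unit spheres -/
def LS (L : Eu l →L[ℝ] Eu n) (hL : ∀ v, ‖L v‖ = ‖v‖) : SMap (spS l) (spS n) :=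
  ⟨fun ξ => ⟨L ξ.1, by rw [hL, ξ.2]⟩, fun _ p => L.contDiff.comp (show ContDiff ℝ ∞ _ from p.2)⟩

/-- the forms of the fibration -/
structure FibForm (F : Fib n r) (ψ h : Om (spS n)) : Prop where
  odd : Odd r
  two : 2 ≤ r
  d : dO (spS n) ψ = h
  deg : Deg r ψ
  basic : ∀ (k : ℕ) (p q : (spS n).Plot k), (∀ x, F.Q (p.1 x) (q.1 x).1 = (q.1 x).1) → Om.on h p = Om.on h q
  norm : ∀ ξ, ∃ (L : Eu (r + 1) →L[ℝ] Eu n) (hL : ∀ v, ‖L v‖ = ‖v‖), (F.Q ξ).comp L = L ∧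
    |JS ((LS L hL).pull ψ)| = 1

variable {F : Fib n r} {ψ h : Om (spS n)}

theorem FibForm.degh (H : FibForm F ψ h) : Deg (r + 1) h := by
  rw [← H.d]
  exact Deg_d H.deg

theorem FibForm.dh (H : FibForm F ψ h) : dO (spS n) h = 0 := by
  rw [← H.d, d_d]

theorem FibForm.dpow (H : FibForm F ψ h) (j : ℕ) : dO (spS n) (h ^ j) = 0 := by
  induction j with
  | zero => rw [pow_zero, d_one]
  | succ j ih => rw [pow_succ, d_mul, ih, H.dh, zero_mul, mul_zero, add_zero]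

theorem FibForm.dpsi (H : FibForm F ψ h) (j : ℕ) : dO (spS n) (ψ * h ^ j) = h ^ (j + 1) := by
  rw [d_mul, H.dpow, mul_zero, add_zero, H.d, pow_succ']

theorem FibForm.degpsi (H : FibForm F ψ h) (j : ℕ) : Deg ((r + 1) * j + r) (ψ * h ^ j) := by
  have := Deg_mul H.deg (Deg_pow H.degh j)
  rwa [add_comm] at this

theorem FibForm.spow (H : FibForm F ψ h) (j : ℕ) : sO (spS n) (h ^ j) = h ^ j := by
  obtain ⟨s, hs⟩ := H.odd
  refine Deg_even (j := (s + 1) * j) ?_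
  have h1 := Deg_pow H.degh j
  have h2 : (r + 1) * j = 2 * ((s + 1) * j) := by
    rw [hs]
    ring
  rwa [h2] at h1

/-! ### The cone -/

section cone

/-- normalisation -/
theorem contDiff_nz {E : Type*} [NormedAddCommGroup E] [NormedSpace ℝ E] {g : E → Eu n} (hg : ContDiff ℝ ∞ g)
    (h0 : ∀ x, g x ≠ 0) : ContDiff ℝ ∞ fun x => ‖g x‖⁻¹ • g x :=
  ((hg.norm ℝ h0).inv fun x => norm_ne_zero_iff.2 (h0 x)).smul hg

/-- a smooth map without zeros as a plot of the sphere -/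
def nzP {g : V k → Eu n} (hg : ContDiff ℝ ∞ g) (h0 : ∀ x, g x ≠ 0) : (spS n).Plot k :=
  ⟨fun x => ⟨‖g x‖⁻¹ • g x, by rw [norm_smul, norm_inv, norm_norm, inv_mul_cancel₀ (norm_ne_zero_iff.2 (h0 x))]⟩,
    contDiff_nz hg h0⟩

theorem nzP_apply {g : V k → Eu n} (hg : ContDiff ℝ ∞ g) (h0 : ∀ x, g x ≠ 0) (x : V k) :
    ((nzP hg h0).1 x).1 = ‖g x‖⁻¹ • g x := rfl

/-- the derivative of the normalisation factors -/
theorem fderiv_nzP {g : V k → Eu n} (hg : ContDiff ℝ ∞ g) (h0 : ∀ x, g x ≠ 0) (x : V k) :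
    ∃ L : Eu n →L[ℝ] Eu n, fderiv ℝ (fun x => ((nzP hg h0).1 x).1) x = L.comp (fderiv ℝ g x) := by
  have h1 : ContDiffAt ℝ ∞ (fun v : Eu n => ‖v‖⁻¹ • v) (g x) :=
    ((contDiffAt_norm ℝ (h0 x)).inv (norm_ne_zero_iff.2 (h0 x))).smul contDiffAt_id
  have h2 : HasFDerivAt ((fun v : Eu n => ‖v‖⁻¹ • v) ∘ g) ((fderiv ℝ (fun v : Eu n => ‖v‖⁻¹ • v) (g x)).comp
      (fderiv ℝ g x)) x :=
    (h1.differentiableAt (by simp)).hasFDerivAt.comp x (hg.differentiable (by simp) x).hasFDerivAt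
  exact ⟨_, h2.fderiv⟩

theorem rkF_nzP {g : V k → Eu n} (hg : ContDiff ℝ ∞ g) (h0 : ∀ x, g x ≠ 0) (i : Fin k) (x : V k) :
    rkF (fun x => ((nzP hg h0).1 x).1) i x ≤ rkF g i x := by
  obtain ⟨L, hL⟩ := fderiv_nzP hg h0 x
  unfold rkF
  rw [hL]
  have h2 : ((L.comp (fderiv ℝ g x) : V k →L[ℝ] Eu n) : V k →ₗ[ℝ] Eu n) =
      (L : Eu n →ₗ[ℝ] Eu n).comp (fderiv ℝ g x : V k →ₗ[ℝ] Eu n) := rfl
  rw [h2, Submodule.map_comp]
  exact Submodule.finrank_map_le _ _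

variable (p : (spS n).Plot N) (a : Eu n)

/-- segments from the plot to `a` -/
def seg (x : V (N + 1)) : Eu n :=
  (1 - Real.smoothTransition (x (Fin.last N))) • (p.1 (pr N x)).1 + Real.smoothTransition (x (Fin.last N)) • a

theorem contDiff_seg : ContDiff ℝ ∞ (seg p a) := by
  have h1 : ContDiff ℝ ∞ fun x : V (N + 1) => Real.smoothTransition (x (Fin.last N)) :=
    Real.smoothTransition.contDiff.comp (contDiff_apply ℝ ℝ (Fin.last N))
  have h2 : ContDiff ℝ ∞ fun x : V (N + 1) => (p.1 (pr N x)).1 := (show ContDiff ℝ ∞ _ from p.2).comp (pr N).smooth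
  exact ((contDiff_const.sub h1).smul h2).add (h1.smul contDiff_const)

variable {a}

theorem seg_ne (ha : ‖a‖ = 1) (hna : ∀ w, (p.1 w).1 ≠ -a) (x : V (N + 1)) : seg p a x ≠ 0 := by
  intro h0
  unfold seg at h0
  set t := Real.smoothTransition (x (Fin.last N)) with ht
  have ht0 : 0 ≤ t := Real.smoothTransition.nonneg _
  have ht1 : t ≤ 1 := Real.smoothTransition.le_one _
  have h1 : (1 - t) • (p.1 (pr N x)).1 = -(t • a) := eq_neg_of_add_eq_zero_left h0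
  have h2 := congrArg norm h1
  rw [norm_smul, norm_neg, norm_smul, (p.1 (pr N x)).2, ha, mul_one, mul_one, Real.norm_eq_abs, Real.norm_eq_abs,
    abs_of_nonneg ht0, abs_of_nonneg (by linarith)] at h2
  have h3 : t = 1 / 2 := by linarith
  apply hna (pr N x)
  rw [h3] at h1
  have h4 : ((1 : ℝ) - 1 / 2) = 1 / 2 := by norm_num
  rw [h4, ← smul_neg] at h1
  exact smul_right_injective _ (by norm_num : (1 / 2 : ℝ) ≠ 0) h1

/-- the cone over a plot with vertex `a` -/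
def cone (ha : ‖a‖ = 1) (hna : ∀ w, (p.1 w).1 ≠ -a) : (spS n).Plot (N + 1) :=
  nzP (contDiff_seg p a) (seg_ne p ha hna)

theorem cone_zero (ha : ‖a‖ = 1) (hna : ∀ w, (p.1 w).1 ≠ -a) {x : V (N + 1)} (hx : x (Fin.last N) = 0) :
    (cone p ha hna).1 x = p.1 (pr N x) := by
  refine Subtype.ext ?_
  unfold cone
  rw [nzP_apply]
  have h1 : seg p a x = (p.1 (pr N x)).1 := by
    unfold seg
    rw [hx, Real.smoothTransition.zero, sub_zero, one_smul, zero_smul, add_zero]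
  rw [h1, (p.1 (pr N x)).2, inv_one, one_smul]

theorem cone_one (ha : ‖a‖ = 1) (hna : ∀ w, (p.1 w).1 ≠ -a) {x : V (N + 1)} (hx : x (Fin.last N) = 1) :
    ((cone p ha hna).1 x).1 = a := by
  unfold cone
  rw [nzP_apply]
  have h1 : seg p a x = a := by
    unfold seg
    rw [hx, Real.smoothTransition.one, sub_self, one_smul, zero_smul, zero_add]
  rw [h1, ha, inv_one, one_smul]

/-- the rank on the lateral faces of the cone -/
theorem rkF_cone (ha : ‖a‖ = 1) (hna : ∀ w, (p.1 w).1 ≠ -a) (i : Fin N) (x : V (N + 1)) :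
    rkF (fun x => ((cone p ha hna).1 x).1) i.castSucc x ≤ rkF (fun x => (p.1 x).1) i (pr N x) + 1 := by
  refine (rkF_nzP _ _ _ _).trans ?_
  set τ : V (N + 1) → ℝ := fun x => Real.smoothTransition (x (Fin.last N)) with hτ
  have hτs : ContDiff ℝ ∞ τ := Real.smoothTransition.contDiff.comp (contDiff_apply ℝ ℝ (Fin.last N))
  have h1 : HasFDerivAt τ (fderiv ℝ τ x) x := (hτs.differentiable (by simp) x).hasFDerivAt
  have hp : DifferentiableAt ℝ (fun w => (p.1 w).1) (pr N x) := (show ContDiff ℝ ∞ _ from p.2).differentiable (by simp) _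
  have h2 : HasFDerivAt ((fun w => (p.1 w).1) ∘ (pr N : V (N + 1) → V N))
      ((fderiv ℝ (fun w => (p.1 w).1) (pr N x)).comp (prL N)) x := hp.hasFDerivAt.comp x (hasFDerivAt_pr x)
  have h3 := ((h1.const_sub 1).smul h2).add (h1.smul_const a)
  have h4 : HasFDerivAt (seg p a) _ x := h3
  have hb : ((LinearMap.ker (LinearMap.proj i.castSucc : V (N + 1) →ₗ[ℝ] ℝ)).map
      (fderiv ℝ (seg p a) x : V (N + 1) →ₗ[ℝ] Eu n)) ≤
      ((LinearMap.ker (LinearMap.proj i : V N →ₗ[ℝ] ℝ)).map (fderiv ℝ (fun w => (p.1 w).1) (pr N x) : V N →ₗ[ℝ] Eu n)) ⊔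
        Submodule.span ℝ {a - (p.1 (pr N x)).1} := by
    rintro _ ⟨v, hv, rfl⟩
    change fderiv ℝ (seg p a) x v ∈ _
    have h5 : fderiv ℝ (seg p a) x v = (1 - τ x) • fderiv ℝ (fun w => (p.1 w).1) (pr N x) (pr N v) +
        (fderiv ℝ τ x v) • (a - (p.1 (pr N x)).1) := by
      rw [h4.fderiv]
      simp only [_root_.add_apply, ContinuousLinearMap.smulRight_apply, _root_.smul_apply, _root_.neg_apply]
      rw [smul_sub, neg_smul]
      change (1 - τ x) • fderiv ℝ (fun w => (p.1 w).1) (pr N x) (pr N v) + -(fderiv ℝ τ x v • (p.1 (pr N x)).1) +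
        fderiv ℝ τ x v • a = _
      abel
    rw [h5]
    refine Submodule.add_mem_sup (Submodule.smul_mem _ _ ?_) (Submodule.smul_mem _ _ (Submodule.mem_span_singleton_self _))
    exact ⟨pr N v, hv, rfl⟩
  refine (Submodule.finrank_mono hb).trans ((Submodule.finrank_add_le_finrank_add_finrank _ _).trans ?_)
  refine Nat.add_le_add_left ((finrank_span_le_card (R := ℝ) ({a - (p.1 (pr N x)).1} : Set (Eu n))).trans ?_) _
  simp

/-- existence of a vertex -/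
theorem exists_vertex (hN : N + 1 < n) : ∃ a : Eu n, ‖a‖ = 1 ∧ ∀ w, (p.1 w).1 ≠ -a := by
  have h1 : ContDiff ℝ 1 fun x : V (N + 1) => x (Fin.last N) • (p.1 (pr N x)).1 :=
    ((contDiff_apply ℝ ℝ (Fin.last N)).smul ((show ContDiff ℝ ∞ _ from p.2).comp (pr N).smooth)).of_le ENat.LEInfty.out
  have h2 : Module.finrank ℝ (V (N + 1)) < Module.finrank ℝ (Eu n) := by
    rw [Module.finrank_fin_fun, finrank_euclideanSpace_fin]
    exact hN
  have h3 := h1.dense_compl_range_of_finrank_lt_finrank h2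
  obtain ⟨b, hb⟩ := h3.nonempty
  have hb0 : b ≠ 0 := by
    rintro rfl
    exact hb ⟨0, by simp⟩
  refine ⟨-(‖b‖⁻¹ • b), by rw [norm_neg, norm_smul, norm_inv, norm_norm, inv_mul_cancel₀ (norm_ne_zero_iff.2 hb0)],
    fun w hw => ?_⟩
  rw [neg_neg] at hw
  apply hb
  refine ⟨Fin.snoc w ‖b‖, ?_⟩
  change (Fin.snoc w ‖b‖ : V (N + 1)) (Fin.last N) • (p.1 (pr N (Fin.snoc w ‖b‖))).1 = b
  rw [Fin.snoc_last, pr_snoc, hw, smul_smul, mul_inv_cancel₀ (norm_ne_zero_iff.2 hb0), one_smul]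

end cone

end Pool.Agent.Lib.MP_ccbbf6_gt.L5
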