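import Pool.Agent.Lib.MP_ccbbf6_gt.L5.EPS06
import Pool.Agent.Lib.MP_ccbbf6_gt.L5.EPS08
import Pool.Agent.Lib.MP_ccbbf6_gt.L5.EPS09

/-!
# Level 5, block EPS, part 10: the tower, the theorem `k * ∫ ψ h^(m-1) = ± 1`
-/

set_option autoImplicit false

open Set Filter Topology MeasureTheory Metric
open scoped ContDiff

noncomputable section

namespace Pool.Agent.Lib.MP_ccbbf6_gt.L5

open Geo L4 L4.FR

variable {k l n N r : ℕ} {F : Fib n r} {ψ h : Om (spS n)}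

/-! ### The bundle step -/

section bundle

variable (C : (spS n).Plot k) (κ : FR.Sm k k) (B : V k → Eu (r + 1) →L[ℝ] Eu n)

/-- the values `B(z) s(y)` -/
def bv (x : V (k + r)) : Eu n := B (prn k r x) (Col.s (yn k r x))

variable {B}

theorem contDiff_bv (hB : ContDiff ℝ ∞ B) : ContDiff ℝ ∞ (bv B) :=
  (hB.comp (prn k r).smooth).clm_apply (Col.contDiff_s.comp (yn k r).smooth)

theorem bv_ne (hB0 : ∀ z a, B z a = 0 → a = 0) (x : V (k + r)) : bv B x ≠ 0 := by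
  intro h0
  have h1 := hB0 _ _ h0
  have h2 := Col.norm_s (yn k r x)
  rw [h1, norm_zero] at h2
  exact zero_ne_one h2

/-- the next plot -/
def nx (hB : ContDiff ℝ ∞ B) (hB0 : ∀ z a, B z a = 0 → a = 0) : (spS n).Plot (k + r) := nzP (contDiff_bv hB) (bv_ne hB0)

/-- the common value on the faces -/
def sinf (r : ℕ) : Eu (r + 1) := toE (Fin.snoc 0 1 : V (r + 1))

theorem norm_sinf (r : ℕ) : ‖sinf r‖ = 1 := by
  have h1 : ‖sinf r‖ ^ 2 = 1 := by
    rw [EuclideanSpace.norm_sq_eq, Fin.sum_univ_castSucc]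
    have e1 : ∀ i : Fin r, (sinf r) i.castSucc = 0 := fun i => Fin.snoc_castSucc (α := fun _ => ℝ) _ _ i
    have e2 : (sinf r) (Fin.last r) = 1 := Fin.snoc_last (α := fun _ => ℝ) _ _
    rw [e2]
    simp [e1]
  have h2 := norm_nonneg (sinf r)
  nlinarith [sq_nonneg (‖sinf r‖ - 1), sq_nonneg (‖sinf r‖ + 1)]

/-- the plot of the values on the faces -/
def fb (hB : ContDiff ℝ ∞ B) (hB0 : ∀ z a, B z a = 0 → a = 0) : (spS n).Plot k :=
  nzP (g := fun z => B z (sinf r)) (hB.clm_apply contDiff_const) (fun z h0 => by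
    have h1 := hB0 _ _ h0
    have h2 := norm_sinf r
    rw [h1, norm_zero] at h2
    exact zero_ne_one h2)

theorem nx_face (hB : ContDiff ℝ ∞ B) (hB0 : ∀ z a, B z a = 0 → a = 0) {i : Fin r} {c : ℝ} (hc : c = 0 ∨ c = 1) :
    (nx hB hB0).cmp (rho k c r i) = (fb hB hB0).cmp (prn k r) := by
  refine Plot_ext fun u => Subtype.ext ?_
  change ‖bv B (rho k c r i u)‖⁻¹ • bv B (rho k c r i u) = ‖B (prn k r u) (sinf r)‖⁻¹ • B (prn k r u) (sinf r)
  have h3 : bv B (rho k c r i u) = B (prn k r u) (sinf r) := by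
    unfold bv
    rw [prn_rho, Col.s_face (i := i) (by rw [yn_rho]; exact hc)]
    rfl
  rw [h3]

variable {C κ}

/-- the next plot is in the fibre over the base plot -/
theorem Q_nx (hB : ContDiff ℝ ∞ B) (hB0 : ∀ z a, B z a = 0 → a = 0)
    (hQB : ∀ z, (F.Q (C.1 (κ z))).comp (B z) = B z) (x : V (k + r)) :
    F.Q ((C.cmp κ).1 (prn k r x)) ((nx hB hB0).1 x).1 = ((nx hB hB0).1 x).1 := by
  change F.Q (C.1 (κ (prn k r x))) (‖bv B x‖⁻¹ • bv B x) = ‖bv B x‖⁻¹ • bv B x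
  rw [map_smul]
  congr 1
  exact congrArg (fun L : Eu (r + 1) →L[ℝ] Eu n => L (Col.s (yn k r x))) (hQB (prn k r x))

theorem on_h_nx (H : FibForm F ψ h) (hB : ContDiff ℝ ∞ B) (hB0 : ∀ z a, B z a = 0 → a = 0)
    (hQB : ∀ z, (F.Q (C.1 (κ z))).comp (B z) = B z) :
    Om.on h (nx hB hB0) = pb (prn k r) (Om.on h (C.cmp κ)) := by
  rw [← on_cmp]
  exact (H.basic _ ((C.cmp κ).cmp (prn k r)) (nx hB hB0) (fun x => Q_nx hB hB0 hQB x)).symm

/-- the fibre integral of `ψ` is constant, equal to `± 1` -/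
theorem Kn_nx (H : FibForm F ψ h) (hB : ContDiff ℝ ∞ B) (hB0 : ∀ z a, B z a = 0 → a = 0)
    (hQB : ∀ z, (F.Q (C.1 (κ z))).comp (B z) = B z) {L : Eu (r + 1) →L[ℝ] Eu n} (hL : ∀ v, ‖L v‖ = ‖v‖) (hBL : B 0 = L)
    (hJ : |JS ((LS L hL).pull ψ)| = 1) :
    ∃ c : ℝ, Kn k r (Om.on ψ (nx hB hB0)) = algebraMap ℝ (Fm k) c ∧ |c| = 1 := by
  have hd : dd (k + r) (Om.on ψ (nx hB hB0)) = pb (prn k r) (Om.on h (C.cmp κ)) := by
    rw [← on_h_nx H hB hB0 hQB, ← on_d, H.d]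
  have hdK : dd k (Kn k r (Om.on ψ (nx hB hB0))) = 0 := by
    have h2 := H.two
    refine dd_Kn (by omega) (β := Om.on ψ (fb hB hB0)) hd fun i c hc => ?_
    rw [← on_cmp, nx_face hB hB0 hc, on_cmp]
  obtain ⟨c, hc, hc2⟩ := Kn_const (H.deg _ _) hdK
  refine ⟨c, hc, ?_⟩
  rw [hc2, ← on_cmp]
  have h1 : (nx hB hB0).cmp (ptn k r) = ((LS L hL).pl (Col.P r)).cmp (yn 0 r) := by
    refine Plot_ext fun y => Subtype.ext ?_
    change ‖bv B (ptn k r y)‖⁻¹ • bv B (ptn k r y) = L (Col.s (yn 0 r y))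
    have h2 : bv B (ptn k r y) = L (Col.s (yn 0 r y)) := by
      unfold bv
      rw [prn_ptn, yn_ptn, hBL]
    rw [h2, hL, Col.norm_s, inv_one, one_smul]
  rw [h1, abs_cI_cast]
  obtain ⟨σ, hσ, hσ2⟩ := Col.cI_P (N := r) H.two
  have h3 := hσ2 ((LS L hL).pull ψ)
  rw [on_pull] at h3
  rw [h3, abs_mul, hJ, mul_one]
  rcases hσ with rfl | rfl <;> simp

end bundle

/-! ### The tower -/

/-- the `j`-th level of the tower -/
structure TW (F : Fib n r) (ψ h : Om (spS n)) (j d : ℕ) (p : (spS n).Plot d) : Prop where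
  hd : d = (r + 1) * j + r
  int : |cI d (Om.on (ψ * h ^ j) p)| = 1
  face : ∀ i, ∀ x ∈ Icc (0 : V d) 1, (x i = 0 ∨ x i = 1) → rkF (fun x => (p.1 x).1) i x ≤ (r + 1) * j
  rk : ∀ x ∈ Icc (0 : V d) 1,
    Module.finrank ℝ (LinearMap.range (fderiv ℝ (fun x => F.Q (p.1 x)) x : V d →ₗ[ℝ] Eu n →L[ℝ] Eu n)) ≤ (r + 1) * j

theorem TW_zero (H : FibForm F ψ h) (ξ : (spS n).pt) : ∃ p : (spS n).Plot r, TW F ψ h 0 r p := by
  obtain ⟨L, hL, hQL, hJ⟩ := H.norm ξ
  obtain ⟨σ, hσ, hσ2⟩ := Col.cI_P (N := r) H.two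
  refine ⟨(LS L hL).pl (Col.P r), by omega, ?_, fun i x _ hx => ?_, fun x _ => ?_⟩
  · have h3 := hσ2 ((LS L hL).pull ψ)
    rw [on_pull] at h3
    rw [pow_zero, mul_one, h3, abs_mul, hJ, mul_one]
    rcases hσ with rfl | rfl <;> simp
  · have h1 : fderiv ℝ (fun x => (((LS L hL).pl (Col.P r)).1 x).1) x = L.comp (fderiv ℝ (fun x => ((Col.P r).1 x).1) x) := by
      have h2 : HasFDerivAt (L ∘ fun x => ((Col.P r).1 x).1) (L.comp (fderiv ℝ (fun x => ((Col.P r).1 x).1) x)) x :=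
        L.hasFDerivAt.comp x ((show ContDiff ℝ ∞ _ from (Col.P r).2).differentiable (by simp) x).hasFDerivAt
      exact h2.fderiv
    have h2 := Col.rkF_P (N := r) hx
    unfold rkF at h2 ⊢
    rw [h1]
    have h3 : ((L.comp (fderiv ℝ (fun x => ((Col.P r).1 x).1) x) : V r →L[ℝ] Eu n) : V r →ₗ[ℝ] Eu n) =
        (L : Eu (r + 1) →ₗ[ℝ] Eu n).comp (fderiv ℝ (fun x => ((Col.P r).1 x).1) x : V r →ₗ[ℝ] Eu (r + 1)) := rfl
    rw [h3, Submodule.map_comp]
    exact (Submodule.finrank_map_le _ _).trans (by rw [h2]; omega)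
  · have h1 : (fun x => F.Q (((LS L hL).pl (Col.P r)).1 x)) = fun _ => F.Q ξ := by
      funext y
      refine F.inv ξ _ ?_
      change F.Q ξ (L (Col.s y)) = L (Col.s y)
      exact congrArg (fun T : Eu (r + 1) →L[ℝ] Eu n => T (Col.s y)) hQL
    rw [h1, fderiv_fun_const]
    have h2 : LinearMap.range ((0 : V r →L[ℝ] Eu n →L[ℝ] Eu n) : V r →ₗ[ℝ] Eu n →L[ℝ] Eu n) = ⊥ := by
      rw [LinearMap.range_eq_bot]
      rfl
    refine (congrArg (fun T : Submodule ℝ (Eu n →L[ℝ] Eu n) => Module.finrank ℝ T) h2).le.trans ?_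
    rw [finrank_bot]
    omega

/-- derivative along a slice -/
theorem fderiv_slice {G : Type*} [NormedAddCommGroup G] [NormedSpace ℝ G] {f : V (k + 1) → G} {z : V (k + 1)}
    (hf : DifferentiableAt ℝ f z) {v : V (k + 1)} (hv : v (Fin.last k) = 0) :
    fderiv ℝ f z v = fderiv ℝ (fun u : V k => f (Fin.snoc u (z (Fin.last k)))) (pr k z) (pr k v) := by
  let I : V k →L[ℝ] V (k + 1) := ContinuousLinearMap.pi fun j =>
    Fin.lastCases (motive := fun _ => V k →L[ℝ] ℝ) 0 (fun i => ContinuousLinearMap.proj (R := ℝ) (φ := fun _ : Fin k => ℝ) i) j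
  have hI : ∀ u : V k, I u = Fin.snoc u 0 := by
    intro u
    funext j
    refine Fin.lastCases ?_ (fun i => ?_) j
    · rw [Fin.snoc_last]
      change (Fin.lastCases (motive := fun _ => V k →L[ℝ] ℝ) 0 (fun i => ContinuousLinearMap.proj (R := ℝ)
        (φ := fun _ : Fin k => ℝ) i) (Fin.last k) : V k →L[ℝ] ℝ) u = 0
      rw [Fin.lastCases_last]
      rfl
    · rw [Fin.snoc_castSucc]
      change (Fin.lastCases (motive := fun _ => V k →L[ℝ] ℝ) 0 (fun i => ContinuousLinearMap.proj (R := ℝ)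
        (φ := fun _ : Fin k => ℝ) i) i.castSucc : V k →L[ℝ] ℝ) u = u i
      rw [Fin.lastCases_castSucc]
      rfl
  have h1 : (fun u : V k => (Fin.snoc u (z (Fin.last k)) : V (k + 1))) = fun u => I u + (Fin.snoc 0 (z (Fin.last k)) : V (k + 1)) := by
    funext u
    rw [hI]
    funext j
    refine Fin.lastCases ?_ (fun i => ?_) j
    · simp
    · simp
  have h2 : HasFDerivAt (fun u : V k => (Fin.snoc u (z (Fin.last k)) : V (k + 1))) I (pr k z) := by
    rw [h1]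
    exact I.hasFDerivAt.add_const _
  have h3 : HasFDerivAt f (fderiv ℝ f z) ((fun u : V k => (Fin.snoc u (z (Fin.last k)) : V (k + 1))) (pr k z)) := by
    change HasFDerivAt f (fderiv ℝ f z) (Fin.snoc (pr k z) (z (Fin.last k)))
    rw [snoc_pr]
    exact hf.hasFDerivAt
  have h4 : HasFDerivAt (f ∘ fun u : V k => (Fin.snoc u (z (Fin.last k)) : V (k + 1))) ((fderiv ℝ f z).comp I) (pr k z) :=
    h3.comp (pr k z) h2
  have h5 : fderiv ℝ (fun u : V k => f (Fin.snoc u (z (Fin.last k)))) (pr k z) = (fderiv ℝ f z).comp I := h4.fderiv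
  rw [h5, ContinuousLinearMap.comp_apply, hI]
  congr 1
  have h6 := snoc_pr v
  rw [hv] at h6
  exact h6.symm

end Pool.Agent.Lib.MP_ccbbf6_gt.L5
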