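import Pool.Agent.Lib.MP_ccbbf6_gt.L5.EPS07
import Pool.Agent.Lib.MP_ccbbf6_gt.L5.EPS10

/-!
# Level 5, block EPS, part 11: the step of the tower, the theorem `|k * ∫ ψ h^(m-1)| = 1`
-/

set_option autoImplicit false

open Set Filter Topology MeasureTheory Metric
open scoped ContDiff

noncomputable section

namespace Pool.Agent.Lib.MP_ccbbf6_gt.L5

open Geo L4 L4.FR

variable {k l n N r : ℕ} {F : Fib n r} {ψ h : Om (spS n)}

/-- `prn` as a continuous linear map -/
def prnL (k r : ℕ) : V (k + r) →L[ℝ] V k :=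
  ContinuousLinearMap.pi fun i : Fin k => ContinuousLinearMap.proj (R := ℝ) (φ := fun _ : Fin (k + r) => ℝ) (Fin.castAdd r i)

theorem prnL_apply (v : V (k + r)) (i : Fin k) : prnL k r v i = v (Fin.castAdd r i) := rfl

theorem hasFDerivAt_prn (x : V (k + r)) : HasFDerivAt (prn k r : V (k + r) → V k) (prnL k r) x := by
  have h1 : (prn k r : V (k + r) → V k) = prnL k r := by
    funext y i
    rw [prn_apply]
    rfl
  rw [h1]
  exact (prnL k r).hasFDerivAt

/-- `yn` as a continuous linear map -/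
def ynL (k r : ℕ) : V (k + r) →L[ℝ] V r :=
  ContinuousLinearMap.pi fun i : Fin r => ContinuousLinearMap.proj (R := ℝ) (φ := fun _ : Fin (k + r) => ℝ) (Fin.natAdd k i)

theorem hasFDerivAt_yn (x : V (k + r)) : HasFDerivAt (yn k r : V (k + r) → V r) (ynL k r) x := (ynL k r).hasFDerivAt

theorem prn_cube {x : V (k + r)} (hx : x ∈ Icc (0 : V (k + r)) 1) : prn k r x ∈ Icc (0 : V k) 1 :=
  ⟨fun i => by rw [prn_apply]; exact hx.1 (Fin.castAdd r i), fun i => by rw [prn_apply]; exact hx.2 (Fin.castAdd r i)⟩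

theorem pr_cube {x : V (k + 1)} (hx : x ∈ Icc (0 : V (k + 1)) 1) : pr k x ∈ Icc (0 : V k) 1 :=
  ⟨fun i => hx.1 i.castSucc, fun i => hx.2 i.castSucc⟩

theorem snoc_cube {w : V k} (hw : w ∈ Icc (0 : V k) 1) {c : ℝ} (hc : c = 0 ∨ c = 1) :
    (Fin.snoc w c : V (k + 1)) ∈ Icc (0 : V (k + 1)) 1 := by
  constructor
  · intro i
    refine Fin.lastCases ?_ (fun i => ?_) i
    · rw [Fin.snoc_last]
      rcases hc with rfl | rfl
      · exact le_rfl
      · exact zero_le_one
    · rw [Fin.snoc_castSucc]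
      exact hw.1 i
  · intro i
    refine Fin.lastCases ?_ (fun i => ?_) i
    · rw [Fin.snoc_last]
      rcases hc with rfl | rfl
      · exact zero_le_one
      · exact le_rfl
    · rw [Fin.snoc_castSucc]
      exact hw.2 i

/-- ranks of `B(z) s(y)` on the faces `y_i = 0, 1` -/
theorem rkF_bv {B : V k → Eu (r + 1) →L[ℝ] Eu n} (hB : ContDiff ℝ ∞ B) {i : Fin r} {x : V (k + r)}
    (hx : x (Fin.natAdd k i) = 0 ∨ x (Fin.natAdd k i) = 1) : rkF (bv B) (Fin.natAdd k i) x ≤ k := by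
  have h1 : HasFDerivAt (fun x => B (prn k r x)) ((fderiv ℝ B (prn k r x)).comp (prnL k r)) x :=
    (hB.differentiable (by simp) _).hasFDerivAt.comp x (hasFDerivAt_prn x)
  have h2 : HasFDerivAt (fun x => (Col.s (yn k r x) : Eu (r + 1))) ((fderiv ℝ (Col.s : V r → Eu (r + 1)) (yn k r x)).comp (ynL k r)) x :=
    (Col.contDiff_s.differentiable (by simp) _).hasFDerivAt.comp x (hasFDerivAt_yn x)
  have h3 := h1.clm_apply h2
  have h4 : HasFDerivAt (bv B) _ x := h3
  let M : V k →ₗ[ℝ] Eu n :=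
    { toFun := fun u => (fderiv ℝ B (prn k r x) u) (Col.s (yn k r x))
      map_add' := fun u v => by rw [map_add]; rfl
      map_smul' := fun r u => by rw [map_smul]; rfl }
  have hb : ((LinearMap.ker (LinearMap.proj (Fin.natAdd k i) : V (k + r) →ₗ[ℝ] ℝ)).map
      (fderiv ℝ (bv B) x : V (k + r) →ₗ[ℝ] Eu n)) ≤ LinearMap.range M := by
    rintro _ ⟨v, hv, rfl⟩
    have hv' : v (Fin.natAdd k i) = 0 := hv
    change fderiv ℝ (bv B) x v ∈ _
    rw [h4.fderiv]
    have h5 : fderiv ℝ (Col.s : V r → Eu (r + 1)) (yn k r x) (ynL k r v) = 0 := Col.fderiv_s_face (i := i) hx hv'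
    simp only [_root_.add_apply, ContinuousLinearMap.comp_apply, ContinuousLinearMap.flip_apply, h5, map_zero, zero_add]
    exact ⟨prnL k r v, rfl⟩
  refine (Submodule.finrank_mono hb).trans ((LinearMap.finrank_range_le M).trans ?_)
  rw [Module.finrank_fin_fun]

/-- **the step** -/
theorem TW_succ (H : FibForm F ψ h) {j d : ℕ} {p : (spS n).Plot d} (T : TW F ψ h j d p) (hdn : d + 1 < n) :
    ∃ p' : (spS n).Plot (d + 1 + r), TW F ψ h (j + 1) (d + 1 + r) p' := by
  obtain ⟨a, ha, hna⟩ := exists_vertex p hdn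
  set C := cone p ha hna with hC
  obtain ⟨L, hL, hQL, hJ⟩ := H.norm (C.1 0)
  obtain ⟨κ, B, hκ, hB, hBL, hQB, hB0⟩ := exists_frame (Q := fun z => F.Q (C.1 z)) (F.sm _ C) (fun z => F.idem _)
    (L0 := L) hQL (fun v hv => by rw [← norm_eq_zero, ← hL, hv, norm_zero])
  have hCκ : ∀ z ∈ Icc (0 : V (d + 1)) 1, (C.cmp κ).1 =ᶠ[𝓝 z] C.1 := by
    intro z hz
    filter_upwards [hκ z hz] with w hw
    change C.1 (κ w) = C.1 w
    rw [hw]
  have hQC : ∀ z ∈ Icc (0 : V (d + 1)) 1, fderiv ℝ (fun z => F.Q ((C.cmp κ).1 z)) z = fderiv ℝ (fun z => F.Q (C.1 z)) z := by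
    intro z hz
    have h1 : (fun z => F.Q ((C.cmp κ).1 z)) =ᶠ[𝓝 z] fun z => F.Q (C.1 z) := by
      filter_upwards [hCκ z hz] with w hw
      rw [hw]
    exact h1.fderiv_eq
  have hTd := T.hd
  have htwo := H.two
  have hmul : (r + 1) * (j + 1) = (r + 1) * j + (r + 1) := by ring
  refine ⟨nx hB hB0, by omega, ?_, ?_, ?_⟩
  · -- the integral
    obtain ⟨c, hc, hc1⟩ := Kn_nx H hB hB0 hQB hL hBL hJ
    have hev : sg (d + 1) (Om.on (h ^ (j + 1)) (C.cmp κ)) = Om.on (h ^ (j + 1)) (C.cmp κ) :=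
      congrArg (fun w => Om.on w (C.cmp κ)) (H.spow (j + 1))
    have h1 : Om.on (ψ * h ^ (j + 1)) (nx hB hB0) =
        pb (prn (d + 1) r) (Om.on (h ^ (j + 1)) (C.cmp κ)) * Om.on ψ (nx hB hB0) := by
      have h2 : Om.on (h ^ (j + 1)) (nx hB hB0) = pb (prn (d + 1) r) (Om.on (h ^ (j + 1)) (C.cmp κ)) := by
        rw [on_pow, on_h_nx H hB hB0 hQB, on_pow, map_pow]
      rw [on_mul, h2]
      refine (even_comm ?_ _).symm
      rw [pb_sg, hev]
    rw [h1, abs_cI_Kn, Kn_mul hev, hc, ← Algebra.commutes, ← Algebra.smul_def, cI_smul, abs_mul, hc1, one_mul]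
    have h3 : Om.on (h ^ (j + 1)) (C.cmp κ) = dd (d + 1) (Om.on (ψ * h ^ j) (C.cmp κ)) := by
      rw [← on_d, H.dpsi]
    rw [h3, cI_dd_last]
    · have h4 : cI d (pb (sl d 1) (Om.on (ψ * h ^ j) (C.cmp κ))) = 0 := by
        rw [← on_cmp, ← cI_zero (k := d)]
        refine cI_congr fun w hw => ?_
        congr 1
        rw [map_zero]
        refine ev_on_zero (H.degpsi j) _ ?_
        have h5 : (fun x => (((C.cmp κ).cmp (sl d 1)).1 x).1) =ᶠ[𝓝 w] fun _ => a := by
          have h6 : ∀ᶠ u in 𝓝 w, (C.cmp κ).1 (sl d 1 u) = C.1 (sl d 1 u) :=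
            (sl d 1).smooth.continuous.continuousAt.eventually (hCκ (sl d 1 w) (snoc_cube hw (Or.inr rfl)))
          filter_upwards [h6] with u hu
          change ((C.cmp κ).1 (sl d 1 u)).1 = a
          rw [hu]
          exact cone_one p ha hna (Fin.snoc_last (α := fun _ => ℝ) (1 : ℝ) u)
        rw [h5.fderiv_eq, fderiv_fun_const]
        have h2 : LinearMap.range ((0 : V d →L[ℝ] Eu n) : V d →ₗ[ℝ] Eu n) = ⊥ := by
          rw [LinearMap.range_eq_bot]
          rfl
        refine lt_of_le_of_lt (congrArg (fun T : Submodule ℝ (Eu n) => Module.finrank ℝ T) h2).le ?_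
        rw [finrank_bot]
        omega
      have h5 : cI d (pb (sl d 0) (Om.on (ψ * h ^ j) (C.cmp κ))) = cI d (Om.on (ψ * h ^ j) p) := by
        rw [← on_cmp]
        refine cI_congr fun w hw => ?_
        congr 1
        refine ev_on_congr _ ?_
        have h6 : ∀ᶠ u in 𝓝 w, (C.cmp κ).1 (sl d 0 u) = C.1 (sl d 0 u) :=
          (sl d 0).smooth.continuous.continuousAt.eventually (hCκ (sl d 0 w) (snoc_cube hw (Or.inl rfl)))
        filter_upwards [h6] with u hu
        change (C.cmp κ).1 (sl d 0 u) = p.1 u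
        rw [hu]
        have h7 : (cone p ha hna).1 (sl d 0 u) = p.1 (pr d (sl d 0 u)) :=
          cone_zero p ha hna (Fin.snoc_last (α := fun _ => ℝ) (0 : ℝ) u)
        exact h7.trans (congrArg p.1 (pr_snoc u 0))
      rw [h4, h5, abs_mul, zero_sub, abs_neg, T.int, mul_one]
      simp
    · intro i x hx hxi
      refine top_face_on (H.degpsi j) _ ?_
      have h4 : rkF (fun x => ((C.cmp κ).1 x).1) i.castSucc x = rkF (fun x => (C.1 x).1) i.castSucc x := by
        unfold rkF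
        have h5 : (fun x => ((C.cmp κ).1 x).1) =ᶠ[𝓝 x] fun x => (C.1 x).1 := by
          filter_upwards [hCκ x hx] with w hw
          rw [hw]
        rw [h5.fderiv_eq]
      rw [h4]
      have h5 := rkF_cone p ha hna i x
      have h6 := T.face i (pr d x) (pr_cube hx) hxi
      rw [← hC] at h5
      omega
  · -- the faces
    intro i x hx hxi
    revert hxi
    refine Fin.addCases (m := d + 1) (n := r) (fun i => ?_) (fun i => ?_) i
    · intro hxi
      have hz := prn_cube hx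
      -- the projections along `nx`
      have hQs : ContDiff ℝ ∞ fun z => F.Q ((C.cmp κ).1 z) := F.sm _ (C.cmp κ)
      have hQ' : HasFDerivAt (fun x => F.Q ((C.cmp κ).1 (prn (d + 1) r x)))
          ((fderiv ℝ (fun z => F.Q ((C.cmp κ).1 z)) (prn (d + 1) r x)).comp (prnL (d + 1) r)) x :=
        (hQs.differentiable (by simp) _).hasFDerivAt.comp x (hasFDerivAt_prn x)
      have hN' : DifferentiableAt ℝ (fun x => ((nx hB hB0).1 x).1) x :=
        (show ContDiff ℝ ∞ _ from (nx hB hB0).2).differentiable (by simp) x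
      have h1 := rank_sphere (Q := fun x => F.Q ((C.cmp κ).1 (prn (d + 1) r x))) (N := fun x => ((nx hB hB0).1 x).1) (r := r)
        hQ'.differentiableAt hN' (fun y => Q_nx hB hB0 hQB y) (fun y => ((nx hB hB0).1 y).2) (F.rank _)
      have h2 := finrank_map_le_add (fderiv ℝ (fun x => ((nx hB hB0).1 x).1) x : V (d + 1 + r) →ₗ[ℝ] Eu n)
        (fderiv ℝ (fun x => F.Q ((C.cmp κ).1 (prn (d + 1) r x))) x : V (d + 1 + r) →ₗ[ℝ] Eu n →L[ℝ] Eu n)
        (LinearMap.ker (LinearMap.proj (Fin.castAdd r i) : V (d + 1 + r) →ₗ[ℝ] ℝ))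
      have h3 := Submodule.finrank_mono (Submodule.map_mono (f := (fderiv ℝ (fun x => ((nx hB hB0).1 x).1) x :
        V (d + 1 + r) →ₗ[ℝ] Eu n)) (inf_le_right : (LinearMap.ker (LinearMap.proj (Fin.castAdd r i) :
          V (d + 1 + r) →ₗ[ℝ] ℝ)) ⊓ LinearMap.ker (fderiv ℝ (fun x => F.Q ((C.cmp κ).1 (prn (d + 1) r x))) x :
            V (d + 1 + r) →ₗ[ℝ] Eu n →L[ℝ] Eu n) ≤ _))
      -- the rank of the derivative of the projections
      have h4 : Module.finrank ℝ ((LinearMap.ker (LinearMap.proj (Fin.castAdd r i) : V (d + 1 + r) →ₗ[ℝ] ℝ)).map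
          (fderiv ℝ (fun x => F.Q ((C.cmp κ).1 (prn (d + 1) r x))) x : V (d + 1 + r) →ₗ[ℝ] Eu n →L[ℝ] Eu n)) ≤ (r + 1) * j + 1 := by
        rw [hQ'.fderiv, hQC _ hz]
        have h5 : ((LinearMap.ker (LinearMap.proj (Fin.castAdd r i) : V (d + 1 + r) →ₗ[ℝ] ℝ)).map
            (((fderiv ℝ (fun z => F.Q (C.1 z)) (prn (d + 1) r x)).comp (prnL (d + 1) r) :
              V (d + 1 + r) →L[ℝ] Eu n →L[ℝ] Eu n) : V (d + 1 + r) →ₗ[ℝ] Eu n →L[ℝ] Eu n)) ≤
            (LinearMap.ker (LinearMap.proj i : V (d + 1) →ₗ[ℝ] ℝ)).map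
              (fderiv ℝ (fun z => F.Q (C.1 z)) (prn (d + 1) r x) : V (d + 1) →ₗ[ℝ] Eu n →L[ℝ] Eu n) := by
          rintro _ ⟨v, hv, rfl⟩
          exact ⟨prnL (d + 1) r v, hv, rfl⟩
        refine (Submodule.finrank_mono h5).trans ?_
        have hxi' : (prn (d + 1) r x) i = 0 ∨ (prn (d + 1) r x) i = 1 := by
          rw [prn_apply]
          exact hxi
        obtain ⟨z, hzd⟩ : ∃ z, z = prn (d + 1) r x := ⟨_, rfl⟩
        rw [← hzd] at hz hxi' ⊢
        have hQCs : DifferentiableAt ℝ (fun z => F.Q (C.1 z)) z := (F.sm _ C).differentiable (by simp) z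
        revert hxi'
        refine Fin.lastCases ?_ (fun i => ?_) i
        · intro hzl
          have h6 : ((LinearMap.ker (LinearMap.proj (Fin.last d) : V (d + 1) →ₗ[ℝ] ℝ)).map
              (fderiv ℝ (fun z => F.Q (C.1 z)) z : V (d + 1) →ₗ[ℝ] Eu n →L[ℝ] Eu n)) ≤
              LinearMap.range (fderiv ℝ (fun u : V d => F.Q (C.1 (Fin.snoc u (z (Fin.last d))))) (pr d z) :
                V d →ₗ[ℝ] Eu n →L[ℝ] Eu n) := by
            rintro _ ⟨v, hv, rfl⟩
            exact ⟨pr d v, (fderiv_slice hQCs hv).symm⟩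
          refine (Submodule.finrank_mono h6).trans ?_
          rcases hzl with h0 | h0
          · have h7 : (fun u : V d => F.Q (C.1 (Fin.snoc u (z (Fin.last d))))) = fun u => F.Q (p.1 u) := by
              funext u
              rw [h0, hC, cone_zero p ha hna (Fin.snoc_last (α := fun _ => ℝ) (0 : ℝ) u), pr_snoc]
            rw [h7]
            exact (T.rk _ (pr_cube hz)).trans (by omega)
          · have h7 : (fun u : V d => F.Q (C.1 (Fin.snoc u (z (Fin.last d))))) = fun _ => F.Q (C.1 (Fin.snoc 0 1)) := by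
              funext u
              rw [h0]
              congr 1
              refine Subtype.ext ?_
              rw [hC, cone_one p ha hna (Fin.snoc_last (α := fun _ => ℝ) (1 : ℝ) u),
                cone_one p ha hna (Fin.snoc_last (α := fun _ => ℝ) (1 : ℝ) 0)]
            rw [h7, fderiv_fun_const]
            have h8 : LinearMap.range ((0 : V d →L[ℝ] Eu n →L[ℝ] Eu n) : V d →ₗ[ℝ] Eu n →L[ℝ] Eu n) = ⊥ := by
              rw [LinearMap.range_eq_bot]
              rfl
            refine (congrArg (fun T : Submodule ℝ (Eu n →L[ℝ] Eu n) => Module.finrank ℝ T) h8).le.trans ?_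
            rw [finrank_bot]
            omega
        · intro hzi
          obtain ⟨M, hM⟩ := fderiv_fac F.sm C z
          rw [hM]
          have h6 : ((M.comp (fderiv ℝ (fun x => (C.1 x).1) z) : V (d + 1) →L[ℝ] Eu n →L[ℝ] Eu n) :
              V (d + 1) →ₗ[ℝ] Eu n →L[ℝ] Eu n) = (M : Eu n →ₗ[ℝ] Eu n →L[ℝ] Eu n).comp
                (fderiv ℝ (fun x => (C.1 x).1) z : V (d + 1) →ₗ[ℝ] Eu n) := rfl
          rw [h6, Submodule.map_comp]
          refine (Submodule.finrank_map_le _ _).trans ?_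
          have h7 := rkF_cone p ha hna i z
          have h8 := T.face i (pr d z) (pr_cube hz) hzi
          unfold rkF at h7 h8
          rw [← hC] at h7
          omega
      unfold rkF
      omega
    · intro hxi
      have h1 := rkF_bv hB hxi
      have h2 : rkF (fun x => ((nx hB hB0).1 x).1) (Fin.natAdd (d + 1) i) x ≤ rkF (bv B) (Fin.natAdd (d + 1) i) x :=
        rkF_nzP (contDiff_bv hB) (bv_ne hB0) _ _
      omega
  · -- the rank of the projections
    intro x _
    have hQs : ContDiff ℝ ∞ fun z => F.Q ((C.cmp κ).1 z) := F.sm _ (C.cmp κ)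
    have hQ' : HasFDerivAt (fun x => F.Q ((C.cmp κ).1 (prn (d + 1) r x)))
        ((fderiv ℝ (fun z => F.Q ((C.cmp κ).1 z)) (prn (d + 1) r x)).comp (prnL (d + 1) r)) x :=
      (hQs.differentiable (by simp) _).hasFDerivAt.comp x (hasFDerivAt_prn x)
    have h1 : (fun x => F.Q ((nx hB hB0).1 x)) = fun x => F.Q ((C.cmp κ).1 (prn (d + 1) r x)) := by
      funext y
      exact F.inv _ _ (Q_nx hB hB0 hQB y)
    rw [h1, hQ'.fderiv]
    have h2 : LinearMap.range (((fderiv ℝ (fun z => F.Q ((C.cmp κ).1 z)) (prn (d + 1) r x)).comp (prnL (d + 1) r) :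
        V (d + 1 + r) →L[ℝ] Eu n →L[ℝ] Eu n) : V (d + 1 + r) →ₗ[ℝ] Eu n →L[ℝ] Eu n) ≤
        LinearMap.range (fderiv ℝ (fun z => F.Q ((C.cmp κ).1 z)) (prn (d + 1) r x) : V (d + 1) →ₗ[ℝ] Eu n →L[ℝ] Eu n) := by
      rintro _ ⟨v, rfl⟩
      exact ⟨prnL (d + 1) r v, rfl⟩
    refine (Submodule.finrank_mono h2).trans ((LinearMap.finrank_range_le _).trans ?_)
    rw [Module.finrank_fin_fun]
    omega

/-- the tower exists up to the top dimension -/
theorem TW_exists (H : FibForm F ψ h) (ξ : (spS n).pt) (j : ℕ) (hj : (r + 1) * j < n) :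
    ∃ (d : ℕ) (p : (spS n).Plot d), TW F ψ h j d p := by
  induction j with
  | zero =>
    obtain ⟨p, hp⟩ := TW_zero H ξ
    exact ⟨r, p, hp⟩
  | succ j ih =>
    have hmul : (r + 1) * (j + 1) = (r + 1) * j + (r + 1) := by ring
    obtain ⟨d, p, T⟩ := ih (by omega)
    have := T.hd
    obtain ⟨p', T'⟩ := TW_succ H T (by omega)
    exact ⟨_, p', T'⟩

/-- the levels have dimension at most `n - 1` -/
theorem TW_dim (H : FibForm F ψ h) {j d : ℕ} {p : (spS n).Plot d} (T : TW F ψ h j d p) : d + 1 ≤ n := by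
  by_contra hcon
  have h0 : cI d (Om.on (ψ * h ^ j) p) = 0 := by
    rw [← cI_zero (k := d)]
    refine cI_congr fun x _ => ?_
    congr 1
    rw [map_zero]
    refine ev_on_zero (H.degpsi j) p ?_
    have hp : DifferentiableAt ℝ (fun w => (p.1 w).1) x := (show ContDiff ℝ ∞ _ from p.2).differentiable (by simp) _
    have hle : LinearMap.range (fderiv ℝ (fun x => (p.1 x).1) x : V d →ₗ[ℝ] Eu n) ≤ (ℝ ∙ (p.1 x).1)ᗮ := by
      rintro _ ⟨v, rfl⟩
      rw [Submodule.mem_orthogonal_singleton_iff_inner_right]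
      have h2 := hp.hasFDerivAt.inner ℝ hp.hasFDerivAt
      have h3 : (fun z => inner ℝ ((p.1 z).1) ((p.1 z).1)) = fun _ => (1 : ℝ) := by
        funext z
        rw [real_inner_self_eq_norm_sq, (p.1 z).2, one_pow]
      rw [h3] at h2
      have h4 := congrArg (fun L : V d →L[ℝ] ℝ => L v) (h2.unique (hasFDerivAt_const _ _))
      simp at h4
      have h5 := real_inner_comm (p.1 x).1 (fderiv ℝ (fun x => (p.1 x).1) x v)
      change inner ℝ (p.1 x).1 (fderiv ℝ (fun x => (p.1 x).1) x v) = 0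
      linarith
    have hne : (ℝ ∙ (p.1 x).1)ᗮ ≠ ⊤ := by
      intro htop
      have h1 : (p.1 x).1 ∈ (ℝ ∙ (p.1 x).1)ᗮ := by
        rw [htop]
        exact Submodule.mem_top
      rw [Submodule.mem_orthogonal_singleton_iff_inner_right, real_inner_self_eq_norm_sq, (p.1 x).2] at h1
      norm_num at h1
    have h1 := Submodule.finrank_mono hle
    have h2 := Submodule.finrank_lt hne
    rw [finrank_euclideanSpace_fin] at h2
    have h3 := T.hd
    omega
  have h1 := T.int
  rw [h0, abs_zero] at h1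
  exact zero_ne_one h1

/-- the dimension is a multiple of `r + 1` -/
theorem FibForm.dvd (H : FibForm F ψ h) (ξ : (spS n).pt) : ∃ m, 1 ≤ m ∧ n = (r + 1) * m := by
  have hn : 0 < n := by
    rcases Nat.eq_zero_or_pos n with h0 | h0
    · exfalso
      subst h0
      have h1 := ξ.2
      have h2 : ξ.1 = 0 := Subsingleton.elim _ _
      rw [h2, norm_zero] at h1
      exact zero_ne_one h1
    · exact h0
  have h1 : (r + 1) * ((n - 1) / (r + 1)) ≤ n - 1 := Nat.mul_div_le _ _
  have h2 : n - 1 < (r + 1) * ((n - 1) / (r + 1) + 1) := Nat.lt_mul_div_succ _ (Nat.succ_pos r)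
  obtain ⟨d, p, T⟩ := TW_exists H ξ ((n - 1) / (r + 1)) (by omega)
  have h3 := TW_dim H T
  have h4 := T.hd
  refine ⟨(n - 1) / (r + 1) + 1, Nat.succ_pos _, ?_⟩
  have h5 : (r + 1) * ((n - 1) / (r + 1) + 1) = (r + 1) * ((n - 1) / (r + 1)) + (r + 1) := by ring
  omega

/-- **block EPS**: `k * ∫ ψ h^(m-1) = ± 1` for an integer `k` -/
theorem eps_int (H : FibForm F ψ h) {m : ℕ} (hm : 1 ≤ m) (hn : n = (r + 1) * m) :
    ∃ k : ℤ, |(k : ℝ) * JS (ψ * h ^ (m - 1))| = 1 := by
  obtain ⟨j, rfl⟩ : ∃ j, m = j + 1 := ⟨m - 1, by omega⟩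
  have htwo := H.two
  have hmul : (r + 1) * (j + 1) = (r + 1) * j + (r + 1) := by ring
  have hne : 0 < n := by omega
  let ξ : (spS n).pt := ⟨EuclideanSpace.single (⟨0, hne⟩ : Fin n) (1 : ℝ), by simp⟩
  obtain ⟨d, p, T⟩ := TW_exists H ξ j (by omega)
  have hTd := T.hd
  have hd : n = d + 1 := by omega
  subst hd
  obtain ⟨k, hk⟩ := deg_sphere (N := d) (by omega) p (fun i x hx hxi => by
    have h1 := T.face i x hx hxi
    omega)
  refine ⟨k, ?_⟩
  rw [Nat.add_sub_cancel, ← hk]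
  exact T.int

end Pool.Agent.Lib.MP_ccbbf6_gt.L5
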