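import Pool.Agent.Lib.MP_ccbbf6_gt.L4.FUB
import Pool.Agent.Lib.MP_ccbbf6_gt.L5.CON2
import Pool.Agent.Lib.MP_ccbbf6_gt.L5.EPS11
import Pool.Agent.Lib.MP_ccbbf6_gt.L5.UORapi

/-!
# Level 5, block EPS, geometry (G4): the fibration of the unit sphere at a point, `k eps = ± 1`, `κ + 1 ∣ n`

`G4.eps_geo`: for `UD 𝒜 hB κ u g`, `κ ≥ 2` odd: `n = (κ + 1) m` and there is an integer `k` with
`|k JR n (ER_p^* (b0 u * (u_2) ^ (m - 1)))| = 1`.
-/

set_option autoImplicit false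
set_option linter.unusedSectionVars false
set_option linter.unusedVariables false

open Set Filter Topology Metric Real Module MeasureTheory
open scoped ContDiff RealInnerProductSpace

noncomputable section

namespace Pool.Agent.Lib.MP_ccbbf6_gt.L5.G4

open Geo L4 L4.FR L4.ORI

variable {n l κ : ℕ}

theorem ne_of_norm_one {v : Eu n} (h : ‖v‖ = 1) : v ≠ 0 := by
  rintro rfl
  rw [norm_zero] at h
  exact zero_ne_one h

/-- inclusion of the unit sphere -/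
def iS (n : ℕ) : SMap (spS n) (spR n) := ⟨fun ξ => ⟨ξ.1, ne_of_norm_one ξ.2⟩, fun _ p => p.2⟩

/-- projection to the unit sphere -/
def nS (n : ℕ) : SMap (spR n) (spS n) := ⟨fun x => ⟨‖x.1‖⁻¹ • x.1, normv x.2⟩, fun k p =>
  ((show ContDiff ℝ ∞ fun u => (p.1 u).1 from p.2).norm ℝ fun u => (p.1 u).2).inv
    (fun u => norm_ne_zero_iff.2 (p.1 u).2) |>.smul p.2⟩

theorem iS_nS (n : ℕ) : (iS n).comp (nS n) = nrmR n := SMap_ext fun x => rfl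

/-- the two integrals over the unit sphere agree -/
theorem JS_iS {θ : Om (spR n)} (h : (nrmR n).pull θ = θ) : JS ((iS n).pull θ) = JR n θ := by
  unfold JS JR
  congr 1
  funext x
  rw [ev_Th]
  by_cases hx : x = 0
  · subst hx
    have h1 : ev (0 : V n) (dd n (fc n (cn1 n))) = 0 := ev_dcn_zero (by
      have h2 : toE (0 : V n) = 0 := rfl
      rw [h2, norm_zero]
      exact one_pos)
    unfold ThV
    rw [h1, zero_mul, vAt_zero]
  · obtain ⟨Q, hQ⟩ := locPl_toE hx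
    have h1 : (fun w => (((nS n).pl Q).1 w).1) =ᶠ[𝓝 x] nrm := by
      filter_upwards [hQ] with w hw
      have hw' : (Q.1 w).1 = toE w := hw
      change ‖(Q.1 w).1‖⁻¹ • (Q.1 w).1 = ‖toE w‖⁻¹ • toE w
      rw [hw']
    have h2 : Om.on ((iS n).pull θ) ((nS n).pl Q) = Om.on θ Q := by
      have h3 : Om.on ((nrmR n).pull θ) Q = Om.on θ Q := by rw [h]
      exact h3
    have h4 : ev x (dd n (fc n (cn1 n))) = ev x (dd n (Om.on (chR n) Q)) := by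
      refine ev_dd_congr ?_
      filter_upwards [hQ] with w hw
      have hw' : (Q.1 w).1 = toE w := hw
      rw [ev_fc, on_chR Q w, hw']
      rfl
    unfold ThV
    rw [vAt_eq Subtype.val_injective _ _ h1, vAt_eq jR_inj _ Q hQ, h2, on_mul, map_mul (ev x), on_d, h4]

/-- an isometric linear map without the origin -/
def LR (L : Eu l →L[ℝ] Eu n) (hL : ∀ v, ‖L v‖ = ‖v‖) : SMap (spR l) (spR n) :=
  ⟨fun x => ⟨L x.1, by rw [← norm_ne_zero_iff, hL, norm_ne_zero_iff]; exact x.2⟩,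
    fun _ p => L.contDiff.comp (show ContDiff ℝ ∞ _ from p.2)⟩

theorem nrmR_LR (L : Eu l →L[ℝ] Eu n) (hL : ∀ v, ‖L v‖ = ‖v‖) : (nrmR n).comp (LR L hL) = (LR L hL).comp (nrmR l) :=
  SMap_ext fun x => Subtype.ext (by
    change ‖L x.1‖⁻¹ • L x.1 = L (‖x.1‖⁻¹ • x.1)
    rw [hL, map_smul])

theorem JS_LS {ψ : Om (spR n)} (h : (nrmR n).pull ψ = ψ) (L : Eu l →L[ℝ] Eu n) (hL : ∀ v, ‖L v‖ = ‖v‖) :
    JS ((LS L hL).pull ((iS n).pull ψ)) = JR l ((LR L hL).pull ψ) := by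
  have h1 : (LS L hL).pull ((iS n).pull ψ) = (iS l).pull ((LR L hL).pull ψ) := rfl
  rw [h1]
  refine JS_iS ?_
  rw [← pull_comp, ← nrmR_LR, pull_comp, h]

section geo

variable {M : Type} [MetricSpace M] [CompactSpace M] {𝒜 : SDist n M} {hB : Bl M}

theorem nrmR_ER (hB : Bl M) (p : M) (w : Om (spG 𝒜)) : (nrmR n).pull ((ER hB p).pull w) = (ER hB p).pull w := by
  rw [← pull_comp, ER_nrm]

/-- the constant frame of the plane of an isometric map -/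
theorem JR_one {u : Om (spM 𝒜)} {g : (spVF 𝒜 κ).pt → ℝ} (hU : UD 𝒜 hB κ u g) (p : M) {ξ : Eu n} (hξ : ξ ≠ 0)
    {L : Eu (κ + 1) →L[ℝ] Eu n} (hL : ∀ v, ‖L v‖ = ‖v‖) (hLm : ∀ v, L v ∈ 𝒜.PV p ξ) :
    |JR (κ + 1) ((LR L hL).pull ((ER hB p).pull (psu hB u)))| = 1 := by
  have hn1 : ∀ i : Fin (κ + 1), ‖L (EuclideanSpace.single i 1)‖ = 1 := fun i => by
    rw [hL]
    simp
  let F : Fin (κ + 1) → Gs M := fun i => gvg 𝒜 hB p (L (EuclideanSpace.single i 1)) (hn1 i)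
  have hfoot : ∀ i, (F i).1 0 = p := fun i => (gvg_vel 𝒜 hB p _ (hn1 i)).1
  have hvel : ∀ i, 𝒜.vel (F i).1 0 = L (EuclideanSpace.single i 1) := fun i => (gvg_vel 𝒜 hB p _ (hn1 i)).2
  have htop : ∀ i, (F i).1 π = 𝒜.Ex p (rad π ξ) := fun i => by
    rw [gs_Ex 𝒜 hB (F i) π, hfoot, hvel]
    exact (mem_PV_iff 𝒜 hB p hξ (ne_of_norm_one (hn1 i))).1 (hLm _)
  have hMF : IsMF 𝒜 κ F := by
    refine ⟨fun i => by rw [hfoot, hfoot], fun i j => ?_⟩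
    rw [hvel, hvel]
    have h1 := (⟨(L : Eu (κ + 1) →ₗ[ℝ] Eu n), hL⟩ : Eu (κ + 1) →ₗᵢ[ℝ] Eu n).inner_map_map
      (EuclideanSpace.single i (1 : ℝ)) (EuclideanSpace.single j (1 : ℝ))
    have h2 : ⟪L (EuclideanSpace.single i 1), L (EuclideanSpace.single j 1)⟫ =
        ⟪(EuclideanSpace.single i (1 : ℝ) : Eu (κ + 1)), EuclideanSpace.single j (1 : ℝ)⟫ := h1
    rw [h2, EuclideanSpace.inner_single_left]
    simp
  let f : (spVF 𝒜 κ).pt := ⟨⟨F, hMF⟩, fun i => by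
    change (F i).1 π = (F 0).1 π
    rw [htop, htop]⟩
  let cf : SMap (spV 0) (spVF 𝒜 κ) := ⟨fun _ => f, fun k p i => ⟨sm_const _, sm_const _⟩⟩
  have key : (dirV 𝒜 hB κ).comp (cf.xP (κ + 1)) = ((ER hB p).comp (LR L hL)).comp (toR (spV 0) (κ + 1)) := by
    refine SMap_ext fun z => ?_
    have hz : vcF 𝒜 F z.1.2 = L (toE z.1.2) := by
      unfold vcF
      simp only [hvel]
      have h1 : (toE z.1.2 : Eu (κ + 1)) = ∑ i, z.1.2 i • EuclideanSpace.single i (1 : ℝ) := by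
        ext j
        change z.1.2 j = _
        simp [Finset.sum_apply, Pi.single_apply]
      rw [h1, map_sum]
      exact Finset.sum_congr rfl fun i _ => (map_smul L _ _).symm
    have hz0 : vcF 𝒜 F z.1.2 ≠ 0 := vcF_ne hMF z.2
    refine Subtype.ext ?_
    change (gw 𝒜 hB (F 0) (vcF 𝒜 F z.1.2)).1 = 𝒜.gv p (‖L (toE z.1.2)‖⁻¹ • L (toE z.1.2))
    unfold gw
    rw [dif_pos hz0]
    change 𝒜.gv ((F 0).1 0) (nrm (vcF 𝒜 F z.1.2)) = _
    rw [hfoot, hz]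
    rfl
  have h1 : cf.pull (JV 𝒜 hB κ (psu hB u)) =
      SI (κ + 1) (spV 0) ((toR (spV 0) (κ + 1)).pull ((LR L hL).pull ((ER hB p).pull (psu hB u)))) := by
    unfold JV
    rw [← SI_nat, ← pull_comp, key]
    rfl
  have h2 := abs_SI_JR (spV 0) (idP 0) (θ := (LR L hL).pull ((ER hB p).pull (psu hB u)))
    (Deg_pull _ (Deg_pull _ hU.Deg_psu))
  rw [← h2, ← h1, hU.JV]
  have h3 : L4.FR.val (cf.pull (fO g hU.smooth)) (idP 0) = g f := by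
    unfold L4.FR.val
    rw [on_pull, on_fO, fn_fc]
    rfl
  rw [h3]
  exact hU.one f

/-- the fibration of the unit sphere at `p` -/
def FibP (𝒜 : SDist n M) (hB : Bl M) (hk : 𝒜.HK κ) (p : M) : Fib n κ where
  Q ξ := (𝒜.PV p ξ.1).starProjection
  sm k a := contDiff_iff_contDiffAt.2 fun x => by
    have h1 : ContDiffAt ℝ ∞ (fun x => (a.1 x).1) x := (show ContDiff ℝ ∞ fun u => (a.1 u).1 from a.2).contDiffAt
    exact ContDiffAt.comp (g := fun v => (𝒜.PV p v).starProjection) x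
      (contDiffAt_PV 𝒜 hB hk p (ne_of_norm_one (a.1 x).2)) h1
  idem ξ := (𝒜.PV p ξ.1).isIdempotentElem_starProjection.eq
  self ξ := Submodule.starProjection_eq_self_iff.2 (mem_PV_self 𝒜 hB p ξ.1)
  inv ξ η h := by
    rw [PV_eq_of_mem 𝒜 hB p (Submodule.starProjection_eq_self_iff.1 h) (ne_of_norm_one η.2)]
  rank ξ := by
    have h1 : LinearMap.range ((𝒜.PV p ξ.1).starProjection : Eu n →ₗ[ℝ] Eu n) = 𝒜.PV p ξ.1 :=
      Submodule.range_starProjection _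
    rw [h1, finrank_PV 𝒜 hB hk p (ne_of_norm_one ξ.2)]

/-- the angular form at `p` on the unit sphere -/
def psP1 (hB : Bl M) (u : Om (spM 𝒜)) (p : M) : Om (spS n) := (iS n).pull ((ER hB p).pull (psu hB u))

/-- the tops -/
theorem tp_pl (hB : Bl M) (hk : 𝒜.HK κ) (p : M) {k : ℕ} (a b : (spS n).Plot k)
    (h : ∀ x, (FibP 𝒜 hB hk p).Q (a.1 x) (b.1 x).1 = (b.1 x).1) :
    (tpG hB).pl ((ER (𝒜 := 𝒜) hB p).pl ((iS n).pl a)) = (tpG hB).pl ((ER hB p).pl ((iS n).pl b)) := by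
  refine Plot_ext fun x => ?_
  change (tpG hB).1 ((ER hB p).1 ((iS n).1 (a.1 x))) = (tpG hB).1 ((ER hB p).1 ((iS n).1 (b.1 x)))
  rw [tpG_apply, tpG_apply]
  have ha := ne_of_norm_one (a.1 x).2
  have hb := ne_of_norm_one (b.1 x).2
  have h1 : (b.1 x).1 ∈ 𝒜.PV p (a.1 x).1 := Submodule.starProjection_eq_self_iff.1 (h x)
  have h2 : ∀ ξ : (spS n).pt, ((ER (𝒜 := 𝒜) hB p).1 ((iS n).1 ξ)).1 π = 𝒜.Ex p (rad π ξ.1) := fun ξ => by
    change 𝒜.gv p (‖ξ.1‖⁻¹ • ξ.1) π = _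
    rw [ξ.2, inv_one, one_smul, Ex_rad_of_norm hB ξ.2]
  rw [h2, h2]
  exact ((mem_PV_iff 𝒜 hB p ha hb).1 h1).symm

theorem ft_pl (hB : Bl M) (p : M) {k : ℕ} (a b : (spR n).Plot k) :
    (ftG hB).pl ((ER (𝒜 := 𝒜) hB p).pl a) = (ftG hB).pl ((ER hB p).pl b) := by
  refine Plot_ext fun x => ?_
  change (ftG hB).1 ((ER hB p).1 (a.1 x)) = (ftG hB).1 ((ER hB p).1 (b.1 x))
  have h1 : ∀ c : Gs M, (ftG hB : SMap (spG 𝒜) (spM 𝒜)).1 c = c.1 0 := fun c => by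
    change c.1 (π * 0) = c.1 0
    rw [mul_zero]
  rw [h1, h1, ER_foot, ER_foot]

/-- isometric parametrisation of the planes -/
theorem exists_LP (𝒜 : SDist n M) (hB : Bl M) (hk : 𝒜.HK κ) (p : M) {ξ : Eu n} (hξ : ξ ≠ 0) :
    ∃ (L : Eu (κ + 1) →L[ℝ] Eu n), (∀ v, ‖L v‖ = ‖v‖) ∧ ∀ v, L v ∈ 𝒜.PV p ξ := by
  have hf := finrank_PV 𝒜 hB hk p hξ
  let b := (stdOrthonormalBasis ℝ (𝒜.PV p ξ)).reindex (finCongr hf)
  refine ⟨(𝒜.PV p ξ).subtypeL.comp (b.repr.symm.toContinuousLinearEquiv : Eu (κ + 1) →L[ℝ] 𝒜.PV p ξ), fun v => ?_, fun v => ?_⟩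
  · exact b.repr.symm.norm_map v
  · exact (b.repr.symm v).2

/-- **the forms of the fibration at `p`** -/
theorem fibForm (hk : 𝒜.HK κ) (hodd : Odd κ) (h2 : 2 ≤ κ) {u : Om (spM 𝒜)} {g : (spVF 𝒜 κ).pt → ℝ} (hU : UD 𝒜 hB κ u g)
    (p : M) : FibForm (FibP 𝒜 hB hk p) (psP1 hB u p) (dO _ (psP1 hB u p)) where
  odd := hodd
  two := h2
  d := rfl
  deg := Deg_pull _ (Deg_pull _ hU.Deg_psu)
  basic k a b h := by
    unfold psP1
    rw [pull_d, pull_d, hU.d_psu, map_sub, map_sub, on_sub, on_sub]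
    have h1 : Om.on ((iS n).pull ((ER hB p).pull ((tpG hB).pull u))) a = Om.on ((iS n).pull ((ER hB p).pull ((tpG hB).pull u))) b := by
      rw [on_pull, on_pull, on_pull, on_pull, on_pull, on_pull, tp_pl hB hk p a b h]
    have h2 : Om.on ((iS n).pull ((ER hB p).pull ((ftG hB).pull u))) a = Om.on ((iS n).pull ((ER hB p).pull ((ftG hB).pull u))) b := by
      rw [on_pull, on_pull, on_pull, on_pull, on_pull, on_pull, ft_pl hB p ((iS n).pl a) ((iS n).pl b)]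
    rw [h1, h2]
  norm ξ := by
    obtain ⟨L, hL, hLm⟩ := exists_LP 𝒜 hB hk p (ne_of_norm_one ξ.2)
    refine ⟨L, hL, ContinuousLinearMap.ext fun v => Submodule.starProjection_eq_self_iff.2 (hLm v), ?_⟩
    unfold psP1
    rw [JS_LS (nrmR_ER hB p _)]
    exact JR_one hU p (ne_of_norm_one ξ.2) hL hLm

/-- the pull-back of `u₂` at `p` -/
theorem ER_tp {u : Om (spM 𝒜)} {g : (spVF 𝒜 κ).pt → ℝ} (hU : UD 𝒜 hB κ u g) (p : M) :
    (ER hB p).pull ((tpG hB).pull u) = dO _ ((ER hB p).pull (psu hB u)) := by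
  have h1 : (ER hB p).pull ((ftG hB).pull u) = 0 := by
    rw [← pull_comp]
    exact pull_const _ (y := p) (fun x => by
      change ((ER (𝒜 := 𝒜) hB p).1 x).1 (π * 0) = p
      rw [mul_zero, ER_foot]) (Nat.succ_pos κ) hU.deg
  rw [pull_d, hU.d_psu, map_sub, h1, sub_zero]

/-- **G4**: `κ + 1` divides `n` and `k eps = ± 1` -/
theorem eps_geo (hn : 0 < n) (hk : 𝒜.HK κ) (hodd : Odd κ) (h2 : 2 ≤ κ) {u : Om (spM 𝒜)} {g : (spVF 𝒜 κ).pt → ℝ}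
    (hU : UD 𝒜 hB κ u g) (p : M) : ∃ m, 1 ≤ m ∧ n = (κ + 1) * m ∧
      ∃ k : ℤ, |(k : ℝ) * JR n ((ER hB p).pull (psu hB u * (tpG hB).pull u ^ (m - 1)))| = 1 := by
  have H := fibForm (hB := hB) hk hodd h2 hU p
  obtain ⟨ξ, hξ⟩ : ∃ ξ : Eu n, ‖ξ‖ = 1 := ⟨EuclideanSpace.single ⟨0, hn⟩ 1, by simp⟩
  obtain ⟨m, hm, hnm⟩ := H.dvd ⟨ξ, hξ⟩
  obtain ⟨k, hk⟩ := eps_int H hm hnm
  refine ⟨m, hm, hnm, k, ?_⟩
  have h3 : psP1 hB u p * dO _ (psP1 hB u p) ^ (m - 1) =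
      (iS n).pull ((ER hB p).pull (psu hB u * (tpG hB).pull u ^ (m - 1))) := by
    rw [map_mul, map_pow, ER_tp hU, map_mul, map_pow, ← pull_d]
    rfl
  rw [h3, JS_iS (nrmR_ER hB p _)] at hk
  exact hk

/-- the same in the notation of `Cmp2` -/
theorem eps_geo' (hn : 0 < n) (hk : 𝒜.HK κ) (hodd : Odd κ) (h2 : 2 ≤ κ) {u : Om (spM 𝒜)} {g : (spVF 𝒜 κ).pt → ℝ}
    (hU : UD 𝒜 hB κ u g) (p : M) : ∃ m, 1 ≤ m ∧ n = (κ + 1) * m ∧
      ∃ k : ℤ, |(k : ℝ) * JR n ((ER hB p).pull (b0 (fRho hB) u * wt (fRho hB) u 1 ^ (m - 1)))| = 1 :=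
  eps_geo hn hk hodd h2 hU p

end geo

end Pool.Agent.Lib.MP_ccbbf6_gt.L5.G4
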