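import Pool.Agent.Lib.MP_ccbbf6_gt.L5.G3L
import Pool.Agent.Lib.MP_ccbbf6_gt.L5.G3b
import Pool.Agent.Lib.MP_ccbbf6_gt.L5.INTs

/-!
# Level 5, LOC1: smooth families of pairs of points at distance `π` lift locally to smooth families of geodesics (helper67;
the analysis is helper78's `exists_lift`)
-/

set_option autoImplicit false
set_option maxSynthPendingDepth 3

open Set Filter Topology Real Module

open scoped ContDiff RealInnerProductSpace

noncomputable section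

namespace Pool.Agent.Lib.MP_ccbbf6_gt.L5

open L4 L4.FR L4.ORI Geo

variable {k n κ : ℕ} {M : Type} [MetricSpace M] [CompactSpace M] {𝒜 : SDist n M}
  {E : Type*} [NormedAddCommGroup E] [NormedSpace ℝ E]

/-- **families of pairs lift to families of geodesics** -/
theorem LLift_gF (hB : Bl M) (hk : 𝒜.HK κ) : LLift (gF (𝒜 := 𝒜) hB) := by
  intro k p z
  let x : V k → M := fun u => (p.1 u).1.1
  let y : V k → M := fun u => (p.1 u).1.2
  have hx : L4.Sm 𝒜 x := p.2.1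
  have hy : L4.Sm 𝒜 y := p.2.2
  have hd : ∀ u, dist (x u) (y u) = π := fun u => (p.1 u).2
  have hne : x z ≠ y z := dist_pos.mp (by rw [hd]; exact Real.pi_pos)
  obtain ⟨g1, g2, g3⟩ := gd_spec 𝒜 hB hne
  rw [hd] at g3
  obtain ⟨σ, -, hσ⟩ := exists_lift (c₀ := (⟨gd (x z) (y z), g1⟩ : Gs M)) hB hk (Eventually.of_forall hx)
    (Eventually.of_forall hy) (Eventually.of_forall hd) g2 g3
  obtain ⟨h, hh1, hh2⟩ := exists_sq z hσ
  let P : (spG 𝒜).Plot k := ⟨fun v => σ (h v),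
    ⟨fun v => (SmGA.comp (hh2 v).2.2 h.smooth.contDiffAt).1, fun v => (SmGA.comp (hh2 v).2.2 h.smooth.contDiffAt).2⟩⟩
  refine ⟨h, P, hh1, Plot_ext fun v => ?_⟩
  exact Subtype.ext (Prod.ext (hh2 v).1 (hh2 v).2.1)

/-- **local sections of `V`** -/
theorem locV (hB : Bl M) (hk : 𝒜.HK κ) : LocV 𝒜 κ := by
  intro k p z
  obtain ⟨h, P, hh, hP⟩ := LLift_gF (𝒜 := 𝒜) (κ := κ) hB hk k p z
  have hval : ∀ v, (gF (𝒜 := 𝒜) hB).1 (P.1 v) = p.1 (h v) := fun v => congrFun (congrArg Subtype.val hP) v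
  have hnear : ∀ᶠ v in 𝓝 z, p.1 v = (gF (𝒜 := 𝒜) hB).1 (P.1 v) := by
    filter_upwards [hh] with v hv
    rw [hval v, hv]
  have hσ : ∀ u, SmGA 𝒜 P.1 u := fun u => ⟨P.2.1 u, P.2.2 u⟩
  have hr : finrank ℝ (Vc 𝒜 (P.1 z)) = κ + 1 := finrank_Vc 𝒜 hB hk (P.1 z)
  let b := (stdOrthonormalBasis ℝ (Vc 𝒜 (P.1 z))).reindex (finCongr hr)
  have ho : Orthonormal ℝ fun i => (b i : Eu n) := by
    have h1 := b.orthonormal
    exact h1.comp_linearIsometry (Vc 𝒜 (P.1 z)).subtypeₗᵢ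
  obtain ⟨w, hw0, hw⟩ := exists_frame_Vc hB hk (hσ z) ho fun i => (b i).2
  refine ⟨w, ?_, ?_⟩
  · filter_upwards [hw, hnear.eventually_nhds,
      (hσ z).1.cont.eventually ((𝒜.ψ ((P.1 z).1 0)).open_source.mem_nhds (𝒜.mem _))] with y h1 h2 h3 i
    have h4 : p.1 y = (gF (𝒜 := 𝒜) hB).1 (P.1 y) := h2.self_of_nhds
    refine ⟨?_, ?_⟩
    · rw [h4, VF_gF]
      exact h1.2.1 i
    · have h5 := SmV.chart (hσ y).1 (h1.2.2 (hσ y) i) h3 (𝒜.mem _)
      have h6 : (p.1 y).1.1 = (P.1 y).1 0 := by rw [h4]; rfl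
      rw [h6]
      unfold SmV at h5 ⊢
      refine h5.congr_of_eventuallyEq ?_
      filter_upwards [h2] with v hv
      have h7 : (p.1 v).1.1 = (P.1 v).1 0 := by rw [hv]; rfl
      rw [h7]
  · have e : (fun i => w i z) = fun i => (b i : Eu n) := funext hw0
    rw [e]
    exact ho.linearIndependent

end Pool.Agent.Lib.MP_ccbbf6_gt.L5
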