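import Pool.Agent.Lib.MP_ccbbf6_gt.L5.COH4
import Pool.Agent.Lib.MP_ccbbf6_gt.L5.CON1
import Pool.Agent.Lib.MP_ccbbf6_gt.L5.DGP
import Pool.Agent.Lib.MP_ccbbf6_gt.L5.G4a
import Pool.Agent.Lib.MP_ccbbf6_gt.L5.LOC1

/-!
# Level 5, GED: the geometric input `GeoD` exists (helper67; `UD` is helper2's, `eps_geo` is helper18's)
-/

set_option autoImplicit false
set_option maxSynthPendingDepth 3

open Set Filter Topology Metric Real Module
open scoped ContDiff RealInnerProductSpace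

noncomputable section

namespace Pool.Agent.Lib.MP_ccbbf6_gt.L5

open Geo L4 L4.FR L4.ORI

variable {N κ m : ℕ} {M : Type} [MetricSpace M] [CompactSpace M] {𝒜 : SDist (N + 1) M} {hB : Bl M}

/-- the frame of `TM` at a point -/
theorem exists_frTM (𝒜 : SDist (N + 1) M) (p : M) : ∃ f : (uTM 𝒜).F.pt, f.1.1 = p := by
  have h : OFr (⊤ : Submodule ℝ (Eu (N + 1))) fun i => EuclideanSpace.basisFun (Fin (N + 1)) ℝ i :=
    ⟨fun _ => Submodule.mem_top, (EuclideanSpace.basisFun (Fin (N + 1)) ℝ).orthonormal⟩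
  exact ⟨⟨(p, fun i => EuclideanSpace.basisFun (Fin (N + 1)) ℝ i), h⟩, rfl⟩

/-- **the geometric input exists** -/
theorem exists_GeoD (hk : 𝒜.HK κ) (hodd : Odd κ) (h2 : 2 ≤ κ) {u : Om (spM 𝒜)} {g : (spVF 𝒜 κ).pt → ℝ}
    (hU : UD 𝒜 hB κ u g) (p : M) : ∃ m, 1 ≤ m ∧ N + 1 = (κ + 1) * m ∧
      (2 ≤ m → ∃ D : GeoD 𝒜 hB κ m, D.u = u ∧ ∃ k : ℤ, |(k : ℝ) * D.coh.eps| = 1) := by
  obtain ⟨m, hm, hn, k, hkk⟩ := G4.eps_geo' (hB := hB) (Nat.succ_pos N) hk hodd h2 hU p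
  refine ⟨m, hm, hn, fun h3 => ?_⟩
  obtain ⟨f, hf⟩ := exists_frTM 𝒜 p
  have h4 : |(uTM 𝒜).val ((ofTM hB).pull (PhiU hB m u)) f| = |JR (N + 1) ((ER hB p).pull (PhiU hB m u))| := by
    rw [abs_val_TM hB (Deg_PhiU hB hn hm hU.deg) f, hf]
  have h5 : (uTM 𝒜).val ((ofTM hB).pull (PhiU hB m u)) f ≠ 0 := by
    intro h
    rw [h, abs_zero] at h4
    have h6 : JR (N + 1) ((ER hB p).pull (b0 (fRho hB) u * wt (fRho hB) u 1 ^ (m - 1))) = 0 := abs_eq_zero.1 h4.symm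
    rw [h6, mul_zero, abs_zero] at hkk
    exact zero_ne_one hkk
  refine ⟨⟨hk, locV hB hk, hodd, hn, h3, u, hU.closed, hU.deg, fun f => ?_, f, h5⟩, rfl, k, ?_⟩
  · have h6 : gV 𝒜 hB κ (b0 (fRho hB) u) f = g f := hU.gV_eq' f
    rw [h6]
    exact hU.one f
  · show |(k : ℝ) * (|(uTM 𝒜).val ((ofTM hB).pull (PhiU hB m u)) f|)| = 1
    rw [h4, abs_mul, abs_abs, ← abs_mul]
    exact hkk

section conc

variable {n j : ℕ} {𝒜 : SDist n M}

theorem Dg_BBp {ψ : Om (spR n)} (h : Deg j ψ) : Dg j (BBp ψ) := Dg_of_ev fun x => by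
  rw [ev_BBp]
  by_cases hx : x = 0
  · rw [hx, vAt_zero]
    exact Submodule.zero_mem _
  · obtain ⟨P, hP⟩ := locPl_toE hx
    rw [vAt_eq jR_inj _ P hP]
    have h1 : Deg (0 + j) (chR n * ψ) := Deg_mul Deg_chR h
    rw [Nat.zero_add] at h1
    exact Dg_ev (h1 n P) x

/-- **the concentration data** of helper2's form -/
theorem concD_uM (hB : Bl M) {p : M} {ψ : Om (spR n)} {w : Om (spP 𝒜 p)} (hn : n = (κ + 1) * m) (hm : 1 ≤ m)
    (hodd : ∃ t, κ = 2 * t + 1) (h : AngD 𝒜 κ p ψ w) (hh : (nrmR n).pull ψ = ψ) :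
    ConcD 𝒜 hB κ m p ψ (BBp ψ) (uM hB h) where
  hn := hn
  hm := hm
  odd := hodd
  degψ := h.degψ
  hrad := hh
  dgB := Dg_BBp h.degψ
  eB := ev_BBp ψ
  edB := ev_dd_BBp ψ
  closed := d_uM hB h
  deg := Deg_uM hB h
  ex := uM_ex hB h
  hER := ER_psu hB h hh

end conc

end Pool.Agent.Lib.MP_ccbbf6_gt.L5
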