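import Pool.Agent.Lib.MP_ccbbf6_gt.L5.INTs
import Pool.Agent.Lib.MP_ccbbf6_gt.L5.NX2

/-!
# Level 5, KBI: the bundle `bKo` is `K` (helper67)
-/

set_option autoImplicit false
set_option maxSynthPendingDepth 3

open Set Filter Topology Real
open scoped ContDiff RealInnerProductSpace

noncomputable section

namespace Pool.Agent.Lib.MP_ccbbf6_gt.L5

open L4 L4.FR L4.ORI Geo NEG

variable {n κ : ℕ} {M : Type} [MetricSpace M] [CompactSpace M] {𝒜 : SDist n M}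

theorem KBun_bKo (hB : Bl M) (hk : 𝒜.HK κ) (hL : LocV 𝒜 κ) {Ψ : Om (spG 𝒜)} (hΨ : Deg κ Ψ) (h0 : OrV hB hk hL Ψ)
    (hκ : 1 ≤ κ) : KBun (bKo hB hk hL hΨ h0 hκ) where
  W c := bKo_W hB hk hL hΨ h0 hκ c
  sm _ _ _ := Iff.rfl

end Pool.Agent.Lib.MP_ccbbf6_gt.L5
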