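import Pool.Agent.Lib.MP_ccbbf6_gt.L5.EGD
import Pool.Agent.Lib.MP_ccbbf6_gt.L5.EGS
import Pool.Agent.Lib.MP_ccbbf6_gt.L5.PIS

/-!
# Level 5, EGP: fibre integrals of `fG`, `psiG`, `fT` over the sphere bundles of oriented bundles in `ℝ^D`, all ranks
(helper13, after helper67's PIS)

* `PI_fT` : `-2` for the form of a metric connection whose connection form vanishes on the fibres, index set `ι ≃ Fin D`;
* `PI_fGS` : `-2`, `PI_psiGS` : `(-1)^(n + 1)`.
-/

set_option autoImplicit false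
set_option maxSynthPendingDepth 3
set_option linter.unusedSectionVars false

open Set Filter Topology Matrix

open scoped ContDiff

noncomputable section

namespace Pool.Agent.Lib.MP_ccbbf6_gt.L5.EGP

open L4 L4.FR OT

variable {k r D N n j : ℕ} {B X : Space} {ι : Type} [Fintype ι] [DecidableEq ι]

theorem Deg_alg (X : Space) (c : ℝ) : Deg 0 (algebraMap ℝ (Om X) c) := by
  rw [Algebra.algebraMap_eq_smul_one]
  refine Deg_smul _ ?_
  intro k p
  have h1 : Om.on (1 : Om X) p = 1 := rfl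
  rw [h1]
  exact Dg_one

/-- the frame at a point -/
def fa (b : OBun r (EuclideanSpace ℝ (Fin D)) B) (e : ι ≃ Fin D) (P : b.F.Plot 0) : Fin r → ι → ℝ :=
  fun j l => (P.1 0).1.2 j (e l)

/-- the fibre over a point, as the sphere in a frame -/
def ptF (b : OBun r (EuclideanSpace ℝ (Fin D)) B) (P : b.F.Plot 0) : SMap ((spV 0).xP r) b.S :=
  b.ptm.comp ((plM P).xP r)

theorem fa_on (b : OBun r (EuclideanSpace ℝ (Fin D)) B) (e : ι ≃ Fin D) (P : b.F.Plot 0) (i j : Fin r) :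
    ∑ x, fa b e P i x * fa b e P j x = if i = j then 1 else 0 := by
  have h1 := orthonormal_iff_ite.1 (P.1 0).2.1.2 i j
  rw [← h1]
  have h2 : ∑ x, fa b e P i x * fa b e P j x = ∑ y, (P.1 0).1.2 i y * (P.1 0).1.2 j y :=
    e.sum_comp fun y => (P.1 0).1.2 i y * (P.1 0).1.2 j y
  rw [h2]
  simp [PiLp.inner_apply, mul_comm]

theorem fa_P (b : OBun r (EuclideanSpace ℝ (Fin D)) B) (hb : TBun b) (hr : 0 < r) (e : ι ≃ Fin D)
    (P : b.F.Plot 0) : ((pS b hb hr).submatrix e e).map (FHom.pull (ptF b P)).g = PC (spV 0) (fa b e P) := by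
  ext i j z
  show pW (b.W (P.1 z.1.1).1.1) (e i) (e j) = ∑ k, fa b e P k i * fa b e P k j
  have hz : z.1.1 = (0 : V 0) := Subsingleton.elim (α := V 0) _ _
  rw [hz]
  exact pW_eq hr (b.rank _) (P.1 0).2.1 (e i) (e j)

theorem fa_o (b : OBun r (EuclideanSpace ℝ (Fin D)) B) (hb : TBun b) (hr : 0 < r) (e : ι ≃ Fin D)
    (P : b.F.Plot 0) : (fun I : Fin r → ι => (FHom.pull (ptF b P)).g (oS b hb hr fun k => e (I k))) =
      fun I => algebraMap ℝ (SF ((spV 0).xP r)) (1 * dtn (fa b e P) I) := by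
  funext I
  refine Subtype.ext (funext fun z => ?_)
  show oP b (P.1 z.1.1).1.1 (fun k => e (I k)) = 1 * dtn (fa b e P) I
  have hz : z.1.1 = (0 : V 0) := Subsingleton.elim (α := V 0) _ _
  rw [hz, oP_eq b hr (P.1 0).2.1 (P.1 0).2.2, one_mul]
  rfl

theorem fa_y (b : OBun r (EuclideanSpace ℝ (Fin D)) B) (hb : TBun b) (e : ι ≃ Fin D)
    (P : b.F.Plot 0) : (fun l => (FHom.pull (ptF b P)).g (yS b hb (e l))) = YSF (spV 0) (fa b e P) := by
  funext l
  refine Subtype.ext (funext fun z => ?_)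
  show (‖toE z.1.2‖⁻¹ • ∑ i, z.1.2 i • (P.1 z.1.1).1.2 i) (e l) = (YSF (spV 0) (fa b e P) l).1 z
  have e4 : (YSF (spV 0) (fa b e P) l).1 z = ∑ j, fa b e P j l * hat z.1.2 j := by
    have e5 : vl z (YSF (spV 0) (fa b e P) l) = ∑ j, fa b e P j l * hat z.1.2 j := by
      unfold YSF
      rw [map_sum]
      exact Finset.sum_congr rfl fun j _ => by rw [map_smul]; rfl
    exact e5
  have hz : z.1.1 = (0 : V 0) := Subsingleton.elim (α := V 0) _ _
  rw [e4, hz, WithLp.ofLp_smul, Pi.smul_apply, smul_eq_mul, WithLp.ofLp_sum, Finset.sum_apply,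
    Finset.mul_sum]
  refine Finset.sum_congr rfl fun j _ => ?_
  rw [WithLp.ofLp_smul, Pi.smul_apply, smul_eq_mul]
  show ‖toE z.1.2‖⁻¹ * (z.1.2 j * (P.1 0).1.2 j (e l)) = (P.1 0).1.2 j (e l) * (‖toE z.1.2‖⁻¹ * z.1.2 j)
  ring

/-! ### forms with vanishing restriction to the fibres -/

/-- forms of positive degree on a point vanish -/
theorem Deg_pt {θ : Om (spV 0)} (h : Deg (j + 1) θ) : θ = 0 := by
  refine Om_ext fun k p => ?_
  have h1 : Om.on θ p = pb ⟨p.1, p.2⟩ (Om.on θ (idP 0)) := by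
    rw [← on_cmp]
    rfl
  have h3 : Om.on θ (idP 0) = 0 := Dg_big (Nat.succ_pos j) (h 0 (idP 0))
  rw [h1, h3, map_zero, on_zero]

/-- pull-backs of forms of positive degree on the base vanish on the fibres -/
theorem ptF_pr (b : OBun r (EuclideanSpace ℝ (Fin D)) B) (P : b.F.Plot 0) {θ : Om B} (h : Deg (j + 1) θ) :
    (ptF b P).pull (b.pr.pull θ) = 0 := by
  obtain ⟨P0, hP0⟩ : ∃ P0 : B.Plot 0, P0 = ⟨fun z => (P.1 z).1.1, P.2.1⟩ := ⟨_, rfl⟩
  have h1 : b.pr.comp (ptF b P) = (plM P0).comp (pP (spV 0) r) := SMap_ext fun z => by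
    rw [hP0]
    rfl
  rw [← pull_comp, h1, pull_comp, Deg_pt (Deg_pull _ h), map_zero]

/-! ### the fibre integrals -/

/-- the data over the sphere bundle with index set `ι` -/
structure Dat (b : OBun r (EuclideanSpace ℝ (Fin D)) B) (hb : TBun b) (hr : 0 < r) (e : ι ≃ Fin D)
    (P : Matrix ι ι (SF b.S)) (o : (Fin r → ι) → SF b.S) (y : ι → SF b.S) : Prop where
  P : P = (pS b hb hr).submatrix e e
  o : o = fun I => oS b hb hr fun k => e (I k)
  y : y = fun l => yS b hb (e l)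

theorem fT_congr {A : Type*} [CommRing A] [Algebra ℝ A] {R : Type*} [Ring R] [Algebra ℝ R] {G : GDA R} {φ : Fun0 A G}
    {P : Matrix ι ι A} {w w' : Matrix ι ι R} (hw : w = w') (h : Cn φ P w) (h' : Cn φ P w') (hP : P * P = P)
    (o : (Fin (2 * n + 1) → ι) → A) (y : ι → A) : fT h hP o y = fT h' hP o y := by
  subst hw
  rfl

theorem SI_fG_of {X : Space} {a : Fin (2 * n + 1) → ι → ℝ} (ha : ∀ i j, ∑ x, a i x * a j x = if i = j then 1 else 0)
    {P : Matrix ι ι (SF (X.xP (2 * n + 1)))} {o : (Fin (2 * n + 1) → ι) → SF (X.xP (2 * n + 1))}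
    {y : ι → SF (X.xP (2 * n + 1))} (hP : P = PC X a) (ho : o = fun I => algebraMap ℝ _ (1 * dtn a I)) (hy : y = YSF X a)
    (h : Or (2 * n + 1) P o) (hs : Sec P y) :
    SI (2 * n + 1) X (fG (FO (X.xP (2 * n + 1))) P o y) = algebraMap ℝ (Om X) (-2) := by
  subst hP ho hy
  rw [SI_fG_PC ha h hs, mul_one]

theorem SI_psiG_of {X : Space} {a : Fin (2 * (n + 1)) → ι → ℝ}
    (ha : ∀ i j, ∑ x, a i x * a j x = if i = j then 1 else 0)
    {P : Matrix ι ι (SF (X.xP (2 * (n + 1))))} {o : (Fin (2 * (n + 1)) → ι) → SF (X.xP (2 * (n + 1)))}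
    {y : ι → SF (X.xP (2 * (n + 1)))} (hP : P = PC X a) (ho : o = fun I => algebraMap ℝ _ (1 * dtn a I))
    (hy : y = YSF X a) :
    SI (2 * (n + 1)) X (psiG (FO (X.xP (2 * (n + 1)))) P o y) = algebraMap ℝ (Om X) ((-1) ^ (n + 1)) := by
  subst hP ho hy
  rw [SI_psiG_PC ha, mul_one]

variable {b : OBun (2 * n + 1) (EuclideanSpace ℝ (Fin D)) B} {hb : TBun b} {hr : 0 < 2 * n + 1} {e : ι ≃ Fin D}
  {P : Matrix ι ι (SF b.S)} {o : (Fin (2 * n + 1) → ι) → SF b.S} {y : ι → SF b.S}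

theorem SI_fT_pt (d : Dat b hb hr e P o y) {w : Matrix ι ι (Om b.S)} (h : Cn (FO b.S) P w) (ho : Or (2 * n + 1) P o)
    (hy : Sec P y) (h0 : ∀ (Q : b.F.Plot 0) (i j : ι), (ptF b Q).pull (w i j) = 0) (Q : b.F.Plot 0) :
    SI (2 * n + 1) (spV 0) ((ptF b Q).pull (fT h ho.idem o y)) = algebraMap ℝ (Om (spV 0)) (-2) := by
  have hw : w.map (FHom.pull (ptF b Q)).h.f = 0 := Matrix.ext fun i j => h0 Q i j
  have h' : Cn (FO ((spV 0).xP (2 * n + 1))) (P.map (FHom.pull (ptF b Q)).g) (w.map (FHom.pull (ptF b Q)).h.f) := by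
    rw [hw]
    exact Cn_zero
  have ho' : Or (2 * n + 1) (P.map (FHom.pull (ptF b Q)).g) (fun I => (FHom.pull (ptF b Q)).g (o I)) :=
    ho.map' ((FHom.pull (ptF b Q)).g : SF b.S →+* SF ((spV 0).xP (2 * n + 1)))
  have hy' : Sec (P.map (FHom.pull (ptF b Q)).g) (fun l => (FHom.pull (ptF b Q)).g (y l)) := hy.map (FHom.pull (ptF b Q)).g
  have e1 : (ptF b Q).pull (fT h ho.idem o y) = fT h' ho'.idem (fun I => (FHom.pull (ptF b Q)).g (o I))
      (fun l => (FHom.pull (ptF b Q)).g (y l)) := FHom.fT (FHom.pull (ptF b Q)) h ho.idem h' ho'.idem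
  rw [e1, fT_congr hw h' Cn_zero, fT_zero _ ho' hy']
  refine SI_fG_of (fa_on b e Q) ?_ ?_ ?_ ho' hy'
  · rw [d.P]
    exact fa_P b hb hr e Q
  · rw [d.o]
    exact fa_o b hb hr e Q
  · rw [d.y]
    exact fa_y b hb e Q

/-- **the fibre integral of `fT`** -/
theorem PI_fT (hN : 1 ≤ 2 * n) (d : Dat b hb hr e P o y) {w : Matrix ι ι (Om b.S)} (h : Cn (FO b.S) P w)
    (ho : Or (2 * n + 1) P o) (hy : Sec P y) (hw : ∀ i j, Deg 1 (w i j))
    (h0 : ∀ (Q : b.F.Plot 0) (i j : ι), (ptF b Q).pull (w i j) = 0) :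
    (b.sb hN).PI (fT h ho.idem o y) = algebraMap ℝ (Om B) (-2) := by
  have key : SI (2 * n + 1) b.F (b.ptm.pull (fT h ho.idem o y)) = algebraMap ℝ (Om b.F) (-2) := by
    refine eq_of_pt (X := b.F) ?_ (Deg_alg b.F _) fun Q => ?_
    · refine Deg_SI (N := 2 * n) (j := 0) (Deg_pull b.ptm ?_)
      rw [zero_add]
      exact EGD.Deg_fT h ho.idem hw o y
    · rw [AlgHom.commutes, ← SI_nat, ← pull_comp]
      exact SI_fT_pt d h ho hy h0 Q
  refine (b.sb hN).lift.inj ?_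
  rw [(b.sb hN).q_PI, AlgHom.commutes]
  exact key

/-- the form `fG` of the sphere bundle -/
def fGS (b : OBun (2 * n + 1) (EuclideanSpace ℝ (Fin D)) B) (hb : TBun b) (hr : 0 < 2 * n + 1) : Om b.S :=
  fG (FO b.S) (pS b hb hr) (oS b hb hr) (yS b hb)

theorem Deg_fGS (b : OBun (2 * n + 1) (EuclideanSpace ℝ (Fin D)) B) (hb : TBun b) (hr : 0 < 2 * n + 1) :
    Deg (2 * n) (fGS b hb hr) := EGD.Deg_fG _ _ _

theorem d_fGS (b : OBun (2 * n + 1) (EuclideanSpace ℝ (Fin D)) B) (hb : TBun b) (hr : 0 < 2 * n + 1) :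
    dO _ (fGS b hb hr) = 0 := d_fG (φ := FO b.S) (orS b hb hr) (secS b hb hr)

/-- **the fibre integral of `fG`** -/
theorem PI_fGS (b : OBun (2 * n + 1) (EuclideanSpace ℝ (Fin D)) B) (hb : TBun b) (hr : 0 < 2 * n + 1)
    (hN : 1 ≤ 2 * n) : (b.sb hN).PI (fGS b hb hr) = algebraMap ℝ (Om B) (-2) := by
  have h := PI_fT (b := b) (hb := hb) (hr := hr) (e := Equiv.refl (Fin D)) (P := pS b hb hr) (o := oS b hb hr)
    (y := yS b hb) hN ⟨rfl, rfl, rfl⟩ (Cn_zero (φ := FO b.S)) (orS b hb hr) (secS b hb hr) (fun _ _ => Deg_zero)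
    (fun Q _ _ => map_zero _)
  rw [fT_zero _ (orS b hb hr) (secS b hb hr)] at h
  exact h

/-! ### even rank -/

/-- the angular form of the sphere bundle of a bundle of rank `2 (n + 1)` -/
def psiGS (b : OBun (2 * (n + 1)) (EuclideanSpace ℝ (Fin D)) B) (hb : TBun b) (hr : 0 < 2 * (n + 1)) : Om b.S :=
  psiG (FO b.S) (pS b hb hr) (oS b hb hr) (yS b hb)

theorem Deg_psiGS (b : OBun (2 * (n + 1)) (EuclideanSpace ℝ (Fin D)) B) (hb : TBun b) (hr : 0 < 2 * (n + 1)) :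
    Deg (2 * n + 1) (psiGS b hb hr) := EGD.Deg_psiG _ _ _

/-- `d psiG` is the pull-back of the Euler form -/
theorem d_psiGS (b : OBun (2 * (n + 1)) (EuclideanSpace ℝ (Fin D)) B) (hb : TBun b) (hr : 0 < 2 * (n + 1)) :
    dO _ (psiGS b hb hr) = b.pr.pull (eulG (FO B) (pm b hb hr) (ot b hb hr)) := by
  have h2 : dO _ (psiGS b hb hr) = eulG (FO b.S) (pS b hb hr) (oS b hb hr) :=
    d_psiG (φ := FO b.S) (orS b hb hr) (secS b hb hr)
  rw [h2]
  exact (FHom.eulG (FHom.pull b.pr) (P := pm b hb hr) (ot b hb hr)).symm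

theorem SI_psiG_pt (b : OBun (2 * (n + 1)) (EuclideanSpace ℝ (Fin D)) B) (hb : TBun b) (hr : 0 < 2 * (n + 1))
    (Q : b.F.Plot 0) :
    SI (2 * (n + 1)) (spV 0) ((ptF b Q).pull (psiGS b hb hr)) = algebraMap ℝ (Om (spV 0)) ((-1) ^ (n + 1)) := by
  have e1 : (ptF b Q).pull (psiGS b hb hr) = psiG (FO ((spV 0).xP (2 * (n + 1))))
      ((pS b hb hr).map (FHom.pull (ptF b Q)).g) (fun I => (FHom.pull (ptF b Q)).g (oS b hb hr I))
      (fun l => (FHom.pull (ptF b Q)).g (yS b hb l)) :=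
    FHom.psiG (FHom.pull (ptF b Q)) (P := pS b hb hr) (y := yS b hb) (o := oS b hb hr)
  rw [e1]
  exact SI_psiG_of (fa_on b (Equiv.refl (Fin D)) Q) (fa_P b hb hr (Equiv.refl (Fin D)) Q)
    (fa_o b hb hr (Equiv.refl (Fin D)) Q) (fa_y b hb (Equiv.refl (Fin D)) Q)

/-- **the fibre integral of `psiG`** -/
theorem PI_psiGS (b : OBun (2 * (n + 1)) (EuclideanSpace ℝ (Fin D)) B) (hb : TBun b) (hr : 0 < 2 * (n + 1))
    (hN : 1 ≤ 2 * n + 1) :
    (OBun.sb (N := 2 * n + 1) b hN).PI (psiGS b hb hr) = algebraMap ℝ (Om B) ((-1) ^ (n + 1)) := by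
  have key : SI (2 * (n + 1)) b.F (b.ptm.pull (psiGS b hb hr)) = algebraMap ℝ (Om b.F) ((-1) ^ (n + 1)) := by
    refine eq_of_pt (X := b.F) ?_ (Deg_alg b.F _) fun Q => ?_
    · refine Deg_SI (N := 2 * n + 1) (j := 0) (Deg_pull b.ptm ?_)
      rw [zero_add]
      exact Deg_psiGS b hb hr
    · rw [AlgHom.commutes, ← SI_nat, ← pull_comp]
      exact SI_psiG_pt b hb hr Q
  refine (OBun.sb (N := 2 * n + 1) b hN).lift.inj ?_
  rw [(OBun.sb (N := 2 * n + 1) b hN).q_PI, AlgHom.commutes]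
  exact key

end Pool.Agent.Lib.MP_ccbbf6_gt.L5.EGP
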