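import Pool.Agent.Lib.MP_ccbbf6_gt.L5.TP06
import Pool.Agent.Lib.MP_ccbbf6_gt.L5.TP08

/-!
# Level 5, block 3PT 9: the three point formula (helper56)

`TPB.three` : from the data `TPB` (sphere bundle `G → M`, `u`, `ψ`), the matrices `PM` (tangent bundle) and `PV`
(the bundle `V` over `F`), `V_12 ∩ V_13 = 0` for `x2 ≠ x3`, a primitive of `u2 - u3` near `x2 = x3`, and the classes
`p(TM) = P(u)`, `p(V) = 1 + b (u1 + u2) + (u1 - u2)^2`: `P (1 + 2 b X) = (1 + b X + X^2)^(m + 1)` up to degree `m`.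
-/

set_option autoImplicit false
set_option maxSynthPendingDepth 3

open Matrix

noncomputable section

namespace Pool.Agent.Lib.MP_ccbbf6_gt.L5

open L4 L4.FR

variable {M G F : Space} {N K : ℕ} (D : TPB M G F N K)

namespace TPB

/-- triples with different second and third point -/
def neU : Set D.N3.pt := {z | D.e2.1 z.1.2 ≠ D.e2.1 z.1.1}

/-- the pair `(x1, x2)` -/
def p12 : SMap (sub D.N3 D.neU) F := (fp2 D.e1 D.e1).comp (inU D.N3 D.neU)
/-- the pair `(x1, x3)` -/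
def p13 : SMap (sub D.N3 D.neU) F := (fp1 D.e1 D.e1).comp (inU D.N3 D.neU)

theorem e1_12 : D.e1.comp D.p12 = D.e1.comp D.p13 := SMap_ext fun z => z.1.2.symm

/-- the class of `u` -/
def cu : (GO M).HE := GDA.cl (G := GO M) D.u D.u_e D.u_d

/-- the class of `u1` on `F` -/
def c1 : (GO F).HE := (GHom.pull D.e1).he D.cu
/-- the class of `u2` on `F` -/
def c2 : (GO F).HE := (GHom.pull D.e2).he D.cu

/-- the data on the triples -/
def toTPD' (hU : OpenU D.N3 D.neU) {lam : Om D.N3} (lam_o : sO _ lam = -lam)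
    (lam_v : ∀ (k : ℕ) (p : D.N3.Plot k) (x : V k), D.e2.1 (p.1 x).1.2 = D.e2.1 (p.1 x).1.1 →
      ∀ᶠ y in nhds x, ev y (Om.on ((D.e2.comp (fp2 D.e1 D.e1)).pull D.u - (D.e2.comp (fp1 D.e1 D.e1)).pull D.u -
        dO _ lam) p) = 0) : TPD (fp D.b.pi D.b.pi) D.N3 D.neU K :=
  D.toTPG.toTPD hU lam lam_o fun k p x hx => lam_v k p x (not_not.1 hx)

section ser

variable {R R' : Type*} [CommRing R] [Algebra ℝ R] [CommRing R'] [Algebra ℝ R']

theorem map_Asr (f : R →ₐ[ℝ] R') (b : ℝ) (u v : R) :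
    PowerSeries.map (f : R →+* R') (Asr b u v) = Asr b (f u) (f v) := by
  unfold Asr
  simp only [map_add, map_mul, map_pow, map_one, PowerSeries.map_C, PowerSeries.map_X, RingHom.coe_coe, map_smul,
    map_sub]

end ser

/-- **The three point formula.** -/
theorem three {ι : Type*} [Fintype ι] [DecidableEq ι] {PM : Matrix ι ι (SF M)} {PV : Matrix ι ι (SF F)}
    (iM : PM * PM = PM) (sM : PMᵀ = PM) (iV : PV * PV = PV) (sV : PVᵀ = PV)
    (hVM : PM.map (pf D.e1) * PV = PV) (hVM' : PV * PM.map (pf D.e1) = PV) {d : ℕ} (hd1 : 1 ≤ d)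
    (trM : ∀ x, trace (PM.map (vl x)) = 2 * d * (K + 2)) (trV : ∀ x, trace (PV.map (vl x)) = 2 * d)
    (hd : ∀ (f f' : F.pt), D.e1.1 f = D.e1.1 f' → D.e2.1 f ≠ D.e2.1 f' → ∀ y : ι → ℝ,
      (PV.map (vl f)).mulVec y = y → (PV.map (vl f')).mulVec y = y → y = 0)
    (hU : OpenU D.N3 D.neU) {lam : Om D.N3} (lam_o : sO _ lam = -lam)
    (lam_v : ∀ (k : ℕ) (p : D.N3.Plot k) (x : V k), D.e2.1 (p.1 x).1.2 = D.e2.1 (p.1 x).1.1 →
      ∀ᶠ y in nhds x, ev y (Om.on ((D.e2.comp (fp2 D.e1 D.e1)).pull D.u - (D.e2.comp (fp1 D.e1 D.e1)).pull D.u -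
        dO _ lam) p) = 0)
    {b : ℝ} {P : PowerSeries ℝ} (hP : PowerSeries.constantCoeff P = 1) (hPM : PTd d iM = evS D.cu P)
    (hperV : Per d (hpb iV)) (hPV : PTd d iV = Asr b D.c1 D.c2) (j : ℕ) (hj : j ≤ K + 2) :
    PowerSeries.coeff j (P * (1 + 2 * PowerSeries.C b * PowerSeries.X)) =
      PowerSeries.coeff j (Aser b ^ (K + 3)) := by
  obtain ⟨T, hT⟩ : ∃ T : TPD (fp D.b.pi D.b.pi) D.N3 D.neU K, T = D.toTPD' hU lam_o lam_v := ⟨_, rfl⟩
  have cv : ∀ {X Y Z : Space} (g : SMap Y Z) (f : SMap X Y) (Q : Matrix ι ι (SF Z)),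
      (Q.map (pf g)).map (pf f) = Q.map (pf (g.comp f)) := fun _ _ _ => rfl
  have mm : ∀ {X Y : Space} (f : SMap X Y) {A B C : Matrix ι ι (SF Y)}, A * B = C →
      A.map (pf f) * B.map (pf f) = C.map (pf f) := fun f A B C e => by rw [← Matrix.map_mul, e]
  have mt : ∀ {X Y : Space} (f : SMap X Y) {A : Matrix ι ι (SF Y)}, Aᵀ = A → (A.map (pf f))ᵀ = A.map (pf f) :=
    fun f A e => by rw [← Matrix.transpose_map, e]
  have h : Tr2 (PM.map (pf (D.e1.comp D.p13))) (PV.map (pf D.p12)) (PV.map (pf D.p13)) :=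
    { i1 := mm _ iM
      i2 := mm _ iV
      i3 := mm _ iV
      l2 := by rw [← D.e1_12, ← cv]; exact mm _ hVM
      l2' := by rw [← D.e1_12, ← cv]; exact mm _ hVM'
      l3 := by rw [← cv]; exact mm _ hVM
      l3' := by rw [← cv]; exact mm _ hVM' }
  have hC := C_unit h (mt _ sV) (mt _ sM) (mt _ sV) fun x y hy2 hy3 =>
    hd (D.p12.1 x) (D.p13.1 x) (congrFun (congrArg Subtype.val D.e1_12) x) x.2 y hy2 hy3
  have hper2 : Per d (hpb h.i2) := by
    have := Per_map (GHom.pull D.p12).he hperV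
    refine Per_congr (fun k => ?_) this
    exact hpb_pull iV D.p12 (k + 1)
  have hper3 : Per d (hpb h.i3) := by
    have := Per_map (GHom.pull D.p13).he hperV
    refine Per_congr (fun k => ?_) this
    exact hpb_pull iV D.p13 (k + 1)
  have hwh := PT_cmpl hd1 h hC hper2 hper3
  have e1 : PTd d h.i1 = evS (TPD.resH D.N3 D.neU T.z1) P := by
    have h1 := PT_pull d iM (D.e1.comp D.p13)
    rw [hPM, map_evS] at h1
    rw [hT]
    exact h1.symm
  have e3 : PTd d h.i3 = Asr b (TPD.resH D.N3 D.neU T.z1) (TPD.resH D.N3 D.neU T.z3) := by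
    have h1 := PT_pull d iV D.p13
    rw [hPV, map_Asr] at h1
    rw [hT]
    exact h1.symm
  have e2 : PTd d h.i2 = Asr b (TPD.resH D.N3 D.neU T.z1) (TPD.resH D.N3 D.neU T.z2) := by
    have h1 := PT_pull d iV D.p12
    rw [hPV, map_Asr] at h1
    have h2 : (GHom.pull D.p12).he D.c1 = TPD.resH D.N3 D.neU T.z1 := by
      have h3 : (GHom.pull (D.e1.comp D.p12)).he D.cu = (GHom.pull (D.e1.comp D.p13)).he D.cu := by rw [D.e1_12]
      rw [hT]
      exact h3
    rw [h2] at h1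
    rw [hT] at h1 ⊢
    exact h1.symm
  refine T.main hP (Z := PTd d (h.Z_Z hC)) ?_ (fun i hi => ?_) j hj
  · rw [← e1, ← e2, ← e3, hwh]
    ring
  · refine PT_rank (h.Z_Z hC) (r := 2 * d * K) (fun x => ?_) ?_
    · rw [tr_map, h.tr_Z hC, map_sub, map_sub, ← tr_map, ← tr_map, ← tr_map]
      have t1 : trace ((PM.map (pf (D.e1.comp D.p13))).map (vl x)) = 2 * d * (K + 2) := trM _
      have t2 : trace ((PV.map (pf D.p12)).map (vl x)) = 2 * d := trV _
      have t3 : trace ((PV.map (pf D.p13)).map (vl x)) = 2 * d := trV _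
      rw [t1, t2, t3]
      push_cast
      linarith
    · nlinarith

end TPB

end Pool.Agent.Lib.MP_ccbbf6_gt.L5
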