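import Pool.Agent.Lib.MP_ccbbf6_gt.L4.Cmp2

/-!
# Level 5, block PHI 2: the forms of a homotopy for an even closed form; involutions (helper56)
-/

set_option autoImplicit false
set_option maxSynthPendingDepth 3

open Set Filter Topology
open scoped TensorProduct

noncomputable section

namespace Pool.Agent.Lib.MP_ccbbf6_gt.L5

open L4 L4.FR

variable {k l n : ℕ} {X Y M : Space}

/-! ### Parity of `K`, `ι`, averages -/

lemma KK_sgP (x : Fm (k + 1)) : sg k (KK k x) = -KK k (sg (k + 1) x) := by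
  rw [KK_apply, ← Q0_sg, cs, sg_cn, map_neg, KK_apply, cs]

lemma K_s (θ : Om X.xR) : sO X (KO X θ) = -KO X (sO _ θ) :=
  Om_ext fun k p => by rw [on_s, on_K, KK_sgP, on_neg, on_K, on_s]

lemma i_s (c : Circ X) (θ : Om X) : sO X (iO c θ) = -iO c (sO X θ) :=
  Om_ext fun k p => by rw [on_s, on_i, pb_sg, cs, sg_cn, map_neg, on_neg, on_i, on_s, cs]

lemma A_s (c : Circ X) (θ : Om X) : sO X (AO c θ) = AO c (sO X θ) :=
  Om_ext fun k p => by rw [on_s, on_A, ← Q0_sg, on_A, on_s]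

/-! ### The forms of a homotopy -/

section

variable (f : SMap X.xR M) {ω : Om M} (hs : sO M ω = ω) (hω : dO M ω = 0)

include hs in
lemma s_pull_ev : sO X.xR (f.pull ω) = f.pull ω := by rw [pull_s, hs]

include hs in
lemma s_wt_ev (t : ℝ) : sO X (wt f ω t) = wt f ω t := by
  unfold wt
  rw [pull_s, pull_s, hs]

include hs in
lemma s_bh_ev : sO X.xR (bh f ω) = -bh f ω := by
  unfold bh
  rw [K_s, pull_s, pull_s, hs]

include hs in
lemma s_b0_ev : sO X (b0 f ω) = -b0 f ω := by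
  unfold b0
  rw [K_s, pull_s, hs]

include hs in
lemma s_HH_ev (m : ℕ) : sO X.xR (HH f ω m) = HH f ω m := by
  unfold HH
  rw [map_sum]
  refine Finset.sum_congr rfl fun j _ => ?_
  rw [map_mul, map_pow, map_pow, s_pull_ev f hs, pull_s, s_wt_ev f hs]

include hω in
/-- `d β = w_1 - w_0` -/
lemma d_b0_ev : dO X (b0 f ω) = wt f ω 1 - wt f ω 0 := by
  have h := d_K (f.pull ω)
  have h3 : dO X.xR (f.pull ω) = 0 := by rw [pull_d, hω, map_zero]
  rw [h3, map_zero, add_zero] at h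
  exact h

include hs hω in
lemma d_TH_ev {m : ℕ} (hp : ω ^ (m + 1) = 0) : dO X.xR (TH f ω m) = 0 := by
  unfold TH
  rw [d_mul, d_HH f ω hω, mul_zero, add_zero, d_bh f ω hω]
  have hc : Commute ((pO X).pull (wt f ω 0)) (f.pull ω) := (even_comm' (s_pull_ev f hs) _).symm
  have h3 := hc.mul_geom_sum₂ (m + 1)
  have h4 : (pO X).pull (wt f ω 0) ^ (m + 1) = 0 := by
    unfold wt
    rw [← map_pow, ← map_pow, ← map_pow, hp, map_zero, map_zero, map_zero]
  have h5 : f.pull ω ^ (m + 1) = 0 := by rw [← map_pow, hp, map_zero]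
  rw [h4, h5, sub_zero] at h3
  rw [← neg_sub, neg_mul, neg_eq_zero]
  exact h3

include hs hω in
/-- `d ζ = β h_m(w_0, w_1)` -/
lemma d_z0_ev {m : ℕ} (hp : ω ^ (m + 1) = 0) :
    dO X (z0 f ω m) = b0 f ω * ∑ j ∈ Finset.range (m + 1), wt f ω 0 ^ j * wt f ω 1 ^ (m - j) := by
  have h := d_K (TH f ω m)
  rw [d_TH_ev f hs hω hp, map_zero, add_zero] at h
  unfold z0
  rw [h]
  unfold TH
  rw [map_mul, map_mul, bh_one, bh_zero, zero_mul, sub_zero]
  congr 1
  unfold HH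
  rw [map_sum]
  refine Finset.sum_congr rfl fun j _ => ?_
  rw [map_mul, map_pow, map_pow, j_p]
  rfl

variable (I : Om X →ₗ[ℝ] ℝ) (hd : ∀ x, I (dO X x) = 0)

include hs hω hd in
/-- homotopy invariance of `∫ g w^m s`, `ds = w^m`, with an even closed factor `g` -/
lemma hopf_ev {m : ℕ} (hp : ω ^ (m + 1) = 0) (hm1 : 1 ≤ m) {g : Om X} (hdg : dO X g = 0)
    {s0 : Om X} (hs0 : dO X s0 = wt f ω 0 ^ m) :
    ∃ s1, dO X s1 = wt f ω 1 ^ m ∧ I (g * (wt f ω 1 ^ m * s1)) = I (g * (wt f ω 0 ^ m * s0)) := by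
  have hcl : dO M (ω ^ m) = 0 := d_pow_zero hω m
  have hb := d_bh f (ω ^ m) hcl
  have hw0 : wt f (ω ^ m) 0 = wt f ω 0 ^ m := by
    unfold wt
    rw [map_pow, map_pow]
  have hw1 : (jO X 1).pull (f.pull (ω ^ m)) = wt f ω 1 ^ m := by
    unfold wt
    rw [map_pow, map_pow]
  obtain ⟨t, ht⟩ : ∃ t, t = (pO X).pull s0 + bh f (ω ^ m) := ⟨_, rfl⟩
  have hdt : dO X.xR t = f.pull (ω ^ m) := by
    rw [ht, map_add, pull_d, hs0, hb, hw0]
    abel
  have ht0 : (jO X 0).pull t = s0 := by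
    rw [ht, map_add, j_p, bh_zero, add_zero]
  refine ⟨(jO X 1).pull t, ?_, ?_⟩
  · rw [pull_d, hdt, hw1]
  · have hev : sO X.xR (f.pull (ω ^ m)) = f.pull (ω ^ m) := by
      rw [pull_s, map_pow, hs]
    have hz0 : dO X.xR (f.pull (ω ^ m) * t) = 0 := by
      rw [d_mul, pull_d, hcl, map_zero, zero_mul, zero_add, hev, hdt, ← map_mul, ← pow_add]
      have h4 : m + m = (m + 1) + (m - 1) := by omega
      rw [h4, pow_add, hp, zero_mul, map_zero]
    have hz : dO X.xR ((pO X).pull g * (f.pull (ω ^ m) * t)) = 0 := by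
      rw [d_mul, hz0, mul_zero, add_zero, pull_d, hdg, map_zero, zero_mul]
    have h5 := d_K ((pO X).pull g * (f.pull (ω ^ m) * t))
    rw [hz, map_zero, add_zero, map_mul (jO X 1).pull, map_mul (jO X 0).pull, j_p, j_p, map_mul (jO X 1).pull,
      map_mul (jO X 0).pull, ht0, hw1] at h5
    have h6 : (jO X 0).pull (f.pull (ω ^ m)) = wt f ω 0 ^ m := hw0
    rw [h6] at h5
    have h7 := hd (KO X ((pO X).pull g * (f.pull (ω ^ m) * t)))
    rw [h5, map_sub] at h7
    linarith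

end

/-! ### Equivariant maps -/

section

variable (c : Circ X) (c' : Circ Y) {t : SMap Y X} (ht : ∀ x s, t.1 (c'.a.1 (x, s)) = c.a.1 (t.1 x, s))

include ht

lemma op_eqv (p : Y.Plot k) : t.pl (c'.op p) = c.op (t.pl p) := Plot_ext fun _ => ht _ _

lemma i_eqv (θ : Om X) : t.pull (iO c θ) = iO c' (t.pull θ) :=
  Om_ext fun k p => by rw [on_pull, on_i, on_i, on_pull, op_eqv c c' ht]

lemma A_eqv (θ : Om X) : t.pull (AO c θ) = AO c' (t.pull θ) :=
  Om_ext fun k p => by rw [on_pull, on_A, on_A, on_pull, op_eqv c c' ht]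

lemma Bas_eqv {w : Om X} (h : Bas c w) : Bas c' (t.pull w) := fun k p => by
  rw [on_pull, op_eqv c c' ht, h, on_pull]

end

end Pool.Agent.Lib.MP_ccbbf6_gt.L5
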