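import Pool.Agent.Lib.MP_ccbbf6_gt.L4.FXb
import Pool.Agent.Lib.MP_ccbbf6_gt.L5.Ofv

/-!
# Level 5: plot-open subspaces and extension by zero (helper56)

* `sub X U`, `inU X U : SMap (sub X U) X`; `OpenU X U` : preimages of `U` under plots are open;
* `Van X U θ` : the form `θ` on `sub X U` vanishes near all plot points outside `U`;
* `ext0 hU θ h : Om X` : extension by zero; `ext0_res`, `ext0_d`, `ext0_mul`, `mul_ext0`, `ext0_add`, `ext0_smul`,
  `ext0_pull`, `Deg_ext0`, `ext_unique`.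
-/

set_option autoImplicit false
set_option maxSynthPendingDepth 3

open Set Filter Topology MeasureTheory
open scoped TensorProduct ContDiff

noncomputable section

namespace Pool.Agent.Lib.MP_ccbbf6_gt.L5

open L4 L4.FR

variable {k l n : ℕ}

/-- subspace -/
def sub (X : Space) (U : Set X.pt) : Space where
  pt := {x : X.pt // x ∈ U}
  Pl k := {p | (fun x => (p x).1) ∈ X.Pl k}
  pre := fun {_ _ _} hp g => X.pre hp g

/-- inclusion -/
def inU (X : Space) (U : Set X.pt) : SMap (sub X U) X := ⟨fun x => x.1, fun _ p => p.2⟩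

/-- preimages under plots are open -/
def OpenU (X : Space) (U : Set X.pt) : Prop := ∀ (k : ℕ) (p : X.Plot k), IsOpen (p.1 ⁻¹' U)

/-- inclusion of the points -/
def vU (X : Space) (U : Set X.pt) : (sub X U).pt → X.pt := fun x => x.1

lemma vU_inj (X : Space) (U : Set X.pt) : Function.Injective (vU X U) := Subtype.val_injective

variable {X Y : Space} {U : Set X.pt}

lemma OpenU_inter {V : Set X.pt} (h : OpenU X U) (h' : OpenU X V) : OpenU X (U ∩ V) := fun k p => (h k p).inter (h' k p)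

lemma OpenU_pre (f : SMap Y X) (h : OpenU X U) : OpenU Y (f.1 ⁻¹' U) := fun k p => h k (f.pl p)

lemma OpenU_lt {f g : X.pt → ℝ} (hf : ∀ (k : ℕ) (p : X.Plot k), Continuous fun x => f (p.1 x))
    (hg : ∀ (k : ℕ) (p : X.Plot k), Continuous fun x => g (p.1 x)) : OpenU X {x | f x < g x} :=
  fun k p => isOpen_lt (hf k p) (hg k p)

lemma locPl_mem {p : V k → X.pt} {z : V k} (h : LocPl (vU X U) p z) : p z ∈ U := by
  obtain ⟨P, hP⟩ := h
  rw [← hP.self_of_nhds]
  exact (P.1 z).2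

lemma locPl_of (hU : OpenU X U) (p : X.Plot k) {z : V k} (h : p.1 z ∈ U) : LocPl (vU X U) p.1 z := by
  obtain ⟨s, hs1, hs2⟩ := exists_sq z ((hU k p).mem_nhds h)
  refine ⟨⟨fun w => ⟨p.1 (s w), hs2 w⟩, X.pre p.2 s⟩, ?_⟩
  filter_upwards [hs1] with w hw
  change p.1 (s w) = p.1 w
  rw [hw]

lemma locPl_iff (hU : OpenU X U) (p : X.Plot k) {z : V k} : LocPl (vU X U) p.1 z ↔ p.1 z ∈ U :=
  ⟨fun h => locPl_mem h, locPl_of hU p⟩

lemma vAt_not (θ : Om (sub X U)) {p : V k → X.pt} {z : V k} (h : p z ∉ U) : vAt (vU X U) θ p z = 0 :=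
  vAt_of_not _ fun h1 => h (locPl_mem h1)

/-- values of restrictions -/
lemma vAt_res (hU : OpenU X U) (σ : Om X) (p : X.Plot k) {z : V k} (h : p.1 z ∈ U) :
    vAt (vU X U) ((inU X U).pull σ) p.1 z = ev z (Om.on σ p) := by
  obtain ⟨P, hP⟩ := locPl_of hU p h
  rw [vAt_eq (vU_inj X U) _ P hP, on_pull]
  exact ev_on_congr σ hP

/-- the form vanishes near the points outside `U` -/
def Van (X : Space) (U : Set X.pt) (θ : Om (sub X U)) : Prop :=
  ∀ (k : ℕ) (p : X.Plot k) (x : V k), p.1 x ∉ U → ∀ᶠ y in 𝓝 x, vAt (vU X U) θ p.1 y = 0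

lemma SmE_vAt (hU : OpenU X U) {θ : Om (sub X U)} (h : Van X U θ) (p : X.Plot k) :
    SmE fun y => vAt (vU X U) θ p.1 y := by
  refine SmE_of_loc fun x => ?_
  by_cases hx : p.1 x ∈ U
  · obtain ⟨P, hP⟩ := locPl_of hU p hx
    exact ⟨Om.on θ P, vAt_eventuallyEq (vU_inj X U) θ P hP⟩
  · refine ⟨0, ?_⟩
    filter_upwards [h k p x hx] with y hy
    rw [hy, map_zero]

/-- extension by zero -/
def ext0 (hU : OpenU X U) (θ : Om (sub X U)) (h : Van X U θ) : Om X :=
  mkO (fun k p => ofV fun y => vAt (vU X U) θ p.1 y) (fun k l p g => by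
    refine ofV_ext (SmE_vAt hU h (p.cmp g)) fun x => ?_
    rw [ev_pb, ev_ofV (SmE_vAt hU h p), tr_eq]
    by_cases hx : p.1 (g x) ∈ U
    · exact (vAt_comp (vU_inj X U) θ (Eventually.of_forall fun y => g.smooth.contDiffAt) (locPl_of hU p hx)).2
    · rw [vAt_not (U := U) θ hx, map_zero]
      exact vAt_not θ hx)

variable (hU : OpenU X U)

lemma ev_ext0 {θ : Om (sub X U)} (h : Van X U θ) (p : X.Plot k) (x : V k) :
    ev x (Om.on (ext0 hU θ h) p) = vAt (vU X U) θ p.1 x := ev_ofV (SmE_vAt hU h p) x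

lemma ev_ext0_not {θ : Om (sub X U)} (h : Van X U θ) (p : X.Plot k) {x : V k} (hx : p.1 x ∉ U) :
    ev x (Om.on (ext0 hU θ h) p) = 0 := by rw [ev_ext0, vAt_not θ hx]

/-- the restriction of the extension -/
lemma ext0_res {θ : Om (sub X U)} (h : Van X U θ) : (inU X U).pull (ext0 hU θ h) = θ :=
  Om_ext fun k p => ev_ext fun x => by
    rw [on_pull, ev_ext0]
    exact vAt_eq (vU_inj X U) θ p (Eventually.of_forall fun _ => rfl)

/-- a form is determined by its restriction to `U` and its values outside -/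
lemma ext_unique (hU : OpenU X U) {σ τ : Om X} (h : (inU X U).pull σ = (inU X U).pull τ)
    (h2 : ∀ (k : ℕ) (p : X.Plot k) (x : V k), p.1 x ∉ U → ev x (Om.on σ p) = ev x (Om.on τ p)) : σ = τ :=
  Om_ext fun k p => ev_ext fun x => by
    by_cases hx : p.1 x ∈ U
    · rw [← vAt_res hU σ p hx, ← vAt_res hU τ p hx, h]
    · exact h2 k p x hx

/-- characterisation of the extension -/
lemma ext0_unique {θ : Om (sub X U)} (h : Van X U θ) {σ : Om X} (h1 : (inU X U).pull σ = θ)
    (h2 : ∀ (k : ℕ) (p : X.Plot k) (x : V k), p.1 x ∉ U → ev x (Om.on σ p) = 0) : ext0 hU θ h = σ :=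
  ext_unique hU (by rw [ext0_res, h1]) fun k p x hx => by rw [ev_ext0_not hU h p hx, h2 k p x hx]

/-! ### Forms which vanish near the complement -/

lemma Van_zero : Van X U 0 := fun k p x _ => Eventually.of_forall fun y => by
  by_cases h : LocPl (vU X U) p.1 y
  · obtain ⟨P, hP⟩ := h
    rw [vAt_eq (vU_inj X U) _ P hP, on_zero, map_zero]
  · exact vAt_of_not _ h

lemma Van_add {θ τ : Om (sub X U)} (h : Van X U θ) (h' : Van X U τ) : Van X U (θ + τ) := fun k p x hx => by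
  filter_upwards [h k p x hx, h' k p x hx] with y h1 h2
  rw [vAt_add (vU_inj X U), h1, h2, add_zero]

lemma Van_smul (r : ℝ) {θ : Om (sub X U)} (h : Van X U θ) : Van X U (r • θ) := fun k p x hx => by
  filter_upwards [h k p x hx] with y h1
  rw [vAt_smul (vU_inj X U), h1, smul_zero]

lemma Van_neg {θ : Om (sub X U)} (h : Van X U θ) : Van X U (-θ) := by
  have := Van_smul (-1) h
  rwa [neg_one_smul] at this

lemma Van_sub {θ τ : Om (sub X U)} (h : Van X U θ) (h' : Van X U τ) : Van X U (θ - τ) := by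
  rw [sub_eq_add_neg]
  exact Van_add h (Van_neg h')

lemma Van_mul {θ : Om (sub X U)} (h : Van X U θ) (τ : Om (sub X U)) : Van X U (θ * τ) := fun k p x hx => by
  filter_upwards [h k p x hx] with y h1
  rw [vAt_mul (vU_inj X U), h1, zero_mul]

lemma mul_Van (τ : Om (sub X U)) {θ : Om (sub X U)} (h : Van X U θ) : Van X U (τ * θ) := fun k p x hx => by
  filter_upwards [h k p x hx] with y h1
  rw [vAt_mul (vU_inj X U), h1, mul_zero]

lemma Van_d (hU : OpenU X U) {θ : Om (sub X U)} (h : Van X U θ) : Van X U (dO _ θ) := fun k p x hx => by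
  filter_upwards [(h k p x hx).eventually_nhds] with y hy
  by_cases hy2 : p.1 y ∈ U
  · obtain ⟨P, hP⟩ := locPl_of hU p hy2
    rw [vAt_eq (vU_inj X U) _ P hP, on_d]
    have h1 : ev y (dd k (Om.on θ P)) = ev y (dd k 0) := by
      refine ev_dd_congr ?_
      filter_upwards [hy, vAt_eventuallyEq (vU_inj X U) θ P hP] with z h2 h3
      rw [← h3, h2, map_zero]
    rw [h1, map_zero, map_zero]
  · exact vAt_not _ hy2

/-- restrictions of forms which vanish near the complement -/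
lemma Van_res (hU : OpenU X U) {σ : Om X}
    (h : ∀ (k : ℕ) (p : X.Plot k) (x : V k), p.1 x ∉ U → ∀ᶠ y in 𝓝 x, ev y (Om.on σ p) = 0) :
    Van X U ((inU X U).pull σ) := fun k p x hx => by
  filter_upwards [h k p x hx] with y hy
  by_cases hy2 : p.1 y ∈ U
  · rw [vAt_res hU σ p hy2, hy]
  · exact vAt_not _ hy2

/-- cut-off functions -/
lemma Van_fO (hU : OpenU X U) {f : X.pt → ℝ} (hf : ∀ (k : ℕ) (p : X.Plot k), ContDiff ℝ ∞ fun x => f (p.1 x))
    (h : ∀ (k : ℕ) (p : X.Plot k) (x : V k), p.1 x ∉ U → ∀ᶠ y in 𝓝 x, f (p.1 y) = 0) :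
    Van X U ((inU X U).pull (fO f hf)) :=
  Van_res hU fun k p x hx => by
    filter_upwards [h k p x hx] with y hy
    rw [ev_fO, hy, map_zero]

/-! ### Operations -/

lemma ext0_congr {θ τ : Om (sub X U)} (e : θ = τ) (h : Van X U θ) (h' : Van X U τ) :
    ext0 hU θ h = ext0 hU τ h' := by
  subst e
  rfl

lemma ext0_zero (h : Van X U 0) : ext0 hU 0 h = 0 :=
  ext0_unique hU h (map_zero _) fun k p x _ => by rw [on_zero, map_zero]

lemma ext0_add {θ τ : Om (sub X U)} (h : Van X U θ) (h' : Van X U τ) :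
    ext0 hU (θ + τ) (Van_add h h') = ext0 hU θ h + ext0 hU τ h' :=
  ext0_unique hU _ (by rw [map_add, ext0_res, ext0_res]) fun k p x hx => by
    rw [on_add, map_add, ev_ext0_not hU h p hx, ev_ext0_not hU h' p hx, add_zero]

lemma ext0_smul (r : ℝ) {θ : Om (sub X U)} (h : Van X U θ) :
    ext0 hU (r • θ) (Van_smul r h) = r • ext0 hU θ h :=
  ext0_unique hU _ (by rw [map_smul, ext0_res]) fun k p x hx => by
    rw [on_smul, map_smul, ev_ext0_not hU h p hx, smul_zero]

lemma ext0_neg {θ : Om (sub X U)} (h : Van X U θ) : ext0 hU (-θ) (Van_neg h) = -ext0 hU θ h :=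
  ext0_unique hU _ (by rw [map_neg, ext0_res]) fun k p x hx => by
    rw [on_neg, map_neg, ev_ext0_not hU h p hx, neg_zero]

lemma ext0_sub {θ τ : Om (sub X U)} (h : Van X U θ) (h' : Van X U τ) :
    ext0 hU (θ - τ) (Van_sub h h') = ext0 hU θ h - ext0 hU τ h' :=
  ext0_unique hU _ (by rw [map_sub, ext0_res, ext0_res]) fun k p x hx => by
    rw [on_sub, map_sub, ev_ext0_not hU h p hx, ev_ext0_not hU h' p hx, sub_zero]

/-- the value of `dθ` at a point outside `U` -/
lemma ev_d_ext0_not {θ : Om (sub X U)} (h : Van X U θ) (p : X.Plot k) {x : V k} (hx : p.1 x ∉ U) :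
    ev x (Om.on (dO X (ext0 hU θ h)) p) = 0 := by
  rw [on_d]
  have h1 : ev x (dd k (Om.on (ext0 hU θ h) p)) = ev x (dd k 0) := by
    refine ev_dd_congr ?_
    filter_upwards [h k p x hx] with y hy
    rw [ev_ext0, hy, map_zero]
  rw [h1, map_zero, map_zero]

lemma ext0_d {θ : Om (sub X U)} (h : Van X U θ) : dO X (ext0 hU θ h) = ext0 hU (dO _ θ) (Van_d hU h) :=
  (ext0_unique hU _ (by rw [← pull_d, ext0_res]) fun _ p _ hx => ev_d_ext0_not hU h p hx).symm

lemma ext0_mul {θ : Om (sub X U)} (h : Van X U θ) (σ : Om X) :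
    ext0 hU θ h * σ = ext0 hU (θ * (inU X U).pull σ) (Van_mul h _) :=
  (ext0_unique hU _ (by rw [map_mul, ext0_res]) fun k p x hx => by
    rw [on_mul, map_mul, ev_ext0_not hU h p hx, zero_mul]).symm

lemma mul_ext0 (σ : Om X) {θ : Om (sub X U)} (h : Van X U θ) :
    σ * ext0 hU θ h = ext0 hU ((inU X U).pull σ * θ) (mul_Van _ h) :=
  (ext0_unique hU _ (by rw [map_mul, ext0_res]) fun k p x hx => by
    rw [on_mul, map_mul, ev_ext0_not hU h p hx, mul_zero]).symm

lemma Van_s {θ : Om (sub X U)} (h : Van X U θ) : Van X U (sO _ θ) := fun k p x hx => by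
  filter_upwards [h k p x hx] with y h1
  by_cases hy : LocPl (vU X U) p.1 y
  · obtain ⟨P, hP⟩ := hy
    rw [vAt_eq (vU_inj X U) _ P hP] at h1 ⊢
    rw [on_s]
    have h2 : ∀ (a : Fm k), ev y (sg k a) = ivo k (ev y a) := by
      intro a
      induction a using Fm_tind with
      | hf f a => rw [sg_tm, ev_tm, ev_tm, map_smul]
      | ha x y hx hy => simp only [map_add, hx, hy]
    rw [h2, h1, map_zero]
  · exact vAt_of_not _ hy

lemma ev_sg' (y : V k) (a : Fm k) : ev y (sg k a) = ivo k (ev y a) := by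
  induction a using Fm_tind with
  | hf f a => rw [sg_tm, ev_tm, ev_tm, map_smul]
  | ha x y hx hy => simp only [map_add, hx, hy]

lemma ext0_s {θ : Om (sub X U)} (h : Van X U θ) : sO X (ext0 hU θ h) = ext0 hU (sO _ θ) (Van_s h) :=
  (ext0_unique hU _ (by rw [← pull_s, ext0_res]) fun k p x hx => by
    rw [on_s, ev_sg', ev_ext0_not hU h p hx, map_zero]).symm

lemma Deg_ext0 {j : ℕ} {θ : Om (sub X U)} (h : Van X U θ) (hd : Deg j θ) : Deg j (ext0 hU θ h) := by
  intro k p
  have key : ∀ x : V k, s2 k (ev x (Om.on (ext0 hU θ h) p)) = (2 : ℝ) ^ j • ev x (Om.on (ext0 hU θ h) p) ∧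
      ivo k (ev x (Om.on (ext0 hU θ h) p)) = (-1 : ℝ) ^ j • ev x (Om.on (ext0 hU θ h) p) := by
    intro x
    rw [ev_ext0]
    by_cases hx : p.1 x ∈ U
    · obtain ⟨P, hP⟩ := locPl_of hU p hx
      rw [vAt_eq (vU_inj X U) _ P hP, ← ev_Sc, ← ev_sg', (hd k P).1, (hd k P).2, map_smul, map_smul]
      exact ⟨rfl, rfl⟩
    · rw [vAt_not θ hx]
      simp
  constructor
  · refine ev_ext fun x => ?_
    rw [ev_Sc, (key x).1, map_smul]
  · refine ev_ext fun x => ?_
    rw [ev_sg', (key x).2, map_smul]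

/-! ### Naturality -/

/-- restriction of a map to the preimage of `U` -/
def resU (f : SMap Y X) (U : Set X.pt) : SMap (sub Y (f.1 ⁻¹' U)) (sub X U) :=
  ⟨fun y => ⟨f.1 y.1, y.2⟩, fun k p => f.2 k ((inU Y (f.1 ⁻¹' U)).pl p)⟩

lemma vAt_resU (hU : OpenU X U) (f : SMap Y X) (θ : Om (sub X U)) (p : Y.Plot k) (x : V k) :
    vAt (vU Y (f.1 ⁻¹' U)) ((resU f U).pull θ) p.1 x = vAt (vU X U) θ (f.pl p).1 x := by
  by_cases hx : p.1 x ∈ f.1 ⁻¹' U
  · obtain ⟨P, hP⟩ := locPl_of (OpenU_pre f hU) p hx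
    rw [vAt_eq (vU_inj _ _) _ P hP, on_pull]
    refine (vAt_eq (vU_inj X U) θ ((resU f U).pl P) ?_).symm
    filter_upwards [hP] with y hy
    change f.1 (P.1 y).1 = f.1 (p.1 y)
    have : (P.1 y).1 = p.1 y := hy
    rw [this]
  · rw [vAt_not (U := f.1 ⁻¹' U) _ hx]
    exact (vAt_not (U := U) θ hx).symm

lemma Van_pull (hU : OpenU X U) (f : SMap Y X) {θ : Om (sub X U)} (h : Van X U θ) :
    Van Y (f.1 ⁻¹' U) ((resU f U).pull θ) := fun k p x hx => by
  filter_upwards [h k (f.pl p) x hx] with y hy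
  rw [vAt_resU hU, hy]

/-- extension by zero is natural -/
lemma ext0_pull (f : SMap Y X) {θ : Om (sub X U)} (h : Van X U θ) :
    f.pull (ext0 hU θ h) = ext0 (OpenU_pre f hU) ((resU f U).pull θ) (Van_pull hU f h) :=
  Om_ext fun k p => ev_ext fun x => by
    rw [on_pull, ev_ext0, ev_ext0, vAt_resU hU]

end Pool.Agent.Lib.MP_ccbbf6_gt.L5
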