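import Pool.Agent.Lib.MP_ccbbf6_gt.L4.Eps
import Pool.Agent.Lib.MP_ccbbf6_gt.L5.Ext0

/-!
# Level 5, block 3PT 5: cutting off a primitive (helper56)

`exists_lam` : `f ≥ 0` continuous, `f ^ 2` smooth on `W = {f < π}`, `dκ = τ` on `W`: there is a form `lam` on the whole
space with `τ - d lam = 0` near `{f = 0}`.
-/

set_option autoImplicit false
set_option maxSynthPendingDepth 3

open Set Filter Topology
open scoped ContDiff

noncomputable section

namespace Pool.Agent.Lib.MP_ccbbf6_gt.L5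

open L4 L4.FR

variable {k l : ℕ} {N : Space}

/-- the region `f < c` -/
def ltU (f : N.pt → ℝ) (c : ℝ) : Set N.pt := {x | f x < c}

theorem open_ltU {f : N.pt → ℝ} (hf : ∀ (k : ℕ) (p : N.Plot k), Continuous fun x => f (p.1 x)) (c : ℝ) :
    OpenU N (ltU f c) := OpenU_lt hf fun _ _ => continuous_const

/-- local equality of forms -/
theorem ev_eq_of_res {U : Set N.pt} (hU : OpenU N U) {σ τ : Om N} (h : (inU N U).pull σ = (inU N U).pull τ)
    (p : N.Plot k) {x : V k} (hx : p.1 x ∈ U) : ev x (Om.on σ p) = ev x (Om.on τ p) := by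
  rw [← vAt_res hU σ p hx, ← vAt_res hU τ p hx, h]

/-- the cut-off function -/
def cutf (f : N.pt → ℝ) {c : ℝ} (hs : ∀ (k : ℕ) (p : (sub N (ltU f c)).Plot k), ContDiff ℝ ∞ fun x => f (p.1 x).1 ^ 2) :
    Om (sub N (ltU f c)) :=
  fO (fun x => 1 - chi (f x.1 ^ 2)) fun k p => contDiff_const.sub (contDiff_chi.comp (hs k p))

variable {f : N.pt → ℝ} {c : ℝ}

theorem van_cutf (hf : ∀ (k : ℕ) (p : N.Plot k), Continuous fun x => f (p.1 x)) (hc : 2 ≤ c)
    (hs : ∀ (k : ℕ) (p : (sub N (ltU f c)).Plot k), ContDiff ℝ ∞ fun x => f (p.1 x).1 ^ 2) :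
    Van N (ltU f c) (cutf f hs) := fun k p x hx => by
  have h1 : 2 ≤ f (p.1 x) := by
    by_contra h
    exact hx (show f (p.1 x) < c by linarith [not_le.1 h])
  have h2 : ∀ᶠ y in 𝓝 x, 3 / 2 < f (p.1 y) :=
    (hf k p).continuousAt.eventually (lt_mem_nhds (by linarith : (3 / 2 : ℝ) < f (p.1 x)))
  filter_upwards [h2] with y hy
  by_cases h3 : LocPl (vU N (ltU f c)) p.1 y
  · obtain ⟨P, hP⟩ := h3
    rw [vAt_eq (vU_inj N _) _ P hP]
    unfold cutf
    rw [ev_fO]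
    have h4 : (P.1 y).1 = p.1 y := hP.self_of_nhds
    rw [h4, chi_one (by nlinarith), sub_self, map_zero]
  · exact vAt_of_not _ h3

/-- **the cut-off primitive** -/
theorem exists_lam (hf : ∀ (k : ℕ) (p : N.Plot k), Continuous fun x => f (p.1 x)) (hc : 2 ≤ c)
    (hs : ∀ (k : ℕ) (p : (sub N (ltU f c)).Plot k), ContDiff ℝ ∞ fun x => f (p.1 x).1 ^ 2)
    {κ : Om (sub N (ltU f c))} {τ : Om N} (hκ : dO _ κ = (inU N (ltU f c)).pull τ) (hodd : sO _ κ = -κ) :
    ∃ lam : Om N, sO N lam = -lam ∧ ∀ (k : ℕ) (p : N.Plot k) (x : V k), f (p.1 x) = 0 →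
      ∀ᶠ y in 𝓝 x, ev y (Om.on (τ - dO N lam) p) = 0 := by
  have hv := Van_mul (van_cutf hf hc hs) κ
  refine ⟨ext0 (open_ltU hf c) _ hv, ?_, fun k p x hx => ?_⟩
  · rw [ext0_s, ← ext0_neg]
    refine ext0_congr _ ?_ _ _
    have h1 : sO _ (cutf f hs) = cutf f hs := Om_ext fun k p => ev_ext fun y => by
      unfold cutf
      rw [on_s, ev_sg', ev_fO, AlgHom.commutes]
    rw [map_mul, h1, hodd, mul_neg]
  · have h1 : ∀ᶠ y in 𝓝 x, f (p.1 y) < 1 :=
      (hf k p).continuousAt.eventually (gt_mem_nhds (show f (p.1 x) < 1 by rw [hx]; exact one_pos))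
    have h0 : ∀ᶠ y in 𝓝 x, -1 < f (p.1 y) :=
      (hf k p).continuousAt.eventually (lt_mem_nhds (show -1 < f (p.1 x) by rw [hx]; norm_num))
    filter_upwards [h1.and h0, (h1.and h0).eventually_nhds] with y hy hy2
    have hy3 : p.1 y ∈ ltU f c := by
      change f (p.1 y) < c
      linarith [hy.1]
    obtain ⟨P, hP⟩ := locPl_of (open_ltU hf c) p hy3
    have h2 : ∀ᶠ w in 𝓝 y, ev w (Om.on ((inU N (ltU f c)).pull (ext0 (open_ltU hf c) _ hv)) P) =
        ev w (Om.on κ P) := by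
      filter_upwards [hP, hy2] with w hw1 hw2
      rw [ext0_res, on_mul, map_mul]
      unfold cutf
      have h4 : (P.1 w).1 = p.1 w := hw1
      rw [ev_fO, h4, chi_zero (by nlinarith [hw2.1, hw2.2]), sub_zero, map_one, one_mul]
    have h3 : ev y (Om.on (dO N (ext0 (open_ltU hf c) _ hv)) p) = ev y (Om.on τ p) := by
      rw [← vAt_res (open_ltU hf c) _ p hy3, ← vAt_res (open_ltU hf c) _ p hy3, vAt_eq (vU_inj _ _) _ P hP,
        vAt_eq (vU_inj _ _) _ P hP, ← pull_d, on_d, ev_dd_congr h2, ← on_d, hκ]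
    rw [on_sub, map_sub, h3, sub_self]

end Pool.Agent.Lib.MP_ccbbf6_gt.L5
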