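import Pool.Agent.Lib.MP_ccbbf6_gt.L5.DG2
import Pool.Agent.Lib.MP_ccbbf6_gt.L5.PHI02
import Pool.Agent.Lib.MP_ccbbf6_gt.L5.TP05

/-!
# Level 5, block 3PT 10: the primitive of `x2^* u - x3^* u` near `x2 = x3` (helper56)

`exists_lam_geo` : `g, h : X → M`, `u` closed and even: there is an odd form `lam` on `X` with
`g^* u - h^* u - d lam = 0` near `{g = h}` (geodesic homotopy, cut off at distance `< 2`).
-/

set_option autoImplicit false
set_option maxSynthPendingDepth 3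

open Set Filter Topology Real
open scoped ContDiff RealInnerProductSpace

noncomputable section

namespace Pool.Agent.Lib.MP_ccbbf6_gt.L5

open L4 L4.FR L4.ORI Geo

variable {n : ℕ} {M : Type} [MetricSpace M] [CompactSpace M] {𝒜 : SDist n M} {X : Space}

/-- the square of the distance is smooth, both points moving -/
theorem contDiffAt_dist_sq2 (hB : Bl M) {E : Type*} [NormedAddCommGroup E] [NormedSpace ℝ E] {x y : E → M} {u : E}
    (hx : SmAt 𝒜 x u) (hy : SmAt 𝒜 y u) (hd : dist (x u) (y u) < π) :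
    ContDiffAt ℝ ∞ (fun v => dist (x v) (y v) ^ 2) u := by
  have h1 := smV_lg hB hx (𝒜.mem (x u)) hy hd
  have h2 := SmV.inner hx (𝒜.mem (x u)) h1 h1
  refine h2.congr_of_eventuallyEq (Eventually.of_forall fun v => ?_)
  show dist (x v) (y v) ^ 2 = ⟪lg 𝒜 (x v) (y v), lg 𝒜 (x v) (y v)⟫
  rw [real_inner_self_eq_norm_sq, norm_lg hB]

/-- distances of two maps into `M` -/
theorem cont_dist (g h : SMap X (spM 𝒜)) {k : ℕ} (p : X.Plot k) : Continuous fun x => dist (α := M) (g.1 (p.1 x)) (h.1 (p.1 x)) :=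
  (Sm.continuous (g.pl p).2).dist (Sm.continuous (h.pl p).2)

/-- the pairs at distance less than `c` -/
def dU (g h : SMap X (spM 𝒜)) (c : ℝ) : Set X.pt := ltU (fun z => dist (α := M) (g.1 z) (h.1 z)) c

/-- the geodesic homotopy from `h` to `g` on `{d(g, h) < c}` -/
def homo (hB : Bl M) (g h : SMap X (spM 𝒜)) {c : ℝ} (hc : c ≤ π) : SMap (sub X (dU g h c)).xR (spM 𝒜) :=
  ⟨fun z => rat (M := M) 𝒜 (h.1 z.1.1) (g.1 z.1.1) z.2, fun _ p u =>
    smAt_rat hB ((h.pl ⟨fun v => (p.1 v).1.1, p.2.1⟩).2 u) ((g.pl ⟨fun v => (p.1 v).1.1, p.2.1⟩).2 u)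
      (ContDiff.contDiffAt p.2.2) (by
        have h1 : dist (α := M) (g.1 (p.1 u).1.1) (h.1 (p.1 u).1.1) < c := (p.1 u).1.2
        rw [dist_comm] at h1
        exact lt_of_lt_of_le h1 hc)⟩

theorem homo_one (hB : Bl M) (g h : SMap X (spM 𝒜)) {c : ℝ} (hc : c ≤ π) :
    (homo hB g h hc).comp (jO _ 1) = g.comp (inU X (dU g h c)) := SMap_ext fun z => rat_one (M := M) hB (h.1 z.1) (g.1 z.1)

theorem homo_zero (hB : Bl M) (g h : SMap X (spM 𝒜)) {c : ℝ} (hc : c ≤ π) :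
    (homo hB g h hc).comp (jO _ 0) = h.comp (inU X (dU g h c)) := SMap_ext fun z => rat_zero (M := M) hB (h.1 z.1) (g.1 z.1)

/-- **the cut-off primitive** -/
theorem exists_lam_geo (hB : Bl M) (g h : SMap X (spM 𝒜)) {u : Om (spM 𝒜)} (hd : dO _ u = 0) (hs : sO _ u = u) :
    ∃ lam : Om X, sO X lam = -lam ∧ ∀ (k : ℕ) (p : X.Plot k) (x : V k), g.1 (p.1 x) = h.1 (p.1 x) →
      ∀ᶠ y in 𝓝 x, ev y (Om.on (g.pull u - h.pull u - dO X lam) p) = 0 := by
  have hπ : (2 : ℝ) ≤ π := by linarith [pi_gt_three]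
  have h3 : (2 : ℝ) ≤ 3 := by norm_num
  have h4 : (3 : ℝ) ≤ π := pi_gt_three.le
  have hκ : dO _ (b0 (homo hB g h h4) u) = (inU X (dU g h 3)).pull (g.pull u - h.pull u) := by
    have h1 := d_K ((homo hB g h h4).pull u)
    rw [pull_d, hd, map_zero, map_zero, add_zero] at h1
    unfold b0
    rw [h1, map_sub, ← pull_comp, ← pull_comp, homo_one, homo_zero, pull_comp, pull_comp]
  obtain ⟨lam, l1, l2⟩ := exists_lam (N := X) (f := fun z => dist (α := M) (g.1 z) (h.1 z)) (c := 3)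
    (fun k p => cont_dist g h p) h3 (fun k p => contDiff_iff_contDiffAt.2 fun u =>
      contDiffAt_dist_sq2 hB ((g.pl ⟨fun v => (p.1 v).1, p.2⟩).2 u) ((h.pl ⟨fun v => (p.1 v).1, p.2⟩).2 u)
        (lt_of_lt_of_le (p.1 u).2 h4)) hκ (s_b0_ev _ hs)
  refine ⟨lam, l1, fun k p x hx => l2 k p x ?_⟩
  show dist (α := M) (g.1 (p.1 x)) (h.1 (p.1 x)) = 0
  exact dist_eq_zero.2 hx

/-- `{g ≠ h}` is open -/
theorem OpenU_ne (g h : SMap X (spM 𝒜)) : OpenU X {z | g.1 z ≠ h.1 z} := by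
  have h1 := OpenU_lt (X := X) (f := fun _ => (0 : ℝ)) (g := fun z => dist (α := M) (g.1 z) (h.1 z))
    (fun _ _ => continuous_const) fun k p => cont_dist g h p
  refine fun k p => ?_
  have h2 := h1 k p
  have h3 : p.1 ⁻¹' {z | g.1 z ≠ h.1 z} = p.1 ⁻¹' {z | 0 < dist (α := M) (g.1 z) (h.1 z)} := by
    ext v
    exact (dist_pos (γ := M) (x := g.1 (p.1 v)) (y := h.1 (p.1 v))).symm
  rw [h3]
  exact h2

end Pool.Agent.Lib.MP_ccbbf6_gt.L5
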