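import Pool.Agent.Lib.MP_ccbbf6_gt.L5.COH1
import Pool.Agent.Lib.MP_ccbbf6_gt.L5.TP09
import Pool.Agent.Lib.MP_ccbbf6_gt.L5.TP10

/-!
# Level 5, block 3PT 11: the three point formula on a Blaschke manifold (helper56)

`CohD.toTPB` : the data of the cohomology computation give the data of the three point formula.
`TPB.three_geo` : for `M = spM 𝒜` the geometry of triples (open set `x2 ≠ x3`, primitive near `x2 = x3`) is proved here.
-/

set_option autoImplicit false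
set_option maxSynthPendingDepth 3

open Matrix Filter Topology Real

noncomputable section

namespace Pool.Agent.Lib.MP_ccbbf6_gt.L5

open L4 L4.FR L4.ORI Geo

namespace CohD

variable {N κ K : ℕ} {M G F : Space} (D : CohD N κ (K + 2) M G F)

/-- the data of the three point formula, `κ + 1 = 2 q` -/
def toTPB (hV : D.bM.VFl D.g) {q : ℕ} (hq : κ + 1 = 2 * q) (TM : Om M →ₗ[ℝ] ℝ) (TM_d : ∀ w, TM (dO M w) = 0)
    (hTM : TM (D.u ^ (K + 2)) ≠ 0) (ξ : Om F) (hξ : dO F ξ = H (K + 2) (D.p1.pull D.u) (D.p2.pull D.u)) :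
    TPB M G F N K where
  b := D.bM
  odd := D.N_odd
  pr := D.g
  e1 := D.p1
  e2 := D.p2
  h1 x := by rw [D.hp1, D.hbM]
  hV := hV
  TM := TM
  TM_d := TM_d
  q := q
  hq := by
    obtain ⟨t, ht⟩ := D.odd
    omega
  hN := by rw [D.dim, hq]
  u := D.u
  u_q := hq ▸ D.Du
  u_d := D.du
  u_n := D.un
  ψ := D.psi
  ψ_q := by
    have h : ∀ j, j = κ → Deg j D.psi := fun j e => e ▸ D.Deg_psi
    exact h _ (by omega)
  ψ_d := by rw [D.g_p2, D.pi_M]; exact D.d_psi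
  ε := D.eps
  hε := by
    have h := D.heps
    rw [D.g_p2, ← Algebra.algebraMap_eq_smul_one, ← h, map_pow]
    rfl
  ξ := ξ
  hξ := by
    rw [hξ]
    unfold H
    refine Finset.sum_congr rfl fun i _ => ?_
    have hs : sO F (D.p2.pull D.u) = D.p2.pull D.u := by rw [pull_s, D.su]
    exact (even_comm' (by rw [map_pow, hs]) _)
  c_ne := mul_ne_zero (pow_ne_zero 2 D.eps0) hTM

end CohD

namespace TPB

variable {n : ℕ} {M : Type} [MetricSpace M] [CompactSpace M] {𝒜 : SDist n M} {G F : Space} {N K : ℕ}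

/-- **The three point formula on a Blaschke manifold.** -/
theorem three_geo (hB : Bl M) (D : TPB (spM 𝒜) G F N K) {ι : Type*} [Fintype ι] [DecidableEq ι]
    {PM : Matrix ι ι (SF (spM 𝒜))} {PV : Matrix ι ι (SF F)}
    (iM : PM * PM = PM) (sM : PMᵀ = PM) (iV : PV * PV = PV) (sV : PVᵀ = PV)
    (hVM : PM.map (pf D.e1) * PV = PV) (hVM' : PV * PM.map (pf D.e1) = PV) {d : ℕ} (hd1 : 1 ≤ d)
    (trM : ∀ x, trace (PM.map (vl x)) = 2 * d * (K + 2)) (trV : ∀ x, trace (PV.map (vl x)) = 2 * d)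
    (hd : ∀ (f f' : F.pt), D.e1.1 f = D.e1.1 f' → D.e2.1 f ≠ D.e2.1 f' → ∀ y : ι → ℝ,
      (PV.map (vl f)).mulVec y = y → (PV.map (vl f')).mulVec y = y → y = 0)
    {b : ℝ} {P : PowerSeries ℝ} (hP : PowerSeries.constantCoeff P = 1) (hPM : PTd d iM = evS D.cu P)
    (hperV : Per d (hpb iV)) (hPV : PTd d iV = Asr b D.c1 D.c2) (j : ℕ) (hj : j ≤ K + 2) :
    PowerSeries.coeff j (P * (1 + 2 * PowerSeries.C b * PowerSeries.X)) =
      PowerSeries.coeff j (Aser b ^ (K + 3)) := by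
  obtain ⟨lam, l1, l2⟩ := exists_lam_geo hB (D.e2.comp (fp2 D.e1 D.e1)) (D.e2.comp (fp1 D.e1 D.e1)) D.u_d D.u_e
  exact D.three iM sM iV sV hVM hVM' hd1 trM trV hd
    (OpenU_ne (D.e2.comp (fp2 D.e1 D.e1)) (D.e2.comp (fp1 D.e1 D.e1))) l1 l2 hP hPM hperV hPV j hj

end TPB

end Pool.Agent.Lib.MP_ccbbf6_gt.L5
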