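import Pool.Agent.Lib.MP_ccbbf6_gt.L5.EL2
import Pool.Agent.Lib.MP_ccbbf6_gt.L5.TP11
import Pool.Agent.Lib.MP_ccbbf6_gt.L5.TP12

/-!
# Level 5, block 3PT 13: (A1), final form (helper56)

`CohD.three_point` : from `CohD`, the projections `PM`, `PV`, the swap and the Euler class of `V`: numbers `b` and a
series `P` with `p(TM) = P(u)`, `p(V) = 1 + b (u1 + u2) + (u1 - u2)^2` and
`P (1 + 2 b X) = (1 + b X + X^2)^(m + 1)` up to degree `m`.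
`CohD.three_point_four` : the case of rank `4`, with the Euler form.
-/

set_option autoImplicit false
set_option maxSynthPendingDepth 3

open Matrix Filter Topology

noncomputable section

namespace Pool.Agent.Lib.MP_ccbbf6_gt.L5

open L4 L4.FR L4.ORI Geo

theorem coeff_PT_hP {X : Space} {ι : Type*} [Fintype ι] [DecidableEq ι] (c : ℕ) {P : Matrix ι ι (SF X)}
    (h : P * P = P) (j : ℕ) : PowerSeries.coeff j (PTd (2 * c) h) = hP (FO X) h (c * j) := by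
  unfold PTd hP GDA.hc hpb
  rw [coeff_PTs, one_div, inv_pow, mul_assoc]

namespace CohD

variable {n : ℕ} {M : Type} [MetricSpace M] [CompactSpace M] {𝒜 : SDist n M} {G F : Space} {N κ K : ℕ}

/-- **(A1)** -/
theorem three_point (hB : Bl M) (D : CohD N κ (K + 2) (spM 𝒜) G F) (hV : D.bM.VFl D.g) (p0 : (spM 𝒜).Plot 0)
    (p : F.Plot 0) {d : ℕ} (hd1 : 1 ≤ d) (hκ : κ + 1 = 2 * d) {ι : Type*} [Fintype ι] [DecidableEq ι]
    {PM : Matrix ι ι (SF (spM 𝒜))} {PV : Matrix ι ι (SF F)}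
    (iM : PM * PM = PM) (sM : PMᵀ = PM) (iV : PV * PV = PV) (sV : PVᵀ = PV)
    (hVM : PM.map (pf D.p1) * PV = PV) (hVM' : PV * PM.map (pf D.p1) = PV)
    (trM : ∀ x, trace (PM.map (vl x)) = 2 * d * (K + 2)) (trV : ∀ x, trace (PV.map (vl x)) = 2 * d)
    (hd : ∀ (f f' : F.pt), D.p1.1 f = D.p1.1 f' → D.p2.1 f ≠ D.p2.1 f' → ∀ y : ι → ℝ,
      (PV.map (vl f)).mulVec y = y → (PV.map (vl f')).mulVec y = y → y = 0)
    (hperV : Per d (hpb iV)) {sw : SMap F F}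
    (h1 : ∀ z, D.p1.1 (sw.1 z) = D.p2.1 z) (h2 : ∀ z, D.p2.1 (sw.1 z) = D.p1.1 z)
    (hs : (GHom.pull sw).he (PowerSeries.coeff 1 (PTd d iV)) = PowerSeries.coeff 1 (PTd d iV))
    (he : PowerSeries.coeff 2 (PTd d iV) = (D.k2 - D.k1) ^ 2) :
    ∃ (b : ℝ) (P : PowerSeries ℝ), PowerSeries.constantCoeff P = 1 ∧ PTd d iM = evS D.ku P ∧
      PTd d iV = Asr b D.k1 D.k2 ∧ ∀ j ≤ K + 2,
        PowerSeries.coeff j (P * (1 + 2 * PowerSeries.C b * PowerSeries.X)) =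
          PowerSeries.coeff j (Aser b ^ (K + 3)) := by
  obtain ⟨P, hP, hPM⟩ := D.exists_P p0 hκ iM
  obtain ⟨b, hb⟩ := D.PT_V p hd1 hκ iV trV h1 h2 hs he
  obtain ⟨ξ, -, hξ⟩ := D.exists_xi
  have hT : D.TM p0 (D.u ^ (K + 2)) ≠ 0 := by
    rw [D.TM_um p0]
    exact D.eps0
  refine ⟨b, P, hP, hPM, hb, fun j hj => ?_⟩
  exact (D.toTPB hV hκ (D.TM p0) (D.TM_d p0) hT ξ hξ).three_geo hB iM sM iV sV hVM hVM' hd1 trM trV hd hP hPM hperV hb
    j hj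

/-- **(A1)**, `κ = 3` -/
theorem three_point_four (hB : Bl M) (D : CohD N 3 (K + 2) (spM 𝒜) G F) (hV : D.bM.VFl D.g) (p0 : (spM 𝒜).Plot 0)
    (p : F.Plot 0) {ι : Type*} [Fintype ι] [DecidableEq ι]
    {PM : Matrix ι ι (SF (spM 𝒜))} {PV : Matrix ι ι (SF F)} {oV : (Fin 4 → ι) → SF F}
    (iM : PM * PM = PM) (sM : PMᵀ = PM) (oV4 : Or 4 PV oV)
    (hVM : PM.map (pf D.p1) * PV = PV) (hVM' : PV * PM.map (pf D.p1) = PV)
    (trM : ∀ x, trace (PM.map (vl x)) = 4 * (K + 2)) (trV : ∀ x, trace (PV.map (vl x)) = 4)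
    (hd : ∀ (f f' : F.pt), D.p1.1 f = D.p1.1 f' → D.p2.1 f ≠ D.p2.1 f' → ∀ y : ι → ℝ,
      (PV.map (vl f)).mulVec y = y → (PV.map (vl f')).mulVec y = y → y = 0)
    {sw : SMap F F} (h1 : ∀ z, D.p1.1 (sw.1 z) = D.p2.1 z) (h2 : ∀ z, D.p2.1 (sw.1 z) = D.p1.1 z)
    (hs : (GHom.pull sw).he (L5.hp1 (FO F) oV4.idem) = L5.hp1 (FO F) oV4.idem)
    {η : Om G} (hη : D.g.pull (eul (FO F) PV oV) = dO G η) (hη3 : Deg 3 η) {s : ℝ} (hs1 : s ^ 2 = 1)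
    (hPη : D.bV.PI η = algebraMap ℝ (Om F) s) :
    ∃ (b : ℝ) (P : PowerSeries ℝ), PowerSeries.constantCoeff P = 1 ∧ PTd 2 iM = evS D.ku P ∧
      PTd 2 oV4.idem = Asr b D.k1 D.k2 ∧ hE (FO F) oV4 = s • (D.k2 - D.k1) ∧
      L5.hp1 (FO F) oV4.idem = b • (D.k1 + D.k2) ∧ ∀ j ≤ K + 2,
        PowerSeries.coeff j (P * (1 + 2 * PowerSeries.C b * PowerSeries.X)) =
          PowerSeries.coeff j (Aser b ^ (K + 3)) := by
  have e1 : PowerSeries.coeff 1 (PTd 2 oV4.idem) = L5.hp1 (FO F) oV4.idem := by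
    rw [coeff_PT_hP 1, mul_one, hP_one _ oV4.sym]
  have e2 : hE (FO F) oV4 = s • (D.k2 - D.k1) := D.euler (s_eul (φ := FO F) oV4) (d_eul (φ := FO F) oV4) hη hη3 hPη
  obtain ⟨b, P, c1, c2, c3, c4⟩ := D.three_point hB hV p0 p (d := 2) (by norm_num) rfl iM sM oV4.idem oV4.sym hVM hVM'
    (by intro x; rw [trM x]; push_cast; ring) (by intro x; rw [trV x]; push_cast; ring) hd
    (Per_two_hpb oV4.idem oV4.sym) h1 h2 (by rw [e1]; exact hs) (by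
      rw [coeff_PT_hP 1, one_mul, ← hE_sq oV4, e2, smul_mul_smul_comm, ← pow_two, ← pow_two, hs1, one_smul])
  refine ⟨b, P, c1, c2, c3, e2, ?_, c4⟩
  rw [← e1, c3]
  unfold Asr
  rw [map_add, map_add, PowerSeries.coeff_C_mul, PowerSeries.coeff_C_mul, PowerSeries.coeff_one, PowerSeries.coeff_X,
    PowerSeries.coeff_X_pow, if_neg (by norm_num), if_pos rfl, if_neg (by norm_num), mul_one, mul_zero, add_zero,
    zero_add]

end CohD

end Pool.Agent.Lib.MP_ccbbf6_gt.L5
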