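import Pool.Agent.Lib.MP_ccbbf6_gt.L5.H5F
import Pool.Agent.Lib.MP_ccbbf6_gt.L5.TE4
import Pool.Agent.Lib.MP_ccbbf6_gt.L5.TP13

/-!
# Level 5, block 3PT 14: (A1) for a Blaschke manifold (helper56)

`GeoD.three_point_four` : `κ = 3`. Numbers `b` and a series `P` with `p(TM) = P(u)`, `p(V) = 1 + b (u1 + u2) + (u1 - u2)^2`,
`e(V) = u2 - u1` and `P (1 + 2 b X) = (1 + b X + X^2)^(m + 1)` up to degree `m`.
-/

set_option autoImplicit false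
set_option maxSynthPendingDepth 3

open Matrix Filter Topology Set
open scoped ContDiff RealInnerProductSpace

noncomputable section

namespace Pool.Agent.Lib.MP_ccbbf6_gt.L5.GeoD

open L4 L4.FR L4.ORI Geo

variable {N K κ m : ℕ} {M : Type} [MetricSpace M] [CompactSpace M] {𝒜 : SDist (N + 1) M} {hB : Bl M}

theorem vfl (D : GeoD 𝒜 hB κ m) : D.coh.bM.VFl D.coh.g := VFl_M hB D.Deg_Ph D.orM D.hN D.hk D.hL D.Deg_b D.orV D.hκ

/-- a point of `M` -/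
def pt0 (D : GeoD 𝒜 hB κ m) : (spM 𝒜).Plot 0 := ⟨fun _ => D.f0.1.1, fun _ => smAt_const _ _⟩

theorem exists_ptF (D : GeoD 𝒜 hB κ m) : Nonempty ((spF 𝒜).Plot 0) :=
  ⟨(gF hB).pl ⟨fun _ => gvg 𝒜 hB D.f0.1.1 (D.f0.1.2 0) (D.f0.2.2.1 0), ⟨sm_const _, sm_const _⟩⟩⟩

variable (D : GeoD 𝒜 hB 3 (K + 2)) (t : TEmb 𝒜)

/-- **(A1)** for Blaschke manifolds, `κ = 3` -/
theorem three_point_four : ∃ (b : ℝ) (P : PowerSeries ℝ), PowerSeries.constantCoeff P = 1 ∧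
    PTd 2 (TE.PM_idem t (Nat.succ_pos N)) = evS D.coh.ku P ∧
    PTd 2 (TE.PV_idem t hB D.hk D.hL) = Asr b D.coh.k1 D.coh.k2 ∧
    hE (FO (spF 𝒜)) (D.orPV (TE.isoE t)) = D.coh.k2 - D.coh.k1 ∧
    L5.hp1 (FO (spF 𝒜)) (TE.PV_idem t hB D.hk D.hL) = b • (D.coh.k1 + D.coh.k2) ∧
    ∀ j ≤ K + 2, PowerSeries.coeff j (P * (1 + 2 * PowerSeries.C b * PowerSeries.X)) =
      PowerSeries.coeff j (Aser b ^ (K + 3)) := by
  obtain ⟨pF⟩ := D.exists_ptF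
  have hio := TE.isoE t
  have h1 : dO _ (OT.psS (D.bE hio) (D.tE hio)) =
      (D.bE hio).pr.pull (eul (FO (spF 𝒜)) (D.pV hio) (D.oV hio)) := by
    have h2 : dO _ (OT.psS (D.bE hio) (D.tE hio)) =
        eul (FO (D.bE hio).S) (OT.pS (D.bE hio) (D.tE hio) (by norm_num)) (OT.oS (D.bE hio) (D.tE hio) (by norm_num)) :=
      d_psi (G := GO (D.bE hio).S) (φ := FO (D.bE hio).S) (OT.orS _ _ _) (OT.secS _ _ _)
    rw [h2]
    exact (FHom.eul (FHom.pull (D.bE hio).pr) (P := D.pV hio) (D.oV hio)).symm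
  have h3 : D.coh.g.pull (eul (FO (spF 𝒜)) (D.pV hio) (D.oV hio)) =
      dO _ ((D.eE hio).pull (OT.psS (D.bE hio) (D.tE hio))) := by
    rw [pull_d, h1, ← pull_comp]
    rfl
  have h4 : D.coh.bV.PI ((D.eE hio).pull (OT.psS (D.bE hio) (D.tE hio))) = algebraMap ℝ (Om (spF 𝒜)) 1 := by
    rw [PI_eE, map_one]
    exact OT.PI_psS (D.bE hio) (D.tE hio) (by norm_num)
  obtain ⟨b, P, c1, c2, c3, c4, c5, c6⟩ := D.coh.three_point_four hB D.vfl D.pt0 pF (TE.PM_idem t (Nat.succ_pos N))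
    (TE.PM_symm t _) (D.orPV hio) (TE.PM_PV t hB D.hk D.hL _) (TE.PV_PM t hB D.hk D.hL _) (fun x => by
      rw [TE.PM_tr]
      have h5 : ((N + 1 : ℕ) : ℝ) = ((3 + 1) * (K + 2) : ℕ) := by rw [D.dim]
      rw [h5]
      push_cast
      ring) (fun x => by
      refine (TE.PV_tr t hB D.hk D.hL x).trans ?_
      norm_num) (TE.PV_disj t hB D.hk D.hL) (sw := TE.sw 𝒜) (TE.sw1) (TE.sw2) (TE.hp1_sw t hB D.hk D.hL) h3
    (Deg_pull _ (OT.Deg_psS (D.bE hio) (D.tE hio))) (one_pow 2) h4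
  refine ⟨b, P, c1, c2, c3, ?_, c5, c6⟩
  rw [one_smul] at c4
  exact c4

end Pool.Agent.Lib.MP_ccbbf6_gt.L5.GeoD
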