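import Pool.Agent.Lib.MP_ccbbf6_gt.L5.TP12

namespace Pool.Agent.Lib.MP_ccbbf6_gt.L4.ORI
end Pool.Agent.Lib.MP_ccbbf6_gt.L4.ORI

/-!
# Level 5, block 3PT 15: the classes of `V`, all ranks (helper56)

`CohD.HF_low`, `CohD.HF_mid` : `H^j(FM) = 0` for `0 < j < 2 k`, `j ≠ k` (`j ≤ 2 k - 2`), `k = κ + 1`.
`CohD.perV` : the classes of `V` live in degrees `0, k, 2 k`.
-/

set_option autoImplicit false
set_option maxSynthPendingDepth 3

open Matrix Filter Topology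

noncomputable section

namespace Pool.Agent.Lib.MP_ccbbf6_gt.L5

open L4 L4.FR L4.ORI Geo

namespace CohD

section low

variable {N κ m : ℕ} {M G F : Space} (D : CohD N κ m M G F)

include D in
/-- closed forms of degree `1, …, κ` on `FM` are exact -/
theorem HF_low {a : Om F} {j : ℕ} (hj : Deg (j + 1) a) (h : j + 1 ≤ κ) (hd : dO F a = 0) :
    ∃ ξ : Om F, a = dO F ξ := by
  have h1 : dO G (D.g.pull a) = 0 := by rw [pull_d, hd, map_zero]
  obtain ⟨η, hη, e⟩ := D.H3_exact (Deg_pull D.g hj) h h1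
  have h2 := D.descent e
  rw [D.bV.PI_low hη (by omega), zero_mul, zero_add] at h2
  exact ⟨_, h2⟩

include D in
/-- closed forms of degree `κ + 2, …, 2 κ` on `FM` are exact -/
theorem HF_mid {a : Om F} {j : ℕ} (hj : Deg (κ + 1 + (j + 1)) a) (h : j + 1 < κ) (hd : dO F a = 0) :
    ∃ ξ : Om F, a = dO F ξ := by
  have h1 : dO G (D.g.pull a) = 0 := by rw [pull_d, hd, map_zero]
  have hN : κ + 1 + (j + 1) < N := by
    have h3 := D.dim
    have h4 := D.two
    have h5 : (κ + 1) * 2 ≤ (κ + 1) * m := Nat.mul_le_mul_left _ h4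
    omega
  obtain ⟨w, η, hw, dw, hη, e⟩ := D.H3 (Deg_pull D.g hj) hN h1
  have hnd : ¬ (κ + 1) ∣ (κ + 1 + j + 1) := by
    intro h3
    have h4 : (κ + 1) ∣ (j + 1) := by
      have h5 := (Nat.dvd_add_right (dvd_refl (κ + 1))).1 (by rwa [add_assoc] at h3)
      exact h5
    exact absurd (Nat.le_of_dvd (Nat.succ_pos j) h4) (by omega)
  obtain ⟨η', hη', e'⟩ := D.H2' (i := κ + 1 + j) dw hw hnd
  have h2 : D.g.pull a = dO G (D.foot.pull η' + η) := by rw [e, map_add, pull_d, ← e']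
  have h3 := D.descent h2
  have h4 : Deg (κ + 1 + j) (D.foot.pull η' + η) := Deg_add (Deg_pull _ hη') (hη _ rfl)
  have h5 : Deg (j + 1) (D.bV.PI (D.foot.pull η' + η)) := by
    refine D.bV.Deg_PI ?_
    rwa [show j + 1 + κ = κ + 1 + j by omega]
  have h6 : dO F (D.bV.PI (D.foot.pull η' + η)) = 0 := by rw [D.PIV_d, ← h2, D.PIV_g, neg_zero]
  obtain ⟨χ, hχ⟩ := D.HF_low h5 (by omega) h6
  have h7 : dO F (D.p2.pull D.u - D.p1.pull D.u) = 0 := by
    rw [map_sub, pull_d, pull_d, D.du, map_zero, map_zero, sub_zero]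
  refine ⟨χ * (D.p2.pull D.u - D.p1.pull D.u) + D.bV.PI (D.psi * (D.foot.pull η' + η)), ?_⟩
  rw [map_add, d_mul, h7, mul_zero, add_zero, ← hχ]
  exact h3

include D in
/-- classes of degree `2 j`, `0 < j < 2 d`, `j ≠ d` -/
theorem HD_F {d j : ℕ} (hκ : κ + 1 = 2 * d) (h0 : 0 < j) (h2 : j < 2 * d) (hne : j ≠ d) {x : (GO F).HE}
    (hx : HD F j x) : x = 0 := by
  obtain ⟨w, h, h', hw, rfl⟩ := hx
  rw [GDA.cl_eq_zero]
  rcases lt_or_gt_of_ne hne with h3 | h3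
  · obtain ⟨ξ, hξ⟩ := D.HF_low (a := w) (j := 2 * j - 1) (by rwa [show 2 * j - 1 + 1 = 2 * j by omega]) (by omega) h'
    exact ⟨ξ, hξ⟩
  · obtain ⟨ξ, hξ⟩ := D.HF_mid (a := w) (j := 2 * j - (κ + 1) - 1)
      (by rwa [show κ + 1 + (2 * j - (κ + 1) - 1 + 1) = 2 * j by omega]) (by omega) h'
    exact ⟨ξ, hξ⟩

end low

section per

variable {N κ m : ℕ} {M G F : Space} (D : CohD N κ m M G F)
variable {ι : Type*} [Fintype ι] [DecidableEq ι]

include D in
/-- **the classes of `V`** live in degrees `0, k, 2 k` -/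
theorem perV {d : ℕ} (hκ : κ + 1 = 2 * d) {PV : Matrix ι ι (SF F)} (iV : PV * PV = PV)
    (trV : ∀ x, trace (PV.map (vl x)) = 2 * d) : Per d (hpb iV) := by
  intro i hi
  have h0 : i ≠ 0 := fun h => hi (h ▸ dvd_zero d)
  have hd : i ≠ d := fun h => hi (h ▸ dvd_refl _)
  have hd2 : i ≠ 2 * d := fun h => hi (h ▸ dvd_mul_left _ _)
  rcases lt_or_ge i (2 * d) with h1 | h1
  · exact D.HD_F hκ (Nat.pos_of_ne_zero h0) h1 hd (HD_elc (fun k => HD_hpb iV (k + 1)) i)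
  · have h2 : 2 * d < 1 * i := by omega
    have h3 := PT_rank (d := 1) (j := i) iV (r := 2 * d) (fun x => by rw [trV]; push_cast; exact le_rfl) (by omega)
    unfold PTd at h3
    rw [coeff_PTs, one_mul] at h3
    have h4 : (2 * Real.pi) ^ i ≠ 0 := pow_ne_zero _ (by positivity)
    have h5 := congrArg (fun x => ((2 * Real.pi) ^ i) • x) h3
    simp only [smul_zero, smul_smul, mul_inv_cancel₀ h4, one_smul] at h5
    exact h5

/-- `u` is not exact -/
theorem u_ne (p0 : M.Plot 0) {r : ℝ} {χ : Om M} (h : r • D.u = dO M χ) : r = 0 := by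
  have h1 : dO M (χ * D.u ^ (m - 1)) = r • D.u ^ m := by
    rw [d_mul, d_pow_zero D.du, mul_zero, add_zero, ← h, smul_mul_assoc, ← pow_succ',
      show m - 1 + 1 = m from Nat.sub_add_cancel (by have := D.two; omega)]
  have h2 := D.TM_d p0 (χ * D.u ^ (m - 1))
  rw [h1, map_smul, D.TM_um p0, smul_eq_mul] at h2
  exact (mul_eq_zero.1 h2).resolve_right D.eps0

/-- `x` is not exact -/
theorem x_ne (p0 : M.Plot 0) {r : ℝ} {η : Om G} (hη : Deg κ η) (h : r • D.x = dO G η) : r = 0 := by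
  obtain ⟨σ, ξ, hσ, hξ, dξ, e1, dσ, Pσ⟩ := D.exists_sig
  have hm : (m : ℝ) + 1 ≠ 0 := by positivity
  have hκN : κ < N := by
    have h3 := D.dim
    have h4 := D.two
    have h5 : (κ + 1) * 2 ≤ (κ + 1) * m := Nat.mul_le_mul_left _ h4
    omega
  obtain ⟨t, ht⟩ := D.N_odd
  have hs : sO G σ = -σ := by
    have h := Deg_odd (j := t) (ht ▸ hσ)
    exact h
  have h1 : dO G (σ * η) = D.x ^ m * η - σ * (r • D.x) := by
    rw [d_mul, dσ, hs, h, neg_mul, sub_eq_add_neg]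
  have hx : sO G (D.x ^ m) = D.x ^ m := by rw [map_pow, D.sx]
  have h2 : D.bM.PI (D.x ^ m * η) = 0 := by
    have h3 : D.x ^ m * η = η * D.foot.pull (D.u ^ m) := by
      rw [map_pow, ← D.x_def]
      exact even_comm' hx η
    rw [h3, D.PIM_mul, D.bM.PI_low hη hκN, zero_mul]
  have h3 : D.bM.PI (σ * (r • D.x)) = (r * -(D.eps / (m + 1))) • D.u := by
    rw [mul_smul_comm, D.bM.PI_smul, D.x_def, D.PIM_mul, Pσ, ← Algebra.smul_def, smul_smul]
  have h4 := D.PIM_d (σ * η)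
  have h5 : D.bM.PI (D.x ^ m * η - σ * (r • D.x)) = -((r * -(D.eps / (m + 1))) • D.u) := by
    have h6 := D.bM.PI_smul (-1) (σ * (r • D.x))
    rw [neg_one_smul, neg_one_smul] at h6
    rw [sub_eq_add_neg, D.bM.PI_add, h2, h6, zero_add, h3]
  rw [h1, h5, neg_neg] at h4
  have h7 := D.u_ne p0 h4.symm
  have h8 : -(D.eps / ((m : ℝ) + 1)) ≠ 0 := neg_ne_zero.2 (div_ne_zero D.eps0 hm)
  exact (mul_eq_zero.1 h7).resolve_right h8

/-- the classes of `u1` and `u2` are independent -/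
theorem k_ne (p0 : M.Plot 0) (p : F.Plot 0) {r c : ℝ} (h : r • D.k1 + c • D.k2 = 0) : r = 0 ∧ c = 0 := by
  unfold k1 k2 ku at h
  rw [GHom.he_cl, GHom.he_cl, GDA.cl_smul, GDA.cl_smul, GDA.cl_add, GDA.cl_eq_zero] at h
  obtain ⟨ξ, hξ⟩ := h
  have h0 : r • D.p1.pull D.u + c • D.p2.pull D.u = dO F ξ := hξ
  obtain ⟨χ, hχ, h1⟩ := exists_prim_Deg (j := κ) h0 (Deg_add (Deg_smul _ (Deg_pull _ D.Du)) (Deg_smul _ (Deg_pull _ D.Du)))
  have h2 : (r + c) • D.x = dO G (D.g.pull χ - c • D.psi) := by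
    have h3 := congrArg D.g.pull h1
    rw [map_add, map_smul, map_smul, D.g_p1, D.g_p2, ← D.x_def, ← D.y_def, ← pull_d] at h3
    rw [map_sub, ← h3, map_smul, D.d_psi]
    module
  have h4 := D.x_ne p0 (Deg_sub (Deg_pull _ hχ) (Deg_smul _ D.Deg_psi)) h2
  have h5 : c • (D.p2.pull D.u - D.p1.pull D.u) = dO F χ := by
    rw [← h1, show r = -c by linarith]
    module
  have h6 := D.not_exact p hχ c h5
  exact ⟨by linarith, h6⟩

end per

end CohD

end Pool.Agent.Lib.MP_ccbbf6_gt.L5
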