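import Pool.Agent.Lib.MP_ccbbf6_gt.L5.EG9
import Pool.Agent.Lib.MP_ccbbf6_gt.L5.EGP
import Pool.Agent.Lib.MP_ccbbf6_gt.L5.TP14
import Pool.Agent.Lib.MP_ccbbf6_gt.L5.TP15

/-!
# Level 5, block 3PT 16: (A1) for a Blaschke manifold, all odd `κ ≥ 3` (helper56)

`GeoD.three_point_all` : `κ = 2 n + 1`, `d = n + 1`. Numbers `b` and a series `P` with `p(TM) = P(u)`,
`p(V) = 1 + b (u1 + u2) + (u1 - u2)^2` (classes of degree `4 d j`), `e(V) = (-1)^(n + 1) (u2 - u1)` and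
`P (1 + 2 b X) = (1 + b X + X^2)^(m + 1)` up to degree `m`; `b = 0` if `d` is odd.
-/

set_option autoImplicit false
set_option maxSynthPendingDepth 3

open Matrix Filter Topology Set
open scoped ContDiff RealInnerProductSpace

noncomputable section

namespace Pool.Agent.Lib.MP_ccbbf6_gt.L5.GeoD

open L4 L4.FR L4.ORI Geo

variable {N K n m : ℕ} {M : Type} [MetricSpace M] [CompactSpace M] {𝒜 : SDist (N + 1) M} {hB : Bl M}

section euler

variable (D : GeoD 𝒜 hB (2 * n + 1) m) (t : TEmb 𝒜)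

/-- the bundle `V` in `ℝ^D` -/
def bG : OBun (2 * (n + 1)) (EuclideanSpace ℝ (Fin t.D)) (spF 𝒜) := D.bE (TE.isoE t)

theorem tG : TBun (D.bG t) := D.tE (TE.isoE t)

/-- the orientation of `V` -/
def oG : (Fin (2 * (n + 1)) → Fin t.D) → SF (spF 𝒜) := OT.ot (D.bG t) (D.tG t) (by omega)

theorem orG : Or (2 * (n + 1)) (TE.PV t hB D.hk D.hL) (D.oG t) := OT.or_ot (D.bG t) (D.tG t) (by omega)

/-- `UM` as the unit sphere bundle -/
def emG : SMap (spG 𝒜) (D.bG t).S := D.eE (TE.isoE t)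

/-- the angular form on `UM` -/
def psG : Om (spG 𝒜) := (D.emG t).pull (EGP.psiGS (D.bG t) (D.tG t) (by omega))

theorem Deg_psG : Deg (2 * n + 1) (D.psG t) := Deg_pull _ (EGP.Deg_psiGS (D.bG t) (D.tG t) (by omega))

theorem d_psG : D.coh.g.pull (eulG (FO (spF 𝒜)) (TE.PV t hB D.hk D.hL) (D.oG t)) = dO _ (D.psG t) := by
  have h1 := EGP.d_psiGS (D.bG t) (D.tG t) (by omega)
  unfold psG
  rw [pull_d, h1, ← pull_comp]
  rfl

theorem PI_psG : D.coh.bV.PI (D.psG t) = algebraMap ℝ (Om (spF 𝒜)) ((-1) ^ (n + 1)) := by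
  have h1 := EGP.PI_psiGS (D.bG t) (D.tG t) (by omega) (by omega)
  unfold psG
  refine Eq.trans (PI_eE D (TE.isoE t) (EGP.psiGS (D.bG t) (D.tG t) (by omega))) ?_
  exact h1

/-- **the Euler class of `V`** -/
theorem hEV : hEG (FO (spF 𝒜)) (D.orG t) = ((-1 : ℝ) ^ (n + 1)) • (D.coh.k2 - D.coh.k1) :=
  D.coh.euler _ _ (D.d_psG t) (D.Deg_psG t) (D.PI_psG t)

/-- `p_d(V) = e(V)^2 = (u2 - u1)^2` -/
theorem coeff2 : PowerSeries.coeff 2 (PTd (n + 1) (TE.PV_idem t hB D.hk D.hL)) = (D.coh.k2 - D.coh.k1) ^ 2 := by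
  have h1 := hEG_sq (φ := FO (spF 𝒜)) sqG_O (D.orG t)
  rw [D.hEV t, smul_mul_smul_comm, ← pow_two, ← pow_two, ← pow_mul, mul_comm (n + 1) 2, pow_mul, neg_one_sq, one_pow,
    one_smul] at h1
  rw [h1]
  unfold PTd hp GDA.hc
  rw [coeff_PTs, mul_comm (n + 1) 2]
  rfl

end euler

/-- the classes of `V` are invariant under the swap -/
theorem PT_sw (D : GeoD 𝒜 hB (2 * n + 1) m) (t : TEmb 𝒜) (d j : ℕ) :
    (GHom.pull (TE.sw 𝒜)).he (PowerSeries.coeff j (PTd d (TE.PV_idem t hB D.hk D.hL))) =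
      PowerSeries.coeff j (PTd d (TE.PV_idem t hB D.hk D.hL)) := by
  unfold PTd
  rw [coeff_PTs, map_smul, map_elc]
  congr 1
  congr 1
  funext i
  exact TE.hpb_sw t hB D.hk D.hL i

variable (D : GeoD 𝒜 hB (2 * n + 1) (K + 2)) (t : TEmb 𝒜)

/-- **(A1)** for Blaschke manifolds, all odd `κ` -/
theorem three_point_all : ∃ (b : ℝ) (P : PowerSeries ℝ), PowerSeries.constantCoeff P = 1 ∧
    PTd (n + 1) (TE.PM_idem t (Nat.succ_pos N)) = evS D.coh.ku P ∧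
    PTd (n + 1) (TE.PV_idem t hB D.hk D.hL) = Asr b D.coh.k1 D.coh.k2 ∧
    Per (n + 1) (hpb (TE.PV_idem t hB D.hk D.hL)) ∧
    (Odd (n + 1) → b = 0) ∧
    ∀ j ≤ K + 2, PowerSeries.coeff j (P * (1 + 2 * PowerSeries.C b * PowerSeries.X)) =
      PowerSeries.coeff j (Aser b ^ (K + 3)) := by
  obtain ⟨pF⟩ := D.exists_ptF
  have hκ : 2 * n + 1 + 1 = 2 * (n + 1) := by omega
  have trV : ∀ x, trace ((TE.PV t hB D.hk D.hL).map (vl x)) = 2 * ((n + 1 : ℕ) : ℝ) := fun x => by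
    refine (TE.PV_tr t hB D.hk D.hL x).trans ?_
    push_cast
    ring
  have hper := D.coh.perV hκ (TE.PV_idem t hB D.hk D.hL) trV
  obtain ⟨b, P, c1, c2, c3, c4⟩ := D.coh.three_point hB D.vfl D.pt0 pF (d := n + 1) (Nat.succ_pos n) hκ
    (TE.PM_idem t (Nat.succ_pos N)) (TE.PM_symm t _) (TE.PV_idem t hB D.hk D.hL) (TE.PV_symm t hB D.hk D.hL)
    (TE.PM_PV t hB D.hk D.hL _) (TE.PV_PM t hB D.hk D.hL _) (fun x => by
      rw [TE.PM_tr]
      have h5 : ((N + 1 : ℕ) : ℝ) = ((2 * n + 1 + 1) * (K + 2) : ℕ) := by rw [D.dim]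
      rw [h5]
      push_cast
      ring) trV (TE.PV_disj t hB D.hk D.hL) hper (sw := TE.sw 𝒜) TE.sw1 TE.sw2 (D.PT_sw t _ _) (D.coeff2 t)
  refine ⟨b, P, c1, c2, c3, hper, fun hodd => ?_, c4⟩
  -- `d` odd
  have h1 : PowerSeries.coeff 1 (PTd (n + 1) (TE.PV_idem t hB D.hk D.hL)) = 0 := by
    unfold PTd
    rw [coeff_PTs, mul_one, Per_two_hpb (TE.PV_idem t hB D.hk D.hL) (TE.PV_symm t hB D.hk D.hL) (n + 1)
      (fun h => (Nat.not_even_iff_odd.2 hodd) (even_iff_two_dvd.2 h)), smul_zero]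
  have h2 : b • (D.coh.k1 + D.coh.k2) = 0 := by
    rw [← h1, c3]
    unfold Asr
    rw [map_add, map_add, PowerSeries.coeff_C_mul, PowerSeries.coeff_C_mul, PowerSeries.coeff_one,
      PowerSeries.coeff_X, PowerSeries.coeff_X_pow, if_neg (by norm_num), if_pos rfl, if_neg (by norm_num), mul_one,
      mul_zero, add_zero, zero_add]
  rw [smul_add] at h2
  exact (D.coh.k_ne D.pt0 pF h2).1

end Pool.Agent.Lib.MP_ccbbf6_gt.L5.GeoD
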