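import Pool.Agent.Lib.MP_ccbbf6_gt.L4.CO2
import Pool.Agent.Lib.MP_ccbbf6_gt.L4.SM5

/-!
# ZC2: smooth filling on an abstract compact space with a circle action and smooth families (helper95)
-/

set_option autoImplicit false
set_option linter.unusedSectionVars false

open Set Filter Topology Metric Real
open scoped ContDiff RealInnerProductSpace Interval

noncomputable section

namespace Pool.Agent.Lib.MP_ccbbf6_gt.L5.ZC

open Geo L4

variable {N : Type*} [TopologicalSpace N] {φ : ℝ → N → N}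

/-- smooth functions on `N` for the class `Pl` of smooth families -/
def SmN (Pl : ∀ (E : Type) [NormedAddCommGroup E] [NormedSpace ℝ E], (E → N) → Prop)
    {F : Type*} [NormedAddCommGroup F] [NormedSpace ℝ F] (f : N → F) : Prop :=
  ∀ (E : Type) [NormedAddCommGroup E] [NormedSpace ℝ E] (σ : E → N), Pl E σ → ContDiff ℝ ∞ (fun u => f (σ u))

/-- smooth functions on `N × ℝ` for the class `Pl` of smooth families -/
def SmN2 (Pl : ∀ (E : Type) [NormedAddCommGroup E] [NormedSpace ℝ E], (E → N) → Prop)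
    {F : Type*} [NormedAddCommGroup F] [NormedSpace ℝ F] (f : N → ℝ → F) : Prop :=
  ∀ (E : Type) [NormedAddCommGroup E] [NormedSpace ℝ E] (σ : E → N), Pl E σ →
    ContDiff ℝ ∞ (fun z : E × ℝ => f (σ z.1) z.2)

/-- a class of smooth families in `N`, compatible with the flow `φ` -/
structure Plots (φ : ℝ → N → N) (Pl : ∀ (E : Type) [NormedAddCommGroup E] [NormedSpace ℝ E], (E → N) → Prop) :
    Prop where
  comp : ∀ (E : Type) [NormedAddCommGroup E] [NormedSpace ℝ E] (E' : Type) [NormedAddCommGroup E'] [NormedSpace ℝ E']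
    (σ : E → N) (f : E' → E), Pl E σ → ContDiff ℝ ∞ f → Pl E' (fun w => σ (f w))
  flow : ∀ (E : Type) [NormedAddCommGroup E] [NormedSpace ℝ E] (σ : E → N) (r : E → ℝ), Pl E σ → ContDiff ℝ ∞ r →
    Pl E (fun u => φ (r u) (σ u))
  sep : ∀ c c' : N, c ≠ c' → ∃ f : N → ℝ, Continuous f ∧ SmN Pl f ∧ f c ≠ f c'

variable {Pl : ∀ (E : Type) [NormedAddCommGroup E] [NormedSpace ℝ E], (E → N) → Prop}
variable {F : Type*} [NormedAddCommGroup F] [NormedSpace ℝ F]

theorem SmN.to2 {f : N → F} (hf : SmN Pl f) : SmN2 Pl (fun c _ => f c) := by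
  intro E _ _ σ hσ
  exact (hf E σ hσ).comp contDiff_fst

variable (Pl) in
/-- the algebra of restrictions to `N × [0, 1]` of smooth functions -/
def SAN : Subalgebra ℝ C(N × Icc (0 : ℝ) 1, ℝ) where
  carrier := {f | ∃ g : N → ℝ → ℝ, SmN2 Pl g ∧ ∀ c s, f (c, s) = g c s}
  mul_mem' := by
    rintro f f' ⟨g, hg, hfg⟩ ⟨g', hg', hfg'⟩
    refine ⟨fun c s => g c s * g' c s, fun E _ _ σ hσ => (hg E σ hσ).mul (hg' E σ hσ), fun c s => ?_⟩
    rw [ContinuousMap.mul_apply, hfg, hfg']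
  add_mem' := by
    rintro f f' ⟨g, hg, hfg⟩ ⟨g', hg', hfg'⟩
    refine ⟨fun c s => g c s + g' c s, fun E _ _ σ hσ => (hg E σ hσ).add (hg' E σ hσ), fun c s => ?_⟩
    rw [ContinuousMap.add_apply, hfg, hfg']
  algebraMap_mem' := by
    intro r
    exact ⟨fun _ _ => r, fun E _ _ σ _ => contDiff_const, fun c s => rfl⟩

theorem SAN_separates (hP : Plots φ Pl) : (SAN Pl : Subalgebra ℝ C(N × Icc (0 : ℝ) 1, ℝ)).SeparatesPoints := by
  rintro ⟨c, s⟩ ⟨c', s'⟩ h
  by_cases hc : c = c'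
  · have hs : s ≠ s' := by
      intro hs
      exact h (by rw [hc, hs])
    refine ⟨fun z => (z.2 : ℝ), ⟨⟨fun z => (z.2 : ℝ), by fun_prop⟩, ⟨fun _ s => s, fun E _ _ σ _ => contDiff_snd,
      fun c s => rfl⟩, rfl⟩, ?_⟩
    exact fun h => hs (Subtype.ext h)
  · obtain ⟨f, hf, hfs, hne⟩ := hP.sep c c' hc
    exact ⟨fun z => f z.1, ⟨⟨fun z => f z.1, hf.comp continuous_fst⟩, ⟨fun c _ => f c, hfs.to2, fun c s => rfl⟩, rfl⟩,
      hne⟩

/-- **Approximation.** Continuous maps `N × [0, 1] → ℝ^q` are uniformly close to smooth ones. -/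
theorem exists_smooth_nearN [CompactSpace N] (hP : Plots φ Pl) {q : ℕ} {Φ : N → ℝ → EuclideanSpace ℝ (Fin q)}
    (hΦ : Continuous (fun z : N × ℝ => Φ z.1 z.2)) {ε : ℝ} (hε : 0 < ε) :
    ∃ G : N → ℝ → EuclideanSpace ℝ (Fin q), SmN2 Pl G ∧ (∀ s ∈ Icc (0 : ℝ) 1, Continuous fun c => G c s) ∧
      ∀ c, ∀ s ∈ Icc (0 : ℝ) 1, ‖G c s - Φ c s‖ < ε := by
  have hη : 0 < ε / (q + 1) := by positivity
  have hj : ∀ j : Fin q, ∃ g : N → ℝ → ℝ, SmN2 Pl g ∧ (∀ s ∈ Icc (0 : ℝ) 1, Continuous fun c => g c s) ∧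
      ∀ c, ∀ s ∈ Icc (0 : ℝ) 1, |g c s - Φ c s j| < ε / (q + 1) := by
    intro j
    have hc : Continuous (fun z : N × Icc (0 : ℝ) 1 => Φ z.1 z.2 j) := by
      have h2 : Continuous (fun x : EuclideanSpace ℝ (Fin q) => x j) := by fun_prop
      exact h2.comp (hΦ.comp (continuous_fst.prodMk (continuous_subtype_val.comp continuous_snd)))
    obtain ⟨⟨g, g', hg', hgg⟩, hg⟩ := ContinuousMap.exists_mem_subalgebra_near_continuous_of_separatesPoints
      (SAN Pl) (SAN_separates hP) (fun z : N × Icc (0 : ℝ) 1 => Φ z.1 z.2 j) hc _ hη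
    refine ⟨g', hg', fun s hs => ?_, fun c s hs => ?_⟩
    · have h1 : (fun c => g' c s) = fun c => g (c, ⟨s, hs⟩) := by
        funext c
        exact (hgg c ⟨s, hs⟩).symm
      rw [h1]
      exact g.continuous.comp (Continuous.prodMk_left _)
    have h1 := hg (c, ⟨s, hs⟩)
    simp only at h1
    have h2 : g (c, ⟨s, hs⟩) = g' c s := hgg c ⟨s, hs⟩
    rw [h2, Real.norm_eq_abs] at h1
    exact h1
  choose g hg1 hg3 hg2 using hj
  refine ⟨fun c s => WithLp.toLp 2 fun j => g j c s, ?_, ?_, ?_⟩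
  · intro E _ _ σ hσ
    rw [contDiff_euclidean]
    intro j
    exact hg1 j E σ hσ
  · intro s hs
    exact (PiLp.continuous_toLp 2 _).comp (continuous_pi fun j => hg3 j s hs)
  · intro c s hs
    rw [EuclideanSpace.norm_eq, Real.sqrt_lt' hε]
    have h1 : ∀ j ∈ (Finset.univ : Finset (Fin q)),
        ‖((WithLp.toLp 2 fun j => g j c s) - Φ c s : EuclideanSpace ℝ (Fin q)) j‖ ^ 2 ≤ (ε / (q + 1)) ^ 2 := by
      intro j _
      have h2 := hg2 j c s hs
      have h3 : ‖((WithLp.toLp 2 fun j => g j c s) - Φ c s : EuclideanSpace ℝ (Fin q)) j‖ = |g j c s - Φ c s j| := by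
        rw [Real.norm_eq_abs]
        rfl
      rw [h3]
      exact pow_le_pow_left₀ (abs_nonneg _) h2.le 2
    refine (Finset.sum_le_sum h1).trans_lt ?_
    rw [Finset.sum_const, Finset.card_univ, Fintype.card_fin, nsmul_eq_mul]
    have h4 : (q : ℝ) * (ε / (q + 1)) ^ 2 = ε ^ 2 * (q / (q + 1) ^ 2) := by rw [div_pow]; ring
    rw [h4]
    have h5 : (q : ℝ) / (q + 1) ^ 2 < 1 := by
      rw [div_lt_one (by positivity)]
      nlinarith [(Nat.cast_nonneg q : (0 : ℝ) ≤ q)]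
    calc ε ^ 2 * (q / (q + 1) ^ 2) < ε ^ 2 * 1 := mul_lt_mul_of_pos_left h5 (by positivity)
      _ = ε ^ 2 := mul_one _

/-- the average over the flow -/
def avgN (φ : ℝ → N → N) (f : N → F) (c : N) : F := (2 * π)⁻¹ • ∫ t in (0 : ℝ)..(2 * π), f (φ t c)

theorem smN_avg {F : Type} [NormedAddCommGroup F] [NormedSpace ℝ F] [CompleteSpace F] (hP : Plots φ Pl) {f : N → F}
    (hf : SmN Pl f) : SmN Pl (avgN φ f) := by
  intro E _ _ σ hσ
  unfold avgN
  have h1 : Pl (E × ℝ) (fun z : E × ℝ => φ z.2 (σ z.1)) :=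
    hP.flow (E × ℝ) (fun z : E × ℝ => σ z.1) (fun z : E × ℝ => z.2)
      (hP.comp E (E × ℝ) σ (fun z : E × ℝ => z.1) hσ contDiff_fst) contDiff_snd
  have h2 : ContDiff ℝ ∞ (fun z : E × ℝ => f (φ z.2 (σ z.1))) := hf (E × ℝ) _ h1
  exact (contDiff_param.{0, 0} h2 0 (2 * π)).const_smul _

theorem phi_per (hφ : CO.CircAct φ) (t : ℝ) (c : N) : φ (t + 2 * π) c = φ t c := by
  rw [hφ.add, hφ.per]

theorem avgN_flow (hφ : CO.CircAct φ) (f : N → F) (s : ℝ) (c : N) : avgN φ f (φ s c) = avgN φ f c := by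
  unfold avgN
  congr 1
  have e : ∀ t, φ t (φ s c) = φ (t + s) c := fun t => (hφ.add t s c).symm
  simp only [e]
  have hp : Function.Periodic (fun t => f (φ t c)) (2 * π) := fun t => by
    simp only [phi_per hφ]
  have h1 := intervalIntegral.integral_comp_add_right (a := 0) (b := 2 * π) (fun t => f (φ t c)) s
  rw [h1, zero_add, add_comm (2 * π) s]
  have h2 := hp.intervalIntegral_add_eq s 0
  rw [zero_add] at h2
  exact h2

theorem norm_avgN_sub_le (hφ : CO.CircAct φ) {f : N → F} (hf : Continuous f) {c : N} {z : F} {ε : ℝ}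
    (h : ∀ t, ‖f (φ t c) - z‖ ≤ ε) [CompleteSpace F] : ‖avgN φ f c - z‖ ≤ ε := by
  have hπ : 0 < 2 * π := by positivity
  have hint : IntervalIntegrable (fun t => f (φ t c)) MeasureTheory.volume 0 (2 * π) :=
    (hf.comp (hφ.cont.comp (Continuous.prodMk_left c))).intervalIntegrable _ _
  have h1 : avgN φ f c - z = (2 * π)⁻¹ • ∫ t in (0 : ℝ)..(2 * π), (f (φ t c) - z) := by
    rw [intervalIntegral.integral_sub hint intervalIntegrable_const, smul_sub, intervalIntegral.integral_const, sub_zero,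
      smul_smul, inv_mul_cancel₀ hπ.ne', one_smul]
    rfl
  rw [h1, norm_smul]
  have h2 := intervalIntegral.norm_integral_le_of_norm_le_const (a := 0) (b := 2 * π) (f := fun t => f (φ t c) - z)
    (C := ε) (fun t _ => h t)
  rw [sub_zero, abs_of_pos hπ] at h2
  calc ‖(2 * π)⁻¹‖ * ‖∫ t in (0 : ℝ)..(2 * π), (f (φ t c) - z)‖ ≤ (2 * π)⁻¹ * (ε * (2 * π)) := by
        rw [Real.norm_eq_abs, abs_of_pos (inv_pos.2 hπ)]
        exact mul_le_mul_of_nonneg_left h2 (inv_pos.2 hπ).le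
    _ = ε := by field_simp

/-- **Smooth filling**, general form. -/
theorem smooth_fillingN {n : ℕ} {M : Type*} [MetricSpace M] {𝒜 : SDist n M} [CompactSpace M] [Nonempty M]
    [CompactSpace N] (hP : Plots φ Pl) (hφ : CO.CircAct φ) {f₀ Z : C(N, M)} (H : ContinuousMap.Homotopy f₀ Z)
    (h0 : ∀ (E : Type) [NormedAddCommGroup E] [NormedSpace ℝ E] (σ : E → N), Pl E σ → Sm 𝒜 (fun u => f₀ (σ u)))
    (hZ : ∀ t c, Z (φ t c) = Z c) {ε : ℝ} (hε : 0 < ε) :
    ∃ f : N → ℝ → M,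
      (∀ (E : Type) [NormedAddCommGroup E] [NormedSpace ℝ E] (σ : E → N), Pl E σ →
        Sm 𝒜 (fun z : E × ℝ => f (σ z.1) z.2)) ∧
      (∀ c, ∀ s ≤ 1 / 4, f c s = f₀ c) ∧
      (∀ c t, ∀ s, 3 / 4 ≤ s → f (φ t c) s = f c 1) ∧
      ∀ c s, dist (f c s) (H (⟨thet s, thet_mem s⟩, c)) < ε := by
  obtain ⟨e⟩ := exists_emb 𝒜
  have his : ∀ x, SmFA 𝒜 e.i x := e.smooth_i
  have hic : Continuous e.i := continuous_iff_continuousAt.2 fun x => (his x).continuousAt
  obtain ⟨δ, hδ, hδr⟩ := e.uniform hε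
  -- the continuous map to approximate
  set Φ : N → ℝ → EuclideanSpace ℝ (Fin e.q) := fun c s => e.i (H (⟨thet s, thet_mem s⟩, c)) with hΦ
  have hΦc : Continuous (fun z : N × ℝ => Φ z.1 z.2) := by
    refine hic.comp (H.continuous.comp ?_)
    exact ((thet_continuous.comp continuous_snd).subtype_mk _).prodMk continuous_fst
  obtain ⟨B, hB1, -, hB2⟩ := exists_smooth_nearN hP hΦc (half_pos hδ)
  obtain ⟨A0, hA1, hA3, hA2⟩ := exists_smooth_nearN hP (Φ := fun c _ => e.i (Z c))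
    ((hic.comp (Z.continuous.comp continuous_fst))) (half_pos hδ)
  -- the invariant end
  set a : N → EuclideanSpace ℝ (Fin e.q) := fun c => A0 c 0 with ha
  have haS : SmN Pl a := by
    intro E _ _ σ hσ
    exact (hA1 E σ hσ).comp (contDiff_id.prodMk contDiff_const : ContDiff ℝ ∞ fun u : E => (u, (0 : ℝ)))
  have hac : Continuous a := hA3 0 (by simp)
  set A : N → EuclideanSpace ℝ (Fin e.q) := avgN φ a with hA
  have hAS : SmN Pl A := smN_avg hP haS
  have hAinv : ∀ t c, A (φ t c) = A c := fun t c => avgN_flow hφ a t c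
  have hAZ : ∀ c, ‖A c - e.i (Z c)‖ ≤ δ / 2 := by
    intro c
    refine norm_avgN_sub_le hφ hac (fun t => ?_)
    have h1 := hA2 (φ t c) 0 (by simp)
    rw [hZ] at h1
    exact h1.le
  -- cut-offs
  obtain ⟨χ₀, hχ₀⟩ : ∃ χ₀ : ℝ → ℝ, χ₀ = fun s => 1 - Real.smoothTransition (12 * s - 3) := ⟨_, rfl⟩
  obtain ⟨χ₁, hχ₁⟩ : ∃ χ₁ : ℝ → ℝ, χ₁ = fun s => Real.smoothTransition (12 * s - 8) := ⟨_, rfl⟩
  have hχ₀s : ContDiff ℝ ∞ χ₀ := by
    rw [hχ₀]
    exact contDiff_const.sub (Real.smoothTransition.contDiff.comp (by fun_prop))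
  have hχ₁s : ContDiff ℝ ∞ χ₁ := by
    rw [hχ₁]
    exact Real.smoothTransition.contDiff.comp (by fun_prop)
  have hχ₀0 : ∀ s, 0 ≤ χ₀ s := fun s => by
    rw [hχ₀]
    exact sub_nonneg.2 (Real.smoothTransition.le_one _)
  have hχ₁0 : ∀ s, 0 ≤ χ₁ s := fun s => by
    rw [hχ₁]
    exact Real.smoothTransition.nonneg _
  have hχ₀1 : ∀ s, s ≤ 1 / 4 → χ₀ s = 1 := fun s hs => by
    rw [hχ₀]
    simp only
    rw [Real.smoothTransition.zero_of_nonpos (by linarith), sub_zero]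
  have hχ₀2 : ∀ s, 1 / 3 ≤ s → χ₀ s = 0 := fun s hs => by
    rw [hχ₀]
    simp only
    rw [Real.smoothTransition.one_of_one_le (by linarith), sub_self]
  have hχ₁1 : ∀ s, 3 / 4 ≤ s → χ₁ s = 1 := fun s hs => by
    rw [hχ₁]
    exact Real.smoothTransition.one_of_one_le (by linarith)
  have hχ₁2 : ∀ s, s ≤ 2 / 3 → χ₁ s = 0 := fun s hs => by
    rw [hχ₁]
    exact Real.smoothTransition.zero_of_nonpos (by linarith)
  have hχ01 : ∀ s, χ₀ s ≤ 1 := fun s => by
    rw [hχ₀]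
    have := Real.smoothTransition.nonneg (12 * s - 3)
    simp only
    linarith
  have hχ11 : ∀ s, χ₁ s ≤ 1 := fun s => by
    rw [hχ₁]
    exact Real.smoothTransition.le_one _
  have hχ : ∀ s, 0 ≤ 1 - χ₀ s - χ₁ s := by
    intro s
    rcases le_total s (1 / 2) with hs | hs
    · rw [hχ₁2 s (by linarith), sub_zero]
      linarith [hχ01 s]
    · rw [hχ₀2 s (by linarith), sub_zero]
      linarith [hχ11 s]
  -- the map to Euclidean space
  set G : N → ℝ → EuclideanSpace ℝ (Fin e.q) :=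
    fun c s => χ₀ s • e.i (f₀ c) + χ₁ s • A c + (1 - χ₀ s - χ₁ s) • B c s with hG
  have hG0 : ∀ c s, s ≤ 1 / 4 → G c s = e.i (f₀ c) := by
    intro c s hs
    simp only [hG, hχ₀1 s hs, hχ₁2 s (by linarith)]
    simp
  have hG1 : ∀ c s, 3 / 4 ≤ s → G c s = A c := by
    intro c s hs
    simp only [hG, hχ₀2 s (by linarith), hχ₁1 s hs]
    simp
  have hclose : ∀ c s, ‖G c s - Φ c s‖ ≤ δ / 2 := by
    intro c s
    have t0 : ‖χ₀ s • (e.i (f₀ c) - Φ c s)‖ ≤ χ₀ s * (δ / 2) := by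
      rcases le_total s (1 / 3) with hs | hs
      · have h1 : Φ c s = e.i (f₀ c) := by
          simp only [hΦ]
          have h2 : (⟨thet s, thet_mem s⟩ : unitInterval) = 0 := Subtype.ext (thet_zero hs)
          rw [h2, H.apply_zero]
        rw [h1, sub_self, smul_zero, norm_zero]
        exact mul_nonneg (hχ₀0 s) (by linarith)
      · rw [hχ₀2 s hs, zero_smul, norm_zero, zero_mul]
    have t1 : ‖χ₁ s • (A c - Φ c s)‖ ≤ χ₁ s * (δ / 2) := by
      rcases le_total s (2 / 3) with hs | hs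
      · rw [hχ₁2 s hs, zero_smul, norm_zero, zero_mul]
      · have h1 : Φ c s = e.i (Z c) := by
          simp only [hΦ]
          have h2 : (⟨thet s, thet_mem s⟩ : unitInterval) = 1 := Subtype.ext (thet_one hs)
          rw [h2, H.apply_one]
        rw [h1, norm_smul, Real.norm_eq_abs, abs_of_nonneg (hχ₁0 s)]
        exact mul_le_mul_of_nonneg_left (hAZ c) (hχ₁0 s)
    have t2 : ‖(1 - χ₀ s - χ₁ s) • (B c s - Φ c s)‖ ≤ (1 - χ₀ s - χ₁ s) * (δ / 2) := by
      rw [norm_smul, Real.norm_eq_abs, abs_of_nonneg (hχ s)]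
      rcases le_total s 0 with hs | hs
      · rw [hχ₀1 s (by linarith), hχ₁2 s (by linarith)]
        simp
      · rcases le_total s 1 with hs' | hs'
        · exact mul_le_mul_of_nonneg_left (hB2 c s ⟨hs, hs'⟩).le (hχ s)
        · rw [hχ₀2 s (by linarith), hχ₁1 s (by linarith)]
          simp
    have hsum : G c s - Φ c s = χ₀ s • (e.i (f₀ c) - Φ c s) + χ₁ s • (A c - Φ c s) +
        (1 - χ₀ s - χ₁ s) • (B c s - Φ c s) := by
      simp only [hG]
      module
    rw [hsum]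
    refine (norm_add_le _ _).trans ((add_le_add ((norm_add_le _ _).trans (add_le_add t0 t1)) t2).trans (le_of_eq ?_))
    ring
  have hU : ∀ c s, G c s ∈ e.U ∧ dist (e.r (G c s)) (H (⟨thet s, thet_mem s⟩, c)) < ε := by
    intro c s
    refine hδr _ _ ?_
    rw [dist_eq_norm]
    exact (hclose c s).trans_lt (half_lt_self hδ)
  refine ⟨fun c s => e.r (G c s), ?_, ?_, ?_, fun c s => (hU c s).2⟩
  · intro E _ _ σ hσ z
    have h1 : ContDiff ℝ ∞ (fun z : E × ℝ => G (σ z.1) z.2) := by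
      have k0 : ContDiff ℝ ∞ (fun u : E => e.i (f₀ (σ u))) := by
        rw [contDiff_iff_contDiffAt]
        intro u
        exact SmFA.comp_to (𝒜 := 𝒜) (g := e.i) (r := fun u => f₀ (σ u)) (z := u) (his _) (h0 E σ hσ u)
      have k1 : ContDiff ℝ ∞ (fun z : E × ℝ => e.i (f₀ (σ z.1))) := k0.comp contDiff_fst
      have k2 : ContDiff ℝ ∞ (fun z : E × ℝ => A (σ z.1)) := (hAS E σ hσ).comp contDiff_fst
      have k3 : ContDiff ℝ ∞ (fun z : E × ℝ => B (σ z.1) z.2) := hB1 E σ hσ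
      have k4 : ContDiff ℝ ∞ (fun z : E × ℝ => χ₀ z.2) := hχ₀s.comp contDiff_snd
      have k5 : ContDiff ℝ ∞ (fun z : E × ℝ => χ₁ z.2) := hχ₁s.comp contDiff_snd
      exact ((k4.smul k1).add (k5.smul k2)).add (((contDiff_const.sub k4).sub k5).smul k3)
    have h2 : SmAt 𝒜 e.r (G (σ z.1) z.2) := e.smooth_r _ (hU _ _).1
    exact SmAt.comp (g := e.r) (f := fun z : E × ℝ => G (σ z.1) z.2) h2 h1.contDiffAt
  · intro c s hs
    simp only [hG0 c s hs, e.left]
  · intro c t s hs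
    simp only [hG1 _ s hs, hG1 _ 1 (by norm_num), hAinv]

end Pool.Agent.Lib.MP_ccbbf6_gt.L5.ZC
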