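import Pool.Agent.Lib.MP_ccbbf6_gt.L4.CO0
import Pool.Agent.Lib.MP_ccbbf6_gt.L4.PO1
import Pool.Agent.Lib.MP_ccbbf6_gt.L5.ZC2

/-!
# ZC3: the unit sphere bundle of a smooth family of projections over `Gs M` (helper95)
-/

set_option autoImplicit false
set_option linter.unusedSectionVars false

open Set Filter Topology Metric Real
open scoped ContDiff RealInnerProductSpace

noncomputable section

namespace Pool.Agent.Lib.MP_ccbbf6_gt.L5.ZC

open Geo L4

variable {n : ℕ} {M : Type*} [MetricSpace M] [CompactSpace M] {𝒜 : SDist n M}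

section cont

variable {V : Type} [NormedAddCommGroup V] [NormedSpace ℝ V]

/-- a function of `(x, c)` which is smooth along pointwise smooth families is continuous -/
theorem continuous_of_smooth (𝒜 : SDist n M) [Nonempty (Gs M)] (hB : Bl M) {Y : Type*} [TopologicalSpace Y]
    {f : V → Gs M → Y}
    (hf : ∀ (E : Type) [NormedAddCommGroup E] [NormedSpace ℝ E] (σ : E → Gs M) (x : E → V) (u : E), SmGAt 𝒜 σ u →
      ContDiffAt ℝ ∞ x u → ContinuousAt (fun v => f (x v) (σ v)) u) : Continuous (fun z : V × Gs M => f z.1 z.2) := by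
  have : Nonempty M := ⟨(Classical.arbitrary (Gs M)).1 0⟩
  obtain ⟨e⟩ := exists_emb 𝒜
  rw [continuous_iff_continuousAt]
  rintro ⟨x, c⟩
  have h1 : SmGAt 𝒜 (fun w : V × e.Q => e.RR w.2) (x, e.EE c) :=
    SmGAt.comp (σ := e.RR) (f := fun w : V × e.Q => w.2) (e.smG_RR hB (e.EE_mem c)) contDiffAt_snd
  have h2 := hf (V × e.Q) (fun w => e.RR w.2) (fun w => w.1) (x, e.EE c) h1 contDiffAt_fst
  have h3 : Continuous (fun z : V × Gs M => (z.1, e.EE z.2)) := continuous_fst.prodMk (e.continuous_EE.comp continuous_snd)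
  have h4 : ContinuousAt (fun z : V × Gs M => f z.1 (e.RR (e.EE z.2))) (x, c) :=
    ContinuousAt.comp (g := fun w : V × e.Q => f w.1 (e.RR w.2)) (f := fun z : V × Gs M => (z.1, e.EE z.2)) h2
      h3.continuousAt
  simp only [e.RR_EE hB] at h4
  exact h4

end cont

variable {V : Type} [NormedAddCommGroup V] [InnerProductSpace ℝ V]

/-- a smooth family of projections in `V`, invariant under the geodesic flow -/
structure PB (𝒜 : SDist n M) (P : Gs M → V →L[ℝ] V) : Prop where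
  idem : ∀ c x, P c (P c x) = P c x
  inv : ∀ t c, P (shift t c) = P c
  smooth : ∀ (E : Type) [NormedAddCommGroup E] [NormedSpace ℝ E] (σ : E → Gs M) (u : E), SmGAt 𝒜 σ u →
    ContDiffAt ℝ ∞ (fun v => P (σ v)) u

variable {P : Gs M → V →L[ℝ] V}

theorem PB.continuous [Nonempty (Gs M)] (hB : Bl M) (hP : PB 𝒜 P) : Continuous P := by
  have h1 := continuous_of_smooth (V := V) 𝒜 hB (f := fun _ c => P c)
    (fun E _ _ σ x u hσ _ => (hP.smooth E σ u hσ).continuousAt)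
  exact h1.comp (f := fun c : Gs M => ((0 : V), c)) (continuous_const.prodMk continuous_id)

theorem PB.continuous₂ [Nonempty (Gs M)] (hB : Bl M) (hP : PB 𝒜 P) : Continuous (fun z : Gs M × V => P z.1 z.2) :=
  ((hP.continuous hB).comp continuous_fst).clm_apply continuous_snd

variable (P) in
/-- the unit sphere bundle -/
abbrev SP : Type _ := {z : Gs M × V // P z.1 z.2 = z.2 ∧ ‖z.2‖ = 1}

theorem isCompact_SP [FiniteDimensional ℝ V] [Nonempty (Gs M)] (hB : Bl M) (hP : PB 𝒜 P) : CompactSpace (SP P) := by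
  refine (isCompact_iff_compactSpace (s := {z : Gs M × V | P z.1 z.2 = z.2 ∧ ‖z.2‖ = 1})).1 ?_
  have h1 : IsClosed {z : Gs M × V | P z.1 z.2 = z.2 ∧ ‖z.2‖ = 1} :=
    (isClosed_eq (hP.continuous₂ hB) continuous_snd).inter (isClosed_eq continuous_snd.norm continuous_const)
  have h2 : IsCompact ((univ : Set (Gs M)) ×ˢ (sphere (0 : V) 1)) := isCompact_univ.prod (isCompact_sphere _ _)
  refine h2.of_isClosed_subset h1 ?_
  rintro z ⟨-, hz⟩
  exact ⟨mem_univ _, by rw [mem_sphere_zero_iff_norm]; exact hz⟩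

/-- the flow on the unit sphere bundle -/
def flo (hP : PB 𝒜 P) (t : ℝ) (z : SP P) : SP P :=
  ⟨(shift t z.1.1, z.1.2), by rw [hP.inv]; exact z.2.1, z.2.2⟩

theorem circAct_flo (hB : Bl M) (hP : PB 𝒜 P) : CO.CircAct (flo hP) where
  cont := by
    refine Continuous.subtype_mk ?_ _
    refine Continuous.prodMk ?_ (continuous_snd.comp (continuous_subtype_val.comp continuous_snd))
    exact (circAct_shift 𝒜 hB).cont.comp (continuous_fst.prodMk
      (continuous_fst.comp (continuous_subtype_val.comp continuous_snd)))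
  zero := fun z => Subtype.ext (Prod.ext ((circAct_shift 𝒜 hB).zero z.1.1) rfl)
  add := fun s t z => Subtype.ext (Prod.ext ((circAct_shift 𝒜 hB).add s t z.1.1) rfl)
  per := fun z => Subtype.ext (Prod.ext ((circAct_shift 𝒜 hB).per z.1.1) rfl)
  free := fun t z h0 h1 h => (circAct_shift 𝒜 hB).free t z.1.1 h0 h1
    (congrArg (fun w : SP P => w.1.1) h)

variable (𝒜 P) in
/-- the smooth families in the unit sphere bundle -/
def PlP (E : Type) [NormedAddCommGroup E] [NormedSpace ℝ E] (σ : E → SP P) : Prop :=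
  SmG 𝒜 (fun u => (σ u).1.1) ∧ ContDiff ℝ ∞ (fun u => (σ u).1.2)

theorem plots_PlP [Nonempty (Gs M)] (hB : Bl M) (hP : PB 𝒜 P) : Plots (flo hP) (PlP 𝒜 P) where
  comp := fun E _ _ E' _ _ σ f hσ hf => ⟨hσ.1.comp hf, hσ.2.comp hf⟩
  flow := fun E _ _ σ r hσ hr => ⟨hσ.1.shift hB hr, hσ.2⟩
  sep := by
    intro z z' h
    have : Nonempty M := ⟨(Classical.arbitrary (Gs M)).1 0⟩
    by_cases h1 : z.1.1 = z'.1.1
    · have h2 : z.1.2 ≠ z'.1.2 := fun h2 => h (Subtype.ext (Prod.ext h1 h2))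
      refine ⟨fun w => ⟪w.1.2, z.1.2 - z'.1.2⟫, ?_, ?_, ?_⟩
      · exact (continuous_snd.comp continuous_subtype_val).inner continuous_const
      · intro E _ _ σ hσ
        exact hσ.2.inner ℝ contDiff_const
      · intro h3
        have h4 : ⟪z.1.2 - z'.1.2, z.1.2 - z'.1.2⟫ = (0 : ℝ) := by
          rw [inner_sub_left, sub_eq_zero]
          exact h3
        rw [inner_self_eq_zero, sub_eq_zero] at h4
        exact h2 h4
    · obtain ⟨f, hf, hfs, hne⟩ := exists_separate (𝒜 := 𝒜) hB h1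
      exact ⟨fun w => f w.1.1, hf.comp (continuous_fst.comp continuous_subtype_val),
        fun E _ _ σ hσ => hfs E (fun u => (σ u).1.1) hσ.1, hne⟩

/-- the point of the unit sphere bundle under `(x, c)` -/
def nrm (hP : PB 𝒜 P) (x : V) (c : Gs M) (h : P c x ≠ 0) : SP P :=
  ⟨(c, ‖P c x‖⁻¹ • P c x), by
    show P c (‖P c x‖⁻¹ • P c x) = ‖P c x‖⁻¹ • P c x
    rw [map_smul, hP.idem], by
    show ‖‖P c x‖⁻¹ • P c x‖ = 1
    rw [norm_smul, norm_inv, norm_norm, inv_mul_cancel₀ (norm_ne_zero_iff.mpr h)]⟩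

open Classical in
/-- extension of a map on the unit sphere bundle -/
def exF (hP : PB 𝒜 P) (f : SP P → ℝ → M) (d : M) (x : V) (c : Gs M) (s : ℝ) : M :=
  if h : P c x = 0 then d else f (nrm hP x c h) s

theorem exF_ne (hP : PB 𝒜 P) (f : SP P → ℝ → M) (d : M) {x : V} {c : Gs M} (h : P c x ≠ 0) (s : ℝ) :
    exF hP f d x c s = f (nrm hP x c h) s := by
  unfold exF
  rw [dif_neg h]

/-- **From global to pointwise smooth families.** -/
theorem exF_smooth [FiniteDimensional ℝ V] [Nonempty (Gs M)] (hB : Bl M) (hP : PB 𝒜 P) {f : SP P → ℝ → M}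
    (hf : ∀ (E : Type) [NormedAddCommGroup E] [NormedSpace ℝ E] (σ : E → SP P), PlP 𝒜 P E σ →
        Sm 𝒜 (fun z : E × ℝ => f (σ z.1) z.2)) (d : M)
    {E : Type} [NormedAddCommGroup E] [NormedSpace ℝ E] {σ : E → Gs M} {x : E → V} {r : E → ℝ} {u : E}
    (hσ : SmGAt 𝒜 σ u) (hx : ContDiffAt ℝ ∞ x u) (hr : ContDiffAt ℝ ∞ r u) (h0 : P (σ u) (x u) ≠ 0) :
    SmAt 𝒜 (fun v => exF hP f d (x v) (σ v) (r v)) u := by
  have : Nonempty M := ⟨(Classical.arbitrary (Gs M)).1 0⟩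
  obtain ⟨e⟩ := exists_emb 𝒜
  -- smoothness of the projections
  have hPs : ∀ w : e.Q × V, w.1 ∈ e.UU → ContDiffAt ℝ ∞ (fun w : e.Q × V => P (e.RR w.1) w.2) w := by
    intro w hw
    have h1 : ContDiffAt ℝ ∞ (fun w : e.Q × V => P (e.RR w.1)) w :=
      hP.smooth (e.Q × V) (fun w => e.RR w.1) w
        (SmGAt.comp (σ := e.RR) (f := fun w : e.Q × V => w.1) (e.smG_RR hB hw) contDiffAt_fst)
    exact h1.clm_apply contDiffAt_snd
  -- the good set
  have hU : {w : e.Q × V | w.1 ∈ e.UU ∧ P (e.RR w.1) w.2 ≠ 0} ∈ 𝓝 ((e.EE (σ u), x u) : e.Q × V) := by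
    have h1 : ∀ᶠ w : e.Q × V in 𝓝 (e.EE (σ u), x u), w.1 ∈ e.UU :=
      continuousAt_fst.eventually (e.isOpen_UU.mem_nhds (e.EE_mem (σ u)))
    have h2 : ∀ᶠ w : e.Q × V in 𝓝 (e.EE (σ u), x u), P (e.RR w.1) w.2 ≠ 0 := by
      have h3 := (hPs (e.EE (σ u), x u) (e.EE_mem (σ u))).continuousAt
      refine h3.eventually_ne ?_
      simp only [e.RR_EE hB]
      exact h0
    exact h1.and h2
  obtain ⟨β, hβ, hβU, hβe⟩ := exists_to_ball ((e.EE (σ u), x u) : e.Q × V) hU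
  -- the global family
  obtain ⟨ρ, hρ⟩ : ∃ ρ : e.Q × V → SP P, ρ = fun w => nrm hP (β w).2 (e.RR (β w).1) (hβU w).2 := ⟨_, rfl⟩
  have hρs : PlP 𝒜 P (e.Q × V) ρ := by
    constructor
    · have h1 : ∀ w, SmGAt 𝒜 (fun w : e.Q × V => e.RR (β w).1) w := fun w =>
        SmGAt.comp (σ := e.RR) (f := fun w : e.Q × V => (β w).1) (e.smG_RR hB (hβU w).1)
          (contDiffAt_fst.comp w hβ.contDiffAt)
      rw [hρ]
      exact ⟨fun w => (h1 w).1, fun w => (h1 w).2⟩
    · rw [hρ, contDiff_iff_contDiffAt]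
      intro w
      have h1 : ContDiffAt ℝ ∞ (fun w : e.Q × V => P (e.RR (β w).1) (β w).2) w :=
        ContDiffAt.comp (g := fun w : e.Q × V => P (e.RR w.1) w.2) (f := β) w (hPs (β w) (hβU w).1) hβ.contDiffAt
      have h2 : ContDiffAt ℝ ∞ (fun w : e.Q × V => ‖P (e.RR (β w).1) (β w).2‖) w := h1.norm ℝ (hβU w).2
      exact (h2.inv (norm_ne_zero_iff.mpr (hβU w).2)).smul h1
  have h1 := hf (e.Q × V) ρ hρs ((e.EE (σ u), x u), r u)
  have h2 : ContDiffAt ℝ ∞ (fun v => (((e.EE (σ v), x v), r v) : (e.Q × V) × ℝ)) u :=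
    ((e.smooth_EE hσ).prodMk hx).prodMk hr
  have h3 := SmAt.comp (g := fun z : (e.Q × V) × ℝ => f (ρ z.1) z.2)
    (f := fun v => (((e.EE (σ v), x v), r v) : (e.Q × V) × ℝ)) (v := u) h1 h2
  refine h3.congr ?_
  have h4 : ContinuousAt (fun v => ((e.EE (σ v), x v) : e.Q × V)) u := ((e.smooth_EE hσ).prodMk hx).continuousAt
  have h5 : ∀ᶠ v in 𝓝 u, ((e.EE (σ v), x v) : e.Q × V) ∈ {w : e.Q × V | w.1 ∈ e.UU ∧ P (e.RR w.1) w.2 ≠ 0} :=
    h4.eventually hU
  filter_upwards [h4.eventually hβe, h5] with v hv hv'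
  have h6 : P (σ v) (x v) ≠ 0 := by
    have := hv'.2
    simp only [e.RR_EE hB] at this
    exact this
  rw [exF_ne hP f d h6]
  congr 1
  rw [hρ]
  apply Subtype.ext
  have h7 : β (e.EE (σ v), x v) = (e.EE (σ v), x v) := hv
  show ((σ v, ‖P (σ v) (x v)‖⁻¹ • P (σ v) (x v)) : Gs M × V) =
    (e.RR (β (e.EE (σ v), x v)).1, ‖P (e.RR (β (e.EE (σ v), x v)).1) (β (e.EE (σ v), x v)).2‖⁻¹ •
      P (e.RR (β (e.EE (σ v), x v)).1) (β (e.EE (σ v), x v)).2)
  rw [h7]
  simp only [e.RR_EE hB]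

end Pool.Agent.Lib.MP_ccbbf6_gt.L5.ZC
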