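import Pool.Agent.Lib.MP_ccbbf6_gt.L5.ZC1
import Pool.Agent.Lib.MP_ccbbf6_gt.L5.ZC3

/-!
# ZC4: the smooth map on the total space of a smooth family of projections over `Gs M` (helper95)
-/

set_option autoImplicit false
set_option linter.unusedSectionVars false

open Set Filter Topology Metric Real
open scoped ContDiff RealInnerProductSpace

noncomputable section

namespace Pool.Agent.Lib.MP_ccbbf6_gt.L5.ZC

open Geo L4

section rad

variable {V : Type*} [NormedAddCommGroup V] [InnerProductSpace ℝ V]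

/-- cut-off, `0` for `r ≤ θ / 2`, `1` for `r ≥ θ` -/
def chi (θ r : ℝ) : ℝ := Real.smoothTransition (2 * r / θ - 1)

/-- the radial function -/
def hrad (θ r : ℝ) : ℝ := (1 - chi θ r) + chi θ r * (θ / r)

/-- the identity near `0`, of norm `θ` for `‖x‖ ≥ θ` -/
def gth (θ : ℝ) (x : V) : V := hrad θ ‖x‖ • x

theorem chi_zero {θ r : ℝ} (hθ : 0 < θ) (hr : r ≤ θ / 2) : chi θ r = 0 := by
  refine Real.smoothTransition.zero_of_nonpos ?_
  have : 2 * r / θ ≤ 1 := by rw [div_le_one hθ]; linarith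
  linarith

theorem chi_one {θ r : ℝ} (hθ : 0 < θ) (hr : θ ≤ r) : chi θ r = 1 := by
  refine Real.smoothTransition.one_of_one_le ?_
  have : 2 ≤ 2 * r / θ := by rw [le_div_iff₀ hθ]; linarith
  linarith

theorem chi_nonneg (θ r : ℝ) : 0 ≤ chi θ r := Real.smoothTransition.nonneg _

theorem chi_le_one (θ r : ℝ) : chi θ r ≤ 1 := Real.smoothTransition.le_one _

theorem gth_small {θ : ℝ} (hθ : 0 < θ) {x : V} (hx : ‖x‖ ≤ θ / 2) : gth θ x = x := by
  unfold gth hrad
  rw [chi_zero hθ hx, zero_mul, sub_zero, add_zero, one_smul]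

theorem gth_large {θ : ℝ} (hθ : 0 < θ) {x : V} (hx : θ ≤ ‖x‖) : gth θ x = (θ / ‖x‖) • x := by
  unfold gth hrad
  rw [chi_one hθ hx, sub_self, zero_add, one_mul]

theorem norm_gth {θ : ℝ} (hθ : 0 < θ) {x : V} (hx : x ≠ 0) :
    ‖gth θ x‖ = (1 - chi θ ‖x‖) * ‖x‖ + chi θ ‖x‖ * θ := by
  have h0 : 0 < ‖x‖ := norm_pos_iff.2 hx
  unfold gth hrad
  rw [norm_smul, Real.norm_eq_abs, abs_of_nonneg]
  · field_simp
  · have h1 := chi_nonneg θ ‖x‖
    have h2 := chi_le_one θ ‖x‖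
    have h3 : 0 ≤ 1 - chi θ ‖x‖ := by linarith
    positivity

theorem norm_gth_pos {θ : ℝ} (hθ : 0 < θ) {x : V} (hx : x ≠ 0) : 0 < ‖gth θ x‖ := by
  have h0 : 0 < ‖x‖ := norm_pos_iff.2 hx
  have h1 := chi_nonneg θ ‖x‖
  have h2 := chi_le_one θ ‖x‖
  rw [norm_gth hθ hx]
  rcases eq_or_lt_of_le h1 with h | h
  · rw [← h]
    linarith
  · have h3 : 0 ≤ (1 - chi θ ‖x‖) * ‖x‖ := mul_nonneg (by linarith) h0.le
    have h4 : 0 < chi θ ‖x‖ * θ := mul_pos h hθ
    linarith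

theorem norm_gth_le {θ : ℝ} (hθ : 0 < θ) (x : V) : ‖gth θ x‖ ≤ θ := by
  by_cases hx : x = 0
  · rw [hx]
    unfold gth
    rw [smul_zero, norm_zero]
    exact hθ.le
  · have h1 := chi_nonneg θ ‖x‖
    have h2 := chi_le_one θ ‖x‖
    rw [norm_gth hθ hx]
    rcases le_total ‖x‖ θ with h | h
    · nlinarith
    · rw [chi_one hθ h]
      linarith

theorem norm_gth_large {θ : ℝ} (hθ : 0 < θ) {x : V} (hx : θ ≤ ‖x‖) : ‖gth θ x‖ = θ := by
  have h0 : x ≠ 0 := by
    rintro rfl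
    rw [norm_zero] at hx
    linarith
  rw [norm_gth hθ h0, chi_one hθ hx]
  ring

theorem contDiff_gth {θ : ℝ} (hθ : 0 < θ) : ContDiff ℝ ∞ (gth θ : V → V) := by
  rw [contDiff_iff_contDiffAt]
  intro x
  by_cases hx : ‖x‖ < θ / 2
  · refine contDiffAt_id.congr_of_eventuallyEq ?_
    have h1 : ∀ᶠ y : V in 𝓝 x, ‖y‖ < θ / 2 := continuous_norm.continuousAt.eventually (gt_mem_nhds hx)
    filter_upwards [h1] with y hy
    exact gth_small hθ hy.le
  · push Not at hx
    have h0 : x ≠ 0 := by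
      rintro rfl
      rw [norm_zero] at hx
      linarith
    have h1 : ContDiffAt ℝ ∞ (fun y : V => ‖y‖) x := contDiffAt_id.norm ℝ h0
    have h2 : ContDiffAt ℝ ∞ (fun y : V => chi θ ‖y‖) x := by
      unfold chi
      exact ContDiffAt.comp (g := Real.smoothTransition) (f := fun y : V => 2 * ‖y‖ / θ - 1) x
        Real.smoothTransition.contDiff.contDiffAt (((contDiffAt_const.mul h1).div_const _).sub contDiffAt_const)
    have h3 : ContDiffAt ℝ ∞ (fun y : V => θ / ‖y‖) x := contDiffAt_const.div h1 (norm_ne_zero_iff.2 h0)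
    exact ((contDiffAt_const.sub h2).add (h2.mul h3)).smul contDiffAt_id

end rad

/-- values of a periodic Lipschitz loop -/
theorem lip_per {M : Type*} [MetricSpace M] {lam : ℝ} (h0 : 0 ≤ lam) {g : ℝ → M} (hg : CO.Lip lam g)
    (hp : ∀ t, g (t + 2 * π) = g t) (s s' : ℝ) : dist (g s) (g s') ≤ lam * π := by
  have hπ := Real.pi_pos
  obtain ⟨k, hk⟩ : ∃ k : ℤ, k = round ((s - s') / (2 * π)) := ⟨_, rfl⟩
  have h1 : |(s - s') / (2 * π) - k| ≤ 1 / 2 := by rw [hk]; exact abs_sub_round _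
  have h2 : |s - k • (2 * π) - s'| ≤ π := by
    have h3 : s - k • (2 * π) - s' = ((s - s') / (2 * π) - k) * (2 * π) := by
      rw [zsmul_eq_mul]
      field_simp
      ring
    rw [h3, abs_mul, abs_of_pos (by positivity : (0 : ℝ) < 2 * π)]
    nlinarith
  have hper : Function.Periodic g (2 * π) := hp
  have h4 : g s = g (s - k • (2 * π)) := (hper.sub_zsmul_eq k).symm
  rw [h4]
  exact (hg _ _).trans (mul_le_mul_of_nonneg_left h2 h0)

section main

variable {n : ℕ} {M : Type*} [MetricSpace M] [CompactSpace M] {𝒜 : SDist n M}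
variable {V : Type} [NormedAddCommGroup V] [InnerProductSpace ℝ V] [FiniteDimensional ℝ V] {P : Gs M → V →L[ℝ] V}

/-- **The smooth map on the total space.** -/
theorem exists_total [Nonempty (Gs M)] (hB : Bl M) (hP : PB 𝒜 P) {Co : V → Gs M → M} {R : ℝ} (hR : 0 < R)
    (hCs : ∀ (E : Type) [NormedAddCommGroup E] [NormedSpace ℝ E] (σ : E → Gs M) (x : E → V) (u : E), SmGAt 𝒜 σ u →
      ContDiffAt ℝ ∞ x u → ‖x u‖ < R → SmAt 𝒜 (fun v => Co (x v) (σ v)) u)
    (hL : ∀ θ, 0 < θ → θ < R → ∃ lam : ℝ, 0 ≤ lam ∧ lam < 1 ∧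
      ∀ c x, P c x = x → ‖x‖ = θ → CO.Lip lam (fun t => Co x (shift t c))) :
    ∃ F : V → Gs M → M,
      (∀ (E : Type) [NormedAddCommGroup E] [NormedSpace ℝ E] (σ : E → Gs M) (x : E → V) (u : E), SmGAt 𝒜 σ u →
        ContDiffAt ℝ ∞ x u → SmAt 𝒜 (fun v => F (x v) (σ v)) u) ∧
      (∀ x c, F (P c x) c = F x c) ∧
      (∃ ρ, 0 < ρ ∧ ∀ x c, P c x = x → ‖x‖ ≤ ρ → F x c = Co x c) ∧
      (∀ x c, P c x = x → 1 ≤ ‖x‖ → F x c = F (‖x‖⁻¹ • x) c) ∧
      (∀ x c t, P c x = x → 1 ≤ ‖x‖ → F x (shift t c) = F x c) ∧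
      (∀ x c, P c x = x → x ≠ 0 → ∀ s s', dist (F x (shift s c)) (F x (shift s' c)) < π) := by
  have hπ := Real.pi_pos
  have : Nonempty M := ⟨(Classical.arbitrary (Gs M)).1 0⟩
  have : CompactSpace (SP P) := isCompact_SP hB hP
  obtain ⟨θ, hθd⟩ : ∃ θ, θ = min (R / 2) (1 / 8) := ⟨_, rfl⟩
  have hθ : 0 < θ := by rw [hθd]; exact lt_min (by linarith) (by norm_num)
  have hθR : θ < R := by
    have : θ ≤ R / 2 := by rw [hθd]; exact min_le_left _ _
    linarith
  have hθ8 : θ ≤ 1 / 8 := by rw [hθd]; exact min_le_right _ _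
  obtain ⟨lam, l0, l1, hlam⟩ := hL θ hθ hθR
  -- the extended push-off
  have hCg : ∀ (E : Type) [NormedAddCommGroup E] [NormedSpace ℝ E] (σ : E → Gs M) (x : E → V) (u : E), SmGAt 𝒜 σ u →
      ContDiffAt ℝ ∞ x u → SmAt 𝒜 (fun v => Co (gth θ (x v)) (σ v)) u := by
    intro E _ _ σ x u hσ hx
    exact hCs E σ (fun v => gth θ (x v)) u hσ ((contDiff_gth hθ).contDiffAt.comp u hx)
      ((norm_gth_le hθ _).trans_lt hθR)
  have hCc : Continuous (fun z : V × Gs M => Co (gth θ z.1) z.2) :=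
    continuous_of_smooth 𝒜 hB (f := fun x c => Co (gth θ x) c) (fun E _ _ σ x u hσ hx => (hCg E σ x u hσ hx).1)
  obtain ⟨C, hC⟩ : ∃ C : C(SP P, M), ∀ z, C z = Co (gth θ z.1.2) z.1.1 :=
    ⟨⟨fun z => Co (gth θ z.1.2) z.1.1, hCc.comp
      ((continuous_snd.comp continuous_subtype_val).prodMk (continuous_fst.comp continuous_subtype_val))⟩,
      fun z => rfl⟩
  have hCL : ∀ v, CO.Lip lam (fun t => C (flo hP t v)) := by
    intro v
    have h1 : ‖gth θ v.1.2‖ = θ := norm_gth_large hθ (by rw [v.2.2]; linarith)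
    have h2 : P v.1.1 (gth θ v.1.2) = gth θ v.1.2 := by
      unfold gth
      rw [map_smul, v.2.1]
    have h3 := hlam v.1.1 _ h2 h1
    have h4 : (fun t => C (flo hP t v)) = fun t => Co (gth θ v.1.2) (shift t v.1.1) := by
      funext t
      rw [hC]
      rfl
    rw [h4]
    exact h3
  obtain ⟨Z, ⟨H⟩, hZ⟩ := collapseW (seg_Seg 𝒜 hB) (circAct_flo hB hP) l0 l1 C hCL
  obtain ⟨f, f1, f2, f3, f4⟩ := smooth_fillingN (𝒜 := 𝒜) (plots_PlP hB hP) (circAct_flo hB hP) H.toHomotopy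
    (by
      intro E _ _ σ hσ
      have h1 : (fun u => C (σ u)) = fun u => Co (gth θ (σ u).1.2) (σ u).1.1 := funext fun u => hC _
      rw [h1]
      intro u
      exact hCg E (fun u => (σ u).1.1) (fun u => (σ u).1.2) u (hσ.1.atP u) hσ.2.contDiffAt) hZ
    (ε := (1 - lam) * π / 4) (by
      have : 0 < 1 - lam := by linarith
      positivity)
  obtain ⟨d⟩ : Nonempty M := inferInstance
  obtain ⟨F, hF⟩ : ∃ F : V → Gs M → M, ∀ x c, F x c =
      if ‖P c x‖ ≤ 1 / 4 then Co (gth θ (P c x)) c else exF hP f d x c ‖P c x‖ := ⟨_, fun x c => rfl⟩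
  -- agreement
  have hag : ∀ x c, θ ≤ ‖P c x‖ → F x c = exF hP f d x c ‖P c x‖ := by
    intro x c h
    rw [hF]
    split_ifs with h1
    · have h0 : P c x ≠ 0 := by
        intro h2
        rw [h2, norm_zero] at h
        linarith
      rw [exF_ne hP f d h0, f2 _ _ h1, hC]
      have h3 : gth θ (nrm hP x c h0).1.2 = gth θ (P c x) := by
        have h4 : ‖(nrm hP x c h0).1.2‖ = 1 := (nrm hP x c h0).2.2
        rw [gth_large hθ (by rw [h4]; linarith), h4, gth_large hθ h, div_one]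
        show θ • (‖P c x‖⁻¹ • P c x) = _
        rw [smul_smul, div_eq_mul_inv]
      rw [h3]
      rfl
    · rfl
  -- values for large norm
  have hlar : ∀ x c t, P c x = x → 1 / 4 < ‖x‖ → ∀ h0 : P c x ≠ 0,
      F x (shift t c) = f (flo hP t (nrm hP x c h0)) ‖x‖ := by
    intro x c t hx h1 h0
    have h2 : P (shift t c) x = x := by rw [hP.inv]; exact hx
    have h3 : P (shift t c) x ≠ 0 := by rw [h2, ← hx]; exact h0
    rw [hag x (shift t c) (by rw [h2]; linarith), exF_ne hP f d h3, h2]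
    congr 1
    apply Subtype.ext
    show ((shift t c, ‖P (shift t c) x‖⁻¹ • P (shift t c) x) : Gs M × V) = (shift t c, ‖P c x‖⁻¹ • P c x)
    rw [hP.inv]
  have hflo0 : ∀ v, flo hP 0 v = v := (circAct_flo hB hP).zero
  have hlar0 : ∀ x c, P c x = x → 1 / 4 < ‖x‖ → ∀ h0 : P c x ≠ 0, F x c = f (nrm hP x c h0) ‖x‖ := by
    intro x c hx h1 h0
    have h2 := hlar x c 0 hx h1 h0
    rw [hflo0, (circAct_shift 𝒜 hB).zero] at h2
    exact h2
  have hbig : ∀ v s, 3 / 4 ≤ s → f v s = f v 1 := by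
    intro v s hs
    have h3 := f3 v 0 s hs
    rw [hflo0] at h3
    exact h3
  have hne : ∀ x c, P c x = x → 1 / 4 < ‖x‖ → P c x ≠ 0 := by
    intro x c hx h1 h0
    rw [hx] at h0
    rw [h0, norm_zero] at h1
    linarith
  refine ⟨F, ?_, ?_, ⟨θ / 2, by positivity, ?_⟩, ?_, ?_, ?_⟩
  · -- smoothness
    intro E _ _ σ x u hσ hx
    have hPx : ContDiffAt ℝ ∞ (fun v => P (σ v) (x v)) u := (hP.smooth E σ u hσ).clm_apply hx
    rcases lt_or_ge ‖P (σ u) (x u)‖ (1 / 4) with h | h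
    · refine (hCg E σ (fun v => P (σ v) (x v)) u hσ hPx).congr ?_
      have h1 : ∀ᶠ v in 𝓝 u, ‖P (σ v) (x v)‖ < 1 / 4 := hPx.continuousAt.norm.eventually (gt_mem_nhds h)
      filter_upwards [h1] with v hv
      rw [hF, if_pos hv.le]
    · have h0 : P (σ u) (x u) ≠ 0 := by
        intro h2
        rw [h2, norm_zero] at h
        linarith
      refine (exF_smooth hB hP f1 d hσ hx (hPx.norm ℝ h0) h0).congr ?_
      have h1 : ∀ᶠ v in 𝓝 u, θ < ‖P (σ v) (x v)‖ :=
        hPx.continuousAt.norm.eventually (lt_mem_nhds (show θ < ‖P (σ u) (x u)‖ by linarith))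
      filter_upwards [h1] with v hv
      exact hag _ _ hv.le
  · -- dependence on the projection
    intro x c
    rw [hF, hF, hP.idem]
    split_ifs with h
    · rfl
    · have h0 : P c x ≠ 0 := by
        intro h2
        rw [h2, norm_zero] at h
        exact h (by norm_num)
      have h1 : P c (P c x) ≠ 0 := by rw [hP.idem]; exact h0
      rw [exF_ne hP f d h0, exF_ne hP f d h1]
      congr 1
      apply Subtype.ext
      show ((c, ‖P c (P c x)‖⁻¹ • P c (P c x)) : Gs M × V) = (c, ‖P c x‖⁻¹ • P c x)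
      rw [hP.idem]
  · -- small vectors
    intro x c hx hs
    rw [hF, hx, if_pos (by linarith), gth_small hθ hs]
  · -- radial
    intro x c hx h1
    have hx0 : (0 : ℝ) < ‖x‖ := by linarith
    have hy : P c (‖x‖⁻¹ • x) = ‖x‖⁻¹ • x := by rw [map_smul, hx]
    have hyn : ‖‖x‖⁻¹ • x‖ = 1 := by rw [norm_smul, norm_inv, norm_norm, inv_mul_cancel₀ hx0.ne']
    rw [hlar0 x c hx (by linarith) (hne x c hx (by linarith)),
      hlar0 _ c hy (by rw [hyn]; norm_num) (hne _ c hy (by rw [hyn]; norm_num)), hbig _ ‖x‖ (by linarith),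
      hbig _ ‖‖x‖⁻¹ • x‖ (by rw [hyn]; norm_num)]
    congr 1
    apply Subtype.ext
    show ((c, ‖P c x‖⁻¹ • P c x) : Gs M × V) = (c, ‖P c (‖x‖⁻¹ • x)‖⁻¹ • P c (‖x‖⁻¹ • x))
    rw [hy, hx, hyn, inv_one, one_smul]
  · -- invariance
    intro x c t hx h1
    have hx0 := hne x c hx (by linarith)
    rw [hlar x c t hx (by linarith) hx0, hlar0 x c hx (by linarith) hx0, f3 _ t _ (by linarith)]
    have h3 := f3 (nrm hP x c hx0) 0 ‖x‖ (by linarith)
    rw [hflo0] at h3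
    exact h3.symm
  · -- short loops
    intro x c hx hx0 s s'
    have hxp : 0 < ‖x‖ := norm_pos_iff.2 hx0
    rcases le_or_gt ‖x‖ (1 / 4) with h | h
    · have hPs : ∀ t, P (shift t c) x = x := fun t => by rw [hP.inv]; exact hx
      have hFs : ∀ t, F x (shift t c) = Co (gth θ x) (shift t c) := by
        intro t
        rw [hF, hPs, if_pos h]
      obtain ⟨lam', m0, m1, hm⟩ := hL ‖gth θ x‖ (norm_gth_pos hθ hx0) ((norm_gth_le hθ x).trans_lt hθR)
      have h2 : P c (gth θ x) = gth θ x := by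
        unfold gth
        rw [map_smul, hx]
      have h3 := hm c _ h2 rfl
      rw [hFs, hFs]
      refine (lip_per m0 h3 (fun t => ?_) s s').trans_lt (by nlinarith)
      simp only [gs_shift_per 𝒜 hB]
    · have h0 := hne x c hx h
      rw [hlar x c s hx h h0, hlar x c s' hx h h0]
      have d1 := f4 (flo hP s (nrm hP x c h0)) ‖x‖
      have d2 := f4 (flo hP s' (nrm hP x c h0)) ‖x‖
      have h3 : CO.Lip lam (fun t => H (⟨thet ‖x‖, thet_mem ‖x‖⟩, flo hP t (nrm hP x c h0))) :=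
        H.prop ⟨thet ‖x‖, thet_mem ‖x‖⟩ (nrm hP x c h0)
      have h4 := lip_per l0 h3 (fun t => by simp only [phi_per (circAct_flo hB hP)]) s s'
      have h5 := dist_triangle4 (f (flo hP s (nrm hP x c h0)) ‖x‖)
        (H (⟨thet ‖x‖, thet_mem ‖x‖⟩, flo hP s (nrm hP x c h0)))
        (H (⟨thet ‖x‖, thet_mem ‖x‖⟩, flo hP s' (nrm hP x c h0))) (f (flo hP s' (nrm hP x c h0)) ‖x‖)
      have d3 : dist (H (⟨thet ‖x‖, thet_mem ‖x‖⟩, flo hP s' (nrm hP x c h0))) (f (flo hP s' (nrm hP x c h0)) ‖x‖) <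
          (1 - lam) * π / 4 := by
        rw [dist_comm]
        exact d2
      have d4 : dist (f (flo hP s (nrm hP x c h0)) ‖x‖) (H (⟨thet ‖x‖, thet_mem ‖x‖⟩, flo hP s (nrm hP x c h0))) <
          (1 - lam) * π / 4 := d1
      nlinarith

end main

end Pool.Agent.Lib.MP_ccbbf6_gt.L5.ZC
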