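import Pool.Agent.Lib.MP_ccbbf6_gt.L5.NS3
import Pool.Agent.Lib.MP_ccbbf6_gt.L5.ZC4

/-!
# ZC: the smooth filling over the negative bundle (Level 5, block ZC) (helper95; statement helper93 / helper2)
-/

set_option autoImplicit false
set_option linter.unusedSectionVars false

open Set Filter Topology Metric Real Module
open scoped ContDiff RealInnerProductSpace

noncomputable section

namespace Pool.Agent.Lib.MP_ccbbf6_gt.L5.NEG

open Geo L4 L4.ORI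

variable {n : ℕ} {M : Type*} [MetricSpace M] [CompactSpace M] {𝒜 : SDist n M}

theorem NegData.pb {hB : Bl M} {κ N : ℕ} {C : Eu N → Gs M → M} {P : Gs M → Eu N →L[ℝ] Eu N}
    (hN : NegData 𝒜 κ hB C P) : ZC.PB 𝒜 P where
  idem := hN.idem
  inv := hN.inv
  smooth := fun _ _ _ _ _ hσ => hN.smooth hσ

/-- the map on the total space, strong form: smooth along all smooth families, `θ = 1` -/
theorem exists_fillS [Nonempty (Gs M)] (hB : Bl M) (e : Emb n 𝒜) {κ N : ℕ} {C : Eu N → Gs M → M} {P : Gs M → Eu N →L[ℝ] Eu N}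
    (hN : NegData 𝒜 κ hB C P) : ∃ F : Eu N → Gs M → M,
      (∀ (E : Type) [NormedAddCommGroup E] [NormedSpace ℝ E] (σ : E → Gs M) (x : E → Eu N) (u : E), SmGAt 𝒜 σ u →
        ContDiffAt ℝ ∞ x u → SmAt 𝒜 (fun v => F (x v) (σ v)) u) ∧
      (∀ x c, F (P c x) c = F x c) ∧
      (∃ ρ, 0 < ρ ∧ ∀ x c, P c x = x → ‖x‖ ≤ ρ → F x c = Cx 𝒜 C x c) ∧
      (∀ x c, P c x = x → 1 ≤ ‖x‖ → F x c = F (‖x‖⁻¹ • x) c) ∧
      (∀ x c t, P c x = x → 1 ≤ ‖x‖ → F x (shift t c) = F x c) ∧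
      (∀ x c, P c x = x → x ≠ 0 → ∀ s s', dist (F x (shift s c)) (F x (shift s' c)) < π) := by
  have hπ := Real.pi_pos
  obtain ⟨δ, hδ, hpos⟩ := hN.pos
  obtain ⟨θ₀, hθ₀, hlip⟩ := hN.fam.lip_Cx hB e (ε := δ / (2 * π)) (by positivity)
  refine ZC.exists_total hB hN.pb (Co := fun x c => Cx 𝒜 C x c) hθ₀
    (fun E _ _ σ x u hσ hx _ => hN.fam.smooth_Cx hB e hσ hx) fun θ hθ hθ1 => ?_
  have h1 : 1 - θ ^ 2 * (δ / (2 * π)) < 1 := by
    have : 0 < θ ^ 2 * (δ / (2 * π)) := by positivity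
    linarith
  refine ⟨√(1 - θ ^ 2 * (δ / (2 * π))), Real.sqrt_nonneg _, ?_, fun c x hx hxn => ?_⟩
  · rw [Real.sqrt_lt' one_pos, one_pow]
    exact h1
  · have hxi : ‖θ⁻¹ • x‖ = 1 := by
      rw [norm_smul, norm_inv, Real.norm_eq_abs, abs_of_pos hθ, hxn, inv_mul_cancel₀ hθ.ne']
    have hxP : P c (θ⁻¹ • x) = θ⁻¹ • x := by rw [map_smul, hx]
    have h2 := hlip θ (by rw [abs_of_pos hθ]; exact hθ1) c (θ⁻¹ • x) hxi.le
    have h3 := hpos c (θ⁻¹ • x) hxP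
    rw [hxi, one_pow, mul_one] at h3
    have h4 : θ • θ⁻¹ • x = x := by rw [smul_smul, mul_inv_cancel₀ hθ.ne', one_smul]
    rw [h4] at h2
    intro s t
    refine (h2 s t).trans (mul_le_mul_of_nonneg_right (Real.sqrt_le_sqrt ?_) (abs_nonneg _))
    have h5 : π⁻¹ * δ ≤ π⁻¹ * QB 𝒜 C c (θ⁻¹ • x) (θ⁻¹ • x) := mul_le_mul_of_nonneg_left h3 (by positivity)
    have h6 : θ ^ 2 * (π⁻¹ * δ) ≤ θ ^ 2 * (π⁻¹ * QB 𝒜 C c (θ⁻¹ • x) (θ⁻¹ • x)) :=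
      mul_le_mul_of_nonneg_left h5 (by positivity)
    have h7 : θ ^ 2 * (π⁻¹ * δ) = 2 * (θ ^ 2 * (δ / (2 * π))) := by
      field_simp
    rw [h7] at h6
    have h8 : δ / (2 * π) * θ ^ 2 = θ ^ 2 * (δ / (2 * π)) := mul_comm _ _
    rw [h8]
    linarith

theorem exists_fillP [Nonempty (Gs M)] (hB : Bl M) (e : Emb n 𝒜) {κ N : ℕ} {C : Eu N → Gs M → M} {P : Gs M → Eu N →L[ℝ] Eu N}
    (hN : NegData 𝒜 κ hB C P) : ∃ f : Gs M → Eu N → M, FillP 𝒜 C P f := by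
  obtain ⟨F, f1, -, ⟨ρ, hρ, f3⟩, f4, f5, f6⟩ := exists_fillS hB e hN
  refine ⟨fun c x => F x c, ?_, ?_, ?_, ?_, ?_⟩
  · intro F' _ _ σ x hσ hx _ u
    exact f1 F' σ x u (hσ.atP u) hx.contDiffAt
  · refine ⟨1, ρ, one_pos, hρ, fun c x hx h => ?_⟩
    rw [one_smul]
    exact f3 x c hx h
  · exact fun c x hx h => f4 x c hx h
  · exact fun c x t hx h => f5 x c t hx h
  · exact fun c x hx h0 a b => f6 x c hx h0 a b

end Pool.Agent.Lib.MP_ccbbf6_gt.L5.NEG
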