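import Pool.Agent.Lib.MP_ccbbf6_gt.L5.INTh
import Pool.Agent.Lib.MP_ccbbf6_gt.L5.PHI02

/-!
# Level 5, COH1: `h_m (u1, u2)` is exact on `FM`, the form `σ` with `d σ = foot^* u^m` (helper67)

`CohD N κ m M G F`: `G = UM → M` (sphere bundle `bM`, fibres `S^N`), `G → F = FM` (sphere bundle `bV`, fibres `S^κ`, κ odd), `fR : G × R → M` the exponential flow, `u` a closed form of degree `κ + 1` on `M` with
`∫_(S^κ) ψ_u = 1`, `ψ_u = b0 fR u`; `eps = ∫_(U_pM) ψ_u u2^(m-1) ≠ 0`. Notation: `D.x = foot^*u = wt fR u 0`, `D.y = wt fR u 1`, `D.psi = b0 fR u`, `D.H a b = Σ a^j b^(m-j)`.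

PROOFS.
(1) N_odd: N + 1 = (κ+1) m, κ+1 even. su: `Deg_even`-type with κ + 1 = 2(t+1) (`Deg_s` and `(-1)^(even) = 1`). un: u^(m+1) has degree (κ+1)(m+1) > N+1: `big`, `Deg_pow`.
    Deg_psi: `Deg_K (Deg_pull _ Du)`. s_psi: `s_b0_ev`. d_psi: `d_b0_ev`. x_F: `g.pull (p1.pull θ) = foot.pull θ`: `pull_comp`, `SMap_ext hp1`.
(2) PI_V g^*: `bV.pi = g` (SMap_ext hbV), `PI_mulr`: PI_V (ζ * g^*a) = PI_V ζ * a; in particular PI_V (psi * g^*a) = a (V1).
(3) exists_xi: `d_z0_ev` with u: dO (z0 fR u m) = psi * Σ x^j y^(m-j) = psi * g^*(Σ (p1^*u)^j (p2^*u)^(m-j)); apply bV.PI: left: `PI_d`: dO (PI ζ) = (-1)^κ PI (dO ζ) = -PI (dO ζ); right: (2). ξ := -PI_V (z0 ..).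
    Degree: z0 = KO (bh * HH): degree κ + (κ+1) m - 1 = N + κ .. : bh has degree κ, HH degree (κ+1) m, KO lowers by 1: κ + (κ+1) m - 1 = κ + N; PI_V lowers by κ (`Deg_PI` with j = N). (Deg_sum, Deg_mul, Deg_pow, Deg_K.)
(4) Q: `Qo a b = Σ_(j ≤ m) a^j Σ_(i < m-j) b^i a^(m-j-1-i)`; `(b - a) * Qo a b = H a b - (m+1) a^m` for commuting a, b: as `Qm_spec` in L4/Cmp.lean with `Commute.geom_sum₂_mul` (all terms are even forms, `even_comm'`).
(5) sig := (1/(m+1)) • (g^*ξ - psi * Qo x y). d: d(g^*ξ) = H x y (x = g^*p1^*u, y = g^*p2^*u), d(psi * Q) = (y - x) * Q + (-1) .. psi * dQ, dQ = 0 (sums of products of closed even forms); = (1/(m+1)) (H - (H - (m+1) x^m)) = x^m.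
(6) PI_sig: PI_M (g^*ξ) = 0 (`kill`); PI_M (psi * x^a * y^i) = PI_M (psi * y^i) * u^a (commute, `PI_mulr`, bM.pi^*u = x by hbM); degree of psi * y^i = κ + (κ+1) i < N for i < m - 1 (`PI_low`); in Qo the terms with i = m - 1
    occur only for j = 0: coefficient 1; so PI_M (psi * Qo) = eps.
-/

set_option autoImplicit false
set_option maxSynthPendingDepth 3

open Set Filter Topology

open scoped ContDiff

noncomputable section

namespace Pool.Agent.Lib.MP_ccbbf6_gt.L5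

open L4 L4.FR

/-- the data of the cohomology computation -/
structure CohD (N κ m : ℕ) (M G F : Space) where
  /-- the exponential flow -/
  fR : SMap G.xR M
  /-- end points -/
  g : SMap G F
  /-- first point -/
  p1 : SMap F M
  /-- second point -/
  p2 : SMap F M
  hp1 : ∀ c, p1.1 (g.1 c) = fR.1 (c, 0)
  hp2 : ∀ c, p2.1 (g.1 c) = fR.1 (c, 1)
  /-- `UM → M` -/
  bM : SBun N G M
  hbM : ∀ c, bM.pi.1 c = fR.1 (c, 0)
  /-- `UM → FM` -/
  bV : SBun κ G F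
  hbV : ∀ c, bV.pi.1 c = g.1 c
  kill : ∀ θ : Om F, bM.PI (g.pull θ) = 0
  /-- the generator -/
  u : Om M
  du : dO M u = 0
  Du : Deg (κ + 1) u
  odd : ∃ t, κ = 2 * t + 1
  dim : N + 1 = (κ + 1) * m
  two : 2 ≤ m
  big : ∀ {j : ℕ} {θ : Om M}, Deg j θ → N + 1 < j → θ = 0
  V1 : bV.PI (b0 fR u) = 1
  cM : ∀ θ : Om M, Deg 0 θ → dO M θ = 0 → ∃ c : ℝ, θ = algebraMap ℝ (Om M) c
  cF : ∀ θ : Om F, Deg 0 θ → dO F θ = 0 → ∃ c : ℝ, θ = algebraMap ℝ (Om F) c
  /-- `∫ ψ u^(m-1)` -/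
  eps : ℝ
  heps : bM.PI (b0 fR u * wt fR u 1 ^ (m - 1)) = algebraMap ℝ (Om M) eps
  eps0 : eps ≠ 0

namespace CohD

variable {N κ m : ℕ} {M G F : Space} (D : CohD N κ m M G F)

/-- the foot point -/
def foot : SMap G M := D.fR.comp (jO G 0)

/-- the end point -/
def top : SMap G M := D.fR.comp (jO G 1)

/-- `foot^* u` -/
def x : Om G := wt D.fR D.u 0

/-- `top^* u` -/
def y : Om G := wt D.fR D.u 1

/-- the angular form -/
def psi : Om G := b0 D.fR D.u

/-- `h_m` -/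
def H {X : Space} (m : ℕ) (a b : Om X) : Om X := ∑ j ∈ Finset.range (m + 1), a ^ j * b ^ (m - j)

/-- `Q` -/
def Q {X : Space} (m : ℕ) (a b : Om X) : Om X :=
  ∑ j ∈ Finset.range (m + 1), a ^ j * ∑ i ∈ Finset.range (m - j), b ^ i * a ^ (m - j - 1 - i)

include D in
theorem N_odd : ∃ t, N = 2 * t + 1 := by
  obtain ⟨t, ht⟩ := D.odd
  have h1 := D.dim
  have h2 := D.two
  have h3 : N + 1 = 2 * ((t + 1) * m) := by rw [h1, ht]; ring
  have h4 : 0 < (t + 1) * m := Nat.mul_pos (Nat.succ_pos t) (by omega)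
  exact ⟨(t + 1) * m - 1, by omega⟩

theorem su : sO M D.u = D.u := by
  obtain ⟨t, ht⟩ := D.odd
  have h := D.Du
  have h1 : κ + 1 = 2 * (t + 1) := by omega
  rw [h1] at h
  exact Deg_even h

theorem un : D.u ^ (m + 1) = 0 := by
  refine D.big (Deg_pow D.Du (m + 1)) ?_
  rw [D.dim]
  exact Nat.mul_lt_mul_of_pos_left (Nat.lt_succ_self m) (Nat.succ_pos κ)

theorem Deg_psi : Deg κ D.psi := by
  exact Deg_K (Deg_pull _ D.Du)

theorem s_psi : sO G D.psi = -D.psi := by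
  exact s_b0_ev D.fR D.su

theorem d_psi : dO G D.psi = D.y - D.x := by
  exact d_b0_ev D.fR D.du

theorem sx : sO G D.x = D.x := by
  exact s_wt_ev D.fR D.su 0

theorem sy : sO G D.y = D.y := by
  exact s_wt_ev D.fR D.su 1

theorem dx : dO G D.x = 0 := by
  unfold x wt
  rw [pull_d, pull_d, D.du, map_zero, map_zero]

theorem dy : dO G D.y = 0 := by
  unfold y wt
  rw [pull_d, pull_d, D.du, map_zero, map_zero]

theorem Deg_x : Deg (κ + 1) D.x := by
  exact Deg_pull _ (Deg_pull _ D.Du)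

theorem Deg_y : Deg (κ + 1) D.y := by
  exact Deg_pull _ (Deg_pull _ D.Du)

theorem g_p1 (θ : Om M) : D.g.pull (D.p1.pull θ) = D.foot.pull θ := by
  have e : D.p1.comp D.g = D.foot := SMap_ext D.hp1
  rw [← pull_comp, e]

theorem g_p2 (θ : Om M) : D.g.pull (D.p2.pull θ) = D.top.pull θ := by
  have e : D.p2.comp D.g = D.top := SMap_ext D.hp2
  rw [← pull_comp, e]

theorem pi_M (θ : Om M) : D.bM.pi.pull θ = D.foot.pull θ := by
  have e : D.bM.pi = D.foot := SMap_ext D.hbM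
  rw [e]

theorem pi_V (θ : Om F) : D.bV.pi.pull θ = D.g.pull θ := by
  have e : D.bV.pi = D.g := SMap_ext D.hbV
  rw [e]

theorem x_def : D.x = D.foot.pull D.u := rfl

theorem y_def : D.y = D.top.pull D.u := rfl

/-- the fibre integral `UM → M` -/
theorem PIM_mul (θ : Om G) (a : Om M) : D.bM.PI (θ * D.foot.pull a) = D.bM.PI θ * a := by
  rw [← D.pi_M, D.bM.PI_mulr]

theorem PIM_foot (a : Om M) : D.bM.PI (D.foot.pull a) = 0 := by
  rw [← D.g_p1]
  exact D.kill _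

theorem PIM_d (θ : Om G) : dO M (D.bM.PI θ) = -D.bM.PI (dO G θ) := by
  obtain ⟨t, ht⟩ := D.N_odd
  have h := D.bM.PI_d θ
  have h1 : (-1 : ℝ) ^ N = -1 := by rw [ht, pow_succ, pow_mul, neg_one_sq, one_pow, one_mul]
  rw [h1, neg_one_smul] at h
  exact h

theorem PIV_mul (θ : Om G) (a : Om F) : D.bV.PI (θ * D.g.pull a) = D.bV.PI θ * a := by
  rw [← D.pi_V, D.bV.PI_mulr]

theorem PIV_psi (a : Om F) : D.bV.PI (D.psi * D.g.pull a) = a := by
  rw [D.PIV_mul]
  unfold psi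
  rw [D.V1, one_mul]

theorem PIV_g (a : Om F) : D.bV.PI (D.g.pull a) = 0 := by
  have h := D.PIV_mul 1 a
  rw [one_mul] at h
  have h1 : D.bV.PI (1 : Om G) = 0 := by
    refine D.bV.PI_low (j := 0) Deg_one ?_
    obtain ⟨t, ht⟩ := D.odd
    omega
  rw [h, h1, zero_mul]

theorem PIV_d (θ : Om G) : dO F (D.bV.PI θ) = -D.bV.PI (dO G θ) := by
  obtain ⟨t, ht⟩ := D.odd
  have h := D.bV.PI_d θ
  have h1 : (-1 : ℝ) ^ κ = -1 := by rw [ht, pow_succ, pow_mul, neg_one_sq, one_pow, one_mul]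
  rw [h1, neg_one_smul] at h
  exact h

private theorem COH1b_Deg_sum {X : Space} {j : ℕ} {ι : Type*} (s : Finset ι) (f : ι → Om X)
    (h : ∀ i ∈ s, Deg j (f i)) : Deg j (∑ i ∈ s, f i) := by
  classical
  induction s using Finset.induction_on with
  | empty =>
    rw [Finset.sum_empty]
    exact Deg_zero
  | insert a s ha ih =>
    rw [Finset.sum_insert ha]
    exact Deg_add (h a (Finset.mem_insert_self a s)) (ih fun i hi => h i (Finset.mem_insert_of_mem hi))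

private theorem COH1b_pull_H : D.g.pull (H m (D.p1.pull D.u) (D.p2.pull D.u)) = H m D.x D.y := by
  unfold H
  rw [map_sum]
  refine Finset.sum_congr rfl fun j _ => ?_
  rw [map_mul, map_pow, map_pow, D.g_p1, D.g_p2, ← D.x_def, ← D.y_def]

private theorem COH1b_Deg_HH : Deg ((κ + 1) * m) (HH D.fR D.u m) := by
  unfold HH
  refine COH1b_Deg_sum _ _ fun j hj => ?_
  have h1 := Finset.mem_range.1 hj
  have h2 : Deg ((κ + 1) * j + (κ + 1) * (m - j)) ((pO G).pull (wt D.fR D.u 0) ^ j * D.fR.pull D.u ^ (m - j)) :=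
    Deg_mul (Deg_pow (Deg_pull _ (Deg_pull _ (Deg_pull _ D.Du))) j) (Deg_pow (Deg_pull _ D.Du) _)
  have h3 : (κ + 1) * j + (κ + 1) * (m - j) = (κ + 1) * m := by
    rw [← mul_add]
    congr 1
    omega
  rw [h3] at h2
  exact h2

private theorem COH1b_Deg_z0 : Deg (N + κ) (z0 D.fR D.u m) := by
  have h1 : Deg κ (bh D.fR D.u) := Deg_K (Deg_pull _ (Deg_pull _ D.Du))
  have h2 : Deg (κ + (κ + 1) * m) (TH D.fR D.u m) := Deg_mul h1 D.COH1b_Deg_HH
  have h3 : κ + (κ + 1) * m = N + κ + 1 := by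
    rw [← D.dim]
    omega
  rw [h3] at h2
  exact Deg_K h2

/-- **(H1)** -/
theorem exists_xi : ∃ ξ : Om F, Deg N ξ ∧ dO F ξ = H m (D.p1.pull D.u) (D.p2.pull D.u) := by
  have h1 : dO G (z0 D.fR D.u m) = D.psi * D.g.pull (H m (D.p1.pull D.u) (D.p2.pull D.u)) := by
    rw [d_z0_ev D.fR D.su D.du D.un, D.COH1b_pull_H]
    rfl
  refine ⟨-D.bV.PI (z0 D.fR D.u m), Deg_neg (D.bV.Deg_PI D.COH1b_Deg_z0), ?_⟩
  rw [map_neg, D.PIV_d, neg_neg, h1, D.PIV_psi]

theorem Q_spec {X : Space} {a b : Om X} (ha : sO X a = a) (hb : sO X b = b) :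
    (b - a) * Q m a b = H m a b - (m + 1 : ℝ) • a ^ m := by
  have hc : Commute b a := even_comm' hb a
  have hba : ∀ z : Om X, (b - a) * z = z * (b - a) := fun z => by
    refine even_comm' ?_ z
    rw [map_sub, ha, hb]
  have h : ∀ j ∈ Finset.range (m + 1), (b - a) * (a ^ j * ∑ i ∈ Finset.range (m - j), b ^ i * a ^ (m - j - 1 - i)) =
      a ^ j * b ^ (m - j) - a ^ m := by
    intro j hj
    have h1 := Commute.geom_sum₂_mul hc (m - j)
    have h2 : a ^ j * a ^ (m - j) = a ^ m := by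
      rw [← pow_add]
      congr 1
      have := Finset.mem_range.1 hj
      omega
    rw [hba, mul_assoc, h1, mul_sub, h2]
  unfold Q H
  rw [Finset.mul_sum, Finset.sum_congr rfl h, Finset.sum_sub_distrib, Finset.sum_const, Finset.card_range]
  congr 1
  rw [← Nat.cast_smul_eq_nsmul ℝ, Nat.cast_add, Nat.cast_one]

theorem d_Q {X : Space} {a b : Om X} (ha : dO X a = 0) (hb : dO X b = 0) : dO X (Q m a b) = 0 := by
  have hmul : ∀ {z w : Om X}, dO X z = 0 → dO X w = 0 → dO X (z * w) = 0 := fun {z w} hz hw => by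
    rw [d_mul, hz, hw, zero_mul, mul_zero, add_zero]
  unfold Q
  rw [map_sum]
  refine Finset.sum_eq_zero fun j _ => hmul (d_pow_zero ha j) ?_
  rw [map_sum]
  exact Finset.sum_eq_zero fun i _ => hmul (d_pow_zero hb i) (d_pow_zero ha _)

theorem PIM_psi_low {i : ℕ} (hi : i + 1 < m) : D.bM.PI (D.psi * D.y ^ i) = 0 := by
  have h1 : Deg (κ + (κ + 1) * i) (D.psi * D.y ^ i) := Deg_mul D.Deg_psi (Deg_pow D.Deg_y i)
  refine D.bM.PI_low h1 ?_
  have h2 : (κ + 1) * (i + 2) ≤ (κ + 1) * m := Nat.mul_le_mul_left _ (by omega)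
  rw [← D.dim] at h2
  have h3 : (κ + 1) * (i + 2) = (κ + 1) * i + (κ + 1) + (κ + 1) := by ring
  omega

private def COH1c_L : Om G →+ Om M := AddMonoidHom.mk' D.bM.PI D.bM.PI_add

private theorem COH1c_L_apply (θ : Om G) : D.COH1c_L θ = D.bM.PI θ := rfl

private theorem COH1c_term {j i : ℕ} (hi : i < m - j) :
    D.bM.PI (D.psi * (D.x ^ j * (D.y ^ i * D.x ^ (m - j - 1 - i)))) =
      if i + 1 = m then algebraMap ℝ (Om M) D.eps else 0 := by
  have hx : ∀ e : ℕ, sO G (D.x ^ e) = D.x ^ e := fun e => by rw [map_pow, D.sx]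
  have h1 : D.x ^ j * (D.y ^ i * D.x ^ (m - j - 1 - i)) = D.y ^ i * D.foot.pull (D.u ^ (m - 1 - i)) := by
    rw [map_pow, ← D.x_def, ← mul_assoc, even_comm' (hx j) (D.y ^ i), mul_assoc, ← pow_add]
    have e : j + (m - j - 1 - i) = m - 1 - i := by omega
    rw [e]
  rw [h1, ← mul_assoc, D.PIM_mul]
  by_cases h : i + 1 = m
  · rw [if_pos h]
    have e1 : i = m - 1 := by omega
    have e2 : m - 1 - i = 0 := by omega
    rw [e2, pow_zero, mul_one, e1]
    exact D.heps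
  · rw [if_neg h, D.PIM_psi_low (by omega), zero_mul]

theorem PIM_psi_Q : D.bM.PI (D.psi * Q m D.x D.y) = algebraMap ℝ (Om M) D.eps := by
  have hm := D.two
  unfold Q
  rw [← D.COH1c_L_apply, Finset.mul_sum, map_sum]
  have h1 : ∀ j ∈ Finset.range (m + 1), D.COH1c_L (D.psi * (D.x ^ j *
      ∑ i ∈ Finset.range (m - j), D.y ^ i * D.x ^ (m - j - 1 - i))) =
      ∑ i ∈ Finset.range (m - j), if i + 1 = m then algebraMap ℝ (Om M) D.eps else 0 := by
    intro j _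
    rw [Finset.mul_sum, Finset.mul_sum, map_sum]
    refine Finset.sum_congr rfl fun i hi => ?_
    rw [D.COH1c_L_apply]
    exact D.COH1c_term (Finset.mem_range.1 hi)
  rw [Finset.sum_congr rfl h1, Finset.sum_eq_single 0]
  · rw [Finset.sum_eq_single (m - 1)]
    · rw [if_pos (by omega)]
    · intro i _ hi
      rw [if_neg (by omega)]
    · intro h
      exact absurd (Finset.mem_range.2 (by omega)) h
  · intro j _ hj
    refine Finset.sum_eq_zero fun i hi => ?_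
    have h2 := Finset.mem_range.1 hi
    rw [if_neg (by omega)]
  · intro h
    exact absurd (Finset.mem_range.2 (by omega)) h

private theorem COH1c_Deg_sum {X : Space} {j : ℕ} {ι : Type*} (s : Finset ι) (f : ι → Om X)
    (h : ∀ i ∈ s, Deg j (f i)) : Deg j (∑ i ∈ s, f i) := by
  classical
  induction s using Finset.induction_on with
  | empty =>
    rw [Finset.sum_empty]
    exact Deg_zero
  | insert a s ha ih =>
    rw [Finset.sum_insert ha]
    exact Deg_add (h a (Finset.mem_insert_self a s)) (ih fun i hi => h i (Finset.mem_insert_of_mem hi))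

private theorem COH1c_Deg_Q : Deg ((κ + 1) * (m - 1)) (Q m D.x D.y) := by
  unfold Q
  refine COH1c_Deg_sum _ _ fun j _ => ?_
  rw [Finset.mul_sum]
  refine COH1c_Deg_sum _ _ fun i hi => ?_
  have h1 := Finset.mem_range.1 hi
  have h2 : Deg ((κ + 1) * j + ((κ + 1) * i + (κ + 1) * (m - j - 1 - i)))
      (D.x ^ j * (D.y ^ i * D.x ^ (m - j - 1 - i))) :=
    Deg_mul (Deg_pow D.Deg_x j) (Deg_mul (Deg_pow D.Deg_y i) (Deg_pow D.Deg_x _))
  have h3 : (κ + 1) * j + ((κ + 1) * i + (κ + 1) * (m - j - 1 - i)) = (κ + 1) * (m - 1) := by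
    rw [← mul_add, ← mul_add]
    congr 1
    omega
  rw [h3] at h2
  exact h2

private theorem COH1c_pull_H : D.g.pull (H m (D.p1.pull D.u) (D.p2.pull D.u)) = H m D.x D.y := by
  unfold H
  rw [map_sum]
  refine Finset.sum_congr rfl fun j _ => ?_
  rw [map_mul, map_pow, map_pow, D.g_p1, D.g_p2, ← D.x_def, ← D.y_def]

/-- **(S)** -/
theorem exists_sig : ∃ (σ : Om G) (ξ : Om F), Deg N σ ∧ Deg N ξ ∧ dO F ξ = H m (D.p1.pull D.u) (D.p2.pull D.u) ∧
    (m + 1 : ℝ) • σ = D.g.pull ξ - D.psi * Q m D.x D.y ∧ dO G σ = D.x ^ m ∧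
    D.bM.PI σ = algebraMap ℝ (Om M) (-(D.eps / (m + 1))) := by
  obtain ⟨ξ, hξ, hdξ⟩ := D.exists_xi
  have hm : (m + 1 : ℝ) ≠ 0 := by positivity
  refine ⟨(1 / (m + 1 : ℝ)) • (D.g.pull ξ - D.psi * Q m D.x D.y), ξ, ?_, hξ, hdξ, ?_, ?_, ?_⟩
  · refine Deg_smul _ (Deg_sub (Deg_pull _ hξ) ?_)
    have h1 : Deg (κ + (κ + 1) * (m - 1)) (D.psi * Q m D.x D.y) := Deg_mul D.Deg_psi D.COH1c_Deg_Q
    have h2 : κ + (κ + 1) * (m - 1) = N := by
      have h3 := D.dim
      have h4 := D.two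
      obtain ⟨m', rfl⟩ : ∃ m', m = m' + 1 := ⟨m - 1, by omega⟩
      rw [Nat.add_sub_cancel]
      have h5 : (κ + 1) * (m' + 1) = (κ + 1) * m' + (κ + 1) := by ring
      omega
    rw [h2] at h1
    exact h1
  · rw [smul_smul, mul_one_div_cancel hm, one_smul]
  · have h1 : dO G (D.psi * Q m D.x D.y) = H m D.x D.y - (m + 1 : ℝ) • D.x ^ m := by
      rw [d_mul, d_Q D.dx D.dy, mul_zero, add_zero, D.d_psi, Q_spec D.sx D.sy]
    rw [map_smul, map_sub, pull_d, hdξ, D.COH1c_pull_H, h1, sub_sub_cancel, smul_smul, one_div_mul_cancel hm, one_smul]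
  · rw [D.bM.PI_smul, ← D.COH1c_L_apply, map_sub, D.COH1c_L_apply, D.COH1c_L_apply, D.kill, D.PIM_psi_Q, zero_sub,
      map_neg, smul_neg, Algebra.algebraMap_eq_smul_one, Algebra.algebraMap_eq_smul_one, smul_smul]
    congr 2
    ring

end CohD

end Pool.Agent.Lib.MP_ccbbf6_gt.L5
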