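import Pool.Agent.Lib.MP_ccbbf6_gt.L4.ConG
import Pool.Agent.Lib.MP_ccbbf6_gt.L5.COH1
import Pool.Agent.Lib.MP_ccbbf6_gt.L5.G3b
import Pool.Agent.Lib.MP_ccbbf6_gt.L5.INTs
import Pool.Agent.Lib.MP_ccbbf6_gt.L5.UOR11

/-!
# Level 5, COH4: the geometric instance of `CohD` (helper67)

PROOFS.
(1) taut: pos_iff: f, a positive (det A = 1, A = ⟨f, a⟩), a' another frame: ⟨f, a'⟩ = A * ⟨a, a'⟩ (`frame_expand`), det. loc: the frame a v := (p.1 v).1.2 itself (det ⟨f, f⟩ = det 1 = 1; smooth by p.2.2). See `UBun.orient` (INTp).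
(2) PI_taut: `(u.taut.sb hN).lift.inj`, `q_PI`; on the frame space F' of taut (points (f, a), a positive relative to f) both sides are SI of pull-backs along F'.xP (N+1) → u.S: ((f, a), ξ) ↦ Σ ξ_j a_j / ‖ξ‖ and ((f, a), ξ) ↦ Σ ξ_i f_i / ‖ξ‖. The first one
    is the second one after ξ ↦ A ξ, A i j = ⟨f_i, a_j⟩ (a_j = Σ A i j f_i, `frame_expand`), A smooth (`u.inn`), A^T A = 1 (`gramA`), det A = 1: `SI_frP` (INTg) with s = 1. (As `UBun.val_change` / `OBun.change_q` in INTp / INTm.) And `SI_nat` for F' → u.F.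
(3) d_sig: `SI_d` ((-1)^(N+1+1) = (-1)^N), `pull_d`. sig_mulr: `SI_mulr` with u.ptm.pull (prS.pull a) = (pP ..).pull (qF.pull a). Deg_sig: `Deg_SI`.
(4) sig_kill: `PI_taut`, `SBun.PI_kill` (INTo) with VFl from `OBun.VFl_sb` (INTo) for g := (gF hB).comp ((ofTM hB).comp tS): copy the proof of `VFl_M` (INTs) with the local unit section of K along the plot of geodesics from `exists_frame_Kc` (G3b)
    instead of bKo.loc: σ := plot of spG, an orthonormal basis a of Kc (σ z) (finrank κ ≥ 1), u := w ⟨0, _⟩. VF (gF c) = Vc c (`VF_gF`), `gvg_VF`.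
(5) con_spM: Con for spG (`con_spG`, L4/ConG, 2 ≤ n) and every x is the foot of a geodesic (n ≥ 1: gvg): Con passes to the image of a surjective smooth map: given P on M, apply con to P ∘ foot. con_spF: the same with gF (surjective: `dirOf_spec`: gvg x (dirOf x y),
    or `mem_VF`/`gvg_VF` with v = dirOf).
(6) d_sig_Phi: Φ = ψ * y^(m-1), dψ = y - x (`d_b0_ev`, PHI02; u even since κ + 1 is even), dy = 0, so dΦ = y^m - x * y^(m-1) (y even, commute); y = gF^* (pF2^* u), x = foot^* u = gF^* (pF1^* u): both y^m and x * y^(m-1) are pull-backs from spF: sig_kill. `d_sig`.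
(7) abs_val_Phi: val_ev + d = 0: along plots of (uTM 𝒜).F val is constant (`val_plot` of L4/Cmp4 with `closed`); c := |val f₀|; P x := ∀ f, f.1.1 = x → |val f| = c; Con spM; along a plot q of spM: local frames (`(uTM 𝒜).loc`) give plots of F over q (squeeze); two frames over
    the same point: `val_change`, |det| = 1 (`gramA`). Follow `abs_gV_con` (UOR13).
(8) frV: smoothness: `smG_gvg`; IsMF: `gvg_vel`; tops: `gvg_VF`. ofVS_ptm: both are geodesics with foot the first point and velocity the normalised Σ ξ_i a_i: `eq_of_vel'`, `foot_dirV`, `vel_dirV`, `gvg_vel`; norm of Σ ξ_i a_i is ‖toE ξ‖. val_gV: `SI_nat` for frV.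
(9) cohD fields: hp1, hp2: `mul_zero`, `mul_one`. bM := INTs.bM with Φ = ψ y^(m-1) and OrM from abs_val_Phi; kill: `PI_MF`. V1: `PI_V`. cM, cF: `closed_const` with Con and a constant plot; big: `Deg_big` with `dimLE_spM`. heps: `PI_M` with c = |val f₀|.
-/

set_option autoImplicit false
set_option maxSynthPendingDepth 3

open Set Filter Topology Real Module

open scoped ContDiff RealInnerProductSpace

noncomputable section

namespace Pool.Agent.Lib.MP_ccbbf6_gt.L5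

open L4 L4.FR L4.ORI Geo

variable {k l r N n κ m : ℕ} {E : Type} [NormedAddCommGroup E] [InnerProductSpace ℝ E] {B B' : Space}

/-! ### unoriented bundles over their frame bundle -/

namespace UBun

/-- projection of the frame bundle -/
def qF (u : UBun r E B) : SMap u.F B := ⟨fun z => z.1.1, fun _ p => p.2.1⟩

/-- projection of the sphere bundle -/
def prS (u : UBun r E B) : SMap u.S B := ⟨fun z => z.1.1, fun _ p => p.2.1⟩

private theorem COH4_mul {W : Submodule ℝ E} (hr : 0 < r) (hW : Module.finrank ℝ W = r)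
    {a a' : Fin r → E} (ha : OFr W a) (ha' : OFr W a') (f : Fin r → E) :
    (Matrix.of fun i j => inner ℝ (f i) (a' j)) = (Matrix.of fun i j => inner ℝ (f i) (a j)) *
      (Matrix.of fun i j => inner ℝ (a i) (a' j) : Matrix (Fin r) (Fin r) ℝ) := by
  ext i j
  rw [Matrix.mul_apply]
  show inner ℝ (f i) (a' j) = ∑ l, inner ℝ (f i) (a l) * inner ℝ (a l) (a' j)
  conv_lhs => rw [← frame_expand hr hW ha (ha'.1 j)]
  rw [inner_sum]
  refine Finset.sum_congr rfl fun l _ => ?_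
  rw [real_inner_smul_right, mul_comm]

private theorem COH4_mulVec {n : ℕ} {A : Matrix (Fin n) (Fin n) ℝ} (h : A.transpose * A = 1) (ξ : V n) :
    ‖toE (A.mulVec ξ)‖ = ‖toE ξ‖ := by
  have h1 : ∀ η : V n, ‖toE η‖ = Real.sqrt (dotProduct η η) := by
    intro η
    rw [EuclideanSpace.norm_eq]
    refine congrArg Real.sqrt (Finset.sum_congr rfl fun i _ => ?_)
    show ‖η i‖ ^ 2 = η i * η i
    rw [Real.norm_eq_abs, sq_abs, pow_two]
  rw [h1, h1, Matrix.dotProduct_mulVec, ← Matrix.mulVec_transpose, Matrix.mulVec_mulVec, h, Matrix.one_mulVec]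

theorem taut_pos (u : UBun (N + 1) E B) (f : u.F.pt) (a a' : Fin (N + 1) → E) (ha : OFr (u.W f.1.1) a)
    (ha' : OFr (u.W f.1.1) a') (hp : (Matrix.of fun i j => inner ℝ (f.1.2 i) (a j)).det = (1 : ℝ)) :
    (Matrix.of fun i j => inner ℝ (f.1.2 i) (a' j)).det = (1 : ℝ) ↔
      (Matrix.of fun i j => inner ℝ (a i) (a' j)).det = (1 : ℝ) := by
  rw [COH4_mul (Nat.succ_pos N) (u.rank _) ha ha' f.1.2, Matrix.det_mul, hp, one_mul]

theorem taut_loc (u : UBun (N + 1) E B) (p : u.F.Plot k) (z : V k) : ∃ a : V k → Fin (N + 1) → E, ∀ᶠ y in 𝓝 z,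
    OFr (u.W (p.1 y).1.1) (a y) ∧ (Matrix.of fun i j => inner ℝ ((p.1 y).1.2 i) (a y j)).det = (1 : ℝ) ∧
      ∀ i, (u.toVFld.pull u.qF).sAt p (fun v => a v i) y := by
  refine ⟨fun v => (p.1 v).1.2, Eventually.of_forall fun y => ⟨(p.1 y).2, ?_, fun i => p.2.2 i y⟩⟩
  have h1 : (Matrix.of fun i j => inner ℝ ((p.1 y).1.2 i) ((p.1 y).1.2 j)) =
      (1 : Matrix (Fin (N + 1)) (Fin (N + 1)) ℝ) := by
    ext i j
    rw [Matrix.one_apply]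
    exact orthonormal_iff_ite.1 (p.1 y).2.2 i j
  rw [h1, Matrix.det_one]

/-- the bundle over its frame bundle, with the tautological orientation -/
def taut (u : UBun (N + 1) E B) : OBun (N + 1) E u.F where
  toVFld := u.toVFld.pull u.qF
  W f := u.W f.1.1
  pos f a := (Matrix.of fun i j => inner ℝ (f.1.2 i) (a j)).det = (1 : ℝ)
  rank _ := u.rank _
  pos_iff f a a' ha ha' hp := u.taut_pos f a a' ha ha' hp
  loc p z := u.taut_loc p z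

/-- the bundle map -/
def tS (u : UBun (N + 1) E B) : SMap u.taut.S u.S :=
  ⟨fun z => ⟨(z.1.1.1.1, z.1.2), z.2⟩, fun _ p => ⟨(u.qF.pl (⟨_, p.2.1⟩ : u.F.Plot _)).2, p.2.2⟩⟩

private def COH4_A (u : UBun (N + 1) E B) (z : u.taut.F.pt) : Matrix (Fin (N + 1)) (Fin (N + 1)) ℝ :=
  Matrix.of fun i j => inner ℝ (z.1.1.1.2 i) (z.1.2 j)

private theorem COH4_A_sm (u : UBun (N + 1) E B) : SmM (X := u.taut.F) u.COH4_A := fun k p i j => by
  refine contDiff_iff_contDiffAt.2 fun z => ?_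
  obtain ⟨h, h1⟩ := p.2.1
  have h2 : u.sAt ⟨_, h⟩ (fun v => (p.1 v).1.1.1.2 i) z := h1 i z
  have h3 : u.sAt ⟨_, h⟩ (fun v => (p.1 v).1.2 j) z := p.2.2 j z
  exact u.inn h2 h3

private theorem COH4_A_gram (u : UBun (N + 1) E B) (z : u.taut.F.pt) :
    (u.COH4_A z).transpose * u.COH4_A z = 1 :=
  gramA (Nat.succ_pos N) (u.rank _) z.1.1.2 z.2.1

private theorem COH4_maps (u : UBun (N + 1) E B) : u.tS.comp u.taut.ptm =
    (u.ptm.comp (u.taut.q.xP (N + 1))).comp (frP (X := u.taut.F) u.COH4_A_sm u.COH4_A_gram) := by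
  refine SMap_ext fun z => Subtype.ext (Prod.ext rfl ?_)
  show ‖toE z.1.2‖⁻¹ • ∑ j, z.1.2 j • z.1.1.1.2 j =
    ‖toE ((u.COH4_A z.1.1).mulVec z.1.2)‖⁻¹ •
      ∑ i, ((u.COH4_A z.1.1).mulVec z.1.2) i • z.1.1.1.1.1.2 i
  rw [COH4_mulVec (u.COH4_A_gram z.1.1)]
  congr 1
  have h3 : ∀ i, ((u.COH4_A z.1.1).mulVec z.1.2) i • z.1.1.1.1.1.2 i =
      ∑ j, z.1.2 j • inner ℝ (z.1.1.1.1.1.2 i) (z.1.1.1.2 j) • z.1.1.1.1.1.2 i := by
    intro i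
    show (∑ j, inner ℝ (z.1.1.1.1.1.2 i) (z.1.1.1.2 j) * z.1.2 j) • z.1.1.1.1.1.2 i = _
    rw [Finset.sum_smul]
    refine Finset.sum_congr rfl fun j _ => ?_
    rw [mul_comm, mul_smul]
  rw [Finset.sum_congr rfl fun i _ => h3 i, Finset.sum_comm]
  refine Finset.sum_congr rfl fun j _ => ?_
  rw [← Finset.smul_sum, frame_expand (Nat.succ_pos N) (u.rank _) z.1.1.1.1.2 (z.1.1.2.1.1 j)]

theorem PI_taut (u : UBun (N + 1) E B) (hN : 1 ≤ N) (Ψ : Om u.S) : (u.taut.sb hN).PI (u.tS.pull Ψ) = u.sig Ψ := by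
  refine (u.taut.sb hN).lift.inj ?_
  rw [(u.taut.sb hN).q_PI]
  have e1 : SI (N + 1) u.taut.F (u.taut.ptm.pull (u.tS.pull Ψ)) =
      SI (N + 1) u.taut.F ((u.taut.q.xP (N + 1)).pull (u.ptm.pull Ψ)) := by
    rw [← pull_comp, COH4_maps, pull_comp, pull_comp]
    have h1 := SI_frP (X := u.taut.F) u.COH4_A_sm u.COH4_A_gram (s := 1) abs_one
      (fun z => z.2.2) ((u.taut.q.xP (N + 1)).pull (u.ptm.pull Ψ))
    rw [one_smul] at h1
    exact h1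
  exact e1.trans (SI_nat u.taut.q (u.ptm.pull Ψ))

theorem d_sig (u : UBun (N + 1) E B) (Ψ : Om u.S) : dO _ (u.sig Ψ) = (-1 : ℝ) ^ N • u.sig (dO _ Ψ) := by
  unfold sig
  rw [SI_d, pull_d]
  have h : (-1 : ℝ) ^ (N + 1 + 1) = (-1 : ℝ) ^ N := by
    rw [pow_succ, pow_succ]
    ring
  rw [h]

theorem sig_mulr (u : UBun (N + 1) E B) (Ψ : Om u.S) (a : Om B) : u.sig (Ψ * u.prS.pull a) = u.sig Ψ * u.qF.pull a := by
  unfold sig
  have h : u.ptm.pull (u.prS.pull a) = (pP u.F (N + 1)).pull (u.qF.pull a) := rfl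
  rw [map_mul, h, SI_mulr]

theorem Deg_sig (u : UBun (N + 1) E B) {Ψ : Om u.S} {j : ℕ} (h : Deg (j + N) Ψ) : Deg j (u.sig Ψ) :=
  Deg_SI (Deg_pull _ h)

end UBun

variable {M : Type} [MetricSpace M] [CompactSpace M]

/-! ### forms of `spF` -/

section one

variable {𝒜 : SDist (N + 1) M} (hB : Bl M)

/-- fibre integrals over `U_pM` of forms of `FM` vanish -/
theorem sig_kill (hN : 1 ≤ N) (hk : 𝒜.HK κ) (hκ : 1 ≤ κ) (θ : Om (spF 𝒜)) :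
    (uTM 𝒜).sig ((ofTM hB).pull ((gF hB).pull θ)) = 0 := by
  rw [← (uTM 𝒜).PI_taut hN, ← pull_comp, ← pull_comp]
  refine SBun.PI_kill _ (OBun.VFl_sb (uTM 𝒜).taut hN _ ?_) θ
  intro m C z
  obtain ⟨σ, hσ⟩ : ∃ σ : V m → Gs M, σ = fun v => (ofTM hB).1 ((uTM 𝒜).tS.1 (C.1 v)) := ⟨_, rfl⟩
  have hσs : SmG 𝒜 σ := by
    rw [hσ]
    exact (((ofTM hB).comp (uTM 𝒜).tS).pl C).2
  have hσA : ∀ y, SmGA 𝒜 σ y := fun y => ⟨hσs.1 y, hσs.2 y⟩
  have hfoot : ∀ y, (σ y).1 0 = (C.1 y).1.1.1.1 := fun y => by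
    rw [hσ]
    exact (gvg_vel 𝒜 hB (C.1 y).1.1.1.1 (C.1 y).1.2 (C.1 y).2.2).1
  have hvel : ∀ y, 𝒜.vel (σ y).1 0 = (C.1 y).1.2 := fun y => by
    rw [hσ]
    exact (gvg_vel 𝒜 hB (C.1 y).1.1.1.1 (C.1 y).1.2 (C.1 y).2.2).2
  obtain ⟨a0, ha0, ha1⟩ : ∃ a0 : Eu (N + 1), a0 ∈ Kc 𝒜 (σ z) ∧ ‖a0‖ = 1 := by
    have h1 : 0 < finrank ℝ (Kc 𝒜 (σ z)) := by
      rw [finrank_Kc 𝒜 hB hk]
      exact hκ
    have : Nontrivial (Kc 𝒜 (σ z)) := Module.finrank_pos_iff.1 h1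
    obtain ⟨w, hw⟩ := exists_ne (0 : Kc 𝒜 (σ z))
    have hw' : (w : Eu (N + 1)) ≠ 0 := fun h => hw (Subtype.ext h)
    refine ⟨‖(w : Eu (N + 1))‖⁻¹ • (w : Eu (N + 1)), Submodule.smul_mem _ _ w.2, ?_⟩
    rw [norm_smul, norm_inv, norm_norm, inv_mul_cancel₀ (norm_ne_zero_iff.2 hw')]
  have ho : Orthonormal ℝ (fun _ : Fin 1 => a0) := ⟨fun _ => ha1, fun i j h => absurd (Subsingleton.elim i j) h⟩
  obtain ⟨w, -, hw⟩ := exists_frame_Kc hB hk (hσA z) ho (fun _ => ha0)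
  refine ⟨w 0, ?_⟩
  have hnear : ∀ᶠ y in 𝓝 z, (σ y).1 0 ∈ (𝒜.ψ ((σ z).1 0)).source :=
    (hσs.1 z).cont.eventually ((𝒜.ψ ((σ z).1 0)).open_source.mem_nhds (𝒜.mem _))
  filter_upwards [hw, hnear] with y hy hyn
  obtain ⟨hy1, hy2, hy3⟩ := hy
  obtain ⟨hK1, hK2⟩ := (mem_Kc 𝒜).1 (hy2 0)
  have hVc : VF 𝒜 ((gF hB).1 (σ y)) = Vc 𝒜 (σ y) := VF_gF hB (σ y)
  refine ⟨?_, Submodule.mem_top, hy1.1 0, ?_, ?_⟩
  · have h1 := SmV.chart (hσs.1 y) (hy3 (hσA y) 0) hyn (𝒜.mem ((σ y).1 0))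
    have h2 : (fun v => (σ v).1 0) = fun v => (C.1 v).1.1.1.1 := funext hfoot
    rw [h2, hfoot y] at h1
    exact h1
  · rw [← hvel y]
    exact hK2
  · intro s c' hc1 hc2
    have hmem : c'.1.2 ∈ VF 𝒜 ((gF hB).1 (σ y)) := by
      rw [hc2, hVc, ← hvel y]
      exact Submodule.add_mem _ (Submodule.smul_mem _ _ (vel_mem_Vc 𝒜 hB (σ y))) (Submodule.smul_mem _ _ hK1)
    have key : ∀ x, x = ((gF (𝒜 := 𝒜) hB).1 (σ y)).1.1 →
        (gF (𝒜 := 𝒜) hB).1 (gvg 𝒜 hB x c'.1.2 c'.2.2) = (gF (𝒜 := 𝒜) hB).1 (σ y) := by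
      rintro _ rfl
      exact gvg_VF hB _ hmem c'.2.2
    have h3 := key c'.1.1.1.1 ((congrArg (fun f : (uTM 𝒜).F.pt => f.1.1) hc1).trans (hfoot y).symm)
    have h4 : (gF (𝒜 := 𝒜) hB).1 (σ y) = (gF (𝒜 := 𝒜) hB).1 ((ofTM hB).1 ((uTM 𝒜).tS.1 (C.1 y))) := by rw [hσ]
    rw [h4] at h3
    exact h3

private theorem COH4_con {X Y : Space} (hX : Con X) (f : SMap X Y) (hf : ∀ y, ∃ x, f.1 x = y) : Con Y := by
  intro P hP y y' hy
  obtain ⟨x, rfl⟩ := hf y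
  obtain ⟨x', rfl⟩ := hf y'
  exact hX (fun x => P (f.1 x)) (fun q s t h => hP (f.pl q) s t h) x x' hy

include hB in
theorem con_spM (hN : 1 ≤ N) : Con (spM 𝒜) := by
  refine COH4_con (con_spG (𝒜 := 𝒜) (by omega) hB) (foot hB 0) ?_
  intro x
  have h1 : ‖(EuclideanSpace.single (0 : Fin (N + 1)) (1 : ℝ) : Eu (N + 1))‖ = 1 := by
    simp
  exact ⟨gvg 𝒜 hB x _ h1, (gvg_vel 𝒜 hB x _ h1).1⟩

include hB in
theorem con_spF (hN : 1 ≤ N) : Con (spF 𝒜) := by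
  refine COH4_con (con_spG (𝒜 := 𝒜) (by omega) hB) (gF hB) ?_
  intro z
  have hd : dist z.1.1 z.1.2 = π := z.2
  have hne : z.1.2 ≠ z.1.1 := by
    intro h
    rw [h, dist_self] at hd
    exact Real.pi_pos.ne hd
  have h1 := (dirOf_spec (𝒜 := 𝒜) (p := z.1.1) hB hne).1
  exact ⟨gvg 𝒜 hB z.1.1 _ h1, gvg_VF hB z (mem_PV_self 𝒜 hB _ _) h1⟩

/-- `ψ_u y^(m-1)` -/
def PhiU (hB : Bl M) (m : ℕ) (u : Om (spM 𝒜)) : Om (spG 𝒜) := b0 (fRho hB) u * wt (fRho hB) u 1 ^ (m - 1)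

theorem Deg_PhiU (hd : N + 1 = (κ + 1) * m) (hm : 1 ≤ m) {u : Om (spM 𝒜)} (Du : Deg (κ + 1) u) : Deg N (PhiU hB m u) := by
  have h1 : Deg κ (b0 (fRho hB) u) := Deg_K (Deg_pull _ Du)
  have h2 : Deg (κ + 1) (wt (fRho hB) u 1) := Deg_pull _ (Deg_pull _ Du)
  have h3 := Deg_mul h1 (Deg_pow h2 (m - 1))
  have e : N = κ + (κ + 1) * (m - 1) := by
    obtain ⟨m', rfl⟩ : ∃ m', m = m' + 1 := ⟨m - 1, by omega⟩
    rw [Nat.add_sub_cancel]
    have : (κ + 1) * (m' + 1) = (κ + 1) * m' + (κ + 1) := by ring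
    omega
  rw [← e] at h3
  exact h3

theorem d_sig_PhiU (hN : 1 ≤ N) (hk : 𝒜.HK κ) (hκ : ∃ t, κ = 2 * t + 1) (hm : 1 ≤ m) {u : Om (spM 𝒜)}
    (Du : Deg (κ + 1) u) (du : dO _ u = 0) : dO _ ((uTM 𝒜).sig ((ofTM hB).pull (PhiU hB m u))) = 0 := by
  obtain ⟨t, ht⟩ := hκ
  have hs : sO _ u = u := by
    have e : κ + 1 = 2 * (t + 1) := by omega
    rw [e] at Du
    exact Deg_even Du
  have hd : dO _ (PhiU hB m u) = (wt (fRho hB) u 1 - wt (fRho hB) u 0) * wt (fRho hB) u 1 ^ (m - 1) := by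
    unfold PhiU
    rw [d_mul, d_b0_ev (fRho hB) du, d_pow_zero (d_wt (fRho hB) u du 1), mul_zero, add_zero]
  have e1 : wt (fRho hB) u 1 = (gF hB).pull ((pF2 𝒜).pull u) := by
    have h : (fRho hB).comp (jO (spG 𝒜) 1) = (pF2 𝒜).comp (gF hB) := SMap_ext fun c => by
      show c.1 (π * 1) = c.1 π
      rw [mul_one]
    unfold wt
    rw [← pull_comp, ← pull_comp, h]
  have e0 : wt (fRho hB) u 0 = (gF hB).pull ((pF1 𝒜).pull u) := by
    have h : (fRho hB).comp (jO (spG 𝒜) 0) = (pF1 𝒜).comp (gF hB) := SMap_ext fun c => by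
      show c.1 (π * 0) = c.1 0
      rw [mul_zero]
    unfold wt
    rw [← pull_comp, ← pull_comp, h]
  have e2 : dO _ (PhiU hB m u) =
      (gF hB).pull (((pF2 𝒜).pull u - (pF1 𝒜).pull u) * (pF2 𝒜).pull u ^ (m - 1)) := by
    rw [hd, map_mul, map_sub, map_pow, e1, e0]
  rw [UBun.d_sig, pull_d, e2, sig_kill hB hN hk (by omega), smul_zero]

private theorem COH4_det {Q : ℕ} {A : Matrix (Fin Q) (Fin Q) ℝ} (h : A.transpose * A = 1) : |A.det| = 1 := by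
  have h1 : A.det * A.det = 1 := by
    have h2 := congrArg Matrix.det h
    rw [Matrix.det_mul, Matrix.det_transpose, Matrix.det_one] at h2
    exact h2
  rcases mul_self_eq_one_iff.1 h1 with h3 | h3
  · rw [h3, abs_one]
  · rw [h3, abs_neg, abs_one]

/-- closed fibre integrals of degree zero are constant up to sign -/
private theorem COH4_abs_val (u : UBun (N + 1) E B) (hC : Con B) {Ψ : Om u.S} (h : Deg N Ψ)
    (hd : dO _ (u.sig Ψ) = 0) (f f' : u.F.pt) : |u.val Ψ f| = |u.val Ψ f'| := by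
  have hσ : Deg 0 (u.sig Ψ) := Deg_SI (j := 0) (by
    rw [Nat.zero_add]
    exact Deg_pull _ h)
  have hch : ∀ g g' : u.F.pt, g.1.1 = g'.1.1 → |u.val Ψ g'| = |u.val Ψ g| := by
    intro g g' e
    have ho : OFr (u.W g.1.1) g.1.2 := g.2
    have ho' : OFr (u.W g.1.1) g'.1.2 := by
      rw [e]
      exact g'.2
    rw [u.val_change h g g' e, abs_mul, COH4_det (gramA (Nat.succ_pos N) (u.rank _) ho ho'), one_mul]
  have hval : ∀ g : u.F.pt, u.val Ψ g = FR.val (u.sig Ψ) (u.cP g) := by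
    intro g
    unfold FR.val
    rw [FR.fn_apply]
    rfl
  have hQ : ∀ (Q : u.F.Plot 1) (s t : V 1), u.val Ψ (Q.1 s) = u.val Ψ (Q.1 t) := by
    intro Q s t
    have e1 : ∀ x : V 1, u.cP (Q.1 x) = Q.cmp (pt0 x) := fun x => Plot_ext fun _ => rfl
    rw [hval, hval, e1, e1]
    exact val_plot hσ hd Q s t
  obtain ⟨a, ha⟩ : ∃ a, a = |u.val Ψ f| := ⟨_, rfl⟩
  let P : B.pt → Prop := fun x => ∀ g : u.F.pt, g.1.1 = x → |u.val Ψ g| = a
  have hP : ∀ (q : B.Plot 1) (s t : V 1), P (q.1 s) → P (q.1 t) := by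
    intro q s t hs
    have hloc : IsLocallyConstant fun x : V 1 => P (q.1 x) := by
      rw [IsLocallyConstant.iff_eventually_eq]
      intro x
      obtain ⟨b, hb⟩ := u.loc q x
      obtain ⟨h1, hh1, hh2⟩ := exists_sq x hb
      let Q : u.F.Plot 1 := ⟨fun w => ⟨(q.1 (h1 w), b (h1 w)), (hh2 w).1⟩, (q.cmp h1).2,
        fun i w => u.comp h1 ((hh2 w).2 i)⟩
      have key : ∀ y, h1 y = y → (P (q.1 y) ↔ |u.val Ψ (Q.1 y)| = a) := by
        intro y hy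
        have e1 : (Q.1 y).1.1 = q.1 y := by
          change q.1 (h1 y) = q.1 y
          rw [hy]
        refine ⟨fun h2 => h2 (Q.1 y) e1, fun h2 g e => ?_⟩
        rw [hch (Q.1 y) g (e1.trans e.symm)]
        exact h2
      filter_upwards [hh1] with y hy
      refine propext ?_
      rw [key y hy, key x hh1.self_of_nhds, hQ Q y x]
    have h1 := hloc.apply_eq_of_isPreconnected (s := univ) isPreconnected_univ (mem_univ s) (mem_univ t)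
    exact h1 ▸ hs
  have h1 := hC P hP f.1.1 f'.1.1 (fun g e => by rw [ha]; exact hch f g e.symm) f' rfl
  rw [← ha]
  exact h1.symm

/-- the fibre integral of `ψ_u y^(m-1)` is constant up to sign -/
theorem abs_val_PhiU (hN : 1 ≤ N) (hk : 𝒜.HK κ) (hκ : ∃ t, κ = 2 * t + 1) (hm : 1 ≤ m) (hd : N + 1 = (κ + 1) * m)
    {u : Om (spM 𝒜)} (Du : Deg (κ + 1) u) (du : dO _ u = 0) (f f' : (uTM 𝒜).F.pt) :
    |(uTM 𝒜).val ((ofTM hB).pull (PhiU hB m u)) f| = |(uTM 𝒜).val ((ofTM hB).pull (PhiU hB m u)) f'| :=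
  COH4_abs_val (uTM 𝒜) (con_spM hB hN) (Deg_pull _ (Deg_PhiU hB hd hm Du)) (d_sig_PhiU hB hN hk hκ hm Du du) f f'

end one

/-! ### frames of `V` -/

section two

variable {𝒜 : SDist n M} (hB : Bl M) (hk : 𝒜.HK κ) (hL : LocV 𝒜 κ)

theorem frV_mf (f : (uV hB hk hL).F.pt) : IsMF 𝒜 κ fun i => gvg 𝒜 hB f.1.1.1.1 (f.1.2 i) (f.2.2.1 i) := by
  refine ⟨fun i => ?_, fun i j => ?_⟩
  · exact (gvg_vel 𝒜 hB f.1.1.1.1 (f.1.2 i) (f.2.2.1 i)).1.trans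
      (gvg_vel 𝒜 hB f.1.1.1.1 (f.1.2 0) (f.2.2.1 0)).1.symm
  · have h1 := (gvg_vel 𝒜 hB f.1.1.1.1 (f.1.2 i) (f.2.2.1 i)).2
    have h2 := (gvg_vel 𝒜 hB f.1.1.1.1 (f.1.2 j) (f.2.2.1 j)).2
    show ⟪𝒜.vel (gvg 𝒜 hB f.1.1.1.1 (f.1.2 i) (f.2.2.1 i)).1 0,
      𝒜.vel (gvg 𝒜 hB f.1.1.1.1 (f.1.2 j) (f.2.2.1 j)).1 0⟫ = _
    rw [h1, h2]
    exact orthonormal_iff_ite.1 f.2.2 i j

theorem frV_top (f : (uV hB hk hL).F.pt) (i : Fin (κ + 1)) :
    (gvg 𝒜 hB f.1.1.1.1 (f.1.2 i) (f.2.2.1 i)).1 π = f.1.1.1.2 :=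
  congrArg (fun t : (spF 𝒜).pt => t.1.2) (gvg_VF hB f.1.1 (f.2.1 i) (f.2.2.1 i))

/-- frames of `V` as families of geodesics -/
def frV : SMap (uV hB hk hL).F (spVF 𝒜 κ) :=
  ⟨fun f => ⟨⟨fun i => gvg 𝒜 hB f.1.1.1.1 (f.1.2 i) (f.2.2.1 i), frV_mf hB hk hL f⟩, fun i =>
    (frV_top hB hk hL f i).trans (frV_top hB hk hL f 0).symm⟩, fun _ p i =>
    smG_gvg hB p.2.1.1 (fun z => (p.1 z).2.2.1 i) (p.2.2 i)⟩

private theorem COH4_norm {a : Fin r → Eu n} (ha : Orthonormal ℝ a) (ξ : V r) :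
    ‖∑ i, ξ i • a i‖ = ‖toE ξ‖ := by
  have h1 : ‖∑ i, ξ i • a i‖ ^ 2 = ∑ i, ξ i * ξ i := by
    rw [← real_inner_self_eq_norm_sq]
    exact ha.inner_sum ξ ξ Finset.univ
  have h2 : ‖toE ξ‖ ^ 2 = ∑ i, ξ i * ξ i := by
    rw [EuclideanSpace.norm_sq_eq]
    refine Finset.sum_congr rfl fun i _ => ?_
    show ‖ξ i‖ ^ 2 = ξ i * ξ i
    rw [Real.norm_eq_abs, sq_abs, pow_two]
  exact (sq_eq_sq₀ (norm_nonneg _) (norm_nonneg _)).1 (h1.trans h2.symm)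

theorem ofVS_ptm : (ofVS hB hk hL).comp (uV hB hk hL).ptm = (dirV 𝒜 hB κ).comp ((frV hB hk hL).xP (κ + 1)) := by
  refine SMap_ext fun z => ?_
  have hv : ∀ i, 𝒜.vel (gvg 𝒜 hB z.1.1.1.1.1.1 (z.1.1.1.2 i) (z.1.1.2.2.1 i)).1 0 = z.1.1.1.2 i :=
    fun i => (gvg_vel 𝒜 hB z.1.1.1.1.1.1 (z.1.1.1.2 i) (z.1.1.2.2.1 i)).2
  have h1 := gvg_vel 𝒜 hB z.1.1.1.1.1.1 (‖toE z.1.2‖⁻¹ • ∑ i, z.1.2 i • z.1.1.1.2 i)
    ((uV hB hk hL).pt_mem z).2
  refine eq_of_vel' 𝒜 (h1.1.trans ?_) (h1.2.trans ?_)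
  · refine Eq.symm ((foot_dirV hB (((frV hB hk hL).xP (κ + 1)).1 z)).trans ?_)
    exact (gvg_vel 𝒜 hB z.1.1.1.1.1.1 (z.1.1.1.2 0) (z.1.1.2.2.1 0)).1
  · refine Eq.symm ((vel_dirV hB (((frV hB hk hL).xP (κ + 1)).1 z)).trans ?_)
    have h2 : vcF 𝒜 (((frV hB hk hL).xP (κ + 1)).1 z).1.1.1.1 (((frV hB hk hL).xP (κ + 1)).1 z).1.2 =
        ∑ i, z.1.2 i • z.1.1.1.2 i := by
      unfold vcF
      refine Finset.sum_congr rfl fun i _ => ?_
      exact congrArg (fun t => z.1.2 i • t) (hv i)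
    rw [h2]
    unfold nrm
    rw [COH4_norm z.1.1.2.2]

theorem sig_JV (θ : Om (spG 𝒜)) : (uV hB hk hL).sig ((ofVS hB hk hL).pull θ) = (frV hB hk hL).pull (JV 𝒜 hB κ θ) := by
  unfold UBun.sig
  rw [← pull_comp, ofVS_ptm, pull_comp, SI_nat]
  rfl

theorem val_gV (θ : Om (spG 𝒜)) (f : (uV hB hk hL).F.pt) :
    (uV hB hk hL).val ((ofVS hB hk hL).pull θ) f = gV 𝒜 hB κ θ ((frV hB hk hL).1 f) := by
  unfold UBun.val gV L4.FR.val
  rw [sig_JV]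
  exact (L4.FR.fn_apply (Om.on (JV 𝒜 hB κ θ) (cpl ((frV hB hk hL).1 f))) 0).symm

end two

/-! ### the instance -/

/-- the geometric input: `u` with `∫_(S(V)) ψ_u = ±1` and `∫_(U_pM) ψ_u y^(m-1) ≠ 0` -/
structure GeoD {N : ℕ} (𝒜 : SDist (N + 1) M) (hB : Bl M) (κ m : ℕ) where
  hk : 𝒜.HK κ
  hL : LocV 𝒜 κ
  odd : ∃ t, κ = 2 * t + 1
  dim : N + 1 = (κ + 1) * m
  two : 2 ≤ m
  u : Om (spM 𝒜)
  du : dO _ u = 0
  Du : Deg (κ + 1) u
  V1 : ∀ f : (spVF 𝒜 κ).pt, |gV 𝒜 hB κ (b0 (fRho hB) u) f| = 1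
  /-- a frame of `TM` -/
  f0 : (uTM 𝒜).F.pt
  nz : (uTM 𝒜).val ((ofTM hB).pull (PhiU hB m u)) f0 ≠ 0

namespace GeoD

variable {𝒜 : SDist (N + 1) M} {hB : Bl M} (D : GeoD 𝒜 hB κ m)

include D in
theorem hκ : 1 ≤ κ := by
  obtain ⟨t, ht⟩ := D.odd
  omega

include D in
theorem hN : 1 ≤ N := by
  have h1 := D.dim
  have h2 := D.two
  have h3 := D.hκ
  have h4 : 2 * 2 ≤ (κ + 1) * m := Nat.mul_le_mul (by omega) h2
  omega

theorem Deg_b : Deg κ (b0 (fRho hB) D.u) := Deg_K (Deg_pull _ D.Du)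

theorem Deg_Ph : Deg N (PhiU hB m D.u) := Deg_PhiU hB D.dim (by have := D.two; omega) D.Du

theorem orV : OrV hB D.hk D.hL (b0 (fRho hB) D.u) := by
  intro f h
  have h1 := D.V1 ((frV hB D.hk D.hL).1 f)
  rw [← val_gV, h, abs_zero] at h1
  exact zero_ne_one h1

theorem orM : OrM hB (PhiU hB m D.u) := by
  intro f h
  have h1 := abs_val_PhiU hB D.hN D.hk D.odd (by have := D.two; omega) D.dim D.Du D.du f D.f0
  rw [h, abs_zero] at h1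
  exact D.nz (abs_eq_zero.1 h1.symm)

/-- `UM → M` -/
def B1 : SBun N (spG 𝒜) (spM 𝒜) := bM hB D.Deg_Ph D.orM D.hN

/-- `UM → FM` -/
def B2 : SBun κ (spG 𝒜) (spF 𝒜) := bV hB D.hk D.hL D.Deg_b D.orV D.hκ

/-- the value of the integral -/
def ep : ℝ := |(uTM 𝒜).val ((ofTM hB).pull (PhiU hB m D.u)) D.f0|

theorem kill (θ : Om (spF 𝒜)) : D.B1.PI ((gF hB).pull θ) = 0 :=
  PI_MF hB D.Deg_Ph D.orM D.hN D.hk D.hL D.Deg_b D.orV D.hκ θ

theorem V1' : D.B2.PI (b0 (fRho hB) D.u) = 1 :=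
  PI_V hB D.hk D.hL D.Deg_b D.orV D.hκ fun f => by
    rw [val_gV]
    exact D.V1 _

theorem heps : D.B1.PI (b0 (fRho hB) D.u * wt (fRho hB) D.u 1 ^ (m - 1)) = algebraMap ℝ (Om (spM 𝒜)) D.ep :=
  PI_M hB D.Deg_Ph D.orM D.hN fun f =>
    abs_val_PhiU hB D.hN D.hk D.odd (by have := D.two; omega) D.dim D.Du D.du f D.f0

private theorem COH4_pl (D : GeoD 𝒜 hB κ m) : Nonempty ((spG 𝒜).Plot 0) :=
  ⟨⟨fun _ => gvg 𝒜 hB D.f0.1.1 (D.f0.1.2 0) (D.f0.2.2.1 0), ⟨sm_const _, sm_const _⟩⟩⟩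

include D in
theorem cM (θ : Om (spM 𝒜)) (h : Deg 0 θ) (hd : dO _ θ = 0) : ∃ c : ℝ, θ = algebraMap ℝ (Om (spM 𝒜)) c := by
  obtain ⟨p⟩ := COH4_pl D
  exact ⟨_, closed_const (con_spM hB D.hN) h hd ((foot hB 0).pl p)⟩

include D in
theorem cF (θ : Om (spF 𝒜)) (h : Deg 0 θ) (hd : dO _ θ = 0) : ∃ c : ℝ, θ = algebraMap ℝ (Om (spF 𝒜)) c := by
  obtain ⟨p⟩ := COH4_pl D
  exact ⟨_, closed_const (con_spF hB D.hN) h hd ((gF hB).pl p)⟩

include D in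
theorem cG (θ : Om (spG 𝒜)) (h : Deg 0 θ) (hd : dO _ θ = 0) : ∃ c : ℝ, θ = algebraMap ℝ (Om (spG 𝒜)) c := by
  obtain ⟨p⟩ := COH4_pl D
  have h2 : 2 ≤ N + 1 := by
    have := D.hN
    omega
  exact ⟨_, closed_const (con_spG h2 hB) h hd p⟩

/-- **the cohomology data of a Blaschke manifold** -/
def coh : CohD N κ m (spM 𝒜) (spG 𝒜) (spF 𝒜) where
  fR := fRho hB
  g := gF hB
  p1 := pF1 𝒜
  p2 := pF2 𝒜
  hp1 c := by
    show c.1 0 = c.1 (π * 0)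
    rw [mul_zero]
  hp2 c := by
    show c.1 π = c.1 (π * 1)
    rw [mul_one]
  bM := D.B1
  hbM c := by
    show c.1 0 = c.1 (π * 0)
    rw [mul_zero]
  bV := D.B2
  hbV _ := rfl
  kill := D.kill
  u := D.u
  du := D.du
  Du := D.Du
  odd := D.odd
  dim := D.dim
  two := D.two
  big h hj := Deg_big dimLE_spM hj h
  V1 := D.V1'
  cM := D.cM
  cF := D.cF
  eps := D.ep
  heps := D.heps
  eps0 := abs_ne_zero.2 D.nz

end GeoD

end Pool.Agent.Lib.MP_ccbbf6_gt.L5
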