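import Pool.Agent.Lib.MP_ccbbf6_gt.L5.WK0

/-!
# Level 5, block WK, file 1 (helper79): pseudo-inverses, the pencil in finite dimension
-/

set_option autoImplicit false
set_option linter.unusedSectionVars false
set_option linter.deprecated false

open Set Filter Topology Real MeasureTheory
open scoped Interval ContDiff RealInnerProductSpace

noncomputable section

namespace Pool.Agent.Lib.MP_ccbbf6_gt.L5.WK

open ContinuousLinearMap (adjoint)

variable {E : Type*} [NormedAddCommGroup E] [InnerProductSpace ℝ E] [FiniteDimensional ℝ E] [CompleteSpace E]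

/-- the Gram operator -/
def Gr (P B : E →L[ℝ] E) : E →L[ℝ] E := adjoint B * B + (1 - P)

/-- the pseudo-inverse of `B` on the range of `P` -/
def pinv (P B : E →L[ℝ] E) : E →L[ℝ] E := Ring.inverse (Gr P B) * adjoint B

variable {P Q B : E →L[ℝ] E}

omit [FiniteDimensional ℝ E] in
theorem inner_Gr (hP : adjoint P = P) (hPP : P * P = P) (x : E) :
    ⟪Gr P B x, x⟫ = ‖B x‖ ^ 2 + ‖x - P x‖ ^ 2 := by
  have h1 : ⟪(adjoint B) (B x), x⟫ = ‖B x‖ ^ 2 := by
    rw [ContinuousLinearMap.adjoint_inner_left, real_inner_self_eq_norm_sq]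
  have h2 : ⟪x - P x, x⟫ = ‖x - P x‖ ^ 2 := by
    rw [← real_inner_self_eq_norm_sq]
    have h3 : ⟪x - P x, P x⟫ = 0 := by
      have h4 : ⟪P x, P x⟫ = ⟪x, P x⟫ := by
        have h5 : ⟪x, P (P x)⟫ = ⟪P x, P x⟫ := by
          nth_rewrite 1 [← hP]
          rw [ContinuousLinearMap.adjoint_inner_right]
        have h6 : P (P x) = P x := by
          have := congrArg (fun T : E →L[ℝ] E => T x) hPP
          simpa using this
        rw [← h5, h6]
      rw [inner_sub_left, h4, sub_self]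
    rw [inner_sub_right (x - P x), h3, sub_zero]
  show ⟪(adjoint B * B + (1 - P)) x, x⟫ = _
  rw [ContinuousLinearMap.add_apply, inner_add_left]
  rw [← h1, ← h2]
  rfl

theorem isUnit_Gr (hP : adjoint P = P) (hPP : P * P = P) (hinj : ∀ x, P x = x → B x = 0 → x = 0) :
    IsUnit (Gr P B) := by
  rw [ContinuousLinearMap.isUnit_iff_isUnit_toLinearMap, LinearMap.isUnit_iff_ker_eq_bot, LinearMap.ker_eq_bot']
  intro x hx
  have h0 : Gr P B x = 0 := hx
  have h1 := inner_Gr (B := B) hP hPP x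
  rw [h0, inner_zero_left] at h1
  have h2 : ‖B x‖ ^ 2 = 0 := by nlinarith [sq_nonneg ‖B x‖, sq_nonneg ‖x - P x‖]
  have h3 : ‖x - P x‖ ^ 2 = 0 := by nlinarith [sq_nonneg ‖B x‖, sq_nonneg ‖x - P x‖]
  have h4 : B x = 0 := by simpa using h2
  have h5 : P x = x := by
    have : x - P x = 0 := by simpa using h3
    exact (sub_eq_zero.1 this).symm
  exact hinj x h5 h4

omit [FiniteDimensional ℝ E] in
theorem Gr_mul (hPP : P * P = P) (hBP : B * P = B) : Gr P B * P = adjoint B * B := by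
  rw [Gr, add_mul, sub_mul, one_mul, hPP, sub_self, add_zero, mul_assoc, hBP]

omit [FiniteDimensional ℝ E] in
theorem adj_mul (hP : adjoint P = P) (hBP : B * P = B) : P * adjoint B = adjoint B := by
  have h : adjoint (B * P) = adjoint P * adjoint B := ContinuousLinearMap.adjoint_comp _ _
  rw [hP, hBP] at h
  exact h.symm

omit [FiniteDimensional ℝ E] in
theorem mul_Gr (hP : adjoint P = P) (hPP : P * P = P) (hBP : B * P = B) : P * Gr P B = adjoint B * B := by
  rw [Gr, mul_add, mul_sub, mul_one, hPP, sub_self, add_zero, ← mul_assoc, adj_mul hP hBP]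

theorem pinv_mul (hP : adjoint P = P) (hPP : P * P = P) (hBP : B * P = B) (hinj : ∀ x, P x = x → B x = 0 → x = 0) :
    pinv P B * B = P := by
  rw [pinv, mul_assoc, ← Gr_mul hPP hBP, ← mul_assoc, Ring.inverse_mul_cancel _ (isUnit_Gr hP hPP hinj), one_mul]

theorem mul_pinv' (hP : adjoint P = P) (hPP : P * P = P) (hBP : B * P = B) (hinj : ∀ x, P x = x → B x = 0 → x = 0) :
    P * pinv P B = pinv P B := by
  have hu := isUnit_Gr hP hPP hinj
  have h1 : P * Ring.inverse (Gr P B) = Ring.inverse (Gr P B) * P := by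
    have h2 : Gr P B * P = P * Gr P B := by rw [Gr_mul hPP hBP, mul_Gr hP hPP hBP]
    calc P * Ring.inverse (Gr P B) = Ring.inverse (Gr P B) * (Gr P B * P) * Ring.inverse (Gr P B) := by
          rw [← mul_assoc (Ring.inverse (Gr P B)), Ring.inverse_mul_cancel _ hu, one_mul]
      _ = Ring.inverse (Gr P B) * P := by
          rw [h2, mul_assoc, mul_assoc, Ring.mul_inverse_cancel _ hu, mul_one]
  rw [pinv, ← mul_assoc, h1, mul_assoc, adj_mul hP hBP]

/-- `B` has rank equal to the rank of `P` -/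
theorem range_eq (hPP : P * P = P) (hQB : Q * B = B)
    (hinj : ∀ x, P x = x → B x = 0 → x = 0)
    (hr : Module.finrank ℝ (LinearMap.range (Q : E →ₗ[ℝ] E)) ≤ Module.finrank ℝ (LinearMap.range (P : E →ₗ[ℝ] E))) :
    LinearMap.range (B : E →ₗ[ℝ] E) = LinearMap.range (Q : E →ₗ[ℝ] E) := by
  have h1 : LinearMap.range (B : E →ₗ[ℝ] E) ≤ LinearMap.range (Q : E →ₗ[ℝ] E) := by
    rintro _ ⟨x, rfl⟩
    refine ⟨B x, ?_⟩
    have := congrArg (fun T : E →L[ℝ] E => T x) hQB
    simpa using this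
  refine Submodule.eq_of_le_of_finrank_le h1 (hr.trans ?_)
  -- range P injects into range B
  let f : LinearMap.range (P : E →ₗ[ℝ] E) →ₗ[ℝ] LinearMap.range (B : E →ₗ[ℝ] E) :=
    ((B : E →ₗ[ℝ] E).rangeRestrict).comp (Submodule.subtype _)
  refine LinearMap.finrank_le_finrank_of_injective (f := f) ?_
  rw [← LinearMap.ker_eq_bot, LinearMap.ker_eq_bot']
  rintro ⟨y, z, hz⟩ hy
  have h2 : B y = 0 := congrArg Subtype.val hy
  have h3 : P y = y := by
    rw [← hz]
    have := congrArg (fun T : E →L[ℝ] E => T z) hPP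
    simpa using this
  exact Subtype.ext (hinj y h3 h2)

theorem mul_pinv (hP : adjoint P = P) (hPP : P * P = P) (hQ : adjoint Q = Q) (hBP : B * P = B)
    (hQB : Q * B = B) (hinj : ∀ x, P x = x → B x = 0 → x = 0)
    (hr : Module.finrank ℝ (LinearMap.range (Q : E →ₗ[ℝ] E)) ≤ Module.finrank ℝ (LinearMap.range (P : E →ₗ[ℝ] E))) :
    B * pinv P B = Q := by
  have h1 := range_eq hPP hQB hinj hr
  have h2 : B * pinv P B * Q = Q := by
    ext x
    have h3 : Q x ∈ LinearMap.range (B : E →ₗ[ℝ] E) := by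
      rw [h1]; exact ⟨x, rfl⟩
    obtain ⟨z, hz⟩ := h3
    have hz' : B z = Q x := hz
    have h4 : (B * pinv P B * B) z = B z := by
      rw [mul_assoc, pinv_mul hP hPP hBP hinj, hBP]
    show (B * pinv P B) (Q x) = Q x
    rw [← hz']
    exact h4
  have h3 : adjoint B * Q = adjoint B := by
    have h : adjoint (Q * B) = adjoint B * adjoint Q := ContinuousLinearMap.adjoint_comp _ _
    rw [hQ, hQB] at h
    exact h.symm
  calc B * pinv P B = B * (Ring.inverse (Gr P B) * (adjoint B * Q)) := by rw [h3, pinv]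
    _ = B * pinv P B * Q := by rw [pinv]; simp only [mul_assoc]
    _ = Q := h2

/-- smoothness of the pseudo-inverse -/
theorem contDiffAt_pinv {F : Type*} [NormedAddCommGroup F] [NormedSpace ℝ F] {p b : F → E →L[ℝ] E} {u : F}
    (hp : ContDiffAt ℝ ∞ p u) (hb : ContDiffAt ℝ ∞ b u) (hu : IsUnit (Gr (p u) (b u))) :
    ContDiffAt ℝ ∞ (fun v => pinv (p v) (b v)) u := by
  have ha : ContDiffAt ℝ ∞ (fun v => adjoint (b v)) u := by
    have : ContDiff ℝ ∞ (fun T : E →L[ℝ] E => adjoint T) :=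
      (adjoint (𝕜 := ℝ) (E := E) (F := E)).toContinuousLinearEquiv.contDiff
    exact this.contDiffAt.comp u hb
  have hG : ContDiffAt ℝ ∞ (fun v => Gr (p v) (b v)) u := by
    unfold Gr
    exact (ha.mul hb).add (contDiffAt_const.sub hp)
  obtain ⟨w, hw⟩ := hu
  have hI : ContDiffAt ℝ ∞ (fun v => Ring.inverse (Gr (p v) (b v))) u := by
    have h1 := contDiffAt_ringInverse (n := ∞) ℝ w
    rw [hw] at h1
    exact h1.comp u hG
  exact hI.mul ha

/-- the geometric data of a pencil of injective operators -/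
structure Dat (P Q X Y : E →L[ℝ] E) : Prop where
  sP : adjoint P = P
  PP : P * P = P
  sQ : adjoint Q = Q
  QQ : Q * Q = Q
  XP : X * P = X
  YP : Y * P = Y
  QX : Q * X = X
  QY : Q * Y = Y
  rk : Module.finrank ℝ (LinearMap.range (Q : E →ₗ[ℝ] E)) ≤ Module.finrank ℝ (LinearMap.range (P : E →ₗ[ℝ] E))
  inj : ∀ s x, P x = x → Bp X Y s x = 0 → x = 0

variable {X Y : E →L[ℝ] E}

/-- the inverses of the pencil -/
def Ci (P X Y : E →L[ℝ] E) (s : ℝ) : E →L[ℝ] E := pinv P (Bp X Y s)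

namespace Dat

variable (h : Dat P Q X Y)
include h

theorem BP (s : ℝ) : Bp X Y s * P = Bp X Y s := by
  simp only [Bp, add_mul, smul_mul_assoc, h.XP, h.YP]

theorem QB (s : ℝ) : Q * Bp X Y s = Bp X Y s := by
  simp only [Bp, mul_add, mul_smul_comm, h.QX, h.QY]

theorem pen : Pen P Q X Y (Ci P X Y) where
  XP := h.XP
  YP := h.YP
  QX := h.QX
  QY := h.QY
  CB s := pinv_mul h.sP h.PP (h.BP s) (h.inj s)
  BC s := mul_pinv h.sP h.PP h.sQ (h.BP s) (h.QB s) (h.inj s) h.rk
  PC s := mul_pinv' h.sP h.PP (h.BP s) (h.inj s)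
  cont := by
    rw [continuous_iff_continuousAt]
    intro s
    have h1 : ContDiffAt ℝ ∞ (fun s : ℝ => Bp X Y s) s := by
      unfold Bp
      fun_prop
    exact (contDiffAt_pinv (p := fun _ => P) (b := fun s => Bp X Y s) contDiffAt_const h1
      (isUnit_Gr h.sP h.PP (h.inj s))).continuousAt

theorem S_inj (x : E) (hx : P x = x) (h0 : Sm X Y (Ci P X Y) x = 0) : x = 0 := by
  set J := Jm X Y (Ci P X Y) with hJ
  have hp := h.pen
  have e1 : X x = Y (J x) := by
    have : X x - Y (J x) = 0 := h0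
    exact sub_eq_zero.1 this
  have e2 : X (J x) = -Y x := by
    have h2 : (Sm X Y (Ci P X Y) * J) x = X (J x) + Y x := by
      rw [hp.S_J]; rfl
    have h3 : (Sm X Y (Ci P X Y) * J) x = 0 := by
      rw [← hp.J'_S]
      show Jm' X Y (Ci P X Y) (Sm X Y (Ci P X Y) x) = 0
      rw [h0, map_zero]
    rw [h3] at h2
    exact eq_neg_of_add_eq_zero_left h2.symm
  have e3 : ∀ s, Ph X Y (Ci P X Y) s (J x) = x := by
    intro s
    have h4 : Bd X Y s (J x) = Bp X Y s x := by
      show (-sin s • X + cos s • Y) (J x) = (cos s • X + sin s • Y) x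
      simp only [ContinuousLinearMap.add_apply, ContinuousLinearMap.smul_apply, e1, e2]
      simp
      abel
    show Ci P X Y s (Bd X Y s (J x)) = x
    rw [h4]
    have h5 : (Ci P X Y s * Bp X Y s) x = P x := by rw [hp.CB s]
    exact h5.trans hx
  have e4 : J (J x) = x := by
    have hJd : J = π⁻¹ • ∫ s in (0 : ℝ)..π, Ph X Y (Ci P X Y) s := rfl
    have h5 : (∫ s in (0 : ℝ)..π, Ph X Y (Ci P X Y) s) (J x) = π • x := by
      have h6 := (ContinuousLinearMap.apply ℝ E (J x)).intervalIntegral_comp_comm (μ := volume)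
        (hp.continuous_Ph.intervalIntegrable 0 π)
      simp only [ContinuousLinearMap.apply_apply] at h6
      rw [← h6]
      simp only [e3]
      simp
    nth_rewrite 1 [hJd]
    rw [ContinuousLinearMap.smul_apply, h5, smul_smul, inv_mul_cancel₀ pi_ne_zero, one_smul]
  have e5 : J (J x) = -x := by
    have h7 : (J * J) x = (-P) x := by rw [hp.J_sq]
    have h8 : (-P) x = -x := by
      show -(P x) = -x
      rw [hx]
    exact h7.trans h8
  have e6 : x = -x := by rw [← e5, e4]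
  have e7 : (2 : ℝ) • x = 0 := by
    rw [two_smul]
    nth_rewrite 1 [e6]
    exact neg_add_cancel x
  exact (smul_eq_zero.1 e7).resolve_left two_ne_zero

theorem S_CS : pinv P (Sm X Y (Ci P X Y)) * Sm X Y (Ci P X Y) = P :=
  pinv_mul h.sP h.PP h.pen.S_P h.S_inj

theorem P_CS : P * pinv P (Sm X Y (Ci P X Y)) = pinv P (Sm X Y (Ci P X Y)) :=
  mul_pinv' h.sP h.PP h.pen.S_P h.S_inj

theorem CS_S : Sm X Y (Ci P X Y) * pinv P (Sm X Y (Ci P X Y)) = Q :=
  mul_pinv h.sP h.PP h.sQ h.pen.S_P h.pen.Q_S h.S_inj h.rk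

theorem CS_Q : pinv P (Sm X Y (Ci P X Y)) * Q = pinv P (Sm X Y (Ci P X Y)) := by
  rw [← h.CS_S, ← mul_assoc, h.S_CS, h.P_CS]

/-- the inverse intertwines -/
theorem CS_J' : pinv P (Sm X Y (Ci P X Y)) * Jm' X Y (Ci P X Y) = Jm X Y (Ci P X Y) * pinv P (Sm X Y (Ci P X Y)) := by
  set S := Sm X Y (Ci P X Y)
  set T := pinv P S with hT
  calc T * Jm' X Y (Ci P X Y) = T * (Jm' X Y (Ci P X Y) * Q) := by rw [h.pen.J'_Q]
    _ = T * (Jm' X Y (Ci P X Y) * (S * T)) := by rw [h.CS_S]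
    _ = T * ((Jm' X Y (Ci P X Y) * S) * T) := by rw [mul_assoc (Jm' X Y (Ci P X Y))]
    _ = T * ((S * Jm X Y (Ci P X Y)) * T) := by rw [h.pen.J'_S]
    _ = (T * S) * (Jm X Y (Ci P X Y) * T) := by simp only [mul_assoc]
    _ = Jm X Y (Ci P X Y) * T := by rw [h.S_CS, ← mul_assoc, h.pen.P_J]

/-- rotated data -/
theorem rot (t : ℝ) : Dat P Q (Bp X Y t) (Bd X Y t) where
  sP := h.sP
  PP := h.PP
  sQ := h.sQ
  QQ := h.QQ
  XP := h.pen.BP t
  YP := h.pen.dP t
  QX := h.pen.QB t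
  QY := h.pen.Qd t
  rk := h.rk
  inj s x hx h0 := h.inj (t + s) x hx (by rw [← Bp_rot]; exact h0)

omit h [FiniteDimensional ℝ E] in
theorem Ci_rot (t s : ℝ) : Ci P (Bp X Y t) (Bd X Y t) s = Ci P X Y (t + s) := by
  rw [Ci, Ci, Bp_rot]

omit [FiniteDimensional ℝ E] h in
theorem Ci_rot' (t : ℝ) : Ci P (Bp X Y t) (Bd X Y t) = fun s => Ci P X Y (t + s) := funext fun s => Ci_rot t s

theorem J_rot (t : ℝ) : Jm (Bp X Y t) (Bd X Y t) (Ci P (Bp X Y t) (Bd X Y t)) = Jm X Y (Ci P X Y) := by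
  rw [Ci_rot', h.pen.J_rot]

theorem J'_rot (t : ℝ) : Jm' (Bp X Y t) (Bd X Y t) (Ci P (Bp X Y t) (Bd X Y t)) = Jm' X Y (Ci P X Y) := by
  rw [Ci_rot', h.pen.J'_rot]

theorem S_rot (t : ℝ) : Sm (Bp X Y t) (Bd X Y t) (Ci P (Bp X Y t) (Bd X Y t)) =
    Sm X Y (Ci P X Y) * (cos t • P + sin t • Jm X Y (Ci P X Y)) := by
  rw [Ci_rot', h.pen.S_rot]

/-- the inverse of the rotated operator -/
theorem CS_rot (t : ℝ) : pinv P (Sm (Bp X Y t) (Bd X Y t) (Ci P (Bp X Y t) (Bd X Y t))) =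
    (cos t • P - sin t • Jm X Y (Ci P X Y)) * pinv P (Sm X Y (Ci P X Y)) := by
  set J := Jm X Y (Ci P X Y) with hJ
  set S := Sm X Y (Ci P X Y) with hS
  set T := pinv P S with hT
  set S' := Sm (Bp X Y t) (Bd X Y t) (Ci P (Bp X Y t) (Bd X Y t)) with hS'
  have hr := h.rot t
  have e1 : ((cos t • P - sin t • J) * T) * S' = P := by
    rw [hS', h.S_rot, ← hJ, ← hS]
    have e2 : ((cos t • P - sin t • J) * T) * (S * (cos t • P + sin t • J)) =
        (cos t • P - sin t • J) * (T * S) * (cos t • P + sin t • J) := by simp only [mul_assoc]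
    rw [e2, h.S_CS]
    have hJP : J * P = J := h.pen.J_P
    have hPJ : P * J = J := h.pen.P_J
    have hJJ : J * J = -P := h.pen.J_sq
    simp only [sub_mul, mul_add, smul_mul_assoc, mul_smul_comm, h.PP, hJP, hPJ, hJJ, smul_neg]
    have h9 : cos t • (cos t • P - sin t • J) + sin t • (cos t • J - -(sin t • P)) = (cos t ^ 2 + sin t ^ 2) • P := by
      module
    rw [h9, cos_sq_add_sin_sq, one_smul]
  calc pinv P S' = (((cos t • P - sin t • J) * T) * S') * pinv P S' := by rw [e1, hr.P_CS]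
    _ = ((cos t • P - sin t • J) * T) * Q := by rw [mul_assoc, hr.CS_S]
    _ = (cos t • P - sin t • J) * T := by rw [mul_assoc, h.CS_Q]

end Dat

end Pool.Agent.Lib.MP_ccbbf6_gt.L5.WK
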