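import Pool.Agent.Lib.MP_ccbbf6_gt.L5.MF
import Pool.Agent.Lib.MP_ccbbf6_gt.L5.WK1

/-!
# Level 5, block WK, file 3 (helper79): the bundle `K^{1,0}` on a plot space with a circle action

`WD X c D` : smooth families `P, Q, A, B` of operators of `R^D` along the plots of `X`, pencils at each point, rotated
by `c`.  Output: idempotents `W`, `W'` over the complex invariant functions with `P = W + conj W`, `Q = W' + conj W'`,
and `a`, `b` over the complex functions with `a b = W'`, `b a = W`, `a (c_s x) = e^{2 π i s} a x`.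
-/

set_option autoImplicit false
set_option maxSynthPendingDepth 3
set_option linter.unusedSectionVars false

open Set Filter Topology Matrix
open scoped ContDiff RealInnerProductSpace

noncomputable section

namespace Pool.Agent.Lib.MP_ccbbf6_gt.L5.WK

open L4 L4.FR

/-- operators of `R^D` -/
abbrev Op (D : ℕ) := EuclideanSpace ℝ (Fin D) →L[ℝ] EuclideanSpace ℝ (Fin D)

variable {D : ℕ}

/-- the matrix of an operator -/
def mt (T : Op D) : Matrix (Fin D) (Fin D) ℝ := (Matrix.toEuclideanCLM (n := Fin D) (𝕜 := ℝ)).symm T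

theorem mt_mul (S T : Op D) : mt (S * T) = mt S * mt T := map_mul _ _ _
theorem mt_add (S T : Op D) : mt (S + T) = mt S + mt T := map_add _ _ _
theorem mt_sub (S T : Op D) : mt (S - T) = mt S - mt T := map_sub _ _ _
theorem mt_neg (T : Op D) : mt (-T) = -mt T := map_neg _ _
theorem mt_smul (r : ℝ) (T : Op D) : mt (r • T) = r • mt T := map_smul (Matrix.toEuclideanCLM (n := Fin D) (𝕜 := ℝ)).symm r T
theorem mt_zero : mt (0 : Op D) = 0 := map_zero _
theorem mt_inj {S T : Op D} (h : mt S = mt T) : S = T := (Matrix.toEuclideanCLM (n := Fin D) (𝕜 := ℝ)).symm.injective h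

theorem mt_adj (T : Op D) : mt (ContinuousLinearMap.adjoint T) = (mt T)ᵀ := by
  have h := map_star (Matrix.toEuclideanCLM (n := Fin D) (𝕜 := ℝ)).symm T
  rw [ContinuousLinearMap.star_eq_adjoint] at h
  rw [mt, h, Matrix.star_eq_conjTranspose]
  rfl

theorem mt_apply (T : Op D) (i j : Fin D) : mt T i j = (T (EuclideanSpace.single j 1)) i := by
  have h : Matrix.toEuclideanCLM (n := Fin D) (𝕜 := ℝ) (mt T) = T :=
    (Matrix.toEuclideanCLM (n := Fin D) (𝕜 := ℝ)).apply_symm_apply T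
  have h2 := Matrix.ofLp_toEuclideanCLM (mt T) (EuclideanSpace.single j (1 : ℝ))
  rw [h] at h2
  rw [h2]
  simp

theorem contDiff_mt (i j : Fin D) : ContDiff ℝ ∞ fun T : Op D => mt T i j := by
  let L : Op D →ₗ[ℝ] ℝ := { toFun := fun T => mt T i j, map_add' := fun S T => by rw [mt_add]; rfl,
                            map_smul' := fun r T => by rw [mt_smul]; rfl }
  exact (LinearMap.toContinuousLinearMap L).contDiff

/-! ### pairs of real matrices as complex matrices -/

section pairs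

variable {A A' : Type*} [CommRing A] [Algebra ℝ A] [CommRing A'] [Algebra ℝ A'] {ι κ μ : Type*} [Fintype ι] [Fintype κ] [Fintype μ]

/-- the complex matrix `M + i N` -/
def cm (M N : Matrix ι κ A) : Matrix ι κ (CB A) := fun i j => ⟨M i j, N i j⟩

theorem cm_add (M N M' N' : Matrix ι κ A) : cm M N + cm M' N' = cm (M + M') (N + N') := rfl

theorem cm_zero : cm (0 : Matrix ι κ A) 0 = 0 := rfl

theorem CB_sum {α : Type*} (s : Finset α) (f g : α → A) :
    ∑ l ∈ s, (⟨f l, g l⟩ : CB A) = ⟨∑ l ∈ s, f l, ∑ l ∈ s, g l⟩ := by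
  classical
  induction s using Finset.induction_on with
  | empty => rfl
  | insert a s ha ih => rw [Finset.sum_insert ha, Finset.sum_insert ha, Finset.sum_insert ha, ih]; rfl

theorem cm_mul (M N : Matrix ι κ A) (M' N' : Matrix κ μ A) :
    cm M N * cm M' N' = cm (M * M' - N * N') (M * N' + N * M') := by
  refine Matrix.ext fun i j => ?_
  rw [Matrix.mul_apply]
  have h : ∀ l, cm M N i l * cm M' N' l j =
      (⟨M i l * M' l j - N i l * N' l j, M i l * N' l j + N i l * M' l j⟩ : CB A) := fun l => rfl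
  rw [Finset.sum_congr rfl fun l _ => h l, CB_sum]
  simp only [Finset.sum_sub_distrib, Finset.sum_add_distrib]
  rfl

theorem cm_conj (M N : Matrix ι κ A) : (cm M N).map CB.conj = cm M (-N) := rfl

theorem cm_ofR (M : Matrix ι κ A) : M.map CB.ofR = cm M 0 := rfl

theorem cm_alg (f : A →ₐ[ℝ] A') (M N : Matrix ι κ A) : (cm M N).map (CB.alg f) = cm (M.map f) (N.map f) := rfl

theorem cm_smul (r : ℝ) (M N : Matrix ι κ A) : r • cm M N = cm (r • M) (r • N) := rfl

theorem cm_congr {M N M' N' : Matrix ι κ A} (h : M = M') (h' : N = N') : cm M N = cm M' N' := by rw [h, h']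

/-- the `+i` part -/
def Wp (P J : Matrix ι ι A) : Matrix ι ι (CB A) := cm ((1 / 2 : ℝ) • P) (-((1 / 2 : ℝ) • J))

variable {P J : Matrix ι ι A}

theorem Wp_mul (hPP : P * P = P) (hPJ : P * J = J) (hJP : J * P = J) (hJJ : J * J = -P) : Wp P J * Wp P J = Wp P J := by
  rw [Wp, cm_mul]
  refine cm_congr ?_ ?_
  · simp only [neg_mul_neg, smul_mul_smul_comm, hPP, hJJ, smul_neg, sub_neg_eq_add]
    rw [← add_smul]
    norm_num
  · simp only [mul_neg, neg_mul, smul_mul_smul_comm, hPJ, hJP]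
    rw [← neg_add, ← add_smul]
    norm_num

theorem Wp_conj (hPP : P * P = P) (hPJ : P * J = J) (hJP : J * P = J) (hJJ : J * J = -P) :
    Wp P J * (Wp P J).map CB.conj = 0 := by
  rw [Wp, cm_conj, cm_mul, ← cm_zero]
  refine cm_congr ?_ ?_
  · simp only [neg_neg, neg_mul, smul_mul_smul_comm, hPP, hJJ, smul_neg]
    simp
  · simp only [neg_neg, neg_mul, smul_mul_smul_comm, hPJ, hJP]
    simp

theorem Wp_conj' (hPP : P * P = P) (hPJ : P * J = J) (hJP : J * P = J) (hJJ : J * J = -P) :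
    (Wp P J).map CB.conj * Wp P J = 0 := by
  rw [Wp, cm_conj, cm_mul, ← cm_zero]
  refine cm_congr ?_ ?_
  · simp only [neg_neg, mul_neg, smul_mul_smul_comm, hPP, hJJ, smul_neg]
    simp
  · simp only [neg_neg, mul_neg, smul_mul_smul_comm, hPJ, hJP]
    simp

theorem Wp_add (P J : Matrix ι ι A) : Wp P J + (Wp P J).map CB.conj = P.map CB.ofR := by
  rw [Wp, cm_conj, cm_add, cm_ofR]
  refine cm_congr ?_ ?_
  · rw [← add_smul]
    norm_num
  · simp

end pairs

/-! ### data on a plot space -/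

variable {X : Space}

/-- smooth pencils on a plot space, rotated by a circle action -/
structure WD (X : Space) (c : Circ X) (D : ℕ) where
  P : X.pt → Op D
  Q : X.pt → Op D
  A : X.pt → Op D
  B : X.pt → Op D
  smP : ∀ (k : ℕ) (p : X.Plot k), ContDiff ℝ ∞ fun z => P (p.1 z)
  smQ : ∀ (k : ℕ) (p : X.Plot k), ContDiff ℝ ∞ fun z => Q (p.1 z)
  smA : ∀ (k : ℕ) (p : X.Plot k), ContDiff ℝ ∞ fun z => A (p.1 z)
  smB : ∀ (k : ℕ) (p : X.Plot k), ContDiff ℝ ∞ fun z => B (p.1 z)
  dat : ∀ x, Dat (P x) (Q x) (A x) (B x)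
  invP : ∀ x s, P (c.a.1 (x, s)) = P x
  invQ : ∀ x s, Q (c.a.1 (x, s)) = Q x
  rotA : ∀ x s, A (c.a.1 (x, s)) = Bp (A x) (B x) (2 * Real.pi * s)
  rotB : ∀ x s, B (c.a.1 (x, s)) = Bd (A x) (B x) (2 * Real.pi * s)

/-- the matrix of a smooth operator function -/
def opM (T : X.pt → Op D) (h : ∀ (k : ℕ) (p : X.Plot k), ContDiff ℝ ∞ fun z => T (p.1 z)) :
    Matrix (Fin D) (Fin D) (SF X) :=
  mkM (fun x => mt (T x)) fun i j k p => (contDiff_mt i j).comp (h k p)

theorem opM_vl (T : X.pt → Op D) (h : ∀ (k : ℕ) (p : X.Plot k), ContDiff ℝ ∞ fun z => T (p.1 z)) (x : X.pt) :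
    (opM T h).map (vl x) = mt (T x) := rfl

theorem opM_congr {T T' : X.pt → Op D} {h : ∀ (k : ℕ) (p : X.Plot k), ContDiff ℝ ∞ fun z => T (p.1 z)}
    {h' : ∀ (k : ℕ) (p : X.Plot k), ContDiff ℝ ∞ fun z => T' (p.1 z)} (e : ∀ x, T x = T' x) : opM T h = opM T' h' :=
  SF_mat_ext fun x => by rw [opM_vl, opM_vl, e]

theorem opM_mul {S T U : X.pt → Op D} {hS : ∀ (k : ℕ) (p : X.Plot k), ContDiff ℝ ∞ fun z => S (p.1 z)}
    {hT : ∀ (k : ℕ) (p : X.Plot k), ContDiff ℝ ∞ fun z => T (p.1 z)}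
    {hU : ∀ (k : ℕ) (p : X.Plot k), ContDiff ℝ ∞ fun z => U (p.1 z)} (e : ∀ x, S x * T x = U x) :
    opM S hS * opM T hT = opM U hU :=
  SF_mat_ext fun x => by rw [Matrix.map_mul, opM_vl, opM_vl, opM_vl, ← mt_mul, e]

/-- matrices of invariant functions -/
def toSB {c : Circ X} {ι κ : Type*} (M : Matrix ι κ (SF X)) (h : ∀ i j, M i j ∈ SB c) : Matrix ι κ (SB c) :=
  fun i j => ⟨M i j, h i j⟩

theorem toSB_val {c : Circ X} {ι κ : Type*} (M : Matrix ι κ (SF X)) (h : ∀ i j, M i j ∈ SB c) :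
    (toSB M h).map (SB c).val = M := rfl

theorem SBm_inj {c : Circ X} {ι κ : Type*} {M N : Matrix ι κ (SB c)} (e : M.map (SB c).val = N.map (SB c).val) : M = N :=
  Matrix.ext fun i j => Subtype.ext (congrFun (congrFun e i) j)

theorem CSBm_inj {c : Circ X} {ι κ : Type*} {M N : Matrix ι κ (CB (SB c))}
    (e : M.map (CB.alg (SB c).val) = N.map (CB.alg (SB c).val)) : M = N := by
  refine Matrix.ext fun i j => ?_
  have h2 := congrFun (congrFun e i) j
  ext1
  · exact Subtype.ext (congrArg CB.re h2)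
  · exact Subtype.ext (congrArg CB.im h2)

/-- an invariant operator function -/
def opB {c : Circ X} (T : X.pt → Op D) (h : ∀ (k : ℕ) (p : X.Plot k), ContDiff ℝ ∞ fun z => T (p.1 z))
    (hi : ∀ x s, T (c.a.1 (x, s)) = T x) : Matrix (Fin D) (Fin D) (SB c) :=
  toSB (opM T h) fun i j x s => by
    show mt (T (c.a.1 (x, s))) i j = mt (T x) i j
    rw [hi]

end Pool.Agent.Lib.MP_ccbbf6_gt.L5.WK
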