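import Pool.Agent.Lib.MP_ccbbf6_gt.L5.WK2
import Pool.Agent.Lib.MP_ccbbf6_gt.L5.WK3

/-!
# Level 5, block WK, file 4 (helper79): the idempotents `W`, `W'` and the twisted isomorphism `a`, `b`

For `H : WD X c D` :
* `H.PM`, `H.QM` : real projections over `SB c`; `H.W`, `H.W'` over `CB (SB c)`:
  `W_W`, `W_conj`, `conj_W`, `W_add`, and the same for `W'`;
* `H.a`, `H.b` over `CB (SF X)` : `a_b : a * b = W'`, `b_a : b * a = W`,
  `a_rot : a (c_s x) = e^(2 π i s) a x`, `b_rot : b (c_s x) = e^(-2 π i s) b x`;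
* `H.rank_W`, `H.rank_W'` : twice the rank of `W` is the rank of `P`.
-/

set_option autoImplicit false
set_option maxSynthPendingDepth 3
set_option linter.unusedSectionVars false

open Set Filter Topology Matrix
open scoped ContDiff RealInnerProductSpace

noncomputable section

namespace Pool.Agent.Lib.MP_ccbbf6_gt.L5.WK

open L4 L4.FR

variable {D : ℕ} {X : Space} {c : Circ X}

namespace WD

variable (H : WD X c D)

/-- `J` -/
def J (x : X.pt) : Op D := Jm (H.A x) (H.B x) (Ci (H.P x) (H.A x) (H.B x))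
/-- `J'` -/
def J' (x : X.pt) : Op D := Jm' (H.A x) (H.B x) (Ci (H.P x) (H.A x) (H.B x))
/-- `S` -/
def S (x : X.pt) : Op D := Sm (H.A x) (H.B x) (Ci (H.P x) (H.A x) (H.B x))
/-- `T`, the inverse of `S` -/
def T (x : X.pt) : Op D := pinv (H.P x) (H.S x)

theorem fam (k : ℕ) (p : X.Plot k) :
    Fam (fun z => H.P (p.1 z)) (fun z => H.Q (p.1 z)) (fun z => H.A (p.1 z)) (fun z => H.B (p.1 z)) :=
  ⟨H.smP k p, H.smQ k p, H.smA k p, H.smB k p, fun z => H.dat _⟩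

theorem smJ (k : ℕ) (p : X.Plot k) : ContDiff ℝ ∞ fun z => H.J (p.1 z) := (H.fam k p).contDiff_J
theorem smJ' (k : ℕ) (p : X.Plot k) : ContDiff ℝ ∞ fun z => H.J' (p.1 z) := (H.fam k p).contDiff_J'
theorem smS (k : ℕ) (p : X.Plot k) : ContDiff ℝ ∞ fun z => H.S (p.1 z) := (H.fam k p).contDiff_S
theorem smT (k : ℕ) (p : X.Plot k) : ContDiff ℝ ∞ fun z => H.T (p.1 z) := (H.fam k p).contDiff_T

theorem invJ (x : X.pt) (s : ℝ) : H.J (c.a.1 (x, s)) = H.J x := by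
  rw [J, H.rotA, H.rotB, H.invP]
  exact (H.dat x).J_rot _

theorem invJ' (x : X.pt) (s : ℝ) : H.J' (c.a.1 (x, s)) = H.J' x := by
  rw [J', H.rotA, H.rotB, H.invP]
  exact (H.dat x).J'_rot _

theorem rotS (x : X.pt) (s : ℝ) : H.S (c.a.1 (x, s)) =
    H.S x * (Real.cos (2 * Real.pi * s) • H.P x + Real.sin (2 * Real.pi * s) • H.J x) := by
  rw [S, H.rotA, H.rotB, H.invP]
  exact (H.dat x).S_rot _

theorem rotT (x : X.pt) (s : ℝ) : H.T (c.a.1 (x, s)) =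
    (Real.cos (2 * Real.pi * s) • H.P x - Real.sin (2 * Real.pi * s) • H.J x) * H.T x := by
  rw [T, S, H.rotA, H.rotB, H.invP]
  exact (H.dat x).CS_rot _

theorem P_P (x : X.pt) : H.P x * H.P x = H.P x := (H.dat x).PP
theorem Q_Q (x : X.pt) : H.Q x * H.Q x = H.Q x := (H.dat x).QQ
theorem P_J (x : X.pt) : H.P x * H.J x = H.J x := (H.dat x).pen.P_J
theorem J_P (x : X.pt) : H.J x * H.P x = H.J x := (H.dat x).pen.J_P
theorem Q_J' (x : X.pt) : H.Q x * H.J' x = H.J' x := (H.dat x).pen.Q_J'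
theorem J'_Q (x : X.pt) : H.J' x * H.Q x = H.J' x := (H.dat x).pen.J'_Q
theorem J_J (x : X.pt) : H.J x * H.J x = -H.P x := (H.dat x).pen.J_sq
theorem J'_J' (x : X.pt) : H.J' x * H.J' x = -H.Q x := (H.dat x).pen.J'_sq
theorem S_P (x : X.pt) : H.S x * H.P x = H.S x := (H.dat x).pen.S_P
theorem Q_S (x : X.pt) : H.Q x * H.S x = H.S x := (H.dat x).pen.Q_S
theorem J'_S (x : X.pt) : H.J' x * H.S x = H.S x * H.J x := (H.dat x).pen.J'_S
theorem T_S (x : X.pt) : H.T x * H.S x = H.P x := (H.dat x).S_CS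
theorem S_T (x : X.pt) : H.S x * H.T x = H.Q x := (H.dat x).CS_S
theorem P_T (x : X.pt) : H.P x * H.T x = H.T x := (H.dat x).P_CS
theorem T_Q (x : X.pt) : H.T x * H.Q x = H.T x := (H.dat x).CS_Q
theorem T_J' (x : X.pt) : H.T x * H.J' x = H.J x * H.T x := (H.dat x).CS_J'

/-! #### matrices -/

/-- matrix of `P` -/
def PM : Matrix (Fin D) (Fin D) (SB c) := opB H.P H.smP H.invP
/-- matrix of `Q` -/
def QM : Matrix (Fin D) (Fin D) (SB c) := opB H.Q H.smQ H.invQ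
/-- matrix of `J` -/
def JM : Matrix (Fin D) (Fin D) (SB c) := opB H.J H.smJ H.invJ
/-- matrix of `J'` -/
def J'M : Matrix (Fin D) (Fin D) (SB c) := opB H.J' H.smJ' H.invJ'
/-- matrix of `P` -/
def PF : Matrix (Fin D) (Fin D) (SF X) := opM H.P H.smP
/-- matrix of `Q` -/
def QF : Matrix (Fin D) (Fin D) (SF X) := opM H.Q H.smQ
/-- matrix of `J` -/
def JF : Matrix (Fin D) (Fin D) (SF X) := opM H.J H.smJ
/-- matrix of `J'` -/
def J'F : Matrix (Fin D) (Fin D) (SF X) := opM H.J' H.smJ'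
/-- matrix of `S` -/
def SFm : Matrix (Fin D) (Fin D) (SF X) := opM H.S H.smS
/-- matrix of `T` -/
def TF : Matrix (Fin D) (Fin D) (SF X) := opM H.T H.smT

theorem PM_val : H.PM.map (SB c).val = H.PF := rfl
theorem QM_val : H.QM.map (SB c).val = H.QF := rfl
theorem JM_val : H.JM.map (SB c).val = H.JF := rfl
theorem J'M_val : H.J'M.map (SB c).val = H.J'F := rfl

theorem PF_PF : H.PF * H.PF = H.PF := opM_mul H.P_P
theorem QF_QF : H.QF * H.QF = H.QF := opM_mul H.Q_Q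
theorem PF_JF : H.PF * H.JF = H.JF := opM_mul H.P_J
theorem JF_PF : H.JF * H.PF = H.JF := opM_mul H.J_P
theorem QF_J'F : H.QF * H.J'F = H.J'F := opM_mul H.Q_J'
theorem J'F_QF : H.J'F * H.QF = H.J'F := opM_mul H.J'_Q
theorem SF_PF : H.SFm * H.PF = H.SFm := opM_mul H.S_P
theorem QF_SF : H.QF * H.SFm = H.SFm := opM_mul H.Q_S
theorem TF_SF : H.TF * H.SFm = H.PF := opM_mul H.T_S
theorem SF_TF : H.SFm * H.TF = H.QF := opM_mul H.S_T
theorem PF_TF : H.PF * H.TF = H.TF := opM_mul H.P_T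
theorem TF_QF : H.TF * H.QF = H.TF := opM_mul H.T_Q

theorem JF_JF : H.JF * H.JF = -H.PF :=
  SF_mat_ext fun x => by
    rw [Matrix.map_mul]
    show mt (H.J x) * mt (H.J x) = -mt (H.P x)
    rw [← mt_mul, H.J_J, mt_neg]

theorem J'F_J'F : H.J'F * H.J'F = -H.QF :=
  SF_mat_ext fun x => by
    rw [Matrix.map_mul]
    show mt (H.J' x) * mt (H.J' x) = -mt (H.Q x)
    rw [← mt_mul, H.J'_J', mt_neg]

theorem J'F_SF : H.J'F * H.SFm = H.SFm * H.JF :=
  SF_mat_ext fun x => by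
    rw [Matrix.map_mul, Matrix.map_mul]
    show mt (H.J' x) * mt (H.S x) = mt (H.S x) * mt (H.J x)
    rw [← mt_mul, ← mt_mul, H.J'_S]

theorem TF_J'F : H.TF * H.J'F = H.JF * H.TF :=
  SF_mat_ext fun x => by
    rw [Matrix.map_mul, Matrix.map_mul]
    show mt (H.T x) * mt (H.J' x) = mt (H.J x) * mt (H.T x)
    rw [← mt_mul, ← mt_mul, H.T_J']

theorem PM_PM : H.PM * H.PM = H.PM := SBm_inj (by rw [Matrix.map_mul]; exact H.PF_PF)
theorem QM_QM : H.QM * H.QM = H.QM := SBm_inj (by rw [Matrix.map_mul]; exact H.QF_QF)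
theorem PM_JM : H.PM * H.JM = H.JM := SBm_inj (by rw [Matrix.map_mul]; exact H.PF_JF)
theorem JM_PM : H.JM * H.PM = H.JM := SBm_inj (by rw [Matrix.map_mul]; exact H.JF_PF)
theorem QM_J'M : H.QM * H.J'M = H.J'M := SBm_inj (by rw [Matrix.map_mul]; exact H.QF_J'F)
theorem J'M_QM : H.J'M * H.QM = H.J'M := SBm_inj (by rw [Matrix.map_mul]; exact H.J'F_QF)
theorem JM_JM : H.JM * H.JM = -H.PM := SBm_inj (by rw [Matrix.map_mul]; exact H.JF_JF)
theorem J'M_J'M : H.J'M * H.J'M = -H.QM := SBm_inj (by rw [Matrix.map_mul]; exact H.J'F_J'F)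

theorem PM_sym : H.PMᵀ = H.PM := by
  refine SBm_inj (SF_mat_ext fun x => ?_)
  show (mt (H.P x))ᵀ = mt (H.P x)
  rw [← mt_adj, (H.dat x).sP]

theorem QM_sym : H.QMᵀ = H.QM := by
  refine SBm_inj (SF_mat_ext fun x => ?_)
  show (mt (H.Q x))ᵀ = mt (H.Q x)
  rw [← mt_adj, (H.dat x).sQ]

/-- `K^{1,0}` at the point `q` -/
def W : Matrix (Fin D) (Fin D) (CB (SB c)) := Wp H.PM H.JM
/-- `K^{1,0}` at the point `p` -/
def W' : Matrix (Fin D) (Fin D) (CB (SB c)) := Wp H.QM H.J'M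

theorem W_W : H.W * H.W = H.W := Wp_mul H.PM_PM H.PM_JM H.JM_PM H.JM_JM
theorem W'_W' : H.W' * H.W' = H.W' := Wp_mul H.QM_QM H.QM_J'M H.J'M_QM H.J'M_J'M
theorem W_conj : H.W * H.W.map CB.conj = 0 := Wp_conj H.PM_PM H.PM_JM H.JM_PM H.JM_JM
theorem W'_conj : H.W' * H.W'.map CB.conj = 0 := Wp_conj H.QM_QM H.QM_J'M H.J'M_QM H.J'M_J'M
theorem conj_W : H.W.map CB.conj * H.W = 0 := Wp_conj' H.PM_PM H.PM_JM H.JM_PM H.JM_JM
theorem conj_W' : H.W'.map CB.conj * H.W' = 0 := Wp_conj' H.QM_QM H.QM_J'M H.J'M_QM H.J'M_J'M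
theorem W_add : H.W + H.W.map CB.conj = H.PM.map CB.ofR := Wp_add _ _
theorem W'_add : H.W' + H.W'.map CB.conj = H.QM.map CB.ofR := Wp_add _ _

/-- the isomorphism `W → W'` -/
def a : Matrix (Fin D) (Fin D) (CB (SF X)) := cm ((1 / 2 : ℝ) • H.SFm) (-((1 / 2 : ℝ) • (H.SFm * H.JF)))
/-- the isomorphism `W' → W` -/
def b : Matrix (Fin D) (Fin D) (CB (SF X)) := cm ((1 / 2 : ℝ) • H.TF) (-((1 / 2 : ℝ) • (H.TF * H.J'F)))

/-- `W` over all functions -/
theorem W_alg : H.W.map (CB.alg (SB c).val) = Wp H.PF H.JF := rfl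
theorem W'_alg : H.W'.map (CB.alg (SB c).val) = Wp H.QF H.J'F := rfl

theorem a_b : H.a * H.b = H.W'.map (CB.alg (SB c).val) := by
  rw [a, b, W'_alg, Wp, cm_mul]
  have e1 : H.SFm * H.JF * H.TF = H.J'F := by rw [← H.J'F_SF, Matrix.mul_assoc, H.SF_TF, H.J'F_QF]
  have e2 : H.SFm * (H.TF * H.J'F) = H.J'F := by rw [← Matrix.mul_assoc, H.SF_TF, H.QF_J'F]
  have e3 : H.SFm * H.JF * (H.TF * H.J'F) = -H.QF := by rw [← Matrix.mul_assoc, e1, H.J'F_J'F]
  refine cm_congr ?_ ?_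
  · simp only [neg_mul_neg, smul_mul_smul_comm, H.SF_TF, e3, smul_neg, sub_neg_eq_add]
    rw [← add_smul]
    norm_num
  · simp only [mul_neg, neg_mul, smul_mul_smul_comm, e1, e2]
    rw [← neg_add, ← add_smul]
    norm_num

theorem b_a : H.b * H.a = H.W.map (CB.alg (SB c).val) := by
  rw [a, b, W_alg, Wp, cm_mul]
  have e1 : H.TF * H.J'F * H.SFm = H.JF := by rw [H.TF_J'F, Matrix.mul_assoc, H.TF_SF, H.JF_PF]
  have e2 : H.TF * (H.SFm * H.JF) = H.JF := by rw [← Matrix.mul_assoc, H.TF_SF, H.PF_JF]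
  have e3 : H.TF * H.J'F * (H.SFm * H.JF) = -H.PF := by rw [← Matrix.mul_assoc, e1, H.JF_JF]
  refine cm_congr ?_ ?_
  · simp only [neg_mul_neg, smul_mul_smul_comm, H.TF_SF, e3, smul_neg, sub_neg_eq_add]
    rw [← add_smul]
    norm_num
  · simp only [mul_neg, neg_mul, smul_mul_smul_comm, e1, e2]
    rw [← neg_add, ← add_smul]
    norm_num

end WD

end Pool.Agent.Lib.MP_ccbbf6_gt.L5.WK
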