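import Pool.Agent.Lib.MP_ccbbf6_gt.L5.NHa

/-!
# NC2: the tangent space of `{dist = π}`; the isometry `thK` (Level 5, block NEG)

PROOFS. For `w ≠ 0` in `PV (c 0) (vel c 0)`: `γ := gw c w` is the geodesic from `c 0` in the direction `w`, `γ π = c π` (`top_of_mem`).
`top_inner` (first variation): for a smooth family of geodesics `τ`, `τ 0 = c`, with `A`, `B` = velocities of `θ ↦ (τ θ).1 0`, `(τ θ).1 π`, and `w ∈ PV` with `‖w‖ = 1`: `dist ((τ θ).1 0) (γ (π/2)) + dist (γ (π/2)) ((τ θ).1 π) ≥ dist ((τ θ).1 0) ((τ θ).1 π) = π`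
 with equality at `θ = 0`: a minimum, so the derivative is zero (`IsLocalMin.hasDerivAt_eq_zero`); the derivative of `dist · (γ (π/2))` at `γ 0` along `A` is `-⟪w, A⟫` and of `dist (γ (π/2)) ·` at `γ π` along `B` is `⟪vel γ π, B⟫`
 (`dist_deriv` of L4/PO4 for suitable shifts/reversals of `γ`: it gives the derivative of the distance to `c (-1)`; use a shift of `γ` and `rev`; if the times `-1` disturb use `x = γ 1`, `γ (π - 1)` instead of `γ (π/2)`: any interior time works if both are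
 the same point; the general lemma: `deriv of dist (c.1 (-a)) ·` for `0 < a < π` is proved exactly like `dist_deriv`).
`exists_all`: every `B` is attained: for every `b : Eu n` there is a family `τ` with `B = b` (move the top point: `τ θ := ` shift by `-π` of the geodesic with foot `x θ` at time `π`, i.e. use `SmGAt.of_gg` with the points `(c (π/2)`... simpler: by symmetry take the family of geodesics
 with foot curve `x θ` through `c π` with velocity `b` and the parallel-ish direction `DD`-transported (`smGA_gw`), then `shift (-π)`).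
`thK_eq`: for `w ∈ PV`, `‖w‖ = 1`: put `θv w := 𝒜.vel (gw c w).1 π`. By `top_inner` `⟪θv w, B⟫ = ⟪w, A⟫`, so `w ↦ θv w` is additive and homogeneous in the sense: if `∑ r_i w_i = w` with all `w_i`, `w` unit vectors in `PV` then `∑ r_i θv w_i = θv w` (pair with all `B`).
 Hence `thK c w = ‖w‖ • θv (w/‖w‖)` for `w ∈ Kc` (`√(1+‖w‖²) • θv ((vel + w)/√..) = θv vel + ‖w‖ • θv (w/‖w‖)`), it is linear on `Kc`, and `top_inner` reads `⟪w, A⟫ = ⟪thK c w, B⟫` for `w ∈ Kc`, `⟪vel c 0, A⟫ = ⟪vel c π, B⟫`.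
`norm_thK`: norm of `θv` is `1`. `thK_mem`: `thK c w ∈ Kc (shift π c)`: `θv w` is the velocity at `0` of `shift π (gw c w)`, which has foot `c π` and top `c (2π)` (`mem_PV_of_top`); orthogonality to `vel c π`: polarisation (`θv` linear isometric) .
`thK_thK`: `shift π (gw c w)` for the unit vector `w` is `gw (shift π c) (θv w)`, its velocity at `π` is `vel (gw c w) (2π) = w`.
`exists_var`: LINEAR ALGEBRA: the set of pairs `(A, B)` of all smooth families is the range of a linear map `(a, b) ↦ (a, derivative)` on `Eu n × (vel c 0)^⊥` (families `τ θ := gw (.) (..)` with foot `(𝒜.ψ x0).symm (θ • a)` and direction `vel + θ • b` transported by `DD`), whose kernel is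
 `{0} × Kc` (`ker_X_PV`), so the range has dimension `2n - 1 - κ`; it is contained in the annihilator of the `κ + 1` independent conditions (`top_inner` for `vel` and for `Kc`), which has the same dimension.
`smV_thK`: `gw (σ v) (vel + w v)` is a smooth family (`smGA_gw`), its velocity at `π` is smooth (`SmGA.smV` of the shifted family), the factor is smooth (`SmV.inner`).
-/

set_option autoImplicit false
set_option linter.unusedSectionVars false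

open Set Filter Topology Metric Real Module
open scoped ContDiff RealInnerProductSpace

noncomputable section

namespace Pool.Agent.Lib.MP_ccbbf6_gt.L5.NEG

open Geo L4 L4.ORI

variable {n : ℕ} {M : Type*} [MetricSpace M] [CompactSpace M] {𝒜 : SDist n M}

/-- `(A, B)` = the velocities of the foot and of the top of a smooth family of geodesics through `c` -/
def IsVar (𝒜 : SDist n M) (c : Gs M) (A B : Eu n) : Prop :=
  ∃ τ : ℝ → Gs M, SmGAt 𝒜 τ 0 ∧ τ 0 = c ∧ HasDerivAt (fun θ => 𝒜.ψ (c.1 0) ((τ θ).1 0)) A 0 ∧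
    HasDerivAt (fun θ => 𝒜.ψ (c.1 π) ((τ θ).1 π)) B 0

/-- derivative of the distance to a point -/
theorem nc2_dist (hB : Bl M) {p q : M} (h0 : 0 < dist p q) (h1 : dist p q < π) {α : ℝ → M} {v : Eu n}
    (hα : ContinuousAt α 0) (hα0 : α 0 = p) (hv : HasDerivAt (fun t => 𝒜.ψ p (α t)) v 0) :
    HasDerivAt (fun t => dist q (α t)) (𝒜.D1 p q v) 0 := by
  have hf : ContDiffAt ℝ ∞ (𝒜.f p q) (0, 0) := contDiffAt_f 𝒜 hB h0 h1
  have h1 : ContDiffAt ℝ ∞ (fun u => 𝒜.f p q (u, 0)) 0 :=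
    ContDiffAt.comp (g := 𝒜.f p q) (f := fun u : Eu n => (u, (0 : Eu n))) 0 hf
      (contDiffAt_id.prodMk contDiffAt_const)
  have h2 : HasFDerivAt (fun u => 𝒜.f p q (u, 0)) (𝒜.D1 p q) 0 :=
    (h1.differentiableAt (by simp)).hasFDerivAt
  have h3 : HasDerivAt (fun t => 𝒜.f p q (𝒜.ψ p (α t), 0)) (𝒜.D1 p q v) 0 := by
    refine HasFDerivAt.comp_hasDerivAt (l := fun u => 𝒜.f p q (u, 0)) (f := fun t => 𝒜.ψ p (α t)) 0 ?_ hv
    rw [hα0, 𝒜.zero]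
    exact h2
  refine h3.congr_of_eventuallyEq ?_
  filter_upwards [hα.eventually ((𝒜.ψ p).open_source.mem_nhds (by rw [hα0]; exact 𝒜.mem _))] with t ht
  unfold SDist.f
  rw [(𝒜.ψ p).left_inv ht, sm_symm_zero, dist_comm]

theorem nc2_dist_eq (c : Gs M) {a b : ℝ} (h : |a - b| ≤ π) : dist (c.1 a) (c.1 b) = |a - b| := c.2 a b h

theorem nc2_gw_self (hB : Bl M) (c : Gs M) : gw 𝒜 hB c (𝒜.vel c.1 0) = c :=
  eq_of_vel' 𝒜 (gw_zero 𝒜 hB c _) (by rw [gw_vel 𝒜 hB c (vel_ne 𝒜 c), nrm_of_norm (vel_norm 𝒜 c)])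

theorem nc2_nrm_ne {w : Eu n} (hw : w ≠ 0) : nrm w ≠ 0 := by
  intro h
  have h1 := norm_nrm hw
  rw [h, norm_zero] at h1
  exact zero_ne_one h1

theorem nc2_gw_nrm (hB : Bl M) (c : Gs M) {w : Eu n} (hw : w ≠ 0) : gw 𝒜 hB c (nrm w) = gw 𝒜 hB c w :=
  eq_of_vel' 𝒜 (by rw [gw_zero, gw_zero]) (by
    rw [gw_vel 𝒜 hB c hw, gw_vel 𝒜 hB c (nc2_nrm_ne hw), nrm_of_norm (norm_nrm hw)])

theorem nc2_smul_nrm {w : Eu n} (hw : w ≠ 0) : ‖w‖ • nrm w = w := by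
  unfold nrm
  rw [smul_smul, mul_inv_cancel₀ (norm_ne_zero_iff.mpr hw), one_smul]

/-- the velocity of the shifted geodesic -/
theorem nc2_vel_shift (c : Gs M) (a s : ℝ) : 𝒜.vel (shift a c).1 s = 𝒜.vel c.1 (s + a) :=
  vel_shift 𝒜 (c := c.1) a s

theorem nc2_vel_per (hB : Bl M) (c : Gs M) : 𝒜.vel c.1 (2 * π) = 𝒜.vel c.1 0 := by
  have h1 := vel_shift 𝒜 (c := c.1) (2 * π) 0
  have h2 : (fun t => c.1 (t + 2 * π)) = c.1 := by
    funext t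
    exact c.2.closed 𝒜 hB t
  rw [h2, zero_add] at h1
  exact h1.symm

theorem nc2_add_norm {c : Gs M} {w : Eu n} (hw : w ∈ Kc 𝒜 c) : ‖𝒜.vel c.1 0 + w‖ ^ 2 = 1 + ‖w‖ ^ 2 := by
  rw [norm_add_sq_real, (mem_Kc_iff.1 hw).2, vel_norm 𝒜 c]
  ring

theorem nc2_add_ne {c : Gs M} {w : Eu n} (hw : w ∈ Kc 𝒜 c) : 𝒜.vel c.1 0 + w ≠ 0 := by
  intro h
  have h1 := nc2_add_norm hw
  rw [h, norm_zero] at h1
  nlinarith [sq_nonneg ‖w‖]

theorem nc2_sqrt {c : Gs M} {w : Eu n} (hw : w ∈ Kc 𝒜 c) : √(1 + ‖w‖ ^ 2) = ‖𝒜.vel c.1 0 + w‖ := by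
  rw [← nc2_add_norm hw, Real.sqrt_sq (norm_nonneg _)]

theorem nc2_add_mem (hB : Bl M) {c : Gs M} {w : Eu n} (hw : w ∈ Kc 𝒜 c) :
    𝒜.vel c.1 0 + w ∈ 𝒜.PV (c.1 0) (𝒜.vel c.1 0) :=
  Submodule.add_mem _ (mem_PV_self 𝒜 hB _ _) (mem_Kc_iff.1 hw).1

/-- first variation -/
theorem top_inner (hB : Bl M) {c : Gs M} {A B : Eu n} (h : IsVar 𝒜 c A B) {w : Eu n} (hw : w ∈ 𝒜.PV (c.1 0) (𝒜.vel c.1 0)) (h1 : ‖w‖ = 1) :
    ⟪w, A⟫ = ⟪𝒜.vel (gw 𝒜 hB c w).1 π, B⟫ := by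
  obtain ⟨τ, hτ, hτ0, hA, hBd⟩ := h
  have hπ := Real.pi_pos
  have hw0 : w ≠ 0 := by
    intro h0
    rw [h0, norm_zero] at h1
    exact zero_ne_one h1
  obtain ⟨g, hg⟩ : ∃ g, g = gw 𝒜 hB c w := ⟨_, rfl⟩
  have hg0 : g.1 0 = c.1 0 := by rw [hg]; exact gw_zero 𝒜 hB c w
  have hgv : 𝒜.vel g.1 0 = w := by rw [hg, gw_vel 𝒜 hB c hw0, nrm_of_norm h1]
  have hgπ : g.1 π = c.1 π := by rw [hg]; exact top_of_mem 𝒜 hB c hw0 hw
  have a1 : |(0 : ℝ) - π / 2| = π / 2 := by rw [zero_sub, abs_neg, abs_of_pos (by positivity)]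
  have a2 : |π - π / 2| = π / 2 := by rw [sub_half, abs_of_pos (by positivity)]
  have a3 : |(0 : ℝ) - π| = π := by rw [zero_sub, abs_neg, abs_of_pos hπ]
  have hd1 : dist (g.1 0) (g.1 (π / 2)) = π / 2 := by rw [nc2_dist_eq g (by rw [a1]; linarith), a1]
  have hd2 : dist (g.1 π) (g.1 (π / 2)) = π / 2 := by rw [nc2_dist_eq g (by rw [a2]; linarith), a2]
  have c0 : ContinuousAt (fun θ => (τ θ).1 0) 0 := hτ.1.1
  have c1 : ContinuousAt (fun θ => (τ θ).1 π) 0 := (hτ.ev hB (t := fun _ => π) contDiffAt_const).1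
  have e1 : HasDerivAt (fun θ => dist (g.1 (π / 2)) ((τ θ).1 0)) (-⟪w, A⟫) 0 := by
    have h2 := nc2_dist (𝒜 := 𝒜) hB (p := g.1 0) (q := g.1 (π / 2)) (by rw [hd1]; positivity) (by rw [hd1]; linarith) c0
      (by rw [hτ0, hg0]) (by rw [hg0]; exact hA)
    have h3 := D1_forward 𝒜 hB g.2 (s := 0) (t := π / 2) (by positivity) (by linarith) A
    rw [zero_add] at h3
    rw [h3, hgv] at h2
    exact h2
  have e2 : HasDerivAt (fun θ => dist (g.1 (π / 2)) ((τ θ).1 π)) ⟪𝒜.vel g.1 π, B⟫ 0 := by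
    have h2 := nc2_dist (𝒜 := 𝒜) hB (p := g.1 π) (q := g.1 (π / 2)) (by rw [hd2]; positivity) (by rw [hd2]; linarith) c1
      (by rw [hτ0, hgπ]) (by rw [hgπ]; exact hBd)
    have h3 := D1_backward 𝒜 hB g.2 (s := π) (t := π / 2) (by positivity) (by linarith) B
    rw [sub_half] at h3
    rw [h3] at h2
    exact h2
  have hmin : IsLocalMin (fun θ => dist (g.1 (π / 2)) ((τ θ).1 0) + dist (g.1 (π / 2)) ((τ θ).1 π)) 0 := by
    refine Filter.Eventually.of_forall fun θ => ?_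
    show dist (g.1 (π / 2)) ((τ 0).1 0) + dist (g.1 (π / 2)) ((τ 0).1 π) ≤
      dist (g.1 (π / 2)) ((τ θ).1 0) + dist (g.1 (π / 2)) ((τ θ).1 π)
    rw [hτ0, ← hg0, ← hgπ, dist_comm (g.1 (π / 2)) (g.1 0), dist_comm (g.1 (π / 2)) (g.1 π), hd1, hd2]
    have h4 := dist_triangle ((τ θ).1 0) (g.1 (π / 2)) ((τ θ).1 π)
    rw [nc2_dist_eq (τ θ) (by rw [a3]), a3, dist_comm ((τ θ).1 0)] at h4
    linarith
  have h5 := hmin.hasDerivAt_eq_zero (e1.add e2)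
  rw [← hg]
  linarith

theorem exists_all (hB : Bl M) (c : Gs M) (B : Eu n) : ∃ A, IsVar 𝒜 c A B := by
  have hne : Nonempty (Gs M) := ⟨c⟩
  have hπ := Real.pi_pos
  obtain ⟨x, hxdef⟩ : ∃ x : ℝ → M, x = fun θ => (𝒜.ψ (c.1 π)).symm (θ • B) := ⟨_, rfl⟩
  have hx : SmAt 𝒜 x 0 := by
    rw [hxdef]
    refine smAt_symm (p := c.1 π) (f := fun θ : ℝ => θ • B) (contDiffAt_id.smul contDiffAt_const) ?_
    simp only [zero_smul]
    exact sm_zero_mem 𝒜 _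
  have hx0 : x 0 = c.1 π := by
    rw [hxdef]
    simp only [zero_smul]
    exact sm_symm_zero 𝒜 _
  have hd : dist (c.1 π) (c.1 (π + π / 2)) = π / 2 := gs_dist c π
  obtain ⟨σ, hσdef⟩ : ∃ σ : ℝ → Gs M, σ = fun θ => gg (x θ) (c.1 (π + π / 2)) := ⟨_, rfl⟩
  have hσ : SmGAt 𝒜 σ 0 := by
    rw [hσdef]
    refine SmGAt.of_gg hB (x := x) (y := fun _ => c.1 (π + π / 2)) hx (smAt_const _ _) ?_ ?_
    · rw [hx0, hd]; positivity
    · rw [hx0, hd]; linarith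
  have hσ0 : σ 0 = shift π c := by
    rw [hσdef]
    show gg (x 0) (c.1 (π + π / 2)) = shift π c
    rw [hx0]
    have h4 := (gd_spec 𝒜 hB (p := c.1 π) (q := c.1 (π + π / 2)) (dist_pos.mp (by rw [hd]; positivity))).1
    unfold gg
    rw [dif_pos h4]
    apply Subtype.ext
    funext t
    show gd (c.1 π) (c.1 (π + π / 2)) t = c.1 (t + π)
    rw [gs_gd 𝒜 c π (t + π), add_sub_cancel_right]
  have hσf : ∀ᶠ θ in 𝓝 (0 : ℝ), (σ θ).1 0 = x θ := by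
    have hc : ContinuousAt (fun θ => dist (x θ) (c.1 (π + π / 2))) 0 := hx.1.dist continuousAt_const
    have h2 : ∀ᶠ θ in 𝓝 (0 : ℝ), 0 < dist (x θ) (c.1 (π + π / 2)) :=
      hc.eventually (lt_mem_nhds (by show 0 < dist (x 0) (c.1 (π + π / 2)); rw [hx0, hd]; positivity))
    filter_upwards [h2] with θ hθ
    have h4 := gd_spec 𝒜 hB (dist_pos.mp hθ)
    rw [hσdef]
    show (gg (x θ) (c.1 (π + π / 2))).1 0 = x θ
    unfold gg
    rw [dif_pos h4.1]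
    exact h4.2.1
  obtain ⟨τ, hτdef⟩ : ∃ τ : ℝ → Gs M, τ = fun θ => shift (-π) (σ θ) := ⟨_, rfl⟩
  have hτ : SmGAt 𝒜 τ 0 := by
    rw [hτdef]
    exact hσ.shift hB (r := fun _ => -π) contDiffAt_const
  have hτ0 : τ 0 = c := by
    rw [hτdef]
    show shift (-π) (σ 0) = c
    rw [hσ0]
    apply Subtype.ext
    funext t
    show c.1 (t + -π + π) = c.1 t
    rw [neg_add_cancel_right]
  have hτ1 : ∀ θ, (τ θ).1 π = (σ θ).1 0 := by
    intro θ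
    rw [hτdef]
    show (σ θ).1 (π + -π) = (σ θ).1 0
    rw [add_neg_cancel]
  refine ⟨deriv (fun θ => 𝒜.ψ (c.1 0) ((τ θ).1 0)) 0, τ, hτ, hτ0, ?_, ?_⟩
  · have h1 := hτ.1.2
    simp only [hτ0] at h1
    exact (h1.differentiableAt (by simp)).hasDerivAt
  · have h1 : HasDerivAt (fun θ : ℝ => θ • B) B 0 := by
      have := (hasDerivAt_id (0 : ℝ)).smul_const B
      rwa [one_smul] at this
    refine h1.congr_of_eventuallyEq ?_
    have h2 : ∀ᶠ θ in 𝓝 (0 : ℝ), θ • B ∈ (𝒜.ψ (c.1 π)).target := by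
      refine h1.continuousAt.eventually ((𝒜.ψ (c.1 π)).open_target.mem_nhds ?_)
      show (0 : ℝ) • B ∈ (𝒜.ψ (c.1 π)).target
      rw [zero_smul]
      exact sm_zero_mem 𝒜 _
    filter_upwards [hσf, h2] with θ h3 h4
    rw [hτ1, h3, hxdef]
    exact (𝒜.ψ (c.1 π)).right_inv h4

theorem var_vel (hB : Bl M) {c : Gs M} {A B : Eu n} (h : IsVar 𝒜 c A B) : ⟪𝒜.vel c.1 0, A⟫ = ⟪𝒜.vel c.1 π, B⟫ := by
  have h1 := top_inner hB h (mem_PV_self 𝒜 hB _ _) (vel_norm 𝒜 c)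
  rw [nc2_gw_self hB c] at h1
  exact h1

theorem nc2_inner (hB : Bl M) {c : Gs M} {A B : Eu n} (h : IsVar 𝒜 c A B) {w : Eu n} (hw : w ∈ Kc 𝒜 c) :
    ⟪w, A⟫ = ⟪thK 𝒜 hB c w, B⟫ := by
  have h0 := nc2_add_ne hw
  have h1 := top_inner hB h (w := nrm (𝒜.vel c.1 0 + w)) (Submodule.smul_mem _ _ (nc2_add_mem hB hw)) (norm_nrm h0)
  rw [nc2_gw_nrm hB c h0] at h1
  have h2 := var_vel hB h
  unfold thK
  rw [nc2_sqrt hw, inner_sub_left, real_inner_smul_left, ← h1, ← h2, ← real_inner_smul_left, nc2_smul_nrm h0,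
    inner_add_left, add_sub_cancel_left]

theorem thK_unit (hB : Bl M) {c : Gs M} {w : Eu n} (hw : w ∈ Kc 𝒜 c) (h1 : ‖w‖ = 1) :
    thK 𝒜 hB c w = 𝒜.vel (gw 𝒜 hB c w).1 π := by
  refine ext_inner_right ℝ fun B => ?_
  obtain ⟨A, hA⟩ := exists_all (𝒜 := 𝒜) hB c B
  rw [← nc2_inner hB hA hw]
  exact top_inner hB hA (mem_Kc_iff.1 hw).1 h1

theorem thK_inner (hB : Bl M) {c : Gs M} {A B : Eu n} (h : IsVar 𝒜 c A B) {w : Eu n} (hw : w ∈ Kc 𝒜 c) :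
    ⟪w, A⟫ = ⟪thK 𝒜 hB c w, B⟫ := by
  exact nc2_inner hB h hw

theorem thK_add (hB : Bl M) {c : Gs M} {w w' : Eu n} (hw : w ∈ Kc 𝒜 c) (hw' : w' ∈ Kc 𝒜 c) :
    thK 𝒜 hB c (w + w') = thK 𝒜 hB c w + thK 𝒜 hB c w' := by
  refine ext_inner_right ℝ fun B => ?_
  obtain ⟨A, hA⟩ := exists_all (𝒜 := 𝒜) hB c B
  rw [inner_add_left, ← thK_inner hB hA hw, ← thK_inner hB hA hw', ← thK_inner hB hA (Submodule.add_mem _ hw hw'),
    inner_add_left]

theorem thK_smul (hB : Bl M) {c : Gs M} (r : ℝ) {w : Eu n} (hw : w ∈ Kc 𝒜 c) : thK 𝒜 hB c (r • w) = r • thK 𝒜 hB c w := by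
  refine ext_inner_right ℝ fun B => ?_
  obtain ⟨A, hA⟩ := exists_all (𝒜 := 𝒜) hB c B
  rw [real_inner_smul_left, ← thK_inner hB hA hw, ← thK_inner hB hA (Submodule.smul_mem _ r hw), real_inner_smul_left]

theorem nc2_thK_zero (hB : Bl M) (c : Gs M) : thK 𝒜 hB c 0 = 0 := by
  have h1 := thK_smul (𝒜 := 𝒜) hB (c := c) 0 (Submodule.zero_mem (Kc 𝒜 c))
  rw [zero_smul, zero_smul] at h1
  exact h1

theorem nc2_thK_eq (hB : Bl M) {c : Gs M} {w : Eu n} (hw : w ∈ Kc 𝒜 c) (h0 : w ≠ 0) :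
    thK 𝒜 hB c w = ‖w‖ • 𝒜.vel (gw 𝒜 hB c (nrm w)).1 π := by
  have hu : nrm w ∈ Kc 𝒜 c := Submodule.smul_mem _ _ hw
  rw [← thK_unit hB hu (norm_nrm h0), ← thK_smul hB _ hu, nc2_smul_nrm h0]

theorem nc2_norm (hB : Bl M) {c : Gs M} {w : Eu n} (hw : w ∈ Kc 𝒜 c) : ‖thK 𝒜 hB c w‖ = ‖w‖ := by
  by_cases h0 : w = 0
  · rw [h0, nc2_thK_zero hB c]
  · rw [nc2_thK_eq hB hw h0, norm_smul, norm_norm, (IsGeo.exists_vel 𝒜 (gw 𝒜 hB c (nrm w)).2 π).1, mul_one]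

theorem nc2_norm_add (hB : Bl M) (c : Gs M) (w : Eu n) :
    ‖thK 𝒜 hB c w + 𝒜.vel c.1 π‖ ^ 2 = 1 + ‖w‖ ^ 2 := by
  unfold thK
  rw [sub_add_cancel, norm_smul, (IsGeo.exists_vel 𝒜 (gw 𝒜 hB c (𝒜.vel c.1 0 + w)).2 π).1, mul_one, Real.norm_eq_abs,
    sq_abs, Real.sq_sqrt (by positivity)]

theorem thK_mem (hB : Bl M) {c : Gs M} {w : Eu n} (hw : w ∈ Kc 𝒜 c) : thK 𝒜 hB c w ∈ Kc 𝒜 (shift π c) := by
  rw [mem_Kc_iff]
  have e0 : (shift π c).1 0 = c.1 π := by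
    show c.1 (0 + π) = c.1 π
    rw [zero_add]
  have e1 : 𝒜.vel (shift π c).1 0 = 𝒜.vel c.1 π := by rw [nc2_vel_shift, zero_add]
  refine ⟨?_, ?_⟩
  · by_cases h0 : w = 0
    · rw [h0, nc2_thK_zero hB c]
      exact Submodule.zero_mem _
    · rw [nc2_thK_eq hB hw h0]
      refine Submodule.smul_mem _ _ ?_
      have hm : nrm w ∈ 𝒜.PV (c.1 0) (𝒜.vel c.1 0) := Submodule.smul_mem _ _ (mem_Kc_iff.1 hw).1
      have h2 := mem_PV_of_top 𝒜 hB (c := shift π c) (c' := shift π (gw 𝒜 hB c (nrm w)))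
        (by
          show (gw 𝒜 hB c (nrm w)).1 (0 + π) = c.1 (0 + π)
          rw [zero_add, top_of_mem 𝒜 hB c (nc2_nrm_ne h0) hm])
        (by
          show (gw 𝒜 hB c (nrm w)).1 (π + π) = c.1 (π + π)
          have h3 := (gw 𝒜 hB c (nrm w)).2.closed 𝒜 hB 0
          have h4 := c.2.closed 𝒜 hB 0
          rw [← two_mul, ← zero_add (2 * π), h3, h4, gw_zero])
      rw [nc2_vel_shift (gw 𝒜 hB c (nrm w)), zero_add] at h2
      exact h2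
  · rw [e1]
    have h1 := nc2_norm_add (𝒜 := 𝒜) hB c w
    rw [norm_add_sq_real, nc2_norm hB hw, (IsGeo.exists_vel 𝒜 c.2 π).1] at h1
    rw [real_inner_comm]
    linarith

theorem norm_thK (hB : Bl M) {c : Gs M} {w : Eu n} (hw : w ∈ Kc 𝒜 c) : ‖thK 𝒜 hB c w‖ = ‖w‖ := by
  by_cases h0 : w = 0
  · rw [h0, nc2_thK_zero hB c]
  · rw [nc2_thK_eq hB hw h0, norm_smul, norm_norm, (IsGeo.exists_vel 𝒜 (gw 𝒜 hB c (nrm w)).2 π).1, mul_one]

theorem thK_thK (hB : Bl M) {c : Gs M} {w : Eu n} (hw : w ∈ Kc 𝒜 c) : thK 𝒜 hB (shift π c) (thK 𝒜 hB c w) = w := by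
  by_cases h0 : w = 0
  · rw [h0, nc2_thK_zero hB c, nc2_thK_zero hB (shift π c)]
  · have hu : nrm w ∈ Kc 𝒜 c := Submodule.smul_mem _ _ hw
    have hn := norm_nrm h0
    have h1 : thK 𝒜 hB (shift π c) (thK 𝒜 hB c (nrm w)) = nrm w := by
      have hv : 𝒜.vel (shift π (gw 𝒜 hB c (nrm w))).1 0 = thK 𝒜 hB c (nrm w) := by
        rw [thK_unit hB hu hn, nc2_vel_shift, zero_add]
      have hn' : ‖thK 𝒜 hB c (nrm w)‖ = 1 := by rw [norm_thK hB hu, hn]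
      have hne : thK 𝒜 hB c (nrm w) ≠ 0 := by
        intro h
        rw [h, norm_zero] at hn'
        exact zero_ne_one hn'
      rw [thK_unit hB (thK_mem hB hu) hn']
      have hg : gw 𝒜 hB (shift π c) (thK 𝒜 hB c (nrm w)) = shift π (gw 𝒜 hB c (nrm w)) := by
        refine eq_of_vel' 𝒜 ?_ ?_
        · rw [gw_zero]
          show c.1 (0 + π) = (gw 𝒜 hB c (nrm w)).1 (0 + π)
          rw [zero_add, top_of_mem 𝒜 hB c (nc2_nrm_ne h0) (mem_Kc_iff.1 hu).1]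
        · rw [gw_vel 𝒜 hB _ hne, nrm_of_norm hn', hv]
      rw [hg, nc2_vel_shift]
      have h3 := nc2_vel_per (𝒜 := 𝒜) hB (gw 𝒜 hB c (nrm w))
      rw [← two_mul, h3, gw_vel 𝒜 hB c (nc2_nrm_ne h0), nrm_of_norm hn]
    have h2 : thK 𝒜 hB c w = ‖w‖ • thK 𝒜 hB c (nrm w) := by
      conv_lhs => rw [← nc2_smul_nrm h0]
      exact thK_smul hB _ hu
    rw [h2, thK_smul hB _ (thK_mem hB hu), h1, nc2_smul_nrm h0]

theorem inner_thK (hB : Bl M) {c : Gs M} {w w' : Eu n} (hw : w ∈ Kc 𝒜 c) (hw' : w' ∈ Kc 𝒜 c) :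
    ⟪thK 𝒜 hB c w, thK 𝒜 hB c w'⟫ = ⟪w, w'⟫ := by
  have h1 := norm_add_sq_real (thK 𝒜 hB c w) (thK 𝒜 hB c w')
  rw [← thK_add hB hw hw', norm_thK hB (Submodule.add_mem _ hw hw'), norm_thK hB hw, norm_thK hB hw',
    norm_add_sq_real] at h1
  linarith

theorem smV_thK (hB : Bl M) {F : Type*} [NormedAddCommGroup F] [NormedSpace ℝ F] {σ : F → Gs M} {u : F}
    (hσ : SmGAt 𝒜 σ u) {p q : M} (hp : (σ u).1 0 ∈ (𝒜.ψ p).source) (hq : (σ u).1 π ∈ (𝒜.ψ q).source) {w : F → Eu n}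
    (hw : SmV 𝒜 p (fun v => (σ v).1 0) w u) (hK : ∀ᶠ v in 𝓝 u, w v ∈ Kc 𝒜 (σ v)) :
    SmV 𝒜 q (fun v => (σ v).1 π) (fun v => thK 𝒜 hB (σ v) (w v)) u := by
  have hσA : SmGA 𝒜 σ u := hσ
  have hvel : SmV 𝒜 p (fun v => (σ v).1 0) (fun v => 𝒜.vel (σ v).1 0) u := hσA.smV hB hp
  have hsum : SmV 𝒜 p (fun v => (σ v).1 0) (fun v => 𝒜.vel (σ v).1 0 + w v) u := hvel.add hw
  have hKu : w u ∈ Kc 𝒜 (σ u) := hK.self_of_nhds
  have hfam : SmGA 𝒜 (fun v => gw 𝒜 hB (σ v) (𝒜.vel (σ v).1 0 + w v)) u :=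
    smGA_gw hB (w := fun v => 𝒜.vel (σ v).1 0 + w v) hσ.1 hp hsum (nc2_add_ne hKu)
  have htop : ∀ᶠ v in 𝓝 u, (gw 𝒜 hB (σ v) (𝒜.vel (σ v).1 0 + w v)).1 π = (σ v).1 π := by
    filter_upwards [hK] with v hv
    exact top_of_mem 𝒜 hB _ (nc2_add_ne hv) (nc2_add_mem hB hv)
  have hfam' : SmGAt 𝒜 (fun v => gw 𝒜 hB (σ v) (𝒜.vel (σ v).1 0 + w v)) u := hfam
  have hsh : SmGA 𝒜 (fun v => shift π (gw 𝒜 hB (σ v) (𝒜.vel (σ v).1 0 + w v))) u :=
    hfam'.shift hB (r := fun _ => π) contDiffAt_const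
  have hsh' : SmGA 𝒜 (fun v => shift π (σ v)) u := hσ.shift hB (r := fun _ => π) contDiffAt_const
  have h1 : SmV 𝒜 q (fun v => (shift π (gw 𝒜 hB (σ v) (𝒜.vel (σ v).1 0 + w v))).1 0)
      (fun v => 𝒜.vel (shift π (gw 𝒜 hB (σ v) (𝒜.vel (σ v).1 0 + w v))).1 0) u := by
    refine hsh.smV hB ?_
    show (gw 𝒜 hB (σ u) (𝒜.vel (σ u).1 0 + w u)).1 (0 + π) ∈ _
    rw [zero_add, htop.self_of_nhds]
    exact hq
  have h2 : SmV 𝒜 q (fun v => (shift π (σ v)).1 0) (fun v => 𝒜.vel (shift π (σ v)).1 0) u := by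
    refine hsh'.smV hB ?_
    show (σ u).1 (0 + π) ∈ _
    rw [zero_add]
    exact hq
  have h1' : ContDiffAt ℝ ∞ (fun v => CC 𝒜 q ((σ v).1 π) (𝒜.vel (gw 𝒜 hB (σ v) (𝒜.vel (σ v).1 0 + w v)).1 π)) u := by
    refine ContDiffAt.congr_of_eventuallyEq h1 ?_
    filter_upwards [htop] with v hv
    rw [nc2_vel_shift, zero_add]
    show _ = CC 𝒜 q ((gw 𝒜 hB (σ v) (𝒜.vel (σ v).1 0 + w v)).1 (0 + π)) _
    rw [zero_add, hv]
  have h2' : ContDiffAt ℝ ∞ (fun v => CC 𝒜 q ((σ v).1 π) (𝒜.vel (σ v).1 π)) u := by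
    refine ContDiffAt.congr_of_eventuallyEq h2 ?_
    filter_upwards with v
    rw [nc2_vel_shift, zero_add]
    show _ = CC 𝒜 q ((σ v).1 (0 + π)) _
    rw [zero_add]
  have h3 : ContDiffAt ℝ ∞ (fun v => √(1 + ‖w v‖ ^ 2)) u := by
    have h4 : ContDiffAt ℝ ∞ (fun v => ⟪w v, w v⟫) u := SmV.inner hσ.1 hp hw hw
    have h5 : (fun v => √(1 + ‖w v‖ ^ 2)) = fun v => √(1 + ⟪w v, w v⟫) := by
      funext v
      rw [real_inner_self_eq_norm_sq]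
    rw [h5]
    refine (contDiffAt_const.add h4).sqrt ?_
    rw [real_inner_self_eq_norm_sq]
    positivity
  unfold SmV thK
  simp only [map_sub, map_smul]
  exact (h3.smul h1').sub h2'

end Pool.Agent.Lib.MP_ccbbf6_gt.L5.NEG
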