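import Pool.Agent.Lib.MP_ccbbf6_gt.L4.CO0
import Pool.Agent.Lib.MP_ccbbf6_gt.L5.G3b
import Pool.Agent.Lib.MP_ccbbf6_gt.L5.NC2

/-!
# Level 5, G3S (helper78): the derivative `Sc c` of the exponential map at the conjugate point `c π`

`Sc c : T_(c 0) M → T_(c π) M` has kernel `Vc c` and range `Nc (shift π c)`; it is smooth in `c`.
-/

set_option autoImplicit false
set_option linter.unusedSectionVars false

open Set Filter Topology Metric Real Module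
open scoped ContDiff RealInnerProductSpace

noncomputable section

namespace Pool.Agent.Lib.MP_ccbbf6_gt.L5.G3

open Geo L4 L4.ORI

variable {n : ℕ} {M : Type*} [MetricSpace M] [CompactSpace M] {𝒜 : SDist n M}

/-- the derivative of the exponential map `T_(c 0) M → M` at `π vel c` -/
def Sc (𝒜 : SDist n M) (c : Gs M) : Eu n →L[ℝ] Eu n := fderiv ℝ (𝒜.X (c.1 0) (c.1 π) π) (𝒜.vel c.1 0)

theorem top_mem (hB : Bl M) (c : Gs M) {q0 : M} (hq : c.1 π ∈ (𝒜.ψ q0).source) :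
    𝒜.Ex (c.1 0) (rad π (𝒜.vel c.1 0)) ∈ (𝒜.ψ q0).source := by
  rw [← gs_Ex 𝒜 hB]; exact hq

theorem Sc_V (hB : Bl M) {c : Gs M} {x : Eu n} (hx : x ∈ Vc 𝒜 c) : Sc 𝒜 c x = 0 :=
  fderiv_X_PV 𝒜 hB (vel_ne 𝒜 _) (top_mem hB c (𝒜.mem _)) hx

theorem V_of_Sc (hB : Bl M) {κ : ℕ} (hk : 𝒜.HK κ) {c : Gs M} {x : Eu n} (hx : Sc 𝒜 c x = 0) : x ∈ Vc 𝒜 c :=
  ker_X_PV 𝒜 hB hk (vel_ne 𝒜 _) (top_mem hB c (𝒜.mem _)) hx

/-- the derivative in another chart, at any nonzero vector -/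
theorem fderiv_X_chart (hB : Bl M) {p q q0 : M} {w : Eu n} (hw : w ≠ 0) (h1 : 𝒜.Ex p (rad π w) = q)
    (hq : q ∈ (𝒜.ψ q0).source) (x : Eu n) :
    CC 𝒜 q0 q (fderiv ℝ (𝒜.X p q π) w x) = fderiv ℝ (𝒜.X p q0 π) w x := by
  have hs0 : 𝒜.Ex p (rad π w) ∈ (𝒜.ψ q).source := by rw [h1]; exact 𝒜.mem _
  have hs1 : 𝒜.Ex p (rad π w) ∈ (𝒜.ψ q0).source := by rw [h1]; exact hq
  have hX : ContDiffAt ℝ ∞ (𝒜.X p q π) w := contDiffAt_X 𝒜 hB p q π hw hs0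
  have hX0 : ContDiffAt ℝ ∞ (𝒜.X p q0 π) w := contDiffAt_X 𝒜 hB p q0 π hw hs1
  have e0 : 𝒜.X p q π w = 0 := by
    show 𝒜.ψ q (𝒜.Ex p (rad π w)) = 0
    rw [h1, 𝒜.zero]
  have hd : HasFDerivAt (𝒜.ch q0 q) (CC 𝒜 q0 q) (𝒜.X p q π w) := by
    rw [e0]; exact hasFDerivAt_ch 𝒜 hq
  have h2 := hd.comp w (hX.differentiableAt (by simp)).hasFDerivAt
  have h3 : 𝒜.X p q0 π =ᶠ[𝓝 w] (𝒜.ch q0 q) ∘ (𝒜.X p q π) := by
    have hc : ContinuousAt (fun w => 𝒜.Ex p (rad π w)) w := continuousAt_Exrad 𝒜 hB p π hw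
    filter_upwards [hc.eventually ((𝒜.ψ q).open_source.mem_nhds hs0)] with v hv
    show 𝒜.ψ q0 (𝒜.Ex p (rad π v)) = 𝒜.ψ q0 ((𝒜.ψ q).symm (𝒜.ψ q (𝒜.Ex p (rad π v))))
    rw [(𝒜.ψ q).left_inv hv]
  have h4 := (h2.congr_of_eventuallyEq h3).unique (hX0.differentiableAt (by simp)).hasFDerivAt
  exact congrArg (fun L : Eu n →L[ℝ] Eu n => L x) h4

theorem CC_Sc (hB : Bl M) (c : Gs M) {q0 : M} (hq : c.1 π ∈ (𝒜.ψ q0).source) (x : Eu n) :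
    CC 𝒜 q0 (c.1 π) (Sc 𝒜 c x) = fderiv ℝ (𝒜.X (c.1 0) q0 π) (𝒜.vel c.1 0) x :=
  fderiv_X_chart hB (vel_ne 𝒜 c) (gs_Ex 𝒜 hB c π).symm hq x

section fam

variable {E : Type*} [NormedAddCommGroup E] [NormedSpace ℝ E]

/-- the derivative of the exponential map in charts is smooth along smooth families -/
theorem contDiffAt_AX (hB : Bl M) {σ : E → Gs M} {u : E} (hG : SmGA 𝒜 σ u) {x0 q0 : M}
    (h1 : (σ u).1 0 ∈ (𝒜.ψ x0).source) (h2 : (σ u).1 π ∈ (𝒜.ψ q0).source) :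
    ContDiffAt ℝ ∞ (fun u => (fderiv ℝ (𝒜.X ((σ u).1 0) q0 π) (𝒜.vel (σ u).1 0)).comp (DD 𝒜 x0 ((σ u).1 0))) u := by
  -- the family with the extra parameter
  let W : E × Eu n → Eu n := fun z => 𝒜.vel (σ z.1).1 0 + DD 𝒜 x0 ((σ z.1).1 0) z.2
  let τ : E × Eu n → Gs M := fun z => gw 𝒜 hB (σ z.1) (W z)
  have hW0 : ∀ u, W (u, 0) = 𝒜.vel (σ u).1 0 := by
    intro u
    show _ + DD 𝒜 x0 ((σ u).1 0) 0 = _
    rw [map_zero, add_zero]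
  have hτ : SmGA 𝒜 τ (u, 0) := by
    have hfst : SmAt 𝒜 (fun z : E × Eu n => (σ z.1).1 0) (u, 0) :=
      SmAt.comp (g := fun v => (σ v).1 0) (f := Prod.fst) hG.1 contDiffAt_fst
    refine smGA_gw hB hfst h1 ?_ (by rw [hW0]; exact vel_ne 𝒜 _)
    have h1' : SmV 𝒜 x0 (fun z : E × Eu n => (σ z.1).1 0) (fun z => 𝒜.vel (σ z.1).1 0) (u, 0) :=
      SmV.comp (f := (Prod.fst : E × Eu n → E)) (v := (u, 0)) (hG.smV hB h1) contDiffAt_fst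
    refine h1'.add ?_
    show ContDiffAt ℝ ∞ (fun z : E × Eu n => CC 𝒜 x0 ((σ z.1).1 0) (DD 𝒜 x0 ((σ z.1).1 0) z.2)) (u, 0)
    refine (contDiffAt_snd (𝕜 := ℝ) (E := E) (F := Eu n)).congr_of_eventuallyEq ?_
    filter_upwards [hfst.cont.eventually ((𝒜.ψ x0).open_source.mem_nhds h1)] with z hz
    exact CC_DD 𝒜 hz _
  let e : E × Eu n → Eu n := fun z => 𝒜.ψ q0 ((τ z).1 π)
  have hend : ∀ u, (τ (u, 0)).1 π = (σ u).1 π := by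
    intro u
    show (gw 𝒜 hB (σ u) (W (u, 0))).1 π = _
    rw [hW0, gw_eq 𝒜 hB _ (vel_ne 𝒜 _), ← gs_Ex 𝒜 hB]
  have he : ContDiffAt ℝ ∞ e (u, 0) := (hτ.at hB π).chart (by rw [hend]; exact h2)
  have hAeq : ∀ u, DifferentiableAt ℝ e (u, 0) → (σ u).1 π ∈ (𝒜.ψ q0).source →
      (fderiv ℝ (𝒜.X ((σ u).1 0) q0 π) (𝒜.vel (σ u).1 0)).comp (DD 𝒜 x0 ((σ u).1 0)) =
        (fderiv ℝ e (u, 0)).comp (ContinuousLinearMap.inr ℝ E (Eu n)) := by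
    intro u hd h2
    ext1 b
    have h3 : HasFDerivAt e (fderiv ℝ e (u, 0)) (u, 0) := hd.hasFDerivAt
    have h4 : HasFDerivAt (fun a : Eu n => e (u, a)) ((fderiv ℝ e (u, 0)).comp (ContinuousLinearMap.inr ℝ E (Eu n))) 0 :=
      h3.comp (0 : Eu n) (hasFDerivAt_prodMk_right u (0 : Eu n))
    have h5 : HasFDerivAt (fun a : Eu n => 𝒜.vel (σ u).1 0 + DD 𝒜 x0 ((σ u).1 0) a) (DD 𝒜 x0 ((σ u).1 0)) 0 :=
      (DD 𝒜 x0 ((σ u).1 0)).hasFDerivAt.const_add _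
    have h6 : HasFDerivAt (𝒜.X ((σ u).1 0) q0 π) (fderiv ℝ (𝒜.X ((σ u).1 0) q0 π) (𝒜.vel (σ u).1 0))
        (𝒜.vel (σ u).1 0 + DD 𝒜 x0 ((σ u).1 0) 0) := by
      rw [map_zero, add_zero]
      exact ((contDiffAt_X 𝒜 hB _ q0 π (vel_ne 𝒜 _) (top_mem hB _ h2)).differentiableAt (by simp)).hasFDerivAt
    have h7 := h6.comp (0 : Eu n) h5
    have h8 : (fun a : Eu n => e (u, a)) =ᶠ[𝓝 0]
        (𝒜.X ((σ u).1 0) q0 π) ∘ fun a : Eu n => 𝒜.vel (σ u).1 0 + DD 𝒜 x0 ((σ u).1 0) a := by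
      have h9 : ContinuousAt (fun a : Eu n => 𝒜.vel (σ u).1 0 + DD 𝒜 x0 ((σ u).1 0) a) 0 := h5.continuousAt
      have h10 : 𝒜.vel (σ u).1 0 + DD 𝒜 x0 ((σ u).1 0) 0 ≠ 0 := by
        rw [map_zero, add_zero]; exact vel_ne 𝒜 _
      filter_upwards [h9.eventually_ne h10] with a ha
      show 𝒜.ψ q0 ((gw 𝒜 hB (σ u) (W (u, a))).1 π) = 𝒜.ψ q0 (𝒜.Ex ((σ u).1 0) (rad π (W (u, a))))
      rw [gw_eq 𝒜 hB _ ha]
    exact congrArg (fun L : Eu n →L[ℝ] Eu n => L b) (h7.unique (h4.congr_of_eventuallyEq h8.symm))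
  have h3 : ContDiffAt ℝ ∞ (fderiv ℝ e) (u, 0) := he.fderiv_right (by simp)
  have h4 : ContDiffAt ℝ ∞ (fun v : E => fderiv ℝ e (v, 0)) u :=
    ContDiffAt.comp (g := fderiv ℝ e) (f := fun v : E => (v, (0 : Eu n))) u h3 (contDiffAt_id.prodMk contDiffAt_const)
  have h5 : ContDiffAt ℝ ∞ (fun v : E => (fderiv ℝ e (v, 0)).comp (ContinuousLinearMap.inr ℝ E (Eu n))) u :=
    h4.clm_comp contDiffAt_const
  refine h5.congr_of_eventuallyEq ?_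
  have h6 : ∀ᶠ z in 𝓝 (u, (0 : Eu n)), DifferentiableAt ℝ e z := by
    have h7 : ContDiffAt ℝ 1 e (u, 0) := he.of_le (by simp)
    filter_upwards [h7.eventually (by simp)] with z hz
    exact hz.differentiableAt (by simp)
  have h8 : ∀ᶠ v in 𝓝 u, DifferentiableAt ℝ e (v, 0) :=
    (Continuous.tendsto (f := fun v : E => (v, (0 : Eu n))) (by fun_prop) u).eventually h6
  filter_upwards [h8, (hG.at hB π).cont.eventually ((𝒜.ψ q0).open_source.mem_nhds h2)] with v h9 h10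
  exact hAeq v h9 h10

/-- `Sc` maps smooth fields along the foot to smooth fields along the top -/
theorem smV_Sc (hB : Bl M) {σ : E → Gs M} {u : E} (hG : SmGA 𝒜 σ u) {x0 q0 : M}
    (h1 : (σ u).1 0 ∈ (𝒜.ψ x0).source) (h2 : (σ u).1 π ∈ (𝒜.ψ q0).source) {w : E → Eu n}
    (hw : SmV 𝒜 x0 (fun v => (σ v).1 0) w u) :
    SmV 𝒜 q0 (fun v => (σ v).1 π) (fun v => Sc 𝒜 (σ v) (w v)) u := by
  have h3 := contDiffAt_AX hB hG h1 h2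
  have h4 : ContDiffAt ℝ ∞ (fun v => ((fderiv ℝ (𝒜.X ((σ v).1 0) q0 π) (𝒜.vel (σ v).1 0)).comp (DD 𝒜 x0 ((σ v).1 0)))
      (CC 𝒜 x0 ((σ v).1 0) (w v))) u := h3.clm_apply hw
  refine ContDiffAt.congr_of_eventuallyEq h4 ?_
  filter_upwards [hG.1.cont.eventually ((𝒜.ψ x0).open_source.mem_nhds h1),
    (hG.at hB π).cont.eventually ((𝒜.ψ q0).open_source.mem_nhds h2)] with v h5 h6
  show CC 𝒜 q0 ((σ v).1 π) (Sc 𝒜 (σ v) (w v)) = fderiv ℝ (𝒜.X ((σ v).1 0) q0 π) (𝒜.vel (σ v).1 0)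
    (DD 𝒜 x0 ((σ v).1 0) (CC 𝒜 x0 ((σ v).1 0) (w v)))
  rw [DD_CC 𝒜 h5, CC_Sc hB _ h6]

end fam

/-- moving the direction of `c` -/
theorem isVar_Sc (hB : Bl M) (c : Gs M) (x : Eu n) : NEG.IsVar 𝒜 c 0 (Sc 𝒜 c x) := by
  refine ⟨fun θ => gw 𝒜 hB c (𝒜.vel c.1 0 + θ • x), ?_, ?_, ?_, ?_⟩
  · have h0 : 𝒜.vel c.1 0 + (0 : ℝ) • x ≠ 0 := by
      rw [zero_smul, add_zero]; exact vel_ne 𝒜 c
    refine smGA_gw hB (c := fun _ : ℝ => c) (p := c.1 0) (smAt_const _ _) (𝒜.mem _) ?_ h0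
    show ContDiffAt ℝ ∞ (fun θ : ℝ => CC 𝒜 (c.1 0) (c.1 0) (𝒜.vel c.1 0 + θ • x)) 0
    simp only [CC_self]
    exact contDiffAt_const.add (contDiffAt_id.smul contDiffAt_const)
  · show gw 𝒜 hB c (𝒜.vel c.1 0 + (0 : ℝ) • x) = c
    rw [zero_smul, add_zero]
    exact eq_of_vel' 𝒜 (gw_zero 𝒜 hB c _) (by rw [gw_vel 𝒜 hB c (vel_ne 𝒜 c), nrm_of_norm (vel_norm 𝒜 c)])
  · simp only [gw_zero]
    exact hasDerivAt_const _ _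
  · have h1 : HasFDerivAt (𝒜.X (c.1 0) (c.1 π) π) (Sc 𝒜 c) (𝒜.vel c.1 0 + (0 : ℝ) • x) := by
      rw [zero_smul, add_zero]
      exact ((contDiffAt_X 𝒜 hB _ _ π (vel_ne 𝒜 _) (top_mem hB c (𝒜.mem _))).differentiableAt (by simp)).hasFDerivAt
    have h2 : HasDerivAt (fun θ : ℝ => 𝒜.vel c.1 0 + θ • x) x 0 := by
      have h := ((hasDerivAt_id (0 : ℝ)).smul_const x).const_add (𝒜.vel c.1 0)
      simpa using h
    have h3 := h1.comp_hasDerivAt (0 : ℝ) h2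
    refine h3.congr_of_eventuallyEq ?_
    have h4 : ContinuousAt (fun θ : ℝ => 𝒜.vel c.1 0 + θ • x) 0 := h2.continuousAt
    have h5 : 𝒜.vel c.1 0 + (0 : ℝ) • x ≠ 0 := by
      rw [zero_smul, add_zero]; exact vel_ne 𝒜 c
    filter_upwards [h4.eventually_ne h5] with θ hθ
    show 𝒜.ψ (c.1 π) ((gw 𝒜 hB c (𝒜.vel c.1 0 + θ • x)).1 π) = 𝒜.ψ (c.1 π) (𝒜.Ex (c.1 0) (rad π (𝒜.vel c.1 0 + θ • x)))
    rw [gw_eq 𝒜 hB _ hθ]

theorem vel_shift (c : Gs M) (a s : ℝ) : 𝒜.vel (shift a c).1 s = 𝒜.vel c.1 (s + a) := NEG.nc2_vel_shift c a s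

theorem shift_zero_pt (c : Gs M) (a : ℝ) : (shift a c).1 0 = c.1 a := by
  show c.1 (0 + a) = c.1 a
  rw [zero_add]

theorem shift_pi_pi (𝒜 : SDist n M) (hB : Bl M) (c : Gs M) : (shift π c).1 π = c.1 0 := by
  show c.1 (π + π) = c.1 0
  have h := congrArg (fun c : Gs M => c.1 0) (shift_per 𝒜 hB c)
  have h' : c.1 (0 + 2 * π) = c.1 0 := h
  rw [zero_add] at h'
  rw [← two_mul, h']

/-- every vector of `V(q, p)` is a multiple of the velocity at `q` of a geodesic from `p` to `q` -/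
theorem exists_of_V (hB : Bl M) {c : Gs M} {z : Eu n} (hz : z ∈ Vc 𝒜 (shift π c)) (h1 : ‖z‖ = 1) :
    ∃ w ∈ Vc 𝒜 c, ‖w‖ = 1 ∧ 𝒜.vel (gw 𝒜 hB c w).1 π = z := by
  have hz0 : z ≠ 0 := by
    intro h
    rw [h, norm_zero] at h1
    exact zero_ne_one h1
  obtain ⟨γ, hγ⟩ : ∃ γ, γ = gw 𝒜 hB (shift π c) z := ⟨_, rfl⟩
  have h2 : γ.1 0 = c.1 π := by rw [hγ, gw_zero, shift_zero_pt]
  have h3 : γ.1 π = c.1 0 := by
    rw [hγ, top_of_mem 𝒜 hB (shift π c) hz0 hz, shift_pi_pi 𝒜 hB]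
  have h4 : 𝒜.vel γ.1 0 = z := by rw [hγ, gw_vel 𝒜 hB _ hz0, nrm_of_norm h1]
  -- the shifted geodesic
  have h5 : (shift π γ).1 0 = c.1 0 := by rw [shift_zero_pt, h3]
  have h6 : (shift π γ).1 π = c.1 π := by rw [shift_pi_pi 𝒜 hB, h2]
  have h7 : 𝒜.vel (shift π γ).1 0 ∈ Vc 𝒜 c := mem_PV_of_top 𝒜 hB h5 h6
  have h8 : gw 𝒜 hB c (𝒜.vel (shift π γ).1 0) = shift π γ := by
    refine eq_of_vel' 𝒜 ?_ ?_
    · rw [gw_zero, h5]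
    · rw [gw_vel 𝒜 hB _ (vel_ne 𝒜 _), nrm_of_norm (vel_norm 𝒜 _)]
  refine ⟨_, h7, vel_norm 𝒜 _, ?_⟩
  rw [h8, vel_shift, ← two_mul, NEG.nc2_vel_per hB γ, h4]

/-- the image of `Sc` is perpendicular to `V(q, p)` -/
theorem inner_Sc (hB : Bl M) {c : Gs M} {z : Eu n} (hz : z ∈ Vc 𝒜 (shift π c)) (x : Eu n) : ⟪z, Sc 𝒜 c x⟫ = 0 := by
  by_cases hz0 : z = 0
  · rw [hz0, inner_zero_left]
  have hn : nrm z ∈ Vc 𝒜 (shift π c) := Submodule.smul_mem _ _ hz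
  obtain ⟨w, hw, hw1, hwz⟩ := exists_of_V hB hn (norm_nrm hz0)
  have h1 := NEG.top_inner hB (isVar_Sc hB c x) hw hw1
  rw [hwz, inner_zero_right] at h1
  have h2 : z = ‖z‖ • nrm z := by
    unfold nrm
    rw [smul_smul, mul_inv_cancel₀ (norm_ne_zero_iff.2 hz0), one_smul]
  rw [h2, real_inner_smul_left, ← h1, mul_zero]

theorem Sc_mem (hB : Bl M) (c : Gs M) (x : Eu n) : Sc 𝒜 c x ∈ Nc 𝒜 (shift π c) := by
  show Sc 𝒜 c x ∈ (Vc 𝒜 (shift π c))ᗮ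
  rw [Submodule.mem_orthogonal]
  intro z hz
  exact inner_Sc hB hz x

/-- `Sc` is an isomorphism from `N(p, q)` to `N(q, p)` -/
theorem exists_Sc (hB : Bl M) {κ : ℕ} (hk : 𝒜.HK κ) {c : Gs M} {y : Eu n} (hy : y ∈ Nc 𝒜 (shift π c)) :
    ∃ x ∈ Nc 𝒜 c, Sc 𝒜 c x = y := by
  let f : Nc 𝒜 c →ₗ[ℝ] Nc 𝒜 (shift π c) :=
    ((Sc 𝒜 c : Eu n →ₗ[ℝ] Eu n).comp (Nc 𝒜 c).subtype).codRestrict (Nc 𝒜 (shift π c)) fun x => Sc_mem hB c _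
  have hf : ∀ x : Nc 𝒜 c, (f x : Eu n) = Sc 𝒜 c (x : Eu n) := fun x => rfl
  have hfi : Function.Injective f := by
    rw [injective_iff_map_eq_zero]
    intro x hx
    have h3 : Sc 𝒜 c (x : Eu n) = 0 := by rw [← hf, hx]; rfl
    have h4 : (x : Eu n) ∈ Vc 𝒜 c := V_of_Sc hB hk h3
    have h5 : (x : Eu n) ∈ (Vc 𝒜 c)ᗮ := x.2
    rw [Submodule.mem_orthogonal] at h5
    exact Subtype.ext (inner_self_eq_zero.1 (h5 _ h4))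
  have hfs : Function.Surjective f := by
    refine (LinearMap.injective_iff_surjective_of_finrank_eq_finrank ?_).1 hfi
    have h1 := finrank_Nc 𝒜 hB hk c
    have h2 := finrank_Nc 𝒜 hB hk (shift π c)
    omega
  obtain ⟨x, hx⟩ := hfs ⟨y, hy⟩
  exact ⟨x, x.2, by rw [← hf, hx]⟩

end Pool.Agent.Lib.MP_ccbbf6_gt.L5.G3
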