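import Pool.Agent.Lib.MP_ccbbf6_gt.L4.EvA
import Pool.Agent.Lib.MP_ccbbf6_gt.L5.G3S

/-!
# Level 5, G3T (helper78): `Lc c : N(q, p) → N(p, q)`, the inverse of `Sc c`; it is linear in the velocity of `c`
-/

set_option autoImplicit false
set_option linter.unusedSectionVars false

open Set Filter Topology Metric Real Module
open scoped ContDiff RealInnerProductSpace

noncomputable section

namespace Pool.Agent.Lib.MP_ccbbf6_gt.L5.G3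

open Geo L4 L4.ORI

variable {n : ℕ} {M : Type*} [MetricSpace M] [CompactSpace M] {𝒜 : SDist n M}

/-- `V(p, q)` depends only on the end points -/
theorem Vc_congr (hB : Bl M) {c c' : Gs M} (h0 : c'.1 0 = c.1 0) (h1 : c'.1 π = c.1 π) : Vc 𝒜 c' = Vc 𝒜 c := by
  unfold Vc
  rw [h0]
  exact PV_eq_of_mem 𝒜 hB _ (mem_PV_of_top 𝒜 hB h0 h1) (vel_ne 𝒜 c')

theorem Nc_congr (hB : Bl M) {c c' : Gs M} (h0 : c'.1 0 = c.1 0) (h1 : c'.1 π = c.1 π) : Nc 𝒜 c' = Nc 𝒜 c := by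
  unfold Nc
  rw [Vc_congr hB h0 h1]

theorem Vc_shift_congr (hB : Bl M) {c c' : Gs M} (h0 : c'.1 0 = c.1 0) (h1 : c'.1 π = c.1 π) :
    Vc 𝒜 (shift π c') = Vc 𝒜 (shift π c) := by
  refine Vc_congr hB ?_ ?_
  · rw [shift_zero_pt, shift_zero_pt, h1]
  · rw [shift_pi_pi 𝒜 hB, shift_pi_pi 𝒜 hB, h0]

theorem Nc_shift_congr (hB : Bl M) {c c' : Gs M} (h0 : c'.1 0 = c.1 0) (h1 : c'.1 π = c.1 π) :
    Nc 𝒜 (shift π c') = Nc 𝒜 (shift π c) := by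
  unfold Nc
  rw [Vc_shift_congr hB h0 h1]

/-- the operator `S† S + P_V` -/
def Rc (𝒜 : SDist n M) (c : Gs M) : Eu n →L[ℝ] Eu n :=
  (ContinuousLinearMap.adjoint (Sc 𝒜 c)).comp (Sc 𝒜 c) + (Vc 𝒜 c).starProjection

/-- the inverse of `Sc c : N(p, q) → N(q, p)`, zero on `V(q, p)` -/
def Lc (𝒜 : SDist n M) (c : Gs M) : Eu n →L[ℝ] Eu n :=
  (ContinuousLinearMap.inverse (Rc 𝒜 c)).comp (ContinuousLinearMap.adjoint (Sc 𝒜 c))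

theorem Rc_apply (c : Gs M) (x : Eu n) :
    Rc 𝒜 c x = ContinuousLinearMap.adjoint (Sc 𝒜 c) (Sc 𝒜 c x) + (Vc 𝒜 c).starProjection x := rfl

theorem Rc_injective (hB : Bl M) {κ : ℕ} (hk : 𝒜.HK κ) (c : Gs M) : Function.Injective (Rc 𝒜 c) := by
  rw [injective_iff_map_eq_zero]
  intro x hx
  have h1 : ⟪Rc 𝒜 c x, x⟫ = ‖Sc 𝒜 c x‖ ^ 2 + ‖(Vc 𝒜 c).starProjection x‖ ^ 2 := by
    rw [Rc_apply, inner_add_left, ContinuousLinearMap.adjoint_inner_left, real_inner_self_eq_norm_sq]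
    congr 1
    have h2 : (Vc 𝒜 c).starProjection ((Vc 𝒜 c).starProjection x) = (Vc 𝒜 c).starProjection x :=
      Submodule.starProjection_eq_self_iff.2 (Submodule.starProjection_apply_mem _ _)
    have h3 := Submodule.inner_starProjection_left_eq_right (Vc 𝒜 c) ((Vc 𝒜 c).starProjection x) x
    rw [h2] at h3
    rw [h3, real_inner_self_eq_norm_sq]
  rw [hx, inner_zero_left] at h1
  have h2 : ‖Sc 𝒜 c x‖ ^ 2 = 0 := by nlinarith [sq_nonneg ‖Sc 𝒜 c x‖, sq_nonneg ‖(Vc 𝒜 c).starProjection x‖]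
  have h3 : ‖(Vc 𝒜 c).starProjection x‖ ^ 2 = 0 := by
    nlinarith [sq_nonneg ‖Sc 𝒜 c x‖, sq_nonneg ‖(Vc 𝒜 c).starProjection x‖]
  have h4 : Sc 𝒜 c x = 0 := norm_eq_zero.mp (pow_eq_zero_iff two_ne_zero |>.mp h2)
  have h5 : (Vc 𝒜 c).starProjection x = 0 := norm_eq_zero.mp (pow_eq_zero_iff two_ne_zero |>.mp h3)
  rw [Submodule.starProjection_eq_self_iff.2 (V_of_Sc hB hk h4)] at h5
  exact h5

/-- the operator `Rc` as an equivalence -/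
def RcE (hB : Bl M) {κ : ℕ} (hk : 𝒜.HK κ) (c : Gs M) : Eu n ≃L[ℝ] Eu n :=
  (LinearEquiv.ofInjectiveEndo (Rc 𝒜 c : Eu n →ₗ[ℝ] Eu n) (Rc_injective hB hk c)).toContinuousLinearEquiv

theorem RcE_coe (hB : Bl M) {κ : ℕ} (hk : 𝒜.HK κ) (c : Gs M) : (RcE hB hk c : Eu n →L[ℝ] Eu n) = Rc 𝒜 c := by
  ext1 x; rfl

theorem Rc_inverse (hB : Bl M) {κ : ℕ} (hk : 𝒜.HK κ) (c : Gs M) {x y : Eu n} (h : Rc 𝒜 c x = y) :
    ContinuousLinearMap.inverse (Rc 𝒜 c) y = x := by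
  rw [← h, ← RcE_coe hB hk, ContinuousLinearMap.inverse_equiv]
  exact (RcE hB hk c).symm_apply_apply x

theorem projV_N {c : Gs M} {x : Eu n} (hx : x ∈ Nc 𝒜 c) : (Vc 𝒜 c).starProjection x = 0 :=
  (Submodule.starProjection_apply_eq_zero_iff _).2 hx

theorem Lc_Sc (hB : Bl M) {κ : ℕ} (hk : 𝒜.HK κ) {c : Gs M} {x : Eu n} (hx : x ∈ Nc 𝒜 c) : Lc 𝒜 c (Sc 𝒜 c x) = x := by
  show ContinuousLinearMap.inverse (Rc 𝒜 c) (ContinuousLinearMap.adjoint (Sc 𝒜 c) (Sc 𝒜 c x)) = x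
  refine Rc_inverse hB hk c ?_
  rw [Rc_apply, projV_N hx, add_zero]

theorem Lc_V (hB : Bl M) {κ : ℕ} (hk : 𝒜.HK κ) {c : Gs M} {z : Eu n} (hz : z ∈ Vc 𝒜 (shift π c)) : Lc 𝒜 c z = 0 := by
  have h1 : ContinuousLinearMap.adjoint (Sc 𝒜 c) z = 0 := by
    refine ext_inner_right ℝ fun x => ?_
    rw [ContinuousLinearMap.adjoint_inner_left, inner_Sc hB hz, inner_zero_left]
  show ContinuousLinearMap.inverse (Rc 𝒜 c) (ContinuousLinearMap.adjoint (Sc 𝒜 c) z) = 0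
  rw [h1]
  exact Rc_inverse hB hk c (map_zero _)

/-- decomposition with respect to `V(q, p) + N(q, p)` -/
theorem sub_projV_mem (c : Gs M) (y : Eu n) : y - (Vc 𝒜 c).starProjection y ∈ Nc 𝒜 c :=
  Submodule.sub_starProjection_mem_orthogonal y

theorem projN_eq (c : Gs M) (y : Eu n) : (Nc 𝒜 c).starProjection y = y - (Vc 𝒜 c).starProjection y :=
  Submodule.starProjection_orthogonal_val y

/-- characterisation of `Lc` -/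
theorem Lc_eq (hB : Bl M) {κ : ℕ} (hk : 𝒜.HK κ) {c : Gs M} {x y : Eu n} (hx : x ∈ Nc 𝒜 c)
    (h : Sc 𝒜 c x = (Nc 𝒜 (shift π c)).starProjection y) : Lc 𝒜 c y = x := by
  rw [projN_eq] at h
  have h1 : Lc 𝒜 c y = Lc 𝒜 c (y - (Vc 𝒜 (shift π c)).starProjection y) + Lc 𝒜 c ((Vc 𝒜 (shift π c)).starProjection y) := by
    rw [← map_add, sub_add_cancel]
  rw [h1, ← h, Lc_Sc hB hk hx, Lc_V hB hk (Submodule.starProjection_apply_mem _ _), add_zero]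

theorem exists_Lc (hB : Bl M) {κ : ℕ} (hk : 𝒜.HK κ) (c : Gs M) (y : Eu n) :
    Lc 𝒜 c y ∈ Nc 𝒜 c ∧ Sc 𝒜 c (Lc 𝒜 c y) = (Nc 𝒜 (shift π c)).starProjection y := by
  obtain ⟨x, hx, hxy⟩ := exists_Sc hB hk (c := c) (y := (Nc 𝒜 (shift π c)).starProjection y)
    (Submodule.starProjection_apply_mem _ _)
  rw [Lc_eq hB hk hx hxy]
  exact ⟨hx, hxy⟩

theorem Lc_mem (hB : Bl M) {κ : ℕ} (hk : 𝒜.HK κ) (c : Gs M) (y : Eu n) : Lc 𝒜 c y ∈ Nc 𝒜 c := (exists_Lc hB hk c y).1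

theorem Sc_Lc (hB : Bl M) {κ : ℕ} (hk : 𝒜.HK κ) (c : Gs M) (y : Eu n) :
    Sc 𝒜 c (Lc 𝒜 c y) = (Nc 𝒜 (shift π c)).starProjection y := (exists_Lc hB hk c y).2

/-- `Lc` is injective on `N(q, p)` -/
theorem Lc_injOn (hB : Bl M) {κ : ℕ} (hk : 𝒜.HK κ) {c : Gs M} {y : Eu n} (hy : y ∈ Nc 𝒜 (shift π c)) (h : Lc 𝒜 c y = 0) :
    y = 0 := by
  have h1 := Sc_Lc hB hk c y
  rw [h, map_zero, Submodule.starProjection_eq_self_iff.2 hy] at h1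
  exact h1.symm

/-- `Lc = P_(N(p, q)) Lc P_(N(q, p))` -/
theorem Lc_proj (hB : Bl M) {κ : ℕ} (hk : 𝒜.HK κ) (c : Gs M) (y : Eu n) :
    Lc 𝒜 c ((Nc 𝒜 (shift π c)).starProjection y) = Lc 𝒜 c y := by
  rw [projN_eq, map_sub, Lc_V hB hk (Submodule.starProjection_apply_mem _ _), sub_zero]

theorem proj_Lc (hB : Bl M) {κ : ℕ} (hk : 𝒜.HK κ) (c : Gs M) (y : Eu n) :
    (Nc 𝒜 c).starProjection (Lc 𝒜 c y) = Lc 𝒜 c y :=
  Submodule.starProjection_eq_self_iff.2 (Lc_mem hB hk c y)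

/-- **`Lc` in terms of the derivative of the projection onto `V`** -/
theorem Lc_gw (hB : Bl M) {κ : ℕ} (hk : 𝒜.HK κ) {c : Gs M} {w : Eu n} (hw : w ∈ Vc 𝒜 c) (h1 : ‖w‖ = 1) (x : Eu n) :
    Lc 𝒜 (gw 𝒜 hB c w) x =
      fderiv ℝ (fun v => (𝒜.PV (c.1 0) v).starProjection) (𝒜.vel c.1 0) (Lc 𝒜 c x) w := by
  have hw0 : w ≠ 0 := by
    intro h
    rw [h, norm_zero] at h1
    exact zero_ne_one h1
  obtain ⟨c', hc'⟩ : ∃ c', c' = gw 𝒜 hB c w := ⟨_, rfl⟩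
  have e0 : c'.1 0 = c.1 0 := by rw [hc', gw_zero]
  have e1 : c'.1 π = c.1 π := by rw [hc', top_of_mem 𝒜 hB c hw0 hw]
  have e2 : 𝒜.vel c'.1 0 = w := by rw [hc', gw_vel 𝒜 hB _ hw0, nrm_of_norm h1]
  obtain ⟨ξ, hξ⟩ : ∃ ξ, ξ = Lc 𝒜 c x := ⟨_, rfl⟩
  obtain ⟨v0, hv0⟩ : ∃ v0, v0 = 𝒜.vel c.1 0 := ⟨_, rfl⟩
  have hv0ne : v0 ≠ 0 := by rw [hv0]; exact vel_ne 𝒜 c
  let PP : Eu n → Eu n →L[ℝ] Eu n := fun v => (𝒜.PV (c.1 0) v).starProjection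
  have hPPd : HasFDerivAt PP (fderiv ℝ PP v0) v0 :=
    ((contDiffAt_PV (𝒜 := 𝒜) hB hk (c.1 0) hv0ne).differentiableAt (by simp)).hasFDerivAt
  obtain ⟨D, hD⟩ : ∃ D : Eu n →L[ℝ] Eu n, D = fderiv ℝ PP v0 ξ := ⟨_, rfl⟩
  have hline : HasDerivAt (fun t : ℝ => v0 + t • ξ) ξ 0 := by
    have h := ((hasDerivAt_id (0 : ℝ)).smul_const ξ).const_add v0
    simpa using h
  have hPl : HasDerivAt (fun t : ℝ => PP (v0 + t • ξ)) D 0 := by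
    have h2 : HasFDerivAt PP (fderiv ℝ PP v0) (v0 + (0 : ℝ) • ξ) := by rw [zero_smul, add_zero]; exact hPPd
    rw [hD]
    exact h2.comp_hasDerivAt (0 : ℝ) hline
  have hwt : HasDerivAt (fun t : ℝ => PP (v0 + t • ξ) w) (D w) 0 := by
    have h2 := hPl.clm_apply (hasDerivAt_const (0 : ℝ) w)
    simpa using h2
  have hPw : PP v0 w = w := by
    show (𝒜.PV (c.1 0) v0).starProjection w = w
    rw [hv0]
    exact Submodule.starProjection_eq_self_iff.2 hw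
  have hw00 : PP (v0 + (0 : ℝ) • ξ) w = w := by rw [zero_smul, add_zero, hPw]
  -- the end points agree
  have hEx0 : 𝒜.Ex (c.1 0) (rad π v0) = c.1 π := by rw [hv0]; exact (gs_Ex 𝒜 hB c π).symm
  have hExw : 𝒜.Ex (c.1 0) (rad π w) = c.1 π := by
    rw [← e2, ← e0, ← gs_Ex 𝒜 hB c' π, e1]
  have hkey : fderiv ℝ (𝒜.X (c.1 0) (c.1 π) π) w (D w) = Sc 𝒜 c ξ := by
    have hXw : HasFDerivAt (𝒜.X (c.1 0) (c.1 π) π) (fderiv ℝ (𝒜.X (c.1 0) (c.1 π) π) w) (PP (v0 + (0 : ℝ) • ξ) w) := by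
      rw [hw00]
      exact ((contDiffAt_X 𝒜 hB _ _ π hw0 (by rw [hExw]; exact 𝒜.mem _)).differentiableAt (by simp)).hasFDerivAt
    have hXv : HasFDerivAt (𝒜.X (c.1 0) (c.1 π) π) (Sc 𝒜 c) (v0 + (0 : ℝ) • ξ) := by
      rw [zero_smul, add_zero]
      show HasFDerivAt _ (fderiv ℝ (𝒜.X (c.1 0) (c.1 π) π) (𝒜.vel c.1 0)) v0
      rw [← hv0]
      exact ((contDiffAt_X 𝒜 hB _ _ π hv0ne (by rw [hEx0]; exact 𝒜.mem _)).differentiableAt (by simp)).hasFDerivAt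
    have h2 := hXw.comp_hasDerivAt (0 : ℝ) hwt
    have h3 := hXv.comp_hasDerivAt (0 : ℝ) hline
    refine h2.unique (h3.congr_of_eventuallyEq ?_)
    have h4 : ∀ᶠ t in 𝓝 (0 : ℝ), PP (v0 + t • ξ) w ≠ 0 :=
      hwt.continuousAt.eventually_ne (by rw [hw00]; exact hw0)
    have h5 : ∀ᶠ t in 𝓝 (0 : ℝ), v0 + t • ξ ≠ 0 :=
      hline.continuousAt.eventually_ne (by rw [zero_smul, add_zero]; exact hv0ne)
    filter_upwards [h4, h5] with t h6 h7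
    show 𝒜.ψ (c.1 π) (𝒜.Ex (c.1 0) (rad π (PP (v0 + t • ξ) w))) = 𝒜.ψ (c.1 π) (𝒜.Ex (c.1 0) (rad π (v0 + t • ξ)))
    rw [(mem_PV_iff 𝒜 hB _ h7 h6).1 (Submodule.starProjection_apply_mem _ _)]
  have hSc' : Sc 𝒜 c' (D w) = Sc 𝒜 c ξ := by
    show fderiv ℝ (𝒜.X (c'.1 0) (c'.1 π) π) (𝒜.vel c'.1 0) (D w) = _
    rw [e0, e1, e2]
    exact hkey
  -- `D w` is perpendicular to `V`
  have hDN : D w ∈ Nc 𝒜 c := by
    have h2 : HasDerivAt (fun t : ℝ => PP (v0 + t • ξ) (PP (v0 + t • ξ) w)) (D w + PP v0 (D w)) 0 := by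
      have h3 := hPl.clm_apply hwt
      simp only [zero_smul, add_zero, hPw] at h3
      exact h3
    have h3 : (fun t : ℝ => PP (v0 + t • ξ) (PP (v0 + t • ξ) w)) = fun t : ℝ => PP (v0 + t • ξ) w := by
      funext t
      exact Submodule.starProjection_eq_self_iff.2 (Submodule.starProjection_apply_mem _ _)
    rw [h3] at h2
    have h4 : D w = D w + PP v0 (D w) := hwt.unique h2
    have h5 : PP v0 (D w) = 0 := by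
      have := h4
      rwa [left_eq_add] at this
    have h6 : (Vc 𝒜 c).starProjection (D w) = 0 := by
      have h7 : PP v0 = (Vc 𝒜 c).starProjection := by
        show (𝒜.PV (c.1 0) v0).starProjection = _
        rw [hv0]
        rfl
      rw [← h7]
      exact h5
    exact (Submodule.starProjection_apply_eq_zero_iff _).1 h6
  have hfin : Lc 𝒜 c' x = D w := by
    refine Lc_eq hB hk ?_ ?_
    · rw [Nc_congr hB e0 e1]; exact hDN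
    · rw [hSc', Nc_shift_congr hB e0 e1, hξ, Sc_Lc hB hk]
  rw [← hc', hfin, hD, hξ, hv0]

/-- **linearity**: if `w = r₁ w₁ + r₂ w₂` (unit vectors of `V`), then `L(w) = r₁ L(w₁) + r₂ L(w₂)` -/
theorem Lc_lin (hB : Bl M) {κ : ℕ} (hk : 𝒜.HK κ) {c : Gs M} {w₁ w₂ : Eu n} (hw₁ : w₁ ∈ Vc 𝒜 c) (h₁ : ‖w₁‖ = 1)
    (hw₂ : w₂ ∈ Vc 𝒜 c) (h₂ : ‖w₂‖ = 1) {r₁ r₂ : ℝ} (h : ‖r₁ • w₁ + r₂ • w₂‖ = 1) :
    Lc 𝒜 (gw 𝒜 hB c (r₁ • w₁ + r₂ • w₂)) = r₁ • Lc 𝒜 (gw 𝒜 hB c w₁) + r₂ • Lc 𝒜 (gw 𝒜 hB c w₂) := by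
  ext1 x
  rw [Lc_gw hB hk (Submodule.add_mem _ (Submodule.smul_mem _ _ hw₁) (Submodule.smul_mem _ _ hw₂)) h, map_add, map_smul,
    map_smul, ← Lc_gw hB hk hw₁ h₁, ← Lc_gw hB hk hw₂ h₂]
  rfl

/-- the version with geodesics: `c`, `c₁`, `c₂` from `p` to `q` with `vel c = r₁ vel c₁ + r₂ vel c₂` -/
theorem Lc_lin' (hB : Bl M) {κ : ℕ} (hk : 𝒜.HK κ) {c c₁ c₂ : Gs M} (h10 : c₁.1 0 = c.1 0) (h1π : c₁.1 π = c.1 π)
    (h20 : c₂.1 0 = c.1 0) (h2π : c₂.1 π = c.1 π) {r₁ r₂ : ℝ}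
    (h : 𝒜.vel c.1 0 = r₁ • 𝒜.vel c₁.1 0 + r₂ • 𝒜.vel c₂.1 0) :
    Lc 𝒜 c = r₁ • Lc 𝒜 c₁ + r₂ • Lc 𝒜 c₂ := by
  have hg : ∀ c' : Gs M, c'.1 0 = c.1 0 → gw 𝒜 hB c (𝒜.vel c'.1 0) = c' := fun c' h0 =>
    eq_of_vel' 𝒜 (by rw [gw_zero, h0]) (by rw [gw_vel 𝒜 hB _ (vel_ne 𝒜 _), nrm_of_norm (vel_norm 𝒜 _)])
  have h3 := Lc_lin hB hk (c := c) (mem_PV_of_top 𝒜 hB h10 h1π) (vel_norm 𝒜 c₁) (mem_PV_of_top 𝒜 hB h20 h2π)
    (vel_norm 𝒜 c₂) (r₁ := r₁) (r₂ := r₂) (by rw [← h]; exact vel_norm 𝒜 c)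
  rw [← h, hg c rfl, hg c₁ h10, hg c₂ h20] at h3
  exact h3

end Pool.Agent.Lib.MP_ccbbf6_gt.L5.G3
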