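import Pool.Agent.Lib.MP_ccbbf6_gt.L5.TE1
import Pool.Agent.Lib.MP_ccbbf6_gt.L5.WK3

namespace Pool.Agent.Lib.MP_ccbbf6_gt.L5.G3
end Pool.Agent.Lib.MP_ccbbf6_gt.L5.G3

/-!
# Level 5, block WK, file 6 (helper79): the pencils of a Blaschke manifold

For an isometric embedding `t` of `TM` in `R^D` (helper93's `TEmb`): `wd : WD (spD 𝒜) (circD hB) t.D`,
`P` = projection on `i_q N_q`, `Q` = projection on `i_p N_p`, `A = i_p L(c) i_q^*`, `B = i_p L(c') i_q^*`
at the point `(c, c')` of `spD`.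
-/

set_option autoImplicit false
set_option maxSynthPendingDepth 3
set_option linter.unusedSectionVars false

open Set Filter Topology Metric Real Module
open scoped ContDiff RealInnerProductSpace

noncomputable section

namespace Pool.Agent.Lib.MP_ccbbf6_gt.L5.WK

open Geo L4 L4.ORI G3

variable {n : ℕ} {M : Type} [MetricSpace M] [CompactSpace M] {𝒜 : SDist n M}

variable (t : TEmb 𝒜)

namespace TE

/-- the embedding as an operator -/
def I (t : TEmb 𝒜) (x : M) : Eu n →L[ℝ] EuclideanSpace ℝ (Fin t.D) := (t.i x).toContinuousLinearMap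

/-- its adjoint -/
def Ia (t : TEmb 𝒜) (x : M) : EuclideanSpace ℝ (Fin t.D) →L[ℝ] Eu n := ContinuousLinearMap.adjoint (I t x)

theorem I_apply (x : M) (w : Eu n) : I t x w = t.i x w := rfl

theorem inner_Ia (x : M) (w : Eu n) (e : EuclideanSpace ℝ (Fin t.D)) : ⟪w, Ia t x e⟫ = ⟪I t x w, e⟫ := by
  rw [Ia, ContinuousLinearMap.adjoint_inner_right]

theorem Ia_I (x : M) (w : Eu n) : Ia t x (I t x w) = w := by
  refine ext_inner_left ℝ fun y => ?_
  rw [inner_Ia]
  exact (t.i x).inner_map_map y w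

theorem I_inj {x : M} {w : Eu n} (h : I t x w = 0) : w = 0 := by
  rw [← Ia_I t x w, h, map_zero]

theorem Ia_comp_I (x : M) : (Ia t x).comp (I t x) = ContinuousLinearMap.id ℝ (Eu n) :=
  ContinuousLinearMap.ext fun w => Ia_I t x w

/-- `i^* e` is a smooth field -/
theorem smV_Ia {E : Type} [NormedAddCommGroup E] [NormedSpace ℝ E] {x : E → M} {u : E} (hx : SmAt 𝒜 x u) {p : M}
    (hp : x u ∈ (𝒜.ψ p).source) {e : E → EuclideanSpace ℝ (Fin t.D)} (he : ContDiffAt ℝ ∞ e u) :
    SmV 𝒜 p x (fun v => Ia t (x v) (e v)) u := by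
  obtain ⟨w, -, h1⟩ := exists_frame_T (𝒜 := 𝒜) hx (EuclideanSpace.basisFun (Fin n) ℝ).orthonormal
  have h2 := h1.self_of_nhds.2 hx
  have h3 : SmV 𝒜 p x (fun v => ∑ a, ⟪I t (x v) (w a v), e v⟫ • w a v) u := by
    refine SmV.sum _ fun a _ => SmV.smul (SmV.chart hx (h2 a) (𝒜.mem _) hp) ?_
    exact ((t.smooth hx (𝒜.mem _)).1 (h2 a)).inner ℝ he
  refine SmV.congr h3 ?_
  filter_upwards [h1] with v hv
  have h4 := proj_of_orthonormal (W := (⊤ : Submodule ℝ (Eu n))) hv.1 (fun _ => trivial) (by simp) (Ia t (x v) (e v))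
  rw [(Submodule.starProjection_eq_self_iff (K := (⊤ : Submodule ℝ (Eu n)))).2 Submodule.mem_top] at h4
  rw [h4]
  refine Finset.sum_congr rfl fun a _ => ?_
  rw [inner_Ia]

/-- smooth fields give smooth functions -/
theorem sm_I {E : Type} [NormedAddCommGroup E] [NormedSpace ℝ E] {x : E → M} {w : E → Eu n} {u : E} (hx : SmAt 𝒜 x u)
    {p : M} (hp : x u ∈ (𝒜.ψ p).source) (hw : SmV 𝒜 p x w u) : ContDiffAt ℝ ∞ (fun v => I t (x v) (w v)) u :=
  (t.smooth hx hp).1 hw

/-! ### the operators -/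

/-- push forward of a symmetric projection -/
def pj (t : TEmb 𝒜) (x : M) (W : Submodule ℝ (Eu n)) : Op t.D := (I t x).comp (W.starProjection.comp (Ia t x))

theorem pj_apply (x : M) (W : Submodule ℝ (Eu n)) (e : EuclideanSpace ℝ (Fin t.D)) :
    pj t x W e = I t x (W.starProjection (Ia t x e)) := rfl

theorem pj_pj (x : M) (W : Submodule ℝ (Eu n)) : pj t x W * pj t x W = pj t x W := by
  refine ContinuousLinearMap.ext fun e => ?_
  show pj t x W (pj t x W e) = pj t x W e
  rw [pj_apply, pj_apply, Ia_I t, Submodule.starProjection_eq_self_iff.2 (Submodule.starProjection_apply_mem _ _)]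

theorem pj_adj (x : M) (W : Submodule ℝ (Eu n)) : ContinuousLinearMap.adjoint (pj t x W) = pj t x W := by
  refine ContinuousLinearMap.ext fun e => ext_inner_left ℝ fun f => ?_
  rw [ContinuousLinearMap.adjoint_inner_right, pj_apply, pj_apply, ← inner_Ia, real_inner_comm, real_inner_comm (I t x _),
    ← inner_Ia, real_inner_comm, Submodule.inner_starProjection_left_eq_right]
  exact real_inner_comm _ _

theorem pj_eq_self {x : M} {W : Submodule ℝ (Eu n)} {e : EuclideanSpace ℝ (Fin t.D)} (h : pj t x W e = e) :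
    Ia t x e ∈ W ∧ I t x (Ia t x e) = e := by
  rw [pj_apply] at h
  have h1 : Ia t x e = W.starProjection (Ia t x e) := by
    nth_rewrite 1 [← h]
    rw [Ia_I t]
  refine ⟨by rw [h1]; exact Submodule.starProjection_apply_mem _ _, ?_⟩
  rw [h1, h]

/-- rank of the projection -/
theorem finrank_pj (x : M) (W : Submodule ℝ (Eu n)) :
    finrank ℝ (LinearMap.range (pj t x W : EuclideanSpace ℝ (Fin t.D) →ₗ[ℝ] EuclideanSpace ℝ (Fin t.D))) =
      finrank ℝ W := by
  have h1 : LinearMap.range (pj t x W : EuclideanSpace ℝ (Fin t.D) →ₗ[ℝ] EuclideanSpace ℝ (Fin t.D)) =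
      W.map (I t x : Eu n →ₗ[ℝ] EuclideanSpace ℝ (Fin t.D)) := by
    ext e
    constructor
    · rintro ⟨f, rfl⟩
      exact ⟨_, Submodule.starProjection_apply_mem W (Ia t x f), rfl⟩
    · rintro ⟨w, hw, rfl⟩
      refine ⟨I t x w, ?_⟩
      show pj t x W (I t x w) = I t x w
      rw [pj_apply, Ia_I t, Submodule.starProjection_eq_self_iff.2 hw]
  rw [h1]
  exact (Submodule.equivMapOfInjective (I t x : Eu n →ₗ[ℝ] EuclideanSpace ℝ (Fin t.D)) (fun a b h => (t.i x).injective h) W).finrank_eq.symm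

end TE

end Pool.Agent.Lib.MP_ccbbf6_gt.L5.WK
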