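import Pool.Agent.Lib.MP_ccbbf6_gt.L4.OriF
import Pool.Agent.Lib.MP_ccbbf6_gt.L5.G3T
import Pool.Agent.Lib.MP_ccbbf6_gt.L5.WK6

/-!
# Level 5, block WK, file 7 (helper79): the pencils of a Blaschke manifold

For an isometric embedding `t : TEmb 𝒜`: `wd : WD (spD 𝒜) (circD hB) t.D`; at the point `(c, c')` of `spD`:
`P` = projection on `i_q N_q`, `Q` = projection on `i_p N_p`, `A = i_p L(c) i_q^*`, `B = i_p L(c') i_q^*`
(`p = c 0`, `q = c π`).
-/

set_option autoImplicit false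
set_option maxSynthPendingDepth 3
set_option linter.unusedSectionVars false

open Set Filter Topology Metric Real Module
open scoped ContDiff RealInnerProductSpace

noncomputable section

namespace Pool.Agent.Lib.MP_ccbbf6_gt.L5.WK

open Geo L4 L4.ORI G3

variable {n : ℕ} {M : Type} [MetricSpace M] [CompactSpace M] {𝒜 : SDist n M} (t : TEmb 𝒜)

namespace TE

/-- `i_p L(c) i_q^*` -/
def LM (c : Gs M) : Op t.D := (I t (c.1 0)).comp ((Lc 𝒜 c).comp (Ia t (c.1 π)))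

/-- `i_q S(c) i_p^*` -/
def SM (c : Gs M) : Op t.D := (I t (c.1 π)).comp ((Sc 𝒜 c).comp (Ia t (c.1 0)))

/-- projection on `i_p N_p` -/
def PN (c : Gs M) : Op t.D := pj t (c.1 0) (Nc 𝒜 c)

/-- projection on `i_q N_q` -/
def QN (c : Gs M) : Op t.D := pj t (c.1 π) (Nc 𝒜 (shift π c))

theorem LM_apply (c : Gs M) (e : EuclideanSpace ℝ (Fin t.D)) : LM t c e = I t (c.1 0) (Lc 𝒜 c (Ia t (c.1 π) e)) := rfl
theorem SM_apply (c : Gs M) (e : EuclideanSpace ℝ (Fin t.D)) : SM t c e = I t (c.1 π) (Sc 𝒜 c (Ia t (c.1 0) e)) := rfl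
theorem PN_apply (c : Gs M) (e : EuclideanSpace ℝ (Fin t.D)) :
    PN t c e = I t (c.1 0) ((Nc 𝒜 c).starProjection (Ia t (c.1 0) e)) := rfl
theorem QN_apply (c : Gs M) (e : EuclideanSpace ℝ (Fin t.D)) :
    QN t c e = I t (c.1 π) ((Nc 𝒜 (shift π c)).starProjection (Ia t (c.1 π) e)) := rfl

theorem PN_shift (c : Gs M) : PN t (shift π c) = QN t c := by
  unfold PN QN
  rw [shift_zero_pt]

theorem LM_QN (hB : Bl M) {κ : ℕ} (hk : 𝒜.HK κ) (c : Gs M) : LM t c * QN t c = LM t c := by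
  refine ContinuousLinearMap.ext fun e => ?_
  show LM t c (QN t c e) = LM t c e
  rw [LM_apply, QN_apply, Ia_I, Lc_proj hB hk, LM_apply]

theorem PN_LM (hB : Bl M) {κ : ℕ} (hk : 𝒜.HK κ) (c : Gs M) : PN t c * LM t c = LM t c := by
  refine ContinuousLinearMap.ext fun e => ?_
  show PN t c (LM t c e) = LM t c e
  rw [PN_apply, LM_apply, Ia_I, proj_Lc hB hk]

theorem SM_LM (hB : Bl M) {κ : ℕ} (hk : 𝒜.HK κ) (c : Gs M) : SM t c * LM t c = QN t c := by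
  refine ContinuousLinearMap.ext fun e => ?_
  show SM t c (LM t c e) = QN t c e
  rw [SM_apply, LM_apply, Ia_I, Sc_Lc hB hk, QN_apply]

theorem Sc_proj (hB : Bl M) (c : Gs M) (x : Eu n) : Sc 𝒜 c ((Nc 𝒜 c).starProjection x) = Sc 𝒜 c x := by
  rw [projN_eq, map_sub, Sc_V hB (Submodule.starProjection_apply_mem _ _), sub_zero]

theorem SM_PN (hB : Bl M) (c : Gs M) : SM t c * PN t c = SM t c := by
  refine ContinuousLinearMap.ext fun e => ?_
  show SM t c (PN t c e) = SM t c e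
  rw [PN_apply, SM_apply, Ia_I, Sc_proj hB, SM_apply]

theorem QN_SM (hB : Bl M) (c : Gs M) : QN t c * SM t c = SM t c := by
  refine ContinuousLinearMap.ext fun e => ?_
  show QN t c (SM t c e) = SM t c e
  rw [QN_apply, SM_apply, Ia_I, Submodule.starProjection_eq_self_iff.2 (Sc_mem hB c _)]

theorem LM_SM (hB : Bl M) {κ : ℕ} (hk : 𝒜.HK κ) (c : Gs M) : LM t c * SM t c = PN t c := by
  refine ContinuousLinearMap.ext fun e => ?_
  show LM t c (SM t c e) = PN t c e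
  rw [SM_apply, LM_apply, Ia_I, ← Sc_proj hB, Lc_Sc hB hk (Submodule.starProjection_apply_mem _ _), PN_apply]

theorem LM_inj (hB : Bl M) {κ : ℕ} (hk : 𝒜.HK κ) {c : Gs M} {e : EuclideanSpace ℝ (Fin t.D)} (h : QN t c e = e)
    (h0 : LM t c e = 0) : e = 0 := by
  rw [← h, ← SM_LM t hB hk]
  show SM t c (LM t c e) = 0
  rw [h0, map_zero]

theorem SM_inj (hB : Bl M) {κ : ℕ} (hk : 𝒜.HK κ) {c : Gs M} {e : EuclideanSpace ℝ (Fin t.D)} (h : PN t c e = e)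
    (h0 : SM t c e = 0) : e = 0 := by
  rw [← h, ← LM_SM t hB hk]
  show LM t c (SM t c e) = 0
  rw [h0, map_zero]

theorem finrank_PN (hB : Bl M) {κ : ℕ} (hk : 𝒜.HK κ) (c : Gs M) :
    finrank ℝ (LinearMap.range (PN t c : EuclideanSpace ℝ (Fin t.D) →ₗ[ℝ] EuclideanSpace ℝ (Fin t.D))) + (κ + 1) = n := by
  unfold PN
  rw [finrank_pj]
  exact finrank_Nc 𝒜 hB hk c

theorem finrank_QN (hB : Bl M) {κ : ℕ} (hk : 𝒜.HK κ) (c : Gs M) :
    finrank ℝ (LinearMap.range (QN t c : EuclideanSpace ℝ (Fin t.D) →ₗ[ℝ] EuclideanSpace ℝ (Fin t.D))) + (κ + 1) = n := by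
  unfold QN
  rw [finrank_pj]
  exact finrank_Nc 𝒜 hB hk _

/-- `L` is the pseudo-inverse of `S` -/
theorem LM_eq_pinv (hB : Bl M) {κ : ℕ} (hk : 𝒜.HK κ) (c : Gs M) : LM t c = pinv (PN t c) (SM t c) := by
  have h1 : SM t c * pinv (PN t c) (SM t c) = QN t c :=
    mul_pinv (pj_adj t _ _) (pj_pj t _ _) (pj_adj t _ _) (SM_PN t hB c) (QN_SM t hB c) (fun e h h0 => SM_inj t hB hk h h0)
      (by have h2 := finrank_PN t hB hk c; have h3 := finrank_QN t hB hk c; omega)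
  have h2 : PN t c * pinv (PN t c) (SM t c) = pinv (PN t c) (SM t c) :=
    mul_pinv' (pj_adj t _ _) (pj_pj t _ _) (SM_PN t hB c) (fun e h h0 => SM_inj t hB hk h h0)
  calc LM t c = LM t c * QN t c := (LM_QN t hB hk c).symm
    _ = PN t c * pinv (PN t c) (SM t c) := by rw [← h1, ← mul_assoc, LM_SM t hB hk]
    _ = pinv (PN t c) (SM t c) := h2

/-! ### smoothness -/

theorem cda_clm {D E F : Type*} [NormedAddCommGroup D] [NormedSpace ℝ D] [NormedAddCommGroup E] [NormedSpace ℝ E]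
    [NormedAddCommGroup F] [NormedSpace ℝ F] [FiniteDimensional ℝ E] {f : D → E →L[ℝ] F} {x : D}
    (h : ∀ y, ContDiffAt ℝ ∞ (fun v => f v y) x) : ContDiffAt ℝ ∞ f x := by
  let d := finrank ℝ E
  have hd : d = finrank ℝ (Fin d → ℝ) := (finrank_fin_fun ℝ).symm
  let e₁ := ContinuousLinearEquiv.ofFinrankEq hd
  let e₂ := (e₁.arrowCongr (1 : F ≃L[ℝ] F)).trans (ContinuousLinearEquiv.piRing (Fin d))
  rw [← Function.id_comp f, ← e₂.symm_comp_self]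
  exact e₂.symm.contDiff.contDiffAt.comp x (contDiffAt_pi.mpr fun i => h _)

theorem smAt_PN (hB : Bl M) {κ : ℕ} (hk : 𝒜.HK κ) {E : Type} [NormedAddCommGroup E] [NormedSpace ℝ E]
    {σ : E → Gs M} {u : E} (h : SmGA 𝒜 σ u) : ContDiffAt ℝ ∞ (fun v => PN t (σ v)) u := by
  refine cda_clm fun e => ?_
  have h1 := smV_Ia t h.1 (𝒜.mem _) (contDiffAt_const (c := e))
  exact sm_I t h.1 (𝒜.mem _) (smV_projN hB hk h (𝒜.mem _) h1)

theorem smAt_SM (hB : Bl M) {E : Type} [NormedAddCommGroup E] [NormedSpace ℝ E]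
    {σ : E → Gs M} {u : E} (h : SmGA 𝒜 σ u) : ContDiffAt ℝ ∞ (fun v => SM t (σ v)) u := by
  refine cda_clm fun e => ?_
  have h1 := smV_Ia t h.1 (𝒜.mem _) (contDiffAt_const (c := e))
  exact sm_I t (h.at hB π) (𝒜.mem _) (smV_Sc hB h (𝒜.mem _) (𝒜.mem _) h1)

theorem smAt_LM (hB : Bl M) {κ : ℕ} (hk : 𝒜.HK κ) {E : Type} [NormedAddCommGroup E] [NormedSpace ℝ E]
    {σ : E → Gs M} {u : E} (h : SmGA 𝒜 σ u) : ContDiffAt ℝ ∞ (fun v => LM t (σ v)) u := by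
  simp only [LM_eq_pinv t hB hk]
  exact contDiffAt_pinv (smAt_PN t hB hk h) (smAt_SM t hB h)
    (isUnit_Gr (pj_adj t _ _) (pj_pj t _ _) fun e h1 h0 => SM_inj t hB hk h1 h0)

theorem smG_PN (hB : Bl M) {κ : ℕ} (hk : 𝒜.HK κ) {E : Type} [NormedAddCommGroup E] [NormedSpace ℝ E]
    {σ : E → Gs M} (h : SmG 𝒜 σ) : ContDiff ℝ ∞ (fun v => PN t (σ v)) :=
  contDiff_iff_contDiffAt.2 fun u => smAt_PN t hB hk (h.at u)

theorem smG_QN (hB : Bl M) {κ : ℕ} (hk : 𝒜.HK κ) {E : Type} [NormedAddCommGroup E] [NormedSpace ℝ E]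
    {σ : E → Gs M} (h : SmG 𝒜 σ) : ContDiff ℝ ∞ (fun v => QN t (σ v)) := by
  simp only [← PN_shift]
  exact smG_PN t hB hk (SmG.shift hB h contDiff_const)

theorem smG_LM (hB : Bl M) {κ : ℕ} (hk : 𝒜.HK κ) {E : Type} [NormedAddCommGroup E] [NormedSpace ℝ E]
    {σ : E → Gs M} (h : SmG 𝒜 σ) : ContDiff ℝ ∞ (fun v => LM t (σ v)) :=
  contDiff_iff_contDiffAt.2 fun u => smAt_LM t hB hk (h.at u)

/-! ### rotation -/

variable {c c' : Gs M}

theorem LM_rr (hB : Bl M) {κ : ℕ} (hk : 𝒜.HK κ) (h : Dp 𝒜 c c') (θ : ℝ) :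
    LM t (rr 𝒜 hB θ c c') = cos θ • LM t c + sin θ • LM t c' := by
  have h0 := rr_foot (𝒜 := 𝒜) hB θ c c'
  have h1 := rr_top hB h θ
  have h2 : Lc 𝒜 (rr 𝒜 hB θ c c') = cos θ • Lc 𝒜 c + sin θ • Lc 𝒜 c' :=
    Lc_lin' hB hk h0.symm h1.symm (h.1.trans h0.symm) (h.2.1.trans h1.symm) (rr_vel hB h θ)
  refine ContinuousLinearMap.ext fun e => ?_
  show LM t (rr 𝒜 hB θ c c') e = cos θ • LM t c e + sin θ • LM t c' e
  rw [LM_apply, LM_apply, LM_apply, h0, h1, h.1, h.2.1, h2]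
  simp only [ContinuousLinearMap.add_apply, ContinuousLinearMap.smul_apply, map_add, map_smul]

theorem PN_congr (hB : Bl M) (h0 : c'.1 0 = c.1 0) (h1 : c'.1 π = c.1 π) : PN t c' = PN t c := by
  unfold PN
  rw [h0, Nc_congr hB h0 h1]

theorem QN_congr (hB : Bl M) (h0 : c'.1 0 = c.1 0) (h1 : c'.1 π = c.1 π) : QN t c' = QN t c := by
  unfold QN
  rw [h1, Nc_shift_congr hB h0 h1]

theorem dat_rr (hB : Bl M) {κ : ℕ} (hk : 𝒜.HK κ) (h : Dp 𝒜 c c') : Dat (QN t c) (PN t c) (LM t c) (LM t c') where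
  sP := pj_adj t _ _
  PP := pj_pj t _ _
  sQ := pj_adj t _ _
  QQ := pj_pj t _ _
  XP := LM_QN t hB hk c
  YP := by rw [← QN_congr t hB h.1 h.2.1]; exact LM_QN t hB hk c'
  QX := PN_LM t hB hk c
  QY := by rw [← PN_congr t hB h.1 h.2.1]; exact PN_LM t hB hk c'
  rk := by have h2 := finrank_PN t hB hk c; have h3 := finrank_QN t hB hk c; omega
  inj s x hx h0 := by
    have h1 : Bp (LM t c) (LM t c') s = LM t (rr 𝒜 hB s c c') := (LM_rr t hB hk h s).symm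
    rw [h1] at h0
    refine LM_inj t hB hk ?_ h0
    rw [QN_congr t hB (rr_foot hB s c c') (rr_top hB h s)]
    exact hx

end TE

open TE

/-- **the pencils of a Blaschke manifold** -/
def wd (hB : Bl M) {κ : ℕ} (hk : 𝒜.HK κ) : WD (spD 𝒜) (circD hB) t.D where
  P z := QN t z.1.1
  Q z := PN t z.1.1
  A z := LM t z.1.1
  B z := LM t z.1.2
  smP _ p := smG_QN t hB hk p.2.1
  smQ _ p := smG_PN t hB hk p.2.1
  smA _ p := smG_LM t hB hk p.2.1
  smB _ p := smG_LM t hB hk p.2.2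
  dat z := dat_rr t hB hk z.2
  invP z s := QN_congr t hB (rr_foot hB _ _ _) (rr_top hB z.2 _)
  invQ z s := PN_congr t hB (rr_foot hB _ _ _) (rr_top hB z.2 _)
  rotA z s := LM_rr t hB hk z.2 _
  rotB z s := by
    show LM t (rr 𝒜 hB (2 * π * s + π / 2) z.1.1 z.1.2) = _
    rw [LM_rr t hB hk z.2, cos_add_pi_div_two, sin_add_pi_div_two]
    rfl

end Pool.Agent.Lib.MP_ccbbf6_gt.L5.WK
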