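import Pool.Agent.Lib.MP_ccbbf6_gt.L5.TE3
import Pool.Agent.Lib.MP_ccbbf6_gt.L5.WK4
import Pool.Agent.Lib.MP_ccbbf6_gt.L5.WK7

/-!
# Level 5, block WK, file 8 (helper79): `TM = V + N` on `spD`, both ends, over the invariant functions

At the point `(c, c')` of `spD`, `p = c 0`, `q = c π`:
`TPm = Vp + QM` (at `p`), `TQm = Vq + PM` (at `q`), `QM = W' + conj W'`, `PM = W + conj W`.
-/

set_option autoImplicit false
set_option maxSynthPendingDepth 3
set_option linter.unusedSectionVars false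

open Set Filter Topology Metric Real Module Matrix
open scoped ContDiff RealInnerProductSpace

noncomputable section

namespace Pool.Agent.Lib.MP_ccbbf6_gt.L5.WK

open Geo L4 L4.FR L4.ORI G3

/-! ### pull back along invariant maps -/

section pb

variable {X Y : Space} {c : Circ X} {ι κ : Type*}

/-- pull-back of functions along an invariant map -/
def pfB (f : SMap X Y) (hf : IMap c f) : SF Y →ₐ[ℝ] SB c :=
  (pf f).codRestrict (SB c) fun y x s => by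
    show y.1 (f.1 (c.a.1 (x, s))) = y.1 (f.1 x)
    rw [hf]

theorem pfB_val (f : SMap X Y) (hf : IMap c f) (y : SF Y) : (SB c).val (pfB f hf y) = pf f y := rfl

theorem map_pfB (f : SMap X Y) (hf : IMap c f) (M : Matrix ι κ (SF Y)) :
    (M.map (pfB f hf)).map (SB c).val = M.map (pf f) := rfl

end pb

/-! ### projections in `ℝ^D` -/

theorem mt_star {D : ℕ} (W : Submodule ℝ (EuclideanSpace ℝ (Fin D))) : mt (W.starProjection) = OT.pW W := by
  ext i j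
  rw [mt_apply]
  rfl

variable {n κ : ℕ} {M : Type} [MetricSpace M] [CompactSpace M] {𝒜 : SDist n M} (t : TEmb 𝒜)

namespace TE

theorem pj_eq (x : M) (W : Submodule ℝ (Eu n)) : pj t x W = (W.map (t.i x).toLinearMap).starProjection := by
  refine ContinuousLinearMap.ext fun e => ?_
  symm
  refine Submodule.eq_starProjection_of_mem_of_inner_eq_zero ?_ ?_
  · rw [pj_apply]
    exact Submodule.mem_map_of_mem (Submodule.starProjection_apply_mem _ _)
  · rintro _ ⟨w, hw, rfl⟩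
    show ⟪e - pj t x W e, I t x w⟫ = (0 : ℝ)
    rw [pj_apply, inner_sub_left, real_inner_comm, ← inner_Ia, I_apply, I_apply, (t.i x).inner_map_map,
      Submodule.inner_starProjection_left_eq_right W, Submodule.starProjection_eq_self_iff.2 hw, real_inner_comm w,
      sub_self]

theorem pj_top (x : M) (W : Submodule ℝ (Eu n)) : pj t x ⊤ = pj t x W + pj t x Wᗮ := by
  refine ContinuousLinearMap.ext fun e => ?_
  show pj t x ⊤ e = pj t x W e + pj t x Wᗮ e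
  rw [pj_apply, pj_apply, pj_apply, ← map_add]
  congr 1
  rw [(Submodule.starProjection_eq_self_iff (K := (⊤ : Submodule ℝ (Eu n)))).2 Submodule.mem_top,
    Submodule.starProjection_orthogonal_val]
  abel

theorem pj_orth (x : M) (W : Submodule ℝ (Eu n)) : pj t x W * pj t x Wᗮ = 0 := by
  refine ContinuousLinearMap.ext fun e => ?_
  show pj t x W (pj t x Wᗮ e) = 0
  rw [pj_apply, pj_apply, Ia_I, (Submodule.starProjection_apply_eq_zero_iff (K := W)).2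
    (Submodule.starProjection_apply_mem _ _), map_zero]

theorem pj_orth' (x : M) (W : Submodule ℝ (Eu n)) : pj t x Wᗮ * pj t x W = 0 := by
  refine ContinuousLinearMap.ext fun e => ?_
  show pj t x Wᗮ (pj t x W e) = 0
  rw [pj_apply, pj_apply, Ia_I, (Submodule.starProjection_apply_eq_zero_iff (K := Wᗮ)).2
    (by rw [Submodule.orthogonal_orthogonal]; exact Submodule.starProjection_apply_mem _ _), map_zero]

/-- projection on `i_p V(p, q)` -/
theorem mt_V (hB : Bl M) (c : Gs M) : OT.pW (L5.TE.WV t ((gF hB).1 c)) = mt (pj t (c.1 0) (Vc 𝒜 c)) := by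
  rw [pj_eq, mt_star]
  unfold L5.TE.WV
  rw [VF_gF]
  rfl

theorem mt_T (x : M) : OT.pW (L5.TE.WM t x) = mt (pj t x ⊤) := by
  rw [pj_eq, mt_star]
  rfl

theorem gF_shift (hB : Bl M) (c : Gs M) : (gF (𝒜 := 𝒜) hB).1 (shift π c) = (L5.TE.sw 𝒜).1 ((gF hB).1 c) :=
  Subtype.ext (Prod.ext (shift_zero_pt c π) (shift_pi_pi 𝒜 hB c))

/-- projection on `i_q V(q, p)` -/
theorem mt_V' (hB : Bl M) (c : Gs M) :
    OT.pW (L5.TE.WV t ((L5.TE.sw 𝒜).1 ((gF hB).1 c))) = mt (pj t (c.1 π) (Vc 𝒜 (shift π c))) := by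
  rw [← gF_shift, mt_V, shift_zero_pt]

end TE

open Pool.Agent.Lib.MP_ccbbf6_gt.L5.WK.TE

/-! ### the maps -/

/-- the first geodesic -/
def pG (𝒜 : SDist n M) : SMap (spD 𝒜) (spG 𝒜) := ⟨fun z => z.1.1, fun _ p => p.2.1⟩

/-- the end points -/
def dF (hB : Bl M) : SMap (spD 𝒜) (spF 𝒜) := (gF hB).comp (pG 𝒜)

/-- the end points, exchanged -/
def dF' (hB : Bl M) : SMap (spD 𝒜) (spF 𝒜) := (L5.TE.sw 𝒜).comp (dF hB)

theorem inv_dF (hB : Bl M) : IMap (circD hB) (dF (𝒜 := 𝒜) hB) := fun z _ =>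
  Subtype.ext (Prod.ext (rr_foot hB _ _ _) (rr_top hB z.2 _))

theorem inv_dF' (hB : Bl M) : IMap (circD hB) (dF' (𝒜 := 𝒜) hB) := fun z s => by
  show (L5.TE.sw 𝒜).1 ((dF hB).1 _) = _
  rw [inv_dF hB z s]
  rfl

theorem inv_comp {X Y Z : Space} {c : Circ X} {f : SMap X Y} (hf : IMap c f) (g : SMap Y Z) : IMap c (g.comp f) :=
  fun x s => congrArg g.1 (hf x s)

/-! ### the matrices -/

variable (hB : Bl M) (hk : 𝒜.HK κ) (hL : LocV 𝒜 κ) (hn : 0 < n)

/-- `T_p M` -/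
def TPm : Matrix (Fin t.D) (Fin t.D) (SB (circD (𝒜 := 𝒜) hB)) :=
  (L5.TE.PM t hn).map (pfB ((pF1 𝒜).comp (dF hB)) (inv_comp (inv_dF hB) _))

/-- `T_q M` -/
def TQm : Matrix (Fin t.D) (Fin t.D) (SB (circD (𝒜 := 𝒜) hB)) :=
  (L5.TE.PM t hn).map (pfB ((pF2 𝒜).comp (dF hB)) (inv_comp (inv_dF hB) _))

/-- `V(p, q)` -/
def Vp : Matrix (Fin t.D) (Fin t.D) (SB (circD (𝒜 := 𝒜) hB)) := (L5.TE.PV t hB hk hL).map (pfB (dF hB) (inv_dF hB))

/-- `V(q, p)` -/
def Vq : Matrix (Fin t.D) (Fin t.D) (SB (circD (𝒜 := 𝒜) hB)) := (L5.TE.PV t hB hk hL).map (pfB (dF' hB) (inv_dF' hB))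

theorem TPm_eq : TPm t hB hn = Vp t hB hk hL + (wd t hB hk).QM := by
  refine SBm_inj (SF_mat_ext fun z => ?_)
  show OT.pW (L5.TE.WM t (z.1.1.1 0)) = OT.pW (L5.TE.WV t ((gF hB).1 z.1.1)) + mt (PN t z.1.1)
  rw [mt_T, mt_V, ← mt_add, pj_top t _ (Vc 𝒜 z.1.1)]
  rfl

theorem TQm_eq : TQm t hB hn = Vq t hB hk hL + (wd t hB hk).PM := by
  refine SBm_inj (SF_mat_ext fun z => ?_)
  show OT.pW (L5.TE.WM t (z.1.1.1 π)) = OT.pW (L5.TE.WV t ((L5.TE.sw 𝒜).1 ((gF hB).1 z.1.1))) + mt (QN t z.1.1)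
  rw [mt_T, mt_V', ← mt_add, pj_top t _ (Vc 𝒜 (shift π z.1.1))]
  rfl

theorem Vp_QM : Vp t hB hk hL * (wd t hB hk).QM = 0 := by
  refine SBm_inj (SF_mat_ext fun z => ?_)
  rw [Matrix.map_mul, Matrix.map_mul]
  show OT.pW (L5.TE.WV t ((gF hB).1 z.1.1)) * mt (PN t z.1.1) = _
  rw [mt_V, ← mt_mul, PN, Nc, pj_orth, mt_zero]
  rfl

theorem QM_Vp : (wd t hB hk).QM * Vp t hB hk hL = 0 := by
  refine SBm_inj (SF_mat_ext fun z => ?_)
  rw [Matrix.map_mul, Matrix.map_mul]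
  show mt (PN t z.1.1) * OT.pW (L5.TE.WV t ((gF hB).1 z.1.1)) = _
  rw [mt_V, ← mt_mul, PN, Nc, pj_orth', mt_zero]
  rfl

theorem Vq_PM : Vq t hB hk hL * (wd t hB hk).PM = 0 := by
  refine SBm_inj (SF_mat_ext fun z => ?_)
  rw [Matrix.map_mul, Matrix.map_mul]
  show OT.pW (L5.TE.WV t ((L5.TE.sw 𝒜).1 ((gF hB).1 z.1.1))) * mt (QN t z.1.1) = _
  rw [mt_V', ← mt_mul, QN, Nc, pj_orth, mt_zero]
  rfl

theorem PM_Vq : (wd t hB hk).PM * Vq t hB hk hL = 0 := by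
  refine SBm_inj (SF_mat_ext fun z => ?_)
  rw [Matrix.map_mul, Matrix.map_mul]
  show mt (QN t z.1.1) * OT.pW (L5.TE.WV t ((L5.TE.sw 𝒜).1 ((gF hB).1 z.1.1))) = _
  rw [mt_V', ← mt_mul, QN, Nc, pj_orth', mt_zero]
  rfl

theorem Vp_Vp : Vp t hB hk hL * Vp t hB hk hL = Vp t hB hk hL := by
  unfold Vp
  rw [← Matrix.map_mul, L5.TE.PV_idem]

theorem Vq_Vq : Vq t hB hk hL * Vq t hB hk hL = Vq t hB hk hL := by
  unfold Vq
  rw [← Matrix.map_mul, L5.TE.PV_idem]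

theorem TPm_TPm : TPm t hB hn * TPm t hB hn = TPm t hB hn := by
  unfold TPm
  rw [← Matrix.map_mul, L5.TE.PM_idem]

theorem TQm_TQm : TQm t hB hn * TQm t hB hn = TQm t hB hn := by
  unfold TQm
  rw [← Matrix.map_mul, L5.TE.PM_idem]

/-- over all functions -/
theorem TPm_val : (TPm t hB hn).map (SB (circD hB)).val = (L5.TE.PM t hn).map (pf ((pF1 𝒜).comp (dF hB))) := rfl
theorem TQm_val : (TQm t hB hn).map (SB (circD hB)).val = (L5.TE.PM t hn).map (pf ((pF2 𝒜).comp (dF hB))) := rfl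
theorem Vp_val : (Vp t hB hk hL).map (SB (circD hB)).val = (L5.TE.PV t hB hk hL).map (pf (dF hB)) := rfl
theorem Vq_val : (Vq t hB hk hL).map (SB (circD hB)).val = (L5.TE.PV t hB hk hL).map (pf (dF' hB)) := rfl

/-- the rank of `N_q`; `WD.rank_W` : twice the rank of `W` is this rank -/
theorem rk_P (z : (spD 𝒜).pt) : finrank ℝ (LinearMap.range ((wd t hB hk).P z :
    EuclideanSpace ℝ (Fin t.D) →ₗ[ℝ] EuclideanSpace ℝ (Fin t.D))) + (κ + 1) = n := finrank_QN t hB hk z.1.1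

/-- the rank of `N_p`; `WD.rank_W'` : twice the rank of `W'` is this rank -/
theorem rk_Q (z : (spD 𝒜).pt) : finrank ℝ (LinearMap.range ((wd t hB hk).Q z :
    EuclideanSpace ℝ (Fin t.D) →ₗ[ℝ] EuclideanSpace ℝ (Fin t.D))) + (κ + 1) = n := finrank_PN t hB hk z.1.1

end Pool.Agent.Lib.MP_ccbbf6_gt.L5.WK
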