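import Pool.Agent.Lib.MP_ccbbf6_gt.L5.RHI
import Pool.Agent.Lib.MP_ccbbf6_gt.L5.TP12
import Pool.Agent.Lib.MP_ccbbf6_gt.L5.WK8

namespace Pool.Agent.Lib.MP_ccbbf6_gt.L5.FR6
end Pool.Agent.Lib.MP_ccbbf6_gt.L5.FR6

/-!
# Level 6, RG7: the structure `KG` of a Blaschke manifold, `κ = 2 n + 1` (helper67)
-/

set_option autoImplicit false
set_option maxSynthPendingDepth 3
set_option maxHeartbeats 400000
set_option linter.unusedSectionVars false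

open Set Filter Topology Matrix
open scoped ContDiff

noncomputable section

namespace Pool.Agent.Lib.MP_ccbbf6_gt.L5.RG

open Geo L4 L4.FR L4.ORI WK FR6

section cls

variable {N q m : ℕ} {M : Type} [MetricSpace M] [CompactSpace M] {𝒜 : SDist (N + 1) M} {hB : Bl M}
  (D : GeoD 𝒜 hB (q + 1) m)

/-- `[u₁]` -/
def q1 : (GB (circD (𝒜 := 𝒜) hB)).HE := Ideal.Quotient.mk (GB (circD (𝒜 := 𝒜) hB)).Ex (rx1 D)

/-- `[u₂]` -/
def q2 : (GB (circD (𝒜 := 𝒜) hB)).HE := Ideal.Quotient.mk (GB (circD (𝒜 := 𝒜) hB)).Ex (rx2 D)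

variable (𝒜 hB) in
/-- pull-back along the first end point -/
def F1 : FHom (FO (spM 𝒜)) (FB (circD (𝒜 := 𝒜) hB)) := FHom.toB ((pF1 𝒜).comp (WK.dF hB)) (inv_comp (inv_dF hB) _)

variable (𝒜 hB) in
/-- pull-back along the second end point -/
def F2 : FHom (FO (spM 𝒜)) (FB (circD (𝒜 := 𝒜) hB)) := FHom.toB ((pF2 𝒜).comp (WK.dF hB)) (inv_comp (inv_dF hB) _)

variable (𝒜 hB) in
/-- pull-back along the end points -/
def FD : FHom (FO (spF 𝒜)) (FB (circD (𝒜 := 𝒜) hB)) := FHom.toB (WK.dF hB) (inv_dF hB)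

variable (𝒜 hB) in
/-- pull-back along the end points, exchanged -/
def FD' : FHom (FO (spF 𝒜)) (FB (circD (𝒜 := 𝒜) hB)) := FHom.toB (WK.dF' hB) (inv_dF' hB)

theorem v1 : (((F1 𝒜 hB).h.f D.coh.u : BasR (circD (𝒜 := 𝒜) hB)) : Om (spD 𝒜)) = (dp1 𝒜).pull D.coh.x := by
  rw [D.coh.x_def, ← D.coh.g_p1, ← pull_comp, ← pull_comp]
  rfl

theorem v2 : (((F2 𝒜 hB).h.f D.coh.u : BasR (circD (𝒜 := 𝒜) hB)) : Om (spD 𝒜)) = (dp1 𝒜).pull D.coh.y := by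
  rw [D.coh.y_def, ← D.coh.g_p2, ← pull_comp, ← pull_comp]
  rfl

theorem he_F1 : (F1 𝒜 hB).h.he D.coh.ku = q1 D := by
  unfold CohD.ku
  rw [GHom.he_cl]
  exact GDA.cl_congr (Subtype.ext (v1 D)) _ _

theorem he_F2 : (F2 𝒜 hB).h.he D.coh.ku = q2 D := by
  unfold CohD.ku
  rw [GHom.he_cl]
  exact GDA.cl_congr (Subtype.ext (v2 D)) _ _

theorem he_FD1 : (FD 𝒜 hB).h.he D.coh.k1 = q1 D := by
  unfold CohD.k1 CohD.ku
  rw [GHom.he_cl, GHom.he_cl]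
  exact GDA.cl_congr (Subtype.ext (v1 D)) _ _

theorem he_FD2 : (FD 𝒜 hB).h.he D.coh.k2 = q2 D := by
  unfold CohD.k2 CohD.ku
  rw [GHom.he_cl, GHom.he_cl]
  exact GDA.cl_congr (Subtype.ext (v2 D)) _ _

theorem he_FD1' : (FD' 𝒜 hB).h.he D.coh.k1 = q2 D := by
  unfold CohD.k1 CohD.ku
  rw [GHom.he_cl, GHom.he_cl]
  exact GDA.cl_congr (Subtype.ext (v2 D)) _ _

theorem he_FD2' : (FD' 𝒜 hB).h.he D.coh.k2 = q1 D := by
  unfold CohD.k2 CohD.ku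
  rw [GHom.he_cl, GHom.he_cl]
  exact GDA.cl_congr (Subtype.ext (v1 D)) _ _

end cls

end Pool.Agent.Lib.MP_ccbbf6_gt.L5.RG
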