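import Pool.Agent.Lib.MP_ccbbf6_gt.L5.RG6
import Pool.Agent.Lib.MP_ccbbf6_gt.L5.RG7

/-!
# Level 6, RG7b: the classes of `V` at the two points (helper67)
-/

set_option autoImplicit false
set_option maxSynthPendingDepth 3
set_option maxHeartbeats 400000
set_option linter.unusedSectionVars false

open Set Filter Topology Matrix
open scoped ContDiff

noncomputable section

namespace Pool.Agent.Lib.MP_ccbbf6_gt.L5.RG

open Geo L4 L4.FR L4.ORI WK FR6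

variable {N n m : ℕ} {M : Type} [MetricSpace M] [CompactSpace M] {𝒜 : SDist (N + 1) M} {hB : Bl M}
  (D : GeoD 𝒜 hB (2 * n + 1) m) (t : TEmb 𝒜)

theorem cVQ {b : ℝ} (c3 : PTd (n + 1) (TE.PV_idem t hB D.hk D.hL) = Asr b D.coh.k1 D.coh.k2)
    (c4 : Per (n + 1) (hpb (TE.PV_idem t hB D.hk D.hL))) (i : ℕ) :
    elc (pn (FB (circD (𝒜 := 𝒜) hB)) (Vq_Vq t hB D.hk D.hL)) i =
      if (n + 1) ∣ i then PowerSeries.coeff (i / (n + 1)) (Asr b (q1 D) (q2 D)) else 0 := by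
  have h := al_cV (FD' 𝒜 hB).h.he (elc_pn_nat (FD' 𝒜 hB) (TE.PV_idem t hB D.hk D.hL) (Vq_Vq t hB D.hk D.hL) rfl i)
    (pn_V D t c3 c4 i) (he_FD1' D) (he_FD2' D)
  rw [Asr_symm] at h
  exact h

theorem cVP {b : ℝ} (c3 : PTd (n + 1) (TE.PV_idem t hB D.hk D.hL) = Asr b D.coh.k1 D.coh.k2)
    (c4 : Per (n + 1) (hpb (TE.PV_idem t hB D.hk D.hL))) (i : ℕ) :
    elc (pn (FB (circD (𝒜 := 𝒜) hB)) (Vp_Vp t hB D.hk D.hL)) i =
      if (n + 1) ∣ i then PowerSeries.coeff (i / (n + 1)) (Asr b (q1 D) (q2 D)) else 0 :=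
  al_cV (FD 𝒜 hB).h.he (elc_pn_nat (FD 𝒜 hB) (TE.PV_idem t hB D.hk D.hL) (Vp_Vp t hB D.hk D.hL) rfl i)
    (pn_V D t c3 c4 i) (he_FD1 D) (he_FD2 D)

end Pool.Agent.Lib.MP_ccbbf6_gt.L5.RG
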