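import Pool.Agent.Lib.MP_ccbbf6_gt.L5.RG5
import Pool.Agent.Lib.MP_ccbbf6_gt.L5.RG7b

/-!
# Level 6, RG8: the structure `KG` of a Blaschke manifold, `κ = 2 n + 1` (helper67)
-/

set_option autoImplicit false
set_option maxSynthPendingDepth 3
set_option maxHeartbeats 400000
set_option linter.unusedSectionVars false

open Set Filter Topology Matrix
open scoped ContDiff

noncomputable section

namespace Pool.Agent.Lib.MP_ccbbf6_gt.L5.RG

open Geo L4 L4.FR L4.ORI WK FR6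

variable {N n m : ℕ} {M : Type} [MetricSpace M] [CompactSpace M] {𝒜 : SDist (N + 1) M} {hB : Bl M}
  (D : GeoD 𝒜 hB (2 * n + 1) m) (t : TEmb 𝒜)

theorem trace_SF {X : Space} {ι : Type*} [Fintype ι] {P : Matrix ι ι (SF X)} {r : ℕ}
    (h : ∀ x, trace (P.map (vl x)) = (r : ℝ)) : trace P = (r : SF X) := SF_ext fun x => by
  have h1 : vl x (trace P) = trace (P.map (vl x)) := by
    unfold trace
    rw [map_sum]
    rfl
  have h2 : vl x ((r : ℕ) : SF X) = (r : ℝ) := map_natCast _ _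
  exact h1.trans ((h x).trans h2.symm)

theorem trace_TQ : trace (TQm t hB (Nat.succ_pos N)) = ((N + 1 : ℕ) : SB (circD (𝒜 := 𝒜) hB)) := by
  have h1 : trace (TQm t hB (Nat.succ_pos N)) = pfB ((pF2 𝒜).comp (WK.dF hB)) (inv_comp (inv_dF hB) _)
      (trace (TE.PM t (Nat.succ_pos N))) := by
    unfold trace
    rw [map_sum]
    rfl
  rw [h1, trace_SF (r := N + 1) (fun x => TE.PM_tr t _ x), map_natCast]

theorem trace_VQ : trace (Vq t hB D.hk D.hL) = ((2 * n + 1 + 1 : ℕ) : SB (circD (𝒜 := 𝒜) hB)) := by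
  have h1 : trace (Vq t hB D.hk D.hL) = pfB (WK.dF' hB) (inv_dF' hB) (trace (TE.PV t hB D.hk D.hL)) := by
    unfold trace
    rw [map_sum]
    rfl
  rw [h1, trace_SF (r := 2 * n + 1 + 1) (fun x => by
    refine (TE.PV_tr t hB D.hk D.hL x).trans ?_
    push_cast
    ring), map_natCast]

/-- **the bundles of the `ρ` side** -/
def KGi {b : ℝ} {P : PowerSeries ℝ} (c2 : PTd (n + 1) (TE.PM_idem t (Nat.succ_pos N)) = evS D.coh.ku P)
    (c3 : PTd (n + 1) (TE.PV_idem t hB D.hk D.hL) = Asr b D.coh.k1 D.coh.k2)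
    (c4 : Per (n + 1) (hpb (TE.PV_idem t hB D.hk D.hL))) : KG (wd t hB D.hk) (n + 1) m b P (q1 D) (q2 D) where
  TP := TPm t hB (Nat.succ_pos N)
  VP := Vp t hB D.hk D.hL
  TQ := TQm t hB (Nat.succ_pos N)
  VQ := Vq t hB D.hk D.hL
  iTP := TPm_TPm t hB (Nat.succ_pos N)
  sTP := by
    unfold TPm
    rw [← Matrix.transpose_map, TE.PM_symm]
  iVP := Vp_Vp t hB D.hk D.hL
  sVP := by
    unfold Vp
    rw [← Matrix.transpose_map, TE.PV_symm]
  iTQ := TQm_TQm t hB (Nat.succ_pos N)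
  sTQ := by
    unfold TQm
    rw [← Matrix.transpose_map, TE.PM_symm]
  iVQ := Vq_Vq t hB D.hk D.hL
  sVQ := by
    unfold Vq
    rw [← Matrix.transpose_map, TE.PV_symm]
  dP := TPm_eq t hB D.hk D.hL (Nat.succ_pos N)
  dP1 := Vp_QM t hB D.hk D.hL
  dP2 := QM_Vp t hB D.hk D.hL
  dQ := TQm_eq t hB D.hk D.hL (Nat.succ_pos N)
  dQ1 := Vq_PM t hB D.hk D.hL
  dQ2 := PM_Vq t hB D.hk D.hL
  tT := by
    have h2 := D.dim
    have h3 : 2 * (n + 1) * m = N + 1 := by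
      rw [h2]
      ring
    rw [h3]
    exact trace_TQ t
  tV := by
    have h3 : 2 * (n + 1) = 2 * n + 1 + 1 := by ring
    rw [h3]
    exact trace_VQ D t
  rkW x := by
    have h1 := rk_P t hB D.hk x
    have h2 := D.dim
    have h3 : 2 * (n + 1) * m = N + 1 := by
      rw [h2]
      ring
    rw [h3]
    omega
  cl :=
    { cTP := fun i _ => al_cT (F1 𝒜 hB).h.he
        (elc_pn_nat (F1 𝒜 hB) (TE.PM_idem t (Nat.succ_pos N)) (TPm_TPm t hB (Nat.succ_pos N)) rfl i) (pn_M D t c2 i) (he_F1 D)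
      cTQ := fun i _ => al_cT (F2 𝒜 hB).h.he
        (elc_pn_nat (F2 𝒜 hB) (TE.PM_idem t (Nat.succ_pos N)) (TQm_TQm t hB (Nat.succ_pos N)) rfl i) (pn_M D t c2 i) (he_F2 D)
      cV := fun i => cVQ D t c3 c4 i
      cV' := fun i => (cVP D t c3 c4 i).trans (cVQ D t c3 c4 i).symm }

end Pool.Agent.Lib.MP_ccbbf6_gt.L5.RG
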