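import Pool.Agent.Lib.MP_ccbbf6_gt.L5.CW1
import Pool.Agent.Lib.MP_ccbbf6_gt.L5.NW

/-!
# Level 5, HE: the even cohomology ring of a differential algebra, characteristic classes (helper13)

`HE G` = (even closed elements) / (differentials).  `G.cl w hw` = class of `w`.
-/

set_option autoImplicit false
set_option linter.unusedSectionVars false

noncomputable section

namespace Pool.Agent.Lib.MP_ccbbf6_gt.L5

open Matrix

variable {B B' B'' : Type*} [Ring B] [Algebra ℝ B] [Ring B'] [Algebra ℝ B'] [Ring B''] [Algebra ℝ B'']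

namespace GDA

variable (G : GDA B)

/-- even closed elements -/
def Zc : Subalgebra ℝ B where
  carrier := {w | G.s w = w ∧ G.d w = 0}
  mul_mem' := fun {a b} ha hb => ⟨by rw [map_mul, ha.1, hb.1], by rw [G.d_mul, ha.2, hb.2, zero_mul, mul_zero, add_zero]⟩
  add_mem' := fun {a b} ha hb => ⟨by rw [map_add, ha.1, hb.1], by rw [map_add, ha.2, hb.2, add_zero]⟩
  algebraMap_mem' := fun r => ⟨AlgHom.commutes _ _, by
    rw [Algebra.algebraMap_eq_smul_one, map_smul, d_one, smul_zero]⟩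

instance : CommRing G.Zc :=
  { (inferInstance : Ring G.Zc) with
    mul_comm := fun a _ => Subtype.ext (G.comm_even _ _ a.2.1) }

/-- the ring of even closed elements -/
instance (priority := 3000) Zc.instCommSemiring : CommSemiring G.Zc := CommRing.toCommSemiring

/-- the ring of even closed elements -/
instance (priority := 3000) Zc.instSemiring : Semiring G.Zc := (Zc.instCommSemiring G).toSemiring

/-- the algebra of even closed elements -/
instance (priority := 3000) Zc.instAlgebra : Algebra ℝ G.Zc := Subalgebra.algebra G.Zc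

/-- exact elements -/
def Ex : Ideal G.Zc where
  carrier := {w | ∃ ξ, G.d ξ = (w : B)}
  add_mem' := by
    rintro a b ⟨ξ, hξ⟩ ⟨η, hη⟩
    exact ⟨ξ + η, by rw [map_add, hξ, hη]; rfl⟩
  zero_mem' := ⟨0, map_zero _⟩
  smul_mem' := by
    rintro c a ⟨ξ, hξ⟩
    refine ⟨(c : B) * ξ, ?_⟩
    rw [G.d_mul, c.2.2, zero_mul, zero_add, c.2.1, hξ]
    rfl

/-- the even cohomology ring -/
abbrev HE := G.Zc ⧸ G.Ex

/-- the cohomology ring -/
instance (priority := 3000) HE.instCommRing : CommRing G.HE := Ideal.Quotient.commRing G.Ex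

/-- the cohomology ring -/
instance (priority := 3000) HE.instCommSemiring : CommSemiring G.HE := (HE.instCommRing G).toCommSemiring

/-- the cohomology ring -/
instance (priority := 3000) HE.instSemiring : Semiring G.HE := (HE.instCommSemiring G).toSemiring

/-- the cohomology ring -/
instance (priority := 3000) HE.instRing : Ring G.HE := (HE.instCommRing G).toRing

/-- the cohomology algebra -/
instance (priority := 3000) HE.instAlgebra : Algebra ℝ G.HE := Ideal.Quotient.algebra ℝ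

/-- the cohomology space -/
instance (priority := 3000) HE.instModule : Module ℝ G.HE := (HE.instAlgebra G).toModule

variable {G}

/-- the class of an even closed element -/
def cl (w : B) (h : G.s w = w) (h' : G.d w = 0) : G.HE := Ideal.Quotient.mk G.Ex ⟨w, h, h'⟩

theorem cl_s {w w' : B} (e : w = w') (h : G.s w = w) : G.s w' = w' := e ▸ h

theorem cl_d {w w' : B} (e : w = w') (h : G.d w = 0) : G.d w' = 0 := e ▸ h

theorem cl_congr {w w' : B} (e : w = w') (h : G.s w = w) (h' : G.d w = 0) :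
    cl w h h' = cl w' (cl_s e h) (cl_d e h') := by
  subst e
  rfl

theorem cl_eq {w w' : B} {h : G.s w = w} {h' : G.d w = 0} {k : G.s w' = w'} {k' : G.d w' = 0} :
    cl w h h' = cl w' k k' ↔ ∃ ξ, w = w' + G.d ξ := by
  unfold cl
  rw [Ideal.Quotient.eq]
  constructor
  · rintro ⟨ξ, hξ⟩
    refine ⟨ξ, ?_⟩
    have h1 : G.d ξ = w - w' := hξ
    rw [h1, add_sub_cancel]
  · rintro ⟨ξ, hξ⟩
    refine ⟨ξ, ?_⟩
    change G.d ξ = w - w'
    rw [hξ, add_sub_cancel_left]

theorem cl_eq_zero {w : B} {h : G.s w = w} {h' : G.d w = 0} : cl w h h' = 0 ↔ ∃ ξ, w = G.d ξ := by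
  have h0 : (0 : G.HE) = cl 0 (map_zero _) (map_zero _) := (map_zero (Ideal.Quotient.mk G.Ex)).symm
  rw [h0, cl_eq]
  simp only [zero_add]

theorem cl_surj (x : G.HE) : ∃ (w : B) (a : G.s w = w) (b : G.d w = 0), cl w a b = x := by
  obtain ⟨⟨w, a, b⟩, rfl⟩ := Ideal.Quotient.mk_surjective x
  exact ⟨w, a, b, rfl⟩

theorem cl_mul {w w' : B} {h : G.s w = w} {h' : G.d w = 0} {k : G.s w' = w'} {k' : G.d w' = 0} :
    cl w h h' * cl w' k k' = cl (w * w') (by rw [map_mul, h, k])
      (by rw [G.d_mul, h', k', zero_mul, mul_zero, add_zero]) := (map_mul (Ideal.Quotient.mk G.Ex) _ _).symm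

theorem cl_add {w w' : B} {h : G.s w = w} {h' : G.d w = 0} {k : G.s w' = w'} {k' : G.d w' = 0} :
    cl w h h' + cl w' k k' = cl (w + w') (by rw [map_add, h, k]) (by rw [map_add, h', k', add_zero]) :=
  (map_add (Ideal.Quotient.mk G.Ex) _ _).symm

theorem cl_sub {w w' : B} {h : G.s w = w} {h' : G.d w = 0} {k : G.s w' = w'} {k' : G.d w' = 0} :
    cl w h h' - cl w' k k' = cl (w - w') (by rw [map_sub, h, k]) (by rw [map_sub, h', k', sub_zero]) :=
  (map_sub (Ideal.Quotient.mk G.Ex) _ _).symm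

theorem cl_neg {w : B} {h : G.s w = w} {h' : G.d w = 0} :
    -cl w h h' = cl (-w) (by rw [map_neg, h]) (by rw [map_neg, h', neg_zero]) :=
  (map_neg (Ideal.Quotient.mk G.Ex) _).symm

theorem cl_smul {r : ℝ} {w : B} {h : G.s w = w} {h' : G.d w = 0} :
    r • cl w h h' = cl (r • w) (by rw [map_smul, h]) (by rw [map_smul, h', smul_zero]) := rfl

theorem cl_one : cl (1 : B) (map_one _) (GDA.d_one (G := G)) = (1 : G.HE) := map_one (Ideal.Quotient.mk G.Ex)

theorem cl_pow {w : B} {h : G.s w = w} {h' : G.d w = 0} (j : ℕ) :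
    ∃ k k', cl w h h' ^ j = cl (G := G) (w ^ j) k k' := by
  induction j with
  | zero => exact ⟨by rw [pow_zero, map_one], by rw [pow_zero, d_one], by simp only [pow_zero]; exact cl_one.symm⟩
  | succ j ih =>
    obtain ⟨k, k', e⟩ := ih
    refine ⟨by rw [map_pow, h], by rw [pow_succ, G.d_mul, k', zero_mul, h', mul_zero, add_zero], ?_⟩
    rw [pow_succ, e, cl_mul]
    simp only [pow_succ]

end GDA

namespace GHom

variable {G : GDA B} {G' : GDA B'} {G'' : GDA B''} (f : GHom G G')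

/-- the map of closed even elements -/
def zc : G.Zc →ₐ[ℝ] G'.Zc where
  toFun w := ⟨f.f w, by rw [← f.f_s, w.2.1], by rw [← f.f_d, w.2.2, map_zero]⟩
  map_one' := Subtype.ext (map_one _)
  map_mul' := fun _ _ => Subtype.ext (map_mul _ _ _)
  map_zero' := Subtype.ext (map_zero _)
  map_add' := fun _ _ => Subtype.ext (map_add _ _ _)
  commutes' := fun _ => Subtype.ext (AlgHom.commutes _ _)

/-- the map of the cohomology rings -/
def he : G.HE →ₐ[ℝ] G'.HE :=
  Ideal.Quotient.liftₐ G.Ex ((Ideal.Quotient.mkₐ ℝ G'.Ex).comp f.zc) (by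
    rintro w ⟨ξ, hξ⟩
    change Ideal.Quotient.mk G'.Ex (f.zc w) = 0
    rw [Ideal.Quotient.eq_zero_iff_mem]
    refine ⟨f.f ξ, ?_⟩
    rw [← f.f_d, hξ]
    rfl)

theorem he_cl {w : B} {h : G.s w = w} {h' : G.d w = 0} :
    f.he (GDA.cl w h h') = GDA.cl (f.f w) (by rw [← f.f_s, h]) (by rw [← f.f_d, h', map_zero]) := rfl

end GHom

/-! ### characteristic classes -/

namespace GDA

variable {G : GDA B} {ι κ : Type*} [Fintype ι] [DecidableEq ι] [Fintype κ] [DecidableEq κ]

/-- a vector bundle -/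
def hps {P : Matrix ι ι B} (h : G.Idem P) (j : ℕ) : G.HE := cl (G.ps P j) (h.s_ps j) (h.d_ps j)

theorem hps_eq {P : Matrix ι ι B} {Q : Matrix κ κ B} {h : G.Idem P} {h' : G.Idem Q} {j : ℕ}
    (e : ∃ ξ, G.ps Q j = G.ps P j + G.d ξ) : hps h' j = hps h j := cl_eq.2 e

/-- power sums of a complementary bundle -/
theorem hps_compl {P : Matrix ι ι B} (h : G.Idem P) {j : ℕ} (hj : j ≠ 0) : hps h.compl j = -hps h j := by
  rw [eq_neg_iff_add_eq_zero, add_comm]
  unfold hps
  rw [cl_add, cl_eq_zero]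
  exact ⟨0, by rw [h.ps_compl hj, map_zero]⟩

/-- Chern class (without the factors `2 π i`) -/
def hc {P : Matrix ι ι B} (h : G.Idem P) (j : ℕ) : G.HE := elc (hps h) j

theorem hc_zero {P : Matrix ι ι B} (h : G.Idem P) : hc h 0 = 1 := elc_zero _

end GDA

theorem GHom.he_hps {G : GDA B} {G' : GDA B'} (f : GHom G G') {ι : Type*} [Fintype ι] [DecidableEq ι]
    {P : Matrix ι ι B} (h : G.Idem P) (j : ℕ) : f.he (GDA.hps h j) = GDA.hps (f.idem h) j := by
  unfold GDA.hps
  rw [GHom.he_cl]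
  exact GDA.cl_congr (f.ps P j) _ _

theorem GHom.he_hc {G : GDA B} {G' : GDA B'} (f : GHom G G') {ι : Type*} [Fintype ι] [DecidableEq ι]
    {P : Matrix ι ι B} (h : G.Idem P) (j : ℕ) : f.he (GDA.hc h j) = GDA.hc (f.idem h) j := by
  unfold GDA.hc
  rw [map_elc]
  congr 1
  funext k
  exact f.he_hps h k

namespace Cyl

variable {G : GDA B} {G' : GDA B'} (C : Cyl G G') {ι κ : Type*} [Fintype ι] [DecidableEq ι] [Fintype κ]
  [DecidableEq κ]

include C in
/-- isomorphic bundles have the same classes -/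
theorem hps_iso {P : Matrix ι ι B} {Q : Matrix κ κ B} {a : Matrix ι κ B} {b : Matrix κ ι B} (hP : G.Idem P)
    (hQ : G.Idem Q) (ha : G.Ev a) (hb : G.Ev b) (h1 : a * b = P) (h2 : b * a = Q) (j : ℕ) :
    GDA.hps hQ j = GDA.hps hP j := GDA.hps_eq (C.iso' hP hQ ha hb h1 h2 j)

include C in
theorem hc_iso {P : Matrix ι ι B} {Q : Matrix κ κ B} {a : Matrix ι κ B} {b : Matrix κ ι B} (hP : G.Idem P)
    (hQ : G.Idem Q) (ha : G.Ev a) (hb : G.Ev b) (h1 : a * b = P) (h2 : b * a = Q) (j : ℕ) :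
    GDA.hc hQ j = GDA.hc hP j := by
  unfold GDA.hc
  congr 1
  funext k
  exact C.hps_iso hP hQ ha hb h1 h2 k

include C in
/-- additivity -/
theorem hps_add {P Q : Matrix ι ι B} (hP : G.Idem P) (hQ : G.Idem Q) (hPQ : G.Idem (P + Q)) (h1 : P * Q = 0)
    (h2 : Q * P = 0) (j : ℕ) : GDA.hps hPQ j = GDA.hps hP j + GDA.hps hQ j := by
  unfold GDA.hps
  rw [GDA.cl_add, GDA.cl_eq]
  exact C.add hP hQ h1 h2 j

include C in
/-- Whitney formula -/
theorem hc_add {P Q : Matrix ι ι B} (hP : G.Idem P) (hQ : G.Idem Q) (hPQ : G.Idem (P + Q)) (h1 : P * Q = 0)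
    (h2 : Q * P = 0) (j : ℕ) :
    GDA.hc hPQ j = ∑ x ∈ Finset.HasAntidiagonal.antidiagonal j, GDA.hc hP x.1 * GDA.hc hQ x.2 := by
  unfold GDA.hc
  rw [← elc_add]
  congr 1
  funext k
  exact C.hps_add hP hQ hPQ h1 h2 k

include C in
theorem hps_same {P Q : Matrix ι ι B} (hP : G.Idem P) (hQ : G.Idem Q) (h1 : P * Q = Q) (h2 : Q * P = P) (j : ℕ) :
    GDA.hps hQ j = GDA.hps hP j := GDA.hps_eq (C.same hP hQ h1 h2 j)

end Cyl

end Pool.Agent.Lib.MP_ccbbf6_gt.L5
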