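import Pool.Agent.Lib.MP_ccbbf6_gt.ML

/-!
# Level 5, XI: positivity of the odd coefficient `c_(2m-1)` of `Ξ` for `k = 4`, `b ≥ 6`

`Ξ(t) = exp (∑ (-1)^(j-1) P_j t^j / j)` with `P_j = (m+1) b q_((j+1)/2) - b` (`j` odd),
`P_j = (m+1) q_(j/2) - 2` (`j` even), `q_0 = 2`, `q_1 = 1/2`, `q_(i+2) = q_(i+1)/2 - q_i/(4b^2)`.
With `e_k = [t^k] Ξ`, `(k+1) e_(k+1) = ∑_i (-1)^i P_(i+1) e_(k-i)`.  The logarithmic derivative of
`Ξ` is rational, hence a linear recurrence of order 6 (`Xi_rec`) and a ratio induction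
(`Xi_ratio`): `j e_j ≥ (9/20) b (m-1) e_(j-1)` for `1 ≤ j ≤ 2m-1`.
-/

set_option autoImplicit false

noncomputable section

namespace Pool.Agent.Lib.MP_ccbbf6_gt.L5

namespace XiF

/-- the extension of a sequence by zero, shifted by `j` -/
def ev (F : ℕ → ℝ) (k j : ℕ) : ℝ := if j ≤ k then F (k - j) else 0

theorem ev_succ (e : ℕ → ℝ) (k j : ℕ) :
    ev (fun i => ((i : ℝ) + 1) * e (i + 1)) k (j + 1) = ((k : ℝ) - j) * ev e k j := by
  unfold ev
  by_cases h : j + 1 ≤ k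
  · rw [if_pos h, if_pos (by omega : j ≤ k)]
    obtain ⟨c, rfl⟩ := Nat.exists_eq_add_of_le h
    have h1 : j + 1 + c - (j + 1) = c := by omega
    have h2 : j + 1 + c - j = c + 1 := by omega
    rw [h1, h2]
    push_cast
    ring
  · rw [if_neg h]
    by_cases h' : j ≤ k
    · have : j = k := by omega
      subst this
      simp
    · rw [if_neg h', mul_zero]

theorem coeff_ev (F : ℕ → ℝ) (k j : ℕ) (c : ℝ) :
    PowerSeries.coeff k (PowerSeries.C c * (PowerSeries.X ^ j * PowerSeries.mk F)) = c * ev F k j := by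
  rw [PowerSeries.coeff_C_mul, PowerSeries.coeff_X_pow_mul']
  unfold ev
  simp

/-- `c₀ + c₁ X + ... + c₆ X^6` as a power series -/
def pl (c : ℕ → ℝ) : PowerSeries ℝ := ∑ j ∈ Finset.range 7, PowerSeries.C (c j) * PowerSeries.X ^ j

theorem coeff_pl_mul (c F : ℕ → ℝ) (k : ℕ) :
    PowerSeries.coeff k (pl c * PowerSeries.mk F) = ∑ j ∈ Finset.range 7, c j * ev F k j := by
  unfold pl
  rw [Finset.sum_mul, map_sum]
  refine Finset.sum_congr rfl fun j _ => ?_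
  rw [mul_assoc, coeff_ev]

theorem coeff_pl (c : ℕ → ℝ) (k : ℕ) :
    PowerSeries.coeff k (pl c) = if k < 7 then c k else 0 := by
  unfold pl
  rw [map_sum]
  simp only [PowerSeries.coeff_C_mul, PowerSeries.coeff_X_pow]
  rw [Finset.sum_congr rfl (g := fun j => if k = j then c j else 0)]
  · rw [Finset.sum_ite_eq]
    simp only [Finset.mem_range]
  · intro j _
    split_ifs <;> simp

theorem Xi_rec (b : ℝ) (hb : b ≠ 0) (m : ℝ) (q P e : ℕ → ℝ) (hq0 : q 0 = 2) (hq1 : q 1 = 1 / 2)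
    (hq : ∀ i, q (i + 2) = q (i + 1) / 2 - q i / (4 * b ^ 2))
    (hP1 : ∀ i, P (2 * i + 1) = (m + 1) * b * q (i + 1) - b)
    (hP2 : ∀ i, P (2 * i + 2) = (m + 1) * q (i + 1) - 2)
    (he : ∀ k : ℕ, ((k : ℝ) + 1) * e (k + 1) = ∑ i ∈ Finset.range (k + 1), (-1) ^ i * P (i + 1) * e (k - i))
    (k : ℕ) :
    4 * b ^ 2 * ((k : ℝ) + 1) * e (k + 1) = 2 * b ^ 3 * (m - 1) * e k + 2 * b ^ 2 * (3 * k - m) * ev e k 1
      - 2 * b * (m * b ^ 2 + m + 1) * ev e k 2 + ((2 * m + 5 - k) + 2 * b ^ 2 * (m + 2 - k)) * ev e k 3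
      + (2 * m + 1) * b * ev e k 4 - (2 * m + 5 - k) * ev e k 5 := by
  have hq' : ∀ i, 4 * b ^ 2 * q (i + 2) = 2 * b ^ 2 * q (i + 1) - q i := by
    intro i
    rw [hq i]
    field_simp
    ring
  let d : ℕ → ℝ := fun i => (-1) ^ i * P (i + 1)
  let w : ℕ → ℝ := fun j => if j = 0 then 4 * b ^ 2 else if j = 2 then -(6 * b ^ 2) else if j = 4 then 1 + 2 * b ^ 2
    else if j = 6 then -1 else 0
  let s : ℕ → ℝ := fun j => if j = 0 then 2 * (m + 1) * b ^ 3 - 4 * b ^ 3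
    else if j = 1 then 8 * b ^ 2 - 2 * (m + 1) * b ^ 2
    else if j = 2 then 2 * b ^ 3 - 2 * (m + 1) * (b + b ^ 3)
    else if j = 3 then 2 * (m + 1) * (1 + b ^ 2) - 4 * b ^ 2
    else if j = 4 then (2 * m + 1) * b
    else if j = 5 then -(2 * m) else 0
  let f : ℕ → ℝ := fun i => ((i : ℝ) + 1) * e (i + 1)
  have h1 : PowerSeries.mk f = PowerSeries.mk d * PowerSeries.mk e := by
    ext n
    rw [PowerSeries.coeff_mk, PowerSeries.coeff_mul, Finset.Nat.sum_antidiagonal_eq_sum_range_succ_mk]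
    refine (he n).trans (Finset.sum_congr rfl fun i _ => ?_)
    rw [PowerSeries.coeff_mk, PowerSeries.coeff_mk]
  have h2 : pl w * PowerSeries.mk d = pl s := by
    ext n
    rw [coeff_pl_mul, coeff_pl]
    have de : ∀ i, d (2 * i) = (m + 1) * b * q (i + 1) - b := by
      intro i
      change (-1 : ℝ) ^ (2 * i) * P (2 * i + 1) = _
      rw [pow_mul, neg_one_sq, one_pow, one_mul, hP1]
    have do' : ∀ i, d (2 * i + 1) = -((m + 1) * q (i + 1) - 2) := by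
      intro i
      change (-1 : ℝ) ^ (2 * i + 1) * P (2 * i + 2) = _
      rw [pow_succ, pow_mul, neg_one_sq, one_pow, one_mul, hP2]
      ring
    have h20 : 4 * b ^ 2 * q 2 = b ^ 2 - 2 := by
      have := hq' 0
      rw [zero_add, zero_add, hq0, hq1] at this
      linarith
    have h21 : 4 * b ^ 2 * q 3 = 2 * b ^ 2 * q 2 - 1 / 2 := by
      have := hq' 1
      rw [hq1] at this
      exact this
    have h22 : 4 * b ^ 2 * q 4 = 2 * b ^ 2 * q 3 - q 2 := hq' 2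
    have d0 := de 0
    have d1 := do' 0
    have d2 := de 1
    have d3 := do' 1
    have d4 := de 2
    have d5 := do' 2
    have d6 := de 3
    norm_num at d0 d1 d2 d3 d4 d5 d6
    rw [hq1] at d0 d1
    rcases Nat.lt_or_ge n 7 with hn | hn
    · rw [if_pos hn]
      interval_cases n <;> simp only [Finset.sum_range_succ, Finset.sum_range_zero, w, s, ev] <;> norm_num <;>
        simp only [d0, d1, d2, d3, d4, d5, d6]
      · ring
      · ring
      · linear_combination ((m + 1) * b) * h20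
      · linear_combination (-(m + 1)) * h20
      · linear_combination ((m + 1) * b) * h21 - ((m + 1) * b) * h20
      · linear_combination (-(m + 1)) * h21 + (m + 1) * h20
      · linear_combination ((m + 1) * b) * h22 - ((m + 1) * b) * h21
    · rw [if_neg (by omega)]
      obtain ⟨c, rfl⟩ := Nat.exists_eq_add_of_le hn
      have hc : ∀ j, j ≤ 7 → ev d (7 + c) j = d (7 + c - j) := fun j hj => by
        unfold ev
        rw [if_pos (by omega)]
      simp only [Finset.sum_range_succ, Finset.sum_range_zero, w]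
      norm_num
      rw [hc 0 (by omega), hc 2 (by omega), hc 4 (by omega), hc 6 (by omega)]
      obtain ⟨i, hi⟩ := Nat.even_or_odd' c
      rcases hi with rfl | rfl
      · have a0 : 7 + 2 * i - 0 = 2 * (i + 3) + 1 := by omega
        have a2 : 7 + 2 * i - 2 = 2 * (i + 2) + 1 := by omega
        have a4 : 7 + 2 * i - 4 = 2 * (i + 1) + 1 := by omega
        have a6 : 7 + 2 * i - 6 = 2 * i + 1 := by omega
        rw [a0, a2, a4, a6, do', do', do', do']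
        have k3 : 4 * b ^ 2 * q (i + 3 + 1) = 2 * b ^ 2 * q (i + 2 + 1) - q (i + 1 + 1) := hq' (i + 2)
        have k2 : 4 * b ^ 2 * q (i + 2 + 1) = 2 * b ^ 2 * q (i + 1 + 1) - q (i + 1) := hq' (i + 1)
        linear_combination (-(m + 1)) * k3 + (m + 1) * k2
      · have a0 : 7 + (2 * i + 1) - 0 = 2 * (i + 4) := by omega
        have a2 : 7 + (2 * i + 1) - 2 = 2 * (i + 3) := by omega
        have a4 : 7 + (2 * i + 1) - 4 = 2 * (i + 2) := by omega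
        have a6 : 7 + (2 * i + 1) - 6 = 2 * (i + 1) := by omega
        rw [a0, a2, a4, a6, de, de, de, de]
        have k3 : 4 * b ^ 2 * q (i + 4 + 1) = 2 * b ^ 2 * q (i + 3 + 1) - q (i + 2 + 1) := hq' (i + 3)
        have k2 : 4 * b ^ 2 * q (i + 3 + 1) = 2 * b ^ 2 * q (i + 2 + 1) - q (i + 1 + 1) := hq' (i + 2)
        linear_combination ((m + 1) * b) * k3 - ((m + 1) * b) * k2
  have h3 : pl w * PowerSeries.mk f = pl s * PowerSeries.mk e := by
    rw [h1, ← mul_assoc, h2]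
  have h4 := congrArg (PowerSeries.coeff k) h3
  rw [coeff_pl_mul, coeff_pl_mul] at h4
  simp only [Finset.sum_range_succ, Finset.sum_range_zero] at h4
  have e2 : ev f k 2 = ((k : ℝ) - 1) * ev e k 1 := by
    have := ev_succ e k 1
    push_cast at this
    exact this
  have e4 : ev f k 4 = ((k : ℝ) - 3) * ev e k 3 := by
    have := ev_succ e k 3
    push_cast at this
    exact this
  have e6 : ev f k 6 = ((k : ℝ) - 5) * ev e k 5 := by
    have := ev_succ e k 5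
    push_cast at this
    exact this
  have h5 : ∀ F : ℕ → ℝ, ev F k 0 = F k := fun F => by simp [ev]
  rw [h5, h5, e2, e4, e6] at h4
  simp only [w, s, f] at h4
  norm_num at h4
  linear_combination h4

/-- the polynomial `Q(M, K)` -/
def Qp (M K : ℝ) : ℝ := 9 / 20 * M * (81 / 25 * M ^ 2 + 6 * K ^ 2 - 2 * (M + 1) * K)
  - K * (K - 1) * (2 * (M + 1) + (M + 2) / 18)

theorem F1 (B M K : ℝ) (hB : 36 ≤ B) (hM : 1 ≤ M) : 0 ≤ 9 / 100 * B * M ^ 2 + 6 * K ^ 2 - 2 * (M + 1) * K := by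
  nlinarith [sq_nonneg (6 * K - (M + 1)), mul_nonneg (sub_nonneg.mpr hB) (sq_nonneg M), sq_nonneg (M - 1)]

theorem Qp_nonneg (n k : ℕ) (h2 : 2 ≤ k) (hk : k ≤ 2 * n + 2) : 0 ≤ Qp ((n : ℝ) + 1) k := by
  rcases Nat.lt_or_ge n 3 with hn | hn
  · interval_cases n
    · have : k = 2 := by omega
      subst this
      norm_num [Qp]
    · have : k ≤ 4 := by omega
      interval_cases k <;> norm_num [Qp]
    · have : k ≤ 6 := by omega
      interval_cases k <;> norm_num [Qp]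
  · have h3 : (3 : ℝ) ≤ n := by exact_mod_cast hn
    have hk2 : (2 : ℝ) ≤ k := by exact_mod_cast h2
    obtain ⟨x, hx⟩ : ∃ x : ℝ, (n : ℝ) = x + 3 := ⟨(n : ℝ) - 3, by ring⟩
    have hx0 : 0 ≤ x := by linarith
    rw [hx]
    have ha : 0 < 29 / 45 * (x + 3 + 1) - 19 / 9 := by linarith
    have h4 : 0 ≤ 7371 / 2500 * x ^ 4 + 23089 / 625 * x ^ 3 + 8238059 / 50625 * x ^ 2 + 4699568 / 16875 * x
      + 649151 / 5625 := by positivity
    have h5 : 0 ≤ (29 / 45 * (x + 3 + 1) - 19 / 9) * Qp (x + 3 + 1) k := by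
      have h6 := sq_nonneg (2 * (29 / 45 * (x + 3 + 1) - 19 / 9) * (k : ℝ)
        - (9 / 10 * (x + 3 + 1) ^ 2 - 52 / 45 * (x + 3 + 1) - 19 / 9))
      unfold Qp
      linarith
    exact nonneg_of_mul_nonneg_right h5 ha

theorem Qp_big (n k : ℕ) (h2 : n + 5 ≤ k) (hk : k ≤ 2 * n + 2) :
    2 * (k : ℝ) * (k - 1) * (k - 2) * (k - (n + 1) - 3) ≤ 81 / 5 * ((n : ℝ) + 1) * Qp ((n : ℝ) + 1) k := by
  obtain ⟨y, rfl⟩ := Nat.exists_eq_add_of_le h2
  obtain ⟨z, hz⟩ := Nat.exists_eq_add_of_le hk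
  have hn : n = 3 + y + z := by omega
  subst hn
  push_cast
  have hy : (0 : ℝ) ≤ y := Nat.cast_nonneg y
  have hz0 : (0 : ℝ) ≤ z := Nat.cast_nonneg z
  rw [← sub_nonneg]
  unfold Qp
  ring_nf
  positivity

theorem Gp (b M K : ℝ) (hb : 6 ≤ b) (hM : 1 ≤ M) (hK : 1 ≤ K) :
    b ^ 2 * Qp M K ≤ 9 / 20 * b ^ 2 * M * (9 / 100 * b ^ 2 * M ^ 2 + 6 * K ^ 2 - 2 * (M + 1) * K)
      - K * (K - 1) * (2 * (M + 1) * b ^ 2 + 2 * (M + 2)) := by
  have hB : 0 ≤ b ^ 2 - 36 := by nlinarith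
  have h1 : 0 ≤ 9 / 20 * b ^ 2 * M * (9 / 100 * (b ^ 2 - 36) * M ^ 2) := by positivity
  have h2 : 0 ≤ K * (K - 1) * (M + 2) * ((b ^ 2 - 36) / 18) := by
    have : 0 ≤ K - 1 := by linarith
    have : 0 ≤ K := by linarith
    positivity
  unfold Qp
  linarith

theorem step (b M K E0 E1 E2 E3 E4 E5 : ℝ) (hb : 6 ≤ b) (hM : 1 ≤ M) (hK2 : K ≤ 2 * M)
    (h1 : 0 ≤ E1) (h2 : 0 ≤ E2) (h3 : 0 ≤ E3) (h4 : 0 ≤ E4) (h5 : 0 ≤ E5)
    (r0 : 9 / 20 * b * M * E1 ≤ K * E0) (r1 : 9 / 20 * b * M * E2 ≤ (K - 1) * E1)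
    (r2 : 9 / 20 * b * M * E3 ≤ (K - 2) * E2) (r3 : 9 / 20 * b * M * E4 ≤ (K - 3) * E3)
    (r4 : 9 / 20 * b * M * E5 ≤ (K - 4) * E4)
    (hc : K = 1 ∨ (K = 2 ∧ 0 ≤ Qp M K) ∨ (3 ≤ K ∧ K ≤ M + 3 ∧ 0 ≤ Qp M K) ∨
      (3 ≤ K ∧ 0 ≤ Qp M K ∧ 2 * K * (K - 1) * (K - 2) * (K - M - 3) ≤ 81 / 5 * M * Qp M K)) :
    0 ≤ 1 / 5 * b ^ 3 * M * E0 + 2 * b ^ 2 * (3 * K - M - 1) * E1 - 2 * b * ((M + 1) * b ^ 2 + M + 2) * E2
      + ((2 * M + 7 - K) + 2 * b ^ 2 * (M + 3 - K)) * E3 + (2 * M + 3) * b * E4 - (2 * M + 7 - K) * E5 := by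
  have hb0 : 0 < b := by linarith
  have ha : 0 < 9 / 20 * b * M := by positivity
  have hB : 36 ≤ b ^ 2 := by nlinarith
  have z : ∀ x c : ℝ, 0 ≤ x → ∀ y : ℝ, 0 ≤ y → c ≤ 0 → 9 / 20 * b * M * x ≤ c * y → x = 0 := by
    intro x c hx y hy hc h
    have h7 : c * y ≤ 0 := mul_nonpos_of_nonpos_of_nonneg hc hy
    have h8 : 9 / 20 * b * M * x ≤ 0 := h.trans h7
    have h9 : x ≤ 0 := by
      by_contra hx'
      have : 0 < 9 / 20 * b * M * x := mul_pos ha (lt_of_not_ge hx')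
      linarith
    exact le_antisymm h9 hx
  have hF := F1 (b ^ 2) M K hB hM
  rcases hc with rfl | ⟨rfl, hQ⟩ | hc
  · have e2 : E2 = 0 := z E2 _ h2 E1 h1 (by norm_num) r1
    have e3 : E3 = 0 := z E3 _ h3 E2 h2 (by norm_num) r2
    have e4 : E4 = 0 := z E4 _ h4 E3 h3 (by norm_num) r3
    have e5 : E5 = 0 := z E5 _ h5 E4 h4 (by norm_num) r4
    subst e2 e3 e4 e5
    have q1 : 0 ≤ b ^ 2 * ((9 / 100 * b ^ 2 * M ^ 2 + 6 * 1 ^ 2 - 2 * (M + 1) * 1) * E1) :=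
      mul_nonneg (by positivity) (mul_nonneg hF h1)
    have q2 : 0 ≤ 1 / 5 * b ^ 3 * M * (1 * E0 - 9 / 20 * b * M * E1) :=
      mul_nonneg (by positivity) (by linarith)
    linarith
  · have e3 : E3 = 0 := z E3 _ h3 E2 h2 (by norm_num) r2
    have e4 : E4 = 0 := z E4 _ h4 E3 h3 (by norm_num) r3
    have e5 : E5 = 0 := z E5 _ h5 E4 h4 (by norm_num) r4
    subst e3 e4 e5
    have hG := Gp b M 2 hb hM (by norm_num)
    have q0 : 0 ≤ (2 - 1) * (1 / 5 * b ^ 3 * M * (2 * E0 - 9 / 20 * b * M * E1)) :=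
      mul_nonneg (by norm_num) (mul_nonneg (by positivity) (by linarith))
    have q1 : 0 ≤ b ^ 2 * (9 / 100 * b ^ 2 * M ^ 2 + 6 * 2 ^ 2 - 2 * (M + 1) * 2) * ((2 - 1) * E1 - 9 / 20 * b * M * E2) :=
      mul_nonneg (mul_nonneg (by positivity) hF) (by linarith)
    have q2 : 0 ≤ b * (9 / 20 * b ^ 2 * M * (9 / 100 * b ^ 2 * M ^ 2 + 6 * 2 ^ 2 - 2 * (M + 1) * 2)
        - 2 * (2 - 1) * (2 * (M + 1) * b ^ 2 + 2 * (M + 2))) * E2 :=
      mul_nonneg (mul_nonneg hb0.le ((mul_nonneg (by positivity) hQ).trans hG)) h2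
    linarith
  · have hK3 : 3 ≤ K := by rcases hc with h | h <;> exact h.1
    have hQ : 0 ≤ Qp M K := by rcases hc with h | h; exacts [h.2.2, h.2.1]
    have hG := Gp b M K hb hM (by linarith)
    have hR : 0 ≤ (2 * M + 3) * b * E4 - (2 * M + 7 - K) * E5 := by
      rcases le_or_gt K 4 with hK4 | hK4
      · have e5 : E5 = 0 := z E5 _ h5 E4 h4 (by linarith) r4
        rw [e5, mul_zero, sub_zero]
        positivity
      · have w1 : 0 ≤ (2 * M + 3) * b * ((K - 4) * E4 - 9 / 20 * b * M * E5) :=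
          mul_nonneg (by positivity) (by linarith)
        have w2 : (2 * M + 7 - K) * (K - 4) ≤ (2 * M + 3) * (2 * M) :=
          mul_le_mul (by linarith) (by linarith) (by linarith) (by positivity)
        have w3 : (2 * M + 3) * (2 * M) ≤ (2 * M + 3) * b * (9 / 20 * b * M) := by
          have : 0 ≤ (2 * M + 3) * M * (9 / 20 * (b ^ 2 - 36)) := by
            have : 0 ≤ b ^ 2 - 36 := by linarith
            positivity
          have h0 : 0 ≤ (2 * M + 3) * M := by positivity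
          nlinarith
        have w4 : 0 ≤ ((2 * M + 3) * b * (9 / 20 * b * M) - (2 * M + 7 - K) * (K - 4)) * E5 :=
          mul_nonneg (by linarith) h5
        have w5 : 0 ≤ (K - 4) * ((2 * M + 3) * b * E4 - (2 * M + 7 - K) * E5) := by linarith
        exact nonneg_of_mul_nonneg_right w5 (by linarith)
    have q0 : 0 ≤ (K - 1) * (1 / 5 * b ^ 3 * M * (K * E0 - 9 / 20 * b * M * E1)) :=
      mul_nonneg (by linarith) (mul_nonneg (by positivity) (by linarith))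
    have q1 : 0 ≤ b ^ 2 * (9 / 100 * b ^ 2 * M ^ 2 + 6 * K ^ 2 - 2 * (M + 1) * K) * ((K - 1) * E1 - 9 / 20 * b * M * E2) :=
      mul_nonneg (mul_nonneg (by positivity) hF) (by linarith)
    have hGG : 0 ≤ (9 / 20 * b ^ 2 * M * (9 / 100 * b ^ 2 * M ^ 2 + 6 * K ^ 2 - 2 * (M + 1) * K)
        - K * (K - 1) * (2 * (M + 1) * b ^ 2 + 2 * (M + 2))) := (mul_nonneg (by positivity) hQ).trans hG
    rcases hc with h | h
    · have q2 : 0 ≤ b * (9 / 20 * b ^ 2 * M * (9 / 100 * b ^ 2 * M ^ 2 + 6 * K ^ 2 - 2 * (M + 1) * K)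
          - K * (K - 1) * (2 * (M + 1) * b ^ 2 + 2 * (M + 2))) * E2 := mul_nonneg (mul_nonneg hb0.le hGG) h2
      have hE : 0 ≤ ((2 * M + 7 - K) + 2 * b ^ 2 * (M + 3 - K)) * E3 := by
        have : 0 ≤ 2 * M + 7 - K := by linarith
        have : 0 ≤ M + 3 - K := by linarith [h.2.1]
        positivity
      have hKK : 0 < K * (K - 1) := mul_pos (by linarith) (by linarith)
      have w6 := mul_nonneg hKK.le (add_nonneg hE hR)
      have w7 : 0 ≤ (K * (K - 1)) * (1 / 5 * b ^ 3 * M * E0 + 2 * b ^ 2 * (3 * K - M - 1) * E1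
        - 2 * b * ((M + 1) * b ^ 2 + M + 2) * E2
        + ((2 * M + 7 - K) + 2 * b ^ 2 * (M + 3 - K)) * E3 + (2 * M + 3) * b * E4 - (2 * M + 7 - K) * E5) := by
        linarith
      exact nonneg_of_mul_nonneg_right w7 hKK
    · have q2 : 0 ≤ b * (9 / 20 * b ^ 2 * M * (9 / 100 * b ^ 2 * M ^ 2 + 6 * K ^ 2 - 2 * (M + 1) * K)
          - K * (K - 1) * (2 * (M + 1) * b ^ 2 + 2 * (M + 2))) * ((K - 2) * E2 - 9 / 20 * b * M * E3) :=
        mul_nonneg (mul_nonneg hb0.le hGG) (by linarith)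
      have hE : 0 ≤ (2 * M + 7 - K) * E3 := mul_nonneg (by linarith) h3
      have hKK : 0 < K * (K - 1) * (K - 2) := mul_pos (mul_pos (by linarith) (by linarith)) (by linarith)
      have w6 := mul_nonneg hKK.le (add_nonneg hE hR)
      have w8 : 0 ≤ 9 / 20 * M * (9 / 20 * b ^ 2 * M * (9 / 100 * b ^ 2 * M ^ 2 + 6 * K ^ 2 - 2 * (M + 1) * K)
          - K * (K - 1) * (2 * (M + 1) * b ^ 2 + 2 * (M + 2))) - 2 * K * (K - 1) * (K - 2) * (K - M - 3) := by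
        have v1 : 0 ≤ 9 / 20 * M * ((9 / 20 * b ^ 2 * M * (9 / 100 * b ^ 2 * M ^ 2 + 6 * K ^ 2 - 2 * (M + 1) * K)
          - K * (K - 1) * (2 * (M + 1) * b ^ 2 + 2 * (M + 2))) - b ^ 2 * Qp M K) :=
          mul_nonneg (by positivity) (by linarith)
        have v2 : 0 ≤ 9 / 20 * M * ((b ^ 2 - 36) * Qp M K) :=
          mul_nonneg (by positivity) (mul_nonneg (by linarith) hQ)
        linarith [h.2.2]
      have w9 := mul_nonneg (mul_nonneg (sq_nonneg b) w8) h3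
      have w7 : 0 ≤ (K * (K - 1) * (K - 2)) * (1 / 5 * b ^ 3 * M * E0 + 2 * b ^ 2 * (3 * K - M - 1) * E1
        - 2 * b * ((M + 1) * b ^ 2 + M + 2) * E2
        + ((2 * M + 7 - K) + 2 * b ^ 2 * (M + 3 - K)) * E3 + (2 * M + 3) * b * E4 - (2 * M + 7 - K) * E5) := by
        have q0' := mul_nonneg (show (0 : ℝ) ≤ K - 2 by linarith) q0
        have q1' := mul_nonneg (show (0 : ℝ) ≤ K - 2 by linarith) q1
        linarith
      exact nonneg_of_mul_nonneg_right w7 hKK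

theorem ev_ratio (e : ℕ → ℝ) (a : ℝ) (k : ℕ) (h : ∀ i, i < k → a * e i ≤ ((i : ℝ) + 1) * e (i + 1)) (j : ℕ) :
    a * ev e k (j + 1) ≤ ((k : ℝ) - j) * ev e k j := by
  unfold ev
  by_cases h1 : j + 1 ≤ k
  · rw [if_pos h1, if_pos (by omega : j ≤ k)]
    obtain ⟨c, rfl⟩ := Nat.exists_eq_add_of_le h1
    have h2 : j + 1 + c - (j + 1) = c := by omega
    have h3 : j + 1 + c - j = c + 1 := by omega
    rw [h2, h3]
    have h4 := h c (by omega)
    have h5 : ((j + 1 + c : ℕ) : ℝ) - j = (c : ℝ) + 1 := by push_cast; ring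
    rw [h5]
    exact h4
  · rw [if_neg h1, mul_zero]
    by_cases h' : j ≤ k
    · have : j = k := by omega
      subst this
      simp
    · rw [if_neg h', mul_zero]

theorem ev_nonneg (e : ℕ → ℝ) (k : ℕ) (h : ∀ i, i ≤ k → 0 < e i) (j : ℕ) : 0 ≤ ev e k j := by
  unfold ev
  split_ifs with h1
  · exact (h _ (Nat.sub_le _ _)).le
  · exact le_rfl

theorem step_nat (b : ℝ) (hb : 6 ≤ b) (n k : ℕ) (hk1 : 1 ≤ k) (hk : k ≤ 2 * n + 2) (E0 E1 E2 E3 E4 E5 : ℝ)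
    (h1 : 0 ≤ E1) (h2 : 0 ≤ E2) (h3 : 0 ≤ E3) (h4 : 0 ≤ E4) (h5 : 0 ≤ E5)
    (r0 : 9 / 20 * b * ((n : ℝ) + 1) * E1 ≤ k * E0) (r1 : 9 / 20 * b * ((n : ℝ) + 1) * E2 ≤ (k - 1) * E1)
    (r2 : 9 / 20 * b * ((n : ℝ) + 1) * E3 ≤ (k - 2) * E2) (r3 : 9 / 20 * b * ((n : ℝ) + 1) * E4 ≤ (k - 3) * E3)
    (r4 : 9 / 20 * b * ((n : ℝ) + 1) * E5 ≤ (k - 4) * E4) :
    0 ≤ 1 / 5 * b ^ 3 * ((n : ℝ) + 1) * E0 + 2 * b ^ 2 * (3 * k - ((n : ℝ) + 1) - 1) * E1
      - 2 * b * ((((n : ℝ) + 1) + 1) * b ^ 2 + ((n : ℝ) + 1) + 2) * E2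
      + ((2 * ((n : ℝ) + 1) + 7 - k) + 2 * b ^ 2 * (((n : ℝ) + 1) + 3 - k)) * E3
      + (2 * ((n : ℝ) + 1) + 3) * b * E4 - (2 * ((n : ℝ) + 1) + 7 - k) * E5 := by
  have hn0 : (0 : ℝ) ≤ n := Nat.cast_nonneg n
  have hk' : (k : ℝ) ≤ 2 * n + 2 := by exact_mod_cast hk
  refine step b _ k E0 E1 E2 E3 E4 E5 hb (by linarith) (by linarith) h1 h2 h3 h4 h5 r0 r1 r2 r3 r4 ?_
  rcases Nat.lt_or_ge k 2 with h | h
  · left
    have : k = 1 := by omega
    rw [this, Nat.cast_one]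
  · right
    have hQ := Qp_nonneg n k h hk
    rcases Nat.lt_or_ge k 3 with h' | h'
    · left
      have : k = 2 := by omega
      subst this
      exact ⟨by norm_num, hQ⟩
    · right
      have h3k : (3 : ℝ) ≤ k := by exact_mod_cast h'
      rcases Nat.lt_or_ge k (n + 5) with h'' | h''
      · left
        refine ⟨h3k, ?_, hQ⟩
        have : k ≤ n + 4 := by omega
        have : (k : ℝ) ≤ n + 4 := by exact_mod_cast this
        linarith
      · right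
        exact ⟨h3k, hQ, Qp_big n k h'' hk⟩

/-- **The ratio bound** `(9/20) b (m-1) e_k ≤ (k+1) e_(k+1)` for `k ≤ 2m-2` (`m = n+2`, `b ≥ 6`), and `e_k > 0`. -/
theorem Xi_ratio (b : ℝ) (hb : 6 ≤ b) (n : ℕ) (q P e : ℕ → ℝ) (hq0 : q 0 = 2) (hq1 : q 1 = 1 / 2)
    (hq : ∀ i, q (i + 2) = q (i + 1) / 2 - q i / (4 * b ^ 2))
    (hP1 : ∀ i, P (2 * i + 1) = (((n : ℝ) + 2) + 1) * b * q (i + 1) - b)
    (hP2 : ∀ i, P (2 * i + 2) = (((n : ℝ) + 2) + 1) * q (i + 1) - 2) (he0 : e 0 = 1)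
    (he : ∀ k : ℕ, ((k : ℝ) + 1) * e (k + 1) = ∑ i ∈ Finset.range (k + 1), (-1) ^ i * P (i + 1) * e (k - i))
    (k : ℕ) (hk : k ≤ 2 * n + 2) :
    (∀ i, i ≤ k → 9 / 20 * b * ((n : ℝ) + 1) * e i ≤ ((i : ℝ) + 1) * e (i + 1)) ∧ ∀ i, i ≤ k + 1 → 0 < e i := by
  have hb0 : 0 < b := by linarith
  have hn0 : (0 : ℝ) ≤ n := Nat.cast_nonneg n
  have ha : 0 < 9 / 20 * b * ((n : ℝ) + 1) := by positivity
  have pos : ∀ i : ℕ, 0 < e i → 9 / 20 * b * ((n : ℝ) + 1) * e i ≤ ((i : ℝ) + 1) * e (i + 1) → 0 < e (i + 1) := by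
    intro i h0 h
    have h1 : 0 < ((i : ℝ) + 1) * e (i + 1) := lt_of_lt_of_le (mul_pos ha h0) h
    exact pos_of_mul_pos_right h1 (by positivity)
  induction k with
  | zero =>
    have h1 : e 1 = ((n : ℝ) + 1) * b / 2 := by
      have h := he 0
      have hp := hP1 0
      simp at h hp
      rw [h, hp, hq1, he0]
      ring
    have h2 : 9 / 20 * b * ((n : ℝ) + 1) * e 0 ≤ (((0 : ℕ) : ℝ) + 1) * e (0 + 1) := by
      rw [he0, zero_add, h1]
      push_cast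
      nlinarith
    refine ⟨fun i hi => ?_, fun i hi => ?_⟩
    · have : i = 0 := by omega
      subst this
      exact h2
    · rcases Nat.lt_or_ge i 1 with h | h
      · have : i = 0 := by omega
        subst this
        rw [he0]
        exact one_pos
      · have : i = 1 := by omega
        subst this
        exact pos 0 (by rw [he0]; exact one_pos) h2
  | succ k ih =>
    obtain ⟨ih1, ih2⟩ := ih (by omega)
    have key : 9 / 20 * b * ((n : ℝ) + 1) * e (k + 1) ≤ (((k + 1 : ℕ) : ℝ) + 1) * e (k + 1 + 1) := by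
      have hrec := Xi_rec b hb0.ne' ((n : ℝ) + 2) q P e hq0 hq1 hq hP1 hP2 he (k + 1)
      have hr := ev_ratio e (9 / 20 * b * ((n : ℝ) + 1)) (k + 1) (fun i hi => ih1 i (by omega))
      have hnn := ev_nonneg e (k + 1) (fun i hi => ih2 i hi)
      have r0 : 9 / 20 * b * ((n : ℝ) + 1) * ev e (k + 1) 1 ≤ ((k + 1 : ℕ) : ℝ) * e (k + 1) := by
        have := hr 0
        have h0 : ev e (k + 1) 0 = e (k + 1) := by simp [ev]
        rw [h0] at this
        simpa using this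
      have r1 : 9 / 20 * b * ((n : ℝ) + 1) * ev e (k + 1) 2 ≤ (((k + 1 : ℕ) : ℝ) - 1) * ev e (k + 1) 1 := by
        have := hr 1
        rw [Nat.cast_one] at this
        exact this
      have r2 : 9 / 20 * b * ((n : ℝ) + 1) * ev e (k + 1) 3 ≤ (((k + 1 : ℕ) : ℝ) - 2) * ev e (k + 1) 2 := hr 2
      have r3 : 9 / 20 * b * ((n : ℝ) + 1) * ev e (k + 1) 4 ≤ (((k + 1 : ℕ) : ℝ) - 3) * ev e (k + 1) 3 := hr 3
      have r4 : 9 / 20 * b * ((n : ℝ) + 1) * ev e (k + 1) 5 ≤ (((k + 1 : ℕ) : ℝ) - 4) * ev e (k + 1) 4 := hr 4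
      have hs := step_nat b hb n (k + 1) (by omega) hk (e (k + 1)) _ _ _ _ _ (hnn 1) (hnn 2) (hnn 3) (hnn 4) (hnn 5)
        r0 r1 r2 r3 r4
      have h4 : 4 * b ^ 2 * (9 / 20 * b * ((n : ℝ) + 1) * e (k + 1))
          ≤ 4 * b ^ 2 * ((((k + 1 : ℕ) : ℝ) + 1) * e (k + 1 + 1)) := by
        rw [← mul_assoc (4 * b ^ 2) ((((k + 1 : ℕ) : ℝ) + 1)), hrec]
        linarith
      exact le_of_mul_le_mul_left h4 (by positivity)
    refine ⟨fun i hi => ?_, fun i hi => ?_⟩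
    · rcases Nat.lt_or_ge i (k + 1) with h | h
      · exact ih1 i (by omega)
      · have : i = k + 1 := by omega
        subst this
        exact key
    · rcases Nat.lt_or_ge i (k + 2) with h | h
      · exact ih2 i (by omega)
      · have : i = k + 2 := by omega
        subst this
        exact pos (k + 1) (ih2 _ le_rfl) key

/-- **`c_(2m-1) > 0` for `k = 4`, all `m ≥ 2` and all real `b ≥ 6`.** -/
theorem Xi_pos (b : ℝ) (hb : 6 ≤ b) (m : ℕ) (hm : 2 ≤ m) (q P e : ℕ → ℝ) (hq0 : q 0 = 2) (hq1 : q 1 = 1 / 2)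
    (hq : ∀ i, q (i + 2) = q (i + 1) / 2 - q i / (4 * b ^ 2))
    (hP1 : ∀ i, P (2 * i + 1) = ((m : ℝ) + 1) * b * q (i + 1) - b)
    (hP2 : ∀ i, P (2 * i + 2) = ((m : ℝ) + 1) * q (i + 1) - 2) (he0 : e 0 = 1)
    (he : ∀ k : ℕ, ((k : ℝ) + 1) * e (k + 1) = ∑ i ∈ Finset.range (k + 1), (-1) ^ i * P (i + 1) * e (k - i)) :
    ∀ i, i ≤ 2 * m - 1 → 0 < e i := by
  obtain ⟨n, rfl⟩ := Nat.exists_eq_add_of_le hm
  have hc : ((2 + n : ℕ) : ℝ) = (n : ℝ) + 2 := by push_cast; ring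
  rw [hc] at hP1 hP2
  intro i hi
  exact (Xi_ratio b hb n q P e hq0 hq1 hq hP1 hP2 he0 he (2 * n + 2) le_rfl).2 i (by omega)

end XiF

export XiF (Xi_rec Xi_ratio Xi_pos)

end Pool.Agent.Lib.MP_ccbbf6_gt.L5
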