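import Pool.Agent.Lib.MP_ccbbf6_gt.L5.NW
import Pool.Agent.Lib.MP_ccbbf6_gt.L5.Xi

/-!
# Level 5, block RHO 0: the algebra of F7 (helper5)

`P = RP m b ε l l' u1 u2` is the solution of the recursion for the power sums of `K^{1,0}`; it satisfies
`l K_j = l P_j` (`RP_spec`), and for `l = 0`, `u1 = u2 = x`, `l' ^ 2 = 2 b x` it is `(ε l') ^ j` times the number `P j`
of `Xi.lean` (`RP_res`).
-/

set_option autoImplicit false
set_option linter.unusedSectionVars false

noncomputable section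

namespace Pool.Agent.Lib.MP_ccbbf6_gt.L5

open Finset

/-- power sums of the roots of `t ^ 2 - b t + 1` -/
def rr (b : ℝ) : ℕ → ℝ
  | 0 => 2
  | 1 => b
  | i + 2 => b * rr b (i + 1) - rr b i

/-- power sums of the Pontryagin roots of `TM` -/
def ss (m : ℕ) (b : ℝ) (i : ℕ) : ℝ := ((m : ℝ) + 1) * rr b i - (2 * b) ^ i

variable {A : Type*} [CommRing A] [Algebra ℝ A] {A' : Type*} [CommRing A'] [Algebra ℝ A']

/-- `ch_j (T) - ch_j (V)` -/
def RB (m : ℕ) (b : ℝ) (l l' u : A) (j : ℕ) : A :=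
  if j = 0 then algebraMap ℝ A (4 * m - 4) else
    if Even j then (2 * ss m b (j / 2)) • u ^ (j / 2) - (2 : ℝ) • (l ^ j + l' ^ j) else 0

/-- `(ch_j (T(u1)) - ch_j (T(u2))) / l` -/
def RD (m : ℕ) (b ε : ℝ) (l' u1 u2 : A) (j : ℕ) : A :=
  if Even j then (2 * ss m b (j / 2) * ε) • (l' * ∑ i ∈ range (j / 2), u1 ^ i * u2 ^ (j / 2 - 1 - i)) else 0

/-- the formal solution -/
def RP (m : ℕ) (b ε : ℝ) (l l' u1 u2 : A) (n : ℕ) : A :=
  (2 * ((n : ℝ) + 1))⁻¹ • (RD m b ε l' u1 u2 (n + 1) +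
    ∑ a ∈ range (n + 1), ((n + 1).choose (a + 1) : ℝ) • ((-l) ^ a * RB m b l l' u2 (n - a)) -
    ∑ a : Fin n, if Odd (a : ℕ) then (2 * ((n + 1).choose (a + 2) : ℝ)) • (l ^ ((a : ℕ) + 1) * RP m b ε l l' u1 u2 (n - 1 - a))
      else 0)
termination_by n
decreasing_by
  have := a.2
  omega

theorem RP_eq (m : ℕ) (b ε : ℝ) (l l' u1 u2 : A) (n : ℕ) : RP m b ε l l' u1 u2 n =
    (2 * ((n : ℝ) + 1))⁻¹ • (RD m b ε l' u1 u2 (n + 1) +
      ∑ a ∈ range (n + 1), ((n + 1).choose (a + 1) : ℝ) • ((-l) ^ a * RB m b l l' u2 (n - a)) -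
      ∑ a ∈ range n, if Odd a then (2 * ((n + 1).choose (a + 2) : ℝ)) • (l ^ (a + 1) * RP m b ε l l' u1 u2 (n - 1 - a))
        else 0) := by
  rw [RP, Finset.sum_range (fun a => if Odd a then (2 * ((n + 1).choose (a + 2) : ℝ)) •
    (l ^ (a + 1) * RP m b ε l l' u1 u2 (n - 1 - a)) else 0)]

/-! ### naturality -/

theorem map_RB (f : A →ₐ[ℝ] A') (m : ℕ) (b : ℝ) (l l' u : A) (j : ℕ) :
    f (RB m b l l' u j) = RB m b (f l) (f l') (f u) j := by
  unfold RB
  split_ifs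
  · exact f.commutes _
  · simp only [map_sub, map_smul, map_pow, map_add]
  · exact map_zero f

theorem map_RD (f : A →ₐ[ℝ] A') (m : ℕ) (b ε : ℝ) (l' u1 u2 : A) (j : ℕ) :
    f (RD m b ε l' u1 u2 j) = RD m b ε (f l') (f u1) (f u2) j := by
  unfold RD
  split_ifs
  · simp only [map_smul, map_mul, map_sum, map_pow]
  · exact map_zero f

theorem map_RP (f : A →ₐ[ℝ] A') (m : ℕ) (b ε : ℝ) (l l' u1 u2 : A) (n : ℕ) :
    f (RP m b ε l l' u1 u2 n) = RP m b ε (f l) (f l') (f u1) (f u2) n := by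
  induction n using Nat.strong_induction_on with
  | _ n ih =>
    rw [RP_eq, RP_eq, map_smul, map_sub, map_add, map_sum, map_sum, map_RD]
    congr 2
    · congr 1
      refine Finset.sum_congr rfl fun a _ => ?_
      rw [map_smul, map_mul, map_pow, map_neg, map_RB]
    · refine Finset.sum_congr rfl fun a ha => ?_
      have := Finset.mem_range.1 ha
      split_ifs
      · rw [map_smul, map_mul, map_pow, ih (n - 1 - a) (by omega)]
      · exact map_zero f

/-! ### the power sums of `K` -/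

theorem RB_sub {m : ℕ} {b ε : ℝ} (hε : ε * ε = 1) {l l' u1 u2 : A} (h1 : l * l' = ε • (u1 - u2)) {j : ℕ} (hj : j ≠ 0) :
    RB m b l l' u1 j - RB m b l l' u2 j = l * RD m b ε l' u1 u2 j := by
  unfold RB RD
  rw [if_neg hj, if_neg hj]
  split_ifs with h
  · have h2 : u1 - u2 = ε • (l * l') := by rw [h1, smul_smul, hε, one_smul]
    have h3 := Commute.geom_sum₂_mul (Commute.all u1 u2) (j / 2)
    rw [h2] at h3
    have h4 : l * (2 * ss m b (j / 2) * ε) • (l' * ∑ i ∈ range (j / 2), u1 ^ i * u2 ^ (j / 2 - 1 - i)) =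
        (2 * ss m b (j / 2)) • ((∑ i ∈ range (j / 2), u1 ^ i * u2 ^ (j / 2 - 1 - i)) * ε • (l * l')) := by
      rw [mul_smul_comm, mul_smul_comm, smul_smul]
      congr 1
      ring
    rw [h4, h3, smul_sub]
    abel
  · rw [sub_zero, mul_zero]

theorem RP_spec {m : ℕ} {b ε : ℝ} (hε : ε * ε = 1) {l l' u1 u2 : A} (h1 : l * l' = ε • (u1 - u2)) {K K' : ℕ → A}
    {N : ℕ} (hK : ∀ j ≤ N, K j + K' j = RB m b l l' u2 j)
    (hL : ∀ j ≤ N, j ≠ 0 → ∑ a ∈ range (j + 1), (j.choose a : ℝ) • (l ^ a * K (j - a)) +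
      ∑ a ∈ range (j + 1), (j.choose a : ℝ) • ((-l) ^ a * K' (j - a)) = RB m b l l' u1 j) (n : ℕ) (hn : n + 1 ≤ N) :
    l * K n = l * RP m b ε l l' u1 u2 n := by
  induction n using Nat.strong_induction_on with
  | _ n ih =>
    have e1 := hL (n + 1) hn (by omega)
    have e2 := RB_sub (m := m) (b := b) hε h1 (j := n + 1) (by omega)
    have hK' : ∀ j ≤ N, K' j = RB m b l l' u2 j - K j := fun j hj => by rw [← hK j hj]; ring
    rw [Finset.sum_range_succ' _ (n + 1), Finset.sum_range_succ' _ (n + 1)] at e1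
    have s2 : ∑ a ∈ range (n + 1), ((n + 1).choose (a + 1) : ℝ) • ((-l) ^ (a + 1) * K' (n + 1 - (a + 1))) =
        ∑ a ∈ range (n + 1), ((n + 1).choose (a + 1) : ℝ) • ((-l) ^ (a + 1) * RB m b l l' u2 (n - a)) -
        ∑ a ∈ range (n + 1), ((n + 1).choose (a + 1) : ℝ) • ((-l) ^ (a + 1) * K (n - a)) := by
      rw [← Finset.sum_sub_distrib]
      refine Finset.sum_congr rfl fun a _ => ?_
      rw [Nat.add_sub_add_right, hK' (n - a) (by omega), mul_sub, smul_sub]
    simp only [Nat.choose_zero_right, Nat.cast_one, one_smul, pow_zero, one_mul, tsub_zero] at e1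
    rw [s2, hK' (n + 1) hn] at e1
    -- the odd part
    have s3 : ∑ a ∈ range (n + 1), ((n + 1).choose (a + 1) : ℝ) • (l ^ (a + 1) * K (n + 1 - (a + 1))) -
        ∑ a ∈ range (n + 1), ((n + 1).choose (a + 1) : ℝ) • ((-l) ^ (a + 1) * K (n - a)) =
        (2 * ((n : ℝ) + 1)) • (l * K n) + l * ∑ a ∈ range n, if Odd a then (2 * ((n + 1).choose (a + 2) : ℝ)) •
          (l ^ (a + 1) * RP m b ε l l' u1 u2 (n - 1 - a)) else 0 := by
      rw [← Finset.sum_sub_distrib, Finset.sum_range_succ' _ n, Finset.mul_sum, add_comm]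
      congr 1
      · rw [Nat.add_sub_add_right, ← smul_sub]
        simp only [zero_add, pow_one, Nat.choose_one_right, tsub_zero]
        rw [neg_mul, sub_neg_eq_add, ← two_smul ℝ (l * K n), smul_smul]
        push_cast
        congr 1
        ring
      · refine Finset.sum_congr rfl fun a ha => ?_
        have ha' := Finset.mem_range.1 ha
        have e3 : n + 1 - (a + 1 + 1) = n - 1 - a := by omega
        have e4 : n - (a + 1) = n - 1 - a := by omega
        rw [e3, e4, ← smul_sub, ← sub_mul]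
        have e5 := ih (n - 1 - a) (by omega) (by omega)
        split_ifs with h
        · have h6 : (-l) ^ (a + 1 + 1) = -(l ^ (a + 1 + 1)) := by
            refine Odd.neg_pow ?_ l
            obtain ⟨c, rfl⟩ := h
            exact ⟨c + 1, by ring⟩
          rw [h6, sub_neg_eq_add, ← two_mul, mul_smul_comm]
          have h7 : 2 * l ^ (a + 1 + 1) * K (n - 1 - a) = (2 : ℝ) • (l * (l ^ (a + 1) * RP m b ε l l' u1 u2 (n - 1 - a))) := by
            rw [two_smul ℝ, ← two_mul]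
            calc 2 * l ^ (a + 1 + 1) * K (n - 1 - a) = 2 * l ^ (a + 1) * (l * K (n - 1 - a)) := by ring
              _ = _ := by rw [e5]; ring
          rw [h7, smul_smul]
          congr 1
          ring
        · have h6 : (-l) ^ (a + 1 + 1) = l ^ (a + 1 + 1) := by
            refine Even.neg_pow ?_ l
            rw [Nat.not_odd_iff_even] at h
            obtain ⟨c, rfl⟩ := h
            exact ⟨c + 1, by ring⟩
          rw [h6, sub_self, zero_mul, smul_zero, mul_zero]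
    have s4 : ∑ a ∈ range (n + 1), ((n + 1).choose (a + 1) : ℝ) • ((-l) ^ (a + 1) * RB m b l l' u2 (n - a)) =
        -(l * ∑ a ∈ range (n + 1), ((n + 1).choose (a + 1) : ℝ) • ((-l) ^ a * RB m b l l' u2 (n - a))) := by
      rw [Finset.mul_sum, ← Finset.sum_neg_distrib]
      refine Finset.sum_congr rfl fun a _ => ?_
      rw [mul_smul_comm, ← smul_neg]
      congr 1
      ring
    rw [s4] at e1
    have e6 : (2 * ((n : ℝ) + 1)) • (l * K n) = l * (RD m b ε l' u1 u2 (n + 1) +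
        ∑ a ∈ range (n + 1), ((n + 1).choose (a + 1) : ℝ) • ((-l) ^ a * RB m b l l' u2 (n - a)) -
        ∑ a ∈ range n, if Odd a then (2 * ((n + 1).choose (a + 2) : ℝ)) • (l ^ (a + 1) * RP m b ε l l' u1 u2 (n - 1 - a))
          else 0) := by
      rw [mul_sub l, mul_add l, ← e2]
      linear_combination e1 - s3
    rw [RP_eq, mul_smul_comm, ← e6, smul_smul, inv_mul_cancel₀ (by positivity), one_smul]

/-- `l elc K = l elc P` -/
theorem mul_elc {l : A} {K P : ℕ → A} {N : ℕ} (h : ∀ n, n ≠ 0 → n ≤ N → l * K n = l * P n) (n : ℕ) (hn : n ≤ N) :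
    l * elc K n = l * elc P n := by
  induction n using Nat.strong_induction_on with
  | _ n ih =>
    rcases n with _ | n
    · rw [elc_zero, elc_zero]
    · rw [elc_succ, elc_succ, mul_smul_comm, mul_smul_comm, Finset.mul_sum, Finset.mul_sum]
      congr 1
      refine Finset.sum_congr rfl fun k hk => ?_
      have hk' := Finset.mem_range.1 hk
      have e1 := h (k + 1) (by omega) (by omega)
      have e2 := ih (n - k) (by omega) (by omega)
      linear_combination ((-1) ^ k * elc K (n - k)) * e1 + ((-1) ^ k * P (k + 1)) * e2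

/-! ### the value at `l = 0` -/

theorem RP_res {m : ℕ} {b ε : ℝ} (hb : b ≠ 0) (hε : ε * ε = 1) {l' x : A} (hx : l' ^ 2 = (2 * b) • x)
    {q P : ℕ → ℝ} (hq0 : q 0 = 2) (hq1 : q 1 = 1 / 2) (hq : ∀ i, q (i + 2) = q (i + 1) / 2 - q i / (4 * b ^ 2))
    (hP1 : ∀ i, P (2 * i + 1) = ((m : ℝ) + 1) * b * q (i + 1) - b)
    (hP2 : ∀ i, P (2 * i + 2) = ((m : ℝ) + 1) * q (i + 1) - 2) (n : ℕ) :
    RP m b ε 0 l' x x (n + 1) = (ε • l') ^ (n + 1) * algebraMap ℝ A (P (n + 1)) := by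
  have hb2 : (2 * b) ≠ 0 := mul_ne_zero two_ne_zero hb
  have hr : ∀ i, rr b i = (2 * b) ^ i * q i ∧ rr b (i + 1) = (2 * b) ^ (i + 1) * q (i + 1) := by
    intro i
    induction i with
    | zero =>
      refine ⟨by rw [rr, hq0, pow_zero, one_mul], ?_⟩
      rw [rr, zero_add, hq1]
      ring
    | succ i ih =>
      refine ⟨ih.2, ?_⟩
      rw [rr, hq, ih.1, ih.2]
      have h1 : (2 * b) ^ (i + 2) = (2 * b) ^ i * (4 * b ^ 2) := by ring
      have h2 : (2 * b) ^ (i + 1) = (2 * b) ^ i * (2 * b) := by ring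
      rw [h1, h2]
      field_simp
      ring
  have hs : ∀ i, ss m b i = (2 * b) ^ i * (((m : ℝ) + 1) * q i - 1) := by
    intro i
    unfold ss
    rw [(hr i).1]
    ring
  have hxi : ∀ i, (2 * b) ^ i • x ^ i = l' ^ (2 * i) := by
    intro i
    rw [pow_mul, hx, smul_pow]
  have h0 : ∑ a ∈ range (n + 1), (if Odd a then (2 * ((n + 1 + 1).choose (a + 2) : ℝ)) •
      ((0 : A) ^ (a + 1) * RP m b ε 0 l' x x (n + 1 - 1 - a)) else 0) = 0 := by
    refine Finset.sum_eq_zero fun a _ => ?_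
    rw [zero_pow (Nat.succ_ne_zero a), zero_mul, smul_zero, ite_self]
  have h1 : ∑ a ∈ range (n + 1 + 1), ((n + 1 + 1).choose (a + 1) : ℝ) •
      ((-(0 : A)) ^ a * RB m b 0 l' x (n + 1 - a)) = ((n : ℝ) + 2) • RB m b 0 l' x (n + 1) := by
    rw [Finset.sum_eq_single 0]
    · rw [pow_zero, one_mul, zero_add, Nat.choose_one_right, tsub_zero]
      push_cast
      congr 1
      ring
    · intro a _ ha
      rw [neg_zero, zero_pow ha, zero_mul, smul_zero]
    · intro h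
      exact absurd (Finset.mem_range.2 (Nat.succ_pos _)) h
  rw [RP_eq, h0, h1, sub_zero]
  rcases Nat.even_or_odd' n with ⟨i, rfl | rfl⟩
  · -- odd degree
    have o1 : ¬ Even (2 * i + 1) := by rw [Nat.not_even_iff_odd]; exact ⟨i, rfl⟩
    have o2 : Even (2 * i + 1 + 1) := ⟨i + 1, by ring⟩
    have e1 : (2 * i + 1 + 1) / 2 = i + 1 := by omega
    have hsum : ∑ k ∈ range (i + 1), x ^ k * x ^ (i + 1 - 1 - k) = ((i : ℝ) + 1) • x ^ i := by
      rw [Finset.sum_congr rfl (g := fun _ => x ^ i)]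
      · rw [Finset.sum_const, Finset.card_range, ← Nat.cast_smul_eq_nsmul ℝ]
        push_cast
        rfl
      · intro k hk
        have := Finset.mem_range.1 hk
        rw [← pow_add]
        congr 1
        omega
    unfold RB RD
    rw [if_neg (Nat.succ_ne_zero (2 * i)), if_neg o1, if_pos o2, e1, hsum, smul_zero, add_zero, hP1, hs]
    have e2 : (ε • l') ^ (2 * i + 1) = ε • l' ^ (2 * i + 1) := by
      rw [smul_pow]
      congr 1
      rw [pow_succ, pow_mul, pow_two, hε, one_pow, one_mul]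
    have e3 : l' ^ (2 * i + 1) = (2 * b) ^ i • (l' * x ^ i) := by
      rw [pow_succ, ← hxi, smul_mul_assoc, mul_comm (x ^ i) l']
    rw [e2, e3, smul_mul_assoc, smul_mul_assoc, ← Algebra.commutes, ← Algebra.smul_def, mul_smul_comm, smul_smul,
      smul_smul, smul_smul, smul_smul]
    congr 1
    push_cast
    field_simp
    ring
  · -- even degree
    have o1 : Even (2 * i + 1 + 1) := ⟨i + 1, by ring⟩
    have o2 : ¬ Even (2 * i + 1 + 1 + 1) := by rw [Nat.not_even_iff_odd]; exact ⟨i + 1, by ring⟩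
    have e1 : (2 * i + 1 + 1) / 2 = i + 1 := by omega
    unfold RB RD
    rw [if_neg (Nat.succ_ne_zero (2 * i + 1)), if_pos o1, if_neg o2, e1, zero_add, zero_pow (Nat.succ_ne_zero (2 * i + 1)), zero_add]
    have e5 : P (2 * i + 1 + 1) = ((m : ℝ) + 1) * q (i + 1) - 2 := hP2 i
    have e2 : (ε • l') ^ (2 * i + 1 + 1) = l' ^ (2 * i + 1 + 1) := by
      rw [smul_pow]
      have : ε ^ (2 * i + 1 + 1) = 1 := by
        have h2 : 2 * i + 1 + 1 = 2 * (i + 1) := by ring
        rw [h2, pow_mul, pow_two, hε, one_pow]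
      rw [this, one_smul]
    have e3 : l' ^ (2 * i + 1 + 1) = (2 * b) ^ (i + 1) • x ^ (i + 1) := by
      rw [hxi]
      congr 1
    rw [e2, e5, e3, hs, smul_mul_assoc, ← Algebra.commutes, ← Algebra.smul_def, smul_smul, smul_smul,
      ← sub_smul, smul_smul, smul_smul]
    congr 1
    push_cast
    field_simp
    ring

theorem elc_RP {m : ℕ} {b ε : ℝ} (hb : b ≠ 0) (hε : ε * ε = 1) {l' x : A} (hx : l' ^ 2 = (2 * b) • x)
    {q P : ℕ → ℝ} (hq0 : q 0 = 2) (hq1 : q 1 = 1 / 2) (hq : ∀ i, q (i + 2) = q (i + 1) / 2 - q i / (4 * b ^ 2))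
    (hP1 : ∀ i, P (2 * i + 1) = ((m : ℝ) + 1) * b * q (i + 1) - b)
    (hP2 : ∀ i, P (2 * i + 2) = ((m : ℝ) + 1) * q (i + 1) - 2) (n : ℕ) :
    elc (RP m b ε 0 l' x x) n = elc P n • (ε • l') ^ n := by
  have h1 := elc_congr (p := RP m b ε 0 l' x x) (q := fun k => (ε • l') ^ k * algebraMap ℝ A (P k))
    (fun k => RP_res hb hε hx hq0 hq1 hq hP1 hP2 k) n
  have h2 := map_elc (Algebra.ofId ℝ A) P n
  rw [h1, elc_homog]
  have h3 : elc (fun k => algebraMap ℝ A (P k)) n = algebraMap ℝ A (elc P n) := h2.symm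
  rw [h3, ← Algebra.commutes, ← Algebra.smul_def]

/-- the number `c_(2m-1)` -/
theorem elc_Xi {b : ℝ} (hb : 6 ≤ b) {m : ℕ} (hm : 2 ≤ m) :
    ∃ q P : ℕ → ℝ, q 0 = 2 ∧ q 1 = 1 / 2 ∧ (∀ i, q (i + 2) = q (i + 1) / 2 - q i / (4 * b ^ 2)) ∧
      (∀ i, P (2 * i + 1) = ((m : ℝ) + 1) * b * q (i + 1) - b) ∧
      (∀ i, P (2 * i + 2) = ((m : ℝ) + 1) * q (i + 1) - 2) ∧ 0 < elc P (2 * m - 1) := by
  obtain ⟨q, hq⟩ : ∃ q : ℕ → ℝ, q = fun i => rr b i / (2 * b) ^ i := ⟨_, rfl⟩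
  obtain ⟨P, hP⟩ : ∃ P : ℕ → ℝ, P = fun j => if Odd j then ((m : ℝ) + 1) * b * q ((j + 1) / 2) - b
    else ((m : ℝ) + 1) * q (j / 2) - 2 := ⟨_, rfl⟩
  have hb0 : b ≠ 0 := by
    intro h
    rw [h] at hb
    norm_num at hb
  have q0 : q 0 = 2 := by rw [hq]; simp [rr]
  have q1 : q 1 = 1 / 2 := by
    rw [hq]
    simp only [rr, pow_one]
    field_simp
  have q2 : ∀ i, q (i + 2) = q (i + 1) / 2 - q i / (4 * b ^ 2) := by
    intro i
    rw [hq]
    simp only [rr]
    have h1 : (2 * b) ^ (i + 2) = (2 * b) ^ i * (4 * b ^ 2) := by ring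
    have h2 : (2 * b) ^ (i + 1) = (2 * b) ^ i * (2 * b) := by ring
    rw [h1, h2]
    have h3 : (2 * b) ^ i ≠ 0 := pow_ne_zero _ (mul_ne_zero two_ne_zero hb0)
    field_simp
    ring
  have p1 : ∀ i, P (2 * i + 1) = ((m : ℝ) + 1) * b * q (i + 1) - b := by
    intro i
    have h1 : Odd (2 * i + 1) := ⟨i, rfl⟩
    have h2 : (2 * i + 1 + 1) / 2 = i + 1 := by omega
    rw [hP]
    simp only [h1, if_true, h2]
  have p2 : ∀ i, P (2 * i + 2) = ((m : ℝ) + 1) * q (i + 1) - 2 := by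
    intro i
    have h1 : ¬ Odd (2 * i + 2) := by rw [Nat.not_odd_iff_even]; exact ⟨i + 1, by ring⟩
    have h2 : (2 * i + 2) / 2 = i + 1 := by omega
    rw [hP]
    simp only [h1, if_false, h2]
  refine ⟨q, P, q0, q1, q2, p1, p2, ?_⟩
  refine XiF.Xi_pos b hb m hm q P (elc P) q0 q1 q2 p1 p2 (elc_zero P) (fun k => ?_) (2 * m - 1) le_rfl
  rw [elc_succ, smul_eq_mul, ← mul_assoc, mul_inv_cancel₀ (by positivity), one_mul]
  refine Finset.sum_congr rfl fun i _ => ?_
  ring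

end Pool.Agent.Lib.MP_ccbbf6_gt.L5
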