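import Pool.Agent.Lib.MP_ccbbf6_gt.L5.CWo
import Pool.Agent.Lib.MP_ccbbf6_gt.L5.HE
import Pool.Agent.Lib.MP_ccbbf6_gt.L5.PHI01
import Pool.Agent.Lib.MP_ccbbf6_gt.L5.PHI02
import Pool.Agent.Lib.MP_ccbbf6_gt.L5.RHO0

/-!
# Level 5, block RHO 1: the form level of F7 on an abstract space (helper5)

`RhoD` : the data of the `ρ` side; `RhoD.key` : `l F = dζ` (basic) implies `I (F x σ) = 0`.
-/

set_option autoImplicit false
set_option maxSynthPendingDepth 3
set_option linter.unusedSectionVars false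

open Set Filter Topology

noncomputable section

namespace Pool.Agent.Lib.MP_ccbbf6_gt.L5

open L4 L4.FR Finset

/-! ### homogeneity -/

section homog

variable {A : Type*} [CommRing A] [Algebra ℝ A]

theorem RB_homog (m : ℕ) (b : ℝ) (t l l' u : A) (j : ℕ) :
    RB m b (t * l) (t * l') (t ^ 2 * u) j = t ^ j * RB m b l l' u j := by
  unfold RB
  split_ifs with h1 h2
  · rw [h1, pow_zero, one_mul]
  · have e : (t ^ 2) ^ (j / 2) = t ^ j := by
      rw [← pow_mul]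
      congr 1
      exact Nat.two_mul_div_two_of_even h2
    rw [mul_pow, mul_pow, mul_pow, e, mul_sub, mul_smul_comm, mul_smul_comm, mul_add]
  · rw [mul_zero]

theorem RD_homog (m : ℕ) (b ε : ℝ) (t l' u1 u2 : A) (j : ℕ) :
    RD m b ε (t * l') (t ^ 2 * u1) (t ^ 2 * u2) (j + 1) = t ^ j * RD m b ε l' u1 u2 (j + 1) := by
  unfold RD
  split_ifs with h1
  · obtain ⟨c, hc⟩ := h1
    have e1 : (j + 1) / 2 = c := by omega
    rw [e1, mul_smul_comm]
    congr 1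
    have e2 : ∀ i ∈ range c, (t ^ 2 * u1) ^ i * (t ^ 2 * u2) ^ (c - 1 - i) =
        t ^ (2 * (c - 1)) * (u1 ^ i * u2 ^ (c - 1 - i)) := by
      intro i hi
      have hi' := Finset.mem_range.1 hi
      rw [mul_pow, mul_pow, ← pow_mul, ← pow_mul]
      have e3 : 2 * (c - 1) = 2 * i + 2 * (c - 1 - i) := by omega
      rw [e3, pow_add]
      ring
    rw [Finset.sum_congr rfl e2, ← Finset.mul_sum]
    rcases Nat.eq_zero_or_pos c with h | h
    · omega
    · have e4 : j = 2 * (c - 1) + 1 := by omega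
      rw [e4, pow_succ]
      ring
  · rw [mul_zero]

theorem RP_homog (m : ℕ) (b ε : ℝ) (t l l' u1 u2 : A) (n : ℕ) :
    RP m b ε (t * l) (t * l') (t ^ 2 * u1) (t ^ 2 * u2) n = t ^ n * RP m b ε l l' u1 u2 n := by
  induction n using Nat.strong_induction_on with
  | _ n ih =>
    rw [RP_eq, RP_eq m b ε l, RD_homog, mul_smul_comm]
    congr 1
    rw [mul_sub, mul_add]
    congr 1
    · congr 1
      rw [Finset.mul_sum]
      refine Finset.sum_congr rfl fun a ha => ?_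
      have ha' := Finset.mem_range.1 ha
      rw [RB_homog, mul_smul_comm]
      congr 1
      have e1 : t ^ n = t ^ a * t ^ (n - a) := by
        rw [← pow_add]
        congr 1
        omega
      rw [e1, ← mul_neg, mul_pow]
      ring
    · rw [Finset.mul_sum]
      refine Finset.sum_congr rfl fun a ha => ?_
      have ha' := Finset.mem_range.1 ha
      split_ifs
      · rw [ih (n - 1 - a) (by omega), mul_smul_comm]
        congr 1
        have e1 : t ^ n = t ^ (a + 1) * t ^ (n - 1 - a) := by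
          rw [← pow_add]
          congr 1
          omega
        rw [e1, mul_pow]
        ring
      · rw [mul_zero]

end homog

/-! ### forms -/

variable {X : Space}

theorem d_smul' (r : ℝ) (x : Om X) : dO X (r • x) = r • dO X x := map_smul _ _ _

/-- the data of the `ρ` side -/
structure RhoD (X : Space) (m : ℕ) where
  c : Circ X
  I : Om X →ₗ[ℝ] ℝ
  I_d : ∀ x, I (dO X x) = 0
  I_i : ∀ x, iO c x = 0 → I x = 0
  η : Om X
  sη : sO X η = -η
  iη : iO c η = 1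
  idη : iO c (dO X η) = 0
  x1 : (GB c).Zc
  x2 : (GB c).Zc
  px : x1 ^ (m + 1) = 0
  ψ : Om X
  sψ : sO X ψ = -ψ
  dψ : dO X ψ = ((x2 : BasR c) : Om X) - ((x1 : BasR c) : Om X)
  ξ : Om X
  sξ : sO X ξ = -ξ
  bξ : Bas c ξ
  dξ : dO X ξ = ((hm m x1 x2 : (GB c).Zc) : BasR c)

namespace RhoD

variable {m : ℕ} (D : RhoD X m)

/-- coercion of basic closed even forms -/
def co : (GB D.c).Zc →ₐ[ℝ] Om X := (BasR D.c).val.comp (GB D.c).Zc.val

lemma co_bas (w : (GB D.c).Zc) : Bas D.c (D.co w) := BasR_bas D.c w.1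
lemma co_s (w : (GB D.c).Zc) : sO X (D.co w) = D.co w := congrArg Subtype.val w.2.1
lemma co_d (w : (GB D.c).Zc) : dO X (D.co w) = 0 := congrArg Subtype.val w.2.2
lemma co_i (w : (GB D.c).Zc) : iO D.c (D.co w) = 0 := Bas_i D.c (D.co_bas w)
lemma co_comm (w : (GB D.c).Zc) (y : Om X) : D.co w * y = y * D.co w := even_comm' (D.co_s w) y

/-- `dη` as a basic closed even form -/
def lz : (GB D.c).Zc := ⟨toB D.c (Bas_closed D.c D.idη (d_d _)), Subtype.ext (by
  change sO X (dO X D.η) = dO X D.η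
  rw [s_d, D.sη, map_neg, neg_neg]), Subtype.ext (d_d _)⟩

lemma co_lz : D.co D.lz = dO X D.η := rfl

/-- averaged `ψ` -/
def ψa : Om X := AO D.c D.ψ

lemma sψa : sO X D.ψa = -D.ψa := by
  unfold ψa
  rw [A_s, D.sψ, map_neg]

lemma dψa : dO X D.ψa = D.co D.x2 - D.co D.x1 := by
  unfold ψa
  rw [A_d, D.dψ]
  exact A_bas D.c (Bas_sub D.c (D.co_bas D.x2) (D.co_bas D.x1))

lemma d_iψa : dO X (iO D.c D.ψa) = 0 := by
  have h1 : dO X (iO D.c D.ψa) = -iO D.c (dO X D.ψa) := cartan D.c (A_inv D.c _)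
  rw [h1, D.dψa, map_sub, D.co_i, D.co_i, sub_zero, neg_zero]

lemma s_iψa : sO X (iO D.c D.ψa) = iO D.c D.ψa := by
  rw [i_s, D.sψa, map_neg, neg_neg]

/-- the primitive of `(m + 1) x1 ^ m` -/
def σa : Om X := D.ξ - D.ψa * D.co (Qm m D.x1 D.x2)

lemma dσa : dO X D.σa = ((m : ℝ) + 1) • D.co (D.x1 ^ m) := by
  have h1 := congrArg D.co (Qm_spec m D.x1 D.x2)
  have h2 : dO X D.ξ = D.co (hm m D.x1 D.x2) := D.dξ
  unfold σa
  rw [map_sub, h2, d_mul, D.co_d, mul_zero, add_zero, D.dψa, ← map_sub D.co, ← map_mul, Qm_spec, map_sub,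
    sub_sub_cancel]
  have h3 : (((m + 1 : ℕ) : (GB D.c).Zc) * D.x1 ^ m) = ((m : ℝ) + 1) • D.x1 ^ m := by
    rw [← nsmul_eq_mul, ← Nat.cast_smul_eq_nsmul ℝ]
    push_cast
    rfl
  rw [h3, map_smul]

lemma i_σa : iO D.c D.σa = -(iO D.c D.ψa * D.co (Qm m D.x1 D.x2)) := by
  unfold σa
  rw [map_sub, Bas_i D.c D.bξ, i_mul, D.co_i, mul_zero, add_zero, zero_sub]

/-- `x Q` is exact -/
lemma xQ : ∃ μ : Om X, D.co D.x1 * D.co (Qm m D.x1 D.x2) = dO X μ := by
  -- in the cohomology of `X`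
  have e0 : (GHom.zc (incB D.c) D.x2 : (GO X).Zc) - GHom.zc (incB D.c) D.x1 ∈ (GO X).Ex := ⟨D.ψa, D.dψa⟩
  obtain ⟨q, hq⟩ : ∃ q : (GO X).Zc →+* (GO X).HE, q = Ideal.Quotient.mk (GO X).Ex := ⟨_, rfl⟩
  obtain ⟨a, ha⟩ : ∃ a, a = q (GHom.zc (incB D.c) D.x1) := ⟨_, rfl⟩
  have e1 : q (GHom.zc (incB D.c) D.x2) = a := by
    rw [ha, hq, Ideal.Quotient.eq]
    exact e0
  have e2 : a ^ m = 0 := by
    rw [ha, ← map_pow, ← map_pow, hq, Ideal.Quotient.eq_zero_iff_mem]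
    refine ⟨((m : ℝ) + 1)⁻¹ • D.σa, ?_⟩
    change dO X _ = D.co (D.x1 ^ m)
    rw [map_smul, D.dσa, smul_smul, inv_mul_cancel₀ (by positivity), one_smul]
  have e3 : q (GHom.zc (incB D.c) (D.x1 * Qm m D.x1 D.x2)) = 0 := by
    rw [map_mul, map_mul]
    unfold Qm
    simp only [map_sum, map_mul, map_pow]
    rw [← ha, e1, Finset.mul_sum]
    refine Finset.sum_eq_zero fun j hj => ?_
    rw [Finset.mul_sum, Finset.mul_sum]
    refine Finset.sum_eq_zero fun i hi => ?_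
    have hi' := Finset.mem_range.1 hi
    have e4 : a * (a ^ j * (a ^ i * a ^ (m - j - 1 - i))) = a ^ m := by
      rw [← pow_add, ← pow_add, ← pow_succ']
      congr 1
      omega
    rw [e4, e2]
  rw [hq, Ideal.Quotient.eq_zero_iff_mem] at e3
  obtain ⟨μ, hμ⟩ := e3
  refine ⟨μ, ?_⟩
  rw [← map_mul]
  exact hμ.symm

/-- **Key lemma.** -/
theorem key {F : (GB D.c).Zc} {ζ : Om X} (hζ : Bas D.c ζ) (hF : D.co (D.lz * F) = dO X ζ) :
    D.I (D.co (F * D.x1) * D.σa) = 0 := by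
  -- the odd part of the primitive
  obtain ⟨z, hz⟩ : ∃ z, z = (1 / 2 : ℝ) • (ζ - sO X ζ) := ⟨_, rfl⟩
  have hsz : sO X z = -z := by
    rw [hz, map_smul, map_sub, s_s, ← smul_neg, neg_sub]
  have hdz : dO X z = D.co (D.lz * F) := by
    have h1 : dO X (sO X ζ) = -D.co (D.lz * F) := by
      have h2 := s_d ζ
      rw [← hF, D.co_s] at h2
      rw [eq_neg_iff_add_eq_zero, add_comm]
      rw [h2]
      exact neg_add_cancel _
    rw [hz, map_smul, map_sub, h1, ← hF, sub_neg_eq_add, ← two_smul ℝ, smul_smul]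
    norm_num
  have hiz : iO D.c z = 0 := by
    have h1 : iO D.c (sO X ζ) = 0 := by
      have := i_s D.c ζ
      rw [Bas_i D.c hζ, map_zero] at this
      exact neg_eq_zero.1 this.symm
    rw [hz, map_smul, map_sub, h1, Bas_i D.c hζ, sub_zero, smul_zero]
  obtain ⟨θ, hθ⟩ : ∃ θ, θ = D.η * D.co F - z := ⟨_, rfl⟩
  have hsθ : sO X θ = -θ := by
    rw [hθ, map_sub, map_mul, D.sη, D.co_s, hsz, neg_mul]
    abel
  have hdθ : dO X θ = 0 := by
    rw [hθ, map_sub, d_mul, D.co_d, mul_zero, add_zero, hdz, map_mul, D.co_lz, sub_self]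
  have hiθ : iO D.c θ = D.co F := by
    rw [hθ, map_sub, i_mul, D.iη, one_mul, D.co_i, mul_zero, add_zero, hiz, sub_zero]
  -- the contraction of `θ x σ`
  have h1 : D.I (iO D.c (θ * (D.co D.x1 * D.σa))) = 0 := D.I_i _ (i_i D.c _)
  rw [i_mul, hiθ, hsθ, i_mul, D.co_i, zero_mul, zero_add, D.co_s, D.i_σa, map_add] at h1
  obtain ⟨μ, hμ⟩ := D.xQ
  have h2 : -θ * (D.co D.x1 * -(iO D.c D.ψa * D.co (Qm m D.x1 D.x2))) =
      (θ * iO D.c D.ψa) * dO X μ := by
    have h3 : D.co D.x1 * (iO D.c D.ψa * D.co (Qm m D.x1 D.x2)) =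
        iO D.c D.ψa * (D.co D.x1 * D.co (Qm m D.x1 D.x2)) := by
      rw [← mul_assoc, D.co_comm, mul_assoc]
    rw [mul_neg, neg_mul_neg, h3, hμ, mul_assoc]
  have h4 : D.I ((θ * iO D.c D.ψa) * dO X μ) = 0 := by
    have h5 : dO X (θ * iO D.c D.ψa) = 0 := by
      rw [d_mul, hdθ, D.d_iψa, zero_mul, mul_zero, add_zero]
    have h6 : sO X (θ * iO D.c D.ψa) = -(θ * iO D.c D.ψa) := by
      rw [map_mul, hsθ, D.s_iψa, neg_mul]
    have h7 := D.I_d ((θ * iO D.c D.ψa) * μ)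
    rw [d_mul, h5, zero_mul, zero_add, h6, neg_mul, map_neg] at h7
    exact neg_eq_zero.1 h7
  rw [h2, h4, add_zero, ← mul_assoc, ← map_mul] at h1
  exact h1

/-- `I (dγ x σ) = 0` -/
lemma I_ex (γ : Om X) : D.I (dO X γ * (D.co D.x1 * D.σa)) = 0 := by
  have h1 := D.I_d (γ * (D.co D.x1 * D.σa))
  have h2 : dO X (D.co D.x1 * D.σa) = 0 := by
    rw [d_mul, D.co_d, zero_mul, zero_add, D.co_s, D.dσa, mul_smul_comm, ← map_mul, ← pow_succ', D.px, map_zero,
      smul_zero]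
  rw [d_mul, h2, mul_zero, add_zero] at h1
  exact h1

/-- the value on `f x ^ (m - 1)` does not depend on the primitive -/
lemma I_prim {f : Om X} (hf : dO X f = 0) (hsf : sO X f = f) (hm : 1 ≤ m) {σ : Om X}
    (hσ : dO X σ = D.co (D.x1 ^ m)) :
    D.I (f * D.co (D.x1 ^ (m - 1)) * (D.co D.x1 * D.σa)) = ((m : ℝ) + 1) * D.I (f * (D.co (D.x1 ^ m) * σ)) := by
  obtain ⟨τ, hτ⟩ : ∃ τ, τ = D.σa - ((m : ℝ) + 1) • σ := ⟨_, rfl⟩
  have hdτ : dO X τ = 0 := by rw [hτ, map_sub, map_smul, hσ, D.dσa, sub_self]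
  have e1 : f * D.co (D.x1 ^ (m - 1)) * (D.co D.x1 * D.σa) = f * (D.co (D.x1 ^ m) * D.σa) := by
    rw [mul_assoc, ← mul_assoc (D.co (D.x1 ^ (m - 1))), ← map_mul, ← pow_succ]
    have : m - 1 + 1 = m := by omega
    rw [this]
  have e2 : D.σa = τ + ((m : ℝ) + 1) • σ := by rw [hτ]; abel
  have h1 := D.I_d (f * (σ * τ))
  rw [d_mul, hf, zero_mul, zero_add, hsf, d_mul, hdτ, mul_zero, add_zero, hσ] at h1
  rw [e1, e2, mul_add, mul_add, map_add, h1, zero_add, mul_smul_comm, mul_smul_comm, map_smul, smul_eq_mul]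

end RhoD

end Pool.Agent.Lib.MP_ccbbf6_gt.L5
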