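import Pool.Agent.Lib.MP_ccbbf6_gt.L5.EL1

/-!
# Level 5, block RHO 3: rotating frames (helper5)

`RotF c y y'` : an orthonormal pair of functions rotated by the circle action `c`.
* `RotF.η` = `(1 / 2 π) ∑ y'_i dy_i` is a connection form;
* `RotF.L` = the basic line bundle `½ (y + i y')(y - i y')^T`, `ps L j = (- 2 π i dη)^j` as forms.
-/

set_option autoImplicit false
set_option maxSynthPendingDepth 3
set_option linter.unusedSectionVars false

open Set Filter Topology Matrix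
open scoped ContDiff

noncomputable section

namespace Pool.Agent.Lib.MP_ccbbf6_gt.L5

open L4 L4.FR

/-- `2 π i` in the complex cohomology -/
def tpi {B : Type*} [Ring B] [Algebra ℝ B] (G : GDA B) : (GC G).HE := (2 * Real.pi) • GDA.hI G

variable {X : Space} {k : ℕ}

/-! ### contraction of the differential of a function -/

lemma pb_sl_cs_dd (F : Cs (k + 1)) (c : ℝ) :
    pb (sl k c) (cs k (dd (k + 1) (fc (k + 1) F))) = fc k ((sl k c).pull (pd (Fin.last k) F)) := by
  have h1 := dd_cs (fc (k + 1) F)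
  have h2 : cs k (fc (k + 1) F) = 0 := cn_fc _ _
  have h3 : Ls k (fc (k + 1) F) = fc (k + 1) (pd (Fin.last k) F) := rfl
  rw [h2, map_zero, zero_add, h3] at h1
  rw [h1, pb_fc]

/-- the derivative of a rotated function -/
theorem i_dfn {c : Circ X} {f g : SF X}
    (h : ∀ x s, f.1 (c.a.1 (x, s)) = Real.cos (2 * Real.pi * s) * f.1 x + Real.sin (2 * Real.pi * s) * g.1 x) :
    iO c (dO X (fn X f)) = (2 * Real.pi) • fn X g := by
  refine Om_ext fun k p => ?_
  rw [on_i, on_d, fn_apply, on_fO, pb_sl_cs_dd, on_smul, fn_apply, on_fO, ← map_smul]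
  congr 1
  refine Cs_ext fun x => ?_
  rw [Sm.pull_apply, pd_apply]
  obtain ⟨F, hF⟩ : ∃ F : Cs (k + 1), F = mkC (fun z => f.1 ((c.op p).1 z)) (f.2 (k + 1) (c.op p)) := ⟨_, rfl⟩
  have hF2 : ContDiff ℝ ∞ (fun z => f.1 ((c.op p).1 z)) := f.2 (k + 1) (c.op p)
  have h1 : HasDerivAt (fun s : ℝ => f.1 ((c.op p).1 (Fin.snoc x s)))
      (fderiv ℝ (fun z => f.1 ((c.op p).1 z)) (sl k 0 x) (Pi.single (Fin.last k) 1)) 0 := by
    have h2 := (hF2.differentiable (by simp) (sl k 0 x)).hasFDerivAt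
    exact h2.comp_hasDerivAt_of_eq (0 : ℝ) (hasDerivAt_snoc x 0) rfl
  have h2 : HasDerivAt (fun s : ℝ => f.1 ((c.op p).1 (Fin.snoc x s))) (2 * Real.pi * g.1 (p.1 x)) 0 := by
    have h3 : (fun s : ℝ => f.1 ((c.op p).1 (Fin.snoc x s))) =
        fun s => Real.cos (2 * Real.pi * s) * f.1 (p.1 x) + Real.sin (2 * Real.pi * s) * g.1 (p.1 x) := by
      funext s
      rw [← h]
      have h4 : (c.op p).1 (Fin.snoc x s) = c.a.1 (p.1 (pr k (Fin.snoc x s)), (Fin.snoc x s : V (k + 1)) (Fin.last k)) := rfl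
      rw [h4, pr_snoc, Fin.snoc_last]
    rw [h3]
    have h5 : HasDerivAt (fun s : ℝ => 2 * Real.pi * s) (2 * Real.pi) 0 := by
      simpa using (hasDerivAt_id (0 : ℝ)).const_mul (2 * Real.pi)
    refine HasDerivAt.congr_deriv ((h5.cos.mul_const (f.1 (p.1 x))).add (h5.sin.mul_const (g.1 (p.1 x)))) ?_
    simp
  have h3 := h1.unique h2
  exact h3

/-! ### line bundles -/

section line

variable {B : Type*} [Ring B] [Algebra ℝ B] {G : GDA B} {ι : Type*} [Fintype ι] [DecidableEq ι]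

theorem od_sq {x : B} (h : G.s x = -x) : x * x = 0 := by
  have h1 := G.comm_odd x x h h
  have h2 : (2 : ℝ) • (x * x) = 0 := by
    rw [two_smul]
    nth_rewrite 1 [h1]
    exact neg_add_cancel _
  have h3 : x * x = (1 / 2 : ℝ) • ((2 : ℝ) • (x * x)) := by
    rw [smul_smul]
    norm_num
  rw [h3, h2, smul_zero]

/-- the curvature of a line bundle -/
theorem line_ps {P : Matrix ι ι B} (h : G.Idem P) {a : Matrix ι Unit B} {b : Matrix Unit ι B} (ha : G.Ev a)
    (hb : G.Ev b) (h1 : a * b = P) (h2 : b * a = 1) : G.ps P 1 = trace (G.D b * G.D a) := by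
  rw [h.ps_split ha h1 h2, pow_one]
  obtain ⟨w, hw⟩ : ∃ w, w = b * G.D a := ⟨_, rfl⟩
  have e0 : G.D b * a = -w := by
    have := GDA.D_mul (G := G) b a
    rw [h2, GDA.D_one, show G.S b = b from hb] at this
    rw [hw]
    exact eq_neg_of_add_eq_zero_left this.symm
  have e1 : G.D P = G.D a * b + a * G.D b := by
    rw [← h1, GDA.D_mul, show G.S a = a from ha]
  have e2 : b * G.D P = w * b + G.D b := by
    rw [e1, Matrix.mul_add, ← Matrix.mul_assoc, ← Matrix.mul_assoc, h2, Matrix.one_mul, hw]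
  have e3 : G.D P * a = G.D a - a * w := by
    rw [e1, Matrix.add_mul, Matrix.mul_assoc, h2, Matrix.mul_one, Matrix.mul_assoc, e0, Matrix.mul_neg,
      ← sub_eq_add_neg]
  have e4 : b * G.R P * a = G.D b * G.D a + w * w := by
    unfold GDA.R
    rw [← Matrix.mul_assoc, Matrix.mul_assoc, e3, e2, Matrix.add_mul, Matrix.mul_sub, Matrix.mul_sub,
      Matrix.mul_assoc w b, ← hw, Matrix.mul_assoc w b, ← Matrix.mul_assoc b a, h2, Matrix.one_mul,
      ← Matrix.mul_assoc (G.D b), e0, Matrix.neg_mul]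
    abel
  have e5 : trace (w * w) = 0 := by
    have hw1 : G.s (w () ()) = -w () () := by
      have : G.Od w := by rw [hw]; exact hb.mul_od ha.D
      exact this.app () ()
    unfold trace
    simp only [Finset.univ_unique, PUnit.default_eq_unit, Finset.sum_singleton, Matrix.diag_apply, Matrix.mul_apply]
    exact od_sq hw1
  rw [e4, Matrix.trace_add, e5, add_zero]

end line

/-! ### rotating frames -/

variable {ι : Type*} [Fintype ι] [DecidableEq ι]

/-- an orthonormal pair rotated by the action -/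
structure RotF (c : Circ X) (y y' : ι → SF X) : Prop where
  n1 : ∑ i, y i * y i = 1
  n2 : ∑ i, y' i * y' i = 1
  n3 : ∑ i, y i * y' i = 0
  r1 : ∀ i x s, (y i).1 (c.a.1 (x, s)) =
    Real.cos (2 * Real.pi * s) * (y i).1 x + Real.sin (2 * Real.pi * s) * (y' i).1 x
  r2 : ∀ i x s, (y' i).1 (c.a.1 (x, s)) =
    -(Real.sin (2 * Real.pi * s)) * (y i).1 x + Real.cos (2 * Real.pi * s) * (y' i).1 x

/-- the connection form -/
def ηF (y y' : ι → SF X) : Om X := (1 / (2 * Real.pi)) • ∑ i, fn X (y' i) * dO X (fn X (y i))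

lemma s_dfn (f : SF X) : sO X (dO X (fn X f)) = -dO X (fn X f) := by rw [s_d, s_fn]

lemma Bas_fn {c : Circ X} (f : SF X) (h : ∀ x s, f.1 (c.a.1 (x, s)) = f.1 x) : Bas c (fn X f) :=
  BasR_bas c (fnB c ⟨f, h⟩)

section

variable {c : Circ X} {y y' : ι → SF X}

lemma s_ηF : sO X (ηF y y') = -ηF y y' := by
  unfold ηF
  rw [map_smul, map_sum, ← smul_neg, ← Finset.sum_neg_distrib]
  congr 1
  refine Finset.sum_congr rfl fun i _ => ?_
  rw [map_mul, s_fn, s_dfn, mul_neg]

lemma d_ηF : dO X (ηF y y') = (1 / (2 * Real.pi)) • ∑ i, dO X (fn X (y' i)) * dO X (fn X (y i)) := by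
  unfold ηF
  rw [map_smul, map_sum]
  congr 1
  refine Finset.sum_congr rfl fun i _ => ?_
  rw [d_mul, d_d, mul_zero, add_zero]

variable (h : RotF c y y')

include h

lemma RotF.iη : iO c (ηF y y') = 1 := by
  unfold ηF
  rw [map_smul, map_sum]
  have h1 : ∀ i, iO c (fn X (y' i) * dO X (fn X (y i))) = (2 * Real.pi) • fn X (y' i * y' i) := by
    intro i
    have h2 : iO c (fn X (y' i)) = 0 := by
      refine Om_ext fun k p => ?_
      rw [on_i, fn_apply, on_fO]
      change pb (sl k 0) (cn (lst k) (fc _ _)) = _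
      rw [cn_fc, map_zero, on_zero]
    rw [i_mul, h2, zero_mul, zero_add, s_fn, i_dfn (h.r1 i), mul_smul_comm, map_mul]
  rw [Finset.sum_congr rfl fun i _ => h1 i, ← Finset.smul_sum, smul_smul, ← map_sum, h.n2, map_one]
  have := Real.pi_pos
  rw [one_div, inv_mul_cancel₀ (by positivity), one_smul]

/-- invariance of the matrix of the line bundle -/
lemma RotF.inv1 (i j : ι) (x : X.pt) (s : ℝ) :
    (y i * y j + y' i * y' j).1 (c.a.1 (x, s)) = (y i * y j + y' i * y' j).1 x := by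
  change (y i).1 _ * (y j).1 _ + (y' i).1 _ * (y' j).1 _ = (y i).1 x * (y j).1 x + (y' i).1 x * (y' j).1 x
  rw [h.r1, h.r1, h.r2, h.r2]
  linear_combination ((y i).1 x * (y j).1 x + (y' i).1 x * (y' j).1 x) * (Real.sin_sq_add_cos_sq (2 * Real.pi * s))

lemma RotF.inv2 (i j : ι) (x : X.pt) (s : ℝ) :
    (y' i * y j - y i * y' j).1 (c.a.1 (x, s)) = (y' i * y j - y i * y' j).1 x := by
  change (y' i).1 _ * (y j).1 _ - (y i).1 _ * (y' j).1 _ = (y' i).1 x * (y j).1 x - (y i).1 x * (y' j).1 x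
  rw [h.r1, h.r1, h.r2, h.r2]
  linear_combination ((y' i).1 x * (y j).1 x - (y i).1 x * (y' j).1 x) * (Real.sin_sq_add_cos_sq (2 * Real.pi * s))

/-- the line bundle as a matrix of invariant functions -/
def RotF.L : Matrix ι ι (CB (SB c)) := fun i j =>
  ⟨(1 / 2 : ℝ) • ⟨y i * y j + y' i * y' j, h.inv1 i j⟩, (1 / 2 : ℝ) • ⟨y' i * y j - y i * y' j, h.inv2 i j⟩⟩

omit h in
/-- the column -/
def colF (y y' : ι → SF X) : Matrix ι Unit (CB (SF X)) := fun i _ => ⟨y i, y' i⟩

omit h in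
/-- the row -/
def rowF (y y' : ι → SF X) : Matrix Unit ι (CB (SF X)) := fun _ i => ⟨(1 / 2 : ℝ) • y i, -((1 / 2 : ℝ) • y' i)⟩

lemma RotF.ab : colF y y' * rowF y y' = h.L.map (CB.alg (SB c).val) := by
  refine Matrix.ext fun i j => ?_
  rw [Matrix.mul_apply]
  simp only [Finset.univ_unique, PUnit.default_eq_unit, Finset.sum_singleton, Matrix.map_apply]
  ext1
  · change y i * ((1 / 2 : ℝ) • y j) - y' i * -((1 / 2 : ℝ) • y' j) = (1 / 2 : ℝ) • (y i * y j + y' i * y' j)
    rw [mul_neg, sub_neg_eq_add, mul_smul_comm, mul_smul_comm, smul_add]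
  · change y i * -((1 / 2 : ℝ) • y' j) + y' i * ((1 / 2 : ℝ) • y j) = (1 / 2 : ℝ) • (y' i * y j - y i * y' j)
    rw [mul_neg, mul_smul_comm, mul_smul_comm, smul_sub]
    abel

lemma RotF.ba : rowF y y' * colF y y' = 1 := by
  refine Matrix.ext fun i j => ?_
  rw [Matrix.mul_apply, Matrix.one_apply_eq]
  have h1 : ∀ l, rowF y y' i l * colF y y' l j =
      ⟨(1 / 2 : ℝ) • (y l * y l) + (1 / 2 : ℝ) • (y' l * y' l), 0⟩ := by
    intro l
    ext1
    · change ((1 / 2 : ℝ) • y l) * y l - -((1 / 2 : ℝ) • y' l) * y' l = _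
      rw [neg_mul, sub_neg_eq_add, smul_mul_assoc, smul_mul_assoc]
    · change ((1 / 2 : ℝ) • y l) * y' l + -((1 / 2 : ℝ) • y' l) * y l = 0
      rw [neg_mul, smul_mul_assoc, smul_mul_assoc, mul_comm (y' l), add_neg_cancel]
  rw [Finset.sum_congr rfl fun l _ => h1 l]
  have h2 : ∀ (s : Finset ι) (f : ι → SF X), (∑ l ∈ s, (⟨f l, 0⟩ : CB (SF X))) = ⟨∑ l ∈ s, f l, 0⟩ := by
    intro s f
    exact (map_sum (CB.ofR (B := SF X)) f s).symm
  rw [h2]
  ext1
  · change ∑ l, ((1 / 2 : ℝ) • (y l * y l) + (1 / 2 : ℝ) • (y' l * y' l)) = 1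
    rw [Finset.sum_add_distrib, ← Finset.smul_sum, ← Finset.smul_sum, h.n1, h.n2, ← add_smul]
    norm_num
  · rfl

lemma RotF.LL : h.L * h.L = h.L := by
  have h1 : (h.L * h.L).map (CB.alg (SB c).val) = h.L.map (CB.alg (SB c).val) := by
    rw [Matrix.map_mul, ← h.ab, Matrix.mul_assoc, ← Matrix.mul_assoc (rowF y y'), h.ba, Matrix.one_mul]
  refine Matrix.ext fun i j => ?_
  have h2 := congrFun (congrFun h1 i) j
  ext1
  · exact Subtype.ext (congrArg CB.re h2)
  · exact Subtype.ext (congrArg CB.im h2)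

/-- the idempotent of the line bundle -/
lemma RotF.idem : (GC (GB c)).Idem (h.L.map (FB c).C.f) := (FB c).C.idem h.LL

lemma RotF.up : (h.L.map (FB c).C.f).map (incB c).cx.f =
    (colF y y').map (FO X).C.f * (rowF y y').map (FO X).C.f := by
  rw [← (FO X).C.mul, h.ab]
  rfl

omit h in
lemma cx_inj {a b : CB (BasR c)} (e : (incB c).cx.f a = (incB c).cx.f b) : a = b := by
  ext1
  · exact Subtype.ext (congrArg CB.re e)
  · exact Subtype.ext (congrArg CB.im e)

lemma RotF.idem' : (GC (GO X)).Idem ((h.L.map (FB c).C.f).map (incB c).cx.f) := (incB c).cx.idem h.idem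

/-- upstairs, `L` is the column times the row -/
lemma RotF.split : (colF y y').map (FO X).C.f * (rowF y y').map (FO X).C.f =
    (h.L.map (FB c).C.f).map (incB c).cx.f ∧ (rowF y y').map (FO X).C.f * (colF y y').map (FO X).C.f = 1 :=
  ⟨h.up.symm, by rw [← (FO X).C.mul, h.ba, (FO X).C.one]⟩

/-- powers -/
lemma RotF.ps_pow (j : ℕ) : (GC (GB c)).ps (h.L.map (FB c).C.f) j = (GC (GB c)).ps (h.L.map (FB c).C.f) 1 ^ j := by
  refine cx_inj (c := c) ?_
  rw [map_pow, (incB c).cx.ps, (incB c).cx.ps]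
  exact h.idem'.ps_line ((FO X).C.Ev _) h.split.1 h.split.2 j

/-- the curvature of `L` -/
lemma RotF.ps_one : (incB c).cx.f ((GC (GB c)).ps (h.L.map (FB c).C.f) 1) =
    ⟨0, -((2 * Real.pi) • dO X (ηF y y'))⟩ := by
  rw [(incB c).cx.ps, line_ps h.idem' ((FO X).C.Ev _) ((FO X).C.Ev _) h.split.1 h.split.2]
  unfold trace
  simp only [Finset.univ_unique, PUnit.default_eq_unit, Finset.sum_singleton, Matrix.diag_apply, Matrix.mul_apply]
  have h1 : ∀ i, (GC (GO X)).D ((rowF y y').map (FO X).C.f) () i * (GC (GO X)).D ((colF y y').map (FO X).C.f) i () =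
      ⟨0, -(dO X (fn X (y' i)) * dO X (fn X (y i)))⟩ := by
    intro i
    obtain ⟨u, hu⟩ : ∃ u, u = dO X (fn X (y i)) := ⟨_, rfl⟩
    obtain ⟨v, hv⟩ : ∃ v, v = dO X (fn X (y' i)) := ⟨_, rfl⟩
    have su : (GO X).s u = -u := by rw [hu]; exact s_dfn _
    have sv : (GO X).s v = -v := by rw [hv]; exact s_dfn _
    have huv := (GO X).comm_odd u v su sv
    have e1 : (GC (GO X)).D ((rowF y y').map (FO X).C.f) () i = ⟨(1 / 2 : ℝ) • u, -((1 / 2 : ℝ) • v)⟩ := by
      ext1
      · change dO X (fn X ((1 / 2 : ℝ) • y i)) = _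
        rw [map_smul, map_smul, hu]
      · change dO X (fn X (-((1 / 2 : ℝ) • y' i))) = _
        rw [map_neg, map_neg, map_smul, map_smul, hv]
    have e2 : (GC (GO X)).D ((colF y y').map (FO X).C.f) i () = ⟨u, v⟩ := by
      ext1
      · exact hu.symm
      · exact hv.symm
    rw [e1, e2, ← hu, ← hv]
    ext1
    · change (1 / 2 : ℝ) • u * u - -((1 / 2 : ℝ) • v) * v = 0
      rw [smul_mul_assoc, neg_mul, smul_mul_assoc, od_sq su, od_sq sv, smul_zero, neg_zero, sub_zero]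
    · change (1 / 2 : ℝ) • u * v + -((1 / 2 : ℝ) • v) * u = -(v * u)
      rw [smul_mul_assoc, neg_mul, smul_mul_assoc, huv, smul_neg, ← neg_add, ← add_smul]
      norm_num
  rw [Finset.sum_congr rfl fun i _ => h1 i]
  have h2 : ∀ (s : Finset ι) (f : ι → Om X), (∑ l ∈ s, (⟨0, f l⟩ : CB (Om X))) = ⟨0, ∑ l ∈ s, f l⟩ := by
    intro s f
    ext1
    · change (∑ l ∈ s, (⟨0, f l⟩ : CB (Om X))).re = 0
      induction s using Finset.induction_on with
      | empty => rfl
      | insert a s ha ih => rw [Finset.sum_insert ha, CB.add_re, ih, add_zero]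
    · change (∑ l ∈ s, (⟨0, f l⟩ : CB (Om X))).im = ∑ l ∈ s, f l
      induction s using Finset.induction_on with
      | empty => rfl
      | insert a s ha ih => rw [Finset.sum_insert ha, Finset.sum_insert ha, CB.add_im, ih]
  rw [h2]
  congr 1
  rw [d_ηF, Finset.sum_neg_distrib, smul_smul]
  have := Real.pi_pos
  rw [mul_one_div, div_self (by positivity), one_smul]

/-- `dη` is basic -/
lemma RotF.bη : dO X (ηF y y') ∈ BasR c := by
  have h1 : (((GC (GB c)).ps (h.L.map (FB c).C.f) 1).im : Om X) = -((2 * Real.pi) • dO X (ηF y y')) :=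
    congrArg CB.im h.ps_one
  have h2 : dO X (ηF y y') = (-(1 / (2 * Real.pi))) • (((GC (GB c)).ps (h.L.map (FB c).C.f) 1).im : Om X) := by
    rw [h1, neg_smul, smul_neg, neg_neg, smul_smul]
    have := Real.pi_pos
    rw [one_div, inv_mul_cancel₀ (by positivity), one_smul]
  rw [h2]
  exact Subalgebra.smul_mem _ (Subtype.property _) _

lemma RotF.idη : iO c (dO X (ηF y y')) = 0 := Bas_i c ((bas_iff c _).2 h.bη)

/-- `dη` as a basic closed even form -/
def RotF.e : (GB c).Zc := ⟨⟨dO X (ηF y y'), h.bη⟩, Subtype.ext (by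
  change sO X (dO X (ηF y y')) = dO X (ηF y y')
  rw [s_d, s_ηF, map_neg, neg_neg]), Subtype.ext (d_d _)⟩

/-- `ps_j (L) = (- 2 π i dη)^j` -/
theorem RotF.hps (j : ℕ) : GDA.hps h.idem j = (-(tpi (GB c) * rc (GB c) (Ideal.Quotient.mk (GB c).Ex h.e))) ^ j := by
  have h1 : GDA.hps h.idem 1 = -(tpi (GB c) * rc (GB c) (Ideal.Quotient.mk (GB c).Ex h.e)) := by
    have h2 : rc (GB c) (Ideal.Quotient.mk (GB c).Ex h.e) = GDA.cl (G := GC (GB c)) (CB.ofR ((h.e : (GB c).Zc) : BasR c))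
      (CB.ext h.e.2.1 (map_zero _)) (CB.ext h.e.2.2 (map_zero _)) := rfl
    unfold tpi GDA.hI GDA.hps
    rw [h2, smul_mul_assoc, GDA.cl_mul, GDA.cl_smul, GDA.cl_neg]
    refine GDA.cl_congr ?_ _ _
    refine cx_inj (c := c) ?_
    rw [h.ps_one]
    ext1
    · change 0 = -((2 * Real.pi) • (0 * dO X (ηF y y') - 1 * 0))
      rw [zero_mul, mul_zero, sub_zero, smul_zero, neg_zero]
    · change -((2 * Real.pi) • dO X (ηF y y')) = -((2 * Real.pi) • (0 * 0 + 1 * dO X (ηF y y')))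
      rw [zero_mul, zero_add, one_mul]
  obtain ⟨h3, h4, h5⟩ := GDA.cl_pow (G := GC (GB c)) (h := h.idem.s_ps 1) (h' := h.idem.d_ps 1) j
  rw [← h1]
  unfold GDA.hps
  rw [h5]
  exact GDA.cl_congr (h.ps_pow j) _ _

end

end Pool.Agent.Lib.MP_ccbbf6_gt.L5
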