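import Pool.Agent.Lib.MP_ccbbf6_gt.L5.FRE
import Pool.Agent.Lib.MP_ccbbf6_gt.L5.RHO1
import Pool.Agent.Lib.MP_ccbbf6_gt.L5.RHO3
import Pool.Agent.Lib.MP_ccbbf6_gt.L5.TE5

/-!
# Level 5, RHI: the `ρ` side of a Blaschke manifold (helper67)

`rotF` : the rotating frame `y = i(γ'(0))`, `y' = i(γ'_1(0))` on `D = {(γ, γ_1)}`; `rhoD` : helper5's `RhoD`;
`rho_ne` : the integral of `l' x^m σ` does not vanish.
-/

set_option autoImplicit false
set_option maxSynthPendingDepth 3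
set_option linter.unusedSectionVars false

open Set Filter Topology Metric Real Module
open scoped ContDiff RealInnerProductSpace

noncomputable section

namespace Pool.Agent.Lib.MP_ccbbf6_gt.L5

open Geo L4 L4.FR L4.ORI

section frame

variable {n : ℕ} {M : Type} [MetricSpace M] [CompactSpace M] {𝒜 : SDist n M}

/-- first geodesic -/
def dp1 (𝒜 : SDist n M) : SMap (spD 𝒜) (spG 𝒜) := ⟨fun z => z.1.1, fun _ p => p.2.1⟩

/-- second geodesic -/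
def dp2 (𝒜 : SDist n M) : SMap (spD 𝒜) (spG 𝒜) := ⟨fun z => z.1.2, fun _ p => p.2.2⟩

variable (t : TEmb 𝒜)

/-- the first vector of the frame -/
def yV (hB : Bl M) (l : Fin t.D) : SF (spD 𝒜) := pf (dp1 𝒜) (TE.yK t hB l)

/-- the second vector of the frame -/
def yV' (hB : Bl M) (l : Fin t.D) : SF (spD 𝒜) := pf (dp2 𝒜) (TE.yK t hB l)

theorem yV_apply (hB : Bl M) (l : Fin t.D) (z : (spD 𝒜).pt) :
    (yV t hB l).1 z = t.i (z.1.1.1 0) (𝒜.vel z.1.1.1 0) l := rfl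

theorem yV'_apply (hB : Bl M) (l : Fin t.D) (z : (spD 𝒜).pt) :
    (yV' t hB l).1 z = t.i (z.1.1.1 0) (𝒜.vel z.1.2.1 0) l := by
  show t.i (z.1.2.1 0) (𝒜.vel z.1.2.1 0) l = _
  have h : z.1.2.1 0 = z.1.1.1 0 := z.2.1
  rw [h]

theorem sum_inner_eq {D : ℕ} (a b : EuclideanSpace ℝ (Fin D)) : ∑ l, a l * b l = ⟪a, b⟫ := by
  rw [PiLp.inner_apply]
  refine Finset.sum_congr rfl fun i _ => ?_
  rw [mul_comm]
  rfl

/-- **the rotating frame** -/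
theorem rotF (hB : Bl M) : RotF (circD hB) (yV t hB) (yV' t hB) where
  n1 := SF_ext fun z => by
    have h1 : (∑ i, yV t hB i * yV t hB i : SF (spD 𝒜)).1 z = ∑ i, (yV t hB i).1 z * (yV t hB i).1 z := by
      simp only [AddSubmonoidClass.coe_finsetSum, Finset.sum_apply]
      rfl
    refine h1.trans ?_
    simp only [yV_apply]
    rw [sum_inner_eq, real_inner_self_eq_norm_sq, TE.vel_nm, one_pow]
    rfl
  n2 := SF_ext fun z => by
    have h1 : (∑ i, yV' t hB i * yV' t hB i : SF (spD 𝒜)).1 z = ∑ i, (yV' t hB i).1 z * (yV' t hB i).1 z := by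
      simp only [AddSubmonoidClass.coe_finsetSum, Finset.sum_apply]
      rfl
    refine h1.trans ?_
    simp only [yV'_apply]
    rw [sum_inner_eq, real_inner_self_eq_norm_sq, (t.i _).norm_map, vel_norm, one_pow]
    rfl
  n3 := SF_ext fun z => by
    have h1 : (∑ i, yV t hB i * yV' t hB i : SF (spD 𝒜)).1 z = ∑ i, (yV t hB i).1 z * (yV' t hB i).1 z := by
      simp only [AddSubmonoidClass.coe_finsetSum, Finset.sum_apply]
      rfl
    refine h1.trans ?_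
    simp only [yV_apply, yV'_apply]
    rw [sum_inner_eq, (t.i _).inner_map_map, z.2.2.2]
    rfl
  r1 l z s := by
    have h1 : ((circD hB : Circ (spD 𝒜)).a.1 (z, s)).1.1 = L4.ORI.rr 𝒜 hB (2 * π * s) z.1.1 z.1.2 := rfl
    rw [yV_apply, yV_apply, yV'_apply, h1, rr_foot, rr_vel hB z.2]
    unfold wr
    rw [map_add, map_smul, map_smul]
    rfl
  r2 l z s := by
    have h1 : ((circD hB : Circ (spD 𝒜)).a.1 (z, s)).1.2 = L4.ORI.rr 𝒜 hB (2 * π * s + π / 2) z.1.1 z.1.2 := rfl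
    have h2 : ((circD hB : Circ (spD 𝒜)).a.1 (z, s)).1.1 = L4.ORI.rr 𝒜 hB (2 * π * s) z.1.1 z.1.2 := rfl
    rw [yV_apply, yV'_apply, yV'_apply, h1, h2, rr_foot, rr_vel hB z.2]
    unfold wr
    rw [map_add, map_smul, map_smul, Real.cos_add_pi_div_two, Real.sin_add_pi_div_two]
    rfl

/-- the feet are invariant -/
theorem imap_g (hB : Bl M) : IMap (circD hB) ((gF hB).comp (dp1 𝒜)) := fun z s => by
  refine Subtype.ext (Prod.ext ?_ ?_)
  · exact rr_foot hB _ _ _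
  · exact rr_top hB z.2 _

end frame

section rho

variable {N q m : ℕ} {M : Type} [MetricSpace M] [CompactSpace M] {𝒜 : SDist (N + 1) M} {hB : Bl M}

theorem s_of_odd {X : Space} {θ : Om X} {j t : ℕ} (h : Deg j θ) (ht : j = 2 * t + 1) : sO X θ = -θ := by
  subst ht
  exact Deg_odd h

theorem Deg_ηF {X : Space} {ι : Type*} [Fintype ι] (y y' : ι → SF X) : Deg 1 (ηF y y') := by
  unfold ηF
  refine Deg_smul _ ?_
  refine Deg_sum' _ fun i => ?_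
  have h1 : Deg (0 + (0 + 1)) (fn X (y' i) * dO X (fn X (y i))) :=
    Deg_mul (fun _ _ => Dg_fc _) (Deg_d (j := 0) fun _ _ => Dg_fc _)
  exact h1

variable (D : GeoD 𝒜 hB (q + 1) m) (hq : 1 ≤ q)

theorem B3_pi : (D.B3 hq).pi = dp1 𝒜 := rfl

theorem B3_x (θ : Om (spF 𝒜)) : (dp1 𝒜).pull (D.coh.g.pull θ) = ((gF hB).comp (dp1 𝒜)).pull θ := by
  rw [pull_comp]
  rfl

theorem Bas_g (θ : Om (spF 𝒜)) : Bas (circD hB) ((dp1 𝒜).pull (D.coh.g.pull θ)) := by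
  rw [B3_x]
  exact Bas_pull _ (imap_g hB) θ

/-- `u₁` -/
def rx1 : (GB (circD (𝒜 := 𝒜) hB)).Zc := ⟨toB _ (w := (dp1 𝒜).pull D.coh.x) (by
    rw [D.coh.x_def, ← D.coh.g_p1]
    exact Bas_g D _), Subtype.ext (by
    show sO _ ((dp1 𝒜).pull D.coh.x) = (dp1 𝒜).pull D.coh.x
    rw [pull_s, D.coh.sx]), Subtype.ext (by
    show dO _ ((dp1 𝒜).pull D.coh.x) = 0
    rw [pull_d, D.coh.dx, map_zero])⟩

/-- `u₂` -/
def rx2 : (GB (circD (𝒜 := 𝒜) hB)).Zc := ⟨toB _ (w := (dp1 𝒜).pull D.coh.y) (by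
    rw [D.coh.y_def, ← D.coh.g_p2]
    exact Bas_g D _), Subtype.ext (by
    show sO _ ((dp1 𝒜).pull D.coh.y) = (dp1 𝒜).pull D.coh.y
    rw [pull_s, D.coh.sy]), Subtype.ext (by
    show dO _ ((dp1 𝒜).pull D.coh.y) = 0
    rw [pull_d, D.coh.dy, map_zero])⟩

/-- the primitive of `h_m` on `F` -/
def rxi : Om (spF 𝒜) := D.coh.exists_xi.choose

theorem Deg_rxi : Deg N (rxi D) := D.coh.exists_xi.choose_spec.1

theorem d_rxi : dO _ (rxi D) = CohD.H m (D.coh.p1.pull D.coh.u) (D.coh.p2.pull D.coh.u) := D.coh.exists_xi.choose_spec.2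

variable [MeasurableSpace M] [BorelSpace M]

/-- **the data of the `ρ` side** -/
def rhoD (t : TEmb 𝒜) : RhoD (spD 𝒜) m where
  c := circD hB
  I := D.IX hq
  I_d := D.IX_d hq
  I_i _ h := D.IX_i hq (circD hB) (Deg_ηF _ _) (rotF t hB).iη h
  η := ηF (yV t hB) (yV' t hB)
  sη := s_ηF
  iη := (rotF t hB).iη
  idη := (rotF t hB).idη
  x1 := rx1 D
  x2 := rx2 D
  px := by
    refine Subtype.ext (Subtype.ext ?_)
    show (dp1 𝒜).pull D.coh.x ^ (m + 1) = 0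
    rw [← map_pow, D.coh.x_pow_zero (Nat.lt_succ_self m), map_zero]
  ψ := (dp1 𝒜).pull D.coh.psi
  sψ := by rw [pull_s, D.coh.s_psi, map_neg]
  dψ := by
    rw [pull_d, D.coh.d_psi, map_sub]
    rfl
  ξ := (dp1 𝒜).pull (D.coh.g.pull (rxi D))
  sξ := by
    obtain ⟨t', ht⟩ := D.coh.N_odd
    have h2 : sO _ (rxi D) = -rxi D := s_of_odd (Deg_rxi D) ht
    rw [pull_s, pull_s, h2, map_neg, map_neg]
  bξ := Bas_g D _
  dξ := by
    rw [pull_d, pull_d, d_rxi]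
    unfold CohD.H L4.hm
    rw [map_sum, map_sum]
    have h1 : ∀ (s : Finset ℕ) (f : ℕ → (GB (circD (𝒜 := 𝒜) hB)).Zc),
        (((∑ j ∈ s, f j : (GB (circD (𝒜 := 𝒜) hB)).Zc) : BasR (circD (𝒜 := 𝒜) hB)) : Om (spD 𝒜)) =
          ∑ j ∈ s, (((f j : (GB (circD (𝒜 := 𝒜) hB)).Zc) : BasR (circD (𝒜 := 𝒜) hB)) : Om (spD 𝒜)) :=
      fun s f => map_sum ((BasR (circD (𝒜 := 𝒜) hB)).val.comp (GB (circD (𝒜 := 𝒜) hB)).Zc.val) f s
    rw [h1]
    refine Finset.sum_congr rfl fun j _ => ?_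
    rw [map_mul, map_mul, map_pow, map_pow, map_pow, map_pow, D.coh.g_p1, D.coh.g_p2]
    rfl

theorem rhoD_I (t : TEmb 𝒜) (θ : Om (spD 𝒜)) : (rhoD D hq t).I θ = D.IX hq θ := rfl

theorem co_x1 (t : TEmb 𝒜) : (rhoD D hq t).co (rx1 D) = (dp1 𝒜).pull D.coh.x := rfl

/-- **the integral does not vanish** -/
theorem rho_ne (t : TEmb 𝒜) {p : M} {ψ : Om (spR (N + 1))} {Bf : Fm (N + 1)}
    (hcc : ConcD 𝒜 hB (q + 1) m p ψ Bf D.u) {l' : (GB (circD (𝒜 := 𝒜) hB)).Zc} {cK : ℝ}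
    (hK : (D.B3 hq).PI ((l' : BasR (circD (𝒜 := 𝒜) hB)) : Om (spD 𝒜)) = algebraMap ℝ _ cK) (h0 : cK ≠ 0) :
    ∃ σ : Om (spD 𝒜), dO _ σ = (rhoD D hq t).co ((rhoD D hq t).x1 ^ m) ∧
      (rhoD D hq t).I ((rhoD D hq t).co l' * ((rhoD D hq t).co ((rhoD D hq t).x1 ^ m) * σ)) ≠ 0 := by
  obtain ⟨σ, ξ, hσ, hξ, -, e1, dσ, Pσ⟩ := D.coh.exists_sig
  have hm : (0 : ℝ) < m + 1 := by positivity
  have e2 : (rhoD D hq t).co ((rhoD D hq t).x1 ^ m) = (dp1 𝒜).pull (D.coh.x ^ m) := by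
    rw [map_pow, map_pow]
    rfl
  refine ⟨(dp1 𝒜).pull σ, ?_, ?_⟩
  · rw [pull_d, dσ, e2]
  · rw [e2, ← map_mul]
    have h1 : (rhoD D hq t).I ((rhoD D hq t).co l' * (dp1 𝒜).pull (D.coh.x ^ m * σ)) = cK * TG hB (D.coh.x ^ m * σ) := by
      have h2 : D.IX hq (((l' : BasR (circD (𝒜 := 𝒜) hB)) : Om (spD 𝒜)) * (D.B3 hq).pi.pull (D.coh.x ^ m * σ)) =
          cK * TG hB (D.coh.x ^ m * σ) := by
        rw [GeoD.IX_apply, (D.B3 hq).PI_mulr, hK, ← Algebra.smul_def, map_smul, smul_eq_mul]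
      exact h2
    have h2 := D.hfub hcc hσ (a := D.coh.u ^ m) (by
      have h2 := Deg_pow D.coh.Du m
      rw [← D.coh.dim] at h2
      exact h2) (by rw [dσ, map_pow, ← D.coh.x_def]) Pσ
    have h3 : TG hB (D.coh.x ^ m * σ) ≠ 0 := by
      intro h4
      rw [h4, abs_zero] at h2
      have h5 : D.coh.eps ≠ 0 := D.coh.eps0
      have h6 : |D.coh.eps| * |(-(D.coh.eps / (m + 1)))| ≠ 0 :=
        mul_ne_zero (abs_ne_zero.2 h5) (abs_ne_zero.2 (neg_ne_zero.2 (div_ne_zero h5 hm.ne')))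
      exact h6 h2.symm
    rw [h1]
    exact mul_ne_zero h0 h3

end rho

end Pool.Agent.Lib.MP_ccbbf6_gt.L5
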