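import Pool.Agent.Lib.MP_ccbbf6_gt.L5.H5F
import Pool.Agent.Lib.MP_ccbbf6_gt.L5.RHI

/-!
# Level 5, PIK: the bundle `K` in `ℝ^D` and the fibre integral of the Euler form of its tautological complement (helper67)

`GeoD.bKE` : `K` in `ℝ^D`; `pm_KE`, `ot_KE` : its matrix and orientation tensor are those of the complement of `i(γ')` in `V`;
`GeoD.PI_lp` : `PI (eu2 (V - y - y')) = -2` for `κ = 3`.
-/

set_option autoImplicit false
set_option maxSynthPendingDepth 3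
set_option linter.unusedSectionVars false

open Set Filter Topology Real Module Matrix
open scoped ContDiff RealInnerProductSpace

noncomputable section

namespace Pool.Agent.Lib.MP_ccbbf6_gt.L5

open L4 L4.FR L4.ORI Geo

/-! ### the orientation tensor of the complement of a unit vector -/

section tensor

variable {r Dn : ℕ}

theorem tF_redo {y : EuclideanSpace ℝ (Fin Dn)} {a : Fin r → EuclideanSpace ℝ (Fin Dn)}
    (h : Orthonormal ℝ (Fin.cons y a : Fin (r + 1) → EuclideanSpace ℝ (Fin Dn))) (I : Fin r → Fin Dn) :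
    ∑ c, y c * OT.tF (Fin.cons y a : Fin (r + 1) → EuclideanSpace ℝ (Fin Dn)) (Fin.cons c I) = OT.tF a I := by
  obtain ⟨b, hb⟩ : ∃ b : Fin (r + 1) → EuclideanSpace ℝ (Fin Dn), b = Fin.cons y a := ⟨_, rfl⟩
  rw [← hb] at h ⊢
  have hb0 : b 0 = y := by rw [hb]; rfl
  have hbs : ∀ j : Fin r, b j.succ = a j := fun j => by rw [hb]; rfl
  have h1 : ∀ c, OT.tF b (Fin.cons c I : Fin (r + 1) → Fin Dn) =
      ∑ i : Fin (r + 1), (-1) ^ (i : ℕ) * b i c * (Matrix.of fun j k => b (i.succAbove j) (I k)).det := by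
    intro c
    unfold OT.tF
    rw [Matrix.det_succ_column_zero]
    rfl
  simp only [h1, Finset.mul_sum]
  rw [Finset.sum_comm]
  have h2 : ∀ i : Fin (r + 1), ∑ c, y c * ((-1) ^ (i : ℕ) * b i c * (Matrix.of fun j k => b (i.succAbove j) (I k)).det) =
      (-1) ^ (i : ℕ) * (if (0 : Fin (r + 1)) = i then 1 else 0) * (Matrix.of fun j k => b (i.succAbove j) (I k)).det := by
    intro i
    have h3 : ∑ c, y c * b i c = if (0 : Fin (r + 1)) = i then 1 else 0 := by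
      rw [← orthonormal_iff_ite.1 h 0 i, hb0, sum_inner_eq]
    rw [← h3, Finset.mul_sum, Finset.sum_mul]
    exact Finset.sum_congr rfl fun c _ => by ring
  simp only [h2]
  rw [Finset.sum_eq_single 0]
  · rw [if_pos rfl, Fin.val_zero, pow_zero, one_mul, one_mul]
    unfold OT.tF
    congr 1
    ext j k
    show b (Fin.succAbove 0 j) (I k) = a j (I k)
    rw [Fin.zero_succAbove, hbs]
  · intro i _ hi
    rw [if_neg (Ne.symm hi), mul_zero, zero_mul]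
  · intro h0
    exact absurd (Finset.mem_univ _) h0

end tensor

namespace GeoD

variable {N κ m : ℕ} {M : Type} [MetricSpace M] [CompactSpace M]
variable {𝒜 : SDist (N + 1) M} {hB : Bl M} (D : GeoD 𝒜 hB κ m) (t : TEmb 𝒜)

theorem isoK : IsoE (bKo hB D.hk D.hL D.Deg_b D.orV D.hκ).toVFld (fun c : Gs M => t.i (c.1 0)) :=
  ⟨fun p w z => (TE.isoG t hB).sm p w z⟩

/-- `K` in `ℝ^D` -/
def bKE : OBun κ (EuclideanSpace ℝ (Fin t.D)) (spG 𝒜) :=
  (bKo hB D.hk D.hL D.Deg_b D.orV D.hκ).emb (io := fun c : Gs M => t.i (c.1 0)) (D.isoK t)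

theorem cst_G (c : Gs M) : (fun _ : V 0 => c) ∈ (spG 𝒜).Pl 0 := ⟨sm_const _, sm_const _⟩

theorem tKE : TBun (D.bKE t) := TBun_emb _ _ fun c => cst_G c

theorem bKE_W (c : Gs M) : (D.bKE t).W c = TE.WK t c := by
  show ((bKo hB D.hk D.hL D.Deg_b D.orV D.hκ).W c).map (t.i (c.1 0)).toLinearMap = _
  rw [bKo_W]
  rfl

theorem bE_W (x : (spF 𝒜).pt) : (D.bE (TE.isoE t)).W x = TE.WV t x := rfl

/-- the matrix of `V` in `ℝ^D` -/
def pVE : Matrix (Fin t.D) (Fin t.D) (SF (spF 𝒜)) := OT.pm (D.bE (TE.isoE t)) (D.tE (TE.isoE t)) (Nat.succ_pos κ)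

/-- the orientation of `V` in `ℝ^D` -/
def oVE : (Fin (κ + 1) → Fin t.D) → SF (spF 𝒜) := OT.ot (D.bE (TE.isoE t)) (D.tE (TE.isoE t)) (Nat.succ_pos κ)

theorem orVE : Or (κ + 1) (D.pVE t) (D.oVE t) := OT.or_ot _ _ _

theorem pVE_eq : D.pVE t = TE.PV t hB D.hk D.hL := rfl

/-- the matrix of `K` is the matrix of the complement of `i(γ')` in `V` -/
theorem pm_KE : OT.pm (D.bKE t) (D.tKE t) D.hκ = redP ((D.pVE t).map (pf (gF hB))) (TE.yK t hB) := by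
  ext i j c
  show OT.pW ((D.bKE t).W c) i j = _
  rw [bKE_W]
  exact TE.pW_red (TE.vel_WV t hB c) (TE.vel_nm t c) (TE.mem_WK t hB c) i j

/-- the orientation of `K` is the orientation of the complement of `i(γ')` in `V` -/
theorem ot_KE (I : Fin κ → Fin t.D) : OT.ot (D.bKE t) (D.tKE t) D.hκ I =
    redo (fun J => pf (gF hB) (D.oVE t J)) (TE.yK t hB) I := SF_ext fun c => by
  obtain ⟨a, ha, hp⟩ := OT.exists_pos (D.bKE t) (D.tKE t) c
  have h1 : OT.oP (D.bKE t) c = OT.tF a := OT.oP_eq (D.bKE t) D.hκ ha hp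
  obtain ⟨a', ha', hp'⟩ := hp
  obtain ⟨b, hb⟩ : ∃ b : Fin (κ + 1) → EuclideanSpace ℝ (Fin t.D), b = Fin.cons (t.i (c.1 0) (𝒜.vel c.1 0)) a := ⟨_, rfl⟩
  have hK : ∀ w, w ∈ (D.bKE t).W c → w ∈ TE.WV t ((gF hB).1 c) ∧ ⟪t.i (c.1 0) (𝒜.vel c.1 0), w⟫ = 0 := fun w hw => by
    rw [bKE_W] at hw
    exact (TE.mem_WK t hB c w).1 hw
  have hO : OFr ((D.bE (TE.isoE t)).W ((gF hB).1 c)) b := by
    rw [hb, bE_W]
    refine (cons_OFr (TE.vel_WV t hB c) (TE.vel_nm t c) a).2 ⟨fun i => Submodule.mem_inf.2 ⟨(hK _ (ha.1 i)).1, ?_⟩, ha.2⟩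
    exact Submodule.mem_orthogonal_singleton_iff_inner_right.2 (hK _ (ha.1 i)).2
  have hP : (D.bE (TE.isoE t)).pos ((gF hB).1 c) b := by
    refine ⟨Fin.cons (𝒜.vel c.1 0) a', fun i => ?_, hp'⟩
    rw [hb]
    refine Fin.cases rfl (fun j => ?_) i
    exact ha' j
  have h2 : OT.oP (D.bE (TE.isoE t)) ((gF hB).1 c) = OT.tF b := OT.oP_eq (D.bE (TE.isoE t)) (Nat.succ_pos κ) hO hP
  have h3 : (redo (fun J => pf (gF hB) (D.oVE t J)) (TE.yK t hB) I).1 c =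
      ∑ l, t.i (c.1 0) (𝒜.vel c.1 0) l * OT.oP (D.bE (TE.isoE t)) ((gF hB).1 c) (Fin.cons l I) := by
    unfold redo
    simp only [AddSubmonoidClass.coe_finsetSum, Finset.sum_apply]
    rfl
  refine Eq.trans (b := OT.oP (D.bKE t) c I) rfl (Eq.trans ?_ h3.symm)
  rw [h1, h2, hb]
  refine (tF_redo ?_ I).symm
  rw [← hb]
  exact hO.2

/-- the isomorphism of `D` with the unit sphere bundle of `K` -/
def toKE : SMap (spD 𝒜) (D.bKE t).S :=
  ((bKo hB D.hk D.hL D.Deg_b D.orV D.hκ).embS (io := fun c : Gs M => t.i (c.1 0)) (D.isoK t)).comp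
    (toKD hB D.hk D.hL D.Deg_b D.orV D.hκ)

theorem pr_KE : (D.bKE t).pr.comp (D.toKE t) = dp1 𝒜 := rfl

/-- the matrix of `V` on `D` -/
def pVD : Matrix (Fin t.D) (Fin t.D) (SF (spD 𝒜)) := (D.pVE t).map (pf ((gF hB).comp (dp1 𝒜)))

/-- the orientation of `V` on `D` -/
def oVD (I : Fin (κ + 1) → Fin t.D) : SF (spD 𝒜) := pf ((gF hB).comp (dp1 𝒜)) (D.oVE t I)

theorem orVD : Or (κ + 1) (D.pVD t) (D.oVD t) := (D.orVE t).map' (pf ((gF hB).comp (dp1 𝒜)) : SF (spF 𝒜) →+* SF (spD 𝒜))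

theorem pS_KE : (OT.pS (D.bKE t) (D.tKE t) D.hκ).map (pf (D.toKE t)) = redP (D.pVD t) (yV t hB) := by
  have h1 : (OT.pS (D.bKE t) (D.tKE t) D.hκ).map (pf (D.toKE t)) =
      (OT.pm (D.bKE t) (D.tKE t) D.hκ).map (pf (dp1 𝒜)) := rfl
  rw [h1, pm_KE]
  ext i j c
  rfl

theorem oS_KE (I : Fin κ → Fin t.D) : pf (D.toKE t) (OT.oS (D.bKE t) (D.tKE t) D.hκ I) = redo (D.oVD t) (yV t hB) I := by
  have h1 : pf (D.toKE t) (OT.oS (D.bKE t) (D.tKE t) D.hκ I) = pf (dp1 𝒜) (OT.ot (D.bKE t) (D.tKE t) D.hκ I) := rfl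
  rw [h1, ot_KE]
  unfold redo
  rw [map_sum]
  exact Finset.sum_congr rfl fun l _ => map_mul _ _ _

theorem yS_KE (l : Fin t.D) : pf (D.toKE t) (OT.yS (D.bKE t) (D.tKE t) l) = yV' t hB l := SF_ext fun z =>
  Eq.trans (b := t.i (z.1.1.1 0) (𝒜.vel z.1.2.1 0) l) rfl (yV'_apply t hB l z).symm

end GeoD

namespace GeoD

variable {N q m : ℕ} {M : Type} [MetricSpace M] [CompactSpace M]
variable {𝒜 : SDist (N + 1) M} {hB : Bl M}

theorem PI_KE (D : GeoD 𝒜 hB (q + 1) m) (t : TEmb 𝒜) (hq : 1 ≤ q) (θ : Om (D.bKE t).S) :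
    (D.B3 hq).PI ((D.toKE t).pull θ) = ((D.bKE t).sb hq).PI θ := by
  have h1 := PI_emb (bKo hB D.hk D.hL D.Deg_b D.orV D.hκ) (io := fun c : Gs M => t.i (c.1 0)) (D.isoK t) hq θ
  refine Eq.trans ?_ h1
  show ((bKo hB D.hk D.hL D.Deg_b D.orV D.hκ).sb hq).PI
    ((ofKD hB D.hk D.hL D.Deg_b D.orV D.hκ).pull ((D.toKE t).pull θ)) = _
  have e : (D.toKE t).comp (ofKD hB D.hk D.hL D.Deg_b D.orV D.hκ) =
      (bKo hB D.hk D.hL D.Deg_b D.orV D.hκ).embS (io := fun c : Gs M => t.i (c.1 0)) (D.isoK t) := SMap_ext fun z => by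
    show ((bKo hB D.hk D.hL D.Deg_b D.orV D.hκ).embS (io := fun c : Gs M => t.i (c.1 0)) (D.isoK t)).1
      ((toKD hB D.hk D.hL D.Deg_b D.orV D.hκ).1 ((ofKD hB D.hk D.hL D.Deg_b D.orV D.hκ).1 z)) = _
    rw [toKD_ofKD]
  rw [← pull_comp, e]
  rfl

variable (D : GeoD 𝒜 hB 3 m) (t : TEmb 𝒜)

theorem pVE3 : D.pVE t = D.pV (TE.isoE t) := rfl

theorem oVE3 : D.oVE t = D.oV (TE.isoE t) := rfl

theorem f3_KE : (D.toKE t).pull (OT.f3S (D.bKE t) (D.tKE t)) =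
    f3 (FO (spD 𝒜)) (redP (D.pVD t) (yV t hB)) (redo (D.oVD t) (yV t hB)) (yV' t hB) := by
  have h1 : (D.toKE t).pull (OT.f3S (D.bKE t) (D.tKE t)) =
      f3 (FO (spD 𝒜)) ((OT.pS (D.bKE t) (D.tKE t) D.hκ).map (pf (D.toKE t)))
        (fun I => pf (D.toKE t) (OT.oS (D.bKE t) (D.tKE t) D.hκ I)) (fun l => pf (D.toKE t) (OT.yS (D.bKE t) (D.tKE t) l)) :=
    (FHom.pull (D.toKE t)).f3
  rw [h1, pS_KE]
  have h2 : (fun I => pf (D.toKE t) (OT.oS (D.bKE t) (D.tKE t) D.hκ I)) = redo (D.oVD t) (yV t hB) :=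
    funext fun I => D.oS_KE t I
  have h3 : (fun l => pf (D.toKE t) (OT.yS (D.bKE t) (D.tKE t) l)) = yV' t hB := funext fun l => D.yS_KE t l
  rw [h2, h3]

/-- **the fibre integral of the Euler form of the complement of the rotating plane in `V`** -/
theorem PI_lp : (D.B3 (q := 2) (by norm_num)).PI (eu2 (FO (spD 𝒜)) (redP (redP (D.pVD t) (yV t hB)) (yV' t hB))
    (redo (redo (D.oVD t) (yV t hB)) (yV' t hB))) = algebraMap ℝ (Om (spG 𝒜)) (-2) := by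
  have h1 := PI_KE (q := 2) D t (by norm_num) (OT.f3S (D.bKE t) (D.tKE t))
  rw [f3_KE] at h1
  exact h1.trans (OT.PI_f3S (D.bKE t) (D.tKE t) (by norm_num))

/-- **the hypothesis `hne` of `RhoD.main` and `RhoD.b_lt`, `κ = 3`** -/
theorem rho_ne3 [MeasurableSpace M] [BorelSpace M] {p : M} {ψ : Om (spR (N + 1))} {Bf : Fm (N + 1)}
    (hcc : ConcD 𝒜 hB 3 m p ψ Bf D.u) {l' : (GB (circD (𝒜 := 𝒜) hB)).Zc}
    (hl : ((l' : BasR (circD (𝒜 := 𝒜) hB)) : Om (spD 𝒜)) =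
      eu2 (FO (spD 𝒜)) (redP (redP (D.pVD t) (yV t hB)) (yV' t hB)) (redo (redo (D.oVD t) (yV t hB)) (yV' t hB))) :
    ∃ σ : Om (spD 𝒜), dO _ σ = (rhoD (q := 2) D (by norm_num) t).co ((rhoD (q := 2) D (by norm_num) t).x1 ^ m) ∧
      (rhoD (q := 2) D (by norm_num) t).I ((rhoD (q := 2) D (by norm_num) t).co l' *
        ((rhoD (q := 2) D (by norm_num) t).co ((rhoD (q := 2) D (by norm_num) t).x1 ^ m) * σ)) ≠ 0 :=
  rho_ne (q := 2) D (by norm_num) t hcc (cK := -2) (by rw [hl]; exact D.PI_lp t) (by norm_num)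

end GeoD

end Pool.Agent.Lib.MP_ccbbf6_gt.L5
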