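import Pool.Agent.Lib.MP_ccbbf6_gt.L5.PIG
import Pool.Agent.Lib.MP_ccbbf6_gt.L5.PIK

/-!
# Level 5, PIL: the fibre integral of the Euler form of `V - y - y'` on `D`, `κ = 2 n + 1` (helper67)
-/

set_option autoImplicit false
set_option maxSynthPendingDepth 3
set_option linter.unusedSectionVars false

open Set Filter Topology Real Module Matrix
open scoped ContDiff RealInnerProductSpace

noncomputable section

namespace Pool.Agent.Lib.MP_ccbbf6_gt.L5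

open L4 L4.FR L4.ORI Geo

namespace GeoD

variable {N n m : ℕ} {M : Type} [MetricSpace M] [CompactSpace M]
variable {𝒜 : SDist (N + 1) M} {hB : Bl M} (D : GeoD 𝒜 hB (2 * n + 1) m) (t : TEmb 𝒜) (hn : 1 ≤ 2 * n)

theorem fG_KE : (D.toKE t).pull (OT.fGS (D.bKE t) (D.tKE t)) =
    fG (FO (spD 𝒜)) (redP (D.pVD t) (yV t hB)) (redo (D.oVD t) (yV t hB)) (yV' t hB) := by
  have h1 : (D.toKE t).pull (OT.fGS (D.bKE t) (D.tKE t)) =
      fG (FO (spD 𝒜)) ((OT.pS (D.bKE t) (D.tKE t) D.hκ).map (pf (D.toKE t)))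
        (fun I => pf (D.toKE t) (OT.oS (D.bKE t) (D.tKE t) D.hκ I)) (fun l => pf (D.toKE t) (OT.yS (D.bKE t) (D.tKE t) l)) :=
    (FHom.pull (D.toKE t)).fG
  rw [h1, pS_KE]
  have h2 : (fun I => pf (D.toKE t) (OT.oS (D.bKE t) (D.tKE t) D.hκ I)) = redo (D.oVD t) (yV t hB) :=
    funext fun I => D.oS_KE t I
  have h3 : (fun l => pf (D.toKE t) (OT.yS (D.bKE t) (D.tKE t) l)) = yV' t hB := funext fun l => D.yS_KE t l
  rw [h2, h3]

/-- the Euler form of the complement of the rotating plane in `V` -/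
def elp : Om (spD 𝒜) := eulG (FO (spD 𝒜)) (redP (redP (D.pVD t) (yV t hB)) (yV' t hB))
  (redo (redo (D.oVD t) (yV t hB)) (yV' t hB))

theorem Deg_elp : Deg (2 * n) (D.elp t) := OT.DegE _ _

/-- **its fibre integral** -/
theorem PI_elp : (D.B3 hn).PI (D.elp t) = algebraMap ℝ (Om (spG 𝒜)) ((-1) ^ (n + 1) * 2) := by
  have h1 := D.PI_KE t hn (OT.fGS (D.bKE t) (D.tKE t))
  have h2 : (D.toKE t).pull (OT.fGS (D.bKE t) (D.tKE t)) = ((-1 : ℝ) ^ n) • D.elp t := D.fG_KE t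
  have h3 : (-1 : ℝ) ^ n * (-1) ^ n = 1 := by rw [← mul_pow]; norm_num
  have h4 : D.elp t = ((-1 : ℝ) ^ n) • ((-1 : ℝ) ^ n) • D.elp t := by rw [smul_smul, h3, one_smul]
  rw [h4, ← h2, SBun.PI_smul, h1, OT.PI_fGS (D.bKE t) (D.tKE t) hn, Algebra.smul_def, ← map_mul]
  congr 1
  rw [pow_succ]
  ring

/-- **the hypothesis `hne` of `RhoD.main`, `κ = 2 n + 1`** -/
theorem rho_neG [MeasurableSpace M] [BorelSpace M] {p : M} {ψ : Om (spR (N + 1))} {Bf : Fm (N + 1)}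
    (hcc : ConcD 𝒜 hB (2 * n + 1) m p ψ Bf D.u) {l' : (GB (circD (𝒜 := 𝒜) hB)).Zc}
    (hl : ((l' : BasR (circD (𝒜 := 𝒜) hB)) : Om (spD 𝒜)) = D.elp t) :
    ∃ σ : Om (spD 𝒜), dO _ σ = (rhoD D hn t).co ((rhoD D hn t).x1 ^ m) ∧
      (rhoD D hn t).I ((rhoD D hn t).co l' * ((rhoD D hn t).co ((rhoD D hn t).x1 ^ m) * σ)) ≠ 0 :=
  rho_ne D hn t hcc (cK := (-1) ^ (n + 1) * 2) (by rw [hl]; exact D.PI_elp t hn)
    (mul_ne_zero (pow_ne_zero _ (by norm_num)) two_ne_zero)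

end GeoD

end Pool.Agent.Lib.MP_ccbbf6_gt.L5
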