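import Pool.Agent.Lib.MP_ccbbf6_gt.L5.EGW1

/-!
# Level 5, EGW2: Whitney product formula for the Pfaffian functional (helper13)

`pfo_block` : `pfo o (diag (A, B)) = (m + l choose m) sgn3 pfo oP A pfo oQ B`.
-/

set_option autoImplicit false
set_option maxSynthPendingDepth 3
set_option linter.unusedSectionVars false

open Matrix Function

noncomputable section

namespace Pool.Agent.Lib.MP_ccbbf6_gt.L5

variable {ι κ : Type*} [Fintype ι] [DecidableEq ι] [Fintype κ] [DecidableEq κ] {m l n : ℕ}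

variable {E : Type*} [CommRing E]

/-- one block at each pair -/
def BLK (A : Matrix ι ι E) (B : Matrix κ κ E) (S : Finset (Fin n)) (a : Fin n) : Matrix (ι ⊕ κ) (ι ⊕ κ) E :=
  if a ∈ S then fromBlocks A 0 0 0 else fromBlocks 0 0 0 B

theorem pfo_BLK (A : Matrix ι ι E) (B : Matrix κ κ E) (o : (Fin (2 * n) → ι ⊕ κ) → E) :
    pfo o (fromBlocks A 0 0 B) = ∑ S : Finset (Fin n), pfs o (BLK A B S) := by
  unfold pfo pfs
  rw [Finset.sum_comm]
  refine Finset.sum_congr rfl fun K _ => ?_
  rw [← Finset.mul_sum]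
  congr 1
  have e1 : ∀ a : Fin n, fromBlocks A 0 0 B (K (s0 a)) (K (s1 a)) =
      fromBlocks A 0 0 (0 : Matrix κ κ E) (K (s0 a)) (K (s1 a)) +
        fromBlocks (0 : Matrix ι ι E) 0 0 B (K (s0 a)) (K (s1 a)) := by
    intro a
    rw [← Matrix.add_apply, fromBlocks_add]
    simp only [add_zero, zero_add]
  simp only [e1]
  rw [Finset.prod_add, Finset.powerset_univ]
  refine Finset.sum_congr rfl fun S _ => ?_
  have e2 : ∀ a, BLK A B S a (K (s0 a)) (K (s1 a)) = if a ∈ S then fromBlocks A 0 0 (0 : Matrix κ κ E) (K (s0 a)) (K (s1 a))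
      else fromBlocks (0 : Matrix ι ι E) 0 0 B (K (s0 a)) (K (s1 a)) := by
    intro a
    unfold BLK
    split_ifs <;> rfl
  simp only [e2]
  rw [Finset.prod_ite]
  congr 1
  · refine Finset.prod_congr ?_ fun _ _ => rfl
    ext a
    simp
  · refine Finset.prod_congr ?_ fun _ _ => rfl
    ext a
    simp

variable {P A : Matrix ι ι E} {Q B : Matrix κ κ E} {oP : (Fin (2 * m) → ι) → E} {oQ : (Fin (2 * l) → κ) → E}

/-- degree count -/
theorem BLK_deg {o : (Fin (2 * n) → ι ⊕ κ) → E} (h : Or (2 * n) (fromBlocks P 0 0 Q) o) (hs : Pᵀ = P)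
    (ht : trace P = ((2 * m : ℕ) : E)) (h1 : P * A = A) (h2 : A * P = A) (S : Finset (Fin n)) :
    ((2 * m : ℕ) : E) * pfs o (BLK A B S) = ((2 * S.card : ℕ) : E) * pfs o (BLK A B S) := by
  have h3 := inf_invs h (fromBlocks 1 0 0 0) (BLK A B S)
  have e1 : fromBlocks P 0 0 Q * fromBlocks 1 0 0 0 = fromBlocks P 0 0 (0 : Matrix κ κ E) := by
    rw [fromBlocks_multiply]
    simp
  rw [e1] at h3
  have e2 : trace (fromBlocks P 0 0 (0 : Matrix κ κ E)) = ((2 * m : ℕ) : E) := by
    rw [← ht]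
    unfold trace
    rw [Fintype.sum_sum_type]
    simp
  rw [e2] at h3
  rw [h3]
  have e3 : ∀ a, pfs o (update (BLK A B S) a ((fromBlocks P 0 0 (0 : Matrix κ κ E))ᵀ * BLK A B S a +
      BLK A B S a * fromBlocks P 0 0 (0 : Matrix κ κ E))) = if a ∈ S then 2 * pfs o (BLK A B S) else 0 := by
    intro a
    by_cases ha : a ∈ S
    · rw [if_pos ha]
      have f1 : BLK A B S a = fromBlocks A 0 0 0 := if_pos ha
      have f2 : (fromBlocks P 0 0 (0 : Matrix κ κ E))ᵀ * BLK A B S a + BLK A B S a * fromBlocks P 0 0 (0 : Matrix κ κ E) =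
          BLK A B S a + BLK A B S a := by
        rw [f1, fromBlocks_transpose, fromBlocks_multiply, fromBlocks_multiply, hs]
        simp [h1, h2]
      rw [f2, pfs_upd_add, update_eq_self, two_mul]
    · rw [if_neg ha]
      have f1 : BLK A B S a = fromBlocks 0 0 0 B := if_neg ha
      have f2 : (fromBlocks P 0 0 (0 : Matrix κ κ E))ᵀ * BLK A B S a + BLK A B S a * fromBlocks P 0 0 (0 : Matrix κ κ E) =
          0 := by
        rw [f1, fromBlocks_transpose, fromBlocks_multiply, fromBlocks_multiply]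
        simp
      rw [f2, pfs_upd_zero]
  simp only [e3]
  rw [Finset.sum_ite_mem, Finset.univ_inter, Finset.sum_const, nsmul_eq_mul]
  push_cast
  ring

/-- permuting the pairs -/
theorem BLK_card {o : (Fin (2 * n) → ι ⊕ κ) → E} (h : Or (2 * n) (fromBlocks P 0 0 Q) o) {S T : Finset (Fin n)}
    (hST : S.card = T.card) : pfs o (BLK A B S) = pfs o (BLK A B T) := by
  have e : {x // x ∈ S} ≃ {x // x ∈ T} := Fintype.equivOfCardEq (by
    rw [Fintype.card_coe, Fintype.card_coe, hST])
  obtain ⟨σ, hσ⟩ : ∃ σ : Equiv.Perm (Fin n), σ = e.extendSubtype := ⟨_, rfl⟩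
  rw [← pfs_perm h σ (BLK A B T)]
  congr 1
  funext a
  rw [Function.comp_apply]
  unfold BLK
  by_cases ha : a ∈ S
  · have h1 : σ a ∈ T := by
      rw [hσ]
      exact e.extendSubtype_mem a ha
    rw [if_pos ha, if_pos h1]
  · have h1 : σ a ∉ T := by
      rw [hσ]
      exact e.extendSubtype_not_mem a ha
    rw [if_neg ha, if_neg h1]

/-- the first pairs -/
def S00 (m l : ℕ) : Finset (Fin (m + l)) := Finset.univ.map (Fin.castAddEmb l)

theorem mem_S00 (a : Fin m) : Fin.castAdd l a ∈ S00 m l := Finset.mem_map.2 ⟨a, Finset.mem_univ a, rfl⟩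

theorem notMem_S00 (b : Fin l) : Fin.natAdd m b ∉ S00 m l := fun h => by
  obtain ⟨a, _, h1⟩ := Finset.mem_map.1 h
  have h2 : a.1 = m + b.1 := congrArg Fin.val h1
  have := a.2
  omega

theorem card_S00 : (S00 m l).card = m := by
  unfold S00
  rw [Finset.card_map, Finset.card_univ, Fintype.card_fin]

theorem pfs_S00 [Algebra ℝ E] {o : (Fin (2 * (m + l)) → ι ⊕ κ) → E} (hP : Or (2 * m) P oP) (hQ : Or (2 * l) Q oQ)
    (h : Or (2 * (m + l)) (fromBlocks P 0 0 Q) o) :
    pfs o (BLK A B (S00 m l)) = sgn3 oP oQ o * (pfo oP A * pfo oQ B) := by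
  obtain ⟨F, hF⟩ : ∃ F : (Fin (2 * (m + l)) → ι ⊕ κ) → E, F = fun K => o K *
      ((∏ a : Fin m, fromBlocks A 0 0 (0 : Matrix κ κ E) (K (sq m l (Sum.inl (s0 a)))) (K (sq m l (Sum.inl (s1 a))))) *
        ∏ b : Fin l, fromBlocks (0 : Matrix ι ι E) 0 0 B (K (sq m l (Sum.inr (s0 b)))) (K (sq m l (Sum.inr (s1 b))))) :=
    ⟨_, rfl⟩
  have e1 : pfs o (BLK A B (S00 m l)) = ∑ K, F K := by
    unfold pfs
    refine Finset.sum_congr rfl fun K _ => ?_
    rw [hF, Fin.prod_univ_add]
    simp only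
    congr 2
    · refine Finset.prod_congr rfl fun a _ => ?_
      rw [sq_s0, sq_s1]
      unfold BLK
      rw [if_pos (mem_S00 a)]
    · refine Finset.prod_congr rfl fun b _ => ?_
      rw [sq_r0, sq_r1]
      unfold BLK
      rw [if_neg (notMem_S00 b)]
  rw [e1, ← Fintype.sum_of_injective (fun z : (Fin (2 * m) → ι) × (Fin (2 * l) → κ) => ap z.1 z.2) ap_inj
    (fun z => sgn3 oP oQ o * (oP z.1 * (∏ a, A (z.1 (s0 a)) (z.1 (s1 a))) * (oQ z.2 * ∏ b, B (z.2 (s0 b)) (z.2 (s1 b)))))
    F]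
  · rw [Fintype.sum_prod_type]
    unfold pfo
    rw [Finset.sum_mul_sum, Finset.mul_sum]
    refine Finset.sum_congr rfl fun I _ => ?_
    rw [Finset.mul_sum]
  · intro K hK
    rw [hF]
    simp only
    by_cases h1 : ∀ k, ∃ i, K (sq m l (Sum.inl k)) = Sum.inl i
    · by_cases h2 : ∀ k, ∃ j, K (sq m l (Sum.inr k)) = Sum.inr j
      · exact absurd (ap_range h1 h2) hK
      · push Not at h2
        obtain ⟨k, hk⟩ := h2
        have hk' : ∃ i, K (sq m l (Sum.inr k)) = Sum.inl i := by
          rcases hx : K (sq m l (Sum.inr k)) with i | j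
          · exact ⟨i, rfl⟩
          · exact absurd hx (hk j)
        obtain ⟨i, hi⟩ := hk'
        have e2 : ∏ b : Fin l, fromBlocks (0 : Matrix ι ι E) 0 0 B (K (sq m l (Sum.inr (s0 b))))
            (K (sq m l (Sum.inr (s1 b)))) = 0 := by
          revert hi
          refine pairs_ind (Q := fun k => K (sq m l (Sum.inr k)) = Sum.inl i → _) (fun b => ?_) (fun b => ?_) k
          · intro hi
            refine Finset.prod_eq_zero (Finset.mem_univ b) ?_
            rw [hi]
            rcases K (sq m l (Sum.inr (s1 b))) with j | j <;> rfl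
          · intro hi
            refine Finset.prod_eq_zero (Finset.mem_univ b) ?_
            rw [hi]
            rcases K (sq m l (Sum.inr (s0 b))) with j | j <;> rfl
        rw [e2, mul_zero, mul_zero]
    · push Not at h1
      obtain ⟨k, hk⟩ := h1
      have hk' : ∃ j, K (sq m l (Sum.inl k)) = Sum.inr j := by
        rcases hx : K (sq m l (Sum.inl k)) with i | j
        · exact absurd hx (hk i)
        · exact ⟨j, rfl⟩
      obtain ⟨j, hj⟩ := hk'
      have e2 : ∏ a : Fin m, fromBlocks A 0 0 (0 : Matrix κ κ E) (K (sq m l (Sum.inl (s0 a))))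
          (K (sq m l (Sum.inl (s1 a)))) = 0 := by
        revert hj
        refine pairs_ind (Q := fun k => K (sq m l (Sum.inl k)) = Sum.inr j → _) (fun b => ?_) (fun b => ?_) k
        · intro hj
          refine Finset.prod_eq_zero (Finset.mem_univ b) ?_
          rw [hj]
          rcases K (sq m l (Sum.inl (s1 b))) with i | i <;> rfl
        · intro hj
          refine Finset.prod_eq_zero (Finset.mem_univ b) ?_
          rw [hj]
          rcases K (sq m l (Sum.inl (s0 b))) with i | i <;> rfl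
      rw [e2, zero_mul, mul_zero]
  · rintro ⟨I, J⟩
    rw [hF]
    simp only [ap_sq, Sum.map_inl, Sum.map_inr, fromBlocks_apply₁₁, fromBlocks_apply₂₂]
    rw [o_ap hP hQ h]
    ring

/-- **Whitney product formula for the Pfaffian functional** -/
theorem pfo_block [Algebra ℝ E] {o : (Fin (2 * (m + l)) → ι ⊕ κ) → E} (hP : Or (2 * m) P oP) (hQ : Or (2 * l) Q oQ)
    (h : Or (2 * (m + l)) (fromBlocks P 0 0 Q) o) (h1 : P * A = A) (h2 : A * P = A) :
    pfo o (fromBlocks A 0 0 B) = (((m + l).choose m : ℕ) : E) * (sgn3 oP oQ o * (pfo oP A * pfo oQ B)) := by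
  rw [pfo_BLK]
  have e1 : ∀ S : Finset (Fin (m + l)), pfs o (BLK A B S) =
      if S.card = m then sgn3 oP oQ o * (pfo oP A * pfo oQ B) else 0 := by
    intro S
    by_cases hS : S.card = m
    · rw [if_pos hS, ← pfs_S00 hP hQ h, BLK_card h (T := S00 m l) (by rw [hS, card_S00])]
    · rw [if_neg hS]
      have h3 := BLK_deg (B := B) h hP.sym hP.tr h1 h2 S
      have h4 : ((2 * (m : ℝ) - 2 * (S.card : ℝ))) • pfs o (BLK A B S) = 0 := by
        rw [Algebra.smul_def, map_sub, map_mul, map_mul, map_ofNat, map_natCast, map_natCast, sub_mul]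
        push_cast at h3
        rw [h3, sub_self]
      have h5 : (2 * (m : ℝ) - 2 * (S.card : ℝ)) ≠ 0 := by
        intro h6
        apply hS
        have h7 : (S.card : ℝ) = m := by linarith
        exact_mod_cast h7
      have h8 := congrArg (fun z => ((2 * (m : ℝ) - 2 * (S.card : ℝ))⁻¹) • z) h4
      simp only [smul_smul, smul_zero] at h8
      rwa [inv_mul_cancel₀ h5, one_smul] at h8
  simp only [e1]
  rw [Finset.sum_ite, Finset.sum_const_zero, add_zero, Finset.sum_const, nsmul_eq_mul]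
  congr 2
  have e2 : (Finset.univ.filter fun S : Finset (Fin (m + l)) => S.card = m) = Finset.powersetCard m Finset.univ := by
    ext S
    simp [Finset.mem_powersetCard]
  rw [e2, Finset.card_powersetCard, Finset.card_univ, Fintype.card_fin]

end Pool.Agent.Lib.MP_ccbbf6_gt.L5
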