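import Pool.Agent.Lib.MP_ccbbf6_gt.L5.EG3
import Pool.Agent.Lib.MP_ccbbf6_gt.L5.EGW2

/-!
# Level 5, EGW3: Whitney product formula for Euler forms and Euler classes, all even ranks (helper13)

* `eulG_block` : `e (P ⊕ Q) = - s e(P) e(Q)` as forms, `s^2 = 1` the relative sign;
* `eulG_add` : orthogonal projections `P Q = 0`: `e (P + Q) = - s e(P) e(Q)` up to an exact form;
* `hEG_add` : classes.
-/

set_option autoImplicit false
set_option maxSynthPendingDepth 3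
set_option linter.unusedSectionVars false

open Matrix Function

noncomputable section

namespace Pool.Agent.Lib.MP_ccbbf6_gt.L5

variable {ι κ : Type*} [Fintype ι] [DecidableEq ι] [Fintype κ] [DecidableEq κ] {m l : ℕ} {A A' : Type*} [CommRing A]
  [Algebra ℝ A] [CommRing A'] [Algebra ℝ A'] {B B' : Type*} [Ring B] [Algebra ℝ B] [Ring B'] [Algebra ℝ B'] {G : GDA B}
  {G' : GDA B'} {φ : Fun0 A G} {φ' : Fun0 A' G'}

variable {P : Matrix ι ι A} {Q : Matrix κ κ A} {oP : (Fin (2 * m) → ι) → A} {oQ : (Fin (2 * l) → κ) → A}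
  {o : (Fin (2 * (m + l)) → ι ⊕ κ) → A}

theorem sgn3_map (f : A →ₐ[ℝ] A') (oP : (Fin (2 * m) → ι) → A) (oQ : (Fin (2 * l) → κ) → A)
    (o : (Fin (2 * (m + l)) → ι ⊕ κ) → A) :
    f (sgn3 oP oQ o) = sgn3 (fun I => f (oP I)) (fun J => f (oQ J)) (fun K => f (o K)) := by
  unfold sgn3 sgU
  rw [map_smul, map_sum]
  congr 1
  refine Finset.sum_congr rfl fun J _ => ?_
  rw [map_mul, map_sum]
  congr 1
  exact Finset.sum_congr rfl fun I _ => map_mul _ _ _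

/-- the curvature of a direct sum -/
theorem Re_block (P : Matrix ι ι A) (Q : Matrix κ κ A) :
    Re φ (fromBlocks P 0 0 Q) = fromBlocks (Re φ P) 0 0 (Re φ Q) := by
  refine GDA.val_inj ?_
  change Rv φ (fromBlocks P 0 0 Q) = (fromBlocks (Re φ P) 0 0 (Re φ Q)).map G.Ee.val
  have e1 : (fromBlocks P 0 0 Q).map φ.f = fromBlocks (P.map φ.f) 0 0 (Q.map φ.f) := by
    rw [fromBlocks_map]
    congr 1 <;> exact Matrix.map_zero _ (map_zero _)
  have e2 : G.D (fromBlocks (P.map φ.f) 0 0 (Q.map φ.f)) = fromBlocks (G.D (P.map φ.f)) 0 0 (G.D (Q.map φ.f)) := by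
    ext i j
    rcases i with i | i <;> rcases j with j | j
    · rfl
    · exact map_zero G.d
    · exact map_zero G.d
    · rfl
  have e3 : (fromBlocks (Re φ P) 0 0 (Re φ Q)).map G.Ee.val = fromBlocks (Rv φ P) 0 0 (Rv φ Q) := by
    rw [fromBlocks_map]
    congr 1
  unfold Rv GDA.R at e3 ⊢
  rw [e3, e1, e2, fromBlocks_multiply, fromBlocks_multiply]
  simp

theorem RR_e (hP : P * P = P) : P.map φ.e * Re φ P = Re φ P ∧ (Pᵀ = P → Re φ P * P.map φ.e = Re φ P) := by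
  constructor
  · refine GDA.val_inj ?_
    rw [GDA.val_mul]
    change P.map φ.f * Rv φ P = Rv φ P
    unfold Rv
    rw [← Matrix.mul_assoc, ← Matrix.map_mul, hP]
  · intro hs
    refine Matrix.ext fun i j => Subtype.ext ?_
    rw [Matrix.mul_apply, val_sum]
    have h1 := (EInv_Re (φ := φ) hP hs).r i j
    rw [← h1]
    refine Finset.sum_congr rfl fun m _ => ?_
    change Rv φ P i m * φ.f (P m j) = φ.f (P j m) * Rv φ P i m
    have h2 : P m j = P j m := congrFun (congrFun hs j) m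
    rw [h2]
    exact (G.comm_even _ _ (φ.ev _)).symm

theorem ZG_block (hP : Or (2 * m) P oP) (hQ : Or (2 * l) Q oQ) (h : Or (2 * (m + l)) (fromBlocks P 0 0 Q) o) :
    ZG φ (fromBlocks P 0 0 Q) o = (((m + l).choose m : ℕ) : G.Ee) * (φ.e (sgn3 oP oQ o) * (ZG φ P oP * ZG φ Q oQ)) := by
  have hP' : Or (2 * m) (P.map φ.e) (fun I => φ.e (oP I)) := hP.map' (φ.e : A →+* G.Ee)
  have hQ' : Or (2 * l) (Q.map φ.e) (fun I => φ.e (oQ I)) := hQ.map' (φ.e : A →+* G.Ee)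
  have h' : Or (2 * (m + l)) (fromBlocks (P.map φ.e) 0 0 (Q.map φ.e)) (fun I => φ.e (o I)) := by
    have h1 := h.map' (φ.e : A →+* G.Ee)
    have e1 : (fromBlocks P 0 0 Q).map (φ.e : A →+* G.Ee) = fromBlocks (P.map φ.e) 0 0 (Q.map φ.e) := by
      rw [fromBlocks_map]
      congr 1 <;> exact Matrix.map_zero _ (map_zero _)
    rw [e1] at h1
    exact h1
  unfold ZG
  rw [Re_block, pfo_block hP' hQ' h' (RR_e hP.idem).1 ((RR_e hP.idem).2 hP.sym), sgn3_map]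

/-- **direct sums** -/
theorem eulG_block (hP : Or (2 * m) P oP) (hQ : Or (2 * l) Q oQ) (h : Or (2 * (m + l)) (fromBlocks P 0 0 Q) o) :
    eulG φ (fromBlocks P 0 0 Q) o = -(φ.f (sgn3 oP oQ o) * (eulG φ P oP * eulG φ Q oQ)) := by
  unfold eulG
  rw [ZG_block hP hQ h]
  have e1 : ((((((m + l).choose m : ℕ) : G.Ee) * (φ.e (sgn3 oP oQ o) * (ZG φ P oP * ZG φ Q oQ)) : G.Ee)) : B) =
      (((m + l).choose m : ℕ) : ℝ) • (φ.f (sgn3 oP oQ o) * (((ZG φ P oP : G.Ee) : B) * ((ZG φ Q oQ : G.Ee) : B))) := by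
    have e2 : (((m + l).choose m : ℕ) : G.Ee) * (φ.e (sgn3 oP oQ o) * (ZG φ P oP * ZG φ Q oQ)) =
        (((m + l).choose m : ℕ) : ℝ) • (φ.e (sgn3 oP oQ o) * (ZG φ P oP * ZG φ Q oQ)) := by
      rw [Algebra.smul_def, map_natCast]
    rw [e2]
    rfl
  rw [e1, smul_smul, smul_mul_smul_comm, mul_smul_comm, ← neg_smul]
  congr 1
  have hp := Real.pi_ne_zero
  have f1 : (m.factorial : ℝ) ≠ 0 := Nat.cast_ne_zero.2 (Nat.factorial_ne_zero _)
  have f2 : (l.factorial : ℝ) ≠ 0 := Nat.cast_ne_zero.2 (Nat.factorial_ne_zero _)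
  have f3 : ((m + l).factorial : ℝ) ≠ 0 := Nat.cast_ne_zero.2 (Nat.factorial_ne_zero _)
  have f4 : (((m + l).choose m : ℕ) : ℝ) * (m.factorial : ℝ) * (l.factorial : ℝ) = ((m + l).factorial : ℝ) := by
    have := Nat.add_choose_mul_factorial_mul_factorial m l
    rw [← Nat.choose_symm_add] at this
    exact_mod_cast this
  rw [pow_add, ← f4]
  have f5 : (((m + l).choose m : ℕ) : ℝ) ≠ 0 := Nat.cast_ne_zero.2 (Nat.choose_pos (Nat.le_add_right m l)).ne'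
  field_simp

/-! ### orthogonal projections -/

section orth

variable {Q : Matrix ι ι A} {oQ : (Fin (2 * l) → ι) → A} {oT : (Fin (2 * (m + l)) → ι) → A}

/-- the isometry onto the direct sum -/
def uPQ (P Q : Matrix ι ι A) : Matrix (ι ⊕ ι) ι A := fromRows P Q

theorem uPQ_1 (hP : P * P = P) (hQ : Q * Q = Q) (sP : Pᵀ = P) (sQ : Qᵀ = Q) : (uPQ P Q)ᵀ * uPQ P Q = P + Q := by
  unfold uPQ
  rw [transpose_fromRows, fromCols_mul_fromRows, sP, sQ, hP, hQ]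

theorem uPQ_2 (hP : P * P = P) (hQ : Q * Q = Q) (h1 : P * Q = 0) (h2 : Q * P = 0) :
    uPQ P Q * (P + Q) = uPQ P Q := by
  unfold uPQ
  rw [fromRows_mul, Matrix.mul_add, Matrix.mul_add, hP, hQ, h1, h2, add_zero, zero_add]

theorem uPQ_3 (hP : P * P = P) (hQ : Q * Q = Q) (sP : Pᵀ = P) (sQ : Qᵀ = Q) (h1 : P * Q = 0) (h2 : Q * P = 0) :
    uPQ P Q * (uPQ P Q)ᵀ = fromBlocks P 0 0 Q := by
  unfold uPQ
  rw [transpose_fromRows, fromRows_mul_fromCols, sP, sQ, hP, hQ, h1, h2]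

theorem orth_symm (sP : Pᵀ = P) (sQ : Qᵀ = Q) (h1 : P * Q = 0) : Q * P = 0 := by
  have h2 := congrArg Matrix.transpose h1
  rw [Matrix.transpose_mul, sP, sQ, Matrix.transpose_zero] at h2
  exact h2

/-- the relative sign of the orientations of `P`, `Q`, `P + Q` -/
def sgT (P Q : Matrix ι ι A) (oP : (Fin (2 * m) → ι) → A) (oQ : (Fin (2 * l) → ι) → A)
    (oT : (Fin (2 * (m + l)) → ι) → A) : A := sgn3 oP oQ (push (uPQ P Q) oT)

theorem Or_uPQ (hP : Or (2 * m) P oP) (hQ : Or (2 * l) Q oQ) (hT : Or (2 * (m + l)) (P + Q) oT) (h1 : P * Q = 0) :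
    Or (2 * (m + l)) (fromBlocks P 0 0 Q) (push (uPQ P Q) oT) := by
  have h2 := orth_symm hP.sym hQ.sym h1
  have h3 := hT.push (uPQ_1 hP.idem hQ.idem hP.sym hQ.sym) (uPQ_2 hP.idem hQ.idem h1 h2)
  rw [uPQ_3 hP.idem hQ.idem hP.sym hQ.sym h1 h2] at h3
  exact h3

theorem sgT_sq (hP : Or (2 * m) P oP) (hQ : Or (2 * l) Q oQ) (hT : Or (2 * (m + l)) (P + Q) oT) (h1 : P * Q = 0) :
    sgT P Q oP oQ oT * sgT P Q oP oQ oT = 1 := sgn3_sq hP hQ (Or_uPQ hP hQ hT h1)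

/-- **Whitney product formula**, forms -/
theorem eulG_add (C : FCyl φ φ') (hP : Or (2 * m) P oP) (hQ : Or (2 * l) Q oQ) (hT : Or (2 * (m + l)) (P + Q) oT)
    (h1 : P * Q = 0) :
    ∃ ξ, -(φ.f (sgT P Q oP oQ oT) * (eulG φ P oP * eulG φ Q oQ)) = eulG φ (P + Q) oT + G.d ξ := by
  have h2 := orth_symm hP.sym hQ.sym h1
  obtain ⟨ξ, hξ⟩ := C.eulG_iso hT (uPQ_1 hP.idem hQ.idem hP.sym hQ.sym) (uPQ_2 hP.idem hQ.idem h1 h2)
  refine ⟨ξ, ?_⟩
  rw [← hξ, uPQ_3 hP.idem hQ.idem hP.sym hQ.sym h1 h2]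
  exact (eulG_block hP hQ (Or_uPQ hP hQ hT h1)).symm

/-- a function of square one is closed -/
theorem d_sq_one {s : A} (h : s * s = 1) : G.d (φ.f s) = 0 := by
  have h1 : G.d (φ.f s * φ.f s) = 0 := by
    rw [← map_mul, h, map_one]
    exact GDA.d_one
  rw [G.d_mul, φ.ev, G.comm_even (φ.f s) (G.d (φ.f s)) (φ.ev s)] at h1
  have h2 : G.d (φ.f s) * φ.f s = 0 := by
    have h3 : (2 : ℝ) • (G.d (φ.f s) * φ.f s) = 0 := by
      rw [two_smul]
      exact h1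
    have h4 := congrArg (fun z => ((2 : ℝ)⁻¹) • z) h3
    simp only [smul_smul, smul_zero] at h4
    rwa [inv_mul_cancel₀ (two_ne_zero : (2 : ℝ) ≠ 0), one_smul] at h4
  calc G.d (φ.f s) = G.d (φ.f s) * φ.f s * φ.f s := by
        rw [mul_assoc, ← map_mul, h, map_one, mul_one]
    _ = 0 := by rw [h2, zero_mul]

/-- the class of the relative sign -/
def hsg (φ : Fun0 A G) {s : A} (h : s * s = 1) : G.HE := GDA.cl (φ.f s) (φ.ev s) (d_sq_one h)

/-- **Whitney product formula**, classes -/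
theorem hEG_add (C : FCyl φ φ') (hP : Or (2 * m) P oP) (hQ : Or (2 * l) Q oQ) (hT : Or (2 * (m + l)) (P + Q) oT)
    (h1 : P * Q = 0) : hEG φ hT = -(hsg φ (sgT_sq hP hQ hT h1) * (hEG φ hP * hEG φ hQ)) := by
  obtain ⟨ξ, hξ⟩ := eulG_add C hP hQ hT h1
  unfold hEG hsg
  rw [GDA.cl_mul, GDA.cl_mul, GDA.cl_neg]
  exact (GDA.cl_eq.2 ⟨ξ, hξ⟩).symm

end orth

end Pool.Agent.Lib.MP_ccbbf6_gt.L5
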