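import Pool.Agent.Lib.MP_ccbbf6_gt.L5.EL3

/-!
# Level 5, EL4: a frame of a plane in an oriented bundle of rank four (helper13)

`y, y'` orthonormal sections of `PV`:  `P = y y^T + y' y'^T`, `o = y ∧ y'`, `Q = redP (redP PV y) y' = PV - P`,
`o' = redo (redo oV y) y'`; then the wedge condition of `hE_split` holds.
-/

set_option autoImplicit false
set_option maxSynthPendingDepth 3
set_option linter.unusedSectionVars false

open Matrix Function

noncomputable section

namespace Pool.Agent.Lib.MP_ccbbf6_gt.L5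

variable {ι : Type*} [Fintype ι] [DecidableEq ι]

variable {A A' : Type*} [CommRing A] [Algebra ℝ A] [CommRing A'] [Algebra ℝ A']

/-- the projection on a plane with a frame -/
def fP (y y' : ι → A) : Matrix ι ι A := fun i j => y i * y j + y' i * y' j

/-- the orientation of a frame -/
def fo (y y' : ι → A) (I : Fin 2 → ι) : A := y (I 0) * y' (I 1) - y' (I 0) * y (I 1)

theorem Or.frame2 {y y' : ι → A} (h1 : ∑ l, y l * y l = 1) (h2 : ∑ l, y' l * y' l = 1) (h3 : ∑ l, y l * y' l = 0) :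
    Or 2 (fP y y') (fo y y') := by
  refine Or.of_frame (a := ![y, y']) ?_ ?_ ?_
  · intro i j
    revert i j
    refine fin2 (fin2 ?_ ?_) (fin2 ?_ ?_)
    · simpa using h1
    · simpa using h3
    · simp only [Matrix.cons_val_one, Matrix.cons_val_zero, Matrix.cons_val_fin_one]
      rw [if_neg (by decide), ← h3]
      exact Finset.sum_congr rfl fun l _ => mul_comm _ _
    · simpa using h2
  · intro l m
    rw [Fin.sum_univ_two]
    rfl
  · intro I
    rw [Matrix.det_fin_two]
    change y (I 0) * y' (I 1) - y' (I 0) * y (I 1) = y (I 0) * y' (I 1) - y (I 1) * y' (I 0)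
    rw [mul_comm (y' (I 0))]

variable {PV : Matrix ι ι A} {y y' : ι → A} {oV : (Fin 4 → ι) → A}

theorem Sec.red (hy' : Sec PV y') (h0 : ∑ l, y l * y' l = 0) : Sec (redP PV y) y' := by
  refine ⟨?_, hy'.un⟩
  funext l
  rw [Matrix.mulVec, dotProduct]
  have e1 : ∀ m, redP PV y l m * y' m = PV l m * y' m - y l * (y m * y' m) := fun m => by
    unfold redP
    ring
  simp only [e1]
  rw [Finset.sum_sub_distrib, ← Finset.mul_sum, h0, mul_zero, sub_zero]
  exact congrFun hy'.pr l

theorem redP_redP : redP (redP PV y) y' = PV - fP y y' := by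
  ext i j
  rw [Matrix.sub_apply]
  unfold redP fP
  ring

theorem fP_add_red : fP y y' + redP (redP PV y) y' = PV := by
  rw [redP_redP, add_sub_cancel]

theorem fP_mul (hs : PVᵀ = PV) (hy : Sec PV y) (hy' : Sec PV y') : fP y y' * PV = fP y y' := by
  ext i j
  rw [Matrix.mul_apply]
  have e1 : ∀ m, fP y y' i m * PV m j = y i * (y m * PV m j) + y' i * (y' m * PV m j) := fun m => by
    unfold fP
    ring
  simp only [e1]
  rw [Finset.sum_add_distrib, ← Finset.mul_sum, ← Finset.mul_sum, hy.row hs, hy'.row hs]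
  rfl

theorem mul_fP (hy : Sec PV y) (hy' : Sec PV y') : PV * fP y y' = fP y y' := by
  ext i j
  rw [Matrix.mul_apply]
  have e1 : ∀ m, PV i m * fP y y' m j = PV i m * y m * y j + PV i m * y' m * y' j := fun m => by
    unfold fP
    ring
  simp only [e1]
  rw [Finset.sum_add_distrib, ← Finset.sum_mul, ← Finset.sum_mul, hy.col, hy'.col]
  rfl

theorem fP_red (hs : PVᵀ = PV) (hy : Sec PV y) (hy' : Sec PV y') (h0 : ∑ l, y l * y' l = 0) :
    fP y y' * redP (redP PV y) y' = 0 := by
  have h := Or.frame2 hy.un hy'.un h0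
  rw [redP_redP, Matrix.mul_sub, fP_mul hs hy hy', h.idem, sub_self]

theorem red_fP (hy : Sec PV y) (hy' : Sec PV y') (h0 : ∑ l, y l * y' l = 0) :
    redP (redP PV y) y' * fP y y' = 0 := by
  have h := Or.frame2 hy.un hy'.un h0
  rw [redP_redP, Matrix.sub_mul, mul_fP hy hy', h.idem, sub_self]

/-- the orientation of the complementary plane -/
theorem Or.red2 (hV : Or 4 PV oV) (hy : Sec PV y) (hy' : Sec PV y') (h0 : ∑ l, y l * y' l = 0) :
    Or 2 (redP (redP PV y) y') (redo (redo oV y) y') := (hV.red hy).red (hy'.red h0)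

theorem redo2 (I : Fin 2 → ι) :
    redo (redo oV y) y' I = ∑ c, ∑ e, y c * (y' e * oV ![c, e, I 0, I 1]) := by
  unfold redo
  simp only [Finset.mul_sum]
  rw [Finset.sum_comm]
  refine Finset.sum_congr rfl fun c _ => Finset.sum_congr rfl fun e _ => ?_
  have e1 : (Fin.cons c (Fin.cons e I : Fin 3 → ι) : Fin 4 → ι) = ![c, e, I 0, I 1] := by
    funext k
    revert k
    exact fin4 rfl rfl rfl rfl
  rw [e1]
  ring

/-- the wedge condition -/
theorem hw_frame (hV : Or 4 PV oV) (hy : Sec PV y) (hy' : Sec PV y') (h0 : ∑ l, y l * y' l = 0) :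
    ∑ I, oV I * (fo y y' ![I 0, I 1] * redo (redo oV y) y' ![I 2, I 3]) = 4 := by
  have h' := hV.red2 hy hy' h0
  obtain ⟨q, hq⟩ : ∃ q, q = redo (redo oV y) y' := ⟨_, rfl⟩
  rw [← hq] at h' ⊢
  obtain ⟨S, hS⟩ : ∃ S, S = ∑ I : Fin 4 → ι, oV I * (y (I 0) * y' (I 1) * q ![I 2, I 3]) := ⟨_, rfl⟩
  have e1 : S = 2 := by
    have e2 : S = ∑ a, ∑ b, ∑ c, ∑ e, oV ![a, b, c, e] * (y a * y' b * q ![c, e]) := by
      rw [hS, ← sum4 fun a b c e => oV ![a, b, c, e] * (y a * y' b * q ![c, e])]
      refine Finset.sum_congr rfl fun I _ => ?_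
      have e3 : (![I 0, I 1, I 2, I 3] : Fin 4 → ι) = I := (e4 ι).left_inv I
      rw [e3]
    have e3 : ∑ I : Fin 2 → ι, q I * q I = 2 := by
      have := h'.nrm
      rw [this]
      norm_num [Nat.factorial]
    rw [← e3, e2]
    have e4 : ∀ I : Fin 2 → ι, q I * q I = (fun c e => (∑ a, ∑ b, y a * (y' b * oV ![a, b, c, e])) * q ![c, e]) (I 0) (I 1) := by
      intro I
      have e5 : q I = ∑ a, ∑ b, y a * (y' b * oV ![a, b, I 0, I 1]) := by
        rw [hq]
        exact redo2 I
      have e6 : q ![I 0, I 1] = q I := by rw [v2]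
      change q I * q I = (∑ a, ∑ b, y a * (y' b * oV ![a, b, I 0, I 1])) * q ![I 0, I 1]
      rw [e6, ← e5]
    simp only [e4]
    rw [sum2 fun c e => (∑ a, ∑ b, y a * (y' b * oV ![a, b, c, e])) * q ![c, e]]
    have e7 : ∀ a, ∑ b, ∑ c, ∑ e, oV ![a, b, c, e] * (y a * y' b * q ![c, e]) =
        ∑ c, ∑ e, ∑ b, y a * (y' b * oV ![a, b, c, e]) * q ![c, e] := by
      intro a
      rw [Finset.sum_comm]
      refine Finset.sum_congr rfl fun c _ => ?_
      rw [Finset.sum_comm]
      exact Finset.sum_congr rfl fun e _ => Finset.sum_congr rfl fun b _ => by ring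
    simp only [e7]
    rw [Finset.sum_comm]
    refine Finset.sum_congr rfl fun c _ => ?_
    rw [Finset.sum_comm]
    refine Finset.sum_congr rfl fun e _ => ?_
    rw [Finset.sum_mul]
    refine Finset.sum_congr rfl fun a _ => ?_
    rw [Finset.sum_mul]
  have e2 : ∑ I : Fin 4 → ι, oV I * (y' (I 0) * y (I 1) * q ![I 2, I 3]) = -S := by
    rw [hS, sum_perm (Equiv.swap 0 1), ← Finset.sum_neg_distrib]
    refine Finset.sum_congr rfl fun I _ => ?_
    rw [hV.alt, Equiv.Perm.sign_swap (by decide)]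
    simp only [Units.val_neg, Units.val_one, Int.cast_neg, Int.cast_one, neg_mul, one_mul]
    change -(oV I * (y' (I 1) * y (I 0) * q ![I 2, I 3])) = _
    rw [mul_comm (y' (I 1))]
  have e3 : ∀ I : Fin 4 → ι, oV I * (fo y y' ![I 0, I 1] * q ![I 2, I 3]) =
      oV I * (y (I 0) * y' (I 1) * q ![I 2, I 3]) - oV I * (y' (I 0) * y (I 1) * q ![I 2, I 3]) := by
    intro I
    change oV I * ((y (I 0) * y' (I 1) - y' (I 0) * y (I 1)) * q ![I 2, I 3]) = _
    ring
  simp only [e3]
  rw [Finset.sum_sub_distrib, e2, ← hS, e1]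
  norm_num

/-- the wedge condition from an injective extension -/
theorem hw_of_inj (g : A →+* A') (hg : Injective g) {o o' : (Fin 2 → ι) → A} {oV : (Fin 4 → ι) → A}
    (h : ∑ I, g (oV I) * (g (o ![I 0, I 1]) * g (o' ![I 2, I 3])) = 4) :
    ∑ I, oV I * (o ![I 0, I 1] * o' ![I 2, I 3]) = 4 := by
  refine hg ?_
  rw [map_sum]
  refine Eq.trans ?_ (h.trans (map_ofNat g 4).symm)
  exact Finset.sum_congr rfl fun I _ => by rw [map_mul, map_mul]

end Pool.Agent.Lib.MP_ccbbf6_gt.L5
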