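import Pool.Agent.Lib.MP_ccbbf6_gt.L5.RHO3

/-!
# Level 5, block RHO 4: the plane bundle of a rotating frame, twisted isomorphisms (helper5)

* `RotF.E` = `y y^T + y' y'^T` : `hps E_C j = (-λ)^j + λ^j`, `λ = 2 π i [dη]`; `RotF.eu2` : Euler form `- dη`;
* `twist` : if `W' = a b`, `W = b a` and `ρ_t^* a = e^(i t) a`, then `hps W' j = ∑ C(j,k) λ^k hps W (j - k)`.
-/

set_option autoImplicit false
set_option maxSynthPendingDepth 3
set_option linter.unusedSectionVars false

open Set Filter Topology Matrix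
open scoped ContDiff

noncomputable section

namespace Pool.Agent.Lib.MP_ccbbf6_gt.L5

open L4 L4.FR

variable {X : Space} {ι κ : Type*} [Fintype ι] [DecidableEq ι] [Fintype κ] [DecidableEq κ] {c : Circ X}
  {y y' : ι → SF X}

/-- conjugation of invariant functions, injective up to `X` -/
lemma SBC_inj {M N : Matrix ι κ (CB (SB c))} (e : M.map (CB.alg (SB c).val) = N.map (CB.alg (SB c).val)) : M = N := by
  refine Matrix.ext fun i j => ?_
  have h2 := congrFun (congrFun e i) j
  ext1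
  · exact Subtype.ext (congrArg CB.re h2)
  · exact Subtype.ext (congrArg CB.im h2)

lemma SB_inj {M N : Matrix ι κ (SB c)} (e : M.map (SB c).val = N.map (SB c).val) : M = N := by
  refine Matrix.ext fun i j => ?_
  exact Subtype.ext (congrFun (congrFun e i) j)

variable (h : RotF c y y')

include h

/-- the class `2 π i [dη]` -/
def RotF.lam : (GC (GB c)).HE := tpi (GB c) * rc (GB c) (Ideal.Quotient.mk (GB c).Ex h.e)

/-- the plane bundle -/
def RotF.E : Matrix ι ι (SB c) := fun i j => ⟨y i * y j + y' i * y' j, h.inv1 i j⟩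

/-- the orientation tensor of the plane bundle -/
def RotF.o (I : Fin 2 → ι) : SB c := ⟨y (I 0) * y' (I 1) - y' (I 0) * y (I 1), fun x s => by
  have h1 := h.inv2 (I 0) (I 1) x s
  have h2 : y (I 0) * y' (I 1) - y' (I 0) * y (I 1) = -(y' (I 0) * y (I 1) - y (I 0) * y' (I 1)) := by ring
  rw [h2]
  exact congrArg Neg.neg h1⟩

lemma RotF.E_conj : h.E.map CB.ofR = h.L + h.L.map CB.conj := by
  refine Matrix.ext fun i j => ?_
  ext1
  · change (h.E i j : SB c) = (1 / 2 : ℝ) • h.E i j + (1 / 2 : ℝ) • h.E i j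
    rw [← add_smul]
    norm_num
  · change (0 : SB c) = (h.L i j).im + -(h.L i j).im
    rw [add_neg_cancel]

lemma RotF.L_tr : h.L.map CB.conj = h.Lᵀ := by
  refine Matrix.ext fun i j => ?_
  ext1
  · change (1 / 2 : ℝ) • _ = (1 / 2 : ℝ) • _
    congr 1
    refine Subtype.ext ?_
    change y i * y j + y' i * y' j = y j * y i + y' j * y' i
    ring
  · change -((1 / 2 : ℝ) • _) = (1 / 2 : ℝ) • _
    rw [← smul_neg]
    congr 1
    refine Subtype.ext ?_
    change -(y' i * y j - y i * y' j) = y' j * y i - y j * y' i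
    ring

/-- `(y - i y')^T (y - i y') = 0` -/
lemma RotF.row_conj : rowF y y' * (colF y y').map CB.conj = 0 := by
  refine Matrix.ext fun i j => ?_
  rw [Matrix.mul_apply, Matrix.zero_apply]
  have h1 : ∀ l, rowF y y' i l * (colF y y').map CB.conj l j =
      (⟨(1 / 2 : ℝ) • (y l * y l) - (1 / 2 : ℝ) • (y' l * y' l), -(y l * y' l)⟩ : CB (SF X)) := by
    intro l
    ext1
    · change ((1 / 2 : ℝ) • y l) * y l - -((1 / 2 : ℝ) • y' l) * -y' l = _
      rw [neg_mul_neg, smul_mul_assoc, smul_mul_assoc]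
    · change ((1 / 2 : ℝ) • y l) * -y' l + -((1 / 2 : ℝ) • y' l) * y l = -(y l * y' l)
      rw [mul_neg, neg_mul, smul_mul_assoc, smul_mul_assoc, mul_comm (y' l), ← neg_add, ← add_smul]
      norm_num
  rw [Finset.sum_congr rfl fun l _ => h1 l]
  have h2 : ∀ (s : Finset ι) (f g : ι → SF X), (∑ l ∈ s, (⟨f l, g l⟩ : CB (SF X))) = ⟨∑ l ∈ s, f l, ∑ l ∈ s, g l⟩ := by
    intro s f g
    induction s using Finset.induction_on with
    | empty => rfl
    | insert a s ha ih => rw [Finset.sum_insert ha, Finset.sum_insert ha, Finset.sum_insert ha, ih]; rfl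
  rw [h2]
  ext1
  · change ∑ l, ((1 / 2 : ℝ) • (y l * y l) - (1 / 2 : ℝ) • (y' l * y' l)) = 0
    rw [Finset.sum_sub_distrib, ← Finset.smul_sum, ← Finset.smul_sum, h.n1, h.n2, sub_self]
  · change ∑ l, -(y l * y' l) = 0
    rw [Finset.sum_neg_distrib, h.n3, neg_zero]

omit h in
lemma conj_map_mul {A : Type*} [Ring A] [Algebra ℝ A] {μ : Type*} [Fintype μ] (M : Matrix ι κ (CB A)) (N : Matrix κ μ (CB A)) :
    (M * N).map CB.conj = M.map CB.conj * N.map CB.conj := Matrix.map_mul

omit h in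
lemma conj_alg {M : Matrix ι κ (CB (SB c))} :
    (M.map CB.conj).map (CB.alg (SB c).val) = (M.map (CB.alg (SB c).val)).map CB.conj := by
  refine Matrix.ext fun i j => ?_
  ext1
  · rfl
  · exact map_neg (SB c).val _

lemma RotF.L_conj : h.L * h.L.map CB.conj = 0 := by
  refine SBC_inj ?_
  rw [Matrix.map_mul, conj_alg, ← h.ab, conj_map_mul, Matrix.mul_assoc, ← Matrix.mul_assoc (rowF y y'),
    h.row_conj, Matrix.zero_mul, Matrix.mul_zero]
  exact (Matrix.map_zero _ (map_zero _)).symm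

omit h in
lemma conj_conj_map {A : Type*} [Ring A] [Algebra ℝ A] (M : Matrix ι κ (CB A)) : (M.map CB.conj).map CB.conj = M := by
  refine Matrix.ext fun i j => ?_
  exact CB.conj_conj _

lemma RotF.L_conj' : h.L.map CB.conj * h.L = 0 := by
  have h1 : (h.L * h.L.map CB.conj).map CB.conj = (0 : Matrix ι ι (CB (SB c))).map CB.conj := by rw [h.L_conj]
  rw [conj_map_mul, conj_conj_map] at h1
  rw [h1]
  exact Matrix.map_zero _ (map_zero _)

lemma RotF.LLc : h.L.map CB.conj * h.L.map CB.conj = h.L.map CB.conj := by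
  rw [← conj_map_mul, h.LL]

/-- the conjugate line bundle -/
lemma RotF.idemc : (GC (GB c)).Idem ((h.L.map CB.conj).map (FB c).C.f) := (FB c).C.idem h.LLc

omit h in
theorem hps_transposeR {B : Type*} [Ring B] [Algebra ℝ B] {G : GDA B} {P : Matrix ι ι B} (hP : G.Idem P) (j : ℕ) :
    GDA.hps hP.transpose j = (-1) ^ j * GDA.hps hP j := by
  rcases Nat.even_or_odd j with hj | hj
  · have h3 : G.ps Pᵀ j = G.ps P j := by rw [hP.ps_transpose, hj.neg_one_pow, one_mul]
    rw [hj.neg_one_pow, one_mul]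
    exact GDA.cl_congr h3 _ _
  · have h3 : G.ps Pᵀ j = -G.ps P j := by rw [hP.ps_transpose, hj.neg_one_pow, neg_one_mul]
    rw [hj.neg_one_pow, neg_one_mul]
    unfold GDA.hps
    rw [GDA.cl_neg]
    exact GDA.cl_congr h3 _ _

omit h in
theorem hps_congrR {B : Type*} [Ring B] [Algebra ℝ B] {G : GDA B} {P Q : Matrix ι ι B} (hP : G.Idem P) (hQ : G.Idem Q)
    (e : P = Q) (j : ℕ) : GDA.hps hP j = GDA.hps hQ j := by
  subst e
  rfl

lemma RotF.conj_eq : (h.L.map CB.conj).map (FB c).C.f = (h.L.map (FB c).C.f)ᵀ := by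
  rw [h.L_tr]
  rfl

lemma RotF.hps' (j : ℕ) : GDA.hps h.idem j = (-h.lam) ^ j := by
  unfold RotF.lam
  exact h.hps j

lemma RotF.hpsc (j : ℕ) : GDA.hps h.idemc j = h.lam ^ j := by
  rw [hps_congrR h.idemc h.idem.transpose h.conj_eq j, hps_transposeR h.idem, h.hps', ← mul_pow, neg_one_mul, neg_neg]

lemma RotF.EE : h.E * h.E = h.E := by
  have h1 : (h.E * h.E).map CB.ofR = h.E.map CB.ofR := by
    rw [Matrix.map_mul, h.E_conj, Matrix.add_mul, Matrix.mul_add, Matrix.mul_add, h.LL, h.L_conj, h.L_conj', h.LLc,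
      add_zero, zero_add]
  refine Matrix.ext fun i j => ?_
  exact congrArg CB.re (congrFun (congrFun h1 i) j)

lemma RotF.Esym : h.Eᵀ = h.E := by
  refine Matrix.ext fun i j => Subtype.ext ?_
  change y j * y i + y' j * y' i = y i * y j + y' i * y' j
  ring

/-- the complexification of a real bundle -/
lemma RotF.idemE : (GC (GB c)).Idem ((h.E.map CB.ofR).map (FB c).C.f) := (FB c).C.idem (by
  rw [← Matrix.map_mul, h.EE])

theorem RotF.hpsE (j : ℕ) : GDA.hps h.idemE j = (-h.lam) ^ j + h.lam ^ j := by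
  have h1 : (h.E.map CB.ofR).map (FB c).C.f = h.L.map (FB c).C.f + (h.L.map CB.conj).map (FB c).C.f := by
    rw [← (FB c).C.add, h.E_conj]
  have h2 : (GC (GB c)).Idem (h.L.map (FB c).C.f + (h.L.map CB.conj).map (FB c).C.f) := by
    rw [← h1]
    exact h.idemE
  have h3 := (CylB c).cx.hps_add h.idem h.idemc h2 (by rw [← (FB c).C.mul, h.L_conj, (FB c).C.zero])
    (by rw [← (FB c).C.mul, h.L_conj', (FB c).C.zero]) j
  rw [hps_congrR h.idemE h2 h1 j, h3, h.hps', h.hpsc]

end Pool.Agent.Lib.MP_ccbbf6_gt.L5
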