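import Pool.Agent.Lib.MP_ccbbf6_gt.L5.CW3
import Pool.Agent.Lib.MP_ccbbf6_gt.L5.EL4
import Pool.Agent.Lib.MP_ccbbf6_gt.L5.RHO4

/-!
# Level 5, block RHO 5: the classes of a rotating frame, the twisted isomorphism (helper5)

* `RotF.or`, `RotF.hE2` : the plane bundle has Euler class `- [dη]`;
* `hT_conj` : the conjugate bundle;
* `RotF.twist` : `W' = a b`, `W = b a`, `a (ρ_s x) = e^(2 π i s) a x` imply `hT W' j = ∑ C(j,k) (-[dη])^k hT W (j-k)`.
-/

set_option autoImplicit false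
set_option maxSynthPendingDepth 3
set_option linter.unusedSectionVars false

open Set Filter Topology Matrix
open scoped ContDiff

noncomputable section

namespace Pool.Agent.Lib.MP_ccbbf6_gt.L5

open L4 L4.FR

/-! ### abstract algebra -/

section r5

private theorem r5_elc_f {R S : Type*} [CommRing R] [Algebra ℝ R] [CommRing S] [Algebra ℝ S] (f : R →ₐ[ℝ] S)
    (T : ℕ → R) (T' : ℕ → S) (n : ℕ) (h1 : ∀ j, T' j = (-1) ^ j * f (T j)) (h0 : elc T n = 0) : elc T' n = 0 := by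
  obtain rfl : T' = fun j => (-1) ^ j * f (T j) := funext h1
  rw [elc_homog, ← map_elc, h0, map_zero, mul_zero]

private theorem r5_conj {R S : Type*} [CommRing R] [Algebra ℝ R] [CommRing S] [Algebra ℝ S] (f : R →ₐ[ℝ] S)
    (a p : R) (b q : S) (r : ℝ) (j : ℕ) (h1 : f a = -b) (h2 : f p = q) :
    b ^ j * (r • q) = (-1) ^ j * f (a ^ j * (r • p)) := by
  rw [map_mul, map_pow, h1, map_smul, h2, ← mul_assoc, ← mul_pow, neg_one_mul, neg_neg]

private theorem r5_scal {R : Type*} [CommRing R] [Algebra ℝ R] (a : R) (T T' : ℕ → R) (n : ℕ)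
    (h1 : ∀ j, T' j = a ^ j * T j) (h0 : elc T n = 0) : elc T' n = 0 := by
  obtain rfl : T' = fun j => a ^ j * T j := funext h1
  rw [elc_homog, h0, mul_zero]

private theorem r5_cf {R S : Type*} [CommRing R] [Algebra ℝ R] [CommRing S] [Algebra ℝ S] (f : S →ₐ[ℝ] R)
    (z : S) (T : ℕ → R) (T' : ℕ → R) (I : R) (r : ℝ) (n : ℕ) (e3 : z = 0) (h1 : f z = elc T n)
    (h2 : ∀ j, T' j = I ^ j * (r ^ j • T j)) : elc T' n = 0 := by
  refine r5_scal (r • I) T T' n (fun j => ?_) (by rw [← h1, e3, map_zero])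
  rw [h2 j, smul_pow, smul_mul_assoc, mul_smul_comm]

private theorem r5_E2 {R S : Type*} [CommRing R] [Algebra ℝ R] [CommRing S] [Algebra ℝ S] (f : S →ₐ[ℝ] R)
    (hf : Function.Injective f) (E e : S) (I T p : R) (r s : ℝ) (hrs : r * s = 1) (hI : I * I = -1)
    (h1 : T = f E) (h2 : T = I ^ 1 * (r ^ 1 • p)) (h3 : p = (s • I * f e) ^ 1) : E = -e := by
  refine hf ?_
  rw [← h1, h2, h3, map_neg, pow_one, pow_one, pow_one, smul_mul_assoc, smul_smul, hrs, one_smul, ← mul_assoc, hI,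
    neg_one_mul]

private theorem r5_rm (t : ℝ) : (⟨Real.cos t, Real.sin t⟩ : ℂ) * ⟨Real.cos t, -Real.sin t⟩ = 1 := by
  refine Complex.ext ?_ ?_
  · rw [Complex.mul_re, Complex.one_re]
    change Real.cos t * Real.cos t - Real.sin t * -Real.sin t = 1
    have := Real.cos_sq_add_sin_sq t
    linear_combination this
  · rw [Complex.mul_im, Complex.one_im]
    change Real.cos t * -Real.sin t + Real.sin t * Real.cos t = 0
    ring

private theorem r5_rot {X : Space} (p q : X.pt) (t : ℝ) (a b : CB (SF X))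
    (ha : vlC p a = ⟨Real.cos t, Real.sin t⟩ * vlC q a) (hb : vlC p b = ⟨Real.cos t, -Real.sin t⟩ * vlC q b) :
    vlC p (a * b) = vlC q (a * b) := by
  rw [map_mul, ha, hb, map_mul, mul_mul_mul_comm, r5_rm, one_mul]

private theorem r5_rot' {X : Space} (p q : X.pt) (t r : ℝ) (a b : CB (SF X))
    (ha : vlC p a = ⟨Real.cos t, Real.sin t⟩ * vlC q a) (hb : vlC p b = ⟨Real.cos t, -Real.sin t⟩ * vlC q b) :
    vlC p (r • (a * b)) = vlC q (r • (a * b)) := by
  rw [map_smul, map_smul, r5_rot p q t a b ha hb]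

section mat

variable {A : Type*} [CommRing A] [Algebra ℝ A] {ι κ : Type*} [Fintype ι] [Fintype κ]

private theorem r5_e1 (α : Matrix κ (ι × κ) A) (β : Matrix (ι × κ) κ A) (a b : Matrix κ κ A) (u v : ι → A)
    (hα : ∀ k p, α k p = a k p.2 * u p.1) (hβ : ∀ p k, β p k = (1 / 2 : ℝ) • (v p.1 * b p.2 k))
    (hn : ∑ m, (1 / 2 : ℝ) • (v m * u m) = 1) : α * β = a * b := by
  refine Matrix.ext fun k l => ?_
  rw [Matrix.mul_apply, Fintype.sum_prod_type, Matrix.mul_apply]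
  have h2 : ∀ m i, α k (m, i) * β (m, i) l = ((1 / 2 : ℝ) • (v m * u m)) * (a k i * b i l) := by
    intro m i
    rw [hα, hβ, mul_smul_comm, smul_mul_assoc]
    congr 1
    ring
  simp only [h2]
  rw [← Finset.sum_mul_sum, hn, one_mul]

private theorem r5_e2 (α : Matrix κ (ι × κ) A) (β : Matrix (ι × κ) κ A) (a b : Matrix κ κ A) (u v : ι → A)
    (hα : ∀ k p, α k p = a k p.2 * u p.1) (hβ : ∀ p k, β p k = (1 / 2 : ℝ) • (v p.1 * b p.2 k)) (p q : ι × κ) :
    (β * α) p q = ((1 / 2 : ℝ) • (v p.1 * u q.1)) * (b * a) p.2 q.2 := by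
  rw [Matrix.mul_apply, Matrix.mul_apply, Finset.mul_sum]
  refine Finset.sum_congr rfl fun i _ => ?_
  rw [hα, hβ, smul_mul_assoc, smul_mul_assoc]
  congr 1
  ring

private theorem r5_s {S : Type*} [CommRing S] [Algebra ℝ S] (y y' z z' : S) :
    (1 / 2 : ℝ) • (y * z + y' * z') = (1 / 2 : ℝ) • (y * z - -y' * z') := by
  rw [neg_mul, sub_neg_eq_add]

private theorem r5_t {S : Type*} [CommRing S] [Algebra ℝ S] (y y' z z' : S) :
    -((1 / 2 : ℝ) • (y' * z - y * z')) = (1 / 2 : ℝ) • (y * z' + -y' * z) := by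
  rw [← smul_neg]
  congr 1
  ring

end mat

end r5

/-! ### conjugation -/

section conj

variable {B : Type*} [Ring B] [Algebra ℝ B] {G : GDA B} {ι : Type*} [Fintype ι] [DecidableEq ι]

theorem conj_hI : (GHom.conj G).he (GDA.hI G) = -GDA.hI G := by
  unfold GDA.hI
  rw [GHom.he_cl, GDA.cl_neg]
  exact GDA.cl_congr CB.conj_I _ _

theorem conj_rc (x : G.HE) : (GHom.conj G).he (rc G x) = rc G x := by
  obtain ⟨w, a, b, rfl⟩ := GDA.cl_surj x
  rw [rc_cl, GHom.he_cl]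
  exact GDA.cl_congr (CB.conj_ofR w) _ _

theorem hT_conj {P : Matrix ι ι (CB B)} (h : (GC G).Idem P) (j : ℕ) :
    hT ((GHom.conj G).idem h) j = (-1) ^ j * (GHom.conj G).he (hT h j) := by
  exact r5_conj (GHom.conj G).he (GDA.hI G) (GDA.hps h j) (GDA.hI G) (GDA.hps ((GHom.conj G).idem h) j) _ j conj_hI
    (GHom.he_hps _ h j)

theorem elc_conj {P : Matrix ι ι (CB B)} (h : (GC G).Idem P) {n : ℕ} (h0 : elc (hT h) n = 0) :
    elc (hT ((GHom.conj G).idem h)) n = 0 :=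
  r5_elc_f (GHom.conj G).he _ _ n (hT_conj h) h0

private theorem r5_elc_cf {P : Matrix ι ι (CB B)} (h : (GC G).Idem P) {n : ℕ} (e3 : GDA.cf h n = 0) :
    elc (hT h) n = 0 :=
  r5_cf (Ideal.Quotient.mkₐ ℝ (GC G).Ex) (GDA.cf h n) (GDA.hps h) (hT h) (GDA.hI G) (1 / (2 * Real.pi)) n e3
    (GDA.mk_cf h n) (fun _ => rfl)

private theorem r5_fin (E e : G.HE) (he : E = -e) (T : ℕ → (GC G).HE) (j : ℕ) :
    ∑ k ∈ Finset.range (j + 1), (j.choose k : (GC G).HE) * (rc G E ^ k * T (j - k)) =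
      ∑ k ∈ Finset.range (j + 1), (j.choose k : (GC G).HE) * ((-rc G e) ^ k * T (j - k)) := by
  subst he
  rw [map_neg]

private theorem r5_zc {B' : Type*} [Ring B'] [Algebra ℝ B'] {G' : GDA B'} (f : GHom G G') {P : Matrix ι ι B}
    (hP : G.Idem P) (n : ℕ) (hf : f.f (GDA.cf hP n).1 = f.f 0 → (GDA.cf hP n).1 = 0) (h : GDA.cf (f.idem hP) n = 0) :
    GDA.cf hP n = 0 :=
  Subtype.ext (hf ((congrArg Subtype.val ((GDA.map_cf f hP n).trans h)).trans (map_zero f.f).symm))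

private theorem r5_hE2 {P : Matrix ι ι (CB B)} (h : (GC G).Idem P) (E e : G.HE) (h1 : hT h 1 = rc G E)
    (h3 : GDA.hps h 1 = (tpi G * rc G e) ^ 1) : E = -e :=
  r5_E2 (rc G) rc_inj E e (GDA.hI G) (hT h 1) (GDA.hps h 1) (1 / (2 * Real.pi)) (2 * Real.pi)
    (by have hp : Real.pi ≠ 0 := Real.pi_ne_zero
        field_simp) GDA.hI_sq h1 rfl h3

end conj

variable {X : Space} {ι κ : Type*} [Fintype ι] [DecidableEq ι] [Fintype κ] [DecidableEq κ] {c : Circ X}
  {y y' : ι → SF X}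

/-- conjugate of an idempotent of invariant functions -/
theorem cj_idem {W : Matrix κ κ (CB (SB c))} (hW : W * W = W) : W.map CB.conj * W.map CB.conj = W.map CB.conj := by
  rw [← conj_map_mul, hW]

theorem hT_cj {W : Matrix κ κ (CB (SB c))} (hW : W * W = W) (j : ℕ) :
    hT ((FB c).C.idem (cj_idem hW)) j = (-1) ^ j * (GHom.conj (GB c)).he (hT ((FB c).C.idem hW) j) := by
  rw [← hT_conj]
  refine hT_congr ?_ _ _ j
  exact Matrix.ext fun i l => ((FB c).C_conj (W i l)).symm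

theorem elc_cj {W : Matrix κ κ (CB (SB c))} (hW : W * W = W) {n : ℕ} (h0 : elc (hT ((FB c).C.idem hW)) n = 0) :
    elc (hT ((FB c).C.idem (cj_idem hW))) n = 0 :=
  r5_elc_f (GHom.conj (GB c)).he _ _ n (hT_cj hW) h0

/-- vanishing above the rank, basic version -/
theorem elc_rank {W : Matrix κ κ (CB (SB c))} (hW : W * W = W) {r : ℕ}
    (hr : ∀ x, ((W.map (CB.alg (SB c).val)).map (vlC x)).rank ≤ r) {n : ℕ} (hn : r < n) :
    elc (hT ((FB c).C.idem hW)) n = 0 := by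
  have hW' : W.map (CB.alg (SB c).val) * W.map (CB.alg (SB c).val) = W.map (CB.alg (SB c).val) := by
    rw [← Matrix.map_mul, hW]
  exact r5_elc_cf ((FB c).C.idem hW) (r5_zc (incB c).cx ((FB c).C.idem hW) n cx_inj (cf_zero hW' hr hn))

/-- a complex invariant function -/
def mkSBC (f : CB (SF X)) (h : ∀ x s, vlC (c.a.1 (x, s)) f = vlC x f) : CB (SB c) :=
  ⟨⟨f.re, fun x s => congrArg Complex.re (h x s)⟩, ⟨f.im, fun x s => congrArg Complex.im (h x s)⟩⟩

theorem alg_mkSBC (f : CB (SF X)) (h : ∀ x s, vlC (c.a.1 (x, s)) f = vlC x f) : CB.alg (SB c).val (mkSBC f h) = f := rfl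

private theorem r5_ex {μ ν : Type*} (f : μ → ν → CB (SF X)) (hf : ∀ k p x s, vlC (c.a.1 (x, s)) (f k p) = vlC x (f k p)) :
    ∃ α : Matrix μ ν (CB (SB c)), ∀ k p, CB.alg (SB c).val (α k p) = f k p :=
  ⟨fun k p => mkSBC (f k p) (hf k p), fun _ _ => rfl⟩

variable (h : RotF c y y')

include h

theorem RotF.or : Or 2 h.E h.o :=
  Or.of_inj ((SB c).val : SB c →+* SF X) Subtype.val_injective (Or.frame2 h.n1 h.n2 h.n3)

theorem RotF.pl_eq : pl h.E h.o = h.L.map CB.conj := by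
  refine Matrix.ext fun i j => ?_
  ext1
  · change (1 / 2 : ℝ) • h.E i j = (1 / 2 : ℝ) • _
    congr 1
  · change (1 / 2 : ℝ) • h.o ![i, j] = -((1 / 2 : ℝ) • _)
    rw [← smul_neg]
    congr 1
    refine Subtype.ext ?_
    change y i * y' j - y' i * y j = -(y' i * y j - y i * y' j)
    ring

/-- the class `[dη]` -/
def RotF.ec : (GB c).HE := Ideal.Quotient.mk (GB c).Ex h.e

theorem RotF.hE2 : hE2 (FB c) h.or = -h.ec := by
  have e : (h.L.map CB.conj).map (FB c).C.f = (pl h.E h.o).map (FB c).C.f := by rw [h.pl_eq]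
  exact r5_hE2 h.idemc _ _ ((hT_congr e h.idemc ((FB c).C.idem h.or.pl_idem) 1).trans (hT_pl_one h.or)) (h.hpsc 1)

/-- the column rotates -/
theorem RotF.col_rot (x : X.pt) (s : ℝ) (i : ι) (u : Unit) : vlC (c.a.1 (x, s)) (colF y y' i u) =
    (⟨Real.cos (2 * Real.pi * s), -Real.sin (2 * Real.pi * s)⟩ : ℂ) * vlC x (colF y y' i u) := by
  refine Complex.ext ?_ ?_
  · rw [Complex.mul_re]
    change (y i).1 (c.a.1 (x, s)) = Real.cos (2 * Real.pi * s) * (y i).1 x - -Real.sin (2 * Real.pi * s) * (y' i).1 x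
    rw [h.r1]
    ring
  · rw [Complex.mul_im]
    change (y' i).1 (c.a.1 (x, s)) = Real.cos (2 * Real.pi * s) * (y' i).1 x + -Real.sin (2 * Real.pi * s) * (y i).1 x
    rw [h.r2]
    ring

theorem RotF.colc_rot (x : X.pt) (s : ℝ) (i : ι) (u : Unit) : vlC (c.a.1 (x, s)) (CB.conj (colF y y' i u)) =
    (⟨Real.cos (2 * Real.pi * s), Real.sin (2 * Real.pi * s)⟩ : ℂ) * vlC x (CB.conj (colF y y' i u)) := by
  refine Complex.ext ?_ ?_
  · rw [Complex.mul_re]
    change (y i).1 (c.a.1 (x, s)) = Real.cos (2 * Real.pi * s) * (y i).1 x - Real.sin (2 * Real.pi * s) * (-(y' i).1 x)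
    rw [h.r1]
    ring
  · rw [Complex.mul_im]
    change -(y' i).1 (c.a.1 (x, s)) = Real.cos (2 * Real.pi * s) * (-(y' i).1 x) + Real.sin (2 * Real.pi * s) * (y i).1 x
    rw [h.r2]
    ring

omit h in
theorem rot_mul (t : ℝ) : (⟨Real.cos t, Real.sin t⟩ : ℂ) * ⟨Real.cos t, -Real.sin t⟩ = 1 := r5_rm t

/-- **the twisted isomorphism** -/
theorem RotF.twist {W W' : Matrix κ κ (CB (SB c))} (hW : W * W = W) (hW' : W' * W' = W') {a b : Matrix κ κ (CB (SF X))}
    (hab : a * b = W'.map (CB.alg (SB c).val)) (hba : b * a = W.map (CB.alg (SB c).val))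
    (ra : ∀ x s i j, vlC (c.a.1 (x, s)) (a i j) =
      (⟨Real.cos (2 * Real.pi * s), Real.sin (2 * Real.pi * s)⟩ : ℂ) * vlC x (a i j))
    (rb : ∀ x s i j, vlC (c.a.1 (x, s)) (b i j) =
      (⟨Real.cos (2 * Real.pi * s), -Real.sin (2 * Real.pi * s)⟩ : ℂ) * vlC x (b i j)) (j : ℕ) :
    hT ((FB c).C.idem hW') j = ∑ k ∈ Finset.range (j + 1), (j.choose k : (GC (GB c)).HE) *
      ((-rc (GB c) h.ec) ^ k * hT ((FB c).C.idem hW) (j - k)) := by
  obtain ⟨α, hα⟩ := r5_ex (c := c) (fun (k : κ) (p : ι × κ) => a k p.2 * colF y y' p.1 ())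
    fun k p x s => r5_rot (c.a.1 (x, s)) x (2 * Real.pi * s) _ _ (ra x s k p.2) (h.col_rot x s p.1 ())
  obtain ⟨β, hβ⟩ := r5_ex (c := c) (fun (p : ι × κ) (k : κ) => (1 / 2 : ℝ) • (CB.conj (colF y y' p.1 ()) * b p.2 k))
    fun p k x s => r5_rot' (c.a.1 (x, s)) x (2 * Real.pi * s) _ _ _ (h.colc_rot x s p.1 ()) (rb x s p.2 k)
  have hn : ∑ m, (1 / 2 : ℝ) • (CB.conj (colF y y' m ()) * colF y y' m ()) = 1 := by
    refine Eq.trans ?_ (congrFun (congrFun h.ba ()) ())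
    refine Finset.sum_congr rfl fun m _ => ?_
    rw [← smul_mul_assoc]
    congr 1
    ext1
    · rfl
    · exact smul_neg _ _
  have e1 : α * β = W' :=
    SBC_inj (Matrix.map_mul.trans ((r5_e1 (α.map (CB.alg (SB c).val)) (β.map (CB.alg (SB c).val)) a b
      (fun m => colF y y' m ()) (fun m => CB.conj (colF y y' m ())) hα hβ hn).trans hab))
  have e2 : β * α = fun p q => pl h.E h.o p.1 q.1 * W p.2 q.2 := by
    refine SBC_inj (Matrix.map_mul.trans (Matrix.ext fun p q => ?_))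
    refine (r5_e2 (α.map (CB.alg (SB c).val)) (β.map (CB.alg (SB c).val)) a b
      (fun m => colF y y' m ()) (fun m => CB.conj (colF y y' m ())) hα hβ p q).trans ?_
    rw [hba, h.pl_eq]
    refine Eq.trans ?_ (map_mul (CB.alg (SB c).val) (h.L.map CB.conj p.1 q.1) (W p.2 q.2)).symm
    have h4 : CB.alg (SB c).val (h.L.map CB.conj p.1 q.1) =
        (1 / 2 : ℝ) • (CB.conj (colF y y' p.1 ()) * colF y y' q.1 ()) :=
      CB.ext (r5_s (y p.1) (y' p.1) (y q.1) (y' q.1)) (r5_t (y p.1) (y' p.1) (y q.1) (y' q.1))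
    exact congrArg (· * CB.alg (SB c).val (W p.2 q.2)) h4.symm
  exact (hT_twist (φ := FB c) (CylB c) h.or hW hW' α β e1 e2 j).trans (r5_fin _ _ h.hE2 (hT ((FB c).C.idem hW)) j)

end Pool.Agent.Lib.MP_ccbbf6_gt.L5
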