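import Pool.Agent.Lib.MP_ccbbf6_gt.L5.EG9
import Pool.Agent.Lib.MP_ccbbf6_gt.L5.EGW3
import Pool.Agent.Lib.MP_ccbbf6_gt.L5.RHO5

/-!
# Level 5, RG3: Whitney product formula for a rotating frame in an oriented bundle of even rank (helper79)

* `sgT_frame` : the relative sign of `redP (redP V y) y'` and of the plane of `y, y'` is `1`;
* `RotF.whit` : `e(V) = - [dη] e(L)`;
* `RotF.pont_top` : `e(L)^2 = ∑ (-1)^i [dη]^(2 i) p_(n-i)(V)`.
-/

set_option autoImplicit false
set_option maxSynthPendingDepth 3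
set_option linter.unusedSectionVars false

open Set Filter Topology Matrix Function
open scoped ContDiff

noncomputable section

namespace Pool.Agent.Lib.MP_ccbbf6_gt.L5

open L4 L4.FR

/-! ### juxtaposition in one index set -/

section ct

variable {ι : Type*} [Fintype ι] [DecidableEq ι] {m l : ℕ}

/-- juxtaposition -/
def ct2 (I : Fin (2 * m) → ι) (J : Fin (2 * l) → ι) : Fin (2 * (m + l)) → ι := fun k => Sum.elim I J ((sq m l).symm k)

theorem ct2_sq (I : Fin (2 * m) → ι) (J : Fin (2 * l) → ι) (x : Fin (2 * m) ⊕ Fin (2 * l)) :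
    ct2 I J (sq m l x) = Sum.elim I J x := by
  unfold ct2
  rw [Equiv.symm_apply_apply]

/-- pairs of multi-indices -/
def ctE (ι : Type*) (m l : ℕ) : (Fin (2 * m) → ι) × (Fin (2 * l) → ι) ≃ (Fin (2 * (m + l)) → ι) :=
  (Equiv.sumArrowEquivProdArrow (Fin (2 * m)) (Fin (2 * l)) ι).symm.trans (Equiv.arrowCongr (sq m l) (Equiv.refl ι))

theorem ctE_apply (z : (Fin (2 * m) → ι) × (Fin (2 * l) → ι)) : ctE ι m l z = ct2 z.1 z.2 := rfl

variable {A : Type*} [CommRing A] {P Q : Matrix ι ι A} {oP : (Fin (2 * m) → ι) → A} {oQ : (Fin (2 * l) → ι) → A}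

theorem push_ap (P Q : Matrix ι ι A) (oT : (Fin (2 * (m + l)) → ι) → A) (I : Fin (2 * m) → ι) (J : Fin (2 * l) → ι) :
    push (uPQ P Q) oT (ap I J) =
      ∑ K : Fin (2 * m) → ι, ∑ L : Fin (2 * l) → ι, (∏ k, P (I k) (K k)) * (∏ k, Q (J k) (L k)) * oT (ct2 K L) := by
  unfold push
  rw [← (ctE ι m l).sum_comp, Fintype.sum_prod_type]
  refine Finset.sum_congr rfl fun K _ => Finset.sum_congr rfl fun L _ => ?_
  rw [ctE_apply]
  congr 1
  rw [← (sq m l).prod_comp, Fintype.prod_sum_type]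
  congr 1
  · refine Finset.prod_congr rfl fun k _ => ?_
    rw [ap_sq, ct2_sq]
    rfl
  · refine Finset.prod_congr rfl fun k _ => ?_
    rw [ap_sq, ct2_sq]
    rfl

theorem Or.full' {r : ℕ} {o : (Fin r → ι) → A} [Algebra ℝ A] (h : Or r P o) (K : Fin r → ι) :
    ∑ I : Fin r → ι, o I * ∏ k, P (I k) (K k) = o K := by
  rw [← h.full K]
  refine Finset.sum_congr rfl fun I _ => ?_
  rw [mul_comm]
  congr 1
  exact Finset.prod_congr rfl fun k _ => congrFun (congrFun h.sym (K k)) (I k)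

variable [Algebra ℝ A]

/-- the relative sign in one index set -/
theorem sgU_push (hP : Or (2 * m) P oP) (hQ : Or (2 * l) Q oQ) (oT : (Fin (2 * (m + l)) → ι) → A) :
    sgU oP oQ (push (uPQ P Q) oT) = ∑ K : Fin (2 * m) → ι, oP K * ∑ L : Fin (2 * l) → ι, oQ L * oT (ct2 K L) := by
  unfold sgU
  simp only [push_ap]
  have e1 : ∀ K L, oP K * (oQ L * oT (ct2 K L)) = (∑ J, oQ J * ∏ k, Q (J k) (L k)) * ((∑ I, oP I * ∏ k, P (I k) (K k)) *
      oT (ct2 K L)) := by
    intro K L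
    rw [hP.full', hQ.full']
    ring
  have e2 : ∑ K : Fin (2 * m) → ι, oP K * ∑ L : Fin (2 * l) → ι, oQ L * oT (ct2 K L) =
      ∑ K : Fin (2 * m) → ι, ∑ L : Fin (2 * l) → ι, ∑ J : Fin (2 * l) → ι, ∑ I : Fin (2 * m) → ι,
        oQ J * (oP I * ((∏ k, P (I k) (K k)) * (∏ k, Q (J k) (L k)) * oT (ct2 K L))) := by
    refine Finset.sum_congr rfl fun K _ => ?_
    rw [Finset.mul_sum]
    refine Finset.sum_congr rfl fun L _ => ?_
    rw [e1, Finset.sum_mul]
    refine Finset.sum_congr rfl fun J _ => ?_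
    rw [Finset.sum_mul, Finset.mul_sum]
    refine Finset.sum_congr rfl fun I _ => ?_
    ring
  rw [e2]
  simp only [Finset.mul_sum]
  have e3 : ∀ f : (Fin (2 * l) → ι) → (Fin (2 * m) → ι) → (Fin (2 * m) → ι) → (Fin (2 * l) → ι) → A,
      ∑ J, ∑ I, ∑ K, ∑ L, f J I K L = ∑ K, ∑ L, ∑ J, ∑ I, f J I K L := by
    intro f
    calc ∑ J, ∑ I, ∑ K, ∑ L, f J I K L = ∑ J, ∑ K, ∑ I, ∑ L, f J I K L :=
          Finset.sum_congr rfl fun J _ => Finset.sum_comm
      _ = ∑ J, ∑ K, ∑ L, ∑ I, f J I K L :=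
          Finset.sum_congr rfl fun J _ => Finset.sum_congr rfl fun K _ => Finset.sum_comm
      _ = ∑ K, ∑ J, ∑ L, ∑ I, f J I K L := Finset.sum_comm
      _ = ∑ K, ∑ L, ∑ J, ∑ I, f J I K L := Finset.sum_congr rfl fun K _ => Finset.sum_comm
  exact e3 _

end ct

/-! ### two sections -/

section two

variable {ι : Type*} [Fintype ι] [DecidableEq ι] {n : ℕ} {A : Type*} [CommRing A]

/-- cyclic permutation by two -/
theorem ct2_rot (I : Fin (2 * n) → ι) (J : Fin (2 * 1) → ι) :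
    (ct2 I J : Fin (2 * n + 1 + 1) → ι) =
      (Fin.cons (J 0) (Fin.cons (J 1) I : Fin (2 * n + 1) → ι) : Fin (2 * n + 1 + 1) → ι) ∘
        (finRotate (2 * n + 1 + 1) * finRotate (2 * n + 1 + 1) : Equiv.Perm (Fin (2 * n + 1 + 1))) := by
  funext k
  obtain ⟨x, rfl⟩ := (sq n 1).surjective k
  have h0 : ct2 I J (sq n 1 x) = Sum.elim I J x := ct2_sq I J x
  refine h0.trans ?_
  rw [Function.comp_apply, Equiv.Perm.mul_apply]
  rcases x with x | x
  · have e1 : finRotate (2 * n + 1 + 1) (finRotate (2 * n + 1 + 1) (sq n 1 (Sum.inl x))) = x.succ.succ := by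
      have h1 : finRotate (2 * n + 1 + 1) (sq n 1 (Sum.inl x)) = (⟨x.1 + 1, by omega⟩ : Fin (2 * n + 1 + 1)) :=
        finRotate_of_lt (show x.1 < 2 * n + 1 by omega)
      rw [h1]
      exact finRotate_of_lt (show x.1 + 1 < 2 * n + 1 by omega)
    rw [e1]
    rfl
  · clear h0
    revert x
    refine fin2 ?_ ?_
    · have e1 : finRotate (2 * n + 1 + 1) (finRotate (2 * n + 1 + 1) (sq n 1 (Sum.inr 0))) = 0 := by
        have h1 : finRotate (2 * n + 1 + 1) (sq n 1 (Sum.inr 0)) = Fin.last (2 * n + 1) :=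
          finRotate_of_lt (show 2 * n < 2 * n + 1 by omega)
        rw [h1]
        exact finRotate_last
      rw [e1]
      rfl
    · have e1 : finRotate (2 * n + 1 + 1) (finRotate (2 * n + 1 + 1) (sq n 1 (Sum.inr 1))) = 1 := by
        have h1 : finRotate (2 * n + 1 + 1) (sq n 1 (Sum.inr 1)) = 0 :=
          finRotate_last (n := 2 * n + 1)
        rw [h1]
        exact finRotate_of_lt (show 0 < 2 * n + 1 by omega)
      rw [e1]
      rfl

theorem oV_rot {V : Matrix ι ι A} {oV : (Fin (2 * n + 1 + 1) → ι) → A} (hV : Or (2 * n + 1 + 1) V oV)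
    (I : Fin (2 * n) → ι) (J : Fin (2 * 1) → ι) : oV (ct2 I J) = oV (Fin.cons (J 0) (Fin.cons (J 1) I : Fin (2 * n + 1) → ι)) := by
  rw [ct2_rot, hV.alt, Equiv.Perm.sign_mul, Int.units_mul_self, Units.val_one, Int.cast_one, one_mul]

variable [Algebra ℝ A] {V : Matrix ι ι A} {oV : (Fin (2 * n + 1 + 1) → ι) → A} {y y' : ι → A}

/-- contraction with the plane -/
theorem plane_sum (hV : Or (2 * n + 1 + 1) V oV) (I : Fin (2 * n) → ι) :
    ∑ a, ∑ b, (y a * y' b - y' a * y b) * oV (Fin.cons a (Fin.cons b I : Fin (2 * n + 1) → ι)) =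
      2 * redo (redo oV y) y' I := by
  have e2 : redo (redo oV y) y' I = ∑ a, ∑ b, y a * y' b * oV (Fin.cons a (Fin.cons b I : Fin (2 * n + 1) → ι)) := by
    unfold redo
    simp only [Finset.mul_sum]
    rw [Finset.sum_comm]
    exact Finset.sum_congr rfl fun a _ => Finset.sum_congr rfl fun b _ => by ring
  have e3 : ∀ a b, oV (Fin.cons b (Fin.cons a I : Fin (2 * n + 1) → ι)) = -oV (Fin.cons a (Fin.cons b I : Fin (2 * n + 1) → ι)) := by
    intro a b
    have h2 := swap0 hV 0 a b (Fin.cons a I : Fin (2 * n + 1) → ι)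
    have u : ∀ (p q r : ι), update (Fin.cons p (Fin.cons q I : Fin (2 * n + 1) → ι) : Fin (2 * n + 1 + 1) → ι)
        (Fin.succ 0) r = Fin.cons p (Fin.cons r I : Fin (2 * n + 1) → ι) := by
      intro p q r
      rw [← Fin.cons_update, Fin.update_cons_zero]
    rw [u, u] at h2
    exact h2
  have e4 : ∑ a, ∑ b, y' a * y b * oV (Fin.cons a (Fin.cons b I : Fin (2 * n + 1) → ι)) = -redo (redo oV y) y' I := by
    rw [e2, Finset.sum_comm, ← Finset.sum_neg_distrib]
    refine Finset.sum_congr rfl fun a _ => ?_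
    rw [← Finset.sum_neg_distrib]
    refine Finset.sum_congr rfl fun b _ => ?_
    rw [e3 a b]
    ring
  simp only [sub_mul, Finset.sum_sub_distrib]
  rw [e4, ← e2]
  ring

theorem contr_plane (hV : Or (2 * n + 1 + 1) V oV) (I : Fin (2 * n) → ι) :
    ∑ J : Fin (2 * 1) → ι, fo y y' J * oV (ct2 I J) = 2 * redo (redo oV y) y' I := by
  have h1 : ∀ f : ι → ι → A, ∑ J : Fin (2 * 1) → ι, f (J 0) (J 1) = ∑ a, ∑ b, f a b := sum2
  rw [← plane_sum hV, ← h1 fun a b => (y a * y' b - y' a * y b) * oV (Fin.cons a (Fin.cons b I : Fin (2 * n + 1) → ι))]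
  refine Finset.sum_congr rfl fun J _ => ?_
  rw [oV_rot hV]
  rfl

/-- **the relative sign** -/
theorem sgT_frame (hV : Or (2 * n + 1 + 1) V oV) (hy : Sec V y) (hy' : Sec V y') (h0 : ∑ l, y l * y' l = 0) :
    sgT (m := n) (l := 1) (redP (redP V y) y') (fP y y') (redo (redo oV y) y') (fo y y') oV = 1 := by
  have hL : Or (2 * n) (redP (redP V y) y') (redo (redo oV y) y') := (hV.red hy).red (hy'.red h0)
  have hE : Or (2 * 1) (fP y y') (fo y y') := Or.frame2 hy.un hy'.un h0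
  unfold sgT sgn3
  rw [sgU_push hL hE]
  have e1 : ∀ K : Fin (2 * n) → ι, redo (redo oV y) y' K * ∑ L : Fin (2 * 1) → ι, fo y y' L * oV (ct2 K L) =
      2 * (redo (redo oV y) y' K * redo (redo oV y) y' K) := by
    intro K
    rw [contr_plane hV]
    ring
  simp only [e1]
  rw [← Finset.mul_sum, hL.nrm]
  have h2 : ((2 * 1).factorial : ℝ) = 2 := by norm_num [Nat.factorial]
  have h3 : (2 : A) * ((2 * n).factorial : A) = (((2 : ℝ) * ((2 * n).factorial : ℝ))) • (1 : A) := by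
    rw [Algebra.smul_def, map_mul, map_natCast, map_ofNat, mul_one]
  rw [h2, h3, smul_smul, inv_mul_cancel₀ (mul_ne_zero two_ne_zero (Nat.cast_ne_zero.2 (Nat.factorial_ne_zero _))), one_smul]

end two

/-! ### the class in rank two -/

section one

variable {ι : Type*} [Fintype ι] [DecidableEq ι] {A : Type*} [CommRing A] [Algebra ℝ A] {B : Type*} [Ring B] [Algebra ℝ B]
  {G : GDA B} {φ : Fun0 A G} {P : Matrix ι ι A}

theorem eulG_one' {o : (Fin (2 * 1) → ι) → A} : eulG (m := 1) φ P o = -eu2 φ P o := by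
  unfold eulG eu2
  have e1 : (((4 * Real.pi) ^ 1 * (1 : ℕ).factorial : ℝ)) = 4 * Real.pi := by
    rw [Nat.factorial_one, pow_one, Nat.cast_one, mul_one]
  rw [e1, ZG_St, ← neg_smul]
  congr 1
  refine St_congr fun I => ?_
  unfold TR
  rw [Fin.prod_univ_one]
  rfl

theorem hEG_one' {o : (Fin 2 → ι) → A} (h : Or 2 P o) : hEG (m := 1) φ h = -hE2 φ h := by
  unfold hEG hE2
  rw [GDA.cl_neg]
  exact GDA.cl_congr eulG_one' _ _

theorem hsg_one {s : A} (h : s * s = 1) (h1 : s = 1) : hsg φ h = 1 := by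
  rw [← GDA.cl_one]
  exact GDA.cl_congr (by rw [h1, map_one]) _ _

theorem hEG_congrP {m : ℕ} {Q : Matrix ι ι A} {o : (Fin (2 * m) → ι) → A} (e : P = Q) (h : Or (2 * m) P o)
    (h' : Or (2 * m) Q o) : hEG φ h = hEG φ h' := by
  subst e
  rfl

end one

/-! ### the rotating frame -/

section whit

variable {X : Space} {ι : Type*} [Fintype ι] [DecidableEq ι] {c : Circ X} {y y' : ι → SF X}

/-- the orientation of the complement as invariant functions -/
def RotF.oL (h : RotF c y y') {n : ℕ} (oV : (Fin (2 * n + 1 + 1) → ι) → SB c) (I : Fin (2 * n) → ι) : SB c :=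
  (1 / 2 : ℝ) • ∑ a, ∑ b, h.o ![a, b] * oV (Fin.cons a (Fin.cons b I : Fin (2 * n + 1) → ι))

theorem RotF.val_oL (h : RotF c y y') {n : ℕ} {V : Matrix ι ι (SB c)} {oV : (Fin (2 * n + 1 + 1) → ι) → SB c}
    (hV : Or (2 * n + 1 + 1) V oV) (I : Fin (2 * n) → ι) :
    (SB c).val (h.oL oV I) = redo (redo (fun J => (SB c).val (oV J)) y) y' I := by
  have hVX : Or (2 * n + 1 + 1) (V.map ((SB c).val : SB c →+* SF X)) (fun J => (SB c).val (oV J)) :=
    hV.map' ((SB c).val : SB c →+* SF X)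
  have h1 := plane_sum (y := y) (y' := y') hVX I
  unfold RotF.oL
  rw [map_smul, map_sum]
  have h2 : ∑ a, (SB c).val (∑ b, h.o ![a, b] * oV (Fin.cons a (Fin.cons b I : Fin (2 * n + 1) → ι))) =
      2 * redo (redo (fun J => (SB c).val (oV J)) y) y' I := by
    rw [← h1]
    refine Finset.sum_congr rfl fun a _ => ?_
    rw [map_sum]
    refine Finset.sum_congr rfl fun b _ => ?_
    rw [map_mul]
    rfl
  rw [h2, two_mul, smul_add, ← add_smul]
  norm_num

theorem RotF.whit (h : RotF c y y') {n : ℕ} {V : Matrix ι ι (SB c)} {oV : (Fin (2 * (n + 1)) → ι) → SB c}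
    (hV : Or (2 * (n + 1)) V oV) (s1 : Sec (V.map (SB c).val) y) (s2 : Sec (V.map (SB c).val) y') :
    ∃ (L : Matrix ι ι (SB c)) (oL : (Fin (2 * n) → ι) → SB c) (hL : Or (2 * n) L oL), L = V - h.E ∧ L * h.E = 0 ∧
      h.E * L = 0 ∧ (∀ I, (SB c).val (oL I) =
        redo (redo (fun J : Fin (2 * n + 1 + 1) → ι => (SB c).val (oV J)) y) y' I) ∧
      hEG (FB c) hV = -(h.ec * hEG (FB c) hL) := by
  have hV' : Or (2 * n + 1 + 1) V oV := hV
  have hVX : Or (2 * n + 1 + 1) (V.map (SB c).val) (fun J => (SB c).val (oV J)) :=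
    hV.map' ((SB c).val : SB c →+* SF X)
  have hLX : Or (2 * n) (redP (redP (V.map (SB c).val) y) y')
      (redo (redo (fun J : Fin (2 * n + 1 + 1) → ι => (SB c).val (oV J)) y) y') := (hVX.red s1).red (s2.red h.n3)
  have eE : h.E.map (SB c).val = fP y y' := rfl
  have eL : (V - h.E).map (SB c).val = redP (redP (V.map (SB c).val) y) y' := by
    rw [redP_redP]
    rfl
  have eo : (fun I => (SB c).val (h.oL oV I)) = redo (redo (fun J : Fin (2 * n + 1 + 1) → ι => (SB c).val (oV J)) y) y' :=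
    funext (h.val_oL hV')
  have hL : Or (2 * n) (V - h.E) (h.oL oV) := by
    refine Or.of_inj ((SB c).val : SB c →+* SF X) Subtype.val_injective ?_
    have h1 : Or (2 * n) ((V - h.E).map (SB c).val) (fun I => (SB c).val (h.oL oV I)) := by
      rw [eL, eo]
      exact hLX
    exact h1
  have mz : (0 : Matrix ι ι (SB c)).map (SB c).val = 0 := rfl
  have LE : (V - h.E) * h.E = 0 := SB_inj (by
    rw [Matrix.map_mul, eL, eE, red_fP s1 s2 h.n3, mz])
  have EL : h.E * (V - h.E) = 0 := SB_inj (by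
    rw [Matrix.map_mul, eL, eE, fP_red hVX.sym s1 s2 h.n3, mz])
  have hE : Or (2 * 1) h.E h.o := h.or
  have hT : Or (2 * (n + 1)) (V - h.E + h.E) oV := by
    rw [sub_add_cancel]
    exact hV
  refine ⟨V - h.E, h.oL oV, hL, rfl, LE, EL, h.val_oL hV', ?_⟩
  have w := hEG_add (m := n) (l := 1) (FCylB c) hL hE hT LE
  have hs : sgT (m := n) (l := 1) (V - h.E) h.E (h.oL oV) h.o oV = 1 := by
    refine Subtype.val_injective ?_
    have e1 := sgn3_map (m := n) (l := 1) (SB c).val (h.oL oV) h.o (push (uPQ (V - h.E) h.E) oV)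
    have e2 : (fun K => (SB c).val (push (uPQ (V - h.E) h.E) oV K)) =
        push (uPQ (redP (redP (V.map (SB c).val) y) y') (fP y y')) (fun J => (SB c).val (oV J)) := by
      funext K
      have e3 := push_map ((SB c).val : SB c →+* SF X) (uPQ (V - h.E) h.E) oV K
      have e4 : (uPQ (V - h.E) h.E).map (SB c).val = uPQ (redP (redP (V.map (SB c).val) y) y') (fP y y') := by
        rw [← eL, ← eE]
        refine Matrix.ext fun i j => ?_
        rcases i with i | i <;> rfl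
      rw [← e4]
      exact e3
    rw [e2, eo] at e1
    exact e1.trans (sgT_frame (n := n) hVX s1 s2 h.n3)
  rw [hsg_one _ hs, one_mul, hEG_one' h.or, h.hE2, neg_neg] at w
  rw [hEG_congrP (sub_add_cancel V h.E).symm hV hT, w, mul_comm h.ec]

/-! ### Pontryagin classes -/

section pont

variable {A : Type*} [CommRing A] [Algebra ℝ A] {B : Type*} [Ring B] [Algebra ℝ B] {G : GDA B} {φ : Fun0 A G} {P : Matrix ι ι A}

/-- algebra of the normalisation -/
theorem elc_norm {E : Type*} [CommRing E] [Algebra ℝ E] (J : E) (hJ : J * J = -1) (t : ℝ) (p q : ℕ → E)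
    (h : ∀ j, p j = J ^ j * (t ^ j • q j)) (i : ℕ) :
    t ^ (2 * i) • elc q (2 * i) = ((-1 : ℝ) ^ i) • elc p (2 * i) := by
  have e1 : p = fun j => (t • J) ^ j * q j := by
    funext j
    rw [h, smul_pow, smul_mul_assoc, mul_smul_comm]
  have e2 : (t • J) ^ (2 * i) = (((-1 : ℝ) ^ i) * t ^ (2 * i)) • (1 : E) := by
    rw [smul_pow, pow_mul J, pow_two J, hJ]
    rcases Nat.even_or_odd i with hi | hi
    · rw [hi.neg_one_pow, hi.neg_one_pow, one_mul]
    · rw [hi.neg_one_pow, hi.neg_one_pow, smul_neg, neg_one_mul, neg_smul]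
  have e3 : ((-1 : ℝ) ^ i) * (-1) ^ i = 1 := by rw [← mul_pow]; norm_num
  rw [e1, elc_homog, e2, smul_mul_assoc, one_mul, smul_smul, ← mul_assoc, e3, one_mul]

/-- the total class of a plane -/
theorem elc_plane {E : Type*} [CommRing E] [Algebra ℝ E] (x : E) (p : ℕ → E) (hp : ∀ j, p j = x ^ j + (-x) ^ j) :
    elc p 0 = 1 ∧ elc p 1 = 0 ∧ elc p 2 = -(x ^ 2) ∧ ∀ j, elc p (j + 3) = 0 := by
  have e0 : p = fun j => x ^ j + (-x) ^ j := funext hp
  have h1 : ∀ y : E, elc (fun j => y ^ j) 1 = y := fun y => by rw [elc_one, pow_one]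
  have h2 : ∀ (y : E) (j : ℕ), elc (fun j => y ^ j) (j + 2) = 0 := fun y j => elc_single y j
  refine ⟨elc_zero _, ?_, ?_, fun j => ?_⟩
  · rw [elc_one, hp, pow_one, pow_one, add_neg_cancel]
  · rw [e0, elc_add]
    rw [Finset.Nat.sum_antidiagonal_eq_sum_range_succ (fun a b => elc (fun j => x ^ j) a * elc (fun j => (-x) ^ j) b)]
    simp only [Finset.sum_range_succ, Finset.sum_range_zero, zero_add, Nat.sub_zero]
    rw [h1, h1, elc_zero, h2 (-x) 0, h2 x 0]
    ring
  · rw [e0, elc_add]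
    refine Finset.sum_eq_zero fun z hz => ?_
    have hz' := Finset.HasAntidiagonal.mem_antidiagonal.1 hz
    rcases Nat.lt_or_ge z.1 2 with h | h
    · obtain ⟨m, hm⟩ : ∃ m, z.2 = m + 2 := ⟨z.2 - 2, by omega⟩
      rw [hm, h2, mul_zero]
    · obtain ⟨m, hm⟩ : ∃ m, z.1 = m + 2 := ⟨z.1 - 2, by omega⟩
      rw [hm, h2, zero_mul]

/-- removing a plane -/
theorem elc_VL {E : Type*} [CommRing E] [Algebra ℝ E] (x : E) (pV pL p : ℕ → E) (hp : ∀ j, p j = x ^ j + (-x) ^ j)
    (hV : ∀ j, pV j = pL j + p j) (i : ℕ) :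
    elc pV (2 * (i + 1)) = elc pL (2 * (i + 1)) - x ^ 2 * elc pL (2 * i) := by
  obtain ⟨p0, p1, p2, p3⟩ := elc_plane x _ hp
  have e1 : pV = fun j => pL j + p j := funext hV
  have e3 : (2 * (i + 1), 0) ∈ Finset.HasAntidiagonal.antidiagonal (2 * (i + 1)) :=
    Finset.HasAntidiagonal.mem_antidiagonal.2 (add_zero _)
  have e4 : (2 * i, 2) ∈ (Finset.HasAntidiagonal.antidiagonal (2 * (i + 1))).erase (2 * (i + 1), 0) := by
    refine Finset.mem_erase.2 ⟨?_, Finset.HasAntidiagonal.mem_antidiagonal.2 (by ring)⟩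
    intro h5
    have := congrArg Prod.snd h5
    change 2 = 0 at this
    omega
  rw [e1, elc_add, ← Finset.add_sum_erase _ _ e3, ← Finset.add_sum_erase _ _ e4, Finset.sum_eq_zero, p0, p2]
  · ring
  · intro z hz
    have hz1 := Finset.mem_erase.1 hz
    have hz2 := Finset.mem_erase.1 hz1.2
    have hz3 := Finset.HasAntidiagonal.mem_antidiagonal.1 hz2.2
    rcases z with ⟨a, b⟩
    change a + b = 2 * (i + 1) at hz3
    change elc _ a * elc _ b = 0
    have hb0 : b ≠ 0 := by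
      rintro rfl
      exact hz2.1 (Prod.ext (by change a = 2 * (i + 1); omega) rfl)
    have hb2 : b ≠ 2 := by
      rintro rfl
      exact hz1.1 (Prod.ext (by change a = 2 * i; omega) rfl)
    rcases eq_or_ne b 1 with rfl | hb1
    · rw [p1, mul_zero]
    · obtain ⟨m, rfl⟩ : ∃ m, b = m + 3 := ⟨b - 3, by omega⟩
      rw [p3, mul_zero]

theorem alg_hP {E : Type*} [CommRing E] [Algebra ℝ E] {a b c x u v w : E} {i : ℕ} (hb : b = ((-1 : ℝ) ^ (i + 1)) • v)
    (hc : c = ((-1 : ℝ) ^ i) • w) (hu : u = v - x ^ 2 * w) (ha : a = ((-1 : ℝ) ^ (i + 1)) • u) : a = b + x ^ 2 * c := by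
  have e5 : ((-1 : ℝ) ^ i * -1) = -(-1) ^ i := by ring
  rw [ha, hb, hc, hu, pow_succ, smul_sub, mul_smul_comm, e5, neg_smul, neg_smul, sub_neg_eq_add]

/-- the recursion -/
theorem alg_top {E : Type*} [CommRing E] [Algebra ℝ E] (v l : ℕ → E) (x : E) (h0 : v 0 = 1) (l0 : l 0 = 1)
    (h : ∀ i, v (i + 1) = l (i + 1) + x ^ 2 * l i) (k : ℕ) :
    l k = ∑ i ∈ Finset.range (k + 1), ((-1 : ℝ) ^ i) • (x ^ (2 * i) * v (k - i)) := by
  induction k with
  | zero => rw [Finset.sum_range_one, pow_zero, one_smul, mul_zero, pow_zero, one_mul, h0, l0]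
  | succ k ih =>
    rw [Finset.sum_range_succ']
    have h4 : ∀ i ∈ Finset.range (k + 1), ((-1 : ℝ) ^ (i + 1)) • (x ^ (2 * (i + 1)) * v (k + 1 - (i + 1))) =
        -(x ^ 2 * (((-1 : ℝ) ^ i) • (x ^ (2 * i) * v (k - i)))) := by
      intro i _
      rw [Nat.add_sub_add_right, pow_succ, mul_neg_one, neg_smul, mul_add, mul_one, pow_add, mul_smul_comm]
      congr 2
      ring
    rw [Finset.sum_congr rfl h4, Finset.sum_neg_distrib, ← Finset.mul_sum, ← ih, pow_zero, one_smul, mul_zero, pow_zero,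
      one_mul, Nat.sub_zero, h]
    ring

/-- Pontryagin classes from the normalised power sums -/
theorem rc_hP (hPP : P * P = P) (i : ℕ) :
    rc G (hP φ hPP i) = ((-1 : ℝ) ^ i) • elc (hT (φ.C.idem (cidem hPP))) (2 * i) := by
  have h1 := elc_norm (GDA.hI G) (GDA.hI_sq (G := G)) (1 / (2 * Real.pi)) (hT (φ.C.idem (cidem hPP)))
    (fun j => rc G (GDA.hps (φ.idem hPP) j)) (fun j => by unfold hT; rw [hps_real hPP]) i
  rw [← h1, ← map_elc]
  exact map_smul (rc G) _ _

end pont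

section top

variable (h : RotF c y y')

/-- `p (V) = (1 + [dη]^2) p (L)` -/
theorem RotF.hP_succ {V L : Matrix ι ι (SB c)} (hL : L * L = L) (hV : V * V = V) (e : L + h.E = V) (h1 : L * h.E = 0)
    (h2 : h.E * L = 0) (i : ℕ) : hP (FB c) hV (i + 1) = hP (FB c) hL (i + 1) + h.ec ^ 2 * hP (FB c) hL i := by
  subst e
  have hx : ∀ j, hT ((FB c).C.idem (cidem h.or.idem)) j = rc (GB c) h.ec ^ j + (-rc (GB c) h.ec) ^ j := by
    intro j
    rw [hT_two (CylB c) h.or, h.hE2, map_neg, neg_neg, add_comm]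
  have e2 := elc_VL (rc (GB c) h.ec) _ _ _ hx (fun j => hT_radd (CylB c) hL h.or.idem hV h1 h2 j) i
  have e3 : rc (GB c) (hP (FB c) hV (i + 1)) = rc (GB c) (hP (FB c) hL (i + 1)) +
      rc (GB c) h.ec ^ 2 * rc (GB c) (hP (FB c) hL i) :=
    alg_hP (rc_hP hL (i + 1)) (rc_hP hL i) e2 (rc_hP hV (i + 1))
  have e4 : rc (GB c) (hP (FB c) hL (i + 1) + h.ec ^ 2 * hP (FB c) hL i) = rc (GB c) (hP (FB c) hL (i + 1)) +
      rc (GB c) h.ec ^ 2 * rc (GB c) (hP (FB c) hL i) := by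
    rw [map_add, map_mul, map_pow]
  exact rc_inj (e3.trans e4.symm)

theorem hp_eq_hP {ι : Type} [Fintype ι] [DecidableEq ι] {A : Type*} [CommRing A] [Algebra ℝ A] {B : Type*} [Ring B]
    [Algebra ℝ B] {G : GDA B} {φ : Fun0 A G} {P : Matrix ι ι A} (hPP : P * P = P) (k : ℕ) : hp φ hPP k = hP φ hPP k := by
  unfold hp hP
  rw [_root_.one_div, inv_pow]

end top

/-- **the top Pontryagin class of the complement** -/
theorem RotF.pont_top {X : Space} {ι : Type} [Fintype ι] [DecidableEq ι] {c : Circ X} {y y' : ι → SF X}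
    (h : RotF c y y') {n : ℕ} {V L : Matrix ι ι (SB c)} {oV : (Fin (2 * (n + 1)) → ι) → SB c} (hV : Or (2 * (n + 1)) V oV)
    {oL : (Fin (2 * n) → ι) → SB c} (hL : Or (2 * n) L oL) (e : L = V - h.E) (h1 : L * h.E = 0) (h2 : h.E * L = 0) :
    hEG (FB c) hL * hEG (FB c) hL =
      ∑ i ∈ Finset.range (n + 1), ((-1 : ℝ) ^ i) • (h.ec ^ (2 * i) * hP (FB c) hV.idem (n - i)) := by
  have e' : L + h.E = V := by rw [e, sub_add_cancel]
  rw [hEG_sq (sqG_B c) hL, hp_eq_hP]
  exact alg_top (fun k => hP (FB c) hV.idem k) (fun k => hP (FB c) hL.idem k) h.ec (hP_zero _) (hP_zero _)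
    (fun i => h.hP_succ hL.idem hV.idem e' h1 h2 i) n

end whit

end Pool.Agent.Lib.MP_ccbbf6_gt.L5
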