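import Pool.Agent.Lib.MP_ccbbf6_gt.L5.FRG
import Pool.Agent.Lib.MP_ccbbf6_gt.L5.PIL
import Pool.Agent.Lib.MP_ccbbf6_gt.L5.RG3
import Pool.Agent.Lib.MP_ccbbf6_gt.L5.RG7b
import Pool.Agent.Lib.MP_ccbbf6_gt.L5.TP16

/-!
# Level 6, RG9: the relations (R1), (R2) and freeness for a Blaschke manifold, `κ = 2 n + 1` (helper67)
-/

set_option autoImplicit false
set_option maxSynthPendingDepth 3
set_option maxHeartbeats 400000
set_option linter.unusedSectionVars false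

open Set Filter Topology Matrix
open scoped ContDiff

noncomputable section

namespace Pool.Agent.Lib.MP_ccbbf6_gt.L5.RG

open Geo L4 L4.FR L4.ORI WK FR6

variable {N n m : ℕ} {M : Type} [MetricSpace M] [CompactSpace M] {𝒜 : SDist (N + 1) M} {hB : Bl M}
  (D : GeoD 𝒜 hB (2 * n + 1) m) (t : TEmb 𝒜)

/-- the orientation of `V` on `D`, as invariant functions -/
def oQ (I : Fin (2 * (n + 1)) → Fin t.D) : SB (circD (𝒜 := 𝒜) hB) := (FD 𝒜 hB).g (D.oG t I)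

theorem orQ : Or (2 * (n + 1)) (Vp t hB D.hk D.hL) (oQ D t) :=
  (D.orG t).map' ((FD 𝒜 hB).g : SF (spF 𝒜) →+* SB (circD (𝒜 := 𝒜) hB))

theorem hE_Q : hEG (FB (circD (𝒜 := 𝒜) hB)) (orQ D t) = ((-1 : ℝ) ^ (n + 1)) • (q2 D - q1 D) := by
  have h1 := he_hEG (FD 𝒜 hB) (D.orG t)
  rw [D.hEV, map_smul, map_sub, he_FD1, he_FD2] at h1
  exact h1.symm

theorem gF_dp2 : (gF hB).comp (dp2 𝒜) = (gF hB).comp (dp1 𝒜) := SMap_ext fun z =>
  Subtype.ext (Prod.ext z.2.1 z.2.2.1)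

theorem sec1 : Sec ((Vp t hB D.hk D.hL).map (SB (circD (𝒜 := 𝒜) hB)).val) (yV t hB) :=
  (TE.sec_yK t hB D.hk D.hL).map (pf (dp1 𝒜))

theorem sec2 : Sec ((Vp t hB D.hk D.hL).map (SB (circD (𝒜 := 𝒜) hB)).val) (yV' t hB) := by
  have h1 := (TE.sec_yK t hB D.hk D.hL).map (pf (dp2 𝒜))
  have h2 : ((TE.PV t hB D.hk D.hL).map (pf (gF hB))).map (pf (dp2 𝒜)) = (TE.PV t hB D.hk D.hL).map (pf ((gF hB).comp (dp2 𝒜))) := rfl
  rw [h2, gF_dp2] at h1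
  exact h1

include t in
theorem rel_hm [MeasurableSpace M] [BorelSpace M] (hn : 1 ≤ 2 * n) : hm m (q1 D) (q2 D) = 0 := by
  have h1 : hm m (q1 D) (q2 D) = Ideal.Quotient.mk (GB (circD (𝒜 := 𝒜) hB)).Ex (hm m (rx1 D) (rx2 D)) := by
    unfold hm q1 q2
    rw [map_sum]
    refine Finset.sum_congr rfl fun j _ => ?_
    rw [map_mul, map_pow, map_pow]
  rw [h1, Ideal.Quotient.eq_zero_iff_mem]
  exact ⟨toB _ (rhoD D hn t).bξ, Subtype.ext (rhoD D hn t).dξ⟩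

include t in
theorem rel_pow [MeasurableSpace M] [BorelSpace M] (hn : 1 ≤ 2 * n) : q1 D ^ (m + 1) = 0 := by
  have h1 : (rx1 D) ^ (m + 1) = 0 := (rhoD D hn t).px
  unfold q1
  rw [← map_pow, h1, map_zero]

/-- the Pontryagin classes of `V` -/
theorem hP_V {b : ℝ} (c3 : PTd (n + 1) (TE.PV_idem t hB D.hk D.hL) = Asr b D.coh.k1 D.coh.k2)
    (c4 : Per (n + 1) (hpb (TE.PV_idem t hB D.hk D.hL))) (i : ℕ) :
    hP (FB (circD (𝒜 := 𝒜) hB)) (orQ D t).idem i =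
      if (n + 1) ∣ 2 * i then PowerSeries.coeff (2 * i / (n + 1)) (Asr b (q1 D) (q2 D)) else 0 := by
  rw [hP_pn]
  exact cVP D t c3 c4 (2 * i)

/-- the algebra of (R2) -/
theorem alg_R2 {R : Type*} [CommRing R] [Algebra ℝ R] {b : ℝ} {l u1 u2 : R} (hn : 1 ≤ n) {f : ℕ → R}
    (hf : ∀ i, f i = if (n + 1) ∣ 2 * i then PowerSeries.coeff (2 * i / (n + 1)) (Asr b u1 u2) else 0) :
    ∃ ρ : ℝ, (Even n → ρ = 0) ∧ (∀ k, n = 2 * k + 1 → ρ = (-1) ^ k * b) ∧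
      ∑ i ∈ Finset.range (n + 1), ((-1 : ℝ) ^ i) • (l ^ (2 * i) * f (n - i)) =
      ((-1 : ℝ) ^ n) • l ^ (2 * (n + 1) - 2) + ρ • ((u1 + u2) * l ^ (n + 1 - 2)) := by
  have f0 : f 0 = 1 := by
    rw [hf, mul_zero, if_pos (dvd_zero _), Nat.zero_div, coeff_Asr_eq]
    simp
  have fz : ∀ i, i ≤ n → i ≠ 0 → 2 * i ≠ n + 1 → f i = 0 := fun i hi h0 h1 => by
    rw [hf, if_neg]
    rintro ⟨c, hc⟩
    have hc1 : c < 2 := by
      by_contra h
      have h2 : (n + 1) * 2 ≤ (n + 1) * c := Nat.mul_le_mul_left _ (by omega)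
      omega
    have hc0 : c ≠ 0 := fun h => by
      rw [h, mul_zero] at hc
      omega
    have hc2 : c = 1 := by omega
    rw [hc2, mul_one] at hc
    exact h1 hc
  have e0 : 2 * (n + 1) - 2 = 2 * n := by omega
  have e1 : n + 1 - 2 = n - 1 := by omega
  rw [Finset.sum_range_succ, Nat.sub_self, f0, mul_one, e0, e1]
  rcases Nat.even_or_odd n with hp | hp
  · refine ⟨0, fun _ => rfl, fun k hk => absurd hp (by rw [Nat.not_even_iff_odd]; exact ⟨k, hk⟩), ?_⟩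
    rw [zero_smul, add_zero, Finset.sum_eq_zero, zero_add]
    intro i hi
    have hi' := Finset.mem_range.1 hi
    obtain ⟨k, hk⟩ := hp
    rw [fz (n - i) (by omega) (by omega) (by omega), mul_zero, smul_zero]
  · obtain ⟨k, hk⟩ := hp
    refine ⟨(-1) ^ k * b, fun h => absurd h (by rw [Nat.not_even_iff_odd]; exact ⟨k, hk⟩), fun k' hk' => by
      obtain rfl : k = k' := by omega
      rfl, ?_⟩
    rw [Finset.sum_eq_single k]
    · have f1 : f (n - k) = b • (u1 + u2) := by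
        rw [hf, if_pos ⟨1, by omega⟩]
        have h1 : 2 * (n - k) / (n + 1) = 1 := by
          have h2 : 2 * (n - k) = n + 1 := by omega
          rw [h2, Nat.div_self (Nat.succ_pos n)]
        rw [h1, coeff_Asr_eq]
        simp
      have e2 : 2 * k = n - 1 := by omega
      rw [f1, e2, add_comm, mul_smul_comm, smul_smul, mul_comm (u1 + u2)]
    · intro i hi hik
      have hi' := Finset.mem_range.1 hi
      rw [fz (n - i) (by omega) (by omega) (by omega), mul_zero, smul_zero]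
    · intro h
      exact absurd (Finset.mem_range.2 (by omega)) h

variable [MeasurableSpace M] [BorelSpace M]

/-- **(R1), (R2) and freeness** -/
theorem exists_rel (hn : 1 ≤ n) {p : M} {ψ : Om (spR (N + 1))} {Bf : Fm (N + 1)}
    (hcc : ConcD 𝒜 hB (2 * n + 1) m p ψ Bf D.u) {b : ℝ}
    (c3 : PTd (n + 1) (TE.PV_idem t hB D.hk D.hL) = Asr b D.coh.k1 D.coh.k2)
    (c4 : Per (n + 1) (hpb (TE.PV_idem t hB D.hk D.hL))) : ∃ (e : (GB (circD (𝒜 := 𝒜) hB)).HE) (ρ : ℝ),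
      (Even n → ρ = 0) ∧ (∀ k, n = 2 * k + 1 → ρ = (-1) ^ k * b) ∧ (rotF t hB).ec * e = ((-1 : ℝ) ^ (n + 1)) • (q1 D - q2 D) ∧
      e ^ 2 = ((-1 : ℝ) ^ n) • (rotF t hB).ec ^ (2 * (n + 1) - 2) +
        ρ • ((q1 D + q2 D) * (rotF t hB).ec ^ (n + 1 - 2)) ∧
      e ^ 2 * (q1 D ^ m * q2 D ^ (m - 1)) ≠ 0 := by
  obtain ⟨L, oL, hL, eL, h1, h2, h3, h4⟩ := (rotF t hB).whit (orQ D t) (sec1 D t) (sec2 D t)
  rw [hE_Q] at h4
  have R1 : (rotF t hB).ec * hEG (FB (circD (𝒜 := 𝒜) hB)) hL = ((-1 : ℝ) ^ (n + 1)) • (q1 D - q2 D) := by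
    have h5 := congrArg Neg.neg h4
    rw [neg_neg, ← smul_neg, neg_sub] at h5
    exact h5.symm
  have R2 := (rotF t hB).pont_top (orQ D t) hL eL h1 h2
  obtain ⟨ρ, hρ, hρ', eρ⟩ := alg_R2 (n := n) (b := b) (l := (rotF t hB).ec) (u1 := q1 D) (u2 := q2 D) hn
    (f := fun i => hP (FB (circD (𝒜 := 𝒜) hB)) (orQ D t).idem i) (hP_V D t c3 c4)
  refine ⟨hEG (FB (circD (𝒜 := 𝒜) hB)) hL, ρ, hρ, hρ', R1, ?_, ?_⟩
  · rw [pow_two, R2]
    exact eρ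
  · obtain ⟨ε, hε⟩ : ∃ ε : (GB (circD (𝒜 := 𝒜) hB)).Zc, ε = ⟨eulG (FB (circD (𝒜 := 𝒜) hB)) L oL, s_eulG, d_eulG hL⟩ :=
      ⟨_, rfl⟩
    have e1 : ((ε : BasR (circD (𝒜 := 𝒜) hB)) : Om (spD 𝒜)) = D.elp t := by
      have h5 : ((ε : BasR (circD (𝒜 := 𝒜) hB)) : Om (spD 𝒜)) =
          (FHom.inc (circD (𝒜 := 𝒜) hB)).h.f (eulG (FB (circD (𝒜 := 𝒜) hB)) L oL) := by rw [hε]; rfl
      rw [h5, FHom.eulG]
      have h6 : L.map (FHom.inc (circD (𝒜 := 𝒜) hB)).g = redP (redP (D.pVD t) (yV t hB)) (yV' t hB) := by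
        rw [redP_redP, eL]
        rfl
      have h7 : (fun I => (FHom.inc (circD (𝒜 := 𝒜) hB)).g (oL I)) =
          redo (redo (D.oVD t) (yV t hB)) (yV' t hB) := funext h3
      rw [h6, h7]
      rfl
    have hεq : hEG (FB (circD (𝒜 := 𝒜) hB)) hL = Ideal.Quotient.mk (GB (circD (𝒜 := 𝒜) hB)).Ex ε := by rw [hε]; rfl
    rw [hεq] at R1 ⊢
    refine D.free_HE (q := 2 * n) hcc (by omega) (c := circD hB) (η := ηF (yV t hB) (yV' t hB)) (Deg_ηF _ _) (rotF t hB).iη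
      (rotF t hB).idη (x1 := rx1 D) (x2 := rx2 D) (ε := ε) (lz := (rotF t hB).e) rfl rfl rfl ?_
      (s := (-1) ^ (n + 1)) (pow_ne_zero _ (by norm_num)) (cK := (-1) ^ (n + 1) * 2) ?_
      (mul_ne_zero (pow_ne_zero _ (by norm_num)) two_ne_zero) ?_
    · rw [e1]
      exact D.Deg_elp t
    · rw [e1]
      exact D.PI_elp t (by omega)
    · exact R1

end Pool.Agent.Lib.MP_ccbbf6_gt.L5.RG
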