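import Pool.Agent.Lib.MP_ccbbf6_gt.L5.RG2
import Pool.Agent.Lib.MP_ccbbf6_gt.L5.RG8
import Pool.Agent.Lib.MP_ccbbf6_gt.L5.RG9

/-!
# Level 6, RG10: (IIg) for a Blaschke manifold, `κ = 2 n + 1`; `κ = 7`, `m = 2` : `b² = 36` (helper67)
-/

set_option autoImplicit false
set_option maxSynthPendingDepth 3
set_option maxHeartbeats 400000
set_option linter.unusedSectionVars false

open Set Filter Topology Matrix
open scoped ContDiff

noncomputable section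

namespace Pool.Agent.Lib.MP_ccbbf6_gt.L5.RG

open Geo L4 L4.FR L4.ORI WK FR6

/-! ### numbers, `k = 8`, `m = 2` -/

theorem sg_four (c : ℕ) : FR6.sg (4 * c) = 1 := by
  have h1 : 4 * c = 2 * (2 * c) := by ring
  rw [h1, sg_even, pow_mul]
  norm_num

theorem elc_spr4 (s : ℕ → ℝ) : elc (spr 4 s) 4 = -(s 1) / 4 := by
  rw [elc_succ, Finset.sum_range_succ, Finset.sum_eq_zero]
  · have h4 : spr 4 s (3 + 1) = s 1 := spr_mul (h := 4) (by norm_num) _ 1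
    rw [h4, Nat.sub_self, elc_zero, smul_eq_mul]
    push_cast
    ring
  · intro k hk
    have hk' := Finset.mem_range.1 hk
    have h4 : ¬ 4 ∣ k + 1 := fun h => by
      have := Nat.le_of_dvd (Nat.succ_pos k) h
      omega
    rw [spr_not _ h4, mul_zero, mul_zero]

theorem elc_spr8 (s : ℕ → ℝ) : elc (spr 4 s) 8 = s 1 ^ 2 / 32 - s 2 / 8 := by
  have h4 : spr 4 s (3 + 1) = s 1 := spr_mul (h := 4) (by norm_num) _ 1
  have h8 : spr 4 s (7 + 1) = s 2 := spr_mul (h := 4) (by norm_num) _ 2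
  rw [elc_succ, Finset.sum_range_succ, Finset.sum_eq_single 3]
  · rw [h4, h8, Nat.sub_self, elc_zero, smul_eq_mul]
    have h5 : elc (spr 4 s) (7 - 3) = -(s 1) / 4 := elc_spr4 s
    rw [h5]
    push_cast
    ring
  · intro k hk hk3
    have hk' := Finset.mem_range.1 hk
    have h4 : ¬ 4 ∣ k + 1 := fun h => by
      obtain ⟨c, hc⟩ := h
      omega
    rw [spr_not _ h4, mul_zero, mul_zero]
  · intro h
    exact absurd (Finset.mem_range.2 (by norm_num)) h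

theorem coeff_Aser3 (b : ℝ) : PowerSeries.coeff 1 (Aser b ^ 3) = 3 * b ∧ PowerSeries.coeff 2 (Aser b ^ 3) = 3 + 3 * b ^ 2 := by
  have e : Aser b ^ 3 = 1 + PowerSeries.C (3 * b) * PowerSeries.X + PowerSeries.C (3 + 3 * b ^ 2) * PowerSeries.X ^ 2 +
      (PowerSeries.C (6 * b + b ^ 3) + PowerSeries.C (3 + 3 * b ^ 2) * PowerSeries.X + PowerSeries.C (3 * b) * PowerSeries.X ^ 2 +
        PowerSeries.X ^ 3) * PowerSeries.X ^ 3 := by
    unfold Aser
    simp only [map_add, map_mul, map_pow, map_ofNat]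
    ring
  rw [e]
  constructor
  · simp only [map_add, PowerSeries.coeff_C_mul, PowerSeries.coeff_one, PowerSeries.coeff_X, PowerSeries.coeff_X_pow,
      PowerSeries.coeff_mul_X_pow']
    norm_num
  · simp only [map_add, PowerSeries.coeff_C_mul, PowerSeries.coeff_one, PowerSeries.coeff_X, PowerSeries.coeff_X_pow,
      PowerSeries.coeff_mul_X_pow']
    norm_num

theorem coeff_P {b : ℝ} {P : PowerSeries ℝ} (h0 : PowerSeries.constantCoeff P = 1)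
    (h : ∀ j ≤ 2, PowerSeries.coeff j (P * (1 + 2 * PowerSeries.C b * PowerSeries.X)) = PowerSeries.coeff j (Aser b ^ 3)) :
    PowerSeries.coeff 1 P = b ∧ PowerSeries.coeff 2 P = 3 + b ^ 2 := by
  have e : P * (1 + 2 * PowerSeries.C b * PowerSeries.X) = P + PowerSeries.C (2 * b) * (P * PowerSeries.X) := by
    rw [map_mul, map_ofNat]
    ring
  have h1 := h 1 (by norm_num)
  have h2 := h 2 le_rfl
  rw [e, map_add, PowerSeries.coeff_C_mul, PowerSeries.coeff_succ_mul_X] at h1 h2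
  rw [(coeff_Aser3 b).1, PowerSeries.coeff_zero_eq_constantCoeff_apply, h0] at h1
  rw [(coeff_Aser3 b).2] at h2
  have h3 : PowerSeries.coeff 1 P = b := by linarith
  rw [h3] at h2
  exact ⟨h3, by nlinarith⟩

/-! ### (IIg) -/

variable {N n m : ℕ} {M : Type} [MetricSpace M] [CompactSpace M] {𝒜 : SDist (N + 1) M} {hB : Bl M}
  (D : GeoD 𝒜 hB (2 * n + 1) m) (t : TEmb 𝒜)

theorem perV : Per (n + 1) (hpb (TE.PV_idem t hB D.hk D.hL)) :=
  D.coh.perV (by omega) (TE.PV_idem t hB D.hk D.hL) fun x => by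
    refine (TE.PV_tr t hB D.hk D.hL x).trans ?_
    push_cast
    ring

variable [MeasurableSpace M] [BorelSpace M]

include t in
/-- **(IIg)** for a Blaschke manifold -/
theorem geo_II (hn : 2 ≤ n) (hm : 1 ≤ m) {p : M} {ψ : Om (spR (N + 1))} {Bf : Fm (N + 1)}
    (hcc : ConcD 𝒜 hB (2 * n + 1) m p ψ Bf D.u) {b : ℝ} {P : PowerSeries ℝ}
    (c2 : PTd (n + 1) (TE.PM_idem t (Nat.succ_pos N)) = evS D.coh.ku P)
    (c3 : PTd (n + 1) (TE.PV_idem t hB D.hk D.hL) = Asr b D.coh.k1 D.coh.k2)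
    {sT sV : ℕ → ℝ} (hT : ∀ i, elc (spr (n + 1) sT) i = spr (n + 1) (fun j => PowerSeries.coeff j P) i)
    (hV : ∀ i, elc (spr (n + 1) sV) i =
      spr (n + 1) (fun j => PowerSeries.coeff j (1 + 2 * PowerSeries.C b * PowerSeries.X)) i) :
    ∑ c ∈ Finset.range m, (-1) ^ ((n + 1) * (c + 1)) * (fun c => FR6.sg ((n + 1) * c) * sT c) (c + 1) /
      (((n + 1 : ℕ) : ℝ) * (c + 1) - 1) *
      elc (spr (n + 1) fun c => (fun c => FR6.sg ((n + 1) * c) * (sT c - sV c)) c / 2) ((n + 1) * (m - 1 - c)) = 0 := by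
  obtain ⟨e, ρ, -, -, R1, R2, X2⟩ := exists_rel D t (by omega) hcc c3 (perV D t)
  exact (KGi D t c2 c3 (perV D t)).II (rotF t hB) (by omega) hm hT hV (s := (-1) ^ (n + 1)) (t := (-1) ^ n) (ρ := ρ)
    (pow_ne_zero _ (by norm_num)) (pow_ne_zero _ (by norm_num)) (rel_hm D t (by omega)) (rel_pow D t (by omega)) R1 R2 X2

/-- the relations in `HE` (hypotheses of `IIg`, `IIIg`) -/
structure GDat (R : Type) [CommRing R] [Algebra ℝ R] (h m : ℕ) (b : ℝ) (sT sV : ℕ → ℝ) where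
  /-- `[dη]` -/
  l : R
  /-- the Euler class of the complement of the rotating plane -/
  e : R
  u1 : R
  u2 : R
  /-- classes of `T - V` at `q` -/
  B : ℕ → R
  /-- the differences -/
  D : ℕ → R
  ρ : ℝ
  h0 : hm m u1 u2 = 0
  p1 : u1 ^ (m + 1) = 0
  R1 : l * e = ((-1 : ℝ) ^ h) • (u1 - u2)
  R2 : e ^ 2 = ((-1 : ℝ) ^ (h - 1)) • l ^ (2 * h - 2) + ρ • ((u1 + u2) * l ^ (h - 2))
  X2 : e ^ 2 * (u1 ^ m * u2 ^ (m - 1)) ≠ 0
  B0 : B 0 = algebraMap ℝ R (2 * h * ((m : ℝ) - 1))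
  hB : ∀ j, 1 ≤ j → j ≤ h * m →
    ∃ r, B j = spr h (fun c => FR6.sg (h * c) * (sT c - sV c)) j • u1 ^ (j / h) + (u1 - u2) * r
  hD : ∀ c, D (h * c) = ((FR6.sg (h * c) * sT c) / (-1) ^ h) • (e * ∑ i ∈ Finset.range c, u1 ^ i * u2 ^ (c - 1 - i))
  hD' : ∀ j, ¬ h ∣ j → D j = 0
  hDe : ∀ j, ∃ r, D j = e * r
  hF : ∀ i, h * (m - 1) < i → i + 1 ≤ h * m → l * elc (GP B D l) i = 0
  ρ_odd : Odd h → ρ = 0
  ρ_even : ∀ k, h = 2 * k + 2 → ρ = (-1) ^ k * b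

include t in
/-- **the data of a Blaschke manifold** -/
theorem geo_dat (hn : 1 ≤ n) {p : M} {ψ : Om (spR (N + 1))} {Bf : Fm (N + 1)}
    (hcc : ConcD 𝒜 hB (2 * n + 1) m p ψ Bf D.u) {b : ℝ} {P : PowerSeries ℝ}
    (c2 : PTd (n + 1) (TE.PM_idem t (Nat.succ_pos N)) = evS D.coh.ku P)
    (c3 : PTd (n + 1) (TE.PV_idem t hB D.hk D.hL) = Asr b D.coh.k1 D.coh.k2)
    {sT sV : ℕ → ℝ} (hT : ∀ i, elc (spr (n + 1) sT) i = spr (n + 1) (fun j => PowerSeries.coeff j P) i)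
    (hV : ∀ i, elc (spr (n + 1) sV) i =
      spr (n + 1) (fun j => PowerSeries.coeff j (1 + 2 * PowerSeries.C b * PowerSeries.X)) i) :
    Nonempty (GDat (GB (circD (𝒜 := 𝒜) hB)).HE (n + 1) m b sT sV) := by
  obtain ⟨e, ρ, hρ, hρ', R1, R2, X2⟩ := exists_rel D t (by omega) hcc c3 (perV D t)
  obtain ⟨K, hK⟩ : ∃ K : KG (wd t hB D.hk) (n + 1) m b P (q1 D) (q2 D), K = KGi D t c2 c3 (perV D t) := ⟨_, rfl⟩
  have hs : ((-1 : ℝ) ^ (n + 1)) ≠ 0 := pow_ne_zero _ (by norm_num)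
  exact ⟨{
    l := (rotF t hB).ec
    e := e
    u1 := q1 D
    u2 := q2 D
    B := K.Bs
    D := Dsq (n + 1) sT ((-1) ^ (n + 1)) e (q1 D) (q2 D)
    ρ := ρ
    h0 := rel_hm D t (by omega)
    p1 := rel_pow D t (by omega)
    R1 := R1
    R2 := R2
    X2 := X2
    B0 := K.Bs_zero
    hB := fun j hj hjm => K.hB (Nat.succ_pos n) hT hV hj hjm
    hD := fun c => Dsq_mul (Nat.succ_pos n) sT _ e _ _ c
    hD' := fun j hj => Dsq_not sT _ e _ _ hj
    hDe := fun j => Dsq_e _ _ _ _ _ _ j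
    hF := fun i hi hi' => K.hF (rotF t hB) (Nat.succ_pos n) hT hs R1 hi hi'
    ρ_odd := fun h => hρ (by
      obtain ⟨k, hk⟩ := h
      exact ⟨k, by omega⟩)
    ρ_even := fun k hk => hρ' k (by omega) }⟩

/-- **`k = 8`, `m = 2` : `b² = 36`** -/
theorem b_sq {𝒜 : SDist (15 + 1) M} {hB : Bl M} (D : GeoD 𝒜 hB 7 2) (t : TEmb 𝒜) {p : M} {ψ : Om (spR (15 + 1))}
    {Bf : Fm (15 + 1)} (hcc : ConcD 𝒜 hB 7 2 p ψ Bf D.u) {b : ℝ} {P : PowerSeries ℝ}
    (c1 : PowerSeries.constantCoeff P = 1) (c2 : PTd 4 (TE.PM_idem t (Nat.succ_pos 15)) = evS D.coh.ku P)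
    (c3 : PTd 4 (TE.PV_idem t hB D.hk D.hL) = Asr b D.coh.k1 D.coh.k2)
    (c5 : ∀ j ≤ 2, PowerSeries.coeff j (P * (1 + 2 * PowerSeries.C b * PowerSeries.X)) =
      PowerSeries.coeff j (Aser b ^ 3)) : b ^ 2 = 36 := by
  obtain ⟨sT, hT⟩ := exists_sg c1 4
  obtain ⟨sV, hV⟩ := exists_sg (P := 1 + 2 * PowerSeries.C b * PowerSeries.X) (by simp) 4
  obtain ⟨p1, p2⟩ := coeff_P c1 c5
  have h1 := geo_II (n := 3) D t (by norm_num) (by norm_num) hcc c2 c3 hT hV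
  have t1 : sT 1 = -4 * b := by
    have h2 := hT (4 * 1)
    rw [spr_mul (by norm_num), p1] at h2
    have h3 : elc (spr 4 sT) (4 * 1) = -(sT 1) / 4 := elc_spr4 sT
    rw [h3] at h2
    linarith
  have t2 : sT 2 = -24 - 4 * b ^ 2 := by
    have h2 := hT (4 * 2)
    rw [spr_mul (by norm_num), p2] at h2
    have h3 : elc (spr 4 sT) (4 * 2) = sT 1 ^ 2 / 32 - sT 2 / 8 := elc_spr8 sT
    rw [h3, t1] at h2
    nlinarith
  have v1 : sV 1 = -8 * b := by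
    have h2 := hV (4 * 1)
    have h4 : PowerSeries.coeff 1 (1 + 2 * PowerSeries.C b * PowerSeries.X : PowerSeries ℝ) = 2 * b := by
      have e : (2 * PowerSeries.C b * PowerSeries.X : PowerSeries ℝ) = PowerSeries.C (2 * b) * PowerSeries.X := by
        rw [map_mul, map_ofNat]
      rw [e, map_add, PowerSeries.coeff_C_mul, PowerSeries.coeff_one, PowerSeries.coeff_X]
      norm_num
    rw [spr_mul (by norm_num), h4] at h2
    have h3 : elc (spr 4 sV) (4 * 1) = -(sV 1) / 4 := elc_spr4 sV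
    rw [h3] at h2
    linarith
  refine IIg_eight (τ := fun c => FR6.sg (4 * c) * sT c) (w := fun c => FR6.sg (4 * c) * (sT c - sV c)) ?_ ?_ ?_ h1
  · show FR6.sg (4 * 1) * sT 1 = _
    rw [sg_four, one_mul, t1]
  · show FR6.sg (4 * 2) * sT 2 = _
    rw [sg_four, one_mul, t2]
  · show FR6.sg (4 * 1) * (sT 1 - sV 1) = _
    rw [sg_four, one_mul, t1, v1]
    ring

end Pool.Agent.Lib.MP_ccbbf6_gt.L5.RG
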