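import Pool.Agent.Lib.MP_ccbbf6_gt.L4.FU1
import Pool.Agent.Lib.MP_ccbbf6_gt.L4.OMp
import Pool.Agent.Lib.MP_ccbbf6_gt.L4.OriD

/-!
# Level 5, DG1: the logarithm and the exponential map are smooth in both variables (helper2)
-/

set_option autoImplicit false
set_option linter.unusedSectionVars false
set_option linter.unusedVariables false

open Set Filter Topology Metric Real Module
open scoped ContDiff RealInnerProductSpace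

noncomputable section

namespace Pool.Agent.Lib.MP_ccbbf6_gt.L5

open Geo L4 L4.ORI

variable {n : ℕ} {M : Type*} [MetricSpace M] [CompactSpace M] (𝒜 : SDist n M)

/-- the logarithm -/
def lg (x y : M) : Eu n := dist x y • SDist.dirOf 𝒜 x y

variable {𝒜}

theorem lg_self (x : M) : lg 𝒜 x x = 0 := by
  unfold lg
  rw [dist_self, zero_smul]

theorem norm_lg (hB : Bl M) (x y : M) : ‖lg 𝒜 x y‖ = dist x y := by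
  by_cases h : y = x
  · rw [h, lg_self, norm_zero, dist_self]
  · unfold lg
    rw [norm_smul, (dirOf_spec hB h).1, mul_one, Real.norm_of_nonneg dist_nonneg]

theorem Ex_lg (hB : Bl M) (x y : M) : 𝒜.Ex x (lg 𝒜 x y) = y := by
  by_cases h : y = x
  · rw [h, lg_self, Ex_zero 𝒜 hB]
  · unfold lg
    rw [Ex_smul 𝒜 hB x (dirOf_spec hB h).1, (dirOf_spec hB h).2]

theorem lg_Ex (hB : Bl M) (x : M) {ξ : Eu n} (h1 : ‖ξ‖ < π) : lg 𝒜 x (𝒜.Ex x ξ) = ξ := by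
  by_cases h0 : ξ = 0
  · rw [h0, Ex_zero 𝒜 hB, lg_self]
  have hn : 0 < ‖ξ‖ := norm_pos_iff.2 h0
  have hu := norm_normalize h0
  have hEx : 𝒜.Ex x ξ = 𝒜.gv x (‖ξ‖⁻¹ • ξ) ‖ξ‖ := rfl
  have hd : dist x (𝒜.Ex x ξ) = ‖ξ‖ := dist_Ex 𝒜 hB x h1.le
  have hne : 𝒜.Ex x ξ ≠ x := by
    intro h
    rw [h, dist_self] at hd
    exact hn.ne hd
  obtain ⟨h2, h3⟩ := dirOf_spec (𝒜 := 𝒜) hB hne
  have h4 : SDist.dirOf 𝒜 x (𝒜.Ex x ξ) = ‖ξ‖⁻¹ • ξ := by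
    refine gv_inj (𝒜 := 𝒜) (p := x) hB h2 hu hn h1 ?_
    rw [hd] at h3
    rw [h3, hEx]
  unfold lg
  rw [h4, hd]
  exact smul_normv ξ

/-- first derivative of `d²/2` in charts -/
theorem fderiv_F_lg (hB : Bl M) {p q x y : M} (hx : x ∈ (𝒜.ψ p).source) (hy : y ∈ (𝒜.ψ q).source) (hd : dist x y < π)
    (h : Eu n) : fderiv ℝ (𝒜.F p q) (𝒜.ψ p x, 𝒜.ψ q y) (h, 0) = -⟪lg 𝒜 x y, DD 𝒜 p x h⟫ := by
  have hF : ContDiffAt ℝ ∞ (𝒜.F p q) (𝒜.ψ p x, 𝒜.ψ q y) := (contDiffAt_F_iff 𝒜 hx hy).2 (contDiffAt_F 𝒜 hB hd)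
  have hdiff : DifferentiableAt ℝ (𝒜.F p q) (𝒜.ψ p x, 𝒜.ψ q y) := hF.differentiableAt (by simp)
  rw [← exc_partial1 hdiff h]
  have hFx : ContDiffAt ℝ ∞ (𝒜.F x y) (0, 0) := contDiffAt_F 𝒜 hB hd
  have hdx : DifferentiableAt ℝ (𝒜.F x y) ((0 : Eu n), (0 : Eu n)) := hFx.differentiableAt (by simp)
  have h1 : HasFDerivAt (fun u' : Eu n => 𝒜.F x y (u', 0))
      ((fderiv ℝ (𝒜.F x y) (0, 0)).comp (ContinuousLinearMap.inl ℝ (Eu n) (Eu n))) (𝒜.ψ x x) := by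
    rw [𝒜.zero]
    exact HasFDerivAt.comp (g := 𝒜.F x y) (f := fun u : Eu n => (u, (0 : Eu n))) (0 : Eu n) hdx.hasFDerivAt
      (hasFDerivAt_prodMk_left 0 0)
  have h2 : HasFDerivAt (fun u => 𝒜.ψ x ((𝒜.ψ p).symm u)) (DD 𝒜 p x) (𝒜.ψ p x) := hasFDerivAt_DD 𝒜 hx
  have h3 : (fun u => 𝒜.ψ x ((𝒜.ψ p).symm u)) (𝒜.ψ p x) = 𝒜.ψ x x := by
    show 𝒜.ψ x ((𝒜.ψ p).symm (𝒜.ψ p x)) = 𝒜.ψ x x
    rw [(𝒜.ψ p).left_inv hx]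
  rw [← h3] at h1
  have h4 := h1.comp (𝒜.ψ p x) h2
  have h5 : (fun u => 𝒜.F p q (u, 𝒜.ψ q y)) =ᶠ[𝓝 (𝒜.ψ p x)]
      (fun u' : Eu n => 𝒜.F x y (u', 0)) ∘ fun u => 𝒜.ψ x ((𝒜.ψ p).symm u) := by
    have hc : ContinuousAt (fun u => (𝒜.ψ p).symm u) (𝒜.ψ p x) := (𝒜.ψ p).continuousAt_symm ((𝒜.ψ p).map_source hx)
    have hs : ∀ᶠ u in 𝓝 (𝒜.ψ p x), (𝒜.ψ p).symm u ∈ (𝒜.ψ x).source := by
      refine hc.eventually ((𝒜.ψ x).open_source.mem_nhds ?_)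
      show (𝒜.ψ p).symm (𝒜.ψ p x) ∈ (𝒜.ψ x).source
      rw [(𝒜.ψ p).left_inv hx]
      exact 𝒜.mem x
    filter_upwards [hs] with u hu
    rw [exc_F_shift 𝒜 hy u]
    show 𝒜.F p y (u, 0) = 𝒜.F x y (𝒜.ψ x ((𝒜.ψ p).symm u), 0)
    unfold SDist.F SDist.f
    simp only
    rw [(𝒜.ψ x).left_inv hu]
  rw [(h4.congr_of_eventuallyEq h5).fderiv]
  show fderiv ℝ (𝒜.F x y) (0, 0) (DD 𝒜 p x h, 0) = _
  rw [← exc_partial1 hdx]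
  have h6 := fderiv_F_Ex 𝒜 hB x (ξ := lg 𝒜 x y) (by rw [norm_lg hB]; exact hd) (DD 𝒜 p x h)
  rw [Ex_lg hB] at h6
  exact h6

/-! ### the metric as an operator -/

/-- the operator of the metric in the chart at `p` -/
def Gop (𝒜 : SDist n M) (p : M) (X : Eu n) : Eu n →L[ℝ] Eu n :=
  -((exists_riesz (n := n)).choose.comp ((((ContinuousLinearMap.compL ℝ (Eu n) (Eu n × Eu n) ℝ).flip
    (ContinuousLinearMap.inr ℝ (Eu n) (Eu n)))).comp ((fderiv ℝ (fderiv ℝ (𝒜.F p p)) (X, X)).comp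
      (ContinuousLinearMap.inl ℝ (Eu n) (Eu n)))))

theorem inner_Gop (p : M) (X a b : Eu n) : ⟪Gop 𝒜 p X a, b⟫ = GG 𝒜 p X a b := by
  unfold Gop GG
  rw [neg_apply, inner_neg_left]
  congr 1
  exact (exists_riesz (n := n)).choose_spec _ b

theorem contDiffAt_Gop {p x : M} (hx : x ∈ (𝒜.ψ p).source) : ContDiffAt ℝ ∞ (Gop 𝒜 p) (𝒜.ψ p x) := by
  unfold Gop
  have h1 : ContDiffAt ℝ ∞ (fderiv ℝ (fderiv ℝ (𝒜.F p p))) (𝒜.ψ p x, 𝒜.ψ p x) :=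
    ((contDiffAt_FX 𝒜 hx).fderiv_right (m := ∞) (by simp)).fderiv_right (by simp)
  have h2 : ContDiffAt ℝ ∞ (fun X : Eu n => fderiv ℝ (fderiv ℝ (𝒜.F p p)) (X, X)) (𝒜.ψ p x) :=
    ContDiffAt.comp (g := fderiv ℝ (fderiv ℝ (𝒜.F p p))) (f := fun X : Eu n => (X, X)) (𝒜.ψ p x) h1
      (contDiffAt_id.prodMk contDiffAt_id)
  exact (contDiffAt_const.clm_comp (contDiffAt_const.clm_comp (h2.clm_comp contDiffAt_const))).neg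

theorem Gop_CC {p x : M} (hx : x ∈ (𝒜.ψ p).source) (a h : Eu n) :
    ⟪Gop 𝒜 p (𝒜.ψ p x) (CC 𝒜 p x a), h⟫ = ⟪a, DD 𝒜 p x h⟫ := by
  rw [inner_Gop]
  conv_lhs => rw [← CC_DD 𝒜 hx h]
  rw [GG_eq 𝒜 hx]

theorem isUnit_Gop {p x : M} (hx : x ∈ (𝒜.ψ p).source) : IsUnit (Gop 𝒜 p (𝒜.ψ p x)) := by
  have hinj : Function.Injective (Gop 𝒜 p (𝒜.ψ p x) : Eu n →ₗ[ℝ] Eu n) := by
    rw [← LinearMap.ker_eq_bot, LinearMap.ker_eq_bot']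
    intro v hv
    have hv' : Gop 𝒜 p (𝒜.ψ p x) v = 0 := hv
    have h1 : ∀ a, ⟪DD 𝒜 p x v, a⟫ = 0 := by
      intro a
      have h2 := Gop_CC hx (DD 𝒜 p x v) (CC 𝒜 p x a)
      rw [CC_DD 𝒜 hx, DD_CC 𝒜 hx, hv', inner_zero_left] at h2
      exact h2.symm
    have h3 : DD 𝒜 p x v = 0 := by
      have := h1 (DD 𝒜 p x v)
      exact inner_self_eq_zero.1 this
    rw [← CC_DD 𝒜 hx v, h3, map_zero]
  have hsurj : Function.Surjective (Gop 𝒜 p (𝒜.ψ p x) : Eu n →ₗ[ℝ] Eu n) := LinearMap.injective_iff_surjective.1 hinj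
  let e : Eu n ≃L[ℝ] Eu n := (LinearEquiv.ofBijective (Gop 𝒜 p (𝒜.ψ p x) : Eu n →ₗ[ℝ] Eu n) ⟨hinj, hsurj⟩).toContinuousLinearEquiv
  have he : (e : Eu n →L[ℝ] Eu n) = Gop 𝒜 p (𝒜.ψ p x) := by
    ext v
    rfl
  refine ⟨⟨(e : Eu n →L[ℝ] Eu n), (e.symm : Eu n →L[ℝ] Eu n), ?_, ?_⟩, he⟩
  · ext v : 1
    exact e.apply_symm_apply v
  · ext v : 1
    exact e.symm_apply_apply v

theorem Gop_lg (hB : Bl M) {p q x y : M} (hx : x ∈ (𝒜.ψ p).source) (hy : y ∈ (𝒜.ψ q).source) (hd : dist x y < π) :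
    Gop 𝒜 p (𝒜.ψ p x) (CC 𝒜 p x (lg 𝒜 x y)) = -gr1 (𝒜.F p q) (𝒜.ψ p x, 𝒜.ψ q y) := by
  refine ext_inner_right ℝ fun h => ?_
  rw [Gop_CC hx, inner_neg_left, inner_gr1, fderiv_F_lg hB hx hy hd, neg_neg]

/-- **the logarithm is smooth** -/
theorem smV_lg (hB : Bl M) {E : Type*} [NormedAddCommGroup E] [NormedSpace ℝ E] {x y : E → M} {u : E} {p : M}
    (hx : SmAt 𝒜 x u) (hp : x u ∈ (𝒜.ψ p).source) (hy : SmAt 𝒜 y u) (hd : dist (x u) (y u) < π) :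
    SmV 𝒜 p x (fun v => lg 𝒜 (x v) (y v)) u := by
  unfold SmV
  obtain ⟨q, hq⟩ : ∃ q, q = y u := ⟨_, rfl⟩
  have hyq : y u ∈ (𝒜.ψ q).source := by
    rw [hq]
    exact 𝒜.mem _
  have h1 : ContDiffAt ℝ ∞ (fun v => 𝒜.ψ p (x v)) u := hx.chart hp
  have h2 : ContDiffAt ℝ ∞ (fun v => 𝒜.ψ q (y v)) u := hy.chart hyq
  have hF : ContDiffAt ℝ ∞ (𝒜.F p q) (𝒜.ψ p (x u), 𝒜.ψ q (y u)) := (contDiffAt_F_iff 𝒜 hp hyq).2 (contDiffAt_F 𝒜 hB hd)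
  have h3 : ContDiffAt ℝ ∞ (fun v => gr1 (𝒜.F p q) (𝒜.ψ p (x v), 𝒜.ψ q (y v))) u :=
    ContDiffAt.comp (g := gr1 (𝒜.F p q)) (f := fun v => (𝒜.ψ p (x v), 𝒜.ψ q (y v))) u (contDiffAt_gr1 hF) (h1.prodMk h2)
  have h4 : ContDiffAt ℝ ∞ (fun v => Gop 𝒜 p (𝒜.ψ p (x v))) u :=
    ContDiffAt.comp (g := Gop 𝒜 p) (f := fun v => 𝒜.ψ p (x v)) u (contDiffAt_Gop hp) h1
  obtain ⟨U, hU⟩ := isUnit_Gop (𝒜 := 𝒜) hp
  have h5 : ContDiffAt ℝ ∞ (fun v => Ring.inverse (Gop 𝒜 p (𝒜.ψ p (x v)))) u := by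
    have h6 : ContDiffAt ℝ ∞ (Ring.inverse : (Eu n →L[ℝ] Eu n) → (Eu n →L[ℝ] Eu n)) (Gop 𝒜 p (𝒜.ψ p (x u))) := by
      rw [← hU]
      exact contDiffAt_ringInverse ℝ U
    exact ContDiffAt.comp (g := Ring.inverse) (f := fun v => Gop 𝒜 p (𝒜.ψ p (x v))) u h6 h4
  have h7 : ContDiffAt ℝ ∞ (fun v => Ring.inverse (Gop 𝒜 p (𝒜.ψ p (x v)))
      (-gr1 (𝒜.F p q) (𝒜.ψ p (x v), 𝒜.ψ q (y v)))) u := h5.clm_apply h3.neg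
  refine h7.congr_of_eventuallyEq ?_
  have hdc : ContinuousAt (fun v => dist (x v) (y v)) u := hx.1.dist hy.1
  filter_upwards [hx.1.eventually ((𝒜.ψ p).open_source.mem_nhds hp),
    hy.1.eventually ((𝒜.ψ q).open_source.mem_nhds hyq), hdc.eventually (gt_mem_nhds hd)] with v e1 e2 e3
  rw [← Gop_lg hB e1 e2 e3, ← mul_apply_eq_comp, Ring.inverse_mul_cancel _ (isUnit_Gop e1)]
  rfl

end Pool.Agent.Lib.MP_ccbbf6_gt.L5
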