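import Pool.Agent.Lib.MP_ccbbf6_gt.L4.OriE
import Pool.Agent.Lib.MP_ccbbf6_gt.L5.DG1

/-!
# Level 5, DG2: the exponential map is smooth in both variables, also near the zero vector; the geodesic homotopy
(helper2)
-/

set_option autoImplicit false
set_option linter.unusedSectionVars false
set_option linter.unusedVariables false

open Set Filter Topology Metric Real Module
open scoped ContDiff RealInnerProductSpace

noncomputable section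

namespace Pool.Agent.Lib.MP_ccbbf6_gt.L5

open Geo L4 L4.ORI

variable {n : ℕ} {M : Type*} [MetricSpace M] [CompactSpace M] {𝒜 : SDist n M}

/-- the map `(a, b) ↦ (a, D₁ (d²/2) (a, b))` -/
def ThE (𝒜 : SDist n M) (p : M) (z : Eu n × Eu n) : Eu n × Eu n := (z.1, gr1 (𝒜.F p p) z)

/-- its derivative at the origin -/
def ThL (n : ℕ) : (Eu n × Eu n) ≃L[ℝ] (Eu n × Eu n) :=
  ContinuousLinearEquiv.equivOfInverse
    ((ContinuousLinearMap.fst ℝ (Eu n) (Eu n)).prod (ContinuousLinearMap.fst ℝ (Eu n) (Eu n) - ContinuousLinearMap.snd ℝ (Eu n) (Eu n)))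
    ((ContinuousLinearMap.fst ℝ (Eu n) (Eu n)).prod (ContinuousLinearMap.fst ℝ (Eu n) (Eu n) - ContinuousLinearMap.snd ℝ (Eu n) (Eu n)))
    (fun z => Prod.ext rfl (sub_sub_cancel z.1 z.2)) (fun z => Prod.ext rfl (sub_sub_cancel z.1 z.2))

theorem ThL_apply (z : Eu n × Eu n) : ThL n z = (z.1, z.1 - z.2) := rfl

theorem gr1_zero (p : M) : gr1 (𝒜.F p p) (0, 0) = 0 := by
  refine ext_inner_right ℝ fun h => ?_
  rw [inner_gr1, DF_diag 𝒜 p, inner_zero_left]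
  rfl

theorem contDiffAt_ThE (p : M) : ContDiffAt ℝ ∞ (ThE 𝒜 p) (0, 0) := by
  unfold ThE
  exact contDiffAt_fst.prodMk (contDiffAt_gr1 (contDiffAt_F_diag 𝒜 p))

theorem hasFDerivAt_gr1 (p : M) : HasFDerivAt (gr1 (𝒜.F p p))
    (ContinuousLinearMap.fst ℝ (Eu n) (Eu n) - ContinuousLinearMap.snd ℝ (Eu n) (Eu n)) (0, 0) := by
  have h1 : ContDiffAt ℝ ∞ (gr1 (𝒜.F p p)) (0, 0) := contDiffAt_gr1 (contDiffAt_F_diag 𝒜 p)
  have h2 : HasFDerivAt (gr1 (𝒜.F p p)) (fderiv ℝ (gr1 (𝒜.F p p)) (0, 0)) (0, 0) :=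
    (h1.differentiableAt (by simp)).hasFDerivAt
  have h3 : fderiv ℝ (gr1 (𝒜.F p p)) (0, 0) =
      ContinuousLinearMap.fst ℝ (Eu n) (Eu n) - ContinuousLinearMap.snd ℝ (Eu n) (Eu n) := by
    refine ContinuousLinearMap.ext fun z => ?_
    refine ext_inner_right ℝ fun h => ?_
    -- the derivative of `z ↦ ⟪gr1 F z, h⟫`
    have h4 : HasFDerivAt (fun z => ⟪gr1 (𝒜.F p p) z, h⟫)
        ((innerSL ℝ h).comp (fderiv ℝ (gr1 (𝒜.F p p)) (0, 0))) (0, 0) := by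
      have h5 := (innerSL ℝ h).hasFDerivAt.comp ((0, 0) : Eu n × Eu n) h2
      refine h5.congr_of_eventuallyEq (Eventually.of_forall fun z => ?_)
      show ⟪gr1 (𝒜.F p p) z, h⟫ = ⟪h, gr1 (𝒜.F p p) z⟫
      rw [real_inner_comm]
    have hF : ContDiffAt ℝ ∞ (fderiv ℝ (𝒜.F p p)) (0, 0) := (contDiffAt_F_diag 𝒜 p).fderiv_right (by simp)
    have h6 : HasFDerivAt (fun z => fderiv ℝ (𝒜.F p p) z (h, 0))
        ((ContinuousLinearMap.apply ℝ ℝ ((h, 0) : Eu n × Eu n)).comp (fderiv ℝ (fderiv ℝ (𝒜.F p p)) (0, 0))) (0, 0) :=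
      (ContinuousLinearMap.apply ℝ ℝ ((h, 0) : Eu n × Eu n)).hasFDerivAt.comp ((0, 0) : Eu n × Eu n)
        (hF.differentiableAt (by simp)).hasFDerivAt
    have h7 : (fun z => ⟪gr1 (𝒜.F p p) z, h⟫) = fun z => fderiv ℝ (𝒜.F p p) z (h, 0) := by
      funext z
      rw [inner_gr1]
    rw [h7] at h4
    have h8 := congrArg (fun L : (Eu n × Eu n) →L[ℝ] ℝ => L z) (h4.unique h6)
    have h9 : ⟪h, fderiv ℝ (gr1 (𝒜.F p p)) (0, 0) z⟫ = fderiv ℝ (fderiv ℝ (𝒜.F p p)) (0, 0) z (h, 0) := h8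
    rw [D2F_diag] at h9
    simp only [sub_zero] at h9
    rw [real_inner_comm, h9]
    rfl
  rw [h3] at h2
  exact h2

theorem hasFDerivAt_ThE (p : M) : HasFDerivAt (ThE 𝒜 p) (ThL n : (Eu n × Eu n) →L[ℝ] (Eu n × Eu n)) (0, 0) :=
  hasFDerivAt_fst.prodMk (hasFDerivAt_gr1 p)

theorem norm_sq_CC {p x : M} (hx : x ∈ (𝒜.ψ p).source) (a : Eu n) :
    ⟪a, a⟫ = GG 𝒜 p (𝒜.ψ p x) (CC 𝒜 p x a) (CC 𝒜 p x a) := (GG_eq 𝒜 hx a a).symm

/-- near the zero vector -/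
theorem smAt_Ex_zero (hB : Bl M) {E : Type*} [NormedAddCommGroup E] [NormedSpace ℝ E] {x : E → M} {w : E → Eu n} {u : E}
    (hx : SmAt 𝒜 x u) (hw : SmV 𝒜 (x u) x w u) (h0 : w u = 0) : SmAt 𝒜 (fun v => 𝒜.Ex (x v) (w v)) u := by
  obtain ⟨p, hp0⟩ : ∃ p, p = x u := ⟨_, rfl⟩
  have hp : x u ∈ (𝒜.ψ p).source := by rw [hp0]; exact 𝒜.mem _
  rw [← hp0] at hw
  have hz : 𝒜.ψ p (x u) = 0 := by rw [hp0]; exact 𝒜.zero _
  -- norms
  have hn1 : ContDiffAt ℝ ∞ (fun v => ⟪w v, w v⟫) u := hw.inner hx hp hw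
  have hn2 : ContinuousAt (fun v => ‖w v‖) u := by
    have h1 : ContinuousAt (fun v => √(⟪w v, w v⟫)) u := hn1.continuousAt.sqrt
    refine h1.congr (Eventually.of_forall fun v => ?_)
    show √(⟪w v, w v⟫) = ‖w v‖
    rw [real_inner_self_eq_norm_sq, Real.sqrt_sq (norm_nonneg _)]
  have hn3 : Tendsto (fun v => ‖w v‖) (𝓝 u) (𝓝 0) := by
    have := hn2.tendsto
    simp only [h0, norm_zero] at this
    exact this
  have hπ : ∀ᶠ v in 𝓝 u, ‖w v‖ < π := hn3.eventually (gt_mem_nhds pi_pos)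
  -- continuity
  have hval : 𝒜.Ex (x u) (w u) = x u := by rw [h0, Ex_zero 𝒜 hB]
  have hcont : ContinuousAt (fun v => 𝒜.Ex (x v) (w v)) u := by
    rw [ContinuousAt, hval, tendsto_iff_dist_tendsto_zero]
    have h1 : Tendsto (fun v => ‖w v‖ + dist (x v) (x u)) (𝓝 u) (𝓝 0) := by
      have h2 : Tendsto (fun v => dist (x v) (x u)) (𝓝 u) (𝓝 0) := tendsto_iff_dist_tendsto_zero.1 hx.1
      have := hn3.add h2
      rwa [add_zero] at this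
    refine squeeze_zero' (Eventually.of_forall fun v => dist_nonneg) ?_ h1
    filter_upwards [hπ] with v hv
    have h3 := dist_triangle (𝒜.Ex (x v) (w v)) (x v) (x u)
    rw [dist_comm (𝒜.Ex (x v) (w v)) (x v), dist_Ex 𝒜 hB (x v) hv.le] at h3
    exact h3
  -- coordinates
  have ha : ContDiffAt ℝ ∞ (fun v => 𝒜.ψ p (x v)) u := hx.chart hp
  have hG : ContDiffAt ℝ ∞ (fun v => Gop 𝒜 p (𝒜.ψ p (x v))) u :=
    ContDiffAt.comp (g := Gop 𝒜 p) (f := fun v => 𝒜.ψ p (x v)) u (contDiffAt_Gop hp) ha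
  have hrhs : ContDiffAt ℝ ∞ (fun v => (𝒜.ψ p (x v), -(Gop 𝒜 p (𝒜.ψ p (x v)) (CC 𝒜 p (x v) (w v))))) u :=
    ha.prodMk (hG.clm_apply hw).neg
  have hinv := (contDiffAt_ThE (𝒜 := 𝒜) p).to_localInverse (hasFDerivAt_ThE p) (by simp)
  have hT0 : ThE 𝒜 p (0, 0) = (𝒜.ψ p (x u), -(Gop 𝒜 p (𝒜.ψ p (x u)) (CC 𝒜 p (x u) (w u)))) := by
    unfold ThE
    rw [gr1_zero, hz, h0, map_zero, map_zero, neg_zero]
  rw [hT0] at hinv
  have hcomp := ContDiffAt.comp (g := (contDiffAt_ThE (𝒜 := 𝒜) p).localInverse (hasFDerivAt_ThE p) (by simp))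
    (f := fun v => (𝒜.ψ p (x v), -(Gop 𝒜 p (𝒜.ψ p (x v)) (CC 𝒜 p (x v) (w v))))) u hinv hrhs
  have hleft := ((contDiffAt_ThE (𝒜 := 𝒜) p).hasStrictFDerivAt' (hasFDerivAt_ThE p) (by simp)).eventually_left_inverse
  -- the pair of coordinates tends to the origin
  have hb : ContinuousAt (fun v => 𝒜.ψ p (𝒜.Ex (x v) (w v))) u := by
    have h1 : ContinuousAt (𝒜.ψ p) (𝒜.Ex (x u) (w u)) := by
      rw [hval]
      exact (𝒜.ψ p).continuousAt hp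
    exact ContinuousAt.comp (g := 𝒜.ψ p) (f := fun v => 𝒜.Ex (x v) (w v)) h1 hcont
  have hab : Tendsto (fun v => (𝒜.ψ p (x v), 𝒜.ψ p (𝒜.Ex (x v) (w v)))) (𝓝 u) (𝓝 ((0 : Eu n), (0 : Eu n))) := by
    have h1 : Tendsto (fun v => 𝒜.ψ p (x v)) (𝓝 u) (𝓝 0) := by
      have := ha.continuousAt.tendsto
      simp only [hz] at this
      exact this
    have h2 : Tendsto (fun v => 𝒜.ψ p (𝒜.Ex (x v) (w v))) (𝓝 u) (𝓝 0) := by
      have := hb.tendsto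
      simp only [hval, hz] at this
      exact this
    exact h1.prodMk_nhds h2
  have hsrc : (fun v => 𝒜.Ex (x v) (w v)) u ∈ (𝒜.ψ p).source := by
    show 𝒜.Ex (x u) (w u) ∈ (𝒜.ψ p).source
    rw [hval]
    exact hp
  refine smAt_of_chart (p := p) hcont hsrc ?_
  have hsnd : ContDiffAt ℝ ∞ (fun v => ((contDiffAt_ThE (𝒜 := 𝒜) p).localInverse (hasFDerivAt_ThE p) (by simp)
      (𝒜.ψ p (x v), -(Gop 𝒜 p (𝒜.ψ p (x v)) (CC 𝒜 p (x v) (w v))))).2) u := hcomp.snd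
  refine hsnd.congr_of_eventuallyEq ?_
  filter_upwards [hab.eventually hleft, hπ, hx.1.eventually ((𝒜.ψ p).open_source.mem_nhds hp),
    hcont.eventually ((𝒜.ψ p).open_source.mem_nhds hsrc)] with v e1 e2 e3 e4
  have h1 : ThE 𝒜 p (𝒜.ψ p (x v), 𝒜.ψ p (𝒜.Ex (x v) (w v))) =
      (𝒜.ψ p (x v), -(Gop 𝒜 p (𝒜.ψ p (x v)) (CC 𝒜 p (x v) (w v)))) := by
    unfold ThE
    refine Prod.ext rfl ?_
    show gr1 (𝒜.F p p) (𝒜.ψ p (x v), 𝒜.ψ p (𝒜.Ex (x v) (w v))) = _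
    have h2 := Gop_lg (𝒜 := 𝒜) hB (p := p) (q := p) e3 e4 (by rw [dist_Ex 𝒜 hB (x v) e2.le]; exact e2)
    rw [lg_Ex hB (x v) e2] at h2
    rw [h2, neg_neg]
  have h2 : ((contDiffAt_ThE (𝒜 := 𝒜) p).localInverse (hasFDerivAt_ThE p) (by simp))
      (ThE 𝒜 p (𝒜.ψ p (x v), 𝒜.ψ p (𝒜.Ex (x v) (w v)))) = (𝒜.ψ p (x v), 𝒜.ψ p (𝒜.Ex (x v) (w v))) := e1
  rw [h1] at h2
  rw [h2]

/-- a geodesic with given foot -/
def gst (𝒜 : SDist n M) (hB : Bl M) (e : Eu n) (he : ‖e‖ = 1) (x : M) : Gs M := gvg 𝒜 hB x e he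

/-- **the exponential map is smooth** -/
theorem smAt_Ex2 (hB : Bl M) {E : Type*} [NormedAddCommGroup E] [NormedSpace ℝ E] {x : E → M} {w : E → Eu n} {u : E}
    {p : M} (hx : SmAt 𝒜 x u) (hp : x u ∈ (𝒜.ψ p).source) (hw : SmV 𝒜 p x w u) :
    SmAt 𝒜 (fun v => 𝒜.Ex (x v) (w v)) u := by
  by_cases h0 : w u = 0
  · exact smAt_Ex_zero hB hx (hw.chart hx hp (𝒜.mem _)) h0
  · have he := norm_nrm h0
    have hcf : ∀ v, (gst 𝒜 hB (nrm (w u)) he (x v)).1 0 = x v := fun v => (gvg_vel 𝒜 hB (x v) _ he).1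
    have hx' : SmAt 𝒜 (fun v => (gst 𝒜 hB (nrm (w u)) he (x v)).1 0) u := by
      simp only [hcf]
      exact hx
    have hw' : SmV 𝒜 p (fun v => (gst 𝒜 hB (nrm (w u)) he (x v)).1 0) w u := by
      simp only [hcf]
      exact hw
    have h1 := smGA_gw (𝒜 := 𝒜) hB hx' (by rw [hcf]; exact hp) hw' h0
    have hnn : ContDiffAt ℝ ∞ (fun v => ⟪w v, w v⟫) u := hw.inner hx hp hw
    have hn2 : ContDiffAt ℝ ∞ (fun v => ‖w v‖) u := by
      have h2 : ContDiffAt ℝ ∞ (fun v => √(⟪w v, w v⟫)) u := hnn.sqrt (by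
        rw [real_inner_self_eq_norm_sq]
        exact (pow_pos (norm_pos_iff.2 h0) 2).ne')
      refine h2.congr_of_eventuallyEq (Eventually.of_forall fun v => ?_)
      show ‖w v‖ = √(⟪w v, w v⟫)
      rw [real_inner_self_eq_norm_sq, Real.sqrt_sq (norm_nonneg _)]
    have h3 := (h1.ev hB ‖w u‖).comp (f := fun v => (v, ‖w v‖)) (contDiffAt_id.prodMk hn2)
    refine h3.congr ?_
    have hne : ∀ᶠ v in 𝓝 u, ‖w v‖ ≠ 0 := hn2.continuousAt.eventually_ne (norm_ne_zero_iff.2 h0)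
    filter_upwards [hne] with v hv
    have hv0 : w v ≠ 0 := norm_ne_zero_iff.1 hv
    show 𝒜.Ex (x v) (w v) = (gw 𝒜 hB (gst 𝒜 hB (nrm (w u)) he (x v)) (w v)).1 ‖w v‖
    rw [gw_eq 𝒜 hB _ hv0, hcf]
    congr 1
    unfold rad
    rw [div_self hv, one_smul]

/-! ### the geodesic homotopy -/

/-- the point at ratio `t` on the geodesic from `x` to `y` -/
def rat (𝒜 : SDist n M) (x y : M) (t : ℝ) : M := 𝒜.Ex x (t • lg 𝒜 x y)

theorem rat_zero (hB : Bl M) (x y : M) : rat 𝒜 x y 0 = x := by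
  unfold rat
  rw [zero_smul, Ex_zero 𝒜 hB]

theorem rat_one (hB : Bl M) (x y : M) : rat 𝒜 x y 1 = y := by
  unfold rat
  rw [one_smul, Ex_lg hB]

theorem rat_self (hB : Bl M) (x : M) (t : ℝ) : rat 𝒜 x x t = x := by
  unfold rat
  rw [lg_self, smul_zero, Ex_zero 𝒜 hB]

theorem dist_rat (hB : Bl M) (x y : M) {t : ℝ} (h0 : 0 ≤ t) (h1 : t ≤ 1) : dist x (rat 𝒜 x y t) = t * dist x y := by
  unfold rat
  have h2 : ‖t • lg 𝒜 x y‖ = t * dist x y := by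
    rw [norm_smul, norm_lg hB, Real.norm_of_nonneg h0]
  rw [dist_Ex 𝒜 hB x, h2]
  rw [h2]
  calc t * dist x y ≤ 1 * dist x y := by gcongr
    _ = dist x y := one_mul _
    _ ≤ π := hB.diam x y

/-- **the geodesic homotopy is smooth** -/
theorem smAt_rat (hB : Bl M) {E : Type*} [NormedAddCommGroup E] [NormedSpace ℝ E] {x y : E → M} {t : E → ℝ} {u : E}
    (hx : SmAt 𝒜 x u) (hy : SmAt 𝒜 y u) (ht : ContDiffAt ℝ ∞ t u) (hd : dist (x u) (y u) < π) :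
    SmAt 𝒜 (fun v => rat 𝒜 (x v) (y v) (t v)) u := by
  unfold rat
  exact smAt_Ex2 hB hx (𝒜.mem (x u)) ((smV_lg hB hx (𝒜.mem (x u)) hy hd).smul ht)

end Pool.Agent.Lib.MP_ccbbf6_gt.L5
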