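import Pool.Agent.Lib.MP_ccbbf6_gt.L5.INTd

/-!
# Level 5, INTe, part 1: the pointwise formula for the fibre integral
-/

set_option autoImplicit false
set_option maxSynthPendingDepth 3

open Set Filter Topology MeasureTheory
open scoped ContDiff

noncomputable section

namespace Pool.Agent.Lib.MP_ccbbf6_gt.L5

open L4 L4.FR

variable {k l N : ℕ}

theorem INTe_ev_sl (p : V k) (s : ℝ) (y : Fm (k + 1)) :
    ev p (pb (sl k s) y) = kil k (ev (Fin.snoc p s) y) := by
  induction y using Fm_tind with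
  | hf f a =>
    rw [pb_sl, ev_tm, ev_tm, map_smul]
    rfl
  | ha x y hx hy => simp only [map_add, hx, hy]

theorem INTe_ev_cn (φ : V k →ₗ[ℝ] ℝ) (q : V k) (x : Fm k) : ev q (cn φ x) = ctr φ (ev q x) := by
  induction x using Fm_tind with
  | hf f a => rw [cn_tm, ev_tm, ev_tm, map_smul]
  | ha x y hx hy => simp only [map_add, hx, hy]

theorem INTe_append_snoc (z : V k) (ξ : V N) (s : ℝ) :
    (Fin.snoc (Fin.append z ξ : V (k + N)) s : V (k + N + 1)) = Fin.append z (Fin.snoc ξ s : V (N + 1)) := by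
  funext i
  refine Fin.addCases (m := k) (n := N + 1) (fun a => ?_) (fun j => ?_) i
  · rw [Fin.append_left]
    have h := Fin.snoc_castSucc (α := fun _ => ℝ) s (Fin.append z ξ : V (k + N)) (Fin.castAdd N a)
    rw [Fin.append_left] at h
    exact h
  · rw [Fin.append_right]
    refine Fin.lastCases ?_ (fun j' => ?_) j
    · rw [Fin.snoc_last]
      exact Fin.snoc_last (α := fun _ => ℝ) s (Fin.append z ξ : V (k + N))
    · rw [Fin.snoc_castSucc]
      have h := Fin.snoc_castSucc (α := fun _ => ℝ) s (Fin.append z ξ : V (k + N)) (Fin.natAdd k j')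
      rw [Fin.append_right] at h
      exact h

theorem INTe_KK (L : Ex k →ₗ[ℝ] ℝ) (p : V k) (x : Fm (k + 1)) :
    L (ev p (KK k x)) = ∫ s in (0 : ℝ)..1, L (kil k (ctr (lst k) (ev (Fin.snoc p s) x))) := by
  rw [KK_apply, ev_Q0]
  congr 1
  funext s
  rw [INTe_ev_sl, cs, INTe_ev_cn]

private theorem INTe_fub {G : V (N + 1) → ℝ} (hG : Continuous G) :
    ∫ ξ in Set.Icc (0 : V N) 1, ∫ s in (0 : ℝ)..1, G (Fin.snoc ξ s) = ∫ η in Set.Icc (0 : V (N + 1)) 1, G η := by
  have hmp := (MeasureTheory.volume_preserving_piFinSuccAbove (fun _ : Fin (N + 1) => ℝ) (Fin.last N)).symm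
  have h1 := hmp.setIntegral_preimage_emb (MeasurableEquiv.measurableEmbedding _) G (Set.Icc 0 1)
  rw [← h1]
  have hval : ∀ q : ℝ × V N, (MeasurableEquiv.piFinSuccAbove (fun _ : Fin (N + 1) => ℝ) (Fin.last N)).symm q =
      Fin.snoc q.2 q.1 := by
    intro q
    exact Fin.insertNth_last' q.1 q.2
  have hset : (MeasurableEquiv.piFinSuccAbove (fun _ : Fin (N + 1) => ℝ) (Fin.last N)).symm ⁻¹' (Set.Icc 0 1) =
      (Set.Icc (0 : ℝ) 1) ×ˢ (Set.Icc (0 : V N) 1) := by
    ext q
    rw [Set.mem_preimage, hval, Set.mem_prod, Set.mem_Icc, Set.mem_Icc, Set.mem_Icc, Pi.le_def, Pi.le_def, Pi.le_def,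
      Pi.le_def, Fin.forall_fin_succ', Fin.forall_fin_succ']
    simp only [Fin.snoc_castSucc, Fin.snoc_last, Pi.zero_apply, Pi.one_apply]
    tauto
  rw [hset]
  simp only [hval]
  have hc : Continuous fun q : ℝ × V N => G (Fin.snoc q.2 q.1) :=
    hG.comp ((contDiff_snoc (k := N)).continuous.comp (continuous_snd.prodMk continuous_fst))
  have hint : IntegrableOn (fun q : ℝ × V N => G (Fin.snoc q.2 q.1)) (Set.Icc (0 : ℝ) 1 ×ˢ Set.Icc (0 : V N) 1)
      (volume.prod volume) := hc.continuousOn.integrableOn_compact (isCompact_Icc.prod isCompact_Icc)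
  have h2 := setIntegral_prod (fun q : ℝ × V N => G (Fin.snoc q.2 q.1)) hint
  have h3 : ∫ q in Set.Icc (0 : ℝ) 1 ×ˢ Set.Icc (0 : V N) 1, G (Fin.snoc q.2 q.1) =
      ∫ s in Set.Icc (0 : ℝ) 1, ∫ ξ in Set.Icc (0 : V N) 1, G (Fin.snoc ξ s) := h2
  rw [h3]
  have h4 : Integrable (Function.uncurry fun (s : ℝ) (ξ : V N) => G (Fin.snoc ξ s))
      ((volume.restrict (Set.Icc (0 : ℝ) 1)).prod (volume.restrict (Set.Icc (0 : V N) 1))) := by
    rw [Measure.prod_restrict]
    exact hint
  rw [integral_integral_swap h4]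
  refine integral_congr_ae (Eventually.of_forall fun ξ => ?_)
  show ∫ s in (0 : ℝ)..1, G (Fin.snoc ξ s) = ∫ s in Set.Icc (0 : ℝ) 1, G (Fin.snoc ξ s)
  rw [intervalIntegral.integral_of_le zero_le_one, integral_Icc_eq_integral_Ioc]

private theorem INTe_cont (L : Ex k →ₗ[ℝ] ℝ) (z : V k) (x : Fm (k + N)) :
    Continuous fun ξ : V N => L (tN k N (ev (Fin.append z ξ) x)) :=
  ((contDiff_coef (L.comp (tN k N)) x).comp (contDiff_append contDiff_const contDiff_id)).continuous

/-- pointwise formula on the unit cube -/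
theorem ev_Jc (x : Fm (k + N)) (L : Ex k →ₗ[ℝ] ℝ) (z : V k) :
    L (ev z (Jc k N x)) = ∫ ξ in Set.Icc (0 : V N) 1, L (tN k N (ev (Fin.append z ξ) x)) := by
  induction N with
  | zero =>
    have h1 : ∀ ξ : V 0, L (tN k 0 (ev (Fin.append z ξ) x)) = L (ev z (Jc k 0 x)) := by
      intro ξ
      have h2 : (Fin.append z ξ : V (k + 0)) = z := by
        funext i
        exact Fin.append_left z ξ i
      rw [h2]
      rfl
    simp only [h1]
    rw [setIntegral_const]
    have h3 : volume.real (Set.Icc (0 : V 0) 1) = 1 := by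
      rw [Measure.real, Real.volume_Icc_pi]
      simp
    rw [h3, one_smul]
  | succ N ih =>
    have h1 : L (ev z (Jc k (N + 1) x)) = L (ev z (Jc k N (KK (k + N) x))) := rfl
    rw [h1, ih (KK (k + N) x), ← INTe_fub (INTe_cont L z x)]
    refine integral_congr_ae (Eventually.of_forall fun ξ => ?_)
    show (L.comp (tN k N)) (ev (Fin.append z ξ) (KK (k + N) x)) =
      ∫ s in (0 : ℝ)..1, L (tN k (N + 1) (ev (Fin.append z (Fin.snoc ξ s : V (N + 1))) x))
    rw [INTe_KK]
    congr 1
    funext s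
    rw [INTe_append_snoc]
    rfl

theorem INTe_tr (w : V (k + N)) (a : V k) (b : V N) :
    tr (scM k N) w (Fin.append a b) = Fin.append (a + (0 : V N →ₗ[ℝ] V k) b) (((6 : ℝ) • (LinearMap.id : V N →ₗ[ℝ] V N)) b) := by
  have hc1 : ∀ j : Fin k, (scM k N).cp (Fin.castAdd N j) = co (Fin.castAdd N j) := by
    intro j
    apply Cs_ext
    intro x
    exact Fin.append_left (hdM k N x) (fun i => 6 * tlM k N x i - 3) j
  have hc2 : ∀ j : Fin N, (scM k N).cp (Fin.natAdd k j) =
      (6 : ℝ) • co (Fin.natAdd k j) - algebraMap ℝ (Cs (k + N)) 3 := by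
    intro j
    apply Cs_ext
    intro x
    exact Fin.append_right (hdM k N x) (fun i => 6 * tlM k N x i - 3) j
  have hp1 : ∀ (i : Fin (k + N)) (j : Fin k), (pd i ((scM k N).cp (Fin.castAdd N j)) : V (k + N) → ℝ) w =
      if i = Fin.castAdd N j then 1 else 0 := by
    intro i j
    rw [hc1, pd_co]
    split_ifs <;> rfl
  have hp2 : ∀ (i : Fin (k + N)) (j : Fin N), (pd i ((scM k N).cp (Fin.natAdd k j)) : V (k + N) → ℝ) w =
      if i = Fin.natAdd k j then 6 else 0 := by
    intro i j
    rw [hc2, map_sub, map_smul, pd_const, sub_zero, pd_co]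
    split_ifs
    · show (6 : ℝ) * 1 = 6
      norm_num
    · show (6 : ℝ) * 0 = 0
      norm_num
  funext i
  change ∑ j, (Fin.append a b : V (k + N)) j * (pd i ((scM k N).cp j) : V (k + N) → ℝ) w = _
  rw [Fin.sum_univ_add]
  simp only [hp1, hp2, Fin.append_left, Fin.append_right]
  refine Fin.addCases (fun i' => ?_) (fun i' => ?_) i
  · rw [Fin.append_left]
    have e1 : ∀ j : Fin k, (if Fin.castAdd N i' = Fin.castAdd N j then (1 : ℝ) else 0) = if i' = j then 1 else 0 := by
      intro j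
      simp only [(Fin.castAdd_injective k N).eq_iff]
    have e2 : ∀ j : Fin N, (if Fin.castAdd N i' = Fin.natAdd k j then (6 : ℝ) else 0) = 0 := by
      intro j
      rw [if_neg]
      intro h
      have h5 := congrArg Fin.val h
      rw [Fin.val_castAdd, Fin.val_natAdd] at h5
      have h6 := i'.2
      omega
    simp only [e1, e2, mul_zero, Finset.sum_const_zero, add_zero, mul_ite, mul_one, Finset.sum_ite_eq,
      Finset.mem_univ, if_true, LinearMap.zero_apply]
  · rw [Fin.append_right]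
    have e1 : ∀ j : Fin N, (if Fin.natAdd k i' = Fin.natAdd k j then (6 : ℝ) else 0) = if i' = j then 6 else 0 := by
      intro j
      simp only [(Fin.natAdd_injective N k).eq_iff]
    have e2 : ∀ j : Fin k, (if Fin.natAdd k i' = Fin.castAdd N j then (1 : ℝ) else 0) = 0 := by
      intro j
      rw [if_neg]
      intro h
      have h5 := congrArg Fin.val h
      rw [Fin.val_castAdd, Fin.val_natAdd] at h5
      have h6 := j.2
      omega
    simp only [e1, e2, mul_zero, Finset.sum_const_zero, zero_add, mul_ite, Finset.sum_ite_eq,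
      Finset.mem_univ, if_true]
    show b i' * 6 = 6 * b i'
    ring

/-- pointwise formula -/
theorem ev_J {x : Fm (k + N)} (hx : VS x) (L : Ex k →ₗ[ℝ] ℝ) (z : V k) :
    L (ev z (Jn k N x)) = ∫ ξ : V N, L (tN k N (ev (Fin.append z ξ) x)) := by
  have h1 : L (ev z (Jn k N x)) = L (ev z (Jc k N (pb (scM k N) x))) := rfl
  rw [h1, ev_Jc]
  obtain ⟨F, hF⟩ : ∃ F : V N → ℝ, ∀ ξ, F ξ = L (tN k N (ev (Fin.append z ξ) x)) := ⟨_, fun _ => rfl⟩
  have h2 : ∀ t : V N, L (tN k N (ev (Fin.append z t) (pb (scM k N) x))) =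
      (6 : ℝ) ^ N * F ((6 : ℝ) • t - fun _ => 3) := by
    intro t
    rw [ev_pb, tN_map (INTe_tr (Fin.append z t)), LinearMap.det_smul, LinearMap.det_id, mul_one,
      Module.finrank_fin_fun, map_smul, smul_eq_mul, hF]
    have h3 : scM k N (Fin.append z t) = Fin.append z ((6 : ℝ) • t - fun _ => 3 : V N) := by
      show (Fin.append (hdM k N (Fin.append z t)) (fun i => 6 * tlM k N (Fin.append z t) i - 3) : V (k + N)) = _
      rw [hdM_append, tlM_append]
      rfl
    rw [h3]
  have h0 : ∀ ξ : V N, (∃ i, 3 ≤ |ξ i|) → F ξ = 0 := by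
    intro ξ hξ
    rw [hF, hx (Fin.append z ξ) (by rw [tlM_append]; exact hξ), map_zero, map_zero]
  simp only [h2, ← hF]
  rw [integral_const_mul]
  have h4 : ∫ t in Set.Icc (0 : V N) 1, F ((6 : ℝ) • t - fun _ => 3) = ∫ t : V N, F ((6 : ℝ) • t - fun _ => 3) := by
    refine setIntegral_eq_integral_of_forall_compl_eq_zero fun t ht => h0 _ ?_
    by_contra hcon
    push Not at hcon
    refine ht ⟨fun i => ?_, fun i => ?_⟩
    · have h5 := (abs_lt.1 (hcon i)).1
      have h6 : ((6 : ℝ) • t - fun _ => 3 : V N) i = 6 * t i - 3 := rfl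
      rw [h6] at h5
      show (0 : ℝ) ≤ t i
      linarith
    · have h5 := (abs_lt.1 (hcon i)).2
      have h6 : ((6 : ℝ) • t - fun _ => 3 : V N) i = 6 * t i - 3 := rfl
      rw [h6] at h5
      show t i ≤ (1 : ℝ)
      linarith
  rw [h4]
  have h7 := Measure.integral_comp_smul (volume : Measure (V N)) (fun y : V N => F (y - fun _ => 3)) (6 : ℝ)
  rw [integral_sub_right_eq_self F (fun _ => 3 : V N), Module.finrank_fin_fun] at h7
  rw [h7, smul_eq_mul, abs_of_pos (by positivity), ← mul_assoc, mul_inv_cancel₀ (by positivity), one_mul]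

theorem contDiff_mulVec {E : Type*} [NormedAddCommGroup E] [NormedSpace ℝ E] {A : E → Matrix (Fin N) (Fin N) ℝ}
    {ξ : E → V N} (hA : ∀ i j, ContDiff ℝ ∞ fun z => A z i j) (hξ : ContDiff ℝ ∞ ξ) :
    ContDiff ℝ ∞ fun z => (A z).mulVec (ξ z) := by
  rw [contDiff_pi]
  intro i
  show ContDiff ℝ ∞ fun z => ∑ j, A z i j * ξ z j
  exact ContDiff.sum fun j _ => (hA i j).mul (contDiff_pi.1 hξ j)

/-- the map `(z, ξ) ↦ (z, A(z) ξ)` -/
def frM (A : V k → Matrix (Fin N) (Fin N) ℝ) (hA : ∀ i j, ContDiff ℝ ∞ fun z => A z i j) : FR.Sm (k + N) (k + N) :=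
  ⟨fun w => Fin.append (hdM k N w) ((A (hdM k N w)).mulVec (tlM k N w)), contDiff_append (hdM k N).smooth
    (contDiff_mulVec (A := fun w => A (hdM k N w)) (fun i j => (hA i j).comp (hdM k N).smooth) (tlM k N).smooth)⟩

private theorem INTe2_cp_hd {A : V k → Matrix (Fin N) (Fin N) ℝ} (hA : ∀ i j, ContDiff ℝ ∞ fun z => A z i j)
    (j : Fin k) : (frM A hA).cp (Fin.castAdd N j) = co (Fin.castAdd N j) := by
  apply Cs_ext
  intro x
  exact Fin.append_left (hdM k N x) ((A (hdM k N x)).mulVec (tlM k N x)) j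

private theorem INTe2_cp_tl {A : V k → Matrix (Fin N) (Fin N) ℝ} (hA : ∀ i j, ContDiff ℝ ∞ fun z => A z i j)
    (j : Fin N) : (frM A hA).cp (Fin.natAdd k j) =
      ∑ l, (hdM k N).pull (mkC (fun z => A z j l) (hA j l)) * co (Fin.natAdd k l) := by
  apply Cs_ext
  intro x
  have h1 : ((frM A hA).cp (Fin.natAdd k j) : V (k + N) → ℝ) x = (A (hdM k N x)).mulVec (tlM k N x) j :=
    Fin.append_right (hdM k N x) ((A (hdM k N x)).mulVec (tlM k N x)) j
  rw [h1, AddSubmonoidClass.coe_finsetSum, Finset.sum_apply]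
  rfl

private theorem INTe2_pd_pull (f : Cs k) (i : Fin N) : pd (Fin.natAdd k i) ((hdM k N).pull f) = 0 := by
  rw [pd_pull]
  refine Finset.sum_eq_zero fun j _ => ?_
  have h1 : (hdM k N).cp j = co (Fin.castAdd N j) := rfl
  rw [h1, pd_co, if_neg, mul_zero]
  intro h
  have h2 := congrArg Fin.val h
  simp only [Fin.val_natAdd, Fin.val_castAdd] at h2
  omega

private theorem INTe2_pd_tl {A : V k → Matrix (Fin N) (Fin N) ℝ} (hA : ∀ i j, ContDiff ℝ ∞ fun z => A z i j)
    (i j : Fin N) : pd (Fin.natAdd k i) ((frM A hA).cp (Fin.natAdd k j)) =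
      (hdM k N).pull (mkC (fun z => A z j i) (hA j i)) := by
  rw [INTe2_cp_tl, map_sum, Finset.sum_eq_single i]
  · rw [pd_mul, INTe2_pd_pull, zero_mul, zero_add, pd_co, if_pos rfl, mul_one]
  · intro l _ hl
    rw [pd_mul, INTe2_pd_pull, zero_mul, zero_add, pd_co, if_neg, mul_zero]
    intro h
    exact hl ((Fin.natAdd_injective N k) h).symm
  · intro h
    exact absurd (Finset.mem_univ i) h

/-- the horizontal part of the transpose -/
private def INTe2_C {A : V k → Matrix (Fin N) (Fin N) ℝ} (hA : ∀ i j, ContDiff ℝ ∞ fun z => A z i j)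
    (w : V (k + N)) : V N →ₗ[ℝ] V k where
  toFun b i := ∑ j, b j * (pd (Fin.castAdd N i) ((frM A hA).cp (Fin.natAdd k j)) : V (k + N) → ℝ) w
  map_add' v w := by
    funext i
    change ∑ j, (v j + w j) * _ = ∑ j, _ + ∑ j, _
    rw [← Finset.sum_add_distrib]
    exact Finset.sum_congr rfl fun j _ => add_mul _ _ _
  map_smul' r v := by
    funext i
    change ∑ j, (r * v j) * _ = r * ∑ j, _
    rw [Finset.mul_sum]
    exact Finset.sum_congr rfl fun j _ => mul_assoc _ _ _

private theorem INTe2_tr {A : V k → Matrix (Fin N) (Fin N) ℝ} (hA : ∀ i j, ContDiff ℝ ∞ fun z => A z i j)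
    (z : V k) (ξ : V N) (a : V k) (b : V N) : tr (frM A hA) (Fin.append z ξ) (Fin.append a b) =
      Fin.append (a + INTe2_C hA (Fin.append z ξ) b) (Matrix.toLin' (A z).transpose b) := by
  funext i
  have h0 : tr (frM A hA) (Fin.append z ξ) (Fin.append a b) i =
      ∑ j, (Fin.append a b : V (k + N)) j * (pd i ((frM A hA).cp j) : V (k + N) → ℝ) (Fin.append z ξ) := rfl
  rw [h0, Fin.sum_univ_add]
  refine Fin.addCases (fun i => ?_) (fun i => ?_) i
  · rw [Fin.append_left, Pi.add_apply]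
    refine congrArg₂ (· + ·) ?_ ?_
    · rw [Finset.sum_eq_single i]
      · rw [Fin.append_left, INTe2_cp_hd, pd_co, if_pos rfl]
        exact mul_one _
      · intro j _ hj
        rw [INTe2_cp_hd, pd_co, if_neg]
        · exact mul_zero _
        · intro h
          exact hj ((Fin.castAdd_injective k N) h).symm
      · intro h
        exact absurd (Finset.mem_univ i) h
    · refine Finset.sum_congr rfl fun j _ => ?_
      rw [Fin.append_right]
  · rw [Fin.append_right]
    have h1 : ∑ j : Fin k, (Fin.append a b : V (k + N)) (Fin.castAdd N j) *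
        (pd (Fin.natAdd k i) ((frM A hA).cp (Fin.castAdd N j)) : V (k + N) → ℝ) (Fin.append z ξ) = 0 := by
      refine Finset.sum_eq_zero fun j _ => ?_
      rw [INTe2_cp_hd, pd_co, if_neg]
      · exact mul_zero _
      · intro h
        have h2 := congrArg Fin.val h
        simp only [Fin.val_natAdd, Fin.val_castAdd] at h2
        omega
    rw [h1, zero_add]
    change _ = ∑ j, (A z).transpose i j * b j
    refine Finset.sum_congr rfl fun j _ => ?_
    rw [Fin.append_right, INTe2_pd_tl]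
    change b j * A (hdM k N (Fin.append z ξ)) j i = A z j i * b j
    rw [hdM_append, mul_comm]

/-- change of the linear coordinates in the fibres -/
theorem J_frM {A : V k → Matrix (Fin N) (Fin N) ℝ} (hA : ∀ i j, ContDiff ℝ ∞ fun z => A z i j) {s : ℝ} (hs : |s| = 1)
    (hd : ∀ z, (A z).det = s) {x : Fm (k + N)} (hx : VS x) (hx' : VS (pb (frM A hA) x)) :
    Jn k N (pb (frM A hA) x) = s • Jn k N x := by
  rw [← sub_eq_zero]
  refine ev_fun_inj fun L z => ?_
  rw [map_sub, map_sub, map_smul, map_smul, smul_eq_mul, ev_J hx', ev_J hx, sub_eq_zero]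
  obtain ⟨g, hg⟩ : ∃ g : V N → ℝ, g = fun ξ => L (tN k N (ev (Fin.append z ξ) x)) := ⟨_, rfl⟩
  have hgc : Continuous g := by
    have h1 := (contDiff_coef (L.comp (tN k N)) x).continuous
    have h2 : Continuous fun ξ : V N => (Fin.append z ξ : V (k + N)) :=
      (contDiff_append contDiff_const contDiff_id).continuous
    rw [hg]
    exact h1.comp h2
  have hint : ∀ ξ : V N, L (tN k N (ev (Fin.append z ξ) (pb (frM A hA) x))) =
      s * g ((A z).mulVec ξ) := by
    intro ξ
    have h1 : frM A hA (Fin.append z ξ) = Fin.append z ((A z).mulVec ξ) := by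
      change (Fin.append (hdM k N (Fin.append z ξ))
        ((A (hdM k N (Fin.append z ξ))).mulVec (tlM k N (Fin.append z ξ))) : V (k + N)) = _
      rw [hdM_append, tlM_append]
    rw [ev_pb, tN_map (INTe2_tr hA z ξ), h1, map_smul, LinearMap.det_toLin', Matrix.det_transpose, hd,
      smul_eq_mul, hg]
  have hdet : (A z).det ≠ 0 := by
    rw [hd z]
    intro h0
    rw [h0, abs_zero] at hs
    exact zero_ne_one hs
  have hmap : Measure.map (Matrix.toLin' (A z)) (volume : Measure (V N)) = volume := by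
    rw [Real.map_matrix_volume_pi_eq_smul_volume_pi hdet, hd z, abs_inv, hs, inv_one, ENNReal.ofReal_one,
      one_smul]
  have hcont : Continuous (Matrix.toLin' (A z)) := LinearMap.continuous_of_finiteDimensional _
  have hsub : ∫ ξ : V N, g ((A z).mulVec ξ) = ∫ ξ : V N, g ξ := by
    conv_rhs => rw [← hmap]
    rw [integral_map hcont.aemeasurable hgc.aestronglyMeasurable]
    rfl
  rw [hg] at hsub
  rw [← hsub, ← integral_const_mul]
  refine integral_congr_ae (Filter.Eventually.of_forall fun ξ => ?_)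
  have h2 := hint ξ
  rw [hg] at h2
  exact h2

end Pool.Agent.Lib.MP_ccbbf6_gt.L5
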