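import Pool.Agent.Lib.MP_ccbbf6_gt.L4.Eps
import Pool.Agent.Lib.MP_ccbbf6_gt.L5.INTe

/-!
# Level 5, INTi: polar coordinates in `R^(N+1)` around the first axis (helper67)

PROOFS.
PART 1 (analysis and the Jacobian).
(1) nus: `nus ξ = chi (4 ‖ξ‖) * ‖ξ‖`; smooth: at ξ ≠ 0 (norm smooth), near 0 it is 0 (`chi_zero`). nus_eq: `chi_one` (4 ‖ξ‖ ≥ 2). nus_le: `0 ≤ chi ≤ 1` (chi = sin ^ 2).
(2) norm_pvs: `norm_toE_sq`-type computation (`EuclideanSpace.norm_sq_eq`, `Fin.sum_univ_succ`): ‖pvs‖² = ν² cos² + sin² ‖ξ‖².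
(3) pol_int: change of variables `MeasureTheory.integral_image_eq_integral_abs_det_fderiv_smul` for f(η) = pvs (init η) (η last) on V (N+1) and s = {η | 1/2 < ‖init η‖, 0 < η last < 1} (open).
    * f is injective on s: from f η = f η': tails: sin(πr) ξ = sin(πr') ξ', heads ‖ξ‖ cos(πr) = ‖ξ'‖ cos(πr'); norms: ‖ξ‖ = ‖ξ'‖ (by (2)); cos injective on (0, π): r = r'; sin > 0: ξ = ξ'.
    * image ⊇ {y | 1 ≤ ‖y‖ ≤ 2, tail y ≠ 0} (r = arccos(y_0/‖y‖)/π, ξ = tail y / sin(πr), ‖ξ‖ = ‖y‖) and g = 0 outside 1 ≤ ‖y‖ ≤ 2; {y | tail y = 0} is a null set for N ≥ 1 (a proper linear subspace: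
      `MeasureTheory.Measure.addHaar_submodule`); so `∫ over f '' s of g = ∫ g`.
    * the determinant: det (fderiv f η) = (-1)^(N+1) π ‖ξ‖ sin(πr)^(N-1) on s (lemma det_pvs below), absolute value π ‖ξ‖ sin^(N-1).
    * finally the integral over s = iterated integral: V (N+1) = V N × R by `MeasureTheory.volume_preserving_piFinSuccAbove (fun _ => ℝ) (Fin.last N)` (see INTe_fub of INTe.lean), `MeasureTheory.integral_prod` /
      `setIntegral_prod`; outside s with 0 < r < 1 the integrand is 0: for ‖ξ‖ ≤ 1/2 < 1 one has ‖pvs ξ r‖ ≤ ‖ξ‖ < 1 (nus_le), g = 0.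
(4) det_pvs: the derivative of f at η = (ξ, r) with ‖ξ‖ > 1/2 is (h, s) ↦ (cos(πr) ⟪ξ,h⟫/‖ξ‖ - π ‖ξ‖ sin(πr) s ; sin(πr) h + π cos(πr) s ξ). Determinant: compose with T(h, s) = (h - (π cos / sin) s ξ, s), det T = 1
    (if sin(πr) = 0 use continuity, or restrict to 0 < r < 1: enough for (3); for tN_PHI use also only 0 < r < 1): L T (h, s) = (cos ⟪ξ,h⟫/‖ξ‖ - (π ‖ξ‖ / sin) s ; sin h); matrix with last column (- π‖ξ‖/sin, 0, .., 0):
    `Matrix.det_succ_column _ (Fin.last N)`: = (-1)^N (- π ‖ξ‖ / sin) sin^N. Or any other way (for instance `Matrix.det_fromBlocks₂₂` after reindexing).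
PART 2.
(5) tN_PHI: `ev_pb`, the linear map `tr (PHI k N) w` is block diagonal: tr (append a b) = append a (D b), D = transpose of the Jacobian of f at tlM w (compare `INTe_tr`, `INTe2_tr` in INTe.lean), `tN_map` with C = 0, `det_pvs`
    (`LinearMap.det` of the transpose).
(6) J_PHI: `ev_fun_inj`-type argument as in the proof of J_frM (INTe.lean): for L, z: by ev_J (support: `VS`, from ‖toE ξ‖ ≥ |ξ_i| ≥ 3: nus = norm, ‖pvs‖ = ‖ξ‖ ≥ 3 > 2) the left side is
    ∫_ξ L (tN k N (ev (append z ξ) (KK (k+N) y))), y = pb PHI x; `INTe_KK` with L' = L ∘ tN k N: = ∫_ξ ∫_r L (tN k (N+1) (ev (snoc (append z ξ) r) y)), `INTe_append_snoc`, tN_PHI, and pol_int with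
    g(ξ) = L (tN k (N+1) (ev (append z ξ) x)) (continuous: as `INTe_cont`). For ‖ξ‖ ≤ 1/2 both integrands are 0.
-/

set_option autoImplicit false
set_option maxSynthPendingDepth 3

open Set Filter Topology MeasureTheory Real
open scoped ContDiff

noncomputable section

namespace Pool.Agent.Lib.MP_ccbbf6_gt.L5

open L4 L4.FR

variable {k l N : ℕ}

/-- the norm, made smooth near `0` -/
def nus (ξ : V N) : ℝ := chi (4 * ‖toE ξ‖) * ‖toE ξ‖

private theorem INTi_sq {n : ℕ} (x : V n) : ‖toE x‖ ^ 2 = ∑ i, x i ^ 2 := by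
  have h := EuclideanSpace.norm_eq (toE x)
  rw [h, Real.sq_sqrt (Finset.sum_nonneg fun i _ => sq_nonneg _)]
  refine Finset.sum_congr rfl fun i _ => ?_
  rw [Real.norm_eq_abs, sq_abs]
  rfl

theorem contDiff_nus : ContDiff ℝ ∞ (nus : V N → ℝ) := by
  rw [contDiff_iff_contDiffAt]
  intro x
  by_cases hx : toE x = 0
  · have hE : (nus : V N → ℝ) =ᶠ[𝓝 x] fun _ => 0 := by
      have h1 : ∀ᶠ y in 𝓝 x, ‖toE y‖ < 1 / 4 := by
        have h2 : Continuous fun y : V N => ‖toE y‖ := contDiff_toE.continuous.norm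
        exact h2.continuousAt.eventually (gt_mem_nhds (by simp only [hx, norm_zero]; norm_num))
      filter_upwards [h1] with y hy
      unfold nus
      rw [chi_zero (by linarith), zero_mul]
    exact contDiffAt_const.congr_of_eventuallyEq hE
  · have h1 : ContDiffAt ℝ ∞ (fun y : V N => ‖toE y‖) x := by
      have h2 : ContDiffAt ℝ ∞ (fun v : Geo.Eu N => ‖v‖) (toE x) := contDiffAt_norm ℝ hx
      exact h2.comp x contDiff_toE.contDiffAt
    have h5 : ContDiffAt ℝ ∞ (fun y : V N => chi (4 * ‖toE y‖)) x :=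
      contDiff_chi.contDiffAt.comp x (contDiffAt_const.mul h1)
    exact h5.mul h1

theorem nus_eq {ξ : V N} (h : 1 / 2 ≤ ‖toE ξ‖) : nus ξ = ‖toE ξ‖ := by
  unfold nus
  rw [chi_one (by linarith), one_mul]

theorem nus_le (ξ : V N) : |nus ξ| ≤ ‖toE ξ‖ := by
  have h0 : 0 ≤ chi (4 * ‖toE ξ‖) := sq_nonneg _
  have h1 : chi (4 * ‖toE ξ‖) ≤ 1 := by
    unfold chi
    exact sin_sq_le_one _
  unfold nus
  rw [abs_mul, abs_of_nonneg h0, abs_of_nonneg (norm_nonneg _)]
  exact mul_le_of_le_one_left (norm_nonneg _) h1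

/-- polar coordinates, smooth version -/
def pvs (ξ : V N) (r : ℝ) : V (N + 1) := Fin.cons (nus ξ * cos (π * r)) (sin (π * r) • ξ)

/-- polar coordinates -/
def pvec (ξ : V N) (r : ℝ) : V (N + 1) := Fin.cons (‖toE ξ‖ * cos (π * r)) (sin (π * r) • ξ)

theorem pvs_eq {ξ : V N} (h : 1 / 2 ≤ ‖toE ξ‖) (r : ℝ) : pvs ξ r = pvec ξ r := by
  unfold pvs pvec
  rw [nus_eq h]

private theorem INTi_cons (a s : ℝ) (ξ : V N) :
    ‖toE (Fin.cons a (s • ξ) : V (N + 1))‖ ^ 2 = a ^ 2 + s ^ 2 * ‖toE ξ‖ ^ 2 := by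
  rw [INTi_sq, INTi_sq, Fin.sum_univ_succ, Finset.mul_sum]
  congr 1
  refine Finset.sum_congr rfl fun i _ => ?_
  show (s * ξ i) ^ 2 = s ^ 2 * ξ i ^ 2
  ring

theorem norm_pvec (ξ : V N) (r : ℝ) : ‖toE (pvec ξ r)‖ = ‖toE ξ‖ := by
  have h1 := INTi_cons (‖toE ξ‖ * cos (π * r)) (sin (π * r)) ξ
  have h2 : (‖toE ξ‖ * cos (π * r)) ^ 2 + sin (π * r) ^ 2 * ‖toE ξ‖ ^ 2 = ‖toE ξ‖ ^ 2 := by
    have h3 := sin_sq_add_cos_sq (π * r)
    calc (‖toE ξ‖ * cos (π * r)) ^ 2 + sin (π * r) ^ 2 * ‖toE ξ‖ ^ 2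
        = ‖toE ξ‖ ^ 2 * (sin (π * r) ^ 2 + cos (π * r) ^ 2) := by ring
      _ = ‖toE ξ‖ ^ 2 := by rw [h3, mul_one]
  rw [h2] at h1
  exact (sq_eq_sq₀ (norm_nonneg _) (norm_nonneg _)).1 h1

theorem norm_pvs_le (ξ : V N) (r : ℝ) : ‖toE (pvs ξ r)‖ ≤ ‖toE ξ‖ := by
  have h1 := INTi_cons (nus ξ * cos (π * r)) (sin (π * r)) ξ
  have h4 : nus ξ ^ 2 ≤ ‖toE ξ‖ ^ 2 := by
    rw [← sq_abs (nus ξ)]
    exact pow_le_pow_left₀ (abs_nonneg _) (nus_le ξ) 2
  have h2 : (nus ξ * cos (π * r)) ^ 2 + sin (π * r) ^ 2 * ‖toE ξ‖ ^ 2 ≤ ‖toE ξ‖ ^ 2 := by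
    have h3 := sin_sq_add_cos_sq (π * r)
    have h5 := mul_le_mul_of_nonneg_right h4 (sq_nonneg (cos (π * r)))
    calc (nus ξ * cos (π * r)) ^ 2 + sin (π * r) ^ 2 * ‖toE ξ‖ ^ 2
        = nus ξ ^ 2 * cos (π * r) ^ 2 + sin (π * r) ^ 2 * ‖toE ξ‖ ^ 2 := by ring
      _ ≤ ‖toE ξ‖ ^ 2 * cos (π * r) ^ 2 + sin (π * r) ^ 2 * ‖toE ξ‖ ^ 2 := by linarith
      _ = ‖toE ξ‖ ^ 2 * (sin (π * r) ^ 2 + cos (π * r) ^ 2) := by ring
      _ = ‖toE ξ‖ ^ 2 := by rw [h3, mul_one]
  rw [← h1] at h2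
  exact (sq_le_sq₀ (norm_nonneg _) (norm_nonneg _)).1 h2

theorem contDiff_pvs {E : Type*} [NormedAddCommGroup E] [NormedSpace ℝ E] {ξ : E → V N} {r : E → ℝ} (hξ : ContDiff ℝ ∞ ξ)
    (hr : ContDiff ℝ ∞ r) : ContDiff ℝ ∞ fun z => pvs (ξ z) (r z) := by
  rw [contDiff_pi]
  intro i
  refine Fin.cases ?_ (fun i => ?_) i
  · show ContDiff ℝ ∞ fun z => nus (ξ z) * cos (π * r z)
    exact (contDiff_nus.comp hξ).mul ((contDiff_const.mul hr).cos)
  · show ContDiff ℝ ∞ fun z => sin (π * r z) * ξ z i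
    exact ((contDiff_const.mul hr).sin).mul (contDiff_pi.1 hξ i)

/-- a determinant with a known value of the matrix at a vector with last coordinate `1` -/
private theorem INTi_det (M : Matrix (Fin (N + 1)) (Fin (N + 1)) ℝ) (v : Fin (N + 1) → ℝ) (hv : v (Fin.last N) = 1) (c : ℝ)
    (h : M.mulVec v = Pi.single 0 c) : M.det = (-1) ^ N * c * (M.submatrix Fin.succ Fin.castSucc).det := by
  have h1 : (M.updateCol (Fin.last N) (M.mulVec v)).det = M.det := by
    rw [← Matrix.cramer_apply, Matrix.cramer_eq_adjugate_mulVec, Matrix.mulVec_mulVec, Matrix.adjugate_mul,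
      Matrix.smul_mulVec, Matrix.one_mulVec, Pi.smul_apply, hv, smul_eq_mul, mul_one]
  rw [← h1, h, Matrix.det_succ_column _ (Fin.last N), Finset.sum_eq_single 0]
  · rw [Matrix.updateCol_self, Pi.single_eq_same]
    have h2 : (M.updateCol (Fin.last N) (Pi.single 0 c)).submatrix (Fin.succAbove 0) (Fin.succAbove (Fin.last N)) =
        M.submatrix Fin.succ Fin.castSucc := by
      ext i j
      rw [Matrix.submatrix_apply, Matrix.submatrix_apply, Fin.succAbove_zero, Fin.succAbove_last,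
        Matrix.updateCol_ne (Fin.castSucc_lt_last j).ne]
    rw [h2]
    simp
  · intro i _ hi
    rw [Matrix.updateCol_self, Pi.single_eq_of_ne hi, mul_zero, zero_mul]
  · intro h2
    exact absurd (Finset.mem_univ _) h2

/-- the Jacobian determinant -/
theorem det_pvs {ξ : V N} {r : ℝ} (hN : 1 ≤ N) (h : 1 / 2 < ‖toE ξ‖) (h0 : 0 < r) (h1 : r < 1) :
    LinearMap.det (fderiv ℝ (fun η : V (N + 1) => pvs (Fin.init η) (η (Fin.last N))) (Fin.snoc ξ r) :
      V (N + 1) →ₗ[ℝ] V (N + 1)) = (-1) ^ (N + 1) * (π * ‖toE ξ‖ * sin (π * r) ^ (N - 1)) := by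
  have hs : 0 < sin (π * r) := by
    refine sin_pos_of_pos_of_lt_pi (by positivity) ?_
    calc π * r < π * 1 := mul_lt_mul_of_pos_left h1 pi_pos
      _ = π := mul_one π
  obtain ⟨f, hf⟩ : ∃ f : V (N + 1) → V (N + 1), f = fun η => pvs (Fin.init η) (η (Fin.last N)) := ⟨_, rfl⟩
  obtain ⟨η₀, hη⟩ : ∃ η₀ : V (N + 1), η₀ = Fin.snoc ξ r := ⟨_, rfl⟩
  have hη1 : ∀ i, η₀ (Fin.castSucc i) = ξ i := by
    intro i
    rw [hη, Fin.snoc_castSucc (α := fun _ => ℝ)]
  have hη2 : η₀ (Fin.last N) = r := by rw [hη, Fin.snoc_last (α := fun _ => ℝ)]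
  rw [← hf, ← hη]
  have hfs : ContDiff ℝ ∞ f := by
    rw [hf]
    refine contDiff_pvs (contDiff_pi.2 fun i => ?_) ?_
    · exact contDiff_apply ℝ ℝ (Fin.castSucc i)
    · exact contDiff_apply ℝ ℝ (Fin.last N)
  have hd : HasFDerivAt f (fderiv ℝ f η₀) η₀ := (hfs.contDiffAt.differentiableAt (by simp)).hasFDerivAt
  have key : ∀ w : V (N + 1), HasDerivAt (fun t : ℝ => f (η₀ + t • w)) (fderiv ℝ f η₀ w) 0 := by
    intro w
    have k1 : HasDerivAt (fun t : ℝ => η₀ + t • w) w 0 := by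
      have k2 := ((hasDerivAt_id (0 : ℝ)).smul_const w).const_add η₀
      rw [one_smul] at k2
      exact k2
    have k3 : HasFDerivAt f (fderiv ℝ f η₀) (η₀ + (0 : ℝ) • w) := by
      rw [zero_smul, add_zero]
      exact hd
    exact k3.comp_hasDerivAt (0 : ℝ) k1
  have f0 : ∀ η : V (N + 1), f η 0 = nus (Fin.init η : V N) * cos (π * η (Fin.last N)) := by
    intro η
    rw [hf]
    rfl
  have fs : ∀ (η : V (N + 1)) (i : Fin N), f η (Fin.succ i) = sin (π * η (Fin.last N)) * η (Fin.castSucc i) := by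
    intro η i
    rw [hf]
    rfl
  -- the columns of the block
  have hcol : ∀ i j : Fin N, fderiv ℝ f η₀ (Pi.single (Fin.castSucc j) 1) (Fin.succ i) =
      sin (π * r) * (if i = j then 1 else 0) := by
    intro i j
    have k1 := hasDerivAt_pi.1 (key (Pi.single (Fin.castSucc j) 1)) (Fin.succ i)
    have k2 : (fun t : ℝ => f (η₀ + t • (Pi.single (Fin.castSucc j) 1 : V (N + 1))) (Fin.succ i)) =
        fun t => sin (π * r) * (ξ i + t * (if i = j then 1 else 0)) := by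
      funext t
      rw [fs]
      have k3 : (η₀ + t • (Pi.single (Fin.castSucc j) 1 : V (N + 1))) (Fin.last N) = r := by
        rw [Pi.add_apply, Pi.smul_apply, Pi.single_eq_of_ne (Fin.castSucc_lt_last j).ne', smul_zero, add_zero, hη2]
      have k4 : (η₀ + t • (Pi.single (Fin.castSucc j) 1 : V (N + 1))) (Fin.castSucc i) =
          ξ i + t * (if i = j then 1 else 0) := by
        rw [Pi.add_apply, Pi.smul_apply, hη1, Pi.single_apply, smul_eq_mul]
        congr 2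
        refine if_congr ?_ rfl rfl
        exact Fin.castSucc_inj
      rw [k3, k4]
    rw [k2] at k1
    have k5 : HasDerivAt (fun t : ℝ => sin (π * r) * (ξ i + t * (if i = j then 1 else 0)))
        (sin (π * r) * (1 * (if i = j then 1 else 0))) 0 :=
      (((hasDerivAt_id (0 : ℝ)).mul_const _).const_add _).const_mul _
    rw [one_mul] at k5
    exact k1.unique k5
  -- the value at the vector
  obtain ⟨lam, hlam⟩ : ∃ lam : ℝ, lam = -(π * cos (π * r) / sin (π * r)) := ⟨_, rfl⟩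
  obtain ⟨v, hv⟩ : ∃ v : V (N + 1), v = Fin.snoc (fun i => lam * ξ i) 1 := ⟨_, rfl⟩
  have hv1 : ∀ i, v (Fin.castSucc i) = lam * ξ i := by
    intro i
    rw [hv, Fin.snoc_castSucc (α := fun _ => ℝ)]
  have hv2 : v (Fin.last N) = 1 := by rw [hv, Fin.snoc_last (α := fun _ => ℝ)]
  have hLv : fderiv ℝ f η₀ v = Pi.single 0 (-(π * ‖toE ξ‖ / sin (π * r))) := by
    have e1 : ∀ t : ℝ, (η₀ + t • v) (Fin.last N) = r + t := by
      intro t
      rw [Pi.add_apply, Pi.smul_apply, hη2, hv2, smul_eq_mul, mul_one]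
    have e2 : ∀ (t : ℝ) (i : Fin N), (η₀ + t • v) (Fin.castSucc i) = (1 + t * lam) * ξ i := by
      intro t i
      rw [Pi.add_apply, Pi.smul_apply, hη1, hv1, smul_eq_mul]
      ring
    have d1 : HasDerivAt (fun t : ℝ => 1 + t * lam) lam 0 := by
      have k := ((hasDerivAt_id (0 : ℝ)).mul_const lam).const_add 1
      rw [one_mul] at k
      exact k
    have d0 : HasDerivAt (fun t : ℝ => π * (r + t)) π 0 := by
      have k := ((hasDerivAt_id (0 : ℝ)).const_add r).const_mul π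
      rw [mul_one] at k
      exact k
    funext i
    refine Fin.cases ?_ (fun i => ?_) i
    · rw [Pi.single_eq_same]
      have k1 := hasDerivAt_pi.1 (key v) 0
      have k2 : (fun t : ℝ => f (η₀ + t • v) 0) =ᶠ[𝓝 0] fun t => (1 + t * lam) * ‖toE ξ‖ * cos (π * (r + t)) := by
        have c1 : ContinuousAt (fun t : ℝ => 1 + t * lam) 0 := by fun_prop
        have c2 : ContinuousAt (fun t : ℝ => (1 + t * lam) * ‖toE ξ‖) 0 := by fun_prop
        filter_upwards [c1.eventually (lt_mem_nhds (show (0 : ℝ) < 1 + 0 * lam by rw [zero_mul, add_zero]; exact one_pos)),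
          c2.eventually (lt_mem_nhds (show 1 / 2 < (1 + 0 * lam) * ‖toE ξ‖ by rw [zero_mul, add_zero, one_mul]; exact h))]
          with t t1 t2
        rw [f0, e1]
        have e3 : (Fin.init (η₀ + t • v) : V N) = (1 + t * lam) • ξ := by
          funext i
          exact e2 t i
        have e4 : ‖toE ((1 + t * lam) • ξ)‖ = (1 + t * lam) * ‖toE ξ‖ := by
          have e5 : toE ((1 + t * lam) • ξ) = (1 + t * lam) • toE ξ := rfl
          rw [e5, norm_smul, Real.norm_eq_abs, abs_of_pos t1]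
        rw [e3, nus_eq (by rw [e4]; exact t2.le), e4]
      have k3 := k1.congr_of_eventuallyEq k2.symm
      have k4 : HasDerivAt (fun t : ℝ => (1 + t * lam) * ‖toE ξ‖ * cos (π * (r + t)))
          (lam * ‖toE ξ‖ * cos (π * (r + 0)) + (1 + 0 * lam) * ‖toE ξ‖ * (-sin (π * (r + 0)) * π)) 0 :=
        (d1.mul_const ‖toE ξ‖).mul d0.cos
      rw [k3.unique k4, add_zero, zero_mul, add_zero, one_mul, hlam]
      field_simp
      have k5 := sin_sq_add_cos_sq (π * r)
      linear_combination (-1 : ℝ) * k5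
    · rw [Pi.single_eq_of_ne (Fin.succ_ne_zero i)]
      have k1 := hasDerivAt_pi.1 (key v) (Fin.succ i)
      have k2 : (fun t : ℝ => f (η₀ + t • v) (Fin.succ i)) = fun t => sin (π * (r + t)) * ((1 + t * lam) * ξ i) := by
        funext t
        rw [fs, e1, e2]
      rw [k2] at k1
      have k4 : HasDerivAt (fun t : ℝ => sin (π * (r + t)) * ((1 + t * lam) * ξ i))
          (cos (π * (r + 0)) * π * ((1 + 0 * lam) * ξ i) + sin (π * (r + 0)) * (lam * ξ i)) 0 :=
        d0.sin.mul (d1.mul_const (ξ i))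
      rw [k1.unique k4, add_zero, zero_mul, add_zero, one_mul, hlam]
      field_simp
      ring
  obtain ⟨L, hL⟩ : ∃ L : V (N + 1) →ₗ[ℝ] V (N + 1), L = (fderiv ℝ f η₀ : V (N + 1) →ₗ[ℝ] V (N + 1)) := ⟨_, rfl⟩
  rw [← hL, ← LinearMap.det_toMatrix', INTi_det (LinearMap.toMatrix' L) v hv2 (-(π * ‖toE ξ‖ / sin (π * r)))]
  · have h2 : (LinearMap.toMatrix' L).submatrix Fin.succ Fin.castSucc = Matrix.diagonal fun _ : Fin N => sin (π * r) := by
      ext i j
      rw [Matrix.submatrix_apply, LinearMap.toMatrix'_apply, Matrix.diagonal_apply, hL]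
      refine Eq.trans (hcol i j) ?_
      split_ifs
      · rw [mul_one]
      · rw [mul_zero]
    rw [h2, Matrix.det_diagonal, Finset.prod_const, Finset.card_univ, Fintype.card_fin]
    obtain ⟨N', rfl⟩ : ∃ N', N = N' + 1 := ⟨N - 1, by omega⟩
    rw [Nat.add_sub_cancel, pow_succ (-1 : ℝ) (N' + 1), pow_succ (sin (π * r)) N']
    field_simp
  · rw [LinearMap.toMatrix'_mulVec, hL]
    exact hLv

private theorem INTi1b_le {ξ : V N} (i : Fin N) : |ξ i| ≤ ‖toE ξ‖ := by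
  have h := PiLp.norm_apply_le (p := 2) (β := fun _ : Fin N => ℝ) (toE ξ) i
  exact h

private theorem INTi1b_sq (η : V (N + 1)) : ‖toE η‖ ^ 2 = η 0 ^ 2 + ‖toE (Fin.tail η : V N)‖ ^ 2 := by
  rw [EuclideanSpace.norm_sq_eq, EuclideanSpace.norm_sq_eq, Fin.sum_univ_succ]
  simp only [Real.norm_eq_abs, sq_abs]
  rfl

private theorem INTi1b_smul (c : ℝ) (ξ : V N) : ‖toE (c • ξ)‖ = |c| * ‖toE ξ‖ := by
  have h : toE (c • ξ) = c • toE ξ := rfl
  rw [h, norm_smul, Real.norm_eq_abs]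

private theorem INTi1b_fub {H : V (N + 1) → ℝ} (hH : Continuous H)
    (h0 : ∀ (ξ : V N) (r : ℝ), ξ ∉ Set.Icc (fun _ => (-2 : ℝ)) (fun _ => 2) → H (Fin.snoc ξ r) = 0) :
    ∫ ξ : V N, ∫ r in (0 : ℝ)..1, H (Fin.snoc ξ r) =
      ∫ η in {η : V (N + 1) | 0 < η (Fin.last N) ∧ η (Fin.last N) < 1}, H η := by
  have hmp := (MeasureTheory.volume_preserving_piFinSuccAbove (fun _ : Fin (N + 1) => ℝ) (Fin.last N)).symm
  have h1 := hmp.setIntegral_preimage_emb (MeasurableEquiv.measurableEmbedding _) H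
    {η : V (N + 1) | 0 < η (Fin.last N) ∧ η (Fin.last N) < 1}
  rw [← h1]
  have hval : ∀ q : ℝ × V N, (MeasurableEquiv.piFinSuccAbove (fun _ : Fin (N + 1) => ℝ) (Fin.last N)).symm q =
      Fin.snoc q.2 q.1 := by
    intro q
    exact Fin.insertNth_last' q.1 q.2
  have hset : (MeasurableEquiv.piFinSuccAbove (fun _ : Fin (N + 1) => ℝ) (Fin.last N)).symm ⁻¹'
      {η : V (N + 1) | 0 < η (Fin.last N) ∧ η (Fin.last N) < 1} = (Set.Ioo (0 : ℝ) 1) ×ˢ (Set.univ : Set (V N)) := by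
    ext q
    rw [Set.mem_preimage, hval, Set.mem_prod]
    show (0 < (Fin.snoc q.2 q.1 : V (N + 1)) (Fin.last N) ∧ (Fin.snoc q.2 q.1 : V (N + 1)) (Fin.last N) < 1) ↔ _
    rw [Fin.snoc_last]
    exact ⟨fun h => ⟨h, trivial⟩, fun h => h.1⟩
  rw [hset]
  simp only [hval]
  have hc : Continuous fun q : ℝ × V N => H (Fin.snoc q.2 q.1) :=
    hH.comp ((contDiff_snoc (k := N)).continuous.comp (continuous_snd.prodMk continuous_fst))
  have hint0 : IntegrableOn (fun q : ℝ × V N => H (Fin.snoc q.2 q.1))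
      (Set.Icc (0 : ℝ) 1 ×ˢ Set.Icc (fun _ => (-2 : ℝ)) (fun _ => 2)) (volume.prod volume) :=
    hc.continuousOn.integrableOn_compact (isCompact_Icc.prod isCompact_Icc)
  have hint : IntegrableOn (fun q : ℝ × V N => H (Fin.snoc q.2 q.1)) (Set.Ioo (0 : ℝ) 1 ×ˢ (Set.univ : Set (V N)))
      (volume.prod volume) := by
    refine hint0.of_forall_sdiff_eq_zero (measurableSet_Ioo.prod MeasurableSet.univ) ?_
    rintro ⟨r, ξ⟩ ⟨⟨hr, -⟩, hq⟩
    refine h0 ξ r fun hξ => hq ⟨⟨hr.1.le, hr.2.le⟩, hξ⟩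
  have h2 := setIntegral_prod (fun q : ℝ × V N => H (Fin.snoc q.2 q.1)) hint
  have h3 : ∫ q in Set.Ioo (0 : ℝ) 1 ×ˢ (Set.univ : Set (V N)), H (Fin.snoc q.2 q.1) =
      ∫ r in Set.Ioo (0 : ℝ) 1, ∫ ξ in (Set.univ : Set (V N)), H (Fin.snoc ξ r) := h2
  rw [h3]
  have h4 : Integrable (Function.uncurry fun (r : ℝ) (ξ : V N) => H (Fin.snoc ξ r))
      ((volume.restrict (Set.Ioo (0 : ℝ) 1)).prod (volume.restrict (Set.univ : Set (V N)))) := by
    rw [Measure.prod_restrict]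
    exact hint
  rw [integral_integral_swap h4, Measure.restrict_univ]
  refine integral_congr_ae (Eventually.of_forall fun ξ => ?_)
  show ∫ r in (0 : ℝ)..1, H (Fin.snoc ξ r) = ∫ r in Set.Ioo (0 : ℝ) 1, H (Fin.snoc ξ r)
  rw [intervalIntegral.integral_of_le zero_le_one, integral_Ioc_eq_integral_Ioo]

/-- the domain of the polar coordinates -/
private def INTi1b_s (N : ℕ) : Set (V (N + 1)) :=
  {η | 1 / 2 < ‖toE (Fin.init η : V N)‖ ∧ 0 < η (Fin.last N) ∧ η (Fin.last N) < 1}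

private theorem INTi1b_init : Continuous fun η : V (N + 1) => (Fin.init η : V N) :=
  continuous_pi fun i => continuous_apply (Fin.castSucc i)

private theorem INTi1b_open : IsOpen (INTi1b_s N) := by
  have h1 : Continuous fun η : V (N + 1) => ‖toE (Fin.init η : V N)‖ :=
    (contDiff_toE.continuous.comp INTi1b_init).norm
  exact (isOpen_lt continuous_const h1).inter
    ((isOpen_lt continuous_const (continuous_apply _)).inter (isOpen_lt (continuous_apply _) continuous_const))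

private theorem INTi1b_sin {r : ℝ} (h0 : 0 < r) (h1 : r < 1) : 0 < sin (π * r) :=
  Real.sin_pos_of_pos_of_lt_pi (mul_pos Real.pi_pos h0) (by nlinarith [Real.pi_pos])

private theorem INTi1b_inj : Set.InjOn (fun η : V (N + 1) => pvs (Fin.init η) (η (Fin.last N))) (INTi1b_s N) := by
  rintro η ⟨h1, h2, h3⟩ η' ⟨h1', h2', h3'⟩ he
  have he1 : pvec (Fin.init η : V N) (η (Fin.last N)) = pvec (Fin.init η' : V N) (η' (Fin.last N)) := by
    rw [← pvs_eq h1.le, ← pvs_eq h1'.le]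
    exact he
  have hn : ‖toE (Fin.init η : V N)‖ = ‖toE (Fin.init η' : V N)‖ := by
    rw [← norm_pvec (Fin.init η : V N) (η (Fin.last N)), he1, norm_pvec]
  have hh : ‖toE (Fin.init η : V N)‖ * cos (π * η (Fin.last N)) = ‖toE (Fin.init η' : V N)‖ * cos (π * η' (Fin.last N)) := by
    have h := congrFun he1 0
    unfold pvec at h
    rwa [Fin.cons_zero, Fin.cons_zero] at h
  have hc : cos (π * η (Fin.last N)) = cos (π * η' (Fin.last N)) := by
    rw [← hn] at hh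
    exact mul_left_cancel₀ (by linarith : ‖toE (Fin.init η : V N)‖ ≠ 0) hh
  have hr : η (Fin.last N) = η' (Fin.last N) := by
    have h := Real.injOn_cos ⟨by positivity, by nlinarith [Real.pi_pos]⟩ ⟨by positivity, by nlinarith [Real.pi_pos]⟩ hc
    exact mul_left_cancel₀ Real.pi_ne_zero h
  have hξ : (Fin.init η : V N) = Fin.init η' := by
    funext i
    have h := congrFun he1 (Fin.succ i)
    unfold pvec at h
    rw [Fin.cons_succ, Fin.cons_succ, ← hr] at h
    have h4 : sin (π * η (Fin.last N)) * (Fin.init η : V N) i = sin (π * η (Fin.last N)) * (Fin.init η' : V N) i := h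
    exact mul_left_cancel₀ (INTi1b_sin h2 h3).ne' h4
  rw [← Fin.snoc_init_self η, ← Fin.snoc_init_self η', hr]
  congr 1

private theorem INTi1b_im {y : V (N + 1)} (h1 : 1 ≤ ‖toE y‖) (ht : (Fin.tail y : V N) ≠ 0) :
    y ∈ (fun η : V (N + 1) => pvs (Fin.init η) (η (Fin.last N))) '' (INTi1b_s N) := by
  obtain ⟨ρ, hρ⟩ : ∃ ρ, ρ = ‖toE y‖ := ⟨_, rfl⟩
  obtain ⟨τ, hτ⟩ : ∃ τ, τ = ‖toE (Fin.tail y : V N)‖ := ⟨_, rfl⟩
  rw [← hρ] at h1
  have hρ0 : 0 < ρ := by linarith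
  have hτ0 : 0 < τ := by
    rw [hτ, norm_pos_iff]
    intro h
    apply ht
    funext i
    exact congrFun (congrArg (fun z : EuclideanSpace ℝ (Fin N) => (WithLp.ofLp z : V N)) h) i
  have hsq : ρ ^ 2 = y 0 ^ 2 + τ ^ 2 := by
    rw [hρ, hτ]
    exact INTi1b_sq y
  have hle : |y 0 / ρ| ≤ 1 := by
    rw [abs_div, abs_of_pos hρ0, div_le_one hρ0]
    exact abs_le_of_sq_le_sq (by nlinarith [sq_nonneg τ]) hρ0.le
  obtain ⟨hl, hu⟩ := abs_le.1 hle
  obtain ⟨θ, hθ⟩ : ∃ θ, θ = Real.arccos (y 0 / ρ) := ⟨_, rfl⟩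
  have hcos : cos θ = y 0 / ρ := by
    rw [hθ]
    exact Real.cos_arccos hl hu
  have hsin : sin θ = τ / ρ := by
    rw [hθ, Real.sin_arccos]
    have h2 : 1 - (y 0 / ρ) ^ 2 = (τ / ρ) ^ 2 := by
      field_simp
      linarith
    rw [h2]
    exact Real.sqrt_sq (by positivity)
  have hθ0 : 0 ≤ θ := by
    rw [hθ]
    exact Real.arccos_nonneg _
  have hθ1 : θ ≤ π := by
    rw [hθ]
    exact Real.arccos_le_pi _
  have hsp : 0 < sin θ := by
    rw [hsin]
    positivity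
  have hθ2 : 0 < θ := by
    rcases hθ0.lt_or_eq with h | h
    · exact h
    · rw [← h, sin_zero] at hsp
      exact absurd hsp (lt_irrefl _)
  have hθ3 : θ < π := by
    rcases hθ1.lt_or_eq with h | h
    · exact h
    · rw [h, sin_pi] at hsp
      exact absurd hsp (lt_irrefl _)
  have hπr : π * (θ / π) = θ := by
    field_simp
  obtain ⟨ξ, hξ⟩ : ∃ ξ : V N, ξ = (sin θ)⁻¹ • (Fin.tail y : V N) := ⟨_, rfl⟩
  have hnξ : ‖toE ξ‖ = ρ := by
    rw [hξ, INTi1b_smul, ← hτ, abs_of_pos (inv_pos.2 hsp), hsin]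
    field_simp
  refine ⟨Fin.snoc ξ (θ / π), ⟨?_, ?_, ?_⟩, ?_⟩
  · rw [Fin.init_snoc, hnξ]
    linarith
  · rw [Fin.snoc_last]
    positivity
  · rw [Fin.snoc_last]
    exact (div_lt_one Real.pi_pos).2 hθ3
  · show pvs (Fin.init (Fin.snoc ξ (θ / π) : V (N + 1))) ((Fin.snoc ξ (θ / π) : V (N + 1)) (Fin.last N)) = y
    rw [Fin.init_snoc, Fin.snoc_last, pvs_eq (by rw [hnξ]; linarith)]
    funext i
    refine Fin.cases ?_ (fun j => ?_) i
    · show ‖toE ξ‖ * cos (π * (θ / π)) = y 0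
      rw [hπr, hnξ, hcos]
      field_simp
    · show sin (π * (θ / π)) * ξ j = y (Fin.succ j)
      rw [hπr, hξ]
      show sin θ * ((sin θ)⁻¹ * y (Fin.succ j)) = y (Fin.succ j)
      rw [← mul_assoc, mul_inv_cancel₀ hsp.ne', one_mul]

private theorem INTi1b_null (hN : 1 ≤ N) : ∀ᵐ y : V (N + 1), (Fin.tail y : V N) ≠ 0 := by
  obtain ⟨i⟩ : Nonempty (Fin N) := ⟨⟨0, hN⟩⟩
  have h1 : volume ((LinearMap.ker (LinearMap.proj (Fin.succ i) : V (N + 1) →ₗ[ℝ] ℝ) : Submodule ℝ (V (N + 1))) :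
      Set (V (N + 1))) = 0 := by
    refine Measure.addHaar_submodule _ _ ?_
    intro h2
    have h3 : (Pi.single (Fin.succ i) 1 : V (N + 1)) ∈ LinearMap.ker (LinearMap.proj (Fin.succ i) : V (N + 1) →ₗ[ℝ] ℝ) := by
      rw [h2]
      trivial
    rw [LinearMap.mem_ker, LinearMap.proj_apply, Pi.single_eq_same] at h3
    exact one_ne_zero h3
  rw [ae_iff]
  refine measure_mono_null ?_ h1
  intro y hy
  have h2 : (Fin.tail y : V N) = 0 := not_not.1 hy
  exact congrFun h2 i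

/-- integration in polar coordinates -/
theorem pol_int (hN : 1 ≤ N) {g : V (N + 1) → ℝ} (hg : Continuous g)
    (h0 : ∀ ξ, ‖toE ξ‖ < 1 ∨ 2 < ‖toE ξ‖ → g ξ = 0) :
    ∫ ξ : V N, ∫ r in (0 : ℝ)..1, (π * ‖toE ξ‖ * sin (π * r) ^ (N - 1)) * g (pvs ξ r) = ∫ η, g η := by
  have hf : ContDiff ℝ ∞ fun η : V (N + 1) => pvs (Fin.init η : V N) (η (Fin.last N)) :=
    contDiff_pvs (contDiff_pi.2 fun i => contDiff_apply ℝ ℝ (Fin.castSucc i)) (contDiff_apply ℝ ℝ (Fin.last N))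
  obtain ⟨H, hH⟩ : ∃ H : V (N + 1) → ℝ, H = fun η => (π * ‖toE (Fin.init η : V N)‖ * sin (π * η (Fin.last N)) ^ (N - 1)) *
      g (pvs (Fin.init η) (η (Fin.last N))) := ⟨_, rfl⟩
  have hHc : Continuous H := by
    rw [hH]
    have h1 : Continuous fun η : V (N + 1) => ‖toE (Fin.init η : V N)‖ :=
      (contDiff_toE.continuous.comp INTi1b_init).norm
    have h2 : Continuous fun η : V (N + 1) => sin (π * η (Fin.last N)) ^ (N - 1) :=
      (Real.continuous_sin.comp (continuous_const.mul (continuous_apply _))).pow _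
    exact ((continuous_const.mul h1).mul h2).mul (hg.comp hf.continuous)
  have hHs : ∀ (ξ : V N) (r : ℝ), H (Fin.snoc ξ r) = (π * ‖toE ξ‖ * sin (π * r) ^ (N - 1)) * g (pvs ξ r) := by
    intro ξ r
    rw [hH]
    simp only [Fin.init_snoc, Fin.snoc_last]
  have hH0 : ∀ (ξ : V N) (r : ℝ), ξ ∉ Set.Icc (fun _ => (-2 : ℝ)) (fun _ => 2) → H (Fin.snoc ξ r) = 0 := by
    intro ξ r hξ
    rw [hHs]
    have h1 : 2 < ‖toE ξ‖ := by
      by_contra h2
      apply hξ
      rw [not_lt] at h2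
      exact ⟨fun i => (abs_le.1 ((INTi1b_le i).trans h2)).1, fun i => (abs_le.1 ((INTi1b_le i).trans h2)).2⟩
    have h2 : g (pvs ξ r) = 0 := by
      refine h0 _ (Or.inr ?_)
      rw [pvs_eq (by linarith), norm_pvec]
      exact h1
    rw [h2, mul_zero]
  have hlhs : ∫ ξ : V N, ∫ r in (0 : ℝ)..1, (π * ‖toE ξ‖ * sin (π * r) ^ (N - 1)) * g (pvs ξ r) =
      ∫ ξ : V N, ∫ r in (0 : ℝ)..1, H (Fin.snoc ξ r) := by
    simp only [hHs]
  rw [hlhs, INTi1b_fub hHc hH0]
  have hmS : MeasurableSet {η : V (N + 1) | 0 < η (Fin.last N) ∧ η (Fin.last N) < 1} :=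
    ((isOpen_lt continuous_const (continuous_apply _)).inter (isOpen_lt (continuous_apply _) continuous_const)).measurableSet
  have hstep : ∫ η in {η : V (N + 1) | 0 < η (Fin.last N) ∧ η (Fin.last N) < 1}, H η = ∫ η in INTi1b_s N, H η := by
    refine setIntegral_eq_of_subset_of_forall_sdiff_eq_zero hmS (fun η hη => hη.2) ?_
    rintro η ⟨hη1, hη2⟩
    have h1 : ‖toE (Fin.init η : V N)‖ ≤ 1 / 2 := by
      by_contra h2
      exact hη2 ⟨not_le.1 h2, hη1⟩
    rw [hH]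
    have h2 : g (pvs (Fin.init η) (η (Fin.last N))) = 0 := by
      refine h0 _ (Or.inl ?_)
      have := norm_pvs_le (Fin.init η : V N) (η (Fin.last N))
      linarith
    show _ * g (pvs (Fin.init η) (η (Fin.last N))) = 0
    rw [h2, mul_zero]
  rw [hstep]
  have hcv := integral_image_eq_integral_abs_det_fderiv_smul (μ := (volume : Measure (V (N + 1)))) (s := INTi1b_s N)
    (f := fun η : V (N + 1) => pvs (Fin.init η : V N) (η (Fin.last N)))
    (f' := fun η => fderiv ℝ (fun η : V (N + 1) => pvs (Fin.init η : V N) (η (Fin.last N))) η)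
    INTi1b_open.measurableSet
    (fun η _ => (hf.differentiable (by simp) η).hasFDerivAt.hasFDerivWithinAt) INTi1b_inj g
  have hdet : ∫ η in INTi1b_s N, |(fderiv ℝ (fun η : V (N + 1) => pvs (Fin.init η : V N) (η (Fin.last N))) η).det| •
      g (pvs (Fin.init η : V N) (η (Fin.last N))) = ∫ η in INTi1b_s N, H η := by
    refine setIntegral_congr_fun INTi1b_open.measurableSet ?_
    rintro η ⟨h1, h2, h3⟩
    have hd := det_pvs hN h1 h2 h3
    rw [Fin.snoc_init_self] at hd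
    have hs := INTi1b_sin h2 h3
    have hd2 : |(fderiv ℝ (fun η : V (N + 1) => pvs (Fin.init η : V N) (η (Fin.last N))) η).det| =
        π * ‖toE (Fin.init η : V N)‖ * sin (π * η (Fin.last N)) ^ (N - 1) := by
      have hd3 : (fderiv ℝ (fun η : V (N + 1) => pvs (Fin.init η : V N) (η (Fin.last N))) η).det =
          (-1) ^ (N + 1) * (π * ‖toE (Fin.init η : V N)‖ * sin (π * η (Fin.last N)) ^ (N - 1)) := hd
      rw [hd3, abs_mul, abs_pow, abs_neg, abs_one, one_pow, one_mul, abs_of_nonneg]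
      have := Real.pi_pos
      positivity
    show |(fderiv ℝ (fun η : V (N + 1) => pvs (Fin.init η : V N) (η (Fin.last N))) η).det| •
      g (pvs (Fin.init η : V N) (η (Fin.last N))) = H η
    rw [hd2, hH, smul_eq_mul]
  rw [← hdet, ← hcv]
  refine setIntegral_eq_integral_of_ae_compl_eq_zero ?_
  filter_upwards [INTi1b_null hN] with y hy hys
  by_contra hgy
  apply hys
  refine INTi1b_im ?_ hy
  by_contra h1
  exact hgy (h0 y (Or.inl (not_le.1 h1)))

/-- `(z, ξ, r) ↦ (z, polar ξ r)` -/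
def PHI (k N : ℕ) : FR.Sm (k + (N + 1)) (k + (N + 1)) :=
  ⟨fun w => Fin.append (hdM k (N + 1) w) (pvs (Fin.init (tlM k (N + 1) w)) (tlM k (N + 1) w (Fin.last N))),
    contDiff_append (hdM k (N + 1)).smooth (contDiff_pvs
      (contDiff_pi.2 fun i => (contDiff_pi.1 (tlM k (N + 1)).smooth (Fin.castSucc i)))
      (contDiff_pi.1 (tlM k (N + 1)).smooth (Fin.last N)))⟩

/-- the polar map on `R^(N+1)` -/
private def INTi2_F (N : ℕ) : FR.Sm (N + 1) (N + 1) :=
  ⟨fun η => pvs (Fin.init η) (η (Fin.last N)), contDiff_pvs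
    (contDiff_pi.2 fun i => contDiff_apply ℝ ℝ (Fin.castSucc i)) (contDiff_apply ℝ ℝ (Fin.last N))⟩

private theorem INTi2_PHI (z : V k) (η : V (N + 1)) :
    PHI k N (Fin.append z η) = Fin.append z (INTi2_F N η) := by
  show (Fin.append (hdM k (N + 1) (Fin.append z η)) (pvs (Fin.init (tlM k (N + 1) (Fin.append z η)))
    (tlM k (N + 1) (Fin.append z η) (Fin.last N))) : V (k + (N + 1))) = _
  rw [hdM_append, tlM_append]
  rfl

private theorem INTi2_F_snoc (ξ : V N) (r : ℝ) : INTi2_F N (Fin.snoc ξ r) = pvs ξ r := by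
  show pvs (Fin.init (Fin.snoc ξ r : V (N + 1))) ((Fin.snoc ξ r : V (N + 1)) (Fin.last N)) = pvs ξ r
  rw [Fin.init_snoc, Fin.snoc_last]

private theorem INTi2_PHI_snoc (z : V k) (ξ : V N) (r : ℝ) :
    PHI k N (Fin.append z (Fin.snoc ξ r : V (N + 1))) = Fin.append z (pvs ξ r) := by
  rw [INTi2_PHI, INTi2_F_snoc]

private theorem INTi2_pd_tl (i j : Fin (N + 1)) : pd (Fin.natAdd k i) ((PHI k N).cp (Fin.natAdd k j)) =
    (tlM k (N + 1)).pull (pd i ((INTi2_F N).cp j)) := by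
  have h1 : (PHI k N).cp (Fin.natAdd k j) = (tlM k (N + 1)).pull ((INTi2_F N).cp j) := by
    apply Cs_ext
    intro x
    exact Fin.append_right (hdM k (N + 1) x)
      (pvs (Fin.init (tlM k (N + 1) x)) (tlM k (N + 1) x (Fin.last N))) j
  rw [h1, pd_pull, Finset.sum_eq_single i]
  · have h2 : (tlM k (N + 1)).cp i = co (Fin.natAdd k i) := rfl
    rw [h2, pd_co, if_pos rfl, mul_one]
  · intro l _ hl
    have h2 : (tlM k (N + 1)).cp l = co (Fin.natAdd k l) := rfl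
    rw [h2, pd_co, if_neg, mul_zero]
    intro h
    exact hl ((Fin.natAdd_injective (N + 1) k) h).symm
  · intro h
    exact absurd (Finset.mem_univ i) h

private theorem INTi2_pd_hd (i : Fin k) (j : Fin (N + 1)) : pd (Fin.castAdd (N + 1) i) ((PHI k N).cp (Fin.natAdd k j)) =
    0 := by
  have h1 : (PHI k N).cp (Fin.natAdd k j) = (tlM k (N + 1)).pull ((INTi2_F N).cp j) := by
    apply Cs_ext
    intro x
    exact Fin.append_right (hdM k (N + 1) x)
      (pvs (Fin.init (tlM k (N + 1) x)) (tlM k (N + 1) x (Fin.last N))) j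
  rw [h1, pd_pull]
  refine Finset.sum_eq_zero fun l _ => ?_
  have h2 : (tlM k (N + 1)).cp l = co (Fin.natAdd k l) := rfl
  rw [h2, pd_co, if_neg, mul_zero]
  intro h
  have h3 := congrArg Fin.val h
  simp only [Fin.val_natAdd, Fin.val_castAdd] at h3
  omega

private theorem INTi2_cp_hd (j : Fin k) : (PHI k N).cp (Fin.castAdd (N + 1) j) = co (Fin.castAdd (N + 1) j) := by
  apply Cs_ext
  intro x
  exact Fin.append_left (hdM k (N + 1) x)
    (pvs (Fin.init (tlM k (N + 1) x)) (tlM k (N + 1) x (Fin.last N))) j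

private theorem INTi2_tr (z : V k) (η : V (N + 1)) (a : V k) (b : V (N + 1)) :
    tr (PHI k N) (Fin.append z η) (Fin.append a b) =
      Fin.append (a + (0 : V (N + 1) →ₗ[ℝ] V k) b) (tr (INTi2_F N) η b) := by
  funext i
  have h0 : tr (PHI k N) (Fin.append z η) (Fin.append a b) i =
      ∑ j, (Fin.append a b : V (k + (N + 1))) j *
        (pd i ((PHI k N).cp j) : V (k + (N + 1)) → ℝ) (Fin.append z η) := rfl
  rw [h0, Fin.sum_univ_add]
  refine Fin.addCases (fun i => ?_) (fun i => ?_) i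
  · rw [Fin.append_left]
    have h1 : ∑ j : Fin (N + 1), (Fin.append a b : V (k + (N + 1))) (Fin.natAdd k j) *
        (pd (Fin.castAdd (N + 1) i) ((PHI k N).cp (Fin.natAdd k j)) : V (k + (N + 1)) → ℝ) (Fin.append z η) = 0 := by
      refine Finset.sum_eq_zero fun j _ => ?_
      rw [INTi2_pd_hd]
      exact mul_zero _
    rw [h1, add_zero, Finset.sum_eq_single i]
    · rw [Fin.append_left, INTi2_cp_hd, pd_co, if_pos rfl]
      show a i * 1 = a i + 0
      rw [mul_one, add_zero]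
    · intro j _ hj
      rw [INTi2_cp_hd, pd_co, if_neg]
      · exact mul_zero _
      · intro h
        exact hj ((Fin.castAdd_injective k (N + 1)) h).symm
    · intro h
      exact absurd (Finset.mem_univ i) h
  · rw [Fin.append_right]
    have h1 : ∑ j : Fin k, (Fin.append a b : V (k + (N + 1))) (Fin.castAdd (N + 1) j) *
        (pd (Fin.natAdd k i) ((PHI k N).cp (Fin.castAdd (N + 1) j)) : V (k + (N + 1)) → ℝ) (Fin.append z η) = 0 := by
      refine Finset.sum_eq_zero fun j _ => ?_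
      rw [INTi2_cp_hd, pd_co, if_neg]
      · exact mul_zero _
      · intro h
        have h2 := congrArg Fin.val h
        simp only [Fin.val_natAdd, Fin.val_castAdd] at h2
        omega
    rw [h1, zero_add]
    have h2 : tr (INTi2_F N) η b i = ∑ j, b j * (pd i ((INTi2_F N).cp j) : V (N + 1) → ℝ) η := rfl
    rw [h2]
    refine Finset.sum_congr rfl fun j _ => ?_
    rw [Fin.append_right, INTi2_pd_tl, Sm.pull_apply, tlM_append]

private theorem INTi2_det {n : ℕ} (A : V n →L[ℝ] V n) :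
    LinearMap.det (trL A) = LinearMap.det (A : V n →ₗ[ℝ] V n) := by
  rw [← LinearMap.det_toMatrix', ← LinearMap.det_toMatrix', ← Matrix.det_transpose]
  congr 1
  ext i j
  rw [Matrix.transpose_apply, LinearMap.toMatrix'_apply, LinearMap.toMatrix'_apply]
  show ∑ l, (Pi.single i (1 : ℝ) : V n) l * A (Pi.single j 1) l = A (Pi.single j 1) i
  rw [Finset.sum_eq_single i]
  · rw [Pi.single_eq_same, one_mul]
  · intro b _ hb
    rw [Pi.single_eq_of_ne hb, zero_mul]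
  · intro h
    exact absurd (Finset.mem_univ i) h

theorem tN_PHI (hN : 1 ≤ N) (x : Fm (k + (N + 1))) (z : V k) {ξ : V N} (h : 1 / 2 < ‖toE ξ‖) {r : ℝ} (h0 : 0 < r)
    (h1 : r < 1) : tN k (N + 1) (ev (Fin.append z (Fin.snoc ξ r : V (N + 1))) (pb (PHI k N) x)) =
      ((-1) ^ (N + 1) * (π * ‖toE ξ‖ * sin (π * r) ^ (N - 1))) • tN k (N + 1) (ev (Fin.append z (pvs ξ r)) x) := by
  rw [ev_pb, tN_map (INTi2_tr z (Fin.snoc ξ r)), INTi2_PHI_snoc, tr_eq, INTi2_det]
  congr 1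
  exact det_pvs hN h h0 h1

private theorem INTi2_abs {n : ℕ} (ξ : V n) (i : Fin n) : |ξ i| ≤ ‖toE ξ‖ := by
  have h := PiLp.norm_apply_le (toE ξ) i
  rw [Real.norm_eq_abs] at h
  exact h

private theorem INTi2_zero {x : Fm (k + (N + 1))}
    (hx : ∀ w, ‖toE (tlM k (N + 1) w)‖ < 1 ∨ 2 < ‖toE (tlM k (N + 1) w)‖ → ev w x = 0) (z : V k) (ξ : V N)
    (r : ℝ) (h : ‖toE (pvs ξ r)‖ < 1 ∨ 2 < ‖toE (pvs ξ r)‖) :
    ev (Fin.append z (Fin.snoc ξ r : V (N + 1))) (pb (PHI k N) x) = 0 := by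
  rw [ev_pb, INTi2_PHI_snoc, hx _ (by rw [tlM_append]; exact h), map_zero]

private theorem INTi2_VS {x : Fm (k + (N + 1))}
    (hx : ∀ w, ‖toE (tlM k (N + 1) w)‖ < 1 ∨ 2 < ‖toE (tlM k (N + 1) w)‖ → ev w x = 0) :
    VS (k := k) (N := N) (KK (k + N) (pb (PHI k N) x)) := by
  rintro w ⟨i, hi⟩
  rw [← Module.forall_dual_apply_eq_zero_iff ℝ]
  intro L
  rw [INTe_KK]
  have h1 : ∀ s : ℝ, ev (Fin.snoc w s : V (k + N + 1)) (pb (PHI k N) x) = 0 := by
    intro s
    have h2 : (Fin.snoc w s : V (k + N + 1)) =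
        Fin.append (hdM k N w) (Fin.snoc (tlM k N w) s : V (N + 1)) := by
      rw [← INTe_append_snoc, append_hd_tl]
    rw [h2]
    refine INTi2_zero hx _ _ _ (Or.inr ?_)
    have h3 : |tlM k N w i| ≤ ‖toE (tlM k N w)‖ := INTi2_abs _ _
    rw [pvs_eq (by linarith), norm_pvec]
    linarith
  simp only [h1, map_zero]
  exact intervalIntegral.integral_zero

/-- fibre integral in polar coordinates -/
theorem J_PHI (hN : 1 ≤ N) {x : Fm (k + (N + 1))}
    (hx : ∀ w, ‖toE (tlM k (N + 1) w)‖ < 1 ∨ 2 < ‖toE (tlM k (N + 1) w)‖ → ev w x = 0) :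
    Jn k N (KK (k + N) (pb (PHI k N) x)) = (-1 : ℝ) ^ (N + 1) • Jn k (N + 1) x := by
  rw [← sub_eq_zero]
  refine ev_fun_inj fun L z => ?_
  have hVS : VS (k := k) (N := N + 1) x := by
    rintro w ⟨i, hi⟩
    refine hx w (Or.inr ?_)
    have h3 : |tlM k (N + 1) w i| ≤ ‖toE (tlM k (N + 1) w)‖ := INTi2_abs _ _
    linarith
  rw [map_sub, map_sub, map_smul, map_smul, smul_eq_mul, ev_J (INTi2_VS hx), ev_J hVS, sub_eq_zero]
  obtain ⟨g, hg⟩ : ∃ g : V (N + 1) → ℝ, g = fun ξ => L (tN k (N + 1) (ev (Fin.append z ξ) x)) := ⟨_, rfl⟩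
  have hgc : Continuous g := by
    have h1 := (contDiff_coef (L.comp (tN k (N + 1))) x).continuous
    have h2 : Continuous fun ξ : V (N + 1) => (Fin.append z ξ : V (k + (N + 1))) :=
      (contDiff_append contDiff_const contDiff_id).continuous
    rw [hg]
    exact h1.comp h2
  have hg0 : ∀ ξ, ‖toE ξ‖ < 1 ∨ 2 < ‖toE ξ‖ → g ξ = 0 := by
    intro ξ hξ
    have h1 : ev (Fin.append z ξ) x = 0 := hx _ (by rw [tlM_append]; exact hξ)
    rw [hg]
    show L (tN k (N + 1) (ev (Fin.append z ξ) x)) = 0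
    rw [h1, map_zero, map_zero]
  have hpol := pol_int hN hgc hg0
  have key : ∀ ξ : V N, L (tN k N (ev (Fin.append z ξ) (KK (k + N) (pb (PHI k N) x)))) =
      (-1 : ℝ) ^ (N + 1) * ∫ r in (0 : ℝ)..1, (π * ‖toE ξ‖ * sin (π * r) ^ (N - 1)) * g (pvs ξ r) := by
    intro ξ
    have h1 : L (tN k N (ev (Fin.append z ξ) (KK (k + N) (pb (PHI k N) x)))) =
        ∫ s in (0 : ℝ)..1, L (tN k (N + 1) (ev (Fin.append z (Fin.snoc ξ s : V (N + 1))) (pb (PHI k N) x))) := by
      show (L.comp (tN k N)) (ev (Fin.append z ξ) (KK (k + N) (pb (PHI k N) x))) = _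
      rw [INTe_KK]
      congr 1
      funext s
      rw [INTe_append_snoc]
      rfl
    rw [h1, ← intervalIntegral.integral_const_mul, intervalIntegral.integral_of_le zero_le_one,
      intervalIntegral.integral_of_le zero_le_one, integral_Ioc_eq_integral_Ioo, integral_Ioc_eq_integral_Ioo]
    refine setIntegral_congr_fun measurableSet_Ioo fun r hr => ?_
    show L (tN k (N + 1) (ev (Fin.append z (Fin.snoc ξ r : V (N + 1))) (pb (PHI k N) x))) =
      (-1 : ℝ) ^ (N + 1) * ((π * ‖toE ξ‖ * sin (π * r) ^ (N - 1)) * g (pvs ξ r))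
    rcases lt_or_ge (1 / 2) ‖toE ξ‖ with h | h
    · rw [tN_PHI hN x z h hr.1 hr.2, map_smul, smul_eq_mul, hg, mul_assoc]
    · have h2 : ‖toE (pvs ξ r)‖ < 1 := lt_of_le_of_lt (norm_pvs_le ξ r) (by linarith)
      rw [INTi2_zero hx z ξ r (Or.inl h2), hg0 _ (Or.inl h2), map_zero, map_zero, mul_zero, mul_zero]
  simp only [key]
  rw [integral_const_mul, hpol, hg]

end Pool.Agent.Lib.MP_ccbbf6_gt.L5
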