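import Pool.Agent.Lib.MP_ccbbf6_gt.L5.INTf
import Pool.Agent.Lib.MP_ccbbf6_gt.L5.INTi

/-!
# Level 5, INTj: the integral over the sphere `S^N` in polar coordinates (helper67)

PROOFS.
(1) pvec_ne: if `pvec ξ r = 0` then `‖toE ξ‖ = 0` by `norm_pvec`. contDiff_pvec: `contDiff_pi`, `Fin.cases`: head: the norm is smooth at ξ z ≠ 0 (`contDiff_iff_contDiffAt`, `contDiffAt_norm`), tail: product.
(2) cut_pol: `ext_unique (open_neZ F N)`.
  Values outside (a plot p of F.xV N, a point y with (p y).2 = 0): left `ev_ext0_not` (unfold cutX); right: `ev y (KK _ x) = 0` if `ev (snoc y s) x = 0` for all s (`INTe_KK` with all linear L, or `ev_fun_inj`), and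
    `ev (snoc y s) (on (PHIM.pull (cutX Θ)) p.up) = ev _ (on (cutX Θ) (PHIM.pl p.up)) = 0` by `ev_cutX` (‖pvs 0 s‖ ≤ ‖0‖ = 0 < 1, `norm_pvs_le`).
  Restriction to U: left: `inU_cutX`: `(inU ..).pull (dch N F) * KO _ (polM.pull Θ)` = `- KO _ ((pO _).pull ((inU ..).pull (dch N F)) * polM.pull Θ)` (`K_mul`, `s_dch`, `pull_s`).
    right: `-KO _ ((PHIM.comp (inU ..).up).pull (cutX Θ))` (`K_up`, `pull_comp`). So it suffices: on (F.xP N).xR
      `(PHIM.comp (inU ..).up).pull (cutX Θ) = (pO _).pull ((inU ..).pull (dch N F)) * polM.pull Θ`. Pointwise (`Om_ext`, `ev_ext`), plot p of (F.xP N).xR, point y, ξ = (p y).1.1.2: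
      if ‖toE ξ‖ < 1: left 0 by `ev_cutX` (norm_pvs_le), right 0 by `ev_dch`. If ‖toE ξ‖ > 1/2: near y the plots `(PHIM.comp (inU ..).up).pl p` and `((inU ..).comp polM).pl p` of F.xV (N+1) agree (`pvs_eq`), so by
      `ev_on_congr` the left side is the value of `polM.pull ((inU ..).pull (cutX Θ)) = polM.pull ((inU ..).pull (dch (N+1) F) * Θ)` (`inU_cutX`), and
      `polM.pull ((inU ..).pull (dch (N+1) F)) = (pO _).pull ((inU ..).pull (dch N F))` because chiX pulls back to chiX (`norm_pvec`; `Om_ext`, on_fO) and `pull_d`.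
(3) SI_pol: `Om_ext`, P : F.Plot k. `SI_def`, `cut_pol`, `on_JX`; `Om.on (KO _ (PHIM.pull (cutX Θ))) (P.xV N) = KK (k+N) (Om.on (cutX Θ) (PHIM.pl (P.xV N).up))` and `PHIM.pl (P.xV N).up = (P.xV (N+1)).cmp (PHI k N)`
    (`Plot_ext`: `hdM k (N+1) w = hdM k N (init w)`, init (tlM ..) ..), `on_cmp`; `J_PHI` with support from `ev_cutX`; sign `-(-1)^(N+1) = (-1)^N`.
-/

set_option autoImplicit false
set_option maxSynthPendingDepth 3

open Set Filter Topology MeasureTheory Real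
open scoped ContDiff

noncomputable section

namespace Pool.Agent.Lib.MP_ccbbf6_gt.L5

open L4 L4.FR

variable {k l N : ℕ} {F : Space}

theorem pvec_ne {ξ : V N} (h : ξ ≠ 0) (r : ℝ) : pvec ξ r ≠ 0 := by
  intro h0
  have h1 := norm_pvec ξ r
  rw [h0] at h1
  have h2 : ‖toE (0 : V (N + 1))‖ = 0 := by
    show ‖(WithLp.toLp 2 (0 : V (N + 1)) : EuclideanSpace ℝ (Fin (N + 1)))‖ = 0
    rw [WithLp.toLp_zero, norm_zero]
  rw [h2] at h1
  have h3 : toE ξ = 0 := norm_eq_zero.1 h1.symm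
  refine h (funext fun i => ?_)
  exact congrFun (congrArg (fun v : EuclideanSpace ℝ (Fin N) => (v : Fin N → ℝ)) h3) i

theorem contDiff_pvec {E : Type*} [NormedAddCommGroup E] [NormedSpace ℝ E] {ξ : E → V N} {r : E → ℝ} (hξ : ContDiff ℝ ∞ ξ)
    (hr : ContDiff ℝ ∞ r) (h0 : ∀ z, ξ z ≠ 0) : ContDiff ℝ ∞ fun z => pvec (ξ z) (r z) := by
  have h1 : ContDiff ℝ ∞ fun z => π * r z := contDiff_const.mul hr
  have h2 : ContDiff ℝ ∞ fun z => ‖toE (ξ z)‖ := by
    rw [contDiff_iff_contDiffAt]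
    intro z
    have h3 : toE (ξ z) ≠ 0 := fun h => h0 z (funext fun i =>
      congrFun (congrArg (fun v : EuclideanSpace ℝ (Fin N) => (v : Fin N → ℝ)) h) i)
    have h4 : ContDiffAt ℝ ∞ (fun v : EuclideanSpace ℝ (Fin N) => ‖v‖) (toE (ξ z)) := contDiffAt_norm ℝ h3
    exact h4.comp z (contDiff_toE.comp hξ).contDiffAt
  rw [contDiff_pi]
  intro i
  refine Fin.cases ?_ (fun j => ?_) i
  · exact h2.mul h1.cos
  · exact h1.sin.mul (contDiff_pi.1 hξ j)

/-- polar coordinates -/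
def polM (F : Space) (N : ℕ) : SMap (F.xP N).xR (F.xP (N + 1)) :=
  ⟨fun z => ⟨(z.1.1.1, pvec z.1.1.2 z.2), pvec_ne z.1.2 _⟩, fun k p =>
    ⟨p.2.1.1, contDiff_pvec (ξ := fun x => (p.1 x).1.1.2) (r := fun x => (p.1 x).2) p.2.1.2 p.2.2 fun x => (p.1 x).1.2⟩⟩

/-- polar coordinates, smooth version -/
def PHIM (F : Space) (N : ℕ) : SMap (F.xV N).xR (F.xV (N + 1)) :=
  ⟨fun z => (z.1.1, pvs z.1.2 z.2), fun k p =>
    ⟨p.2.1.1, contDiff_pvs (ξ := fun x => (p.1 x).1.2) (r := fun x => (p.1 x).2) p.2.1.2 p.2.2⟩⟩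

private theorem INTj_zero : ‖toE (0 : V N)‖ = 0 := by
  show ‖(WithLp.toLp 2 (0 : V N) : EuclideanSpace ℝ (Fin N))‖ = 0
  rw [WithLp.toLp_zero, norm_zero]

private theorem INTj_KK {x : V k} {y : Fm (k + 1)} (h : ∀ s : ℝ, ev (Fin.snoc x s : V (k + 1)) y = 0) :
    ev x (KK k y) = 0 := by
  rw [← Module.forall_dual_apply_eq_zero_iff ℝ]
  intro L
  have h1 : L (ev x (KK k y)) = ∫ s in (0 : ℝ)..1, L (kil k (ctr (lst k) (ev (Fin.snoc x s) y))) := INTe_KK L x y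
  rw [h1]
  simp only [h, map_zero]
  exact intervalIntegral.integral_zero

private theorem INTj_chi (p : (F.xP N).xR.Plot k) :
    Om.on (chiX (N + 1) F) ((inU (F.xV (N + 1)) (neZ F (N + 1))).pl ((polM F N).pl p)) =
      Om.on (chiX N F) ((inU (F.xV N) (neZ F N)).pl ((pO (F.xP N)).pl p)) := by
  refine ev_ext fun z => ?_
  refine (ev_fO _ _ ((inU (F.xV (N + 1)) (neZ F (N + 1))).pl ((polM F N).pl p)) z).trans
    ((ev_fO _ _ ((inU (F.xV N) (neZ F N)).pl ((pO (F.xP N)).pl p)) z).trans ?_).symm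
  show algebraMap ℝ (Ex k) (chi ‖toE (p.1 z).1.1.2‖) =
    algebraMap ℝ (Ex k) (chi ‖toE (pvec (p.1 z).1.1.2 (p.1 z).2)‖)
  rw [norm_pvec]

private theorem INTj_dch (p : (F.xP N).xR.Plot k) :
    Om.on (dch (N + 1) F) ((inU (F.xV (N + 1)) (neZ F (N + 1))).pl ((polM F N).pl p)) =
      Om.on (dch N F) ((inU (F.xV N) (neZ F N)).pl ((pO (F.xP N)).pl p)) := by
  unfold dch
  rw [on_d, on_d, INTj_chi]

private theorem INTj_up (Θ : Om (F.xP (N + 1))) :
    (inU (F.xV N) (neZ F N)).up.pull ((PHIM F N).pull (cutX Θ)) =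
      (pO (F.xP N)).pull ((inU (F.xV N) (neZ F N)).pull (dch N F)) * (polM F N).pull Θ := by
  refine Om_ext fun k p => ev_ext fun y => ?_
  rw [on_mul, map_mul]
  have e1 : Om.on ((inU (F.xV N) (neZ F N)).up.pull ((PHIM F N).pull (cutX Θ))) p =
      Om.on (cutX Θ) ((PHIM F N).pl ((inU (F.xV N) (neZ F N)).up.pl p)) := rfl
  have e2 : Om.on ((pO (F.xP N)).pull ((inU (F.xV N) (neZ F N)).pull (dch N F))) p =
      Om.on (dch N F) ((inU (F.xV N) (neZ F N)).pl ((pO (F.xP N)).pl p)) := rfl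
  rw [e1, e2]
  by_cases h1 : ‖toE (p.1 y).1.1.2‖ < 1
  · rw [ev_cutX Θ ((PHIM F N).pl ((inU (F.xV N) (neZ F N)).up.pl p)) y (Or.inl ?_),
      ev_dch ((inU (F.xV N) (neZ F N)).pl ((pO (F.xP N)).pl p)) y (Or.inl h1), zero_mul]
    show ‖toE (pvs (p.1 y).1.1.2 (p.1 y).2)‖ < 1
    exact lt_of_le_of_lt (norm_pvs_le _ _) h1
  · have hc : Continuous fun y : V k => ‖toE (p.1 y).1.1.2‖ :=
      (contDiff_toE.continuous.comp p.2.1.2.continuous).norm
    have h2 : ∀ᶠ y' in 𝓝 y, (1 / 2 : ℝ) < ‖toE (p.1 y').1.1.2‖ :=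
      hc.continuousAt.eventually (lt_mem_nhds (by linarith))
    have h3 : ((PHIM F N).pl ((inU (F.xV N) (neZ F N)).up.pl p)).1 =ᶠ[𝓝 y]
        ((inU (F.xV (N + 1)) (neZ F (N + 1))).pl ((polM F N).pl p)).1 := by
      filter_upwards [h2] with y' hy'
      show ((p.1 y').1.1.1, pvs (p.1 y').1.1.2 (p.1 y').2) = ((p.1 y').1.1.1, pvec (p.1 y').1.1.2 (p.1 y').2)
      rw [pvs_eq hy'.le]
    have e3 : Om.on (cutX Θ) ((inU (F.xV (N + 1)) (neZ F (N + 1))).pl ((polM F N).pl p)) =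
        Om.on (dch (N + 1) F) ((inU (F.xV (N + 1)) (neZ F (N + 1))).pl ((polM F N).pl p)) *
          Om.on Θ ((polM F N).pl p) := by
      have h4 := congrArg (fun τ => Om.on τ ((polM F N).pl p)) (inU_cutX Θ)
      exact h4
    rw [ev_on_congr (cutX Θ) h3, e3, map_mul, INTj_dch]
    rfl

theorem cut_pol (Θ : Om (F.xP (N + 1))) :
    cutX (KO _ ((polM F N).pull Θ)) = -KO _ ((PHIM F N).pull (cutX Θ)) := by
  refine ext_unique (open_neZ F N) ?_ fun k p x hx => ?_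
  · have h1 : (inU (F.xV N) (neZ F N)).pull (-KO _ ((PHIM F N).pull (cutX Θ))) =
        -KO (F.xP N) ((inU (F.xV N) (neZ F N)).up.pull ((PHIM F N).pull (cutX Θ))) := rfl
    have h2 : sO (F.xP N) ((inU (F.xV N) (neZ F N)).pull (dch N F)) =
        -(inU (F.xV N) (neZ F N)).pull (dch N F) := by
      have h3 : sO (F.xP N) ((inU (F.xV N) (neZ F N)).pull (dch N F)) =
          (inU (F.xV N) (neZ F N)).pull (sO _ (dch N F)) := rfl
      rw [h3, s_dch, map_neg]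
    rw [inU_cutX, h1, INTj_up, K_mul, h2, neg_mul, neg_neg]
  · have h0 : (p.1 x).2 = 0 := by_contra fun h => hx h
    have h1 : ev x (Om.on (cutX (KO _ ((polM F N).pull Θ))) p) = 0 := ev_ext0_not (open_neZ F N) _ p hx
    have h2 : Om.on (-KO _ ((PHIM F N).pull (cutX Θ))) p =
        -KK k (Om.on (cutX Θ) ((PHIM F N).pl p.up)) := rfl
    rw [h1, h2, map_neg, INTj_KK, neg_zero]
    intro s
    refine ev_cutX Θ ((PHIM F N).pl p.up) _ (Or.inl ?_)
    show ‖toE (pvs (p.1 (pr k (Fin.snoc x s))).2 ((Fin.snoc x s : V (k + 1)) (Fin.last k)))‖ < 1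
    refine lt_of_le_of_lt (norm_pvs_le _ _) ?_
    rw [pr_snoc, h0, INTj_zero]
    exact one_pos

/-- **the sphere integral in polar coordinates** -/
theorem SI_pol (hN : 1 ≤ N) (Θ : Om (F.xP (N + 1))) :
    SI N F (KO _ ((polM F N).pull Θ)) = (-1 : ℝ) ^ N • SI (N + 1) F Θ := by
  refine Om_ext fun k P => ?_
  have h1 : (PHIM F N).pl (P.xV N).up = (P.xV (N + 1)).cmp (PHI k N) := by
    refine Plot_ext fun w => ?_
    have h2 : hdM k (N + 1) (PHI k N w) = hdM k (N + 1) w := hdM_append _ _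
    have h3 : tlM k (N + 1) (PHI k N w) =
        pvs (Fin.init (tlM k (N + 1) w)) (tlM k (N + 1) w (Fin.last N)) := tlM_append _ _
    show (P.1 (hdM k N (pr (k + N) w)), pvs (tlM k N (pr (k + N) w)) (w (Fin.last (k + N)))) =
      (P.1 (hdM k (N + 1) (PHI k N w)), tlM k (N + 1) (PHI k N w))
    rw [h2, h3]
    rfl
  have h2 : Om.on (KO _ ((PHIM F N).pull (cutX Θ))) (P.xV N) =
      KK (k + N) (pb (PHI k N) (Om.on (cutX Θ) (P.xV (N + 1)))) := by
    rw [on_K, on_pull]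
    rw [h1]
    exact congrArg (KK (k + N)) (on_cmp (cutX Θ) (P.xV (N + 1)) (PHI k N))
  rw [SI_def, on_JX, cut_pol, on_neg, h2, map_neg, J_PHI hN (fun w hw => ev_cutX Θ (P.xV (N + 1)) w hw),
    on_smul, SI_def, on_JX, pow_succ, mul_neg_one, neg_smul, neg_neg]

end Pool.Agent.Lib.MP_ccbbf6_gt.L5
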