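import Pool.Agent.Lib.MP_ccbbf6_gt.L5.INTh
import Pool.Agent.Lib.MP_ccbbf6_gt.L5.INTj

/-!
# Level 5, INTk: closed forms on sphere bundles (helper67)

`SS`: let `Ψ` be a form of degree `N` on the total space `S` of a sphere bundle with fibres `S^N`, `N ≥ 1`, `PI Ψ = 1`, `d Ψ = pi^* a`. Every closed form `ζ` of degree `j ≤ N` is
`ζ = pi^* PI (Ψ ζ) + (-1)^(N+1) ant^* Ψ · pi^* PI ζ + d η`.

PROOFS. Notation: `π = b.pi`, `p = pP b.F N`, `b.pol = ptm ∘ polM`.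
(1) `KO_zero`: Jc_low (INTc) with N = 1 (`Jc k 1 = KK k` definitionally).
(2) pol_j0: points: `pvec ξ 0 = ‖toE ξ‖ • Pi.single 0 1` (cos 0 = 1, sin 0 = 0; `Fin.cons`), `b.hom` with r = ‖toE ξ‖ > 0. pol_j1: `pvec ξ 1 = ‖toE ξ‖ • (-(Pi.single 0 1))`, `b.hom`, `b.ant_pt`. pi_pol: `pi_pt`.
(3) KS_d: `K_d`/dO_KO formula of FXa (`dO (KO θ) + KO (dO θ) = (jO 1).pull θ - (jO 0).pull θ`), `dO ζ = 0`, `mulM ∘ jO 1 = id`, `mulM ∘ jO 0 = jO 0 ∘ pO` (points: x * 1, x * 0), pol_j0, `pull_comp`.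
(4) KS_j0: `(jO _ 0).pull (KO θ) = KO ((jO _ 0).up.pull θ)` (`K_up`), `mulM ∘ (jO 0).up = jO 0 ∘ pO`, `K_p`. KS_j1: same with `mulM ∘ (jO 1).up = id`.
(5) KS_KS: `SI N F (KO (KS ζ)) = 0` for Deg j ζ, j ≤ N: j = 0, 1: KS ζ has degree j - 1, `KO_zero` (j = 0: KS ζ = 0; j = 1: KO (KS ζ) = 0); j ≥ 2: `SI_low` with degree j - 2.
(6) SS_F: Θ := pol^*Ψ * KS ζ on (F.xP N).xR. `dO Θ = pol^*(dΨ) * KS ζ + sO(pol^*Ψ) * dO (KS ζ)` (d_mul), `sO Ψ = (-1)^N Ψ` (Deg_s), dΨ = π^*a, `pol^*π^*a = pO^* p^* q^* a` (pi_pol).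
    X := KO Θ. `dO X = (jO 1)^*Θ - (jO 0)^*Θ - KO (dO Θ)`; (jO 0)^*Θ = 0 by KS_j0; (jO 1)^*Θ = p^* q1^* ant^* Ψ * KO (pol^* ζ) by pol_j1, KS_j1.
    Apply SI N F (`SI_d`: dO (SI X) = (-1)^(N+1) SI (dO X)):
      SI (p^*c * KO (pol^*ζ)) with c = q1^* ant^*Ψ: `SI_mul`: sO^[N+1] c * SI (KO (pol^*ζ)), sO c = (-1)^N c so sO^[N+1] c = (-1)^(N(N+1)) c = c; `SI_pol`, `q_PI`: SI (KO (pol^* ζ)) = (-1)^N q^* PI ζ;
      SI (KO (pO^*(p^*q^*a) * KS ζ)) = 0 by `K_mul`, `SI_mul`, (5);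
      SI (KO (pol^*(Ψ ζ))) = (-1)^N q^* PI (Ψ ζ) (SI_pol, q_PI; pol^*Ψ * pol^*ζ = pol^*(Ψ ζ));
      SI (KO (pol^*Ψ * pO^*(p^* q1^* ζ))) = SI (KO (pol^*Ψ) * p^* q1^*ζ) = SI (KO (pol^*Ψ)) * q1^*ζ = (-1)^N q1^*ζ: `KK_mulr` (form version on Om), `SI_mulr`, SI_pol, q_PI, h1.
    Collect: dO H = (-1)^(N+1) [ (-1)^N q1^*ant^*Ψ * q^*PI ζ - q^*PI(Ψ ζ) + q1^*ζ ], i.e. the statement.
(7) HS_same: by `pi_pt`, `q.pl P = q.pl P'`; `b.change` gives A; with `b.inj` and the hypothesis q1.pl P = q1.pl P': A(z) e_1 = e_1 (unit vectors: ‖A e_1‖ = 1 from A^T A = 1). So A(z) = diag (1, A'(z)) (first column e_1;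
    the first row too because A^T A = 1 also gives A^T e_1 = e_1), A' := submatrix Fin.succ Fin.succ, A'^T A' = 1, det A' = det A = 1 (`Matrix.det_succ_column_zero`), A (pvec ξ r) = pvec (A' ξ) r (‖A'ξ‖ = ‖ξ‖).
    Let W := (spV k).xP N, α' := (plM P').xP N, α := ((plM P).xP N).comp (frP A') : SMap W (F.xP N). Then `b.pol.comp α'.up = b.pol.comp α.up` (points). Hence `α'.pull (KO Θ) = α.pull (KO Θ)` for Θ = pol^*Ψ * KS ζ:
    K_up, map_mul, `α.up.pull (KS ζ) = KO ((α.up.up).pull ..)`, `mulM.comp α.up.up = α.up.comp mulM`. Then `on (HS) P' = on (P'^* HS) idP` (on_plM), SI_nat, SI_frP with s = 1.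
(8) SS: by (7) and `pull_desc b.lift1` there is η with q1^*η = (-1)^(N+1) • HS; `LLift.inj b.lift1` and SS_F (q1^*π^* = q^*: π ∘ q1 = q by pi_pt). Degree: `INTh_Deg_of b.lift1` and Deg_SI, Deg_K, Deg_mul
    (ζ of degree i+1: KS ζ of degree i, Θ of degree N + i, KO: N + i - 1, SI N: with N = N'+1: i).
-/

set_option autoImplicit false
set_option maxSynthPendingDepth 3

open Set Filter Topology MeasureTheory Real

open scoped ContDiff

noncomputable section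

namespace Pool.Agent.Lib.MP_ccbbf6_gt.L5

open L4 L4.FR

variable {k l N : ℕ} {X S B : Space}

theorem KO_zero {θ : Om X.xR} (h : Deg 0 θ) : KO X θ = 0 := by
  refine Om_ext fun k p => ?_
  rw [on_K, on_zero]
  exact Jc_low (N := 1) (j := 0) (h (k + 1) p.up) Nat.zero_lt_one

theorem KO_mulr (θ : Om X.xR) (z : Om X) : KO X (θ * (pO X).pull z) = KO X θ * z := by
  refine Om_ext fun k p => ?_
  rw [on_K, on_mul, on_p, KK_mulr, on_mul, on_K]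

private theorem INTk_pvec_zero (ξ : V N) : pvec ξ 0 = ‖toE ξ‖ • (Pi.single 0 1 : V (N + 1)) := by
  funext i
  refine Fin.cases ?_ (fun i => ?_) i
  · change ‖toE ξ‖ * cos (π * 0) = ‖toE ξ‖ * (Pi.single 0 1 : V (N + 1)) 0
    rw [mul_zero, cos_zero, Pi.single_eq_same]
  · change sin (π * 0) * ξ i = ‖toE ξ‖ * (Pi.single 0 1 : V (N + 1)) i.succ
    rw [mul_zero, sin_zero, Pi.single_eq_of_ne (Fin.succ_ne_zero i), zero_mul, mul_zero]

private theorem INTk_pvec_one (ξ : V N) : pvec ξ 1 = ‖toE ξ‖ • (-(Pi.single 0 1) : V (N + 1)) := by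
  funext i
  refine Fin.cases ?_ (fun i => ?_) i
  · change ‖toE ξ‖ * cos (π * 1) = ‖toE ξ‖ * -((Pi.single 0 1 : V (N + 1)) 0)
    rw [mul_one, cos_pi, Pi.single_eq_same]
  · change sin (π * 1) * ξ i = ‖toE ξ‖ * -((Pi.single 0 1 : V (N + 1)) i.succ)
    rw [mul_one, sin_pi, Pi.single_eq_of_ne (Fin.succ_ne_zero i), zero_mul, neg_zero, mul_zero]

private theorem INTk_pos {ξ : V N} (h : ξ ≠ 0) : 0 < ‖toE ξ‖ := by
  rw [norm_pos_iff]
  intro h1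
  refine h (funext fun i => ?_)
  exact congrFun (congrArg WithLp.ofLp h1) i

/-- `(x, r, t) ↦ (x, r t)` -/
def mulM (X : Space) : SMap X.xR.xR X.xR :=
  ⟨fun z => (z.1.1, z.1.2 * z.2), fun _ p => ⟨p.2.1.1, p.2.1.2.mul p.2.2⟩⟩

namespace SBun

variable (b : SBun N S B)

/-- polar coordinates in the fibres -/
def pol : SMap (b.F.xP N).xR S := b.ptm.comp (polM b.F N)

theorem pol_j0 : b.pol.comp (jO (b.F.xP N) 0) = b.q1.comp (pP b.F N) := by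
  refine SMap_ext fun z => ?_
  change b.ptm.1 ⟨(z.1.1, pvec z.1.2 0), pvec_ne z.2 0⟩ = b.ptm.1 ⟨(z.1.1, Pi.single 0 1), e1_ne N⟩
  rw [← b.hom z.1.1 (Pi.single 0 1) (e1_ne N) ‖toE z.1.2‖ (INTk_pos z.2)]
  exact congrArg b.ptm.1 (Subtype.ext (Prod.ext rfl (INTk_pvec_zero z.1.2)))

theorem pol_j1 : b.pol.comp (jO (b.F.xP N) 1) = (b.ant.comp b.q1).comp (pP b.F N) := by
  refine SMap_ext fun z => ?_
  change b.ptm.1 ⟨(z.1.1, pvec z.1.2 1), pvec_ne z.2 1⟩ = b.ant.1 (b.ptm.1 ⟨(z.1.1, Pi.single 0 1), e1_ne N⟩)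
  rw [b.ant_pt z.1.1 (Pi.single 0 1) (e1_ne N),
    ← b.hom z.1.1 (-Pi.single 0 1) (neg_ne_zero.2 (e1_ne N)) ‖toE z.1.2‖ (INTk_pos z.2)]
  exact congrArg b.ptm.1 (Subtype.ext (Prod.ext rfl (INTk_pvec_one z.1.2)))

theorem pi_pol : b.pi.comp b.pol = (b.q.comp (pP b.F N)).comp (pO _) := by
  refine SMap_ext fun z => ?_
  exact b.pi_pt _

theorem pi_q1 : b.pi.comp b.q1 = b.q := by
  refine SMap_ext fun z => ?_
  exact b.pi_pt _

/-- homotopy to the first vector -/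
def KS (ζ : Om S) : Om (b.F.xP N).xR := KO _ ((mulM (b.F.xP N)).pull (b.pol.pull ζ))

theorem KS_d {ζ : Om S} (h : dO S ζ = 0) :
    dO _ (b.KS ζ) = b.pol.pull ζ - (pO _).pull ((pP b.F N).pull (b.q1.pull ζ)) := by
  have h1 := d_K ((mulM (b.F.xP N)).pull (b.pol.pull ζ))
  have h2 : dO _ ((mulM (b.F.xP N)).pull (b.pol.pull ζ)) = 0 := by
    rw [pull_d, pull_d, h, map_zero, map_zero]
  have e1 : (mulM (b.F.xP N)).comp (jO _ 1) = SMap.id _ :=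
    SMap_ext fun z => Prod.ext rfl (mul_one z.2)
  have e0 : (mulM (b.F.xP N)).comp (jO _ 0) = (jO _ 0).comp (pO _) :=
    SMap_ext fun z => Prod.ext rfl (mul_zero z.2)
  have h3 : (jO (b.F.xP N).xR 1).pull ((mulM (b.F.xP N)).pull (b.pol.pull ζ)) = b.pol.pull ζ := by
    rw [← pull_comp, e1, pull_id]
  have h4 : (jO (b.F.xP N).xR 0).pull ((mulM (b.F.xP N)).pull (b.pol.pull ζ)) =
      (pO _).pull ((pP b.F N).pull (b.q1.pull ζ)) := by
    rw [← pull_comp, e0, pull_comp, ← pull_comp b.pol, pol_j0, pull_comp]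
  rw [h2, map_zero, add_zero, h3, h4] at h1
  exact h1

theorem KS_j0 (ζ : Om S) : (jO _ 0).pull (b.KS ζ) = 0 := by
  unfold KS
  rw [← K_up, ← pull_comp]
  have e0 : (mulM (b.F.xP N)).comp (jO _ 0).up = (jO _ 0).comp (pO _) :=
    SMap_ext fun z => Prod.ext rfl (zero_mul z.2)
  rw [e0, pull_comp, K_p]

theorem KS_j1 (ζ : Om S) : (jO _ 1).pull (b.KS ζ) = KO _ (b.pol.pull ζ) := by
  unfold KS
  rw [← K_up, ← pull_comp]
  have e1 : (mulM (b.F.xP N)).comp (jO _ 1).up = SMap.id _ :=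
    SMap_ext fun z => Prod.ext rfl (one_mul z.2)
  rw [e1, pull_id]

theorem KS_KS {ζ : Om S} {j : ℕ} (h : Deg j ζ) (hj : j ≤ N) : SI N b.F (KO _ (b.KS ζ)) = 0 := by
  have h1 : Deg j ((mulM (b.F.xP N)).pull (b.pol.pull ζ)) := Deg_pull _ (Deg_pull _ h)
  rcases j with _ | _ | i
  · have h2 : b.KS ζ = 0 := KO_zero h1
    rw [h2, map_zero, map_zero]
  · have h2 : Deg 0 (b.KS ζ) := Deg_K h1
    rw [KO_zero h2, map_zero]
  · have h2 : Deg (i + 1) (b.KS ζ) := Deg_K h1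
    have h3 : Deg i (KO _ (b.KS ζ)) := Deg_K h2
    exact SI_low h3 (by omega)

/-- the primitive on the space of frames -/
def HS (Ψ ζ : Om S) : Om b.F := SI N b.F (KO _ (b.pol.pull Ψ * b.KS ζ))

theorem SS_F (hN : 1 ≤ N) {Ψ ζ : Om S} {a : Om B} {j : ℕ} (hΨ : Deg N Ψ) (h1 : b.PI Ψ = 1) (hd : dO S Ψ = b.pi.pull a)
    (hζ : Deg j ζ) (hc : dO S ζ = 0) (hj : j ≤ N) :
    b.q1.pull ζ = b.q.pull (b.PI (Ψ * ζ)) + (-1 : ℝ) ^ (N + 1) • (b.q1.pull (b.ant.pull Ψ) * b.q.pull (b.PI ζ)) +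
      dO b.F ((-1 : ℝ) ^ (N + 1) • b.HS Ψ ζ) := by
  have hK : ∀ θ : Om S, SI N b.F (KO _ (b.pol.pull θ)) = (-1 : ℝ) ^ N • b.q.pull (b.PI θ) := by
    intro θ
    have h : b.pol.pull θ = (polM b.F N).pull (b.ptm.pull θ) := rfl
    rw [h, SI_pol hN, b.q_PI]
  have hsq : ∀ M : ℕ, (-1 : ℝ) ^ M * (-1 : ℝ) ^ M = 1 := fun M => by
    rw [← mul_pow, neg_one_mul, neg_neg, one_pow]
  have hiter : ∀ M : ℕ, ∀ x : Om b.F, sO b.F x = (-1 : ℝ) ^ N • x →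
      (sO b.F)^[M] x = ((-1 : ℝ) ^ N) ^ M • x := by
    intro M x hx
    induction M with
    | zero => rw [Function.iterate_zero_apply, pow_zero, one_smul]
    | succ M ih => rw [Function.iterate_succ_apply', ih, map_smul, hx, smul_smul, ← pow_succ]
  have hc1 : (sO b.F)^[N + 1] (b.q1.pull (b.ant.pull Ψ)) = b.q1.pull (b.ant.pull Ψ) := by
    have h2 : sO b.F (b.q1.pull (b.ant.pull Ψ)) = (-1 : ℝ) ^ N • b.q1.pull (b.ant.pull Ψ) :=
      Deg_s (Deg_pull _ (Deg_pull _ hΨ))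
    rw [hiter _ _ h2, ← pow_mul, (Nat.even_mul_succ_self N).neg_one_pow, one_smul]
  -- the boundary terms
  have hj0 : (jO (b.F.xP N) 0).pull (b.pol.pull Ψ * b.KS ζ) = 0 := by
    rw [map_mul, b.KS_j0, mul_zero]
  have hj1 : (jO (b.F.xP N) 1).pull (b.pol.pull Ψ * b.KS ζ) =
      (pP b.F N).pull (b.q1.pull (b.ant.pull Ψ)) * KO _ (b.pol.pull ζ) := by
    rw [map_mul, b.KS_j1, ← pull_comp, b.pol_j1]
    rfl
  -- the differential
  have hpa : b.pol.pull (b.pi.pull a) = (pO _).pull ((pP b.F N).pull (b.q.pull a)) := by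
    rw [← pull_comp, b.pi_pol]
    rfl
  have hdT : dO _ (b.pol.pull Ψ * b.KS ζ) =
      (pO _).pull ((pP b.F N).pull (b.q.pull a)) * b.KS ζ +
        (-1 : ℝ) ^ N • (b.pol.pull (Ψ * ζ) -
          b.pol.pull Ψ * (pO _).pull ((pP b.F N).pull (b.q1.pull ζ))) := by
    rw [d_mul, pull_d, hd, hpa, b.KS_d hc, Deg_s (Deg_pull b.pol hΨ), smul_mul_assoc, mul_sub,
      map_mul]
  have hKd : KO _ (dO _ (b.pol.pull Ψ * b.KS ζ)) =
      (pP b.F N).pull (sO _ (b.q.pull a)) * KO _ (b.KS ζ) +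
        (-1 : ℝ) ^ N • (KO _ (b.pol.pull (Ψ * ζ)) -
          KO _ (b.pol.pull Ψ) * (pP b.F N).pull (b.q1.pull ζ)) := by
    rw [hdT, map_add, K_mul, map_smul, map_sub, KO_mulr, pull_s]
  have hT : dO _ (KO _ (b.pol.pull Ψ * b.KS ζ)) =
      (pP b.F N).pull (b.q1.pull (b.ant.pull Ψ)) * KO _ (b.pol.pull ζ) -
        ((pP b.F N).pull (sO _ (b.q.pull a)) * KO _ (b.KS ζ) +
        (-1 : ℝ) ^ N • (KO _ (b.pol.pull (Ψ * ζ)) -
          KO _ (b.pol.pull Ψ) * (pP b.F N).pull (b.q1.pull ζ))) := by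
    have h := d_K (b.pol.pull Ψ * b.KS ζ)
    rw [hj0, hj1, sub_zero, hKd] at h
    exact eq_sub_of_add_eq h
  have hS : SI N b.F (dO _ (KO _ (b.pol.pull Ψ * b.KS ζ))) =
      (-1 : ℝ) ^ N • (b.q1.pull (b.ant.pull Ψ) * b.q.pull (b.PI ζ)) - b.q.pull (b.PI (Ψ * ζ)) +
        b.q1.pull ζ := by
    rw [hT, map_sub, SI_mul, hc1, hK, map_add, SI_mul, b.KS_KS hζ hj, mul_zero, zero_add, map_smul,
      map_sub, hK, SI_mulr, hK, h1, map_one, smul_mul_assoc, one_mul, smul_sub, smul_smul,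
      smul_smul, hsq, one_smul, one_smul, mul_smul_comm]
    abel
  have hH : dO b.F ((-1 : ℝ) ^ (N + 1) • b.HS Ψ ζ) =
      (-1 : ℝ) ^ N • (b.q1.pull (b.ant.pull Ψ) * b.q.pull (b.PI ζ)) - b.q.pull (b.PI (Ψ * ζ)) +
        b.q1.pull ζ := by
    rw [map_smul, HS, SI_d, smul_smul, hsq, one_smul, hS]
  rw [hH, pow_succ, mul_neg, mul_one, neg_smul]
  abel

private theorem INTk3_norm {n : ℕ} {A : Matrix (Fin n) (Fin n) ℝ} (h : A.transpose * A = 1) (ξ : V n) :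
    ‖toE (A.mulVec ξ)‖ = ‖toE ξ‖ := by
  have h1 : ∀ η : V n, ‖toE η‖ = Real.sqrt (dotProduct η η) := by
    intro η
    rw [EuclideanSpace.norm_eq]
    refine congrArg Real.sqrt (Finset.sum_congr rfl fun i _ => ?_)
    show ‖η i‖ ^ 2 = η i * η i
    rw [Real.norm_eq_abs, sq_abs, pow_two]
  rw [h1, h1, Matrix.dotProduct_mulVec, ← Matrix.mulVec_transpose, Matrix.mulVec_mulVec, h, Matrix.one_mulVec]

private theorem INTk3_norm_e1 (n : ℕ) : ‖toE (Pi.single 0 1 : V (n + 1))‖ = 1 := by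
  rw [EuclideanSpace.norm_eq, Fin.sum_univ_succ]
  have h1 : ‖(toE (Pi.single 0 1 : V (n + 1))) 0‖ ^ 2 = 1 := by
    show ‖(Pi.single 0 1 : V (n + 1)) 0‖ ^ 2 = 1
    rw [Pi.single_eq_same, norm_one, one_pow]
  have h2 : ∀ i : Fin n, ‖(toE (Pi.single 0 1 : V (n + 1))) i.succ‖ ^ 2 = 0 := by
    intro i
    show ‖(Pi.single 0 1 : V (n + 1)) i.succ‖ ^ 2 = 0
    rw [Pi.single_eq_of_ne (Fin.succ_ne_zero i), norm_zero, zero_pow two_ne_zero]
  rw [h1, Finset.sum_eq_zero fun i _ => h2 i, add_zero, Real.sqrt_one]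

/-- an orthogonal matrix which fixes the first unit vector -/
private theorem INTk3_col {n : ℕ} {A : Matrix (Fin (n + 1)) (Fin (n + 1)) ℝ}
    (he : A.mulVec (Pi.single 0 1) = Pi.single 0 1) (i : Fin (n + 1)) : A i 0 = (Pi.single 0 1 : V (n + 1)) i := by
  have h1 := congrFun he i
  rw [Matrix.mulVec_single] at h1
  rw [← h1]
  simp

private theorem INTk3_row {n : ℕ} {A : Matrix (Fin (n + 1)) (Fin (n + 1)) ℝ} (h : A.transpose * A = 1)
    (he : A.mulVec (Pi.single 0 1) = Pi.single 0 1) (j : Fin (n + 1)) : A 0 j = (Pi.single 0 1 : V (n + 1)) j := by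
  have h1 : A.transpose.mulVec (Pi.single 0 1) = Pi.single 0 1 := by
    have h2 : A.transpose.mulVec (A.mulVec (Pi.single 0 1)) = Pi.single 0 1 := by
      rw [Matrix.mulVec_mulVec, h, Matrix.one_mulVec]
    rwa [he] at h2
  exact INTk3_col h1 j

private theorem INTk3_orth {n : ℕ} {A : Matrix (Fin (n + 1)) (Fin (n + 1)) ℝ} (h : A.transpose * A = 1)
    (he : A.mulVec (Pi.single 0 1) = Pi.single 0 1) :
    (A.submatrix Fin.succ Fin.succ).transpose * A.submatrix Fin.succ Fin.succ = 1 := by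
  ext i j
  have h1 := congrFun (congrFun h i.succ) j.succ
  rw [Matrix.mul_apply, Fin.sum_univ_succ, Matrix.transpose_apply, INTk3_row h he i.succ,
    Pi.single_eq_of_ne (Fin.succ_ne_zero i), zero_mul, zero_add] at h1
  rw [Matrix.mul_apply]
  refine Eq.trans h1 ?_
  rw [Matrix.one_apply, Matrix.one_apply]
  by_cases hij : i = j
  · rw [if_pos hij, if_pos (congrArg Fin.succ hij)]
  · rw [if_neg hij, if_neg fun h2 => hij (Fin.succ_injective _ h2)]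

private theorem INTk3_det {n : ℕ} {A : Matrix (Fin (n + 1)) (Fin (n + 1)) ℝ}
    (he : A.mulVec (Pi.single 0 1) = Pi.single 0 1) :
    (A.submatrix Fin.succ Fin.succ).det = A.det := by
  rw [Matrix.det_succ_column_zero A, Fin.sum_univ_succ, INTk3_col he 0, Pi.single_eq_same]
  have h1 : ∀ i : Fin n, (-1 : ℝ) ^ ((i.succ : Fin (n + 1)) : ℕ) * A i.succ 0 *
      (A.submatrix i.succ.succAbove Fin.succ).det = 0 := by
    intro i
    rw [INTk3_col he i.succ, Pi.single_eq_of_ne (Fin.succ_ne_zero i), mul_zero, zero_mul]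
  rw [Finset.sum_eq_zero fun i _ => h1 i, add_zero, Fin.val_zero, pow_zero, one_mul, one_mul, Fin.succAbove_zero]

private theorem INTk3_cons {n : ℕ} {A : Matrix (Fin (n + 1)) (Fin (n + 1)) ℝ} (h : A.transpose * A = 1)
    (he : A.mulVec (Pi.single 0 1) = Pi.single 0 1) (ξ : V n) (r : ℝ) :
    A.mulVec (pvec ξ r) = pvec ((A.submatrix Fin.succ Fin.succ).mulVec ξ) r := by
  have hn := INTk3_norm (INTk3_orth h he) ξ
  funext i
  refine Fin.cases ?_ (fun i => ?_) i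
  · unfold pvec
    rw [hn]
    show ∑ j, A 0 j * (Fin.cons (‖toE ξ‖ * cos (π * r)) (sin (π * r) • ξ) : V (n + 1)) j = _
    rw [Fin.sum_univ_succ, INTk3_row h he 0, Pi.single_eq_same, one_mul, Fin.cons_zero, Fin.cons_zero,
      Finset.sum_eq_zero fun j _ => ?_, add_zero]
    rw [INTk3_row h he j.succ, Pi.single_eq_of_ne (Fin.succ_ne_zero j), zero_mul]
  · unfold pvec
    show ∑ j, A i.succ j * (Fin.cons (‖toE ξ‖ * cos (π * r)) (sin (π * r) • ξ) : V (n + 1)) j = _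
    rw [Fin.sum_univ_succ, INTk3_col he i.succ, Pi.single_eq_of_ne (Fin.succ_ne_zero i), zero_mul, zero_add,
      Fin.cons_succ]
    show ∑ j : Fin n, A i.succ j.succ * (Fin.cons (‖toE ξ‖ * cos (π * r)) (sin (π * r) • ξ) : V (n + 1)) j.succ =
      sin (π * r) * ∑ j : Fin n, A i.succ j.succ * ξ j
    rw [Finset.mul_sum]
    refine Finset.sum_congr rfl fun j _ => ?_
    rw [Fin.cons_succ]
    show A i.succ j.succ * (sin (π * r) * ξ j) = _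
    ring

/-- the pull-back of the integrand depends only on the polar coordinates -/
private theorem INTk3_pull {W : Space} (α : SMap W (b.F.xP N)) (Ψ ζ : Om S) :
    α.pull (KO _ (b.pol.pull Ψ * b.KS ζ)) = KO _ ((b.pol.comp α.up).pull Ψ *
      KO _ ((mulM W).pull ((b.pol.comp α.up).pull ζ))) := by
  have h1 : α.up.pull (b.KS ζ) = KO _ ((mulM W).pull ((b.pol.comp α.up).pull ζ)) := rfl
  have h2 : α.up.pull (b.pol.pull Ψ) = (b.pol.comp α.up).pull Ψ := rfl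
  rw [← K_up, map_mul, h1, h2]

theorem HS_same (Ψ ζ : Om S) (k : ℕ) (P P' : b.F.Plot k) (h : b.q1.pl P = b.q1.pl P') :
    Om.on (b.HS Ψ ζ) P = Om.on (b.HS Ψ ζ) P' := by
  have hq : b.q.pl P = b.q.pl P' := by
    have h2 : (b.pi.comp b.q1).pl P = (b.pi.comp b.q1).pl P' := congrArg b.pi.pl h
    rwa [b.pi_q1] at h2
  obtain ⟨A, hA, hdet, h1, hch⟩ := b.change k P P' hq
  have he : ∀ z, (A z).mulVec (Pi.single 0 1) = Pi.single 0 1 := by
    intro z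
    have h3 : b.ptm.1 ⟨(P.1 z, Pi.single 0 1), e1_ne N⟩ = b.ptm.1 ⟨(P'.1 z, Pi.single 0 1), e1_ne N⟩ :=
      congrFun (congrArg Subtype.val h) z
    rw [hch z _ (e1_ne N)] at h3
    refine (b.inj (P.1 z) _ _ (e1_ne N) (mulVec_ne (h1 z) (e1_ne N)) (INTk3_norm_e1 N) ?_ h3).symm
    rw [INTk3_norm (h1 z), INTk3_norm_e1]
  have hA' : SmM (X := spV k) (fun z => (A z).submatrix Fin.succ Fin.succ) := fun k' p i j =>
    (hA i.succ j.succ).comp (g := fun z => A z i.succ j.succ) (f := (p.1 : V k' → V k)) p.2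
  have h1' : ∀ z, ((A z).submatrix Fin.succ Fin.succ).transpose * (A z).submatrix Fin.succ Fin.succ = 1 :=
    fun z => INTk3_orth (h1 z) (he z)
  have h2' : ∀ z, ((A z).submatrix Fin.succ Fin.succ).det = 1 := fun z => (INTk3_det (he z)).trans (hdet z)
  have h4 : b.pol.comp ((plM P').xP N).up =
      b.pol.comp (((plM P).xP N).comp (frP (X := spV k) hA' h1')).up := by
    refine SMap_ext fun z => ?_
    have hne : z.1.1.2 ≠ 0 := z.1.2
    show b.ptm.1 ⟨(P'.1 z.1.1.1, pvec z.1.1.2 z.2), pvec_ne hne _⟩ =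
      b.ptm.1 ⟨(P.1 z.1.1.1, pvec (((A z.1.1.1).submatrix Fin.succ Fin.succ).mulVec z.1.1.2) z.2),
        pvec_ne (mulVec_ne (h1' z.1.1.1) hne) _⟩
    rw [hch]
    exact congrArg b.ptm.1 (Subtype.ext (Prod.ext rfl (INTk3_cons (h1 z.1.1.1) (he z.1.1.1) _ _)))
  have h5 : ((plM P').xP N).pull (KO _ (b.pol.pull Ψ * b.KS ζ)) =
      (frP (X := spV k) hA' h1').pull (((plM P).xP N).pull (KO _ (b.pol.pull Ψ * b.KS ζ))) := by
    rw [b.INTk3_pull ((plM P').xP N) Ψ ζ, h4, ← b.INTk3_pull, pull_comp]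
  rw [← on_plM P' (b.HS Ψ ζ), ← on_plM P (b.HS Ψ ζ)]
  unfold HS
  rw [← SI_nat, ← SI_nat, h5, SI_frP (X := spV k) hA' h1' abs_one h2', one_smul]

/-- **closed forms on sphere bundles** -/
theorem SS (hN : 1 ≤ N) {Ψ ζ : Om S} {a : Om B} {j : ℕ} (hΨ : Deg N Ψ) (h1 : b.PI Ψ = 1) (hd : dO S Ψ = b.pi.pull a)
    (hζ : Deg j ζ) (hc : dO S ζ = 0) (hj : j ≤ N) :
    ∃ η : Om S, (∀ i, j = i + 1 → Deg i η) ∧ ζ = b.pi.pull (b.PI (Ψ * ζ)) +
      (-1 : ℝ) ^ (N + 1) • (b.ant.pull Ψ * b.pi.pull (b.PI ζ)) + dO S η := by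
  have hη : b.q1.pull (desc b.q1 ((-1 : ℝ) ^ (N + 1) • b.HS Ψ ζ)) = (-1 : ℝ) ^ (N + 1) • b.HS Ψ ζ := by
    refine pull_desc (q := b.q1) b.lift1 fun k P P' h => ?_
    rw [on_smul, on_smul, b.HS_same Ψ ζ k P P' h]
  have hπ : ∀ x : Om B, b.q1.pull (b.pi.pull x) = b.q.pull x := by
    intro x
    rw [← pull_comp, b.pi_q1]
  refine ⟨desc b.q1 ((-1 : ℝ) ^ (N + 1) • b.HS Ψ ζ), ?_, ?_⟩
  · rintro i rfl
    refine INTh_Deg_of (q := b.q1) b.lift1 ?_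
    rw [hη]
    refine Deg_smul _ ?_
    obtain ⟨N', rfl⟩ : ∃ N', N = N' + 1 := ⟨N - 1, by omega⟩
    have h2 : Deg i (b.KS ζ) := Deg_K (Deg_pull _ (Deg_pull _ hζ))
    have h3 : Deg (N' + 1 + i) (b.pol.pull Ψ * b.KS ζ) := Deg_mul (Deg_pull _ hΨ) h2
    have h4 : Deg (i + N' + 1) (b.pol.pull Ψ * b.KS ζ) := by
      have e : i + N' + 1 = N' + 1 + i := by omega
      rw [e]
      exact h3
    exact Deg_SI (Deg_K h4)
  · refine LLift.inj (q := b.q1) b.lift1 ?_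
    rw [map_add, map_add, map_smul, map_mul, hπ, hπ, ← pull_d, hη]
    exact b.SS_F hN hΨ h1 hd hζ hc hj

end SBun

end Pool.Agent.Lib.MP_ccbbf6_gt.L5
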