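import Pool.Agent.Lib.MP_ccbbf6_gt.L5.PHI01
import Pool.Agent.Lib.MP_ccbbf6_gt.L5.PHI02

/-!
# Level 5, block PHI 6: the relations of the phi side for a generator of degree `2 q` (helper56)

`PhiK X M m q` : as `PhiD`, `u` of degree `2 q`, `f` of degree `2 q - 2`; closed forms of `X` in degrees `2 i`,
`1 ≤ i ≤ 2 q - 2`, are combinations of `f` (`i = q - 1`), `u_0` (`i = q`) and exact forms.

Output (all basic): `basic` = general form of the closed basic forms; `θ ~ D f`, `x_+ - x_- ~ e θ`,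
`f^2 ~ α e^(2q-2) + β' e^(q-2) (x_+ + x_-)/2`, `θ h_m(x_-, x_+) ~ 0`.
-/

set_option autoImplicit false
set_option maxSynthPendingDepth 3

open Set Filter Topology

noncomputable section

namespace Pool.Agent.Lib.MP_ccbbf6_gt.L5

open L4 L4.FR

/-- the input of the phi side, generator of degree `2 q` -/
structure PhiK (X M : Space) (m q : ℕ) where
  hq : 2 ≤ q
  c : Circ X
  τ : SMap X X
  ττ : ∀ x, τ.1 (τ.1 x) = x
  τc : ∀ x s, τ.1 (c.a.1 (x, s)) = c.a.1 (τ.1 x, s)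
  I : Om X →ₗ[ℝ] ℝ
  I_d : ∀ x, I (dO X x) = 0
  I_i : ∀ x, iO c x = 0 → I x = 0
  I_e : ∀ x, sO X x = x → I x = 0
  I_τ : ∀ x, I (τ.pull x) = -I x
  η : Om X
  η1 : Deg 1 η
  iη : iO c η = 1
  idη : iO c (dO X η) = 0
  τη : τ.pull η = η
  u : Om M
  uq : Deg (2 * q) u
  du : dO M u = 0
  up : u ^ (m + 1) = 0
  F : SMap X.xR M
  F0 : IMap c (F.comp (jO X 0))
  F1 : IMap c (F.comp (jO X 1))
  Fτ : ∀ x r, F.1 (τ.1 x, r) = F.1 (x, 1 - r)
  f : Om X
  fq : Deg (2 * (q - 1)) f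
  df : dO X f = 0
  jf : iO c f = 0
  τf : τ.pull f = -f
  c0 : ∀ x : Om X, Deg (2 * 0) x → dO X x = 0 → ∃ r : ℝ, x = algebraMap ℝ (Om X) r
  cX : ∀ i, 1 ≤ i → i ≤ 2 * q - 2 → ∀ x : Om X, Deg (2 * i) x → dO X x = 0 → ∃ (s t : ℝ) (y : Om X),
    Deg (2 * i - 1) y ∧ x = (if i = q - 1 then s • f else 0) + (if i = q then t • wt F u (1 / 2) else 0) + dO X y

namespace PhiK

variable {X M : Space} {m q : ℕ} (P : PhiK X M m q)

lemma us : sO M P.u = P.u := Deg_even (j := q) P.uq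

/-- `x_-` -/
def xm : Om X := wt P.F P.u 0
/-- `x_+` -/
def xp : Om X := wt P.F P.u 1
/-- the curvature -/
def e : Om X := dO X P.η
/-- the primitive of `x_+ - x_-` -/
def β : Om X := AO P.c (b0 P.F P.u)
/-- its contraction -/
def θ : Om X := iO P.c P.β
/-- the form with `dζ = β h_m` -/
def ζ : Om X := AO P.c (z0 P.F P.u m)
/-- `h_m(x_-, x_+)` -/
def h : Om X := ∑ j ∈ Finset.range (m + 1), P.xm ^ j * P.xp ^ (m - j)

lemma Fτ' : P.F.comp P.τ.up = P.F.comp (rO X) := SMap_ext fun z => P.Fτ z.1 z.2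

lemma τxm : P.τ.pull P.xm = P.xp := by
  unfold xm xp wt
  have h : P.F.comp ((jO X 0).comp P.τ) = P.F.comp (jO X 1) := SMap_ext fun x => by
    change P.F.1 (P.τ.1 x, 0) = P.F.1 (x, 1)
    rw [P.Fτ, sub_zero]
  rw [← pull_comp, ← pull_comp, ← pull_comp, h]

lemma τxp : P.τ.pull P.xp = P.xm := by
  unfold xm xp wt
  have h : P.F.comp ((jO X 1).comp P.τ) = P.F.comp (jO X 0) := SMap_ext fun x => by
    change P.F.1 (P.τ.1 x, 1) = P.F.1 (x, 0)
    rw [P.Fτ, sub_self]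
  rw [← pull_comp, ← pull_comp, ← pull_comp, h]

lemma τe : P.τ.pull P.e = P.e := by
  unfold e
  rw [← pull_d, P.τη]

lemma bas_xm : Bas P.c P.xm := Bas_pull P.c P.F0 P.u
lemma bas_xp : Bas P.c P.xp := Bas_pull P.c P.F1 P.u

lemma de : dO X P.e = 0 := d_d _
lemma bas_e : Bas P.c P.e := Bas_closed P.c P.idη P.de
lemma bas_f : Bas P.c P.f := Bas_closed P.c P.jf P.df

lemma d_xm : dO X P.xm = 0 := d_wt P.F P.u P.du 0
lemma d_xp : dO X P.xp = 0 := d_wt P.F P.u P.du 1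

lemma Deg_xm : Deg (2 * q) P.xm := Deg_pull _ (Deg_pull _ P.uq)
lemma Deg_xp : Deg (2 * q) P.xp := Deg_pull _ (Deg_pull _ P.uq)
lemma Deg_e : Deg 2 P.e := Deg_d P.η1

lemma s_xm : sO X P.xm = P.xm := Deg_even (j := q) P.Deg_xm
lemma s_xp : sO X P.xp = P.xp := Deg_even (j := q) P.Deg_xp
lemma s_e : sO X P.e = P.e := Deg_even (j := 1) P.Deg_e
lemma s_f : sO X P.f = P.f := Deg_even (j := q - 1) P.fq
lemma s_η : sO X P.η = -P.η := Deg_odd (j := 0) P.η1

lemma Deg_b0 (f : SMap X.xR M) : Deg (2 * q - 1) (b0 f P.u) := by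
  refine Deg_K ?_
  have h := P.hq
  rw [show 2 * q - 1 + 1 = 2 * q by omega]
  exact Deg_pull _ P.uq

lemma Deg_β : Deg (2 * q - 1) P.β := Deg_A P.c (P.Deg_b0 _)
lemma Deg_θ : Deg (2 * (q - 1)) P.θ := by
  refine Deg_i P.c ?_
  have h := P.hq
  rw [show 2 * (q - 1) + 1 = 2 * q - 1 by omega]
  exact P.Deg_β
lemma s_β : sO X P.β = -P.β := by
  unfold β b0
  rw [A_s, K_s, pull_s, P.us, map_neg]
lemma s_θ : sO X P.θ = P.θ := Deg_even (j := q - 1) P.Deg_θ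

lemma d_β : dO X P.β = P.xp - P.xm := by
  unfold β
  rw [A_d, d_b0_ev P.F P.du]
  exact A_bas P.c (Bas_sub P.c P.bas_xp P.bas_xm)

lemma d_θ : dO X P.θ = 0 := by
  have h1 : dO X P.θ = -iO P.c (dO X P.β) := cartan P.c (A_inv P.c _)
  rw [h1, P.d_β, Bas_i P.c (Bas_sub P.c P.bas_xp P.bas_xm), neg_zero]

lemma i_θ : iO P.c P.θ = 0 := i_i P.c _

lemma bas_θ : Bas P.c P.θ := Bas_closed P.c P.i_θ P.d_θ

lemma τβ : P.τ.pull P.β = -P.β := by
  unfold β
  rw [A_eqv P.c P.c P.τc, ← map_neg]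
  congr 1
  unfold b0
  rw [← K_up, ← pull_comp, P.Fτ', pull_comp, K_rev]

lemma τθ : P.τ.pull P.θ = -P.θ := by
  unfold θ
  rw [i_eqv P.c P.c P.τc, P.τβ, map_neg]

/-! ### Symmetrisation -/

lemma τd (x : Om X) : P.τ.pull (dO X x) = dO X (P.τ.pull x) := rfl

/-- basic forms with a basic primitive -/
def Ex (P : PhiK X M m q) (w : Om X) : Prop := ∃ y, Bas P.c y ∧ w = dO X y

variable {P}

lemma Ex_add {w w' : Om X} (h : P.Ex w) (h' : P.Ex w') : P.Ex (w + w') := by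
  obtain ⟨y, hy, e1⟩ := h
  obtain ⟨z, hz, e2⟩ := h'
  exact ⟨y + z, Bas_add P.c hy hz, by rw [map_add, e1, e2]⟩

lemma Ex_smul (r : ℝ) {w : Om X} (h : P.Ex w) : P.Ex (r • w) := by
  obtain ⟨y, hy, e1⟩ := h
  exact ⟨r • y, Bas_smul P.c r hy, by rw [map_smul, e1]⟩

lemma Ex_neg {w : Om X} (h : P.Ex w) : P.Ex (-w) := by
  have := Ex_smul (-1) h
  rwa [neg_one_smul] at this

lemma Ex_sub {w w' : Om X} (h : P.Ex w) (h' : P.Ex w') : P.Ex (w - w') := by
  rw [sub_eq_add_neg]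
  exact Ex_add h (Ex_neg h')

lemma Ex_zero : P.Ex 0 := ⟨0, by
  have := Bas_smul P.c 0 (Bas_one P.c)
  rwa [zero_smul] at this, by rw [map_zero]⟩

/-- products with basic closed forms -/
lemma Ex_mul {w v : Om X} (h : P.Ex w) (hv : Bas P.c v) (hdv : dO X v = 0) : P.Ex (w * v) := by
  obtain ⟨y, hy, e1⟩ := h
  exact ⟨y * v, Bas_mul P.c hy hv, by rw [d_mul, hdv, mul_zero, add_zero, e1]⟩

lemma mul_Ex {w v : Om X} (h : P.Ex w) (hv : Bas P.c v) (hsv : sO X v = v) (hdv : dO X v = 0) : P.Ex (v * w) := by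
  rw [even_comm' hsv]
  exact Ex_mul h hv hdv

lemma Ex_τ {w : Om X} (h : P.Ex w) : P.Ex (P.τ.pull w) := by
  obtain ⟨y, hy, e1⟩ := h
  exact ⟨P.τ.pull y, Bas_eqv P.c P.c P.τc hy, by rw [← P.τd, e1]⟩

lemma τ_τ (w : Om X) : P.τ.pull (P.τ.pull w) = w := by
  rw [← pull_comp]
  have h : P.τ.comp P.τ = SMap.id X := SMap_ext fun x => P.ττ x
  rw [h, pull_id]

variable (P)

/-- products with powers of `e` -/
lemma eEx {w : Om X} (h : P.Ex w) : P.Ex (P.e * w) := mul_Ex h P.bas_e P.s_e P.de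

/-- the middle map -/
def xh : Om X := wt P.F P.u (1 / 2)

/-- `(x, r) ↦ (x, a + (b - a) r)` -/
def seg (X : Space) (a b : ℝ) : SMap X.xR X.xR :=
  ⟨fun z => (z.1, a + (b - a) * z.2), fun _ p => ⟨p.2.1, contDiff_const.add (contDiff_const.mul p.2.2)⟩⟩

lemma wt_seg (a b t r : ℝ) (h : a + (b - a) * t = r) : wt (P.F.comp (seg X a b)) P.u t = wt P.F P.u r := by
  unfold wt
  have h : P.F.comp ((seg X a b).comp (jO X t)) = P.F.comp (jO X r) := SMap_ext fun x => by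
    change P.F.1 (x, a + (b - a) * t) = P.F.1 (x, r)
    rw [h]
  rw [← pull_comp, ← pull_comp, ← h]
  rfl

/-- the mean of `x_-` and `x_+` -/
def yy : Om X := (1 / 2 : ℝ) • (P.xm + P.xp)

lemma bas_yy : Bas P.c P.yy := Bas_smul P.c _ (Bas_add P.c P.bas_xm P.bas_xp)

lemma d_yy : dO X P.yy = 0 := by
  unfold yy
  rw [map_smul, map_add, P.d_xm, P.d_xp, add_zero, smul_zero]

lemma s_yy : sO X P.yy = P.yy := by
  unfold yy
  rw [map_smul, map_add, P.s_xm, P.s_xp]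

lemma τyy : P.τ.pull P.yy = P.yy := by
  unfold yy
  rw [map_smul, map_add, P.τxm, P.τxp, add_comm]

lemma bas0 : Bas P.c (0 : Om X) := by
  have := Bas_smul P.c 0 (Bas_one P.c)
  rwa [zero_smul] at this

/-- `x_0` is the mean of `x_-` and `x_+` up to `d` -/
lemma xh_mean : ∃ y, Deg (2 * q - 1) y ∧ P.xh = P.yy + dO X y := by
  have h1 := d_b0_ev (P.F.comp (seg X 0 (1 / 2))) P.du
  rw [P.wt_seg 0 (1 / 2) 1 (1 / 2) (by norm_num), P.wt_seg 0 (1 / 2) 0 0 (by norm_num)] at h1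
  have h2 := d_b0_ev (P.F.comp (seg X (1 / 2) 1)) P.du
  rw [P.wt_seg (1 / 2) 1 1 1 (by norm_num), P.wt_seg (1 / 2) 1 0 (1 / 2) (by norm_num)] at h2
  refine ⟨(1 / 2 : ℝ) • (b0 (P.F.comp (seg X 0 (1 / 2))) P.u - b0 (P.F.comp (seg X (1 / 2) 1)) P.u),
    Deg_smul _ (Deg_sub (P.Deg_b0 _) (P.Deg_b0 _)), ?_⟩
  rw [map_smul, map_sub, h1, h2]
  unfold xh yy xm xp
  module

/-- the general form of the closed basic forms of degree at most `4 q - 4` -/
theorem basic (i : ℕ) : ∀ w : Om X, i ≤ 2 * q - 2 → Deg (2 * i) w → Bas P.c w → dO X w = 0 →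
    ∃ r s t : ℝ, P.Ex (w - r • P.e ^ i - (if q - 1 ≤ i then s • (P.e ^ (i - (q - 1)) * P.f) else 0) -
      (if q ≤ i then t • (P.e ^ (i - q) * P.yy) else 0)) := by
  have hq := P.hq
  induction i with
  | zero =>
    intro w _ hw _ hd
    obtain ⟨r, hr⟩ := P.c0 w hw hd
    refine ⟨r, 0, 0, ?_⟩
    rw [pow_zero, if_neg (by omega), if_neg (by omega), sub_zero, sub_zero, hr, Algebra.algebraMap_eq_smul_one,
      sub_self]
    exact Ex_zero
  | succ i ih =>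
    intro w hi hw hb hd
    obtain ⟨s0, t0, y, hy, e1⟩ := P.cX (i + 1) (by omega) hi w hw hd
    obtain ⟨y2, hy2, e2⟩ := P.xh_mean
    obtain ⟨w0, hw0⟩ : ∃ w0, w0 = w - (if i + 1 = q - 1 then s0 • P.f else 0) -
      (if i + 1 = q then t0 • P.yy else 0) := ⟨_, rfl⟩
    have hb0 : Bas P.c w0 := by
      rw [hw0]
      refine Bas_sub P.c (Bas_sub P.c hb ?_) ?_
      · split_ifs
        · exact Bas_smul P.c _ P.bas_f
        · exact P.bas0
      · split_ifs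
        · exact Bas_smul P.c _ P.bas_yy
        · exact P.bas0
    obtain ⟨y', hy', hyd⟩ : ∃ y', Deg (2 * (i + 1) - 1) y' ∧ dO X y' = w0 := by
      by_cases h : i + 1 = q
      · refine ⟨y + t0 • y2, Deg_add hy (Deg_smul _ ?_), ?_⟩
        · rw [h]
          exact hy2
        · rw [hw0, if_pos h, e1, if_pos h, map_add, map_smul]
          have e3 : wt P.F P.u (1 / 2) = P.yy + dO X y2 := e2
          rw [e3, smul_add]
          abel
      · refine ⟨y, hy, ?_⟩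
        rw [hw0, if_neg h, e1, if_neg h]
        abel
    obtain ⟨h1, h2, h4, h5⟩ := bas_prim P.iη P.idη hb0 hyd
    have hdeg : Deg (2 * i) (iO P.c (AO P.c y')) := by
      refine Deg_i P.c (Deg_A P.c ?_)
      rw [show 2 * i + 1 = 2 * (i + 1) - 1 by omega]
      exact hy'
    obtain ⟨r, s, t, h⟩ := ih _ (by omega) hdeg h2 h1
    have k1 : P.Ex (w0 - P.e * iO P.c (AO P.c y')) := by
      refine ⟨_, h4, ?_⟩
      conv_lhs => rw [h5]
      change dO X P.η * _ + _ - dO X P.η * _ = _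
      abel
    have k2 := Ex_add k1 (P.eEx h)
    obtain ⟨v, hv⟩ : ∃ v, v = iO P.c (AO P.c y') := ⟨_, rfl⟩
    rw [← hv] at k2
    refine ⟨r, if i + 1 = q - 1 then s0 else s, if i + 1 = q then t0 else t, ?_⟩
    convert k2 using 1
    have em : ∀ (r : ℝ) (x : Om X), P.e * (r • x) = r • (P.e * x) := fun r x => mul_smul_comm r _ x
    rw [hw0, mul_sub, mul_sub, mul_sub]
    by_cases c1 : i + 1 < q - 1
    · rw [if_neg (show ¬ q - 1 ≤ i + 1 by omega), if_neg (show ¬ q ≤ i + 1 by omega),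
        if_neg (show ¬ i + 1 = q - 1 by omega), if_neg (show ¬ i + 1 = q by omega),
        if_neg (show ¬ q - 1 ≤ i by omega), if_neg (show ¬ q ≤ i by omega), mul_zero, em, ← pow_succ']
      abel
    by_cases c2 : i + 1 = q - 1
    · rw [if_pos (show q - 1 ≤ i + 1 by omega), if_neg (show ¬ q ≤ i + 1 by omega),
        if_pos c2, if_pos c2, if_neg (show ¬ i + 1 = q by omega),
        if_neg (show ¬ q - 1 ≤ i by omega), if_neg (show ¬ q ≤ i by omega), mul_zero,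
        show i + 1 - (q - 1) = 0 by omega, pow_zero, one_mul, em, ← pow_succ']
      abel
    by_cases c3 : i + 1 = q
    · rw [if_pos (show q - 1 ≤ i + 1 by omega), if_pos (show q ≤ i + 1 by omega),
        if_neg (show ¬ i + 1 = q - 1 by omega), if_neg (show ¬ i + 1 = q - 1 by omega), if_pos c3, if_pos c3,
        if_pos (show q - 1 ≤ i by omega), if_neg (show ¬ q ≤ i by omega), mul_zero,
        show i + 1 - (q - 1) = i - (q - 1) + 1 by omega, show i + 1 - q = 0 by omega, pow_zero, one_mul,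
        em, em, ← mul_assoc, ← pow_succ', ← pow_succ']
      abel
    · rw [if_pos (show q - 1 ≤ i + 1 by omega), if_pos (show q ≤ i + 1 by omega),
        if_neg (show ¬ i + 1 = q - 1 by omega), if_neg (show ¬ i + 1 = q - 1 by omega), if_neg c3, if_neg c3,
        if_pos (show q - 1 ≤ i by omega), if_pos (show q ≤ i by omega),
        show i + 1 - (q - 1) = i - (q - 1) + 1 by omega, show i + 1 - q = i - q + 1 by omega,
        em, em, em, ← mul_assoc, ← mul_assoc, ← pow_succ', ← pow_succ', ← pow_succ']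
      abel

/-- the degree `D` : `θ ~ D f` -/
theorem exists_D : ∃ D : ℝ, P.Ex (P.θ - D • P.f) := by
  have hq := P.hq
  obtain ⟨r, s, t, h⟩ := P.basic (q - 1) P.θ (by omega) P.Deg_θ P.bas_θ P.d_θ
  rw [if_pos le_rfl, if_neg (by omega), sub_zero, Nat.sub_self, pow_zero, one_mul] at h
  refine ⟨s, ?_⟩
  have h1 := Ex_smul (1 / 2) (Ex_sub h (Ex_τ h))
  have h3 : (1 / 2 : ℝ) • (P.θ - r • P.e ^ (q - 1) - s • P.f - P.τ.pull (P.θ - r • P.e ^ (q - 1) - s • P.f)) =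
      P.θ - s • P.f := by
    rw [map_sub, map_sub, map_smul, map_smul, P.τθ, map_pow, P.τe, P.τf]
    module
  rwa [h3] at h1

/-- `x_+ - x_- ~ e θ` -/
theorem xpm : P.Ex (P.xp - P.xm - P.e * P.θ) := by
  have hb : Bas P.c (P.xp - P.xm) := Bas_sub P.c P.bas_xp P.bas_xm
  obtain ⟨_, _, h4, h5⟩ := bas_prim (x := b0 P.F P.u) P.iη P.idη hb (d_b0_ev P.F P.du)
  refine ⟨_, h4, ?_⟩
  have h6 : P.xp - P.xm = P.e * P.θ + dO X (AO P.c (b0 P.F P.u) - P.η * iO P.c (AO P.c (b0 P.F P.u))) := h5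
  rw [h6]
  abel

/-- `f^2 ~ α e^(2q-2) + β' e^(q-2) (x_+ + x_-) / 2` -/
theorem exists_αβ : ∃ α β : ℝ, P.Ex (P.f ^ 2 - α • P.e ^ (2 * q - 2) -
    β • (P.e ^ (q - 2) * P.yy)) := by
  have hq := P.hq
  have hdeg : Deg (2 * (2 * q - 2)) (P.f ^ 2) := by
    rw [pow_two, show 2 * (2 * q - 2) = 2 * (q - 1) + 2 * (q - 1) by omega]
    exact Deg_mul P.fq P.fq
  obtain ⟨r, s, t, h⟩ := P.basic (2 * q - 2) (P.f ^ 2) le_rfl hdeg (Bas_pow P.c P.bas_f 2) (d_pow_zero P.df 2)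
  rw [if_pos (by omega), if_pos (by omega), show 2 * q - 2 - q = q - 2 by omega,
    show 2 * q - 2 - (q - 1) = q - 1 by omega] at h
  refine ⟨r, t, ?_⟩
  have h1 := Ex_smul (1 / 2) (Ex_add h (Ex_τ h))
  convert h1 using 1
  simp only [map_sub, map_smul, map_pow, map_mul, P.τf, P.τe, P.τyy]
  rw [neg_sq, mul_neg, smul_neg, sub_neg_eq_add]
  module

lemma s_h : sO X P.h = P.h := by
  unfold h
  rw [map_sum]
  refine Finset.sum_congr rfl fun j _ => ?_
  rw [map_mul, map_pow, map_pow, P.s_xm, P.s_xp]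

lemma bas_h : Bas P.c P.h := by
  unfold h
  refine Finset.sum_induction _ (Bas P.c) (fun _ _ h h' => Bas_add P.c h h') ?_ fun j _ => ?_
  · intro k p
    rw [on_zero, on_zero, map_zero]
  · exact Bas_mul P.c (Bas_pow P.c P.bas_xm _) (Bas_pow P.c P.bas_xp _)

lemma d_h : dO X P.h = 0 := by
  unfold h
  rw [map_sum]
  refine Finset.sum_eq_zero fun j _ => ?_
  rw [d_mul, d_pow_zero P.d_xm, d_pow_zero P.d_xp, zero_mul, mul_zero, add_zero]

/-- `d ζ = h_m β` -/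
lemma d_ζ : dO X P.ζ = P.h * P.β := by
  unfold ζ
  rw [A_d, d_z0_ev P.F P.us P.du P.up]
  have h1 : b0 P.F P.u * ∑ j ∈ Finset.range (m + 1), wt P.F P.u 0 ^ j * wt P.F P.u 1 ^ (m - j) =
      P.h * b0 P.F P.u := (even_comm' P.s_h _).symm
  rw [h1, A_mul P.c P.bas_h]
  rfl

/-- `θ h_m(x_-, x_+) ~ 0` -/
theorem hθ : P.Ex (P.h * P.θ) := by
  refine ⟨-iO P.c P.ζ, ?_, ?_⟩
  · have h0 : iO P.c (-iO P.c P.ζ) = 0 := by rw [map_neg, i_i, neg_zero]
    refine Bas_of P.c h0 ?_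
    have h1 : dO X (-iO P.c P.ζ) = iO P.c (dO X P.ζ) := by
      rw [map_neg]
      unfold ζ
      rw [cartan P.c (A_inv P.c _), neg_neg]
    rw [h1, i_i]
  · have h1 : dO X (-iO P.c P.ζ) = iO P.c (dO X P.ζ) := by
      rw [map_neg]
      unfold ζ
      rw [cartan P.c (A_inv P.c _), neg_neg]
    rw [h1, P.d_ζ, i_mul, Bas_i P.c P.bas_h, zero_mul, zero_add, P.s_h]
    rfl

end PhiK

end Pool.Agent.Lib.MP_ccbbf6_gt.L5
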