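import Pool.Agent.Lib.MP_ccbbf6_gt.L5.PHI03

/-!
# Level 5, block PHI 4: the data of the algebraic block (helper56)

With `K = Cal P.c P.I ..` (`R = Rb P.c`): `eR, θR, AR, BR` in `R`, and all the relations in the form `K.d x = r • K.u`.
-/

set_option autoImplicit false
set_option maxSynthPendingDepth 3

open Set Filter Topology

noncomputable section

namespace Pool.Agent.Lib.MP_ccbbf6_gt.L5

open L4 L4.FR

namespace PhiD

variable {X M : Space} {m : ℕ} (P : PhiD X M m)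

/-- the calculus of the phi side -/
def K : Calc (Rb P.c) (Om X) := Cal P.c P.I P.I_d P.I_i P.I_e

/-- curvature -/
def eR : Rb P.c := ⟨P.e, P.s_e, P.de, Bas_i P.c P.bas_e⟩
/-- `ι β` -/
def θR : Rb P.c := ⟨P.θ, P.s_θ, P.d_θ, P.i_θ⟩
/-- the Euler form -/
def fR : Rb P.c := ⟨P.f, P.s_f, P.df, P.jf⟩
/-- `x_+` -/
def AR : Rb P.c := ⟨P.xp, P.s_xp, P.d_xp, Bas_i P.c P.bas_xp⟩
/-- `x_-` -/
def BR : Rb P.c := ⟨P.xm, P.s_xm, P.d_xm, Bas_i P.c P.bas_xm⟩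

lemma xp_pow : P.xp ^ (m + 1) = 0 := by
  unfold xp wt
  rw [← map_pow, ← map_pow, P.up, map_zero, map_zero]

lemma xm_pow : P.xm ^ (m + 1) = 0 := by
  unfold xm wt
  rw [← map_pow, ← map_pow, P.up, map_zero, map_zero]

lemma AR_pow : P.AR ^ (m + 1) = 0 := Subtype.ext P.xp_pow
lemma BR_pow : P.BR ^ (m + 1) = 0 := Subtype.ext P.xm_pow

lemma K_u : P.K.u = 1 := rfl
lemma K_d (x : Om X) : P.K.d x = dO X x := rfl
lemma K_ι (x : Om X) : P.K.ι x = iO P.c x := rfl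
lemma K_I (x : Om X) : P.K.I x = P.I x := rfl
lemma smul_u (r : Rb P.c) : r • P.K.u = (r : Om X) := by
  rw [K_u, Rb_smul, mul_one]

lemma K_ιη : P.K.ι P.η = P.K.u := P.iη
lemma K_dη : P.K.d P.η = P.eR • P.K.u := by rw [smul_u]; rfl
lemma K_ιβ : P.K.ι P.β = P.θR • P.K.u := by rw [smul_u]; rfl
lemma K_dβ : P.K.d P.β = (P.AR - P.BR) • P.K.u := by rw [smul_u]; exact P.d_β

lemma hm_eq : ((hm m P.BR P.AR : Rb P.c) : Om X) = P.h := by
  unfold hm h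
  rw [AddSubmonoidClass.coe_finsetSum]
  rfl

lemma K_dζ : P.K.d P.ζ = hm m P.BR P.AR • P.β := by
  rw [Rb_smul, hm_eq]
  exact P.d_ζ

lemma K_ιζ : P.K.ι (P.K.d P.ζ) = -P.K.d (P.K.ι P.ζ) := by
  change iO P.c (dO X P.ζ) = -dO X (iO P.c P.ζ)
  unfold ζ
  rw [cartan P.c (A_inv P.c _), neg_neg]

/-! ### The relation for `θ ^ 2` -/

/-- `d` of basic forms in the calculus -/
lemma Ex_K {r : Rb P.c} (h : P.Ex (r : Om X)) : ∃ y, P.K.ι y = 0 ∧ P.K.d y = r • P.K.u := by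
  obtain ⟨y, hy, e⟩ := h
  exact ⟨y, Bas_i P.c hy, by rw [smul_u, e]; rfl⟩

variable {P}

/-- `θ ^ 2 ~ D ^ 2 α e ^ 2 + D ^ 2 b (x_+ + x_-)` -/
theorem θ_sq {D α : ℝ} (hD : P.Ex (P.θ - D • P.f)) (hα : P.Ex (P.f ^ 2 - α • P.e ^ 2 - P.b • (P.xm + P.xp))) :
    P.Ex (P.θ ^ 2 - (D ^ 2 * α) • P.e ^ 2 - (D ^ 2 * P.b) • (P.xm + P.xp)) := by
  have hb : Bas P.c (P.θ + D • P.f) := Bas_add P.c P.bas_θ (Bas_smul P.c D P.bas_f)
  have hd : dO X (P.θ + D • P.f) = 0 := by rw [map_add, map_smul, P.d_θ, P.df, smul_zero, add_zero]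
  have h1 := Ex_mul hD hb hd
  have h2 := Ex_smul (D ^ 2) hα
  have h3 := Ex_add h1 h2
  have hc : P.f * P.θ = P.θ * P.f := even_comm' P.s_f _
  have e1 : (P.θ - D • P.f) * (P.θ + D • P.f) = P.θ ^ 2 - D ^ 2 • P.f ^ 2 := by
    rw [sub_mul, mul_add, mul_add, mul_smul_comm, smul_mul_assoc, smul_mul_assoc, mul_smul_comm, hc, smul_smul,
      pow_two P.θ, pow_two P.f, pow_two D]
    abel
  rw [e1] at h3
  have e2 : P.θ ^ 2 - D ^ 2 • P.f ^ 2 + D ^ 2 • (P.f ^ 2 - α • P.e ^ 2 - P.b • (P.xm + P.xp)) =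
      P.θ ^ 2 - (D ^ 2 * α) • P.e ^ 2 - (D ^ 2 * P.b) • (P.xm + P.xp) := by
    module
  rwa [e2] at h3

variable (P)

/-! ### The involution -/

/-- the involution on the ring -/
def τR : Rb P.c →+* Rb P.c where
  toFun r := ⟨P.τ.pull r, by rw [pull_s, r.2.1], by rw [pull_d, r.2.2.1, map_zero], by
    rw [← i_eqv P.c P.c P.τc, r.2.2.2, map_zero]⟩
  map_one' := Subtype.ext (map_one _)
  map_mul' r s := Subtype.ext (map_mul _ _ _)
  map_zero' := Subtype.ext (map_zero _)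
  map_add' r s := Subtype.ext (map_add _ _ _)

lemma τR_coe (r : Rb P.c) : ((P.τR r : Rb P.c) : Om X) = P.τ.pull r := rfl

lemma τR_e : P.τR P.eR = P.eR := Subtype.ext P.τe
lemma τR_θ : P.τR P.θR = -P.θR := Subtype.ext P.τθ
lemma τR_f : P.τR P.fR = -P.fR := Subtype.ext P.τf
lemma τR_A : P.τR P.AR = P.BR := Subtype.ext P.τxp
lemma τR_B : P.τR P.BR = P.AR := Subtype.ext P.τxm

/-- `I (τ r η) = - I (r η)` -/
lemma I_τR (r : Rb P.c) : P.K.I (P.τR r • P.η) = -P.K.I (r • P.η) := by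
  rw [Rb_smul, Rb_smul, τR_coe]
  conv_lhs => rw [← P.τη]
  rw [← map_mul, P.K_I, P.K_I, P.I_τ]

lemma I_τR' (r : Rb P.c) (x : Om X) : P.K.I (P.τR r • P.τ.pull x) = -P.K.I (r • x) := by
  rw [Rb_smul, Rb_smul, τR_coe, ← map_mul, P.K_I, P.K_I, P.I_τ]

/-- basic exact forms integrate to `0` -/
lemma I_Ex {r : Rb P.c} (h : P.Ex (r : Om X)) : P.K.I (r • P.η) = 0 := by
  obtain ⟨y, hy, e⟩ := h
  rw [Rb_smul, e, P.K_I]
  have h1 := P.I_d (y * P.η)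
  rw [d_mul, map_add] at h1
  have h2 : P.I (sO X y * dO X P.η) = 0 := by
    refine P.I_i _ ?_
    rw [i_mul, P.idη, mul_zero, add_zero]
    have h3 : iO P.c (sO X y) = 0 := by
      have := i_s P.c y
      rw [Bas_i P.c hy, map_zero] at this
      exact neg_eq_zero.1 this.symm
    rw [h3, zero_mul]
  rw [h2, add_zero] at h1
  exact h1

/-! ### The primitive of `x_+ ^ m` -/

/-- `(x, r) ↦ (x, (1 + r) / 2)` -/
def hf (X : Space) : SMap X.xR X.xR :=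
  ⟨fun z => (z.1, (1 + z.2) / 2), fun _ p => ⟨p.2.1, (contDiff_const.add p.2.2).div_const 2⟩⟩

/-- the pull back of `u` by the middle map -/
def xh : Om X := wt P.F P.u (1 / 2)

/-- transport of a primitive from the middle map to `z_+` -/
theorem exists_s (hm1 : 1 ≤ m) {s0 : Om X} (hs : dO X s0 = P.xh ^ m) :
    ∃ s, P.K.d s = P.AR ^ m • P.K.u ∧ P.I (P.f * (P.xp ^ m * s)) = P.I (P.f * (P.xh ^ m * s0)) := by
  have e0 : wt (P.F.comp (hf X)) P.u 0 = P.xh := by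
    unfold xh wt
    have h : P.F.comp ((hf X).comp (jO X 0)) = P.F.comp (jO X (1 / 2)) := SMap_ext fun x => by
      change P.F.1 (x, (1 + 0) / 2) = P.F.1 (x, 1 / 2)
      norm_num
    rw [← pull_comp, ← pull_comp, ← h]
    rfl
  have e1 : wt (P.F.comp (hf X)) P.u 1 = P.xp := by
    unfold xp wt
    have h : P.F.comp ((hf X).comp (jO X 1)) = P.F.comp (jO X 1) := SMap_ext fun x => by
      change P.F.1 (x, (1 + 1) / 2) = P.F.1 (x, 1)
      norm_num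
    rw [← pull_comp, ← pull_comp, ← h]
    rfl
  obtain ⟨s, h1, h2⟩ := hopf_ev (P.F.comp (hf X)) P.us P.du P.I P.I_d P.up hm1 P.df (s0 := s0) (by rw [e0, hs])
  rw [e1] at h1 h2
  rw [e0] at h2
  refine ⟨s, ?_, h2⟩
  rw [smul_u, K_d, h1]
  rfl

/-- the number `U` for `θ` is `D` times the number for `f` -/
theorem U_eq (hm1 : 1 ≤ m) {D : ℝ} (hD : P.Ex (P.θ - D • P.f)) {s : Om X} (hs : P.K.d s = P.AR ^ m • P.K.u) :
    P.K.I ((P.θR * P.AR ^ m) • s) = D * P.I (P.f * (P.xp ^ m * s)) := by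
  obtain ⟨y, hy, e⟩ := hD
  have e1 : P.θ = D • P.f + dO X y := by rw [← e]; abel
  have e2 : ((P.θR * P.AR ^ m : Rb P.c) : Om X) = P.θ * P.xp ^ m := rfl
  have hs' : dO X s = P.xp ^ m := by
    rw [smul_u] at hs
    exact hs
  rw [Rb_smul, e2, P.K_I, e1, mul_assoc, add_mul, map_add, smul_mul_assoc, map_smul, smul_eq_mul]
  have h1 := P.I_d (y * (P.xp ^ m * s))
  have h2 : dO X (P.xp ^ m * s) = 0 := by
    rw [d_mul, d_pow_zero P.d_xp, zero_mul, zero_add, map_pow, P.s_xp, hs', ← pow_add]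
    have h4 : m + m = (m + 1) + (m - 1) := by omega
    rw [h4, pow_add, P.xp_pow, zero_mul]
  rw [d_mul, h2, mul_zero, add_zero] at h1
  rw [h1, add_zero]

end PhiD

end Pool.Agent.Lib.MP_ccbbf6_gt.L5
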