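import Pool.Agent.Lib.MP_ccbbf6_gt.L5.COH2

/-!
# Level 5, COH3: closed forms on `UM`, descent to `FM`, closed forms on rank `κ` sphere bundles over `UM` (helper67)

PROOFS.
(1) H3: σ from exists_sig; Ψ := -((m+1)/eps) • σ: Deg N, PI_M Ψ = 1, dΨ = foot^*(-((m+1)/eps) • u^m) = bM.pi^*(..). `SBun.SS` (N ≥ 1) with j < N: PI_M ζ = 0 (PI_low), so ζ = foot^* (PI_M (Ψ ζ)) + dη. w := PI_M (Ψ * ζ) has degree j (Deg_PI) and is
    closed: dO (PI_M (Ψ ζ)) = - PI_M (dΨ * ζ + sO Ψ * dζ) = - PI_M (foot^*a * ζ) = - sO^[N] a * PI_M ζ = 0.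
(2) H3_exact: 1 ≤ j ≤ κ: (κ+1) ∤ j, H2' gives w = dη', so ζ = d(foot^*η' + η). j < N because N + 1 = (κ+1) m ≥ 2 (κ+1). H3_x: degree κ + 1 < N: H2 with j = 1: w = r • u + dη'.
(3) descent: g^*a = dη. psi * g^*a: dO (psi * η) = (y - x) * η + sO psi * dη = (y - x) * η - psi * g^*a. PI_V: PI_V (psi * g^*a) = a (PIV_psi); PI_V ((y - x) * η) = PI_V (η * (y - x)) [even_comm'] = PI_V (η * g^*(p2^*u - p1^*u)) =
    PI_V η * (p2^*u - p1^*u) (PIV_mul); PI_V (dO (psi * η)) = - dO (PI_V (psi * η)). So a = PI_V η * (p2^*u - p1^*u) + dO (PI_V (psi * η)).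
(4) not_exact: suppose p2^*u - p1^*u = dρ with Deg κ ρ. Then psi - g^*ρ is closed (d_psi, y - x = g^*(p2^*u - p1^*u)) of degree κ, so = dχ with Deg (κ-1) χ by (2) (κ ≥ 1; for κ = 1, χ has degree 0). PI_V (psi - g^*ρ) = 1 - 0 (V1, PIV_g);
    PI_V (dχ) = - dO (PI_V χ) = 0 because χ has degree κ - 1 < κ (PI_low). So 1 = 0 in Om F: contradiction at a plot of F (F nonempty: evaluate at the plot p : F.Plot 0).
(5) H5e: descent with c = PI_V η (a 0-form), hypothesis PI_V η = algebraMap c.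
(6) H5p: a closed of degree κ+1 on F: g^*a closed on G: H3_x: g^*a = r • x + dη, so g^*(a - r • p1^*u) = dη, descent: a - r p1^*u = PI_V η * (p2^*u - p1^*u) + d(..), PI_V η is closed of degree 0: dO (PI_V η) = - PI_V (dη) =
    - PI_V (g^*(..)) = 0 (PIV_g); cF: PI_V η = algebraMap c.
(7) H5sym: sw^*a = a + dρ with p1 ∘ sw = p2, p2 ∘ sw = p1. By H5p a = r u1 + c (u2 - u1) + dη, sw^*: a + dρ = r u2 + c (u1 - u2) + d(sw^*η). Subtract: (r - 2c)(u2 - u1) = d(..) of degree κ (take care that the primitives have degree κ: H5p gives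
    Deg κ η, hypothesis Deg κ ρ), so r = 2c by (4): a = c (u1 + u2) + dη.
(8) H4: b' : SBun N' S' G, N' ≥ 1, N' + 1 = κ, f closed of degree N', PI f = 2, ant^*f = -f. ζ closed of degree N'. `SBun.SS` with Ψ = (1/2) • f, a = 0, j = N': ζ = pi^*(PI (Ψ ζ)) + (-1)^(N'+1) • (ant^*Ψ * pi^*(PI ζ)) + dη. PI ζ is a closed 0-form
    on G, = algebraMap c (hypothesis cG); ant^*Ψ = -Ψ. N' + 1 = κ is odd.. sign: (-1)^(N'+1) • (-(1/2) f c) = (1/2) c f as (-1)^κ = -1. PI (Ψ * ζ) is a closed N'-form on G (1 ≤ N' ≤ κ): exact by (2).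
-/

set_option autoImplicit false
set_option maxSynthPendingDepth 3

open Set Filter Topology

open scoped ContDiff

noncomputable section

namespace Pool.Agent.Lib.MP_ccbbf6_gt.L5

open L4 L4.FR

namespace CohD

variable {N κ m : ℕ} {M G F : Space} (D : CohD N κ m M G F)

/-- **(H3)** -/
theorem H3 {ζ : Om G} {j : ℕ} (hj : Deg j ζ) (hN : j < N) (hd : dO G ζ = 0) :
    ∃ (w : Om M) (η : Om G), Deg j w ∧ dO M w = 0 ∧ (∀ i, j = i + 1 → Deg i η) ∧ ζ = D.foot.pull w + dO G η := by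
  obtain ⟨σ, ξ, hσ, hξ, dξ, e1, dσ, Pσ⟩ := D.exists_sig
  have hm : (0 : ℝ) < m + 1 := by positivity
  have hΨ : Deg N ((-((m + 1) / D.eps)) • σ) := Deg_smul _ hσ
  have h1 : D.bM.PI ((-((m + 1) / D.eps)) • σ) = 1 := by
    rw [D.bM.PI_smul, Pσ, Algebra.algebraMap_eq_smul_one, smul_smul]
    have h2 : -(((m : ℝ) + 1) / D.eps) * -(D.eps / (m + 1)) = 1 := by
      have h3 := D.eps0
      field_simp
    rw [h2, one_smul]
  have hd' : dO G ((-((m + 1) / D.eps)) • σ) = D.bM.pi.pull ((-((m + 1) / D.eps)) • D.u ^ m) := by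
    rw [map_smul, dσ, D.pi_M, map_smul, map_pow, ← D.x_def]
  obtain ⟨η, h2, h3⟩ := D.bM.SS (by omega : 1 ≤ N) hΨ h1 hd' hj hd hN.le
  rw [D.bM.PI_low hj hN, map_zero, mul_zero, smul_zero, add_zero, D.pi_M] at h3
  refine ⟨D.bM.PI ((-((m + 1) / D.eps)) • σ * ζ), η, D.bM.Deg_PI ?_, ?_, h2, h3⟩
  · have h4 := Deg_mul hΨ hj
    rwa [add_comm] at h4
  · rw [D.PIM_d, d_mul, hd, mul_zero, add_zero, hd', D.bM.PI_mul, D.bM.PI_low hj hN, mul_zero, neg_zero]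

include D in
/-- closed forms of degree `1, …, κ` on `UM` are exact -/
theorem H3_exact {ζ : Om G} {j : ℕ} (hj : Deg (j + 1) ζ) (h : j + 1 ≤ κ) (hd : dO G ζ = 0) :
    ∃ η : Om G, Deg j η ∧ ζ = dO G η := by
  have h2 : j + 1 < N := by
    have h3 := D.dim
    have h4 := D.two
    have h5 : (κ + 1) * 2 ≤ (κ + 1) * m := Nat.mul_le_mul_left _ h4
    omega
  obtain ⟨w, η, hw, dw, hη, e⟩ := D.H3 hj h2 hd
  obtain ⟨η', hη', e'⟩ := D.H2' dw hw (fun hdvd => absurd (Nat.le_of_dvd (Nat.succ_pos j) hdvd) (by omega))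
  refine ⟨D.foot.pull η' + η, Deg_add (Deg_pull _ hη') (hη j rfl), ?_⟩
  rw [e, map_add, pull_d, ← e']

/-- closed forms of degree `κ + 1` on `UM` -/
theorem H3_x {ζ : Om G} (hj : Deg (κ + 1) ζ) (hd : dO G ζ = 0) :
    ∃ (r : ℝ) (η : Om G), Deg κ η ∧ ζ = r • D.x + dO G η := by
  by_cases hne : Nonempty (M.Plot 0)
  · obtain ⟨p0⟩ := hne
    have h2 : κ + 1 < N := by
      have h3 := D.dim
      have h4 := D.two
      obtain ⟨t, ht⟩ := D.odd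
      have h5 : (κ + 1) * 2 ≤ (κ + 1) * m := Nat.mul_le_mul_left _ h4
      omega
    obtain ⟨w, η, hw, dw, hη, e⟩ := D.H3 hj h2 hd
    obtain ⟨η', hη', e'⟩ := D.H2 p0 (j := 1) dw le_rfl (by rwa [mul_one])
    rw [pow_one] at e'
    refine ⟨D.eps⁻¹ * D.TM p0 (D.u ^ (m - 1) * w), D.foot.pull η' + η,
      Deg_add (Deg_pull _ (hη' κ (by rw [mul_one]))) (hη κ rfl), ?_⟩
    have h6 := congrArg D.foot.pull e'
    rw [map_add, map_smul, ← D.x_def, ← pull_d] at h6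
    rw [e, map_add, h6, add_assoc]
  · have h0 : ∀ θ : Om G, θ = 0 := fun θ => Om_ext fun k p =>
      absurd ⟨(D.foot.pl p).cmp (⟨fun _ => 0, contDiff_const⟩ : FR.Sm 0 k)⟩ hne
    exact ⟨0, 0, Deg_zero, (h0 ζ).trans (h0 _).symm⟩

/-- **descent** -/
theorem descent {a : Om F} {η : Om G} (h : D.g.pull a = dO G η) :
    a = D.bV.PI η * (D.p2.pull D.u - D.p1.pull D.u) + dO F (D.bV.PI (D.psi * η)) := by
  have h1 := D.PIV_d (D.psi * η)
  have h2 : D.y - D.x = D.g.pull (D.p2.pull D.u - D.p1.pull D.u) := by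
    rw [map_sub, D.g_p1, D.g_p2, D.y_def, D.x_def]
  have h3 : sO G (D.y - D.x) = D.y - D.x := by rw [map_sub, D.sx, D.sy]
  rw [d_mul, D.d_psi, D.s_psi, even_comm' h3, h2, ← h, neg_mul, D.bV.PI_add, D.PIV_mul] at h1
  have h4 := D.bV.PI_smul (-1) (D.psi * D.g.pull a)
  rw [neg_one_smul, neg_one_smul, D.PIV_psi] at h4
  rw [h4] at h1
  rw [h1]
  abel

theorem not_exact (p : F.Plot 0) {ρ : Om F} (h : Deg κ ρ) (r : ℝ) (hr : r • (D.p2.pull D.u - D.p1.pull D.u) = dO F ρ) :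
    r = 0 := by
  obtain ⟨t, ht⟩ := D.odd
  obtain ⟨j, hj⟩ : ∃ j, κ = j + 1 := ⟨κ - 1, by omega⟩
  have h2 : D.y - D.x = D.g.pull (D.p2.pull D.u - D.p1.pull D.u) := by
    rw [map_sub, D.g_p1, D.g_p2, D.y_def, D.x_def]
  have h3 : Deg κ (r • D.psi - D.g.pull ρ) := Deg_sub (Deg_smul _ D.Deg_psi) (Deg_pull _ h)
  have h4 : dO G (r • D.psi - D.g.pull ρ) = 0 := by
    rw [map_sub, map_smul, D.d_psi, pull_d, ← hr, map_smul, h2, sub_self]
  obtain ⟨χ, hχ, e⟩ := D.H3_exact (j := j) (by rwa [← hj]) hj.ge h4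
  have h5 := congrArg D.bV.PI e
  have h6 : D.bV.PI (r • D.psi - D.g.pull ρ) = algebraMap ℝ (Om F) r := by
    have h7 := D.bV.PI_smul (-1) (D.g.pull ρ)
    rw [neg_one_smul, neg_one_smul, D.PIV_g, neg_zero] at h7
    have h8 : D.bV.PI D.psi = 1 := D.V1
    rw [sub_eq_add_neg, D.bV.PI_add, h7, add_zero, D.bV.PI_smul, h8, Algebra.algebraMap_eq_smul_one]
  have h9 : D.bV.PI (dO G χ) = 0 := by
    have h10 := D.PIV_d χ
    rw [D.bV.PI_low hχ (by omega), map_zero] at h10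
    rw [← neg_neg (D.bV.PI (dO G χ)), ← h10, neg_zero]
  rw [h6, h9] at h5
  have h11 : val (algebraMap ℝ (Om F) r) p = r := by
    unfold val
    have h : Om.on (algebraMap ℝ (Om F) r) p = fc 0 (algebraMap ℝ (Cs 0) r) := ((fc 0).commutes r).symm
    rw [h, fn_fc]
    rfl
  have h12 : val (0 : Om F) p = 0 := by
    unfold val
    rw [on_zero, map_zero]
    rfl
  rw [← h11, h5, h12]

/-- **(H5)**, Euler class -/
theorem H5e {a : Om F} {η : Om G} (h : D.g.pull a = dO G η) (hη : Deg κ η) {c : ℝ}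
    (hc : D.bV.PI η = algebraMap ℝ (Om F) c) :
    ∃ ρ : Om F, Deg κ ρ ∧ a = c • (D.p2.pull D.u - D.p1.pull D.u) + dO F ρ := by
  refine ⟨D.bV.PI (D.psi * η), D.bV.Deg_PI (Deg_mul D.Deg_psi hη), ?_⟩
  have h1 := D.descent h
  rw [hc, ← Algebra.smul_def] at h1
  exact h1

theorem H5p {a : Om F} (h : Deg (κ + 1) a) (hd : dO F a = 0) :
    ∃ (r c : ℝ) (ρ : Om F), Deg κ ρ ∧ a = r • D.p1.pull D.u + c • (D.p2.pull D.u - D.p1.pull D.u) + dO F ρ := by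
  have h1 : dO G (D.g.pull a) = 0 := by rw [pull_d, hd, map_zero]
  obtain ⟨r, η, hη, e⟩ := D.H3_x (Deg_pull _ h) h1
  have h2 : D.g.pull (a - r • D.p1.pull D.u) = dO G η := by
    rw [map_sub, map_smul, D.g_p1, e, ← D.x_def, add_sub_cancel_left]
  have h3 : Deg 0 (D.bV.PI η) := D.bV.Deg_PI (by rwa [zero_add])
  have h4 : dO F (D.bV.PI η) = 0 := by rw [D.PIV_d, ← h2, D.PIV_g, neg_zero]
  obtain ⟨c, hc⟩ := D.cF _ h3 h4
  obtain ⟨ρ, hρ, e2⟩ := D.H5e h2 hη hc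
  refine ⟨r, c, ρ, hρ, ?_⟩
  rw [add_assoc, ← e2, add_sub_cancel]

/-- **(H5)**, symmetric classes -/
theorem H5sym (p : F.Plot 0) {a : Om F} (h : Deg (κ + 1) a) (hd : dO F a = 0) {sw : SMap F F}
    (h1 : ∀ z, D.p1.1 (sw.1 z) = D.p2.1 z) (h2 : ∀ z, D.p2.1 (sw.1 z) = D.p1.1 z) {ρ : Om F} (hρ : Deg κ ρ)
    (hs : sw.pull a = a + dO F ρ) :
    ∃ (c : ℝ) (ρ : Om F), Deg κ ρ ∧ a = c • (D.p1.pull D.u + D.p2.pull D.u) + dO F ρ := by
  obtain ⟨r, c, ρ', hρ', e⟩ := D.H5p h hd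
  have e1 : sw.pull (D.p1.pull D.u) = D.p2.pull D.u := by
    rw [← pull_comp, (SMap_ext h1 : D.p1.comp sw = D.p2)]
  have e2 : sw.pull (D.p2.pull D.u) = D.p1.pull D.u := by
    rw [← pull_comp, (SMap_ext h2 : D.p2.comp sw = D.p1)]
  have e3 := congrArg sw.pull e
  rw [map_add, map_add, map_smul, map_smul, map_sub, e1, e2, ← pull_d, hs] at e3
  have h3 : (r - 2 * c) • (D.p2.pull D.u - D.p1.pull D.u) = dO F (ρ' + ρ - sw.pull ρ') := by
    rw [map_sub, map_add]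
    rw [e] at e3
    have h4 : dO F ρ' + dO F ρ - dO F (sw.pull ρ') = r • D.p2.pull D.u + c • (D.p1.pull D.u - D.p2.pull D.u) -
        (r • D.p1.pull D.u + c • (D.p2.pull D.u - D.p1.pull D.u)) := by
      rw [sub_eq_iff_eq_add]
      have h5 : dO F ρ' + dO F ρ = (r • D.p1.pull D.u + c • (D.p2.pull D.u - D.p1.pull D.u) + dO F ρ' + dO F ρ) -
          (r • D.p1.pull D.u + c • (D.p2.pull D.u - D.p1.pull D.u)) := by abel
      rw [h5, e3]
      abel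
    rw [h4]
    module
  have h5 := D.not_exact p (Deg_sub (Deg_add hρ' hρ) (Deg_pull _ hρ')) _ h3
  have h6 : r = 2 * c := by linarith
  refine ⟨c, ρ', hρ', ?_⟩
  rw [e, h6]
  module

include D in
/-- **(H4)** -/
theorem H4 {N' : ℕ} {S' : Space} (b' : SBun N' S' G) (hN' : 1 ≤ N') (hκ : N' + 1 = κ)
    (cG : ∀ θ : Om G, Deg 0 θ → dO G θ = 0 → ∃ c : ℝ, θ = algebraMap ℝ (Om G) c) {f : Om S'} (hf : Deg N' f)
    (df : dO S' f = 0) (f2 : b'.PI f = algebraMap ℝ (Om G) 2) (fa : b'.ant.pull f = -f) {ζ : Om S'} (hζ : Deg N' ζ)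
    (dζ : dO S' ζ = 0) : ∃ (r : ℝ) (η : Om S'), (∀ i, N' = i + 1 → Deg i η) ∧ ζ = r • f + dO S' η := by
  have hΨ : Deg N' ((2⁻¹ : ℝ) • f) := Deg_smul _ hf
  have h1 : b'.PI ((2⁻¹ : ℝ) • f) = 1 := by
    rw [b'.PI_smul, f2, Algebra.smul_def, ← map_mul, inv_mul_cancel₀ (two_ne_zero' ℝ), map_one]
  have hd : dO S' ((2⁻¹ : ℝ) • f) = b'.pi.pull 0 := by
    rw [map_smul, df, smul_zero, map_zero]
  obtain ⟨η, hη, e⟩ := b'.SS hN' hΨ h1 hd hζ dζ le_rfl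
  obtain ⟨c, hc⟩ := cG (b'.PI ζ) (b'.Deg_PI (by rw [zero_add]; exact hζ)) (by
    rw [b'.PI_d, dζ, show b'.PI (0 : Om S') = 0 from by
      have := b'.PI_smul 0 (0 : Om S')
      rwa [zero_smul, zero_smul] at this, smul_zero])
  have dw : dO G (b'.PI ((2⁻¹ : ℝ) • f * ζ)) = 0 := by
    rw [b'.PI_d, d_mul, dζ, mul_zero, add_zero, hd, map_zero, zero_mul, show b'.PI (0 : Om S') = 0 from by
      have := b'.PI_smul 0 (0 : Om S')
      rwa [zero_smul, zero_smul] at this, smul_zero]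
  have Dw : Deg N' (b'.PI ((2⁻¹ : ℝ) • f * ζ)) := b'.Deg_PI (Deg_mul hΨ hζ)
  obtain ⟨i, rfl⟩ : ∃ i, N' = i + 1 := ⟨N' - 1, by omega⟩
  obtain ⟨η', hη', e'⟩ := D.H3_exact Dw (by omega) dw
  obtain ⟨t, ht⟩ := D.odd
  have hs : (-1 : ℝ) ^ (i + 1 + 1) = -1 := by
    rw [show i + 1 + 1 = 2 * t + 1 by omega, pow_succ, pow_mul, neg_one_sq, one_pow, one_mul]
  refine ⟨2⁻¹ * c, b'.pi.pull η' + η, ?_, ?_⟩
  · intro i' hi'
    obtain rfl : i' = i := by omega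
    exact Deg_add (Deg_pull _ hη') (hη _ rfl)
  · have e2 : b'.pi.pull (b'.PI ((2⁻¹ : ℝ) • f * ζ)) = dO S' (b'.pi.pull η') := by
      rw [e', pull_d]
    have e3 : b'.pi.pull (b'.PI ζ) = algebraMap ℝ (Om S') c := by
      rw [hc]
      exact AlgHom.commutes _ _
    have e4 : b'.ant.pull ((2⁻¹ : ℝ) • f) = -((2⁻¹ : ℝ) • f) := by
      rw [map_smul, fa, smul_neg]
    have e5 : (2⁻¹ : ℝ) • f * algebraMap ℝ (Om S') c = (2⁻¹ * c) • f := by
      rw [← Algebra.commutes, ← Algebra.smul_def, smul_smul, mul_comm]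
    rw [hs, e2, e3, e4, neg_mul, e5, smul_neg, neg_smul, one_smul, neg_neg] at e
    rw [map_add]
    rw [e]
    abel_nf

end CohD

end Pool.Agent.Lib.MP_ccbbf6_gt.L5
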