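import Pool.Agent.Lib.MP_ccbbf6_gt.L5.EG9
import Pool.Agent.Lib.MP_ccbbf6_gt.L5.EGH
import Pool.Agent.Lib.MP_ccbbf6_gt.L5.EGP
import Pool.Agent.Lib.MP_ccbbf6_gt.L5.NX3
import Pool.Agent.Lib.MP_ccbbf6_gt.L5.NX4

/-!
# Level 5, NXG: the basic form `f` on the unit sphere bundle of the negative bundle, `κ = 2 m + 1` (helper13, after helper93's NX3)

* `fNG` : closed, basic, even, degree `2 m`, odd under the antipode, fibre integral `-2`;
* `fNG_sq` : `f^2 = p_m(N)` modulo `d` (basic forms).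
-/

set_option autoImplicit false
set_option linter.unusedSectionVars false
set_option maxSynthPendingDepth 3

open Set Filter Topology Metric Real Module Matrix
open scoped ContDiff RealInnerProductSpace

noncomputable section

namespace Pool.Agent.Lib.MP_ccbbf6_gt.L5

open L4 L4.FR

section ptf

variable {A B A' B' : Type} [CommRing A] [Algebra ℝ A] [Ring B] [Algebra ℝ B] [CommRing A'] [Algebra ℝ A'] [Ring B']
  [Algebra ℝ B'] {G : GDA B} {G' : GDA B'} {φ : Fun0 A G} {φ' : Fun0 A' G'} {ι : Type} [Fintype ι] [DecidableEq ι]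
  {P : Matrix ι ι A}

/-- naturality of the Pontryagin forms -/
theorem FHom.ptf (F : FHom φ φ') (hP : P * P = P) (i : ℕ) (hP' : P.map F.g * P.map F.g = P.map F.g) :
    F.h.f (EGC.ptf φ hP i) = EGC.ptf φ' hP' i := by
  unfold EGC.ptf
  rw [map_smul]
  congr 1
  have h3 := GDA.map_cf F.h (φ.idem hP) (2 * i)
  have h5 : F.h.f ((GDA.cf (φ.idem hP) (2 * i) : G.Zc) : B) = ((F.h.zc (GDA.cf (φ.idem hP) (2 * i)) : G'.Zc) : B') := rfl
  rw [h5, h3]
  congr 2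
  exact F.mf P

/-- `f^2 = p_n` as forms -/
theorem fG_sq {n : ℕ} {o : (Fin (2 * n + 1) → ι) → A} {y : ι → A} {C' : Type} [Ring C'] [Algebra ℝ C'] {G'' : GDA C'}
    (hs : SqG φ) (C : Cyl G G'') (h : Or (2 * n + 1) P o) (hy : Sec P y) :
    ∃ ξ : B, fG φ P o y ^ 2 - EGC.ptf φ h.idem n = G.d ξ := by
  have h1 := hFG_sq hs C h hy
  unfold hFG hp at h1
  rw [← GDA.mk_cf] at h1
  obtain ⟨w, hw⟩ : ∃ w : G.Zc, (w : B) = fG φ P o y := ⟨⟨fG φ P o y, s_fG, d_fG h hy⟩, rfl⟩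
  have h2 : Ideal.Quotient.mk G.Ex (w * w) =
      Ideal.Quotient.mk G.Ex ((((2 * Real.pi) ^ (2 * n))⁻¹ : ℝ) • GDA.cf (φ.idem h.idem) (2 * n)) := by
    have h3 : w = ⟨fG φ P o y, s_fG, d_fG h hy⟩ := Subtype.ext hw
    rw [h3]
    exact h1
  obtain ⟨ξ, hξ⟩ := (Ideal.Quotient.eq.1 h2 : _ ∈ G.Ex)
  refine ⟨ξ, ?_⟩
  rw [hξ, pow_two, ← hw]
  rfl

end ptf

namespace NEG

open Geo L4 L4.ORI L4.FR

variable {n : ℕ} {M : Type} [MetricSpace M] [CompactSpace M] {𝒜 : SDist n M} {N m : ℕ} {C : Eu N → Gs M → M}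
  {P : Gs M → Eu N →L[ℝ] Eu N} {hB : Bl M} (hk : 𝒜.HK (2 * m + 1)) (hN : NegData 𝒜 (2 * m + 1) hB C P)
  {b : OBun (2 * m + 1) (Eu n) (spG 𝒜)} (hb : KBun b)

/-- the basic form `f` -/
def fBG : BasR (circN hB hN) := fG (FB (circN hB hN)) (pN hN) (oN (Nat.succ_pos _) hk hN hb) (yN hN)

/-- the form `f` -/
def fNG : Om (spN 𝒜 P) := (fBG hk hN hb : Om (spN 𝒜 P))

theorem d_fBG : (GB (circN hB hN)).d (fBG hk hN hb) = 0 := d_fG (or_oN (Nat.succ_pos _) hk hN hb) (sec_yN hN)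

theorem d_fNG : dO _ (fNG hk hN hb) = 0 := congrArg Subtype.val (d_fBG hk hN hb)

theorem s_fNG : sO _ (fNG hk hN hb) = fNG hk hN hb :=
  congrArg Subtype.val (s_fG (φ := FB (circN hB hN)) (P := pN hN) (o := oN (Nat.succ_pos _) hk hN hb) (y := yN hN))

/-- value in all forms -/
theorem fNG_val : fNG hk hN hb = fG (FO (spN 𝒜 P)) ((pN hN).map (FHom.inc (circN hB hN)).g)
      (fun I => (FHom.inc (circN hB hN)).g (oN (Nat.succ_pos _) hk hN hb I))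
      (fun l => (FHom.inc (circN hB hN)).g (yN hN l)) :=
  (FHom.inc (circN hB hN)).fG (P := pN hN) (y := yN hN) (o := oN (Nat.succ_pos _) hk hN hb)

theorem Deg_fNG : Deg (2 * m) (fNG hk hN hb) := by
  rw [fNG_val]
  exact EGD.Deg_fG _ _ _

theorem bas_fNG : (circN hB hN).a.pull (fNG hk hN hb) = (pO _).pull (fNG hk hN hb) := (fBG hk hN hb).2

theorem Bas_fNG : Bas (circN hB hN) (fNG hk hN hb) := (bas_iff _ _).2 (bas_fNG hk hN hb)

theorem i_fNG : iO (circN hB hN) (fNG hk hN hb) = 0 := Bas_i _ (Bas_fNG hk hN hb)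

theorem ant_fBG : (anF hN).h.f (fBG hk hN hb) = -fBG hk hN hb := by
  unfold fBG
  rw [FHom.fG, anF_p, anF_o, anF_y, fG_neg]

theorem ant_fNG : (antN 𝒜 P).pull (fNG hk hN hb) = -fNG hk hN hb := congrArg Subtype.val (ant_fBG hk hN hb)

/-- `f` is the form of the sphere bundle of `bN` -/
theorem fNG_eq : (toSN (Nat.succ_pos _) hk hN hb).pull (EGP.fGS (bN (Nat.succ_pos _) hk hN hb)
    (tbN (Nat.succ_pos _) hk hN hb) (Nat.succ_pos _)) = fNG hk hN hb := by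
  have h1 := (FHom.pull (toSN (Nat.succ_pos _) hk hN hb)).fG
    (P := OT.pS (bN (Nat.succ_pos _) hk hN hb) (tbN (Nat.succ_pos _) hk hN hb) (Nat.succ_pos _))
    (y := OT.yS (bN (Nat.succ_pos _) hk hN hb) (tbN (Nat.succ_pos _) hk hN hb))
    (o := OT.oS (bN (Nat.succ_pos _) hk hN hb) (tbN (Nat.succ_pos _) hk hN hb) (Nat.succ_pos _))
  refine Eq.trans h1 (Eq.trans ?_ (fNG_val hk hN hb).symm)
  have e1 : (OT.pS (bN (Nat.succ_pos _) hk hN hb) (tbN (Nat.succ_pos _) hk hN hb) (Nat.succ_pos _)).map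
      (FHom.pull (toSN (Nat.succ_pos _) hk hN hb)).g = (pN hN).map (FHom.inc (circN hB hN)).g := by
    unfold OT.pS
    rw [pm_eq]
    rfl
  rw [e1]
  rfl

/-- **the fibre integral** -/
theorem PI_fNG (h1 : 1 ≤ 2 * m) : (sN (K := 2 * m) h1 hk hN hb).PI (fNG hk hN hb) = algebraMap ℝ (Om (spG 𝒜)) (-2) := by
  rw [PI_sN, ← fNG_eq, ← pull_comp]
  have h : (toSN (Nat.succ_pos _) hk hN hb).comp (ofSN (Nat.succ_pos _) hk hN hb) = SMap.id _ := SMap_ext fun _ => rfl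
  have h2 : (toSN (Nat.succ_pos _) hk hN hb).comp (ofSN (Nat.succ_pos (2 * m)) hk hN hb) = SMap.id _ := h
  rw [h2, pull_id]
  exact EGP.PI_fGS _ (tbN (Nat.succ_pos _) hk hN hb) (Nat.succ_pos _) h1

/-- **`f^2 = p_m(N)`** modulo differentials of basic forms -/
theorem fNG_sq : ∃ y, Bas (circN hB hN) y ∧
    fNG hk hN hb ^ 2 - (prN 𝒜 P).pull (EGC.ptf (FO (spG 𝒜)) (mG_idem hN) m) = dO _ y := by
  obtain ⟨ξ, hξ⟩ := fG_sq (sqG_B (circN hB hN)) (CylB (circN hB hN)) (or_oN (Nat.succ_pos _) hk hN hb) (sec_yN hN)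
  refine ⟨ξ, (bas_iff _ _).2 ξ.2, ?_⟩
  have h1 := congrArg Subtype.val hξ
  have h2 : (prN 𝒜 P).pull (EGC.ptf (FO (spG 𝒜)) (mG_idem hN) m) =
      ((EGC.ptf (FB (circN hB hN)) (or_oN (Nat.succ_pos _) hk hN hb).idem m : BasR (circN hB hN)) : Om (spN 𝒜 P)) := by
    have e1 := (FHom.pull (prN 𝒜 P)).ptf (mG_idem hN) m (EGH.mapg_idem _ (mG_idem hN))
    have e2 := (FHom.inc (circN hB hN)).ptf (or_oN (Nat.succ_pos _) hk hN hb).idem m
      (EGH.mapg_idem _ (or_oN (Nat.succ_pos _) hk hN hb).idem)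
    refine Eq.trans e1 (Eq.trans ?_ e2.symm)
    rfl
  rw [h2]
  exact h1

end NEG

end Pool.Agent.Lib.MP_ccbbf6_gt.L5
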