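import Pool.Agent.Lib.MP_ccbbf6_gt.L5.NEGd

/-!
# NHa: the space `Kc c` and its orthogonal projection (Level 5, block NEG)

PROOFS.
`finrank_Kc`: `finrank_PV` (Cls/PolA) gives `κ + 1` for `PV`, `vel c 0 ∈ PV` (`mem_PV_self`) has norm `1`; `W ⊓ (span {v})ᗮ` has dimension one less
(`Submodule.finrank_add_inf_finrank_orthogonal` or `Submodule.finrank_add_finrank_orthogonal'`).
`exists_sec`: this is `local_D` of L4/OriE for general `κ`. Copy its proof up to the definition of `A` and `V` (with `hk : 𝒜.HK κ`; `V u` has dimension `κ + 1`);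
`E := F`. `W(v) := ` kernel of `A v` = `V v` (dimension count). Smooth sections of the kernel `V`: for `a ∈ V u₀` use the projection formula: `L4.EV.contDiffAt_proj` needs
sections, so argue directly: `V u` is the kernel of `A u`, `A` smooth, dimension constant. A smooth section through `a`: with `P` the orthogonal projection on `V u₀`,
`T w := (A u₀)† (A w) + P` is injective at `u₀` (as in `smooth_kernel'`), so invertible near `u₀`; `k w := (T w)⁻¹ a`; then `A w (k w) = 0` by dimension: `T w` restricted to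
`V w` is `P` restricted to `V w`, injective (T w is), so onto `V u₀`: there is `x ∈ V w` with `P x = a`, `T w x = a`, hence `k w = x ∈ V w`. (This is `smooth_kernel'` with `P` in place
of the two rank one terms: `κ` plays no role.)  Then subtract the component along `vel`.
`smV_Hc`: take an orthonormal basis `b_i` of `Kc (σ u)`, sections `k_i` through them (`exists_sec`), Gram matrix `G v = (⟪k_i v, k_j v⟫)` smooth (`SmV.inner`), `G u = 1`, so invertible near `u`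
(and then the `k_i v` are a basis of `Kc (σ v)` by `finrank_Kc`), `Hc (σ v) (w v) = ∑ i j, (G v)⁻¹ i j * ⟪k_j v, w v⟫ • k_i v` (uniqueness of the orthogonal projection); smoothness of the inverse matrix:
`contDiffAt_map_inverse` / `Ring.inverse`, or Cramer (`Matrix.inv_def`, `det`, `adjugate` are polynomials in the entries).
-/

set_option autoImplicit false
set_option linter.unusedSectionVars false

open Set Filter Topology Metric Real Module
open scoped ContDiff RealInnerProductSpace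

noncomputable section

namespace Pool.Agent.Lib.MP_ccbbf6_gt.L5.NEG

open Geo L4 L4.ORI

variable {n : ℕ} {M : Type*} [MetricSpace M] [CompactSpace M] {𝒜 : SDist n M}

theorem mem_Kc_iff {c : Gs M} {w : Eu n} : w ∈ Kc 𝒜 c ↔ w ∈ 𝒜.PV (c.1 0) (𝒜.vel c.1 0) ∧ ⟪𝒜.vel c.1 0, w⟫ = 0 := by
  unfold Kc
  rw [Submodule.mem_inf, Submodule.mem_orthogonal_singleton_iff_inner_right]

theorem finrank_Kc (hB : Bl M) {κ : ℕ} (hk : 𝒜.HK κ) (c : Gs M) : finrank ℝ (Kc 𝒜 c) = κ := by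
  have h1 : Submodule.span ℝ {𝒜.vel c.1 0} ≤ 𝒜.PV (c.1 0) (𝒜.vel c.1 0) := by
    rw [Submodule.span_singleton_le_iff_mem]
    exact mem_PV_self 𝒜 hB _ _
  have h2 := Submodule.finrank_add_inf_finrank_orthogonal h1
  rw [finrank_PV 𝒜 hB hk _ (vel_ne 𝒜 c), finrank_span_singleton (vel_ne 𝒜 c), inf_comm] at h2
  unfold Kc
  omega

theorem Hc_mem (c : Gs M) (w : Eu n) : Hc 𝒜 c w ∈ Kc 𝒜 c := by
  unfold Hc
  exact Submodule.starProjection_apply_mem _ _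

theorem Hc_of_mem {c : Gs M} {w : Eu n} (h : w ∈ Kc 𝒜 c) : Hc 𝒜 c w = w := by
  unfold Hc
  exact Submodule.starProjection_eq_self_iff.2 h

theorem inner_Hc (c : Gs M) (w w' : Eu n) (h : w' ∈ Kc 𝒜 c) : ⟪Hc 𝒜 c w, w'⟫ = ⟪w, w'⟫ := by
  unfold Hc
  rw [Submodule.inner_starProjection_left_eq_right, Submodule.starProjection_eq_self_iff.2 h]

/-- smooth kernel vectors with a parameter -/
private theorem NHa_kernel {E : Type*} [NormedAddCommGroup E] [NormedSpace ℝ E] {A : E → Eu n →L[ℝ] Eu n} {u₀ : E}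
    {a : Eu n} {d : ℕ} (hA : ContDiffAt ℝ ∞ A u₀) {V : E → Submodule ℝ (Eu n)}
    (hker : ∀ x, A u₀ x = 0 → x ∈ V u₀)
    (hV : ∀ᶠ u in 𝓝 u₀, finrank ℝ (V u) = d ∧ ∀ x ∈ V u, A u x = 0) (ha : a ∈ V u₀) :
    ∃ k : E → Eu n, k u₀ = a ∧ ContDiffAt ℝ ∞ k u₀ ∧ ∀ᶠ u in 𝓝 u₀, k u ∈ V u := by
  obtain ⟨R, hR⟩ : ∃ R : Eu n →L[ℝ] Eu n, R = (V u₀).starProjection := ⟨_, rfl⟩
  obtain ⟨T, hT⟩ : ∃ T : E → Eu n →L[ℝ] Eu n, T = fun w =>
    (ContinuousLinearMap.adjoint (A u₀)).comp (A w) + R := ⟨_, rfl⟩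
  have hTapp : ∀ w x, T w x = ContinuousLinearMap.adjoint (A u₀) (A w x) + R x := by
    intro w x
    rw [hT]
    rfl
  have hTc : ContDiffAt ℝ ∞ T u₀ := by
    rw [hT]
    exact (contDiffAt_const.clm_comp hA).add contDiffAt_const
  have hRm : ∀ x, R x ∈ V u₀ := by
    intro x
    rw [hR]
    exact Submodule.starProjection_apply_mem _ _
  have hRa : ∀ x ∈ V u₀, R x = x := by
    intro x hx
    rw [hR]
    exact Submodule.starProjection_eq_self_iff.2 hx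
  have hRR : ∀ x, ⟪R x, x⟫ = ‖R x‖ ^ 2 := by
    intro x
    have h1 := hRa _ (hRm x)
    have h2 : ⟪R (R x), x⟫ = ⟪R x, R x⟫ := by
      rw [hR]
      exact Submodule.inner_starProjection_left_eq_right _ _ _
    rw [h1] at h2
    rw [h2, real_inner_self_eq_norm_sq]
  have hAV : ∀ x ∈ V u₀, A u₀ x = 0 := hV.self_of_nhds.2
  have hinj : Function.Injective (T u₀) := by
    rw [injective_iff_map_eq_zero]
    intro x hx
    have h1 : ⟪T u₀ x, x⟫ = ‖A u₀ x‖ ^ 2 + ‖R x‖ ^ 2 := by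
      rw [hTapp, inner_add_left, ContinuousLinearMap.adjoint_inner_left, real_inner_self_eq_norm_sq, hRR]
    rw [hx, inner_zero_left] at h1
    have h2 : ‖A u₀ x‖ ^ 2 = 0 := by nlinarith [sq_nonneg ‖A u₀ x‖, sq_nonneg ‖R x‖]
    have h3 : ‖R x‖ ^ 2 = 0 := by nlinarith [sq_nonneg ‖A u₀ x‖, sq_nonneg ‖R x‖]
    have h5 : A u₀ x = 0 := norm_eq_zero.mp (pow_eq_zero_iff two_ne_zero |>.mp h2)
    have h6 : R x = 0 := norm_eq_zero.mp (pow_eq_zero_iff two_ne_zero |>.mp h3)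
    rw [← hRa x (hker x h5), h6]
  let e : Eu n ≃L[ℝ] Eu n := (LinearEquiv.ofInjectiveEndo (T u₀ : Eu n →ₗ[ℝ] Eu n) hinj).toContinuousLinearEquiv
  have he : (e : Eu n →L[ℝ] Eu n) = T u₀ := by ext1 x; rfl
  let k1 : E → Eu n := fun w => ContinuousLinearMap.inverse (T w) a
  have hTa : T u₀ a = a := by
    rw [hTapp, hAV a ha, map_zero, hRa a ha, zero_add]
  have hk1v : k1 u₀ = a := by
    show ContinuousLinearMap.inverse (T u₀) a = a
    rw [← he, ContinuousLinearMap.inverse_equiv]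
    apply e.injective
    rw [ContinuousLinearEquiv.coe_coe, e.apply_symm_apply]
    show a = (e : Eu n →L[ℝ] Eu n) a
    rw [he, hTa]
  have hev : ∀ᶠ w in 𝓝 u₀, ∃ e' : Eu n ≃L[ℝ] Eu n, (e' : Eu n →L[ℝ] Eu n) = T w := by
    have h1 : range ((↑) : (Eu n ≃L[ℝ] Eu n) → Eu n →L[ℝ] Eu n) ∈ 𝓝 (T u₀) := by
      rw [← he]; exact ContinuousLinearEquiv.nhds e
    filter_upwards [hTc.continuousAt.eventually h1] with w hw
    obtain ⟨e', he'⟩ := hw
    exact ⟨e', he'⟩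
  refine ⟨k1, hk1v, ?_, ?_⟩
  · have h5 : ContDiffAt ℝ ∞ ContinuousLinearMap.inverse (T u₀) := by
      rw [← he]; exact contDiffAt_map_inverse e
    have h6 : ContDiffAt ℝ ∞ (fun w => ContinuousLinearMap.inverse (T w)) u₀ := h5.comp u₀ hTc
    exact h6.clm_apply contDiffAt_const
  filter_upwards [hev, hV] with w hw hVw
  obtain ⟨e', he'⟩ := hw
  obtain ⟨h2, h4⟩ := hVw
  let f : V w →ₗ[ℝ] V u₀ := ((R : Eu n →ₗ[ℝ] Eu n).comp (V w).subtype).codRestrict (V u₀) fun x => hRm _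
  have hf : ∀ x : V w, (f x : Eu n) = R (x : Eu n) := fun x => rfl
  have hfi : Function.Injective f := by
    rw [injective_iff_map_eq_zero]
    intro x hx
    have h3 : R (x : Eu n) = 0 := by
      rw [← hf, hx]
      rfl
    have h5 : T w x = 0 := by
      rw [hTapp, h4 _ x.2, map_zero, h3, add_zero]
    rw [← he'] at h5
    have h6 : (x : Eu n) = 0 := e'.injective (by
      show (e' : Eu n →L[ℝ] Eu n) x = e' 0
      rw [h5, map_zero])
    exact Subtype.ext h6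
  have hfs : Function.Surjective f := by
    refine (LinearMap.injective_iff_surjective_of_finrank_eq_finrank ?_).mp hfi
    rw [h2, hV.self_of_nhds.1]
  obtain ⟨x, hx⟩ := hfs ⟨a, ha⟩
  have hx' : R (x : Eu n) = a := by
    rw [← hf, hx]
  have h5 : T w x = a := by
    rw [hTapp, h4 _ x.2, map_zero, hx', zero_add]
  have h6 : k1 w = x := by
    show ContinuousLinearMap.inverse (T w) a = x
    rw [← h5, ← he', ContinuousLinearMap.inverse_equiv]
    exact e'.symm_apply_apply _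
  rw [h6]
  exact x.2

/-- smooth local sections of `Kc` along smooth families -/
theorem exists_sec (hB : Bl M) {κ : ℕ} (hk : 𝒜.HK κ) {F : Type*} [NormedAddCommGroup F] [NormedSpace ℝ F] {σ : F → Gs M} {u : F}
    (hσ : SmGAt 𝒜 σ u) {p : M} (hp : (σ u).1 0 ∈ (𝒜.ψ p).source) {a : Eu n} (ha : a ∈ Kc 𝒜 (σ u)) :
    ∃ k : F → Eu n, SmV 𝒜 p (fun v => (σ v).1 0) k u ∧ k u = a ∧ ∀ᶠ v in 𝓝 u, k v ∈ Kc 𝒜 (σ v) := by
  obtain ⟨haPV, hva⟩ := mem_Kc_iff.1 ha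
  have hσ' : SmGA 𝒜 σ u := hσ
  obtain ⟨q0, hq0⟩ : ∃ q, q = (σ u).1 π := ⟨_, rfl⟩
  -- points near `u`
  have hxs : ∀ᶠ v in 𝓝 u, (σ v).1 0 ∈ (𝒜.ψ p).source :=
    hσ'.1.cont.eventually ((𝒜.ψ p).open_source.mem_nhds hp)
  have hqs : ∀ᶠ v in 𝓝 u, (σ v).1 π ∈ (𝒜.ψ q0).source := by
    refine (hσ'.at hB π).cont.eventually ((𝒜.ψ q0).open_source.mem_nhds ?_)
    show (σ u).1 π ∈ (𝒜.ψ q0).source
    rw [← hq0]; exact 𝒜.mem _
  have hq0s : (σ u).1 π ∈ (𝒜.ψ q0).source := hqs.self_of_nhds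
  -- the family with the extra parameter
  let W : F × Eu n → Eu n := fun z => 𝒜.vel (σ z.1).1 0 + DD 𝒜 p ((σ z.1).1 0) z.2
  let τ : F × Eu n → Gs M := fun z => gw 𝒜 hB (σ z.1) (W z)
  have hW0 : ∀ v, W (v, 0) = 𝒜.vel (σ v).1 0 := by
    intro v
    show _ + DD 𝒜 p ((σ v).1 0) 0 = _
    rw [map_zero, add_zero]
  have hτ : SmGA 𝒜 τ (u, 0) := by
    have hfst : SmAt 𝒜 (fun z : F × Eu n => (σ z.1).1 0) (u, 0) :=
      SmAt.comp (g := fun v => (σ v).1 0) (f := Prod.fst) hσ'.1 contDiffAt_fst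
    refine smGA_gw hB hfst hp ?_ (by rw [hW0]; exact vel_ne 𝒜 _)
    have h1 : SmV 𝒜 p (fun z : F × Eu n => (σ z.1).1 0) (fun z => 𝒜.vel (σ z.1).1 0) (u, 0) :=
      SmV.comp (f := (Prod.fst : F × Eu n → F)) (v := (u, 0)) (hσ'.smV hB hp) contDiffAt_fst
    refine h1.add ?_
    show ContDiffAt ℝ ∞ (fun z : F × Eu n => CC 𝒜 p ((σ z.1).1 0) (DD 𝒜 p ((σ z.1).1 0) z.2)) (u, 0)
    refine (contDiffAt_snd (𝕜 := ℝ) (E := F) (F := Eu n)).congr_of_eventuallyEq ?_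
    filter_upwards [hfst.cont.eventually ((𝒜.ψ p).open_source.mem_nhds hp)] with z hz
    exact CC_DD 𝒜 hz _
  let e : F × Eu n → Eu n := fun z => 𝒜.ψ q0 ((τ z).1 π)
  have hend : ∀ v, (τ (v, 0)).1 π = (σ v).1 π := by
    intro v
    show (gw 𝒜 hB (σ v) (W (v, 0))).1 π = _
    rw [hW0, gw_eq 𝒜 hB _ (vel_ne 𝒜 _), ← gs_Ex 𝒜 hB]
  have he : ContDiffAt ℝ ∞ e (u, 0) := (hτ.at hB π).chart (by rw [hend]; exact hq0s)
  have hed : ∀ᶠ v in 𝓝 u, DifferentiableAt ℝ e (v, 0) := by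
    have h1 : ContDiffAt ℝ 1 e (u, 0) := he.of_le (by simp)
    have h2 := h1.eventually (by simp)
    have h3 : Tendsto (fun v : F => (v, (0 : Eu n))) (𝓝 u) (𝓝 (u, 0)) :=
      (continuous_id.prodMk continuous_const).continuousAt
    filter_upwards [h3.eventually h2] with v hv
    exact hv.differentiableAt (by simp)
  let A : F → Eu n →L[ℝ] Eu n := fun v => (fderiv ℝ e (v, 0)).comp (ContinuousLinearMap.inr ℝ F (Eu n))
  have hA : ContDiffAt ℝ ∞ A u := by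
    have h3 : ContDiffAt ℝ ∞ (fderiv ℝ e) (u, 0) := he.fderiv_right (by simp)
    have h4 : ContDiffAt ℝ ∞ (fun v : F => fderiv ℝ e (v, 0)) u :=
      ContDiffAt.comp (g := fderiv ℝ e) (f := fun v : F => (v, (0 : Eu n))) u h3 (contDiffAt_id.prodMk contDiffAt_const)
    exact h4.clm_comp contDiffAt_const
  have hAeq : ∀ v, DifferentiableAt ℝ e (v, 0) → (σ v).1 π ∈ (𝒜.ψ q0).source → ∀ b : Eu n,
      A v b = fderiv ℝ (𝒜.X ((σ v).1 0) q0 π) (𝒜.vel (σ v).1 0) (DD 𝒜 p ((σ v).1 0) b) := by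
    intro v h1 h2 b
    have h3 : HasFDerivAt e (fderiv ℝ e (v, 0)) (v, 0) := h1.hasFDerivAt
    have h4 : HasFDerivAt (fun a : Eu n => e (v, a)) (A v) 0 :=
      h3.comp (0 : Eu n) (hasFDerivAt_prodMk_right v (0 : Eu n))
    have h5 : HasFDerivAt (fun a : Eu n => 𝒜.vel (σ v).1 0 + DD 𝒜 p ((σ v).1 0) a) (DD 𝒜 p ((σ v).1 0)) 0 :=
      (DD 𝒜 p ((σ v).1 0)).hasFDerivAt.const_add _
    have hXs : 𝒜.Ex ((σ v).1 0) (rad π (𝒜.vel (σ v).1 0)) ∈ (𝒜.ψ q0).source := by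
      rw [← gs_Ex 𝒜 hB]; exact h2
    have h6 : HasFDerivAt (𝒜.X ((σ v).1 0) q0 π) (fderiv ℝ (𝒜.X ((σ v).1 0) q0 π) (𝒜.vel (σ v).1 0))
        (𝒜.vel (σ v).1 0 + DD 𝒜 p ((σ v).1 0) 0) := by
      rw [map_zero, add_zero]
      exact ((contDiffAt_X 𝒜 hB _ q0 π (vel_ne 𝒜 _) hXs).differentiableAt (by simp)).hasFDerivAt
    have h7 := h6.comp (0 : Eu n) h5
    have h8 : (fun a : Eu n => e (v, a)) =ᶠ[𝓝 0]
        (𝒜.X ((σ v).1 0) q0 π) ∘ fun a : Eu n => 𝒜.vel (σ v).1 0 + DD 𝒜 p ((σ v).1 0) a := by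
      have h9 : ContinuousAt (fun a : Eu n => 𝒜.vel (σ v).1 0 + DD 𝒜 p ((σ v).1 0) a) 0 := h5.continuousAt
      have h10 : 𝒜.vel (σ v).1 0 + DD 𝒜 p ((σ v).1 0) 0 ≠ 0 := by
        rw [map_zero, add_zero]; exact vel_ne 𝒜 _
      filter_upwards [h9.eventually_ne h10] with a ha
      show 𝒜.ψ q0 ((gw 𝒜 hB (σ v) (W (v, a))).1 π) = 𝒜.ψ q0 (𝒜.Ex ((σ v).1 0) (rad π (W (v, a))))
      rw [gw_eq 𝒜 hB _ ha]
    exact congrArg (fun L : Eu n →L[ℝ] Eu n => L b) ((h4.congr_of_eventuallyEq h8.symm).unique h7)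
  -- the kernels
  let V : F → Submodule ℝ (Eu n) := fun v =>
    (𝒜.PV ((σ v).1 0) (𝒜.vel (σ v).1 0)).map (CC 𝒜 p ((σ v).1 0) : Eu n →ₗ[ℝ] Eu n)
  have hV : ∀ᶠ v in 𝓝 u, finrank ℝ (V v) = κ + 1 ∧ ∀ x ∈ V v, A v x = 0 := by
    filter_upwards [hxs, hqs, hed] with v h1 h2 h3
    constructor
    · have hinj : Function.Injective (CC 𝒜 p ((σ v).1 0) : Eu n →ₗ[ℝ] Eu n) := fun a b hab => by
        have := congrArg (DD 𝒜 p ((σ v).1 0)) hab
        rwa [ContinuousLinearMap.coe_coe, DD_CC 𝒜 h1, DD_CC 𝒜 h1] at this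
      show finrank ℝ ((𝒜.PV ((σ v).1 0) (𝒜.vel (σ v).1 0)).map (CC 𝒜 p ((σ v).1 0) : Eu n →ₗ[ℝ] Eu n)) = κ + 1
      rw [← (Submodule.equivMapOfInjective _ hinj _).finrank_eq]
      exact finrank_PV 𝒜 hB hk _ (vel_ne 𝒜 _)
    · rintro x ⟨y, hy, rfl⟩
      rw [hAeq v h3 h2, ContinuousLinearMap.coe_coe, DD_CC 𝒜 h1]
      exact fderiv_X_PV 𝒜 hB (vel_ne 𝒜 _) (by rw [← gs_Ex 𝒜 hB]; exact h2) hy
  have hker : ∀ x, A u x = 0 → x ∈ V u := by
    intro x hx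
    rw [hAeq u hed.self_of_nhds hq0s] at hx
    have h1 := ker_X_PV 𝒜 hB hk (vel_ne 𝒜 _) (by rw [← gs_Ex 𝒜 hB]; exact hq0s) hx
    exact ⟨_, h1, CC_DD 𝒜 hp _⟩
  obtain ⟨k, hk0, hks, hkev⟩ := NHa_kernel hA hker hV (a := CC 𝒜 p ((σ u).1 0) a) ⟨a, haPV, rfl⟩
  -- the perpendicular field
  let w1 : F → Eu n := fun v => DD 𝒜 p ((σ v).1 0) (k v)
  let w2 : F → Eu n := fun v => w1 v + (-⟪w1 v, 𝒜.vel (σ v).1 0⟫) • 𝒜.vel (σ v).1 0
  have hw1 : SmV 𝒜 p (fun v => (σ v).1 0) w1 u := by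
    show ContDiffAt ℝ ∞ (fun v => CC 𝒜 p ((σ v).1 0) (DD 𝒜 p ((σ v).1 0) (k v))) u
    refine hks.congr_of_eventuallyEq ?_
    filter_upwards [hxs] with v hv
    exact CC_DD 𝒜 hv _
  have hw2 : SmV 𝒜 p (fun v => (σ v).1 0) w2 u := by
    have h3 := hσ'.smV hB hp
    exact hw1.add (h3.smul (SmV.inner hσ'.1 hp hw1 h3).neg)
  refine ⟨w2, hw2, ?_, ?_⟩
  · show w1 u + (-⟪w1 u, 𝒜.vel (σ u).1 0⟫) • 𝒜.vel (σ u).1 0 = a
    have h1 : w1 u = a := by
      show DD 𝒜 p ((σ u).1 0) (k u) = _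
      rw [hk0, DD_CC 𝒜 hp]
    rw [h1, real_inner_comm, hva, neg_zero, zero_smul, add_zero]
  · filter_upwards [hkev, hxs] with v h1 h2
    rw [mem_Kc_iff]
    constructor
    · have h6 : w1 v ∈ 𝒜.PV ((σ v).1 0) (𝒜.vel (σ v).1 0) := by
        obtain ⟨y, hy, hyk⟩ := h1
        show DD 𝒜 p ((σ v).1 0) (k v) ∈ _
        rw [← hyk, ContinuousLinearMap.coe_coe, DD_CC 𝒜 h2]
        exact hy
      exact Submodule.add_mem _ h6 (Submodule.smul_mem _ _ (mem_PV_self 𝒜 hB _ _))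
    · show ⟪𝒜.vel (σ v).1 0, w1 v + (-⟪w1 v, 𝒜.vel (σ v).1 0⟫) • 𝒜.vel (σ v).1 0⟫ = 0
      rw [inner_add_right, real_inner_smul_right, real_inner_self_eq_norm_sq, vel_norm, real_inner_comm]
      ring

private theorem NHa_det {F : Type*} [NormedAddCommGroup F] [NormedSpace ℝ F] {κ : ℕ} {G : F → Matrix (Fin κ) (Fin κ) ℝ} {u : F}
    (hG : ∀ i j, ContDiffAt ℝ ∞ (fun v => G v i j) u) : ContDiffAt ℝ ∞ (fun v => (G v).det) u := by
  simp only [Matrix.det_apply]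
  refine ContDiffAt.sum fun s _ => ?_
  refine ContDiffAt.const_smul _ ?_
  exact contDiffAt_prod fun i _ => hG _ _

private theorem NHa_inv {F : Type*} [NormedAddCommGroup F] [NormedSpace ℝ F] {κ : ℕ} {G : F → Matrix (Fin κ) (Fin κ) ℝ} {u : F}
    (hG : ∀ i j, ContDiffAt ℝ ∞ (fun v => G v i j) u) (hd : (G u).det ≠ 0) (i j : Fin κ) :
    ContDiffAt ℝ ∞ (fun v => (G v)⁻¹ i j) u := by
  have h1 : (fun v => (G v)⁻¹ i j) = fun v => (G v).det⁻¹ * ((G v).updateRow j (Pi.single i 1)).det := by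
    funext v
    rw [Matrix.inv_def, Ring.inverse_eq_inv', Matrix.smul_apply, Matrix.adjugate_apply, smul_eq_mul]
  rw [h1]
  refine ((NHa_det hG).inv hd).mul (NHa_det fun a b => ?_)
  by_cases h : a = j
  · subst h
    simp only [Matrix.updateRow_self]
    exact contDiffAt_const
  · simp only [Matrix.updateRow_ne h]
    exact hG a b

/-- the projection onto `Kc` is smooth -/
theorem smV_Hc (hB : Bl M) {κ : ℕ} (hk : 𝒜.HK κ) {F : Type*} [NormedAddCommGroup F] [NormedSpace ℝ F] {σ : F → Gs M} {u : F}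
    (hσ : SmGAt 𝒜 σ u) {p : M} (hp : (σ u).1 0 ∈ (𝒜.ψ p).source) {w : F → Eu n} (hw : SmV 𝒜 p (fun v => (σ v).1 0) w u) :
    SmV 𝒜 p (fun v => (σ v).1 0) (fun v => Hc 𝒜 (σ v) (w v)) u := by
  obtain ⟨b⟩ : Nonempty (OrthonormalBasis (Fin κ) ℝ (Kc 𝒜 (σ u))) :=
    ⟨(stdOrthonormalBasis ℝ (Kc 𝒜 (σ u))).reindex (finCongr (finrank_Kc hB hk (σ u)))⟩
  choose k hks hku hkm using fun i : Fin κ => exists_sec hB hk hσ hp (b i).2
  obtain ⟨G, hG⟩ : ∃ G : F → Matrix (Fin κ) (Fin κ) ℝ, G = fun v => Matrix.of fun i j => ⟪k i v, k j v⟫ := ⟨_, rfl⟩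
  have hGe : ∀ v i j, G v i j = ⟪k i v, k j v⟫ := by
    intro v i j
    rw [hG]
    rfl
  have hGs : ∀ i j, ContDiffAt ℝ ∞ (fun v => G v i j) u := by
    intro i j
    simp only [hGe]
    exact SmV.inner hσ.1 hp (hks i) (hks j)
  have hGu : G u = 1 := by
    ext i j
    rw [hGe, hku, hku, Matrix.one_apply]
    have h1 := orthonormal_iff_ite.1 b.orthonormal i j
    rw [← h1]
    rfl
  have hdu : (G u).det ≠ 0 := by
    rw [hGu, Matrix.det_one]
    exact one_ne_zero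
  have hd : ∀ᶠ v in 𝓝 u, (G v).det ≠ 0 := (NHa_det hGs).continuousAt.eventually_ne hdu
  have hS : SmV 𝒜 p (fun v => (σ v).1 0) (fun v => ∑ i, (∑ j, (G v)⁻¹ i j * ⟪k j v, w v⟫) • k i v) u := by
    have hc : ∀ i, ContDiffAt ℝ ∞ (fun v => ∑ j, (G v)⁻¹ i j * ⟪k j v, w v⟫) u := by
      intro i
      exact ContDiffAt.sum fun j _ => (NHa_inv hGs hdu i j).mul (SmV.inner hσ.1 hp (hks j) hw)
    unfold SmV
    simp only [map_sum]
    exact ContDiffAt.sum fun i _ => (hks i).smul (hc i)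
  refine hS.congr ?_
  filter_upwards [hd, eventually_all.2 hkm] with v hdv hm
  obtain ⟨c, hc⟩ : ∃ c : Fin κ → ℝ, c = fun i => ∑ j, (G v)⁻¹ i j * ⟪k j v, w v⟫ := ⟨_, rfl⟩
  obtain ⟨y, hy⟩ : ∃ y : Eu n, y = ∑ i, c i • k i v := ⟨_, rfl⟩
  have hyc : ∑ i, (∑ j, (G v)⁻¹ i j * ⟪k j v, w v⟫) • k i v = y := by
    rw [hy, hc]
  rw [hyc]
  have hinv : G v * (G v)⁻¹ = 1 := Matrix.mul_nonsing_inv _ (isUnit_iff_ne_zero.2 hdv)
  have hli : LinearIndependent ℝ fun i => k i v := by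
    rw [Fintype.linearIndependent_iff]
    intro g hg
    have h1 : (G v).mulVec g = 0 := by
      funext l
      have h2 : ⟪k l v, ∑ i, g i • k i v⟫ = 0 := by rw [hg, inner_zero_right]
      rw [inner_sum] at h2
      simp only [real_inner_smul_right] at h2
      rw [Matrix.mulVec, dotProduct, Pi.zero_apply, ← h2]
      exact Finset.sum_congr rfl fun i _ => by rw [hGe, mul_comm]
    exact congrFun (Matrix.eq_zero_of_mulVec_eq_zero hdv h1)
  have hspan : Submodule.span ℝ (Set.range fun i => k i v) = Kc 𝒜 (σ v) := by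
    apply Submodule.eq_of_le_of_finrank_eq
    · rw [Submodule.span_le]
      rintro _ ⟨i, rfl⟩
      exact hm i
    · rw [finrank_span_eq_card hli, finrank_Kc hB hk, Fintype.card_fin]
  have hymem : y ∈ Kc 𝒜 (σ v) := by
    rw [hy]
    exact Submodule.sum_mem _ fun i _ => Submodule.smul_mem _ _ (hm i)
  have hky : ∀ l, ⟪k l v, y⟫ = ⟪k l v, w v⟫ := by
    intro l
    have h1 : ⟪k l v, y⟫ = ∑ i, G v l i * c i := by
      rw [hy, inner_sum]
      exact Finset.sum_congr rfl fun i _ => by rw [real_inner_smul_right, hGe, mul_comm]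
    have h2 : c = (G v)⁻¹.mulVec fun j => ⟪k j v, w v⟫ := by
      rw [hc]
      rfl
    have h3 : ∑ i, G v l i * c i = (G v).mulVec c l := rfl
    rw [h1, h3, h2, Matrix.mulVec_mulVec, hinv, Matrix.one_mulVec]
  unfold Hc
  refine Submodule.eq_starProjection_of_mem_of_inner_eq_zero hymem fun z hz => ?_
  rw [← hspan] at hz
  refine Submodule.span_induction (p := fun z _ => ⟪w v - y, z⟫ = 0) ?_ ?_ ?_ ?_ hz
  · rintro _ ⟨l, rfl⟩
    rw [real_inner_comm, inner_sub_right, hky, sub_self]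
  · exact inner_zero_right _
  · intro a b _ _ ha hb
    rw [inner_add_right, ha, hb, add_zero]
  · intro r a _ ha
    rw [real_inner_smul_right, ha, mul_zero]

end Pool.Agent.Lib.MP_ccbbf6_gt.L5.NEG
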