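import Pool.Agent.Lib.MP_ccbbf6_gt.L4.OMq

/-!
# Level 5, UOR01: functions of the cut point are smooth off the base point (helper2)
-/

set_option autoImplicit false
set_option linter.unusedSectionVars false
set_option linter.unusedVariables false

open Set Filter Topology Metric Real
open scoped ContDiff RealInnerProductSpace

noncomputable section

namespace Pool.Agent.Lib.MP_ccbbf6_gt.L5

open Geo L4

variable {n : ℕ} {M : Type*} [MetricSpace M] [CompactSpace M] {𝒜 : SDist n M} {p : M}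

/-- `Φ x = G w` whenever `w` points to the cut point behind `x` -/
def DirFun (𝒜 : SDist n M) (p : M) {H : Type*} (G : Eu n → H) (Φ : M → H) : Prop :=
  ∀ x : M, x ≠ p → ∀ w : Eu n, w ≠ 0 → 𝒜.Ex p (rad π w) = cutp p x → Φ x = G w

theorem Ex_rad_of_norm (hB : Bl M) {v : Eu n} (hv : ‖v‖ = 1) : 𝒜.Ex p (rad π v) = 𝒜.gv p v π := by
  have hv0 : v ≠ 0 := by
    intro h
    rw [h, norm_zero] at hv
    exact zero_ne_one hv
  rw [kc_Ex 𝒜 hB p hv0, hv, inv_one, one_smul]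

/-- value along geodesics -/
theorem DirFun.gv (hB : Bl M) {H : Type*} {G : Eu n → H} {Φ : M → H} (h : DirFun 𝒜 p G Φ) {v : Eu n} (hv : ‖v‖ = 1)
    {r : ℝ} (h0 : 0 < r) (h1 : r ≤ π) : Φ (𝒜.gv p v r) = G v := by
  have hv0 : v ≠ 0 := by
    intro h
    rw [h, norm_zero] at hv
    exact zero_ne_one hv
  have hne : 𝒜.gv p v r ≠ p := by
    intro h2
    have h3 := gv_dist 𝒜 hB p hv h0.le h1
    rw [h2, dist_self] at h3
    exact h0.ne h3
  refine h _ hne v hv0 ?_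
  rw [Ex_rad_of_norm hB hv, cutp_gv 𝒜 hB p hv h0 h1]

theorem DirFun.smooth0 (hB : Bl M) {κ : ℕ} (hk : 𝒜.HK κ) {H : Type*} [NormedAddCommGroup H] [NormedSpace ℝ H]
    {G : Eu n → H} {Φ : M → H} (h : DirFun 𝒜 p G Φ) (hG : ∀ w : Eu n, w ≠ 0 → ContDiffAt ℝ ∞ G w) {q : M}
    (hq : q ≠ p) : ContDiffAt ℝ ∞ (fun z => Φ ((𝒜.ψ q).symm z)) 0 := by
  have hdt : Tendsto (fun z => dist p ((𝒜.ψ q).symm z)) (𝓝 0) (𝓝 (dist p q)) :=
    tendsto_const_nhds.dist (tendsto_symm q)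
  have hpos : 0 < dist p q := dist_pos.2 (Ne.symm hq)
  rcases lt_or_ge (dist p q) π with h2 | h2
  · -- off the cut locus
    obtain ⟨lg, hlg, hev⟩ := exists_log (𝒜 := 𝒜) hB h2
    obtain ⟨h3, h4⟩ := hev.self_of_nhds
    rw [symm_zero] at h3 h4
    have hne : lg 0 ≠ 0 := by
      intro h0
      rw [h0, norm_zero] at h3
      exact hpos.ne h3
    refine (ContDiffAt.comp (g := G) (0 : Eu n) (hG _ hne) hlg).congr_of_eventuallyEq ?_
    filter_upwards [hev, hlg.continuousAt.eventually_ne hne, hdt.eventually_lt_const h2,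
      hdt.eventually_const_lt hpos] with z hz1 hz2 hz3 hz4
    have hnz := norm_normalize hz2
    have hx : (𝒜.ψ q).symm z = 𝒜.gv p (‖lg z‖⁻¹ • lg z) ‖lg z‖ := by
      rw [← Ex_smul 𝒜 hB p hnz, (exa_polar hz2).2, hz1.2]
    have hxp : (𝒜.ψ q).symm z ≠ p := by
      intro h0
      rw [h0, dist_self] at hz4
      exact lt_irrefl _ hz4
    refine h _ hxp (lg z) hz2 ?_
    rw [kc_Ex 𝒜 hB p hz2]
    rw [hx]
    rw [cutp_gv 𝒜 hB p hnz (by rw [hz1.1]; exact hz4) (by rw [hz1.1]; exact hz3.le)]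
  · -- at the cut locus
    have hd : dist p q = π := le_antisymm (hB.diam p q) h2
    obtain ⟨V, hV, hVk⟩ := finrank_Lam 𝒜 hB hk (q := p) (p := q) (by rw [dist_comm, hd])
    obtain ⟨a, ha1, ha2⟩ := exists_dir 𝒜 hB hq
    rw [hd] at ha2
    have haV : a ∈ V := by
      have h3 : a ∈ 𝒜.Lam p q := ⟨ha1, ha2⟩
      rw [hV] at h3
      exact h3.1
    obtain ⟨s, hs1, hs2, hs3⟩ := exists_section 𝒜 hB hk hd hV hVk haV (kc_ne ha1)
    have hne : s 0 ≠ 0 := by rw [hs2]; exact kc_ne ha1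
    refine (ContDiffAt.comp (g := G) (0 : Eu n) (hG _ hne) hs1).congr_of_eventuallyEq ?_
    filter_upwards [hs3, hdt.eventually_const_lt hpos] with z hz1 hz2
    have hxp : (𝒜.ψ q).symm z ≠ p := by
      intro h0
      rw [h0, dist_self] at hz2
      exact lt_irrefl _ hz2
    exact h _ hxp (s z) hz1.1 hz1.2

/-- **smoothness of functions of the cut point** -/
theorem DirFun.smooth (hB : Bl M) {κ : ℕ} (hk : 𝒜.HK κ) {H : Type*} [NormedAddCommGroup H] [NormedSpace ℝ H]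
    {G : Eu n → H} {Φ : M → H} (h : DirFun 𝒜 p G Φ) (hG : ∀ w : Eu n, w ≠ 0 → ContDiffAt ℝ ∞ G w)
    {E : Type*} [NormedAddCommGroup E] [NormedSpace ℝ E] {g : E → M} {u : E} (hg : SmAt 𝒜 g u) (hp : g u ≠ p) :
    ContDiffAt ℝ ∞ (fun v => Φ (g v)) u := by
  have h1 := h.smooth0 hB hk hG hp
  have h0 : 𝒜.ψ (g u) (g u) = 0 := 𝒜.zero _
  rw [← h0] at h1
  have h2 := ContDiffAt.comp (g := fun z => Φ ((𝒜.ψ (g u)).symm z)) (f := fun v => 𝒜.ψ (g u) (g v)) u h1 hg.2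
  refine h2.congr_of_eventuallyEq ?_
  filter_upwards [hg.1.eventually ((𝒜.ψ (g u)).open_source.mem_nhds (𝒜.mem _))] with v hv
  show _ = Φ ((𝒜.ψ (g u)).symm (𝒜.ψ (g u) (g v)))
  rw [(𝒜.ψ (g u)).left_inv hv]

open Classical in
/-- the function on `M` defined by a function of the direction which depends only on the plane -/
def dirF (𝒜 : SDist n M) (p : M) {H : Type*} [Zero H] (G : Eu n → H) (x : M) : H :=
  if h : ∃ w : Eu n, w ≠ 0 ∧ 𝒜.Ex p (rad π w) = cutp p x then G h.choose else 0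

theorem dirF_spec (p : M) {H : Type*} [Zero H] {G : Eu n → H}
    (hG : ∀ v w : Eu n, v ≠ 0 → w ≠ 0 → 𝒜.Ex p (rad π w) = 𝒜.Ex p (rad π v) → G w = G v) :
    DirFun 𝒜 p G (dirF 𝒜 p G) := by
  intro x _ w hw hx
  have hex : ∃ w : Eu n, w ≠ 0 ∧ 𝒜.Ex p (rad π w) = cutp p x := ⟨w, hw, hx⟩
  unfold dirF
  rw [dif_pos hex]
  exact hG _ _ hw hex.choose_spec.1 (hex.choose_spec.2.trans hx.symm)

/-- every point has a direction -/
theorem exists_w (hB : Bl M) {x : M} (hx : x ≠ p) : ∃ w : Eu n, w ≠ 0 ∧ 𝒜.Ex p (rad π w) = cutp p x := by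
  obtain ⟨v, hv1, hv2⟩ := exists_dir 𝒜 hB hx
  have hv0 : v ≠ 0 := by
    intro h
    rw [h, norm_zero] at hv1
    exact zero_ne_one hv1
  refine ⟨v, hv0, ?_⟩
  rw [Ex_rad_of_norm hB hv1]
  have h1 := cutp_gv 𝒜 hB p hv1 (dist_pos.2 (Ne.symm hx)) (hB.diam _ _)
  rw [hv2] at h1
  exact h1.symm

end Pool.Agent.Lib.MP_ccbbf6_gt.L5
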