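import Pool.Agent.Lib.MP_ccbbf6_gt.L5.UOR02
import Pool.Agent.Lib.MP_ccbbf6_gt.L5.UOR03

/-!
# Level 5, UOR04: a smooth family of subspaces over a sphere is orientable (helper2)
-/

set_option autoImplicit false
set_option linter.unusedSectionVars false
set_option linter.unusedVariables false

open Set Filter Topology Metric Real Module
open scoped ContDiff RealInnerProductSpace

noncomputable section

namespace Pool.Agent.Lib.MP_ccbbf6_gt.L5

variable {n r : ℕ}

/-- the projection on the line of the orientations -/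
def lnM (P : EuclideanSpace ℝ (Fin n) →L[ℝ] EuclideanSpace ℝ (Fin n)) (I J : Fin r → Fin n) : ℝ :=
  (Matrix.of fun k l => (P (EuclideanSpace.single (J l) 1)) (I k)).det / (r.factorial : ℝ)

/-- a matrix as a continuous linear map of a euclidean space -/
def mtL {κ : Type*} [Fintype κ] (A : κ → κ → ℝ) : EuclideanSpace ℝ κ →L[ℝ] EuclideanSpace ℝ κ :=
  LinearMap.toContinuousLinearMap
    { toFun := fun x => WithLp.toLp 2 fun i => ∑ j, A i j * x j
      map_add' := fun x y => by
        ext i
        simp only [PiLp.add_apply, mul_add, Finset.sum_add_distrib]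
      map_smul' := fun c x => by
        ext i
        simp only [PiLp.smul_apply, smul_eq_mul, RingHom.id_apply, Finset.mul_sum]
        exact Finset.sum_congr rfl fun j _ => by ring }

theorem mtL_apply {κ : Type*} [Fintype κ] (A : κ → κ → ℝ) (x : EuclideanSpace ℝ κ) (i : κ) :
    mtL A x i = ∑ j, A i j * x j := rfl

theorem mtL_eq_sum {κ : Type*} [Fintype κ] [DecidableEq κ] (A : κ → κ → ℝ) :
    mtL A = ∑ i, ∑ j, A i j • mtL (fun a b => if a = i ∧ b = j then (1 : ℝ) else 0) := by
  ext x i
  have h1 : (∑ i', ∑ j, A i' j • mtL (fun a b => if a = i' ∧ b = j then (1 : ℝ) else 0)) x i =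
      ∑ i', ∑ j, A i' j * (mtL (fun a b => if a = i' ∧ b = j then (1 : ℝ) else 0) x i) := by
    simp only [FunLike.coe_sum, Finset.sum_apply, WithLp.ofLp_sum]
    rfl
  have h2 : ∀ i' j, mtL (fun a b => if a = i' ∧ b = j then (1 : ℝ) else 0) x i = if i = i' then x j else 0 := by
    intro i' j
    rw [mtL_apply, Finset.sum_eq_single j]
    · by_cases h : i = i'
      · rw [if_pos ⟨h, rfl⟩, if_pos h, one_mul]
      · rw [if_neg fun h' => h h'.1, if_neg h, zero_mul]
    · intro b _ hb
      rw [if_neg fun h' => hb h'.2, zero_mul]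
    · intro h
      exact absurd (Finset.mem_univ j) h
  rw [h1, mtL_apply]
  symm
  rw [Finset.sum_eq_single i]
  · refine Finset.sum_congr rfl fun j _ => ?_
    rw [h2, if_pos rfl]
  · intro b _ hb
    refine Finset.sum_eq_zero fun j _ => ?_
    rw [h2, if_neg (Ne.symm hb), mul_zero]
  · intro h
    exact absurd (Finset.mem_univ i) h

theorem continuousOn_mtL {κ X : Type*} [Fintype κ] [DecidableEq κ] [TopologicalSpace X] {A : X → κ → κ → ℝ} {s : Set X}
    (h : ∀ i j, ContinuousOn (fun x => A x i j) s) : ContinuousOn (fun x => mtL (A x)) s := by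
  have e : (fun x => mtL (A x)) =
      fun x => ∑ i, ∑ j, A x i j • mtL (fun a b => if a = i ∧ b = j then (1 : ℝ) else 0) := by
    funext x
    exact mtL_eq_sum _
  rw [e]
  exact continuousOn_finsetSum _ fun i _ => continuousOn_finsetSum _ fun j _ => (h i j).smul continuousOn_const

/-- continuity of the determinant of a matrix of functions -/
theorem continuousOn_det' {X : Type*} [TopologicalSpace X] {A : X → Matrix (Fin r) (Fin r) ℝ} {s : Set X}
    (h : ∀ i j, ContinuousOn (fun x => A x i j) s) : ContinuousOn (fun x => (A x).det) s := by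
  simp only [Matrix.det_apply']
  exact continuousOn_finsetSum _ fun σ _ => continuousOn_const.mul (continuousOn_finsetProd _ fun i _ => h _ _)

/-- orientability over the sphere -/
theorem exists_or_sphere (hn : 3 ≤ n) (hr : r ≠ 0) {V : EuclideanSpace ℝ (Fin n) → Submodule ℝ (EuclideanSpace ℝ (Fin n))}
    (hV : ∀ v, ‖v‖ = 1 → finrank ℝ (V v) = r) (hc : ContinuousOn (fun v => (V v).starProjection) (sphere 0 1)) :
    ∃ o : EuclideanSpace ℝ (Fin n) → EuclideanSpace ℝ (Fin r → Fin n), ContinuousOn o (sphere 0 1) ∧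
      ∀ v, ‖v‖ = 1 → IsOrV (V v) (o v) := by
  obtain ⟨c, hc0⟩ : ∃ c : ℝ, c = √(r.factorial : ℝ) := ⟨_, rfl⟩
  have hf : (0 : ℝ) < (r.factorial : ℝ) := by exact_mod_cast r.factorial_pos
  have hcpos : 0 < c := by rw [hc0]; exact Real.sqrt_pos.2 hf
  have hcsq : c ^ 2 = (r.factorial : ℝ) := by rw [hc0]; exact Real.sq_sqrt hf.le
  -- unit vectors
  have hunit : ∀ v, ‖v‖ = 1 → ∃ a : Fin r → EuclideanSpace ℝ (Fin n), IsFr (V v) a ∧ ‖c⁻¹ • dtE a‖ = 1 := by
    intro v hv
    obtain ⟨a, ha⟩ := IsFr.exists (hV v hv)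
    refine ⟨a, ha, ?_⟩
    have h1 := ha.norm_sq
    rw [← hcsq] at h1
    have h2 : ‖dtE a‖ = c := by
      have := norm_nonneg (dtE a)
      nlinarith
    rw [norm_smul, norm_inv, Real.norm_eq_abs, abs_of_pos hcpos, h2, inv_mul_cancel₀ hcpos.ne']
  have hP : LineQ fun v => mtL (lnM (r := r) (V v).starProjection) := by
    intro v hv
    obtain ⟨a, ha, hu⟩ := hunit v hv
    refine ⟨c⁻¹ • dtE a, hu, fun x => ?_⟩
    ext I
    rw [mtL_apply, PiLp.smul_apply, PiLp.smul_apply, smul_eq_mul, smul_eq_mul, real_inner_smul_left, PiLp.inner_apply]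
    have h1 : ∀ J, lnM (V v).starProjection I J * x J = (c⁻¹ * c⁻¹ * dtE a I) * (inner ℝ ((dtE a) J) (x J)) := by
      intro J
      have h2 := ha.rank_one I J
      unfold lnM
      rw [← h2, ← hcsq]
      have h3 : inner ℝ ((dtE a) J) (x J) = x J * dtE a J := rfl
      rw [h3]
      field_simp
    rw [Finset.sum_congr rfl fun J _ => h1 J, ← Finset.mul_sum]
    ring
  have hcont : ContinuousOn (fun v => mtL (lnM (r := r) (V v).starProjection)) (sphere 0 1) := by
    refine continuousOn_mtL fun I J => ?_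
    unfold lnM
    refine ContinuousOn.div_const (continuousOn_det' fun k l => ?_) _
    have h1 : ContinuousOn (fun v => (V v).starProjection (EuclideanSpace.single (J l) (1 : ℝ))) (sphere 0 1) :=
      hc.clm_apply continuousOn_const
    exact (EuclideanSpace.proj (𝕜 := ℝ) (I k)).continuous.comp_continuousOn h1
  obtain ⟨e, he1, he2⟩ := exists_section_line (E := EuclideanSpace ℝ (Fin n)) (by
    rw [finrank_euclideanSpace, Fintype.card_fin]; exact hn) hP hcont
  refine ⟨fun v => c • e v, ContinuousOn.const_smul he1 c, fun v hv => ?_⟩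
  obtain ⟨a, ha, hu⟩ := hunit v hv
  obtain ⟨h1, h2⟩ := he2 v hv
  -- `e v` is a multiple of the determinant tensor
  have h3 : ∀ x, mtL (lnM (r := r) (V v).starProjection) x = ⟪c⁻¹ • dtE a, x⟫ • (c⁻¹ • dtE a) := by
    intro x
    ext I
    rw [mtL_apply, PiLp.smul_apply, PiLp.smul_apply, smul_eq_mul, smul_eq_mul, real_inner_smul_left, PiLp.inner_apply]
    have h1 : ∀ J, lnM (V v).starProjection I J * x J = (c⁻¹ * c⁻¹ * dtE a I) * (inner ℝ ((dtE a) J) (x J)) := by
      intro J
      have h2 := ha.rank_one I J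
      unfold lnM
      rw [← h2, ← hcsq]
      have h3 : inner ℝ ((dtE a) J) (x J) = x J * dtE a J := rfl
      rw [h3]
      field_simp
    rw [Finset.sum_congr rfl fun J _ => h1 J, ← Finset.mul_sum]
    ring
  rw [h3] at h2
  obtain ⟨s, hs⟩ : ∃ s, s = ⟪c⁻¹ • dtE a, e v⟫ := ⟨_, rfl⟩
  rw [← hs] at h2
  have hs1 : |s| = 1 := by
    have := congrArg norm h2
    rw [norm_smul, hu, h1, mul_one, Real.norm_eq_abs] at this
    exact this
  have he : c • e v = s • dtE a := by
    rw [← h2, smul_smul, smul_smul, mul_comm c, mul_assoc, mul_inv_cancel₀ hcpos.ne', mul_one]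
  rcases (abs_eq zero_le_one).1 hs1 with h | h
  · show IsOrV (V v) (c • e v)
    rw [he, h, one_smul]
    exact ha.isOr
  · show IsOrV (V v) (c • e v)
    rw [he, h, neg_one_smul]
    exact ha.isOr.neg hr

end Pool.Agent.Lib.MP_ccbbf6_gt.L5
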