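import Pool.Agent.Lib.MP_ccbbf6_gt.L4.EvA
import Pool.Agent.Lib.MP_ccbbf6_gt.L5.UOR04

/-!
# Level 5, UOR05: the orientation of the planes `PV p v` (helper2)
-/

set_option autoImplicit false
set_option linter.unusedSectionVars false
set_option linter.unusedVariables false

open Set Filter Topology Metric Real Module
open scoped ContDiff RealInnerProductSpace

noncomputable section

namespace Pool.Agent.Lib.MP_ccbbf6_gt.L5

section abs

variable {n r : ℕ} {F : Type*} [NormedAddCommGroup F] [NormedSpace ℝ F]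

theorem contDiffAt_dtE {b : Fin r → F → EuclideanSpace ℝ (Fin n)} {x₀ : F} (hb : ∀ j, ContDiffAt ℝ ∞ (b j) x₀) :
    ContDiffAt ℝ ∞ (fun x => dtE fun j => b j x) x₀ := by
  rw [contDiffAt_euclidean]
  intro I
  have e : (fun x => dtE (fun j => b j x) I) = fun x =>
      ∑ σ : Equiv.Perm (Fin r), (Equiv.Perm.sign σ : ℝ) * ∏ i, b (σ i) x (I i) := by
    funext x
    rw [dtE_apply, dtn, Matrix.det_apply']
    rfl
  rw [e]
  refine ContDiffAt.sum fun σ _ => contDiffAt_const.mul (contDiffAt_prod fun i _ => ?_)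
  exact (contDiffAt_euclidean.1 (hb (σ i))) (I i)

/-- continuous orientations of smooth families are smooth -/
theorem smooth_or {V : F → Submodule ℝ (EuclideanSpace ℝ (Fin n))} {o : F → EuclideanSpace ℝ (Fin r → Fin n)} {x₀ : F}
    (ho : ∀ᶠ x in 𝓝 x₀, IsOrV (V x) (o x)) (hc : ContinuousAt o x₀)
    (hP : ContDiffAt ℝ ∞ (fun x => (V x).starProjection) x₀) : ContDiffAt ℝ ∞ o x₀ := by
  obtain ⟨a, ha, hoa⟩ := ho.self_of_nhds
  have hf : (0 : ℝ) < (r.factorial : ℝ) := by exact_mod_cast r.factorial_pos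
  have hb : ContDiffAt ℝ ∞ (fun x => dtE fun j => (V x).starProjection (a j)) x₀ :=
    contDiffAt_dtE fun j => hP.clm_apply contDiffAt_const
  obtain ⟨B, hB⟩ : ∃ B : F → EuclideanSpace ℝ (Fin r → Fin n), B = fun x => dtE fun j => (V x).starProjection (a j) :=
    ⟨_, rfl⟩
  rw [← hB] at hb
  have hB0 : B x₀ = o x₀ := by
    rw [hB, hoa]
    show dtE (fun j => (V x₀).starProjection (a j)) = dtE a
    congr 1
    funext j
    exact Submodule.starProjection_eq_self_iff.2 (ha.mem j)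
  have hcc : ContinuousAt (fun x => ⟪B x, o x⟫) x₀ := hb.continuousAt.inner hc
  have hpos0 : 0 < ⟪B x₀, o x₀⟫ := by
    rw [hB0, real_inner_self_eq_norm_sq, ho.self_of_nhds.norm_sq]
    exact hf
  have hpos : ∀ᶠ x in 𝓝 x₀, 0 < ⟪B x, o x⟫ := hcc.eventually (lt_mem_nhds hpos0)
  have hne : B x₀ ≠ 0 := by rw [hB0]; exact ho.self_of_nhds.ne_zero
  have h1 : ContDiffAt ℝ ∞ (fun x => (√(r.factorial : ℝ) * ‖B x‖⁻¹) • B x) x₀ :=
    (contDiffAt_const.mul ((hb.norm ℝ hne).inv (norm_ne_zero_iff.2 hne))).smul hb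
  refine h1.congr_of_eventuallyEq ?_
  filter_upwards [ho, hpos] with x hx hxp
  obtain ⟨a', ha', hoa'⟩ := hx
  have h2 : B x = (grm (fun j => (V x).starProjection (a j)) a').det • o x := by
    rw [hoa', hB]
    exact ha'.dtE_of_mem fun j => (V x).starProjection_apply_mem _
  obtain ⟨c, hc0⟩ : ∃ c, c = (grm (fun j => (V x).starProjection (a j)) a').det := ⟨_, rfl⟩
  rw [← hc0] at h2
  have hn : ‖o x‖ ^ 2 = (r.factorial : ℝ) := by rw [hoa']; exact ha'.norm_sq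
  have hn' : ‖o x‖ = √(r.factorial : ℝ) := by rw [← hn, Real.sqrt_sq (norm_nonneg _)]
  have hcpos : 0 < c := by
    rw [h2, real_inner_smul_left, real_inner_self_eq_norm_sq, hn] at hxp
    exact pos_of_mul_pos_left hxp hf.le
  have hs : 0 < √(r.factorial : ℝ) := Real.sqrt_pos.2 hf
  show o x = (√(r.factorial : ℝ) * ‖B x‖⁻¹) • B x
  rw [h2, norm_smul, Real.norm_eq_abs, abs_of_pos hcpos, hn', smul_smul]
  have : √(r.factorial : ℝ) * (c * √(r.factorial : ℝ))⁻¹ * c = 1 := by field_simp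
  rw [this, one_smul]

end abs

open Geo L4 L4.ORI

variable {n : ℕ} {M : Type*} [MetricSpace M] [CompactSpace M] (𝒜 : SDist n M)

/-- orientation data for the planes at `p` -/
structure OrP (κ : ℕ) (p : M) (o : Eu n → EuclideanSpace ℝ (Fin (κ + 1) → Fin n)) : Prop where
  isOr : ∀ v : Eu n, v ≠ 0 → IsOrV (𝒜.PV p v) (o v)
  smooth : ∀ v : Eu n, v ≠ 0 → ContDiffAt ℝ ∞ o v
  same : ∀ v w : Eu n, v ≠ 0 → w ≠ 0 → 𝒜.Ex p (rad π w) = 𝒜.Ex p (rad π v) → o w = o v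

theorem isPreconnected_sphere_sub {n : ℕ} (V : Submodule ℝ (Eu n)) (h2 : 2 ≤ finrank ℝ V) :
    IsPreconnected {w : Eu n | w ∈ V ∧ ‖w‖ = 1} := by
  have h1 : 1 < Module.rank ℝ V := by
    rw [← finrank_eq_rank]
    exact_mod_cast h2
  have h4 := isPreconnected_sphere h1 (0 : V) 1
  have h5 := h4.image (fun x : V => (x : Eu n)) continuous_subtype_val.continuousOn
  have e : (fun x : V => (x : Eu n)) '' sphere 0 1 = {w : Eu n | w ∈ V ∧ ‖w‖ = 1} := by
    ext u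
    simp only [mem_image, mem_sphere_zero_iff_norm, mem_ofPred_eq]
    constructor
    · rintro ⟨x, hx, rfl⟩
      exact ⟨x.2, hx⟩
    · rintro ⟨h6, h7⟩
      exact ⟨⟨u, h6⟩, h7, rfl⟩
  rwa [e] at h5

/-- **the planes at `p` are orientable** -/
theorem exists_orP (hn : 3 ≤ n) (hB : Bl M) {κ : ℕ} (hκ : 1 ≤ κ) (hk : 𝒜.HK κ) (p : M) :
    ∃ o : Eu n → EuclideanSpace ℝ (Fin (κ + 1) → Fin n), OrP 𝒜 κ p o := by
  have hP : ∀ v : Eu n, v ≠ 0 → ContDiffAt ℝ ∞ (fun v => (𝒜.PV p v).starProjection) v := fun v hv =>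
    contDiffAt_PV 𝒜 hB hk p hv
  have hne : ∀ v : Eu n, ‖v‖ = 1 → v ≠ 0 := by
    intro v hv h
    rw [h, norm_zero] at hv
    exact zero_ne_one hv
  obtain ⟨o, ho1, ho2⟩ := exists_or_sphere (r := κ + 1) hn (Nat.succ_ne_zero _) (V := fun v => 𝒜.PV p v)
    (fun v hv => finrank_PV 𝒜 hB hk p (hne v hv))
    (fun v hv => (hP v (hne v (by rwa [mem_sphere_zero_iff_norm] at hv))).continuousAt.continuousWithinAt)
  have hnr : ∀ v : Eu n, v ≠ 0 → 𝒜.PV p (nrm v) = 𝒜.PV p v := fun v hv =>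
    PV_smul 𝒜 hB p (inv_ne_zero (norm_ne_zero_iff.2 hv)) v
  have hor : ∀ v : Eu n, v ≠ 0 → IsOrV (𝒜.PV p v) (o (nrm v)) := fun v hv => by
    rw [← hnr v hv]
    exact ho2 _ (norm_nrm hv)
  have hcn : ∀ v : Eu n, v ≠ 0 → ContinuousAt (fun v => o (nrm v)) v := by
    intro v hv
    have h1 : ContinuousWithinAt o (sphere 0 1) (nrm v) := ho1 _ (by rw [mem_sphere_zero_iff_norm]; exact norm_nrm hv)
    have h2 : ContinuousAt (fun v : Eu n => nrm v) v := by
      unfold nrm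
      exact ((continuous_norm.continuousAt).inv₀ (norm_ne_zero_iff.2 hv)).smul continuousAt_id
    refine h1.tendsto.comp (tendsto_nhdsWithin_iff.2 ⟨h2, ?_⟩)
    filter_upwards [isOpen_ne.mem_nhds hv] with w hw
    rw [mem_sphere_zero_iff_norm]
    exact norm_nrm hw
  refine ⟨fun v => o (nrm v), hor, fun v hv => ?_, ?_⟩
  · refine smooth_or (V := fun v => 𝒜.PV p v) ?_ (hcn v hv) (hP v hv)
    filter_upwards [isOpen_ne.mem_nhds hv] with w hw using hor w hw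
  · intro v w hv hw hvw
    have hwV : w ∈ 𝒜.PV p v := (mem_PV_iff 𝒜 hB p hv hw).2 hvw
    have hpc := isPreconnected_sphere_sub (𝒜.PV p v) (by rw [finrank_PV 𝒜 hB hk p hv]; omega)
    have hsame : ∀ x ∈ {w : Eu n | w ∈ 𝒜.PV p v ∧ ‖w‖ = 1}, 𝒜.PV p x = 𝒜.PV p v := fun x hx =>
      PV_eq_of_mem 𝒜 hB p hx.1 (hne x hx.2)
    obtain ⟨f, hf0⟩ : ∃ f : ℝ, f = ((κ + 1).factorial : ℝ) := ⟨_, rfl⟩
    have hf : 0 < f := by rw [hf0]; exact_mod_cast (κ + 1).factorial_pos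
    have hval : ∀ x ∈ {w : Eu n | w ∈ 𝒜.PV p v ∧ ‖w‖ = 1}, ⟪o x, o (nrm v)⟫ = f ∨ ⟪o x, o (nrm v)⟫ = -f := by
      intro x hx
      have h1 : IsOrV (𝒜.PV p v) (o x) := by
        rw [← hsame x hx]
        exact ho2 x hx.2
      rcases (hor v hv).pm h1 with h | h
      · left
        rw [h, real_inner_self_eq_norm_sq, (hor v hv).norm_sq, hf0]
      · right
        rw [h, inner_neg_left, real_inner_self_eq_norm_sq, (hor v hv).norm_sq, hf0]
    have hcont : ContinuousOn (fun x => ⟪o x, o (nrm v)⟫) {w : Eu n | w ∈ 𝒜.PV p v ∧ ‖w‖ = 1} := by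
      refine ContinuousOn.inner (ho1.mono fun x hx => ?_) continuousOn_const
      rw [mem_sphere_zero_iff_norm]
      exact hx.2
    have hmv : nrm v ∈ {w : Eu n | w ∈ 𝒜.PV p v ∧ ‖w‖ = 1} :=
      ⟨Submodule.smul_mem _ _ (mem_PV_self 𝒜 hB p v), norm_nrm hv⟩
    have hmw : nrm w ∈ {w : Eu n | w ∈ 𝒜.PV p v ∧ ‖w‖ = 1} := ⟨Submodule.smul_mem _ _ hwV, norm_nrm hw⟩
    have h1 := (hpc.image _ hcont).ordConnected
    have hv1 : ⟪o (nrm v), o (nrm v)⟫ = f := by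
      rw [real_inner_self_eq_norm_sq, (hor v hv).norm_sq, hf0]
    have hw1 : ⟪o (nrm w), o (nrm v)⟫ = f := by
      rcases hval _ hmw with h | h
      · exact h
      · exfalso
        have ha : f ∈ (fun x => ⟪o x, o (nrm v)⟫) '' {w : Eu n | w ∈ 𝒜.PV p v ∧ ‖w‖ = 1} := ⟨nrm v, hmv, hv1⟩
        have hb : -f ∈ (fun x => ⟪o x, o (nrm v)⟫) '' {w : Eu n | w ∈ 𝒜.PV p v ∧ ‖w‖ = 1} := ⟨nrm w, hmw, h⟩
        obtain ⟨x, hx, hx0⟩ := h1.out hb ha ⟨(neg_neg_of_pos hf).le, hf.le⟩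
        have hx0' : ⟪o x, o (nrm v)⟫ = 0 := hx0
        rcases hval x hx with h2 | h2 <;> rw [hx0'] at h2
        · exact hf.ne h2
        · linarith
    have h2 : IsOrV (𝒜.PV p v) (o (nrm w)) := by
      rw [← hsame _ hmw]
      exact ho2 _ (norm_nrm hw)
    rcases (hor v hv).pm h2 with h | h
    · exact h
    · exfalso
      rw [h, inner_neg_left, hv1] at hw1
      linarith

end Pool.Agent.Lib.MP_ccbbf6_gt.L5
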