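import Pool.Agent.Lib.MP_ccbbf6_gt.L4.Sp
import Pool.Agent.Lib.MP_ccbbf6_gt.L5.Ext0
import Pool.Agent.Lib.MP_ccbbf6_gt.L5.MF
import Pool.Agent.Lib.MP_ccbbf6_gt.L5.UOR01
import Pool.Agent.Lib.MP_ccbbf6_gt.L5.UOR05

/-!
# Level 5, UOR06: the planes `V_x`, `x ≠ p`, as a matrix of smooth functions with an orientation tensor (helper2)
-/

set_option autoImplicit false
set_option linter.unusedSectionVars false
set_option linter.unusedVariables false

open Set Filter Topology Metric Real Module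
open scoped ContDiff RealInnerProductSpace

noncomputable section

namespace Pool.Agent.Lib.MP_ccbbf6_gt.L5

open Geo L4 L4.FR

variable {n : ℕ} {M : Type} [MetricSpace M] [CompactSpace M] (𝒜 : SDist n M)

/-- the space `M - p` -/
abbrev spP (p : M) : Space := sub (spM 𝒜) {x | x ≠ p}

theorem openU_ne (p : M) : OpenU (spM 𝒜) {x | x ≠ p} := by
  intro k P
  exact (isOpen_ne (x := p)).preimage (Sm.continuous P.2)

variable {𝒜}

/-- smooth functions on `M - p` from functions of the direction -/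
theorem smO_dirF (hB : Bl M) {κ : ℕ} (hk : 𝒜.HK κ) {p : M} {H : Type*} [NormedAddCommGroup H] [NormedSpace ℝ H]
    {G : Eu n → H} (hG : ∀ w : Eu n, w ≠ 0 → ContDiffAt ℝ ∞ G w)
    (hG2 : ∀ v w : Eu n, v ≠ 0 → w ≠ 0 → 𝒜.Ex p (rad π w) = 𝒜.Ex p (rad π v) → G w = G v) {k : ℕ}
    (P : (spP 𝒜 p).Plot k) : ContDiff ℝ ∞ fun z => dirF 𝒜 p G (P.1 z).1 :=
  contDiff_iff_contDiffAt.2 fun z =>
    (dirF_spec p hG2).smooth hB hk hG (g := fun z => (P.1 z).1) (P.2 z) (P.1 z).2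

/-- the entries of a linear map -/
def ent (L : Eu n →L[ℝ] Eu n) : Matrix (Fin n) (Fin n) ℝ := Matrix.of fun i j => L (EuclideanSpace.single j 1) i

theorem ent_mul (L L' : Eu n →L[ℝ] Eu n) : ent (L * L') = ent L * ent L' := by
  ext i j
  rw [Matrix.mul_apply]
  have h1 : L' (EuclideanSpace.single j 1) = ∑ k, (L' (EuclideanSpace.single j 1) k) • EuclideanSpace.single k (1 : ℝ) := by
    ext i'
    rw [WithLp.ofLp_sum, Finset.sum_apply, Finset.sum_eq_single i']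
    · simp
    · intro b _ hb
      simp [Ne.symm hb]
    · intro h
      exact absurd (Finset.mem_univ _) h
  show (L (L' (EuclideanSpace.single j 1))) i = _
  rw [h1, map_sum, WithLp.ofLp_sum, Finset.sum_apply]
  refine Finset.sum_congr rfl fun k _ => ?_
  rw [map_smul, PiLp.smul_apply, smul_eq_mul, mul_comm]
  rfl

theorem contDiffAt_ent {F : Type*} [NormedAddCommGroup F] [NormedSpace ℝ F] {L : F → Eu n →L[ℝ] Eu n} {x : F}
    (h : ContDiffAt ℝ ∞ L x) (i j : Fin n) : ContDiffAt ℝ ∞ (fun y => ent (L y) i j) x := by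
  have h1 : ContDiffAt ℝ ∞ (fun y => L y (EuclideanSpace.single j 1)) x := h.clm_apply contDiffAt_const
  exact (contDiffAt_euclidean.1 h1) i

variable (𝒜)

/-- the projection on the plane behind `x` -/
def prX (p : M) (x : M) : Eu n →L[ℝ] Eu n := dirF 𝒜 p (fun v => (𝒜.PV p v).starProjection) x

variable {𝒜}

theorem prX_same (hB : Bl M) (p : M) (v w : Eu n) (hv : v ≠ 0) (hw : w ≠ 0)
    (h : 𝒜.Ex p (rad π w) = 𝒜.Ex p (rad π v)) : (𝒜.PV p w).starProjection = (𝒜.PV p v).starProjection := by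
  rw [PV_eq_of_mem 𝒜 hB p ((mem_PV_iff 𝒜 hB p hv hw).2 h) hw]

theorem prX_eq (hB : Bl M) {p x : M} (hx : x ≠ p) {w : Eu n} (hw : w ≠ 0) (h : 𝒜.Ex p (rad π w) = cutp p x) :
    prX 𝒜 p x = (𝒜.PV p w).starProjection :=
  dirF_spec p (G := fun v => (𝒜.PV p v).starProjection) (prX_same hB p) x hx w hw h

/-- the matrix of the planes over `M - p` -/
def PX (hB : Bl M) {κ : ℕ} (hk : 𝒜.HK κ) (p : M) : Matrix (Fin n) (Fin n) (SF (spP 𝒜 p)) :=
  mkM (fun x => ent (prX 𝒜 p x.1)) fun i j k P => contDiff_iff_contDiffAt.2 fun z =>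
    contDiffAt_ent ((smO_dirF hB hk (fun w hw => contDiffAt_PV 𝒜 hB hk p hw) (prX_same hB p) P).contDiffAt) i j

theorem PX_idem (hB : Bl M) {κ : ℕ} (hk : 𝒜.HK κ) (p : M) : PX hB hk p * PX hB hk p = PX hB hk p := by
  refine SF_mat_ext fun x => ?_
  have h1 : (PX hB hk p * PX hB hk p).map (vl x) = (PX hB hk p).map (vl x) * (PX hB hk p).map (vl x) := Matrix.map_mul
  have h2 : (PX hB hk p).map (vl x) = ent (prX 𝒜 p x.1) := rfl
  obtain ⟨w, hw, hwx⟩ := exists_w hB (𝒜 := 𝒜) x.2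
  rw [h1, h2, ← ent_mul, prX_eq hB x.2 hw hwx, (𝒜.PV p w).isIdempotentElem_starProjection.eq]

/-- the orientation tensor over `M - p` -/
def oX (hB : Bl M) {κ : ℕ} (hk : 𝒜.HK κ) {p : M} {o : Eu n → EuclideanSpace ℝ (Fin (κ + 1) → Fin n)}
    (ho : OrP 𝒜 κ p o) (I : Fin (κ + 1) → Fin n) : SF (spP 𝒜 p) :=
  ⟨fun x => dirF 𝒜 p o x.1 I, fun k P => contDiff_iff_contDiffAt.2 fun z =>
    (contDiffAt_euclidean.1 ((smO_dirF hB hk ho.smooth ho.same P).contDiffAt)) I⟩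

theorem oX_eq (hB : Bl M) {κ : ℕ} (hk : 𝒜.HK κ) {p : M} {o : Eu n → EuclideanSpace ℝ (Fin (κ + 1) → Fin n)}
    (ho : OrP 𝒜 κ p o) (x : (spP 𝒜 p).pt) {w : Eu n} (hw : w ≠ 0) (h : 𝒜.Ex p (rad π w) = cutp p x.1)
    (I : Fin (κ + 1) → Fin n) : vl x (oX hB hk ho I) = o w I := by
  show dirF 𝒜 p o x.1 I = o w I
  rw [dirF_spec p ho.same x.1 x.2 w hw h]

/-- the matrix of the planes over the directions -/
def PR (hB : Bl M) {κ : ℕ} (hk : 𝒜.HK κ) (p : M) : Matrix (Fin n) (Fin n) (SF (spR n)) :=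
  mkM (fun x => ent ((𝒜.PV p x.1).starProjection)) fun i j k P => contDiff_iff_contDiffAt.2 fun z =>
    contDiffAt_ent (ContDiffAt.comp (g := fun v => (𝒜.PV p v).starProjection) z (contDiffAt_PV 𝒜 hB hk p (P.1 z).2)
      (show ContDiff ℝ ∞ fun u => (P.1 u).1 from P.2).contDiffAt) i j

theorem PR_idem (hB : Bl M) {κ : ℕ} (hk : 𝒜.HK κ) (p : M) : PR hB hk p * PR hB hk p = PR hB hk p := by
  refine SF_mat_ext fun x => ?_
  have h1 : (PR hB hk p * PR hB hk p).map (vl x) = (PR hB hk p).map (vl x) * (PR hB hk p).map (vl x) := Matrix.map_mul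
  have h2 : (PR hB hk p).map (vl x) = ent ((𝒜.PV p x.1).starProjection) := rfl
  rw [h1, h2, ← ent_mul, (𝒜.PV p x.1).isIdempotentElem_starProjection.eq]

/-- the orientation tensor over the directions -/
def oRn {κ : ℕ} {p : M} {o : Eu n → EuclideanSpace ℝ (Fin (κ + 1) → Fin n)}
    (ho : OrP 𝒜 κ p o) (I : Fin (κ + 1) → Fin n) : SF (spR n) :=
  ⟨fun x => o x.1 I, fun k P => contDiff_iff_contDiffAt.2 fun z =>
    (contDiffAt_euclidean.1 (ContDiffAt.comp (g := o) z (ho.smooth _ (P.1 z).2)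
      (show ContDiff ℝ ∞ fun u => (P.1 u).1 from P.2).contDiffAt)) I⟩

/-- the unit section over the directions -/
def aR (n : ℕ) (i : Fin n) : SF (spR n) :=
  ⟨fun x => (‖x.1‖⁻¹ • x.1) i, fun k P => by
    have h1 : ContDiff ℝ ∞ fun u => ‖(P.1 u).1‖⁻¹ • (P.1 u).1 :=
      ((show ContDiff ℝ ∞ fun u => (P.1 u).1 from P.2).norm ℝ fun u => (P.1 u).2).inv
        (fun u => norm_ne_zero_iff.2 (P.1 u).2) |>.smul P.2
    exact (contDiff_euclidean.1 h1) i⟩

end Pool.Agent.Lib.MP_ccbbf6_gt.L5
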