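import Pool.Agent.Lib.MP_ccbbf6_gt.L4.PO4
import Pool.Agent.Lib.MP_ccbbf6_gt.L5.DG2
import Pool.Agent.Lib.MP_ccbbf6_gt.L5.UOR06

namespace Pool.Agent.Lib.MP_ccbbf6_gt.L5.G4
end Pool.Agent.Lib.MP_ccbbf6_gt.L5.G4

/-!
# Level 5, block PER, part 7: the cut map of a point, cut-off functions, local forms on faces
-/

set_option autoImplicit false
set_option linter.unusedSectionVars false
set_option linter.unusedVariables false

open Set Filter Topology Metric Real Module MeasureTheory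
open scoped ContDiff RealInnerProductSpace

noncomputable section

namespace Pool.Agent.Lib.MP_ccbbf6_gt.L5.PE

open Geo L4 L4.FR L4.ORI G4

variable {n κ r : ℕ} {M : Type} [MetricSpace M] [CompactSpace M] {𝒜 : SDist n M}

section cutmap

variable (hB : Bl M) (hk : 𝒜.HK κ) (p : M)

include hB hk in
/-- smoothness of the planes along plots of `M - p` -/
theorem contDiff_prX {k : ℕ} (P : (spP 𝒜 p).Plot k) : ContDiff ℝ ∞ fun z => prX 𝒜 p (P.1 z).1 :=
  smO_dirF hB hk (fun w hw => contDiffAt_PV 𝒜 hB hk p hw) (prX_same hB p) P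

include hB in
theorem prX_idem {x : M} (hx : x ≠ p) : (prX 𝒜 p x).comp (prX 𝒜 p x) = prX 𝒜 p x := by
  obtain ⟨w, hw, h⟩ := exists_w (𝒜 := 𝒜) hB hx
  rw [prX_eq hB hx hw h]
  exact (𝒜.PV p w).isIdempotentElem_starProjection.eq

include hB in
/-- every vector of the plane of `x` points to the cut point behind `x` -/
theorem Ex_prX {x : M} (hx : x ≠ p) {v : Eu n} (hv : v ≠ 0) (h : prX 𝒜 p x v = v) : 𝒜.Ex p (rad π v) = cutp p x := by
  obtain ⟨w, hw, h1⟩ := exists_w (𝒜 := 𝒜) hB hx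
  rw [prX_eq hB hx hw h1] at h
  rw [← h1]
  exact (mem_PV_iff 𝒜 hB p hw hv).1 (Submodule.starProjection_eq_self_iff.1 h)

include hB in
/-- the plane of `x` is the plane of each of its vectors -/
theorem PV_prX {x : M} (hx : x ≠ p) {v : Eu n} (hv : v ≠ 0) (h : prX 𝒜 p x v = v) :
    (𝒜.PV p v).starProjection = prX 𝒜 p x := (prX_eq hB hx hv (Ex_prX hB p hx hv h)).symm

/-- the cut map -/
def cM : SMap (spP 𝒜 p) (spM 𝒜) := ⟨fun x => cutp (M := M) p x.1, fun k P z => by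
  obtain ⟨w, hw, h1⟩ := exists_w (𝒜 := 𝒜) hB (P.1 z).2
  have h2 : prX 𝒜 p (P.1 z).1 w = w := by
    rw [prX_eq hB (P.1 z).2 hw h1]
    exact Submodule.starProjection_eq_self_iff.2 (mem_PV_self 𝒜 hB p w)
  have h3 : ContDiff ℝ ∞ fun z => prX 𝒜 p (P.1 z).1 w := (contDiff_prX hB hk p P).clm_apply contDiff_const
  have h4 : prX 𝒜 p (P.1 z).1 w ≠ 0 := by rw [h2]; exact hw
  have h5 : SmAt 𝒜 (fun z => 𝒜.Ex p (rad π (prX 𝒜 p (P.1 z).1 w))) z :=
    smAt_Ex hB p (ContDiffAt.comp (g := rad π) z (contDiffAt_rad π h4) h3.contDiffAt)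
  refine h5.congr ?_
  filter_upwards [h3.continuous.continuousAt.eventually_ne h4] with y hy
  refine (Ex_prX hB p (P.1 y).2 hy ?_).symm
  exact DFunLike.congr_fun (prX_idem hB p (P.1 y).2) w⟩

theorem cM_apply (x : (spP 𝒜 p).pt) : (cM hB hk p).1 x = cutp (M := M) p x.1 := rfl

/-- the homotopy from the inclusion to the cut map -/
def cH : SMap (spP 𝒜 p).xR (spM 𝒜) := ⟨fun z => rat (M := M) 𝒜 z.1.1 (cutp (M := M) p z.1.1) z.2, fun k P z => by
  have h1 : SmAt 𝒜 (fun z => (P.1 z).1.1) z := P.2.1 z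
  have h2 : SmAt 𝒜 (fun z => cutp (M := M) p (P.1 z).1.1) z := (cM hB hk p).2 k ⟨fun z => (P.1 z).1, P.2.1⟩ z
  refine smAt_rat hB h1 h2 (show ContDiff ℝ ∞ fun z => (P.1 z).2 from P.2.2).contDiffAt ?_
  have h3 := (dist_cutp hB (P.1 z).1.2 𝒜).2
  rw [dist_comm] at h3
  have h4 : 0 < dist p (P.1 z).1.1 := dist_pos.2 (Ne.symm (P.1 z).1.2)
  rw [h3]
  linarith⟩

/-- the homotopy formula for the cut map -/
theorem cut_homotopy {u : Om (spM 𝒜)} (hu : dO _ u = 0) :
    (cM hB hk p).pull u = (inU (spM 𝒜) {x | x ≠ p}).pull u + dO _ (KO _ ((cH hB hk p).pull u)) := by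
  have h1 := d_K ((cH hB hk p).pull u)
  rw [pull_d, hu, map_zero, map_zero, add_zero] at h1
  have h2 : (jO (spP 𝒜 p) 1).pull ((cH hB hk p).pull u) = (cM hB hk p).pull u := by
    have e : (cH hB hk p).comp (jO (spP 𝒜 p) 1) = cM hB hk p := SMap_ext fun x => by
      change rat (M := M) 𝒜 x.1 (cutp (M := M) p x.1) 1 = cutp (M := M) p x.1
      exact rat_one hB _ _
    rw [← pull_comp, e]
  have h3 : (jO (spP 𝒜 p) 0).pull ((cH hB hk p).pull u) = (inU (spM 𝒜) {x | x ≠ p}).pull u := by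
    have e : (cH hB hk p).comp (jO (spP 𝒜 p) 0) = inU (spM 𝒜) {x | x ≠ p} := SMap_ext fun x => by
      change rat (M := M) 𝒜 x.1 (cutp (M := M) p x.1) 0 = x.1
      exact rat_zero hB _ _
    rw [← pull_comp, e]
  rw [h1, h2, h3]
  abel

end cutmap

/-! ### Cut-off functions on `M` -/

/-- equal to `1` near `q` and to `0` at distance `≥ ρ` -/
def bump (q : M) (ρ : ℝ) (x : M) : ℝ := 1 - chi (2 / ρ * dist q x)

theorem bump_one {q : M} {ρ : ℝ} (hρ : 0 < ρ) {x : M} (h : dist q x ≤ ρ / 2) : bump q ρ x = 1 := by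
  unfold bump
  rw [chi_zero, sub_zero]
  rw [div_mul_eq_mul_div, div_le_one hρ]
  linarith

theorem bump_zero {q : M} {ρ : ℝ} (hρ : 0 < ρ) {x : M} (h : ρ ≤ dist q x) : bump q ρ x = 0 := by
  unfold bump
  rw [chi_one, sub_self]
  rw [div_mul_eq_mul_div, le_div_iff₀ hρ]
  linarith

theorem contDiff_bump (hB : Bl M) (q : M) {ρ : ℝ} (hρ : 0 < ρ) (hρπ : ρ < π) {k : ℕ} (P : (spM 𝒜).Plot k) :
    ContDiff ℝ ∞ fun z => bump q ρ (P.1 z) := by
  rw [contDiff_iff_contDiffAt]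
  intro z
  have hc : ContinuousAt (fun z => dist q (P.1 z)) z := continuousAt_const.dist (P.2 z).1
  by_cases h1 : dist q (P.1 z) < ρ / 2
  · refine (contDiffAt_const (c := (1 : ℝ))).congr_of_eventuallyEq ?_
    filter_upwards [hc.eventually (gt_mem_nhds h1)] with y hy
    exact bump_one hρ hy.le
  · by_cases h2 : ρ < dist q (P.1 z)
    · refine (contDiffAt_const (c := (0 : ℝ))).congr_of_eventuallyEq ?_
      filter_upwards [hc.eventually (lt_mem_nhds h2)] with y hy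
      exact bump_zero hρ hy.le
    · have h3 : ContDiffAt ℝ ∞ (fun z => dist q (P.1 z)) z := by
        have hq : SmAt 𝒜 (fun _ : V k => q) z := sm_const (𝒜 := 𝒜) q z
        refine SmAt.dist hB hq (P.2 z) ?_ ?_
        · linarith [not_lt.1 h1]
        · linarith [not_lt.1 h2]
      unfold bump
      exact contDiffAt_const.sub (contDiff_chi.contDiffAt.comp z (contDiffAt_const.mul h3))

theorem OpenU_of_isOpen {U : Set M} (hU : IsOpen U) : OpenU (spM 𝒜) U := fun k P => hU.preimage (Sm.continuous P.2)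

/-- **forms of degree `r` on an open subset vanish on the faces on which the forms of `M` vanish** -/
theorem face_loc (hB : Bl M) {F : (spM 𝒜).Plot (r + 1)} {i : Fin (r + 1)} {x : V (r + 1)}
    (hF : ∀ th : Om (spM 𝒜), Deg r th → topE (r + 1) (ee i * ev x (Om.on th F)) = 0) {U : Set M} (hU : IsOpen U)
    {th : Om (sub (spM 𝒜) U)} (hth : Deg r th) (R : (sub (spM 𝒜) U).Plot (r + 1)) (hR : ∀ᶠ z in 𝓝 x, (R.1 z).1 = F.1 z) :
    topE (r + 1) (ee i * ev x (Om.on th R)) = 0 := by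
  have hxU : F.1 x ∈ U := by
    rw [← hR.self_of_nhds]
    exact (R.1 x).2
  obtain ⟨q, hq⟩ : ∃ q : M, q = F.1 x := ⟨_, rfl⟩
  rw [← hq] at hxU
  obtain ⟨ε, hε, hεU⟩ := Metric.isOpen_iff.1 hU q hxU
  obtain ⟨ρ, hρ, hρε, hρπ⟩ : ∃ ρ, 0 < ρ ∧ ρ < ε ∧ ρ < π := by
    have h0 : 0 < min ε π := lt_min hε pi_pos
    refine ⟨min ε π / 2, by linarith, ?_, ?_⟩
    · linarith [min_le_left ε π]
    · linarith [min_le_right ε π]
  have hO : OpenU (spM 𝒜) U := OpenU_of_isOpen hU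
  have hV : Van (spM 𝒜) U ((inU (spM 𝒜) U).pull (fO (bump (M := M) q ρ) fun k p => contDiff_bump hB q hρ hρπ p)) := by
    refine Van_fO hO _ fun k p y hy => ?_
    obtain ⟨b, hb⟩ : ∃ b : V k → M, b = p.1 := ⟨_, rfl⟩
    have hbc : ContinuousAt b y := by rw [hb]; exact (p.2 y).1
    have h1 : ρ < dist q (b y) := by
      by_contra hcon
      apply hy
      rw [← hb]
      apply hεU
      rw [mem_ball, dist_comm]
      linarith [not_lt.1 hcon]
    have hc : ContinuousAt (fun z => dist q (b z)) y := continuousAt_const.dist hbc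
    filter_upwards [hc.eventually (lt_mem_nhds h1)] with z hz
    rw [← hb]
    exact bump_zero hρ hz.le
  have hV2 := Van_mul hV th
  have hD : Deg r (ext0 hO _ hV2) := by
    refine Deg_ext0 _ _ ?_
    have h1 : Deg 0 ((inU (spM 𝒜) U).pull (fO (bump (M := M) q ρ) fun k p => contDiff_bump hB q hρ hρπ p)) :=
      Deg_pull _ fun k p => Dg_fc _
    have h2 := Deg_mul h1 hth
    rwa [zero_add] at h2
  have h2 := hF _ hD
  rw [ev_ext0, vAt_eq (vU_inj _ _) _ R hR, on_mul, map_mul (ev x), on_pull, ev_fO] at h2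
  have h3 : bump (M := M) q ρ (((inU (spM 𝒜) U).pl R).1 x) = 1 := by
    refine bump_one hρ ?_
    have h4 : ((inU (spM 𝒜) U).pl R).1 x = q := by
      rw [hq]
      exact hR.self_of_nhds
    rw [h4, dist_self]
    linarith
  rwa [h3, map_one, one_mul] at h2

end Pool.Agent.Lib.MP_ccbbf6_gt.L5.PE
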