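import Pool.Agent.Lib.MP_ccbbf6_gt.L4.OMq
import Pool.Agent.Lib.MP_ccbbf6_gt.L5.DG2
import Pool.Agent.Lib.MP_ccbbf6_gt.L5.EPS01

/-!
# Level 5, INTb, file 8: the cut map `x ↦ cutp p x` of `M - p`, its homotopy to the identity (helper77)
-/

set_option autoImplicit false
set_option linter.unusedSectionVars false
set_option linter.unusedVariables false

open Set Filter Topology Metric Real Module MeasureTheory
open scoped ContDiff RealInnerProductSpace

noncomputable section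

namespace Pool.Agent.Lib.MP_ccbbf6_gt.L5.IB

open Geo L4 L4.FR L4.ORI

/-! ### the cut map is smooth -/

section cut

variable {n : ℕ} {M : Type*} [MetricSpace M] [CompactSpace M] {𝒜 : SDist n M} {p : M}

/-- a smooth local choice of the direction of the cut point -/
theorem exists_dirsec (hB : Bl M) {κ : ℕ} (hk : 𝒜.HK κ) {q : M} (hq : q ≠ p) :
    ∃ s : Eu n → Eu n, ContDiffAt ℝ ∞ s 0 ∧ s 0 ≠ 0 ∧
      ∀ᶠ z in 𝓝 (0 : Eu n), s z ≠ 0 ∧ 𝒜.Ex p (rad π (s z)) = cutp p ((𝒜.ψ q).symm z) := by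
  have hdt : Tendsto (fun z => dist p ((𝒜.ψ q).symm z)) (𝓝 0) (𝓝 (dist p q)) :=
    tendsto_const_nhds.dist (tendsto_symm q)
  have hpos : 0 < dist p q := dist_pos.2 (Ne.symm hq)
  rcases lt_or_ge (dist p q) π with h2 | h2
  · -- off the cut locus
    obtain ⟨lg, hlg, hev⟩ := exists_log (𝒜 := 𝒜) hB h2
    obtain ⟨h3, h4⟩ := hev.self_of_nhds
    rw [symm_zero] at h3 h4
    have hne : lg 0 ≠ 0 := by
      intro h0
      rw [h0, norm_zero] at h3
      exact hpos.ne h3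
    refine ⟨lg, hlg, hne, ?_⟩
    filter_upwards [hev, hlg.continuousAt.eventually_ne hne, hdt.eventually_lt_const h2,
      hdt.eventually_const_lt hpos] with z hz1 hz2 hz3 hz4
    have hnz := norm_normalize hz2
    have hx : (𝒜.ψ q).symm z = 𝒜.gv p (‖lg z‖⁻¹ • lg z) ‖lg z‖ := by
      rw [← Ex_smul 𝒜 hB p hnz, (exa_polar hz2).2, hz1.2]
    refine ⟨hz2, ?_⟩
    rw [kc_Ex 𝒜 hB p hz2]
    rw [hx]
    rw [cutp_gv 𝒜 hB p hnz (by rw [hz1.1]; exact hz4) (by rw [hz1.1]; exact hz3.le)]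
  · -- at the cut locus
    have hd : dist p q = π := le_antisymm (hB.diam p q) h2
    obtain ⟨V, hV, hVk⟩ := finrank_Lam 𝒜 hB hk (q := p) (p := q) (by rw [dist_comm, hd])
    obtain ⟨a, ha1, ha2⟩ := exists_dir 𝒜 hB hq
    rw [hd] at ha2
    have haV : a ∈ V := by
      have h3 : a ∈ 𝒜.Lam p q := ⟨ha1, ha2⟩
      rw [hV] at h3
      exact h3.1
    obtain ⟨s, hs1, hs2, hs3⟩ := exists_section 𝒜 hB hk hd hV hVk haV (kc_ne ha1)
    have hne : s 0 ≠ 0 := by rw [hs2]; exact kc_ne ha1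
    exact ⟨s, hs1, hne, hs3⟩

/-- a constant vector in the exponential map -/
theorem smAt_ExC (hB : Bl M) {E : Type*} [NormedAddCommGroup E] [NormedSpace ℝ E] {w : E → Eu n} {u : E}
    (hw : ContDiffAt ℝ ∞ w u) : SmAt 𝒜 (fun v => 𝒜.Ex p (w v)) u := by
  refine smAt_Ex2 hB (x := fun _ => p) (p := p) (smAt_const p u) (𝒜.mem p) ?_
  unfold SmV
  exact (CC 𝒜 p p).contDiff.contDiffAt.comp u hw

/-- **the cut point is smooth** -/
theorem smAt_cutp (hB : Bl M) {κ : ℕ} (hk : 𝒜.HK κ) {E : Type*} [NormedAddCommGroup E] [NormedSpace ℝ E] {g : E → M}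
    {u : E} (hg : SmAt 𝒜 g u) (hp : g u ≠ p) : SmAt 𝒜 (fun v => cutp p (g v)) u := by
  obtain ⟨s, hs1, hs2, hs3⟩ := exists_dirsec (𝒜 := 𝒜) hB hk hp
  have h0 : 𝒜.ψ (g u) (g u) = 0 := 𝒜.zero _
  have hs1' := hs1
  rw [← h0] at hs1 hs3
  have h2 : ContDiffAt ℝ ∞ (fun v => s (𝒜.ψ (g u) (g v))) u :=
    ContDiffAt.comp (g := s) (f := fun v => 𝒜.ψ (g u) (g v)) u hs1 hg.2
  have h3 : ContDiffAt ℝ ∞ (fun v => rad π (s (𝒜.ψ (g u) (g v)))) u := by
    refine ContDiffAt.comp (g := rad π) (f := fun v => s (𝒜.ψ (g u) (g v))) u (contDiffAt_rad π ?_) h2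
    rw [h0]
    exact hs2
  refine (smAt_ExC (p := p) hB h3).congr ?_
  have hψ : ContinuousAt (fun v => 𝒜.ψ (g u) (g v)) u := hg.2.continuousAt
  filter_upwards [hg.1.eventually ((𝒜.ψ (g u)).open_source.mem_nhds (𝒜.mem _)), hψ.eventually hs3] with v hv1 hv2
  rw [hv2.2, (𝒜.ψ (g u)).left_inv hv1]

end cut

/-! ### forms along plots which factor through spaces of small dimension -/

section vanish

variable {X : Space} {N m j : ℕ}

/-- a plot which factors near `x` through a plot of smaller dimension -/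
theorem ev_fac_zero {α : Om X} (hα : Deg j α) (hm : m < j) (H : X.Plot N) (h : X.Plot m) (L : Sm N m) {x : V N}
    (hx : ∀ᶠ y in 𝓝 x, H.1 y = h.1 (L y)) : ev x (Om.on α H) = 0 := by
  have h1 : H.1 =ᶠ[𝓝 x] (h.cmp L).1 := hx
  rw [ev_on_congr α h1, on_cmp, Dg_big hm (hα m h), map_zero, map_zero]

/-- linear functionals of the values of forms are continuous -/
theorem continuous_lin (θ : Fm N) (F : Ex N →ₗ[ℝ] ℝ) : Continuous fun x => F (ev x θ) :=
  (contDiff_coef F θ).continuous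

/-- the half spaces are in the closure of the open half spaces -/
theorem lin_zero_of_half {θ : Fm N} {i : Fin N} (F : Ex N →ₗ[ℝ] ℝ) {x : V N}
    (h0 : x i ≤ 0 → ∀ y : V N, y i < 0 → ev y θ = 0) (h1 : 1 ≤ x i → ∀ y : V N, 1 < y i → ev y θ = 0)
    (hx : x i ≤ 0 ∨ 1 ≤ x i) : F (ev x θ) = 0 := by
  have hcl : IsClosed {y : V N | F (ev y θ) = 0} := isClosed_eq (continuous_lin θ F) continuous_const
  rcases hx with hx | hx
  · have h2 : Tendsto (fun t : ℝ => x - t • (Pi.single i 1 : V N)) (𝓝[>] 0) (𝓝 (x - (0 : ℝ) • (Pi.single i 1 : V N))) :=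
      (tendsto_const_nhds.sub (tendsto_id.smul_const _)).mono_left nhdsWithin_le_nhds
    rw [zero_smul, sub_zero] at h2
    refine hcl.mem_of_tendsto h2 ?_
    filter_upwards [self_mem_nhdsWithin] with t ht
    have h3 : (x - t • (Pi.single i 1 : V N)) i < 0 := by
      rw [Pi.sub_apply, Pi.smul_apply, Pi.single_eq_same, smul_eq_mul, mul_one]
      have : (0 : ℝ) < t := ht
      linarith
    show F (ev (x - t • (Pi.single i 1 : V N)) θ) = 0
    rw [h0 hx _ h3, map_zero]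
  · have h2 : Tendsto (fun t : ℝ => x + t • (Pi.single i 1 : V N)) (𝓝[>] 0) (𝓝 (x + (0 : ℝ) • (Pi.single i 1 : V N))) :=
      (tendsto_const_nhds.add (tendsto_id.smul_const _)).mono_left nhdsWithin_le_nhds
    rw [zero_smul, add_zero] at h2
    refine hcl.mem_of_tendsto h2 ?_
    filter_upwards [self_mem_nhdsWithin] with t ht
    have h3 : 1 < (x + t • (Pi.single i 1 : V N)) i := by
      rw [Pi.add_apply, Pi.smul_apply, Pi.single_eq_same, smul_eq_mul, mul_one]
      have : (0 : ℝ) < t := ht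
      linarith
    show F (ev (x + t • (Pi.single i 1 : V N)) θ) = 0
    rw [h1 hx _ h3, map_zero]

/-- off the open cube in the direction `i` the plot factors through a plot of smaller dimension -/
theorem Fz_fac {α : Om X} (hα : Deg j α) (hm : m < j) (H : X.Plot N) (h : X.Plot m) (L : Sm N m) {i : Fin N}
    (hH : ∀ y : V N, (y i ≤ 0 ∨ 1 ≤ y i) → H.1 y = h.1 (L y)) (F : Ex N →ₗ[ℝ] ℝ) {x : V N}
    (hx : x i ≤ 0 ∨ 1 ≤ x i) : F (ev x (Om.on α H)) = 0 := by
  refine lin_zero_of_half F (fun _ y hy => ?_) (fun _ y hy => ?_) hx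
  · refine ev_fac_zero hα hm H h L ?_
    have h1 : ∀ᶠ z in 𝓝 y, z i < 0 := (continuous_apply i).continuousAt.eventually (gt_mem_nhds hy)
    filter_upwards [h1] with z hz
    exact hH z (Or.inl hz.le)
  · refine ev_fac_zero hα hm H h L ?_
    have h1 : ∀ᶠ z in 𝓝 y, 1 < z i := (continuous_apply i).continuousAt.eventually (lt_mem_nhds hy)
    filter_upwards [h1] with z hz
    exact hH z (Or.inr hz.le)

/-- the integral of an exact form over the cube is zero along a plot which is constant off the open cube -/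
theorem cI_exact_zero {β : Om X} (hβ : Deg j β) (hj : 1 ≤ j) (Φ : X.Plot N) (h0 : X.Plot 0)
    (hΦ : ∀ z : V N, (∃ i, z i ≤ 0 ∨ 1 ≤ z i) → Φ.1 z = h0.1 0) : cI N (Om.on (dO X β) Φ) = 0 := by
  rw [on_d]
  refine cI_dd_zero _ fun i x _ hxi => ?_
  have h1 : x i ≤ 0 ∨ 1 ≤ x i := by
    rcases hxi with h | h
    · exact Or.inl h.le
    · exact Or.inr h.ge
  exact Fz_fac hβ (m := 0) hj Φ h0 ⟨fun _ => 0, contDiff_const⟩ (i := i) (fun y hy => hΦ y ⟨i, hy⟩)
    ((topE N).comp (LinearMap.mulLeft ℝ (ee i))) h1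

/-- homotopy of plots relative to the boundary -/
theorem cI_homotopy {α : Om X} (hα : Deg j α) (hj : 2 ≤ j) (hd : dO X α = 0) (H : X.Plot (N + 1)) (h1 : X.Plot 1)
    (hH : ∀ z : V N, (∃ i, z i ≤ 0 ∨ 1 ≤ z i) → ∀ t : ℝ, H.1 (Fin.snoc z t) = h1.1 fun _ => t) :
    cI N (Om.on α (H.cmp (sl N 1))) = cI N (Om.on α (H.cmp (sl N 0))) := by
  have h2 : dd (N + 1) (Om.on α H) = 0 := by rw [← on_d, hd, on_zero]
  have hF : ∀ i : Fin N, Fz i.castSucc (Om.on α H) := by
    intro i x _ hxi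
    have h3 : x i.castSucc ≤ 0 ∨ 1 ≤ x i.castSucc := by
      rcases hxi with h | h
      · exact Or.inl h.le
      · exact Or.inr h.ge
    refine Fz_fac hα (m := 1) hj H h1 ⟨fun y _ => y (Fin.last N), contDiff_pi.2 fun _ => contDiff_apply ℝ ℝ _⟩
      (i := i.castSucc) (fun y hy => ?_) ((topE (N + 1)).comp (LinearMap.mulLeft ℝ (ee i.castSucc))) h3
    have h4 := hH (fun l => y l.castSucc) ⟨i, hy⟩ (y (Fin.last N))
    have h5 : (Fin.snoc (fun l => y l.castSucc) (y (Fin.last N)) : V (N + 1)) = y := by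
      funext l
      refine Fin.lastCases ?_ (fun l => ?_) l
      · exact Fin.snoc_last (α := fun _ => ℝ) _ _
      · exact Fin.snoc_castSucc (α := fun _ => ℝ) _ _ _
    rw [h5] at h4
    exact h4
  have h3 := cI_dd_last (Om.on α H) hF
  rw [h2, cI_zero] at h3
  rw [on_cmp, on_cmp]
  have h4 : ((-1 : ℝ)) ^ N ≠ 0 := pow_ne_zero _ (by norm_num)
  have h5 := (mul_eq_zero.1 h3.symm).resolve_left h4
  linarith

end vanish

end Pool.Agent.Lib.MP_ccbbf6_gt.L5.IB
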