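import Pool.Agent.Lib.MP_ccbbf6_gt.L5.EPS08
import Pool.Agent.Lib.MP_ccbbf6_gt.L5.EPS09

/-!
# Level 5, block PER, part 5: forms of the sphere along a map which may vanish, cut off near the zeros
-/

set_option autoImplicit false

open Set Filter Topology MeasureTheory Metric Module
open scoped ContDiff

noncomputable section

namespace Pool.Agent.Lib.MP_ccbbf6_gt.L5.PE

open Geo L4 L4.FR

variable {k l n r m : ℕ}

/-- a smooth map and a cut-off function which vanishes near its zeros -/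
structure CutD (g : V k → Eu n) (χ : Cs k) : Prop where
  sm : ContDiff ℝ ∞ g
  z : ∀ x, g x = 0 → ∀ᶠ y in 𝓝 x, (χ : V k → ℝ) y = 0

/-- normalisation -/
def nzv (g : V k → Eu n) (x : V k) : Eu n := ‖g x‖⁻¹ • g x

theorem CutD.comp {g : V k → Eu n} {χ : Cs k} (h : CutD g χ) (f : FR.Sm l k) : CutD (fun x => g (f x)) (f.pull χ) :=
  ⟨h.sm.comp f.smooth, fun x hx => f.smooth.continuous.continuousAt.eventually (h.z (f x) hx)⟩

theorem CutD.ev0 {g : V k → Eu n} {χ : Cs k} (h : CutD g χ) {x : V k} (hx : g x ≠ 0) :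
    ∃ s : FR.Sm k k, (∀ y, g (s y) ≠ 0) ∧ ∀ᶠ y in 𝓝 x, s y = y := by
  obtain ⟨s, h1, h2⟩ := exists_sq x (h.sm.continuous.continuousAt.eventually_ne hx)
  exact ⟨s, h2, h1⟩

/-- the plot of the sphere near a point where the map does not vanish -/
def CutD.P {g : V k → Eu n} {χ : Cs k} (h : CutD g χ) {s : FR.Sm k k} (hs : ∀ y, g (s y) ≠ 0) : (spS n).Plot k :=
  nzP (g := fun y => g (s y)) (h.sm.comp s.smooth) hs

theorem CutD.P_apply {g : V k → Eu n} {χ : Cs k} (h : CutD g χ) {s : FR.Sm k k} (hs : ∀ y, g (s y) ≠ 0) (y : V k) :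
    ((h.P hs).1 y).1 = nzv g (s y) := rfl

theorem CutD.P_near {g : V k → Eu n} {χ : Cs k} (h : CutD g χ) {s : FR.Sm k k} (hs : ∀ y, g (s y) ≠ 0) {x : V k}
    (hx : ∀ᶠ y in 𝓝 x, s y = y) : (fun y => ((h.P hs).1 y).1) =ᶠ[𝓝 x] nzv g := by
  filter_upwards [hx] with y hy
  rw [h.P_apply hs, hy]

/-- values of the cut-off form -/
def cutV (w : Om (spS n)) (g : V k → Eu n) (χ : Cs k) (x : V k) : Ex k :=
  (χ : V k → ℝ) x • vAt (Subtype.val) w (nzv g) x

theorem cutV_zero (w : Om (spS n)) {g : V k → Eu n} {χ : Cs k} (h : CutD g χ) {x : V k} (hx : g x = 0) :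
    ∀ᶠ y in 𝓝 x, cutV w g χ y = 0 := by
  filter_upwards [h.z x hx] with y hy
  unfold cutV
  rw [hy, zero_smul]

theorem cutV_near (w : Om (spS n)) {g : V k → Eu n} {χ : Cs k} {x : V k} {P : (spS n).Plot k}
    (hP : (fun y => (P.1 y).1) =ᶠ[𝓝 x] nzv g) : ∀ᶠ y in 𝓝 x, cutV w g χ y = ev y (fc k χ * Om.on w P) := by
  filter_upwards [vAt_eventuallyEq Subtype.val_injective w P hP] with y hy
  unfold cutV
  rw [map_mul, hy, ev_fc, Algebra.algebraMap_eq_smul_one, smul_mul_assoc, one_mul]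

theorem SmE_cutV (w : Om (spS n)) {g : V k → Eu n} {χ : Cs k} (h : CutD g χ) : SmE (cutV w g χ) := by
  refine SmE_of_loc fun x => ?_
  by_cases hx : g x = 0
  · refine ⟨0, ?_⟩
    filter_upwards [cutV_zero w h hx] with y hy
    rw [hy, map_zero]
  · obtain ⟨s, hs, hs1⟩ := h.ev0 hx
    exact ⟨_, cutV_near w (h.P_near hs hs1)⟩

/-- the cut-off form `χ (g / |g|)^* w` -/
def cut (w : Om (spS n)) (g : V k → Eu n) (χ : Cs k) : Fm k := ofV (cutV w g χ)

theorem cut_zero (w : Om (spS n)) {g : V k → Eu n} {χ : Cs k} (h : CutD g χ) {x : V k} (hx : g x = 0) :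
    ∀ᶠ y in 𝓝 x, ev y (cut w g χ) = ev y 0 := by
  filter_upwards [cutV_zero w h hx] with y hy
  unfold cut
  rw [ev_ofV (SmE_cutV w h), hy, map_zero]

theorem cut_near (w : Om (spS n)) {g : V k → Eu n} {χ : Cs k} (h : CutD g χ) {x : V k} {P : (spS n).Plot k}
    (hP : (fun y => (P.1 y).1) =ᶠ[𝓝 x] nzv g) : ∀ᶠ y in 𝓝 x, ev y (cut w g χ) = ev y (fc k χ * Om.on w P) := by
  filter_upwards [cutV_near w hP] with y hy
  unfold cut
  rw [ev_ofV (SmE_cutV w h), hy]

/-- naturality -/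
theorem pb_cut (w : Om (spS n)) {g : V k → Eu n} {χ : Cs k} (h : CutD g χ) (f : FR.Sm l k) :
    pb f (cut w g χ) = cut w (fun x => g (f x)) (f.pull χ) := by
  refine ev_ext fun x => ?_
  by_cases hx : g (f x) = 0
  · rw [ev_pb_congr' f (cut_zero w h hx), (cut_zero w (h.comp f) hx).self_of_nhds, map_zero, map_zero]
  · obtain ⟨s, hs, hs1⟩ := h.ev0 hx
    have hP := h.P_near hs hs1
    rw [ev_pb_congr' f (cut_near w h hP), map_mul, pb_fc, ← on_cmp]
    have hP' : (fun y => (((h.P hs).cmp f).1 y).1) =ᶠ[𝓝 x] nzv fun x => g (f x) :=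
      f.smooth.continuous.continuousAt.eventually hP
    rw [(cut_near w (h.comp f) hP').self_of_nhds]

/-- the differential where the cut-off function is `1` -/
theorem dd_cut_one (w : Om (spS n)) {g : V k → Eu n} {χ : Cs k} (h : CutD g χ) {x : V k} {P : (spS n).Plot k}
    (hP : (fun y => (P.1 y).1) =ᶠ[𝓝 x] nzv g) (h1 : ∀ᶠ y in 𝓝 x, (χ : V k → ℝ) y = 1) :
    ev x (dd k (cut w g χ)) = ev x (Om.on (dO (spS n) w) P) := by
  rw [on_d]
  refine ev_dd_congr ?_
  filter_upwards [cut_near w h hP, h1] with y hy hy1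
  rw [hy, map_mul, ev_fc, hy1, map_one, one_mul]

theorem cut_one (w : Om (spS n)) {g : V k → Eu n} {χ : Cs k} (h : CutD g χ) {x : V k} {P : (spS n).Plot k}
    (hP : (fun y => (P.1 y).1) =ᶠ[𝓝 x] nzv g) (h1 : (χ : V k → ℝ) x = 1) :
    ev x (cut w g χ) = ev x (Om.on w P) := by
  rw [(cut_near w h hP).self_of_nhds, map_mul, ev_fc, h1, map_one, one_mul]

/-- the differential of the cut-off form, closed case -/
theorem dd_cut_closed (w : Om (spS n)) {g : V k → Eu n} {χ : Cs k} (h : CutD g χ) {x : V k} {P : (spS n).Plot k}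
    (hP : (fun y => (P.1 y).1) =ᶠ[𝓝 x] nzv g) (h1 : ev x (Om.on (dO (spS n) w) P) = 0) :
    ev x (dd k (cut w g χ)) = ev x (dd k (fc k χ)) * ev x (Om.on w P) := by
  rw [ev_dd_congr (cut_near w h hP), dd_mul, sg_fc, map_add, map_mul, map_mul, ← on_d, h1, mul_zero, add_zero]

/-- constant plots of the sphere -/
def cst (k : ℕ) (ξ : (spS n).pt) : (spS n).Plot k :=
  ⟨fun _ => ξ, show ContDiff ℝ ∞ fun _ : V k => ξ.1 from contDiff_const⟩

theorem on_cst {j : ℕ} {w : Om (spS n)} (hw : Deg (j + 1) w) (ξ : (spS n).pt) : Om.on w (cst k ξ) = 0 := by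
  refine ev_ext fun x => ?_
  rw [ev_on_zero hw (cst k ξ), map_zero]
  have h1 : (fun x => ((cst k ξ).1 x).1) = fun _ : V k => ξ.1 := rfl
  rw [h1, fderiv_const_apply]
  change finrank ℝ (LinearMap.range (0 : V k →ₗ[ℝ] Eu n)) < j + 1
  rw [LinearMap.range_zero, finrank_bot]
  omega

section fib

variable {F : Fib n r} {ψ h : Om (spS n)}

/-- the restriction to a fibre is closed -/
theorem fib_closed (H : FibForm F ψ h) {ξ : (spS n).pt} {L : Eu (r + 1) →L[ℝ] Eu n} (hL : ∀ v, ‖L v‖ = ‖v‖)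
    (hQL : (F.Q ξ).comp L = L) : (LS L hL).pull h = 0 := by
  refine Om_ext fun k p => ?_
  rw [on_pull, ← H.basic k (cst k ξ) ((LS L hL).pl p) (fun x => DFunLike.congr_fun hQL (p.1 x).1), on_cst H.degh]
  rfl

theorem contDiff_toE' : ContDiff ℝ ∞ (toE : V k → Eu k) := contDiff_toE

/-- cut-off data of an injective linear map -/
theorem CutD_L {L : Eu (r + 1) →L[ℝ] Eu n} (hL : ∀ v, ‖L v‖ = ‖v‖) : CutD (fun x : V (r + 1) => L (toE x)) (cn1 (r + 1)) :=
  ⟨L.contDiff.comp contDiff_toE, fun x hx => by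
    have h1 : toE x = 0 := by
      rw [← norm_eq_zero, ← hL, hx, norm_zero]
    have h2 : ∀ᶠ z in 𝓝 x, ‖toE z‖ < 1 := contDiff_toE.continuous.norm.continuousAt.eventually
      (gt_mem_nhds (by change ‖toE x‖ < 1; rw [h1, norm_zero]; exact one_pos))
    filter_upwards [h2] with z hz
    exact chi_zero hz.le⟩

/-- the model at a zero of the section -/
theorem dd_cut_model (H : FibForm F ψ h) {ξ : (spS n).pt} {L : Eu (r + 1) →L[ℝ] Eu n} (hL : ∀ v, ‖L v‖ = ‖v‖)
    (hQL : (F.Q ξ).comp L = L) :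
    dd (r + 1) (cut ψ (fun x : V (r + 1) => L (toE x)) (cn1 (r + 1))) = Th ((LS L hL).pull ψ) := by
  refine ev_ext fun x => ?_
  rw [ev_Th]
  by_cases hx : toE x = 0
  · have h1 : ev x (dd (r + 1) (fc (r + 1) (cn1 (r + 1)))) = 0 :=
      ev_dcn_zero (by rw [hx, norm_zero]; exact one_pos)
    unfold ThV
    rw [h1, zero_mul, ev_dd_congr (cut_zero ψ (CutD_L hL) (by change L (toE x) = 0; rw [hx, map_zero])), map_zero, map_zero]
  · obtain ⟨P, hP⟩ := locPl_nrm hx
    have hP' : (fun y => (((LS L hL).pl P).1 y).1) =ᶠ[𝓝 x] nzv fun x : V (r + 1) => L (toE x) := by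
      filter_upwards [hP] with y hy
      change L ((P.1 y).1) = ‖L (toE y)‖⁻¹ • L (toE y)
      rw [hy, hL]
      unfold nrm
      rw [map_smul]
    rw [dd_cut_closed ψ (CutD_L hL) hP']
    · unfold ThV
      rw [vAt_eq Subtype.val_injective _ P hP]
      rfl
    · rw [H.d, ← on_pull, fib_closed H hL hQL]
      exact map_zero _

end fib

end Pool.Agent.Lib.MP_ccbbf6_gt.L5.PE
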