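import Pool.Agent.Lib.MP_ccbbf6_gt.L5.PER04
import Pool.Agent.Lib.MP_ccbbf6_gt.L5.PER05

/-!
# Level 5, block PER, part 6: the Euler class of the fibration is integral
-/

set_option autoImplicit false

open Set Filter Topology MeasureTheory Metric Module
open scoped ContDiff

noncomputable section

namespace Pool.Agent.Lib.MP_ccbbf6_gt.L5.PE

open Geo L4 L4.FR

variable {k l n r m : ℕ} {F : Fib n r} {ψ h : Om (spS n)}

/-- `(z, s) ↦ s z` -/
def mulM (k : ℕ) : FR.Sm (k + 1) k := ⟨fun x => x (Fin.last k) • pr k x,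
  (contDiff_apply ℝ ℝ (Fin.last k)).smul (pr k).smooth⟩

theorem mulM_snoc (z : V k) (s : ℝ) : mulM k (Fin.snoc z s) = s • z := by
  change (Fin.snoc z s : V (k + 1)) (Fin.last k) • pr k (Fin.snoc z s) = s • z
  rw [Fin.snoc_last, pr_snoc]

/-- normalised vector, with a default value -/
def nzD (ξ : (spS n).pt) (v : Eu n) : (spS n).pt := by
  classical
  exact if hv : v = 0 then ξ else ⟨‖v‖⁻¹ • v, by
    rw [norm_smul, norm_inv, norm_norm, inv_mul_cancel₀ (norm_ne_zero_iff.2 hv)]⟩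

theorem nzD_of_ne (ξ : (spS n).pt) {v : Eu n} (hv : v ≠ 0) : (nzD ξ v).1 = ‖v‖⁻¹ • v := by
  unfold nzD
  rw [dif_neg hv]

/-- boundary condition for the planes along a plot of the unit sphere: they have good boundary conditions, or the angular
form vanishes on the two faces along every section `Q v / |Q v|` -/
def FQ (F : Fib n r) (ψ : Om (spS n)) (a : (spS n).Plot (r + 1)) (i : Fin (r + 1)) : Prop :=
  FOK (fun x => F.Q (a.1 x)) i ∨ ∀ v, ∀ x ∈ Icc (0 : V (r + 1)) 1, (x i = 0 ∨ x i = 1) → F.Q (a.1 x) v ≠ 0 →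
    ∀ R : (spS n).Plot (r + 1), (∀ᶠ z in 𝓝 x, (R.1 z).1 = ‖F.Q (a.1 z) v‖⁻¹ • F.Q (a.1 z) v) →
      topE (r + 1) (ee i * ev x (Om.on ψ R)) = 0

/-- the homotopy form of the section -/
structure Sec (F : Fib n r) (a : (spS n).Plot (r + 1)) (L : Eu (r + 1) →L[ℝ] Eu n) where
  κ : FR.Sm (r + 1) (r + 1)
  B : V (r + 1) → Eu (r + 1) →L[ℝ] Eu n
  y : FR.Sm (r + 1) (r + 1)
  v : Eu n
  hκ : ∀ z ∈ Icc (0 : V (r + 1)) 1, ∀ᶠ w in 𝓝 z, κ w = w
  hB : ContDiff ℝ ∞ B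
  hB0 : B 0 = L
  hQB : ∀ z, (F.Q (a.1 (κ z))).comp (B z) = B z
  hBi : ∀ z a, B z a = 0 → a = 0
  hBy : ∀ z, B z (toE (y z)) = F.Q (a.1 (κ z)) v
  hy : ∀ x ∈ Icc (0 : V (r + 1)) 1, (∃ i, x i = 0 ∨ x i = 1) → 2 < ‖toE (y x)‖

namespace Sec

variable {a : (spS n).Plot (r + 1)} {L : Eu (r + 1) →L[ℝ] Eu n} (S : Sec F a L)

/-- the section along the rays -/
def G (x : V (r + 1 + 1)) : Eu n := S.B (mulM (r + 1) x) (toE (S.y (pr (r + 1) x)))

/-- the cut-off function -/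
def X : Cs (r + 1 + 1) := (pr (r + 1)).pull (S.y.pull (cn1 (r + 1)))

theorem X_apply (x : V (r + 1 + 1)) : (S.X : V (r + 1 + 1) → ℝ) x = chi ‖toE (S.y (pr (r + 1) x))‖ := rfl

theorem near0 {x : V (r + 1)} (hx : toE (S.y x) = 0) : ∀ᶠ z in 𝓝 x, chi ‖toE (S.y z)‖ = 0 := by
  have h2 : ∀ᶠ z in 𝓝 x, ‖toE (S.y z)‖ < 1 := (contDiff_toE.comp S.y.smooth).continuous.norm.continuousAt.eventually
    (gt_mem_nhds (by change ‖toE (S.y x)‖ < 1; rw [hx, norm_zero]; exact one_pos))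
  filter_upwards [h2] with z hz
  exact chi_zero hz.le

theorem near1 {x : V (r + 1)} (hx : x ∈ Icc (0 : V (r + 1)) 1) (hx' : ∃ i, x i = 0 ∨ x i = 1) :
    ∀ᶠ z in 𝓝 x, chi ‖toE (S.y z)‖ = 1 := by
  have h2 : ∀ᶠ z in 𝓝 x, 2 < ‖toE (S.y z)‖ := (contDiff_toE.comp S.y.smooth).continuous.norm.continuousAt.eventually
    (lt_mem_nhds (S.hy x hx hx'))
  filter_upwards [h2] with z hz
  exact chi_one hz.le

theorem cutD : CutD S.G S.X :=
  ⟨(S.hB.comp (mulM (r + 1)).smooth).clm_apply (contDiff_toE.comp (S.y.comp (pr (r + 1))).smooth), fun x hx => by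
    have h1 := S.near0 (S.hBi _ _ hx)
    exact (pr (r + 1)).smooth.continuous.continuousAt.eventually h1⟩

/-- the closed form -/
def T (ψ h : Om (spS n)) : Fm (r + 1 + 1) :=
  dd (r + 1 + 1) (cut ψ S.G S.X) - Om.on h ((a.cmp S.κ).cmp (mulM (r + 1)))

theorem dd_T (H : FibForm F ψ h) : dd (r + 1 + 1) (S.T ψ h) = 0 := by
  unfold T
  rw [map_sub, dd_dd, zero_sub, ← on_d, H.dh]
  exact neg_zero

theorem basic (H : FibForm F ψ h) {s : FR.Sm (r + 1 + 1) (r + 1 + 1)} (hs : ∀ y, S.G (s y) ≠ 0) :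
    Om.on h (((a.cmp S.κ).cmp (mulM (r + 1))).cmp s) = Om.on h (S.cutD.P hs) := by
  refine H.basic _ _ _ fun x => ?_
  rw [S.cutD.P_apply hs]
  unfold nzv
  rw [map_smul]
  congr 1
  exact DFunLike.congr_fun (S.hQB (mulM (r + 1) (s x))) _

theorem lateral (H : FibForm F ψ h) (i : Fin (r + 1)) : Fz i.castSucc (S.T ψ h) := by
  intro x hx hxi
  have hpx : pr (r + 1) x ∈ Icc (0 : V (r + 1)) 1 := ⟨fun i => hx.1 i.castSucc, fun i => hx.2 i.castSucc⟩
  have h1 := S.near1 hpx ⟨i, hxi⟩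
  have h2 : ∀ᶠ z in 𝓝 x, (S.X : V (r + 1 + 1) → ℝ) z = 1 := (pr (r + 1)).smooth.continuous.continuousAt.eventually h1
  have h3 : S.G x ≠ 0 := by
    intro h0
    have h4 := S.hBi _ _ h0
    have h5 := S.hy _ hpx ⟨i, hxi⟩
    rw [h4, norm_zero] at h5
    linarith
  obtain ⟨s, hs, hs1⟩ := S.cutD.ev0 h3
  have h6 := dd_cut_one ψ S.cutD (S.cutD.P_near hs hs1) h2
  have h7 : ev x (S.T ψ h) = 0 := by
    unfold T
    rw [map_sub, h6, H.d, ← S.basic H hs, on_cmp, ev_pb_id hs1, sub_self]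
  rw [h7, mul_zero, map_zero]

/-- the end `s = 0` -/
theorem end_zero (H : FibForm F ψ h) (hL : ∀ v, ‖L v‖ = ‖v‖) (hQL : (F.Q (a.1 0)).comp L = L) :
    pb (sl (r + 1) 0) (S.T ψ h) = pb S.y (Th ((LS L hL).pull ψ)) := by
  unfold T
  have h1 : ((a.cmp S.κ).cmp (mulM (r + 1))).cmp (sl (r + 1) 0) = cst (r + 1) (a.1 (S.κ 0)) := by
    refine Plot_ext fun x => ?_
    change a.1 (S.κ (mulM (r + 1) (Fin.snoc x 0))) = a.1 (S.κ 0)
    rw [mulM_snoc, zero_smul]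
  rw [map_sub, ← on_cmp, h1, on_cst H.degh, sub_zero, ← pb_dd, pb_cut ψ S.cutD, ← dd_cut_model H hL hQL, ← pb_dd,
    pb_cut ψ (CutD_L hL)]
  have h2 : (fun x => S.G (sl (r + 1) 0 x)) = fun x => L (toE (S.y x)) := by
    funext x
    change S.B (mulM (r + 1) (Fin.snoc x 0)) (toE (S.y (pr (r + 1) (Fin.snoc x 0)))) = L (toE (S.y x))
    rw [mulM_snoc, zero_smul, pr_snoc, S.hB0]
  have h3 : (sl (r + 1) 0).pull S.X = S.y.pull (cn1 (r + 1)) := by
    refine Cs_ext fun x => ?_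
    change chi ‖toE (S.y (pr (r + 1) (Fin.snoc x 0)))‖ = chi ‖toE (S.y x)‖
    rw [pr_snoc]
  rw [h2, h3]

theorem cI_end_zero (H : FibForm F ψ h) (hL : ∀ v, ‖L v‖ = ‖v‖) (hQL : (F.Q (a.1 0)).comp L = L) :
    ∃ k : ℤ, cI (r + 1) (pb (sl (r + 1) 0) (S.T ψ h)) = k * JS ((LS L hL).pull ψ) := by
  obtain ⟨k, hk⟩ := DB.deg_ball S.y S.hy
  refine ⟨k, ?_⟩
  rw [S.end_zero H hL hQL]
  have h1 := hk (fun w => topE (r + 1) (ev w (Th ((LS L hL).pull ψ)))) (contDiff_Th _) (compact_Th _)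
    (fun w hw => by rw [ev_Th_zero _ hw, map_zero])
  unfold JS
  rw [← h1]
  unfold cI
  refine setIntegral_congr_fun measurableSet_Icc fun x _ => ?_
  change topE (r + 1) (ev x (pb S.y (Th ((LS L hL).pull ψ)))) = _
  rw [ev_pb, topE_map, det_tr, mul_comm]

/-- the section at `s = 1` on the cube -/
theorem G_one (x : V (r + 1)) : S.G (sl (r + 1) 1 x) = F.Q (a.1 (S.κ x)) S.v := by
  change S.B (mulM (r + 1) (Fin.snoc x 1)) (toE (S.y (pr (r + 1) (Fin.snoc x 1)))) = _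
  rw [mulM_snoc, one_smul, pr_snoc, S.hBy]

theorem cI_end_one (hF : ∀ i, FQ F ψ a i) :
    cI (r + 1) (pb (sl (r + 1) 1) (S.T ψ h)) = -cI (r + 1) (Om.on h a) := by
  unfold T
  have h1 : ((a.cmp S.κ).cmp (mulM (r + 1))).cmp (sl (r + 1) 1) = a.cmp S.κ := by
    refine Plot_ext fun x => ?_
    change a.1 (S.κ (mulM (r + 1) (Fin.snoc x 1))) = a.1 (S.κ x)
    rw [mulM_snoc, one_smul]
  rw [map_sub, ← on_cmp, h1, cI_sub, ← pb_dd, pb_cut ψ S.cutD]
  have h2 : cI (r + 1) (Om.on h (a.cmp S.κ)) = cI (r + 1) (Om.on h a) := by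
    refine cI_congr fun x hx => ?_
    rw [on_cmp, ev_pb_id (S.hκ x hx)]
  have hc := S.cutD.comp (sl (r + 1) 1)
  have h3 : cI (r + 1) (dd (r + 1) (cut ψ (fun x => S.G (sl (r + 1) 1 x)) ((sl (r + 1) 1).pull S.X))) = 0 := by
    rw [cI_dd']
    refine Finset.sum_eq_zero fun i _ => ?_
    have h4 : ∀ x ∈ Icc (0 : V (r + 1)) 1, (x i = 0 ∨ x i = 1) → F.Q (a.1 x) S.v ≠ 0 := by
      intro x hx hxi h0
      have h5 := S.hBy x
      rw [(S.hκ x hx).self_of_nhds, h0] at h5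
      have h6 := S.hBi _ _ h5
      have h7 := S.hy x hx ⟨i, hxi⟩
      rw [h6, norm_zero] at h7
      linarith
    have key : ∀ x ∈ Icc (0 : V (r + 1)) 1, (x i = 0 ∨ x i = 1) → ∃ R : (spS n).Plot (r + 1),
        (∀ᶠ z in 𝓝 x, (R.1 z).1 = ‖F.Q (a.1 z) S.v‖⁻¹ • F.Q (a.1 z) S.v) ∧
        ev x (cut ψ (fun x => S.G (sl (r + 1) 1 x)) ((sl (r + 1) 1).pull S.X)) = ev x (Om.on ψ R) := by
      intro x hx hxi
      have hκx := (S.hκ x hx).self_of_nhds
      have h5 : (fun x => S.G (sl (r + 1) 1 x)) x ≠ 0 := by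
        change S.G (sl (r + 1) 1 x) ≠ 0
        rw [S.G_one, hκx]
        exact h4 x hx hxi
      obtain ⟨s, hs, hs1⟩ := hc.ev0 h5
      have hP := hc.P_near hs hs1
      refine ⟨hc.P hs, ?_, cut_one ψ hc hP ?_⟩
      · filter_upwards [hP, S.hκ x hx] with z hz1 hz3
        have h7 : ((hc.P hs).1 z).1 = nzv (fun x => S.G (sl (r + 1) 1 x)) z := hz1
        rw [h7]
        unfold nzv
        beta_reduce
        rw [S.G_one, hz3]
      · change chi ‖toE (S.y (pr (r + 1) (Fin.snoc x 1)))‖ = 1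
        rw [pr_snoc]
        exact (S.near1 hx ⟨i, hxi⟩).self_of_nhds
    rcases hF i with hFi | hFi
    · have hF' : FOK (fun x => nzD (a.1 0) (F.Q (a.1 x) S.v)) i :=
        hFi.map fun (T : Eu n →L[ℝ] Eu n) => nzD (a.1 0) (T S.v)
      rw [FE_of_loc ψ (fun x => nzD (a.1 0) (F.Q (a.1 x) S.v)) hF', sub_self, mul_zero]
      intro x hx hxi
      obtain ⟨R, hR, hR2⟩ := key x hx hxi
      refine ⟨R, ?_, hR2⟩
      have h6 : ∀ᶠ z in 𝓝 x, F.Q (a.1 z) S.v ≠ 0 :=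
        ((F.sm _ a).clm_apply contDiff_const).continuous.continuousAt.eventually_ne (h4 x hx hxi)
      filter_upwards [hR, h6] with z hz1 hz2
      refine Subtype.ext ?_
      rw [hz1, nzD_of_ne _ hz2]
    · have h0 : ∀ c : ℝ, (c = 0 ∨ c = 1) →
          cI r (pb (emb i c) (cut ψ (fun x => S.G (sl (r + 1) 1 x)) ((sl (r + 1) 1).pull S.X))) = 0 := by
        intro c hc'
        refine (cI_congr (τ := 0) fun x hx => ?_).trans cI_zero
        have hx' : emb i c x ∈ Icc (0 : V (r + 1)) 1 := insertNth_mem_cube hc' hx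
        have hxi : emb i c x i = 0 ∨ emb i c x i = 1 := by rw [emb_same]; exact hc'
        obtain ⟨R, hR, hR2⟩ := key _ hx' hxi
        have h5 := hFi S.v _ hx' hxi (h4 _ hx' hxi) R hR
        rw [← hR2] at h5
        have h6 := top_emb i c x (cut ψ (fun x => S.G (sl (r + 1) 1 x)) ((sl (r + 1) 1).pull S.X))
        rw [← emb_apply, h5] at h6
        rw [map_zero (ev x), map_zero]
        rcases mul_eq_zero.1 h6.symm with h7 | h7
        · exact absurd h7 (pow_ne_zero _ (by norm_num))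
        · exact h7
      rw [h0 1 (Or.inr rfl), h0 0 (Or.inl rfl), sub_self, mul_zero]
  rw [h3, h2, zero_sub]

end Sec

/-- **the Euler class of the fibration is integral** -/
theorem per0' (H : FibForm F ψ h) (a : (spS n).Plot (r + 1)) (hF : ∀ i, FQ F ψ a i) :
    ∃ k : ℤ, cI (r + 1) (Om.on h a) = k := by
  obtain ⟨L, hL, hQL, hJ⟩ := H.norm (a.1 0)
  have hinj : ∀ b, L b = 0 → b = 0 := fun b hb => by rw [← norm_eq_zero, ← hL, hb, norm_zero]
  obtain ⟨κ, B, y, v, hκ, hB, hB0, hQB, hBi, hBy, hy⟩ :=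
    exists_section (F.sm (r + 1) a) (fun z => F.idem (a.1 z)) (F.rank (a.1 0)) hQL hinj
  let S : Sec F a L := ⟨κ, B, y, v, hκ, hB, hB0, hQB, hBi, hBy, hy⟩
  obtain ⟨k, hk⟩ := S.cI_end_zero H hL hQL
  have h1 := cI_dd_last (S.T ψ h) (S.lateral H)
  rw [S.dd_T H, cI_zero, S.cI_end_one hF, hk] at h1
  have h2 : -cI (r + 1) (Om.on h a) - k * JS ((LS L hL).pull ψ) = 0 := by
    rcases mul_eq_zero.1 h1.symm with h | h
    · exact absurd h (pow_ne_zero _ (by norm_num))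
    · exact h
  rcases (abs_eq zero_le_one).1 hJ with h3 | h3
  · rw [h3] at h2
    refine ⟨-k, ?_⟩
    push_cast
    linarith
  · rw [h3] at h2
    refine ⟨k, ?_⟩
    linarith

theorem per0 (H : FibForm F ψ h) (a : (spS n).Plot (r + 1)) (hF : ∀ i, FOK (fun x => F.Q (a.1 x)) i) :
    ∃ k : ℤ, cI (r + 1) (Om.on h a) = k := per0' H a fun i => Or.inl (hF i)

end Pool.Agent.Lib.MP_ccbbf6_gt.L5.PE

namespace Pool.Agent.Lib.MP_ccbbf6_gt.L5

export PE (per0)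

end Pool.Agent.Lib.MP_ccbbf6_gt.L5
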