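import Pool.Agent.Lib.MP_ccbbf6_gt.L5.G4a
import Pool.Agent.Lib.MP_ccbbf6_gt.L5.PER06
import Pool.Agent.Lib.MP_ccbbf6_gt.L5.PER07

/-!
# Level 5, block PER, part 8: the periods of `u` are integers

`FM F i`: boundary condition in the direction `i` for `F : (spM 𝒜).Plot (r + 1)`: `FOK F.1 i` (each of the two faces does
not depend on one of the other coordinates, or the two faces agree), or all forms of degree `r` on `M` vanish on both faces.
`per`: then `cI (r + 1) (Om.on u F)` is an integer.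
-/

set_option autoImplicit false
set_option linter.unusedSectionVars false
set_option linter.unusedVariables false

open Set Filter Topology Metric Real Module MeasureTheory
open scoped ContDiff RealInnerProductSpace ENNReal

noncomputable section

namespace Pool.Agent.Lib.MP_ccbbf6_gt.L5.PE

open Geo L4 L4.FR L4.ORI G4

variable {n κ r : ℕ} {M : Type} [MetricSpace M] [CompactSpace M] {𝒜 : SDist n M}

/-- a plot of small dimension misses a point -/
theorem exists_not_range {k : ℕ} (hkn : k < n) (F : (spM 𝒜).Plot k) : ∃ p : M, ∀ z, F.1 z ≠ p := by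
  obtain ⟨f, hf⟩ : ∃ f : V k → M, f = F.1 := ⟨_, rfl⟩
  have hfs : Sm 𝒜 f := by rw [hf]; exact F.2
  obtain ⟨q, hq⟩ : ∃ q : M, q = f 0 := ⟨_, rfl⟩
  let W : Set (V k) := f ⁻¹' (𝒜.ψ q).source
  let g : V k → Eu n := fun z => 𝒜.ψ q (f z)
  have h1 : dimH (g '' W) ≤ dimH W := by
    refine dimH_image_le_of_locally_lipschitzOn fun x hx => ?_
    have h2 : ContDiffAt ℝ ∞ g x := SmAt.chart (hfs x) hx
    obtain ⟨K, t, ht, hK⟩ := (h2.of_le (m := 1) (by exact_mod_cast le_top)).exists_lipschitzOnWith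
    exact ⟨K, t, mem_nhdsWithin_of_mem_nhds ht, hK⟩
  have h2 : dimH (g '' W) < finrank ℝ (Eu n) := by
    refine lt_of_le_of_lt (h1.trans (dimH_mono (subset_univ W))) ?_
    rw [Real.dimH_univ_eq_finrank, finrank_fin_fun, finrank_euclideanSpace_fin]
    exact_mod_cast hkn
  have h3 : ((𝒜.ψ q).target).Nonempty := ⟨𝒜.ψ q q, (𝒜.ψ q).map_source (𝒜.mem q)⟩
  obtain ⟨w, hw1, hw2⟩ := (dense_compl_of_dimH_lt_finrank h2).inter_open_nonempty _ (𝒜.ψ q).open_target h3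
  refine ⟨(𝒜.ψ q).symm w, fun z hz => hw2 ?_⟩
  have hz' : f z = (𝒜.ψ q).symm w := by rw [hf]; exact hz
  refine ⟨z, ?_, ?_⟩
  · change f z ∈ (𝒜.ψ q).source
    rw [hz']
    exact (𝒜.ψ q).map_target hw1
  · change 𝒜.ψ q (f z) = w
    rw [hz', (𝒜.ψ q).right_inv hw1]

/-- boundary condition for plots of `M` -/
def FM (F : (spM 𝒜).Plot (r + 1)) (i : Fin (r + 1)) : Prop :=
  FOK F.1 i ∨ ∀ c : ℝ, (c = 0 ∨ c = 1) → ∀ th : Om (spM 𝒜), Deg r th → ∀ x ∈ Icc (0 : V (r + 1)) 1, x i = c →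
    topE (r + 1) (ee i * ev x (Om.on th F)) = 0

/-- Stokes for a form which is given on an open subset -/
theorem cI_dd_FM (hB : Bl M) {F : (spM 𝒜).Plot (r + 1)} (hF : ∀ i, FM F i) {U : Set M} (hU : IsOpen U)
    {th : Om (sub (spM 𝒜) U)} (hth : Deg r th) (R : (sub (spM 𝒜) U).Plot (r + 1)) (hR : ∀ z, (R.1 z).1 = F.1 z) :
    cI (r + 1) (dd (r + 1) (Om.on th R)) = 0 := by
  rw [cI_dd']
  refine Finset.sum_eq_zero fun i _ => ?_
  rcases hF i with h | h
  · have h1 : FOK R.1 i := by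
      rcases h with h | h
      · left
        intro c hc
        obtain ⟨j, hj, h2⟩ := h c hc
        refine ⟨j, hj, fun x hx hxi t ht => Subtype.ext ?_⟩
        rw [hR, hR]
        exact h2 x hx hxi t ht
      · right
        intro x hx hxi
        refine Subtype.ext ?_
        rw [hR, hR]
        exact h x hx hxi
    rw [FE_on th R h1, sub_self, mul_zero]
  · have h0 : ∀ c : ℝ, (c = 0 ∨ c = 1) → cI r (pb (emb i c) (Om.on th R)) = 0 := by
      intro c hc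
      refine (cI_congr (τ := 0) fun x hx => ?_).trans cI_zero
      have h2 := face_loc hB (F := F) (i := i) (x := emb i c x)
        (fun th' hth' => h c hc th' hth' _ (insertNth_mem_cube hc hx) (emb_same _ _ _)) hU hth R (Eventually.of_forall hR)
      have h3 := top_emb i c x (Om.on th R)
      rw [← emb_apply, h2] at h3
      rw [map_zero (ev x), map_zero]
      rcases mul_eq_zero.1 h3.symm with h4 | h4
      · exact absurd h4 (pow_ne_zero _ (by norm_num))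
      · exact h4
    rw [h0 1 (Or.inr rfl), h0 0 (Or.inl rfl), sub_self, mul_zero]

section geo

variable {hB : Bl M} {u : Om (spM 𝒜)} {g : (spVF 𝒜 r).pt → ℝ}

/-- the planes are continuous on `M - p` -/
theorem continuousAt_prX (hB : Bl M) (hk : 𝒜.HK κ) (p : M) {y : M} (hy : y ≠ p) : ContinuousAt (prX 𝒜 p) y := by
  have h1 := DirFun.smooth0 hB hk (dirF_spec p (G := fun v => (𝒜.PV p v).starProjection) (prX_same hB p))
    (fun w hw => contDiffAt_PV 𝒜 hB hk p hw) hy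
  have h2 : ContinuousAt (fun z => prX 𝒜 p ((𝒜.ψ y).symm z)) (𝒜.ψ y y) := by
    rw [𝒜.zero y]
    exact h1.continuousAt
  have h3 : ContinuousAt (fun x => prX 𝒜 p ((𝒜.ψ y).symm (𝒜.ψ y x))) y :=
    ContinuousAt.comp (g := fun z => prX 𝒜 p ((𝒜.ψ y).symm z)) h2 ((𝒜.ψ y).continuousAt (𝒜.mem y))
  refine h3.congr ?_
  filter_upwards [(𝒜.ψ y).open_source.mem_nhds (𝒜.mem y)] with x hx
  rw [(𝒜.ψ y).left_inv hx]

/-- the set on which the section `prX v` does not vanish -/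
def Uv (𝒜 : SDist n M) (p : M) (v : Eu n) : Set M := {y | y ≠ p ∧ prX 𝒜 p y v ≠ 0}

theorem isOpen_Uv (hB : Bl M) (hk : 𝒜.HK κ) (p : M) (v : Eu n) : IsOpen (Uv 𝒜 p v) := by
  rw [isOpen_iff_mem_nhds]
  rintro y ⟨hy, hyv⟩
  have h1 : ContinuousAt (fun x => prX 𝒜 p x v) y :=
    (continuousAt_prX hB hk p hy).clm_apply continuousAt_const
  filter_upwards [h1.eventually_ne hyv, isOpen_ne.mem_nhds hy] with x hx1 hx2
  exact ⟨hx2, hx1⟩

/-- the normalised section -/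
def gv (hB : Bl M) (hk : 𝒜.HK κ) (p : M) (v : Eu n) : SMap (sub (spM 𝒜) (Uv (M := M) 𝒜 p v)) (spS n) :=
  ⟨fun y => ⟨‖prX (M := M) 𝒜 p y.1 v‖⁻¹ • prX (M := M) 𝒜 p y.1 v, normv y.2.2⟩, fun k P => by
    have h1 : ContDiff ℝ ∞ fun z => prX (M := M) 𝒜 p (P.1 z).1 v :=
      (contDiff_prX hB hk p (⟨fun z => ⟨(P.1 z).1, (P.1 z).2.1⟩, P.2⟩ : (spP 𝒜 p).Plot k)).clm_apply contDiff_const
    exact contDiff_nz h1 fun z => (P.1 z).2.2⟩

/-- **the periods of `u` are integers** -/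
theorem per (hk : 𝒜.HK r) (hodd : Odd r) (h2 : 2 ≤ r) (hrn : r + 1 < n) (hU : UD 𝒜 hB r u g) (F : (spM 𝒜).Plot (r + 1))
    (hF : ∀ i, FM F i) : ∃ k : ℤ, cI (r + 1) (Om.on u F) = k := by
  obtain ⟨p, hp⟩ := exists_not_range hrn F
  let F' : (spP 𝒜 p).Plot (r + 1) := ⟨fun z => ⟨F.1 z, hp z⟩, F.2⟩
  have hF'F : ∀ z, (F'.1 z).1 = F.1 z := fun _ => rfl
  -- a frame of the planes
  obtain ⟨w, hw, hw1⟩ := exists_w (𝒜 := 𝒜) hB (hp 0)
  obtain ⟨L, hL, hLm⟩ := exists_LP 𝒜 hB hk p hw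
  have hQL : (prX 𝒜 p (F.1 0)).comp L = L := ContinuousLinearMap.ext fun v => by
    rw [prX_eq hB (hp 0) hw hw1]
    exact Submodule.starProjection_eq_self_iff.2 (hLm v)
  have hLi : ∀ b, L b = 0 → b = 0 := fun b hb => by rw [← norm_eq_zero, ← hL, hb, norm_zero]
  obtain ⟨κ', B, hκ', hBs, hB0, hQB, hBi⟩ := exists_frame (contDiff_prX hB hk p F')
    (fun z => prX_idem hB p (hp z)) hQL hLi
  -- a lift to the unit sphere
  have he : ∀ z, B z (EuclideanSpace.single 0 1) ≠ 0 := fun z h0 => by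
    have h3 := congrArg norm (hBi z _ h0)
    simp at h3
  let a : (spS n).Plot (r + 1) := nzP (g := fun z => B z (EuclideanSpace.single 0 1)) (hBs.clm_apply contDiff_const) he
  have ha : ∀ z, prX 𝒜 p (F.1 (κ' z)) (a.1 z).1 = (a.1 z).1 := fun z => by
    change prX 𝒜 p (F.1 (κ' z)) (‖B z (EuclideanSpace.single 0 1)‖⁻¹ • B z (EuclideanSpace.single 0 1)) = _
    rw [map_smul]
    have h3 : prX 𝒜 p (F.1 (κ' z)) (B z (EuclideanSpace.single 0 1)) = B z (EuclideanSpace.single 0 1) :=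
      DFunLike.congr_fun (hQB z) _
    rw [h3]
    rfl
  have hQa : ∀ z, (FibP 𝒜 hB hk p).Q (a.1 z) = prX 𝒜 p (F.1 (κ' z)) := fun z =>
    PV_prX hB p (hp _) (ne_of_norm_one (a.1 z).2) (ha z)
  have hEa : ∀ z, 𝒜.Ex p (rad π (a.1 z).1) = cutp (M := M) p (F.1 (κ' z)) := fun z =>
    Ex_prX hB p (hp _) (ne_of_norm_one (a.1 z).2) (ha z)
  have H := fibForm (hB := hB) hk hodd h2 hU p
  -- the form
  have hon : Om.on (dO _ (psP1 hB u p)) a = pb κ' (Om.on ((cM hB hk p).pull u) F') := by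
    have h3 : dO _ (psP1 hB u p) = (iS n).pull ((ER hB p).pull ((tpG hB).pull u)) := by
      rw [ER_tp hU, ← pull_d]
      rfl
    rw [h3, on_pull, on_pull, on_pull, ← on_cmp, on_pull]
    congr 1
    refine Plot_ext fun z => ?_
    change (tpG hB).1 ((ER hB p).1 ((iS n).1 (a.1 z))) = cutp (M := M) p (F.1 (κ' z))
    rw [tpG_apply, ← hEa]
    change 𝒜.gv p (‖(a.1 z).1‖⁻¹ • (a.1 z).1) π = _
    rw [(a.1 z).2, inv_one, one_smul, Ex_rad_of_norm hB (a.1 z).2]
  have hcI : cI (r + 1) (Om.on (dO _ (psP1 hB u p)) a) = cI (r + 1) (Om.on u F) := by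
    rw [hon]
    have h3 : cI (r + 1) (pb κ' (Om.on ((cM hB hk p).pull u) F')) = cI (r + 1) (Om.on ((cM hB hk p).pull u) F') :=
      cI_congr fun x hx => by rw [ev_pb_id (hκ' x hx)]
    have h4 : cI (r + 1) (dd (r + 1) (Om.on (KO (spP 𝒜 p) ((cH hB hk p).pull u)) F')) = 0 :=
      cI_dd_FM hB hF (U := {y : M | y ≠ p}) isOpen_ne (th := KO (spP 𝒜 p) ((cH hB hk p).pull u))
        (Deg_K (Deg_pull _ hU.deg)) F' hF'F
    rw [h3, cut_homotopy hB hk p hU.closed, on_add, cI_add, on_d, h4, add_zero]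
    rfl
  rw [← hcI]
  refine per0' H a fun i => ?_
  rcases hF i with h | h
  · left
    refine (h.map (fun y => prX (M := M) 𝒜 p y)).congr fun x hx => ?_
    rw [hQa, (hκ' x hx).self_of_nhds]
  · right
    intro v x hx hxi hv R hR
    have hκx := (hκ' x hx).self_of_nhds
    rw [hQa, hκx] at hv
    have hxU : F.1 x ∈ Uv (M := M) 𝒜 p v := ⟨hp x, hv⟩
    obtain ⟨s, hs1, hs2⟩ := exists_sq x ((OpenU_of_isOpen (𝒜 := 𝒜) (isOpen_Uv hB hk p v) _ F).mem_nhds hxU)
    let R' : (sub (spM 𝒜) (Uv (M := M) 𝒜 p v)).Plot (r + 1) := ⟨fun z => ⟨F.1 (s z), hs2 z⟩, (spM 𝒜).pre F.2 s⟩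
    have h3 := face_loc hB (F := F) (i := i) (x := x) (fun th hth => h (x i) hxi th hth x hx rfl)
      (isOpen_Uv hB hk p v) (th := (gv hB hk p v).pull (psP1 hB u p)) (Deg_pull _ H.deg) R'
      (by filter_upwards [hs1] with z hz; change F.1 (s z) = F.1 z; rw [hz])
    rw [on_pull] at h3
    rw [← h3]
    congr 2
    refine ev_on_congr _ ?_
    filter_upwards [hR, hs1, hκ' x hx] with z hz1 hz2 hz3
    refine Subtype.ext ?_
    rw [hz1, hQa, hz3]
    change _ = ‖prX 𝒜 p (F.1 (s z)) v‖⁻¹ • prX 𝒜 p (F.1 (s z)) v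
    rw [hz2]

end geo

end Pool.Agent.Lib.MP_ccbbf6_gt.L5.PE

namespace Pool.Agent.Lib.MP_ccbbf6_gt.L5

export PE (per FM)

end Pool.Agent.Lib.MP_ccbbf6_gt.L5
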