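import Pool.Agent.Lib.MP_ccbbf6_gt.L4.PO2

namespace Pool.Agent.Lib.MP_ccbbf6_gt.L4.ORI
end Pool.Agent.Lib.MP_ccbbf6_gt.L4.ORI

/-!
# NA1: vector valued rotations, the field and its flow (Level 5, push-off)
-/

set_option autoImplicit false
set_option linter.unusedSectionVars false

open Set Filter Topology Metric Real
open scoped ContDiff RealInnerProductSpace

noncomputable section

namespace Pool.Agent.Lib.MP_ccbbf6_gt.L5

open Geo L4 L4.ORI

variable {n : ℕ} {M : Type*} [MetricSpace M] [CompactSpace M] (𝒜 : SDist n M)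
variable {E : Type} [NormedAddCommGroup E] [NormedSpace ℝ E]

/-- rotations of geodesics in the direction of the vectors `k x c` orthogonal to `c` in the plane of `c` -/
structure RotX (k : E → Gs M → Eu n) (R : E → Gs M → Gs M) : Prop where
  smooth : ∀ (E' : Type) [NormedAddCommGroup E'] [NormedSpace ℝ E'] (σ : E' → Gs M) (x : E' → E) (u : E'),
    SmGAt 𝒜 σ u → ContDiffAt ℝ ∞ x u → SmGAt 𝒜 (fun v => R (x v) (σ v)) u
  zero : ∀ c, R 0 c = c
  foot : ∀ x c, (R x c).1 0 = c.1 0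
  top : ∀ x c, (R x c).1 π = c.1 π
  vel : ∀ x c, ∃ N : ℝ, 0 < N ∧ 𝒜.vel c.1 0 + k x c = N • 𝒜.vel (R x c).1 0
  ksmul : ∀ (a : ℝ) x c, k (a • x) c = a • k x c

/-- the derivative at `0` of the rotation about `c b` in the direction of `x` -/
def JXr (R : E → Gs M → Gs M) (x : E) (c : Gs M) (b : ℝ) : Eu n :=
  deriv (fun τ : ℝ => 𝒜.ψ (c.1 0) ((R (τ • x) (shift b c)).1 (-b))) 0

/-- the second order part of the speed -/
def Lam (k : E → Gs M → Eu n) (R : E → Gs M → Gs M) (c : Gs M) (x : E) : ℝ :=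
  -∫ b in (0 : ℝ)..π, ⟪k x c, JXr 𝒜 R x c b⟫

section

variable {𝒜}
variable [Nonempty (Gs M)] (e : Emb n 𝒜)

/-- the rotation field -/
def FBX (R : E → Gs M → Gs M) (x : E) (y : e.Q) : e.Q := deriv (fun s : ℝ => e.EE (R (s • x) (e.RR y))) 0

variable {k : E → Gs M → Eu n} {R : E → Gs M → Gs M}

theorem smooth_line (hR : RotX 𝒜 k R) {E' : Type} [NormedAddCommGroup E'] [NormedSpace ℝ E'] {σ : E' → Gs M} {u : E'}
    (h : SmGAt 𝒜 σ u) {x : E' → E} (hx : ContDiffAt ℝ ∞ x u) (s : ℝ) :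
    SmGAt 𝒜 (fun z : E' × ℝ => R (z.2 • x z.1) (σ z.1)) (u, s) :=
  hR.smooth (E' × ℝ) (fun z => σ z.1) (fun z => z.2 • x z.1) (u, s)
    (SmGAt.comp (σ := σ) (f := fun z : E' × ℝ => z.1) (v := (u, s)) h contDiffAt_fst)
    (contDiffAt_snd.smul (ContDiffAt.comp (g := x) (f := fun z : E' × ℝ => z.1) (u, s) hx contDiffAt_fst))

/-- one variable -/
theorem smooth_line0 (hR : RotX 𝒜 k R) (c : Gs M) (x : E) (s : ℝ) : SmGAt 𝒜 (fun s : ℝ => R (s • x) c) s :=
  hR.smooth ℝ (fun _ => c) (fun s => s • x) s (smGAt_const c s) (contDiffAt_id.smul contDiffAt_const)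

theorem smooth_FBX (hB : Bl M) (hR : RotX 𝒜 k R) {y : e.Q} (hy : y ∈ e.UU) (x : E) :
    ContDiffAt ℝ ∞ (fun z : e.Q × E => FBX e R z.2 z.1) (y, x) := by
  have h1 : SmGAt 𝒜 (fun z : e.Q × E => e.RR z.1) (y, x) :=
    SmGAt.comp (σ := e.RR) (f := fun z : e.Q × E => z.1) (v := (y, x)) (e.smG_RR hB hy) contDiffAt_fst
  exact PO.contDiffAt_deriv2' (g := fun z : (e.Q × E) × ℝ => e.EE (R (z.2 • z.1.2) (e.RR z.1.1)))
    (e.smooth_EE (smooth_line hR h1 (x := fun z : e.Q × E => z.2) contDiffAt_snd 0))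

/-- the field is linear in the direction -/
theorem FBX_lin (hR : RotX 𝒜 k R) (y : e.Q) : ∃ T : E →L[ℝ] e.Q, ∀ x, FBX e R x y = T x := by
  have h1 : ContDiffAt ℝ ∞ (fun x : E => e.EE (R x (e.RR y))) 0 :=
    e.smooth_EE (hR.smooth E (fun _ => e.RR y) (fun x => x) 0 (smGAt_const _ _) contDiffAt_id)
  refine ⟨fderiv ℝ (fun x : E => e.EE (R x (e.RR y))) 0, fun x => ?_⟩
  have h2 : HasDerivAt (fun s : ℝ => s • x) x 0 := by
    have := (hasDerivAt_id (0 : ℝ)).smul_const x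
    rwa [one_smul] at this
  have h3 : HasFDerivAt (fun x : E => e.EE (R x (e.RR y))) (fderiv ℝ (fun x : E => e.EE (R x (e.RR y))) 0)
      ((fun s : ℝ => s • x) 0) := by
    show HasFDerivAt (fun x : E => e.EE (R x (e.RR y))) _ ((0 : ℝ) • x)
    rw [zero_smul]
    exact (h1.differentiableAt (by simp)).hasFDerivAt
  exact (HasFDerivAt.comp_hasDerivAt (0 : ℝ) h3 h2).deriv

theorem FBX_smul (hR : RotX 𝒜 k R) (a : ℝ) (x : E) (y : e.Q) : FBX e R (a • x) y = a • FBX e R x y := by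
  obtain ⟨T, hT⟩ := FBX_lin e hR y
  rw [hT, hT, map_smul]

/-- the image of the curve `shift s (R (s • x) c)` -/
theorem curveX (hB : Bl M) (hR : RotX 𝒜 k R) (c : Gs M) (x : E) :
    HasDerivAt (fun s : ℝ => e.EE (shift s (R (s • x) c))) (e.FA (e.EE c) + FBX e R x (e.EE c)) 0 := by
  have h1 : ∀ z : ℝ × ℝ, SmGAt 𝒜 (fun z : ℝ × ℝ => shift z.1 (R (z.2 • x) c)) z := fun z =>
    (hR.smooth (ℝ × ℝ) (fun _ => c) (fun z => z.2 • x) z (smGAt_const c z) (contDiffAt_snd.smul contDiffAt_const)).shift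
      hB contDiffAt_fst
  have h2 := e.smooth_EE (h1 (0, 0))
  have h3 : DifferentiableAt ℝ (fun z : ℝ × ℝ => e.EE (shift z.1 (R (z.2 • x) c))) (0, 0) := h2.differentiableAt (by simp)
  have h6 := PO.two_var (g := fun z : ℝ × ℝ => e.EE (shift z.1 (R (z.2 • x) c))) (A := e.FA (e.EE c))
    (B := FBX e R x (e.EE c)) h3 ?_ ?_ 1
  · simpa only [one_mul, one_smul] using h6
  · have h4 : ContDiffAt ℝ ∞ (fun s : ℝ => e.EE (shift s c)) 0 :=
      e.smooth_EE ((smGAt_const c (0 : ℝ)).shift hB (r := fun s => s) contDiffAt_id)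
    have h5 := (h4.differentiableAt (by simp)).hasDerivAt
    simp only [zero_smul, hR.zero]
    unfold Emb.FA
    simp only [e.RR_EE hB]
    exact h5
  · have h4 : ContDiffAt ℝ ∞ (fun s : ℝ => e.EE (R (s • x) c)) 0 := e.smooth_EE (smooth_line0 hR c x 0)
    have h5 := (h4.differentiableAt (by simp)).hasDerivAt
    simp only [shift_zero]
    unfold FBX
    simp only [e.RR_EE hB]
    exact h5

/-- derivative of a function on the ambient space along the curve -/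
theorem dirX (hB : Bl M) (hR : RotX 𝒜 k R) (c : Gs M) (x : E) {G : Type*} [NormedAddCommGroup G] [NormedSpace ℝ G]
    {h : e.Q → G} (hh : DifferentiableAt ℝ h (e.EE c)) :
    HasDerivAt (fun s : ℝ => h (e.EE (shift s (R (s • x) c)))) (fderiv ℝ h (e.EE c) (e.FA (e.EE c) + FBX e R x (e.EE c))) 0 := by
  have h0 : e.EE (shift 0 (R ((0 : ℝ) • x) c)) = e.EE c := by rw [zero_smul, hR.zero, shift_zero]
  have h1 : HasFDerivAt h (fderiv ℝ h (e.EE c)) (e.EE (shift 0 (R ((0 : ℝ) • x) c))) := by rw [h0]; exact hh.hasFDerivAt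
  exact HasFDerivAt.comp_hasDerivAt (l := h) (f := fun s : ℝ => e.EE (shift s (R (s • x) c))) 0 h1 (curveX e hB hR c x)

theorem FBX_PP (hB : Bl M) (x : E) (y : e.Q) : FBX e R x (e.PP y) = FBX e R x y := by
  unfold FBX Emb.PP
  rw [e.RR_EE hB]

theorem D_PPX (hB : Bl M) (hR : RotX 𝒜 k R) (c : Gs M) (x : E) :
    fderiv ℝ e.PP (e.EE c) (e.FA (e.EE c) + FBX e R x (e.EE c)) = e.FA (e.EE c) + FBX e R x (e.EE c) := by
  have h1 : DifferentiableAt ℝ e.PP (e.EE c) := (e.smooth_PP hB (e.EE_mem c)).differentiableAt (by simp)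
  have h2 := dirX e hB hR c x h1
  simp only [e.PP_EE hB] at h2
  exact h2.unique (curveX e hB hR c x)

variable (R)

/-- the flow in the ambient space; `ρ x • x` is the direction belonging to the parameter `x` -/
structure PFlowX (χ : e.Q → ℝ) (ρ : E → ℝ) (Ξ : ℝ → E → e.Q → e.Q) : Prop where
  smooth : ContDiff ℝ ∞ (fun z : (ℝ × E) × e.Q => Ξ z.1.1 z.1.2 z.2)
  zero : ∀ x y, Ξ 0 x y = y
  add : ∀ s t x y, Ξ (s + t) x y = Ξ s x (Ξ t x y)
  der : ∀ t x y, HasDerivAt (fun s => Ξ s x y) (χ (Ξ t x y) • (e.FA (Ξ t x y) + FBX e R (ρ x • x) (Ξ t x y))) t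
  one : ∀ c, χ (e.EE c) = 1
  bdd : ∃ C, ∀ x y, ‖χ y • (e.FA y + FBX e R (ρ x • x) y)‖ ≤ C
  rsm : ContDiff ℝ ∞ ρ
  rone : ∀ᶠ x in 𝓝 (0 : E), ρ x = 1

variable {R}

theorem exists_pflowX [FiniteDimensional ℝ E] (hB : Bl M) (hR : RotX 𝒜 k R) :
    ∃ (χ : e.Q → ℝ) (ρ : E → ℝ) (Ξ : ℝ → E → e.Q → e.Q), PFlowX e R χ ρ Ξ := by
  obtain ⟨χ, hχ, hχ1, hχc, hχs⟩ := PO.exists_cut (isCompact_range e.continuous_EE) e.isOpen_UU
    (range_subset_iff.mpr e.EE_mem)
  obtain ⟨ρ, hρ, hρ1, hρc, hρs⟩ := PO.exists_cut (E := E) (K := closedBall 0 1) (U := univ)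
    (have : ProperSpace E := FiniteDimensional.proper_real E; isCompact_closedBall 0 1) isOpen_univ (subset_univ _)
  let G0 : e.Q × E → e.Q := fun z => e.FA z.1 + FBX e R (ρ z.2 • z.2) z.1
  let G1 : e.Q × E → e.Q := fun z => FBX e R (ρ z.2 • z.2) z.1
  have hbs : ContDiff ℝ ∞ (fun x : E => ρ x • x) := hρ.smul contDiff_id
  have hχ' : ContDiff ℝ ∞ (fun z : e.Q × E => χ z.1) := hχ.comp contDiff_fst
  have hts : ∀ z : e.Q × E, z ∈ tsupport (fun z : e.Q × E => χ z.1) → z.1 ∈ tsupport χ := by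
    intro z hz
    have h1 : tsupport (fun z : e.Q × E => χ z.1) ⊆ Prod.fst ⁻¹' tsupport χ :=
      closure_minimal (fun w hw => subset_tsupport χ hw) ((isClosed_tsupport χ).preimage continuous_fst)
    exact h1 hz
  have hG1s : ∀ z : e.Q × E, z.1 ∈ e.UU → ContDiffAt ℝ ∞ G1 z := by
    rintro ⟨y, x⟩ hy
    refine ContDiffAt.comp (g := fun z : e.Q × E => FBX e R z.2 z.1) (f := fun z : e.Q × E => (z.1, ρ z.2 • z.2)) (y, x)
      (smooth_FBX e hB hR hy _) ?_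
    exact contDiffAt_fst.prodMk (ContDiffAt.comp (g := fun x : E => ρ x • x) (f := fun z : e.Q × E => z.2) (y, x)
      hbs.contDiffAt contDiffAt_snd)
  have hG0s : ∀ z : e.Q × E, z.1 ∈ e.UU → ContDiffAt ℝ ∞ G0 z := by
    intro z hz
    refine ContDiffAt.add ?_ (hG1s z hz)
    exact ContDiffAt.comp (g := e.FA) (f := fun z : e.Q × E => z.1) z (e.smooth_FA hB hz) contDiffAt_fst
  have hF : ContDiff ℝ ∞ (fun z : e.Q × E => χ z.1 • G0 z) := PO.contDiff_cut hχ' fun z hz => hG0s z (hχs (hts z hz))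
  obtain ⟨CA, hCA⟩ := PO.bounded_cut hχ hχc fun y hy => e.smooth_FA hB (hχs hy)
  -- bound of the rotation part
  obtain ⟨CB, hCB⟩ : ∃ C, ∀ z : e.Q × E, ‖χ z.1 • G1 z‖ ≤ C := by
    have h1 : ContDiff ℝ ∞ (fun z : e.Q × E => χ z.1 • G1 z) := PO.contDiff_cut hχ' fun z hz => hG1s z (hχs (hts z hz))
    have h2 : HasCompactSupport (fun z : e.Q × E => χ z.1 • G1 z) := by
      refine HasCompactSupport.intro (K := tsupport χ ×ˢ tsupport ρ) (hχc.prod hρc) ?_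
      rintro ⟨y, x⟩ hz
      rw [mem_prod, not_and_or] at hz
      rcases hz with hz | hz
      · simp only [image_eq_zero_of_notMem_tsupport hz, zero_smul]
      · simp only [G1, image_eq_zero_of_notMem_tsupport hz, zero_smul]
        have h3 : FBX e R (0 : E) y = 0 := by
          obtain ⟨T, hT⟩ := FBX_lin e hR y
          rw [hT, map_zero]
        rw [h3, smul_zero]
    exact h2.exists_bound_of_continuous h1.continuous
  have hbd : ∀ x y, ‖χ y • (e.FA y + FBX e R (ρ x • x) y)‖ ≤ CA + CB := by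
    intro x y
    rw [smul_add]
    exact (norm_add_le _ _).trans (add_le_add (hCA y) (hCB (y, x)))
  let G : E × e.Q → E × e.Q := fun z => (0, χ z.2 • G0 (z.2, z.1))
  have hG : ContDiff ℝ ∞ G := contDiff_const.prodMk (hF.comp (contDiff_snd.prodMk contDiff_fst))
  have hGe : ∀ x y, G (x, y) = (0, χ y • (e.FA y + FBX e R (ρ x • x) y)) := fun x y => rfl
  have hGb : ∀ z, ‖G z‖ ≤ CA + CB := by
    rintro ⟨x, y⟩
    rw [hGe, Prod.norm_mk, norm_zero]
    exact max_le ((norm_nonneg _).trans (hbd x y)) (hbd x y)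
  have : CompleteSpace E := FiniteDimensional.complete ℝ E
  obtain ⟨Φ, hΦ, hΦ0, hΦd, hΦa⟩ := Pool.Agent.BL.Flow.exists_flow_of_bounded (n := (⊤ : ℕ∞)) (by simp) hG hGb
  have hfst : ∀ t z, (Φ t z).1 = z.1 := by
    intro t z
    have h1 : ∀ t, HasDerivAt (fun s => (Φ s z).1) 0 t := fun t => (hΦd t z).fst
    have h2 := is_const_of_deriv_eq_zero (f := fun s => (Φ s z).1) (fun t => (h1 t).differentiableAt)
      (fun t => (h1 t).deriv) t 0
    simp only [hΦ0] at h2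
    exact h2
  have heq : ∀ t x y, Φ t (x, y) = (x, (Φ t (x, y)).2) := fun t x y => Prod.ext (hfst t (x, y)) rfl
  refine ⟨χ, ρ, fun t x y => (Φ t (x, y)).2, ⟨?_, ?_, ?_, ?_, ?_, ⟨_, hbd⟩, hρ, ?_⟩⟩
  · have h1 : ContDiff ℝ ∞ (fun z : (ℝ × E) × e.Q => (z.1.1, (z.1.2, z.2))) := by fun_prop
    exact (hΦ.comp h1).snd
  · intro x y
    simp only [hΦ0]
  · intro s t x y
    show (Φ (s + t) (x, y)).2 = (Φ s (x, (Φ t (x, y)).2)).2
    rw [hΦa]
    exact congrArg (fun z => (Φ s z).2) (heq t x y)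
  · intro t x y
    have h1 := (hΦd t (x, y)).snd
    rw [heq t x y, hGe] at h1
    exact h1
  · intro c
    exact hχ1 _ ⟨c, rfl⟩
  · filter_upwards [closedBall_mem_nhds (0 : E) one_pos] with x hx
    exact hρ1 x hx

variable {e} {χ : e.Q → ℝ} {ρ : E → ℝ} {Ξ : ℝ → E → e.Q → e.Q}

/-- a solution starting on the image stays there for a while -/
theorem PFlowX.inv_loc (hB : Bl M) (hR : RotX 𝒜 k R) (h : PFlowX e R χ ρ Ξ) (x : E) (c : Gs M) :
    ∃ ε > 0, ∀ t ∈ Icc (0 : ℝ) ε, Ξ t x (e.EE c) = e.PP (Ξ t x (e.EE c)) := by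
  set y0 := e.EE c with hy0
  have hy0U : y0 ∈ e.UU := e.EE_mem c
  have hP := e.smooth_PP hB hy0U
  have hP1 : ContDiffAt ℝ 1 (fderiv ℝ e.PP) y0 := (hP.fderiv_right (m := ∞) (by simp)).of_le (by simp)
  obtain ⟨K, N, hN, hLip⟩ := hP1.exists_lipschitzOnWith
  obtain ⟨C, hC⟩ := h.bdd
  have hPP0 : e.PP y0 = y0 := e.PP_EE hB c
  have hPN : ∀ᶠ y in 𝓝 y0, e.PP y ∈ N := by
    have : e.PP y0 = y0 := hPP0
    exact hP.continuousAt.eventually (by rw [this]; exact hN)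
  have hyc : ∀ t, ContinuousAt (fun s => Ξ s x y0) t := fun t => (h.der t x y0).continuousAt
  have hev : ∀ᶠ t in 𝓝 (0 : ℝ), Ξ t x y0 ∈ e.UU ∧ Ξ t x y0 ∈ N ∧ e.PP (Ξ t x y0) ∈ N := by
    have h0 : Ξ 0 x y0 = y0 := h.zero x y0
    have h1 : Tendsto (fun s => Ξ s x y0) (𝓝 0) (𝓝 y0) := by
      have := (hyc 0).tendsto
      rwa [h0] at this
    filter_upwards [h1.eventually (e.isOpen_UU.mem_nhds hy0U), h1.eventually hN, h1.eventually hPN] with t a b c
    exact ⟨a, b, c⟩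
  obtain ⟨ε, hε, hball⟩ := Metric.eventually_nhds_iff.mp hev
  have hI : ∀ t ∈ Icc (0 : ℝ) (ε / 2), Ξ t x y0 ∈ e.UU ∧ Ξ t x y0 ∈ N ∧ e.PP (Ξ t x y0) ∈ N := by
    intro t ht
    refine hball ?_
    rw [Real.dist_eq, sub_zero, abs_of_nonneg ht.1]
    linarith [ht.2]
  refine ⟨ε / 2, by positivity, ?_⟩
  let f : ℝ → e.Q := fun t => Ξ t x y0 - e.PP (Ξ t x y0)
  let F : e.Q → e.Q := fun y => χ y • (e.FA y + FBX e R (ρ x • x) y)
  have hd : ∀ t ∈ Icc (0 : ℝ) (ε / 2), HasDerivAt f (F (Ξ t x y0) - fderiv ℝ e.PP (Ξ t x y0) (F (Ξ t x y0))) t := by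
    intro t ht
    have h1 : HasFDerivAt e.PP (fderiv ℝ e.PP (Ξ t x y0)) (Ξ t x y0) :=
      ((e.smooth_PP hB (hI t ht).1).differentiableAt (by simp)).hasFDerivAt
    exact (h.der t x y0).sub (HasFDerivAt.comp_hasDerivAt (l := e.PP) (f := fun s => Ξ s x y0) t h1 (h.der t x y0))
  have hz := eq_zero_of_abs_deriv_le_mul_abs_self_of_eq_zero_right (f := f)
    (f' := fun t => F (Ξ t x y0) - fderiv ℝ e.PP (Ξ t x y0) (F (Ξ t x y0))) (K := K * C) (a := 0) (b := ε / 2)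
    (fun t ht => (hd t ht).continuousAt.continuousWithinAt)
    (fun t ht => (hd t ⟨ht.1, ht.2.le⟩).hasDerivWithinAt)
    (by simp only [f, h.zero, hPP0, sub_self]) ?_
  · intro t ht
    have := hz t ht
    simp only [f] at this
    exact sub_eq_zero.mp this
  · intro t ht
    obtain ⟨h1, h2, h3⟩ := hI t ⟨ht.1, ht.2.le⟩
    set y := Ξ t x y0 with hy
    have e1 : F y = fderiv ℝ e.PP (e.PP y) (F y) := by
      have h4 := D_PPX e hB hR (e.RR y) (ρ x • x)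
      have h5 : e.EE (e.RR y) = e.PP y := rfl
      rw [h5, e.FA_PP hB, FBX_PP e hB] at h4
      simp only [F]
      rw [map_smul, h4]
    have e2 : F y - fderiv ℝ e.PP y (F y) = (fderiv ℝ e.PP (e.PP y) - fderiv ℝ e.PP y) (F y) := by
      rw [sub_apply, ← e1]
    have e3 : ‖fderiv ℝ e.PP (e.PP y) - fderiv ℝ e.PP y‖ ≤ K * ‖y - e.PP y‖ := by
      have h6 := hLip.dist_le_mul (e.PP y) h3 y h2
      rwa [dist_eq_norm, dist_eq_norm, norm_sub_rev (e.PP y) y] at h6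
    have hCy : ‖F y‖ ≤ C := hC x y
    rw [e2]
    calc ‖(fderiv ℝ e.PP (e.PP y) - fderiv ℝ e.PP y) (F y)‖ ≤ ‖fderiv ℝ e.PP (e.PP y) - fderiv ℝ e.PP y‖ * ‖F y‖ :=
          ContinuousLinearMap.le_opNorm _ _
      _ ≤ (K * ‖y - e.PP y‖) * C := mul_le_mul e3 hCy (norm_nonneg _) (by positivity)
      _ = K * C * ‖f t‖ := by simp only [f]; rw [← hy]; ring

/-- the image of `Gs M` is invariant -/
theorem PFlowX.inv (hB : Bl M) (hR : RotX 𝒜 k R) (h : PFlowX e R χ ρ Ξ) (x : E) (c : Gs M) {T : ℝ} (hT : 0 ≤ T) :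
    Ξ T x (e.EE c) ∈ range e.EE := by
  have hcl : IsClosed (range e.EE) := (isCompact_range e.continuous_EE).isClosed
  have hcont : Continuous (fun t => Ξ t x (e.EE c)) :=
    continuous_iff_continuousAt.2 fun t => (h.der t x (e.EE c)).continuousAt
  have key := IsClosed.Icc_subset_of_forall_exists_gt (a := 0) (b := T) (s := {t | Ξ t x (e.EE c) ∈ range e.EE})
    ((hcl.preimage hcont).inter isClosed_Icc) (by show Ξ 0 x (e.EE c) ∈ range e.EE; rw [h.zero]; exact ⟨c, rfl⟩) ?_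
  · exact key ⟨hT, le_refl T⟩
  · rintro t ⟨⟨c', hc'⟩, -⟩ y hy
    obtain ⟨ε, hε, hin⟩ := h.inv_loc hB hR x c'
    have hxy : t < y := hy
    refine ⟨t + min ε (y - t), ?_, ?_⟩
    · have h1 : 0 ≤ min ε (y - t) := le_min hε.le (by linarith)
      have h2 := hin (min ε (y - t)) ⟨h1, min_le_left _ _⟩
      show Ξ (t + min ε (y - t)) x (e.EE c) ∈ range e.EE
      rw [add_comm, h.add, ← hc', h2]
      exact ⟨_, rfl⟩
    · have h1 : 0 < min ε (y - t) := lt_min hε (by linarith)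
      exact ⟨by linarith, by linarith [min_le_right ε (y - t)]⟩

end

end Pool.Agent.Lib.MP_ccbbf6_gt.L5
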