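import Pool.Agent.Lib.MP_ccbbf6_gt.L4.OriD
import Pool.Agent.Lib.MP_ccbbf6_gt.L4.PS
import Pool.Agent.Lib.MP_ccbbf6_gt.L5.NA1

/-!
# NA3: the fields `JXr`, the quadratic form `Lam` (Level 5, push-off)
-/

set_option autoImplicit false
set_option linter.unusedSectionVars false

open Set Filter Topology Metric Real
open scoped ContDiff RealInnerProductSpace

noncomputable section

namespace Pool.Agent.Lib.MP_ccbbf6_gt.L5

open Geo L4 L4.ORI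

variable {n : ℕ} {M : Type*} [MetricSpace M] [CompactSpace M] (𝒜 : SDist n M)
variable {E : Type} [NormedAddCommGroup E] [NormedSpace ℝ E]

section fields

variable {𝒜} {Z : Type*} [NormedAddCommGroup Z] [NormedSpace ℝ Z]

/-- the derivative of a smooth family of curves is a smooth field -/
theorem smV_deriv {g : Z × ℝ → M} {z0 : Z} (h : SmAt 𝒜 g (z0, 0)) {p : M} (hp : g (z0, 0) ∈ (𝒜.ψ p).source) :
    SmV 𝒜 p (fun z => g (z, 0)) (fun z => deriv (fun τ => 𝒜.ψ (g (z, 0)) (g (z, τ))) 0) z0 := by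
  have h1 : ContDiffAt ℝ ∞ (fun z : Z × ℝ => 𝒜.ψ p (g z)) (z0, 0) := h.chart hp
  have h4 := PO.contDiffAt_deriv2' (g := fun z : Z × ℝ => 𝒜.ψ p (g z)) h1
  unfold SmV
  refine h4.congr_of_eventuallyEq ?_
  have hc : Continuous (fun z : Z => (z, (0 : ℝ))) := by fun_prop
  have e1 : ∀ᶠ z in 𝓝 z0, DifferentiableAt ℝ (fun z : Z × ℝ => 𝒜.ψ p (g z)) (z, 0) :=
    (hc.tendsto z0).eventually (PO.eventually_diff h1)
  have e2 : ∀ᶠ w in 𝓝 (z0, (0 : ℝ)), g w ∈ (𝒜.ψ p).source := h.cont.eventually ((𝒜.ψ p).open_source.mem_nhds hp)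
  have e3 : ∀ᶠ z in 𝓝 z0, ∀ᶠ w in 𝓝 (z, (0 : ℝ)), g w ∈ (𝒜.ψ p).source :=
    (hc.tendsto z0).eventually (eventually_eventually_nhds.mpr e2)
  filter_upwards [e1, e3] with z z1 z3
  have hx : g (z, 0) ∈ (𝒜.ψ p).source := z3.self_of_nhds
  have d1 : HasDerivAt (fun τ => 𝒜.ψ p (g (z, τ))) (deriv (fun τ => 𝒜.ψ p (g (z, τ))) 0) 0 :=
    (PO.hasDerivAt_snd (g := fun z : Z × ℝ => 𝒜.ψ p (g z)) (z := (z, 0)) z1).differentiableAt.hasDerivAt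
  have d2 : HasDerivAt (fun τ => 𝒜.ψ (g (z, 0)) ((𝒜.ψ p).symm (𝒜.ψ p (g (z, τ)))))
      (DD 𝒜 p (g (z, 0)) (deriv (fun τ => 𝒜.ψ p (g (z, τ))) 0)) 0 :=
    HasFDerivAt.comp_hasDerivAt (l := fun u => 𝒜.ψ (g (z, 0)) ((𝒜.ψ p).symm u)) (f := fun τ => 𝒜.ψ p (g (z, τ))) 0
      (hasFDerivAt_DD 𝒜 hx) d1
  have e4 : ∀ᶠ τ in 𝓝 (0 : ℝ), g (z, τ) ∈ (𝒜.ψ p).source := by
    have hc' : Continuous (fun τ : ℝ => (z, τ)) := by fun_prop
    exact (hc'.tendsto 0).eventually z3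
  have d3 : HasDerivAt (fun τ => 𝒜.ψ (g (z, 0)) (g (z, τ)))
      (DD 𝒜 p (g (z, 0)) (deriv (fun τ => 𝒜.ψ p (g (z, τ))) 0)) 0 := by
    refine d2.congr_of_eventuallyEq ?_
    filter_upwards [e4] with τ hτ
    rw [(𝒜.ψ p).left_inv hτ]
  rw [d3.deriv, CC_DD 𝒜 hx]

theorem hasDerivAt_psi {g : ℝ → M} {x : M} (h : SmAt 𝒜 g 0) (h0 : g 0 = x) :
    HasDerivAt (fun τ => 𝒜.ψ x (g τ)) (deriv (fun τ => 𝒜.ψ x (g τ)) 0) 0 := by
  have h1 := h.2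
  rw [h0] at h1
  exact (h1.differentiableAt (by simp)).hasDerivAt

end fields

variable {k : E → Gs M → Eu n} {R : E → Gs M → Gs M}

theorem JX_foot (hR : RotX 𝒜 k R) (x : E) (c : Gs M) (b : ℝ) : (R ((0 : ℝ) • x) (shift b c)).1 (-b) = c.1 0 := by
  rw [zero_smul, hR.zero]
  show c.1 (-b + b) = c.1 0
  rw [neg_add_cancel]

theorem JX_smAt (hB : Bl M) (hR : RotX 𝒜 k R) (x : E) (c : Gs M) (b : ℝ) :
    SmAt 𝒜 (fun τ : ℝ => (R (τ • x) (shift b c)).1 (-b)) 0 := by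
  have : Nonempty (Gs M) := ⟨c⟩
  exact (smooth_line0 hR (shift b c) x 0).ev hB (t := fun _ => -b) contDiffAt_const

theorem JX_hasDerivAt (hB : Bl M) (hR : RotX 𝒜 k R) (x : E) (c : Gs M) (b : ℝ) :
    HasDerivAt (fun τ : ℝ => 𝒜.ψ (c.1 0) ((R (τ • x) (shift b c)).1 (-b))) (JXr 𝒜 R x c b) 0 :=
  hasDerivAt_psi (JX_smAt 𝒜 hB hR x c b) (JX_foot 𝒜 hR x c b)

/-- `JXr` is a smooth field -/
theorem JX_smV (hB : Bl M) (hR : RotX 𝒜 k R) {Z : Type} [NormedAddCommGroup Z] [NormedSpace ℝ Z] {σ : Z → Gs M}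
    {x : Z → E} {b : Z → ℝ} {z : Z} (hσ : SmGAt 𝒜 σ z) (hx : ContDiffAt ℝ ∞ x z) (hb : ContDiffAt ℝ ∞ b z) {p : M}
    (hp : (σ z).1 0 ∈ (𝒜.ψ p).source) :
    SmV 𝒜 p (fun v => (σ v).1 0) (fun v => JXr 𝒜 R (x v) (σ v) (b v)) z := by
  have h1 : SmGAt 𝒜 (fun w : Z × ℝ => σ w.1) (z, 0) :=
    SmGAt.comp (σ := σ) (f := fun w : Z × ℝ => w.1) (v := (z, 0)) hσ contDiffAt_fst
  have hb' : ContDiffAt ℝ ∞ (fun w : Z × ℝ => b w.1) (z, 0) :=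
    ContDiffAt.comp (g := b) (f := fun w : Z × ℝ => w.1) (z, 0) hb contDiffAt_fst
  have hx' : ContDiffAt ℝ ∞ (fun w : Z × ℝ => x w.1) (z, 0) :=
    ContDiffAt.comp (g := x) (f := fun w : Z × ℝ => w.1) (z, 0) hx contDiffAt_fst
  have h2 := h1.shift hB hb'
  have h3 : SmGAt 𝒜 (fun w : Z × ℝ => R (w.2 • x w.1) (shift (b w.1) (σ w.1))) (z, 0) :=
    hR.smooth (Z × ℝ) _ (fun w : Z × ℝ => w.2 • x w.1) (z, 0) h2 (contDiffAt_snd.smul hx')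
  have h4 := h3.ev hB (t := fun w : Z × ℝ => -b w.1) hb'.neg
  have h5 := smV_deriv (g := fun w : Z × ℝ => (R (w.2 • x w.1) (shift (b w.1) (σ w.1))).1 (-b w.1)) h4 (p := p)
    (by simp only [JX_foot 𝒜 hR]; exact hp)
  simp only [JX_foot 𝒜 hR] at h5
  exact h5

/-- `JXr` is linear in the direction -/
theorem JX_lin (hB : Bl M) (hR : RotX 𝒜 k R) (c : Gs M) (b : ℝ) : ∃ T : E →L[ℝ] Eu n, ∀ x, JXr 𝒜 R x c b = T x := by
  have h0 : SmGAt 𝒜 (fun x : E => R x (shift b c)) 0 :=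
    hR.smooth E (fun _ => shift b c) (fun x => x) 0 (smGAt_const _ _) contDiffAt_id
  have h1 := (h0.ev hB (t := fun _ => -b) contDiffAt_const).2
  have h2 : (R 0 (shift b c)).1 (-b) = c.1 0 := by
    have := JX_foot 𝒜 hR (0 : E) c b
    rwa [smul_zero] at this
  simp only [h2] at h1
  refine ⟨fderiv ℝ (fun x : E => 𝒜.ψ (c.1 0) ((R x (shift b c)).1 (-b))) 0, fun x => ?_⟩
  have h3 : HasDerivAt (fun s : ℝ => s • x) x 0 := by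
    have := (hasDerivAt_id (0 : ℝ)).smul_const x
    rwa [one_smul] at this
  have h4 : HasFDerivAt (fun x : E => 𝒜.ψ (c.1 0) ((R x (shift b c)).1 (-b)))
      (fderiv ℝ (fun x : E => 𝒜.ψ (c.1 0) ((R x (shift b c)).1 (-b))) 0) ((fun s : ℝ => s • x) 0) := by
    show HasFDerivAt (fun x : E => 𝒜.ψ (c.1 0) ((R x (shift b c)).1 (-b))) _ ((0 : ℝ) • x)
    rw [zero_smul]
    exact (h1.differentiableAt (by simp)).hasFDerivAt
  exact (HasFDerivAt.comp_hasDerivAt (0 : ℝ) h4 h3).deriv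

theorem JX_smul (hB : Bl M) (hR : RotX 𝒜 k R) (a : ℝ) (x : E) (c : Gs M) (b : ℝ) :
    JXr 𝒜 R (a • x) c b = a • JXr 𝒜 R x c b := by
  obtain ⟨T, hT⟩ := JX_lin 𝒜 hB hR c b
  rw [hT, hT, map_smul]

/-- distance of the rotated point -/
theorem JX_dist (hR : RotX 𝒜 k R) (x : E) (c : Gs M) {b : ℝ} (h0 : 0 < b) (h1 : b < π) :
    dist ((R x (shift b c)).1 (-b)) (c.1 b) = b := by
  have h2 := (R x (shift b c)).2 (-b) 0 (by rw [sub_zero, abs_neg, abs_of_pos h0]; exact h1.le)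
  rw [sub_zero, abs_neg, abs_of_pos h0, hR.foot] at h2
  have h3 : (shift b c).1 0 = c.1 b := by
    change c.1 (0 + b) = c.1 b
    rw [zero_add]
  rwa [h3] at h2

/-- Gauss lemma -/
theorem JX_gauss (hB : Bl M) (hR : RotX 𝒜 k R) (x : E) (c : Gs M) {b : ℝ} (h0 : 0 < b) (h1 : b < π) :
    ⟪𝒜.vel c.1 0, JXr 𝒜 R x c b⟫ = 0 := by
  obtain ⟨hp, hp'⟩ := ps_pos c h0.ne' (by rw [abs_of_pos h0]; exact h1)
  have h2 := ((sg_smooth 𝒜 hB hp hp').differentiableAt (by norm_num)).hasFDerivAt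
  have h3 := HasFDerivAt.comp_hasDerivAt_of_eq (0 : ℝ) h2 (JX_hasDerivAt 𝒜 hB hR x c b)
    (by rw [JX_foot 𝒜 hR, 𝒜.zero])
  have hm : ∀ᶠ τ in 𝓝 (0 : ℝ), (R (τ • x) (shift b c)).1 (-b) ∈ (𝒜.ψ (c.1 0)).source := by
    refine (JX_smAt 𝒜 hB hR x c b).cont.eventually ((𝒜.ψ (c.1 0)).open_source.mem_nhds ?_)
    show (R ((0 : ℝ) • x) (shift b c)).1 (-b) ∈ (𝒜.ψ (c.1 0)).source
    rw [JX_foot 𝒜 hR]
    exact 𝒜.mem _
  have h4 : HasDerivAt (𝒜.sgd (c.1 0) (c.1 b) ∘ fun τ : ℝ => 𝒜.ψ (c.1 0) ((R (τ • x) (shift b c)).1 (-b))) 0 0 := by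
    refine (hasDerivAt_const (0 : ℝ) b).congr_of_eventuallyEq ?_
    filter_upwards [hm] with τ hτ
    change dist ((𝒜.ψ (c.1 0)).symm (𝒜.ψ (c.1 0) ((R (τ • x) (shift b c)).1 (-b)))) (c.1 b) = b
    rw [(𝒜.ψ (c.1 0)).left_inv hτ]
    exact JX_dist 𝒜 hR _ c h0 h1
  have h5 := h3.unique h4
  have h6 := D1_forward 𝒜 hB c.2 (s := 0) h0 h1 (JXr 𝒜 R x c b)
  rw [zero_add, ps_D1, h5] at h6
  linarith

end Pool.Agent.Lib.MP_ccbbf6_gt.L5
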