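import Pool.Agent.Lib.MP_ccbbf6_gt.L5.EPS01
import Pool.Agent.Lib.MP_ccbbf6_gt.L5.EPS02

/-!
# Level 5, block INTa, part 1: spherical functions and forms on the cube, Stokes (helper91)

`S^3` is parametrised by `(s, a, b) ↦ (cos (π s / 2) e^(2 π i a), sin (π s / 2) e^(2 π i b))`.
-/

set_option autoImplicit false

open Set Filter Topology MeasureTheory
open scoped ContDiff

noncomputable section

namespace Pool.Agent.Lib.MP_ccbbf6_gt.L5.IA

open L4 L4.FR

variable {k l : ℕ}

/-- replace the coordinate `i` by `c` -/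
def cst (i : Fin k) (c : ℝ) : FR.Sm k k :=
  ⟨fun x => Function.update x i c, by
    rw [contDiff_pi]
    intro j
    by_cases h : j = i
    · subst h
      simp only [Function.update_self]
      exact contDiff_const
    · simp only [Function.update_of_ne h]
      exact contDiff_apply ℝ ℝ j⟩

theorem cst_apply (i : Fin k) (c : ℝ) (x : V k) : cst i c x = Function.update x i c := rfl

/-- translation by the `i`-th unit vector -/
def trn (i : Fin k) : FR.Sm k k := ⟨fun x => x + Pi.single i 1, contDiff_id.add contDiff_const⟩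

theorem trn_apply (i : Fin k) (x : V k) : trn i x = x + Pi.single i 1 := rfl

theorem tr_cst (i : Fin k) (c : ℝ) (x : V k) : tr (cst i c) x = zi i := by
  refine LinearMap.ext fun v => funext fun a => ?_
  change ∑ j, v j * (pd a ((cst i c).cp j) : V k → ℝ) x = zi i v a
  have h1 : ∀ j, j ≠ i → (cst i c).cp j = co j := by
    intro j hj
    apply Cs_ext
    intro y
    exact Function.update_of_ne hj _ _
  have h2 : (cst i c).cp i = algebraMap ℝ (Cs k) c := by
    apply Cs_ext
    intro y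
    exact Function.update_self _ _ _
  have h3 : ∀ j, (pd a ((cst i c).cp j) : V k → ℝ) x = if j = i then 0 else if a = j then 1 else 0 := by
    intro j
    by_cases hj : j = i
    · subst hj
      rw [h2, pd_const, if_pos rfl]
      rfl
    · rw [h1 j hj, pd_co, if_neg hj]
      split_ifs <;> rfl
  simp only [h3]
  by_cases ha : a = i
  · subst ha
    rw [zi_apply_same]
    refine Finset.sum_eq_zero fun j _ => ?_
    by_cases hj : j = a
    · rw [if_pos hj, mul_zero]
    · rw [if_neg hj, if_neg (Ne.symm hj), mul_zero]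
  · rw [zi_apply_ne ha, Finset.sum_eq_single a]
    · rw [if_neg ha, if_pos rfl, mul_one]
    · intro j _ hj
      split_ifs with h4 h5
      · rw [mul_zero]
      · exact absurd h5 (Ne.symm hj)
      · rw [mul_zero]
    · intro h
      exact absurd (Finset.mem_univ _) h

theorem ee_ev_cst (i : Fin k) (c : ℝ) (x : V k) (θ : Fm k) :
    ee i * ev x (pb (cst i c) θ) = ee i * ev (Function.update x i c) θ := by
  rw [ev_pb, tr_cst, ← ee_mul_zi]
  rfl

theorem tr_trn (i : Fin k) (x : V k) : tr (trn i) x = LinearMap.id := by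
  refine LinearMap.ext fun v => funext fun a => ?_
  change ∑ j, v j * (pd a ((trn i).cp j) : V k → ℝ) x = v a
  have h1 : ∀ j, (trn i).cp j = co j + algebraMap ℝ (Cs k) ((Pi.single i 1 : V k) j) := by
    intro j
    apply Cs_ext
    intro y
    rfl
  have h3 : ∀ j, (pd a ((trn i).cp j) : V k → ℝ) x = if a = j then 1 else 0 := by
    intro j
    rw [h1 j, map_add, pd_const, add_zero, pd_co]
    split_ifs <;> rfl
  simp only [h3]
  rw [Finset.sum_eq_single a]
  · rw [if_pos rfl, mul_one]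
  · intro j _ hj
    rw [if_neg (Ne.symm hj), mul_zero]
  · intro h
    exact absurd (Finset.mem_univ _) h

theorem ev_trn (i : Fin k) (x : V k) (θ : Fm k) : ev x (pb (trn i) θ) = ev (x + Pi.single i 1) θ := by
  rw [ev_pb, tr_trn, ExteriorAlgebra.map_id]
  rfl

theorem dep_map {A : V l →ₗ[ℝ] V k} {i : ℕ} (h : l < i) (v : Fin i → V l) :
    ExteriorAlgebra.ιMulti ℝ i (fun j => A (v j)) = 0 := by
  refine AlternatingMap.map_linearDependent _ _ fun h1 => ?_
  have h2 : LinearIndependent ℝ v := LinearIndependent.of_comp A h1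
  have h3 := h2.fintype_card_le_finrank
  rw [Fintype.card_fin, Module.finrank_fin_fun] at h3
  omega

/-- forms pulled back from a space of lower dimension have no top coefficient -/
theorem topE_low (h : l < k) (g : FR.Sm k l) (z : Fm l) (x : V k) : topE k (ev x (pb g z)) = 0 := by
  have h1 : (topE k).comp (ExteriorAlgebra.map (tr g x)).toLinearMap = 0 := by
    refine ExteriorAlgebra.lhom_ext fun i => ?_
    ext v
    change topE k (ExteriorAlgebra.map (tr g x) (ExteriorAlgebra.ιMulti ℝ i v)) = 0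
    rw [ExteriorAlgebra.map_apply_ιMulti]
    by_cases hi : i = k
    · change topE k (ExteriorAlgebra.ιMulti ℝ i (fun j => tr g x (v j))) = 0
      rw [dep_map (by omega), map_zero]
    · exact topE_ιMulti_ne hi _
  rw [ev_pb]
  exact LinearMap.congr_fun h1 _

theorem topE_ee_low (h : l + 1 < k) (i : Fin k) (g : FR.Sm k l) (z : Fm l) (x : V k) :
    topE k (ee i * ev x (pb g z)) = 0 := by
  have h1 : ((topE k).comp (LinearMap.mulLeft ℝ (ee i))).comp (ExteriorAlgebra.map (tr g x)).toLinearMap = 0 := by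
    refine ExteriorAlgebra.lhom_ext fun j => ?_
    ext v
    change topE k (ee i * ExteriorAlgebra.map (tr g x) (ExteriorAlgebra.ιMulti ℝ j v)) = 0
    rw [ExteriorAlgebra.map_apply_ιMulti]
    by_cases hi : j + 1 = k
    · change topE k (ee i * ExteriorAlgebra.ιMulti ℝ j (fun a => tr g x (v a))) = 0
      rw [dep_map (by omega), mul_zero, map_zero]
    · have h2 : ee i * ExteriorAlgebra.ιMulti ℝ j (tr g x ∘ v) =
          ExteriorAlgebra.ιMulti ℝ (j + 1) (Fin.cons (Pi.single i 1) (tr g x ∘ v) : Fin (j + 1) → V k) := by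
        rw [ExteriorAlgebra.ιMulti_succ_apply]
        rfl
      rw [h2]
      exact topE_ιMulti_ne hi _
  rw [ev_pb]
  exact LinearMap.congr_fun h1 _

theorem insertNth_one {k : ℕ} (i : Fin (k + 1)) (x : V k) :
    (i.insertNth 1 x : V (k + 1)) = i.insertNth 0 x + Pi.single i 1 := by
  funext j
  refine Fin.succAboveCases i ?_ (fun j => ?_) j
  · simp
  · simp

/-- periodicity in one direction -/
theorem face_per {k : ℕ} {θ : Fm (k + 1)} {i : Fin (k + 1)} (h : pb (trn i) θ = θ) (x : V k) :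
    ev (i.insertNth 1 x) θ = ev (i.insertNth 0 x) θ := by
  rw [insertNth_one, ← ev_trn, h]

/-- Stokes for forms on `R^3` which are periodic in the last two directions -/
theorem stokes3 {θ : Fm 3} (ha : pb (trn 1) θ = θ) (hb : pb (trn 2) θ = θ) :
    cI 3 (dd 3 θ) = (∫ x in Icc (0 : V 2) 1, topE 3 (ee 0 * ev ((0 : Fin 3).insertNth 1 x) θ)) -
      ∫ x in Icc (0 : V 2) 1, topE 3 (ee 0 * ev ((0 : Fin 3).insertNth 0 x) θ) := by
  rw [cI_dd, Fin.sum_univ_three]
  have h1 : ∀ x : V 2, topE 3 (ee (1 : Fin 3) * ev ((1 : Fin 3).insertNth 1 x) θ) =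
      topE 3 (ee (1 : Fin 3) * ev ((1 : Fin 3).insertNth 0 x) θ) := fun x => by rw [face_per ha]
  have h2 : ∀ x : V 2, topE 3 (ee (2 : Fin 3) * ev ((2 : Fin 3).insertNth 1 x) θ) =
      topE 3 (ee (2 : Fin 3) * ev ((2 : Fin 3).insertNth 0 x) θ) := fun x => by rw [face_per hb]
  simp only [h1, h2, sub_self, add_zero]

/-- spherical functions -/
def Sph {Y : Sort*} (g : V 3 → Y) : Prop :=
  (∀ y, g (y + Pi.single 1 1) = g y) ∧ (∀ y, g (y + Pi.single 2 1) = g y) ∧
  (∀ y, g (Function.update y 0 0) = g (Function.update (Function.update y 2 0) 0 0)) ∧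
  ∀ y, g (Function.update y 0 1) = g (Function.update (Function.update y 1 0) 0 1)

theorem Sph.comp {Y Z : Sort*} {g : V 3 → Y} (h : Sph g) (F : Y → Z) : Sph (fun y => F (g y)) :=
  ⟨fun y => congrArg F (h.1 y), fun y => congrArg F (h.2.1 y), fun y => congrArg F (h.2.2.1 y),
    fun y => congrArg F (h.2.2.2 y)⟩

theorem Sph.prod {Y Z : Type*} {g : V 3 → Y} {g' : V 3 → Z} (h : Sph g) (h' : Sph g') : Sph (fun y => (g y, g' y)) :=
  ⟨fun y => Prod.ext (h.1 y) (h'.1 y), fun y => Prod.ext (h.2.1 y) (h'.2.1 y),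
    fun y => Prod.ext (h.2.2.1 y) (h'.2.2.1 y), fun y => Prod.ext (h.2.2.2 y) (h'.2.2.2 y)⟩

/-- spherical homotopies -/
def Sph4 {Y : Sort*} (G : V 4 → Y) : Prop := ∀ r : ℝ, Sph (fun y => G (Fin.snoc y r))

theorem Sph4.comp {Y Z : Sort*} {g : V 4 → Y} (h : Sph4 g) (F : Y → Z) : Sph4 (fun y => F (g y)) :=
  fun r => (h r).comp F

/-- spherical forms -/
structure SF4 (θ : Fm 4) : Prop where
  a : pb (trn 1) θ = θ
  b : pb (trn 2) θ = θ
  lo : pb (cst 0 0) θ = pb ((cst 2 0).comp (cst 0 0)) θ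
  hi : pb (cst 0 1) θ = pb ((cst 1 0).comp (cst 0 1)) θ

theorem SF4.add {θ τ : Fm 4} (h : SF4 θ) (h' : SF4 τ) : SF4 (θ + τ) :=
  ⟨by rw [map_add, h.a, h'.a], by rw [map_add, h.b, h'.b], by rw [map_add, map_add, h.lo, h'.lo],
    by rw [map_add, map_add, h.hi, h'.hi]⟩

theorem SF4.mul {θ τ : Fm 4} (h : SF4 θ) (h' : SF4 τ) : SF4 (θ * τ) :=
  ⟨by rw [map_mul, h.a, h'.a], by rw [map_mul, h.b, h'.b], by rw [map_mul, map_mul, h.lo, h'.lo],
    by rw [map_mul, map_mul, h.hi, h'.hi]⟩

theorem SF4.smul (r : ℝ) {θ : Fm 4} (h : SF4 θ) : SF4 (r • θ) :=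
  ⟨by rw [map_smul, h.a], by rw [map_smul, h.b], by rw [map_smul, map_smul, h.lo],
    by rw [map_smul, map_smul, h.hi]⟩

theorem SF4.dd {θ : Fm 4} (h : SF4 θ) : SF4 (dd 4 θ) :=
  ⟨by rw [← pb_dd, h.a], by rw [← pb_dd, h.b], by rw [← pb_dd, ← pb_dd, h.lo],
    by rw [← pb_dd, ← pb_dd, h.hi]⟩

theorem SF4.sum {ι : Type*} (s : Finset ι) {f : ι → Fm 4} (h : ∀ i, SF4 (f i)) : SF4 (∑ i ∈ s, f i) := by
  refine ⟨?_, ?_, ?_, ?_⟩
  · rw [map_sum]
    exact Finset.sum_congr rfl fun i _ => (h i).a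
  · rw [map_sum]
    exact Finset.sum_congr rfl fun i _ => (h i).b
  · rw [map_sum, map_sum]
    exact Finset.sum_congr rfl fun i _ => (h i).lo
  · rw [map_sum, map_sum]
    exact Finset.sum_congr rfl fun i _ => (h i).hi

theorem snoc_trn1 (y : V 3) (r : ℝ) : (Fin.snoc y r : V 4) + Pi.single 1 1 = Fin.snoc (y + Pi.single 1 1) r := by
  funext i
  fin_cases i <;> simp [Fin.snoc] <;> rfl

theorem snoc_trn2 (y : V 3) (r : ℝ) : (Fin.snoc y r : V 4) + Pi.single 2 1 = Fin.snoc (y + Pi.single 2 1) r := by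
  funext i
  fin_cases i <;> simp [Fin.snoc] <;> rfl

theorem snoc_upd (i : Fin 3) (y : V 3) (r c : ℝ) :
    Function.update (Fin.snoc y r : V 4) i.castSucc c = Fin.snoc (Function.update y i c) r := by
  funext j
  refine Fin.lastCases ?_ (fun j => ?_) j
  · rw [Function.update_of_ne (Fin.castSucc_lt_last i).ne', Fin.snoc_last, Fin.snoc_last]
  · rw [Fin.snoc_castSucc]
    by_cases h : j = i
    · subst h
      rw [Function.update_self, Function.update_self]
    · rw [Function.update_of_ne (fun h' => h (Fin.castSucc_injective _ h')), Function.update_of_ne h, Fin.snoc_castSucc]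

/-- the conditions on `R^4` -/
theorem Sph4.conds {Y : Sort*} {G : V 4 → Y} (h : Sph4 G) :
    (∀ x, G (x + Pi.single 1 1) = G x) ∧ (∀ x, G (x + Pi.single 2 1) = G x) ∧
    (∀ x, G (Function.update x 0 0) = G (Function.update (Function.update x 0 0) 2 0)) ∧
    ∀ x, G (Function.update x 0 1) = G (Function.update (Function.update x 0 1) 1 0) := by
  have e0 : (0 : Fin 4) = (0 : Fin 3).castSucc := rfl
  have e1 : (1 : Fin 4) = (1 : Fin 3).castSucc := rfl
  have e2 : (2 : Fin 4) = (2 : Fin 3).castSucc := rfl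
  refine ⟨fun x => ?_, fun x => ?_, fun x => ?_, fun x => ?_⟩
  · rw [← snoc_pr x, snoc_trn1]
    exact (h _).1 _
  · rw [← snoc_pr x, snoc_trn2]
    exact (h _).2.1 _
  · rw [← snoc_pr x, e0, e2, snoc_upd, snoc_upd, Function.update_comm (by decide)]
    exact (h _).2.2.1 _
  · rw [← snoc_pr x, e0, e1, snoc_upd, snoc_upd, Function.update_comm (by decide)]
    exact (h _).2.2.2 _

theorem SF4.fc {f : Cs 4} (h : Sph4 (f : V 4 → ℝ)) : SF4 (fc 4 f) := by
  obtain ⟨h1, h2, h3, h4⟩ := h.conds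
  exact ⟨by rw [pb_fc]; exact congrArg _ (Cs_ext fun x => h1 x), by rw [pb_fc]; exact congrArg _ (Cs_ext fun x => h2 x),
    by rw [pb_fc, pb_fc]; exact congrArg _ (Cs_ext fun x => h3 x),
    by rw [pb_fc, pb_fc]; exact congrArg _ (Cs_ext fun x => h4 x)⟩

/-- forms of a space along spherical homotopies are spherical -/
theorem SF4.on {X : Space} {G : X.Plot 4} (h : Sph4 G.1) (w : Om X) : SF4 (Om.on w G) := by
  obtain ⟨h1, h2, h3, h4⟩ := h.conds
  exact ⟨by rw [← on_cmp]; exact congrArg _ (Plot_ext fun x => h1 x), by rw [← on_cmp]; exact congrArg _ (Plot_ext fun x => h2 x),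
    by rw [← on_cmp, ← on_cmp]; exact congrArg _ (Plot_ext fun x => h3 x),
    by rw [← on_cmp, ← on_cmp]; exact congrArg _ (Plot_ext fun x => h4 x)⟩

/-- the projection `(s, a, b, r) ↦ (x_i, r)` -/
def p2 (i : Fin 4) : FR.Sm 4 2 := ⟨fun x => ![x i, x 3], by
  rw [contDiff_pi]
  intro j
  fin_cases j
  · exact contDiff_apply ℝ ℝ i
  · exact contDiff_apply ℝ ℝ 3⟩

/-- the section `(u, r) ↦ (c, u, 0, r)` -/
def j1 (c : ℝ) : FR.Sm 2 4 := ⟨fun x => ![c, x 0, 0, x 1], by
  rw [contDiff_pi]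
  intro j
  fin_cases j
  · exact contDiff_const
  · exact contDiff_apply ℝ ℝ 0
  · exact contDiff_const
  · exact contDiff_apply ℝ ℝ 1⟩

/-- the section `(u, r) ↦ (c, 0, u, r)` -/
def j2 (c : ℝ) : FR.Sm 2 4 := ⟨fun x => ![c, 0, x 0, x 1], by
  rw [contDiff_pi]
  intro j
  fin_cases j
  · exact contDiff_const
  · exact contDiff_const
  · exact contDiff_apply ℝ ℝ 0
  · exact contDiff_apply ℝ ℝ 1⟩

theorem cst_fac1 (c : ℝ) : (cst (k := 4) 2 0).comp (cst 0 c) = (j1 c).comp (p2 1) := by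
  refine FR.Sm.ext fun x => ?_
  funext i
  change Function.update (Function.update x 0 c) 2 0 i = (![c, x 1, 0, x 3] : V 4) i
  fin_cases i <;> simp [Function.update]

theorem cst_fac2 (c : ℝ) : (cst (k := 4) 1 0).comp (cst 0 c) = (j2 c).comp (p2 2) := by
  refine FR.Sm.ext fun x => ?_
  funext i
  change Function.update (Function.update x 0 c) 1 0 i = (![c, 0, x 2, x 3] : V 4) i
  fin_cases i <;> simp [Function.update]

/-- Stokes for spherical forms -/
theorem stokes4 {θ : Fm 4} (h : SF4 θ) :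
    cI 4 (dd 4 θ) = -(cI 3 (pb (sl 3 1) θ) - cI 3 (pb (sl 3 0) θ)) := by
  rw [cI_dd, Fin.sum_univ_castSucc, Fin.sum_univ_three]
  have e0 : (0 : Fin 4) = (0 : Fin 3).castSucc := rfl
  have e1 : (1 : Fin 4) = (1 : Fin 3).castSucc := rfl
  have e2 : (2 : Fin 4) = (2 : Fin 3).castSucc := rfl
  have h1 : ∀ x : V 3, topE 4 (ee (1 : Fin 3).castSucc * ev ((1 : Fin 3).castSucc.insertNth 1 x) θ) =
      topE 4 (ee (1 : Fin 3).castSucc * ev ((1 : Fin 3).castSucc.insertNth 0 x) θ) := fun x => by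
    rw [face_per (i := (1 : Fin 3).castSucc) h.a]
  have h2 : ∀ x : V 3, topE 4 (ee (2 : Fin 3).castSucc * ev ((2 : Fin 3).castSucc.insertNth 1 x) θ) =
      topE 4 (ee (2 : Fin 3).castSucc * ev ((2 : Fin 3).castSucc.insertNth 0 x) θ) := fun x => by
    rw [face_per (i := (2 : Fin 3).castSucc) h.b]
  have h3 : ∀ x : V 3, topE 4 (ee (0 : Fin 3).castSucc * ev ((0 : Fin 3).castSucc.insertNth 1 x) θ) = 0 := by
    intro x
    have h5 : ((0 : Fin 3).castSucc.insertNth 1 x : V 4) = Function.update ((0 : Fin 4).insertNth 1 x : V 4) 0 1 := by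
      rw [← e0]
      funext j
      refine Fin.succAboveCases 0 ?_ (fun j => ?_) j
      · simp
      · simp
    rw [h5, ← e0, ← ee_ev_cst, h.hi, cst_fac2, pb_comp]
    exact topE_ee_low (by norm_num) _ _ _ _
  have h4 : ∀ x : V 3, topE 4 (ee (0 : Fin 3).castSucc * ev ((0 : Fin 3).castSucc.insertNth 0 x) θ) = 0 := by
    intro x
    have h5 : ((0 : Fin 3).castSucc.insertNth 0 x : V 4) = Function.update ((0 : Fin 4).insertNth 0 x : V 4) 0 0 := by
      rw [← e0]
      funext j
      refine Fin.succAboveCases 0 ?_ (fun j => ?_) j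
      · simp
      · simp
    rw [h5, ← e0, ← ee_ev_cst, h.lo, cst_fac1, pb_comp]
    exact topE_ee_low (by norm_num) _ _ _ _
  simp only [h1, h2, h3, h4, sub_self, add_zero, zero_add]
  unfold cI
  have h6 : ∀ c : ℝ, ∫ x in Icc (0 : V 3) 1, topE 4 (ee (Fin.last 3) * ev ((Fin.last 3).insertNth c x) θ) =
      -∫ x in Icc (0 : V 3) 1, topE 3 (ev x (pb (sl 3 c) θ)) := by
    intro c
    rw [← integral_neg]
    refine setIntegral_congr_fun measurableSet_Icc fun x _ => ?_
    change topE 4 (ee (Fin.last 3) * ev ((Fin.last 3).insertNth c x) θ) = -topE 3 (ev x (pb (sl 3 c) θ))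
    rw [topE_last, ev_slE, Fin.insertNth_last']
    ring
  rw [h6, h6]
  ring

end Pool.Agent.Lib.MP_ccbbf6_gt.L5.IA
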