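import Pool.Agent.Lib.MP_ccbbf6_gt.L4.FRa

namespace Pool.Agent.Lib.MP_ccbbf6_gt.Geo
end Pool.Agent.Lib.MP_ccbbf6_gt.Geo

/-!
# Level 5, block EPS, part 7: frames of a family of projections over a cube
-/

set_option autoImplicit false

open Set Filter Topology MeasureTheory Metric
open scoped ContDiff

noncomputable section

namespace Pool.Agent.Lib.MP_ccbbf6_gt.L5

open Geo L4 L4.FR

variable {k l n N : ℕ}

section fr

variable {F : Type*} [NormedAddCommGroup F] [NormedSpace ℝ F] {A : Type*} [NormedAddCommGroup A] [NormedSpace ℝ A]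

/-- product of nearby projections -/
def Fr (Q : V k → F →L[ℝ] F) (L0 : A →L[ℝ] F) (m : ℕ) : ℕ → V k → A →L[ℝ] F
  | 0, _ => L0
  | i + 1, z => (Q ((((i + 1 : ℕ) : ℝ) / m) • z)).comp (Fr Q L0 m i z)

theorem contDiff_Fr {Q : V k → F →L[ℝ] F} (hQ : ContDiff ℝ ∞ Q) (L0 : A →L[ℝ] F) (m i : ℕ) :
    ContDiff ℝ ∞ (Fr Q L0 m i) := by
  induction i with
  | zero => exact contDiff_const
  | succ i ih =>
    have h2 : ContDiff ℝ ∞ fun z : V k => (((i + 1 : ℕ) : ℝ) / m) • z := contDiff_id.const_smul _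
    have h1 : ContDiff ℝ ∞ fun z : V k => Q ((((i + 1 : ℕ) : ℝ) / m) • z) := hQ.comp h2
    exact h1.clm_comp ih

theorem Fr_zero {Q : V k → F →L[ℝ] F} {L0 : A →L[ℝ] F} (h0 : (Q 0).comp L0 = L0) (m i : ℕ) : Fr Q L0 m i 0 = L0 := by
  induction i with
  | zero => rfl
  | succ i ih =>
    change (Q ((((i + 1 : ℕ) : ℝ) / m) • (0 : V k))).comp (Fr Q L0 m i 0) = L0
    rw [smul_zero, ih, h0]

theorem Fr_spec {Q : V k → F →L[ℝ] F} (hid : ∀ z, (Q z).comp (Q z) = Q z) {L0 : A →L[ℝ] F}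
    (h0 : (Q 0).comp L0 = L0) (hinj : ∀ a, L0 a = 0 → a = 0) {m : ℕ} {z : V k}
    (hz : ∀ i < m, ‖Q ((((i + 1 : ℕ) : ℝ) / m) • z) - Q (((i : ℝ) / m) • z)‖ < 1) (i : ℕ) (hi : i ≤ m) :
    (Q (((i : ℝ) / m) • z)).comp (Fr Q L0 m i z) = Fr Q L0 m i z ∧ ∀ a, Fr Q L0 m i z a = 0 → a = 0 := by
  induction i with
  | zero =>
    refine ⟨?_, hinj⟩
    rw [Nat.cast_zero, zero_div, zero_smul]
    exact h0
  | succ i ih =>
    obtain ⟨h1, h2⟩ := ih (by omega)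
    constructor
    · change (Q ((((i + 1 : ℕ) : ℝ) / m) • z)).comp ((Q ((((i + 1 : ℕ) : ℝ) / m) • z)).comp (Fr Q L0 m i z)) = _
      rw [← ContinuousLinearMap.comp_assoc, hid]
      rfl
    · intro a ha
      have ha' : Q ((((i + 1 : ℕ) : ℝ) / m) • z) (Fr Q L0 m i z a) = 0 := ha
      apply h2
      by_contra hne
      have h3 : Q (((i : ℝ) / m) • z) (Fr Q L0 m i z a) = Fr Q L0 m i z a := congrArg (fun L : A →L[ℝ] F => L a) h1
      have h4 : ‖Fr Q L0 m i z a‖ = ‖(Q ((((i + 1 : ℕ) : ℝ) / m) • z) - Q (((i : ℝ) / m) • z)) (Fr Q L0 m i z a)‖ := by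
        rw [_root_.sub_apply, ha', h3, zero_sub, norm_neg]
      have h5 := ContinuousLinearMap.le_opNorm (Q ((((i + 1 : ℕ) : ℝ) / m) • z) - Q (((i : ℝ) / m) • z))
        (Fr Q L0 m i z a)
      have h6 : 0 < ‖Fr Q L0 m i z a‖ := norm_pos_iff.2 hne
      have h7 := hz i (by omega)
      nlinarith

/-- a smooth map which is the identity near the cube and has values in a ball -/
theorem exists_kap (k : ℕ) : ∃ κ : FR.Sm k k, (∀ z ∈ Icc (0 : V k) 1, ∀ᶠ w in 𝓝 z, κ w = w) ∧ ∀ w, ‖κ w‖ ≤ 3 := by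
  let β : ContDiffBump (0 : V k) := ⟨2, 3, by norm_num, by norm_num⟩
  refine ⟨⟨fun w => β w • w, β.contDiff.smul contDiff_id⟩, fun z hz => ?_, fun w => ?_⟩
  · have h1 : ‖z‖ ≤ 1 := by
      rw [pi_norm_le_iff_of_nonneg zero_le_one]
      intro i
      rw [Real.norm_eq_abs, abs_of_nonneg (hz.1 i)]
      exact hz.2 i
    have h2 : ball (0 : V k) 2 ∈ 𝓝 z := isOpen_ball.mem_nhds (by rw [mem_ball, dist_zero_right]; linarith)
    filter_upwards [h2] with w hw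
    change β w • w = w
    rw [β.one_of_mem_closedBall (ball_subset_closedBall hw), one_smul]
  · change ‖β w • w‖ ≤ 3
    by_cases h : ‖w‖ ≤ 3
    · rw [norm_smul, Real.norm_eq_abs, abs_of_nonneg (β.nonneg' w)]
      calc β w * ‖w‖ ≤ 1 * ‖w‖ := mul_le_mul_of_nonneg_right β.le_one (norm_nonneg w)
        _ ≤ 3 := by rw [one_mul]; exact h
    · rw [β.zero_of_le_dist (by rw [dist_zero_right]; exact (not_le.1 h).le), zero_smul, norm_zero]
      norm_num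

/-- **frames over the cube** -/
theorem exists_frame {Q : V k → F →L[ℝ] F} (hQ : ContDiff ℝ ∞ Q) (hid : ∀ z, (Q z).comp (Q z) = Q z) {L0 : A →L[ℝ] F}
    (h0 : (Q 0).comp L0 = L0) (hinj : ∀ a, L0 a = 0 → a = 0) :
    ∃ (κ : FR.Sm k k) (B : V k → A →L[ℝ] F), (∀ z ∈ Icc (0 : V k) 1, ∀ᶠ w in 𝓝 z, κ w = w) ∧ ContDiff ℝ ∞ B ∧
      B 0 = L0 ∧ (∀ z, (Q (κ z)).comp (B z) = B z) ∧ ∀ z a, B z a = 0 → a = 0 := by
  obtain ⟨κ, hκ, hκ3⟩ := exists_kap k
  have hκ0 : κ (0 : V k) = 0 := (hκ 0 ⟨le_rfl, zero_le_one⟩).self_of_nhds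
  have huc := (isCompact_closedBall (0 : V k) 3).uniformContinuousOn_of_continuous hQ.continuous.continuousOn
  rw [Metric.uniformContinuousOn_iff] at huc
  obtain ⟨δ, hδ, hδ2⟩ := huc 1 one_pos
  obtain ⟨m, hm⟩ := exists_nat_gt (3 / δ)
  have hm0 : 0 < m := by
    have h1 : (0 : ℝ) < m := lt_trans (by positivity) hm
    exact_mod_cast h1
  have hmR : (0 : ℝ) < m := by exact_mod_cast hm0
  have key : ∀ z : V k, ‖z‖ ≤ 3 → ∀ i < m, ‖Q ((((i + 1 : ℕ) : ℝ) / m) • z) - Q (((i : ℝ) / m) • z)‖ < 1 := by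
    intro z hz i hi
    rw [← dist_eq_norm]
    have h1 : ∀ j : ℕ, j ≤ m → (((j : ℝ) / m) • z) ∈ closedBall (0 : V k) 3 := by
      intro j hj
      rw [mem_closedBall, dist_zero_right, norm_smul, Real.norm_eq_abs, abs_of_nonneg (by positivity)]
      have h2 : (j : ℝ) / m ≤ 1 := (div_le_one hmR).2 (by exact_mod_cast hj)
      calc (j : ℝ) / m * ‖z‖ ≤ 1 * ‖z‖ := mul_le_mul_of_nonneg_right h2 (norm_nonneg z)
        _ ≤ 3 := by rw [one_mul]; exact hz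
    refine hδ2 _ (h1 (i + 1) hi) _ (h1 i hi.le) ?_
    rw [dist_eq_norm, ← sub_smul, norm_smul, Real.norm_eq_abs]
    have h3 : ((i + 1 : ℕ) : ℝ) / m - (i : ℝ) / m = 1 / m := by
      rw [← sub_div]
      push_cast
      ring
    rw [h3, abs_of_pos (by positivity)]
    rw [div_lt_iff₀ hδ] at hm
    calc 1 / (m : ℝ) * ‖z‖ ≤ 1 / m * 3 := mul_le_mul_of_nonneg_left hz (by positivity)
      _ < δ := by
        rw [one_div, inv_mul_lt_iff₀ hmR]
        exact hm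
  refine ⟨κ, fun z => Fr Q L0 m m (κ z), hκ, (contDiff_Fr hQ L0 m m).comp κ.smooth, ?_, fun z => ?_, fun z a => ?_⟩
  · change Fr Q L0 m m (κ 0) = L0
    rw [hκ0, Fr_zero h0]
  · have h1 := (Fr_spec hid h0 hinj (key _ (hκ3 z)) m le_rfl).1
    rwa [div_self hmR.ne', one_smul] at h1
  · exact (Fr_spec hid h0 hinj (key _ (hκ3 z)) m le_rfl).2 a

end fr

end Pool.Agent.Lib.MP_ccbbf6_gt.L5
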