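import Pool.Agent.Lib.MP_ccbbf6_gt.L4.PO4
import Pool.Agent.Lib.MP_ccbbf6_gt.L5.NA2
import Pool.Agent.Lib.MP_ccbbf6_gt.L5.NA3
import Pool.Agent.Lib.MP_ccbbf6_gt.L5.ZPa

/-!
# NA4: the exact expansion of the speed (Level 5, push-off)
-/

set_option autoImplicit false
set_option linter.unusedSectionVars false

open Set Filter Topology Metric Real
open scoped ContDiff RealInnerProductSpace

noncomputable section

namespace Pool.Agent.Lib.MP_ccbbf6_gt.L5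

open Geo L4 L4.ORI

theorem hasDerivAt_mul_cont {I : ℝ → ℝ} (hI : ContinuousAt I 0) : HasDerivAt (fun t => t * I t) (I 0) 0 := by
  rw [hasDerivAt_iff_tendsto_slope]
  refine (hI.tendsto.mono_left nhdsWithin_le_nhds).congr' ?_
  filter_upwards [self_mem_nhdsWithin] with t ht
  have ht' : t ≠ 0 := ht
  rw [slope_def_field, zero_mul, sub_zero, sub_zero, mul_comm, mul_div_assoc, div_self ht', mul_one]

variable {n : ℕ} {M : Type*} [MetricSpace M] [CompactSpace M] {𝒜 : SDist n M} [Nonempty (Gs M)]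
variable {E : Type} [NormedAddCommGroup E] [NormedSpace ℝ E]

section defs

variable (e : Emb n 𝒜) (Ξ : ℝ → E → e.Q → e.Q) (R : E → Gs M → Gs M)

/-- the first variation of the distance -/
def LL (θ : ℝ) (x : E) (c : Gs M) : ℝ :=
  deriv (fun τ : ℝ => dist ((PsiX e Ξ (θ • x) c).1 (-1)) (CX e Ξ (θ • x) (R (τ • x) c))) 0

/-- the derivative of the push-off in the direction of the rotation -/
def BB (θ : ℝ) (x : E) (c : Gs M) : Eu n :=
  deriv (fun τ : ℝ => 𝒜.ψ (CX e Ξ (θ • x) c) (CX e Ξ (θ • x) (R (τ • x) c))) 0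

/-- the square of the speed of the push-off -/
def sp2 (x : E) (c : Gs M) : ℝ := ‖deriv (fun s => 𝒜.ψ (CX e Ξ x c) (CX e Ξ x (shift s c))) 0‖ ^ 2

end defs

variable {e : Emb n 𝒜} {Ξ : ℝ → E → e.Q → e.Q} {χ : e.Q → ℝ} {ρ : E → ℝ} {k : E → Gs M → Eu n} {R : E → Gs M → Gs M}

/-- `JXr` along the rotated geodesics -/
theorem smooth_JXR (hB : Bl M) (hR : RotX 𝒜 k R) (x : E) (c : Gs M) (z : ℝ × ℝ) :
    ContDiffAt ℝ ∞ (fun z : ℝ × ℝ => JXr 𝒜 R x (R (z.1 • x) c) z.2) z := by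
  have h1 : SmGAt 𝒜 (fun z : ℝ × ℝ => R (z.1 • x) c) z :=
    hR.smooth (ℝ × ℝ) (fun _ => c) (fun z => z.1 • x) z (smGAt_const c z) (contDiffAt_fst.smul contDiffAt_const)
  have h2 := JX_smV 𝒜 hB hR h1 (x := fun _ => x) (b := fun z : ℝ × ℝ => z.2) contDiffAt_const contDiffAt_snd (p := c.1 0)
    (by rw [hR.foot]; exact 𝒜.mem _)
  unfold SmV at h2
  simp only [hR.foot, ORI.CC_self] at h2
  exact h2

theorem smul_smul_smul' (ρ θ : ℝ) (x : E) (τ : ℝ) : τ • (ρ • (θ • x)) = ((ρ * θ) * τ) • x := by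
  rw [smul_smul, smul_smul]
  ring_nf

variable (hB : Bl M) (hR : RotX 𝒜 k R) (h : PFlowX e R χ ρ Ξ)

include hB hR h

/-- the first variation along the rotated geodesics -/
theorem W_eqX (c : Gs M) (x : E) (τ : ℝ) :
    HasDerivAt (fun θ : ℝ => dist (c.1 (-1)) (CX e Ξ (θ • x) (R (τ • x) c)))
      (-(τ * ∫ b in (0 : ℝ)..π, ⟪k x c, JXr 𝒜 R x (R (τ • x) c) b⟫)) 0 := by
  have hπ := Real.pi_pos
  have hp3 := Real.pi_gt_three
  have hd1 := dist_neg_one c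
  set c' := R (τ • x) c with hc'
  have hc0 : c'.1 0 = c.1 0 := hR.foot _ c
  let Φ : ℝ × ℝ → ℝ := fun z => dist (c.1 (-1)) ((ThX e Ξ z.1 (z.2 • x) c').1 (0 - z.1))
  have hpt : ∀ b : ℝ, 0 ≤ b → (ThX e Ξ b ((0 : ℝ) • x) c').1 (0 - b) = c.1 0 := by
    intro b hb
    rw [zero_smul, ThX_zero hB hR h hb]
    show c'.1 (0 - b + b) = c.1 0
    rw [sub_add_cancel, hc0]
  have hTh : ∀ b : ℝ, 0 ≤ b → SmAt 𝒜 (fun z : ℝ × ℝ => (ThX e Ξ z.1 (z.2 • x) c').1 (0 - z.1)) (b, 0) := fun b hb =>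
    (smooth_ThX hB hR h (smGAt_const c' ((b, 0) : ℝ × ℝ)) (t := fun z : ℝ × ℝ => z.1) (x := fun z : ℝ × ℝ => z.2 • x)
      contDiffAt_fst (contDiffAt_snd.smul contDiffAt_const) hb).ev hB (t := fun z : ℝ × ℝ => 0 - z.1)
      (contDiffAt_const.sub contDiffAt_fst)
  have hΦ : ∀ b : ℝ, 0 ≤ b → ContDiffAt ℝ ∞ Φ (b, 0) := by
    intro b hb
    refine SmAt.dist hB (smAt_const _ _) (hTh b hb) ?_ ?_
    · simp only [hpt b hb, hd1]; norm_num
    · simp only [hpt b hb, hd1]; linarith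
  -- the derivative in `b`
  have hw : ∀ b : ℝ, 0 < b → b < π →
      HasDerivAt (fun b => deriv (fun θ => Φ (b, θ)) 0) (-(τ * ⟪k x c, JXr 𝒜 R x c' b⟫)) b := by
    intro b hb hb'
    obtain ⟨D, hD1, hD2⟩ := PO.mixed (hΦ b hb.le)
    let m : ℝ → ℝ := fun θ => deriv (fun σ : ℝ => dist (c.1 (-1)) ((R (σ • x) (ThX e Ξ b (θ • x) c')).1 (0 - b))) 0
    -- `m` is smooth at `0`
    have hm : ContDiffAt ℝ ∞ m 0 := by
      refine PO.contDiffAt_deriv2' (g := fun z : ℝ × ℝ => dist (c.1 (-1)) ((R (z.2 • x) (ThX e Ξ b (z.1 • x) c')).1 (0 - b))) ?_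
      have h0 := smooth_ThX hB hR h (smGAt_const c' ((0, 0) : ℝ × ℝ)) (t := fun z : ℝ × ℝ => b)
        (x := fun z : ℝ × ℝ => z.1 • x) contDiffAt_const (contDiffAt_fst.smul contDiffAt_const) hb.le
      have h1 := (hR.smooth (ℝ × ℝ) _ (fun z => z.2 • x) (0, 0) h0 (contDiffAt_snd.smul contDiffAt_const)).ev hB
        (t := fun z : ℝ × ℝ => 0 - b) contDiffAt_const
      refine SmAt.dist hB (smAt_const _ _) h1 ?_ ?_
      · simp only
        rw [zero_smul ℝ x, hR.zero]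
        have := hpt b hb.le
        rw [zero_smul] at this
        rw [this, hd1]
        norm_num
      · simp only
        rw [zero_smul ℝ x, hR.zero]
        have := hpt b hb.le
        rw [zero_smul] at this
        rw [this, hd1]
        linarith
    have hρc : ContinuousAt (fun θ : ℝ => ρ (θ • x)) 0 :=
      (h.rsm.continuous.comp (f := fun θ : ℝ => θ • x) (by fun_prop)).continuousAt
    have hρ0 : ρ ((0 : ℝ) • x) = 1 := by rw [zero_smul]; exact h.rone.self_of_nhds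
    have hev : (fun θ => deriv (fun b' => Φ (b', θ)) b) =ᶠ[𝓝 0] fun θ => θ * (ρ (θ • x) * m θ) := by
      have hc1 : ContinuousAt (fun θ : ℝ => dist (c.1 (-1)) ((ThX e Ξ b (θ • x) c').1 (0 - b))) 0 := by
        have h1 := (hΦ b hb.le).continuousAt
        have h2 : ContinuousAt (fun θ : ℝ => (b, θ)) 0 := by fun_prop
        exact ContinuousAt.comp (g := Φ) (f := fun θ : ℝ => (b, θ)) h1 h2
      have hv : dist (c.1 (-1)) ((ThX e Ξ b ((0 : ℝ) • x) c').1 (0 - b)) = 1 := by rw [hpt b hb.le, hd1]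
      have h3 : ∀ᶠ θ : ℝ in 𝓝 (0 : ℝ), 0 < dist (c.1 (-1)) ((ThX e Ξ b (θ • x) c').1 (0 - b)) :=
        hc1.eventually (lt_mem_nhds (show 0 < dist (c.1 (-1)) ((ThX e Ξ b ((0 : ℝ) • x) c').1 (0 - b)) by
          rw [hv]; norm_num))
      have h4 : ∀ᶠ θ : ℝ in 𝓝 (0 : ℝ), dist (c.1 (-1)) ((ThX e Ξ b (θ • x) c').1 (0 - b)) < π :=
        hc1.eventually (gt_mem_nhds (show dist (c.1 (-1)) ((ThX e Ξ b ((0 : ℝ) • x) c').1 (0 - b)) < π by
          rw [hv]; linarith))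
      filter_upwards [h3, h4] with θ h5 h6
      have h7 := (transportX hB hR h (f := fun y => dist (c.1 (-1)) y) (x := θ • x) (a := 0) (b := b) (c := c') hb.le
        (smF_dist hB h5 h6)).deriv
      simp only [smul_smul_smul'] at h7
      have h8 := deriv_comp_mul_left (ρ (θ • x) * θ)
        (fun σ : ℝ => dist (c.1 (-1)) ((R (σ • x) (ThX e Ξ b (θ • x) c')).1 (0 - b))) 0
      rw [mul_zero, smul_eq_mul] at h8
      show deriv (fun b' => dist (c.1 (-1)) ((ThX e Ξ b' (θ • x) c').1 (0 - b'))) b = _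
      rw [h7, h8]
      simp only [m]
      ring
    have hD3 : HasDerivAt (fun θ => deriv (fun b' => Φ (b', θ)) b) (ρ ((0 : ℝ) • x) * m 0) 0 :=
      (hasDerivAt_mul_cont (I := fun θ => ρ (θ • x) * m θ) (hρc.mul hm.continuousAt)).congr_of_eventuallyEq hev
    rw [hρ0, one_mul] at hD3
    have hDm : D = m 0 := hD2.unique hD3
    -- the value of `m 0`
    have hm0 : m 0 = ⟪𝒜.vel c.1 0, JXr 𝒜 R x c' b⟫ := by
      have h1 : m 0 = deriv (fun σ : ℝ => dist (c.1 (-1)) ((R (σ • x) (shift b c')).1 (-b))) 0 := by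
        simp only [m]
        rw [zero_smul ℝ x, ThX_zero hB hR h hb.le]
        simp only [zero_sub]
      rw [h1]
      have h2 := JX_hasDerivAt 𝒜 hB hR x c' b
      rw [hc0] at h2
      refine (dist_deriv hB (JX_smAt 𝒜 hB hR x c' b).cont ?_ h2).deriv
      rw [JX_foot 𝒜 hR, hc0]
    have hgauss := JX_gauss 𝒜 hB hR x c' hb hb'
    have hm1 : m 0 = -(τ * ⟪k x c, JXr 𝒜 R x c' b⟫) := by
      obtain ⟨N, hN, hvel⟩ := hR.vel (τ • x) c
      rw [← hc', hR.ksmul] at hvel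
      have hv : 𝒜.vel c.1 0 = N • 𝒜.vel c'.1 0 - τ • k x c := by rw [← hvel, add_sub_cancel_right]
      rw [hm0, hv, inner_sub_left, real_inner_smul_left, real_inner_smul_left, hgauss, mul_zero, zero_sub]
    rw [← hm1, ← hDm]
    exact hD1
  -- integration
  have hwc : ∀ b ∈ Icc (0 : ℝ) π, ContinuousAt (fun b => deriv (fun θ => Φ (b, θ)) 0) b := fun b hb =>
    (PO.contDiffAt_deriv2' (hΦ b hb.1)).continuousAt
  have hgc : Continuous (fun b => ⟪k x c, JXr 𝒜 R x c' b⟫) := by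
    rw [continuous_iff_continuousAt]
    intro b
    have h1 := (smooth_JXR (𝒜 := 𝒜) hB hR x c (τ, b)).continuousAt
    have h2 : ContinuousAt (fun b : ℝ => ((τ, b) : ℝ × ℝ)) b := by fun_prop
    have h3 := ContinuousAt.comp (g := fun z : ℝ × ℝ => JXr 𝒜 R x (R (z.1 • x) c) z.2) (f := fun b : ℝ => ((τ, b) : ℝ × ℝ))
      (x := b) h1 h2
    exact continuousAt_const.inner h3
  have hint := intervalIntegral.integral_eq_sub_of_hasDerivAt_of_le hπ.le
    (fun b hb => (hwc b hb).continuousWithinAt) (fun b hb => hw b hb.1 hb.2)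
    ((continuous_const.mul hgc).neg.intervalIntegrable 0 π)
  have hw0 : deriv (fun θ => Φ (0, θ)) 0 = 0 := by
    have h1 : (fun θ => Φ (0, θ)) = fun _ => dist (c.1 (-1)) (c'.1 0) := by
      funext θ
      simp only [Φ, ThX_time_zero hB h, sub_zero]
    rw [h1, deriv_const]
  rw [hw0, sub_zero] at hint
  have hfin : (fun θ : ℝ => dist (c.1 (-1)) (CX e Ξ (θ • x) c')) = fun θ => Φ (π, θ) := by
    funext θ
    simp only [Φ, zero_sub]
    rfl
  rw [hfin]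
  have h5 : DifferentiableAt ℝ (fun θ => Φ (π, θ)) 0 := by
    have h6 := (hΦ π hπ.le).differentiableAt (by simp : (∞ : WithTop ℕ∞) ≠ 0)
    exact (PO.hasDerivAt_snd (g := Φ) (z := (π, 0)) h6).differentiableAt
  have h7 := h5.hasDerivAt
  rw [← hint, intervalIntegral.integral_neg, intervalIntegral.integral_const_mul] at h7
  exact h7

/-- the derivative of `LL` -/
theorem LL_deriv (c : Gs M) (x : E) : HasDerivAt (fun θ => LL e Ξ R θ x c) (Lam 𝒜 k R c x) 0 := by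
  have hπ := Real.pi_pos
  have hp3 := Real.pi_gt_three
  have hd1 := dist_neg_one c
  let K : ℝ × ℝ → ℝ := fun z => dist ((PsiX e Ξ (z.1 • x) c).1 (-1)) (CX e Ξ (z.1 • x) (R (z.2 • x) c))
  have hPsi : ∀ {E' : Type} [NormedAddCommGroup E'] [NormedSpace ℝ E'] (u : E') (θ : E' → ℝ), ContDiffAt ℝ ∞ θ u →
      SmAt 𝒜 (fun v => (PsiX e Ξ (θ v • x) c).1 (-1)) u := fun u θ hθ =>
    (smooth_PsiX hB hR h (smGAt_const c u) (hθ.smul contDiffAt_const)).ev hB (t := fun _ => -1) contDiffAt_const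
  have hCC0 : ∀ τ : ℝ, CX e Ξ 0 (R (τ • x) c) = c.1 0 := fun τ => by rw [CX_zero hB hR h, hR.foot]
  have hRs : SmGAt 𝒜 (fun z : ℝ × ℝ => R (z.2 • x) c) (0, 0) :=
    hR.smooth (ℝ × ℝ) (fun _ => c) (fun z => z.2 • x) (0, 0) (smGAt_const c _) (contDiffAt_snd.smul contDiffAt_const)
  have hKs : ContDiffAt ℝ ∞ K (0, 0) := by
    refine SmAt.dist hB (hPsi _ (fun z : ℝ × ℝ => z.1) contDiffAt_fst)
      (smooth_CX hB hR h hRs (x := fun z : ℝ × ℝ => z.1 • x) (contDiffAt_fst.smul contDiffAt_const)) ?_ ?_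
    · simp only [zero_smul, PsiX_param_zero hB hR h, CX_zero hB hR h, hR.foot, hd1]; norm_num
    · simp only [zero_smul, PsiX_param_zero hB hR h, CX_zero hB hR h, hR.foot, hd1]; linarith
  obtain ⟨D, hD1, hD2⟩ := PO.mixed hKs
  -- the derivative in `θ` at `0`, for all `τ`
  let I : ℝ → ℝ := fun τ => ∫ b in (0 : ℝ)..π, ⟪k x c, JXr 𝒜 R x (R (τ • x) c) b⟫
  have hIc : Continuous I := by
    have h1 : Continuous (fun z : ℝ × ℝ => ⟪k x c, JXr 𝒜 R x (R (z.1 • x) c) z.2⟫) := by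
      rw [continuous_iff_continuousAt]
      intro z
      exact continuousAt_const.inner (smooth_JXR (𝒜 := 𝒜) hB hR x c z).continuousAt
    exact intervalIntegral.continuous_parametric_intervalIntegral_of_continuous' (f := fun τ b =>
      ⟪k x c, JXr 𝒜 R x (R (τ • x) c) b⟫) h1 0 π
  have hder : ∀ τ : ℝ, deriv (fun θ => K (θ, τ)) 0 =
      deriv (fun s : ℝ => dist ((PsiX e Ξ (s • x) c).1 (-1)) (c.1 0)) 0 + -(τ * I τ) := by
    intro τ
    let g : ℝ × ℝ → ℝ := fun z => dist ((PsiX e Ξ (z.1 • x) c).1 (-1)) (CX e Ξ (z.2 • x) (R (τ • x) c))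
    have hg : ContDiffAt ℝ ∞ g (0, 0) := by
      refine SmAt.dist hB (hPsi _ (fun z : ℝ × ℝ => z.1) contDiffAt_fst)
        (smooth_CX hB hR h (smGAt_const (R (τ • x) c) ((0, 0) : ℝ × ℝ)) (x := fun z : ℝ × ℝ => z.2 • x)
          (contDiffAt_snd.smul contDiffAt_const)) ?_ ?_
      · simp only [zero_smul, PsiX_param_zero hB hR h, hCC0, hd1]; norm_num
      · simp only [zero_smul, PsiX_param_zero hB hR h, hCC0, hd1]; linarith
    have hs : ContDiffAt ℝ ∞ (fun s : ℝ => dist ((PsiX e Ξ (s • x) c).1 (-1)) (c.1 0)) 0 := by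
      refine SmAt.dist hB (hPsi _ (fun s : ℝ => s) contDiffAt_id) (smAt_const _ _) ?_ ?_
      · simp only [zero_smul, PsiX_param_zero hB hR h, hd1]; norm_num
      · simp only [zero_smul, PsiX_param_zero hB hR h, hd1]; linarith
    have h1 : HasDerivAt (fun s => g (s, 0)) (deriv (fun s : ℝ => dist ((PsiX e Ξ (s • x) c).1 (-1)) (c.1 0)) 0) 0 := by
      have : (fun s => g (s, 0)) = fun s : ℝ => dist ((PsiX e Ξ (s • x) c).1 (-1)) (c.1 0) := by
        funext s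
        simp only [g, zero_smul, hCC0]
      rw [this]
      exact (hs.differentiableAt (by simp)).hasDerivAt
    have h2 : HasDerivAt (fun t => g (0, t)) (-(τ * I τ)) 0 := by
      have : (fun t => g (0, t)) = fun t : ℝ => dist (c.1 (-1)) (CX e Ξ (t • x) (R (τ • x) c)) := by
        funext t
        simp only [g, zero_smul, PsiX_param_zero hB hR h]
      rw [this]
      exact W_eqX hB hR h c x τ
    have h3 := PO.two_var (hg.differentiableAt (by simp)) h1 h2 1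
    simp only [one_mul, one_smul] at h3
    exact h3.deriv
  have hD3 : HasDerivAt (fun τ => deriv (fun θ => K (θ, τ)) 0) (-(I 0)) 0 := by
    have h1 : (fun τ => deriv (fun θ => K (θ, τ)) 0) = fun τ =>
        deriv (fun s : ℝ => dist ((PsiX e Ξ (s • x) c).1 (-1)) (c.1 0)) 0 + -(τ * I τ) := funext hder
    rw [h1]
    exact ((hasDerivAt_mul_cont hIc.continuousAt).neg).const_add _
  have hDI : D = -(I 0) := hD2.unique hD3
  have hI0 : -(I 0) = Lam 𝒜 k R c x := by simp only [I, Lam, zero_smul, hR.zero]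
  rw [← hI0, ← hDI]
  exact hD1

/-- the distance which enters `LL` is `1` at `τ = 0` -/
theorem dist_LL (θ : ℝ) (x : E) (c : Gs M) :
    dist ((PsiX e Ξ (θ • x) c).1 (-1)) (CX e Ξ (θ • x) (R ((0 : ℝ) • x) c)) = 1 := by
  rw [zero_smul, hR.zero, ← PsiX_zero, dist_neg_one]

theorem smooth_LL {Z : Type} [NormedAddCommGroup Z] [NormedSpace ℝ Z] {σ : Z → Gs M} {θ : Z → ℝ} {x : Z → E} {z : Z}
    (hσ : SmGAt 𝒜 σ z) (hθ : ContDiffAt ℝ ∞ θ z) (hx : ContDiffAt ℝ ∞ x z) :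
    ContDiffAt ℝ ∞ (fun v => LL e Ξ R (θ v) (x v) (σ v)) z := by
  have h1 : SmGAt 𝒜 (fun w : Z × ℝ => σ w.1) (z, 0) :=
    SmGAt.comp (σ := σ) (f := fun w : Z × ℝ => w.1) (v := (z, 0)) hσ contDiffAt_fst
  have hθ' : ContDiffAt ℝ ∞ (fun w : Z × ℝ => θ w.1) (z, 0) :=
    ContDiffAt.comp (g := θ) (f := fun w : Z × ℝ => w.1) (z, 0) hθ contDiffAt_fst
  have hx' : ContDiffAt ℝ ∞ (fun w : Z × ℝ => x w.1) (z, 0) :=
    ContDiffAt.comp (g := x) (f := fun w : Z × ℝ => w.1) (z, 0) hx contDiffAt_fst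
  have h3 : SmGAt 𝒜 (fun w : Z × ℝ => R (w.2 • x w.1) (σ w.1)) (z, 0) :=
    hR.smooth (Z × ℝ) _ (fun w : Z × ℝ => w.2 • x w.1) (z, 0) h1 (contDiffAt_snd.smul hx')
  refine PO.contDiffAt_deriv2' (g := fun w : Z × ℝ =>
    dist ((PsiX e Ξ (θ w.1 • x w.1) (σ w.1)).1 (-1)) (CX e Ξ (θ w.1 • x w.1) (R (w.2 • x w.1) (σ w.1)))) ?_
  refine SmAt.dist hB ((smooth_PsiX hB hR h h1 (hθ'.smul hx')).ev hB (t := fun _ => -1) contDiffAt_const)
    (smooth_CX hB hR h h3 (hθ'.smul hx')) ?_ ?_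
  · simp only [dist_LL hB hR h]; norm_num
  · simp only [dist_LL hB hR h]; linarith [Real.pi_gt_three]

theorem smooth_BB {Z : Type} [NormedAddCommGroup Z] [NormedSpace ℝ Z] {σ : Z → Gs M} {θ : Z → ℝ} {x : Z → E} {z : Z}
    (hσ : SmGAt 𝒜 σ z) (hθ : ContDiffAt ℝ ∞ θ z) (hx : ContDiffAt ℝ ∞ x z) :
    ContDiffAt ℝ ∞ (fun v => ‖BB e Ξ R (θ v) (x v) (σ v)‖ ^ 2) z := by
  have h1 : SmGAt 𝒜 (fun w : Z × ℝ => σ w.1) (z, 0) :=
    SmGAt.comp (σ := σ) (f := fun w : Z × ℝ => w.1) (v := (z, 0)) hσ contDiffAt_fst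
  have hθ' : ContDiffAt ℝ ∞ (fun w : Z × ℝ => θ w.1) (z, 0) :=
    ContDiffAt.comp (g := θ) (f := fun w : Z × ℝ => w.1) (z, 0) hθ contDiffAt_fst
  have hx' : ContDiffAt ℝ ∞ (fun w : Z × ℝ => x w.1) (z, 0) :=
    ContDiffAt.comp (g := x) (f := fun w : Z × ℝ => w.1) (z, 0) hx contDiffAt_fst
  have h3 : SmGAt 𝒜 (fun w : Z × ℝ => R (w.2 • x w.1) (σ w.1)) (z, 0) :=
    hR.smooth (Z × ℝ) _ (fun w : Z × ℝ => w.2 • x w.1) (z, 0) h1 (contDiffAt_snd.smul hx')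
  have h4 := smooth_CX hB hR h h3 (hθ'.smul hx')
  have h5 := smV_deriv (g := fun w : Z × ℝ => CX e Ξ (θ w.1 • x w.1) (R (w.2 • x w.1) (σ w.1))) h4 (p := _) (𝒜.mem _)
  have h6 : (fun v => ‖BB e Ξ R (θ v) (x v) (σ v)‖ ^ 2) = fun v =>
      ⟪BB e Ξ R (θ v) (x v) (σ v), BB e Ξ R (θ v) (x v) (σ v)⟫ := by
    funext v
    rw [real_inner_self_eq_norm_sq]
  rw [h6]
  have h7 : SmAt 𝒜 (fun v => CX e Ξ (θ v • x v) (σ v)) z := smooth_CX hB hR h hσ (hθ.smul hx)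
  simp only [zero_smul, hR.zero] at h5
  exact SmV.inner h7 (𝒜.mem _) h5 h5

/-- the square of the speed -/
theorem sp2_eq (θ : ℝ) (x : E) (c : Gs M) : sp2 e Ξ (θ • x) c =
    1 - 2 * (ρ (θ • x) * θ) * LL e Ξ R θ x c + (ρ (θ • x) * θ) ^ 2 * ‖BB e Ξ R θ x c‖ ^ 2 := by
  have hsf := speed_formulaX hB hR h (θ • x) c
  simp only [smul_smul_smul'] at hsf
  have h8 := deriv_comp_mul_left (ρ (θ • x) * θ)
    (fun τ : ℝ => 𝒜.ψ (CX e Ξ (θ • x) c) (CX e Ξ (θ • x) (R (τ • x) c))) 0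
  rw [mul_zero] at h8
  rw [h8] at hsf
  have hα : SmAt 𝒜 (fun τ : ℝ => CX e Ξ (θ • x) (R (τ • x) c)) 0 :=
    smooth_CX hB hR h (smooth_line0 hR c x 0) (x := fun _ => θ • x) contDiffAt_const
  have hα0 : CX e Ξ (θ • x) (R ((0 : ℝ) • x) c) = (PsiX e Ξ (θ • x) c).1 0 := by rw [zero_smul, hR.zero, PsiX_zero]
  have hαv : HasDerivAt (fun τ : ℝ => 𝒜.ψ ((PsiX e Ξ (θ • x) c).1 0) (CX e Ξ (θ • x) (R (τ • x) c)))
      (BB e Ξ R θ x c) 0 := by
    have h1 := hasDerivAt_psi hα hα0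
    have h2 : deriv (fun τ : ℝ => 𝒜.ψ ((PsiX e Ξ (θ • x) c).1 0) (CX e Ξ (θ • x) (R (τ • x) c))) 0 =
        BB e Ξ R θ x c := by
      unfold BB
      rw [PsiX_zero]
    rwa [h2] at h1
  have hLam : LL e Ξ R θ x c = ⟪𝒜.vel (PsiX e Ξ (θ • x) c).1 0, BB e Ξ R θ x c⟫ :=
    (dist_deriv hB (c := PsiX e Ξ (θ • x) c) hα.cont hα0 hαv).deriv
  have hv1 : ‖𝒜.vel (PsiX e Ξ (θ • x) c).1 0‖ = 1 := (IsGeo.exists_vel 𝒜 (PsiX e Ξ (θ • x) c).2 0).1
  unfold sp2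
  rw [hsf, hLam]
  show ‖𝒜.vel (PsiX e Ξ (θ • x) c).1 0 - (ρ (θ • x) * θ) • BB e Ξ R θ x c‖ ^ 2 = _
  rw [norm_sub_sq_real, hv1, real_inner_smul_right, norm_smul, mul_pow, Real.norm_eq_abs, sq_abs]
  ring

/-- **exact expansion of the speed** -/
theorem exists_speed : ∃ g : ℝ × (Gs M × E) → ℝ, Continuous g ∧ (∀ c x, g (0, c, x) = -2 * Lam 𝒜 k R c x) ∧
    ∀ θ c x, sp2 e Ξ (θ • x) c = 1 + θ ^ 2 * g (θ, c, x) := by
  -- the function of `(y, x)` and `θ`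
  have hs : ∀ y ∈ e.UU, ∀ (x : E) (θ : ℝ),
      ContDiffAt ℝ ∞ (fun z : (e.Q × E) × ℝ => LL e Ξ R z.2 z.1.2 (e.RR z.1.1)) ((y, x), θ) := by
    intro y hy x θ
    refine smooth_LL hB hR h (SmGAt.comp (σ := e.RR) (f := fun z : (e.Q × E) × ℝ => z.1.1) (v := ((y, x), θ))
      (e.smG_RR hB hy) (contDiffAt_fst.comp _ contDiffAt_fst)) contDiffAt_snd ?_
    exact contDiffAt_snd.comp _ contDiffAt_fst
  have hemb : Continuous (fun z : ℝ × (Gs M × E) => ((e.EE z.2.1, z.2.2), z.1)) :=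
    ((e.continuous_EE.comp (continuous_fst.comp continuous_snd)).prodMk (continuous_snd.comp continuous_snd)).prodMk
      continuous_fst
  have hcL' : Continuous (fun z : ℝ × (Gs M × E) => deriv (fun θ => LL e Ξ R θ z.2.2 z.2.1) z.1) := by
    rw [continuous_iff_continuousAt]
    rintro ⟨θ, c, x⟩
    have h1 := (PO.contDiffAt_deriv2 (hs _ (e.EE_mem c) x θ)).continuousAt
    have h2 := ContinuousAt.comp (g := fun w : (e.Q × E) × ℝ => deriv (fun t => LL e Ξ R t w.1.2 (e.RR w.1.1)) w.2)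
      (f := fun z : ℝ × (Gs M × E) => ((e.EE z.2.1, z.2.2), z.1)) (x := (θ, c, x)) h1 hemb.continuousAt
    simp only [Function.comp_def, e.RR_EE hB] at h2
    exact h2
  have hdL : ∀ θ (w : Gs M × E), HasDerivAt (fun θ => LL e Ξ R θ w.2 w.1)
      (deriv (fun θ => LL e Ξ R θ w.2 w.1) θ) θ := by
    rintro θ ⟨c, x⟩
    have h1 := smooth_LL hB hR h (smGAt_const c θ) (θ := fun θ : ℝ => θ) (x := fun _ : ℝ => x) contDiffAt_id
      contDiffAt_const
    exact (h1.differentiableAt (by simp)).hasDerivAt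
  have hL0 : ∀ w : Gs M × E, LL e Ξ R 0 w.2 w.1 = 0 := by
    rintro ⟨c, x⟩
    unfold LL
    simp only [zero_smul, CX_zero hB hR h, hR.foot, deriv_const]
  obtain ⟨q, hq, hq0, hqe⟩ := hadamard (L := fun θ (w : Gs M × E) => LL e Ξ R θ w.2 w.1)
    (L' := fun z : ℝ × (Gs M × E) => deriv (fun θ => LL e Ξ R θ z.2.2 z.2.1) z.1) hcL' hdL hL0
  have hcB : Continuous (fun z : ℝ × (Gs M × E) => ‖BB e Ξ R z.1 z.2.2 z.2.1‖ ^ 2) := by
    rw [continuous_iff_continuousAt]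
    rintro ⟨θ, c, x⟩
    have h1 : ContDiffAt ℝ ∞ (fun z : (e.Q × E) × ℝ => ‖BB e Ξ R z.2 z.1.2 (e.RR z.1.1)‖ ^ 2) ((e.EE c, x), θ) := by
      refine smooth_BB hB hR h (SmGAt.comp (σ := e.RR) (f := fun z : (e.Q × E) × ℝ => z.1.1) (v := ((e.EE c, x), θ))
        (e.smG_RR hB (e.EE_mem c)) (contDiffAt_fst.comp _ contDiffAt_fst)) contDiffAt_snd ?_
      exact contDiffAt_snd.comp _ contDiffAt_fst
    have h2 := ContinuousAt.comp (g := fun w : (e.Q × E) × ℝ => ‖BB e Ξ R w.2 w.1.2 (e.RR w.1.1)‖ ^ 2)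
      (f := fun z : ℝ × (Gs M × E) => ((e.EE z.2.1, z.2.2), z.1)) (x := (θ, c, x)) h1.continuousAt hemb.continuousAt
    simp only [Function.comp_def, e.RR_EE hB] at h2
    exact h2
  have hρc : Continuous (fun z : ℝ × (Gs M × E) => ρ (z.1 • z.2.2)) :=
    h.rsm.continuous.comp (f := fun z : ℝ × (Gs M × E) => z.1 • z.2.2) (by fun_prop)
  refine ⟨fun z => -2 * ρ (z.1 • z.2.2) * q z + ρ (z.1 • z.2.2) ^ 2 * ‖BB e Ξ R z.1 z.2.2 z.2.1‖ ^ 2,
    ((continuous_const.mul hρc).mul hq).add ((hρc.pow 2).mul hcB), fun c x => ?_, fun θ c x => ?_⟩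
  · have h1 : BB e Ξ R 0 x c = 0 := by
      unfold BB
      simp only [zero_smul, CX_zero hB hR h, hR.foot, deriv_const]
    have h2 : ρ (0 : E) = 1 := h.rone.self_of_nhds
    have h3 := hq0 (c, x)
    simp only at h3
    rw [(LL_deriv hB hR h c x).deriv] at h3
    simp only [zero_smul, h1, h2, h3, norm_zero]
    ring
  · have h1 := hqe θ (c, x)
    simp only at h1
    rw [sp2_eq hB hR h, h1]
    ring

end Pool.Agent.Lib.MP_ccbbf6_gt.L5
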