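import Pool.Agent.Lib.MP_ccbbf6_gt.L5.H5F
import Pool.Agent.Lib.MP_ccbbf6_gt.L5.TE4
import Pool.Agent.Lib.MP_ccbbf6_gt.L5.TP13

/-!
# Level 5, ASM1: assembly, `κ = 3` (helper93)
-/

set_option autoImplicit false
set_option maxSynthPendingDepth 3
set_option linter.unusedSectionVars false

open Set Filter Topology Matrix Real Module
open scoped ContDiff RealInnerProductSpace

noncomputable section

namespace Pool.Agent.Lib.MP_ccbbf6_gt.L5

open L4 L4.FR Geo L4.ORI NEG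

section three

variable {N K : ℕ} {M : Type} [MetricSpace M] [CompactSpace M] {𝒜 : SDist (N + 1) M} {hB : Bl M}

/-- **the three point formula for a Blaschke manifold, `κ = 3`** -/
theorem GeoD.tpf (D : GeoD 𝒜 hB 3 (K + 2)) (t : TEmb 𝒜) :
    ∃ (b : ℝ) (P : PowerSeries ℝ), PowerSeries.constantCoeff P = 1 ∧
      PTd 2 (TE.PM_idem t (Nat.succ_pos N)) = evS D.coh.ku P ∧
      PTd 2 (TE.PV_idem t hB D.hk D.hL) = Asr b D.coh.k1 D.coh.k2 ∧
      L5.hp1 (FO (spF 𝒜)) (TE.PV_idem t hB D.hk D.hL) = b • (D.coh.k1 + D.coh.k2) ∧ ∀ j ≤ K + 2,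
        PowerSeries.coeff j (P * (1 + 2 * PowerSeries.C b * PowerSeries.X)) =
          PowerSeries.coeff j (Aser b ^ (K + 3)) := by
  have hdim := D.dim
  have hV : D.coh.bM.VFl D.coh.g := VFl_M hB D.Deg_Ph D.orM D.hN D.hk D.hL D.Deg_b D.orV D.hκ
  have hpr : D.coh.g.pull (eul (FO (spF 𝒜)) (D.pV (TE.isoE t)) (D.oV (TE.isoE t))) =
      dO _ ((D.eE (TE.isoE t)).pull (OT.psS (D.bE (TE.isoE t)) (D.tE (TE.isoE t)))) := by
    have h2 : dO _ (OT.psS (D.bE (TE.isoE t)) (D.tE (TE.isoE t))) =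
        eul (FO (D.bE (TE.isoE t)).S) (OT.pS (D.bE (TE.isoE t)) (D.tE (TE.isoE t)) (by norm_num))
          (OT.oS (D.bE (TE.isoE t)) (D.tE (TE.isoE t)) (by norm_num)) :=
      d_psi (G := GO (D.bE (TE.isoE t)).S) (φ := FO (D.bE (TE.isoE t)).S) (OT.orS _ _ _) (OT.secS _ _ _)
    have h1 : dO _ (OT.psS (D.bE (TE.isoE t)) (D.tE (TE.isoE t))) =
        (D.bE (TE.isoE t)).pr.pull (eul (FO (spF 𝒜)) (D.pV (TE.isoE t)) (D.oV (TE.isoE t))) := by
      rw [h2]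
      exact (FHom.eul (FHom.pull (D.bE (TE.isoE t)).pr) (P := D.pV (TE.isoE t)) (D.oV (TE.isoE t))).symm
    rw [pull_d, h1, ← pull_comp]
    rfl
  have hPI : D.coh.bV.PI ((D.eE (TE.isoE t)).pull (OT.psS (D.bE (TE.isoE t)) (D.tE (TE.isoE t)))) =
      algebraMap ℝ (Om (spF 𝒜)) 1 := by
    rw [D.PI_eE, map_one]
    exact OT.PI_psS (D.bE (TE.isoE t)) (D.tE (TE.isoE t)) (by norm_num)
  obtain ⟨b, P, c1, c2, c3, -, c5, c6⟩ := CohD.three_point_four hB D.coh hV ⟨fun _ => D.f0.1.1, fun _ => smAt_const _ _⟩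
    ⟨fun _ => (gF hB).1 (gvg 𝒜 hB D.f0.1.1 (D.f0.1.2 0) (D.f0.2.2.1 0)), cst_F _⟩
    (TE.PM_idem t (Nat.succ_pos N)) (TE.PM_symm t (Nat.succ_pos N)) (D.orPV (TE.isoE t))
    (TE.PM_PV t hB D.hk D.hL (Nat.succ_pos N)) (TE.PV_PM t hB D.hk D.hL (Nat.succ_pos N))
    (fun x => by
      rw [TE.PM_tr, hdim]
      push_cast
      ring)
    (fun x => by
      have h := TE.PV_tr t hB D.hk D.hL x
      norm_num at h
      exact h)
    (TE.PV_disj t hB D.hk D.hL) (sw := TE.sw 𝒜) (fun _ => rfl) (fun _ => rfl) (TE.hp1_sw t hB D.hk D.hL)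
    hpr (Deg_pull _ (OT.Deg_psS (D.bE (TE.isoE t)) (D.tE (TE.isoE t)))) (s := 1) (by norm_num) hPI
  exact ⟨b, P, c1, c2, c3, c5, c6⟩

end three

end Pool.Agent.Lib.MP_ccbbf6_gt.L5
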