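import Pool.Agent.Lib.MP_ccbbf6_gt.L5.PHI05
import Pool.Agent.Lib.MP_ccbbf6_gt.L5.PHN1

/-!
# Level 5, PHN 2: `q = 2`, the volume bound (helper56)

`NegB.toPhiD` : with `f ^ 2 = 2 b x_0 + d ρ`. `NegB.volume_le` : the bound on the volume in terms of `D` and `α`.
-/

set_option autoImplicit false
set_option maxSynthPendingDepth 3

open Set Filter Topology
open scoped ContDiff

noncomputable section

namespace Pool.Agent.Lib.MP_ccbbf6_gt.L5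

open L4 L4.FR

namespace NegB

section kap

variable {X G M F : Space} {N N' m q : ℕ} (P : NegB X G M F N N' m q)

/-- `x_0 ~ (x_- + x_+) / 2` -/
lemma fl_mean : ∃ y, Deg (2 * q - 1) y ∧ P.B.pi.pull P.D.x =
    (1 / 2 : ℝ) • (wt P.fl P.D.u 0 + wt P.fl P.D.u 1) + dO X y := by
  obtain ⟨y, h1, h2⟩ := P.toPhiK.xh_mean
  refine ⟨y, h1, ?_⟩
  have hx : P.B.pi.pull P.D.x = wt P.fl P.D.u (1 / 2) := by
    rw [P.D.x_def]
    unfold wt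
    have h7 : P.fl.comp (jO X (1 / 2)) = P.D.foot.comp P.B.pi := SMap_ext P.flh
    rw [← pull_comp, ← pull_comp, ← h7]
  rw [hx]
  exact h2

end kap

variable {X G M F : Space} {N m : ℕ} (P : NegB X G M F N 2 m 2)

/-- `f ^ 2 = b (x_- + x_+) + d κ` from `f ^ 2 = 2 b x_0 + d ρ` -/
lemma exists_kap {b : ℝ} {ρ : Om X} (hρ : Deg 3 ρ) (h : P.f ^ 2 = (2 * b) • P.B.pi.pull P.D.x + dO X ρ) :
    ∃ κ : Om X, Deg 3 κ ∧ dO X κ = P.f ^ 2 - b • (wt P.fl P.D.u 0 + wt P.fl P.D.u 1) := by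
  obtain ⟨y, h1, h2⟩ := P.fl_mean
  refine ⟨(2 * b) • y + ρ, Deg_add (Deg_smul _ h1) hρ, ?_⟩
  rw [h, h2, map_add, map_smul, smul_add, smul_smul, show 2 * b * (1 / 2) = b by ring]
  abel

/-- the phi side -/
def toPhiD {b : ℝ} (κ : Om X) (κ3 : Deg 3 κ) (dκ : dO X κ = P.f ^ 2 - b • (wt P.fl P.D.u 0 + wt P.fl P.D.u 1)) :
    PhiD X M m where
  c := P.c
  τ := P.B.ant
  ττ := P.anta
  τc := P.antc
  I := P.IX
  I_d := P.IX_d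
  I_i := P.IX_i
  I_e := P.IX_e
  I_τ := P.IX_τ
  η := P.B.pi.pull P.η
  η1 := Deg_pull _ P.η1
  iη := by rw [← i_eqv P.cG P.c P.pic, P.iη, map_one]
  idη := by rw [pull_d, ← i_eqv P.cG P.c P.pic, P.idη, map_zero]
  τη := P.ant_pi _
  u := P.D.u
  u4 := P.D.Du
  du := P.D.du
  up := P.D.un
  F := P.fl
  F0 := P.fl0
  F1 := P.fl1
  Fτ := P.flτ
  f := P.f
  f2 := P.fd
  df := P.df
  jf := P.jf
  τf := P.fa
  c0 x h hd := P.xc h hd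
  c2 x h hd := by
    obtain ⟨s, t, y, h1, h2⟩ := P.cX (i := 1) le_rfl (by norm_num) h hd
    refine ⟨s, y, h1, ?_⟩
    rw [h2, if_pos rfl, if_neg (by norm_num), add_zero]
  b := b
  κ := κ
  κ3 := κ3
  dκ := dκ

/-- **the volume bound**: `D` and `α` enter by `1 ≤ |D|`, `1 ≤ |α|`. -/
theorem volume_le (hm : 2 ≤ m) {b : ℝ} (κ : Om X) (κ3 : Deg 3 κ)
    (dκ : dO X κ = P.f ^ 2 - b • (wt P.fl P.D.u 0 + wt P.fl P.D.u 1))
    (hD : ∀ D : ℝ, (∃ y, Bas P.c y ∧ iO P.c (AO P.c (b0 P.fl P.D.u)) - D • P.f = dO X y) → 1 ≤ |D|)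
    (hα : ∀ α : ℝ, (∃ y, Bas P.c y ∧ P.f ^ 2 - α • (dO X (P.B.pi.pull P.η)) ^ 2 -
      b • (wt P.fl P.D.u 0 + wt P.fl P.D.u 1) = dO X y) → 1 ≤ |α|)
    (hb : |b| ≤ 2)
    (hfub : ∀ (Θ : Om G) (r : ℝ), Deg N Θ → dO G Θ = P.D.x ^ m → P.D.bM.PI Θ = algebraMap ℝ (Om M) r →
      |P.TG (P.D.x ^ m * Θ)| = |P.D.eps| * |r|)
    (he : |P.D.eps| ≤ 1) :
    |P.TG (P.η * dO G P.η ^ (4 * m - 1))| ≤ 2 * ((4 * m - 1).choose (2 * m - 1) : ℝ) / (2 * m + 1) := by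
  obtain ⟨σ, ξ, hσN, -, -, -, hσ, hPσ⟩ := P.D.exists_sig
  refine (P.toPhiD κ κ3 dκ).volume_le hm P.B.pi P.TG (fun w => ?_) rfl P.D.foot P.flh (σ := σ) ?_ hD hα hb
    (ε := P.D.eps) ?_ he
  · change P.TG (P.B.PI (P.f * P.B.pi.pull w)) = 2 * P.TG w
    rw [P.PI_f_mul, map_smul, smul_eq_mul]
  · rw [hσ]
    rfl
  · change ((m : ℝ) + 1) * |P.TG (P.D.x ^ m * σ)| ≤ P.D.eps ^ 2
    rw [hfub σ _ hσN hσ hPσ, abs_neg, abs_div, ← sq_abs P.D.eps]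
    have h1 : (0 : ℝ) < m + 1 := by positivity
    rw [abs_of_pos h1]
    apply le_of_eq
    field_simp

end NegB

end Pool.Agent.Lib.MP_ccbbf6_gt.L5
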