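import Pool.Agent.Lib.MP_ccbbf6_gt.L5.NX3
import Pool.Agent.Lib.MP_ccbbf6_gt.L5.TE5
import Pool.Agent.Lib.MP_ccbbf6_gt.L5.TP12

/-!
# Level 5, TE6: `f^2 = 2 b x + d ρ` on the unit sphere bundle of the negative bundle, `κ = 3` (helper93)
-/

set_option autoImplicit false
set_option maxSynthPendingDepth 3
set_option linter.unusedSectionVars false

open Set Filter Topology Matrix Real Module
open scoped ContDiff RealInnerProductSpace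

noncomputable section

namespace Pool.Agent.Lib.MP_ccbbf6_gt.L5.TE

open L4 L4.FR Geo L4.ORI NEG

variable {n : ℕ} {M : Type} [MetricSpace M] [CompactSpace M] {𝒜 : SDist n M} (t : TEmb 𝒜)

/-- power sums and the first Pontryagin class -/
theorem hp1_hpb {X : Space} {ι : Type*} [Fintype ι] [DecidableEq ι] {P : Matrix ι ι (SF X)} (hP : P * P = P) :
    L5.hp1 (FO X) hP = (-(1 / (8 * Real.pi ^ 2))) • hpb hP 2 := rfl

/-- `p_1(N) = p_1(V)` over `UM` -/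
theorem hp1_N {κ N : ℕ} {C : Eu N → Gs M → M} {P : Gs M → Eu N →L[ℝ] Eu N} (hB : Bl M) (hk : 𝒜.HK κ)
    (hL : LocV 𝒜 κ) (hN : NegData 𝒜 κ hB C P) (h0 : 0 < κ) : L5.hp1 (FO (spG 𝒜)) (mG_idem hN) =
      (GHom.pull (gF (𝒜 := 𝒜) hB)).he (L5.hp1 (FO (spF 𝒜)) (PV_idem t hB hk hL)) := by
  rw [hp1_hpb, hp1_hpb, map_smul, hpb_N t hB hk hL hN h0 two_ne_zero]

section three

variable {N : ℕ} {C : Eu N → Gs M → M} {P : Gs M → Eu N →L[ℝ] Eu N} {hB : Bl M} (hk : 𝒜.HK 3) (hL : LocV 𝒜 3)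
  (hN : NegData 𝒜 3 hB C P) {b : OBun 3 (Eu n) (spG 𝒜)} (hb : KBun b)

/-- the matrix of the negative bundle over its sphere bundle -/
def pNO : Matrix (Fin N) (Fin N) (SF (spN 𝒜 P)) := (pN hN).map (FHom.inc (circN hB hN)).g

theorem pNO_eq : pNO hN = (mG hN).map (pf (prN 𝒜 P)) := rfl

theorem or_pNO : Or 3 (pNO hN) (fun I => (FHom.inc (circN hB hN)).g (oN lt3 hk hN hb I)) :=
  (or_oN lt3 hk hN hb).map' ((FHom.inc (circN hB hN)).g : SB (circN hB hN) →+* SF (spN 𝒜 P))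

theorem sec_yNO : Sec (pNO hN) (fun l => (FHom.inc (circN hB hN)).g (yN hN l)) :=
  (sec_yN hN).map (FHom.inc (circN hB hN)).g

theorem fN_f3 : fN hk hN hb = f3 (FO (spN 𝒜 P)) (pNO hN) (fun I => (FHom.inc (circN hB hN)).g (oN lt3 hk hN hb I))
    (fun l => (FHom.inc (circN hB hN)).g (yN hN l)) :=
  (FHom.inc (circN hB hN)).f3 (P := pN hN) (y := yN hN) (o := oN lt3 hk hN hb)

/-- the class of `f` -/
theorem cl_fN : hF (FO (spN 𝒜 P)) (or_pNO hk hN hb) (sec_yNO hN) =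
    GDA.cl (G := GO (spN 𝒜 P)) (fN hk hN hb) (s_fN hk hN hb) (d_fN hk hN hb) :=
  GDA.cl_congr (fN_f3 hk hN hb).symm _ _

/-- `f^2` in the cohomology of the sphere bundle -/
theorem cl_fN_sq : GDA.cl (G := GO (spN 𝒜 P)) (fN hk hN hb) (s_fN hk hN hb) (d_fN hk hN hb) *
    GDA.cl (G := GO (spN 𝒜 P)) (fN hk hN hb) (s_fN hk hN hb) (d_fN hk hN hb) =
      (GHom.pull (prN 𝒜 P)).he ((GHom.pull (gF (𝒜 := 𝒜) hB)).he (L5.hp1 (FO (spF 𝒜)) (PV_idem t hB hk hL))) := by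
  rw [← hp1_N t hB hk hL hN (by norm_num), ← cl_fN hk hN hb, hF_sq (CylO (spN 𝒜 P)) (or_pNO hk hN hb) (sec_yNO hN),
    hp1_hpb, hp1_hpb, map_smul, hpb_pull]
  rfl

/-- **`f^2 = 2 b x + d ρ`** -/
theorem fN_sq {K m : ℕ} (D : CohD K 3 m (spM 𝒜) (spG 𝒜) (spF 𝒜)) (hg : D.g = gF hB) {b₀ : ℝ}
    (h : L5.hp1 (FO (spF 𝒜)) (PV_idem t hB hk hL) = b₀ • (D.k1 + D.k2)) :
    ∃ ρ : Om (spN 𝒜 P), Deg 3 ρ ∧ fN hk hN hb ^ 2 = (2 * b₀) • (prN 𝒜 P).pull D.x + dO _ ρ := by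
  have e1 : (GHom.pull (gF (𝒜 := 𝒜) hB)).he D.k1 = GDA.cl (G := GO (spG 𝒜)) D.x D.sx D.dx := by
    have h1 : (GHom.pull (gF (𝒜 := 𝒜) hB)).he D.k1 = (GHom.pull D.g).he D.k1 := by rw [hg]
    rw [h1]
    exact Eq.trans (b := GDA.cl (G := GO (spG 𝒜)) (D.g.pull (D.p1.pull D.u))
      (by show sO _ _ = _; rw [pull_s, pull_s, D.su]) (by show dO _ _ = _; rw [pull_d, pull_d, D.du, map_zero, map_zero]))
      rfl (GDA.cl_congr (D.g_p1 D.u) _ _)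
  have e2 : (GHom.pull (gF (𝒜 := 𝒜) hB)).he D.k2 = GDA.cl (G := GO (spG 𝒜)) D.x D.sx D.dx := by
    have h1 : (GHom.pull (gF (𝒜 := 𝒜) hB)).he D.k2 = (GHom.pull D.g).he D.k2 := by rw [hg]
    rw [h1]
    have h2 : D.g.pull (D.p2.pull D.u) = D.x + dO _ D.psi := by
      rw [D.d_psi, D.g_p2]
      exact (add_sub_cancel _ _).symm
    exact Eq.trans (b := GDA.cl (G := GO (spG 𝒜)) (D.g.pull (D.p2.pull D.u))
      (by show sO _ _ = _; rw [pull_s, pull_s, D.su]) (by show dO _ _ = _; rw [pull_d, pull_d, D.du, map_zero, map_zero]))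
      rfl (GDA.cl_eq.2 ⟨D.psi, h2⟩)
  have e3 := cl_fN_sq t hk hL hN hb
  rw [h, map_smul, map_smul, map_add, e1, e2, ← two_smul ℝ, map_smul, smul_smul, mul_comm b₀ 2] at e3
  have e4 : GDA.cl (G := GO (spN 𝒜 P)) (fN hk hN hb * fN hk hN hb)
      (by show sO _ _ = _; rw [map_mul, s_fN]) (by show dO _ _ = _; rw [d_mul, d_fN, mul_zero, zero_mul, add_zero]) =
      GDA.cl (G := GO (spN 𝒜 P)) ((2 * b₀) • (prN 𝒜 P).pull D.x)
        (by show sO _ _ = _; rw [map_smul, pull_s, D.sx]) (by show dO _ _ = _; rw [map_smul, pull_d, D.dx, map_zero, smul_zero]) := e3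
  obtain ⟨ξ, hξ⟩ := GDA.cl_eq.1 e4
  have hξ' : fN hk hN hb * fN hk hN hb = (2 * b₀) • (prN 𝒜 P).pull D.x + dO _ ξ := hξ
  have h4 : Deg (3 + 1) (fN hk hN hb * fN hk hN hb) := Deg_mul (i := 2) (j := 2) (Deg_fN hk hN hb) (Deg_fN hk hN hb)
  have h5 : Deg (3 + 1) ((2 * b₀) • (prN 𝒜 P).pull D.x) := Deg_smul _ (Deg_pull _ D.Deg_x)
  obtain ⟨ρ, h6, h7⟩ := exists_prim_Deg (w := fN hk hN hb * fN hk hN hb - (2 * b₀) • (prN 𝒜 P).pull D.x) (ξ := ξ)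
    (by rw [hξ', add_sub_cancel_left]) (Deg_sub h4 h5)
  refine ⟨ρ, h6, ?_⟩
  rw [pow_two, ← h7, add_sub_cancel]

end three

end Pool.Agent.Lib.MP_ccbbf6_gt.L5.TE
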