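import Pool.Agent.Lib.MP_ccbbf6_gt.L5.IB9
import Pool.Agent.Lib.MP_ccbbf6_gt.L5.OT3
import Pool.Agent.Lib.MP_ccbbf6_gt.L5.TE5
import Pool.Agent.Lib.MP_ccbbf6_gt.L5.TP12

/-!
# Level 5, TE7: the matrix of `V` along the cut map; form level of `p_1(V) = b (u1 + u2)` (helper93)
-/

set_option autoImplicit false
set_option maxSynthPendingDepth 3
set_option linter.unusedSectionVars false

open Set Filter Topology Matrix Real Module
open scoped ContDiff RealInnerProductSpace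

noncomputable section

namespace Pool.Agent.Lib.MP_ccbbf6_gt.L5.TE

open L4 L4.FR Geo L4.ORI

variable {n κ : ℕ} {M : Type} [MetricSpace M] [CompactSpace M] {𝒜 : SDist n M} (t : TEmb 𝒜)

/-- the matrix of the embedding -/
def tJ (x : M) : Matrix (Fin t.D) (Fin n) ℝ := etR (t.i x).toLinearMap

theorem etR_adj {a b : ℕ} (L : EuclideanSpace ℝ (Fin a) →L[ℝ] EuclideanSpace ℝ (Fin b)) :
    etR (ContinuousLinearMap.adjoint L : EuclideanSpace ℝ (Fin b) →ₗ[ℝ] EuclideanSpace ℝ (Fin a)) =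
      (etR (L : EuclideanSpace ℝ (Fin a) →ₗ[ℝ] EuclideanSpace ℝ (Fin b)))ᵀ := by
  ext i j
  have h1 := ContinuousLinearMap.adjoint_inner_left L (EuclideanSpace.single i (1 : ℝ)) (EuclideanSpace.single j (1 : ℝ))
  rw [EuclideanSpace.inner_single_right, EuclideanSpace.inner_single_left] at h1
  simpa [etR] using h1

theorem tJ_mul (x : M) : (tJ t x).transpose * tJ t x = 1 := by
  have h1 := etR_adj (t.i x).toContinuousLinearMap
  have h2 : (tJ t x).transpose = etR (ContinuousLinearMap.adjoint (t.i x).toContinuousLinearMap :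
      EuclideanSpace ℝ (Fin t.D) →ₗ[ℝ] Eu n) := h1.symm
  rw [h2]
  unfold tJ
  rw [← etR_mul]
  ext i j
  have h3 : (ContinuousLinearMap.adjoint (t.i x).toContinuousLinearMap) (t.i x (EuclideanSpace.single j 1)) =
      EuclideanSpace.single j (1 : ℝ) := by
    refine ext_inner_left ℝ fun v => ?_
    rw [ContinuousLinearMap.adjoint_inner_right]
    exact (t.i x).inner_map_map _ _
  show (ContinuousLinearMap.adjoint (t.i x).toContinuousLinearMap) (t.i x (EuclideanSpace.single j 1)) i = _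
  rw [h3, Matrix.one_apply]
  simp

theorem pW_map (x : M) (W : Submodule ℝ (Eu n)) :
    OT.pW (W.map (t.i x).toLinearMap) = tJ t x * ent (W.starProjection) * (tJ t x).transpose := by
  have h2 : (tJ t x).transpose = etR (ContinuousLinearMap.adjoint (t.i x).toContinuousLinearMap :
      EuclideanSpace ℝ (Fin t.D) →ₗ[ℝ] Eu n) := (etR_adj (t.i x).toContinuousLinearMap).symm
  have h3 : ent (W.starProjection) = etR (W.starProjection : Eu n →ₗ[ℝ] Eu n) := rfl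
  rw [h2, h3]
  unfold tJ
  rw [← etR_mul, ← etR_mul]
  ext i j
  obtain ⟨e, he⟩ : ∃ e : EuclideanSpace ℝ (Fin t.D), e = EuclideanSpace.single j (1 : ℝ) := ⟨_, rfl⟩
  have h4 : (W.map (t.i x).toLinearMap).starProjection e =
      t.i x (W.starProjection (ContinuousLinearMap.adjoint (t.i x).toContinuousLinearMap e)) := by
    refine Submodule.eq_starProjection_of_mem_of_inner_eq_zero (K := W.map (t.i x).toLinearMap)
      (Submodule.mem_map_of_mem (Submodule.starProjection_apply_mem W _)) ?_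
    rintro _ ⟨w, hw, rfl⟩
    show ⟪e - t.i x (W.starProjection (ContinuousLinearMap.adjoint (t.i x).toContinuousLinearMap e)), t.i x w⟫ = 0
    rw [inner_sub_left, (t.i x).inner_map_map]
    have h5 := Submodule.inner_starProjection_left_eq_right W
      (ContinuousLinearMap.adjoint (t.i x).toContinuousLinearMap e) w
    rw [Submodule.starProjection_eq_self_iff.2 hw] at h5
    rw [h5, ContinuousLinearMap.adjoint_inner_left, sub_eq_zero]
    rfl
  show (W.map (t.i x).toLinearMap).starProjection (EuclideanSpace.single j 1) i =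
    t.i x (W.starProjection (ContinuousLinearMap.adjoint (t.i x).toContinuousLinearMap (EuclideanSpace.single j 1))) i
  rw [← he, h4]

/-- **the matrix of `V` along the cut map** -/
theorem PV_cF (hB : Bl M) (hk : 𝒜.HK κ) (hL : LocV 𝒜 κ) (p : M) (x : (spP 𝒜 p).pt) (i j : Fin t.D) :
    (PV t hB hk hL i j).1 ((IB.cF hB hk p).1 x) = (tJ t p * ent (prX 𝒜 p x.1) * (tJ t p).transpose) i j := by
  have h1 : VF 𝒜 ((IB.cF hB hk p).1 x) = 𝒜.PV p (𝒜.vel (cz hB ((IB.cF hB hk p).1 x)).1 0) := by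
    have h2 := VF_cz hB ((IB.cF hB hk p).1 x)
    rw [cz0] at h2
    exact h2
  have h3 : 𝒜.Ex p (rad π (𝒜.vel (cz hB ((IB.cF hB hk p).1 x)).1 0)) = cutp p x.1 := by
    have h4 := gs_Ex 𝒜 hB (cz hB ((IB.cF hB hk p).1 x)) π
    rw [czp, cz0] at h4
    exact h4.symm
  rw [prX_eq hB x.2 (vel_ne 𝒜 _) h3]
  have h5 := congrFun (congrFun (pW_map t p (𝒜.PV p (𝒜.vel (cz hB ((IB.cF hB hk p).1 x)).1 0))) i) j
  rw [← h5, ← h1]
  rfl

/-- `p_1(V) = b (u_1 + u_2)` on the level of forms -/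
theorem ps_PV {N m : ℕ} {hB : Bl M} {hk : 𝒜.HK κ} {hL : LocV 𝒜 κ} {G : Space} (D : CohD N 3 m (spM 𝒜) G (spF 𝒜)) {b : ℝ}
    (hp1 : D.p1 = pF1 𝒜) (hp2 : D.p2 = pF2 𝒜)
    (h : L5.hp1 (FO (spF 𝒜)) (PV_idem t hB hk hL) = b • (D.k1 + D.k2)) :
    ∃ ρ : Om (spF 𝒜), Deg 3 ρ ∧ (-(1 / (8 * π ^ 2))) • (GO (spF 𝒜)).ps ((PV t hB hk hL).map (FO (spF 𝒜)).f) 2 =
      b • ((pF1 𝒜).pull D.u + (pF2 𝒜).pull D.u) + dO _ ρ := by
  have hI := (FO (spF 𝒜)).idem (PV_idem t hB hk hL)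
  have e4 : GDA.cl (G := GO (spF 𝒜)) ((-(1 / (8 * π ^ 2))) • (GO (spF 𝒜)).ps ((PV t hB hk hL).map (FO (spF 𝒜)).f) 2)
      (by rw [map_smul, hI.s_ps]) (by rw [map_smul, hI.d_ps, smul_zero]) =
      GDA.cl (G := GO (spF 𝒜)) (b • ((pF1 𝒜).pull D.u + (pF2 𝒜).pull D.u))
        (by show sO _ _ = _; rw [map_smul, map_add, pull_s, pull_s, D.su])
        (by show dO _ _ = _; rw [map_smul, map_add, pull_d, pull_d, D.du, map_zero, map_zero, add_zero, smul_zero]) := by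
    have h1 : D.k1 + D.k2 = GDA.cl (G := GO (spF 𝒜)) ((pF1 𝒜).pull D.u + (pF2 𝒜).pull D.u)
        (by show sO _ _ = _; rw [map_add, pull_s, pull_s, D.su])
        (by show dO _ _ = _; rw [map_add, pull_d, pull_d, D.du, map_zero, map_zero, add_zero]) := by
      exact Eq.trans (b := GDA.cl (G := GO (spF 𝒜)) (D.p1.pull D.u + D.p2.pull D.u)
        (by show sO _ _ = _; rw [map_add, pull_s, pull_s, D.su])
        (by show dO _ _ = _; rw [map_add, pull_d, pull_d, D.du, map_zero, map_zero, add_zero])) rfl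
        (GDA.cl_congr (by rw [hp1, hp2]) _ _)
    rw [h1] at h
    exact h
  obtain ⟨ξ, hξ⟩ := GDA.cl_eq.1 e4
  have h5 : Deg (3 + 1) ((-(1 / (8 * π ^ 2))) • (GO (spF 𝒜)).ps ((PV t hB hk hL).map (FO (spF 𝒜)).f) 2) :=
    Deg_smul _ (OT.Deg_ps (PV t hB hk hL) 2)
  have h6 : Deg (3 + 1) (b • ((pF1 𝒜).pull D.u + (pF2 𝒜).pull D.u)) :=
    Deg_smul _ (Deg_add (Deg_pull _ D.Du) (Deg_pull _ D.Du))
  have hξ' : (-(1 / (8 * π ^ 2))) • (GO (spF 𝒜)).ps ((PV t hB hk hL).map (FO (spF 𝒜)).f) 2 =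
      b • ((pF1 𝒜).pull D.u + (pF2 𝒜).pull D.u) + dO _ ξ := hξ
  obtain ⟨ρ, h7, h8⟩ := exists_prim_Deg
    (w := (-(1 / (8 * π ^ 2))) • (GO (spF 𝒜)).ps ((PV t hB hk hL).map (FO (spF 𝒜)).f) 2 -
      b • ((pF1 𝒜).pull D.u + (pF2 𝒜).pull D.u)) (ξ := ξ)
    (by rw [hξ', add_sub_cancel_left]) (Deg_sub h5 h6)
  refine ⟨ρ, h7, ?_⟩
  rw [← h8, add_sub_cancel]

end Pool.Agent.Lib.MP_ccbbf6_gt.L5.TE
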