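import Pool.Agent.Lib.MP_ccbbf6_gt.L5.ASM1
import Pool.Agent.Lib.MP_ccbbf6_gt.L5.COH5
import Pool.Agent.Lib.MP_ccbbf6_gt.L5.GED
import Pool.Agent.Lib.MP_ccbbf6_gt.L5.KBI
import Pool.Agent.Lib.MP_ccbbf6_gt.L5.PHN2
import Pool.Agent.Lib.MP_ccbbf6_gt.L5.PHN5
import Pool.Agent.Lib.MP_ccbbf6_gt.L5.TE6
import Pool.Agent.Lib.MP_ccbbf6_gt.L5.TE7
import Pool.Agent.Lib.MP_ccbbf6_gt.L5.VOLb
import Pool.Agent.Lib.MP_ccbbf6_gt.L5.ZCx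

/-!
# Level 5, ASM2: the volume bound for `κ = 3` (helper93)
-/

set_option autoImplicit false
set_option maxSynthPendingDepth 3
set_option linter.unusedSectionVars false

open Set Filter Topology Matrix Real Module MeasureTheory
open scoped ContDiff RealInnerProductSpace

noncomputable section

namespace Pool.Agent.Lib.MP_ccbbf6_gt.L5

open L4 L4.FR Geo L4.ORI NEG

section three

variable {N K R : ℕ} {M : Type} [MetricSpace M] [CompactSpace M] {𝒜 : SDist (N + 1) M} {hB : Bl M}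

/-- `p_1(N) = b (k_1 + k_2)` -/
theorem GeoD.hNVa (D : GeoD 𝒜 hB 3 (K + 2)) (t : TEmb 𝒜) {C : Eu R → Gs M → M} {P : Gs M → Eu R →L[ℝ] Eu R}
    (hN : NegData 𝒜 3 hB C P) {b : ℝ}
    (h : L5.hp1 (FO (spF 𝒜)) (TE.PV_idem t hB D.hk D.hL) = b • (D.coh.k1 + D.coh.k2)) :
    L5.hp1 (FO (spG 𝒜)) (mG_idem hN) = (GHom.pull D.coh.g).he (b • (D.coh.k1 + D.coh.k2)) := by
  rw [← h]
  exact TE.hp1_N t hB D.hk D.hL hN (by norm_num)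

/-- `b = 4 j + 2` -/
theorem GeoD.b_mod (D : GeoD 𝒜 hB 3 (K + 2)) (t : TEmb 𝒜) {p : M} {o : Eu (N + 1) → EuclideanSpace ℝ (Fin (3 + 1) → Fin (N + 1))}
    (ho : OrP 𝒜 3 p o) {g : (spVF 𝒜 3).pt → ℝ} (hU : UD 𝒜 hB 3 (uM hB (angD hB D.hk ho)) g)
    (hu : D.u = uM hB (angD hB D.hk ho)) {b : ℝ}
    (h : L5.hp1 (FO (spF 𝒜)) (TE.PV_idem t hB D.hk D.hL) = b • (D.coh.k1 + D.coh.k2)) : ∃ j : ℤ, b = 4 * j + 2 := by
  obtain ⟨ρ, hρ, h1⟩ := TE.ps_PV t D.coh rfl rfl h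
  have h2 : D.coh.u = uM hB (angD hB D.hk ho) := hu
  rw [h2] at h1
  have hdim := D.dim
  exact IB.exists_b (by omega) hB D.hk ho hU (TE.tJ_mul t p) (TE.PV_cF t hB D.hk D.hL p) hρ h1

variable [MeasurableSpace M] [BorelSpace M]

/-- **the volume bound**, with the two inputs `|b| ≤ 2` and `|α| ≥ 1` -/
theorem GeoD.TG_le (D : GeoD 𝒜 hB 3 (K + 2)) {C : Eu R → Gs M → M} {P : Gs M → Eu R →L[ℝ] Eu R}
    {f : Gs M → Eu R → M} (hN : NegData 𝒜 3 hB C P) (hF : FillP 𝒜 C P f)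
    {bo : OBun 3 (Eu (N + 1)) (spG 𝒜)} (hb : KBun bo) {g : (spVF 𝒜 3).pt → ℝ} (hU : UD 𝒜 hB 3 D.u g)
    {k : ℤ} (hk : |(k : ℝ) * D.coh.eps| = 1) {b : ℝ}
    (hNV : L5.hp1 (FO (spG 𝒜)) (mG_idem hN) = (GHom.pull D.coh.g).he (b • (D.coh.k1 + D.coh.k2)))
    (hb2 : |b| ≤ 2)
    (hα : ∀ α : ℝ, (∃ y, Bas (negB D hN hF hN.fam hb).c y ∧ (negB D hN hF hN.fam hb).f ^ 2 -
      α • (dO _ ((negB D hN hF hN.fam hb).B.pi.pull (negB D hN hF hN.fam hb).η)) ^ 2 -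
      b • (wt (negB D hN hF hN.fam hb).fl (negB D hN hF hN.fam hb).D.u 0 +
        wt (negB D hN hF hN.fam hb).fl (negB D hN hF hN.fam hb).D.u 1) = dO _ y) → 1 ≤ |α|)
    {p : M} {ψ : Om (spR (N + 1))} {Bf : Fm (N + 1)} (hc : ConcD 𝒜 hB 3 (K + 2) p ψ Bf D.u) :
    |TG hB (AL hB 𝒜 * dO _ (AL hB 𝒜) ^ (4 * (K + 2) - 1))| ≤
      2 * ((4 * (K + 2) - 1).choose (2 * (K + 2) - 1) : ℝ) / (2 * (K + 2) + 1) := by
  have hdim := D.dim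
  obtain ⟨ρ, hρ, h1⟩ := negB_rho D hN hF hN.fam hb hNV
  obtain ⟨kp, k3, dk⟩ := (negB D hN hF hN.fam hb).exists_kap hρ h1
  have he : |D.coh.eps| ≤ 1 := by
    rw [abs_mul] at hk
    have h2 : (1 : ℝ) ≤ |(k : ℝ)| := by
      have h3 : k ≠ 0 := by
        rintro rfl
        simp at hk
      have h4 : (1 : ℤ) ≤ |k| := Int.one_le_abs h3
      exact_mod_cast h4
    nlinarith [abs_nonneg D.coh.eps]
  have hfub : ∀ (Θ : Om (spG 𝒜)) (r : ℝ), Deg N Θ → dO (spG 𝒜) Θ = D.coh.x ^ (K + 2) →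
      D.coh.bM.PI Θ = algebraMap ℝ (Om (spM 𝒜)) r → |TG hB (D.coh.x ^ (K + 2) * Θ)| = |D.coh.eps| * |r| := by
    intro Θ r h1 h2 h3
    refine D.hfub hc h1 (a := D.u ^ (K + 2)) ?_ ?_ h3
    · have h4 := Deg_pow D.Du (K + 2)
      rwa [← hdim] at h4
    · rw [h2, map_pow]
      exact congrArg (fun w : Om (spG 𝒜) => w ^ (K + 2)) D.coh.x_def
  have h5 := (negB D hN hF hN.fam hb).volume_le (by omega) kp k3 dk
    (fun D' hy => negB_D D hN hF hN.fam hb (by omega) hU D' hy) hα hb2 hfub he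
  have h6 : ((K + 2 : ℕ) : ℝ) = (K : ℝ) + 2 := by push_cast; ring
  rw [h6] at h5
  exact h5

theorem isModel_three' {n m : ℕ} {M : Type} [MetricSpace M] [CompactSpace M] [MeasurableSpace M] [BorelSpace M]
    [Nonempty M] (hn : n = 4 * m) (hm : 0 < m) (𝒜 : SDist n M) (hB : Bl M) (h3 : 𝒜.HK 3)
    (h : |TG hB (AL hB 𝒜 * dO _ (AL hB 𝒜) ^ (4 * m - 1))| ≤
      2 * ((4 * m - 1).choose (2 * m - 1) : ℝ) / (2 * m + 1)) : Blaschke.IsModel n 3 M := by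
  subst hn
  exact isModel_three hm 𝒜 hB h3 h

/-- **`κ = 3`, `n ≥ 5`: the model**, with the two inputs `|b| ≤ 2` and `|α| ≥ 1` -/
theorem model_three_of [Nonempty M] (hn : 5 ≤ N + 1) (hB : Bl M) (hk : 𝒜.HK 3)
    (Hb : ∀ {K : ℕ} (D : GeoD 𝒜 hB 3 (K + 2)) (t : TEmb 𝒜) {b : ℝ} {P : PowerSeries ℝ} {g : (spVF 𝒜 3).pt → ℝ},
      UD 𝒜 hB 3 D.u g → PowerSeries.constantCoeff P = 1 → PTd 2 (TE.PM_idem t (Nat.succ_pos N)) = evS D.coh.ku P →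
      PTd 2 (TE.PV_idem t hB D.hk D.hL) = Asr b D.coh.k1 D.coh.k2 →
      L5.hp1 (FO (spF 𝒜)) (TE.PV_idem t hB D.hk D.hL) = b • (D.coh.k1 + D.coh.k2) →
      (∀ j ≤ K + 2, PowerSeries.coeff j (P * (1 + 2 * PowerSeries.C b * PowerSeries.X)) =
          PowerSeries.coeff j (Aser b ^ (K + 3))) → (∃ j : ℤ, b = 4 * j + 2) → |b| ≤ 2)
    (Ha : ∀ {K R : ℕ} (D : GeoD 𝒜 hB 3 (K + 2)) {C : Eu R → Gs M → M} {P : Gs M → Eu R →L[ℝ] Eu R}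
      {f : Gs M → Eu R → M} (hN : NegData 𝒜 3 hB C P) (hF : FillP 𝒜 C P f)
      {bo : OBun 3 (Eu (N + 1)) (spG 𝒜)} (hb : KBun bo) {g : (spVF 𝒜 3).pt → ℝ}, UD 𝒜 hB 3 D.u g → ∀ {b : ℝ},
      L5.hp1 (FO (spG 𝒜)) (mG_idem hN) = (GHom.pull D.coh.g).he (b • (D.coh.k1 + D.coh.k2)) →
      (∃ j : ℤ, b = 4 * j + 2) → ∀ α : ℝ, (∃ y, Bas (negB D hN hF hN.fam hb).c y ∧ (negB D hN hF hN.fam hb).f ^ 2 -
      α • (dO _ ((negB D hN hF hN.fam hb).B.pi.pull (negB D hN hF hN.fam hb).η)) ^ 2 -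
      b • (wt (negB D hN hF hN.fam hb).fl (negB D hN hF hN.fam hb).D.u 0 +
        wt (negB D hN hF hN.fam hb).fl (negB D hN hF hN.fam hb).D.u 1) = dO _ y) → 1 ≤ |α|) :
    Blaschke.IsModel (N + 1) 3 M := by
  obtain ⟨p⟩ : Nonempty M := inferInstance
  obtain ⟨o, ho, g, hh, hU⟩ := IB.exists_UDo (𝒜 := 𝒜) (by omega) hB hk p
  obtain ⟨m, hm, hdim, hD⟩ := exists_GeoD (𝒜 := 𝒜) (hB := hB) hk (by decide) (by norm_num) hU p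
  obtain ⟨K, rfl⟩ : ∃ K, m = K + 2 := ⟨m - 2, by omega⟩
  obtain ⟨D, hu, k, hk1⟩ := hD (by omega)
  obtain ⟨t⟩ := exists_TEmb 𝒜
  obtain ⟨e⟩ := exists_emb 𝒜
  have hG : Nonempty (Gs M) := ⟨gvg 𝒜 hB D.f0.1.1 (D.f0.1.2 0) (D.f0.2.2.1 0)⟩
  obtain ⟨R, C, P, hN⟩ := exists_neg hB e hk
  obtain ⟨f, hF⟩ := exists_fillP hB e hN
  have hb : KBun (bKo hB D.hk D.hL D.Deg_b D.orV D.hκ) := KBun_bKo hB D.hk D.hL D.Deg_b D.orV D.hκ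
  obtain ⟨b, Ps, c1, c2, c3, c4, c5⟩ := D.tpf t
  have hj := D.b_mod t ho hU hu c4
  have hU' : UD 𝒜 hB 3 D.u g := by
    rw [hu]
    exact hU
  have hb2 := Hb D t hU' c1 c2 c3 c4 c5 hj
  have hNV := D.hNVa t hN c4
  have hc : ConcD 𝒜 hB 3 (K + 2) p (psP hB hk ho) (BBp (psP hB hk ho)) D.u := by
    rw [hu]
    exact concD_uM hB hdim (by omega) ⟨1, rfl⟩ (angD hB hk ho) hh
  have h1 := D.TG_le hN hF hb hU' hk1 hNV hb2 (Ha D hN hF hb hU' hNV hj) hc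
  refine isModel_three' (m := K + 2) hdim (by omega) 𝒜 hB hk ?_
  push_cast
  exact h1

end three

end Pool.Agent.Lib.MP_ccbbf6_gt.L5
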