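import Pool.Agent.Lib.MP_ccbbf6_gt.ML

/-!
Block ALG of the case `κ = 3`, part 1: one-variable polynomials.

`gpq p q = [X ^ (p + q)] (X + 1) ^ (2 p) (X - 1) ^ (2 q)` equals `(-1) ^ q` times a super Catalan number.
`Sp u w n` is the solution of `S (n + 2) = u (X + 1) S (n + 1) + w (X - 1) ^ 2 S n`, `S 0 = 0`, `S 1 = 1`.
-/

namespace Pool.Agent.Lib.MP_ccbbf6_gt.L5

open Polynomial

/-- The super Catalan number `(2 p)! (2 q)! / (p! q! (p + q)!)`. -/
noncomputable def scat (p q : ℕ) : ℝ :=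
  ((2 * p).factorial : ℝ) * (2 * q).factorial / (p.factorial * q.factorial * (p + q).factorial)

theorem scat_pos (p q : ℕ) : 0 < scat p q := by
  unfold scat
  positivity

theorem scat_rec (p q : ℕ) : 4 * scat p q = scat (p + 1) q + scat p (q + 1) := by
  have e1 : ((2 * (p + 1)).factorial : ℝ) = (2 * p + 2) * ((2 * p + 1) * (2 * p).factorial) := by
    rw [show 2 * (p + 1) = 2 * p + 1 + 1 by ring, Nat.factorial_succ, Nat.factorial_succ]
    push_cast
    ring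
  have e2 : ((2 * (q + 1)).factorial : ℝ) = (2 * q + 2) * ((2 * q + 1) * (2 * q).factorial) := by
    rw [show 2 * (q + 1) = 2 * q + 1 + 1 by ring, Nat.factorial_succ, Nat.factorial_succ]
    push_cast
    ring
  have e3 : ((p + 1).factorial : ℝ) = (p + 1) * p.factorial := by
    rw [Nat.factorial_succ]
    push_cast
    ring
  have e4 : ((q + 1).factorial : ℝ) = (q + 1) * q.factorial := by
    rw [Nat.factorial_succ]
    push_cast
    ring
  have e5 : ((p + 1 + q).factorial : ℝ) = (p + q + 1) * (p + q).factorial := by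
    rw [show p + 1 + q = p + q + 1 by ring, Nat.factorial_succ]
    push_cast
    ring
  have e6 : ((p + (q + 1)).factorial : ℝ) = (p + q + 1) * (p + q).factorial := by
    rw [show p + (q + 1) = p + q + 1 by ring, Nat.factorial_succ]
    push_cast
    ring
  unfold scat
  rw [e1, e2, e3, e4, e5, e6]
  have f1 : (p.factorial : ℝ) ≠ 0 := by positivity
  have f2 : (q.factorial : ℝ) ≠ 0 := by positivity
  have f3 : ((p + q).factorial : ℝ) ≠ 0 := by positivity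
  have f4 : (p : ℝ) + 1 ≠ 0 := by positivity
  have f5 : (q : ℝ) + 1 ≠ 0 := by positivity
  have f6 : (p : ℝ) + q + 1 ≠ 0 := by positivity
  field_simp
  ring

/-- `[X ^ (p + q)] (X + 1) ^ (2 p) (X - 1) ^ (2 q)` -/
noncomputable def gpq (p q : ℕ) : ℝ :=
  ((X + 1) ^ (2 * p) * (X - 1) ^ (2 * q) : ℝ[X]).coeff (p + q)

theorem gpq_zero (p : ℕ) : gpq p 0 = scat p 0 := by
  unfold gpq scat
  rw [mul_zero, pow_zero, mul_one, add_zero, coeff_X_add_one_pow, Nat.factorial_zero]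
  have h := Nat.choose_mul_factorial_mul_factorial (n := 2 * p) (k := p) (by omega)
  rw [show 2 * p - p = p by omega] at h
  have h' : ((2 * p).choose p : ℝ) * p.factorial * p.factorial = (2 * p).factorial := by
    exact_mod_cast h
  have f1 : (p.factorial : ℝ) ≠ 0 := by positivity
  field_simp
  rw [← h']
  ring

theorem gpq_rec (p q : ℕ) : gpq p (q + 1) = gpq (p + 1) q - 4 * gpq p q := by
  unfold gpq
  have h : ((X + 1) ^ (2 * p) * (X - 1) ^ (2 * (q + 1)) : ℝ[X]) =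
      (X + 1) ^ (2 * (p + 1)) * (X - 1) ^ (2 * q) -
        C 4 * (X * ((X + 1) ^ (2 * p) * (X - 1) ^ (2 * q))) := by
    have h4 : (C 4 : ℝ[X]) = 4 := rfl
    rw [h4]
    ring
  rw [h, coeff_sub, coeff_C_mul, show p + (q + 1) = p + q + 1 by ring, coeff_X_mul,
    show p + 1 + q = p + q + 1 by ring]

theorem gpq_eq (q : ℕ) : ∀ p, gpq p q = (-1) ^ q * scat p q := by
  induction q with
  | zero =>
    intro p
    rw [gpq_zero, pow_zero, one_mul]
  | succ q ih =>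
    intro p
    rw [gpq_rec, ih, ih, pow_succ]
    linear_combination -(-1) ^ q * (scat_rec p q)

/-- The solution of `S (n + 2) = u (X + 1) S (n + 1) + w (X - 1) ^ 2 S n`. -/
noncomputable def Sp (u w : ℝ) : ℕ → ℝ[X]
  | 0 => 0
  | 1 => 1
  | n + 2 => C u * (X + 1) * Sp u w (n + 1) + C w * (X - 1) ^ 2 * Sp u w n

/-- The multiplicities `C (n - 1 - j, j)`, by their recursion. -/
def Nn : ℕ → ℕ → ℕ
  | 0, _ => 0
  | 1, 0 => 1
  | 1, _ + 1 => 0
  | n + 2, 0 => Nn (n + 1) 0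
  | n + 2, j + 1 => Nn (n + 1) (j + 1) + Nn n j

theorem Nn_zero (n j : ℕ) (h : n ≤ 2 * j) : Nn n j = 0 := by
  induction n using Nat.strong_induction_on generalizing j with
  | _ n ih =>
    match n, j with
    | 0, _ => rfl
    | 1, 0 => omega
    | 1, _ + 1 => rfl
    | n + 2, 0 => omega
    | n + 2, j + 1 =>
      rw [Nn, ih (n + 1) (by omega) (j + 1) (by omega), ih n (by omega) j (by omega)]

theorem aux1 (N u w : ℝ) (a b c : ℕ) :
    C u * (X + 1) * (C (N * (u ^ a * w ^ b)) * ((X + 1) ^ a * (X - 1) ^ c)) =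
      C (N * (u ^ (a + 1) * w ^ b)) * ((X + 1) ^ (a + 1) * (X - 1) ^ c) := by
  simp only [C_mul, C_pow]
  ring

theorem aux2 (N u w : ℝ) (a b c : ℕ) :
    C w * (X - 1) ^ 2 * (C (N * (u ^ a * w ^ b)) * ((X + 1) ^ a * (X - 1) ^ c)) =
      C (N * (u ^ a * w ^ (b + 1))) * ((X + 1) ^ a * (X - 1) ^ (c + 2)) := by
  simp only [C_mul, C_pow]
  ring

theorem Sp_eq (u w : ℝ) (n : ℕ) : ∀ M, n ≤ M → Sp u w n = ∑ j ∈ Finset.range M,
    C ((Nn n j : ℝ) * (u ^ (n - 1 - 2 * j) * w ^ j)) * ((X + 1) ^ (n - 1 - 2 * j) * (X - 1) ^ (2 * j)) := by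
  induction n using Nat.strong_induction_on with
  | _ n ih =>
    intro M hM
    match n, ih, hM with
    | 0, _, _ =>
      rw [Sp]
      refine (Finset.sum_eq_zero fun j _ => ?_).symm
      rw [Nn_zero 0 j (by omega)]
      simp
    | 1, _, hM =>
      obtain ⟨M, rfl⟩ : ∃ k, M = k + 1 := ⟨M - 1, by omega⟩
      rw [Sp, Finset.sum_range_succ', Finset.sum_eq_zero]
      · simp [Nn]
      · intro j _
        simp [Nn]
    | n + 2, ih, hM =>
      obtain ⟨M, rfl⟩ : ∃ k, M = k + 1 := ⟨M - 1, by omega⟩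
      rw [Sp, ih (n + 1) (by omega) (M + 1) (by omega), ih n (by omega) M (by omega),
        Finset.sum_range_succ' _ M, Finset.sum_range_succ' _ M, mul_add, Finset.mul_sum, Finset.mul_sum,
        add_right_comm, ← Finset.sum_add_distrib]
      congr 1
      · refine Finset.sum_congr rfl fun j _ => ?_
        rw [aux1, aux2, Nn, Nat.cast_add, add_mul, C_add, add_mul]
        congr 1
        · rcases Nat.lt_or_ge (2 * (j + 1)) (n + 1) with h | h
          · rw [show n + 1 - 1 - 2 * (j + 1) + 1 = n + 2 - 1 - 2 * (j + 1) by omega]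
          · rw [Nn_zero (n + 1) (j + 1) h, Nat.cast_zero, zero_mul, C_0, zero_mul, zero_mul, C_0,
              zero_mul]
        · rw [show 2 * (j + 1) = 2 * j + 2 by ring]
          rcases Nat.lt_or_ge (2 * j) n with h | h
          · rw [show n - 1 - 2 * j = n + 2 - 1 - (2 * j + 2) by omega]
          · rw [Nn_zero n j h, Nat.cast_zero, zero_mul, C_0, zero_mul, zero_mul, C_0, zero_mul]
      · rw [aux1, show n + 1 - 1 - 2 * 0 + 1 = n + 2 - 1 - 2 * 0 by omega, Nn]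

/-- The coefficient which gives the volume. -/
noncomputable def sig (m : ℕ) (u w : ℝ) : ℝ := ((X - 1) ^ 2 * Sp u w (2 * m - 1) : ℝ[X]).coeff m

theorem sig_eq {m : ℕ} (hm : 1 ≤ m) (u w : ℝ) : sig m u w = ∑ j ∈ Finset.range m,
    (Nn (2 * m - 1) j : ℝ) * (u ^ (2 * (m - 1 - j)) * w ^ j) * ((-1) ^ (j + 1) * scat (m - 1 - j) (j + 1)) := by
  obtain ⟨k, rfl⟩ : ∃ k, m = k + 1 := ⟨m - 1, by omega⟩
  have h0 : Sp u w (2 * (k + 1) - 1) = ∑ j ∈ Finset.range (k + 1),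
      C ((Nn (2 * (k + 1) - 1) j : ℝ) * (u ^ (2 * (k + 1) - 1 - 1 - 2 * j) * w ^ j)) *
        ((X + 1) ^ (2 * (k + 1) - 1 - 1 - 2 * j) * (X - 1) ^ (2 * j)) := by
    rw [Sp_eq u w _ (2 * (k + 1) - 1) le_rfl]
    refine (Finset.sum_subset (Finset.range_mono (by omega)) fun j _ hj => ?_).symm
    rw [Finset.mem_range, not_lt] at hj
    rw [Nn_zero _ j (by omega), Nat.cast_zero, zero_mul, C_0, zero_mul]
  rw [sig, h0, Finset.mul_sum, finsetSum_coeff]
  refine Finset.sum_congr rfl fun j hj => ?_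
  rw [Finset.mem_range] at hj
  rw [show 2 * (k + 1) - 1 - 1 - 2 * j = 2 * (k + 1 - 1 - j) by omega,
    show ((X - 1) ^ 2 * (C ((Nn (2 * (k + 1) - 1) j : ℝ) * (u ^ (2 * (k + 1 - 1 - j)) * w ^ j)) *
        ((X + 1) ^ (2 * (k + 1 - 1 - j)) * (X - 1) ^ (2 * j))) : ℝ[X]) =
      C ((Nn (2 * (k + 1) - 1) j : ℝ) * (u ^ (2 * (k + 1 - 1 - j)) * w ^ j)) *
        ((X + 1) ^ (2 * (k + 1 - 1 - j)) * (X - 1) ^ (2 * (j + 1))) by ring, coeff_C_mul]
  congr 1
  rw [← gpq_eq, gpq]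
  congr 1
  omega

/-- The value for `u = 2`, `w = -1` is extreme. -/
theorem sig_le {m : ℕ} (hm : 1 ≤ m) {u w : ℝ} (hu : |u| ≤ 2) (hw : |w| ≤ 1) :
    |sig m u w| ≤ - sig m 2 (-1) := by
  rw [sig_eq hm, sig_eq hm, ← Finset.sum_neg_distrib]
  refine (Finset.abs_sum_le_sum_abs _ _).trans (Finset.sum_le_sum fun j _ => ?_)
  have hs := scat_pos (m - 1 - j) (j + 1)
  rw [abs_mul, abs_mul, abs_mul, abs_mul, abs_pow, abs_pow, abs_pow, abs_neg, abs_one, one_pow, one_mul,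
    abs_of_pos hs, Nat.abs_cast]
  have h1 : -((Nn (2 * m - 1) j : ℝ) * (2 ^ (2 * (m - 1 - j)) * (-1) ^ j) *
      ((-1) ^ (j + 1) * scat (m - 1 - j) (j + 1))) =
      (Nn (2 * m - 1) j : ℝ) * (2 ^ (2 * (m - 1 - j)) * 1) * scat (m - 1 - j) (j + 1) := by
    have h2 : ((-1 : ℝ) ^ j) * (-1) ^ (j + 1) = -1 := by
      rw [← pow_add, show j + (j + 1) = 2 * j + 1 by ring, pow_succ, pow_mul]
      norm_num
    linear_combination -((Nn (2 * m - 1) j : ℝ) * 2 ^ (2 * (m - 1 - j)) * scat (m - 1 - j) (j + 1)) * h2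
  rw [h1]
  refine mul_le_mul_of_nonneg_right ?_ hs.le
  refine mul_le_mul_of_nonneg_left ?_ (Nat.cast_nonneg _)
  exact mul_le_mul (pow_le_pow_left₀ (abs_nonneg _) hu _) (pow_le_one₀ (abs_nonneg _) hw)
    (by positivity) (by positivity)

theorem Sp_two (n : ℕ) : C 4 * X * expand ℝ 2 (Sp 2 (-1) n) = (X + 1) ^ (2 * n) - (X - 1) ^ (2 * n) := by
  have h4 : (C 4 : ℝ[X]) = 4 := rfl
  have h2 : (C 2 : ℝ[X]) = 2 := rfl
  induction n using Nat.strong_induction_on with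
  | _ n ih =>
    match n, ih with
    | 0, _ => simp [Sp]
    | 1, _ =>
      rw [Sp, map_one, h4]
      ring
    | n + 2, ih =>
      have h1 := ih (n + 1) (by omega)
      have h0 := ih n (by omega)
      rw [Sp, map_add, map_mul, map_mul, map_mul, map_mul, map_add, map_pow, map_sub, map_one, expand_X,
        expand_C, expand_C, h2, C_neg, C_1]
      linear_combination 2 * (X ^ 2 + 1) * h1 - (X ^ 2 - 1) ^ 2 * h0

theorem coeff_X_sub_one_pow (n k : ℕ) :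
    ((X - 1) ^ n : ℝ[X]).coeff k = (-1) ^ (n - k) * (n.choose k : ℝ) := by
  have h := coeff_X_add_C_pow (-1 : ℝ) n k
  rwa [C_neg, C_1, ← sub_eq_add_neg] at h

/-- The volume constant of the quaternionic projective space. -/
theorem sig_two {m : ℕ} (hm : 2 ≤ m) :
    - sig m 2 (-1) = ((4 * m - 2).choose (2 * m - 1) : ℝ) - ((4 * m - 2).choose (2 * m - 3) : ℝ) := by
  obtain ⟨k, rfl⟩ : ∃ k, m = k + 2 := ⟨m - 2, by omega⟩
  have h := Sp_two (2 * (k + 2) - 1)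
  have h1 : C 4 * (X * expand ℝ 2 ((X - 1) ^ 2 * Sp 2 (-1) (2 * (k + 2) - 1))) =
      (X ^ 2 - 1) ^ 2 * ((X + 1) ^ (4 * k + 6) - (X - 1) ^ (4 * k + 6)) := by
    rw [map_mul, map_pow, map_sub, map_one, expand_X, show 4 * k + 6 = 2 * (2 * (k + 2) - 1) by omega, ← h]
    ring
  have h2 := congrArg (fun p : ℝ[X] => p.coeff (2 * k + 5)) h1
  have h3 : (C 4 * (X * expand ℝ 2 ((X - 1) ^ 2 * Sp 2 (-1) (2 * (k + 2) - 1)))).coeff (2 * k + 5) =
      4 * sig (k + 2) 2 (-1) := by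
    rw [coeff_C_mul, show 2 * k + 5 = (k + 2) * 2 + 1 by ring, coeff_X_mul, coeff_expand_mul two_pos, sig]
  have h4 : ((X ^ 2 - 1) ^ 2 * ((X + 1) ^ (4 * k + 6) - (X - 1) ^ (4 * k + 6)) : ℝ[X]) =
      X ^ 4 * ((X + 1) ^ (4 * k + 6) - (X - 1) ^ (4 * k + 6)) -
        C 2 * (X ^ 2 * ((X + 1) ^ (4 * k + 6) - (X - 1) ^ (4 * k + 6))) +
        ((X + 1) ^ (4 * k + 6) - (X - 1) ^ (4 * k + 6)) := by
    have h2 : (C 2 : ℝ[X]) = 2 := rfl
    rw [h2]
    ring
  have h5 : ∀ i, i ≤ k + 2 → ((X + 1) ^ (4 * k + 6) - (X - 1) ^ (4 * k + 6) : ℝ[X]).coeff (2 * i + 1) =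
      2 * ((4 * k + 6).choose (2 * i + 1) : ℝ) := by
    intro i hi
    have h6 : (-1 : ℝ) ^ (4 * k + 6 - (2 * i + 1)) = -1 := by
      rw [show 4 * k + 6 - (2 * i + 1) = 2 * (2 * k + 2 - i) + 1 by omega, pow_succ, pow_mul]
      norm_num
    rw [coeff_sub, coeff_X_add_one_pow, coeff_X_sub_one_pow, h6]
    ring
  rw [h3, h4, coeff_add, coeff_sub, coeff_C_mul, show 2 * k + 5 = (2 * k + 1) + 4 by ring, coeff_X_pow_mul,
    show (2 * k + 1) + 4 = (2 * (k + 1) + 1) + 2 by ring, coeff_X_pow_mul,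
    show (2 * (k + 1) + 1) + 2 = 2 * (k + 2) + 1 by ring, h5 k (by omega), h5 (k + 1) (by omega),
    h5 (k + 2) le_rfl] at h2
  have h7 : (4 * k + 6).choose (2 * (k + 2) + 1) = (4 * k + 6).choose (2 * k + 1) :=
    Nat.choose_symm_of_eq_add (by ring)
  rw [h7] at h2
  rw [show 4 * (k + 2) - 2 = 4 * k + 6 by omega, show 2 * (k + 2) - 1 = 2 * (k + 1) + 1 by omega,
    show 2 * (k + 2) - 3 = 2 * k + 1 by omega]
  linarith

/-- `C (4 m - 2, 2 m - 1) - C (4 m - 2, 2 m - 3) = 2 C (4 m - 1, 2 m - 1) / (2 m + 1)`. -/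
theorem binom_id {m : ℕ} (hm : 2 ≤ m) :
    ((4 * m - 2).choose (2 * m - 1) : ℝ) - ((4 * m - 2).choose (2 * m - 3) : ℝ) =
      2 * ((4 * m - 1).choose (2 * m - 1) : ℝ) / (2 * m + 1) := by
  obtain ⟨k, rfl⟩ : ∃ k, m = k + 2 := ⟨m - 2, by omega⟩
  rw [show 4 * (k + 2) - 2 = 4 * k + 6 by omega, show 2 * (k + 2) - 1 = 2 * k + 3 by omega,
    show 2 * (k + 2) - 3 = 2 * k + 1 by omega, show 4 * (k + 2) - 1 = 4 * k + 7 by omega]
  have h1 := Nat.choose_succ_right_eq (4 * k + 6) (2 * k + 1)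
  have h2 := Nat.choose_succ_right_eq (4 * k + 6) (2 * k + 2)
  have h4 := Nat.choose_succ_succ (4 * k + 6) (2 * k + 2)
  rw [show 4 * k + 6 - (2 * k + 1) = 2 * k + 5 by omega] at h1
  rw [show 4 * k + 6 - (2 * k + 2) = 2 * k + 4 by omega] at h2
  have h1' : ((4 * k + 6).choose (2 * k + 2) : ℝ) * (2 * k + 2) = (4 * k + 6).choose (2 * k + 1) * (2 * k + 5) := by
    exact_mod_cast h1
  have h2' : ((4 * k + 6).choose (2 * k + 3) : ℝ) * (2 * k + 3) = (4 * k + 6).choose (2 * k + 2) * (2 * k + 4) := by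
    exact_mod_cast h2
  have h4' : ((4 * k + 7).choose (2 * k + 3) : ℝ) =
      (4 * k + 6).choose (2 * k + 2) + (4 * k + 6).choose (2 * k + 3) := by
    exact_mod_cast h4
  rw [h4']
  push_cast
  have hk : (2 : ℝ) * (k + 2) + 1 ≠ 0 := by positivity
  have hk2 : (2 : ℝ) * k + 5 ≠ 0 := by positivity
  rw [eq_div_iff hk]
  have e1 : ((4 * k + 6).choose (2 * k + 1) : ℝ) = (4 * k + 6).choose (2 * k + 2) * (2 * k + 2) / (2 * k + 5) := by
    rw [h1']
    field_simp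
  have hk3 : (2 : ℝ) * k + 4 ≠ 0 := by positivity
  have e2 : ((4 * k + 6).choose (2 * k + 2) : ℝ) = (4 * k + 6).choose (2 * k + 3) * (2 * k + 3) / (2 * k + 4) := by
    rw [h2']
    field_simp
  rw [e1, e2]
  field_simp
  ring

end Pool.Agent.Lib.MP_ccbbf6_gt.L5
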