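import Pool.Agent.Lib.MP_ccbbf6_gt.L4.Cmp
import Pool.Agent.Lib.MP_ccbbf6_gt.L5.Alg1

/-!
Block ALG of the case `κ = 3`, part 2: the functional `J` on the ring of closed even basic forms.
-/

namespace Pool.Agent.Lib.MP_ccbbf6_gt.L5

open Polynomial Finset

section

variable {R : Type*} [CommRing R] [Algebra ℝ R]

/-- Homogenization of degree `N`. -/
noncomputable def hom (A B : R) (N : ℕ) (p : ℝ[X]) : R :=
  ∑ i ∈ range (N + 1), p.coeff i • (A ^ i * B ^ (N - i))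

theorem hom_mul (A B : R) (t : ℝ) (N : ℕ) {p : ℝ[X]} (hp : p.natDegree ≤ N) :
    hom A B (N + 1) ((X + C t) * p) = (A + t • B) * hom A B N p := by
  have e : ∀ i, ((X + C t) * p).coeff i • (A ^ i * B ^ (N + 1 - i)) =
      (X * p).coeff i • (A ^ i * B ^ (N + 1 - i)) + (t * p.coeff i) • (A ^ i * B ^ (N + 1 - i)) := by
    intro i
    rw [add_mul, coeff_add, coeff_C_mul, add_smul]
  have h0 : p.coeff (N + 1) = 0 := coeff_eq_zero_of_natDegree_lt (by omega)
  rw [hom, sum_congr rfl fun i _ => e i, sum_add_distrib, sum_range_succ' _ (N + 1),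
    sum_range_succ (fun i => (t * p.coeff i) • (A ^ i * B ^ (N + 1 - i))) (N + 1), coeff_X_mul_zero, h0,
    mul_zero, zero_smul, zero_smul, add_zero, add_zero, add_mul, hom, mul_sum, mul_sum]
  congr 1
  · refine sum_congr rfl fun i _ => ?_
    rw [coeff_X_mul, mul_smul_comm, show N + 1 - (i + 1) = N - i by omega]
    congr 1
    ring
  · refine sum_congr rfl fun i hi => ?_
    rw [mem_range] at hi
    rw [mul_smul, smul_mul_assoc, mul_smul_comm, show N + 1 - i = (N - i) + 1 by omega]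
    congr 2
    ring

theorem hom_add (A B : R) (N : ℕ) {p : ℝ[X]} (hp : p.natDegree ≤ N) :
    (A + B) * hom A B N p = hom A B (N + 1) ((X + 1) * p) := by
  have h := hom_mul A B 1 N hp
  rw [C_1, one_smul] at h
  exact h.symm

theorem hom_sub (A B : R) (N : ℕ) {p : ℝ[X]} (hp : p.natDegree ≤ N) :
    (A - B) * hom A B N p = hom A B (N + 1) ((X - 1) * p) := by
  have h := hom_mul A B (-1) N hp
  rw [C_neg, C_1, neg_smul, one_smul, ← sub_eq_add_neg, ← sub_eq_add_neg] at h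
  exact h.symm

theorem natDegree_add_mul {p : ℝ[X]} {N : ℕ} (hp : p.natDegree ≤ N) :
    ((X + 1) * p).natDegree ≤ N + 1 := by
  refine natDegree_mul_le.trans ?_
  have h := natDegree_X_add_C (1 : ℝ)
  rw [C_1] at h
  omega

theorem natDegree_sub_mul {p : ℝ[X]} {N : ℕ} (hp : p.natDegree ≤ N) :
    ((X - 1) * p).natDegree ≤ N + 1 := by
  refine natDegree_mul_le.trans ?_
  have h := natDegree_X_sub_C_le (1 : ℝ)
  rw [C_1] at h
  omega

/-- The functional `J` on the closed even basic forms, `z = e ^ 2`. -/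
structure JData (J : R →ₗ[ℝ] ℝ) (m : ℕ) (z A B : R) (a c κ : ℝ) : Prop where
  A0 : A ^ (m + 1) = 0
  B0 : B ^ (m + 1) = 0
  J0 : J (A ^ m * B ^ m) = 0
  J1 : J (z * (A ^ m * B ^ (m - 1))) = κ
  J1' : J (z * (A ^ (m - 1) * B ^ m)) = -κ
  rel : ∀ F, a * J (z ^ 2 * F) = J ((A - B) ^ 2 * F) - c * J (z * ((A + B) * F))

variable {J : R →ₗ[ℝ] ℝ} {m : ℕ} {z A B : R} {a c κ : ℝ}

theorem JData.hom_zero (D : JData J m z A B a c κ) (p : ℝ[X]) : J (hom A B (2 * m) p) = 0 := by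
  rw [hom, map_sum]
  refine sum_eq_zero fun i hi => ?_
  rw [mem_range] at hi
  rw [map_smul]
  rcases lt_trichotomy i m with h | h | h
  · rw [show 2 * m - i = (m + 1) + (m - 1 - i) by omega, pow_add, D.B0, zero_mul, mul_zero, map_zero,
      smul_zero]
  · rw [h, show 2 * m - m = m by omega, D.J0, smul_zero]
  · rw [show i = (m + 1) + (i - m - 1) by omega, pow_add A, D.A0, zero_mul, zero_mul, map_zero, smul_zero]

theorem JData.hom_one (D : JData J m z A B a c κ) (hm : 1 ≤ m) (p : ℝ[X]) :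
    J (z * hom A B (2 * m - 1) p) = -κ * ((X - 1) * p).coeff m := by
  obtain ⟨k, rfl⟩ : ∃ k, m = k + 1 := ⟨m - 1, by omega⟩
  rw [hom, mul_sum, map_sum, show 2 * (k + 1) - 1 + 1 = 2 * k + 2 by omega]
  rw [sum_eq_add_of_mem k (k + 1) (by rw [mem_range]; omega) (by rw [mem_range]; omega) (by omega)]
  · rw [mul_smul_comm, mul_smul_comm, map_smul, map_smul, show 2 * (k + 1) - 1 - k = k + 1 by omega,
      show 2 * (k + 1) - 1 - (k + 1) = k + 1 - 1 by omega, D.J1]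
    have h := D.J1'
    rw [Nat.add_sub_cancel] at h
    rw [h, sub_mul, one_mul, coeff_sub, coeff_X_mul, smul_eq_mul, smul_eq_mul]
    ring
  · intro i hi hne
    rw [mem_range] at hi
    rw [mul_smul_comm, map_smul]
    rcases lt_trichotomy i k with h | h | h
    · rw [show 2 * (k + 1) - 1 - i = (k + 1 + 1) + (k - 1 - i) by omega, pow_add, D.B0, zero_mul,
        mul_zero, mul_zero, map_zero, smul_zero]
    · exact absurd h hne.1
    · have h2 : i ≠ k + 1 := hne.2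
      rw [show i = (k + 1 + 1) + (i - k - 2) by omega, pow_add A, D.A0, zero_mul, zero_mul, mul_zero,
        map_zero, smul_zero]

theorem JData.main (D : JData J m z A B a c κ) (hm : 1 ≤ m) (ha : a ≠ 0) (i : ℕ) : i ≤ 2 * m →
    ∀ p : ℝ[X], p.natDegree ≤ 2 * m - i →
      J (z ^ i * hom A B (2 * m - i) p) = -κ * ((X - 1) * (Sp (-(c / a)) (1 / a) i * p)).coeff m := by
  induction i using Nat.strong_induction_on with
  | _ i ih =>
    intro hi p hp
    match i, ih, hi, hp with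
    | 0, _, _, _ =>
      rw [pow_zero, one_mul, Nat.sub_zero, D.hom_zero, Sp, zero_mul, mul_zero, coeff_zero, mul_zero]
    | 1, _, _, _ =>
      rw [pow_one, D.hom_one hm, Sp, one_mul]
    | i + 2, ih, hi, hp =>
      have e1 : 2 * m - (i + 1) = (2 * m - (i + 2)) + 1 := by omega
      have e0 : 2 * m - i = (2 * m - (i + 2)) + 1 + 1 := by omega
      have h1 := ih (i + 1) (by omega) (by omega) ((X + 1) * p) (by rw [e1]; exact natDegree_add_mul hp)
      have h0 := ih i (by omega) (by omega) ((X - 1) * ((X - 1) * p))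
        (by rw [e0]; exact natDegree_sub_mul (natDegree_sub_mul hp))
      rw [e1, ← hom_add A B _ hp] at h1
      rw [e0, ← hom_sub A B _ (natDegree_sub_mul hp), ← hom_sub A B _ hp] at h0
      have h := D.rel (z ^ i * hom A B (2 * m - (i + 2)) p)
      have g2 : z ^ 2 * (z ^ i * hom A B (2 * m - (i + 2)) p) =
          z ^ (i + 2) * hom A B (2 * m - (i + 2)) p := by ring
      have g1 : z * ((A + B) * (z ^ i * hom A B (2 * m - (i + 2)) p)) =
          z ^ (i + 1) * ((A + B) * hom A B (2 * m - (i + 2)) p) := by ring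
      have g0 : (A - B) ^ 2 * (z ^ i * hom A B (2 * m - (i + 2)) p) =
          z ^ i * ((A - B) * ((A - B) * hom A B (2 * m - (i + 2)) p)) := by ring
      rw [g2, g1, g0, h1, h0] at h
      have h3 : (X - 1) * (Sp (-(c / a)) (1 / a) (i + 2) * p) =
          C (-(c / a)) * ((X - 1) * (Sp (-(c / a)) (1 / a) (i + 1) * ((X + 1) * p))) +
          C (1 / a) * ((X - 1) * (Sp (-(c / a)) (1 / a) i * ((X - 1) * ((X - 1) * p)))) := by
        rw [Sp]
        ring
      rw [h3, coeff_add, coeff_C_mul, coeff_C_mul]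
      have h4 : a * J (z ^ (i + 2) * hom A B (2 * m - (i + 2)) p) =
        a * (-κ * (-(c / a) * ((X - 1) * (Sp (-(c / a)) (1 / a) (i + 1) * ((X + 1) * p))).coeff m +
          1 / a * ((X - 1) * (Sp (-(c / a)) (1 / a) i * ((X - 1) * ((X - 1) * p)))).coeff m)) := by
        rw [h]
        field_simp
        ring
      exact mul_left_cancel₀ ha h4

theorem JData.vol (D : JData J m z A B a c κ) (hm : 1 ≤ m) (ha : a ≠ 0) :
    J (z ^ (2 * m - 1) * (A - B)) = -κ * sig m (-(c / a)) (1 / a) := by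
  have h := D.main hm ha (2 * m - 1) (by omega) (X - 1)
    (by
      have h := natDegree_X_sub_C_le (1 : ℝ)
      rw [C_1] at h
      omega)
  rw [show 2 * m - (2 * m - 1) = 1 by omega] at h
  have h1 : hom A B 1 (X - 1) = A - B := by
    rw [hom, sum_range_succ, sum_range_one, coeff_sub, coeff_sub, coeff_X_zero, coeff_X_one,
      coeff_one_zero, coeff_one, if_neg one_ne_zero, pow_zero, pow_one, pow_one, pow_zero]
    simp
    ring
  rw [h1] at h
  rw [h, sig]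
  congr 2
  ring

end

section

variable {R Λ : Type*} [CommRing R] [Algebra ℝ R] [AddCommGroup Λ] [Module ℝ Λ] [Module R Λ]
  [IsScalarTower ℝ R Λ] (K : L4.Calc R Λ)

/-- The data of the side of the geodesic flow. -/
structure PhiData (m : ℕ) (e f A B : R) (a c : ℝ) (η β ζ ξ s : Λ) : Prop where
  A0 : A ^ (m + 1) = 0
  B0 : B ^ (m + 1) = 0
  ιη : K.ι η = K.u
  dη : K.d η = e • K.u
  ιβ : K.ι β = f • K.u
  dβ : K.d β = (A - B) • K.u
  dζ : K.d ζ = L4.hm m A B • β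
  ιζ : K.ι (K.d ζ) = -K.d (K.ι ζ)
  ιξ : K.ι ξ = 0
  dξ : K.d ξ = (f ^ 2 - a • e ^ 2 - c • (A + B)) • K.u
  ds : K.d s = A ^ m • K.u
  J0 : K.I ((A ^ m * B ^ m) • η) = 0
  J1 : K.I ((e ^ 2 * (A ^ (m - 1) * B ^ m)) • η) = -K.I ((e ^ 2 * (A ^ m * B ^ (m - 1))) • η)

/-- `J F = ∫ F η` -/
noncomputable def Jf (η : Λ) : R →ₗ[ℝ] ℝ where
  toFun F := K.I (F • η)
  map_add' F G := by rw [add_smul, map_add]
  map_smul' r F := by rw [smul_assoc, map_smul, RingHom.id_apply]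

variable {K} {m : ℕ} {e f A B : R} {a c : ℝ} {η β ζ ξ s : Λ}

theorem Jf_apply (F : R) : Jf K η F = K.I (F • η) := rfl

theorem PhiData.kill (D : PhiData K m e f A B a c η β ζ ξ s) {x : Λ} {T : R} (h1 : K.ι x = 0)
    (h2 : K.d x = T • K.u) (G : R) : Jf K η (T * G) = 0 := by
  have h := K.stokes x η T e G h2 D.dη
  rw [Jf_apply, mul_comm T G, h]
  exact K.I_ι _ (by rw [map_smul, h1, smul_zero])

omit [IsScalarTower ℝ R Λ] in
theorem PhiData.kβ (D : PhiData K m e f A B a c η β ζ ξ s) : K.ι (β - f • η) = 0 := by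
  rw [map_sub, D.ιβ, map_smul, D.ιη, sub_self]

omit [IsScalarTower ℝ R Λ] in
theorem PhiData.dβη (D : PhiData K m e f A B a c η β ζ ξ s) :
    K.d (β - f • η) = (A - B - e * f) • K.u := by
  rw [map_sub, D.dβ, map_smul, D.dη, smul_smul, ← sub_smul, mul_comm f e]

theorem PhiData.ef (D : PhiData K m e f A B a c η β ζ ξ s) (G : R) :
    Jf K η (e * f * G) = Jf K η ((A - B) * G) := by
  have h := D.kill D.kβ D.dβη G
  rw [sub_mul, map_sub] at h
  linarith

theorem PhiData.ff (D : PhiData K m e f A B a c η β ζ ξ s) (G : R) :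
    Jf K η (f ^ 2 * G) = a * Jf K η (e ^ 2 * G) + c * Jf K η ((A + B) * G) := by
  have h := D.kill D.ιξ D.dξ G
  rw [sub_mul, sub_mul, map_sub, map_sub, smul_mul_assoc, smul_mul_assoc, map_smul, map_smul,
    smul_eq_mul, smul_eq_mul] at h
  linarith

theorem PhiData.jdata (D : PhiData K m e f A B a c η β ζ ξ s) :
    JData (Jf K η) m (e ^ 2) A B a c (Jf K η (e ^ 2 * (A ^ m * B ^ (m - 1)))) where
  A0 := D.A0
  B0 := D.B0
  J0 := D.J0
  J1 := rfl
  J1' := D.J1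
  rel F := by
    have h1 := D.ff (e ^ 2 * F)
    have h2 := D.ef (e * f * F)
    have h3 := D.ef ((A - B) * F)
    have g1 : f ^ 2 * (e ^ 2 * F) = e * f * (e * f * F) := by ring
    have g2 : (A - B) * (e * f * F) = e * f * ((A - B) * F) := by ring
    have g3 : (A - B) * ((A - B) * F) = (A - B) ^ 2 * F := by ring
    have g4 : e ^ 2 * (e ^ 2 * F) = (e ^ 2) ^ 2 * F := by ring
    have g5 : (A + B) * (e ^ 2 * F) = e ^ 2 * ((A + B) * F) := by ring
    rw [g1, h2, g2, h3, g3, g4, g5] at h1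
    linarith

theorem PhiData.norm (D : PhiData K m e f A B a c η β ζ ξ s) (hm : 1 ≤ m) :
    ((m : ℝ) + 1) * K.I ((f * A ^ m) • s) = a * Jf K η (e ^ 2 * (A ^ m * B ^ (m - 1))) := by
  have hQ := L4.Qm_spec m A B
  have hA := L4.Qm_mul (a := A) (b := B) hm D.A0
  obtain ⟨x, hx⟩ : ∃ x, x = (L4.Qm m A B * f) • β - K.ι ζ := ⟨_, rfl⟩
  have hd : K.d x = (((m + 1 : ℕ) : R) * A ^ m * f) • K.u := by
    have h1 := D.ιζ
    rw [D.dζ, map_smul, D.ιβ, smul_smul] at h1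
    have h2 : K.d (K.ι ζ) = -((L4.hm m A B * f) • K.u) := by rw [h1, neg_neg]
    rw [hx, map_sub, map_smul, D.dβ, smul_smul, h2, sub_neg_eq_add, ← add_smul]
    congr 1
    linear_combination -f * hQ
  have h3 := K.stokes x s _ _ 1 hd D.ds
  rw [one_mul, one_mul, hx, smul_sub, map_sub, smul_smul, ← mul_assoc, hA] at h3
  have h4 : K.I (A ^ m • K.ι ζ) = 0 := K.I_ι _ (by rw [map_smul, K.ιι, smul_zero])
  rw [h4, sub_zero] at h3
  have h5 : K.I ((A ^ m * B ^ (m - 1) * f) • β) = Jf K η (f ^ 2 * (A ^ m * B ^ (m - 1))) := by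
    have h6 : K.I ((A ^ m * B ^ (m - 1) * f) • (β - f • η)) = 0 :=
      K.I_ι _ (by rw [map_smul, D.kβ, smul_zero])
    rw [smul_sub, map_sub, smul_smul] at h6
    rw [Jf_apply]
    have h7 : f ^ 2 * (A ^ m * B ^ (m - 1)) = A ^ m * B ^ (m - 1) * f * f := by ring
    rw [h7]
    linarith
  rw [h5, D.ff] at h3
  have h8 : (A + B) * (A ^ m * B ^ (m - 1)) = A ^ m * B ^ m := by
    obtain ⟨k, rfl⟩ : ∃ k, m = k + 1 := ⟨m - 1, by omega⟩
    rw [Nat.add_sub_cancel]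
    linear_combination B ^ k * D.A0
  rw [h8, Jf_apply (A ^ m * B ^ m), D.J0, mul_zero, add_zero] at h3
  rw [← h3]
  have h9 : (((m + 1 : ℕ) : R) * A ^ m * f) • s = ((m : ℝ) + 1) • ((f * A ^ m) • s) := by
    rw [mul_assoc, mul_smul, ← algebraMap_smul R ((m : ℝ) + 1), mul_comm (A ^ m) f]
    congr 1
    simp
  rw [h9, K.I_smul]

/-- The volume formula. -/
theorem PhiData.vol (D : PhiData K m e f A B a c η β ζ ξ s) (hm : 1 ≤ m) (ha : a ≠ 0) :
    a * K.I ((e ^ (4 * m - 1) * f) • η) =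
      -(((m : ℝ) + 1) * K.I ((f * A ^ m) • s)) * sig m (-(c / a)) (1 / a) := by
  have h := D.jdata.vol hm ha
  have h2 := D.ef (e ^ (4 * m - 2))
  have g1 : e * f * e ^ (4 * m - 2) = e ^ (4 * m - 1) * f := by
    rw [show 4 * m - 1 = (4 * m - 2) + 1 by omega]
    ring
  have g2 : (A - B) * e ^ (4 * m - 2) = (e ^ 2) ^ (2 * m - 1) * (A - B) := by
    rw [← pow_mul, show 2 * (2 * m - 1) = 4 * m - 2 by omega]
    ring
  rw [g1, g2, h, Jf_apply (e ^ (4 * m - 1) * f)] at h2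
  rw [h2, D.norm hm]
  ring

/-- The bound. -/
theorem PhiData.bound (D : PhiData K m e f A B a c η β ζ ξ s) (hm : 2 ≤ m) (ha : 1 ≤ |a|)
    (hc : |c| ≤ 2 * |a|) :
    |a| * |K.I ((e ^ (4 * m - 1) * f) • η)| ≤ ((m : ℝ) + 1) * |K.I ((f * A ^ m) • s)| *
      (((4 * m - 2).choose (2 * m - 1) : ℝ) - ((4 * m - 2).choose (2 * m - 3) : ℝ)) := by
  have ha0 : a ≠ 0 := by
    intro h
    rw [h, abs_zero] at ha
    linarith
  have ha1 : 0 < |a| := abs_pos.2 ha0
  rw [← abs_mul, D.vol (by omega) ha0, abs_mul, abs_neg, abs_mul,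
    abs_of_nonneg (by positivity : (0 : ℝ) ≤ (m : ℝ) + 1), ← sig_two hm]
  refine mul_le_mul_of_nonneg_left (sig_le (by omega) ?_ ?_) (by positivity)
  · rw [abs_neg, abs_div, div_le_iff₀ ha1]
    exact hc
  · rw [abs_div, abs_one, div_le_one ha1]
    exact ha

/-- The geometric form: `f = D f₀`, `a = D ^ 2 α`, `c = D ^ 2 b`. -/
theorem PhiData.volume_le (D : PhiData K m e f A B a c η β ζ ξ s) (hm : 2 ≤ m)
    {D₀ α b V₀ U₀ ε : ℝ} (hD : 1 ≤ |D₀|) (hα : 1 ≤ |α|) (hb : |b| ≤ 2) (ha : a = D₀ ^ 2 * α)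
    (hc : c = D₀ ^ 2 * b) (hV : K.I ((e ^ (4 * m - 1) * f) • η) = 2 * D₀ * V₀)
    (hU : K.I ((f * A ^ m) • s) = D₀ * U₀) (hε : ((m : ℝ) + 1) * |U₀| ≤ 2 * ε ^ 2) (hε1 : |ε| ≤ 1) :
    |V₀| ≤ 2 * ((4 * m - 1).choose (2 * m - 1) : ℝ) / (2 * m + 1) := by
  have hD1 : 1 ≤ |D₀| ^ 2 := one_le_pow₀ hD
  have ha1 : |a| = |D₀| ^ 2 * |α| := by rw [ha, abs_mul, abs_pow]
  have h1 : 1 ≤ |a| := by
    rw [ha1]
    exact one_le_mul_of_one_le_of_one_le hD1 hα
  have h2 : |c| ≤ 2 * |a| := by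
    rw [hc, abs_mul, abs_pow, ha1]
    nlinarith [mul_le_mul_of_nonneg_left hb (by positivity : 0 ≤ |D₀| ^ 2),
      mul_le_mul_of_nonneg_left hα (by positivity : 0 ≤ |D₀| ^ 2)]
  have h := D.bound hm h1 h2
  rw [← binom_id hm]
  obtain ⟨Γ, hΓ⟩ : ∃ Γ, Γ = ((4 * m - 2).choose (2 * m - 1) : ℝ) - ((4 * m - 2).choose (2 * m - 3) : ℝ) :=
    ⟨_, rfl⟩
  have hΓ0 : 0 ≤ Γ := by
    rw [hΓ, binom_id hm]
    positivity
  rw [← hΓ] at h ⊢
  rw [hV, hU, abs_mul, abs_mul, abs_mul, abs_two] at h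
  have hε2 : ε ^ 2 ≤ 1 := by
    rw [← sq_abs]
    exact pow_le_one₀ (abs_nonneg _) hε1
  have h3 : ((m : ℝ) + 1) * (|D₀| * |U₀|) * Γ ≤ |D₀| * 2 * Γ := by
    have h4 : ((m : ℝ) + 1) * |U₀| ≤ 2 := by linarith
    have h5 : ((m : ℝ) + 1) * (|D₀| * |U₀|) * Γ = |D₀| * (((m : ℝ) + 1) * |U₀|) * Γ := by ring
    rw [h5]
    exact mul_le_mul_of_nonneg_right (mul_le_mul_of_nonneg_left h4 (abs_nonneg _)) hΓ0
  have h6 : 1 * (2 * |D₀| * |V₀|) ≤ |a| * (2 * |D₀| * |V₀|) :=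
    mul_le_mul_of_nonneg_right h1 (by positivity)
  have h7 : 2 * |D₀| * |V₀| ≤ 2 * |D₀| * Γ := by linarith
  exact le_of_mul_le_mul_left h7 (by linarith)

end

end Pool.Agent.Lib.MP_ccbbf6_gt.L5
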