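import Pool.Agent.Lib.MP_ccbbf6_gt.L5.HE

/-!
# Level 5, CB: complexification of a differential algebra (helper13)
-/

set_option autoImplicit false
set_option linter.unusedSectionVars false

noncomputable section

namespace Pool.Agent.Lib.MP_ccbbf6_gt.L5

open Matrix

/-- `B ⊗ ℂ` as pairs (real part, imaginary part) -/
@[ext] structure CB (B : Type*) where
  /-- real part -/
  re : B
  /-- imaginary part -/
  im : B

namespace CB

section ring

variable {B : Type*} [Ring B] [Algebra ℝ B]

instance : Zero (CB B) := ⟨⟨0, 0⟩⟩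
instance : One (CB B) := ⟨⟨1, 0⟩⟩
instance : Add (CB B) := ⟨fun a b => ⟨a.re + b.re, a.im + b.im⟩⟩
instance : Sub (CB B) := ⟨fun a b => ⟨a.re - b.re, a.im - b.im⟩⟩
instance : Neg (CB B) := ⟨fun a => ⟨-a.re, -a.im⟩⟩
instance : Mul (CB B) := ⟨fun a b => ⟨a.re * b.re - a.im * b.im, a.re * b.im + a.im * b.re⟩⟩
instance : SMul ℝ (CB B) := ⟨fun r a => ⟨r • a.re, r • a.im⟩⟩
instance : SMul ℕ (CB B) := ⟨fun r a => ⟨r • a.re, r • a.im⟩⟩
instance : SMul ℤ (CB B) := ⟨fun r a => ⟨r • a.re, r • a.im⟩⟩

theorem mul_re (a b : CB B) : (a * b).re = a.re * b.re - a.im * b.im := rfl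
theorem mul_im (a b : CB B) : (a * b).im = a.re * b.im + a.im * b.re := rfl
theorem one_re : (1 : CB B).re = 1 := rfl
theorem one_im : (1 : CB B).im = 0 := rfl
theorem add_re (a b : CB B) : (a + b).re = a.re + b.re := rfl
theorem add_im (a b : CB B) : (a + b).im = a.im + b.im := rfl
theorem sub_re (a b : CB B) : (a - b).re = a.re - b.re := rfl
theorem sub_im (a b : CB B) : (a - b).im = a.im - b.im := rfl
theorem neg_re (a : CB B) : (-a).re = -a.re := rfl
theorem neg_im (a : CB B) : (-a).im = -a.im := rfl
theorem zero_re : (0 : CB B).re = 0 := rfl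
theorem zero_im : (0 : CB B).im = 0 := rfl
theorem smul_re (r : ℝ) (a : CB B) : (r • a).re = r • a.re := rfl
theorem smul_im (r : ℝ) (a : CB B) : (r • a).im = r • a.im := rfl

/-- the pair -/
def toP (a : CB B) : B × B := (a.re, a.im)

theorem toP_inj : Function.Injective (toP : CB B → B × B) := fun _ _ h =>
  CB.ext (congrArg Prod.fst h) (congrArg Prod.snd h)

instance : AddCommGroup (CB B) :=
  toP_inj.addCommGroup _ rfl (fun _ _ => rfl) (fun _ => rfl) (fun _ _ => rfl) (fun _ _ => rfl) (fun _ _ => rfl)

/-- the pair, additive -/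
def toPa : CB B →+ B × B := ⟨⟨toP, rfl⟩, fun _ _ => rfl⟩

instance : Module ℝ (CB B) := Function.Injective.module ℝ toPa toP_inj (fun _ _ => rfl)

instance : Ring (CB B) :=
  { (inferInstance : AddCommGroup (CB B)), (inferInstance : Mul (CB B)), (inferInstance : One (CB B)) with
    left_distrib := fun a b c => by
      ext
      · simp only [mul_re, add_re, add_im, mul_add]; abel
      · simp only [mul_im, add_re, add_im, mul_add]; abel
    right_distrib := fun a b c => by
      ext
      · simp only [mul_re, add_re, add_im, add_mul]; abel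
      · simp only [mul_im, add_re, add_im, add_mul]; abel
    zero_mul := fun a => by
      ext
      · simp only [mul_re, zero_re, zero_im, zero_mul, sub_zero]
      · simp only [mul_im, zero_re, zero_im, zero_mul, add_zero]
    mul_zero := fun a => by
      ext
      · simp only [mul_re, zero_re, zero_im, mul_zero, sub_zero]
      · simp only [mul_im, zero_re, zero_im, mul_zero, add_zero]
    mul_assoc := fun a b c => by
      ext
      · simp only [mul_re, mul_im, mul_add, add_mul, mul_sub, sub_mul, mul_assoc]; abel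
      · simp only [mul_re, mul_im, mul_add, add_mul, mul_sub, sub_mul, mul_assoc]; abel
    one_mul := fun a => by
      ext
      · simp only [mul_re, one_re, one_im, one_mul, zero_mul, sub_zero]
      · simp only [mul_im, one_re, one_im, one_mul, zero_mul, add_zero]
    mul_one := fun a => by
      ext
      · simp only [mul_re, one_re, one_im, mul_one, mul_zero, sub_zero]
      · simp only [mul_im, one_re, one_im, mul_one, mul_zero, zero_add]
    neg_add_cancel := fun a => neg_add_cancel a }

instance : Algebra ℝ (CB B) :=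
  Algebra.ofModule
    (fun r a b => by
      ext
      · simp only [mul_re, smul_re, smul_im, smul_mul_assoc, smul_sub]
      · simp only [mul_im, smul_re, smul_im, smul_mul_assoc, smul_add])
    (fun r a b => by
      ext
      · simp only [mul_re, smul_re, smul_im, mul_smul_comm, smul_sub]
      · simp only [mul_im, smul_re, smul_im, mul_smul_comm, smul_add])

/-- the imaginary unit -/
def I : CB B := ⟨0, 1⟩

theorem I_mul_I : (I : CB B) * I = -1 := by
  ext
  · simp only [mul_re, I, neg_re, one_re, mul_zero, mul_one, zero_sub]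
  · simp only [mul_im, I, neg_im, one_im, mul_zero, zero_mul, add_zero, neg_zero]

theorem I_comm (a : CB B) : I * a = a * I := by
  ext
  · simp only [mul_re, I, mul_zero, zero_mul, mul_one, one_mul]
  · simp only [mul_im, I, mul_zero, zero_mul, mul_one, one_mul, zero_add, add_zero]

/-- real elements -/
def ofR : B →ₐ[ℝ] CB B where
  toFun a := ⟨a, 0⟩
  map_one' := rfl
  map_mul' a b := by
    ext
    · simp only [mul_re, mul_zero, sub_zero]
    · simp only [mul_im, mul_zero, zero_mul, add_zero]
  map_zero' := rfl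
  map_add' a b := by
    ext
    · rfl
    · exact (add_zero (0 : B)).symm
  commutes' r := by
    rw [Algebra.algebraMap_eq_smul_one, Algebra.algebraMap_eq_smul_one]
    ext
    · rfl
    · exact (smul_zero r).symm

theorem ofR_re (a : B) : (ofR a : CB B).re = a := rfl
theorem ofR_im (a : B) : (ofR a : CB B).im = 0 := rfl

theorem eq_re_im (a : CB B) : a = ofR a.re + I * ofR a.im := by
  ext
  · simp only [add_re, mul_re, I, ofR_re, ofR_im, zero_mul, mul_zero, sub_zero, add_zero]
  · simp only [add_im, mul_im, I, ofR_re, ofR_im, zero_mul, one_mul, zero_add]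

theorem ofR_inj {a b : B} (h : (ofR a : CB B) = ofR b) : a = b := congrArg CB.re h

/-- complex conjugation -/
def conj : CB B →ₐ[ℝ] CB B where
  toFun a := ⟨a.re, -a.im⟩
  map_one' := CB.ext rfl neg_zero
  map_mul' a b := by
    ext
    · simp only [mul_re, neg_mul, mul_neg, neg_neg]
    · simp only [mul_im, neg_mul, mul_neg, neg_add_rev]; abel
  map_zero' := CB.ext rfl neg_zero
  map_add' a b := by
    ext
    · rfl
    · simp only [add_im, neg_add]
  commutes' r := by
    rw [Algebra.algebraMap_eq_smul_one]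
    ext
    · rfl
    · change -(r • (0 : B)) = r • 0
      rw [smul_zero, neg_zero]

theorem conj_re (a : CB B) : (conj a).re = a.re := rfl
theorem conj_im (a : CB B) : (conj a).im = -a.im := rfl
theorem conj_conj (a : CB B) : conj (conj a) = a := by
  ext
  · rfl
  · exact neg_neg _
theorem conj_I : conj (I : CB B) = -I := by
  ext
  · exact neg_zero.symm
  · rfl
theorem conj_ofR (a : B) : conj (ofR a : CB B) = ofR a := by
  ext
  · rfl
  · exact neg_zero

/-- complex numbers -/
def ofC : ℂ →ₐ[ℝ] CB B where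
  toFun z := ⟨algebraMap ℝ B z.re, algebraMap ℝ B z.im⟩
  map_one' := by
    ext
    · change algebraMap ℝ B (1 : ℂ).re = 1
      rw [Complex.one_re, map_one]
    · change algebraMap ℝ B (1 : ℂ).im = 0
      rw [Complex.one_im, map_zero]
  map_mul' a b := by
    ext
    · change algebraMap ℝ B (a * b).re = _
      rw [Complex.mul_re, map_sub, map_mul, map_mul]
      rfl
    · change algebraMap ℝ B (a * b).im = _
      rw [Complex.mul_im, map_add, map_mul, map_mul]
      rfl
  map_zero' := by
    ext
    · change algebraMap ℝ B (0 : ℂ).re = 0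
      rw [Complex.zero_re, map_zero]
    · change algebraMap ℝ B (0 : ℂ).im = 0
      rw [Complex.zero_im, map_zero]
  map_add' a b := by
    ext
    · change algebraMap ℝ B (a + b).re = _
      rw [Complex.add_re, map_add]
      rfl
    · change algebraMap ℝ B (a + b).im = _
      rw [Complex.add_im, map_add]
      rfl
  commutes' r := by
    rw [Algebra.algebraMap_eq_smul_one (A := CB B)]
    ext
    · change algebraMap ℝ B ((algebraMap ℝ ℂ r).re) = r • (1 : B)
      rw [← Algebra.algebraMap_eq_smul_one]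
      rfl
    · change algebraMap ℝ B ((algebraMap ℝ ℂ r).im) = r • (0 : B)
      rw [smul_zero]
      exact map_zero _

end ring

section functor

variable {B B' : Type*} [Ring B] [Algebra ℝ B] [Ring B'] [Algebra ℝ B']

/-- the complexification of a real linear map -/
def lin (f : B →ₗ[ℝ] B') : CB B →ₗ[ℝ] CB B' where
  toFun a := ⟨f a.re, f a.im⟩
  map_add' a b := by
    ext
    · exact map_add f _ _
    · exact map_add f _ _
  map_smul' r a := by
    ext
    · exact map_smul f _ _
    · exact map_smul f _ _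

theorem lin_re (f : B →ₗ[ℝ] B') (a : CB B) : (lin f a).re = f a.re := rfl
theorem lin_im (f : B →ₗ[ℝ] B') (a : CB B) : (lin f a).im = f a.im := rfl

/-- the complexification of an algebra homomorphism -/
def alg (f : B →ₐ[ℝ] B') : CB B →ₐ[ℝ] CB B' where
  toFun a := ⟨f a.re, f a.im⟩
  map_one' := CB.ext (map_one f) (map_zero f)
  map_mul' a b := by
    ext
    · simp only [mul_re, map_sub, map_mul]
    · simp only [mul_im, map_add, map_mul]
  map_zero' := CB.ext (map_zero f) (map_zero f)
  map_add' a b := by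
    ext
    · exact map_add f _ _
    · exact map_add f _ _
  commutes' r := by
    rw [Algebra.algebraMap_eq_smul_one, Algebra.algebraMap_eq_smul_one]
    ext
    · change f (r • 1) = r • 1
      rw [map_smul, map_one]
    · change f (r • 0) = r • 0
      rw [map_smul, map_zero]

theorem alg_re (f : B →ₐ[ℝ] B') (a : CB B) : (alg f a).re = f a.re := rfl
theorem alg_im (f : B →ₐ[ℝ] B') (a : CB B) : (alg f a).im = f a.im := rfl

end functor

end CB

variable {B B' : Type*} [Ring B] [Algebra ℝ B] [Ring B'] [Algebra ℝ B'] {G : GDA B} {G' : GDA B'}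

/-- the complexification of a differential algebra -/
def GC (G : GDA B) : GDA (CB B) where
  d := CB.lin G.d
  s := CB.alg G.s
  s_s _ := CB.ext (G.s_s _) (G.s_s _)
  d_d _ := CB.ext (G.d_d _) (G.d_d _)
  d_mul a b := by
    ext
    · simp only [CB.lin_re, CB.lin_im, CB.alg_re, CB.alg_im, CB.mul_re, CB.add_re, map_sub, G.d_mul]; abel
    · simp only [CB.lin_re, CB.lin_im, CB.alg_re, CB.alg_im, CB.mul_im, CB.add_im, map_add, G.d_mul]; abel
  s_d _ := CB.ext (G.s_d _) (G.s_d _)
  comm_even a b h := by
    have h1 := G.comm_even a.re b.re (congrArg CB.re h)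
    have h2 := G.comm_even a.re b.im (congrArg CB.re h)
    have h3 := G.comm_even a.im b.re (congrArg CB.im h)
    have h4 := G.comm_even a.im b.im (congrArg CB.im h)
    ext
    · rw [CB.mul_re, CB.mul_re, h1, h4]
    · rw [CB.mul_im, CB.mul_im, h2, h3, add_comm]
  comm_odd a b h h' := by
    have h1 := G.comm_odd a.re b.re (congrArg CB.re h) (congrArg CB.re h')
    have h2 := G.comm_odd a.re b.im (congrArg CB.re h) (congrArg CB.im h')
    have h3 := G.comm_odd a.im b.re (congrArg CB.im h) (congrArg CB.re h')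
    have h4 := G.comm_odd a.im b.im (congrArg CB.im h) (congrArg CB.im h')
    ext
    · rw [CB.mul_re, CB.neg_re, CB.mul_re, h1, h4]; abel
    · rw [CB.mul_im, CB.neg_im, CB.mul_im, h2, h3]; abel

theorem GC_d (a : CB B) : (GC G).d a = ⟨G.d a.re, G.d a.im⟩ := rfl
theorem GC_s (a : CB B) : (GC G).s a = ⟨G.s a.re, G.s a.im⟩ := rfl

/-- functoriality -/
def GHom.cx (f : GHom G G') : GHom (GC G) (GC G') where
  f := CB.alg f.f
  f_d _ := CB.ext (f.f_d _) (f.f_d _)
  f_s _ := CB.ext (f.f_s _) (f.f_s _)

/-- real elements -/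
def GHom.ofR (G : GDA B) : GHom G (GC G) where
  f := CB.ofR
  f_d _ := CB.ext rfl (map_zero G.d).symm
  f_s _ := CB.ext rfl (map_zero G.s).symm

/-- complex conjugation -/
def GHom.conj (G : GDA B) : GHom (GC G) (GC G) where
  f := CB.conj
  f_d _ := CB.ext rfl (map_neg G.d _).symm
  f_s _ := CB.ext rfl (map_neg G.s _).symm

/-- the complexified cylinder -/
def Cyl.cx (C : Cyl G G') : Cyl (GC G) (GC G') where
  p := C.p.cx
  j0 := C.j0.cx
  j1 := C.j1.cx
  K := CB.lin C.K
  j0_p _ := CB.ext (C.j0_p _) (C.j0_p _)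
  j1_p _ := CB.ext (C.j1_p _) (C.j1_p _)
  dK _ := CB.ext (C.dK _) (C.dK _)
  c := CB.ofR C.c
  t := CB.ofR C.t
  c_s := CB.ext C.c_s (map_zero _)
  t_s := CB.ext C.t_s (map_zero _)
  ct := by rw [← map_mul, ← map_mul, ← map_add, C.ct, map_one]
  c0 := CB.ext C.c0 (map_zero _)
  t0 := CB.ext C.t0 (map_zero _)
  c1 := CB.ext C.c1 (map_zero _)
  t1 := CB.ext C.t1 (map_zero _)

/-! ### cohomology -/

namespace GDA

/-- a complex even closed element has even closed real and imaginary parts -/
theorem cl_re {w : CB B} (h : (GC G).s w = w) (h' : (GC G).d w = 0) :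
    G.s w.re = w.re ∧ G.s w.im = w.im ∧ G.d w.re = 0 ∧ G.d w.im = 0 :=
  ⟨congrArg CB.re h, congrArg CB.im h, congrArg CB.re h', congrArg CB.im h'⟩

/-- `HE G → HE (GC G)` is injective -/
theorem ofR_he_inj : Function.Injective (GHom.ofR G).he := by
  rw [injective_iff_map_eq_zero]
  intro x hw
  obtain ⟨w, a, b, rfl⟩ := cl_surj x
  rw [GHom.he_cl, cl_eq_zero] at hw
  obtain ⟨ξ, hξ⟩ := hw
  rw [cl_eq_zero]
  exact ⟨ξ.re, congrArg CB.re hξ⟩

/-- the imaginary unit in cohomology -/
def hI (G : GDA B) : (GC G).HE := cl (G := GC G) CB.I (CB.ext (map_zero _) (map_one _))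
  (CB.ext (map_zero _) (GDA.d_one (G := G)))

theorem hI_sq : hI G * hI G = -1 := by
  unfold hI
  rw [cl_mul, ← cl_one, cl_neg]
  exact cl_congr CB.I_mul_I _ _

/-- real and imaginary parts of a class -/
theorem exists_re_im (x : (GC G).HE) : ∃ a b : G.HE, x = (GHom.ofR G).he a + hI G * (GHom.ofR G).he b := by
  obtain ⟨w, h, h', rfl⟩ := cl_surj x
  obtain ⟨h1, h2, h3, h4⟩ := cl_re h h'
  refine ⟨cl w.re h1 h3, cl w.im h2 h4, ?_⟩
  unfold hI
  rw [GHom.he_cl, GHom.he_cl, cl_mul, cl_add]
  exact cl_congr (CB.eq_re_im w) _ _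

theorem re_im_zero {a b : G.HE} (e : (GHom.ofR G).he a + hI G * (GHom.ofR G).he b = 0) : a = 0 ∧ b = 0 := by
  obtain ⟨w, h, h', rfl⟩ := cl_surj a
  obtain ⟨v, k, k', rfl⟩ := cl_surj b
  unfold hI at e
  rw [GHom.he_cl, GHom.he_cl, cl_mul, cl_add, cl_eq_zero] at e
  obtain ⟨ξ, hξ⟩ := e
  constructor
  · rw [cl_eq_zero]
    refine ⟨ξ.re, ?_⟩
    have := congrArg CB.re hξ
    change w + (0 * v - 1 * 0) = _ at this
    rw [zero_mul, mul_zero, sub_zero, add_zero] at this
    exact this
  · rw [cl_eq_zero]
    refine ⟨ξ.im, ?_⟩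
    have := congrArg CB.im hξ
    change 0 + (0 * 0 + 1 * v) = _ at this
    rw [zero_mul, zero_add, zero_add, one_mul] at this
    exact this

theorem re_im_unique {a b a' b' : G.HE}
    (h : (GHom.ofR G).he a + hI G * (GHom.ofR G).he b = (GHom.ofR G).he a' + hI G * (GHom.ofR G).he b') :
    a = a' ∧ b = b' := by
  have h1 : (GHom.ofR G).he (a - a') + hI G * (GHom.ofR G).he (b - b') = 0 := by
    rw [map_sub, map_sub, mul_sub]
    linear_combination h
  obtain ⟨h2, h3⟩ := re_im_zero h1
  exact ⟨sub_eq_zero.1 h2, sub_eq_zero.1 h3⟩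

end GDA

end Pool.Agent.Lib.MP_ccbbf6_gt.L5
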