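import Pool.Agent.Lib.MP_ccbbf6_gt.L4.Cmp4
import Pool.Agent.Lib.MP_ccbbf6_gt.L5.COH1
import Pool.Agent.Lib.MP_ccbbf6_gt.L5.INTk

/-!
# Level 5, COH2: integration over `M`, the cohomology of `M` (helper67)

PROOFS.
(1) TF θ := bM.PI (KO _ (fR^* θ)) (integral over the polar coordinates). TF_d: `d_K`: dO (KO fR^*θ) + KO (dO fR^*θ) = top^*θ - foot^*θ; apply PI_M: PI_M (top^*θ) = PI_M (g^* p2^*θ) = 0 (g_p2, kill), PI_M (foot^*θ) = 0 (PIM_foot);
    PI_M (dO (KO ..)) = - dO (PI_M (KO ..)) (PIM_d). Hence PI_M (KO fR^*(dθ)) = dO (TF θ).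
(2) Deg_TF: Deg (j + N + 1) θ → Deg j (TF θ): Deg_K lowers by 1, Deg_PI by N. TF_low: Deg j θ, j ≤ N → TF θ = 0: j = 0: KO of a 0-form is 0 (`KO_zero` of INTk), j = i+1: PI_low (i < N).
(3) TF_um: TF (u^m) = eps: let f := fR, U := f^*u on G.xR. U^m - (pO^*x)^m = d (bh f u * H (m-1) ..) as in d_TH_ev: with B := bh f u (dO B = U - pO^*x), hh := Σ_(j<m) (pO^*x)^j U^(m-1-j) : dO (B * hh) = (U - pO^*x) * hh = U^m - pO^*x^m (Commute.geom_sum₂).
    Apply KO: KO (U^m) - KO (pO^* x^m) = KO (dO (B hh)) = (B hh)|_1 - (B hh)|_0 - dO (KO (B hh)); KO (pO^* ..) = 0 (K_p); B|_1 = psi (bh_one), B|_0 = 0 (bh_zero), hh|_1 = Σ_(j<m) x^j y^(m-1-j).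
    PI_M: PI_M (psi * x^j y^(m-1-j)) = 0 for j ≥ 1 (PIM_psi_low, PIM_mul, commute) and eps for j = 0 (heps); PI_M (dO (KO (B hh))) = - dO (PI_M (KO (B hh))), KO (B hh) has degree κ + (κ+1)(m-1) - 1 = N - 1 < N: PI_low. (κ ≥ 1; if the
    degree is κ + (κ+1)(m-1) = N, KO lowers to N - 1, N ≥ 1.)
(4) TM: value of TF θ at a point p0 : M.Plot 0 (`val` of L4/Cmp4, linear: fn 0 is linear). TM_d: val (dO τ) p0 = 0: on V 0: dd 0 x = 0 (`dd_tm`: empty sum; or fn of dd: `fn_dd`..). TM_um = eps (val of algebraMap).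
    TF_const: θ closed of degree N+1: TF θ is closed of degree 0 (TF_d with dθ = 0, i.e. apply (1) to.. : dO (TF θ) = TF (dO θ) = 0), so by cM it is algebraMap c, and c = TM θ.
(5) sg: on G.xR: the segment map `sgM : SMap G.xR.xR G.xR := (c, r, s) ↦ (c, r + s (1 - r))`. For a closed form Λ on G.xR: η := KO (sgM^*Λ): dO η = pO^*(Λ|_1) - Λ (d_K; sgM ∘ jO 1 = jO 1 ∘ pO, sgM ∘ jO 0 = id); η|_(r=1) = 0 (sgM at r = 1 does not
    depend on s: sgM ∘ (jO 1).up = jO 1 ∘ pO; K_p), η|_(r=0) = KO Λ (sgM ∘ (jO 0).up = id).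
(6) H2: w closed on M, Deg j w, j ≥ 1. Λ := H m (pO^*x) U on G.xR (closed, even). ξ from exists_xi. θ := pO^*(g^*ξ) - η: dO θ = pO^*(H m x y) - (pO^*(Λ|_1) - Λ) = Λ as Λ|_1 = H m x y = g^*(dξ). θ|_1 = g^*ξ, θ|_0 = g^*ξ - KO Λ.
    W := fR^*w. dO (θ * W) = Λ * W (dW = 0). d_K: dO (KO (θ W)) + KO (Λ W) = (θ W)|_1 - (θ W)|_0 = g^*ξ * top^*w - (g^*ξ - KO Λ) * foot^*w.
    PI_M: PI_M (g^*(ξ * p2^*w)) = 0; PI_M (g^*ξ * foot^*w) = 0; PI_M (KO Λ * foot^*w) = PI_M (KO Λ) * w, PI_M (KO Λ) = Σ_j PI_M (x^j * KO (U^(m-j))) (K_mul: KO (pO^*x^j * U^(m-j)) = x^j * KO (U^(m-j)), x even) = TF (u^m) = eps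
    (for j ≥ 1: TF_low applied to u^(m-j), degree (κ+1)(m-j) ≤ N; PI_mul). So: - dO (PI_M (KO (θ W))) + PI_M (KO (Λ W)) = eps * w, and
    PI_M (KO (Λ W)) = Σ_j u^j * TF (u^(m-j) * w) (K_mul, PI_mul). Terms: degree of u^(m-j) w = (κ+1)(m-j) + j': if > N+1: u^(m-j) w = 0 (big); if ≤ N: TF_low; if = N+1: TF (u^(m-j) w) = TM (u^(m-j) w) (TF_const). So at most the term
    with (κ+1) j = deg w survives.
-/

set_option autoImplicit false
set_option maxSynthPendingDepth 3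

open Set Filter Topology

open scoped ContDiff

noncomputable section

namespace Pool.Agent.Lib.MP_ccbbf6_gt.L5

open L4 L4.FR

namespace CohD

variable {N κ m : ℕ} {M G F : Space} (D : CohD N κ m M G F)

/-- integral over polar coordinates -/
def TF (θ : Om M) : Om M := D.bM.PI (KO _ (D.fR.pull θ))

theorem TF_add (θ θ' : Om M) : D.TF (θ + θ') = D.TF θ + D.TF θ' := by
  unfold TF
  rw [map_add, map_add, SBun.PI_add]

theorem TF_smul (r : ℝ) (θ : Om M) : D.TF (r • θ) = r • D.TF θ := by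
  unfold TF
  rw [map_smul, map_smul, SBun.PI_smul]

private theorem COH2_PI_zero : D.bM.PI 0 = 0 := by
  have h := D.bM.PI_smul (0 : ℝ) 0
  rw [zero_smul, zero_smul] at h
  exact h

/-- the fibre integral as a homomorphism -/
private def COH2_PIh : Om G →+ Om M where
  toFun θ := D.bM.PI θ
  map_zero' := COH2_PI_zero D
  map_add' θ θ' := D.bM.PI_add θ θ'

theorem TF_d (θ : Om M) : D.TF (dO M θ) = dO M (D.TF θ) := by
  have h := d_K (D.fR.pull θ)
  have h1 : (jO G 1).pull (D.fR.pull θ) = D.g.pull (D.p2.pull θ) := by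
    rw [D.g_p2]
    unfold top
    rw [pull_comp]
  have h0 : (jO G 0).pull (D.fR.pull θ) = D.foot.pull θ := by
    unfold foot
    rw [pull_comp]
  rw [h1, h0] at h
  have h2 : dO G (KO G (D.fR.pull θ)) + KO G (D.fR.pull (dO M θ)) + D.foot.pull θ = D.g.pull (D.p2.pull θ) := by
    rw [← pull_d, h, sub_add_cancel]
  have h3 := congrArg D.bM.PI h2
  rw [D.bM.PI_add, D.bM.PI_add, D.kill, D.PIM_foot, add_zero] at h3
  have h4 := D.PIM_d (KO G (D.fR.pull θ))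
  unfold TF
  rw [h4]
  exact eq_neg_of_add_eq_zero_right h3

theorem Deg_TF {j : ℕ} {θ : Om M} (h : Deg (j + N + 1) θ) : Deg j (D.TF θ) :=
  D.bM.Deg_PI (Deg_K (Deg_pull _ h))

theorem TF_low {j : ℕ} {θ : Om M} (h : Deg j θ) (hj : j ≤ N) : D.TF θ = 0 := by
  unfold TF
  rcases j with _ | i
  · rw [KO_zero (Deg_pull _ h), COH2_PI_zero]
  · exact D.bM.PI_low (Deg_K (Deg_pull _ h)) hj

private theorem COH2_Deg_sum {X : Space} {j : ℕ} (s : Finset ℕ) {f : ℕ → Om X} (h : ∀ i ∈ s, Deg j (f i)) :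
    Deg j (∑ i ∈ s, f i) := by
  classical
  induction s using Finset.induction_on with
  | empty =>
    rw [Finset.sum_empty]
    exact Deg_zero
  | insert a s ha ih =>
    rw [Finset.sum_insert ha]
    exact Deg_add (h a (Finset.mem_insert_self a s)) (ih fun i hi => h i (Finset.mem_insert_of_mem hi))

private theorem COH2_term {j : ℕ} (hj : 1 ≤ j) (hjm : j < m) :
    D.bM.PI (D.psi * (D.x ^ j * D.y ^ (m - 1 - j))) = 0 := by
  have h1 : sO G (D.x ^ j) = D.x ^ j := by rw [map_pow, D.sx]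
  have h2 : D.psi * (D.x ^ j * D.y ^ (m - 1 - j)) = D.psi * D.y ^ (m - 1 - j) * D.foot.pull (D.u ^ j) := by
    rw [even_comm' h1, ← mul_assoc, map_pow, D.x_def]
  rw [h2, D.PIM_mul, D.PIM_psi_low (by omega), zero_mul]

theorem TF_um : D.TF (D.u ^ m) = algebraMap ℝ (Om M) D.eps := by
  obtain ⟨U, hU⟩ : ∃ U, U = D.fR.pull D.u := ⟨_, rfl⟩
  obtain ⟨X, hX⟩ : ∃ X, X = (pO G).pull D.x := ⟨_, rfl⟩
  obtain ⟨B, hB⟩ : ∃ B, B = bh D.fR D.u := ⟨_, rfl⟩
  obtain ⟨hh, hhh⟩ : ∃ hh, hh = ∑ i ∈ Finset.range m, X ^ i * U ^ (m - 1 - i) := ⟨_, rfl⟩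
  have hdU : dO _ U = 0 := by rw [hU, pull_d, D.du, map_zero]
  have hdX : dO _ X = 0 := by rw [hX, pull_d, D.dx, map_zero]
  have hsU : sO _ U = U := by rw [hU, pull_s, D.su]
  have hdB : dO _ B = U - X := by
    rw [hB, d_bh D.fR D.u D.du, hU, hX]
    rfl
  have hdh : dO _ hh = 0 := by
    rw [hhh, map_sum]
    refine Finset.sum_eq_zero fun i _ => ?_
    rw [d_mul, d_pow_zero hdX, d_pow_zero hdU, zero_mul, mul_zero, add_zero]
  have hc : Commute X U := (even_comm' hsU X).symm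
  have hg := hc.mul_geom_sum₂ m
  rw [← hhh] at hg
  have hd : dO _ (B * hh) = U ^ m - X ^ m := by
    rw [d_mul, hdh, mul_zero, add_zero, hdB, ← neg_sub X U, neg_mul, hg, neg_sub]
  have hK := d_K (B * hh)
  have hXm : KO G (X ^ m) = 0 := by
    rw [hX, ← map_pow, K_p]
  have hj0 : (jO G 0).pull (B * hh) = 0 := by
    rw [map_mul, hB, bh_zero, zero_mul]
  have hj1 : (jO G 1).pull (B * hh) = D.psi * ∑ i ∈ Finset.range m, D.x ^ i * D.y ^ (m - 1 - i) := by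
    rw [map_mul, hB, bh_one, hhh, map_sum]
    refine congrArg₂ (· * ·) rfl (Finset.sum_congr rfl fun i _ => ?_)
    rw [map_mul, map_pow, map_pow, hX, j_p, hU]
    rfl
  rw [hd, map_sub, hXm, sub_zero, hj0, sub_zero, hj1] at hK
  have hm2 : 2 ≤ m := D.two
  have hdim : N + 1 = (κ + 1) * m := D.dim
  have hDu : Deg (κ + 1) U := by
    rw [hU]
    exact Deg_pull _ D.Du
  have hDX : Deg (κ + 1) X := by
    rw [hX]
    exact Deg_pull _ D.Deg_x
  have hDB : Deg κ B := by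
    rw [hB]
    exact Deg_K (Deg_pull _ (Deg_pull _ D.Du))
  have hDh : Deg ((κ + 1) * (m - 1)) hh := by
    rw [hhh]
    refine COH2_Deg_sum _ fun i hi => ?_
    have h1 := Finset.mem_range.1 hi
    have h2 := Deg_mul (Deg_pow hDX i) (Deg_pow hDu (m - 1 - i))
    rw [← Nat.mul_add] at h2
    have h3 : i + (m - 1 - i) = m - 1 := by omega
    rw [h3] at h2
    exact h2
  have hN : κ + (κ + 1) * (m - 1) = (N - 1) + 1 := by
    obtain ⟨k, rfl⟩ : ∃ k, m = k + 2 := ⟨m - 2, by omega⟩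
    have h1 : k + 2 - 1 = k + 1 := rfl
    rw [h1]
    have h2 : (κ + 1) * (k + 2) = (κ + 1) * (k + 1) + (κ + 1) := by ring
    have h3 : 1 ≤ (κ + 1) * (k + 1) := Nat.mul_pos (Nat.succ_pos _) (Nat.succ_pos _)
    omega
  have hN1 : N - 1 < N := by
    have h3 : 1 * 2 ≤ (κ + 1) * m := Nat.mul_le_mul (by omega) hm2
    omega
  have hlow : D.bM.PI (KO G (B * hh)) = 0 := by
    have h1 := Deg_mul hDB hDh
    rw [hN] at h1
    exact D.bM.PI_low (Deg_K h1) hN1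
  have hP := congrArg D.bM.PI hK
  have h4 := D.PIM_d (KO G (B * hh))
  rw [hlow, map_zero] at h4
  have h5 : D.bM.PI (dO G (KO G (B * hh))) = 0 := neg_eq_zero.1 h4.symm
  rw [D.bM.PI_add, h5, zero_add] at hP
  have h6 : D.TF (D.u ^ m) = D.bM.PI (KO G (U ^ m)) := by
    unfold TF
    rw [map_pow, hU]
  rw [h6, hP, Finset.mul_sum]
  have h7 := map_sum (COH2_PIh D) (fun i => D.psi * (D.x ^ i * D.y ^ (m - 1 - i))) (Finset.range m)
  refine h7.trans ?_
  rw [Finset.sum_eq_single 0]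
  · show D.bM.PI (D.psi * (D.x ^ 0 * D.y ^ (m - 1 - 0))) = _
    rw [pow_zero, one_mul, Nat.sub_zero]
    exact D.heps
  · intro i hi h0
    exact COH2_term D (Nat.pos_of_ne_zero h0) (Finset.mem_range.1 hi)
  · intro h0
    exact absurd (Finset.mem_range.2 (by omega)) h0

/-- integration over `M` -/
def TM (p0 : M.Plot 0) : Om M →ₗ[ℝ] ℝ where
  toFun θ := val (D.TF θ) p0
  map_add' θ θ' := by
    unfold val
    rw [TF_add, on_add, map_add]
    rfl
  map_smul' r θ := by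
    unfold val
    rw [TF_smul, on_smul, map_smul]
    rfl

theorem TM_d (p0 : M.Plot 0) (θ : Om M) : D.TM p0 (dO M θ) = 0 := by
  change val (D.TF (dO M θ)) p0 = 0
  rw [TF_d]
  unfold val
  rw [on_d]
  have h : dd 0 (Om.on (D.TF θ) p0) = 0 := by
    unfold dd
    rw [Finset.univ_eq_empty, Finset.sum_empty]
    rfl
  rw [h, map_zero]
  rfl

private lemma COH2b_val (p0 : M.Plot 0) (a : ℝ) : val (algebraMap ℝ (Om M) a) p0 = a := by
  unfold val
  have h : Om.on (algebraMap ℝ (Om M) a) p0 = fc 0 (algebraMap ℝ (Cs 0) a) := ((fc 0).commutes a).symm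
  rw [h, fn_fc]
  rfl

theorem TM_um (p0 : M.Plot 0) : D.TM p0 (D.u ^ m) = D.eps := by
  change val (D.TF (D.u ^ m)) p0 = D.eps
  rw [TF_um, COH2b_val]

theorem TF_const (p0 : M.Plot 0) {θ : Om M} (h : Deg (N + 1) θ) (hd : dO M θ = 0) :
    D.TF θ = algebraMap ℝ (Om M) (D.TM p0 θ) := by
  have h1 : Deg 0 (D.TF θ) := D.Deg_TF (by rwa [zero_add])
  have h2 : dO M (D.TF θ) = 0 := by
    rw [← TF_d, hd]
    have h3 := D.TF_smul 0 θ
    rwa [zero_smul, zero_smul] at h3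
  obtain ⟨c, hc⟩ := D.cM _ h1 h2
  have h4 : D.TM p0 θ = c := by
    change val (D.TF θ) p0 = c
    rw [hc, COH2b_val]
  rw [h4, hc]

/-- `(c, r, s) ↦ (c, r + s (1 - r))` -/
def sgM (G : Space) : SMap G.xR.xR G.xR :=
  ⟨fun z => (z.1.1, z.1.2 + z.2 * (1 - z.1.2)), fun _ p =>
    ⟨p.2.1.1, p.2.1.2.add (p.2.2.mul (contDiff_const.sub p.2.1.2))⟩⟩

theorem d_sg {Λ : Om G.xR} (h : dO _ Λ = 0) : dO _ (KO _ ((sgM G).pull Λ)) = (pO G).pull ((jO G 1).pull Λ) - Λ := by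
  have h1 := d_K ((sgM G).pull Λ)
  have h2 : (sgM G).comp (jO G.xR 1) = (jO G 1).comp (pO G) := SMap_ext fun z => by
    change (z.1, z.2 + 1 * (1 - z.2)) = (z.1, (1 : ℝ))
    rw [one_mul, add_sub_cancel]
  have h3 : (sgM G).comp (jO G.xR 0) = SMap.id G.xR := SMap_ext fun z => by
    change (z.1, z.2 + 0 * (1 - z.2)) = z
    rw [zero_mul, add_zero]
    rfl
  rw [pull_d, h, map_zero, map_zero, add_zero, ← pull_comp, ← pull_comp, h2, h3, pull_comp, pull_id] at h1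
  exact h1

theorem sg_one (Λ : Om G.xR) : (jO G 1).pull (KO _ ((sgM G).pull Λ)) = 0 := by
  have h1 : (sgM G).comp (jO G 1).up = (jO G 1).comp (pO G) := SMap_ext fun z => by
    change (z.1, 1 + z.2 * (1 - 1)) = (z.1, (1 : ℝ))
    rw [sub_self, mul_zero, add_zero]
  rw [← K_up, ← pull_comp, h1, pull_comp, K_p]

theorem sg_zero (Λ : Om G.xR) : (jO G 0).pull (KO _ ((sgM G).pull Λ)) = KO _ Λ := by
  have h1 : (sgM G).comp (jO G 0).up = SMap.id G.xR := SMap_ext fun z => by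
    change (z.1, 0 + z.2 * (1 - 0)) = z
    rw [sub_zero, mul_one, zero_add]
    rfl
  rw [← K_up, ← pull_comp, h1, pull_id]

private theorem COH2c_Deg_sum {X : Space} {j : ℕ} {ι : Type} (s : Finset ι) (f : ι → Om X) (h : ∀ i ∈ s, Deg j (f i)) :
    Deg j (∑ i ∈ s, f i) :=
  Finset.sum_induction f (fun z => Deg j z) (fun _ _ => Deg_add) Deg_zero h

private theorem COH2c_Deg_HH : Deg ((κ + 1) * m) (HH D.fR D.u m) := by
  unfold HH
  refine COH2c_Deg_sum _ _ fun j hj => ?_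
  have hjm : j ≤ m := Nat.lt_succ_iff.1 (Finset.mem_range.1 hj)
  have h1 := Deg_mul (Deg_pow (Deg_pull (pO G) D.Deg_x) j) (Deg_pow (Deg_pull D.fR D.Du) (m - j))
  have h2 : (κ + 1) * j + (κ + 1) * (m - j) = (κ + 1) * m := by
    rw [← mul_add, Nat.add_sub_cancel' hjm]
  rw [h2] at h1
  exact h1

private theorem COH2c_sub (a b : Om G) : D.bM.PI (a - b) = D.bM.PI a - D.bM.PI b := by
  have h := D.bM.PI_smul (-1) b
  rw [neg_one_smul, neg_one_smul] at h
  rw [sub_eq_add_neg, D.bM.PI_add, h, ← sub_eq_add_neg]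

private theorem COH2c_PI_sum {ι : Type} (s : Finset ι) (f : ι → Om G) :
    D.bM.PI (∑ i ∈ s, f i) = ∑ i ∈ s, D.bM.PI (f i) := by
  let L : Om G →+ Om M := AddMonoidHom.mk' D.bM.PI fun a b => D.bM.PI_add a b
  exact map_sum L f s

private theorem COH2c_KHH (w : Om M) : D.bM.PI (KO _ (HH D.fR D.u m * D.fR.pull w)) =
    ∑ j ∈ Finset.range (m + 1), D.u ^ j * D.TF (D.u ^ (m - j) * w) := by
  unfold HH
  rw [Finset.sum_mul, map_sum, D.COH2c_PI_sum]
  refine Finset.sum_congr rfl fun j _ => ?_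
  have h1 : (pO G).pull (wt D.fR D.u 0) ^ j * D.fR.pull D.u ^ (m - j) * D.fR.pull w =
      (pO G).pull (D.foot.pull (D.u ^ j)) * D.fR.pull (D.u ^ (m - j) * w) := by
    rw [mul_assoc, map_mul D.fR.pull, map_pow D.fR.pull, map_pow D.foot.pull, map_pow (pO G).pull]
    rfl
  have hs : sO M (D.u ^ j) = D.u ^ j := by rw [map_pow, D.su]
  have hs' : sO G (D.foot.pull (D.u ^ j)) = D.foot.pull (D.u ^ j) := by rw [pull_s, hs]
  rw [h1, K_mul, hs', even_comm' hs', D.PIM_mul, ← even_comm' hs]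
  rfl

/-- the main identity -/
theorem H2_main {w : Om M} (hw : dO M w = 0) : ∃ η : Om M, (∀ j, Deg (j + 1) w → Deg j η) ∧
    D.eps • w = (∑ j ∈ Finset.range (m + 1), D.u ^ j * D.TF (D.u ^ (m - j) * w)) + dO M η := by
  have hKm := D.COH2c_KHH
  obtain ⟨ξ, hξ, dξ⟩ := D.exists_xi
  have hΛ0 : dO _ (HH D.fR D.u m) = 0 := d_HH D.fR D.u D.du m
  have hΛ1 : (jO G 1).pull (HH D.fR D.u m) = D.g.pull (dO F ξ) := by
    rw [dξ]
    unfold HH H
    rw [map_sum, map_sum]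
    refine Finset.sum_congr rfl fun j _ => ?_
    rw [map_mul, map_mul, map_pow, map_pow, map_pow, map_pow, j_p, D.g_p1, D.g_p2]
    rfl
  have hΛd : Deg (N + 1) (HH D.fR D.u m) := by
    rw [D.dim]
    exact D.COH2c_Deg_HH
  have hη1 := d_sg hΛ0
  set η0 := KO _ ((sgM G).pull (HH D.fR D.u m)) with hη0
  have hη0d : Deg N η0 := Deg_K (Deg_pull _ hΛd)
  have hθd : Deg N ((pO G).pull (D.g.pull ξ) - η0) := Deg_sub (Deg_pull _ (Deg_pull _ hξ)) hη0d
  have hdθ : dO _ ((pO G).pull (D.g.pull ξ) - η0) = HH D.fR D.u m := by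
    rw [map_sub, hη1, hΛ1, pull_d, pull_d, sub_sub_cancel]
  have hθ1 : (jO G 1).pull ((pO G).pull (D.g.pull ξ) - η0) = D.g.pull ξ := by
    rw [map_sub, hη0, sg_one, sub_zero, j_p]
  have hθ0 : (jO G 0).pull ((pO G).pull (D.g.pull ξ) - η0) = D.g.pull ξ - KO _ (HH D.fR D.u m) := by
    rw [map_sub, hη0, sg_zero, j_p]
  have hW : dO _ (D.fR.pull w) = 0 := by rw [pull_d, hw, map_zero]
  have hdW : dO _ (((pO G).pull (D.g.pull ξ) - η0) * D.fR.pull w) = HH D.fR D.u m * D.fR.pull w := by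
    rw [d_mul, hW, mul_zero, add_zero, hdθ]
  obtain ⟨θ, hθ⟩ : ∃ θ : Om G.xR, θ = (pO G).pull (D.g.pull ξ) - η0 := ⟨_, rfl⟩
  rw [← hθ] at hθd hθ1 hθ0 hdW
  have hK := d_K (θ * D.fR.pull w)
  rw [hdW, map_mul (jO G 1).pull, map_mul (jO G 0).pull, hθ1, hθ0] at hK
  have e1 : (jO G 1).pull (D.fR.pull w) = D.g.pull (D.p2.pull w) := (D.g_p2 w).symm
  have e0 : (jO G 0).pull (D.fR.pull w) = D.foot.pull w := rfl
  have e0' : D.foot.pull w = D.g.pull (D.p1.pull w) := (D.g_p1 w).symm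
  rw [e1, e0, sub_mul, ← map_mul D.g.pull] at hK
  have h1 := congrArg D.bM.PI hK
  rw [D.bM.PI_add, D.COH2c_sub, D.COH2c_sub, D.kill, D.PIM_mul (KO _ _), e0', ← map_mul D.g.pull, D.kill] at h1
  have h2 := D.PIM_d (KO _ (θ * D.fR.pull w))
  have h3 : D.bM.PI (KO _ (HH D.fR D.u m)) = algebraMap ℝ (Om M) D.eps := by
    have h4 := hKm 1
    rw [map_one, mul_one] at h4
    rw [h4, Finset.sum_range_succ', Finset.sum_eq_zero, zero_add, pow_zero, one_mul, mul_one, Nat.sub_zero, D.TF_um]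
    intro j hj
    have hjm : j < m := Finset.mem_range.1 hj
    have h5 : m - (j + 1) + 1 ≤ m := by omega
    have h6 : (κ + 1) * (m - (j + 1)) + (κ + 1) ≤ N + 1 := by
      rw [D.dim]
      calc (κ + 1) * (m - (j + 1)) + (κ + 1) = (κ + 1) * (m - (j + 1) + 1) := by ring
        _ ≤ (κ + 1) * m := Nat.mul_le_mul_left _ h5
    rw [mul_one, D.TF_low (Deg_pow D.Du (m - (j + 1))) (by omega), mul_zero]
  rw [h3, hKm w] at h1
  refine ⟨-D.bM.PI (KO _ (θ * D.fR.pull w)), fun j hj => ?_, ?_⟩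
  · refine Deg_neg (D.bM.Deg_PI (Deg_K ?_))
    have h7 := Deg_mul hθd (Deg_pull D.fR hj)
    have h8 : N + (j + 1) = j + N + 1 := by omega
    rwa [h8] at h7
  · rw [map_neg, h2, neg_neg, Algebra.smul_def]
    rw [zero_sub, zero_sub, neg_neg] at h1
    rw [← h1, add_comm]

private theorem COH2d_zero : D.TF 0 = 0 := by
  have h3 := D.TF_smul 0 0
  rwa [zero_smul, zero_smul] at h3

private theorem COH2d_dpow (k : ℕ) : dO M (D.u ^ k) = 0 := by
  induction k with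
  | zero => rw [pow_zero, d_one]
  | succ k ih => rw [pow_succ, d_mul, ih, zero_mul, D.du, mul_zero, add_zero]

private theorem mul_comm_algebraMap_COH2d (a : Om M) (c : ℝ) : a * algebraMap ℝ (Om M) c = c • a := by
  rw [← Algebra.commutes, Algebra.smul_def]

/-- **(H2)**, degrees divisible by `κ + 1` -/
theorem H2 (p0 : M.Plot 0) {w : Om M} (hw : dO M w = 0) {j : ℕ} (h1 : 1 ≤ j) (hj : Deg ((κ + 1) * j) w) :
    ∃ η : Om M, (∀ i, (κ + 1) * j = i + 1 → Deg i η) ∧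
      w = (D.eps⁻¹ * D.TM p0 (D.u ^ (m - j) * w)) • D.u ^ j + dO M η := by
  obtain ⟨η, h2, h3⟩ := D.H2_main hw
  have hdim := D.dim
  have hbig : ∀ k, k < j → k ≤ m → D.TF (D.u ^ (m - k) * w) = 0 := by
    intro k hk hkm
    have h4 : D.u ^ (m - k) * w = 0 := by
      refine D.big (Deg_mul (Deg_pow D.Du (m - k)) hj) ?_
      have h5 : m < m - k + j := by omega
      rw [hdim, ← mul_add]
      exact Nat.mul_lt_mul_of_pos_left h5 (Nat.succ_pos κ)
    rw [h4]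
    exact D.COH2d_zero
  rcases le_or_gt j m with hjm | hjm
  · have hsum : ∑ k ∈ Finset.range (m + 1), D.u ^ k * D.TF (D.u ^ (m - k) * w) =
        D.u ^ j * D.TF (D.u ^ (m - j) * w) := by
      refine Finset.sum_eq_single j ?_ ?_
      · intro k hk hkj
        have hk' : k ≤ m := Nat.lt_succ_iff.1 (Finset.mem_range.1 hk)
        rcases lt_or_gt_of_ne hkj with h4 | h4
        · rw [hbig k h4 hk', mul_zero]
        · rw [D.TF_low (Deg_mul (Deg_pow D.Du (m - k)) hj), mul_zero]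
          have h5 : m - k + j + 1 ≤ m := by omega
          have h6 : (κ + 1) * (m - k) + (κ + 1) * j + (κ + 1) ≤ N + 1 := by
            rw [hdim]
            calc (κ + 1) * (m - k) + (κ + 1) * j + (κ + 1) = (κ + 1) * (m - k + j + 1) := by ring
              _ ≤ (κ + 1) * m := Nat.mul_le_mul_left _ h5
          omega
      · intro hk
        exact absurd (Finset.mem_range.2 (Nat.lt_succ_of_le hjm)) hk
    have hdeg : Deg (N + 1) (D.u ^ (m - j) * w) := by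
      have h4 := Deg_mul (Deg_pow D.Du (m - j)) hj
      have h5 : (κ + 1) * (m - j) + (κ + 1) * j = N + 1 := by
        rw [hdim, ← mul_add, Nat.sub_add_cancel hjm]
      rwa [h5] at h4
    have hcl : dO M (D.u ^ (m - j) * w) = 0 := by
      rw [d_mul, hw, mul_zero, add_zero, D.COH2d_dpow, zero_mul]
    rw [hsum, D.TF_const p0 hdeg hcl, mul_comm_algebraMap_COH2d] at h3
    refine ⟨D.eps⁻¹ • η, fun i hi => Deg_smul _ (h2 i (by rw [← hi]; exact hj)), ?_⟩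
    have h4 := congrArg (fun z => D.eps⁻¹ • z) h3
    simp only [smul_smul, smul_add, inv_mul_cancel₀ D.eps0, one_smul] at h4
    rw [map_smul]
    exact h4
  · have h4 : w = 0 := by
      refine D.big hj ?_
      rw [hdim]
      exact Nat.mul_lt_mul_of_pos_left hjm (Nat.succ_pos κ)
    refine ⟨0, fun i _ => Deg_zero, ?_⟩
    rw [h4, mul_zero, map_zero, map_zero, mul_zero, zero_smul, add_zero]

include D in
/-- **(H2)**, other degrees -/
theorem H2' {w : Om M} (hw : dO M w = 0) {i : ℕ} (hi : Deg (i + 1) w) (h : ¬ (κ + 1) ∣ (i + 1)) :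
    ∃ η : Om M, Deg i η ∧ w = dO M η := by
  obtain ⟨η, h2, h3⟩ := D.H2_main hw
  have hdim := D.dim
  have hsum : ∑ k ∈ Finset.range (m + 1), D.u ^ k * D.TF (D.u ^ (m - k) * w) = 0 := by
    refine Finset.sum_eq_zero fun k hk => ?_
    have hk' : k ≤ m := Nat.lt_succ_iff.1 (Finset.mem_range.1 hk)
    have hD := Deg_mul (Deg_pow D.Du (m - k)) hi
    have h4 : (κ + 1) * (m - k) + (κ + 1) * k = N + 1 := by
      rw [hdim, ← mul_add, Nat.sub_add_cancel hk']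
    rcases lt_trichotomy ((κ + 1) * (m - k) + (i + 1)) (N + 1) with h5 | h5 | h5
    · rw [D.TF_low hD (Nat.lt_succ_iff.1 h5), mul_zero]
    · refine absurd ⟨k, ?_⟩ h
      omega
    · rw [D.big hD h5, D.COH2d_zero, mul_zero]
  rw [hsum, zero_add] at h3
  refine ⟨D.eps⁻¹ • η, Deg_smul _ (h2 i hi), ?_⟩
  have h4 := congrArg (fun z => D.eps⁻¹ • z) h3
  simp only [smul_smul, inv_mul_cancel₀ D.eps0, one_smul] at h4
  rw [map_smul]
  exact h4

end CohD

end Pool.Agent.Lib.MP_ccbbf6_gt.L5
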