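import Pool.Agent.Lib.MP_ccbbf6_gt.ML

/-!
# Level 5, CW0: matrices over a differential graded algebra, the Chern character forms (helper13)

A graded algebra is presented without its grading: `s` is the grading involution, even elements are central, odd elements
anticommute.
-/

set_option autoImplicit false
set_option linter.unusedSectionVars false

noncomputable section

namespace Pool.Agent.Lib.MP_ccbbf6_gt.L5

open Matrix

/-- a graded commutative differential algebra -/
structure GDA (B : Type*) [Ring B] [Algebra ℝ B] where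
  /-- differential -/
  d : B →ₗ[ℝ] B
  /-- grading involution -/
  s : B →ₐ[ℝ] B
  s_s : ∀ a, s (s a) = a
  d_d : ∀ a, d (d a) = 0
  d_mul : ∀ a b, d (a * b) = d a * b + s a * d b
  s_d : ∀ a, s (d a) = -d (s a)
  comm_even : ∀ a b, s a = a → a * b = b * a
  comm_odd : ∀ a b, s a = -a → s b = -b → a * b = -(b * a)

namespace GDA

variable {B : Type*} [Ring B] [Algebra ℝ B] (G : GDA B)

variable {ι κ μ : Type*} [Fintype ι] [Fintype κ] [Fintype μ] [DecidableEq ι] [DecidableEq κ] [DecidableEq μ]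

/-- differential of a matrix -/
def D (M : Matrix ι κ B) : Matrix ι κ B := M.map G.d

/-- grading involution of a matrix -/
def S (M : Matrix ι κ B) : Matrix ι κ B := M.map G.s

/-- even matrices -/
def Ev (M : Matrix ι κ B) : Prop := G.S M = M

/-- odd matrices -/
def Od (M : Matrix ι κ B) : Prop := G.S M = -M

variable {G}

theorem D_apply (M : Matrix ι κ B) (i : ι) (j : κ) : G.D M i j = G.d (M i j) := rfl
theorem S_apply (M : Matrix ι κ B) (i : ι) (j : κ) : G.S M i j = G.s (M i j) := rfl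

theorem Ev.app {M : Matrix ι κ B} (h : G.Ev M) (i : ι) (j : κ) : G.s (M i j) = M i j := congrFun (congrFun h i) j
theorem Od.app {M : Matrix ι κ B} (h : G.Od M) (i : ι) (j : κ) : G.s (M i j) = -M i j := congrFun (congrFun h i) j

theorem D_mul (M : Matrix ι κ B) (N : Matrix κ μ B) : G.D (M * N) = G.D M * N + G.S M * G.D N := by
  ext i j
  rw [D_apply, Matrix.mul_apply, map_sum, Matrix.add_apply, Matrix.mul_apply, Matrix.mul_apply, ← Finset.sum_add_distrib]
  exact Finset.sum_congr rfl fun k _ => G.d_mul _ _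

theorem S_mul (M : Matrix ι κ B) (N : Matrix κ μ B) : G.S (M * N) = G.S M * G.S N := by
  ext i j
  rw [S_apply, Matrix.mul_apply, map_sum, Matrix.mul_apply]
  exact Finset.sum_congr rfl fun k _ => by rw [map_mul]; rfl

theorem D_add (M N : Matrix ι κ B) : G.D (M + N) = G.D M + G.D N := by
  ext i j; exact map_add G.d _ _

theorem D_sub (M N : Matrix ι κ B) : G.D (M - N) = G.D M - G.D N := by
  ext i j; exact map_sub G.d _ _

theorem D_neg (M : Matrix ι κ B) : G.D (-M) = -G.D M := by
  ext i j; exact map_neg G.d _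

theorem S_add (M N : Matrix ι κ B) : G.S (M + N) = G.S M + G.S N := by
  ext i j; exact map_add G.s _ _

theorem S_sub (M N : Matrix ι κ B) : G.S (M - N) = G.S M - G.S N := by
  ext i j; exact map_sub G.s _ _

theorem S_neg (M : Matrix ι κ B) : G.S (-M) = -G.S M := by
  ext i j; exact map_neg G.s _

theorem S_zero : G.S (0 : Matrix ι κ B) = 0 := by
  ext i j; exact map_zero G.s

theorem D_zero : G.D (0 : Matrix ι κ B) = 0 := by
  ext i j; exact map_zero G.d

theorem S_one : G.S (1 : Matrix ι ι B) = 1 := by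
  ext i j
  rw [S_apply, Matrix.one_apply, apply_ite G.s, map_one, map_zero]

theorem d_one : G.d 1 = 0 := by
  have h := G.d_mul 1 1
  rw [_root_.map_one G.s, mul_one, mul_one, one_mul] at h
  have h2 : G.d 1 + 0 = G.d 1 + G.d 1 := by rw [add_zero]; exact h
  exact (add_left_cancel h2).symm

theorem D_one : G.D (1 : Matrix ι ι B) = 0 := by
  ext i j
  rw [D_apply, Matrix.one_apply, apply_ite G.d, d_one, map_zero, ite_self]
  rfl

theorem D_D (M : Matrix ι κ B) : G.D (G.D M) = 0 := by
  ext i j; exact G.d_d _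

theorem S_S (M : Matrix ι κ B) : G.S (G.S M) = M := by
  ext i j; exact G.s_s _

theorem S_D (M : Matrix ι κ B) : G.S (G.D M) = -G.D (G.S M) := by
  ext i j; exact G.s_d _

theorem Ev.D {M : Matrix ι κ B} (h : G.Ev M) : G.Od (G.D M) := by
  unfold Od
  rw [S_D, h]

theorem Od.D {M : Matrix ι κ B} (h : G.Od M) : G.Ev (G.D M) := by
  unfold Ev
  rw [S_D, h, D_neg, neg_neg]

theorem Ev.mul {M : Matrix ι κ B} {N : Matrix κ μ B} (h : G.Ev M) (h' : G.Ev N) : G.Ev (M * N) := by
  unfold Ev
  rw [S_mul, h, h']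

theorem Ev.mul_od {M : Matrix ι κ B} {N : Matrix κ μ B} (h : G.Ev M) (h' : G.Od N) : G.Od (M * N) := by
  unfold Od
  rw [S_mul, h, h', Matrix.mul_neg]

theorem Od.mul_ev {M : Matrix ι κ B} {N : Matrix κ μ B} (h : G.Od M) (h' : G.Ev N) : G.Od (M * N) := by
  unfold Od
  rw [S_mul, h, h', Matrix.neg_mul]

theorem Od.mul {M : Matrix ι κ B} {N : Matrix κ μ B} (h : G.Od M) (h' : G.Od N) : G.Ev (M * N) := by
  unfold Ev
  rw [S_mul, h, h', Matrix.neg_mul, Matrix.mul_neg, neg_neg]

theorem Ev.add {M N : Matrix ι κ B} (h : G.Ev M) (h' : G.Ev N) : G.Ev (M + N) := by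
  unfold Ev
  rw [S_add, h, h']

theorem Ev.sub {M N : Matrix ι κ B} (h : G.Ev M) (h' : G.Ev N) : G.Ev (M - N) := by
  unfold Ev
  rw [S_sub, h, h']

theorem Ev.neg {M : Matrix ι κ B} (h : G.Ev M) : G.Ev (-M) := by
  unfold Ev
  rw [S_neg, h]

theorem ev_zero : G.Ev (0 : Matrix ι κ B) := S_zero

theorem ev_one : G.Ev (1 : Matrix ι ι B) := S_one

theorem Ev.pow {M : Matrix ι ι B} (h : G.Ev M) (j : ℕ) : G.Ev (M ^ j) := by
  induction j with
  | zero => rw [pow_zero]; exact ev_one
  | succ j ih => rw [pow_succ]; exact ih.mul h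

/-- cyclicity, one even factor -/
theorem tr_comm_ev {M : Matrix ι κ B} {N : Matrix κ ι B} (h : G.Ev M) : trace (M * N) = trace (N * M) := by
  unfold trace
  simp only [Matrix.diag_apply, Matrix.mul_apply]
  rw [Finset.sum_comm]
  exact Finset.sum_congr rfl fun i _ => Finset.sum_congr rfl fun j _ => G.comm_even _ _ (h.app _ _)

/-- cyclicity, odd factors -/
theorem tr_comm_od {M : Matrix ι κ B} {N : Matrix κ ι B} (h : G.Od M) (h' : G.Od N) :
    trace (M * N) = -trace (N * M) := by
  unfold trace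
  simp only [Matrix.diag_apply, Matrix.mul_apply]
  rw [Finset.sum_comm, ← Finset.sum_neg_distrib]
  refine Finset.sum_congr rfl fun i _ => ?_
  rw [← Finset.sum_neg_distrib]
  exact Finset.sum_congr rfl fun j _ => G.comm_odd _ _ (h.app _ _) (h'.app _ _)

theorem d_trace (M : Matrix ι ι B) : G.d (trace M) = trace (G.D M) := by
  unfold trace
  rw [map_sum]
  rfl

theorem s_trace (M : Matrix ι ι B) : G.s (trace M) = trace (G.S M) := by
  unfold trace
  rw [map_sum]
  rfl

/-! ### idempotents -/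

variable (G)

/-- a vector bundle: an even idempotent matrix -/
structure Idem (P : Matrix ι ι B) : Prop where
  idem : P * P = P
  ev : G.Ev P

/-- `(DP)^2` -/
def R (P : Matrix ι ι B) : Matrix ι ι B := G.D P * G.D P

/-- the power sums of the curvature -/
def ps (P : Matrix ι ι B) (j : ℕ) : B := trace (P * G.R P ^ j)

variable {G}

variable {P Q : Matrix ι ι B}

theorem Idem.leib (h : G.Idem P) : G.D P * P + P * G.D P = G.D P := by
  conv_rhs => rw [← h.idem]
  rw [D_mul, h.ev]

theorem Idem.mulD (h : G.Idem P) : P * G.D P = G.D P - G.D P * P := by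
  rw [eq_sub_iff_add_eq, add_comm]
  exact h.leib

theorem Idem.pdp (h : G.Idem P) : P * G.D P * P = 0 := by
  rw [h.mulD, Matrix.sub_mul, Matrix.mul_assoc, h.idem, sub_self]

theorem Idem.od (h : G.Idem P) : G.Od (G.D P) := h.ev.D

theorem Idem.evR (h : G.Idem P) : G.Ev (G.R P) := h.od.mul h.od

theorem Idem.comm (h : G.Idem P) : P * G.R P = G.R P * P := by
  unfold R
  have h1 : P * (G.D P * G.D P) = G.D P * G.D P - G.D P * (P * G.D P) := by
    rw [← Matrix.mul_assoc, h.mulD, Matrix.sub_mul, Matrix.mul_assoc]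
    congr 1
    rw [← h.mulD]
  rw [h1]
  conv_lhs => rw [h.mulD]
  rw [Matrix.mul_sub, sub_sub_cancel, Matrix.mul_assoc]

theorem Idem.commute (h : G.Idem P) : Commute P (G.R P) := h.comm

theorem Idem.commute_pow (h : G.Idem P) (j : ℕ) : Commute P (G.R P ^ j) := h.commute.pow_right j

theorem D_R (P : Matrix ι ι B) : G.D (G.R P) = 0 := by
  unfold R
  rw [D_mul, D_D, Matrix.zero_mul, Matrix.mul_zero, add_zero]

theorem D_pow_R (P : Matrix ι ι B) (j : ℕ) : G.D (G.R P ^ j) = 0 := by
  induction j with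
  | zero => rw [pow_zero, D_one]
  | succ j ih => rw [pow_succ, D_mul, ih, D_R, Matrix.zero_mul, Matrix.mul_zero, add_zero]

/-- the power sums are closed -/
theorem Idem.d_ps (h : G.Idem P) (j : ℕ) : G.d (G.ps P j) = 0 := by
  unfold ps
  rw [d_trace, D_mul, D_pow_R, Matrix.mul_zero, add_zero]
  have hc : G.R P ^ j * P = P * G.R P ^ j := (h.commute_pow j).eq.symm
  have h0 : trace (P * G.D P * G.R P ^ j) = 0 := by
    have e1 : P * G.D P * G.R P ^ j = P * (P * G.D P * G.R P ^ j) := by
      rw [← Matrix.mul_assoc, ← Matrix.mul_assoc, h.idem]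
    rw [e1, tr_comm_ev h.ev, Matrix.mul_assoc, hc, ← Matrix.mul_assoc, h.pdp, Matrix.zero_mul, Matrix.trace_zero]
  have h1 : trace (G.D P * P * G.R P ^ j) = 0 := by
    rw [Matrix.mul_assoc, ← hc, ← Matrix.mul_assoc, ← tr_comm_ev h.ev, ← Matrix.mul_assoc, h0]
  rw [← h.leib, Matrix.add_mul, Matrix.trace_add, h0, h1, add_zero]

theorem Idem.s_ps (h : G.Idem P) (j : ℕ) : G.s (G.ps P j) = G.ps P j := by
  unfold ps
  rw [s_trace, h.ev.mul (h.evR.pow j)]

theorem ps_zero (P : Matrix ι ι B) : G.ps P 0 = trace P := by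
  unfold ps
  rw [pow_zero, Matrix.mul_one]

theorem Idem.pow_mul (h : G.Idem P) {j : ℕ} (hj : j ≠ 0) : (P * G.R P) ^ j = P * G.R P ^ j := by
  rw [h.commute.mul_pow]
  congr 1
  have : IsIdempotentElem P := h.idem
  exact this.pow_eq hj

/-! ### the complement -/

theorem Idem.compl (h : G.Idem P) : G.Idem (1 - P) := by
  constructor
  · rw [Matrix.sub_mul, Matrix.one_mul, Matrix.mul_sub, Matrix.mul_one, h.idem, sub_self, sub_zero]
  · exact ev_one.sub h.ev

theorem R_compl (P : Matrix ι ι B) : G.R (1 - P) = G.R P := by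
  unfold R
  rw [D_sub, D_one, zero_sub, Matrix.neg_mul, Matrix.mul_neg, neg_neg]

/-- the trivial bundle has no curvature: the power sums of complementary bundles cancel -/
theorem Idem.ps_compl (h : G.Idem P) {j : ℕ} (hj : j ≠ 0) : G.ps P j + G.ps (1 - P) j = 0 := by
  unfold ps
  rw [R_compl, ← Matrix.trace_add, ← Matrix.add_mul, add_sub_cancel, Matrix.one_mul]
  obtain ⟨k, rfl⟩ : ∃ k, j = k + 1 := ⟨j - 1, by omega⟩
  have h1 : G.Od (G.R P ^ k * G.D P) := (h.evR.pow k).mul_od h.od
  have e1 : G.R P ^ (k + 1) = G.R P ^ k * G.D P * G.D P := by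
    rw [pow_succ, Matrix.mul_assoc]
    rfl
  have hcomm : G.D P * (G.R P ^ k * G.D P) = G.R P ^ (k + 1) := by
    have h3 : Commute (G.D P) (G.R P) := by
      unfold R
      exact (Commute.refl (G.D P)).mul_right (Commute.refl (G.D P))
    rw [← Matrix.mul_assoc, (h3.pow_right k).eq, Matrix.mul_assoc, pow_succ]
    rfl
  have h2 := tr_comm_od h1 h.od
  rw [hcomm, ← e1] at h2
  have h3 : (2 : ℝ) • trace (G.R P ^ (k + 1)) = 0 := by
    rw [two_smul]
    nth_rewrite 1 [h2]
    exact neg_add_cancel _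
  have h4 : trace (G.R P ^ (k + 1)) = (1 / 2 : ℝ) • ((2 : ℝ) • trace (G.R P ^ (k + 1))) := by
    rw [smul_smul]
    norm_num
  rw [h4, h3, smul_zero]

end GDA

end Pool.Agent.Lib.MP_ccbbf6_gt.L5
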