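import Pool.Agent.Lib.MP_ccbbf6_gt.L5.CW0

/-!
# Level 5, CW2: tensor products, split bundles, dual bundles (helper13)
-/

set_option autoImplicit false
set_option linter.unusedSectionVars false

noncomputable section

namespace Pool.Agent.Lib.MP_ccbbf6_gt.L5

open Matrix

variable {B : Type*} [Ring B] [Algebra ℝ B] {G : GDA B}

variable {ι κ μ ν ι' κ' : Type*} [Fintype ι] [Fintype κ] [Fintype μ] [Fintype ν] [Fintype ι'] [Fintype κ']
  [DecidableEq ι] [DecidableEq κ] [DecidableEq μ] [DecidableEq ν] [DecidableEq ι'] [DecidableEq κ']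

/-- Kronecker product -/
def kr (M : Matrix ι μ B) (N : Matrix κ ν B) : Matrix (ι × κ) (μ × ν) B := fun a b => M a.1 b.1 * N a.2 b.2

theorem kr_apply (M : Matrix ι μ B) (N : Matrix κ ν B) (a : ι × κ) (b : μ × ν) : kr M N a b = M a.1 b.1 * N a.2 b.2 :=
  rfl

theorem kr_mul {M : Matrix ι μ B} {N : Matrix κ ν B} {M' : Matrix μ ι' B} {N' : Matrix ν κ' B}
    (h : ∀ a b c d, N a b * M' c d = M' c d * N a b) : kr M N * kr M' N' = kr (M * M') (N * N') := by
  ext a b
  rw [Matrix.mul_apply, kr_apply, Matrix.mul_apply, Matrix.mul_apply, Fintype.sum_prod_type, Finset.sum_mul_sum]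
  refine Finset.sum_congr rfl fun k _ => Finset.sum_congr rfl fun l _ => ?_
  rw [kr_apply, kr_apply, mul_assoc, ← mul_assoc (N _ _), h]
  simp only [mul_assoc]

theorem kr_mul_neg {M : Matrix ι μ B} {N : Matrix κ ν B} {M' : Matrix μ ι' B} {N' : Matrix ν κ' B}
    (h : ∀ a b c d, N a b * M' c d = -(M' c d * N a b)) : kr M N * kr M' N' = -kr (M * M') (N * N') := by
  ext a b
  rw [Matrix.mul_apply, Matrix.neg_apply, kr_apply, Matrix.mul_apply, Matrix.mul_apply, Fintype.sum_prod_type,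
    Finset.sum_mul_sum, ← Finset.sum_neg_distrib]
  refine Finset.sum_congr rfl fun k _ => ?_
  rw [← Finset.sum_neg_distrib]
  refine Finset.sum_congr rfl fun l _ => ?_
  rw [kr_apply, kr_apply, mul_assoc, ← mul_assoc (N _ _), h]
  simp only [mul_assoc, neg_mul, mul_neg]

theorem kr_ev_left {M : Matrix ι μ B} {N : Matrix κ ν B} {M' : Matrix μ ι' B} {N' : Matrix ν κ' B}
    (h : G.Ev N) : kr M N * kr M' N' = kr (M * M') (N * N') :=
  kr_mul fun a b _ _ => G.comm_even _ _ (h.app a b)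

theorem kr_ev_right {M : Matrix ι μ B} {N : Matrix κ ν B} {M' : Matrix μ ι' B} {N' : Matrix ν κ' B}
    (h : G.Ev M') : kr M N * kr M' N' = kr (M * M') (N * N') :=
  kr_mul fun _ _ c d => (G.comm_even _ _ (h.app c d)).symm

theorem kr_od {M : Matrix ι μ B} {N : Matrix κ ν B} {M' : Matrix μ ι' B} {N' : Matrix ν κ' B}
    (h : G.Od N) (h' : G.Od M') : kr M N * kr M' N' = -kr (M * M') (N * N') :=
  kr_mul_neg fun a b c d => G.comm_odd _ _ (h.app a b) (h'.app c d)

theorem kr_zero_left (N : Matrix κ ν B) : kr (0 : Matrix ι μ B) N = 0 := by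
  ext a b
  exact zero_mul _

theorem kr_zero_right (M : Matrix ι μ B) : kr M (0 : Matrix κ ν B) = 0 := by
  ext a b
  exact mul_zero _

theorem trace_kr (M : Matrix ι ι B) (N : Matrix κ κ B) : trace (kr M N) = trace M * trace N := by
  unfold trace
  rw [Fintype.sum_prod_type, Finset.sum_mul_sum]
  rfl

namespace GDA

theorem Ev.kr {M : Matrix ι μ B} {N : Matrix κ ν B} (h : G.Ev M) (h' : G.Ev N) : G.Ev (kr M N) := by
  unfold Ev
  ext a b
  rw [S_apply, kr_apply, map_mul, h.app, h'.app]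

theorem D_kr {M : Matrix ι μ B} {N : Matrix κ ν B} (h : G.Ev M) : G.D (L5.kr M N) = L5.kr (G.D M) N + L5.kr M (G.D N) := by
  ext a b
  rw [D_apply, kr_apply, G.d_mul, h.app]
  rfl

theorem Idem.kr {P : Matrix ι ι B} {Q : Matrix κ κ B} (h : G.Idem P) (h' : G.Idem Q) : G.Idem (L5.kr P Q) :=
  ⟨by rw [kr_ev_left h'.ev, h.idem, h'.idem], h.ev.kr h'.ev⟩

theorem Idem.absorb {P : Matrix ι ι B} (h : G.Idem P) (j : ℕ) : P * G.R P ^ j * P = P * G.R P ^ j := by
  rw [Matrix.mul_assoc, ← (h.commute_pow j).eq, ← Matrix.mul_assoc, h.idem]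

theorem Idem.step {P : Matrix ι ι B} (h : G.Idem P) (j : ℕ) : P * G.R P ^ j * (P * G.R P) = P * G.R P ^ (j + 1) := by
  rw [← Matrix.mul_assoc, h.absorb, pow_succ, Matrix.mul_assoc]

theorem Idem.R_kr {P : Matrix ι ι B} {Q : Matrix κ κ B} (h : G.Idem P) (h' : G.Idem Q) :
    L5.kr P Q * G.R (L5.kr P Q) = L5.kr (P * G.R P) Q + L5.kr P (Q * G.R Q) := by
  have e1 : G.R (L5.kr P Q) = L5.kr (G.R P) Q + L5.kr (G.D P * P) (Q * G.D Q) - L5.kr (P * G.D P) (G.D Q * Q) +
      L5.kr P (G.R Q) := by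
    unfold GDA.R
    rw [D_kr h.ev, Matrix.add_mul, Matrix.mul_add, Matrix.mul_add, kr_ev_left h'.ev, kr_ev_left h'.ev,
      kr_od h'.od h.od, kr_ev_right h.ev, h.idem, h'.idem]
    abel
  have hk := h.kr h'
  have e2 : L5.kr P Q * G.R (L5.kr P Q) = L5.kr P Q * G.R (L5.kr P Q) * L5.kr P Q := by
    rw [Matrix.mul_assoc, ← hk.comm, ← Matrix.mul_assoc, hk.idem]
  have e3 : P * (G.D P * P) = 0 := by rw [← Matrix.mul_assoc, h.pdp]
  have e4 : L5.kr P Q * L5.kr (G.D P * P) (Q * G.D Q) = 0 := by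
    rw [kr_ev_left h'.ev, e3, kr_zero_left]
  have e5 : L5.kr (P * G.D P) (G.D Q * Q) * L5.kr P Q = 0 := by
    rw [kr_ev_right h.ev, h.pdp, kr_zero_left]
  rw [e2, e1, Matrix.mul_add, Matrix.mul_sub, Matrix.mul_add, e4, add_zero, Matrix.add_mul, Matrix.sub_mul,
    Matrix.mul_assoc _ (L5.kr (P * G.D P) (G.D Q * Q)), e5, Matrix.mul_zero, sub_zero, kr_ev_left h'.ev,
    kr_ev_left h'.ev, kr_ev_right h.ev, kr_ev_right h.ev]
  have f1 : P * G.R P * P = P * G.R P := by
    have := h.absorb 1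
    rwa [pow_one] at this
  have f2 : Q * G.R Q * Q = Q * G.R Q := by
    have := h'.absorb 1
    rwa [pow_one] at this
  rw [f1, f2, h.idem, h'.idem, h.idem, h'.idem]

/-- tensor products -/
theorem Idem.ps_kr {P : Matrix ι ι B} {Q : Matrix κ κ B} (h : G.Idem P) (h' : G.Idem Q) (j : ℕ) :
    G.ps (L5.kr P Q) j = ∑ m ∈ Finset.range (j + 1), (j.choose m : B) * (G.ps P m * G.ps Q (j - m)) := by
  have hk := h.kr h'
  obtain ⟨U, hU⟩ : ∃ U, U = L5.kr (P * G.R P) Q := ⟨_, rfl⟩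
  obtain ⟨W, hW⟩ : ∃ W, W = L5.kr P (Q * G.R Q) := ⟨_, rfl⟩
  have evPR : ∀ i, G.Ev (P * G.R P ^ i) := fun i => h.ev.mul (h.evR.pow i)
  have evQR : ∀ i, G.Ev (Q * G.R Q ^ i) := fun i => h'.ev.mul (h'.evR.pow i)
  have evPR1 : G.Ev (P * G.R P) := h.ev.mul h.evR
  have evQR1 : G.Ev (Q * G.R Q) := h'.ev.mul h'.evR
  have c1 : P * G.R P * P = P * G.R P := by
    have := h.absorb 1
    rwa [pow_one] at this
  have c2 : Q * G.R Q * Q = Q * G.R Q := by
    have := h'.absorb 1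
    rwa [pow_one] at this
  have hcomm : Commute U W := by
    rw [hU, hW]
    change L5.kr (P * G.R P) Q * L5.kr P (Q * G.R Q) = L5.kr P (Q * G.R Q) * L5.kr (P * G.R P) Q
    rw [kr_ev_left h'.ev, kr_ev_left evQR1, c1, c2, ← Matrix.mul_assoc, ← Matrix.mul_assoc, h.idem, h'.idem]
  have key : ∀ i l, L5.kr P Q * (U ^ i * W ^ l) = L5.kr (P * G.R P ^ i) (Q * G.R Q ^ l) := by
    intro i l
    induction l with
    | zero =>
      rw [pow_zero, pow_zero, Matrix.mul_one, Matrix.mul_one]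
      induction i with
      | zero => rw [pow_zero, pow_zero, Matrix.mul_one, Matrix.mul_one]
      | succ i ih =>
        rw [pow_succ, ← Matrix.mul_assoc, ih, hU, kr_ev_left h'.ev, h.step, h'.idem]
    | succ l ih =>
      rw [pow_succ, ← Matrix.mul_assoc, ← Matrix.mul_assoc, Matrix.mul_assoc (L5.kr P Q), ih, hW,
        kr_ev_left (evQR l), h.absorb, h'.step]
  have e1 : (L5.kr P Q) * G.R (L5.kr P Q) ^ j = L5.kr P Q * (U + W) ^ j := by
    rw [hU, hW, ← h.R_kr h', hk.commute.mul_pow, ← Matrix.mul_assoc]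
    congr 1
    rcases j with _ | j
    · rw [pow_zero, Matrix.mul_one]
    · have hi : IsIdempotentElem (L5.kr P Q) := hk.idem
      rw [hi.pow_eq (Nat.succ_ne_zero j), hk.idem]
  unfold GDA.ps
  rw [e1, hcomm.add_pow, Finset.mul_sum, Matrix.trace_sum]
  refine Finset.sum_congr rfl fun m _ => ?_
  rw [← Matrix.mul_assoc, key, ← trace_kr]
  have e2 : ∀ (n : ℕ) (M : Matrix (ι × κ) (ι × κ) B), trace (M * (n : Matrix (ι × κ) (ι × κ) B)) = (n : B) * trace M := by
    intro n M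
    rw [← nsmul_eq_mul, ← nsmul_eq_mul', Matrix.trace_smul]
  rw [e2]

/-! ### split bundles -/

/-- if `P = a b` and `b a = 1` then the power sums are those of the matrix `b R a` -/
theorem Idem.ps_split {P : Matrix ι ι B} (h : G.Idem P) {a : Matrix ι κ B} {b : Matrix κ ι B} (ha : G.Ev a)
    (h1 : a * b = P) (h2 : b * a = 1) (j : ℕ) : G.ps P j = trace ((b * G.R P * a) ^ j) := by
  have hPa : P * a = a := by rw [← h1, Matrix.mul_assoc, h2, Matrix.mul_one]
  have hbP : b * P = b := by rw [← h1, ← Matrix.mul_assoc, h2, Matrix.one_mul]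
  have key : ∀ j, (b * G.R P * a) ^ j = b * G.R P ^ j * a := by
    intro j
    induction j with
    | zero => rw [pow_zero, pow_zero, Matrix.mul_one, h2]
    | succ j ih =>
      rw [pow_succ, ih]
      calc b * G.R P ^ j * a * (b * G.R P * a) = b * G.R P ^ j * (a * b) * G.R P * a := by
            simp only [Matrix.mul_assoc]
        _ = b * G.R P ^ (j + 1) * a := by
            rw [h1, Matrix.mul_assoc b, ← (h.commute_pow j).eq, ← Matrix.mul_assoc b, hbP, pow_succ]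
            simp only [Matrix.mul_assoc]
  rw [key]
  unfold GDA.ps
  rw [← tr_comm_ev ha, ← Matrix.mul_assoc, h1]

/-- line bundles -/
theorem Idem.ps_line {P : Matrix ι ι B} (h : G.Idem P) {a : Matrix ι Unit B} {b : Matrix Unit ι B} (ha : G.Ev a)
    (h1 : a * b = P) (h2 : b * a = 1) (j : ℕ) : G.ps P j = G.ps P 1 ^ j := by
  have key : ∀ M : Matrix Unit Unit B, ∀ j, trace (M ^ j) = trace M ^ j := by
    intro M j
    have e : ∀ N : Matrix Unit Unit B, trace N = N () () := fun N => by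
      unfold trace
      simp
    rw [e, e]
    induction j with
    | zero => rw [pow_zero, pow_zero]; rfl
    | succ j ih => rw [pow_succ, pow_succ, Matrix.mul_apply, ← ih]; simp
  rw [h.ps_split ha h1 h2, h.ps_split ha h1 h2, key, pow_one]

/-! ### dual bundles -/

theorem transpose_ev {M : Matrix ι κ B} {N : Matrix κ μ B} (h : G.Ev M) : (M * N)ᵀ = Nᵀ * Mᵀ := by
  ext i j
  rw [Matrix.transpose_apply, Matrix.mul_apply, Matrix.mul_apply]
  exact Finset.sum_congr rfl fun k _ => G.comm_even _ _ (h.app _ _)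

theorem transpose_ev' {M : Matrix ι κ B} {N : Matrix κ μ B} (h : G.Ev N) : (M * N)ᵀ = Nᵀ * Mᵀ := by
  ext i j
  rw [Matrix.transpose_apply, Matrix.mul_apply, Matrix.mul_apply]
  exact Finset.sum_congr rfl fun k _ => (G.comm_even _ _ (h.app _ _)).symm

theorem transpose_od {M : Matrix ι κ B} {N : Matrix κ μ B} (h : G.Od M) (h' : G.Od N) : (M * N)ᵀ = -(Nᵀ * Mᵀ) := by
  ext i j
  rw [Matrix.transpose_apply, Matrix.neg_apply, Matrix.mul_apply, Matrix.mul_apply, ← Finset.sum_neg_distrib]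
  exact Finset.sum_congr rfl fun k _ => G.comm_odd _ _ (h.app _ _) (h'.app _ _)

theorem Idem.transpose {P : Matrix ι ι B} (h : G.Idem P) : G.Idem Pᵀ :=
  ⟨by rw [← transpose_ev h.ev, h.idem], by
    unfold Ev
    ext i j
    exact h.ev.app j i⟩

theorem Idem.R_transpose {P : Matrix ι ι B} (h : G.Idem P) : G.R Pᵀ = -(G.R P)ᵀ := by
  unfold GDA.R
  rw [transpose_od h.od h.od, neg_neg]
  rfl

theorem transpose_pow {M : Matrix ι ι B} (h : G.Ev M) (j : ℕ) : (M ^ j)ᵀ = Mᵀ ^ j := by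
  induction j with
  | zero => rw [pow_zero, pow_zero, Matrix.transpose_one]
  | succ j ih => rw [pow_succ, transpose_ev' h, ih, pow_succ']

/-- the dual bundle -/
theorem Idem.ps_transpose {P : Matrix ι ι B} (h : G.Idem P) (j : ℕ) : G.ps Pᵀ j = (-1) ^ j * G.ps P j := by
  unfold GDA.ps
  rw [h.R_transpose, neg_pow, ← transpose_pow h.evR]
  have e1 : Pᵀ * ((-1) ^ j * (G.R P ^ j)ᵀ) = (-1) ^ j * (Pᵀ * (G.R P ^ j)ᵀ) := by
    rcases neg_one_pow_eq_or (Matrix ι ι B) j with e | e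
    · rw [e, Matrix.one_mul, Matrix.one_mul]
    · rw [e, neg_one_mul, neg_one_mul, Matrix.mul_neg]
  rw [e1, ← transpose_ev' h.ev, ← (h.commute_pow j).eq]
  rcases Nat.even_or_odd j with hj | hj
  · rw [hj.neg_one_pow, hj.neg_one_pow, Matrix.one_mul, one_mul, Matrix.trace_transpose]
  · rw [hj.neg_one_pow, hj.neg_one_pow, neg_one_mul, neg_one_mul, Matrix.trace_neg, Matrix.trace_transpose]

/-- symmetric idempotents have no odd power sums -/
theorem Idem.ps_odd {P : Matrix ι ι B} (h : G.Idem P) (hs : Pᵀ = P) {j : ℕ} (hj : Odd j) : G.ps P j = 0 := by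
  have h1 := h.ps_transpose j
  rw [hs, hj.neg_one_pow, neg_one_mul] at h1
  have h2 : (2 : ℝ) • G.ps P j = 0 := by
    rw [two_smul]
    nth_rewrite 1 [h1]
    exact neg_add_cancel _
  have h3 : G.ps P j = (1 / 2 : ℝ) • ((2 : ℝ) • G.ps P j) := by
    rw [smul_smul]
    norm_num
  rw [h3, h2, smul_zero]

end GDA

end Pool.Agent.Lib.MP_ccbbf6_gt.L5
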