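import Pool.Agent.Lib.MP_ccbbf6_gt.L5.MF

/-!
# Level 5, CW3: Chern forms, vanishing above the rank, Pontryagin classes (helper13)
-/

set_option autoImplicit false
set_option maxSynthPendingDepth 3
set_option linter.unusedSectionVars false

open scoped ContDiff
open Matrix

noncomputable section

namespace Pool.Agent.Lib.MP_ccbbf6_gt.L5

open L4 L4.FR

/-! ### even elements -/

namespace GDA

variable {B : Type*} [Ring B] [Algebra ℝ B] {B' : Type*} [Ring B'] [Algebra ℝ B']

/-- the even elements -/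
def Ee (G : GDA B) : Subalgebra ℝ B where
  carrier := {w | G.s w = w}
  mul_mem' := fun {a b} ha hb => by
    change G.s (a * b) = a * b
    rw [map_mul, ha, hb]
  add_mem' := fun {a b} ha hb => by
    change G.s (a + b) = a + b
    rw [map_add, ha, hb]
  algebraMap_mem' := fun _ => AlgHom.commutes _ _

instance (G : GDA B) : CommRing G.Ee :=
  { (inferInstance : Ring G.Ee) with
    mul_comm := fun a _ => Subtype.ext (G.comm_even _ _ a.2) }

/-- closed even elements are even -/
def incZ (G : GDA B) : G.Zc →ₐ[ℝ] G.Ee where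
  toFun w := ⟨w, w.2.1⟩
  map_one' := rfl
  map_mul' _ _ := rfl
  map_zero' := rfl
  map_add' _ _ := rfl
  commutes' _ := rfl

variable {G : GDA B} {ι κ : Type*} [Fintype ι] [DecidableEq ι] [Fintype κ] [DecidableEq κ]

/-- a matrix with even entries -/
def Ev.lift {M : Matrix ι κ B} (h : G.Ev M) : Matrix ι κ G.Ee := fun i j => ⟨M i j, h.app i j⟩

theorem Ev.lift_map {M : Matrix ι κ B} (h : G.Ev M) : h.lift.map G.Ee.val = M := rfl

theorem val_inj {M N : Matrix ι κ G.Ee} (h : M.map G.Ee.val = N.map G.Ee.val) : M = N :=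
  Matrix.ext fun i j => Subtype.ext (congrFun (congrFun h i) j)

theorem val_mul {μ : Type*} [Fintype μ] (M : Matrix ι κ G.Ee) (N : Matrix κ μ G.Ee) :
    (M * N).map G.Ee.val = M.map G.Ee.val * N.map G.Ee.val := Matrix.map_mul

theorem val_pow (M : Matrix ι ι G.Ee) (j : ℕ) : (M ^ j).map G.Ee.val = M.map G.Ee.val ^ j := by
  induction j with
  | zero =>
    rw [pow_zero, pow_zero]
    ext i k
    rw [Matrix.map_apply, Matrix.one_apply, Matrix.one_apply]
    split_ifs <;> rfl
  | succ j ih => rw [pow_succ, pow_succ, val_mul, ih]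

/-- power sums as closed even elements -/
def zps {P : Matrix ι ι B} (h : G.Idem P) (j : ℕ) : G.Zc := ⟨G.ps P j, h.s_ps j, h.d_ps j⟩

/-- **Chern forms** (without the factors `2 π i`) -/
def cf {P : Matrix ι ι B} (h : G.Idem P) (j : ℕ) : G.Zc := elc (zps h) j

theorem mk_cf {P : Matrix ι ι B} (h : G.Idem P) (j : ℕ) : Ideal.Quotient.mk G.Ex (cf h j) = hc h j :=
  map_elc (Ideal.Quotient.mkₐ ℝ G.Ex) (zps h) j

theorem incZ_zps {P : Matrix ι ι B} (h : G.Idem P) (j : ℕ) :
    G.incZ (zps h j) = trace (h.ev.lift * h.evR.lift ^ j) := by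
  refine Subtype.ext ?_
  have h1 : ∀ M : Matrix ι ι G.Ee, ((trace M : G.Ee) : B) = trace (M.map G.Ee.val) := by
    intro M
    unfold trace
    rw [← Subalgebra.coe_val, map_sum]
    rfl
  rw [h1, val_mul, val_pow]
  rfl

theorem map_cf {G' : GDA B'} (f : GHom G G') {P : Matrix ι ι B} (h : G.Idem P) (j : ℕ) :
    f.zc (cf h j) = cf (f.idem h) j := by
  unfold cf
  rw [map_elc]
  congr 1
  funext k
  exact Subtype.ext (f.ps P k)

end GDA

/-! ### split idempotents over a commutative ring -/

section comm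

variable {A A' : Type*} [CommRing A] [Algebra ℝ A] [CommRing A'] [Algebra ℝ A'] {ι κ : Type*} [Fintype ι]
  [DecidableEq ι] [Fintype κ] [DecidableEq κ]

theorem trace_split {P R : Matrix ι ι A} {a : Matrix ι κ A} {b : Matrix κ ι A} (hc : P * R = R * P) (h1 : a * b = P)
    (h2 : b * a = 1) (j : ℕ) : trace (P * R ^ j) = trace ((b * R * a) ^ j) := by
  have hbP : b * P = b := by rw [← h1, ← Matrix.mul_assoc, h2, Matrix.one_mul]
  have hcp : Commute P R := hc
  have key : ∀ j, (b * R * a) ^ j = b * R ^ j * a := by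
    intro j
    induction j with
    | zero => rw [pow_zero, pow_zero, Matrix.mul_one, h2]
    | succ j ih =>
      rw [pow_succ, ih]
      calc b * R ^ j * a * (b * R * a) = b * R ^ j * (a * b) * R * a := by simp only [Matrix.mul_assoc]
        _ = b * R ^ (j + 1) * a := by
            rw [h1, Matrix.mul_assoc b, ← (hcp.pow_right j).eq, ← Matrix.mul_assoc b, hbP, pow_succ]
            simp only [Matrix.mul_assoc]
  rw [key, Matrix.trace_mul_comm (b * R ^ j) a, ← Matrix.mul_assoc, h1]

theorem elc_split {P R : Matrix ι ι A} {a : Matrix ι κ A} {b : Matrix κ ι A} (hc : P * R = R * P) (h1 : a * b = P)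
    (h2 : b * a = 1) {j : ℕ} (hj : Fintype.card κ < j) : elc (fun k => trace (P * R ^ k)) j = 0 := by
  rw [← elc_trace (b * R * a) hj]
  congr 1
  funext k
  exact trace_split hc h1 h2 k

end comm

/-- idempotents over a field split -/
theorem exists_split {K : Type*} [Field K] {ι : Type*} [Fintype ι] [DecidableEq ι] {P : Matrix ι ι K} (hP : P * P = P) :
    ∃ (a : Matrix ι (Fin P.rank) K) (b : Matrix (Fin P.rank) ι K), a * b = P ∧ b * a = 1 := by
  have hP2 : ∀ v, P.mulVec (P.mulVec v) = P.mulVec v := fun v => by rw [Matrix.mulVec_mulVec, hP]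
  let W := LinearMap.range P.mulVecLin
  have hW : Module.finrank K W = P.rank := rfl
  let e : Module.Basis (Fin P.rank) K W := Module.finBasisOfFinrankEq K W hW
  let π : (ι → K) →ₗ[K] W := P.mulVecLin.rangeRestrict
  refine ⟨Matrix.of fun i k => (e k : ι → K) i, Matrix.of fun k i => e.repr (π (Pi.single i 1)) k, ?_, ?_⟩
  · have h1 : ∀ v : ι → K, ∑ k, e.repr (π v) k • (e k : ι → K) = P.mulVec v := by
      intro v
      have h2 := congrArg (fun w : W => (w : ι → K)) (e.sum_repr (π v))
      simp only [Submodule.coe_sum, Submodule.coe_smul] at h2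
      rw [h2]
      rfl
    ext i j
    have h3 := congrFun (h1 (Pi.single j 1)) i
    rw [Finset.sum_apply, Matrix.mulVec_single_one] at h3
    rw [Matrix.mul_apply]
    change _ = P.col j i at h3
    rw [Matrix.col_apply] at h3
    rw [← h3]
    refine Finset.sum_congr rfl fun k _ => ?_
    simp only [Matrix.of_apply, Pi.smul_apply, smul_eq_mul]
    ring
  · have h4 : ∀ v : ι → K, ∀ k, ∑ i, e.repr (π (Pi.single i 1)) k * v i = e.repr (π v) k := by
      intro v k
      have h5 : v = ∑ i, v i • (Pi.single i (1 : K) : ι → K) := by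
        ext l
        rw [Finset.sum_apply, Finset.sum_eq_single l]
        · simp
        · intro b _ hb
          simp [Pi.single_eq_of_ne hb.symm]
        · intro h
          exact absurd (Finset.mem_univ l) h
      conv_rhs => rw [h5]
      rw [map_sum, map_sum, Finset.sum_apply']
      refine Finset.sum_congr rfl fun i _ => ?_
      rw [map_smul, map_smul, Finsupp.smul_apply, smul_eq_mul, mul_comm]
    ext k l
    rw [Matrix.mul_apply]
    simp only [Matrix.of_apply]
    rw [h4]
    have h6 : π (e l : ι → K) = e l := by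
      obtain ⟨v, hv⟩ := (e l).2
      refine Subtype.ext ?_
      change P.mulVec (e l : ι → K) = (e l : ι → K)
      rw [← hv]
      exact hP2 v
    rw [h6, Module.Basis.repr_self, Matrix.one_apply, Finsupp.single_apply]
    simp only [eq_comm]

/-! ### evaluation at a point -/

section point

variable {X : Space} {k : ℕ}

theorem Ex_even_comm {a : FR.Ex k} (h : ivo k a = a) (b : FR.Ex k) : a * b = b * a := by
  induction b using ExteriorAlgebra.induction with
  | algebraMap r => rw [Algebra.commutes]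
  | ι v => rw [ι_swap, h]
  | mul x y hx hy => rw [← mul_assoc, hx, mul_assoc, hy, mul_assoc]
  | add x y hx hy => rw [mul_add, hx, hy, add_mul]

/-- even complex exterior algebra -/
def Ek (k : ℕ) : Subalgebra ℝ (CB (FR.Ex k)) where
  carrier := {w | ivo k w.re = w.re ∧ ivo k w.im = w.im}
  mul_mem' := fun {a b} ha hb => by
    constructor
    · rw [CB.mul_re, map_sub, map_mul, map_mul, ha.1, hb.1, ha.2, hb.2]
    · rw [CB.mul_im, map_add, map_mul, map_mul, ha.1, hb.1, ha.2, hb.2]
  add_mem' := fun {a b} ha hb => by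
    constructor
    · rw [CB.add_re, map_add, ha.1, hb.1]
    · rw [CB.add_im, map_add, ha.2, hb.2]
  algebraMap_mem' := fun r => by
    rw [Algebra.algebraMap_eq_smul_one]
    constructor
    · change ivo k (r • (1 : FR.Ex k)) = r • 1
      rw [map_smul, map_one]
    · change ivo k (r • (0 : FR.Ex k)) = r • 0
      rw [map_smul, map_zero]

instance : CommRing (Ek k) :=
  { (inferInstance : Ring (Ek k)) with
    mul_comm := fun a b => Subtype.ext (by
      have h1 := Ex_even_comm a.2.1
      have h2 := Ex_even_comm a.2.2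
      refine CB.ext ?_ ?_
      · change (a : CB (FR.Ex k)).re * (b : CB (FR.Ex k)).re - (a : CB (FR.Ex k)).im * (b : CB (FR.Ex k)).im =
          (b : CB (FR.Ex k)).re * (a : CB (FR.Ex k)).re - (b : CB (FR.Ex k)).im * (a : CB (FR.Ex k)).im
        rw [h1, h2]
      · change (a : CB (FR.Ex k)).re * (b : CB (FR.Ex k)).im + (a : CB (FR.Ex k)).im * (b : CB (FR.Ex k)).re =
          (b : CB (FR.Ex k)).re * (a : CB (FR.Ex k)).im + (b : CB (FR.Ex k)).im * (a : CB (FR.Ex k)).re
        rw [h1, h2, add_comm]) }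

/-- value of a form at a point of a plot -/
def vf (p : X.Plot k) (z : V k) : Om X →ₐ[ℝ] FR.Ex k where
  toFun w := ev z (Om.on w p)
  map_one' := by rw [on_one, map_one]
  map_mul' a b := by rw [on_mul, map_mul]
  map_zero' := by rw [on_zero, map_zero]
  map_add' a b := by rw [on_add, map_add]
  commutes' r := (ev z).commutes r

theorem vf_ext {a b : Om X} (h : ∀ (k : ℕ) (p : X.Plot k) (z : V k), vf p z a = vf p z b) : a = b :=
  Om_ext fun k p => ev_ext fun z => h k p z

theorem vf_s (p : X.Plot k) (z : V k) (a : Om X) : vf p z (sO X a) = ivo k (vf p z a) := by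
  change ev z (sg k (Om.on a p)) = ivo k (ev z (Om.on a p))
  induction Om.on a p using Fm_tind with
  | hf f x => rw [sg_tm, ev_tm, ev_tm, map_smul]
  | ha x y hx hy => rw [map_add, map_add, hx, hy, map_add, map_add]

/-- values of even forms -/
def ve (p : X.Plot k) (z : V k) : (GC (GO X)).Ee →ₐ[ℝ] Ek k where
  toFun w := ⟨CB.alg (vf p z) w, by
    constructor
    · change ivo k (vf p z (w : CB (Om X)).re) = vf p z (w : CB (Om X)).re
      rw [← vf_s]
      exact congrArg _ (congrArg CB.re w.2)
    · change ivo k (vf p z (w : CB (Om X)).im) = vf p z (w : CB (Om X)).im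
      rw [← vf_s]
      exact congrArg _ (congrArg CB.im w.2)⟩
  map_one' := Subtype.ext (map_one _)
  map_mul' _ _ := Subtype.ext (map_mul (CB.alg (vf p z)) _ _)
  map_zero' := Subtype.ext (map_zero _)
  map_add' _ _ := Subtype.ext (map_add (CB.alg (vf p z)) _ _)
  commutes' _ := Subtype.ext (AlgHom.commutes _ _)

theorem ve_ext {a b : (GC (GO X)).Ee} (h : ∀ (k : ℕ) (p : X.Plot k) (z : V k), ve p z a = ve p z b) : a = b := by
  refine Subtype.ext (CB.ext (vf_ext fun k p z => ?_) (vf_ext fun k p z => ?_))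
  · exact congrArg (fun w : Ek k => (w : CB (FR.Ex k)).re) (h k p z)
  · exact congrArg (fun w : Ek k => (w : CB (FR.Ex k)).im) (h k p z)

/-- complex constants -/
def cE (k : ℕ) : ℂ →ₐ[ℝ] Ek k where
  toFun z := ⟨CB.ofC z, by
    constructor
    · exact AlgHom.commutes _ _
    · exact AlgHom.commutes _ _⟩
  map_one' := Subtype.ext (map_one _)
  map_mul' _ _ := Subtype.ext (map_mul CB.ofC _ _)
  map_zero' := Subtype.ext (map_zero _)
  map_add' _ _ := Subtype.ext (map_add CB.ofC _ _)
  commutes' _ := Subtype.ext (AlgHom.commutes _ _)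

theorem ve_fn (p : X.Plot k) (z : V k) (f : CB (SF X)) :
    ve p z ⟨(FO X).C.f f, (FO X).C.ev f⟩ = cE k (vlC (p.1 z) f) := by
  refine Subtype.ext (CB.ext ?_ ?_)
  · change ev z (Om.on (fO f.re.1 f.re.2) p) = algebraMap ℝ _ _
    rw [ev_fO]
    rfl
  · change ev z (Om.on (fO f.im.1 f.im.2) p) = algebraMap ℝ _ _
    rw [ev_fO]
    rfl

end point

/-! ### vanishing above the rank -/

section rank

variable {X : Space} {ι : Type*} [Fintype ι] [DecidableEq ι]

/-- **the Chern forms vanish above the rank** -/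
theorem cf_zero {P : Matrix ι ι (CB (SF X))} (hP : P * P = P) {r : ℕ} (hr : ∀ x, (P.map (vlC x)).rank ≤ r) {j : ℕ}
    (hj : r < j) : GDA.cf ((FO X).C.idem hP) j = 0 := by
  have h := (FO X).C.idem hP
  have e0 : (GC (GO X)).incZ (GDA.cf h j) = 0 := by
    unfold GDA.cf
    rw [map_elc]
    refine ve_ext fun k p z => ?_
    rw [map_elc, map_zero]
    have hP' : P.map (vlC (p.1 z)) * P.map (vlC (p.1 z)) = P.map (vlC (p.1 z)) := by
      rw [← Matrix.map_mul, hP]
    obtain ⟨a, b, h1, h2⟩ := exists_split hP'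
    obtain ⟨R, hR⟩ : ∃ R : Matrix ι ι (Ek k), R = h.evR.lift.map (ve p z) := ⟨_, rfl⟩
    have hPz : h.ev.lift.map (ve p z) = (P.map (vlC (p.1 z))).map (cE k) :=
      Matrix.ext fun i l => ve_fn p z (P i l)
    have hcomm : h.ev.lift.map (ve p z) * R = R * h.ev.lift.map (ve p z) := by
      rw [hR, ← Matrix.map_mul, ← Matrix.map_mul]
      congr 1
      refine GDA.val_inj ?_
      rw [GDA.val_mul, GDA.val_mul, GDA.Ev.lift_map, GDA.Ev.lift_map, h.comm]
    have e1 : (fun i => ve p z ((GC (GO X)).incZ (GDA.zps h i))) =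
        fun i => trace (h.ev.lift.map (ve p z) * R ^ i) := by
      funext i
      rw [GDA.incZ_zps, hR]
      have e2 : ∀ M : Matrix ι ι (GC (GO X)).Ee, ve p z (trace M) = trace (M.map (ve p z)) := by
        intro M
        unfold trace
        rw [map_sum]
        rfl
      have e3 : ∀ (M : Matrix ι ι (GC (GO X)).Ee) (i : ℕ), (M ^ i).map (ve p z) = M.map (ve p z) ^ i := by
        intro M i
        exact map_pow (ve p z).mapMatrix M i
      rw [e2, Matrix.map_mul, e3]
    rw [e1]
    refine elc_split (a := a.map (cE k)) (b := b.map (cE k)) hcomm ?_ ?_ ?_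
    · rw [← Matrix.map_mul, h1, hPz]
    · rw [← Matrix.map_mul, h2]
      exact Matrix.map_one _ (map_zero _) (map_one _)
    · rw [Fintype.card_fin]
      exact lt_of_le_of_lt (hr _) hj
  have e5 := congrArg (fun w : (GC (GO X)).Ee => (w : CB (Om X))) e0
  exact Subtype.ext e5

/-- real version -/
theorem cf_zero_real {P : Matrix ι ι (SF X)} (hP : P * P = P) {r : ℕ} (hr : ∀ x, (P.map (vl x)).rank ≤ r) {j : ℕ}
    (hj : r < j) : GDA.cf ((FO X).idem hP) j = 0 := by
  obtain ⟨Q, hQ⟩ : ∃ Q : Matrix ι ι (CB (SF X)), Q = P.map CB.ofR := ⟨_, rfl⟩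
  have hQ2 : Q * Q = Q := by rw [hQ, ← Matrix.map_mul, hP]
  have hr' : ∀ x, (Q.map (vlC x)).rank ≤ r := by
    intro x
    have e1 : Q.map (vlC x) = (P.map (vl x)).map (algebraMap ℝ ℂ) := by
      rw [hQ]
      exact Matrix.ext fun i l => Complex.ext rfl (map_zero (vl x))
    have hP' : P.map (vl x) * P.map (vl x) = P.map (vl x) := by
      rw [← Matrix.map_mul, hP]
    obtain ⟨a, b, h1, _⟩ := exists_split hP'
    rw [e1, ← h1, Matrix.map_mul]
    refine le_trans (Matrix.rank_mul_le_left _ _) (le_trans (Matrix.rank_le_card_width _) ?_)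
    rw [Fintype.card_fin]
    exact hr x
  have e2 := cf_zero hQ2 hr' hj
  have e3 : Q.map (FO X).C.f = (P.map (FO X).f).map (GHom.ofR (GO X)).f := by
    rw [hQ]
    exact Matrix.ext fun i l => CB.ext rfl (map_zero (FO X).f)
  have e4 : (GHom.ofR (GO X)).zc (GDA.cf ((FO X).idem hP) j) = 0 := by
    rw [GDA.map_cf, ← e2]
    congr 1
    exact e3.symm
  have e5 := congrArg (fun w : (GC (GO X)).Zc => (w : CB (Om X))) e4
  exact Subtype.ext (CB.ofR_inj e5)

end rank

end Pool.Agent.Lib.MP_ccbbf6_gt.L5
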