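import Pool.Agent.Lib.MP_ccbbf6_gt.L5.INTe
import Pool.Agent.Lib.MP_ccbbf6_gt.L5.UOR09

/-!
# Level 5, DG3: substitution in the fibre integral over the interval, exchange of two integrals (helper2)
-/

set_option autoImplicit false
set_option maxSynthPendingDepth 3
set_option linter.unusedSectionVars false
set_option linter.unusedVariables false

open Set Filter Topology MeasureTheory
open scoped ContDiff

noncomputable section

namespace Pool.Agent.Lib.MP_ccbbf6_gt.L5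

open L4 L4.FR

variable {k l N m : ℕ} {X Y : Space}

theorem tN_one (x : Ex (k + 1)) : tN k 1 x = kil k (ctr (lst k) x) := rfl

theorem cp_castSucc {g : FR.Sm (k + 1) (k + 1)} (hg : ∀ w, pr k (g w) = pr k w) (j : Fin k) :
    g.cp j.castSucc = co j.castSucc := by
  refine Cs_ext fun w => ?_
  show g w j.castSucc = w j.castSucc
  exact congrFun (hg w) j

theorem tr_last {g : FR.Sm (k + 1) (k + 1)} (hg : ∀ w, pr k (g w) = pr k w) (w : V (k + 1)) (a : V k) (b : V 1) :
    tr g w (Fin.append a b : V (k + 1)) = (Fin.append (a + ((LinearMap.proj (R := ℝ) (φ := fun _ : Fin 1 => ℝ) (0 : Fin 1)).smulRight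
      (fun i : Fin k => (pd i.castSucc (g.cp (Fin.last k)) : V (k + 1) → ℝ) w) : V 1 →ₗ[ℝ] V k) b)
      (((pd (Fin.last k) (g.cp (Fin.last k)) : V (k + 1) → ℝ) w • (LinearMap.id : V 1 →ₗ[ℝ] V 1)) b) : V (k + 1)) := by
  have h0 : ∀ j : Fin k, (Fin.append a b : V (k + 1)) j.castSucc = a j := fun j => Fin.append_left a b j
  have h1 : (Fin.append a b : V (k + 1)) (Fin.last k) = b 0 := Fin.append_right a b 0
  have h2 : ∀ i, tr g w (Fin.append a b : V (k + 1)) i = ∑ j : Fin k, a j * (pd i (co j.castSucc) : V (k + 1) → ℝ) w +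
      b 0 * (pd i (g.cp (Fin.last k)) : V (k + 1) → ℝ) w := by
    intro i
    show ∑ j, (Fin.append a b : V (k + 1)) j * (pd i (g.cp j) : V (k + 1) → ℝ) w = _
    rw [Fin.sum_univ_castSucc, h1]
    congr 1
    refine Finset.sum_congr rfl fun j _ => ?_
    rw [h0, cp_castSucc hg]
  funext i
  rw [h2]
  refine Fin.addCases (m := k) (n := 1) (fun i' => ?_) (fun i' => ?_) i
  · rw [Fin.append_left]
    have h3 : ∀ j : Fin k, (pd (Fin.castAdd 1 i') (co j.castSucc) : V (k + 1) → ℝ) w = if i' = j then 1 else 0 := by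
      intro j
      rw [pd_co]
      by_cases h : i' = j
      · subst h
        rw [if_pos (show Fin.castAdd 1 i' = i'.castSucc from rfl), if_pos rfl]
        rfl
      · rw [if_neg h, if_neg]
        · rfl
        · intro h'
          exact h (Fin.castSucc_injective k h')
    simp only [h3, mul_ite, mul_one, mul_zero, Finset.sum_ite_eq, Finset.mem_univ, if_true]
    rfl
  · have hi : i' = 0 := Subsingleton.elim _ _
    subst hi
    rw [Fin.append_right]
    have h3 : ∀ j : Fin k, (pd (Fin.natAdd k (0 : Fin 1)) (co j.castSucc) : V (k + 1) → ℝ) w = 0 := by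
      intro j
      rw [pd_co, if_neg]
      · rfl
      · intro h'
        exact absurd (congrArg Fin.val h') (by simp; omega)
    simp only [h3, mul_zero, Finset.sum_const_zero, zero_add]
    show b 0 * _ = _ * b 0
    rw [mul_comm]
    rfl

theorem det_smul_one (c : ℝ) : LinearMap.det (c • (LinearMap.id : V 1 →ₗ[ℝ] V 1)) = c := by
  rw [LinearMap.det_smul, LinearMap.det_id, mul_one, Module.finrank_fin_fun, pow_one]

theorem kc_map {g : FR.Sm (k + 1) (k + 1)} (hg : ∀ w, pr k (g w) = pr k w) (w : V (k + 1)) (x : Ex (k + 1)) :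
    kil k (ctr (lst k) (ExteriorAlgebra.map (tr g w) x)) =
      (pd (Fin.last k) (g.cp (Fin.last k)) : V (k + 1) → ℝ) w • kil k (ctr (lst k) x) := by
  have h := tN_map (N := 1) (T := tr g w) (tr_last hg w) x
  rw [tN_one, tN_one, det_smul_one] at h
  exact h

theorem snoc_of {g : FR.Sm (k + 1) (k + 1)} (hg : ∀ w, pr k (g w) = pr k w) (z : V k) (s : ℝ) :
    g (Fin.snoc z s) = (Fin.snoc z (g (Fin.snoc z s) (Fin.last k)) : V (k + 1)) := by
  have h := hg (Fin.snoc z s)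
  rw [pr_snoc] at h
  conv_lhs => rw [← snoc_pr (g (Fin.snoc z s))]
  rw [h]

/-- substitution in the last variable -/
theorem KK_sub {g : FR.Sm (k + 1) (k + 1)} (hg : ∀ w, pr k (g w) = pr k w) (L : Ex k →ₗ[ℝ] ℝ) (z : V k) (x : Fm (k + 1)) :
    L (ev z (KK k (pb g x))) = ∫ t in (g (Fin.snoc z 0) (Fin.last k))..(g (Fin.snoc z 1) (Fin.last k)),
      L (kil k (ctr (lst k) (ev (Fin.snoc z t) x))) := by
  rw [INTe_KK]
  have hs : ContDiff ℝ ∞ fun s : ℝ => (Fin.snoc z s : V (k + 1)) := contDiff_snoc.comp (contDiff_const.prodMk contDiff_id)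
  have hd : ∀ s : ℝ, HasDerivAt (fun s : ℝ => g (Fin.snoc z s) (Fin.last k))
      ((pd (Fin.last k) (g.cp (Fin.last k)) : V (k + 1) → ℝ) (Fin.snoc z s)) s := by
    intro s
    have h1 : HasDerivAt (fun s : ℝ => (Fin.snoc z s : V (k + 1))) (Pi.single (Fin.last k) 1 : V (k + 1)) s := by
      rw [hasDerivAt_pi]
      intro i
      refine Fin.lastCases ?_ (fun j => ?_) i
      · rw [Pi.single_eq_same]
        simp only [Fin.snoc_last]
        exact hasDerivAt_id s
      · rw [Pi.single_eq_of_ne (Fin.castSucc_lt_last j).ne]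
        simp only [Fin.snoc_castSucc]
        exact hasDerivAt_const s (z j)
    have h2 : HasFDerivAt ((g.cp (Fin.last k) : Cs (k + 1)) : V (k + 1) → ℝ)
        (fderiv ℝ ((g.cp (Fin.last k) : Cs (k + 1)) : V (k + 1) → ℝ) (Fin.snoc z s)) (Fin.snoc z s) :=
      (Cs_diff (g.cp (Fin.last k)) _).hasFDerivAt
    have h3 := h2.comp_hasDerivAt s h1
    exact h3
  have hkey : ∀ s : ℝ, L (kil k (ctr (lst k) (ev (Fin.snoc z s) (pb g x)))) =
      ((fun t => L (kil k (ctr (lst k) (ev (Fin.snoc z t : V (k + 1)) x)))) ∘ fun s : ℝ => g (Fin.snoc z s) (Fin.last k)) s *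
        (pd (Fin.last k) (g.cp (Fin.last k)) : V (k + 1) → ℝ) (Fin.snoc z s) := by
    intro s
    rw [ev_pb, kc_map hg, map_smul, smul_eq_mul, mul_comm, snoc_of hg]
    rfl
  simp only [hkey]
  refine intervalIntegral.integral_comp_mul_deriv (fun s _ => hd s) ?_ ?_
  · exact ((Cs_smooth _).continuous.comp hs.continuous).continuousOn
  · have h4 := contDiff_coef (L.comp ((kil k).toLinearMap.comp (ctr (lst k)))) x
    exact h4.continuous.comp hs.continuous

/-! ### change of the parameter -/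

/-- smooth functions on `X × R` -/
def SmR (X : Space) (h : X.pt × ℝ → ℝ) : Prop := ∀ (k : ℕ) (p : X.xR.Plot k), ContDiff ℝ ∞ fun x => h (p.1 x)

/-- `(x, t) ↦ (x, h (x, t))` -/
def tO {h : X.pt × ℝ → ℝ} (hh : SmR X h) : SMap X.xR X.xR := ⟨fun z => (z.1, h z), fun k p => ⟨p.2.1, hh k p⟩⟩

/-- the map on the domain of a plot -/
def tF {h : X.pt × ℝ → ℝ} (hh : SmR X h) (p : X.Plot k) : FR.Sm (k + 1) (k + 1) :=
  ⟨fun w => Fin.snoc (pr k w) (h (p.up.1 w)), contDiff_snoc.comp ((pr k).smooth.prodMk (hh (k + 1) p.up))⟩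

theorem tF_pr {h : X.pt × ℝ → ℝ} (hh : SmR X h) (p : X.Plot k) (w : V (k + 1)) : pr k (tF hh p w) = pr k w := pr_snoc _ _

theorem tF_last {h : X.pt × ℝ → ℝ} (hh : SmR X h) (p : X.Plot k) (z : V k) (t : ℝ) :
    tF hh p (Fin.snoc z t) (Fin.last k) = h (p.1 z, t) := by
  show (Fin.snoc (pr k (Fin.snoc z t)) (h (p.1 (pr k (Fin.snoc z t)), (Fin.snoc z t : V (k + 1)) (Fin.last k))) : V (k + 1)) (Fin.last k) = _
  rw [snoc_last_val, snoc_last_val, pr_snoc]

theorem tO_pl {h : X.pt × ℝ → ℝ} (hh : SmR X h) (p : X.Plot k) : (tO hh).pl p.up = p.up.cmp (tF hh p) := by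
  refine Plot_ext fun w => ?_
  show (p.1 (pr k w), h (p.up.1 w)) = (p.1 (pr k (Fin.snoc (pr k w) (h (p.up.1 w)))),
    (Fin.snoc (pr k w) (h (p.up.1 w)) : V (k + 1)) (Fin.last k))
  rw [pr_snoc, snoc_last_val]

theorem K_tO {h : X.pt × ℝ → ℝ} (hh : SmR X h) (θ : Om X.xR) (p : X.Plot k) (L : Ex k →ₗ[ℝ] ℝ) (z : V k) :
    L (ev z (Om.on (KO X ((tO hh).pull θ)) p)) =
      ∫ t in h (p.1 z, 0)..h (p.1 z, 1), L (kil k (ctr (lst k) (ev (Fin.snoc z t) (Om.on θ p.up)))) := by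
  rw [on_K, on_pull, tO_pl, on_cmp, KK_sub (tF_pr hh p), tF_last, tF_last]

theorem kc_int (θ : Fm (k + 1)) (L : Ex k →ₗ[ℝ] ℝ) (z : V k) (a b : ℝ) :
    IntervalIntegrable (fun t => L (kil k (ctr (lst k) (ev (Fin.snoc z t : V (k + 1)) θ)))) volume a b := by
  have hs : ContDiff ℝ ∞ fun s : ℝ => (Fin.snoc z s : V (k + 1)) := contDiff_snoc.comp (contDiff_const.prodMk contDiff_id)
  have h4 := contDiff_coef (L.comp ((kil k).toLinearMap.comp (ctr (lst k)))) θ
  exact (h4.continuous.comp hs.continuous).intervalIntegrable a b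

/-- equality of forms by linear functionals -/
theorem Om_ext' {θ τ : Om X} (h : ∀ (k : ℕ) (p : X.Plot k) (z : V k) (L : Ex k →ₗ[ℝ] ℝ), L (ev z (Om.on θ p)) = L (ev z (Om.on τ p))) :
    θ = τ := by
  refine Om_ext fun k p => ev_ext fun z => ?_
  rw [← sub_eq_zero, ← Module.forall_dual_apply_eq_zero_iff ℝ]
  intro L
  have h1 : L (ev z (Om.on θ p)) = L (ev z (Om.on τ p)) := h k p z L
  rw [map_sub, sub_eq_zero]
  exact h1

/-- additivity -/
theorem K_tO_add {h₁ h₂ h₃ : X.pt × ℝ → ℝ} (hh₁ : SmR X h₁) (hh₂ : SmR X h₂) (hh₃ : SmR X h₃) (θ : Om X.xR)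
    (e : ∀ x, h₁ (x, 1) = h₂ (x, 0)) (e0 : ∀ x, h₃ (x, 0) = h₁ (x, 0)) (e1 : ∀ x, h₃ (x, 1) = h₂ (x, 1)) :
    KO X ((tO hh₃).pull θ) = KO X ((tO hh₁).pull θ) + KO X ((tO hh₂).pull θ) := by
  refine Om_ext' fun k p z L => ?_
  rw [on_add, map_add, map_add, K_tO, K_tO, K_tO, e0, e1, ← e,
    intervalIntegral.integral_add_adjacent_intervals (kc_int _ L z _ _) (kc_int _ L z _ _)]

/-- independence of the parametrisation -/
theorem K_tO_eq {h : X.pt × ℝ → ℝ} (hh : SmR X h) (θ : Om X.xR) (e0 : ∀ x, h (x, 0) = 0) (e1 : ∀ x, h (x, 1) = 1) :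
    KO X ((tO hh).pull θ) = KO X θ := by
  refine Om_ext' fun k p z L => ?_
  rw [K_tO, e0, e1, on_K]
  have h1 := INTe_KK L z (Om.on θ p.up)
  exact h1.symm

/-! ### exchange of the two integrals -/

/-- exchange of the last two coordinates -/
def sw (k : ℕ) : FR.Sm (k + 1 + 1) (k + 1 + 1) :=
  ⟨fun w => Fin.snoc (Fin.snoc (pr k (pr (k + 1) w)) (w (Fin.last (k + 1))) : V (k + 1)) (w (Fin.last k).castSucc),
    contDiff_snoc.comp ((contDiff_snoc.comp (((pr k).smooth.comp (pr (k + 1)).smooth).prodMk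
      (contDiff_apply ℝ ℝ (Fin.last (k + 1))))).prodMk (contDiff_apply ℝ ℝ (Fin.last k).castSucc))⟩

theorem sw_snoc (z : V k) (s t : ℝ) : sw k (Fin.snoc (Fin.snoc z s : V (k + 1)) t) = (Fin.snoc (Fin.snoc z t : V (k + 1)) s : V (k + 1 + 1)) := by
  show (Fin.snoc (Fin.snoc (pr k (pr (k + 1) (Fin.snoc (Fin.snoc z s : V (k + 1)) t))) ((Fin.snoc (Fin.snoc z s : V (k + 1)) t : V (k + 1 + 1)) (Fin.last (k + 1))) : V (k + 1))
    ((Fin.snoc (Fin.snoc z s : V (k + 1)) t : V (k + 1 + 1)) (Fin.last k).castSucc) : V (k + 1 + 1)) = _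
  rw [pr_snoc, pr_snoc, snoc_last_val]
  have h1 : (Fin.snoc (Fin.snoc z s : V (k + 1)) t : V (k + 1 + 1)) (Fin.last k).castSucc = s := by
    have h2 := Fin.snoc_castSucc (α := fun _ => ℝ) t (Fin.snoc z s : V (k + 1)) (Fin.last k)
    rw [snoc_last_val] at h2
    exact h2
  rw [h1]

theorem cp_sw_last : (sw k).cp (Fin.last (k + 1)) = co (Fin.last k).castSucc := by
  refine Cs_ext fun w => ?_
  exact snoc_last_val _ _

theorem cp_sw_last' : (sw k).cp (Fin.last k).castSucc = co (Fin.last (k + 1)) := by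
  refine Cs_ext fun w => ?_
  have h2 := Fin.snoc_castSucc (α := fun _ => ℝ) (w (Fin.last k).castSucc)
    (Fin.snoc (pr k (pr (k + 1) w)) (w (Fin.last (k + 1))) : V (k + 1)) (Fin.last k)
  rw [snoc_last_val] at h2
  exact h2

theorem cp_sw_castSucc (i : Fin k) : (sw k).cp i.castSucc.castSucc = co i.castSucc.castSucc := by
  refine Cs_ext fun w => ?_
  have h2 := Fin.snoc_castSucc (α := fun _ => ℝ) (w (Fin.last k).castSucc)
    (Fin.snoc (pr k (pr (k + 1) w)) (w (Fin.last (k + 1))) : V (k + 1)) i.castSucc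
  have h3 := Fin.snoc_castSucc (α := fun _ => ℝ) (w (Fin.last (k + 1))) (pr k (pr (k + 1) w)) i
  exact h2.trans h3

theorem pd_co' (i j : Fin k) (w : V k) : (pd i (co j) : V k → ℝ) w = if i = j then 1 else 0 := by
  rw [pd_co]
  split_ifs <;> rfl

theorem tr_sw (w : V (k + 1 + 1)) (a : V k) (b : V 2) : tr (sw k) w (Fin.append a b : V (k + 2)) =
    (Fin.append (a + (0 : V 2 →ₗ[ℝ] V k) b) (Matrix.toLin' !![0, 1; 1, 0] b) : V (k + 2)) := by
  have h0 : ∀ j : Fin k, (Fin.append a b : V (k + 2)) j.castSucc.castSucc = a j := fun j => Fin.append_left a b j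
  have h1 : (Fin.append a b : V (k + 2)) (Fin.last k).castSucc = b 0 := Fin.append_right a b 0
  have h1' : (Fin.append a b : V (k + 2)) (Fin.last (k + 1)) = b 1 := Fin.append_right a b 1
  have h2 : ∀ i, tr (sw k) w (Fin.append a b : V (k + 2)) i = ∑ j : Fin k, a j * (if i = j.castSucc.castSucc then 1 else 0) +
      b 0 * (if i = Fin.last (k + 1) then 1 else 0) + b 1 * (if i = (Fin.last k).castSucc then 1 else 0) := by
    intro i
    show ∑ j, (Fin.append a b : V (k + 2)) j * (pd i ((sw k).cp j) : V (k + 2) → ℝ) w = _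
    rw [Fin.sum_univ_castSucc, Fin.sum_univ_castSucc, h1, h1', cp_sw_last, cp_sw_last', pd_co', pd_co']
    congr 2
    refine Finset.sum_congr rfl fun j _ => ?_
    rw [h0, cp_sw_castSucc, pd_co']
  funext i
  rw [h2]
  refine Fin.addCases (m := k) (n := 2) (fun i' => ?_) (fun i' => ?_) i
  · rw [Fin.append_left]
    have e1 : Fin.castAdd 2 i' ≠ Fin.last (k + 1) := fun h => absurd (congrArg Fin.val h) (by simp; omega)
    have e2 : Fin.castAdd 2 i' ≠ (Fin.last k).castSucc := fun h => absurd (congrArg Fin.val h) (by simp; omega)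
    rw [if_neg e1, if_neg e2, mul_zero, mul_zero, add_zero, add_zero]
    rw [Finset.sum_eq_single i']
    · rw [if_pos (show Fin.castAdd 2 i' = i'.castSucc.castSucc from rfl), mul_one]
      simp
    · intro j _ hj
      rw [if_neg, mul_zero]
      intro h
      exact hj (Fin.ext (by simpa using (congrArg Fin.val h).symm))
    · intro h
      exact absurd (Finset.mem_univ _) h
  · have e0 : ∀ j : Fin k, Fin.natAdd k i' ≠ j.castSucc.castSucc := fun j h => absurd (congrArg Fin.val h) (by simp; omega)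
    rw [Fin.append_right, Finset.sum_eq_zero fun j _ => by rw [if_neg (e0 j), mul_zero], zero_add]
    fin_cases i'
    · have e1 : Fin.natAdd k (0 : Fin 2) ≠ Fin.last (k + 1) := fun h => absurd (congrArg Fin.val h) (by simp)
      show b 0 * (if Fin.natAdd k (0 : Fin 2) = Fin.last (k + 1) then 1 else 0) + b 1 * (if Fin.natAdd k (0 : Fin 2) = (Fin.last k).castSucc then 1 else 0) = _
      rw [if_neg e1, if_pos (show Fin.natAdd k (0 : Fin 2) = (Fin.last k).castSucc from rfl)]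
      simp [Matrix.toLin'_apply, Matrix.mulVec, dotProduct, Fin.sum_univ_two]
    · have e1 : Fin.natAdd k (1 : Fin 2) ≠ (Fin.last k).castSucc := fun h => absurd (congrArg Fin.val h) (by simp)
      show b 0 * (if Fin.natAdd k (1 : Fin 2) = Fin.last (k + 1) then 1 else 0) + b 1 * (if Fin.natAdd k (1 : Fin 2) = (Fin.last k).castSucc then 1 else 0) = _
      rw [if_neg e1, if_pos (show Fin.natAdd k (1 : Fin 2) = Fin.last (k + 1) from rfl)]
      simp [Matrix.toLin'_apply, Matrix.mulVec, dotProduct, Fin.sum_univ_two]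

theorem tN_two_sw (w : V (k + 1 + 1)) (x : Ex (k + 2)) : tN k 2 (ExteriorAlgebra.map (tr (sw k) w) x) = -tN k 2 x := by
  rw [tN_map (N := 2) (T := tr (sw k) w) (tr_sw w) x, LinearMap.det_toLin', Matrix.det_fin_two_of]
  norm_num

theorem KKK (L : Ex k →ₗ[ℝ] ℝ) (z : V k) (x : Fm (k + 1 + 1)) : L (ev z (KK k (KK (k + 1) x))) =
    ∫ s in (0 : ℝ)..1, ∫ t in (0 : ℝ)..1, L (tN k 2 (ev (Fin.snoc (Fin.snoc z s : V (k + 1)) t : V (k + 1 + 1)) x)) := by
  rw [INTe_KK]
  congr 1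
  funext s
  exact INTe_KK (L.comp ((kil k).toLinearMap.comp (ctr (lst k)))) (Fin.snoc z s) x

theorem KK_sw (x : Fm (k + 1 + 1)) : KK k (KK (k + 1) (pb (sw k) x)) = -KK k (KK (k + 1) x) := by
  refine ev_ext fun z => ?_
  rw [← sub_eq_zero, ← Module.forall_dual_apply_eq_zero_iff ℝ]
  intro L
  rw [map_neg, sub_neg_eq_add, map_add]
  have h1 : L (ev z (KK k (KK (k + 1) (pb (sw k) x)))) =
      ∫ s in (0 : ℝ)..1, ∫ t in (0 : ℝ)..1, L (tN k 2 (ev (Fin.snoc (Fin.snoc z s : V (k + 1)) t : V (k + 1 + 1)) (pb (sw k) x))) := KKK L z _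
  have h2 : L (ev z (KK k (KK (k + 1) x))) =
      ∫ s in (0 : ℝ)..1, ∫ t in (0 : ℝ)..1, L (tN k 2 (ev (Fin.snoc (Fin.snoc z s : V (k + 1)) t : V (k + 1 + 1)) x)) := KKK L z _
  rw [h1, h2]
  have h3 : ∀ s t : ℝ, L (tN k 2 (ev (Fin.snoc (Fin.snoc z s : V (k + 1)) t : V (k + 1 + 1)) (pb (sw k) x))) =
      -L (tN k 2 (ev (Fin.snoc (Fin.snoc z t : V (k + 1)) s : V (k + 1 + 1)) x)) := by
    intro s t
    rw [ev_pb, tN_two_sw, map_neg, sw_snoc]
  simp only [h3, intervalIntegral.integral_neg]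
  rw [neg_add_eq_zero]
  refine intervalIntegral_intervalIntegral_swap ?_
  have h4 : Continuous fun q : ℝ × ℝ => L (tN k 2 (ev (Fin.snoc (Fin.snoc z q.2 : V (k + 1)) q.1 : V (k + 1 + 1)) x)) := by
    have h5 : ContDiff ℝ ∞ fun q : ℝ × ℝ => (Fin.snoc (Fin.snoc z q.2 : V (k + 1)) q.1 : V (k + 1 + 1)) :=
      contDiff_snoc.comp ((contDiff_snoc.comp (contDiff_const.prodMk contDiff_snd)).prodMk contDiff_fst)
    exact ((contDiff_coef (L.comp (tN k 2)) x).comp h5).continuous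
  have h6 : IntegrableOn (fun q : ℝ × ℝ => L (tN k 2 (ev (Fin.snoc (Fin.snoc z q.2 : V (k + 1)) q.1 : V (k + 1 + 1)) x)))
      (uIcc 0 1 ×ˢ uIcc 0 1) volume := h4.continuousOn.integrableOn_compact (isCompact_uIcc.prod isCompact_uIcc)
  exact h6.mono_set (Set.prod_mono uIoc_subset_uIcc uIoc_subset_uIcc)

theorem K_swap (θ : Om X.xR.xR) : KO X (KO X.xR ((swO X).pull θ)) = -KO X (KO X.xR θ) := by
  refine Om_ext fun k p => ?_
  rw [on_neg, on_K, on_K, on_K, on_K, on_pull]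
  have h : (swO X).pl p.up.up = p.up.up.cmp (sw k) := by
    refine Plot_ext fun w => ?_
    have hw : w = (Fin.snoc (Fin.snoc (pr k (pr (k + 1) w)) (pr (k + 1) w (Fin.last k)) : V (k + 1)) (w (Fin.last (k + 1))) : V (k + 1 + 1)) := by
      rw [snoc_pr, snoc_pr]
    generalize pr k (pr (k + 1) w) = z at hw
    generalize pr (k + 1) w (Fin.last k) = s at hw
    generalize w (Fin.last (k + 1)) = t at hw
    rw [hw]
    show ((p.1 (pr k (pr (k + 1) (Fin.snoc (Fin.snoc z s : V (k + 1)) t))), (Fin.snoc (Fin.snoc z s : V (k + 1)) t : V (k + 1 + 1)) (Fin.last (k + 1))),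
      (pr (k + 1) (Fin.snoc (Fin.snoc z s : V (k + 1)) t : V (k + 1 + 1))) (Fin.last k)) =
      ((p.1 (pr k (pr (k + 1) (sw k (Fin.snoc (Fin.snoc z s : V (k + 1)) t)))), pr (k + 1) (sw k (Fin.snoc (Fin.snoc z s : V (k + 1)) t)) (Fin.last k)),
        sw k (Fin.snoc (Fin.snoc z s : V (k + 1)) t) (Fin.last (k + 1)))
    rw [sw_snoc, pr_snoc, pr_snoc, pr_snoc, pr_snoc, snoc_last_val, snoc_last_val, snoc_last_val, snoc_last_val]
  rw [h, on_cmp, KK_sw]

end Pool.Agent.Lib.MP_ccbbf6_gt.L5
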