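import Pool.Agent.Lib.MP_ccbbf6_gt.L5.DG2
import Pool.Agent.Lib.MP_ccbbf6_gt.L5.SIV2

/-!
# Level 5, DG6: path forms (helper2)
-/

set_option autoImplicit false
set_option maxSynthPendingDepth 3
set_option linter.unusedSectionVars false
set_option linter.unusedVariables false

open Set Filter Topology Metric Real Module
open scoped ContDiff RealInnerProductSpace

noncomputable section

namespace Pool.Agent.Lib.MP_ccbbf6_gt.L5

open Geo L4 L4.FR L4.ORI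

variable {n : ℕ} {M : Type} [MetricSpace M] [CompactSpace M] {𝒜 : SDist n M}

/-! ### the geodesic homotopy along geodesics -/

theorem rat_gs (hB : Bl M) (c : Gs M) {s : ℝ} (h0 : 0 ≤ s) (h1 : s < π) (t : ℝ) :
    rat 𝒜 (c.1 0) (c.1 s) t = c.1 (t * s) := by
  have hv : ‖𝒜.vel c.1 0‖ = 1 := vel_norm 𝒜 c
  have h2 : ∀ r : ℝ, c.1 r = 𝒜.Ex (c.1 0) (r • 𝒜.vel c.1 0) := fun r => by
    rw [gs_Ex 𝒜 hB c r]
    unfold rad
    rw [hv, div_one]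
  have h3 : lg 𝒜 (c.1 0) (c.1 s) = s • 𝒜.vel c.1 0 := by
    rw [h2 s, lg_Ex hB]
    rw [norm_smul, hv, mul_one, Real.norm_of_nonneg h0]
    exact h1
  unfold rat
  rw [h3, smul_smul, ← h2]

theorem rat_gs' (hB : Bl M) (c : Gs M) (a : ℝ) {s : ℝ} (h0 : 0 ≤ s) (h1 : s < π) (t : ℝ) :
    rat 𝒜 (c.1 a) (c.1 (a + s)) t = c.1 (a + t * s) := by
  have h := rat_gs (𝒜 := 𝒜) hB (shift a c) h0 h1 t
  have e1 : (shift a c).1 0 = c.1 a := by
    show c.1 (0 + a) = _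
    rw [zero_add]
  have e2 : ∀ r, (shift a c).1 r = c.1 (a + r) := fun r => by
    show c.1 (r + a) = _
    rw [add_comm]
  rw [e1, e2, e2] at h
  exact h

theorem exists_gs' (𝒜 : SDist n M) (hB : Bl M) {x y : M} (h : x ≠ y) : ∃ c : Gs M, c.1 0 = x ∧ c.1 (dist x y) = y := by
  have h0 : lg 𝒜 x y ≠ 0 := by
    intro h0
    have h1 := norm_lg (𝒜 := 𝒜) hB x y
    rw [h0, norm_zero] at h1
    exact h (dist_eq_zero.1 h1.symm)
  obtain ⟨h1, h2⟩ := gvg_vel 𝒜 hB x (nrm (lg 𝒜 x y)) (norm_nrm h0)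
  refine ⟨gvg 𝒜 hB x (nrm (lg 𝒜 x y)) (norm_nrm h0), h1, ?_⟩
  rw [gs_Ex 𝒜 hB, h1, h2]
  have h3 : rad (dist x y) (nrm (lg 𝒜 x y)) = lg 𝒜 x y := by
    unfold rad nrm
    rw [norm_lg hB, norm_smul, norm_lg hB, norm_inv, Real.norm_of_nonneg dist_nonneg, inv_mul_cancel₀ (dist_ne_zero.2 h), div_one,
      smul_smul, mul_inv_cancel₀ (dist_ne_zero.2 h), one_smul]
  rw [h3, Ex_lg hB]

theorem dist_rat2 (hB : Bl M) {x y : M} (hd : dist x y < π) {t : ℝ} (h0 : 0 ≤ t) (h1 : t ≤ 1) :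
    dist (rat 𝒜 x y t) y = (1 - t) * dist x y := by
  by_cases h : x = y
  · subst h
    rw [rat_self hB, dist_self, mul_zero]
  · obtain ⟨c, hc0, hc1⟩ := exists_gs' 𝒜 hB h
    have h2 := rat_gs (𝒜 := 𝒜) hB c dist_nonneg hd t
    rw [hc0, hc1] at h2
    have h3 : |t * dist x y - dist x y| = (1 - t) * dist x y := by
      rw [abs_sub_comm, abs_of_nonneg]
      · ring
      · nlinarith [dist_nonneg (x := x) (y := y)]
    have h4 := c.2 (t * dist x y) (dist x y) (by rw [h3]; nlinarith [dist_nonneg (x := x) (y := y)])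
    rw [hc1, h3] at h4
    rw [h2, h4]

/-! ### forms of high degree -/

theorem dimLE_xV0 (N : ℕ) : DimLE ((spV 0).xV N) N := fun k p x =>
  ⟨FR.Sm.id k, plVX N, ⟨fun z => (p.1 z).2, p.2.2⟩, Eventually.of_forall fun _ => rfl,
    Plot_ext fun z => Prod.ext (Subsingleton.elim (α := V 0) _ _) rfl⟩

theorem dimLE_spV (m : ℕ) : DimLE (spV m) m := fun k p x =>
  ⟨FR.Sm.id k, idP m, ⟨p.1, p.2⟩, Eventually.of_forall fun _ => rfl, Plot_ext fun _ => rfl⟩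

theorem pull_low {W Y Z : Space} {m j : ℕ} (hW : DimLE W m) (a : SMap Y W) (g : SMap W Z) {u : Om Z} (hu : Deg j u) (hj : m < j) :
    (g.comp a).pull u = 0 := by
  rw [pull_comp, Deg_big hW hj (Deg_pull g hu), map_zero]

/-- constant maps -/
def ctS (W : Space) (x : M) : SMap W (spM 𝒜) := ⟨fun _ => x, fun _ _ => sm_const x⟩

theorem pull_ctS {W : Space} {j : ℕ} {u : Om (spM 𝒜)} (hu : Deg (j + 1) u) (x : M) : (ctS (𝒜 := 𝒜) W x).pull u = 0 := by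
  have h : ctS (𝒜 := 𝒜) W x = (ctS (𝒜 := 𝒜) (spV 0) x).comp ⟨fun _ => (0 : V 0), fun _ _ => (contDiff_const : ContDiff ℝ ∞ fun _ => (0 : V 0))⟩ :=
    SMap_ext fun _ => rfl
  rw [h]
  exact pull_low (dimLE_spV 0) _ _ hu (by omega)

/-! ### path forms -/

section pathform

variable {W W' : Space} {u : Om (spM 𝒜)}

/-- the path form of a family of paths -/
def pfm (u : Om (spM 𝒜)) (h : SMap W.xR (spM 𝒜)) : Om W := KO W (h.pull u)

theorem d_pfm (hu : dO _ u = 0) (h : SMap W.xR (spM 𝒜)) {a b : SMap W (spM 𝒜)} (h0 : ∀ w, h.1 (w, 0) = a.1 w) (h1 : ∀ w, h.1 (w, 1) = b.1 w) :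
    dO _ (pfm u h) = b.pull u - a.pull u := by
  have h2 := d_K (h.pull u)
  rw [pull_d, hu, map_zero, map_zero, add_zero] at h2
  have h3 : h.comp (jO W 1) = b := SMap_ext h1
  have h4 : h.comp (jO W 0) = a := SMap_ext h0
  unfold pfm
  rw [h2, ← h3, ← h4]
  rfl

theorem pfm_pull (s : SMap W' W) (h : SMap W.xR (spM 𝒜)) : s.pull (pfm u h) = pfm u (h.comp s.up) := rfl

theorem pfm_const {h : SMap W.xR (spM 𝒜)} {a : SMap W (spM 𝒜)} (h0 : ∀ w t, h.1 (w, t) = a.1 w) : pfm u h = 0 := by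
  have h1 : h = a.comp (pO W) := SMap_ext fun z => h0 z.1 z.2
  unfold pfm
  rw [h1, pull_comp, K_p]

theorem Deg_pfm {j : ℕ} (hu : Deg (j + 1) u) (h : SMap W.xR (spM 𝒜)) : Deg j (pfm u h) := Deg_K (Deg_pull h hu)

theorem pfm_congr {h h' : SMap W.xR (spM 𝒜)} (e : ∀ w t, h.1 (w, t) = h'.1 (w, t)) : pfm u h = pfm u h' := by
  have h1 : h = h' := SMap_ext fun z => e z.1 z.2
  rw [h1]

/-- minimal geodesics from `a` to `b` -/
def rtM (hB : Bl M) (a b : SMap W (spM 𝒜)) (h : ∀ w, dist (α := M) (a.1 w) (b.1 w) < π) : SMap W.xR (spM 𝒜) :=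
  ⟨fun z => rat (M := M) 𝒜 (a.1 z.1) (b.1 z.1) z.2, fun k p v =>
    smAt_rat hB ((a.2 k ⟨fun x => (p.1 x).1, p.2.1⟩) v) ((b.2 k ⟨fun x => (p.1 x).1, p.2.1⟩) v) p.2.2.contDiffAt (h _)⟩

theorem rtM_apply (hB : Bl M) (a b : SMap W (spM 𝒜)) (h : ∀ w, dist (α := M) (a.1 w) (b.1 w) < π) (w : W.pt) (t : ℝ) :
    (rtM hB a b h).1 (w, t) = rat (M := M) 𝒜 (a.1 w) (b.1 w) t := rfl

/-- the path form of the minimal geodesics from `a` to `b` -/
def pfD (hB : Bl M) (u : Om (spM 𝒜)) (a b : SMap W (spM 𝒜)) (h : ∀ w, dist (α := M) (a.1 w) (b.1 w) < π) : Om W := pfm u (rtM hB a b h)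

theorem d_pfD (hB : Bl M) (hu : dO _ u = 0) (a b : SMap W (spM 𝒜)) (h : ∀ w, dist (α := M) (a.1 w) (b.1 w) < π) :
    dO _ (pfD hB u a b h) = b.pull u - a.pull u :=
  d_pfm hu _ (fun w => rat_zero hB _ _) (fun w => rat_one hB _ _)

theorem pfD_pull (hB : Bl M) (s : SMap W' W) (a b : SMap W (spM 𝒜)) (h : ∀ w, dist (α := M) (a.1 w) (b.1 w) < π) :
    s.pull (pfD hB u a b h) = pfD hB u (a.comp s) (b.comp s) fun w => h (s.1 w) := rfl

theorem pfD_congr (hB : Bl M) {a b a' b' : SMap W (spM 𝒜)} (h : ∀ w, dist (α := M) (a.1 w) (b.1 w) < π) (h' : ∀ w, dist (α := M) (a'.1 w) (b'.1 w) < π)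
    (ea : ∀ w, a.1 w = a'.1 w) (eb : ∀ w, b.1 w = b'.1 w) : pfD hB u a b h = pfD hB u a' b' h' :=
  pfm_congr fun w t => by rw [rtM_apply, rtM_apply, ea, eb]

theorem pfD_self (hB : Bl M) {a b : SMap W (spM 𝒜)} (h : ∀ w, dist (α := M) (a.1 w) (b.1 w) < π) (e : ∀ w, a.1 w = b.1 w) :
    pfD hB u a b h = 0 :=
  pfm_const (a := a) fun w t => by rw [rtM_apply, ← e, rat_self hB]

/-- the rays `t ↦ g (t z)` -/
def ryM {N : ℕ} (g : SMap ((spV 0).xV N) (spM 𝒜)) (z : SMap W ((spV 0).xV N)) : SMap W.xR (spM 𝒜) :=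
  g.comp ⟨fun q => ((0 : V 0), q.2 • (z.1 q.1).2), fun k p => ⟨(contDiff_const : ContDiff ℝ ∞ fun _ => (0 : V 0)),
    p.2.2.smul (z.2 k ⟨fun x => (p.1 x).1, p.2.1⟩).2⟩⟩

/-- the path form of the rays -/
def pfS {N : ℕ} (u : Om (spM 𝒜)) (g : SMap ((spV 0).xV N) (spM 𝒜)) (z : SMap W ((spV 0).xV N)) : Om W := pfm u (ryM g z)

theorem d_pfS {N j : ℕ} (hu : dO _ u = 0) (hd : Deg (j + 1) u) (g : SMap ((spV 0).xV N) (spM 𝒜)) (z : SMap W ((spV 0).xV N)) :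
    dO _ (pfS u g z) = (g.comp z).pull u := by
  have h1 := d_pfm (u := u) hu (ryM g z) (a := ctS (𝒜 := 𝒜) W (g.1 ((0 : V 0), 0))) (b := g.comp z) (fun w => ?_) (fun w => ?_)
  · rw [pull_ctS hd, sub_zero] at h1
    exact h1
  · show g.1 ((0 : V 0), (0 : ℝ) • (z.1 w).2) = g.1 ((0 : V 0), 0)
    rw [zero_smul]
  · show g.1 ((0 : V 0), (1 : ℝ) • (z.1 w).2) = g.1 (z.1 w)
    rw [one_smul]
    exact congrArg g.1 (Prod.ext (Subsingleton.elim (α := V 0) _ _) rfl)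

theorem pfS_pull {N : ℕ} (s : SMap W' W) (g : SMap ((spV 0).xV N) (spM 𝒜)) (z : SMap W ((spV 0).xV N)) :
    s.pull (pfS u g z) = pfS u g (z.comp s) := rfl

theorem pfS_zero {N : ℕ} (g : SMap ((spV 0).xV N) (spM 𝒜)) (z : SMap W ((spV 0).xV N)) (h : ∀ w, (z.1 w).2 = 0) :
    pfS u g z = 0 :=
  pfm_const (a := ctS (𝒜 := 𝒜) W (g.1 ((0 : V 0), 0))) fun w t => by
    show g.1 ((0 : V 0), t • (z.1 w).2) = g.1 ((0 : V 0), 0)
    rw [h, smul_zero]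

theorem pfS_congr {N : ℕ} (g : SMap ((spV 0).xV N) (spM 𝒜)) {z z' : SMap W ((spV 0).xV N)} (h : ∀ w, (z.1 w).2 = (z'.1 w).2) :
    pfS u g z = pfS u g z' :=
  pfm_congr fun w t => by
    show g.1 ((0 : V 0), t • (z.1 w).2) = g.1 ((0 : V 0), t • (z'.1 w).2)
    rw [h]

/-- homotopies of closed forms on the sphere -/
theorem SI_hty {X : Space} {N : ℕ} (hN : 2 ≤ N) {Γ : Om (X.xP N).xR} (hD : Deg (N - 1) Γ) (hd : dO _ Γ = 0) :
    SI N X ((jO _ 1).pull Γ) = SI N X ((jO _ 0).pull Γ) := by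
  obtain ⟨j, rfl⟩ : ∃ j, N = j + 2 := ⟨N - 2, by omega⟩
  have h1 := d_K Γ
  rw [hd, map_zero, add_zero] at h1
  rw [← sub_eq_zero, ← map_sub, ← h1]
  have hD' : Deg (j + 1) Γ := hD
  have h2 : SI (j + 2) X (KO _ Γ) = 0 := SI_low (Deg_K hD') (by omega)
  have h3 := SI_d (KO _ Γ) (X := X) (N := j + 2)
  rw [h2, map_zero] at h3
  have h4 : ((-1 : ℝ) ^ (j + 2 + 1)) ≠ 0 := pow_ne_zero _ (by norm_num)
  exact (smul_eq_zero.1 h3.symm).resolve_left h4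

end pathform

end Pool.Agent.Lib.MP_ccbbf6_gt.L5
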