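import Pool.Agent.Lib.MP_ccbbf6_gt.L5.DG1api
import Pool.Agent.Lib.MP_ccbbf6_gt.L5.DG3
import Pool.Agent.Lib.MP_ccbbf6_gt.L5.DG6

/-!
# Level 5, DG10: the sphere integral of the average as an integral over `R^κ × [0, 1]` (helper2)
-/

set_option autoImplicit false
set_option maxSynthPendingDepth 3
set_option linter.unusedSectionVars false
set_option linter.unusedVariables false

open Set Filter Topology Metric Real Module
open scoped ContDiff RealInnerProductSpace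

noncomputable section

namespace Pool.Agent.Lib.MP_ccbbf6_gt.L5

open Geo L4 L4.FR L4.ORI NEG

/-! ### general lemmas -/

section gen

variable {n : ℕ} {M : Type} [MetricSpace M] [CompactSpace M] {𝒜 : SDist n M} {κ : ℕ} {u : Om (spM 𝒜)} {W : Space}

/-- path forms of families of paths which are locally constant paths -/
theorem ev_pfm_zero (a : SMap W (spM 𝒜)) (h : SMap W.xR (spM 𝒜)) {k : ℕ} (p : W.Plot k) (z : V k)
    (e : ∀ᶠ x in 𝓝 z, ∀ t, h.1 (p.1 x, t) = a.1 (p.1 x)) : ev z (Om.on (pfm u h) p) = 0 := by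
  rw [← Module.forall_dual_apply_eq_zero_iff ℝ]
  intro L
  have h1 : L (ev z (Om.on (pfm u h) p)) = L (ev z (KK k (Om.on u (h.pl p.up)))) := rfl
  have h2 : L (ev z (KK k (Om.on u ((a.comp (pO W)).pl p.up)))) = 0 := by
    have h3 : KK k (Om.on u ((a.comp (pO W)).pl p.up)) = Om.on (KO W ((pO W).pull (a.pull u))) p := rfl
    rw [h3, K_p, on_zero, map_zero, map_zero]
  rw [h1, ← h2]
  have h3 : ∀ t : ℝ, ev (Fin.snoc z t : V (k + 1)) (Om.on u (h.pl p.up)) =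
      ev (Fin.snoc z t : V (k + 1)) (Om.on u ((a.comp (pO W)).pl p.up)) := by
    intro t
    refine ev_on_congr u ?_
    have hc : Tendsto (fun v : V (k + 1) => pr k v) (𝓝 (Fin.snoc z t)) (𝓝 z) := by
      have := (pr k).smooth.continuous.tendsto (Fin.snoc z t : V (k + 1))
      rwa [pr_snoc] at this
    filter_upwards [hc.eventually e] with v hv
    exact hv _
  have h4 : L (ev z (KK k (Om.on u (h.pl p.up)))) = ∫ s in (0 : ℝ)..1,
      L (kil k (ctr (lst k) (ev (Fin.snoc z s) (Om.on u (h.pl p.up))))) := INTe_KK L z _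
  have h5 : L (ev z (KK k (Om.on u ((a.comp (pO W)).pl p.up)))) = ∫ s in (0 : ℝ)..1,
      L (kil k (ctr (lst k) (ev (Fin.snoc z s) (Om.on u ((a.comp (pO W)).pl p.up))))) := INTe_KK L z _
  rw [h4, h5]
  simp only [h3]

/-- independence of the parametrisation, on one plot -/
theorem KK_sub_eq {k : ℕ} {g : FR.Sm (k + 1) (k + 1)} (hg : ∀ w, pr k (g w) = pr k w) (h0 : ∀ z : V k, g (Fin.snoc z 0) (Fin.last k) = 0)
    (h1 : ∀ z : V k, g (Fin.snoc z 1) (Fin.last k) = 1) (x : Fm (k + 1)) : KK k (pb g x) = KK k x := by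
  refine ev_ext fun z => ?_
  rw [← sub_eq_zero, ← Module.forall_dual_apply_eq_zero_iff ℝ]
  intro L
  have h2 : L (ev z (KK k (pb g x))) = ∫ t in (g (Fin.snoc z 0) (Fin.last k))..(g (Fin.snoc z 1) (Fin.last k)),
      L (kil k (ctr (lst k) (ev (Fin.snoc z t) x))) := KK_sub hg L z x
  have h3 : L (ev z (KK k x)) = ∫ s in (0 : ℝ)..1, L (kil k (ctr (lst k) (ev (Fin.snoc z s) x))) := INTe_KK L z x
  rw [map_sub, h2, h3, h0, h1, sub_self]

end gen

variable {n : ℕ} {M : Type} [MetricSpace M] [CompactSpace M] {𝒜 : SDist n M} {N κ : ℕ} {C : Eu N → Gs M → M}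
  {P : Gs M → Eu N →L[ℝ] Eu N} {f : Gs M → Eu N → M}

theorem vcN_smul (b : Fin κ → Eu N) (r : ℝ) (ξ : V κ) : vcN b (r • ξ) = r • vcN b ξ := by
  unfold vcN
  rw [Finset.smul_sum]
  exact Finset.sum_congr rfl fun i _ => by rw [Pi.smul_apply, smul_eq_mul, mul_smul]

theorem vcN_zero (b : Fin κ → Eu N) : vcN b 0 = 0 := by
  have := vcN_smul b 0 0
  rwa [zero_smul, zero_smul] at this

theorem contDiff_vcN (b : Fin κ → Eu N) {E : Type*} [NormedAddCommGroup E] [NormedSpace ℝ E] {ξ : E → V κ} (h : ContDiff ℝ ∞ ξ) :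
    ContDiff ℝ ∞ fun v => vcN b (ξ v) := by
  unfold vcN
  exact ContDiff.sum fun i _ => (contDiff_pi.1 h i).smul contDiff_const

theorem IsNF.inP' {c : Gs M} {b : Fin κ → Eu N} (hb : IsNF P κ c b) (ξ : V κ) : InP P c (vcN b ξ) := by
  have := hb.inP 1 ξ
  rwa [one_smul] at this

/-- `(x, s) ↦ f (shift (2 π s) c) x` -/
def PsN (hB : Bl M) (hN : NegData 𝒜 κ hB C P) (hF : FillP 𝒜 C P f) {c : Gs M} {b : Fin κ → Eu N} (hb : IsNF P κ c b) :
    SMap ((spV 0).xV κ).xR (spM 𝒜) :=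
  ⟨fun q => f (shift (2 * π * q.2) c) (vcN b q.1.2), fun k p => by
    have h0 : SmG 𝒜 (fun _ : V k => c) := ⟨sm_const _, sm_const _⟩
    refine hF.smooth (σ := fun x => shift (2 * π * (p.1 x).2) c) (x := fun x => vcN b (p.1 x).1.2)
      (SmG.shift hB h0 (contDiff_const.mul p.2.2)) (contDiff_vcN b p.2.1.2) fun x => ?_
    show P (shift (2 * π * (p.1 x).2) c) _ = _
    rw [hN.inv]
    exact hb.inP' _⟩

/-- `x ↦ f c x` -/
def G0N (hF : FillP 𝒜 C P f) {c : Gs M} {b : Fin κ → Eu N} (hb : IsNF P κ c b) : SMap ((spV 0).xV κ) (spM 𝒜) :=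
  ⟨fun q => f c (vcN b q.2), fun k p =>
    hF.smooth (σ := fun _ => c) (x := fun x => vcN b (p.1 x).2) ⟨sm_const _, sm_const _⟩ (contDiff_vcN b p.2.2) fun x => hb.inP' _⟩

variable {hB : Bl M} (hN : NegData 𝒜 κ hB C P) (hF : FillP 𝒜 C P f) {c : Gs M} {b : Fin κ → Eu N} (hb : IsNF P κ c b)

theorem PsN_far (x : ((spV 0).xV κ).pt) (s : ℝ) (h : 1 ≤ ‖toE x.2‖) : (PsN hB hN hF hb).1 (x, s) = (G0N hF hb).1 x :=
  hF.inv c (vcN b x.2) (2 * π * s) (hb.inP' _) (by rw [hb.norm]; exact h)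

theorem PsN_zero (x : ((spV 0).xV κ).pt) : (PsN hB hN hF hb).1 (x, 0) = (G0N hF hb).1 x := by
  show f (shift (2 * π * 0) c) (vcN b x.2) = f c (vcN b x.2)
  rw [mul_zero, shift_zero]

theorem PsN_one (x : ((spV 0).xV κ).pt) : (PsN hB hN hF hb).1 (x, 1) = (G0N hF hb).1 x := by
  show f (shift (2 * π * 1) c) (vcN b x.2) = f c (vcN b x.2)
  rw [mul_one, shift_per 𝒜 hB]

/-- `∫_s Ψ^* u` -/
def muN (u : Om (spM 𝒜)) : Om ((spV 0).xV κ) := pfm u (PsN hB hN hF hb)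

theorem ev_muN (u : Om (spM 𝒜)) {k : ℕ} (p : ((spV 0).xV κ).Plot k) (z : V k) (h : 1 < ‖toE (p.1 z).2‖) :
    ev z (Om.on (muN hN hF hb u) p) = 0 := by
  refine ev_pfm_zero (G0N hF hb) _ p z ?_
  have hc : Continuous fun x : V k => ‖toE (p.1 x).2‖ := (contDiff_toE.continuous.comp p.2.2.continuous).norm
  filter_upwards [hc.continuousAt.eventually (lt_mem_nhds h)] with x hx t
  exact PsN_far hN hF hb _ _ hx.le

variable {u : Om (spM 𝒜)} (hd : dO _ u = 0) (h4 : Deg (κ + 1) u)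

theorem Deg_muN (h4 : Deg (κ + 1) u) : Deg κ (muN hN hF hb u) := Deg_pfm h4 _

theorem d_muN (hd : dO _ u = 0) (h4 : Deg (κ + 1) u) : dO _ (muN hN hF hb u) = 0 := by
  unfold muN
  rw [d_pfm hd _ (PsN_zero hN hF hb) (PsN_one hN hF hb), sub_self]

end Pool.Agent.Lib.MP_ccbbf6_gt.L5
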