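import Pool.Agent.Lib.MP_ccbbf6_gt.L5.DG3
import Pool.Agent.Lib.MP_ccbbf6_gt.L5.DG6
import Pool.Agent.Lib.MP_ccbbf6_gt.L5.UOR11

/-!
# Level 5, DG7: the integral of `u` over a sphere which passes once through a pair of points at distance `π` (helper2)

`core_JX`: `g₁ = G₀ ∘ a₁` (through a space of dimension `≤ κ`) and `g₂` maps `R^(κ+1) → M`, `d(g₁, g₂) < π` off `0`, `g₁ 0 = p`, `g₂ 0 = q` at distance `π`,
`g₁ = g₂` far out, and near `0` the midpoint of the geodesic in the direction of `ζ` shortens: then `∫ g₂^* u = - (orientation of the frame)`.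
-/

set_option autoImplicit false
set_option maxSynthPendingDepth 3
set_option linter.unusedSectionVars false
set_option linter.unusedVariables false

open Set Filter Topology Metric Real Module
open scoped ContDiff RealInnerProductSpace

noncomputable section

namespace Pool.Agent.Lib.MP_ccbbf6_gt.L5

open Geo L4 L4.FR L4.ORI

variable {n : ℕ} {M : Type} [MetricSpace M] [CompactSpace M] {𝒜 : SDist n M} {κ : ℕ} {u : Om (spM 𝒜)} {W : Space}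

/-! ### the path form of geodesics of length `π` in two halves -/

theorem fRho_apply (hB : Bl M) (c : Gs M) (t : ℝ) : (fRho (𝒜 := 𝒜) hB).1 (c, t) = c.1 (π * t) := rfl

theorem smR_aff (a b : ℝ) : SmR W fun z => a * z.2 + b := fun k p => (contDiff_const.mul p.2.2).add contDiff_const

theorem psu_halves (hB : Bl M) (σ : SMap W (spG 𝒜)) {P m Q : SMap W (spM 𝒜)}
    (hP : ∀ w, P.1 w = (σ.1 w).1 0) (hm : ∀ w, m.1 w = (σ.1 w).1 (π / 2)) (hQ : ∀ w, Q.1 w = (σ.1 w).1 π)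
    (h1 : ∀ w, dist (α := M) (P.1 w) (m.1 w) < π) (h2 : ∀ w, dist (α := M) (m.1 w) (Q.1 w) < π) :
    pfD hB u P m h1 + pfD hB u m Q h2 = σ.pull (psu hB u) := by
  have hpi := Real.pi_pos
  have e1 : rtM hB P m h1 = ((fRho (𝒜 := 𝒜) hB).comp σ.up).comp (tO (smR_aff (W := W) (1 / 2) 0)) := SMap_ext fun z => by
    show rat (M := M) 𝒜 (P.1 z.1) (m.1 z.1) z.2 = (σ.1 z.1).1 (π * (1 / 2 * z.2 + 0))
    rw [hP, hm, rat_gs hB (σ.1 z.1) (by positivity) (by linarith)]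
    exact congrArg (σ.1 z.1).1 (by ring)
  have e2 : rtM hB m Q h2 = ((fRho (𝒜 := 𝒜) hB).comp σ.up).comp (tO (smR_aff (W := W) (1 / 2) (1 / 2))) := SMap_ext fun z => by
    show rat (M := M) 𝒜 (m.1 z.1) (Q.1 z.1) z.2 = (σ.1 z.1).1 (π * (1 / 2 * z.2 + 1 / 2))
    have h3 : (σ.1 z.1).1 π = (σ.1 z.1).1 (π / 2 + π / 2) := by rw [add_halves]
    rw [hm, hQ, h3, rat_gs' hB (σ.1 z.1) (π / 2) (by positivity) (by linarith)]
    exact congrArg (σ.1 z.1).1 (by ring)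
  obtain ⟨θ, hθ⟩ : ∃ θ, θ = ((fRho (𝒜 := 𝒜) hB).comp σ.up).pull u := ⟨_, rfl⟩
  have e3 : pfD hB u P m h1 = KO W ((tO (smR_aff (W := W) (1 / 2) 0)).pull θ) := by
    unfold pfD pfm
    rw [e1, hθ, pull_comp]
  have e4 : pfD hB u m Q h2 = KO W ((tO (smR_aff (W := W) (1 / 2) (1 / 2))).pull θ) := by
    unfold pfD pfm
    rw [e2, hθ, pull_comp]
  have e5 : σ.pull (psu hB u) = KO W ((tO (smR_aff (W := W) 1 0)).pull θ) := by
    rw [K_tO_eq (smR_aff (W := W) 1 0) θ (fun x => by norm_num) (fun x => by norm_num), hθ]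
    rfl
  rw [e3, e4, e5]
  exact (K_tO_add _ _ _ θ (fun x => by norm_num) (fun x => by norm_num) (fun x => by norm_num)).symm

/-! ### the data -/

/-- directions of a frame -/
def dirN (hB : Bl M) (f : (spVF 𝒜 κ).pt) : SMap ((spV 0).xP (κ + 1)) (spG 𝒜) := (dirV 𝒜 hB κ).comp ((plM (cpl f)).xP (κ + 1))

/-- midpoints -/
def midF (hB : Bl M) (f : (spVF 𝒜 κ).pt) : SMap ((spV 0).xP (κ + 1)) (spM 𝒜) := (foot hB (π / 2)).comp (dirN hB f)

theorem dirN_zero (hB : Bl M) (f : (spVF 𝒜 κ).pt) (y : ((spV 0).xP (κ + 1)).pt) : ((dirN hB f).1 y).1 0 = (f.1.1 0).1 0 :=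
  foot_dirV hB _

theorem dirN_pi (hB : Bl M) (f : (spVF 𝒜 κ).pt) (y : ((spV 0).xP (κ + 1)).pt) : ((dirN hB f).1 y).1 π = (f.1.1 0).1 π :=
  top_dirV hB _

structure CoreD (hB : Bl M) (κ : ℕ) {W₀ : Space} (G₀ : SMap W₀ (spM 𝒜)) (a₁ : SMap ((spV 0).xV (κ + 1)) W₀)
    (g₂ : SMap ((spV 0).xV (κ + 1)) (spM 𝒜)) (f : (spVF 𝒜 κ).pt) (ε : ℝ) : Prop where
  dim : DimLE W₀ κ
  pos : 0 < ε
  short : ∀ ζ : V (κ + 1), ζ ≠ 0 → dist (α := M) (G₀.1 (a₁.1 ((0 : V 0), ζ))) (g₂.1 ((0 : V 0), ζ)) < π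
  zero1 : G₀.1 (a₁.1 ((0 : V 0), 0)) = (f.1.1 0).1 0
  zero2 : g₂.1 ((0 : V 0), 0) = (f.1.1 0).1 π
  loc : ∀ (ζ : V (κ + 1)) (hζ : ζ ≠ 0) (c : ℝ), 0 < c → c * ‖toE ζ‖ ≤ ε →
    dist (α := M) (G₀.1 (a₁.1 ((0 : V 0), c • ζ))) ((midF hB f).1 ⟨((0 : V 0), ζ), hζ⟩) +
      dist (α := M) ((midF hB f).1 ⟨((0 : V 0), ζ), hζ⟩) (g₂.1 ((0 : V 0), c • ζ)) < π
  far : ∀ ζ : V (κ + 1), 2 < ‖toE ζ‖ → G₀.1 (a₁.1 ((0 : V 0), ζ)) = g₂.1 ((0 : V 0), ζ)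

/-- inverse of the norm -/
def nvY (κ : ℕ) (y : ((spV 0).xP (κ + 1)).pt) : ℝ := ‖toE y.1.2‖⁻¹

theorem nvY_pos (y : ((spV 0).xP (κ + 1)).pt) : 0 < nvY κ y := inv_pos.2 (norm_pos_iff.2 (toE_ne y.2))

theorem smooth_nvY {k : ℕ} (p : ((spV 0).xP (κ + 1)).Plot k) : ContDiff ℝ ∞ fun x => nvY κ (p.1 x) := by
  have h1 : ContDiff ℝ ∞ fun x => (p.1 x).1.2 := p.2.2
  refine ContDiff.inv (ContDiff.norm ℝ (contDiff_toE.comp h1) fun x => toE_ne (p.1 x).2) fun x => ?_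
  exact norm_ne_zero_iff.2 (toE_ne (p.1 x).2)

/-- `w ↦ l w • v w` -/
def sclM (v : SMap W ((spV 0).xP (κ + 1))) {l : W.pt → ℝ} (hl : ∀ (k : ℕ) (p : W.Plot k), ContDiff ℝ ∞ fun x => l (p.1 x)) :
    SMap W ((spV 0).xV (κ + 1)) :=
  ⟨fun w => ((0 : V 0), l w • (v.1 w).1.2), fun k p => ⟨(contDiff_const : ContDiff ℝ ∞ fun _ => (0 : V 0)), (hl k p).smul (v.2 k p).2⟩⟩

/-- the transition function -/
def stF (t : ℝ) : ℝ := Real.smoothTransition t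

theorem stF_smooth : ContDiff ℝ ∞ stF := Real.smoothTransition.contDiff

theorem stF_zero : stF 0 = 0 := Real.smoothTransition.zero

theorem stF_one : stF 1 = 1 := Real.smoothTransition.one

theorem stF_nonneg (t : ℝ) : 0 ≤ stF t := Real.smoothTransition.nonneg t

theorem stF_le (t : ℝ) : stF t ≤ 1 := Real.smoothTransition.le_one t

end Pool.Agent.Lib.MP_ccbbf6_gt.L5
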