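import Pool.Agent.Lib.MP_ccbbf6_gt.L5.DG10
import Pool.Agent.Lib.MP_ccbbf6_gt.L5.DG7
import Pool.Agent.Lib.MP_ccbbf6_gt.L5.PHI01

/-!
# Level 5, DG11: `SI κ (ptN^* thN) = - 2 JX κ (muN)` (helper2)
-/

set_option autoImplicit false
set_option maxSynthPendingDepth 3
set_option linter.unusedSectionVars false
set_option linter.unusedVariables false

open Set Filter Topology Metric Real Module
open scoped ContDiff RealInnerProductSpace

noncomputable section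

namespace Pool.Agent.Lib.MP_ccbbf6_gt.L5

open Geo L4 L4.FR L4.ORI NEG

variable {n : ℕ} {M : Type} [MetricSpace M] [CompactSpace M] {𝒜 : SDist n M} {N κ : ℕ} {C : Eu N → Gs M → M}
  {P : Gs M → Eu N →L[ℝ] Eu N} {f : Gs M → Eu N → M}

variable {hB : Bl M} (hN : NegData 𝒜 κ hB C P) (hF : FillP 𝒜 C P f) {c : Gs M} {b : Fin κ → Eu N} (hb : IsNF P κ c b)
  {u : Om (spM 𝒜)}

/-- `((ξ, s), r) ↦ f (shift (2 π s) c) (r ξ / |ξ|)` -/
def ThP : SMap ((spV 0).xP κ).xR.xR (spM 𝒜) :=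
  ⟨fun q => f (shift (2 * π * q.1.2) c) (q.2 • (‖toE q.1.1.1.2‖⁻¹ • vcN b q.1.1.1.2)), fun k p => by
    have h0 : SmG 𝒜 (fun _ : V k => c) := ⟨sm_const _, sm_const _⟩
    have h1 : ContDiff ℝ ∞ fun x => ‖toE (p.1 x).1.1.1.2‖⁻¹ • vcN b (p.1 x).1.1.1.2 :=
      ((ptN (𝒜 := 𝒜) hb).2 k ⟨fun x => (p.1 x).1.1, p.2.1.1⟩).2
    refine hF.smooth (σ := fun x => shift (2 * π * (p.1 x).1.2) c)
      (x := fun x => (p.1 x).2 • (‖toE (p.1 x).1.1.1.2‖⁻¹ • vcN b (p.1 x).1.1.1.2))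
      (SmG.shift hB h0 (contDiff_const.mul p.2.1.2)) (p.2.2.smul h1) fun x => ?_
    show P (shift (2 * π * (p.1 x).1.2) c) _ = _
    rw [hN.inv, smul_smul]
    exact hb.inP _ _⟩

theorem pull_thN : (ptN hb).pull (thN hB hN hF u) =
    KO _ (KO _ ((tO (smR_aff 2 (-1))).pull ((ThP hN hF hb).pull u))) := by
  have h1 : thN hB hN hF u = KO _ ((circN hB hN).a.pull (KO _ ((FN hF).pull u))) := i_A (circN hB hN) _
  have h2 : (FN hF).comp ((circN hB hN).a.comp (ptN hb).up).up = (ThP hN hF hb).comp (tO (smR_aff 2 (-1))) :=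
    SMap_ext fun q => by
      show f (shift (2 * π * q.1.2) c) ((2 * q.2 - 1) • (‖toE q.1.1.1.2‖⁻¹ • vcN b q.1.1.1.2)) =
        f (shift (2 * π * q.1.2) c) ((2 * q.2 + -1) • (‖toE q.1.1.1.2‖⁻¹ • vcN b q.1.1.1.2))
      rw [sub_eq_add_neg]
  have h3 : (ptN hb).pull (KO _ ((circN hB hN).a.pull (KO _ ((FN hF).pull u)))) =
      KO _ (KO _ (((FN hF).comp ((circN hB hN).a.comp (ptN hb).up).up).pull u)) := rfl
  rw [h1, h3, h2]
  rfl

/-- `-1` on the sphere -/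
def anY (κ : ℕ) : SMap ((spV 0).xP κ) ((spV 0).xP κ) :=
  frP (X := spV 0) (A := fun _ => (-1 : Matrix (Fin κ) (Fin κ) ℝ)) (fun k p i j => contDiff_const)
    (fun _ => by rw [Matrix.transpose_neg, Matrix.transpose_one, neg_mul_neg, one_mul])

theorem anY_apply (y : ((spV 0).xP κ).pt) : ((anY κ).1 y).1 = (y.1.1, -y.1.2) := by
  show (y.1.1, (-1 : Matrix (Fin κ) (Fin κ) ℝ).mulVec y.1.2) = _
  rw [Matrix.neg_mulVec, Matrix.one_mulVec]

theorem SI_anY (hodd : Odd κ) (Θ : Om ((spV 0).xP κ)) : SI κ (spV 0) ((anY κ).pull Θ) = -SI κ (spV 0) Θ := by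
  have h1 := SI_frP (X := spV 0) (N := κ) (A := fun _ => (-1 : Matrix (Fin κ) (Fin κ) ℝ)) (fun k p i j => contDiff_const)
    (fun _ => by rw [Matrix.transpose_neg, Matrix.transpose_one, neg_mul_neg, one_mul]) (s := -1) (by rw [abs_neg, abs_one])
    (fun _ => by rw [Matrix.det_neg, Matrix.det_one, Fintype.card_fin, hodd.neg_one_pow, mul_one]) Θ
  rw [neg_one_smul] at h1
  exact h1

theorem smR_neg {W : Space} : SmR W fun z => -z.2 := fun k p => p.2.2.neg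

theorem ThP_neg : (ThP hN hF hb).comp (tO (smR_neg (W := ((spV 0).xP κ).xR))) = (ThP hN hF hb).comp ((anY κ).up).up :=
  SMap_ext fun q => by
    have h1 : (((anY κ).1 q.1.1).1).2 = -q.1.1.1.2 := congrArg Prod.snd (anY_apply q.1.1)
    show f (shift (2 * π * q.1.2) c) (-q.2 • (‖toE q.1.1.1.2‖⁻¹ • vcN b q.1.1.1.2)) =
      f (shift (2 * π * q.1.2) c) (q.2 • (‖toE (((anY κ).1 q.1.1).1).2‖⁻¹ • vcN b (((anY κ).1 q.1.1).1).2))
    rw [h1]
    have h2 : toE (-q.1.1.1.2) = -toE q.1.1.1.2 := rfl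
    have h3 : vcN b (-q.1.1.1.2) = -vcN b q.1.1.1.2 := by
      have := vcN_smul b (-1) q.1.1.1.2
      rwa [neg_one_smul, neg_one_smul] at this
    rw [h2, norm_neg, h3, smul_neg, smul_neg, neg_smul]

/-- splitting at the centre -/
theorem split_r (W : Space) (θ : Om W.xR) : KO W ((tO (smR_aff 2 (-1))).pull θ) = KO W θ - KO W ((tO (smR_neg (W := W))).pull θ) := by
  have h1 : KO W ((tO (smR_aff (W := W) 2 (-1))).pull θ) = KO W ((tO (smR_aff (W := W) 1 (-1))).pull θ) + KO W ((tO (smR_aff (W := W) 1 0)).pull θ) :=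
    K_tO_add _ _ _ θ (fun x => by norm_num) (fun x => by norm_num) (fun x => by norm_num)
  have h2 : KO W ((tO (smR_aff (W := W) 1 0)).pull θ) = KO W θ := K_tO_eq _ θ (fun x => by norm_num) (fun x => by norm_num)
  have h3 : KO W ((tO (smR_neg (W := W))).pull θ) = -KO W ((tO (smR_aff (W := W) 1 (-1))).pull θ) := by
    rw [← K_rev]
    have h4 : (tO (smR_aff (W := W) 1 (-1))).comp (rO W) = tO (smR_neg (W := W)) := SMap_ext fun z => by
      show (z.1, 1 * (1 - z.2) + -1) = (z.1, -z.2)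
      congr 1
      ring
    rw [← h4]
    rfl
  rw [h1, h2, h3]
  abel

/-- `(ξ, r) ↦ r ξ / |ξ|` -/
def rdM (κ : ℕ) : SMap ((spV 0).xP κ).xR ((spV 0).xV κ) :=
  ⟨fun q => ((0 : V 0), (q.2 * ‖toE q.1.1.2‖⁻¹) • q.1.1.2), fun k p => by
    refine ⟨(contDiff_const : ContDiff ℝ ∞ fun _ => (0 : V 0)), ?_⟩
    have h1 : ContDiff ℝ ∞ fun x => (p.1 x).1.1.2 := p.2.1.2
    have h2 : ContDiff ℝ ∞ fun x => ‖toE (p.1 x).1.1.2‖⁻¹ := by
      refine ContDiff.inv (ContDiff.norm ℝ (contDiff_toE.comp h1) fun x => toE_ne (p.1 x).1.2) fun x => ?_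
      exact norm_ne_zero_iff.2 (toE_ne (p.1 x).1.2)
    exact (p.2.2.mul h2).smul h1⟩

theorem ThP_sw : (ThP hN hF hb).comp (swO ((spV 0).xP κ)) = (PsN hB hN hF hb).comp (rdM κ).up := SMap_ext fun q => by
  show f (shift (2 * π * q.2) c) (q.1.2 • (‖toE q.1.1.1.2‖⁻¹ • vcN b q.1.1.1.2)) =
    f (shift (2 * π * q.2) c) (vcN b ((q.1.2 * ‖toE q.1.1.1.2‖⁻¹) • q.1.1.1.2))
  rw [vcN_smul, smul_smul]

theorem SI_T (hodd : Odd κ) : SI κ (spV 0) ((ptN hb).pull (thN hB hN hF u)) =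
    -(2 : ℝ) • SI κ (spV 0) (KO _ ((rdM κ).pull (muN hN hF hb u))) := by
  obtain ⟨w0, hw0⟩ : ∃ w0, w0 = KO ((spV 0).xP κ) (KO _ ((ThP hN hF hb).pull u)) := ⟨_, rfl⟩
  have h1 : KO ((spV 0).xP κ) (KO _ ((tO (smR_neg (W := ((spV 0).xP κ).xR))).pull ((ThP hN hF hb).pull u))) = (anY κ).pull w0 := by
    rw [← pull_comp, ThP_neg, hw0]
    rfl
  have h2 : (ptN hb).pull (thN hB hN hF u) = w0 - (anY κ).pull w0 := by
    rw [pull_thN, split_r, map_sub, h1, hw0]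
  have h3 : KO _ ((rdM κ).pull (muN hN hF hb u)) = -w0 := by
    rw [hw0, ← K_swap, ← pull_comp, ThP_sw]
    rfl
  rw [h2, map_sub, SI_anY hodd, h3, map_neg, sub_neg_eq_add, ← two_smul ℝ, smul_neg, neg_smul, neg_neg]

end Pool.Agent.Lib.MP_ccbbf6_gt.L5
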