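import Pool.Agent.Lib.MP_ccbbf6_gt.L5.INTf

/-!
# Level 5, DG4: integrals over the sphere and primitives; linear change of variables (helper2)
-/

set_option autoImplicit false
set_option maxSynthPendingDepth 3
set_option linter.unusedSectionVars false
set_option linter.unusedVariables false

open Set Filter Topology MeasureTheory
open scoped ContDiff

noncomputable section

namespace Pool.Agent.Lib.MP_ccbbf6_gt.L5

open L4 L4.FR

variable {k l N m : ℕ} {X Y : Space}

theorem toE_zero' : ‖toE (0 : V N)‖ = 0 := by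
  show ‖(WithLp.toLp 2 (0 : V N) : EuclideanSpace ℝ (Fin N))‖ = 0
  rw [WithLp.toLp_zero, norm_zero]

theorem norm_toE_of_coord {ξ : V N} (h : ∃ i, 3 ≤ |ξ i|) : 3 ≤ ‖toE ξ‖ := by
  obtain ⟨i, hi⟩ := h
  have h1 : ‖(toE ξ) i‖ ≤ ‖toE ξ‖ := PiLp.norm_apply_le (toE ξ) i
  have h2 : ‖(toE ξ) i‖ = |ξ i| := Real.norm_eq_abs _
  rw [h2] at h1
  linarith

/-- forms which vanish far out -/
theorem VSO_of {Θ : Om (X.xV N)} (h : ∀ (k : ℕ) (p : (X.xV N).Plot k) (z : V k), 3 ≤ ‖toE (p.1 z).2‖ → ev z (Om.on Θ p) = 0) :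
    VSO Θ := fun k P w hw => h (k + N) (P.xV N) w (norm_toE_of_coord hw)

theorem ev_chiX (p : (X.xV N).Plot k) (z : V k) : ev z (Om.on (chiX N X) p) = algebraMap ℝ (Ex k) (L4.chi ‖toE (p.1 z).2‖) :=
  ev_fO _ _ p z

theorem Deg_chiX : Deg 0 (chiX N X) := fun k p => Dg_fc _

/-- the sphere integral only depends on the values for `|ξ| ≥ 1` -/
theorem SI_congr {Θ Θ' : Om (X.xP N)} (h : ∀ (k : ℕ) (p : (X.xP N).Plot k) (z : V k), 1 ≤ ‖toE (p.1 z).1.2‖ →
    ev z (Om.on Θ p) = ev z (Om.on Θ' p)) : SI N X Θ = SI N X Θ' := by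
  rw [SI_def, SI_def]
  congr 1
  refine ext_unique (open_neZ X N) ?_ fun k p x hx => ?_
  · rw [inU_cutX, inU_cutX]
    refine Om_ext fun k p => ev_ext fun z => ?_
    rw [on_mul, on_mul, map_mul, map_mul]
    by_cases h1 : ‖toE (p.1 z).1.2‖ < 1
    · have h2 : ev z (Om.on ((inU (X.xV N) (neZ X N)).pull (dch N X)) p) = 0 :=
        ev_dch ((inU (X.xV N) (neZ X N)).pl p) z (Or.inl h1)
      rw [h2, zero_mul, zero_mul]
    · rw [h k p z (not_lt.1 h1)]
  · have h0 : (p.1 x).2 = 0 := by_contra fun h => hx h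
    have h1 : ‖toE (p.1 x).2‖ < 1 := by
      rw [h0, toE_zero']
      exact one_pos
    rw [ev_cutX Θ p x (Or.inl h1), ev_cutX Θ' p x (Or.inl h1)]

theorem cutX_inU (α : Om (X.xV N)) : cutX ((inU (X.xV N) (neZ X N)).pull α) = dch N X * α := by
  refine ext0_unique _ _ ?_ fun k p x hx => ?_
  · rw [map_mul]
  · have h0 : (p.1 x).2 = 0 := by_contra fun h => hx h
    have h1 : ‖toE (p.1 x).2‖ < 1 := by
      rw [h0, toE_zero']
      exact one_pos
    rw [on_mul, map_mul, ev_dch p x (Or.inl h1), zero_mul]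

/-- the integral of an exact form with support in the cube -/
theorem JX_exact {j : ℕ} {Θ : Om (X.xV N)} (hd : Deg j Θ) (hj : j < N) (h : VSO Θ) : JX N X (dO _ Θ) = 0 := by
  have h1 := JX_d h
  rw [JX_low hd hj, map_zero] at h1
  have h2 : ((-1 : ℝ) ^ N) ≠ 0 := pow_ne_zero _ (by norm_num)
  exact (smul_eq_zero.1 h1.symm).resolve_left h2

/-- `1 - χ` -/
def chiY (N : ℕ) (X : Space) : Om (X.xV N) := 1 - chiX N X

theorem ev_chiY (p : (X.xV N).Plot k) (z : V k) (h : 2 ≤ ‖toE (p.1 z).2‖) : ev z (Om.on (chiY N X) p) = 0 := by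
  unfold chiY
  rw [on_sub, on_one, map_sub, map_one, ev_chiX, L4.chi_one h, map_one, sub_self]

theorem d_chiY : dO _ (chiY N X) = -dch N X := by
  unfold chiY dch
  rw [map_sub, d_one, zero_sub]

theorem Deg_chiY : Deg 0 (chiY N X) := Deg_sub Deg_one Deg_chiX

/-- primitives on the whole space -/
theorem SI_prim (hN : 1 ≤ N) {α Φ : Om (X.xV N)} (hα : Deg (N - 1) α) (hd : dO _ α = Φ) :
    SI N X ((inU (X.xV N) (neZ X N)).pull α) = JX N X (chiY N X * Φ) := by
  have hV : VSO (chiY N X * α) := VSO_of fun k p z hz => by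
    rw [on_mul, map_mul, ev_chiY p z (by linarith), zero_mul]
  have hD : Deg (N - 1) (chiY N X * α) := by
    have := Deg_mul (Deg_chiY (N := N) (X := X)) hα
    rwa [zero_add] at this
  have h1 := JX_exact hD (by omega) hV
  have h2 : sO _ (chiY N X) = chiY N X := by
    have := Deg_s (Deg_chiY (N := N) (X := X))
    rwa [pow_zero, one_smul] at this
  rw [d_mul, h2, d_chiY, hd, neg_mul, map_add, map_neg, neg_add_eq_zero] at h1
  rw [SI_def, cutX_inU]
  exact h1

theorem van_chiX (X : Space) (N : ℕ) : Van (X.xV N) (neZ X N) ((inU (X.xV N) (neZ X N)).pull (chiX N X)) := by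
  refine Van_fO (open_neZ X N) _ fun k p x hx => ?_
  have h0 : (p.1 x).2 = 0 := by_contra fun h => hx h
  have h1 : ‖toE (p.1 x).2‖ < 1 := by
    rw [h0, toE_zero']
    exact one_pos
  have hc : Continuous fun y : V k => ‖toE (p.1 y).2‖ := (contDiff_toE.continuous.comp p.2.2.continuous).norm
  filter_upwards [hc.continuousAt.eventually (gt_mem_nhds h1)] with y hy
  exact L4.chi_zero (le_of_lt hy)

/-- primitives on the complement of the zero section -/
theorem SI_ext (hN : 1 ≤ N) {ν : Om (X.xP N)} {Φ : Om (X.xV N)} (hν : Deg (N - 1) ν)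
    (hd : dO _ ν = (inU (X.xV N) (neZ X N)).pull Φ)
    (hz : ∀ (k : ℕ) (p : (X.xP N).Plot k) (z : V k), 3 ≤ ‖toE (p.1 z).1.2‖ → ev z (Om.on ν p) = 0) :
    SI N X ν = -JX N X (chiX N X * Φ) := by
  obtain ⟨w, hw⟩ : ∃ w, w = ext0 (open_neZ X N) ((inU (X.xV N) (neZ X N)).pull (chiX N X) * ν) (Van_mul (van_chiX X N) ν) := ⟨_, rfl⟩
  have hs : sO _ (chiX N X) = chiX N X := by
    have := Deg_s (Deg_chiX (N := N) (X := X))
    rwa [pow_zero, one_smul] at this
  have hdw : dO _ w = cutX ν + chiX N X * Φ := by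
    refine ext_unique (open_neZ X N) ?_ fun k p x hx => ?_
    · have h1 : (inU (X.xV N) (neZ X N)).pull (dO _ w) = dO _ ((inU (X.xV N) (neZ X N)).pull w) := (pull_d _ _).symm
      have h2 : dO _ ((inU (X.xV N) (neZ X N)).pull (chiX N X)) = (inU (X.xV N) (neZ X N)).pull (dch N X) := pull_d _ _
      have h3 : sO _ ((inU (X.xV N) (neZ X N)).pull (chiX N X)) = (inU (X.xV N) (neZ X N)).pull (chiX N X) := by
        rw [pull_s, hs]
      rw [h1, hw, ext0_res, d_mul, h2, h3, hd, map_add, inU_cutX, map_mul]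
    · have h0 : (p.1 x).2 = 0 := by_contra fun h => hx h
      have h1 : ‖toE (p.1 x).2‖ < 1 := by
        rw [h0, toE_zero']
        exact one_pos
      rw [hw, ev_d_ext0_not _ _ _ hx, on_add, on_mul, map_add, map_mul, ev_cutX ν p x (Or.inl h1), ev_chiX,
        L4.chi_zero h1.le, map_zero, zero_mul, add_zero]
  have hV : VSO w := VSO_of fun k p z hz' => by
    have hU : p.1 z ∈ neZ X N := by
      intro h0
      rw [h0, toE_zero'] at hz'
      linarith
    obtain ⟨Q, hQ⟩ := locPl_of (open_neZ X N) p hU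
    rw [hw, ev_ext0, vAt_eq (vU_inj _ _) _ Q hQ, on_mul, map_mul]
    have h2 : (Q.1 z).1 = p.1 z := hQ.self_of_nhds
    rw [hz k Q z (by rw [h2]; exact hz'), mul_zero]
  have hD : Deg (N - 1) w := by
    rw [hw]
    refine Deg_ext0 _ _ ?_
    have := Deg_mul (Deg_pull (inU (X.xV N) (neZ X N)) (Deg_chiX (N := N) (X := X))) hν
    rwa [zero_add] at this
  have h1 := JX_exact hD (by omega) hV
  rw [hdw, map_add] at h1
  rw [SI_def]
  exact eq_neg_of_add_eq_zero_left h1

/-- **the integral as an integral over the sphere** -/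
theorem SI_sub_prim (hN : 1 ≤ N) {ν : Om (X.xP N)} {α Φ : Om (X.xV N)} (hν : Deg (N - 1) ν) (hα : Deg (N - 1) α)
    (hd : dO _ ν = (inU (X.xV N) (neZ X N)).pull Φ) (hdα : dO _ α = Φ)
    (hz : ∀ (k : ℕ) (p : (X.xP N).Plot k) (z : V k), 3 ≤ ‖toE (p.1 z).1.2‖ → ev z (Om.on ν p) = 0) :
    SI N X (ν - (inU (X.xV N) (neZ X N)).pull α) = -JX N X Φ := by
  rw [map_sub, SI_ext hN hν hd hz, SI_prim hN hα hdα]
  have h : Φ = chiX N X * Φ + chiY N X * Φ := by
    unfold chiY
    rw [sub_mul, one_mul, add_sub_cancel]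
  conv_rhs => rw [h, map_add]
  exact (neg_add' _ _).symm

end Pool.Agent.Lib.MP_ccbbf6_gt.L5
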