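import Pool.Agent.Lib.MP_ccbbf6_gt.L5.DG11
import Pool.Agent.Lib.MP_ccbbf6_gt.L5.DG4

/-!
# Level 5, DG12: the radial comparison; the integral over `R^(κ+1)` (helper2)
-/

set_option autoImplicit false
set_option maxSynthPendingDepth 3
set_option linter.unusedSectionVars false
set_option linter.unusedVariables false

open Set Filter Topology Metric Real Module MeasureTheory
open scoped ContDiff RealInnerProductSpace

noncomputable section

namespace Pool.Agent.Lib.MP_ccbbf6_gt.L5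

open Geo L4 L4.FR L4.ORI NEG

/-! ### the radial comparison -/

section radial

variable {κ : ℕ}

/-- `(x, r) ↦ r x` -/
def raM (κ : ℕ) : SMap ((spV 0).xV κ).xR ((spV 0).xV κ) :=
  ⟨fun q => ((0 : V 0), q.2 • q.1.2), fun k p => ⟨(contDiff_const : ContDiff ℝ ∞ fun _ => (0 : V 0)), p.2.2.smul p.2.1.2⟩⟩

/-- the origin -/
def zsV (κ : ℕ) : SMap (spV 0) ((spV 0).xV κ) := ⟨fun _ => ((0 : V 0), (0 : V κ)), fun _ _ =>
  ⟨(contDiff_const : ContDiff ℝ ∞ fun _ => (0 : V 0)), contDiff_const⟩⟩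

/-- `(y, r) ↦ r / |y|` -/
def hrY (κ : ℕ) (q : ((spV 0).xP κ).pt × ℝ) : ℝ := q.2 * ‖toE q.1.1.2‖⁻¹

theorem smR_hrY (κ : ℕ) : SmR ((spV 0).xP κ) (hrY κ) := fun k p => by
  have h1 : ContDiff ℝ ∞ fun x => (p.1 x).1.1.2 := p.2.1.2
  have h2 : ContDiff ℝ ∞ fun x => ‖toE (p.1 x).1.1.2‖⁻¹ := by
    refine ContDiff.inv (ContDiff.norm ℝ (contDiff_toE.comp h1) fun x => toE_ne (p.1 x).1.2) fun x => ?_
    exact norm_ne_zero_iff.2 (toE_ne (p.1 x).1.2)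
  exact p.2.2.mul h2

theorem rdM_eq (κ : ℕ) : rdM κ = ((raM κ).comp (inU ((spV 0).xV κ) (neZ (spV 0) κ)).up).comp (tO (smR_hrY κ)) :=
  SMap_ext fun q => rfl

theorem rad_eq {μ : Om ((spV 0).xV κ)} (hμ : ∀ (k : ℕ) (p : ((spV 0).xV κ).Plot k) (z : V k), 1 < ‖toE (p.1 z).2‖ → ev z (Om.on μ p) = 0) :
    SI κ (spV 0) (KO _ ((rdM κ).pull μ)) = SI κ (spV 0) ((inU ((spV 0).xV κ) (neZ (spV 0) κ)).pull (KO _ ((raM κ).pull μ))) := by
  refine SI_congr fun k p z hz => ?_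
  obtain ⟨θ, hθ⟩ : ∃ θ, θ = ((raM κ).comp (inU ((spV 0).xV κ) (neZ (spV 0) κ)).up).pull μ := ⟨_, rfl⟩
  have e1 : KO _ ((rdM κ).pull μ) = KO _ ((tO (smR_hrY κ)).pull θ) := by
    rw [rdM_eq, pull_comp, hθ]
  have e2 : (inU ((spV 0).xV κ) (neZ (spV 0) κ)).pull (KO _ ((raM κ).pull μ)) = KO _ θ := by
    rw [hθ]
    rfl
  rw [e1, e2, ← sub_eq_zero, ← Module.forall_dual_apply_eq_zero_iff ℝ]
  intro L
  have h1 : L (ev z (Om.on (KO _ ((tO (smR_hrY κ)).pull θ)) p)) =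
      ∫ t in hrY κ (p.1 z, 0)..hrY κ (p.1 z, 1), L (kil k (ctr (lst k) (ev (Fin.snoc z t) (Om.on θ p.up)))) := K_tO _ _ _ L z
  have h2 : L (ev z (Om.on (KO _ θ) p)) = ∫ t in (0 : ℝ)..1, L (kil k (ctr (lst k) (ev (Fin.snoc z t) (Om.on θ p.up)))) :=
    INTe_KK L z (Om.on θ p.up)
  have h3 : hrY κ (p.1 z, 0) = 0 := zero_mul _
  have h4 : hrY κ (p.1 z, 1) = ‖toE (p.1 z).1.2‖⁻¹ := one_mul _
  rw [map_sub, h1, h2, h3, h4, sub_eq_zero]
  have h5 : ‖toE (p.1 z).1.2‖⁻¹ ≤ 1 := inv_le_one_of_one_le₀ hz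
  have h6 := intervalIntegral.integral_add_adjacent_intervals (kc_int (Om.on θ p.up) L z 0 ‖toE (p.1 z).1.2‖⁻¹)
    (kc_int (Om.on θ p.up) L z ‖toE (p.1 z).1.2‖⁻¹ 1)
  have h7 : ∫ t in ‖toE (p.1 z).1.2‖⁻¹..1, L (kil k (ctr (lst k) (ev (Fin.snoc z t) (Om.on θ p.up)))) = 0 := by
    rw [intervalIntegral.integral_of_le h5]
    refine setIntegral_eq_zero_of_forall_eq_zero fun t ht => ?_
    have h8 : ev (Fin.snoc z t : V (k + 1)) (Om.on θ p.up) = 0 := by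
      rw [hθ]
      refine hμ (k + 1) (((raM κ).comp (inU ((spV 0).xV κ) (neZ (spV 0) κ)).up).pl p.up) _ ?_
      show 1 < ‖toE ((Fin.snoc z t : V (k + 1)) (Fin.last k) • (p.1 (pr k (Fin.snoc z t))).1.2)‖
      rw [snoc_last_val, pr_snoc]
      have h9 : toE (t • (p.1 z).1.2) = t • toE (p.1 z).1.2 := rfl
      have h10 : 0 < ‖toE (p.1 z).1.2‖ := norm_pos_iff.2 (toE_ne (p.1 z).2)
      have h11 : 0 < t := lt_of_lt_of_le (inv_pos.2 h10) ht.1.le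
      rw [h9, norm_smul, Real.norm_of_nonneg h11.le]
      calc (1 : ℝ) = ‖toE (p.1 z).1.2‖⁻¹ * ‖toE (p.1 z).1.2‖ := (inv_mul_cancel₀ h10.ne').symm
        _ < t * ‖toE (p.1 z).1.2‖ := mul_lt_mul_of_pos_right ht.1 h10
    rw [h8, map_zero, map_zero, map_zero]
  rw [h7, add_zero] at h6
  exact h6

theorem chiY_mul {μ : Om ((spV 0).xV κ)} (hμ : ∀ (k : ℕ) (p : ((spV 0).xV κ).Plot k) (z : V k), 1 < ‖toE (p.1 z).2‖ → ev z (Om.on μ p) = 0) :
    chiY κ (spV 0) * μ = μ := by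
  refine Om_ext fun k p => ev_ext fun z => ?_
  rw [on_mul, map_mul]
  by_cases h : 1 < ‖toE (p.1 z).2‖
  · rw [hμ k p z h, mul_zero]
  · have h1 : ev z (Om.on (chiY κ (spV 0)) p) = 1 := by
      unfold chiY
      rw [on_sub, on_one, map_sub, map_one, ev_chiX, L4.chi_zero (not_lt.1 h), map_zero, sub_zero]
    rw [h1, one_mul]

/-- **radial integration** -/
theorem SI_rdM (hκ : 1 ≤ κ) {μ : Om ((spV 0).xV κ)} (hD : Deg κ μ) (hd : dO _ μ = 0)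
    (hμ : ∀ (k : ℕ) (p : ((spV 0).xV κ).Plot k) (z : V k), 1 < ‖toE (p.1 z).2‖ → ev z (Om.on μ p) = 0) :
    SI κ (spV 0) (KO _ ((rdM κ).pull μ)) = JX κ (spV 0) μ := by
  obtain ⟨j, rfl⟩ : ∃ j, κ = j + 1 := ⟨κ - 1, by omega⟩
  have h1 : dO _ (KO _ ((raM (j + 1)).pull μ)) = μ := by
    have h2 := d_K ((raM (j + 1)).pull μ)
    rw [pull_d, hd, map_zero, map_zero, add_zero] at h2
    have h3 : (raM (j + 1)).comp (jO _ 1) = SMap.id _ := SMap_ext fun x => by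
      refine Prod.ext (Subsingleton.elim (α := V 0) _ _) ?_
      show (1 : ℝ) • x.2 = x.2
      exact one_smul _ _
    have h4 : (raM (j + 1)).comp (jO _ 0) = (zsV (j + 1)).comp (pV (spV 0) (j + 1)) :=
      SMap_ext fun x => by
        refine Prod.ext (Subsingleton.elim (α := V 0) _ _) ?_
        show (0 : ℝ) • x.2 = 0
        exact zero_smul _ _
    have h5 : (jO _ 0).pull ((raM (j + 1)).pull μ) = 0 := by
      rw [← pull_comp, h4]
      exact pull_low (dimLE_spV 0) _ _ hD (by omega)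
    have h6 : (jO _ 1).pull ((raM (j + 1)).pull μ) = μ := by
      rw [← pull_comp, h3, pull_id]
    rw [h5, h6, sub_zero] at h2
    exact h2
  rw [rad_eq hμ, SI_prim (N := j + 1) (by omega) (α := KO _ ((raM (j + 1)).pull μ)) (Deg_K (Deg_pull _ hD)) h1, chiY_mul hμ]

end radial

end Pool.Agent.Lib.MP_ccbbf6_gt.L5
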