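import Pool.Agent.Lib.MP_ccbbf6_gt.L5.DG10

/-!
# Level 5, DG13: `∫_(R^κ) ∫_s` as an integral over `R^(κ+1)`; the transition function (helper2)
-/

set_option autoImplicit false
set_option maxSynthPendingDepth 3
set_option linter.unusedSectionVars false
set_option linter.unusedVariables false

open Set Filter Topology Metric Real Module MeasureTheory
open scoped ContDiff RealInnerProductSpace

noncomputable section

namespace Pool.Agent.Lib.MP_ccbbf6_gt.L5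

open Geo L4 L4.FR L4.ORI NEG

/-! ### the transition function -/

/-- from `0` (for `s ≤ -1/2`) to `1` (for `s ≥ 1/2`) -/
def sgF (s : ℝ) : ℝ := Real.smoothTransition (s + 1 / 2)

theorem sgF_smooth : ContDiff ℝ ∞ sgF := Real.smoothTransition.contDiff.comp (contDiff_id.add contDiff_const)

theorem sgF_low {s : ℝ} (h : s ≤ -(1 / 2)) : sgF s = 0 := Real.smoothTransition.zero_of_nonpos (by linarith)

theorem sgF_high {s : ℝ} (h : 1 / 2 ≤ s) : sgF s = 1 := Real.smoothTransition.one_of_one_le (by linarith)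

theorem sgF_nonneg (s : ℝ) : 0 ≤ sgF s := Real.smoothTransition.nonneg _

theorem sgF_le (s : ℝ) : sgF s ≤ 1 := Real.smoothTransition.le_one _

theorem glue_eq {x : ℝ} (h : 0 < x) : expNegInvGlue x = Real.exp (-x⁻¹) := by
  unfold expNegInvGlue
  rw [if_neg (not_le.2 h)]

theorem sgF_zero : sgF 0 = 1 / 2 := by
  unfold sgF Real.smoothTransition
  have h1 : (1 - (0 + 1 / 2) : ℝ) = 0 + 1 / 2 := by norm_num
  rw [h1]
  have h2 : 0 < expNegInvGlue (0 + 1 / 2) := expNegInvGlue.pos_of_pos (by norm_num)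
  field_simp
  ring

theorem sgF_ne {s : ℝ} (h : s ≠ 0) : sgF s ≠ 1 / 2 := by
  intro h1
  rcases le_or_gt s (-(1 / 2)) with h2 | h2
  · rw [sgF_low h2] at h1
    norm_num at h1
  rcases le_or_gt (1 / 2) s with h3 | h3
  · rw [sgF_high h3] at h1
    norm_num at h1
  have e1 : 0 < s + 1 / 2 := by linarith
  have e2 : 0 < 1 - (s + 1 / 2) := by linarith
  have p1 := expNegInvGlue.pos_of_pos e1
  have p2 := expNegInvGlue.pos_of_pos e2
  unfold sgF Real.smoothTransition at h1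
  have h4 : expNegInvGlue (s + 1 / 2) = expNegInvGlue (1 - (s + 1 / 2)) := by
    rw [div_eq_iff (by positivity)] at h1
    linarith
  rw [glue_eq e1, glue_eq e2] at h4
  have h5 := Real.exp_injective h4
  have h6 : (s + 1 / 2)⁻¹ = (1 - (s + 1 / 2))⁻¹ := by linarith
  have h7 := inv_injective h6
  apply h
  linarith

theorem sgF_deriv : HasDerivAt sgF 2 0 := by
  have h1 : HasDerivAt (fun x : ℝ => Real.exp (-x⁻¹)) (Real.exp (-(1 / 2 : ℝ)⁻¹) * (-(-((1 / 2 : ℝ) ^ 2)⁻¹))) (1 / 2) :=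
    ((hasDerivAt_inv (by norm_num : (1 / 2 : ℝ) ≠ 0)).neg).exp
  have h2 : HasDerivAt expNegInvGlue (Real.exp (-(1 / 2 : ℝ)⁻¹) * (-(-((1 / 2 : ℝ) ^ 2)⁻¹))) (1 / 2) := by
    refine h1.congr_of_eventuallyEq ?_
    filter_upwards [lt_mem_nhds (show (0 : ℝ) < 1 / 2 by norm_num)] with x hx
    exact glue_eq hx
  obtain ⟨E, hE⟩ : ∃ E, E = Real.exp (-(1 / 2 : ℝ)⁻¹) := ⟨_, rfl⟩
  have hE0 : 0 < E := by rw [hE]; exact Real.exp_pos _
  have hv : expNegInvGlue (1 / 2) = E := by rw [glue_eq (by norm_num), hE]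
  have h3 : HasDerivAt expNegInvGlue (4 * E) (1 / 2) := by
    have : Real.exp (-(1 / 2 : ℝ)⁻¹) * (-(-((1 / 2 : ℝ) ^ 2)⁻¹)) = 4 * E := by
      rw [hE]
      norm_num
      ring
    rw [← this]
    exact h2
  have h4 : HasDerivAt (fun s : ℝ => s + 1 / 2) 1 0 := (hasDerivAt_id (0 : ℝ)).add_const _
  have h5 : HasDerivAt (fun s : ℝ => 1 - (s + 1 / 2)) (-1) 0 := by
    have := h4.const_sub 1
    exact this
  have h6 : HasDerivAt (fun s : ℝ => expNegInvGlue (s + 1 / 2)) (4 * E * 1) 0 := by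
    refine HasDerivAt.comp (h₂ := expNegInvGlue) (h := fun s : ℝ => s + 1 / 2) 0 ?_ h4
    rw [zero_add]
    exact h3
  have h7 : HasDerivAt (fun s : ℝ => expNegInvGlue (1 - (s + 1 / 2))) (4 * E * -1) 0 := by
    refine HasDerivAt.comp (h₂ := expNegInvGlue) (h := fun s : ℝ => 1 - (s + 1 / 2)) 0 ?_ h5
    have : (1 - (0 + 1 / 2) : ℝ) = 1 / 2 := by norm_num
    rw [this]
    exact h3
  have h8 := h6.div (h6.add h7) (by
    show expNegInvGlue (0 + 1 / 2) + expNegInvGlue (1 - (0 + 1 / 2)) ≠ 0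
    have : (1 - (0 + 1 / 2) : ℝ) = 1 / 2 := by norm_num
    rw [this, zero_add, hv]
    positivity)
  have h9 : (4 * E * 1 * (expNegInvGlue (0 + 1 / 2) + expNegInvGlue (1 - (0 + 1 / 2))) -
      expNegInvGlue (0 + 1 / 2) * (4 * E * 1 + 4 * E * -1)) / (expNegInvGlue (0 + 1 / 2) + expNegInvGlue (1 - (0 + 1 / 2))) ^ 2 = 2 := by
    have : (1 - (0 + 1 / 2) : ℝ) = 1 / 2 := by norm_num
    rw [this, zero_add, hv]
    field_simp
    ring
  have h10 : HasDerivAt (fun s : ℝ => expNegInvGlue (s + 1 / 2) / (expNegInvGlue (s + 1 / 2) + expNegInvGlue (1 - (s + 1 / 2)))) 2 0 := by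
    exact h8.congr_deriv h9
  exact h10

/-! ### one more variable -/

section var

variable {κ : ℕ}

/-- `(x, s) ↦ (x, σ s)` -/
def gsM (κ : ℕ) : SMap ((spV 0).xV (κ + 1)) (((spV 0).xV κ).xR) :=
  ⟨fun q => (((0 : V 0), pr κ q.2), sgF (q.2 (Fin.last κ))), fun k p =>
    ⟨⟨(contDiff_const : ContDiff ℝ ∞ fun _ => (0 : V 0)), (pr κ).smooth.comp p.2.2⟩, sgF_smooth.comp (contDiff_pi.1 p.2.2 (Fin.last κ))⟩⟩

/-- `(x, s) ↦ x` -/
def a1M (κ : ℕ) : SMap ((spV 0).xV (κ + 1)) ((spV 0).xV κ) :=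
  ⟨fun q => ((0 : V 0), pr κ q.2), fun k p => ⟨(contDiff_const : ContDiff ℝ ∞ fun _ => (0 : V 0)), (pr κ).smooth.comp p.2.2⟩⟩

theorem JX_gsM (θ : Om ((spV 0).xV κ).xR) : JX (κ + 1) (spV 0) ((gsM κ).pull θ) = JX κ (spV 0) (KO _ θ) := by
  refine Om_ext fun k P => ?_
  have h1 : Om.on (JX (κ + 1) (spV 0) ((gsM κ).pull θ)) P =
      Jc k κ (KK (k + κ) (Om.on θ (((gsM κ).pl (P.xV (κ + 1))).cmp (scM k (κ + 1))))) := by
    rw [on_JX, on_cmp]
    rfl
  have h2 : Om.on (JX κ (spV 0) (KO _ θ)) P = Jc k κ (KK (k + κ) (Om.on θ ((P.xV κ).up.cmp (scM k κ).up))) := by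
    rw [on_JX, on_cmp]
    have h3 : Jn k κ (Om.on (KO _ θ) (P.xV κ)) = Jc k κ (pb (scM k κ) (KK (k + κ) (Om.on θ (P.xV κ).up))) := rfl
    rw [h3, ← KK_up]
  rw [h1, h2]
  congr 1
  let g : FR.Sm (k + κ + 1) (k + κ + 1) := ⟨fun w => Fin.snoc (pr (k + κ) w) (sgF (6 * w (Fin.last (k + κ)) - 3)),
    contDiff_snoc.comp ((pr (k + κ)).smooth.prodMk (sgF_smooth.comp ((contDiff_const.mul (contDiff_apply ℝ ℝ (Fin.last (k + κ)))).sub contDiff_const)))⟩
  have hg : ∀ w, pr (k + κ) (g w) = pr (k + κ) w := fun w => pr_snoc _ _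
  have hgl : ∀ w, g w (Fin.last (k + κ)) = sgF (6 * w (Fin.last (k + κ)) - 3) := fun w => snoc_last_val _ _
  have h3 : ((gsM κ).pl (P.xV (κ + 1))).cmp (scM k (κ + 1)) = ((P.xV κ).up.cmp (scM k κ).up).cmp g := by
    refine Plot_ext fun w => ?_
    refine Prod.ext (Prod.ext (Subsingleton.elim (α := V 0) _ _) ?_) ?_
    · show pr κ (tlM k (κ + 1) (scM k (κ + 1) w)) = tlM k κ (pr (k + κ) ((scM k κ).up (g w)))
      have e1 : pr (k + κ) ((scM k κ).up (g w)) = scM k κ (pr (k + κ) (g w)) := pr_snoc _ _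
      rw [e1, hg, tl_scM, tl_scM]
      rfl
    · show sgF (tlM k (κ + 1) (scM k (κ + 1) w) (Fin.last κ)) = (scM k κ).up (g w) (Fin.last (k + κ))
      have e1 : (scM k κ).up (g w) (Fin.last (k + κ)) = g w (Fin.last (k + κ)) := snoc_last_val _ _
      rw [e1, hgl, tl_scM]
      rfl
  rw [h3, on_cmp]
  refine KK_sub_eq hg (fun z => ?_) (fun z => ?_) _
  · rw [hgl, snoc_last_val]
    exact sgF_low (by norm_num)
  · rw [hgl, snoc_last_val]
    exact sgF_high (by norm_num)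

end var

end Pool.Agent.Lib.MP_ccbbf6_gt.L5
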