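import Pool.Agent.Lib.MP_ccbbf6_gt.L5.NC4

/-!
# Level 5, DG14: first variation of the two distances (helper2)
-/

set_option autoImplicit false
set_option maxSynthPendingDepth 3
set_option linter.unusedSectionVars false
set_option linter.unusedVariables false

open Set Filter Topology Metric Real Module
open scoped ContDiff RealInnerProductSpace

noncomputable section

namespace Pool.Agent.Lib.MP_ccbbf6_gt.L5

open Geo L4 L4.FR L4.ORI NEG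

variable {n : ℕ} {M : Type} [MetricSpace M] [CompactSpace M] {𝒜 : SDist n M} {N κ : ℕ} {C : Eu N → Gs M → M}
  {P : Gs M → Eu N →L[ℝ] Eu N} {f : Gs M → Eu N → M}

/-- a function of two variables along a curve -/
theorem two_par {F : ℝ × ℝ → Eu n} {a : ℝ} (hF : DifferentiableAt ℝ F (0, a)) {A B : Eu n} (hA : HasDerivAt (fun t => F (t, a)) A 0)
    (hB : HasDerivAt (fun r => F (0, r)) B a) {r : ℝ → ℝ} {r' : ℝ} (hr0 : r 0 = a) (hr : HasDerivAt r r' 0) :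
    HasDerivAt (fun t => F (t, r t)) (A + r' • B) 0 := by
  have h1 : HasFDerivAt F (fderiv ℝ F (0, a)) (0, a) := hF.hasFDerivAt
  have h2 : HasDerivAt (fun t => F (t, a)) (fderiv ℝ F (0, a) (1, 0)) 0 := by
    have h3 : HasDerivAt (fun t : ℝ => (t, a)) ((1 : ℝ), (0 : ℝ)) 0 := (hasDerivAt_id (0 : ℝ)).prodMk (hasDerivAt_const (0 : ℝ) a)
    exact HasFDerivAt.comp_hasDerivAt (0 : ℝ) h1 h3
  have h4 : HasDerivAt (fun r => F (0, r)) (fderiv ℝ F (0, a) (0, 1)) a := by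
    have h3 : HasDerivAt (fun r : ℝ => ((0 : ℝ), r)) ((0 : ℝ), (1 : ℝ)) a := (hasDerivAt_const a (0 : ℝ)).prodMk (hasDerivAt_id a)
    exact HasFDerivAt.comp_hasDerivAt a h1 h3
  have h5 : HasDerivAt (fun t => F (t, r t)) (fderiv ℝ F (0, a) (1, r')) 0 := by
    have h3 : HasDerivAt (fun t : ℝ => (t, r t)) ((1 : ℝ), r') 0 := (hasDerivAt_id (0 : ℝ)).prodMk hr
    have h6 : HasFDerivAt F (fderiv ℝ F (0, a)) ((0 : ℝ), r 0) := by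
      rw [hr0]
      exact h1
    exact HasFDerivAt.comp_hasDerivAt (0 : ℝ) h6 h3
  have h7 : ((1 : ℝ), r') = ((1 : ℝ), (0 : ℝ)) + r' • ((0 : ℝ), (1 : ℝ)) := by
    ext <;> simp
  rw [h7, map_add, map_smul, h2.unique hA, h4.unique hB] at h5
  exact h5

/-- first variation of the two distances to the midpoint -/
theorem two_dist (hB : Bl M) {c : Gs M} {w : Eu n} (hw : w ∈ 𝒜.PV (c.1 0) (𝒜.vel c.1 0)) (h1 : ‖w‖ = 1) {α β : ℝ → M} {A B : Eu n}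
    (hα : ContinuousAt α 0) (hβ : ContinuousAt β 0) (hα0 : α 0 = c.1 0) (hβ0 : β 0 = c.1 π)
    (hA : HasDerivAt (fun t => 𝒜.ψ (c.1 0) (α t)) A 0) (hBd : HasDerivAt (fun t => 𝒜.ψ (c.1 π) (β t)) B 0) :
    HasDerivAt (fun t => dist (α t) ((gw 𝒜 hB c w).1 (π / 2)) + dist ((gw 𝒜 hB c w).1 (π / 2)) (β t))
      (-⟪w, A⟫ + ⟪𝒜.vel (gw 𝒜 hB c w).1 π, B⟫) 0 := by
  have hπ := Real.pi_pos
  have hw0 : w ≠ 0 := by
    intro h0
    rw [h0, norm_zero] at h1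
    exact zero_ne_one h1
  obtain ⟨g, hg⟩ : ∃ g, g = gw 𝒜 hB c w := ⟨_, rfl⟩
  have hg0 : g.1 0 = c.1 0 := by rw [hg]; exact gw_zero 𝒜 hB c w
  have hgv : 𝒜.vel g.1 0 = w := by rw [hg, gw_vel 𝒜 hB c hw0, nrm_of_norm h1]
  have hgπ : g.1 π = c.1 π := by rw [hg]; exact top_of_mem 𝒜 hB c hw0 hw
  have a1 : |(0 : ℝ) - π / 2| = π / 2 := by rw [zero_sub, abs_neg, abs_of_pos (by positivity)]
  have a2 : |π - π / 2| = π / 2 := by rw [sub_half, abs_of_pos (by positivity)]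
  have hd1 : dist (g.1 0) (g.1 (π / 2)) = π / 2 := by rw [nc2_dist_eq g (by rw [a1]; linarith), a1]
  have hd2 : dist (g.1 π) (g.1 (π / 2)) = π / 2 := by rw [nc2_dist_eq g (by rw [a2]; linarith), a2]
  have e1 : HasDerivAt (fun θ => dist (g.1 (π / 2)) (α θ)) (-⟪w, A⟫) 0 := by
    have h2 := nc2_dist (𝒜 := 𝒜) hB (p := g.1 0) (q := g.1 (π / 2)) (by rw [hd1]; positivity) (by rw [hd1]; linarith) hα
      (by rw [hα0, hg0]) (by rw [hg0]; exact hA)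
    have h3 := D1_forward 𝒜 hB g.2 (s := 0) (t := π / 2) (by positivity) (by linarith) A
    rw [zero_add] at h3
    rw [h3, hgv] at h2
    exact h2
  have e2 : HasDerivAt (fun θ => dist (g.1 (π / 2)) (β θ)) ⟪𝒜.vel g.1 π, B⟫ 0 := by
    have h2 := nc2_dist (𝒜 := 𝒜) hB (p := g.1 π) (q := g.1 (π / 2)) (by rw [hd2]; positivity) (by rw [hd2]; linarith) hβ
      (by rw [hβ0, hgπ]) (by rw [hgπ]; exact hBd)
    have h3 := D1_backward 𝒜 hB g.2 (s := π) (t := π / 2) (by positivity) (by linarith) B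
    rw [sub_half] at h3
    rw [h3] at h2
    exact h2
  rw [← hg]
  have h4 : (fun t => dist (α t) (g.1 (π / 2)) + dist (g.1 (π / 2)) (β t)) =
      fun t => dist (g.1 (π / 2)) (α t) + dist (g.1 (π / 2)) (β t) := by
    funext t
    rw [dist_comm (α t)]
  rw [h4]
  exact e1.add e2

/-- the value at a linear isometry: `⟪γ_w'(π), B⟫` for `B = θ X1 (c π) ξ + s c'(π)` -/
theorem inner_top (hB : Bl M) (hC : PFam 𝒜 C) {c : Gs M} {w : Eu n} (hw : w ∈ 𝒜.PV (c.1 0) (𝒜.vel c.1 0)) (h1 : ‖w‖ = 1) (θ s : ℝ) (ξ : Eu N) :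
    -⟪w, θ • X1 𝒜 C c ξ⟫ + ⟪𝒜.vel (gw 𝒜 hB c w).1 π, θ • X1 𝒜 C (shift π c) ξ + s • 𝒜.vel c.1 π⟫ =
      -⟪w, θ • evc 𝒜 hB C c ξ - s • 𝒜.vel c.1 0⟫ := by
  obtain ⟨B, hBe⟩ : ∃ B, B = θ • X1 𝒜 C (shift π c) ξ + s • 𝒜.vel c.1 π := ⟨_, rfl⟩
  obtain ⟨A, hA⟩ := exists_all (𝒜 := 𝒜) hB c B
  have hv : ‖𝒜.vel c.1 0‖ = 1 := vel_norm 𝒜 c
  have hvπ : ⟪𝒜.vel c.1 π, 𝒜.vel c.1 π⟫ = 1 := by
    rw [real_inner_self_eq_norm_sq, (IsGeo.exists_vel 𝒜 c.2 π).1, one_pow]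
  have e1 := top_inner hB hA hw h1
  -- decomposition
  obtain ⟨r, hr⟩ : ∃ r, r = ⟪𝒜.vel c.1 0, w⟫ := ⟨_, rfl⟩
  obtain ⟨k, hk⟩ : ∃ k, k = w - r • 𝒜.vel c.1 0 := ⟨_, rfl⟩
  have hself : 𝒜.vel c.1 0 ∈ 𝒜.PV (c.1 0) (𝒜.vel c.1 0) := mem_PV_of_top 𝒜 hB rfl rfl
  have hkK : k ∈ NEG.Kc 𝒜 c := by
    refine mem_Kc_iff.2 ⟨?_, ?_⟩
    · rw [hk]
      exact Submodule.sub_mem _ hw (Submodule.smul_mem _ _ hself)
    · rw [hk, inner_sub_right, real_inner_smul_right,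
        real_inner_self_eq_norm_sq, hv, one_pow, mul_one, ← hr, sub_self]
  have hwk : w = k + r • 𝒜.vel c.1 0 := by rw [hk, sub_add_cancel]
  have hKv : ⟪k, 𝒜.vel c.1 0⟫ = 0 := by
    rw [real_inner_comm]
    exact (mem_Kc_iff.1 hkK).2
  have e2 : ⟪k, A⟫ = ⟪thK 𝒜 hB c k, B⟫ := thK_inner hB hA hkK
  have e3 : ⟪𝒜.vel c.1 0, A⟫ = ⟪𝒜.vel c.1 π, B⟫ := var_vel hB hA
  have hn0 : ⟪𝒜.vel c.1 0, X1 𝒜 C c ξ⟫ = 0 := hC.normal c ξ
  have hshv : 𝒜.vel (shift π c).1 0 = 𝒜.vel c.1 π := by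
    rw [nc2_vel_shift, zero_add]
  have hnπ : ⟪𝒜.vel c.1 π, X1 𝒜 C (shift π c) ξ⟫ = 0 := by
    rw [← hshv]
    exact hC.normal _ ξ
  have hth : ⟪thK 𝒜 hB c k, 𝒜.vel c.1 π⟫ = 0 := by
    have h3 := (mem_Kc_iff.1 (thK_mem (𝒜 := 𝒜) hB hkK)).2
    rw [hshv, real_inner_comm] at h3
    exact h3
  have hev : ⟪evc 𝒜 hB C c ξ, k⟫ = ⟪X1 𝒜 C c ξ, k⟫ - ⟪X1 𝒜 C (shift π c) ξ, thK 𝒜 hB c k⟫ := evc_inner hB c ξ hkK
  have hevv : ⟪𝒜.vel c.1 0, evc 𝒜 hB C c ξ⟫ = 0 :=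
    (mem_Kc_iff.1 (evc_mem (𝒜 := 𝒜) (C := C) hB c ξ)).2
  rw [← hBe, ← e1]
  have e4 : ⟪w, A⟫ = θ * ⟪thK 𝒜 hB c k, X1 𝒜 C (shift π c) ξ⟫ + r * s := by
    rw [hwk, inner_add_left, real_inner_smul_left, e2, e3, hBe, inner_add_right, inner_add_right, real_inner_smul_right,
      real_inner_smul_right, real_inner_smul_right, real_inner_smul_right, hth, hnπ, hvπ]
    ring
  have e5 : ⟪w, θ • X1 𝒜 C c ξ⟫ = θ * ⟪k, X1 𝒜 C c ξ⟫ := by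
    rw [hwk, inner_add_left, real_inner_smul_left, real_inner_smul_right, real_inner_smul_right, hn0]
    ring
  have e6 : ⟪w, θ • evc 𝒜 hB C c ξ - s • 𝒜.vel c.1 0⟫ = θ * ⟪k, evc 𝒜 hB C c ξ⟫ - r * s := by
    rw [hwk, inner_add_left, real_inner_smul_left, inner_sub_right, inner_sub_right, real_inner_smul_right,
      real_inner_smul_right, real_inner_smul_right, real_inner_smul_right, hKv, hevv, real_inner_self_eq_norm_sq, hv]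
    ring
  rw [e4, e5, e6, real_inner_comm (evc 𝒜 hB C c ξ) k, hev, real_inner_comm k (X1 𝒜 C c ξ),
    real_inner_comm (thK 𝒜 hB c k) (X1 𝒜 C (shift π c) ξ)]
  ring

end Pool.Agent.Lib.MP_ccbbf6_gt.L5
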