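import Pool.Agent.Lib.MP_ccbbf6_gt.L5.DG13
import Pool.Agent.Lib.MP_ccbbf6_gt.L5.DG14

/-!
# Level 5, DG15: the two maps on `R^(κ+1)` and the derivative of the broken distance (helper2)
-/

set_option autoImplicit false
set_option maxSynthPendingDepth 3
set_option linter.unusedSectionVars false
set_option linter.unusedVariables false

open Set Filter Topology Metric Real Module
open scoped ContDiff RealInnerProductSpace

noncomputable section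

namespace Pool.Agent.Lib.MP_ccbbf6_gt.L5

open Geo L4 L4.FR L4.ORI NEG

variable {n : ℕ} {M : Type} [MetricSpace M] [CompactSpace M] {𝒜 : SDist n M} {N κ : ℕ} {C : Eu N → Gs M → M}
  {P : Gs M → Eu N →L[ℝ] Eu N} {f : Gs M → Eu N → M}

/-- the two maps -/
def g1f (f : Gs M → Eu N → M) (c : Gs M) (b : Fin κ → Eu N) (z : V (κ + 1)) : M := f c (vcN b (pr κ z))

def g2f (f : Gs M → Eu N → M) (c : Gs M) (b : Fin κ → Eu N) (z : V (κ + 1)) : M :=
  f (shift (2 * π * sgF (z (Fin.last κ))) c) (vcN b (pr κ z))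

theorem InP_zero (c : Gs M) : InP P c 0 := map_zero _

theorem fill_zero (hF : FillP 𝒜 C P f) (hC : PFam 𝒜 C) (c : Gs M) : f c 0 = c.1 0 := by
  obtain ⟨θ, r, hθ, hr, h⟩ := hF.near
  rw [h c 0 (InP_zero c) (by rw [norm_zero]; exact hr.le), smul_zero, hC.Cx_zero]

theorem sm_g1f (hF : FillP 𝒜 C P f) {c : Gs M} {b : Fin κ → Eu N} (hb : IsNF P κ c b) : Sm 𝒜 (g1f (κ := κ) f c b) :=
  hF.smooth (σ := fun _ : V (κ + 1) => c) (x := fun z : V (κ + 1) => vcN b (pr κ z)) ⟨sm_const _, sm_const _⟩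
    (contDiff_vcN b (pr κ).smooth) fun z => hb.inP' _

theorem sm_g2f (hB : Bl M) (hN : NegData 𝒜 κ hB C P) (hF : FillP 𝒜 C P f) {c : Gs M} {b : Fin κ → Eu N} (hb : IsNF P κ c b) :
    Sm 𝒜 (g2f (κ := κ) f c b) := by
  have h0 : SmG 𝒜 (fun _ : V (κ + 1) => c) := ⟨sm_const _, sm_const _⟩
  refine hF.smooth (σ := fun z : V (κ + 1) => shift (2 * π * sgF (z (Fin.last κ))) c) (x := fun z : V (κ + 1) => vcN b (pr κ z))
    (SmG.shift hB h0 (contDiff_const.mul (sgF_smooth.comp (contDiff_apply ℝ ℝ (Fin.last κ))))) (contDiff_vcN b (pr κ).smooth) fun z => ?_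
  show P (shift _ c) _ = _
  rw [hN.inv]
  exact hb.inP' _

theorem g1f_zero (hF : FillP 𝒜 C P f) (hC : PFam 𝒜 C) (c : Gs M) (b : Fin κ → Eu N) : g1f (κ := κ) f c b 0 = c.1 0 := by
  unfold g1f
  have h1 : pr κ (0 : V (κ + 1)) = 0 := rfl
  rw [h1, vcN_zero, fill_zero hF hC]

theorem g2f_zero (hF : FillP 𝒜 C P f) (hC : PFam 𝒜 C) (c : Gs M) (b : Fin κ → Eu N) : g2f (κ := κ) f c b 0 = c.1 π := by
  unfold g2f
  have h1 : pr κ (0 : V (κ + 1)) = 0 := rfl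
  have h2 : (0 : V (κ + 1)) (Fin.last κ) = 0 := rfl
  rw [h1, vcN_zero, fill_zero hF hC, h2, sgF_zero]
  show c.1 (0 + 2 * π * (1 / 2)) = c.1 π
  exact congrArg c.1 (by ring)

theorem ev_near (ξ : Eu N) {r : ℝ} (hr : 0 < r) : ∀ᶠ t : ℝ in 𝓝 0, ‖t • ξ‖ ≤ r := by
  have h1 : Continuous fun t : ℝ => ‖t • ξ‖ := (continuous_id.smul continuous_const).norm
  have h2 : ∀ᶠ t : ℝ in 𝓝 0, ‖t • ξ‖ < r := h1.continuousAt.eventually (gt_mem_nhds (by simp only [zero_smul, norm_zero]; exact hr))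
  exact h2.mono fun t ht => ht.le

theorem fill_deriv [Nonempty (Gs M)] (hB : Bl M) (e : Emb n 𝒜) (hC : PFam 𝒜 C) {θ r : ℝ} (hr : 0 < r)
    (hn : ∀ c x, InP P c x → ‖x‖ ≤ r → f c x = Cx 𝒜 C (θ • x) c) (c : Gs M) {ξ : Eu N} (hξ : InP P c ξ) :
    HasDerivAt (fun t : ℝ => 𝒜.ψ (c.1 0) (f c (t • ξ))) (θ • X1 𝒜 C c ξ) 0 := by
  have h1 := hC.Cx_var hB e (θ • ξ) c
  rw [map_smul] at h1
  refine h1.congr_of_eventuallyEq ?_
  filter_upwards [ev_near ξ hr] with t ht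
  rw [hn c (t • ξ) (InP_smul hξ t) ht, smul_comm]

variable {θ r : ℝ}

theorem g1f_deriv [Nonempty (Gs M)] (hB : Bl M) (e : Emb n 𝒜) (hC : PFam 𝒜 C) (hr : 0 < r)
    (hn : ∀ c x, InP P c x → ‖x‖ ≤ r → f c x = Cx 𝒜 C (θ • x) c) {c : Gs M} {b : Fin κ → Eu N} (hb : IsNF P κ c b) (z : V (κ + 1)) :
    HasDerivAt (fun t : ℝ => 𝒜.ψ (c.1 0) (g1f f c b (t • z))) (θ • X1 𝒜 C c (vcN b (pr κ z))) 0 := by
  have h1 := fill_deriv hB e hC hr hn c (hb.inP' (pr κ z))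
  have h2 : (fun t : ℝ => 𝒜.ψ (c.1 0) (g1f f c b (t • z))) = fun t : ℝ => 𝒜.ψ (c.1 0) (f c (t • vcN b (pr κ z))) := by
    funext t
    unfold g1f
    have h3 : pr κ (t • z) = t • pr κ z := rfl
    rw [h3, vcN_smul]
  rw [h2]
  exact h1

theorem g2f_deriv [Nonempty (Gs M)] (hB : Bl M) (e : Emb n 𝒜) (hN : NegData 𝒜 κ hB C P) (hF : FillP 𝒜 C P f) (hr : 0 < r)
    (hn : ∀ c x, InP P c x → ‖x‖ ≤ r → f c x = Cx 𝒜 C (θ • x) c) {c : Gs M} {b : Fin κ → Eu N} (hb : IsNF P κ c b) (z : V (κ + 1)) :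
    HasDerivAt (fun t : ℝ => 𝒜.ψ (c.1 π) (g2f f c b (t • z)))
      (θ • X1 𝒜 C (shift π c) (vcN b (pr κ z)) + (4 * π * z (Fin.last κ)) • 𝒜.vel c.1 π) 0 := by
  obtain ⟨ξ, hξ⟩ : ∃ ξ, ξ = vcN b (pr κ z) := ⟨_, rfl⟩
  have hξP : InP P c ξ := by rw [hξ]; exact hb.inP' _
  have hC := hN.fam
  have hPs : ∀ s, InP P (shift s c) ξ := fun s => by
    show P (shift s c) ξ = ξ
    rw [hN.inv]
    exact hξP
  have hsh : (shift π c).1 0 = c.1 π := by
    show c.1 (0 + π) = _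
    rw [zero_add]
  obtain ⟨F, hFd⟩ : ∃ F : ℝ × ℝ → Eu n, F = fun v => 𝒜.ψ (c.1 π) (f (shift v.2 c) (v.1 • ξ)) := ⟨_, rfl⟩
  have h0 : SmG 𝒜 (fun _ : ℝ × ℝ => c) := ⟨sm_const _, sm_const _⟩
  have hS : Sm 𝒜 (fun v : ℝ × ℝ => f (shift v.2 c) (v.1 • ξ)) :=
    hF.smooth (σ := fun v : ℝ × ℝ => shift v.2 c) (x := fun v : ℝ × ℝ => v.1 • ξ) (SmG.shift hB h0 contDiff_snd)
      (contDiff_fst.smul contDiff_const) fun v => InP_smul (hPs _) _
  have hbase : f (shift (0, π).2 c) ((0 : ℝ) • ξ) = c.1 π := by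
    rw [zero_smul, fill_zero hF hC]
    exact hsh
  have hFdiff : DifferentiableAt ℝ F (0, π) := by
    have h1 := (hS (0, π)).2
    have h2 : f (shift ((0 : ℝ), π).2 c) (((0 : ℝ), π).1 • ξ) = c.1 π := hbase
    rw [hFd]
    have h3 : ContDiffAt ℝ ∞ (fun v : ℝ × ℝ => 𝒜.ψ (c.1 π) (f (shift v.2 c) (v.1 • ξ))) (0, π) := by
      rw [← h2]
      exact h1
    exact h3.differentiableAt (by simp)
  have hA : HasDerivAt (fun t => F (t, π)) (θ • X1 𝒜 C (shift π c) ξ) 0 := by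
    have h1 := fill_deriv hB e hC hr hn (shift π c) (hPs π)
    rw [hsh] at h1
    rw [hFd]
    exact h1
  have hBd : HasDerivAt (fun s => F (0, s)) (𝒜.vel c.1 π) π := by
    have h1 : HasDerivAt (fun t => 𝒜.ψ (c.1 π) (c.1 t)) (𝒜.vel c.1 π) π := (IsGeo.exists_vel 𝒜 c.2 π).2
    have h2 : (fun s => F (0, s)) = fun t => 𝒜.ψ (c.1 π) (c.1 t) := by
      funext s
      rw [hFd]
      show 𝒜.ψ (c.1 π) (f (shift s c) ((0 : ℝ) • ξ)) = _
      rw [zero_smul, fill_zero hF hC]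
      show 𝒜.ψ (c.1 π) (c.1 (0 + s)) = _
      rw [zero_add]
    rw [h2]
    exact h1
  have hr' : HasDerivAt (fun t : ℝ => 2 * π * sgF (t * z (Fin.last κ))) (4 * π * z (Fin.last κ)) 0 := by
    have h1 : HasDerivAt (fun t : ℝ => t * z (Fin.last κ)) (z (Fin.last κ)) 0 := by
      have := (hasDerivAt_id (0 : ℝ)).mul_const (z (Fin.last κ))
      rwa [one_mul] at this
    have h2 : HasDerivAt sgF 2 (0 * z (Fin.last κ)) := by
      rw [zero_mul]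
      exact sgF_deriv
    have h3 := (HasDerivAt.comp (h₂ := sgF) (h := fun t : ℝ => t * z (Fin.last κ)) 0 h2 h1).const_mul (2 * π)
    have h4 : 2 * π * (2 * z (Fin.last κ)) = 4 * π * z (Fin.last κ) := by ring
    rw [h4] at h3
    exact h3
  have hr0 : (fun t : ℝ => 2 * π * sgF (t * z (Fin.last κ))) 0 = π := by
    show 2 * π * sgF (0 * z (Fin.last κ)) = π
    rw [zero_mul, sgF_zero]
    ring
  have h5 := two_par hFdiff hA hBd hr0 hr'
  have h6 : (fun t : ℝ => 𝒜.ψ (c.1 π) (g2f f c b (t • z))) = fun t : ℝ => F (t, 2 * π * sgF (t * z (Fin.last κ))) := by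
    funext t
    rw [hFd]
    unfold g2f
    have h3 : pr κ (t • z) = t • pr κ z := rfl
    have h4 : (t • z) (Fin.last κ) = t * z (Fin.last κ) := rfl
    rw [h3, vcN_smul, h4, ← hξ]
  rw [h6, ← hξ]
  exact h5

/-- the derivative at the origin -/
def LN (𝒜 : SDist n M) (hB : Bl M) (C : Eu N → Gs M → M) (c : Gs M) (b : Fin κ → Eu N) (θ : ℝ) : V (κ + 1) →ₗ[ℝ] Eu n where
  toFun z := θ • evc 𝒜 hB C c (vcN b (pr κ z)) - (4 * π * z (Fin.last κ)) • 𝒜.vel c.1 0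
  map_add' z z' := by
    have h1 : pr κ (z + z') = pr κ z + pr κ z' := rfl
    have h2 : vcN b (pr κ z + pr κ z') = vcN b (pr κ z) + vcN b (pr κ z') := by
      unfold vcN
      rw [← Finset.sum_add_distrib]
      exact Finset.sum_congr rfl fun i _ => by rw [Pi.add_apply, add_smul]
    rw [h1, h2, evc_add, Pi.add_apply]
    module
  map_smul' t z := by
    have h1 : pr κ (t • z) = t • pr κ z := rfl
    rw [h1, vcN_smul, evc_smul, Pi.smul_apply, RingHom.id_apply, smul_eq_mul]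
    module

/-- **the derivative of the broken distance** -/
theorem broken_deriv [Nonempty (Gs M)] (hB : Bl M) (e : Emb n 𝒜) (hN : NegData 𝒜 κ hB C P) (hF : FillP 𝒜 C P f) (hr : 0 < r)
    (hn : ∀ c x, InP P c x → ‖x‖ ≤ r → f c x = Cx 𝒜 C (θ • x) c) {c : Gs M} {b : Fin κ → Eu N} (hb : IsNF P κ c b)
    {w : Eu n} (hw : w ∈ 𝒜.PV (c.1 0) (𝒜.vel c.1 0)) (h1 : ‖w‖ = 1) (z : V (κ + 1)) :
    HasDerivAt (fun t : ℝ => dist (g1f f c b (t • z)) ((gw 𝒜 hB c w).1 (π / 2)) + dist ((gw 𝒜 hB c w).1 (π / 2)) (g2f f c b (t • z)))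
      (-⟪w, LN 𝒜 hB C c b θ z⟫) 0 := by
  have hsm : Continuous fun t : ℝ => t • z := continuous_id.smul continuous_const
  have hα : ContinuousAt (fun t : ℝ => g1f f c b (t • z)) 0 := ((sm_g1f hF hb).continuous.comp hsm).continuousAt
  have hβ : ContinuousAt (fun t : ℝ => g2f f c b (t • z)) 0 := ((sm_g2f hB hN hF hb).continuous.comp hsm).continuousAt
  have h2 := two_dist (𝒜 := 𝒜) hB hw h1 hα hβ (by show g1f f c b ((0 : ℝ) • z) = _; rw [zero_smul, g1f_zero hF hN.fam])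
    (by show g2f f c b ((0 : ℝ) • z) = _; rw [zero_smul, g2f_zero hF hN.fam])
    (g1f_deriv hB e hN.fam hr hn hb z) (g2f_deriv hB e hN hF hr hn hb z)
  rw [inner_top hB hN.fam hw h1] at h2
  exact h2

end Pool.Agent.Lib.MP_ccbbf6_gt.L5
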