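import Pool.Agent.Lib.MP_ccbbf6_gt.L4.PO4
import Pool.Agent.Lib.MP_ccbbf6_gt.L5.DG15
import Pool.Agent.Lib.MP_ccbbf6_gt.L5.DG4
import Pool.Agent.Lib.MP_ccbbf6_gt.L5.UOR14

/-!
# Level 5, DG16: the frame, the linear change of variables, the bound near the pair of points at distance `π` (helper2)
-/

set_option autoImplicit false
set_option maxSynthPendingDepth 3
set_option linter.unusedSectionVars false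
set_option linter.unusedVariables false

open Set Filter Topology Metric Real Module
open scoped ContDiff RealInnerProductSpace

noncomputable section

namespace Pool.Agent.Lib.MP_ccbbf6_gt.L5

open Geo L4 L4.FR L4.ORI NEG

variable {n : ℕ} {M : Type} [MetricSpace M] [CompactSpace M] {𝒜 : SDist n M} {N κ : ℕ} {C : Eu N → Gs M → M}
  {P : Gs M → Eu N →L[ℝ] Eu N} {f : Gs M → Eu N → M} {θ r : ℝ}

/-- frames of `V` through a geodesic -/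
theorem exists_frV (hB : Bl M) (hk : 𝒜.HK κ) (c : Gs M) : ∃ F : (spVF 𝒜 κ).pt, F.1.1 0 = c := by
  obtain ⟨b⟩ : Nonempty (OrthonormalBasis (Fin κ) ℝ (L5.Kc 𝒜 c)) :=
    ⟨(stdOrthonormalBasis ℝ (L5.Kc 𝒜 c)).reindex (finCongr (L5.finrank_Kc 𝒜 hB hk c))⟩
  obtain ⟨w, hw⟩ : ∃ w : Fin κ → Eu n, w = fun i => (b i : Eu n) := ⟨_, rfl⟩
  have ho : Orthonormal ℝ w := by
    rw [hw]
    exact b.orthonormal.comp_linearIsometry (L5.Kc 𝒜 c).subtypeₗᵢ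
  have hK : ∀ i, w i ∈ L5.Kc 𝒜 c := fun i => by
    rw [hw]
    exact (b i).2
  exact ⟨⟨⟨consG 𝒜 hB c w, consG_isMF hB c ho fun i => ((L5.mem_Kc 𝒜).1 (hK i)).2⟩, fun i =>
    consG_top hB c (fun j => kc_ne (ho.1 j)) (fun j => ((L5.mem_Kc 𝒜).1 (hK j)).1) i⟩, rfl⟩

theorem norm_vcF' (F : (spVF 𝒜 κ).pt) (ζ : V (κ + 1)) : ‖vcF 𝒜 F.1.1 ζ‖ = ‖toE ζ‖ := by
  have h1 : ‖vcF 𝒜 F.1.1 ζ‖ ^ 2 = ‖toE ζ‖ ^ 2 := by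
    rw [← real_inner_self_eq_norm_sq, toE_sq, inner_vcF F.1.2]
    exact Finset.sum_congr rfl fun i _ => by rw [sq]
  exact (sq_eq_sq₀ (norm_nonneg _) (norm_nonneg _)).1 h1

/-- `vcF` as a linear map -/
def vcLi (𝒜 : SDist n M) (F : Fin (κ + 1) → Gs M) : V (κ + 1) →ₗ[ℝ] Eu n where
  toFun := vcF 𝒜 F
  map_add' x y := by
    unfold vcF
    rw [← Finset.sum_add_distrib]
    exact Finset.sum_congr rfl fun i _ => by rw [Pi.add_apply, add_smul]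
  map_smul' t x := by
    unfold vcF
    rw [RingHom.id_apply, Finset.smul_sum]
    exact Finset.sum_congr rfl fun i _ => by rw [Pi.smul_apply, smul_eq_mul, mul_smul]

theorem vcF_smul (F : Fin (κ + 1) → Gs M) (t : ℝ) (x : V (κ + 1)) : vcF 𝒜 F (t • x) = t • vcF 𝒜 F x :=
  (vcLi 𝒜 F).map_smul t x

theorem vcF_zero (F : Fin (κ + 1) → Gs M) : vcF 𝒜 F 0 = 0 := (vcLi 𝒜 F).map_zero

theorem LN_mem (hB : Bl M) (c : Gs M) (b : Fin κ → Eu N) (θ : ℝ) (z : V (κ + 1)) :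
    LN 𝒜 hB C c b θ z ∈ 𝒜.PV (c.1 0) (𝒜.vel c.1 0) := by
  show θ • evc 𝒜 hB C c (vcN b (pr κ z)) - (4 * π * z (Fin.last κ)) • 𝒜.vel c.1 0 ∈ 𝒜.PV (c.1 0) (𝒜.vel c.1 0)
  exact Submodule.sub_mem _ (Submodule.smul_mem _ _ (mem_Kc_iff.1 (evc_mem (𝒜 := 𝒜) (C := C) hB c _)).1)
    (Submodule.smul_mem _ _ (mem_PV_of_top 𝒜 hB rfl rfl))

theorem LN_inj (hB : Bl M) (hN : NegData 𝒜 κ hB C P) (hθ : 0 < θ) {c : Gs M} {b : Fin κ → Eu N} (hb : IsNF P κ c b) {z : V (κ + 1)}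
    (h : LN 𝒜 hB C c b θ z = 0) : z = 0 := by
  have h0 : θ • evc 𝒜 hB C c (vcN b (pr κ z)) - (4 * π * z (Fin.last κ)) • 𝒜.vel c.1 0 = 0 := h
  have hv : ⟪𝒜.vel c.1 0, 𝒜.vel c.1 0⟫ = 1 := by rw [real_inner_self_eq_norm_sq, vel_norm 𝒜 c, one_pow]
  have hev : ⟪𝒜.vel c.1 0, evc 𝒜 hB C c (vcN b (pr κ z))⟫ = 0 := (mem_Kc_iff.1 (evc_mem (𝒜 := 𝒜) (C := C) hB c _)).2
  have h1 : ⟪𝒜.vel c.1 0, θ • evc 𝒜 hB C c (vcN b (pr κ z)) - (4 * π * z (Fin.last κ)) • 𝒜.vel c.1 0⟫ = 0 := by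
    rw [h0, inner_zero_right]
  rw [inner_sub_right, real_inner_smul_right, real_inner_smul_right, hev, hv, mul_zero, zero_sub, mul_one, neg_eq_zero] at h1
  have h2 : z (Fin.last κ) = 0 := (mul_eq_zero.1 h1).resolve_left (by positivity)
  have h3 : evc 𝒜 hB C c (vcN b (pr κ z)) = 0 := by
    rw [h2, mul_zero, zero_smul, sub_zero] at h0
    exact (smul_eq_zero.1 h0).resolve_left hθ.ne'
  have h4 : vcN b (pr κ z) = 0 := hN.ev c _ (hb.inP' _) h3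
  have h5 : ‖toE (pr κ z)‖ = 0 := by rw [← hb.norm, h4, norm_zero]
  have h6 : pr κ z = 0 := by
    by_contra h7
    exact toE_ne h7 (norm_eq_zero.1 h5)
  funext i
  refine Fin.lastCases h2 (fun j => ?_) i
  exact congrFun h6 j

theorem norm_le_toE {m : ℕ} (z : V m) : ‖z‖ ≤ ‖toE z‖ := by
  refine (pi_norm_le_iff_of_nonneg (norm_nonneg _)).2 fun i => ?_
  have h1 : ‖z i‖ ^ 2 ≤ ‖toE z‖ ^ 2 := by
    rw [toE_sq, Real.norm_eq_abs, sq_abs]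
    exact Finset.single_le_sum (f := fun j => z j ^ 2) (fun j _ => sq_nonneg _) (Finset.mem_univ i)
  exact (sq_le_sq₀ (norm_nonneg _) (norm_nonneg _)).1 h1

/-- the linear change of variables -/
theorem exists_mat (hB : Bl M) (hk : 𝒜.HK κ) (hN : NegData 𝒜 κ hB C P) (hθ : 0 < θ) {c : Gs M} {b : Fin κ → Eu N} (hb : IsNF P κ c b)
    {F : (spVF 𝒜 κ).pt} (hF0 : F.1.1 0 = c) :
    ∃ (A : Matrix (Fin (κ + 1)) (Fin (κ + 1)) ℝ) (Λ : ℝ), 0 < Λ ∧ A.det ≠ 0 ∧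
      (∀ ζ, LN 𝒜 hB C c b θ (A.mulVec ζ) = Λ • vcF 𝒜 F.1.1 ζ) ∧ ∀ ζ : V (κ + 1), ‖toE ζ‖ ≤ ‖toE (A.mulVec ζ)‖ := by
  subst hF0
  obtain ⟨L, hL⟩ : ∃ L : V (κ + 1) →ₗ[ℝ] (L5.Vc 𝒜 (F.1.1 0)), ∀ z, (L z : Eu n) = LN 𝒜 hB C (F.1.1 0) b θ z :=
    ⟨(LN 𝒜 hB C (F.1.1 0) b θ).codRestrict (L5.Vc 𝒜 (F.1.1 0)) (LN_mem hB _ b θ), fun z => rfl⟩
  obtain ⟨W, hW⟩ : ∃ W : V (κ + 1) →ₗ[ℝ] (L5.Vc 𝒜 (F.1.1 0)), ∀ z, (W z : Eu n) = vcF 𝒜 F.1.1 z :=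
    ⟨(vcLi 𝒜 F.1.1).codRestrict (L5.Vc 𝒜 (F.1.1 0)) (vcF_mem hB F), fun z => rfl⟩
  have hi : Function.Injective L := by
    rw [← LinearMap.ker_eq_bot, LinearMap.ker_eq_bot']
    intro z hz
    refine LN_inj hB hN hθ hb ?_
    rw [← hL, hz]
    rfl
  have hd : finrank ℝ (V (κ + 1)) = finrank ℝ (L5.Vc 𝒜 (F.1.1 0)) := by
    rw [finrank_Vc 𝒜 hB hk, Module.finrank_fin_fun]
  obtain ⟨E, hE⟩ : ∃ E : V (κ + 1) ≃ₗ[ℝ] (L5.Vc 𝒜 (F.1.1 0)), ∀ z, E z = L z :=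
    ⟨LinearMap.linearEquivOfInjective L hi hd, fun z => rfl⟩
  obtain ⟨T, hT⟩ : ∃ T : V (κ + 1) →ₗ[ℝ] V (κ + 1), ∀ z, T z = E.symm (W z) := ⟨E.symm.toLinearMap.comp W, fun z => rfl⟩
  have hLT : ∀ z, LN 𝒜 hB C (F.1.1 0) b θ (T z) = vcF 𝒜 F.1.1 z := fun z => by
    rw [← hL, ← hE, hT, LinearEquiv.apply_symm_apply, hW]
  obtain ⟨A₀, hA₀⟩ : ∃ A₀ : Matrix (Fin (κ + 1)) (Fin (κ + 1)) ℝ, ∀ z, A₀.mulVec z = T z :=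
    ⟨LinearMap.toMatrix' T, fun z => LinearMap.toMatrix'_mulVec T z⟩
  -- the bound
  obtain ⟨K, hK0, hK⟩ : ∃ K : ℝ, 0 < K ∧ ∀ z, ‖LN 𝒜 hB C (F.1.1 0) b θ z‖ ≤ K * ‖toE z‖ := by
    refine ⟨‖LinearMap.toContinuousLinearMap (LN 𝒜 hB C (F.1.1 0) b θ)‖ + 1, by positivity, fun z => ?_⟩
    have h1 := (LinearMap.toContinuousLinearMap (LN 𝒜 hB C (F.1.1 0) b θ)).le_opNorm z
    have h2 : ‖LinearMap.toContinuousLinearMap (LN 𝒜 hB C (F.1.1 0) b θ)‖ * ‖z‖ ≤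
        (‖LinearMap.toContinuousLinearMap (LN 𝒜 hB C (F.1.1 0) b θ)‖ + 1) * ‖toE z‖ :=
      mul_le_mul (by linarith) (norm_le_toE z) (norm_nonneg _) (by positivity)
    exact h1.trans h2
  have hdet : A₀.det ≠ 0 := by
    intro h0
    obtain ⟨v, hv, hv0⟩ := Matrix.exists_mulVec_eq_zero_iff.2 h0
    apply hv
    have h1 : vcF 𝒜 F.1.1 v = 0 := by rw [← hLT, ← hA₀, hv0, map_zero]
    by_contra h2
    exact vcF_ne F.1.2 h2 h1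
  refine ⟨K • A₀, K, hK0, ?_, fun ζ => ?_, fun ζ => ?_⟩
  · rw [Matrix.det_smul]
    exact mul_ne_zero (pow_ne_zero _ hK0.ne') hdet
  · rw [Matrix.smul_mulVec, map_smul, hA₀, hLT]
  · have h1 : toE (K • A₀.mulVec ζ) = K • toE (A₀.mulVec ζ) := rfl
    rw [Matrix.smul_mulVec, h1, norm_smul, Real.norm_eq_abs, abs_of_pos hK0, ← norm_vcF' F ζ, ← hLT, ← hA₀]
    exact hK _

/-! ### the bound -/

theorem gw_half_sum (hB : Bl M) {c : Gs M} {w : Eu n} (hw : w ∈ 𝒜.PV (c.1 0) (𝒜.vel c.1 0)) (h0 : w ≠ 0) :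
    dist (c.1 0) ((gw 𝒜 hB c w).1 (π / 2)) = π / 2 ∧ dist ((gw 𝒜 hB c w).1 (π / 2)) (c.1 π) = π / 2 := by
  have hπ := Real.pi_pos
  obtain ⟨g, hg⟩ : ∃ g, g = gw 𝒜 hB c w := ⟨_, rfl⟩
  have hg0 : g.1 0 = c.1 0 := by rw [hg]; exact gw_zero 𝒜 hB c w
  have hgπ : g.1 π = c.1 π := by rw [hg]; exact top_of_mem 𝒜 hB c h0 hw
  have a1 : |(0 : ℝ) - π / 2| = π / 2 := by rw [zero_sub, abs_neg, abs_of_pos (by positivity)]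
  have a2 : |π / 2 - π| = π / 2 := by
    rw [abs_sub_comm, sub_half, abs_of_pos (by positivity)]
  rw [← hg, ← hg0, ← hgπ]
  exact ⟨by rw [nc2_dist_eq g (by rw [a1]; linarith), a1], by rw [nc2_dist_eq g (by rw [a2]; linarith), a2]⟩

theorem local_bd [Nonempty (Gs M)] (hB : Bl M) (e : Emb n 𝒜) (hN : NegData 𝒜 κ hB C P) (hF : FillP 𝒜 C P f) (hr : 0 < r)
    (hn : ∀ c x, InP P c x → ‖x‖ ≤ r → f c x = Cx 𝒜 C (θ • x) c) {c : Gs M} {b : Fin κ → Eu N} (hb : IsNF P κ c b)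
    {F : (spVF 𝒜 κ).pt} (hF0 : F.1.1 0 = c) {A : Matrix (Fin (κ + 1)) (Fin (κ + 1)) ℝ} {Λ : ℝ} (hΛ : 0 < Λ)
    (hA : ∀ ζ, LN 𝒜 hB C c b θ (A.mulVec ζ) = Λ • vcF 𝒜 F.1.1 ζ) {ζ₀ : V (κ + 1)} (h0 : ‖toE ζ₀‖ = 1) :
    ∀ᶠ z : ℝ × V (κ + 1) in 𝓝 (0, ζ₀), 0 < z.1 → z.2 ≠ 0 →
      dist (g1f f c b (z.1 • A.mulVec z.2)) ((gw 𝒜 hB c (vcF 𝒜 F.1.1 z.2)).1 (π / 2)) +
        dist ((gw 𝒜 hB c (vcF 𝒜 F.1.1 z.2)).1 (π / 2)) (g2f f c b (z.1 • A.mulVec z.2)) < π := by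
  subst hF0
  have hπ := Real.pi_pos
  have hζ0 : ζ₀ ≠ 0 := by
    intro h1
    rw [h1, toE_zero'] at h0
    exact zero_ne_one h0
  obtain ⟨φ, hφ⟩ : ∃ φ : ℝ × V (κ + 1) → ℝ, φ = fun z => dist (g1f f (F.1.1 0) b (z.1 • A.mulVec z.2)) ((gw 𝒜 hB (F.1.1 0) (vcF 𝒜 F.1.1 z.2)).1 (π / 2)) +
    dist ((gw 𝒜 hB (F.1.1 0) (vcF 𝒜 F.1.1 z.2)).1 (π / 2)) (g2f f (F.1.1 0) b (z.1 • A.mulVec z.2)) := ⟨_, rfl⟩
  have hφv : ∀ z : V (κ + 1), z ≠ 0 → φ (0, z) = π := by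
    intro z hz
    rw [hφ]
    show dist (g1f f (F.1.1 0) b ((0 : ℝ) • A.mulVec z)) ((gw 𝒜 hB (F.1.1 0) (vcF 𝒜 F.1.1 z)).1 (π / 2)) +
      dist ((gw 𝒜 hB (F.1.1 0) (vcF 𝒜 F.1.1 z)).1 (π / 2)) (g2f f (F.1.1 0) b ((0 : ℝ) • A.mulVec z)) = π
    have h1 := gw_half_sum hB (vcF_mem hB F z) (vcF_ne F.1.2 hz)
    rw [zero_smul, g1f_zero hF hN.fam, g2f_zero hF hN.fam, h1.1, h1.2, add_halves]
  -- smoothness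
  have hc : ContDiff ℝ ∞ fun z : ℝ × V (κ + 1) => z.1 • A.mulVec z.2 :=
    contDiff_fst.smul (contDiff_mulVec (A := fun _ => A) (fun _ _ => contDiff_const) contDiff_snd)
  have s1 : SmAt 𝒜 (fun z : ℝ × V (κ + 1) => g1f f (F.1.1 0) b (z.1 • A.mulVec z.2)) (0, ζ₀) := (sm_g1f hF hb).comp hc (0, ζ₀)
  have s2 : SmAt 𝒜 (fun z : ℝ × V (κ + 1) => g2f f (F.1.1 0) b (z.1 • A.mulVec z.2)) (0, ζ₀) := (sm_g2f hB hN hF hb).comp hc (0, ζ₀)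
  have s3 : SmAt 𝒜 (fun z : ℝ × V (κ + 1) => (gw 𝒜 hB (F.1.1 0) (vcF 𝒜 F.1.1 z.2)).1 (π / 2)) (0, ζ₀) := by
    refine (smGA_gw hB (c := fun _ : ℝ × V (κ + 1) => F.1.1 0) (w := fun z : ℝ × V (κ + 1) => vcF 𝒜 F.1.1 z.2) (u := (0, ζ₀)) (smAt_const _ _)
      (p := (F.1.1 0).1 0) (𝒜.mem _) ?_ (vcF_ne F.1.2 hζ0)).2
    exact smV_vcF hB (f := fun _ : ℝ × V (κ + 1) => F.1.1) (ξ := fun z : ℝ × V (κ + 1) => z.2) (fun i => ⟨smAt_const _ _, smAt_const _ _⟩)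
      (fun _ i => F.1.2.foot i) (𝒜.mem _) contDiffAt_snd
  have h1 := gw_half_sum hB (vcF_mem hB F ζ₀) (vcF_ne F.1.2 hζ0)
  have v1 : g1f f (F.1.1 0) b ((0 : ℝ) • A.mulVec ζ₀) = (F.1.1 0).1 0 := by rw [zero_smul, g1f_zero hF hN.fam]
  have v2 : g2f f (F.1.1 0) b ((0 : ℝ) • A.mulVec ζ₀) = (F.1.1 0).1 π := by rw [zero_smul, g2f_zero hF hN.fam]
  have d1 : ContDiffAt ℝ ∞ (fun z : ℝ × V (κ + 1) => dist (g1f f (F.1.1 0) b (z.1 • A.mulVec z.2)) ((gw 𝒜 hB (F.1.1 0) (vcF 𝒜 F.1.1 z.2)).1 (π / 2))) (0, ζ₀) := by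
    refine SmAt.dist hB s1 s3 ?_ ?_
    · show 0 < dist (g1f f (F.1.1 0) b ((0 : ℝ) • A.mulVec ζ₀)) ((gw 𝒜 hB (F.1.1 0) (vcF 𝒜 F.1.1 ζ₀)).1 (π / 2))
      rw [v1, h1.1]
      positivity
    · show dist (g1f f (F.1.1 0) b ((0 : ℝ) • A.mulVec ζ₀)) ((gw 𝒜 hB (F.1.1 0) (vcF 𝒜 F.1.1 ζ₀)).1 (π / 2)) < π
      rw [v1, h1.1]
      linarith
  have d2 : ContDiffAt ℝ ∞ (fun z : ℝ × V (κ + 1) => dist ((gw 𝒜 hB (F.1.1 0) (vcF 𝒜 F.1.1 z.2)).1 (π / 2)) (g2f f (F.1.1 0) b (z.1 • A.mulVec z.2))) (0, ζ₀) := by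
    refine SmAt.dist hB s3 s2 ?_ ?_
    · show 0 < dist ((gw 𝒜 hB (F.1.1 0) (vcF 𝒜 F.1.1 ζ₀)).1 (π / 2)) (g2f f (F.1.1 0) b ((0 : ℝ) • A.mulVec ζ₀))
      rw [v2, h1.2]
      positivity
    · show dist ((gw 𝒜 hB (F.1.1 0) (vcF 𝒜 F.1.1 ζ₀)).1 (π / 2)) (g2f f (F.1.1 0) b ((0 : ℝ) • A.mulVec ζ₀)) < π
      rw [v2, h1.2]
      linarith
  have hsm : ContDiffAt ℝ ∞ φ (0, ζ₀) := by
    rw [hφ]
    exact d1.add d2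
  have hst : HasStrictFDerivAt φ (fderiv ℝ φ (0, ζ₀)) (0, ζ₀) := hsm.hasStrictFDerivAt (by simp)
  -- the derivative in the direction of `t`
  have hder : fderiv ℝ φ (0, ζ₀) (1, 0) = -Λ := by
    have e1 : HasDerivAt (fun t : ℝ => φ (t, ζ₀)) (fderiv ℝ φ (0, ζ₀) (1, 0)) 0 := by
      have h3 : HasDerivAt (fun t : ℝ => (t, ζ₀)) ((1 : ℝ), (0 : V (κ + 1))) 0 := (hasDerivAt_id (0 : ℝ)).prodMk (hasDerivAt_const (0 : ℝ) ζ₀)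
      exact HasFDerivAt.comp_hasDerivAt (0 : ℝ) hst.hasFDerivAt h3
    have e2 : HasDerivAt (fun t : ℝ => φ (t, ζ₀)) (-⟪vcF 𝒜 F.1.1 ζ₀, LN 𝒜 hB C (F.1.1 0) b θ (A.mulVec ζ₀)⟫) 0 := by
      rw [hφ]
      exact broken_deriv hB e hN hF hr hn hb (vcF_mem hB F ζ₀) (by rw [norm_vcF', h0]) (A.mulVec ζ₀)
    rw [e1.unique e2, hA, real_inner_smul_right, real_inner_self_eq_norm_sq, norm_vcF', h0, one_pow, mul_one]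
  have hev := hst.isLittleO.def (show (0 : ℝ) < Λ / 2 by positivity)
  have htd : Tendsto (fun z : ℝ × V (κ + 1) => ((z.1, z.2), ((0 : ℝ), z.2))) (𝓝 (0, ζ₀)) (𝓝 ((0, ζ₀), (0, ζ₀))) := by
    have h3 : Continuous (fun z : ℝ × V (κ + 1) => ((z.1, z.2), ((0 : ℝ), z.2))) := by fun_prop
    exact h3.tendsto (0, ζ₀)
  filter_upwards [htd.eventually hev] with z hz hz0 hz1
  have e1 : ((z.1, z.2) : ℝ × V (κ + 1)) - (0, z.2) = z.1 • ((1 : ℝ), (0 : V (κ + 1))) := by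
    ext <;> simp
  have e2 : ‖z.1 • ((1 : ℝ), (0 : V (κ + 1)))‖ = z.1 := by
    rw [norm_smul, Real.norm_eq_abs, abs_of_pos hz0]
    have : ‖((1 : ℝ), (0 : V (κ + 1)))‖ = 1 := by simp [Prod.norm_def]
    rw [this, mul_one]
  have hz' : ‖φ (z.1, z.2) - φ (0, z.2) - (fderiv ℝ φ (0, ζ₀)) ((z.1, z.2) - (0, z.2))‖ ≤ Λ / 2 * ‖((z.1, z.2) : ℝ × V (κ + 1)) - (0, z.2)‖ := hz
  rw [e1, e2, map_smul, hder, hφv z.2 hz1, smul_eq_mul, Real.norm_eq_abs] at hz'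
  have h5 := (abs_le.1 hz').2
  have h6 : φ z < π := by
    have h7 : φ (z.1, z.2) = φ z := rfl
    rw [h7] at h5
    nlinarith
  rw [hφ] at h6
  exact h6

theorem gw_smul (hB : Bl M) (c : Gs M) {w : Eu n} (hw : w ≠ 0) {s : ℝ} (hs : 0 < s) : gw 𝒜 hB c (s • w) = gw 𝒜 hB c w := by
  have h1 : s • w ≠ 0 := smul_ne_zero hs.ne' hw
  refine eq_of_vel' 𝒜 (by rw [gw_zero, gw_zero]) ?_
  rw [gw_vel 𝒜 hB c h1, gw_vel 𝒜 hB c hw]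
  unfold nrm
  rw [norm_smul, Real.norm_eq_abs, abs_of_pos hs, mul_inv, smul_smul, mul_comm s⁻¹, mul_assoc, inv_mul_cancel₀ hs.ne', mul_one]

theorem exists_eps [Nonempty (Gs M)] (hB : Bl M) (e : Emb n 𝒜) (hN : NegData 𝒜 κ hB C P) (hF : FillP 𝒜 C P f) (hr : 0 < r)
    (hn : ∀ c x, InP P c x → ‖x‖ ≤ r → f c x = Cx 𝒜 C (θ • x) c) {c : Gs M} {b : Fin κ → Eu N} (hb : IsNF P κ c b)
    {F : (spVF 𝒜 κ).pt} (hF0 : F.1.1 0 = c) {A : Matrix (Fin (κ + 1)) (Fin (κ + 1)) ℝ} {Λ : ℝ} (hΛ : 0 < Λ)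
    (hA : ∀ ζ, LN 𝒜 hB C c b θ (A.mulVec ζ) = Λ • vcF 𝒜 F.1.1 ζ) :
    ∃ ε : ℝ, 0 < ε ∧ ∀ ζ : V (κ + 1), ζ ≠ 0 → ∀ t : ℝ, 0 < t → t * ‖toE ζ‖ ≤ ε →
      dist (g1f f c b (A.mulVec (t • ζ))) ((gw 𝒜 hB c (vcF 𝒜 F.1.1 ζ)).1 (π / 2)) +
        dist ((gw 𝒜 hB c (vcF 𝒜 F.1.1 ζ)).1 (π / 2)) (g2f f c b (A.mulVec (t • ζ))) < π := by
  have hK : IsCompact {ζ : V (κ + 1) | ‖toE ζ‖ = 1} := by
    have h1 : IsClosed {ζ : V (κ + 1) | ‖toE ζ‖ = 1} := isClosed_eq contDiff_toE.continuous.norm continuous_const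
    refine Metric.isCompact_of_isClosed_isBounded h1 ?_
    refine (Metric.isBounded_closedBall (x := (0 : V (κ + 1))) (r := 1)).subset fun ζ hζ => ?_
    rw [mem_closedBall_zero_iff]
    have h2 : ‖toE ζ‖ = 1 := hζ
    rw [← h2]
    exact norm_le_toE ζ
  have h1 := hK.eventually_forall_of_forall_eventually (x₀ := (0 : ℝ)) (P := fun t ζ => 0 < t → ζ ≠ 0 →
    dist (g1f f c b (t • A.mulVec ζ)) ((gw 𝒜 hB c (vcF 𝒜 F.1.1 ζ)).1 (π / 2)) +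
        dist ((gw 𝒜 hB c (vcF 𝒜 F.1.1 ζ)).1 (π / 2)) (g2f f c b (t • A.mulVec ζ)) < π)
    fun ζ hζ => local_bd hB e hN hF hr hn hb hF0 hΛ hA hζ
  obtain ⟨δ, hδ, h2⟩ := Metric.eventually_nhds_iff.1 h1
  refine ⟨δ / 2, by positivity, fun ζ hζ t ht hle => ?_⟩
  have hN0 : 0 < ‖toE ζ‖ := norm_pos_iff.2 (toE_ne hζ)
  obtain ⟨ζ₁, hζ₁⟩ : ∃ ζ₁ : V (κ + 1), ζ₁ = ‖toE ζ‖⁻¹ • ζ := ⟨_, rfl⟩
  have hu : ‖toE ζ₁‖ = 1 := by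
    have h3 : toE (‖toE ζ‖⁻¹ • ζ) = ‖toE ζ‖⁻¹ • toE ζ := rfl
    rw [hζ₁, h3, norm_smul, norm_inv, norm_norm, inv_mul_cancel₀ hN0.ne']
  have h0 : ζ₁ ≠ 0 := by
    intro h3
    rw [h3, toE_zero'] at hu
    exact zero_ne_one hu
  have h3 := h2 (y := t * ‖toE ζ‖) (by
    rw [Real.dist_eq, sub_zero, abs_of_pos (by positivity)]
    linarith) ζ₁ hu (by positivity) h0
  have e1 : (t * ‖toE ζ‖) • A.mulVec ζ₁ = A.mulVec (t • ζ) := by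
    rw [hζ₁, Matrix.mulVec_smul, Matrix.mulVec_smul, smul_smul, mul_assoc, mul_inv_cancel₀ hN0.ne', mul_one]
  have e2 : gw 𝒜 hB c (vcF 𝒜 F.1.1 ζ₁) = gw 𝒜 hB c (vcF 𝒜 F.1.1 ζ) := by
    rw [hζ₁, vcF_smul, gw_smul hB c (vcF_ne F.1.2 hζ) (by positivity)]
  rw [e1, e2] at h3
  exact h3

end Pool.Agent.Lib.MP_ccbbf6_gt.L5
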