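import Pool.Agent.Lib.MP_ccbbf6_gt.L5.DG3
import Pool.Agent.Lib.MP_ccbbf6_gt.L5.INTf

/-!
# Level 5, DG5: linear change of variables in the integral over the fibres `R^N`; homotopies of closed forms on the sphere (helper2)
-/

set_option autoImplicit false
set_option maxSynthPendingDepth 3
set_option linter.unusedSectionVars false
set_option linter.unusedVariables false

open Set Filter Topology MeasureTheory
open scoped ContDiff

noncomputable section

namespace Pool.Agent.Lib.MP_ccbbf6_gt.L5

open L4 L4.FR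

variable {k l N m : ℕ} {X Y : Space}

/-- `(x, ξ) ↦ (x, A ξ)` -/
def linX (X : Space) (A : Matrix (Fin N) (Fin N) ℝ) : SMap (X.xV N) (X.xV N) :=
  ⟨fun z => (z.1, A.mulVec z.2), fun _ p => ⟨p.2.1, contDiff_mulVec (A := fun _ => A) (fun _ _ => contDiff_const) p.2.2⟩⟩

/-- the same on the domain of a plot -/
def linF (k : ℕ) (A : Matrix (Fin N) (Fin N) ℝ) : FR.Sm (k + N) (k + N) :=
  ⟨fun w => Fin.append (hdM k N w) (A.mulVec (tlM k N w)), contDiff_append (hdM k N).smooth
    (contDiff_mulVec (A := fun _ => A) (fun _ _ => contDiff_const) (tlM k N).smooth)⟩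

theorem linX_pl (A : Matrix (Fin N) (Fin N) ℝ) (P : X.Plot k) : (linX X A).pl (P.xV N) = (P.xV N).cmp (linF k A) := by
  refine Plot_ext fun w => ?_
  show (P.1 (hdM k N w), A.mulVec (tlM k N w)) = (P.1 (hdM k N (Fin.append (hdM k N w) (A.mulVec (tlM k N w)))),
    tlM k N (Fin.append (hdM k N w) (A.mulVec (tlM k N w))))
  rw [hdM_append, tlM_append]

/-- the linear map -/
def linL (k : ℕ) (A : Matrix (Fin N) (Fin N) ℝ) : V (k + N) →ₗ[ℝ] V (k + N) where
  toFun w := Fin.append (hdM k N w) (A.mulVec (tlM k N w))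
  map_add' v w := by
    have h1 : tlM k N (v + w) = tlM k N v + tlM k N w := rfl
    have h2 : hdM k N (v + w) = hdM k N v + hdM k N w := rfl
    rw [h1, h2, Matrix.mulVec_add]
    funext i
    refine Fin.addCases (fun i => ?_) (fun i => ?_) i
    · rw [Fin.append_left, Pi.add_apply, Pi.add_apply, Fin.append_left, Fin.append_left]
    · rw [Fin.append_right, Pi.add_apply, Pi.add_apply, Fin.append_right, Fin.append_right]
  map_smul' r v := by
    have h1 : tlM k N (r • v) = r • tlM k N v := rfl
    have h2 : hdM k N (r • v) = r • hdM k N v := rfl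
    rw [h1, h2, Matrix.mulVec_smul]
    funext i
    refine Fin.addCases (fun i => ?_) (fun i => ?_) i
    · rw [Fin.append_left, RingHom.id_apply, Pi.smul_apply, Pi.smul_apply, Fin.append_left]
    · rw [Fin.append_right, RingHom.id_apply, Pi.smul_apply, Pi.smul_apply, Fin.append_right]

theorem tr_linF (A : Matrix (Fin N) (Fin N) ℝ) (w : V (k + N)) (a : V k) (b : V N) :
    tr (linF k A) w (Fin.append a b : V (k + N)) =
      (Fin.append (a + (0 : V N →ₗ[ℝ] V k) b) (Matrix.toLin' A.transpose b) : V (k + N)) := by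
  have h1 : fderiv ℝ (linF k A : V (k + N) → V (k + N)) w = LinearMap.toContinuousLinearMap (linL k A) :=
    (LinearMap.toContinuousLinearMap (linL k A)).hasFDerivAt.fderiv
  rw [tr_eq, h1]
  funext i
  rw [trL_apply, Fin.sum_univ_add]
  have h2 : ∀ i j, (LinearMap.toContinuousLinearMap (linL k A)) (Pi.single i (1 : ℝ) : V (k + N)) (Fin.castAdd N j) =
      (Pi.single i (1 : ℝ) : V (k + N)) (Fin.castAdd N j) := fun i j => Fin.append_left _ _ j
  have h3 : ∀ i j, (LinearMap.toContinuousLinearMap (linL k A)) (Pi.single i (1 : ℝ) : V (k + N)) (Fin.natAdd k j) =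
      ∑ l, A j l * (Pi.single i (1 : ℝ) : V (k + N)) (Fin.natAdd k l) := fun i j => Fin.append_right _ _ j
  simp only [h2, h3, Fin.append_left, Fin.append_right]
  refine Fin.addCases (m := k) (n := N) (fun i' => ?_) (fun i' => ?_) i
  · rw [Fin.append_left]
    have e1 : ∀ j, (Pi.single (Fin.castAdd N i') (1 : ℝ) : V (k + N)) (Fin.castAdd N j) = if i' = j then 1 else 0 := by
      intro j
      rw [Pi.single_apply]
      simp only [Fin.castAdd_inj, eq_comm]
    have e2 : ∀ l, (Pi.single (Fin.castAdd N i') (1 : ℝ) : V (k + N)) (Fin.natAdd k l) = 0 := by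
      intro l
      rw [Pi.single_apply, if_neg]
      intro h
      exact absurd (congrArg Fin.val h) (by simp; omega)
    simp only [e1, e2, mul_zero, Finset.sum_const_zero, add_zero, mul_ite, mul_one, Finset.sum_ite_eq, Finset.mem_univ, if_true]
    show a i' = a i' + 0
    rw [add_zero]
  · rw [Fin.append_right]
    have e1 : ∀ j, (Pi.single (Fin.natAdd k i') (1 : ℝ) : V (k + N)) (Fin.castAdd N j) = 0 := by
      intro j
      rw [Pi.single_apply, if_neg]
      intro h
      exact absurd (congrArg Fin.val h) (by simp; omega)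
    have e2 : ∀ l, (Pi.single (Fin.natAdd k i') (1 : ℝ) : V (k + N)) (Fin.natAdd k l) = if i' = l then 1 else 0 := by
      intro l
      rw [Pi.single_apply]
      simp only [Fin.natAdd_inj, eq_comm]
    simp only [e1, e2, mul_zero, Finset.sum_const_zero, zero_add, mul_ite, mul_one, Finset.sum_ite_eq, Finset.mem_univ, if_true]
    show ∑ j, b j * A j i' = ∑ j, A.transpose i' j * b j
    exact Finset.sum_congr rfl fun j _ => mul_comm _ _

/-- **linear change of variables** -/
theorem JX_cv {A : Matrix (Fin N) (Fin N) ℝ} (hA : A.det ≠ 0) {Θ : Om (X.xV N)} (h : VSO Θ) (h' : VSO ((linX X A).pull Θ)) :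
    JX N X ((linX X A).pull Θ) = (A.det * |A.det|⁻¹) • JX N X Θ := by
  refine Om_ext' fun k P z L => ?_
  have hpb : Om.on ((linX X A).pull Θ) (P.xV N) = pb (linF k A) (Om.on Θ (P.xV N)) := by
    rw [on_pull, linX_pl, on_cmp]
  rw [on_JX, on_smul, on_JX, ev_J (h' k P), map_smul, map_smul, ev_J (h k P), hpb]
  obtain ⟨g, hg⟩ : ∃ g : V N → ℝ, g = fun ξ => L (tN k N (ev (Fin.append z ξ) (Om.on Θ (P.xV N)))) := ⟨_, rfl⟩
  have hgc : Continuous g := by
    have h1 := (contDiff_coef (L.comp (tN k N)) (Om.on Θ (P.xV N))).continuous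
    have h2 : Continuous fun ξ : V N => (Fin.append z ξ : V (k + N)) :=
      (contDiff_append contDiff_const contDiff_id).continuous
    rw [hg]
    exact h1.comp h2
  have hint : ∀ ξ : V N, L (tN k N (ev (Fin.append z ξ) (pb (linF k A) (Om.on Θ (P.xV N))))) =
      A.det * g (A.mulVec ξ) := by
    intro ξ
    have h1 : linF k A (Fin.append z ξ) = Fin.append z (A.mulVec ξ) := by
      show (Fin.append (hdM k N (Fin.append z ξ)) (A.mulVec (tlM k N (Fin.append z ξ))) : V (k + N)) = _
      rw [hdM_append, tlM_append]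
    rw [ev_pb, tN_map (tr_linF A _), h1, map_smul, LinearMap.det_toLin', Matrix.det_transpose, smul_eq_mul, hg]
  have hcont : Continuous (Matrix.toLin' A) := LinearMap.continuous_of_finiteDimensional _
  have hsub : ∫ ξ : V N, g (A.mulVec ξ) = |A.det|⁻¹ * ∫ ξ : V N, g ξ := by
    have h1 : ∫ ξ, g ξ ∂(Measure.map (Matrix.toLin' A) (volume : Measure (V N))) = ∫ ξ : V N, g (A.mulVec ξ) := by
      rw [integral_map hcont.aemeasurable hgc.aestronglyMeasurable]
      rfl
    rw [← h1, Real.map_matrix_volume_pi_eq_smul_volume_pi hA, integral_smul_measure, abs_inv,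
      ENNReal.toReal_ofReal (inv_nonneg.2 (abs_nonneg _)), smul_eq_mul]
  simp only [hint]
  rw [integral_const_mul, hsub, ← hg, smul_eq_mul]
  ring

end Pool.Agent.Lib.MP_ccbbf6_gt.L5
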