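import Pool.Agent.Lib.MP_ccbbf6_gt.L5.DG7

/-!
# Level 5, DG8: the homotopies (helper2)
-/

set_option autoImplicit false
set_option maxSynthPendingDepth 3
set_option linter.unusedSectionVars false
set_option linter.unusedVariables false

open Set Filter Topology Metric Real Module
open scoped ContDiff RealInnerProductSpace

noncomputable section

namespace Pool.Agent.Lib.MP_ccbbf6_gt.L5

open Geo L4 L4.FR L4.ORI

variable {n : ℕ} {M : Type} [MetricSpace M] [CompactSpace M] {𝒜 : SDist n M} {κ : ℕ} {u : Om (spM 𝒜)} {W : Space}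

/-- the scaling functions -/
def l1 (κ : ℕ) (ε : ℝ) (q : ((spV 0).xP (κ + 1)).xR.pt) : ℝ := (1 - stF q.2) + stF q.2 * (ε * nvY κ q.1)

def l2 (κ : ℕ) (ε : ℝ) (y : ((spV 0).xP (κ + 1)).pt) : ℝ := ε * nvY κ y

def l3 (κ : ℕ) (ε : ℝ) (q : ((spV 0).xP (κ + 1)).xR.pt) : ℝ := (1 - stF q.2) * (ε * nvY κ q.1)

theorem smooth_l2 (ε : ℝ) (k : ℕ) (p : ((spV 0).xP (κ + 1)).Plot k) : ContDiff ℝ ∞ fun x => l2 κ ε (p.1 x) :=
  contDiff_const.mul (smooth_nvY p)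

theorem smooth_l1 (ε : ℝ) (k : ℕ) (p : ((spV 0).xP (κ + 1)).xR.Plot k) : ContDiff ℝ ∞ fun x => l1 κ ε (p.1 x) := by
  have h1 : ContDiff ℝ ∞ fun x => stF (p.1 x).2 := stF_smooth.comp p.2.2
  have h2 := smooth_l2 ε k ((pO _).pl p)
  exact (contDiff_const.sub h1).add (h1.mul h2)

theorem smooth_l3 (ε : ℝ) (k : ℕ) (p : ((spV 0).xP (κ + 1)).xR.Plot k) : ContDiff ℝ ∞ fun x => l3 κ ε (p.1 x) := by
  have h1 : ContDiff ℝ ∞ fun x => stF (p.1 x).2 := stF_smooth.comp p.2.2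
  have h2 := smooth_l2 ε k ((pO _).pl p)
  exact (contDiff_const.sub h1).mul h2

theorem l2_pos {ε : ℝ} (hε : 0 < ε) (y : ((spV 0).xP (κ + 1)).pt) : 0 < l2 κ ε y := mul_pos hε (nvY_pos y)

theorem l2_norm (ε : ℝ) (y : ((spV 0).xP (κ + 1)).pt) : l2 κ ε y * ‖toE y.1.2‖ = ε := by
  unfold l2 nvY
  rw [mul_assoc, inv_mul_cancel₀ (norm_ne_zero_iff.2 (toE_ne y.2)), mul_one]

theorem l1_pos {ε : ℝ} (hε : 0 < ε) (q : ((spV 0).xP (κ + 1)).xR.pt) : 0 < l1 κ ε q := by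
  have h1 := stF_nonneg q.2
  have h2 := stF_le q.2
  have h3 : 0 < ε * nvY κ q.1 := l2_pos hε q.1
  unfold l1
  by_cases h : stF q.2 = 1
  · rw [h]
    linarith
  · have h4 : 0 < 1 - stF q.2 := by
      rcases lt_or_eq_of_le h2 with h5 | h5
      · linarith
      · exact absurd h5 h
    nlinarith [mul_nonneg h1 h3.le]

theorem l3_nonneg {ε : ℝ} (hε : 0 < ε) (q : ((spV 0).xP (κ + 1)).xR.pt) : 0 ≤ l3 κ ε q :=
  mul_nonneg (by linarith [stF_le q.2]) (l2_pos hε q.1).le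

theorem l3_norm {ε : ℝ} (hε : 0 < ε) (q : ((spV 0).xP (κ + 1)).xR.pt) : l3 κ ε q * ‖toE q.1.1.2‖ ≤ ε := by
  have h1 : l3 κ ε q * ‖toE q.1.1.2‖ = (1 - stF q.2) * ε := by
    have h2 := l2_norm ε q.1
    unfold l2 at h2
    unfold l3
    rw [mul_assoc, h2]
  rw [h1]
  have h3 := stF_nonneg q.2
  nlinarith

/-- scaled vectors -/
def S1 (κ : ℕ) (ε : ℝ) : SMap ((spV 0).xP (κ + 1)).xR ((spV 0).xV (κ + 1)) := sclM (pO _) (smooth_l1 ε)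

def S2 (κ : ℕ) (ε : ℝ) : SMap ((spV 0).xP (κ + 1)) ((spV 0).xV (κ + 1)) := sclM ⟨fun y => y, fun _ p => p.2⟩ (smooth_l2 ε)

def S3 (κ : ℕ) (ε : ℝ) : SMap ((spV 0).xP (κ + 1)).xR ((spV 0).xV (κ + 1)) := sclM (pO _) (smooth_l3 ε)

/-- `(y, τ) ↦ (y, st τ)` -/
def stM (W : Space) : SMap W.xR W.xR := ⟨fun q => (q.1, stF q.2), fun _ p => ⟨p.2.1, stF_smooth.comp p.2.2⟩⟩

namespace CoreD

variable {hB : Bl M} {W₀ : Space} {G₀ : SMap W₀ (spM 𝒜)} {a₁ : SMap ((spV 0).xV (κ + 1)) W₀}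
    {g₂ : SMap ((spV 0).xV (κ + 1)) (spM 𝒜)} {f : (spVF 𝒜 κ).pt} {ε : ℝ} (D : CoreD hB κ G₀ a₁ g₂ f ε)

include D

theorem short' (z : ((spV 0).xV (κ + 1)).pt) (h : z.2 ≠ 0) : dist (α := M) ((G₀.comp a₁).1 z) (g₂.1 z) < π := by
  have h1 : z = ((0 : V 0), z.2) := Prod.ext (Subsingleton.elim (α := V 0) _ _) rfl
  rw [h1]
  exact D.short z.2 h

theorem loc' (y : ((spV 0).xP (κ + 1)).pt) (c : ℝ) (h0 : 0 < c) (h1 : c * ‖toE y.1.2‖ ≤ ε) :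
    dist (α := M) ((G₀.comp a₁).1 ((0 : V 0), c • y.1.2)) ((midF hB f).1 y) +
      dist (α := M) ((midF hB f).1 y) (g₂.1 ((0 : V 0), c • y.1.2)) < π := by
  have h2 := D.loc y.1.2 y.2 c h0 h1
  have h3 : (⟨((0 : V 0), y.1.2), y.2⟩ : ((spV 0).xP (κ + 1)).pt) = y :=
    Subtype.ext (Prod.ext (Subsingleton.elim (α := V 0) _ _) rfl)
  rw [h3] at h2
  exact h2

theorem c0 (y : ((spV 0).xP (κ + 1)).pt) :
    dist (α := M) (((G₀.comp a₁).comp (inU ((spV 0).xV (κ + 1)) (neZ (spV 0) (κ + 1)))).1 y) ((g₂.comp (inU ((spV 0).xV (κ + 1)) (neZ (spV 0) (κ + 1)))).1 y) < π :=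
  D.short' y.1 y.2

theorem c1 (q : ((spV 0).xP (κ + 1)).xR.pt) :
    dist (α := M) (((G₀.comp a₁).comp (S1 κ ε)).1 q) ((g₂.comp (S1 κ ε)).1 q) < π := by
  refine D.short' _ ?_
  show l1 κ ε q • q.1.1.2 ≠ 0
  exact smul_ne_zero (l1_pos D.pos q).ne' q.1.2

theorem cs (y : ((spV 0).xP (κ + 1)).pt) : dist (α := M) (((G₀.comp a₁).comp (S2 κ ε)).1 y) ((midF hB f).1 y) +
    dist (α := M) ((midF hB f).1 y) ((g₂.comp (S2 κ ε)).1 y) < π :=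
  D.loc' y _ (l2_pos D.pos y) (l2_norm ε y).le

theorem c2 (y : ((spV 0).xP (κ + 1)).pt) : dist (α := M) ((g₂.comp (S2 κ ε)).1 y) ((midF hB f).1 y) < π := by
  rw [dist_comm]
  exact lt_of_le_of_lt (le_add_of_nonneg_left dist_nonneg) (D.cs y)

/-- the moving middle point -/
def mt : SMap ((spV 0).xP (κ + 1)).xR (spM 𝒜) := (rtM hB (g₂.comp (S2 κ ε)) (midF hB f) D.c2).comp (stM _)

theorem mt_apply (q : ((spV 0).xP (κ + 1)).xR.pt) :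
    D.mt.1 q = rat (M := M) 𝒜 ((g₂.comp (S2 κ ε)).1 q.1) ((midF hB f).1 q.1) (stF q.2) := rfl

theorem c2a (q : ((spV 0).xP (κ + 1)).xR.pt) :
    dist (α := M) ((((G₀.comp a₁).comp (S2 κ ε)).comp (pO _)).1 q) (D.mt.1 q) < π := by
  have h1 := D.cs q.1
  have h2 : dist (α := M) (D.mt.1 q) ((midF hB f).1 q.1) = (1 - stF q.2) * dist (α := M) ((g₂.comp (S2 κ ε)).1 q.1) ((midF hB f).1 q.1) := by
    rw [D.mt_apply]
    exact dist_rat2 hB (D.c2 q.1) (stF_nonneg _) (stF_le _)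
  have h3 : dist (α := M) (((G₀.comp a₁).comp (S2 κ ε)).1 q.1) (D.mt.1 q) ≤
      dist (α := M) (((G₀.comp a₁).comp (S2 κ ε)).1 q.1) ((midF hB f).1 q.1) + dist (α := M) ((midF hB f).1 q.1) (D.mt.1 q) :=
    dist_triangle _ _ _
  have h4 : dist (α := M) ((midF hB f).1 q.1) (D.mt.1 q) = dist (α := M) (D.mt.1 q) ((midF hB f).1 q.1) := dist_comm _ _
  have h5 : dist (α := M) ((midF hB f).1 q.1) ((g₂.comp (S2 κ ε)).1 q.1) = dist (α := M) ((g₂.comp (S2 κ ε)).1 q.1) ((midF hB f).1 q.1) :=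
    dist_comm _ _
  have h6 : 0 ≤ dist (α := M) ((g₂.comp (S2 κ ε)).1 q.1) ((midF hB f).1 q.1) := dist_nonneg
  have h7 := stF_nonneg q.2
  show dist (α := M) (((G₀.comp a₁).comp (S2 κ ε)).1 q.1) (D.mt.1 q) < π
  nlinarith

theorem c2b (q : ((spV 0).xP (κ + 1)).xR.pt) :
    dist (α := M) (D.mt.1 q) (((g₂.comp (S2 κ ε)).comp (pO _)).1 q) < π := by
  have h2 : dist (α := M) ((g₂.comp (S2 κ ε)).1 q.1) (D.mt.1 q) = stF q.2 * dist (α := M) ((g₂.comp (S2 κ ε)).1 q.1) ((midF hB f).1 q.1) := by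
    rw [D.mt_apply]
    exact dist_rat hB _ _ (stF_nonneg _) (stF_le _)
  have h3 := D.c2 q.1
  have h6 : 0 ≤ dist (α := M) ((g₂.comp (S2 κ ε)).1 q.1) ((midF hB f).1 q.1) := dist_nonneg
  have h7 := stF_le q.2
  have h8 : dist (α := M) (D.mt.1 q) ((g₂.comp (S2 κ ε)).1 q.1) = dist (α := M) ((g₂.comp (S2 κ ε)).1 q.1) (D.mt.1 q) := dist_comm _ _
  show dist (α := M) (D.mt.1 q) ((g₂.comp (S2 κ ε)).1 q.1) < π
  rw [h8, h2]
  nlinarith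

theorem mid0 (y : ((spV 0).xP (κ + 1)).pt) : dist (α := M) (G₀.1 (a₁.1 ((0 : V 0), 0))) ((midF hB f).1 y) = π / 2 := by
  have h1 : G₀.1 (a₁.1 ((0 : V 0), 0)) = ((dirN hB f).1 y).1 0 := D.zero1.trans (dirN_zero hB f y).symm
  have h2 : (midF hB f).1 y = ((dirN hB f).1 y).1 (π / 2) := rfl
  have h3 : dist (((dirN hB f).1 y).1 0) (((dirN hB f).1 y).1 (π / 2)) = π / 2 := by
    have := gs_dist ((dirN hB f).1 y) 0
    rwa [zero_add] at this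
  rw [h1, h2]
  exact h3

theorem mid1 (y : ((spV 0).xP (κ + 1)).pt) : dist (α := M) ((midF hB f).1 y) (g₂.1 ((0 : V 0), 0)) = π / 2 := by
  have h1 : g₂.1 ((0 : V 0), 0) = ((dirN hB f).1 y).1 π := D.zero2.trans (dirN_pi hB f y).symm
  have h2 : (midF hB f).1 y = ((dirN hB f).1 y).1 (π / 2) := rfl
  have h3 : dist (((dirN hB f).1 y).1 (π / 2)) (((dirN hB f).1 y).1 π) = π / 2 := by
    have := gs_dist ((dirN hB f).1 y) (π / 2)
    rwa [add_halves] at this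
  rw [h1, h2]
  exact h3

theorem c3 (q : ((spV 0).xP (κ + 1)).xR.pt) : dist (α := M) (((G₀.comp a₁).comp (S3 κ ε)).1 q) (((midF hB f).comp (pO _)).1 q) < π ∧
    dist (α := M) (((midF hB f).comp (pO _)).1 q) ((g₂.comp (S3 κ ε)).1 q) < π := by
  have hpi := Real.pi_pos
  rcases (l3_nonneg D.pos q).lt_or_eq with h | h
  · have h1 := D.loc' q.1 _ h (l3_norm D.pos q)
    exact ⟨lt_of_le_of_lt (le_add_of_nonneg_right dist_nonneg) h1, lt_of_le_of_lt (le_add_of_nonneg_left dist_nonneg) h1⟩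
  · have h2 : (S3 κ ε).1 q = ((0 : V 0), (0 : V (κ + 1))) := by
      show ((0 : V 0), l3 κ ε q • q.1.1.2) = _
      rw [← h, zero_smul]
    have h3 := D.mid0 q.1
    have h4 := D.mid1 q.1
    constructor
    · show dist (α := M) (G₀.1 (a₁.1 ((S3 κ ε).1 q))) ((midF hB f).1 q.1) < π
      rw [h2]
      exact h3.trans_lt (by linarith)
    · show dist (α := M) ((midF hB f).1 q.1) (g₂.1 ((S3 κ ε).1 q)) < π
      rw [h2]
      exact h4.trans_lt (by linarith)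

/-- the three homotopies -/
def Γ1 (u : Om (spM 𝒜)) : Om ((spV 0).xP (κ + 1)).xR :=
  pfD hB u ((G₀.comp a₁).comp (S1 κ ε)) (g₂.comp (S1 κ ε)) D.c1 - pfS u g₂ (S1 κ ε)

def Γ2 (u : Om (spM 𝒜)) : Om ((spV 0).xP (κ + 1)).xR :=
  pfD hB u (((G₀.comp a₁).comp (S2 κ ε)).comp (pO _)) D.mt D.c2a + pfD hB u D.mt ((g₂.comp (S2 κ ε)).comp (pO _)) D.c2b -
    pfS u g₂ ((S2 κ ε).comp (pO _))

def Γ3 (u : Om (spM 𝒜)) : Om ((spV 0).xP (κ + 1)).xR :=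
  pfD hB u ((G₀.comp a₁).comp (S3 κ ε)) ((midF hB f).comp (pO _)) (fun q => (D.c3 q).1) +
    pfD hB u ((midF hB f).comp (pO _)) (g₂.comp (S3 κ ε)) (fun q => (D.c3 q).2) - pfS u g₂ (S3 κ ε)

variable (hd : dO _ u = 0) (h4 : Deg (κ + 1) u)

include hd h4

theorem low (z : SMap W ((spV 0).xV (κ + 1))) : ((G₀.comp a₁).comp z).pull u = 0 :=
  pull_low D.dim (a₁.comp z) G₀ h4 (by omega)

theorem d_Γ1 : dO _ (D.Γ1 u) = 0 := by
  unfold Γ1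
  rw [map_sub, d_pfD hB hd, d_pfS hd h4, D.low hd h4]
  abel

theorem d_Γ2 : dO _ (D.Γ2 u) = 0 := by
  unfold Γ2
  rw [map_sub, map_add, d_pfD hB hd, d_pfD hB hd, d_pfS hd h4]
  have h1 : (((G₀.comp a₁).comp (S2 κ ε)).comp (pO _)).pull u = 0 := D.low hd h4 ((S2 κ ε).comp (pO _))
  have h2 : ((g₂.comp (S2 κ ε)).comp (pO _)).pull u = (g₂.comp ((S2 κ ε).comp (pO ((spV 0).xP (κ + 1))))).pull u := rfl
  rw [h1, h2]
  abel

theorem d_Γ3 : dO _ (D.Γ3 u) = 0 := by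
  unfold Γ3
  rw [map_sub, map_add, d_pfD hB hd, d_pfD hB hd, d_pfS hd h4, D.low hd h4]
  abel

omit hd in
theorem deg_Γ1 : Deg (κ + 1 - 1) (D.Γ1 u) := Deg_sub (Deg_pfm h4 _) (Deg_pfm h4 _)

omit hd in
theorem deg_Γ2 : Deg (κ + 1 - 1) (D.Γ2 u) := Deg_sub (Deg_add (Deg_pfm h4 _) (Deg_pfm h4 _)) (Deg_pfm h4 _)

omit hd in
theorem deg_Γ3 : Deg (κ + 1 - 1) (D.Γ3 u) := Deg_sub (Deg_add (Deg_pfm h4 _) (Deg_pfm h4 _)) (Deg_pfm h4 _)

end CoreD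

end Pool.Agent.Lib.MP_ccbbf6_gt.L5
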