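import Pool.Agent.Lib.MP_ccbbf6_gt.L5.DG4
import Pool.Agent.Lib.MP_ccbbf6_gt.L5.DG8
import Pool.Agent.Lib.MP_ccbbf6_gt.L5.UOR13

/-!
# Level 5, DG9: the value of the integral (helper2)
-/

set_option autoImplicit false
set_option maxSynthPendingDepth 3
set_option linter.unusedSectionVars false
set_option linter.unusedVariables false

open Set Filter Topology Metric Real Module
open scoped ContDiff RealInnerProductSpace

noncomputable section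

namespace Pool.Agent.Lib.MP_ccbbf6_gt.L5

open Geo L4 L4.FR L4.ORI

variable {n : ℕ} {M : Type} [MetricSpace M] [CompactSpace M] {𝒜 : SDist n M} {κ : ℕ} {u : Om (spM 𝒜)} {W : Space}

theorem S1_zero (ε : ℝ) (y : ((spV 0).xP (κ + 1)).pt) : (S1 κ ε).1 (y, 0) = y.1 := by
  refine Prod.ext (Subsingleton.elim (α := V 0) _ _) ?_
  show l1 κ ε (y, 0) • y.1.2 = y.1.2
  have h : l1 κ ε (y, 0) = 1 := by
    show (1 - stF 0) + stF 0 * (ε * nvY κ y) = 1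
    rw [stF_zero]
    ring
  rw [h, one_smul]

theorem S1_one (ε : ℝ) (y : ((spV 0).xP (κ + 1)).pt) : (S1 κ ε).1 (y, 1) = (S2 κ ε).1 y := by
  refine Prod.ext (Subsingleton.elim (α := V 0) _ _) ?_
  show l1 κ ε (y, 1) • y.1.2 = l2 κ ε y • y.1.2
  have h : l1 κ ε (y, 1) = l2 κ ε y := by
    show (1 - stF 1) + stF 1 * (ε * nvY κ y) = ε * nvY κ y
    rw [stF_one]
    ring
  rw [h]

theorem S3_zero (ε : ℝ) (y : ((spV 0).xP (κ + 1)).pt) : (S3 κ ε).1 (y, 0) = (S2 κ ε).1 y := by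
  refine Prod.ext (Subsingleton.elim (α := V 0) _ _) ?_
  show l3 κ ε (y, 0) • y.1.2 = l2 κ ε y • y.1.2
  have h : l3 κ ε (y, 0) = l2 κ ε y := by
    show (1 - stF 0) * (ε * nvY κ y) = ε * nvY κ y
    rw [stF_zero]
    ring
  rw [h]

theorem S3_one (ε : ℝ) (y : ((spV 0).xP (κ + 1)).pt) : (S3 κ ε).1 (y, 1) = ((0 : V 0), (0 : V (κ + 1))) := by
  refine Prod.ext (Subsingleton.elim (α := V 0) _ _) ?_
  show l3 κ ε (y, 1) • y.1.2 = 0
  have h : l3 κ ε (y, 1) = 0 := by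
    show (1 - stF 1) * (ε * nvY κ y) = 0
    rw [stF_one]
    ring
  rw [h, zero_smul]

/-- the path form of constant paths vanishes pointwise -/
theorem ev_pfD_zero (hB : Bl M) (a b : SMap W (spM 𝒜)) (h : ∀ w, dist (α := M) (a.1 w) (b.1 w) < π) {k : ℕ} (p : W.Plot k) (z : V k)
    (e : ∀ᶠ x in 𝓝 z, a.1 (p.1 x) = b.1 (p.1 x)) : ev z (Om.on (pfD hB u a b h) p) = 0 := by
  rw [← Module.forall_dual_apply_eq_zero_iff ℝ]
  intro L
  have h1 : L (ev z (Om.on (pfD hB u a b h) p)) = L (ev z (KK k (Om.on u ((rtM hB a b h).pl p.up)))) := rfl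
  have h2 : L (ev z (KK k (Om.on u ((a.comp (pO W)).pl p.up)))) = 0 := by
    have h3 : KK k (Om.on u ((a.comp (pO W)).pl p.up)) = Om.on (KO W ((pO W).pull (a.pull u))) p := rfl
    rw [h3, K_p, on_zero, map_zero, map_zero]
  rw [h1, ← h2]
  have h3 : ∀ t : ℝ, ev (Fin.snoc z t : V (k + 1)) (Om.on u ((rtM hB a b h).pl p.up)) =
      ev (Fin.snoc z t : V (k + 1)) (Om.on u ((a.comp (pO W)).pl p.up)) := by
    intro t
    refine ev_on_congr u ?_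
    have hc : Tendsto (fun v : V (k + 1) => pr k v) (𝓝 (Fin.snoc z t)) (𝓝 z) := by
      have := (pr k).smooth.continuous.tendsto (Fin.snoc z t : V (k + 1))
      rwa [pr_snoc] at this
    filter_upwards [hc.eventually e] with v hv
    show rat (M := M) 𝒜 (a.1 (p.1 (pr k v))) (b.1 (p.1 (pr k v))) _ = a.1 (p.1 (pr k v))
    rw [← hv, rat_self hB]
  have h4 : L (ev z (KK k (Om.on u ((rtM hB a b h).pl p.up)))) = ∫ s in (0 : ℝ)..1,
      L (kil k (ctr (lst k) (ev (Fin.snoc z s) (Om.on u ((rtM hB a b h).pl p.up))))) := INTe_KK L z _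
  have h5 : L (ev z (KK k (Om.on u ((a.comp (pO W)).pl p.up)))) = ∫ s in (0 : ℝ)..1,
      L (kil k (ctr (lst k) (ev (Fin.snoc z s) (Om.on u ((a.comp (pO W)).pl p.up))))) := INTe_KK L z _
  rw [h4, h5]
  simp only [h3]

namespace CoreD

variable {hB : Bl M} {W₀ : Space} {G₀ : SMap W₀ (spM 𝒜)} {a₁ : SMap ((spV 0).xV (κ + 1)) W₀}
    {g₂ : SMap ((spV 0).xV (κ + 1)) (spM 𝒜)} {f : (spVF 𝒜 κ).pt} {ε : ℝ} (D : CoreD hB κ G₀ a₁ g₂ f ε)

include D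

theorem c12 (y : ((spV 0).xP (κ + 1)).pt) :
    dist (α := M) (((G₀.comp a₁).comp (S2 κ ε)).1 y) ((g₂.comp (S2 κ ε)).1 y) < π :=
  lt_of_le_of_lt (dist_triangle (α := M) _ _ _) (D.cs y)

theorem j0Γ1 : (jO _ 0).pull (D.Γ1 u) = pfD hB u ((G₀.comp a₁).comp (inU ((spV 0).xV (κ + 1)) (neZ (spV 0) (κ + 1))))
    (g₂.comp (inU ((spV 0).xV (κ + 1)) (neZ (spV 0) (κ + 1)))) D.c0 - pfS u g₂ (inU ((spV 0).xV (κ + 1)) (neZ (spV 0) (κ + 1))) := by
  unfold Γ1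
  rw [map_sub, pfD_pull, pfS_pull]
  congr 1
  · refine pfD_congr hB _ _ (fun y => ?_) (fun y => ?_)
    · exact congrArg (G₀.comp a₁).1 (S1_zero ε y)
    · exact congrArg g₂.1 (S1_zero ε y)
  · refine pfS_congr g₂ fun y => ?_
    exact congrArg Prod.snd (S1_zero ε y)

theorem j1Γ1 : (jO _ 1).pull (D.Γ1 u) = pfD hB u ((G₀.comp a₁).comp (S2 κ ε)) (g₂.comp (S2 κ ε)) D.c12 - pfS u g₂ (S2 κ ε) := by
  unfold Γ1
  rw [map_sub, pfD_pull, pfS_pull]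
  congr 1
  · refine pfD_congr hB _ _ (fun y => ?_) (fun y => ?_)
    · exact congrArg (G₀.comp a₁).1 (S1_one ε y)
    · exact congrArg g₂.1 (S1_one ε y)
  · refine pfS_congr g₂ fun y => ?_
    exact congrArg Prod.snd (S1_one ε y)

theorem mt_zero (y : ((spV 0).xP (κ + 1)).pt) : D.mt.1 (y, 0) = (g₂.comp (S2 κ ε)).1 y := by
  rw [D.mt_apply]
  show rat (M := M) 𝒜 _ _ (stF 0) = _
  rw [stF_zero]
  exact rat_zero hB _ _

theorem mt_one (y : ((spV 0).xP (κ + 1)).pt) : D.mt.1 (y, 1) = (midF hB f).1 y := by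
  rw [D.mt_apply]
  show rat (M := M) 𝒜 _ _ (stF 1) = _
  rw [stF_one]
  exact rat_one hB _ _

theorem j0Γ2 : (jO _ 0).pull (D.Γ2 u) = pfD hB u ((G₀.comp a₁).comp (S2 κ ε)) (g₂.comp (S2 κ ε)) D.c12 - pfS u g₂ (S2 κ ε) := by
  unfold Γ2
  rw [map_sub, map_add, pfD_pull, pfD_pull, pfS_pull]
  have h1 : pfD hB u (D.mt.comp (jO _ 0)) (((g₂.comp (S2 κ ε)).comp (pO _)).comp (jO _ 0)) (fun w => D.c2b _) = 0 :=
    pfD_self hB _ fun y => D.mt_zero y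
  rw [h1, add_zero]
  congr 1
  refine pfD_congr hB _ _ (fun y => rfl) (fun y => D.mt_zero y)

theorem j1Γ2 : (jO _ 1).pull (D.Γ2 u) = pfD hB u ((G₀.comp a₁).comp (S2 κ ε)) (midF hB f)
      (fun y => lt_of_le_of_lt (le_add_of_nonneg_right dist_nonneg) (D.cs y)) +
    pfD hB u (midF hB f) (g₂.comp (S2 κ ε)) (fun y => lt_of_le_of_lt (le_add_of_nonneg_left dist_nonneg) (D.cs y)) -
      pfS u g₂ (S2 κ ε) := by
  unfold Γ2
  rw [map_sub, map_add, pfD_pull, pfD_pull, pfS_pull]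
  congr 1
  congr 1
  · exact pfD_congr hB _ _ (fun y => rfl) (fun y => D.mt_one y)
  · exact pfD_congr hB _ _ (fun y => D.mt_one y) (fun y => rfl)

theorem j0Γ3 : (jO _ 0).pull (D.Γ3 u) = pfD hB u ((G₀.comp a₁).comp (S2 κ ε)) (midF hB f)
      (fun y => lt_of_le_of_lt (le_add_of_nonneg_right dist_nonneg) (D.cs y)) +
    pfD hB u (midF hB f) (g₂.comp (S2 κ ε)) (fun y => lt_of_le_of_lt (le_add_of_nonneg_left dist_nonneg) (D.cs y)) -
      pfS u g₂ (S2 κ ε) := by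
  unfold Γ3
  rw [map_sub, map_add, pfD_pull, pfD_pull, pfS_pull]
  congr 1
  · congr 1
    · exact pfD_congr hB _ _ (fun y => congrArg (G₀.comp a₁).1 (S3_zero ε y)) (fun y => rfl)
    · exact pfD_congr hB _ _ (fun y => rfl) (fun y => congrArg g₂.1 (S3_zero ε y))
  · exact pfS_congr g₂ fun y => congrArg Prod.snd (S3_zero ε y)

theorem j1Γ3 : (jO _ 1).pull (D.Γ3 u) = (dirN hB f).pull (psu hB u) := by
  unfold Γ3
  rw [map_sub, map_add, pfD_pull, pfD_pull, pfS_pull]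
  rw [pfS_zero g₂ ((S3 κ ε).comp (jO _ 1)) fun y => congrArg Prod.snd (S3_one ε y), sub_zero]
  refine psu_halves hB (dirN hB f) (fun y => ?_) (fun y => rfl) (fun y => ?_) _ _
  · have h1 : (((G₀.comp a₁).comp (S3 κ ε)).comp (jO _ 1)).1 y = G₀.1 (a₁.1 ((0 : V 0), (0 : V (κ + 1)))) :=
      congrArg (G₀.comp a₁).1 (S3_one ε y)
    exact h1.trans (D.zero1.trans (dirN_zero hB f y).symm)
  · have h1 : ((g₂.comp (S3 κ ε)).comp (jO _ 1)).1 y = g₂.1 ((0 : V 0), (0 : V (κ + 1))) := congrArg g₂.1 (S3_one ε y)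
    exact h1.trans (D.zero2.trans (dirN_pi hB f y).symm)

/-- **the core theorem** -/
theorem core (hκ : 1 ≤ κ) (hd : dO _ u = 0) (h4 : Deg (κ + 1) u) :
    JX (κ + 1) (spV 0) (g₂.pull u) = -algebraMap ℝ _ (gV 𝒜 hB κ (psu hB u) f) := by
  have h1 := SI_hty (N := κ + 1) (by omega) (D.deg_Γ1 h4) (D.d_Γ1 hd h4)
  have h2 := SI_hty (N := κ + 1) (by omega) (D.deg_Γ2 h4) (D.d_Γ2 hd h4)
  have h3 := SI_hty (N := κ + 1) (by omega) (D.deg_Γ3 h4) (D.d_Γ3 hd h4)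
  rw [D.j1Γ1] at h1
  rw [D.j0Γ2, D.j1Γ2] at h2
  rw [D.j0Γ3, D.j1Γ3] at h3
  have h5 : SI (κ + 1) (spV 0) ((dirN hB f).pull (psu hB u)) = algebraMap ℝ _ (gV 𝒜 hB κ (psu hB u) f) :=
    gV_eq hB (Deg_psu hB h4) f
  have h6 : SI (κ + 1) (spV 0) ((jO _ 0).pull (D.Γ1 u)) = algebraMap ℝ _ (gV 𝒜 hB κ (psu hB u) f) := by
    rw [← h1, ← h2, ← h3, h5]
  rw [D.j0Γ1] at h6
  have h7 := SI_sub_prim (X := spV 0) (N := κ + 1) (by omega)
    (ν := pfD hB u ((G₀.comp a₁).comp (inU ((spV 0).xV (κ + 1)) (neZ (spV 0) (κ + 1))))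
      (g₂.comp (inU ((spV 0).xV (κ + 1)) (neZ (spV 0) (κ + 1)))) D.c0)
    (α := pfS u g₂ (SMap.id _)) (Φ := g₂.pull u) (Deg_pfm h4 _) (Deg_pfm h4 _)
    (by
      rw [d_pfD hB hd, D.low hd h4, sub_zero]
      rfl)
    (d_pfS hd h4 g₂ (SMap.id _))
    (fun k p z hz => by
      refine ev_pfD_zero hB _ _ _ p z ?_
      have hc : Continuous fun x : V k => ‖toE (p.1 x).1.2‖ := (contDiff_toE.continuous.comp p.2.2.continuous).norm
      filter_upwards [hc.continuousAt.eventually (lt_mem_nhds (show (2 : ℝ) < ‖toE (p.1 z).1.2‖ by linarith))] with x hx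
      have h8 : (p.1 x).1 = ((0 : V 0), (p.1 x).1.2) := Prod.ext (Subsingleton.elim (α := V 0) _ _) rfl
      show G₀.1 (a₁.1 (p.1 x).1) = g₂.1 (p.1 x).1
      rw [h8]
      exact D.far _ hx)
  have h9 := h6.symm.trans h7
  rw [h9, neg_neg]

end CoreD

end Pool.Agent.Lib.MP_ccbbf6_gt.L5
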