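import Pool.Agent.Lib.MP_ccbbf6_gt.L5.DG12
import Pool.Agent.Lib.MP_ccbbf6_gt.L5.DG16
import Pool.Agent.Lib.MP_ccbbf6_gt.L5.DG5
import Pool.Agent.Lib.MP_ccbbf6_gt.L5.DG9
import Pool.Agent.Lib.MP_ccbbf6_gt.L5.UORapi

/-!
# Level 5, DG17: the degree of the homotopy `FN` is `± 1` (helper2)
-/

set_option autoImplicit false
set_option maxSynthPendingDepth 3
set_option linter.unusedSectionVars false
set_option linter.unusedVariables false

open Set Filter Topology Metric Real Module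
open scoped ContDiff RealInnerProductSpace

noncomputable section

namespace Pool.Agent.Lib.MP_ccbbf6_gt.L5

open Geo L4 L4.FR L4.ORI NEG

variable {n : ℕ} {M : Type} [MetricSpace M] [CompactSpace M] {𝒜 : SDist n M} {N κ : ℕ} {C : Eu N → Gs M → M}
  {P : Gs M → Eu N →L[ℝ] Eu N} {f : Gs M → Eu N → M}

theorem per_val (𝒜 : SDist n M) (hB : Bl M) (c : Gs M) : c.1 (2 * π) = c.1 0 := by
  have h1 := congrArg (fun g : Gs M => g.1 0) (shift_per 𝒜 hB c)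
  have h2 : c.1 (0 + 2 * π) = c.1 0 := h1
  rwa [zero_add] at h2

theorem circ_short (𝒜 : SDist n M) (hB : Bl M) (c : Gs M) {σ : ℝ} (h0 : 0 ≤ σ) (h1 : σ ≤ 1) (h2 : σ ≠ 1 / 2) :
    dist (c.1 0) (c.1 (2 * π * σ)) < π := by
  have hπ := Real.pi_pos
  rcases lt_or_gt_of_ne h2 with h3 | h3
  · have h4 : 2 * π * σ < π := by nlinarith
    have h5 : |0 - 2 * π * σ| = 2 * π * σ := by rw [zero_sub, abs_neg, abs_of_nonneg (by positivity)]
    rw [nc2_dist_eq c (by rw [h5]; exact h4.le), h5]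
    exact h4
  · have h4 : 2 * π - 2 * π * σ < π := by nlinarith
    have h5 : |2 * π - 2 * π * σ| = 2 * π - 2 * π * σ := abs_of_nonneg (by nlinarith)
    rw [← per_val 𝒜 hB c, nc2_dist_eq c (by rw [h5]; exact h4.le), h5]
    exact h4

theorem ne_of_norm {m : ℕ} {z : V m} (h : 0 < ‖toE z‖) : z ≠ 0 := by
  intro h1
  rw [h1, toE_zero'] at h
  exact lt_irrefl _ h

theorem pr_zero_last {z : V (κ + 1)} (h : pr κ z = 0) (h1 : z (Fin.last κ) = 0) : z = 0 := by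
  funext i
  refine Fin.lastCases h1 (fun j => ?_) i
  exact congrFun h j

theorem short_all (hB : Bl M) (hN : NegData 𝒜 κ hB C P) (hF : FillP 𝒜 C P f) {c : Gs M} {b : Fin κ → Eu N} (hb : IsNF P κ c b)
    (z : V (κ + 1)) (hz : z ≠ 0) : dist (g1f f c b z) (g2f f c b z) < π := by
  by_cases h0 : pr κ z = 0
  · have h1 : z (Fin.last κ) ≠ 0 := fun h => hz (pr_zero_last h0 h)
    have e1 : g1f f c b z = c.1 0 := by
      unfold g1f
      rw [h0, vcN_zero, fill_zero hF hN.fam]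
    have e2 : g2f f c b z = c.1 (2 * π * sgF (z (Fin.last κ))) := by
      unfold g2f
      rw [h0, vcN_zero, fill_zero hF hN.fam]
      show c.1 (0 + _) = _
      rw [zero_add]
    rw [e1, e2]
    exact circ_short 𝒜 hB c (sgF_nonneg _) (sgF_le _) (sgF_ne h1)
  · have h1 : vcN b (pr κ z) ≠ 0 := by
      intro h2
      have h3 := hb.norm (pr κ z)
      rw [h2, norm_zero] at h3
      exact toE_ne h0 (norm_eq_zero.1 h3.symm)
    have h2 := hF.short c (vcN b (pr κ z)) (hb.inP' _) h1 0 (2 * π * sgF (z (Fin.last κ)))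
    rw [shift_zero] at h2
    exact h2

theorem far_all (hB : Bl M) (hN : NegData 𝒜 κ hB C P) (hF : FillP 𝒜 C P f) {c : Gs M} {b : Fin κ → Eu N} (hb : IsNF P κ c b)
    (z : V (κ + 1)) (hz : 2 < ‖toE z‖) : g1f f c b z = g2f f c b z := by
  unfold g1f g2f
  rcases le_or_gt 1 ‖toE (pr κ z)‖ with h1 | h1
  · exact (hF.inv c _ _ (hb.inP' _) (by rw [hb.norm]; exact h1)).symm
  · have h2 : ‖toE z‖ ^ 2 = ‖toE (pr κ z)‖ ^ 2 + z (Fin.last κ) ^ 2 := by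
      rw [toE_sq, toE_sq, Fin.sum_univ_castSucc]
      rfl
    have h3 : 1 < z (Fin.last κ) ^ 2 := by nlinarith [norm_nonneg (toE (pr κ z))]
    have h4 : z (Fin.last κ) ≤ -(1 / 2) ∨ 1 / 2 ≤ z (Fin.last κ) := by
      by_contra h5
      push Not at h5
      nlinarith [h5.1, h5.2]
    rcases h4 with h5 | h5
    · rw [sgF_low h5, mul_zero, shift_zero]
    · rw [sgF_high h5, mul_one, shift_per 𝒜 hB]

/-- far out the form vanishes -/
theorem VSO_low {W₀ : Space} {G₀ : SMap W₀ (spM 𝒜)} {a₁ : SMap ((spV 0).xV (κ + 1)) W₀} {g₂ : SMap ((spV 0).xV (κ + 1)) (spM 𝒜)}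
    (hW : DimLE W₀ κ) {u : Om (spM 𝒜)} (hu : Deg (κ + 1) u)
    (hf : ∀ ζ : V (κ + 1), 2 < ‖toE ζ‖ → G₀.1 (a₁.1 ((0 : V 0), ζ)) = g₂.1 ((0 : V 0), ζ)) : VSO (g₂.pull u) := by
  refine VSO_of fun k p z hz => ?_
  have h0 : Om.on ((G₀.comp a₁).pull u) p = 0 := by
    rw [pull_low hW a₁ G₀ hu (Nat.lt_succ_self κ), on_zero]
  have h1 : ev z (Om.on u (g₂.pl p)) = ev z (Om.on u ((G₀.comp a₁).pl p)) := by
    refine ev_on_congr u ?_
    have hc : Continuous fun x : V k => ‖toE (p.1 x).2‖ := (contDiff_toE.continuous.comp p.2.2.continuous).norm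
    filter_upwards [hc.continuousAt.eventually (lt_mem_nhds (show (2 : ℝ) < ‖toE (p.1 z).2‖ by linarith))] with x hx
    have h8 : p.1 x = ((0 : V 0), (p.1 x).2) := Prod.ext (Subsingleton.elim (α := V 0) _ _) rfl
    show g₂.1 (p.1 x) = G₀.1 (a₁.1 (p.1 x))
    rw [h8]
    exact (hf _ hx).symm
  have h2 : ev z (Om.on (g₂.pull u) p) = ev z (Om.on u (g₂.pl p)) := rfl
  have h3 : ev z (Om.on ((G₀.comp a₁).pull u) p) = ev z (Om.on u ((G₀.comp a₁).pl p)) := rfl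
  rw [h2, h1, ← h3, h0, map_zero]

/-- the data of the core theorem -/
theorem exists_core [Nonempty (Gs M)] (hB : Bl M) (hk : 𝒜.HK κ) (hN : NegData 𝒜 κ hB C P) (hF : FillP 𝒜 C P f) {c : Gs M}
    {b : Fin κ → Eu N} (hb : IsNF P κ c b) :
    ∃ (A : Matrix (Fin (κ + 1)) (Fin (κ + 1)) ℝ) (F : (spVF 𝒜 κ).pt) (ε : ℝ), A.det ≠ 0 ∧
      CoreD hB κ (G0N hF hb) ((a1M κ).comp (linX (spV 0) A)) (((PsN hB hN hF hb).comp (gsM κ)).comp (linX (spV 0) A)) F ε := by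
  have : Nonempty M := ⟨c.1 0⟩
  obtain ⟨e⟩ := exists_emb 𝒜
  obtain ⟨θ, r, hθ, hr, hn⟩ := hF.near
  obtain ⟨F, hF0⟩ := exists_frV hB hk c
  obtain ⟨A, Λ, hΛ, hdet, hA, hle⟩ := exists_mat hB hk hN hθ hb hF0
  obtain ⟨ε, hε, hloc⟩ := exists_eps hB e hN hF hr hn hb hF0 hΛ hA
  subst hF0
  refine ⟨A, F, ε, hdet, dimLE_xV0 κ, hε, fun ζ hζ => ?_, ?_, ?_, fun ζ hζ t ht hte => ?_, fun ζ hζ => ?_⟩
  · exact short_all hB hN hF hb (A.mulVec ζ) (ne_of_norm (lt_of_lt_of_le (norm_pos_iff.2 (toE_ne hζ)) (hle ζ)))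
  · show g1f f (F.1.1 0) b (A.mulVec 0) = (F.1.1 0).1 0
    rw [Matrix.mulVec_zero]
    exact g1f_zero hF hN.fam _ _
  · show g2f f (F.1.1 0) b (A.mulVec 0) = (F.1.1 0).1 π
    rw [Matrix.mulVec_zero]
    exact g2f_zero hF hN.fam _ _
  · exact hloc ζ hζ t ht hte
  · exact far_all hB hN hF hb (A.mulVec ζ) (lt_of_lt_of_le hζ (hle ζ))

/-- **the degree is one** -/
theorem deg_one' (hB : Bl M) (hk : 𝒜.HK κ) (hodd : Odd κ) (hN : NegData 𝒜 κ hB C P) (hF : FillP 𝒜 C P f)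
    {u : Om (spM 𝒜)} {g : (spVF 𝒜 κ).pt → ℝ} (hU : UD 𝒜 hB κ u g) {c : Gs M} {b : Fin κ → Eu N} (hb : IsNF P κ c b) :
    ∃ r : ℝ, |r| = 2 ∧ SI κ (spV 0) ((ptN hb).pull (thN hB hN hF u)) = algebraMap ℝ (Om (spV 0)) r := by
  have hκ : 1 ≤ κ := hodd.pos
  have : Nonempty (Gs M) := ⟨c⟩
  obtain ⟨A, F, ε, hdet, D⟩ := exists_core hB hk hN hF hb
  -- the form
  have hV1 : VSO (((PsN hB hN hF hb).comp (gsM κ)).pull u) :=
    VSO_low (G₀ := G0N hF hb) (a₁ := a1M κ) (dimLE_xV0 κ) hU.deg fun ζ hζ => far_all hB hN hF hb ζ hζ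
  have hV2 : VSO ((linX (spV 0) A).pull (((PsN hB hN hF hb).comp (gsM κ)).pull u)) := by
    rw [← pull_comp]
    exact VSO_low (G₀ := G0N hF hb) (a₁ := (a1M κ).comp (linX (spV 0) A)) (dimLE_xV0 κ) hU.deg D.far
  have h1 := D.core hκ hU.closed hU.deg
  rw [hU.gV_eq' F, pull_comp, JX_cv hdet hV1 hV2] at h1
  obtain ⟨s, hs⟩ : ∃ s, s = A.det * |A.det|⁻¹ := ⟨_, rfl⟩
  have hss : s * s = 1 := by
    have h2 : |A.det| ≠ 0 := abs_ne_zero.2 hdet
    have h3 : A.det * A.det = |A.det| * |A.det| := (abs_mul_abs_self _).symm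
    have h4 : s * s = A.det * A.det * (|A.det|⁻¹ * |A.det|⁻¹) := by
      rw [hs]
      ring
    rw [h4, h3]
    field_simp
  rw [← hs] at h1
  have h2 : JX (κ + 1) (spV 0) (((PsN hB hN hF hb).comp (gsM κ)).pull u) = algebraMap ℝ (Om (spV 0)) (-(s * g F)) := by
    have h3 : JX (κ + 1) (spV 0) (((PsN hB hN hF hb).comp (gsM κ)).pull u) =
        s • (s • JX (κ + 1) (spV 0) (((PsN hB hN hF hb).comp (gsM κ)).pull u)) := by rw [smul_smul, hss, one_smul]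
    rw [h3, h1, Algebra.algebraMap_eq_smul_one, Algebra.algebraMap_eq_smul_one, ← neg_smul, smul_smul]
    congr 1
    ring
  have h3 : JX κ (spV 0) (muN hN hF hb u) = algebraMap ℝ (Om (spV 0)) (-(s * g F)) := by
    rw [← h2, pull_comp, JX_gsM]
    rfl
  refine ⟨2 * (s * g F), ?_, ?_⟩
  · have h4 : |s| = 1 := by
      have h5 : |s| * |s| = 1 := by rw [abs_mul_abs_self, hss]
      nlinarith [abs_nonneg s]
    rw [abs_mul, abs_mul, h4, hU.one F]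
    norm_num
  · rw [SI_T hN hF hb hodd, SI_rdM hκ (Deg_muN hN hF hb hU.deg) (d_muN hN hF hb hU.closed hU.deg)
      (fun k p z hz => ev_muN hN hF hb u p z hz), h3, Algebra.algebraMap_eq_smul_one, Algebra.algebraMap_eq_smul_one, smul_smul]
    congr 1
    ring

/-- the announced form -/
theorem deg_one (hn : 3 ≤ n) (hB : Bl M) (hk : 𝒜.HK κ) (hodd : Odd κ) (hN : NegData 𝒜 κ hB C P) (hF : FillP 𝒜 C P f)
    {u : Om (spM 𝒜)} {g : (spVF 𝒜 κ).pt → ℝ} (hU : UD 𝒜 hB κ u g) {c : Gs M} {b : Fin κ → Eu N} (hb : IsNF P κ c b) :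
    ∃ r : ℝ, |r| = 2 ∧ SI κ (spV 0) ((ptN hb).pull (thN hB hN hF u)) = algebraMap ℝ (Om (spV 0)) r :=
  deg_one' hB hk hodd hN hF hU hb

end Pool.Agent.Lib.MP_ccbbf6_gt.L5
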