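import Pool.Agent.Lib.MP_ccbbf6_gt.L5.NY
import Pool.Agent.Lib.MP_ccbbf6_gt.L5.SIV2

/-!
# Level 5, DG1api: definitions of block DEG1 (helper2): `D = ± 1` (the theorem `deg_one` is in the file DG17)

`FN hF` (NY, helper93): homotopy from `z_-` to `z_+`, the map `F` of `PhiD`.
`deg_one` (file DG17): for every `c` and every orthonormal basis `b` of the fibre of the negative bundle at `c`:
`SI κ _ ((ptN c b).pull (iO (AO (b0 FN u)))) = r` with `|r| = 2` (`κ` odd). With `J (f) = ± 2` for the Euler form this gives `|D| = 1`.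
Also in this block (files DG1, DG2, no sorry): `lg` (logarithm), `smV_lg`, `smAt_Ex2`, `rat 𝒜 x y t` (geodesic homotopy), `smAt_rat`.
-/

set_option autoImplicit false
set_option linter.unusedSectionVars false
set_option linter.unusedVariables false

open Set Filter Topology Metric Real Module
open scoped ContDiff RealInnerProductSpace

noncomputable section

namespace Pool.Agent.Lib.MP_ccbbf6_gt.L5

open Geo L4 L4.FR L4.ORI NEG

variable {n : ℕ} {M : Type} [MetricSpace M] [CompactSpace M] {𝒜 : SDist n M} {N κ : ℕ} {C : Eu N → Gs M → M}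
  {P : Gs M → Eu N →L[ℝ] Eu N} {f : Gs M → Eu N → M}

/-- orthonormal bases of the fibre of the negative bundle at `c` -/
structure IsNF (P : Gs M → Eu N →L[ℝ] Eu N) (κ : ℕ) (c : Gs M) (b : Fin κ → Eu N) : Prop where
  mem : ∀ i, InP P c (b i)
  orth : ∀ i j, ⟪b i, b j⟫ = if i = j then (1 : ℝ) else 0

/-- the vector with coordinates `ξ` -/
def vcN (b : Fin κ → Eu N) (ξ : V κ) : Eu N := ∑ i, ξ i • b i

theorem IsNF.norm {c : Gs M} {b : Fin κ → Eu N} (hb : IsNF P κ c b) (ξ : V κ) : ‖vcN b ξ‖ = ‖toE ξ‖ := by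
  have h1 : ‖vcN b ξ‖ ^ 2 = ‖toE ξ‖ ^ 2 := by
    rw [← real_inner_self_eq_norm_sq, toE_sq]
    unfold vcN
    rw [sum_inner]
    refine Finset.sum_congr rfl fun i _ => ?_
    rw [inner_sum, Finset.sum_eq_single i]
    · rw [real_inner_smul_left, real_inner_smul_right, hb.orth, if_pos rfl, mul_one, sq]
    · intro j _ hj
      rw [real_inner_smul_left, real_inner_smul_right, hb.orth, if_neg (Ne.symm hj), mul_zero, mul_zero]
    · intro h
      exact absurd (Finset.mem_univ i) h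
  exact (sq_eq_sq₀ (norm_nonneg _) (norm_nonneg _)).1 h1

theorem IsNF.inP {c : Gs M} {b : Fin κ → Eu N} (hb : IsNF P κ c b) (r : ℝ) (ξ : V κ) : InP P c (r • vcN b ξ) := by
  show P c (r • vcN b ξ) = r • vcN b ξ
  unfold vcN
  rw [map_smul, map_sum]
  congr 1
  refine Finset.sum_congr rfl fun i _ => ?_
  rw [map_smul]
  exact congrArg _ (hb.mem i)

/-- the unit vectors of the fibre at `c` in the coordinates of the basis -/
def ptN {c : Gs M} {b : Fin κ → Eu N} (hb : IsNF P κ c b) : SMap ((spV 0).xP κ) (spN 𝒜 P) :=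
  ⟨fun z => ⟨(c, ‖toE z.1.2‖⁻¹ • vcN b z.1.2), hb.inP _ _, by
    rw [norm_smul, hb.norm, norm_inv, norm_norm]
    exact inv_mul_cancel₀ (norm_ne_zero_iff.2 (toE_ne z.2))⟩, fun k p => by
    have h0 : SmG 𝒜 (fun _ : V k => c) := ⟨sm_const _, sm_const _⟩
    refine ⟨h0, ?_⟩
    have h1 : ContDiff ℝ ∞ fun u => (p.1 u).1.2 := p.2.2
    have h2 : ContDiff ℝ ∞ fun u => vcN b (p.1 u).1.2 := by
      unfold vcN
      exact ContDiff.sum fun i _ => (contDiff_pi.1 h1 i).smul contDiff_const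
    have h3 : ContDiff ℝ ∞ fun u => ‖toE (p.1 u).1.2‖⁻¹ := by
      refine ContDiff.inv (ContDiff.norm ℝ (contDiff_toE.comp h1) fun u => toE_ne (p.1 u).2) fun u => ?_
      exact norm_ne_zero_iff.2 (toE_ne (p.1 u).2)
    exact h3.smul h2⟩

/-- the closed form `ι_φ` of the average of the path form of `FN` -/
def thN (hB : Bl M) (hN : NegData 𝒜 κ hB C P) (hF : FillP 𝒜 C P f) (u : Om (spM 𝒜)) : Om (spN 𝒜 P) :=
  iO (circN hB hN) (AO (circN hB hN) (b0 (FN hF) u))

end Pool.Agent.Lib.MP_ccbbf6_gt.L5
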