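import Pool.Agent.Lib.MP_ccbbf6_gt.L5.INTh

/-!
# Level 5, DIM: the dimension of a sphere bundle (helper67)

`SBun.dimLE`: if `B` has dimension at most `d`, then `S` has dimension at most `d + N`.
-/

set_option autoImplicit false
set_option maxSynthPendingDepth 3

open Set Filter Topology Metric Real Module
open scoped ContDiff RealInnerProductSpace

noncomputable section

namespace Pool.Agent.Lib.MP_ccbbf6_gt.L5

open Geo L4 L4.FR

variable {k l N d : ℕ} {S B : Space}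

/-- smooth families of unit vectors factor locally through a family with `N` parameters -/
theorem sph_chart {ξ : V k → Eu (N + 1)} (hξ : ContDiff ℝ ∞ ξ) (h1 : ∀ y, ‖ξ y‖ = 1) (z : V k) :
    ∃ (σ : V N → Eu (N + 1)) (h : FR.Sm k k) (g : FR.Sm k N), ContDiff ℝ ∞ σ ∧ (∀ v, ‖σ v‖ = 1) ∧
      (∀ᶠ y in 𝓝 z, h y = y) ∧ ∀ y, ξ (h y) = σ (g y) := by
  obtain ⟨e, he⟩ : ∃ e, e = ξ z := ⟨_, rfl⟩
  have he1 : ‖e‖ = 1 := by rw [he, h1]
  have he0 : e ≠ 0 := fun h => by rw [h, norm_zero] at he1; exact zero_ne_one he1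
  obtain ⟨W, hW⟩ : ∃ W : Submodule ℝ (Eu (N + 1)), W = (ℝ ∙ e)ᗮ := ⟨_, rfl⟩
  have hr : finrank ℝ W = N := by
    have h2 := Submodule.finrank_add_finrank_orthogonal (ℝ ∙ e)
    rw [finrank_span_singleton he0, finrank_euclideanSpace_fin, ← hW] at h2
    omega
  let b := (stdOrthonormalBasis ℝ W).reindex (finCongr hr)
  -- the expansion
  have hexp : ∀ x : Eu (N + 1), x = (∑ i, ⟪(b i : Eu (N + 1)), x⟫ • (b i : Eu (N + 1))) + ⟪e, x⟫ • e := by
    intro x
    have h2 : (ℝ ∙ e).starProjection x + W.starProjection x = x := by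
      rw [hW]
      exact Submodule.starProjection_add_starProjection_orthogonal _
    have h3 : (ℝ ∙ e).starProjection x = ⟪e, x⟫ • e := Submodule.starProjection_unit_singleton ℝ he1 x
    have h4 : W.starProjection x = ∑ i, ⟪(b i : Eu (N + 1)), x⟫ • (b i : Eu (N + 1)) := by
      have h5 := b.sum_repr (W.orthogonalProjectionOnto x)
      have h6 := congrArg (fun w : W => (w : Eu (N + 1))) h5
      simp only [AddSubmonoidClass.coe_finsetSum, Submodule.coe_smul] at h6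
      rw [Submodule.starProjection_apply, ← h6]
      refine Finset.sum_congr rfl fun i _ => ?_
      rw [b.repr_apply_apply]
      congr 1
      exact Submodule.inner_orthogonalProjectionOnto_eq_of_mem_left (b i) x
    rw [← h4, ← h3, add_comm ((W.starProjection : Eu (N + 1) →L[ℝ] Eu (N + 1)) x)]
    exact h2.symm
  have hbo : ∀ i j, ⟪(b i : Eu (N + 1)), (b j : Eu (N + 1))⟫ = if i = j then (1 : ℝ) else 0 := by
    intro i j
    have h2 := orthonormal_iff_ite.1 b.orthonormal i j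
    exact h2
  have hbe : ∀ i, ⟪e, (b i : Eu (N + 1))⟫ = 0 := by
    intro i
    have h2 : ((b i : W) : Eu (N + 1)) ∈ (ℝ ∙ e)ᗮ := by rw [← hW]; exact (b i).2
    exact Submodule.mem_orthogonal_singleton_iff_inner_right.1 h2
  have hnorm : ∀ (v : V N) (t : ℝ), ‖(∑ i, v i • (b i : Eu (N + 1))) + t • e‖ ^ 2 = (∑ i, v i * v i) + t ^ 2 := by
    intro v t
    have h2 : ‖(∑ i, v i • (b i : Eu (N + 1)))‖ ^ 2 = ∑ i, v i * v i := by
      rw [← real_inner_self_eq_norm_sq]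
      have h3 : Orthonormal ℝ fun i => (b i : Eu (N + 1)) := by
        rw [orthonormal_iff_ite]
        exact hbo
      exact h3.inner_sum v v Finset.univ
    have h4 : ⟪(∑ i, v i • (b i : Eu (N + 1))), t • e⟫ = 0 := by
      rw [inner_smul_right, sum_inner]
      refine mul_eq_zero_of_right _ (Finset.sum_eq_zero fun i _ => ?_)
      rw [real_inner_smul_left, real_inner_comm, hbe, mul_zero]
    have h5 : ⟪t • e, (∑ i, v i • (b i : Eu (N + 1)))⟫ = 0 := by
      rw [real_inner_comm]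
      exact h4
    rw [← real_inner_self_eq_norm_sq, inner_add_add_self, h4, h5, real_inner_self_eq_norm_sq,
      real_inner_self_eq_norm_sq, h2, norm_smul, he1, mul_one, Real.norm_eq_abs, sq_abs]
    ring
  -- the parameters
  obtain ⟨η, hη⟩ : ∃ η : V k → V N, η = fun y i => ⟪(b i : Eu (N + 1)), ξ y⟫ := ⟨_, rfl⟩
  have hηs : ContDiff ℝ ∞ η := by
    rw [hη]
    exact contDiff_pi.2 fun i => contDiff_const.inner ℝ hξ
  have hηz : η z = 0 := by
    rw [hη]
    funext i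
    show ⟪(b i : Eu (N + 1)), ξ z⟫ = 0
    rw [← he, real_inner_comm, hbe]
  have hU0 : {v : V N | ∑ i, v i * v i < 1} ∈ 𝓝 (0 : V N) := by
    have h2 : Continuous fun v : V N => ∑ i, v i * v i :=
      continuous_finsetSum _ fun i _ => (continuous_apply i).mul (continuous_apply i)
    refine h2.continuousAt.eventually (gt_mem_nhds ?_)
    simp
  obtain ⟨s, hs1, hs2⟩ := exists_sq (0 : V N) hU0
  have hsq : ContDiff ℝ ∞ fun v : V N => √(1 - ∑ i, s v i * s v i) := by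
    refine ContDiff.sqrt (contDiff_const.sub (ContDiff.sum fun i _ => ?_)) fun v => ?_
    · have h2 : ContDiff ℝ ∞ fun v => s v i := (contDiff_pi.1 s.smooth) i
      exact h2.mul h2
    · have h2 : ∑ i, s v i * s v i < 1 := hs2 v
      linarith
  have hU : {y : V k | 0 < ⟪e, ξ y⟫ ∧ s (η y) = η y} ∈ 𝓝 z := by
    have h2 : ContinuousAt (fun y => ⟪e, ξ y⟫) z := (continuous_const.inner hξ.continuous).continuousAt
    have h3 : (0 : ℝ) < ⟪e, ξ z⟫ := by
      rw [← he, real_inner_self_eq_norm_sq, he1]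
      norm_num
    have h4 : ∀ᶠ y in 𝓝 z, s (η y) = η y := by
      have h5 : ContinuousAt η z := hηs.continuous.continuousAt
      have h6 : ∀ᶠ v in 𝓝 (η z), s v = v := by rw [hηz]; exact hs1
      exact h5.eventually h6
    exact (h2.eventually (lt_mem_nhds h3)).and h4
  obtain ⟨h, hh1, hh2⟩ := exists_sq z hU
  refine ⟨fun v => (∑ i, s v i • (b i : Eu (N + 1))) + √(1 - ∑ i, s v i * s v i) • e, h,
    ⟨fun y => η (h y), hηs.comp h.smooth⟩, ?_, ?_, hh1, ?_⟩
  · refine ContDiff.add (ContDiff.sum fun i _ => ?_) (hsq.smul contDiff_const)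
    have h2 : ContDiff ℝ ∞ fun v => s v i := (contDiff_pi.1 s.smooth) i
    exact h2.smul contDiff_const
  · intro v
    have h2 : ∑ i, s v i * s v i < 1 := hs2 v
    have h3 := hnorm (s v) (√(1 - ∑ i, s v i * s v i))
    rw [Real.sq_sqrt (by linarith)] at h3
    have h4 : ‖(∑ i, s v i • (b i : Eu (N + 1))) + √(1 - ∑ i, s v i * s v i) • e‖ ^ 2 = 1 := by rw [h3]; ring
    exact (pow_eq_one_iff_of_nonneg (norm_nonneg _) two_ne_zero).1 h4
  · intro y
    have h2 := hexp (ξ (h y))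
    obtain ⟨h3, h4⟩ := hh2 y
    have h5 := hnorm (η (h y)) ⟪e, ξ (h y)⟫
    have h6 : (∑ i, η (h y) i • (b i : Eu (N + 1))) + ⟪e, ξ (h y)⟫ • e = ξ (h y) := by
      rw [hη]
      exact h2.symm
    rw [h6, h1] at h5
    have h7 : √(1 - ∑ i, s (η (h y)) i * s (η (h y)) i) = ⟪e, ξ (h y)⟫ := by
      rw [h4]
      have h8 : 1 - ∑ i, η (h y) i * η (h y) i = ⟪e, ξ (h y)⟫ ^ 2 := by linarith
      rw [h8, Real.sqrt_sq h3.le]
    show ξ (h y) = (∑ i, s (η (h y)) i • (b i : Eu (N + 1))) + √(1 - ∑ i, s (η (h y)) i * s (η (h y)) i) • e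
    rw [h7, h4, h6]

/-- **the dimension of a sphere bundle** -/
theorem SBun.dimLE (b : SBun N S B) (hd : DimLE B d) : DimLE S (d + N) := by
  intro k P z
  obtain ⟨h1, q1, g1, hh1, e1⟩ := hd k (b.pi.pl P) z
  obtain ⟨h2, Q, hh2, e2⟩ := b.lift d q1 (g1 z)
  obtain ⟨h3, R, hh3, e3⟩ := b.lift1 k P z
  have hU : {y : V k | h1 y = y ∧ h3 y = y ∧ h2 (g1 y) = g1 y} ∈ 𝓝 z := by
    have h4 : ∀ᶠ y in 𝓝 z, h2 (g1 y) = g1 y := g1.smooth.continuous.continuousAt.eventually hh2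
    exact hh1.and (hh3.and h4)
  obtain ⟨h4, hh4, hm⟩ := exists_sq z hU
  -- the two frames
  have f1 : ∀ y, b.pi.1 (P.1 (h1 y)) = q1.1 (g1 y) := fun y => congrFun (congrArg Subtype.val e1) y
  have f2 : ∀ y, b.q.1 (Q.1 y) = q1.1 (h2 y) := fun y => congrFun (congrArg Subtype.val e2) y
  have f3 : ∀ y, (b.ptm.comp (e1M b.F N)).1 (R.1 y) = P.1 (h3 y) := fun y => congrFun (congrArg Subtype.val e3) y
  obtain ⟨g4, hg4⟩ : ∃ g4 : FR.Sm k d, ∀ y, g4 y = g1 (h4 y) := ⟨⟨fun y => g1 (h4 y), g1.smooth.comp h4.smooth⟩, fun _ => rfl⟩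
  have e5 : b.q.pl (Q.cmp g4) = b.q.pl (R.cmp h4) := by
    refine Plot_ext fun y => ?_
    show b.q.1 (Q.1 (g4 y)) = b.q.1 (R.1 (h4 y))
    rw [f2, hg4, (hm y).2.2, ← f1, (hm y).1]
    have h5 := congrArg b.pi.1 (f3 (h4 y))
    rw [(hm y).2.1] at h5
    rw [← h5]
    exact b.pi_pt _
  obtain ⟨A, hA, -, hA1, hA2⟩ := b.change k _ _ e5
  -- the coordinates
  obtain ⟨ξ, hξ⟩ : ∃ ξ : V k → Eu (N + 1), ξ = fun y => toE ((A y).mulVec (Pi.single 0 1)) := ⟨_, rfl⟩
  have hξs : ContDiff ℝ ∞ ξ := by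
    rw [hξ]
    refine contDiff_toE.comp (contDiff_pi.2 fun i => ?_)
    have h5 : (fun y => (A y).mulVec (Pi.single 0 1) i) = fun y => A y i 0 := by
      funext y
      simp [Matrix.mulVec_single]
    rw [h5]
    exact hA i 0
  have hξ1 : ∀ y, ‖ξ y‖ = 1 := by
    intro y
    have h5 : ‖ξ y‖ ^ 2 = 1 := by
      rw [EuclideanSpace.norm_sq_eq]
      have h6 := congrFun (congrFun (hA1 y) 0) 0
      rw [Matrix.mul_apply, Matrix.one_apply_eq] at h6
      refine Eq.trans (Finset.sum_congr rfl fun i _ => ?_) h6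
      have h7 : (ξ y).ofLp i = A y i 0 := by
        rw [hξ]
        show (A y).mulVec (Pi.single 0 1) i = A y i 0
        simp [Matrix.mulVec_single]
      rw [h7, Real.norm_eq_abs, sq_abs, Matrix.transpose_apply]
      ring
    exact (pow_eq_one_iff_of_nonneg (norm_nonneg _) two_ne_zero).1 h5
  obtain ⟨σ, h5, g5, hσ, hσ1, hh5, hσg⟩ := sph_chart hξs hξ1 z
  have hσ0 : ∀ v, (σ v).ofLp ≠ 0 := by
    intro v h6
    have h7 : σ v = 0 := by
      have : toE (σ v).ofLp = toE 0 := by rw [h6]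
      exact this
    have h8 := hσ1 v
    rw [h7, norm_zero] at h8
    exact zero_ne_one h8
  have hσs : ContDiff ℝ ∞ fun v => (σ v).ofLp := (PiLp.continuousLinearEquiv 2 ℝ (fun _ : Fin (N + 1) => ℝ)).contDiff.comp hσ
  -- the family
  obtain ⟨pa, hpa⟩ : ∃ pa : FR.Sm (d + N) d, ∀ w i, pa w i = w (Fin.castAdd N i) :=
    ⟨⟨fun w i => w (Fin.castAdd N i), contDiff_pi.2 fun i => contDiff_apply ℝ ℝ _⟩, fun _ _ => rfl⟩
  obtain ⟨pb', hpb⟩ : ∃ pb' : FR.Sm (d + N) N, ∀ w i, pb' w i = w (Fin.natAdd d i) :=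
    ⟨⟨fun w i => w (Fin.natAdd d i), contDiff_pi.2 fun i => contDiff_apply ℝ ℝ _⟩, fun _ _ => rfl⟩
  let T : (b.F.xP (N + 1)).Plot (d + N) := ⟨fun w => ⟨(Q.1 (pa w), (σ (pb' w)).ofLp), hσ0 _⟩,
    ⟨b.F.pre Q.2 pa, hσs.comp pb'.smooth⟩⟩
  have hgs : ContDiff ℝ ∞ fun y => (Fin.append (g1 (h4 (h5 y))) (g5 y) : V (d + N)) := by
    refine contDiff_pi.2 fun i => ?_
    refine Fin.addCases (fun i => ?_) (fun i => ?_) i
    · simp only [Fin.append_left]
      exact (contDiff_pi.1 (g1.smooth.comp (h4.smooth.comp h5.smooth))) i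
    · simp only [Fin.append_right]
      exact (contDiff_pi.1 g5.smooth) i
  refine ⟨⟨fun y => h4 (h5 y), h4.smooth.comp h5.smooth⟩, b.ptm.pl T, ⟨_, hgs⟩, ?_, ?_⟩
  · filter_upwards [hh5, hh4] with y h6 h7
    show h4 (h5 y) = y
    rw [h6, h7]
  · refine Plot_ext fun y => ?_
    show P.1 (h4 (h5 y)) = b.ptm.1 (T.1 (Fin.append (g1 (h4 (h5 y))) (g5 y)))
    have h6 : pa (Fin.append (g1 (h4 (h5 y))) (g5 y)) = g4 (h5 y) := by
      funext i
      rw [hpa, Fin.append_left, hg4]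
    have h7 : pb' (Fin.append (g1 (h4 (h5 y))) (g5 y)) = g5 y := by
      funext i
      rw [hpb, Fin.append_right]
    have h8 : ((A (h5 y)).mulVec (Pi.single 0 1)) = (σ (g5 y)).ofLp := by
      have h9 := hσg y
      rw [hξ] at h9
      exact congrArg (fun v : Eu (N + 1) => v.ofLp) h9
    have h9 := hA2 (h5 y) (Pi.single 0 1) (e1_ne N)
    have h10 := f3 (h4 (h5 y))
    rw [(hm (h5 y)).2.1] at h10
    rw [← h10]
    refine h9.trans ?_
    refine congrArg b.ptm.1 (Subtype.ext (Prod.ext ?_ ?_))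
    · show Q.1 (g4 (h5 y)) = Q.1 (pa (Fin.append (g1 (h4 (h5 y))) (g5 y)))
      rw [h6]
    · show (A (h5 y)).mulVec (Pi.single 0 1) = (σ (pb' (Fin.append (g1 (h4 (h5 y))) (g5 y)))).ofLp
      rw [h7, h8]

end Pool.Agent.Lib.MP_ccbbf6_gt.L5
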