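import Pool.Agent.Lib.MP_ccbbf6_gt.L5.EU3

/-!
# Level 5, EU5: naturality of the Euler form, isometric bundles (helper13)

* `FHom` : morphism of function algebra + differential algebra; instances for spaces;
* `FHom.psi`, `FHom.eul`, `FHom.eu2`;
* `FCyl` : cylinders; `FCyl.eul_iso`, `FCyl.eu2_iso` : isometric bundles have cohomologous Euler forms.
-/

set_option autoImplicit false
set_option maxSynthPendingDepth 3
set_option linter.unusedSectionVars false

open Matrix Function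
open scoped ContDiff

noncomputable section

namespace Pool.Agent.Lib.MP_ccbbf6_gt.L5

open L4 L4.FR

variable {ι κ μ : Type*} [Fintype ι] [DecidableEq ι] [Fintype κ] [DecidableEq κ] [Fintype μ] [DecidableEq μ] {r : ℕ}

variable {A A' : Type*} [CommRing A] [Algebra ℝ A] [CommRing A'] [Algebra ℝ A'] {B B' : Type*} [Ring B] [Algebra ℝ B]
  [Ring B'] [Algebra ℝ B'] {G : GDA B} {G' : GDA B'}

/-- morphisms -/
structure FHom (φ : Fun0 A G) (φ' : Fun0 A' G') where
  /-- forms -/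
  h : GHom G G'
  /-- functions -/
  g : A →ₐ[ℝ] A'
  com : ∀ a, h.f (φ.f a) = φ'.f (g a)

/-- Euler form in rank two -/
def eu2 (φ : Fun0 A G) (P : Matrix ι ι A) (o : (Fin 2 → ι) → A) : B :=
  (1 / (4 * Real.pi)) • St φ o (fun I => Rv φ P (I 0) (I 1))

theorem s_eu2 {φ : Fun0 A G} {P : Matrix ι ι A} {o : (Fin 2 → ι) → A} (h : P * P = P) :
    G.s (eu2 φ P o) = eu2 φ P o := by
  unfold eu2
  rw [map_smul, s_St]
  congr 1
  exact St_congr fun I => s_Rv h _ _

theorem fin2 {Q : Fin 2 → Prop} (h0 : Q 0) (h1 : Q 1) : ∀ k : Fin 2, Q k := by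
  intro k
  match k with
  | 0 => exact h0
  | 1 => exact h1

theorem M2_0 {φ : Fun0 A G} {M : Matrix ι ι B} (p : ι → A) (I : Fin 2 → ι) :
    ∑ m, φ.f (p m) * M (update I 0 m 0) (update I 0 m 1) = ∑ m, φ.f (p m) * M m (I 1) :=
  Finset.sum_congr rfl fun m _ => by simp

theorem M2_1 {φ : Fun0 A G} {M : Matrix ι ι B} (p : ι → A) (I : Fin 2 → ι) :
    ∑ m, φ.f (p m) * M (update I 1 m 0) (update I 1 m 1) = ∑ m, φ.f (p m) * M (I 0) m :=
  Finset.sum_congr rfl fun m _ => by simp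

theorem d_eu2 {φ : Fun0 A G} {P : Matrix ι ι A} {o : (Fin 2 → ι) → A} (h : Or 2 P o) : G.d (eu2 φ P o) = 0 := by
  unfold eu2
  obtain ⟨R, hR⟩ : ∃ R, R = Rv φ P := ⟨_, rfl⟩
  have hM : MInv φ P R := by rw [hR]; exact MInv_Rv h.idem h.sym
  have hI : Inv φ P (fun I : Fin 2 → ι => R (I 0) (I 1)) := by
    refine fin2 ?_ ?_
    · intro I
      rw [M2_0 (M := R), hM.l]
    · intro I
      rw [M2_1 (M := R), hM.r]
  rw [map_smul, ← hR, d_St h hI]
  have h1 : St φ o (fun I => G.D R (I 0) (I 1)) = St φ o (fun I => ∑ m, φ.f (P (I 0) m) * G.D R m (I 1)) :=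
    St_pr h 0 fun I => M2_0 (M := G.D R) _ I
  have h2 : St φ o (fun I => ∑ m, φ.f (P (I 0) m) * G.D R m (I 1)) = St φ o (fun _ => 0) := by
    refine St_pr h 1 fun I => ?_
    have h3 := M2_1 (φ := φ) (M := fun i j => ∑ m, φ.f (P i m) * G.D R m j) (fun m => P (I 1) m) I
    rw [h3]
    exact two_side h.sym (by rw [hR]; exact Rv_closed h.idem) _ _
  have h4 : St φ o (fun I => G.d (R (I 0) (I 1))) = 0 := by
    refine Eq.trans ?_ (h1.trans (h2.trans St_zero))
    rfl
  rw [h4, smul_zero]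

theorem eu2_op {φ : Fun0 A G} {P : Matrix ι ι A} {o : (Fin 2 → ι) → A} : eu2 φ P (fun I => -o I) = -eu2 φ P o := by
  unfold eu2
  rw [← smul_neg]
  congr 1
  unfold St
  rw [← Finset.sum_neg_distrib]
  exact Finset.sum_congr rfl fun I _ => by rw [map_neg, neg_mul]

namespace FHom

variable {φ : Fun0 A G} {φ' : Fun0 A' G'} (F : FHom φ φ')

variable {P : Matrix ι ι A} {y : ι → A}

theorem st (o : (Fin r → ι) → A) (T : (Fin r → ι) → B) :
    F.h.f (St φ o T) = St φ' (fun I => F.g (o I)) (fun I => F.h.f (T I)) := by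
  unfold St
  rw [map_sum]
  exact Finset.sum_congr rfl fun I _ => by rw [map_mul, F.com]

theorem mf (M : Matrix ι κ A) : (M.map φ.f).map F.h.f = (M.map F.g).map φ'.f := by
  ext i j
  exact F.com _

theorem uv (l : ι) : F.h.f (L5.uv φ y l) = L5.uv φ' (fun l => F.g (y l)) l := F.com _

theorem dvv (l : ι) : F.h.f (L5.Dv φ P y l) = L5.Dv φ' (P.map F.g) (fun l => F.g (y l)) l := by
  unfold L5.Dv pv dv L5.uv
  rw [map_sum]
  exact Finset.sum_congr rfl fun m _ => by rw [map_mul, F.com, F.h.f_d, F.com]; rfl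

theorem rv (l m : ι) : F.h.f (Rv φ P l m) = Rv φ' (P.map F.g) l m := by
  have h1 : (Rv φ P).map F.h.f = Rv φ' (P.map F.g) := by
    unfold Rv
    rw [F.h.map_mul', F.h.map_R, F.mf]
  exact congrFun (congrFun h1 l) m

theorem psi (o : (Fin 4 → ι) → A) :
    F.h.f (L5.psi φ P o y) = L5.psi φ' (P.map F.g) (fun I => F.g (o I)) (fun l => F.g (y l)) := by
  unfold L5.psi psi0 psi1
  rw [map_smul, map_add, map_smul, F.st, F.st]
  congr 1
  congr 1
  · refine St_congr fun I => ?_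
    unfold P4
    rw [map_mul, map_mul, map_mul, F.uv, F.dvv, F.dvv, F.dvv]
  · congr 1
    refine St_congr fun I => ?_
    unfold PM
    rw [map_mul, map_mul, F.uv, F.dvv, F.rv]

theorem eul (o : (Fin 4 → ι) → A) : F.h.f (L5.eul φ P o) = L5.eul φ' (P.map F.g) (fun I => F.g (o I)) := by
  unfold L5.eul Z5
  rw [map_smul, F.st]
  congr 1
  refine St_congr fun I => ?_
  unfold MM
  rw [map_mul, F.rv, F.rv]

theorem eu2 (o : (Fin 2 → ι) → A) : F.h.f (L5.eu2 φ P o) = L5.eu2 φ' (P.map F.g) (fun I => F.g (o I)) := by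
  unfold L5.eu2
  rw [map_smul, F.st]
  congr 1
  exact St_congr fun I => F.rv _ _

end FHom

/-! ### spaces -/

/-- pull-backs -/
def FHom.pull {X Y : Space} (f : SMap X Y) : FHom (FO Y) (FO X) := ⟨GHom.pull f, pf f, fun _ => rfl⟩

/-- basic forms as forms -/
def FHom.inc {X : Space} (c : Circ X) : FHom (FB c) (FO X) := ⟨incB c, (SB c).val, fun _ => rfl⟩

/-- equivariant maps -/
def FHom.pullB {X Y : Space} {c : Circ X} {c' : Circ Y} (f : SMap X Y)
    (h : ∀ x s, f.1 (c.a.1 (x, s)) = c'.a.1 (f.1 x, s)) : FHom (FB c') (FB c) where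
  h := GHom.pullB f h
  g :=
    { toFun := fun w => ⟨pf f w.1, fun x s => by
        change w.1.1 _ = w.1.1 _
        rw [h, w.2]⟩
      map_one' := rfl
      map_mul' := fun _ _ => rfl
      map_zero' := rfl
      map_add' := fun _ _ => rfl
      commutes' := fun _ => rfl }
  com := fun _ => rfl

/-- invariant maps -/
def GHom.toB {X Y : Space} {c : Circ X} (f : SMap X Y) (h : ∀ x s, f.1 (c.a.1 (x, s)) = f.1 x) :
    GHom (GO Y) (GB c) where
  f :=
    { toFun := fun w => ⟨f.pull w, by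
        change c.a.pull (f.pull w) = (pO X).pull (f.pull w)
        have h1 : f.comp c.a = f.comp (pO X) := SMap_ext fun x => h _ _
        rw [← pull_comp, h1, pull_comp]⟩
      map_one' := Subtype.ext (map_one _)
      map_mul' := fun _ _ => Subtype.ext (map_mul f.pull _ _)
      map_zero' := Subtype.ext (map_zero _)
      map_add' := fun _ _ => Subtype.ext (map_add f.pull _ _)
      commutes' := fun _ => Subtype.ext (AlgHom.commutes _ _) }
  f_d := fun _ => rfl
  f_s := fun _ => rfl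

/-- invariant maps -/
def FHom.toB {X Y : Space} {c : Circ X} (f : SMap X Y) (h : ∀ x s, f.1 (c.a.1 (x, s)) = f.1 x) :
    FHom (FO Y) (FB c) where
  h := GHom.toB f h
  g :=
    { toFun := fun w => ⟨pf f w, fun x s => by
        change w.1 _ = w.1 _
        rw [h]⟩
      map_one' := rfl
      map_mul' := fun _ _ => rfl
      map_zero' := rfl
      map_add' := fun _ _ => rfl
      commutes' := fun _ => rfl }
  com := fun _ => rfl

/-- the complexification -/
def FHom.ofR (φ : Fun0 A G) : FHom φ φ.C := ⟨GHom.ofR G, CB.ofR, fun a => by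
  refine CB.ext rfl ?_
  exact (map_zero φ.f).symm⟩

/-- the complexification of a morphism -/
def FHom.cx {φ : Fun0 A G} {φ' : Fun0 A' G'} (F : FHom φ φ') : FHom φ.C φ'.C := ⟨F.h.cx, CB.alg F.g, fun _ =>
  CB.ext (F.com _) (F.com _)⟩

/-! ### cylinders -/

/-- cylinders with functions -/
structure FCyl (φ : Fun0 A G) (φ' : Fun0 A' G') where
  /-- forms -/
  C : Cyl G G'
  /-- pull-back -/
  gp : A →ₐ[ℝ] A'
  /-- left end -/
  g0 : A' →ₐ[ℝ] A
  /-- right end -/
  g1 : A' →ₐ[ℝ] A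
  com_p : ∀ a, C.p.f (φ.f a) = φ'.f (gp a)
  com_0 : ∀ a, C.j0.f (φ'.f a) = φ.f (g0 a)
  com_1 : ∀ a, C.j1.f (φ'.f a) = φ.f (g1 a)
  g0_gp : ∀ a, g0 (gp a) = a
  g1_gp : ∀ a, g1 (gp a) = a
  /-- cosine -/
  cc : A'
  /-- sine -/
  tt : A'
  ct : cc * cc + tt * tt = 1
  c0 : g0 cc = 1
  t0 : g0 tt = 0
  c1 : g1 cc = 0
  t1 : g1 tt = 1

/-- the parameter functions -/
def parF (X : Space) (g : ℝ → ℝ) (hg : ContDiff ℝ ∞ g) : SF X.xR := ⟨fun z => g z.2, fun _ p => hg.comp p.2.2⟩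

/-- the cylinder of a space -/
def FCylO (X : Space) : FCyl (FO X) (FO X.xR) where
  C := CylO X
  gp := pf (pO X)
  g0 := pf (jO X 0)
  g1 := pf (jO X 1)
  com_p := fun _ => rfl
  com_0 := fun _ => rfl
  com_1 := fun _ => rfl
  g0_gp := fun _ => rfl
  g1_gp := fun _ => rfl
  cc := parF X (fun s => Real.cos (Real.pi / 2 * s)) (Real.contDiff_cos.comp (contDiff_const.mul contDiff_id))
  tt := parF X (fun s => Real.sin (Real.pi / 2 * s)) (Real.contDiff_sin.comp (contDiff_const.mul contDiff_id))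
  ct := SF_ext fun z => by
    have := Real.cos_sq_add_sin_sq (Real.pi / 2 * z.2)
    rw [sq, sq] at this
    exact this
  c0 := SF_ext fun z => by
    change Real.cos (Real.pi / 2 * 0) = 1
    rw [mul_zero, Real.cos_zero]
  t0 := SF_ext fun z => by
    change Real.sin (Real.pi / 2 * 0) = 0
    rw [mul_zero, Real.sin_zero]
  c1 := SF_ext fun z => by
    change Real.cos (Real.pi / 2 * 1) = 0
    rw [mul_one, Real.cos_pi_div_two]
  t1 := SF_ext fun z => by
    change Real.sin (Real.pi / 2 * 1) = 1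
    rw [mul_one, Real.sin_pi_div_two]

/-- the cylinder for basic forms -/
def FCylB {X : Space} (c : Circ X) : FCyl (FB c) (FB (Circ.xR c)) where
  C := CylB c
  gp := (FHom.pullB (c := Circ.xR c) (c' := c) (pO X) (fun _ _ => rfl)).g
  g0 := (FHom.pullB (c := c) (c' := Circ.xR c) (jO X 0) (fun _ _ => rfl)).g
  g1 := (FHom.pullB (c := c) (c' := Circ.xR c) (jO X 1) (fun _ _ => rfl)).g
  com_p := fun _ => rfl
  com_0 := fun _ => rfl
  com_1 := fun _ => rfl
  g0_gp := fun _ => rfl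
  g1_gp := fun _ => rfl
  cc := ⟨(FCylO X).cc, fun _ _ => rfl⟩
  tt := ⟨(FCylO X).tt, fun _ _ => rfl⟩
  ct := Subtype.ext (FCylO X).ct
  c0 := Subtype.ext (FCylO X).c0
  t0 := Subtype.ext (FCylO X).t0
  c1 := Subtype.ext (FCylO X).c1
  t1 := Subtype.ext (FCylO X).t1

end Pool.Agent.Lib.MP_ccbbf6_gt.L5
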