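import Pool.Agent.Lib.MP_ccbbf6_gt.L5.EU4
import Pool.Agent.Lib.MP_ccbbf6_gt.L5.EU5

/-!
# Level 5, EG0: Pfaffian functional of an orientation tensor of even rank, over a commutative ring (helper13)

`pfo o M = sum_I o I * prod_a M (I (2 a)) (I (2 a + 1))`.
* `pfo_push` : `pfo (push u o) M = pfo o (u^T M u)`;
* `pfo_proj` : projections of `M` are not seen;
* `pfo_kill` : a unit section killed by `M` gives `pfo o M = 0`.
-/

set_option autoImplicit false
set_option maxSynthPendingDepth 3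
set_option linter.unusedSectionVars false

open Matrix Function

noncomputable section

namespace Pool.Agent.Lib.MP_ccbbf6_gt.L5

variable {ι κ : Type*} [Fintype ι] [DecidableEq ι] [Fintype κ] [DecidableEq κ] {m : ℕ}

/-- first slot of a pair -/
def s0 (a : Fin m) : Fin (2 * m) := ⟨2 * a.1, by omega⟩

/-- second slot of a pair -/
def s1 (a : Fin m) : Fin (2 * m) := ⟨2 * a.1 + 1, by omega⟩

/-- pairs of slots -/
def pairs (m : ℕ) : Fin (2 * m) ≃ Fin m × Fin 2 where
  toFun k := (⟨k.1 / 2, by omega⟩, ⟨k.1 % 2, by omega⟩)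
  invFun z := ⟨2 * z.1.1 + z.2.1, by omega⟩
  left_inv k := by
    refine Fin.ext ?_
    change 2 * (k.1 / 2) + k.1 % 2 = k.1
    omega
  right_inv z := by
    refine Prod.ext (Fin.ext ?_) (Fin.ext ?_)
    · change (2 * z.1.1 + z.2.1) / 2 = z.1.1
      omega
    · change (2 * z.1.1 + z.2.1) % 2 = z.2.1
      omega

theorem pairs_s0 (a : Fin m) : (pairs m).symm (a, 0) = s0 a := Fin.ext (by
  change 2 * a.1 + 0 = 2 * a.1
  rfl)

theorem pairs_s1 (a : Fin m) : (pairs m).symm (a, 1) = s1 a := rfl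

theorem s0_ne_s1 (a b : Fin m) : s0 a ≠ s1 b := fun h => by
  have := congrArg Fin.val h
  change 2 * a.1 = 2 * b.1 + 1 at this
  omega

theorem s0_inj {a b : Fin m} (h : s0 a = s0 b) : a = b := Fin.ext (by
  have := congrArg Fin.val h
  change 2 * a.1 = 2 * b.1 at this
  omega)

theorem s1_inj {a b : Fin m} (h : s1 a = s1 b) : a = b := Fin.ext (by
  have := congrArg Fin.val h
  change 2 * a.1 + 1 = 2 * b.1 + 1 at this
  omega)

theorem prod_pairs {E : Type*} [CommMonoid E] (f : Fin (2 * m) → E) : ∏ k, f k = ∏ a, f (s0 a) * f (s1 a) := by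
  rw [← Fintype.prod_equiv (pairs m).symm (fun z => f ((pairs m).symm z)) f fun _ => rfl, Fintype.prod_prod_type]
  refine Finset.prod_congr rfl fun a _ => ?_
  rw [Fin.prod_univ_two, pairs_s0, pairs_s1]

theorem sum_pairs {E : Type*} [AddCommMonoid E] (f : Fin (2 * m) → E) : ∑ k, f k = ∑ a, (f (s0 a) + f (s1 a)) := by
  rw [← Fintype.sum_equiv (pairs m).symm (fun z => f ((pairs m).symm z)) f fun _ => rfl, Fintype.sum_prod_type]
  refine Finset.sum_congr rfl fun a _ => ?_
  rw [Fin.sum_univ_two, pairs_s0, pairs_s1]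

theorem pairs_ind {Q : Fin (2 * m) → Prop} (h0 : ∀ a, Q (s0 a)) (h1 : ∀ a, Q (s1 a)) (k : Fin (2 * m)) : Q k := by
  obtain ⟨z, rfl⟩ := (pairs m).symm.surjective k
  obtain ⟨a, b⟩ := z
  revert b
  exact fin2 (by rw [pairs_s0]; exact h0 a) (by rw [pairs_s1]; exact h1 a)

/-- multi-indices as pairs of indices -/
def mi (m : ℕ) (κ : Type*) : (Fin (2 * m) → κ) ≃ (Fin m → κ × κ) where
  toFun K a := (K (s0 a), K (s1 a))
  invFun L k := ![(L (pairs m k).1).1, (L (pairs m k).1).2] (pairs m k).2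
  left_inv K := by
    funext k
    obtain ⟨z, rfl⟩ := (pairs m).symm.surjective k
    obtain ⟨a, b⟩ := z
    simp only [Equiv.apply_symm_apply]
    revert b
    exact fin2 (by rw [pairs_s0]; rfl) rfl
  right_inv L := by
    funext a
    refine Prod.ext ?_ ?_
    · change ![(L (pairs m (s0 a)).1).1, (L (pairs m (s0 a)).1).2] (pairs m (s0 a)).2 = (L a).1
      rw [← pairs_s0, Equiv.apply_symm_apply]
      rfl
    · change ![(L (pairs m (s1 a)).1).1, (L (pairs m (s1 a)).1).2] (pairs m (s1 a)).2 = (L a).2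
      rw [← pairs_s1, Equiv.apply_symm_apply]
      rfl

/-- a sum over multi-indices of a product over pairs -/
theorem sum_prod_pairs {E : Type*} [CommSemiring E] (g : Fin m → κ → κ → E) :
    ∑ K : Fin (2 * m) → κ, ∏ a, g a (K (s0 a)) (K (s1 a)) = ∏ a, ∑ i, ∑ j, g a i j := by
  rw [Fintype.sum_equiv (mi m κ) (fun K : Fin (2 * m) → κ => ∏ a, g a (K (s0 a)) (K (s1 a)))
    (fun L => ∏ a, g a (L a).1 (L a).2) fun _ => rfl]
  have h1 := Fintype.prod_sum (fun (a : Fin m) (z : κ × κ) => g a z.1 z.2)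
  rw [← h1]
  refine Finset.prod_congr rfl fun a _ => ?_
  rw [Fintype.sum_prod_type]

variable {E : Type*} [CommRing E]

/-- the Pfaffian functional -/
def pfo (o : (Fin (2 * m) → ι) → E) (M : Matrix ι ι E) : E := ∑ I, o I * ∏ a, M (I (s0 a)) (I (s1 a))

/-- several matrices -/
def pfs (o : (Fin (2 * m) → ι) → E) (M : Fin m → Matrix ι ι E) : E := ∑ I, o I * ∏ a, M a (I (s0 a)) (I (s1 a))

theorem pfo_eq (o : (Fin (2 * m) → ι) → E) (M : Matrix ι ι E) : pfo o M = pfs o (fun _ => M) := rfl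

theorem pfs_push (u : Matrix κ ι E) (o : (Fin (2 * m) → ι) → E) (M : Fin m → Matrix κ κ E) :
    pfs (push u o) M = pfs o (fun a => uᵀ * M a * u) := by
  unfold pfs push
  simp only [Finset.sum_mul]
  rw [Finset.sum_comm]
  refine Finset.sum_congr rfl fun I _ => ?_
  have e1 : ∀ K : Fin (2 * m) → κ, (∏ k, u (K k) (I k)) * o I * ∏ a, M a (K (s0 a)) (K (s1 a)) =
      o I * ∏ a, (u (K (s0 a)) (I (s0 a)) * M a (K (s0 a)) (K (s1 a)) * u (K (s1 a)) (I (s1 a))) := by
    intro K
    rw [prod_pairs, Finset.prod_mul_distrib, Finset.prod_mul_distrib, Finset.prod_mul_distrib]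
    ring
  simp only [e1]
  rw [← Finset.mul_sum, sum_prod_pairs fun a i j => u i (I (s0 a)) * M a i j * u j (I (s1 a))]
  congr 1
  refine Finset.prod_congr rfl fun a _ => ?_
  rw [Matrix.mul_apply, Finset.sum_comm]
  refine Finset.sum_congr rfl fun j _ => ?_
  rw [Matrix.mul_apply, Finset.sum_mul]
  rfl

theorem pfo_push (u : Matrix κ ι E) (o : (Fin (2 * m) → ι) → E) (M : Matrix κ κ E) :
    pfo (push u o) M = pfo o (uᵀ * M * u) := pfs_push u o _

variable {P : Matrix ι ι E} {o : (Fin (2 * m) → ι) → E}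

/-- projections are not seen -/
theorem pfs_proj (h : Or (2 * m) P o) (M : Fin m → Matrix ι ι E) : pfs o (fun a => P * M a * P) = pfs o M := by
  have h1 := pfs_push P o M
  rw [push_self h, h.sym] at h1
  exact h1.symm

theorem pfo_proj (h : Or (2 * m) P o) (M : Matrix ι ι E) : pfo o (P * M * P) = pfo o M := pfs_proj h _

theorem upd_prod0 (a : Fin m) (I : Fin (2 * m) → ι) (e : ι) (M : Fin m → Matrix ι ι E) :
    ∏ b, M b (update I (s0 a) e (s0 b)) (update I (s0 a) e (s1 b)) =
      M a e (I (s1 a)) * ∏ b ∈ Finset.univ.erase a, M b (I (s0 b)) (I (s1 b)) := by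
  rw [← Finset.mul_prod_erase Finset.univ _ (Finset.mem_univ a), update_self, update_of_ne (s0_ne_s1 a a).symm]
  congr 1
  refine Finset.prod_congr rfl fun b hb => ?_
  have hb' : b ≠ a := Finset.ne_of_mem_erase hb
  rw [update_of_ne (fun h => hb' (s0_inj h)), update_of_ne (s0_ne_s1 a b).symm]

theorem upd_prod1 (a : Fin m) (I : Fin (2 * m) → ι) (e : ι) (M : Fin m → Matrix ι ι E) :
    ∏ b, M b (update I (s1 a) e (s0 b)) (update I (s1 a) e (s1 b)) =
      M a (I (s0 a)) e * ∏ b ∈ Finset.univ.erase a, M b (I (s0 b)) (I (s1 b)) := by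
  rw [← Finset.mul_prod_erase Finset.univ _ (Finset.mem_univ a), update_self, update_of_ne (s0_ne_s1 a a)]
  congr 1
  refine Finset.prod_congr rfl fun b hb => ?_
  have hb' : b ≠ a := Finset.ne_of_mem_erase hb
  rw [update_of_ne (s0_ne_s1 b a), update_of_ne (fun h => hb' (s1_inj h))]

/-- the Schouten identity for the functional -/
theorem pfs_sch (h : Or (2 * m) P o) {y : ι → E} (hy : P.mulVec y = y) (h1 : ∑ e, y e * y e = 1)
    (M : Fin m → Matrix ι ι E) : pfs o M = ∑ a, ∑ I, o I * ((y (I (s0 a)) * (∑ e, y e * M a e (I (s1 a))) +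
      y (I (s1 a)) * (∑ e, y e * M a (I (s0 a)) e)) * ∏ b ∈ Finset.univ.erase a, M b (I (s0 b)) (I (s1 b))) := by
  have e1 : ∀ I : Fin (2 * m) → ι, o I = ∑ k, ∑ e, y e * y (I k) * o (update I k e) := by
    intro I
    calc o I = (∑ e, y e * y e) * o I := by rw [h1, one_mul]
      _ = ∑ e, y e * (y e * o I) := by
          rw [Finset.sum_mul]
          exact Finset.sum_congr rfl fun e _ => mul_assoc _ _ _
      _ = ∑ e, ∑ k, y e * y (I k) * o (update I k e) := by
          refine Finset.sum_congr rfl fun e _ => ?_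
          rw [h.sch y hy, Finset.mul_sum]
          exact Finset.sum_congr rfl fun k _ => by ring
      _ = _ := Finset.sum_comm
  have e2 : pfs o M = ∑ k, ∑ I : Fin (2 * m) → ι, ∑ e, y e * y (I k) * o (update I k e) *
      ∏ a, M a (I (s0 a)) (I (s1 a)) := by
    unfold pfs
    rw [Finset.sum_comm]
    refine Finset.sum_congr rfl fun I _ => ?_
    conv_lhs => rw [e1 I]
    rw [Finset.sum_mul]
    exact Finset.sum_congr rfl fun k _ => Finset.sum_mul _ _ _
  rw [e2, sum_pairs]
  refine Finset.sum_congr rfl fun a _ => ?_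
  rw [sum_swp (s0 a) (fun I e => y e * y (I (s0 a)) * o (update I (s0 a) e) * ∏ b, M b (I (s0 b)) (I (s1 b))),
    sum_swp (s1 a) (fun I e => y e * y (I (s1 a)) * o (update I (s1 a) e) * ∏ b, M b (I (s0 b)) (I (s1 b))),
    ← Finset.sum_add_distrib]
  refine Finset.sum_congr rfl fun I _ => ?_
  simp only [update_idem, update_eq_self, update_self, upd_prod0, upd_prod1]
  rw [add_mul, mul_add, Finset.mul_sum, Finset.mul_sum, Finset.sum_mul, Finset.sum_mul, Finset.mul_sum, Finset.mul_sum,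
    ← Finset.sum_add_distrib, ← Finset.sum_add_distrib]
  refine Finset.sum_congr rfl fun e _ => ?_
  ring

/-- a unit section killed by all matrices -/
theorem pfs_kill (h : Or (2 * m) P o) {y : ι → E} (hy : P.mulVec y = y) (h1 : ∑ e, y e * y e = 1)
    (M : Fin m → Matrix ι ι E) (hl : ∀ a j, ∑ e, y e * M a e j = 0) (hr : ∀ a i, ∑ e, y e * M a i e = 0) :
    pfs o M = 0 := by
  rw [pfs_sch h hy h1]
  refine Finset.sum_eq_zero fun a _ => Finset.sum_eq_zero fun I _ => ?_
  rw [hl, hr, mul_zero, mul_zero, add_zero, zero_mul, mul_zero]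

/-- exchange of pairs -/
def spp (a b : Fin m) : Equiv.Perm (Fin (2 * m)) := Equiv.swap (s0 a) (s0 b) * Equiv.swap (s1 a) (s1 b)

theorem sign_spp (a b : Fin m) : Equiv.Perm.sign (spp a b) = 1 := by
  by_cases h : a = b
  · subst h
    unfold spp
    rw [Equiv.swap_self, Equiv.swap_self]
    exact Equiv.Perm.sign_one
  · unfold spp
    rw [Equiv.Perm.sign_mul, Equiv.Perm.sign_swap (fun e => h (s0_inj e)), Equiv.Perm.sign_swap (fun e => h (s1_inj e))]
    rfl

theorem spp_s0 (a b c : Fin m) : spp a b (s0 c) = s0 (Equiv.swap a b c) := by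
  unfold spp
  rw [Equiv.Perm.mul_apply, Equiv.swap_apply_of_ne_of_ne (s0_ne_s1 c a) (s0_ne_s1 c b)]
  by_cases h1 : c = a
  · subst h1
    rw [Equiv.swap_apply_left, Equiv.swap_apply_left]
  · by_cases h2 : c = b
    · subst h2
      rw [Equiv.swap_apply_right, Equiv.swap_apply_right]
    · rw [Equiv.swap_apply_of_ne_of_ne h1 h2,
        Equiv.swap_apply_of_ne_of_ne (fun e => h1 (s0_inj e)) (fun e => h2 (s0_inj e))]

theorem spp_s1 (a b c : Fin m) : spp a b (s1 c) = s1 (Equiv.swap a b c) := by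
  unfold spp
  rw [Equiv.Perm.mul_apply]
  by_cases h1 : c = a
  · subst h1
    rw [Equiv.swap_apply_left, Equiv.swap_apply_left,
      Equiv.swap_apply_of_ne_of_ne (s0_ne_s1 c b).symm.symm.symm (s0_ne_s1 b b).symm]
  · by_cases h2 : c = b
    · subst h2
      rw [Equiv.swap_apply_right, Equiv.swap_apply_right,
        Equiv.swap_apply_of_ne_of_ne (s0_ne_s1 a a).symm (s0_ne_s1 c a).symm]
    · rw [Equiv.swap_apply_of_ne_of_ne (fun e => h1 (s1_inj e)) (fun e => h2 (s1_inj e)),
        Equiv.swap_apply_of_ne_of_ne h1 h2,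
        Equiv.swap_apply_of_ne_of_ne (s0_ne_s1 a c).symm (s0_ne_s1 b c).symm]

end Pool.Agent.Lib.MP_ccbbf6_gt.L5
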