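import Pool.Agent.Lib.MP_ccbbf6_gt.L5.EU4
import Pool.Agent.Lib.MP_ccbbf6_gt.L5.EU5

/-!
# Level 5, EU6: isometric bundles have cohomologous Euler forms (helper13)
-/

set_option autoImplicit false
set_option maxSynthPendingDepth 3
set_option linter.unusedSectionVars false

open Matrix Function
open scoped ContDiff

noncomputable section

namespace Pool.Agent.Lib.MP_ccbbf6_gt.L5

open L4 L4.FR

variable {ι κ μ : Type*} [Fintype ι] [DecidableEq ι] [Fintype κ] [DecidableEq κ] [Fintype μ] [DecidableEq μ] {r : ℕ}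

variable {A A' : Type*} [CommRing A] [Algebra ℝ A] [CommRing A'] [Algebra ℝ A'] {B B' : Type*} [Ring B] [Algebra ℝ B]
  [Ring B'] [Algebra ℝ B'] {G : GDA B} {G' : GDA B'} {φ : Fun0 A G} {φ' : Fun0 A' G'}

/-! ### sums over multi-indices -/

/-- pairs -/
def e2 (ι : Type*) : (Fin 2 → ι) ≃ ι × ι where
  toFun I := (I 0, I 1)
  invFun z := ![z.1, z.2]
  left_inv I := by
    funext k
    revert k
    exact fin2 rfl rfl
  right_inv _ := rfl

/-- quadruples -/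
def e4 (ι : Type*) : (Fin 4 → ι) ≃ ι × ι × ι × ι where
  toFun I := (I 0, I 1, I 2, I 3)
  invFun z := ![z.1, z.2.1, z.2.2.1, z.2.2.2]
  left_inv I := by
    funext k
    revert k
    exact fin4 rfl rfl rfl rfl
  right_inv _ := rfl

theorem sum2 {M : Type*} [AddCommMonoid M] (f : ι → ι → M) : ∑ I : Fin 2 → ι, f (I 0) (I 1) = ∑ a, ∑ b, f a b := by
  rw [Fintype.sum_equiv (e2 ι) (fun I : Fin 2 → ι => f (I 0) (I 1)) (fun z => f z.1 z.2) fun _ => rfl,
    Fintype.sum_prod_type]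

theorem sum4 {M : Type*} [AddCommMonoid M] (f : ι → ι → ι → ι → M) :
    ∑ I : Fin 4 → ι, f (I 0) (I 1) (I 2) (I 3) = ∑ a, ∑ b, ∑ c, ∑ e, f a b c e := by
  rw [Fintype.sum_equiv (e4 ι) (fun I : Fin 4 → ι => f (I 0) (I 1) (I 2) (I 3))
    (fun z => f z.1 z.2.1 z.2.2.1 z.2.2.2) fun _ => rfl, Fintype.sum_prod_type]
  refine Finset.sum_congr rfl fun a _ => ?_
  rw [Fintype.sum_prod_type]
  refine Finset.sum_congr rfl fun b _ => ?_
  rw [Fintype.sum_prod_type]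

/-! ### push-forward of the contraction -/

/-- pull-back of a tensor of forms -/
def pullT (φ : Fun0 A G) (u : Matrix κ ι A) (T : (Fin r → κ) → B) (I : Fin r → ι) : B :=
  ∑ K : Fin r → κ, φ.f (∏ k, u (K k) (I k)) * T K

theorem St_push (u : Matrix κ ι A) (o : (Fin r → ι) → A) (T : (Fin r → κ) → B) :
    St φ (push u o) T = St φ o (pullT φ u T) := by
  unfold St push pullT
  simp only [map_sum, Finset.sum_mul, Finset.mul_sum]
  rw [Finset.sum_comm]
  refine Finset.sum_congr rfl fun I _ => Finset.sum_congr rfl fun K _ => ?_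
  rw [mul_comm (∏ k, u (K k) (I k)) (o I), map_mul, mul_assoc]

/-- pull-back of a matrix -/
def pullM (φ : Fun0 A G) (u : Matrix κ ι A) (M : Matrix κ κ B) : Matrix ι ι B := (u.map φ.f)ᵀ * M * u.map φ.f

theorem pullM_apply (u : Matrix κ ι A) (M : Matrix κ κ B) (i j : ι) :
    pullM φ u M i j = ∑ a, ∑ b, φ.f (u a i * u b j) * M a b := by
  unfold pullM
  rw [Matrix.mul_assoc, Matrix.mul_apply]
  refine Finset.sum_congr rfl fun a _ => ?_
  rw [Matrix.mul_apply, Finset.mul_sum]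
  refine Finset.sum_congr rfl fun b _ => ?_
  rw [Matrix.transpose_apply, Matrix.map_apply, Matrix.map_apply, ← φ.comm, ← mul_assoc, map_mul]

theorem pullT_2 (u : Matrix κ ι A) (M : Matrix κ κ B) (I : Fin 2 → ι) :
    pullT φ u (fun K => M (K 0) (K 1)) I = pullM φ u M (I 0) (I 1) := by
  rw [pullM_apply]
  unfold pullT
  simp only [Fin.prod_univ_two]
  exact sum2 fun a b => φ.f (u a (I 0) * u b (I 1)) * M a b

theorem pullT_MM (u : Matrix κ ι A) (M N : Matrix κ κ B) (I : Fin 4 → ι) :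
    pullT φ u (MM M N) I = MM (pullM φ u M) (pullM φ u N) I := by
  unfold MM
  rw [pullM_apply, pullM_apply]
  unfold pullT
  simp only [Fin.prod_univ_four]
  rw [sum4 fun a b c e => φ.f (u a (I 0) * u b (I 1) * u c (I 2) * u e (I 3)) * (M a b * N c e), Finset.sum_mul]
  refine Finset.sum_congr rfl fun a _ => ?_
  rw [Finset.sum_mul]
  refine Finset.sum_congr rfl fun b _ => ?_
  rw [Finset.mul_sum]
  refine Finset.sum_congr rfl fun c _ => ?_
  rw [Finset.mul_sum]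
  refine Finset.sum_congr rfl fun e _ => ?_
  rw [mul_assoc (u a (I 0) * u b (I 1)), map_mul, mul_assoc, mul_assoc (φ.f (u a (I 0) * u b (I 1))) (M a b),
    cm1 (u c (I 2) * u e (I 3)) (M a b)]

/-- constant isometries -/
structure CIso (φ : Fun0 A G) (J : Matrix κ ι A) : Prop where
  iso : Jᵀ * J = 1
  d : G.D (J.map φ.f) = 0

theorem CIso.Rv {J : Matrix κ ι A} (hJ : CIso φ J) (P : Matrix ι ι A) :
    Rv φ (J * P * Jᵀ) = J.map φ.f * L5.Rv φ P * (J.map φ.f)ᵀ := by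
  have h1 : (J.map φ.f)ᵀ * J.map φ.f = 1 := by
    rw [← Matrix.transpose_map, ← φ.mul, hJ.iso, φ.one]
  have h2 : G.D (J.map φ.f)ᵀ = 0 := by
    ext i j
    exact congrFun (congrFun hJ.d j) i
  have h3 : (J * P * Jᵀ).map φ.f = J.map φ.f * P.map φ.f * (J.map φ.f)ᵀ := by
    rw [φ.mul, φ.mul, Matrix.transpose_map]
  have h4 : G.D (J.map φ.f * P.map φ.f * (J.map φ.f)ᵀ) = J.map φ.f * G.D (P.map φ.f) * (J.map φ.f)ᵀ := by
    rw [GDA.D_mul, GDA.D_mul, h2, hJ.d, Matrix.mul_zero, add_zero, Matrix.zero_mul, zero_add, φ.Ev J]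
  unfold L5.Rv GDA.R
  rw [h3, h4]
  have h5 : ∀ (M N : Matrix ι ι B), J.map φ.f * M * (J.map φ.f)ᵀ * (J.map φ.f * N * (J.map φ.f)ᵀ) =
      J.map φ.f * (M * N) * (J.map φ.f)ᵀ := by
    intro M N
    calc J.map φ.f * M * (J.map φ.f)ᵀ * (J.map φ.f * N * (J.map φ.f)ᵀ)
        = J.map φ.f * M * ((J.map φ.f)ᵀ * J.map φ.f) * N * (J.map φ.f)ᵀ := by simp only [Matrix.mul_assoc]
      _ = J.map φ.f * (M * N) * (J.map φ.f)ᵀ := by
        rw [h1, Matrix.mul_one]
        simp only [Matrix.mul_assoc]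
  rw [h5, h5]

theorem CIso.pull_Rv {J : Matrix κ ι A} (hJ : CIso φ J) (P : Matrix ι ι A) :
    pullM φ J (L5.Rv φ (J * P * Jᵀ)) = L5.Rv φ P := by
  have h1 : (J.map φ.f)ᵀ * J.map φ.f = 1 := by
    rw [← Matrix.transpose_map, ← φ.mul, hJ.iso, φ.one]
  unfold pullM
  rw [hJ.Rv]
  calc (J.map φ.f)ᵀ * (J.map φ.f * L5.Rv φ P * (J.map φ.f)ᵀ) * J.map φ.f
      = ((J.map φ.f)ᵀ * J.map φ.f) * L5.Rv φ P * ((J.map φ.f)ᵀ * J.map φ.f) := by simp only [Matrix.mul_assoc]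
    _ = L5.Rv φ P := by rw [h1, Matrix.one_mul, Matrix.mul_one]

theorem CIso.eul {J : Matrix κ ι A} (hJ : CIso φ J) (P : Matrix ι ι A) (o : (Fin 4 → ι) → A) :
    eul φ (J * P * Jᵀ) (push J o) = L5.eul φ P o := by
  unfold L5.eul Z5
  rw [St_push]
  congr 1
  refine St_congr fun I => ?_
  rw [pullT_MM, hJ.pull_Rv]

theorem CIso.eu2 {J : Matrix κ ι A} (hJ : CIso φ J) (P : Matrix ι ι A) (o : (Fin 2 → ι) → A) :
    eu2 φ (J * P * Jᵀ) (push J o) = L5.eu2 φ P o := by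
  unfold L5.eu2
  rw [St_push]
  congr 1
  refine St_congr fun I => ?_
  rw [pullT_2, hJ.pull_Rv]

/-- the first inclusion -/
def Jl (A : Type*) [CommRing A] (ι κ : Type*) [DecidableEq ι] : Matrix (ι ⊕ κ) ι A := fromRows 1 0

/-- the second inclusion -/
def Jr (A : Type*) [CommRing A] (ι κ : Type*) [DecidableEq κ] : Matrix (ι ⊕ κ) κ A := fromRows 0 1

theorem d_cst (c : A) (h : c = 0 ∨ c = 1) : G.d (φ.f c) = 0 := by
  rcases h with rfl | rfl
  · rw [map_zero, map_zero]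
  · rw [map_one, GDA.d_one]

theorem cJl : CIso φ (Jl A ι κ) := by
  constructor
  · unfold Jl
    rw [transpose_fromRows, fromCols_mul_fromRows]
    simp
  · ext i j
    rcases i with i | i
    · refine d_cst _ ?_
      by_cases h : i = j
      · subst h
        exact Or.inr (Matrix.one_apply_eq _)
      · exact Or.inl (Matrix.one_apply_ne h)
    · exact d_cst _ (Or.inl rfl)

theorem cJr : CIso φ (Jr A ι κ) := by
  constructor
  · unfold Jr
    rw [transpose_fromRows, fromCols_mul_fromRows]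
    simp
  · ext i j
    rcases i with i | i
    · exact d_cst _ (Or.inl rfl)
    · refine d_cst _ ?_
      by_cases h : i = j
      · subst h
        exact Or.inr (Matrix.one_apply_eq _)
      · exact Or.inl (Matrix.one_apply_ne h)

namespace FCyl

variable (C : FCyl φ φ')

/-- left end -/
def F0 : FHom φ' φ := ⟨C.C.j0, C.g0, C.com_0⟩

/-- right end -/
def F1 : FHom φ' φ := ⟨C.C.j1, C.g1, C.com_1⟩

/-- projection -/
def Fp : FHom φ φ' := ⟨C.C.p, C.gp, C.com_p⟩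

/-- the path of isometries -/
def U (P : Matrix ι ι A) (u : Matrix κ ι A) : Matrix (ι ⊕ κ) ι A' :=
  fromRows (C.cc • P.map C.gp) (C.tt • u.map C.gp)

variable {P : Matrix ι ι A} {u : Matrix κ ι A} {o : (Fin r → ι) → A}

theorem U_or (h : Or r P o) (h1 : uᵀ * u = P) (h2 : u * P = u) :
    Or r (C.U P u * (C.U P u)ᵀ) (push (C.U P u) (fun I => C.gp (o I))) := by
  have h0 : Or r (P.map C.gp) (fun I => C.gp (o I)) := h.map' (C.gp : A →+* A')
  refine h0.push ?_ ?_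
  · have e1 : (u.map C.gp)ᵀ * u.map C.gp = P.map C.gp := by
      rw [← h1, ← Matrix.transpose_map, ← Matrix.map_mul]
    have e2 : (P.map C.gp)ᵀ * P.map C.gp = P.map C.gp := by
      rw [h0.sym, h0.idem]
    unfold U
    rw [transpose_fromRows, fromCols_mul_fromRows, Matrix.transpose_smul, Matrix.transpose_smul, Matrix.smul_mul,
      Matrix.mul_smul, Matrix.smul_mul, Matrix.mul_smul, e1, e2, smul_smul, smul_smul, ← add_smul, C.ct, one_smul]
  · have e1 : u.map C.gp * P.map C.gp = u.map C.gp := by rw [← Matrix.map_mul, h2]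
    unfold U
    rw [fromRows_mul, Matrix.smul_mul, Matrix.smul_mul, e1, h0.idem]

theorem U_0 : (C.U P u).map C.g0 = Jl A ι κ * P := by
  have e1 : (Jl A ι κ * P : Matrix (ι ⊕ κ) ι A) = fromRows P 0 := by
    unfold Jl
    rw [fromRows_mul, Matrix.one_mul, Matrix.zero_mul]
  rw [e1]
  ext i j
  rcases i with i | i
  · change C.g0 (C.cc * C.gp (P i j)) = P i j
    rw [map_mul, C.c0, C.g0_gp, one_mul]
  · change C.g0 (C.tt * C.gp (u i j)) = 0
    rw [map_mul, C.t0, zero_mul]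

theorem U_1 : (C.U P u).map C.g1 = Jr A ι κ * u := by
  have e1 : (Jr A ι κ * u : Matrix (ι ⊕ κ) ι A) = fromRows 0 u := by
    unfold Jr
    rw [fromRows_mul, Matrix.one_mul, Matrix.zero_mul]
  rw [e1]
  ext i j
  rcases i with i | i
  · change C.g1 (C.cc * C.gp (P i j)) = 0
    rw [map_mul, C.c1, zero_mul]
  · change C.g1 (C.tt * C.gp (u i j)) = u i j
    rw [map_mul, C.t1, C.g1_gp, one_mul]

theorem UU_0 (h : Or r P o) : (C.U P u * (C.U P u)ᵀ).map C.g0 = Jl A ι κ * P * (Jl A ι κ)ᵀ := by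
  rw [Matrix.map_mul, Matrix.transpose_map, C.U_0, Matrix.transpose_mul, h.sym, Matrix.mul_assoc,
    ← Matrix.mul_assoc P, h.idem, ← Matrix.mul_assoc]

theorem UU_1 : (C.U P u * (C.U P u)ᵀ).map C.g1 = Jr A ι κ * (u * uᵀ) * (Jr A ι κ)ᵀ := by
  rw [Matrix.map_mul, Matrix.transpose_map, C.U_1, Matrix.transpose_mul]
  simp only [Matrix.mul_assoc]

theorem Uo_0 (h : Or r P o) (K : Fin r → ι ⊕ κ) :
    C.g0 (push (C.U P u) (fun I => C.gp (o I)) K) = push (Jl A ι κ) o K := by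
  have h1 := push_map (C.g0 : A' →+* A) (C.U P u) (fun I => C.gp (o I)) K
  have h2 : (fun I => (C.g0 : A' →+* A) (C.gp (o I))) = o := funext fun I => C.g0_gp _
  have h3 : (C.U P u).map (C.g0 : A' →+* A) = Jl A ι κ * P := C.U_0
  rw [h2, h3, push_comp, push_self h] at h1
  exact h1

theorem Uo_1 (K : Fin r → ι ⊕ κ) :
    C.g1 (push (C.U P u) (fun I => C.gp (o I)) K) = push (Jr A ι κ) (push u o) K := by
  have h1 := push_map (C.g1 : A' →+* A) (C.U P u) (fun I => C.gp (o I)) K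
  have h2 : (fun I => (C.g1 : A' →+* A) (C.gp (o I))) = o := funext fun I => C.g1_gp _
  have h3 : (C.U P u).map (C.g1 : A' →+* A) = Jr A ι κ * u := C.U_1
  rw [h2, h3, push_comp] at h1
  exact h1

include C in
/-- isometric bundles, rank four -/
theorem eul_iso {o : (Fin 4 → ι) → A} (h : Or 4 P o) (h1 : uᵀ * u = P) (h2 : u * P = u) :
    ∃ ξ, eul φ (u * uᵀ) (push u o) = eul φ P o + G.d ξ := by
  have h3 := C.U_or h h1 h2
  have h4 := C.C.dK (eul φ' (C.U P u * (C.U P u)ᵀ) (push (C.U P u) (fun I => C.gp (o I))))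
  rw [d_eul h3, map_zero, add_zero] at h4
  have h5 := C.F1.eul (P := C.U P u * (C.U P u)ᵀ) (push (C.U P u) (fun I => C.gp (o I)))
  have h6 := C.F0.eul (P := C.U P u * (C.U P u)ᵀ) (push (C.U P u) (fun I => C.gp (o I)))
  have e1 : (fun I => C.F1.g (push (C.U P u) (fun I => C.gp (o I)) I)) = push (Jr A ι κ) (push u o) :=
    funext fun K => C.Uo_1 K
  have e0 : (fun I => C.F0.g (push (C.U P u) (fun I => C.gp (o I)) I)) = push (Jl A ι κ) o :=
    funext fun K => C.Uo_0 h K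
  have f1 : (C.U P u * (C.U P u)ᵀ).map C.F1.g = Jr A ι κ * (u * uᵀ) * (Jr A ι κ)ᵀ := C.UU_1
  have f0 : (C.U P u * (C.U P u)ᵀ).map C.F0.g = Jl A ι κ * P * (Jl A ι κ)ᵀ := C.UU_0 h
  rw [e1, f1, cJr.eul] at h5
  rw [e0, f0, cJl.eul] at h6
  refine ⟨C.C.K (eul φ' (C.U P u * (C.U P u)ᵀ) (push (C.U P u) (fun I => C.gp (o I)))), ?_⟩
  rw [h4, ← h5, ← h6]
  change _ = _ + (C.F1.h.f _ - C.F0.h.f _)
  rw [add_sub_cancel]

include C in
/-- isometric bundles, rank two -/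
theorem eu2_iso {o : (Fin 2 → ι) → A} (h : Or 2 P o) (h1 : uᵀ * u = P) (h2 : u * P = u) :
    ∃ ξ, eu2 φ (u * uᵀ) (push u o) = eu2 φ P o + G.d ξ := by
  have h3 := C.U_or h h1 h2
  have h4 := C.C.dK (eu2 φ' (C.U P u * (C.U P u)ᵀ) (push (C.U P u) (fun I => C.gp (o I))))
  rw [d_eu2 h3, map_zero, add_zero] at h4
  have h5 := C.F1.eu2 (P := C.U P u * (C.U P u)ᵀ) (push (C.U P u) (fun I => C.gp (o I)))
  have h6 := C.F0.eu2 (P := C.U P u * (C.U P u)ᵀ) (push (C.U P u) (fun I => C.gp (o I)))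
  have e1 : (fun I => C.F1.g (push (C.U P u) (fun I => C.gp (o I)) I)) = push (Jr A ι κ) (push u o) :=
    funext fun K => C.Uo_1 K
  have e0 : (fun I => C.F0.g (push (C.U P u) (fun I => C.gp (o I)) I)) = push (Jl A ι κ) o :=
    funext fun K => C.Uo_0 h K
  have f1 : (C.U P u * (C.U P u)ᵀ).map C.F1.g = Jr A ι κ * (u * uᵀ) * (Jr A ι κ)ᵀ := C.UU_1
  have f0 : (C.U P u * (C.U P u)ᵀ).map C.F0.g = Jl A ι κ * P * (Jl A ι κ)ᵀ := C.UU_0 h
  rw [e1, f1, cJr.eu2] at h5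
  rw [e0, f0, cJl.eu2] at h6
  refine ⟨C.C.K (eu2 φ' (C.U P u * (C.U P u)ᵀ) (push (C.U P u) (fun I => C.gp (o I)))), ?_⟩
  rw [h4, ← h5, ← h6]
  change _ = _ + (C.F1.h.f _ - C.F0.h.f _)
  rw [add_sub_cancel]

end FCyl

/-! ### classes -/

/-- the Euler class, rank four -/
def hE (φ : Fun0 A G) {P : Matrix ι ι A} {o : (Fin 4 → ι) → A} (h : Or 4 P o) : G.HE :=
  GDA.cl (eul φ P o) (s_eul h) (d_eul h)

/-- the Euler class, rank two -/
def hE2 (φ : Fun0 A G) {P : Matrix ι ι A} {o : (Fin 2 → ι) → A} (h : Or 2 P o) : G.HE :=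
  GDA.cl (eu2 φ P o) (s_eu2 h.idem) (d_eu2 h)

theorem hE_iso (C : FCyl φ φ') {P : Matrix ι ι A} {o : (Fin 4 → ι) → A} (h : Or 4 P o) {u : Matrix κ ι A}
    (h1 : uᵀ * u = P) (h2 : u * P = u) : hE φ (h.push h1 h2) = hE φ h := GDA.cl_eq.2 (C.eul_iso h h1 h2)

theorem hE2_iso (C : FCyl φ φ') {P : Matrix ι ι A} {o : (Fin 2 → ι) → A} (h : Or 2 P o) {u : Matrix κ ι A}
    (h1 : uᵀ * u = P) (h2 : u * P = u) : hE2 φ (h.push h1 h2) = hE2 φ h := GDA.cl_eq.2 (C.eu2_iso h h1 h2)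

theorem he_hE (F : FHom φ φ') {P : Matrix ι ι A} {o : (Fin 4 → ι) → A} (h : Or 4 P o) :
    F.h.he (hE φ h) = hE φ' (h.map' (F.g : A →+* A')) := by
  unfold hE
  rw [GHom.he_cl]
  exact GDA.cl_congr (F.eul o) _ _

theorem he_hE2 (F : FHom φ φ') {P : Matrix ι ι A} {o : (Fin 2 → ι) → A} (h : Or 2 P o) :
    F.h.he (hE2 φ h) = hE2 φ' (h.map' (F.g : A →+* A')) := by
  unfold hE2
  rw [GHom.he_cl]
  exact GDA.cl_congr (F.eu2 o) _ _

theorem hE_congr {P Q : Matrix ι ι A} {o o' : (Fin 4 → ι) → A} (e : P = Q) (e' : o = o') (h : Or 4 P o)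
    (h' : Or 4 Q o') : hE φ h = hE φ h' := by
  subst e
  subst e'
  rfl

theorem hE2_congr {P Q : Matrix ι ι A} {o o' : (Fin 2 → ι) → A} (e : P = Q) (e' : o = o') (h : Or 2 P o)
    (h' : Or 2 Q o') : hE2 φ h = hE2 φ h' := by
  subst e
  subst e'
  rfl

end Pool.Agent.Lib.MP_ccbbf6_gt.L5
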