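import Pool.Agent.Lib.MP_ccbbf6_gt.L5.CW3
import Pool.Agent.Lib.MP_ccbbf6_gt.L5.EG0
import Pool.Agent.Lib.MP_ccbbf6_gt.L5.EU6

/-!
# Level 5, EG1: the Euler form of an oriented bundle of even rank `2 m` (helper13)

`eulG phi P o = - 1 / ((4 pi)^m m!) sum_I o(I) prod_a R(I (2a), I (2a+1))`: even, closed, natural, invariant under constant
isometries; isometric bundles have cohomologous Euler forms.
-/

set_option autoImplicit false
set_option maxSynthPendingDepth 3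
set_option linter.unusedSectionVars false

open Matrix Function

noncomputable section

namespace Pool.Agent.Lib.MP_ccbbf6_gt.L5

variable {ι κ μ : Type*} [Fintype ι] [DecidableEq ι] [Fintype κ] [DecidableEq κ] [Fintype μ] [DecidableEq μ] {m : ℕ}

variable {A A' : Type*} [CommRing A] [Algebra ℝ A] [CommRing A'] [Algebra ℝ A'] {B B' : Type*} [Ring B] [Algebra ℝ B]
  [Ring B'] [Algebra ℝ B'] {G : GDA B} {G' : GDA B'} {φ : Fun0 A G} {φ' : Fun0 A' G'}

/-- functions as even elements -/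
def Fun0.e (φ : Fun0 A G) : A →ₐ[ℝ] G.Ee where
  toFun a := ⟨φ.f a, φ.ev a⟩
  map_one' := Subtype.ext (map_one φ.f)
  map_mul' _ _ := Subtype.ext (map_mul φ.f _ _)
  map_zero' := Subtype.ext (map_zero φ.f)
  map_add' _ _ := Subtype.ext (map_add φ.f _ _)
  commutes' _ := Subtype.ext (AlgHom.commutes φ.f _)

theorem Fun0.e_val (φ : Fun0 A G) (a : A) : ((φ.e a : G.Ee) : B) = φ.f a := rfl

theorem ev_Rv (φ : Fun0 A G) (P : Matrix ι ι A) : G.Ev (Rv φ P) := (φ.Ev P).mul ((φ.Ev P).D.mul (φ.Ev P).D)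

/-- the curvature with values in the even elements -/
def Re (φ : Fun0 A G) (P : Matrix ι ι A) : Matrix ι ι G.Ee := (ev_Rv φ P).lift

theorem Re_val (P : Matrix ι ι A) (i j : ι) : ((Re φ P i j : G.Ee) : B) = Rv φ P i j := rfl

/-- the Pfaffian form -/
def ZG (φ : Fun0 A G) (P : Matrix ι ι A) (o : (Fin (2 * m) → ι) → A) : G.Ee := pfo (fun I => φ.e (o I)) (Re φ P)

/-- the Euler form -/
def eulG (φ : Fun0 A G) (P : Matrix ι ι A) (o : (Fin (2 * m) → ι) → A) : B :=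
  (-(1 / ((4 * Real.pi) ^ m * m.factorial))) • ((ZG φ P o : G.Ee) : B)

theorem s_eulG {P : Matrix ι ι A} {o : (Fin (2 * m) → ι) → A} : G.s (eulG φ P o) = eulG φ P o := by
  unfold eulG
  rw [map_smul]
  congr 1
  exact (ZG φ P o).2

theorem val_sum {α : Type*} (s : Finset α) (x : α → G.Ee) : ((∑ a ∈ s, x a : G.Ee) : B) = ∑ a ∈ s, (x a : B) :=
  map_sum G.Ee.val _ _

theorem d_prod {α : Type*} [DecidableEq α] (s : Finset α) (x : α → G.Ee) :
    G.d ((∏ a ∈ s, x a : G.Ee) : B) = ∑ a ∈ s, G.d (x a : B) * ((∏ b ∈ s.erase a, x b : G.Ee) : B) := by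
  induction s using Finset.induction_on with
  | empty =>
    rw [Finset.prod_empty, Finset.sum_empty]
    exact GDA.d_one
  | insert c s hc ih =>
    rw [Finset.prod_insert hc, Finset.sum_insert hc, Finset.erase_insert hc]
    have e1 : ((x c * ∏ a ∈ s, x a : G.Ee) : B) = (x c : B) * ((∏ a ∈ s, x a : G.Ee) : B) := rfl
    rw [e1, G.d_mul, (x c).2, ih, Finset.mul_sum]
    congr 1
    refine Finset.sum_congr rfl fun a ha => ?_
    have hac : a ≠ c := fun e => hc (e ▸ ha)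
    rw [Finset.erase_insert_of_ne hac.symm, Finset.prod_insert (fun h => hc (Finset.mem_of_mem_erase h))]
    have e2 : ((x c * ∏ b ∈ s.erase a, x b : G.Ee) : B) = (x c : B) * ((∏ b ∈ s.erase a, x b : G.Ee) : B) := rfl
    rw [e2, ← mul_assoc, ← mul_assoc, G.comm_even _ _ (x c).2]

/-- the tensor of the curvature -/
def TR (φ : Fun0 A G) (P : Matrix ι ι A) (I : Fin (2 * m) → ι) : B :=
  ((∏ a, Re φ P (I (s0 a)) (I (s1 a)) : G.Ee) : B)

theorem ZG_St {P : Matrix ι ι A} {o : (Fin (2 * m) → ι) → A} : ((ZG φ P o : G.Ee) : B) = St φ o (TR φ P) := by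
  unfold ZG pfo St
  rw [val_sum]
  rfl

variable {P : Matrix ι ι A} {o : (Fin (2 * m) → ι) → A}

theorem Inv_TR (hP : P * P = P) (hs : Pᵀ = P) : Inv φ P (TR (m := m) φ P) := by
  have hM := MInv_Rv (φ := φ) hP hs
  intro k
  revert k
  refine pairs_ind ?_ ?_
  · intro a I
    have e1 : ∀ i, φ.f (P (I (s0 a)) i) * TR φ P (update I (s0 a) i) =
        φ.f (P (I (s0 a)) i) * Rv φ P i (I (s1 a)) *
          ((∏ b ∈ Finset.univ.erase a, Re φ P (I (s0 b)) (I (s1 b)) : G.Ee) : B) := by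
      intro i
      unfold TR
      rw [upd_prod0 a I i (fun _ => Re φ P), mul_assoc]
      rfl
    simp only [e1]
    rw [← Finset.sum_mul, hM.l]
    unfold TR
    rw [← Finset.mul_prod_erase Finset.univ _ (Finset.mem_univ a)]
    rfl
  · intro a I
    have e1 : ∀ i, φ.f (P (I (s1 a)) i) * TR φ P (update I (s1 a) i) =
        φ.f (P (I (s1 a)) i) * Rv φ P (I (s0 a)) i *
          ((∏ b ∈ Finset.univ.erase a, Re φ P (I (s0 b)) (I (s1 b)) : G.Ee) : B) := by
      intro i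
      unfold TR
      rw [upd_prod1 a I i (fun _ => Re φ P), mul_assoc]
      rfl
    simp only [e1]
    rw [← Finset.sum_mul, hM.r]
    unfold TR
    rw [← Finset.mul_prod_erase Finset.univ _ (Finset.mem_univ a)]
    rfl

/-- the Euler form is closed -/
theorem d_eulG (h : Or (2 * m) P o) : G.d (eulG φ P o) = 0 := by
  unfold eulG
  rw [map_smul, ZG_St, d_St h (Inv_TR h.idem h.sym)]
  have e1 : ∀ I : Fin (2 * m) → ι, G.d (TR φ P I) = ∑ a, G.D (Rv φ P) (I (s0 a)) (I (s1 a)) *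
      ((∏ b ∈ Finset.univ.erase a, Re φ P (I (s0 b)) (I (s1 b)) : G.Ee) : B) := by
    intro I
    unfold TR
    rw [d_prod]
    rfl
  have e2 : St φ o (fun I => G.d (TR φ P I)) = St φ o (fun I => ∑ a, G.D (Rv φ P) (I (s0 a)) (I (s1 a)) *
      ((∏ b ∈ Finset.univ.erase a, Re φ P (I (s0 b)) (I (s1 b)) : G.Ee) : B)) := St_congr e1
  rw [e2, St_sum]
  have e3 : ∀ a ∈ (Finset.univ : Finset (Fin m)), St φ o (fun I => G.D (Rv φ P) (I (s0 a)) (I (s1 a)) *
      ((∏ b ∈ Finset.univ.erase a, Re φ P (I (s0 b)) (I (s1 b)) : G.Ee) : B)) = 0 := by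
    intro a _
    have u0 : ∀ (I : Fin (2 * m) → ι) (i : ι), (∏ b ∈ Finset.univ.erase a, Re φ P (update I (s0 a) i (s0 b))
        (update I (s0 a) i (s1 b)) : G.Ee) = ∏ b ∈ Finset.univ.erase a, Re φ P (I (s0 b)) (I (s1 b)) := by
      intro I i
      refine Finset.prod_congr rfl fun b hb => ?_
      have hb' : b ≠ a := Finset.ne_of_mem_erase hb
      rw [update_of_ne (fun h => hb' (s0_inj h)), update_of_ne (s0_ne_s1 a b).symm]
    have u1 : ∀ (I : Fin (2 * m) → ι) (i : ι), (∏ b ∈ Finset.univ.erase a, Re φ P (update I (s1 a) i (s0 b))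
        (update I (s1 a) i (s1 b)) : G.Ee) = ∏ b ∈ Finset.univ.erase a, Re φ P (I (s0 b)) (I (s1 b)) := by
      intro I i
      refine Finset.prod_congr rfl fun b hb => ?_
      have hb' : b ≠ a := Finset.ne_of_mem_erase hb
      rw [update_of_ne (s0_ne_s1 b a), update_of_ne (fun h => hb' (s1_inj h))]
    have h1 : St φ o (fun I => G.D (Rv φ P) (I (s0 a)) (I (s1 a)) *
        ((∏ b ∈ Finset.univ.erase a, Re φ P (I (s0 b)) (I (s1 b)) : G.Ee) : B)) =
        St φ o (fun I => (∑ i, φ.f (P (I (s0 a)) i) * G.D (Rv φ P) i (I (s1 a))) *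
        ((∏ b ∈ Finset.univ.erase a, Re φ P (I (s0 b)) (I (s1 b)) : G.Ee) : B)) := St_pr h (s0 a) fun I => by
      rw [Finset.sum_mul]
      refine Finset.sum_congr rfl fun i _ => ?_
      simp only [u0]
      rw [update_self, update_of_ne (s0_ne_s1 a a).symm, mul_assoc]
    have h2 : St φ o (fun I => (∑ i, φ.f (P (I (s0 a)) i) * G.D (Rv φ P) i (I (s1 a))) *
        ((∏ b ∈ Finset.univ.erase a, Re φ P (I (s0 b)) (I (s1 b)) : G.Ee) : B)) = St φ o (fun _ => 0) :=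
      St_pr h (s1 a) fun I => by
        have e4 : ∀ j, φ.f (P (I (s1 a)) j) * ((∑ i, φ.f (P (update I (s1 a) j (s0 a)) i) *
            G.D (Rv φ P) i (update I (s1 a) j (s1 a))) *
            ((∏ b ∈ Finset.univ.erase a, Re φ P (update I (s1 a) j (s0 b)) (update I (s1 a) j (s1 b)) : G.Ee) : B)) =
            φ.f (P (I (s1 a)) j) * (∑ i, φ.f (P (I (s0 a)) i) * G.D (Rv φ P) i j) *
            ((∏ b ∈ Finset.univ.erase a, Re φ P (I (s0 b)) (I (s1 b)) : G.Ee) : B) := by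
          intro j
          simp only [u1]
          rw [update_self, update_of_ne (s0_ne_s1 a a), mul_assoc]
        simp only [e4]
        rw [← Finset.sum_mul, two_side h.sym (Rv_closed h.idem), zero_mul]
    rw [h1, h2, St_zero]
  rw [Finset.sum_eq_zero e3, smul_zero]

/-! ### naturality -/

/-- a morphism on even elements -/
def GHom.ee (f : GHom G G') : G.Ee →ₐ[ℝ] G'.Ee where
  toFun w := ⟨f.f w, by
    change G'.s (f.f w) = f.f w
    rw [← f.f_s, w.2]⟩
  map_one' := Subtype.ext (map_one f.f)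
  map_mul' _ _ := Subtype.ext (map_mul f.f _ _)
  map_zero' := Subtype.ext (map_zero f.f)
  map_add' _ _ := Subtype.ext (map_add f.f _ _)
  commutes' _ := Subtype.ext (AlgHom.commutes f.f _)

theorem pfo_map {E E' : Type*} [CommRing E] [CommRing E'] (f : E →+* E') (o : (Fin (2 * m) → ι) → E) (M : Matrix ι ι E) :
    f (pfo o M) = pfo (fun I => f (o I)) (M.map f) := by
  unfold pfo
  rw [map_sum]
  exact Finset.sum_congr rfl fun I _ => by rw [map_mul, map_prod]; rfl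

theorem FHom.re (F : FHom φ φ') (P : Matrix ι ι A) : (Re φ P).map F.h.ee = Re φ' (P.map F.g) := by
  ext i j
  exact F.rv i j

theorem FHom.zg (F : FHom φ φ') (o : (Fin (2 * m) → ι) → A) :
    F.h.ee (ZG φ P o) = ZG φ' (P.map F.g) (fun I => F.g (o I)) := by
  have h1 := pfo_map (F.h.ee : G.Ee →+* G'.Ee) (fun I => φ.e (o I)) (Re φ P)
  have h2 : (Re φ P).map (F.h.ee : G.Ee →+* G'.Ee) = Re φ' (P.map F.g) := F.re P
  have h3 : (fun I => (F.h.ee : G.Ee →+* G'.Ee) (φ.e (o I))) = fun I => φ'.e (F.g (o I)) := by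
    funext I
    exact Subtype.ext (F.com _)
  rw [h2, h3] at h1
  exact h1

theorem FHom.eulG (F : FHom φ φ') (o : (Fin (2 * m) → ι) → A) :
    F.h.f (L5.eulG φ P o) = L5.eulG φ' (P.map F.g) (fun I => F.g (o I)) := by
  unfold L5.eulG
  rw [map_smul]
  congr 1
  exact congrArg Subtype.val (F.zg (P := P) o)

/-! ### push-forward -/

theorem e_push (u : Matrix κ ι A) (o : (Fin (2 * m) → ι) → A) :
    (fun K => φ.e (push u o K)) = push (u.map φ.e) (fun I => φ.e (o I)) :=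
  funext fun K => push_map (φ.e : A →+* G.Ee) u o K

theorem ZG_push (u : Matrix κ ι A) (Q : Matrix κ κ A) (o : (Fin (2 * m) → ι) → A) :
    ZG φ Q (push u o) = pfo (fun I => φ.e (o I)) ((u.map φ.e)ᵀ * Re φ Q * u.map φ.e) := by
  unfold ZG
  rw [e_push, pfo_push]

theorem Re_mul3 (u : Matrix κ ι A) (M : Matrix κ κ G.Ee) (i j : ι) :
    (((((u.map φ.e)ᵀ * M * u.map φ.e) i j : G.Ee)) : B) = pullM φ u (M.map G.Ee.val) i j := by
  have h1 : ((u.map φ.e)ᵀ * M * u.map φ.e).map G.Ee.val = (u.map φ.f)ᵀ * M.map G.Ee.val * u.map φ.f := by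
    rw [Matrix.map_mul, Matrix.map_mul]
    rfl
  exact congrFun (congrFun h1 i) j

theorem CIso.re {J : Matrix κ ι A} (hJ : CIso φ J) (P : Matrix ι ι A) :
    (J.map φ.e)ᵀ * Re φ (J * P * Jᵀ) * J.map φ.e = Re φ P := by
  refine Matrix.ext fun i j => Subtype.ext ?_
  rw [Re_mul3]
  exact congrFun (congrFun (hJ.pull_Rv P) i) j

theorem CIso.zg {J : Matrix κ ι A} (hJ : CIso φ J) (P : Matrix ι ι A) (o : (Fin (2 * m) → ι) → A) :
    ZG φ (J * P * Jᵀ) (push J o) = ZG φ P o := by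
  rw [ZG_push, hJ.re]
  rfl

theorem CIso.eulG {J : Matrix κ ι A} (hJ : CIso φ J) (P : Matrix ι ι A) (o : (Fin (2 * m) → ι) → A) :
    eulG φ (J * P * Jᵀ) (push J o) = L5.eulG φ P o := by
  unfold L5.eulG
  rw [hJ.zg]

theorem eulG_op : eulG φ P (fun I => -o I) = -eulG φ P o := by
  unfold eulG ZG pfo
  rw [← smul_neg]
  congr 1
  have h1 : ∑ I : Fin (2 * m) → ι, φ.e (-o I) * ∏ a, Re φ P (I (s0 a)) (I (s1 a)) =
      -∑ I : Fin (2 * m) → ι, φ.e (o I) * ∏ a, Re φ P (I (s0 a)) (I (s1 a)) := by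
    rw [← Finset.sum_neg_distrib]
    exact Finset.sum_congr rfl fun I _ => by rw [map_neg, neg_mul]
  rw [h1]
  rfl

/-- isometric bundles -/
theorem FCyl.eulG_iso {φ' : Fun0 A' G'} (C : FCyl φ φ') {u : Matrix κ ι A} (h : Or (2 * m) P o) (h1 : uᵀ * u = P)
    (h2 : u * P = u) : ∃ ξ, eulG φ (u * uᵀ) (push u o) = eulG φ P o + G.d ξ := by
  have h3 := C.U_or h h1 h2
  have h4 := C.C.dK (eulG φ' (C.U P u * (C.U P u)ᵀ) (push (C.U P u) (fun I => C.gp (o I))))
  rw [d_eulG h3, map_zero, add_zero] at h4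
  have h5 := C.F1.eulG (P := C.U P u * (C.U P u)ᵀ) (push (C.U P u) (fun I => C.gp (o I)))
  have h6 := C.F0.eulG (P := C.U P u * (C.U P u)ᵀ) (push (C.U P u) (fun I => C.gp (o I)))
  have e1 : (fun I => C.F1.g (push (C.U P u) (fun I => C.gp (o I)) I)) = push (Jr A ι κ) (push u o) :=
    funext fun K => C.Uo_1 K
  have e0 : (fun I => C.F0.g (push (C.U P u) (fun I => C.gp (o I)) I)) = push (Jl A ι κ) o :=
    funext fun K => C.Uo_0 h K
  have f1 : (C.U P u * (C.U P u)ᵀ).map C.F1.g = Jr A ι κ * (u * uᵀ) * (Jr A ι κ)ᵀ := C.UU_1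
  have f0 : (C.U P u * (C.U P u)ᵀ).map C.F0.g = Jl A ι κ * P * (Jl A ι κ)ᵀ := C.UU_0 h
  rw [e1, f1, cJr.eulG] at h5
  rw [e0, f0, cJl.eulG] at h6
  refine ⟨C.C.K (eulG φ' (C.U P u * (C.U P u)ᵀ) (push (C.U P u) (fun I => C.gp (o I)))), ?_⟩
  rw [h4, ← h5, ← h6]
  change _ = _ + (C.F1.h.f _ - C.F0.h.f _)
  rw [add_sub_cancel]

/-- the Euler class -/
def hEG (φ : Fun0 A G) {P : Matrix ι ι A} {o : (Fin (2 * m) → ι) → A} (h : Or (2 * m) P o) : G.HE :=
  GDA.cl (eulG φ P o) s_eulG (d_eulG h)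

theorem hEG_iso {φ' : Fun0 A' G'} (C : FCyl φ φ') (h : Or (2 * m) P o) {u : Matrix κ ι A} (h1 : uᵀ * u = P)
    (h2 : u * P = u) : hEG φ (h.push h1 h2) = hEG φ h := GDA.cl_eq.2 (C.eulG_iso h h1 h2)

theorem he_hEG (F : FHom φ φ') (h : Or (2 * m) P o) : F.h.he (hEG φ h) = hEG φ' (h.map' (F.g : A →+* A')) := by
  unfold hEG
  rw [GHom.he_cl]
  exact GDA.cl_congr (F.eulG o) _ _

/-- rank four -/
theorem eulG_four {o : (Fin (2 * 2) → ι) → A} : eulG (m := 2) φ P o = eul φ P o := by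
  unfold eulG eul
  have e1 : (((4 * Real.pi) ^ 2 * (2 : ℕ).factorial : ℝ)) = 32 * Real.pi ^ 2 := by
    rw [Nat.factorial_two]
    push_cast
    ring
  rw [e1, ZG_St]
  congr 1
  unfold Z5
  refine St_congr fun I => ?_
  unfold TR MM
  rw [Fin.prod_univ_two]
  rfl

end Pool.Agent.Lib.MP_ccbbf6_gt.L5
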