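import Pool.Agent.Lib.MP_ccbbf6_gt.L5.EG1

/-!
# Level 5, EG2: algebra of the Pfaffian functional; the tensors of the transgression in rank `2 (n + 1)` (helper13)
-/

set_option autoImplicit false
set_option maxSynthPendingDepth 3
set_option linter.unusedSectionVars false

open Matrix Function

noncomputable section

namespace Pool.Agent.Lib.MP_ccbbf6_gt.L5

/-! ### commutative rings -/

section comm

variable {ι : Type*} [Fintype ι] [DecidableEq ι] {m : ℕ} {E : Type*} [CommRing E]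

variable {P : Matrix ι ι E} {o : (Fin (2 * m) → ι) → E}

theorem pfs_upd (o : (Fin (2 * m) → ι) → E) (M : Fin m → Matrix ι ι E) (a : Fin m) (X : Matrix ι ι E) :
    pfs o (update M a X) =
      ∑ I, o I * (X (I (s0 a)) (I (s1 a)) * ∏ b ∈ Finset.univ.erase a, M b (I (s0 b)) (I (s1 b))) := by
  unfold pfs
  refine Finset.sum_congr rfl fun I _ => ?_
  congr 1
  rw [← Finset.mul_prod_erase Finset.univ _ (Finset.mem_univ a), update_self]
  congr 1
  exact Finset.prod_congr rfl fun b hb => by rw [update_of_ne (Finset.ne_of_mem_erase hb)]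

theorem pfs_upd_neg (o : (Fin (2 * m) → ι) → E) (M : Fin m → Matrix ι ι E) (a : Fin m) (X : Matrix ι ι E) :
    pfs o (update M a (-X)) = -pfs o (update M a X) := by
  rw [pfs_upd, pfs_upd, ← Finset.sum_neg_distrib]
  exact Finset.sum_congr rfl fun I _ => by rw [Matrix.neg_apply]; ring

theorem pfs_upd_add (o : (Fin (2 * m) → ι) → E) (M : Fin m → Matrix ι ι E) (a : Fin m) (X Y : Matrix ι ι E) :
    pfs o (update M a (X + Y)) = pfs o (update M a X) + pfs o (update M a Y) := by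
  rw [pfs_upd, pfs_upd, pfs_upd, ← Finset.sum_add_distrib]
  exact Finset.sum_congr rfl fun I _ => by rw [Matrix.add_apply]; ring

theorem pfs_upd_zero (o : (Fin (2 * m) → ι) → E) (M : Fin m → Matrix ι ι E) (a : Fin m) :
    pfs o (update M a 0) = 0 := by
  rw [pfs_upd]
  exact Finset.sum_eq_zero fun I _ => by rw [Matrix.zero_apply, zero_mul, mul_zero]

theorem pfs_upd_smul (o : (Fin (2 * m) → ι) → E) (M : Fin m → Matrix ι ι E) (a : Fin m) (c : E) (X : Matrix ι ι E) :
    pfs o (update M a (c • X)) = c * pfs o (update M a X) := by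
  rw [pfs_upd, pfs_upd, Finset.mul_sum]
  exact Finset.sum_congr rfl fun I _ => by rw [Matrix.smul_apply, smul_eq_mul]; ring

/-- permutations of the slots -/
theorem sum_o_perm (h : Or (2 * m) P o) (σ : Equiv.Perm (Fin (2 * m))) (T : (Fin (2 * m) → ι) → E) :
    ∑ I, o I * T (I ∘ σ) = ((Equiv.Perm.sign σ : ℤ) : E) * ∑ I, o I * T I := by
  rw [Finset.mul_sum, sum_perm σ (fun I => ((Equiv.Perm.sign σ : ℤ) : E) * (o I * T I))]
  refine Finset.sum_congr rfl fun I _ => ?_
  rw [h.alt]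
  have h1 : (((Equiv.Perm.sign σ : ℤ) : E)) * (((Equiv.Perm.sign σ : ℤ) : E)) = 1 := by
    rw [← Int.cast_mul, Int.units_coe_mul_self, Int.cast_one]
  rw [← mul_assoc, ← mul_assoc, h1, one_mul]

/-- transposition of one matrix -/
theorem pfs_upd_tr (h : Or (2 * m) P o) (M : Fin m → Matrix ι ι E) (a : Fin m) (X : Matrix ι ι E) :
    pfs o (update M a Xᵀ) = -pfs o (update M a X) := by
  rw [pfs_upd, pfs_upd]
  have h1 := sum_o_perm h (Equiv.swap (s0 a) (s1 a))
    (fun I => X (I (s0 a)) (I (s1 a)) * ∏ b ∈ Finset.univ.erase a, M b (I (s0 b)) (I (s1 b)))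
  rw [Equiv.Perm.sign_swap (s0_ne_s1 a a)] at h1
  simp only [Units.val_neg, Units.val_one, Int.cast_neg, Int.cast_one, neg_mul, one_mul] at h1
  rw [← h1]
  refine Finset.sum_congr rfl fun I _ => ?_
  congr 1
  have e1 : (I ∘ Equiv.swap (s0 a) (s1 a)) (s0 a) = I (s1 a) := by
    rw [Function.comp_apply, Equiv.swap_apply_left]
  have e2 : (I ∘ Equiv.swap (s0 a) (s1 a)) (s1 a) = I (s0 a) := by
    rw [Function.comp_apply, Equiv.swap_apply_right]
  rw [e1, e2, Matrix.transpose_apply]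
  congr 1
  refine Finset.prod_congr rfl fun b hb => ?_
  have hb' : b ≠ a := Finset.ne_of_mem_erase hb
  rw [Function.comp_apply, Function.comp_apply,
    Equiv.swap_apply_of_ne_of_ne (fun e => hb' (s0_inj e)) (s0_ne_s1 b a),
    Equiv.swap_apply_of_ne_of_ne (s0_ne_s1 a b).symm (fun e => hb' (s1_inj e))]

/-- exchange of two matrices -/
theorem pfs_swap (h : Or (2 * m) P o) (M : Fin m → Matrix ι ι E) (a b : Fin m) :
    pfs o (M ∘ Equiv.swap a b) = pfs o M := by
  have h1 := sum_o_perm h (spp a b) (fun I => ∏ c, M c (I (s0 c)) (I (s1 c)))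
  rw [sign_spp] at h1
  simp only [Units.val_one, Int.cast_one, one_mul] at h1
  unfold pfs
  rw [← h1]
  refine Finset.sum_congr rfl fun I _ => ?_
  congr 1
  rw [← Equiv.prod_comp (Equiv.swap a b)]
  refine Finset.prod_congr rfl fun c _ => ?_
  rw [Function.comp_apply, Function.comp_apply, Function.comp_apply, spp_s0, spp_s1, Equiv.swap_apply_self]

/-- the Schouten identity, in terms of updates -/
theorem pfs_sch' (h : Or (2 * m) P o) {y : ι → E} (hy : P.mulVec y = y) (h1 : ∑ e, y e * y e = 1)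
    (M : Fin m → Matrix ι ι E) : pfs o M = ∑ a, pfs o (update M a
      (Matrix.of fun i j => y i * (∑ e, y e * M a e j) + y j * (∑ e, y e * M a i e))) := by
  rw [pfs_sch h hy h1]
  refine Finset.sum_congr rfl fun a _ => ?_
  rw [pfs_upd]
  rfl

end comm

/-! ### tensors with a distinguished first pair -/

variable {ι : Type*} [Fintype ι] [DecidableEq ι] {n : ℕ} {A : Type*} [CommRing A] [Algebra ℝ A] {B : Type*} [Ring B]
  [Algebra ℝ B] {G : GDA B} {φ : Fun0 A G}

/-- a distinguished first pair -/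
def TX (X : ι → ι → B) (M : Fin n → Matrix ι ι G.Ee) (I : Fin (2 * (n + 1)) → ι) : B :=
  X (I (s0 0)) (I (s1 0)) * ((∏ a, M a (I (s0 a.succ)) (I (s1 a.succ)) : G.Ee) : B)

/-- two distinguished pairs -/
def TY (X Y : ι → ι → B) (a : Fin n) (M : Fin n → Matrix ι ι G.Ee) (I : Fin (2 * (n + 1)) → ι) : B :=
  X (I (s0 0)) (I (s1 0)) * (Y (I (s0 a.succ)) (I (s1 a.succ)) *
    ((∏ b ∈ Finset.univ.erase a, M b (I (s0 b.succ)) (I (s1 b.succ)) : G.Ee) : B))

theorem TX_TY (X : ι → ι → B) (M : Fin n → Matrix ι ι G.Ee) (a : Fin n) (I : Fin (2 * (n + 1)) → ι) :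
    TX X M I = TY X (fun i j => (M a i j : B)) a M I := by
  unfold TX TY
  rw [← Finset.mul_prod_erase Finset.univ _ (Finset.mem_univ a)]
  rfl

theorem ss0 (a : Fin n) : s0 a.succ ≠ s0 (0 : Fin (n + 1)) := fun h => Fin.succ_ne_zero a (s0_inj h)

theorem ss1 (a : Fin n) : s1 a.succ ≠ s1 (0 : Fin (n + 1)) := fun h => Fin.succ_ne_zero a (s1_inj h)

theorem TX_0 (p : ι → A) (X : ι → ι → B) (M : Fin n → Matrix ι ι G.Ee) (I : Fin (2 * (n + 1)) → ι) :
    ∑ m, φ.f (p m) * TX X M (update I (s0 0) m) =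
      (∑ m, φ.f (p m) * X m (I (s1 0))) * ((∏ a, M a (I (s0 a.succ)) (I (s1 a.succ)) : G.Ee) : B) := by
  rw [Finset.sum_mul]
  refine Finset.sum_congr rfl fun m _ => ?_
  unfold TX
  have e1 : ∏ a, M a (update I (s0 0) m (s0 a.succ)) (update I (s0 0) m (s1 a.succ)) =
      ∏ a, M a (I (s0 a.succ)) (I (s1 a.succ)) :=
    Finset.prod_congr rfl fun a _ => by rw [update_of_ne (ss0 a), update_of_ne (s0_ne_s1 0 a.succ).symm]
  rw [e1, update_self, update_of_ne (s0_ne_s1 0 0).symm, mul_assoc]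

theorem TX_1 (p : ι → A) (X : ι → ι → B) (M : Fin n → Matrix ι ι G.Ee) (I : Fin (2 * (n + 1)) → ι) :
    ∑ m, φ.f (p m) * TX X M (update I (s1 0) m) =
      (∑ m, φ.f (p m) * X (I (s0 0)) m) * ((∏ a, M a (I (s0 a.succ)) (I (s1 a.succ)) : G.Ee) : B) := by
  rw [Finset.sum_mul]
  refine Finset.sum_congr rfl fun m _ => ?_
  unfold TX
  have e1 : ∏ a, M a (update I (s1 0) m (s0 a.succ)) (update I (s1 0) m (s1 a.succ)) =
      ∏ a, M a (I (s0 a.succ)) (I (s1 a.succ)) :=
    Finset.prod_congr rfl fun a _ => by rw [update_of_ne (s0_ne_s1 a.succ 0), update_of_ne (ss1 a)]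
  rw [e1, update_self, update_of_ne (s0_ne_s1 0 0), mul_assoc]

theorem TY_0 (p : ι → A) (X Y : ι → ι → B) (a : Fin n) (M : Fin n → Matrix ι ι G.Ee) (I : Fin (2 * (n + 1)) → ι) :
    ∑ m, φ.f (p m) * TY X Y a M (update I (s0 a.succ) m) =
      X (I (s0 0)) (I (s1 0)) * ((∑ m, φ.f (p m) * Y m (I (s1 a.succ))) *
        ((∏ b ∈ Finset.univ.erase a, M b (I (s0 b.succ)) (I (s1 b.succ)) : G.Ee) : B)) := by
  rw [Finset.sum_mul, Finset.mul_sum]
  refine Finset.sum_congr rfl fun m _ => ?_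
  unfold TY
  have e1 : ∏ b ∈ Finset.univ.erase a, M b (update I (s0 a.succ) m (s0 b.succ)) (update I (s0 a.succ) m (s1 b.succ)) =
      ∏ b ∈ Finset.univ.erase a, M b (I (s0 b.succ)) (I (s1 b.succ)) :=
    Finset.prod_congr rfl fun b hb => by
      have hb' : b ≠ a := Finset.ne_of_mem_erase hb
      rw [update_of_ne (fun h => hb' (Fin.succ_inj.1 (s0_inj h))), update_of_ne (s0_ne_s1 a.succ b.succ).symm]
  rw [e1, update_self, update_of_ne (ss0 a).symm, update_of_ne (s0_ne_s1 a.succ 0).symm,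
    update_of_ne (s0_ne_s1 a.succ a.succ).symm, cm1, ← mul_assoc (φ.f (p m))]

theorem TY_1 (p : ι → A) (X Y : ι → ι → B) (a : Fin n) (M : Fin n → Matrix ι ι G.Ee) (I : Fin (2 * (n + 1)) → ι) :
    ∑ m, φ.f (p m) * TY X Y a M (update I (s1 a.succ) m) =
      X (I (s0 0)) (I (s1 0)) * ((∑ m, φ.f (p m) * Y (I (s0 a.succ)) m) *
        ((∏ b ∈ Finset.univ.erase a, M b (I (s0 b.succ)) (I (s1 b.succ)) : G.Ee) : B)) := by
  rw [Finset.sum_mul, Finset.mul_sum]
  refine Finset.sum_congr rfl fun m _ => ?_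
  unfold TY
  have e1 : ∏ b ∈ Finset.univ.erase a, M b (update I (s1 a.succ) m (s0 b.succ)) (update I (s1 a.succ) m (s1 b.succ)) =
      ∏ b ∈ Finset.univ.erase a, M b (I (s0 b.succ)) (I (s1 b.succ)) :=
    Finset.prod_congr rfl fun b hb => by
      have hb' : b ≠ a := Finset.ne_of_mem_erase hb
      rw [update_of_ne (s0_ne_s1 b.succ a.succ), update_of_ne (fun h => hb' (Fin.succ_inj.1 (s1_inj h)))]
  rw [e1, update_self, update_of_ne (s0_ne_s1 0 a.succ), update_of_ne (ss1 a).symm,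
    update_of_ne (s0_ne_s1 a.succ a.succ), cm1, ← mul_assoc (φ.f (p m))]

/-- matrices of even elements with both slots in the bundle -/
structure EInv (φ : Fun0 A G) (P : Matrix ι ι A) (M : Matrix ι ι G.Ee) : Prop where
  l : ∀ i j, ∑ m, φ.f (P i m) * (M m j : B) = M i j
  r : ∀ i j, ∑ m, φ.f (P j m) * (M i m : B) = M i j

theorem Inv_TX {P : Matrix ι ι A} {X : ι → ι → B} {M : Fin n → Matrix ι ι G.Ee}
    (h0 : ∀ i j, ∑ m, φ.f (P i m) * X m j = X i j) (h1 : ∀ i j, ∑ m, φ.f (P j m) * X i m = X i j)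
    (hM : ∀ a, EInv φ P (M a)) : Inv φ P (TX X M) := by
  intro k
  revert k
  refine pairs_ind (fun a => ?_) (fun a => ?_)
  · refine Fin.cases ?_ (fun a => ?_) a
    · intro I
      rw [TX_0, h0]
      rfl
    · intro I
      simp only [TX_TY X M a]
      rw [TY_0, (hM a).l]
      rfl
  · refine Fin.cases ?_ (fun a => ?_) a
    · intro I
      rw [TX_1, h1]
      rfl
    · intro I
      simp only [TX_TY X M a]
      rw [TY_1, (hM a).r]
      rfl

/-- differential of the tensor -/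
theorem d_TX {X : ι → ι → B} (hX : ∀ i j, G.s (X i j) = -X i j) (M : Fin n → Matrix ι ι G.Ee)
    (I : Fin (2 * (n + 1)) → ι) : G.d (TX X M I) = TX (fun i j => G.d (X i j)) M I -
      ∑ a, TY X (fun i j => G.d (M a i j : B)) a M I := by
  unfold TX TY
  rw [G.d_mul, hX, d_prod, neg_mul, ← sub_eq_add_neg, Finset.mul_sum]

end Pool.Agent.Lib.MP_ccbbf6_gt.L5
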