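import Pool.Agent.Lib.MP_ccbbf6_gt.L5.EG2

/-!
# Level 5, EG3: the transgression of the Euler form in rank `2 (n + 1)`, `d psiG = eulG` (helper13)

`psiG = cst * sum_S w(|S|) St(y Dy ⊗ prod_(a not in S) (Dy Dy^T) ⊗ prod_(a in S) R)`, `S` a set of pairs.
-/

set_option autoImplicit false
set_option maxSynthPendingDepth 3
set_option linter.unusedSectionVars false

open Matrix Function

noncomputable section

namespace Pool.Agent.Lib.MP_ccbbf6_gt.L5

variable {ι : Type*} [Fintype ι] [DecidableEq ι] {n : ℕ} {A : Type*} [CommRing A] [Algebra ℝ A] {B : Type*} [Ring B]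
  [Algebra ℝ B] {G : GDA B} {φ : Fun0 A G}

/-- `Dy Dy^T` -/
def DDe (φ : Fun0 A G) (P : Matrix ι ι A) (y : ι → A) : Matrix ι ι G.Ee := fun i j =>
  ⟨Dv φ P y i * Dv φ P y j, by
    change G.s _ = _
    rw [map_mul, s_Dv, s_Dv, neg_mul_neg]⟩

/-- `R y` -/
def We (φ : Fun0 A G) (P : Matrix ι ι A) (y : ι → A) : ι → G.Ee := fun j => ∑ m, Re φ P j m * φ.e (y m)

/-- `y (R y)^T` -/
def YWe (φ : Fun0 A G) (P : Matrix ι ι A) (y : ι → A) : Matrix ι ι G.Ee := fun i j => φ.e (y i) * We φ P y j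

theorem We_val (P : Matrix ι ι A) (y : ι → A) (j : ι) : ((We φ P y j : G.Ee) : B) = Rw φ P y j := by
  unfold We Rw
  rw [val_sum]
  rfl

theorem YWe_val (P : Matrix ι ι A) (y : ι → A) (i j : ι) :
    ((YWe φ P y i j : G.Ee) : B) = φ.f (y i) * Rw φ P y j := by
  rw [← We_val]
  rfl

/-- the matrices at the pairs -/
def MS (φ : Fun0 A G) (P : Matrix ι ι A) (y : ι → A) (S : Finset (Fin n)) (a : Fin n) : Matrix ι ι G.Ee :=
  if a ∈ S then Re φ P else DDe φ P y

/-- the first pair -/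
def yD (φ : Fun0 A G) (P : Matrix ι ι A) (y : ι → A) (i j : ι) : B := φ.f (y i) * Dv φ P y j

/-- the terms of the transgression -/
def PhiS (φ : Fun0 A G) (P : Matrix ι ι A) (o : (Fin (2 * (n + 1)) → ι) → A) (y : ι → A) (S : Finset (Fin n)) : B :=
  St φ o (TX (yD φ P y) (MS φ P y S))

/-- the tensor with an even first pair -/
theorem St_TX (o : (Fin (2 * (n + 1)) → ι) → A) (X : Matrix ι ι G.Ee) (M : Fin n → Matrix ι ι G.Ee) :
    St φ o (TX (fun i j => (X i j : B)) M) =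
      ((pfs (fun I => φ.e (o I)) (Fin.cons X M : Fin (n + 1) → Matrix ι ι G.Ee) : G.Ee) : B) := by
  unfold St pfs
  rw [val_sum]
  refine Finset.sum_congr rfl fun I _ => ?_
  rw [Fin.prod_univ_succ]
  rfl

variable {P : Matrix ι ι A} {o : (Fin (2 * (n + 1)) → ι) → A} {y : ι → A}

/-- `St(y W ⊗ ..)` -/
def BS (φ : Fun0 A G) (P : Matrix ι ι A) (o : (Fin (2 * (n + 1)) → ι) → A) (y : ι → A) (S : Finset (Fin n)) : G.Ee :=
  pfs (fun I => φ.e (o I)) (Fin.cons (YWe φ P y) (MS φ P y S) : Fin (n + 1) → Matrix ι ι G.Ee)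

/-- `St(Dy Dy ⊗ ..)` -/
def AS (φ : Fun0 A G) (P : Matrix ι ι A) (o : (Fin (2 * (n + 1)) → ι) → A) (y : ι → A) (S : Finset (Fin n)) : G.Ee :=
  pfs (fun I => φ.e (o I)) (Fin.cons (DDe φ P y) (MS φ P y S) : Fin (n + 1) → Matrix ι ι G.Ee)

theorem Or.e (h : Or (2 * (n + 1)) P o) : Or (2 * (n + 1)) (P.map φ.e) (fun I => φ.e (o I)) :=
  h.map' (φ.e : A →+* G.Ee)

theorem EInv_Re (hP : P * P = P) (hs : Pᵀ = P) : EInv φ P (Re φ P) :=
  ⟨(MInv_Rv hP hs).l, (MInv_Rv hP hs).r⟩

theorem pDv (hP : P * P = P) (l : ι) : ∑ m, φ.f (P l m) * Dv φ P y m = Dv φ P y l := congrFun (pv_Dv hP) l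

theorem pUv (h : P.mulVec y = y) (l : ι) : ∑ m, φ.f (P l m) * φ.f (y m) = φ.f (y l) := congrFun (pv_uv h) l

theorem EInv_DDe (hP : P * P = P) : EInv φ P (DDe φ P y) := by
  constructor
  · intro i j
    change ∑ m, φ.f (P i m) * (Dv φ P y m * Dv φ P y j) = Dv φ P y i * Dv φ P y j
    conv_rhs => rw [← pDv hP i, Finset.sum_mul]
    exact Finset.sum_congr rfl fun m _ => by rw [mul_assoc]
  · intro i j
    change ∑ m, φ.f (P j m) * (Dv φ P y i * Dv φ P y m) = Dv φ P y i * Dv φ P y j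
    conv_rhs => rw [← pDv hP j, Finset.mul_sum]
    exact Finset.sum_congr rfl fun m _ => cm1 _ _ _

theorem EInv_MS (hP : P * P = P) (hs : Pᵀ = P) (S : Finset (Fin n)) (a : Fin n) : EInv φ P (MS φ P y S a) := by
  unfold MS
  split_ifs
  · exact EInv_Re hP hs
  · exact EInv_DDe hP

theorem s_yD (i j : ι) : G.s (yD φ P y i j) = -yD φ P y i j := by
  unfold yD
  rw [map_mul, φ.ev, s_Dv, mul_neg]

theorem yD_0 (h : P.mulVec y = y) (i j : ι) : ∑ m, φ.f (P i m) * yD φ P y m j = yD φ P y i j := by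
  unfold yD
  rw [← pUv h i, Finset.sum_mul]
  exact Finset.sum_congr rfl fun m _ => by rw [mul_assoc]

theorem yD_1 (hP : P * P = P) (i j : ι) : ∑ m, φ.f (P j m) * yD φ P y i m = yD φ P y i j := by
  unfold yD
  rw [← pDv hP j, Finset.mul_sum]
  exact Finset.sum_congr rfl fun m _ => cm1 _ _ _

/-- the two terms of the first pair -/
theorem St_dyD (h : Or (2 * (n + 1)) P o) (hy : Sec P y) (M : Fin n → Matrix ι ι G.Ee) :
    St φ o (TX (fun i j => G.d (yD φ P y i j)) M) =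
      St φ o (TX (fun i j => (DDe φ P y i j : B)) M) + St φ o (TX (fun i j => (YWe φ P y i j : B)) M) := by
  have e1 : ∀ i j, G.d (yD φ P y i j) = G.d (φ.f (y i)) * Dv φ P y j + φ.f (y i) * G.d (Dv φ P y j) := fun i j => by
    unfold yD
    rw [G.d_mul, φ.ev]
  have e2 : St φ o (TX (fun i j => G.d (yD φ P y i j)) M) =
      St φ o (TX (fun i j => G.d (φ.f (y i)) * Dv φ P y j) M) +
        St φ o (TX (fun i j => φ.f (y i) * G.d (Dv φ P y j)) M) := by
    rw [← St_add]
    refine St_congr fun I => ?_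
    unfold TX
    beta_reduce
    rw [e1, add_mul]
  rw [e2]
  congr 1
  · refine St_pr h (s0 0) fun I => ?_
    rw [TX_0]
    unfold TX
    congr 1
    change ∑ m, φ.f (P (I (s0 0)) m) * (G.d (φ.f (y m)) * Dv φ P y (I (s1 0))) =
      (∑ m, φ.f (P (I (s0 0)) m) * G.d (φ.f (y m))) * Dv φ P y (I (s1 0))
    rw [Finset.sum_mul]
    exact Finset.sum_congr rfl fun m _ => by rw [mul_assoc]
  · refine St_pr h (s1 0) fun I => ?_
    rw [TX_1]
    unfold TX
    congr 1
    beta_reduce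
    rw [YWe_val, ← congrFun (pv_dDv (φ := φ) h.idem hy.pr) (I (s1 0))]
    unfold pv dv
    rw [Finset.mul_sum]
    exact Finset.sum_congr rfl fun m _ => cm1 _ _ _

/-- curvature pairs are closed -/
theorem St_dR (h : Or (2 * (n + 1)) P o) (X : ι → ι → B) (M : Fin n → Matrix ι ι G.Ee) (a : Fin n) :
    St φ o (TY X (fun i j => G.d (Re φ P i j : B)) a M) = 0 := by
  have h1 : St φ o (TY X (fun i j => G.d (Re φ P i j : B)) a M) =
      St φ o (TY X (fun i j => ∑ l, φ.f (P i l) * G.D (Rv φ P) l j) a M) := St_pr h (s0 a.succ) fun I => TY_0 _ _ _ _ _ _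
  have h2 : St φ o (TY X (fun i j => ∑ l, φ.f (P i l) * G.D (Rv φ P) l j) a M) = St φ o (fun _ => 0) :=
    St_pr h (s1 a.succ) fun I => by
      rw [TY_1, two_side h.sym (Rv_closed h.idem), zero_mul, mul_zero]
  rw [h1, h2, St_zero]

theorem nc1 (u W D D' R : B) (h : W * D = D * W) : u * W * (D * D' * R) = u * D * (W * D' * R) := by
  calc u * W * (D * D' * R) = u * (W * D) * (D' * R) := by simp only [mul_assoc]
    _ = u * D * (W * D' * R) := by rw [h]; simp only [mul_assoc]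

theorem nc2 (u W D D' R : B) (h : W * (D' * D) = D' * D * W) (h' : D * D' = -(D' * D)) :
    u * D * (D' * W * R) = -(u * W * (D' * D * R)) := by
  calc u * D * (D' * W * R) = u * (D * D') * (W * R) := by simp only [mul_assoc]
    _ = -(u * (D' * D * W) * R) := by rw [h']; simp only [mul_assoc, neg_mul, mul_neg]
    _ = -(u * W * (D' * D * R)) := by rw [← h]; simp only [mul_assoc]

/-- the pairs `Dy Dy` -/
theorem St_dDD (h : Or (2 * (n + 1)) P o) (hy : Sec P y) (M : Fin n → Matrix ι ι G.Ee) (a : Fin n)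
    (hM : M a = DDe φ P y) : St φ o (TY (yD φ P y) (fun i j => G.d (DDe φ P y i j : B)) a M) =
      (-2 : ℝ) • St φ o (TX (fun i j => (YWe φ P y i j : B)) M) := by
  obtain ⟨W, hW⟩ : ∃ W, W = Rw φ P y := ⟨_, rfl⟩
  obtain ⟨D, hD⟩ : ∃ D, D = Dv φ P y := ⟨_, rfl⟩
  have sD : ∀ l, G.s (D l) = -D l := fun l => by rw [hD]; exact s_Dv l
  have sW : ∀ l, G.s (W l) = W l := fun l => by rw [hW]; exact s_Rw h.idem l
  have hdD : ∀ l, ∑ m, φ.f (P l m) * G.d (D m) = W l := fun l => by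
    rw [hD, hW]
    exact congrFun (pv_dDv h.idem hy.pr) l
  have e1 : St φ o (TY (yD φ P y) (fun i j => G.d (DDe φ P y i j : B)) a M) =
      St φ o (TY (yD φ P y) (fun i j => G.d (D i) * D j) a M) -
        St φ o (TY (yD φ P y) (fun i j => D i * G.d (D j)) a M) := by
    rw [← St_sub]
    refine St_congr fun I => ?_
    unfold TY
    beta_reduce
    have e2 : G.d (DDe φ P y (I (s0 a.succ)) (I (s1 a.succ)) : B) =
        G.d (D (I (s0 a.succ))) * D (I (s1 a.succ)) - D (I (s0 a.succ)) * G.d (D (I (s1 a.succ))) := by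
      change G.d (Dv φ P y (I (s0 a.succ)) * Dv φ P y (I (s1 a.succ))) = _
      rw [G.d_mul, s_Dv, hD, neg_mul, ← sub_eq_add_neg]
    rw [e2, sub_mul, mul_sub]
  have e3 : St φ o (TY (yD φ P y) (fun i j => G.d (D i) * D j) a M) = St φ o (TY (yD φ P y) (fun i j => W i * D j) a M) :=
    St_pr h (s0 a.succ) fun I => by
      rw [TY_0]
      unfold TY
      congr 2
      beta_reduce
      rw [← hdD, Finset.sum_mul]
      exact Finset.sum_congr rfl fun m _ => by rw [mul_assoc]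
  have e4 : St φ o (TY (yD φ P y) (fun i j => D i * G.d (D j)) a M) = St φ o (TY (yD φ P y) (fun i j => D i * W j) a M) :=
    St_pr h (s1 a.succ) fun I => by
      rw [TY_1]
      unfold TY
      congr 2
      beta_reduce
      rw [← hdD, Finset.mul_sum]
      exact Finset.sum_congr rfl fun m _ => cm1 _ _ _
  -- exchange of slots
  have r1 : ∀ (I : Fin (2 * (n + 1)) → ι) (c : Fin (2 * (n + 1))), c = s0 a.succ ∨ c = s1 a.succ →
      ∏ b ∈ Finset.univ.erase a, M b ((I ∘ Equiv.swap (s1 0) c) (s0 b.succ)) ((I ∘ Equiv.swap (s1 0) c) (s1 b.succ)) =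
        ∏ b ∈ Finset.univ.erase a, M b (I (s0 b.succ)) (I (s1 b.succ)) := by
    intro I c hc
    refine Finset.prod_congr rfl fun b hb => ?_
    have hb' : b ≠ a := Finset.ne_of_mem_erase hb
    have f1 : s0 b.succ ≠ c := by
      rcases hc with rfl | rfl
      · exact fun e => hb' (Fin.succ_inj.1 (s0_inj e))
      · exact s0_ne_s1 _ _
    have f2 : s1 b.succ ≠ c := by
      rcases hc with rfl | rfl
      · exact (s0_ne_s1 _ _).symm
      · exact fun e => hb' (Fin.succ_inj.1 (s1_inj e))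
    rw [Function.comp_apply, Function.comp_apply, Equiv.swap_apply_of_ne_of_ne (s0_ne_s1 _ _) f1,
      Equiv.swap_apply_of_ne_of_ne (ss1 b) f2]
  have hMa : ∀ i j, (M a i j : B) = D i * D j := fun i j => by
    rw [hM, hD]
    rfl
  have e5 : St φ o (TX (fun i j => (YWe φ P y i j : B)) M) = -St φ o (TY (yD φ P y) (fun i j => W i * D j) a M) := by
    rw [← St_swap h (ss0 a |> fun _ => (s0_ne_s1 a.succ 0).symm)]
    refine St_congr fun I => ?_
    rw [TX_TY (a := a)]
    unfold TY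
    beta_reduce
    rw [r1 I _ (Or.inl rfl), YWe_val, ← hW, hMa]
    have g1 : (I ∘ Equiv.swap (s1 0) (s0 a.succ)) (s0 0) = I (s0 0) := by
      rw [Function.comp_apply, Equiv.swap_apply_of_ne_of_ne (s0_ne_s1 _ _) (ss0 a).symm]
    have g2 : (I ∘ Equiv.swap (s1 0) (s0 a.succ)) (s1 0) = I (s0 a.succ) := by
      rw [Function.comp_apply, Equiv.swap_apply_left]
    have g3 : (I ∘ Equiv.swap (s1 0) (s0 a.succ)) (s0 a.succ) = I (s1 0) := by
      rw [Function.comp_apply, Equiv.swap_apply_right]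
    have g4 : (I ∘ Equiv.swap (s1 0) (s0 a.succ)) (s1 a.succ) = I (s1 a.succ) := by
      rw [Function.comp_apply, Equiv.swap_apply_of_ne_of_ne (ss1 a) (s0_ne_s1 _ _).symm]
    rw [g1, g2, g3, g4]
    unfold yD
    rw [← hD]
    have g5 := ev_comm (sW (I (s1 0))) (D (I (s0 a.succ)))
    exact nc1 _ _ _ _ _ g5
  have e6 : St φ o (TX (fun i j => (YWe φ P y i j : B)) M) = St φ o (TY (yD φ P y) (fun i j => D i * W j) a M) := by
    have g0 : St φ o (fun I => TY (yD φ P y) (fun i j => D i * W j) a M (I ∘ Equiv.swap (s1 0) (s1 a.succ))) =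
        -St φ o (TX (fun i j => (YWe φ P y i j : B)) M) := by
      rw [← St_neg]
      refine St_congr fun I => ?_
      rw [TX_TY (a := a)]
      unfold TY
      beta_reduce
      rw [r1 I _ (Or.inr rfl), YWe_val, ← hW, hMa]
      have g1 : (I ∘ Equiv.swap (s1 0) (s1 a.succ)) (s0 0) = I (s0 0) := by
        rw [Function.comp_apply, Equiv.swap_apply_of_ne_of_ne (s0_ne_s1 _ _) (s0_ne_s1 _ _)]
      have g2 : (I ∘ Equiv.swap (s1 0) (s1 a.succ)) (s1 0) = I (s1 a.succ) := by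
        rw [Function.comp_apply, Equiv.swap_apply_left]
      have g3 : (I ∘ Equiv.swap (s1 0) (s1 a.succ)) (s0 a.succ) = I (s0 a.succ) := by
        rw [Function.comp_apply, Equiv.swap_apply_of_ne_of_ne (s0_ne_s1 _ _) (s0_ne_s1 _ _)]
      have g4 : (I ∘ Equiv.swap (s1 0) (s1 a.succ)) (s1 a.succ) = I (s1 0) := by
        rw [Function.comp_apply, Equiv.swap_apply_right]
      rw [g1, g2, g3, g4]
      unfold yD
      rw [← hD]
      have g5 := ev_comm (sW (I (s1 0))) (D (I (s0 a.succ)) * D (I (s1 a.succ)))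
      have g6 := G.comm_odd _ _ (sD (I (s1 a.succ))) (sD (I (s0 a.succ)))
      exact nc2 _ _ _ _ _ g5 g6
    rw [St_swap h (ss1 a).symm] at g0
    exact (neg_injective g0).symm
  rw [e1, e3, e4, ← e6]
  have e7 : St φ o (TY (yD φ P y) (fun i j => W i * D j) a M) = -St φ o (TX (fun i j => (YWe φ P y i j : B)) M) := by
    rw [e5, neg_neg]
  rw [e7]
  module

/-- the differential of the terms -/
theorem d_PhiS (h : Or (2 * (n + 1)) P o) (hy : Sec P y) (S : Finset (Fin n)) :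
    G.d (PhiS φ P o y S) = (AS φ P o y S : B) + (1 + 2 * ((n : ℝ) - S.card)) • (BS φ P o y S : B) := by
  unfold PhiS
  rw [d_St h (Inv_TX (yD_0 hy.pr) (yD_1 h.idem) (EInv_MS h.idem h.sym S))]
  have e1 : St φ o (fun I => G.d (TX (yD φ P y) (MS φ P y S) I)) =
      St φ o (TX (fun i j => G.d (yD φ P y i j)) (MS φ P y S)) -
        ∑ a, St φ o (TY (yD φ P y) (fun i j => G.d (MS φ P y S a i j : B)) a (MS φ P y S)) := by
    rw [← St_sum, ← St_sub]
    exact St_congr fun I => d_TX s_yD _ I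
  have e2 : ∀ a, St φ o (TY (yD φ P y) (fun i j => G.d (MS φ P y S a i j : B)) a (MS φ P y S)) =
      if a ∈ S then 0 else (-2 : ℝ) • (BS φ P o y S : B) := by
    intro a
    by_cases ha : a ∈ S
    · have h1 : MS φ P y S a = Re φ P := if_pos ha
      rw [if_pos ha, h1, St_dR h]
    · have h1 : MS φ P y S a = DDe φ P y := if_neg ha
      rw [if_neg ha, h1, St_dDD h hy _ a h1, St_TX]
      rfl
  rw [e1, St_dyD h hy, St_TX, St_TX]
  simp only [e2]
  rw [Finset.sum_ite, Finset.sum_const_zero, zero_add, Finset.sum_const, ← Nat.cast_smul_eq_nsmul ℝ]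
  have e3 : ((Finset.univ.filter fun a : Fin n => a ∉ S).card : ℝ) = (n : ℝ) - S.card := by
    have h2 : (Finset.univ.filter fun a : Fin n => a ∉ S) = Sᶜ := by
      ext a
      simp
    rw [h2, Finset.card_compl, Fintype.card_fin, Nat.cast_sub]
    have := S.card_le_univ
    rwa [Fintype.card_fin] at this
  rw [e3, smul_smul]
  change (AS φ P o y S : B) + (BS φ P o y S : B) - _ = _
  module

end Pool.Agent.Lib.MP_ccbbf6_gt.L5
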