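import Pool.Agent.Lib.MP_ccbbf6_gt.L5.EG3

/-!
# Level 5, EG4: `d psiG = eulG` in rank `2 (n + 1)`; symmetries; naturality; constant bundles (helper13)
-/

set_option autoImplicit false
set_option maxSynthPendingDepth 3
set_option linter.unusedSectionVars false

open Matrix Function

noncomputable section

namespace Pool.Agent.Lib.MP_ccbbf6_gt.L5

variable {ι κ : Type*} [Fintype ι] [DecidableEq ι] [Fintype κ] [DecidableEq κ] {n : ℕ} {A A' : Type*} [CommRing A]
  [Algebra ℝ A] [CommRing A'] [Algebra ℝ A'] {B B' : Type*} [Ring B] [Algebra ℝ B] [Ring B'] [Algebra ℝ B'] {G : GDA B}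
  {G' : GDA B'} {φ : Fun0 A G} {φ' : Fun0 A' G'}

variable {P : Matrix ι ι A} {o : (Fin (2 * (n + 1)) → ι) → A} {y : ι → A}

theorem Sec.e_pr (hy : Sec P y) : (P.map φ.e).mulVec (fun i => φ.e (y i)) = fun i => φ.e (y i) := by
  funext i
  have h1 := congrArg φ.e (congrFun hy.pr i)
  rw [Matrix.mulVec, dotProduct, map_sum] at h1
  rw [← h1, Matrix.mulVec, dotProduct]
  exact Finset.sum_congr rfl fun j _ => by rw [map_mul]; rfl

theorem Sec.e_un (hy : Sec P y) : ∑ i, φ.e (y i) * φ.e (y i) = 1 := by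
  rw [← map_one φ.e, ← hy.un, map_sum]
  exact Finset.sum_congr rfl fun j _ => by rw [map_mul]

/-- the unit section and the curvature -/
theorem yR_l (hP : P * P = P) (hs : Pᵀ = P) (j : ι) : ∑ e, φ.e (y e) * Re φ P e j = -We φ P y j := by
  refine Subtype.ext ?_
  rw [val_sum]
  change ∑ m, φ.f (y m) * Rv φ P m j = -((We φ P y j : G.Ee) : B)
  rw [We_val, y_Rv hP hs]

theorem yR_r (i : ι) : ∑ e, φ.e (y e) * Re φ P i e = We φ P y i :=
  Finset.sum_congr rfl fun _ _ => mul_comm _ _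

/-- the unit section and `Dy Dy^T` -/
theorem yD_l (hs : Pᵀ = P) (hy : Sec P y) (j : ι) : ∑ e, φ.e (y e) * DDe φ P y e j = 0 := by
  refine Subtype.ext ?_
  rw [val_sum]
  change ∑ m, φ.f (y m) * (Dv φ P y m * Dv φ P y j) = 0
  have h1 := y_Dv (φ := φ) hs hy
  calc ∑ m, φ.f (y m) * (Dv φ P y m * Dv φ P y j) = (∑ m, φ.f (y m) * Dv φ P y m) * Dv φ P y j := by
        rw [Finset.sum_mul]
        exact Finset.sum_congr rfl fun m _ => by rw [mul_assoc]
    _ = 0 := by rw [h1, zero_mul]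

theorem yD_r (hs : Pᵀ = P) (hy : Sec P y) (i : ι) : ∑ e, φ.e (y e) * DDe φ P y i e = 0 := by
  refine Subtype.ext ?_
  rw [val_sum]
  change ∑ m, φ.f (y m) * (Dv φ P y i * Dv φ P y m) = 0
  have h1 := y_Dv (φ := φ) hs hy
  calc ∑ m, φ.f (y m) * (Dv φ P y i * Dv φ P y m) = Dv φ P y i * ∑ m, φ.f (y m) * Dv φ P y m := by
        rw [Finset.mul_sum]
        exact Finset.sum_congr rfl fun m _ => cm1 _ _ _
    _ = 0 := by rw [h1, mul_zero]

/-- Schouten identity: the pairs `Dy Dy` do not contribute, each curvature contributes `- 2 y W` -/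
theorem pfs_RD (h : Or (2 * (n + 1)) P o) (hy : Sec P y) (M : Fin (n + 1) → Matrix ι ι G.Ee)
    (T : Finset (Fin (n + 1))) (hT : ∀ a ∈ T, M a = Re φ P)
    (hT' : ∀ a ∉ T, M a = DDe φ P y) :
    pfs (fun I => φ.e (o I)) M = ∑ a ∈ T, -2 * pfs (fun I => φ.e (o I)) (update M a (YWe φ P y)) := by
  have h' : Or (2 * (n + 1)) (P.map φ.e) (fun I => φ.e (o I)) := h.e
  rw [pfs_sch' h' hy.e_pr hy.e_un, ← Finset.sum_subset (Finset.subset_univ T)]
  · refine Finset.sum_congr rfl fun a ha => ?_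
    have e1 : (Matrix.of fun i j => φ.e (y i) * (∑ e, φ.e (y e) * M a e j) + φ.e (y j) * (∑ e, φ.e (y e) * M a i e)) =
        -YWe φ P y + (YWe φ P y)ᵀ := by
      refine Matrix.ext fun i j => ?_
      rw [Matrix.of_apply, hT a ha, yR_l h.idem h.sym, yR_r, Matrix.add_apply, Matrix.neg_apply, Matrix.transpose_apply]
      change _ = -(φ.e (y i) * We φ P y j) + φ.e (y j) * We φ P y i
      ring
    rw [e1, pfs_upd_add, pfs_upd_neg, pfs_upd_tr h']
    ring
  · intro a _ ha
    have e1 : (Matrix.of fun i j => φ.e (y i) * (∑ e, φ.e (y e) * M a e j) + φ.e (y j) * (∑ e, φ.e (y e) * M a i e)) =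
        (0 : Matrix ι ι G.Ee) := by
      refine Matrix.ext fun i j => ?_
      rw [Matrix.of_apply, hT' a ha, yD_l h.sym hy, yD_r h.sym hy, mul_zero, mul_zero, add_zero, Matrix.zero_apply]
    rw [e1, pfs_upd_zero]

/-- `A_S = - 2 sum_(a in S) B_(S - a)` -/
theorem AS_eq (h : Or (2 * (n + 1)) P o) (hy : Sec P y) (S : Finset (Fin n)) :
    AS φ P o y S = ∑ a ∈ S, -2 * BS φ P o y (S.erase a) := by
  unfold AS BS
  obtain ⟨M, hM⟩ : ∃ M : Fin (n + 1) → Matrix ι ι G.Ee, M = Fin.cons (DDe φ P y) (MS φ P y S) := ⟨_, rfl⟩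
  rw [← hM, pfs_RD h hy M (S.map (Fin.succEmb n)) ?_ ?_, Finset.sum_map]
  · refine Finset.sum_congr rfl fun a ha => ?_
    have h' : Or (2 * (n + 1)) (P.map φ.e) (fun I => φ.e (o I)) := h.e
    rw [← pfs_swap h' _ 0 a.succ]
    congr 2
    funext b
    rw [Function.comp_apply]
    refine Fin.cases ?_ (fun b => ?_) b
    · rw [Equiv.swap_apply_left]
      change update M a.succ (YWe φ P y) a.succ = _
      rw [update_self]
      rfl
    · by_cases hb : b = a
      · subst hb
        rw [Equiv.swap_apply_right]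
        change update M b.succ (YWe φ P y) 0 = _
        rw [update_of_ne (Fin.succ_ne_zero b).symm, hM]
        change DDe φ P y = MS φ P y (S.erase b) b
        unfold MS
        rw [if_neg (Finset.notMem_erase b S)]
      · rw [Equiv.swap_apply_of_ne_of_ne (Fin.succ_ne_zero b) (fun e => hb (Fin.succ_inj.1 e))]
        change update M a.succ (YWe φ P y) b.succ = _
        rw [update_of_ne (fun e => hb (Fin.succ_inj.1 e)), hM]
        change MS φ P y S b = MS φ P y (S.erase a) b
        unfold MS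
        simp only [Finset.mem_erase, ne_eq, hb, not_false_eq_true, true_and]
  · intro a ha
    obtain ⟨b, hb, rfl⟩ := Finset.mem_map.1 ha
    rw [hM]
    exact if_pos hb
  · intro a
    rw [hM]
    refine Fin.cases ?_ (fun a => ?_) a
    · intro _
      rfl
    · intro ha
      have ha' : a ∉ S := fun hh => ha (Finset.mem_map.2 ⟨a, hh, rfl⟩)
      exact if_neg ha'

/-- `Z = - 2 (n + 1) B` -/
theorem ZG_BS (h : Or (2 * (n + 1)) P o) (hy : Sec P y) :
    ZG φ P o = -2 * ((n : G.Ee) + 1) * BS φ P o y Finset.univ := by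
  unfold ZG BS
  rw [pfo_eq, pfs_RD h hy (fun _ => Re φ P) Finset.univ (fun _ _ => rfl)
    (fun a ha => absurd (Finset.mem_univ a) ha)]
  have h' : Or (2 * (n + 1)) (P.map φ.e) (fun I => φ.e (o I)) := h.e
  have e1 : ∀ a : Fin (n + 1), pfs (fun I => φ.e (o I)) (update (fun _ => Re φ P) a (YWe φ P y)) =
      pfs (fun I => φ.e (o I)) (Fin.cons (YWe φ P y) (MS φ P y Finset.univ) : Fin (n + 1) → Matrix ι ι G.Ee) := by
    intro a
    rw [← pfs_swap h' _ 0 a]
    congr 1
    funext b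
    rw [Function.comp_apply]
    refine Fin.cases ?_ (fun b => ?_) b
    · rw [Equiv.swap_apply_left, update_self]
      rfl
    · have h2 : Equiv.swap 0 a b.succ ≠ a := by
        intro e
        have h3 := congrArg (Equiv.swap 0 a) e
        rw [Equiv.swap_apply_self, Equiv.swap_apply_right] at h3
        exact Fin.succ_ne_zero b h3
      rw [update_of_ne h2]
      change Re φ P = MS φ P y Finset.univ b
      exact (if_pos (Finset.mem_univ b)).symm
  simp only [e1]
  rw [Finset.sum_const, Finset.card_univ, Fintype.card_fin, nsmul_eq_mul]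
  push_cast
  ring

/-- the weights -/
def wt (n : ℕ) : ℕ → ℝ
  | 0 => 1
  | k + 1 => wt n k * ((1 + 2 * ((n : ℝ) - k)) / (2 * ((n : ℝ) - k)))

theorem wt_pos (n : ℕ) {k : ℕ} (hk : k ≤ n) : 0 < wt n k := by
  induction k with
  | zero => exact one_pos
  | succ k ih =>
    have h1 : (0 : ℝ) < (n : ℝ) - k := sub_pos.2 (Nat.cast_lt.2 (by omega))
    rw [wt]
    exact mul_pos (ih (by omega)) (div_pos (by linarith) (by linarith))

theorem wt_succ (n : ℕ) {k : ℕ} (hk : k < n) : 2 * ((n : ℝ) - k) * wt n (k + 1) = (1 + 2 * ((n : ℝ) - k)) * wt n k := by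
  have h1 : (0 : ℝ) < (n : ℝ) - k := sub_pos.2 (Nat.cast_lt.2 hk)
  rw [wt]
  field_simp

/-- the transgression before normalisation -/
def psiR (φ : Fun0 A G) (P : Matrix ι ι A) (o : (Fin (2 * (n + 1)) → ι) → A) (y : ι → A) : B :=
  ∑ S : Finset (Fin n), wt n S.card • PhiS φ P o y S

/-- double counting -/
theorem sum_erase {M : Type*} [AddCommMonoid M] (f : ℕ → Finset (Fin n) → M) :
    ∑ S : Finset (Fin n), ∑ a ∈ S, f S.card (S.erase a) =
      ∑ S : Finset (Fin n), ∑ _a ∈ Sᶜ, f (S.card + 1) S := by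
  rw [Finset.sum_sigma', Finset.sum_sigma']
  refine Finset.sum_bij' (fun z _ => ⟨z.1.erase z.2, z.2⟩) (fun z _ => ⟨insert z.2 z.1, z.2⟩) ?_ ?_ ?_ ?_ ?_
  · rintro ⟨S, a⟩ h
    simp only [Finset.mem_sigma, Finset.mem_univ, true_and] at h ⊢
    rw [Finset.mem_compl]
    exact Finset.notMem_erase a S
  · rintro ⟨S, a⟩ h
    simp only [Finset.mem_sigma, Finset.mem_univ, true_and] at h ⊢
    exact Finset.mem_insert_self a S
  · rintro ⟨S, a⟩ h
    simp only [Finset.mem_sigma, Finset.mem_univ, true_and] at h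
    simp only [Finset.insert_erase h]
  · rintro ⟨S, a⟩ h
    simp only [Finset.mem_sigma, Finset.mem_univ, true_and, Finset.mem_compl] at h
    simp only [Finset.erase_insert h]
  · rintro ⟨S, a⟩ h
    simp only [Finset.mem_sigma, Finset.mem_univ, true_and] at h
    simp only
    rw [Finset.card_erase_add_one h]

theorem d_psiR (h : Or (2 * (n + 1)) P o) (hy : Sec P y) :
    G.d (psiR φ P o y) = wt n n • ((BS φ P o y Finset.univ : G.Ee) : B) := by
  have e0 : ∀ S : Finset (Fin n), ((AS φ P o y S : G.Ee) : B) =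
      ∑ a ∈ S, (-2 : ℝ) • ((BS φ P o y (S.erase a) : G.Ee) : B) := by
    intro S
    rw [AS_eq h hy, val_sum]
    refine Finset.sum_congr rfl fun a _ => ?_
    have h1 : (-2 * BS φ P o y (S.erase a) : G.Ee) = (-2 : ℝ) • BS φ P o y (S.erase a) := by
      rw [Algebra.smul_def, map_neg, map_ofNat]
    rw [h1]
    rfl
  unfold psiR
  rw [map_sum]
  simp only [map_smul]
  have e1 : ∀ S : Finset (Fin n), wt n S.card • G.d (PhiS φ P o y S) =
      (∑ a ∈ S, (-2 * wt n S.card) • ((BS φ P o y (S.erase a) : G.Ee) : B)) +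
        (wt n S.card * (1 + 2 * ((n : ℝ) - S.card))) • ((BS φ P o y S : G.Ee) : B) := by
    intro S
    rw [d_PhiS h hy, smul_add, smul_smul, e0, Finset.smul_sum]
    congr 1
    refine Finset.sum_congr rfl fun a _ => ?_
    rw [smul_smul, mul_comm]
  simp only [e1]
  rw [Finset.sum_add_distrib, sum_erase fun k S => (-2 * wt n k) • ((BS φ P o y S : G.Ee) : B), ← Finset.sum_add_distrib,
    Finset.sum_eq_single Finset.univ]
  · rw [Finset.compl_univ, Finset.sum_empty, zero_add, Finset.card_univ, Fintype.card_fin, sub_self, mul_zero, add_zero,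
      mul_one]
  · intro S _ hS
    have h1 : S.card < n := by
      have := Finset.card_lt_univ_of_notMem (s := S) (x := (Finset.exists_of_ssubset
        (Finset.ssubset_univ_iff.2 hS)).choose) (Finset.exists_of_ssubset (Finset.ssubset_univ_iff.2 hS)).choose_spec.2
      rwa [Fintype.card_fin] at this
    rw [Finset.sum_const, Finset.card_compl, Fintype.card_fin, ← Nat.cast_smul_eq_nsmul ℝ, smul_smul, ← add_smul,
      Nat.cast_sub h1.le]
    have h2 := wt_succ n h1
    have h3 : ((n : ℝ) - S.card) * (-2 * wt n (S.card + 1)) + wt n S.card * (1 + 2 * ((n : ℝ) - S.card)) = 0 := by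
      linarith
    rw [h3, zero_smul]
  · intro hh
    exact absurd (Finset.mem_univ _) hh

/-- the normalisation -/
def cstG (n : ℕ) : ℝ := 2 * ((n : ℝ) + 1) / (((4 * Real.pi) ^ (n + 1) * (n + 1).factorial) * wt n n)

/-- **the transgression form** -/
def psiG (φ : Fun0 A G) (P : Matrix ι ι A) (o : (Fin (2 * (n + 1)) → ι) → A) (y : ι → A) : B :=
  cstG n • psiR φ P o y

/-- **transgression of the Euler form** -/
theorem d_psiG (h : Or (2 * (n + 1)) P o) (hy : Sec P y) : G.d (psiG φ P o y) = eulG φ P o := by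
  unfold psiG
  rw [map_smul, d_psiR h hy, smul_smul]
  unfold eulG
  rw [ZG_BS h hy]
  have e1 : (-2 * ((n : G.Ee) + 1) * BS φ P o y Finset.univ) = (-2 * ((n : ℝ) + 1)) • BS φ P o y Finset.univ := by
    rw [Algebra.smul_def, map_mul, map_neg, map_ofNat, map_add, map_natCast, map_one]
  rw [e1]
  change _ = _ • ((-2 * ((n : ℝ) + 1)) • ((BS φ P o y Finset.univ : G.Ee) : B))
  rw [smul_smul]
  congr 1
  have h1 := (wt_pos n (le_refl n)).ne'
  have h2 : ((4 * Real.pi) ^ (n + 1) * (n + 1).factorial : ℝ) ≠ 0 :=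
    mul_ne_zero (pow_ne_zero _ (mul_ne_zero four_ne_zero Real.pi_ne_zero))
      (Nat.cast_ne_zero.2 (Nat.factorial_ne_zero _))
  unfold cstG
  field_simp

theorem s_PhiS (S : Finset (Fin n)) : G.s (PhiS φ P o y S) = -PhiS φ P o y S := by
  unfold PhiS
  rw [s_St, ← St_neg]
  refine St_congr fun I => ?_
  unfold TX
  rw [map_mul, s_yD, neg_mul]
  congr 2
  exact (∏ a, MS φ P y S a (I (s0 a.succ)) (I (s1 a.succ)) : G.Ee).2

theorem s_psiG : G.s (psiG φ P o y) = -psiG φ P o y := by
  unfold psiG psiR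
  rw [map_smul, map_sum, ← smul_neg, ← Finset.sum_neg_distrib]
  congr 1
  refine Finset.sum_congr rfl fun S _ => ?_
  rw [map_smul, s_PhiS, smul_neg]

end Pool.Agent.Lib.MP_ccbbf6_gt.L5
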