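import Pool.Agent.Lib.MP_ccbbf6_gt.L5.EG4

/-!
# Level 5, EG5: the transgression in rank `2 (n + 1)`: symmetries, naturality, flat bundles, the constant (helper13)
-/

set_option autoImplicit false
set_option maxSynthPendingDepth 3
set_option linter.unusedSectionVars false

open Matrix Function

noncomputable section

namespace Pool.Agent.Lib.MP_ccbbf6_gt.L5

variable {ι κ : Type*} [Fintype ι] [DecidableEq ι] [Fintype κ] [DecidableEq κ] {n : ℕ} {A A' : Type*} [CommRing A]
  [Algebra ℝ A] [CommRing A'] [Algebra ℝ A'] {B B' : Type*} [Ring B] [Algebra ℝ B] [Ring B'] [Algebra ℝ B'] {G : GDA B}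
  {G' : GDA B'} {φ : Fun0 A G} {φ' : Fun0 A' G'}

variable {P : Matrix ι ι A} {o : (Fin (2 * (n + 1)) → ι) → A} {y : ι → A}

/-! ### symmetries -/

theorem Dv_neg (i : ι) : Dv φ P (-y) i = -Dv φ P y i := by
  unfold Dv pv dv uv
  rw [← Finset.sum_neg_distrib]
  exact Finset.sum_congr rfl fun m _ => by rw [Pi.neg_apply, map_neg, map_neg, mul_neg]

theorem DDe_neg : DDe φ P (-y) = DDe φ P y := by
  refine Matrix.ext fun i j => Subtype.ext ?_
  change Dv φ P (-y) i * Dv φ P (-y) j = Dv φ P y i * Dv φ P y j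
  rw [Dv_neg, Dv_neg, neg_mul_neg]

theorem yD_neg : yD φ P (-y) = yD φ P y := by
  funext i j
  unfold yD
  rw [Dv_neg, Pi.neg_apply, map_neg, neg_mul_neg]

theorem psiG_neg : psiG φ P o (-y) = psiG φ P o y := by
  unfold psiG psiR PhiS MS
  rw [yD_neg, DDe_neg]

theorem psiG_op : psiG φ P (fun I => -o I) y = -psiG φ P o y := by
  have h1 : ∀ T : (Fin (2 * (n + 1)) → ι) → B, St φ (fun I => -o I) T = -St φ o T := fun T => by
    unfold St
    rw [← Finset.sum_neg_distrib]
    exact Finset.sum_congr rfl fun I _ => by rw [map_neg, neg_mul]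
  unfold psiG psiR PhiS
  rw [← smul_neg, ← Finset.sum_neg_distrib]
  congr 1
  refine Finset.sum_congr rfl fun S _ => ?_
  rw [h1, smul_neg]

/-! ### naturality -/

theorem FHom.dde (F : FHom φ φ') : (DDe φ P y).map F.h.ee = DDe φ' (P.map F.g) (fun l => F.g (y l)) := by
  refine Matrix.ext fun i j => Subtype.ext ?_
  change F.h.f (Dv φ P y i * Dv φ P y j) = _
  rw [map_mul, F.dvv, F.dvv]
  rfl

theorem FHom.ms (F : FHom φ φ') (S : Finset (Fin n)) (a : Fin n) :
    (MS φ P y S a).map F.h.ee = MS φ' (P.map F.g) (fun l => F.g (y l)) S a := by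
  unfold MS
  split_ifs
  · exact F.re P
  · exact F.dde

theorem FHom.phiS (F : FHom φ φ') (S : Finset (Fin n)) :
    F.h.f (PhiS φ P o y S) = PhiS φ' (P.map F.g) (fun I => F.g (o I)) (fun l => F.g (y l)) S := by
  unfold PhiS
  rw [F.st]
  refine St_congr fun I => ?_
  unfold TX
  rw [map_mul]
  congr 1
  · unfold yD
    rw [map_mul, F.com, F.dvv]
  · have h1 : F.h.ee (∏ a, MS φ P y S a (I (s0 a.succ)) (I (s1 a.succ))) =
        ∏ a, MS φ' (P.map F.g) (fun l => F.g (y l)) S a (I (s0 a.succ)) (I (s1 a.succ)) := by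
      rw [map_prod]
      refine Finset.prod_congr rfl fun a _ => ?_
      exact congrFun (congrFun (F.ms S a) _) _
    exact congrArg Subtype.val h1

theorem FHom.psiG (F : FHom φ φ') :
    F.h.f (L5.psiG φ P o y) = L5.psiG φ' (P.map F.g) (fun I => F.g (o I)) (fun l => F.g (y l)) := by
  unfold L5.psiG psiR
  rw [map_smul, map_sum]
  congr 1
  refine Finset.sum_congr rfl fun S _ => ?_
  rw [map_smul, F.phiS]

/-! ### flat bundles -/

/-- products of pairs as products of lists -/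
theorem prod_list (m : ℕ) (x : Fin (2 * m) → B) (e : Fin m → G.Ee) (h : ∀ a, (e a : B) = x (s0 a) * x (s1 a)) :
    ((∏ a, e a : G.Ee) : B) = (List.ofFn x).prod := by
  induction m with
  | zero => rfl
  | succ m ih =>
    rw [Fin.prod_univ_succ]
    have e1 : ((e 0 * ∏ a : Fin m, e a.succ : G.Ee) : B) = (e 0 : B) * ((∏ a : Fin m, e a.succ : G.Ee) : B) := rfl
    rw [e1, h 0, ih (fun k => x k.succ.succ) (fun a => e a.succ) fun a => h a.succ]
    have e2 : (List.ofFn x).prod = x 0 * (x (Fin.succ 0) * (List.ofFn fun k : Fin (2 * m) => x k.succ.succ).prod) := by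
      rw [List.ofFn_succ (n := 2 * m + 1) (f := x), List.prod_cons, List.ofFn_succ, List.prod_cons]
    rw [e2, mul_assoc]
    rfl

/-- the leading term -/
theorem PhiS_empty : PhiS φ P o y ∅ = St φ o (fun I => φ.f (y (I 0)) *
    (List.ofFn fun k : Fin (2 * n + 1) => Dv φ P y (I k.succ)).prod) := by
  unfold PhiS
  refine St_congr fun I => ?_
  unfold TX yD
  have h1 : (((∏ a : Fin n, MS φ P y ∅ a (I (s0 a.succ)) (I (s1 a.succ)) : G.Ee)) : B) =
      (List.ofFn fun k : Fin (2 * n) => Dv φ P y (I k.succ.succ)).prod := by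
    refine prod_list n _ _ fun a => ?_
    have h2 : MS φ P y ∅ a = DDe φ P y := if_neg (Finset.notMem_empty a)
    rw [h2]
    rfl
  rw [h1, List.ofFn_succ, List.prod_cons, mul_assoc]
  rfl

/-- terms with curvature vanish on flat bundles -/
theorem PhiS_flat (hR : ∀ i j, Rv φ P i j = 0) {S : Finset (Fin n)} (hS : S ≠ ∅) : PhiS φ P o y S = 0 := by
  obtain ⟨a, ha⟩ := Finset.nonempty_iff_ne_empty.2 hS
  unfold PhiS
  rw [← St_zero (φ := φ) (o := o)]
  refine St_congr fun I => ?_
  unfold TX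
  have h1 : ∏ a : Fin n, MS φ P y S a (I (s0 a.succ)) (I (s1 a.succ)) = 0 := by
    refine Finset.prod_eq_zero (Finset.mem_univ a) ?_
    have h2 : MS φ P y S a = Re φ P := if_pos ha
    rw [h2]
    exact Subtype.ext (hR _ _)
  rw [h1]
  exact mul_zero _

theorem psiG_flat (hR : ∀ i j, Rv φ P i j = 0) : psiG φ P o y = cstG n • St φ o (fun I => φ.f (y (I 0)) *
    (List.ofFn fun k : Fin (2 * n + 1) => Dv φ P y (I k.succ)).prod) := by
  unfold psiG psiR
  rw [Finset.sum_eq_single ∅, Finset.card_empty, PhiS_empty]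
  · change cstG n • ((1 : ℝ) • _) = _
    rw [one_smul]
  · intro S _ hS
    rw [PhiS_flat hR hS, smul_zero]
  · intro hh
    exact absurd (Finset.mem_univ _) hh

/-! ### the constant -/

theorem wt_eq (n k : ℕ) (hk : k ≤ n) : wt n k * ((2 * (n - k) + 1).factorial * (4 : ℝ) ^ k * (n.factorial : ℝ) ^ 2) =
    (2 * n + 1).factorial * ((n - k).factorial : ℝ) ^ 2 := by
  induction k with
  | zero =>
    change (1 : ℝ) * _ = _
    rw [Nat.sub_zero, pow_zero]
    ring
  | succ k ih =>
    obtain ⟨j, hj⟩ : ∃ j, n - k = j + 1 := ⟨n - k - 1, by omega⟩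
    have hj' : n - (k + 1) = j := by omega
    have h1 := ih (by omega)
    rw [hj] at h1
    rw [hj', wt]
    have h2 : (n : ℝ) - k = (j : ℝ) + 1 := by
      have : n = j + 1 + k := by omega
      rw [this]
      push_cast
      ring
    rw [h2]
    have h3 : ((2 * (j + 1) + 1).factorial : ℝ) = (2 * j + 3) * ((2 * j + 2) * (2 * j + 1).factorial) := by
      have e : 2 * (j + 1) + 1 = 2 * j + 1 + 1 + 1 := by ring
      rw [e, Nat.factorial_succ, Nat.factorial_succ]
      push_cast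
      ring
    have h4 : ((j + 1).factorial : ℝ) = (j + 1) * j.factorial := by
      rw [Nat.factorial_succ]
      push_cast
      ring
    rw [h3, h4] at h1
    have h5 : ((j : ℝ) + 1) ≠ 0 := by positivity
    have h6 : (wt n k * ((1 + 2 * ((j : ℝ) + 1)) / (2 * ((j : ℝ) + 1)))) *
        ((2 * j + 1).factorial * 4 ^ (k + 1) * (n.factorial : ℝ) ^ 2) =
        (wt n k * ((2 * j + 3) * ((2 * j + 2) * (2 * j + 1).factorial) * 4 ^ k * (n.factorial : ℝ) ^ 2)) /
          ((j : ℝ) + 1) ^ 2 := by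
      field_simp
      ring
    rw [h6, h1]
    field_simp

theorem cstG_eq (n : ℕ) : cstG n = (n.factorial : ℝ) / (2 * Real.pi ^ (n + 1) * (2 * n + 1).factorial) := by
  have h1 := wt_eq n n le_rfl
  rw [Nat.sub_self, mul_zero, zero_add, Nat.factorial_one, Nat.factorial_zero] at h1
  push_cast at h1
  have hw := (wt_pos n (le_refl n)).ne'
  have hp := Real.pi_ne_zero
  have hf : (n.factorial : ℝ) ≠ 0 := Nat.cast_ne_zero.2 (Nat.factorial_ne_zero n)
  have hf2 : ((2 * n + 1).factorial : ℝ) ≠ 0 := Nat.cast_ne_zero.2 (Nat.factorial_ne_zero _)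
  have h2 : wt n n = (2 * n + 1).factorial / (4 ^ n * (n.factorial : ℝ) ^ 2) := by
    rw [eq_div_iff (by positivity)]
    linarith
  unfold cstG
  rw [h2, Nat.factorial_succ]
  push_cast
  rw [mul_pow]
  have h3 : ((n : ℝ) + 1) ≠ 0 := by positivity
  field_simp
  ring

/-- rank four -/
theorem wt_one : wt 1 1 = 3 / 2 := by
  have h : wt 1 1 = 1 * ((1 + 2 * (((1 : ℕ) : ℝ) - ((0 : ℕ) : ℝ))) / (2 * (((1 : ℕ) : ℝ) - ((0 : ℕ) : ℝ)))) := rfl
  rw [h]
  norm_num

end Pool.Agent.Lib.MP_ccbbf6_gt.L5
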