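import Pool.Agent.Lib.MP_ccbbf6_gt.L5.EU2

/-!
# Level 5, EU8: the complement of a unit section (helper13)

`redP P y = P - y y^T`, `redo o y (I) = sum_c y_c o(c :: I)`:  `Or (r+1) P o` gives `Or r (redP P y) (redo o y)`.
-/

set_option autoImplicit false
set_option maxSynthPendingDepth 3
set_option linter.unusedSectionVars false

open Matrix Function

noncomputable section

namespace Pool.Agent.Lib.MP_ccbbf6_gt.L5

variable {ι κ : Type*} [Fintype ι] [DecidableEq ι] [Fintype κ] [DecidableEq κ] {r : ℕ}

/-- injective base change -/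
theorem Or.of_inj {A A' : Type*} [CommRing A] [CommRing A'] {P : Matrix ι ι A} {o : (Fin r → ι) → A} (f : A →+* A')
    (hf : Function.Injective f) (h : Or r (P.map f) (fun I => f (o I))) : Or r P o := by
  have hm : ∀ {M N : Matrix ι ι A}, M.map f = N.map f → M = N := fun {M N} e => by
    ext i j
    exact hf (congrFun (congrFun e i) j)
  constructor
  · refine hm ?_
    rw [Matrix.transpose_map, h.sym]
  · refine hm ?_
    rw [Matrix.map_mul, h.idem]
  · refine hf ?_
    have h1 := h.tr
    unfold trace at h1 ⊢
    rw [map_sum, map_natCast]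
    exact h1
  · intro σ I
    refine hf ?_
    rw [map_mul, map_intCast]
    exact h.alt σ I
  · intro I J
    refine hf ?_
    rw [map_mul, RingHom.map_det]
    exact h.rk I J
  · refine hf ?_
    rw [map_sum, map_natCast, ← h.nrm]
    exact Finset.sum_congr rfl fun I _ => map_mul _ _ _
  · intro I k l
    refine hf ?_
    rw [map_sum, ← h.inv I k l]
    exact Finset.sum_congr rfl fun i _ => map_mul _ _ _
  · intro y hy I e
    refine hf ?_
    rw [map_mul, map_sum]
    have h1 : (P.map f).mulVec (fun i => f (y i)) = fun i => f (y i) := by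
      funext i
      have h2 := congrArg f (congrFun hy i)
      rw [Matrix.mulVec, dotProduct, map_sum] at h2
      rw [← h2, Matrix.mulVec, dotProduct]
      exact Finset.sum_congr rfl fun j _ => by rw [map_mul]; rfl
    have h3 := h.sch _ h1 I e
    rw [h3]
    exact Finset.sum_congr rfl fun k _ => (map_mul _ _ _).symm

variable {A : Type*} [CommRing A] [Algebra ℝ A]

/-- the complement of a unit section -/
def redP (P : Matrix ι ι A) (y : ι → A) : Matrix ι ι A := fun i j => P i j - y i * y j

/-- the orientation of the complement -/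
def redo (o : (Fin (r + 1) → ι) → A) (y : ι → A) (I : Fin r → ι) : A := ∑ c, y c * o (Fin.cons c I)

theorem two_zero {x : A} (h : x = -x) : x = 0 := by
  have h2 : (2 : ℝ) • x = 0 := by
    rw [two_smul]
    nth_rewrite 1 [h]
    exact neg_add_cancel _
  have h3 : x = (1 / 2 : ℝ) • ((2 : ℝ) • x) := by
    rw [smul_smul]
    norm_num
  rw [h3, h2, smul_zero]

theorem nat_cancel {x y : A} (n : ℕ) (h : ((n + 1 : ℕ) : A) * x = ((n + 1 : ℕ) : A) * y) : x = y := by
  have h1 : ∀ z : A, ((n + 1 : ℕ) : A) * z = ((n + 1 : ℕ) : ℝ) • z := fun z => by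
    rw [Algebra.smul_def, map_natCast]
  rw [h1, h1] at h
  have h2 := congrArg (fun z => (((n + 1 : ℕ) : ℝ))⁻¹ • z) h
  simp only [smul_smul] at h2
  rw [inv_mul_cancel₀ (Nat.cast_ne_zero.2 (Nat.succ_ne_zero n)), one_smul, one_smul] at h2
  exact h2

variable {P : Matrix ι ι A} {o : (Fin (r + 1) → ι) → A} {y : ι → A}

theorem Sec.row (h : Pᵀ = P) (hy : Sec P y) (l : ι) : ∑ m, y m * P m l = y l := by
  have h1 := congrFun hy.pr l
  rw [Matrix.mulVec, dotProduct] at h1
  conv_rhs => rw [← h1]
  exact Finset.sum_congr rfl fun m _ => by rw [mul_comm, ← congrFun (congrFun h l) m]; rfl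

theorem Sec.col (hy : Sec P y) (l : ι) : ∑ m, P l m * y m = y l := congrFun hy.pr l

theorem swap0 (h : Or (r + 1) P o) (k : Fin r) (c i : ι) (I : Fin r → ι) :
    o (update (Fin.cons i I : Fin (r + 1) → ι) k.succ c) = -o (update (Fin.cons c I : Fin (r + 1) → ι) k.succ i) := by
  have h1 := h.alt (Equiv.swap 0 k.succ) (update (Fin.cons c I : Fin (r + 1) → ι) k.succ i)
  rw [Equiv.Perm.sign_swap (Fin.succ_ne_zero k).symm] at h1
  simp only [Units.val_neg, Units.val_one, Int.cast_neg, Int.cast_one, neg_mul, one_mul] at h1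
  rw [← h1]
  congr 1
  funext j
  refine Fin.cases ?_ (fun l => ?_) j
  · rw [Function.comp_apply, Equiv.swap_apply_left, update_self, update_of_ne (Fin.succ_ne_zero k).symm, Fin.cons_zero]
  · rw [Function.comp_apply]
    by_cases hl : l = k
    · subst hl
      rw [Equiv.swap_apply_right, update_self, update_of_ne (Fin.succ_ne_zero l).symm, Fin.cons_zero]
    · have hl' : l.succ ≠ k.succ := fun e => hl (Fin.succ_injective _ e)
      rw [Equiv.swap_apply_of_ne_of_ne (Fin.succ_ne_zero l) hl', update_of_ne hl', update_of_ne hl', Fin.cons_succ,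
        Fin.cons_succ]

/-- the complement of a unit section -/
theorem Or.red (h : Or (r + 1) P o) (hy : Sec P y) : Or r (redP P y) (redo o y) := by
  have hrow := hy.row h.sym
  have hcol := hy.col
  have hPP : ∀ i k, ∑ j, P i j * P j k = P i k := fun i k => by
    rw [← Matrix.mul_apply, h.idem]
  constructor
  · ext i j
    change P j i - y j * y i = P i j - y i * y j
    rw [mul_comm (y j), ← congrFun (congrFun h.sym i) j]
    rfl
  · ext i k
    rw [Matrix.mul_apply]
    unfold redP
    have e1 : ∀ j, (P i j - y i * y j) * (P j k - y j * y k) =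
        P i j * P j k - P i j * y j * y k - y i * (y j * P j k) + y i * (y j * y j) * y k := fun j => by ring
    simp only [e1]
    rw [Finset.sum_add_distrib, Finset.sum_sub_distrib, Finset.sum_sub_distrib, hPP, ← Finset.sum_mul, hcol,
      ← Finset.mul_sum, hrow, ← Finset.sum_mul, ← Finset.mul_sum, hy.un]
    ring
  · have h1 := h.tr
    unfold trace at h1 ⊢
    have e1 : ∀ i, (redP P y).diag i = P.diag i - y i * y i := fun i => rfl
    simp only [e1]
    rw [Finset.sum_sub_distrib, h1, hy.un]
    push_cast
    ring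
  · intro σ I
    unfold redo
    rw [Finset.mul_sum]
    refine Finset.sum_congr rfl fun c _ => ?_
    have e1 : (Fin.cons c (I ∘ σ) : Fin (r + 1) → ι) =
        (Fin.cons c I : Fin (r + 1) → ι) ∘ (Equiv.Perm.decomposeFin.symm (0, σ)) := by
      funext j
      refine Fin.cases ?_ (fun l => ?_) j
      · rw [Function.comp_apply, Equiv.Perm.decomposeFin_symm_apply_zero, Fin.cons_zero, Fin.cons_zero]
      · rw [Function.comp_apply, Equiv.Perm.decomposeFin_symm_apply_succ, Equiv.swap_self, Equiv.refl_apply,
          Fin.cons_succ, Fin.cons_succ, Function.comp_apply]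
    rw [e1, h.alt, Equiv.Perm.decomposeFin.symm_sign, if_pos rfl, one_mul]
    ring
  · intro I J
    have f1 : ∀ e : ι, ∑ c, y c * det (Matrix.of fun k l => P ((Fin.cons c I : Fin (r + 1) → ι) k)
        ((Fin.cons e J : Fin (r + 1) → ι) l)) =
        det (Matrix.of (Fin.cons (fun l => y ((Fin.cons e J : Fin (r + 1) → ι) l))
          (fun k l => P (I k) ((Fin.cons e J : Fin (r + 1) → ι) l)) : Fin (r + 1) → Fin (r + 1) → A)) := by
      intro e
      simp only [Matrix.det_succ_row_zero, Finset.mul_sum]
      rw [Finset.sum_comm]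
      refine Finset.sum_congr rfl fun j _ => ?_
      have g1 : ∀ c, (Matrix.of fun k l => P ((Fin.cons c I : Fin (r + 1) → ι) k)
          ((Fin.cons e J : Fin (r + 1) → ι) l)).submatrix Fin.succ j.succAbove =
          (Matrix.of (Fin.cons (fun l => y ((Fin.cons e J : Fin (r + 1) → ι) l))
          (fun k l => P (I k) ((Fin.cons e J : Fin (r + 1) → ι) l)) : Fin (r + 1) → Fin (r + 1) → A)).submatrix
            Fin.succ j.succAbove := fun c => rfl
      simp only [g1]
      have g2 : ∀ c, (Matrix.of fun k l => P ((Fin.cons c I : Fin (r + 1) → ι) k)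
          ((Fin.cons e J : Fin (r + 1) → ι) l)) 0 j = P c ((Fin.cons e J : Fin (r + 1) → ι) j) := fun c => rfl
      have g3 : (Matrix.of (Fin.cons (fun l => y ((Fin.cons e J : Fin (r + 1) → ι) l))
          (fun k l => P (I k) ((Fin.cons e J : Fin (r + 1) → ι) l)) : Fin (r + 1) → Fin (r + 1) → A)) 0 j =
          y ((Fin.cons e J : Fin (r + 1) → ι) j) := rfl
      simp only [g2]
      rw [g3, ← hrow ((Fin.cons e J : Fin (r + 1) → ι) j), Finset.mul_sum, Finset.sum_mul]
      exact Finset.sum_congr rfl fun c _ => by ring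
    have f2 : ∑ e, y e * det (Matrix.of (Fin.cons (fun l => y ((Fin.cons e J : Fin (r + 1) → ι) l))
          (fun k l => P (I k) ((Fin.cons e J : Fin (r + 1) → ι) l)) : Fin (r + 1) → Fin (r + 1) → A)) =
        det (Matrix.of (Fin.cons (Fin.cons 1 fun l => y (J l)) (fun k => Fin.cons (y (I k)) fun l => P (I k) (J l)) :
          Fin (r + 1) → Fin (r + 1) → A)) := by
      simp only [Matrix.det_succ_column_zero, Finset.mul_sum]
      rw [Finset.sum_comm]
      refine Finset.sum_congr rfl fun i _ => ?_
      have g1 : ∀ e, (Matrix.of (Fin.cons (fun l => y ((Fin.cons e J : Fin (r + 1) → ι) l))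
          (fun k l => P (I k) ((Fin.cons e J : Fin (r + 1) → ι) l)) : Fin (r + 1) → Fin (r + 1) → A)).submatrix
            i.succAbove Fin.succ =
          (Matrix.of (Fin.cons (Fin.cons 1 fun l => y (J l)) (fun k => Fin.cons (y (I k)) fun l => P (I k) (J l)) :
          Fin (r + 1) → Fin (r + 1) → A)).submatrix i.succAbove Fin.succ := by
        intro e
        ext a b
        rw [Matrix.submatrix_apply, Matrix.submatrix_apply, Matrix.of_apply, Matrix.of_apply]
        refine Fin.cases ?_ (fun k => ?_) (i.succAbove a)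
        · rfl
        · rfl
      simp only [g1]
      have g2 : ∑ e, y e * (Matrix.of (Fin.cons (fun l => y ((Fin.cons e J : Fin (r + 1) → ι) l))
          (fun k l => P (I k) ((Fin.cons e J : Fin (r + 1) → ι) l)) : Fin (r + 1) → Fin (r + 1) → A)) i 0 =
          (Matrix.of (Fin.cons (Fin.cons 1 fun l => y (J l)) (fun k => Fin.cons (y (I k)) fun l => P (I k) (J l)) :
          Fin (r + 1) → Fin (r + 1) → A)) i 0 := by
        refine Fin.cases ?_ (fun k => ?_) i
        · exact hy.un
        · change ∑ e, y e * P (I k) e = y (I k)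
          rw [← hcol (I k)]
          exact Finset.sum_congr rfl fun e _ => mul_comm _ _
      rw [← g2, Finset.mul_sum, Finset.sum_mul]
      exact Finset.sum_congr rfl fun e _ => by ring
    have f3 : det (Matrix.of (Fin.cons (Fin.cons 1 fun l => y (J l)) (fun k => Fin.cons (y (I k)) fun l => P (I k) (J l)) :
          Fin (r + 1) → Fin (r + 1) → A)) =
        det (Matrix.of (Fin.cons (Fin.cons 1 fun l => y (J l)) (fun k => Fin.cons 0 fun l => redP P y (I k) (J l)) :
          Fin (r + 1) → Fin (r + 1) → A)) := by
      refine Matrix.det_eq_of_forall_row_eq_smul_add_const (Fin.cons 0 fun k => y (I k)) 0 rfl fun i j => ?_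
      refine Fin.cases ?_ (fun k => ?_) i
      · change _ = _ + 0 * _
        rw [zero_mul, add_zero]
        rfl
      · refine Fin.cases ?_ (fun l => ?_) j
        · change y (I k) = 0 + y (I k) * 1
          rw [zero_add, mul_one]
        · change P (I k) (J l) = (P (I k) (J l) - y (I k) * y (J l)) + y (I k) * y (J l)
          ring
    have f4 : det (Matrix.of (Fin.cons (Fin.cons 1 fun l => y (J l)) (fun k => Fin.cons 0 fun l => redP P y (I k) (J l)) :
          Fin (r + 1) → Fin (r + 1) → A)) = det (Matrix.of fun k l => redP P y (I k) (J l)) := by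
      rw [Matrix.det_succ_column_zero, Fin.sum_univ_succ]
      have g1 : ∀ k : Fin r, (Matrix.of (Fin.cons (Fin.cons 1 fun l => y (J l))
          (fun k => Fin.cons 0 fun l => redP P y (I k) (J l)) : Fin (r + 1) → Fin (r + 1) → A)) k.succ 0 = 0 := fun k => rfl
      simp only [g1, mul_zero, zero_mul, Finset.sum_const_zero, add_zero]
      have g2 : (Matrix.of (Fin.cons (Fin.cons 1 fun l => y (J l))
          (fun k => Fin.cons 0 fun l => redP P y (I k) (J l)) : Fin (r + 1) → Fin (r + 1) → A)) 0 0 = 1 := rfl
      rw [g2, Fin.val_zero, pow_zero, one_mul, one_mul]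
      congr 1
    unfold redo
    rw [Finset.sum_mul_sum, Finset.sum_comm]
    have f5 : ∀ e c : ι, y c * o (Fin.cons c I) * (y e * o (Fin.cons e J)) =
        y e * (y c * det (Matrix.of fun k l => P ((Fin.cons c I : Fin (r + 1) → ι) k)
        ((Fin.cons e J : Fin (r + 1) → ι) l))) := by
      intro e c
      rw [← h.rk]
      ring
    simp only [f5]
    simp only [← Finset.mul_sum, f1]
    rw [f2, f3, f4]
  · -- the norm
    have e0 : ∀ I : Fin (r + 1) → ι, o I = ∑ k, y (I k) * ∑ e, y e * o (update I k e) := by
      intro I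
      calc o I = (∑ e, y e * y e) * o I := by rw [hy.un, one_mul]
        _ = ∑ e, y e * (y e * o I) := by
            rw [Finset.sum_mul]
            exact Finset.sum_congr rfl fun e _ => mul_assoc _ _ _
        _ = ∑ e, ∑ k, y (I k) * (y e * o (update I k e)) := by
            refine Finset.sum_congr rfl fun e _ => ?_
            rw [h.sch y hy.pr, Finset.mul_sum]
            exact Finset.sum_congr rfl fun k _ => by ring
        _ = _ := by
            rw [Finset.sum_comm]
            exact Finset.sum_congr rfl fun k _ => (Finset.mul_sum _ _ _).symm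
    have e1 : ((r + 1).factorial : A) = ∑ k : Fin (r + 1), ∑ I : Fin (r + 1) → ι,
        o I * (y (I k) * ∑ e, y e * o (update I k e)) := by
      rw [← h.nrm, Finset.sum_comm]
      refine Finset.sum_congr rfl fun I _ => ?_
      rw [← Finset.mul_sum, ← e0 I]
    have e2 : ∑ I : Fin (r + 1) → ι, o I * (y (I 0) * ∑ e, y e * o (update I 0 e)) =
        ∑ I : Fin r → ι, redo o y I * redo o y I := by
      rw [Fintype.sum_equiv (Fin.consEquiv fun _ : Fin (r + 1) => ι).symm
        (fun I : Fin (r + 1) → ι => o I * (y (I 0) * ∑ e, y e * o (update I 0 e)))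
        (fun z => o (Fin.cons z.1 z.2) * (y z.1 * redo o y z.2)) fun I => ?_, Fintype.sum_prod_type, Finset.sum_comm]
      · refine Finset.sum_congr rfl fun I _ => ?_
        rw [redo, Finset.sum_mul]
        exact Finset.sum_congr rfl fun c _ => by
          unfold redo
          ring
      · have g1 : (Fin.cons (I 0) (Fin.tail I) : Fin (r + 1) → ι) = I := Fin.cons_self_tail I
        change o I * (y (I 0) * ∑ e, y e * o (update I 0 e)) =
          o (Fin.cons (I 0) (Fin.tail I)) * (y (I 0) * redo o y (Fin.tail I))
        rw [g1]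
        unfold redo
        congr 2
        refine Finset.sum_congr rfl fun e _ => ?_
        conv_lhs => rw [← g1, Fin.update_cons_zero]
    have e3 : ∀ k : Fin (r + 1), ∑ I : Fin (r + 1) → ι, o I * (y (I k) * ∑ e, y e * o (update I k e)) =
        ∑ I : Fin (r + 1) → ι, o I * (y (I 0) * ∑ e, y e * o (update I 0 e)) := by
      intro k
      rw [sum_perm (Equiv.swap 0 k)]
      refine Finset.sum_congr rfl fun I _ => ?_
      have g1 : (I ∘ Equiv.swap 0 k) k = I 0 := by rw [Function.comp_apply, Equiv.swap_apply_right]
      have g2 : ∀ e, update (I ∘ Equiv.swap 0 k) k e = (update I 0 e) ∘ Equiv.swap 0 k := by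
        intro e
        funext j
        by_cases hj : j = k
        · subst hj
          rw [update_self, Function.comp_apply, Equiv.swap_apply_right, update_self]
        · rw [update_of_ne hj, Function.comp_apply, Function.comp_apply, update_of_ne]
          intro h0
          have h1 := (Equiv.swap (0 : Fin (r + 1)) k).injective (h0.trans (Equiv.swap_apply_right 0 k).symm)
          exact hj h1
      rw [g1]
      simp only [g2]
      rw [h.alt]
      have g3 : ∀ e, y e * o (update I 0 e ∘ Equiv.swap 0 k) =
          ((Equiv.Perm.sign (Equiv.swap (0 : Fin (r + 1)) k) : ℤ) : A) * (y e * o (update I 0 e)) := fun e => by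
        rw [h.alt]
        ring
      simp only [g3]
      rw [← Finset.mul_sum]
      have g4 : (((Equiv.Perm.sign (Equiv.swap (0 : Fin (r + 1)) k) : ℤ) : A)) *
          (((Equiv.Perm.sign (Equiv.swap (0 : Fin (r + 1)) k) : ℤ) : A)) = 1 := sign_mul_self' _
      linear_combination (o I * (y (I 0) * ∑ e, y e * o (update I 0 e))) * g4
    simp only [e3] at e1
    rw [e2, Finset.sum_const, Finset.card_univ, Fintype.card_fin, nsmul_eq_mul, Nat.factorial_succ, Nat.cast_mul] at e1
    exact (nat_cancel r e1).symm
  · intro I k l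
    have g1 : ∀ i c, (Fin.cons c (update I k i) : Fin (r + 1) → ι) = update (Fin.cons c I : Fin (r + 1) → ι) k.succ i :=
      fun i c => Fin.cons_update _ _ _ _
    unfold redo redP
    simp only [g1]
    obtain ⟨S, hS⟩ : ∃ S, S = ∑ i, ∑ c, y i * (y c * o (update (Fin.cons c I : Fin (r + 1) → ι) k.succ i)) := ⟨_, rfl⟩
    have hS0 : S = 0 := by
      refine two_zero ?_
      rw [hS, ← Finset.sum_neg_distrib]
      conv_lhs => rw [Finset.sum_comm]
      refine Finset.sum_congr rfl fun i _ => ?_
      rw [← Finset.sum_neg_distrib]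
      refine Finset.sum_congr rfl fun c _ => ?_
      rw [swap0 h k c i I]
      ring
    have e1 : ∑ i, (P l i - y l * y i) * ∑ c, y c * o (update (Fin.cons c I : Fin (r + 1) → ι) k.succ i) =
        (∑ i, ∑ c, y c * (P l i * o (update (Fin.cons c I : Fin (r + 1) → ι) k.succ i))) - y l * S := by
      rw [hS, Finset.mul_sum, ← Finset.sum_sub_distrib]
      refine Finset.sum_congr rfl fun i _ => ?_
      rw [Finset.mul_sum, Finset.mul_sum, ← Finset.sum_sub_distrib]
      exact Finset.sum_congr rfl fun c _ => by ring
    rw [e1, hS0, mul_zero, sub_zero, Finset.sum_comm]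
    refine Finset.sum_congr rfl fun c _ => ?_
    rw [← Finset.mul_sum, h.inv]
  · intro z hz I e
    have hz' : ∀ i, ∑ j, (P i j - y i * y j) * z j = z i := fun i => congrFun hz i
    have hyz : ∑ i, y i * z i = 0 := by
      have e1 : ∑ i, y i * z i = ∑ i, ∑ j, (y i * P i j * z j - y i * y i * (y j * z j)) := by
        refine Finset.sum_congr rfl fun i _ => ?_
        conv_lhs => rw [← hz' i]
        rw [Finset.mul_sum]
        exact Finset.sum_congr rfl fun j _ => by ring
      have e2 : ∑ i, ∑ j, (y i * P i j * z j - y i * y i * (y j * z j)) = 0 := by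
        rw [Finset.sum_comm]
        refine Finset.sum_eq_zero fun j _ => ?_
        rw [Finset.sum_sub_distrib, ← Finset.sum_mul, hrow, ← Finset.sum_mul, hy.un]
        ring
      rw [e1, e2]
    have hPz : P.mulVec z = z := by
      funext i
      rw [Matrix.mulVec, dotProduct, ← hz' i]
      have e1 : ∀ j, (P i j - y i * y j) * z j = P i j * z j - y i * (y j * z j) := fun j => by ring
      simp only [e1]
      rw [Finset.sum_sub_distrib, ← Finset.mul_sum, hyz, mul_zero, sub_zero]
    unfold redo
    rw [Finset.mul_sum]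
    have e1 : ∀ c, z e * (y c * o (Fin.cons c I)) = y c * z c * o (Fin.cons e I) +
        ∑ k, z (I k) * (y c * o (Fin.cons c (update I k e))) := by
      intro c
      have e2 : z e * o (Fin.cons c I) = z c * o (Fin.cons e I) + ∑ k, z (I k) * o (Fin.cons c (update I k e)) := by
        rw [h.sch z hPz, Fin.sum_univ_succ, Fin.update_cons_zero]
        congr 1
        refine Finset.sum_congr rfl fun k _ => ?_
        rw [Fin.cons_succ, Fin.cons_update]
      have e3 : ∑ k, z (I k) * (y c * o (Fin.cons c (update I k e))) =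
          y c * ∑ k, z (I k) * o (Fin.cons c (update I k e)) := by
        rw [Finset.mul_sum]
        exact Finset.sum_congr rfl fun k _ => by ring
      rw [e3]
      linear_combination (y c) * e2
    simp only [e1]
    rw [Finset.sum_add_distrib, ← Finset.sum_mul, hyz, zero_mul, zero_add, Finset.sum_comm]
    exact Finset.sum_congr rfl fun k _ => (Finset.mul_sum _ _ _).symm

end Pool.Agent.Lib.MP_ccbbf6_gt.L5
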