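import Pool.Agent.Lib.MP_ccbbf6_gt.L5.EU7
import Pool.Agent.Lib.MP_ccbbf6_gt.L5.EU8

/-!
# Level 5, EU9: the Euler form of the complement of a unit section in an oriented bundle of rank three (helper13)

* `gauss` : curvature of the complement;
* `f3`, `f3_eq` : the form `f = (St(y R) + St(y Dy Dy)) / 4 pi`, closed, even, odd in `y`;
* `hF_sq` : `f^2 = p_1` in cohomology.
-/

set_option autoImplicit false
set_option maxSynthPendingDepth 3
set_option linter.unusedSectionVars false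

open Matrix Function

noncomputable section

namespace Pool.Agent.Lib.MP_ccbbf6_gt.L5

variable {ι κ : Type*} [Fintype ι] [DecidableEq ι] [Fintype κ] [DecidableEq κ] {r : ℕ}

variable {A A' : Type*} [CommRing A] [Algebra ℝ A] [CommRing A'] [Algebra ℝ A'] {B B' : Type*} [Ring B] [Algebra ℝ B]
  [Ring B'] [Algebra ℝ B'] {G : GDA B} {G' : GDA B'} {φ : Fun0 A G} {φ' : Fun0 A' G'}

variable {P : Matrix ι ι A} {y : ι → A}

theorem redP_map : (redP P y).map φ.f = P.map φ.f - uc φ y * (uc φ y)ᵀ := by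
  ext i j
  rw [Matrix.sub_apply, Matrix.mul_apply, Matrix.map_apply]
  unfold redP uc
  rw [map_sub, map_mul]
  simp

theorem P_uc (h : P.mulVec y = y) : P.map φ.f * uc φ y = uc φ y := by
  ext l u
  exact congrFun (pv_uv (φ := φ) h) l

theorem uc_P (hs : Pᵀ = P) (h : P.mulVec y = y) : (uc φ y)ᵀ * P.map φ.f = (uc φ y)ᵀ := by
  have h1 := congrArg Matrix.transpose (P_uc (φ := φ) h)
  rw [GDA.transpose_ev (G := G) (φ.Ev P), ← Matrix.transpose_map, hs] at h1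
  exact h1

theorem uc_uc (h : ∑ e, y e * y e = 1) : (uc φ y)ᵀ * uc φ y = 1 := by
  ext a b
  rw [Matrix.mul_apply]
  have h1 : φ.f (∑ e, y e * y e) = 1 := by rw [h, map_one]
  rw [map_sum] at h1
  have h2 : (1 : Matrix Unit Unit B) a b = 1 := by
    rw [Subsingleton.elim a b, Matrix.one_apply_eq]
  rw [h2, ← h1]
  exact Finset.sum_congr rfl fun m _ => by rw [map_mul]; rfl

theorem ev_uc : G.Ev (uc φ y) := by
  unfold GDA.Ev
  ext i j
  exact φ.ev _

theorem ev_ucT : G.Ev (uc φ y)ᵀ := by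
  unfold GDA.Ev
  ext i j
  exact φ.ev _

theorem uc_Duc (h : ∑ e, y e * y e = 1) : (uc φ y)ᵀ * G.D (uc φ y) = 0 := by
  have e1 : G.d (φ.f (∑ m, y m * y m)) = 0 := by rw [h, map_one, GDA.d_one]
  rw [map_sum, map_sum] at e1
  have h5 : ∀ m, G.d (φ.f (y m * y m)) = (2 : ℝ) • (φ.f (y m) * G.d (φ.f (y m))) := by
    intro m
    rw [map_mul, G.d_mul, φ.ev, ← φ.comm, two_smul]
  simp only [h5] at e1
  rw [← Finset.smul_sum] at e1
  have h6 := congrArg (fun z => (1 / 2 : ℝ) • z) e1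
  simp only [smul_smul] at h6
  norm_num at h6
  ext a b
  rw [Matrix.mul_apply]
  exact h6

/-- the Gauss equation -/
theorem gauss_mat (hP : P * P = P) (hs : Pᵀ = P) (hy : Sec P y) :
    Rv φ (redP P y) = (redP P y).map φ.f * Rv φ P * (redP P y).map φ.f +
      P.map φ.f * G.D (uc φ y) * (P.map φ.f * G.D (uc φ y))ᵀ := by
  obtain ⟨Y, hY⟩ : ∃ Y, Y = uc φ y := ⟨_, rfl⟩
  obtain ⟨Q, hQ⟩ : ∃ Q, Q = P.map φ.f := ⟨_, rfl⟩
  obtain ⟨W, hW⟩ : ∃ W, W = (redP P y).map φ.f := ⟨_, rfl⟩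
  have hI : G.Idem Q := by rw [hQ]; exact φ.idem hP
  have eY : G.Ev Y := by rw [hY]; exact ev_uc
  have eYt : G.Ev Yᵀ := by rw [hY]; exact ev_ucT
  have h1 : W = Q - Y * Yᵀ := by rw [hW, hQ, hY]; exact redP_map
  have h2 : Q * Y = Y := by rw [hQ, hY]; exact P_uc hy.pr
  have h3 : Yᵀ * Q = Yᵀ := by rw [hQ, hY]; exact uc_P hs hy.pr
  have h4 : Yᵀ * Y = 1 := by rw [hY]; exact uc_uc hy.un
  have h5 : Yᵀ * G.D Y = 0 := by rw [hY]; exact uc_Duc hy.un
  have h6 : G.D Yᵀ * Y = 0 := by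
    have e1 := congrArg G.D h4
    rw [GDA.D_mul, GDA.D_one, eYt, h5, add_zero] at e1
    exact e1
  have w1 : W * Y = 0 := by rw [h1, Matrix.sub_mul, h2, Matrix.mul_assoc, h4, Matrix.mul_one, sub_self]
  have w2 : Yᵀ * W = 0 := by rw [h1, Matrix.mul_sub, h3, ← Matrix.mul_assoc, h4, Matrix.one_mul, sub_self]
  have w3 : W * Q = W := by rw [h1, Matrix.sub_mul, hI.idem, Matrix.mul_assoc, h3]
  have w4 : Q * W = W := by rw [h1, Matrix.mul_sub, hI.idem, ← Matrix.mul_assoc, h2]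
  have w5 : W * W = W := by
    nth_rewrite 1 [h1]
    rw [Matrix.sub_mul, w4, Matrix.mul_assoc, w2, Matrix.mul_zero, sub_zero]
  have hWev : G.Ev W := by rw [h1]; exact hI.ev.sub (eY.mul eYt)
  have hWI : G.Idem W := ⟨w5, hWev⟩
  have d1 : G.D W = G.D Q - (G.D Y * Yᵀ + Y * G.D Yᵀ) := by
    rw [h1, GDA.D_sub, GDA.D_mul, eY]
  have q1 : W * G.D Q * Y = 0 := by
    have e1 : G.D Q * Y = G.D Y - Q * G.D Y := by
      have e2 := congrArg G.D h2
      rw [GDA.D_mul, hI.ev] at e2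
      exact eq_sub_of_add_eq e2
    rw [Matrix.mul_assoc, e1, Matrix.mul_sub, ← Matrix.mul_assoc, w3, sub_self]
  have q2 : Yᵀ * G.D Q * W = 0 := by
    have e1 : Yᵀ * G.D Q = G.D Yᵀ - G.D Yᵀ * Q := by
      have e2 := congrArg G.D h3
      rw [GDA.D_mul, eYt] at e2
      rw [← e2, Matrix.add_mul]
      have e3 : Yᵀ * G.D Q * Q = 0 := by
        have e4 : Yᵀ * G.D Q * Q = Yᵀ * (Q * G.D Q * Q) := by
          rw [← Matrix.mul_assoc, ← Matrix.mul_assoc, h3]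
        rw [e4, hI.pdp, Matrix.mul_zero]
      rw [e3, add_zero, Matrix.mul_assoc, hI.idem, add_sub_cancel_left]
    rw [e1, Matrix.sub_mul, Matrix.mul_assoc, w4, sub_self]
  have l1 : W * G.D W = W * (G.D Q - G.D Y * Yᵀ) := by
    rw [d1, Matrix.mul_sub, Matrix.mul_add, ← Matrix.mul_assoc W Y, w1, Matrix.zero_mul, add_zero, ← Matrix.mul_sub]
  have l2 : G.D W * W = (G.D Q - Y * G.D Yᵀ) * W := by
    rw [d1, Matrix.sub_mul, Matrix.add_mul, Matrix.mul_assoc (G.D Y), w2, Matrix.mul_zero, zero_add, ← Matrix.sub_mul]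
  have l3 : W * (G.R W) = W * G.D W * (G.D W * W) := by
    have e1 : W * G.D W * (G.D W * W) = W * G.R W * W := by
      unfold GDA.R
      simp only [Matrix.mul_assoc]
    rw [e1, Matrix.mul_assoc, ← hWI.comm, ← Matrix.mul_assoc, w5]
  have l4 : W * (G.D Q - G.D Y * Yᵀ) * ((G.D Q - Y * G.D Yᵀ) * W) =
      W * (Q * G.R Q) * W + W * G.D Y * (G.D Yᵀ * W) := by
    have a1 : W * (G.D Q - G.D Y * Yᵀ) = W * G.D Q - W * G.D Y * Yᵀ := by
      rw [Matrix.mul_sub, Matrix.mul_assoc W (G.D Y)]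
    have a2 : (G.D Q - Y * G.D Yᵀ) * W = G.D Q * W - Y * (G.D Yᵀ * W) := by
      rw [Matrix.sub_mul, Matrix.mul_assoc Y]
    rw [a1, a2, Matrix.sub_mul, Matrix.mul_sub, Matrix.mul_sub]
    have b1 : W * G.D Q * (Y * (G.D Yᵀ * W)) = 0 := by rw [← Matrix.mul_assoc, q1, Matrix.zero_mul]
    have b2 : W * G.D Y * Yᵀ * (G.D Q * W) = 0 := by
      rw [Matrix.mul_assoc (W * G.D Y), ← Matrix.mul_assoc Yᵀ, q2, Matrix.mul_zero]
    have b3 : W * G.D Y * Yᵀ * (Y * (G.D Yᵀ * W)) = W * G.D Y * (G.D Yᵀ * W) := by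
      rw [Matrix.mul_assoc (W * G.D Y), ← Matrix.mul_assoc Yᵀ, h4, Matrix.one_mul]
    have b4 : W * G.D Q * (G.D Q * W) = W * (Q * G.R Q) * W := by
      rw [← Matrix.mul_assoc W Q, w3]
      unfold GDA.R
      simp only [Matrix.mul_assoc]
    rw [b1, b2, b3, b4, sub_zero, zero_sub, sub_neg_eq_add]
  have l5 : W * G.D Y = Q * G.D Y := by
    rw [h1, Matrix.sub_mul, Matrix.mul_assoc Y, h5, Matrix.mul_zero, sub_zero]
  have l6 : G.D Yᵀ * W = (Q * G.D Y)ᵀ := by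
    have e1 : (Q * G.D Y)ᵀ = (G.D Y)ᵀ * Qᵀ := GDA.transpose_ev hI.ev
    have e2 : Qᵀ = Q := by rw [hQ, ← Matrix.transpose_map, hs]
    have e3 : (G.D Y)ᵀ = G.D Yᵀ := rfl
    rw [e1, e2, e3, h1, Matrix.mul_sub, ← Matrix.mul_assoc, h6, Matrix.zero_mul, sub_zero]
  unfold Rv
  rw [← hW, ← hQ, ← hY, l3, l1, l2, l4, l5, l6]

theorem gauss (hP : P * P = P) (hs : Pᵀ = P) (hy : Sec P y) (i j : ι) :
    Rv φ (redP P y) i j = ((redP P y).map φ.f * Rv φ P * (redP P y).map φ.f) i j + Dv φ P y i * Dv φ P y j := by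
  rw [gauss_mat hP hs hy, Matrix.add_apply]
  congr 1
  rw [Matrix.mul_apply]
  simp only [Finset.univ_unique, Finset.sum_singleton]
  rfl

/-- contraction with the orientation of the complement -/
theorem St_redo {o : (Fin (r + 1) → ι) → A} (T : (Fin r → ι) → B) :
    St φ (redo o y) T = St φ o (fun K => φ.f (y (K 0)) * T (Fin.tail K)) := by
  unfold St redo
  rw [Fintype.sum_equiv (Fin.consEquiv fun _ : Fin (r + 1) => ι).symm
    (fun K : Fin (r + 1) → ι => φ.f (o K) * (φ.f (y (K 0)) * T (Fin.tail K)))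
    (fun z => φ.f (o (Fin.cons z.1 z.2)) * (φ.f (y z.1) * T z.2)) fun K => ?_, Fintype.sum_prod_type, Finset.sum_comm]
  · refine Finset.sum_congr rfl fun I _ => ?_
    rw [map_sum, Finset.sum_mul]
    refine Finset.sum_congr rfl fun c _ => ?_
    rw [map_mul, ← mul_assoc, φ.comm (y c)]
  · have g1 : (Fin.cons (K 0) (Fin.tail K) : Fin (r + 1) → ι) = K := Fin.cons_self_tail K
    change φ.f (o K) * (φ.f (y (K 0)) * T (Fin.tail K)) =
      φ.f (o (Fin.cons (K 0) (Fin.tail K))) * (φ.f (y (K 0)) * T (Fin.tail K))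
    rw [g1]

/-- a contraction does not see the projections of a matrix -/
theorem St_proj2 {o : (Fin 2 → ι) → A} (h : Or 2 P o) (M : Matrix ι ι B) :
    St φ o (fun I => (P.map φ.f * M * P.map φ.f) (I 0) (I 1)) = St φ o (fun I => M (I 0) (I 1)) := by
  have h1 : St φ o (fun I => M (I 0) (I 1)) = St φ o (fun I => ∑ m, φ.f (P (I 0) m) * M m (I 1)) :=
    St_pr h 0 fun I => M2_0 (M := M) _ I
  have h2 : St φ o (fun I => ∑ m, φ.f (P (I 0) m) * M m (I 1)) =
      St φ o (fun I => (P.map φ.f * M * P.map φ.f) (I 0) (I 1)) := by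
    refine St_pr h 1 fun I => ?_
    have h3 := M2_1 (φ := φ) (M := fun i j => ∑ m, φ.f (P i m) * M m j) (fun m => P (I 1) m) I
    rw [h3, Matrix.mul_apply]
    refine Finset.sum_congr rfl fun m _ => ?_
    rw [φ.comm, Matrix.mul_apply]
    congr 1
    exact congrArg φ.f (congrFun (congrFun h.sym m) (I 1))
  rw [h1, h2]

/-- the form `f` -/
def f3 (φ : Fun0 A G) (P : Matrix ι ι A) (o : (Fin 3 → ι) → A) (y : ι → A) : B := eu2 φ (redP P y) (redo o y)

/-- explicit formula -/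
theorem f3_eq {o : (Fin 3 → ι) → A} (h : Or 3 P o) (hy : Sec P y) :
    f3 φ P o y = (1 / (4 * Real.pi)) • (St φ o (fun K => φ.f (y (K 0)) * Rv φ P (K 1) (K 2)) +
      St φ o (fun K => φ.f (y (K 0)) * (Dv φ P y (K 1) * Dv φ P y (K 2)))) := by
  unfold f3 eu2
  congr 1
  have e1 : St φ (redo o y) (fun I => Rv φ (redP P y) (I 0) (I 1)) =
      St φ (redo o y) (fun I => ((redP P y).map φ.f * Rv φ P * (redP P y).map φ.f) (I 0) (I 1) +
        Dv φ P y (I 0) * Dv φ P y (I 1)) := St_congr fun I => gauss h.idem h.sym hy _ _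
  rw [e1, St_add, St_proj2 (h.red hy), St_redo, St_redo]
  rfl

theorem d_f3 {o : (Fin 3 → ι) → A} (h : Or 3 P o) (hy : Sec P y) : G.d (f3 φ P o y) = 0 := d_eu2 (h.red hy)

theorem s_f3 {o : (Fin 3 → ι) → A} (h : Or 3 P o) (hy : Sec P y) : G.s (f3 φ P o y) = f3 φ P o y :=
  s_eu2 (h.red hy).idem

theorem redP_neg : redP P (-y) = redP P y := by
  ext i j
  unfold redP
  rw [Pi.neg_apply, Pi.neg_apply]
  ring

theorem redo_neg {o : (Fin (r + 1) → ι) → A} : redo o (-y) = fun I => -redo o y I := by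
  funext I
  unfold redo
  rw [← Finset.sum_neg_distrib]
  exact Finset.sum_congr rfl fun c _ => by rw [Pi.neg_apply]; ring

theorem Sec.neg (hy : Sec P y) : Sec P (-y) :=
  ⟨by rw [Matrix.mulVec_neg, hy.pr], by simp only [Pi.neg_apply, neg_mul_neg]; exact hy.un⟩

/-- `f` is odd -/
theorem f3_neg {o : (Fin 3 → ι) → A} : f3 φ P o (-y) = -f3 φ P o y := by
  unfold f3
  rw [redP_neg, redo_neg, eu2_op]

theorem redP_mapg (g : A →ₐ[ℝ] A') : (redP P y).map g = redP (P.map g) (fun l => g (y l)) := by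
  ext i j
  exact (map_sub g _ _).trans (congrArg _ (map_mul g _ _))

theorem redo_mapg (g : A →ₐ[ℝ] A') {o : (Fin (r + 1) → ι) → A} (I : Fin r → ι) :
    g (redo o y I) = redo (fun I => g (o I)) (fun l => g (y l)) I := by
  unfold redo
  rw [map_sum]
  exact Finset.sum_congr rfl fun c _ => map_mul _ _ _

theorem Sec.map (hy : Sec P y) (g : A →ₐ[ℝ] A') : Sec (P.map g) (fun l => g (y l)) := by
  constructor
  · funext l
    have h1 := congrArg g (congrFun hy.pr l)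
    rw [Matrix.mulVec, dotProduct, map_sum] at h1
    rw [← h1, Matrix.mulVec, dotProduct]
    exact Finset.sum_congr rfl fun j _ => by rw [map_mul]; rfl
  · have h1 := congrArg g hy.un
    rw [map_sum, map_one] at h1
    rw [← h1]
    exact Finset.sum_congr rfl fun j _ => (map_mul _ _ _).symm

/-- naturality -/
theorem FHom.f3 (F : FHom φ φ') {o : (Fin 3 → ι) → A} :
    F.h.f (L5.f3 φ P o y) = L5.f3 φ' (P.map F.g) (fun I => F.g (o I)) (fun l => F.g (y l)) := by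
  unfold L5.f3
  rw [F.eu2, redP_mapg]
  congr 1
  funext I
  exact redo_mapg F.g I

/-- the class of `f` -/
def hF (φ : Fun0 A G) {o : (Fin 3 → ι) → A} (h : Or 3 P o) (hy : Sec P y) : G.HE :=
  GDA.cl (f3 φ P o y) (s_f3 h hy) (d_f3 h hy)

/-- first Pontryagin class -/
def hp1 (φ : Fun0 A G) {P : Matrix ι ι A} (hP : P * P = P) : G.HE :=
  (-(1 / (8 * Real.pi ^ 2))) • GDA.hps (φ.idem hP) 2

theorem hE2_sq {o : (Fin 2 → ι) → A} (h : Or 2 P o) : hE2 φ h * hE2 φ h = hp1 φ h.idem := by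
  unfold hE2 hp1 GDA.hps
  rw [GDA.cl_mul, GDA.cl_smul]
  exact GDA.cl_congr (eu2_sq h) _ _

/-- removing a unit section does not change the power sums -/
theorem hps_red (C : Cyl G G') (hP : P * P = P) (hs : Pᵀ = P) (hy : Sec P y) (hR : redP P y * redP P y = redP P y)
    {j : ℕ} (hj : j ≠ 0) : GDA.hps (φ.idem hR) j = GDA.hps (φ.idem hP) j := by
  have h2 : P.map φ.f * uc φ y = uc φ y := P_uc hy.pr
  have h3 : (uc φ y)ᵀ * P.map φ.f = (uc φ y)ᵀ := uc_P hs hy.pr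
  have h4 : (uc φ y)ᵀ * uc φ y = 1 := uc_uc hy.un
  obtain ⟨Y, hY⟩ : ∃ Y, Y = uc φ y := ⟨_, rfl⟩
  rw [← hY] at h2 h3 h4
  have eY : G.Ev Y := by rw [hY]; exact ev_uc
  have eYt : G.Ev Yᵀ := by rw [hY]; exact ev_ucT
  have hL : G.Idem (Y * Yᵀ) := by
    refine ⟨?_, eY.mul eYt⟩
    rw [Matrix.mul_assoc, ← Matrix.mul_assoc Yᵀ, h4, Matrix.one_mul]
  have e0 : (redP P y).map φ.f = P.map φ.f - Y * Yᵀ := by rw [hY]; exact redP_map
  have z1 : (redP P y).map φ.f * (Y * Yᵀ) = 0 := by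
    rw [e0, Matrix.sub_mul, ← Matrix.mul_assoc, h2, hL.idem, sub_self]
  have z2 : Y * Yᵀ * (redP P y).map φ.f = 0 := by
    rw [e0, Matrix.mul_sub, Matrix.mul_assoc, h3, hL.idem, sub_self]
  have e1 : (redP P y).map φ.f + Y * Yᵀ = P.map φ.f := by rw [e0, sub_add_cancel]
  have hS : G.Idem ((redP P y).map φ.f + Y * Yᵀ) := by
    rw [e1]
    exact φ.idem hP
  have k1 := C.hps_add (φ.idem hR) hL hS z1 z2 j
  have k2 : GDA.hps hL j = GDA.hps (GDA.idem_one (G := G) (ι := Unit)) j :=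
    (C.hps_iso hL GDA.idem_one eY eYt rfl h4 j).symm
  have k3 : GDA.hps (GDA.idem_one (G := G) (ι := Unit)) j = 0 := by
    unfold GDA.hps
    rw [GDA.cl_eq_zero]
    exact ⟨0, by rw [GDA.ps_one hj, map_zero]⟩
  rw [k2, k3, add_zero] at k1
  rw [← k1]
  unfold GDA.hps
  exact GDA.cl_congr (by rw [e1]) _ _

/-- `f^2 = p_1` -/
theorem hF_sq (C : Cyl G G') {o : (Fin 3 → ι) → A} (h : Or 3 P o) (hy : Sec P y) :
    hF φ h hy * hF φ h hy = hp1 φ h.idem := by
  have h1 := hE2_sq (φ := φ) (h.red hy)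
  have h2 : hF φ h hy = hE2 φ (h.red hy) := rfl
  rw [h2, h1]
  unfold hp1
  rw [hps_red C h.idem h.sym hy (h.red hy).idem two_ne_zero]

end Pool.Agent.Lib.MP_ccbbf6_gt.L5
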