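import Pool.Agent.Lib.MP_ccbbf6_gt.L5.EG5
import Pool.Agent.Lib.MP_ccbbf6_gt.L5.EU9

/-!
# Level 5, EG6: bundles of odd rank `2 n + 1` with a unit section: the form `fG` (helper13)

`fG = (-1)^n eulG (complement of the section)`; integral over the sphere `- 2`; odd in the section; closed, even, natural.
-/

set_option autoImplicit false
set_option maxSynthPendingDepth 3
set_option linter.unusedSectionVars false

open Matrix Function

noncomputable section

namespace Pool.Agent.Lib.MP_ccbbf6_gt.L5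

variable {ι κ : Type*} [Fintype ι] [DecidableEq ι] [Fintype κ] [DecidableEq κ] {n : ℕ} {A A' : Type*} [CommRing A]
  [Algebra ℝ A] [CommRing A'] [Algebra ℝ A'] {B B' : Type*} [Ring B] [Algebra ℝ B] [Ring B'] [Algebra ℝ B'] {G : GDA B}
  {G' : GDA B'} {φ : Fun0 A G} {φ' : Fun0 A' G'}

variable {P : Matrix ι ι A} {o : (Fin (2 * n + 1) → ι) → A} {y : ι → A}

/-- the form `f` in rank `2 n + 1` -/
def fG (φ : Fun0 A G) (P : Matrix ι ι A) (o : (Fin (2 * n + 1) → ι) → A) (y : ι → A) : B :=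
  ((-1 : ℝ) ^ n) • eulG φ (redP P y) (redo o y)

theorem d_fG (h : Or (2 * n + 1) P o) (hy : Sec P y) : G.d (fG φ P o y) = 0 := by
  unfold fG
  rw [map_smul, d_eulG (h.red hy), smul_zero]

theorem s_fG : G.s (fG φ P o y) = fG φ P o y := by
  unfold fG
  rw [map_smul, s_eulG]

theorem fG_neg : fG φ P o (-y) = -fG φ P o y := by
  unfold fG
  rw [redP_neg, redo_neg, eulG_op, smul_neg]

theorem fG_op : fG φ P (fun I => -o I) y = -fG φ P o y := by
  unfold fG
  have h1 : redo (fun I => -o I) y = fun I => -redo o y I := by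
    funext I
    unfold redo
    rw [← Finset.sum_neg_distrib]
    exact Finset.sum_congr rfl fun c _ => mul_neg _ _
  rw [h1, eulG_op, smul_neg]

theorem FHom.fG (F : FHom φ φ') :
    F.h.f (L5.fG φ P o y) = L5.fG φ' (P.map F.g) (fun I => F.g (o I)) (fun l => F.g (y l)) := by
  unfold L5.fG
  rw [map_smul, F.eulG, redP_mapg]
  congr 2
  funext I
  exact redo_mapg F.g I

/-- the Pfaffian form of the complement -/
theorem ZG_red (h : Or (2 * n + 1) P o) (hy : Sec P y) :
    ZG φ (redP P y) (redo o y) = pfo (fun I => φ.e (redo o y I)) (Re φ P + DDe φ P y) := by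
  have hr := h.red hy
  have hr' : Or (2 * n) ((redP P y).map φ.e) (fun I => φ.e (redo o y I)) := hr.map' (φ.e : A →+* G.Ee)
  unfold ZG
  rw [← pfo_proj hr' (Re φ P + DDe φ P y)]
  congr 1
  have e0 : ∀ M : Matrix ι ι G.Ee, ((redP P y).map φ.e * M * (redP P y).map φ.e).map G.Ee.val =
      (redP P y).map φ.f * M.map G.Ee.val * (redP P y).map φ.f := fun M => by
    rw [GDA.val_mul, GDA.val_mul]
    rfl
  refine GDA.val_inj ?_
  rw [e0]
  change Rv φ (redP P y) = (redP P y).map φ.f * (Rv φ P + (DDe φ P y).map G.Ee.val) * (redP P y).map φ.f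
  rw [Matrix.mul_add, Matrix.add_mul, gauss_mat h.idem h.sym hy]
  congr 1
  -- `W Dy = Dy`
  obtain ⟨D, hD⟩ : ∃ D, D = P.map φ.f * G.D (uc φ y) := ⟨_, rfl⟩
  obtain ⟨W, hW⟩ : ∃ W, W = (redP P y).map φ.f := ⟨_, rfl⟩
  have d1 : W * D = D := by
    rw [hW, redP_map, Matrix.sub_mul]
    have e1 : P.map φ.f * D = D := by rw [hD, ← Matrix.mul_assoc, (φ.idem h.idem).idem]
    have e2 : (uc φ y)ᵀ * D = 0 := by
      rw [hD, ← Matrix.mul_assoc, uc_P h.sym hy.pr, uc_Duc hy.un]
    rw [e1, Matrix.mul_assoc, e2, Matrix.mul_zero, sub_zero]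
  have hWt : Wᵀ = W := by rw [hW, ← Matrix.transpose_map, hr.sym]
  have d2 : Dᵀ * W = Dᵀ := by
    have e1 : (W * D)ᵀ = Dᵀ * Wᵀ := GDA.transpose_ev (G := G) (by rw [hW]; exact φ.Ev _)
    rw [d1, hWt] at e1
    exact e1.symm
  have e2 : (DDe φ P y).map G.Ee.val = D * Dᵀ := by
    rw [hD]
    refine Matrix.ext fun i j => ?_
    rw [Matrix.mul_apply]
    simp only [Finset.univ_unique, Finset.sum_singleton]
    rfl
  rw [e2, ← hD, ← hW, ← Matrix.mul_assoc, d1, Matrix.mul_assoc, d2]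

/-- flat bundles -/
theorem fG_flat (h : Or (2 * n + 1) P o) (hy : Sec P y) (hR : ∀ i j, Rv φ P i j = 0) :
    fG φ P o y = ((-1) ^ (n + 1) / ((4 * Real.pi) ^ n * n.factorial) : ℝ) • St φ o (fun I => φ.f (y (I 0)) *
      (List.ofFn fun k : Fin (2 * n) => Dv φ P y (I k.succ)).prod) := by
  have hR' : Re φ P = 0 := Matrix.ext fun i j => Subtype.ext (hR i j)
  unfold fG eulG
  rw [ZG_red h hy, hR', zero_add, smul_smul]
  have e1 : ((pfo (fun I => φ.e (redo o y I)) (DDe φ P y) : G.Ee) : B) = St φ o (fun I => φ.f (y (I 0)) *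
      (List.ofFn fun k : Fin (2 * n) => Dv φ P y (I k.succ)).prod) := by
    have e2 : ((pfo (fun I => φ.e (redo o y I)) (DDe φ P y) : G.Ee) : B) = St φ (redo o y) (fun I =>
        (List.ofFn fun k : Fin (2 * n) => Dv φ P y (I k)).prod) := by
      unfold pfo St
      rw [val_sum]
      refine Finset.sum_congr rfl fun I _ => ?_
      have e3 := prod_list (G := G) n (fun k => Dv φ P y (I k)) (fun a => DDe φ P y (I (s0 a)) (I (s1 a))) fun a => rfl
      exact congrArg (fun z => φ.f (redo o y I) * z) e3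
    rw [e2, St_redo]
    rfl
  rw [e1]
  congr 1
  rw [pow_succ]
  ring

/-- the class of `f` -/
def hFG (φ : Fun0 A G) {P : Matrix ι ι A} {o : (Fin (2 * n + 1) → ι) → A} {y : ι → A} (h : Or (2 * n + 1) P o)
    (hy : Sec P y) : G.HE := GDA.cl (fG φ P o y) s_fG (d_fG h hy)

theorem hFG_eq (h : Or (2 * n + 1) P o) (hy : Sec P y) : hFG φ h hy = ((-1 : ℝ) ^ n) • hEG φ (h.red hy) := rfl

end Pool.Agent.Lib.MP_ccbbf6_gt.L5
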