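import Pool.Agent.Lib.MP_ccbbf6_gt.L5.EL2

/-!
# Level 5, EL3: orthonormal frames over a commutative ring, multiplicativity of the Euler class (helper13)

* `Or.of_frame` : frame => orientation tensor, over every commutative ring;
* `hE_split` : `e(P + Q) = - e(P) e(Q)` for planes;
* `hps_or2` : `hps P (2 j) = 2 (-4 pi^2)^j e^(2j)`.
-/

set_option autoImplicit false
set_option maxSynthPendingDepth 3
set_option linter.unusedSectionVars false

open Matrix Function

noncomputable section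

namespace Pool.Agent.Lib.MP_ccbbf6_gt.L5

variable {ι : Type*} [Fintype ι] [DecidableEq ι] {r : ℕ}

section frame

variable {A : Type*} [CommRing A] {P : Matrix ι ι A} {o : (Fin r → ι) → A} {a : Fin r → ι → A}

theorem frame_nrmA (ha : ∀ i j, ∑ l, a i l * a j l = if i = j then 1 else 0) :
    ∑ I : Fin r → ι, det (Matrix.of fun j k => a j (I k)) * det (Matrix.of fun j k => a j (I k)) = (r.factorial : A) := by
  have h1 : ∀ σ τ : Equiv.Perm (Fin r), ∑ I : Fin r → ι, (∏ k, a (σ k) (I k)) * (∏ k, a (τ k) (I k)) =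
      if σ = τ then 1 else 0 := by
    intro σ τ
    have h2 : ∀ I : Fin r → ι, (∏ k, a (σ k) (I k)) * (∏ k, a (τ k) (I k)) = ∏ k, a (σ k) (I k) * a (τ k) (I k) :=
      fun I => Finset.prod_mul_distrib.symm
    simp only [h2]
    rw [← Fintype.prod_sum (fun (k : Fin r) (l : ι) => a (σ k) l * a (τ k) l)]
    simp only [ha]
    by_cases h : σ = τ
    · subst h
      simp
    · rw [if_neg h]
      obtain ⟨k, hk⟩ : ∃ k, σ k ≠ τ k := by
        by_contra hh
        push Not at hh
        exact h (Equiv.ext hh)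
      exact Finset.prod_eq_zero (Finset.mem_univ k) (if_neg hk)
  have h3 : ∀ I : Fin r → ι, det (Matrix.of fun j k => a j (I k)) * det (Matrix.of fun j k => a j (I k)) =
      ∑ σ : Equiv.Perm (Fin r), ∑ τ : Equiv.Perm (Fin r), ((Equiv.Perm.sign σ : ℤ) : A) * ((Equiv.Perm.sign τ : ℤ) : A) *
        ((∏ k, a (σ k) (I k)) * (∏ k, a (τ k) (I k))) := by
    intro I
    rw [Matrix.det_apply', Finset.sum_mul_sum]
    refine Finset.sum_congr rfl fun σ _ => Finset.sum_congr rfl fun τ _ => ?_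
    simp only [Matrix.of_apply]
    ring
  simp only [h3]
  rw [Finset.sum_comm]
  have h4 : ∀ σ : Equiv.Perm (Fin r), ∑ I : Fin r → ι, ∑ τ : Equiv.Perm (Fin r),
      ((Equiv.Perm.sign σ : ℤ) : A) * ((Equiv.Perm.sign τ : ℤ) : A) * ((∏ k, a (σ k) (I k)) * (∏ k, a (τ k) (I k))) = 1 := by
    intro σ
    rw [Finset.sum_comm]
    simp only [← Finset.mul_sum, h1, mul_ite, mul_one, mul_zero]
    rw [Finset.sum_ite_eq]
    rw [if_pos (Finset.mem_univ _), ← Int.cast_mul, Int.units_coe_mul_self, Int.cast_one]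
  simp only [h4]
  rw [Finset.sum_const, Finset.card_univ, Fintype.card_perm, Fintype.card_fin, nsmul_eq_mul, mul_one]

theorem upd_colA (a : Fin r → ι → A) (I : Fin r → ι) (k : Fin r) (i : ι) :
    (Matrix.of fun j l => a j (update I k i l)) = (Matrix.of fun j l => a j (I l)).updateCol k (fun j => a j i) := by
  ext j l
  rw [Matrix.updateCol_apply]
  by_cases h : l = k
  · subst h
    simp
  · simp [h]

/-- an orthonormal frame gives an orientation tensor, over every commutative ring -/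
theorem Or.of_frame (ha : ∀ i j, ∑ l, a i l * a j l = if i = j then 1 else 0) (hP : ∀ l m, P l m = ∑ j, a j l * a j m)
    (ho : ∀ I, o I = det (Matrix.of fun j k => a j (I k))) : Or r P o := by
  have hPa : ∀ j l, ∑ m, P l m * a j m = a j l := by
    intro j l
    simp only [hP, Finset.sum_mul]
    rw [Finset.sum_comm]
    have e1 : ∀ i, ∑ m, a i l * a i m * a j m = a i l * (if i = j then 1 else 0) := by
      intro i
      rw [← ha, Finset.mul_sum]
      exact Finset.sum_congr rfl fun m _ => mul_assoc _ _ _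
    simp only [e1, mul_ite, mul_one, mul_zero]
    rw [Finset.sum_ite_eq', if_pos (Finset.mem_univ _)]
  constructor
  · ext l m
    rw [Matrix.transpose_apply, hP, hP]
    exact Finset.sum_congr rfl fun j _ => mul_comm _ _
  · ext l m
    rw [Matrix.mul_apply]
    have e1 : ∀ i, P l i * P i m = ∑ j, P l i * a j i * a j m := by
      intro i
      rw [hP i m, Finset.mul_sum]
      exact Finset.sum_congr rfl fun j _ => by ring
    simp only [e1]
    rw [Finset.sum_comm, hP l m]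
    refine Finset.sum_congr rfl fun j _ => ?_
    rw [← Finset.sum_mul, hPa]
  · unfold trace
    simp only [Matrix.diag_apply, hP]
    rw [Finset.sum_comm]
    simp only [ha, if_true]
    simp
  · intro σ I
    rw [ho, ho, ← Matrix.det_permute' σ]
    rfl
  · intro I J
    rw [ho, ho]
    have e1 : (Matrix.of fun k l => P (I k) (J l)) =
        (Matrix.of fun j k => a j (I k))ᵀ * (Matrix.of fun j k => a j (J k)) := by
      ext k l
      rw [Matrix.mul_apply]
      simp only [Matrix.of_apply, Matrix.transpose_apply, hP]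
    rw [e1, Matrix.det_mul, Matrix.det_transpose]
  · simp only [ho]
    exact frame_nrmA ha
  · intro I k l
    simp only [ho, upd_colA]
    obtain ⟨M, hM⟩ : ∃ M : Matrix (Fin r) (Fin r) A, M = Matrix.of fun j l => a j (I l) := ⟨_, rfl⟩
    rw [← hM]
    simp only [← Matrix.cramer_apply]
    have e1 : (fun j => a j l) = ∑ i, P l i • (fun j => a j i) := by
      ext j
      rw [Finset.sum_apply]
      simp only [Pi.smul_apply, smul_eq_mul]
      rw [hPa]
    rw [e1, map_sum, Finset.sum_apply]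
    exact Finset.sum_congr rfl fun i _ => by rw [map_smul]; rfl
  · intro y hy I e
    simp only [ho, upd_colA]
    obtain ⟨M, hM⟩ : ∃ M : Matrix (Fin r) (Fin r) A, M = Matrix.of fun j l => a j (I l) := ⟨_, rfl⟩
    rw [← hM]
    simp only [← Matrix.cramer_apply]
    obtain ⟨c, hc⟩ : ∃ c : Fin r → A, c = fun j => ∑ m, a j m * y m := ⟨_, rfl⟩
    have hy2 : ∀ l, y l = ∑ j, c j * a j l := by
      intro l
      have h1 := congrFun hy l
      rw [← h1, Matrix.mulVec, dotProduct]
      simp only [hP, Finset.sum_mul]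
      rw [Finset.sum_comm]
      refine Finset.sum_congr rfl fun j _ => ?_
      rw [hc]
      simp only
      rw [Finset.sum_mul]
      exact Finset.sum_congr rfl fun m _ => by ring
    have h2 := Matrix.mulVec_cramer M (fun j => a j e)
    have h3 : ∀ k, y (I k) = ∑ j, c j * M j k := by
      intro k
      rw [hy2, hM]
      rfl
    simp only [h3, Finset.sum_mul]
    rw [Finset.sum_comm, hy2 e, Finset.sum_mul]
    refine Finset.sum_congr rfl fun j _ => ?_
    have h4 := congrFun h2 j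
    rw [Matrix.mulVec, dotProduct, Pi.smul_apply, smul_eq_mul] at h4
    have h5 : ∑ k, c j * M j k * (M.cramer fun j => a j e) k = c j * ∑ k, M j k * (M.cramer fun j => a j e) k := by
      rw [Finset.mul_sum]
      exact Finset.sum_congr rfl fun k _ => mul_assoc _ _ _
    rw [h5, h4]
    ring

end frame

variable {A A' : Type*} [CommRing A] [Algebra ℝ A] [CommRing A'] [Algebra ℝ A'] {B B' : Type*} [Ring B] [Algebra ℝ B]
  [Ring B'] [Algebra ℝ B'] {G : GDA B} {G' : GDA B'} {φ : Fun0 A G} {φ' : Fun0 A' G'}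

variable {P Q : Matrix ι ι A} {o o' : (Fin 2 → ι) → A} {oV : (Fin 4 → ι) → A}

/-- power sums of an oriented plane -/
theorem hR_or2 (C : Cyl G G') (h : Or 2 P o) (j : ℕ) : hR φ h.idem j = (2 : ℝ) • hE2 φ h ^ (2 * j) := by
  refine rc_inj ?_
  rw [← hT_even h.idem, hT_two C h, Even.neg_pow (even_two_mul j), map_smul, map_pow, two_smul]

theorem hps_or2 (C : Cyl G G') (h : Or 2 P o) (j : ℕ) :
    GDA.hps (φ.idem h.idem) (2 * j) = (2 * (-(4 * Real.pi ^ 2)) ^ j) • hE2 φ h ^ (2 * j) := by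
  have h1 := hR_or2 (φ := φ) C h j
  unfold hR at h1
  have h2 := congrArg (fun z => ((-1) ^ j * (2 * Real.pi) ^ (2 * j) : ℝ) • z) h1
  simp only [smul_smul] at h2
  have hp : (2 * Real.pi) ≠ 0 := mul_ne_zero two_ne_zero Real.pi_ne_zero
  have e1 : ((-1) ^ j * (2 * Real.pi) ^ (2 * j) * ((-1) ^ j * (1 / (2 * Real.pi)) ^ (2 * j)) : ℝ) = 1 := by
    have e2 : ((-1 : ℝ) ^ j) * (-1) ^ j = 1 := by rw [← mul_pow]; norm_num
    have e3 : (2 * Real.pi) ^ (2 * j) * (1 / (2 * Real.pi)) ^ (2 * j) = 1 := by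
      rw [← mul_pow, mul_one_div_cancel hp, one_pow]
    linear_combination e3 + ((2 * Real.pi) ^ (2 * j) * (1 / (2 * Real.pi)) ^ (2 * j)) * e2
  rw [e1, one_smul] at h2
  rw [h2]
  congr 1
  have e4 : (2 * Real.pi) ^ (2 * j) = (4 * Real.pi ^ 2) ^ j := by
    rw [pow_mul]
    congr 1
    ring
  rw [e4, neg_pow (4 * Real.pi ^ 2)]
  ring

/-- an antisymmetric matrix in an oriented plane -/
theorem M_or2 (h : Or 2 P o) {M : Matrix ι ι B} (hM : MInv φ P M) (ha : ∀ i j, M j i = -M i j) (i j : ι) :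
    M i j = (1 / 2 : ℝ) • (St φ o (fun I => M (I 0) (I 1)) * φ.f (o ![i, j])) := by
  have h1 : St φ o (fun I => M (I 0) (I 1)) * φ.f (o ![i, j]) = M i j - M j i := by
    unfold St
    rw [Finset.sum_mul]
    have e1 : ∀ I : Fin 2 → ι, φ.f (o I) * M (I 0) (I 1) * φ.f (o ![i, j]) =
        φ.f (P i (I 0) * P j (I 1)) * M (I 0) (I 1) - φ.f (P j (I 0) * P i (I 1)) * M (I 0) (I 1) := by
      intro I
      have e2 : o I * o ![i, j] = P i (I 0) * P j (I 1) - P j (I 0) * P i (I 1) := by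
        have hs : ∀ a b, P b a = P a b := fun a b => congrFun (congrFun h.sym a) b
        rw [h.rk, Matrix.det_fin_two]
        change P (I 0) i * P (I 1) j - P (I 0) j * P (I 1) i = _
        rw [hs i (I 0), hs j (I 1), hs j (I 0), hs i (I 1)]
      rw [mul_assoc, ← φ.comm, ← mul_assoc, ← map_mul, e2, map_sub, sub_mul]
    simp only [e1]
    rw [Finset.sum_sub_distrib]
    have e3 : ∀ i j, ∑ I : Fin 2 → ι, φ.f (P i (I 0) * P j (I 1)) * M (I 0) (I 1) = M i j := by
      intro i j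
      rw [sum2 fun a b => φ.f (P i a * P j b) * M a b, ← hM.l i j]
      refine Finset.sum_congr rfl fun a _ => ?_
      rw [← hM.r a j, Finset.mul_sum]
      exact Finset.sum_congr rfl fun b _ => by rw [map_mul, mul_assoc]
    rw [e3, e3]
  rw [h1, ha i j, sub_neg_eq_add, ← two_smul ℝ, smul_smul]
  norm_num

theorem c0_zero (h4 : ∀ (σ : Equiv.Perm (Fin 4)) (I : Fin 4 → ι), oV (I ∘ σ) = ((Equiv.Perm.sign σ : ℤ) : A) * oV I)
    (h : Or 2 P o) : ∑ I, oV I * (o ![I 0, I 1] * o ![I 2, I 3]) = 0 := by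
  have hs : ∀ a b, P b a = P a b := fun a b => congrFun (congrFun h.sym a) b
  have e1 : ∀ I : Fin 4 → ι, oV I * (o ![I 0, I 1] * o ![I 2, I 3]) =
      oV I * (P (I 0) (I 2) * P (I 1) (I 3)) - oV I * (P (I 0) (I 3) * P (I 1) (I 2)) := by
    intro I
    rw [h.JJ', mul_sub]
  simp only [e1]
  rw [Finset.sum_sub_distrib]
  have e2 : ∑ I : Fin 4 → ι, oV I * (P (I 0) (I 2) * P (I 1) (I 3)) = 0 := by
    refine two_zero ?_
    conv_lhs => rw [sum_perm (Equiv.swap 0 2)]
    rw [← Finset.sum_neg_distrib]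
    refine Finset.sum_congr rfl fun I _ => ?_
    rw [h4, Equiv.Perm.sign_swap (by decide)]
    simp only [Units.val_neg, Units.val_one, Int.cast_neg, Int.cast_one, neg_mul, one_mul]
    change -(oV I * (P (I 2) (I 0) * P (I 1) (I 3))) = _
    rw [hs (I 0) (I 2)]
  have e3 : ∑ I : Fin 4 → ι, oV I * (P (I 0) (I 3) * P (I 1) (I 2)) = 0 := by
    refine two_zero ?_
    conv_lhs => rw [sum_perm (Equiv.swap 0 3)]
    rw [← Finset.sum_neg_distrib]
    refine Finset.sum_congr rfl fun I _ => ?_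
    rw [h4, Equiv.Perm.sign_swap (by decide)]
    simp only [Units.val_neg, Units.val_one, Int.cast_neg, Int.cast_one, neg_mul, one_mul]
    change -(oV I * (P (I 3) (I 0) * P (I 1) (I 2))) = _
    rw [hs (I 0) (I 3)]
  rw [e2, e3, sub_zero]

theorem Rv_blocks (P : Matrix ι ι A) (Q : Matrix ι ι A) :
    Rv φ (fromBlocks P 0 0 Q) = fromBlocks (Rv φ P) 0 0 (Rv φ Q) := by
  have e1 : (fromBlocks P 0 0 Q).map φ.f = fromBlocks (P.map φ.f) 0 0 (Q.map φ.f) := by
    rw [fromBlocks_map, φ.zero]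
  unfold Rv
  rw [e1, GDA.R_diag, fromBlocks_multiply]
  simp

/-- the Euler form of an orthogonal sum of two planes -/
theorem eul_diag (h4 : Or 4 (P + Q) oV) (h : Or 2 P o) (h' : Or 2 Q o') (h1 : P * Q = 0) (h2 : Q * P = 0)
    (hw : ∑ I, oV I * (o ![I 0, I 1] * o' ![I 2, I 3]) = 4) :
    eul φ (fromRows P Q * (fromRows P Q)ᵀ) (push (fromRows P Q) oV) = -(eu2 φ P o * eu2 φ Q o') := by
  obtain ⟨S, hS⟩ : ∃ S, S = St φ o (fun I => Rv φ P (I 0) (I 1)) := ⟨_, rfl⟩
  obtain ⟨S', hS'⟩ : ∃ S', S' = St φ o' (fun I => Rv φ Q (I 0) (I 1)) := ⟨_, rfl⟩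
  have sS : G.s S = S := by
    rw [hS, s_St]
    exact St_congr fun I => s_Rv h.idem _ _
  have sS' : G.s S' = S' := by
    rw [hS', s_St]
    exact St_congr fun I => s_Rv h'.idem _ _
  have e0 : fromRows P Q * (fromRows P Q)ᵀ = fromBlocks P 0 0 Q := by
    rw [transpose_fromRows, fromRows_mul_fromCols, h.sym, h'.sym, h.idem, h'.idem, h1, h2]
  have e1 : pullM φ (fromRows P Q) (Rv φ (fromRows P Q * (fromRows P Q)ᵀ)) = Rv φ P + Rv φ Q := by
    rw [e0, Rv_blocks]
    unfold pullM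
    have e2 : (fromRows P Q).map φ.f = fromRows (P.map φ.f) (Q.map φ.f) := fromRows_map _ _ _
    have e3 : (P.map φ.f)ᵀ = P.map φ.f := by rw [← Matrix.transpose_map, h.sym]
    have e4 : (Q.map φ.f)ᵀ = Q.map φ.f := by rw [← Matrix.transpose_map, h'.sym]
    rw [e2, transpose_fromRows, e3, e4, fromCols_mul_fromBlocks, fromCols_mul_fromRows, Matrix.mul_zero, Matrix.mul_zero,
      add_zero, zero_add, Rv_left h.idem, Rv_left h'.idem, Rv_right h.idem, Rv_right h'.idem]
  have e2 : ∀ i j, (Rv φ P + Rv φ Q) i j = (1 / 2 : ℝ) • (S * φ.f (o ![i, j])) + (1 / 2 : ℝ) • (S' * φ.f (o' ![i, j])) := by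
    intro i j
    rw [Matrix.add_apply, M_or2 h (MInv_Rv h.idem h.sym) (fun i j => Rv_anti h.idem h.sym j i) i j,
      M_or2 h' (MInv_Rv h'.idem h'.sym) (fun i j => Rv_anti h'.idem h'.sym j i) i j, ← hS, ← hS']
  have k0 := c0_zero h4.alt h
  have k2 := c0_zero h4.alt h'
  have k1 : ∑ I : Fin 4 → ι, oV I * (o' ![I 0, I 1] * o ![I 2, I 3]) = 4 := by
    rw [← hw, sum_perm (Equiv.swap 0 2 * Equiv.swap 1 3)]
    refine Finset.sum_congr rfl fun I _ => ?_
    rw [h4.alt, Equiv.Perm.sign_mul, Equiv.Perm.sign_swap (by decide), Equiv.Perm.sign_swap (by decide)]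
    simp only [mul_neg, mul_one, neg_neg, Units.val_one, Int.cast_one, one_mul]
    change oV I * (o' ![I 2, I 3] * o ![I 0, I 1]) = _
    rw [mul_comm (o' ![I 2, I 3])]
  have e3 : Z5 φ (fromRows P Q * (fromRows P Q)ᵀ) (push (fromRows P Q) oV) = (2 : ℝ) • (S * S') := by
    unfold Z5
    rw [St_push]
    have f1 : St φ oV (pullT φ (fromRows P Q) (MM (Rv φ (fromRows P Q * (fromRows P Q)ᵀ))
        (Rv φ (fromRows P Q * (fromRows P Q)ᵀ)))) =
        (1 / 4 : ℝ) • (S * S * φ.f (∑ I, oV I * (o ![I 0, I 1] * o ![I 2, I 3])) +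
          S * S' * φ.f (∑ I, oV I * (o ![I 0, I 1] * o' ![I 2, I 3])) +
          S * S' * φ.f (∑ I, oV I * (o' ![I 0, I 1] * o ![I 2, I 3])) +
          S' * S' * φ.f (∑ I, oV I * (o' ![I 0, I 1] * o' ![I 2, I 3]))) := by
      unfold St
      simp only [map_sum, Finset.mul_sum]
      rw [← Finset.sum_add_distrib, ← Finset.sum_add_distrib, ← Finset.sum_add_distrib, Finset.smul_sum]
      refine Finset.sum_congr rfl fun I _ => ?_
      rw [pullT_MM, e1]
      unfold MM
      rw [e2, e2]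
      simp only [map_mul]
      obtain ⟨a, ha⟩ : ∃ a, a = φ.f (o ![I 0, I 1]) := ⟨_, rfl⟩
      obtain ⟨b, hb⟩ : ∃ b, b = φ.f (o ![I 2, I 3]) := ⟨_, rfl⟩
      obtain ⟨a', ha'⟩ : ∃ a', a' = φ.f (o' ![I 0, I 1]) := ⟨_, rfl⟩
      obtain ⟨b', hb'⟩ : ∃ b', b' = φ.f (o' ![I 2, I 3]) := ⟨_, rfl⟩
      obtain ⟨w, hw⟩ : ∃ w, w = φ.f (oV I) := ⟨_, rfl⟩
      rw [← ha, ← hb, ← ha', ← hb', ← hw]
      have cS : ∀ z, S * z = z * S := fun z => ev_comm sS z
      have cS' : ∀ z, S' * z = z * S' := fun z => ev_comm sS' z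
      have key : ∀ (X Y x y : B), (∀ z, X * z = z * X) → (∀ z, Y * z = z * Y) → (x * w = w * x) →
          w * (X * x * (Y * y)) = X * Y * (w * (x * y)) := by
        intro X Y x y hX hY hx
        calc w * (X * x * (Y * y)) = w * X * (x * Y) * y := by simp only [mul_assoc]
          _ = X * w * (Y * x) * y := by rw [← hX w, ← hY x]
          _ = X * (w * Y) * x * y := by simp only [mul_assoc]
          _ = X * Y * (w * (x * y)) := by rw [← hY w]; simp only [mul_assoc]
      have wa : a * w = w * a := by rw [ha, φ.comm]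
      have wa' : a' * w = w * a' := by rw [ha', φ.comm]
      have q1 : ∀ x1 x2 y1 y2 : B, w * (((1 / 2 : ℝ) • x1 + (1 / 2 : ℝ) • x2) * ((1 / 2 : ℝ) • y1 + (1 / 2 : ℝ) • y2)) =
          (1 / 4 : ℝ) • (w * (x1 * y1) + w * (x1 * y2) + w * (x2 * y1) + w * (x2 * y2)) := by
        intro x1 x2 y1 y2
        simp only [add_mul, mul_add, smul_mul_assoc, mul_smul_comm, smul_smul, smul_add]
        module
      rw [q1, key S S a b cS cS wa, key S S' a b' cS cS' wa, key S' S a' b cS' cS wa', key S' S' a' b' cS' cS' wa',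
        ← cS S']
    rw [f1, k0, k1, k2, hw, map_zero, mul_zero, mul_zero, zero_add, add_zero]
    have f2 : φ.f (4 : A) = (4 : ℝ) • (1 : B) := by
      rw [Algebra.smul_def, mul_one, map_ofNat, map_ofNat]
    rw [f2, mul_smul_comm, mul_one]
    module
  unfold eul eu2
  rw [e3, ← hS, ← hS', smul_mul_smul_comm, smul_smul, ← neg_smul]
  congr 1
  have hp : Real.pi ≠ 0 := Real.pi_ne_zero
  field_simp
  norm_num

/-- **multiplicativity of the Euler class** -/
theorem hE_split {φ' : Fun0 A' G'} (C : FCyl φ φ') (h4 : Or 4 (P + Q) oV) (h : Or 2 P o) (h' : Or 2 Q o')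
    (h1 : P * Q = 0) (h2 : Q * P = 0) (hw : ∑ I, oV I * (o ![I 0, I 1] * o' ![I 2, I 3]) = 4) :
    hE φ h4 = -(hE2 φ h * hE2 φ h') := by
  have k1 : (fromRows P Q)ᵀ * fromRows P Q = P + Q := by
    rw [transpose_fromRows, fromCols_mul_fromRows, h.sym, h'.sym, h.idem, h'.idem]
  have k2 : fromRows P Q * (P + Q) = fromRows P Q := by
    rw [fromRows_mul, Matrix.mul_add, Matrix.mul_add, h.idem, h'.idem, h1, h2, add_zero, zero_add]
  rw [← hE_iso C h4 k1 k2]
  unfold hE hE2
  rw [GDA.cl_mul, GDA.cl_neg]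
  exact GDA.cl_congr (eul_diag h4 h h' h1 h2 hw) _ _

end Pool.Agent.Lib.MP_ccbbf6_gt.L5
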