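import Pool.Agent.Lib.MP_ccbbf6_gt.L5.EG2
import Pool.Agent.Lib.MP_ccbbf6_gt.L5.EL3

/-!
# Level 5, EG7: frames, alternating tensors on `Fin r`, the standard complex structure, `pfo ep J = 2^m m!` (helper13)
-/

set_option autoImplicit false
set_option maxSynthPendingDepth 3
set_option linter.unusedSectionVars false

open Matrix Function

noncomputable section

namespace Pool.Agent.Lib.MP_ccbbf6_gt.L5

variable {ι κ : Type*} [Fintype ι] [DecidableEq ι] [Fintype κ] [DecidableEq κ] {r m : ℕ} {E E' : Type*} [CommRing E]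
  [CommRing E']

/-- the tensor of a frame -/
def ft (a : Matrix ι (Fin r) E) (I : Fin r → ι) : E := det (Matrix.of fun j k => a (I k) j)

/-- push-forward of a frame -/
theorem push_ft (u : Matrix κ ι E) (a : Matrix ι (Fin r) E) : push u (ft a) = ft (u * a) := by
  funext K
  unfold push ft
  simp only [Matrix.det_apply', Matrix.of_apply]
  have e1 : ∀ σ : Equiv.Perm (Fin r), ∏ k, (u * a) (K k) (σ k) = ∑ I : Fin r → ι, ∏ k, u (K k) (I k) * a (I k) (σ k) := by
    intro σ
    rw [← Fintype.prod_sum fun (k : Fin r) (i : ι) => u (K k) i * a i (σ k)]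
    rfl
  simp only [e1, Finset.mul_sum]
  rw [Finset.sum_comm]
  refine Finset.sum_congr rfl fun σ _ => Finset.sum_congr rfl fun I _ => ?_
  rw [Finset.prod_mul_distrib]
  ring

theorem ft_map (f : E →+* E') (a : Matrix ι (Fin r) E) (I : Fin r → ι) : f (ft a I) = ft (a.map f) I := by
  unfold ft
  rw [RingHom.map_det]
  rfl

/-- a frame is oriented -/
theorem Or_ft {a : Matrix ι (Fin r) E} (h : aᵀ * a = 1) : Or r (a * aᵀ) (ft a) := by
  refine Or.of_frame (a := fun j l => a l j) ?_ (fun _ _ => rfl) fun _ => rfl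
  intro i j
  have h1 := congrFun (congrFun h i) j
  rw [Matrix.mul_apply, Matrix.one_apply] at h1
  exact h1

/-- the standard tensor -/
def ep (E : Type*) [CommRing E] (r : ℕ) : (Fin r → Fin r) → E := ft (1 : Matrix (Fin r) (Fin r) E)

theorem Or_ep : Or r (1 : Matrix (Fin r) (Fin r) E) (ep E r) := by
  have h := Or_ft (a := (1 : Matrix (Fin r) (Fin r) E)) (by rw [Matrix.transpose_one, Matrix.one_mul])
  rw [Matrix.transpose_one, Matrix.one_mul] at h
  exact h

theorem ep_id : ep E r id = 1 := by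
  unfold ep ft
  have h1 : (Matrix.of fun j k => (1 : Matrix (Fin r) (Fin r) E) (id k) j) = 1 := by
    ext j k
    rw [Matrix.of_apply, Matrix.one_apply, Matrix.one_apply]
    simp only [id_eq, eq_comm]
  rw [h1, Matrix.det_one]

theorem push_ep (a : Matrix ι (Fin r) E) : push a (ep E r) = ft a := by
  unfold ep
  rw [push_ft, Matrix.mul_one]

theorem ep_map (f : E →+* E') (I : Fin r → Fin r) : f (ep E r I) = ep E' r I := by
  unfold ep
  rw [ft_map]
  congr 1
  exact Matrix.map_one _ (map_zero f) (map_one f)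

section alt

variable [Algebra ℝ E]

theorem alt_inj {o : (Fin r → ι) → E} (h : ∀ (σ : Equiv.Perm (Fin r)) (I : Fin r → ι),
    o (I ∘ σ) = ((Equiv.Perm.sign σ : ℤ) : E) * o I) {I : Fin r → ι} (hI : ¬ Injective I) : o I = 0 := by
  unfold Injective at hI
  push Not at hI
  obtain ⟨i, j, h1, h2⟩ := hI
  refine two_zero ?_
  have h3 := h (Equiv.swap i j) I
  rw [Equiv.Perm.sign_swap h2] at h3
  have h4 : I ∘ Equiv.swap i j = I := by
    funext k
    rw [Function.comp_apply]
    by_cases hk : k = i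
    · rw [hk, Equiv.swap_apply_left, h1]
    · by_cases hk' : k = j
      · rw [hk', Equiv.swap_apply_right, h1]
      · rw [Equiv.swap_apply_of_ne_of_ne hk hk']
  rw [h4] at h3
  simpa using h3

/-- alternating tensors of top degree -/
theorem alt_eq {o : (Fin r → Fin r) → E} (h : ∀ (σ : Equiv.Perm (Fin r)) (I : Fin r → Fin r),
    o (I ∘ σ) = ((Equiv.Perm.sign σ : ℤ) : E) * o I) (I : Fin r → Fin r) : o I = o id * ep E r I := by
  by_cases hI : Injective I
  · obtain ⟨σ, rfl⟩ : ∃ σ : Equiv.Perm (Fin r), I = id ∘ σ :=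
      ⟨Equiv.ofBijective I (Finite.injective_iff_bijective.1 hI), rfl⟩
    rw [h, (Or_ep (E := E) (r := r)).alt, ep_id]
    ring
  · rw [alt_inj h hI, alt_inj (Or_ep (E := E) (r := r)).alt hI, mul_zero]

end alt

/-! ### the standard complex structure -/

/-- the standard complex structure -/
def Js (E : Type*) [CommRing E] (m : ℕ) : Matrix (Fin (2 * m)) (Fin (2 * m)) E := fun k l =>
  if (pairs m k).1 = (pairs m l).1 then (!![0, 1; -1, 0] : Matrix (Fin 2) (Fin 2) E) (pairs m k).2 (pairs m l).2 else 0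

theorem Js_reindex : Js E m = (Matrix.reindex ((Equiv.prodComm _ _).trans (pairs m).symm)
    ((Equiv.prodComm _ _).trans (pairs m).symm)) (blockDiagonal fun _ : Fin m => (!![0, 1; -1, 0] : Matrix (Fin 2) (Fin 2) E)) := by
  ext k l
  rw [Matrix.reindex_apply, Matrix.submatrix_apply, blockDiagonal_apply]
  rfl

theorem Js_det : det (Js E m) = 1 := by
  rw [Js_reindex, Matrix.det_reindex_self, Matrix.det_blockDiagonal]
  refine Finset.prod_eq_one fun k _ => ?_
  rw [Matrix.det_fin_two]
  simp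

theorem Js_mul : Js E m * Js E m = -1 := by
  rw [Js_reindex, Matrix.reindex_apply, Matrix.submatrix_mul_equiv, ← blockDiagonal_mul]
  have h1 : (fun _ : Fin m => (!![0, 1; -1, 0] : Matrix (Fin 2) (Fin 2) E) * !![0, 1; -1, 0]) = -1 := by
    funext k
    rw [Pi.neg_apply, Pi.one_apply]
    ext i j
    fin_cases i <;> fin_cases j <;> simp
  have h2 : blockDiagonal (fun _ : Fin m => (!![0, 1; -1, 0] : Matrix (Fin 2) (Fin 2) E) * !![0, 1; -1, 0]) = -1 := by
    rw [h1, blockDiagonal_neg, blockDiagonal_one]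
  rw [h2, Matrix.submatrix_neg]
  congr 1
  exact Matrix.submatrix_one_equiv _

theorem Js_tr : (Js E m)ᵀ = -Js E m := by
  ext k l
  rw [Matrix.transpose_apply, Matrix.neg_apply]
  unfold Js
  by_cases h : (pairs m k).1 = (pairs m l).1
  · rw [if_pos h, if_pos h.symm]
    generalize (pairs m k).2 = a
    generalize (pairs m l).2 = b
    fin_cases a <;> fin_cases b <;> simp
  · rw [if_neg h, if_neg (Ne.symm h), neg_zero]

theorem pairs_ss (k : Fin (2 * m)) : pairs (m + 1) k.succ.succ = ((pairs m k).1.succ, (pairs m k).2) := by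
  refine Prod.ext (Fin.ext ?_) (Fin.ext ?_)
  · change (k.1 + 1 + 1) / 2 = k.1 / 2 + 1
    omega
  · change (k.1 + 1 + 1) % 2 = k.1 % 2
    omega

theorem Js_ss (k l : Fin (2 * m)) : Js E (m + 1) k.succ.succ l.succ.succ = Js E m k l := by
  unfold Js
  rw [pairs_ss, pairs_ss]
  simp only [Fin.succ_inj]

theorem pairs_s0' (a : Fin m) : pairs m (s0 a) = (a, 0) := by
  rw [← pairs_s0, Equiv.apply_symm_apply]

theorem pairs_s1' (a : Fin m) : pairs m (s1 a) = (a, 1) := by
  rw [← pairs_s1, Equiv.apply_symm_apply]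

/-- the first row -/
theorem Js_row (j : Fin (2 * (m + 1))) : Js E (m + 1) (s0 0) j = if j = s1 0 then 1 else 0 := by
  unfold Js
  rw [pairs_s0']
  revert j
  refine pairs_ind (fun a => ?_) (fun a => ?_)
  · rw [pairs_s0', if_neg (s0_ne_s1 a 0)]
    split_ifs <;> simp
  · rw [pairs_s1']
    by_cases h : a = 0
    · subst h
      simp
    · have h' : s1 a ≠ s1 0 := fun e => h (s1_inj e)
      rw [if_neg (Ne.symm h), if_neg h']

/-- shifted indices -/
def embE (E : Type*) [CommRing E] (m : ℕ) : Matrix (Fin (2 * (m + 1))) (Fin (2 * m)) E := fun k j =>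
  if k = j.succ.succ then 1 else 0

theorem embE_J : (embE E m)ᵀ * Js E (m + 1) * embE E m = Js E m := by
  ext k l
  rw [Matrix.mul_apply]
  have e1 : ∀ j, ((embE E m)ᵀ * Js E (m + 1)) k j = Js E (m + 1) k.succ.succ j := by
    intro j
    rw [Matrix.mul_apply]
    simp only [Matrix.transpose_apply, embE, ite_mul, one_mul, zero_mul]
    rw [Finset.sum_ite_eq']
    simp
  simp only [e1, embE, mul_ite, mul_one, mul_zero]
  rw [Finset.sum_ite_eq', if_pos (Finset.mem_univ _), Js_ss]

/-- a determinant with first column `(1, 0, .., 0)` -/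
theorem det_col0 {k : ℕ} (M : Matrix (Fin (k + 1)) (Fin (k + 1)) E) (h0 : M 0 0 = 1) (h : ∀ i : Fin k, M i.succ 0 = 0) :
    det M = det (M.submatrix Fin.succ Fin.succ) := by
  rw [Matrix.det_succ_column_zero, Fin.sum_univ_succ]
  simp only [h, mul_zero, zero_mul, Finset.sum_const_zero, add_zero]
  rw [h0, Fin.val_zero, pow_zero, one_mul, one_mul]
  rfl

/-- removing the first two slots -/
theorem ep_cons (I : Fin (2 * m) → Fin (2 * (m + 1))) :
    ep E (2 * (m + 1)) (Fin.cons (s0 0) (Fin.cons (s1 0) I : Fin (2 * m + 1) → Fin (2 * (m + 1))) :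
      Fin (2 * m + 1 + 1) → Fin (2 * (m + 1))) = ft (embE E m) I := by
  obtain ⟨M, hM⟩ : ∃ M : Matrix (Fin (2 * m + 1 + 1)) (Fin (2 * m + 1 + 1)) E, M = Matrix.of fun j k =>
      (1 : Matrix (Fin (2 * (m + 1))) (Fin (2 * (m + 1))) E) ((Fin.cons (s0 0) (Fin.cons (s1 0) I :
        Fin (2 * m + 1) → Fin (2 * (m + 1))) : Fin (2 * m + 1 + 1) → Fin (2 * (m + 1))) k) j := ⟨_, rfl⟩
  have e1 : ep E (2 * (m + 1)) (Fin.cons (s0 0) (Fin.cons (s1 0) I : Fin (2 * m + 1) → Fin (2 * (m + 1))) :
      Fin (2 * m + 1 + 1) → Fin (2 * (m + 1))) = det M := by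
    rw [hM]
    rfl
  have m0 : ∀ j, M j 0 = if s0 (0 : Fin (m + 1)) = j then 1 else 0 := fun j => by
    rw [hM]
    change (1 : Matrix (Fin (2 * (m + 1))) (Fin (2 * (m + 1))) E) (s0 0) j = _
    rw [Matrix.one_apply]
  have m1 : ∀ j, M j 1 = if s1 (0 : Fin (m + 1)) = j then 1 else 0 := fun j => by
    rw [hM]
    change (1 : Matrix (Fin (2 * (m + 1))) (Fin (2 * (m + 1))) E) (s1 0) j = _
    rw [Matrix.one_apply]
  rw [e1, det_col0 M (by rw [m0]; exact if_pos rfl) (fun i => by rw [m0]; exact if_neg (Fin.succ_ne_zero i).symm),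
    det_col0 (M.submatrix Fin.succ Fin.succ) ?_ ?_]
  · unfold ft
    congr 1
    ext j k
    rw [Matrix.submatrix_apply, Matrix.submatrix_apply, Matrix.of_apply, hM]
    change (1 : Matrix (Fin (2 * (m + 1))) (Fin (2 * (m + 1))) E) (I k) j.succ.succ = embE E m (I k) j
    rw [Matrix.one_apply]
    rfl
  · change M 1 1 = 1
    rw [m1]
    exact if_pos rfl
  · intro i
    change M i.succ.succ 1 = 0
    rw [m1]
    refine if_neg ?_
    intro e
    have e2 : (1 : ℕ) = i.1 + 1 + 1 := congrArg Fin.val e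
    omega

theorem sum_cons {M : Type*} [AddCommMonoid M] {k : ℕ} (F : (Fin (k + 1) → ι) → M) :
    ∑ I, F I = ∑ i, ∑ I : Fin k → ι, F (Fin.cons i I) := by
  rw [Fintype.sum_equiv (Fin.consEquiv fun _ : Fin (k + 1) => ι).symm F
    (fun z => F (Fin.cons z.1 z.2)) fun I => ?_, Fintype.sum_prod_type]
  have g1 : (Fin.cons (I 0) (Fin.tail I) : Fin (k + 1) → ι) = I := Fin.cons_self_tail I
  change F I = F (Fin.cons (I 0) (Fin.tail I))
  rw [g1]

/-- **the Pfaffian of the standard complex structure** -/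
theorem pfo_Js (E : Type*) [CommRing E] : ∀ m : ℕ, pfo (ep E (2 * m)) (Js E m) = 2 ^ m * (m.factorial : E)
  | 0 => by
    unfold pfo
    rw [Fintype.sum_eq_single id]
    · rw [ep_id]
      simp
    · intro I hI
      exact absurd (funext fun k => absurd k.2 (by omega)) hI
  | m + 1 => by
    have ih := pfo_Js E m
    obtain ⟨y, hy⟩ : ∃ y : Fin (2 * (m + 1)) → E, y = Pi.single (s0 0) 1 := ⟨_, rfl⟩
    obtain ⟨w, hw⟩ : ∃ w : Fin (2 * (m + 1)) → E, w = fun j => Js E (m + 1) (s0 0) j := ⟨_, rfl⟩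
    have hyy : ∑ e, y e * y e = 1 := by
      rw [hy, Finset.sum_eq_single (s0 0)]
      · rw [Pi.single_eq_same, mul_one]
      · intro b _ hb
        rw [Pi.single_eq_of_ne hb, mul_zero]
      · intro h
        exact absurd (Finset.mem_univ _) h
    have hl : ∀ j, ∑ e, y e * Js E (m + 1) e j = w j := by
      intro j
      rw [hy, hw, Finset.sum_eq_single (s0 0)]
      · rw [Pi.single_eq_same, one_mul]
      · intro b _ hb
        rw [Pi.single_eq_of_ne hb, zero_mul]
      · intro h
        exact absurd (Finset.mem_univ _) h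
    have hr : ∀ i, ∑ e, y e * Js E (m + 1) i e = -w i := by
      intro i
      rw [← hl, ← Finset.sum_neg_distrib]
      refine Finset.sum_congr rfl fun e _ => ?_
      have h1 := congrFun (congrFun (Js_tr (E := E) (m := m + 1)) e) i
      rw [Matrix.transpose_apply, Matrix.neg_apply] at h1
      rw [h1, mul_neg]
    rw [pfo_eq, pfs_sch' Or_ep (Matrix.one_mulVec y) hyy]
    obtain ⟨Y, hY⟩ : ∃ Y : Matrix (Fin (2 * (m + 1))) (Fin (2 * (m + 1))) E, Y = Matrix.of fun i j => y i * w j := ⟨_, rfl⟩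
    have e1 : (Matrix.of fun i j => y i * (∑ e, y e * Js E (m + 1) e j) + y j * (∑ e, y e * Js E (m + 1) i e)) =
        Y + -Yᵀ := by
      refine Matrix.ext fun i j => ?_
      rw [Matrix.of_apply, hl, hr, hY, Matrix.add_apply, Matrix.neg_apply, Matrix.transpose_apply, Matrix.of_apply,
        Matrix.of_apply]
      ring
    have e2 : ∀ a : Fin (m + 1), pfs (ep E (2 * (m + 1))) (update (fun _ => Js E (m + 1)) a (Y + -Yᵀ)) =
        2 * pfs (ep E (2 * (m + 1))) (Fin.cons Y fun _ => Js E (m + 1) : Fin (m + 1) → _) := by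
      intro a
      rw [pfs_upd_add, pfs_upd_neg, pfs_upd_tr Or_ep, ← pfs_swap Or_ep _ 0 a]
      have e3 : (update (fun _ => Js E (m + 1)) a Y) ∘ (Equiv.swap 0 a) =
          (Fin.cons Y fun _ => Js E (m + 1) : Fin (m + 1) → _) := by
        funext b
        rw [Function.comp_apply]
        refine Fin.cases ?_ (fun b => ?_) b
        · rw [Equiv.swap_apply_left, update_self]
          rfl
        · have h2 : Equiv.swap 0 a b.succ ≠ a := by
            intro e
            have h3 := congrArg (Equiv.swap 0 a) e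
            rw [Equiv.swap_apply_self, Equiv.swap_apply_right] at h3
            exact Fin.succ_ne_zero b h3
          rw [update_of_ne h2]
          rfl
      rw [e3]
      ring
    simp only [e1, e2]
    rw [Finset.sum_const, Finset.card_univ, Fintype.card_fin, nsmul_eq_mul]
    have e4 : pfs (ep E (2 * (m + 1))) (Fin.cons Y fun _ => Js E (m + 1) : Fin (m + 1) → _) =
        pfo (ft (embE E m)) (Js E (m + 1)) := by
      obtain ⟨F, hF⟩ : ∃ F : (Fin (2 * m + 1 + 1) → Fin (2 * (m + 1))) → E, F = fun I => ep E (2 * (m + 1)) I *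
          (Y (I (s0 0)) (I (s1 0)) * ∏ a : Fin m, Js E (m + 1) (I (s0 a.succ)) (I (s1 a.succ))) := ⟨_, rfl⟩
      have f1 : pfs (ep E (2 * (m + 1))) (Fin.cons Y fun _ => Js E (m + 1) : Fin (m + 1) → _) =
          ∑ I : Fin (2 * m + 1 + 1) → Fin (2 * (m + 1)), F I := by
        rw [hF]
        unfold pfs
        refine Finset.sum_congr rfl fun I _ => ?_
        rw [Fin.prod_univ_succ]
        rfl
      have f2 : ∀ (i j : Fin (2 * (m + 1))) (I : Fin (2 * m) → Fin (2 * (m + 1))),
          F (Fin.cons i (Fin.cons j I : Fin (2 * m + 1) → Fin (2 * (m + 1)))) =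
          ep E (2 * (m + 1)) (Fin.cons i (Fin.cons j I : Fin (2 * m + 1) → Fin (2 * (m + 1))) :
            Fin (2 * m + 1 + 1) → Fin (2 * (m + 1))) * (Y i j * ∏ a, Js E (m + 1) (I (s0 a)) (I (s1 a))) := by
        intro i j I
        rw [hF]
        rfl
      rw [f1, sum_cons F, Finset.sum_eq_single (s0 0)]
      · rw [sum_cons, Finset.sum_eq_single (s1 0)]
        · unfold pfo
          refine Finset.sum_congr rfl fun I _ => ?_
          rw [f2, ep_cons, hY, Matrix.of_apply, hy, hw, Pi.single_eq_same]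
          simp only
          rw [Js_row, if_pos rfl, mul_one, one_mul]
        · intro j _ hj
          refine Finset.sum_eq_zero fun I _ => ?_
          rw [f2, hY, Matrix.of_apply, hw]
          simp only
          rw [Js_row, if_neg hj, mul_zero, zero_mul, mul_zero]
        · intro h
          exact absurd (Finset.mem_univ _) h
      · intro i _ hi
        rw [sum_cons]
        refine Finset.sum_eq_zero fun j _ => Finset.sum_eq_zero fun I _ => ?_
        rw [f2, hY, Matrix.of_apply, hy, Pi.single_eq_of_ne hi, zero_mul, zero_mul, mul_zero]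
      · intro h
        exact absurd (Finset.mem_univ _) h
    rw [e4, ← push_ep, pfo_push, embE_J, ih, Nat.factorial_succ]
    push_cast
    ring

end Pool.Agent.Lib.MP_ccbbf6_gt.L5
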