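import Pool.Agent.Lib.MP_ccbbf6_gt.L5.EG7

/-!
# Level 5, EG8: the Pfaffian and power sums (helper13)

* `inf_inv` : infinitesimal invariance of the Pfaffian functional;
* `pfJ_ode` : linear differential equation for `pfo (J + t N)`;
* `pf_sq` : `(pfo ep N)^2 = (2^m m!)^2 det N`.
-/

set_option autoImplicit false
set_option maxSynthPendingDepth 3
set_option linter.unusedSectionVars false

open Matrix Function PowerSeries

noncomputable section

namespace Pool.Agent.Lib.MP_ccbbf6_gt.L5

variable {m : ℕ} {E : Type*} [CommRing E]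

/-- infinitesimal invariance -/
theorem inf_inv {o : (Fin (2 * m) → Fin (2 * m)) → E} (h : Or (2 * m) (1 : Matrix (Fin (2 * m)) (Fin (2 * m)) E) o)
    (A X : Matrix (Fin (2 * m)) (Fin (2 * m)) E) :
    trace X * pfo o A = ∑ a, pfs o (update (fun _ => A) a (Xᵀ * A + A * X)) := by
  have e1 : ∀ I : Fin (2 * m) → Fin (2 * m), trace X * o I = ∑ k, ∑ e, X (I k) e * o (update I k e) := by
    intro I
    have e2 : trace X * o I = ∑ e, ∑ j, X j e * ((1 : Matrix (Fin (2 * m)) (Fin (2 * m)) E) e j * o I) := by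
      unfold trace
      rw [Finset.sum_mul]
      refine Finset.sum_congr rfl fun e _ => ?_
      rw [Finset.sum_eq_single e]
      · rw [Matrix.one_apply_eq, one_mul, Matrix.diag_apply]
      · intro j _ hj
        rw [Matrix.one_apply_ne (Ne.symm hj), zero_mul, mul_zero]
      · intro hh
        exact absurd (Finset.mem_univ _) hh
    rw [e2]
    have e3 : ∀ e j, X j e * ((1 : Matrix (Fin (2 * m)) (Fin (2 * m)) E) e j * o I) =
        ∑ k, X j e * ((1 : Matrix (Fin (2 * m)) (Fin (2 * m)) E) (I k) j * o (update I k e)) := by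
      intro e j
      rw [h.sch', Finset.mul_sum]
    simp only [e3]
    have e4 : ∀ e, ∑ j, ∑ k, X j e * ((1 : Matrix (Fin (2 * m)) (Fin (2 * m)) E) (I k) j * o (update I k e)) =
        ∑ k, X (I k) e * o (update I k e) := by
      intro e
      rw [Finset.sum_comm]
      refine Finset.sum_congr rfl fun k _ => ?_
      rw [Finset.sum_eq_single (I k)]
      · rw [Matrix.one_apply_eq, one_mul]
      · intro j _ hj
        rw [Matrix.one_apply_ne (Ne.symm hj), zero_mul, mul_zero]
      · intro hh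
        exact absurd (Finset.mem_univ _) hh
    simp only [e4]
    rw [Finset.sum_comm]
  have e2 : trace X * pfo o A = ∑ k, ∑ I : Fin (2 * m) → Fin (2 * m), ∑ e, X (I k) e * o (update I k e) *
      ∏ a, A (I (s0 a)) (I (s1 a)) := by
    unfold pfo
    rw [Finset.mul_sum, Finset.sum_comm]
    refine Finset.sum_congr rfl fun I _ => ?_
    rw [← mul_assoc, e1, Finset.sum_mul]
    exact Finset.sum_congr rfl fun k _ => Finset.sum_mul _ _ _
  rw [e2, sum_pairs]
  refine Finset.sum_congr rfl fun a _ => ?_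
  rw [sum_swp (s0 a) (fun I e => X (I (s0 a)) e * o (update I (s0 a) e) * ∏ b, A (I (s0 b)) (I (s1 b))),
    sum_swp (s1 a) (fun I e => X (I (s1 a)) e * o (update I (s1 a) e) * ∏ b, A (I (s0 b)) (I (s1 b))),
    ← Finset.sum_add_distrib, pfs_upd]
  refine Finset.sum_congr rfl fun I _ => ?_
  have u0 := fun e => upd_prod0 a I e (fun _ : Fin m => A)
  have u1 := fun e => upd_prod1 a I e (fun _ : Fin m => A)
  simp only [update_idem, update_eq_self, update_self]
  simp only [u0, u1]
  rw [Matrix.add_apply, Matrix.mul_apply, Matrix.mul_apply, ← Finset.sum_add_distrib, add_mul, mul_add, Finset.sum_mul,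
    Finset.sum_mul, Finset.mul_sum, Finset.mul_sum, ← Finset.sum_add_distrib]
  refine Finset.sum_congr rfl fun e _ => ?_
  rw [Matrix.transpose_apply]
  ring

/-- derivative of a product -/
theorem der_prod {α : Type*} [DecidableEq α] (s : Finset α) (x : α → E⟦X⟧) :
    PowerSeries.derivative E (∏ a ∈ s, x a) = ∑ a ∈ s, PowerSeries.derivative E (x a) * ∏ b ∈ s.erase a, x b := by
  induction s using Finset.induction_on with
  | empty =>
    rw [Finset.prod_empty, Finset.sum_empty]
    exact Derivation.map_one_eq_zero _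
  | insert c s hc ih =>
    rw [Finset.prod_insert hc, Finset.sum_insert hc, Finset.erase_insert hc, Derivation.leibniz, ih, smul_eq_mul,
      smul_eq_mul, Finset.mul_sum, add_comm, mul_comm (∏ a ∈ s, x a)]
    congr 1
    refine Finset.sum_congr rfl fun a ha => ?_
    have hac : a ≠ c := fun e => hc (e ▸ ha)
    rw [Finset.erase_insert_of_ne hac.symm, Finset.prod_insert (fun h => hc (Finset.mem_of_mem_erase h))]
    ring

/-- derivative of the Pfaffian functional -/
theorem der_pfo (o : (Fin (2 * m) → Fin (2 * m)) → E) (A : Matrix (Fin (2 * m)) (Fin (2 * m)) E⟦X⟧) :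
    PowerSeries.derivative E (pfo (fun I => PowerSeries.C (R := E) (o I)) A) =
      ∑ a, pfs (fun I => PowerSeries.C (R := E) (o I)) (update (fun _ => A) a (A.map (PowerSeries.derivative E))) := by
  unfold pfo
  rw [map_sum]
  have e1 : ∀ I : Fin (2 * m) → Fin (2 * m), PowerSeries.derivative E (PowerSeries.C (R := E) (o I) *
      ∏ a, A (I (s0 a)) (I (s1 a))) = ∑ a, PowerSeries.C (R := E) (o I) *
        (PowerSeries.derivative E (A (I (s0 a)) (I (s1 a))) * ∏ b ∈ Finset.univ.erase a, A (I (s0 b)) (I (s1 b))) := by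
    intro I
    rw [← PowerSeries.smul_eq_C_mul, Derivation.map_smul, der_prod, PowerSeries.smul_eq_C_mul, Finset.mul_sum]
  simp only [e1]
  rw [Finset.sum_comm]
  refine Finset.sum_congr rfl fun a _ => ?_
  rw [pfs_upd]
  rfl

variable [Algebra ℝ E]

/-- `J + t N` -/
def JN (N : Matrix (Fin (2 * m)) (Fin (2 * m)) E) : Matrix (Fin (2 * m)) (Fin (2 * m)) E⟦X⟧ :=
  (Js E m).map (PowerSeries.C (R := E)) + (X : E⟦X⟧) • N.map (PowerSeries.C (R := E))

/-- the Pfaffian of `J + t N` -/
def pfJ (N : Matrix (Fin (2 * m)) (Fin (2 * m)) E) : E⟦X⟧ := pfo (fun I => PowerSeries.C (R := E) (ep E (2 * m) I)) (JN N)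

theorem der_JN (N : Matrix (Fin (2 * m)) (Fin (2 * m)) E) :
    (JN N).map (PowerSeries.derivative E) = N.map (PowerSeries.C (R := E)) := by
  ext i j : 2
  unfold JN
  rw [Matrix.map_apply, Matrix.add_apply, map_add, Matrix.smul_apply, Matrix.map_apply, Matrix.map_apply, smul_eq_mul,
    Derivation.leibniz, PowerSeries.derivative_X, PowerSeries.derivative_C, PowerSeries.derivative_C]
  simp

theorem ep_C (I : Fin (2 * m) → Fin (2 * m)) : PowerSeries.C (R := E) (ep E (2 * m) I) = ep E⟦X⟧ (2 * m) I := ep_map _ I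

/-- the linear differential equation -/
theorem pfJ_ode {N : Matrix (Fin (2 * m)) (Fin (2 * m)) E} (hN : Nᵀ = -N) :
    PowerSeries.derivative E (pfJ N) = pfJ N * (PowerSeries.C (R := E) (algebraMap ℝ E (1 / 2)) *
      PS (fun k => trace ((-(Js E m * N)) ^ k))) := by
  obtain ⟨F, hF⟩ : ∃ F, F = -(Js E m * N) := ⟨_, rfl⟩
  obtain ⟨c, hc⟩ : ∃ c : E →+* E⟦X⟧, c = PowerSeries.C (R := E) := ⟨_, rfl⟩
  obtain ⟨J, hJ⟩ : ∃ J, J = (Js E m).map c := ⟨_, rfl⟩
  obtain ⟨q, hq⟩ : ∃ q : E⟦X⟧, q = c (algebraMap ℝ E (1 / 2)) := ⟨_, rfl⟩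
  obtain ⟨Y, hY⟩ : ∃ Y, Y = q • (NI F * F.map c) := ⟨_, rfl⟩
  have hq2 : q + q = 1 := by
    rw [hq, ← map_add, ← map_add]
    norm_num
  have hJF : Js E m * F = N := by
    rw [hF, Matrix.mul_neg, ← Matrix.mul_assoc, Js_mul, neg_mul, one_mul, neg_neg]
  have hA : JN N = J * (1 + (X : E⟦X⟧) • F.map c) := by
    rw [Matrix.mul_add, Matrix.mul_one, Matrix.mul_smul, hJ, ← Matrix.map_mul, hJF, hc]
    rfl
  have hAY : JN N * Y = q • N.map c := by
    rw [hY, Matrix.mul_smul, ← Matrix.mul_assoc, hA, Matrix.mul_assoc J, hc, NI_mul, Matrix.mul_one, ← hc, hJ,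
      ← Matrix.map_mul, hJF]
  have hAt : (JN N)ᵀ = -JN N := by
    unfold JN
    rw [Matrix.transpose_add, Matrix.transpose_smul, ← Matrix.transpose_map, ← Matrix.transpose_map, Js_tr, hN,
      neg_add, ← smul_neg]
    congr 1
    · ext i j : 2
      simp
    · congr 1
      ext i j : 2
      simp
  have hYA : Yᵀ * JN N = q • N.map c := by
    have h1 : (JN N * Y)ᵀ = -(Yᵀ * JN N) := by rw [Matrix.transpose_mul, hAt, Matrix.mul_neg]
    have h2 : (q • N.map c)ᵀ = -(q • N.map c) := by
      rw [Matrix.transpose_smul, ← Matrix.transpose_map, hN, ← smul_neg]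
      congr 1
      ext i j : 2
      simp
    rw [hAY, h2] at h1
    exact (neg_injective h1).symm
  have hS : Yᵀ * JN N + JN N * Y = N.map c := by
    rw [hYA, hAY, ← add_smul, hq2, one_smul]
  have h1 := der_pfo (ep E (2 * m)) (JN N)
  have h2 := inf_inv (Or_ep (E := E⟦X⟧) (r := 2 * m)) (JN N) Y
  have h3 : (fun I => PowerSeries.C (R := E) (ep E (2 * m) I)) = ep E⟦X⟧ (2 * m) := funext ep_C
  unfold pfJ
  rw [h1, der_JN, h3, ← hc, ← hS, ← h2, mul_comm]
  congr 1
  have h4 : trace Y = q * trace (NI F * F.map c) := by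
    rw [hY, Matrix.trace_smul, smul_eq_mul]
  rw [h4, hc, mul_trace, hq, hF, hc]

theorem ode_mul {f g p q : E⟦X⟧} (hf : PowerSeries.derivative E f = f * p) (hg : PowerSeries.derivative E g = g * q) :
    PowerSeries.derivative E (f * g) = f * g * (p + q) := by
  rw [Derivation.leibniz, hf, hg, smul_eq_mul, smul_eq_mul]
  ring

theorem pfJ_const (N : Matrix (Fin (2 * m)) (Fin (2 * m)) E) :
    PowerSeries.constantCoeff (pfJ N) = 2 ^ m * (m.factorial : E) := by
  unfold pfJ
  have h1 := pfo_map (PowerSeries.constantCoeff (R := E)) (fun I => PowerSeries.C (R := E) (ep E (2 * m) I)) (JN N)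
  rw [h1, ← pfo_Js E m]
  have h2 : (JN N).map (PowerSeries.constantCoeff (R := E)) = Js E m := by
    refine Matrix.ext fun i j => ?_
    unfold JN
    rw [Matrix.map_apply, Matrix.add_apply, map_add, Matrix.smul_apply, smul_eq_mul, map_mul, PowerSeries.constantCoeff_X,
      zero_mul, add_zero, Matrix.map_apply, PowerSeries.constantCoeff_C]
  have h3 : (fun I => PowerSeries.constantCoeff (R := E) (PowerSeries.C (R := E) (ep E (2 * m) I))) = ep E (2 * m) :=
    funext fun I => PowerSeries.constantCoeff_C _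
  rw [h2, h3]

/-- `pf(t)^2 = (2^m m!)^2 det (1 + t F)` -/
theorem pfJ_sq {N : Matrix (Fin (2 * m)) (Fin (2 * m)) E} (hN : Nᵀ = -N) :
    pfJ N * pfJ N = PowerSeries.C (R := E) ((2 ^ m * (m.factorial : E)) ^ 2) * (dF (-(Js E m * N)) : E⟦X⟧) := by
  refine ode_unique (q := PS fun k => trace ((-(Js E m * N)) ^ k)) ?_ ?_ ?_
  · rw [ode_mul (pfJ_ode hN) (pfJ_ode hN), ← add_mul, ← map_add, ← map_add]
    norm_num
  · rw [← PowerSeries.smul_eq_C_mul, Derivation.map_smul, dF_ode, smul_mul_assoc]
  · rw [map_mul, pfJ_const, map_mul, PowerSeries.constantCoeff_C, ← EL_trace, EL_zero]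
    ring

/-! ### top coefficients -/

/-- the polynomial -/
def pfP (N : Matrix (Fin (2 * m)) (Fin (2 * m)) E) : Polynomial E :=
  pfo (fun I => Polynomial.C (ep E (2 * m) I)) ((Js E m).map Polynomial.C + (Polynomial.X : Polynomial E) •
    N.map Polynomial.C)

theorem pfP_coe (N : Matrix (Fin (2 * m)) (Fin (2 * m)) E) : ((pfP N : Polynomial E) : E⟦X⟧) = pfJ N := by
  unfold pfP pfJ
  have h1 := pfo_map (Polynomial.coeToPowerSeries.ringHom (R := E)) (fun I => Polynomial.C (ep E (2 * m) I))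
    ((Js E m).map Polynomial.C + (Polynomial.X : Polynomial E) • N.map Polynomial.C)
  have h2 : ∀ p : Polynomial E, (p : E⟦X⟧) = Polynomial.coeToPowerSeries.ringHom p := fun _ => rfl
  rw [h2, h1]
  congr 1
  · funext I
    exact Polynomial.coe_C _
  · refine Matrix.ext fun i j => ?_
    unfold JN
    rw [Matrix.map_apply, Matrix.add_apply, Matrix.add_apply, map_add, Matrix.smul_apply, Matrix.smul_apply, smul_eq_mul,
      smul_eq_mul, map_mul]
    simp

theorem pfP_deg (N : Matrix (Fin (2 * m)) (Fin (2 * m)) E) : (pfP N).natDegree ≤ m := by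
  unfold pfP pfo
  refine Polynomial.natDegree_sum_le_of_forall_le _ _ fun I _ => ?_
  refine le_trans (Polynomial.natDegree_C_mul_le _ _) (le_trans (Polynomial.natDegree_prod_le _ _) ?_)
  have h1 : ∀ a ∈ (Finset.univ : Finset (Fin m)), (((Js E m).map Polynomial.C + (Polynomial.X : Polynomial E) •
      N.map Polynomial.C) (I (s0 a)) (I (s1 a))).natDegree ≤ 1 := by
    intro a _
    rw [Matrix.add_apply, Matrix.smul_apply, smul_eq_mul, Matrix.map_apply, Matrix.map_apply]
    compute_degree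
  refine le_trans (Finset.sum_le_sum h1) ?_
  rw [Finset.sum_const, Finset.card_univ, Fintype.card_fin, smul_eq_mul, mul_one]

theorem pfP_top (N : Matrix (Fin (2 * m)) (Fin (2 * m)) E) : (pfP N).coeff m = pfo (ep E (2 * m)) N := by
  unfold pfP pfo
  rw [Polynomial.finsetSum_coeff]
  refine Finset.sum_congr rfl fun I _ => ?_
  rw [Polynomial.coeff_C_mul]
  congr 1
  have h1 : ∀ a ∈ (Finset.univ : Finset (Fin m)), (((Js E m).map Polynomial.C + (Polynomial.X : Polynomial E) •
      N.map Polynomial.C) (I (s0 a)) (I (s1 a))).natDegree ≤ 1 := by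
    intro a _
    rw [Matrix.add_apply, Matrix.smul_apply, smul_eq_mul, Matrix.map_apply, Matrix.map_apply]
    compute_degree
  have h2 := Polynomial.coeff_prod_of_natDegree_le (Finset.univ : Finset (Fin m)) (fun a => ((Js E m).map Polynomial.C +
    (Polynomial.X : Polynomial E) • N.map Polynomial.C) (I (s0 a)) (I (s1 a))) 1 h1
  rw [Finset.card_univ, Fintype.card_fin, mul_one] at h2
  rw [h2]
  refine Finset.prod_congr rfl fun a _ => ?_
  rw [Matrix.add_apply, Matrix.smul_apply, smul_eq_mul, Matrix.map_apply, Matrix.map_apply, Polynomial.coeff_add,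
    Polynomial.coeff_X_mul, Polynomial.coeff_C_succ, Polynomial.coeff_C_zero, zero_add]

theorem dF_top {n : Type*} [Fintype n] [DecidableEq n] (F : Matrix n n E) : (dF F).coeff (Fintype.card n) = det F := by
  have h := Polynomial.coeff_det_X_add_C_card F (1 : Matrix n n E)
  unfold dF
  rw [← h, add_comm]
  congr 3
  exact (Matrix.map_one _ Polynomial.C_0 Polynomial.C_1).symm

/-- the determinant by power sums -/
theorem elc_det {n : Type*} [Fintype n] [DecidableEq n] (F : Matrix n n E) :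
    elc (fun k => trace (F ^ k)) (Fintype.card n) = det F := by
  have h := congrArg (PowerSeries.coeff (Fintype.card n)) (EL_trace F)
  unfold EL at h
  rw [PowerSeries.coeff_mk, Polynomial.coeff_coe, dF_top] at h
  exact h

/-- **the square of the Pfaffian** -/
theorem pf_sq {N : Matrix (Fin (2 * m)) (Fin (2 * m)) E} (hN : Nᵀ = -N) :
    pfo (ep E (2 * m)) N * pfo (ep E (2 * m)) N = (2 ^ m * (m.factorial : E)) ^ 2 * det N := by
  have h1 := pfJ_sq hN
  rw [← pfP_coe, ← Polynomial.coe_mul] at h1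
  have h2 : PowerSeries.C (R := E) ((2 ^ m * (m.factorial : E)) ^ 2) * (dF (-(Js E m * N)) : E⟦X⟧) =
      ((Polynomial.C ((2 ^ m * (m.factorial : E)) ^ 2) * dF (-(Js E m * N)) : Polynomial E) : E⟦X⟧) := by
    rw [Polynomial.coe_mul, Polynomial.coe_C]
  rw [h2] at h1
  have h3 : (pfP N * pfP N).coeff (m + m) =
      (Polynomial.C ((2 ^ m * (m.factorial : E)) ^ 2) * dF (-(Js E m * N))).coeff (m + m) :=
    congrArg (fun p : Polynomial E => p.coeff (m + m)) (Polynomial.coe_injective _ h1)
  rw [Polynomial.coeff_mul_add_eq_of_natDegree_le (pfP_deg N) (pfP_deg N), pfP_top, Polynomial.coeff_C_mul] at h3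
  have h4 : m + m = Fintype.card (Fin (2 * m)) := by rw [Fintype.card_fin]; ring
  rw [h4, dF_top, Matrix.det_neg, Matrix.det_mul, Js_det, one_mul, Fintype.card_fin, pow_mul] at h3
  rw [h3]
  norm_num

end Pool.Agent.Lib.MP_ccbbf6_gt.L5
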