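import Pool.Agent.Lib.MP_ccbbf6_gt.L5.EG6
import Pool.Agent.Lib.MP_ccbbf6_gt.L5.EG8

/-!
# Level 5, EG9: the square of the Euler form is the top Pontryagin form, all even ranks (helper13)

* `pfo_sq` : algebra;
* `eulG_sqO`, `eulG_sqB` : for spaces and for basic forms, `e^2 = (2 pi)^(- 2 m) c_(2m)` as forms;
* `hEG_sq..`, `hFG_sq..` : classes.
-/

set_option autoImplicit false
set_option maxSynthPendingDepth 3
set_option linter.unusedSectionVars false

open Matrix Function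

noncomputable section

namespace Pool.Agent.Lib.MP_ccbbf6_gt.L5

open L4 L4.FR

/-! ### algebra -/

section comm

variable {ι κ : Type*} [Fintype ι] [DecidableEq ι] [Fintype κ] [DecidableEq κ] {r m : ℕ} {E : Type*} [CommRing E]

variable {P : Matrix ι ι E} {o : (Fin r → ι) → E}

theorem push_alt (h : Or r P o) (u : Matrix κ ι E) (σ : Equiv.Perm (Fin r)) (K : Fin r → κ) :
    push u o (K ∘ σ) = ((Equiv.Perm.sign σ : ℤ) : E) * push u o K := by
  unfold push
  rw [sum_perm σ, Finset.mul_sum]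
  refine Finset.sum_congr rfl fun I _ => ?_
  rw [h.alt]
  have e1 : ∏ k, u ((K ∘ σ) k) ((I ∘ σ) k) = ∏ k, u (K k) (I k) := Equiv.prod_comp σ fun k => u (K k) (I k)
  rw [e1]
  ring

theorem push_rk (h : Or r P o) (u : Matrix κ ι E) (K L : Fin r → κ) :
    push u o K * push u o L = det (Matrix.of fun k l => (u * P * uᵀ) (K k) (L l)) := by
  have h0 : ∀ J : Fin r → ι, (fun I => o I * o J) = push P (fun I => o I * o J) := by
    intro J
    funext I
    unfold push
    rw [← h.full I, Finset.sum_mul]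
    exact Finset.sum_congr rfl fun _ _ => mul_assoc _ _ _
  unfold push
  rw [Finset.sum_mul_sum]
  have e1 : ∀ I J : Fin r → ι, (∏ k, u (K k) (I k)) * o I * ((∏ k, u (L k) (J k)) * o J) =
      ∑ σ : Equiv.Perm (Fin r), ((Equiv.Perm.sign σ : ℤ) : E) *
        ∏ k, (u (K (σ k)) (I (σ k)) * (P (I (σ k)) (J k) * u (L k) (J k))) := by
    intro I J
    have e2 : (∏ k, u (K k) (I k)) * o I * ((∏ k, u (L k) (J k)) * o J) =
        (∏ k, u (K k) (I k)) * (∏ k, u (L k) (J k)) * (o I * o J) := by ring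
    rw [e2, h.rk, Matrix.det_apply', Finset.mul_sum]
    refine Finset.sum_congr rfl fun σ _ => ?_
    rw [Finset.prod_mul_distrib, Finset.prod_mul_distrib, Equiv.prod_comp σ fun k => u (K k) (I k)]
    simp only [Matrix.of_apply]
    ring
  simp only [e1]
  have e3 : ∀ I : Fin r → ι, ∑ J : Fin r → ι, ∑ σ : Equiv.Perm (Fin r), ((Equiv.Perm.sign σ : ℤ) : E) *
        ∏ k, (u (K (σ k)) (I (σ k)) * (P (I (σ k)) (J k) * u (L k) (J k))) =
      ∑ σ : Equiv.Perm (Fin r), ((Equiv.Perm.sign σ : ℤ) : E) *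
        ∏ k, (u (K (σ k)) (I (σ k)) * (P * uᵀ) (I (σ k)) (L k)) := by
    intro I
    rw [Finset.sum_comm]
    refine Finset.sum_congr rfl fun σ _ => ?_
    rw [← Finset.mul_sum]
    congr 1
    have e4 := Fintype.prod_sum (fun (k : Fin r) (j : ι) => u (K (σ k)) (I (σ k)) * (P (I (σ k)) j * u (L k) j))
    rw [← e4]
    refine Finset.prod_congr rfl fun k _ => ?_
    rw [← Finset.mul_sum]
    rfl
  simp only [e3]
  rw [Finset.sum_comm, Matrix.det_apply']
  refine Finset.sum_congr rfl fun σ _ => ?_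
  rw [← Finset.mul_sum]
  congr 1
  rw [sum_perm σ⁻¹]
  have e5 : ∀ I : Fin r → ι, ∏ k, (u (K (σ k)) ((I ∘ ⇑σ⁻¹) (σ k)) * (P * uᵀ) ((I ∘ ⇑σ⁻¹) (σ k)) (L k)) =
      ∏ k, (u (K (σ k)) (I k) * (P * uᵀ) (I k) (L k)) := by
    intro I
    refine Finset.prod_congr rfl fun k _ => ?_
    simp
  simp only [e5]
  have e4 := Fintype.prod_sum (fun (k : Fin r) (j : ι) => u (K (σ k)) j * (P * uᵀ) j (L k))
  rw [← e4, Matrix.mul_assoc]
  rfl

variable [Algebra ℝ E]

theorem pfo_smul (c : E) (o : (Fin (2 * m) → ι) → E) (M : Matrix ι ι E) :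
    pfo (fun I => c * o I) M = c * pfo o M := by
  unfold pfo
  rw [Finset.mul_sum]
  exact Finset.sum_congr rfl fun I _ => mul_assoc _ _ _

/-- **the square of the Pfaffian functional** for a split projection -/
theorem pfo_sq {P R : Matrix ι ι E} {o : (Fin (2 * m) → ι) → E} (h : Or (2 * m) P o) {a : Matrix ι (Fin (2 * m)) E}
    {b : Matrix (Fin (2 * m)) ι E} (h1 : a * b = P) (h2 : b * a = 1) (hc : P * R = R * P) (ht : (P * R)ᵀ = -(P * R)) :
    pfo o (P * R) * pfo o (P * R) = (2 ^ m * (m.factorial : E)) ^ 2 * elc (fun k => trace (P * R ^ k)) (2 * m) := by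
  obtain ⟨d, hd⟩ : ∃ d, d = push b o id := ⟨_, rfl⟩
  have hb : push b o = fun I => d * ep E (2 * m) I := funext fun I => by
    rw [hd]
    exact alt_eq (push_alt h b) I
  have ho : o = push a (push b o) := by
    rw [← push_comp, h1, push_self h]
  obtain ⟨N, hN⟩ : ∃ N, N = aᵀ * (P * R) * a := ⟨_, rfl⟩
  have hNt : Nᵀ = -N := by
    rw [hN, Matrix.transpose_mul, Matrix.transpose_mul, ht, Matrix.transpose_transpose, Matrix.neg_mul, Matrix.mul_neg,
      ← Matrix.mul_assoc]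
  have e1 : pfo o (P * R) = d * pfo (ep E (2 * m)) N := by
    have e2 : pfo o (P * R) = pfo (push a (push b o)) (P * R) := congrArg (fun z => pfo z (P * R)) ho
    rw [e2, pfo_push, hb, ← hN, pfo_smul]
  have hN2 : N = aᵀ * a * (b * R * a) := by
    rw [hN, ← h1]
    simp only [Matrix.mul_assoc]
  have hd2 : d * d * det (aᵀ * a) = 1 := by
    rw [hd, push_rk h b]
    have e3 : (Matrix.of fun k l => (b * P * bᵀ) (id k) (id l)) = b * P * bᵀ := rfl
    rw [e3, ← Matrix.det_mul]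
    have e4 : b * P * bᵀ * (aᵀ * a) = 1 := by
      have e5 : bᵀ * aᵀ = P := by rw [← Matrix.transpose_mul, h1, h.sym]
      calc b * P * bᵀ * (aᵀ * a) = b * P * (bᵀ * aᵀ) * a := by simp only [Matrix.mul_assoc]
        _ = b * (P * P) * a := by
            rw [e5]
            simp only [Matrix.mul_assoc]
        _ = (b * a) * (b * a) := by
            rw [h.idem, ← h1]
            simp only [Matrix.mul_assoc]
        _ = 1 := by rw [h2, Matrix.one_mul]
    rw [e4, Matrix.det_one]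
  have e6 : elc (fun k => trace (P * R ^ k)) (2 * m) = det (b * R * a) := by
    have e7 : (fun k => trace (P * R ^ k)) = fun k => trace ((b * R * a) ^ k) := funext fun k => trace_split hc h1 h2 k
    have e8 := elc_det (b * R * a)
    rw [Fintype.card_fin] at e8
    rw [e7, e8]
  calc pfo o (P * R) * pfo o (P * R) = d * d * (pfo (ep E (2 * m)) N * pfo (ep E (2 * m)) N) := by
        rw [e1]
        ring
    _ = d * d * ((2 ^ m * (m.factorial : E)) ^ 2 * (det (aᵀ * a) * det (b * R * a))) := by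
        rw [pf_sq hNt, ← Matrix.det_mul, ← hN2]
    _ = (d * d * det (aᵀ * a)) * ((2 ^ m * (m.factorial : E)) ^ 2 * det (b * R * a)) := by ring
    _ = _ := by rw [hd2, one_mul, e6]

end comm

/-! ### spaces -/

section space

variable {X : Space} {ι : Type*} [Fintype ι] [DecidableEq ι] {m : ℕ}

/-- split at a point, with the rank given by the trace -/
theorem exists_split' {P : Matrix ι ι ℂ} (hP : P * P = P) {r : ℕ} (ht : trace P = r) :
    ∃ (a : Matrix ι (Fin r) ℂ) (b : Matrix (Fin r) ι ℂ), a * b = P ∧ b * a = 1 := by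
  obtain ⟨a, b, h1, h2⟩ := exists_split hP
  have h3 : trace P = (P.rank : ℂ) := by
    have e1 : trace P = trace (b * a) := by
      conv_lhs => rw [← h1]
      exact Matrix.trace_mul_comm _ _
    rw [e1, h2, Matrix.trace_one, Fintype.card_fin]
  have h4 : P.rank = r := by
    rw [ht] at h3
    exact (Nat.cast_injective h3).symm
  obtain ⟨q, hq⟩ : ∃ q, q = P.rank := ⟨_, rfl⟩
  rw [← hq] at h4
  revert a b
  rw [← hq, h4]
  intro a b h1 h2
  exact ⟨a, b, h1, h2⟩

theorem ZG_sqC {P : Matrix ι ι (CB (SF X))} {o : (Fin (2 * m) → ι) → CB (SF X)} (h : Or (2 * m) P o) :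
    ZG (FO X).C P o * ZG (FO X).C P o =
      ((2 ^ m * (m.factorial : ℝ)) ^ 2) • (GC (GO X)).incZ (GDA.cf ((FO X).C.idem h.idem) (2 * m)) := by
  have hI := (FO X).C.idem h.idem
  refine ve_ext fun k p z => ?_
  obtain ⟨f, hf⟩ : ∃ f : CB (SF X) →ₐ[ℝ] Ek k, f = (ve p z).comp (FO X).C.e := ⟨_, rfl⟩
  have hfn : ∀ x, f x = cE k (vlC (p.1 z) x) := fun x => by
    rw [hf]
    exact ve_fn p z x
  have hz : Or (2 * m) (P.map f) (fun I => f (o I)) := h.map' (f : CB (SF X) →+* Ek k)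
  have hP' : P.map (vlC (p.1 z)) * P.map (vlC (p.1 z)) = P.map (vlC (p.1 z)) := by
    rw [← Matrix.map_mul, h.idem]
  have htr : trace (P.map (vlC (p.1 z))) = ((2 * m : ℕ) : ℂ) := by
    have h1 := congrArg (vlC (p.1 z)) h.tr
    unfold trace at h1 ⊢
    rw [map_sum, map_natCast] at h1
    exact h1
  obtain ⟨a, b, h1, h2⟩ := exists_split' hP' htr
  obtain ⟨R, hR⟩ : ∃ R : Matrix ι ι (Ek k), R = hI.evR.lift.map (ve p z) := ⟨_, rfl⟩
  have hPz : P.map f = (P.map (vlC (p.1 z))).map (cE k) := Matrix.ext fun i l => hfn (P i l)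
  have hPe : hI.ev.lift.map (ve p z) = P.map f := by
    rw [hf]
    rfl
  have hcomm : P.map f * R = R * P.map f := by
    rw [hR, ← hPe, ← Matrix.map_mul, ← Matrix.map_mul]
    congr 1
    refine GDA.val_inj ?_
    rw [GDA.val_mul, GDA.val_mul, GDA.Ev.lift_map, GDA.Ev.lift_map, hI.comm]
  have hRe : (Re (FO X).C P).map (ve p z) = P.map f * R := by
    have e1 : Re (FO X).C P = hI.ev.lift * hI.evR.lift := by
      refine GDA.val_inj ?_
      rw [GDA.val_mul, GDA.Ev.lift_map, GDA.Ev.lift_map]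
      rfl
    rw [e1, Matrix.map_mul, hPe, ← hR]
  have hanti : (P.map f * R)ᵀ = -(P.map f * R) := by
    rw [← hRe]
    refine Matrix.ext fun i j => ?_
    change ve p z (Re (FO X).C P j i) = -(ve p z (Re (FO X).C P i j))
    rw [← map_neg]
    congr 1
    exact Subtype.ext (Rv_anti h.idem h.sym j i)
  have s1 : a.map (cE k) * b.map (cE k) = P.map f := by rw [← Matrix.map_mul, h1, hPz]
  have s2 : b.map (cE k) * a.map (cE k) = 1 := by
    rw [← Matrix.map_mul, h2]
    exact Matrix.map_one _ (map_zero _) (map_one _)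
  have key := pfo_sq hz s1 s2 hcomm hanti
  have e1 : ve p z (ZG (FO X).C P o) = pfo (fun I => f (o I)) (P.map f * R) := by
    have e2 := pfo_map (ve p z : (GC (GO X)).Ee →+* Ek k) (fun I => (FO X).C.e (o I)) (Re (FO X).C P)
    have e3 : (Re (FO X).C P).map (ve p z : (GC (GO X)).Ee →+* Ek k) = P.map f * R := hRe
    have e4 : (fun I => (ve p z : (GC (GO X)).Ee →+* Ek k) ((FO X).C.e (o I))) = fun I => f (o I) := by
      rw [hf]
      rfl
    rw [e3, e4] at e2
    exact e2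
  have e2 : ve p z ((GC (GO X)).incZ (GDA.cf hI (2 * m))) = elc (fun i => trace (P.map f * R ^ i)) (2 * m) := by
    unfold GDA.cf
    rw [map_elc, map_elc]
    congr 1
    funext i
    rw [GDA.incZ_zps, hR, ← hPe]
    have e3 : ∀ M : Matrix ι ι (GC (GO X)).Ee, ve p z (trace M) = trace (M.map (ve p z)) := by
      intro M
      unfold trace
      rw [map_sum]
      rfl
    have e4 : ∀ (M : Matrix ι ι (GC (GO X)).Ee) (i : ℕ), (M ^ i).map (ve p z) = M.map (ve p z) ^ i := by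
      intro M i
      exact map_pow (ve p z).mapMatrix M i
    rw [e3, Matrix.map_mul, e4]
  rw [map_mul, e1, key, map_smul, e2, Algebra.smul_def]
  congr 1
  rw [map_pow, map_mul, map_pow, map_ofNat, map_natCast]

/-- the identity `e^2 = (2 pi)^(-2m) c_(2m)` of forms -/
def SqG {A : Type*} [CommRing A] [Algebra ℝ A] {B : Type*} [Ring B] [Algebra ℝ B] {G : GDA B} (φ : Fun0 A G) : Prop :=
  ∀ {ι : Type} [Fintype ι] [DecidableEq ι] {m : ℕ} {P : Matrix ι ι A} {o : (Fin (2 * m) → ι) → A}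
    (h : Or (2 * m) P o), eulG φ P o * eulG φ P o =
      (((2 * Real.pi) ^ (2 * m))⁻¹) • ((GDA.cf (φ.idem h.idem) (2 * m) : G.Zc) : B)

theorem eulG_of_ZG {A : Type*} [CommRing A] [Algebra ℝ A] {B : Type*} [Ring B] [Algebra ℝ B] {G : GDA B} {φ : Fun0 A G}
    {P : Matrix ι ι A} {o : (Fin (2 * m) → ι) → A} (h : Or (2 * m) P o)
    (hZ : ZG φ P o * ZG φ P o = ((2 ^ m * (m.factorial : ℝ)) ^ 2) • G.incZ (GDA.cf (φ.idem h.idem) (2 * m))) :
    eulG φ P o * eulG φ P o = (((2 * Real.pi) ^ (2 * m))⁻¹) • ((GDA.cf (φ.idem h.idem) (2 * m) : G.Zc) : B) := by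
  unfold eulG
  have h1 : ((ZG φ P o : G.Ee) : B) * ((ZG φ P o : G.Ee) : B) =
      ((2 ^ m * (m.factorial : ℝ)) ^ 2) • ((GDA.cf (φ.idem h.idem) (2 * m) : G.Zc) : B) := congrArg Subtype.val hZ
  rw [smul_mul_smul_comm, h1, smul_smul]
  congr 1
  have hp := Real.pi_ne_zero
  have hf : (m.factorial : ℝ) ≠ 0 := Nat.cast_ne_zero.2 (Nat.factorial_ne_zero m)
  have h4 : ((4 * Real.pi) ^ m : ℝ) = 2 ^ m * (2 * Real.pi) ^ m := by
    rw [← mul_pow]
    congr 1
    ring
  rw [h4, pow_mul (2 * Real.pi) 2 m, ← pow_mul, mul_comm 2 m, pow_mul]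
  field_simp

theorem sqG_C : SqG (FO X).C := fun h => eulG_of_ZG h (ZG_sqC h)

theorem sqG_inj {A A' : Type*} [CommRing A] [Algebra ℝ A] [CommRing A'] [Algebra ℝ A'] {B B' : Type*} [Ring B]
    [Algebra ℝ B] [Ring B'] [Algebra ℝ B'] {G : GDA B} {G' : GDA B'} {φ : Fun0 A G} {φ' : Fun0 A' G'} (F : FHom φ φ')
    (hF : Injective F.h.f) (h' : SqG φ') : SqG φ := by
  intro ι _ _ m P o h
  refine hF ?_
  have h2 : Or (2 * m) (P.map F.g) (fun I => F.g (o I)) := h.map' (F.g : A →+* A')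
  have h1 := h' h2
  rw [map_mul, map_smul, F.eulG, h1]
  congr 1
  have h3 := GDA.map_cf F.h (φ.idem h.idem) (2 * m)
  have h4 : ((GDA.cf (φ'.idem h2.idem) (2 * m) : G'.Zc) : B') = F.h.f ((GDA.cf (φ.idem h.idem) (2 * m) : G.Zc) : B) := by
    have h5 : F.h.f ((GDA.cf (φ.idem h.idem) (2 * m) : G.Zc) : B) =
        ((F.h.zc (GDA.cf (φ.idem h.idem) (2 * m)) : G'.Zc) : B') := rfl
    rw [h5, h3]
    congr 2
    exact (F.mf P).symm
  exact h4

theorem sqG_O : SqG (FO X) := sqG_inj (FHom.ofR (FO X)) (fun _ _ e => CB.ofR_inj e) sqG_C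

theorem sqG_B (c : Circ X) : SqG (FB c) := sqG_inj (FHom.inc c) Subtype.val_injective sqG_O

theorem sqG_BC (c : Circ X) : SqG (FB c).C := sqG_inj (FHom.cx (FHom.inc c))
  (fun _ _ e => CB.ext (Subtype.ext (congrArg CB.re e)) (Subtype.ext (congrArg CB.im e))) sqG_C

end space

/-! ### classes -/

section classes

variable {ι : Type} [Fintype ι] [DecidableEq ι] {m n : ℕ} {A A' : Type*} [CommRing A] [Algebra ℝ A] [CommRing A']
  [Algebra ℝ A'] {B B' : Type*} [Ring B] [Algebra ℝ B] [Ring B'] [Algebra ℝ B'] {G : GDA B} {G' : GDA B'} {φ : Fun0 A G}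
  {φ' : Fun0 A' G'} {P : Matrix ι ι A}

/-- Pontryagin classes -/
def hp (φ : Fun0 A G) {P : Matrix ι ι A} (hP : P * P = P) (k : ℕ) : G.HE :=
  (((2 * Real.pi) ^ (2 * k))⁻¹) • GDA.hc (φ.idem hP) (2 * k)

theorem hEG_sq (hs : SqG φ) {o : (Fin (2 * m) → ι) → A} (h : Or (2 * m) P o) :
    hEG φ h * hEG φ h = hp φ h.idem m := by
  unfold hEG hp
  rw [GDA.cl_mul, ← GDA.mk_cf]
  have h1 : (((2 * Real.pi) ^ (2 * m))⁻¹ : ℝ) • Ideal.Quotient.mk G.Ex (GDA.cf (φ.idem h.idem) (2 * m)) =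
      Ideal.Quotient.mk G.Ex ((((2 * Real.pi) ^ (2 * m))⁻¹ : ℝ) • GDA.cf (φ.idem h.idem) (2 * m)) := rfl
  rw [h1]
  unfold GDA.cl
  congr 1
  exact Subtype.ext (hs h)

/-- removing a unit section does not change the Pontryagin classes -/
theorem hp_red (C : Cyl G G') {y : ι → A} (hP : P * P = P) (hs : Pᵀ = P) (hy : Sec P y)
    (hR : redP P y * redP P y = redP P y) (k : ℕ) : hp φ hR k = hp φ hP k := by
  unfold hp GDA.hc
  congr 1
  exact elc_congr (fun j => hps_red C hP hs hy hR (Nat.succ_ne_zero j)) _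

/-- `f^2 = p_n` -/
theorem hFG_sq (hs : SqG φ) (C : Cyl G G') {o : (Fin (2 * n + 1) → ι) → A} {y : ι → A} (h : Or (2 * n + 1) P o)
    (hy : Sec P y) : hFG φ h hy * hFG φ h hy = hp φ h.idem n := by
  rw [hFG_eq, smul_mul_smul_comm, hEG_sq hs, hp_red C h.idem h.sym hy (h.red hy).idem, ← mul_pow]
  norm_num

end classes

end Pool.Agent.Lib.MP_ccbbf6_gt.L5
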