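import Pool.Agent.Lib.MP_ccbbf6_gt.L5.NW

/-!
# Level 5, EGC0: elementary symmetric functions of shifted variables (helper13)

`elc_shift` : `e_q (x_1 + t, .., x_q + t) = ∑ t^(q - j) e_j(x)`; `elc_shiftM` for `tr (R + t P)^k`; `elc_odd`.
-/

set_option autoImplicit false
set_option maxSynthPendingDepth 3
set_option linter.unusedSectionVars false

open Polynomial Finset

noncomputable section

namespace Pool.Agent.Lib.MP_ccbbf6_gt.L5.EGC

variable {A : Type*} [CommRing A] [Algebra ℝ A]

theorem ecast (n : ℕ) {x y : A} (h : ((n : A) + 1) * x = ((n : A) + 1) * y) : x = y := by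
  have h1 : ∀ z : A, z = (((n : ℝ) + 1)⁻¹) • (((n : A) + 1) * z) := by
    intro z
    have h2 : ((n : A) + 1) * z = ((n : ℝ) + 1) • z := by
      rw [Algebra.smul_def, map_add, map_natCast, map_one]
    have h3 : ((n : ℝ) + 1) ≠ 0 := by positivity
    rw [h2, smul_smul, inv_mul_cancel₀ h3, one_smul]
  rw [h1 x, h, ← h1 y]

/-- Newton's recursion -/
theorem newton (p : ℕ → A) (n : ℕ) :
    ((n : A) + 1) * elc p (n + 1) = ∑ k ∈ range (n + 1), (-1) ^ k * (elc p (n - k) * p (k + 1)) := by
  rw [elc_succ]
  have h2 : ∀ z : A, ((n : A) + 1) * z = ((n : ℝ) + 1) • z := fun z => by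
    rw [Algebra.smul_def, map_add, map_natCast, map_one]
  have h3 : ((n : ℝ) + 1) ≠ 0 := by positivity
  rw [h2, smul_smul, mul_inv_cancel₀ h3, one_smul]

/-- the derivative of the elementary symmetric functions -/
theorem der_elc {p : ℕ → A[X]} {q : ℕ} (h0 : p 0 = (q : A[X]))
    (hp : ∀ k, derivative (p (k + 1)) = ((k : A[X]) + 1) * p k) (n : ℕ) :
    derivative (elc p (n + 1)) = ((q : A[X]) - n) * elc p n := by
  induction n using Nat.strong_induction_on with
  | _ n ih =>
    refine ecast n ?_
    have e0 : ((n : A[X]) + 1) * derivative (elc p (n + 1)) = derivative (((n : A[X]) + 1) * elc p (n + 1)) := by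
      rw [derivative_mul]
      have h1 : derivative ((n : A[X]) + 1) = 0 := by
        have h2 : ((n : A[X]) + 1) = ((n + 1 : ℕ) : A[X]) := by push_cast; rfl
        rw [h2, derivative_natCast]
      rw [h1, zero_mul, zero_add]
    rw [e0, newton, derivative_sum]
    have e1 : ∀ k ∈ range (n + 1), derivative ((-1 : A[X]) ^ k * (elc p (n - k) * p (k + 1))) =
        (-1) ^ k * (derivative (elc p (n - k)) * p (k + 1)) + (-1) ^ k * (elc p (n - k) * (((k : A[X]) + 1) * p k)) := by
      intro k _
      have h1 : derivative ((-1 : A[X]) ^ k) = 0 := by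
        rcases neg_one_pow_eq_or A[X] k with h | h
        · rw [h, derivative_one]
        · rw [h, derivative_neg, derivative_one, neg_zero]
      rw [derivative_mul, h1, zero_mul, zero_add, derivative_mul, hp, mul_add]
    rw [sum_congr rfl e1, sum_add_distrib, sum_range_succ]
    have e2 : derivative (elc p (n - n)) = 0 := by
      rw [Nat.sub_self, elc_zero, derivative_one]
    rw [e2, zero_mul, mul_zero, add_zero, sum_range_succ']
    rw [pow_zero, one_mul, Nat.sub_zero, Nat.cast_zero, zero_add, one_mul, h0]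
    have e3 : ∀ k ∈ range n, (-1 : A[X]) ^ k * (derivative (elc p (n - k)) * p (k + 1)) +
        (-1) ^ (k + 1) * (elc p (n - (k + 1)) * ((((k + 1 : ℕ) : A[X]) + 1) * p (k + 1))) =
        ((q : A[X]) - n - 1) * ((-1) ^ k * (elc p (n - (k + 1)) * p (k + 1))) := by
      intro k hk
      have hk' : k < n := mem_range.1 hk
      obtain ⟨m, hm⟩ : ∃ m, n = m + k + 1 := ⟨n - k - 1, by omega⟩
      have h1 : n - k = m + 1 := by omega
      have h2 : n - (k + 1) = m := by omega
      rw [h1, h2, ih m (by omega), hm]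
      push_cast
      ring
    rw [← add_assoc, ← sum_add_distrib, sum_congr rfl e3, ← mul_sum]
    rcases Nat.eq_zero_or_pos n with hn | hn
    · subst hn
      simp only [range_zero, sum_empty, Nat.cast_zero]
      ring
    · obtain ⟨m, rfl⟩ : ∃ m, n = m + 1 := ⟨n - 1, by omega⟩
      have h4 := newton p m
      have h5 : ∑ k ∈ range (m + 1), (-1 : A[X]) ^ k * (elc p (m + 1 - (k + 1)) * p (k + 1)) =
          ((m : A[X]) + 1) * elc p (m + 1) := by
        rw [h4]
        exact sum_congr rfl fun k _ => by rw [Nat.add_sub_add_right]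
      rw [h5]
      push_cast
      ring

/-- the shifted power sums as polynomials -/
def shp (s : ℕ → A) (k : ℕ) : A[X] := ∑ i ∈ range (k + 1), (k.choose i : A[X]) * (X ^ (k - i) * C (s i))

theorem shp_zero (s : ℕ → A) : shp s 0 = C (s 0) := by
  unfold shp
  simp

theorem der_shp (s : ℕ → A) (k : ℕ) : derivative (shp s (k + 1)) = ((k : A[X]) + 1) * shp s k := by
  unfold shp
  rw [derivative_sum, sum_range_succ, Nat.sub_self, pow_zero, one_mul]
  have h1 : derivative (((k + 1).choose (k + 1) : A[X]) * C (s (k + 1))) = 0 := by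
    rw [derivative_mul, derivative_natCast, derivative_C]
    ring
  rw [h1, add_zero, mul_sum]
  refine sum_congr rfl fun i hi => ?_
  have hi' : i ≤ k := Nat.lt_succ_iff.1 (mem_range.1 hi)
  rw [derivative_mul, derivative_natCast, zero_mul, zero_add, derivative_mul, derivative_C, mul_zero, add_zero,
    Nat.succ_sub hi', derivative_X_pow]
  have h2 : ((k + 1).choose i : A[X]) * ((k - i : ℕ) + 1 : A[X]) = ((k : A[X]) + 1) * (k.choose i : A[X]) := by
    have h3 : (k + 1).choose i * (k - i + 1) = (k + 1) * k.choose i := by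
      have h4 := Nat.choose_mul_succ_eq k i
      rw [Nat.succ_sub hi'] at h4
      rw [← h4, mul_comm]
    have h5 := congrArg (Nat.cast : ℕ → A[X]) h3
    push_cast at h5
    exact h5
  rw [Nat.succ_sub_one]
  have h6 : (C (((k - i).succ : ℕ) : A) : A[X]) = ((k - i : ℕ) : A[X]) + 1 := by
    rw [map_natCast]
    push_cast
    ring
  rw [h6]
  linear_combination (X ^ (k - i) * C (s i)) * h2

/-- the expected polynomials -/
def exq (e : ℕ → A) (q n : ℕ) : A[X] := ∑ j ∈ range (n + 1), ((q - j).choose (n - j) : A[X]) * (X ^ (n - j) * C (e j))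

theorem der_exq (e : ℕ → A) (q n : ℕ) (hn : n + 1 ≤ q) :
    derivative (exq e q (n + 1)) = ((q : A[X]) - n) * exq e q n := by
  unfold exq
  rw [derivative_sum, sum_range_succ, Nat.sub_self, pow_zero, one_mul]
  have h1 : derivative (((q - (n + 1)).choose 0 : A[X]) * C (e (n + 1))) = 0 := by
    rw [derivative_mul, derivative_natCast, derivative_C]
    ring
  rw [h1, add_zero, mul_sum]
  refine sum_congr rfl fun i hi => ?_
  have hi' : i ≤ n := Nat.lt_succ_iff.1 (mem_range.1 hi)
  rw [derivative_mul, derivative_natCast, zero_mul, zero_add, derivative_mul, derivative_C, mul_zero, add_zero,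
    Nat.succ_sub hi', derivative_X_pow]
  have h2 : ((q - i).choose (n - i + 1) : A[X]) * ((n - i : ℕ) + 1 : A[X]) =
      ((q : A[X]) - n) * ((q - i).choose (n - i) : A[X]) := by
    have h3 : (q - i).choose (n - i + 1) * (n - i + 1) = (q - i).choose (n - i) * (q - i - (n - i)) :=
      Nat.choose_succ_right_eq _ _
    have h4 : q - i - (n - i) = q - n := by omega
    rw [h4] at h3
    have h5 := congrArg (Nat.cast : ℕ → A[X]) h3
    push_cast at h5
    have h6 : ((q - n : ℕ) : A[X]) = (q : A[X]) - n := by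
      rw [Nat.cast_sub (by omega)]
    rw [h6] at h5
    rw [h5, mul_comm]
  rw [Nat.succ_sub_one]
  have h6 : (C (((n - i).succ : ℕ) : A) : A[X]) = ((n - i : ℕ) : A[X]) + 1 := by
    rw [map_natCast]
    push_cast
    ring
  rw [h6]
  linear_combination (X ^ (n - i) * C (e i)) * h2

theorem eq_of_der {f g : A[X]} (h : derivative f = derivative g) (h0 : f.coeff 0 = g.coeff 0) : f = g := by
  ext n
  rcases n with _ | n
  · exact h0
  · have h1 := congrArg (fun w : A[X] => w.coeff n) h
    simp only [coeff_derivative] at h1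
    refine ecast n ?_
    rw [mul_comm, h1, mul_comm]

theorem coeff_exq (e : ℕ → A) (q n : ℕ) : (exq e q n).coeff 0 = e n := by
  unfold exq
  rw [finsetSum_coeff, sum_range_succ]
  have h1 : ∀ j ∈ range n, (((q - j).choose (n - j) : A[X]) * (X ^ (n - j) * C (e j))).coeff 0 = 0 := by
    intro j hj
    have hj' : n - j ≠ 0 := by
      have := mem_range.1 hj
      omega
    rw [mul_coeff_zero, mul_coeff_zero, coeff_X_pow, if_neg (Ne.symm hj'), zero_mul, mul_zero]
  rw [sum_eq_zero h1, zero_add, Nat.sub_self, pow_zero, one_mul, Nat.choose_zero_right, Nat.cast_one, one_mul, coeff_C_zero]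

theorem coeff_shp (s : ℕ → A) (k : ℕ) : (shp s k).coeff 0 = s k := by
  unfold shp
  rw [finsetSum_coeff, sum_range_succ]
  have h1 : ∀ j ∈ range k, ((k.choose j : A[X]) * (X ^ (k - j) * C (s j))).coeff 0 = 0 := by
    intro j hj
    have hj' : k - j ≠ 0 := by
      have := mem_range.1 hj
      omega
    rw [mul_coeff_zero, mul_coeff_zero, coeff_X_pow, if_neg (Ne.symm hj'), zero_mul, mul_zero]
  rw [sum_eq_zero h1, zero_add, Nat.sub_self, pow_zero, one_mul, Nat.choose_self, Nat.cast_one, one_mul, coeff_C_zero]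

theorem elc_shp (s : ℕ → A) {q : ℕ} (h0 : s 0 = q) (n : ℕ) (hn : n ≤ q) : elc (shp s) n = exq (elc s) q n := by
  have hc : (elc (shp s) n).coeff 0 = elc s n := by
    have h1 := map_elc ((aeval (0 : A) : A[X] →ₐ[A] A).restrictScalars ℝ) (shp s) n
    have h2 : ∀ f : A[X], ((aeval (0 : A) : A[X] →ₐ[A] A).restrictScalars ℝ) f = f.coeff 0 := fun f => by
      rw [AlgHom.restrictScalars_apply, ← coeff_zero_eq_aeval_zero]
    rw [h2] at h1
    rw [h1]
    congr 1
    funext k
    rw [h2, coeff_shp]
  induction n with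
  | zero =>
    unfold exq
    simp [elc_zero]
  | succ n ih =>
    refine eq_of_der ?_ ?_
    · have hc' : (elc (shp s) n).coeff 0 = elc s n := by
        have h1 := map_elc ((aeval (0 : A) : A[X] →ₐ[A] A).restrictScalars ℝ) (shp s) n
        have h2 : ∀ f : A[X], ((aeval (0 : A) : A[X] →ₐ[A] A).restrictScalars ℝ) f = f.coeff 0 := fun f => by
          rw [AlgHom.restrictScalars_apply, ← coeff_zero_eq_aeval_zero]
        rw [h2] at h1
        rw [h1]
        congr 1
        funext k
        rw [h2, coeff_shp]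
      rw [der_exq _ _ _ hn, ← ih (by omega) hc', der_elc (q := q) _ (der_shp s)]
      rw [shp_zero, h0, map_natCast]
    · rw [hc, coeff_exq]

/-- **the top elementary symmetric function of the shifted variables** -/
theorem elc_shift (s : ℕ → A) {q : ℕ} (h0 : s 0 = q) (t : A) :
    elc (fun k => ∑ i ∈ range (k + 1), (k.choose i : A) * (t ^ (k - i) * s i)) q =
      ∑ j ∈ range (q + 1), t ^ (q - j) * elc s j := by
  have h1 := map_elc ((aeval t : A[X] →ₐ[A] A).restrictScalars ℝ) (shp s) q
  rw [elc_shp s h0 q le_rfl] at h1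
  have h2 : ((aeval t : A[X] →ₐ[A] A).restrictScalars ℝ) (exq (elc s) q q) = ∑ j ∈ range (q + 1), t ^ (q - j) * elc s j := by
    rw [AlgHom.restrictScalars_apply]
    unfold exq
    rw [map_sum]
    refine sum_congr rfl fun j _ => ?_
    rw [Nat.choose_self, Nat.cast_one, one_mul, map_mul, map_pow, aeval_X, aeval_C]
    rfl
  rw [h2] at h1
  rw [h1]
  congr 1
  funext k
  rw [AlgHom.restrictScalars_apply]
  unfold shp
  rw [map_sum]
  refine sum_congr rfl fun j _ => ?_
  rw [map_mul, map_natCast, map_mul, map_pow, aeval_X, aeval_C]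
  rfl

open Matrix

variable {ι : Type*} [Fintype ι] [DecidableEq ι]

/-- power sums of `R + t P` -/
theorem trace_shift {P R : Matrix ι ι A} (hP : P * P = P) (h1 : P * R = R) (h2 : R * P = R) (t : A) (k : ℕ) :
    trace ((R + t • P) ^ (k + 1)) =
      ∑ i ∈ range (k + 1 + 1), ((k + 1).choose i : A) * (t ^ (k + 1 - i) * trace (P * R ^ i)) := by
  have hPR : Commute P R := h1.trans h2.symm
  have hPt : Commute P (t • (1 : Matrix ι ι A)) := (Commute.one_right P).smul_right t
  have e1 : R + t • P = P * (R + t • (1 : Matrix ι ι A)) := by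
    rw [Matrix.mul_add, h1, mul_smul_comm, Matrix.mul_one]
  have e2 : (R + t • P) ^ (k + 1) = P * (R + t • (1 : Matrix ι ι A)) ^ (k + 1) := by
    rw [e1, (hPR.add_right hPt).mul_pow]
    congr 1
    have : ∀ m : ℕ, P ^ (m + 1) = P := by
      intro m
      induction m with
      | zero => rw [zero_add, pow_one]
      | succ m ih => rw [pow_succ, ih, hP]
    exact this k
  have h3 : Commute R (t • (1 : Matrix ι ι A)) := (Commute.one_right R).smul_right t
  rw [e2, h3.add_pow, Matrix.mul_sum, trace_sum]
  refine sum_congr rfl fun i _ => ?_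
  rw [_root_.smul_pow, one_pow, mul_smul_comm, Matrix.mul_one]
  have e3 : t ^ (k + 1 - i) • R ^ i * (((k + 1).choose i : ℕ) : Matrix ι ι A) =
      (((k + 1).choose i : A) * t ^ (k + 1 - i)) • R ^ i := by
    rw [smul_mul_assoc, ← nsmul_eq_mul', ← Nat.cast_smul_eq_nsmul A, smul_smul, mul_comm]
  rw [e3, mul_smul_comm, trace_smul, smul_eq_mul, mul_assoc]

/-- **the top elementary symmetric function of `R + t P`** -/
theorem elc_shiftM {P R : Matrix ι ι A} {q : ℕ} (hP : P * P = P) (h1 : P * R = R) (h2 : R * P = R) (ht : trace P = q)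
    (t : A) : elc (fun k => trace ((R + t • P) ^ k)) q =
      ∑ j ∈ range (q + 1), t ^ (q - j) * elc (fun k => trace (P * R ^ k)) j := by
  rw [← elc_shift (fun k => trace (P * R ^ k)) (by rw [pow_zero, Matrix.mul_one, ht]) t]
  exact elc_congr (fun k => trace_shift hP h1 h2 t k) q

/-- odd elementary symmetric functions vanish if the odd power sums vanish -/
theorem elc_odd {p : ℕ → A} (h : ∀ k, p (2 * k + 1) = 0) (n : ℕ) : elc p (2 * n + 1) = 0 := by
  induction n using Nat.strong_induction_on with
  | _ n ih =>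
    refine ecast (2 * n) ?_
    rw [newton, mul_zero]
    refine sum_eq_zero fun k hk => ?_
    have hk' : k ≤ 2 * n := Nat.lt_succ_iff.1 (mem_range.1 hk)
    rcases Nat.even_or_odd' k with ⟨c, hc | hc⟩
    · rw [hc, h, mul_zero, mul_zero]
    · have h1 : 2 * n - k = 2 * (n - c - 1) + 1 := by omega
      rw [h1, ih (n - c - 1) (by omega), zero_mul, mul_zero]

end Pool.Agent.Lib.MP_ccbbf6_gt.L5.EGC
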