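import Pool.Agent.Lib.MP_ccbbf6_gt.L5.EGT3

/-!
# Level 5, EGT4: Euler forms of metric connections are closed; the twist `w = - a theta` (helper13)
-/

set_option autoImplicit false
set_option maxSynthPendingDepth 3
set_option linter.unusedSectionVars false

open Matrix Function

noncomputable section

namespace Pool.Agent.Lib.MP_ccbbf6_gt.L5

variable {ι : Type*} [Fintype ι] [DecidableEq ι] {n m : ℕ} {A : Type*} [CommRing A] [Algebra ℝ A] {B : Type*} [Ring B]
  [Algebra ℝ B] {G : GDA B} {φ : Fun0 A G} {P : Matrix ι ι A} {w : Matrix ι ι B}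

/-- the tensor of a matrix -/
def TM (M : Matrix ι ι G.Ee) (I : Fin (2 * m) → ι) : B := ((∏ a, M (I (s0 a)) (I (s1 a)) : G.Ee) : B)

theorem pfo_St (o : (Fin (2 * m) → ι) → A) (M : Matrix ι ι G.Ee) :
    ((pfo (fun I => φ.e (o I)) M : G.Ee) : B) = St φ o (TM M) := by
  unfold pfo St
  rw [val_sum]
  rfl

theorem TM_0 (v : ι → B) (M : Matrix ι ι G.Ee) (a : Fin m) (I : Fin (2 * m) → ι) :
    ∑ i, v i * TM M (update I (s0 a) i) = (∑ i, v i * (M i (I (s1 a)) : B)) *
      ((∏ b ∈ Finset.univ.erase a, M (I (s0 b)) (I (s1 b)) : G.Ee) : B) := by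
  rw [Finset.sum_mul]
  refine Finset.sum_congr rfl fun i _ => ?_
  unfold TM
  rw [upd_prod0 a I i (fun _ => M), mul_assoc]
  rfl

theorem TM_1 (v : ι → B) (M : Matrix ι ι G.Ee) (a : Fin m) (I : Fin (2 * m) → ι) :
    ∑ i, v i * TM M (update I (s1 a) i) = (∑ i, v i * (M (I (s0 a)) i : B)) *
      ((∏ b ∈ Finset.univ.erase a, M (I (s0 b)) (I (s1 b)) : G.Ee) : B) := by
  rw [Finset.sum_mul]
  refine Finset.sum_congr rfl fun i _ => ?_
  unfold TM
  rw [upd_prod1 a I i (fun _ => M), mul_assoc]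
  rfl

theorem Inv_TM {M : Matrix ι ι G.Ee} (hM : EInv φ P M) : Inv φ P (TM (m := m) M) := by
  intro k
  revert k
  refine pairs_ind ?_ ?_
  · intro a I
    rw [TM_0, hM.l]
    unfold TM
    rw [← Finset.mul_prod_erase Finset.univ _ (Finset.mem_univ a)]
    rfl
  · intro a I
    rw [TM_1, hM.r]
    unfold TM
    rw [← Finset.mul_prod_erase Finset.univ _ (Finset.mem_univ a)]
    rfl

/-- the Euler form of a metric connection is closed -/
theorem Cn.d_eulM (h : Cn φ P w) {o : (Fin (2 * m) → ι) → A} (ho : Or (2 * m) P o) {M : Matrix ι ι G.Ee}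
    (hM : EInv φ P M) (hb : P.map φ.f * (Matrix.of (cdv G w fun i j => (M i j : B))) * P.map φ.f = 0) :
    G.d (eulM φ o M) = 0 := by
  obtain ⟨Z, hZ⟩ : ∃ Z : Matrix ι ι B, Z = Matrix.of (cdv G w fun i j => (M i j : B)) := ⟨_, rfl⟩
  rw [← hZ] at hb
  unfold eulM
  rw [map_smul, pfo_St, h.d_St ho (Inv_TM hM)]
  have e1 : ∀ I : Fin (2 * m) → ι, G.d (TM M I) + ∑ k, ∑ i, w (I k) i * TM M (update I k i) =
      ∑ a, Z (I (s0 a)) (I (s1 a)) * ((∏ b ∈ Finset.univ.erase a, M (I (s0 b)) (I (s1 b)) : G.Ee) : B) := by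
    intro I
    have e2 : G.d (TM M I) = ∑ a, G.d (M (I (s0 a)) (I (s1 a)) : B) *
        ((∏ b ∈ Finset.univ.erase a, M (I (s0 b)) (I (s1 b)) : G.Ee) : B) := by
      unfold TM
      rw [d_prod]
    rw [e2, sum_pairs, ← Finset.sum_add_distrib]
    refine Finset.sum_congr rfl fun a _ => ?_
    rw [TM_0, TM_1, hZ, Matrix.of_apply]
    unfold cdv
    rw [add_mul, add_mul, add_assoc]
  have e2 : St φ o (fun I => G.d (TM M I) + ∑ k, ∑ i, w (I k) i * TM M (update I k i)) =
      St φ o (fun I => ∑ a, Z (I (s0 a)) (I (s1 a)) *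
        ((∏ b ∈ Finset.univ.erase a, M (I (s0 b)) (I (s1 b)) : G.Ee) : B)) := St_congr e1
  rw [e2, St_sum]
  have e3 : ∀ a ∈ (Finset.univ : Finset (Fin m)), St φ o (fun I => Z (I (s0 a)) (I (s1 a)) *
      ((∏ b ∈ Finset.univ.erase a, M (I (s0 b)) (I (s1 b)) : G.Ee) : B)) = 0 := by
    intro a _
    have u0 : ∀ (I : Fin (2 * m) → ι) (i : ι), (∏ b ∈ Finset.univ.erase a, M (update I (s0 a) i (s0 b))
        (update I (s0 a) i (s1 b)) : G.Ee) = ∏ b ∈ Finset.univ.erase a, M (I (s0 b)) (I (s1 b)) := by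
      intro I i
      refine Finset.prod_congr rfl fun b hb => ?_
      have hb' : b ≠ a := Finset.ne_of_mem_erase hb
      rw [update_of_ne (fun h => hb' (s0_inj h)), update_of_ne (s0_ne_s1 a b).symm]
    have u1 : ∀ (I : Fin (2 * m) → ι) (i : ι), (∏ b ∈ Finset.univ.erase a, M (update I (s1 a) i (s0 b))
        (update I (s1 a) i (s1 b)) : G.Ee) = ∏ b ∈ Finset.univ.erase a, M (I (s0 b)) (I (s1 b)) := by
      intro I i
      refine Finset.prod_congr rfl fun b hb => ?_
      have hb' : b ≠ a := Finset.ne_of_mem_erase hb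
      rw [update_of_ne (s0_ne_s1 b a), update_of_ne (fun h => hb' (s1_inj h))]
    have h1 : St φ o (fun I => Z (I (s0 a)) (I (s1 a)) *
        ((∏ b ∈ Finset.univ.erase a, M (I (s0 b)) (I (s1 b)) : G.Ee) : B)) =
        St φ o (fun I => (∑ i, φ.f (P (I (s0 a)) i) * Z i (I (s1 a))) *
        ((∏ b ∈ Finset.univ.erase a, M (I (s0 b)) (I (s1 b)) : G.Ee) : B)) := St_pr ho (s0 a) fun I => by
      rw [Finset.sum_mul]
      refine Finset.sum_congr rfl fun i _ => ?_
      simp only [u0]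
      rw [update_self, update_of_ne (s0_ne_s1 a a).symm, mul_assoc]
    have h2 : St φ o (fun I => (∑ i, φ.f (P (I (s0 a)) i) * Z i (I (s1 a))) *
        ((∏ b ∈ Finset.univ.erase a, M (I (s0 b)) (I (s1 b)) : G.Ee) : B)) = St φ o (fun _ => 0) :=
      St_pr ho (s1 a) fun I => by
        have e4 : ∀ j, φ.f (P (I (s1 a)) j) * ((∑ i, φ.f (P (update I (s1 a) j (s0 a)) i) *
            Z i (update I (s1 a) j (s1 a))) *
            ((∏ b ∈ Finset.univ.erase a, M (update I (s1 a) j (s0 b)) (update I (s1 a) j (s1 b)) : G.Ee) : B)) =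
            φ.f (P (I (s1 a)) j) * (∑ i, φ.f (P (I (s0 a)) i) * Z i j) *
            ((∏ b ∈ Finset.univ.erase a, M (I (s0 b)) (I (s1 b)) : G.Ee) : B) := by
          intro j
          simp only [u1]
          rw [update_self, update_of_ne (s0_ne_s1 a a), mul_assoc]
        simp only [e4]
        rw [← Finset.sum_mul, two_side ho.sym hb, zero_mul]
    rw [h1, h2, St_zero]
  rw [Finset.sum_eq_zero e3, smul_zero]

theorem Cn.cdv_Rte (h : Cn φ P w) (hP : P * P = P) : Matrix.of (cdv G w fun i j => (Rte h hP i j : B)) =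
    G.D (RT φ P w) + w * RT φ P w - RT φ P w * w := by
  refine Matrix.ext fun i j => ?_
  rw [Matrix.of_apply, Matrix.sub_apply, Matrix.add_apply, sub_eq_add_neg]
  unfold cdv
  congr 1
  rw [Matrix.mul_apply, ← Finset.sum_neg_distrib]
  refine Finset.sum_congr rfl fun m _ => ?_
  change w j m * RT φ P w i m = -(RT φ P w i m * w m j)
  have h1 : w m j = -w j m := congrFun (congrFun h.anti j) m
  rw [h1, mul_neg, neg_neg]
  exact (G.comm_even _ _ ((h.ev hP).app i m)).symm

theorem Cn.d_eulT (h : Cn φ P w) {o : (Fin (2 * m) → ι) → A} (ho : Or (2 * m) P o) :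
    G.d (eulM φ o (Rte h ho.idem)) = 0 := by
  refine h.d_eulM ho (h.EInv_Rte ho.idem ho.sym) ?_
  rw [h.cdv_Rte ho.idem]
  exact h.bianchi ho.idem

/-- the trivial connection form -/
theorem Cn_zero : Cn φ P (0 : Matrix ι ι B) where
  od := by
    unfold GDA.Od
    rw [GDA.S_zero, neg_zero]
  anti := by rw [Matrix.transpose_zero, neg_zero]
  l := Matrix.mul_zero _
  r := Matrix.zero_mul _

/-! ### the twist -/

/-- `w = - a theta` -/
def wA (φ : Fun0 A G) (a : B) (θ : Matrix ι ι A) : Matrix ι ι B := fun i j => -(a * φ.f (θ i j))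

variable {a : B} {θ : Matrix ι ι A}

theorem Cn_wA (ha : G.s a = -a) (hθ : θᵀ = -θ) (h1 : P * θ = θ) (h2 : θ * P = θ) : Cn φ P (wA φ a θ) where
  od := by
    unfold GDA.Od
    refine Matrix.ext fun i j => ?_
    change G.s (-(a * φ.f (θ i j))) = -(-(a * φ.f (θ i j)))
    rw [map_neg, map_mul, ha, φ.ev, neg_mul]
  anti := by
    refine Matrix.ext fun i j => ?_
    change -(a * φ.f (θ j i)) = -(-(a * φ.f (θ i j)))
    have h3 : θ j i = -θ i j := congrFun (congrFun hθ i) j
    rw [h3, map_neg, mul_neg]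
  l := by
    refine Matrix.ext fun i j => ?_
    rw [Matrix.mul_apply]
    change ∑ k, φ.f (P i k) * -(a * φ.f (θ k j)) = -(a * φ.f (θ i j))
    have h3 := congrFun (congrFun h1 i) j
    rw [Matrix.mul_apply] at h3
    rw [← h3, _root_.map_sum, Finset.mul_sum, ← Finset.sum_neg_distrib]
    refine Finset.sum_congr rfl fun k _ => ?_
    rw [mul_neg, cm1, map_mul]
  r := by
    refine Matrix.ext fun i j => ?_
    rw [Matrix.mul_apply]
    change ∑ k, -(a * φ.f (θ i k)) * φ.f (P k j) = -(a * φ.f (θ i j))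
    have h3 := congrFun (congrFun h2 i) j
    rw [Matrix.mul_apply] at h3
    rw [← h3, _root_.map_sum, Finset.mul_sum, ← Finset.sum_neg_distrib]
    refine Finset.sum_congr rfl fun k _ => ?_
    rw [neg_mul, mul_assoc, map_mul]

theorem sq_od (ha : G.s a = -a) : a * a = 0 := by
  have h1 := G.comm_odd _ _ ha ha
  have h2 : (2 : ℝ) • (a * a) = 0 := by
    rw [two_smul]
    nth_rewrite 1 [h1]
    exact neg_add_cancel _
  have h3 := congrArg (fun z => ((2 : ℝ)⁻¹) • z) h2
  simp only [smul_smul, smul_zero] at h3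
  rwa [inv_mul_cancel₀ (two_ne_zero : (2 : ℝ) ≠ 0), one_smul] at h3

/-- the twisted curvature -/
theorem RT_wA (ha : G.s a = -a) (h1 : P * θ = θ) (h2 : θ * P = θ)
    (h3 : P.map φ.f * G.D (θ.map φ.f) * P.map φ.f = 0) :
    RT φ P (wA φ a θ) = Rv φ P - Matrix.of fun i j => G.d a * φ.f (θ i j) := by
  have e1 : G.D (wA φ a θ) = -(Matrix.of fun i j => G.d a * φ.f (θ i j)) + Matrix.of fun i j => a * G.D (θ.map φ.f) i j := by
    refine Matrix.ext fun i j => ?_
    change G.d (-(a * φ.f (θ i j))) = -(G.d a * φ.f (θ i j)) + a * G.d (φ.f (θ i j))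
    rw [map_neg, G.d_mul, ha, neg_mul]
    abel
  have e2 : wA φ a θ * wA φ a θ = 0 := by
    refine Matrix.ext fun i j => ?_
    rw [Matrix.mul_apply]
    change ∑ k, -(a * φ.f (θ i k)) * -(a * φ.f (θ k j)) = 0
    refine Finset.sum_eq_zero fun k _ => ?_
    rw [neg_mul_neg]
    calc a * φ.f (θ i k) * (a * φ.f (θ k j)) = a * (φ.f (θ i k) * (a * φ.f (θ k j))) := mul_assoc _ _ _
      _ = a * (a * (φ.f (θ i k) * φ.f (θ k j))) := by rw [cm1]
      _ = a * a * (φ.f (θ i k) * φ.f (θ k j)) := (mul_assoc _ _ _).symm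
      _ = 0 := by rw [sq_od ha, zero_mul]
  have e3 : P.map φ.f * (Matrix.of fun i j => a * G.D (θ.map φ.f) i j) * P.map φ.f = 0 := by
    have e4 : P.map φ.f * (Matrix.of fun i j => a * G.D (θ.map φ.f) i j) * P.map φ.f =
        Matrix.of fun i j => a * (P.map φ.f * G.D (θ.map φ.f) * P.map φ.f) i j := by
      refine Matrix.ext fun i j => ?_
      rw [Matrix.of_apply, Matrix.mul_apply, Matrix.mul_apply, Finset.mul_sum]
      refine Finset.sum_congr rfl fun k _ => ?_
      rw [Matrix.mul_apply, Matrix.mul_apply, ← mul_assoc, Finset.mul_sum]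
      congr 1
      refine Finset.sum_congr rfl fun l _ => ?_
      exact cm1 _ _ _
    rw [e4, h3]
    refine Matrix.ext fun i j => ?_
    rw [Matrix.of_apply, Matrix.zero_apply, mul_zero]
  have e5 : P.map φ.f * (Matrix.of fun i j => G.d a * φ.f (θ i j)) * P.map φ.f =
      Matrix.of fun i j => G.d a * φ.f (θ i j) := by
    refine Matrix.ext fun i j => ?_
    have h4 : P * θ * P = θ := by rw [h1, h2]
    have h5 := congrArg φ.f (congrFun (congrFun h4 i) j)
    rw [Matrix.of_apply, ← h5, Matrix.mul_apply, Matrix.mul_apply, _root_.map_sum, Finset.mul_sum]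
    refine Finset.sum_congr rfl fun k _ => ?_
    rw [Matrix.mul_apply, Matrix.mul_apply, map_mul, ← mul_assoc, _root_.map_sum, Finset.mul_sum]
    congr 1
    refine Finset.sum_congr rfl fun l _ => ?_
    rw [map_mul]
    exact cm1 _ _ _
  unfold RT
  rw [e2, add_zero, e1, Matrix.mul_add, Matrix.add_mul, e3, add_zero, Matrix.mul_neg, Matrix.neg_mul, e5,
    sub_eq_add_neg]

end Pool.Agent.Lib.MP_ccbbf6_gt.L5
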