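import Pool.Agent.Lib.MP_ccbbf6_gt.L5.IC4s

/-!
# Level 5, file 4t: the Pfaffian of a skew hermitian endomorphism with values in even forms (helper61, for helper13)

`pfo_free`, `pfo_free'` : `P` hermitian idempotent over `CB A` of trace `q`, `F` a matrix over `CB G.Ee` (even forms), `F^* = -F`, `P F = F P`:
`pfo (oC q P) (rM F) = 2^q q! Re (i^q elc (tr (P F^k)) q)` (no relation between `F` and the curvature of `P`).
-/

set_option autoImplicit false
set_option maxSynthPendingDepth 3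
set_option linter.unusedSectionVars false

open Matrix

noncomputable section

namespace Pool.Agent.Lib.MP_ccbbf6_gt.L5.IC

open L4 L4.FR

variable {q : ℕ} {ι : Type} [Fintype ι] [DecidableEq ι] {A B : Type} [CommRing A] [Algebra ℝ A] [Ring B] [Algebra ℝ B]
  {G : GDA B} {φ : Fun0 A G}

/-- abstract form -/
theorem v_free {E E' : Type} [CommRing E] [Algebra ℝ E] [CommRing E'] [Algebra ℝ E'] (e : A →ₐ[ℝ] E) (v : E →ₐ[ℝ] E')
    (x : A →ₐ[ℝ] ℝ) (hv : ∀ f, v (e f) = algebraMap ℝ E' (x f)) {P : Matrix ι ι (CB A)} (hP : P * P = P)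
    (hs : ad P = P) (ht : trace P = (q : CB A)) {F : Matrix ι ι (CB E)} (hF : ad F = -F)
    (hc : P.map (CB.alg e) * F = F * P.map (CB.alg e)) :
    v (pfo (fun I => e (oC q P I)) (rM F)) =
      v ((2 ^ q * (q.factorial : ℝ)) • (CB.I ^ q * elc (fun k => trace (P.map (CB.alg e) * F ^ k)) q).re) := by
  obtain ⟨a0, h1, h2⟩ := pt_frame hP hs ht x
  obtain ⟨c, hcc⟩ : ∃ c : ℝ →ₐ[ℝ] E', c = Algebra.ofId ℝ E' := ⟨_, rfl⟩
  obtain ⟨a, ha⟩ : ∃ a, a = a0.map (CB.alg c) := ⟨_, rfl⟩
  obtain ⟨Pz, hPz⟩ : ∃ Pz, Pz = (P.map (CB.alg x)).map (CB.alg c) := ⟨_, rfl⟩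
  have h1' : a * ad a = Pz := by rw [ha, ad_map, ← Matrix.map_mul, h1, hPz]
  have h2' : ad a * a = 1 := by
    rw [ha, ad_map, ← Matrix.map_mul, h2]
    exact Matrix.map_one _ (map_zero _) (map_one _)
  have hPe : (P.map (CB.alg e)).map (CB.alg v) = Pz := by
    rw [hPz, hcc]
    exact Matrix.ext fun i j => CB.ext (hv _) (hv _)
  obtain ⟨N, hN⟩ : ∃ N : Matrix ι ι (CB E'), N = F.map (CB.alg v) := ⟨_, rfl⟩
  have hcomm : Pz * N = N * Pz := by rw [hN, ← hPe, ← Matrix.map_mul, ← Matrix.map_mul, hc]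
  have hNs : ad N = -N := by
    rw [hN, ad_map, hF]
    exact Matrix.ext fun i j => map_neg (CB.alg v) (F i j)
  have e1 : v (pfo (fun I => e (oC q P I)) (rM F)) = pfo (oC q Pz) (rM N) := by
    have e2 := pfo_mapT (m := q) (v : E →+* E') (fun I => e (oC q P I)) (rM F)
    have e3 : (rM F).map (v : E →+* E') = rM N := by
      rw [hN]
      exact rM_map v F
    have e4 : (fun I => (v : E →+* E') (e (oC q P I))) = oC q Pz := by
      funext I
      refine (hv _).trans ?_
      have e5 : (algebraMap ℝ E') (x (oC q P I)) = c (x (oC q P I)) := by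
        rw [hcc]
        rfl
      rw [e5, oC_map, oC_map, hPz]
    rw [e3, e4] at e2
    exact e2
  rw [e1, pfo_oC h1' h2' hNs hcomm, map_smul]
  congr 1
  have e2 : elc (fun k => trace (Pz * N ^ k)) q = CB.alg v (elc (fun k => trace (P.map (CB.alg e) * F ^ k)) q) := by
    rw [map_elc]
    congr 1
    funext k
    have e5 : ∀ M : Matrix ι ι (CB E), CB.alg v (trace M) = trace (M.map (CB.alg v)) := by
      intro M
      exact AddMonoidHom.map_trace (CB.alg v).toAddMonoidHom M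
    have e6 : ∀ (M : Matrix ι ι (CB E)) (i : ℕ), (M ^ i).map (CB.alg v) = M.map (CB.alg v) ^ i := by
      intro M i
      exact map_pow (CB.alg v).mapMatrix M i
    rw [e5, Matrix.map_mul, e6, hPe, hN]
  have e3 : CB.alg v (CB.I ^ q * elc (fun k => trace (P.map (CB.alg e) * F ^ k)) q) =
      CB.I ^ q * CB.alg v (elc (fun k => trace (P.map (CB.alg e) * F ^ k)) q) := by
    rw [map_mul, map_pow, I_map]
  rw [e2, ← e3]
  rfl

/-- **the Pfaffian of a skew hermitian endomorphism with values in even forms** -/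
theorem pfo_free (hφ : Pts φ) {P : Matrix ι ι (CB A)} (hP : P * P = P) (hs : ad P = P) (ht : trace P = (q : CB A))
    {F : Matrix ι ι (CB G.Ee)} (hF : ad F = -F) (hc : P.map (CB.alg φ.e) * F = F * P.map (CB.alg φ.e)) :
    pfo (fun I => φ.e (oC q P I)) (rM F) =
      (2 ^ q * (q.factorial : ℝ)) • (CB.I ^ q * elc (fun k => trace (P.map (CB.alg φ.e) * F ^ k)) q).re :=
  hφ _ _ fun _ _ _ v x hv => v_free φ.e v x hv hP hs ht hF hc

/-- the same for `P F = F = F P` -/
theorem pfo_free' (hφ : Pts φ) {P : Matrix ι ι (CB A)} (hP : P * P = P) (hs : ad P = P) (ht : trace P = (q : CB A))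
    {F : Matrix ι ι (CB G.Ee)} (hF : ad F = -F) (h1 : P.map (CB.alg φ.e) * F = F) (h2 : F * P.map (CB.alg φ.e) = F) :
    pfo (fun I => φ.e (oC q P I)) (rM F) =
      (2 ^ q * (q.factorial : ℝ)) • (CB.I ^ q * elc (fun k => trace (F ^ k)) q).re := by
  have h3 : elc (fun k => trace (P.map (CB.alg φ.e) * F ^ k)) q = elc (fun k => trace (F ^ k)) q :=
    elc_congr (fun j => by rw [pow_succ', ← Matrix.mul_assoc, h1]) q
  rw [pfo_free hφ hP hs ht hF (h1.trans h2.symm), h3]

end Pool.Agent.Lib.MP_ccbbf6_gt.L5.IC
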