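import Pool.Agent.Lib.MP_ccbbf6_gt.L5.EGC0
import Pool.Agent.Lib.MP_ccbbf6_gt.L5.EGT4
import Pool.Agent.Lib.MP_ccbbf6_gt.L5.EGW3
import Pool.Agent.Lib.MP_ccbbf6_gt.L5.IC4t

/-!
# Level 5, EGC1: the Euler form of `L ⊗ P_C` for a connection `P d - 2 π i a` (helper13)

`eC_eq` : the Euler form of the complexification `dP P` (index `ι ⊕ ι`) of a real bundle of rank `q`, twisted by the
connection form `a` of a line bundle, is `- ∑ (-1)^i (d a)^(q - 2 i) p_i`, `p_i = (2 π)^(-2 i) cf (2 i)`.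
-/

set_option autoImplicit false
set_option maxSynthPendingDepth 3
set_option linter.unusedSectionVars false

open Matrix Function

noncomputable section

namespace Pool.Agent.Lib.MP_ccbbf6_gt.L5.EGC

open L4 L4.FR IC

variable {q : ℕ} {ι : Type} [Fintype ι] [DecidableEq ι] {A B : Type} [CommRing A] [Algebra ℝ A] [Ring B] [Algebra ℝ B]
  {G : GDA B} {φ : Fun0 A G} {P : Matrix ι ι A} {a : B}

/-- the complexification -/
def cP (P : Matrix ι ι A) : Matrix ι ι (CB A) := P.map CB.ofR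

/-- the complexification as a real bundle -/
def dP (P : Matrix ι ι A) : Matrix (ι ⊕ ι) (ι ⊕ ι) A := fromBlocks P 0 0 P

theorem rM_cP : rM (cP P) = dP P := by
  unfold rM cP dP
  congr 1
  ext i j
  exact neg_zero

/-- the orientation of the complexification -/
def oG (q : ℕ) (P : Matrix ι ι A) : (Fin (2 * q) → ι ⊕ ι) → A := oC q (cP P)

/-- multiplication by `2 π i` -/
def thC (P : Matrix ι ι A) : Matrix (ι ⊕ ι) (ι ⊕ ι) A := (2 * Real.pi) • fromBlocks 0 (-P) P 0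

theorem cP_idem (hP : P * P = P) : cP P * cP P = cP P := by
  unfold cP
  rw [← Matrix.map_mul, hP]

theorem cP_ad (hs : Pᵀ = P) : ad (cP P) = cP P := by
  ext i j
  · exact congrFun (congrFun hs i) j
  · exact neg_zero

theorem cP_tr (ht : trace P = (q : A)) : trace (cP P) = (q : CB A) := by
  have h1 : trace (cP P) = CB.ofR (trace P) := (AddMonoidHom.map_trace (CB.ofR : A →ₐ[ℝ] CB A).toAddMonoidHom P).symm
  rw [h1, ht, map_natCast]

theorem dP_idem (hP : P * P = P) : dP P * dP P = dP P := by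
  unfold dP
  rw [fromBlocks_multiply, hP]
  simp

theorem dP_tr (hs : Pᵀ = P) : (dP P)ᵀ = dP P := by
  unfold dP
  rw [fromBlocks_transpose, hs, Matrix.transpose_zero]

theorem thC_l (hP : P * P = P) : dP P * thC P = thC P := by
  unfold dP thC
  rw [Matrix.mul_smul, fromBlocks_multiply]
  simp [hP]

theorem thC_r (hP : P * P = P) : thC P * dP P = thC P := by
  unfold dP thC
  rw [Matrix.smul_mul, fromBlocks_multiply]
  simp [hP]

theorem thC_anti (hs : Pᵀ = P) : (thC P)ᵀ = -thC P := by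
  unfold thC
  rw [Matrix.transpose_smul, fromBlocks_transpose, ← smul_neg, fromBlocks_neg, Matrix.transpose_neg, hs,
    Matrix.transpose_zero, neg_zero, neg_neg]

theorem dP_map : (dP P).map φ.f = fromBlocks (P.map φ.f) 0 0 (P.map φ.f) := by
  unfold dP
  rw [fromBlocks_map]
  congr 1 <;> exact Matrix.map_zero _ (map_zero _)

theorem thC_map : (thC P).map φ.f = (2 * Real.pi) • fromBlocks 0 (-(P.map φ.f)) (P.map φ.f) 0 := by
  ext i j
  rcases i with i | i <;> rcases j with j | j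
  · change φ.f ((2 * Real.pi) • (0 : A)) = (2 * Real.pi) • (0 : B)
    rw [smul_zero, smul_zero, map_zero]
  · change φ.f ((2 * Real.pi) • (-(P i j))) = (2 * Real.pi) • (-(φ.f (P i j)))
    rw [map_smul, map_neg]
  · change φ.f ((2 * Real.pi) • (P i j)) = (2 * Real.pi) • (φ.f (P i j))
    rw [map_smul]
  · change φ.f ((2 * Real.pi) • (0 : A)) = (2 * Real.pi) • (0 : B)
    rw [smul_zero, smul_zero, map_zero]

theorem thC_D (hP : P * P = P) : (dP P).map φ.f * G.D ((thC P).map φ.f) * (dP P).map φ.f = 0 := by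
  obtain ⟨p, hp⟩ : ∃ p, p = P.map φ.f := ⟨_, rfl⟩
  have hI : G.Idem p := by rw [hp]; exact φ.idem hP
  have h1 : G.D ((2 * Real.pi) • fromBlocks 0 (-p) p 0) = (2 * Real.pi) • fromBlocks 0 (-G.D p) (G.D p) 0 := by
    ext i j
    rcases i with i | i <;> rcases j with j | j
    · change G.d ((2 * Real.pi) • (0 : B)) = (2 * Real.pi) • (0 : B)
      rw [smul_zero, map_zero]
    · change G.d ((2 * Real.pi) • (-(p i j))) = (2 * Real.pi) • (-(G.d (p i j)))
      rw [map_smul, map_neg]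
    · change G.d ((2 * Real.pi) • (p i j)) = (2 * Real.pi) • (G.d (p i j))
      rw [map_smul]
    · change G.d ((2 * Real.pi) • (0 : B)) = (2 * Real.pi) • (0 : B)
      rw [smul_zero, map_zero]
  rw [dP_map, thC_map, ← hp, h1, Matrix.mul_smul, Matrix.smul_mul, fromBlocks_multiply, fromBlocks_multiply]
  have h2 : p * G.D p * p = 0 := hI.pdp
  simp [h2]

/-- the twisted connection -/
theorem cnC (ha : G.s a = -a) (hP : P * P = P) (hs : Pᵀ = P) : Cn φ (dP P) (wA φ a (thC P)) :=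
  Cn_wA ha (thC_anti hs) (thC_l hP) (thC_r hP)

/-- **the Euler form of `L ⊗ P_C`** -/
def eC (q : ℕ) (ha : G.s a = -a) (hP : P * P = P) (hs : Pᵀ = P) : B :=
  eulM φ (oG q P) (Rte (cnC (φ := φ) ha hP hs) (dP_idem hP))

/-- the curvature of the line bundle -/
def Fa (G : GDA B) {a : B} (ha : G.s a = -a) : G.Ee := ⟨G.d a, by
  change G.s (G.d a) = G.d a
  rw [G.s_d, ha, map_neg, neg_neg]⟩

/-- the complex curvature matrix -/
def Mc (φ : Fun0 A G) (P : Matrix ι ι A) (ha : G.s a = -a) : Matrix ι ι (CB G.Ee) :=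
  (Re φ P).map CB.ofR + (⟨0, -((2 * Real.pi) • Fa G ha)⟩ : CB G.Ee) • (P.map φ.e).map CB.ofR

theorem Mc_re (ha : G.s a = -a) : (Mc φ P ha).map CB.re = Re φ P := by
  ext i j
  change ((Re φ P i j + (0 * φ.e (P i j) - (-((2 * Real.pi) • Fa G ha)) * 0) : G.Ee) : B) = Rv φ P i j
  rw [zero_mul, mul_zero, sub_zero, add_zero]
  rfl

theorem Mc_im (ha : G.s a = -a) (i j : ι) : (Mc φ P ha i j).im = -((2 * Real.pi) • (Fa G ha * φ.e (P i j))) := by
  change (0 + (0 * 0 + -((2 * Real.pi) • Fa G ha) * φ.e (P i j)) : G.Ee) = _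
  rw [mul_zero, zero_add, zero_add, neg_mul, smul_mul_assoc]

theorem rM_Mc (ha : G.s a = -a) (hP : P * P = P) (hs : Pᵀ = P) :
    rM (Mc φ P ha) = Rte (cnC (φ := φ) ha hP hs) (dP_idem hP) := by
  refine GDA.val_inj ?_
  have h1 : (Rte (cnC (φ := φ) ha hP hs) (dP_idem hP)).map G.Ee.val = RT φ (dP P) (wA φ a (thC P)) := rfl
  rw [h1, RT_wA ha (thC_l hP) (thC_r hP) (thC_D hP)]
  have h2 : Rv φ (dP P) = fromBlocks (Rv φ P) 0 0 (Rv φ P) := by
    have h3 := congrArg (fun M => M.map G.Ee.val) (Re_block (φ := φ) P P)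
    have h4 : (fromBlocks (Re φ P) 0 0 (Re φ P)).map G.Ee.val = fromBlocks (Rv φ P) 0 0 (Rv φ P) := by
      rw [fromBlocks_map]
      congr 1
    rw [← h4]
    exact h3
  rw [h2]
  refine Matrix.ext fun i j => ?_
  rcases i with i | i <;> rcases j with j | j
  · change (((Mc φ P ha i j).re : G.Ee) : B) = Rv φ P i j - G.d a * φ.f ((2 * Real.pi) • (0 : A))
    rw [smul_zero, map_zero, mul_zero, sub_zero]
    exact congrArg (fun M : Matrix ι ι G.Ee => (M i j : B)) (Mc_re ha)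
  · change ((-(Mc φ P ha i j).im : G.Ee) : B) = 0 - G.d a * φ.f ((2 * Real.pi) • (-(P i j)))
    rw [Mc_im, neg_neg, map_smul, map_neg, smul_neg, mul_neg, sub_neg_eq_add, zero_add, mul_smul_comm]
    rfl
  · change (((Mc φ P ha i j).im : G.Ee) : B) = 0 - G.d a * φ.f ((2 * Real.pi) • (P i j))
    rw [Mc_im, map_smul, zero_sub, mul_smul_comm]
    rfl
  · change (((Mc φ P ha i j).re : G.Ee) : B) = Rv φ P i j - G.d a * φ.f ((2 * Real.pi) • (0 : A))
    rw [smul_zero, map_zero, mul_zero, sub_zero]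
    exact congrArg (fun M : Matrix ι ι G.Ee => (M i j : B)) (Mc_re ha)

theorem ad_Mc (ha : G.s a = -a) (hP : P * P = P) (hs : Pᵀ = P) : ad (Mc φ P ha) = -Mc φ P ha := by
  have h1 := rM_Mc (φ := φ) ha hP hs
  have h2 : (rM (Mc φ P ha))ᵀ = -rM (Mc φ P ha) := by
    rw [h1]
    refine GDA.val_inj ?_
    exact (cnC (φ := φ) ha hP hs).RT_anti (dP_idem hP) (dP_tr hs)
  refine rM_inj ?_
  have h3 : rM (ad (Mc φ P ha)) = (rM (Mc φ P ha))ᵀ := rM_star _
  rw [h3, h2, rM_neg]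

theorem Re_l (hP : P * P = P) : P.map φ.e * Re φ P = Re φ P := (RR_e hP).1

theorem Re_r (hP : P * P = P) (hs : Pᵀ = P) : Re φ P * P.map φ.e = Re φ P := (RR_e hP).2 hs

theorem cPe : (cP P).map (CB.alg φ.e) = (P.map φ.e).map CB.ofR := by
  ext i j
  · rfl
  · exact congrArg Subtype.val (map_zero φ.e)

/-- power sums as even elements -/
def pse (φ : Fun0 A G) (P : Matrix ι ι A) (k : ℕ) : G.Ee := trace (P.map φ.e * Re φ P ^ k)

theorem pse_eq (hP : P * P = P) (k : ℕ) : pse φ P k = G.incZ (GDA.zps (φ.idem hP) k) := by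
  rw [GDA.incZ_zps]
  unfold pse
  have h1 : Re φ P = (φ.idem hP).ev.lift * (φ.idem hP).evR.lift := by
    refine GDA.val_inj ?_
    rw [GDA.val_mul]
    rfl
  have h2 : P.map φ.e = (φ.idem hP).ev.lift := rfl
  obtain ⟨p, hp⟩ : ∃ p, p = (φ.idem hP).ev.lift := ⟨_, rfl⟩
  obtain ⟨R, hR⟩ : ∃ R, R = (φ.idem hP).evR.lift := ⟨_, rfl⟩
  have hpp : p * p = p := by
    rw [hp]
    refine GDA.val_inj ?_
    rw [GDA.val_mul]
    exact (φ.idem hP).idem
  have hc : Commute p R := by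
    rw [hp, hR]
    refine GDA.val_inj ?_
    rw [GDA.val_mul, GDA.val_mul]
    exact (φ.idem hP).comm
  rw [h1, h2, ← hp, ← hR, hc.mul_pow, ← Matrix.mul_assoc]
  congr 2
  induction k with
  | zero => rw [pow_zero, Matrix.mul_one]
  | succ k ih => rw [pow_succ', ← Matrix.mul_assoc, hpp, ih]

theorem pse_odd (hP : P * P = P) (hs : Pᵀ = P) (k : ℕ) : pse φ P (2 * k + 1) = 0 := by
  have hA : (Re φ P)ᵀ = -Re φ P := by
    refine GDA.val_inj ?_
    refine Matrix.ext fun i j => ?_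
    exact Rv_anti hP hs j i
  have hPt : (P.map φ.e)ᵀ = P.map φ.e := by
    rw [← Matrix.transpose_map, hs]
  have hc : Commute (P.map φ.e) (Re φ P) := (Re_l hP).trans (Re_r hP hs).symm
  have h1 : trace (P.map φ.e * Re φ P ^ (2 * k + 1)) = -trace (P.map φ.e * Re φ P ^ (2 * k + 1)) := by
    nth_rewrite 1 [← Matrix.trace_transpose]
    rw [Matrix.transpose_mul, Matrix.transpose_pow, hA, hPt, Odd.neg_pow ⟨k, rfl⟩, Matrix.neg_mul, trace_neg,
      (hc.pow_right _).eq]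
  unfold pse
  have h2 : (2 : ℝ) • trace (P.map φ.e * Re φ P ^ (2 * k + 1)) = 0 := by
    rw [two_smul]
    nth_rewrite 1 [h1]
    exact neg_add_cancel _
  have h3 := congrArg (fun z => ((2 : ℝ)⁻¹) • z) h2
  simp only [smul_smul, smul_zero] at h3
  rwa [inv_mul_cancel₀ (two_ne_zero : (2 : ℝ) ≠ 0), one_smul] at h3

theorem sum_even {M : Type*} [AddCommMonoid M] (f : ℕ → M) (h : ∀ j, f (2 * j + 1) = 0) (q : ℕ) :
    ∑ j ∈ Finset.range (q + 1), f j = ∑ i ∈ Finset.range (q / 2 + 1), f (2 * i) := by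
  induction q with
  | zero => simp
  | succ q ih =>
    rw [Finset.sum_range_succ, ih]
    rcases Nat.even_or_odd' q with ⟨c, hc | hc⟩
    · have h1 : (q + 1) / 2 = q / 2 := by omega
      rw [h1, hc, h, add_zero]
    · have h1 : (q + 1) / 2 = q / 2 + 1 := by omega
      have h2 : q + 1 = 2 * (q / 2 + 1) := by omega
      rw [h1, Finset.sum_range_succ _ (q / 2 + 1), ← h2]

/-- the elementary symmetric functions of the complex curvature -/
theorem elc_Mc (ha : G.s a = -a) (hP : P * P = P) (hs : Pᵀ = P) (ht : trace P = (q : A)) :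
    elc (fun k => trace (Mc φ P ha ^ k)) q = ∑ j ∈ Finset.range (q + 1),
      (⟨0, -((2 * Real.pi) • Fa G ha)⟩ : CB G.Ee) ^ (q - j) * CB.ofR (elc (pse φ P) j) := by
  have h1 : (P.map φ.e).map CB.ofR * (Re φ P).map CB.ofR = (Re φ P).map (CB.ofR : G.Ee →ₐ[ℝ] CB G.Ee) := by
    rw [← Matrix.map_mul, Re_l hP]
  have h2 : (Re φ P).map CB.ofR * (P.map φ.e).map CB.ofR = (Re φ P).map (CB.ofR : G.Ee →ₐ[ℝ] CB G.Ee) := by
    rw [← Matrix.map_mul, Re_r hP hs]
  have h3 : (P.map φ.e).map (CB.ofR : G.Ee →ₐ[ℝ] CB G.Ee) * (P.map φ.e).map CB.ofR = (P.map φ.e).map CB.ofR := by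
    rw [← Matrix.map_mul, ← Matrix.map_mul, hP]
  have h4 : trace ((P.map φ.e).map (CB.ofR : G.Ee →ₐ[ℝ] CB G.Ee)) = (q : CB G.Ee) := by
    have e1 : trace ((P.map φ.e).map (CB.ofR : G.Ee →ₐ[ℝ] CB G.Ee)) = CB.ofR (trace (P.map φ.e)) :=
      (AddMonoidHom.map_trace (CB.ofR : G.Ee →ₐ[ℝ] CB G.Ee).toAddMonoidHom _).symm
    have e2 : trace (P.map φ.e) = φ.e (trace P) := (AddMonoidHom.map_trace φ.e.toAddMonoidHom P).symm
    rw [e1, e2, ht, map_natCast, map_natCast]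
  unfold Mc
  rw [elc_shiftM h3 h1 h2 h4]
  refine Finset.sum_congr rfl fun j _ => ?_
  congr 1
  have h5 := map_elc (CB.ofR : G.Ee →ₐ[ℝ] CB G.Ee) (pse φ P) j
  rw [h5]
  congr 1
  funext k
  unfold pse
  have e1 : CB.ofR (trace (P.map φ.e * Re φ P ^ k)) = trace ((P.map φ.e * Re φ P ^ k).map (CB.ofR : G.Ee →ₐ[ℝ] CB G.Ee)) :=
    AddMonoidHom.map_trace (CB.ofR : G.Ee →ₐ[ℝ] CB G.Ee).toAddMonoidHom _
  have e2 : (Re φ P ^ k).map (CB.ofR : G.Ee →ₐ[ℝ] CB G.Ee) = (Re φ P).map CB.ofR ^ k :=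
    map_pow (CB.ofR : G.Ee →ₐ[ℝ] CB G.Ee).mapMatrix (Re φ P) k
  rw [e1, Matrix.map_mul, e2]

theorem I_sq {E : Type*} [CommRing E] [Algebra ℝ E] : (CB.I : CB E) * CB.I = -1 := CB.ext (by
    rw [CB.mul_re]
    change (0 : E) * 0 - 1 * 1 = -1
    ring) (by
    rw [CB.mul_im]
    change (0 : E) * 1 + 1 * 0 = -0
    ring)

/-- the real part -/
theorem re_sum (q : ℕ) {E : Type} [CommRing E] [Algebra ℝ E] (F : E) (e : ℕ → E) (he : ∀ j, e (2 * j + 1) = 0) :
    (CB.I ^ q * ∑ j ∈ Finset.range (q + 1), (⟨0, -F⟩ : CB E) ^ (q - j) * CB.ofR (e j)).re =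
      ∑ i ∈ Finset.range (q / 2 + 1), (-1) ^ i * (F ^ (q - 2 * i) * e (2 * i)) := by
  rw [sum_even _ (fun j => by rw [he, map_zero, mul_zero]), Finset.mul_sum]
  have h0 : (⟨0, -F⟩ : CB E) = CB.I * CB.ofR (-F) := CB.ext (by
      rw [CB.mul_re]
      change (0 : E) = 0 * -F - 1 * 0
      ring) (by
      rw [CB.mul_im]
      change -F = 0 * 0 + 1 * -F
      ring)
  have h1 : ∀ i ∈ Finset.range (q / 2 + 1), CB.I ^ q * ((⟨0, -F⟩ : CB E) ^ (q - 2 * i) * CB.ofR (e (2 * i))) =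
      CB.ofR ((-1) ^ i * (F ^ (q - 2 * i) * e (2 * i))) := by
    intro i hi
    have hi' : i ≤ q / 2 := Nat.lt_succ_iff.1 (Finset.mem_range.1 hi)
    obtain ⟨m, hm⟩ : ∃ m, q = m + 2 * i := ⟨q - 2 * i, by omega⟩
    have e1 : q - 2 * i = m := by omega
    rw [e1, h0, mul_pow, hm]
    have e2 : (CB.I : CB E) ^ (m + 2 * i) * (CB.I ^ m * CB.ofR (-F) ^ m * CB.ofR (e (2 * i))) =
        (CB.I * CB.I) ^ (m + i) * (CB.ofR (-F) ^ m * CB.ofR (e (2 * i))) := by
      rw [← pow_two, ← pow_mul]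
      have e3 : 2 * (m + i) = (m + 2 * i) + m := by ring
      rw [e3, pow_add _ (m + 2 * i) m]
      ring
    rw [e2, I_sq]
    have e4 : (-1 : CB E) ^ (m + i) = CB.ofR ((-1) ^ (m + i)) := by
      rw [map_pow, map_neg, map_one]
    rw [e4, ← map_pow, ← map_mul, ← map_mul]
    congr 1
    have e5 : (-1 : E) ^ (m + i) * ((-F) ^ m * e (2 * i)) = ((-1) ^ m * (-1) ^ m) * ((-1) ^ i * (F ^ m * e (2 * i))) := by
      rw [neg_pow F, pow_add]
      ring
    have e6 : (-1 : E) ^ m * (-1) ^ m = 1 := by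
      rw [← mul_pow]
      norm_num
    rw [e5, e6, one_mul]
  rw [Finset.sum_congr rfl h1, ← map_sum]
  rfl

/-- Pontryagin forms -/
def ptf (φ : Fun0 A G) {P : Matrix ι ι A} (hP : P * P = P) (i : ℕ) : B :=
  (((2 * Real.pi) ^ (2 * i))⁻¹ : ℝ) • ((GDA.cf (φ.idem hP) (2 * i) : G.Zc) : B)

/-- **the Euler form of `L ⊗ P_C`** -/
theorem eC_eq (hφ : Pts φ) (ha : G.s a = -a) (hP : P * P = P) (hs : Pᵀ = P) (ht : trace P = (q : A)) :
    eC (φ := φ) q ha hP hs = -∑ i ∈ Finset.range (q / 2 + 1), (-1 : ℝ) ^ i • (G.d a ^ (q - 2 * i) * ptf φ hP i) := by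
  have hM := pfo_free' hφ (cP_idem hP) (cP_ad hs) (cP_tr ht) (ad_Mc (φ := φ) ha hP hs)
    (by
      rw [cPe]
      unfold Mc
      rw [Matrix.mul_add, Matrix.mul_smul, ← Matrix.map_mul, ← Matrix.map_mul, Re_l hP, ← Matrix.map_mul, hP])
    (by
      rw [cPe]
      unfold Mc
      rw [Matrix.add_mul, Matrix.smul_mul, ← Matrix.map_mul, ← Matrix.map_mul, Re_r hP hs, ← Matrix.map_mul, hP])
  rw [elc_Mc ha hP hs ht, rM_Mc ha hP hs,
    re_sum q ((2 * Real.pi) • Fa G ha) (elc (pse φ P)) (elc_odd (pse_odd hP hs))] at hM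
  unfold eC eulM
  have h1 : (fun I => φ.e (oG q P I)) = fun I => φ.e (oC q (cP P) I) := rfl
  rw [h1, hM]
  have h2 : ∀ i, elc (pse φ P) (2 * i) = G.incZ (GDA.cf (φ.idem hP) (2 * i)) := by
    intro i
    unfold GDA.cf
    rw [map_elc]
    congr 1
    funext k
    exact pse_eq hP k
  have h3 : ∀ (x : G.Ee) (r : ℝ), ((r • x : G.Ee) : B) = r • (x : B) := fun _ _ => rfl
  have h4 : ((∑ i ∈ Finset.range (q / 2 + 1), (-1) ^ i * (((2 * Real.pi) • Fa G ha) ^ (q - 2 * i) *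
      elc (pse φ P) (2 * i)) : G.Ee) : B) = ∑ i ∈ Finset.range (q / 2 + 1),
      (-1 : ℝ) ^ i • ((2 * Real.pi) ^ (q - 2 * i) • (G.d a ^ (q - 2 * i) * ((GDA.cf (φ.idem hP) (2 * i) : G.Zc) : B))) := by
    rw [val_sum]
    refine Finset.sum_congr rfl fun i _ => ?_
    have e1 : (-1 : G.Ee) ^ i * (((2 * Real.pi) • Fa G ha) ^ (q - 2 * i) * elc (pse φ P) (2 * i)) =
        (-1 : ℝ) ^ i • ((2 * Real.pi) ^ (q - 2 * i) • (Fa G ha ^ (q - 2 * i) * elc (pse φ P) (2 * i))) := by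
      rw [smul_pow, smul_mul_assoc, Algebra.smul_def ((-1 : ℝ) ^ i), map_pow, map_neg, map_one]
    rw [e1, h2]
    rfl
  rw [h3, h4, smul_smul, ← Finset.sum_neg_distrib, Finset.smul_sum]
  refine Finset.sum_congr rfl fun i hi => ?_
  have hi' : i ≤ q / 2 := Nat.lt_succ_iff.1 (Finset.mem_range.1 hi)
  unfold ptf
  rw [mul_smul_comm, smul_smul, smul_smul, smul_smul, ← neg_smul]
  congr 1
  have hp := Real.pi_ne_zero
  have hf : (q.factorial : ℝ) ≠ 0 := Nat.cast_ne_zero.2 (Nat.factorial_ne_zero q)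
  obtain ⟨m, hm⟩ : ∃ m, q = m + 2 * i := ⟨q - 2 * i, by omega⟩
  have e1 : q - 2 * i = m := by omega
  have h5 : ((4 * Real.pi) ^ q : ℝ) = 2 ^ q * ((2 * Real.pi) ^ m * (2 * Real.pi) ^ (2 * i)) := by
    rw [← pow_add, ← hm, ← mul_pow]
    congr 1
    ring
  rw [e1, h5]
  field_simp

end Pool.Agent.Lib.MP_ccbbf6_gt.L5.EGC
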