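import Pool.Agent.Lib.MP_ccbbf6_gt.L5.EU2

/-!
# Level 5, EGT0: metric connections `P d + w` on a projection `P`: curvature, Bianchi identity (helper13)

`RT = R + P (dw) P + w w`, `DT y = P dy + w y`.
-/

set_option autoImplicit false
set_option maxSynthPendingDepth 3
set_option linter.unusedSectionVars false

open Matrix Function

noncomputable section

namespace Pool.Agent.Lib.MP_ccbbf6_gt.L5

variable {ι κ : Type*} [Fintype ι] [DecidableEq ι] [Fintype κ] [DecidableEq κ] {r n m : ℕ} {A : Type*} [CommRing A]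
  [Algebra ℝ A] {B : Type*} [Ring B] [Algebra ℝ B] {G : GDA B} {φ : Fun0 A G}

/-- connection forms -/
structure Cn (φ : Fun0 A G) (P : Matrix ι ι A) (w : Matrix ι ι B) : Prop where
  od : G.Od w
  anti : wᵀ = -w
  l : P.map φ.f * w = w
  r : w * P.map φ.f = w

/-- curvature -/
def RT (φ : Fun0 A G) (P : Matrix ι ι A) (w : Matrix ι ι B) : Matrix ι ι B :=
  Rv φ P + P.map φ.f * G.D w * P.map φ.f + w * w

/-- covariant derivative of a section -/
def DT (φ : Fun0 A G) (P : Matrix ι ι A) (w : Matrix ι ι B) (y : ι → A) : ι → B := fun i =>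
  Dv φ P y i + ∑ j, w i j * φ.f (y j)

/-- curvature of a section -/
def WT (φ : Fun0 A G) (P : Matrix ι ι A) (w : Matrix ι ι B) (y : ι → A) : ι → B := fun i =>
  ∑ j, RT φ P w i j * φ.f (y j)

/-- transpose of a product of odd matrices -/
theorem transpose_od {ι' : Type*} [Fintype ι'] [DecidableEq ι'] {M : Matrix ι κ B} {N : Matrix κ ι' B} (hM : G.Od M) (hN : G.Od N) :
    (M * N)ᵀ = -(Nᵀ * Mᵀ) := by
  ext i j
  rw [Matrix.transpose_apply, Matrix.neg_apply, Matrix.mul_apply, Matrix.mul_apply, ← Finset.sum_neg_distrib]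
  exact Finset.sum_congr rfl fun k _ => G.comm_odd _ _ (hM.app _ _) (hN.app _ _)

section facts

variable {P : Matrix ι ι A} {w : Matrix ι ι B} {y : ι → A}

theorem Cn.evP (_h : Cn φ P w) : G.Ev (P.map φ.f) := φ.Ev P

theorem Cn.ev (h : Cn φ P w) (hP : P * P = P) : G.Ev (RT φ P w) := by
  unfold RT
  have h1 : G.Ev (Rv φ P) := (φ.idem hP).ev.mul (φ.idem hP).evR
  exact (h1.add (((φ.Ev P).mul h.od.D).mul (φ.Ev P))).add (h.od.mul h.od)

theorem Cn.RT_l (h : Cn φ P w) (hP : P * P = P) : P.map φ.f * RT φ P w = RT φ P w := by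
  unfold RT
  rw [Matrix.mul_add, Matrix.mul_add, Rv_left hP, ← Matrix.mul_assoc (P.map φ.f) w w, h.l]
  congr 2
  rw [← Matrix.mul_assoc, ← Matrix.mul_assoc, (φ.idem hP).idem]

theorem Cn.RT_r (h : Cn φ P w) (hP : P * P = P) : RT φ P w * P.map φ.f = RT φ P w := by
  unfold RT
  rw [Matrix.add_mul, Matrix.add_mul, Rv_right hP, Matrix.mul_assoc w w, h.r]
  congr 2
  rw [Matrix.mul_assoc, (φ.idem hP).idem]

theorem Pmap_tr (hs : Pᵀ = P) : (P.map φ.f)ᵀ = P.map φ.f := by
  rw [← Matrix.transpose_map, hs]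

theorem Cn.RT_anti (h : Cn φ P w) (hP : P * P = P) (hs : Pᵀ = P) : (RT φ P w)ᵀ = -RT φ P w := by
  have h0 : (Rv φ P)ᵀ = -Rv φ P := by
    ext i j
    exact Rv_anti hP hs j i
  have h1 : (P.map φ.f * G.D w * P.map φ.f)ᵀ = -(P.map φ.f * G.D w * P.map φ.f) := by
    have e1 : G.Ev (P.map φ.f * G.D w) := (φ.Ev P).mul h.od.D
    have e2 : (G.D w)ᵀ = -G.D w := by
      have e3 : (G.D w)ᵀ = G.D wᵀ := rfl
      rw [e3, h.anti]
      ext i j
      exact map_neg G.d _
    rw [GDA.transpose_ev e1, GDA.transpose_ev (φ.Ev P), Pmap_tr hs, e2, Matrix.neg_mul, Matrix.mul_neg,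
      Matrix.mul_assoc]
  have h2 : (w * w)ᵀ = -(w * w) := by
    rw [transpose_od h.od h.od, h.anti, Matrix.neg_mul, Matrix.mul_neg, neg_neg]
  unfold RT
  rw [Matrix.transpose_add, Matrix.transpose_add, h0, h1, h2]
  abel

/-- the Bianchi identity -/
theorem Cn.bianchi (h : Cn φ P w) (hP : P * P = P) :
    P.map φ.f * (G.D (RT φ P w) + w * RT φ P w - RT φ P w * w) * P.map φ.f = 0 := by
  obtain ⟨p, hp⟩ : ∃ p, p = P.map φ.f := ⟨_, rfl⟩
  have hI : G.Idem p := by rw [hp]; exact φ.idem hP
  have hl : p * w = w := by rw [hp]; exact h.l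
  have hr : w * p = w := by rw [hp]; exact h.r
  have hpp : p * p = p := hI.idem
  obtain ⟨q, hq⟩ : ∃ q, q = G.D p := ⟨_, rfl⟩
  obtain ⟨v, hv⟩ : ∃ v, v = G.D w := ⟨_, rfl⟩
  have hpqp : p * q * p = 0 := by rw [hq]; exact hI.pdp
  have hleib : q * p + p * q = q := by rw [hq]; exact hI.leib
  have hR : RT φ P w = p * (q * q) + p * v * p + w * w := by
    unfold RT Rv GDA.R
    rw [← hp, ← hq, ← hv]
  -- differentials
  have hv1 : v = q * w + p * v := by
    have h1 := congrArg G.D hl
    rw [GDA.D_mul, hI.ev, ← hq, ← hv] at h1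
    exact h1.symm
  have hv2 : v = v * p - w * q := by
    have h1 := congrArg G.D hr
    rw [GDA.D_mul, (show G.S w = -w from h.od), Matrix.neg_mul, ← hq, ← hv] at h1
    rw [sub_eq_add_neg]
    exact h1.symm
  have hD : G.D (RT φ P w) = q * (q * q) + (q * v * p + p * v * q) + (v * w - w * v) := by
    rw [hR, GDA.D_add, GDA.D_add]
    congr 1
    · congr 1
      · rw [GDA.D_mul, ← hq]
        have h1 : G.D (q * q) = 0 := by
          rw [hq]
          exact GDA.D_R p
        rw [h1, Matrix.mul_zero, add_zero]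
      · rw [GDA.D_mul, GDA.D_mul, ← hq]
        have h1 : G.D v = 0 := by rw [hv, GDA.D_D]
        have h2 : G.S (p * v) = p * v := by
          have h3 : G.Ev v := by rw [hv]; exact h.od.D
          exact hI.ev.mul h3
        rw [h1, Matrix.mul_zero, add_zero, h2]
    · rw [GDA.D_mul, (show G.S w = -w from h.od), ← hv, Matrix.neg_mul, ← sub_eq_add_neg]
  rw [← hp, hD, hR]
  have a1 : p * (q * (q * q)) * p = 0 := by
    have hc : p * (q * q) = q * q * p := by
      have := hI.comm
      unfold GDA.R at this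
      rw [← hq] at this
      exact this
    calc p * (q * (q * q)) * p = p * q * (q * q * p) := by simp only [Matrix.mul_assoc]
      _ = p * q * p * (q * q) := by rw [← hc]; simp only [Matrix.mul_assoc]
      _ = 0 := by rw [hpqp, Matrix.zero_mul]
  have a2 : p * (q * v * p) * p = p * (q * q) * w := by
    calc p * (q * v * p) * p = p * q * v * p := by
          simp only [Matrix.mul_assoc, hpp]
      _ = p * q * (q * w + p * v) * p := by rw [← hv1]
      _ = p * (q * q) * (w * p) + p * q * p * v * p := by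
          rw [Matrix.mul_add, Matrix.add_mul]
          simp only [Matrix.mul_assoc]
      _ = p * (q * q) * w := by rw [hr, hpqp, Matrix.zero_mul, Matrix.zero_mul, add_zero]
  have a3 : p * (p * v * q) * p = -(w * (q * q)) := by
    have hc : p * (q * q) = q * q * p := by
      have := hI.comm
      unfold GDA.R at this
      rw [← hq] at this
      exact this
    calc p * (p * v * q) * p = p * v * q * p := by
          have : p * (p * v * q) = p * v * q := by
            rw [← Matrix.mul_assoc, ← Matrix.mul_assoc, hpp]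
          rw [this]
      _ = p * (v * p - w * q) * q * p := by rw [← hv2]
      _ = p * v * (p * q * p) - p * w * (q * q * p) := by
          rw [Matrix.mul_sub, Matrix.sub_mul, Matrix.sub_mul]
          simp only [Matrix.mul_assoc]
      _ = -(w * (q * q)) := by
          rw [hpqp, Matrix.mul_zero, zero_sub, hl, ← hc, ← Matrix.mul_assoc, hr]
  have a4 : p * (v * w - w * v) * p = p * v * w - w * v * p := by
    rw [Matrix.mul_sub, Matrix.sub_mul]
    congr 1
    · rw [← Matrix.mul_assoc, Matrix.mul_assoc (p * v), hr]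
    · rw [← Matrix.mul_assoc, hl]
  have a5 : p * (w * (p * (q * q) + p * v * p + w * w)) * p = w * (q * q) + w * v * p + w * w * w := by
    have hc : p * (q * q) = q * q * p := by
      have := hI.comm
      unfold GDA.R at this
      rw [← hq] at this
      exact this
    rw [← Matrix.mul_assoc, hl, Matrix.mul_add, Matrix.mul_add, Matrix.add_mul, Matrix.add_mul]
    congr 1
    · congr 1
      · calc w * (p * (q * q)) * p = w * p * (q * q * p) := by simp only [Matrix.mul_assoc]
          _ = w * (p * (q * q)) := by rw [hr, hc]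
          _ = w * (q * q) := by rw [← Matrix.mul_assoc, hr]
      · calc w * (p * v * p) * p = w * p * v * (p * p) := by simp only [Matrix.mul_assoc]
          _ = w * v * p := by rw [hr, hpp]
    · rw [← Matrix.mul_assoc, Matrix.mul_assoc (w * w), hr]
  have a6 : p * ((p * (q * q) + p * v * p + w * w) * w) * p = p * (q * q) * w + p * v * w + w * w * w := by
    rw [← Matrix.mul_assoc, Matrix.mul_assoc _ w p, hr, Matrix.mul_add, Matrix.mul_add, Matrix.add_mul, Matrix.add_mul]
    congr 1
    · congr 1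
      · rw [← Matrix.mul_assoc p p, hpp]
      · calc p * (p * v * p) * w = p * p * v * (p * w) := by simp only [Matrix.mul_assoc]
          _ = p * v * w := by rw [hpp, hl]
    · rw [← Matrix.mul_assoc p w, hl]
  rw [Matrix.mul_sub, Matrix.mul_add, Matrix.sub_mul, Matrix.add_mul, a5, a6, Matrix.mul_add, Matrix.mul_add,
    Matrix.mul_add, Matrix.add_mul, Matrix.add_mul, Matrix.add_mul, a1, a2, a3, a4]
  abel

end facts

end Pool.Agent.Lib.MP_ccbbf6_gt.L5
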