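import Pool.Agent.Lib.MP_ccbbf6_gt.L5.EG2
import Pool.Agent.Lib.MP_ccbbf6_gt.L5.EGT0

/-!
# Level 5, EGT1: covariant derivatives of sections and tensors for a metric connection (helper13)
-/

set_option autoImplicit false
set_option maxSynthPendingDepth 3
set_option linter.unusedSectionVars false

open Matrix Function

noncomputable section

namespace Pool.Agent.Lib.MP_ccbbf6_gt.L5

variable {ι κ : Type*} [Fintype ι] [DecidableEq ι] [Fintype κ] [DecidableEq κ] {r n m : ℕ} {A : Type*} [CommRing A]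
  [Algebra ℝ A] {B : Type*} [Ring B] [Algebra ℝ B] {G : GDA B} {φ : Fun0 A G}

section facts

variable {P : Matrix ι ι A} {w : Matrix ι ι B} {y : ι → A}

theorem Cn.s_DT (h : Cn φ P w) (l : ι) : G.s (DT φ P w y l) = -DT φ P w y l := by
  unfold DT
  rw [map_add, _root_.map_sum, s_Dv, neg_add, ← Finset.sum_neg_distrib]
  congr 1
  refine Finset.sum_congr rfl fun j _ => ?_
  rw [map_mul, φ.ev, h.od.app, neg_mul]

theorem DT_mat (l : ι) : DT φ P w y l = (P.map φ.f * G.D (uc φ y) + w * uc φ y) l () := rfl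

theorem WT_mat (l : ι) : WT φ P w y l = (RT φ P w * uc φ y) l () := rfl

theorem Cn.P_DT (h : Cn φ P w) (hP : P * P = P) (l : ι) : ∑ m, φ.f (P l m) * DT φ P w y m = DT φ P w y l := by
  have h1 : P.map φ.f * (P.map φ.f * G.D (uc φ y) + w * uc φ y) = P.map φ.f * G.D (uc φ y) + w * uc φ y := by
    rw [Matrix.mul_add, ← Matrix.mul_assoc, ← Matrix.mul_assoc, (φ.idem hP).idem, h.l]
  exact congrFun (congrFun h1 l) ()

theorem Cn.y_DT (h : Cn φ P w) (hs : Pᵀ = P) (hy : Sec P y) : ∑ m, φ.f (y m) * DT φ P w y m = 0 := by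
  unfold DT
  simp only [mul_add]
  rw [Finset.sum_add_distrib, y_Dv hs hy, zero_add]
  have h1 : ∑ i, φ.f (y i) * ∑ j, w i j * φ.f (y j) = -∑ i, φ.f (y i) * ∑ j, w i j * φ.f (y j) := by
    simp only [Finset.mul_sum]
    conv_lhs => rw [Finset.sum_comm]
    rw [← Finset.sum_neg_distrib]
    refine Finset.sum_congr rfl fun i _ => ?_
    rw [← Finset.sum_neg_distrib]
    refine Finset.sum_congr rfl fun j _ => ?_
    have h2 : w j i = -w i j := congrFun (congrFun h.anti i) j
    rw [h2, neg_mul, mul_neg, ← φ.comm (y i) (w i j), ← φ.comm (y j) (w i j), cm1 (y j), ← mul_assoc (φ.f (y i))]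
  have h2 : (2 : ℝ) • ∑ i, φ.f (y i) * ∑ j, w i j * φ.f (y j) = 0 := by
    rw [two_smul]
    nth_rewrite 1 [h1]
    exact neg_add_cancel _
  have h3 := congrArg (fun z => ((2 : ℝ)⁻¹) • z) h2
  simp only [smul_smul, smul_zero] at h3
  rwa [inv_mul_cancel₀ (two_ne_zero : (2 : ℝ) ≠ 0), one_smul] at h3

/-- the square of the covariant derivative -/
theorem Cn.P_dDT (h : Cn φ P w) (hP : P * P = P) (hy : P.mulVec y = y) (l : ι) :
    ∑ m, φ.f (P l m) * G.d (DT φ P w y m) + ∑ m, w l m * DT φ P w y m = WT φ P w y l := by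
  have hI := φ.idem hP
  have hU : P.map φ.f * uc φ y = uc φ y := by
    ext l u
    exact congrFun (pv_uv (φ := φ) hy) l
  have key : P.map φ.f * G.D (P.map φ.f * G.D (uc φ y) + w * uc φ y) + w * (P.map φ.f * G.D (uc φ y) + w * uc φ y) =
      RT φ P w * uc φ y := by
    have k1 : P.map φ.f * G.D (P.map φ.f * G.D (uc φ y)) = Rv φ P * uc φ y := by
      ext l u
      exact congrFun (pv_dDv (φ := φ) hP hy) l
    have k2 : G.D (w * uc φ y) = G.D w * uc φ y - w * G.D (uc φ y) := by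
      rw [GDA.D_mul, show G.S w = -w from h.od, Matrix.neg_mul, sub_eq_add_neg]
    rw [GDA.D_add, Matrix.mul_add, k1, k2, Matrix.mul_sub, ← Matrix.mul_assoc _ w, h.l, Matrix.mul_add,
      ← Matrix.mul_assoc w (P.map φ.f), h.r, ← Matrix.mul_assoc w w]
    unfold RT
    rw [Matrix.add_mul, Matrix.add_mul, Matrix.mul_assoc (P.map φ.f * G.D w), hU, Matrix.mul_assoc (P.map φ.f)]
    abel
  exact congrFun (congrFun key l) ()

theorem Cn.y_RT (h : Cn φ P w) (hP : P * P = P) (hs : Pᵀ = P) (j : ι) :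
    ∑ m, φ.f (y m) * RT φ P w m j = -WT φ P w y j := by
  unfold WT
  rw [← Finset.sum_neg_distrib]
  refine Finset.sum_congr rfl fun m _ => ?_
  have h1 : RT φ P w m j = -RT φ P w j m := congrFun (congrFun (h.RT_anti hP hs) j) m
  rw [φ.comm, h1, neg_mul]

theorem Cn.s_WT (h : Cn φ P w) (hP : P * P = P) (l : ι) : G.s (WT φ P w y l) = WT φ P w y l := by
  unfold WT
  rw [_root_.map_sum]
  exact Finset.sum_congr rfl fun m _ => by rw [map_mul, φ.ev, (h.ev hP).app]

end facts

/-! ### tensors -/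

section tensor

variable {P : Matrix ι ι A} {w : Matrix ι ι B} {y : ι → A}

/-- the connection acts trivially on the orientation -/
theorem Cn.St_om (h : Cn φ P w) {o : (Fin r → ι) → A} (ho : Or r P o) (T : (Fin r → ι) → B) :
    St φ o (fun I => ∑ k, ∑ m, w (I k) m * T (update I k m)) = 0 := by
  have hdiag : ∀ e, w e e = 0 := by
    intro e
    have h1 : w e e = -w e e := congrFun (congrFun h.anti e) e
    have h2 : (2 : ℝ) • w e e = 0 := by
      rw [two_smul]
      nth_rewrite 1 [h1]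
      exact neg_add_cancel _
    have h3 := congrArg (fun z => ((2 : ℝ)⁻¹) • z) h2
    simp only [smul_smul, smul_zero] at h3
    rwa [inv_mul_cancel₀ (two_ne_zero : (2 : ℝ) ≠ 0), one_smul] at h3
  have hP : ∀ i m, ∑ j, φ.f (P i j) * w j m = w i m := fun i m => congrFun (congrFun h.l i) m
  have key : ∀ I : Fin r → ι, ∑ k, ∑ m, φ.f (o (update I k m)) * w (I k) m = 0 := by
    intro I
    have e1 : ∀ k m, φ.f (o (update I k m)) * w (I k) m = ∑ j, φ.f (P (I k) j * o (update I k m)) * w j m := by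
      intro k m
      rw [← hP (I k) m, Finset.mul_sum]
      refine Finset.sum_congr rfl fun j _ => ?_
      rw [← mul_assoc, ← map_mul, mul_comm]
    simp only [e1]
    rw [Finset.sum_comm]
    refine Finset.sum_eq_zero fun m _ => ?_
    rw [Finset.sum_comm]
    have e2 : ∀ j, ∑ k, φ.f (P (I k) j * o (update I k m)) * w j m = φ.f (o I) * (φ.f (P m j) * w j m) := by
      intro j
      rw [← Finset.sum_mul, ← _root_.map_sum, ← ho.sch', mul_comm, map_mul, mul_assoc]
    simp only [e2]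
    rw [← Finset.mul_sum, hP, hdiag, mul_zero]
  unfold St
  have e1 : ∀ I : Fin r → ι, φ.f (o I) * ∑ k, ∑ m, w (I k) m * T (update I k m) =
      ∑ k, ∑ m, φ.f (o I) * (w (I k) m * T (update I k m)) := by
    intro I
    rw [Finset.mul_sum]
    exact Finset.sum_congr rfl fun k _ => Finset.mul_sum _ _ _
  simp only [e1]
  rw [Finset.sum_comm]
  have e2 : ∀ k, ∑ I : Fin r → ι, ∑ m, φ.f (o I) * (w (I k) m * T (update I k m)) =
      ∑ I : Fin r → ι, ∑ m, -(φ.f (o (update I k m)) * w (I k) m * T I) := by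
    intro k
    rw [sum_swp k (fun I m => φ.f (o I) * (w (I k) m * T (update I k m)))]
    refine Finset.sum_congr rfl fun I _ => Finset.sum_congr rfl fun m _ => ?_
    rw [update_self, update_idem, update_eq_self]
    have h2 : w m (I k) = -w (I k) m := congrFun (congrFun h.anti (I k)) m
    rw [h2, neg_mul, mul_neg, mul_assoc]
  simp only [e2]
  rw [Finset.sum_comm]
  refine Finset.sum_eq_zero fun I _ => ?_
  simp only [Finset.sum_neg_distrib, ← Finset.sum_mul]
  rw [key I, zero_mul, neg_zero]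

/-- covariant differential of a contraction -/
theorem Cn.d_St (h : Cn φ P w) {o : (Fin r → ι) → A} (ho : Or r P o) {T : (Fin r → ι) → B} (hT : Inv φ P T) :
    G.d (St φ o T) = St φ o (fun I => G.d (T I) + ∑ k, ∑ m, w (I k) m * T (update I k m)) := by
  rw [St_add, h.St_om ho, add_zero, L5.d_St ho hT]

/-- covariant differential of two-tensors -/
def cdv (G : GDA B) (w : Matrix ι ι B) (X : ι → ι → B) (i j : ι) : B :=
  G.d (X i j) + ∑ m, w i m * X m j + ∑ m, w j m * X i m

theorem wX_0 (v : ι → B) (X : ι → ι → B) (M : Fin n → Matrix ι ι G.Ee) (I : Fin (2 * (n + 1)) → ι) :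
    ∑ m, v m * TX X M (update I (s0 0) m) =
      (∑ m, v m * X m (I (s1 0))) * ((∏ a, M a (I (s0 a.succ)) (I (s1 a.succ)) : G.Ee) : B) := by
  rw [Finset.sum_mul]
  refine Finset.sum_congr rfl fun m _ => ?_
  unfold TX
  have e1 : ∏ a, M a (update I (s0 0) m (s0 a.succ)) (update I (s0 0) m (s1 a.succ)) =
      ∏ a, M a (I (s0 a.succ)) (I (s1 a.succ)) :=
    Finset.prod_congr rfl fun a _ => by rw [update_of_ne (ss0 a), update_of_ne (s0_ne_s1 0 a.succ).symm]
  rw [e1, update_self, update_of_ne (s0_ne_s1 0 0).symm, mul_assoc]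

theorem wX_1 (v : ι → B) (X : ι → ι → B) (M : Fin n → Matrix ι ι G.Ee) (I : Fin (2 * (n + 1)) → ι) :
    ∑ m, v m * TX X M (update I (s1 0) m) =
      (∑ m, v m * X (I (s0 0)) m) * ((∏ a, M a (I (s0 a.succ)) (I (s1 a.succ)) : G.Ee) : B) := by
  rw [Finset.sum_mul]
  refine Finset.sum_congr rfl fun m _ => ?_
  unfold TX
  have e1 : ∏ a, M a (update I (s1 0) m (s0 a.succ)) (update I (s1 0) m (s1 a.succ)) =
      ∏ a, M a (I (s0 a.succ)) (I (s1 a.succ)) :=
    Finset.prod_congr rfl fun a _ => by rw [update_of_ne (s0_ne_s1 a.succ 0), update_of_ne (ss1 a)]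
  rw [e1, update_self, update_of_ne (s0_ne_s1 0 0), mul_assoc]

theorem od_sum {x : B} {v Y : ι → B} (hx : G.s x = -x) (hv : ∀ m, G.s (v m) = -v m) (R : B) :
    ∑ m, v m * (x * (Y m * R)) = -(x * ((∑ m, v m * Y m) * R)) := by
  rw [Finset.sum_mul, Finset.mul_sum, ← Finset.sum_neg_distrib]
  refine Finset.sum_congr rfl fun m _ => ?_
  calc v m * (x * (Y m * R)) = v m * x * (Y m * R) := (mul_assoc _ _ _).symm
    _ = -(x * v m) * (Y m * R) := by rw [G.comm_odd _ _ (hv m) hx]
    _ = -(x * (v m * Y m * R)) := by simp only [neg_mul, mul_assoc]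

theorem wY_0 {X : ι → ι → B} (hX : ∀ i j, G.s (X i j) = -X i j) {v : ι → B} (hv : ∀ m, G.s (v m) = -v m)
    (M : Fin n → Matrix ι ι G.Ee) (a : Fin n) (I : Fin (2 * (n + 1)) → ι) :
    ∑ m, v m * TX X M (update I (s0 a.succ) m) =
      -(X (I (s0 0)) (I (s1 0)) * ((∑ m, v m * (M a m (I (s1 a.succ)) : B)) *
        ((∏ b ∈ Finset.univ.erase a, M b (I (s0 b.succ)) (I (s1 b.succ)) : G.Ee) : B))) := by
  rw [← od_sum (hX _ _) hv]
  refine Finset.sum_congr rfl fun m _ => ?_
  rw [TX_TY X M a]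
  unfold TY
  have e1 : ∏ b ∈ Finset.univ.erase a, M b (update I (s0 a.succ) m (s0 b.succ)) (update I (s0 a.succ) m (s1 b.succ)) =
      ∏ b ∈ Finset.univ.erase a, M b (I (s0 b.succ)) (I (s1 b.succ)) :=
    Finset.prod_congr rfl fun b hb => by
      have hb' : b ≠ a := Finset.ne_of_mem_erase hb
      rw [update_of_ne (fun h => hb' (Fin.succ_inj.1 (s0_inj h))), update_of_ne (s0_ne_s1 a.succ b.succ).symm]
  rw [e1, update_self, update_of_ne (ss0 a).symm, update_of_ne (s0_ne_s1 a.succ 0).symm,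
    update_of_ne (s0_ne_s1 a.succ a.succ).symm]

theorem wY_1 {X : ι → ι → B} (hX : ∀ i j, G.s (X i j) = -X i j) {v : ι → B} (hv : ∀ m, G.s (v m) = -v m)
    (M : Fin n → Matrix ι ι G.Ee) (a : Fin n) (I : Fin (2 * (n + 1)) → ι) :
    ∑ m, v m * TX X M (update I (s1 a.succ) m) =
      -(X (I (s0 0)) (I (s1 0)) * ((∑ m, v m * (M a (I (s0 a.succ)) m : B)) *
        ((∏ b ∈ Finset.univ.erase a, M b (I (s0 b.succ)) (I (s1 b.succ)) : G.Ee) : B))) := by
  rw [← od_sum (hX _ _) hv]
  refine Finset.sum_congr rfl fun m _ => ?_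
  rw [TX_TY X M a]
  unfold TY
  have e1 : ∏ b ∈ Finset.univ.erase a, M b (update I (s1 a.succ) m (s0 b.succ)) (update I (s1 a.succ) m (s1 b.succ)) =
      ∏ b ∈ Finset.univ.erase a, M b (I (s0 b.succ)) (I (s1 b.succ)) :=
    Finset.prod_congr rfl fun b hb => by
      have hb' : b ≠ a := Finset.ne_of_mem_erase hb
      rw [update_of_ne (s0_ne_s1 b.succ a.succ), update_of_ne (fun h => hb' (Fin.succ_inj.1 (s1_inj h)))]
  rw [e1, update_self, update_of_ne (s0_ne_s1 0 a.succ), update_of_ne (ss1 a).symm,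
    update_of_ne (s0_ne_s1 a.succ a.succ)]

/-- covariant Leibniz rule -/
theorem Cn.cd_TX (h : Cn φ P w) {X : ι → ι → B} (hX : ∀ i j, G.s (X i j) = -X i j) (M : Fin n → Matrix ι ι G.Ee)
    (I : Fin (2 * (n + 1)) → ι) : G.d (TX X M I) + ∑ k, ∑ m, w (I k) m * TX X M (update I k m) =
      TX (cdv G w X) M I - ∑ a, TY X (cdv G w fun i j => (M a i j : B)) a M I := by
  have hw : ∀ i m, G.s (w i m) = -w i m := fun i m => h.od.app i m
  rw [d_TX hX, sum_pairs, Fin.sum_univ_succ, wX_0, wX_1]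
  have e1 : ∀ a : Fin n, ∑ m, w (I (s0 a.succ)) m * TX X M (update I (s0 a.succ) m) +
      ∑ m, w (I (s1 a.succ)) m * TX X M (update I (s1 a.succ) m) =
      -TY X (fun i j => ∑ m, w i m * (M a m j : B) + ∑ m, w j m * (M a i m : B)) a M I := by
    intro a
    rw [wY_0 hX (hw _), wY_1 hX (hw _), ← neg_add]
    congr 1
    unfold TY
    rw [← mul_add, ← add_mul]
  simp only [e1]
  have e2 : TX (cdv G w X) M I = TX (fun i j => G.d (X i j)) M I +
      ((∑ m, w (I (s0 0)) m * X m (I (s1 0))) * ((∏ a, M a (I (s0 a.succ)) (I (s1 a.succ)) : G.Ee) : B) +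
        (∑ m, w (I (s1 0)) m * X (I (s0 0)) m) * ((∏ a, M a (I (s0 a.succ)) (I (s1 a.succ)) : G.Ee) : B)) := by
    unfold TX cdv
    rw [add_mul, add_mul, add_assoc]
  have e3 : ∀ a, TY X (cdv G w fun i j => (M a i j : B)) a M I = TY X (fun i j => G.d (M a i j : B)) a M I +
      TY X (fun i j => ∑ m, w i m * (M a m j : B) + ∑ m, w j m * (M a i m : B)) a M I := by
    intro a
    unfold TY cdv
    rw [← mul_add, ← add_mul, add_assoc]
  rw [e2]
  simp only [e3]
  rw [Finset.sum_add_distrib, Finset.sum_neg_distrib]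
  abel

end tensor

end Pool.Agent.Lib.MP_ccbbf6_gt.L5
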