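import Pool.Agent.Lib.MP_ccbbf6_gt.L5.EG3
import Pool.Agent.Lib.MP_ccbbf6_gt.L5.EGT1

/-!
# Level 5, EGT2: the transgression of the Euler form for a metric connection, terms (helper13)
-/

set_option autoImplicit false
set_option maxSynthPendingDepth 3
set_option linter.unusedSectionVars false

open Matrix Function

noncomputable section

namespace Pool.Agent.Lib.MP_ccbbf6_gt.L5

variable {ι : Type*} [Fintype ι] [DecidableEq ι] {n : ℕ} {A : Type*} [CommRing A] [Algebra ℝ A] {B : Type*} [Ring B]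
  [Algebra ℝ B] {G : GDA B} {φ : Fun0 A G} {P : Matrix ι ι A} {w : Matrix ι ι B}

/-- the curvature as an even matrix -/
def Rte (h : Cn φ P w) (hP : P * P = P) : Matrix ι ι G.Ee := (h.ev hP).lift

/-- `Dy Dy^T` -/
def DDt (h : Cn φ P w) (y : ι → A) : Matrix ι ι G.Ee := fun i j =>
  ⟨DT φ P w y i * DT φ P w y j, by
    change G.s _ = _
    rw [map_mul, h.s_DT, h.s_DT, neg_mul_neg]⟩

/-- `R y` -/
def Wte (h : Cn φ P w) (hP : P * P = P) (y : ι → A) : ι → G.Ee := fun j => ∑ m, Rte h hP j m * φ.e (y m)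

/-- `y (R y)^T` -/
def YWt (h : Cn φ P w) (hP : P * P = P) (y : ι → A) : Matrix ι ι G.Ee := fun i j => φ.e (y i) * Wte h hP y j

theorem Wte_val (h : Cn φ P w) (hP : P * P = P) (y : ι → A) (j : ι) : ((Wte h hP y j : G.Ee) : B) = WT φ P w y j := by
  unfold Wte WT
  rw [val_sum]
  rfl

theorem YWt_val (h : Cn φ P w) (hP : P * P = P) (y : ι → A) (i j : ι) :
    ((YWt h hP y i j : G.Ee) : B) = φ.f (y i) * WT φ P w y j := by
  rw [← Wte_val h hP]
  rfl

/-- the matrices at the pairs -/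
def MSt (h : Cn φ P w) (hP : P * P = P) (y : ι → A) (S : Finset (Fin n)) (a : Fin n) : Matrix ι ι G.Ee :=
  if a ∈ S then Rte h hP else DDt h y

/-- the first pair -/
def yDt (φ : Fun0 A G) (P : Matrix ι ι A) (w : Matrix ι ι B) (y : ι → A) (i j : ι) : B := φ.f (y i) * DT φ P w y j

/-- the terms of the transgression -/
def PhiT (h : Cn φ P w) (hP : P * P = P) (o : (Fin (2 * (n + 1)) → ι) → A) (y : ι → A) (S : Finset (Fin n)) : B :=
  St φ o (TX (yDt φ P w y) (MSt h hP y S))

variable {o : (Fin (2 * (n + 1)) → ι) → A} {y : ι → A}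

/-- `St(y W ⊗ ..)` -/
def BSt (h : Cn φ P w) (hP : P * P = P) (o : (Fin (2 * (n + 1)) → ι) → A) (y : ι → A) (S : Finset (Fin n)) : G.Ee :=
  pfs (fun I => φ.e (o I)) (Fin.cons (YWt h hP y) (MSt h hP y S) : Fin (n + 1) → Matrix ι ι G.Ee)

/-- `St(Dy Dy ⊗ ..)` -/
def ASt (h : Cn φ P w) (hP : P * P = P) (o : (Fin (2 * (n + 1)) → ι) → A) (y : ι → A) (S : Finset (Fin n)) : G.Ee :=
  pfs (fun I => φ.e (o I)) (Fin.cons (DDt h y) (MSt h hP y S) : Fin (n + 1) → Matrix ι ι G.Ee)

theorem Cn.EInv_Rte (h : Cn φ P w) (hP : P * P = P) (hs : Pᵀ = P) : EInv φ P (Rte h hP) := by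
  constructor
  · intro i j
    exact congrFun (congrFun (h.RT_l hP) i) j
  · intro i j
    have h1 := congrFun (congrFun (h.RT_r hP) i) j
    rw [Matrix.mul_apply] at h1
    refine Eq.trans ?_ h1
    refine Finset.sum_congr rfl fun m _ => ?_
    change φ.f (P j m) * RT φ P w i m = RT φ P w i m * φ.f (P m j)
    rw [φ.comm]
    congr 2
    exact congrFun (congrFun hs m) j

theorem Cn.EInv_DDt (h : Cn φ P w) (hP : P * P = P) : EInv φ P (DDt h y) := by
  constructor
  · intro i j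
    change ∑ m, φ.f (P i m) * (DT φ P w y m * DT φ P w y j) = DT φ P w y i * DT φ P w y j
    conv_rhs => rw [← h.P_DT hP i, Finset.sum_mul]
    exact Finset.sum_congr rfl fun m _ => by rw [mul_assoc]
  · intro i j
    change ∑ m, φ.f (P j m) * (DT φ P w y i * DT φ P w y m) = DT φ P w y i * DT φ P w y j
    conv_rhs => rw [← h.P_DT hP j, Finset.mul_sum]
    exact Finset.sum_congr rfl fun m _ => cm1 _ _ _

theorem Cn.EInv_MSt (h : Cn φ P w) (hP : P * P = P) (hs : Pᵀ = P) (S : Finset (Fin n)) (a : Fin n) :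
    EInv φ P (MSt h hP y S a) := by
  unfold MSt
  split_ifs
  · exact h.EInv_Rte hP hs
  · exact h.EInv_DDt hP

theorem Cn.s_yDt (h : Cn φ P w) (i j : ι) : G.s (yDt φ P w y i j) = -yDt φ P w y i j := by
  unfold yDt
  rw [map_mul, φ.ev, h.s_DT, mul_neg]

theorem yDt_0 (hy : P.mulVec y = y) (i j : ι) : ∑ m, φ.f (P i m) * yDt φ P w y m j = yDt φ P w y i j := by
  unfold yDt
  rw [← pUv hy i, Finset.sum_mul]
  exact Finset.sum_congr rfl fun m _ => by rw [mul_assoc]

theorem Cn.yDt_1 (h : Cn φ P w) (hP : P * P = P) (i j : ι) :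
    ∑ m, φ.f (P j m) * yDt φ P w y i m = yDt φ P w y i j := by
  unfold yDt
  rw [← h.P_DT hP j, Finset.mul_sum]
  exact Finset.sum_congr rfl fun m _ => cm1 _ _ _

/-- the two terms of the first pair -/
theorem Cn.St_dyD (h : Cn φ P w) (ho : Or (2 * (n + 1)) P o) (hy : Sec P y) (M : Fin n → Matrix ι ι G.Ee) :
    St φ o (TX (cdv G w (yDt φ P w y)) M) =
      St φ o (TX (fun i j => (DDt h y i j : B)) M) + St φ o (TX (fun i j => (YWt h ho.idem y i j : B)) M) := by
  obtain ⟨D, hD⟩ : ∃ D, D = DT φ P w y := ⟨_, rfl⟩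
  obtain ⟨d1, hd1⟩ : ∃ d1 : ι → B, d1 = fun i => G.d (φ.f (y i)) + ∑ m, w i m * φ.f (y m) := ⟨_, rfl⟩
  obtain ⟨d2, hd2⟩ : ∃ d2 : ι → B, d2 = fun i => G.d (D i) + ∑ m, w i m * D m := ⟨_, rfl⟩
  have e1 : ∀ i j, cdv G w (yDt φ P w y) i j = d1 i * D j + φ.f (y i) * d2 j := fun i j => by
    unfold cdv yDt
    rw [← hD, hd1, hd2, G.d_mul, φ.ev]
    simp only
    rw [add_mul, mul_add, Finset.sum_mul, Finset.mul_sum]
    have f1 : ∀ m, w i m * (φ.f (y m) * D j) = w i m * φ.f (y m) * D j := fun m => (mul_assoc _ _ _).symm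
    have f2 : ∀ m, w j m * (φ.f (y i) * D m) = φ.f (y i) * (w j m * D m) := fun m => (cm1 _ _ _).symm
    simp only [f1, f2]
    abel
  have p1 : ∀ i, ∑ m, φ.f (P i m) * d1 m = D i := by
    intro i
    rw [hd1, hD]
    unfold DT
    simp only [mul_add]
    rw [Finset.sum_add_distrib]
    congr 1
    simp only [Finset.mul_sum]
    rw [Finset.sum_comm]
    refine Finset.sum_congr rfl fun j _ => ?_
    have f1 : ∀ m, φ.f (P i m) * (w m j * φ.f (y j)) = P.map φ.f i m * w m j * φ.f (y j) := fun m =>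
      (mul_assoc _ _ _).symm
    simp only [f1]
    rw [← Finset.sum_mul, ← Matrix.mul_apply, h.l]
  have p2 : ∀ i, ∑ m, φ.f (P i m) * d2 m = WT φ P w y i := by
    intro i
    rw [← h.P_dDT ho.idem hy.pr i, hd2, ← hD]
    simp only [mul_add]
    rw [Finset.sum_add_distrib]
    congr 1
    simp only [Finset.mul_sum]
    rw [Finset.sum_comm]
    refine Finset.sum_congr rfl fun j _ => ?_
    have f1 : ∀ m, φ.f (P i m) * (w m j * D j) = P.map φ.f i m * w m j * D j := fun m => (mul_assoc _ _ _).symm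
    simp only [f1]
    rw [← Finset.sum_mul, ← Matrix.mul_apply, h.l]
  have e2 : St φ o (TX (cdv G w (yDt φ P w y)) M) =
      St φ o (TX (fun i j => d1 i * D j) M) + St φ o (TX (fun i j => φ.f (y i) * d2 j) M) := by
    rw [← St_add]
    refine St_congr fun I => ?_
    unfold TX
    beta_reduce
    rw [e1, add_mul]
  rw [e2]
  congr 1
  · refine St_pr ho (s0 0) fun I => ?_
    rw [TX_0]
    unfold TX
    congr 1
    change ∑ m, φ.f (P (I (s0 0)) m) * (d1 m * D (I (s1 0))) = DT φ P w y (I (s0 0)) * DT φ P w y (I (s1 0))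
    rw [← hD, ← p1 (I (s0 0)), Finset.sum_mul]
    exact Finset.sum_congr rfl fun m _ => by rw [mul_assoc]
  · refine St_pr ho (s1 0) fun I => ?_
    rw [TX_1]
    unfold TX
    congr 1
    beta_reduce
    rw [YWt_val, ← p2 (I (s1 0)), Finset.mul_sum]
    exact Finset.sum_congr rfl fun m _ => cm1 _ _ _

/-- curvature pairs are closed -/
theorem Cn.St_dR (h : Cn φ P w) (ho : Or (2 * (n + 1)) P o) (X : ι → ι → B) (M : Fin n → Matrix ι ι G.Ee) (a : Fin n) :
    St φ o (TY X (cdv G w fun i j => (Rte h ho.idem i j : B)) a M) = 0 := by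
  obtain ⟨Z, hZ⟩ : ∃ Z, Z = G.D (RT φ P w) + w * RT φ P w - RT φ P w * w := ⟨_, rfl⟩
  have e1 : (cdv G w fun i j => (Rte h ho.idem i j : B)) = fun i j => Z i j := by
    funext i j
    rw [hZ, Matrix.sub_apply, Matrix.add_apply, sub_eq_add_neg]
    unfold cdv
    congr 1
    rw [Matrix.mul_apply, ← Finset.sum_neg_distrib]
    refine Finset.sum_congr rfl fun m _ => ?_
    change w j m * RT φ P w i m = -(RT φ P w i m * w m j)
    have h1 : w m j = -w j m := congrFun (congrFun h.anti j) m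
    rw [h1, mul_neg, neg_neg]
    exact (G.comm_even _ _ ((h.ev ho.idem).app i m)).symm
  rw [e1]
  have h1 : St φ o (TY X (fun i j => Z i j) a M) =
      St φ o (TY X (fun i j => ∑ l, φ.f (P i l) * Z l j) a M) := St_pr ho (s0 a.succ) fun I => TY_0 _ _ _ _ _ _
  have hb : P.map φ.f * Z * P.map φ.f = 0 := by
    rw [hZ]
    exact h.bianchi ho.idem
  have h2 : St φ o (TY X (fun i j => ∑ l, φ.f (P i l) * Z l j) a M) = St φ o (fun _ => 0) :=
    St_pr ho (s1 a.succ) fun I => by
      rw [TY_1, two_side ho.sym hb, zero_mul, mul_zero]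
  rw [h1, h2, St_zero]

/-- the pairs `Dy Dy` -/
theorem Cn.St_dDD (h : Cn φ P w) (ho : Or (2 * (n + 1)) P o) (hy : Sec P y) (M : Fin n → Matrix ι ι G.Ee) (a : Fin n)
    (hM : M a = DDt h y) : St φ o (TY (yDt φ P w y) (cdv G w fun i j => (DDt h y i j : B)) a M) =
      (-2 : ℝ) • St φ o (TX (fun i j => (YWt h ho.idem y i j : B)) M) := by
  obtain ⟨W, hW⟩ : ∃ W, W = WT φ P w y := ⟨_, rfl⟩
  obtain ⟨D, hD⟩ : ∃ D, D = DT φ P w y := ⟨_, rfl⟩
  have sD : ∀ l, G.s (D l) = -D l := fun l => by rw [hD]; exact h.s_DT l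
  have sW : ∀ l, G.s (W l) = W l := fun l => by rw [hW]; exact h.s_WT ho.idem l
  obtain ⟨d2, hd2⟩ : ∃ d2 : ι → B, d2 = fun i => G.d (D i) + ∑ m, w i m * D m := ⟨_, rfl⟩
  have p2 : ∀ i, ∑ m, φ.f (P i m) * d2 m = W i := by
    intro i
    rw [hW, ← h.P_dDT ho.idem hy.pr i, hd2, ← hD]
    simp only [mul_add]
    rw [Finset.sum_add_distrib]
    congr 1
    simp only [Finset.mul_sum]
    rw [Finset.sum_comm]
    refine Finset.sum_congr rfl fun j _ => ?_
    have f1 : ∀ m, φ.f (P i m) * (w m j * D j) = P.map φ.f i m * w m j * D j := fun m => (mul_assoc _ _ _).symm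
    simp only [f1]
    rw [← Finset.sum_mul, ← Matrix.mul_apply, h.l]
  have e0 : ∀ i j, cdv G w (fun i j => (DDt h y i j : B)) i j = d2 i * D j - D i * d2 j := fun i j => by
    unfold cdv
    change G.d (DT φ P w y i * DT φ P w y j) + ∑ m, w i m * (DT φ P w y m * DT φ P w y j) +
      ∑ m, w j m * (DT φ P w y i * DT φ P w y m) = _
    rw [← hD, hd2, G.d_mul, sD]
    simp only
    rw [add_mul, mul_add, Finset.sum_mul, Finset.mul_sum]
    have f1 : ∀ m, w i m * (D m * D j) = w i m * D m * D j := fun m => (mul_assoc _ _ _).symm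
    have f2 : ∀ m, w j m * (D i * D m) = -(D i * (w j m * D m)) := fun m => by
      rw [← mul_assoc, G.comm_odd _ _ (h.od.app j m) (sD i), neg_mul, mul_assoc]
    simp only [f1, f2]
    rw [Finset.sum_neg_distrib, neg_mul]
    abel
  have e1 : St φ o (TY (yDt φ P w y) (cdv G w fun i j => (DDt h y i j : B)) a M) =
      St φ o (TY (yDt φ P w y) (fun i j => d2 i * D j) a M) -
        St φ o (TY (yDt φ P w y) (fun i j => D i * d2 j) a M) := by
    rw [← St_sub]
    refine St_congr fun I => ?_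
    unfold TY
    beta_reduce
    rw [e0, sub_mul, mul_sub]
  have e3 : St φ o (TY (yDt φ P w y) (fun i j => d2 i * D j) a M) =
      St φ o (TY (yDt φ P w y) (fun i j => W i * D j) a M) :=
    St_pr ho (s0 a.succ) fun I => by
      rw [TY_0]
      unfold TY
      congr 2
      beta_reduce
      rw [← p2, Finset.sum_mul]
      exact Finset.sum_congr rfl fun m _ => by rw [mul_assoc]
  have e4 : St φ o (TY (yDt φ P w y) (fun i j => D i * d2 j) a M) =
      St φ o (TY (yDt φ P w y) (fun i j => D i * W j) a M) :=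
    St_pr ho (s1 a.succ) fun I => by
      rw [TY_1]
      unfold TY
      congr 2
      beta_reduce
      rw [← p2, Finset.mul_sum]
      exact Finset.sum_congr rfl fun m _ => cm1 _ _ _
  -- exchange of slots
  have r1 : ∀ (I : Fin (2 * (n + 1)) → ι) (c : Fin (2 * (n + 1))), c = s0 a.succ ∨ c = s1 a.succ →
      ∏ b ∈ Finset.univ.erase a, M b ((I ∘ Equiv.swap (s1 0) c) (s0 b.succ)) ((I ∘ Equiv.swap (s1 0) c) (s1 b.succ)) =
        ∏ b ∈ Finset.univ.erase a, M b (I (s0 b.succ)) (I (s1 b.succ)) := by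
    intro I c hc
    refine Finset.prod_congr rfl fun b hb => ?_
    have hb' : b ≠ a := Finset.ne_of_mem_erase hb
    have f1 : s0 b.succ ≠ c := by
      rcases hc with rfl | rfl
      · exact fun e => hb' (Fin.succ_inj.1 (s0_inj e))
      · exact s0_ne_s1 _ _
    have f2 : s1 b.succ ≠ c := by
      rcases hc with rfl | rfl
      · exact (s0_ne_s1 _ _).symm
      · exact fun e => hb' (Fin.succ_inj.1 (s1_inj e))
    rw [Function.comp_apply, Function.comp_apply, Equiv.swap_apply_of_ne_of_ne (s0_ne_s1 _ _) f1,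
      Equiv.swap_apply_of_ne_of_ne (ss1 b) f2]
  have hMa : ∀ i j, (M a i j : B) = D i * D j := fun i j => by
    rw [hM, hD]
    rfl
  have e5 : St φ o (TX (fun i j => (YWt h ho.idem y i j : B)) M) =
      -St φ o (TY (yDt φ P w y) (fun i j => W i * D j) a M) := by
    rw [← St_swap ho (ss0 a |> fun _ => (s0_ne_s1 a.succ 0).symm)]
    refine St_congr fun I => ?_
    rw [TX_TY (a := a)]
    unfold TY
    beta_reduce
    rw [r1 I _ (Or.inl rfl), YWt_val, ← hW, hMa]
    have g1 : (I ∘ Equiv.swap (s1 0) (s0 a.succ)) (s0 0) = I (s0 0) := by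
      rw [Function.comp_apply, Equiv.swap_apply_of_ne_of_ne (s0_ne_s1 _ _) (ss0 a).symm]
    have g2 : (I ∘ Equiv.swap (s1 0) (s0 a.succ)) (s1 0) = I (s0 a.succ) := by
      rw [Function.comp_apply, Equiv.swap_apply_left]
    have g3 : (I ∘ Equiv.swap (s1 0) (s0 a.succ)) (s0 a.succ) = I (s1 0) := by
      rw [Function.comp_apply, Equiv.swap_apply_right]
    have g4 : (I ∘ Equiv.swap (s1 0) (s0 a.succ)) (s1 a.succ) = I (s1 a.succ) := by
      rw [Function.comp_apply, Equiv.swap_apply_of_ne_of_ne (ss1 a) (s0_ne_s1 _ _).symm]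
    rw [g1, g2, g3, g4]
    unfold yDt
    rw [← hD]
    have g5 := ev_comm (sW (I (s1 0))) (D (I (s0 a.succ)))
    exact nc1 _ _ _ _ _ g5
  have e6 : St φ o (TX (fun i j => (YWt h ho.idem y i j : B)) M) =
      St φ o (TY (yDt φ P w y) (fun i j => D i * W j) a M) := by
    have g0 : St φ o (fun I => TY (yDt φ P w y) (fun i j => D i * W j) a M (I ∘ Equiv.swap (s1 0) (s1 a.succ))) =
        -St φ o (TX (fun i j => (YWt h ho.idem y i j : B)) M) := by
      rw [← St_neg]
      refine St_congr fun I => ?_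
      rw [TX_TY (a := a)]
      unfold TY
      beta_reduce
      rw [r1 I _ (Or.inr rfl), YWt_val, ← hW, hMa]
      have g1 : (I ∘ Equiv.swap (s1 0) (s1 a.succ)) (s0 0) = I (s0 0) := by
        rw [Function.comp_apply, Equiv.swap_apply_of_ne_of_ne (s0_ne_s1 _ _) (s0_ne_s1 _ _)]
      have g2 : (I ∘ Equiv.swap (s1 0) (s1 a.succ)) (s1 0) = I (s1 a.succ) := by
        rw [Function.comp_apply, Equiv.swap_apply_left]
      have g3 : (I ∘ Equiv.swap (s1 0) (s1 a.succ)) (s0 a.succ) = I (s0 a.succ) := by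
        rw [Function.comp_apply, Equiv.swap_apply_of_ne_of_ne (s0_ne_s1 _ _) (s0_ne_s1 _ _)]
      have g4 : (I ∘ Equiv.swap (s1 0) (s1 a.succ)) (s1 a.succ) = I (s1 0) := by
        rw [Function.comp_apply, Equiv.swap_apply_right]
      rw [g1, g2, g3, g4]
      unfold yDt
      rw [← hD]
      have g5 := ev_comm (sW (I (s1 0))) (D (I (s0 a.succ)) * D (I (s1 a.succ)))
      have g6 := G.comm_odd _ _ (sD (I (s1 a.succ))) (sD (I (s0 a.succ)))
      exact nc2 _ _ _ _ _ g5 g6
    rw [St_swap ho (ss1 a).symm] at g0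
    exact (neg_injective g0).symm
  rw [e1, e3, e4, ← e6]
  have e7 : St φ o (TY (yDt φ P w y) (fun i j => W i * D j) a M) =
      -St φ o (TX (fun i j => (YWt h ho.idem y i j : B)) M) := by
    rw [e5, neg_neg]
  rw [e7]
  module

theorem cdv_Ee (M : Matrix ι ι G.Ee) : (cdv G w fun i j => (M i j : B)) = cdv G w fun i j => (M i j : B) := rfl

/-- the differential of the terms -/
theorem Cn.d_PhiT (h : Cn φ P w) (ho : Or (2 * (n + 1)) P o) (hy : Sec P y) (S : Finset (Fin n)) :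
    G.d (PhiT h ho.idem o y S) =
      (ASt h ho.idem o y S : B) + (1 + 2 * ((n : ℝ) - S.card)) • (BSt h ho.idem o y S : B) := by
  unfold PhiT
  rw [h.d_St ho (Inv_TX (yDt_0 hy.pr) (h.yDt_1 ho.idem) (h.EInv_MSt ho.idem ho.sym S))]
  have e1 : St φ o (fun I => G.d (TX (yDt φ P w y) (MSt h ho.idem y S) I) +
      ∑ k, ∑ m, w (I k) m * TX (yDt φ P w y) (MSt h ho.idem y S) (update I k m)) =
      St φ o (TX (cdv G w (yDt φ P w y)) (MSt h ho.idem y S)) -
        ∑ a, St φ o (TY (yDt φ P w y) (cdv G w fun i j => (MSt h ho.idem y S a i j : B)) a (MSt h ho.idem y S)) := by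
    rw [← St_sum, ← St_sub]
    exact St_congr fun I => h.cd_TX h.s_yDt _ I
  have e2 : ∀ a, St φ o (TY (yDt φ P w y) (cdv G w fun i j => (MSt h ho.idem y S a i j : B)) a (MSt h ho.idem y S)) =
      if a ∈ S then 0 else (-2 : ℝ) • (BSt h ho.idem o y S : B) := by
    intro a
    by_cases ha : a ∈ S
    · have h1 : MSt h ho.idem y S a = Rte h ho.idem := if_pos ha
      rw [if_pos ha, h1, h.St_dR ho]
    · have h1 : MSt h ho.idem y S a = DDt h y := if_neg ha
      rw [if_neg ha, h1, h.St_dDD ho hy _ a h1, St_TX]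
      rfl
  rw [e1, h.St_dyD ho hy, St_TX, St_TX]
  simp only [e2]
  rw [Finset.sum_ite, Finset.sum_const_zero, zero_add, Finset.sum_const, ← Nat.cast_smul_eq_nsmul ℝ]
  have e3 : ((Finset.univ.filter fun a : Fin n => a ∉ S).card : ℝ) = (n : ℝ) - S.card := by
    have h2 : (Finset.univ.filter fun a : Fin n => a ∉ S) = Sᶜ := by
      ext a
      simp
    rw [h2, Finset.card_compl, Fintype.card_fin, Nat.cast_sub]
    have := S.card_le_univ
    rwa [Fintype.card_fin] at this
  rw [e3, smul_smul]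
  change (ASt h ho.idem o y S : B) + (BSt h ho.idem o y S : B) - _ = _
  module

end Pool.Agent.Lib.MP_ccbbf6_gt.L5
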