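import Pool.Agent.Lib.MP_ccbbf6_gt.L5.EG4
import Pool.Agent.Lib.MP_ccbbf6_gt.L5.EGT2

/-!
# Level 5, EGT3: transgression of the Euler form of a metric connection, `d psiT = eulM (curvature)` (helper13)
-/

set_option autoImplicit false
set_option maxSynthPendingDepth 3
set_option linter.unusedSectionVars false

open Matrix Function

noncomputable section

namespace Pool.Agent.Lib.MP_ccbbf6_gt.L5

variable {ι : Type*} [Fintype ι] [DecidableEq ι] {n m : ℕ} {A : Type*} [CommRing A] [Algebra ℝ A] {B : Type*} [Ring B]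
  [Algebra ℝ B] {G : GDA B} {φ : Fun0 A G} {P : Matrix ι ι A} {w : Matrix ι ι B}

/-- the Euler form of an even curvature matrix -/
def eulM (φ : Fun0 A G) (o : (Fin (2 * m) → ι) → A) (M : Matrix ι ι G.Ee) : B :=
  (-(1 / ((4 * Real.pi) ^ m * m.factorial))) • ((pfo (fun I => φ.e (o I)) M : G.Ee) : B)

theorem eulG_eulM (P : Matrix ι ι A) (o : (Fin (2 * m) → ι) → A) : eulG φ P o = eulM φ o (Re φ P) := rfl

theorem s_eulM {o : (Fin (2 * m) → ι) → A} {M : Matrix ι ι G.Ee} : G.s (eulM φ o M) = eulM φ o M := by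
  unfold eulM
  rw [map_smul]
  congr 1
  exact (pfo (fun I => φ.e (o I)) M).2

variable {o : (Fin (2 * (n + 1)) → ι) → A} {y : ι → A}

/-- the unit section and the curvature -/
theorem Cn.yR_l (h : Cn φ P w) (hP : P * P = P) (hs : Pᵀ = P) (j : ι) :
    ∑ e, φ.e (y e) * Rte h hP e j = -Wte h hP y j := by
  refine Subtype.ext ?_
  rw [val_sum]
  change ∑ m, φ.f (y m) * RT φ P w m j = -((Wte h hP y j : G.Ee) : B)
  rw [Wte_val, h.y_RT hP hs]

theorem Cn.yR_r (h : Cn φ P w) (hP : P * P = P) (i : ι) : ∑ e, φ.e (y e) * Rte h hP i e = Wte h hP y i :=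
  Finset.sum_congr rfl fun _ _ => mul_comm _ _

/-- the unit section and `Dy Dy^T` -/
theorem Cn.yD_l (h : Cn φ P w) (hs : Pᵀ = P) (hy : Sec P y) (j : ι) : ∑ e, φ.e (y e) * DDt h y e j = 0 := by
  refine Subtype.ext ?_
  rw [val_sum]
  change ∑ m, φ.f (y m) * (DT φ P w y m * DT φ P w y j) = 0
  have h1 := h.y_DT hs hy
  calc ∑ m, φ.f (y m) * (DT φ P w y m * DT φ P w y j) = (∑ m, φ.f (y m) * DT φ P w y m) * DT φ P w y j := by
        rw [Finset.sum_mul]
        exact Finset.sum_congr rfl fun m _ => by rw [mul_assoc]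
    _ = 0 := by rw [h1, zero_mul]

theorem Cn.yD_r (h : Cn φ P w) (hs : Pᵀ = P) (hy : Sec P y) (i : ι) : ∑ e, φ.e (y e) * DDt h y i e = 0 := by
  refine Subtype.ext ?_
  rw [val_sum]
  change ∑ m, φ.f (y m) * (DT φ P w y i * DT φ P w y m) = 0
  have h1 := h.y_DT hs hy
  calc ∑ m, φ.f (y m) * (DT φ P w y i * DT φ P w y m) = DT φ P w y i * ∑ m, φ.f (y m) * DT φ P w y m := by
        rw [Finset.mul_sum]
        exact Finset.sum_congr rfl fun m _ => cm1 _ _ _
    _ = 0 := by rw [h1, mul_zero]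

/-- Schouten identity -/
theorem Cn.pfs_RD (h : Cn φ P w) (ho : Or (2 * (n + 1)) P o) (hy : Sec P y) (M : Fin (n + 1) → Matrix ι ι G.Ee)
    (T : Finset (Fin (n + 1))) (hT : ∀ a ∈ T, M a = Rte h ho.idem)
    (hT' : ∀ a ∉ T, M a = DDt h y) :
    pfs (fun I => φ.e (o I)) M = ∑ a ∈ T, -2 * pfs (fun I => φ.e (o I)) (update M a (YWt h ho.idem y)) := by
  have h' : Or (2 * (n + 1)) (P.map φ.e) (fun I => φ.e (o I)) := ho.e
  rw [pfs_sch' h' hy.e_pr hy.e_un, ← Finset.sum_subset (Finset.subset_univ T)]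
  · refine Finset.sum_congr rfl fun a ha => ?_
    have e1 : (Matrix.of fun i j => φ.e (y i) * (∑ e, φ.e (y e) * M a e j) + φ.e (y j) * (∑ e, φ.e (y e) * M a i e)) =
        -YWt h ho.idem y + (YWt h ho.idem y)ᵀ := by
      refine Matrix.ext fun i j => ?_
      rw [Matrix.of_apply, hT a ha, h.yR_l ho.idem ho.sym, h.yR_r, Matrix.add_apply, Matrix.neg_apply,
        Matrix.transpose_apply]
      change _ = -(φ.e (y i) * Wte h ho.idem y j) + φ.e (y j) * Wte h ho.idem y i
      ring
    rw [e1, pfs_upd_add, pfs_upd_neg, pfs_upd_tr h']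
    ring
  · intro a _ ha
    have e1 : (Matrix.of fun i j => φ.e (y i) * (∑ e, φ.e (y e) * M a e j) + φ.e (y j) * (∑ e, φ.e (y e) * M a i e)) =
        (0 : Matrix ι ι G.Ee) := by
      refine Matrix.ext fun i j => ?_
      rw [Matrix.of_apply, hT' a ha, h.yD_l ho.sym hy, h.yD_r ho.sym hy, mul_zero, mul_zero, add_zero, Matrix.zero_apply]
    rw [e1, pfs_upd_zero]

/-- `A_S = - 2 sum_(a in S) B_(S - a)` -/
theorem Cn.ASt_eq (h : Cn φ P w) (ho : Or (2 * (n + 1)) P o) (hy : Sec P y) (S : Finset (Fin n)) :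
    ASt h ho.idem o y S = ∑ a ∈ S, -2 * BSt h ho.idem o y (S.erase a) := by
  unfold ASt BSt
  obtain ⟨M, hM⟩ : ∃ M : Fin (n + 1) → Matrix ι ι G.Ee, M = Fin.cons (DDt h y) (MSt h ho.idem y S) := ⟨_, rfl⟩
  rw [← hM, h.pfs_RD ho hy M (S.map (Fin.succEmb n)) ?_ ?_, Finset.sum_map]
  · refine Finset.sum_congr rfl fun a ha => ?_
    have h' : Or (2 * (n + 1)) (P.map φ.e) (fun I => φ.e (o I)) := ho.e
    rw [← pfs_swap h' _ 0 a.succ]
    congr 2
    funext b
    rw [Function.comp_apply]
    refine Fin.cases ?_ (fun b => ?_) b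
    · rw [Equiv.swap_apply_left]
      change update M a.succ (YWt h ho.idem y) a.succ = _
      rw [update_self]
      rfl
    · by_cases hb : b = a
      · subst hb
        rw [Equiv.swap_apply_right]
        change update M b.succ (YWt h ho.idem y) 0 = _
        rw [update_of_ne (Fin.succ_ne_zero b).symm, hM]
        change DDt h y = MSt h ho.idem y (S.erase b) b
        unfold MSt
        rw [if_neg (Finset.notMem_erase b S)]
      · rw [Equiv.swap_apply_of_ne_of_ne (Fin.succ_ne_zero b) (fun e => hb (Fin.succ_inj.1 e))]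
        change update M a.succ (YWt h ho.idem y) b.succ = _
        rw [update_of_ne (fun e => hb (Fin.succ_inj.1 e)), hM]
        change MSt h ho.idem y S b = MSt h ho.idem y (S.erase a) b
        unfold MSt
        simp only [Finset.mem_erase, ne_eq, hb, not_false_eq_true, true_and]
  · intro a ha
    obtain ⟨b, hb, rfl⟩ := Finset.mem_map.1 ha
    rw [hM]
    exact if_pos hb
  · intro a
    rw [hM]
    refine Fin.cases ?_ (fun a => ?_) a
    · intro _
      rfl
    · intro ha
      have ha' : a ∉ S := fun hh => ha (Finset.mem_map.2 ⟨a, hh, rfl⟩)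
      exact if_neg ha'

/-- `Z = - 2 (n + 1) B` -/
theorem Cn.ZG_BS (h : Cn φ P w) (ho : Or (2 * (n + 1)) P o) (hy : Sec P y) :
    pfo (fun I => φ.e (o I)) (Rte h ho.idem) = -2 * ((n : G.Ee) + 1) * BSt h ho.idem o y Finset.univ := by
  unfold BSt
  rw [pfo_eq, h.pfs_RD ho hy (fun _ => Rte h ho.idem) Finset.univ (fun _ _ => rfl)
    (fun a ha => absurd (Finset.mem_univ a) ha)]
  have h' : Or (2 * (n + 1)) (P.map φ.e) (fun I => φ.e (o I)) := ho.e
  have e1 : ∀ a : Fin (n + 1), pfs (fun I => φ.e (o I)) (update (fun _ => Rte h ho.idem) a (YWt h ho.idem y)) =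
      pfs (fun I => φ.e (o I)) (Fin.cons (YWt h ho.idem y) (MSt h ho.idem y Finset.univ) :
        Fin (n + 1) → Matrix ι ι G.Ee) := by
    intro a
    rw [← pfs_swap h' _ 0 a]
    congr 1
    funext b
    rw [Function.comp_apply]
    refine Fin.cases ?_ (fun b => ?_) b
    · rw [Equiv.swap_apply_left, update_self]
      rfl
    · have h2 : Equiv.swap 0 a b.succ ≠ a := by
        intro e
        have h3 := congrArg (Equiv.swap 0 a) e
        rw [Equiv.swap_apply_self, Equiv.swap_apply_right] at h3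
        exact Fin.succ_ne_zero b h3
      rw [update_of_ne h2]
      change Rte h ho.idem = MSt h ho.idem y Finset.univ b
      exact (if_pos (Finset.mem_univ b)).symm
  simp only [e1]
  rw [Finset.sum_const, Finset.card_univ, Fintype.card_fin, nsmul_eq_mul]
  push_cast
  ring

/-- the transgression before normalisation -/
def psiRT (h : Cn φ P w) (hP : P * P = P) (o : (Fin (2 * (n + 1)) → ι) → A) (y : ι → A) : B :=
  ∑ S : Finset (Fin n), wt n S.card • PhiT h hP o y S

theorem Cn.d_psiR (h : Cn φ P w) (ho : Or (2 * (n + 1)) P o) (hy : Sec P y) :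
    G.d (psiRT h ho.idem o y) = wt n n • ((BSt h ho.idem o y Finset.univ : G.Ee) : B) := by
  have e0 : ∀ S : Finset (Fin n), ((ASt h ho.idem o y S : G.Ee) : B) =
      ∑ a ∈ S, (-2 : ℝ) • ((BSt h ho.idem o y (S.erase a) : G.Ee) : B) := by
    intro S
    rw [h.ASt_eq ho hy, val_sum]
    refine Finset.sum_congr rfl fun a _ => ?_
    have h1 : (-2 * BSt h ho.idem o y (S.erase a) : G.Ee) = (-2 : ℝ) • BSt h ho.idem o y (S.erase a) := by
      rw [Algebra.smul_def, map_neg, map_ofNat]
    rw [h1]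
    rfl
  unfold psiRT
  rw [map_sum]
  simp only [map_smul]
  have e1 : ∀ S : Finset (Fin n), wt n S.card • G.d (PhiT h ho.idem o y S) =
      (∑ a ∈ S, (-2 * wt n S.card) • ((BSt h ho.idem o y (S.erase a) : G.Ee) : B)) +
        (wt n S.card * (1 + 2 * ((n : ℝ) - S.card))) • ((BSt h ho.idem o y S : G.Ee) : B) := by
    intro S
    rw [h.d_PhiT ho hy, smul_add, smul_smul, e0, Finset.smul_sum]
    congr 1
    refine Finset.sum_congr rfl fun a _ => ?_
    rw [smul_smul, mul_comm]
  simp only [e1]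
  rw [Finset.sum_add_distrib, sum_erase fun k S => (-2 * wt n k) • ((BSt h ho.idem o y S : G.Ee) : B),
    ← Finset.sum_add_distrib, Finset.sum_eq_single Finset.univ]
  · rw [Finset.compl_univ, Finset.sum_empty, zero_add, Finset.card_univ, Fintype.card_fin, sub_self, mul_zero, add_zero,
      mul_one]
  · intro S _ hS
    have h1 : S.card < n := by
      have := Finset.card_lt_univ_of_notMem (s := S) (x := (Finset.exists_of_ssubset
        (Finset.ssubset_univ_iff.2 hS)).choose) (Finset.exists_of_ssubset (Finset.ssubset_univ_iff.2 hS)).choose_spec.2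
      rwa [Fintype.card_fin] at this
    rw [Finset.sum_const, Finset.card_compl, Fintype.card_fin, ← Nat.cast_smul_eq_nsmul ℝ, smul_smul, ← add_smul,
      Nat.cast_sub h1.le]
    have h2 := wt_succ n h1
    have h3 : ((n : ℝ) - S.card) * (-2 * wt n (S.card + 1)) + wt n S.card * (1 + 2 * ((n : ℝ) - S.card)) = 0 := by
      linarith
    rw [h3, zero_smul]
  · intro hh
    exact absurd (Finset.mem_univ _) hh

/-- **the transgression form** -/
def psiT (h : Cn φ P w) (hP : P * P = P) (o : (Fin (2 * (n + 1)) → ι) → A) (y : ι → A) : B :=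
  cstG n • psiRT h hP o y

/-- **transgression of the Euler form of a metric connection** -/
theorem Cn.d_psiT (h : Cn φ P w) (ho : Or (2 * (n + 1)) P o) (hy : Sec P y) :
    G.d (psiT h ho.idem o y) = eulM φ o (Rte h ho.idem) := by
  unfold psiT
  rw [map_smul, h.d_psiR ho hy, smul_smul]
  unfold eulM
  rw [h.ZG_BS ho hy]
  have e1 : (-2 * ((n : G.Ee) + 1) * BSt h ho.idem o y Finset.univ) =
      (-2 * ((n : ℝ) + 1)) • BSt h ho.idem o y Finset.univ := by
    rw [Algebra.smul_def, map_mul, map_neg, map_ofNat, map_add, map_natCast, map_one]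
  rw [e1]
  change _ = _ • ((-2 * ((n : ℝ) + 1)) • ((BSt h ho.idem o y Finset.univ : G.Ee) : B))
  rw [smul_smul]
  congr 1
  have h1 := (wt_pos n (le_refl n)).ne'
  have h2 : ((4 * Real.pi) ^ (n + 1) * (n + 1).factorial : ℝ) ≠ 0 :=
    mul_ne_zero (pow_ne_zero _ (mul_ne_zero four_ne_zero Real.pi_ne_zero))
      (Nat.cast_ne_zero.2 (Nat.factorial_ne_zero _))
  unfold cstG
  field_simp

theorem s_PhiT (h : Cn φ P w) (hP : P * P = P) (S : Finset (Fin n)) : G.s (PhiT h hP o y S) = -PhiT h hP o y S := by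
  unfold PhiT
  rw [s_St, ← St_neg]
  refine St_congr fun I => ?_
  unfold TX
  rw [map_mul, h.s_yDt, neg_mul]
  congr 2
  exact (∏ a, MSt h hP y S a (I (s0 a.succ)) (I (s1 a.succ)) : G.Ee).2

theorem s_psiT (h : Cn φ P w) (hP : P * P = P) : G.s (psiT h hP o y) = -psiT h hP o y := by
  unfold psiT psiRT
  rw [map_smul, map_sum, ← smul_neg, ← Finset.sum_neg_distrib]
  congr 1
  refine Finset.sum_congr rfl fun S _ => ?_
  rw [map_smul, s_PhiT, smul_neg]

end Pool.Agent.Lib.MP_ccbbf6_gt.L5
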