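import Pool.Agent.Lib.MP_ccbbf6_gt.L5.EGT0
import Pool.Agent.Lib.MP_ccbbf6_gt.L5.EU9

/-!
# Level 5, EGT5: the Gauss equation for metric connections; the reduced connection (helper13)
-/

set_option autoImplicit false
set_option maxSynthPendingDepth 3
set_option linter.unusedSectionVars false

open Matrix Function

noncomputable section

namespace Pool.Agent.Lib.MP_ccbbf6_gt.L5

variable {ι κ : Type*} [Fintype ι] [DecidableEq ι] [Fintype κ] [DecidableEq κ] {n m : ℕ} {A : Type*} [CommRing A]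
  [Algebra ℝ A] {B : Type*} [Ring B] [Algebra ℝ B] {G : GDA B} {φ : Fun0 A G} {P : Matrix ι ι A} {w : Matrix ι ι B}
  {y : ι → A}

/-- transpose of a product with an even second factor -/
theorem transpose_ev' {ι' : Type*} [Fintype ι'] {M : Matrix ι κ B} {N : Matrix κ ι' B} (hN : G.Ev N) :
    (M * N)ᵀ = Nᵀ * Mᵀ := by
  ext i j
  rw [Matrix.transpose_apply, Matrix.mul_apply, Matrix.mul_apply]
  refine Finset.sum_congr rfl fun k _ => ?_
  have h1 : G.s (N k i) = N k i := congrFun (congrFun hN k) i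
  exact (G.comm_even _ _ h1).symm

/-- the reduced connection form -/
def wred (φ : Fun0 A G) (P : Matrix ι ι A) (w : Matrix ι ι B) (y : ι → A) : Matrix ι ι B :=
  (redP P y).map φ.f * w * (redP P y).map φ.f

theorem redP_idem (hP : P * P = P) (hs : Pᵀ = P) (hy : Sec P y) : redP P y * redP P y = redP P y := by
  have h1 : ∀ i j, ∑ k, P i k * (y k * y j) = y i * y j := fun i j => by
    have := congrFun hy.pr i
    rw [Matrix.mulVec, dotProduct] at this
    conv_rhs => rw [← this, Finset.sum_mul]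
    exact Finset.sum_congr rfl fun k _ => by ring
  have h2 : ∀ i j, ∑ k, y i * y k * P k j = y i * y j := fun i j => by
    have := congrFun hy.pr j
    rw [Matrix.mulVec, dotProduct] at this
    conv_rhs => rw [← this, Finset.mul_sum]
    refine Finset.sum_congr rfl fun k _ => ?_
    have h3 : P j k = P k j := congrFun (congrFun hs k) j
    rw [h3]
    ring
  refine Matrix.ext fun i j => ?_
  rw [Matrix.mul_apply]
  unfold redP
  simp only [sub_mul, mul_sub]
  rw [Finset.sum_sub_distrib, Finset.sum_sub_distrib, Finset.sum_sub_distrib, h1, h2]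
  have h3 : ∑ k, P i k * P k j = P i j := by
    rw [← Matrix.mul_apply, hP]
  have h4 : ∑ k, y i * y k * (y k * y j) = y i * y j := by
    have : ∀ k, y i * y k * (y k * y j) = y i * y j * (y k * y k) := fun k => by ring
    simp only [this]
    rw [← Finset.mul_sum, hy.un, mul_one]
  rw [h3, h4]
  ring

theorem redP_tr (hs : Pᵀ = P) : (redP P y)ᵀ = redP P y := by
  refine Matrix.ext fun i j => ?_
  rw [Matrix.transpose_apply]
  unfold redP
  have h3 : P j i = P i j := congrFun (congrFun hs i) j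
  rw [h3, mul_comm]

theorem Cn.red (h : Cn φ P w) (hP : P * P = P) (hs : Pᵀ = P) (hy : Sec P y) :
    Cn φ (redP P y) (wred φ P w y) := by
  obtain ⟨W, hW⟩ : ∃ W, W = (redP P y).map φ.f := ⟨_, rfl⟩
  have eW : G.Ev W := by rw [hW]; exact φ.Ev _
  have hWt : Wᵀ = W := by rw [hW]; exact Pmap_tr (redP_tr hs)
  have w5 : W * W = W := by
    rw [hW, ← Matrix.map_mul, redP_idem hP hs hy]
  unfold wred
  rw [← hW]
  constructor
  · exact (eW.mul_od h.od).mul_ev eW
  · rw [transpose_ev' eW, GDA.transpose_ev eW, hWt, h.anti, Matrix.neg_mul, Matrix.mul_neg, Matrix.mul_assoc]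
  · rw [← hW, ← Matrix.mul_assoc, ← Matrix.mul_assoc, w5]
  · rw [← hW, Matrix.mul_assoc, w5]

/-- the matrix of `DT` -/
theorem DT_col : (fun l (_ : Unit) => DT φ P w y l) = P.map φ.f * G.D (uc φ y) + w * uc φ y := rfl

/-- **the Gauss equation** -/
theorem Cn.gauss (h : Cn φ P w) (hP : P * P = P) (hs : Pᵀ = P) (hy : Sec P y) :
    RT φ (redP P y) (wred φ P w y) = (redP P y).map φ.f * RT φ P w * (redP P y).map φ.f +
      (P.map φ.f * G.D (uc φ y) + w * uc φ y) * (P.map φ.f * G.D (uc φ y) + w * uc φ y)ᵀ := by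
  obtain ⟨Y, hY⟩ : ∃ Y, Y = uc φ y := ⟨_, rfl⟩
  obtain ⟨Q, hQ⟩ : ∃ Q, Q = P.map φ.f := ⟨_, rfl⟩
  obtain ⟨W, hW⟩ : ∃ W, W = (redP P y).map φ.f := ⟨_, rfl⟩
  obtain ⟨D, hD⟩ : ∃ D, D = Q * G.D Y := ⟨_, rfl⟩
  obtain ⟨v, hv⟩ : ∃ v, v = w * Y := ⟨_, rfl⟩
  have hI : G.Idem Q := by rw [hQ]; exact φ.idem hP
  have eY : G.Ev Y := by rw [hY]; exact ev_uc
  have eYt : G.Ev Yᵀ := by rw [hY]; exact ev_ucT
  have eW : G.Ev W := by rw [hW]; exact φ.Ev _
  have h1 : W = Q - Y * Yᵀ := by rw [hW, hQ, hY]; exact redP_map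
  have h2 : Q * Y = Y := by rw [hQ, hY]; exact P_uc hy.pr
  have h3 : Yᵀ * Q = Yᵀ := by rw [hQ, hY]; exact uc_P hs hy.pr
  have h4 : Yᵀ * Y = 1 := by rw [hY]; exact uc_uc hy.un
  have h5 : Yᵀ * G.D Y = 0 := by rw [hY]; exact uc_Duc hy.un
  have w1 : W * Y = 0 := by rw [h1, Matrix.sub_mul, h2, Matrix.mul_assoc, h4, Matrix.mul_one, sub_self]
  have w2 : Yᵀ * W = 0 := by rw [h1, Matrix.mul_sub, h3, ← Matrix.mul_assoc, h4, Matrix.one_mul, sub_self]
  have w3 : W * Q = W := by rw [h1, Matrix.sub_mul, hI.idem, Matrix.mul_assoc, h3]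
  have w4 : Q * W = W := by rw [h1, Matrix.mul_sub, hI.idem, ← Matrix.mul_assoc, h2]
  have w5 : W * W = W := by
    nth_rewrite 1 [h1]
    rw [Matrix.sub_mul, w4, Matrix.mul_assoc, w2, Matrix.mul_zero, sub_zero]
  have hWt : Wᵀ = W := by rw [hW]; exact Pmap_tr (redP_tr hs)
  have hl : Q * w = w := by rw [hQ]; exact h.l
  have hr : w * Q = w := by rw [hQ]; exact h.r
  have hQW : Q = W + Y * Yᵀ := by rw [h1, sub_add_cancel]
  have hWI : G.Idem W := ⟨w5, eW⟩
  -- v
  have v1 : Yᵀ * w = -vᵀ := by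
    have e1 : vᵀ = Yᵀ * wᵀ := by
      rw [hv]
      exact transpose_ev' eY
    rw [e1, h.anti, Matrix.mul_neg, neg_neg]
  have v0 : Yᵀ * v = 0 := by
    have e1 : Yᵀ * v = -(Yᵀ * v) := by
      have e2 : Yᵀ * v = -(vᵀ * Y) := by
        rw [hv, ← Matrix.mul_assoc, v1, Matrix.neg_mul, hv]
      have e3 : vᵀ * Y = Yᵀ * v := by
        have e4 : (Yᵀ * v)ᵀ = vᵀ * Y := by
          rw [GDA.transpose_ev eYt, Matrix.transpose_transpose]
        rw [← e4]
        ext a b
        rw [Matrix.transpose_apply, Subsingleton.elim a b]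
      rw [e3] at e2
      exact e2
    have e2 : (2 : ℝ) • (Yᵀ * v) = 0 := by
      rw [two_smul]
      nth_rewrite 1 [e1]
      exact neg_add_cancel _
    have e3 := congrArg (fun z => ((2 : ℝ)⁻¹) • z) e2
    simp only [smul_smul, smul_zero] at e3
    rwa [inv_mul_cancel₀ (two_ne_zero : (2 : ℝ) ≠ 0), one_smul] at e3
  have v2 : W * v = v := by
    rw [h1, Matrix.sub_mul, Matrix.mul_assoc Y, v0, Matrix.mul_zero, sub_zero, hv, ← Matrix.mul_assoc, hl]
  have v3 : vᵀ * W = vᵀ := by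
    have e1 := congrArg Matrix.transpose v2
    rw [GDA.transpose_ev eW, hWt] at e1
    exact e1
  have D2 : W * D = D := by
    rw [hD, ← Matrix.mul_assoc, w3]
    rw [h1, Matrix.sub_mul, Matrix.mul_assoc Y, h5, Matrix.mul_zero, sub_zero]
  have D2' : W * G.D Y = D := by
    rw [h1, Matrix.sub_mul, Matrix.mul_assoc Y, h5, Matrix.mul_zero, sub_zero, hD]
  have D3 : G.D Yᵀ * W = Dᵀ := by
    have e1 := congrArg Matrix.transpose D2'
    rw [GDA.transpose_ev eW, hWt] at e1
    exact e1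
  -- pieces
  have p1 : W * G.D W * Y = -D := by
    have e1 := congrArg G.D w1
    rw [GDA.D_mul, eW, GDA.D_zero] at e1
    have e2 : G.D W * Y = -(W * G.D Y) := eq_neg_of_add_eq_zero_left e1
    rw [Matrix.mul_assoc, e2, Matrix.mul_neg, ← Matrix.mul_assoc, w5, D2']
  have p2 : Yᵀ * G.D W * W = -Dᵀ := by
    have e1 := congrArg G.D w2
    rw [GDA.D_mul, eYt, GDA.D_zero] at e1
    have e2 : Yᵀ * G.D W = -(G.D Yᵀ * W) := eq_neg_of_add_eq_zero_right e1
    rw [e2, Matrix.neg_mul, Matrix.mul_assoc, w5, D3]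
  have p3 : W * G.D W * w = D * vᵀ := by
    have e1 : W * G.D W * w = W * G.D W * (Q * w) := by rw [hl]
    rw [e1, hQW, Matrix.add_mul, Matrix.mul_add, ← Matrix.mul_assoc (W * G.D W) W, hWI.pdp, Matrix.zero_mul, zero_add,
      Matrix.mul_assoc Y, ← Matrix.mul_assoc (W * G.D W) Y, p1, v1, Matrix.neg_mul, Matrix.mul_neg,
      neg_neg]
  have p4 : w * G.D W * W = -(v * Dᵀ) := by
    have e1 : w * G.D W * W = w * Q * G.D W * W := by rw [hr]
    have e2 : w * (Y * Yᵀ) * G.D W * W = w * Y * (Yᵀ * G.D W * W) := by simp only [Matrix.mul_assoc]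
    have e3 : w * W * G.D W * W = w * (W * G.D W * W) := by simp only [Matrix.mul_assoc]
    rw [e1, hQW, Matrix.mul_add, Matrix.add_mul, Matrix.add_mul, e2, e3, hWI.pdp, Matrix.mul_zero, zero_add, p2, ← hv,
      Matrix.mul_neg]
  have p5 : W * G.D (W * w * W) * W = D * vᵀ + W * G.D w * W + v * Dᵀ := by
    have e1 : G.D (W * w * W) = G.D W * w * W + W * G.D w * W - W * w * G.D W := by
      rw [GDA.D_mul, GDA.D_mul, GDA.S_mul, eW, show G.S w = -w from h.od, Matrix.mul_neg, Matrix.neg_mul,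
        Matrix.add_mul, ← sub_eq_add_neg]
    have f1 : W * (G.D W * w * W) * W = W * G.D W * w * (W * W) := by simp only [Matrix.mul_assoc]
    have f2 : W * (W * G.D w * W) * W = W * W * G.D w * (W * W) := by simp only [Matrix.mul_assoc]
    have f3 : W * (W * w * G.D W) * W = W * W * (w * G.D W * W) := by simp only [Matrix.mul_assoc]
    have f4 : W * (v * Dᵀ) = v * Dᵀ := by rw [← Matrix.mul_assoc, v2]
    rw [e1, Matrix.mul_sub, Matrix.sub_mul, Matrix.mul_add, Matrix.add_mul, f1, f2, f3, w5, p3, p4, Matrix.mul_assoc D,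
      v3, Matrix.mul_neg, f4, sub_neg_eq_add]
  have p6 : W * w * W * (W * w * W) = W * (w * w) * W + v * vᵀ := by
    have f1 : W * w * W * (W * w * W) = W * w * (W * W) * w * W := by simp only [Matrix.mul_assoc]
    have f2 : W * w * (Q - Y * Yᵀ) * w * W = W * (w * Q * w) * W - W * (w * Y) * ((Yᵀ * w) * W) := by
      rw [Matrix.mul_sub, Matrix.sub_mul, Matrix.sub_mul]
      simp only [Matrix.mul_assoc]
    rw [f1, w5]
    nth_rewrite 2 [h1]
    rw [f2, hr, ← hv, v1, Matrix.neg_mul, v3, Matrix.mul_neg, v2, sub_neg_eq_add]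
  have p7 : W * RT φ P w * W = W * Rv φ P * W + W * G.D w * W + W * (w * w) * W := by
    unfold RT
    rw [← hQ, Matrix.mul_add, Matrix.mul_add, Matrix.add_mul, Matrix.add_mul]
    congr 2
    have f1 : W * (Q * G.D w * Q) * W = W * Q * G.D w * (Q * W) := by simp only [Matrix.mul_assoc]
    rw [f1, w3, w4]
  have p8 := gauss_mat (φ := φ) hP hs hy
  rw [← hW, ← hQ, ← hY, ← hD] at p8
  have p9 : RT φ (redP P y) (wred φ P w y) = Rv φ (redP P y) + W * G.D (W * w * W) * W + W * w * W * (W * w * W) := by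
    unfold RT wred
    rw [← hW]
  rw [p9, p8, p5, p6, ← hW, ← hQ, ← hY, ← hD, ← hv, p7, Matrix.transpose_add, Matrix.add_mul, Matrix.mul_add,
    Matrix.mul_add]
  abel

end Pool.Agent.Lib.MP_ccbbf6_gt.L5
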