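import Pool.Agent.Lib.MP_ccbbf6_gt.L5.EG6
import Pool.Agent.Lib.MP_ccbbf6_gt.L5.EGT4
import Pool.Agent.Lib.MP_ccbbf6_gt.L5.EGT5
import Pool.Agent.Lib.MP_ccbbf6_gt.L5.EGW3

/-!
# Level 5, EGT6: the form `fT` of a bundle of odd rank `2 n + 1` with a metric connection and a unit section (helper13)

`fT = (-1)^n eulM (redo o y) (RT + Dy Dy^T)`: closed, even, odd in the section, natural, horizontal when the section is
equivariant; block formulas.
-/

set_option autoImplicit false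
set_option maxSynthPendingDepth 3
set_option linter.unusedSectionVars false

open Matrix Function

noncomputable section

namespace Pool.Agent.Lib.MP_ccbbf6_gt.L5

variable {ι κ : Type*} [Fintype ι] [DecidableEq ι] [Fintype κ] [DecidableEq κ] {n m l r : ℕ} {A A' : Type*} [CommRing A]
  [Algebra ℝ A] [CommRing A'] [Algebra ℝ A'] {B B' : Type*} [Ring B] [Algebra ℝ B] [Ring B'] [Algebra ℝ B'] {G : GDA B}
  {G' : GDA B'} {φ : Fun0 A G} {φ' : Fun0 A' G'} {P : Matrix ι ι A} {w : Matrix ι ι B} {y : ι → A}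

/-! ### the functional `eulM` -/

theorem eulM_proj {o : (Fin (2 * m) → ι) → A} (h : Or (2 * m) P o) (M : Matrix ι ι G.Ee) :
    eulM φ o (P.map φ.e * M * P.map φ.e) = eulM φ o M := by
  have h' : Or (2 * m) (P.map φ.e) (fun I => φ.e (o I)) := h.map' (φ.e : A →+* G.Ee)
  unfold eulM
  rw [pfo_proj h']

theorem eulM_op (o : (Fin (2 * m) → ι) → A) (M : Matrix ι ι G.Ee) : eulM φ (fun I => -o I) M = -eulM φ o M := by
  unfold eulM pfo
  rw [← smul_neg]
  congr 1
  have h1 : ∑ I : Fin (2 * m) → ι, φ.e (-o I) * ∏ a, M (I (s0 a)) (I (s1 a)) =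
      -∑ I : Fin (2 * m) → ι, φ.e (o I) * ∏ a, M (I (s0 a)) (I (s1 a)) := by
    rw [← Finset.sum_neg_distrib]
    exact Finset.sum_congr rfl fun I _ => by rw [map_neg, neg_mul]
  rw [h1]
  rfl

/-- naturality -/
theorem FHom.eulM (F : FHom φ φ') (o : (Fin (2 * m) → ι) → A) (M : Matrix ι ι G.Ee) :
    F.h.f (L5.eulM φ o M) = L5.eulM φ' (fun I => F.g (o I)) (M.map F.h.ee) := by
  unfold L5.eulM
  rw [map_smul]
  congr 1
  have h1 := pfo_map (F.h.ee : G.Ee →+* G'.Ee) (fun I => φ.e (o I)) M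
  have h3 : (fun I => (F.h.ee : G.Ee →+* G'.Ee) (φ.e (o I))) = fun I => φ'.e (F.g (o I)) := by
    funext I
    exact Subtype.ext (F.com _)
  rw [h3] at h1
  exact congrArg Subtype.val h1

/-- block formula, without hypotheses on the blocks -/
theorem pfo_block' {E : Type*} [CommRing E] [Algebra ℝ E] {P A : Matrix ι ι E} {Q B : Matrix κ κ E}
    {oP : (Fin (2 * m) → ι) → E} {oQ : (Fin (2 * l) → κ) → E} {o : (Fin (2 * (m + l)) → ι ⊕ κ) → E} (hP : Or (2 * m) P oP)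
    (hQ : Or (2 * l) Q oQ) (h : Or (2 * (m + l)) (fromBlocks P 0 0 Q) o) :
    pfo o (fromBlocks A 0 0 B) = (((m + l).choose m : ℕ) : E) * (sgn3 oP oQ o * (pfo oP A * pfo oQ B)) := by
  have e1 : fromBlocks P 0 0 Q * fromBlocks A 0 0 B * fromBlocks P 0 0 Q = fromBlocks (P * A * P) 0 0 (Q * B * Q) := by
    rw [fromBlocks_multiply, fromBlocks_multiply]
    simp
  rw [← pfo_proj h, e1, pfo_block hP hQ h, pfo_proj hP, pfo_proj hQ]
  · rw [← Matrix.mul_assoc, ← Matrix.mul_assoc, hP.idem]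
  · rw [Matrix.mul_assoc, hP.idem]

/-- **Whitney formula** for curvature matrices -/
theorem eulM_block {Q : Matrix κ κ A} {oP : (Fin (2 * m) → ι) → A} {oQ : (Fin (2 * l) → κ) → A}
    {o : (Fin (2 * (m + l)) → ι ⊕ κ) → A} (hP : Or (2 * m) P oP) (hQ : Or (2 * l) Q oQ)
    (h : Or (2 * (m + l)) (fromBlocks P 0 0 Q) o) (M : Matrix ι ι G.Ee) (N : Matrix κ κ G.Ee) :
    eulM φ o (fromBlocks M 0 0 N) = -(φ.f (sgn3 oP oQ o) * (eulM φ oP M * eulM φ oQ N)) := by
  have hP' : Or (2 * m) (P.map φ.e) (fun I => φ.e (oP I)) := hP.map' (φ.e : A →+* G.Ee)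
  have hQ' : Or (2 * l) (Q.map φ.e) (fun I => φ.e (oQ I)) := hQ.map' (φ.e : A →+* G.Ee)
  have h' : Or (2 * (m + l)) (fromBlocks (P.map φ.e) 0 0 (Q.map φ.e)) (fun I => φ.e (o I)) := by
    have h1 := h.map' (φ.e : A →+* G.Ee)
    have e1 : (fromBlocks P 0 0 Q).map (φ.e : A →+* G.Ee) = fromBlocks (P.map φ.e) 0 0 (Q.map φ.e) := by
      rw [fromBlocks_map]
      congr 1 <;> exact Matrix.map_zero _ (map_zero _)
    rw [e1] at h1
    exact h1
  unfold eulM
  rw [pfo_block' hP' hQ' h', ← sgn3_map φ.e]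
  obtain ⟨X, hX⟩ : ∃ X, X = pfo (fun I => φ.e (oP I)) M := ⟨_, rfl⟩
  obtain ⟨Y, hY⟩ : ∃ Y, Y = pfo (fun I => φ.e (oQ I)) N := ⟨_, rfl⟩
  rw [← hX, ← hY]
  have e1 : ((((((m + l).choose m : ℕ) : G.Ee) * (φ.e (sgn3 oP oQ o) * (X * Y)) : G.Ee)) : B) =
      (((m + l).choose m : ℕ) : ℝ) • (φ.f (sgn3 oP oQ o) * ((X : B) * (Y : B))) := by
    have e2 : (((m + l).choose m : ℕ) : G.Ee) * (φ.e (sgn3 oP oQ o) * (X * Y)) =
        (((m + l).choose m : ℕ) : ℝ) • (φ.e (sgn3 oP oQ o) * (X * Y)) := by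
      rw [Algebra.smul_def, map_natCast]
    rw [e2]
    rfl
  rw [e1, smul_smul, smul_mul_smul_comm, mul_smul_comm, ← neg_smul]
  congr 1
  have hp := Real.pi_ne_zero
  have f1 : (m.factorial : ℝ) ≠ 0 := Nat.cast_ne_zero.2 (Nat.factorial_ne_zero _)
  have f2 : (l.factorial : ℝ) ≠ 0 := Nat.cast_ne_zero.2 (Nat.factorial_ne_zero _)
  have f3 : ((m + l).factorial : ℝ) ≠ 0 := Nat.cast_ne_zero.2 (Nat.factorial_ne_zero _)
  have f4 : (((m + l).choose m : ℕ) : ℝ) * (m.factorial : ℝ) * (l.factorial : ℝ) = ((m + l).factorial : ℝ) := by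
    have := Nat.add_choose_mul_factorial_mul_factorial m l
    rw [← Nat.choose_symm_add] at this
    exact_mod_cast this
  rw [pow_add, ← f4]
  have f5 : (((m + l).choose m : ℕ) : ℝ) ≠ 0 := Nat.cast_ne_zero.2 (Nat.choose_pos (Nat.le_add_right m l)).ne'
  field_simp

/-! ### the form `fT` -/

/-- the form `f` of a metric connection in rank `2 n + 1` -/
def fT (h : Cn φ P w) (hP : P * P = P) (o : (Fin (2 * n + 1) → ι) → A) (y : ι → A) : B :=
  ((-1 : ℝ) ^ n) • eulM φ (redo o y) (Rte h hP + DDt h y)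

variable {o : (Fin (2 * n + 1) → ι) → A}

theorem DDt_mat (h : Cn φ P w) : (DDt h y).map G.Ee.val =
    (P.map φ.f * G.D (uc φ y) + w * uc φ y) * (P.map φ.f * G.D (uc φ y) + w * uc φ y)ᵀ := by
  refine Matrix.ext fun i j => ?_
  rw [Matrix.mul_apply]
  simp only [Finset.univ_unique, Finset.sum_singleton]
  rfl

theorem Cn.fT_red (h : Cn φ P w) (ho : Or (2 * n + 1) P o) (hy : Sec P y) :
    eulM φ (redo o y) (Rte h ho.idem + DDt h y) =
      eulM φ (redo o y) (Rte (h.red ho.idem ho.sym hy) (redP_idem ho.idem ho.sym hy)) := by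
  have hr := ho.red hy
  rw [← eulM_proj hr (Rte h ho.idem + DDt h y)]
  congr 1
  have e0 : ∀ M : Matrix ι ι G.Ee, ((redP P y).map φ.e * M * (redP P y).map φ.e).map G.Ee.val =
      (redP P y).map φ.f * M.map G.Ee.val * (redP P y).map φ.f := fun M => by
    rw [GDA.val_mul, GDA.val_mul]
    rfl
  refine GDA.val_inj ?_
  rw [e0]
  have e1 : (Rte h ho.idem + DDt h y).map G.Ee.val = RT φ P w + (DDt h y).map G.Ee.val := rfl
  have e2 : (Rte (h.red ho.idem ho.sym hy) (redP_idem ho.idem ho.sym hy)).map G.Ee.val =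
      RT φ (redP P y) (wred φ P w y) := rfl
  rw [e1, e2, h.gauss ho.idem ho.sym hy, Matrix.mul_add, Matrix.add_mul, DDt_mat]
  congr 1
  -- `W D = D`
  obtain ⟨D, hD⟩ : ∃ D, D = P.map φ.f * G.D (uc φ y) + w * uc φ y := ⟨_, rfl⟩
  obtain ⟨W, hW⟩ : ∃ W, W = (redP P y).map φ.f := ⟨_, rfl⟩
  have d1 : W * D = D := by
    have e3 : P.map φ.f * D = D := by
      rw [hD, Matrix.mul_add, ← Matrix.mul_assoc, ← Matrix.mul_assoc, (φ.idem ho.idem).idem, h.l]
    have e4 : (uc φ y)ᵀ * D = 0 := by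
      ext a b
      rw [Matrix.mul_apply, hD]
      have h1 := h.y_DT ho.sym hy
      simp only [DT_mat] at h1
      rw [Subsingleton.elim b ()]
      exact h1
    rw [hW, redP_map, Matrix.sub_mul, e3, Matrix.mul_assoc, e4, Matrix.mul_zero, sub_zero]
  have hWt : Wᵀ = W := by rw [hW]; exact Pmap_tr (redP_tr ho.sym)
  have d2 : Dᵀ * W = Dᵀ := by
    have e1 : (W * D)ᵀ = Dᵀ * Wᵀ := GDA.transpose_ev (G := G) (by rw [hW]; exact φ.Ev _)
    rw [d1, hWt] at e1
    exact e1.symm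
  rw [← hD, ← hW, ← Matrix.mul_assoc, d1, Matrix.mul_assoc, d2]

/-- `fT` is closed -/
theorem Cn.d_fT (h : Cn φ P w) (ho : Or (2 * n + 1) P o) (hy : Sec P y) : G.d (fT h ho.idem o y) = 0 := by
  unfold fT
  rw [map_smul, h.fT_red ho hy, (h.red ho.idem ho.sym hy).d_eulT (ho.red hy), smul_zero]

theorem s_fT (h : Cn φ P w) (hP : P * P = P) : G.s (fT h hP o y) = fT h hP o y := by
  unfold fT
  rw [map_smul, s_eulM]

theorem DT_neg : DT φ P w (-y) = -DT φ P w y := by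
  have h1 : uc φ (-y) = -uc φ y := by
    ext i j
    exact map_neg φ.f _
  funext l
  rw [Pi.neg_apply, DT_mat, DT_mat, h1]
  have h2 : G.D (-uc φ y) = -G.D (uc φ y) := by
    ext i j
    exact map_neg G.d _
  rw [h2, Matrix.mul_neg, Matrix.mul_neg, ← neg_add]
  rfl

theorem DDt_neg (h : Cn φ P w) : DDt h (-y) = DDt h y := by
  refine Matrix.ext fun i j => Subtype.ext ?_
  change DT φ P w (-y) i * DT φ P w (-y) j = DT φ P w y i * DT φ P w y j
  rw [DT_neg, Pi.neg_apply, Pi.neg_apply, neg_mul_neg]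

/-- `fT` is odd in the section -/
theorem fT_neg (h : Cn φ P w) (hP : P * P = P) : fT h hP o (-y) = -fT h hP o y := by
  unfold fT
  rw [DDt_neg, redo_neg, eulM_op, smul_neg]

theorem fT_op (h : Cn φ P w) (hP : P * P = P) : fT h hP (fun I => -o I) y = -fT h hP o y := by
  unfold fT
  have h1 : redo (fun I => -o I) y = fun I => -redo o y I := by
    funext I
    unfold redo
    rw [← Finset.sum_neg_distrib]
    exact Finset.sum_congr rfl fun c _ => mul_neg _ _
  rw [h1, eulM_op, smul_neg]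

theorem Rte_zero (hP : P * P = P) (h : Cn φ P (0 : Matrix ι ι B)) : Rte h hP = Re φ P := by
  refine GDA.val_inj ?_
  change RT φ P 0 = Rv φ P
  unfold RT
  rw [GDA.D_zero, Matrix.mul_zero, Matrix.zero_mul, Matrix.mul_zero, add_zero, add_zero]

theorem DDt_zero (h : Cn φ P (0 : Matrix ι ι B)) : DDt h y = DDe φ P y := by
  refine Matrix.ext fun i j => Subtype.ext ?_
  change DT φ P 0 y i * DT φ P 0 y j = Dv φ P y i * Dv φ P y j
  unfold DT
  simp

/-- no connection form: the form `fG` -/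
theorem fT_zero (h : Cn φ P (0 : Matrix ι ι B)) (ho : Or (2 * n + 1) P o) (hy : Sec P y) :
    fT h ho.idem o y = fG φ P o y := by
  unfold fT fG
  rw [Rte_zero, DDt_zero, eulG, ZG_red ho hy]
  rfl

/-! ### naturality -/

theorem FHom.Dmap (F : FHom φ φ') {ι' κ' : Type*} [Fintype ι'] [DecidableEq ι'] [Fintype κ'] [DecidableEq κ']
    (M : Matrix ι' κ' B) : (G.D M).map F.h.f = G'.D (M.map F.h.f) := by
  ext i j
  exact F.h.f_d _

theorem FHom.Pmap (F : FHom φ φ') (P : Matrix ι ι A) : (P.map φ.f).map F.h.f = (P.map F.g).map φ'.f := by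
  ext i j
  exact F.com _

theorem FHom.ucmap (F : FHom φ φ') (y : ι → A) : (uc φ y).map F.h.f = uc φ' (fun i => F.g (y i)) := by
  ext i j
  exact F.com _

theorem FHom.RT (F : FHom φ φ') (P : Matrix ι ι A) (w : Matrix ι ι B) :
    (L5.RT φ P w).map F.h.f = L5.RT φ' (P.map F.g) (w.map F.h.f) := by
  have h1 : (Rv φ P).map F.h.f = Rv φ' (P.map F.g) := by
    ext i j
    exact F.rv i j
  unfold L5.RT
  rw [Matrix.map_add _ (map_add F.h.f), Matrix.map_add _ (map_add F.h.f), h1, Matrix.map_mul, Matrix.map_mul,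
    Matrix.map_mul, F.Dmap, F.Pmap]

theorem FHom.DT (F : FHom φ φ') (P : Matrix ι ι A) (w : Matrix ι ι B) (y : ι → A) (i : ι) :
    F.h.f (L5.DT φ P w y i) = L5.DT φ' (P.map F.g) (w.map F.h.f) (fun i => F.g (y i)) i := by
  rw [DT_mat, DT_mat, ← F.ucmap, ← F.Pmap, ← F.Dmap, ← Matrix.map_mul, ← Matrix.map_mul,
    ← Matrix.map_add _ (map_add F.h.f)]
  rfl

/-- naturality of `fT` -/
theorem FHom.fT (F : FHom φ φ') (h : Cn φ P w) (hP : P * P = P) (h' : Cn φ' (P.map F.g) (w.map F.h.f))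
    (hP' : P.map F.g * P.map F.g = P.map F.g) :
    F.h.f (L5.fT h hP o y) = L5.fT h' hP' (fun I => F.g (o I)) (fun l => F.g (y l)) := by
  unfold L5.fT
  rw [map_smul, F.eulM]
  congr 1
  have e1 : (fun I => F.g (redo o y I)) = redo (fun I => F.g (o I)) (fun l => F.g (y l)) := by
    funext I
    exact redo_mapg F.g I
  rw [e1]
  congr 1
  refine GDA.val_inj ?_
  refine Matrix.ext fun i j => ?_
  change F.h.f (L5.RT φ P w i j + L5.DT φ P w y i * L5.DT φ P w y j) = L5.RT φ' (P.map F.g) (w.map F.h.f) i j + _ * _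
  rw [map_add, map_mul, F.DT, F.DT, ← F.RT]
  rfl

/-- naturality of `psiT` -/
theorem FHom.psiT {o : (Fin (2 * (n + 1)) → ι) → A} (F : FHom φ φ') (h : Cn φ P w) (hP : P * P = P)
    (h' : Cn φ' (P.map F.g) (w.map F.h.f)) (hP' : P.map F.g * P.map F.g = P.map F.g) :
    F.h.f (L5.psiT h hP o y) = L5.psiT h' hP' (fun I => F.g (o I)) (fun l => F.g (y l)) := by
  unfold L5.psiT psiRT
  rw [map_smul, _root_.map_sum]
  congr 1
  refine Finset.sum_congr rfl fun S _ => ?_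
  rw [map_smul]
  congr 1
  unfold PhiT St
  rw [_root_.map_sum]
  refine Finset.sum_congr rfl fun I _ => ?_
  rw [map_mul, F.com]
  congr 1
  unfold TX yDt
  rw [map_mul, map_mul, F.com, F.DT]
  congr 1
  have e1 : F.h.f ((∏ a, MSt h hP y S a (I (s0 a.succ)) (I (s1 a.succ)) : G.Ee) : B) =
      ((F.h.ee (∏ a, MSt h hP y S a (I (s0 a.succ)) (I (s1 a.succ))) : G'.Ee) : B') := rfl
  rw [e1, map_prod]
  congr 1
  refine Finset.prod_congr rfl fun a _ => ?_
  unfold MSt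
  by_cases ha : a ∈ S
  · rw [if_pos ha, if_pos ha]
    refine Subtype.ext ?_
    change F.h.f (L5.RT φ P w _ _) = L5.RT φ' (P.map F.g) (w.map F.h.f) _ _
    rw [← F.RT]
    rfl
  · rw [if_neg ha, if_neg ha]
    refine Subtype.ext ?_
    change F.h.f (L5.DT φ P w y _ * L5.DT φ P w y _) = _ * _
    rw [map_mul, F.DT, F.DT]

end Pool.Agent.Lib.MP_ccbbf6_gt.L5
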