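import Pool.Agent.Lib.MP_ccbbf6_gt.L5.EG2

/-!
# Level 5, EGW0: Whitney product formula for the Pfaffian functional, algebra (helper13)

`pfo_block` : for an orientation tensor `o` of `diag (P, Q)`, `pfo o (diag (A, B)) = (m + l choose m) sg pfo oP A pfo oQ B`,
`sg^2 = 1` the relative sign.
-/

set_option autoImplicit false
set_option maxSynthPendingDepth 3
set_option linter.unusedSectionVars false

open Matrix Function

noncomputable section

namespace Pool.Agent.Lib.MP_ccbbf6_gt.L5

/-! ### alternating tensors of top degree -/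

section top

variable {ι : Type*} [Fintype ι] [DecidableEq ι] {r m : ℕ} {E : Type*} [CommRing E] {P : Matrix ι ι E}
  {o : (Fin r → ι) → E}

/-- slotwise invariance implies invariance -/
theorem full_inv {t : (Fin r → ι) → E} (h : ∀ (I : Fin r → ι) (k : Fin r) (l : ι),
    ∑ i, P l i * t (update I k i) = t (update I k l)) (I : Fin r → ι) :
    ∑ J : Fin r → ι, (∏ k, P (I k) (J k)) * t J = t I := by
  have key : ∀ (s : Finset (Fin r)) (I : Fin r → ι),
      ∑ J : Fin r → ι, (∏ k, if k ∈ s then P (I k) (J k) else if I k = J k then 1 else 0) * t J = t I := by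
    intro s
    induction s using Finset.induction_on with
    | empty =>
      intro I
      rw [Finset.sum_eq_single I]
      · simp
      · intro J _ hJ
        obtain ⟨k, hk⟩ : ∃ k, I k ≠ J k := by
          by_contra hh
          push Not at hh
          exact hJ (funext fun k => (hh k).symm)
        rw [Finset.prod_eq_zero (Finset.mem_univ k), zero_mul]
        rw [if_neg (Finset.notMem_empty k), if_neg hk]
      · intro h
        exact absurd (Finset.mem_univ I) h
    | insert k s hk ih =>
      intro I
      have h0 := h I k (I k)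
      rw [update_eq_self] at h0
      rw [← h0]
      have e0 : ∀ m, P (I k) m * t (update I k m) = ∑ J : Fin r → ι, P (I k) m *
          ((∏ l, if l ∈ s then P (update I k m l) (J l) else if update I k m l = J l then 1 else 0) * t J) := fun m => by
        rw [← Finset.mul_sum, ih]
      simp only [e0]
      rw [Finset.sum_comm]
      refine Finset.sum_congr rfl fun J _ => ?_
      have e1 : ∀ m, P (I k) m * ((∏ l, if l ∈ s then P (update I k m l) (J l) else
          if update I k m l = J l then 1 else 0) * t J) =
          (if m = J k then P (I k) m * (∏ l ∈ Finset.univ.erase k, if l ∈ s then P (I l) (J l) else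
            if I l = J l then 1 else 0) else 0) * t J := by
        intro m
        rw [← mul_assoc, ← Finset.mul_prod_erase Finset.univ _ (Finset.mem_univ k), if_neg hk, update_self]
        have e2 : (∏ l ∈ Finset.univ.erase k, if l ∈ s then P (update I k m l) (J l) else
            if update I k m l = J l then (1 : E) else 0) = ∏ l ∈ Finset.univ.erase k, if l ∈ s then P (I l) (J l) else
            if I l = J l then 1 else 0 := by
          refine Finset.prod_congr rfl fun l hl => ?_
          rw [update_of_ne (Finset.ne_of_mem_erase hl)]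
        rw [e2]
        by_cases hm : m = J k
        · rw [if_pos hm, if_pos hm, one_mul]
        · rw [if_neg hm, if_neg hm, zero_mul, mul_zero]
      simp only [e1]
      rw [← Finset.sum_mul, Finset.sum_ite_eq' Finset.univ (J k), if_pos (Finset.mem_univ _),
        ← Finset.mul_prod_erase Finset.univ _ (Finset.mem_univ k), if_pos (Finset.mem_insert_self k s)]
      congr 2
      refine Finset.prod_congr rfl fun l hl => ?_
      have hlk : l ≠ k := Finset.ne_of_mem_erase hl
      have h2 : l ∈ insert k s ↔ l ∈ s := by
        rw [Finset.mem_insert]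
        exact or_iff_right hlk
      simp only [h2]
  have h1 := key Finset.univ I
  simpa using h1

/-- alternating invariant tensors are multiples of the orientation tensor -/
theorem top_alt (h : Or r P o) {t : (Fin r → ι) → E} (ht : ∀ (σ : Equiv.Perm (Fin r)) (I : Fin r → ι),
    t (I ∘ σ) = ((Equiv.Perm.sign σ : ℤ) : E) * t I) (hi : ∀ (I : Fin r → ι) (k : Fin r) (l : ι),
    ∑ i, P l i * t (update I k i) = t (update I k l)) (I : Fin r → ι) :
    (r.factorial : E) * t I = (∑ J, o J * t J) * o I := by
  have e1 : ∀ J, o J * t J * o I = ∑ σ : Equiv.Perm (Fin r), ((Equiv.Perm.sign σ : ℤ) : E) *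
      ((∏ k, P (I (σ k)) (J k)) * t J) := by
    intro J
    have e2 : o J * t J * o I = (o I * o J) * t J := by ring
    rw [e2, h.rk, Matrix.det_apply', Finset.sum_mul]
    exact Finset.sum_congr rfl fun σ _ => mul_assoc _ _ _
  rw [Finset.sum_mul]
  simp only [e1]
  rw [Finset.sum_comm]
  have e3 : ∀ σ : Equiv.Perm (Fin r), ∑ J : Fin r → ι, ((Equiv.Perm.sign σ : ℤ) : E) *
      ((∏ k, P (I (σ k)) (J k)) * t J) = t I := by
    intro σ
    rw [← Finset.mul_sum]
    have e4 := full_inv hi (I ∘ σ)
    simp only [Function.comp_apply] at e4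
    have e5 : ((Equiv.Perm.sign σ : ℤ) : E) * ((Equiv.Perm.sign σ : ℤ) : E) = 1 := by
      rw [← Int.cast_mul, Int.units_coe_mul_self, Int.cast_one]
    have e6 := ht σ I
    rw [e4]
    change _ * t (I ∘ σ) = _
    rw [e6, ← mul_assoc, e5, one_mul]
  simp only [e3]
  rw [Finset.sum_const, Finset.card_univ, Fintype.card_perm, Fintype.card_fin, nsmul_eq_mul]

/-- infinitesimal invariance of the polarised functional -/
theorem inf_invs {o : (Fin (2 * m) → ι) → E} (h : Or (2 * m) P o) (X : Matrix ι ι E) (M : Fin m → Matrix ι ι E) :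
    trace (P * X) * pfs o M = ∑ a, pfs o (update M a ((P * X)ᵀ * M a + M a * (P * X))) := by
  obtain ⟨Y, hY⟩ : ∃ Y, Y = P * X := ⟨_, rfl⟩
  rw [← hY]
  have e1 : ∀ I : Fin (2 * m) → ι, trace Y * o I = ∑ k, ∑ e, Y (I k) e * o (update I k e) := by
    intro I
    have e2 : trace Y * o I = ∑ e, ∑ j, X j e * (P e j * o I) := by
      rw [hY]
      unfold trace
      rw [Finset.sum_mul]
      refine Finset.sum_congr rfl fun e _ => ?_
      rw [Matrix.diag_apply, Matrix.mul_apply, Finset.sum_mul]
      exact Finset.sum_congr rfl fun j _ => by ring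
    rw [e2]
    have e3 : ∀ e j, X j e * (P e j * o I) = ∑ k, X j e * (P (I k) j * o (update I k e)) := by
      intro e j
      rw [h.sch', Finset.mul_sum]
    simp only [e3]
    have e4 : ∀ e, ∑ j, ∑ k, X j e * (P (I k) j * o (update I k e)) = ∑ k, Y (I k) e * o (update I k e) := by
      intro e
      rw [Finset.sum_comm]
      refine Finset.sum_congr rfl fun k _ => ?_
      rw [hY, Matrix.mul_apply, Finset.sum_mul]
      exact Finset.sum_congr rfl fun j _ => by ring
    simp only [e4]
    rw [Finset.sum_comm]
  have e2 : trace Y * pfs o M = ∑ k, ∑ I : Fin (2 * m) → ι, ∑ e, Y (I k) e * o (update I k e) *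
      ∏ a, M a (I (s0 a)) (I (s1 a)) := by
    unfold pfs
    rw [Finset.mul_sum, Finset.sum_comm]
    refine Finset.sum_congr rfl fun I _ => ?_
    rw [← mul_assoc, e1, Finset.sum_mul]
    exact Finset.sum_congr rfl fun k _ => Finset.sum_mul _ _ _
  rw [e2, sum_pairs]
  refine Finset.sum_congr rfl fun a _ => ?_
  rw [sum_swp (s0 a) (fun I e => Y (I (s0 a)) e * o (update I (s0 a) e) * ∏ b, M b (I (s0 b)) (I (s1 b))),
    sum_swp (s1 a) (fun I e => Y (I (s1 a)) e * o (update I (s1 a) e) * ∏ b, M b (I (s0 b)) (I (s1 b))),
    ← Finset.sum_add_distrib, pfs_upd]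
  refine Finset.sum_congr rfl fun I _ => ?_
  have u0 := fun e => upd_prod0 a I e M
  have u1 := fun e => upd_prod1 a I e M
  simp only [update_idem, update_eq_self, update_self]
  simp only [u0, u1]
  rw [Matrix.add_apply, Matrix.mul_apply, Matrix.mul_apply, ← Finset.sum_add_distrib, add_mul, mul_add, Finset.sum_mul,
    Finset.sum_mul, Finset.mul_sum, Finset.mul_sum, ← Finset.sum_add_distrib]
  refine Finset.sum_congr rfl fun e _ => ?_
  rw [Matrix.transpose_apply]
  ring

/-- symmetry in the pairs -/
theorem pfs_perm {o : (Fin (2 * m) → ι) → E} (h : Or (2 * m) P o) (σ : Equiv.Perm (Fin m)) (M : Fin m → Matrix ι ι E) :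
    pfs o (M ∘ σ) = pfs o M := by
  induction σ using Equiv.Perm.swap_induction_on generalizing M with
  | one => rfl
  | swap_mul f x y _ ih =>
    have h1 : M ∘ ⇑(Equiv.swap x y * f) = (M ∘ Equiv.swap x y) ∘ f := by
      funext a
      rfl
    rw [h1, ih, pfs_swap h]

end top

end Pool.Agent.Lib.MP_ccbbf6_gt.L5
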