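import Pool.Agent.Lib.MP_ccbbf6_gt.L5.EGW0

/-!
# Level 5, EGW1: Whitney product formula for the Pfaffian functional, block matrices (helper13)
-/

set_option autoImplicit false
set_option maxSynthPendingDepth 3
set_option linter.unusedSectionVars false

open Matrix Function

noncomputable section

namespace Pool.Agent.Lib.MP_ccbbf6_gt.L5

variable {ι κ : Type*} [Fintype ι] [DecidableEq ι] [Fintype κ] [DecidableEq κ] {m l : ℕ}

/-- the equivalence of slots -/
def sq (m l : ℕ) : Fin (2 * m) ⊕ Fin (2 * l) ≃ Fin (2 * (m + l)) :=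
  finSumFinEquiv.trans (finCongr (by ring))

theorem sq_inl_val (a : Fin (2 * m)) : (sq m l (Sum.inl a)).1 = a.1 := rfl

theorem sq_inr_val (b : Fin (2 * l)) : (sq m l (Sum.inr b)).1 = 2 * m + b.1 := rfl

theorem sq_s0 (a : Fin m) : sq m l (Sum.inl (s0 a)) = s0 (Fin.castAdd l a) := Fin.ext rfl

theorem sq_s1 (a : Fin m) : sq m l (Sum.inl (s1 a)) = s1 (Fin.castAdd l a) := Fin.ext rfl

theorem sq_r0 (b : Fin l) : sq m l (Sum.inr (s0 b)) = s0 (Fin.natAdd m b) := Fin.ext (by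
  rw [sq_inr_val]
  change 2 * m + 2 * b.1 = 2 * (m + b.1)
  ring)

theorem sq_r1 (b : Fin l) : sq m l (Sum.inr (s1 b)) = s1 (Fin.natAdd m b) := Fin.ext (by
  rw [sq_inr_val]
  change 2 * m + (2 * b.1 + 1) = 2 * (m + b.1) + 1
  ring)

/-- juxtaposition -/
def ap (I : Fin (2 * m) → ι) (J : Fin (2 * l) → κ) : Fin (2 * (m + l)) → ι ⊕ κ := fun k => Sum.map I J ((sq m l).symm k)

theorem ap_sq (I : Fin (2 * m) → ι) (J : Fin (2 * l) → κ) (x : Fin (2 * m) ⊕ Fin (2 * l)) :
    ap I J (sq m l x) = Sum.map I J x := by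
  unfold ap
  rw [Equiv.symm_apply_apply]

theorem ap_s0 (I : Fin (2 * m) → ι) (J : Fin (2 * l) → κ) (a : Fin m) :
    ap I J (s0 (Fin.castAdd l a)) = Sum.inl (I (s0 a)) := by
  rw [← sq_s0, ap_sq]
  rfl

theorem ap_s1 (I : Fin (2 * m) → ι) (J : Fin (2 * l) → κ) (a : Fin m) :
    ap I J (s1 (Fin.castAdd l a)) = Sum.inl (I (s1 a)) := by
  rw [← sq_s1, ap_sq]
  rfl

theorem ap_r0 (I : Fin (2 * m) → ι) (J : Fin (2 * l) → κ) (b : Fin l) :
    ap I J (s0 (Fin.natAdd m b)) = Sum.inr (J (s0 b)) := by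
  rw [← sq_r0, ap_sq]
  rfl

theorem ap_r1 (I : Fin (2 * m) → ι) (J : Fin (2 * l) → κ) (b : Fin l) :
    ap I J (s1 (Fin.natAdd m b)) = Sum.inr (J (s1 b)) := by
  rw [← sq_r1, ap_sq]
  rfl

theorem ap_perm (σ : Equiv.Perm (Fin (2 * m))) (τ : Equiv.Perm (Fin (2 * l))) (I : Fin (2 * m) → ι)
    (J : Fin (2 * l) → κ) : ap (I ∘ σ) (J ∘ τ) = ap I J ∘ ((sq m l).permCongr (Equiv.Perm.sumCongr σ τ)) := by
  funext k
  obtain ⟨x, rfl⟩ := (sq m l).surjective k
  rw [ap_sq, Function.comp_apply, Equiv.permCongr_apply, Equiv.symm_apply_apply, ap_sq]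
  rcases x with x | x <;> rfl

theorem ap_upd1 (I : Fin (2 * m) → ι) (J : Fin (2 * l) → κ) (k : Fin (2 * m)) (e : ι) :
    ap (update I k e) J = update (ap I J) (sq m l (Sum.inl k)) (Sum.inl e) := by
  funext k'
  obtain ⟨x, rfl⟩ := (sq m l).surjective k'
  rw [ap_sq]
  rcases x with x | x
  · by_cases h : x = k
    · subst h
      rw [update_self, Sum.map_inl, update_self]
    · have h' : sq m l (Sum.inl x) ≠ sq m l (Sum.inl k) := fun e => h (Sum.inl_injective ((sq m l).injective e))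
      rw [update_of_ne h', ap_sq, Sum.map_inl, Sum.map_inl, update_of_ne h]
  · have h' : sq m l (Sum.inr x) ≠ sq m l (Sum.inl k) := fun e => Sum.inr_ne_inl ((sq m l).injective e)
    rw [update_of_ne h', ap_sq, Sum.map_inr, Sum.map_inr]

theorem ap_upd2 (I : Fin (2 * m) → ι) (J : Fin (2 * l) → κ) (k : Fin (2 * l)) (e : κ) :
    ap I (update J k e) = update (ap I J) (sq m l (Sum.inr k)) (Sum.inr e) := by
  funext k'
  obtain ⟨x, rfl⟩ := (sq m l).surjective k'
  rw [ap_sq]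
  rcases x with x | x
  · have h' : sq m l (Sum.inl x) ≠ sq m l (Sum.inr k) := fun e => Sum.inl_ne_inr ((sq m l).injective e)
    rw [update_of_ne h', ap_sq, Sum.map_inl, Sum.map_inl]
  · by_cases h : x = k
    · subst h
      rw [update_self, Sum.map_inr, update_self]
    · have h' : sq m l (Sum.inr x) ≠ sq m l (Sum.inr k) := fun e => h (Sum.inr_injective ((sq m l).injective e))
      rw [update_of_ne h', ap_sq, Sum.map_inr, Sum.map_inr, update_of_ne h]

theorem ap_inj : Injective fun z : (Fin (2 * m) → ι) × (Fin (2 * l) → κ) => ap z.1 z.2 := by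
  rintro ⟨I, J⟩ ⟨I', J'⟩ h
  refine Prod.ext (funext fun k => ?_) (funext fun k => ?_)
  · have h1 := congrFun h (sq m l (Sum.inl k))
    simp only [ap_sq, Sum.map_inl] at h1
    exact Sum.inl_injective h1
  · have h1 := congrFun h (sq m l (Sum.inr k))
    simp only [ap_sq, Sum.map_inr] at h1
    exact Sum.inr_injective h1

theorem ap_range {K : Fin (2 * (m + l)) → ι ⊕ κ} (h1 : ∀ k, ∃ i, K (sq m l (Sum.inl k)) = Sum.inl i)
    (h2 : ∀ k, ∃ j, K (sq m l (Sum.inr k)) = Sum.inr j) :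
    K ∈ Set.range fun z : (Fin (2 * m) → ι) × (Fin (2 * l) → κ) => ap z.1 z.2 := by
  choose I hI using h1
  choose J hJ using h2
  refine ⟨(I, J), funext fun k => ?_⟩
  obtain ⟨x, rfl⟩ := (sq m l).surjective k
  change ap I J _ = _
  rw [ap_sq]
  rcases x with x | x
  · exact (hI x).symm
  · exact (hJ x).symm

section sg

variable {E : Type*} [CommRing E] {P : Matrix ι ι E} {Q : Matrix κ κ E} {oP : (Fin (2 * m) → ι) → E}
  {oQ : (Fin (2 * l) → κ) → E} {o : (Fin (2 * (m + l)) → ι ⊕ κ) → E}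

theorem o_ap_perm (h : Or (2 * (m + l)) (fromBlocks P 0 0 Q) o) (σ : Equiv.Perm (Fin (2 * m)))
    (τ : Equiv.Perm (Fin (2 * l))) (I : Fin (2 * m) → ι) (J : Fin (2 * l) → κ) :
    o (ap (I ∘ σ) (J ∘ τ)) = ((Equiv.Perm.sign σ : ℤ) : E) * ((Equiv.Perm.sign τ : ℤ) : E) * o (ap I J) := by
  rw [ap_perm, h.alt, Equiv.Perm.sign_permCongr, Equiv.Perm.sign_sumCongr]
  push_cast
  rfl

theorem o_ap_inv1 (h : Or (2 * (m + l)) (fromBlocks P 0 0 Q) o) (J : Fin (2 * l) → κ) (I : Fin (2 * m) → ι)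
    (k : Fin (2 * m)) (e : ι) : ∑ i, P e i * o (ap (update I k i) J) = o (ap (update I k e) J) := by
  have h1 := h.inv (ap I J) (sq m l (Sum.inl k)) (Sum.inl e)
  rw [Fintype.sum_sum_type] at h1
  simp only [fromBlocks_apply₁₁, fromBlocks_apply₁₂, Matrix.zero_apply, zero_mul, Finset.sum_const_zero, add_zero,
    ← ap_upd1] at h1
  exact h1

theorem o_ap_inv2 (h : Or (2 * (m + l)) (fromBlocks P 0 0 Q) o) (I : Fin (2 * m) → ι) (J : Fin (2 * l) → κ)
    (k : Fin (2 * l)) (e : κ) : ∑ i, Q e i * o (ap I (update J k i)) = o (ap I (update J k e)) := by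
  have h1 := h.inv (ap I J) (sq m l (Sum.inr k)) (Sum.inr e)
  rw [Fintype.sum_sum_type] at h1
  simp only [fromBlocks_apply₂₁, fromBlocks_apply₂₂, Matrix.zero_apply, zero_mul, Finset.sum_const_zero, zero_add,
    ← ap_upd2] at h1
  exact h1

/-- the relative sign, not normalised -/
def sgU (oP : (Fin (2 * m) → ι) → E) (oQ : (Fin (2 * l) → κ) → E) (o : (Fin (2 * (m + l)) → ι ⊕ κ) → E) : E :=
  ∑ J, oQ J * ∑ I, oP I * o (ap I J)

theorem o_apU (hP : Or (2 * m) P oP) (hQ : Or (2 * l) Q oQ) (h : Or (2 * (m + l)) (fromBlocks P 0 0 Q) o)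
    (I : Fin (2 * m) → ι) (J : Fin (2 * l) → κ) :
    (((2 * l).factorial : E) * ((2 * m).factorial : E)) * o (ap I J) = sgU oP oQ o * (oP I * oQ J) := by
  have h1 := top_alt hP (t := fun I => o (ap I J)) (fun σ I => by
    have h2 := o_ap_perm h σ 1 I J
    rw [Equiv.Perm.sign_one, Units.val_one, Int.cast_one, mul_one] at h2
    exact h2) (fun I k e => o_ap_inv1 h J I k e) I
  have h3 := top_alt hQ (t := fun J => ∑ I, oP I * o (ap I J)) (fun τ J => by
    rw [Finset.mul_sum]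
    refine Finset.sum_congr rfl fun I _ => ?_
    have h2 := o_ap_perm h 1 τ I J
    rw [Equiv.Perm.sign_one, Units.val_one, Int.cast_one, one_mul] at h2
    have h2' : o (ap I (J ∘ τ)) = ((Equiv.Perm.sign τ : ℤ) : E) * o (ap I J) := h2
    rw [h2']
    ring) (fun J k e => by
    simp only [Finset.mul_sum]
    rw [Finset.sum_comm]
    refine Finset.sum_congr rfl fun I _ => ?_
    rw [← o_ap_inv2 h I J k e, Finset.mul_sum]
    exact Finset.sum_congr rfl fun j _ => by ring) J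
  unfold sgU
  calc (((2 * l).factorial : E) * ((2 * m).factorial : E)) * o (ap I J) =
        ((2 * l).factorial : E) * (((2 * m).factorial : E) * o (ap I J)) := by ring
    _ = (((2 * l).factorial : E) * ∑ J_1, oP J_1 * o (ap J_1 J)) * oP I := by
        rw [h1]
        ring
    _ = _ := by
        rw [h3]
        ring

/-- block determinant -/
theorem o_ap_sq (hP : Or (2 * m) P oP) (hQ : Or (2 * l) Q oQ) (h : Or (2 * (m + l)) (fromBlocks P 0 0 Q) o)
    (I : Fin (2 * m) → ι) (J : Fin (2 * l) → κ) : o (ap I J) * o (ap I J) = oP I * oP I * (oQ J * oQ J) := by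
  rw [h.rk, hP.rk, hQ.rk, ← Matrix.det_fromBlocks_zero₂₁ _ 0, ← Matrix.det_reindex_self (sq m l)]
  congr 1
  ext k k'
  obtain ⟨x, rfl⟩ := (sq m l).surjective k
  obtain ⟨x', rfl⟩ := (sq m l).surjective k'
  rw [Matrix.reindex_apply, Matrix.submatrix_apply, Equiv.symm_apply_apply, Equiv.symm_apply_apply, Matrix.of_apply,
    ap_sq, ap_sq]
  rcases x with x | x <;> rcases x' with x' | x' <;> rfl

variable [Algebra ℝ E]

/-- the relative sign -/
def sgn3 (oP : (Fin (2 * m) → ι) → E) (oQ : (Fin (2 * l) → κ) → E) (o : (Fin (2 * (m + l)) → ι ⊕ κ) → E) : E :=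
  ((((2 * l).factorial : ℝ) * ((2 * m).factorial : ℝ))⁻¹) • sgU oP oQ o

theorem fac_ne : (((2 * l).factorial : ℝ) * ((2 * m).factorial : ℝ)) ≠ 0 :=
  mul_ne_zero (Nat.cast_ne_zero.2 (Nat.factorial_ne_zero _)) (Nat.cast_ne_zero.2 (Nat.factorial_ne_zero _))

theorem fac_smul (x : E) : (((2 * l).factorial : ℝ) * ((2 * m).factorial : ℝ)) • x =
    (((2 * l).factorial : E) * ((2 * m).factorial : E)) * x := by
  rw [Algebra.smul_def, map_mul, map_natCast, map_natCast]

theorem o_ap (hP : Or (2 * m) P oP) (hQ : Or (2 * l) Q oQ) (h : Or (2 * (m + l)) (fromBlocks P 0 0 Q) o)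
    (I : Fin (2 * m) → ι) (J : Fin (2 * l) → κ) : o (ap I J) = sgn3 oP oQ o * (oP I * oQ J) := by
  unfold sgn3
  rw [smul_mul_assoc, ← o_apU hP hQ h, ← fac_smul, smul_smul, inv_mul_cancel₀ fac_ne, one_smul]

theorem sgn3_sq (hP : Or (2 * m) P oP) (hQ : Or (2 * l) Q oQ) (h : Or (2 * (m + l)) (fromBlocks P 0 0 Q) o) :
    sgn3 oP oQ o * sgn3 oP oQ o = 1 := by
  have h1 : ∀ I J, sgn3 oP oQ o * sgn3 oP oQ o * (oP I * oP I * (oQ J * oQ J)) = oP I * oP I * (oQ J * oQ J) := by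
    intro I J
    have h2 := o_ap_sq hP hQ h I J
    rw [o_ap hP hQ h I J] at h2
    linear_combination h2
  have h2 : sgn3 oP oQ o * sgn3 oP oQ o * ((((2 * l).factorial : E) * ((2 * m).factorial : E)) * 1) =
      (((2 * l).factorial : E) * ((2 * m).factorial : E)) * 1 := by
    have e1 : (((2 * l).factorial : E) * ((2 * m).factorial : E)) * 1 = ∑ I, ∑ J, oP I * oP I * (oQ J * oQ J) := by
      rw [← hP.nrm, ← hQ.nrm, mul_one, mul_comm, Finset.sum_mul_sum]
    rw [e1, Finset.mul_sum]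
    refine Finset.sum_congr rfl fun I _ => ?_
    rw [Finset.mul_sum]
    exact Finset.sum_congr rfl fun J _ => h1 I J
  rw [← fac_smul, mul_smul_comm, mul_one] at h2
  have h3 := congrArg (fun z => ((((2 * l).factorial : ℝ) * ((2 * m).factorial : ℝ))⁻¹) • z) h2
  simp only [smul_smul] at h3
  rw [inv_mul_cancel₀ fac_ne, one_smul, one_smul] at h3
  exact h3

end sg

end Pool.Agent.Lib.MP_ccbbf6_gt.L5
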