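import Pool.Agent.Lib.MP_ccbbf6_gt.L5.EU6
import Pool.Agent.Lib.MP_ccbbf6_gt.L5.EU8

/-!
# Level 5, EL0: the complex line of an oriented plane bundle (helper13)

`pl P o = (P + i J)/2`, `J i j = o ![i, j]`; `ps_1 = -2 pi i e`, `ps_j = ps_1 ^ j`.
-/

set_option autoImplicit false
set_option maxSynthPendingDepth 3
set_option linter.unusedSectionVars false

open Matrix Function

noncomputable section

namespace Pool.Agent.Lib.MP_ccbbf6_gt.L5

variable {ι κ : Type*} [Fintype ι] [DecidableEq ι] [Fintype κ] [DecidableEq κ]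

/-! ### idempotents of rank one -/

section rankone

variable {B : Type*} [Ring B] [Algebra ℝ B] {G : GDA B}

/-- rank one: the power sums are powers -/
theorem GDA.Idem.ps_rk1 {P : Matrix ι ι B} (h : G.Idem P) (h1 : ∀ i j k l, P i j * P k l = P i l * P k j)
    (ht : trace P = 1) (j : ℕ) : G.ps P j = G.ps P 1 ^ j := by
  have hs : G.s (G.ps P 1) = G.ps P 1 := h.s_ps 1
  have e1 : P * G.R P = G.ps P 1 • P := by
    have e2 : P * G.R P = P * G.R P * P := by rw [Matrix.mul_assoc, ← h.comm, ← Matrix.mul_assoc, h.idem]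
    rw [e2]
    ext i l
    rw [Matrix.mul_apply]
    simp only [Matrix.mul_apply, Finset.sum_mul]
    rw [Matrix.smul_apply, smul_eq_mul]
    unfold GDA.ps
    rw [pow_one, Matrix.trace]
    simp only [Matrix.diag_apply, Matrix.mul_apply, Finset.sum_mul]
    refine Finset.sum_congr rfl fun k _ => Finset.sum_congr rfl fun j _ => ?_
    rw [mul_assoc, ← G.comm_even (P k l) _ (h.ev.app _ _), ← mul_assoc, h1, G.comm_even (P i l) _ (h.ev.app _ _),
      mul_assoc, mul_assoc]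
    congr 1
    exact G.comm_even _ _ (h.ev.app _ _)
  have e3 : ∀ n : ℕ, P * G.R P ^ n = G.ps P 1 ^ n • P := by
    intro n
    induction n with
    | zero => rw [pow_zero, pow_zero, Matrix.mul_one, one_smul]
    | succ n ih =>
      rw [pow_succ, ← Matrix.mul_assoc, ih, Matrix.smul_mul, e1, smul_smul, ← pow_succ]
  have e4 : ∀ (z : B), trace (z • P) = z * trace P := fun z => by
    unfold trace
    rw [Finset.mul_sum]
    rfl
  have e5 : G.ps P j = trace (P * G.R P ^ j) := rfl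
  rw [e5, e3, e4, ht, mul_one]

/-- a parallel sub-bundle: `P = Q P = P Q`, `Q dP Q = 0` -/
theorem GDA.Idem.ps_par {P Q : Matrix ι ι B} (h : G.Idem P) (h' : G.Idem Q) (h1 : Q * P = P) (h2 : P * Q = P)
    (h3 : Q * G.D P * Q = 0) : G.ps P 1 = trace (P * G.R Q) := by
  have e1 : G.D P * P = G.D Q * P := by
    have e2 := congrArg G.D h1
    rw [GDA.D_mul, h'.ev] at e2
    have e3 : Q * G.D P * P = 0 := by
      rw [← h1, ← Matrix.mul_assoc, h1, h3, Matrix.zero_mul]
    rw [← e2, Matrix.add_mul, e3, add_zero, Matrix.mul_assoc, h.idem]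
  have e2 : P * G.D P = P * G.D Q := by
    have e2 := congrArg G.D h2
    rw [GDA.D_mul, h.ev] at e2
    have e3 : P * (G.D P * Q) = 0 := by
      rw [← h2, Matrix.mul_assoc, h2, ← Matrix.mul_assoc Q, h3, Matrix.mul_zero]
    rw [← e2, Matrix.mul_add, e3, zero_add, ← Matrix.mul_assoc, h.idem]
  unfold GDA.ps
  rw [pow_one]
  have e3 : P * G.R P = P * G.D Q * (G.D P) := by
    unfold GDA.R
    rw [← Matrix.mul_assoc, e2]
  have e4 : trace (P * G.D Q * G.D P) = trace (P * G.D Q * (G.D P * P)) := by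
    have e5 : P * G.D Q * G.D P = P * (P * G.D Q * G.D P) := by
      rw [← Matrix.mul_assoc, ← Matrix.mul_assoc, h.idem]
    rw [e5, GDA.tr_comm_ev h.ev]
    simp only [Matrix.mul_assoc]
  rw [e3, e4, e1]
  have e6 : P * G.D Q * (G.D Q * P) = P * (G.R Q * P) := by
    unfold GDA.R
    simp only [Matrix.mul_assoc]
  rw [e6, GDA.tr_comm_ev h.ev, Matrix.mul_assoc, h.idem, GDA.tr_comm_ev h.ev]

end rankone

/-! ### the complex line -/

variable {A A' : Type*} [CommRing A] [Algebra ℝ A] [CommRing A'] [Algebra ℝ A'] {B B' : Type*} [Ring B] [Algebra ℝ B]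
  [Ring B'] [Algebra ℝ B'] {G : GDA B} {G' : GDA B'} {φ : Fun0 A G} {φ' : Fun0 A' G'}

/-- the rotation -/
def Jm (o : (Fin 2 → ι) → A) : Matrix ι ι A := fun i j => o ![i, j]

/-- the complex line -/
def pl (P : Matrix ι ι A) (o : (Fin 2 → ι) → A) : Matrix ι ι (CB A) :=
  fun i j => ⟨(1 / 2 : ℝ) • P i j, (1 / 2 : ℝ) • o ![i, j]⟩

variable {P : Matrix ι ι A} {o : (Fin 2 → ι) → A}

theorem v2 (I : Fin 2 → ι) : ![I 0, I 1] = I := (e2 ι).left_inv I

theorem Or.J_anti (h : Or 2 P o) (i j : ι) : o ![j, i] = -o ![i, j] := by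
  have h1 := h.alt (Equiv.swap 0 1) ![i, j]
  rw [Equiv.Perm.sign_swap (by decide)] at h1
  have h2 : (![i, j] ∘ Equiv.swap (0 : Fin 2) 1 : Fin 2 → ι) = ![j, i] := by
    funext k
    revert k
    exact fin2 rfl rfl
  rw [h2] at h1
  rw [h1]
  simp

theorem Or.J_self (h : Or 2 P o) (i : ι) : o ![i, i] = 0 := two_zero (h.J_anti i i)

theorem upd0 (i j m : ι) : update (![i, j] : Fin 2 → ι) 0 m = ![m, j] := by
  funext k
  revert k
  exact fin2 rfl rfl

theorem upd1 (i j m : ι) : update (![i, j] : Fin 2 → ι) 1 m = ![i, m] := by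
  funext k
  revert k
  exact fin2 rfl rfl

theorem Or.P_J (h : Or 2 P o) (i j : ι) : ∑ m, P i m * o ![m, j] = o ![i, j] := by
  have h1 := h.inv ![i, j] 0 i
  simp only [upd0] at h1
  exact h1

theorem Or.J_P (h : Or 2 P o) (i j : ι) : ∑ m, o ![i, m] * P m j = o ![i, j] := by
  have h1 := h.inv ![i, j] 1 j
  simp only [upd1] at h1
  rw [← h1]
  refine Finset.sum_congr rfl fun m _ => ?_
  rw [mul_comm]
  congr 1
  exact congrFun (congrFun h.sym j) m

theorem Or.JJ' (h : Or 2 P o) (i j k l : ι) : o ![i, j] * o ![k, l] = P i k * P j l - P i l * P j k := by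
  rw [h.rk, Matrix.det_fin_two]
  rfl

theorem Or.JJ (h : Or 2 P o) (i k : ι) : ∑ j, o ![i, j] * o ![j, k] = -P i k := by
  have h1 : ∀ j, o ![i, j] * o ![j, k] = P i j * P j k - P i k * P j j := fun j => h.JJ' i j j k
  simp only [h1]
  rw [Finset.sum_sub_distrib, ← Matrix.mul_apply, h.idem, ← Finset.mul_sum]
  have h2 : ∑ j, P j j = ((2 : ℕ) : A) := h.tr
  rw [h2]
  push_cast
  ring

theorem Or.sch2 (h : Or 2 P o) (i j k l : ι) : P i j * o ![k, l] = P k j * o ![i, l] + P l j * o ![k, i] := by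
  have h1 := h.sch' ![k, l] i j
  rw [Fin.sum_univ_two, upd0, upd1] at h1
  exact h1

theorem half_half (a b : A) : ((1 / 2 : ℝ) • a) * ((1 / 2 : ℝ) • b) = (1 / 4 : ℝ) • (a * b) := by
  rw [smul_mul_smul_comm]
  norm_num

/-- the line is an idempotent -/
theorem Or.pl_idem (h : Or 2 P o) : pl P o * pl P o = pl P o := by
  have hPP : ∀ i k, ∑ j, P i j * P j k = P i k := fun i k => by rw [← Matrix.mul_apply, h.idem]
  ext i k
  · have e1 : ((pl P o * pl P o) i k).re = ∑ j, ((1 / 4 : ℝ) • (P i j * P j k) - (1 / 4 : ℝ) • (o ![i, j] * o ![j, k])) := by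
      rw [Matrix.mul_apply]
      have e2 : ∀ s : Finset ι, (∑ j ∈ s, pl P o i j * pl P o j k).re = ∑ j ∈ s, (pl P o i j * pl P o j k).re := by
        intro s
        exact map_sum (⟨⟨CB.re, rfl⟩, fun _ _ => rfl⟩ : CB A →+ A) _ _
      rw [e2]
      refine Finset.sum_congr rfl fun j _ => ?_
      rw [CB.mul_re, ← half_half, ← half_half]
      rfl
    rw [e1, Finset.sum_sub_distrib, ← Finset.smul_sum, ← Finset.smul_sum, hPP, h.JJ]
    change _ = (1 / 2 : ℝ) • P i k
    module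
  · have e1 : ((pl P o * pl P o) i k).im = ∑ j, ((1 / 4 : ℝ) • (P i j * o ![j, k]) + (1 / 4 : ℝ) • (o ![i, j] * P j k)) := by
      rw [Matrix.mul_apply]
      have e2 : ∀ s : Finset ι, (∑ j ∈ s, pl P o i j * pl P o j k).im = ∑ j ∈ s, (pl P o i j * pl P o j k).im := by
        intro s
        exact map_sum (⟨⟨CB.im, rfl⟩, fun _ _ => rfl⟩ : CB A →+ A) _ _
      rw [e2]
      refine Finset.sum_congr rfl fun j _ => ?_
      rw [CB.mul_im, ← half_half, ← half_half]
      rfl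
    rw [e1, Finset.sum_add_distrib, ← Finset.smul_sum, ← Finset.smul_sum, h.P_J, h.J_P]
    change _ = (1 / 2 : ℝ) • o ![i, k]
    module

/-- the line has rank one -/
theorem Or.pl_rk (h : Or 2 P o) (i j k l : ι) : pl P o i j * pl P o k l = pl P o i l * pl P o k j := by
  have hs : ∀ a b, P b a = P a b := fun a b => congrFun (congrFun h.sym a) b
  ext
  · rw [CB.mul_re, CB.mul_re]
    change ((1 / 2 : ℝ) • P i j) * ((1 / 2 : ℝ) • P k l) - ((1 / 2 : ℝ) • o ![i, j]) * ((1 / 2 : ℝ) • o ![k, l]) =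
      ((1 / 2 : ℝ) • P i l) * ((1 / 2 : ℝ) • P k j) - ((1 / 2 : ℝ) • o ![i, l]) * ((1 / 2 : ℝ) • o ![k, j])
    rw [half_half, half_half, half_half, half_half, h.JJ', h.JJ', ← smul_sub, ← smul_sub]
    congr 1
    rw [hs j l, hs j k, hs k l]
    ring
  · rw [CB.mul_im, CB.mul_im]
    change ((1 / 2 : ℝ) • P i j) * ((1 / 2 : ℝ) • o ![k, l]) + ((1 / 2 : ℝ) • o ![i, j]) * ((1 / 2 : ℝ) • P k l) =
      ((1 / 2 : ℝ) • P i l) * ((1 / 2 : ℝ) • o ![k, j]) + ((1 / 2 : ℝ) • o ![i, l]) * ((1 / 2 : ℝ) • P k j)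
    rw [half_half, half_half, half_half, half_half, ← smul_add, ← smul_add]
    congr 1
    have e1 := h.sch2 i j k l
    have e2 := h.sch2 k l i j
    have e3 := h.J_anti i k
    rw [hs j l] at e1
    linear_combination e1 + e2 + P j l * e3

theorem Or.pl_tr (h : Or 2 P o) : trace (pl P o) = 1 := by
  have e2 : (trace (pl P o)).re = ∑ i, (1 / 2 : ℝ) • P i i := map_sum (⟨⟨CB.re, rfl⟩, fun _ _ => rfl⟩ : CB A →+ A) _ _
  have e3 : (trace (pl P o)).im = ∑ i, (1 / 2 : ℝ) • o ![i, i] :=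
    map_sum (⟨⟨CB.im, rfl⟩, fun _ _ => rfl⟩ : CB A →+ A) _ _
  have h2 : ∑ j, P j j = ((2 : ℕ) : A) := h.tr
  ext
  · rw [e2, ← Finset.smul_sum, h2, Nat.cast_ofNat, CB.one_re]
    have h3 : (2 : A) = (2 : ℝ) • (1 : A) := by
      rw [two_smul]
      norm_num
    rw [h3, smul_smul]
    norm_num
  · rw [e3, CB.one_im]
    refine Finset.sum_eq_zero fun i _ => ?_
    rw [h.J_self, smul_zero]

/-- the real bundle, complexified -/
theorem Or.pl_add (h : Or 2 P o) : pl P o + (pl P o)ᵀ = P.map CB.ofR := by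
  have hs : ∀ a b, P b a = P a b := fun a b => congrFun (congrFun h.sym a) b
  ext i j
  · change (1 / 2 : ℝ) • P i j + (1 / 2 : ℝ) • P j i = P i j
    rw [hs i j]
    module
  · change (1 / 2 : ℝ) • o ![i, j] + (1 / 2 : ℝ) • o ![j, i] = 0
    rw [h.J_anti i j]
    module

theorem Or.pl_conj (h : Or 2 P o) : (pl P o).map CB.conj = (pl P o)ᵀ := by
  have hs : ∀ a b, P b a = P a b := fun a b => congrFun (congrFun h.sym a) b
  ext i j
  · change (1 / 2 : ℝ) • P i j = (1 / 2 : ℝ) • P j i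
    rw [hs i j]
  · change -((1 / 2 : ℝ) • o ![i, j]) = (1 / 2 : ℝ) • o ![j, i]
    rw [h.J_anti i j, smul_neg]

theorem Or.P_pl (h : Or 2 P o) : P.map CB.ofR * pl P o = pl P o := by
  have hPP : ∀ i k, ∑ j, P i j * P j k = P i k := fun i k => by rw [← Matrix.mul_apply, h.idem]
  have e0 : ∀ (a : A) (b : CB A), (CB.ofR a : CB A) * b = ⟨a * b.re, a * b.im⟩ := fun a b => by
    ext
    · rw [CB.mul_re, CB.ofR_re, CB.ofR_im, zero_mul, sub_zero]
    · rw [CB.mul_im, CB.ofR_re, CB.ofR_im, zero_mul, add_zero]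
  ext i k
  · have e2 : ((P.map CB.ofR * pl P o) i k).re = ∑ j, (P.map CB.ofR i j * pl P o j k).re := by
      rw [Matrix.mul_apply]
      exact map_sum (⟨⟨CB.re, rfl⟩, fun _ _ => rfl⟩ : CB A →+ A) _ _
    rw [e2]
    simp only [Matrix.map_apply, e0]
    change ∑ j, P i j * ((1 / 2 : ℝ) • P j k) = (1 / 2 : ℝ) • P i k
    simp only [mul_smul_comm]
    rw [← Finset.smul_sum, hPP]
  · have e2 : ((P.map CB.ofR * pl P o) i k).im = ∑ j, (P.map CB.ofR i j * pl P o j k).im := by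
      rw [Matrix.mul_apply]
      exact map_sum (⟨⟨CB.im, rfl⟩, fun _ _ => rfl⟩ : CB A →+ A) _ _
    rw [e2]
    simp only [Matrix.map_apply, e0]
    change ∑ j, P i j * ((1 / 2 : ℝ) • o ![j, k]) = (1 / 2 : ℝ) • o ![i, k]
    simp only [mul_smul_comm]
    rw [← Finset.smul_sum, h.P_J]

theorem Or.pl_P (h : Or 2 P o) : pl P o * P.map CB.ofR = pl P o := by
  have h1 := congrArg Matrix.transpose (congrArg (fun M => Matrix.map M (CB.conj : CB A → CB A)) h.P_pl)
  have h2 : (P.map CB.ofR * pl P o).map (CB.conj : CB A → CB A) = (P.map CB.ofR).map CB.conj * (pl P o).map CB.conj :=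
    Matrix.map_mul
  have h3 : (P.map CB.ofR).map (CB.conj : CB A → CB A) = P.map CB.ofR := by
    ext i j
    · rfl
    · exact neg_zero
  rw [h2, h3, h.pl_conj, Matrix.transpose_mul, Matrix.transpose_transpose, ← Matrix.transpose_map, h.sym] at h1
  exact h1

theorem Or.pl_plT (h : Or 2 P o) : pl P o * (pl P o)ᵀ = 0 := by
  have h1 := h.pl_P
  rw [← h.pl_add, Matrix.mul_add, h.pl_idem] at h1
  exact left_eq_add.1 h1.symm

theorem Or.plT_pl (h : Or 2 P o) : (pl P o)ᵀ * pl P o = 0 := by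
  have h1 := h.P_pl
  rw [← h.pl_add, Matrix.add_mul, h.pl_idem] at h1
  exact left_eq_add.1 h1.symm

end Pool.Agent.Lib.MP_ccbbf6_gt.L5
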