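import Pool.Agent.Lib.MP_ccbbf6_gt.L5.EL0

/-!
# Level 5, EL1: normalised Chern character classes (helper13)

`hT P j = (i / 2 pi)^j hps P j`;  `hT (pl P o) j = e^j`, `hT (P1 + P2) = hT P1 + hT P2`, `hT (kr P Q) = binomial`.
-/

set_option autoImplicit false
set_option maxSynthPendingDepth 3
set_option linter.unusedSectionVars false

open Matrix Function

noncomputable section

namespace Pool.Agent.Lib.MP_ccbbf6_gt.L5

variable {ι κ μ : Type*} [Fintype ι] [DecidableEq ι] [Fintype κ] [DecidableEq κ] [Fintype μ] [DecidableEq μ]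

variable {A A' : Type*} [CommRing A] [Algebra ℝ A] [CommRing A'] [Algebra ℝ A'] {B B' : Type*} [Ring B] [Algebra ℝ B]
  [Ring B'] [Algebra ℝ B'] {G : GDA B} {G' : GDA B'} {φ : Fun0 A G} {φ' : Fun0 A' G'}

/-! ### complex matrices from real and imaginary parts -/

/-- the matrix with the given parts -/
def cm (M N : Matrix ι κ B) : Matrix ι κ (CB B) := fun i j => ⟨M i j, N i j⟩

theorem re_sum {α : Type*} (s : Finset α) (f : α → CB B) : (∑ i ∈ s, f i).re = ∑ i ∈ s, (f i).re :=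
  map_sum (⟨⟨CB.re, rfl⟩, fun _ _ => rfl⟩ : CB B →+ B) _ _

theorem im_sum {α : Type*} (s : Finset α) (f : α → CB B) : (∑ i ∈ s, f i).im = ∑ i ∈ s, (f i).im :=
  map_sum (⟨⟨CB.im, rfl⟩, fun _ _ => rfl⟩ : CB B →+ B) _ _

theorem ofR_mul_cm (M : Matrix ι κ B) (a b : Matrix κ μ B) : M.map CB.ofR * cm a b = cm (M * a) (M * b) := by
  ext i j
  · rw [Matrix.mul_apply, re_sum]
    change _ = (M * a) i j
    rw [Matrix.mul_apply]
    refine Finset.sum_congr rfl fun k _ => ?_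
    change M i k * a k j - 0 * b k j = _
    rw [zero_mul, sub_zero]
  · rw [Matrix.mul_apply, im_sum]
    change _ = (M * b) i j
    rw [Matrix.mul_apply]
    refine Finset.sum_congr rfl fun k _ => ?_
    change M i k * b k j + 0 * a k j = _
    rw [zero_mul, add_zero]

theorem cm_mul_ofR (a b : Matrix ι κ B) (M : Matrix κ μ B) : cm a b * M.map CB.ofR = cm (a * M) (b * M) := by
  ext i j
  · rw [Matrix.mul_apply, re_sum]
    change _ = (a * M) i j
    rw [Matrix.mul_apply]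
    refine Finset.sum_congr rfl fun k _ => ?_
    change a i k * M k j - b i k * 0 = _
    rw [mul_zero, sub_zero]
  · rw [Matrix.mul_apply, im_sum]
    change _ = (b * M) i j
    rw [Matrix.mul_apply]
    refine Finset.sum_congr rfl fun k _ => ?_
    change a i k * 0 + b i k * M k j = _
    rw [mul_zero, zero_add]

theorem trace_cm (a b : Matrix ι ι B) : trace (cm a b) = ⟨trace a, trace b⟩ := by
  ext
  · exact re_sum _ _
  · exact im_sum _ _

theorem D_cm (a b : Matrix ι κ B) : (GC G).D (cm a b) = cm (G.D a) (G.D b) := rfl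

theorem R_ofR (P : Matrix ι ι B) : (GC G).R (P.map CB.ofR) = (G.R P).map CB.ofR := ((GHom.ofR G).map_R P).symm

/-- functions -/
theorem map_ofR (M : Matrix ι κ A) : (M.map CB.ofR).map φ.C.f = (M.map φ.f).map CB.ofR := by
  ext i j
  · rfl
  · exact map_zero φ.f

variable {P : Matrix ι ι A} {o : (Fin 2 → ι) → A}

theorem pl_cm : (pl P o).map φ.C.f = cm ((1 / 2 : ℝ) • P.map φ.f) ((1 / 2 : ℝ) • (Jm o).map φ.f) := by
  ext i j
  · exact map_smul φ.f _ _
  · exact map_smul φ.f _ _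

/-- the rotation is parallel -/
theorem Or.J_par (h : Or 2 P o) : P.map φ.f * G.D ((Jm o).map φ.f) * P.map φ.f = 0 := by
  ext a b
  have h1 := grad_o (φ := φ) h ![a, b]
  have h2 : ∀ I : Fin 2 → ι, φ.f (∏ k, P (![a, b] k) (I k)) * G.d (φ.f (o I)) =
      φ.f (P a (I 0) * P b (I 1)) * G.d (φ.f (o ![I 0, I 1])) := by
    intro I
    rw [Fin.prod_univ_two, v2]
    rfl
  simp only [h2] at h1
  rw [sum2 fun i j => φ.f (P a i * P b j) * G.d (φ.f (o ![i, j]))] at h1
  rw [Matrix.mul_apply]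
  simp only [Matrix.mul_apply, Finset.sum_mul]
  rw [Finset.sum_comm]
  refine Eq.trans ?_ h1
  refine Finset.sum_congr rfl fun i _ => Finset.sum_congr rfl fun j _ => ?_
  have h3 : P j b = P b j := congrFun (congrFun h.sym b) j
  change φ.f (P a i) * G.d (φ.f (o ![i, j])) * φ.f (P j b) = _
  rw [h3, ← φ.comm, ← mul_assoc, ← map_mul, mul_comm (P b j)]

theorem tr_J (h : Or 2 P o) : trace ((Jm o).map φ.f * G.R (P.map φ.f)) = -St φ o (fun I => Rv φ P (I 0) (I 1)) := by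
  have e1 : (Jm o).map φ.f * P.map φ.f = (Jm o).map φ.f := by
    rw [← φ.mul]
    congr 1
    ext i j
    rw [Matrix.mul_apply]
    exact h.J_P i j
  have e2 : (Jm o).map φ.f * G.R (P.map φ.f) = (Jm o).map φ.f * Rv φ P := by
    unfold Rv
    rw [← Matrix.mul_assoc, e1]
  rw [e2]
  have e3 : St φ o (fun I => Rv φ P (I 0) (I 1)) = ∑ i, ∑ j, φ.f (o ![i, j]) * Rv φ P i j := by
    rw [← sum2 fun i j => φ.f (o ![i, j]) * Rv φ P i j]
    unfold St
    exact Finset.sum_congr rfl fun I _ => by rw [v2]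
  rw [e3, ← Finset.sum_neg_distrib]
  unfold trace
  refine Finset.sum_congr rfl fun i _ => ?_
  rw [Matrix.diag_apply, Matrix.mul_apply, ← Finset.sum_neg_distrib]
  refine Finset.sum_congr rfl fun j _ => ?_
  rw [Rv_anti h.idem h.sym j i, mul_neg]
  rfl

/-- the first power sum of the line -/
theorem Or.ps_pl (h : Or 2 P o) : (GC G).ps ((pl P o).map φ.C.f) 1 = ⟨0, (-(2 * Real.pi)) • eu2 φ P o⟩ := by
  have hI := φ.idem h.idem
  have hp := φ.C.idem h.pl_idem
  have hQ := φ.C.idem (P := P.map CB.ofR) (by rw [← Matrix.map_mul, h.idem])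
  have q1 : (P.map CB.ofR).map φ.C.f * (pl P o).map φ.C.f = (pl P o).map φ.C.f := by rw [← φ.C.mul, h.P_pl]
  have q2 : (pl P o).map φ.C.f * (P.map CB.ofR).map φ.C.f = (pl P o).map φ.C.f := by rw [← φ.C.mul, h.pl_P]
  have q3 : (P.map CB.ofR).map φ.C.f * (GC G).D ((pl P o).map φ.C.f) * (P.map CB.ofR).map φ.C.f = 0 := by
    rw [map_ofR, pl_cm, D_cm, ofR_mul_cm, cm_mul_ofR]
    have e1 : G.D ((1 / 2 : ℝ) • P.map φ.f) = (1 / 2 : ℝ) • G.D (P.map φ.f) := by
      ext i j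
      exact map_smul G.d _ _
    have e2 : G.D ((1 / 2 : ℝ) • (Jm o).map φ.f) = (1 / 2 : ℝ) • G.D ((Jm o).map φ.f) := by
      ext i j
      exact map_smul G.d _ _
    rw [e1, e2, Matrix.mul_smul, Matrix.smul_mul, Matrix.mul_smul, Matrix.smul_mul, hI.pdp, h.J_par, smul_zero]
    rfl
  rw [hp.ps_par hQ q1 q2 q3, map_ofR, R_ofR, pl_cm, cm_mul_ofR, trace_cm, Matrix.smul_mul, Matrix.smul_mul,
    Matrix.trace_smul, Matrix.trace_smul, tr_J h]
  have e3 : trace (P.map φ.f * G.R (P.map φ.f)) = 0 := by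
    have h1 := hI.ps_odd (by rw [← Matrix.transpose_map, h.sym]) (j := 1) odd_one
    unfold GDA.ps at h1
    rw [pow_one] at h1
    exact h1
  rw [e3, smul_zero]
  unfold eu2
  rw [smul_smul, smul_neg, ← neg_smul]
  congr 2
  have hp : Real.pi ≠ 0 := Real.pi_ne_zero
  field_simp
  norm_num

/-- all power sums of the line -/
theorem Or.ps_pl_pow (h : Or 2 P o) (j : ℕ) : (GC G).ps ((pl P o).map φ.C.f) j = (GC G).ps ((pl P o).map φ.C.f) 1 ^ j := by
  refine (φ.C.idem h.pl_idem).ps_rk1 (fun i j k l => ?_) ?_ j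
  · rw [Matrix.map_apply, Matrix.map_apply, Matrix.map_apply, Matrix.map_apply, ← map_mul, h.pl_rk, map_mul]
  · have h1 := congrArg φ.C.f h.pl_tr
    unfold trace at h1 ⊢
    rw [map_sum, map_one] at h1
    exact h1

/-! ### normalised classes -/

/-- normalised power sums -/
def hT {P : Matrix ι ι (CB B)} (h : (GC G).Idem P) (j : ℕ) : (GC G).HE :=
  GDA.hI G ^ j * ((1 / (2 * Real.pi)) ^ j • GDA.hps h j)

/-- real classes as complex classes -/
def rc (G : GDA B) : G.HE →ₐ[ℝ] (GC G).HE := (GHom.ofR G).he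

theorem rc_inj : Function.Injective (rc G) := GDA.ofR_he_inj

theorem hT_congr {P Q : Matrix ι ι (CB B)} (e : P = Q) (h : (GC G).Idem P) (h' : (GC G).Idem Q) (j : ℕ) :
    hT h j = hT h' j := by
  subst e
  rfl

theorem hT_iso (C : Cyl G G') {P : Matrix ι ι (CB B)} {Q : Matrix κ κ (CB B)} {a : Matrix ι κ (CB B)}
    {b : Matrix κ ι (CB B)} (hP : (GC G).Idem P) (hQ : (GC G).Idem Q) (ha : (GC G).Ev a) (hb : (GC G).Ev b)
    (h1 : a * b = P) (h2 : b * a = Q) (j : ℕ) : hT hQ j = hT hP j := by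
  unfold hT
  rw [C.cx.hps_iso hP hQ ha hb h1 h2]

theorem hT_add (C : Cyl G G') {P Q : Matrix ι ι (CB B)} (hP : (GC G).Idem P) (hQ : (GC G).Idem Q)
    (hPQ : (GC G).Idem (P + Q)) (h1 : P * Q = 0) (h2 : Q * P = 0) (j : ℕ) : hT hPQ j = hT hP j + hT hQ j := by
  unfold hT
  rw [C.cx.hps_add hP hQ hPQ h1 h2, smul_add, mul_add]

theorem he_hT (f : GHom G G') {P : Matrix ι ι (CB B)} (h : (GC G).Idem P) (j : ℕ) :
    f.cx.he (hT h j) = hT (f.cx.idem h) j := by
  unfold hT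
  rw [map_mul, map_pow, map_smul, GHom.he_hps]
  congr 1
  congr 1
  unfold GDA.hI
  rw [GHom.he_cl]
  refine GDA.cl_congr ?_ _ _
  exact CB.ext (map_zero _) (map_one _)

theorem hT_trace {P : Matrix ι ι (CB B)} (h : (GC G).Idem P) {r : ℕ} (ht : trace P = r) : hT h 0 = r := by
  unfold hT GDA.hps
  rw [pow_zero, pow_zero, one_mul, one_smul]
  have e1 := GDA.cl_congr (w := (GC G).ps P 0) (w' := (r : CB B)) (by rw [GDA.ps_zero, ht]) (h.s_ps 0) (h.d_ps 0)
  rw [e1]
  have h2 : ∀ x : (GC G).Zc, (x : CB B) = r → Ideal.Quotient.mk (GC G).Ex x = (r : (GC G).HE) := by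
    intro x hx
    have h3 : x = (r : (GC G).Zc) := Subtype.ext (hx.trans (map_natCast (GC G).Zc.val r).symm)
    rw [h3, map_natCast]
  exact h2 _ rfl

/-- tensor products -/
theorem hT_kr {P : Matrix ι ι (CB B)} {Q : Matrix κ κ (CB B)} (hP : (GC G).Idem P) (hQ : (GC G).Idem Q) (j : ℕ) :
    hT (hP.kr hQ) j = ∑ m ∈ Finset.range (j + 1), (j.choose m : (GC G).HE) * (hT hP m * hT hQ (j - m)) := by
  have e1 : GDA.hps (hP.kr hQ) j = ∑ m ∈ Finset.range (j + 1), (j.choose m : (GC G).HE) *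
      (GDA.hps hP m * GDA.hps hQ (j - m)) := by
    have e2 : (⟨(GC G).ps (kr P Q) j, (hP.kr hQ).s_ps j, (hP.kr hQ).d_ps j⟩ : (GC G).Zc) =
        ∑ m ∈ Finset.range (j + 1), (j.choose m : (GC G).Zc) *
        ((⟨(GC G).ps P m, hP.s_ps m, hP.d_ps m⟩ : (GC G).Zc) *
          ⟨(GC G).ps Q (j - m), hQ.s_ps (j - m), hQ.d_ps (j - m)⟩) := by
      refine Subtype.ext ?_
      refine (hP.ps_kr hQ j).trans ?_
      refine Eq.trans ?_ (map_sum (GC G).Zc.val _ _).symm
      refine Finset.sum_congr rfl fun m _ => ?_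
      rw [map_mul, map_mul, map_natCast]
      rfl
    have e3 := congrArg (Ideal.Quotient.mk (GC G).Ex) e2
    rw [map_sum] at e3
    simp only [map_mul, map_natCast] at e3
    exact e3
  unfold hT
  rw [e1, Finset.smul_sum, Finset.mul_sum]
  refine Finset.sum_congr rfl fun m hm => ?_
  have hm' : m ≤ j := Nat.lt_succ_iff.1 (Finset.mem_range.1 hm)
  obtain ⟨n, rfl⟩ := Nat.exists_eq_add_of_le hm'
  rw [Nat.add_sub_cancel_left, pow_add, pow_add, Algebra.smul_def, Algebra.smul_def, Algebra.smul_def, map_mul]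
  ring

end Pool.Agent.Lib.MP_ccbbf6_gt.L5
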