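import Pool.Agent.Lib.MP_ccbbf6_gt.L5.EL1
import Pool.Agent.Lib.MP_ccbbf6_gt.L5.EU9

/-!
# Level 5, EL2: Chern character classes of split bundles (helper13)

* `hT_pl`, `hT_plT` : the two lines of an oriented plane bundle;
* `hT_two`, `hT_four` : `V = L + L'` has `hT V j = l^j + (-l)^j + l'^j + (-l')^j`;
* `hR`, `hT_even`, `hT_odd` : real bundles;
* `hT_twist` : `W' = L (x) W`.
-/

set_option autoImplicit false
set_option maxSynthPendingDepth 3
set_option linter.unusedSectionVars false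

open Matrix Function

noncomputable section

namespace Pool.Agent.Lib.MP_ccbbf6_gt.L5

variable {ι κ μ : Type*} [Fintype ι] [DecidableEq ι] [Fintype κ] [DecidableEq κ] [Fintype μ] [DecidableEq μ]

variable {A A' : Type*} [CommRing A] [Algebra ℝ A] [CommRing A'] [Algebra ℝ A'] {B B' : Type*} [Ring B] [Algebra ℝ B]
  [Ring B'] [Algebra ℝ B'] {G : GDA B} {G' : GDA B'} {φ : Fun0 A G} {φ' : Fun0 A' G'}

variable {P : Matrix ι ι A} {o : (Fin 2 → ι) → A}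

theorem rc_cl {w : B} {h : G.s w = w} {h' : G.d w = 0} :
    rc G (GDA.cl w h h') = GDA.cl (G := GC G) (CB.ofR w) (by
      have := (GHom.ofR G).f_s w
      rw [h] at this
      exact this.symm) (by
      have := (GHom.ofR G).f_d w
      rw [h', map_zero] at this
      exact this.symm) := rfl

theorem cb_line (x : B) : (CB.I : CB B) * ((1 / (2 * Real.pi)) • (⟨0, (-(2 * Real.pi)) • x⟩ : CB B)) = CB.ofR x := by
  have hp : Real.pi ≠ 0 := Real.pi_ne_zero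
  have e1 : -(1 / (2 * Real.pi) * -(2 * Real.pi)) = 1 := by
    field_simp
  refine CB.ext ?_ ?_
  · change 0 * ((1 / (2 * Real.pi)) • (0 : B)) - 1 * ((1 / (2 * Real.pi)) • ((-(2 * Real.pi)) • x)) = x
    rw [zero_mul, one_mul, smul_smul, zero_sub, ← neg_smul, e1, one_smul]
  · change 0 * ((1 / (2 * Real.pi)) • ((-(2 * Real.pi)) • x)) + 1 * ((1 / (2 * Real.pi)) • (0 : B)) = 0
    rw [zero_mul, smul_zero, mul_zero, add_zero]

theorem hI_smul_cl {w : CB B} (r : ℝ) {h : (GC G).s w = w} {h' : (GC G).d w = 0}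
    {h2 : (GC G).s (CB.I * (r • w)) = CB.I * (r • w)} {h3 : (GC G).d (CB.I * (r • w)) = 0} :
    GDA.hI G * (r • GDA.cl (G := GC G) w h h') = GDA.cl (G := GC G) (CB.I * (r • w)) h2 h3 := rfl

theorem pl_cb (h : Or 2 P o) :
    CB.I * ((1 / (2 * Real.pi)) • (GC G).ps ((pl P o).map φ.C.f) 1) = CB.ofR (eu2 φ P o) := by
  rw [h.ps_pl]
  exact cb_line _

theorem pl_s (h : Or 2 P o) : (GC G).s (CB.ofR (eu2 φ P o)) = CB.ofR (eu2 φ P o) :=
  ((GHom.ofR G).f_s (eu2 φ P o)).symm.trans (congrArg _ (s_eu2 h.idem))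

theorem pl_d (h : Or 2 P o) : (GC G).d (CB.ofR (eu2 φ P o)) = 0 :=
  ((GHom.ofR G).f_d (eu2 φ P o)).symm.trans ((congrArg _ (d_eu2 h)).trans (map_zero _))

theorem hT_pl_a (h : Or 2 P o)
    (k2 : (GC G).s (CB.I * ((1 / (2 * Real.pi)) • (GC G).ps ((pl P o).map φ.C.f) 1)) =
      CB.I * ((1 / (2 * Real.pi)) • (GC G).ps ((pl P o).map φ.C.f) 1))
    (k3 : (GC G).d (CB.I * ((1 / (2 * Real.pi)) • (GC G).ps ((pl P o).map φ.C.f) 1)) = 0) :
    hT (φ.C.idem h.pl_idem) 1 =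
      GDA.cl (G := GC G) (CB.I * ((1 / (2 * Real.pi)) • (GC G).ps ((pl P o).map φ.C.f) 1)) k2 k3 := by
  unfold hT
  rw [pow_one, pow_one]
  exact hI_smul_cl _

theorem hT_pl_b (h : Or 2 P o)
    (k2 : (GC G).s (CB.I * ((1 / (2 * Real.pi)) • (GC G).ps ((pl P o).map φ.C.f) 1)) =
      CB.I * ((1 / (2 * Real.pi)) • (GC G).ps ((pl P o).map φ.C.f) 1))
    (k3 : (GC G).d (CB.I * ((1 / (2 * Real.pi)) • (GC G).ps ((pl P o).map φ.C.f) 1)) = 0) :
    GDA.cl (G := GC G) (CB.I * ((1 / (2 * Real.pi)) • (GC G).ps ((pl P o).map φ.C.f) 1)) k2 k3 =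
      GDA.cl (G := GC G) (CB.ofR (eu2 φ P o)) (pl_s h) (pl_d h) := GDA.cl_congr (pl_cb h) _ _

theorem hT_pl_c (h : Or 2 P o) : GDA.cl (G := GC G) (CB.ofR (eu2 φ P o)) (pl_s h) (pl_d h) = rc G (hE2 φ h) := rfl

/-- the first class of the line is the Euler class -/
theorem hT_pl_one (h : Or 2 P o) : hT (φ.C.idem h.pl_idem) 1 = rc G (hE2 φ h) :=
  (hT_pl_a h (by rw [pl_cb h]; exact pl_s h) (by rw [pl_cb h]; exact pl_d h)).trans ((hT_pl_b h _ _).trans (hT_pl_c h))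

theorem hps_pl_pow (h : Or 2 P o) (j : ℕ) :
    GDA.hps (φ.C.idem h.pl_idem) j = GDA.hps (φ.C.idem h.pl_idem) 1 ^ j := by
  have e1 : (⟨_, (φ.C.idem h.pl_idem).s_ps j, (φ.C.idem h.pl_idem).d_ps j⟩ : (GC G).Zc) =
      (⟨_, (φ.C.idem h.pl_idem).s_ps 1, (φ.C.idem h.pl_idem).d_ps 1⟩ : (GC G).Zc) ^ j := Subtype.ext (h.ps_pl_pow j)
  have e2 := congrArg (Ideal.Quotient.mk (GC G).Ex) e1
  rw [map_pow] at e2
  exact e2

/-- the classes of the line -/
theorem hT_pl (h : Or 2 P o) (j : ℕ) : hT (φ.C.idem h.pl_idem) j = rc G (hE2 φ h) ^ j := by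
  rw [← hT_pl_one h]
  unfold hT
  rw [hps_pl_pow h, pow_one, pow_one, mul_pow, smul_pow]

theorem Or.op2 {r : ℕ} {o : (Fin r → ι) → A} (h : Or r P o) : Or r P (fun I => -o I) := by
  constructor
  · exact h.sym
  · exact h.idem
  · exact h.tr
  · intro σ I
    rw [h.alt]
    ring
  · intro I J
    rw [neg_mul_neg]
    exact h.rk I J
  · simp only [neg_mul_neg]
    exact h.nrm
  · intro I k l
    simp only [mul_neg, Finset.sum_neg_distrib]
    rw [h.inv]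
  · intro y hy I e
    simp only [mul_neg, Finset.sum_neg_distrib]
    rw [h.sch y hy]

theorem pl_op (h : Or 2 P o) : pl P (fun I => -o I) = (pl P o)ᵀ := by
  ext i j
  · change (1 / 2 : ℝ) • P i j = (1 / 2 : ℝ) • P j i
    rw [show P j i = P i j from congrFun (congrFun h.sym i) j]
  · change (1 / 2 : ℝ) • -o ![i, j] = (1 / 2 : ℝ) • o ![j, i]
    rw [h.J_anti i j]

theorem hE2_op (h : Or 2 P o) : hE2 φ h.op2 = -hE2 φ h := by
  unfold hE2
  rw [GDA.cl_neg]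
  exact GDA.cl_congr eu2_op _ _

/-- the conjugate line -/
theorem Or.plT_idem (h : Or 2 P o) : (pl P o)ᵀ * (pl P o)ᵀ = (pl P o)ᵀ := by
  rw [← Matrix.transpose_mul, h.pl_idem]

theorem hT_plT (h : Or 2 P o) (j : ℕ) : hT (φ.C.idem h.plT_idem) j = (-rc G (hE2 φ h)) ^ j := by
  have h1 := hT_pl (φ := φ) h.op2 j
  rw [hE2_op h, map_neg] at h1
  rw [← h1]
  exact hT_congr (by rw [pl_op h]) _ _ j

/-- complexification of a real bundle -/
theorem cidem {P : Matrix ι ι A} (h : P * P = P) : P.map CB.ofR * P.map CB.ofR = P.map (CB.ofR : A →ₐ[ℝ] CB A) := by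
  rw [← Matrix.map_mul, h]

/-- rank two -/
theorem hT_two (C : Cyl G G') (h : Or 2 P o) (j : ℕ) :
    hT (φ.C.idem (cidem h.idem)) j = rc G (hE2 φ h) ^ j + (-rc G (hE2 φ h)) ^ j := by
  have e1 : (pl P o).map φ.C.f + (pl P o)ᵀ.map φ.C.f = (P.map CB.ofR).map φ.C.f := by
    rw [← φ.C.add, h.pl_add]
  have hS : (GC G).Idem ((pl P o).map φ.C.f + (pl P o)ᵀ.map φ.C.f) := by
    rw [e1]
    exact φ.C.idem (cidem h.idem)
  have h1 := hT_add C (φ.C.idem h.pl_idem) (φ.C.idem h.plT_idem) hS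
    (by rw [← φ.C.mul, h.pl_plT, φ.C.zero]) (by rw [← φ.C.mul, h.plT_pl, φ.C.zero]) j
  rw [hT_pl h, hT_plT h] at h1
  rw [← h1]
  exact hT_congr e1.symm _ _ j

/-- additivity for real bundles -/
theorem hT_radd (C : Cyl G G') {P Q : Matrix ι ι A} (hP : P * P = P) (hQ : Q * Q = Q) (hPQ : (P + Q) * (P + Q) = P + Q)
    (h1 : P * Q = 0) (h2 : Q * P = 0) (j : ℕ) : hT (φ.C.idem (cidem hPQ)) j =
      hT (φ.C.idem (cidem hP)) j + hT (φ.C.idem (cidem hQ)) j := by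
  have e0 : (P + Q).map (CB.ofR : A →ₐ[ℝ] CB A) = P.map CB.ofR + Q.map CB.ofR := by
    ext i j
    · rfl
    · exact (add_zero (0 : A)).symm
  have e1 : (P.map CB.ofR).map φ.C.f + (Q.map CB.ofR).map φ.C.f = ((P + Q).map CB.ofR).map φ.C.f := by
    rw [← φ.C.add, e0]
  have hS : (GC G).Idem ((P.map CB.ofR).map φ.C.f + (Q.map CB.ofR).map φ.C.f) := by
    rw [e1]
    exact φ.C.idem (cidem hPQ)
  have z : (0 : Matrix ι ι A).map (CB.ofR : A →ₐ[ℝ] CB A) = 0 := by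
    ext i j
    · rfl
    · rfl
  have k1 := hT_add C (φ.C.idem (cidem hP)) (φ.C.idem (cidem hQ)) hS
    (by rw [← φ.C.mul, ← Matrix.map_mul, h1, z, φ.C.zero]) (by rw [← φ.C.mul, ← Matrix.map_mul, h2, z, φ.C.zero]) j
  rw [← k1]
  exact hT_congr e1.symm _ _ j

/-- **rank four**, `V = L + L'` -/
theorem hT_four (C : Cyl G G') {P Q : Matrix ι ι A} {o o' : (Fin 2 → ι) → A} (h : Or 2 P o) (h' : Or 2 Q o')
    (hPQ : (P + Q) * (P + Q) = P + Q) (h1 : P * Q = 0) (h2 : Q * P = 0) (j : ℕ) :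
    hT (φ.C.idem (cidem hPQ)) j = rc G (hE2 φ h) ^ j + (-rc G (hE2 φ h)) ^ j + (rc G (hE2 φ h') ^ j +
      (-rc G (hE2 φ h')) ^ j) := by
  rw [hT_radd C h.idem h'.idem hPQ h1 h2, hT_two C h, hT_two C h']

/-! ### real bundles -/

/-- normalised even power sums -/
def hR (φ : Fun0 A G) {P : Matrix ι ι A} (hP : P * P = P) (i : ℕ) : G.HE :=
  ((-1) ^ i * (1 / (2 * Real.pi)) ^ (2 * i)) • GDA.hps (φ.idem hP) (2 * i)

theorem hps_congr {P Q : Matrix ι ι B} (e : P = Q) (h : G.Idem P) (h' : G.Idem Q) (j : ℕ) :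
    GDA.hps h j = GDA.hps h' j := by
  subst e
  rfl

theorem hps_real {P : Matrix ι ι A} (hP : P * P = P) (j : ℕ) :
    GDA.hps (φ.C.idem (cidem hP)) j = rc G (GDA.hps (φ.idem hP) j) := by
  have h1 := (GHom.ofR G).he_hps (φ.idem hP) j
  have h2 : (P.map CB.ofR).map φ.C.f = (P.map φ.f).map (GHom.ofR G).f := map_ofR P
  exact (hps_congr h2 _ _ j).trans h1.symm

theorem hT_even {P : Matrix ι ι A} (hP : P * P = P) (i : ℕ) :
    hT (φ.C.idem (cidem hP)) (2 * i) = rc G (hR φ hP i) := by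
  unfold hT hR
  have e1 : GDA.hI G ^ (2 * i) = ((-1 : ℝ) ^ i) • (1 : (GC G).HE) := by
    rw [pow_mul, pow_two, GDA.hI_sq]
    rcases Nat.even_or_odd i with hi | hi
    · rw [hi.neg_one_pow, hi.neg_one_pow, one_smul]
    · rw [hi.neg_one_pow, hi.neg_one_pow, neg_one_smul]
  rw [e1, hps_real hP, map_smul, smul_mul_smul_comm, one_mul]

theorem hT_odd {P : Matrix ι ι A} (hP : P * P = P) (hs : Pᵀ = P) {j : ℕ} (hj : Odd j) :
    hT (φ.C.idem (cidem hP)) j = 0 := by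
  unfold hT
  rw [hps_real hP]
  have e1 : GDA.hps (φ.idem hP) j = 0 := by
    unfold GDA.hps
    rw [GDA.cl_eq_zero]
    exact ⟨0, by rw [(φ.idem hP).ps_odd (by rw [← Matrix.transpose_map, hs]) hj, map_zero]⟩
  rw [e1, map_zero, smul_zero, mul_zero]

/-- Pontryagin classes -/
def hP (φ : Fun0 A G) {P : Matrix ι ι A} (hP : P * P = P) (i : ℕ) : G.HE :=
  ((1 / (2 * Real.pi)) ^ (2 * i)) • GDA.hc (φ.idem hP) (2 * i)

theorem odd_zero {P : Matrix ι ι A} (hP : P * P = P) (hs : Pᵀ = P) {j : ℕ} (hj : Odd j) :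
    GDA.hps (φ.idem hP) j = 0 := by
  unfold GDA.hps
  rw [GDA.cl_eq_zero]
  exact ⟨0, by rw [(φ.idem hP).ps_odd (by rw [← Matrix.transpose_map, hs]) hj, map_zero]⟩

theorem elc_two {E : Type*} [CommRing E] [Algebra ℝ E] (p : ℕ → E) (h1 : p 1 = 0) :
    elc p 2 = (-(1 / 2) : ℝ) • p 2 := by
  rw [elc_succ]
  simp only [Finset.sum_range_succ, Finset.sum_range_zero, zero_add, Nat.sub_zero, Nat.sub_self]
  rw [elc_one, elc_zero, h1, mul_zero, mul_zero, zero_add, pow_one, one_mul, neg_one_mul]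
  push_cast
  norm_num

theorem elc_four {E : Type*} [CommRing E] [Algebra ℝ E] (p : ℕ → E) (h1 : p 1 = 0) (h3 : p 3 = 0) :
    elc p 4 = (1 / 8 : ℝ) • (p 2 * p 2) - (1 / 4 : ℝ) • p 4 := by
  have e3 : elc p 3 = 0 := by
    rw [elc_succ]
    simp only [Finset.sum_range_succ, Finset.sum_range_zero, zero_add]
    rw [h1, h3, show 2 - 1 = 1 from rfl, elc_one, h1]
    simp
  rw [elc_succ]
  simp only [Finset.sum_range_succ, Finset.sum_range_zero, zero_add, Nat.sub_zero, Nat.sub_self]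
  rw [h1, h3, e3, elc_zero, show 3 - 1 = 2 from rfl, elc_two p h1]
  simp only [mul_zero, add_zero, zero_add, pow_one, neg_one_mul, smul_mul_assoc, one_mul]
  push_cast
  norm_num
  module

theorem hP_zero {P : Matrix ι ι A} (h : P * P = P) : hP φ h 0 = 1 := by
  unfold hP
  rw [mul_zero, pow_zero, one_smul, GDA.hc_zero]

theorem hP_one {P : Matrix ι ι A} (h : P * P = P) (hs : Pᵀ = P) : hP φ h 1 = hp1 φ h := by
  have h1 : GDA.hps (φ.idem h) 1 = 0 := odd_zero (φ := φ) h hs odd_one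
  have h2 := elc_two (GDA.hps (φ.idem h)) h1
  have h3 : (1 / (2 * Real.pi)) ^ (2 * 1) * (-(1 / 2)) = -(1 / (8 * Real.pi ^ 2)) := by
    rw [mul_one, _root_.div_pow, mul_pow, one_pow, mul_neg, div_mul_div_comm]
    norm_num
    ring
  have h4 : hP φ h 1 = (1 / (2 * Real.pi)) ^ (2 * 1) • elc (GDA.hps (φ.idem h)) 2 := rfl
  have h5 : hp1 φ h = (-(1 / (8 * Real.pi ^ 2))) • GDA.hps (φ.idem h) 2 := rfl
  rw [h4, h2, h5, ← h3, mul_smul]

/-- **the square of the Euler class** -/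
theorem hE_sq {P : Matrix ι ι A} {o : (Fin 4 → ι) → A} (h : Or 4 P o) : hE φ h * hE φ h = hP φ h.idem 2 := by
  have h1 : GDA.hps (φ.idem h.idem) 1 = 0 := odd_zero (φ := φ) h.idem h.sym odd_one
  have h3 : GDA.hps (φ.idem h.idem) 3 = 0 := odd_zero (φ := φ) h.idem h.sym (by decide)
  have h2 := elc_four (GDA.hps (φ.idem h.idem)) h1 h3
  have h4 : hP φ h.idem 2 = (1 / (2 * Real.pi)) ^ (2 * 2) • elc (GDA.hps (φ.idem h.idem)) 4 := rfl
  rw [h4, h2]
  unfold hE GDA.hps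
  rw [GDA.cl_mul, GDA.cl_mul, GDA.cl_smul, GDA.cl_smul, GDA.cl_sub, GDA.cl_smul]
  refine GDA.cl_congr ?_ _ _
  rw [eul_sq h, _root_.one_div_pow]

/-! ### the twisted bundle -/

/-- `W' = L (x) W` -/
theorem hT_twist (C : Cyl G G') (h : Or 2 P o) {W : Matrix κ κ (CB A)} {W' : Matrix μ μ (CB A)} (hW : W * W = W)
    (hW' : W' * W' = W') (a : Matrix μ (ι × κ) (CB A)) (b : Matrix (ι × κ) μ (CB A)) (hab : a * b = W')
    (hba : b * a = fun p q => pl P o p.1 q.1 * W p.2 q.2) (j : ℕ) :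
    hT (φ.C.idem hW') j = ∑ m ∈ Finset.range (j + 1), (j.choose m : (GC G).HE) *
      (rc G (hE2 φ h) ^ m * hT (φ.C.idem hW) (j - m)) := by
  have e1 := hT_kr (φ.C.idem h.pl_idem) (φ.C.idem hW) j
  have e2 : (b.map φ.C.f) * (a.map φ.C.f) = kr ((pl P o).map φ.C.f) (W.map φ.C.f) := by
    rw [← φ.C.mul, hba]
    ext p q
    · exact congrArg CB.re (map_mul φ.C.f _ _)
    · exact congrArg CB.im (map_mul φ.C.f _ _)
  have e3 : (a.map φ.C.f) * (b.map φ.C.f) = W'.map φ.C.f := by rw [← φ.C.mul, hab]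
  have e4 := hT_iso C (φ.C.idem hW') ((φ.C.idem h.pl_idem).kr (φ.C.idem hW)) (φ.C.Ev a) (φ.C.Ev b) e3 e2 j
  rw [← e4, e1]
  refine Finset.sum_congr rfl fun m _ => ?_
  rw [hT_pl h]

end Pool.Agent.Lib.MP_ccbbf6_gt.L5
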