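import Pool.Agent.Lib.MP_ccbbf6_gt.L5.EPS05

/-!
# Level 5, block EPS, part 6: the collapse map of the cube to the sphere has degree `± 1`
-/

set_option autoImplicit false

open Set Filter Topology MeasureTheory Metric
open scoped ContDiff

noncomputable section

namespace Pool.Agent.Lib.MP_ccbbf6_gt.L5

open Geo L4 L4.FR

variable {k l n N : ℕ}

theorem mem_interior_Zc {x : V (N + 1)} (h1 : ∀ i : Fin N, x i.castSucc ∈ Ioo (0 : ℝ) 1) (h2 : 0 < x (Fin.last N)) :
    x ∈ interior (Zc N) := by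
  rw [mem_interior]
  refine ⟨{y | (∀ i : Fin N, y i.castSucc ∈ Ioo (0 : ℝ) 1) ∧ 0 < y (Fin.last N)}, ?_, ?_, h1, h2⟩
  · intro y hy
    exact ⟨⟨fun i => (hy.1 i).1.le, fun i => (hy.1 i).2.le⟩, hy.2.le⟩
  · have h3 : {y : V (N + 1) | (∀ i : Fin N, y i.castSucc ∈ Ioo (0 : ℝ) 1) ∧ 0 < y (Fin.last N)} =
        (⋂ i : Fin N, {y | y i.castSucc ∈ Ioo (0 : ℝ) 1}) ∩ {y | 0 < y (Fin.last N)} := by
      ext y; simp
    rw [h3]
    refine (isOpen_iInter_of_finite fun i => ?_).inter (isOpen_lt continuous_const (continuous_apply _))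
    exact isOpen_Ioo.preimage (continuous_apply _)

namespace Col

/-- vanishes on the faces -/
def b (y : V N) : ℝ := ∏ i, (y i * (1 - y i))

/-- squared distance to the centre -/
def q (y : V N) : ℝ := ∑ i, (y i - 1 / 2) ^ 2

theorem contDiff_b : ContDiff ℝ ∞ (b : V N → ℝ) := by
  unfold b
  exact contDiff_prod fun i _ => (contDiff_apply ℝ ℝ i).mul (contDiff_const.sub (contDiff_apply ℝ ℝ i))

theorem contDiff_q : ContDiff ℝ ∞ (q : V N → ℝ) := by
  unfold q
  exact ContDiff.sum fun i _ => ((contDiff_apply ℝ ℝ i).sub contDiff_const).pow 2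

/-- the centre -/
def ct (N : ℕ) : V N := fun _ => 1 / 2

theorem q_nonneg (y : V N) : 0 ≤ q y := Finset.sum_nonneg fun _ _ => sq_nonneg _

theorem q_zero {y : V N} (h : q y = 0) : y = ct N := by
  funext i
  have h1 := (Finset.sum_eq_zero_iff_of_nonneg (fun i _ => sq_nonneg (y i - 1 / 2))).1 h i (Finset.mem_univ _)
  have h2 := pow_eq_zero_iff (two_ne_zero) |>.1 h1
  change y i = 1 / 2
  linarith

theorem q_ct : q (ct N) = 0 := by
  unfold q ct
  simp

theorem b_ct : 0 < b (ct N) := by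
  unfold b ct
  refine Finset.prod_pos fun i _ => ?_
  norm_num

/-- the denominator -/
def D (y : V N) : ℝ := q y + b y ^ 2

theorem contDiff_D : ContDiff ℝ ∞ (D : V N → ℝ) := contDiff_q.add (contDiff_b.pow 2)

theorem D_pos (y : V N) : 0 < D y := by
  unfold D
  rcases (q_nonneg y).eq_or_lt with h | h
  · rw [q_zero h.symm, q_ct, zero_add]
    exact pow_pos b_ct 2
  · have := sq_nonneg (b y)
    linarith

/-- the collapse map -/
def s (y : V N) : Eu (N + 1) :=
  toE (Fin.snoc (fun i => 2 * b y * (y i - 1 / 2) / D y) ((q y - b y ^ 2) / D y) : V (N + 1))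

theorem s_castSucc (y : V N) (i : Fin N) : s y i.castSucc = 2 * b y * (y i - 1 / 2) / D y := by
  change (Fin.snoc (fun i => 2 * b y * (y i - 1 / 2) / D y) ((q y - b y ^ 2) / D y) : V (N + 1)) i.castSucc = _
  rw [Fin.snoc_castSucc]

theorem s_last (y : V N) : s y (Fin.last N) = (q y - b y ^ 2) / D y := by
  change (Fin.snoc (fun i => 2 * b y * (y i - 1 / 2) / D y) ((q y - b y ^ 2) / D y) : V (N + 1)) (Fin.last N) = _
  rw [Fin.snoc_last]

theorem norm_s (y : V N) : ‖s y‖ = 1 := by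
  have h1 : ‖s y‖ ^ 2 = 1 := by
    rw [EuclideanSpace.norm_sq_eq, Fin.sum_univ_castSucc]
    simp only [s_castSucc, s_last, Real.norm_eq_abs, sq_abs]
    have h2 : ∑ i : Fin N, (2 * b y * (y i - 1 / 2) / D y) ^ 2 = 4 * b y ^ 2 * q y / D y ^ 2 := by
      unfold q
      rw [Finset.mul_sum, Finset.sum_div]
      refine Finset.sum_congr rfl fun i _ => ?_
      rw [div_pow]
      ring
    rw [h2, div_pow, ← add_div, div_eq_one_iff_eq (pow_ne_zero 2 (D_pos y).ne')]
    unfold D
    ring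
  have h2 := norm_nonneg (s y)
  nlinarith [sq_nonneg (‖s y‖ - 1), sq_nonneg (‖s y‖ + 1)]

theorem contDiff_s : ContDiff ℝ ∞ (s : V N → Eu (N + 1)) := by
  refine contDiff_toE.comp (contDiff_pi.2 fun j => ?_)
  refine Fin.lastCases ?_ (fun i => ?_) j
  · simp only [Fin.snoc_last]
    exact (contDiff_q.sub (contDiff_b.pow 2)).div contDiff_D fun y => (D_pos y).ne'
  · simp only [Fin.snoc_castSucc]
    exact ((contDiff_const.mul contDiff_b).mul ((contDiff_apply ℝ ℝ i).sub contDiff_const)).div contDiff_D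
      fun y => (D_pos y).ne'

theorem b_zero {y : V N} {i : Fin N} (h : y i = 0 ∨ y i = 1) : b y = 0 := by
  unfold b
  refine Finset.prod_eq_zero (Finset.mem_univ i) ?_
  rcases h with h | h <;> rw [h] <;> norm_num

theorem s_face {y : V N} {i : Fin N} (h : y i = 0 ∨ y i = 1) : s y = toE (Fin.snoc 0 1 : V (N + 1)) := by
  unfold s
  congr 1
  have hb := b_zero h
  have hq : q y ≠ 0 := by
    have := D_pos y
    unfold D at this
    rw [hb] at this
    intro h
    rw [h] at this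
    norm_num at this
  have hD : D y = q y := by
    unfold D
    rw [hb]
    ring
  rw [hb, hD]
  congr 1
  · funext j
    simp
  · rw [zero_pow two_ne_zero, sub_zero, div_self hq]

theorem fderiv_s_face {y : V N} {i : Fin N} (h : y i = 0 ∨ y i = 1) {v : V N} (hv : v i = 0) :
    fderiv ℝ (s : V N → Eu (N + 1)) y v = 0 := by
  have h1 : HasDerivAt (fun t : ℝ => y + t • v) v 0 := by
    have := ((hasDerivAt_id (0 : ℝ)).smul_const v).const_add y
    simpa using this
  have hd : DifferentiableAt ℝ (s : V N → Eu (N + 1)) (y + (0 : ℝ) • v) := contDiff_s.differentiable (by simp) _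
  have h2 : HasDerivAt ((s : V N → Eu (N + 1)) ∘ fun t : ℝ => y + t • v)
      (fderiv ℝ (s : V N → Eu (N + 1)) (y + (0 : ℝ) • v) v) 0 := hd.hasFDerivAt.comp_hasDerivAt (0 : ℝ) h1
  have h3 : ((s : V N → Eu (N + 1)) ∘ fun t : ℝ => y + t • v) = fun _ => toE (Fin.snoc 0 1 : V (N + 1)) := by
    funext t
    change s (y + t • v) = _
    refine s_face (i := i) ?_
    simpa [hv] using h
  rw [h3] at h2
  have h4 := h2.unique (hasDerivAt_const _ _)
  simpa using h4

/-- the collapse map as a plot -/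
def P (N : ℕ) : (spS (N + 1)).Plot N := ⟨fun y => ⟨s y, norm_s y⟩, contDiff_s⟩

theorem rkF_P {i : Fin N} {y : V N} (h : y i = 0 ∨ y i = 1) : rkF (fun x => ((P N).1 x).1) i y = 0 := by
  unfold rkF
  have h1 : (LinearMap.ker (LinearMap.proj i : V N →ₗ[ℝ] ℝ)).map
      (fderiv ℝ (fun x => ((P N).1 x).1) y : V N →ₗ[ℝ] Eu (N + 1)) = ⊥ := by
    rw [eq_bot_iff]
    rintro _ ⟨v, hv, rfl⟩
    exact fderiv_s_face h hv
  rw [h1, finrank_bot]

/-- the regular value -/
def y0 (N : ℕ) : V (N + 1) := Fin.snoc 0 (-1)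

/-- its preimage -/
def x0 (N : ℕ) : V (N + 1) := Fin.snoc (ct N) 1

theorem s_ct : s (ct N) = toE (y0 N) := by
  unfold s y0
  congr 1
  have h1 : D (ct N) = b (ct N) ^ 2 := by
    unfold D
    rw [q_ct, zero_add]
  congr 1
  · funext i
    unfold ct
    simp
  · rw [q_ct, h1, zero_sub, neg_div, div_self (pow_ne_zero 2 b_ct.ne')]

theorem pre_y0 {x : V (N + 1)} (hx : x ∈ Zc N) (h : Hc (plVE (P N)) x = y0 N) : x = x0 N := by
  have h0 : x (Fin.last N) • s (pr N x) = toE (y0 N) := by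
    have := congrArg toE h
    exact this
  have hnorm : ‖toE (y0 N)‖ = 1 := by rw [← s_ct, norm_s]
  have h1 : x (Fin.last N) = 1 := by
    have h2 := congrArg norm h0
    rw [norm_smul, norm_s, mul_one, hnorm, Real.norm_eq_abs, abs_of_nonneg hx.2] at h2
    exact h2
  rw [h1, one_smul] at h0
  have h2 : (q (pr N x) - b (pr N x) ^ 2) / D (pr N x) = -1 := by
    rw [← s_last, h0]
    change (Fin.snoc 0 (-1) : V (N + 1)) (Fin.last N) = -1
    rw [Fin.snoc_last]
  have h3 := D_pos (pr N x)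
  rw [div_eq_iff h3.ne'] at h2
  have h4 : q (pr N x) = 0 := by
    unfold D at h2
    linarith
  have h5 := q_zero h4
  rw [← snoc_pr x, h5, h1]
  rfl

theorem Hc_x0 : Hc (plVE (P N)) (x0 N) = y0 N := by
  rw [Hc_apply]
  have h1 : (x0 N) (Fin.last N) = 1 := Fin.snoc_last _ _
  have h2 : pr N (x0 N) = ct N := pr_snoc _ _
  rw [h1, h2, one_smul, plVE_apply]
  change toV (s (ct N)) = _
  rw [s_ct]
  rfl

theorem x0_mem : x0 N ∈ interior (Zc N) := by
  refine mem_interior_Zc (fun i => ?_) ?_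
  · unfold x0
    rw [Fin.snoc_castSucc]
    unfold ct
    constructor <;> norm_num
  · unfold x0
    rw [Fin.snoc_last]
    exact one_pos

theorem hasFDerivAt_co (j : Fin N) (y : V N) : HasFDerivAt (fun y : V N => y j)
    (ContinuousLinearMap.proj (R := ℝ) (φ := fun _ : Fin N => ℝ) j) y := hasFDerivAt_apply _ _

theorem fderiv_s_ct (v : V N) (i : Fin N) :
    (fderiv ℝ (s : V N → Eu (N + 1)) (ct N) v) i.castSucc = 2 / b (ct N) * v i := by
  have hd : DifferentiableAt ℝ (s : V N → Eu (N + 1)) (ct N) := contDiff_s.differentiable (by simp) _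
  have h1 : HasFDerivAt (fun y => s y i.castSucc)
      ((EuclideanSpace.proj i.castSucc : Eu (N + 1) →L[ℝ] ℝ).comp (fderiv ℝ (s : V N → Eu (N + 1)) (ct N))) (ct N) :=
    (EuclideanSpace.proj i.castSucc : Eu (N + 1) →L[ℝ] ℝ).hasFDerivAt.comp (ct N) hd.hasFDerivAt
  have hg : ContDiff ℝ ∞ fun y : V N => 2 * b y / D y := (contDiff_const.mul contDiff_b).div contDiff_D fun y => (D_pos y).ne'
  have h2 : HasFDerivAt (fun y : V N => (2 * b y / D y) * (y i - 1 / 2)) _ (ct N) :=
    (hg.differentiable (by simp) (ct N)).hasFDerivAt.mul ((hasFDerivAt_co i (ct N)).sub_const (1 / 2))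
  have h3 : (fun y => s y i.castSucc) = fun y : V N => (2 * b y / D y) * (y i - 1 / 2) := by
    funext y
    rw [s_castSucc]
    ring
  rw [h3] at h1
  have h4 := congrArg (fun L : V N →L[ℝ] ℝ => L v) (h1.unique h2)
  have h5 : D (ct N) = b (ct N) ^ 2 := by
    unfold D
    rw [q_ct, zero_add]
  have h6 : (ct N) i - 1 / 2 = 0 := sub_self _
  have h7 : 2 * b (ct N) / D (ct N) = 2 / b (ct N) := by
    rw [h5]
    have := (b_ct (N := N)).ne'
    field_simp
  simp only [_root_.smul_apply, h6, zero_smul, add_zero, h7, smul_eq_mul] at h4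
  exact h4

theorem det_x0 : (fderiv ℝ (Hc (plVE (P N)) : V (N + 1) → V (N + 1)) (x0 N)).det ≠ 0 := by
  intro h0
  have h1 := LinearMap.bot_lt_ker_of_det_eq_zero h0
  obtain ⟨v, hv, hne⟩ := (Submodule.ne_bot_iff _).1 h1.ne'
  rw [LinearMap.mem_ker] at hv
  have hv' : fderiv ℝ (Hc (plVE (P N)) : V (N + 1) → V (N + 1)) (x0 N) v = 0 := hv
  rw [fderiv_Hc] at hv'
  have e1 : (x0 N) (Fin.last N) = 1 := Fin.snoc_last _ _
  have e2 : pr N (x0 N) = ct N := pr_snoc _ _
  rw [e1, e2, one_smul, fderiv_plV] at hv'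
  have e3 : plVE (P N) (ct N) = y0 N := by
    rw [plVE_apply]
    change toV (s (ct N)) = _
    rw [s_ct]
    rfl
  rw [e3] at hv'
  have h2 : ∀ i : Fin N, v i.castSucc = 0 := by
    intro i
    have h3 := congrFun hv' i.castSucc
    have h4 : (fderiv ℝ (s : V N → Eu (N + 1)) (ct N) (pr N v)) i.castSucc + v (Fin.last N) * (y0 N) i.castSucc = 0 := h3
    have h5 : (y0 N) i.castSucc = 0 := by
      unfold y0
      rw [Fin.snoc_castSucc]
      rfl
    rw [fderiv_s_ct, h5, mul_zero, add_zero] at h4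
    have h6 : (2 : ℝ) / b (ct N) ≠ 0 := div_ne_zero two_ne_zero b_ct.ne'
    exact (mul_eq_zero.1 h4).resolve_left h6
  have h3 : pr N v = 0 := funext h2
  rw [h3, map_zero, zero_add] at hv'
  have h4 : v (Fin.last N) = 0 := by
    have h5 := congrFun hv' (Fin.last N)
    have h6 : v (Fin.last N) * (y0 N) (Fin.last N) = 0 := h5
    have h7 : (y0 N) (Fin.last N) = -1 := Fin.snoc_last _ _
    rw [h7] at h6
    linarith
  apply hne
  funext j
  refine Fin.lastCases ?_ (fun i => ?_) j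
  · exact h4
  · exact h2 i

/-- **the collapse map has degree `± 1`** -/
theorem cI_P (hN : 2 ≤ N) : ∃ σ : ℤ, (σ = 1 ∨ σ = -1) ∧ ∀ w : Om (spS (N + 1)), cI N (Om.on w (P N)) = σ * JS w := by
  obtain ⟨Q, hQ, hQ2⟩ := deg_cube_reg (G := plVE (P N)) (by omega) (plVE_ne (P N))
    (fun i x _ hx => by rw [rkF_plV, rkF_P hx]; omega) (y₀ := y0 N)
    (by
      rintro ⟨x, hx, hx2⟩
      have := pre_y0 hx.1 hx2
      rw [this] at hx
      exact hx.2 x0_mem)
    (fun x hx hx2 => by rw [pre_y0 hx hx2]; exact det_x0)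
  have h1 : Q = {x0 N} := by
    ext x
    rw [hQ, Finset.mem_singleton]
    constructor
    · rintro ⟨h1, h2⟩
      exact pre_y0 h1 h2
    · rintro rfl
      exact ⟨interior_subset x0_mem, Hc_x0⟩
  rw [h1] at hQ2
  refine ⟨_, ?_, fun w => cI_of_deg hQ2 w⟩
  rw [Finset.sum_singleton]
  rcases neg_one_pow_eq_or ℤ N with h | h <;> rw [h] <;> split_ifs <;> simp

end Col

end Pool.Agent.Lib.MP_ccbbf6_gt.L5
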