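import Pool.Agent.Lib.MP_ccbbf6_gt.L5.MF

/-!
# Level 5, EU0: orientation tensors (helper13)

`Or r P o` : `P` is a symmetric idempotent matrix of rank `r`, `o I = det (a_j (I k))` for an orthonormal frame `a` of its image.
-/

set_option autoImplicit false
set_option maxSynthPendingDepth 3
set_option linter.unusedSectionVars false

open scoped ContDiff
open Matrix Function

noncomputable section

namespace Pool.Agent.Lib.MP_ccbbf6_gt.L5

open L4 L4.FR

variable {ι : Type*} [Fintype ι] [DecidableEq ι] {r : ℕ}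

/-- orientation tensors, algebraic form -/
structure Or {A : Type*} [CommRing A] (r : ℕ) (P : Matrix ι ι A) (o : (Fin r → ι) → A) : Prop where
  sym : Pᵀ = P
  idem : P * P = P
  tr : trace P = r
  alt : ∀ (σ : Equiv.Perm (Fin r)) (I : Fin r → ι), o (I ∘ σ) = ((Equiv.Perm.sign σ : ℤ) : A) * o I
  rk : ∀ I J : Fin r → ι, o I * o J = det (Matrix.of fun k l => P (I k) (J l))
  nrm : ∑ I, o I * o I = (r.factorial : A)
  inv : ∀ (I : Fin r → ι) (k : Fin r) (l : ι), ∑ i, P l i * o (update I k i) = o (update I k l)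
  sch : ∀ y : ι → A, P.mulVec y = y → ∀ (I : Fin r → ι) (e : ι), y e * o I = ∑ k, y (I k) * o (update I k e)

/-- orientation tensors over `ℝ` : there is a frame -/
def IsOr (r : ℕ) (P : Matrix ι ι ℝ) (o : (Fin r → ι) → ℝ) : Prop :=
  ∃ a : Fin r → ι → ℝ, (∀ i j, ∑ l, a i l * a j l = if i = j then 1 else 0) ∧
    (∀ l m, P l m = ∑ j, a j l * a j m) ∧ ∀ I, o I = det (Matrix.of fun j k => a j (I k))

section frame

variable {P : Matrix ι ι ℝ} {o : (Fin r → ι) → ℝ} {a : Fin r → ι → ℝ}

theorem frame_nrm (ha : ∀ i j, ∑ l, a i l * a j l = if i = j then 1 else 0) :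
    ∑ I : Fin r → ι, det (Matrix.of fun j k => a j (I k)) * det (Matrix.of fun j k => a j (I k)) = (r.factorial : ℝ) := by
  have h1 : ∀ σ τ : Equiv.Perm (Fin r), ∑ I : Fin r → ι, (∏ k, a (σ k) (I k)) * (∏ k, a (τ k) (I k)) =
      if σ = τ then 1 else 0 := by
    intro σ τ
    have h2 : ∀ I : Fin r → ι, (∏ k, a (σ k) (I k)) * (∏ k, a (τ k) (I k)) = ∏ k, a (σ k) (I k) * a (τ k) (I k) :=
      fun I => Finset.prod_mul_distrib.symm
    simp only [h2]
    rw [← Fintype.prod_sum (fun (k : Fin r) (l : ι) => a (σ k) l * a (τ k) l)]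
    simp only [ha]
    by_cases h : σ = τ
    · subst h
      simp
    · rw [if_neg h]
      obtain ⟨k, hk⟩ : ∃ k, σ k ≠ τ k := by
        by_contra hh
        push Not at hh
        exact h (Equiv.ext hh)
      exact Finset.prod_eq_zero (Finset.mem_univ k) (if_neg hk)
  have h3 : ∀ I : Fin r → ι, det (Matrix.of fun j k => a j (I k)) * det (Matrix.of fun j k => a j (I k)) =
      ∑ σ : Equiv.Perm (Fin r), ∑ τ : Equiv.Perm (Fin r), ((Equiv.Perm.sign σ : ℤ) : ℝ) * ((Equiv.Perm.sign τ : ℤ) : ℝ) *
        ((∏ k, a (σ k) (I k)) * (∏ k, a (τ k) (I k))) := by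
    intro I
    rw [Matrix.det_apply', Finset.sum_mul_sum]
    refine Finset.sum_congr rfl fun σ _ => Finset.sum_congr rfl fun τ _ => ?_
    simp only [Matrix.of_apply]
    ring
  simp only [h3]
  rw [Finset.sum_comm]
  have h4 : ∀ σ : Equiv.Perm (Fin r), ∑ I : Fin r → ι, ∑ τ : Equiv.Perm (Fin r),
      ((Equiv.Perm.sign σ : ℤ) : ℝ) * ((Equiv.Perm.sign τ : ℤ) : ℝ) * ((∏ k, a (σ k) (I k)) * (∏ k, a (τ k) (I k))) = 1 := by
    intro σ
    rw [Finset.sum_comm]
    simp only [← Finset.mul_sum, h1, mul_ite, mul_one, mul_zero]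
    rw [Finset.sum_ite_eq]
    rw [if_pos (Finset.mem_univ _), ← Int.cast_mul, Int.units_coe_mul_self, Int.cast_one]
  simp only [h4]
  rw [Finset.sum_const, Finset.card_univ, Fintype.card_perm, Fintype.card_fin, nsmul_eq_mul, mul_one]

theorem upd_col (a : Fin r → ι → ℝ) (I : Fin r → ι) (k : Fin r) (i : ι) :
    (Matrix.of fun j l => a j (update I k i l)) = (Matrix.of fun j l => a j (I l)).updateCol k (fun j => a j i) := by
  ext j l
  rw [Matrix.updateCol_apply]
  by_cases h : l = k
  · subst h
    simp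
  · simp [h]

theorem IsOr.or {P : Matrix ι ι ℝ} {o : (Fin r → ι) → ℝ} (h : IsOr r P o) : Or r P o := by
  obtain ⟨a, ha, hP, ho⟩ := h
  have hPa : ∀ j l, ∑ m, P l m * a j m = a j l := by
    intro j l
    simp only [hP, Finset.sum_mul]
    rw [Finset.sum_comm]
    have e1 : ∀ i, ∑ m, a i l * a i m * a j m = a i l * (if i = j then 1 else 0) := by
      intro i
      rw [← ha, Finset.mul_sum]
      exact Finset.sum_congr rfl fun m _ => mul_assoc _ _ _
    simp only [e1, mul_ite, mul_one, mul_zero]
    rw [Finset.sum_ite_eq', if_pos (Finset.mem_univ _)]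
  constructor
  · ext l m
    rw [Matrix.transpose_apply, hP, hP]
    exact Finset.sum_congr rfl fun j _ => mul_comm _ _
  · ext l m
    rw [Matrix.mul_apply]
    have e1 : ∀ i, P l i * P i m = ∑ j, P l i * a j i * a j m := by
      intro i
      rw [hP i m, Finset.mul_sum]
      exact Finset.sum_congr rfl fun j _ => by ring
    simp only [e1]
    rw [Finset.sum_comm, hP l m]
    refine Finset.sum_congr rfl fun j _ => ?_
    rw [← Finset.sum_mul, hPa]
  · unfold trace
    simp only [Matrix.diag_apply, hP]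
    rw [Finset.sum_comm]
    simp only [ha, if_true]
    simp
  · intro σ I
    rw [ho, ho, ← Matrix.det_permute' σ]
    rfl
  · intro I J
    rw [ho, ho]
    have e1 : (Matrix.of fun k l => P (I k) (J l)) =
        (Matrix.of fun j k => a j (I k))ᵀ * (Matrix.of fun j k => a j (J k)) := by
      ext k l
      rw [Matrix.mul_apply]
      simp only [Matrix.of_apply, Matrix.transpose_apply, hP]
    rw [e1, Matrix.det_mul, Matrix.det_transpose]
  · simp only [ho]
    exact frame_nrm ha
  · intro I k l
    simp only [ho, upd_col]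
    obtain ⟨M, hM⟩ : ∃ M : Matrix (Fin r) (Fin r) ℝ, M = Matrix.of fun j l => a j (I l) := ⟨_, rfl⟩
    rw [← hM]
    simp only [← Matrix.cramer_apply]
    have e1 : (fun j => a j l) = ∑ i, P l i • (fun j => a j i) := by
      ext j
      rw [Finset.sum_apply]
      simp only [Pi.smul_apply, smul_eq_mul]
      rw [hPa]
    rw [e1, map_sum, Finset.sum_apply]
    exact Finset.sum_congr rfl fun i _ => by rw [map_smul]; rfl
  · intro y hy I e
    simp only [ho, upd_col]
    obtain ⟨M, hM⟩ : ∃ M : Matrix (Fin r) (Fin r) ℝ, M = Matrix.of fun j l => a j (I l) := ⟨_, rfl⟩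
    rw [← hM]
    simp only [← Matrix.cramer_apply]
    obtain ⟨c, hc⟩ : ∃ c : Fin r → ℝ, c = fun j => ∑ m, a j m * y m := ⟨_, rfl⟩
    have hy2 : ∀ l, y l = ∑ j, c j * a j l := by
      intro l
      have h1 := congrFun hy l
      rw [← h1, Matrix.mulVec, dotProduct]
      simp only [hP, Finset.sum_mul]
      rw [Finset.sum_comm]
      refine Finset.sum_congr rfl fun j _ => ?_
      rw [hc]
      simp only
      rw [Finset.sum_mul]
      exact Finset.sum_congr rfl fun m _ => by ring
    have h2 := Matrix.mulVec_cramer M (fun j => a j e)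
    have h3 : ∀ k, y (I k) = ∑ j, c j * M j k := by
      intro k
      rw [hy2, hM]
      rfl
    simp only [h3, Finset.sum_mul]
    rw [Finset.sum_comm, hy2 e, Finset.sum_mul]
    refine Finset.sum_congr rfl fun j _ => ?_
    have h4 := congrFun h2 j
    rw [Matrix.mulVec, dotProduct, Pi.smul_apply, smul_eq_mul] at h4
    have h5 : ∑ k, c j * M j k * (M.cramer fun j => a j e) k = c j * ∑ k, M j k * (M.cramer fun j => a j e) k := by
      rw [Finset.mul_sum]
      exact Finset.sum_congr rfl fun k _ => mul_assoc _ _ _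
    rw [h5, h4]
    ring

end frame

/-- orientation tensors of smooth functions -/
theorem Or.of_pt {X : Space} {P : Matrix ι ι (SF X)} {o : (Fin r → ι) → SF X}
    (h : ∀ x, Or r (P.map (vl x)) (fun I => vl x (o I))) : Or r P o := by
  have hm : ∀ x, (∀ a b : SF X, vl x (a * b) = vl x a * vl x b) := fun x a b => map_mul _ _ _
  constructor
  · exact SF_mat_ext fun x => (h x).sym
  · refine SF_mat_ext fun x => ?_
    rw [Matrix.map_mul, (h x).idem]
  · refine SF_ext fun x => ?_
    have h1 := (h x).tr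
    unfold trace at h1 ⊢
    rw [map_sum, map_natCast]
    exact h1
  · intro σ I
    refine SF_ext fun x => ?_
    rw [map_mul, map_intCast]
    exact (h x).alt σ I
  · intro I J
    refine SF_ext fun x => ?_
    rw [map_mul, AlgHom.map_det]
    exact (h x).rk I J
  · refine SF_ext fun x => ?_
    rw [map_sum, map_natCast, ← (h x).nrm]
    exact Finset.sum_congr rfl fun I _ => map_mul _ _ _
  · intro I k l
    refine SF_ext fun x => ?_
    rw [map_sum, ← (h x).inv I k l]
    exact Finset.sum_congr rfl fun i _ => map_mul _ _ _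
  · intro y hy I e
    refine SF_ext fun x => ?_
    rw [map_mul, map_sum]
    have h1 : (P.map (vl x)).mulVec (fun i => vl x (y i)) = fun i => vl x (y i) := by
      funext i
      have h2 := congrArg (vl x) (congrFun hy i)
      rw [Matrix.mulVec, dotProduct, map_sum] at h2
      rw [← h2, Matrix.mulVec, dotProduct]
      exact Finset.sum_congr rfl fun j _ => by rw [map_mul]; rfl
    have h3 := (h x).sch _ h1 I e
    rw [h3]
    exact Finset.sum_congr rfl fun k _ => (map_mul _ _ _).symm

/-- naturality -/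
theorem Or.map {A A' : Type*} [CommRing A] [CommRing A'] {P : Matrix ι ι A} {o : (Fin r → ι) → A} (h : Or r P o)
    (f : A →+* A') (hs : ∀ y : ι → A', (P.map f).mulVec y = y → ∀ (I : Fin r → ι) (e : ι),
      y e * f (o I) = ∑ k, y (I k) * f (o (update I k e))) : Or r (P.map f) (fun I => f (o I)) := by
  constructor
  · rw [← Matrix.transpose_map, h.sym]
  · rw [← Matrix.map_mul, h.idem]
  · have h1 := congrArg f h.tr
    unfold trace at h1 ⊢
    rw [map_sum, map_natCast] at h1
    exact h1
  · intro σ I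
    rw [h.alt, map_mul, map_intCast]
  · intro I J
    rw [← map_mul, h.rk, RingHom.map_det]
    rfl
  · simp only [← map_mul]
    rw [← map_sum, h.nrm, map_natCast]
  · intro I k l
    rw [← h.inv I k l, map_sum]
    exact Finset.sum_congr rfl fun i _ => by rw [map_mul]; rfl
  · exact hs

end Pool.Agent.Lib.MP_ccbbf6_gt.L5
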