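import Pool.Agent.Lib.MP_ccbbf6_gt.L5.EU0

/-!
# Level 5, EU1: contraction of tensors of forms with an orientation tensor (helper13)

`St φ o T = ∑_I o(I) T(I)`.
* `St_perm` : alternating;
* `St_proj` : projection of one slot;
* `St_sch` : Schouten identity for a unit section;
* `d_St` : `d (St T) = St (dT)` if all slots of `T` are in the bundle.
-/

set_option autoImplicit false
set_option maxSynthPendingDepth 3
set_option linter.unusedSectionVars false

open Matrix Function

noncomputable section

namespace Pool.Agent.Lib.MP_ccbbf6_gt.L5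

variable {ι : Type*} [Fintype ι] [DecidableEq ι] {r : ℕ} {A : Type*} [CommRing A] [Algebra ℝ A] {B : Type*} [Ring B]
  [Algebra ℝ B] {G : GDA B} (φ : Fun0 A G)

theorem Fun0.comm (a : A) (x : B) : φ.f a * x = x * φ.f a := G.comm_even _ _ (φ.ev a)

/-- exchange of the value of a slot -/
def swpE (k : Fin r) : (Fin r → ι) × ι ≃ (Fin r → ι) × ι where
  toFun z := (update z.1 k z.2, z.1 k)
  invFun z := (update z.1 k z.2, z.1 k)
  left_inv z := by simp
  right_inv z := by simp

theorem sum_swp {M : Type*} [AddCommMonoid M] (k : Fin r) (F : (Fin r → ι) → ι → M) :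
    ∑ I, ∑ m, F I m = ∑ I, ∑ m, F (update I k m) (I k) := by
  rw [← Fintype.sum_prod_type', ← Fintype.sum_prod_type']
  exact (Fintype.sum_equiv (swpE k) _ _ fun _ => rfl).symm

theorem sum_perm {M : Type*} [AddCommMonoid M] (σ : Equiv.Perm (Fin r)) (F : (Fin r → ι) → M) :
    ∑ I : Fin r → ι, F I = ∑ I : Fin r → ι, F (I ∘ σ) := by
  refine (Fintype.sum_equiv (Equiv.arrowCongr σ.symm (Equiv.refl ι)) _ _ fun I => ?_).symm
  congr 1

/-- contraction with an orientation tensor -/
def St (o : (Fin r → ι) → A) (T : (Fin r → ι) → B) : B := ∑ I, φ.f (o I) * T I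

variable {φ} {P : Matrix ι ι A} {o : (Fin r → ι) → A} {T : (Fin r → ι) → B}

theorem St_add (T T' : (Fin r → ι) → B) : St φ o (fun I => T I + T' I) = St φ o T + St φ o T' := by
  unfold St
  rw [← Finset.sum_add_distrib]
  exact Finset.sum_congr rfl fun I _ => mul_add _ _ _

theorem St_neg (T : (Fin r → ι) → B) : St φ o (fun I => -T I) = -St φ o T := by
  unfold St
  rw [← Finset.sum_neg_distrib]
  exact Finset.sum_congr rfl fun I _ => mul_neg _ _

theorem St_sub (T T' : (Fin r → ι) → B) : St φ o (fun I => T I - T' I) = St φ o T - St φ o T' := by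
  unfold St
  rw [← Finset.sum_sub_distrib]
  exact Finset.sum_congr rfl fun I _ => mul_sub _ _ _

theorem St_sum {α : Type*} (s : Finset α) (T : α → (Fin r → ι) → B) :
    St φ o (fun I => ∑ k ∈ s, T k I) = ∑ k ∈ s, St φ o (T k) := by
  unfold St
  rw [Finset.sum_comm]
  exact Finset.sum_congr rfl fun I _ => Finset.mul_sum _ _ _

theorem St_zero : St φ o (fun _ => 0) = 0 := by
  unfold St
  exact Finset.sum_eq_zero fun I _ => mul_zero _

theorem sign_mul_self' (σ : Equiv.Perm (Fin r)) :
    (((Equiv.Perm.sign σ : ℤ) : A)) * (((Equiv.Perm.sign σ : ℤ) : A)) = 1 := by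
  rw [← Int.cast_mul, Int.units_coe_mul_self, Int.cast_one]

theorem St_perm (h : Or r P o) (σ : Equiv.Perm (Fin r)) :
    St φ o (fun I => T (I ∘ σ)) = ((Equiv.Perm.sign σ : ℤ) : B) * St φ o T := by
  unfold St
  rw [Finset.mul_sum, sum_perm σ (fun I => ((Equiv.Perm.sign σ : ℤ) : B) * (φ.f (o I) * T I))]
  refine Finset.sum_congr rfl fun I _ => ?_
  rw [h.alt, map_mul, map_intCast]
  have h1 : (((Equiv.Perm.sign σ : ℤ) : B)) * (((Equiv.Perm.sign σ : ℤ) : B)) = 1 := by
    rw [← Int.cast_mul, Int.units_coe_mul_self, Int.cast_one]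
  rw [← mul_assoc, ← mul_assoc, h1, one_mul]

theorem St_swap (h : Or r P o) {i j : Fin r} (hij : i ≠ j) :
    St φ o (fun I => T (I ∘ Equiv.swap i j)) = -St φ o T := by
  rw [St_perm h, Equiv.Perm.sign_swap hij]
  simp

/-- projection of one slot -/
theorem St_proj (h : Or r P o) (k : Fin r) :
    St φ o (fun I => ∑ m, φ.f (P (I k) m) * T (update I k m)) = St φ o T := by
  unfold St
  have e1 : ∀ I : Fin r → ι, φ.f (o I) * ∑ m, φ.f (P (I k) m) * T (update I k m) =
      ∑ m, φ.f (o I * P (I k) m) * T (update I k m) := by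
    intro I
    rw [Finset.mul_sum]
    exact Finset.sum_congr rfl fun m _ => by rw [map_mul, mul_assoc]
  simp only [e1]
  rw [sum_swp k (fun I m => φ.f (o I * P (I k) m) * T (update I k m))]
  refine Finset.sum_congr rfl fun I _ => ?_
  have e2 : ∀ m, φ.f (o (update I k m) * P (update I k m k) (I k)) * T (update (update I k m) k (I k)) =
      φ.f (P (I k) m * o (update I k m)) * T I := by
    intro m
    have hs : P (update I k m k) (I k) = P (I k) m := by
      rw [update_self]
      exact congrFun (congrFun h.sym (I k)) m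
    rw [hs, update_idem, update_eq_self, mul_comm]
  simp only [e2]
  rw [← Finset.sum_mul, ← map_sum, h.inv, update_eq_self]

/-- Schouten identity -/
theorem St_sch (h : Or r P o) {y : ι → A} (hy : P.mulVec y = y) (h1 : ∑ e, y e * y e = 1) :
    St φ o T = ∑ k, St φ o (fun I => φ.f (y (I k)) * ∑ m, φ.f (y m) * T (update I k m)) := by
  have e1 : St φ o T = ∑ I, ∑ e, ∑ k, φ.f (y e * y (I k) * o (update I k e)) * T I := by
    unfold St
    refine Finset.sum_congr rfl fun I _ => ?_
    have e2 : o I = ∑ e, ∑ k, y e * y (I k) * o (update I k e) := by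
      calc o I = (∑ e, y e * y e) * o I := by rw [h1, one_mul]
        _ = ∑ e, y e * (y e * o I) := by
            rw [Finset.sum_mul]
            exact Finset.sum_congr rfl fun e _ => mul_assoc _ _ _
        _ = _ := by
            refine Finset.sum_congr rfl fun e _ => ?_
            rw [h.sch y hy, Finset.mul_sum]
            exact Finset.sum_congr rfl fun k _ => (mul_assoc _ _ _).symm
    conv_lhs => rw [e2]
    rw [map_sum, Finset.sum_mul]
    refine Finset.sum_congr rfl fun e _ => ?_
    rw [map_sum, Finset.sum_mul]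
  have e3 : ∀ I : Fin r → ι, ∑ e, ∑ k, φ.f (y e * y (I k) * o (update I k e)) * T I =
      ∑ k, ∑ e, φ.f (y e * y (I k) * o (update I k e)) * T I := fun I => Finset.sum_comm
  rw [e1]
  simp only [e3]
  rw [Finset.sum_comm]
  refine Finset.sum_congr rfl fun k _ => ?_
  rw [sum_swp k (fun I e => φ.f (y e * y (I k) * o (update I k e)) * T I)]
  unfold St
  refine Finset.sum_congr rfl fun I _ => ?_
  change _ = φ.f (o I) * (φ.f (y (I k)) * ∑ m, φ.f (y m) * T (update I k m))
  rw [Finset.mul_sum, Finset.mul_sum]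
  refine Finset.sum_congr rfl fun m _ => ?_
  rw [update_self, update_idem, update_eq_self, map_mul, map_mul]
  have c1 := φ.comm (o I) (φ.f (y (I k)) * φ.f (y m))
  rw [← c1]
  simp only [mul_assoc]

/-- all slots in the bundle -/
def Inv (φ : Fun0 A G) (P : Matrix ι ι A) (T : (Fin r → ι) → B) : Prop :=
  ∀ (k : Fin r) (I : Fin r → ι), ∑ m, φ.f (P (I k) m) * T (update I k m) = T I

/-- all slots at once -/
theorem Inv.full (hT : Inv φ P T) (I : Fin r → ι) : T I = ∑ J : Fin r → ι, φ.f (∏ k, P (I k) (J k)) * T J := by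
  have key : ∀ (s : Finset (Fin r)) (I : Fin r → ι),
      T I = ∑ J : Fin r → ι, φ.f (∏ k, if k ∈ s then P (I k) (J k) else if I k = J k then 1 else 0) * T J := by
    intro s
    induction s using Finset.induction_on with
    | empty =>
      intro I
      rw [Finset.sum_eq_single I]
      · simp
      · intro J _ hJ
        obtain ⟨k, hk⟩ : ∃ k, I k ≠ J k := by
          by_contra hh
          push Not at hh
          exact hJ (funext fun k => (hh k).symm)
        have h0 : (∏ k, if k ∈ (∅ : Finset (Fin r)) then P (I k) (J k) else if I k = J k then (1 : A) else 0) = 0 := by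
          refine Finset.prod_eq_zero (Finset.mem_univ k) ?_
          rw [if_neg (Finset.notMem_empty k), if_neg hk]
        rw [h0, map_zero, zero_mul]
      · intro h
        exact absurd (Finset.mem_univ I) h
    | insert k s hk ih =>
      intro I
      rw [← hT k I]
      simp only [ih (update I k _)]
      simp only [Finset.mul_sum]
      rw [Finset.sum_comm]
      refine Finset.sum_congr rfl fun J _ => ?_
      have e1 : ∀ m, φ.f (P (I k) m) * (φ.f (∏ l, if l ∈ s then P (update I k m l) (J l) else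
          if update I k m l = J l then 1 else 0) * T J) =
          φ.f (P (I k) m * ((if m = J k then 1 else 0) * ∏ l ∈ Finset.univ.erase k, if l ∈ s then P (I l) (J l) else
            if I l = J l then 1 else 0)) * T J := by
        intro m
        rw [← mul_assoc, ← map_mul, ← Finset.mul_prod_erase Finset.univ _ (Finset.mem_univ k), if_neg hk, update_self]
        congr 4
        refine Finset.prod_congr rfl fun l hl => ?_
        have hlk : l ≠ k := Finset.ne_of_mem_erase hl
        rw [update_of_ne hlk]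
      simp only [e1]
      rw [← Finset.sum_mul, ← map_sum]
      congr 2
      rw [Finset.sum_eq_single (J k)]
      · rw [if_pos rfl, one_mul, ← Finset.mul_prod_erase Finset.univ _ (Finset.mem_univ k),
          if_pos (Finset.mem_insert_self k s)]
        congr 1
        refine Finset.prod_congr rfl fun l hl => ?_
        have hlk : l ≠ k := Finset.ne_of_mem_erase hl
        have h2 : l ∈ insert k s ↔ l ∈ s := by
          rw [Finset.mem_insert]
          exact or_iff_right hlk
        simp only [h2]
      · intro m _ hm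
        rw [if_neg hm, zero_mul, mul_zero]
      · intro h
        exact absurd (Finset.mem_univ _) h
  have h1 := key Finset.univ I
  simpa using h1

theorem d_intCast_mul (n : ℤ) (x : B) : G.d ((n : B) * x) = (n : B) * G.d x := by
  have h : ∀ x : B, (n : B) * x = (n : ℝ) • x := fun x => by
    rw [Algebra.smul_def, map_intCast]
  rw [h, map_smul, ← h]

/-- the orientation is parallel -/
theorem grad_o (h : Or r P o) (J : Fin r → ι) : ∑ I, φ.f (∏ k, P (J k) (I k)) * G.d (φ.f (o I)) = 0 := by
  have e0 : ∑ I, φ.f (o I) * G.d (φ.f (o I)) = 0 := by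
    have h1 : ∑ I, φ.f (o I) * φ.f (o I) = φ.f (r.factorial : A) := by
      rw [← h.nrm, map_sum]
      exact Finset.sum_congr rfl fun I _ => (map_mul _ _ _).symm
    have h2 := congrArg G.d h1
    have h3 : G.d (φ.f (r.factorial : A)) = 0 := by
      rw [map_natCast]
      have h4 : ((r.factorial : ℕ) : B) = (r.factorial : ℝ) • (1 : B) := by
        rw [Algebra.smul_def, mul_one, map_natCast]
      rw [h4, map_smul, GDA.d_one, smul_zero]
    rw [h3, map_sum] at h2
    have h5 : ∀ I, G.d (φ.f (o I) * φ.f (o I)) = (2 : ℝ) • (φ.f (o I) * G.d (φ.f (o I))) := by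
      intro I
      rw [G.d_mul, φ.ev, ← φ.comm, two_smul]
    simp only [h5] at h2
    rw [← Finset.smul_sum] at h2
    have h6 := congrArg (fun z => (1 / 2 : ℝ) • z) h2
    simp only [smul_smul] at h6
    norm_num at h6
    exact h6
  have e1 : ∀ σ : Equiv.Perm (Fin r), ∑ I, φ.f (((Equiv.Perm.sign σ : ℤ) : A) * ∏ k, P (J (σ k)) (I k)) *
      G.d (φ.f (o I)) = ∑ I, φ.f (∏ k, P (J k) (I k)) * G.d (φ.f (o I)) := by
    intro σ
    rw [sum_perm σ]
    refine Finset.sum_congr rfl fun I _ => ?_
    have h1 : ∏ k, P (J (σ k)) ((I ∘ σ) k) = ∏ k, P (J k) (I k) :=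
      Equiv.prod_comp σ (fun k => P (J k) (I k))
    rw [h1, h.alt, map_mul, map_mul, map_intCast, d_intCast_mul, mul_assoc, ← mul_assoc (φ.f (∏ k, P (J k) (I k))),
      ← Int.cast_commute _ (φ.f (∏ k, P (J k) (I k))), mul_assoc, ← mul_assoc, ← Int.cast_mul, Int.units_coe_mul_self,
      Int.cast_one, one_mul]
  have e2 : ∑ I, φ.f (o J * o I) * G.d (φ.f (o I)) =
      (r.factorial : ℝ) • ∑ I, φ.f (∏ k, P (J k) (I k)) * G.d (φ.f (o I)) := by
    have h1 : ∀ I, φ.f (o J * o I) * G.d (φ.f (o I)) = ∑ σ : Equiv.Perm (Fin r),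
        φ.f (((Equiv.Perm.sign σ : ℤ) : A) * ∏ k, P (J (σ k)) (I k)) * G.d (φ.f (o I)) := by
      intro I
      rw [h.rk, Matrix.det_apply', map_sum, Finset.sum_mul]
      rfl
    simp only [h1]
    rw [Finset.sum_comm]
    simp only [e1]
    rw [Finset.sum_const, Finset.card_univ, Fintype.card_perm, Fintype.card_fin, ← Nat.cast_smul_eq_nsmul ℝ]
  have e3 : ∑ I, φ.f (o J * o I) * G.d (φ.f (o I)) = 0 := by
    have h1 : ∀ I, φ.f (o J * o I) * G.d (φ.f (o I)) = φ.f (o J) * (φ.f (o I) * G.d (φ.f (o I))) := fun I => by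
      rw [map_mul, mul_assoc]
    simp only [h1]
    rw [← Finset.mul_sum, e0, mul_zero]
  rw [e3] at e2
  have h7 := congrArg (fun z => ((r.factorial : ℝ))⁻¹ • z) e2
  simp only [smul_smul, smul_zero] at h7
  rw [inv_mul_cancel₀ (Nat.cast_ne_zero.2 (Nat.factorial_ne_zero r)), one_smul] at h7
  exact h7.symm

/-- differential of a contraction -/
theorem d_St (h : Or r P o) (hT : Inv φ P T) : G.d (St φ o T) = St φ o (fun I => G.d (T I)) := by
  have e1 : ∑ I, G.d (φ.f (o I)) * T I = 0 := by
    have h1 : ∀ I, G.d (φ.f (o I)) * T I = ∑ J, φ.f (∏ k, P (I k) (J k)) * G.d (φ.f (o I)) * T J := by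
      intro I
      conv_lhs => rw [hT.full I]
      rw [Finset.mul_sum]
      refine Finset.sum_congr rfl fun J _ => ?_
      rw [← mul_assoc, ← φ.comm]
    simp only [h1]
    rw [Finset.sum_comm]
    refine Finset.sum_eq_zero fun J _ => ?_
    rw [← Finset.sum_mul]
    have h2 : ∑ I, φ.f (∏ k, P (I k) (J k)) * G.d (φ.f (o I)) = ∑ I, φ.f (∏ k, P (J k) (I k)) * G.d (φ.f (o I)) := by
      refine Finset.sum_congr rfl fun I _ => ?_
      congr 2
      exact Finset.prod_congr rfl fun k _ => congrFun (congrFun h.sym (J k)) (I k)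
    rw [h2, grad_o h, zero_mul]
  unfold St
  rw [map_sum]
  have h3 : ∀ I, G.d (φ.f (o I) * T I) = G.d (φ.f (o I)) * T I + φ.f (o I) * G.d (T I) := fun I => by
    rw [G.d_mul, φ.ev]
  simp only [h3]
  rw [Finset.sum_add_distrib, e1, zero_add]

end Pool.Agent.Lib.MP_ccbbf6_gt.L5
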