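import Pool.Agent.Lib.MP_ccbbf6_gt.L5.CW2
import Pool.Agent.Lib.MP_ccbbf6_gt.L5.EU1

/-!
# Level 5, EU2: the transgression of the Euler form of an oriented bundle of rank 4 (helper13)

`y` a unit section of `P`:  `Dv = P dy`, `Rv = P (dP)^2`, `Rw = Rv y`;
`psi0 = St(y Dy Dy Dy)`, `psi1 = St(y Dy R)`, `Z5 = St(R R)`, `d (psi0 + 3/2 psi1) = -3/8 Z5`.
-/

set_option autoImplicit false
set_option maxSynthPendingDepth 3
set_option linter.unusedSectionVars false

open Matrix Function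

noncomputable section

namespace Pool.Agent.Lib.MP_ccbbf6_gt.L5

variable {ι : Type*} [Fintype ι] [DecidableEq ι] {r : ℕ} {A : Type*} [CommRing A] [Algebra ℝ A] {B : Type*} [Ring B]
  [Algebra ℝ B] {G : GDA B} (φ : Fun0 A G)

/-- unit sections -/
structure Sec (P : Matrix ι ι A) (y : ι → A) : Prop where
  pr : P.mulVec y = y
  un : ∑ e, y e * y e = 1

/-- projection of a vector of forms -/
def pv (P : Matrix ι ι A) (a : ι → B) : ι → B := fun l => ∑ m, φ.f (P l m) * a m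

/-- a section as a vector of forms -/
def uv (y : ι → A) : ι → B := fun l => φ.f (y l)

/-- differential of a vector of forms -/
def dv (G : GDA B) (a : ι → B) : ι → B := fun l => G.d (a l)

/-- covariant differential -/
def Dv (P : Matrix ι ι A) (y : ι → A) : ι → B := pv φ P (dv G (uv φ y))

/-- curvature -/
def Rv (P : Matrix ι ι A) : Matrix ι ι B := P.map φ.f * G.R (P.map φ.f)

/-- curvature of a section -/
def Rw (P : Matrix ι ι A) (y : ι → A) : ι → B := fun l => ∑ m, Rv φ P l m * φ.f (y m)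

variable {φ}

theorem cm1 (p : A) (a b : B) : φ.f p * (a * b) = a * (φ.f p * b) := by rw [← mul_assoc, φ.comm, mul_assoc]

section facts

variable {P : Matrix ι ι A} {y : ι → A}

theorem s_pv {a : ι → B} (h : ∀ l, G.s (a l) = -a l) (l : ι) : G.s (pv φ P a l) = -pv φ P a l := by
  unfold pv
  rw [map_sum, ← Finset.sum_neg_distrib]
  exact Finset.sum_congr rfl fun m _ => by rw [map_mul, φ.ev, h, mul_neg]

theorem s_Dv (l : ι) : G.s (Dv φ P y l) = -Dv φ P y l := by
  unfold Dv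
  exact s_pv (fun m => by rw [dv, G.s_d, uv, φ.ev]) l

theorem s_uv (l : ι) : G.s (uv φ y l) = uv φ y l := φ.ev _

theorem s_Rv (hP : P * P = P) (l m : ι) : G.s (Rv φ P l m) = Rv φ P l m := by
  have h1 : G.Ev (Rv φ P) := (φ.idem hP).ev.mul (φ.idem hP).evR
  exact h1.app l m

theorem s_Rw (hP : P * P = P) (l : ι) : G.s (Rw φ P y l) = Rw φ P y l := by
  unfold Rw
  rw [map_sum]
  exact Finset.sum_congr rfl fun m _ => by rw [map_mul, φ.ev, s_Rv hP]

theorem pv_pv (hP : P * P = P) (a : ι → B) : pv φ P (pv φ P a) = pv φ P a := by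
  funext l
  unfold pv
  simp only [Finset.mul_sum]
  rw [Finset.sum_comm]
  refine Finset.sum_congr rfl fun m _ => ?_
  have h1 : ∀ j, φ.f (P l j) * (φ.f (P j m) * a m) = φ.f (P l j * P j m) * a m := fun j => by
    rw [map_mul, mul_assoc]
  simp only [h1]
  rw [← Finset.sum_mul, ← map_sum]
  have h2 : ∑ j, P l j * P j m = P l m := by
    conv_rhs => rw [← hP]
    rw [Matrix.mul_apply]
  rw [h2]

theorem pv_Dv (hP : P * P = P) : pv φ P (Dv φ P y) = Dv φ P y := pv_pv hP _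

theorem pv_uv (h : P.mulVec y = y) : pv φ P (uv φ y) = uv φ y := by
  funext l
  unfold pv uv
  have h1 : ∀ m, φ.f (P l m) * φ.f (y m) = φ.f (P l m * y m) := fun m => (map_mul _ _ _).symm
  simp only [h1]
  rw [← map_sum]
  congr 1
  exact congrFun h l

theorem Rv_left (hP : P * P = P) : P.map φ.f * Rv φ P = Rv φ P := by
  unfold Rv
  rw [← Matrix.mul_assoc, (φ.idem hP).idem]

theorem Rv_right (hP : P * P = P) : Rv φ P * P.map φ.f = Rv φ P := by
  unfold Rv
  rw [Matrix.mul_assoc, ← (φ.idem hP).comm, ← Matrix.mul_assoc, (φ.idem hP).idem]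

theorem pv_Rw (hP : P * P = P) : pv φ P (Rw φ P y) = Rw φ P y := by
  funext l
  unfold pv Rw
  simp only [Finset.mul_sum]
  rw [Finset.sum_comm]
  refine Finset.sum_congr rfl fun m _ => ?_
  have h1 : ∀ j, φ.f (P l j) * (Rv φ P j m * φ.f (y m)) = P.map φ.f l j * Rv φ P j m * φ.f (y m) := fun j =>
    (mul_assoc _ _ _).symm
  simp only [h1]
  rw [← Finset.sum_mul, ← Matrix.mul_apply, Rv_left hP]

/-- the curvature is antisymmetric -/
theorem Rv_anti (hP : P * P = P) (hs : Pᵀ = P) (l m : ι) : Rv φ P l m = -Rv φ P m l := by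
  have h := φ.idem hP
  have h1 : (P.map φ.f)ᵀ = P.map φ.f := by
    rw [← Matrix.transpose_map, hs]
  have h2 : (G.R (P.map φ.f))ᵀ = -G.R (P.map φ.f) := by
    have h3 := h.R_transpose
    rw [h1] at h3
    exact (neg_eq_iff_eq_neg.2 h3).symm
  have h3 : (Rv φ P)ᵀ = -Rv φ P := by
    unfold Rv
    rw [GDA.transpose_ev h.ev, h1, h2, h.comm, Matrix.neg_mul]
  have h4 := congrFun (congrFun h3 m) l
  rw [Matrix.transpose_apply, Matrix.neg_apply] at h4
  exact h4

theorem y_Dv (hs : Pᵀ = P) (h : Sec P y) : ∑ m, φ.f (y m) * Dv φ P y m = 0 := by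
  have h0 : ∀ m, ∑ l, y l * P l m = y m := by
    intro m
    have h1 := congrFun h.pr m
    rw [Matrix.mulVec, dotProduct] at h1
    rw [← h1]
    exact Finset.sum_congr rfl fun l _ => by rw [mul_comm, ← congrFun (congrFun hs m) l]; rfl
  have e1 : ∑ m, φ.f (y m) * Dv φ P y m = ∑ m, φ.f (y m) * G.d (φ.f (y m)) := by
    unfold Dv pv dv uv
    simp only [Finset.mul_sum]
    rw [Finset.sum_comm]
    refine Finset.sum_congr rfl fun m _ => ?_
    have h1 : ∀ l, φ.f (y l) * (φ.f (P l m) * G.d (φ.f (y m))) = φ.f (y l * P l m) * G.d (φ.f (y m)) := fun l => by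
      rw [map_mul, mul_assoc]
    simp only [h1]
    rw [← Finset.sum_mul, ← map_sum, h0]
  rw [e1]
  have h1 : G.d (φ.f (∑ m, y m * y m)) = 0 := by rw [h.un, map_one, GDA.d_one]
  rw [map_sum, map_sum] at h1
  have h5 : ∀ m, G.d (φ.f (y m * y m)) = (2 : ℝ) • (φ.f (y m) * G.d (φ.f (y m))) := by
    intro m
    rw [map_mul, G.d_mul, φ.ev, ← φ.comm, two_smul]
  simp only [h5] at h1
  rw [← Finset.smul_sum] at h1
  have h6 := congrArg (fun z => (1 / 2 : ℝ) • z) h1
  simp only [smul_smul] at h6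
  norm_num at h6
  exact h6

/-- the column of a section -/
def uc (φ : Fun0 A G) (y : ι → A) : Matrix ι Unit B := fun l _ => φ.f (y l)

theorem Dv_mat (l : ι) : Dv φ P y l = (P.map φ.f * G.D (uc φ y)) l () := rfl

theorem Rw_mat (l : ι) : Rw φ P y l = (Rv φ P * uc φ y) l () := rfl

/-- the square of the covariant derivative -/
theorem pv_dDv (hP : P * P = P) (h : P.mulVec y = y) : pv φ P (dv G (Dv φ P y)) = Rw φ P y := by
  have hI := φ.idem hP
  have hU : P.map φ.f * uc φ y = uc φ y := by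
    ext l u
    exact congrFun (pv_uv (φ := φ) h) l
  have hD : G.D (uc φ y) = G.D (P.map φ.f) * uc φ y + P.map φ.f * G.D (uc φ y) := by
    conv_lhs => rw [← hU]
    rw [GDA.D_mul, hI.ev]
  have key : P.map φ.f * G.D (P.map φ.f * G.D (uc φ y)) = Rv φ P * uc φ y := by
    rw [GDA.D_mul, GDA.D_D, Matrix.mul_zero, add_zero, hD, Matrix.mul_add, Matrix.mul_add]
    have h1 : P.map φ.f * (G.D (P.map φ.f) * (P.map φ.f * G.D (uc φ y))) = 0 := by
      rw [← Matrix.mul_assoc, ← Matrix.mul_assoc, hI.pdp, Matrix.zero_mul]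
    rw [h1, add_zero]
    unfold Rv GDA.R
    simp only [Matrix.mul_assoc]
  funext l
  exact congrFun (congrFun key l) ()

/-- the Bianchi identity -/
theorem Rv_closed (hP : P * P = P) : P.map φ.f * G.D (Rv φ P) * P.map φ.f = 0 := by
  have hI := φ.idem hP
  unfold Rv
  rw [GDA.D_mul, GDA.D_R, Matrix.mul_zero, add_zero]
  have h1 : P.map φ.f * (G.D (P.map φ.f) * G.R (P.map φ.f)) * P.map φ.f =
      P.map φ.f * G.D (P.map φ.f) * (G.R (P.map φ.f) * P.map φ.f) := by
    simp only [Matrix.mul_assoc]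
  rw [h1, ← hI.comm, ← Matrix.mul_assoc, hI.pdp, Matrix.zero_mul]

theorem y_Rv (hP : P * P = P) (hs : Pᵀ = P) (j : ι) : ∑ m, φ.f (y m) * Rv φ P m j = -Rw φ P y j := by
  unfold Rw
  rw [← Finset.sum_neg_distrib]
  refine Finset.sum_congr rfl fun m _ => ?_
  rw [φ.comm, Rv_anti hP hs m j, neg_mul]

theorem Rv_y (j : ι) : ∑ m, φ.f (y m) * Rv φ P j m = Rw φ P y j :=
  Finset.sum_congr rfl fun _ _ => φ.comm _ _

end facts

/-! ### tensors of rank four -/

/-- product of four vectors -/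
def P4 (a b c e : ι → B) (I : Fin 4 → ι) : B := a (I 0) * (b (I 1) * (c (I 2) * e (I 3)))

/-- product of two vectors and a matrix -/
def PM (a b : ι → B) (M : Matrix ι ι B) (I : Fin 4 → ι) : B := a (I 0) * (b (I 1) * M (I 2) (I 3))

/-- product of two matrices -/
def MM (M N : Matrix ι ι B) (I : Fin 4 → ι) : B := M (I 0) (I 1) * N (I 2) (I 3)

section four

variable {P : Matrix ι ι A} {o : (Fin 4 → ι) → A} {y : ι → A} {a b c e : ι → B} {M N : Matrix ι ι B}

theorem St_pr {r : ℕ} {o : (Fin r → ι) → A} {T T' : (Fin r → ι) → B} (h : Or r P o) (k : Fin r)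
    (hT : ∀ I, ∑ m, φ.f (P (I k) m) * T (update I k m) = T' I) : St φ o T = St φ o T' := by
  rw [← St_proj h k]
  unfold St
  exact Finset.sum_congr rfl fun I _ => congrArg _ (hT I)

theorem P4_0 (p : ι → A) (I : Fin 4 → ι) :
    ∑ m, φ.f (p m) * P4 a b c e (update I 0 m) = (∑ m, φ.f (p m) * a m) * (b (I 1) * (c (I 2) * e (I 3))) := by
  rw [Finset.sum_mul]
  refine Finset.sum_congr rfl fun m _ => ?_
  unfold P4
  simp [mul_assoc]

theorem P4_1 (p : ι → A) (I : Fin 4 → ι) :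
    ∑ m, φ.f (p m) * P4 a b c e (update I 1 m) = a (I 0) * ((∑ m, φ.f (p m) * b m) * (c (I 2) * e (I 3))) := by
  rw [Finset.sum_mul, Finset.mul_sum]
  refine Finset.sum_congr rfl fun m _ => ?_
  unfold P4
  simp [mul_assoc, cm1 (p m) (a (I 0))]

theorem P4_2 (p : ι → A) (I : Fin 4 → ι) :
    ∑ m, φ.f (p m) * P4 a b c e (update I 2 m) = a (I 0) * (b (I 1) * ((∑ m, φ.f (p m) * c m) * e (I 3))) := by
  rw [Finset.sum_mul, Finset.mul_sum, Finset.mul_sum]
  refine Finset.sum_congr rfl fun m _ => ?_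
  unfold P4
  simp [mul_assoc, cm1 (p m) (a (I 0)), cm1 (p m) (b (I 1))]

theorem P4_3 (p : ι → A) (I : Fin 4 → ι) :
    ∑ m, φ.f (p m) * P4 a b c e (update I 3 m) = a (I 0) * (b (I 1) * (c (I 2) * (∑ m, φ.f (p m) * e m))) := by
  rw [Finset.mul_sum, Finset.mul_sum, Finset.mul_sum]
  refine Finset.sum_congr rfl fun m _ => ?_
  unfold P4
  simp [cm1 (p m) (a (I 0)), cm1 (p m) (b (I 1)), cm1 (p m) (c (I 2))]

theorem PM_0 (p : ι → A) (I : Fin 4 → ι) :
    ∑ m, φ.f (p m) * PM a b M (update I 0 m) = (∑ m, φ.f (p m) * a m) * (b (I 1) * M (I 2) (I 3)) := by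
  rw [Finset.sum_mul]
  refine Finset.sum_congr rfl fun m _ => ?_
  unfold PM
  simp [mul_assoc]

theorem PM_1 (p : ι → A) (I : Fin 4 → ι) :
    ∑ m, φ.f (p m) * PM a b M (update I 1 m) = a (I 0) * ((∑ m, φ.f (p m) * b m) * M (I 2) (I 3)) := by
  rw [Finset.sum_mul, Finset.mul_sum]
  refine Finset.sum_congr rfl fun m _ => ?_
  unfold PM
  simp [mul_assoc, cm1 (p m) (a (I 0))]

theorem PM_2 (p : ι → A) (I : Fin 4 → ι) :
    ∑ m, φ.f (p m) * PM a b M (update I 2 m) = a (I 0) * (b (I 1) * ∑ m, φ.f (p m) * M m (I 3)) := by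
  rw [Finset.mul_sum, Finset.mul_sum]
  refine Finset.sum_congr rfl fun m _ => ?_
  unfold PM
  simp [cm1 (p m) (a (I 0)), cm1 (p m) (b (I 1))]

theorem PM_3 (p : ι → A) (I : Fin 4 → ι) :
    ∑ m, φ.f (p m) * PM a b M (update I 3 m) = a (I 0) * (b (I 1) * ∑ m, φ.f (p m) * M (I 2) m) := by
  rw [Finset.mul_sum, Finset.mul_sum]
  refine Finset.sum_congr rfl fun m _ => ?_
  unfold PM
  simp [cm1 (p m) (a (I 0)), cm1 (p m) (b (I 1))]

theorem MM_0 (p : ι → A) (I : Fin 4 → ι) :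
    ∑ m, φ.f (p m) * MM M N (update I 0 m) = (∑ m, φ.f (p m) * M m (I 1)) * N (I 2) (I 3) := by
  rw [Finset.sum_mul]
  refine Finset.sum_congr rfl fun m _ => ?_
  unfold MM
  simp [mul_assoc]

theorem MM_1 (p : ι → A) (I : Fin 4 → ι) :
    ∑ m, φ.f (p m) * MM M N (update I 1 m) = (∑ m, φ.f (p m) * M (I 0) m) * N (I 2) (I 3) := by
  rw [Finset.sum_mul]
  refine Finset.sum_congr rfl fun m _ => ?_
  unfold MM
  simp [mul_assoc]

theorem MM_2 (p : ι → A) (I : Fin 4 → ι) :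
    ∑ m, φ.f (p m) * MM M N (update I 2 m) = M (I 0) (I 1) * ∑ m, φ.f (p m) * N m (I 3) := by
  rw [Finset.mul_sum]
  refine Finset.sum_congr rfl fun m _ => ?_
  unfold MM
  simp [cm1 (p m) (M (I 0) (I 1))]

theorem MM_3 (p : ι → A) (I : Fin 4 → ι) :
    ∑ m, φ.f (p m) * MM M N (update I 3 m) = M (I 0) (I 1) * ∑ m, φ.f (p m) * N (I 2) m := by
  rw [Finset.mul_sum]
  refine Finset.sum_congr rfl fun m _ => ?_
  unfold MM
  simp [cm1 (p m) (M (I 0) (I 1))]

theorem fin4 {Q : Fin 4 → Prop} (h0 : Q 0) (h1 : Q 1) (h2 : Q 2) (h3 : Q 3) : ∀ k : Fin 4, Q k := by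
  intro k
  match k with
  | 0 => exact h0
  | 1 => exact h1
  | 2 => exact h2
  | 3 => exact h3

theorem Inv_P4 (ha : pv φ P a = a) (hb : pv φ P b = b) (hc : pv φ P c = c) (he : pv φ P e = e) :
    Inv φ P (P4 a b c e) := by
  refine fin4 ?_ ?_ ?_ ?_
  · intro I
    rw [P4_0]
    exact congrArg (· * _) (congrFun ha (I 0))
  · intro I
    rw [P4_1]
    exact congrArg (fun z => a (I 0) * (z * _)) (congrFun hb (I 1))
  · intro I
    rw [P4_2]
    exact congrArg (fun z => a (I 0) * (b (I 1) * (z * _))) (congrFun hc (I 2))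
  · intro I
    rw [P4_3]
    exact congrArg (fun z => a (I 0) * (b (I 1) * (c (I 2) * z))) (congrFun he (I 3))

/-- matrices with both slots in the bundle -/
structure MInv (φ : Fun0 A G) (P : Matrix ι ι A) (M : Matrix ι ι B) : Prop where
  l : ∀ i j, ∑ m, φ.f (P i m) * M m j = M i j
  r : ∀ i j, ∑ m, φ.f (P j m) * M i m = M i j

theorem Inv_PM (ha : pv φ P a = a) (hb : pv φ P b = b) (hM : MInv φ P M) : Inv φ P (PM a b M) := by
  refine fin4 ?_ ?_ ?_ ?_
  · intro I
    rw [PM_0]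
    exact congrArg (· * _) (congrFun ha (I 0))
  · intro I
    rw [PM_1]
    exact congrArg (fun z => a (I 0) * (z * _)) (congrFun hb (I 1))
  · intro I
    rw [PM_2, hM.l]
    rfl
  · intro I
    rw [PM_3, hM.r]
    rfl

theorem Inv_MM (hM : MInv φ P M) (hN : MInv φ P N) : Inv φ P (MM M N) := by
  refine fin4 ?_ ?_ ?_ ?_
  · intro I
    rw [MM_0, hM.l]
    rfl
  · intro I
    rw [MM_1, hM.r]
    rfl
  · intro I
    rw [MM_2, hN.l]
    rfl
  · intro I
    rw [MM_3, hN.r]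
    rfl

theorem MInv_Rv (hP : P * P = P) (hs : Pᵀ = P) : MInv φ P (Rv φ P) := by
  constructor
  · intro i j
    have h1 := congrFun (congrFun (Rv_left (φ := φ) hP) i) j
    rw [Matrix.mul_apply] at h1
    exact h1
  · intro i j
    have h1 := congrFun (congrFun (Rv_right (φ := φ) hP) i) j
    rw [Matrix.mul_apply] at h1
    rw [← h1]
    refine Finset.sum_congr rfl fun m _ => ?_
    rw [φ.comm]
    congr 1
    exact congrArg φ.f (congrFun (congrFun hs m) j)

/-- a matrix whose two-sided projection vanishes -/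
theorem two_side (hs : Pᵀ = P) (hM : P.map φ.f * M * P.map φ.f = 0) (i j : ι) :
    ∑ m, φ.f (P j m) * (∑ l, φ.f (P i l) * M l m) = 0 := by
  have h1 := congrFun (congrFun hM i) j
  rw [Matrix.mul_apply] at h1
  refine Eq.trans ?_ h1
  refine Finset.sum_congr rfl fun m _ => ?_
  rw [φ.comm, Matrix.mul_apply]
  congr 1
  exact congrArg φ.f (congrFun (congrFun hs m) j)

end four

end Pool.Agent.Lib.MP_ccbbf6_gt.L5
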