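import Pool.Agent.Lib.MP_ccbbf6_gt.L5.EU2

/-!
# Level 5, EU3: `d psi = e` in rank 4 (helper13)
-/

set_option autoImplicit false
set_option maxSynthPendingDepth 3
set_option linter.unusedSectionVars false

open Matrix Function

noncomputable section

namespace Pool.Agent.Lib.MP_ccbbf6_gt.L5

variable {ι : Type*} [Fintype ι] [DecidableEq ι] {A : Type*} [CommRing A] [Algebra ℝ A] {B : Type*} [Ring B]
  [Algebra ℝ B] {G : GDA B} {φ : Fun0 A G}

variable {P : Matrix ι ι A} {o : (Fin 4 → ι) → A} {y : ι → A} {a b c e : ι → B} {M N : Matrix ι ι B}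

/-- first part of the transgression -/
def psi0 (φ : Fun0 A G) (P : Matrix ι ι A) (o : (Fin 4 → ι) → A) (y : ι → A) : B :=
  St φ o (P4 (uv φ y) (Dv φ P y) (Dv φ P y) (Dv φ P y))

/-- second part of the transgression -/
def psi1 (φ : Fun0 A G) (P : Matrix ι ι A) (o : (Fin 4 → ι) → A) (y : ι → A) : B :=
  St φ o (PM (uv φ y) (Dv φ P y) (Rv φ P))

/-- the Pfaffian -/
def Z5 (φ : Fun0 A G) (P : Matrix ι ι A) (o : (Fin 4 → ι) → A) : B := St φ o (MM (Rv φ P) (Rv φ P))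

/-- auxiliary term -/
def Z2 (φ : Fun0 A G) (P : Matrix ι ι A) (o : (Fin 4 → ι) → A) (y : ι → A) : B :=
  St φ o (P4 (uv φ y) (Rw φ P y) (Dv φ P y) (Dv φ P y))

/-- auxiliary term -/
def Z3 (φ : Fun0 A G) (P : Matrix ι ι A) (o : (Fin 4 → ι) → A) (y : ι → A) : B :=
  St φ o (PM (Dv φ P y) (Dv φ P y) (Rv φ P))

/-- auxiliary term -/
def Z4 (φ : Fun0 A G) (P : Matrix ι ι A) (o : (Fin 4 → ι) → A) (y : ι → A) : B :=
  St φ o (PM (uv φ y) (Rw φ P y) (Rv φ P))

theorem St_congr {r : ℕ} {o : (Fin r → ι) → A} {T T' : (Fin r → ι) → B} (h : ∀ I, T I = T' I) : St φ o T = St φ o T' := by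
  have h1 : T = T' := funext h
  rw [h1]

theorem ev_comm {x : B} (h : G.s x = x) (z : B) : x * z = z * x := G.comm_even _ _ h

/-- `Z1 = 0` -/
theorem Z1_zero (h : Or 4 P o) (hy : Sec P y) :
    St φ o (P4 (Dv φ P y) (Dv φ P y) (Dv φ P y) (Dv φ P y)) = 0 := by
  rw [St_sch h hy.pr hy.un]
  refine Finset.sum_eq_zero fun k _ => ?_
  have hz : ∀ k I, ∑ m, φ.f (y m) * P4 (Dv φ P y) (Dv φ P y) (Dv φ P y) (Dv φ P y) (update I k m) = 0 := by
    refine fin4 ?_ ?_ ?_ ?_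
    · intro I
      rw [P4_0, y_Dv h.sym hy, zero_mul]
    · intro I
      rw [P4_1, y_Dv h.sym hy, zero_mul, mul_zero]
    · intro I
      rw [P4_2, y_Dv h.sym hy, zero_mul, mul_zero, mul_zero]
    · intro I
      rw [P4_3, y_Dv h.sym hy, mul_zero, mul_zero, mul_zero]
  rw [← St_zero (φ := φ) (o := o)]
  refine St_congr fun I => ?_
  rw [hz k I, mul_zero]

/-- `d psi0 = 3 Z2` -/
theorem d_psi0 (h : Or 4 P o) (hy : Sec P y) : G.d (psi0 φ P o y) = (3 : ℝ) • Z2 φ P o y := by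
  obtain ⟨u, hu⟩ : ∃ u, u = uv φ y := ⟨_, rfl⟩
  obtain ⟨D, hD⟩ : ∃ D, D = Dv φ P y := ⟨_, rfl⟩
  obtain ⟨W, hW⟩ : ∃ W, W = Rw φ P y := ⟨_, rfl⟩
  have su : ∀ l, G.s (u l) = u l := fun l => by rw [hu]; exact s_uv l
  have sD : ∀ l, G.s (D l) = -D l := fun l => by rw [hD]; exact s_Dv l
  have sW : ∀ l, G.s (W l) = W l := fun l => by rw [hW]; exact s_Rw h.idem l
  have e1 : G.d (psi0 φ P o y) = St φ o (P4 (dv G u) D D D) + St φ o (P4 u (dv G D) D D) - St φ o (P4 u D (dv G D) D) +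
      St φ o (P4 u D D (dv G D)) := by
    unfold psi0
    rw [d_St h (Inv_P4 (pv_uv hy.pr) (pv_Dv h.idem) (pv_Dv h.idem) (pv_Dv h.idem)), ← hu, ← hD, ← St_add, ← St_sub,
      ← St_add]
    refine St_congr fun I => ?_
    unfold P4 dv
    rw [G.d_mul, G.d_mul, G.d_mul, su, sD, sD]
    noncomm_ring
  have t1 : St φ o (P4 (dv G u) D D D) = 0 := by
    have h1 : St φ o (P4 (dv G u) D D D) = St φ o (P4 D D D D) := St_pr h 0 fun I => by
      rw [P4_0, hD, hu]
      rfl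
    rw [h1, hD]
    exact Z1_zero h hy
  have hdD : ∀ l, ∑ m, φ.f (P l m) * dv G D m = W l := fun l => by
    rw [hD, hW]
    exact congrFun (pv_dDv h.idem hy.pr) l
  have t2 : St φ o (P4 u (dv G D) D D) = Z2 φ P o y := by
    unfold Z2
    rw [← hu, ← hD, ← hW]
    refine St_pr h 1 fun I => ?_
    rw [P4_1, hdD]
    rfl
  have t3 : St φ o (P4 u D (dv G D) D) = -Z2 φ P o y := by
    have h1 : St φ o (P4 u D (dv G D) D) = St φ o (P4 u D W D) := St_pr h 2 fun I => by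
      rw [P4_2, hdD]
      rfl
    have h2 : St φ o (P4 u D W D) = St φ o (fun I => P4 u W D D (I ∘ Equiv.swap 1 2)) := St_congr fun I => by
      change u (I 0) * (D (I 1) * (W (I 2) * D (I 3))) = u (I 0) * (W (I 2) * (D (I 1) * D (I 3)))
      rw [← mul_assoc (D (I 1)), ← ev_comm (sW _), mul_assoc]
    rw [h1, h2, St_swap h (by decide)]
    unfold Z2
    rw [← hu, ← hD, ← hW]
  have t4 : St φ o (P4 u D D (dv G D)) = Z2 φ P o y := by
    have h1 : St φ o (P4 u D D (dv G D)) = St φ o (P4 u D D W) := St_pr h 3 fun I => by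
      rw [P4_3, hdD]
      rfl
    have h2 : St φ o (P4 u D D W) = St φ o (fun I => P4 u D W D (I ∘ Equiv.swap 2 3)) := St_congr fun I => by
      change u (I 0) * (D (I 1) * (D (I 2) * W (I 3))) = u (I 0) * (D (I 1) * (W (I 3) * D (I 2)))
      rw [ev_comm (sW _)]
    have h3 : St φ o (P4 u D W D) = St φ o (fun I => P4 u W D D (I ∘ Equiv.swap 1 2)) := St_congr fun I => by
      change u (I 0) * (D (I 1) * (W (I 2) * D (I 3))) = u (I 0) * (W (I 2) * (D (I 1) * D (I 3)))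
      rw [← mul_assoc (D (I 1)), ← ev_comm (sW _), mul_assoc]
    rw [h1, h2, St_swap h (by decide), h3, St_swap h (by decide), neg_neg]
    unfold Z2
    rw [← hu, ← hD, ← hW]
  rw [e1, t1, t2, t3, t4]
  module

/-- `Z3 = -2 Z2` -/
theorem Z3_eq (h : Or 4 P o) (hy : Sec P y) : Z3 φ P o y = (-2 : ℝ) • Z2 φ P o y := by
  obtain ⟨u, hu⟩ : ∃ u, u = uv φ y := ⟨_, rfl⟩
  obtain ⟨D, hD⟩ : ∃ D, D = Dv φ P y := ⟨_, rfl⟩
  obtain ⟨W, hW⟩ : ∃ W, W = Rw φ P y := ⟨_, rfl⟩
  have sW : ∀ l, G.s (W l) = W l := fun l => by rw [hW]; exact s_Rw h.idem l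
  have hyD : ∑ m, φ.f (y m) * D m = 0 := by rw [hD]; exact y_Dv h.sym hy
  unfold Z3
  rw [St_sch h hy.pr hy.un, ← hD, Fin.sum_univ_four]
  have k0 : St φ o (fun I => φ.f (y (I 0)) * ∑ m, φ.f (y m) * PM D D (Rv φ P) (update I 0 m)) = 0 := by
    rw [← St_zero (φ := φ) (o := o)]
    refine St_congr fun I => ?_
    rw [PM_0, hyD, zero_mul, mul_zero]
  have k1 : St φ o (fun I => φ.f (y (I 1)) * ∑ m, φ.f (y m) * PM D D (Rv φ P) (update I 1 m)) = 0 := by
    rw [← St_zero (φ := φ) (o := o)]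
    refine St_congr fun I => ?_
    rw [PM_1, hyD, zero_mul, mul_zero, mul_zero]
  have k2 : St φ o (fun I => φ.f (y (I 2)) * ∑ m, φ.f (y m) * PM D D (Rv φ P) (update I 2 m)) = -Z2 φ P o y := by
    have h1 : St φ o (fun I => φ.f (y (I 2)) * ∑ m, φ.f (y m) * PM D D (Rv φ P) (update I 2 m)) =
        St φ o (fun I => -(P4 u W D D ((I ∘ Equiv.swap 0 2) ∘ Equiv.swap 1 3))) := by
      refine St_congr fun I => ?_
      rw [PM_2, y_Rv h.idem h.sym, ← hW]
      change φ.f (y (I 2)) * (D (I 0) * (D (I 1) * -W (I 3))) = -(u (I 2) * (W (I 3) * (D (I 0) * D (I 1))))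
      rw [ev_comm (sW _), hu, mul_neg, mul_neg, mul_neg]
      unfold uv
      simp only [mul_assoc]
    rw [h1, St_neg, St_swap (T := fun I => P4 u W D D (I ∘ Equiv.swap 1 3)) h (by decide), St_swap h (by decide), neg_neg]
    unfold Z2
    rw [← hu, ← hD, ← hW]
  have k3 : St φ o (fun I => φ.f (y (I 3)) * ∑ m, φ.f (y m) * PM D D (Rv φ P) (update I 3 m)) = -Z2 φ P o y := by
    have h1 : St φ o (fun I => φ.f (y (I 3)) * ∑ m, φ.f (y m) * PM D D (Rv φ P) (update I 3 m)) =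
        St φ o (fun I => P4 u W D D (((I ∘ Equiv.swap 2 3) ∘ Equiv.swap 0 2) ∘ Equiv.swap 1 3)) := by
      refine St_congr fun I => ?_
      rw [PM_3, Rv_y, ← hW]
      change φ.f (y (I 3)) * (D (I 0) * (D (I 1) * W (I 2))) = u (I 3) * (W (I 2) * (D (I 0) * D (I 1)))
      rw [ev_comm (sW _), hu]
      unfold uv
      simp only [mul_assoc]
    rw [h1, St_swap (T := fun I => P4 u W D D ((I ∘ Equiv.swap 0 2) ∘ Equiv.swap 1 3)) h (by decide),
      St_swap (T := fun I => P4 u W D D (I ∘ Equiv.swap 1 3)) h (by decide), St_swap h (by decide), neg_neg]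
    unfold Z2
    rw [← hu, ← hD, ← hW]
  rw [k0, k1, k2, k3]
  module

/-- `Z5 = -4 Z4` -/
theorem Z5_eq (h : Or 4 P o) (hy : Sec P y) : Z5 φ P o = (-4 : ℝ) • Z4 φ P o y := by
  obtain ⟨u, hu⟩ : ∃ u, u = uv φ y := ⟨_, rfl⟩
  obtain ⟨W, hW⟩ : ∃ W, W = Rw φ P y := ⟨_, rfl⟩
  obtain ⟨R, hR⟩ : ∃ R, R = Rv φ P := ⟨_, rfl⟩
  have sW : ∀ l, G.s (W l) = W l := fun l => by rw [hW]; exact s_Rw h.idem l
  have sR : ∀ l m, G.s (R l m) = R l m := fun l m => by rw [hR]; exact s_Rv h.idem l m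
  have hl : ∀ j, ∑ m, φ.f (y m) * R m j = -W j := fun j => by rw [hR, hW]; exact y_Rv h.idem h.sym j
  have hr : ∀ j, ∑ m, φ.f (y m) * R j m = W j := fun j => by rw [hR, hW]; exact Rv_y j
  unfold Z5 Z4
  rw [← hR, ← hu, ← hW, St_sch h hy.pr hy.un, Fin.sum_univ_four]
  have k0 : St φ o (fun I => φ.f (y (I 0)) * ∑ m, φ.f (y m) * MM R R (update I 0 m)) = -St φ o (PM u W R) := by
    rw [← St_neg]
    refine St_congr fun I => ?_
    rw [MM_0, hl, hu]
    change φ.f (y (I 0)) * (-W (I 1) * R (I 2) (I 3)) = -(φ.f (y (I 0)) * (W (I 1) * R (I 2) (I 3)))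
    rw [neg_mul, mul_neg]
  have k1 : St φ o (fun I => φ.f (y (I 1)) * ∑ m, φ.f (y m) * MM R R (update I 1 m)) = -St φ o (PM u W R) := by
    rw [← St_swap h (i := 0) (j := 1) (by decide)]
    refine St_congr fun I => ?_
    rw [MM_1, hr, hu]
    rfl
  have k2 : St φ o (fun I => φ.f (y (I 2)) * ∑ m, φ.f (y m) * MM R R (update I 2 m)) = -St φ o (PM u W R) := by
    have h1 : St φ o (fun I => φ.f (y (I 2)) * ∑ m, φ.f (y m) * MM R R (update I 2 m)) =
        St φ o (fun I => -(PM u W R ((I ∘ Equiv.swap 0 2) ∘ Equiv.swap 1 3))) := by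
      refine St_congr fun I => ?_
      rw [MM_2, hl, hu]
      change φ.f (y (I 2)) * (R (I 0) (I 1) * -W (I 3)) = -(φ.f (y (I 2)) * (W (I 3) * R (I 0) (I 1)))
      rw [ev_comm (sW _), mul_neg, mul_neg]
    rw [h1, St_neg, St_swap (T := fun I => PM u W R (I ∘ Equiv.swap 1 3)) h (by decide), St_swap h (by decide), neg_neg]
  have k3 : St φ o (fun I => φ.f (y (I 3)) * ∑ m, φ.f (y m) * MM R R (update I 3 m)) = -St φ o (PM u W R) := by
    have h1 : St φ o (fun I => φ.f (y (I 3)) * ∑ m, φ.f (y m) * MM R R (update I 3 m)) =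
        St φ o (fun I => PM u W R (((I ∘ Equiv.swap 2 3) ∘ Equiv.swap 0 2) ∘ Equiv.swap 1 3)) := by
      refine St_congr fun I => ?_
      rw [MM_3, hr, hu]
      change φ.f (y (I 3)) * (R (I 0) (I 1) * W (I 2)) = φ.f (y (I 3)) * (W (I 2) * R (I 0) (I 1))
      rw [ev_comm (sW _)]
    rw [h1, St_swap (T := fun I => PM u W R ((I ∘ Equiv.swap 0 2) ∘ Equiv.swap 1 3)) h (by decide),
      St_swap (T := fun I => PM u W R (I ∘ Equiv.swap 1 3)) h (by decide), St_swap h (by decide), neg_neg]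
  rw [k0, k1, k2, k3]
  module

/-- `d psi1 = Z3 + Z4` -/
theorem d_psi1 (h : Or 4 P o) (hy : Sec P y) : G.d (psi1 φ P o y) = Z3 φ P o y + Z4 φ P o y := by
  obtain ⟨u, hu⟩ : ∃ u, u = uv φ y := ⟨_, rfl⟩
  obtain ⟨D, hD⟩ : ∃ D, D = Dv φ P y := ⟨_, rfl⟩
  obtain ⟨W, hW⟩ : ∃ W, W = Rw φ P y := ⟨_, rfl⟩
  obtain ⟨R, hR⟩ : ∃ R, R = Rv φ P := ⟨_, rfl⟩
  have su : ∀ l, G.s (u l) = u l := fun l => by rw [hu]; exact s_uv l
  have sD : ∀ l, G.s (D l) = -D l := fun l => by rw [hD]; exact s_Dv l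
  have e1 : G.d (psi1 φ P o y) = St φ o (PM (dv G u) D R) + St φ o (PM u (dv G D) R) - St φ o (PM u D (G.D R)) := by
    unfold psi1
    rw [d_St h (Inv_PM (pv_uv hy.pr) (pv_Dv h.idem) (MInv_Rv h.idem h.sym)), ← hu, ← hD, ← hR, ← St_add, ← St_sub]
    refine St_congr fun I => ?_
    unfold PM dv
    rw [G.d_mul, G.d_mul, su, sD, GDA.D_apply]
    noncomm_ring
  have t1 : St φ o (PM (dv G u) D R) = Z3 φ P o y := by
    unfold Z3
    rw [← hD, ← hR]
    refine St_pr h 0 fun I => ?_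
    rw [PM_0, hD, hu]
    rfl
  have t2 : St φ o (PM u (dv G D) R) = Z4 φ P o y := by
    unfold Z4
    rw [← hu, ← hW, ← hR]
    refine St_pr h 1 fun I => ?_
    rw [PM_1]
    have h1 : ∑ m, φ.f (P (I 1) m) * dv G D m = W (I 1) := by
      rw [hD, hW]
      exact congrFun (pv_dDv h.idem hy.pr) _
    rw [h1]
    rfl
  have t3 : St φ o (PM u D (G.D R)) = 0 := by
    have h1 : St φ o (PM u D (G.D R)) = St φ o (PM u D (fun i j => ∑ m, φ.f (P i m) * G.D R m j)) :=
      St_pr h 2 fun I => by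
        rw [PM_2]
        rfl
    have h2 : St φ o (PM u D (fun i j => ∑ m, φ.f (P i m) * G.D R m j)) = St φ o (fun _ => 0) :=
      St_pr h 3 fun I => by
        rw [PM_3, two_side h.sym (by rw [hR]; exact Rv_closed h.idem), mul_zero, mul_zero]
    rw [h1, h2, St_zero]
  rw [e1, t1, t2, t3, sub_zero]

/-- the transgression form -/
def psi (φ : Fun0 A G) (P : Matrix ι ι A) (o : (Fin 4 → ι) → A) (y : ι → A) : B :=
  (1 / (12 * Real.pi ^ 2)) • (psi0 φ P o y + (3 / 2 : ℝ) • psi1 φ P o y)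

/-- the Euler form -/
def eul (φ : Fun0 A G) (P : Matrix ι ι A) (o : (Fin 4 → ι) → A) : B := (-(1 / (32 * Real.pi ^ 2))) • Z5 φ P o

/-- the transgression formula -/
theorem d_psi (h : Or 4 P o) (hy : Sec P y) : G.d (psi φ P o y) = eul φ P o := by
  unfold psi eul
  rw [map_smul, map_add, map_smul, d_psi0 h hy, d_psi1 h hy, Z3_eq h hy, Z5_eq h hy]
  have hp : Real.pi ≠ 0 := Real.pi_ne_zero
  have e2 : (-(1 / (32 * Real.pi ^ 2)) * -4 : ℝ) = 1 / (12 * Real.pi ^ 2) * (3 / 2) := by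
    field_simp
    norm_num
  rw [smul_smul (-(1 / (32 * Real.pi ^ 2))), e2]
  module

/-- the Euler form is closed -/
theorem d_eul (h : Or 4 P o) : G.d (eul φ P o) = 0 := by
  unfold eul Z5
  obtain ⟨R, hR⟩ : ∃ R, R = Rv φ P := ⟨_, rfl⟩
  have sR : ∀ l m, G.s (R l m) = R l m := fun l m => by rw [hR]; exact s_Rv h.idem l m
  rw [map_smul, d_St h (Inv_MM (MInv_Rv h.idem h.sym) (MInv_Rv h.idem h.sym)), ← hR]
  have e1 : St φ o (fun I => G.d (MM R R I)) = St φ o (MM (G.D R) R) + St φ o (MM R (G.D R)) := by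
    rw [← St_add]
    refine St_congr fun I => ?_
    unfold MM
    rw [G.d_mul, sR]
    rfl
  have t1 : St φ o (MM (G.D R) R) = 0 := by
    have h1 : St φ o (MM (G.D R) R) = St φ o (MM (fun i j => ∑ m, φ.f (P i m) * G.D R m j) R) :=
      St_pr h 0 fun I => by
        rw [MM_0]
        rfl
    have h2 : St φ o (MM (fun i j => ∑ m, φ.f (P i m) * G.D R m j) R) = St φ o (fun _ => 0) :=
      St_pr h 1 fun I => by
        rw [MM_1, two_side h.sym (by rw [hR]; exact Rv_closed h.idem), zero_mul]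
    rw [h1, h2, St_zero]
  have t2 : St φ o (MM R (G.D R)) = 0 := by
    have h1 : St φ o (MM R (G.D R)) = St φ o (MM R (fun i j => ∑ m, φ.f (P i m) * G.D R m j)) :=
      St_pr h 2 fun I => by
        rw [MM_2]
        rfl
    have h2 : St φ o (MM R (fun i j => ∑ m, φ.f (P i m) * G.D R m j)) = St φ o (fun _ => 0) :=
      St_pr h 3 fun I => by
        rw [MM_3, two_side h.sym (by rw [hR]; exact Rv_closed h.idem), mul_zero]
    rw [h1, h2, St_zero]
  rw [e1, t1, t2, add_zero, smul_zero]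

theorem s_St {r : ℕ} {o : (Fin r → ι) → A} {T : (Fin r → ι) → B} : G.s (St φ o T) = St φ o (fun I => G.s (T I)) := by
  unfold St
  rw [map_sum]
  exact Finset.sum_congr rfl fun I _ => by rw [map_mul, φ.ev]

theorem s_eul (h : Or 4 P o) : G.s (eul φ P o) = eul φ P o := by
  unfold eul Z5
  rw [map_smul, s_St]
  congr 1
  refine St_congr fun I => ?_
  unfold MM
  rw [map_mul, s_Rv h.idem, s_Rv h.idem]

theorem s_psi (h : Or 4 P o) : G.s (psi φ P o y) = -psi φ P o y := by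
  unfold psi psi0 psi1
  rw [map_smul, map_add, map_smul, s_St, s_St, ← smul_neg, neg_add, ← smul_neg, ← St_neg, ← St_neg]
  congr 1
  congr 1
  · refine St_congr fun I => ?_
    unfold P4
    rw [map_mul, map_mul, map_mul, s_uv, s_Dv, s_Dv, s_Dv]
    simp only [mul_neg, neg_mul, neg_neg]
  · congr 1
    refine St_congr fun I => ?_
    unfold PM
    rw [map_mul, map_mul, s_uv, s_Dv, s_Rv h.idem]
    simp only [mul_neg, neg_mul]

/-- the section `-y` -/
theorem psi_neg : psi φ P o (-y) = psi φ P o y := by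
  have h1 : uv φ (-y) = -uv φ y := by
    funext l
    exact map_neg φ.f _
  have h2 : Dv φ P (-y) = -Dv φ P y := by
    funext l
    unfold Dv pv dv
    rw [h1, Pi.neg_apply, ← Finset.sum_neg_distrib]
    exact Finset.sum_congr rfl fun m _ => by rw [Pi.neg_apply, map_neg, mul_neg]
  unfold psi psi0 psi1
  rw [h1, h2]
  congr 1
  congr 1
  · refine St_congr fun I => ?_
    unfold P4
    simp only [Pi.neg_apply, mul_neg, neg_mul, neg_neg]
  · congr 1
    refine St_congr fun I => ?_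
    unfold PM
    simp only [Pi.neg_apply, mul_neg, neg_mul, neg_neg]

/-- the opposite orientation -/
theorem psi_op : psi φ P (fun I => -o I) y = -psi φ P o y := by
  have h1 : ∀ T : (Fin 4 → ι) → B, St φ (fun I => -o I) T = -St φ o T := fun T => by
    unfold St
    rw [← Finset.sum_neg_distrib]
    exact Finset.sum_congr rfl fun I _ => by rw [map_neg, neg_mul]
  unfold psi psi0 psi1
  rw [h1, h1]
  module

theorem eul_op : eul φ P (fun I => -o I) = -eul φ P o := by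
  have h1 : ∀ T : (Fin 4 → ι) → B, St φ (fun I => -o I) T = -St φ o T := fun T => by
    unfold St
    rw [← Finset.sum_neg_distrib]
    exact Finset.sum_congr rfl fun I _ => by rw [map_neg, neg_mul]
  unfold eul Z5
  rw [h1, smul_neg]

end Pool.Agent.Lib.MP_ccbbf6_gt.L5
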