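import Pool.Agent.Lib.MP_ccbbf6_gt.L5.EU1

/-!
# Level 5, EU4: base change and push-forward of orientation tensors (helper13)
-/

set_option autoImplicit false
set_option maxSynthPendingDepth 3
set_option linter.unusedSectionVars false

open Matrix Function

noncomputable section

namespace Pool.Agent.Lib.MP_ccbbf6_gt.L5

variable {ι κ μ : Type*} [Fintype ι] [DecidableEq ι] [Fintype κ] [DecidableEq κ] [Fintype μ] [DecidableEq μ] {r : ℕ}

section base

variable {A A' : Type*} [CommRing A] [CommRing A'] {P : Matrix ι ι A} {o : (Fin r → ι) → A}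

theorem Or.mulVec_col (h : Or r P o) (j : ι) : P.mulVec (fun l => P l j) = fun l => P l j := by
  funext l
  have h1 := congrFun (congrFun h.idem l) j
  rw [Matrix.mul_apply] at h1
  exact h1

/-- the Schouten identity with a column of the projection -/
theorem Or.sch' (h : Or r P o) (I : Fin r → ι) (e j : ι) : P e j * o I = ∑ k, P (I k) j * o (update I k e) :=
  h.sch _ (h.mulVec_col j) I e

/-- base change -/
theorem Or.map' (h : Or r P o) (f : A →+* A') : Or r (P.map f) (fun I => f (o I)) := by
  refine h.map f fun y hy I e => ?_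
  have h1 : ∀ l, y l = ∑ j, f (P l j) * y j := fun l => (congrFun hy l).symm
  have h2 : y e * f (o I) = ∑ j, y j * f (P e j * o I) := by
    conv_lhs => rw [h1 e]
    rw [Finset.sum_mul]
    exact Finset.sum_congr rfl fun j _ => by rw [map_mul]; ring
  rw [h2]
  have h3 : ∀ j, y j * f (P e j * o I) = ∑ k, f (P (I k) j) * y j * f (o (update I k e)) := by
    intro j
    rw [h.sch', map_sum, Finset.mul_sum]
    exact Finset.sum_congr rfl fun k _ => by rw [map_mul]; ring
  simp only [h3]
  rw [Finset.sum_comm]
  refine Finset.sum_congr rfl fun k _ => ?_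
  rw [← Finset.sum_mul, ← h1]

/-- the tensor of an orientation is projected in all slots -/
theorem Or.full (h : Or r P o) (I : Fin r → ι) : ∑ J : Fin r → ι, (∏ k, P (I k) (J k)) * o J = o I := by
  have key : ∀ (s : Finset (Fin r)) (I : Fin r → ι),
      ∑ J : Fin r → ι, (∏ k, if k ∈ s then P (I k) (J k) else if I k = J k then 1 else 0) * o J = o I := by
    intro s
    induction s using Finset.induction_on with
    | empty =>
      intro I
      rw [Finset.sum_eq_single I]
      · simp
      · intro J _ hJ
        obtain ⟨k, hk⟩ : ∃ k, I k ≠ J k := by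
          by_contra hh
          push Not at hh
          exact hJ (funext fun k => (hh k).symm)
        rw [Finset.prod_eq_zero (Finset.mem_univ k), zero_mul]
        rw [if_neg (Finset.notMem_empty k), if_neg hk]
      · intro h
        exact absurd (Finset.mem_univ I) h
    | insert k s hk ih =>
      intro I
      have h0 := h.inv I k (I k)
      rw [update_eq_self] at h0
      rw [← h0]
      have e0 : ∀ m, P (I k) m * o (update I k m) = ∑ J : Fin r → ι, P (I k) m *
          ((∏ l, if l ∈ s then P (update I k m l) (J l) else if update I k m l = J l then 1 else 0) * o J) := fun m => by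
        rw [← Finset.mul_sum, ih]
      simp only [e0]
      rw [Finset.sum_comm]
      refine Finset.sum_congr rfl fun J _ => ?_
      have e1 : ∀ m, P (I k) m * ((∏ l, if l ∈ s then P (update I k m l) (J l) else
          if update I k m l = J l then 1 else 0) * o J) =
          (if m = J k then P (I k) m * (∏ l ∈ Finset.univ.erase k, if l ∈ s then P (I l) (J l) else
            if I l = J l then 1 else 0) else 0) * o J := by
        intro m
        rw [← mul_assoc, ← Finset.mul_prod_erase Finset.univ _ (Finset.mem_univ k), if_neg hk, update_self]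
        have e2 : (∏ l ∈ Finset.univ.erase k, if l ∈ s then P (update I k m l) (J l) else
            if update I k m l = J l then (1 : A) else 0) = ∏ l ∈ Finset.univ.erase k, if l ∈ s then P (I l) (J l) else
            if I l = J l then 1 else 0 := by
          refine Finset.prod_congr rfl fun l hl => ?_
          rw [update_of_ne (Finset.ne_of_mem_erase hl)]
        rw [e2]
        by_cases hm : m = J k
        · rw [if_pos hm, if_pos hm, one_mul]
        · rw [if_neg hm, if_neg hm, zero_mul, mul_zero]
      simp only [e1]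
      rw [← Finset.sum_mul, Finset.sum_ite_eq' Finset.univ (J k), if_pos (Finset.mem_univ _),
        ← Finset.mul_prod_erase Finset.univ _ (Finset.mem_univ k), if_pos (Finset.mem_insert_self k s)]
      congr 2
      refine Finset.prod_congr rfl fun l hl => ?_
      have hlk : l ≠ k := Finset.ne_of_mem_erase hl
      have h2 : l ∈ insert k s ↔ l ∈ s := by
        rw [Finset.mem_insert]
        exact or_iff_right hlk
      simp only [h2]
  have h1 := key Finset.univ I
  simpa using h1

end base

/-! ### push-forward -/

section push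

variable {A : Type*} [CommRing A]

/-- push-forward of a tensor -/
def push (u : Matrix κ ι A) (o : (Fin r → ι) → A) (K : Fin r → κ) : A := ∑ I : Fin r → ι, (∏ k, u (K k) (I k)) * o I

theorem push_comp (u : Matrix μ κ A) (v : Matrix κ ι A) (o : (Fin r → ι) → A) :
    push (u * v) o = push u (push v o) := by
  funext K
  unfold push
  have h1 : ∀ I : Fin r → ι, ∏ k, (u * v) (K k) (I k) = ∑ J : Fin r → κ, ∏ k, u (K k) (J k) * v (J k) (I k) := by
    intro I
    simp only [Matrix.mul_apply]
    exact Fintype.prod_sum (fun k j => u (K k) j * v j (I k))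
  simp only [h1, Finset.prod_mul_distrib, Finset.sum_mul, Finset.mul_sum]
  rw [Finset.sum_comm]
  exact Finset.sum_congr rfl fun J _ => Finset.sum_congr rfl fun I _ => mul_assoc _ _ _

theorem push_self {P : Matrix ι ι A} {o : (Fin r → ι) → A} (h : Or r P o) : push P o = o := funext h.full

theorem push_map {A' : Type*} [CommRing A'] (f : A →+* A') (u : Matrix κ ι A) (o : (Fin r → ι) → A) (K : Fin r → κ) :
    f (push u o K) = push (u.map f) (fun I => f (o I)) K := by
  unfold push
  rw [map_sum]
  exact Finset.sum_congr rfl fun I _ => by rw [map_mul, map_prod]; rfl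

theorem push_upd (u : Matrix κ ι A) (o : (Fin r → ι) → A) (K : Fin r → κ) (k : Fin r) (e : κ) :
    push u o (update K k e) = ∑ I : Fin r → ι, (u e (I k) * ∏ l ∈ Finset.univ.erase k, u (K l) (I l)) * o I := by
  unfold push
  refine Finset.sum_congr rfl fun I _ => ?_
  rw [← Finset.mul_prod_erase Finset.univ _ (Finset.mem_univ k), update_self]
  congr 2
  refine Finset.prod_congr rfl fun l hl => ?_
  rw [update_of_ne (Finset.ne_of_mem_erase hl)]

variable {P : Matrix ι ι A} {o : (Fin r → ι) → A} {u : Matrix κ ι A}

/-- isometries transport orientations -/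
theorem Or.push (h : Or r P o) (h1 : uᵀ * u = P) (h2 : u * P = u) : Or r (u * uᵀ) (push u o) := by
  have h3 : P * uᵀ = uᵀ := by
    have := congrArg Matrix.transpose h2
    rw [Matrix.transpose_mul, h.sym] at this
    exact this
  constructor
  · rw [Matrix.transpose_mul, Matrix.transpose_transpose]
  · rw [Matrix.mul_assoc, ← Matrix.mul_assoc uᵀ, h1, h3]
  · rw [Matrix.trace_mul_comm, h1, h.tr]
  · intro σ K
    unfold L5.push
    rw [sum_perm σ, Finset.mul_sum]
    refine Finset.sum_congr rfl fun I _ => ?_
    rw [h.alt]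
    have e1 : ∏ k, u ((K ∘ σ) k) ((I ∘ σ) k) = ∏ k, u (K k) (I k) := Equiv.prod_comp σ fun k => u (K k) (I k)
    rw [e1]
    ring
  · intro K L
    unfold L5.push
    rw [Finset.sum_mul_sum]
    have e1 : ∀ I J : Fin r → ι, (∏ k, u (K k) (I k)) * o I * ((∏ k, u (L k) (J k)) * o J) =
        ∑ σ : Equiv.Perm (Fin r), ((Equiv.Perm.sign σ : ℤ) : A) *
          ∏ k, (u (K (σ k)) (I (σ k)) * (P (I (σ k)) (J k) * u (L k) (J k))) := by
      intro I J
      have e2 : (∏ k, u (K k) (I k)) * o I * ((∏ k, u (L k) (J k)) * o J) =
          (∏ k, u (K k) (I k)) * (∏ k, u (L k) (J k)) * (o I * o J) := by ring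
      rw [e2, h.rk, Matrix.det_apply', Finset.mul_sum]
      refine Finset.sum_congr rfl fun σ _ => ?_
      rw [Finset.prod_mul_distrib, Finset.prod_mul_distrib, Equiv.prod_comp σ fun k => u (K k) (I k)]
      simp only [Matrix.of_apply]
      ring
    simp only [e1]
    have e3 : ∀ I : Fin r → ι, ∑ J : Fin r → ι, ∑ σ : Equiv.Perm (Fin r), ((Equiv.Perm.sign σ : ℤ) : A) *
          ∏ k, (u (K (σ k)) (I (σ k)) * (P (I (σ k)) (J k) * u (L k) (J k))) =
        ∑ σ : Equiv.Perm (Fin r), ((Equiv.Perm.sign σ : ℤ) : A) *
          ∏ k, (u (K (σ k)) (I (σ k)) * (P * uᵀ) (I (σ k)) (L k)) := by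
      intro I
      rw [Finset.sum_comm]
      refine Finset.sum_congr rfl fun σ _ => ?_
      rw [← Finset.mul_sum]
      congr 1
      have e4 := Fintype.prod_sum (fun (k : Fin r) (j : ι) => u (K (σ k)) (I (σ k)) * (P (I (σ k)) j * u (L k) j))
      rw [← e4]
      refine Finset.prod_congr rfl fun k _ => ?_
      rw [← Finset.mul_sum]
      rfl
    simp only [e3, h3]
    rw [Finset.sum_comm, Matrix.det_apply']
    refine Finset.sum_congr rfl fun σ _ => ?_
    rw [← Finset.mul_sum]
    congr 1
    rw [sum_perm σ⁻¹]
    have e5 : ∀ I : Fin r → ι, ∏ k, (u (K (σ k)) ((I ∘ ⇑σ⁻¹) (σ k)) * uᵀ ((I ∘ ⇑σ⁻¹) (σ k)) (L k)) =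
        ∏ k, (u (K (σ k)) (I k) * uᵀ (I k) (L k)) := by
      intro I
      refine Finset.prod_congr rfl fun k _ => ?_
      simp
    simp only [e5]
    have e4 := Fintype.prod_sum (fun (k : Fin r) (j : ι) => u (K (σ k)) j * uᵀ j (L k))
    rw [← e4]
    rfl
  · have e1 : ∀ K : Fin r → κ, L5.push u o K * L5.push u o K =
        ∑ I : Fin r → ι, ∑ J : Fin r → ι, (∏ k, u (K k) (I k) * u (K k) (J k)) * (o I * o J) := by
      intro K
      unfold L5.push
      rw [Finset.sum_mul_sum]
      refine Finset.sum_congr rfl fun I _ => Finset.sum_congr rfl fun J _ => ?_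
      rw [Finset.prod_mul_distrib]
      ring
    simp only [e1]
    rw [Finset.sum_comm, ← h.nrm]
    refine Finset.sum_congr rfl fun I _ => ?_
    rw [Finset.sum_comm]
    have e2 : ∀ J : Fin r → ι, ∑ K : Fin r → κ, (∏ k, u (K k) (I k) * u (K k) (J k)) * (o I * o J) =
        o I * ((∏ k, P (I k) (J k)) * o J) := by
      intro J
      rw [← Finset.sum_mul]
      have e4 := Fintype.prod_sum (fun (k : Fin r) (j : κ) => u j (I k) * u j (J k))
      rw [← e4]
      have e5 : ∀ k, ∑ j, u j (I k) * u j (J k) = P (I k) (J k) := by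
        intro k
        rw [← h1]
        rfl
      simp only [e5]
      ring
    simp only [e2]
    rw [← Finset.mul_sum, h.full]
  · intro K k l
    simp only [push_upd]
    simp only [Finset.mul_sum]
    rw [Finset.sum_comm]
    refine Finset.sum_congr rfl fun I _ => ?_
    have e1 : ∀ i, (u * uᵀ) l i * ((u i (I k) * ∏ l ∈ Finset.univ.erase k, u (K l) (I l)) * o I) =
        (u * uᵀ) l i * u i (I k) * ((∏ l ∈ Finset.univ.erase k, u (K l) (I l)) * o I) := fun i => by ring
    simp only [e1]
    rw [← Finset.sum_mul, ← Matrix.mul_apply, Matrix.mul_assoc, h1, h2]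
    ring
  · intro y hy K e
    obtain ⟨x, hx⟩ : ∃ x, x = uᵀ.mulVec y := ⟨_, rfl⟩
    have hPx : P.mulVec x = x := by
      rw [hx, Matrix.mulVec_mulVec, h3]
    have hux : u.mulVec x = y := by
      rw [hx, Matrix.mulVec_mulVec, hy]
    have hyl : ∀ l, y l = ∑ m, u l m * x m := fun l => (congrFun hux l).symm
    simp only [push_upd]
    have e1 : ∀ k, y (K k) * ∑ I : Fin r → ι, (u e (I k) * ∏ l ∈ Finset.univ.erase k, u (K l) (I l)) * o I =
        ∑ I : Fin r → ι, ∑ m, (∏ l, u (K l) (I l)) * (u e m * (x (I k) * o (update I k m))) := by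
      intro k
      rw [sum_swp k (fun I m => (∏ l, u (K l) (I l)) * (u e m * (x (I k) * o (update I k m)))), hyl, Finset.mul_sum]
      refine Finset.sum_congr rfl fun I _ => ?_
      rw [Finset.sum_mul]
      refine Finset.sum_congr rfl fun m _ => ?_
      rw [update_self, update_idem, update_eq_self, ← Finset.mul_prod_erase Finset.univ _ (Finset.mem_univ k), update_self]
      have e2 : ∏ l ∈ Finset.univ.erase k, u (K l) (update I k m l) = ∏ l ∈ Finset.univ.erase k, u (K l) (I l) :=
        Finset.prod_congr rfl fun l hl => by rw [update_of_ne (Finset.ne_of_mem_erase hl)]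
      rw [e2]
      ring
    simp only [e1]
    rw [Finset.sum_comm]
    unfold L5.push
    rw [Finset.mul_sum]
    refine Finset.sum_congr rfl fun I _ => ?_
    rw [Finset.sum_comm]
    simp only [← Finset.mul_sum]
    have e3 : ∀ m, ∑ k, x (I k) * o (update I k m) = x m * o I := fun m => (h.sch x hPx I m).symm
    simp only [e3]
    have e4 : ∑ m, u e m * (x m * o I) = y e * o I := by
      rw [hyl, Finset.sum_mul]
      exact Finset.sum_congr rfl fun m _ => by ring
    rw [e4]
    ring

end push

end Pool.Agent.Lib.MP_ccbbf6_gt.L5
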