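import Pool.Agent.Lib.MP_ccbbf6_gt.L5.EU6

/-!
# Level 5, EU7: the square of the Euler form is the top Pontryagin form (helper13)
-/

set_option autoImplicit false
set_option maxSynthPendingDepth 3
set_option linter.unusedSectionVars false

open Matrix Function

noncomputable section

namespace Pool.Agent.Lib.MP_ccbbf6_gt.L5

variable {ι : Type*} [Fintype ι] [DecidableEq ι] {r : ℕ}

variable {A : Type*} [CommRing A] [Algebra ℝ A] {B : Type*} [Ring B] [Algebra ℝ B] {G : GDA B} {φ : Fun0 A G}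

variable {P : Matrix ι ι A}

/-- product of two contractions -/
theorem St_mul_St {o : (Fin r → ι) → A} {T T' : (Fin r → ι) → B} (h : Or r P o) (hT : Inv φ P T') :
    St φ o T * St φ o T' = ∑ σ : Equiv.Perm (Fin r), ((Equiv.Perm.sign σ : ℤ) : B) * ∑ I, T I * T' (I ∘ σ) := by
  unfold St
  rw [Finset.sum_mul_sum]
  have e1 : ∀ I J : Fin r → ι, φ.f (o I) * T I * (φ.f (o J) * T' J) =
      ∑ σ : Equiv.Perm (Fin r), ((Equiv.Perm.sign σ : ℤ) : B) * (T I * (φ.f (∏ k, P ((I ∘ σ) k) (J k)) * T' J)) := by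
    intro I J
    have e2 : φ.f (o I) * T I * (φ.f (o J) * T' J) = T I * (φ.f (o I * o J) * T' J) := by
      rw [mul_assoc, cm1, map_mul, mul_assoc]
    rw [e2, h.rk, Matrix.det_apply', map_sum, Finset.sum_mul, Finset.mul_sum]
    refine Finset.sum_congr rfl fun σ _ => ?_
    rw [map_mul, map_intCast, mul_assoc, ← mul_assoc (T I), ← Int.cast_commute _ (T I), mul_assoc]
    rfl
  simp only [e1]
  have e3 : ∀ I : Fin r → ι, ∑ J : Fin r → ι, ∑ σ : Equiv.Perm (Fin r), ((Equiv.Perm.sign σ : ℤ) : B) *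
      (T I * (φ.f (∏ k, P ((I ∘ σ) k) (J k)) * T' J)) =
      ∑ σ : Equiv.Perm (Fin r), ((Equiv.Perm.sign σ : ℤ) : B) * (T I * T' (I ∘ σ)) := by
    intro I
    rw [Finset.sum_comm]
    refine Finset.sum_congr rfl fun σ _ => ?_
    rw [← Finset.mul_sum, ← Finset.mul_sum, ← hT.full]
  simp only [e3]
  rw [Finset.sum_comm]
  refine Finset.sum_congr rfl fun σ _ => ?_
  rw [Finset.mul_sum]

theorem Inv_M2 {M : Matrix ι ι B} (hM : MInv φ P M) : Inv φ P (fun I : Fin 2 → ι => M (I 0) (I 1)) := by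
  refine fin2 ?_ ?_
  · intro I
    rw [M2_0 (M := M), hM.l]
  · intro I
    rw [M2_1 (M := M), hM.r]

theorem sum_perm2 {M : Type*} [AddCommMonoid M] (F : Equiv.Perm (Fin 2) → M) :
    ∑ σ, F σ = F 1 + F (Equiv.swap 0 1) := by
  have h1 : (Finset.univ : Finset (Equiv.Perm (Fin 2))) = {1, Equiv.swap 0 1} := by decide
  rw [h1, Finset.sum_insert (by decide), Finset.sum_singleton]

theorem trace_sq (M : Matrix ι ι B) : trace (M * M) = ∑ a, ∑ b, M a b * M b a := by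
  unfold trace
  exact Finset.sum_congr rfl fun a _ => Matrix.mul_apply

/-- rank two -/
theorem eu2_sq {o : (Fin 2 → ι) → A} (h : Or 2 P o) :
    eu2 φ P o * eu2 φ P o = (-(1 / (8 * Real.pi ^ 2))) • G.ps (P.map φ.f) 2 := by
  obtain ⟨R, hR⟩ : ∃ R, R = Rv φ P := ⟨_, rfl⟩
  have hM : MInv φ P R := by rw [hR]; exact MInv_Rv h.idem h.sym
  have hps : G.ps (P.map φ.f) 2 = ∑ a, ∑ b, R a b * R b a := by
    unfold GDA.ps
    rw [← (φ.idem h.idem).pow_mul two_ne_zero, pow_two, ← trace_sq, hR]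
    rfl
  have hR' : ∀ a b, R b a = -R a b := fun a b => by rw [hR]; exact Rv_anti h.idem h.sym b a
  have e1 : St φ o (fun I => R (I 0) (I 1)) * St φ o (fun I => R (I 0) (I 1)) = (-2 : ℝ) • ∑ a, ∑ b, R a b * R b a := by
    rw [St_mul_St h (Inv_M2 hM), sum_perm2]
    have f1 : ∑ I : Fin 2 → ι, R (I 0) (I 1) * R ((I ∘ (1 : Equiv.Perm (Fin 2))) 0) ((I ∘ (1 : Equiv.Perm (Fin 2))) 1) =
        -∑ a, ∑ b, R a b * R b a := by
      rw [← sum2 fun a b => R a b * R b a, ← Finset.sum_neg_distrib]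
      refine Finset.sum_congr rfl fun I _ => ?_
      rw [hR' (I 0) (I 1), mul_neg, neg_neg]
      rfl
    have f2 : ∑ I : Fin 2 → ι, R (I 0) (I 1) * R ((I ∘ (Equiv.swap (0 : Fin 2) 1)) 0) ((I ∘ (Equiv.swap (0 : Fin 2) 1)) 1) =
        ∑ a, ∑ b, R a b * R b a := by
      rw [← sum2 fun a b => R a b * R b a]
      rfl
    rw [f1, f2, Equiv.Perm.sign_one, Equiv.Perm.sign_swap (by decide)]
    simp only [Units.val_one, Units.val_neg, Int.cast_one, Int.cast_neg]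
    rw [one_mul, neg_mul, one_mul]
    module
  unfold eu2
  rw [smul_mul_smul_comm, ← hR, e1, hps, smul_smul]
  congr 1
  have hp : Real.pi ≠ 0 := Real.pi_ne_zero
  field_simp
  norm_num

/-- permutations preserving the pairing `01|23`, with representatives of the cosets -/
def tab (z : Fin 3 × Fin 2 × Fin 2 × Fin 2) : Equiv.Perm (Fin 4) :=
  (![1, Equiv.swap 1 2, Equiv.swap 1 3] z.1) * (![1, Equiv.swap 0 1] z.2.1) * (![1, Equiv.swap 2 3] z.2.2.1) *
    (![1, Equiv.swap 0 2 * Equiv.swap 1 3] z.2.2.2)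

theorem tab_bij : Function.Bijective tab := by
  rw [Fintype.bijective_iff_injective_and_card]
  refine ⟨?_, by simp [Fintype.card_perm, Nat.factorial]⟩
  intro a b
  revert a b
  decide +kernel

theorem sum_perm4 {M : Type*} [AddCommMonoid M] (F : Equiv.Perm (Fin 4) → M)
    (h1 : ∀ σ, F (σ * Equiv.swap 0 1) = F σ) (h2 : ∀ σ, F (σ * Equiv.swap 2 3) = F σ)
    (h3 : ∀ σ, F (σ * (Equiv.swap 0 2 * Equiv.swap 1 3)) = F σ) :
    ∑ σ, F σ = (8 : ℕ) • (F 1 + F (Equiv.swap 1 2) + F (Equiv.swap 1 3)) := by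
  rw [← Fintype.sum_bijective tab tab_bij (fun z => F (![1, Equiv.swap 1 2, Equiv.swap 1 3] z.1)) F]
  · rw [Fintype.sum_prod_type]
    simp only [Finset.sum_const, Finset.card_univ, Fintype.card_prod, Fintype.card_fin]
    rw [Fin.sum_univ_three]
    simp only [smul_add]
    rfl
  · rintro ⟨a, b, c, e⟩
    unfold tab
    have k1 : ∀ σ, F (σ * ![1, Equiv.swap 0 1] b) = F σ := by
      intro σ
      revert b
      exact fin2 (by rw [show (![1, Equiv.swap 0 1] : Fin 2 → Equiv.Perm (Fin 4)) 0 = 1 from rfl, mul_one]) (h1 σ)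
    have k2 : ∀ σ, F (σ * ![1, Equiv.swap 2 3] c) = F σ := by
      intro σ
      revert c
      exact fin2 (by rw [show (![1, Equiv.swap 2 3] : Fin 2 → Equiv.Perm (Fin 4)) 0 = 1 from rfl, mul_one]) (h2 σ)
    have k3 : ∀ σ, F (σ * ![1, Equiv.swap 0 2 * Equiv.swap 1 3] e) = F σ := by
      intro σ
      revert e
      exact fin2 (by
        rw [show (![1, Equiv.swap 0 2 * Equiv.swap 1 3] : Fin 2 → Equiv.Perm (Fin 4)) 0 = 1 from rfl, mul_one]) (h3 σ)
    rw [k3, k2, k1]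

theorem trace_p4 (M : Matrix ι ι B) : trace (M ^ 4) = ∑ a, ∑ b, ∑ c, ∑ e, M a b * (M b c * (M c e * M e a)) := by
  have h1 : M ^ 4 = M * (M * (M * M)) := by noncomm_ring
  rw [h1]
  unfold trace
  refine Finset.sum_congr rfl fun a _ => ?_
  rw [Matrix.diag_apply, Matrix.mul_apply]
  refine Finset.sum_congr rfl fun b _ => ?_
  rw [Matrix.mul_apply, Finset.mul_sum]
  refine Finset.sum_congr rfl fun c _ => ?_
  rw [Matrix.mul_apply, Finset.mul_sum, Finset.mul_sum]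

/-- rank four -/
theorem eul_sq {o : (Fin 4 → ι) → A} (h : Or 4 P o) :
    eul φ P o * eul φ P o = (1 / (2 * Real.pi) ^ 4) • ((1 / 8 : ℝ) • (G.ps (P.map φ.f) 2 * G.ps (P.map φ.f) 2) -
      (1 / 4 : ℝ) • G.ps (P.map φ.f) 4) := by
  obtain ⟨R, hR⟩ : ∃ R, R = Rv φ P := ⟨_, rfl⟩
  have hM : MInv φ P R := by rw [hR]; exact MInv_Rv h.idem h.sym
  have sR : ∀ l m, G.s (R l m) = R l m := fun l m => by rw [hR]; exact s_Rv h.idem l m
  have hps2 : G.ps (P.map φ.f) 2 = ∑ a, ∑ b, R a b * R b a := by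
    unfold GDA.ps
    rw [← (φ.idem h.idem).pow_mul two_ne_zero, pow_two, ← trace_sq, hR]
    rfl
  have hps4 : G.ps (P.map φ.f) 4 = ∑ a, ∑ b, ∑ c, ∑ e, R a b * (R b c * (R c e * R e a)) := by
    unfold GDA.ps
    rw [← (φ.idem h.idem).pow_mul four_ne_zero, ← trace_p4, hR]
    rfl
  have hR' : ∀ a b, R b a = -R a b := fun a b => by rw [hR]; exact Rv_anti h.idem h.sym b a
  have hc : ∀ a b (z : B), R a b * z = z * R a b := fun a b z => ev_comm (sR a b) z
  obtain ⟨F, hF⟩ : ∃ F : Equiv.Perm (Fin 4) → B, F = fun σ => ((Equiv.Perm.sign σ : ℤ) : B) *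
    ∑ I : Fin 4 → ι, MM R R I * MM R R (I ∘ σ) := ⟨_, rfl⟩
  have key : ∀ τ : Equiv.Perm (Fin 4), (∀ I : Fin 4 → ι, MM R R (I ∘ τ) = ((Equiv.Perm.sign τ : ℤ) : B) * MM R R I) →
      ∀ σ, F (σ * τ) = F σ := by
    intro τ hτ σ
    rw [hF]
    simp only
    rw [Finset.mul_sum, Finset.mul_sum]
    refine Finset.sum_congr rfl fun I _ => ?_
    have e1 : MM R R (I ∘ ⇑(σ * τ)) = ((Equiv.Perm.sign τ : ℤ) : B) * MM R R (I ∘ σ) := hτ (I ∘ σ)
    rw [e1, Equiv.Perm.sign_mul, Units.val_mul, Int.cast_mul]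
    have e2 : (((Equiv.Perm.sign τ : ℤ) : B)) * (((Equiv.Perm.sign τ : ℤ) : B)) = 1 := by
      rw [← Int.cast_mul, Int.units_coe_mul_self, Int.cast_one]
    rw [← mul_assoc (MM R R I), ← Int.cast_commute _ (MM R R I), mul_assoc (((Equiv.Perm.sign σ : ℤ) : B)),
      mul_assoc (((Equiv.Perm.sign τ : ℤ) : B)) (MM R R I), ← mul_assoc (((Equiv.Perm.sign τ : ℤ) : B)), e2, one_mul]
  have h1 : ∀ σ, F (σ * Equiv.swap 0 1) = F σ := key _ fun I => by
    rw [Equiv.Perm.sign_swap (by decide)]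
    simp only [Units.val_neg, Units.val_one, Int.cast_neg, Int.cast_one, neg_mul, one_mul]
    change R (I 1) (I 0) * R (I 2) (I 3) = -(R (I 0) (I 1) * R (I 2) (I 3))
    rw [hR' (I 0) (I 1), neg_mul]
  have h2 : ∀ σ, F (σ * Equiv.swap 2 3) = F σ := key _ fun I => by
    rw [Equiv.Perm.sign_swap (by decide)]
    simp only [Units.val_neg, Units.val_one, Int.cast_neg, Int.cast_one, neg_mul, one_mul]
    change R (I 0) (I 1) * R (I 3) (I 2) = -(R (I 0) (I 1) * R (I 2) (I 3))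
    rw [hR' (I 2) (I 3), mul_neg]
  have h3 : ∀ σ, F (σ * (Equiv.swap 0 2 * Equiv.swap 1 3)) = F σ := key _ fun I => by
    rw [Equiv.Perm.sign_mul, Equiv.Perm.sign_swap (by decide), Equiv.Perm.sign_swap (by decide)]
    simp only [mul_neg, mul_one, neg_neg, Units.val_one, Int.cast_one, one_mul]
    change R (I 2) (I 3) * R (I 0) (I 1) = R (I 0) (I 1) * R (I 2) (I 3)
    exact hc _ _ _
  have g1 : F 1 = G.ps (P.map φ.f) 2 * G.ps (P.map φ.f) 2 := by
    have k1 : ∀ I : Fin 4 → ι, MM R R I * MM R R (I ∘ (1 : Equiv.Perm (Fin 4))) =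
        (R (I 0) (I 1) * R (I 1) (I 0)) * (R (I 2) (I 3) * R (I 3) (I 2)) := by
      intro I
      change R (I 0) (I 1) * R (I 2) (I 3) * (R (I 0) (I 1) * R (I 2) (I 3)) = _
      rw [hR' (I 0) (I 1), hR' (I 2) (I 3)]
      simp only [mul_neg, neg_mul, neg_neg]
      rw [mul_assoc, mul_assoc, ← mul_assoc (R (I 2) (I 3)), hc (I 2) (I 3) (R (I 0) (I 1)), mul_assoc]
    rw [hF]
    simp only [Equiv.Perm.sign_one, Units.val_one, Int.cast_one, one_mul, k1]
    rw [hps2, sum4 fun a b c e => (R a b * R b a) * (R c e * R e c), Finset.sum_mul]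
    refine Finset.sum_congr rfl fun a _ => ?_
    rw [Finset.sum_mul]
    refine Finset.sum_congr rfl fun b _ => ?_
    rw [Finset.mul_sum]
    refine Finset.sum_congr rfl fun c _ => ?_
    rw [Finset.mul_sum]
  have g2 : F (Equiv.swap 1 2) = -G.ps (P.map φ.f) 4 := by
    have k1 : ∀ I : Fin 4 → ι, MM R R I * MM R R (I ∘ (Equiv.swap 1 2 : Equiv.Perm (Fin 4))) =
        R (I 0) (I 1) * (R (I 1) (I 3) * (R (I 3) (I 2) * R (I 2) (I 0))) := by
      intro I
      change R (I 0) (I 1) * R (I 2) (I 3) * (R (I 0) (I 2) * R (I 1) (I 3)) = _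
      rw [hR' (I 2) (I 3), hR' (I 0) (I 2)]
      simp only [mul_neg, neg_mul, neg_neg]
      rw [mul_assoc, hc (I 2) (I 3), hc (I 0) (I 2)]
      simp only [mul_assoc]
      rw [hc (I 2) (I 3) (R (I 0) (I 2))]
    have k2 : ∑ I : Fin 4 → ι, R (I 0) (I 1) * (R (I 1) (I 3) * (R (I 3) (I 2) * R (I 2) (I 0))) =
        ∑ a, ∑ b, ∑ c, ∑ e, R a b * (R b c * (R c e * R e a)) := by
      rw [sum4 fun a b c e => R a b * (R b e * (R e c * R c a))]
      refine Finset.sum_congr rfl fun a _ => Finset.sum_congr rfl fun b _ => ?_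
      rw [Finset.sum_comm]
    rw [hF]
    simp only [k1]
    rw [k2, ← hps4, Equiv.Perm.sign_swap (by decide)]
    simp
  have g3 : F (Equiv.swap 1 3) = -G.ps (P.map φ.f) 4 := by
    have k1 : ∀ I : Fin 4 → ι, MM R R I * MM R R (I ∘ (Equiv.swap 1 3 : Equiv.Perm (Fin 4))) =
        R (I 0) (I 1) * (R (I 1) (I 2) * (R (I 2) (I 3) * R (I 3) (I 0))) := by
      intro I
      change R (I 0) (I 1) * R (I 2) (I 3) * (R (I 0) (I 3) * R (I 2) (I 1)) = _
      rw [hR' (I 1) (I 2), hR' (I 0) (I 3)]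
      simp only [mul_neg, neg_mul, neg_neg]
      rw [mul_assoc, ← mul_assoc (R (I 2) (I 3)), hc (I 1) (I 2)]
    have k2 : ∑ I : Fin 4 → ι, R (I 0) (I 1) * (R (I 1) (I 2) * (R (I 2) (I 3) * R (I 3) (I 0))) =
        ∑ a, ∑ b, ∑ c, ∑ e, R a b * (R b c * (R c e * R e a)) :=
      sum4 fun a b c e => R a b * (R b c * (R c e * R e a))
    rw [hF]
    simp only [k1]
    rw [k2, ← hps4, Equiv.Perm.sign_swap (by decide)]
    simp
  have e1 : Z5 φ P o * Z5 φ P o = (8 : ℕ) • (G.ps (P.map φ.f) 2 * G.ps (P.map φ.f) 2 + -G.ps (P.map φ.f) 4 +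
      -G.ps (P.map φ.f) 4) := by
    have e3 := sum_perm4 F h1 h2 h3
    rw [g1, g2, g3] at e3
    rw [← e3]
    unfold Z5
    rw [← hR, St_mul_St h (Inv_MM hM hM), hF]
  unfold eul
  rw [smul_mul_smul_comm, e1]
  have hp : Real.pi ≠ 0 := Real.pi_ne_zero
  have e2 : (-(1 / (32 * Real.pi ^ 2)) * -(1 / (32 * Real.pi ^ 2)) : ℝ) = (1 / (2 * Real.pi) ^ 4) * (1 / 64) := by
    field_simp
    norm_num
  rw [e2]
  module

end Pool.Agent.Lib.MP_ccbbf6_gt.L5
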