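import Pool.Agent.Lib.MP_ccbbf6_gt.L4.FI7
import Pool.Agent.Lib.MP_ccbbf6_gt.L5.COH4
import Pool.Agent.Lib.MP_ccbbf6_gt.L5.DGP
import Pool.Agent.Lib.MP_ccbbf6_gt.L5.DIM

/-!
# Level 5, RGI: the integral over the space `D` of pairs of geodesics (helper67)

`GeoD.IX = TG ∘ PI`; `IX (dx) = 0`; `IX x = 0` if `ι x = 0` for a circle action with a connection form.
-/

set_option autoImplicit false
set_option maxSynthPendingDepth 3

open Set Filter Topology Metric Real Module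
open scoped ContDiff RealInnerProductSpace

noncomputable section

namespace Pool.Agent.Lib.MP_ccbbf6_gt.L5

open Geo L4 L4.FR L4.ORI

variable {k d i j : ℕ} {X : Space}

/-! ### components -/

/-- a form is the sum of its components of degree `≤ dim` -/
theorem dp_sum (hX : DimLE X d) (x : Om X) : ∑ j ∈ Finset.range (d + 1), dpO X j x = x := by
  have h1 : ∑ j ∈ Finset.range (d + 1), dpO X j x = x := Om_ext fun k p => by
    have h2 : Om.on (∑ j ∈ Finset.range (d + 1), dpO X j x) p = ∑ j ∈ Finset.range (d + 1), dpF k j (Om.on x p) := by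
      rw [on_sum]
      rfl
    rw [h2]
    conv_rhs => rw [← dpF_sum (Om.on x p)]
    have h3 : ∑ j ∈ Finset.range (d + 1), dpF k j (Om.on x p) = ∑ j ∈ Finset.range (d + k + 1), dpF k j (Om.on x p) := by
      refine Finset.sum_subset (fun j hj => ?_) fun j _ hj => ?_
      · rw [Finset.mem_range] at hj ⊢
        omega
      · rw [Finset.mem_range] at hj
        have h4 : dpO X j x = 0 := Deg_big hX (by omega) (Deg_dp j x)
        have h5 := congrArg (fun θ : Om X => Om.on θ p) h4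
        exact h5
    have h4 : ∑ j ∈ Finset.range (k + 1), dpF k j (Om.on x p) = ∑ j ∈ Finset.range (d + k + 1), dpF k j (Om.on x p) := by
      refine Finset.sum_subset (fun j hj => ?_) fun j _ hj => ?_
      · rw [Finset.mem_range] at hj ⊢
        omega
      · rw [Finset.mem_range] at hj
        exact dpF_big (by omega) _
    rw [h3, h4]
  exact h1

theorem i_zero_of_Deg (c : Circ X) {x : Om X} (h : Deg 0 x) : iO c x = 0 := Om_ext fun k p => by
  rw [on_i, ← Dg_fn (h (k + 1) (c.op p))]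
  have h2 : ∀ f : Cs (k + 1), cs k (fc (k + 1) f) = 0 := fun f => cn_fc _ _
  rw [h2, map_zero, on_zero]

/-- the contraction of a component -/
theorem dp_i (hX : DimLE X d) (c : Circ X) (j : ℕ) (x : Om X) : dpO X j (iO c x) = iO c (dpO X (j + 1) x) := by
  conv_lhs => rw [← dp_sum hX x]
  rw [map_sum, map_sum]
  have h1 : ∀ i, dpO X j (iO c (dpO X i x)) = if i = j + 1 then iO c (dpO X (j + 1) x) else 0 := by
    intro i
    rcases Nat.eq_zero_or_pos i with rfl | hi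
    · rw [if_neg (by omega)]
      have h2 : iO c (dpO X 0 x) = 0 := i_zero_of_Deg c (Deg_dp 0 x)
      rw [h2, map_zero]
    · obtain ⟨i', rfl⟩ : ∃ i', i = i' + 1 := ⟨i - 1, by omega⟩
      have h2 : Deg i' (iO c (dpO X (i' + 1) x)) := Deg_i c (Deg_dp _ x)
      by_cases h3 : i' = j
      · rw [h3, if_pos rfl]
        rw [h3] at h2
        exact dp_same h2
      · rw [if_neg (by omega)]
        exact dp_ne h2 h3
  simp only [h1]
  rw [Finset.sum_ite_eq']
  by_cases h2 : j + 1 ∈ Finset.range (d + 1)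
  · rw [if_pos h2]
  · rw [if_neg h2]
    rw [Finset.mem_range] at h2
    rw [Deg_big hX (by omega) (Deg_dp (j + 1) x), map_zero]

/-- a functional which only sees the top degree kills the forms killed by `ι` -/
theorem I_i_of (hX : DimLE X (d + 1)) (c : Circ X) {η : Om X} (hη : Deg 1 η) (hi : iO c η = 1) {I : Om X →ₗ[ℝ] ℝ}
    (hI : ∀ (j : ℕ) (θ : Om X), Deg j θ → j ≠ d + 1 → I θ = 0) {x : Om X} (hx : iO c x = 0) : I x = 0 := by
  rw [← dp_sum hX x, map_sum]
  refine Finset.sum_eq_zero fun j _ => ?_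
  by_cases hj : j = d + 1
  · subst hj
    have h1 : iO c (dpO X (d + 1) x) = 0 := by rw [← dp_i hX, hx, map_zero]
    have h2 : η * dpO X (d + 1) x = 0 := Deg_big hX (j := 1 + (d + 1)) (by omega) (Deg_mul hη (Deg_dp _ x))
    have h3 := i_mul c η (dpO X (d + 1) x)
    rw [h2, map_zero, hi, one_mul, h1, mul_zero, add_zero] at h3
    rw [← h3, map_zero]
  · exact hI j _ (Deg_dp j x) hj

/-! ### top coefficients -/

theorem topE_mem_ne {a : Ex k} (h : a ∈ ⋀[ℝ]^i (V k)) (hi : i ≠ k) : topE k a = 0 := by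
  rw [← ExteriorAlgebra.ιMulti_span_fixedDegree] at h
  induction h using Submodule.span_induction with
  | mem x hx =>
    obtain ⟨v, rfl⟩ := hx
    exact topE_ιMulti_ne hi v
  | zero => rw [map_zero]
  | add x y _ _ hx hy => rw [map_add, hx, hy, add_zero]
  | smul r x _ hx => rw [map_smul, hx, smul_zero]

variable {n : ℕ} {M : Type} [MetricSpace M] [CompactSpace M] {𝒜 : SDist n M}

theorem Deg_dchi (hB : Bl M) : Deg 1 (dchi 𝒜 hB) := Deg_d (j := 0) fun _ _ => Dg_fc _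

variable [MeasurableSpace M] [BorelSpace M]

/-- `TG` only sees the top degree -/
theorem TG_Deg (hB : Bl M) {Θ : Om (spG 𝒜)} (h : Deg j Θ) (hj : 1 + j ≠ n + n) : TG hB Θ = 0 := by
  rw [TG_apply]
  refine IW_of_dens _ fun z => ?_
  obtain ⟨P, hP⟩ := locPl_Pab 𝒜 (zero_mem_Dab 𝒜 z.2.1 z.2.2)
  unfold dens
  rw [vAt_eq (jW_inj 𝒜) _ P hP]
  have h1 : Deg (1 + j) (dchi 𝒜 hB * (GW hB).pull Θ) := Deg_mul (Deg_dchi hB) (Deg_pull _ h)
  exact topE_mem_ne (Dg_ev (h1 _ P) 0) hj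

/-! ### the functional -/

namespace GeoD

variable {N κ q m : ℕ} {𝒜 : SDist (N + 1) M} {hB : Bl M}

omit [MeasurableSpace M] [BorelSpace M] in
theorem dimG (D : GeoD 𝒜 hB κ m) : DimLE (spG 𝒜) (N + 1 + N) := D.B1.dimLE dimLE_spM

/-- `D → UM` -/
def B3 (D : GeoD 𝒜 hB (q + 1) m) (hq : 1 ≤ q) : SBun q (spD 𝒜) (spG 𝒜) := bK hB D.hk D.hL D.Deg_b D.orV hq

omit [MeasurableSpace M] [BorelSpace M] in
theorem dimD (D : GeoD 𝒜 hB (q + 1) m) (hq : 1 ≤ q) : DimLE (spD 𝒜) (N + 1 + N + q) := (D.B3 hq).dimLE D.dimG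

/-- **the integral over `D`** -/
def IX (D : GeoD 𝒜 hB (q + 1) m) (hq : 1 ≤ q) : Om (spD 𝒜) →ₗ[ℝ] ℝ where
  toFun x := TG hB ((D.B3 hq).PI x)
  map_add' x y := by rw [SBun.PI_add, map_add]
  map_smul' r x := by rw [SBun.PI_smul, map_smul, RingHom.id_apply]

theorem IX_apply (D : GeoD 𝒜 hB (q + 1) m) (hq : 1 ≤ q) (x : Om (spD 𝒜)) : D.IX hq x = TG hB ((D.B3 hq).PI x) := rfl

theorem IX_d (D : GeoD 𝒜 hB (q + 1) m) (hq : 1 ≤ q) (x : Om (spD 𝒜)) : D.IX hq (dO _ x) = 0 := by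
  have h1 := (D.B3 hq).PI_d x
  have h2 : TG hB ((-1 : ℝ) ^ q • (D.B3 hq).PI (dO _ x)) = 0 := by rw [← h1, TG_d]
  rw [map_smul, smul_eq_mul] at h2
  exact (mul_eq_zero.1 h2).resolve_left (pow_ne_zero _ (by norm_num))

theorem IX_Deg (D : GeoD 𝒜 hB (q + 1) m) (hq : 1 ≤ q) {j : ℕ} {x : Om (spD 𝒜)} (h : Deg j x) (hj : j ≠ N + 1 + N + q) :
    D.IX hq x = 0 := by
  rw [IX_apply]
  by_cases h1 : j < q
  · rw [(D.B3 hq).PI_low h h1, map_zero]
  · obtain ⟨i, rfl⟩ : ∃ i, j = i + q := ⟨j - q, by omega⟩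
    exact TG_Deg hB ((D.B3 hq).Deg_PI h) (by omega)

/-- `IX x = 0` if `ι x = 0` -/
theorem IX_i (D : GeoD 𝒜 hB (q + 1) m) (hq : 1 ≤ q) (c : Circ (spD 𝒜)) {η : Om (spD 𝒜)} (hη : Deg 1 η) (hi : iO c η = 1)
    {x : Om (spD 𝒜)} (hx : iO c x = 0) : D.IX hq x = 0 := by
  have h1 : N + 1 + N + q = (N + N + q) + 1 := by omega
  have h2 := D.dimD hq
  rw [h1] at h2
  exact I_i_of h2 c hη hi (fun j θ h h3 => D.IX_Deg hq h (by omega)) hx

end GeoD

end Pool.Agent.Lib.MP_ccbbf6_gt.L5
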