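import Pool.Agent.Lib.MP_ccbbf6_gt.L5.COH3
import Pool.Agent.Lib.MP_ccbbf6_gt.L5.COH5
import Pool.Agent.Lib.MP_ccbbf6_gt.L5.RGI

/-!
# Level 6, FRE: freeness on the `ρ` side (helper67)

`GeoD.TG_psi`: `|TG (ψ x^m y^(m-1))| = eps²`; `GeoD.free`: `ε² x^m y^(m-1)` is not basic exact on `D`.
-/

set_option autoImplicit false
set_option maxSynthPendingDepth 3

open Set Filter Topology Metric Real Module
open scoped ContDiff RealInnerProductSpace

noncomputable section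

namespace Pool.Agent.Lib.MP_ccbbf6_gt.L5

open Geo L4 L4.FR L4.ORI

variable {N κ q m : ℕ} {M : Type} [MetricSpace M] [CompactSpace M] {𝒜 : SDist (N + 1) M} {hB : Bl M}

namespace CohD

variable {MM G F : Space} (D : CohD N κ m MM G F)

include D in
/-- forms of high degree on `F` vanish -/
theorem F_big {d j : ℕ} (hG : DimLE G d) {a : Om F} (h : Deg j a) (hj : d < κ + j) : a = 0 := by
  rw [← D.PIV_psi a]
  have h1 : D.psi * D.g.pull a = 0 := Deg_big hG (j := κ + j) hj (Deg_mul D.Deg_psi (Deg_pull _ h))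
  rw [h1]
  have h2 := D.bV.PI_smul (0 : ℝ) 0
  rw [zero_smul, zero_smul] at h2
  exact h2

theorem comm_xy : Commute D.x D.y := even_comm' D.sx D.y

theorem x_pow_zero {i : ℕ} (hi : m < i) : D.x ^ i = 0 := by
  obtain ⟨j, rfl⟩ : ∃ j, i = (m + 1) + j := ⟨i - (m + 1), by omega⟩
  rw [pow_add, D.x_def, ← map_pow, D.un, map_zero, zero_mul]

/-- `x^m Q_m = x^m y^(m-1)` -/
theorem xm_Q : D.x ^ m * Q m D.x D.y = D.x ^ m * D.y ^ (m - 1) := by
  have hm := D.two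
  unfold Q
  rw [Finset.mul_sum, Finset.sum_eq_single_of_mem 0 (by simp)]
  · rw [pow_zero, one_mul, Finset.mul_sum, Finset.sum_eq_single_of_mem (m - 1) (by simp; omega)]
    · have h1 : m - 0 - 1 - (m - 1) = 0 := by omega
      rw [h1, pow_zero, mul_one]
    · intro i hi hne
      have hi' : i < m := by simpa using hi
      have h2 : D.y ^ i * D.x ^ (m - 0 - 1 - i) = D.x ^ (m - 0 - 1 - i) * D.y ^ i :=
        ((D.comm_xy.pow_pow _ _).eq).symm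
      rw [h2, ← mul_assoc, ← pow_add, D.x_pow_zero (by omega), zero_mul]
  · intro j hj hne
    rw [← mul_assoc, ← pow_add, D.x_pow_zero (by omega), zero_mul]

end CohD

variable [MeasurableSpace M] [BorelSpace M]

namespace GeoD

section one

variable (D : GeoD 𝒜 hB κ m)

/-- **the integral of `ψ x^m y^(m-1)`** -/
theorem TG_psi {p : M} {ψ : Om (spR (N + 1))} {Bf : Fm (N + 1)} (hc : ConcD 𝒜 hB κ m p ψ Bf D.u) :
    |TG hB (D.coh.psi * (D.coh.x ^ m * D.coh.y ^ (m - 1)))| = D.coh.eps ^ 2 := by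
  obtain ⟨σ, ξ, hσ, hξ, -, e1, dσ, Pσ⟩ := D.coh.exists_sig
  have hm : (0 : ℝ) < m + 1 := by positivity
  have h1 := D.hfub hc hσ (a := D.coh.u ^ m) (by
    have h2 := Deg_pow D.coh.Du m
    rw [← D.coh.dim] at h2
    exact h2) (by rw [dσ, map_pow, ← D.coh.x_def]) Pσ
  have h2 : D.coh.x ^ m * D.coh.g.pull ξ = 0 := by
    have h3 : D.coh.x ^ m * D.coh.g.pull ξ = D.coh.g.pull (D.coh.p1.pull D.coh.u ^ m * ξ) := by
      rw [map_mul, map_pow, D.coh.g_p1, ← D.coh.x_def]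
    have h4 : Deg (N + 1 + N) (D.coh.p1.pull D.coh.u ^ m * ξ) := by
      refine Deg_mul ?_ hξ
      have h5 := Deg_pow (Deg_pull D.coh.p1 D.coh.Du) m
      rw [← D.coh.dim] at h5
      exact h5
    have hκ := D.hκ
    rw [h3, D.coh.F_big D.dimG h4 (by omega), map_zero]
  have hxe : sO _ (D.coh.x ^ m) = D.coh.x ^ m := by rw [map_pow, D.coh.sx]
  have h3 : (m + 1 : ℝ) • (D.coh.x ^ m * σ) = -(D.coh.psi * (D.coh.x ^ m * D.coh.y ^ (m - 1))) := by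
    rw [← mul_smul_comm, e1, mul_sub, h2, zero_sub, ← D.coh.xm_Q, ← mul_assoc, even_comm' hxe D.coh.psi, mul_assoc]
  have h4 : TG hB (D.coh.psi * (D.coh.x ^ m * D.coh.y ^ (m - 1))) = -((m + 1 : ℝ) * TG hB (D.coh.x ^ m * σ)) := by
    have h5 := congrArg (TG hB) h3
    rw [map_smul, map_neg, smul_eq_mul] at h5
    linarith
  rw [h4, abs_neg, abs_mul, h1, abs_neg, abs_div, abs_of_pos hm, ← sq_abs D.coh.eps]
  field_simp

end one

variable (D : GeoD 𝒜 hB (q + 1) m)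

/-- **Freeness.** -/
theorem free {p : M} {ψ : Om (spR (N + 1))} {Bf : Fm (N + 1)} (hcc : ConcD 𝒜 hB (q + 1) m p ψ Bf D.u) (hq : 1 ≤ q)
    {c : Circ (spD 𝒜)} {η : Om (spD 𝒜)} (hη : Deg 1 η) (hi : iO c η = 1) (hid : iO c (dO _ η) = 0)
    {ε β w : Om (spD 𝒜)} (Dε : Deg q ε) (bε : Bas c ε) (dε : dO _ ε = 0) (bβ : Bas c β) (bw : Bas c w) {s cK : ℝ}
    (hs : s ≠ 0) (hK : (D.B3 hq).PI ε = algebraMap ℝ _ cK) (h0 : cK ≠ 0)
    (R1 : dO _ η * ε = s • ((D.B3 hq).pi.pull D.coh.x - (D.B3 hq).pi.pull D.coh.y) + dO _ β)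
    (b1 : Bas c ((D.B3 hq).pi.pull D.coh.x)) (b2 : Bas c ((D.B3 hq).pi.pull D.coh.y)) :
    ε * ε * ((D.B3 hq).pi.pull D.coh.x ^ m * (D.B3 hq).pi.pull D.coh.y ^ (m - 1)) ≠ dO _ w := by
  intro hcon
  obtain ⟨Ξ, hΞ⟩ : ∃ Ξ, Ξ = (D.B3 hq).pi.pull D.coh.x ^ m * (D.B3 hq).pi.pull D.coh.y ^ (m - 1) := ⟨_, rfl⟩
  obtain ⟨Ξ0, hΞ0⟩ : ∃ Ξ0, Ξ0 = D.coh.x ^ m * D.coh.y ^ (m - 1) := ⟨_, rfl⟩
  have hΞΞ : Ξ = (D.B3 hq).pi.pull Ξ0 := by rw [hΞ, hΞ0, map_mul, map_pow, map_pow]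
  rw [← hΞ] at hcon
  have bΞ : Bas c Ξ := by rw [hΞ]; exact Bas_mul c (Bas_pow c b1 m) (Bas_pow c b2 (m - 1))
  have dpow : ∀ {a : Om (spG 𝒜)} (k : ℕ), dO _ a = 0 → dO _ (a ^ k) = 0 := by
    intro a k ha
    induction k with
    | zero => rw [pow_zero, d_one]
    | succ k ih => rw [pow_succ, d_mul, ih, ha, zero_mul, mul_zero, add_zero]
  have dΞ0 : dO _ Ξ0 = 0 := by
    rw [hΞ0, d_mul, dpow m D.coh.dx, dpow (m - 1) D.coh.dy, zero_mul, mul_zero, add_zero]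
  -- the first computation
  have e1 : D.IX hq (η * (ε * ε * Ξ)) = 0 := by
    rw [hcon]
    have h1 := D.IX_d hq (η * w)
    have h2 : sO _ η = -η := Deg_odd (j := 0) hη
    rw [d_mul, h2, map_add] at h1
    have h3 : D.IX hq (dO _ η * w) = 0 := D.IX_i hq c hη hi (by rw [i_mul, hid, zero_mul, Bas_i c bw, mul_zero, add_zero])
    rw [h3, zero_add, neg_mul, map_neg, neg_eq_zero] at h1
    exact h1
  -- the primitive of the right degree
  obtain ⟨β', hβ'⟩ : ∃ β', β' = dpO (spD 𝒜) (q + 1) β := ⟨_, rfl⟩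
  have iβ' : iO c β' = 0 := by
    rw [hβ', ← dp_i (D.dimD hq), Bas_i c bβ, map_zero]
  have Dβ' : Deg (q + 1) β' := by rw [hβ']; exact Deg_dp _ _
  have hD2 : Deg (q + 2) (dO _ η * ε) := by
    have h1 := Deg_mul (Deg_d hη) Dε
    have h2 : 1 + 1 + q = q + 2 := by omega
    rwa [h2] at h1
  have hD3 : Deg (q + 2) (s • ((D.B3 hq).pi.pull D.coh.x - (D.B3 hq).pi.pull D.coh.y)) :=
    Deg_smul _ (Deg_sub (Deg_pull _ D.coh.Deg_x) (Deg_pull _ D.coh.Deg_y))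
  have dβ' : dO _ β' = dO _ η * ε - s • ((D.B3 hq).pi.pull D.coh.x - (D.B3 hq).pi.pull D.coh.y) := by
    have h1 : dO _ β = dO _ η * ε - s • ((D.B3 hq).pi.pull D.coh.x - (D.B3 hq).pi.pull D.coh.y) := by
      rw [R1, add_sub_cancel_left]
    rw [hβ', ← dp_d, h1]
    exact dp_same (Deg_sub hD2 hD3)
  obtain ⟨θ, hθ⟩ : ∃ θ, θ = η * ε - β' + s • (D.B3 hq).pi.pull D.coh.psi := ⟨_, rfl⟩
  have Dθ : Deg (q + 1) θ := by
    rw [hθ]
    refine Deg_add (Deg_sub ?_ Dβ') (Deg_smul _ (Deg_pull _ D.coh.Deg_psi))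
    have h1 := Deg_mul hη Dε
    rwa [Nat.add_comm 1 q] at h1
  have dθ : dO _ θ = 0 := by
    rw [hθ, map_add, map_sub, d_mul, dε, mul_zero, add_zero, dβ', map_smul, pull_d, D.coh.d_psi, map_sub, smul_sub,
      smul_sub]
    abel
  -- the second computation
  have e2 : η * (ε * ε * Ξ) = θ * ε * Ξ + β' * (ε * Ξ) - s • ((D.B3 hq).pi.pull D.coh.psi * (ε * Ξ)) := by
    rw [hθ]
    simp only [add_mul, sub_mul, smul_mul_assoc, mul_assoc]
    abel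
  have e3 : D.IX hq (θ * ε * Ξ) = 0 := by
    rw [IX_apply, hΞΞ, (D.B3 hq).PI_mulr]
    have h1 : Deg (q + 1) ((D.B3 hq).PI (θ * ε)) := (D.B3 hq).Deg_PI (Deg_mul Dθ Dε)
    have h2 : dO _ ((D.B3 hq).PI (θ * ε)) = 0 := by
      rw [(D.B3 hq).PI_d, d_mul, dθ, dε, zero_mul, mul_zero, add_zero]
      have h3 := (D.B3 hq).PI_smul (0 : ℝ) 0
      rw [zero_smul, zero_smul] at h3
      rw [h3, smul_zero]
    obtain ⟨ζ, -, hζ⟩ := D.coh.H3_exact h1 le_rfl h2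
    have h3 := TG_d hB (ζ * Ξ0)
    rw [d_mul, dΞ0, mul_zero, add_zero, ← hζ] at h3
    exact h3
  have e4 : D.IX hq (β' * (ε * Ξ)) = 0 := D.IX_i hq c hη hi (by
    rw [i_mul, iβ', zero_mul, zero_add, i_mul, Bas_i c bε, Bas_i c bΞ, zero_mul, mul_zero, add_zero, mul_zero])
  have e5 : |D.IX hq ((D.B3 hq).pi.pull D.coh.psi * (ε * Ξ))| = |cK| * D.coh.eps ^ 2 := by
    rw [IX_apply, hΞΞ, (D.B3 hq).PI_mul, (D.B3 hq).PI_mulr, hK, ← Algebra.smul_def, mul_smul_comm, map_smul, smul_eq_mul,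
      abs_mul]
    congr 1
    have h1 : ∀ k : ℕ, (sO (spG 𝒜))^[k] D.coh.psi = D.coh.psi ∨ (sO (spG 𝒜))^[k] D.coh.psi = -D.coh.psi := by
      intro k
      induction k with
      | zero => exact Or.inl rfl
      | succ k ih =>
        rw [Function.iterate_succ_apply']
        rcases ih with ih | ih
        · rw [ih, D.coh.s_psi]; exact Or.inr rfl
        · rw [ih, map_neg, D.coh.s_psi, neg_neg]; exact Or.inl rfl
    have h2 := D.TG_psi hcc
    rw [← hΞ0] at h2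
    rcases h1 q with h3 | h3
    · rw [h3]; exact h2
    · rw [h3, neg_mul, map_neg, abs_neg]; exact h2
  rw [e2, map_sub, map_add, e3, e4, add_zero, zero_sub, map_smul, neg_eq_zero, smul_eq_mul] at e1
  have e6 := (mul_eq_zero.1 e1).resolve_left hs
  rw [e6, abs_zero] at e5
  have e7 : D.coh.eps ≠ 0 := D.coh.eps0
  have e8 : |cK| * D.coh.eps ^ 2 ≠ 0 := mul_ne_zero (abs_ne_zero.2 h0) (pow_ne_zero _ e7)
  exact e8 e5.symm

end GeoD

end Pool.Agent.Lib.MP_ccbbf6_gt.L5
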