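import Pool.Agent.Lib.MP_ccbbf6_gt.L4.Cmp

/-!
# Level 6, FRF: the algebra of the `ρ` side (helper67)

`A` = basic cohomology with `l`, `e`, `u₁`, `u₂`: `h_m(u₁, u₂) = 0`, `u₁^(m+1) = 0`, `l e = s (u₁ - u₂)`,
`e² = t l^q + r (u₁ + u₂) l^(q/2-1)` and `e² u₁^m u₂^(m-1) ≠ 0`.

`red` : there is an ideal `I` which contains every `F` with `l F = 0`, and modulo which `u₁ = u₂ = u`, `l e = 0`,
`e² = t l^q + 2 r u l^(q/2-1)`, `u^m = 0`, `l^q u^(m-1) ≠ 0`.
`ext_e`, `ext_l`, `ext_l0`, `ext_l8` : extraction of coefficients in such a ring.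
-/

set_option autoImplicit false

open Finset

namespace Pool.Agent.Lib.MP_ccbbf6_gt.L5.FR6

open L4

variable {A : Type*} [CommRing A]

/-- `(u₁ - u₂) Ψ = 2 u₁ Q_m - m h_m` -/
theorem psi_spec (m : ℕ) (a b : A) :
    (a - b) * ∑ p ∈ range m, (((p + 1) * (m - p) : ℕ) : A) * (a ^ p * b ^ (m - 1 - p)) =
      2 * (a * Qm m a b) - (m : A) * hm m a b := by
  have h1 : a * Qm m a b = ∑ p ∈ range (m + 1), (p : A) * (a ^ p * b ^ (m - p)) := by
    unfold Qm
    rw [mul_sum]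
    have h2 : ∀ j ∈ range (m + 1), a * (a ^ j * ∑ i ∈ range (m - j), b ^ i * a ^ (m - j - 1 - i)) =
        ∑ i ∈ range (m + 1), if i < m - j then a ^ (m - i) * b ^ i else 0 := by
      intro j hj
      have hj' := mem_range.1 hj
      rw [mul_sum, mul_sum, ← sum_filter]
      have h3 : (range (m + 1)).filter (fun i => i < m - j) = range (m - j) := by
        ext i
        simp only [mem_filter, mem_range]
        omega
      rw [h3]
      refine sum_congr rfl fun i hi => ?_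
      have hi' := mem_range.1 hi
      have h4 : m - i = 1 + j + (m - j - 1 - i) := by omega
      rw [h4, pow_add, pow_add, pow_one]
      ring
    rw [sum_congr rfl h2, sum_comm]
    have h3 : ∀ i ∈ range (m + 1), (∑ j ∈ range (m + 1), if i < m - j then a ^ (m - i) * b ^ i else 0) =
        ((m - i : ℕ) : A) * (a ^ (m - i) * b ^ i) := by
      intro i hi
      have hi' := mem_range.1 hi
      rw [← sum_filter, sum_const, nsmul_eq_mul]
      congr 2
      have h4 : (range (m + 1)).filter (fun j => i < m - j) = range (m - i) := by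
        ext j
        simp only [mem_filter, mem_range]
        omega
      rw [h4, card_range]
    rw [sum_congr rfl h3, ← sum_range_reflect]
    refine sum_congr rfl fun p hp => ?_
    have hp' := mem_range.1 hp
    have h4 : m - (m + 1 - 1 - p) = p := by omega
    have h5 : m + 1 - 1 - p = m - p := by omega
    rw [h4, h5]
  have h2 : (a - b) * ∑ p ∈ range m, (((p + 1) * (m - p) : ℕ) : A) * (a ^ p * b ^ (m - 1 - p)) =
      (∑ p ∈ range m, (((p + 1) * (m - p) : ℕ) : A) * (a ^ (p + 1) * b ^ (m - (p + 1)))) -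
        ∑ p ∈ range m, (((p + 1) * (m - p) : ℕ) : A) * (a ^ p * b ^ (m - p)) := by
    rw [mul_sum, ← sum_sub_distrib]
    refine sum_congr rfl fun p hp => ?_
    have hp' := mem_range.1 hp
    have h3 : m - (p + 1) = m - 1 - p := by omega
    have h4 : m - p = (m - 1 - p) + 1 := by omega
    have h5 : b ^ (m - p) = b ^ (m - 1 - p) * b := by rw [h4, pow_succ]
    rw [h3, h5, pow_succ]
    ring
  have h3 : (∑ p ∈ range m, (((p + 1) * (m - p) : ℕ) : A) * (a ^ (p + 1) * b ^ (m - (p + 1)))) =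
      ∑ p ∈ range (m + 1), ((p * (m + 1 - p) : ℕ) : A) * (a ^ p * b ^ (m - p)) := by
    rw [sum_range_succ', zero_mul, Nat.cast_zero, zero_mul, add_zero]
    refine sum_congr rfl fun p hp => ?_
    have h4 : m + 1 - (p + 1) = m - p := by omega
    rw [h4]
  have h4 : (∑ p ∈ range m, (((p + 1) * (m - p) : ℕ) : A) * (a ^ p * b ^ (m - p))) =
      ∑ p ∈ range (m + 1), (((p + 1) * (m - p) : ℕ) : A) * (a ^ p * b ^ (m - p)) := by
    rw [sum_range_succ, Nat.sub_self, mul_zero, Nat.cast_zero, zero_mul, add_zero]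
  rw [h2, h3, h4, h1]
  unfold hm
  rw [mul_sum, mul_sum, ← sum_sub_distrib, ← sum_sub_distrib]
  refine sum_congr rfl fun p hp => ?_
  have hp' := mem_range.1 hp
  obtain ⟨r, hr⟩ : ∃ r, m = p + r := ⟨m - p, by omega⟩
  subst hr
  have h5 : p + r + 1 - p = r + 1 := by omega
  have h6 : p + r - p = r := by omega
  rw [h5, h6]
  push_cast
  ring

variable [Algebra ℝ A]

/-- **the reduction** -/
theorem red {m q : ℕ} (hm1 : 1 ≤ m) {l e u1 u2 : A} {s t r : ℝ} (hs : s ≠ 0) (h0 : hm m u1 u2 = 0)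
    (p1 : u1 ^ (m + 1) = 0) (R1 : l * e = s • (u1 - u2)) (R2 : e ^ 2 = t • l ^ q + r • ((u1 + u2) * l ^ (q / 2 - 1)))
    (X2 : e ^ 2 * (u1 ^ m * u2 ^ (m - 1)) ≠ 0) :
    ∃ I : Ideal A, (∀ F, l * F = 0 → F ∈ I) ∧ u1 - u2 ∈ I ∧ l * e ∈ I ∧
      e ^ 2 - (t • l ^ q + (2 * r) • (u1 * l ^ (q / 2 - 1))) ∈ I ∧ u1 ^ m ∈ I ∧ l ^ q * u1 ^ (m - 1) ∉ I := by
  obtain ⟨Ξ, hΞ⟩ : ∃ Ξ, Ξ = u1 * Qm m u1 u2 := ⟨_, rfl⟩
  have e1 : (u1 - u2) * Ξ = 0 := by
    have h1 := Qm_spec m u1 u2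
    rw [h0] at h1
    rw [hΞ]
    linear_combination (-u1) * h1 + (m + 1 : ℕ) * p1
  have e2 : u1 ^ m * Ξ = 0 := by
    rw [hΞ, ← mul_assoc, ← pow_succ, p1, zero_mul]
  have e3 : u1 ^ (m - 1) * Ξ = u1 ^ m * u2 ^ (m - 1) := by
    rw [hΞ, ← mul_assoc, ← pow_succ, Nat.sub_add_cancel hm1]
    exact Qm_mul hm1 p1
  have e4 : ∀ F, l * F = 0 → F * Ξ = 0 := by
    intro F hF
    have h1 : (u1 - u2) * F = 0 := by
      have h2 : s • ((u1 - u2) * F) = 0 := by
        rw [← smul_mul_assoc, ← R1, mul_comm l e, mul_assoc, hF, mul_zero]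
      exact (smul_eq_zero.1 h2).resolve_left hs
    have h2 := psi_spec m u1 u2
    rw [h0, mul_zero, sub_zero, ← hΞ] at h2
    replace h2 : (u1 - u2) * F * ∑ p ∈ range m, (((p + 1) * (m - p) : ℕ) : A) * (u1 ^ p * u2 ^ (m - 1 - p)) = 2 * Ξ * F := by
      rw [← h2]
      ring
    rw [h1, zero_mul] at h2
    have h3 : (2 : ℝ) • (F * Ξ) = 0 := by
      rw [Algebra.smul_def, map_ofNat]
      linear_combination -h2
    exact (smul_eq_zero.1 h3).resolve_left two_ne_zero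
  refine ⟨LinearMap.ker (LinearMap.toSpanSingleton A A Ξ), ?_, ?_, ?_, ?_, ?_, ?_⟩
  · intro F hF
    rw [LinearMap.mem_ker, LinearMap.toSpanSingleton_apply, smul_eq_mul]
    exact e4 F hF
  · rw [LinearMap.mem_ker, LinearMap.toSpanSingleton_apply, smul_eq_mul]
    exact e1
  · rw [LinearMap.mem_ker, LinearMap.toSpanSingleton_apply, smul_eq_mul, R1, smul_mul_assoc, e1, smul_zero]
  · rw [LinearMap.mem_ker, LinearMap.toSpanSingleton_apply, smul_eq_mul, R2]
    have h1 : (u1 + u2) * Ξ = 2 * (u1 * Ξ) := by linear_combination -e1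
    have h2 : (t • l ^ q + r • ((u1 + u2) * l ^ (q / 2 - 1)) - (t • l ^ q + (2 * r) • (u1 * l ^ (q / 2 - 1)))) * Ξ =
        r • (((u1 + u2) * Ξ - 2 * (u1 * Ξ)) * l ^ (q / 2 - 1)) := by
      simp only [Algebra.smul_def, map_mul, map_ofNat]
      ring
    rw [h2, h1, sub_self, zero_mul, smul_zero]
  · rw [LinearMap.mem_ker, LinearMap.toSpanSingleton_apply, smul_eq_mul]
    exact e2
  · rw [LinearMap.mem_ker, LinearMap.toSpanSingleton_apply, smul_eq_mul]
    intro h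
    have h3 : l ^ q * (u1 ^ m * u2 ^ (m - 1)) = 0 := by rw [← e3, ← mul_assoc]; exact h
    refine X2 ?_
    have h4 : u1 ^ m * u2 ^ m = 0 := by
      have h5 : u1 ^ m * hm m u1 u2 = u1 ^ m * u2 ^ m := by
        unfold hm
        rw [mul_sum, sum_range_succ']
        have h6 : ∀ j ∈ range m, u1 ^ m * (u1 ^ (j + 1) * u2 ^ (m - (j + 1))) = 0 := by
          intro j _
          have h7 : u1 ^ m * (u1 ^ (j + 1) * u2 ^ (m - (j + 1))) = u1 ^ (m + 1) * (u1 ^ j * u2 ^ (m - (j + 1))) := by ring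
          rw [h7, p1, zero_mul]
        rw [sum_eq_zero h6, zero_add, pow_zero, one_mul, Nat.sub_zero]
      rw [← h5, h0, mul_zero]
    have h5 : (u1 + u2) * (u1 ^ m * u2 ^ (m - 1)) = 0 := by
      have h6 : (u1 + u2) * (u1 ^ m * u2 ^ (m - 1)) = u1 ^ (m + 1) * u2 ^ (m - 1) + u1 ^ m * u2 ^ (m - 1 + 1) := by ring
      rw [h6, Nat.sub_add_cancel hm1, p1, h4, zero_mul, add_zero]
    rw [R2]
    have h6 : (t • l ^ q + r • ((u1 + u2) * l ^ (q / 2 - 1))) * (u1 ^ m * u2 ^ (m - 1)) =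
        t • (l ^ q * (u1 ^ m * u2 ^ (m - 1))) + r • (((u1 + u2) * (u1 ^ m * u2 ^ (m - 1))) * l ^ (q / 2 - 1)) := by
      simp only [Algebra.smul_def]
      ring
    rw [h6, h3, h5, zero_mul, smul_zero, smul_zero, add_zero]

/-! ### extraction of coefficients -/

variable {m q : ℕ} {l e u : A} {t r : ℝ}

theorem le2 (he : l * e = 0) (h2 : e ^ 2 = t • l ^ q + (2 * r) • (u * l ^ (q / 2 - 1))) (hq : 4 ≤ q) (ht : t ≠ 0) :
    l ^ (q + 1) = -(2 * r / t) • (u * l ^ (q / 2)) := by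
  have h3 : l * e ^ 2 = 0 := by
    rw [pow_two, ← mul_assoc, he, zero_mul]
  rw [h2, mul_add, mul_smul_comm, mul_smul_comm, ← pow_succ', mul_left_comm, ← pow_succ'] at h3
  have h4 : q / 2 - 1 + 1 = q / 2 := by omega
  rw [h4] at h3
  have h5 : t • l ^ (q + 1) = -((2 * r) • (u * l ^ (q / 2))) := eq_neg_of_add_eq_zero_left h3
  calc l ^ (q + 1) = t⁻¹ • (t • l ^ (q + 1)) := by rw [smul_smul, inv_mul_cancel₀ ht, one_smul]
    _ = _ := by
      rw [h5, smul_neg, smul_smul, neg_smul]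
      congr 2
      field_simp

/-- the coefficient of `e u^(m-1)` -/
theorem ext_e (he : l * e = 0) (h2 : e ^ 2 = t • l ^ q + (2 * r) • (u * l ^ (q / 2 - 1))) (hm1 : 1 ≤ m) (hu : u ^ m = 0)
    (ht : t ≠ 0) (hne : l ^ q * u ^ (m - 1) ≠ 0) {α : ℝ} {G : A} (h : α • (e * u ^ (m - 1)) + l * G = 0) : α = 0 := by
  have h3 : e * (α • (e * u ^ (m - 1)) + l * G) = (α * t) • (l ^ q * u ^ (m - 1)) := by
    have h4 : e * (α • (e * u ^ (m - 1)) + l * G) = α • (e ^ 2 * u ^ (m - 1)) + (l * e) * G := by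
      simp only [Algebra.smul_def]
      ring
    have h5 : u * u ^ (m - 1) = 0 := by rw [← pow_succ', Nat.sub_add_cancel hm1, hu]
    rw [h4, he, zero_mul, add_zero, h2]
    have h6 : (t • l ^ q + (2 * r) • (u * l ^ (q / 2 - 1))) * u ^ (m - 1) =
        t • (l ^ q * u ^ (m - 1)) + (2 * r) • ((u * u ^ (m - 1)) * l ^ (q / 2 - 1)) := by
      simp only [Algebra.smul_def]
      ring
    rw [h6, h5, zero_mul, smul_zero, add_zero, smul_smul]
  rw [h, mul_zero] at h3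
  have h4 := (smul_eq_zero.1 h3.symm).resolve_right hne
  exact (mul_eq_zero.1 h4).resolve_right ht

/-- multiplication with `l^(q-a) + ρ u l^(q/2-1-a)` -/
theorem ext_l8 (he : l * e = 0) (h2 : e ^ 2 = t • l ^ q + (2 * r) • (u * l ^ (q / 2 - 1))) (hm1 : 1 ≤ m) (hu : u ^ m = 0)
    (ht : t ≠ 0) (hq : 4 ≤ q) (hqe : Even q) {a : ℕ} (ha : a + 1 ≤ q / 2) (f : ℕ → ℝ) {G : A}
    (h : ∑ i ∈ range m, f i • (l ^ (a + i * (q / 2 + 1)) * u ^ (m - 1 - i)) + e * G = 0) :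
    f 0 • (l ^ q * u ^ (m - 1)) + (2 * r / t) • (e * G * (u * l ^ (q / 2 - 1 - a))) = 0 := by
  obtain ⟨c, hc⟩ := hqe
  have hc2 : q / 2 = c := by omega
  obtain ⟨ρ, hρ⟩ : ∃ ρ, ρ = 2 * r / t := ⟨_, rfl⟩
  have hL := le2 he h2 hq ht
  rw [← hρ] at hL ⊢
  rw [hc2] at hL h ha ⊢
  have h3 : (∑ i ∈ range m, f i • (l ^ (a + i * (c + 1)) * u ^ (m - 1 - i))) * (l ^ (q - a) + ρ • (u * l ^ (c - 1 - a))) =
      f 0 • (l ^ q * u ^ (m - 1)) := by
    rw [sum_mul, sum_eq_single_of_mem 0 (mem_range.2 hm1)]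
    · have h4 : a + 0 * (c + 1) = a := by ring
      have h5 : l ^ a * l ^ (q - a) = l ^ q := by rw [← pow_add]; congr 1; omega
      have h6 : u ^ (m - 1) * u = 0 := by rw [← pow_succ, Nat.sub_add_cancel hm1, hu]
      rw [h4, Nat.sub_zero]
      have h7 : f 0 • (l ^ a * u ^ (m - 1)) * (l ^ (q - a) + ρ • (u * l ^ (c - 1 - a))) =
          f 0 • ((l ^ a * l ^ (q - a)) * u ^ (m - 1)) + (f 0 * ρ) • ((u ^ (m - 1) * u) * (l ^ a * l ^ (c - 1 - a))) := by
        simp only [Algebra.smul_def, map_mul]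
        ring
      rw [h7, h5, h6, zero_mul, smul_zero, add_zero]
    · intro i hi hi0
      have hi' := mem_range.1 hi
      obtain ⟨j, rfl⟩ : ∃ j, i = j + 1 := ⟨i - 1, by omega⟩
      have h4 : l ^ (a + (j + 1) * (c + 1)) * l ^ (q - a) = l ^ (q + 1) * l ^ (j * (c + 1) + c) := by
        rw [← pow_add, ← pow_add]
        congr 1
        have h5 : (j + 1) * (c + 1) = j * (c + 1) + c + 1 := by ring
        omega
      have h5 : l ^ (a + (j + 1) * (c + 1)) * l ^ (c - 1 - a) = l ^ c * l ^ (j * (c + 1) + c) := by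
        rw [← pow_add, ← pow_add]
        congr 1
        have h5 : (j + 1) * (c + 1) = j * (c + 1) + c + 1 := by ring
        omega
      have h6 : f (j + 1) • (l ^ (a + (j + 1) * (c + 1)) * u ^ (m - 1 - (j + 1))) * (l ^ (q - a) + ρ • (u * l ^ (c - 1 - a))) =
          f (j + 1) • ((l ^ (a + (j + 1) * (c + 1)) * l ^ (q - a)) * u ^ (m - 1 - (j + 1)) +
            ρ • ((l ^ (a + (j + 1) * (c + 1)) * l ^ (c - 1 - a)) * (u * u ^ (m - 1 - (j + 1))))) := by
        simp only [Algebra.smul_def]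
        ring
      rw [h6, h4, h5, hL]
      have h7 : (-ρ • (u * l ^ c) * l ^ (j * (c + 1) + c)) * u ^ (m - 1 - (j + 1)) +
          ρ • ((l ^ c * l ^ (j * (c + 1) + c)) * (u * u ^ (m - 1 - (j + 1)))) = 0 := by
        simp only [Algebra.smul_def, map_neg]
        ring
      rw [h7, smul_zero]
  have h4 : e * G * (l ^ (q - a) + ρ • (u * l ^ (c - 1 - a))) = ρ • (e * G * (u * l ^ (c - 1 - a))) := by
    obtain ⟨d, hd⟩ : ∃ d, q - a = d + 1 := ⟨q - a - 1, by omega⟩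
    have h5 : e * G * (l ^ (q - a) + ρ • (u * l ^ (c - 1 - a))) =
        (l * e) * (G * l ^ d) + ρ • (e * G * (u * l ^ (c - 1 - a))) := by
      rw [hd]
      simp only [Algebra.smul_def]
      ring
    rw [h5, he, zero_mul, zero_add]
  have h5 := congrArg (fun x => x * (l ^ (q - a) + ρ • (u * l ^ (c - 1 - a)))) h
  simp only [add_mul, zero_mul] at h5
  rw [h3, h4] at h5
  exact h5

/-- the coefficient of `l^a u^(m-1)` -/
theorem ext_l (he : l * e = 0) (h2 : e ^ 2 = t • l ^ q + (2 * r) • (u * l ^ (q / 2 - 1))) (hm1 : 1 ≤ m) (hu : u ^ m = 0)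
    (ht : t ≠ 0) (hq : 4 ≤ q) (hqe : Even q) (hne : l ^ q * u ^ (m - 1) ≠ 0) {a : ℕ} (ha : a + 2 ≤ q / 2) (f : ℕ → ℝ) {G : A}
    (h : ∑ i ∈ range m, f i • (l ^ (a + i * (q / 2 + 1)) * u ^ (m - 1 - i)) + e * G = 0) : f 0 = 0 := by
  have h3 := ext_l8 he h2 hm1 hu ht hq hqe (by omega) f h
  obtain ⟨d, hd⟩ : ∃ d, q / 2 - 1 - a = d + 1 := ⟨q / 2 - 1 - a - 1, by omega⟩
  have h4 : e * G * (u * l ^ (q / 2 - 1 - a)) = 0 := by
    have h5 : e * G * (u * l ^ (q / 2 - 1 - a)) = (l * e) * (G * u * l ^ d) := by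
      rw [hd]
      ring
    rw [h5, he, zero_mul]
  rw [h4, smul_zero, add_zero] at h3
  exact (smul_eq_zero.1 h3).resolve_right hne

/-- the coefficient of `l^a u^(m-1)` when `r = 0` -/
theorem ext_l0 (he : l * e = 0) (h2 : e ^ 2 = t • l ^ q) (hm1 : 1 ≤ m) (ht : t ≠ 0)
    (hne : l ^ q * u ^ (m - 1) ≠ 0) {a b : ℕ} (ha : a < q) (hb : 1 ≤ b) (f : ℕ → ℝ) {G : A}
    (h : ∑ i ∈ range m, f i • (l ^ (a + i * b) * u ^ (m - 1 - i)) + e * G = 0) : f 0 = 0 := by
  have hL : l ^ (q + 1) = 0 := by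
    have h3 : l * e ^ 2 = 0 := by rw [pow_two, ← mul_assoc, he, zero_mul]
    rw [h2, mul_smul_comm, ← pow_succ'] at h3
    exact (smul_eq_zero.1 h3).resolve_left ht
  have h3 : (∑ i ∈ range m, f i • (l ^ (a + i * b) * u ^ (m - 1 - i))) * l ^ (q - a) = f 0 • (l ^ q * u ^ (m - 1)) := by
    rw [sum_mul, sum_eq_single_of_mem 0 (mem_range.2 hm1)]
    · have h5 : l ^ a * l ^ (q - a) = l ^ q := by rw [← pow_add]; congr 1; omega
      rw [zero_mul, add_zero, Nat.sub_zero, smul_mul_assoc, mul_right_comm, h5]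
    · intro i hi hi0
      obtain ⟨d, hd⟩ : ∃ d, a + i * b + (q - a) = q + 1 + d := by
        have h4 : 1 ≤ i * b := Nat.mul_pos (Nat.pos_of_ne_zero hi0) hb
        exact ⟨i * b - 1, by omega⟩
      rw [smul_mul_assoc, mul_right_comm, ← pow_add, hd, pow_add, hL, zero_mul, zero_mul, smul_zero]
  have h4 : e * G * l ^ (q - a) = 0 := by
    obtain ⟨d, hd⟩ : ∃ d, q - a = d + 1 := ⟨q - a - 1, by omega⟩
    have h5 : e * G * l ^ (q - a) = (l * e) * (G * l ^ d) := by rw [hd]; ring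
    rw [h5, he, zero_mul]
  have h5 := congrArg (fun x => x * l ^ (q - a)) h
  simp only [add_mul, zero_mul] at h5
  rw [h3, h4, add_zero] at h5
  exact (smul_eq_zero.1 h5).resolve_right hne

end Pool.Agent.Lib.MP_ccbbf6_gt.L5.FR6
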