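import Pool.Agent.Lib.MP_ccbbf6_gt.L5.FRE

/-!
# Level 6, FRG: freeness in the basic cohomology (helper67)
-/

set_option autoImplicit false
set_option maxSynthPendingDepth 3

open Set Filter Topology Metric Real Module
open scoped ContDiff RealInnerProductSpace

noncomputable section

namespace Pool.Agent.Lib.MP_ccbbf6_gt.L5

open Geo L4 L4.FR L4.ORI

section alg

set_option linter.unusedSectionVars false

variable {Z : Type*} [CommRing Z] [Algebra ℝ Z] (I : Ideal Z)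

theorem alG_1 {x1 x2 e : Z} {m : ℕ} (h : Ideal.Quotient.mk I e ^ 2 * (Ideal.Quotient.mk I x1 ^ m *
    Ideal.Quotient.mk I x2 ^ (m - 1)) = 0) : e ^ 2 * (x1 ^ m * x2 ^ (m - 1)) ∈ I := by
  rw [← Ideal.Quotient.eq_zero_iff_mem, map_mul, map_mul, map_pow, map_pow, map_pow, h]

theorem alG_2 {x1 x2 e l : Z} {s : ℝ} (h : Ideal.Quotient.mk I l * Ideal.Quotient.mk I e =
    s • (Ideal.Quotient.mk I x1 - Ideal.Quotient.mk I x2)) : l * e - s • (x1 - x2) ∈ I := by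
  rw [← Ideal.Quotient.eq_zero_iff_mem, map_sub, map_mul, h]
  have h3 : (Ideal.Quotient.mk I) (s • (x1 - x2)) = s • ((Ideal.Quotient.mk I) x1 - (Ideal.Quotient.mk I) x2) := by
    rw [← map_sub]
    rfl
  rw [h3, sub_self]

end alg

variable {N q m : ℕ} {M : Type} [MetricSpace M] [CompactSpace M] {𝒜 : SDist (N + 1) M} {hB : Bl M}
  [MeasurableSpace M] [BorelSpace M]

/-- **Freeness**: `ε² u₁^m u₂^(m-1) ≠ 0` in the basic cohomology -/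
theorem GeoD.free_HE (D : GeoD 𝒜 hB (q + 1) m) {p : M} {ψ : Om (spR (N + 1))} {Bf : Fm (N + 1)}
    (hcc : ConcD 𝒜 hB (q + 1) m p ψ Bf D.u) (hq : 1 ≤ q) {c : Circ (spD 𝒜)} {η : Om (spD 𝒜)} (hη : Deg 1 η)
    (hi : iO c η = 1) (hid : iO c (dO _ η) = 0) {x1 x2 ε lz : (GB c).Zc}
    (h1 : ((x1 : BasR c) : Om (spD 𝒜)) = (D.B3 hq).pi.pull D.coh.x)
    (h2 : ((x2 : BasR c) : Om (spD 𝒜)) = (D.B3 hq).pi.pull D.coh.y)
    (hl : ((lz : BasR c) : Om (spD 𝒜)) = dO _ η) (Dε : Deg q ((ε : BasR c) : Om (spD 𝒜))) {s cK : ℝ} (hs : s ≠ 0)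
    (hK : (D.B3 hq).PI ((ε : BasR c) : Om (spD 𝒜)) = algebraMap ℝ _ cK) (h0 : cK ≠ 0)
    (R1 : Ideal.Quotient.mk (GB c).Ex lz * Ideal.Quotient.mk (GB c).Ex ε =
      s • (Ideal.Quotient.mk (GB c).Ex x1 - Ideal.Quotient.mk (GB c).Ex x2)) :
    Ideal.Quotient.mk (GB c).Ex ε ^ 2 * (Ideal.Quotient.mk (GB c).Ex x1 ^ m * Ideal.Quotient.mk (GB c).Ex x2 ^ (m - 1)) ≠ 0 := by
  intro hcon
  obtain ⟨w, hw⟩ := alG_1 (GB c).Ex hcon
  obtain ⟨b, hb⟩ := alG_2 (GB c).Ex R1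
  have dε : dO _ ((ε : BasR c) : Om (spD 𝒜)) = 0 := congrArg Subtype.val ε.2.2
  refine D.free hcc hq (c := c) hη hi hid (ε := ((ε : BasR c) : Om (spD 𝒜))) (β := (b : Om (spD 𝒜))) (w := (w : Om (spD 𝒜)))
    Dε (BasR_bas c ε.1) dε (BasR_bas c b) (BasR_bas c w) hs hK h0 ?_ ?_ ?_ ?_
  · have h3 := congrArg Subtype.val hb
    have h4 : dO _ (b : Om (spD 𝒜)) = ((lz : BasR c) : Om (spD 𝒜)) * ((ε : BasR c) : Om (spD 𝒜)) -
      s • (((x1 : BasR c) : Om (spD 𝒜)) - ((x2 : BasR c) : Om (spD 𝒜))) := h3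
    rw [h4, hl, h1, h2]
    abel
  · rw [← h1]
    exact BasR_bas c x1.1
  · rw [← h2]
    exact BasR_bas c x2.1
  · have h3 := congrArg Subtype.val hw
    have h4 : dO _ (w : Om (spD 𝒜)) = ((ε : BasR c) : Om (spD 𝒜)) ^ 2 *
      (((x1 : BasR c) : Om (spD 𝒜)) ^ m * ((x2 : BasR c) : Om (spD 𝒜)) ^ (m - 1)) := h3
    rw [h4, h1, h2, pow_two]

end Pool.Agent.Lib.MP_ccbbf6_gt.L5
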