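import Pool.Agent.Lib.MP_ccbbf6_gt.L4.OriE

/-!
# Level 5, G3L (helper78): local lifts of pairs of points at distance `π` to geodesics
-/

set_option autoImplicit false
set_option linter.unusedSectionVars false

open Set Filter Topology Metric Real Module
open scoped ContDiff RealInnerProductSpace

noncomputable section

namespace Pool.Agent.Lib.MP_ccbbf6_gt.L5

open Geo L4 L4.ORI

/-- a continuous solution of a smooth equation with invertible partial derivative is smooth -/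
theorem contDiffAt_of_implicit {E : Type*} [NormedAddCommGroup E] [NormedSpace ℝ E] [CompleteSpace E] {m : ℕ}
    {F : E × Eu m → Eu m} {b : E → Eu m} {u : E} (hF : ContDiffAt ℝ ∞ F (u, b u)) (hb : ContinuousAt b u)
    (hinj : ∀ x : Eu m, fderiv ℝ F (u, b u) (0, x) = 0 → x = 0) (hc : ∀ᶠ v in 𝓝 u, F (v, b v) = F (u, b u)) :
    ContDiffAt ℝ ∞ b u := by
  let T0 : Eu m →L[ℝ] Eu m := (fderiv ℝ F (u, b u)).comp (ContinuousLinearMap.inr ℝ E (Eu m))
  have hT0 : ∀ x, T0 x = fderiv ℝ F (u, b u) (0, x) := fun x => rfl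
  have hinj' : Function.Injective (T0 : Eu m →ₗ[ℝ] Eu m) := by
    rw [injective_iff_map_eq_zero]
    intro x hx
    exact hinj x hx
  let T : Eu m ≃L[ℝ] Eu m := (LinearEquiv.ofInjectiveEndo (T0 : Eu m →ₗ[ℝ] Eu m) hinj').toContinuousLinearEquiv
  have hT : ∀ x, T x = fderiv ℝ F (u, b u) (0, x) := fun x => rfl
  let L : E →L[ℝ] Eu m := (fderiv ℝ F (u, b u)).comp (ContinuousLinearMap.inl ℝ E (Eu m))
  have hL : ∀ s, L s = fderiv ℝ F (u, b u) (s, 0) := fun s => rfl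
  have hsum : ∀ s x, fderiv ℝ F (u, b u) (s, x) = L s + T x := by
    intro s x
    rw [hL, hT, ← map_add]
    simp
  let G : E × Eu m → E × Eu m := fun z => (z.1, F z)
  let G' : (E × Eu m) ≃L[ℝ] (E × Eu m) := ContinuousLinearEquiv.equivOfInverse
    ((ContinuousLinearMap.fst ℝ E (Eu m)).prod (fderiv ℝ F (u, b u)))
    ((ContinuousLinearMap.fst ℝ E (Eu m)).prod ((T.symm : Eu m →L[ℝ] Eu m).comp
      (ContinuousLinearMap.snd ℝ E (Eu m) - L.comp (ContinuousLinearMap.fst ℝ E (Eu m)))))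
    (by
      rintro ⟨s, x⟩
      show (s, T.symm (fderiv ℝ F (u, b u) (s, x) - L s)) = (s, x)
      rw [hsum, add_sub_cancel_left, T.symm_apply_apply])
    (by
      rintro ⟨s, x⟩
      show (s, fderiv ℝ F (u, b u) (s, T.symm (x - L s))) = (s, x)
      rw [hsum, T.apply_symm_apply]
      simp)
  have hG : ContDiffAt ℝ ∞ G (u, b u) := contDiffAt_fst.prodMk hF
  have hGd : HasFDerivAt G (G' : (E × Eu m) →L[ℝ] (E × Eu m)) (u, b u) := by
    have h1 := (hF.differentiableAt (by simp)).hasFDerivAt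
    exact (hasFDerivAt_fst (𝕜 := ℝ) (p := (u, b u))).prodMk h1
  let H := hG.toOpenPartialHomeomorph G hGd (by simp)
  have hHG : ∀ z, H z = G z := fun z => rfl
  have hsrc : (u, b u) ∈ H.source := hG.mem_toOpenPartialHomeomorph_source hGd (by simp)
  have hinv : ContDiffAt ℝ ∞ H.symm (G (u, b u)) := hG.to_localInverse hGd (by simp)
  have h1 : ContDiffAt ℝ ∞ (fun v : E => (H.symm (v, F (u, b u))).2) u := by
    have h2 : ContDiffAt ℝ ∞ (fun v : E => (v, F (u, b u))) u := contDiffAt_id.prodMk contDiffAt_const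
    have h3 : ContDiffAt ℝ ∞ (fun v : E => H.symm (v, F (u, b u))) u := ContDiffAt.comp (g := H.symm) u hinv h2
    exact h3.snd
  refine h1.congr_of_eventuallyEq ?_
  have h2 : ∀ᶠ v in 𝓝 u, (v, b v) ∈ H.source :=
    (continuousAt_id.prodMk hb).eventually (H.open_source.mem_nhds hsrc)
  filter_upwards [h2, hc] with v hv1 hv2
  have h3 : H.symm (H (v, b v)) = (v, b v) := H.left_inv hv1
  rw [hHG] at h3
  have h4 : G (v, b v) = (v, F (u, b u)) := by
    show (v, F (v, b v)) = _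
    rw [hv2]
  rw [h4] at h3
  show b v = (H.symm (v, F (u, b u))).2
  rw [h3]

variable {n : ℕ} {M : Type*} [MetricSpace M] [CompactSpace M] {𝒜 : SDist n M}

theorem DD_ne {x0 y : M} (hy : y ∈ (𝒜.ψ x0).source) {w : Eu n} (hw : w ≠ 0) : DD 𝒜 x0 y w ≠ 0 := by
  intro h
  have := CC_DD 𝒜 hy w
  rw [h, map_zero] at this
  exact hw this.symm

/-- **local lifts**: a smooth family of pairs of points at distance `π` is the family of the end points of a smooth family of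
geodesics, with given value at `u₀` -/
theorem exists_lift {E : Type*} [NormedAddCommGroup E] [NormedSpace ℝ E] [CompleteSpace E] (hB : Bl M) {κ : ℕ} (hk : 𝒜.HK κ)
    {x y : E → M} {u₀ : E} (hx : ∀ᶠ u in 𝓝 u₀, SmAt 𝒜 x u) (hy : ∀ᶠ u in 𝓝 u₀, SmAt 𝒜 y u)
    (hd : ∀ᶠ u in 𝓝 u₀, dist (x u) (y u) = π) {c₀ : Gs M} (h0 : c₀.1 0 = x u₀) (h1 : c₀.1 π = y u₀) :
    ∃ σ : E → Gs M, σ u₀ = c₀ ∧ ∀ᶠ u in 𝓝 u₀, (σ u).1 0 = x u ∧ (σ u).1 π = y u ∧ SmGA 𝒜 σ u := by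
  -- base geodesics
  have hex : ∀ u, ∃ c : Gs M, c.1 0 = x u ∧ (dist (x u) (y u) = π → c.1 π = y u) := by
    intro u
    by_cases h : dist (x u) (y u) = π
    · have hne : x u ≠ y u := dist_pos.mp (by rw [h]; exact Real.pi_pos)
      obtain ⟨g1, g2, g3⟩ := gd_spec 𝒜 hB hne
      rw [h] at g3
      exact ⟨⟨gd (x u) (y u), g1⟩, g2, fun _ => g3⟩
    · obtain ⟨r, hr⟩ : ∃ r, x u ≠ r := by
        by_contra hcon
        push Not at hcon
        have h2 : c₀.1 0 ≠ c₀.1 π := by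
          rw [h0, h1]
          exact dist_pos.mp (by rw [hd.self_of_nhds]; exact Real.pi_pos)
        exact h2 ((hcon _).symm.trans (hcon _))
      obtain ⟨g1, g2, g3⟩ := gd_spec 𝒜 hB hr
      exact ⟨⟨gd (x u) r, g1⟩, g2, fun h' => absurd h' h⟩
  choose c hc0 hcπ using hex
  obtain ⟨x0, hx0⟩ : ∃ z, z = x u₀ := ⟨_, rfl⟩
  obtain ⟨q0, hq0⟩ : ∃ z, z = y u₀ := ⟨_, rfl⟩
  obtain ⟨v0, hv0⟩ : ∃ z, z = 𝒜.vel c₀.1 0 := ⟨_, rfl⟩
  have hv1 : ‖v0‖ = 1 := by rw [hv0]; exact vel_norm 𝒜 c₀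
  have hvne : v0 ≠ 0 := by rw [hv0]; exact vel_ne 𝒜 c₀
  let g : E × Eu n → Gs M := fun z => gw 𝒜 hB (c z.1) (DD 𝒜 x0 (x z.1) z.2)
  let e : E × Eu n → M := fun z => (g z).1 π
  have hxs0 : x u₀ ∈ (𝒜.ψ x0).source := by rw [← hx0]; exact 𝒜.mem _
  have hqs0 : y u₀ ∈ (𝒜.ψ q0).source := by rw [← hq0]; exact 𝒜.mem _
  -- smoothness of the family `g`
  have hg : ∀ u w, SmAt 𝒜 x u → x u ∈ (𝒜.ψ x0).source → w ≠ 0 → SmGA 𝒜 g (u, w) := by
    intro u w hxu hu hw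
    have e1 : (fun z : E × Eu n => (c z.1).1 0) = fun z => x z.1 := funext fun z => hc0 z.1
    have hfst : SmAt 𝒜 (fun z : E × Eu n => x z.1) (u, w) := SmAt.comp (g := x) (f := Prod.fst) hxu contDiffAt_fst
    refine smGA_gw hB (c := fun z : E × Eu n => c z.1) (p := x0) ?_ ?_ ?_ (DD_ne hu hw)
    · rw [e1]; exact hfst
    · show (c u).1 0 ∈ _
      rw [hc0]; exact hu
    · rw [e1]
      show ContDiffAt ℝ ∞ (fun z : E × Eu n => CC 𝒜 x0 (x z.1) (DD 𝒜 x0 (x z.1) z.2)) (u, w)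
      refine (contDiffAt_snd (𝕜 := ℝ) (E := E) (F := Eu n)).congr_of_eventuallyEq ?_
      filter_upwards [hfst.cont.eventually ((𝒜.ψ x0).open_source.mem_nhds hu)] with z hz
      exact CC_DD 𝒜 hz _
  have hev : ∀ u w, SmAt 𝒜 x u → x u ∈ (𝒜.ψ x0).source → w ≠ 0 → SmAt 𝒜 e (u, w) := fun u w h2 h3 h4 => (hg u w h2 h3 h4).at hB π
  -- the spaces `U u`
  let U : E → Submodule ℝ (Eu n) := fun u => (𝒜.PV (x u) (𝒜.vel (c u).1 0)).comap (DD 𝒜 x0 (x u) : Eu n →ₗ[ℝ] Eu n)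
  have hUm : ∀ u w, w ∈ U u ↔ DD 𝒜 x0 (x u) w ∈ 𝒜.PV (x u) (𝒜.vel (c u).1 0) := fun u w => Iff.rfl
  have hUd : ∀ u, x u ∈ (𝒜.ψ x0).source → finrank ℝ (U u) = κ + 1 := by
    intro u hu
    have hinj : Function.Injective (CC 𝒜 x0 (x u) : Eu n →ₗ[ℝ] Eu n) := fun a b hab => by
      have := congrArg (DD 𝒜 x0 (x u)) hab
      rwa [ContinuousLinearMap.coe_coe, DD_CC 𝒜 hu, DD_CC 𝒜 hu] at this
    have h2 : U u = (𝒜.PV (x u) (𝒜.vel (c u).1 0)).map (CC 𝒜 x0 (x u) : Eu n →ₗ[ℝ] Eu n) := by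
      ext w
      rw [hUm, Submodule.mem_map]
      constructor
      · intro h
        exact ⟨_, h, CC_DD 𝒜 hu w⟩
      · rintro ⟨v, hv, rfl⟩
        rw [ContinuousLinearMap.coe_coe, DD_CC 𝒜 hu]
        exact hv
    rw [h2, ← (Submodule.equivMapOfInjective _ hinj _).finrank_eq]
    exact finrank_PV 𝒜 hB hk _ (vel_ne 𝒜 _)
  have hUe : ∀ u, dist (x u) (y u) = π → x u ∈ (𝒜.ψ x0).source → ∀ w, w ≠ 0 → (w ∈ U u ↔ e (u, w) = y u) := by
    intro u hdu hu w hw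
    rw [hUm, mem_PV_iff 𝒜 hB _ (vel_ne 𝒜 _) (DD_ne hu hw)]
    have h2 : e (u, w) = 𝒜.Ex (x u) (rad π (DD 𝒜 x0 (x u) w)) := by
      show (gw 𝒜 hB (c u) (DD 𝒜 x0 (x u) w)).1 π = _
      rw [gw_eq 𝒜 hB _ (DD_ne hu hw), hc0]
    have h3 : y u = 𝒜.Ex (x u) (rad π (𝒜.vel (c u).1 0)) := by
      rw [← hcπ u hdu, gs_Ex 𝒜 hB (c u) π, hc0]
    rw [h2, h3]
  obtain ⟨P, hP⟩ : ∃ P : Eu n →L[ℝ] Eu n, P = (U u₀).starProjection := ⟨_, rfl⟩
  have hPm : ∀ w, P w ∈ U u₀ := fun w => by rw [hP]; exact Submodule.starProjection_apply_mem _ _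
  have hPe : ∀ w ∈ U u₀, P w = w := fun w hw => by rw [hP]; exact Submodule.starProjection_eq_self_iff.2 hw
  have hDD0 : ∀ b, DD 𝒜 x0 (x u₀) b = b := by
    intro b
    have h1 := DD_CC 𝒜 hxs0 b
    rw [← hx0, CC_self] at h1
    rw [← hx0]
    exact h1
  have hdu0 : dist (x u₀) (y u₀) = π := hd.self_of_nhds
  have hvU : v0 ∈ U u₀ := by
    rw [hUm, hDD0, hv0, ← hc0 u₀]
    exact mem_PV_of_top 𝒜 hB (by rw [h0, hc0]) (by rw [h1, hcπ u₀ hdu0])
  -- the compact set of bad directions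
  let K : Set (Eu n) := {w | ‖w‖ = 1 ∧ 1 / 2 ≤ ‖w - P w‖}
  have hKc : IsCompact K := by
    have h2 : IsCompact (sphere (0 : Eu n) 1) := isCompact_sphere _ _
    refine h2.of_isClosed_subset ?_ fun w hw => by simpa using hw.1
    refine IsClosed.inter (isClosed_eq continuous_norm continuous_const) ?_
    exact isClosed_le continuous_const (continuous_norm.comp (continuous_id.sub P.continuous))
  have hK : ∀ᶠ u in 𝓝 u₀, ∀ w ∈ K, e (u, w) ≠ y u := by
    refine hKc.eventually_forall_of_forall_eventually fun w hw => ?_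
    have hw0 : w ≠ 0 := by
      intro h
      have := hw.1
      rw [h, norm_zero] at this
      exact zero_ne_one this
    have h2 : e (u₀, w) ≠ y u₀ := by
      intro h
      have h3 := hPe w ((hUe u₀ hdu0 hxs0 w hw0).2 h)
      have h4 := hw.2
      rw [h3, sub_self, norm_zero] at h4
      norm_num at h4
    have h3 : ContinuousAt e (u₀, w) := (hev u₀ w hx.self_of_nhds hxs0 hw0).cont
    have h4 : ContinuousAt (fun z : E × Eu n => y z.1) (u₀, w) := hy.self_of_nhds.cont.comp continuousAt_fst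
    exact (h3.ne_iff_eventually_ne h4).1 h2
  -- the good parameters
  let Q : E → Prop := fun u => SmAt 𝒜 x u ∧ SmAt 𝒜 y u ∧ dist (x u) (y u) = π ∧ x u ∈ (𝒜.ψ x0).source ∧
    y u ∈ (𝒜.ψ q0).source ∧ ∀ w ∈ K, e (u, w) ≠ y u
  have hQ : ∀ᶠ u in 𝓝 u₀, Q u := by
    filter_upwards [hx, hy, hd, hx.self_of_nhds.cont.eventually ((𝒜.ψ x0).open_source.mem_nhds hxs0),
      hy.self_of_nhds.cont.eventually ((𝒜.ψ q0).open_source.mem_nhds hqs0), hK] with u a1 a2 a3 a4 a5 a6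
    exact ⟨a1, a2, a3, a4, a5, a6⟩
  have hhalf : ∀ u, Q u → ∀ w ∈ U u, ‖w - P w‖ ≤ 1 / 2 * ‖w‖ := by
    intro u hu w hw
    by_cases hw0 : w = 0
    · rw [hw0]; simp
    have hn : 0 < ‖w‖ := norm_pos_iff.2 hw0
    have h2 : ‖w‖⁻¹ • w ≠ 0 := smul_ne_zero (inv_ne_zero hn.ne') hw0
    have h3 : e (u, ‖w‖⁻¹ • w) = y u := (hUe u hu.2.2.1 hu.2.2.2.1 _ h2).1 (Submodule.smul_mem _ _ hw)
    have h4 : ‖w‖⁻¹ • w ∉ K := fun h => hu.2.2.2.2.2 _ h h3
    have h5 : ‖‖w‖⁻¹ • w‖ = 1 := by rw [norm_smul, norm_inv, norm_norm, inv_mul_cancel₀ hn.ne']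
    have h6 : ‖‖w‖⁻¹ • w - P (‖w‖⁻¹ • w)‖ < 1 / 2 := by
      by_contra hcon
      exact h4 ⟨h5, not_lt.1 hcon⟩
    rw [map_smul, ← smul_sub, norm_smul, norm_inv, norm_norm] at h6
    rw [inv_mul_lt_iff₀ hn] at h6
    linarith
  have hinjP : ∀ u, Q u → ∀ w ∈ U u, P w = 0 → w = 0 := by
    intro u hu w hw hPw
    have h2 := hhalf u hu w hw
    rw [hPw, sub_zero] at h2
    have h3 : ‖w‖ ≤ 0 := by linarith
    exact norm_le_zero_iff.1 h3
  have hexw : ∀ u, ∃ w, Q u → w ∈ U u ∧ P w = v0 := by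
    intro u
    by_cases hu : Q u
    · let f : U u →ₗ[ℝ] U u₀ := ((P : Eu n →ₗ[ℝ] Eu n).comp (U u).subtype).codRestrict (U u₀) fun w => hPm _
      have hf : ∀ w : U u, (f w : Eu n) = P (w : Eu n) := fun w => rfl
      have hfi : Function.Injective f := by
        rw [injective_iff_map_eq_zero]
        intro w hw
        have h3 : P (w : Eu n) = 0 := by rw [← hf, hw]; rfl
        exact Subtype.ext (hinjP u hu _ w.2 h3)
      have hfs : Function.Surjective f :=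
        (LinearMap.injective_iff_surjective_of_finrank_eq_finrank (by rw [hUd u hu.2.2.2.1, hUd u₀ hxs0])).1 hfi
      obtain ⟨w, hw⟩ := hfs ⟨v0, hvU⟩
      exact ⟨w, fun _ => ⟨w.2, by rw [← hf, hw]⟩⟩
    · exact ⟨0, fun h => absurd h hu⟩
  choose wf hwf using hexw
  have huniq : ∀ u, Q u → ∀ w ∈ U u, P w = v0 → w = wf u := by
    intro u hu w hw hPw
    have h2 : P (w - wf u) = 0 := by rw [map_sub, hPw, (hwf u hu).2, sub_self]
    exact sub_eq_zero.1 (hinjP u hu _ (Submodule.sub_mem _ hw (hwf u hu).1) h2)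
  have hwne : ∀ u, Q u → wf u ≠ 0 := by
    intro u hu h
    have h2 := (hwf u hu).2
    rw [h, map_zero] at h2
    exact hvne h2.symm
  have hwb : ∀ u, Q u → ‖wf u‖ ≤ 2 := by
    intro u hu
    have h2 := hhalf u hu _ (hwf u hu).1
    rw [(hwf u hu).2] at h2
    have h3 : ‖wf u‖ ≤ ‖wf u - v0‖ + ‖v0‖ := by
      have := norm_add_le (wf u - v0) v0
      rwa [sub_add_cancel] at this
    rw [hv1] at h3
    linarith
  -- continuity
  have hcont : ∀ u, (∀ᶠ v in 𝓝 u, Q v) → ContinuousAt wf u := by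
    intro u hu
    have hQu : Q u := hu.self_of_nhds
    refine (isCompact_closedBall (0 : Eu n) 2).tendsto_nhds_of_unique_mapClusterPt ?_ ?_
    · filter_upwards [hu] with v hv
      rw [mem_closedBall_zero_iff]
      exact hwb v hv
    · intro w _ hcl
      have hPw : P w = v0 := by
        by_contra hcon
        have h2 : ∀ᶠ w' in 𝓝 w, P w' ≠ v0 := P.continuous.continuousAt.eventually_ne hcon
        have h3 := (hcl.frequently h2).and_eventually hu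
        obtain ⟨v, hv1, hv2⟩ := h3.exists
        exact hv1 (hwf v hv2).2
      have hw0 : w ≠ 0 := by
        intro h
        rw [h, map_zero] at hPw
        exact hvne hPw.symm
      refine huniq u hQu w ((hUe u hQu.2.2.1 hQu.2.2.2.1 w hw0).2 ?_) hPw
      by_contra hcon
      have h3 : ContinuousAt e (u, w) := (hev u w hQu.1 hQu.2.2.2.1 hw0).cont
      have h4 : ContinuousAt (fun z : E × Eu n => y z.1) (u, w) := hQu.2.1.cont.comp continuousAt_fst
      have h5 : ∀ᶠ z in 𝓝 (u, w), e z ≠ y z.1 := (h3.ne_iff_eventually_ne h4).1 hcon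
      rw [nhds_prod_eq, eventually_prod_iff] at h5
      obtain ⟨pa, hpa, pb, hpb, h6⟩ := h5
      obtain ⟨v, hv1, hv2, hv3⟩ := ((hcl.frequently hpb).and_eventually (hpa.and hu)).exists
      exact h6 hv2 hv1 ((hUe v hv3.2.2.1 hv3.2.2.2.1 _ (hwne v hv3)).1 (hwf v hv3).1)
  -- smoothness
  have hsm : ∀ u, (∀ᶠ v in 𝓝 u, Q v) → ContDiffAt ℝ ∞ wf u := by
    intro u hu
    have hQu : Q u := hu.self_of_nhds
    obtain ⟨w1, hw1⟩ : ∃ w1, w1 = wf u := ⟨_, rfl⟩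
    have hw1ne : w1 ≠ 0 := by rw [hw1]; exact hwne u hQu
    have hw1U : w1 ∈ U u := by rw [hw1]; exact (hwf u hQu).1
    have heq : e (u, w1) = y u := (hUe u hQu.2.2.1 hQu.2.2.2.1 _ hw1ne).1 hw1U
    have hchart : ContDiffAt ℝ ∞ (fun z => 𝒜.ψ q0 (e z)) (u, w1) :=
      (hev u w1 hQu.1 hQu.2.2.2.1 hw1ne).chart (by rw [heq]; exact hQu.2.2.2.2.1)
    have hychart : ContDiffAt ℝ ∞ (fun z : E × Eu n => 𝒜.ψ q0 (y z.1)) (u, w1) :=
      ContDiffAt.comp (g := fun v => 𝒜.ψ q0 (y v)) (u, w1) (hQu.2.1.chart hQu.2.2.2.2.1) contDiffAt_fst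
    -- the derivative in the second variable
    obtain ⟨A, hA⟩ : ∃ A : Eu n →L[ℝ] Eu n, A = (fderiv ℝ (𝒜.X (x u) q0 π) (DD 𝒜 x0 (x u) w1)).comp (DD 𝒜 x0 (x u)) := ⟨_, rfl⟩
    have hXs : 𝒜.Ex (x u) (rad π (DD 𝒜 x0 (x u) w1)) ∈ (𝒜.ψ q0).source := by
      have h2 : e (u, w1) = 𝒜.Ex (x u) (rad π (DD 𝒜 x0 (x u) w1)) := by
        show (gw 𝒜 hB (c u) (DD 𝒜 x0 (x u) w1)).1 π = _
        rw [gw_eq 𝒜 hB _ (DD_ne hQu.2.2.2.1 hw1ne), hc0]
      rw [← h2, heq]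
      exact hQu.2.2.2.2.1
    have hDne : DD 𝒜 x0 (x u) w1 ≠ 0 := DD_ne hQu.2.2.2.1 hw1ne
    have hAd : HasFDerivAt (fun w => 𝒜.ψ q0 (e (u, w))) A w1 := by
      have h2 : HasFDerivAt (𝒜.X (x u) q0 π) (fderiv ℝ (𝒜.X (x u) q0 π) (DD 𝒜 x0 (x u) w1)) (DD 𝒜 x0 (x u) w1) :=
        ((contDiffAt_X 𝒜 hB _ q0 π hDne hXs).differentiableAt (by simp)).hasFDerivAt
      have h3 : HasFDerivAt (fun w : Eu n => DD 𝒜 x0 (x u) w) (DD 𝒜 x0 (x u)) w1 := (DD 𝒜 x0 (x u)).hasFDerivAt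
      have h4 := h2.comp w1 h3
      rw [hA]
      refine h4.congr_of_eventuallyEq ?_
      filter_upwards [isOpen_ne.mem_nhds hw1ne] with w hw
      show 𝒜.ψ q0 ((gw 𝒜 hB (c u) (DD 𝒜 x0 (x u) w)).1 π) = 𝒜.ψ q0 (𝒜.Ex (x u) (rad π (DD 𝒜 x0 (x u) w)))
      rw [gw_eq 𝒜 hB _ (DD_ne hQu.2.2.2.1 hw), hc0]
    have hPVeq : 𝒜.PV (x u) (DD 𝒜 x0 (x u) w1) = 𝒜.PV (x u) (𝒜.vel (c u).1 0) :=
      PV_eq_of_mem 𝒜 hB _ ((hUm u w1).1 hw1U) hDne
    have hAker : ∀ z, A z = 0 → z ∈ U u := by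
      intro z hz
      rw [hA] at hz
      have h2 := ker_X_PV 𝒜 hB hk hDne hXs (x := DD 𝒜 x0 (x u) z) hz
      rw [hPVeq] at h2
      exact (hUm u z).2 h2
    have hAz : ∀ z ∈ U u, A z = 0 := by
      intro z hz
      have h2 := (hUm u z).1 hz
      rw [← hPVeq] at h2
      rw [hA]
      exact fderiv_X_PV 𝒜 hB hDne hXs h2
    let F : E × Eu n → Eu n := fun z => ContinuousLinearMap.adjoint A (𝒜.ψ q0 (e z) - 𝒜.ψ q0 (y z.1)) + P z.2
    have hF : ContDiffAt ℝ ∞ F (u, w1) := by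
      refine ContDiffAt.add ?_ ?_
      · exact ContDiffAt.comp (g := fun v => ContinuousLinearMap.adjoint A v) (u, w1)
          (ContinuousLinearMap.adjoint A).contDiff.contDiffAt (hchart.sub hychart)
      · exact ContDiffAt.comp (g := fun v => P v) (u, w1) P.contDiff.contDiffAt contDiffAt_snd
    have hFd : ∀ z, fderiv ℝ F (u, w1) (0, z) = ContinuousLinearMap.adjoint A (A z) + P z := by
      intro z
      have h2 : HasFDerivAt F (fderiv ℝ F (u, w1)) (u, w1) := (hF.differentiableAt (by simp)).hasFDerivAt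
      have h3 : HasFDerivAt (fun w : Eu n => F (u, w)) ((fderiv ℝ F (u, w1)).comp (ContinuousLinearMap.inr ℝ E (Eu n))) w1 :=
        h2.comp w1 (hasFDerivAt_prodMk_right u w1)
      have h4' : HasFDerivAt (fun w : Eu n => 𝒜.ψ q0 (e (u, w)) - 𝒜.ψ q0 (y u)) A w1 := hAd.sub_const _
      have h4 : HasFDerivAt (fun w : Eu n => F (u, w)) ((ContinuousLinearMap.adjoint A).comp A + P) w1 :=
        HasFDerivAt.add ((ContinuousLinearMap.adjoint A).hasFDerivAt.comp w1 h4') P.hasFDerivAt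
      exact congrArg (fun L : Eu n →L[ℝ] Eu n => L z) (h3.unique h4)
    refine contDiffAt_of_implicit (F := F) (by rw [← hw1]; exact hF) (hcont u hu) ?_ ?_
    · intro z hz
      rw [← hw1, hFd] at hz
      -- `P z = 0`
      let f : U u →ₗ[ℝ] U u₀ := ((P : Eu n →ₗ[ℝ] Eu n).comp (U u).subtype).codRestrict (U u₀) fun w => hPm _
      have hf : ∀ w : U u, (f w : Eu n) = P (w : Eu n) := fun w => rfl
      have hfi : Function.Injective f := by
        rw [injective_iff_map_eq_zero]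
        intro w hw
        have h3 : P (w : Eu n) = 0 := by rw [← hf, hw]; rfl
        exact Subtype.ext (hinjP u hQu _ w.2 h3)
      have hfs : Function.Surjective f :=
        (LinearMap.injective_iff_surjective_of_finrank_eq_finrank (by rw [hUd u hQu.2.2.2.1, hUd u₀ hxs0])).1 hfi
      obtain ⟨w, hw⟩ := hfs ⟨P z, hPm z⟩
      have hPw : P (w : Eu n) = P z := by rw [← hf, hw]
      have h5 : ⟪ContinuousLinearMap.adjoint A (A z) + P z, (w : Eu n)⟫ = 0 := by rw [hz, inner_zero_left]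
      rw [inner_add_left, ContinuousLinearMap.adjoint_inner_left, hAz _ w.2, inner_zero_right, zero_add] at h5
      have h6 : ⟪P z, (w : Eu n)⟫ = ⟪P z, P z⟫ := by
        have h7 : ⟪P (P z), (w : Eu n)⟫ = ⟪P z, P (w : Eu n)⟫ := by
          rw [hP]
          exact Submodule.inner_starProjection_left_eq_right _ _ _
        rw [hPe _ (hPm z), hPw] at h7
        exact h7
      rw [h6, inner_self_eq_zero] at h5
      rw [h5, add_zero] at hz
      have h8 : A z = 0 := by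
        have h9 : ⟪ContinuousLinearMap.adjoint A (A z), z⟫ = 0 := by rw [hz, inner_zero_left]
        rw [ContinuousLinearMap.adjoint_inner_left, inner_self_eq_zero] at h9
        exact h9
      exact hinjP u hQu z (hAker z h8) h5
    · have h2 : ∀ v, Q v → F (v, wf v) = v0 := by
        intro v hv
        have h3 : e (v, wf v) = y v := (hUe v hv.2.2.1 hv.2.2.2.1 _ (hwne v hv)).1 (hwf v hv).1
        show ContinuousLinearMap.adjoint A (𝒜.ψ q0 (e (v, wf v)) - 𝒜.ψ q0 (y v)) + P (wf v) = v0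
        rw [h3, sub_self, map_zero, zero_add, (hwf v hv).2]
      filter_upwards [hu] with v hv
      rw [h2 v hv, h2 u hQu]
  refine ⟨fun u => g (u, wf u), ?_, ?_⟩
  · have hQ0 : Q u₀ := hQ.self_of_nhds
    have h2 : wf u₀ = v0 := (huniq u₀ hQ0 v0 hvU (hPe v0 hvU)).symm
    show gw 𝒜 hB (c u₀) (DD 𝒜 x0 (x u₀) (wf u₀)) = c₀
    rw [h2, hDD0]
    refine eq_of_vel' 𝒜 ?_ ?_
    · rw [gw_zero, hc0, h0]
    · rw [gw_vel 𝒜 hB _ hvne, nrm_of_norm hv1, hv0]
  · filter_upwards [hQ.eventually_nhds] with u hu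
    have hQu : Q u := hu.self_of_nhds
    refine ⟨?_, ?_, ?_⟩
    · show (gw 𝒜 hB (c u) _).1 0 = x u
      rw [gw_zero, hc0]
    · exact (hUe u hQu.2.2.1 hQu.2.2.2.1 _ (hwne u hQu)).1 (hwf u hQu).1
    · exact SmGA.comp (σ := g) (f := fun v => (v, wf v)) (hg u _ hQu.1 hQu.2.2.2.1 (hwne u hQu))
        (contDiffAt_id.prodMk (hsm u hu))

end Pool.Agent.Lib.MP_ccbbf6_gt.L5
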