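import Pool.Agent.Lib.MP_ccbbf6_gt.L5.Lag

/-!
Power series over the real numbers: linear differential equations of order one, nonnegative
coefficients.
-/

namespace Pool.Agent.Lib.MP_ccbbf6_gt.L5

open PowerSeries

/-- The coefficients of the solution of `y' = y * Λ`, `y(0) = 1`. -/
noncomputable def solC (Λ : PowerSeries ℝ) : ℕ → ℝ
  | 0 => 1
  | k + 1 => (∑ i : Fin (k + 1), coeff (k - i) Λ * solC Λ i) / (k + 1)

/-- The solution of `y' = y * Λ`, `y(0) = 1`. -/
noncomputable def sol (Λ : PowerSeries ℝ) : PowerSeries ℝ := PowerSeries.mk (solC Λ)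

theorem sol_zero (Λ : PowerSeries ℝ) : constantCoeff (sol Λ) = 1 := by
  rw [← coeff_zero_eq_constantCoeff_apply, sol, coeff_mk, solC]

theorem coeff_mul_range (f g : PowerSeries ℝ) (k : ℕ) :
    coeff k (f * g) = ∑ i ∈ Finset.range (k + 1), coeff i f * coeff (k - i) g := by
  rw [coeff_mul, Finset.Nat.sum_antidiagonal_eq_sum_range_succ
    (fun i j => coeff i f * coeff j g)]

theorem sol_der (Λ : PowerSeries ℝ) : derivative ℝ (sol Λ) = sol Λ * Λ := by
  ext k
  rw [coeff_derivative, coeff_mul_range, sol, coeff_mk, solC]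
  have h : ((k : ℝ) + 1) ≠ 0 := by positivity
  rw [div_mul_cancel₀ _ h, Finset.sum_range]
  refine Finset.sum_congr rfl fun i _ => ?_
  rw [coeff_mk, mul_comm]

/-- Uniqueness. -/
theorem sol_unique {Λ y z : PowerSeries ℝ} (hy : derivative ℝ y = y * Λ)
    (hz : derivative ℝ z = z * Λ) (h0 : constantCoeff y = constantCoeff z) : y = z := by
  ext k
  induction k using Nat.strong_induction_on with
  | _ k ih =>
    rcases k with _ | k
    · rw [coeff_zero_eq_constantCoeff_apply, coeff_zero_eq_constantCoeff_apply, h0]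
    · have h1 := congrArg (coeff k) hy
      have h2 := congrArg (coeff k) hz
      rw [coeff_derivative, coeff_mul_range] at h1 h2
      have h3 : ((k : ℝ) + 1) ≠ 0 := by positivity
      refine mul_right_cancel₀ h3 ?_
      rw [h1, h2]
      refine Finset.sum_congr rfl fun i hi => ?_
      rw [ih i (Nat.lt_succ_iff.2 (Nat.lt_succ_iff.1 (Finset.mem_range.1 hi)))]

theorem der_mul (y z : PowerSeries ℝ) :
    derivative ℝ (y * z) = y * derivative ℝ z + z * derivative ℝ y := by
  rw [Derivation.leibniz]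
  rfl

theorem der_pow {y Λ : PowerSeries ℝ} (hy : derivative ℝ y = y * Λ) (n : ℕ) :
    derivative ℝ (y ^ n) = y ^ n * (n * Λ) := by
  rcases n with _ | n
  · rw [pow_zero, ← map_one C, derivative_C]
    simp
  · rw [derivative_pow, hy, Nat.add_sub_cancel]
    ring

/-- The coefficients of index at most `k` are nonnegative. -/
def NN (k : ℕ) (f : PowerSeries ℝ) : Prop := ∀ i ≤ k, 0 ≤ coeff i f

theorem NN.mul {k : ℕ} {f g : PowerSeries ℝ} (hf : NN k f) (hg : NN k g) : NN k (f * g) := by
  intro i hi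
  rw [coeff_mul_range]
  refine Finset.sum_nonneg fun j hj => ?_
  have := Finset.mem_range.1 hj
  exact mul_nonneg (hf _ (by omega)) (hg _ (by omega))

theorem NN.add {k : ℕ} {f g : PowerSeries ℝ} (hf : NN k f) (hg : NN k g) : NN k (f + g) := by
  intro i hi
  rw [map_add]
  exact add_nonneg (hf i hi) (hg i hi)

theorem NN_one (k : ℕ) : NN k (1 : PowerSeries ℝ) := by
  intro i _
  rw [coeff_one]
  split <;> norm_num

theorem NN.pow {k : ℕ} {f : PowerSeries ℝ} (hf : NN k f) (n : ℕ) : NN k (f ^ n) := by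
  induction n with
  | zero =>
    rw [pow_zero]
    exact NN_one k
  | succ n ih =>
    rw [pow_succ]
    exact ih.mul hf

theorem NN_X (k : ℕ) : NN k (X : PowerSeries ℝ) := by
  intro i _
  rw [coeff_X]
  split <;> norm_num

theorem NN.X_mul {k : ℕ} {f : PowerSeries ℝ} (hf : NN k f) : NN (k + 1) (X * f) := by
  intro i hi
  rcases i with _ | i
  · simp
  · rw [coeff_succ_X_mul]
    exact hf i (by omega)

theorem NN.subst {k : ℕ} {f g : PowerSeries ℝ} (hf : ∀ i, 0 ≤ coeff i f)
    (h0 : constantCoeff g = 0) (hg : NN k g) : NN k (f.subst g) := by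
  intro i hi
  rw [coeff_subst' (HasSubst.of_constantCoeff_zero' h0)]
  exact finsum_nonneg fun d => mul_nonneg (hf d) ((hg.pow d) i hi)

theorem coeff_mul_pos {k : ℕ} {f g : PowerSeries ℝ} (hf : NN k f) (hg : NN k g) {i : ℕ}
    (hi : i ≤ k) (h1 : 0 < coeff i f) (h2 : 0 < coeff (k - i) g) : 0 < coeff k (f * g) := by
  rw [coeff_mul_range]
  refine Finset.sum_pos' (fun j hj => ?_) ⟨i, Finset.mem_range.2 (by omega), mul_pos h1 h2⟩
  have := Finset.mem_range.1 hj
  exact mul_nonneg (hf _ (by omega)) (hg _ (by omega))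

/-- The solution of `ψ' = ψ ^ 2 * S(X * ψ)` has positive coefficients if those of `S` are
nonnegative and `S(0) > 0`. -/
theorem psi_pos {ψ S : PowerSeries ℝ} (hS : ∀ i, 0 ≤ coeff i S) (hS0 : 0 < constantCoeff S)
    (h0 : constantCoeff ψ = 1) (hψ : derivative ℝ ψ = ψ ^ 2 * S.subst (X * ψ)) (k : ℕ) :
    0 < coeff k ψ := by
  induction k using Nat.strong_induction_on with
  | _ k ih =>
    rcases k with _ | k
    · rw [coeff_zero_eq_constantCoeff_apply, h0]
      exact one_pos
    · have hc : constantCoeff (X * ψ) = 0 := by simp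
      have h1 : NN k ψ := fun i hi => (ih i (by omega)).le
      have h2 : NN k (S.subst (X * ψ)) := NN.subst hS hc fun i hi => h1.X_mul i (by omega)
      have h3 : 0 < coeff k (ψ ^ 2) := by
        rw [pow_two]
        refine coeff_mul_pos h1 h1 (Nat.zero_le k) (ih 0 (by omega)) ?_
        exact ih _ (by omega)
      have h4 : 0 < coeff k (ψ ^ 2 * S.subst (X * ψ)) := by
        refine coeff_mul_pos (h1.pow 2) h2 le_rfl h3 ?_
        rw [Nat.sub_self, coeff_zero_eq_constantCoeff_apply, const_subst hc]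
        exact hS0
      rw [← hψ, coeff_derivative] at h4
      have h5 : (0 : ℝ) < (k : ℝ) + 1 := by positivity
      exact (mul_pos_iff_of_pos_right h5).1 h4

/-- The solution of `X * K' = K * ρ`. -/
theorem K_pos {K ρ : PowerSeries ℝ} (hK : X * derivative ℝ K = K * ρ)
    (hK0 : 0 < constantCoeff K) (hρ0 : ∀ i, 0 ≤ coeff i ρ) (hρ : ∀ i, 2 ≤ i → 0 < coeff i ρ)
    (hρ' : constantCoeff ρ = 0) (k : ℕ) : 0 ≤ coeff k K ∧ (2 ≤ k → 0 < coeff k K) := by
  induction k using Nat.strong_induction_on with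
  | _ k ih =>
    rcases k with _ | k
    · refine ⟨?_, fun h => absurd h (by omega)⟩
      rw [coeff_zero_eq_constantCoeff_apply]
      exact hK0.le
    · have h1 := congrArg (coeff (k + 1)) hK
      rw [coeff_succ_X_mul, coeff_derivative, coeff_mul_range, Finset.sum_range_succ, Nat.sub_self,
        coeff_zero_eq_constantCoeff_apply, hρ', mul_zero, add_zero] at h1
      have h5 : (0 : ℝ) < (k : ℝ) + 1 := by positivity
      have h6 : ∀ i ∈ Finset.range (k + 1), 0 ≤ coeff i K * coeff (k + 1 - i) ρ := fun i hi =>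
        mul_nonneg (ih i (by have := Finset.mem_range.1 hi; omega)).1 (hρ0 _)
      constructor
      · refine nonneg_of_mul_nonneg_left ?_ h5
        rw [h1]
        exact Finset.sum_nonneg h6
      · intro h2
        refine (mul_pos_iff_of_pos_right h5).1 ?_
        rw [h1]
        refine Finset.sum_pos' h6 ⟨0, Finset.mem_range.2 (by omega), mul_pos ?_ (hρ _ (by omega))⟩
        rw [coeff_zero_eq_constantCoeff_apply]
        exact hK0

end Pool.Agent.Lib.MP_ccbbf6_gt.L5
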