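import Pool.Agent.Lib.MP_ccbbf6_gt.ML
import Pool.Agent.Lib.MP_ccbbf6_gt.L5.Pos

/-!
The power series `(1 + b X + X ^ 2) ^ ((m + 1) / 2) / (1 + 2 b X)`: its coefficient of index
`m - 1` in closed form.
-/

namespace Pool.Agent.Lib.MP_ccbbf6_gt.L5

open PowerSeries

/-! ### Geometric series -/

/-- `1/(1 - a X)`. -/
noncomputable def geo (a : ℝ) : PowerSeries ℝ := PowerSeries.mk fun n => a ^ n

theorem geo_mul (a : ℝ) : (1 - C a * X) * geo a = 1 := by
  ext n
  rw [sub_mul, one_mul, map_sub, mul_assoc, coeff_C_mul, geo, coeff_mk, coeff_one]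
  rcases n with _ | n
  · simp
  · rw [coeff_succ_X_mul, coeff_mk, if_neg (by omega), pow_succ]
    ring

/-- The series of the sums. -/
noncomputable def sums (f : ℕ → ℝ) : PowerSeries ℝ :=
  PowerSeries.mk fun n => ∑ i ∈ Finset.range (n + 1), f i

theorem sums_mul (f : ℕ → ℝ) : (1 - X) * sums f = PowerSeries.mk f := by
  ext n
  rw [sub_mul, one_mul, map_sub, sums, coeff_mk, coeff_mk]
  rcases n with _ | n
  · simp
  · rw [coeff_succ_X_mul, coeff_mk, Finset.sum_range_succ]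
    ring

/-- `r_j`. -/
noncomputable def rC (b : ℝ) (j : ℕ) : ℝ :=
  ∑ i ∈ Finset.range (j + 1), ((2 * b ^ 2 + 1) ^ i + 1) / 2

/-- `e_j`. -/
noncomputable def eC (b : ℝ) (j : ℕ) : ℝ :=
  ∑ i ∈ Finset.range (j + 1), (3 * (2 * b ^ 2 + 1) ^ i - 1) / 2

theorem rC_mul (b : ℝ) : (1 - X) ^ 2 * (1 - C (2 * b ^ 2 + 1) * X) * PowerSeries.mk (rC b) =
    1 - C (b ^ 2 + 1) * X := by
  have h1 : (1 - X) * PowerSeries.mk (rC b) = C (1 / 2) * (geo (2 * b ^ 2 + 1) + geo 1) := by
    have h := sums_mul fun i => ((2 * b ^ 2 + 1) ^ i + 1) / 2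
    have h2 : sums (fun i => ((2 * b ^ 2 + 1) ^ i + 1) / 2) = PowerSeries.mk (rC b) := rfl
    rw [← h2, h]
    ext n
    rw [coeff_mk, coeff_C_mul, map_add, geo, geo, coeff_mk, coeff_mk, one_pow]
    ring
  have h2 := geo_mul (2 * b ^ 2 + 1)
  have h3 := geo_mul 1
  rw [map_one, one_mul] at h3
  have h4 : (C (1 / 2) : PowerSeries ℝ) * 2 = 1 := by
    rw [← map_ofNat C 2, ← map_mul]
    norm_num
  calc (1 - X) ^ 2 * (1 - C (2 * b ^ 2 + 1) * X) * PowerSeries.mk (rC b)
      = (1 - X) * (1 - C (2 * b ^ 2 + 1) * X) * ((1 - X) * PowerSeries.mk (rC b)) := by ring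
    _ = C (1 / 2) * ((1 - X) * ((1 - C (2 * b ^ 2 + 1) * X) * geo (2 * b ^ 2 + 1)) +
        (1 - C (2 * b ^ 2 + 1) * X) * ((1 - X) * geo 1)) := by
          rw [h1]
          ring
    _ = _ := by
      rw [h2, h3]
      simp only [map_add, map_mul, map_pow, map_one, map_ofNat] at h4 ⊢
      linear_combination (1 - (C b ^ 2 + 1) * X) * h4

theorem eC_mul (b : ℝ) : (1 - X) ^ 2 * (1 - C (2 * b ^ 2 + 1) * X) * PowerSeries.mk (eC b) =
    1 + C (b ^ 2 - 1) * X := by
  have h1 : (1 - X) * PowerSeries.mk (eC b) = C (1 / 2) * (3 * geo (2 * b ^ 2 + 1) - geo 1) := by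
    have h := sums_mul fun i => (3 * (2 * b ^ 2 + 1) ^ i - 1) / 2
    have h2 : sums (fun i => (3 * (2 * b ^ 2 + 1) ^ i - 1) / 2) = PowerSeries.mk (eC b) := rfl
    rw [← h2, h]
    ext n
    rw [coeff_mk, coeff_C_mul, map_sub, ← map_ofNat C 3, coeff_C_mul, geo, geo, coeff_mk, coeff_mk,
      one_pow]
    ring
  have h2 := geo_mul (2 * b ^ 2 + 1)
  have h3 := geo_mul 1
  rw [map_one, one_mul] at h3
  have h4 : (C (1 / 2) : PowerSeries ℝ) * 2 = 1 := by
    rw [← map_ofNat C 2, ← map_mul]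
    norm_num
  calc (1 - X) ^ 2 * (1 - C (2 * b ^ 2 + 1) * X) * PowerSeries.mk (eC b)
      = (1 - X) * (1 - C (2 * b ^ 2 + 1) * X) * ((1 - X) * PowerSeries.mk (eC b)) := by ring
    _ = C (1 / 2) * (3 * (1 - X) * ((1 - C (2 * b ^ 2 + 1) * X) * geo (2 * b ^ 2 + 1)) -
        (1 - C (2 * b ^ 2 + 1) * X) * ((1 - X) * geo 1)) := by
          rw [h1]
          ring
    _ = _ := by
      rw [h2, h3]
      simp only [map_add, map_sub, map_mul, map_pow, map_one, map_ofNat] at h4 ⊢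
      linear_combination (1 + (C b ^ 2 - 1) * X) * h4

/-! ### The square root -/

/-- The coefficients of `1/√(4 + 4 β z)`. -/
noncomputable def aC (β : ℝ) : ℕ → ℝ
  | 0 => 1 / 2
  | k + 1 => -(β * (2 * k + 1) / (2 * (k + 1))) * aC β k

theorem aC_sq (β : ℝ) : (4 + C (4 * β) * X) * PowerSeries.mk (aC β) ^ 2 = 1 := by
  obtain ⟨y, hy⟩ : ∃ y, y = PowerSeries.mk (aC β) := ⟨_, rfl⟩
  rw [← hy]
  have h1 : derivative ℝ y + C β * (X * derivative ℝ y) = - (C (β / 2) * y) := by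
    ext k
    rw [map_add, coeff_C_mul, coeff_derivative, map_neg, coeff_C_mul, hy]
    rcases k with _ | k
    · have h0 : aC β 1 = -(β * (2 * (0 : ℕ) + 1) / (2 * ((0 : ℕ) + 1))) * aC β 0 := rfl
      rw [coeff_zero_X_mul, coeff_mk, coeff_mk, zero_add, h0]
      push_cast
      ring
    · rw [coeff_succ_X_mul, coeff_derivative, coeff_mk, coeff_mk, aC]
      have : ((k : ℝ) + 1 + 1) ≠ 0 := by positivity
      push_cast
      field_simp
      ring
  have hC : (C (β / 2) : PowerSeries ℝ) * 2 = C β := by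
    rw [← map_ofNat C 2, ← map_mul]
    congr 1
    ring
  have hC4 : (C (4 * β) : PowerSeries ℝ) = 4 * C β := by
    rw [map_mul, map_ofNat]
  have h2 : derivative ℝ ((4 + C (4 * β) * X) * y ^ 2) = 0 := by
    have h3 : derivative ℝ (4 + C (4 * β) * X) = C (4 * β) := by
      rw [map_add, ← map_ofNat C 4, derivative_C, der_mul, derivative_X, derivative_C]
      ring
    rw [der_mul, h3, derivative_pow, hC4]
    simp only [Nat.add_one_sub_one, pow_one, Nat.cast_ofNat]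
    linear_combination (8 * y) * h1 - 4 * y ^ 2 * hC
  refine sol_unique (Λ := 0) (by rw [h2, mul_zero]) ?_ ?_
  · rw [← map_one C, derivative_C, mul_zero]
  · rw [map_mul, map_pow, map_add, hy, ← coeff_zero_eq_constantCoeff_apply (PowerSeries.mk _),
      coeff_mk, aC, map_mul, constantCoeff_C, constantCoeff_X, map_ofNat, map_one]
    norm_num

theorem sq_cancel {f g : PowerSeries ℝ} (h : f ^ 2 = g ^ 2) (hf : constantCoeff f = 1)
    (hg : constantCoeff g = 1) : f = g := by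
  rcases sq_eq_sq_iff_eq_or_eq_neg.1 h with h | h
  · exact h
  · rw [h, map_neg, hg] at hf
    norm_num at hf

/-- The square root of a power series with constant term one. -/
theorem sqrt_exists {f : PowerSeries ℝ} (hf : constantCoeff f = 1) :
    ∃ φ : PowerSeries ℝ, constantCoeff φ = 1 ∧ φ ^ 2 = f := by
  have h1 : f * f⁻¹ = 1 := PowerSeries.mul_inv_cancel _ (by rw [hf]; exact one_ne_zero)
  refine ⟨sol (C (1 / 2) * (derivative ℝ f * f⁻¹)), sol_zero _, ?_⟩
  refine sol_unique (der_pow (sol_der _) 2) ?_ ?_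
  · have h2 : (2 : PowerSeries ℝ) * C (1 / 2) = 1 := by
      rw [← map_ofNat C 2, ← map_mul]
      norm_num
    push_cast
    linear_combination (- derivative ℝ f) * h1 - (f * derivative ℝ f * f⁻¹) * h2
  · rw [map_pow, sol_zero, hf, one_pow]

end Pool.Agent.Lib.MP_ccbbf6_gt.L5
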