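import Pool.Agent.Lib.MP_ccbbf6_gt.L5.COH3
import Pool.Agent.Lib.MP_ccbbf6_gt.L5.COH4
import Pool.Agent.Lib.MP_ccbbf6_gt.L5.PIS

/-!
# Level 5, H5F: the Euler class of `V` (rank four) is `u₂ - u₁` (helper67)
-/

set_option autoImplicit false
set_option maxSynthPendingDepth 3

open Set Filter Topology Real Module
open scoped ContDiff RealInnerProductSpace

noncomputable section

namespace Pool.Agent.Lib.MP_ccbbf6_gt.L5

open L4 L4.FR L4.ORI Geo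

variable {N κ m : ℕ} {M : Type} [MetricSpace M] [CompactSpace M]

theorem IsoE.pull {E E' : Type} [NormedAddCommGroup E] [InnerProductSpace ℝ E] [NormedAddCommGroup E']
    [InnerProductSpace ℝ E'] {B B' : Space} {v : VFld E B} {io : B.pt → E →ₗᵢ[ℝ] E'} (h : IsoE v io) (f : SMap B' B) :
    IsoE (v.pull f) fun x => io (f.1 x) := ⟨fun p w z => h.sm (f.pl p) w z⟩

namespace GeoD

variable {𝒜 : SDist (N + 1) M} {hB : Bl M} (D : GeoD 𝒜 hB κ m) {Dn : ℕ}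
  {io : M → Eu (N + 1) →ₗᵢ[ℝ] EuclideanSpace ℝ (Fin Dn)} (hio : IsoE (B := spM 𝒜) (vTM 𝒜) io)

/-- `V` in `ℝ^Dn`, oriented by `ψ_u` -/
def bE : OBun (κ + 1) (EuclideanSpace ℝ (Fin Dn)) (spF 𝒜) :=
  (bVo hB D.hk D.hL D.Deg_b D.orV).emb (io := fun z => io z.1.1) (hio.pull (pF1 𝒜))

theorem tE : TBun (D.bE hio) := TBun_emb _ _ fun x => cst_F x

/-- the isomorphism of `UM` with the unit sphere bundle of `V` -/
def eE : SMap (spG 𝒜) (D.bE hio).S :=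
  ((bVo hB D.hk D.hL D.Deg_b D.orV).embS (io := fun z => io z.1.1) (hio.pull (pF1 𝒜))).comp (toVS hB D.hk D.hL)

theorem pr_eE : (D.bE hio).pr.comp (D.eE hio) = gF hB := rfl

theorem PI_eE (θ : Om (D.bE hio).S) : D.coh.bV.PI ((D.eE hio).pull θ) = ((D.bE hio).sb D.hκ).PI θ := by
  have h1 := PI_emb (bVo hB D.hk D.hL D.Deg_b D.orV) (io := fun z => io z.1.1) (hio.pull (pF1 𝒜)) D.hκ θ
  refine Eq.trans ?_ h1
  show ((bVo hB D.hk D.hL D.Deg_b D.orV).sb D.hκ).PI ((ofVS hB D.hk D.hL).pull ((D.eE hio).pull θ)) = _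
  have e : (D.eE hio).comp (ofVS hB D.hk D.hL) =
      (bVo hB D.hk D.hL D.Deg_b D.orV).embS (io := fun z => io z.1.1) (hio.pull (pF1 𝒜)) := SMap_ext fun z => by
    show ((bVo hB D.hk D.hL D.Deg_b D.orV).embS (io := fun z => io z.1.1) (hio.pull (pF1 𝒜))).1
      ((toVS hB D.hk D.hL).1 ((ofVS hB D.hk D.hL).1 z)) = _
    rw [toVS_ofVS]
  rw [← pull_comp, e]
  rfl

end GeoD

/-! ### rank four -/

namespace GeoD

variable {𝒜 : SDist (N + 1) M} {hB : Bl M} (D : GeoD 𝒜 hB 3 m) {Dn : ℕ}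
  {io : M → Eu (N + 1) →ₗᵢ[ℝ] EuclideanSpace ℝ (Fin Dn)} (hio : IsoE (B := spM 𝒜) (vTM 𝒜) io)

/-- the matrix of `V` -/
def pV : Matrix (Fin Dn) (Fin Dn) (SF (spF 𝒜)) := OT.pm (D.bE hio) (D.tE hio) (by norm_num)

/-- the orientation of `V` -/
def oV : (Fin 4 → Fin Dn) → SF (spF 𝒜) := OT.ot (D.bE hio) (D.tE hio) (by norm_num)

theorem orPV : Or 4 (D.pV hio) (D.oV hio) := OT.or_ot (D.bE hio) (D.tE hio) (by norm_num)

/-- **the Euler form of `V`** -/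
theorem euler3 : ∃ ρ : Om (spF 𝒜), Deg 3 ρ ∧
    eul (FO (spF 𝒜)) (D.pV hio) (D.oV hio) = ((pF2 𝒜).pull D.u - (pF1 𝒜).pull D.u) + dO _ ρ := by
  have h1 : dO _ (OT.psS (D.bE hio) (D.tE hio)) =
      (D.bE hio).pr.pull (eul (FO (spF 𝒜)) (D.pV hio) (D.oV hio)) := by
    have h2 : dO _ (OT.psS (D.bE hio) (D.tE hio)) =
        eul (FO (D.bE hio).S) (OT.pS (D.bE hio) (D.tE hio) (by norm_num)) (OT.oS (D.bE hio) (D.tE hio) (by norm_num)) :=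
      d_psi (G := GO (D.bE hio).S) (φ := FO (D.bE hio).S) (OT.orS _ _ _) (OT.secS _ _ _)
    rw [h2]
    exact (FHom.eul (FHom.pull (D.bE hio).pr) (P := D.pV hio) (D.oV hio)).symm
  have h3 : D.coh.g.pull (eul (FO (spF 𝒜)) (D.pV hio) (D.oV hio)) =
      dO _ ((D.eE hio).pull (OT.psS (D.bE hio) (D.tE hio))) := by
    rw [pull_d, h1, ← pull_comp]
    rfl
  have h4 : D.coh.bV.PI ((D.eE hio).pull (OT.psS (D.bE hio) (D.tE hio))) = algebraMap ℝ (Om (spF 𝒜)) 1 := by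
    rw [PI_eE, map_one]
    exact OT.PI_psS (D.bE hio) (D.tE hio) (by norm_num)
  obtain ⟨ρ, hρ, h5⟩ := D.coh.H5e h3 (Deg_pull _ (OT.Deg_psS (D.bE hio) (D.tE hio))) h4
  refine ⟨ρ, hρ, ?_⟩
  rw [one_smul] at h5
  exact h5

theorem s_pu (f : SMap (spF 𝒜) (spM 𝒜)) : sO _ (f.pull D.u) = f.pull D.u := by
  rw [pull_s]
  exact congrArg f.pull D.coh.su

theorem d_pu (f : SMap (spF 𝒜) (spM 𝒜)) : dO _ (f.pull D.u) = 0 := by
  rw [pull_d, D.du, map_zero]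

/-- **(H5)**, the Euler class of `V` -/
theorem hE3 : hE (FO (spF 𝒜)) (D.orPV hio) =
    GDA.cl (G := GO (spF 𝒜)) ((pF2 𝒜).pull D.u) (D.s_pu _) (D.d_pu _) -
      GDA.cl (G := GO (spF 𝒜)) ((pF1 𝒜).pull D.u) (D.s_pu _) (D.d_pu _) := by
  obtain ⟨ρ, -, h⟩ := D.euler3 hio
  rw [GDA.cl_sub]
  exact GDA.cl_eq.2 ⟨ρ, h⟩

end GeoD

end Pool.Agent.Lib.MP_ccbbf6_gt.L5
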