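import Pool.Agent.Lib.MP_ccbbf6_gt.L5.IA01

/-!
# Level 5, block INTa, part 2: the linking formula (helper91)
-/

set_option autoImplicit false

open Set Filter Topology MeasureTheory
open scoped ContDiff

noncomputable section

namespace Pool.Agent.Lib.MP_ccbbf6_gt.L5.IA

open L4 L4.FR

/-- `(s, a, b) ↦ (s, a - b)` -/
def Bm : FR.Sm 3 2 := ⟨fun x => ![x 0, x 1 - x 2], by
  rw [contDiff_pi]
  intro j
  fin_cases j
  · exact contDiff_apply ℝ ℝ 0
  · exact (contDiff_apply ℝ ℝ 1).sub (contDiff_apply ℝ ℝ 2)⟩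

theorem Bm_apply (x : V 3) : Bm x = ![x 0, x 1 - x 2] := rfl

theorem pb_dx_id {k l : ℕ} (g : FR.Sm k l) {i : Fin l} {j : Fin k} {r : ℝ} (h : ∀ x, g x i = x j + r) :
    pb g (dx i) = dx j := by
  have h1 : g.cp i = co j + algebraMap ℝ (Cs k) r := Cs_ext fun x => h x
  rw [pb_dx, h1, map_add, map_add, fc_pd_co]
  have h2 : dd k (fc k (algebraMap ℝ (Cs k) r)) = 0 := by
    rw [dd_fc]
    refine Finset.sum_eq_zero fun i _ => ?_
    rw [pd_const, map_zero, zero_mul]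
  rw [h2, add_zero]

theorem Bm_cst (c : ℝ) : Bm.comp (cst 0 c) = (cst 0 c).comp Bm := by
  refine FR.Sm.ext fun x => ?_
  funext i
  change (![Function.update x 0 c 0, Function.update x 0 c 1 - Function.update x 0 c 2] : V 2) i =
    Function.update (![x 0, x 1 - x 2] : V 2) 0 c i
  fin_cases i <;> simp [Function.update]

theorem Bm_trn1 : Bm.comp (trn 1) = (trn 1).comp Bm := by
  refine FR.Sm.ext fun x => ?_
  funext i
  change (![(x + Pi.single 1 1 : V 3) 0, (x + Pi.single 1 1 : V 3) 1 - (x + Pi.single 1 1 : V 3) 2] : V 2) i =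
    ((![x 0, x 1 - x 2] : V 2) + Pi.single 1 1 : V 2) i
  fin_cases i
  · simp
  · simp
    ring

theorem Bm_trn2 : (trn 1).comp (Bm.comp (trn 2)) = Bm := by
  refine FR.Sm.ext fun x => ?_
  funext i
  change ((![(x + Pi.single 2 1 : V 3) 0, (x + Pi.single 2 1 : V 3) 1 - (x + Pi.single 2 1 : V 3) 2] : V 2) +
    Pi.single 1 1 : V 2) i = (![x 0, x 1 - x 2] : V 2) i
  fin_cases i
  · simp
  · simp
    ring

theorem topE_012 : topE 3 (ee 0 * (ee 1 * ee 2)) = 1 := by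
  have h1 : (ee 0 * (ee 1 * ee 2) : Ex 3) = ExteriorAlgebra.ιMulti ℝ 3 (fun i => (Pi.single i 1 : V 3)) := by
    rw [ExteriorAlgebra.ιMulti_apply]
    simp [List.ofFn_succ]
    rfl
  rw [h1, topE_ιMulti]
  have h2 : Matrix.of (fun i => (Pi.single i 1 : V 3)) = (1 : Matrix (Fin 3) (Fin 3) ℝ) := by
    ext i j
    simp [Matrix.one_apply, Pi.single_apply, eq_comm]
  rw [h2, Matrix.det_one]

theorem Dg_ge {k : ℕ} {θ : Fm k} {j : ℕ} (h : Dg j θ) (hj : k < j) : θ = 0 := Dg_big hj h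

/-- the linking formula -/
theorem link {ν : Fm 2} (h1 : Dg 1 ν) (hp : pb (trn 1) ν = ν) {c r : ℝ} (h0 : pb (cst 0 0) ν = c • dx 1)
    (hi : pb (cst 0 1) ν = 0) :
    cI 3 ((pb Bm ν + r • dx 2) * dd 3 (pb Bm ν + r • dx 2)) = -(r * c) := by
  set τ := pb Bm ν with hτ
  have hd : dd 3 (τ + r • dx 2) = dd 3 τ := by rw [map_add, map_smul, dd_dx, smul_zero, add_zero]
  have h3 : τ * dd 3 τ = 0 := by
    rw [hτ, pb_dd, ← map_mul]
    have h4 : ν * dd 2 ν = 0 := Dg_big (by norm_num : 2 < 1 + (1 + 1)) (Dg_mul h1 (Dg_dd h1))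
    rw [h4, map_zero]
  have h5 : dd 3 (dx 2 * τ) = -(dx 2 * dd 3 τ) := by
    rw [dd_mul, dd_dx, zero_mul, zero_add, sg_dx, neg_mul]
  have h6 : (τ + r • dx 2) * dd 3 (τ + r • dx 2) = (-r) • dd 3 (dx 2 * τ) := by
    rw [hd, add_mul, h3, zero_add, h5, smul_mul_assoc, smul_neg, neg_smul, neg_neg]
  rw [h6, cI_smul]
  have ha : pb (trn 1) (dx 2 * τ) = dx 2 * τ := by
    rw [map_mul, pb_dx_id (trn 1) (i := 2) (j := 2) (r := 0) (fun x => by simp [trn_apply]), hτ, ← pb_comp,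
      Bm_trn1, pb_comp, hp]
  have hb : pb (trn 2) (dx 2 * τ) = dx 2 * τ := by
    rw [map_mul, pb_dx_id (trn 2) (i := 2) (j := 2) (r := 1) (fun x => by simp [trn_apply]), hτ, ← pb_comp]
    congr 1
    have h7 : pb (Bm.comp (trn 2)) ν = pb (Bm.comp (trn 2)) (pb (trn 1) ν) := by rw [hp]
    rw [h7, ← pb_comp, Bm_trn2]
  rw [stokes3 ha hb]
  have hup : ∀ (c : ℝ) (x : V 2), ((0 : Fin 3).insertNth c x : V 3) = Function.update ((0 : Fin 3).insertNth c x : V 3) 0 c := by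
    intro c x
    funext j
    refine Fin.succAboveCases 0 ?_ (fun j => ?_) j
    · simp
    · simp
  have hface : ∀ c : ℝ, pb (cst 0 c) (dx 2 * τ) = dx 2 * pb Bm (pb (cst 0 c) ν) := by
    intro c
    rw [map_mul, pb_dx_id (cst 0 c) (i := 2) (j := 2) (r := 0) (fun x => by
      rw [cst_apply, Function.update_of_ne (by decide), add_zero]), hτ, ← pb_comp, Bm_cst, pb_comp]
  have e1 : ∀ x : V 2, topE 3 (ee 0 * ev ((0 : Fin 3).insertNth 1 x) (dx 2 * τ)) = 0 := by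
    intro x
    rw [hup, ← ee_ev_cst, hface, hi, map_zero, mul_zero, map_zero, mul_zero, map_zero]
  have e2 : ∀ x : V 2, topE 3 (ee 0 * ev ((0 : Fin 3).insertNth 0 x) (dx 2 * τ)) = -c := by
    intro x
    rw [hup, ← ee_ev_cst, hface, h0, map_smul]
    have h8 : pb Bm (dx 1) = dx 1 - dx 2 := by
      have h9 : Bm.cp 1 = co 1 - co 2 := Cs_ext fun x => rfl
      rw [pb_dx, h9, map_sub, map_sub, fc_pd_co, fc_pd_co]
    have h10 : (dx 2 * dx 2 : Fm 3) = 0 := by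
      rw [dx, ← map_mul, ee_mul_ee, map_zero]
    rw [h8, mul_smul_comm, mul_sub, h10, sub_zero, map_smul, mul_smul_comm, map_smul, smul_eq_mul]
    have h11 : ev ((0 : Fin 3).insertNth 0 x : V 3) (dx 2 * dx 1 : Fm 3) = ee 2 * ee 1 := by
      rw [map_mul, dx, dx, ev_cf, ev_cf]
    rw [h11, ee_swap 2 1, mul_neg, map_neg, topE_012]
    ring
  simp only [e1, e2]
  have hv : volume.real (Icc (0 : V 2) 1) = 1 := by
    rw [MeasureTheory.measureReal_def, Real.volume_Icc_pi]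
    simp
  rw [setIntegral_const, setIntegral_const, hv]
  simp

end Pool.Agent.Lib.MP_ccbbf6_gt.L5.IA
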