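import Pool.Agent.Lib.MP_ccbbf6_gt.L5.PHI01
import Pool.Agent.Lib.MP_ccbbf6_gt.L5.PHI02

/-!
# Level 5, block PHI 3: the relations of the phi side (helper56)

Input `PhiD`: a space `X` (= `P'`) with circle action `c`, an involution `τ`, a functional `I`, a connection `η`, a
homotopy `F` of maps to `M` between two invariant maps exchanged by `τ`, the basic `2`-form `f0`, and the low degree
cohomology of `X`.

Output: `β, θ = ι β, ζ` and the relations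
`θ = D f0 + dγ`, `x_+ - x_- = D e f0 + d`, `f0^2 = α e^2 + b (x_+ + x_-) + d`, `θ h_m(x_-, x_+) = d` (all basic).
-/

set_option autoImplicit false
set_option maxSynthPendingDepth 3

open Set Filter Topology

noncomputable section

namespace Pool.Agent.Lib.MP_ccbbf6_gt.L5

open L4 L4.FR

/-- the input of the phi side -/
structure PhiD (X M : Space) (m : ℕ) where
  c : Circ X
  τ : SMap X X
  ττ : ∀ x, τ.1 (τ.1 x) = x
  τc : ∀ x s, τ.1 (c.a.1 (x, s)) = c.a.1 (τ.1 x, s)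
  I : Om X →ₗ[ℝ] ℝ
  I_d : ∀ x, I (dO X x) = 0
  I_i : ∀ x, iO c x = 0 → I x = 0
  I_e : ∀ x, sO X x = x → I x = 0
  I_τ : ∀ x, I (τ.pull x) = -I x
  η : Om X
  η1 : Deg 1 η
  iη : iO c η = 1
  idη : iO c (dO X η) = 0
  τη : τ.pull η = η
  u : Om M
  u4 : Deg 4 u
  du : dO M u = 0
  up : u ^ (m + 1) = 0
  F : SMap X.xR M
  F0 : IMap c (F.comp (jO X 0))
  F1 : IMap c (F.comp (jO X 1))
  Fτ : ∀ x r, F.1 (τ.1 x, r) = F.1 (x, 1 - r)
  f : Om X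
  f2 : Deg 2 f
  df : dO X f = 0
  jf : iO c f = 0
  τf : τ.pull f = -f
  c0 : ∀ x : Om X, Deg 0 x → dO X x = 0 → ∃ r : ℝ, x = algebraMap ℝ (Om X) r
  c2 : ∀ x : Om X, Deg 2 x → dO X x = 0 → ∃ (r : ℝ) (y : Om X), Deg 1 y ∧ x = r • f + dO X y
  b : ℝ
  κ : Om X
  κ3 : Deg 3 κ
  dκ : dO X κ = f ^ 2 - b • (wt F u 0 + wt F u 1)

namespace PhiD

variable {X M : Space} {m : ℕ} (P : PhiD X M m)

lemma us : sO M P.u = P.u := Deg_even (j := 2) P.u4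

/-- `x_-` -/
def xm : Om X := wt P.F P.u 0
/-- `x_+` -/
def xp : Om X := wt P.F P.u 1
/-- the curvature -/
def e : Om X := dO X P.η
/-- the primitive of `x_+ - x_-` -/
def β : Om X := AO P.c (b0 P.F P.u)
/-- its contraction -/
def θ : Om X := iO P.c P.β
/-- the form with `dζ = β h_m` -/
def ζ : Om X := AO P.c (z0 P.F P.u m)
/-- `h_m(x_-, x_+)` -/
def h : Om X := ∑ j ∈ Finset.range (m + 1), P.xm ^ j * P.xp ^ (m - j)

lemma Fτ' : P.F.comp P.τ.up = P.F.comp (rO X) := SMap_ext fun z => P.Fτ z.1 z.2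

lemma τxm : P.τ.pull P.xm = P.xp := by
  unfold xm xp wt
  have h : P.F.comp ((jO X 0).comp P.τ) = P.F.comp (jO X 1) := SMap_ext fun x => by
    change P.F.1 (P.τ.1 x, 0) = P.F.1 (x, 1)
    rw [P.Fτ, sub_zero]
  rw [← pull_comp, ← pull_comp, ← pull_comp, h]

lemma τxp : P.τ.pull P.xp = P.xm := by
  unfold xm xp wt
  have h : P.F.comp ((jO X 1).comp P.τ) = P.F.comp (jO X 0) := SMap_ext fun x => by
    change P.F.1 (P.τ.1 x, 1) = P.F.1 (x, 0)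
    rw [P.Fτ, sub_self]
  rw [← pull_comp, ← pull_comp, ← pull_comp, h]

lemma τe : P.τ.pull P.e = P.e := by
  unfold e
  rw [← pull_d, P.τη]

lemma bas_xm : Bas P.c P.xm := Bas_pull P.c P.F0 P.u
lemma bas_xp : Bas P.c P.xp := Bas_pull P.c P.F1 P.u

lemma de : dO X P.e = 0 := d_d _
lemma bas_e : Bas P.c P.e := Bas_closed P.c P.idη P.de
lemma bas_f : Bas P.c P.f := Bas_closed P.c P.jf P.df

lemma d_xm : dO X P.xm = 0 := d_wt P.F P.u P.du 0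
lemma d_xp : dO X P.xp = 0 := d_wt P.F P.u P.du 1

lemma Deg_xm : Deg 4 P.xm := Deg_pull _ (Deg_pull _ P.u4)
lemma Deg_xp : Deg 4 P.xp := Deg_pull _ (Deg_pull _ P.u4)
lemma Deg_e : Deg 2 P.e := Deg_d P.η1

lemma s_xm : sO X P.xm = P.xm := Deg_even (j := 2) P.Deg_xm
lemma s_xp : sO X P.xp = P.xp := Deg_even (j := 2) P.Deg_xp
lemma s_e : sO X P.e = P.e := Deg_even (j := 1) P.Deg_e
lemma s_f : sO X P.f = P.f := Deg_even (j := 1) P.f2
lemma s_η : sO X P.η = -P.η := Deg_odd (j := 0) P.η1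

lemma Deg_β : Deg 3 P.β := Deg_A P.c (Deg_K (Deg_pull _ P.u4))
lemma Deg_θ : Deg 2 P.θ := Deg_i P.c P.Deg_β
lemma s_β : sO X P.β = -P.β := Deg_odd (j := 1) P.Deg_β
lemma s_θ : sO X P.θ = P.θ := Deg_even (j := 1) P.Deg_θ

lemma d_β : dO X P.β = P.xp - P.xm := by
  unfold β
  rw [A_d, d_b0_ev P.F P.du]
  exact A_bas P.c (Bas_sub P.c P.bas_xp P.bas_xm)

lemma d_θ : dO X P.θ = 0 := by
  have h1 : dO X P.θ = -iO P.c (dO X P.β) := cartan P.c (A_inv P.c _)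
  rw [h1, P.d_β, Bas_i P.c (Bas_sub P.c P.bas_xp P.bas_xm), neg_zero]

lemma i_θ : iO P.c P.θ = 0 := i_i P.c _

lemma bas_θ : Bas P.c P.θ := Bas_closed P.c P.i_θ P.d_θ

lemma τβ : P.τ.pull P.β = -P.β := by
  unfold β
  rw [A_eqv P.c P.c P.τc, ← map_neg]
  congr 1
  unfold b0
  rw [← K_up, ← pull_comp, P.Fτ', pull_comp, K_rev]

lemma τθ : P.τ.pull P.θ = -P.θ := by
  unfold θ
  rw [i_eqv P.c P.c P.τc, P.τβ, map_neg]

/-! ### Symmetrisation -/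

lemma τd (x : Om X) : P.τ.pull (dO X x) = dO X (P.τ.pull x) := rfl

/-- basic forms with a basic primitive -/
def Ex (P : PhiD X M m) (w : Om X) : Prop := ∃ y, Bas P.c y ∧ w = dO X y

variable {P}

lemma Ex_add {w w' : Om X} (h : P.Ex w) (h' : P.Ex w') : P.Ex (w + w') := by
  obtain ⟨y, hy, e1⟩ := h
  obtain ⟨z, hz, e2⟩ := h'
  exact ⟨y + z, Bas_add P.c hy hz, by rw [map_add, e1, e2]⟩

lemma Ex_smul (r : ℝ) {w : Om X} (h : P.Ex w) : P.Ex (r • w) := by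
  obtain ⟨y, hy, e1⟩ := h
  exact ⟨r • y, Bas_smul P.c r hy, by rw [map_smul, e1]⟩

lemma Ex_neg {w : Om X} (h : P.Ex w) : P.Ex (-w) := by
  have := Ex_smul (-1) h
  rwa [neg_one_smul] at this

lemma Ex_sub {w w' : Om X} (h : P.Ex w) (h' : P.Ex w') : P.Ex (w - w') := by
  rw [sub_eq_add_neg]
  exact Ex_add h (Ex_neg h')

lemma Ex_zero : P.Ex 0 := ⟨0, by
  have := Bas_smul P.c 0 (Bas_one P.c)
  rwa [zero_smul] at this, by rw [map_zero]⟩

/-- products with basic closed forms -/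
lemma Ex_mul {w v : Om X} (h : P.Ex w) (hv : Bas P.c v) (hdv : dO X v = 0) : P.Ex (w * v) := by
  obtain ⟨y, hy, e1⟩ := h
  exact ⟨y * v, Bas_mul P.c hy hv, by rw [d_mul, hdv, mul_zero, add_zero, e1]⟩

lemma mul_Ex {w v : Om X} (h : P.Ex w) (hv : Bas P.c v) (hsv : sO X v = v) (hdv : dO X v = 0) : P.Ex (v * w) := by
  rw [even_comm' hsv]
  exact Ex_mul h hv hdv

lemma Ex_τ {w : Om X} (h : P.Ex w) : P.Ex (P.τ.pull w) := by
  obtain ⟨y, hy, e1⟩ := h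
  exact ⟨P.τ.pull y, Bas_eqv P.c P.c P.τc hy, by rw [← P.τd, e1]⟩

lemma τ_τ (w : Om X) : P.τ.pull (P.τ.pull w) = w := by
  rw [← pull_comp]
  have h : P.τ.comp P.τ = SMap.id X := SMap_ext fun x => P.ττ x
  rw [h, pull_id]

variable (P)

/-- closed basic functions are constant and closed basic `2`-forms are combinations of `e` and `f` -/
theorem two {w : Om X} (h2 : Deg 2 w) (hw : Bas P.c w) (hd : dO X w = 0) :
    ∃ r s : ℝ, P.Ex (w - r • P.e - s • P.f) := by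
  obtain ⟨s, y, hy, e1⟩ := P.c2 w h2 hd
  have hb : Bas P.c (w - s • P.f) := Bas_sub P.c hw (Bas_smul P.c s P.bas_f)
  have hx : dO X y = w - s • P.f := by rw [e1]; abel
  obtain ⟨h1, h3, h4, h5⟩ := bas_prim P.iη P.idη hb hx
  have hdeg : Deg 0 (iO P.c (AO P.c y)) := Deg_i P.c (Deg_A P.c hy)
  obtain ⟨r, hr⟩ := P.c0 _ hdeg h1
  refine ⟨r, s, P.η * 0 + (AO P.c y - P.η * iO P.c (AO P.c y)), ?_, ?_⟩
  · rw [mul_zero, zero_add]
    exact h4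
  · rw [mul_zero, zero_add]
    have h6 : w - s • P.f = r • P.e + dO X (AO P.c y - P.η * iO P.c (AO P.c y)) := by
      rw [h5]
      congr 1
      rw [hr, ← Algebra.commutes, ← Algebra.smul_def]
      rfl
    have h7 : w - r • P.e - s • P.f = (w - s • P.f) - r • P.e := by abel
    rw [h7, h6]
    abel

/-- odd closed basic `2`-forms are multiples of `f` -/
theorem two_odd {w : Om X} (h2 : Deg 2 w) (hw : Bas P.c w) (hd : dO X w = 0) (hτ : P.τ.pull w = -w) :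
    ∃ s : ℝ, P.Ex (w - s • P.f) := by
  obtain ⟨r, s, h⟩ := P.two h2 hw hd
  refine ⟨s, ?_⟩
  have h1 := Ex_smul (1 / 2) (Ex_sub h (Ex_τ h))
  have h3 : (1 / 2 : ℝ) • (w - r • P.e - s • P.f - P.τ.pull (w - r • P.e - s • P.f)) = w - s • P.f := by
    rw [map_sub, map_sub, map_smul, map_smul, hτ, P.τe, P.τf]
    module
  rwa [h3] at h1

/-- the degree `D` : `θ ~ D f` -/
theorem exists_D : ∃ D : ℝ, P.Ex (P.θ - D • P.f) := P.two_odd P.Deg_θ P.bas_θ P.d_θ P.τθ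

/-- `x_+ - x_- ~ e θ` -/
theorem xpm : P.Ex (P.xp - P.xm - P.e * P.θ) := by
  have hb : Bas P.c (P.xp - P.xm) := Bas_sub P.c P.bas_xp P.bas_xm
  obtain ⟨_, _, h4, h5⟩ := bas_prim (x := b0 P.F P.u) P.iη P.idη hb (d_b0_ev P.F P.du)
  refine ⟨_, h4, ?_⟩
  have h6 : P.xp - P.xm = P.e * P.θ + dO X (AO P.c (b0 P.F P.u) - P.η * iO P.c (AO P.c (b0 P.F P.u))) := h5
  rw [h6]
  abel

/-- `f^2 ~ α e^2 + b (x_+ + x_-)` -/
theorem exists_α : ∃ α : ℝ, P.Ex (P.f ^ 2 - α • P.e ^ 2 - P.b • (P.xm + P.xp)) := by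
  have hb : Bas P.c (P.f ^ 2 - P.b • (P.xm + P.xp)) :=
    Bas_sub P.c (Bas_pow P.c P.bas_f 2) (Bas_smul P.c _ (Bas_add P.c P.bas_xm P.bas_xp))
  obtain ⟨h1, h2, h4, h5⟩ := bas_prim P.iη P.idη hb P.dκ
  have hdeg : Deg 2 (iO P.c (AO P.c P.κ)) := Deg_i P.c (Deg_A P.c P.κ3)
  obtain ⟨r, s, h⟩ := P.two hdeg h2 h1
  refine ⟨r, ?_⟩
  have k1 : P.Ex (P.f ^ 2 - P.b • (P.xm + P.xp) - P.e * iO P.c (AO P.c P.κ)) := by
    refine ⟨_, h4, ?_⟩
    conv_lhs => rw [h5]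
    change dO X P.η * _ + _ - dO X P.η * _ = _
    abel
  have k2 := mul_Ex h P.bas_e P.s_e P.de
  have k3 := Ex_add k1 k2
  have k4 := Ex_smul (1 / 2) (Ex_add k3 (Ex_τ k3))
  obtain ⟨t, ht⟩ : ∃ t, t = iO P.c (AO P.c P.κ) := ⟨_, rfl⟩
  rw [← ht] at k4
  have e1 : P.f ^ 2 - P.b • (P.xm + P.xp) - P.e * t + P.e * (t - r • P.e - s • P.f) =
      P.f ^ 2 - P.b • (P.xm + P.xp) - r • P.e ^ 2 - s • (P.e * P.f) := by
    rw [mul_sub, mul_sub, mul_smul_comm, mul_smul_comm, pow_two P.e]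
    abel
  rw [e1] at k4
  have e2 : P.τ.pull (P.f ^ 2 - P.b • (P.xm + P.xp) - r • P.e ^ 2 - s • (P.e * P.f)) =
      P.f ^ 2 - P.b • (P.xm + P.xp) - r • P.e ^ 2 + s • (P.e * P.f) := by
    simp only [map_sub, map_smul, map_pow, map_mul, map_add, P.τf, P.τe, P.τxm, P.τxp]
    rw [neg_sq, mul_neg, smul_neg, sub_neg_eq_add, add_comm P.xp]
  rw [e2] at k4
  have e3 : (1 / 2 : ℝ) • (P.f ^ 2 - P.b • (P.xm + P.xp) - r • P.e ^ 2 - s • (P.e * P.f) +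
      (P.f ^ 2 - P.b • (P.xm + P.xp) - r • P.e ^ 2 + s • (P.e * P.f))) =
      P.f ^ 2 - r • P.e ^ 2 - P.b • (P.xm + P.xp) := by module
  rwa [e3] at k4

lemma s_h : sO X P.h = P.h := by
  unfold h
  rw [map_sum]
  refine Finset.sum_congr rfl fun j _ => ?_
  rw [map_mul, map_pow, map_pow, P.s_xm, P.s_xp]

lemma bas_h : Bas P.c P.h := by
  unfold h
  refine Finset.sum_induction _ (Bas P.c) (fun _ _ h h' => Bas_add P.c h h') ?_ fun j _ => ?_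
  · intro k p
    rw [on_zero, on_zero, map_zero]
  · exact Bas_mul P.c (Bas_pow P.c P.bas_xm _) (Bas_pow P.c P.bas_xp _)

lemma d_h : dO X P.h = 0 := by
  unfold h
  rw [map_sum]
  refine Finset.sum_eq_zero fun j _ => ?_
  rw [d_mul, d_pow_zero P.d_xm, d_pow_zero P.d_xp, zero_mul, mul_zero, add_zero]

/-- `d ζ = h_m β` -/
lemma d_ζ : dO X P.ζ = P.h * P.β := by
  unfold ζ
  rw [A_d, d_z0_ev P.F P.us P.du P.up]
  have h1 : b0 P.F P.u * ∑ j ∈ Finset.range (m + 1), wt P.F P.u 0 ^ j * wt P.F P.u 1 ^ (m - j) =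
      P.h * b0 P.F P.u := (even_comm' P.s_h _).symm
  rw [h1, A_mul P.c P.bas_h]
  rfl

/-- `θ h_m(x_-, x_+) ~ 0` -/
theorem hθ : P.Ex (P.h * P.θ) := by
  refine ⟨-iO P.c P.ζ, ?_, ?_⟩
  · have h0 : iO P.c (-iO P.c P.ζ) = 0 := by rw [map_neg, i_i, neg_zero]
    refine Bas_of P.c h0 ?_
    have h1 : dO X (-iO P.c P.ζ) = iO P.c (dO X P.ζ) := by
      rw [map_neg]
      unfold ζ
      rw [cartan P.c (A_inv P.c _), neg_neg]
    rw [h1, i_i]
  · have h1 : dO X (-iO P.c P.ζ) = iO P.c (dO X P.ζ) := by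
      rw [map_neg]
      unfold ζ
      rw [cartan P.c (A_inv P.c _), neg_neg]
    rw [h1, P.d_ζ, i_mul, Bas_i P.c P.bas_h, zero_mul, zero_add, P.s_h]
    rfl

end PhiD

end Pool.Agent.Lib.MP_ccbbf6_gt.L5
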