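import Pool.Agent.Lib.MP_ccbbf6_gt.L5.EPS08
import Pool.Agent.Lib.MP_ccbbf6_gt.L5.IA02
import Pool.Agent.Lib.MP_ccbbf6_gt.L5.PHI03

/-!
# Level 5, block INTa, part 3: equivariant plots and the formula for `α` (helper91)
-/

set_option autoImplicit false

open Set Filter Topology MeasureTheory
open scoped ContDiff

noncomputable section

namespace Pool.Agent.Lib.MP_ccbbf6_gt.L5.IA

open L4 L4.FR

/-- `(s, a, b) ↦ (s, a - b, b)` -/
def Am : FR.Sm 3 3 := ⟨fun x => ![x 0, x 1 - x 2, x 2], by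
  rw [contDiff_pi]
  intro j
  fin_cases j
  · exact contDiff_apply ℝ ℝ 0
  · exact (contDiff_apply ℝ ℝ 1).sub (contDiff_apply ℝ ℝ 2)
  · exact contDiff_apply ℝ ℝ 2⟩

theorem pr_Am : (pr 2).comp Am = Bm := by
  refine FR.Sm.ext fun x => ?_
  funext i
  change (![x 0, x 1 - x 2, x 2] : V 3) i.castSucc = (![x 0, x 1 - x 2] : V 2) i
  fin_cases i <;> rfl

variable {X : Space} (c : Circ X)

/-- the equivariant plot of a disc -/
def eqp (D : X.Plot 2) : X.Plot 3 := (c.op D).cmp Am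

theorem eqp_apply (D : X.Plot 2) (y : V 3) : (eqp c D).1 y = c.a.1 (D.1 (Bm y), y 2) := by
  change c.a.1 (D.1 (pr 2 (Am y)), (Am y) (Fin.last 2)) = _
  have h : pr 2 (Am y) = Bm y := by rw [← pr_Am]; rfl
  rw [h]
  rfl

/-- discs with boundary an orbit, in polar coordinates -/
structure Dsc (D : X.Plot 2) (x₀ : X.pt) : Prop where
  per : ∀ y, D.1 (y + Pi.single 1 1) = D.1 y
  lo : ∀ y, D.1 (Function.update y 0 0) = c.a.1 (x₀, y 1)
  hi : ∀ y, D.1 (Function.update y 0 1) = D.1 ![1, 0]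

theorem Circ_one' (x : X.pt) (s : ℝ) : c.a.1 (x, s + 1) = c.a.1 (x, s) := c.one x s

theorem Bm_add1 (y : V 3) : Bm (y + Pi.single 1 1) = Bm y + Pi.single 1 1 := by
  funext i
  fin_cases i
  · simp [Bm_apply]
  · simp [Bm_apply]
    ring

theorem Bm_add2 (y : V 3) : Bm y = Bm (y + Pi.single 2 1) + Pi.single 1 1 := by
  funext i
  fin_cases i
  · simp [Bm_apply]
  · simp [Bm_apply]
    ring

theorem Bm_upd0 (y : V 3) (r : ℝ) : Bm (Function.update y 0 r) = Function.update (Bm y) 0 r := by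
  funext i
  fin_cases i
  · simp [Bm_apply]
  · simp [Bm_apply, Function.update]

theorem Dsc.sph {D : X.Plot 2} {x₀ : X.pt} (h : Dsc c D x₀) : Sph (eqp c D).1 := by
  refine ⟨fun y => ?_, fun y => ?_, fun y => ?_, fun y => ?_⟩
  · rw [eqp_apply, eqp_apply, Bm_add1, h.per]
    congr 2
    simp
  · have h1 : D.1 (Bm y) = D.1 (Bm (y + Pi.single 2 1)) := by rw [Bm_add2 y, h.per]
    rw [eqp_apply, eqp_apply, h1]
    have h2 : (y + Pi.single 2 1 : V 3) 2 = y 2 + 1 := by simp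
    rw [h2, c.one]
  · rw [eqp_apply, eqp_apply, Bm_upd0, Bm_upd0, h.lo, h.lo, c.add, c.add]
    congr 2
    simp [Bm_apply, Function.update]
  · rw [eqp_apply, eqp_apply, Bm_upd0, Bm_upd0, h.hi, h.hi]
    congr 2

theorem on_bas {w : Om X} (hw : Bas c w) (D : X.Plot 2) : Om.on w (eqp c D) = pb Bm (Om.on w D) := by
  rw [eqp, on_cmp, hw, ← pb_comp, pr_Am]

/-- the connection along an orbit plot -/
theorem on_eta {η : Om X} (h0 : iO c η = 1) (h1 : iO c (dO X η) = 0) {k : ℕ} (p : X.Plot k) :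
    Om.on η (c.op p) = pb (pr k) (Om.on η p) + dx (Fin.last k) := by
  have key : ∀ (w : Om X) (u : ℝ), iO c w = algebraMap ℝ (Om X) u → ∀ (k : ℕ) (p : X.Plot k),
      cs k (Om.on w (c.op p)) = algebraMap ℝ (Fm (k + 1)) u := by
    intro w u hw k p
    rw [← sub_eq_zero]
    refine Fm_slice (fun s => ?_) (fun s => ?_)
    · have h2 : Om.on (iO c w) ((c.at s).pl p) = algebraMap ℝ (Fm k) u := by
        rw [hw, Algebra.algebraMap_eq_smul_one, Algebra.algebraMap_eq_smul_one, on_smul, on_one]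
      rw [on_i, ← op_ts, on_cmp, cs_ts, ← pb_comp, ts_sl, zero_add] at h2
      rw [map_sub, AlgHom.commutes, h2, sub_self]
    · have h3 : cs k (algebraMap ℝ (Fm (k + 1)) u) = 0 := by
        have h4 : algebraMap ℝ (Fm (k + 1)) u = fc (k + 1) (algebraMap ℝ (Cs (k + 1)) u) := (AlgHom.commutes _ _).symm
        rw [h4, cs, cn_fc]
      rw [map_sub, cs_cs, h3, sub_zero, map_zero]
  have e1 := key η 1 (by rw [h0, map_one]) k p
  have e2 := key (dO X η) 0 (by rw [h1, map_zero]) k p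
  rw [map_one] at e1
  rw [map_zero] at e2
  have e3 : cs k (dx (Fin.last k) : Fm (k + 1)) = 1 := by
    rw [cs, cn_dx, lst_apply, Pi.single_eq_same, map_one]
  have e4 : cs k (Om.on η (c.op p) - dx (Fin.last k)) = 0 := by rw [map_sub, e1, e3, sub_self]
  have e5 : cs k (dd (k + 1) (Om.on η (c.op p) - dx (Fin.last k))) = 0 := by
    rw [map_sub, dd_dx, sub_zero]
    exact e2
  have e6 : pb (sl k 0) (dx (Fin.last k) : Fm (k + 1)) = 0 := by
    rw [pb_dx, cp_sl_last, dd_fc]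
    refine Finset.sum_eq_zero fun i _ => ?_
    rw [pd_const, map_zero, zero_mul]
  have e7 := Fm_pr e4 e5
  rw [map_sub (pb (sl k 0)), e6, sub_zero, pb_op_zero] at e7
  rw [← e7]
  abel

theorem on_eta_eqp {η : Om X} (h0 : iO c η = 1) (h1 : iO c (dO X η) = 0) (D : X.Plot 2) :
    Om.on η (eqp c D) = pb Bm (Om.on η D) + (1 : ℝ) • dx 2 := by
  rw [eqp, on_cmp, on_eta c h0 h1, map_add, ← pb_comp, pr_Am, one_smul]
  congr 1
  exact pb_dx_id Am (i := 2) (j := 2) (r := 0) (fun x => by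
    change x 2 = x 2 + 0
    rw [add_zero])

/-- forms of positive degree vanish along constant plots -/
theorem on_const {w : Om X} {j : ℕ} (hw : Deg (j + 1) w) {k : ℕ} (p : X.Plot k) (q : X.Plot 0) (h : ∀ y, p.1 y = q.1 0) :
    Om.on w p = 0 := by
  have h1 : p = q.cmp ⟨fun _ => 0, contDiff_const⟩ := Plot_ext fun y => h y
  have h2 : Om.on w q = 0 := Dg_big (by omega) (hw 0 q)
  rw [h1, on_cmp, h2, map_zero]

/-- `∫ η dη` over the equivariant sphere -/
theorem cI_eta {η : Om X} (hd : Deg 1 η) (h0 : iO c η = 1) (h1 : iO c (dO X η) = 0) {D : X.Plot 2} {x₀ : X.pt}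
    (h : Dsc c D x₀) : cI 3 (Om.on (η * dO X η) (eqp c D)) = -1 := by
  rw [on_mul, on_d, on_eta_eqp c h0 h1, link (c := 1) (hd _ _)]
  · norm_num
  · rw [← on_cmp]
    congr 1
    exact Plot_ext fun y => h.per y
  · have hx : D.1 0 = x₀ := by
      have h3 := h.lo 0
      have h4 : (Function.update 0 0 0 : V 2) = 0 := by
        funext i
        fin_cases i <;> simp [Function.update]
      rw [h4] at h3
      rw [h3]
      exact c.zero x₀
    have h2 : D.cmp (cst 0 0) = c.op (D.cmp (⟨fun _ => 0, contDiff_const⟩ : FR.Sm 1 2)) := by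
      refine Plot_ext fun z => ?_
      change D.1 (Function.update z 0 0) = c.a.1 (D.1 0, z 1)
      rw [h.lo, hx]
    rw [← on_cmp, h2, on_eta c h0 h1, on_const hd _ (D.cmp (⟨fun _ => 0, contDiff_const⟩ : FR.Sm 0 2)) (fun _ => rfl),
      map_zero, zero_add, one_smul]
    rfl
  · rw [← on_cmp]
    exact on_const hd _ (D.cmp (⟨fun _ => ![1, 0], contDiff_const⟩ : FR.Sm 0 2)) (fun y => h.hi y)

/-- forms along plots of a two-dimensional sphere have no top coefficient in dimension three -/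
theorem low_S2 (θ : Om (spS 3)) (w : (spS 3).Plot 3) (x : V 3) : topE 3 (ev x (Om.on θ w)) = 0 := by
  obtain ⟨R, _, hR⟩ := plot_fac w x
  rw [ev_on_congr θ hR, on_cmp, ev_pb, topE_map, det_tr]
  have h1 : (fderiv ℝ (plVE w : V 3 → V 3) x).det = 0 := by
    by_contra h
    have h2 : ∃ v, fderiv ℝ (plVE w : V 3 → V 3) x v = plVE w x := by
      have h3 : LinearMap.det (fderiv ℝ (plVE w : V 3 → V 3) x : V 3 →ₗ[ℝ] V 3) ≠ 0 := h
      refine ⟨(LinearMap.equivOfDetNeZero _ h3).symm (plVE w x), ?_⟩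
      exact (LinearMap.equivOfDetNeZero _ h3).apply_symm_apply (plVE w x)
    obtain ⟨v, hv⟩ := h2
    have h4 : ∀ y, ∑ i, (plVE w y i) * (plVE w y i) = 1 := by
      intro y
      have h5 := (w.1 y).2
      have h6 : ‖(w.1 y).1‖ ^ 2 = ∑ i, (plVE w y i) * (plVE w y i) := by
        rw [EuclideanSpace.norm_sq_eq]
        refine Finset.sum_congr rfl fun i _ => ?_
        rw [Real.norm_eq_abs, sq_abs, pow_two]
        rfl
      rw [← h6, h5, one_pow]
    have h7 : HasFDerivAt (plVE w : V 3 → V 3) (fderiv ℝ (plVE w : V 3 → V 3) x) x := ((plVE w).diff x).hasFDerivAt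
    have h8 : ∀ i, HasFDerivAt (fun y => plVE w y i) ((ContinuousLinearMap.proj (R := ℝ) (φ := fun _ : Fin 3 => ℝ) i).comp
        (fderiv ℝ (plVE w : V 3 → V 3) x)) x := fun i => (hasFDerivAt_pi'.1 h7) i
    have h9 : HasFDerivAt (fun y => ∑ i, (plVE w y i) * (plVE w y i)) (∑ i, (plVE w x i • ((ContinuousLinearMap.proj (R := ℝ)
        (φ := fun _ : Fin 3 => ℝ) i).comp (fderiv ℝ (plVE w : V 3 → V 3) x)) + plVE w x i • ((ContinuousLinearMap.proj (R := ℝ)
        (φ := fun _ : Fin 3 => ℝ) i).comp (fderiv ℝ (plVE w : V 3 → V 3) x)))) x :=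
      HasFDerivAt.fun_sum fun i _ => (h8 i).mul (h8 i)
    have h10 : (fun y => ∑ i, (plVE w y i) * (plVE w y i)) = fun _ => (1 : ℝ) := funext h4
    rw [h10] at h9
    have h11 := congrArg (fun L : V 3 →L[ℝ] ℝ => L v) (h9.unique (hasFDerivAt_const (1 : ℝ) x))
    simp only [_root_.zero_apply] at h11
    have h12 : (∑ i, (plVE w x i • ((ContinuousLinearMap.proj (R := ℝ)
        (φ := fun _ : Fin 3 => ℝ) i).comp (fderiv ℝ (plVE w : V 3 → V 3) x)) + plVE w x i • ((ContinuousLinearMap.proj (R := ℝ)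
        (φ := fun _ : Fin 3 => ℝ) i).comp (fderiv ℝ (plVE w : V 3 → V 3) x)))) v =
        2 * ∑ i, (plVE w x i) * (plVE w x i) := by
      rw [ContinuousLinearMap.sum_apply, Finset.mul_sum]
      refine Finset.sum_congr rfl fun i _ => ?_
      change plVE w x i * (fderiv ℝ (plVE w : V 3 → V 3) x v i) + plVE w x i * (fderiv ℝ (plVE w : V 3 → V 3) x v i) = _
      rw [hv]
      ring
    rw [h12, h4] at h11
    norm_num at h11
  rw [h1, zero_mul]

theorem cI_low (j : SMap (spS 3) X) (w : (spS 3).Plot 3) (θ : Om X) : cI 3 (Om.on θ (j.pl w)) = 0 := by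
  rw [← cI_zero (k := 3)]
  refine cI_congr fun x _ => ?_
  rw [map_zero, map_zero]
  exact low_S2 (j.pull θ) w x

/-- **the formula for `α`** -/
theorem alpha_formula {M : Space} {m : ℕ} (P : PhiD X M m) {α : ℝ}
    (hα : P.Ex (P.f ^ 2 - α • P.e ^ 2 - P.b • (P.xm + P.xp))) {D : X.Plot 2} {x₀ : X.pt} (hD : Dsc P.c D x₀)
    {G : X.Plot 4} (hG : Sph4 G.1) (h1 : G.cmp (sl 3 1) = eqp P.c D) {j : SMap (spS 3) X} {w : (spS 3).Plot 3}
    (h0 : G.cmp (sl 3 0) = j.pl w) :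
    α = cI 4 (Om.on (P.f ^ 2) G) - P.b * (cI 4 (Om.on P.xm G) + cI 4 (Om.on P.xp G)) := by
  have key : ∀ θ : Om X, cI 4 (Om.on (dO X θ) G) = -cI 3 (Om.on θ (eqp P.c D)) := by
    intro θ
    rw [on_d, stokes4 (SF4.on hG θ), ← on_cmp, ← on_cmp, h1, h0, cI_low, sub_zero]
  obtain ⟨y, hy, e1⟩ := hα
  obtain ⟨ζ, hζ⟩ : ∃ ζ, ζ = P.κ - α • (P.η * P.e) - y := ⟨_, rfl⟩
  have hdζ : dO X ζ = 0 := by
    have h2 : dO X (P.η * P.e) = P.e ^ 2 := by
      rw [d_mul, P.de, mul_zero, add_zero, pow_two]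
      rfl
    rw [hζ, map_sub, map_sub, map_smul, h2, ← e1, P.dκ]
    change P.f ^ 2 - P.b • (P.xm + P.xp) - α • P.e ^ 2 - _ = 0
    abel
  have h3 : cI 3 (Om.on ζ (eqp P.c D)) = 0 := by
    have h4 := key ζ
    rw [hdζ, on_zero, cI_zero] at h4
    linarith
  have h5 : cI 3 (Om.on y (eqp P.c D)) = 0 := by
    rw [on_bas P.c hy, ← cI_zero (k := 3)]
    refine cI_congr fun x _ => ?_
    rw [topE_low (by norm_num), map_zero, map_zero]
  have h6 : cI 3 (Om.on P.κ (eqp P.c D)) = -α := by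
    have h7 : P.κ = ζ + α • (P.η * P.e) + y := by
      rw [hζ]
      abel
    rw [h7, on_add, on_add, on_smul, cI_add, cI_add, cI_smul, h3, h5]
    have h8 : cI 3 (Om.on (P.η * P.e) (eqp P.c D)) = -1 := cI_eta P.c P.η1 P.iη P.idη hD
    rw [h8]
    ring
  have h9 := key P.κ
  rw [h6, P.dκ, on_sub, on_smul, on_add, cI_sub, cI_smul, cI_add] at h9
  change cI 4 (Om.on (P.f ^ 2) G) - P.b * (cI 4 (Om.on P.xm G) + cI 4 (Om.on P.xp G)) = _ at h9
  linarith

end Pool.Agent.Lib.MP_ccbbf6_gt.L5.IA
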