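import Pool.Agent.Lib.MP_ccbbf6_gt.L5.IA02

/-!
# Level 5, block INTa, part 4: connection forms of frames (helper91)
-/

set_option autoImplicit false

open Set Filter Topology MeasureTheory
open scoped ContDiff

noncomputable section

namespace Pool.Agent.Lib.MP_ccbbf6_gt.L5.IA

open L4 L4.FR

variable {k l N : ℕ}

/-- `(2π)⁻¹ ⟨a, db⟩` -/
def mu (a b : FR.Sm k N) : Fm k := (2 * Real.pi)⁻¹ • ∑ i, fc k (a.cp i) * dd k (fc k (b.cp i))

/-- `μ dμ` -/
def CS (a b : FR.Sm k N) : Fm k := mu a b * dd k (mu a b)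

theorem mu_comp (a b : FR.Sm l N) (g : FR.Sm k l) : pb g (mu a b) = mu (a.comp g) (b.comp g) := by
  unfold mu
  rw [map_smul, map_sum]
  congr 1
  refine Finset.sum_congr rfl fun i _ => ?_
  rw [map_mul, pb_fc, ← pb_dd, pb_fc]
  rfl

theorem CS_comp (a b : FR.Sm l N) (g : FR.Sm k l) : pb g (CS a b) = CS (a.comp g) (b.comp g) := by
  unfold CS
  rw [map_mul, ← pb_dd, mu_comp]

theorem Dg_mu (a b : FR.Sm k N) : Dg 1 (mu a b) := by
  unfold mu
  refine Dg_smul _ ?_
  refine Finset.sum_induction _ (Dg 1) (fun _ _ h h' => Dg_add h h') Dg_zero fun i _ => ?_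
  exact Dg_mul (i := 0) (j := 1) (Dg_fc _) (Dg_dd (Dg_fc _))

theorem ev_mu (a b : FR.Sm k N) (x : V k) : ev x (mu a b) = ExteriorAlgebra.ι ℝ (fun j =>
    (2 * Real.pi)⁻¹ * ∑ i, a x i * fderiv ℝ (b : V k → V N) x (Pi.single j 1) i) := by
  have h2 : ∀ i, ev x (fc k (a.cp i) * dd k (fc k (b.cp i))) =
      a x i • ExteriorAlgebra.ι ℝ (fun j => fderiv ℝ (b : V k → V N) x (Pi.single j 1) i) := by
    intro i
    rw [map_mul, ev_fc, ev_dd_fc, ← Algebra.smul_def]
    congr 2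
    funext j
    rw [pd_apply]
    have h3 : HasFDerivAt (b : V k → V N) (fderiv ℝ (b : V k → V N) x) x := (b.diff x).hasFDerivAt
    have h4 := (hasFDerivAt_pi'.1 h3) i
    change fderiv ℝ (fun y => b y i) x (Pi.single j 1) = _
    rw [h4.fderiv]
    rfl
  unfold mu
  have h5 : (fun j => (2 * Real.pi)⁻¹ * ∑ i, a x i * fderiv ℝ (b : V k → V N) x (Pi.single j 1) i) =
      (2 * Real.pi)⁻¹ • ∑ i, a x i • (fun j => fderiv ℝ (b : V k → V N) x (Pi.single j 1) i) := by
    funext j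
    simp [Finset.sum_apply]
  rw [h5]
  simp only [map_smul, map_sum, h2]

theorem ev_dx (x : V k) (j : Fin k) : ev x (dx j) = ExteriorAlgebra.ι ℝ (Pi.single j 1) := by
  rw [dx, ev_cf]
  rfl

/-- comparison of connection forms -/
theorem mu_eq {a b : FR.Sm k N} {θ : Fm k} {L : V k → V k → ℝ} (hθ : ∀ x, ev x θ = ExteriorAlgebra.ι ℝ (fun j => L x (Pi.single j 1)))
    (h : ∀ x v, (2 * Real.pi)⁻¹ * ∑ i, a x i * fderiv ℝ (b : V k → V N) x v i = L x v) : mu a b = θ := by
  refine ev_ext fun x => ?_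
  rw [ev_mu, hθ]
  congr 1
  funext j
  exact h x _

/-- the frame integral -/
theorem cI_ff {X : Space} {f : Om X} {G : X.Plot 4} {a b : FR.Sm 4 N} {ε : ℝ} (hε : ε * ε = 1)
    (hf : Om.on f G = ε • dd 4 (mu a b)) (ha : Sph4 (a : V 4 → V N)) (hb : Sph4 (b : V 4 → V N)) :
    cI 4 (Om.on (f ^ 2) G) = -(cI 3 (CS (a.comp (sl 3 1)) (b.comp (sl 3 1))) -
      cI 3 (CS (a.comp (sl 3 0)) (b.comp (sl 3 0)))) := by
  have h1 : Om.on (f ^ 2) G = dd 4 (CS a b) := by
    rw [pow_two, on_mul, hf, smul_mul_smul_comm, hε, one_smul, CS, dd_mul, dd_dd, mul_zero, add_zero]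
  have h2 : SF4 (mu a b) := by
    unfold mu
    refine SF4.smul _ (SF4.sum _ fun i => SF4.mul (SF4.fc ?_) (SF4.dd (SF4.fc ?_)))
    · exact ha.comp (fun z => z i)
    · exact hb.comp (fun z => z i)
  rw [h1, stokes4 (θ := CS a b) (SF4.mul h2 h2.dd), CS_comp, CS_comp]

/-! ### The frame over the equivariant sphere -/

/-- orthonormal frames over the disc in polar coordinates -/
structure DFr (φ : ℤ) (a b : FR.Sm 2 N) : Prop where
  per_a : ∀ y, a (y + Pi.single 1 1) = a y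
  per_b : ∀ y, b (y + Pi.single 1 1) = b y
  hi_a : ∀ y, a (Function.update y 0 1) = a ![1, 0]
  hi_b : ∀ y, b (Function.update y 0 1) = b ![1, 0]
  n_a : ∀ y, ∑ i, a y i * a y i = 1
  n_b : ∀ y, ∑ i, b y i * b y i = 1
  ab : ∀ y, ∑ i, a y i * b y i = 0
  lo : ∃ e₁ e₂ : V N, ∀ y, a (Function.update y 0 0) =
    Real.cos (2 * Real.pi * φ * y 1) • e₁ + Real.sin (2 * Real.pi * φ * y 1) • e₂ ∧
    b (Function.update y 0 0) = -Real.sin (2 * Real.pi * φ * y 1) • e₁ + Real.cos (2 * Real.pi * φ * y 1) • e₂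

/-- the angle -/
def ang (φ : ℤ) (y : V 3) : ℝ := 2 * Real.pi * φ * y 2

theorem contDiff_ang (φ : ℤ) : ContDiff ℝ ∞ (ang φ) := contDiff_const.mul (contDiff_apply ℝ ℝ 2)

/-- the first vector of the frame -/
def rA (φ : ℤ) (a b : FR.Sm 2 N) : FR.Sm 3 N :=
  ⟨fun y => Real.cos (ang φ y) • a (Bm y) + Real.sin (ang φ y) • b (Bm y),
    ((Real.contDiff_cos.comp (contDiff_ang φ)).smul (a.smooth.comp Bm.smooth)).add
      ((Real.contDiff_sin.comp (contDiff_ang φ)).smul (b.smooth.comp Bm.smooth))⟩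

/-- the second vector of the frame -/
def rB (φ : ℤ) (a b : FR.Sm 2 N) : FR.Sm 3 N :=
  ⟨fun y => -Real.sin (ang φ y) • a (Bm y) + Real.cos (ang φ y) • b (Bm y),
    ((Real.contDiff_sin.comp (contDiff_ang φ)).neg.smul (a.smooth.comp Bm.smooth)).add
      ((Real.contDiff_cos.comp (contDiff_ang φ)).smul (b.smooth.comp Bm.smooth))⟩

theorem rA_apply (φ : ℤ) (a b : FR.Sm 2 N) (y : V 3) :
    rA φ a b y = Real.cos (ang φ y) • a (Bm y) + Real.sin (ang φ y) • b (Bm y) := rfl

theorem rB_apply (φ : ℤ) (a b : FR.Sm 2 N) (y : V 3) :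
    rB φ a b y = -Real.sin (ang φ y) • a (Bm y) + Real.cos (ang φ y) • b (Bm y) := rfl

theorem DFr.sph {φ : ℤ} {a b : FR.Sm 2 N} (h : DFr φ a b) : Sph (fun y => (rA φ a b y, rB φ a b y)) := by
  obtain ⟨e₁, e₂, he⟩ := h.lo
  have hper : ∀ r : ℝ, Real.cos (2 * Real.pi * φ * (r + 1)) = Real.cos (2 * Real.pi * φ * r) ∧
      Real.sin (2 * Real.pi * φ * (r + 1)) = Real.sin (2 * Real.pi * φ * r) := by
    intro r
    have h1 : 2 * Real.pi * φ * (r + 1) = 2 * Real.pi * φ * r + φ * (2 * Real.pi) := by ring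
    rw [h1, Real.cos_add_int_mul_two_pi, Real.sin_add_int_mul_two_pi]
    exact ⟨rfl, rfl⟩
  refine ⟨fun y => ?_, fun y => ?_, fun y => ?_, fun y => ?_⟩
  · have h1 : ang φ (y + Pi.single 1 1) = ang φ y := by
      unfold ang
      simp
    have h2 : Bm (y + Pi.single 1 1) = Bm y + Pi.single 1 1 := congrArg (fun g : FR.Sm 3 2 => g y) Bm_trn1
    simp only [rA_apply, rB_apply, h1, h2, h.per_a, h.per_b]
  · have h1 : ang φ (y + Pi.single 2 1) = 2 * Real.pi * φ * (y 2 + 1) := by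
      unfold ang
      simp
    have h2 : Bm y = Bm (y + Pi.single 2 1) + Pi.single 1 1 :=
      (congrArg (fun g : FR.Sm 3 2 => g y) Bm_trn2).symm
    have h3 : a (Bm y) = a (Bm (y + Pi.single 2 1)) := by rw [h2, h.per_a]
    have h4 : b (Bm y) = b (Bm (y + Pi.single 2 1)) := by rw [h2, h.per_b]
    simp only [rA_apply, rB_apply, h1, h3, h4, (hper (y 2)).1, (hper (y 2)).2]
    rfl
  · have key : ∀ z : V 3, (rA φ a b (Function.update z 0 0), rB φ a b (Function.update z 0 0)) =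
        (Real.cos (2 * Real.pi * φ * z 1) • e₁ + Real.sin (2 * Real.pi * φ * z 1) • e₂,
          -Real.sin (2 * Real.pi * φ * z 1) • e₁ + Real.cos (2 * Real.pi * φ * z 1) • e₂) := by
      intro z
      have h2 : Bm (Function.update z 0 0) = Function.update (Bm z) 0 0 := congrArg (fun g : FR.Sm 3 2 => g z) (Bm_cst 0)
      have h3 : ang φ (Function.update z 0 0) = 2 * Real.pi * φ * z 2 := by
        unfold ang
        rw [Function.update_of_ne (by decide)]
      have h4 : 2 * Real.pi * φ * z 1 = 2 * Real.pi * φ * z 2 + 2 * Real.pi * φ * (Bm z 1) := by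
        rw [Bm_apply]
        simp
        ring
      rw [rA_apply, rB_apply, h2, h3, (he _).1, (he _).2, h4, Real.cos_add, Real.sin_add]
      refine Prod.ext ?_ ?_
      · module
      · module
    have k1 := key y
    have k2 := key (Function.update y 2 0)
    rw [Function.update_of_ne (by decide : (1 : Fin 3) ≠ 2)] at k2
    exact k1.trans k2.symm
  · have key : ∀ z : V 3, (rA φ a b (Function.update z 0 1), rB φ a b (Function.update z 0 1)) =
        (Real.cos (2 * Real.pi * φ * z 2) • a ![1, 0] + Real.sin (2 * Real.pi * φ * z 2) • b ![1, 0],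
          -Real.sin (2 * Real.pi * φ * z 2) • a ![1, 0] + Real.cos (2 * Real.pi * φ * z 2) • b ![1, 0]) := by
      intro z
      have h2 : Bm (Function.update z 0 1) = Function.update (Bm z) 0 1 := congrArg (fun g : FR.Sm 3 2 => g z) (Bm_cst 1)
      have h3 : ang φ (Function.update z 0 1) = 2 * Real.pi * φ * z 2 := by
        unfold ang
        rw [Function.update_of_ne (by decide)]
      rw [rA_apply, rB_apply, h2, h3, h.hi_a, h.hi_b]
    have k1 := key y
    have k2 := key (Function.update y 1 0)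
    rw [Function.update_of_ne (by decide : (2 : Fin 3) ≠ 1)] at k2
    exact k1.trans k2.symm

/-- derivative of an inner product -/
theorem deriv_inner {a b : FR.Sm k N} {r : ℝ} (h : ∀ y, ∑ i, a y i * b y i = r) (x v : V k) :
    ∑ i, a x i * fderiv ℝ (b : V k → V N) x v i + ∑ i, b x i * fderiv ℝ (a : V k → V N) x v i = 0 := by
  have ha : ∀ i, HasFDerivAt (fun y => a y i) ((ContinuousLinearMap.proj (R := ℝ) (φ := fun _ : Fin N => ℝ) i).comp
      (fderiv ℝ (a : V k → V N) x)) x := fun i => (hasFDerivAt_pi'.1 (a.diff x).hasFDerivAt) i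
  have hb : ∀ i, HasFDerivAt (fun y => b y i) ((ContinuousLinearMap.proj (R := ℝ) (φ := fun _ : Fin N => ℝ) i).comp
      (fderiv ℝ (b : V k → V N) x)) x := fun i => (hasFDerivAt_pi'.1 (b.diff x).hasFDerivAt) i
  have h9 := HasFDerivAt.fun_sum (u := Finset.univ) fun i _ => (ha i).mul (hb i)
  have h10 : (fun y => ∑ i, a y i * b y i) = fun _ => r := funext h
  change HasFDerivAt (fun y => ∑ i, a y i * b y i) _ x at h9
  rw [h10] at h9
  have h11 := congrArg (fun L : V k →L[ℝ] ℝ => L v) (h9.unique (hasFDerivAt_const r x))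
  simp only [_root_.zero_apply, _root_.sum_apply] at h11
  rw [← Finset.sum_add_distrib]
  exact h11

/-- `(2π)⁻¹⟨a, db⟩` over the sphere -/
theorem mu_rot {φ : ℤ} {a b : FR.Sm 2 N} (h : DFr φ a b) :
    mu (rA φ a b) (rB φ a b) = pb Bm (mu a b) + (-(φ : ℝ)) • dx 2 := by
  rw [mu_comp]
  refine mu_eq (L := fun x v => (2 * Real.pi)⁻¹ * ∑ i, a (Bm x) i * fderiv ℝ (b.comp Bm : V 3 → V N) x v i -
    φ * v 2) (fun x => ?_) (fun x v => ?_)
  · rw [map_add, ev_mu, map_smul, ev_dx, ← map_smul, ← map_add]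
    congr 1
    funext j
    change (2 * Real.pi)⁻¹ * ∑ i, a (Bm x) i * fderiv ℝ (b.comp Bm : V 3 → V N) x (Pi.single j 1) i +
      -(φ : ℝ) * (Pi.single 2 1 : V 3) j = _
    rw [Pi.single_comm]
    ring
  · have hang : HasFDerivAt (ang φ) ((2 * Real.pi * φ) • (ContinuousLinearMap.proj (R := ℝ) (φ := fun _ : Fin 3 => ℝ) 2)) x :=
      ((hasFDerivAt_apply (𝕜 := ℝ) (2 : Fin 3) x).const_mul (2 * Real.pi * φ))
    have hA : HasFDerivAt (a.comp Bm : V 3 → V N) (fderiv ℝ (a.comp Bm : V 3 → V N) x) x := ((a.comp Bm).diff x).hasFDerivAt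
    have hB : HasFDerivAt (b.comp Bm : V 3 → V N) (fderiv ℝ (b.comp Bm : V 3 → V N) x) x := ((b.comp Bm).diff x).hasFDerivAt
    have hr := ((hang.sin.neg).smul hA).add ((hang.cos).smul hB)
    have hr' : fderiv ℝ (rB φ a b : V 3 → V N) x = _ := hr.fderiv
    have i1 := deriv_inner (a := a.comp Bm) (b := a.comp Bm) (r := 1) (fun y => h.n_a (Bm y)) x v
    have i2 := deriv_inner (a := b.comp Bm) (b := b.comp Bm) (r := 1) (fun y => h.n_b (Bm y)) x v
    have i3 := deriv_inner (a := a.comp Bm) (b := b.comp Bm) (r := 0) (fun y => h.ab (Bm y)) x v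
    have j1 := h.n_a (Bm x)
    have j2 := h.n_b (Bm x)
    have j3 := h.ab (Bm x)
    obtain ⟨DA, hDA⟩ : ∃ DA, DA = fderiv ℝ (a.comp Bm : V 3 → V N) x v := ⟨_, rfl⟩
    obtain ⟨DB, hDB⟩ : ∃ DB, DB = fderiv ℝ (b.comp Bm : V 3 → V N) x v := ⟨_, rfl⟩
    rw [← hDA] at i1 i3
    rw [← hDB] at i2 i3
    rw [← hDB]
    change ∑ i, a (Bm x) i * DA i + ∑ i, a (Bm x) i * DA i = 0 at i1
    change ∑ i, b (Bm x) i * DB i + ∑ i, b (Bm x) i * DB i = 0 at i2
    change ∑ i, a (Bm x) i * DB i + ∑ i, b (Bm x) i * DA i = 0 at i3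
    obtain ⟨C, hC⟩ : ∃ C, C = Real.cos (ang φ x) := ⟨_, rfl⟩
    obtain ⟨S, hS⟩ : ∃ S, S = Real.sin (ang φ x) := ⟨_, rfl⟩
    have hCS : C * C + S * S = 1 := by
      rw [hC, hS, ← pow_two, ← pow_two, Real.cos_sq_add_sin_sq]
    have e1 : ∀ i, rA φ a b x i = C * a (Bm x) i + S * b (Bm x) i := fun i => by
      rw [rA_apply, hC, hS]
      rfl
    have e2 : ∀ i, (((-Real.sin (ang φ x)) • fderiv ℝ (a.comp Bm : V 3 → V N) x +
        (-(Real.cos (ang φ x) • (2 * Real.pi * φ) • (ContinuousLinearMap.proj (R := ℝ) (φ := fun _ : Fin 3 => ℝ) 2))).smulRight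
          (a (Bm x))) + (Real.cos (ang φ x) • fderiv ℝ (b.comp Bm : V 3 → V N) x +
        (-Real.sin (ang φ x) • (2 * Real.pi * φ) • (ContinuousLinearMap.proj (R := ℝ) (φ := fun _ : Fin 3 => ℝ) 2)).smulRight
          (b (Bm x))) : V 3 →L[ℝ] V N) v i =
        -S * DA i + -(C * ((2 * Real.pi * φ) * v 2)) * a (Bm x) i + (C * DB i + -S * ((2 * Real.pi * φ) * v 2) * b (Bm x) i) := by
      intro i
      rw [hDA, hDB, hC, hS]
      simp
    have e3 : ∑ i, rA φ a b x i * (-S * DA i + -(C * ((2 * Real.pi * φ) * v 2)) * a (Bm x) i +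
        (C * DB i + -S * ((2 * Real.pi * φ) * v 2) * b (Bm x) i)) =
        ∑ i, a (Bm x) i * DB i - 2 * Real.pi * φ * v 2 := by
      have e4 : ∀ i, rA φ a b x i * (-S * DA i + -(C * ((2 * Real.pi * φ) * v 2)) * a (Bm x) i +
          (C * DB i + -S * ((2 * Real.pi * φ) * v 2) * b (Bm x) i)) =
          (-(C * S)) * (a (Bm x) i * DA i) + (-(S * S)) * (b (Bm x) i * DA i) + (C * C) * (a (Bm x) i * DB i) +
          (S * C) * (b (Bm x) i * DB i) + (-(C * C * ((2 * Real.pi * φ) * v 2))) * (a (Bm x) i * a (Bm x) i) +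
          (-(2 * C * S * ((2 * Real.pi * φ) * v 2))) * (a (Bm x) i * b (Bm x) i) +
          (-(S * S * ((2 * Real.pi * φ) * v 2))) * (b (Bm x) i * b (Bm x) i) := by
        intro i
        rw [e1]
        ring
      simp only [e4, Finset.sum_add_distrib, ← Finset.mul_sum]
      rw [j1, j2, j3]
      linear_combination (-(C * S) / 2) * i1 + (S * C / 2) * i2 + (-(S * S)) * i3 +
        (∑ i, a (Bm x) i * DB i - (2 * Real.pi * φ) * v 2) * hCS
    have hpi : (2 * Real.pi)⁻¹ * (2 * Real.pi * φ * v 2) = φ * v 2 := by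
      have : (2 * Real.pi) ≠ 0 := by positivity
      field_simp
    have e5 : ∀ i, fderiv ℝ (rB φ a b : V 3 → V N) x v i =
        -S * DA i + -(C * ((2 * Real.pi * φ) * v 2)) * a (Bm x) i + (C * DB i + -S * ((2 * Real.pi * φ) * v 2) * b (Bm x) i) :=
      fun i => (congrArg (fun L : V 3 →L[ℝ] V N => L v i) hr').trans (e2 i)
    have e6 : ∑ i, rA φ a b x i * fderiv ℝ (rB φ a b : V 3 → V N) x v i =
        ∑ i, a (Bm x) i * DB i - 2 * Real.pi * φ * v 2 := by
      rw [← e3]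
      exact Finset.sum_congr rfl fun i _ => congrArg (fun t => rA φ a b x i * t) (e5 i)
    rw [e6, mul_sub, hpi]

/-- the integral of `μ dμ` over the sphere -/
theorem cI_rot {φ : ℤ} {a b : FR.Sm 2 N} (h : DFr φ a b) : cI 3 (CS (rA φ a b) (rB φ a b)) = -((φ : ℝ) ^ 2) := by
  rw [CS, mu_rot h, link (c := -(φ : ℝ)) (Dg_mu a b)]
  · ring
  · rw [mu_comp]
    have h1 : a.comp (trn 1) = a := FR.Sm.ext fun y => h.per_a y
    have h2 : b.comp (trn 1) = b := FR.Sm.ext fun y => h.per_b y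
    rw [h1, h2]
  · obtain ⟨e₁, e₂, he⟩ := h.lo
    rw [mu_comp]
    have z1 : a 0 = e₁ := by
      have h1 := (he 0).1
      have h2 : (Function.update 0 0 0 : V 2) = 0 := by
        funext i
        fin_cases i <;> simp [Function.update]
      rw [h2] at h1
      rw [h1]
      simp
    have z2 : b 0 = e₂ := by
      have h1 := (he 0).2
      have h2 : (Function.update 0 0 0 : V 2) = 0 := by
        funext i
        fin_cases i <;> simp [Function.update]
      rw [h2] at h1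
      rw [h1]
      simp
    have j1 := h.n_a 0
    have j2 := h.n_b 0
    have j3 := h.ab 0
    rw [z1] at j1 j3
    rw [z2] at j2 j3
    refine mu_eq (L := fun _ v => -(φ : ℝ) * v 1) (fun x => ?_) (fun x v => ?_)
    · rw [map_smul, ev_dx, ← map_smul]
      congr 1
      funext j
      change -(φ : ℝ) * (Pi.single 1 1 : V 2) j = _
      rw [Pi.single_comm]
    · have hang : HasFDerivAt (fun y : V 2 => 2 * Real.pi * φ * y 1)
          ((2 * Real.pi * φ) • (ContinuousLinearMap.proj (R := ℝ) (φ := fun _ : Fin 2 => ℝ) 1)) x :=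
        ((hasFDerivAt_apply (𝕜 := ℝ) (1 : Fin 2) x).const_mul (2 * Real.pi * φ))
      have hr := ((hang.sin.neg).smul (hasFDerivAt_const e₁ x)).add ((hang.cos).smul (hasFDerivAt_const e₂ x))
      have hf : (b.comp (cst 0 0) : V 2 → V N) = fun y =>
          -Real.sin (2 * Real.pi * φ * y 1) • e₁ + Real.cos (2 * Real.pi * φ * y 1) • e₂ := funext fun y => (he y).2
      have hr' := hr.fderiv
      have hfd : fderiv ℝ (b.comp (cst 0 0) : V 2 → V N) x = fderiv ℝ (fun y : V 2 =>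
          -Real.sin (2 * Real.pi * φ * y 1) • e₁ + Real.cos (2 * Real.pi * φ * y 1) • e₂) x := by rw [hf]
      obtain ⟨C, hC⟩ : ∃ C, C = Real.cos (2 * Real.pi * φ * x 1) := ⟨_, rfl⟩
      obtain ⟨S, hS⟩ : ∃ S, S = Real.sin (2 * Real.pi * φ * x 1) := ⟨_, rfl⟩
      have hCS : C * C + S * S = 1 := by
        rw [hC, hS, ← pow_two, ← pow_two, Real.cos_sq_add_sin_sq]
      have e5 : ∀ i, fderiv ℝ (b.comp (cst 0 0) : V 2 → V N) x v i =
          -(C * ((2 * Real.pi * φ) * v 1)) * e₁ i + -(S * ((2 * Real.pi * φ) * v 1)) * e₂ i := by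
        intro i
        refine (congrArg (fun L : V 2 →L[ℝ] V N => L v i) (hfd.trans hr')).trans ?_
        rw [hC, hS]
        simp
      have e1 : ∀ i, (a.comp (cst 0 0)) x i = C * e₁ i + S * e₂ i := fun i => by
        rw [hC, hS]
        exact congrFun (he x).1 i
      have e6 : ∑ i, (a.comp (cst 0 0)) x i * fderiv ℝ (b.comp (cst 0 0) : V 2 → V N) x v i =
          -((2 * Real.pi * φ) * v 1) := by
        have e7 : ∀ i, (a.comp (cst 0 0)) x i * fderiv ℝ (b.comp (cst 0 0) : V 2 → V N) x v i =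
            (-(C * C * ((2 * Real.pi * φ) * v 1))) * (e₁ i * e₁ i) + (-(2 * C * S * ((2 * Real.pi * φ) * v 1))) * (e₁ i * e₂ i) +
            (-(S * S * ((2 * Real.pi * φ) * v 1))) * (e₂ i * e₂ i) := by
          intro i
          rw [e1, e5]
          ring
        simp only [e7, Finset.sum_add_distrib, ← Finset.mul_sum]
        rw [j1, j2, j3]
        linear_combination (-((2 * Real.pi * φ) * v 1)) * hCS
      rw [e6]
      have : (2 * Real.pi) ≠ 0 := by positivity
      field_simp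
  · rw [mu_comp]
    refine mu_eq (L := fun _ _ => 0) (fun x => ?_) (fun x v => ?_)
    · rw [map_zero]
      exact (map_zero (ExteriorAlgebra.ι ℝ : V 2 →ₗ[ℝ] Ex 2)).symm
    · have h1 : (b.comp (cst 0 1) : V 2 → V N) = fun _ => b ![1, 0] := funext fun y => h.hi_b y
      have h2 : fderiv ℝ (b.comp (cst 0 1) : V 2 → V N) x = 0 := by
        rw [h1]
        exact fderiv_const_apply _
      have h3 : ∀ i, (a.comp (cst 0 1)) x i * fderiv ℝ (b.comp (cst 0 1) : V 2 → V N) x v i = 0 := fun i => by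
        have h4 : fderiv ℝ (b.comp (cst 0 1) : V 2 → V N) x v i = 0 := congrArg (fun L : V 2 →L[ℝ] V N => L v i) h2
        exact (congrArg (fun t => (a.comp (cst 0 1)) x i * t) h4).trans (mul_zero _)
      rw [Finset.sum_eq_zero fun i _ => h3 i, mul_zero]

end Pool.Agent.Lib.MP_ccbbf6_gt.L5.IA
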