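import Pool.Agent.Lib.MP_ccbbf6_gt.Geo.Ifc

/-!
# Level 5, block INTa, part 5: smooth Gram-Schmidt (helper91)

Proof of `contDiffAt_gs`. By strong induction on `i` show that
`fun y => InnerProductSpace.gramSchmidt ℝ (fun j => v j y) i` is `ContDiffAt ℝ ∞` at `x`: by `gramSchmidt_def` it is
`v i y - ∑ j ∈ Finset.Iio i, (projection of v i y on the line of gs j)`, the projection is
`(⟪gs j, v i⟫ / ‖gs j‖^2) • gs j` (`Submodule.starProjection_singleton`), and `gs j ≠ 0` at `x`
(`gramSchmidt_ne_zero`), hence near `x` (continuity); so every term is smooth (`ContDiffAt.inner`, `ContDiffAt.div`,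
`ContDiffAt.smul`; write `‖g‖^2 = ⟪g, g⟫`). Then `gramSchmidtNormed = ‖gs‖⁻¹ • gs` is smooth (`ContDiffAt.norm`, nonzero).
-/

set_option autoImplicit false

open Set Filter Topology
open scoped ContDiff RealInnerProductSpace

noncomputable section

namespace Pool.Agent.Lib.MP_ccbbf6_gt.L5.IA

open Geo

private theorem ia05_gs {E : Type*} [NormedAddCommGroup E] [NormedSpace ℝ E] {N r : ℕ} {v : Fin r → E → Eu N} {x : E}
    (hv : ∀ i, ContDiffAt ℝ ∞ (v i) x) (hl : LinearIndependent ℝ (fun i => v i x)) (i : Fin r) :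
    ContDiffAt ℝ ∞ (fun y => InnerProductSpace.gramSchmidt ℝ (fun j => v j y) i) x := by
  induction i using WellFounded.induction (wellFounded_lt (α := Fin r)) with
  | _ n ih =>
    have h1 : ContDiffAt ℝ ∞ (fun y => ∑ i ∈ Finset.Iio n,
        -(inner ℝ (InnerProductSpace.gramSchmidt ℝ (fun j => v j y) i) (v n y) /
          inner ℝ (InnerProductSpace.gramSchmidt ℝ (fun j => v j y) i)
            (InnerProductSpace.gramSchmidt ℝ (fun j => v j y) i)) •
          InnerProductSpace.gramSchmidt ℝ (fun j => v j y) i) x := by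
      refine ContDiffAt.sum fun i hi => ?_
      have h2 := ih i (Finset.mem_Iio.1 hi)
      have h6 : ContDiffAt ℝ ∞ (fun y => -(inner ℝ (InnerProductSpace.gramSchmidt ℝ (fun j => v j y) i) (v n y) /
          inner ℝ (InnerProductSpace.gramSchmidt ℝ (fun j => v j y) i)
            (InnerProductSpace.gramSchmidt ℝ (fun j => v j y) i))) x :=
        ((h2.inner ℝ (hv n)).div (h2.inner ℝ h2)
          (inner_self_ne_zero.2 (InnerProductSpace.gramSchmidt_ne_zero i hl))).neg
      exact h6.smul h2
    have h4 : (fun y => InnerProductSpace.gramSchmidt ℝ (fun j => v j y) n) = fun y => v n y + ∑ i ∈ Finset.Iio n,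
        -(inner ℝ (InnerProductSpace.gramSchmidt ℝ (fun j => v j y) i) (v n y) /
          inner ℝ (InnerProductSpace.gramSchmidt ℝ (fun j => v j y) i)
            (InnerProductSpace.gramSchmidt ℝ (fun j => v j y) i)) •
          InnerProductSpace.gramSchmidt ℝ (fun j => v j y) i := by
      funext y
      have h3 := InnerProductSpace.gramSchmidt_def'' ℝ (fun j => v j y) n
      have h5 := sub_eq_of_eq_add h3
      refine h5.symm.trans ?_
      rw [sub_eq_add_neg, ← Finset.sum_neg_distrib]
      refine congrArg (fun x => v n y + x) (Finset.sum_congr rfl fun i _ => ?_)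
      rw [real_inner_self_eq_norm_sq, neg_smul]
      rfl
    rw [h4]
    exact (hv n).add h1

/-- Gram-Schmidt is smooth on linearly independent families -/
theorem contDiffAt_gs {E : Type*} [NormedAddCommGroup E] [NormedSpace ℝ E] {N r : ℕ} {v : Fin r → E → Eu N} {x : E}
    (hv : ∀ i, ContDiffAt ℝ ∞ (v i) x) (hl : LinearIndependent ℝ (fun i => v i x)) (i : Fin r) :
    ContDiffAt ℝ ∞ (fun y => InnerProductSpace.gramSchmidtNormed ℝ (fun j => v j y) i) x := by
  have h1 := ia05_gs hv hl i
  have h2 : InnerProductSpace.gramSchmidt ℝ (fun j => v j x) i ≠ 0 := InnerProductSpace.gramSchmidt_ne_zero i hl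
  have h3 : ContDiffAt ℝ ∞ (fun y => ‖InnerProductSpace.gramSchmidt ℝ (fun j => v j y) i‖⁻¹) x :=
    (h1.norm ℝ h2).inv (norm_ne_zero_iff.2 h2)
  exact h3.smul h1

end Pool.Agent.Lib.MP_ccbbf6_gt.L5.IA
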