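import Pool.Agent.Lib.MP_ccbbf6_gt.L5.IA05

/-!
# Level 5, block INTa, part 6: orthonormal frames along a homotopy (helper91)

Proof of `exists_on_frame` (compare `EPS07.lean`, `Fr`, `Fr_spec`, `exists_frame`, which is the case of the cube).
`θ s = Real.smoothTransition s ∈ [0,1]`, `θ 0 = 0`.
1. Uniform continuity: the function `(y, s, t) ↦ ‖Q y s - Q y t‖` is continuous on the compact `K ×ˢ Icc 0 1 ×ˢ Icc 0 1`
   (`hQ` gives continuity at all these points) and vanishes for `s = t`; so there is `m ≥ 1` such that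
   `‖Q y s - Q y t‖ < 1` for `y ∈ K`, `s, t ∈ Icc 0 1`, `|s - t| ≤ 1 / m`; by `hKQ` this holds for all `y`.
2. Define `G 0 y s = L₀`, `G (i+1) y s = (Q y (θ s * (i+1) / m)).comp (G i y s)`. By induction on `i ≤ m`: `G i` is
   jointly smooth in `(y, s)`; `Q y (θ s * i / m) (G i y s v) = G i y s v` (for `i = 0` this is `h0`); `G i y s v = 0 → v = 0`
   (if `w = G i y s v ≠ 0`, `Q_i w = w` and `Q_(i+1) w = 0` then `‖w‖ = ‖(Q_i - Q_(i+1)) w‖ < ‖w‖`).
   For `s = 0`: `G i y 0 v = L₀ v` (`h0`). `G i y` depends on `y` only through the function `Q y`.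
3. With `e j` the standard basis of `Eu r` the vectors `G m y s (e j)` are linearly independent. Let
   `g y s j = gramSchmidtNormed ℝ (fun j => G m y s (e j)) j`, `F y s v = ∑ j, v j • g y s j`. Smooth by `contDiffAt_gs`;
   isometric since `g y s` is orthonormal (`InnerProductSpace.gramSchmidtNormed_unit_length`, `gramSchmidt_orthonormal` or the
   current Mathlib names); `Q y (θ s) (g y s j) = g y s j` since `g y s j` is in the span of the `G m y s (e j)`
   (`span_gramSchmidtNormed_range` / `gramSchmidt_mem_span`); for `s = 0` the family `L₀ (e j)` is orthonormal, so Gram-Schmidt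
   does nothing (`gramSchmidt_of_orthogonal`).
-/

set_option autoImplicit false

open Set Filter Topology
open scoped ContDiff RealInnerProductSpace

noncomputable section

namespace Pool.Agent.Lib.MP_ccbbf6_gt.L5.IA

open Geo

/-- product of nearby projections -/
private def ia06_G {N r : ℕ} (q : ℝ → (Eu N →L[ℝ] Eu N)) (L₀ : Eu r →L[ℝ] Eu N) (m : ℕ) : ℕ → ℝ → (Eu r →L[ℝ] Eu N)
  | 0, _ => L₀
  | i + 1, s => (q (Real.smoothTransition s * (((i + 1 : ℕ) : ℝ) / m))).comp (ia06_G q L₀ m i s)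

private theorem ia06_mem {m i : ℕ} (hi : i ≤ m) (s : ℝ) : Real.smoothTransition s * ((i : ℝ) / m) ∈ Icc (0 : ℝ) 1 := by
  have h1 := Real.smoothTransition.nonneg s
  have h2 := Real.smoothTransition.le_one s
  have h3 : (0 : ℝ) ≤ (i : ℝ) / m := by positivity
  have h4 : (i : ℝ) / m ≤ 1 := div_le_one_of_le₀ (by exact_mod_cast hi) (Nat.cast_nonneg m)
  exact ⟨mul_nonneg h1 h3, mul_le_one₀ h2 h3 h4⟩

private theorem ia06_smooth {E : Type*} [NormedAddCommGroup E] [NormedSpace ℝ E] {N r : ℕ} {Q : E → ℝ → (Eu N →L[ℝ] Eu N)}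
    (hQ : ∀ y, ∀ s ∈ Icc (0 : ℝ) 1, ContDiffAt ℝ ∞ (fun z : E × ℝ => Q z.1 z.2) (y, s)) (L₀ : Eu r →L[ℝ] Eu N) (m i : ℕ)
    (hi : i ≤ m) : ContDiff ℝ ∞ (fun z : E × ℝ => ia06_G (Q z.1) L₀ m i z.2) := by
  induction i with
  | zero => exact contDiff_const
  | succ i ih =>
    have h1 : ContDiff ℝ ∞ fun z : E × ℝ => Q z.1 (Real.smoothTransition z.2 * (((i + 1 : ℕ) : ℝ) / m)) := by
      rw [contDiff_iff_contDiffAt]
      intro z
      have h2 : ContDiff ℝ ∞ fun z : E × ℝ => ((z.1, Real.smoothTransition z.2 * (((i + 1 : ℕ) : ℝ) / m)) : E × ℝ) :=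
        contDiff_fst.prodMk ((Real.smoothTransition.contDiff.comp contDiff_snd).mul contDiff_const)
      exact (hQ z.1 _ (ia06_mem hi z.2)).comp z h2.contDiffAt
    exact h1.clm_comp (ih (by omega))

private theorem ia06_spec {N r : ℕ} {q : ℝ → (Eu N →L[ℝ] Eu N)} (hid : ∀ s ∈ Icc (0 : ℝ) 1, ∀ x, q s (q s x) = q s x)
    {L₀ : Eu r →L[ℝ] Eu N} (h0 : ∀ v, q 0 (L₀ v) = L₀ v) (hinj : ∀ v, L₀ v = 0 → v = 0) {m : ℕ}
    (hz : ∀ i < m, ∀ s, ‖q (Real.smoothTransition s * (((i + 1 : ℕ) : ℝ) / m)) - q (Real.smoothTransition s * ((i : ℝ) / m))‖ < 1)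
    (s : ℝ) (i : ℕ) (hi : i ≤ m) :
    (∀ v, q (Real.smoothTransition s * ((i : ℝ) / m)) (ia06_G q L₀ m i s v) = ia06_G q L₀ m i s v) ∧
      ∀ v, ia06_G q L₀ m i s v = 0 → v = 0 := by
  induction i with
  | zero =>
    refine ⟨fun v => ?_, hinj⟩
    rw [Nat.cast_zero, zero_div, mul_zero]
    exact h0 v
  | succ i ih =>
    obtain ⟨h1, h2⟩ := ih (by omega)
    constructor
    · intro v
      exact hid _ (ia06_mem hi s) _
    · intro v hv
      have hv' : q (Real.smoothTransition s * (((i + 1 : ℕ) : ℝ) / m)) (ia06_G q L₀ m i s v) = 0 := hv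
      apply h2
      by_contra hne
      have h4 : ‖ia06_G q L₀ m i s v‖ = ‖(q (Real.smoothTransition s * (((i + 1 : ℕ) : ℝ) / m)) -
          q (Real.smoothTransition s * ((i : ℝ) / m))) (ia06_G q L₀ m i s v)‖ := by
        rw [_root_.sub_apply, hv', h1, zero_sub, norm_neg]
      have h5 := ContinuousLinearMap.le_opNorm (q (Real.smoothTransition s * (((i + 1 : ℕ) : ℝ) / m)) -
          q (Real.smoothTransition s * ((i : ℝ) / m))) (ia06_G q L₀ m i s v)
      have h6 : 0 < ‖ia06_G q L₀ m i s v‖ := norm_pos_iff.2 hne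
      have h7 := hz i (by omega) s
      nlinarith

private theorem ia06_zero {N r : ℕ} {q : ℝ → (Eu N →L[ℝ] Eu N)} {L₀ : Eu r →L[ℝ] Eu N} (h0 : ∀ v, q 0 (L₀ v) = L₀ v)
    (m i : ℕ) : ia06_G q L₀ m i 0 = L₀ := by
  induction i with
  | zero => rfl
  | succ i ih =>
    show (q (Real.smoothTransition 0 * (((i + 1 : ℕ) : ℝ) / m))).comp (ia06_G q L₀ m i 0) = L₀
    rw [ih, Real.smoothTransition.zero, zero_mul]
    exact ContinuousLinearMap.ext h0

/-- the orthonormal family -/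
private def ia06_g {N r : ℕ} (q : ℝ → (Eu N →L[ℝ] Eu N)) (L₀ : Eu r →L[ℝ] Eu N) (m : ℕ) (s : ℝ) : Fin r → Eu N :=
  InnerProductSpace.gramSchmidtNormed ℝ fun j => ia06_G q L₀ m m s (EuclideanSpace.single j 1)

/-- the frame -/
private def ia06_F {N r : ℕ} (q : ℝ → (Eu N →L[ℝ] Eu N)) (L₀ : Eu r →L[ℝ] Eu N) (m : ℕ) (s : ℝ) : Eu r →L[ℝ] Eu N :=
  ∑ j, ContinuousLinearMap.smulRightL ℝ (Eu r) (Eu N) (EuclideanSpace.proj j) (ia06_g q L₀ m s j)

private theorem ia06_F_apply {N r : ℕ} (q : ℝ → (Eu N →L[ℝ] Eu N)) (L₀ : Eu r →L[ℝ] Eu N) (m : ℕ) (s : ℝ) (v : Eu r) :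
    ia06_F q L₀ m s v = ∑ j, v j • ia06_g q L₀ m s j := by
  unfold ia06_F
  rw [_root_.sum_apply]
  rfl

private theorem ia06_gsn {N r : ℕ} {f : Fin r → Eu N} (h : Orthonormal ℝ f) : InnerProductSpace.gramSchmidtNormed ℝ f = f := by
  funext j
  have h1 : InnerProductSpace.gramSchmidt ℝ f = f := InnerProductSpace.gramSchmidt_of_orthogonal ℝ fun i j hij => h.2 hij
  have h2 : InnerProductSpace.gramSchmidtNormed ℝ f j = ((‖InnerProductSpace.gramSchmidt ℝ f j‖ : ℝ))⁻¹ •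
      InnerProductSpace.gramSchmidt ℝ f j := rfl
  rw [h2, h1, h.1 j, inv_one, one_smul]

private theorem ia06_sum {N r : ℕ} (L : Eu r →L[ℝ] Eu N) (v : Eu r) :
    ∑ j, v j • L (EuclideanSpace.single j 1) = L v := by
  have h4 : ∑ j, v j • (EuclideanSpace.single j 1 : Eu r) = v := by
    have h5 := (EuclideanSpace.basisFun (Fin r) ℝ).sum_repr v
    simp only [EuclideanSpace.basisFun_repr, EuclideanSpace.basisFun_apply] at h5
    exact h5
  have h6 := congrArg (fun w => L w) h4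
  simp only [map_sum, map_smul] at h6
  exact h6

private theorem ia06_norm {N r : ℕ} {f : Fin r → Eu N} (h : Orthonormal ℝ f) (v : Eu r) : ‖∑ j, v j • f j‖ = ‖v‖ := by
  have h1 : ‖∑ j, v j • f j‖ ^ 2 = ‖v‖ ^ 2 := by
    rw [← real_inner_self_eq_norm_sq, h.inner_sum, EuclideanSpace.norm_sq_eq]
    refine Finset.sum_congr rfl fun j _ => ?_
    rw [Real.norm_eq_abs, sq_abs, sq]
    rfl
  exact (sq_eq_sq₀ (norm_nonneg _) (norm_nonneg _)).1 h1

private theorem ia06_ind {N r : ℕ} {L : Eu r →L[ℝ] Eu N} (h : ∀ v, L v = 0 → v = 0) :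
    LinearIndependent ℝ fun j : Fin r => L (EuclideanSpace.single j 1) := by
  have h1 : LinearIndependent ℝ fun j : Fin r => (EuclideanSpace.single j 1 : Eu r) :=
    EuclideanSpace.orthonormal_single.linearIndependent
  exact h1.map' (L : Eu r →ₗ[ℝ] Eu N) (LinearMap.ker_eq_bot'.2 h)

/-- orthonormal frames along a homotopy -/
theorem exists_on_frame {E : Type*} [NormedAddCommGroup E] [NormedSpace ℝ E] {N r : ℕ} {Q : E → ℝ → (Eu N →L[ℝ] Eu N)}
    (hQ : ∀ y, ∀ s ∈ Icc (0 : ℝ) 1, ContDiffAt ℝ ∞ (fun z : E × ℝ => Q z.1 z.2) (y, s))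
    (hid : ∀ y, ∀ s ∈ Icc (0 : ℝ) 1, ∀ x, Q y s (Q y s x) = Q y s x) {K : Set E} (hK : IsCompact K)
    (hKQ : ∀ y, ∃ y' ∈ K, Q y = Q y') {L₀ : Eu r →L[ℝ] Eu N} (hL : ∀ v, ‖L₀ v‖ = ‖v‖) (h0 : ∀ y v, Q y 0 (L₀ v) = L₀ v) :
    ∃ F : E → ℝ → (Eu r →L[ℝ] Eu N), ContDiff ℝ ∞ (fun z : E × ℝ => F z.1 z.2) ∧
      (∀ y s v, Q y (Real.smoothTransition s) (F y s v) = F y s v) ∧ (∀ y s v, ‖F y s v‖ = ‖v‖) ∧
      (∀ y v, F y 0 v = L₀ v) ∧ ∀ y y', Q y = Q y' → F y = F y' := by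
  have hinj : ∀ v, L₀ v = 0 → v = 0 := fun v hv => by
    rw [← norm_eq_zero, ← hL, hv, norm_zero]
  obtain ⟨m, hm0, hm⟩ : ∃ m : ℕ, 0 < m ∧ ∀ y, ∀ i < m, ∀ s,
      ‖Q y (Real.smoothTransition s * (((i + 1 : ℕ) : ℝ) / m)) - Q y (Real.smoothTransition s * ((i : ℝ) / m))‖ < 1 := by
    have hc : ContinuousOn (fun z : E × ℝ => Q z.1 z.2) (K ×ˢ Icc (0 : ℝ) 1) := fun z hz =>
      (hQ z.1 z.2 hz.2).continuousAt.continuousWithinAt
    have huc := (hK.prod isCompact_Icc).uniformContinuousOn_of_continuous hc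
    rw [Metric.uniformContinuousOn_iff] at huc
    obtain ⟨δ, hδ, hδ2⟩ := huc 1 one_pos
    obtain ⟨m, hm⟩ := exists_nat_gt (1 / δ)
    have hmR : (0 : ℝ) < m := lt_trans (by positivity) hm
    have hm0 : 0 < m := by exact_mod_cast hmR
    refine ⟨m, hm0, fun y i hi s => ?_⟩
    obtain ⟨y', hy', hyy⟩ := hKQ y
    rw [hyy, ← dist_eq_norm]
    refine hδ2 (y', Real.smoothTransition s * (((i + 1 : ℕ) : ℝ) / m)) ⟨hy', ia06_mem (by omega) s⟩
      (y', Real.smoothTransition s * ((i : ℝ) / m)) ⟨hy', ia06_mem hi.le s⟩ ?_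
    rw [Prod.dist_eq, dist_self, max_eq_right dist_nonneg, Real.dist_eq, ← mul_sub, ← sub_div]
    have h1 : (((i + 1 : ℕ) : ℝ) - i) / m = 1 / m := by
      push_cast
      ring
    rw [h1, abs_of_nonneg (mul_nonneg (Real.smoothTransition.nonneg s) (by positivity))]
    have h2 : Real.smoothTransition s * (1 / m) ≤ 1 / m := by
      refine mul_le_of_le_one_left (by positivity) (Real.smoothTransition.le_one s)
    refine h2.trans_lt ?_
    rw [div_lt_iff₀ hδ] at hm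
    rw [div_lt_iff₀ hmR]
    linarith
  have hmR : (m : ℝ) ≠ 0 := by exact_mod_cast hm0.ne'
  have spec : ∀ y s, (∀ v, Q y (Real.smoothTransition s) (ia06_G (Q y) L₀ m m s v) = ia06_G (Q y) L₀ m m s v) ∧
      ∀ v, ia06_G (Q y) L₀ m m s v = 0 → v = 0 := by
    intro y s
    have h1 := ia06_spec (hid y) (h0 y) hinj (hm y) s m le_rfl
    rw [div_self hmR, mul_one] at h1
    exact h1
  have hon : ∀ y s, Orthonormal ℝ (ia06_g (Q y) L₀ m s) := fun y s =>
    InnerProductSpace.gramSchmidtNormed_orthonormal (ia06_ind (spec y s).2)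
  refine ⟨fun y => ia06_F (Q y) L₀ m, ?_, fun y s v => ?_, fun y s v => ?_, fun y v => ?_, fun y y' h => ?_⟩
  · refine ContDiff.sum fun j _ => ?_
    have h1 : ContDiff ℝ ∞ fun z : E × ℝ => ia06_g (Q z.1) L₀ m z.2 j := by
      rw [contDiff_iff_contDiffAt]
      intro z
      have h2 := (ia06_smooth hQ L₀ m m le_rfl).contDiffAt (x := z)
      have h3 : ∀ i : Fin r, ContDiffAt ℝ ∞ (fun z : E × ℝ => ia06_G (Q z.1) L₀ m m z.2 (EuclideanSpace.single i 1)) z :=
        fun i => h2.clm_apply contDiffAt_const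
      have h4 : LinearIndependent ℝ fun i : Fin r => ia06_G (Q z.1) L₀ m m z.2 (EuclideanSpace.single i 1) :=
        ia06_ind (L := ia06_G (Q z.1) L₀ m m z.2) (spec z.1 z.2).2
      exact contDiffAt_gs (v := fun (j : Fin r) (z : E × ℝ) => ia06_G (Q z.1) L₀ m m z.2 (EuclideanSpace.single j 1))
        h3 h4 j
    exact (ContinuousLinearMap.smulRightL ℝ (Eu r) (Eu N) (EuclideanSpace.proj j)).contDiff.comp h1
  · rw [ia06_F_apply, map_sum]
    refine Finset.sum_congr rfl fun j _ => ?_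
    rw [map_smul]
    congr 1
    have h1 : ia06_g (Q y) L₀ m s j ∈ Submodule.span ℝ (Set.range fun j : Fin r =>
        ia06_G (Q y) L₀ m m s (EuclideanSpace.single j 1)) := by
      rw [← InnerProductSpace.span_gramSchmidt, ← InnerProductSpace.span_gramSchmidtNormed_range]
      exact Submodule.subset_span ⟨j, rfl⟩
    have h2 : Submodule.span ℝ (Set.range fun j : Fin r => ia06_G (Q y) L₀ m m s (EuclideanSpace.single j 1)) ≤
        LinearMap.eqLocus (Q y (Real.smoothTransition s) : Eu N →ₗ[ℝ] Eu N) LinearMap.id := by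
      rw [Submodule.span_le]
      rintro _ ⟨l, rfl⟩
      exact (spec y s).1 _
    exact h2 h1
  · rw [ia06_F_apply]
    exact ia06_norm (hon y s) v
  · have h1 : Orthonormal ℝ fun j : Fin r => L₀ (EuclideanSpace.single j 1) := by
      have h2 : Orthonormal ℝ fun j : Fin r => (EuclideanSpace.single j 1 : Eu r) := EuclideanSpace.orthonormal_single
      exact h2.comp_linearIsometry ⟨(L₀ : Eu r →ₗ[ℝ] Eu N), hL⟩
    have h3 : ia06_g (Q y) L₀ m 0 = fun j => L₀ (EuclideanSpace.single j 1) := by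
      unfold ia06_g
      rw [ia06_zero (h0 y)]
      exact ia06_gsn h1
    rw [ia06_F_apply, h3]
    exact ia06_sum L₀ v
  · show ia06_F (Q y) L₀ m = ia06_F (Q y') L₀ m
    rw [h]

end Pool.Agent.Lib.MP_ccbbf6_gt.L5.IA
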