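import Pool.Agent.Lib.MP_ccbbf6_gt.ML

/-!
# Level 5, block INTa, part 7: winding numbers (helper91)

Proof of `exists_winding`. `w t = p t * deriv q t - q t * deriv p t` is smooth and `1`-periodic, `χ t = ∫ s in 0..t, w s` is smooth
with `χ' = w` (`contDiff_infty` + `intervalIntegral.deriv_integral...`, or `ContDiff` of the primitive by
`contDiff_infty_iff_deriv`). Differentiating `p² + q² = 1`: `p p' + q q' = 0`; hence `p' = - q w`, `q' = p w` (multiply by
`p² + q² = 1`). Put `A = p cos χ + q sin χ`, `B = q cos χ - p sin χ`; `A' = B' = 0`, `A 0 = 1`, `B 0 = 0`, so `A = 1`, `B = 0`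
(`is_const_of_deriv_eq_zero`) and `p = cos χ`, `q = sin χ`. The function `χ (t + 1) - χ t` has derivative `0`, so it is a
constant `C`; at `t = 0`: `cos C = p 1 = p 0 = 1` (`χ 0 = 0`), so `C = 2 π φ` (`Real.cos_eq_one_iff`).
-/

set_option autoImplicit false

open Set Filter Topology
open scoped ContDiff

noncomputable section

namespace Pool.Agent.Lib.MP_ccbbf6_gt.L5.IA

/-- the angle function of a loop in the circle -/
theorem exists_winding {p q : ℝ → ℝ} (hp : ContDiff ℝ ∞ p) (hq : ContDiff ℝ ∞ q) (h1 : ∀ t, p t ^ 2 + q t ^ 2 = 1)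
    (hpp : ∀ t, p (t + 1) = p t) (hqp : ∀ t, q (t + 1) = q t) (h0 : p 0 = 1) (h0' : q 0 = 0) :
    ∃ (χ : ℝ → ℝ) (φ : ℤ), ContDiff ℝ ∞ χ ∧ (∀ t, p t = Real.cos (χ t) ∧ q t = Real.sin (χ t)) ∧
      ∀ t, χ (t + 1) = χ t + 2 * Real.pi * φ := by
  have hp' := contDiff_infty_iff_deriv.1 hp
  have hq' := contDiff_infty_iff_deriv.1 hq
  obtain ⟨w, hw⟩ : ∃ w : ℝ → ℝ, w = fun t => p t * deriv q t - q t * deriv p t := ⟨_, rfl⟩
  have hwS : ContDiff ℝ ∞ w := by
    rw [hw]
    exact (hp.mul hq'.2).sub (hq.mul hp'.2)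
  obtain ⟨χ, hχ⟩ : ∃ χ : ℝ → ℝ, χ = fun t => ∫ s in (0 : ℝ)..t, w s := ⟨_, rfl⟩
  have hχd : ∀ t, HasDerivAt χ (w t) t := by
    intro t
    rw [hχ]
    exact intervalIntegral.integral_hasDerivAt_right (hwS.continuous.intervalIntegrable 0 t)
      (hwS.continuous.stronglyMeasurableAtFilter _ _) hwS.continuous.continuousAt
  have hχ0 : χ 0 = 0 := by rw [hχ]; simp
  have hχS : ContDiff ℝ ∞ χ := by
    rw [contDiff_infty_iff_deriv]
    refine ⟨fun t => (hχd t).differentiableAt, ?_⟩
    have e : deriv χ = w := by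
      funext t
      exact (hχd t).deriv
    rw [e]
    exact hwS
  have hpd : ∀ t, HasDerivAt p (deriv p t) t := fun t => (hp'.1 t).hasDerivAt
  have hqd : ∀ t, HasDerivAt q (deriv q t) t := fun t => (hq'.1 t).hasDerivAt
  have hrel : ∀ t, p t * deriv p t + q t * deriv q t = 0 := by
    intro t
    have e1 : HasDerivAt (fun t => p t ^ 2 + q t ^ 2) (2 * p t ^ (2 - 1) * deriv p t + 2 * q t ^ (2 - 1) * deriv q t) t :=
      ((hpd t).pow 2).add ((hqd t).pow 2)
    have e2 : (fun t => p t ^ 2 + q t ^ 2) = fun _ => (1 : ℝ) := by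
      funext t
      exact h1 t
    rw [e2] at e1
    have e3 := e1.unique (hasDerivAt_const t (1 : ℝ))
    simp only [Nat.add_one_sub_one, pow_one] at e3
    linarith
  have hp1 : ∀ t, deriv p t = - (q t * w t) := by
    intro t
    have e := hrel t
    have e1 := h1 t
    rw [hw]
    simp only
    have e2 : deriv p t = (p t ^ 2 + q t ^ 2) * deriv p t := by rw [e1, one_mul]
    linear_combination e2 + p t * e
  have hq1 : ∀ t, deriv q t = p t * w t := by
    intro t
    have e := hrel t
    have e1 := h1 t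
    rw [hw]
    simp only
    have e2 : deriv q t = (p t ^ 2 + q t ^ 2) * deriv q t := by rw [e1, one_mul]
    linear_combination e2 + q t * e
  have hcos : ∀ t, HasDerivAt (fun t => Real.cos (χ t)) (- Real.sin (χ t) * w t) t := fun t => (hχd t).cos
  have hsin : ∀ t, HasDerivAt (fun t => Real.sin (χ t)) (Real.cos (χ t) * w t) t := fun t => (hχd t).sin
  have hA : ∀ t, p t * Real.cos (χ t) + q t * Real.sin (χ t) = 1 := by
    intro t
    have hd : ∀ t, HasDerivAt (fun t => p t * Real.cos (χ t) + q t * Real.sin (χ t)) 0 t := by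
      intro t
      have e := ((hpd t).mul (hcos t)).add ((hqd t).mul (hsin t))
      have e2 : deriv p t * Real.cos (χ t) + p t * (- Real.sin (χ t) * w t) + (deriv q t * Real.sin (χ t) + q t * (Real.cos (χ t) * w t)) = 0 := by
        rw [hp1, hq1]
        ring
      rw [e2] at e
      exact e
    have e3 := is_const_of_deriv_eq_zero (fun t => (hd t).differentiableAt) (fun t => (hd t).deriv) t 0
    rw [e3, hχ0, h0, h0']
    simp
  have hB : ∀ t, q t * Real.cos (χ t) - p t * Real.sin (χ t) = 0 := by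
    intro t
    have hd : ∀ t, HasDerivAt (fun t => q t * Real.cos (χ t) - p t * Real.sin (χ t)) 0 t := by
      intro t
      have e := ((hqd t).mul (hcos t)).sub ((hpd t).mul (hsin t))
      have e2 : deriv q t * Real.cos (χ t) + q t * (- Real.sin (χ t) * w t) - (deriv p t * Real.sin (χ t) + p t * (Real.cos (χ t) * w t)) = 0 := by
        rw [hp1, hq1]
        ring
      rw [e2] at e
      exact e
    have e3 := is_const_of_deriv_eq_zero (fun t => (hd t).differentiableAt) (fun t => (hd t).deriv) t 0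
    rw [e3, hχ0, h0, h0']
    simp
  have hpc : ∀ t, p t = Real.cos (χ t) := by
    intro t
    have e1 := hA t
    have e2 := hB t
    have e3 := Real.sin_sq_add_cos_sq (χ t)
    have e4 : p t = p t * (Real.sin (χ t) ^ 2 + Real.cos (χ t) ^ 2) := by rw [e3, mul_one]
    linear_combination e4 + Real.cos (χ t) * e1 - Real.sin (χ t) * e2
  have hqs : ∀ t, q t = Real.sin (χ t) := by
    intro t
    have e1 := hA t
    have e2 := hB t
    have e3 := Real.sin_sq_add_cos_sq (χ t)
    have e4 : q t = q t * (Real.sin (χ t) ^ 2 + Real.cos (χ t) ^ 2) := by rw [e3, mul_one]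
    linear_combination e4 + Real.sin (χ t) * e1 + Real.cos (χ t) * e2
  have hdp : ∀ t, deriv p (t + 1) = deriv p t := by
    intro t
    rw [← deriv_comp_add_const]
    exact congrArg (fun f => deriv f t) (funext hpp)
  have hdq : ∀ t, deriv q (t + 1) = deriv q t := by
    intro t
    rw [← deriv_comp_add_const]
    exact congrArg (fun f => deriv f t) (funext hqp)
  have hwp : ∀ t, w (t + 1) = w t := by
    intro t
    rw [hw]
    simp only
    rw [hpp, hqp, hdp, hdq]
  have hC : ∀ t, χ (t + 1) - χ t = χ 1 := by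
    intro t
    have hd : ∀ t, HasDerivAt (fun t => χ (t + 1) - χ t) 0 t := by
      intro t
      have e := ((hχd (t + 1)).comp_add_const t 1).sub (hχd t)
      rw [hwp, sub_self] at e
      exact e
    have e3 := is_const_of_deriv_eq_zero (fun t => (hd t).differentiableAt) (fun t => (hd t).deriv) t 0
    rw [e3, hχ0, zero_add, sub_zero]
  have hcos1 : Real.cos (χ 1) = 1 := by
    rw [← hpc]
    have e := hpp 0
    rw [zero_add, h0] at e
    exact e
  obtain ⟨φ, hφ⟩ := (Real.cos_eq_one_iff _).1 hcos1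
  refine ⟨χ, φ, hχS, fun t => ⟨hpc t, hqs t⟩, fun t => ?_⟩
  have e := hC t
  rw [← hφ] at e
  linarith

end Pool.Agent.Lib.MP_ccbbf6_gt.L5.IA
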