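import Pool.Agent.Lib.MP_ccbbf6_gt.L5.DG2
import Pool.Agent.Lib.MP_ccbbf6_gt.L5.NA3

/-!
# Level 5, block INTa, part 9: directions in exponential coordinates (helper91)

`vq q x e` = the velocity at `Ex q x` of the curve `s ↦ Ex q (x + s e)`; `edir q c` = the velocity of `c` at `c 0` in the
exponential coordinates of `q`.

Proofs. (Smoothness of `Ex` : `smAt_Ex2`; of `lg` : `smV_lg`, `lg_Ex`, `Ex_lg`, DG1/DG2; derivatives of smooth families: `smV_deriv`,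
NA3; a field along the constant map `q` is smooth iff it is smooth as a function, because `CC 𝒜 q q = id`, `CC_self`.)
* `vq_smul`, `vq_zero`: chain rule for `s ↦ r s` (for `r = 0`: constant curve, `deriv_const`).
* `smV_vq`: `g (u, τ) = Ex q (x u + τ • e u)` is smooth (`smAt_Ex2`), apply `smV_deriv`.
* `vq_ne`: `L (y) = lg 𝒜 q y` is smooth at `Ex q x` (distance `‖x‖ < π`) and `L (Ex q (x + s e)) = x + s e` for small `s`
  (`lg_Ex`); in the chart at `Ex q x` the chain rule gives `e = (derivative of L) (vq q x e)`, so `vq = 0` implies `e = 0`.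
* `edir_vel`: near `t = 0`, `c t = Ex q (lg q (c t))` (`Ex_lg`). The curves `t ↦ Ex q (lg q (c t))` and `s ↦ Ex q (x + s e)` with
  `x = lg q (c 0)`, `e = edir q c` are the images under the smooth map `Ex q` of two curves of `Eu n` with the same value and
  the same derivative at `0`, so they have the same velocity in the chart centered at `c 0 = Ex q x`: `vq q x e = 𝒜.vel c.1 0`
  (definition of `vel`: derivative of `t ↦ 𝒜.ψ (c 0) (c t)` at `0`).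
* `edir_ne`: `vel ≠ 0` (`vel_ne`) and `vq_zero`.
* `contDiffAt_edir`: `(v, t) ↦ lg q ((σ v).1 t)` is `ContDiffAt` at `(u, 0)` (`SmGAt.ev`, `smV_lg`), take the derivative in `t` at `0`
  (as in `smV_deriv`: `PO.contDiffAt_deriv2'`).
-/

set_option autoImplicit false
set_option linter.unusedSectionVars false

open Set Filter Topology Metric Real Module
open scoped ContDiff RealInnerProductSpace

noncomputable section

namespace Pool.Agent.Lib.MP_ccbbf6_gt.L5.IA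

open Geo L4 L4.ORI

variable {n : ℕ} {M : Type*} [MetricSpace M] [CompactSpace M] (𝒜 : SDist n M)

/-- the velocity at `Ex q x` of the curve `s ↦ Ex q (x + s e)` -/
def vq (q : M) (x e : Eu n) : Eu n := deriv (fun s : ℝ => 𝒜.ψ (𝒜.Ex q x) (𝒜.Ex q (x + s • e))) 0

/-- the velocity of a geodesic in the exponential coordinates of `q` -/
def edir (q : M) (c : Gs M) : Eu n := deriv (fun t : ℝ => lg 𝒜 q (c.1 t)) 0

variable {𝒜}

/-- the exponential map of a fixed point is smooth -/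
theorem ia09_Ex (hB : Bl M) (q : M) {E : Type*} [NormedAddCommGroup E] [NormedSpace ℝ E] {x : E → Eu n} {u : E}
    (hx : ContDiffAt ℝ ∞ x u) : SmAt 𝒜 (fun v => 𝒜.Ex q (x v)) u := by
  refine smAt_Ex2 hB (x := fun _ => q) (w := x) (smAt_const q u) (𝒜.mem q) ?_
  unfold SmV
  simp only [CC_self]
  exact hx

/-- the derivative of the exponential map in the chart centered at the value -/
def ia09_L (𝒜 : SDist n M) (q : M) (x : Eu n) : Eu n →L[ℝ] Eu n :=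
  fderiv ℝ (fun y => 𝒜.ψ (𝒜.Ex q x) (𝒜.Ex q y)) x

theorem ia09_hasFDerivAt (hB : Bl M) (q : M) (x : Eu n) :
    HasFDerivAt (fun y => 𝒜.ψ (𝒜.Ex q x) (𝒜.Ex q y)) (ia09_L 𝒜 q x) x :=
  (((ia09_Ex (𝒜 := 𝒜) hB q (contDiffAt_id (x := x))).2).differentiableAt (by simp)).hasFDerivAt

theorem ia09_curve (hB : Bl M) (q : M) {γ : ℝ → Eu n} {x e : Eu n} {t : ℝ} (h : HasDerivAt γ e t) (h0 : γ t = x) :
    HasDerivAt (fun s => 𝒜.ψ (𝒜.Ex q x) (𝒜.Ex q (γ s))) (ia09_L 𝒜 q x e) t := by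
  have h1 : HasFDerivAt (fun y => 𝒜.ψ (𝒜.Ex q x) (𝒜.Ex q y)) (ia09_L 𝒜 q x) (γ t) := by
    rw [h0]
    exact ia09_hasFDerivAt hB q x
  exact h1.comp_hasDerivAt t h

theorem ia09_vq (hB : Bl M) (q : M) (x e : Eu n) : vq 𝒜 q x e = ia09_L 𝒜 q x e := by
  have h1 : HasDerivAt (fun s : ℝ => x + s • e) e 0 := by
    have h2 := ((hasDerivAt_id (0 : ℝ)).smul_const e).const_add x
    rw [one_smul] at h2
    exact h2
  exact (ia09_curve hB q h1 (by rw [zero_smul, add_zero])).deriv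

theorem vq_zero (q : M) (x : Eu n) : vq 𝒜 q x 0 = 0 := by
  unfold vq
  simp only [smul_zero, add_zero]
  exact deriv_const _ _

theorem vq_smul (q : M) (x e : Eu n) (r : ℝ) : vq 𝒜 q x (r • e) = r • vq 𝒜 q x e := by
  unfold vq
  have h1 : (fun s : ℝ => 𝒜.ψ (𝒜.Ex q x) (𝒜.Ex q (x + s • r • e))) =
      fun s : ℝ => (fun s : ℝ => 𝒜.ψ (𝒜.Ex q x) (𝒜.Ex q (x + s • e))) (r * s) := by
    funext s
    simp only [smul_smul]
    rw [mul_comm]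
  rw [h1]
  refine (deriv_comp_mul_left r (fun s : ℝ => 𝒜.ψ (𝒜.Ex q x) (𝒜.Ex q (x + s • e))) 0).trans ?_
  rw [mul_zero]

theorem ia09_lg (hB : Bl M) {q : M} {E : Type*} [NormedAddCommGroup E] [NormedSpace ℝ E] {x : E → M} {u : E}
    (hx : SmAt 𝒜 x u) (hd : dist q (x u) < π) : ContDiffAt ℝ ∞ (fun v => lg 𝒜 q (x v)) u := by
  have h1 := smV_lg (𝒜 := 𝒜) hB (x := fun _ => q) (y := x) (p := q) (smAt_const q u) (𝒜.mem q) hx hd
  unfold SmV at h1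
  simp only [CC_self] at h1
  exact h1

theorem vq_ne (hB : Bl M) (q : M) {x e : Eu n} (hx : ‖x‖ < π) (he : e ≠ 0) : vq 𝒜 q x e ≠ 0 := by
  intro h
  rw [ia09_vq hB] at h
  apply he
  have hz : (fun y => 𝒜.ψ (𝒜.Ex q x) (𝒜.Ex q y)) x = 0 := 𝒜.zero _
  have ht : (0 : Eu n) ∈ (𝒜.ψ (𝒜.Ex q x)).target := by
    rw [← 𝒜.zero (𝒜.Ex q x)]
    exact (𝒜.ψ _).map_source (𝒜.mem _)
  have hs0 : (𝒜.ψ (𝒜.Ex q x)).symm 0 = 𝒜.Ex q x := symm_zero' 𝒜 _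
  have h1 : ContDiffAt ℝ ∞ (fun y => lg 𝒜 q ((𝒜.ψ (𝒜.Ex q x)).symm y)) 0 := by
    refine ia09_lg hB (smAt_symm contDiffAt_id ht) ?_
    show dist q ((𝒜.ψ (𝒜.Ex q x)).symm 0) < π
    rw [hs0, dist_Ex 𝒜 hB q hx.le]
    exact hx
  have h2 : HasFDerivAt (fun y => lg 𝒜 q ((𝒜.ψ (𝒜.Ex q x)).symm y))
      (fderiv ℝ (fun y => lg 𝒜 q ((𝒜.ψ (𝒜.Ex q x)).symm y)) 0) ((fun y => 𝒜.ψ (𝒜.Ex q x) (𝒜.Ex q y)) x) := by
    rw [hz]
    exact (h1.differentiableAt (by simp)).hasFDerivAt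
  have h3 := h2.comp x (ia09_hasFDerivAt hB q x)
  have h4 : HasFDerivAt ((fun y => lg 𝒜 q ((𝒜.ψ (𝒜.Ex q x)).symm y)) ∘ fun y => 𝒜.ψ (𝒜.Ex q x) (𝒜.Ex q y))
      (ContinuousLinearMap.id ℝ (Eu n)) x := by
    refine (hasFDerivAt_id x).congr_of_eventuallyEq ?_
    have e1 : ∀ᶠ y in 𝓝 x, ‖y‖ < π := (continuous_norm.tendsto x).eventually (gt_mem_nhds hx)
    have e2 : ∀ᶠ y in 𝓝 x, 𝒜.Ex q y ∈ (𝒜.ψ (𝒜.Ex q x)).source :=
      (ia09_Ex (𝒜 := 𝒜) hB q (contDiffAt_id (x := x))).1.eventually ((𝒜.ψ _).open_source.mem_nhds (𝒜.mem _))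
    filter_upwards [e1, e2] with y h5 h6
    show lg 𝒜 q ((𝒜.ψ (𝒜.Ex q x)).symm (𝒜.ψ (𝒜.Ex q x) (𝒜.Ex q y))) = y
    rw [(𝒜.ψ _).left_inv h6, lg_Ex hB q h5]
  have h5 := congrArg (fun L : Eu n →L[ℝ] Eu n => L e) (h3.unique h4)
  have h6 : fderiv ℝ (fun y => lg 𝒜 q ((𝒜.ψ (𝒜.Ex q x)).symm y)) 0 (ia09_L 𝒜 q x e) = e := h5
  rw [h, map_zero] at h6
  exact h6.symm

theorem smV_vq (hB : Bl M) (q : M) {E : Type*} [NormedAddCommGroup E] [NormedSpace ℝ E] {x e : E → Eu n} {u : E} {p : M}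
    (hx : ContDiffAt ℝ ∞ x u) (he : ContDiffAt ℝ ∞ e u) (hp : 𝒜.Ex q (x u) ∈ (𝒜.ψ p).source) :
    SmV 𝒜 p (fun v => 𝒜.Ex q (x v)) (fun v => vq 𝒜 q (x v) (e v)) u := by
  have h1 : ContDiffAt ℝ ∞ (fun z : E × ℝ => x z.1 + z.2 • e z.1) (u, 0) := by
    have h2 : ContDiffAt ℝ ∞ (fun z : E × ℝ => x z.1) (u, 0) :=
      ContDiffAt.comp (g := x) (f := fun z : E × ℝ => z.1) (u, 0) hx contDiffAt_fst
    have h3 : ContDiffAt ℝ ∞ (fun z : E × ℝ => e z.1) (u, 0) :=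
      ContDiffAt.comp (g := e) (f := fun z : E × ℝ => z.1) (u, 0) he contDiffAt_fst
    exact h2.add (contDiffAt_snd.smul h3)
  have h2 : SmAt 𝒜 (fun z : E × ℝ => 𝒜.Ex q (x z.1 + z.2 • e z.1)) (u, 0) := ia09_Ex hB q h1
  have h3 := smV_deriv (p := p) h2 (by
    show 𝒜.Ex q (x u + (0 : ℝ) • e u) ∈ (𝒜.ψ p).source
    rw [zero_smul, add_zero]
    exact hp)
  simp only [zero_smul, add_zero] at h3
  exact h3

theorem edir_vel (hB : Bl M) {q : M} {c : Gs M} (hc : dist q (c.1 0) < π) :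
    vq 𝒜 q (lg 𝒜 q (c.1 0)) (edir 𝒜 q c) = 𝒜.vel c.1 0 := by
  have h1 : SmAt 𝒜 (fun t : ℝ => c.1 t) 0 := (smGAt_const c (0 : ℝ)).ev hB (t := fun t => t) contDiffAt_id
  have h2 : ContDiffAt ℝ ∞ (fun t : ℝ => lg 𝒜 q (c.1 t)) 0 := ia09_lg hB h1 hc
  have h3 : HasDerivAt (fun t : ℝ => lg 𝒜 q (c.1 t)) (edir 𝒜 q c) 0 := (h2.differentiableAt (by simp)).hasDerivAt
  have h4 := ia09_curve (𝒜 := 𝒜) hB q h3 rfl
  rw [← ia09_vq hB] at h4
  simp only [Ex_lg hB] at h4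
  exact h4.deriv.symm

theorem edir_ne (hB : Bl M) {q : M} {c : Gs M} (hc : dist q (c.1 0) < π) : edir 𝒜 q c ≠ 0 := by
  intro h
  have h1 := edir_vel (𝒜 := 𝒜) hB hc
  rw [h, vq_zero] at h1
  have h2 : ‖𝒜.vel c.1 0‖ = 1 := vel_norm 𝒜 c
  rw [← h1, norm_zero] at h2
  exact zero_ne_one h2

theorem contDiffAt_lg (hB : Bl M) {q : M} {E : Type*} [NormedAddCommGroup E] [NormedSpace ℝ E] {x : E → M} {u : E}
    (hx : SmAt 𝒜 x u) (hd : dist q (x u) < π) : ContDiffAt ℝ ∞ (fun v => lg 𝒜 q (x v)) u := ia09_lg hB hx hd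

theorem contDiffAt_edir (hB : Bl M) {q : M} {E : Type*} [NormedAddCommGroup E] [NormedSpace ℝ E] {σ : E → Gs M} {u : E}
    (hσ : SmGAt 𝒜 σ u) (hd : dist q ((σ u).1 0) < π) : ContDiffAt ℝ ∞ (fun v => edir 𝒜 q (σ v)) u := by
  have h1 : SmGAt 𝒜 (fun z : E × ℝ => σ z.1) (u, 0) :=
    SmGAt.comp (σ := σ) (f := fun z : E × ℝ => z.1) (v := (u, 0)) hσ contDiffAt_fst
  have h2 : SmAt 𝒜 (fun z : E × ℝ => (σ z.1).1 z.2) (u, 0) := h1.ev hB (t := fun z : E × ℝ => z.2) contDiffAt_snd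
  have h3 : ContDiffAt ℝ ∞ (fun z : E × ℝ => lg 𝒜 q ((σ z.1).1 z.2)) (u, 0) := ia09_lg hB h2 hd
  exact PO.contDiffAt_deriv2' (g := fun z : E × ℝ => lg 𝒜 q ((σ z.1).1 z.2)) h3

end Pool.Agent.Lib.MP_ccbbf6_gt.L5.IA
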