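import Pool.Agent.Lib.MP_ccbbf6_gt.L5.EPS09
import Pool.Agent.Lib.MP_ccbbf6_gt.L5.IA08
import Pool.Agent.Lib.MP_ccbbf6_gt.L5.IA09

/-!
# Level 5, block INTa, part 10: contractions in `Gs M` (helper91)

Proof of `exists_contr`. By `exists_generic` (applied to `p y = (h y).1 0`) there is `q` with `dist q ((h y).1 0) < π` for all `y`.
Let `x y = lg 𝒜 q ((h y).1 0)` (norm `< π`, smooth: `contDiffAt_lg`), `ê y = ‖edir 𝒜 q (h y)‖⁻¹ • edir 𝒜 q (h y)` (smooth, norm one: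
`contDiffAt_edir`, `edir_ne`). The map `ê : V 3 → unit sphere of Eu n` is a plot of `spS n`, so by `exists_vertex` (EPS09; `3 + 1 < n`) there is a
unit vector `a` with `ê y ≠ -a` for all `y`. Then `e y r = r • ê y + (1 - r) • a ≠ 0` for `r ∈ [0,1]` (if it is zero then
`r ê = -(1-r) a`, norms give `r = 1 - r`, so `ê = -a`).
`H y r := gw 𝒜 hB (gst 𝒜 hB a ha (𝒜.Ex q (r • x y))) (vq 𝒜 q (r • x y) (e y r))`: the geodesic with foot `Ex q (r x)` in the direction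
`vq q (r x) (e r)`. (To get the last property define `H y r = Φ (h y) r` for a function `Φ : Gs M → ℝ → Gs M`.)
* smoothness for `r ∈ [0,1]`: `smGA_gw` with `hx` from `smAt_Ex2`, `hw` from `smV_vq`, `h0` from `vq_ne` (`‖r x‖ < π`).
  (`SmGA` and `SmGAt` are the same conjunction.)
* `r = 1`: the foot is `Ex q (lg q p) = p` (`Ex_lg`), the direction is `vq q x ê = ‖edir‖⁻¹ • vel` (`vq_smul`, `edir_vel`), so `nrm` of it is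
  `vel`; conclude with `eq_of_vel'`, `gw_zero`, `gw_vel`.
* `r = 0`: `r • x y = 0` and `e y 0 = a` do not depend on `y`.
-/

set_option autoImplicit false
set_option linter.unusedSectionVars false

open Set Filter Topology Metric Real Module
open scoped ContDiff RealInnerProductSpace

noncomputable section

namespace Pool.Agent.Lib.MP_ccbbf6_gt.L5.IA

open Geo L4 L4.ORI

variable {n : ℕ} {M : Type*} [MetricSpace M] [CompactSpace M] {𝒜 : SDist n M}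

/-- unit direction -/
private def ia10_ed (𝒜 : SDist n M) (q : M) (c : Gs M) : Eu n := ‖edir 𝒜 q c‖⁻¹ • edir 𝒜 q c

private theorem ia10_norm (hB : Bl M) {q : M} {c : Gs M} (hc : dist q (c.1 0) < π) : ‖ia10_ed 𝒜 q c‖ = 1 :=
  norm_normalize (edir_ne hB hc)

private theorem ia10_seg_ne {e a : Eu n} (he : ‖e‖ = 1) (ha : ‖a‖ = 1) (hna : e ≠ -a) {r : ℝ} (h0 : 0 ≤ r) (h1 : r ≤ 1) :
    r • e + (1 - r) • a ≠ 0 := by
  intro h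
  have h2 : r • e = -((1 - r) • a) := eq_neg_of_add_eq_zero_left h
  have h3 := congrArg norm h2
  rw [norm_neg, norm_smul, norm_smul, he, ha, mul_one, mul_one, Real.norm_of_nonneg h0,
    Real.norm_of_nonneg (by linarith)] at h3
  have h4 : r = 1 / 2 := by linarith
  apply hna
  rw [h4, show (1 : ℝ) - 1 / 2 = 1 / 2 by norm_num, ← smul_neg] at h2
  exact smul_right_injective _ (by norm_num : (1 / 2 : ℝ) ≠ 0) h2

/-- the contraction -/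
private def ia10_Phi (𝒜 : SDist n M) (hB : Bl M) (q : M) {a : Eu n} (ha : ‖a‖ = 1) (c : Gs M) (r : ℝ) : Gs M :=
  gw 𝒜 hB (gst 𝒜 hB a ha (𝒜.Ex q (r • lg 𝒜 q (c.1 0))))
    (vq 𝒜 q (r • lg 𝒜 q (c.1 0)) (r • ia10_ed 𝒜 q c + (1 - r) • a))

private theorem ia10_norm_lt (hB : Bl M) {q : M} {c : Gs M} (hc : dist q (c.1 0) < π) {r : ℝ} (h0 : 0 ≤ r) (h1 : r ≤ 1) :
    ‖r • lg 𝒜 q (c.1 0)‖ < π := by
  rw [norm_smul, norm_lg hB, Real.norm_of_nonneg h0]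
  exact lt_of_le_of_lt (mul_le_of_le_one_left dist_nonneg h1) hc

private theorem ia10_one (hB : Bl M) {q : M} {a : Eu n} (ha : ‖a‖ = 1) {c : Gs M} (hc : dist q (c.1 0) < π) :
    ia10_Phi 𝒜 hB q ha c 1 = c := by
  have hx : (1 : ℝ) • lg 𝒜 q (c.1 0) = lg 𝒜 q (c.1 0) := one_smul _ _
  have he : (1 : ℝ) • ia10_ed 𝒜 q c + (1 - (1 : ℝ)) • a = ia10_ed 𝒜 q c := by
    rw [one_smul, sub_self, zero_smul, add_zero]
  have hw : vq 𝒜 q (lg 𝒜 q (c.1 0)) (ia10_ed 𝒜 q c) = ‖edir 𝒜 q c‖⁻¹ • 𝒜.vel c.1 0 := by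
    unfold ia10_ed
    rw [vq_smul, edir_vel hB hc]
  have hne : ‖edir 𝒜 q c‖⁻¹ ≠ 0 := inv_ne_zero (norm_ne_zero_iff.2 (edir_ne hB hc))
  have hw0 : vq 𝒜 q (lg 𝒜 q (c.1 0)) (ia10_ed 𝒜 q c) ≠ 0 := by
    rw [hw]
    exact smul_ne_zero hne (vel_ne 𝒜 c)
  unfold ia10_Phi
  rw [hx, he, Ex_lg hB]
  refine eq_of_vel' 𝒜 ?_ ?_
  · rw [gw_zero]
    exact (gvg_vel 𝒜 hB _ _ _).1
  · rw [gw_vel 𝒜 hB _ hw0, hw]
    unfold ORI.nrm
    rw [norm_smul, vel_norm, mul_one, norm_inv, norm_norm, inv_inv, smul_smul,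
      mul_inv_cancel₀ (norm_ne_zero_iff.2 (edir_ne hB hc)), one_smul]

private theorem ia10_zero (hB : Bl M) {q : M} {a : Eu n} (ha : ‖a‖ = 1) (c c' : Gs M) :
    ia10_Phi 𝒜 hB q ha c 0 = ia10_Phi 𝒜 hB q ha c' 0 := by
  unfold ia10_Phi
  simp only [zero_smul, zero_add]

private theorem ia10_smooth (hB : Bl M) {q : M} {a : Eu n} (ha : ‖a‖ = 1) {h : FR.V 3 → Gs M} (hh : SmG 𝒜 h)
    {y : FR.V 3} (hq : dist q ((h y).1 0) < π) (hna : ia10_ed 𝒜 q (h y) ≠ -a) {r : ℝ} (hr : r ∈ Icc (0 : ℝ) 1) :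
    SmGAt 𝒜 (fun z : FR.V 3 × ℝ => ia10_Phi 𝒜 hB q ha (h z.1) z.2) (y, r) := by
  have hσ : SmGAt 𝒜 h y := ⟨hh.1 y, hh.2 y⟩
  have hfst : ContDiffAt ℝ ∞ (fun z : FR.V 3 × ℝ => z.1) (y, r) := contDiffAt_fst
  have hsnd : ContDiffAt ℝ ∞ (fun z : FR.V 3 × ℝ => z.2) (y, r) := contDiffAt_snd
  -- the point
  have hl : ContDiffAt ℝ ∞ (fun v : FR.V 3 => lg 𝒜 q ((h v).1 0)) y := contDiffAt_lg hB hσ.1 hq
  have hl' : ContDiffAt ℝ ∞ (fun z : FR.V 3 × ℝ => lg 𝒜 q ((h z.1).1 0)) (y, r) :=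
    ContDiffAt.comp (g := fun v : FR.V 3 => lg 𝒜 q ((h v).1 0)) (f := fun z : FR.V 3 × ℝ => z.1) (y, r) hl hfst
  have hx : ContDiffAt ℝ ∞ (fun z : FR.V 3 × ℝ => z.2 • lg 𝒜 q ((h z.1).1 0)) (y, r) := hsnd.smul hl'
  -- the direction
  have hed : ContDiffAt ℝ ∞ (fun v : FR.V 3 => edir 𝒜 q (h v)) y := contDiffAt_edir hB hσ hq
  have hed1 : ContDiffAt ℝ ∞ (fun v : FR.V 3 => ia10_ed 𝒜 q (h v)) y := by
    unfold ia10_ed
    exact ((hed.norm ℝ (edir_ne hB hq)).inv (norm_ne_zero_iff.2 (edir_ne hB hq))).smul hed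
  have hed2 : ContDiffAt ℝ ∞ (fun z : FR.V 3 × ℝ => ia10_ed 𝒜 q (h z.1)) (y, r) :=
    ContDiffAt.comp (g := fun v : FR.V 3 => ia10_ed 𝒜 q (h v)) (f := fun z : FR.V 3 × ℝ => z.1) (y, r) hed1 hfst
  have he : ContDiffAt ℝ ∞ (fun z : FR.V 3 × ℝ => z.2 • ia10_ed 𝒜 q (h z.1) + (1 - z.2) • a) (y, r) :=
    (hsnd.smul hed2).add ((contDiffAt_const.sub hsnd).smul contDiffAt_const)
  have hfoot : (fun z : FR.V 3 × ℝ => (gst 𝒜 hB a ha (𝒜.Ex q (z.2 • lg 𝒜 q ((h z.1).1 0)))).1 0) =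
      fun z : FR.V 3 × ℝ => 𝒜.Ex q (z.2 • lg 𝒜 q ((h z.1).1 0)) := by
    funext z
    exact (gvg_vel 𝒜 hB _ _ _).1
  have hEx : SmAt 𝒜 (fun z : FR.V 3 × ℝ => 𝒜.Ex q (z.2 • lg 𝒜 q ((h z.1).1 0))) (y, r) := by
    refine smAt_Ex2 hB (x := fun _ : FR.V 3 × ℝ => q) (smAt_const q (y, r)) (𝒜.mem q) ?_
    show ContDiffAt ℝ ∞ (fun z : FR.V 3 × ℝ => CC 𝒜 q q (z.2 • lg 𝒜 q ((h z.1).1 0))) (y, r)
    exact (CC 𝒜 q q).contDiff.contDiffAt.comp (y, r) hx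
  have hp : 𝒜.Ex q (r • lg 𝒜 q ((h y).1 0)) ∈ (𝒜.ψ (𝒜.Ex q (r • lg 𝒜 q ((h y).1 0)))).source := 𝒜.mem _
  have hV := smV_vq hB q (u := (y, r)) (p := 𝒜.Ex q (r • lg 𝒜 q ((h y).1 0))) hx he hp
  have key := smGA_gw hB (c := fun z : FR.V 3 × ℝ => gst 𝒜 hB a ha (𝒜.Ex q (z.2 • lg 𝒜 q ((h z.1).1 0))))
    (w := fun z : FR.V 3 × ℝ => vq 𝒜 q (z.2 • lg 𝒜 q ((h z.1).1 0)) (z.2 • ia10_ed 𝒜 q (h z.1) + (1 - z.2) • a))
    (u := (y, r)) (p := 𝒜.Ex q (r • lg 𝒜 q ((h y).1 0))) (by rw [hfoot]; exact hEx)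
    (by rw [show (gst 𝒜 hB a ha (𝒜.Ex q ((y, r).2 • lg 𝒜 q ((h (y, r).1).1 0)))).1 0 =
        𝒜.Ex q (r • lg 𝒜 q ((h y).1 0)) from (gvg_vel 𝒜 hB _ _ _).1]; exact hp)
    (by rw [hfoot]; exact hV)
    (vq_ne hB q (ia10_norm_lt hB hq hr.1 hr.2) (ia10_seg_ne (ia10_norm hB hq) ha hna hr.1 hr.2))
  exact key

/-- smooth three-parameter families of geodesics are contractible -/
theorem exists_contr (hB : Bl M) {κ : ℕ} (hk : 𝒜.HK κ) (hκ : 3 ≤ κ) (hn : 4 < n) {h : FR.V 3 → Gs M} (hh : SmG 𝒜 h) :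
    ∃ H : FR.V 3 → ℝ → Gs M, (∀ y, ∀ r ∈ Icc (0 : ℝ) 1, SmGAt 𝒜 (fun z : FR.V 3 × ℝ => H z.1 z.2) (y, r)) ∧
      (∀ y, H y 1 = h y) ∧ (∀ y y', H y 0 = H y' 0) ∧ ∀ y y', h y = h y' → H y = H y' := by
  obtain ⟨q, hq⟩ := exists_generic hB hk hκ (p := fun y => (h y).1 0) hh.1
  have he0 : ContDiff ℝ ∞ fun y : FR.V 3 => edir 𝒜 q (h y) :=
    contDiff_iff_contDiffAt.2 fun y => contDiffAt_edir hB ⟨hh.1 y, hh.2 y⟩ (hq y)
  obtain ⟨a, ha, hna⟩ := exists_vertex (nzP he0 fun y => edir_ne hB (hq y)) hn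
  refine ⟨fun y r => ia10_Phi 𝒜 hB q ha (h y) r, fun y r hr => ?_, fun y => ia10_one hB ha (hq y),
    fun y y' => ia10_zero hB ha _ _, fun y y' hy => by
      show (fun r => ia10_Phi 𝒜 hB q ha (h y) r) = fun r => ia10_Phi 𝒜 hB q ha (h y') r
      rw [hy]⟩
  exact ia10_smooth hB ha hh (hq y) (hna y) hr

end Pool.Agent.Lib.MP_ccbbf6_gt.L5.IA
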