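import Pool.Agent.Lib.MP_ccbbf6_gt.Geo.Ifc

/-!
# Level 5, block INTa, part 20: isometric maps onto the range of a projection (helper91)

Proofs.
* `adj_inner`: `v = ∑ i, v i • e i`, linearity (`PiLp.inner_apply`, `real_inner_comm`, `map_sum`).
* `inner_iso`: polarization (`L` as a linear isometry: `LinearIsometry.inner_map_map` for `⟨(L : Eu r →ₗ[ℝ] Eu N), hL⟩`).
* `adj_L`: `⟪v', adj L (L v)⟫ = ⟪L v', L v⟫ = ⟪v', v⟫` for all `v'` (`ext_inner_left`).
* `L_adj`: the range of `L` is contained in the range of `T` (`hT`) and has the same dimension `r` (`L` is injective: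
  `LinearMap.finrank_range_of_inj`), so they are equal (`Submodule.eq_of_le_of_finrank_eq`); `x = T x` is in the range, `x = L v`, and
  `L (adj L (L v)) = L v` by `adj_L`.
* `exists_iso`: `S` = the range of `T`; an orthonormal basis of `S` indexed by `Fin r` (`stdOrthonormalBasis` and a cast of `finrank S = r`);
  `L v = ∑ i, v i • (b i : Eu N)` (`b.repr.symm` composed with the inclusion, a linear isometry). `T (L v) = L v` since `L v ∈ S`.
* `contDiffAt_adj`: `contDiffAt_euclidean`, `ContDiffAt.inner`, `ContDiffAt.clm_apply`.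

-/

set_option autoImplicit false

open Set Filter Topology Module
open scoped ContDiff RealInnerProductSpace

noncomputable section

namespace Pool.Agent.Lib.MP_ccbbf6_gt.L5.IA

open Geo

variable {r N : ℕ}

/-- the adjoint -/
def adj (L : Eu r →L[ℝ] Eu N) (x : Eu N) : Eu r := WithLp.toLp 2 fun i => ⟪L (EuclideanSpace.single i 1), x⟫

theorem adj_inner (L : Eu r →L[ℝ] Eu N) (v : Eu r) (x : Eu N) : ⟪v, adj L x⟫ = ⟪L v, x⟫ := by
  have h1 : v = ∑ i, v i • (EuclideanSpace.single i (1 : ℝ) : Eu r) := by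
    have h2 := (EuclideanSpace.basisFun (Fin r) ℝ).sum_repr v
    simp only [EuclideanSpace.basisFun_repr, EuclideanSpace.basisFun_apply] at h2
    exact h2.symm
  have h3 : L v = ∑ i, v i • L (EuclideanSpace.single i (1 : ℝ) : Eu r) := by
    conv_lhs => rw [h1]
    rw [map_sum]
    exact Finset.sum_congr rfl fun i _ => map_smul L _ _
  rw [h3, sum_inner, PiLp.inner_apply]
  refine Finset.sum_congr rfl fun i _ => ?_
  rw [real_inner_smul_left]
  show ⟪v i, ⟪L (EuclideanSpace.single i 1), x⟫⟫ = _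
  simp [mul_comm]

theorem inner_iso {L : Eu r →L[ℝ] Eu N} (hL : ∀ v, ‖L v‖ = ‖v‖) (v w : Eu r) : ⟪L v, L w⟫ = ⟪v, w⟫ :=
  LinearIsometry.inner_map_map (⟨(L : Eu r →ₗ[ℝ] Eu N), hL⟩ : Eu r →ₗᵢ[ℝ] Eu N) v w

theorem adj_L {L : Eu r →L[ℝ] Eu N} (hL : ∀ v, ‖L v‖ = ‖v‖) (v : Eu r) : adj L (L v) = v := by
  refine ext_inner_left ℝ fun v' => ?_
  rw [adj_inner, inner_iso hL]

private theorem ia20_inj {L : Eu r →L[ℝ] Eu N} (hL : ∀ v, ‖L v‖ = ‖v‖) :
    Function.Injective (L : Eu r →ₗ[ℝ] Eu N) := by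
  intro v w h
  have h1 : L v = L w := h
  rw [← adj_L hL v, ← adj_L hL w, h1]

theorem L_adj {L : Eu r →L[ℝ] Eu N} (hL : ∀ v, ‖L v‖ = ‖v‖) {T : Eu N →L[ℝ] Eu N} (hT : ∀ v, T (L v) = L v)
    (hr : finrank ℝ (LinearMap.range (T : Eu N →ₗ[ℝ] Eu N)) = r) {x : Eu N} (hx : T x = x) : L (adj L x) = x := by
  have h1 : LinearMap.range (L : Eu r →ₗ[ℝ] Eu N) ≤ LinearMap.range (T : Eu N →ₗ[ℝ] Eu N) := by
    rintro _ ⟨v, rfl⟩
    exact ⟨L v, hT v⟩
  have h2 : finrank ℝ (LinearMap.range (L : Eu r →ₗ[ℝ] Eu N)) = r := by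
    rw [LinearMap.finrank_range_of_inj (ia20_inj hL)]
    exact finrank_euclideanSpace_fin
  have h3 := Submodule.eq_of_le_of_finrank_eq h1 (h2.trans hr.symm)
  have h4 : x ∈ LinearMap.range (L : Eu r →ₗ[ℝ] Eu N) := by
    rw [h3]
    exact ⟨x, hx⟩
  obtain ⟨v, hv⟩ := h4
  have h5 : L v = x := hv
  rw [← h5, adj_L hL]

theorem exists_iso {T : Eu N →L[ℝ] Eu N} (hid : ∀ x, T (T x) = T x)
    (hr : finrank ℝ (LinearMap.range (T : Eu N →ₗ[ℝ] Eu N)) = r) :
    ∃ L : Eu r →L[ℝ] Eu N, (∀ v, ‖L v‖ = ‖v‖) ∧ ∀ v, T (L v) = L v := by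
  let b := (stdOrthonormalBasis ℝ (LinearMap.range (T : Eu N →ₗ[ℝ] Eu N))).reindex (finCongr hr)
  let e : Eu r →ₗᵢ[ℝ] Eu N :=
    (LinearMap.range (T : Eu N →ₗ[ℝ] Eu N)).subtypeₗᵢ.comp b.repr.symm.toLinearIsometry
  refine ⟨e.toContinuousLinearMap, fun v => e.norm_map v, fun v => ?_⟩
  obtain ⟨y, hy⟩ := (b.repr.symm v).2
  have h1 : T y = e.toContinuousLinearMap v := hy
  rw [← h1, hid]

theorem contDiffAt_adj {E : Type*} [NormedAddCommGroup E] [NormedSpace ℝ E] {L : E → Eu r →L[ℝ] Eu N} {x : E → Eu N} {u : E}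
    (hL : ContDiffAt ℝ ∞ L u) (hx : ContDiffAt ℝ ∞ x u) : ContDiffAt ℝ ∞ (fun v => adj (L v) (x v)) u := by
  rw [contDiffAt_euclidean]
  intro i
  exact (hL.clm_apply contDiffAt_const).inner ℝ hx

end Pool.Agent.Lib.MP_ccbbf6_gt.L5.IA
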