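import Pool.Agent.Lib.MP_ccbbf6_gt.L5.EPS09
import Pool.Agent.Lib.MP_ccbbf6_gt.L5.IA06
import Pool.Agent.Lib.MP_ccbbf6_gt.L5.IA20

/-!
# Level 5, block INTa, part 21: contraction of a loop in the two-sphere together with a frame (helper91)

Proof of `exists_loop_frame`.
1. By `exists_vertex` (EPS09) applied to the plot `(spS 3).Plot 1`, `x ↦ u (x 0)` (`1 + 1 < 3`) there is a unit vector `a` with
   `u t ≠ -a` for all `t`. For `r ∈ [0,1]` the vector `w t r = (1 - r) • a + r • u t` is nonzero (if it is zero, norms give `1 - r = r`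
   and `u t = -a`). Put `U' t r = ‖w t r‖⁻¹ • w t r`: smooth at `(t, r)` for `r ∈ [0,1]` (`ContDiffAt.norm`, `ContDiffAt.inv`, nonzero), norm one,
   `U' t 0 = a`, `U' t 1 = u t`, `1`-periodic in `t`.
2. `Q t r v = v - ⟪U' t r, v⟫ • U' t r` (as a continuous linear map: `ContinuousLinearMap.id - (innerSL ℝ (U' t r)).smulRight (U' t r)`); it is
   idempotent for `r ∈ [0,1]`, smooth. `Q t 0` is the projection to the complement of `a`, of rank `2`; `exists_iso` (IA20, with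
   the rank computed e.g. from the orthogonal complement: `Submodule.finrank_orthogonal_span_singleton`) gives `L₁ : Eu 2 →L[ℝ] Eu 3`
   isometric with `Q t 0 (L₁ v) = L₁ v`.
3. `exists_on_frame` (IA06) with `E = ℝ`, `K = Icc 0 1` (`Q t = Q (Int.fract t)`; a `1`-periodic function satisfies `f t = f (Int.fract t)`)
   gives `F t s : Eu 2 →L[ℝ] Eu 3`, isometric, `Q t (smoothTransition s) (F t s v) = F t s v`, `F t 0 = L₁`, `F (t+1) = F t`.
4. `U t s = U' t (smoothTransition s)`, `A t s = F t s e₀`, `B t s = F t s e₁` (`e₀, e₁` the standard basis of `Eu 2`; `inner_iso`); `Q x = x`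
   implies `⟪U', x⟫ = 0`. `smoothTransition 0 = 0`, `smoothTransition 1 = 1`.
-/

set_option autoImplicit false

open Set Filter Topology Module
open scoped ContDiff RealInnerProductSpace

noncomputable section

namespace Pool.Agent.Lib.MP_ccbbf6_gt.L5.IA

open Geo

private theorem ia21_vertex {u : ℝ → Eu 3} (hu : ContDiff ℝ ∞ u) (h1 : ∀ t, ‖u t‖ = 1) :
    ∃ a : Eu 3, ‖a‖ = 1 ∧ ∀ t, u t ≠ -a := by
  have h2 : ContDiff ℝ ∞ fun x : Fin 1 → ℝ => u (x 0) := hu.comp (contDiff_apply ℝ ℝ (0 : Fin 1))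
  let p : (L4.spS 3).Plot 1 := ⟨fun x => ⟨u (x 0), h1 _⟩, h2⟩
  obtain ⟨a, ha, h⟩ := exists_vertex p (by norm_num)
  exact ⟨a, ha, fun t => h (fun _ => t)⟩

/-- the segment -/
private def ia21_W (u : ℝ → Eu 3) (a : Eu 3) (z : ℝ × ℝ) : Eu 3 := (1 - z.2) • a + z.2 • u z.1

/-- the normalised segment -/
private def ia21_U (u : ℝ → Eu 3) (a : Eu 3) (z : ℝ × ℝ) : Eu 3 := ‖ia21_W u a z‖⁻¹ • ia21_W u a z

/-- the projection -/
private def ia21_Q (u : ℝ → Eu 3) (a : Eu 3) (t s : ℝ) : Eu 3 →L[ℝ] Eu 3 :=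
  ContinuousLinearMap.id ℝ (Eu 3) - (innerSL ℝ (ia21_U u a (t, s))).smulRight (ia21_U u a (t, s))

private theorem ia21_Q_apply (u : ℝ → Eu 3) (a : Eu 3) (t s : ℝ) (x : Eu 3) :
    ia21_Q u a t s x = x - ⟪ia21_U u a (t, s), x⟫ • ia21_U u a (t, s) := rfl

private theorem ia21_ne {u : ℝ → Eu 3} (h1 : ∀ t, ‖u t‖ = 1) {a : Eu 3} (ha : ‖a‖ = 1) (hna : ∀ t, u t ≠ -a)
    {z : ℝ × ℝ} (hz : z.2 ∈ Icc (0 : ℝ) 1) : ia21_W u a z ≠ 0 := by
  intro h0
  have h2 : (1 - z.2) • a = -(z.2 • u z.1) := eq_neg_of_add_eq_zero_left h0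
  have h3 := congrArg norm h2
  rw [norm_smul, norm_neg, norm_smul, ha, h1, mul_one, mul_one, Real.norm_eq_abs, Real.norm_eq_abs,
    abs_of_nonneg hz.1, abs_of_nonneg (by linarith [hz.2])] at h3
  have h4 : z.2 = 1 / 2 := by linarith
  rw [h4, show ((1 : ℝ) - 1 / 2) = 1 / 2 by norm_num, ← smul_neg] at h2
  have h5 := smul_right_injective _ (by norm_num : (1 / 2 : ℝ) ≠ 0) h2
  exact hna z.1 (by rw [h5, neg_neg])

private theorem ia21_smU {u : ℝ → Eu 3} (hu : ContDiff ℝ ∞ u) (h1 : ∀ t, ‖u t‖ = 1) {a : Eu 3} (ha : ‖a‖ = 1)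
    (hna : ∀ t, u t ≠ -a) {z : ℝ × ℝ} (hz : z.2 ∈ Icc (0 : ℝ) 1) : ContDiffAt ℝ ∞ (ia21_U u a) z := by
  have h2 : ContDiff ℝ ∞ (ia21_W u a) :=
    ((contDiff_const.sub contDiff_snd).smul contDiff_const).add (contDiff_snd.smul (hu.comp contDiff_fst))
  have h3 := ia21_ne h1 ha hna hz
  exact ((h2.contDiffAt.norm ℝ h3).inv (norm_ne_zero_iff.2 h3)).smul h2.contDiffAt

private theorem ia21_nrm {u : ℝ → Eu 3} (h1 : ∀ t, ‖u t‖ = 1) {a : Eu 3} (ha : ‖a‖ = 1)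
    (hna : ∀ t, u t ≠ -a) {z : ℝ × ℝ} (hz : z.2 ∈ Icc (0 : ℝ) 1) : ‖ia21_U u a z‖ = 1 := by
  have h3 := ia21_ne h1 ha hna hz
  unfold ia21_U
  rw [norm_smul, norm_inv, norm_norm, inv_mul_cancel₀ (norm_ne_zero_iff.2 h3)]

private theorem ia21_smQ {u : ℝ → Eu 3} (hu : ContDiff ℝ ∞ u) (h1 : ∀ t, ‖u t‖ = 1) {a : Eu 3} (ha : ‖a‖ = 1)
    (hna : ∀ t, u t ≠ -a) {z : ℝ × ℝ} (hz : z.2 ∈ Icc (0 : ℝ) 1) :
    ContDiffAt ℝ ∞ (fun z : ℝ × ℝ => ia21_Q u a z.1 z.2) z := by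
  have h2 := ia21_smU hu h1 ha hna hz
  have h3 : ContDiffAt ℝ ∞ (fun z : ℝ × ℝ => innerSL ℝ (ia21_U u a z)) z :=
    (innerSL ℝ (E := Eu 3)).contDiff.contDiffAt.comp z h2
  exact contDiffAt_const.sub (h3.smulRight h2)

private theorem ia21_orth {u : ℝ → Eu 3} (h1 : ∀ t, ‖u t‖ = 1) {a : Eu 3} (ha : ‖a‖ = 1)
    (hna : ∀ t, u t ≠ -a) {t s : ℝ} (hs : s ∈ Icc (0 : ℝ) 1) (x : Eu 3) :
    ⟪ia21_U u a (t, s), ia21_Q u a t s x⟫ = 0 := by
  have h2 : ‖ia21_U u a (t, s)‖ = 1 := ia21_nrm h1 ha hna hs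
  rw [ia21_Q_apply, inner_sub_right, real_inner_smul_right, real_inner_self_eq_norm_sq, h2]
  ring

private theorem ia21_U0 {u : ℝ → Eu 3} {a : Eu 3} (ha : ‖a‖ = 1) (t : ℝ) : ia21_U u a (t, 0) = a := by
  have h2 : ia21_W u a (t, 0) = a := by
    show ((1 : ℝ) - 0) • a + (0 : ℝ) • u t = a
    rw [sub_zero, one_smul, zero_smul, add_zero]
  unfold ia21_U
  rw [h2, ha, inv_one, one_smul]

private theorem ia21_U1 {u : ℝ → Eu 3} (h1 : ∀ t, ‖u t‖ = 1) (a : Eu 3) (t : ℝ) : ia21_U u a (t, 1) = u t := by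
  have h2 : ia21_W u a (t, 1) = u t := by
    show ((1 : ℝ) - 1) • a + (1 : ℝ) • u t = u t
    rw [sub_self, one_smul, zero_smul, zero_add]
  unfold ia21_U
  rw [h2, h1, inv_one, one_smul]

private theorem ia21_rank {u : ℝ → Eu 3} {a : Eu 3} (ha : ‖a‖ = 1) :
    finrank ℝ (LinearMap.range (ia21_Q u a 0 0 : Eu 3 →ₗ[ℝ] Eu 3)) = 2 := by
  have h1 : LinearMap.range (ia21_Q u a 0 0 : Eu 3 →ₗ[ℝ] Eu 3) = (Submodule.span ℝ {a})ᗮ := by
    ext x
    rw [Submodule.mem_orthogonal_singleton_iff_inner_right]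
    constructor
    · rintro ⟨y, hy⟩
      have h2 : ia21_Q u a 0 0 y = x := hy
      rw [← h2, ia21_Q_apply, ia21_U0 ha, inner_sub_right, real_inner_smul_right, real_inner_self_eq_norm_sq, ha]
      ring
    · intro hx
      refine ⟨x, ?_⟩
      show ia21_Q u a 0 0 x = x
      rw [ia21_Q_apply, ia21_U0 ha, hx, zero_smul, sub_zero]
  have : Fact (finrank ℝ (Eu 3) = 2 + 1) := ⟨finrank_euclideanSpace_fin⟩
  have ha0 : a ≠ 0 := by
    rintro rfl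
    rw [norm_zero] at ha
    exact zero_ne_one ha
  rw [h1]
  exact Submodule.finrank_orthogonal_span_singleton ha0

/-- contraction of a loop in the two-sphere together with a frame -/
theorem exists_loop_frame {u : ℝ → Eu 3} (hu : ContDiff ℝ ∞ u) (h1 : ∀ t, ‖u t‖ = 1) (hp : ∀ t, u (t + 1) = u t) :
    ∃ U A B : ℝ → ℝ → Eu 3, ContDiff ℝ ∞ (fun z : ℝ × ℝ => U z.1 z.2) ∧ ContDiff ℝ ∞ (fun z : ℝ × ℝ => A z.1 z.2) ∧
      ContDiff ℝ ∞ (fun z : ℝ × ℝ => B z.1 z.2) ∧ (∀ t, U t 1 = u t) ∧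
      (∀ t s, ‖U t s‖ = 1 ∧ ‖A t s‖ = 1 ∧ ‖B t s‖ = 1 ∧ ⟪U t s, A t s⟫ = 0 ∧ ⟪U t s, B t s⟫ = 0 ∧ ⟪A t s, B t s⟫ = 0) ∧
      (∀ t, U t 0 = U 0 0 ∧ A t 0 = A 0 0 ∧ B t 0 = B 0 0) ∧
      ∀ t s, U (t + 1) s = U t s ∧ A (t + 1) s = A t s ∧ B (t + 1) s = B t s := by
  obtain ⟨a, ha, hna⟩ := ia21_vertex hu h1
  have hUc : ∀ t t' s, u t = u t' → ia21_U u a (t, s) = ia21_U u a (t', s) := by
    intro t t' s h
    unfold ia21_U ia21_W
    show ‖(1 - s) • a + s • u t‖⁻¹ • ((1 - s) • a + s • u t) = _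
    rw [h]
  have hQc : ∀ t t', u t = u t' → ia21_Q u a t = ia21_Q u a t' := by
    intro t t' h
    funext s
    unfold ia21_Q
    rw [hUc t t' s h]
  have hid : ∀ t, ∀ s ∈ Icc (0 : ℝ) 1, ∀ x, ia21_Q u a t s (ia21_Q u a t s x) = ia21_Q u a t s x := by
    intro t s hs x
    conv_lhs => rw [ia21_Q_apply]
    rw [ia21_orth h1 ha hna hs, zero_smul, sub_zero]
  have hper : Function.Periodic u 1 := hp
  obtain ⟨L, hL, hTL⟩ := exists_iso (hid 0 0 ⟨le_rfl, zero_le_one⟩) (ia21_rank (u := u) ha)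
  have h0 : ∀ t v, ia21_Q u a t 0 (L v) = L v := by
    intro t v
    rw [ia21_Q_apply, ia21_U0 ha]
    have h2 := hTL v
    rw [ia21_Q_apply, ia21_U0 ha] at h2
    exact h2
  obtain ⟨F, hF1, hF2, hF3, hF4, hF5⟩ := exists_on_frame (Q := ia21_Q u a)
    (fun y s hs => ia21_smQ hu h1 ha hna (z := (y, s)) hs) hid (isCompact_Icc (a := (0 : ℝ)) (b := 1))
    (fun t => ⟨Int.fract t, ⟨Int.fract_nonneg t, (Int.fract_lt_one t).le⟩, hQc _ _ (by
      have h2 := hper.sub_int_mul_eq (x := t) ⌊t⌋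
      rw [mul_one] at h2
      exact h2.symm)⟩) hL h0
  have hst : ∀ s, Real.smoothTransition s ∈ Icc (0 : ℝ) 1 := fun s =>
    ⟨Real.smoothTransition.nonneg s, Real.smoothTransition.le_one s⟩
  have horth : ∀ t s v, ⟪ia21_U u a (t, Real.smoothTransition s), F t s v⟫ = 0 := by
    intro t s v
    rw [← hF2 t s v]
    exact ia21_orth h1 ha hna (hst s) _
  have hn : ∀ i : Fin 2, ‖(EuclideanSpace.single i (1 : ℝ) : Eu 2)‖ = 1 := fun i => by
    rw [PiLp.norm_single, norm_one]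
  refine ⟨fun t s => ia21_U u a (t, Real.smoothTransition s), fun t s => F t s (EuclideanSpace.single 0 1),
    fun t s => F t s (EuclideanSpace.single 1 1), ?_, hF1.clm_apply contDiff_const, hF1.clm_apply contDiff_const,
    fun t => ?_, fun t s => ⟨ia21_nrm h1 ha hna (hst s), ?_, ?_, horth t s _, horth t s _, ?_⟩, fun t => ⟨?_, ?_, ?_⟩,
    fun t s => ⟨hUc _ _ _ (hp t), ?_, ?_⟩⟩
  · rw [contDiff_iff_contDiffAt]
    intro z
    have h2 : ContDiff ℝ ∞ fun z : ℝ × ℝ => ((z.1, Real.smoothTransition z.2) : ℝ × ℝ) :=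
      contDiff_fst.prodMk (Real.smoothTransition.contDiff.comp contDiff_snd)
    exact ContDiffAt.comp (g := ia21_U u a) (f := fun z : ℝ × ℝ => ((z.1, Real.smoothTransition z.2) : ℝ × ℝ)) z
      (ia21_smU hu h1 ha hna (z := (z.1, Real.smoothTransition z.2)) (hst z.2)) h2.contDiffAt
  · show ia21_U u a (t, Real.smoothTransition 1) = u t
    rw [Real.smoothTransition.one, ia21_U1 h1]
  · rw [hF3, hn]
  · rw [hF3, hn]
  · rw [inner_iso (hF3 t s)]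
    exact (EuclideanSpace.orthonormal_single (𝕜 := ℝ) (ι := Fin 2)).2 (by decide : (0 : Fin 2) ≠ 1)
  · show ia21_U u a (t, Real.smoothTransition 0) = ia21_U u a (0, Real.smoothTransition 0)
    rw [Real.smoothTransition.zero, ia21_U0 ha, ia21_U0 ha]
  · show F t 0 _ = F 0 0 _
    rw [hF4, hF4]
  · show F t 0 _ = F 0 0 _
    rw [hF4, hF4]
  · show F (t + 1) s _ = F t s _
    rw [hF5 _ _ (hQc _ _ (hp t))]
  · show F (t + 1) s _ = F t s _
    rw [hF5 _ _ (hQc _ _ (hp t))]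

end Pool.Agent.Lib.MP_ccbbf6_gt.L5.IA
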