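import Pool.Agent.Lib.MP_ccbbf6_gt.Geo.Ifc
import Pool.Agent.Lib.MP_ccbbf6_gt.L5.IA07

/-!
# Level 5, block INTa, part 22: turning a periodic orthonormal frame of a plane (helper91)

Proof of `exists_turn`. `a 0, b 0` is an orthonormal basis of `S` (dimension `2`), so every `x ∈ S` is
`x = ⟪a 0, x⟫ • a 0 + ⟪b 0, x⟫ • b 0`. Let `p t = ⟪a 0, a t⟫`, `q t = ⟪b 0, a t⟫`, `p' t = ⟪a 0, b t⟫`, `q' t = ⟪b 0, b t⟫`: smooth, `1`-periodic,
`p² + q² = 1`, `p'² + q'² = 1`, `p p' + q q' = 0` (inner products of `a t`, `b t`). The function `δ = p q' - q p'` satisfies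
`δ² = (p² + q²)(p'² + q'²) - (p p' + q q')² = 1`, it is continuous and `δ 0 = 1` (`p 0 = 1, q 0 = 0, p' 0 = 0, q' 0 = 1`), so `δ = 1` (intermediate
value theorem). Then `q' = (p² + q²) q' = p (p q') + q (q q') = p (δ + q p') - q p p' = p`, similarly `p' = -q`.
By `exists_winding` (IA07) `p = cos χ`, `q = sin χ`, `χ (t + 1) = χ t + 2 π φ`. Put `ρ t = χ t - 2 π φ t`; it is `1`-periodic. So
`a t = cos χ • a 0 + sin χ • b 0`, `b t = - sin χ • a 0 + cos χ • b 0`, and the two formulas are the addition formulas for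
`χ - ρ = 2 π φ t`.
-/

set_option autoImplicit false

open Set Filter Topology Module
open scoped ContDiff RealInnerProductSpace

noncomputable section

namespace Pool.Agent.Lib.MP_ccbbf6_gt.L5.IA

open Geo

private theorem ia22_exp {N : ℕ} {S : Submodule ℝ (Eu N)} (hS : finrank ℝ S = 2) {u v x : Eu N} (hu : u ∈ S)
    (hv : v ∈ S) (hx : x ∈ S) (nu : ‖u‖ = 1) (nv : ‖v‖ = 1) (uv : ⟪u, v⟫ = 0) :
    x = ⟪u, x⟫ • u + ⟪v, x⟫ • v := by
  obtain ⟨w, hw⟩ : ∃ w : Fin 2 → S, w = ![⟨u, hu⟩, ⟨v, hv⟩] := ⟨_, rfl⟩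
  have w0 : w 0 = ⟨u, hu⟩ := by rw [hw]; rfl
  have w1 : w 1 = ⟨v, hv⟩ := by rw [hw]; rfl
  have vu : ⟪v, u⟫ = 0 := by rw [real_inner_comm]; exact uv
  have ho : Orthonormal ℝ w := by
    constructor
    · intro i
      fin_cases i
      · change ‖w 0‖ = 1
        rw [w0]; exact nu
      · change ‖w 1‖ = 1
        rw [w1]; exact nv
    · intro i j hij
      fin_cases i <;> fin_cases j
      · exact absurd rfl hij
      · change ⟪w 0, w 1⟫ = 0
        rw [w0, w1, Submodule.coe_inner]; exact uv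
      · change ⟪w 1, w 0⟫ = 0
        rw [w0, w1, Submodule.coe_inner]; exact vu
      · exact absurd rfl hij
  have hsp : ⊤ ≤ Submodule.span ℝ (Set.range w) := by
    rw [ho.linearIndependent.span_eq_top_of_card_eq_finrank' (by rw [hS]; simp)]
  have h1 := (OrthonormalBasis.mk ho hsp).sum_repr' ⟨x, hx⟩
  rw [Fin.sum_univ_two, OrthonormalBasis.coe_mk, w0, w1] at h1
  have h2 := congrArg (fun y : S => (y : Eu N)) h1
  simp only [Submodule.coe_add, Submodule.coe_smul, Submodule.coe_inner] at h2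
  exact h2.symm

private theorem ia22_inner {N : ℕ} {u v : Eu N} (nu : ‖u‖ = 1) (nv : ‖v‖ = 1) (uv : ⟪u, v⟫ = 0) (p q r s : ℝ) :
    ⟪p • u + q • v, r • u + s • v⟫ = p * r + q * s := by
  have vu : ⟪v, u⟫ = 0 := by rw [real_inner_comm]; exact uv
  have uu : ⟪u, u⟫ = 1 := by rw [real_inner_self_eq_norm_sq, nu]; norm_num
  have vv : ⟪v, v⟫ = 1 := by rw [real_inner_self_eq_norm_sq, nv]; norm_num
  simp only [inner_add_left, inner_add_right, inner_smul_left, inner_smul_right, uu, vv, uv, vu]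
  simp
  ring

private theorem ia22_one {d : ℝ → ℝ} (hd : Continuous d) (h2 : ∀ t, d t ^ 2 = 1) (h0 : d 0 = 1) (t : ℝ) : d t = 1 := by
  have hor : d t = 1 ∨ d t = -1 := by
    have h := h2 t
    have h' : (d t - 1) * (d t + 1) = 0 := by linear_combination h
    rcases mul_eq_zero.1 h' with h'' | h''
    · exact Or.inl (by linarith)
    · exact Or.inr (by linarith)
  rcases hor with h | h
  · exact h
  · exfalso
    have h3 := intermediate_value_uIcc (a := 0) (b := t) hd.continuousOn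
    have h4 : (0 : ℝ) ∈ uIcc (d 0) (d t) := by
      rw [h0, h, mem_uIcc]
      right
      constructor <;> norm_num
    obtain ⟨s, -, hs⟩ := h3 h4
    have h5 := h2 s
    rw [hs] at h5
    norm_num at h5

/-- turning a periodic orthonormal frame of a plane -/
theorem exists_turn {N : ℕ} {a b : ℝ → Eu N} (ha : ContDiff ℝ ∞ a) (hb : ContDiff ℝ ∞ b) (na : ∀ t, ‖a t‖ = 1)
    (nb : ∀ t, ‖b t‖ = 1) (ab : ∀ t, ⟪a t, b t⟫ = 0) (pa : ∀ t, a (t + 1) = a t) (pb : ∀ t, b (t + 1) = b t)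
    {S : Submodule ℝ (Eu N)} (hS : finrank ℝ S = 2) (hSa : ∀ t, a t ∈ S) (hSb : ∀ t, b t ∈ S) :
    ∃ (ρ : ℝ → ℝ) (φ : ℤ), ContDiff ℝ ∞ ρ ∧ (∀ t, ρ (t + 1) = ρ t) ∧ ∀ t,
      Real.cos (ρ t) • a t - Real.sin (ρ t) • b t =
        Real.cos (2 * Real.pi * φ * t) • a 0 + Real.sin (2 * Real.pi * φ * t) • b 0 ∧
      Real.sin (ρ t) • a t + Real.cos (ρ t) • b t =
        -Real.sin (2 * Real.pi * φ * t) • a 0 + Real.cos (2 * Real.pi * φ * t) • b 0 := by
  obtain ⟨p, hp⟩ : ∃ p : ℝ → ℝ, p = fun t => ⟪a 0, a t⟫ := ⟨_, rfl⟩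
  obtain ⟨q, hq⟩ : ∃ q : ℝ → ℝ, q = fun t => ⟪b 0, a t⟫ := ⟨_, rfl⟩
  obtain ⟨r, hr⟩ : ∃ r : ℝ → ℝ, r = fun t => ⟪a 0, b t⟫ := ⟨_, rfl⟩
  obtain ⟨s, hs⟩ : ∃ s : ℝ → ℝ, s = fun t => ⟪b 0, b t⟫ := ⟨_, rfl⟩
  have hpS : ContDiff ℝ ∞ p := by rw [hp]; exact contDiff_const.inner ℝ ha
  have hqS : ContDiff ℝ ∞ q := by rw [hq]; exact contDiff_const.inner ℝ ha
  have hrS : ContDiff ℝ ∞ r := by rw [hr]; exact contDiff_const.inner ℝ hb
  have hsS : ContDiff ℝ ∞ s := by rw [hs]; exact contDiff_const.inner ℝ hb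
  have hat : ∀ t, a t = p t • a 0 + q t • b 0 := by
    intro t
    rw [hp, hq]
    exact ia22_exp hS (hSa 0) (hSb 0) (hSa t) (na 0) (nb 0) (ab 0)
  have hbt : ∀ t, b t = r t • a 0 + s t • b 0 := by
    intro t
    rw [hr, hs]
    exact ia22_exp hS (hSa 0) (hSb 0) (hSb t) (na 0) (nb 0) (ab 0)
  have h1 : ∀ t, p t ^ 2 + q t ^ 2 = 1 := by
    intro t
    have e1 : ⟪a t, a t⟫ = 1 := by rw [real_inner_self_eq_norm_sq, na t]; norm_num
    rw [hat t, ia22_inner (na 0) (nb 0) (ab 0)] at e1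
    linear_combination e1
  have h2 : ∀ t, r t ^ 2 + s t ^ 2 = 1 := by
    intro t
    have e1 : ⟪b t, b t⟫ = 1 := by rw [real_inner_self_eq_norm_sq, nb t]; norm_num
    rw [hbt t, ia22_inner (na 0) (nb 0) (ab 0)] at e1
    linear_combination e1
  have h3 : ∀ t, p t * r t + q t * s t = 0 := by
    intro t
    have e1 := ab t
    rw [hat t, hbt t, ia22_inner (na 0) (nb 0) (ab 0)] at e1
    exact e1
  have p0 : p 0 = 1 := by
    rw [hp]
    change ⟪a 0, a 0⟫ = 1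
    rw [real_inner_self_eq_norm_sq, na 0]; norm_num
  have q0 : q 0 = 0 := by
    rw [hq]
    change ⟪b 0, a 0⟫ = 0
    rw [real_inner_comm]; exact ab 0
  have s0 : s 0 = 1 := by
    rw [hs]
    change ⟪b 0, b 0⟫ = 1
    rw [real_inner_self_eq_norm_sq, nb 0]; norm_num
  have hδ : ∀ t, p t * s t - q t * r t = 1 := by
    refine ia22_one ((hpS.continuous.mul hsS.continuous).sub (hqS.continuous.mul hrS.continuous)) ?_ ?_
    · intro t
      linear_combination (p t ^ 2 + q t ^ 2) * h2 t + h1 t - (p t * r t + q t * s t) * h3 t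
    · rw [p0, q0, s0]; ring
  have hsp : ∀ t, s t = p t := by
    intro t
    linear_combination p t * hδ t + q t * h3 t - s t * h1 t
  have hrq : ∀ t, r t = -q t := by
    intro t
    linear_combination -q t * hδ t + p t * h3 t - r t * h1 t
  have hpp : ∀ t, p (t + 1) = p t := by
    intro t
    rw [hp]
    change ⟪a 0, a (t + 1)⟫ = ⟪a 0, a t⟫
    rw [pa t]
  have hqp : ∀ t, q (t + 1) = q t := by
    intro t
    rw [hq]
    change ⟪b 0, a (t + 1)⟫ = ⟪b 0, a t⟫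
    rw [pa t]
  obtain ⟨χ, φ, hχS, hχ, hχp⟩ := exists_winding hpS hqS h1 hpp hqp p0 q0
  refine ⟨fun t => χ t - 2 * Real.pi * φ * t, φ, ?_, ?_, ?_⟩
  · exact hχS.sub (contDiff_const.mul contDiff_id)
  · intro t
    change χ (t + 1) - 2 * Real.pi * φ * (t + 1) = χ t - 2 * Real.pi * φ * t
    rw [hχp t]; ring
  · intro t
    obtain ⟨hc, hsn⟩ := hχ t
    have ea : a t = Real.cos (χ t) • a 0 + Real.sin (χ t) • b 0 := by
      rw [hat t, hc, hsn]
    have eb : b t = -Real.sin (χ t) • a 0 + Real.cos (χ t) • b 0 := by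
      rw [hbt t, hrq t, hsp t, hc, hsn]
    have e1 : 2 * Real.pi * φ * t = χ t - (χ t - 2 * Real.pi * φ * t) := by ring
    obtain ⟨ρ, hρ⟩ : ∃ ρ : ℝ, ρ = χ t - 2 * Real.pi * φ * t := ⟨_, rfl⟩
    change Real.cos (χ t - 2 * Real.pi * φ * t) • a t - Real.sin (χ t - 2 * Real.pi * φ * t) • b t =
        Real.cos (2 * Real.pi * φ * t) • a 0 + Real.sin (2 * Real.pi * φ * t) • b 0 ∧
      Real.sin (χ t - 2 * Real.pi * φ * t) • a t + Real.cos (χ t - 2 * Real.pi * φ * t) • b t =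
        -Real.sin (2 * Real.pi * φ * t) • a 0 + Real.cos (2 * Real.pi * φ * t) • b 0
    rw [← hρ] at e1 ⊢
    rw [e1, ea, eb, Real.cos_sub, Real.sin_sub]
    constructor
    · module
    · module

end Pool.Agent.Lib.MP_ccbbf6_gt.L5.IA
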