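import Pool.Agent.Lib.MP_ccbbf6_gt.L4.DPH
import Pool.Agent.Lib.MP_ccbbf6_gt.L5.IA03
import Pool.Agent.Lib.MP_ccbbf6_gt.L5.IA04
import Pool.Agent.Lib.MP_ccbbf6_gt.L5.IA10
import Pool.Agent.Lib.MP_ccbbf6_gt.L5.IA21
import Pool.Agent.Lib.MP_ccbbf6_gt.L5.IA22
import Pool.Agent.Lib.MP_ccbbf6_gt.L5.NK

/-!
# Level 5, block INTa, part 11: contractions with frames, the disc (helper91)
-/

set_option autoImplicit false
set_option linter.unusedSectionVars false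

open Set Filter Topology Metric Real Module
open scoped ContDiff RealInnerProductSpace

noncomputable section

namespace Pool.Agent.Lib.MP_ccbbf6_gt.L5.IA

open Geo L4 L4.ORI L4.FR NEG

variable {n : ℕ} {M : Type} [MetricSpace M] [CompactSpace M] {𝒜 : SDist n M} {N : ℕ} {C : Eu N → Gs M → M}
  {P : Gs M → Eu N →L[ℝ] Eu N} {hB : Bl M}

/-- the smooth step -/
abbrev stp (s : ℝ) : ℝ := Real.smoothTransition s

theorem stp_mem (s : ℝ) : stp s ∈ Icc (0 : ℝ) 1 := ⟨Real.smoothTransition.nonneg s, Real.smoothTransition.le_one s⟩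

theorem stp_zero : stp 0 = 0 := Real.smoothTransition.zero

theorem stp_one : stp 1 = 1 := Real.smoothTransition.one

theorem contDiff_stp : ContDiff ℝ ∞ stp := Real.smoothTransition.contDiff

/-- a contraction with a frame -/
structure CF (𝒜 : SDist n M) (P : Gs M → Eu N →L[ℝ] Eu N) (h : V 3 → Gs M) where
  H : V 3 → ℝ → Gs M
  F : V 3 → ℝ → (Eu 3 →L[ℝ] Eu N)
  c : Gs M
  L : Eu 3 →L[ℝ] Eu N
  smH : ∀ y, ∀ r ∈ Icc (0 : ℝ) 1, SmGAt 𝒜 (fun z : V 3 × ℝ => H z.1 z.2) (y, r)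
  H1 : ∀ y, H y 1 = h y
  H0 : ∀ y, H y 0 = c
  smF : ContDiff ℝ ∞ (fun z : V 3 × ℝ => F z.1 z.2)
  PF : ∀ y s v, P (H y (stp s)) (F y s v) = F y s v
  nF : ∀ y s v, ‖F y s v‖ = ‖v‖
  F0 : ∀ y, F y 0 = L
  nL : ∀ v, ‖L v‖ = ‖v‖
  PL : ∀ v, P c (L v) = L v
  fun_h : ∀ y y', h y = h y' → H y = H y' ∧ F y = F y'

theorem exists_CF (hk : 𝒜.HK 3) (hn : 4 < n) (hN : NegData 𝒜 3 hB C P) {h : V 3 → Gs M} (hh : SmG 𝒜 h)
    {K : Set (V 3)} (hK : IsCompact K) (hhK : ∀ y, ∃ y' ∈ K, h y = h y') : Nonempty (CF 𝒜 P h) := by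
  obtain ⟨H, hH, hH1, hH0, hHf⟩ := exists_contr hB hk le_rfl hn hh
  obtain ⟨L, hL, hPL⟩ := exists_iso (hN.idem (H 0 0)) (hN.rank (H 0 0))
  have hQ : ∀ y, ∀ s ∈ Icc (0 : ℝ) 1, ContDiffAt ℝ ∞ (fun z : V 3 × ℝ => P (H z.1 z.2)) (y, s) := fun y s hs =>
    hN.smooth (hH y s hs)
  obtain ⟨F, hF, hF1, hF2, hF3, hF4⟩ := exists_on_frame (Q := fun y s => P (H y s)) hQ (fun y s _ x => hN.idem _ x) hK
    (fun y => by
      obtain ⟨y', hy', he⟩ := hhK y
      refine ⟨y', hy', ?_⟩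
      beta_reduce
      rw [hHf y y' he]) hL (fun y v => by
      beta_reduce
      rw [hH0 y 0]
      exact hPL v)
  exact ⟨⟨H, F, H 0 0, L, hH, hH1, fun y => hH0 y 0, hF, hF1, hF2, fun y => by
      ext1 v
      exact hF3 y v, hL, hPL, fun y y' he => ⟨hHf y y' he, hF4 y y' (by
      beta_reduce
      rw [hHf y y' he])⟩⟩⟩

/-- vectors of `Eu N` as tuples -/
theorem sum_inner (x y : Eu N) : ∑ i, x i * y i = ⟪x, y⟫ := by
  rw [PiLp.inner_apply]
  exact Finset.sum_congr rfl fun i _ => mul_comm _ _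

theorem per_fract {Y : Type*} {f : ℝ → Y} (hf : ∀ t, f (t + 1) = f t) (t : ℝ) : f t = f (Int.fract t) := by
  have h1 : Function.Periodic f 1 := hf
  have h2 := h1.sub_zsmul_eq (x := t) ⌊t⌋
  rw [zsmul_one] at h2
  exact h2.symm

/-- the clamp -/
def cl (y : V 2) : V 2 := ![(projIcc (0 : ℝ) 1 zero_le_one (y 0) : ℝ), Int.fract (y 1)]

/-- `t ↦ (0, t, 0)` -/
def lt (t : ℝ) : V 3 := ![0, t, 0]

theorem contDiff_lt : ContDiff ℝ ∞ lt := by
  rw [contDiff_pi]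
  intro j
  fin_cases j
  · exact contDiff_const
  · exact contDiff_id
  · exact contDiff_const

/-- **the disc** -/
theorem exists_disc (hk : 𝒜.HK 3) (hn : 4 < n) (hN : NegData 𝒜 3 hB C P) (x₀ : (spN 𝒜 P).pt) :
    ∃ (D : (spN 𝒜 P).Plot 2) (φ : ℤ) (a b : FR.Sm 2 N), Dsc (circN hB hN) D x₀ ∧ DFr φ a b ∧
      (∀ y, P (D.1 y).1.1 (WithLp.toLp 2 ((a : V 2 → V N) y)) = WithLp.toLp 2 ((a : V 2 → V N) y)) ∧
      (∀ y, P (D.1 y).1.1 (WithLp.toLp 2 ((b : V 2 → V N) y)) = WithLp.toLp 2 ((b : V 2 → V N) y)) ∧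
      (∀ y, ⟪(D.1 y).1.2, WithLp.toLp 2 ((a : V 2 → V N) y)⟫ = 0) ∧
      (∀ y, ⟪(D.1 y).1.2, WithLp.toLp 2 ((b : V 2 → V N) y)⟫ = 0) ∧ ∀ y, D.1 y = D.1 (cl y) := by
  obtain ⟨c₀, hc₀⟩ : ∃ c₀, c₀ = x₀.1.1 := ⟨_, rfl⟩
  obtain ⟨ξ₀, hξ₀⟩ : ∃ ξ₀, ξ₀ = x₀.1.2 := ⟨_, rfl⟩
  have hPξ : P c₀ ξ₀ = ξ₀ := by rw [hc₀, hξ₀]; exact x₀.2.1
  have hnξ : ‖ξ₀‖ = 1 := by rw [hξ₀]; exact x₀.2.2
  obtain ⟨h, hh⟩ : ∃ h : V 3 → Gs M, h = fun y => shift (2 * π * y 1) c₀ := ⟨_, rfl⟩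
  have hsm : SmG 𝒜 h := by
    rw [hh]
    exact SmG.shift hB (smG_const c₀) (contDiff_const.mul (contDiff_apply ℝ ℝ 1))
  have hper : ∀ t, h (lt (t + 1)) = h (lt t) := by
    intro t
    rw [hh]
    change shift (2 * π * (t + 1)) c₀ = shift (2 * π * t) c₀
    rw [mul_add, mul_one, shift_period 𝒜 hB]
  have hy1 : ∀ y : V 3, h y = h (lt (y 1)) := by
    intro y
    rw [hh]
    rfl
  obtain ⟨S⟩ := exists_CF hk hn hN hsm (K := Icc 0 1) isCompact_Icc (fun y => ⟨lt (Int.fract (y 1)), by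
    refine ⟨fun i => ?_, fun i => ?_⟩
    · fin_cases i
      · exact le_rfl
      · exact Int.fract_nonneg _
      · exact le_rfl
    · fin_cases i
      · exact zero_le_one
      · exact (Int.fract_lt_one _).le
      · exact zero_le_one, by
    rw [hy1]
    exact per_fract (f := fun t => h (lt t)) hper (y 1)⟩)
  have hSper : ∀ t, S.H (lt (t + 1)) = S.H (lt t) ∧ S.F (lt (t + 1)) = S.F (lt t) := fun t => S.fun_h _ _ (hper t)
  -- the loop
  obtain ⟨u, hu⟩ : ∃ u : ℝ → Eu 3, u = fun t => adj (S.F (lt t) 1) ξ₀ := ⟨_, rfl⟩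
  have hP1 : ∀ t, P (S.H (lt t) (stp 1)) = P c₀ := by
    intro t
    rw [stp_one, S.H1, hh]
    exact hN.inv _ _
  have hFu : ∀ t, S.F (lt t) 1 (u t) = ξ₀ := by
    intro t
    rw [hu]
    refine L_adj (S.nF _ _) (S.PF (lt t) 1) ?_ ?_
    · rw [hP1]
      exact hN.rank c₀
    · rw [hP1]
      exact hPξ
  have smFt : ContDiff ℝ ∞ (fun z : ℝ × ℝ => S.F (lt z.1) z.2) :=
    S.smF.comp ((contDiff_lt.comp contDiff_fst).prodMk contDiff_snd)
  have husm : ContDiff ℝ ∞ u := by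
    rw [hu, contDiff_iff_contDiffAt]
    intro t
    refine contDiffAt_adj ?_ contDiffAt_const
    exact (smFt.comp (contDiff_id.prodMk contDiff_const)).contDiffAt
  have hun : ∀ t, ‖u t‖ = 1 := by
    intro t
    rw [← S.nF (lt t) 1, hFu, hnξ]
  have hup : ∀ t, u (t + 1) = u t := by
    intro t
    rw [hu]
    beta_reduce
    rw [(hSper t).2]
  obtain ⟨U, A, B, hU, hA, hB', hU1, hon, h00, hUp⟩ := exists_loop_frame husm hun hup
  -- the frame over the orbit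
  obtain ⟨a₁, ha₁⟩ : ∃ a₁ : ℝ → Eu N, a₁ = fun t => S.F (lt t) 1 (A t 1) := ⟨_, rfl⟩
  obtain ⟨b₁, hb₁⟩ : ∃ b₁ : ℝ → Eu N, b₁ = fun t => S.F (lt t) 1 (B t 1) := ⟨_, rfl⟩
  have smE : ∀ G : ℝ → ℝ → Eu 3, ContDiff ℝ ∞ (fun z : ℝ × ℝ => G z.1 z.2) →
      ContDiff ℝ ∞ (fun z : ℝ × ℝ => S.F (lt z.1) z.2 (G z.1 z.2)) := fun G hG => smFt.clm_apply hG
  have ha₁s : ContDiff ℝ ∞ a₁ := by
    rw [ha₁]
    exact (smE A hA).comp (contDiff_id.prodMk contDiff_const)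
  have hb₁s : ContDiff ℝ ∞ b₁ := by
    rw [hb₁]
    exact (smE B hB').comp (contDiff_id.prodMk contDiff_const)
  have hFi : ∀ t s (v w : Eu 3), ⟪S.F (lt t) s v, S.F (lt t) s w⟫ = ⟪v, w⟫ := fun t s => inner_iso (S.nF _ _)
  have hrange : finrank ℝ ((LinearMap.range (P c₀ : Eu N →ₗ[ℝ] Eu N)) : Submodule ℝ (Eu N)) = 3 := hN.rank c₀
  obtain ⟨T, hT⟩ : ∃ T : Submodule ℝ (Eu N), T = (ℝ ∙ ξ₀)ᗮ ⊓ LinearMap.range (P c₀ : Eu N →ₗ[ℝ] Eu N) := ⟨_, rfl⟩
  have hTm : ∀ x, x ∈ T ↔ ⟪ξ₀, x⟫ = 0 ∧ P c₀ x = x := by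
    intro x
    rw [hT, Submodule.mem_inf, Submodule.mem_orthogonal_singleton_iff_inner_right]
    refine and_congr_right fun _ => ⟨?_, fun hx => ⟨x, hx⟩⟩
    rintro ⟨y, rfl⟩
    exact hN.idem c₀ y
  have hT2 : finrank ℝ T = 2 := by
    have h1 : (ℝ ∙ ξ₀) ≤ LinearMap.range (P c₀ : Eu N →ₗ[ℝ] Eu N) := by
      rw [Submodule.span_singleton_le_iff_mem]
      exact ⟨ξ₀, hPξ⟩
    have h2 := Submodule.finrank_add_inf_finrank_orthogonal h1
    rw [← hT, hrange, finrank_span_singleton (by rw [← norm_ne_zero_iff, hnξ]; exact one_ne_zero)] at h2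
    omega
  have hmemT : ∀ t v, ⟪u t, v⟫ = 0 → S.F (lt t) 1 v ∈ T := by
    intro t v hv
    rw [hTm]
    refine ⟨?_, ?_⟩
    · rw [← hFu t, hFi]
      exact hv
    · have h1 := S.PF (lt t) 1 v
      rwa [hP1] at h1
  obtain ⟨ρ, φ, hρ, hρp, hturn⟩ := exists_turn ha₁s hb₁s (fun t => by rw [ha₁]; exact (S.nF _ _ _).trans (hon t 1).2.1)
    (fun t => by rw [hb₁]; exact (S.nF _ _ _).trans (hon t 1).2.2.1)
    (fun t => by
      rw [ha₁, hb₁]
      exact (hFi t 1 _ _).trans (hon t 1).2.2.2.2.2)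
    (fun t => by
      rw [ha₁]
      beta_reduce
      rw [(hSper t).2, (hUp t 1).2.1])
    (fun t => by
      rw [hb₁]
      beta_reduce
      rw [(hSper t).2, (hUp t 1).2.2]) hT2
    (fun t => by
      rw [ha₁]
      refine hmemT t _ ?_
      rw [← hU1]
      exact (hon t 1).2.2.2.1)
    (fun t => by
      rw [hb₁]
      refine hmemT t _ ?_
      rw [← hU1]
      exact (hon t 1).2.2.2.2.1)
  -- everything as functions of `(t, s)`
  obtain ⟨g, hg⟩ : ∃ g : ℝ → ℝ → Gs M, g = fun t s => S.H (lt t) (stp s) := ⟨_, rfl⟩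
  obtain ⟨ξ, hξ⟩ : ∃ ξ : ℝ → ℝ → Eu N, ξ = fun t s => S.F (lt t) s (U t s) := ⟨_, rfl⟩
  obtain ⟨a, ha⟩ : ∃ a : ℝ → ℝ → Eu N, a = fun t s => S.F (lt t) s (Real.cos (stp s * ρ t) • A t s - Real.sin (stp s * ρ t) • B t s) :=
    ⟨_, rfl⟩
  obtain ⟨b, hb⟩ : ∃ b : ℝ → ℝ → Eu N, b = fun t s => S.F (lt t) s (Real.sin (stp s * ρ t) • A t s + Real.cos (stp s * ρ t) • B t s) :=
    ⟨_, rfl⟩
  have smst : ContDiff ℝ ∞ (fun y : V 2 => ((y 1, 1 - stp (y 0)) : ℝ × ℝ)) :=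
    (contDiff_apply ℝ ℝ 1).prodMk (contDiff_const.sub (contDiff_stp.comp (contDiff_apply ℝ ℝ 0)))
  have smρ : ContDiff ℝ ∞ (fun z : ℝ × ℝ => stp z.2 * ρ z.1) := (contDiff_stp.comp contDiff_snd).mul (hρ.comp contDiff_fst)
  have smg : ∀ t s, SmGAt 𝒜 (fun z : ℝ × ℝ => g z.1 z.2) (t, s) := by
    intro t s
    rw [hg]
    exact SmGAt.comp (f := fun z : ℝ × ℝ => (lt z.1, stp z.2)) (v := (t, s)) (S.smH (lt t) (stp s) (stp_mem s))
      ((contDiff_lt.comp contDiff_fst).prodMk (contDiff_stp.comp contDiff_snd)).contDiffAt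
  have smξ : ContDiff ℝ ∞ (fun z : ℝ × ℝ => ξ z.1 z.2) := by
    rw [hξ]
    exact smE U hU
  have sma : ContDiff ℝ ∞ (fun z : ℝ × ℝ => a z.1 z.2) := by
    rw [ha]
    exact smE (fun t s => Real.cos (stp s * ρ t) • A t s - Real.sin (stp s * ρ t) • B t s)
      (((Real.contDiff_cos.comp smρ).smul hA).sub ((Real.contDiff_sin.comp smρ).smul hB'))
  have smb : ContDiff ℝ ∞ (fun z : ℝ × ℝ => b z.1 z.2) := by
    rw [hb]
    exact smE (fun t s => Real.sin (stp s * ρ t) • A t s + Real.cos (stp s * ρ t) • B t s)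
      (((Real.contDiff_sin.comp smρ).smul hA).add ((Real.contDiff_cos.comp smρ).smul hB'))
  have perg : ∀ t s, g (t + 1) s = g t s := by
    intro t s
    rw [hg]
    beta_reduce
    rw [(hSper t).1]
  have perξ : ∀ t s, ξ (t + 1) s = ξ t s := by
    intro t s
    rw [hξ]
    beta_reduce
    rw [(hSper t).2, (hUp t s).1]
  have pera : ∀ t s, a (t + 1) s = a t s := by
    intro t s
    rw [ha]
    beta_reduce
    rw [(hSper t).2, (hUp t s).2.1, (hUp t s).2.2, hρp]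
  have perb : ∀ t s, b (t + 1) s = b t s := by
    intro t s
    rw [hb]
    beta_reduce
    rw [(hSper t).2, (hUp t s).2.1, (hUp t s).2.2, hρp]
  have hPx : ∀ t s v, P (g t s) (S.F (lt t) s v) = S.F (lt t) s v := by
    intro t s v
    rw [hg]
    exact S.PF (lt t) s v
  have hmem : ∀ t s, InP P (g t s) (ξ t s) ∧ ‖ξ t s‖ = 1 := by
    intro t s
    rw [hξ]
    exact ⟨hPx t s _, (S.nF _ _ _).trans (hon t s).1⟩
  have hcs : ∀ r : ℝ, Real.cos r * Real.cos r + Real.sin r * Real.sin r = 1 := fun r => by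
    have := Real.cos_sq_add_sin_sq r
    nlinarith
  have hAA : ∀ t s, ⟪A t s, A t s⟫ = 1 := fun t s => by rw [real_inner_self_eq_norm_sq, (hon t s).2.1, one_pow]
  have hBB : ∀ t s, ⟪B t s, B t s⟫ = 1 := fun t s => by rw [real_inner_self_eq_norm_sq, (hon t s).2.2.1, one_pow]
  have hAB : ∀ t s, ⟪A t s, B t s⟫ = 0 := fun t s => (hon t s).2.2.2.2.2
  have hBA : ∀ t s, ⟪B t s, A t s⟫ = 0 := fun t s => by rw [real_inner_comm]; exact hAB t s
  have iaa : ∀ t s, ⟪a t s, a t s⟫ = 1 := by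
    intro t s
    rw [ha]
    beta_reduce
    rw [hFi]
    simp only [inner_sub_left, inner_sub_right, real_inner_smul_left, real_inner_smul_right, hAA, hBB, hAB, hBA]
    have := hcs (stp s * ρ t)
    linarith
  have ibb : ∀ t s, ⟪b t s, b t s⟫ = 1 := by
    intro t s
    rw [hb]
    beta_reduce
    rw [hFi]
    simp only [inner_add_left, inner_add_right, real_inner_smul_left, real_inner_smul_right, hAA, hBB, hAB, hBA]
    have := hcs (stp s * ρ t)
    linarith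
  have iab : ∀ t s, ⟪a t s, b t s⟫ = 0 := by
    intro t s
    rw [ha, hb]
    beta_reduce
    rw [hFi]
    simp only [inner_add_right, inner_sub_left, real_inner_smul_left, real_inner_smul_right, hAA, hBB, hAB, hBA]
    ring
  have iξa : ∀ t s, ⟪ξ t s, a t s⟫ = 0 := by
    intro t s
    rw [ha, hξ]
    beta_reduce
    rw [hFi]
    simp only [inner_sub_right, real_inner_smul_right, (hon t s).2.2.2.1, (hon t s).2.2.2.2.1]
    ring
  have iξb : ∀ t s, ⟪ξ t s, b t s⟫ = 0 := by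
    intro t s
    rw [hb, hξ]
    beta_reduce
    rw [hFi]
    simp only [inner_add_right, real_inner_smul_right, (hon t s).2.2.2.1, (hon t s).2.2.2.2.1]
    ring
  -- the ends
  have g1 : ∀ t, g t 1 = shift (2 * π * t) c₀ := by
    intro t
    rw [hg]
    beta_reduce
    rw [stp_one, S.H1, hh]
    rfl
  have ξ1 : ∀ t, ξ t 1 = ξ₀ := by
    intro t
    rw [hξ]
    beta_reduce
    rw [hU1, hFu]
  have g0 : ∀ t, g t 0 = g 0 0 := by
    intro t
    rw [hg]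
    beta_reduce
    rw [stp_zero, S.H0, S.H0]
  have ξ0 : ∀ t, ξ t 0 = ξ 0 0 := by
    intro t
    rw [hξ]
    beta_reduce
    rw [S.F0, S.F0, (h00 t).1]
  have a0 : ∀ t, a t 0 = a 0 0 := by
    intro t
    rw [ha]
    beta_reduce
    rw [S.F0, S.F0, (h00 t).2.1, (h00 t).2.2, stp_zero, zero_mul, zero_mul]
  have b0 : ∀ t, b t 0 = b 0 0 := by
    intro t
    rw [hb]
    beta_reduce
    rw [S.F0, S.F0, (h00 t).2.1, (h00 t).2.2, stp_zero, zero_mul, zero_mul]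
  have a1 : ∀ t, a t 1 = Real.cos (2 * π * φ * t) • a₁ 0 + Real.sin (2 * π * φ * t) • b₁ 0 := by
    intro t
    rw [← (hturn t).1, ha, ha₁, hb₁]
    beta_reduce
    rw [stp_one, one_mul, map_sub, map_smul, map_smul]
  have b1 : ∀ t, b t 1 = -Real.sin (2 * π * φ * t) • a₁ 0 + Real.cos (2 * π * φ * t) • b₁ 0 := by
    intro t
    rw [← (hturn t).2, hb, ha₁, hb₁]
    beta_reduce
    rw [stp_one, one_mul, map_add, map_smul, map_smul]
  -- the plots
  let D : (spN 𝒜 P).Plot 2 := ⟨fun y => ⟨(g (y 1) (1 - stp (y 0)), ξ (y 1) (1 - stp (y 0))), hmem _ _⟩, by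
    refine ⟨?_, smξ.comp smst⟩
    refine ⟨fun u => ?_, fun u => ?_⟩
    · exact (SmGAt.comp (f := fun y : V 2 => ((y 1, 1 - stp (y 0)) : ℝ × ℝ)) (v := u) (smg _ _) smst.contDiffAt).1
    · exact (SmGAt.comp (f := fun y : V 2 => ((y 1, 1 - stp (y 0)) : ℝ × ℝ)) (v := u) (smg _ _) smst.contDiffAt).2⟩
  let a2 : FR.Sm 2 N := ⟨fun y => WithLp.ofLp (a (y 1) (1 - stp (y 0))), by
    rw [contDiff_pi]
    intro i
    exact contDiff_euclidean.1 (sma.comp smst) i⟩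
  let b2 : FR.Sm 2 N := ⟨fun y => WithLp.ofLp (b (y 1) (1 - stp (y 0))), by
    rw [contDiff_pi]
    intro i
    exact contDiff_euclidean.1 (smb.comp smst) i⟩
  have hDx : ∀ (y y' : V 2), g (y 1) (1 - stp (y 0)) = g (y' 1) (1 - stp (y' 0)) → ξ (y 1) (1 - stp (y 0)) = ξ (y' 1) (1 - stp (y' 0)) →
      D.1 y = D.1 y' := fun y y' e1 e2 => Subtype.ext (Prod.ext e1 e2)
  refine ⟨D, φ, a2, b2, ⟨?_, ?_, ?_⟩, ⟨?_, ?_, ?_, ?_, ?_, ?_, ?_, ?_⟩, ?_, ?_, ?_, ?_, ?_⟩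
  · intro y
    have e1 : (y + Pi.single 1 1 : V 2) 1 = y 1 + 1 := by simp
    have e0 : (y + Pi.single 1 1 : V 2) 0 = y 0 := by simp
    refine hDx _ _ ?_ ?_
    · rw [e0, e1, perg]
    · rw [e0, e1, perξ]
  · intro y
    refine Subtype.ext (Prod.ext ?_ ?_)
    · change g (Function.update y 0 0 1) (1 - stp (Function.update y 0 0 0)) = shift (2 * π * y 1) x₀.1.1
      rw [Function.update_self, Function.update_of_ne (by decide), stp_zero, sub_zero, g1, hc₀]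
    · change ξ (Function.update y 0 0 1) (1 - stp (Function.update y 0 0 0)) = x₀.1.2
      rw [Function.update_self, Function.update_of_ne (by decide), stp_zero, sub_zero, ξ1, hξ₀]
  · intro y
    refine hDx _ _ ?_ ?_
    · rw [Function.update_self, Function.update_of_ne (by decide)]
      change g (y 1) (1 - stp 1) = g 0 (1 - stp 1)
      rw [stp_one, sub_self, g0]
    · rw [Function.update_self, Function.update_of_ne (by decide)]
      change ξ (y 1) (1 - stp 1) = ξ 0 (1 - stp 1)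
      rw [stp_one, sub_self, ξ0]
  · intro y
    have e1 : (y + Pi.single 1 1 : V 2) 1 = y 1 + 1 := by simp
    have e0 : (y + Pi.single 1 1 : V 2) 0 = y 0 := by simp
    change WithLp.ofLp (a ((y + Pi.single 1 1 : V 2) 1) (1 - stp ((y + Pi.single 1 1 : V 2) 0))) = WithLp.ofLp (a (y 1) (1 - stp (y 0)))
    rw [e0, e1, pera]
  · intro y
    have e1 : (y + Pi.single 1 1 : V 2) 1 = y 1 + 1 := by simp
    have e0 : (y + Pi.single 1 1 : V 2) 0 = y 0 := by simp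
    change WithLp.ofLp (b ((y + Pi.single 1 1 : V 2) 1) (1 - stp ((y + Pi.single 1 1 : V 2) 0))) = WithLp.ofLp (b (y 1) (1 - stp (y 0)))
    rw [e0, e1, perb]
  · intro y
    change WithLp.ofLp (a (Function.update y 0 1 1) (1 - stp (Function.update y 0 1 0))) = WithLp.ofLp (a 0 (1 - stp 1))
    rw [Function.update_self, Function.update_of_ne (by decide), stp_one, sub_self, a0]
  · intro y
    change WithLp.ofLp (b (Function.update y 0 1 1) (1 - stp (Function.update y 0 1 0))) = WithLp.ofLp (b 0 (1 - stp 1))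
    rw [Function.update_self, Function.update_of_ne (by decide), stp_one, sub_self, b0]
  · intro y
    exact (sum_inner _ _).trans (iaa _ _)
  · intro y
    exact (sum_inner _ _).trans (ibb _ _)
  · intro y
    exact (sum_inner _ _).trans (iab _ _)
  · refine ⟨WithLp.ofLp (a₁ 0), WithLp.ofLp (b₁ 0), fun y => ⟨?_, ?_⟩⟩
    · change WithLp.ofLp (a (Function.update y 0 0 1) (1 - stp (Function.update y 0 0 0))) = _
      rw [Function.update_self, Function.update_of_ne (by decide), stp_zero, sub_zero, a1]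
      rfl
    · change WithLp.ofLp (b (Function.update y 0 0 1) (1 - stp (Function.update y 0 0 0))) = _
      rw [Function.update_self, Function.update_of_ne (by decide), stp_zero, sub_zero, b1]
      rfl
  · intro y
    change P (g (y 1) (1 - stp (y 0))) (a (y 1) (1 - stp (y 0))) = a (y 1) (1 - stp (y 0))
    rw [ha]
    exact hPx _ _ _
  · intro y
    change P (g (y 1) (1 - stp (y 0))) (b (y 1) (1 - stp (y 0))) = b (y 1) (1 - stp (y 0))
    rw [hb]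
    exact hPx _ _ _
  · exact fun y => iξa _ _
  · exact fun y => iξb _ _
  · intro y
    have e0 : stp (cl y 0) = stp (y 0) := by
      change stp (projIcc (0 : ℝ) 1 zero_le_one (y 0) : ℝ) = stp (y 0)
      exact Real.smoothTransition.projIcc
    have e1 : cl y 1 = Int.fract (y 1) := rfl
    refine hDx _ _ ?_ ?_
    · rw [e0, e1]
      exact per_fract (f := fun t => g t (1 - stp (y 0))) (fun t => perg t _) (y 1)
    · rw [e0, e1]
      exact per_fract (f := fun t => ξ t (1 - stp (y 0))) (fun t => perξ t _) (y 1)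

end Pool.Agent.Lib.MP_ccbbf6_gt.L5.IA
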