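import Pool.Agent.Lib.MP_ccbbf6_gt.L5.IA11

/-!
# Level 5, block INTa, part 12: the homotopy of the equivariant sphere (helper91)
-/

set_option autoImplicit false
set_option linter.unusedSectionVars false

open Set Filter Topology Metric Real Module
open scoped ContDiff RealInnerProductSpace

noncomputable section

namespace Pool.Agent.Lib.MP_ccbbf6_gt.L5.IA

open Geo L4 L4.ORI L4.FR NEG

theorem Sph.of_eq {Y Z : Type*} {g : V 3 → Y} {f : V 3 → Z} (hg : Sph g) (hf : ∀ y y', g y = g y' → f y = f y') : Sph f :=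
  ⟨fun y => hf _ _ (hg.1 y), fun y => hf _ _ (hg.2.1 y), fun y => hf _ _ (hg.2.2.1 y), fun y => hf _ _ (hg.2.2.2 y)⟩

/-- connection forms and isometric maps -/
theorem mu_iso {k r N : ℕ} {a b : FR.Sm k r} {a' b' : FR.Sm k N} {L : Eu r →L[ℝ] Eu N} (hL : ∀ v, ‖L v‖ = ‖v‖)
    (ha : ∀ y, (a' : V k → V N) y = WithLp.ofLp (L (WithLp.toLp 2 ((a : V k → V r) y))))
    (hb : ∀ y, (b' : V k → V N) y = WithLp.ofLp (L (WithLp.toLp 2 ((b : V k → V r) y)))) : mu a' b' = mu a b := by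
  let Φ : V r →L[ℝ] V N := ((EuclideanSpace.equiv (Fin N) ℝ : Eu N →L[ℝ] V N).comp L).comp
    ((EuclideanSpace.equiv (Fin r) ℝ).symm : V r →L[ℝ] Eu r)
  have hΦ : ∀ v, Φ v = WithLp.ofLp (L (WithLp.toLp 2 v)) := fun v => rfl
  have hin : ∀ v w : V r, ∑ i, Φ v i * Φ w i = ∑ i, v i * w i := by
    intro v w
    have h1 := inner_iso hL (WithLp.toLp 2 v) (WithLp.toLp 2 w)
    rw [← sum_inner, ← sum_inner] at h1
    exact h1
  refine mu_eq (L := fun x v => (2 * π)⁻¹ * ∑ i, (a : V k → V r) x i * fderiv ℝ (b : V k → V r) x v i) (ev_mu a b)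
    (fun x v => ?_)
  congr 1
  have h2 : fderiv ℝ (b' : V k → V N) x = Φ.comp (fderiv ℝ (b : V k → V r) x) := by
    have h3 : (b' : V k → V N) = fun y => Φ ((b : V k → V r) y) := funext fun y => hb y
    rw [h3]
    exact (Φ.hasFDerivAt.comp x (b.diff x).hasFDerivAt).fderiv
  rw [h2, ha x]
  exact hin _ _

variable {n : ℕ} {M : Type} [MetricSpace M] [CompactSpace M] {𝒜 : SDist n M} {N : ℕ} {C : Eu N → Gs M → M}
  {P : Gs M → Eu N →L[ℝ] Eu N} {hB : Bl M}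

/-- **the homotopy** -/
theorem exists_hom (hk : 𝒜.HK 3) (hn : 4 < n) (hN : NegData 𝒜 3 hB C P) {x₀ : (spN 𝒜 P).pt} {D : (spN 𝒜 P).Plot 2} {φ : ℤ}
    {a b : FR.Sm 2 N} (hD : Dsc (circN hB hN) D x₀) (hF : DFr φ a b)
    (pa : ∀ y, P (D.1 y).1.1 (WithLp.toLp 2 ((a : V 2 → V N) y)) = WithLp.toLp 2 ((a : V 2 → V N) y))
    (pb : ∀ y, P (D.1 y).1.1 (WithLp.toLp 2 ((b : V 2 → V N) y)) = WithLp.toLp 2 ((b : V 2 → V N) y))
    (xa : ∀ y, ⟪(D.1 y).1.2, WithLp.toLp 2 ((a : V 2 → V N) y)⟫ = 0)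
    (xb : ∀ y, ⟪(D.1 y).1.2, WithLp.toLp 2 ((b : V 2 → V N) y)⟫ = 0) (hcl : ∀ y, D.1 y = D.1 (cl y)) :
    ∃ (G : (spN 𝒜 P).Plot 4) (j : SMap (spS 3) (spN 𝒜 P)) (w : (spS 3).Plot 3) (a4 b4 : FR.Sm 4 N) (R1 R2 : FR.Sm 3 3),
      Sph4 G.1 ∧ G.cmp (sl 3 1) = eqp (circN hB hN) D ∧ G.cmp (sl 3 0) = j.pl w ∧
      Sph4 (a4 : V 4 → V N) ∧ Sph4 (b4 : V 4 → V N) ∧ a4.comp (sl 3 1) = rA φ a b ∧ b4.comp (sl 3 1) = rB φ a b ∧
      CS (a4.comp (sl 3 0)) (b4.comp (sl 3 0)) = CS R1 R2 ∧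
      ((∀ y, ∑ i, (R1 : V 3 → V 3) y i * (R1 : V 3 → V 3) y i = 1) ∧ (∀ y, ∑ i, (R2 : V 3 → V 3) y i * (R2 : V 3 → V 3) y i = 1) ∧
        ∀ y, ∑ i, (R1 : V 3 → V 3) y i * (R2 : V 3 → V 3) y i = 0) ∧
      Sph (fun y => ((R1 : V 3 → V 3) y, (R2 : V 3 → V 3) y)) ∧
      (∀ x, P (G.1 x).1.1 (WithLp.toLp 2 ((a4 : V 4 → V N) x)) = WithLp.toLp 2 ((a4 : V 4 → V N) x)) ∧
      (∀ x, P (G.1 x).1.1 (WithLp.toLp 2 ((b4 : V 4 → V N) x)) = WithLp.toLp 2 ((b4 : V 4 → V N) x)) ∧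
      (∀ x, ∑ i, (a4 : V 4 → V N) x i * (a4 : V 4 → V N) x i = 1) ∧
      (∀ x, ∑ i, (b4 : V 4 → V N) x i * (b4 : V 4 → V N) x i = 1) ∧
      (∀ x, ∑ i, (a4 : V 4 → V N) x i * (b4 : V 4 → V N) x i = 0) ∧
      (∀ x, ∑ i, (G.1 x).1.2 i * (a4 : V 4 → V N) x i = 0) ∧ ∀ x, ∑ i, (G.1 x).1.2 i * (b4 : V 4 → V N) x i = 0 := by
  obtain ⟨g, hg⟩ : ∃ g : (spN 𝒜 P).Plot 3, g = eqp (circN hB hN) D := ⟨_, rfl⟩
  have hgs : Sph g.1 := by rw [hg]; exact hD.sph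
  have hg1 : ∀ y, (g.1 y).1.1 = shift (2 * π * y 2) (D.1 (Bm y)).1.1 := fun y => by rw [hg, eqp_apply]; rfl
  have hg2 : ∀ y, (g.1 y).1.2 = (D.1 (Bm y)).1.2 := fun y => by rw [hg, eqp_apply]; rfl
  obtain ⟨h, hh⟩ : ∃ h : V 3 → Gs M, h = fun y => (g.1 y).1.1 := ⟨_, rfl⟩
  have hsm : SmG 𝒜 h := by rw [hh]; exact g.2.1
  obtain ⟨S⟩ := exists_CF hk hn hN hsm (K := Icc 0 2) isCompact_Icc (fun y =>
    ⟨![(projIcc (0 : ℝ) 1 zero_le_one (y 0) : ℝ), Int.fract (y 1 - y 2) + Int.fract (y 2), Int.fract (y 2)], by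
      have p0 := (projIcc (0 : ℝ) 1 zero_le_one (y 0)).2
      have p1 := Int.fract_nonneg (y 1 - y 2)
      have p2 := Int.fract_nonneg (y 2)
      have p3 := (Int.fract_lt_one (y 1 - y 2)).le
      have p4 := (Int.fract_lt_one (y 2)).le
      refine ⟨fun i => ?_, fun i => ?_⟩
      · fin_cases i
        · exact p0.1
        · exact add_nonneg p1 p2
        · exact p2
      · fin_cases i
        · exact p0.2.trans one_le_two
        · change Int.fract (y 1 - y 2) + Int.fract (y 2) ≤ 2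
          linarith
        · exact p4.trans one_le_two, by
      rw [hh]
      beta_reduce
      rw [hg1, hg1, hcl (Bm y)]
      have e1 : cl (Bm y) = Bm ![(projIcc (0 : ℝ) 1 zero_le_one (y 0) : ℝ), Int.fract (y 1 - y 2) + Int.fract (y 2), Int.fract (y 2)] := by
        funext i
        fin_cases i
        · rfl
        · change Int.fract (y 1 - y 2) = Int.fract (y 1 - y 2) + Int.fract (y 2) - Int.fract (y 2)
          ring
      rw [← e1]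
      exact per_fract (f := fun t => shift (2 * π * t) (D.1 (cl (Bm y))).1.1) (fun t => by
        rw [mul_add, mul_one, shift_period 𝒜 hB]) (y 2)⟩)
  have hP1 : ∀ y, P (S.H y (stp 1)) = P (D.1 (Bm y)).1.1 := by
    intro y
    rw [stp_one, S.H1, hh]
    beta_reduce
    rw [hg1]
    exact hN.inv _ _
  -- the three vectors
  obtain ⟨vA, hvA⟩ : ∃ vA : V 3 → Eu N, vA = fun y => WithLp.toLp 2 ((rA φ a b : V 3 → V N) y) := ⟨_, rfl⟩
  obtain ⟨vB, hvB⟩ : ∃ vB : V 3 → Eu N, vB = fun y => WithLp.toLp 2 ((rB φ a b : V 3 → V N) y) := ⟨_, rfl⟩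
  obtain ⟨vX, hvX⟩ : ∃ vX : V 3 → Eu N, vX = fun y => (g.1 y).1.2 := ⟨_, rfl⟩
  obtain ⟨A, hA⟩ : ∃ A : V 3 → Eu N, A = fun y => WithLp.toLp 2 ((a : V 2 → V N) (Bm y)) := ⟨_, rfl⟩
  obtain ⟨B, hB'⟩ : ∃ B : V 3 → Eu N, B = fun y => WithLp.toLp 2 ((b : V 2 → V N) (Bm y)) := ⟨_, rfl⟩
  have eA : ∀ y, vA y = Real.cos (ang φ y) • A y + Real.sin (ang φ y) • B y := fun y => by rw [hvA, hA, hB']; rfl
  have eB : ∀ y, vB y = -Real.sin (ang φ y) • A y + Real.cos (ang φ y) • B y := fun y => by rw [hvB, hA, hB']; rfl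
  have AA : ∀ y, ⟪A y, A y⟫ = 1 := fun y => by rw [hA, ← sum_inner]; exact hF.n_a (Bm y)
  have BB : ∀ y, ⟪B y, B y⟫ = 1 := fun y => by rw [hB', ← sum_inner]; exact hF.n_b (Bm y)
  have AB : ∀ y, ⟪A y, B y⟫ = 0 := fun y => by rw [hA, hB', ← sum_inner]; exact hF.ab (Bm y)
  have BA : ∀ y, ⟪B y, A y⟫ = 0 := fun y => by rw [real_inner_comm]; exact AB y
  have XA : ∀ y, ⟪vX y, A y⟫ = 0 := fun y => by rw [hA, hvX]; beta_reduce; rw [hg2]; exact xa (Bm y)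
  have XB : ∀ y, ⟪vX y, B y⟫ = 0 := fun y => by rw [hB', hvX]; beta_reduce; rw [hg2]; exact xb (Bm y)
  have XX : ∀ y, ⟪vX y, vX y⟫ = 1 := fun y => by
    rw [real_inner_self_eq_norm_sq, hvX]
    beta_reduce
    rw [(g.1 y).2.2, one_pow]
  have hcs : ∀ r : ℝ, Real.cos r * Real.cos r + Real.sin r * Real.sin r = 1 := fun r => by
    have := Real.cos_sq_add_sin_sq r
    nlinarith
  have iAA : ∀ y, ⟪vA y, vA y⟫ = 1 := by
    intro y
    rw [eA]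
    simp only [inner_add_left, inner_add_right, real_inner_smul_left, real_inner_smul_right, AA, BB, AB, BA]
    have := hcs (ang φ y)
    linarith
  have iBB : ∀ y, ⟪vB y, vB y⟫ = 1 := by
    intro y
    rw [eB]
    simp only [inner_add_left, inner_add_right, real_inner_smul_left, real_inner_smul_right, AA, BB, AB, BA]
    have := hcs (ang φ y)
    linarith
  have iAB : ∀ y, ⟪vA y, vB y⟫ = 0 := by
    intro y
    rw [eA, eB]
    simp only [inner_add_left, inner_add_right, real_inner_smul_left, real_inner_smul_right, AA, BB, AB, BA]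
    ring
  have iXA : ∀ y, ⟪vX y, vA y⟫ = 0 := by
    intro y
    rw [eA]
    simp only [inner_add_right, real_inner_smul_right, XA, XB]
    ring
  have iXB : ∀ y, ⟪vX y, vB y⟫ = 0 := by
    intro y
    rw [eB]
    simp only [inner_add_right, real_inner_smul_right, XA, XB]
    ring
  have PX : ∀ y, P (S.H y (stp 1)) (vX y) = vX y := by
    intro y
    rw [stp_one, S.H1, hh, hvX]
    exact (g.1 y).2.1
  have PA : ∀ y, P (S.H y (stp 1)) (A y) = A y := fun y => by rw [hP1, hA]; exact pa (Bm y)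
  have PB : ∀ y, P (S.H y (stp 1)) (B y) = B y := fun y => by rw [hP1, hB']; exact pb (Bm y)
  have PvA : ∀ y, P (S.H y (stp 1)) (vA y) = vA y := fun y => by rw [eA, map_add, map_smul, map_smul, PA, PB]
  have PvB : ∀ y, P (S.H y (stp 1)) (vB y) = vB y := fun y => by rw [eB, map_add, map_smul, map_smul, PA, PB]
  have smA : ContDiff ℝ ∞ vA := by
    rw [hvA, contDiff_euclidean]
    exact fun i => contDiff_pi.1 (rA φ a b).smooth i
  have smB : ContDiff ℝ ∞ vB := by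
    rw [hvB, contDiff_euclidean]
    exact fun i => contDiff_pi.1 (rB φ a b).smooth i
  have smX : ContDiff ℝ ∞ vX := by rw [hvX]; exact g.2.2
  -- coordinates in the frame
  have FF1 : ∀ (v : V 3 → Eu N) (y : V 3), P (S.H y (stp 1)) (v y) = v y → S.F y 1 (adj (S.F y 1) (v y)) = v y := by
    intro v y hv
    exact L_adj (S.nF y 1) (S.PF y 1) (hN.rank _) hv
  have smR : ∀ v : V 3 → Eu N, ContDiff ℝ ∞ v → ContDiff ℝ ∞ (fun y => adj (S.F y 1) (v y)) := by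
    intro v hv
    rw [contDiff_iff_contDiffAt]
    intro y
    refine contDiffAt_adj ?_ hv.contDiffAt
    exact (S.smF.comp (contDiff_id.prodMk contDiff_const)).contDiffAt
  have hFi : ∀ y s (v w : Eu 3), ⟪S.F y s v, S.F y s w⟫ = ⟪v, w⟫ := fun y s => inner_iso (S.nF _ _)
  obtain ⟨R0, hR0⟩ : ∃ R0 : V 3 → Eu 3, R0 = fun y => adj (S.F y 1) (vX y) := ⟨_, rfl⟩
  obtain ⟨R1, hR1⟩ : ∃ R1 : V 3 → Eu 3, R1 = fun y => adj (S.F y 1) (vA y) := ⟨_, rfl⟩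
  obtain ⟨R2, hR2⟩ : ∃ R2 : V 3 → Eu 3, R2 = fun y => adj (S.F y 1) (vB y) := ⟨_, rfl⟩
  have f0 : ∀ y, S.F y 1 (R0 y) = vX y := fun y => by rw [hR0]; exact FF1 vX y (PX y)
  have f1 : ∀ y, S.F y 1 (R1 y) = vA y := fun y => by rw [hR1]; exact FF1 vA y (PvA y)
  have f2 : ∀ y, S.F y 1 (R2 y) = vB y := fun y => by rw [hR2]; exact FF1 vB y (PvB y)
  have r00 : ∀ y, ⟪R0 y, R0 y⟫ = 1 := fun y => by rw [← hFi y 1, f0, XX]
  have r11 : ∀ y, ⟪R1 y, R1 y⟫ = 1 := fun y => by rw [← hFi y 1, f1, iAA]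
  have r22 : ∀ y, ⟪R2 y, R2 y⟫ = 1 := fun y => by rw [← hFi y 1, f2, iBB]
  have r12 : ∀ y, ⟪R1 y, R2 y⟫ = 0 := fun y => by rw [← hFi y 1, f1, f2, iAB]
  have r01 : ∀ y, ⟪R0 y, R1 y⟫ = 0 := fun y => by rw [← hFi y 1, f0, f1, iXA]
  have r02 : ∀ y, ⟪R0 y, R2 y⟫ = 0 := fun y => by rw [← hFi y 1, f0, f2, iXB]
  have sR0 : ContDiff ℝ ∞ R0 := by rw [hR0]; exact smR vX smX
  have sR1 : ContDiff ℝ ∞ R1 := by rw [hR1]; exact smR vA smA
  have sR2 : ContDiff ℝ ∞ R2 := by rw [hR2]; exact smR vB smB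
  have nR0 : ∀ y, ‖R0 y‖ = 1 := fun y => by
    have := r00 y
    rw [real_inner_self_eq_norm_sq] at this
    exact (pow_eq_one_iff_of_nonneg (norm_nonneg _) two_ne_zero).1 this
  -- the base map
  have hΓ : Sph (fun y => (g.1 y, ((rA φ a b : V 3 → V N) y, (rB φ a b : V 3 → V N) y))) := hgs.prod hF.sph
  have hdep : ∀ y y', (g.1 y, ((rA φ a b : V 3 → V N) y, (rB φ a b : V 3 → V N) y)) =
      (g.1 y', ((rA φ a b : V 3 → V N) y', (rB φ a b : V 3 → V N) y')) →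
      S.H y = S.H y' ∧ S.F y = S.F y' ∧ R0 y = R0 y' ∧ R1 y = R1 y' ∧ R2 y = R2 y' := by
    intro y y' e
    have e1 : g.1 y = g.1 y' := congrArg Prod.fst e
    have e2 : (rA φ a b : V 3 → V N) y = (rA φ a b : V 3 → V N) y' := congrArg (fun z => z.2.1) e
    have e3 : (rB φ a b : V 3 → V N) y = (rB φ a b : V 3 → V N) y' := congrArg (fun z => z.2.2) e
    have e4 := S.fun_h y y' (by rw [hh]; exact congrArg (fun z => z.1.1) e1)
    refine ⟨e4.1, e4.2, ?_, ?_, ?_⟩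
    · rw [hR0, hvX]
      beta_reduce
      rw [e4.2, e1]
    · rw [hR1, hvA]
      beta_reduce
      rw [e4.2, e2]
    · rw [hR2, hvB]
      beta_reduce
      rw [e4.2, e3]
  have hPx : ∀ y s v, P (S.H y (stp s)) (S.F y s v) = S.F y s v := S.PF
  have smys : ContDiff ℝ ∞ (fun x : V 4 => ((pr 3 x, x (Fin.last 3)) : V 3 × ℝ)) :=
    (pr 3).smooth.prodMk (contDiff_apply ℝ ℝ (Fin.last 3))
  have smFx : ∀ R : V 3 → Eu 3, ContDiff ℝ ∞ R → ContDiff ℝ ∞ (fun x : V 4 => S.F (pr 3 x) (x (Fin.last 3)) (R (pr 3 x))) := by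
    intro R hR
    exact (S.smF.comp smys).clm_apply (hR.comp (pr 3).smooth)
  let G : (spN 𝒜 P).Plot 4 := ⟨fun x => ⟨(S.H (pr 3 x) (stp (x (Fin.last 3))), S.F (pr 3 x) (x (Fin.last 3)) (R0 (pr 3 x))),
      ⟨hPx _ _ _, (S.nF _ _ _).trans (nR0 _)⟩⟩, by
    refine ⟨?_, smFx R0 sR0⟩
    have h1 : ∀ u : V 4, SmGAt 𝒜 (fun x : V 4 => S.H (pr 3 x) (stp (x (Fin.last 3)))) u := fun u =>
      SmGAt.comp (σ := fun z : V 3 × ℝ => S.H z.1 z.2) (f := fun x : V 4 => ((pr 3 x, stp (x (Fin.last 3))) : V 3 × ℝ)) (v := u)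
        (S.smH _ _ (stp_mem _)) ((pr 3).smooth.prodMk (contDiff_stp.comp (contDiff_apply ℝ ℝ (Fin.last 3)))).contDiffAt
    exact ⟨fun u => (h1 u).1, fun u => (h1 u).2⟩⟩
  let a4 : FR.Sm 4 N := ⟨fun x => WithLp.ofLp (S.F (pr 3 x) (x (Fin.last 3)) (R1 (pr 3 x))), by
    rw [contDiff_pi]
    intro i
    exact contDiff_euclidean.1 (smFx R1 sR1) i⟩
  let b4 : FR.Sm 4 N := ⟨fun x => WithLp.ofLp (S.F (pr 3 x) (x (Fin.last 3)) (R2 (pr 3 x))), by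
    rw [contDiff_pi]
    intro i
    exact contDiff_euclidean.1 (smFx R2 sR2) i⟩
  let j : SMap (spS 3) (spN 𝒜 P) := ⟨fun v => ⟨(S.c, S.L v.1), ⟨S.PL _, (S.nL _).trans v.2⟩⟩, fun k p =>
    ⟨smG_const S.c, S.L.contDiff.comp (show ContDiff ℝ ∞ _ from p.2)⟩⟩
  let w : (spS 3).Plot 3 := ⟨fun y => ⟨R0 y, nR0 y⟩, sR0⟩
  let R1' : FR.Sm 3 3 := ⟨fun y => WithLp.ofLp (R1 y), by
    rw [contDiff_pi]
    intro i
    exact contDiff_euclidean.1 sR1 i⟩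
  let R2' : FR.Sm 3 3 := ⟨fun y => WithLp.ofLp (R2 y), by
    rw [contDiff_pi]
    intro i
    exact contDiff_euclidean.1 sR2 i⟩
  have epr : ∀ (y : V 3) (s : ℝ), pr 3 (Fin.snoc y s : V 4) = y := fun y s => pr_snoc y s
  have els : ∀ (y : V 3) (s : ℝ), (Fin.snoc y s : V 4) (Fin.last 3) = s := fun y s => Fin.snoc_last _ _
  refine ⟨G, j, w, a4, b4, R1', R2', fun s => ?_, ?_, ?_, fun s => ?_, fun s => ?_, ?_, ?_, ?_, ⟨?_, ?_, ?_⟩, ?_, ?_, ?_, ?_, ?_, ?_,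
    ?_, ?_⟩
  · refine hΓ.of_eq fun y y' e => ?_
    obtain ⟨e1, e2, e3, -, -⟩ := hdep y y' e
    refine Subtype.ext (Prod.ext ?_ ?_)
    · change S.H (pr 3 (Fin.snoc y s)) (stp ((Fin.snoc y s : V 4) (Fin.last 3))) =
        S.H (pr 3 (Fin.snoc y' s)) (stp ((Fin.snoc y' s : V 4) (Fin.last 3)))
      rw [epr, epr, els, els, e1]
    · change S.F (pr 3 (Fin.snoc y s)) ((Fin.snoc y s : V 4) (Fin.last 3)) (R0 (pr 3 (Fin.snoc y s))) =
        S.F (pr 3 (Fin.snoc y' s)) ((Fin.snoc y' s : V 4) (Fin.last 3)) (R0 (pr 3 (Fin.snoc y' s)))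
      rw [epr, epr, els, els, e2, e3]
  · rw [← hg]
    refine Plot_ext fun y => Subtype.ext (Prod.ext ?_ ?_)
    · change S.H (pr 3 (Fin.snoc y 1)) (stp ((Fin.snoc y 1 : V 4) (Fin.last 3))) = (g.1 y).1.1
      rw [epr, els, stp_one, S.H1, hh]
    · change S.F (pr 3 (Fin.snoc y 1)) ((Fin.snoc y 1 : V 4) (Fin.last 3)) (R0 (pr 3 (Fin.snoc y 1))) = (g.1 y).1.2
      rw [epr, els, f0, hvX]
  · refine Plot_ext fun y => Subtype.ext (Prod.ext ?_ ?_)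
    · change S.H (pr 3 (Fin.snoc y 0)) (stp ((Fin.snoc y 0 : V 4) (Fin.last 3))) = S.c
      rw [epr, els, stp_zero, S.H0]
    · change S.F (pr 3 (Fin.snoc y 0)) ((Fin.snoc y 0 : V 4) (Fin.last 3)) (R0 (pr 3 (Fin.snoc y 0))) = S.L (R0 y)
      rw [epr, els, S.F0]
  · refine hΓ.of_eq fun y y' e => ?_
    obtain ⟨-, e2, -, e3, -⟩ := hdep y y' e
    change WithLp.ofLp (S.F (pr 3 (Fin.snoc y s)) ((Fin.snoc y s : V 4) (Fin.last 3)) (R1 (pr 3 (Fin.snoc y s)))) =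
      WithLp.ofLp (S.F (pr 3 (Fin.snoc y' s)) ((Fin.snoc y' s : V 4) (Fin.last 3)) (R1 (pr 3 (Fin.snoc y' s))))
    rw [epr, epr, els, els, e2, e3]
  · refine hΓ.of_eq fun y y' e => ?_
    obtain ⟨-, e2, -, -, e3⟩ := hdep y y' e
    change WithLp.ofLp (S.F (pr 3 (Fin.snoc y s)) ((Fin.snoc y s : V 4) (Fin.last 3)) (R2 (pr 3 (Fin.snoc y s)))) =
      WithLp.ofLp (S.F (pr 3 (Fin.snoc y' s)) ((Fin.snoc y' s : V 4) (Fin.last 3)) (R2 (pr 3 (Fin.snoc y' s))))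
    rw [epr, epr, els, els, e2, e3]
  · refine FR.Sm.ext fun y => ?_
    change WithLp.ofLp (S.F (pr 3 (Fin.snoc y 1)) ((Fin.snoc y 1 : V 4) (Fin.last 3)) (R1 (pr 3 (Fin.snoc y 1)))) = rA φ a b y
    rw [epr, els, f1, hvA]
  · refine FR.Sm.ext fun y => ?_
    change WithLp.ofLp (S.F (pr 3 (Fin.snoc y 1)) ((Fin.snoc y 1 : V 4) (Fin.last 3)) (R2 (pr 3 (Fin.snoc y 1)))) = rB φ a b y
    rw [epr, els, f2, hvB]
  · unfold CS
    have e1 : mu (a4.comp (sl 3 0)) (b4.comp (sl 3 0)) = mu R1' R2' := by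
      refine mu_iso S.nL (fun y => ?_) (fun y => ?_)
      · change WithLp.ofLp (S.F (pr 3 (Fin.snoc y 0)) ((Fin.snoc y 0 : V 4) (Fin.last 3)) (R1 (pr 3 (Fin.snoc y 0)))) =
          WithLp.ofLp (S.L (R1 y))
        rw [epr, els, S.F0]
      · change WithLp.ofLp (S.F (pr 3 (Fin.snoc y 0)) ((Fin.snoc y 0 : V 4) (Fin.last 3)) (R2 (pr 3 (Fin.snoc y 0)))) =
          WithLp.ofLp (S.L (R2 y))
        rw [epr, els, S.F0]
    rw [e1]
  · exact fun y => (sum_inner _ _).trans (r11 y)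
  · exact fun y => (sum_inner _ _).trans (r22 y)
  · exact fun y => (sum_inner _ _).trans (r12 y)
  · refine hΓ.of_eq fun y y' e => ?_
    obtain ⟨-, -, -, e2, e3⟩ := hdep y y' e
    exact Prod.ext (congrArg WithLp.ofLp e2) (congrArg WithLp.ofLp e3)
  · exact fun x => hPx _ _ _
  · exact fun x => hPx _ _ _
  · exact fun x => ((sum_inner _ _).trans (hFi _ _ _ _)).trans (r11 _)
  · exact fun x => ((sum_inner _ _).trans (hFi _ _ _ _)).trans (r22 _)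
  · exact fun x => ((sum_inner _ _).trans (hFi _ _ _ _)).trans (r12 _)
  · exact fun x => ((sum_inner _ _).trans (hFi _ _ _ _)).trans (r01 _)
  · exact fun x => ((sum_inner _ _).trans (hFi _ _ _ _)).trans (r02 _)

end Pool.Agent.Lib.MP_ccbbf6_gt.L5.IA
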