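import Pool.Agent.Lib.MP_ccbbf6_gt.L5.IA03
import Pool.Agent.Lib.MP_ccbbf6_gt.L5.IA08
import Pool.Agent.Lib.MP_ccbbf6_gt.L5.PER02

/-!
# Level 5, block INTa, part 13: pinching balls, integrality of periods over homotopies with degenerate ends (helper91)
-/

set_option autoImplicit false
set_option linter.unusedSectionVars false

open Set Filter Topology Metric Real Module MeasureTheory
open scoped ContDiff RealInnerProductSpace

noncomputable section

namespace Pool.Agent.Lib.MP_ccbbf6_gt.L5.IA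

open Geo L4 L4.ORI L4.FR

variable {n : ℕ} {M : Type} [MetricSpace M] [CompactSpace M] {𝒜 : SDist n M}

/-- the cut-off function of the ball of radius `R` -/
def mpi (𝒜 : SDist n M) (q : M) (R R' : ℝ) (x : M) : ℝ :=
  Real.smoothTransition ((‖lg 𝒜 q x‖ ^ 2 - R ^ 2) / (R' ^ 2 - R ^ 2))

/-- the pinch homotopy -/
def pin (𝒜 : SDist n M) (q : M) (R R' : ℝ) (x : M) (t : ℝ) : M := rat 𝒜 q x (1 + t * (mpi 𝒜 q R R' x - 1))

theorem pin_zero (hB : Bl M) (q : M) (R R' : ℝ) (x : M) : pin 𝒜 q R R' x 0 = x := by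
  unfold pin
  rw [zero_mul, add_zero, rat_one hB]

theorem mpi_out (hB : Bl M) (q : M) {R R' : ℝ} (h0 : 0 ≤ R) (h1 : R < R') {x : M} (h : R' ≤ dist q x) :
    mpi 𝒜 q R R' x = 1 := by
  unfold mpi
  rw [norm_lg hB]
  refine Real.smoothTransition.one_of_one_le ?_
  have h2 : 0 < R' ^ 2 - R ^ 2 := by nlinarith
  rw [le_div_iff₀ h2]
  nlinarith [dist_nonneg (x := q) (y := x)]

theorem mpi_in (hB : Bl M) (q : M) {R R' : ℝ} (h0 : 0 ≤ R) (h1 : R < R') {x : M} (h : dist q x ≤ R) :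
    mpi 𝒜 q R R' x = 0 := by
  unfold mpi
  rw [norm_lg hB]
  refine Real.smoothTransition.zero_of_nonpos ?_
  have h2 : 0 < R' ^ 2 - R ^ 2 := by nlinarith
  exact div_nonpos_of_nonpos_of_nonneg (by nlinarith [dist_nonneg (x := q) (y := x)]) h2.le

theorem pin_one (hB : Bl M) (q : M) {R R' : ℝ} (h0 : 0 ≤ R) (h1 : R < R') {x : M} (h : dist q x ≤ R) :
    pin 𝒜 q R R' x 1 = q := by
  unfold pin
  rw [mpi_in hB q h0 h1 h, zero_sub, mul_neg, mul_one, add_neg_cancel, rat_zero hB]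

theorem ctd_lg (hB : Bl M) {q : M} {E : Type*} [NormedAddCommGroup E] [NormedSpace ℝ E] {x : E → M} {u : E}
    (hx : SmAt 𝒜 x u) (hd : dist q (x u) < π) : ContDiffAt ℝ ∞ (fun v => lg 𝒜 q (x v)) u := by
  have h1 := smV_lg hB (smAt_const q u) (𝒜.mem q) hx hd
  unfold SmV at h1
  simp only [CC_self] at h1
  exact h1

theorem pin_smooth (hB : Bl M) (q : M) {R R' : ℝ} (h0 : 0 ≤ R) (h1 : R < R') (h2 : R' < π)
    {E : Type*} [NormedAddCommGroup E] [NormedSpace ℝ E] {x : E → M} {t : E → ℝ} {u : E}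
    (hx : SmAt 𝒜 x u) (ht : ContDiffAt ℝ ∞ t u) : SmAt 𝒜 (fun v => pin 𝒜 q R R' (x v) (t v)) u := by
  by_cases h : dist q (x u) < π
  · unfold pin
    refine smAt_rat hB (smAt_const q u) hx (contDiffAt_const.add (ht.mul (ContDiffAt.sub ?_ contDiffAt_const))) h
    unfold mpi
    have h3 : ContDiffAt ℝ ∞ (fun v => (‖lg 𝒜 q (x v)‖ ^ 2 - R ^ 2) / (R' ^ 2 - R ^ 2)) u :=
      (((ctd_lg hB hx h).norm_sq ℝ).sub contDiffAt_const).div_const _
    exact ContDiffAt.comp (g := Real.smoothTransition) u Real.smoothTransition.contDiffAt h3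
  · have h3 : R' < dist q (x u) := by linarith [not_lt.1 h]
    have h4 : ∀ᶠ v in 𝓝 u, R' < dist q (x v) :=
      (continuousAt_const.dist hx.1).eventually (lt_mem_nhds h3)
    refine hx.congr ?_
    filter_upwards [h4] with v hv
    unfold pin
    rw [mpi_out hB q h0 h1 hv.le, sub_self, mul_zero, add_zero, rat_one hB]

/-- the pinch map -/
def pinM (hB : Bl M) (𝒜 : SDist n M) (q : M) {R R' : ℝ} (h0 : 0 ≤ R) (h1 : R < R') (h2 : R' < π) : SMap (spM 𝒜) (spM 𝒜) :=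
  ⟨fun x => pin (M := M) 𝒜 q R R' x 1, fun _ p u => pin_smooth hB q h0 h1 h2 (p.2 u) contDiffAt_const⟩

/-- the pinch homotopy -/
def pinH (hB : Bl M) (𝒜 : SDist n M) (q : M) {R R' : ℝ} (h0 : 0 ≤ R) (h1 : R < R') (h2 : R' < π) : SMap (spM 𝒜).xR (spM 𝒜) :=
  ⟨fun z => pin (M := M) 𝒜 q R R' z.1 z.2, fun _ p u => pin_smooth hB q h0 h1 h2 (p.2.1 u) p.2.2.contDiffAt⟩

/-- pinching does not change the class of a closed form -/
theorem pinM_pull (hB : Bl M) (q : M) {R R' : ℝ} (h0 : 0 ≤ R) (h1 : R < R') (h2 : R' < π) {u : Om (spM 𝒜)}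
    (du : dO _ u = 0) : ∃ β : Om (spM 𝒜), (pinM hB 𝒜 q h0 h1 h2).pull u = u + dO _ β := by
  refine ⟨b0 (pinH hB 𝒜 q h0 h1 h2) u, ?_⟩
  have h3 := d_b0_ev (pinH hB 𝒜 q h0 h1 h2) du
  have h4 : wt (pinH hB 𝒜 q h0 h1 h2) u 0 = u := by
    unfold wt
    rw [← pull_comp]
    have h5 : (pinH hB 𝒜 q h0 h1 h2).comp (jO (spM 𝒜) 0) = SMap.id _ := SMap_ext fun x => pin_zero (𝒜 := 𝒜) hB q R R' x
    rw [h5, pull_id]
  have h5 : wt (pinH hB 𝒜 q h0 h1 h2) u 1 = (pinM hB 𝒜 q h0 h1 h2).pull u := by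
    unfold wt
    rw [← pull_comp]
    rfl
  rw [h3, h4, h5, add_sub_cancel]

/-- a map which is homotopic to the identity and constant on the given family over the cube -/
theorem exists_pinch (hB : Bl M) {κ : ℕ} (hk : 𝒜.HK κ) (hκ : 3 ≤ κ) {p : FR.V 3 → M} (hp : L4.Sm 𝒜 p) :
    ∃ Ψ : SMap (spM 𝒜) (spM 𝒜), (∀ u : Om (spM 𝒜), dO _ u = 0 → ∃ β : Om (spM 𝒜), Ψ.pull u = u + dO _ β) ∧
      ∃ q : M, ∀ y ∈ Icc (0 : V 3) 1, Ψ.1 (p y) = q := by
  obtain ⟨q, hq⟩ := exists_generic hB hk hκ hp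
  have hc : Continuous fun y => dist q (p y) := continuous_const.dist hp.continuous
  obtain ⟨y₀, -, hy₀⟩ := (isCompact_Icc (a := (0 : V 3)) (b := 1)).exists_isMaxOn ⟨0, left_mem_Icc.2 zero_le_one⟩ hc.continuousOn
  obtain ⟨R', h1, h2⟩ := exists_between (hq y₀)
  refine ⟨pinM hB 𝒜 q dist_nonneg h1 h2, fun u du => pinM_pull hB q _ h1 h2 du, q, fun y hy => ?_⟩
  exact pin_one (𝒜 := 𝒜) hB q dist_nonneg h1 (hy₀ hy)

variable {X : Space}

/-- periods do not change -/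
theorem cI_pinch {u : Om (spM 𝒜)} {c : Circ X} {f : SMap X (spM 𝒜)} (hf : IMap c f) {D : X.Plot 2}
    {G : X.Plot 4} (hG : Sph4 G.1) (h1 : G.cmp (sl 3 1) = eqp c D) {j : SMap (spS 3) X} {w : (spS 3).Plot 3}
    (h0 : G.cmp (sl 3 0) = j.pl w) {Ψ : SMap (spM 𝒜) (spM 𝒜)} (hΨ : ∃ β : Om (spM 𝒜), Ψ.pull u = u + dO _ β) :
    cI 4 (Om.on ((Ψ.comp f).pull u) G) = cI 4 (Om.on (f.pull u) G) := by
  obtain ⟨β, hβ⟩ := hΨ
  have h2 : (Ψ.comp f).pull u = f.pull u + dO X (f.pull β) := by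
    rw [pull_comp, hβ, map_add, pull_d]
  have h3 : cI 4 (Om.on (dO X (f.pull β)) G) = 0 := by
    rw [on_d, stokes4 (SF4.on hG _), ← on_cmp, ← on_cmp, h1, h0, cI_low, sub_zero, on_bas c (Bas_pull c hf β)]
    have h4 : cI 3 (pb Bm (Om.on (f.pull β) D)) = 0 := by
      rw [← cI_zero (k := 3)]
      refine cI_congr fun x _ => ?_
      rw [topE_low (by norm_num), map_zero, map_zero]
    rw [h4, neg_zero]
  rw [h2, on_add, cI_add, h3, add_zero]

theorem snoc_face (x : V 4) (r : ℝ) (h : x 3 = r) : x = Fin.snoc (pr 3 x) r := by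
  have h1 := snoc_pr x
  have h2 : x (Fin.last 3) = r := h
  rw [h2] at h1
  exact h1.symm

/-- **integrality of periods** -/
theorem int_of_per (hB : Bl M) {κ : ℕ} (hk : 𝒜.HK κ) (hκ : 3 ≤ κ) {u : Om (spM 𝒜)} (du : dO _ u = 0)
    (hper : ∀ F : (spM 𝒜).Plot 4, (∀ i, FOK F.1 i) → ∃ k : ℤ, cI 4 (Om.on u F) = k)
    {c : Circ X} {f : SMap X (spM 𝒜)} (hf : IMap c f) {D : X.Plot 2}
    {G : X.Plot 4} (hG : Sph4 G.1) (h1 : G.cmp (sl 3 1) = eqp c D) {j : SMap (spS 3) X} {w : (spS 3).Plot 3}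
    (h0 : G.cmp (sl 3 0) = j.pl w) : ∃ k : ℤ, cI 4 (Om.on (f.pull u) G) = k := by
  have hp1 : L4.Sm 𝒜 (fun y : V 3 => f.1 (G.1 (Fin.snoc y 1))) := (f.pl (G.cmp (sl 3 1))).2
  obtain ⟨Ψ₁, hΨ₁, q₁, hq₁⟩ := exists_pinch hB hk hκ hp1
  have hp0 : L4.Sm 𝒜 (fun y : V 3 => Ψ₁.1 (f.1 (G.1 (Fin.snoc y 0)))) := ((Ψ₁.comp f).pl (G.cmp (sl 3 0))).2
  obtain ⟨Ψ₀, hΨ₀, q₀, hq₀⟩ := exists_pinch hB hk hκ hp0
  have hf1 : IMap c (Ψ₁.comp f) := fun x s => congrArg Ψ₁.1 (hf x s)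
  obtain ⟨k, hk⟩ := hper ((Ψ₀.comp (Ψ₁.comp f)).pl G) (by
    obtain ⟨c1, c2, c3, c4⟩ := hG.conds
    have hΦ : ∀ x y : V 4, G.1 x = G.1 y → (((Ψ₀.comp (Ψ₁.comp f)).pl G).1 x : M) = ((Ψ₀.comp (Ψ₁.comp f)).pl G).1 y := by
      intro x y h
      change Ψ₀.1 (Ψ₁.1 (f.1 (G.1 x))) = Ψ₀.1 (Ψ₁.1 (f.1 (G.1 y)))
      rw [h]
    have hmem : ∀ x ∈ Icc (0 : V 4) 1, pr 3 x ∈ Icc (0 : V 3) 1 := fun x hx =>
      ⟨fun i => hx.1 i.castSucc, fun i => hx.2 i.castSucc⟩
    have hper1 : ∀ i : Fin 4, (∀ x, G.1 (x + Pi.single i 1) = G.1 x) → ∀ x : V 4, x i = 0 → G.1 (Function.update x i 1) = G.1 x := by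
      intro i hi x hx
      have h5 : Function.update x i 1 = x + Pi.single i 1 := by
        funext a
        by_cases ha : a = i
        · subst ha
          simp [hx]
        · simp [Function.update_of_ne ha, Pi.single_eq_of_ne ha]
      rw [h5, hi]
    intro i
    fin_cases i
    · refine Or.inl fun r hr => ?_
      rcases hr with hr | hr
      · refine ⟨2, by decide, fun x hx hx0 t _ => hΦ _ _ ?_⟩
        have h5 : x = Function.update x 0 0 := by
          rw [eq_comm, Function.update_eq_self_iff]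
          exact (hx0.trans hr).symm
        have h6 : Function.update x 2 t = Function.update (Function.update x 2 t) 0 0 := by
          rw [eq_comm, Function.update_eq_self_iff, Function.update_of_ne (by decide)]
          exact (hx0.trans hr).symm
        rw [h6, c3, Function.update_comm (by decide), Function.update_idem]
        conv_rhs => rw [h5, c3]
        rw [Function.update_comm (by decide)]
      · refine ⟨1, by decide, fun x hx hx0 t _ => hΦ _ _ ?_⟩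
        have h5 : x = Function.update x 0 1 := by
          rw [eq_comm, Function.update_eq_self_iff]
          exact (hx0.trans hr).symm
        have h6 : Function.update x 1 t = Function.update (Function.update x 1 t) 0 1 := by
          rw [eq_comm, Function.update_eq_self_iff, Function.update_of_ne (by decide)]
          exact (hx0.trans hr).symm
        rw [h6, c4, Function.update_comm (by decide), Function.update_idem]
        conv_rhs => rw [h5, c4]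
        rw [Function.update_comm (by decide)]
    · exact Or.inr fun x _ hx => hΦ _ _ (hper1 1 c1 x hx)
    · exact Or.inr fun x _ hx => hΦ _ _ (hper1 2 c2 x hx)
    · refine Or.inl fun r hr => ⟨0, by decide, fun x hx hx0 t ht => ?_⟩
      have hx' : Function.update x 0 t ∈ Icc (0 : V 4) 1 := PE.update_mem_cube hx 0 ht
      have hx0' : (Function.update x 0 t : V 4) 3 = r := by
        rw [Function.update_of_ne (by decide)]
        exact hx0
      have key : ∀ z ∈ Icc (0 : V 4) 1, z 3 = r →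
          (((Ψ₀.comp (Ψ₁.comp f)).pl G).1 z : M) = if r = 0 then q₀ else Ψ₀.1 q₁ := by
        intro z hz hz3
        change Ψ₀.1 (Ψ₁.1 (f.1 (G.1 z))) = _
        rw [snoc_face z r hz3]
        rcases hr with hr | hr
        · rw [hr, if_pos rfl]
          exact hq₀ _ (hmem z hz)
        · rw [hr, if_neg one_ne_zero]
          exact congrArg Ψ₀.1 (hq₁ _ (hmem z hz))
      exact (key _ hx' hx0').trans (key _ hx hx0).symm)
  refine ⟨k, ?_⟩
  rw [← hk, ← cI_pinch hf hG h1 h0 (hΨ₁ u du), ← cI_pinch hf1 hG h1 h0 (hΨ₀ u du)]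
  rfl

end Pool.Agent.Lib.MP_ccbbf6_gt.L5.IA
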