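import Pool.Agent.Lib.MP_ccbbf6_gt.L5.IB1

/-!
# Level 5, INTb, file 2: left and right multiplication by quaternions (helper77)

`Lm x`, `Rm x` : the matrices of `y ↦ x y`, `y ↦ y x` on `H = R^4` (basis `1, i, j, k`), entries in any ring.
PAPER PROOF.
(1) `Lm_mul`, `Rm_mul`, `LR_comm`, `Lm_tr`: entries; `ext i j; fin_cases i; fin_cases j; simp [Matrix.mul_apply, Fin.sum_univ_four, Lm, qm]; ring` (commutative ring `A`).
(2) `Lm_orth`: `(Lm x)ᵀ (Lm x) = 1` if `Σ x_i^2 = 1` (`Lm_tr`, `Lm_mul`, `qm (cj x) x = (1,0,0,0)`, `Lm_one`).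
(3) `g_th` : for unit `u`, `q` and `g := Lm u * (Rm q)ᵀ`: `th φ g = gᵀ dg`; with `U = (Lm u).map φ.f`, `W = (Rm q).map φ.f` : `gᵀ = W Uᵀ`, `D g = D U * Wᵀ + U * D Wᵀ` (`D_mul`, even), so
    `gᵀ D g = W (Uᵀ D U) Wᵀ + W D Wᵀ` (`Uᵀ U = 1`). `Uᵀ D U = Lm(ū du)` and it commutes with `W`-matrices (entries: `Lm a` for a vector `a` of forms and `(Rm q).map φ.f`, functions are central, `LR_comm` in the form
    `lr_comm` below), so the first term is `Lm(a)` with `a = ū du`, real part `Σ u_i du_i = 0` (`d (Σ u_i u_i) = 0`). `g1 (Lm a) = g2 (Lm a) = g3 (Lm a) = 0` for every `a` (with real part or not: `a 0` only enters the diagonal).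
    Second term: entries of `W D Wᵀ` : `g1 = 2 (q̄ dq)_1` etc., direct computation: `W D Wᵀ i j = Σ_k W_ik d W_jk`.
    (Up to a global sign: if the computation gives `-2`, change `2` into `-2` in `g1_th`, `g2_th`, `g3_th`, `w_th` and tell me.)
-/

set_option autoImplicit false
set_option maxSynthPendingDepth 3
set_option linter.unusedSectionVars false

open Matrix Function

noncomputable section

namespace Pool.Agent.Lib.MP_ccbbf6_gt.L5.IB

section alg

variable {R : Type*} [Ring R]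

/-- left multiplication -/
def Lm (x : Fin 4 → R) : Matrix (Fin 4) (Fin 4) R :=
  !![x 0, -x 1, -x 2, -x 3; x 1, x 0, -x 3, x 2; x 2, x 3, x 0, -x 1; x 3, -x 2, x 1, x 0]

/-- right multiplication -/
def Rm (x : Fin 4 → R) : Matrix (Fin 4) (Fin 4) R :=
  !![x 0, -x 1, -x 2, -x 3; x 1, x 0, x 3, -x 2; x 2, -x 3, x 0, x 1; x 3, x 2, -x 1, x 0]

/-- product of quaternions -/
def qm (x y : Fin 4 → R) : Fin 4 → R := ![x 0 * y 0 - x 1 * y 1 - x 2 * y 2 - x 3 * y 3, x 0 * y 1 + x 1 * y 0 + x 2 * y 3 - x 3 * y 2,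
  x 0 * y 2 - x 1 * y 3 + x 2 * y 0 + x 3 * y 1, x 0 * y 3 + x 1 * y 2 - x 2 * y 1 + x 3 * y 0]

/-- conjugate -/
def cj (x : Fin 4 → R) : Fin 4 → R := ![x 0, -x 1, -x 2, -x 3]

/-- the unit -/
def q1 : Fin 4 → R := ![1, 0, 0, 0]

theorem Lm_mulVec (x y : Fin 4 → R) : (Lm x).mulVec y = qm x y := by
  funext i
  fin_cases i <;>
    simp [Lm, qm, Matrix.mulVec, dotProduct, Fin.sum_univ_four] <;> abel

theorem Lm_one : Lm (q1 : Fin 4 → R) = 1 := by
  ext i j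
  fin_cases i <;> fin_cases j <;> simp [Lm, q1]

theorem Rm_one : Rm (q1 : Fin 4 → R) = 1 := by
  ext i j
  fin_cases i <;> fin_cases j <;> simp [Rm, q1]

theorem Lm_tr (x : Fin 4 → R) : (Lm x)ᵀ = Lm (cj x) := by
  ext i j
  fin_cases i <;> fin_cases j <;> simp [Lm, cj]

theorem Rm_tr (x : Fin 4 → R) : (Rm x)ᵀ = Rm (cj x) := by
  ext i j
  fin_cases i <;> fin_cases j <;> simp [Rm, cj]

theorem Lm_mul (x y : Fin 4 → R) : Lm x * Lm y = Lm (qm x y) := by
  ext i j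
  fin_cases i <;> fin_cases j <;>
    simp [Matrix.mul_apply, Fin.sum_univ_four, Lm, qm] <;> abel

end alg

section comm

variable {A : Type*} [CommRing A]

theorem Rm_mulVec (x y : Fin 4 → A) : (Rm x).mulVec y = qm y x := by
  funext i
  fin_cases i <;>
    simp [Rm, qm, Matrix.mulVec, dotProduct, Fin.sum_univ_four] <;> ring

theorem Rm_mul (x y : Fin 4 → A) : Rm x * Rm y = Rm (qm y x) := by
  ext i j
  fin_cases i <;> fin_cases j <;>
    simp [Matrix.mul_apply, Fin.sum_univ_four, Rm, qm] <;> ring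

private theorem IB2_LR {R : Type*} [Ring R] (x y : Fin 4 → R) (h : ∀ i j, y i * x j = x j * y i) :
    Lm x * Rm y = Rm y * Lm x := by
  ext i j
  fin_cases i <;> fin_cases j <;>
    simp [Matrix.mul_apply, Fin.sum_univ_four, Rm, Lm, h] <;> abel

theorem LR_comm (x y : Fin 4 → A) : Lm x * Rm y = Rm y * Lm x :=
  IB2_LR x y fun _ _ => mul_comm _ _

theorem Lm_orth {x : Fin 4 → A} (h : ∑ i, x i * x i = 1) : (Lm x)ᵀ * Lm x = 1 := by
  rw [Lm_tr, Lm_mul, ← Lm_one]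
  refine congrArg Lm ?_
  rw [Fin.sum_univ_four] at h
  funext i
  fin_cases i
  · simp [qm, cj, q1]
    linear_combination h
  · simp [qm, cj, q1]
    ring
  · simp [qm, cj, q1]
    ring
  · simp [qm, cj, q1]
    ring

theorem Rm_orth {x : Fin 4 → A} (h : ∑ i, x i * x i = 1) : Rm x * (Rm x)ᵀ = 1 := by
  rw [Rm_tr, Rm_mul, ← Rm_one]
  refine congrArg Rm ?_
  rw [Fin.sum_univ_four] at h
  funext i
  fin_cases i
  · simp [qm, cj, q1]
    linear_combination h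
  · simp [qm, cj, q1]
    ring
  · simp [qm, cj, q1]
    ring
  · simp [qm, cj, q1]
    ring

end comm

variable {A : Type*} [CommRing A] [Algebra ℝ A] {B : Type*} [Ring B] [Algebra ℝ B] {G : GDA B}

/-- the imaginary part of `q̄ dq`, component 1 -/
def w1 (G : GDA B) (q : Fin 4 → B) : B := q 0 * G.d (q 1) - q 1 * G.d (q 0) - q 2 * G.d (q 3) + q 3 * G.d (q 2)
/-- the imaginary part of `q̄ dq`, component 2 -/
def w2 (G : GDA B) (q : Fin 4 → B) : B := q 0 * G.d (q 2) - q 2 * G.d (q 0) - q 3 * G.d (q 1) + q 1 * G.d (q 3)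
/-- the imaginary part of `q̄ dq`, component 3 -/
def w3 (G : GDA B) (q : Fin 4 → B) : B := q 0 * G.d (q 3) - q 3 * G.d (q 0) - q 1 * G.d (q 2) + q 2 * G.d (q 1)

variable {φ : Fun0 A G}

private theorem IB2_Lmap (u : Fin 4 → A) : (Lm u).map φ.f = Lm (fun i => φ.f (u i)) := by
  ext i j
  fin_cases i <;> fin_cases j <;> simp [Lm]

private theorem IB2_Rmap (u : Fin 4 → A) : (Rm u).map φ.f = Rm (fun i => φ.f (u i)) := by
  ext i j
  fin_cases i <;> fin_cases j <;> simp [Rm]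

private theorem IB2_DL (x : Fin 4 → B) : G.D (Lm x) = Lm (fun i => G.d (x i)) := by
  ext i j
  rw [GDA.D_apply]
  fin_cases i <;> fin_cases j <;> simp [Lm]

private theorem IB2_DR (x : Fin 4 → B) : G.D (Rm x) = Rm (fun i => G.d (x i)) := by
  ext i j
  rw [GDA.D_apply]
  fin_cases i <;> fin_cases j <;> simp [Rm]

private theorem IB2_Ev (M : Matrix (Fin 4) (Fin 4) A) : G.S (M.map φ.f) = M.map φ.f := by
  ext i j
  exact φ.ev (M i j)

/-- the connection form is the sum of a left multiplication and of `W D Wᵀ` -/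
private theorem IB2_th {u q : Fin 4 → A} (hu : ∑ i, u i * u i = 1) (hq : ∑ i, q i * q i = 1) :
    ∃ a : Fin 4 → B, th φ (Lm u * (Rm q)ᵀ) = Lm a + Rm (fun i => φ.f (q i)) *
      Rm (fun i => G.d (cj (fun j => φ.f (q j)) i)) := by
  set x : Fin 4 → B := fun i => φ.f (u i) with hx
  set y : Fin 4 → B := fun i => φ.f (q i) with hy
  have hU : (Lm u).map φ.f = Lm x := IB2_Lmap u
  have hW : (Rm q).map φ.f = Rm y := IB2_Rmap q
  have hWt : ((Rm q)ᵀ).map φ.f = Rm (cj y) := by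
    rw [← Rm_tr, ← hW]
    rfl
  have hUt : ((Lm u)ᵀ).map φ.f = Lm (cj x) := by
    rw [← Lm_tr, ← hU]
    rfl
  have e1 : (Lm u * (Rm q)ᵀ).map φ.f = Lm x * Rm (cj y) := by
    rw [← hU, ← hWt, Matrix.map_mul]
  have e2 : ((Lm u * (Rm q)ᵀ).map φ.f)ᵀ = Rm y * Lm (cj x) := by
    have h : ((Lm u * (Rm q)ᵀ).map φ.f)ᵀ = ((Lm u * (Rm q)ᵀ)ᵀ).map φ.f := rfl
    rw [h, Matrix.transpose_mul, Matrix.transpose_transpose, Matrix.map_mul, hW, hUt]
  have e3 : Lm (cj x) * Lm x = 1 := by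
    rw [← hUt, ← hU, ← Matrix.map_mul, Lm_orth hu]
    ext i j
    rw [Matrix.map_apply, Matrix.one_apply, Matrix.one_apply]
    split_ifs
    · exact map_one _
    · exact map_zero _
  have e4 : Rm y * Rm (cj y) = 1 := by
    rw [← hWt, ← hW, ← Matrix.map_mul, Rm_orth hq]
    ext i j
    rw [Matrix.map_apply, Matrix.one_apply, Matrix.one_apply]
    split_ifs
    · exact map_one _
    · exact map_zero _
  have e5 : G.S (Lm x) = Lm x := by
    rw [← hU]
    exact IB2_Ev _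
  refine ⟨qm (cj x) (fun i => G.d (x i)), ?_⟩
  unfold th
  rw [e2, e1, GDA.D_mul, e5, IB2_DL, IB2_DR]
  set da : Fin 4 → B := fun i => G.d (x i)
  set db : Fin 4 → B := fun i => G.d (cj y i)
  have e6 : Lm (cj x) * Lm da = Lm (qm (cj x) da) := Lm_mul _ _
  have e7 : Lm (qm (cj x) da) * Rm y = Rm y * Lm (qm (cj x) da) :=
    IB2_LR _ _ fun i j => G.comm_even _ _ (φ.ev (q i))
  calc Rm y * Lm (cj x) * (Lm da * Rm (cj y) + Lm x * Rm db)
      = Rm y * (Lm (cj x) * Lm da) * Rm (cj y) + Rm y * (Lm (cj x) * Lm x) * Rm db := by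
        simp only [Matrix.mul_add, Matrix.mul_assoc]
    _ = Lm (qm (cj x) da) * (Rm y * Rm (cj y)) + Rm y * Rm db := by
        rw [e6, e3, Matrix.mul_one, ← e7, Matrix.mul_assoc]
    _ = Lm (qm (cj x) da) + Rm y * Rm db := by
        rw [e4, Matrix.mul_one]

theorem g1_th {u q : Fin 4 → A} (hu : ∑ i, u i * u i = 1) (hq : ∑ i, q i * q i = 1) :
    g1 (th φ (Lm u * (Rm q)ᵀ)) = (2 : ℝ) • w1 G (fun i => φ.f (q i)) := by
  obtain ⟨a, ha⟩ := IB2_th (φ := φ) hu hq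
  rw [ha]
  simp [g1, w1, Lm, Rm, cj, two_smul]
  abel

theorem g2_th {u q : Fin 4 → A} (hu : ∑ i, u i * u i = 1) (hq : ∑ i, q i * q i = 1) :
    g2 (th φ (Lm u * (Rm q)ᵀ)) = (2 : ℝ) • w2 G (fun i => φ.f (q i)) := by
  obtain ⟨a, ha⟩ := IB2_th (φ := φ) hu hq
  rw [ha]
  simp [g2, w2, Lm, Rm, cj, two_smul]
  abel

theorem g3_th {u q : Fin 4 → A} (hu : ∑ i, u i * u i = 1) (hq : ∑ i, q i * q i = 1) :
    g3 (th φ (Lm u * (Rm q)ᵀ)) = (2 : ℝ) • w3 G (fun i => φ.f (q i)) := by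
  obtain ⟨a, ha⟩ := IB2_th (φ := φ) hu hq
  rw [ha]
  simp [g3, w3, Lm, Rm, cj, two_smul]
  abel

/-- the volume form of `S^3` -/
def w (G : GDA B) (q : Fin 4 → B) : B := w1 G q * (w2 G q * w3 G q)

theorem w_th {u q : Fin 4 → A} (hu : ∑ i, u i * u i = 1) (hq : ∑ i, q i * q i = 1) :
    g1 (th φ (Lm u * (Rm q)ᵀ)) * (g2 (th φ (Lm u * (Rm q)ᵀ)) * g3 (th φ (Lm u * (Rm q)ᵀ))) =
      (8 : ℝ) • w G (fun i => φ.f (q i)) := by
  rw [g1_th hu hq, g2_th hu hq, g3_th hu hq]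
  unfold w
  rw [smul_mul_assoc, smul_mul_assoc, mul_smul_comm, mul_smul_comm, mul_smul_comm, smul_smul, smul_smul]
  norm_num

theorem w_nat {B' : Type*} [Ring B'] [Algebra ℝ B'] {G' : GDA B'} (F : GHom G G') (q : Fin 4 → B) :
    F.f (w G q) = w G' (fun i => F.f (q i)) := by
  simp only [w, w1, w2, w3, map_mul, map_add, map_sub, F.f_d]

end Pool.Agent.Lib.MP_ccbbf6_gt.L5.IB
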