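import Pool.Agent.Lib.MP_ccbbf6_gt.L5.EPS07
import Pool.Agent.Lib.MP_ccbbf6_gt.L5.IB2

/-!
# Level 5, INTb, file 3: a map to `SO(4)` is `Lm u (Rm q)^T` with smooth unit quaternions (helper77)

PAPER PROOF. `p = g e_0` (first column), `h = (Lm p)^T g`, so `h e_0 = e_0`, `h` orthogonal of determinant 1 (`det (Lm p) = |p|^4`: explicit or: `det_Lm`).
PART 1 (pointwise, over `ℝ`).
(1) `det_Lm`: `(Lm x).det = (Σ x_i^2)^2` (`Matrix.det_succ_row_zero`, `Fin.sum_univ_succ`, `ring`; or `simp [Matrix.det_succ_row_zero, Lm, Fin.sum_univ_succ, Matrix.submatrix]`; `ring`).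
(2) `hm_col`: `h 0 0 = 1`, `h i 0 = 0`, `h 0 i = 0` (`i ≠ 0`): first column `(Lm p)^T p = (|p|^2, 0, 0, 0)`; first row: columns of `h` are orthonormal.
(3) `hm_mul`: with `c a := fun i => h i a` (column `a`): `qm (c 1) (c 2) = c 3`, `qm (c 2) (c 3) = c 1`, `qm (c 3) (c 1) = c 2`. PROOF: `c a = (0, v_a)`, `v_1, v_2, v_3` orthonormal in `R^3` with determinant 1, so `|v_3 - v_1 x v_2|^2 =
    1 + 1 - 2 det = 0` (`|v_1 x v_2|^2 = |v_1|^2 |v_2|^2 - (v_1 . v_2)^2 = 1`): a sum of squares which is zero (`nlinarith`/`linear_combination`), and `qm (0,v) (0,v') = (- v.v', v x v')`.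
(4) `Qp g = (1/4) Σ_a Z_a`, `Z_a = Lm (c a) * (Rm (e a))^T`; `Z_0 = 1`; `Z_1 Z_2 = Z_3` etc. in both orders, `Z_a^2 = 1` (`Lm_mul`, `Rm_mul`, `LR_comm`, `Lm (-x) = - Lm x`), so `Qp^2 = Qp` and `Z_a Qp = Qp`.
    Symmetric: `Z_a^T = Rm (e a) * (Lm (c a))^T`, for `a ≠ 0`: `(Lm (c a))^T = Lm (cj (c a)) = - Lm (c a)`, `(Rm (e a))^T = - Rm (e a)`. Trace: `trace (Lm x * (Rm y)^T) = 4 x_0 y_0`.
(5) `Qp_fix`: if `Σ q_i^2 = 1` and `Qp g *ᵥ q = q` then `Z_a *ᵥ q = q`, i.e. `c a * q = q * e_a` as quaternions, so `(Lm q * (Rm q)^T) e_a = q e_a q̄ = c a`, i.e. `h = Lm q * (Rm q)^T`, `g = Lm p * h = Lm (qm p q) * (Rm q)^T`.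
(6) `Qp_one`: `Qp 1 = E_00`.
(7) `exists_fix`: `Qp g` is a symmetric idempotent with trace 1, so there is a unit vector `q` with `Qp g *ᵥ q = q` (a column of `Qp g` of maximal norm, normalised: some `Qp g i i > 0` because the trace is 1, and `|column i|^2 = (Q^2)_ii = Q_ii`).
PART 2 (smooth). `Q z := ` the continuous linear map of `Eu 4` with matrix `Qp (g z)` (`Matrix.toEuclideanCLM` or any other way), smooth in `z`; `L0 : R -> Eu 4`, `t ↦ t q_0`, `q_0` from `exists_fix` at `z = 0`; `exists_frame` (EPS07) gives `κ`, `B`;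
    `b z := B z 1 ≠ 0`, `q z := ‖b z‖⁻¹ • b z` smooth; `Qp (g (κ z)) *ᵥ q z = q z`; `u := qm p q` with `p = ` first column of `g ∘ κ`, `Σ u_i^2 = Σ p_i^2 Σ q_i^2 = 1`. The last clause: `Qp 1 = E_00`.
-/

set_option autoImplicit false
set_option maxSynthPendingDepth 3
set_option linter.unusedSectionVars false

open Matrix Function Filter Topology Set
open scoped ContDiff

noncomputable section

namespace Pool.Agent.Lib.MP_ccbbf6_gt.L5.IB

open Geo L4 L4.FR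

/-- basis vectors -/
def eb {R : Type*} [Zero R] [One R] (a : Fin 4) : Fin 4 → R := Pi.single a 1

/-- the part of `g` which fixes `e_0` -/
def hm {A : Type*} [CommRing A] (g : Matrix (Fin 4) (Fin 4) A) : Matrix (Fin 4) (Fin 4) A := (Lm fun i => g i 0)ᵀ * g

/-- the projection on the line of the quaternions `q` with `h x = q x q̄` -/
def Qp (g : Matrix (Fin 4) (Fin 4) ℝ) : Matrix (Fin 4) (Fin 4) ℝ := (1 / 4 : ℝ) • ∑ a, Lm (fun i => hm g i a) * (Rm (eb a))ᵀ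

variable {g : Matrix (Fin 4) (Fin 4) ℝ}

theorem det_Lm (x : Fin 4 → ℝ) : (Lm x).det = (∑ i, x i * x i) ^ 2 := by
  simp [Matrix.det_succ_row_zero, Lm, Fin.sum_univ_succ, Matrix.submatrix, Fin.succAbove]
  ring

private theorem IB3_unit (h1 : gᵀ * g = 1) : ∑ i, g i 0 * g i 0 = 1 := by
  have h := congrFun (congrFun h1 0) 0
  rw [Matrix.mul_apply, Matrix.one_apply_eq] at h
  exact h

private theorem IB3_LL (h1 : gᵀ * g = 1) : (Lm fun i => g i 0) * (Lm fun i => g i 0)ᵀ = 1 :=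
  _root_.mul_eq_one_comm.1 (Lm_orth (IB3_unit h1))

theorem hm_orth (h1 : gᵀ * g = 1) : (hm g)ᵀ * hm g = 1 := by
  unfold hm
  rw [Matrix.transpose_mul, Matrix.transpose_transpose, Matrix.mul_assoc, ← Matrix.mul_assoc (Lm _),
    IB3_LL h1, Matrix.one_mul, h1]

theorem hm_det (h1 : gᵀ * g = 1) (h2 : g.det = 1) : (hm g).det = 1 := by
  unfold hm
  rw [Matrix.det_mul, Matrix.det_transpose, det_Lm, IB3_unit h1, h2]
  norm_num

theorem hm_col (h1 : gᵀ * g = 1) (i : Fin 4) : hm g i 0 = if i = 0 then 1 else 0 := by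
  have hu := IB3_unit h1
  rw [Fin.sum_univ_four] at hu
  unfold hm
  rw [Matrix.mul_apply, Fin.sum_univ_four]
  fin_cases i
  · simp [Lm]
    linarith
  · simp [Lm]
    ring
  · simp [Lm]
    ring
  · simp [Lm]
    ring

theorem hm_row (h1 : gᵀ * g = 1) (i : Fin 4) : hm g 0 i = if i = 0 then 1 else 0 := by
  have h := congrFun (congrFun (hm_orth h1) 0) i
  rw [Matrix.mul_apply, Fin.sum_univ_four] at h
  simp only [Matrix.transpose_apply, hm_col h1] at h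
  rw [Matrix.one_apply] at h
  by_cases hi : i = 0
  · rw [if_pos hi.symm] at h
    rw [if_pos hi]
    simpa using h
  · rw [if_neg (Ne.symm hi)] at h
    rw [if_neg hi]
    simpa using h

/-- the part in `R^3` -/
private def IB3_M (g : Matrix (Fin 4) (Fin 4) ℝ) : Matrix (Fin 3) (Fin 3) ℝ :=
  Matrix.of fun i j => hm g i.succ j.succ

private theorem IB3_M_orth (h1 : gᵀ * g = 1) : (IB3_M g)ᵀ * IB3_M g = 1 := by
  ext i j
  have h := congrFun (congrFun (hm_orth h1) i.succ) j.succ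
  rw [Matrix.mul_apply, Fin.sum_univ_succ] at h
  simp only [Matrix.transpose_apply] at h
  rw [hm_row h1, if_neg (Fin.succ_ne_zero i), zero_mul, zero_add] at h
  rw [Matrix.mul_apply]
  refine Eq.trans ?_ (h.trans ?_)
  · rfl
  · rw [Matrix.one_apply, Matrix.one_apply]
    simp only [Fin.succ_inj]

private theorem IB3_M_det (h1 : gᵀ * g = 1) (h2 : g.det = 1) : (IB3_M g).det = 1 := by
  have h := hm_det h1 h2
  rw [Matrix.det_succ_row_zero, Finset.sum_eq_single 0] at h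
  · rw [hm_row h1, if_pos rfl, Fin.val_zero, pow_zero, one_mul, one_mul] at h
    rw [← h]
    refine congrArg Matrix.det ?_
    ext i j
    rw [Matrix.submatrix_apply, Fin.zero_succAbove]
    rfl
  · intro j _ hj
    rw [hm_row h1, if_neg hj, mul_zero, zero_mul]
  · intro h0
    exact absurd (Finset.mem_univ _) h0

private theorem IB3_adj (h1 : gᵀ * g = 1) (h2 : g.det = 1) : Matrix.adjugate (IB3_M g) = (IB3_M g)ᵀ := by
  have h3 := IB3_M_orth h1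
  have h4 : IB3_M g * (IB3_M g)ᵀ = 1 := _root_.mul_eq_one_comm.1 h3
  have h5 := Matrix.adjugate_mul (IB3_M g)
  rw [IB3_M_det h1 h2, one_smul] at h5
  calc Matrix.adjugate (IB3_M g) = Matrix.adjugate (IB3_M g) * (IB3_M g * (IB3_M g)ᵀ) := by
        rw [h4, Matrix.mul_one]
    _ = (IB3_M g)ᵀ := by rw [← Matrix.mul_assoc, h5, Matrix.one_mul]

/-- the cofactors -/
private theorem IB3_cof (h1 : gᵀ * g = 1) (h2 : g.det = 1) :
    (hm g 2 2 * hm g 3 3 - hm g 2 3 * hm g 3 2 = hm g 1 1 ∧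
     hm g 1 3 * hm g 3 2 - hm g 1 2 * hm g 3 3 = hm g 2 1 ∧
     hm g 1 2 * hm g 2 3 - hm g 1 3 * hm g 2 2 = hm g 3 1) ∧
    (hm g 2 3 * hm g 3 1 - hm g 2 1 * hm g 3 3 = hm g 1 2 ∧
     hm g 1 1 * hm g 3 3 - hm g 1 3 * hm g 3 1 = hm g 2 2 ∧
     hm g 1 3 * hm g 2 1 - hm g 1 1 * hm g 2 3 = hm g 3 2) ∧
    (hm g 2 1 * hm g 3 2 - hm g 2 2 * hm g 3 1 = hm g 1 3 ∧
     hm g 1 2 * hm g 3 1 - hm g 1 1 * hm g 3 2 = hm g 2 3 ∧
     hm g 1 1 * hm g 2 2 - hm g 1 2 * hm g 2 1 = hm g 3 3) := by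
  have h := IB3_adj h1 h2
  rw [Matrix.adjugate_fin_three] at h
  have e : ∀ i j : Fin 3, IB3_M g i j = hm g i.succ j.succ := fun _ _ => rfl
  have h00 := congrFun (congrFun h 0) 0
  have h01 := congrFun (congrFun h 0) 1
  have h02 := congrFun (congrFun h 0) 2
  have h10 := congrFun (congrFun h 1) 0
  have h11 := congrFun (congrFun h 1) 1
  have h12 := congrFun (congrFun h 1) 2
  have h20 := congrFun (congrFun h 2) 0
  have h21 := congrFun (congrFun h 2) 1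
  have h22 := congrFun (congrFun h 2) 2
  simp [e] at h00 h01 h02 h10 h11 h12 h20 h21 h22
  refine ⟨⟨?_, ?_, ?_⟩, ⟨?_, ?_, ?_⟩, ?_, ?_, ?_⟩
  all_goals first
    | linarith [h00, h01, h02, h10, h11, h12, h20, h21, h22]

private theorem IB3_h0 (h1 : gᵀ * g = 1) : hm g 0 1 = 0 ∧ hm g 0 2 = 0 ∧ hm g 0 3 = 0 := by
  refine ⟨?_, ?_, ?_⟩ <;> rw [hm_row h1] <;> simp

private theorem IB3_dot (h1 : gᵀ * g = 1) (a b : Fin 4) (hab : a ≠ b) :
    hm g 0 a * hm g 0 b + hm g 1 a * hm g 1 b + hm g 2 a * hm g 2 b + hm g 3 a * hm g 3 b = 0 := by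
  have h := congrFun (congrFun (hm_orth h1) a) b
  rw [Matrix.mul_apply, Fin.sum_univ_four, Matrix.one_apply_ne hab] at h
  exact h

private theorem IB3_nrm (h1 : gᵀ * g = 1) (a : Fin 4) :
    hm g 0 a * hm g 0 a + hm g 1 a * hm g 1 a + hm g 2 a * hm g 2 a + hm g 3 a * hm g 3 a = 1 := by
  have h := congrFun (congrFun (hm_orth h1) a) a
  rw [Matrix.mul_apply, Fin.sum_univ_four, Matrix.one_apply_eq] at h
  exact h

theorem hm_mul12 (h1 : gᵀ * g = 1) (h2 : g.det = 1) : qm (fun i => hm g i 1) (fun i => hm g i 2) = fun i => hm g i 3 := by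
  obtain ⟨⟨a1, a2, a3⟩, ⟨b1, b2, b3⟩, c1, c2, c3⟩ := IB3_cof h1 h2
  obtain ⟨z1, z2, z3⟩ := IB3_h0 h1
  have d := IB3_dot h1 1 2 (by decide)
  ext i
  fin_cases i
  · show hm g 0 1 * hm g 0 2 - hm g 1 1 * hm g 1 2 - hm g 2 1 * hm g 2 2 - hm g 3 1 * hm g 3 2 = hm g 0 3
    rw [z1, z2] at d ⊢
    rw [z3]
    linarith
  · show hm g 0 1 * hm g 1 2 + hm g 1 1 * hm g 0 2 + hm g 2 1 * hm g 3 2 - hm g 3 1 * hm g 2 2 = hm g 1 3
    rw [z1, z2]
    linarith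
  · show hm g 0 1 * hm g 2 2 - hm g 1 1 * hm g 3 2 + hm g 2 1 * hm g 0 2 + hm g 3 1 * hm g 1 2 = hm g 2 3
    rw [z1, z2]
    linarith
  · show hm g 0 1 * hm g 3 2 + hm g 1 1 * hm g 2 2 - hm g 2 1 * hm g 1 2 + hm g 3 1 * hm g 0 2 = hm g 3 3
    rw [z1, z2]
    linarith

theorem hm_mul23 (h1 : gᵀ * g = 1) (h2 : g.det = 1) : qm (fun i => hm g i 2) (fun i => hm g i 3) = fun i => hm g i 1 := by
  obtain ⟨⟨a1, a2, a3⟩, ⟨b1, b2, b3⟩, c1, c2, c3⟩ := IB3_cof h1 h2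
  obtain ⟨z1, z2, z3⟩ := IB3_h0 h1
  have d := IB3_dot h1 2 3 (by decide)
  ext i
  fin_cases i
  · show hm g 0 2 * hm g 0 3 - hm g 1 2 * hm g 1 3 - hm g 2 2 * hm g 2 3 - hm g 3 2 * hm g 3 3 = hm g 0 1
    rw [z2, z3] at d ⊢
    rw [z1]
    linarith
  · show hm g 0 2 * hm g 1 3 + hm g 1 2 * hm g 0 3 + hm g 2 2 * hm g 3 3 - hm g 3 2 * hm g 2 3 = hm g 1 1
    rw [z2, z3]
    linarith
  · show hm g 0 2 * hm g 2 3 - hm g 1 2 * hm g 3 3 + hm g 2 2 * hm g 0 3 + hm g 3 2 * hm g 1 3 = hm g 2 1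
    rw [z2, z3]
    linarith
  · show hm g 0 2 * hm g 3 3 + hm g 1 2 * hm g 2 3 - hm g 2 2 * hm g 1 3 + hm g 3 2 * hm g 0 3 = hm g 3 1
    rw [z2, z3]
    linarith

theorem hm_mul31 (h1 : gᵀ * g = 1) (h2 : g.det = 1) : qm (fun i => hm g i 3) (fun i => hm g i 1) = fun i => hm g i 2 := by
  obtain ⟨⟨a1, a2, a3⟩, ⟨b1, b2, b3⟩, c1, c2, c3⟩ := IB3_cof h1 h2
  obtain ⟨z1, z2, z3⟩ := IB3_h0 h1
  have d := IB3_dot h1 3 1 (by decide)
  ext i
  fin_cases i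
  · show hm g 0 3 * hm g 0 1 - hm g 1 3 * hm g 1 1 - hm g 2 3 * hm g 2 1 - hm g 3 3 * hm g 3 1 = hm g 0 2
    rw [z1, z3] at d ⊢
    rw [z2]
    linarith
  · show hm g 0 3 * hm g 1 1 + hm g 1 3 * hm g 0 1 + hm g 2 3 * hm g 3 1 - hm g 3 3 * hm g 2 1 = hm g 1 2
    rw [z1, z3]
    linarith
  · show hm g 0 3 * hm g 2 1 - hm g 1 3 * hm g 3 1 + hm g 2 3 * hm g 0 1 + hm g 3 3 * hm g 1 1 = hm g 2 2
    rw [z1, z3]
    linarith
  · show hm g 0 3 * hm g 3 1 + hm g 1 3 * hm g 2 1 - hm g 2 3 * hm g 1 1 + hm g 3 3 * hm g 0 1 = hm g 3 2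
    rw [z1, z3]
    linarith

/-- imaginary quaternions anticommute up to the scalar product -/
private theorem IB3_anti {x y z : Fin 4 → ℝ} (hx : x 0 = 0) (hy : y 0 = 0) (hz : z 0 = 0) (h : qm x y = z) :
    qm y x = -z := by
  have e0 : x 0 * y 0 - x 1 * y 1 - x 2 * y 2 - x 3 * y 3 = z 0 := congrFun h 0
  have e1 : x 0 * y 1 + x 1 * y 0 + x 2 * y 3 - x 3 * y 2 = z 1 := congrFun h 1
  have e2 : x 0 * y 2 - x 1 * y 3 + x 2 * y 0 + x 3 * y 1 = z 2 := congrFun h 2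
  have e3 : x 0 * y 3 + x 1 * y 2 - x 2 * y 1 + x 3 * y 0 = z 3 := congrFun h 3
  rw [hx, hy] at e0 e1 e2 e3
  rw [hz] at e0
  ext i
  fin_cases i
  · show y 0 * x 0 - y 1 * x 1 - y 2 * x 2 - y 3 * x 3 = -z 0
    rw [hx, hy, hz]
    linarith
  · show y 0 * x 1 + y 1 * x 0 + y 2 * x 3 - y 3 * x 2 = -z 1
    rw [hx, hy]
    linarith
  · show y 0 * x 2 - y 1 * x 3 + y 2 * x 0 + y 3 * x 1 = -z 2
    rw [hx, hy]
    linarith
  · show y 0 * x 3 + y 1 * x 2 - y 2 * x 1 + y 3 * x 0 = -z 3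
    rw [hx, hy]
    linarith

private theorem IB3_sq {x : Fin 4 → ℝ} (hx : x 0 = 0) (h : x 0 * x 0 + x 1 * x 1 + x 2 * x 2 + x 3 * x 3 = 1) :
    qm x x = -q1 := by
  rw [hx] at h
  ext i
  fin_cases i
  · show x 0 * x 0 - x 1 * x 1 - x 2 * x 2 - x 3 * x 3 = -1
    rw [hx]
    linarith
  · show x 0 * x 1 + x 1 * x 0 + x 2 * x 3 - x 3 * x 2 = -0
    rw [hx]
    ring
  · show x 0 * x 2 - x 1 * x 3 + x 2 * x 0 + x 3 * x 1 = -0
    rw [hx]
    ring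
  · show x 0 * x 3 + x 1 * x 2 - x 2 * x 1 + x 3 * x 0 = -0
    rw [hx]
    ring

private theorem IB3_Lneg (x : Fin 4 → ℝ) : Lm (-x) = -Lm x := by
  ext i j
  fin_cases i <;> fin_cases j <;> simp [Lm]

private theorem IB3_Rneg (x : Fin 4 → ℝ) : Rm (-x) = -Rm x := by
  ext i j
  fin_cases i <;> fin_cases j <;> simp [Rm]

/-- the involutions -/
private def IB3_Z (g : Matrix (Fin 4) (Fin 4) ℝ) (a : Fin 4) : Matrix (Fin 4) (Fin 4) ℝ :=
  Lm (fun i => hm g i a) * (Rm (eb a))ᵀ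

private theorem IB3_ZZ (a b : Fin 4) : IB3_Z g a * IB3_Z g b =
    Lm (qm (fun i => hm g i a) (fun i => hm g i b)) * (Rm (qm (eb a) (eb b)))ᵀ := by
  unfold IB3_Z
  rw [← Lm_mul, ← Rm_mul, Matrix.transpose_mul, Rm_tr (eb a)]
  rw [Matrix.mul_assoc, ← Matrix.mul_assoc (Rm _) (Lm _), ← LR_comm, Matrix.mul_assoc, Matrix.mul_assoc]

private theorem IB3_c0 (h1 : gᵀ * g = 1) : (fun i => hm g i 0) = (q1 : Fin 4 → ℝ) := by
  ext i
  rw [hm_col h1]
  fin_cases i <;> simp [q1]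

private theorem IB3_e0 : (eb 0 : Fin 4 → ℝ) = q1 := by
  ext i
  fin_cases i <;> simp [q1, eb]

private theorem IB3_ev (a : Fin 4) (i : Fin 4) : (eb a : Fin 4 → ℝ) i = if i = a then 1 else 0 := by
  unfold eb
  rw [Pi.single_apply]

private theorem IB3_e12 : qm (eb 1 : Fin 4 → ℝ) (eb 2) = eb 3 := by
  ext i
  fin_cases i <;> simp [qm, IB3_ev]

private theorem IB3_e23 : qm (eb 2 : Fin 4 → ℝ) (eb 3) = eb 1 := by
  ext i
  fin_cases i <;> simp [qm, IB3_ev]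

private theorem IB3_e31 : qm (eb 3 : Fin 4 → ℝ) (eb 1) = eb 2 := by
  ext i
  fin_cases i <;> simp [qm, IB3_ev]

private theorem IB3_Z0 (h1 : gᵀ * g = 1) : IB3_Z g 0 = 1 := by
  unfold IB3_Z
  rw [IB3_c0 h1, IB3_e0, Lm_one, Rm_one, Matrix.transpose_one, Matrix.one_mul]

private theorem IB3_neg (x y : Fin 4 → ℝ) : Lm (-x) * (Rm (-y))ᵀ = Lm x * (Rm y)ᵀ := by
  rw [IB3_Lneg, IB3_Rneg, Matrix.transpose_neg, neg_mul_neg]

/-- the products of two different involutions -/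
private theorem IB3_Zab (h1 : gᵀ * g = 1) {a b c : Fin 4} (ha : a ≠ 0) (hb : b ≠ 0) (hc : c ≠ 0)
    (h : qm (fun i => hm g i a) (fun i => hm g i b) = fun i => hm g i c)
    (he : qm (eb a : Fin 4 → ℝ) (eb b) = eb c) :
    IB3_Z g a * IB3_Z g b = IB3_Z g c ∧ IB3_Z g b * IB3_Z g a = IB3_Z g c := by
  have x0 : ∀ a : Fin 4, a ≠ 0 → hm g 0 a = 0 := fun a ha => by rw [hm_row h1, if_neg ha]
  have y0 : ∀ a : Fin 4, a ≠ 0 → (eb a : Fin 4 → ℝ) 0 = 0 := fun a ha => by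
    rw [IB3_ev, if_neg (Ne.symm ha)]
  constructor
  · rw [IB3_ZZ, h, he]
    rfl
  · rw [IB3_ZZ, IB3_anti (x0 a ha) (x0 b hb) (x0 c hc) h, IB3_anti (y0 a ha) (y0 b hb) (y0 c hc) he,
      IB3_neg]
    rfl

private theorem IB3_Zaa (h1 : gᵀ * g = 1) {a : Fin 4} (ha : a ≠ 0) : IB3_Z g a * IB3_Z g a = 1 := by
  have x0 : hm g 0 a = 0 := by rw [hm_row h1, if_neg ha]
  have y0 : (eb a : Fin 4 → ℝ) 0 = 0 := by rw [IB3_ev, if_neg (Ne.symm ha)]
  have y1 : (eb a : Fin 4 → ℝ) 0 * eb a 0 + eb a 1 * eb a 1 + eb a 2 * eb a 2 + eb a 3 * eb a 3 = (1 : ℝ) := by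
    fin_cases a <;> simp [IB3_ev]
  rw [IB3_ZZ, IB3_sq x0 (IB3_nrm h1 a), IB3_sq y0 y1, IB3_neg, Lm_one, Rm_one, Matrix.transpose_one,
    Matrix.one_mul]

private theorem IB3_Qp : Qp g = (1 / 4 : ℝ) • (IB3_Z g 0 + IB3_Z g 1 + IB3_Z g 2 + IB3_Z g 3) := by
  unfold Qp IB3_Z
  rw [Fin.sum_univ_four]

/-- every involution fixes the projection -/
private theorem IB3_ZQ (h1 : gᵀ * g = 1) (h2 : g.det = 1) (a : Fin 4) : IB3_Z g a * Qp g = Qp g := by
  obtain ⟨e12, e21⟩ := IB3_Zab h1 (by decide) (by decide) (by decide) (hm_mul12 h1 h2) IB3_e12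
  obtain ⟨e23, e32⟩ := IB3_Zab h1 (by decide) (by decide) (by decide) (hm_mul23 h1 h2) IB3_e23
  obtain ⟨e31, e13⟩ := IB3_Zab h1 (by decide) (by decide) (by decide) (hm_mul31 h1 h2) IB3_e31
  have e11 := IB3_Zaa h1 (a := 1) (by decide)
  have e22 := IB3_Zaa h1 (a := 2) (by decide)
  have e33 := IB3_Zaa h1 (a := 3) (by decide)
  have e0 := IB3_Z0 h1
  rw [IB3_Qp, Matrix.mul_smul]
  refine congrArg (fun M => (1 / 4 : ℝ) • M) ?_
  rw [Matrix.mul_add, Matrix.mul_add, Matrix.mul_add]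
  fin_cases a
  · show IB3_Z g 0 * IB3_Z g 0 + IB3_Z g 0 * IB3_Z g 1 + IB3_Z g 0 * IB3_Z g 2 + IB3_Z g 0 * IB3_Z g 3 = _
    rw [e0, Matrix.one_mul, Matrix.one_mul, Matrix.one_mul, Matrix.one_mul]
  · show IB3_Z g 1 * IB3_Z g 0 + IB3_Z g 1 * IB3_Z g 1 + IB3_Z g 1 * IB3_Z g 2 + IB3_Z g 1 * IB3_Z g 3 = _
    rw [e0, Matrix.mul_one, e11, e12, e13]
    abel
  · show IB3_Z g 2 * IB3_Z g 0 + IB3_Z g 2 * IB3_Z g 1 + IB3_Z g 2 * IB3_Z g 2 + IB3_Z g 2 * IB3_Z g 3 = _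
    rw [e0, Matrix.mul_one, e21, e22, e23]
    abel
  · show IB3_Z g 3 * IB3_Z g 0 + IB3_Z g 3 * IB3_Z g 1 + IB3_Z g 3 * IB3_Z g 2 + IB3_Z g 3 * IB3_Z g 3 = _
    rw [e0, Matrix.mul_one, e31, e32, e33]
    abel

theorem Qp_idem (h1 : gᵀ * g = 1) (h2 : g.det = 1) : Qp g * Qp g = Qp g := by
  have h : Qp g * Qp g = (1 / 4 : ℝ) • (IB3_Z g 0 * Qp g + IB3_Z g 1 * Qp g + IB3_Z g 2 * Qp g +
      IB3_Z g 3 * Qp g) := by
    conv_lhs => rw [IB3_Qp]
    rw [Matrix.smul_mul, Matrix.add_mul, Matrix.add_mul, Matrix.add_mul, ← IB3_Qp]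
  rw [h, IB3_ZQ h1 h2, IB3_ZQ h1 h2, IB3_ZQ h1 h2, IB3_ZQ h1 h2]
  ext i j
  simp only [Matrix.smul_apply, Matrix.add_apply, smul_eq_mul]
  ring

private theorem IB3_Zsym (h1 : gᵀ * g = 1) (a : Fin 4) : (IB3_Z g a)ᵀ = IB3_Z g a := by
  by_cases ha : a = 0
  · rw [ha, IB3_Z0 h1, Matrix.transpose_one]
  · have x0 : hm g 0 a = 0 := by rw [hm_row h1, if_neg ha]
    have y0 : (eb a : Fin 4 → ℝ) 0 = 0 := by rw [IB3_ev, if_neg (Ne.symm ha)]
    have hc : ∀ x : Fin 4 → ℝ, x 0 = 0 → cj x = -x := by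
      intro x hx
      ext i
      fin_cases i <;> simp [cj, hx]
    unfold IB3_Z
    rw [Matrix.transpose_mul, Matrix.transpose_transpose, Lm_tr, Rm_tr, hc _ x0, hc _ y0, IB3_Lneg, IB3_Rneg,
      Matrix.mul_neg, Matrix.mul_neg, LR_comm]

theorem Qp_sym (h1 : gᵀ * g = 1) (h2 : g.det = 1) : (Qp g)ᵀ = Qp g := by
  rw [IB3_Qp, Matrix.transpose_smul, Matrix.transpose_add, Matrix.transpose_add, Matrix.transpose_add,
    IB3_Zsym h1, IB3_Zsym h1, IB3_Zsym h1, IB3_Zsym h1]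

private theorem IB3_tr (x y : Fin 4 → ℝ) : trace (Lm x * (Rm y)ᵀ) = 4 * (x 0 * y 0) := by
  rw [Matrix.trace, Fin.sum_univ_four]
  simp only [Matrix.diag_apply, Matrix.mul_apply, Fin.sum_univ_four, Matrix.transpose_apply]
  simp [Lm, Rm]
  ring

theorem Qp_tr (h1 : gᵀ * g = 1) (h2 : g.det = 1) : trace (Qp g) = 1 := by
  rw [IB3_Qp, Matrix.trace_smul, Matrix.trace_add, Matrix.trace_add, Matrix.trace_add]
  unfold IB3_Z
  rw [IB3_tr, IB3_tr, IB3_tr, IB3_tr, hm_row h1, hm_row h1, hm_row h1, hm_row h1, IB3_ev, IB3_ev, IB3_ev, IB3_ev]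
  simp

theorem Qp_one : Qp 1 = Matrix.of fun i j => if i = 0 ∧ j = 0 then 1 else 0 := by
  have hh : hm (1 : Matrix (Fin 4) (Fin 4) ℝ) = 1 := by
    unfold hm
    have e : (fun i => (1 : Matrix (Fin 4) (Fin 4) ℝ) i 0) = q1 := by
      ext i
      fin_cases i <;> simp [q1, Matrix.one_apply]
    rw [e, Lm_one, Matrix.transpose_one, Matrix.one_mul]
  have he : ∀ a : Fin 4, (fun i => hm (1 : Matrix (Fin 4) (Fin 4) ℝ) i a) = eb a := by
    intro a
    ext i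
    rw [hh, IB3_ev, Matrix.one_apply]
  rw [Qp]
  simp only [he]
  rw [Fin.sum_univ_four]
  ext i j
  simp only [Matrix.smul_apply, Matrix.add_apply, Matrix.mul_apply, Fin.sum_univ_four, Matrix.transpose_apply,
    Matrix.of_apply, smul_eq_mul]
  fin_cases i <;> fin_cases j <;> simp [Lm, Rm, IB3_ev] <;> norm_num

theorem Qp_fix (h1 : gᵀ * g = 1) (h2 : g.det = 1) {q : Fin 4 → ℝ} (hq : ∑ i, q i * q i = 1) (hQ : Qp g *ᵥ q = q) :
    g = Lm (qm (fun i => g i 0) q) * (Rm q)ᵀ := by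
  have hZ : ∀ a, IB3_Z g a *ᵥ q = q := by
    intro a
    conv_lhs => rw [← hQ]
    rw [Matrix.mulVec_mulVec, IB3_ZQ h1 h2, hQ]
  have hassoc : ∀ x y z : Fin 4 → ℝ, qm (qm x y) z = qm x (qm y z) := by
    intro x y z
    ext i
    fin_cases i <;> simp [qm] <;> ring
  have hqq : qm q (cj q) = q1 := by
    rw [Fin.sum_univ_four] at hq
    ext i
    fin_cases i
    · simp [qm, cj, q1]
      linarith
    · simp [qm, cj, q1]
      ring
    · simp [qm, cj, q1]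
      ring
    · simp [qm, cj, q1]
      ring
  have hone : ∀ x : Fin 4 → ℝ, qm x q1 = x := by
    intro x
    ext i
    fin_cases i <;> simp [qm, q1]
  have hee : ∀ a : Fin 4, qm (cj (eb a)) (eb a) = (q1 : Fin 4 → ℝ) := by
    intro a
    ext i
    fin_cases a <;> fin_cases i <;> simp [qm, cj, q1, IB3_ev]
  have hcol : ∀ a : Fin 4, (fun i => hm g i a) = qm q (qm (eb a) (cj q)) := by
    intro a
    have e1 : qm (fun i => hm g i a) (qm q (cj (eb a))) = q := by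
      have e2 := hZ a
      unfold IB3_Z at e2
      rw [← Matrix.mulVec_mulVec, Lm_mulVec, Rm_tr, Rm_mulVec] at e2
      exact e2
    have e3 : qm (fun i => hm g i a) q = qm q (eb a) := by
      calc qm (fun i => hm g i a) q = qm (fun i => hm g i a) (qm q (qm (cj (eb a)) (eb a))) := by
            rw [hee, hone]
        _ = qm (qm (fun i => hm g i a) (qm q (cj (eb a)))) (eb a) := by rw [hassoc, hassoc]
        _ = qm q (eb a) := by rw [e1]
    calc (fun i => hm g i a) = qm (fun i => hm g i a) (qm q (cj q)) := by rw [hqq, hone]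
      _ = qm (qm (fun i => hm g i a) q) (cj q) := (hassoc _ _ _).symm
      _ = qm q (qm (eb a) (cj q)) := by rw [e3, hassoc]
  have hh : hm g = Lm q * (Rm q)ᵀ := by
    ext i a
    have e4 : (Lm q * (Rm q)ᵀ) i a = ((Lm q * (Rm q)ᵀ) *ᵥ eb a) i := by
      unfold eb
      rw [Matrix.mulVec_single_one]
      rfl
    rw [e4, ← Matrix.mulVec_mulVec, Lm_mulVec, Rm_tr, Rm_mulVec, ← hcol a]
  calc g = (Lm fun i => g i 0) * (Lm fun i => g i 0)ᵀ * g := by rw [IB3_LL h1, Matrix.one_mul]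
    _ = (Lm fun i => g i 0) * hm g := by
        rw [Matrix.mul_assoc]
        rfl
    _ = Lm (qm (fun i => g i 0) q) * (Rm q)ᵀ := by rw [hh, ← Matrix.mul_assoc, Lm_mul]

theorem exists_fix (h1 : gᵀ * g = 1) (h2 : g.det = 1) : ∃ q : Fin 4 → ℝ, ∑ i, q i * q i = 1 ∧ Qp g *ᵥ q = q := by
  obtain ⟨a, ha⟩ : ∃ a, 0 < Qp g a a := by
    by_contra h
    have h3 : ∀ a, Qp g a a ≤ 0 := fun a => not_lt.1 fun h' => h ⟨a, h'⟩
    have h4 := Qp_tr h1 h2
    have h5 : trace (Qp g) ≤ 0 := Finset.sum_nonpos fun a _ => h3 a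
    linarith
  have hid := Qp_idem h1 h2
  have hsy := Qp_sym h1 h2
  have hnorm : ∑ k, Qp g k a * Qp g k a = Qp g a a := by
    have e := congrFun (congrFun hid a) a
    rw [Matrix.mul_apply] at e
    rw [← e]
    refine Finset.sum_congr rfl fun k _ => ?_
    have e2 : Qp g a k = Qp g k a := congrFun (congrFun hsy k) a
    rw [e2]
  have hfix : Qp g *ᵥ (fun k => Qp g k a) = fun k => Qp g k a := by
    ext k
    exact congrFun (congrFun hid k) a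
  have hs : Real.sqrt (Qp g a a) * Real.sqrt (Qp g a a) = Qp g a a := Real.mul_self_sqrt ha.le
  have hs0 : Real.sqrt (Qp g a a) ≠ 0 := (Real.sqrt_pos.2 ha).ne'
  refine ⟨(Real.sqrt (Qp g a a))⁻¹ • fun k => Qp g k a, ?_, ?_⟩
  · have e : ∀ k, ((Real.sqrt (Qp g a a))⁻¹ • fun k => Qp g k a) k * ((Real.sqrt (Qp g a a))⁻¹ • fun k => Qp g k a) k =
        (Qp g a a)⁻¹ * (Qp g k a * Qp g k a) := by
      intro k
      show (Real.sqrt (Qp g a a))⁻¹ * Qp g k a * ((Real.sqrt (Qp g a a))⁻¹ * Qp g k a) = _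
      conv_rhs => rw [← hs]
      rw [mul_inv]
      ring
    rw [Finset.sum_congr rfl fun k _ => e k, ← Finset.mul_sum, hnorm, inv_mul_cancel₀ ha.ne']
  · rw [Matrix.mulVec_smul, hfix]

private theorem IB3_cd_Lm {E : Type*} [NormedAddCommGroup E] [NormedSpace ℝ E] {v : E → Fin 4 → ℝ}
    (hv : ∀ i, ContDiff ℝ ∞ fun x => v x i) (i j : Fin 4) : ContDiff ℝ ∞ fun x => Lm (v x) i j := by
  fin_cases i <;> fin_cases j <;> first | exact hv _ | exact (hv _).neg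

private theorem IB3_cd_mul {E : Type*} [NormedAddCommGroup E] [NormedSpace ℝ E] {a b : E → Matrix (Fin 4) (Fin 4) ℝ}
    (ha : ∀ i j, ContDiff ℝ ∞ fun x => a x i j) (hb : ∀ i j, ContDiff ℝ ∞ fun x => b x i j) (i j : Fin 4) :
    ContDiff ℝ ∞ fun x => (a x * b x) i j := by
  simp only [Matrix.mul_apply]
  exact ContDiff.sum fun l _ => (ha i l).mul (hb l j)

theorem contDiff_Qp {E : Type*} [NormedAddCommGroup E] [NormedSpace ℝ E] {f : E → Matrix (Fin 4) (Fin 4) ℝ}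
    (hf : ∀ i j, ContDiff ℝ ∞ fun x => f x i j) (i j : Fin 4) : ContDiff ℝ ∞ fun x => Qp (f x) i j := by
  have h1 : ∀ i j, ContDiff ℝ ∞ fun x => hm (f x) i j := by
    intro i j
    unfold hm
    refine IB3_cd_mul (fun a b => ?_) hf i j
    exact IB3_cd_Lm (fun i => hf i 0) b a
  have h2 : ∀ a i j, ContDiff ℝ ∞ fun x =>
      (Lm (fun i => hm (f x) i a) * (Rm (eb a : Fin 4 → ℝ))ᵀ : Matrix (Fin 4) (Fin 4) ℝ) i j := by
    intro a i j
    exact IB3_cd_mul (a := fun x => Lm (fun i => hm (f x) i a)) (b := fun _ => (Rm (eb a : Fin 4 → ℝ))ᵀ)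
      (fun i j => IB3_cd_Lm (fun i => h1 i a) i j) (fun i j => contDiff_const) i j
  unfold Qp
  simp only [Matrix.smul_apply, Matrix.sum_apply]
  exact (ContDiff.sum fun a _ => h2 a i j).const_smul _

private theorem IB3_Lm_map {R S : Type*} [Ring R] [Ring S] (f : R →+* S) (x : Fin 4 → R) :
    (Lm x).map f = Lm fun i => f (x i) := by
  ext i j
  fin_cases i <;> fin_cases j <;> simp [Lm]

private theorem IB3_Rm_map {R S : Type*} [Ring R] [Ring S] (f : R →+* S) (x : Fin 4 → R) :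
    (Rm x).map f = Rm fun i => f (x i) := by
  ext i j
  fin_cases i <;> fin_cases j <;> simp [Rm]

private theorem IB3_qm_map {R S : Type*} [Ring R] [Ring S] (f : R →+* S) (x y : Fin 4 → R) (i : Fin 4) :
    f (qm x y i) = qm (fun i => f (x i)) (fun i => f (y i)) i := by
  fin_cases i <;> simp [qm]

private theorem IB3_qm_norm {A : Type*} [CommRing A] (x y : Fin 4 → A) :
    ∑ i, qm x y i * qm x y i = (∑ i, x i * x i) * ∑ i, y i * y i := by
  simp only [Fin.sum_univ_four, qm, Matrix.cons_val_zero, Matrix.cons_val_one, Matrix.cons_val]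
  ring

/-- evaluation at a point -/
private def IB3_evz {k : ℕ} (z : V k) : Cs k →+* ℝ := (Pi.evalRingHom (fun _ : V k => ℝ) z).comp (Cs k).val.toRingHom

private theorem IB3_evz_apply {k : ℕ} (z : V k) (f : Cs k) : IB3_evz z f = (f : V k → ℝ) z := rfl

private theorem IB3_frame {k : ℕ} {Qm : V k → Matrix (Fin 4) (Fin 4) ℝ} (hs : ∀ i j, ContDiff ℝ ∞ fun z => Qm z i j)
    (hid : ∀ z, Qm z * Qm z = Qm z) {q0 : Fin 4 → ℝ} (hq0 : ∑ i, q0 i * q0 i = 1) (h0 : Qm 0 *ᵥ q0 = q0) :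
    ∃ (κ : FR.Sm k k) (q : Fin 4 → Cs k), (∀ z ∈ Icc (0 : V k) 1, ∀ᶠ w in 𝓝 z, κ w = w) ∧
      (∀ z, ∑ i, (q i : V k → ℝ) z * (q i : V k → ℝ) z = 1) ∧
      ∀ z, (Qm (κ z) *ᵥ fun i => (q i : V k → ℝ) z) = fun i => (q i : V k → ℝ) z := by
  let Q : V k → (Fin 4 → ℝ) →L[ℝ] (Fin 4 → ℝ) := fun z => LinearMap.toContinuousLinearMap (Matrix.mulVecLin (Qm z))
  have hQa : ∀ z y, Q z y = Qm z *ᵥ y := fun z y => rfl
  have hQ : ContDiff ℝ ∞ Q := by
    rw [contDiff_clm_apply_iff]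
    intro y
    refine contDiff_pi.2 fun i => ?_
    change ContDiff ℝ ∞ fun z => ∑ j, Qm z i j * y j
    exact ContDiff.sum fun j _ => (hs i j).mul contDiff_const
  have hQi : ∀ z, (Q z).comp (Q z) = Q z := by
    intro z
    refine ContinuousLinearMap.ext fun y => ?_
    rw [ContinuousLinearMap.comp_apply, hQa, hQa, Matrix.mulVec_mulVec, hid]
  let L0 : ℝ →L[ℝ] (Fin 4 → ℝ) := ContinuousLinearMap.toSpanSingleton ℝ q0
  have hL0 : ∀ t, L0 t = t • q0 := fun t => rfl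
  have hQ0 : (Q 0).comp L0 = L0 := by
    refine ContinuousLinearMap.ext fun t => ?_
    rw [ContinuousLinearMap.comp_apply, hQa, hL0, Matrix.mulVec_smul, h0]
  have hinj : ∀ t, L0 t = 0 → t = 0 := by
    intro t ht
    rw [hL0] at ht
    rcases smul_eq_zero.1 ht with h | h
    · exact h
    · rw [h] at hq0
      simp at hq0
  obtain ⟨κ, B, hκ, hB, hB0, hQB, hBi⟩ := exists_frame hQ hQi hQ0 hinj
  have hb : ∀ i, ContDiff ℝ ∞ fun z => B z 1 i := by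
    intro i
    have h1 : ContDiff ℝ ∞ fun z => B z (1 : ℝ) := hB.clm_apply contDiff_const
    exact contDiff_pi.1 h1 i
  set N : V k → ℝ := fun z => ∑ i, B z 1 i * B z 1 i with hN
  have hNs : ContDiff ℝ ∞ N := ContDiff.sum fun i _ => (hb i).mul (hb i)
  have hN0 : ∀ z, 0 < N z := by
    intro z
    have h1 : 0 ≤ N z := Finset.sum_nonneg fun i _ => mul_self_nonneg _
    rcases h1.lt_or_eq with h | h
    · exact h
    · exfalso
      have h2 : ∀ i, B z 1 i = 0 := by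
        intro i
        have h3 := (Finset.sum_eq_zero_iff_of_nonneg (fun i _ => mul_self_nonneg (B z 1 i))).1 h.symm i (Finset.mem_univ i)
        exact mul_self_eq_zero.1 h3
      exact one_ne_zero (hBi z 1 (funext h2))
  have hsq : ContDiff ℝ ∞ fun z => √(N z) := hNs.sqrt fun z => (hN0 z).ne'
  refine ⟨κ, fun i => mkC (fun z => (√(N z))⁻¹ * B z 1 i)
    ((hsq.inv fun z => (Real.sqrt_pos.2 (hN0 z)).ne').mul (hb i)), hκ, fun z => ?_, fun z => ?_⟩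
  · change ∑ i, ((√(N z))⁻¹ * B z 1 i) * ((√(N z))⁻¹ * B z 1 i) = 1
    have h1 : ∀ i, ((√(N z))⁻¹ * B z 1 i) * ((√(N z))⁻¹ * B z 1 i) = (N z)⁻¹ * (B z 1 i * B z 1 i) := by
      intro i
      have h2 : (√(N z))⁻¹ * (√(N z))⁻¹ = (N z)⁻¹ := by
        rw [← mul_inv, Real.mul_self_sqrt (hN0 z).le]
      rw [← h2]
      ring
    simp only [h1]
    rw [← Finset.mul_sum]
    exact inv_mul_cancel₀ (hN0 z).ne'
  · have h1 : Qm (κ z) *ᵥ B z 1 = B z 1 := by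
      rw [← hQa, ← ContinuousLinearMap.comp_apply, hQB]
    change (Qm (κ z) *ᵥ fun i => (√(N z))⁻¹ * B z 1 i) = fun i => (√(N z))⁻¹ * B z 1 i
    have h2 : (fun i => (√(N z))⁻¹ * B z 1 i) = (√(N z))⁻¹ • B z 1 := rfl
    rw [h2, Matrix.mulVec_smul, h1]

/-- **the lift** -/
theorem exists_lift {k : ℕ} (g : Matrix (Fin 4) (Fin 4) (Cs k)) (h1 : gᵀ * g = 1) (h2 : g.det = 1) :
    ∃ (κ : FR.Sm k k) (u q : Fin 4 → Cs k), (∀ z ∈ Icc (0 : V k) 1, ∀ᶠ w in 𝓝 z, κ w = w) ∧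
      ∑ i, u i * u i = 1 ∧ ∑ i, q i * q i = 1 ∧ g.map κ.pull = Lm u * (Rm q)ᵀ ∧
      ∀ z, (∀ i j, (g i j : V k → ℝ) (κ z) = if i = j then 1 else 0) → ∀ i, i ≠ 0 → (q i : V k → ℝ) z = 0 := by
  have a1 : ∀ z, (g.map (IB3_evz z))ᵀ * g.map (IB3_evz z) = 1 := by
    intro z
    have := congrArg (fun M => M.map (IB3_evz z)) h1
    simpa only [Matrix.map_mul, Matrix.transpose_map, Matrix.map_one _ (map_zero (IB3_evz z)) (map_one (IB3_evz z))] using this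
  have a2 : ∀ z, (g.map (IB3_evz z)).det = 1 := by
    intro z
    have h3 := RingHom.map_det (IB3_evz z) g
    rw [h2, map_one] at h3
    exact h3.symm
  obtain ⟨q0, hq0, hq0'⟩ := exists_fix (a1 0) (a2 0)
  obtain ⟨κ, q, hκ, hq, hQ⟩ := IB3_frame (k := k) (Qm := fun z => Qp (g.map (IB3_evz z)))
    (fun i j => contDiff_Qp (fun i j => Cs_smooth (g i j)) i j) (fun z => Qp_idem (a1 z) (a2 z)) hq0 hq0'
  have hqq : ∑ i, q i * q i = 1 := by
    refine Cs_ext fun z => ?_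
    have h3 : ((∑ i, q i * q i : Cs k) : V k → ℝ) z = ∑ i, (q i : V k → ℝ) z * (q i : V k → ℝ) z := by
      rw [← IB3_evz_apply, map_sum]
      rfl
    rw [h3, hq z]
    rfl
  have hpp : ∑ i, κ.pull (g i 0) * κ.pull (g i 0) = 1 := by
    have h3 : ∑ i, g i 0 * g i 0 = 1 := by
      have := congrFun (congrFun h1 0) 0
      rw [Matrix.mul_apply, Matrix.one_apply_eq] at this
      exact this
    have h4 := congrArg κ.pull h3
    rw [map_sum, map_one] at h4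
    simpa only [map_mul] using h4
  refine ⟨κ, qm (fun i => κ.pull (g i 0)) q, q, hκ, ?_, hqq, ?_, ?_⟩
  · rw [IB3_qm_norm, hqq, hpp, mul_one]
  · ext i j z
    have h3 := Qp_fix (a1 (κ z)) (a2 (κ z)) (hq z) (hQ z)
    have h4 : ∀ M : Matrix (Fin 4) (Fin 4) (Cs k), (M i j : V k → ℝ) z = (M.map (IB3_evz z)) i j := fun M => rfl
    have h5 : (Lm (qm (fun i => κ.pull (g i 0)) q) * (Rm q)ᵀ).map (IB3_evz z) =
        Lm (qm (fun i => g.map (IB3_evz (κ z)) i 0) fun i => (q i : V k → ℝ) z) * (Rm fun i => (q i : V k → ℝ) z)ᵀ := by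
      rw [Matrix.map_mul, IB3_Lm_map, Matrix.transpose_map, IB3_Rm_map]
      congr 2
      funext i
      rw [IB3_qm_map]
      rfl
    rw [h4 (Lm _ * _), h5, ← h3]
    rfl
  · intro z hz i hi
    have h3 : g.map (IB3_evz (κ z)) = 1 := by
      ext a b
      rw [Matrix.map_apply, IB3_evz_apply, hz, Matrix.one_apply]
    have h4 := congrFun (hQ z) i
    rw [h3, Qp_one] at h4
    rw [← h4]
    rw [Matrix.mulVec, dotProduct]
    refine Finset.sum_eq_zero fun j _ => ?_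
    rw [Matrix.of_apply, if_neg (fun h => hi h.1), zero_mul]

end Pool.Agent.Lib.MP_ccbbf6_gt.L5.IB
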