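import Pool.Agent.Lib.MP_ccbbf6_gt.L5.EU5

/-!
# Level 5, INTb, file 0: the differential algebra `Fm k` (helper77)
-/

set_option autoImplicit false
set_option maxSynthPendingDepth 3

open scoped ContDiff
open Matrix

noncomputable section

namespace Pool.Agent.Lib.MP_ccbbf6_gt.L5

open L4 L4.FR

variable {k l : ℕ} {X : Space}

theorem even_comm_Fm {x : Fm k} (hx : sg k x = x) (y : Fm k) : x * y = y * x := by
  induction y using Fm_ind with
  | hf f => exact (fc_comm f x).symm
  | hd i =>
    have h : ∀ x : Fm k, dx i * x = sg k x * dx i := by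
      intro x
      induction x using Fm_tind with
      | hf f a => rw [dx, cf_apply, tm_mul, sg_tm, tm_mul, one_mul, mul_one, ee, ι_swap]
      | ha x y hx hy => rw [mul_add, hx, hy, map_add, add_mul]
    rw [h, hx]
  | hm y z hy hz => rw [← mul_assoc, hy, mul_assoc, hz, ← mul_assoc]
  | ha y z hy hz => rw [mul_add, hy, hz, add_mul]

/-- the differential algebra of the forms on `R^k` -/
def GF (k : ℕ) : GDA (Fm k) where
  d := dd k
  s := sg k
  s_s := sg_sg
  d_d := dd_dd
  d_mul := dd_mul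
  s_d := sg_dd
  comm_even := fun _ b h => even_comm_Fm h b
  comm_odd := fun a b h h' => by
    have h1 := odd_comm_Fm h b
    have h2 : sg k b = -b := h'
    rw [h1, h2, neg_mul]

/-- functions on `R^k` -/
def FF (k : ℕ) : Fun0 (Cs k) (GF k) := ⟨fc k, sg_fc⟩

/-- smooth functions restricted to a plot -/
def SFon (P : X.Plot k) : SF X →ₐ[ℝ] Cs k where
  toFun f := ⟨fun x => f.1 (P.1 x), f.2 k P⟩
  map_one' := rfl
  map_mul' _ _ := rfl
  map_zero' := rfl
  map_add' _ _ := rfl
  commutes' _ := rfl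

theorem SFon_apply (P : X.Plot k) (f : SF X) (x : V k) : (SFon P f : V k → ℝ) x = f.1 (P.1 x) := rfl

/-- forms restricted to a plot -/
def omOn (P : X.Plot k) : Om X →ₐ[ℝ] Fm k where
  toFun θ := Om.on θ P
  map_one' := rfl
  map_mul' _ _ := rfl
  map_zero' := rfl
  map_add' _ _ := rfl
  commutes' _ := rfl

/-- restriction to a plot as a morphism -/
def FHom.on (P : X.Plot k) : FHom (FO X) (FF k) where
  h := ⟨omOn P, fun _ => on_d _ _, fun _ => on_s _ _⟩
  g := SFon P
  com := fun _ => on_fO _ _ _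

theorem FHom.on_f (P : X.Plot k) (θ : Om X) : (FHom.on P).h.f θ = Om.on θ P := rfl
theorem FHom.on_g (P : X.Plot k) (f : SF X) (x : V k) : ((FHom.on P).g f : V k → ℝ) x = f.1 (P.1 x) := rfl

/-- pull-back by a smooth map as a morphism -/
def FHom.pb (g : FR.Sm k l) : FHom (FF l) (FF k) where
  h := ⟨FR.pb g, fun _ => (pb_dd g _).symm, fun _ => (pb_sg g _).symm⟩
  g := g.pull
  com := fun _ => pb_fc g _

theorem FHom.pb_f (g : FR.Sm k l) (θ : Fm l) : (FHom.pb g).h.f θ = FR.pb g θ := rfl

end Pool.Agent.Lib.MP_ccbbf6_gt.L5
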