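import Pool.Agent.Lib.MP_ccbbf6_gt.L5.EPS05
import Pool.Agent.Lib.MP_ccbbf6_gt.L5.IB0
import Pool.Agent.Lib.MP_ccbbf6_gt.L5.IB2

/-!
# Level 5, INTb, file 4: the integral of `q^* vol` over the cube, `q : cube^3 → S^3` constant on the boundary (helper77)

PAPER PROOF.
PART 1 (`JS_wS`, volume of `S^3`). `JS w = ∫ y : V 4, topE 4 (ev y (Th w))`, `ev_Th`, `ThV_near` (EPS05): near `y ≠ 0`: `Th wS = dd (fc (cn1 4)) * Om.on wS P`, `P = ` local plot with `(P.1 z).1 = nrm z = ‖z‖⁻¹ z` near `y`.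
  Put `ρ = ‖z‖` (smooth near `y`), `y_i = co i` coordinates, `n_i = ρ⁻¹ y_i`. `w_j(n)` is bilinear antisymmetric (`w1 = n0 dn1 - n1 dn0 - n2 dn3 + n3 dn2`), so the terms with `dρ` cancel: `w_j(n) = ρ⁻² w_j(y)`.
  `dd (fc (cn1)) = χ'(ρ) dρ = χ'(ρ) ρ⁻¹ w_0(y)`, `w_0(y) = Σ y_i dy_i`. So `Th wS = χ'(ρ) ρ⁻⁷ w_0 w_1 w_2 w_3 (y)` and `w_0 w_1 w_2 w_3 (y) = ιMulti` of the four vectors = rows of `Lm (cj y)`: determinant `|y|^4 = ρ^4`
  (`topE_ιMulti`, FRt; explicit determinant, or `det_Lm` of IB3 for the transposed matrix). So the integrand is `χ'(ρ) / ρ^3` and `∫ = 4 vol(B^4) ∫_0^∞ χ' = 2 π²`: exactly the computation of helper2 in SIV3.lean (`integral_radial` with m = 3, c = 1; copy it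
  as a private lemma with its ingredients if you do not import SIV3), `EuclideanSpace.volume_ball_fin_even` or `EuclideanSpace.volume_ball` + `Real.Gamma`: vol(B^4) = π²/2. The point `y = 0` has measure zero (or: `ev_dcn_zero`).
  It is enough to work pointwise at `y` with `ev y`: `ev_dd_fc` and the derivative of `nrm`, `‖·‖`; helper2's `hasFDerivAt_nE`, `ev_dch_plV`, `ev_dYX` (SIV2, SIV3) do this for the other format.
PART 2 (`deg_w`). `qP hq : (spS 4).Plot 3` = the plot `z ↦ (q_0 z, .., q_3 z)`, `Om.on wS (qP hq) = w (GF 3) (fun i => fc 3 (q i))` (`w_nat` for `(FHom.on P).h`, `(FHom.on P).com`), `deg_sphere` (EPS05, N = 3) gives the integer.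
  Rank condition: `rkF (fun x => ((qP hq).1 x).1) i x = 0` at the points of the faces, i.e. the derivative in the directions `v` with `v i = 0` is zero: on the closed face `{x_i = c}` of the cube `q_j = 0` for `j ≠ 0` and `q_0^2 = 1`, `q_0` continuous on a
  convex set, so `q` is constant there; a `C^1` function which is constant on the closed face of dimension 2 has zero derivative along the face at all its points (one sided derivatives: for `v = e_j`, `x ± t e_j` lies in the face for small `t > 0` and one sign;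
  `HasFDerivAt` restricted to that ray). Compare `Col.rkF_P` (EPS06) for the format of `rkF`.
-/

set_option autoImplicit false
set_option maxSynthPendingDepth 3
set_option linter.unusedSectionVars false

open Matrix Function Filter Topology Set MeasureTheory
open scoped ContDiff Real

noncomputable section

namespace Pool.Agent.Lib.MP_ccbbf6_gt.L5.IB

open Geo L4 L4.FR

/-- coordinates on the sphere -/
def yS (i : Fin 4) : SF (spS 4) := ⟨fun x => x.1 i, fun k p => contDiff_euclidean.1 (show ContDiff ℝ ∞ fun u : V k => (p.1 u).1 from p.2) i⟩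

/-- the volume form of `S^3` -/
def wS : Om (spS 4) := w (GO (spS 4)) (fun i => fn (spS 4) (yS i))

/-! ### the norm and the unit vector -/

private theorem IB4_toE_ne {N : ℕ} {ξ : V N} (h : ξ ≠ 0) : toE ξ ≠ 0 := fun h0 => h (by
  have h1 := congrArg (fun v : Eu N => v.ofLp) h0
  exact h1)

private theorem IB4_toE_sq {N : ℕ} (x : V N) : ‖toE x‖ ^ 2 = ∑ j, x j ^ 2 := by
  rw [EuclideanSpace.norm_sq_eq]
  exact Finset.sum_congr rfl fun i _ => by rw [Real.norm_eq_abs, sq_abs]; rfl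

private theorem IB4_nE {N : ℕ} {ξ : V N} (h : ξ ≠ 0) : HasFDerivAt (fun x : V N => ‖toE x‖)
    (‖toE ξ‖⁻¹ • ∑ j, ξ j • ContinuousLinearMap.proj (R := ℝ) (φ := fun _ : Fin N => ℝ) j) ξ := by
  have h0 : ‖toE ξ‖ ≠ 0 := norm_ne_zero_iff.2 (IB4_toE_ne h)
  have h1 : HasFDerivAt (fun x : V N => ∑ j, x j ^ 2)
      (∑ j, (2 * ξ j) • ContinuousLinearMap.proj (R := ℝ) (φ := fun _ : Fin N => ℝ) j) ξ := by
    refine HasFDerivAt.fun_sum fun j _ => ?_
    have h2 : HasFDerivAt (fun x : V N => x j) (ContinuousLinearMap.proj (R := ℝ) (φ := fun _ : Fin N => ℝ) j) ξ :=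
      (ContinuousLinearMap.proj (R := ℝ) (φ := fun _ : Fin N => ℝ) j).hasFDerivAt
    have h3 := h2.pow 2
    simpa using h3
  have h2 : ∀ x : V N, ∑ j, x j ^ 2 = ‖toE x‖ ^ 2 := fun x => (IB4_toE_sq x).symm
  have h3 : (∑ j, ξ j ^ 2) ≠ 0 := by
    rw [h2]
    exact pow_ne_zero 2 h0
  have h4 := h1.sqrt h3
  have h5 : (fun x : V N => √(∑ j, x j ^ 2)) = fun x => ‖toE x‖ := by
    funext x
    rw [h2, Real.sqrt_sq (norm_nonneg _)]
  rw [h5] at h4
  refine h4.congr_fderiv ?_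
  rw [h2, Real.sqrt_sq (norm_nonneg _)]
  ext v
  simp only [_root_.smul_apply, _root_.sum_apply, ContinuousLinearMap.proj_apply, smul_eq_mul]
  rw [Finset.mul_sum, Finset.mul_sum]
  refine Finset.sum_congr rfl fun j _ => ?_
  field_simp

/-- the unit vector -/
private def IB4_hat {N : ℕ} (ξ : V N) : V N := ‖toE ξ‖⁻¹ • ξ

private theorem IB4_sum_hat {N : ℕ} {ξ : V N} (h : ξ ≠ 0) : ∑ j, IB4_hat ξ j * IB4_hat ξ j = 1 := by
  have h0 : ‖toE ξ‖ ≠ 0 := norm_ne_zero_iff.2 (IB4_toE_ne h)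
  have h1 : ∀ j, IB4_hat ξ j * IB4_hat ξ j = (‖toE ξ‖⁻¹) ^ 2 * ξ j ^ 2 := fun j => by
    show (‖toE ξ‖⁻¹ * ξ j) * (‖toE ξ‖⁻¹ * ξ j) = _
    ring
  simp only [h1]
  rw [← Finset.mul_sum]
  have h2 : ∑ j, ξ j ^ 2 = ‖toE ξ‖ ^ 2 := (IB4_toE_sq ξ).symm
  rw [h2, inv_pow, inv_mul_cancel₀ (pow_ne_zero 2 h0)]

/-- the value of `dχ` -/
private theorem IB4_dchi {N : ℕ} {ξ : V N} (h : ξ ≠ 0) :
    ev ξ (dd N (fc N (cn1 N))) = ExteriorAlgebra.ι ℝ (deriv chi ‖toE ξ‖ • IB4_hat ξ) := by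
  rw [ev_dd_fc]
  congr 1
  funext i
  rw [pd_apply]
  have h2 : HasFDerivAt (fun x : V N => chi ‖toE x‖) (deriv chi ‖toE ξ‖ • (‖toE ξ‖⁻¹ • ∑ j, ξ j • ContinuousLinearMap.proj (R := ℝ) (φ := fun _ : Fin N => ℝ) j)) ξ := by
    have h3 : HasDerivAt chi (deriv chi ‖toE ξ‖) ‖toE ξ‖ := (contDiff_chi.differentiable (by simp)).differentiableAt.hasDerivAt
    exact h3.comp_hasFDerivAt ξ (IB4_nE h)
  have h4 : fderiv ℝ ((cn1 N : Cs N) : V N → ℝ) ξ = _ := h2.fderiv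
  rw [h4]
  simp only [_root_.smul_apply, _root_.sum_apply, ContinuousLinearMap.proj_apply, smul_eq_mul]
  show _ = deriv chi ‖toE ξ‖ * (‖toE ξ‖⁻¹ * ξ i)
  rw [Finset.sum_eq_single i]
  · rw [Pi.single_eq_same, mul_one]
  · intro j _ hj
    rw [Pi.single_eq_of_ne hj, mul_zero]
  · intro h5
    exact absurd (Finset.mem_univ i) h5

/-- the value of `d (y_j / |y|)` -/
private theorem IB4_dn {N : ℕ} {ξ : V N} (hξ : ξ ≠ 0) {f : Cs N} {j : Fin N}
    (hf : (f : V N → ℝ) =ᶠ[𝓝 ξ] fun x => ‖toE x‖⁻¹ * x j) :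
    ev ξ (dd N (fc N f)) = ExteriorAlgebra.ι ℝ (‖toE ξ‖⁻¹ • ((Pi.single j 1 : V N) - IB4_hat ξ j • IB4_hat ξ)) := by
  have h0 : ‖toE ξ‖ ≠ 0 := norm_ne_zero_iff.2 (IB4_toE_ne hξ)
  rw [ev_dd_fc]
  congr 1
  funext i
  rw [pd_apply, hf.fderiv_eq]
  have h2 : HasFDerivAt (fun x : V N => x j) (ContinuousLinearMap.proj (R := ℝ) (φ := fun _ : Fin N => ℝ) j) ξ :=
    (ContinuousLinearMap.proj (R := ℝ) (φ := fun _ : Fin N => ℝ) j).hasFDerivAt
  have h3 := ((hasDerivAt_inv h0).comp_hasFDerivAt ξ (IB4_nE hξ)).mul h2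
  have h4 : fderiv ℝ (fun x : V N => ‖toE x‖⁻¹ * x j) ξ = _ := h3.fderiv
  rw [h4]
  simp only [_root_.add_apply, _root_.smul_apply, _root_.sum_apply, ContinuousLinearMap.proj_apply, smul_eq_mul]
  rw [Finset.sum_eq_single i (fun b _ hb => by rw [Pi.single_eq_of_ne hb, mul_zero])
    (fun h5 => absurd (Finset.mem_univ i) h5), Pi.single_eq_same, mul_one]
  show _ = ‖toE ξ‖⁻¹ * ((Pi.single j 1 : V N) i - ‖toE ξ‖⁻¹ * ξ j * (‖toE ξ‖⁻¹ * ξ i))
  have h6 : (Pi.single i (1 : ℝ) : V N) j = (Pi.single j 1 : V N) i := by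
    rw [Pi.single_apply, Pi.single_apply]
    by_cases hij : j = i
    · rw [if_pos hij, if_pos hij.symm]
    · rw [if_neg hij, if_neg (Ne.symm hij)]
  rw [h6]
  have h7 : ((fun y : ℝ => y⁻¹) ∘ fun x : V N => ‖toE x‖) ξ = ‖toE ξ‖⁻¹ := rfl
  rw [h7]
  field_simp
  ring

/-! ### the integral -/

private theorem IB4_dchi_integral : ∫ r in Ioi (0 : ℝ), deriv chi r = 1 := by
  have h1 : ∫ r in Ioi (0 : ℝ), deriv chi r = ∫ r in Ioc (0 : ℝ) 3, deriv chi r := by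
    refine setIntegral_eq_of_subset_of_forall_sdiff_eq_zero measurableSet_Ioi Ioc_subset_Ioi_self fun r hr => ?_
    have h2 : 3 < r := by
      by_contra h
      exact hr.2 ⟨hr.1, not_lt.1 h⟩
    exact deriv_chi_zero' (by linarith)
  rw [h1, ← intervalIntegral.integral_of_le (by norm_num), integral_deriv_chi]

private theorem IB4_radial (m : ℕ) : ∫ ξ : V (m + 1), deriv chi ‖toE ξ‖ / ‖toE ξ‖ ^ m =
    (m + 1) * (volume (Metric.ball (0 : Eu (m + 1)) 1)).toReal := by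
  have h1 : ∫ ξ : V (m + 1), deriv chi ‖toE ξ‖ / ‖toE ξ‖ ^ m =
      ∫ x : Eu (m + 1), deriv chi ‖x‖ / ‖x‖ ^ m := by
    have h2 := (PiLp.volume_preserving_toLp (Fin (m + 1))).integral_comp
      (MeasurableEquiv.toLp 2 (Fin (m + 1) → ℝ)).measurableEmbedding
      (fun x : Eu (m + 1) => deriv chi ‖x‖ / ‖x‖ ^ m)
    exact h2
  rw [h1, integral_fun_norm_addHaar (volume : Measure (Eu (m + 1))) (fun r => deriv chi r / r ^ m),
    finrank_euclideanSpace_fin]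
  have h3 : ∫ y in Ioi (0 : ℝ), y ^ (m + 1 - 1) • (deriv chi y / y ^ m) = ∫ y in Ioi (0 : ℝ), deriv chi y := by
    refine setIntegral_congr_fun measurableSet_Ioi fun y hy => ?_
    have hy' : 0 < y := hy
    simp only [Nat.add_sub_cancel, smul_eq_mul]
    field_simp
  rw [h3, IB4_dchi_integral, smul_eq_mul, mul_one, nsmul_eq_mul]
  push_cast
  rfl

private theorem IB4_ball : (volume (Metric.ball (0 : Eu 4) 1)).toReal = π ^ 2 / 2 := by
  rw [EuclideanSpace.volume_ball, Fintype.card_fin, ENNReal.ofReal_one, one_pow, one_mul]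
  have h1 : Real.Gamma ((4 : ℕ) / 2 + 1) = 2 := by
    have h2 : (((4 : ℕ) : ℝ) / 2 + 1) = (2 : ℕ) + 1 := by norm_num
    rw [h2, Real.Gamma_nat_eq_factorial]
    norm_num
  have h3 : √π ^ 4 = π ^ 2 := by
    have h4 : √π ^ 4 = (√π ^ 2) ^ 2 := by ring
    rw [h4, Real.sq_sqrt Real.pi_pos.le]
  rw [h1, h3, ENNReal.toReal_ofReal (by positivity)]

/-! ### the value of the integrand -/

private theorem IB4_top {h : V 4} {c d : ℝ} (he : ∑ j, h j * h j = 1) {x0 x1 x2 x3 : Ex 4}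
    (h0 : x0 = ExteriorAlgebra.ι ℝ (d • h))
    (h1 : x1 = ExteriorAlgebra.ι ℝ (c • ![-h 1, h 0, h 3, -h 2]))
    (h2 : x2 = ExteriorAlgebra.ι ℝ (c • ![-h 2, -h 3, h 0, h 1]))
    (h3 : x3 = ExteriorAlgebra.ι ℝ (c • ![-h 3, h 2, -h 1, h 0])) :
    topE 4 (x0 * (x1 * (x2 * x3))) = d * c ^ 3 := by
  have h4 : x0 * (x1 * (x2 * x3)) = ExteriorAlgebra.ιMulti ℝ 4 ![d • h, c • ![-h 1, h 0, h 3, -h 2],
      c • ![-h 2, -h 3, h 0, h 1], c • ![-h 3, h 2, -h 1, h 0]] := by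
    rw [h0, h1, h2, h3, ExteriorAlgebra.ιMulti_apply]
    simp only [List.ofFn_succ, List.ofFn_zero, List.prod_cons, List.prod_nil, mul_one]
    rfl
  rw [h4, topE_ιMulti]
  have h5 : (Matrix.of ![d • h, c • ![-h 1, h 0, h 3, -h 2], c • ![-h 2, -h 3, h 0, h 1], c • ![-h 3, h 2, -h 1, h 0]] :
      Matrix (Fin 4) (Fin 4) ℝ).det = d * c ^ 3 * (h 0 * h 0 + h 1 * h 1 + h 2 * h 2 + h 3 * h 3) ^ 2 := by
    simp [Matrix.det_succ_row_zero, Fin.sum_univ_succ, Fin.succAbove, Matrix.submatrix]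
    ring
  rw [h5]
  rw [Fin.sum_univ_four] at he
  rw [he, one_pow, mul_one]

private theorem IB4_comb {h : V 4} {c : ℝ} {n : Fin 4 → Fm 4} {y : V 4} (hn : ∀ i, ev y (n i) = algebraMap ℝ (Ex 4) (h i))
    (hd : ∀ i, ev y (dd 4 (n i)) = ExteriorAlgebra.ι ℝ (c • ((Pi.single i 1 : V 4) - h i • h))) :
    ev y (w1 (GF 4) n) = ExteriorAlgebra.ι ℝ (c • ![-h 1, h 0, h 3, -h 2]) ∧
    ev y (w2 (GF 4) n) = ExteriorAlgebra.ι ℝ (c • ![-h 2, -h 3, h 0, h 1]) ∧
    ev y (w3 (GF 4) n) = ExteriorAlgebra.ι ℝ (c • ![-h 3, h 2, -h 1, h 0]) := by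
  have hd' : ∀ i j, ev y (n i * (GF 4).d (n j)) = ExteriorAlgebra.ι ℝ (h i • (c • ((Pi.single j 1 : V 4) - h j • h))) := by
    intro i j
    have h1 : ev y ((GF 4).d (n j)) = _ := hd j
    rw [map_mul, hn, h1, ← Algebra.smul_def, ← map_smul]
  refine ⟨?_, ?_, ?_⟩
  · unfold w1
    rw [map_add, map_sub, map_sub, hd', hd', hd', hd', ← map_sub, ← map_sub, ← map_add]
    refine congrArg _ (funext fun i => ?_)
    fin_cases i <;> simp <;> ring
  · unfold w2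
    rw [map_add, map_sub, map_sub, hd', hd', hd', hd', ← map_sub, ← map_sub, ← map_add]
    refine congrArg _ (funext fun i => ?_)
    fin_cases i <;> simp <;> ring
  · unfold w3
    rw [map_add, map_sub, map_sub, hd', hd', hd', hd', ← map_sub, ← map_sub, ← map_add]
    refine congrArg _ (funext fun i => ?_)
    fin_cases i <;> simp <;> ring

private theorem IB4_on (P : (spS 4).Plot 4) : Om.on wS P = w (GF 4) (fun i => fc 4 (SFon P (yS i))) := by
  have h1 : Om.on wS P = w (GF 4) (fun i => (FHom.on P).h.f (fn (spS 4) (yS i))) :=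
    w_nat (FHom.on P).h _
  rw [h1]
  refine congrArg (w (GF 4)) (funext fun i => ?_)
  have h2 : (FHom.on P).h.f (fn (spS 4) (yS i)) = fc 4 ((FHom.on P).g (yS i)) := (FHom.on P).com (yS i)
  rw [h2]
  refine congrArg (fc 4) (Subtype.ext (funext fun x => ?_))
  rfl

private theorem IB4_hat_apply {N : ℕ} (ξ : V N) (i : Fin N) : IB4_hat ξ i = ‖toE ξ‖⁻¹ * ξ i := rfl

private theorem IB4_nrm_apply {N : ℕ} (ξ : V N) (i : Fin N) : (nrm ξ).ofLp i = ‖toE ξ‖⁻¹ * ξ i := rfl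

private theorem IB4_loc {y : V 4} {P : (spS 4).Plot 4} (hP : (fun z => (P.1 z).1) =ᶠ[𝓝 y] nrm) (i : Fin 4) :
    (SFon P (yS i) : V 4 → ℝ) =ᶠ[𝓝 y] fun x => ‖toE x‖⁻¹ * x i := by
  filter_upwards [hP] with z hz
  have h1 : (SFon P (yS i) : V 4 → ℝ) z = (P.1 z).1.ofLp i := rfl
  rw [h1, hz, IB4_nrm_apply]

private theorem IB4_Th {y : V 4} (hy : y ≠ 0) : topE 4 (ev y (Th wS)) = deriv chi ‖toE y‖ / ‖toE y‖ ^ 3 := by
  obtain ⟨P, hP, hT⟩ := ThV_near wS (IB4_toE_ne hy)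
  have h3 : ∀ i, ev y (fc 4 (SFon P (yS i))) = algebraMap ℝ (Ex 4) (IB4_hat y i) := by
    intro i
    rw [ev_fc, (IB4_loc hP i).self_of_nhds, IB4_hat_apply]
  obtain ⟨ha, hb, hc⟩ := IB4_comb h3 fun i => IB4_dn hy (IB4_loc hP i)
  have h5 : ev y (Th wS) = ev y (dd 4 (fc 4 (cn1 4))) * (ev y (w1 (GF 4) fun i => fc 4 (SFon P (yS i))) *
      (ev y (w2 (GF 4) fun i => fc 4 (SFon P (yS i))) * ev y (w3 (GF 4) fun i => fc 4 (SFon P (yS i))))) := by
    rw [ev_Th, hT.self_of_nhds, IB4_on, map_mul (ev y), w, map_mul (ev y), map_mul (ev y)]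
  rw [h5, IB4_top (IB4_sum_hat hy) (IB4_dchi hy) ha hb hc, inv_pow, div_eq_mul_inv]

theorem JS_wS : JS wS = 2 * π ^ 2 := by
  unfold JS
  have h1 : ∀ᵐ y : V 4, topE 4 (ev y (Th wS)) = deriv chi ‖toE y‖ / ‖toE y‖ ^ 3 := by
    have h2 : ∀ᵐ y : V 4, y ≠ 0 := by
      rw [ae_iff]
      simp
    filter_upwards [h2] with y hy
    exact IB4_Th hy
  rw [integral_congr_ae h1, IB4_radial 3, IB4_ball]
  push_cast
  ring

/-- a unit quaternion valued function as a plot of the sphere -/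
def qP {k : ℕ} {q : Fin 4 → Cs k} (hq : ∑ i, q i * q i = 1) : (spS 4).Plot k :=
  ⟨fun x => ⟨WithLp.toLp 2 fun i => (q i : V k → ℝ) x, by
    have h : ∑ i, (q i : V k → ℝ) x * (q i : V k → ℝ) x = 1 := by
      have h := congrArg (fun f : Cs k => (f : V k → ℝ) x) hq
      rw [Fin.sum_univ_four] at h ⊢
      exact h
    rw [EuclideanSpace.norm_eq, Real.sqrt_eq_one, ← h]
    exact Finset.sum_congr rfl fun i _ => by rw [Real.norm_eq_abs, sq_abs, sq]⟩, by
    change ContDiff ℝ ∞ fun x => (WithLp.toLp 2 fun i => (q i : V k → ℝ) x : Eu 4)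
    rw [contDiff_euclidean]
    intro i
    exact Cs_smooth (q i)⟩

theorem on_wS {k : ℕ} {q : Fin 4 → Cs k} (hq : ∑ i, q i * q i = 1) : Om.on wS (qP hq) = w (GF k) (fun i => fc k (q i)) := by
  have h1 : Om.on wS (qP hq) = w (GF k) (fun i => (FHom.on (qP hq)).h.f (fn (spS 4) (yS i))) :=
    w_nat (FHom.on (qP hq)).h _
  rw [h1]
  refine congrArg (w (GF k)) (funext fun i => ?_)
  have h2 : (FHom.on (qP hq)).h.f (fn (spS 4) (yS i)) = fc k ((FHom.on (qP hq)).g (yS i)) := (FHom.on (qP hq)).com (yS i)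
  rw [h2]
  refine congrArg (fc k) (Subtype.ext (funext fun x => ?_))
  rfl

/-- one sided derivatives -/
private theorem IB4_one {g : ℝ → ℝ} {D b c : ℝ} (hg : HasDerivAt g D 0) (hbc : b < c) (h0 : (0 : ℝ) ∈ Icc b c)
    (hz : ∀ t ∈ Icc b c, g t = 0) : D = 0 := by
  have h1 : HasDerivWithinAt g D (Icc b c) 0 := hg.hasDerivWithinAt
  have h2 : HasDerivWithinAt g 0 (Icc b c) 0 :=
    (hasDerivWithinAt_const (0 : ℝ) (Icc b c) (0 : ℝ)).congr (fun t ht => hz t ht) (hz 0 h0)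
  exact (uniqueDiffOn_Icc hbc 0 h0).eq_deriv _ h1 h2

/-- the derivative along the face of a function which vanishes on the face -/
private theorem IB4_dir {f : V 3 → ℝ} (hf : ContDiff ℝ ∞ f) {i : Fin 3}
    (h0 : ∀ z ∈ Icc (0 : V 3) 1, (z i = 0 ∨ z i = 1) → f z = 0) {x : V 3} (hx : x ∈ Icc (0 : V 3) 1)
    (hxi : x i = 0 ∨ x i = 1) {a : Fin 3} (ha : a ≠ i) : fderiv ℝ f x (Pi.single a 1) = 0 := by
  have hl : HasDerivAt (fun t : ℝ => x + t • (Pi.single a 1 : V 3)) (Pi.single a 1 : V 3) 0 := by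
    have h1 := ((hasDerivAt_id (0 : ℝ)).smul_const (Pi.single a 1 : V 3)).const_add x
    rw [one_smul] at h1
    exact h1
  have hd : HasFDerivAt f (fderiv ℝ f x) (x + (0 : ℝ) • (Pi.single a 1 : V 3)) := by
    rw [zero_smul, add_zero]
    exact (hf.differentiable (by simp) x).hasFDerivAt
  have hg : HasDerivAt (fun t : ℝ => f (x + t • (Pi.single a 1 : V 3))) (fderiv ℝ f x (Pi.single a 1)) 0 :=
    hd.comp_hasDerivAt (0 : ℝ) hl
  have hv : ∀ (t : ℝ) (b : Fin 3), (x + t • (Pi.single a 1 : V 3)) b = if b = a then x b + t else x b := by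
    intro t b
    by_cases hb : b = a
    · subst hb
      simp
    · simp [hb]
  have hz : ∀ t : ℝ, 0 ≤ x a + t → x a + t ≤ 1 → f (x + t • (Pi.single a 1 : V 3)) = 0 := by
    intro t h1 h2
    refine h0 _ ⟨fun b => ?_, fun b => ?_⟩ ?_
    · rw [hv]
      by_cases hb : b = a
      · rw [if_pos hb, hb]
        exact h1
      · rw [if_neg hb]
        exact hx.1 b
    · rw [hv]
      by_cases hb : b = a
      · rw [if_pos hb, hb]
        exact h2
      · rw [if_neg hb]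
        exact hx.2 b
    · rw [hv, if_neg (Ne.symm ha)]
      exact hxi
  have hx0 : 0 ≤ x a := hx.1 a
  have hx1 : x a ≤ 1 := hx.2 a
  by_cases hlt : x a < 1
  · refine IB4_one hg (b := 0) (c := 1 - x a) (by linarith) ⟨le_rfl, by linarith⟩ fun t ht => hz t ?_ ?_
    · linarith [ht.1]
    · linarith [ht.2]
  · refine IB4_one hg (b := -1) (c := 0) (by norm_num) ⟨by norm_num, le_rfl⟩ fun t ht => hz t ?_ ?_
    · linarith [ht.1, not_lt.1 hlt]
    · linarith [ht.2]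

/-- the rank on the faces -/
private theorem IB4_rk {q : Fin 4 → Cs 3} (hq : ∑ i, q i * q i = 1)
    (hc : ∀ z ∈ Icc (0 : V 3) 1, (∃ i, z i = 0 ∨ z i = 1) → ∀ i, i ≠ 0 → (q i : V 3 → ℝ) z = 0) (i : Fin 3) {x : V 3}
    (hx : x ∈ Icc (0 : V 3) 1) (hxi : x i = 0 ∨ x i = 1) : rkF (fun x => ((qP hq).1 x).1) i x ≤ 1 := by
  have hg : DifferentiableAt ℝ (fun x => ((qP hq).1 x).1) x :=
    (show ContDiff ℝ ∞ (fun x => ((qP hq).1 x).1) from (qP hq).2).differentiable (by simp) x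
  have hcomp : ∀ (j : Fin 4) (v : V 3), (fderiv ℝ (fun x => ((qP hq).1 x).1) x v) j = fderiv ℝ (q j : V 3 → ℝ) x v := by
    intro j v
    have h1 := ((EuclideanSpace.proj j : Eu 4 →L[ℝ] ℝ).hasFDerivAt.comp x hg.hasFDerivAt).fderiv
    have h2 : ((EuclideanSpace.proj j : Eu 4 →L[ℝ] ℝ) ∘ fun x => ((qP hq).1 x).1) = (q j : V 3 → ℝ) := rfl
    rw [h2] at h1
    rw [h1]
    rfl
  have hdir : ∀ (j : Fin 4), j ≠ 0 → ∀ v : V 3, v i = 0 → fderiv ℝ (q j : V 3 → ℝ) x v = 0 := by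
    intro j hj v hv
    have h1 : v = ∑ a, v a • (Pi.single a 1 : V 3) := by
      funext b
      rw [Finset.sum_apply, Finset.sum_eq_single b]
      · simp
      · intro a _ ha
        simp [Pi.single_eq_of_ne (Ne.symm ha)]
      · intro h
        exact absurd (Finset.mem_univ _) h
    rw [h1, map_sum]
    refine Finset.sum_eq_zero fun a _ => ?_
    rw [map_smul]
    by_cases ha : a = i
    · rw [ha, hv, zero_smul]
    · rw [IB4_dir (Cs_smooth (q j)) (i := i) (fun z hz hzi => hc z hz ⟨i, hzi⟩ j hj) hx hxi ha, smul_zero]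
  have hle : (LinearMap.ker (LinearMap.proj i : V 3 →ₗ[ℝ] ℝ)).map
      (fderiv ℝ (fun x => ((qP hq).1 x).1) x : V 3 →ₗ[ℝ] Eu 4) ≤ Submodule.span ℝ {(EuclideanSpace.single (0 : Fin 4) (1 : ℝ) : Eu 4)} := by
    rintro _ ⟨v, hv, rfl⟩
    rw [Submodule.mem_span_singleton]
    refine ⟨(fderiv ℝ (fun x => ((qP hq).1 x).1) x v) 0, ?_⟩
    ext j
    by_cases hj : j = 0
    · subst hj
      simp
    · have h1 : (fderiv ℝ (fun x => ((qP hq).1 x).1) x v) j = 0 := by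
        rw [hcomp j v]
        exact hdir j hj v hv
      have h2 : ((fderiv ℝ (fun x => ((qP hq).1 x).1) x : V 3 →ₗ[ℝ] Eu 4) v) j = 0 := h1
      rw [h2]
      simp [hj]
  unfold rkF
  refine (Submodule.finrank_mono hle).trans ?_
  refine (finrank_span_le_card _).trans ?_
  simp

/-- **the degree** -/
theorem deg_w {q : Fin 4 → Cs 3} (hq : ∑ i, q i * q i = 1)
    (hc : ∀ z ∈ Icc (0 : V 3) 1, (∃ i, z i = 0 ∨ z i = 1) → ∀ i, i ≠ 0 → (q i : V 3 → ℝ) z = 0) :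
    ∃ m : ℤ, cI 3 (w (GF 3) (fun i => fc 3 (q i))) = m * (2 * π ^ 2) := by
  obtain ⟨k, hk⟩ := deg_sphere (N := 3) (by norm_num) (qP hq) fun i x hx hxi => by
    have h := IB4_rk hq hc i hx hxi
    omega
  refine ⟨k, ?_⟩
  rw [← on_wS hq, hk, JS_wS]

end Pool.Agent.Lib.MP_ccbbf6_gt.L5.IB
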