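import Pool.Agent.Lib.MP_ccbbf6_gt.L5.EPS05
import Pool.Agent.Lib.MP_ccbbf6_gt.L5.PER02

/-!
# Level 5, block PER, part 3: the degree theorem with mixed boundary conditions
-/

set_option autoImplicit false

open Set Filter Topology MeasureTheory Metric
open scoped ContDiff

noncomputable section

namespace Pool.Agent.Lib.MP_ccbbf6_gt.L5.PE

open Geo L4 L4.FR

variable {k l n N : ℕ}

theorem det_diag {d : Fin N → ℝ} {L : V N →L[ℝ] V N} (hL : ∀ v i, L v i = d i * v i) : L.det = ∏ i, d i := by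
  change LinearMap.det (L : V N →ₗ[ℝ] V N) = _
  rw [← LinearMap.det_toMatrix']
  have h1 : LinearMap.toMatrix' (L : V N →ₗ[ℝ] V N) = Matrix.diagonal d := by
    ext i j
    rw [LinearMap.toMatrix'_apply]
    change L (Pi.single j 1) i = _
    rw [hL, Matrix.diagonal_apply]
    by_cases h : i = j
    · subst h
      rw [if_pos rfl, Pi.single_eq_same, mul_one]
    · rw [if_neg h, Pi.single_eq_of_ne h, mul_zero]
  rw [h1, Matrix.det_diagonal]

/-- stretch the last coordinate -/
def strM (N : ℕ) (b : ℝ) : FR.Sm (N + 1) (N + 1) := ⟨fun x i => (Fin.snoc 1 b : V (N + 1)) i * x i,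
  contDiff_pi.2 fun i => contDiff_const.mul (contDiff_apply ℝ ℝ i)⟩

theorem strM_apply (b : ℝ) (x : V (N + 1)) (i : Fin (N + 1)) : strM N b x i = (Fin.snoc 1 b : V (N + 1)) i * x i := rfl

theorem strM_last (b : ℝ) (x : V (N + 1)) : strM N b x (Fin.last N) = b * x (Fin.last N) := by
  rw [strM_apply, Fin.snoc_last]

theorem pr_strM (b : ℝ) (x : V (N + 1)) : pr N (strM N b x) = pr N x := by
  funext i
  change strM N b x i.castSucc = x i.castSucc
  rw [strM_apply, Fin.snoc_castSucc]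
  exact one_mul _

theorem strM_snoc (b : ℝ) (p : V N) (s : ℝ) : strM N b (Fin.snoc p s) = (Fin.snoc p (b * s) : V (N + 1)) := by
  funext i
  refine Fin.lastCases ?_ (fun i => ?_) i
  · rw [strM_last, Fin.snoc_last, Fin.snoc_last]
  · rw [Fin.snoc_castSucc]
    exact (congrFun (pr_strM b (Fin.snoc p s)) i).trans (congrFun (pr_snoc p s) i)

theorem top_strM (b : ℝ) (x : V (N + 1)) (θ : Fm (N + 1)) :
    topE (N + 1) (ev x (pb (strM N b) θ)) = b * topE (N + 1) (ev (strM N b x) θ) := by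
  rw [ev_pb, topE_map, tr_eq, det_trL]
  congr 1
  have h1 : HasFDerivAt (strM N b : V (N + 1) → V (N + 1)) (ContinuousLinearMap.pi fun i =>
      (Fin.snoc 1 b : V (N + 1)) i • ContinuousLinearMap.proj (R := ℝ) (φ := fun _ : Fin (N + 1) => ℝ) i) x :=
    (ContinuousLinearMap.pi fun i =>
      (Fin.snoc 1 b : V (N + 1)) i • ContinuousLinearMap.proj (R := ℝ) (φ := fun _ : Fin (N + 1) => ℝ) i).hasFDerivAt
  rw [h1.fderiv, det_diag (d := (Fin.snoc 1 b : V (N + 1))) (fun v i => rfl), Fin.prod_univ_castSucc, Fin.snoc_last]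
  have h2 : ∀ i : Fin N, (Fin.snoc 1 b : V (N + 1)) i.castSucc = 1 := fun i => Fin.snoc_castSucc (α := fun _ => ℝ) _ _ i
  simp only [h2, Finset.prod_const_one, one_mul]

/-- the integral over a cylinder by rescaling -/
theorem setIntegral_cyl' {b : ℝ} (hb : 0 < b) (θ : Fm (N + 1)) :
    ∫ x in Icc (0 : V (N + 1)) (Fin.snoc 1 b : V (N + 1)), topE (N + 1) (ev x θ) = cI (N + 1) (pb (strM N b) θ) := by
  rw [setIntegral_cyl hb.le (continuous_top θ)]
  unfold cI
  have h1 : ∀ x, topE (N + 1) (ev x (pb (strM N b) θ)) = b * topE (N + 1) (ev (strM N b x) θ) := fun x => top_strM b x θ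
  rw [setIntegral_cube_succ (continuous_top (pb (strM N b) θ))]
  refine setIntegral_congr_fun measurableSet_Icc fun p _ => ?_
  simp only [h1, strM_snoc]
  rw [intervalIntegral.integral_const_mul,
    intervalIntegral.integral_comp_mul_left (fun s => topE (N + 1) (ev (Fin.snoc p s : V (N + 1)) θ)) hb.ne', mul_zero,
    mul_one, smul_eq_mul, ← mul_assoc, mul_inv_cancel₀ hb.ne', one_mul]

theorem FOK_Hc {G : FR.Sm N n} {i : Fin N} (h : FOK (G : V N → V n) i) (b : ℝ) :
    FOK (((Hc G).comp (strM N b) : FR.Sm (N + 1) n) : V (N + 1) → V n) i.castSucc := by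
  have h1 := h.up (fun (s : ℝ) (w : V n) => (b * s) • w)
  have h2 : (((Hc G).comp (strM N b) : FR.Sm (N + 1) n) : V (N + 1) → V n) =
      fun x : V (N + 1) => (b * x (Fin.last N)) • G (pr N x) := by
    funext x
    change (Hc G) (strM N b x) = _
    rw [Hc_apply, strM_last, pr_strM]
  rw [h2]
  exact h1

/-- the boundary contributes nothing -/
theorem Hc_stokes_mix {G : FR.Sm N (N + 1)} (hN : 1 ≤ N) (hG : ∀ x, G x ≠ 0)
    (hF : ∀ i, FOK (G : V N → V (N + 1)) i)
    {f : V (N + 1) → ℝ} (hf : ContDiff ℝ ∞ f) (hfc : HasCompactSupport f) (v : V (N + 1)) :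
    ∫ x in Zc N, fderiv ℝ f (Hc G x) v * (fderiv ℝ (Hc G : V (N + 1) → V (N + 1)) x).det = 0 := by
  obtain ⟨R, hR0, hR⟩ := exists_bound_Hc hG (tsupport f) hfc
  have hb0 : (0 : ℝ) < R + 1 := by linarith
  have h1 : ∀ x, fderiv ℝ f (Hc G x) v * (fderiv ℝ (Hc G : V (N + 1) → V (N + 1)) x).det =
      topE (N + 1) (ev x (dd (N + 1) (pb (Hc G) (fiv (mkC f hf) v)))) := by
    intro x
    rw [pb_dd, ev_pb, topE_map, top_dd_fiv, mul_comm, det_tr]
    rfl
  have h2 : ∀ x ∈ Zc N, R < x (Fin.last N) → Hc G x ∉ tsupport f := by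
    intro x hx hxR h
    linarith [hR x hx h]
  have h3 : ∫ x in Zc N, fderiv ℝ f (Hc G x) v * (fderiv ℝ (Hc G : V (N + 1) → V (N + 1)) x).det =
      ∫ x in Icc (0 : V (N + 1)) (Fin.snoc 1 (R + 1) : V (N + 1)),
        topE (N + 1) (ev x (dd (N + 1) (pb (Hc G) (fiv (mkC f hf) v)))) := by
    simp only [h1]
    refine setIntegral_eq_of_subset_of_forall_sdiff_eq_zero isClosed_Zc.measurableSet Icc_snoc_sub fun x hx => ?_
    have h3 : R < x (Fin.last N) := by
      by_contra h
      exact hx.2 (mem_Icc_snoc hx.1 (by linarith [not_lt.1 h]))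
    rw [← h1]
    have h4 : fderiv ℝ f (Hc G x) = 0 := by
      have := (notMem_tsupport_iff_eventuallyEq.1 (h2 x hx.1 h3)).fderiv_eq (𝕜 := ℝ)
      rw [this]; simp
    rw [h4]
    simp
  rw [h3, setIntegral_cyl' hb0, ← pb_dd, ← pb_comp, cI_dd', Fin.sum_univ_castSucc, Finset.sum_eq_zero, zero_add]
  · have h4 : cI N (pb (emb (Fin.last N) 1) (pb ((Hc G).comp (strM N (R + 1))) (fiv (mkC f hf) v))) = 0 := by
      refine (cI_congr (τ := 0) fun x hx => ?_).trans cI_zero
      rw [← pb_comp, ev_pb_of_zero]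
      · rw [map_zero (ev x), map_zero]
      · refine ev_fiv_zero ?_
        change f (Hc G (strM N (R + 1) (emb (Fin.last N) 1 x))) = 0
        refine image_eq_zero_of_notMem_tsupport (h2 _ ⟨?_, ?_⟩ ?_)
        · rw [pr_strM]
          have h5 : pr N (emb (Fin.last N) 1 x) = x := by
            rw [emb_apply, Fin.insertNth_last']
            exact pr_snoc _ _
          rw [h5]
          exact hx
        · rw [strM_last, emb_same]
          linarith
        · rw [strM_last, emb_same]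
          linarith
    have h5 : cI N (pb (emb (Fin.last N) 0) (pb ((Hc G).comp (strM N (R + 1))) (fiv (mkC f hf) v))) = 0 := by
      refine (cI_congr (τ := 0) fun x hx => ?_).trans cI_zero
      rw [← pb_comp, map_zero]
      refine congrArg (topE N) (ev_pb_zero _ (Dg_fiv _ _) ?_)
      have h6 : ((((Hc G).comp (strM N (R + 1))).comp (emb (Fin.last N) 0) : FR.Sm N (N + 1)) : V N → V (N + 1)) =
          fun _ => 0 := by
        funext x
        change Hc G (strM N (R + 1) (emb (Fin.last N) 0 x)) = 0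
        rw [Hc_apply, strM_last, emb_same, mul_zero, zero_smul]
      rw [h6, fderiv_const_apply]
      change Module.finrank ℝ (LinearMap.range (0 : V N →ₗ[ℝ] V (N + 1))) < N
      rw [LinearMap.range_zero, finrank_bot]
      omega
    rw [h4, h5, sub_zero, mul_zero]
  · intro i _
    rw [FE_pb _ _ (FOK_Hc (hF i) (R + 1)), sub_self, mul_zero]

/-- **the degree theorem with mixed boundary conditions** -/
theorem deg_mix (hN : 1 ≤ N) (P : (spS (N + 1)).Plot N) (hF : ∀ i, FOK P.1 i) :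
    ∃ k : ℤ, ∀ w : Om (spS (N + 1)), cI N (Om.on w P) = k * JS w := by
  have hF' : ∀ i, FOK (plVE P : V N → V (N + 1)) i := fun i => (hF i).map fun ξ => toV ξ.1
  obtain ⟨k, hk⟩ := DG.deg_int_Z volume (Hc (plVE P)).smooth isClosed_Zc (fun K hK => compact_Hc (plVE_ne P) K hK)
    (fun _ hf hfc v => Hc_stokes_mix hN (plVE_ne P) hF' hf hfc v) (Hc_boundary (plVE P))
  exact ⟨(-1) ^ N * k, fun w => cI_of_deg hk w⟩

end Pool.Agent.Lib.MP_ccbbf6_gt.L5.PE

namespace Pool.Agent.Lib.MP_ccbbf6_gt.L5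

export PE (deg_mix)

end Pool.Agent.Lib.MP_ccbbf6_gt.L5
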