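import Pool.Agent.Lib.MP_ccbbf6_gt.L5.IA04
import Pool.Agent.Lib.MP_ccbbf6_gt.L5.IB3
import Pool.Agent.Lib.MP_ccbbf6_gt.L5.IB4
import Pool.Agent.Lib.MP_ccbbf6_gt.L5.PER03

/-!
# Level 5, block INTa, part 14: integrality for maps of the three-sphere to `SO(3)` (helper91)
-/

set_option autoImplicit false
set_option linter.unusedSectionVars false
set_option maxSynthPendingDepth 3

open Set Filter Topology Metric Real MeasureTheory
open scoped ContDiff

noncomputable section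

namespace Pool.Agent.Lib.MP_ccbbf6_gt.L5.IA

open L4 L4.FR

variable {k l : ℕ}

/-! ### the sign of the lift -/

theorem lift_uq {u q u' q' : Fin 4 → ℝ} (h : IB.Lm u * (IB.Rm q).transpose = IB.Lm u' * (IB.Rm q').transpose) (i j : Fin 4) :
    u i * q j = u' i * q' j := by
  have h2 : ∀ a b, (IB.Lm u * (IB.Rm q).transpose) a b = (IB.Lm u' * (IB.Rm q').transpose) a b := fun a b => by rw [h]
  simp only [Matrix.mul_apply, Fin.sum_univ_four, Matrix.transpose_apply] at h2
  have e00 := h2 0 0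
  have e01 := h2 0 1
  have e02 := h2 0 2
  have e03 := h2 0 3
  have e10 := h2 1 0
  have e11 := h2 1 1
  have e12 := h2 1 2
  have e13 := h2 1 3
  have e20 := h2 2 0
  have e21 := h2 2 1
  have e22 := h2 2 2
  have e23 := h2 2 3
  have e30 := h2 3 0
  have e31 := h2 3 1
  have e32 := h2 3 2
  have e33 := h2 3 3
  simp [IB.Lm, IB.Rm] at e00 e01 e02 e03 e10 e11 e12 e13 e20 e21 e22 e23 e30 e31 e32 e33
  fin_cases i <;> fin_cases j <;> simp <;> linarith

theorem lift_sign {u q u' q' : Fin 4 → ℝ} (hq : ∑ i, q i * q i = 1) (hu' : ∑ i, u' i * u' i = 1)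
    (hq' : ∑ i, q' i * q' i = 1) (h : IB.Lm u * (IB.Rm q).transpose = IB.Lm u' * (IB.Rm q').transpose) :
    (∀ j, q' j = (∑ i, u i * u' i) * q j) ∧ (∑ i, u i * u' i) * (∑ i, u i * u' i) = 1 := by
  have h1 : ∀ j, q' j = (∑ i, u i * u' i) * q j := by
    intro j
    have h2 : ∑ i, u' i * (u' i * q' j) = ∑ i, u' i * (u i * q j) :=
      Finset.sum_congr rfl fun i _ => by rw [lift_uq h i j]
    have h3 : ∑ i, u' i * (u' i * q' j) = (∑ i, u' i * u' i) * q' j := by
      rw [Finset.sum_mul]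
      exact Finset.sum_congr rfl fun i _ => by ring
    have h4 : ∑ i, u' i * (u i * q j) = (∑ i, u i * u' i) * q j := by
      rw [Finset.sum_mul]
      exact Finset.sum_congr rfl fun i _ => by ring
    rw [h3, hu', one_mul, h4] at h2
    exact h2
  refine ⟨h1, ?_⟩
  have h2 : ∑ j, q' j * q' j = (∑ i, u i * u' i) * (∑ i, u i * u' i) * ∑ j, q j * q j := by
    rw [Finset.mul_sum]
    exact Finset.sum_congr rfl fun j _ => by rw [h1]; ring
  rw [hq', hq, mul_one] at h2
  exact h2.symm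

/-- a continuous function with square one is constant -/
theorem sq_const {E : Type*} [TopologicalSpace E] {T : Set E} (hT : IsPreconnected T) {c : E → ℝ} (hc : ContinuousOn c T)
    (h1 : ∀ x ∈ T, c x * c x = 1) {x₀ : E} (hx₀ : x₀ ∈ T) (h0 : c x₀ = 1) {x : E} (hx : x ∈ T) : c x = 1 := by
  by_contra h
  have h2 : c x = -1 := by
    rcases mul_self_eq_one_iff.1 (h1 x hx) with h3 | h3
    · exact absurd h3 h
    · exact h3
  have h3 : (0 : ℝ) ∈ c '' T := by
    refine hT.intermediate_value hx hx₀ hc ⟨?_, ?_⟩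
    · rw [h2]
      norm_num
    · rw [h0]
      norm_num
  obtain ⟨z, hz, hz0⟩ := h3
  have h4 := h1 z hz
  rw [hz0, mul_zero] at h4
  exact zero_ne_one h4

/-- lifts of spherical maps satisfy the boundary conditions -/
theorem lift_FOK {Y : Type*} {g : V 3 → Y} (hg : Sph g) {U Q : V 3 → Fin 4 → ℝ} (hU : Continuous U)
    (hu : ∀ z, ∑ i, U z i * U z i = 1) (hq : ∀ z, ∑ i, Q z i * Q z i = 1)
    (h : ∀ z ∈ Icc (0 : V 3) 1, ∀ z' ∈ Icc (0 : V 3) 1, g z = g z' →
      IB.Lm (U z) * (IB.Rm (Q z)).transpose = IB.Lm (U z') * (IB.Rm (Q z')).transpose) (i : Fin 3) : FOK Q i := by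
  have hcon : ∀ (p p' : V 3 → V 3), Continuous p → Continuous p' → Continuous fun z => ∑ i, U (p z) i * U (p' z) i := by
    intro p p' hp hp'
    refine continuous_finsetSum _ fun i _ => ?_
    exact ((continuous_apply i).comp (hU.comp hp)).mul ((continuous_apply i).comp (hU.comp hp'))
  -- along a segment
  have seg : ∀ (j : Fin 3) (x : V 3), x ∈ Icc (0 : V 3) 1 → (∀ t ∈ Icc (0 : ℝ) 1, g (Function.update x j t) = g x) →
      ∀ t ∈ Icc (0 : ℝ) 1, ∑ i, U x i * U (Function.update x j t) i = 1 := by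
    intro j x hx hgx t ht
    have h2 : Continuous fun s : ℝ => (Function.update x j s : V 3) := continuous_const.update j continuous_id
    have h3 : Continuous fun s : ℝ => ∑ i, U x i * U (Function.update x j s) i :=
      continuous_finsetSum _ fun i _ => continuous_const.mul ((continuous_apply i).comp (hU.comp h2))
    refine sq_const (T := Icc (0 : ℝ) 1) isPreconnected_Icc h3.continuousOn (fun s hs => ?_) (x₀ := x j)
      ⟨hx.1 j, hx.2 j⟩ ?_ ht
    · exact (lift_sign (hq _) (hu _) (hq _) (h _ hx _ (PE.update_mem_cube hx j hs) (hgx s hs).symm)).2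
    · rw [Function.update_eq_self]
      exact hu x
  have segQ : ∀ (j : Fin 3) (x : V 3), x ∈ Icc (0 : V 3) 1 → (∀ t ∈ Icc (0 : ℝ) 1, g (Function.update x j t) = g x) →
      ∀ t ∈ Icc (0 : ℝ) 1, Q (Function.update x j t) = Q x := by
    intro j x hx hgx t ht
    funext k
    rw [(lift_sign (hq _) (hu _) (hq _) (h _ hx _ (PE.update_mem_cube hx j ht) (hgx t ht).symm)).1 k,
      seg j x hx hgx t ht, one_mul]
  have upd_self : ∀ (x : V 3) (i : Fin 3) (c : ℝ), x i = c → Function.update x i c = x := by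
    intro x i c hc
    rw [← hc, Function.update_eq_self]
  -- faces of the first coordinate
  have f0 : ∀ x : V 3, x 0 = 0 → ∀ t, g (Function.update x 2 t) = g x := by
    intro x hx t
    have e1 := hg.2.2.1 (Function.update x 2 t)
    have e2 := hg.2.2.1 x
    rw [Function.update_idem, ← e2] at e1
    rw [upd_self _ 0 0 (by rw [Function.update_of_ne (by decide)]; exact hx), upd_self _ 0 0 hx] at e1
    exact e1
  have f1 : ∀ x : V 3, x 0 = 1 → ∀ t, g (Function.update x 1 t) = g x := by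
    intro x hx t
    have e1 := hg.2.2.2 (Function.update x 1 t)
    have e2 := hg.2.2.2 x
    rw [Function.update_idem, ← e2] at e1
    rw [upd_self _ 0 1 (by rw [Function.update_of_ne (by decide)]; exact hx), upd_self _ 0 1 hx] at e1
    exact e1
  have per : ∀ (j : Fin 3), (∀ y, g (y + Pi.single j 1) = g y) → ∀ x₀ ∈ Icc (0 : V 3) 1, x₀ j = 0 →
      (∀ t ∈ Icc (0 : ℝ) 1, g (Function.update x₀ j t) = g x₀) → ∀ x ∈ Icc (0 : V 3) 1, x j = 0 →
        Q (Function.update x j 1) = Q x := by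
    intro j hj x₀ hx₀ hx₀j hseg x hx hxj
    have hg1 : ∀ z : V 3, g (Function.update z j 1) = g (Function.update z j 0) := by
      intro z
      have h5 : Function.update z j 1 = Function.update z j 0 + Pi.single j 1 := by
        funext a
        by_cases ha : a = j
        · subst ha
          simp
        · simp [Function.update_of_ne ha, Pi.single_eq_of_ne ha]
      rw [h5, hj]
    have hcu : ∀ c : ℝ, Continuous fun z : V 3 => Function.update z j c := fun c => continuous_id.update j continuous_const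
    have h6 := sq_const (T := Icc (0 : V 3) 1) (convex_Icc _ _).isPreconnected
      (hcon _ _ (hcu 0) (hcu 1)).continuousOn (fun z hz => by
        exact (lift_sign (hq _) (hu _) (hq _) (h _ (PE.update_mem_cube hz j ⟨le_rfl, zero_le_one⟩) _
          (PE.update_mem_cube hz j ⟨zero_le_one, le_rfl⟩) (hg1 z).symm)).2) (x₀ := x₀) hx₀ (by
        rw [upd_self x₀ j 0 hx₀j]
        exact seg j x₀ hx₀ hseg 1 ⟨zero_le_one, le_rfl⟩) hx
    beta_reduce at h6
    have h7 := (lift_sign (hq _) (hu _) (hq _) (h _ (PE.update_mem_cube hx j ⟨le_rfl, zero_le_one⟩) _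
          (PE.update_mem_cube hx j ⟨zero_le_one, le_rfl⟩) (hg1 x).symm)).1
    funext k
    rw [h7 k, h6, one_mul, upd_self x j 0 hxj]
  fin_cases i
  · refine Or.inl fun r hr => ?_
    rcases hr with hr | hr
    · exact ⟨2, by decide, fun x hx hx0 t ht => segQ 2 x hx (fun s _ => f0 x (hx0.trans hr) s) t ht⟩
    · exact ⟨1, by decide, fun x hx hx0 t ht => segQ 1 x hx (fun s _ => f1 x (hx0.trans hr) s) t ht⟩
  · refine Or.inr fun x hx hx1 => per 1 hg.1 (Pi.single 0 1) ?_ ?_ ?_ x hx hx1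
    · exact ⟨fun i => by fin_cases i <;> simp, fun i => by fin_cases i <;> simp⟩
    · simp
    · exact fun t _ => f1 _ (by simp) t
  · refine Or.inr fun x hx hx1 => per 2 hg.2.1 0 ?_ rfl ?_ x hx hx1
    · exact ⟨le_rfl, zero_le_one⟩
    · exact fun t _ => f0 _ rfl t

/-! ### the matrix of a frame -/

/-- cross product -/
def crs (a b : FR.Sm k 3) : Fin 3 → Cs k :=
  ![a.cp 1 * b.cp 2 - a.cp 2 * b.cp 1, a.cp 2 * b.cp 0 - a.cp 0 * b.cp 2, a.cp 0 * b.cp 1 - a.cp 1 * b.cp 0]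

/-- the matrix with columns `e₀, a × b, a, b` -/
def gm (a b : FR.Sm k 3) : Matrix (Fin 4) (Fin 4) (Cs k) :=
  !![1, 0, 0, 0; 0, crs a b 0, a.cp 0, b.cp 0; 0, crs a b 1, a.cp 1, b.cp 1; 0, crs a b 2, a.cp 2, b.cp 2]

/-- orthonormal pairs -/
structure ON (a b : FR.Sm k 3) : Prop where
  aa : a.cp 0 * a.cp 0 + a.cp 1 * a.cp 1 + a.cp 2 * a.cp 2 = 1
  bb : b.cp 0 * b.cp 0 + b.cp 1 * b.cp 1 + b.cp 2 * b.cp 2 = 1
  ab : a.cp 0 * b.cp 0 + a.cp 1 * b.cp 1 + a.cp 2 * b.cp 2 = 0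

theorem ON.of {a b : FR.Sm k 3} (haa : ∀ y, ∑ i, a y i * a y i = 1) (hbb : ∀ y, ∑ i, b y i * b y i = 1)
    (hab : ∀ y, ∑ i, a y i * b y i = 0) : ON a b := by
  refine ⟨Cs_ext fun y => ?_, Cs_ext fun y => ?_, Cs_ext fun y => ?_⟩
  · have := haa y
    rw [Fin.sum_univ_three] at this
    exact this
  · have := hbb y
    rw [Fin.sum_univ_three] at this
    exact this
  · have := hab y
    rw [Fin.sum_univ_three] at this
    exact this

theorem gm_alg {R : Type*} [CommRing R] {a0 a1 a2 b0 b1 b2 : R} (aa : a0 * a0 + a1 * a1 + a2 * a2 = 1)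
    (bb : b0 * b0 + b1 * b1 + b2 * b2 = 1) (ab : a0 * b0 + a1 * b1 + a2 * b2 = 0) :
    (!![1, 0, 0, 0; 0, a1 * b2 - a2 * b1, a0, b0; 0, a2 * b0 - a0 * b2, a1, b1; 0, a0 * b1 - a1 * b0, a2, b2] :
      Matrix (Fin 4) (Fin 4) R).transpose *
    (!![1, 0, 0, 0; 0, a1 * b2 - a2 * b1, a0, b0; 0, a2 * b0 - a0 * b2, a1, b1; 0, a0 * b1 - a1 * b0, a2, b2] :
      Matrix (Fin 4) (Fin 4) R) = 1 ∧
    (!![1, 0, 0, 0; 0, a1 * b2 - a2 * b1, a0, b0; 0, a2 * b0 - a0 * b2, a1, b1; 0, a0 * b1 - a1 * b0, a2, b2] :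
      Matrix (Fin 4) (Fin 4) R).det = 1 := by
  constructor
  · ext i j
    rw [Matrix.mul_apply, Fin.sum_univ_four]
    fin_cases i <;> fin_cases j <;> simp
    · linear_combination (b0 * b0 + b1 * b1 + b2 * b2) * aa + bb - (a0 * b0 + a1 * b1 + a2 * b2) * ab
    · ring
    · ring
    · ring
    · exact aa
    · exact ab
    · ring
    · linear_combination ab
    · exact bb
  · rw [Matrix.det_succ_row_zero, Fin.sum_univ_four]
    simp [Matrix.det_fin_three, Fin.succAbove]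
    linear_combination (b0 * b0 + b1 * b1 + b2 * b2) * aa + bb - (a0 * b0 + a1 * b1 + a2 * b2) * ab

theorem gm_orth {a b : FR.Sm k 3} (h : ON a b) : (gm a b).transpose * gm a b = 1 := (gm_alg h.aa h.bb h.ab).1

theorem gm_det {a b : FR.Sm k 3} (h : ON a b) : (gm a b).det = 1 := (gm_alg h.aa h.bb h.ab).2

theorem th_gm (a b : FR.Sm k 3) : IB.th (FF k) (gm a b) 2 3 = (2 * π) • mu a b := by
  have h1 : IB.th (FF k) (gm a b) 2 3 = ∑ l, fc k (gm a b l 2) * dd k (fc k (gm a b l 3)) := by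
    unfold IB.th
    rw [Matrix.mul_apply]
    rfl
  rw [h1, Fin.sum_univ_four]
  unfold mu
  rw [smul_smul, mul_inv_cancel₀ (by positivity), one_smul, Fin.sum_univ_three]
  simp [gm]

theorem th_gm0 (a b : FR.Sm k 3) (j : Fin 4) : IB.th (FF k) (gm a b) 0 j = 0 := by
  have h1 : IB.th (FF k) (gm a b) 0 j = ∑ l, fc k (gm a b l 0) * dd k (fc k (gm a b l j)) := by
    unfold IB.th
    rw [Matrix.mul_apply]
    rfl
  have h0 : dd k (fc k (0 : Cs k)) = 0 := by rw [map_zero, map_zero]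
  have h2 : dd k (fc k (1 : Cs k)) = 0 := by rw [map_one, dd_one]
  rw [h1, Fin.sum_univ_four]
  fin_cases j <;> simp [gm, dd_one]

/-- the Chern-Simons form of a map to `SO(3)` -/
theorem CS_gm {a b : FR.Sm k 3} (h : ON a b) : IA.CS a b = (-((2 * π) ^ 2)⁻¹) •
    (IB.g1 (IB.th (FF k) (gm a b)) * (IB.g2 (IB.th (FF k) (gm a b)) * IB.g3 (IB.th (FF k) (gm a b)))) := by
  have ho := gm_orth h
  have ho' : gm a b * (gm a b).transpose = 1 := mul_eq_one_comm.1 ho
  have hcu := IB.cu_zero (φ := FF k) ho ho' (by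
    rw [Matrix.map_one _ (map_zero _) (map_one _)]
    exact GDA.D_one)
  have h23 := th_gm a b
  have h0 := th_gm0 a b
  have hanti := IB.th_anti (φ := FF k) ho
  have hd := IB.th_diag (φ := FF k) ho
  have hod := IB.th_od (φ := FF k) (β := gm a b)
  obtain ⟨T, hT⟩ : ∃ T, T = IB.th (FF k) (gm a b) := ⟨_, rfl⟩
  rw [← hT] at hcu h23 h0 hanti hd hod ⊢
  have e1 : dd k (T 2 3) = T 1 2 * T 1 3 := by
    have h5 := congrFun (congrFun hcu 2) 3
    unfold IB.cu at h5
    rw [Matrix.add_apply, Matrix.mul_apply, Fin.sum_univ_four, h0, hd, hd, mul_zero, zero_mul, mul_zero, add_zero,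
      add_zero, zero_add, hanti 1 2, neg_mul] at h5
    exact add_neg_eq_zero.1 h5
  have e2 : mu a b = (2 * π)⁻¹ • T 2 3 := by
    rw [h23, smul_smul, inv_mul_cancel₀ (by positivity), one_smul]
  have e3 : T 1 3 * T 1 2 = -(T 1 2 * T 1 3) := (GF k).comm_odd _ _ (hod.app _ _) (hod.app _ _)
  unfold IA.CS IB.g1 IB.g2 IB.g3
  rw [e2, map_smul, e1, h0, h0, h0, zero_sub, zero_add, zero_sub, smul_mul_smul_comm, mul_neg, e3, neg_neg, neg_mul,
    smul_neg, neg_smul, neg_neg]
  congr 1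
  rw [← mul_inv, pow_two]

theorem crs_comp (a b : FR.Sm l 3) (g : FR.Sm k l) (i : Fin 3) : crs (a.comp g) (b.comp g) i = g.pull (crs a b i) := by
  fin_cases i
  · change (a.comp g).cp 1 * (b.comp g).cp 2 - (a.comp g).cp 2 * (b.comp g).cp 1 = g.pull (a.cp 1 * b.cp 2 - a.cp 2 * b.cp 1)
    rw [map_sub, map_mul, map_mul]
    rfl
  · change (a.comp g).cp 2 * (b.comp g).cp 0 - (a.comp g).cp 0 * (b.comp g).cp 2 = g.pull (a.cp 2 * b.cp 0 - a.cp 0 * b.cp 2)
    rw [map_sub, map_mul, map_mul]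
    rfl
  · change (a.comp g).cp 0 * (b.comp g).cp 1 - (a.comp g).cp 1 * (b.comp g).cp 0 = g.pull (a.cp 0 * b.cp 1 - a.cp 1 * b.cp 0)
    rw [map_sub, map_mul, map_mul]
    rfl

theorem gm_comp (a b : FR.Sm l 3) (g : FR.Sm k l) : gm (a.comp g) (b.comp g) = (gm a b).map g.pull := by
  apply Matrix.ext
  intro i j
  rw [Matrix.map_apply]
  fin_cases i <;> fin_cases j
  · exact (map_one g.pull).symm
  · exact (map_zero g.pull).symm
  · exact (map_zero g.pull).symm
  · exact (map_zero g.pull).symm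
  · exact (map_zero g.pull).symm
  · exact crs_comp a b g 0
  · rfl
  · rfl
  · exact (map_zero g.pull).symm
  · exact crs_comp a b g 1
  · rfl
  · rfl
  · exact (map_zero g.pull).symm
  · exact crs_comp a b g 2
  · rfl
  · rfl
theorem FOK_inj {α β : Type*} {g : V k → α} {f : α → β} (hf : Function.Injective f) {i : Fin k}
    (h : FOK (fun x => f (g x)) i) : FOK g i := by
  rcases h with h | h
  · left
    intro c hc
    obtain ⟨j, hj, h1⟩ := h c hc
    exact ⟨j, hj, fun x hx hxi t ht => hf (h1 x hx hxi t ht)⟩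
  · right
    exact fun x hx hxi => hf (h x hx hxi)

/-- **integrality** -/
theorem so3_int {a b : FR.Sm 3 3} (haa : ∀ y, ∑ i, a y i * a y i = 1) (hbb : ∀ y, ∑ i, b y i * b y i = 1)
    (hab : ∀ y, ∑ i, a y i * b y i = 0) (hs : Sph (fun y => ((a : V 3 → V 3) y, (b : V 3 → V 3) y))) :
    ∃ m : ℤ, cI 3 (IA.CS a b) = 4 * m := by
  have h := ON.of haa hbb hab
  obtain ⟨κ, u, q, hκ, hu, hq, hg, -⟩ := IB.exists_lift (gm a b) (gm_orth h) (gm_det h)
  have hev : ∀ (z : V 3) (f : Fin 4 → Cs 3), ∑ i, f i * f i = 1 → ∑ i, (f i : V 3 → ℝ) z * (f i : V 3 → ℝ) z = 1 := by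
    intro z f hf
    have h1 := congrArg (fun f : Cs 3 => (f : V 3 → ℝ) z) hf
    rw [Fin.sum_univ_four] at h1 ⊢
    exact h1
  have hgz : ∀ z : V 3, IB.Lm (fun i => (u i : V 3 → ℝ) z) * (IB.Rm (fun i => (q i : V 3 → ℝ) z)).transpose =
      Matrix.of fun i j => (gm a b i j : V 3 → ℝ) (κ z) := by
    intro z
    have h1 : ∀ i j, ((gm a b).map κ.pull) i j = (IB.Lm u * (IB.Rm q).transpose) i j := fun i j => by rw [hg]
    ext i j
    have h2 := congrArg (fun f : Cs 3 => (f : V 3 → ℝ) z) (h1 i j)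
    have h3 : (((gm a b).map κ.pull i j : Cs 3) : V 3 → ℝ) z = (gm a b i j : V 3 → ℝ) (κ z) := rfl
    rw [Matrix.of_apply, ← h3, h2]
    rw [Matrix.mul_apply, Matrix.mul_apply, Fin.sum_univ_four, Fin.sum_univ_four]
    fin_cases i <;> fin_cases j <;> rfl
  have hF : ∀ i, FOK (IB.qP hq).1 i := by
    intro i
    have h1 := (lift_FOK (Q := fun z i => (q i : V 3 → ℝ) z) hs
      (continuous_pi fun i => (Cs_smooth (u i)).continuous) (fun z => hev z u hu) (fun z => hev z q hq)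
      (fun z hz z' hz' hzz => by
        rw [hgz, hgz, (hκ z hz).self_of_nhds, (hκ z' hz').self_of_nhds]
        have ea : (a : V 3 → V 3) z = a z' := congrArg Prod.fst hzz
        have eb : (b : V 3 → V 3) z = b z' := congrArg Prod.snd hzz
        have ea' : ∀ i, (a.cp i : V 3 → ℝ) z = (a.cp i : V 3 → ℝ) z' := fun i => congrFun ea i
        have eb' : ∀ i, (b.cp i : V 3 → ℝ) z = (b.cp i : V 3 → ℝ) z' := fun i => congrFun eb i
        have ec : ∀ i, (crs a b i : V 3 → ℝ) z = (crs a b i : V 3 → ℝ) z' := by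
          intro i
          fin_cases i
          · change (a.cp 1 : V 3 → ℝ) z * (b.cp 2 : V 3 → ℝ) z - (a.cp 2 : V 3 → ℝ) z * (b.cp 1 : V 3 → ℝ) z = _
            rw [ea', ea', eb', eb']
            rfl
          · change (a.cp 2 : V 3 → ℝ) z * (b.cp 0 : V 3 → ℝ) z - (a.cp 0 : V 3 → ℝ) z * (b.cp 2 : V 3 → ℝ) z = _
            rw [ea', ea', eb', eb']
            rfl
          · change (a.cp 0 : V 3 → ℝ) z * (b.cp 1 : V 3 → ℝ) z - (a.cp 1 : V 3 → ℝ) z * (b.cp 0 : V 3 → ℝ) z = _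
            rw [ea', ea', eb', eb']
            rfl
        ext i j
        rw [Matrix.of_apply, Matrix.of_apply]
        fin_cases i <;> fin_cases j <;> first | rfl | exact ec 0 | exact ec 1 | exact ec 2 | exact ea' _ | exact eb' _)) i
    exact FOK_inj (f := fun (ξ : (spS 4).pt) (i : Fin 4) => ξ.1 i) (fun ξ η hξ => Subtype.ext (by
      ext i
      exact congrFun hξ i)) h1
  obtain ⟨m, hm⟩ := deg_mix (N := 3) (by norm_num) (IB.qP hq) hF
  refine ⟨-m, ?_⟩
  have h1 : cI 3 (IA.CS a b) = cI 3 (IA.CS (a.comp κ) (b.comp κ)) := by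
    rw [← CS_comp]
    exact cI_congr fun x hx => by rw [ev_pb_id (hκ x hx)]
  have h2 : ON (a.comp κ) (b.comp κ) := ON.of (fun y => haa (κ y)) (fun y => hbb (κ y)) (fun y => hab (κ y))
  have h3 : gm (a.comp κ) (b.comp κ) = IB.Lm u * (IB.Rm q).transpose := by
    rw [← hg]
    exact gm_comp a b κ
  rw [h1, CS_gm h2, h3, IB.w_th hu hq, smul_smul, cI_smul]
  have h4 : cI 3 (IB.w (GF 3) (fun i => (FF 3).f (q i))) = m * (2 * π ^ 2) := by
    have h5 := hm IB.wS
    rw [IB.on_wS hq, IB.JS_wS] at h5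
    exact h5
  rw [h4]
  push_cast
  have hπ : (π : ℝ) ≠ 0 := Real.pi_ne_zero
  field_simp
  ring

end Pool.Agent.Lib.MP_ccbbf6_gt.L5.IA
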