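import Pool.Agent.Lib.MP_ccbbf6_gt.L5.EU9

/-!
# Level 5, block INTa, part 15: the Euler form of an oriented plane bundle in an orthonormal frame (helper91)
-/

set_option autoImplicit false
set_option linter.unusedSectionVars false
set_option maxSynthPendingDepth 3

open Matrix

noncomputable section

namespace Pool.Agent.Lib.MP_ccbbf6_gt.L5.IA

open L4 L4.FR

section alg

variable {ι : Type*} [Fintype ι] [DecidableEq ι]

variable {A : Type*} [CommRing A] [Algebra ℝ A] {B : Type*} [Ring B] [Algebra ℝ B] {G : GDA B} {φ : Fun0 A G}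

variable {P : Matrix ι ι A} {o : (Fin 2 → ι) → A} {a b : ι → A}

/-- orthonormal pairs of sections -/
structure PO (P : Matrix ι ι A) (a b : ι → A) : Prop where
  pa : P.mulVec a = a
  pb : P.mulVec b = b
  aa : ∑ i, a i * a i = 1
  bb : ∑ i, b i * b i = 1
  ab : ∑ i, a i * b i = 0

theorem PO.ba (h : PO P a b) : ∑ i, b i * a i = 0 := by
  rw [← h.ab]
  exact Finset.sum_congr rfl fun i _ => mul_comm _ _

/-- the orientation of the frame -/
theorem or_frame (h : Or 2 P o) (hf : PO P a b) : ∃ e : A, e * e = 1 ∧ ∀ I, o I = e * (a (I 0) * b (I 1) - b (I 0) * a (I 1)) := by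
  obtain ⟨e, he⟩ : ∃ e, e = ∑ J : Fin 2 → ι, a (J 0) * b (J 1) * o J := ⟨_, rfl⟩
  have pa : ∀ i, ∑ j, P i j * a j = a i := fun i => congrFun hf.pa i
  have pb : ∀ i, ∑ j, P i j * b j = b i := fun i => congrFun hf.pb i
  have h1 : ∀ I, e * o I = a (I 0) * b (I 1) - b (I 0) * a (I 1) := by
    intro I
    have h2 : e * o I = ∑ J : Fin 2 → ι, ((P (I 0) (J 0) * a (J 0)) * (P (I 1) (J 1) * b (J 1)) -
        (P (I 0) (J 1) * b (J 1)) * (P (I 1) (J 0) * a (J 0))) := by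
      rw [he, Finset.sum_mul]
      refine Finset.sum_congr rfl fun J _ => ?_
      have h3 : o J * o I = P (I 0) (J 0) * P (I 1) (J 1) - P (I 0) (J 1) * P (I 1) (J 0) := by
        rw [mul_comm, h.rk, Matrix.det_fin_two]
        rfl
      linear_combination a (J 0) * b (J 1) * h3
    rw [h2, Finset.sum_sub_distrib]
    have h3 := sum2 (fun j l => (P (I 0) j * a j) * (P (I 1) l * b l))
    have h4 := sum2 (fun j l => (P (I 0) l * b l) * (P (I 1) j * a j))
    rw [h3, h4]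
    simp only [← Finset.mul_sum, ← Finset.sum_mul, pa, pb]
  have h2 : e * e = 1 := by
    have h3 : e * e = ∑ I : Fin 2 → ι, a (I 0) * b (I 1) * (a (I 0) * b (I 1) - b (I 0) * a (I 1)) := by
      nth_rewrite 2 [he]
      rw [Finset.mul_sum]
      refine Finset.sum_congr rfl fun I _ => ?_
      rw [← h1]
      ring
    have h4 := sum2 (fun i j => a i * b j * (a i * b j - b i * a j))
    rw [h3, h4]
    have h5 : ∀ i, ∑ j, a i * b j * (a i * b j - b i * a j) = a i * a i * ∑ j, b j * b j - a i * b i * ∑ j, b j * a j := by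
      intro i
      rw [Finset.mul_sum, Finset.mul_sum, ← Finset.sum_sub_distrib]
      exact Finset.sum_congr rfl fun j _ => by ring
    simp only [h5, hf.bb, hf.ba, mul_one, mul_zero, sub_zero]
    exact hf.aa
  refine ⟨e, h2, fun I => ?_⟩
  rw [← h1, ← mul_assoc, h2, one_mul]

/-- the projection in terms of the frame -/
theorem P_frame (h : Or 2 P o) (hf : PO P a b) (i j : ι) : P i j = a i * a j + b i * b j := by
  obtain ⟨e, he, ho⟩ := or_frame h hf
  have h1 : ∀ m, o ![i, m] * o ![j, m] = P i j * P m m - P i m * P m j := by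
    intro m
    rw [h.rk, Matrix.det_fin_two]
    rfl
  have h2 : ∑ m, o ![i, m] * o ![j, m] = P i j := by
    simp only [h1]
    rw [Finset.sum_sub_distrib, ← Finset.mul_sum]
    have h3 : ∑ m, P m m = 2 := by
      have := h.tr
      exact_mod_cast this
    have h4 : ∑ m, P i m * P m j = P i j := by
      rw [← Matrix.mul_apply, h.idem]
    rw [h3, h4]
    ring
  rw [← h2]
  have h5 : ∀ m, o ![i, m] * o ![j, m] = (a i * a j) * (b m * b m) + (b i * b j) * (a m * a m) -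
      (a i * b j) * (a m * b m) - (b i * a j) * (a m * b m) := by
    intro m
    rw [ho, ho]
    change e * (a i * b m - b i * a m) * (e * (a j * b m - b j * a m)) = _
    linear_combination (a i * b m - b i * a m) * (a j * b m - b j * a m) * he
  simp only [h5, Finset.sum_add_distrib, Finset.sum_sub_distrib, ← Finset.mul_sum, hf.aa, hf.bb, hf.ab, mul_one, mul_zero,
    sub_zero]

/-- the Euler form in a frame -/
theorem eu2_frame (h : Or 2 P o) (hf : PO P a b) : ∃ e : A, e * e = 1 ∧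
    eu2 φ P o = (2 * Real.pi)⁻¹ • (φ.f e * ∑ i, G.d (φ.f (a i)) * G.d (φ.f (b i))) := by
  obtain ⟨e, he, ho⟩ := or_frame h hf
  refine ⟨e, he, ?_⟩
  obtain ⟨Y, hY⟩ : ∃ Y, Y = uc φ a := ⟨_, rfl⟩
  obtain ⟨Z, hZ⟩ : ∃ Z, Z = uc φ b := ⟨_, rfl⟩
  obtain ⟨Q, hQ⟩ : ∃ Q, Q = P.map φ.f := ⟨_, rfl⟩
  have yy : Yᵀ * Y = 1 := by rw [hY]; exact uc_uc hf.aa
  have zz : Zᵀ * Z = 1 := by rw [hZ]; exact uc_uc hf.bb
  have eY : G.Ev Y := by rw [hY]; exact ev_uc
  have eZ : G.Ev Z := by rw [hZ]; exact ev_uc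
  have eYt : G.Ev Yᵀ := by rw [hY]; exact ev_ucT
  have eZt : G.Ev Zᵀ := by rw [hZ]; exact ev_ucT
  have yz : Yᵀ * Z = 0 := by
    rw [hY, hZ]
    ext u v
    rw [Matrix.mul_apply, Matrix.zero_apply, ← map_zero φ.f, ← hf.ab, map_sum]
    exact Finset.sum_congr rfl fun i _ => (map_mul φ.f _ _).symm
  have zy : Zᵀ * Y = 0 := by
    rw [hY, hZ]
    ext u v
    rw [Matrix.mul_apply, Matrix.zero_apply, ← map_zero φ.f, ← hf.ba, map_sum]
    exact Finset.sum_congr rfl fun i _ => (map_mul φ.f _ _).symm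
  have hQf : Q = Y * Yᵀ + Z * Zᵀ := by
    rw [hQ, hY, hZ]
    ext i j
    rw [Matrix.map_apply, P_frame h hf, map_add, map_mul, map_mul, Matrix.add_apply, Matrix.mul_apply, Matrix.mul_apply]
    simp [uc]
  have ydy : Yᵀ * G.D Y = 0 := by rw [hY]; exact uc_Duc hf.aa
  have zdz : Zᵀ * G.D Z = 0 := by rw [hZ]; exact uc_Duc hf.bb
  have dzz : G.D Zᵀ * Z = 0 := by
    have e1 := congrArg G.D zz
    rw [GDA.D_mul, GDA.D_one, eZt, zdz, add_zero] at e1
    exact e1
  have dyy : G.D Yᵀ * Y = 0 := by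
    have e1 := congrArg G.D yy
    rw [GDA.D_mul, GDA.D_one, eYt, ydy, add_zero] at e1
    exact e1
  have dQ : G.D Q = G.D Y * Yᵀ + Y * G.D Yᵀ + (G.D Z * Zᵀ + Z * G.D Zᵀ) := by
    rw [hQf, GDA.D_add, GDA.D_mul, GDA.D_mul, eY, eZ]
  have l1 : Yᵀ * G.D Q = G.D Yᵀ + Yᵀ * G.D Z * Zᵀ := by
    rw [dQ]
    simp only [Matrix.mul_add, ← Matrix.mul_assoc]
    rw [ydy, yy, yz, Matrix.zero_mul, Matrix.one_mul, Matrix.zero_mul, zero_add, add_zero]
  have l2 : G.D Q * Z = Y * (G.D Yᵀ * Z) + G.D Z := by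
    rw [dQ]
    simp only [Matrix.add_mul, Matrix.mul_assoc]
    rw [yz, zz, dzz, Matrix.mul_zero, Matrix.mul_one, Matrix.mul_zero, zero_add, add_zero]
  have l3 : Yᵀ * Q = Yᵀ := by
    rw [hQf, Matrix.mul_add, ← Matrix.mul_assoc, ← Matrix.mul_assoc, yy, yz, Matrix.one_mul, Matrix.zero_mul, add_zero]
  have l4 : Yᵀ * Rv φ P * Z = G.D Yᵀ * G.D Z := by
    have e1 : Yᵀ * Rv φ P * Z = Yᵀ * G.D Q * (G.D Q * Z) := by
      unfold Rv GDA.R
      rw [← hQ, ← Matrix.mul_assoc, l3]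
      simp only [Matrix.mul_assoc]
    rw [e1, l1, l2, Matrix.add_mul, Matrix.mul_add, Matrix.mul_add, ← Matrix.mul_assoc (G.D Yᵀ) Y, dyy, Matrix.zero_mul,
      zero_add]
    have e2 : Yᵀ * G.D Z * Zᵀ * (Y * (G.D Yᵀ * Z)) = 0 := by
      rw [Matrix.mul_assoc (Yᵀ * G.D Z), ← Matrix.mul_assoc Zᵀ, zy, Matrix.zero_mul, Matrix.mul_zero]
    have e3 : Yᵀ * G.D Z * Zᵀ * G.D Z = 0 := by
      rw [Matrix.mul_assoc (Yᵀ * G.D Z), zdz, Matrix.mul_zero]
    rw [e2, e3, add_zero, add_zero]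
  have l5 : ∑ i, ∑ j, φ.f (a i) * Rv φ P i j * φ.f (b j) = ∑ i, G.d (φ.f (a i)) * G.d (φ.f (b i)) := by
    have e1 := congrFun (congrFun l4 ()) ()
    rw [Matrix.mul_apply, Matrix.mul_apply] at e1
    rw [Finset.sum_comm]
    refine Eq.trans ?_ (e1.trans ?_)
    · refine Finset.sum_congr rfl fun j _ => ?_
      rw [Matrix.mul_apply, Finset.sum_mul, hY, hZ]
      rfl
    · rw [hY, hZ]
      rfl
  have hanti := Rv_anti (φ := φ) h.idem h.sym
  have l6 : St φ o (fun I => Rv φ P (I 0) (I 1)) = (2 : ℝ) • (φ.f e * ∑ i, ∑ j, φ.f (a i) * Rv φ P i j * φ.f (b j)) := by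
    unfold St
    have e1 : ∀ I : Fin 2 → ι, φ.f (o I) * Rv φ P (I 0) (I 1) =
        (fun i j => φ.f e * (φ.f (a i) * Rv φ P i j * φ.f (b j)) - φ.f e * (φ.f (b i) * Rv φ P i j * φ.f (a j))) (I 0) (I 1) := by
      intro I
      rw [ho]
      simp only [map_mul, map_sub]
      have c1 : φ.f (a (I 0)) * Rv φ P (I 0) (I 1) * φ.f (b (I 1)) = φ.f (a (I 0)) * φ.f (b (I 1)) * Rv φ P (I 0) (I 1) := by
        rw [mul_assoc, ← φ.comm, ← mul_assoc]
      have c2 : φ.f (b (I 0)) * Rv φ P (I 0) (I 1) * φ.f (a (I 1)) = φ.f (b (I 0)) * φ.f (a (I 1)) * Rv φ P (I 0) (I 1) := by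
        rw [mul_assoc, ← φ.comm, ← mul_assoc]
      rw [c1, c2, mul_assoc, sub_mul, mul_sub]
    simp only [e1]
    rw [sum2 (fun i j => φ.f e * (φ.f (a i) * Rv φ P i j * φ.f (b j)) - φ.f e * (φ.f (b i) * Rv φ P i j * φ.f (a j)))]
    simp only [Finset.sum_sub_distrib, ← Finset.mul_sum]
    have e2 : ∑ i, ∑ j, φ.f (b i) * Rv φ P i j * φ.f (a j) = -∑ i, ∑ j, φ.f (a i) * Rv φ P i j * φ.f (b j) := by
      rw [Finset.sum_comm, ← Finset.sum_neg_distrib]
      refine Finset.sum_congr rfl fun j _ => ?_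
      rw [← Finset.sum_neg_distrib]
      refine Finset.sum_congr rfl fun i _ => ?_
      rw [hanti i j, mul_neg, neg_mul]
      congr 1
      rw [φ.comm (b i) (Rv φ P j i), φ.comm (a j) (Rv φ P j i), mul_assoc, mul_assoc, φ.comm (b i) (φ.f (a j))]
    rw [e2, mul_neg, sub_neg_eq_add, two_smul]
  unfold eu2
  rw [l6, smul_smul, l5]
  congr 1
  field_simp
  norm_num

end alg

end Pool.Agent.Lib.MP_ccbbf6_gt.L5.IA
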