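import Pool.Agent.Lib.MP_ccbbf6_gt.L5.IA04
import Pool.Agent.Lib.MP_ccbbf6_gt.L5.IA15
import Pool.Agent.Lib.MP_ccbbf6_gt.L5.IB0
import Pool.Agent.Lib.MP_ccbbf6_gt.L5.NX3

/-!
# Level 5, block INTa, part 16: the form `f` along plots with a frame (helper91)
-/

set_option autoImplicit false
set_option linter.unusedSectionVars false
set_option maxSynthPendingDepth 3

open Set Filter Topology Metric Real Module Matrix
open scoped ContDiff RealInnerProductSpace

noncomputable section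

namespace Pool.Agent.Lib.MP_ccbbf6_gt.L5.IA

open Geo L4 L4.ORI L4.FR NEG

variable {k : ℕ}

/-- a smooth function with square one is constant -/
theorem Cs_sq_one {e : Cs k} (he : e * e = 1) : ∃ ε : ℝ, ε * ε = 1 ∧ e = algebraMap ℝ (Cs k) ε := by
  have h1 : ∀ x, (e : V k → ℝ) x * (e : V k → ℝ) x = 1 := fun x => congrArg (fun f : Cs k => (f : V k → ℝ) x) he
  have hc : Continuous (e : V k → ℝ) := (Cs_smooth e).continuous
  refine ⟨(e : V k → ℝ) 0, h1 0, Cs_ext fun x => ?_⟩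
  change (e : V k → ℝ) x = (e : V k → ℝ) 0
  have h2 : Continuous fun x => (e : V k → ℝ) x * (e : V k → ℝ) 0 := hc.mul continuous_const
  have h3 : ∀ x, ((e : V k → ℝ) x * (e : V k → ℝ) 0) * ((e : V k → ℝ) x * (e : V k → ℝ) 0) = 1 := by
    intro x
    have h4 := h1 x
    have h5 := h1 0
    linear_combination ((e : V k → ℝ) 0 * (e : V k → ℝ) 0) * h4 + h5
  have h4 : (e : V k → ℝ) x * (e : V k → ℝ) 0 = 1 := by
    by_contra h
    have h5 : (e : V k → ℝ) x * (e : V k → ℝ) 0 = -1 := by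
      rcases mul_self_eq_one_iff.1 (h3 x) with h6 | h6
      · exact absurd h6 h
      · exact h6
    have h6 : (0 : ℝ) ∈ (fun x => (e : V k → ℝ) x * (e : V k → ℝ) 0) '' univ := by
      refine isPreconnected_univ.intermediate_value (mem_univ x) (mem_univ 0) h2.continuousOn ⟨?_, ?_⟩
      · change (e : V k → ℝ) x * (e : V k → ℝ) 0 ≤ 0
        rw [h5]
        norm_num
      · change 0 ≤ (e : V k → ℝ) 0 * (e : V k → ℝ) 0
        rw [h1 0]
        norm_num
    obtain ⟨z, -, hz⟩ := h6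
    have h7 := h3 z
    change (e : V k → ℝ) z * (e : V k → ℝ) 0 = 0 at hz
    rw [hz, mul_zero] at h7
    exact zero_ne_one h7
  have h5 := h1 0
  linear_combination (e : V k → ℝ) 0 * h4 - (e : V k → ℝ) x * h5

variable {n : ℕ} {M : Type} [MetricSpace M] [CompactSpace M] {𝒜 : SDist n M} {N : ℕ} {C : Eu N → Gs M → M}
  {P : Gs M → Eu N →L[ℝ] Eu N} {hB : Bl M}

/-- **the form `f` in a frame** -/
theorem fN_on (hk : 𝒜.HK 3) (hN : NegData 𝒜 3 hB C P) {b' : OBun 3 (Eu n) (spG 𝒜)} (hb' : KBun b')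
    (p : (spN 𝒜 P).Plot k) {a b : FR.Sm k N}
    (ha : ∀ x, P (p.1 x).1.1 (WithLp.toLp 2 ((a : V k → V N) x)) = WithLp.toLp 2 ((a : V k → V N) x))
    (hb : ∀ x, P (p.1 x).1.1 (WithLp.toLp 2 ((b : V k → V N) x)) = WithLp.toLp 2 ((b : V k → V N) x))
    (haa : ∀ x, ∑ i, (a : V k → V N) x i * (a : V k → V N) x i = 1)
    (hbb : ∀ x, ∑ i, (b : V k → V N) x i * (b : V k → V N) x i = 1)
    (hab : ∀ x, ∑ i, (a : V k → V N) x i * (b : V k → V N) x i = 0)
    (hya : ∀ x, ∑ i, (p.1 x).1.2 i * (a : V k → V N) x i = 0)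
    (hyb : ∀ x, ∑ i, (p.1 x).1.2 i * (b : V k → V N) x i = 0) :
    ∃ ε : ℝ, ε * ε = 1 ∧ Om.on (fN hk hN hb') p = ε • dd k (mu a b) := by
  obtain ⟨P', hP'⟩ : ∃ P', P' = ((pN hN).map (FHom.inc (circN hB hN)).g).map (FHom.on p).g := ⟨_, rfl⟩
  obtain ⟨y', hy'⟩ : ∃ y' : Fin N → Cs k, y' = fun l => (FHom.on p).g ((FHom.inc (circN hB hN)).g (yN hN l)) := ⟨_, rfl⟩
  obtain ⟨o', ho'⟩ : ∃ o' : (Fin 3 → Fin N) → Cs k, o' = fun I => (FHom.on p).g ((FHom.inc (circN hB hN)).g (oN lt3 hk hN hb' I)) :=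
    ⟨_, rfl⟩
  have hf : Om.on (fN hk hN hb') p = f3 (FF k) P' o' y' := by
    have h2 := (FHom.inc (circN hB hN)).f3 (P := pN hN) (y := yN hN) (o := oN lt3 hk hN hb')
    have h3 := (FHom.on p).f3 (P := (pN hN).map (FHom.inc (circN hB hN)).g)
      (o := fun I => (FHom.inc (circN hB hN)).g (oN lt3 hk hN hb' I)) (y := fun l => (FHom.inc (circN hB hN)).g (yN hN l))
    rw [hP', ho', hy', ← h3]
    exact congrArg (fun θ => Om.on θ p) h2
  have hOr : Or 3 P' o' := by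
    rw [hP', ho']
    exact ((or_oN lt3 hk hN hb').map' ((FHom.inc (circN hB hN)).g : SB (circN hB hN) →+* SF (spN 𝒜 P))).map'
      ((FHom.on p).g : SF (spN 𝒜 P) →+* Cs k)
  have hSec : Sec P' y' := by
    rw [hP', hy']
    exact ((sec_yN hN).map (FHom.inc (circN hB hN)).g).map (FHom.on p).g
  have eP : ∀ (x : V k) (i j : Fin N), (P' i j : V k → ℝ) x = etN (P (p.1 x).1.1) i j := by
    intro x i j
    rw [hP']
    rfl
  have ey : ∀ (x : V k) (i : Fin N), (y' i : V k → ℝ) x = (p.1 x).1.2 i := by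
    intro x i
    rw [hy']
    rfl
  have hsum : ∀ (x : V k) (f : Fin N → Cs k), ((∑ j, f j : Cs k) : V k → ℝ) x = ∑ j, (f j : V k → ℝ) x := by
    intro x f
    exact map_sum (((Pi.evalRingHom (fun _ : V k => ℝ) x).comp (Cs k).val.toRingHom : Cs k →+* ℝ)) f Finset.univ
  have key : ∀ (c : FR.Sm k N), (∀ x, P (p.1 x).1.1 (WithLp.toLp 2 ((c : V k → V N) x)) = WithLp.toLp 2 ((c : V k → V N) x)) →
      (∀ x, ∑ i, (p.1 x).1.2 i * (c : V k → V N) x i = 0) → (redP P' y').mulVec (fun i => c.cp i) = fun i => c.cp i := by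
    intro c hc hyc
    funext i
    refine Cs_ext fun x => ?_
    rw [Matrix.mulVec, dotProduct, hsum]
    have h1 : ∀ j, ((redP P' y' i j * c.cp j : Cs k) : V k → ℝ) x =
        etN (P (p.1 x).1.1) i j * (c : V k → V N) x j - (p.1 x).1.2 i * ((p.1 x).1.2 j * (c : V k → V N) x j) := by
      intro j
      change ((P' i j : V k → ℝ) x - (y' i : V k → ℝ) x * (y' j : V k → ℝ) x) * (c : V k → V N) x j = _
      rw [eP, ey, ey]
      ring
    simp only [h1]
    rw [Finset.sum_sub_distrib, ← Finset.mul_sum, hyc, mul_zero, sub_zero]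
    have h2 := etN_mulVec (P (p.1 x).1.1) (WithLp.toLp 2 ((c : V k → V N) x)) i
    rw [hc] at h2
    exact h2
  have hPO : PO (redP P' y') (fun i => a.cp i) (fun i => b.cp i) := by
    refine ⟨key a ha hya, key b hb hyb, Cs_ext fun x => ?_, Cs_ext fun x => ?_, Cs_ext fun x => ?_⟩
    · rw [hsum]
      exact haa x
    · rw [hsum]
      exact hbb x
    · rw [hsum]
      exact hab x
  obtain ⟨e, he, h1⟩ := eu2_frame (φ := FF k) (hOr.red hSec) hPO
  obtain ⟨ε, hε, heε⟩ := Cs_sq_one he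
  refine ⟨ε, hε, ?_⟩
  rw [hf]
  unfold f3
  rw [h1, heε]
  have h2 : (FF k).f (algebraMap ℝ (Cs k) ε) = algebraMap ℝ (Fm k) ε := AlgHom.commutes _ _
  rw [h2, ← Algebra.smul_def, smul_comm]
  congr 1
  unfold mu
  rw [map_smul]
  congr 1
  rw [map_sum]
  refine Finset.sum_congr rfl fun i _ => ?_
  rw [dd_mul, dd_dd, mul_zero, add_zero]
  rfl

end Pool.Agent.Lib.MP_ccbbf6_gt.L5.IA
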