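import Pool.Agent.Lib.MP_ccbbf6_gt.L5.IA12
import Pool.Agent.Lib.MP_ccbbf6_gt.L5.IA13
import Pool.Agent.Lib.MP_ccbbf6_gt.L5.IA14
import Pool.Agent.Lib.MP_ccbbf6_gt.L5.IA16

/-!
# Level 5, block INTa, part 17: `α` is an integer (helper91)
-/

set_option autoImplicit false
set_option linter.unusedSectionVars false

open Set Filter Topology Metric Real Module
open scoped ContDiff RealInnerProductSpace

noncomputable section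

namespace Pool.Agent.Lib.MP_ccbbf6_gt.L5.IA

open Geo L4 L4.ORI L4.FR NEG

variable {n : ℕ} {M : Type} [MetricSpace M] [CompactSpace M] {𝒜 : SDist n M} {N : ℕ} {C : Eu N → Gs M → M}
  {P : Gs M → Eu N →L[ℝ] Eu N} {hB : Bl M}

/-- **`α` is an integer** (`κ = 3`) -/
theorem alpha_int (hk : 𝒜.HK 3) (hn : 4 < n) (hN : NegData 𝒜 3 hB C P) {b' : OBun 3 (Eu n) (spG 𝒜)} (hb' : KBun b')
    (x₀ : (spN 𝒜 P).pt) {m : ℕ} (Φ : PhiD (spN 𝒜 P) (spM 𝒜) m) (hc : Φ.c = circN hB hN) (hf : Φ.f ^ 2 = fN hk hN hb' ^ 2)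
    {jb : ℤ} (hjb : Φ.b = jb)
    (hper : ∀ F : (spM 𝒜).Plot 4, (∀ i, FOK F.1 i) → ∃ k : ℤ, cI 4 (Om.on Φ.u F) = k) {α : ℝ}
    (hα : Φ.Ex (Φ.f ^ 2 - α • Φ.e ^ 2 - Φ.b • (Φ.xm + Φ.xp))) : ∃ z : ℤ, α = z := by
  obtain ⟨D, φ, a, b, hD, hF, pa, pb, xa, xb, hcl⟩ := exists_disc hk hn hN x₀
  obtain ⟨G, j, w, a4, b4, R1, R2, hG, hG1, hG0, ha4, hb4, ea, eb, eCS, ⟨h11, h22, h12⟩, hR, p4a, p4b, naa, nbb, nab, nxa, nxb⟩ :=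
    exists_hom hk hn hN hD hF pa pb xa xb hcl
  have hD' : Dsc Φ.c D x₀ := by rw [hc]; exact hD
  have hG1' : G.cmp (sl 3 1) = eqp Φ.c D := by rw [hc]; exact hG1
  have h1 := alpha_formula Φ hα hD' hG hG1' hG0
  obtain ⟨ε, hε, hon⟩ := fN_on hk hN hb' G p4a p4b naa nbb nab nxa nxb
  have h2 := cI_ff hε hon ha4 hb4
  rw [ea, eb, eCS, cI_rot hF] at h2
  obtain ⟨m', hm'⟩ := so3_int h11 h22 h12 hR
  rw [hm'] at h2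
  obtain ⟨k₀, hk₀⟩ := int_of_per hB hk le_rfl Φ.du hper Φ.F0 hG hG1' hG0
  obtain ⟨k₁, hk₁⟩ := int_of_per hB hk le_rfl Φ.du hper Φ.F1 hG hG1' hG0
  have e0 : cI 4 (Om.on Φ.xm G) = k₀ := hk₀
  have e1 : cI 4 (Om.on Φ.xp G) = k₁ := hk₁
  refine ⟨φ ^ 2 + 4 * m' - jb * (k₀ + k₁), ?_⟩
  rw [h1, hf, h2, e0, e1, hjb]
  push_cast
  ring

end Pool.Agent.Lib.MP_ccbbf6_gt.L5.IA
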