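import Pool.Agent.Lib.MP_ccbbf6_gt.L5.COH5
import Pool.Agent.Lib.MP_ccbbf6_gt.L5.PHN2
import Pool.Agent.Lib.MP_ccbbf6_gt.L5.PHN5

/-!
# Level 5, PHN 6: the volume bound for the negative bundle, `κ = 3` (helper56)
-/

set_option autoImplicit false
set_option maxSynthPendingDepth 3

open Set Filter Topology Real
open scoped ContDiff RealInnerProductSpace

noncomputable section

namespace Pool.Agent.Lib.MP_ccbbf6_gt.L5.NEG

open L4 L4.FR L4.ORI Geo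

variable {n' m R : ℕ} {M : Type} [MetricSpace M] [CompactSpace M] {𝒜 : SDist (n' + 1) M} {hB : Bl M}
  {C : Eu R → Gs M → M} {P : Gs M → Eu R →L[ℝ] Eu R} {f : Gs M → Eu R → M} [MeasurableSpace M] [BorelSpace M]
  (D : GeoD 𝒜 hB 3 m) (hN : NegData 𝒜 3 hB C P) (hF : FillP 𝒜 C P f) (hC : PFam 𝒜 C)
  {b : OBun 3 (Eu (n' + 1)) (spG 𝒜)} (hb : KBun b)

include hC in
/-- **the volume bound**, `κ = 3`; `α` and `s` are the coefficients of `f ^ 2 ~ α e ^ 2 + s (x_- + x_+)` -/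
theorem negB_volume {g : (spVF 𝒜 3).pt → ℝ} (hU : UD 𝒜 hB 3 D.u g) {p : M} {ψ : Om (spR (n' + 1))} {Bf : Fm (n' + 1)}
    (hc : ConcD 𝒜 hB 3 m p ψ Bf D.u) (he : |D.coh.eps| ≤ 1) {s : ℝ}
    (hNV : L5.hp1 (FO (spG 𝒜)) (mG_idem hN) = (GHom.pull D.coh.g).he (s • (D.coh.k1 + D.coh.k2))) (hs : |s| ≤ 2)
    (hα : ∀ α : ℝ, (∃ y, Bas (circN hB hN) y ∧ fN D.hk hN hb ^ 2 - α • (dO _ ((prN 𝒜 P).pull (AL hB 𝒜))) ^ 2 -
      s • (wt (FN hF) D.u 0 + wt (FN hF) D.u 1) = dO _ y) → 1 ≤ |α|) :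
    |TG hB (AL hB 𝒜 * dO _ (AL hB 𝒜) ^ (4 * m - 1))| ≤ 2 * ((4 * m - 1).choose (2 * m - 1) : ℝ) / (2 * m + 1) := by
  obtain ⟨ρ, hρ, h1⟩ := negB_rho D hN hF hC hb hNV
  obtain ⟨κ, κ3, dκ⟩ := (negB D hN hF hC hb).exists_kap hρ h1
  have hm := D.two
  have hn : 3 ≤ n' + 1 := by
    have := D.dim
    omega
  refine (negB D hN hF hC hb).volume_le hm κ κ3 dκ (fun D' h => negB_D D hN hF hC hb hn hU D' h) (fun α h => hα α ?_) hs
    (fun Θ r hΘ hd hr => ?_) he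
  · obtain ⟨y, hy, h2⟩ := h
    refine ⟨y, hy, ?_⟩
    have e : (negB D hN hF hC hb).f ^ 2 = fN D.hk hN hb ^ 2 := neg_pow_two _
    rw [e] at h2
    exact h2
  · refine D.hfub hc (a := D.coh.u ^ m) hΘ ?_ ?_ hr
    · have h3 := Deg_pow D.Du m
      rw [← D.dim] at h3
      exact h3
    · rw [map_pow]
      exact hd

end Pool.Agent.Lib.MP_ccbbf6_gt.L5.NEG
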