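import Pool.Agent.Lib.MP_ccbbf6_gt.L5.IA17
import Pool.Agent.Lib.MP_ccbbf6_gt.L5.PER08
import Pool.Agent.Lib.MP_ccbbf6_gt.L5.PHN6

/-!
# Level 5, block INTa, part 18: `1 ≤ |α|` and the volume bound (helper91)
-/

set_option autoImplicit false
set_option linter.unusedSectionVars false

open Set Filter Topology Metric Real Module
open scoped ContDiff RealInnerProductSpace

noncomputable section

namespace Pool.Agent.Lib.MP_ccbbf6_gt.L5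

open Geo L4 L4.ORI L4.FR NEG

/-- `α ≠ 0` if the number `∫ x ^ m σ` is not `0` -/
theorem PhiD.alpha_ne {X M : Space} {m : ℕ} (P : PhiD X M m) {G : Space} (hm : 1 ≤ m) (pr : SMap X G)
    (T : Om G →ₗ[ℝ] ℝ) (hI : ∀ w, P.I (P.f * pr.pull w) = 2 * T w) (ft : SMap G M)
    (h0 : ∀ x, P.F.1 (x, 1 / 2) = ft.1 (pr.1 x)) {σ : Om G} (hσ : dO G σ = ft.pull P.u ^ m)
    {D : ℝ} (hD : P.Ex (P.θ - D • P.f)) (hD0 : D ≠ 0) {α : ℝ}
    (hα : P.Ex (P.f ^ 2 - α • P.e ^ 2 - P.b • (P.xm + P.xp))) (hT : T (ft.pull P.u ^ m * σ) ≠ 0) : α ≠ 0 := by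
  rintro rfl
  have hxh : P.xh = pr.pull (ft.pull P.u) := by
    unfold xh wt
    have h : P.F.comp (jO X (1 / 2)) = ft.comp pr := SMap_ext h0
    rw [← pull_comp, h, pull_comp]
  obtain ⟨s, hs, hs2⟩ := P.exists_s (s0 := pr.pull σ) hm (by rw [pull_d, hσ, map_pow, hxh])
  obtain ⟨ξ, hP⟩ := P.phiData hD hα hs
  have h1 := hP.norm hm
  have hU : P.K.I ((P.θR * P.AR ^ m) • s) = D * (2 * T (ft.pull P.u ^ m * σ)) := by
    rw [P.U_eq hm hD hs, hs2, hxh, ← map_pow, ← map_mul, hI]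
  rw [hU, mul_zero, zero_mul] at h1
  have h2 : (m : ℝ) + 1 ≠ 0 := by positivity
  exact mul_ne_zero h2 (mul_ne_zero hD0 (mul_ne_zero two_ne_zero hT)) h1

namespace IA

variable {n' m R : ℕ} {M : Type} [MetricSpace M] [CompactSpace M] {𝒜 : SDist (n' + 1) M} {hB : Bl M}
  {C : Eu R → Gs M → M} {P : Gs M → Eu R →L[ℝ] Eu R} {f : Gs M → Eu R → M} [MeasurableSpace M] [BorelSpace M]
  (D : GeoD 𝒜 hB 3 m) (hN : NegData 𝒜 3 hB C P) (hF : FillP 𝒜 C P f) (hC : PFam 𝒜 C)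
  {b : OBun 3 (Eu (n' + 1)) (spG 𝒜)} (hb : KBun b)

omit [MeasurableSpace M] [BorelSpace M] in
include hN in
theorem nonempty_spN (c : Gs M) : Nonempty (spN 𝒜 P).pt := by
  have h1 := hN.rank c
  obtain ⟨x, hx⟩ : ∃ x, P c x ≠ 0 := by
    by_contra h
    push Not at h
    have h2 : LinearMap.range (P c : Eu R →ₗ[ℝ] Eu R) = ⊥ := by
      rw [LinearMap.range_eq_bot]
      exact LinearMap.ext h
    rw [h2, finrank_bot] at h1
    omega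
  refine ⟨⟨(c, ‖P c x‖⁻¹ • P c x), ?_, ?_⟩⟩
  · show P c (‖P c x‖⁻¹ • P c x) = _
    rw [map_smul, hN.idem]
  · show ‖‖P c x‖⁻¹ • P c x‖ = 1
    rw [norm_smul, norm_inv, norm_norm, inv_mul_cancel₀ (norm_ne_zero_iff.2 hx)]

include hC in
/-- **`1 ≤ |α|`**, `κ = 3`; `s = 4 j + 2` (only `s ∈ ℤ` is used) -/
theorem alpha_ge (hn : 4 < n' + 1) {g : (spVF 𝒜 3).pt → ℝ} (hU : UD 𝒜 hB 3 D.u g) {p : M} {ψ : Om (spR (n' + 1))}
    {Bf : Fm (n' + 1)} (hc : ConcD 𝒜 hB 3 m p ψ Bf D.u) (he : D.coh.eps ≠ 0) {s : ℝ}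
    (hNV : L5.hp1 (FO (spG 𝒜)) (mG_idem hN) = (GHom.pull D.coh.g).he (s • (D.coh.k1 + D.coh.k2)))
    (hs : ∃ j : ℤ, s = j) (α : ℝ) (hα : ∃ y, Bas (circN hB hN) y ∧
      fN D.hk hN hb ^ 2 - α • (dO _ ((prN 𝒜 P).pull (AL hB 𝒜))) ^ 2 -
        s • (wt (FN hF) D.u 0 + wt (FN hF) D.u 1) = dO _ y) : 1 ≤ |α| := by
  obtain ⟨ρ, hρ, h1⟩ := negB_rho D hN hF hC hb hNV
  obtain ⟨κ, κ3, dκ⟩ := (negB D hN hF hC hb).exists_kap hρ h1
  have hm := D.two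
  obtain ⟨j, hj⟩ := hs
  obtain ⟨x₀⟩ := nonempty_spN hN (gvg 𝒜 hB D.f0.1.1 (D.f0.1.2 0) (D.f0.2.2.1 0))
  have hsq : (negB D hN hF hC hb).f ^ 2 = fN D.hk hN hb ^ 2 := neg_pow_two (fN D.hk hN hb)
  have key : ∀ Φ : PhiD (spN 𝒜 P) (spM 𝒜) m, Φ.c = circN hB hN → Φ.u = D.u → Φ.f ^ 2 = fN D.hk hN hb ^ 2 → Φ.b = s →
      Φ.Ex (Φ.f ^ 2 - α • Φ.e ^ 2 - Φ.b • (Φ.xm + Φ.xp)) → ∃ z : ℤ, α = z := fun Φ k1 k2 k3 k4 k5 =>
    alpha_int D.hk hn hN hb x₀ Φ k1 k3 (k4.trans hj)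
      (fun F hF => per D.hk (by decide) (by norm_num) hn (by rw [k2]; exact hU) F (fun i => Or.inl (hF i))) k5
  have hEx : ((negB D hN hF hC hb).toPhiD κ κ3 dκ).Ex (((negB D hN hF hC hb).toPhiD κ κ3 dκ).f ^ 2 -
      α • ((negB D hN hF hC hb).toPhiD κ κ3 dκ).e ^ 2 - ((negB D hN hF hC hb).toPhiD κ κ3 dκ).b •
        (((negB D hN hF hC hb).toPhiD κ κ3 dκ).xm + ((negB D hN hF hC hb).toPhiD κ κ3 dκ).xp)) := by
    obtain ⟨y, hy, h2⟩ := hα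
    refine ⟨y, hy, ?_⟩
    rw [← h2, ← hsq]
    rfl
  obtain ⟨z, hz⟩ := key ((negB D hN hF hC hb).toPhiD κ κ3 dκ) rfl rfl hsq rfl hEx
  have h0 : α ≠ 0 := by
    obtain ⟨D', hD'⟩ := ((negB D hN hF hC hb).toPhiD κ κ3 dκ).exists_D
    obtain ⟨σ, ξ, hσN, -, -, -, hσ, hPσ⟩ := (negB D hN hF hC hb).D.exists_sig
    have hD0 : 1 ≤ |D'| := negB_D D hN hF hC hb (by omega) hU D' hD'
    refine ((negB D hN hF hC hb).toPhiD κ κ3 dκ).alpha_ne (by omega) (negB D hN hF hC hb).B.pi (negB D hN hF hC hb).TG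
      (fun w => ?_) (negB D hN hF hC hb).D.foot (negB D hN hF hC hb).flh (σ := σ) ?_ hD' ?_ hEx ?_
    · change (negB D hN hF hC hb).TG ((negB D hN hF hC hb).B.PI ((negB D hN hF hC hb).f *
        (negB D hN hF hC hb).B.pi.pull w)) = 2 * (negB D hN hF hC hb).TG w
      rw [(negB D hN hF hC hb).PI_f_mul, map_smul, smul_eq_mul]
    · rw [hσ]
      rfl
    · intro h
      rw [h, abs_zero] at hD0
      linarith
    · intro h
      have h3 : |(negB D hN hF hC hb).TG (D.coh.x ^ m * σ)| = |D.coh.eps| * |-(D.coh.eps / (m + 1))| := by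
        refine D.hfub hc (a := D.coh.u ^ m) hσN ?_ ?_ hPσ
        · have h3 := Deg_pow D.Du m
          rw [← D.dim] at h3
          exact h3
        · rw [map_pow]
          exact hσ
      have h4 : (negB D hN hF hC hb).TG (D.coh.x ^ m * σ) = 0 := h
      have h5 : (m : ℝ) + 1 ≠ 0 := by positivity
      rw [h4, abs_zero, eq_comm, mul_eq_zero, abs_eq_zero, abs_eq_zero, neg_eq_zero, div_eq_zero_iff] at h3
      rcases h3 with h3 | h3 | h3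
      · exact he h3
      · exact he h3
      · exact h5 h3
  rw [hz] at h0 ⊢
  have h6 : z ≠ 0 := fun h => h0 (by rw [h, Int.cast_zero])
  exact_mod_cast Int.one_le_abs h6

include hC hF hb in
/-- **the volume bound** for `κ = 3`, the only input is `|s| ≤ 2` -/
theorem volume_of_b (hn : 4 < n' + 1) {g : (spVF 𝒜 3).pt → ℝ} (hU : UD 𝒜 hB 3 D.u g) {p : M} {ψ : Om (spR (n' + 1))}
    {Bf : Fm (n' + 1)} (hc : ConcD 𝒜 hB 3 m p ψ Bf D.u) (he0 : D.coh.eps ≠ 0) (he : |D.coh.eps| ≤ 1) {s : ℝ}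
    (hNV : L5.hp1 (FO (spG 𝒜)) (mG_idem hN) = (GHom.pull D.coh.g).he (s • (D.coh.k1 + D.coh.k2)))
    (hs : ∃ j : ℤ, s = j) (hs2 : |s| ≤ 2) :
    |TG hB (AL hB 𝒜 * dO _ (AL hB 𝒜) ^ (4 * m - 1))| ≤ 2 * ((4 * m - 1).choose (2 * m - 1) : ℝ) / (2 * m + 1) :=
  negB_volume D hN hF hC hb hU hc he hNV hs2 fun α hα => alpha_ge D hN hF hC hb hn hU hc he0 hNV hs α hα

end IA

end Pool.Agent.Lib.MP_ccbbf6_gt.L5
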