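import Pool.Agent.Lib.MP_ccbbf6_gt.L5.EU7

/-!
# Level 5, INTb, file 1: the Chern-Simons form of `p_1 + 2 e` of an oriented bundle of rank 4 with an orthonormal frame (helper77)

Setting: `φ : Fun0 A G` (functions `A`, forms `B`), a frame `β : Matrix ι (Fin 4) A` with `βᵀ β = 1`, `β βᵀ = P`. All entries of `b := β.map φ.f` are
even, `θ := bᵀ * D b` (`th φ β`) is odd and antisymmetric, `F := D θ + θ θ` is even and antisymmetric.
PAPER PROOF.
(1) `th_anti`: from `D (bᵀ b) = 0` (`D_one`, `D_mul`): `D bᵀ * b = - bᵀ * D b`; entries: `(D bᵀ * b) i j = Σ d b_li * b_lj = Σ b_lj * d b_li` (even elements commute), i.e. `θ j i = - θ i j`. Diagonal: `θ i i = - θ i i`, so `= 0`.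
(2) `th_od`: `bᵀ` even, `D b` odd.
(3) `FF_anti`: `(D θ) j i = - (D θ) i j`; `(θ θ) j i = Σ θ_jk θ_ki = Σ θ_kj θ_ik = - Σ θ_ik θ_kj` (odd elements anticommute, `G.comm_odd`).
(4) `Rv_frame`: `Rv φ P = b * F * bᵀ`. `P.map φ.f = b bᵀ` (`φ.mul`), `D (b bᵀ) = D b * bᵀ + b * D bᵀ` (`D_mul`, b even), `R = (D b * bᵀ + b * D bᵀ)^2`; multiply by `b bᵀ` from the left, use `bᵀ b = 1`,
   `D bᵀ * b = -θ`, `D θ = D bᵀ * D b` (`D_mul`, `D_D`). CAREFUL: `(D b)ᵀ = D (bᵀ)` is `rfl`.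
(5) `ps_frame`: `ps P 2 = trace (P R^2) = trace ((P R)^2)` (`Idem.pow_mul`), `= trace (b F bᵀ b F bᵀ) = trace (F F)` (`tr_comm_ev`), and `trace (F F) = Σ F_ij F_ji = -2 Σ_(i<j) F_ij^2`
   (`Matrix.trace`, `Fin.sum_univ_four`, antisymmetry).
(6) `Z5_frame`: `o = push β o0` with `o0 I = det (of fun j k => if j = I k then 1 else 0)` (`EU4.push`), `St_push`, `pullT_MM`, `pullM φ β (Rv φ P) = bᵀ (b F bᵀ) b = F` (EU6), so `Z5 = Σ_I o0(I) F(I0,I1) F(I2,I3)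
   = Σ_σ sign σ F(σ0,σ1) F(σ2,σ3) = 8 (F01 F23 - F02 F13 + F03 F12)` (antisymmetry; even elements commute). Any other way is fine (e.g. expand `det` with `Matrix.det_apply` and sum over `I` first: `Σ_I Π_k [..] = ..`).
(7) `G1_eq` etc.: `F01 - F23 = d g1 + g2 g3` etc. (expand `θ θ` with `Fin.sum_univ_four`, antisymmetry, odd elements anticommute).
(8) `cs_formula`: `d (g1 dg1 + g2 dg2 + g3 dg3 + 2 g1 g2 g3) = G1^2 + G2^2 + G3^2` with `Gi = d gi + gj gk` : `d (gi dgi) = dgi dgi`, `d (g1 (g2 g3)) = dg1 g2 g3 - g1 (dg2 g3 - g2 dg3)`, squares `(g2 g3)^2 = 0`.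
(9) `cs_flat`: if `F = 0` then `d g1 = - g2 g3`, `d g2 = - g3 g1`, `d g3 = - g1 g2`, so `CS = -3 g1 g2 g3 + 2 g1 g2 g3`.
-/

set_option autoImplicit false
set_option maxSynthPendingDepth 3
set_option linter.unusedSectionVars false

open Matrix Function

noncomputable section

namespace Pool.Agent.Lib.MP_ccbbf6_gt.L5.IB

variable {ι : Type*} [Fintype ι] [DecidableEq ι]
variable {A : Type*} [CommRing A] [Algebra ℝ A] {B : Type*} [Ring B] [Algebra ℝ B] {G : GDA B}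

/-- connection form of a frame -/
def th (φ : Fun0 A G) (β : Matrix ι (Fin 4) A) : Matrix (Fin 4) (Fin 4) B := (β.map φ.f)ᵀ * G.D (β.map φ.f)

/-- curvature -/
def cu (G : GDA B) (T : Matrix (Fin 4) (Fin 4) B) : Matrix (Fin 4) (Fin 4) B := G.D T + T * T

/-- antiselfdual components -/
def g1 (T : Matrix (Fin 4) (Fin 4) B) : B := T 0 1 - T 2 3
/-- antiselfdual components -/
def g2 (T : Matrix (Fin 4) (Fin 4) B) : B := T 0 2 + T 1 3
/-- antiselfdual components -/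
def g3 (T : Matrix (Fin 4) (Fin 4) B) : B := T 0 3 - T 1 2

/-- Chern-Simons form -/
def CS (G : GDA B) (T : Matrix (Fin 4) (Fin 4) B) : B :=
  g1 T * G.d (g1 T) + g2 T * G.d (g2 T) + g3 T * G.d (g3 T) + (2 : ℝ) • (g1 T * (g2 T * g3 T))

variable {φ : Fun0 A G} {P : Matrix ι ι A} {o : (Fin 4 → ι) → A} {β : Matrix ι (Fin 4) A}

private theorem IB1_bev : G.Ev (β.map φ.f) := φ.Ev β

private theorem IB1_btev : G.Ev (β.map φ.f)ᵀ := φ.Ev βᵀ

private theorem IB1_btb (h : βᵀ * β = 1) : (β.map φ.f)ᵀ * β.map φ.f = 1 := by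
  have h1 := φ.mul βᵀ β
  rw [h, Fun0.one] at h1
  exact h1.symm

private theorem IB1_bbt (hP : β * βᵀ = P) : β.map φ.f * (β.map φ.f)ᵀ = P.map φ.f := by
  rw [← hP, φ.mul]
  rfl

private theorem IB1_Db (h : βᵀ * β = 1) : G.D (β.map φ.f)ᵀ * β.map φ.f = -th φ β := by
  have h1 := congrArg G.D (IB1_btb (φ := φ) h)
  rw [GDA.D_mul, GDA.D_one, IB1_btev] at h1
  exact eq_neg_of_add_eq_zero_left h1

private theorem IB1_half {x : B} (h : x = -x) : x = 0 := by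
  have h1 : (2 : ℝ) • x = 0 := by
    rw [two_smul]
    nth_rewrite 1 [h]
    exact neg_add_cancel x
  have h2 : x = (1 / 2 : ℝ) • ((2 : ℝ) • x) := by
    rw [smul_smul]
    norm_num
  rw [h2, h1, smul_zero]

theorem th_od : G.Od (th φ β) := IB1_btev.mul_od IB1_bev.D

theorem th_anti (h : βᵀ * β = 1) (i j : Fin 4) : th φ β j i = -th φ β i j := by
  have h1 : (th φ β)ᵀ = -th φ β := by
    rw [← IB1_Db h]
    unfold th
    rw [GDA.transpose_ev IB1_btev]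
    rfl
  have h2 := congrFun (congrFun h1 i) j
  rw [Matrix.transpose_apply, Matrix.neg_apply] at h2
  exact h2

theorem th_diag (h : βᵀ * β = 1) (i : Fin 4) : th φ β i i = 0 := IB1_half (th_anti h i i)

theorem cu_ev {T : Matrix (Fin 4) (Fin 4) B} (hT : G.Od T) : G.Ev (cu G T) := hT.D.add (hT.mul hT)

theorem cu_anti {T : Matrix (Fin 4) (Fin 4) B} (hT : G.Od T) (ha : ∀ i j, T j i = -T i j) (i j : Fin 4) :
    cu G T j i = -cu G T i j := by
  unfold cu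
  rw [Matrix.add_apply, Matrix.add_apply, GDA.D_apply, GDA.D_apply, ha i j, map_neg, neg_add, Matrix.mul_apply,
    Matrix.mul_apply, ← Finset.sum_neg_distrib]
  congr 1
  refine Finset.sum_congr rfl fun k _ => ?_
  rw [ha k j, ha i k, neg_mul_neg, G.comm_odd _ _ (hT.app _ _) (hT.app _ _)]

theorem Rv_frame (h : βᵀ * β = 1) (hP : β * βᵀ = P) :
    Rv φ P = β.map φ.f * cu G (th φ β) * (β.map φ.f)ᵀ := by
  have hb := IB1_btb (φ := φ) h
  have hD := IB1_Db (φ := φ) h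
  have hDt : G.D (th φ β) = G.D (β.map φ.f)ᵀ * G.D (β.map φ.f) := by
    unfold th
    rw [GDA.D_mul, GDA.D_D, Matrix.mul_zero, add_zero]
  unfold Rv GDA.R cu
  rw [hDt, ← IB1_bbt (φ := φ) hP, GDA.D_mul, IB1_bev]
  have hth : (β.map φ.f)ᵀ * G.D (β.map φ.f) = th φ β := rfl
  generalize th φ β = θ at hD hth ⊢
  generalize G.D (β.map φ.f)ᵀ = dt at hD ⊢
  generalize G.D (β.map φ.f) = db at hth ⊢
  generalize (β.map φ.f)ᵀ = t at hb hth ⊢
  generalize β.map φ.f = b at hb hD ⊢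
  have e1 : t * (db * t + b * dt) = θ * t + dt := by
    rw [Matrix.mul_add, ← Matrix.mul_assoc, hth, ← Matrix.mul_assoc, hb, Matrix.one_mul]
  have e2 : (θ * t + dt) * (db * t + b * dt) = (dt * db + θ * θ) * t := by
    have f1 : θ * t * (db * t) = θ * θ * t := by
      rw [Matrix.mul_assoc θ t (db * t), ← Matrix.mul_assoc t db t, hth, Matrix.mul_assoc]
    have f2 : θ * t * (b * dt) = θ * dt := by
      rw [Matrix.mul_assoc θ t (b * dt), ← Matrix.mul_assoc t b dt, hb, Matrix.one_mul]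
    have f3 : dt * (b * dt) = -(θ * dt) := by
      rw [← Matrix.mul_assoc, hD, Matrix.neg_mul]
    have f4 : dt * (db * t) = dt * db * t := (Matrix.mul_assoc _ _ _).symm
    rw [Matrix.add_mul, Matrix.mul_add, Matrix.mul_add, f1, f2, f3, f4, Matrix.add_mul]
    abel
  rw [Matrix.mul_assoc b t, ← Matrix.mul_assoc t, e1, e2, Matrix.mul_assoc]

/-- if `P` is constant then the curvature vanishes -/
theorem cu_zero (h : βᵀ * β = 1) (hP : β * βᵀ = P) (h0 : G.D (P.map φ.f) = 0) : cu G (th φ β) = 0 := by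
  have h1 := Rv_frame (φ := φ) h hP
  have h2 : Rv φ P = 0 := by
    unfold Rv GDA.R
    rw [h0, Matrix.zero_mul, Matrix.mul_zero]
  rw [h2] at h1
  have hb := IB1_btb (φ := φ) h
  calc cu G (th φ β) = ((β.map φ.f)ᵀ * β.map φ.f) * cu G (th φ β) * ((β.map φ.f)ᵀ * β.map φ.f) := by
        rw [hb, Matrix.one_mul, Matrix.mul_one]
    _ = (β.map φ.f)ᵀ * (β.map φ.f * cu G (th φ β) * (β.map φ.f)ᵀ) * β.map φ.f := by
        simp only [Matrix.mul_assoc]
    _ = 0 := by rw [← h1, Matrix.mul_zero, Matrix.zero_mul]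

private theorem IB1_trF {F : Matrix (Fin 4) (Fin 4) B} (ha : ∀ i j, F j i = -F i j) :
    trace (F * F) = (-2 : ℝ) • (F 0 1 * F 0 1 + F 0 2 * F 0 2 + F 0 3 * F 0 3 + F 1 2 * F 1 2 +
      F 1 3 * F 1 3 + F 2 3 * F 2 3) := by
  have h0 : ∀ i, F i i = 0 := fun i => IB1_half (ha i i)
  have e : ∀ x : B, (-2 : ℝ) • x = -(x + x) := fun x => by rw [neg_smul, two_smul]
  rw [e]
  unfold trace
  simp only [Matrix.diag_apply, Matrix.mul_apply, Fin.sum_univ_four]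
  rw [h0 0, h0 1, h0 2, h0 3, ha 0 1, ha 0 2, ha 0 3, ha 1 2, ha 1 3, ha 2 3]
  simp only [mul_neg, neg_mul, mul_zero]
  abel

theorem ps_frame (h : βᵀ * β = 1) (hP : β * βᵀ = P) : G.ps (P.map φ.f) 2 =
    (-2 : ℝ) • (cu G (th φ β) 0 1 * cu G (th φ β) 0 1 + cu G (th φ β) 0 2 * cu G (th φ β) 0 2 +
      cu G (th φ β) 0 3 * cu G (th φ β) 0 3 + cu G (th φ β) 1 2 * cu G (th φ β) 1 2 +
      cu G (th φ β) 1 3 * cu G (th φ β) 1 3 + cu G (th φ β) 2 3 * cu G (th φ β) 2 3) := by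
  have hPP : P * P = P := by
    rw [← hP, Matrix.mul_assoc, ← Matrix.mul_assoc βᵀ, h, Matrix.one_mul]
  have hI := φ.idem hPP
  have hb := IB1_btb (φ := φ) h
  rw [← IB1_trF (cu_anti th_od (th_anti h))]
  unfold GDA.ps
  rw [← hI.pow_mul two_ne_zero]
  have h1 : P.map φ.f * G.R (P.map φ.f) = β.map φ.f * cu G (th φ β) * (β.map φ.f)ᵀ := Rv_frame h hP
  rw [h1]
  have h2 : (β.map φ.f * cu G (th φ β) * (β.map φ.f)ᵀ) ^ 2 =
      β.map φ.f * (cu G (th φ β) * cu G (th φ β) * (β.map φ.f)ᵀ) := by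
    rw [pow_two]
    calc _ = β.map φ.f * (cu G (th φ β) * (((β.map φ.f)ᵀ * β.map φ.f) * (cu G (th φ β) * (β.map φ.f)ᵀ))) := by
          simp only [Matrix.mul_assoc]
      _ = _ := by rw [hb, Matrix.one_mul, Matrix.mul_assoc (cu G (th φ β))]
  rw [h2, GDA.tr_comm_ev IB1_bev, Matrix.mul_assoc, hb, Matrix.mul_one]

theorem Z5_frame (h : βᵀ * β = 1) (hP : β * βᵀ = P) (ho : ∀ I, o I = det (Matrix.of fun j k => β (I k) j)) :
    Z5 φ P o = (8 : ℝ) • (cu G (th φ β) 0 1 * cu G (th φ β) 2 3 - cu G (th φ β) 0 2 * cu G (th φ β) 1 3 +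
      cu G (th φ β) 0 3 * cu G (th φ β) 1 2) := by
  have hb : (β.map φ.f)ᵀ * β.map φ.f = 1 := by
    rw [← Matrix.transpose_map, ← φ.mul, h, φ.one]
  have hod : G.Od (th φ β) := th_od
  obtain ⟨F, hF⟩ : ∃ F, F = cu G (th φ β) := ⟨_, rfl⟩
  have sF : ∀ i j, G.s (F i j) = F i j := fun i j => by rw [hF]; exact (cu_ev hod).app i j
  have aF : ∀ i j, F j i = -F i j := fun i j => by rw [hF]; exact cu_anti hod (fun i j => th_anti h i j) i j
  have hpull : pullM φ β (Rv φ P) = F := by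
    unfold pullM
    rw [Rv_frame h hP, hF]
    calc (β.map φ.f)ᵀ * (β.map φ.f * cu G (th φ β) * (β.map φ.f)ᵀ) * β.map φ.f
        = ((β.map φ.f)ᵀ * β.map φ.f) * cu G (th φ β) * ((β.map φ.f)ᵀ * β.map φ.f) := by
          simp only [Matrix.mul_assoc]
      _ = cu G (th φ β) := by rw [hb, Matrix.one_mul, Matrix.mul_one]
  have e1 : Z5 φ P o = ∑ σ : Equiv.Perm (Fin 4), ((Equiv.Perm.sign σ : ℤ) : B) * MM F F σ := by
    unfold Z5 St
    have e2 : ∀ I : Fin 4 → ι, φ.f (o I) * MM (Rv φ P) (Rv φ P) I =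
        ∑ σ : Equiv.Perm (Fin 4), ((Equiv.Perm.sign σ : ℤ) : B) * (φ.f (∏ k, β (I k) (σ k)) * MM (Rv φ P) (Rv φ P) I) := by
      intro I
      rw [ho, Matrix.det_apply', map_sum, Finset.sum_mul]
      refine Finset.sum_congr rfl fun σ _ => ?_
      rw [map_mul, map_intCast, mul_assoc]
      rfl
    simp only [e2]
    rw [Finset.sum_comm]
    refine Finset.sum_congr rfl fun σ _ => ?_
    rw [← Finset.mul_sum, ← hpull, ← pullT_MM]
    rfl
  obtain ⟨H, hH⟩ : ∃ H : Equiv.Perm (Fin 4) → B, H = fun σ => ((Equiv.Perm.sign σ : ℤ) : B) * MM F F σ := ⟨_, rfl⟩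
  have key : ∀ τ : Equiv.Perm (Fin 4), (∀ I : Fin 4 → Fin 4, MM F F (I ∘ τ) = ((Equiv.Perm.sign τ : ℤ) : B) * MM F F I) →
      ∀ σ, H (σ * τ) = H σ := by
    intro τ hτ σ
    rw [hH]
    simp only
    have e3 : MM F F ⇑(σ * τ) = ((Equiv.Perm.sign τ : ℤ) : B) * MM F F σ := hτ σ
    have e4 : (((Equiv.Perm.sign τ : ℤ) : B)) * (((Equiv.Perm.sign τ : ℤ) : B)) = 1 := by
      rw [← Int.cast_mul, Int.units_coe_mul_self, Int.cast_one]
    rw [e3, Equiv.Perm.sign_mul, Units.val_mul, Int.cast_mul, mul_assoc (((Equiv.Perm.sign σ : ℤ) : B)),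
      ← mul_assoc (((Equiv.Perm.sign τ : ℤ) : B)), e4, one_mul]
  have h1 : ∀ σ, H (σ * Equiv.swap 0 1) = H σ := key _ fun I => by
    rw [Equiv.Perm.sign_swap (by decide)]
    simp only [Units.val_neg, Units.val_one, Int.cast_neg, Int.cast_one, neg_mul, one_mul]
    change F (I 1) (I 0) * F (I 2) (I 3) = -(F (I 0) (I 1) * F (I 2) (I 3))
    rw [aF (I 0) (I 1), neg_mul]
  have h2 : ∀ σ, H (σ * Equiv.swap 2 3) = H σ := key _ fun I => by
    rw [Equiv.Perm.sign_swap (by decide)]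
    simp only [Units.val_neg, Units.val_one, Int.cast_neg, Int.cast_one, neg_mul, one_mul]
    change F (I 0) (I 1) * F (I 3) (I 2) = -(F (I 0) (I 1) * F (I 2) (I 3))
    rw [aF (I 2) (I 3), mul_neg]
  have h3 : ∀ σ, H (σ * (Equiv.swap 0 2 * Equiv.swap 1 3)) = H σ := key _ fun I => by
    rw [Equiv.Perm.sign_mul, Equiv.Perm.sign_swap (by decide), Equiv.Perm.sign_swap (by decide)]
    simp only [mul_neg, mul_one, neg_neg, Units.val_one, Int.cast_one, one_mul]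
    change F (I 2) (I 3) * F (I 0) (I 1) = F (I 0) (I 1) * F (I 2) (I 3)
    exact G.comm_even _ _ (sF _ _)
  have g1 : H 1 = F 0 1 * F 2 3 := by
    rw [hH]
    simp only [Equiv.Perm.sign_one, Units.val_one, Int.cast_one, one_mul]
    rfl
  have g2 : H (Equiv.swap 1 2) = -(F 0 2 * F 1 3) := by
    rw [hH]
    simp only
    rw [Equiv.Perm.sign_swap (by decide)]
    simp only [Units.val_neg, Units.val_one, Int.cast_neg, Int.cast_one, neg_mul, one_mul]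
    rfl
  have g3 : H (Equiv.swap 1 3) = F 0 3 * F 1 2 := by
    rw [hH]
    simp only
    rw [Equiv.Perm.sign_swap (by decide)]
    simp only [Units.val_neg, Units.val_one, Int.cast_neg, Int.cast_one, neg_mul, one_mul]
    change -(F 0 3 * F 2 1) = F 0 3 * F 1 2
    rw [aF 1 2, mul_neg, neg_neg]
  have e5 := sum_perm4 H h1 h2 h3
  rw [g1, g2, g3] at e5
  have e6 : Z5 φ P o = (8 : ℕ) • (F 0 1 * F 2 3 + -(F 0 2 * F 1 3) + F 0 3 * F 1 2) := by
    rw [e1, ← e5, hH]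
  rw [← hF, e6]
  module

private theorem IB1_dz {T : Matrix (Fin 4) (Fin 4) B} (ha : ∀ i j, T j i = -T i j) (i : Fin 4) : T i i = 0 := by
  have h1 : (2 : ℝ) • T i i = 0 := by
    rw [two_smul]
    nth_rewrite 1 [ha i i]
    exact neg_add_cancel _
  have h2 : T i i = (1 / 2 : ℝ) • ((2 : ℝ) • T i i) := by
    rw [smul_smul]
    norm_num
  rw [h2, h1, smul_zero]

private theorem IB1_sq {x : B} (hx : G.s x = -x) : x * x = 0 := by
  have h1 : (2 : ℝ) • (x * x) = 0 := by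
    rw [two_smul]
    nth_rewrite 1 [G.comm_odd x x hx hx]
    exact neg_add_cancel _
  have h2 : x * x = (1 / 2 : ℝ) • ((2 : ℝ) • (x * x)) := by
    rw [smul_smul]
    norm_num
  rw [h2, h1, smul_zero]

private theorem IB1_o1 {T : Matrix (Fin 4) (Fin 4) B} (hT : G.Od T) : G.s (g1 T) = -g1 T := by
  unfold g1
  rw [map_sub, hT.app, hT.app]
  abel

private theorem IB1_o2 {T : Matrix (Fin 4) (Fin 4) B} (hT : G.Od T) : G.s (g2 T) = -g2 T := by
  unfold g2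
  rw [map_add, hT.app, hT.app]
  abel

private theorem IB1_o3 {T : Matrix (Fin 4) (Fin 4) B} (hT : G.Od T) : G.s (g3 T) = -g3 T := by
  unfold g3
  rw [map_sub, hT.app, hT.app]
  abel

private theorem IB1_ed {x : B} (hx : G.s x = -x) (y : B) : G.d x * y = y * G.d x := by
  refine G.comm_even _ _ ?_
  rw [G.s_d, hx, map_neg, neg_neg]

private theorem IB1_cu (T : Matrix (Fin 4) (Fin 4) B) (i j : Fin 4) : cu G T i j =
    G.d (T i j) + (T i 0 * T 0 j + T i 1 * T 1 j + T i 2 * T 2 j + T i 3 * T 3 j) := by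
  unfold cu
  rw [Matrix.add_apply, Matrix.mul_apply, Fin.sum_univ_four]
  rfl

theorem cu_g1 {T : Matrix (Fin 4) (Fin 4) B} (hT : G.Od T) (ha : ∀ i j, T j i = -T i j) :
    g1 (cu G T) = G.d (g1 T) + g2 T * g3 T := by
  have o := fun (a b c e : Fin 4) => G.comm_odd (T a b) (T c e) (hT.app a b) (hT.app c e)
  unfold g1 g2 g3
  rw [IB1_cu, IB1_cu, IB1_dz ha 0, IB1_dz ha 1, IB1_dz ha 2, IB1_dz ha 3, ha 1 2, ha 1 3, ha 0 2, map_sub]
  have o1 := o 1 3 0 3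
  have o2 := o 1 3 1 2
  simp only [add_mul, mul_sub, mul_neg, neg_mul, zero_mul, mul_zero]
  rw [o1, o2]
  abel

theorem cu_g2 {T : Matrix (Fin 4) (Fin 4) B} (hT : G.Od T) (ha : ∀ i j, T j i = -T i j) :
    g2 (cu G T) = G.d (g2 T) + g3 T * g1 T := by
  have o := fun (a b c e : Fin 4) => G.comm_odd (T a b) (T c e) (hT.app a b) (hT.app c e)
  unfold g1 g2 g3
  rw [IB1_cu, IB1_cu, IB1_dz ha 0, IB1_dz ha 1, IB1_dz ha 2, IB1_dz ha 3, ha 2 3, ha 0 1, map_add]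
  have o1 := o 0 3 0 1
  have o2 := o 1 2 0 1
  simp only [sub_mul, mul_sub, mul_neg, neg_mul, zero_mul, mul_zero]
  rw [o1, o2]
  abel

theorem cu_g3 {T : Matrix (Fin 4) (Fin 4) B} (hT : G.Od T) (ha : ∀ i j, T j i = -T i j) :
    g3 (cu G T) = G.d (g3 T) + g1 T * g2 T := by
  have o := fun (a b c e : Fin 4) => G.comm_odd (T a b) (T c e) (hT.app a b) (hT.app c e)
  unfold g1 g2 g3
  rw [IB1_cu, IB1_cu, IB1_dz ha 0, IB1_dz ha 1, IB1_dz ha 2, IB1_dz ha 3, ha 2 3, ha 0 1, map_sub]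
  have o1 := o 2 3 0 2
  have o2 := o 2 3 1 3
  simp only [sub_mul, mul_add, mul_neg, neg_mul, zero_mul, mul_zero]
  rw [o1, o2]
  abel

theorem d_CS {T : Matrix (Fin 4) (Fin 4) B} (hT : G.Od T) (ha : ∀ i j, T j i = -T i j) : G.d (CS G T) =
    g1 (cu G T) * g1 (cu G T) + g2 (cu G T) * g2 (cu G T) + g3 (cu G T) * g3 (cu G T) := by
  rw [cu_g1 hT ha, cu_g2 hT ha, cu_g3 hT ha]
  unfold CS
  have s1 := IB1_o1 hT
  have s2 := IB1_o2 hT
  have s3 := IB1_o3 hT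
  obtain ⟨a, ha'⟩ : ∃ a, a = g1 T := ⟨_, rfl⟩
  obtain ⟨b, hb'⟩ : ∃ b, b = g2 T := ⟨_, rfl⟩
  obtain ⟨c, hc'⟩ : ∃ c, c = g3 T := ⟨_, rfl⟩
  rw [← ha'] at s1 ⊢
  rw [← hb'] at s2 ⊢
  rw [← hc'] at s3 ⊢
  have ea := fun y => IB1_ed s1 y
  have eb := fun y => IB1_ed s2 y
  have ec := fun y => IB1_ed s3 y
  have oab := G.comm_odd a b s1 s2
  have oac := G.comm_odd a c s1 s3
  have obc := G.comm_odd b c s2 s3
  have z1 := IB1_sq s1
  have z2 := IB1_sq s2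
  have z3 := IB1_sq s3
  have d1 : G.d (a * G.d a) = G.d a * G.d a := by rw [G.d_mul, G.d_d, mul_zero, add_zero]
  have d2 : G.d (b * G.d b) = G.d b * G.d b := by rw [G.d_mul, G.d_d, mul_zero, add_zero]
  have d3 : G.d (c * G.d c) = G.d c * G.d c := by rw [G.d_mul, G.d_d, mul_zero, add_zero]
  have d4 : G.d (a * (b * c)) = G.d a * (b * c) + G.d b * (c * a) + G.d c * (a * b) := by
    rw [G.d_mul, G.d_mul, s1, s2, mul_add, ← mul_assoc (-a) (G.d b) c, ← eb, mul_assoc (G.d b) (-a) c, neg_mul a c,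
      oac, neg_neg, ← mul_assoc (-a) (-b), ← ec, neg_mul_neg]
    abel
  have q1 : (b * c) * (b * c) = 0 := by
    rw [mul_assoc, ← mul_assoc c b c, ← neg_neg (c * b), ← obc, neg_mul, mul_assoc b c c, z3, mul_zero, neg_zero, mul_zero]
  have q2 : (c * a) * (c * a) = 0 := by
    rw [mul_assoc, ← mul_assoc a c a, oac, neg_mul, mul_assoc c a a, z1, mul_zero, neg_zero, mul_zero]
  have q3 : (a * b) * (a * b) = 0 := by
    rw [mul_assoc, ← mul_assoc b a b, ← neg_neg (b * a), ← oab, neg_mul, mul_assoc a b b, z2, mul_zero, neg_zero, mul_zero]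
  rw [map_add, map_add, map_add, map_smul, d1, d2, d3, d4]
  simp only [add_mul, mul_add]
  rw [q1, q2, q3, ← ea (b * c), ← eb (c * a), ← ec (a * b)]
  module

/-- **`p_1 + 2 e` is the differential of the Chern-Simons form** -/
theorem cs_formula (h : βᵀ * β = 1) (hP : β * βᵀ = P) (ho : ∀ I, o I = det (Matrix.of fun j k => β (I k) j)) :
    (-(1 / (8 * Real.pi ^ 2))) • G.ps (P.map φ.f) 2 + (2 : ℝ) • eul φ P o = (1 / (4 * Real.pi ^ 2)) • G.d (CS G (th φ β)) := by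
  have hod : G.Od (th φ β) := th_od
  have ha : ∀ i j, th φ β j i = -th φ β i j := fun i j => th_anti h i j
  have hev := cu_ev hod
  rw [ps_frame h hP]
  unfold eul
  rw [Z5_frame h hP ho, d_CS hod ha]
  obtain ⟨F, hF⟩ : ∃ F, F = cu G (th φ β) := ⟨_, rfl⟩
  rw [← hF] at hev ⊢
  unfold g1 g2 g3
  have c1 := G.comm_even (F 2 3) (F 0 1) (hev.app 2 3)
  have c2 := G.comm_even (F 1 3) (F 0 2) (hev.app 1 3)
  have c3 := G.comm_even (F 1 2) (F 0 3) (hev.app 1 2)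
  simp only [sub_mul, mul_sub, add_mul, mul_add]
  rw [c1, c2, c3]
  have hp : Real.pi ≠ 0 := Real.pi_ne_zero
  have k1 : (-(1 / (8 * Real.pi ^ 2)) : ℝ) = (1 / (4 * Real.pi ^ 2)) * (-(1 / 2)) := by
    field_simp
    norm_num
  have k2 : (-(1 / (32 * Real.pi ^ 2)) : ℝ) = (1 / (4 * Real.pi ^ 2)) * (-(1 / 8)) := by
    field_simp
    norm_num
  rw [k1, k2]
  module

theorem cs_flat {T : Matrix (Fin 4) (Fin 4) B} (hT : G.Od T) (ha : ∀ i j, T j i = -T i j) (h0 : cu G T = 0) :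
    CS G T = -(g1 T * (g2 T * g3 T)) := by
  have s1 := IB1_o1 hT
  have s2 := IB1_o2 hT
  have s3 := IB1_o3 hT
  have e1 := cu_g1 hT ha
  have e2 := cu_g2 hT ha
  have e3 := cu_g3 hT ha
  have f1 : g1 (cu G T) = 0 := by
    rw [h0]
    exact sub_self _
  have f2 : g2 (cu G T) = 0 := by
    rw [h0]
    exact add_zero _
  have f3 : g3 (cu G T) = 0 := by
    rw [h0]
    exact sub_self _
  rw [f1] at e1
  rw [f2] at e2
  rw [f3] at e3
  unfold CS
  obtain ⟨a, ha'⟩ : ∃ a, a = g1 T := ⟨_, rfl⟩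
  obtain ⟨b, hb'⟩ : ∃ b, b = g2 T := ⟨_, rfl⟩
  obtain ⟨c, hc'⟩ : ∃ c, c = g3 T := ⟨_, rfl⟩
  rw [← ha'] at s1 e1 e2 e3 ⊢
  rw [← hb'] at s2 e1 e2 e3 ⊢
  rw [← hc'] at s3 e1 e2 e3 ⊢
  have oab := G.comm_odd b a s2 s1
  have oac := G.comm_odd c a s3 s1
  have obc := G.comm_odd c b s3 s2
  have g1' : G.d a = -(b * c) := (neg_eq_of_add_eq_zero_left e1.symm).symm
  have g2' : G.d b = -(c * a) := (neg_eq_of_add_eq_zero_left e2.symm).symm
  have g3' : G.d c = -(a * b) := (neg_eq_of_add_eq_zero_left e3.symm).symm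
  have p1 : b * (c * a) = a * (b * c) := by
    rw [oac, mul_neg, ← mul_assoc, oab, neg_mul, neg_neg, mul_assoc]
  have p2 : c * (a * b) = a * (b * c) := by
    rw [← mul_assoc, oac, neg_mul, mul_assoc, obc, mul_neg, neg_neg]
  rw [g1', g2', g3', mul_neg, mul_neg, mul_neg, p1, p2]
  module

/-- left multiplication by a constant isometry -/
theorem th_mul {β₀ : Matrix ι (Fin 4) A} (h0 : β₀ᵀ * β₀ = 1) (hc : G.D (β₀.map φ.f) = 0) (g : Matrix (Fin 4) (Fin 4) A) :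
    th φ (β₀ * g) = th φ g := by
  have h1 : ((β₀ * g).map φ.f)ᵀ = gᵀ.map φ.f * β₀ᵀ.map φ.f := by
    rw [← Matrix.transpose_map, Matrix.transpose_mul, φ.mul]
  have h2 : β₀ᵀ.map φ.f * β₀.map φ.f = 1 := by rw [← φ.mul, h0, φ.one]
  have h3 : G.D ((β₀ * g).map φ.f) = β₀.map φ.f * G.D (g.map φ.f) := by
    rw [φ.mul, GDA.D_mul, hc, Matrix.zero_mul, zero_add, φ.Ev β₀]
  unfold th
  rw [h1, h3, Matrix.mul_assoc, ← Matrix.mul_assoc (β₀ᵀ.map φ.f), h2, Matrix.one_mul, Matrix.transpose_map]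

/-- naturality -/
theorem th_nat {A' : Type*} [CommRing A'] [Algebra ℝ A'] {B' : Type*} [Ring B'] [Algebra ℝ B'] {G' : GDA B'}
    {φ' : Fun0 A' G'} (F : FHom φ φ') (β : Matrix ι (Fin 4) A) : (th φ β).map F.h.f = th φ' (β.map F.g) := by
  unfold th
  rw [F.h.map_mul', F.h.map_D, Matrix.transpose_map, F.mf]

theorem CS_nat {B' : Type*} [Ring B'] [Algebra ℝ B'] {G' : GDA B'} (F : GHom G G') (T : Matrix (Fin 4) (Fin 4) B) :
    F.f (CS G T) = CS G' (T.map F.f) := by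
  have h1 : F.f (g1 T) = g1 (T.map F.f) := map_sub F.f _ _
  have h2 : F.f (g2 T) = g2 (T.map F.f) := map_add F.f _ _
  have h3 : F.f (g3 T) = g3 (T.map F.f) := map_sub F.f _ _
  unfold CS
  rw [map_add, map_add, map_add, map_smul, map_mul, map_mul, map_mul, map_mul, map_mul, F.f_d, F.f_d, F.f_d, h1, h2, h3]

end Pool.Agent.Lib.MP_ccbbf6_gt.L5.IB
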