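import Pool.Agent.Lib.MP_ccbbf6_gt.L5.EU0

namespace Pool.Agent.Lib.MP_ccbbf6_gt.Geo
end Pool.Agent.Lib.MP_ccbbf6_gt.Geo

/-!
# Level 5, INTb, file 5: an orthonormal frame of a family of projections over the cube which is constant on all faces but one (helper77)

`P` is a symmetric idempotent matrix of rank `r` over `Cs (k+1)` which is constant off the open unit cube (`Off`). There is an orthonormal frame `β` (columns) which is constant on `OffL` (off the open cube `x_i ∈ (0,1)`, `i ≤ k-1`, or `x_k ≤ 0`).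
PAPER PROOF.
PART 1. `clp t = b t * t + (1 - b t) * (3 * Real.smoothTransition t - 1)`, `b` = `ContDiffBump` with centre 1/2 and radii 1/2, 3/2. On `[0,1]`: `b = 1`. `t ≥ 1`: `smoothTransition t = 1` (`Real.smoothTransition.one_of_one_le`), `clp = b t + 2 (1 - b) ≥ 1`;
    `t ≤ 0`: `smoothTransition t = 0`, `clp = b t - (1 - b) ≤ 0`; `|t - 1/2| ≥ 3/2`: `b = 0`, `|clp| ≤ 2`; else `|clp| ≤ 2` too.
  `exists_lin`: as in EPS07 (`Fr`, `contDiff_Fr`, `Fr_spec`): put `pt i z := Fin.snoc (pr k z) ((i / m) * clp (z (Fin.last k)))`, `B_0 = L0`, `B_(i+1) z = Q (pt (i+1) z) ∘ B_i z`, `B = B_m`. `Q` is uniformly continuous on `V (k+1)` (it is constant off a compact set: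
    `Q - Q 0` has compact support, `Continuous.uniformContinuous_of_hasCompactSupport` or similar), so for `m` large `‖Q (pt (i+1) z) - Q (pt i z)‖ < 1` for all `z` (`|clp| ≤ 2`), hence `B z` injective (as `Fr_spec`); `pt m z = z` if `z_k ∈ [0,1]`, and otherwise both
    `z` and `pt m z` are in `Off`, so `Q (pt m z) = Q z`. `pt 0 z` has last coordinate 0: `Off`, `Q = Q 0`, `Q 0 L0 = L0`. If `OffL z` then all `pt i z` are in `Off`, so `B z = L0`.
PART 2. `exists_on`: `F = EuclideanSpace ℝ ι`, `Q z` = the continuous linear map of the matrix `P(z)`, `A = EuclideanSpace ℝ (Fin r)`, `L0` = an orthonormal basis of the image of `Q 0` (dimension = trace = r), `b_j(z) = B z e_j` linearly independent, in the image;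
    `β(z)_j = gramSchmidtNormed ℝ (b(z)) j` (Mathlib): smooth by strong induction (`InnerProductSpace.gramSchmidt_def`, `gramSchmidt_ne_zero`; see L5/INTl.lean `VFld.gs` for the same argument), orthonormal, in the image of `Q z` (span), and `= L0` where `B z = L0`
    (an orthonormal family is its own Gram-Schmidt family). `β βᵀ = P`: `E = P - β βᵀ` is symmetric, `E E = E` (`P β = β`), trace 0, so `Σ E_ij^2 = 0`.
PART 3. `exists_or`: `o I * o J = det (P (I k) (J l)) = D I * D J`, `D I = det (of fun j k => β (I k) j)` (`Matrix.det_mul` for `of (β (I k) j) * of (β (J l) j)ᵀ`). So for each `x` there is a sign `s = ±1` with `o = s D` at `x` (`Σ o² = r!`, `Σ D² = r!` (`frame_nrm`), take `s = (1/r!) Σ o D`, `s² = 1`);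
    `s` is continuous on the connected space `V (k+1)`, so constant; if it is `-1` replace the column `0` of `β` by its negative (`r ≥ 1`; `D` changes sign, all other properties stay).
-/

set_option autoImplicit false
set_option maxSynthPendingDepth 3
set_option linter.unusedSectionVars false

open Matrix Function Filter Topology Set MeasureTheory
open scoped ContDiff Real

noncomputable section

namespace Pool.Agent.Lib.MP_ccbbf6_gt.L5.IB

open Geo L4 L4.FR

/-- off the open unit cube -/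
def Off {k : ℕ} (x : V k) : Prop := ∃ i, x i ≤ 0 ∨ 1 ≤ x i

/-- off the open cube times the positive ray in the last coordinate -/
def OffL {k : ℕ} (x : V (k + 1)) : Prop := (∃ i : Fin k, x i.castSucc ≤ 0 ∨ 1 ≤ x i.castSucc) ∨ x (Fin.last k) ≤ 0

/-- the bump function -/
def bclp : ContDiffBump (1 / 2 : ℝ) := ⟨1 / 2, 3 / 2, by norm_num, by norm_num⟩

/-- a smooth clamp -/
def clp (t : ℝ) : ℝ := bclp t * t + (1 - bclp t) * (3 * Real.smoothTransition t - 1)

theorem contDiff_clp : ContDiff ℝ ∞ clp := by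
  have hb : ContDiff ℝ ∞ bclp := bclp.contDiff
  have hs : ContDiff ℝ ∞ Real.smoothTransition := Real.smoothTransition.contDiff
  exact (hb.mul contDiff_id).add ((contDiff_const.sub hb).mul ((contDiff_const.mul hs).sub contDiff_const))

theorem clp_mid {t : ℝ} (h0 : 0 ≤ t) (h1 : t ≤ 1) : clp t = t := by
  have hb : bclp t = 1 := by
    refine bclp.one_of_mem_closedBall ?_
    rw [mem_closedBall_iff_norm, Real.norm_eq_abs]
    show |t - 1 / 2| ≤ 1 / 2
    rw [abs_le]
    constructor <;> linarith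
  unfold clp
  rw [hb]
  ring

theorem clp_ge {t : ℝ} (h : 1 ≤ t) : 1 ≤ clp t := by
  have h1 := bclp.nonneg' t
  have h2 : bclp t ≤ 1 := bclp.le_one
  unfold clp
  rw [Real.smoothTransition.one_of_one_le h]
  nlinarith [mul_nonneg h1 (sub_nonneg.2 h)]

theorem clp_le {t : ℝ} (h : t ≤ 0) : clp t ≤ 0 := by
  have h1 := bclp.nonneg' t
  have h2 : bclp t ≤ 1 := bclp.le_one
  unfold clp
  rw [Real.smoothTransition.zero_of_nonpos h]
  nlinarith [mul_nonneg h1 (neg_nonneg.2 h)]

theorem clp_abs (t : ℝ) : |clp t| ≤ 2 := by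
  have h1 := bclp.nonneg' t
  have h2 : bclp t ≤ 1 := bclp.le_one
  have h3 := Real.smoothTransition.nonneg t
  have h4 := Real.smoothTransition.le_one t
  have h5 : |3 * Real.smoothTransition t - 1| ≤ 2 := by
    rw [abs_le]
    constructor <;> linarith
  unfold clp
  by_cases h : (3 / 2 : ℝ) ≤ |t - 1 / 2|
  · have hb : bclp t = 0 := by
      refine bclp.zero_of_le_dist ?_
      rw [Real.dist_eq]
      exact h
    rw [hb, zero_mul, zero_add, sub_zero, one_mul]
    exact h5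
  · have h6 : |t| ≤ 2 := by
      rw [not_le, abs_lt] at h
      rw [abs_le]
      constructor <;> linarith [h.1, h.2]
    refine (abs_add_le _ _).trans ?_
    rw [abs_mul, abs_mul, abs_of_nonneg h1, abs_of_nonneg (sub_nonneg.2 h2)]
    have h7 := mul_le_mul_of_nonneg_left h6 h1
    have h8 := mul_le_mul_of_nonneg_left h5 (sub_nonneg.2 h2)
    linarith

/-- the path -/
private def IB5_pt {k : ℕ} (m i : ℕ) (z : V (k + 1)) : V (k + 1) :=
  Fin.snoc (pr k z) (((i : ℝ) / m) * clp (z (Fin.last k)))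

private theorem IB5_pt_smooth {k : ℕ} (m i : ℕ) : ContDiff ℝ ∞ (IB5_pt (k := k) m i) := by
  refine contDiff_pi.2 fun j => ?_
  refine Fin.lastCases ?_ (fun j => ?_) j
  · have h1 : (fun z : V (k + 1) => IB5_pt m i z (Fin.last k)) =
        fun z => ((i : ℝ) / m) * clp (z (Fin.last k)) := by
      funext z
      exact Fin.snoc_last (α := fun _ => ℝ) _ _
    rw [h1]
    exact contDiff_const.mul (contDiff_clp.comp (contDiff_apply ℝ ℝ (Fin.last k)))
  · have h1 : (fun z : V (k + 1) => IB5_pt m i z j.castSucc) = fun z => z j.castSucc := by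
      funext z
      exact Fin.snoc_castSucc (α := fun _ => ℝ) _ _ _
    rw [h1]
    exact contDiff_apply ℝ ℝ j.castSucc

private theorem IB5_pt_last {k : ℕ} (m i : ℕ) (z : V (k + 1)) :
    IB5_pt m i z (Fin.last k) = ((i : ℝ) / m) * clp (z (Fin.last k)) :=
  Fin.snoc_last (α := fun _ => ℝ) _ _

private theorem IB5_pt_cs {k : ℕ} (m i : ℕ) (z : V (k + 1)) (j : Fin k) :
    IB5_pt m i z j.castSucc = z j.castSucc :=
  Fin.snoc_castSucc (α := fun _ => ℝ) _ _ _

private def IB5_Fr {k : ℕ} {F : Type*} [NormedAddCommGroup F] [NormedSpace ℝ F] {A : Type*} [NormedAddCommGroup A]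
    [NormedSpace ℝ A] (Q : V (k + 1) → F →L[ℝ] F) (L0 : A →L[ℝ] F) (m : ℕ) : ℕ → V (k + 1) → A →L[ℝ] F
  | 0, _ => L0
  | i + 1, z => (Q (IB5_pt m (i + 1) z)).comp (IB5_Fr Q L0 m i z)

private theorem IB5_contDiff_Fr {k : ℕ} {F : Type*} [NormedAddCommGroup F] [NormedSpace ℝ F] {A : Type*}
    [NormedAddCommGroup A] [NormedSpace ℝ A] {Q : V (k + 1) → F →L[ℝ] F} (hQ : ContDiff ℝ ∞ Q) (L0 : A →L[ℝ] F)
    (m i : ℕ) : ContDiff ℝ ∞ (IB5_Fr Q L0 m i) := by
  induction i with
  | zero => exact contDiff_const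
  | succ i ih =>
    have h1 : ContDiff ℝ ∞ fun z : V (k + 1) => Q (IB5_pt m (i + 1) z) := hQ.comp (IB5_pt_smooth m (i + 1))
    exact h1.clm_comp ih

private theorem IB5_Fr_const {k : ℕ} {F : Type*} [NormedAddCommGroup F] [NormedSpace ℝ F] {A : Type*}
    [NormedAddCommGroup A] [NormedSpace ℝ A] {Q : V (k + 1) → F →L[ℝ] F} {L0 : A →L[ℝ] F}
    (h0 : (Q 0).comp L0 = L0) (m : ℕ) (z : V (k + 1)) (h : ∀ i, Q (IB5_pt m i z) = Q 0) (i : ℕ) :
    IB5_Fr Q L0 m i z = L0 := by
  induction i with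
  | zero => rfl
  | succ i ih =>
    change (Q (IB5_pt m (i + 1) z)).comp (IB5_Fr Q L0 m i z) = L0
    rw [h, ih, h0]

private theorem IB5_Fr_spec {k : ℕ} {F : Type*} [NormedAddCommGroup F] [NormedSpace ℝ F] {A : Type*}
    [NormedAddCommGroup A] [NormedSpace ℝ A] {Q : V (k + 1) → F →L[ℝ] F} (hid : ∀ z, (Q z).comp (Q z) = Q z)
    {L0 : A →L[ℝ] F} {m : ℕ} {z : V (k + 1)} (h0 : (Q (IB5_pt m 0 z)).comp L0 = L0) (hinj : ∀ a, L0 a = 0 → a = 0)
    (hz : ∀ i < m, ‖Q (IB5_pt m (i + 1) z) - Q (IB5_pt m i z)‖ < 1) (i : ℕ) (hi : i ≤ m) :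
    (Q (IB5_pt m i z)).comp (IB5_Fr Q L0 m i z) = IB5_Fr Q L0 m i z ∧ ∀ a, IB5_Fr Q L0 m i z a = 0 → a = 0 := by
  induction i with
  | zero => exact ⟨h0, hinj⟩
  | succ i ih =>
    obtain ⟨h1, h2⟩ := ih (by omega)
    constructor
    · change (Q (IB5_pt m (i + 1) z)).comp ((Q (IB5_pt m (i + 1) z)).comp (IB5_Fr Q L0 m i z)) = _
      rw [← ContinuousLinearMap.comp_assoc, hid]
      rfl
    · intro a ha
      have ha' : Q (IB5_pt m (i + 1) z) (IB5_Fr Q L0 m i z a) = 0 := ha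
      apply h2
      by_contra hne
      have h3 : Q (IB5_pt m i z) (IB5_Fr Q L0 m i z a) = IB5_Fr Q L0 m i z a :=
        congrArg (fun L : A →L[ℝ] F => L a) h1
      have h4 : ‖IB5_Fr Q L0 m i z a‖ = ‖(Q (IB5_pt m (i + 1) z) - Q (IB5_pt m i z)) (IB5_Fr Q L0 m i z a)‖ := by
        rw [_root_.sub_apply, ha', h3, zero_sub, norm_neg]
      have h5 := ContinuousLinearMap.le_opNorm (Q (IB5_pt m (i + 1) z) - Q (IB5_pt m i z)) (IB5_Fr Q L0 m i z a)
      have h6 : 0 < ‖IB5_Fr Q L0 m i z a‖ := norm_pos_iff.2 hne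
      have h7 := hz i (by omega)
      nlinarith

/-- linear frames -/
theorem exists_lin {k : ℕ} {F : Type*} [NormedAddCommGroup F] [NormedSpace ℝ F] {A : Type*} [NormedAddCommGroup A]
    [NormedSpace ℝ A] {Q : V (k + 1) → F →L[ℝ] F} (hQ : ContDiff ℝ ∞ Q) (hid : ∀ z, (Q z).comp (Q z) = Q z)
    (hc : ∀ x, Off x → Q x = Q 0) {L0 : A →L[ℝ] F} (h0 : (Q 0).comp L0 = L0) (hinj : ∀ a, L0 a = 0 → a = 0) :
    ∃ B : V (k + 1) → A →L[ℝ] F, ContDiff ℝ ∞ B ∧ (∀ z, (Q z).comp (B z) = B z) ∧ (∀ z a, B z a = 0 → a = 0) ∧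
      ∀ z, OffL z → B z = L0 := by
  have huc := (isCompact_closedBall (0 : V (k + 1)) 2).uniformContinuousOn_of_continuous hQ.continuous.continuousOn
  rw [Metric.uniformContinuousOn_iff] at huc
  obtain ⟨δ, hδ, hδ2⟩ := huc 1 one_pos
  obtain ⟨m, hm⟩ := exists_nat_gt (2 / δ)
  have hm0 : 0 < m := by
    have h1 : (0 : ℝ) < m := lt_trans (by positivity) hm
    exact_mod_cast h1
  have hmR : (0 : ℝ) < m := by exact_mod_cast hm0
  have hoff : ∀ z : V (k + 1), (∃ j : Fin k, z j.castSucc ≤ 0 ∨ 1 ≤ z j.castSucc) → ∀ i, Q (IB5_pt m i z) = Q 0 := by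
    rintro z ⟨j, hj⟩ i
    refine hc _ ⟨j.castSucc, ?_⟩
    rw [IB5_pt_cs]
    exact hj
  have hoff2 : ∀ z : V (k + 1), OffL z → ∀ i, Q (IB5_pt m i z) = Q 0 := by
    rintro z (hz | hz) i
    · exact hoff z hz i
    · refine hc _ ⟨Fin.last k, Or.inl ?_⟩
      rw [IB5_pt_last]
      exact mul_nonpos_of_nonneg_of_nonpos (by positivity) (clp_le hz)
  have hpt0 : ∀ z : V (k + 1), Q (IB5_pt m 0 z) = Q 0 := by
    intro z
    refine hc _ ⟨Fin.last k, Or.inl ?_⟩
    rw [IB5_pt_last, Nat.cast_zero, zero_div, zero_mul]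
  have hptm : ∀ z : V (k + 1), Q (IB5_pt m m z) = Q z := by
    intro z
    have h1 : IB5_pt m m z (Fin.last k) = clp (z (Fin.last k)) := by
      rw [IB5_pt_last, div_self hmR.ne', one_mul]
    rcases le_total (z (Fin.last k)) 0 with h | h
    · have h2 : Q z = Q 0 := hc _ ⟨Fin.last k, Or.inl h⟩
      rw [h2]
      refine hc _ ⟨Fin.last k, Or.inl ?_⟩
      rw [h1]
      exact clp_le h
    · rcases le_total 1 (z (Fin.last k)) with h' | h'
      · have h2 : Q z = Q 0 := hc _ ⟨Fin.last k, Or.inr h'⟩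
        rw [h2]
        refine hc _ ⟨Fin.last k, Or.inr ?_⟩
        rw [h1]
        exact clp_ge h'
      · have h2 : IB5_pt m m z = z := by
          unfold IB5_pt
          rw [div_self hmR.ne', one_mul, clp_mid h h']
          exact snoc_pr z
        rw [h2]
  have key : ∀ z : V (k + 1), ∀ i < m, ‖Q (IB5_pt m (i + 1) z) - Q (IB5_pt m i z)‖ < 1 := by
    intro z i hi
    by_cases h : ∃ j : Fin k, z j.castSucc ≤ 0 ∨ 1 ≤ z j.castSucc
    · rw [hoff z h, hoff z h, sub_self, norm_zero]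
      exact one_pos
    · push Not at h
      rw [← dist_eq_norm]
      have h1 : ∀ j : ℕ, j ≤ m → IB5_pt m j z ∈ Metric.closedBall (0 : V (k + 1)) 2 := by
        intro j hj
        rw [Metric.mem_closedBall, dist_zero_right, pi_norm_le_iff_of_nonneg (by norm_num)]
        intro l
        refine Fin.lastCases ?_ (fun l => ?_) l
        · rw [IB5_pt_last, Real.norm_eq_abs, abs_mul, abs_of_nonneg (by positivity)]
          have h2 : (j : ℝ) / m ≤ 1 := (div_le_one hmR).2 (by exact_mod_cast hj)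
          calc (j : ℝ) / m * |clp (z (Fin.last k))| ≤ 1 * |clp (z (Fin.last k))| :=
                mul_le_mul_of_nonneg_right h2 (abs_nonneg _)
            _ ≤ 2 := by rw [one_mul]; exact clp_abs _
        · rw [IB5_pt_cs, Real.norm_eq_abs, abs_le]
          have h2 := h l
          constructor <;> linarith [h2.1, h2.2]
      refine hδ2 _ (h1 (i + 1) hi) _ (h1 i hi.le) ?_
      rw [div_lt_iff₀ hδ] at hm
      have h3 : dist (IB5_pt m (i + 1) z) (IB5_pt m i z) ≤ 1 / m * 2 := by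
        rw [dist_pi_le_iff (by positivity)]
        intro l
        refine Fin.lastCases ?_ (fun l => ?_) l
        · rw [IB5_pt_last, IB5_pt_last, Real.dist_eq, ← sub_mul, abs_mul]
          have h4 : ((i + 1 : ℕ) : ℝ) / m - (i : ℝ) / m = 1 / m := by
            rw [← sub_div]
            push_cast
            ring
          rw [h4, abs_of_pos (by positivity)]
          exact mul_le_mul_of_nonneg_left (clp_abs _) (by positivity)
        · rw [IB5_pt_cs, IB5_pt_cs, dist_self]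
          positivity
      refine h3.trans_lt ?_
      rw [one_div, inv_mul_lt_iff₀ hmR]
      exact hm
  have h00 : ∀ z : V (k + 1), (Q (IB5_pt m 0 z)).comp L0 = L0 := fun z => by rw [hpt0, h0]
  refine ⟨IB5_Fr Q L0 m m, IB5_contDiff_Fr hQ L0 m m, fun z => ?_, fun z => ?_, fun z hz => ?_⟩
  · have h1 := (IB5_Fr_spec hid (h00 z) hinj (key z) m le_rfl).1
    rwa [hptm] at h1
  · exact (IB5_Fr_spec hid (h00 z) hinj (key z) m le_rfl).2
  · exact IB5_Fr_const h0 m z (hoff2 z hz) m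

variable {ι : Type} [Fintype ι] [DecidableEq ι] {k r : ℕ}

private theorem IB5_gs {F : Type*} [NormedAddCommGroup F] [InnerProductSpace ℝ F] {w : V (k + 1) → Fin r → F}
    (hw : ∀ j, ContDiff ℝ ∞ fun z => w z j) (hl : ∀ z, LinearIndependent ℝ (w z)) (i : Fin r) :
    ContDiff ℝ ∞ fun z => InnerProductSpace.gramSchmidt ℝ (w z) i := by
  induction i using WellFounded.induction (wellFounded_lt (α := Fin r)) with
  | _ n ih =>
    have h1 : ContDiff ℝ ∞ (fun v => ∑ i ∈ Finset.Iio n,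
        -(inner ℝ (InnerProductSpace.gramSchmidt ℝ (w v) i) (w v n) /
          inner ℝ (InnerProductSpace.gramSchmidt ℝ (w v) i) (InnerProductSpace.gramSchmidt ℝ (w v) i)) •
          InnerProductSpace.gramSchmidt ℝ (w v) i) := by
      refine ContDiff.sum fun i hi => ?_
      have h2 := ih i (Finset.mem_Iio.1 hi)
      refine ContDiff.smul ?_ h2
      refine ((h2.inner ℝ (hw n)).div (h2.inner ℝ h2) fun v => ?_).neg
      exact inner_self_ne_zero.2 (InnerProductSpace.gramSchmidt_ne_zero i (hl v))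
    have h4 : (fun z => InnerProductSpace.gramSchmidt ℝ (w z) n) = fun v => w v n + ∑ i ∈ Finset.Iio n,
        -(inner ℝ (InnerProductSpace.gramSchmidt ℝ (w v) i) (w v n) /
          inner ℝ (InnerProductSpace.gramSchmidt ℝ (w v) i) (InnerProductSpace.gramSchmidt ℝ (w v) i)) •
          InnerProductSpace.gramSchmidt ℝ (w v) i := by
      funext v
      have h3 := InnerProductSpace.gramSchmidt_def'' ℝ (w v) n
      have h5 := sub_eq_of_eq_add h3
      refine h5.symm.trans ?_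
      rw [sub_eq_add_neg, ← Finset.sum_neg_distrib]
      refine congrArg (fun x => w v n + x) (Finset.sum_congr rfl fun i _ => ?_)
      rw [real_inner_self_eq_norm_sq, neg_smul]
      rfl
    rw [h4]
    exact (hw n).add h1

private theorem IB5_gsn {F : Type*} [NormedAddCommGroup F] [InnerProductSpace ℝ F] {w : V (k + 1) → Fin r → F}
    (hw : ∀ j, ContDiff ℝ ∞ fun z => w z j) (hl : ∀ z, LinearIndependent ℝ (w z)) (i : Fin r) :
    ContDiff ℝ ∞ fun z => InnerProductSpace.gramSchmidtNormed ℝ (w z) i := by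
  have h1 := IB5_gs hw hl i
  have h2 : ∀ z, InnerProductSpace.gramSchmidt ℝ (w z) i ≠ 0 := fun z =>
    InnerProductSpace.gramSchmidt_ne_zero i (hl z)
  have h3 : ContDiff ℝ ∞ fun z => ‖InnerProductSpace.gramSchmidt ℝ (w z) i‖⁻¹ :=
    (h1.norm ℝ h2).inv fun z => norm_ne_zero_iff.2 (h2 z)
  exact h3.smul h1

private theorem IB5_mat {P : Matrix ι ι ℝ} {G : Matrix ι (Fin r) ℝ} (hs : Pᵀ = P) (hi : P * P = P)
    (ht : trace P = r) (h1 : Gᵀ * G = 1) (h2 : P * G = G) : G * Gᵀ = P := by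
  have h3 : Gᵀ * P = Gᵀ := by
    have h4 := congrArg Matrix.transpose h2
    rwa [Matrix.transpose_mul, hs] at h4
  have h5 : (P - G * Gᵀ)ᵀ = P - G * Gᵀ := by
    rw [Matrix.transpose_sub, hs, Matrix.transpose_mul, Matrix.transpose_transpose]
  have h6 : (P - G * Gᵀ) * (P - G * Gᵀ) = P - G * Gᵀ := by
    rw [Matrix.mul_sub, Matrix.sub_mul, Matrix.sub_mul, hi, Matrix.mul_assoc G Gᵀ P, h3,
      ← Matrix.mul_assoc P G Gᵀ, h2, Matrix.mul_assoc G Gᵀ (G * Gᵀ), ← Matrix.mul_assoc Gᵀ G Gᵀ, h1, Matrix.one_mul,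
      sub_self, sub_zero]
  have h7 : trace (P - G * Gᵀ) = 0 := by
    rw [Matrix.trace_sub, ht, Matrix.trace_mul_comm, h1, Matrix.trace_one, Fintype.card_fin, sub_self]
  have h8 : P - G * Gᵀ = 0 := by
    refine Matrix.trace_conjTranspose_mul_self_eq_zero_iff.1 ?_
    rw [Matrix.conjTranspose_eq_transpose_of_trivial, h5, h6, h7]
  exact (sub_eq_zero.1 h8).symm

/-- evaluation -/
private def IB5_ev (z : V (k + 1)) : Cs (k + 1) →+* ℝ :=
  (Pi.evalRingHom (fun _ : V (k + 1) => ℝ) z).comp (Cs (k + 1)).val.toRingHom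

private theorem IB5_ev_apply (z : V (k + 1)) (f : Cs (k + 1)) : IB5_ev z f = (f : V (k + 1) → ℝ) z := rfl

private theorem IB5_finrank {M : Matrix ι ι ℝ} (hi : M * M = M) (ht : trace M = r) :
    Module.finrank ℝ (LinearMap.range (Matrix.toEuclideanCLM (𝕜 := ℝ) M : EuclideanSpace ℝ ι →ₗ[ℝ] EuclideanSpace ℝ ι)) = r := by
  have h1 : IsIdempotentElem (Matrix.toEuclideanCLM (𝕜 := ℝ) M : EuclideanSpace ℝ ι →ₗ[ℝ] EuclideanSpace ℝ ι) := by
    refine LinearMap.ext fun v => ?_
    show Matrix.toEuclideanCLM (𝕜 := ℝ) M (Matrix.toEuclideanCLM (𝕜 := ℝ) M v) = Matrix.toEuclideanCLM (𝕜 := ℝ) M v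
    have h2 : Matrix.toEuclideanCLM (𝕜 := ℝ) M * Matrix.toEuclideanCLM (𝕜 := ℝ) M = Matrix.toEuclideanCLM (𝕜 := ℝ) M := by
      rw [← map_mul, hi]
    exact congrArg (fun L : EuclideanSpace ℝ ι →L[ℝ] EuclideanSpace ℝ ι => L v) h2
  have h3 := (LinearMap.IsIdempotentElem.isProj_range _ h1).trace
  have h4 : LinearMap.trace ℝ (EuclideanSpace ℝ ι) (Matrix.toEuclideanCLM (𝕜 := ℝ) M : EuclideanSpace ℝ ι →ₗ[ℝ] EuclideanSpace ℝ ι) =
      Matrix.trace M := by
    rw [LinearMap.trace_eq_matrix_trace ℝ (EuclideanSpace.basisFun ι ℝ).toBasis, Matrix.coe_toEuclideanCLM_eq_toEuclideanLin]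
    refine congrArg Matrix.trace ?_
    ext i j
    rw [LinearMap.toMatrix_apply]
    simp
  rw [h4, ht] at h3
  exact_mod_cast h3.symm

/-- orthonormal frames -/
theorem exists_on {P : Matrix ι ι (Cs (k + 1))} (hs : Pᵀ = P) (hi : P * P = P) (ht : trace P = r)
    (hc : ∀ x : V (k + 1), Off x → ∀ i j, (P i j : V (k + 1) → ℝ) x = (P i j : V (k + 1) → ℝ) 0) :
    ∃ β : Matrix ι (Fin r) (Cs (k + 1)), βᵀ * β = 1 ∧ β * βᵀ = P ∧
      ∀ x : V (k + 1), OffL x → ∀ i j, (β i j : V (k + 1) → ℝ) x = (β i j : V (k + 1) → ℝ) 0 := by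
  set M : V (k + 1) → Matrix ι ι ℝ := fun z => P.map (IB5_ev z) with hM
  have hMs : ∀ z, (M z)ᵀ = M z := fun z => by
    rw [hM]
    simp only
    rw [← Matrix.transpose_map, hs]
  have hMi : ∀ z, M z * M z = M z := fun z => by
    rw [hM]
    simp only
    rw [← Matrix.map_mul, hi]
  have hMt : ∀ z, trace (M z) = r := fun z => by
    have h1 := congrArg (IB5_ev z) ht
    rw [map_natCast] at h1
    rw [← h1]
    exact (map_sum (IB5_ev z) _ _).symm
  set Q : V (k + 1) → EuclideanSpace ℝ ι →L[ℝ] EuclideanSpace ℝ ι := fun z => Matrix.toEuclideanCLM (𝕜 := ℝ) (M z) with hQ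
  have hQs : ContDiff ℝ ∞ Q := by
    have h1 : Q = fun z => ∑ i, ∑ j, (P i j : V (k + 1) → ℝ) z • Matrix.toEuclideanCLM (𝕜 := ℝ) (Matrix.single i j (1 : ℝ)) := by
      funext z
      show Matrix.toEuclideanCLM (𝕜 := ℝ) (M z) = _
      rw [Matrix.matrix_eq_sum_single (M z), map_sum]
      refine Finset.sum_congr rfl fun i _ => ?_
      rw [map_sum]
      refine Finset.sum_congr rfl fun j _ => ?_
      rw [← map_smul, Matrix.smul_single, smul_eq_mul, mul_one]
      rfl
    rw [h1]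
    exact ContDiff.sum fun i _ => ContDiff.sum fun j _ => (Cs_smooth (P i j)).smul contDiff_const
  have hQi : ∀ z, (Q z).comp (Q z) = Q z := fun z => by
    show Matrix.toEuclideanCLM (𝕜 := ℝ) (M z) * Matrix.toEuclideanCLM (𝕜 := ℝ) (M z) = Matrix.toEuclideanCLM (𝕜 := ℝ) (M z)
    rw [← map_mul, hMi]
  have hQc : ∀ x, Off x → Q x = Q 0 := fun x hx => by
    refine congrArg (fun N : Matrix ι ι ℝ => Matrix.toEuclideanCLM (𝕜 := ℝ) N) ?_
    ext i j
    exact hc x hx i j
  obtain ⟨L0, hL0, hL0i⟩ : ∃ L0 : EuclideanSpace ℝ (Fin r) →L[ℝ] EuclideanSpace ℝ ι, (Q 0).comp L0 = L0 ∧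
      ∀ a, L0 a = 0 → a = 0 := by
    have h1 := IB5_finrank (hMi 0) (hMt 0)
    let W : Submodule ℝ (EuclideanSpace ℝ ι) := LinearMap.range (Q 0 : EuclideanSpace ℝ ι →ₗ[ℝ] EuclideanSpace ℝ ι)
    have h2 : Module.finrank ℝ (EuclideanSpace ℝ (Fin r)) = Module.finrank ℝ W := by
      rw [finrank_euclideanSpace_fin]
      exact h1.symm
    let e : EuclideanSpace ℝ (Fin r) ≃L[ℝ] W := ContinuousLinearEquiv.ofFinrankEq h2
    refine ⟨W.subtypeL.comp (e : EuclideanSpace ℝ (Fin r) →L[ℝ] W), ?_, fun a ha => ?_⟩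
    · refine ContinuousLinearMap.ext fun a => ?_
      obtain ⟨v, hv⟩ := (e a).2
      show Q 0 ((e a : W) : EuclideanSpace ℝ ι) = ((e a : W) : EuclideanSpace ℝ ι)
      rw [← hv]
      exact congrArg (fun L : EuclideanSpace ℝ ι →L[ℝ] EuclideanSpace ℝ ι => L v) (hQi 0)
    · have h3 : e a = 0 := Subtype.ext ha
      exact e.map_eq_zero_iff.1 h3
  obtain ⟨B, hB, hB1, hB2, hB3⟩ := exists_lin hQs hQi hQc hL0 hL0i
  set b : V (k + 1) → Fin r → EuclideanSpace ℝ ι := fun z j => B z (EuclideanSpace.single j 1) with hb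
  have hbs : ∀ j, ContDiff ℝ ∞ fun z => b z j := fun j => hB.clm_apply contDiff_const
  have hbl : ∀ z, LinearIndependent ℝ (b z) := fun z => by
    have h1 : LinearIndependent ℝ fun j : Fin r => (EuclideanSpace.single j 1 : EuclideanSpace ℝ (Fin r)) :=
      EuclideanSpace.orthonormal_single.linearIndependent
    exact h1.map' (B z : EuclideanSpace ℝ (Fin r) →ₗ[ℝ] EuclideanSpace ℝ ι) (LinearMap.ker_eq_bot'.2 (hB2 z))
  set g : V (k + 1) → Fin r → EuclideanSpace ℝ ι := fun z => InnerProductSpace.gramSchmidtNormed ℝ (b z) with hg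
  have hgs : ∀ j, ContDiff ℝ ∞ fun z => g z j := IB5_gsn hbs hbl
  have hgo : ∀ z, Orthonormal ℝ (g z) := fun z => InnerProductSpace.gramSchmidtNormed_orthonormal (hbl z)
  have hgQ : ∀ z j, Q z (g z j) = g z j := fun z j => by
    have h1 : g z j ∈ Submodule.span ℝ (Set.range (b z)) := by
      rw [← InnerProductSpace.span_gramSchmidt, ← InnerProductSpace.span_gramSchmidtNormed_range]
      exact Submodule.subset_span ⟨j, rfl⟩
    have h2 : Submodule.span ℝ (Set.range (b z)) ≤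
        LinearMap.eqLocus (Q z : EuclideanSpace ℝ ι →ₗ[ℝ] EuclideanSpace ℝ ι) LinearMap.id := by
      rw [Submodule.span_le]
      rintro _ ⟨l, rfl⟩
      exact congrArg (fun L : EuclideanSpace ℝ (Fin r) →L[ℝ] EuclideanSpace ℝ ι => L (EuclideanSpace.single l 1)) (hB1 z)
    exact h2 h1
  have hgc : ∀ z, OffL z → g z = g 0 := fun z hz => by
    have h1 : OffL (0 : V (k + 1)) := Or.inr le_rfl
    have h2 : b z = b 0 := by
      funext j
      show B z _ = B 0 _
      rw [hB3 z hz, hB3 0 h1]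
    show InnerProductSpace.gramSchmidtNormed ℝ (b z) = InnerProductSpace.gramSchmidtNormed ℝ (b 0)
    rw [h2]
  have hsm : ∀ i j, ContDiff ℝ ∞ fun z => (g z j) i := fun i j =>
    (EuclideanSpace.proj (𝕜 := ℝ) i : EuclideanSpace ℝ ι →L[ℝ] ℝ).contDiff.comp (hgs j)
  set β : Matrix ι (Fin r) (Cs (k + 1)) := Matrix.of fun i j => mkC (fun z => (g z j) i) (hsm i j) with hβ
  have hext : ∀ {α α' : Type} (A C : Matrix α α' (Cs (k + 1))), (∀ z, A.map (IB5_ev z) = C.map (IB5_ev z)) → A = C := by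
    intro α α' A C h
    refine Matrix.ext fun i j => Cs_ext fun z => ?_
    exact congrFun (congrFun (h z) i) j
  have hGG : ∀ z, (β.map (IB5_ev z))ᵀ * β.map (IB5_ev z) = 1 := fun z => by
    ext i j
    have h1 := orthonormal_iff_ite.1 (hgo z) i j
    rw [Matrix.mul_apply, Matrix.one_apply, ← h1, PiLp.inner_apply]
    refine Finset.sum_congr rfl fun l _ => ?_
    show (g z i) l * (g z j) l = (g z j) l * (g z i) l
    exact mul_comm _ _
  have hPG : ∀ z, M z * β.map (IB5_ev z) = β.map (IB5_ev z) := fun z => by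
    ext i j
    have h1 := congrArg (fun v : EuclideanSpace ℝ ι => v i) (hgQ z j)
    rw [Matrix.mul_apply]
    exact h1
  refine ⟨β, hext _ _ fun z => ?_, hext _ _ fun z => ?_, fun x hx i j => ?_⟩
  · rw [Matrix.map_mul, Matrix.transpose_map, hGG z, Matrix.map_one _ (map_zero _) (map_one _)]
  · rw [Matrix.map_mul, Matrix.transpose_map]
    exact IB5_mat (hMs z) (hMi z) (hMt z) (hGG z) (hPG z)
  · show (g x j) i = (g 0 j) i
    rw [hgc x hx]

/-- **positive orthonormal frames** -/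
theorem exists_or {P : Matrix ι ι (Cs (k + 1))} {o : (Fin (r + 1) → ι) → Cs (k + 1)} (h : Or (r + 1) P o)
    (hc : ∀ x : V (k + 1), Off x → ∀ i j, (P i j : V (k + 1) → ℝ) x = (P i j : V (k + 1) → ℝ) 0) :
    ∃ β : Matrix ι (Fin (r + 1)) (Cs (k + 1)), βᵀ * β = 1 ∧ β * βᵀ = P ∧
      (∀ I, o I = det (Matrix.of fun j k => β (I k) j)) ∧
      ∀ x : V (k + 1), OffL x → ∀ i j, (β i j : V (k + 1) → ℝ) x = (β i j : V (k + 1) → ℝ) 0 := by
  obtain ⟨β, hβ1, hβ2, hβ3⟩ := exists_on h.sym h.idem h.tr hc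
  obtain ⟨D, hD⟩ : ∃ D : (Fin (r + 1) → ι) → Cs (k + 1), ∀ I, D I = det (Matrix.of fun j k => β (I k) j) :=
    ⟨_, fun _ => rfl⟩
  have hoD : ∀ I J, o I * o J = D I * D J := by
    intro I J
    rw [h.rk, hD, hD]
    have e1 : (Matrix.of fun k l => P (I k) (J l)) =
        (Matrix.of fun j k => β (I k) j)ᵀ * (Matrix.of fun j k => β (J k) j) := by
      refine Matrix.ext fun k l => ?_
      rw [Matrix.mul_apply, Matrix.of_apply, ← hβ2, Matrix.mul_apply]
      exact Finset.sum_congr rfl fun j _ => rfl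
    rw [e1, Matrix.det_mul, Matrix.det_transpose]
  obtain ⟨c, hcc⟩ : ∃ c : Cs (k + 1), c * (((r + 1).factorial : ℕ) : Cs (k + 1)) = 1 := by
    refine ⟨algebraMap ℝ (Cs (k + 1)) (((r + 1).factorial : ℝ)⁻¹), ?_⟩
    rw [← map_natCast (algebraMap ℝ (Cs (k + 1))), ← map_mul, inv_mul_cancel₀, map_one]
    exact_mod_cast (r + 1).factorial_ne_zero
  obtain ⟨s, hs⟩ : ∃ s : Cs (k + 1), s = c * ∑ I, o I * D I := ⟨_, rfl⟩
  have hnrm := h.nrm
  have hs1 : ∀ J, s * D J = o J := by
    intro J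
    have e1 : (∑ I, o I * D I) * D J = (∑ I, o I * o I) * o J := by
      rw [Finset.sum_mul, Finset.sum_mul]
      refine Finset.sum_congr rfl fun I _ => ?_
      rw [mul_assoc, ← hoD, mul_assoc]
    rw [hs, mul_assoc, e1, hnrm, ← mul_assoc, hcc, one_mul]
  have hs2 : s * s = 1 := by
    have e1 : s * ∑ I, o I * D I = ∑ I, o I * o I := by
      rw [Finset.mul_sum]
      refine Finset.sum_congr rfl fun I _ => ?_
      rw [mul_left_comm, hs1]
    have e2 : s * s = c * (s * ∑ I, o I * D I) := by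
      conv_lhs => rw [hs]
      rw [hs]
      ring
    rw [e2, e1, hnrm, hcc]
  have hs3 : ∀ x, (s : V (k + 1) → ℝ) x = (s : V (k + 1) → ℝ) 0 := by
    have hcont : ContinuousOn (s : V (k + 1) → ℝ) Set.univ := (Cs_smooth s).continuous.continuousOn
    have hsq : Set.EqOn ((s : V (k + 1) → ℝ) ^ 2) 1 Set.univ := by
      intro x _
      have e1 := congrFun (congrArg (fun f : Cs (k + 1) => (f : V (k + 1) → ℝ)) hs2) x
      change (s : V (k + 1) → ℝ) x ^ 2 = 1
      rw [sq]
      exact e1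
    rcases isPreconnected_univ.eq_one_or_eq_neg_one_of_sq_eq hcont hsq with h1 | h1
    · intro x
      rw [h1 (Set.mem_univ x), h1 (Set.mem_univ 0)]
      rfl
    · intro x
      rw [h1 (Set.mem_univ x), h1 (Set.mem_univ 0)]
      rfl
  obtain ⟨ε, hε⟩ : ∃ ε : Fin (r + 1) → Cs (k + 1), ε = fun j => if j = 0 then s else 1 := ⟨_, rfl⟩
  have hε1 : diagonal ε * diagonal ε = (1 : Matrix (Fin (r + 1)) (Fin (r + 1)) (Cs (k + 1))) := by
    rw [Matrix.diagonal_mul_diagonal, ← Matrix.diagonal_one]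
    refine congrArg _ (funext fun j => ?_)
    rw [hε]
    by_cases hj : j = 0
    · simp only [hj, if_true]
      exact hs2
    · simp only [if_neg hj, mul_one]
  refine ⟨β * diagonal ε, ?_, ?_, ?_, ?_⟩
  · rw [Matrix.transpose_mul, Matrix.diagonal_transpose, Matrix.mul_assoc, ← Matrix.mul_assoc βᵀ, hβ1,
      Matrix.one_mul, hε1]
  · rw [Matrix.transpose_mul, Matrix.diagonal_transpose, Matrix.mul_assoc, ← Matrix.mul_assoc (diagonal ε), hε1,
      Matrix.one_mul, hβ2]
  · intro I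
    have e1 : (Matrix.of fun j k => (β * diagonal ε) (I k) j) = diagonal ε * Matrix.of fun j k => β (I k) j := by
      refine Matrix.ext fun j k => ?_
      rw [Matrix.diagonal_mul, Matrix.of_apply, Matrix.of_apply, Matrix.mul_diagonal, mul_comm]
    have e2 : ∏ j, ε j = s := by
      rw [hε, Fin.prod_univ_succ]
      simp [Fin.succ_ne_zero]
    rw [e1, Matrix.det_mul, Matrix.det_diagonal, e2, ← hD, hs1]
  · intro x hx i j
    rw [Matrix.mul_diagonal]
    have e1 : (ε j : V (k + 1) → ℝ) x = (ε j : V (k + 1) → ℝ) 0 := by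
      rw [hε]
      by_cases hj : j = 0
      · simp only [hj, if_true]
        exact hs3 x
      · simp only [if_neg hj]
        rfl
    change (β i j : V (k + 1) → ℝ) x * (ε j : V (k + 1) → ℝ) x = (β i j : V (k + 1) → ℝ) 0 * (ε j : V (k + 1) → ℝ) 0
    rw [hβ3 x hx i j, e1]

end Pool.Agent.Lib.MP_ccbbf6_gt.L5.IB
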