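import Pool.Agent.Lib.MP_ccbbf6_gt.L5.IB3
import Pool.Agent.Lib.MP_ccbbf6_gt.L5.IB4
import Pool.Agent.Lib.MP_ccbbf6_gt.L5.IB5

/-!
# Level 5, INTb, file 6: `∫ p_1 + 2 e ∈ 4 Z` for bundles of rank 4 over the cube which are constant on the boundary (helper77)
-/

set_option autoImplicit false
set_option maxSynthPendingDepth 3
set_option linter.unusedSectionVars false

open Matrix Function Filter Topology Set MeasureTheory
open scoped ContDiff Real

noncomputable section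

namespace Pool.Agent.Lib.MP_ccbbf6_gt.L5.IB

open Geo L4 L4.FR

section nat

variable {A : Type*} [CommRing A] [Algebra ℝ A] {B : Type*} [Ring B] [Algebra ℝ B] {G : GDA B}
variable {A' : Type*} [CommRing A'] [Algebra ℝ A'] {B' : Type*} [Ring B'] [Algebra ℝ B'] {G' : GDA B'}
variable {ι : Type*} [Fintype ι] [DecidableEq ι]

/-- the product of the antiselfdual components -/
def gw (T : Matrix (Fin 4) (Fin 4) B) : B := g1 T * (g2 T * g3 T)

theorem gw_map (f : B →ₐ[ℝ] B') (T : Matrix (Fin 4) (Fin 4) B) : f (gw T) = gw (T.map f) := by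
  unfold gw g1 g2 g3
  simp only [map_mul, map_sub, map_add, Matrix.map_apply]

end nat

/-- **the integral over the cube for maps to `SO(4)`** -/
theorem so4_int (g : Matrix (Fin 4) (Fin 4) (Cs 3)) (h1 : gᵀ * g = 1) (h2 : g.det = 1)
    (hc : ∀ x : V 3, Off x → ∀ i j, (g i j : V 3 → ℝ) x = if i = j then 1 else 0) :
    ∃ m : ℤ, cI 3 (gw (th (FF 3) g)) = m * (16 * π ^ 2) := by
  obtain ⟨κ, u, q, hκ, hu, hq, hg, hq0⟩ := exists_lift g h1 h2
  have e1 : cI 3 (gw (th (FF 3) g)) = cI 3 (FR.pb κ (gw (th (FF 3) g))) := by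
    refine cI_congr fun x hx => ?_
    have h3 : (κ : V 3 → V 3) =ᶠ[𝓝 x] Sm.id 3 := hκ x hx
    rw [ev_pb_congr h3, pb_id]
  have e2 : FR.pb κ (gw (th (FF 3) g)) = gw (th (FF 3) (Lm u * (Rm q)ᵀ)) := by
    have h3 := gw_map (FHom.pb κ).h.f (th (FF 3) g)
    rw [th_nat (FHom.pb κ) g] at h3
    have h4 : g.map (FHom.pb κ).g = Lm u * (Rm q)ᵀ := hg
    rw [h4] at h3
    exact h3
  have e3 : gw (th (FF 3) (Lm u * (Rm q)ᵀ)) = (8 : ℝ) • w (GF 3) (fun i => fc 3 (q i)) := w_th hu hq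
  obtain ⟨m, hm⟩ := deg_w hq (fun z hz hzi i hi => by
    refine hq0 z (fun a b => ?_) i hi
    have h3 : κ z = z := (hκ z hz).self_of_nhds
    rw [h3]
    refine hc z ?_ a b
    obtain ⟨j, hj | hj⟩ := hzi
    · exact ⟨j, Or.inl hj.le⟩
    · exact ⟨j, Or.inr hj.ge⟩)
  refine ⟨m, ?_⟩
  rw [e1, e2, e3, cI_smul, hm]
  ring

/-- a constant function -/
theorem Cs_const {k : ℕ} {f : Cs k} {c : ℝ} (h : ∀ x, (f : V k → ℝ) x = c) : f = algebraMap ℝ (Cs k) c := Cs_ext h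

section main

variable {ι : Type} [Fintype ι] [DecidableEq ι]

/-- constant matrices -/
def cM {κ μ : Type*} (k : ℕ) (M : Matrix κ μ ℝ) : Matrix κ μ (Cs k) := M.map (algebraMap ℝ (Cs k))

theorem D_cM {κ μ : Type*} [Fintype κ] [Fintype μ] [DecidableEq κ] [DecidableEq μ] {k : ℕ} (M : Matrix κ μ ℝ) : (GF k).D ((cM k M).map (FF k).f) = 0 := by
  ext i j
  change dd k (fc k (algebraMap ℝ (Cs k) (M i j))) = 0
  rw [AlgHom.commutes, Algebra.algebraMap_eq_smul_one, map_smul, dd_one, smul_zero]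

theorem off_of_offL {k : ℕ} {x : V (k + 1)} (h : OffL x) : Off x := by
  rcases h with ⟨i, hi⟩ | h
  · exact ⟨i.castSucc, hi⟩
  · exact ⟨Fin.last k, Or.inl h⟩

theorem ee_ev_dd {k : ℕ} {f : Cs k} {x : V k} {i : Fin k}
    (h : ∀ j, j ≠ i → (pd j f : V k → ℝ) x = 0) : ee i * ev x (dd k (fc k f)) = 0 := by
  rw [ev_dd_fc, ι_eq, Finset.mul_sum]
  refine Finset.sum_eq_zero fun j _ => ?_
  by_cases hj : j = i
  · rw [hj, mul_smul_comm, ee_mul_ee, smul_zero]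
  · rw [h j hj, zero_smul, mul_zero]

/-- a function which is constant on a hyperplane -/
theorem pd_zero_of_plane {k : ℕ} {f : Cs k} {i : Fin k} {c : ℝ}
    (h : ∀ x : V k, x i = c → (f : V k → ℝ) x = (f : V k → ℝ) 0) {x : V k} (hx : x i = c) {j : Fin k} (hj : j ≠ i) :
    (pd j f : V k → ℝ) x = 0 := by
  rw [pd_apply]
  have h1 : HasDerivAt (fun t : ℝ => (f : V k → ℝ) (x + t • (Pi.single j 1 : V k)))
      (fderiv ℝ (f : V k → ℝ) x (Pi.single j 1)) 0 := by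
    have h2 : HasFDerivAt (f : V k → ℝ) (fderiv ℝ (f : V k → ℝ) x) (x + (0 : ℝ) • (Pi.single j 1 : V k)) := by
      rw [zero_smul, add_zero]
      exact (Cs_diff f x).hasFDerivAt
    have h3 : HasDerivAt (fun t : ℝ => x + t • (Pi.single j 1 : V k)) (Pi.single j 1) 0 := by
      have h4 := ((hasDerivAt_id (0 : ℝ)).smul_const (Pi.single j 1 : V k)).const_add x
      rw [one_smul] at h4
      exact h4
    exact h2.comp_hasDerivAt 0 h3
  have h2 : (fun t : ℝ => (f : V k → ℝ) (x + t • (Pi.single j 1 : V k))) = fun _ => (f : V k → ℝ) 0 := by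
    funext t
    refine h _ ?_
    rw [Pi.add_apply, Pi.smul_apply, Pi.single_eq_of_ne (Ne.symm hj), smul_zero, add_zero, hx]
  rw [h2] at h1
  exact (hasDerivAt_const (0 : ℝ) ((f : V k → ℝ) 0)).unique h1 ▸ rfl

theorem ee_th {k : ℕ} {β : Matrix ι (Fin 4) (Cs k)} {i : Fin k} {x : V k}
    (h : ∀ a b j, j ≠ i → (pd j (β a b) : V k → ℝ) x = 0) (a b : Fin 4) : ee i * ev x (th (FF k) β a b) = 0 := by
  have h1 : th (FF k) β a b = ∑ l, fc k (β l a) * dd k (fc k (β l b)) := rfl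
  rw [h1, map_sum, Finset.mul_sum]
  refine Finset.sum_eq_zero fun l _ => ?_
  rw [map_mul, ev_fc, Algebra.commutes, ← mul_assoc, ee_ev_dd (h l b), zero_mul]

theorem ee_CS {k : ℕ} {T : Matrix (Fin 4) (Fin 4) (Fm k)} {i : Fin k} {x : V k} (h : ∀ a b, ee i * ev x (T a b) = 0) :
    ee i * ev x (CS (GF k) T) = 0 := by
  have h1 : ee i * ev x (g1 T) = 0 := by
    unfold g1
    rw [map_sub, mul_sub, h, h, sub_zero]
  have h2 : ee i * ev x (g2 T) = 0 := by
    unfold g2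
    rw [map_add, mul_add, h, h, add_zero]
  have h3 : ee i * ev x (g3 T) = 0 := by
    unfold g3
    rw [map_sub, mul_sub, h, h, sub_zero]
  unfold CS
  rw [map_add, map_add, map_add, map_smul, map_mul, map_mul, map_mul, map_mul, mul_add, mul_add, mul_add, mul_smul_comm,
    ← mul_assoc, ← mul_assoc, ← mul_assoc, ← mul_assoc, h1, h2, h3]
  simp only [zero_mul, add_zero, smul_zero]

/-- **`∫ p_1 + 2 e` is divisible by four** -/
theorem int_p1 {P : Matrix ι ι (Cs 4)} {o : (Fin 4 → ι) → Cs 4} (h : Or 4 P o)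
    (hc : ∀ x : V 4, Off x → ∀ i j, (P i j : V 4 → ℝ) x = (P i j : V 4 → ℝ) 0) :
    ∃ m : ℤ, cI 4 ((-(1 / (8 * π ^ 2))) • (GF 4).ps (P.map (FF 4).f) 2) + 2 * cI 4 (eul (FF 4) P o) = 4 * m := by
  obtain ⟨β, hβ, hP, ho, hβc⟩ := exists_or (k := 3) (r := 3) h hc
  -- the constant frame
  obtain ⟨b0, hb0⟩ : ∃ b0 : Matrix ι (Fin 4) ℝ, b0 = Matrix.of fun i j => (β i j : V 4 → ℝ) 0 := ⟨_, rfl⟩
  obtain ⟨β0, hβ0⟩ : ∃ β0 : Matrix ι (Fin 4) (Cs 3), β0 = cM 3 b0 := ⟨_, rfl⟩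
  have hbb : b0ᵀ * b0 = 1 := by
    ext i j
    have h1 := congrArg (fun M : Matrix (Fin 4) (Fin 4) (Cs 4) => (M i j : V 4 → ℝ) 0) hβ
    rw [hb0]
    simp only [Matrix.mul_apply, Matrix.transpose_apply, Matrix.one_apply, Matrix.of_apply] at h1 ⊢
    have h2 : ((∑ x, β x i * β x j : Cs 4) : V 4 → ℝ) 0 = ∑ x, (β x i : V 4 → ℝ) 0 * (β x j : V 4 → ℝ) 0 := by
      rw [AddSubmonoidClass.coe_finsetSum, Finset.sum_apply]
      rfl
    rw [← h2, h1]
    split_ifs <;> rfl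
  have hβ0o : β0ᵀ * β0 = 1 := by
    rw [hβ0]
    unfold cM
    rw [← Matrix.transpose_map, ← Matrix.map_mul, hbb, Matrix.map_one _ (map_zero _) (map_one _)]
  -- the top face
  obtain ⟨βt, hβt⟩ : ∃ βt : Matrix ι (Fin 4) (Cs 3), βt = β.map (sl 3 1).pull := ⟨_, rfl⟩
  obtain ⟨βb, hβb⟩ : ∃ βb : Matrix ι (Fin 4) (Cs 3), βb = β.map (sl 3 0).pull := ⟨_, rfl⟩
  have hbot : βb = β0 := by
    rw [hβb, hβ0, hb0]
    refine Matrix.ext fun i j => Cs_ext fun x => ?_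
    change (β i j : V 4 → ℝ) (sl 3 0 x) = (β i j : V 4 → ℝ) 0
    refine hβc _ (Or.inr ?_) i j
    rw [sl_apply]
    exact (Fin.snoc_last (α := fun _ => ℝ) _ _).le
  have hPt : βt * βtᵀ = β0 * β0ᵀ := by
    have h1 : βt * βtᵀ = P.map (sl 3 1).pull := by
      rw [hβt, ← Matrix.transpose_map, ← Matrix.map_mul, hP]
    have h2 : β0 * β0ᵀ = P.map (sl 3 0).pull := by
      rw [← hbot, hβb, ← Matrix.transpose_map, ← Matrix.map_mul, hP]
    rw [h1, h2]
    refine Matrix.ext fun i j => Cs_ext fun x => ?_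
    change (P i j : V 4 → ℝ) (sl 3 1 x) = (P i j : V 4 → ℝ) (sl 3 0 x)
    rw [hc (sl 3 1 x) ⟨Fin.last 3, Or.inr (by rw [sl_apply]; exact (Fin.snoc_last (α := fun _ => ℝ) _ _).ge)⟩,
      hc (sl 3 0 x) ⟨Fin.last 3, Or.inl (by rw [sl_apply]; exact (Fin.snoc_last (α := fun _ => ℝ) _ _).le)⟩]
  have hβto : βtᵀ * βt = 1 := by
    rw [hβt, ← Matrix.transpose_map, ← Matrix.map_mul, hβ, Matrix.map_one _ (map_zero _) (map_one _)]
  obtain ⟨g, hg⟩ : ∃ g : Matrix (Fin 4) (Fin 4) (Cs 3), g = β0ᵀ * βt := ⟨_, rfl⟩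
  have hg0 : β0 * g = βt := by
    rw [hg, ← Matrix.mul_assoc, ← hPt, Matrix.mul_assoc, hβto, Matrix.mul_one]
  have hgo : gᵀ * g = 1 := by
    rw [hg, Matrix.transpose_mul, Matrix.transpose_transpose, Matrix.mul_assoc, ← Matrix.mul_assoc β0, ← hPt,
      Matrix.mul_assoc βt, ← Matrix.mul_assoc, hβto, Matrix.mul_one]
  have hg1 : ∀ x : V 3, Off x → ∀ i j, (g i j : V 3 → ℝ) x = if i = j then 1 else 0 := by
    intro x hx i j
    have h1 : ∀ a b, (βt a b : V 3 → ℝ) x = b0 a b := by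
      intro a b
      rw [hβt, hb0]
      change (β a b : V 4 → ℝ) (sl 3 1 x) = (β a b : V 4 → ℝ) 0
      refine hβc _ (Or.inl ?_) a b
      obtain ⟨l, hl⟩ := hx
      refine ⟨l, ?_⟩
      rw [sl_apply, Fin.snoc_castSucc (α := fun _ => ℝ)]
      exact hl
    have h2 : (g i j : V 3 → ℝ) x = (b0ᵀ * b0) i j := by
      rw [hg, Matrix.mul_apply, Matrix.mul_apply, AddSubmonoidClass.coe_finsetSum, Finset.sum_apply]
      refine Finset.sum_congr rfl fun l _ => ?_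
      rw [← h1 l j, hβ0]
      rfl
    rw [h2, hbb, Matrix.one_apply]
  have hgd : g.det = 1 := by
    have h1 : g.det * g.det = 1 := by
      have h2 := congrArg Matrix.det hgo
      rwa [Matrix.det_mul, Matrix.det_transpose, Matrix.det_one] at h2
    have hcont : Continuous fun x => (g.det : V 3 → ℝ) x := (Cs_smooth g.det).continuous
    have h3 : ∀ x, (g.det : V 3 → ℝ) x = 1 ∨ (g.det : V 3 → ℝ) x = -1 := by
      intro x
      have h4 := congrArg (fun f : Cs 3 => (f : V 3 → ℝ) x) h1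
      have h5 : (g.det : V 3 → ℝ) x * (g.det : V 3 → ℝ) x = 1 := h4
      exact mul_self_eq_one_iff.1 h5
    have h0 : (g.det : V 3 → ℝ) 0 = 1 := by
      have h4 : ∀ (f : Cs 3 →+* ℝ), f g.det = (g.map f).det := fun f => f.map_det g
      let f : Cs 3 →+* ℝ := (Pi.evalRingHom (fun _ : V 3 => ℝ) 0).comp (Cs 3).val.toRingHom
      have h5 : (g.det : V 3 → ℝ) 0 = (g.map f).det := h4 f
      have h6 : g.map f = 1 := by
        ext i j
        rw [Matrix.map_apply, Matrix.one_apply]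
        exact hg1 0 ⟨0, Or.inl le_rfl⟩ i j
      rw [h5, h6, Matrix.det_one]
    refine Cs_ext fun x => ?_
    change (g.det : V 3 → ℝ) x = 1
    rcases h3 x with h4 | h4
    · exact h4
    · exfalso
      have h5 : (0 : ℝ) ∈ Icc ((g.det : V 3 → ℝ) x) ((g.det : V 3 → ℝ) 0) := by
        rw [h4, h0]
        constructor <;> norm_num
      obtain ⟨y, hy⟩ := intermediate_value_univ x 0 hcont h5
      have hy' : (g.det : V 3 → ℝ) y = 0 := hy
      rcases h3 y with h6 | h6 <;> rw [hy'] at h6 <;> norm_num at h6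
  obtain ⟨m, hm⟩ := so4_int g hgo hgd hg1
  refine ⟨m, ?_⟩
  -- the Chern-Simons form
  have hcs := cs_formula (φ := FF 4) hβ hP ho
  have hD0 : (GF 3).D (β0.map (FF 3).f) = 0 := by
    rw [hβ0]
    exact D_cM b0
  have hth : th (FF 3) βt = th (FF 3) g := by
    rw [← hg0]
    exact th_mul hβ0o hD0 g
  have hcu : cu (GF 3) (th (FF 3) βt) = 0 := by
    refine cu_zero hβto hPt ?_
    rw [hβ0]
    have h1 : cM 3 b0 * (cM 3 b0)ᵀ = cM 3 (b0 * b0ᵀ) := by
      unfold cM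
      rw [← Matrix.transpose_map, ← Matrix.map_mul]
    rw [h1]
    exact D_cM _
  have htop : FR.pb (sl 3 1) (CS (GF 4) (th (FF 4) β)) = -gw (th (FF 3) g) := by
    have h1 := CS_nat (FHom.pb (sl 3 1)).h (th (FF 4) β)
    rw [th_nat (FHom.pb (sl 3 1)) β] at h1
    have h2 : β.map (FHom.pb (sl 3 1)).g = βt := hβt.symm
    rw [h2, cs_flat th_od (th_anti hβto) hcu, hth] at h1
    exact h1
  have hbotc : FR.pb (sl 3 0) (CS (GF 4) (th (FF 4) β)) = 0 := by
    have h1 := CS_nat (FHom.pb (sl 3 0)).h (th (FF 4) β)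
    rw [th_nat (FHom.pb (sl 3 0)) β] at h1
    have h2 : β.map (FHom.pb (sl 3 0)).g = β0 := hβb.symm.trans hbot
    have h3 : th (FF 3) β0 = 0 := by
      unfold th
      rw [hD0, Matrix.mul_zero]
    rw [h2, h3] at h1
    have h4 : CS (GF 3) (0 : Matrix (Fin 4) (Fin 4) (Fm 3)) = 0 := by
      unfold CS g1 g2 g3
      simp
    rw [h4] at h1
    exact h1
  have hFz : ∀ i : Fin 3, Fz i.castSucc (CS (GF 4) (th (FF 4) β)) := by
    intro i x _ hxi
    rw [ee_CS (ee_th fun a b j hj => ?_), map_zero]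
    rcases hxi with hxi | hxi
    · exact pd_zero_of_plane (c := 0) (fun y hy => hβc y (Or.inl ⟨i, Or.inl hy.le⟩) a b) hxi hj
    · exact pd_zero_of_plane (c := 1) (fun y hy => hβc y (Or.inl ⟨i, Or.inr hy.ge⟩) a b) hxi hj
  have hfin : cI 4 (dd 4 (CS (GF 4) (th (FF 4) β))) = cI 3 (gw (th (FF 3) g)) := by
    have h1 := cI_dd_last (CS (GF 4) (th (FF 4) β)) hFz
    rw [htop, hbotc, cI_zero, cI_neg] at h1
    rw [h1]
    ring
  have e1 : cI 4 ((-(1 / (8 * π ^ 2))) • (GF 4).ps (P.map (FF 4).f) 2) + 2 * cI 4 (eul (FF 4) P o) =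
      cI 4 ((-(1 / (8 * π ^ 2))) • (GF 4).ps (P.map (FF 4).f) 2 + (2 : ℝ) • eul (FF 4) P o) := by
    rw [cI_add, cI_smul 2]
  have hpi : π ≠ 0 := Real.pi_ne_zero
  rw [e1, hcs, cI_smul]
  change 1 / (4 * π ^ 2) * cI 4 (dd 4 (CS (GF 4) (th (FF 4) β))) = 4 * m
  rw [hfin, hm]
  field_simp
  ring

end main

end Pool.Agent.Lib.MP_ccbbf6_gt.L5.IB
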