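import Pool.Agent.Lib.MP_ccbbf6_gt.L5.IB6
import Pool.Agent.Lib.MP_ccbbf6_gt.L5.IB7
import Pool.Agent.Lib.MP_ccbbf6_gt.L5.IB8
import Pool.Agent.Lib.MP_ccbbf6_gt.L5.INTr
import Pool.Agent.Lib.MP_ccbbf6_gt.L5.UORapi

/-!
# Level 5, INTb, file 9: `p_1(V) = b (u_1 + u_2)` with `b = 4 j + 2` (helper77)
-/

set_option autoImplicit false
set_option maxSynthPendingDepth 3
set_option linter.unusedSectionVars false
set_option linter.unusedVariables false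

open Set Filter Topology Metric Real Module MeasureTheory
open scoped ContDiff RealInnerProductSpace

noncomputable section

namespace Pool.Agent.Lib.MP_ccbbf6_gt.L5.IB

open Geo L4 L4.FR L4.ORI

/-! ### constant isometries -/

section const

variable {B : Type*} [Ring B] [Algebra ℝ B] {G : GDA B} {ι κ μ : Type*} [Fintype ι] [DecidableEq ι] [Fintype κ] [DecidableEq κ]
  [Fintype μ] [DecidableEq μ]

/-- constant matrices -/
def cB (B : Type*) [Ring B] [Algebra ℝ B] {ι κ : Type*} (J : Matrix ι κ ℝ) : Matrix ι κ B := J.map (algebraMap ℝ B)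

theorem D_cB_mul (J : Matrix κ ι ℝ) (M : Matrix ι μ B) : G.D (cB B J * M) = cB B J * G.D M := by
  ext i j
  show G.d ((cB B J * M) i j) = _
  rw [Matrix.mul_apply, Matrix.mul_apply, map_sum]
  refine Finset.sum_congr rfl fun l _ => ?_
  show G.d (algebraMap ℝ B (J i l) * M l j) = algebraMap ℝ B (J i l) * G.d (M l j)
  rw [← Algebra.smul_def, map_smul, Algebra.smul_def]

theorem D_mul_cB (M : Matrix μ ι B) (J : Matrix ι κ ℝ) : G.D (M * cB B J) = G.D M * cB B J := by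
  ext i j
  show G.d ((M * cB B J) i j) = _
  rw [Matrix.mul_apply, Matrix.mul_apply, map_sum]
  refine Finset.sum_congr rfl fun l _ => ?_
  show G.d (M i l * algebraMap ℝ B (J l j)) = G.d (M i l) * algebraMap ℝ B (J l j)
  rw [← Algebra.commutes, ← Algebra.smul_def, map_smul, Algebra.smul_def, Algebra.commutes]

theorem cB_mul (J : Matrix κ ι ℝ) (K : Matrix ι μ ℝ) : cB B J * cB B K = cB B (J * K) := by
  unfold cB
  rw [Matrix.map_mul]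

theorem trace_cB (J : Matrix κ ι ℝ) (X : Matrix ι κ B) : Matrix.trace (cB B J * X) = Matrix.trace (X * cB B J) := by
  unfold Matrix.trace
  simp only [Matrix.diag_apply, Matrix.mul_apply]
  rw [Finset.sum_comm]
  refine Finset.sum_congr rfl fun i _ => Finset.sum_congr rfl fun j _ => ?_
  show algebraMap ℝ B (J j i) * X i j = X i j * algebraMap ℝ B (J j i)
  rw [Algebra.commutes]

/-- **characteristic forms are invariant under constant isometries** -/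
theorem ps_const (P : Matrix ι ι B) {J : Matrix κ ι ℝ} (hJ : J.transpose * J = 1) (j : ℕ) :
    G.ps (cB B J * P * cB B J.transpose) j = G.ps P j := by
  have h1 : cB B J.transpose * cB B J = (1 : Matrix ι ι B) := by
    rw [cB_mul, hJ]
    unfold cB
    rw [Matrix.map_one _ (map_zero _) (map_one _)]
  have h2 : G.R (cB B J * P * cB B J.transpose) = cB B J * G.R P * cB B J.transpose := by
    unfold GDA.R
    rw [D_mul_cB, D_cB_mul]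
    calc cB B J * G.D P * cB B J.transpose * (cB B J * G.D P * cB B J.transpose)
        = cB B J * G.D P * (cB B J.transpose * cB B J) * G.D P * cB B J.transpose := by simp only [Matrix.mul_assoc]
      _ = cB B J * (G.D P * G.D P) * cB B J.transpose := by rw [h1]; simp only [Matrix.mul_assoc, Matrix.mul_one]
  have h3 : ∀ m : ℕ, cB B J * P * cB B J.transpose * (G.R (cB B J * P * cB B J.transpose)) ^ m =
      cB B J * (P * G.R P ^ m) * cB B J.transpose := by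
    intro m
    induction m with
    | zero => rw [pow_zero, pow_zero, Matrix.mul_one, Matrix.mul_one]
    | succ m ih =>
      rw [pow_succ, ← Matrix.mul_assoc, ih, h2, pow_succ]
      calc cB B J * (P * G.R P ^ m) * cB B J.transpose * (cB B J * G.R P * cB B J.transpose)
          = cB B J * (P * G.R P ^ m) * (cB B J.transpose * cB B J) * G.R P * cB B J.transpose := by
            simp only [Matrix.mul_assoc]
        _ = cB B J * (P * (G.R P ^ m * G.R P)) * cB B J.transpose := by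
            rw [h1]
            simp only [Matrix.mul_assoc, Matrix.mul_one]
  unfold GDA.ps
  rw [h3, Matrix.mul_assoc, trace_cB, Matrix.mul_assoc, h1, Matrix.mul_one]

end const

variable {n : ℕ} {M : Type} [MetricSpace M] [CompactSpace M] {𝒜 : SDist n M} {κ : ℕ}

/-! ### the cut plot -/

/-- the map `x ↦ (p, cutp p x)` -/
def cF (hB : Bl M) (hk : 𝒜.HK κ) (p : M) : SMap (spP 𝒜 p) (spF 𝒜) :=
  ⟨fun x => ⟨(p, cutp p x.1), (dist_cutp hB x.2 𝒜).1⟩, fun k P => ⟨sm_const p, fun z =>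
    smAt_cutp hB hk (g := fun z => (P.1 z).1) (P.2 z) (P.1 z).2⟩⟩

theorem pr_sl_pt {N : ℕ} (t : ℝ) (z : V N) : pr N (sl N t z) = z := by
  funext i
  show (Fin.snoc z t : V (N + 1)) i.castSucc = z i
  exact Fin.snoc_castSucc (α := fun _ => ℝ) _ _ _

theorem sl_last_pt {N : ℕ} (t : ℝ) (z : V N) : (sl N t z) (Fin.last N) = t :=
  Fin.snoc_last (α := fun _ => ℝ) _ _

/-- the homotopy from the cut plot to the plot -/
def cH (hB : Bl M) (hk : 𝒜.HK κ) (p : M) {N : ℕ} (Φ : (spP 𝒜 p).Plot N) : (spM 𝒜).Plot (N + 1) :=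
  ⟨fun z => (rat 𝒜 (cutp p (Φ.1 (pr N z)).1) (Φ.1 (pr N z)).1 (z (Fin.last N)) : M), fun z => by
    have h1 : SmAt 𝒜 (fun z : V (N + 1) => (Φ.1 (pr N z)).1) z := (Φ.cmp (pr N)).2 z
    have h2 : SmAt 𝒜 (fun z : V (N + 1) => cutp p (Φ.1 (pr N z)).1) z :=
      smAt_cutp hB hk h1 (Φ.1 (pr N z)).2
    refine smAt_rat hB h2 h1 (contDiff_apply ℝ ℝ (Fin.last N)).contDiffAt ?_
    rw [(dist_cutp hB (Φ.1 (pr N z)).2 𝒜).2]
    have h3 : 0 < dist p (Φ.1 (pr N z)).1 := dist_pos.2 (Ne.symm (Φ.1 (pr N z)).2)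
    linarith⟩

/-- **the integral along the cut plot** -/
theorem cI_cut (hB : Bl M) (hk : 𝒜.HK κ) (p : M) {N j : ℕ} (Φ : (spP 𝒜 p).Plot N) {y0 : (spP 𝒜 p).pt}
    (hΦ : ∀ z : V N, (∃ i, z i ≤ 0 ∨ 1 ≤ z i) → Φ.1 z = y0) {u : Om (spM 𝒜)} (hu : Deg j u) (hj : 2 ≤ j)
    (du : dO _ u = 0) :
    cI N (Om.on u ((pF2 𝒜).pl ((cF hB hk p).pl Φ))) = cI N (Om.on u ((inU (spM 𝒜) {x | x ≠ p}).pl Φ)) := by
  have h0 := cI_homotopy hu hj du (cH hB hk p Φ) (⟨fun t => (rat 𝒜 (cutp p y0.1) y0.1 (t 0) : M), ?_⟩) ?_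
  · have e1 : (cH hB hk p Φ).cmp (sl N 1) = (inU (spM 𝒜) {x | x ≠ p}).pl Φ := Plot_ext fun z => by
      show (rat 𝒜 (cutp p (Φ.1 (pr N (sl N 1 z))).1) (Φ.1 (pr N (sl N 1 z))).1 ((sl N 1 z) (Fin.last N)) : M) = (Φ.1 z).1
      rw [pr_sl_pt, sl_last_pt, rat_one hB]
    have e0 : (cH hB hk p Φ).cmp (sl N 0) = (pF2 𝒜).pl ((cF hB hk p).pl Φ) := Plot_ext fun z => by
      show (rat 𝒜 (cutp p (Φ.1 (pr N (sl N 0 z))).1) (Φ.1 (pr N (sl N 0 z))).1 ((sl N 0 z) (Fin.last N)) : M) = cutp p (Φ.1 z).1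
      rw [pr_sl_pt, sl_last_pt, rat_zero hB]
    rw [← e0, ← e1, h0]
  · intro t
    have h1 : SmAt 𝒜 (fun _ : V 1 => cutp p y0.1) t := smAt_const _ _
    have h2 : SmAt 𝒜 (fun _ : V 1 => (y0.1 : M)) t := smAt_const _ _
    refine smAt_rat hB h1 h2 (contDiff_apply ℝ ℝ (0 : Fin 1)).contDiffAt ?_
    rw [(dist_cutp hB y0.2 𝒜).2]
    have h3 : 0 < dist p y0.1 := dist_pos.2 (Ne.symm y0.2)
    linarith
  · intro z hz t
    show (rat 𝒜 (cutp p (Φ.1 (pr N (Fin.snoc z t))).1) (Φ.1 (pr N (Fin.snoc z t))).1 ((Fin.snoc z t : V (N + 1)) (Fin.last N)) : M) = _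
    have h1 : pr N (Fin.snoc z t : V (N + 1)) = z := pr_sl_pt t z
    have h2 : (Fin.snoc z t : V (N + 1)) (Fin.last N) = t := sl_last_pt t z
    rw [h1, h2, hΦ z hz]

/-! ### a pair of points -/

/-- there are `x`, `y` with `d(x, p) = d(x, y) = π`, `y ≠ p` -/
theorem exists_xy (hn : κ + 1 < n) (hB : Bl M) (hk : 𝒜.HK κ) (p : M) :
    ∃ f : (spVF 𝒜 κ).pt, dist ((f.1.1 0).1 0) p = π ∧ (f.1.1 0).1 π ≠ p := by
  obtain ⟨v, hv⟩ : ∃ v : Eu n, ‖v‖ = 1 := ⟨EuclideanSpace.single ⟨0, by omega⟩ 1, by simp⟩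
  obtain ⟨x, hx⟩ : ∃ x, x = 𝒜.gv p v π := ⟨_, rfl⟩
  have hpx : dist p x = π := by rw [hx, gv_dist 𝒜 hB p hv pi_pos.le le_rfl]
  have hxp : dist x p = π := by rw [dist_comm, hpx]
  have hne : p ≠ x := by
    intro h
    rw [h, dist_self] at hpx
    exact pi_pos.ne hpx
  obtain ⟨hd1, hd2⟩ := dirOf_spec (𝒜 := 𝒜) hB (p := x) (x := p) hne
  have hfr : finrank ℝ (VF 𝒜 ⟨(x, p), hxp⟩) = κ + 1 := finrank_VF hB hk _
  obtain ⟨w, hw⟩ : ∃ w : Eu n, w ∉ VF 𝒜 ⟨(x, p), hxp⟩ := by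
    by_contra h
    push Not at h
    have h1 : VF 𝒜 ⟨(x, p), hxp⟩ = ⊤ := Submodule.eq_top_iff'.2 h
    rw [h1, finrank_top, finrank_euclideanSpace_fin] at hfr
    omega
  have hw0 : w ≠ 0 := fun h => hw (by rw [h]; exact Submodule.zero_mem _)
  have hn1 : ‖‖w‖⁻¹ • w‖ = 1 := norm_normalize hw0
  have hw1 : ‖w‖⁻¹ • w ∉ VF 𝒜 ⟨(x, p), hxp⟩ := by
    intro h
    exact hw ((Submodule.smul_mem_iff _ (inv_ne_zero (norm_ne_zero_iff.2 hw0))).1 h)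
  obtain ⟨Q, hQ⟩ : ∃ Q : (spG 𝒜).Plot 0, Q.1 0 = gvg 𝒜 hB x _ hn1 :=
    ⟨⟨fun _ => gvg 𝒜 hB x _ hn1, ⟨sm_const _, sm_const _⟩⟩, rfl⟩
  obtain ⟨h, R, -, hR⟩ := LLift_f0V (𝒜 := 𝒜) hB hk 0 Q 0
  have h1 : ((R.1 0).1.1 0) = gvg 𝒜 hB x _ hn1 := by
    have h2 : (f0V 𝒜 κ).1 (R.1 0) = Q.1 (h 0) := congrFun (congrArg Subtype.val hR) 0
    rw [Subsingleton.elim (h 0) 0, hQ] at h2
    exact h2
  refine ⟨R.1 0, ?_, ?_⟩
  · rw [h1, (gvg_vel 𝒜 hB x _ hn1).1, hxp]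
  · rw [h1]
    intro h2
    apply hw1
    have hw2 : ‖w‖⁻¹ • w ≠ 0 := kc_ne hn1
    refine (mem_VF hB ⟨(x, p), hxp⟩ hw2).2 ?_
    show 𝒜.Ex x (rad π (‖w‖⁻¹ • w)) = p
    rw [Ex_rad_of_norm hB hn1]
    exact h2

/-- the sweep-out avoids `p` -/
theorem sweep_ne (hB : Bl M) {p x y : M} (hx : dist x p = π) (hy : y ≠ p) {z : M}
    (h : ∃ c : Gs M, c.1 0 = x ∧ c.1 π = y ∧ ∃ t ∈ Icc (0 : ℝ) π, z = c.1 t) : z ≠ p := by
  obtain ⟨c, h0, h1, t, ht, rfl⟩ := h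
  intro h2
  have h3 := c.2 0 t (by rw [zero_sub, abs_neg, abs_of_nonneg ht.1]; exact ht.2)
  rw [h0, h2, hx, zero_sub, abs_neg, abs_of_nonneg ht.1] at h3
  rw [← h3, h1] at h2
  exact hy h2

/-! ### the main theorem -/

/-- **integrality of `b`** -/
theorem exists_b (hn : 5 ≤ n) (hB : Bl M) (hk : 𝒜.HK 3) {p : M} {o : Eu n → EuclideanSpace ℝ (Fin (3 + 1) → Fin n)}
    (ho : OrP 𝒜 3 p o) {g : (spVF 𝒜 3).pt → ℝ} (hu : UD 𝒜 hB 3 (uM hB (angD hB hk ho)) g)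
    {ι : Type} [Fintype ι] [DecidableEq ι] {Q : Matrix ι ι (SF (spF 𝒜))} {J : Matrix ι (Fin n) ℝ}
    (hJ : J.transpose * J = 1)
    (hQ : ∀ (x : (spP 𝒜 p).pt) (i j : ι), (Q i j).1 ((cF hB hk p).1 x) = (J * ent (prX 𝒜 p x.1) * J.transpose) i j)
    {b : ℝ} {ρ : Om (spF 𝒜)} (hρ : Deg 3 ρ)
    (ha : (-(1 / (8 * π ^ 2))) • (GO (spF 𝒜)).ps (Q.map (FO (spF 𝒜)).f) 2 =
      b • ((pF1 𝒜).pull (uM hB (angD hB hk ho)) + (pF2 𝒜).pull (uM hB (angD hB hk ho))) + dO _ ρ) :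
    ∃ j : ℤ, b = 4 * j + 2 := by
  obtain ⟨u, hu'⟩ : ∃ u, u = uM hB (angD hB hk ho) := ⟨_, rfl⟩
  obtain ⟨f, hf1, hf2⟩ := exists_xy (by omega) hB hk p
  rw [← hu'] at hu ha
  obtain ⟨Φ0, hΦ1, hΦ2, hΦ3⟩ := exists_sweep (𝒜 := 𝒜) hB (κ := 3) (by norm_num) hu.closed hu.deg f
  rw [hu.gV_eq', hu.one] at hΦ3
  -- the plot of `M - p`
  have hne : ∀ z, Φ0.1 z ≠ p := fun z => sweep_ne hB hf1 hf2 (hΦ2 z)
  obtain ⟨Φ, hΦ⟩ : ∃ Φ : (spP 𝒜 p).Plot 4, ∀ z, (Φ.1 z).1 = Φ0.1 z := ⟨⟨fun z => ⟨Φ0.1 z, hne z⟩, Φ0.2⟩, fun _ => rfl⟩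
  have hΦc : ∀ z : V 4, (∃ i, z i ≤ 0 ∨ 1 ≤ z i) → Φ.1 z = ⟨(f.1.1 0).1 π, hf2⟩ := fun z hz =>
    Subtype.ext ((hΦ z).trans (hΦ1 z hz))
  have hin : (inU (spM 𝒜) {x | x ≠ p}).pl Φ = Φ0 := Plot_ext fun z => hΦ z
  -- the cut plot
  have hcut := cI_cut hB hk p Φ hΦc hu.deg (by norm_num) hu.closed
  rw [hin] at hcut
  obtain ⟨Ψ, hΨ⟩ : ∃ Ψ, Ψ = (cF hB hk p).pl Φ := ⟨_, rfl⟩
  rw [← hΨ] at hcut
  have hΨc : ∀ z : V 4, (∃ i, z i ≤ 0 ∨ 1 ≤ z i) → Ψ.1 z = (cF hB hk p).1 ⟨(f.1.1 0).1 π, hf2⟩ := fun z hz => by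
    rw [hΨ]
    show (cF hB hk p).1 (Φ.1 z) = _
    rw [hΦc z hz]
  -- the right side
  have hR : cI 4 (Om.on (b • ((pF1 𝒜).pull u + (pF2 𝒜).pull u) + dO _ ρ) Ψ) = b * cI 4 (Om.on u Φ0) := by
    rw [on_add, on_smul, on_add, cI_add, cI_smul, cI_add, on_pull, on_pull, hcut]
    have h1 : cI 4 (Om.on u ((pF1 𝒜).pl Ψ)) = 0 := by
      have h2 : Om.on u ((pF1 𝒜).pl Ψ) = 0 := ev_ext fun z => by
        rw [map_zero]
        refine ev_fac_zero hu.deg (m := 0) (by norm_num) _ (⟨fun _ => p, sm_const p⟩ : (spM 𝒜).Plot 0)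
          ⟨fun _ => 0, contDiff_const⟩ (Eventually.of_forall fun y => ?_)
        rw [hΨ]
        rfl
      rw [h2, cI_zero]
    have h3 : cI 4 (Om.on (dO _ ρ) Ψ) = 0 :=
      cI_exact_zero hρ (by norm_num) Ψ ⟨fun _ => (cF hB hk p).1 ⟨(f.1.1 0).1 π, hf2⟩, ⟨sm_const _, sm_const _⟩⟩ hΨc
    rw [h1, h3, zero_add, add_zero]
  -- the Euler form
  have hE : cI 4 (Om.on (wP hB hk ho) Φ) = cI 4 (Om.on u Φ0) := by
    have h1 := uM_res hB (angD hB hk ho)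
    have h2 : Om.on u Φ0 = Om.on (uP hB p (psP hB hk ho) (wP hB hk ho)) Φ := by
      rw [← hin, ← h1, hu', on_pull]
    rw [h2]
    unfold uP
    rw [on_sub, cI_sub]
    have h3 : Deg 3 (ext0 (openU_UB 𝒜 p) (omc hB p (psP hB hk ho)) (Van_omc hB p (psP hB hk ho))) := by
      refine Deg_ext0 _ _ (Deg_pull _ ?_)
      have h1 : Deg (0 + 3) ((1 - chR n) * psP hB hk ho) := Deg_mul (Deg_sub Deg_one Deg_chR) (angD hB hk ho).degψ
      rwa [zero_add] at h1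
    have h4 := cI_exact_zero h3 (by norm_num) Φ ⟨fun _ => (⟨(f.1.1 0).1 π, hf2⟩ : (spP 𝒜 p).pt), sm_const _⟩ hΦc
    rw [h4, sub_zero]
  -- the bundle over the cube
  obtain ⟨P, hP⟩ : ∃ P : Matrix (Fin n) (Fin n) (Cs 4), P = (PX hB hk p).map (FHom.on Φ).g := ⟨_, rfl⟩
  obtain ⟨oo, hoo⟩ : ∃ oo : (Fin 4 → Fin n) → Cs 4, oo = fun I => (FHom.on Φ).g (oX hB hk ho I) := ⟨_, rfl⟩
  have hOr : Or 4 P oo := by
    rw [hP, hoo]
    exact (Or_PX hB hk ho).map' ((FHom.on Φ).g : SF (spP 𝒜 p) →+* Cs 4)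
  have h00 : Off (0 : V 4) := ⟨0, Or.inl le_rfl⟩
  obtain ⟨m, hm⟩ := int_p1 hOr (fun x hx i j => by
    rw [hP]
    show (PX hB hk p i j).1 (Φ.1 x) = (PX hB hk p i j).1 (Φ.1 0)
    rw [hΦc x hx, hΦc 0 h00])
  have hL : cI 4 ((-(1 / (8 * π ^ 2))) • (GF 4).ps (P.map (FF 4).f) 2) = b * cI 4 (Om.on u Φ0) := by
    rw [← hR, ← ha, on_smul]
    congr 2
    have h1 : Om.on ((GO (spF 𝒜)).ps (Q.map (FO (spF 𝒜)).f) 2) Ψ = (GF 4).ps ((Q.map (FHom.on Ψ).g).map (FF 4).f) 2 := by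
      rw [← FHom.mf]
      exact (FHom.on Ψ).h.ps _ 2
    have h2 : (Q.map (FHom.on Ψ).g).map (FF 4).f = cB (Fm 4) J * P.map (FF 4).f * cB (Fm 4) J.transpose := by
      have h3 : Q.map (FHom.on Ψ).g = cM 4 J * P * cM 4 J.transpose := by
        refine Matrix.ext fun i j => Cs_ext fun z => ?_
        show (Q i j).1 (Ψ.1 z) = _
        rw [hΨ]
        show (Q i j).1 ((cF hB hk p).1 (Φ.1 z)) = _
        rw [hQ]
        have h4 : ∀ (R : Matrix ι ι (Cs 4)), ((R i j : Cs 4) : V 4 → ℝ) z =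
            (R.map ((Pi.evalRingHom (fun _ : V 4 => ℝ) z).comp (Cs 4).val.toRingHom)) i j := fun R => rfl
        rw [h4, Matrix.map_mul, Matrix.map_mul]
        have h5 : P.map ((Pi.evalRingHom (fun _ : V 4 => ℝ) z).comp (Cs 4).val.toRingHom) = ent (prX 𝒜 p (Φ.1 z).1) := by
          rw [hP]
          rfl
        rw [h5]
        rfl
      rw [h3, Matrix.map_mul, Matrix.map_mul]
      have h6 : ∀ {a b : Type} [Fintype a] [Fintype b] (K : Matrix a b ℝ), (cM 4 K).map (FF 4).f = cB (Fm 4) K := by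
        intro a b _ _ K
        ext i j
        exact (fc 4).commutes (K i j)
      rw [h6, h6]
    rw [h1, h2, ps_const _ hJ]
  have hE2 : cI 4 (eul (FF 4) P oo) = cI 4 (Om.on u Φ0) := by
    rw [← hE, hP, hoo]
    congr 1
    exact (FHom.eul (FHom.on Φ) (P := PX hB hk p) (oX hB hk ho)).symm
  rw [hL, hE2] at hm
  rcases abs_eq (zero_le_one) |>.1 hΦ3 with h1 | h1
  · refine ⟨m - 1, ?_⟩
    rw [h1] at hm
    push_cast
    linarith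
  · refine ⟨-m - 1, ?_⟩
    rw [h1] at hm
    push_cast
    linarith

/-- `exists_UD` (UORapi) with the orientation of the planes at `p` exposed -/
theorem exists_UDo (hn : 3 ≤ n) (hB : Bl M) (hk : 𝒜.HK 3) (p : M) :
    ∃ (o : Eu n → EuclideanSpace ℝ (Fin (3 + 1) → Fin n)) (ho : OrP 𝒜 3 p o) (g : (spVF 𝒜 3).pt → ℝ),
      (nrmR n).pull (psP hB hk ho) = psP hB hk ho ∧ UD 𝒜 hB 3 (uM hB (angD hB hk ho)) g := by
  obtain ⟨o, ho⟩ := exists_orP (𝒜 := 𝒜) hn hB (κ := 3) (by norm_num) hk p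
  refine ⟨o, ho, gV 𝒜 hB 3 (psu hB (uM hB (angD hB hk ho))), nrm_psP hB hk ho, ?_⟩
  have hdeg : Deg (3 + 1) (uM hB (angD hB hk ho)) := Deg_uM hB _
  refine ⟨hdeg, d_uM hB _, gV_smooth hB (Deg_psu hB hdeg), JV_eq hB (Deg_psu hB hdeg), fun f => ?_⟩
  -- a frame at the base point
  obtain ⟨v, hv⟩ : ∃ v : Eu n, ‖v‖ = 1 := ⟨EuclideanSpace.single ⟨0, by omega⟩ 1, by simp⟩
  obtain ⟨Q, hQ⟩ : ∃ Q : (spG 𝒜).Plot 0, Q.1 0 = gvg 𝒜 hB p v hv :=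
    ⟨⟨fun _ => gvg 𝒜 hB p v hv, ⟨sm_const _, sm_const _⟩⟩, rfl⟩
  obtain ⟨h, R, hh, hR⟩ := LLift_f0V (𝒜 := 𝒜) hB hk 0 Q 0
  have h1 : ((R.1 0).1.1 0) = gvg 𝒜 hB p v hv := by
    have h2 : (f0V 𝒜 3).1 (R.1 0) = Q.1 (h 0) := congrFun (congrArg Subtype.val hR) 0
    rw [Subsingleton.elim (h 0) 0, hQ] at h2
    exact h2
  rw [abs_gV_con (by omega) hB hk (by norm_num) (LLift_f0V hB hk) (d_uM hB _) hdeg f (R.1 0)]
  refine abs_gV_base hB hk ho (R.1 0) ?_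
  rw [h1]
  exact (gvg_vel 𝒜 hB p v hv).1

end Pool.Agent.Lib.MP_ccbbf6_gt.L5.IB
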