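import Pool.Agent.Lib.MP_ccbbf6_gt.L5.IB0
import Pool.Agent.Lib.MP_ccbbf6_gt.L5.IB5
import Pool.Agent.Lib.MP_ccbbf6_gt.L5.IB8

/-!
# Level 5, X5, file 0: the cube with the complement of its interior collapsed to a point (helper77)

* `spQ N` : the space; points `Option` of the open cube, `none` = the collapsed point; plots `qc ∘ g`, `g` smooth;
* `idQ` : the quotient map as a plot; `IQ θ = cI N (on θ idQ)`; `IQ_d` : exact forms have integral zero (`2 ≤ N`);
* `toQ f` : functions on the cube which are constant off the open cube, as functions on `spQ N`; `on_toQ`.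
-/

set_option autoImplicit false
set_option maxSynthPendingDepth 3
set_option linter.unusedSectionVars false

open Set Filter Topology
open scoped ContDiff

noncomputable section

namespace Pool.Agent.Lib.MP_ccbbf6_gt.L5.IC

open L4 L4.FR IB

variable {N k : ℕ}

open Classical in
/-- the quotient map -/
def qc (z : V N) : Option {z : V N // ¬ Off z} := if h : Off z then none else some ⟨z, h⟩

theorem qc_off {z : V N} (h : Off z) : qc z = none := dif_pos h

theorem qc_in {z : V N} (h : ¬ Off z) : qc z = some ⟨z, h⟩ := dif_neg h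

/-- the cube with collapsed boundary -/
def spQ (N : ℕ) : Space where
  pt := Option {z : V N // ¬ Off z}
  Pl _ := {p | ∃ g : FR.Sm _ N, ∀ z, p z = qc (g z)}
  pre := fun {_ _ p} hp g => by
    obtain ⟨g', h⟩ := hp
    exact ⟨g'.comp g, fun z => h (g z)⟩

/-- the quotient map as a plot -/
def idQ (N : ℕ) : (spQ N).Plot N := ⟨qc, FR.Sm.id N, fun _ => rfl⟩

/-- every plot factors through the quotient map -/
theorem exists_g (p : (spQ N).Plot k) : ∃ g : FR.Sm k N, p = (idQ N).cmp g := by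
  obtain ⟨g, h⟩ := p.2
  exact ⟨g, Plot_ext fun z => h z⟩

theorem Om_extQ {a b : Om (spQ N)} (h : Om.on a (idQ N) = Om.on b (idQ N)) : a = b :=
  Om_ext fun k p => by
    obtain ⟨g, rfl⟩ := exists_g p
    rw [on_cmp, on_cmp, h]

/-- integration -/
def IQ (θ : Om (spQ N)) : ℝ := cI N (Om.on θ (idQ N))

theorem IQ_add (θ τ : Om (spQ N)) : IQ (θ + τ) = IQ θ + IQ τ := by
  unfold IQ
  rw [on_add, cI_add]

theorem IQ_smul (r : ℝ) (θ : Om (spQ N)) : IQ (r • θ) = r * IQ θ := by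
  unfold IQ
  rw [on_smul, cI_smul]

theorem IQ_neg (θ : Om (spQ N)) : IQ (-θ) = -IQ θ := by
  have h := IQ_smul (-1) θ
  rwa [neg_one_smul, neg_one_mul] at h

theorem IQ_sub (θ τ : Om (spQ N)) : IQ (θ - τ) = IQ θ - IQ τ := by
  rw [sub_eq_add_neg, IQ_add, IQ_neg, sub_eq_add_neg]

theorem IQ_zero : IQ (0 : Om (spQ N)) = 0 := by
  have h := IQ_smul 0 (0 : Om (spQ N))
  rwa [zero_smul, zero_mul] at h

/-- forms on `R^0` are constants -/
theorem V0_const (θ : Fm 0) : ∃ r : ℝ, θ = algebraMap ℝ (Fm 0) r := by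
  induction θ using Fm_ind with
  | hf f =>
    refine ⟨(f : V 0 → ℝ) 0, ?_⟩
    have h : f = algebraMap ℝ (Cs 0) ((f : V 0 → ℝ) 0) := Cs_ext fun x => by
      rw [Subsingleton.elim x 0]
      rfl
    rw [h]
    exact (fc 0).commutes _
  | hd i => exact i.elim0
  | hm a b ha hb =>
    obtain ⟨r, rfl⟩ := ha
    obtain ⟨s, rfl⟩ := hb
    exact ⟨r * s, (map_mul _ _ _).symm⟩
  | ha a b ha hb =>
    obtain ⟨r, rfl⟩ := ha
    obtain ⟨s, rfl⟩ := hb
    exact ⟨r + s, (map_add _ _ _).symm⟩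

/-- off the open cube forms are constants -/
theorem ev_off (ξ : Om (spQ N)) : ∃ r : ℝ, ∀ y : V N, (∃ i, y i < 0 ∨ 1 < y i) →
    ev y (Om.on ξ (idQ N)) = algebraMap ℝ (Ex N) r := by
  obtain ⟨h0, hh0⟩ : ∃ h0 : (spQ N).Plot 0, h0 = (idQ N).cmp (⟨fun _ _ => 2, contDiff_const⟩ : FR.Sm 0 N) := ⟨_, rfl⟩
  obtain ⟨r, hr⟩ := V0_const (Om.on ξ h0)
  refine ⟨r, fun y hy => ?_⟩
  obtain ⟨i, hi⟩ := hy
  have h1 : (idQ N).1 =ᶠ[𝓝 y] (h0.cmp (⟨fun _ => 0, contDiff_const⟩ : FR.Sm N 0)).1 := by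
    have h2 : ∀ᶠ z : V N in 𝓝 y, z i < 0 ∨ 1 < z i := by
      rcases hi with hi | hi
      · exact ((continuous_apply i).continuousAt.eventually (gt_mem_nhds hi)).mono fun z hz => Or.inl hz
      · exact ((continuous_apply i).continuousAt.eventually (lt_mem_nhds hi)).mono fun z hz => Or.inr hz
    filter_upwards [h2] with z hz
    rw [hh0]
    show qc z = qc (fun _ => 2)
    have h3 : Off z := ⟨i, hz.imp le_of_lt le_of_lt⟩
    have h4 : Off (fun _ => 2 : V N) := ⟨i, Or.inr (by norm_num)⟩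
    rw [qc_off h3, qc_off h4]
  rw [ev_on_congr ξ h1, on_cmp, hr, AlgHom.commutes, AlgHom.commutes]

theorem topE_ee (hN : 2 ≤ N) (i : Fin N) : topE N (ee i) = 0 := by
  have h1 := topE_ιMulti_ne (k := N) (i := 1) (by omega) ![Pi.single i 1]
  rw [ExteriorAlgebra.ιMulti_succ_apply, ExteriorAlgebra.ιMulti_zero_apply, mul_one] at h1
  exact h1

/-- **exact forms have integral zero** -/
theorem IQ_d (hN : 2 ≤ N) (ξ : Om (spQ N)) : IQ (dO _ ξ) = 0 := by
  unfold IQ
  rw [on_d]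
  refine cI_dd_zero _ fun i x _ hxi => ?_
  obtain ⟨r, hr⟩ := ev_off ξ
  have h1 : x i ≤ 0 ∨ 1 ≤ x i := by
    rcases hxi with h | h
    · exact Or.inl h.le
    · exact Or.inr h.ge
  have h3 : ev x (Om.on ξ (idQ N) - algebraMap ℝ (Fm N) r) = ev x (Om.on ξ (idQ N)) - algebraMap ℝ (Ex N) r := by
    rw [map_sub, AlgHom.commutes]
  have h2 := lin_zero_of_half (θ := Om.on ξ (idQ N) - algebraMap ℝ (Fm N) r) (i := i) (x := x)
    ((topE N).comp (LinearMap.mulLeft ℝ (ee i))) (fun _ y hy => by rw [map_sub, AlgHom.commutes, hr y ⟨i, Or.inl hy⟩, sub_self])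
    (fun _ y hy => by rw [map_sub, AlgHom.commutes, hr y ⟨i, Or.inr hy⟩, sub_self]) h1
  rw [h3] at h2
  have h4 : topE N (ee i * ev x (Om.on ξ (idQ N)) - ee i * algebraMap ℝ (Ex N) r) = 0 := by
    rw [← mul_sub]
    exact h2
  have h5 : topE N (ee i * algebraMap ℝ (Ex N) r) = 0 := by
    rw [← Algebra.commutes, ← Algebra.smul_def, map_smul, topE_ee hN, smul_zero]
  rw [map_sub, h5, sub_zero] at h4
  exact h4

/-! ### functions -/

/-- functions on the cube which are constant off the open cube -/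
def toQ (f : Cs N) (h : ∀ x : V N, Off x → (f : V N → ℝ) x = (f : V N → ℝ) 0) : SF (spQ N) :=
  ⟨fun z => (z.elim ((f : V N → ℝ) 0) fun y => (f : V N → ℝ) y.1 : ℝ), fun k p => by
    obtain ⟨g, hg⟩ := p.2
    have h1 : (fun z => (p.1 z).elim ((f : V N → ℝ) 0) fun y => (f : V N → ℝ) y.1) = fun z => (f : V N → ℝ) (g z) := by
      funext z
      rw [hg z]
      by_cases h2 : Off (g z)
      · rw [qc_off h2, h _ h2]
        rfl
      · rw [qc_in h2]
        rfl
    show ContDiff ℝ ∞ fun z => (p.1 z).elim ((f : V N → ℝ) 0) fun y => (f : V N → ℝ) y.1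
    rw [h1]
    exact (Cs_smooth f).comp g.smooth⟩

theorem on_toQ (f : Cs N) (h : ∀ x : V N, Off x → (f : V N → ℝ) x = (f : V N → ℝ) 0) :
    (FHom.on (idQ N)).g (toQ f h) = f := by
  refine Cs_ext fun x => ?_
  show (Option.elim (qc x) ((f : V N → ℝ) 0) (fun y => (f : V N → ℝ) y.1) : ℝ) = (f : V N → ℝ) x
  by_cases h2 : Off x
  · rw [qc_off h2, h _ h2]
    rfl
  · rw [qc_in h2]
    rfl

/-- functions on the quotient are determined by their values on the cube -/
theorem SF_extQ {f f' : SF (spQ N)} (hN : 1 ≤ N) (h : (FHom.on (idQ N)).g f = (FHom.on (idQ N)).g f') : f = f' := by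
  refine Subtype.ext (funext fun z => ?_)
  have h1 : ∀ x : V N, f.1 (qc x) = f'.1 (qc x) := fun x => congrArg (fun F : Cs N => (F : V N → ℝ) x) h
  have h2 : ∃ x : V N, z = qc x := by
    rcases z with _ | y
    · exact ⟨fun _ => 2, (qc_off ⟨⟨0, hN⟩, Or.inr (by norm_num)⟩).symm⟩
    · exact ⟨y.1, (qc_in y.2).symm⟩
  obtain ⟨x, rfl⟩ := h2
  exact h1 x

/-- points of the quotient -/
theorem qc_surj (hN : 1 ≤ N) (z : (spQ N).pt) : ∃ x : V N, qc x = z := by
  rcases z with _ | y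
  · exact ⟨fun _ => 2, qc_off ⟨⟨0, hN⟩, Or.inr (by norm_num)⟩⟩
  · exact ⟨y.1, qc_in y.2⟩

theorem on_idQ_inj : Function.Injective (omOn (idQ N)) := fun _ _ h => Om_extQ h

end Pool.Agent.Lib.MP_ccbbf6_gt.L5.IC
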