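import Mathlib.Topology.MetricSpace.HausdorffDimension
import Pool.Agent.Lib.MP_ccbbf6_gt.L5.CW3
import Pool.Agent.Lib.MP_ccbbf6_gt.L5.EPS07
import Pool.Agent.Lib.MP_ccbbf6_gt.L5.IC0

/-!
# Level 5, X5, file 1: a constant vector with nowhere vanishing projection (helper77)

`exists_vec`: `P` idempotent over `CB (SF (spQ N))` of trace `r` with `N < 2 r`: there is `w : ι → ℂ` with `P x w ≠ 0` for all `x`.
-/

set_option autoImplicit false
set_option maxSynthPendingDepth 3
set_option linter.unusedSectionVars false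

open Set Filter Topology Matrix
open scoped ContDiff

noncomputable section

namespace Pool.Agent.Lib.MP_ccbbf6_gt.L5.IC

open L4 L4.FR IB

variable {N r : ℕ} {ι : Type} [Fintype ι] [DecidableEq ι]

/-- the rank of an idempotent matrix is its trace -/
theorem rank_of_trace {P : Matrix ι ι ℂ} (hP : P * P = P) {r : ℕ} (ht : trace P = r) : P.rank = r := by
  obtain ⟨a, b, h1, h2⟩ := exists_split hP
  have h3 : trace P = (P.rank : ℂ) := by
    conv_lhs => rw [← h1]
    rw [Matrix.trace_mul_comm, h2, Matrix.trace_one, Fintype.card_fin]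
  rw [h3] at ht
  exact_mod_cast ht

/-- matrices as real linear maps -/
def mL (ι : Type) [Fintype ι] : Matrix ι ι ℂ →ₗ[ℝ] ((ι → ℂ) →L[ℝ] (ι → ℂ)) where
  toFun M := LinearMap.toContinuousLinearMap (M.mulVecLin.restrictScalars ℝ)
  map_add' M M' := by
    ext v i
    show (M + M').mulVec v i = (M.mulVec v + M'.mulVec v) i
    rw [Matrix.add_mulVec]
  map_smul' c M := by
    ext v i
    show (c • M).mulVec v i = (c • M.mulVec v) i
    rw [Matrix.smul_mulVec]

theorem mL_apply (M : Matrix ι ι ℂ) (v : ι → ℂ) : mL ι M v = M.mulVec v := rfl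

theorem mL_comp (M M' : Matrix ι ι ℂ) : (mL ι M).comp (mL ι M') = mL ι (M * M') := by
  ext v i
  show M.mulVec (M'.mulVec v) i = (M * M').mulVec v i
  rw [Matrix.mulVec_mulVec]

/-- the real dimension of the range -/
theorem finrank_range_mL {M : Matrix ι ι ℂ} {r : ℕ} (h : M.rank = r) :
    Module.finrank ℝ (LinearMap.range (mL ι M : (ι → ℂ) →ₗ[ℝ] (ι → ℂ))) = 2 * r := by
  have h1 : LinearMap.range (mL ι M : (ι → ℂ) →ₗ[ℝ] (ι → ℂ)) = (LinearMap.range M.mulVecLin).restrictScalars ℝ := by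
    ext v
    rfl
  rw [h1, ← h]
  exact finrank_real_of_complex (LinearMap.range M.mulVecLin)

theorem contDiff_mL {M : V N → Matrix ι ι ℂ} (h : ∀ i j, ContDiff ℝ ∞ fun z => M z i j) :
    ContDiff ℝ ∞ fun z => mL ι (M z) := by
  have h1 : ContDiff ℝ ∞ fun z => (fun i j => M z i j : ι → ι → ℂ) := contDiff_pi.2 fun i => contDiff_pi.2 fun j => h i j
  exact (LinearMap.toContinuousLinearMap ((mL ι).comp (Matrix.ofLinearEquiv ℝ : (ι → ι → ℂ) ≃ₗ[ℝ] Matrix ι ι ℂ).toLinearMap)).contDiff.comp h1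

/-- **a generic constant vector** -/
theorem exists_vec (hN : 1 ≤ N) {P : Matrix ι ι (CB (SF (spQ N)))} (hP : P * P = P) (ht : trace P = (r : CB (SF (spQ N))))
    (hr : N < 2 * r) : ∃ w : ι → ℂ, ∀ x : (spQ N).pt, (P.map (vlC x)).mulVec w ≠ 0 := by
  obtain ⟨M, hM⟩ : ∃ M : V N → Matrix ι ι ℂ, M = fun z => 1 - P.map (vlC (qc z : (spQ N).pt)) := ⟨_, rfl⟩
  have hPx : ∀ x : (spQ N).pt, P.map (vlC x) * P.map (vlC x) = P.map (vlC x) := fun x => by
    rw [← Matrix.map_mul, hP]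
  have hMM : ∀ z, M z * M z = M z := fun z => by
    rw [hM]
    have h1 := hPx (qc z)
    simp only [sub_mul, mul_sub, one_mul, mul_one, h1]
    abel
  have htx : ∀ x : (spQ N).pt, trace (P.map (vlC x)) = r := fun x => by
    have h1 := congrArg (vlC x) ht
    rw [map_natCast] at h1
    rw [← h1]
    exact (AddMonoidHom.map_trace (vlC x).toAddMonoidHom P).symm
  have hrc : r ≤ Fintype.card ι := by
    have h1 := rank_of_trace (hPx (qc 0)) (htx (qc 0))
    rw [← h1]
    exact Matrix.rank_le_card_width _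
  have htM : ∀ z, trace (M z) = ((Fintype.card ι - r : ℕ) : ℂ) := fun z => by
    rw [hM]
    show trace (1 - P.map (vlC (qc z : (spQ N).pt))) = _
    rw [Matrix.trace_sub, Matrix.trace_one, htx, Nat.cast_sub hrc]
  have hfr : ∀ z, Module.finrank ℝ (LinearMap.range (mL ι (M z) : (ι → ℂ) →ₗ[ℝ] (ι → ℂ))) = 2 * (Fintype.card ι - r) :=
    fun z => finrank_range_mL (rank_of_trace (hMM z) (htM z))
  have hsm : ContDiff ℝ ∞ fun z => mL ι (M z) := by
    refine contDiff_mL fun i j => ?_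
    have h1 : (fun z => M z i j) = fun z => (1 : Matrix ι ι ℂ) i j -
        (((P i j).re.1 ((idQ N).1 z) : ℂ) + ((P i j).im.1 ((idQ N).1 z) : ℂ) * Complex.I) := by
      funext z
      rw [hM]
      show (1 : Matrix ι ι ℂ) i j - (⟨(P i j).re.1 (qc z), (P i j).im.1 (qc z)⟩ : ℂ) = _
      rw [Complex.mk_eq_add_mul_I]
      rfl
    rw [h1]
    have h2 : ContDiff ℝ ∞ fun z => ((P i j).re.1 ((idQ N).1 z) : ℂ) :=
      Complex.ofRealCLM.contDiff.comp ((P i j).re.2 N (idQ N))
    have h3 : ContDiff ℝ ∞ fun z => ((P i j).im.1 ((idQ N).1 z) : ℂ) :=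
      Complex.ofRealCLM.contDiff.comp ((P i j).im.2 N (idQ N))
    exact contDiff_const.sub (h2.add (h3.mul contDiff_const))
  obtain ⟨κ, B, hκ, hB, -, hQB, hinj⟩ := exists_frame (Q := fun z => mL ι (M z)) hsm (fun z => by rw [mL_comp, hMM])
    (L0 := (LinearMap.range (mL ι (M 0) : (ι → ℂ) →ₗ[ℝ] (ι → ℂ))).subtypeL) (by
      ext1 v
      obtain ⟨u, hu⟩ := v.2
      show (mL ι (M 0)) v.1 = v.1
      have h1 : mL ι (M 0) u = v.1 := hu
      rw [← h1]
      have h2 := congrArg (fun L : (ι → ℂ) →L[ℝ] (ι → ℂ) => L u) (mL_comp (M 0) (M 0))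
      rw [hMM] at h2
      exact h2) (fun a ha => Subtype.ext ha)
  -- the bad set is the image of a space of smaller dimension
  have hdense := ContDiff.dense_compl_range_of_finrank_lt_finrank
    (f := fun z : V N × (LinearMap.range (mL ι (M 0) : (ι → ℂ) →ₗ[ℝ] (ι → ℂ))) => B z.1 z.2)
    (((hB.comp contDiff_fst).clm_apply contDiff_snd).of_le (by simp)) (by
      rw [Module.finrank_prod, hfr 0, finrank_real_of_complex, Module.finrank_fintype_fun_eq_card, Fintype.card_fin,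
        Module.finrank_fintype_fun_eq_card]
      omega)
  obtain ⟨w, hw⟩ := hdense.nonempty
  refine ⟨w, fun x hx => hw ?_⟩
  -- a point of the cube over `x`
  obtain ⟨z, hz, hzx⟩ : ∃ z : V N, z ∈ Icc (0 : V N) 1 ∧ qc z = x := by
    obtain ⟨z, rfl⟩ := qc_surj hN x
    by_cases h : Off z
    · refine ⟨0, ⟨le_rfl, zero_le_one⟩, ?_⟩
      rw [qc_off h, qc_off ⟨⟨0, hN⟩, Or.inl le_rfl⟩]
    · refine ⟨z, ⟨fun i => ?_, fun i => ?_⟩, rfl⟩
      · by_contra h2
        exact h ⟨i, Or.inl (not_le.1 h2).le⟩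
      · by_contra h2
        exact h ⟨i, Or.inr (not_le.1 h2).le⟩
  have hκz : κ z = z := (hκ z hz).self_of_nhds
  have h1 : mL ι (M z) w = w := by
    rw [mL_apply, hM]
    show (1 - P.map (vlC (qc z : (spQ N).pt))).mulVec w = w
    rw [Matrix.sub_mulVec, Matrix.one_mulVec, hzx, hx, sub_zero]
  -- ranges
  have h2 : LinearMap.range (B z).toLinearMap = LinearMap.range (mL ι (M z) : (ι → ℂ) →ₗ[ℝ] (ι → ℂ)) := by
    refine Submodule.eq_of_le_of_finrank_eq ?_ ?_
    · rintro v ⟨a, rfl⟩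
      refine ⟨B z a, ?_⟩
      have h3 := congrArg (fun L : _ →L[ℝ] (ι → ℂ) => L a) (hQB z)
      rw [hκz] at h3
      exact h3
    · rw [hfr z, ← hfr 0]
      exact LinearMap.finrank_range_of_inj fun a b hab => by
        have h3 : B z (a - b) = 0 := by
          rw [map_sub]
          exact sub_eq_zero.2 hab
        exact sub_eq_zero.1 (hinj z _ h3)
  have h3 : w ∈ LinearMap.range (B z).toLinearMap := by
    rw [h2]
    exact ⟨w, h1⟩
  obtain ⟨a, ha⟩ := h3
  exact ⟨(z, a), ha⟩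

end Pool.Agent.Lib.MP_ccbbf6_gt.L5.IC
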