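import Pool.Agent.Lib.MP_ccbbf6_gt.L5.MF

/-!
# Level 5, X5, file 2: splitting off trivial complex lines (helper77; proofs: helper85)

`X` a space, `P` hermitian idempotent over `CB (SF X)` of trace `r + 1`, `w` a constant vector with `P(x) w /= 0` for all `x`:
`stepX`: there is a hermitian idempotent `P'` of trace `r` with the same power sums in cohomology.
(1) `SF_inv`: `f` smooth along plots and nowhere zero: `1 / f` is smooth along plots.
(2) `IC2_split`: `s = P w` (`s i = sum_j P i j * ofC (w j)`), `nu = sum conj (s i) * s i = ofR nu0`, `nu0 x > 0`, `nu0 mu = 1` (SF_inv).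
    `p i j = s i * conj (s j) * ofR mu`: `p * p = p`, `P * p = p`, `p * P = p` (hermitian), `trace p = 1`. `P' = P - p`.
    `Cyl.add` for the cylinder `(CylO X).cx` gives `ps (P' + p) j = ps P' j + ps p j + d xi`; `Cyl.iso'` for `p = a b`, `b a = 1` gives `ps p j` exact (`ps_one`, `j /= 0`).
(3) `hc_reduce`: `hc` only depends on `hps j`, `j >= 1` (`elc_congr`).
-/

set_option autoImplicit false
set_option maxSynthPendingDepth 3
set_option linter.unusedSectionVars false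

open Set Filter Topology Matrix
open scoped ContDiff

noncomputable section

namespace Pool.Agent.Lib.MP_ccbbf6_gt.L5.IC

open L4 L4.FR

variable {q r : ℕ} {ι : Type} [Fintype ι] [DecidableEq ι] {X : Space}

theorem SF_inv (f : SF X) (h : ∀ x, f.1 x ≠ 0) : ∃ g : SF X, f * g = 1 :=
  ⟨⟨fun x => (f.1 x)⁻¹, fun k p => (f.2 k p).inv fun _ => h _⟩,
    Subtype.ext (funext fun x => mul_inv_cancel₀ (h x))⟩

/-- hermitian idempotents of trace `r` -/
structure HI (r : ℕ) (P : Matrix ι ι (CB (SF X))) : Prop where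
  idem : P * P = P
  herm : (Pᵀ).map CB.conj = P
  tr : trace P = (r : CB (SF X))

theorem HI.Idem {P : Matrix ι ι (CB (SF X))} (h : HI r P) : (GC (GO X)).Idem (P.map (FO X).C.f) :=
  (FO X).C.idem h.idem

private theorem IC2_vlC_ofC (x : X.pt) (z : ℂ) : vlC x (CB.ofC z : CB (SF X)) = z := by
  refine Complex.ext ?_ ?_
  · exact AlgHom.commutes (vl x) z.re
  · exact AlgHom.commutes (vl x) z.im

private theorem IC2_conj_mul (a : CB (SF X)) : CB.conj a * a = CB.ofR (a.re * a.re + a.im * a.im) := by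
  ext1
  · rw [CB.mul_re, CB.conj_re, CB.conj_im, CB.ofR_re, neg_mul, sub_neg_eq_add]
  · rw [CB.mul_im, CB.conj_re, CB.conj_im, CB.ofR_im, neg_mul, mul_comm a.im a.re, add_neg_cancel]

/-- splitting off a section without zeros -/
private theorem IC2_split {P : Matrix ι ι (CB (SF X))} (h : HI (r + 1) P) (w : ι → ℂ)
    (hw : ∀ x : X.pt, (P.map (vlC x)).mulVec w ≠ 0) :
    ∃ (p : Matrix ι ι (CB (SF X))) (a : Matrix ι Unit (CB (SF X))) (b : Matrix Unit ι (CB (SF X))),
      a * b = p ∧ b * a = 1 ∧ P * p = p ∧ p * P = p ∧ p * p = p ∧ (pᵀ).map CB.conj = p ∧ trace p = 1 := by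
  obtain ⟨s, hs⟩ : ∃ s : ι → CB (SF X), s = P.mulVec fun j => CB.ofC (w j) := ⟨_, rfl⟩
  have hPs : P.mulVec s = s := by
    rw [hs, Matrix.mulVec_mulVec, h.idem]
  have hc : ∀ i j, CB.conj (P j i) = P i j := fun i j => congrFun (congrFun h.herm i) j
  have hsP : ∀ j, ∑ i, CB.conj (s i) * P i j = CB.conj (s j) := fun j => by
    have h1 : s j = ∑ i, P j i * s i := by
      conv_lhs => rw [← hPs]
      rfl
    conv_rhs => rw [h1, map_sum]
    refine Finset.sum_congr rfl fun i _ => ?_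
    rw [map_mul, hc, mul_comm]
  have hsx : ∀ x i, vlC x (s i) = (P.map (vlC x)).mulVec w i := fun x i => by
    rw [hs]
    show vlC x (∑ j, P i j * CB.ofC (w j)) = ∑ j, vlC x (P i j) * w j
    rw [map_sum]
    refine Finset.sum_congr rfl fun j _ => ?_
    rw [map_mul, IC2_vlC_ofC]
  obtain ⟨ν, hν⟩ : ∃ ν : SF X, ν = ∑ i, ((s i).re * (s i).re + (s i).im * (s i).im) := ⟨_, rfl⟩
  have hνs : ∑ i, CB.conj (s i) * s i = CB.ofR ν := by
    rw [hν, map_sum]
    exact Finset.sum_congr rfl fun i _ => IC2_conj_mul (s i)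
  have hνx : ∀ x, ν.1 x = ∑ i, ((s i).re.1 x * (s i).re.1 x + (s i).im.1 x * (s i).im.1 x) := fun x => by
    show vl x ν = _
    rw [hν, map_sum]
    rfl
  have hν0 : ∀ x, ν.1 x ≠ 0 := by
    intro x h0
    refine hw x (funext fun i => ?_)
    rw [hνx] at h0
    have h1 := (Finset.sum_eq_zero_iff_of_nonneg fun i _ =>
      add_nonneg (mul_self_nonneg ((s i).re.1 x)) (mul_self_nonneg ((s i).im.1 x))).1 h0 i (Finset.mem_univ i)
    have h2 := (add_eq_zero_iff_of_nonneg (mul_self_nonneg ((s i).re.1 x)) (mul_self_nonneg ((s i).im.1 x))).1 h1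
    rw [← hsx]
    exact Complex.ext (mul_self_eq_zero.1 h2.1) (mul_self_eq_zero.1 h2.2)
  obtain ⟨μ, hμ⟩ := SF_inv ν hν0
  obtain ⟨m, hm⟩ : ∃ m : CB (SF X), m = CB.ofR μ := ⟨_, rfl⟩
  have hmν : (∑ i, CB.conj (s i) * s i) * m = 1 := by
    rw [hνs, hm, ← map_mul, hμ, map_one]
  have hcm : CB.conj m = m := by
    rw [hm, CB.conj_ofR]
  obtain ⟨a, ha⟩ : ∃ a : Matrix ι Unit (CB (SF X)), a = fun i _ => s i * m := ⟨_, rfl⟩
  obtain ⟨b, hb⟩ : ∃ b : Matrix Unit ι (CB (SF X)), b = fun _ j => CB.conj (s j) := ⟨_, rfl⟩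
  have hab : ∀ i j, (a * b) i j = s i * m * CB.conj (s j) := fun i j => by
    rw [Matrix.mul_apply, ha, hb]
    exact Fintype.sum_unique _
  have hba : b * a = 1 := by
    ext1 i j
    rw [Matrix.mul_apply, ha, hb, Subsingleton.elim i j, Matrix.one_apply_eq, ← hmν, Finset.sum_mul]
    exact Finset.sum_congr rfl fun k _ => (mul_assoc _ _ _).symm
  have hPa : P * a = a := by
    ext1 i j
    rw [Matrix.mul_apply, ha]
    show ∑ k, P i k * (s k * m) = s i * m
    have h1 : s i = ∑ k, P i k * s k := by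
      conv_lhs => rw [← hPs]
      rfl
    rw [h1, Finset.sum_mul]
    exact Finset.sum_congr rfl fun k _ => (mul_assoc _ _ _).symm
  have hbP : b * P = b := by
    ext1 i j
    rw [Matrix.mul_apply, hb]
    exact hsP j
  refine ⟨a * b, a, b, rfl, hba, ?_, ?_, ?_, ?_, ?_⟩
  · rw [← Matrix.mul_assoc, hPa]
  · rw [Matrix.mul_assoc, hbP]
  · rw [Matrix.mul_assoc, ← Matrix.mul_assoc b, hba, Matrix.one_mul]
  · ext1 i j
    show CB.conj ((a * b) j i) = (a * b) i j
    rw [hab, hab, map_mul, map_mul, CB.conj_conj, hcm]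
    ring
  · rw [Matrix.trace_mul_comm, hba, Matrix.trace_one, Fintype.card_unit, Nat.cast_one]

/-- **one step** -/
theorem stepX {P : Matrix ι ι (CB (SF X))} (h : HI (r + 1) P) {w : ι → ℂ} (hw : ∀ x : X.pt, (P.map (vlC x)).mulVec w ≠ 0) :
    ∃ (P' : Matrix ι ι (CB (SF X))) (h' : HI r P'), ∀ j, j ≠ 0 → GDA.hps h'.Idem j = GDA.hps h.Idem j := by
  obtain ⟨p, a, b, hab, hba, hPp, hpP, hpp, hch, htr⟩ := IC2_split h w hw
  have h' : HI r (P - p) := by
    refine ⟨?_, ?_, ?_⟩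
    · rw [Matrix.sub_mul, Matrix.mul_sub, Matrix.mul_sub, h.idem, hPp, hpP, hpp, sub_self, sub_zero]
    · ext1 i j
      show CB.conj (P j i - p j i) = P i j - p i j
      rw [map_sub]
      have h1 : CB.conj (P j i) = P i j := congrFun (congrFun h.herm i) j
      have h2 : CB.conj (p j i) = p i j := congrFun (congrFun hch i) j
      rw [h1, h2]
    · rw [Matrix.trace_sub, h.tr, htr, Nat.cast_add, Nat.cast_one, add_sub_cancel_right]
  refine ⟨P - p, h', fun j hj => ?_⟩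
  have hpI : (GC (GO X)).Idem (p.map (FO X).C.f) := (FO X).C.idem hpp
  have e1 : (P - p).map (FO X).C.f + p.map (FO X).C.f = P.map (FO X).C.f := by
    rw [← Fun0.add, sub_add_cancel]
  have e2 : (P - p).map (FO X).C.f * p.map (FO X).C.f = 0 := by
    rw [← Fun0.mul, Matrix.sub_mul, hPp, hpp, sub_self, Fun0.zero]
  have e3 : p.map (FO X).C.f * (P - p).map (FO X).C.f = 0 := by
    rw [← Fun0.mul, Matrix.mul_sub, hpP, hpp, sub_self, Fun0.zero]
  obtain ⟨ξ, hξ⟩ := (CylO X).cx.add h'.Idem hpI e2 e3 j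
  obtain ⟨η, hη⟩ := (CylO X).cx.iso' (κ := Unit) hpI GDA.idem_one ((FO X).C.Ev a) ((FO X).C.Ev b)
    (by rw [← Fun0.mul, hab]) (by rw [← Fun0.mul, hba, Fun0.one]) j
  rw [GDA.ps_one hj] at hη
  rw [e1] at hξ
  refine (GDA.hps_eq ⟨ξ - η, ?_⟩).symm
  rw [hξ, map_sub, add_assoc]
  congr 1
  rw [eq_neg_of_add_eq_zero_left hη.symm]
  abel

/-- the Chern classes do not change -/
theorem hc_reduce {P P' : Matrix ι ι (CB (SF X))} (h : HI r P) (h' : HI q P')
    (he : ∀ j, j ≠ 0 → GDA.hps h'.Idem j = GDA.hps h.Idem j) (j : ℕ) : GDA.hc h'.Idem j = GDA.hc h.Idem j :=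
  elc_congr (fun k => he (k + 1) (Nat.succ_ne_zero k)) j

end Pool.Agent.Lib.MP_ccbbf6_gt.L5.IC
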