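import Pool.Agent.Lib.MP_ccbbf6_gt.L5.EG0

/-!
# Level 5, X5, file 4a: the Pfaffian of the real form of an antihermitian matrix (helper77, helper61)

* `epsT` : the determinant tensor; `push_epsT`, `epsT_push`, `epsT_comp`, `epsT_map`, `epsT_nrm`;
* `pfo_congr` : `pfo epsT (A^T M A) = det A * pfo epsT M`;
* `pfo_two` : `pfo o (U - U^T) = 2^m pfo o U` for alternating `o`;
* `pfo_SB` : `pfo epsT (0, F; 0, 0) = m! det F`;
* `pfo_rF'`: `F^* = -F`: `pfo epsT (rF F) = 2^q q! Re (i^q det F)`;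
* `det_rF` : `det (rF F) = |det F|^2`.
Proof of `pfo_rF'`: over `CB E`, `C^T (rF F) C = (0, 2 F; -2 F^T, 0)` for the block matrix `C = (1, 1; i, -i)`, `det C = (-2 i)^q`.
-/

set_option autoImplicit false
set_option maxSynthPendingDepth 3
set_option linter.unusedSectionVars false

open Matrix Function

noncomputable section

namespace Pool.Agent.Lib.MP_ccbbf6_gt.L5.IC

open L4 L4.FR

variable {m q : ℕ} {E : Type} [CommRing E] [Algebra ℝ E]

/-- the determinant tensor -/
def epsT (n : ℕ) (E : Type) [CommRing E] (I : Fin n → Fin n) : E := det (Matrix.of fun j k => if I k = j then (1 : E) else 0)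

/-- `det (A (K k) l)` -/
theorem push_epsT {ι : Type} [Fintype ι] [DecidableEq ι] {n : ℕ} (A : Matrix ι (Fin n) E) (K : Fin n → ι) :
    push A (epsT n E) K = det (Matrix.of fun j k => A (K k) j) := by
  have h1 : (Matrix.of fun j k => A (K k) j) = (Matrix.of fun k => ∑ i, A (K k) i • (Pi.single i (1 : E) : Fin n → E))ᵀ := by
    ext j k
    rw [Matrix.transpose_apply, Matrix.of_apply, Matrix.of_apply, Finset.sum_apply]
    simp only [Pi.smul_apply, Pi.single_apply, smul_eq_mul, mul_ite, mul_one, mul_zero]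
    rw [Finset.sum_ite_eq Finset.univ j, if_pos (Finset.mem_univ j)]
  rw [h1, Matrix.det_transpose]
  have h2 : det (Matrix.of fun k => ∑ i, A (K k) i • (Pi.single i (1 : E) : Fin n → E)) =
      (Matrix.detRowAlternating (R := E) (n := Fin n)).toMultilinearMap (fun k => ∑ i, A (K k) i • (Pi.single i (1 : E) : Fin n → E)) := rfl
  rw [h2, MultilinearMap.map_sum]
  unfold push
  refine Finset.sum_congr rfl fun I _ => ?_
  rw [MultilinearMap.map_smul_univ, smul_eq_mul]
  congr 1
  have h3 : (Matrix.detRowAlternating (R := E) (n := Fin n)).toMultilinearMap (fun k => (Pi.single (I k) (1 : E) : Fin n → E)) =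
      det (Matrix.of fun k => (Pi.single (I k) (1 : E) : Fin n → E)) := rfl
  rw [h3, ← Matrix.det_transpose]
  unfold epsT
  congr 1
  ext j k
  rw [Matrix.transpose_apply, Matrix.of_apply, Matrix.of_apply, Pi.single_apply]
  simp only [eq_comm]

theorem epsT_push {n : ℕ} (A : Matrix (Fin n) (Fin n) E) (K : Fin n → Fin n) :
    push A (epsT n E) K = A.det * epsT n E K := by
  rw [push_epsT, ← Matrix.det_transpose A]
  unfold epsT
  rw [← Matrix.det_mul]
  congr 1
  ext j k
  rw [Matrix.mul_apply, Matrix.of_apply]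
  simp only [Matrix.transpose_apply, Matrix.of_apply, mul_ite, mul_one, mul_zero]
  rw [Finset.sum_ite_eq Finset.univ (K k), if_pos (Finset.mem_univ _)]

theorem pfo_smulT {ι : Type} [Fintype ι] [DecidableEq ι] (c : E) (o : (Fin (2 * m) → ι) → E) (M : Matrix ι ι E) :
    pfo (fun I => c * o I) M = c * pfo o M := by
  unfold pfo
  rw [Finset.mul_sum]
  exact Finset.sum_congr rfl fun I _ => mul_assoc _ _ _

theorem pfo_congr (A M : Matrix (Fin (2 * m)) (Fin (2 * m)) E) :
    pfo (epsT (2 * m) E) (Aᵀ * M * A) = A.det * pfo (epsT (2 * m) E) M := by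
  rw [← pfo_push, ← pfo_smulT]
  congr 1
  funext K
  exact epsT_push A K

theorem epsT_comp {n : ℕ} (σ : Equiv.Perm (Fin n)) (I : Fin n → Fin n) :
    epsT n E (I ∘ σ) = ((Equiv.Perm.sign σ : ℤ) : E) * epsT n E I := by
  unfold epsT
  rw [← Matrix.det_permute']
  rfl

theorem epsT_map {E' : Type} [CommRing E'] (f : E →+* E') {n : ℕ} (I : Fin n → Fin n) : f (epsT n E I) = epsT n E' I := by
  unfold epsT
  rw [RingHom.map_det]
  congr 1
  ext j k
  rw [RingHom.mapMatrix_apply, Matrix.map_apply, Matrix.of_apply, Matrix.of_apply]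
  split_ifs
  · exact map_one f
  · exact map_zero f

theorem epsT_nrm (n : ℕ) : ∑ I : Fin n → Fin n, epsT n E I * epsT n E I = (n.factorial : E) := by
  have h1 := frame_nrm (r := n) (ι := Fin n) (a := fun j l => if l = j then (1 : ℝ) else 0) (by
    intro i j
    simp only [mul_ite, mul_one, mul_zero]
    rw [Finset.sum_ite_eq' Finset.univ j, if_pos (Finset.mem_univ j)]
    simp only [eq_comm])
  have h2 := congrArg (algebraMap ℝ E) h1
  rw [map_natCast, map_sum] at h2
  rw [← h2]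
  refine Finset.sum_congr rfl fun I _ => ?_
  rw [map_mul]
  have h3 : (algebraMap ℝ E) (det (Matrix.of fun j k => if I k = j then (1 : ℝ) else 0)) = epsT n E I :=
    epsT_map (algebraMap ℝ E) I
  rw [h3]

/-- antisymmetrisation -/
theorem pfo_two {ι : Type} [Fintype ι] [DecidableEq ι] {o : (Fin (2 * m) → ι) → E}
    (ho : ∀ (σ : Equiv.Perm (Fin (2 * m))) (I : Fin (2 * m) → ι), o (I ∘ σ) = ((Equiv.Perm.sign σ : ℤ) : E) * o I)
    (U : Matrix ι ι E) : pfo o (U - Uᵀ) = 2 ^ m * pfo o U := by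
  have key : ∀ s : Finset (Fin m), pfs o (fun a => if a ∈ s then U - Uᵀ else U) = 2 ^ s.card * pfo o U := by
    intro s
    induction s using Finset.induction_on with
    | empty =>
      rw [Finset.card_empty, pow_zero, one_mul]
      simp only [Finset.notMem_empty, if_false]
      rfl
    | insert c s hc ih =>
      rw [Finset.card_insert_of_notMem hc, pow_succ, mul_comm _ (2 : E), mul_assoc, ← ih]
      unfold pfs
      have e1 : ∀ I : Fin (2 * m) → ι, ∏ a, (if a ∈ insert c s then U - Uᵀ else U) (I (s0 a)) (I (s1 a)) =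
          (U (I (s0 c)) (I (s1 c)) - U (I (s1 c)) (I (s0 c))) *
            ∏ a ∈ Finset.univ.erase c, (if a ∈ s then U - Uᵀ else U) (I (s0 a)) (I (s1 a)) := by
        intro I
        rw [← Finset.mul_prod_erase Finset.univ _ (Finset.mem_univ c), if_pos (Finset.mem_insert_self c s)]
        congr 1
        refine Finset.prod_congr rfl fun a ha => ?_
        have hac : a ≠ c := Finset.ne_of_mem_erase ha
        have h2 : a ∈ insert c s ↔ a ∈ s := by
          rw [Finset.mem_insert]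
          exact or_iff_right hac
        simp only [h2]
      have e2 : ∀ I : Fin (2 * m) → ι, ∏ a, (if a ∈ s then U - Uᵀ else U) (I (s0 a)) (I (s1 a)) =
          U (I (s0 c)) (I (s1 c)) * ∏ a ∈ Finset.univ.erase c, (if a ∈ s then U - Uᵀ else U) (I (s0 a)) (I (s1 a)) := by
        intro I
        rw [← Finset.mul_prod_erase Finset.univ _ (Finset.mem_univ c), if_neg hc]
      simp only [e1, e2]
      simp only [sub_mul, mul_sub]
      rw [Finset.sum_sub_distrib]
      have e3 : ∑ I : Fin (2 * m) → ι, o I * (U (I (s1 c)) (I (s0 c)) *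
          ∏ a ∈ Finset.univ.erase c, (if a ∈ s then U - Uᵀ else U) (I (s0 a)) (I (s1 a))) =
          -∑ I : Fin (2 * m) → ι, o I * (U (I (s0 c)) (I (s1 c)) *
          ∏ a ∈ Finset.univ.erase c, (if a ∈ s then U - Uᵀ else U) (I (s0 a)) (I (s1 a))) := by
        rw [← Finset.sum_neg_distrib]
        refine Fintype.sum_equiv (Equiv.arrowCongr (Equiv.swap (s0 c) (s1 c)) (Equiv.refl ι)) _ _ fun I => ?_
        have h0 : (Equiv.arrowCongr (Equiv.swap (s0 c) (s1 c)) (Equiv.refl ι)) I = I ∘ (Equiv.swap (s0 c) (s1 c)) := by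
          funext k
          rw [Equiv.arrowCongr_apply]
          rfl
        rw [h0, ho, Equiv.Perm.sign_swap (s0_ne_s1 c c)]
        have h1 : (I ∘ (Equiv.swap (s0 c) (s1 c))) (s0 c) = I (s1 c) := by
          rw [Function.comp_apply, Equiv.swap_apply_left]
        have h2 : (I ∘ (Equiv.swap (s0 c) (s1 c))) (s1 c) = I (s0 c) := by
          rw [Function.comp_apply, Equiv.swap_apply_right]
        rw [h1, h2]
        have h3 : ∏ a ∈ Finset.univ.erase c, (if a ∈ s then U - Uᵀ else U) ((I ∘ (Equiv.swap (s0 c) (s1 c))) (s0 a)) ((I ∘ (Equiv.swap (s0 c) (s1 c))) (s1 a))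
            = ∏ a ∈ Finset.univ.erase c, (if a ∈ s then U - Uᵀ else U) (I (s0 a)) (I (s1 a)) := by
          refine Finset.prod_congr rfl fun a ha => ?_
          have hac : a ≠ c := Finset.ne_of_mem_erase ha
          rw [Function.comp_apply, Function.comp_apply,
            Equiv.swap_apply_of_ne_of_ne (fun e => hac (s0_inj e)) (s0_ne_s1 a c),
            Equiv.swap_apply_of_ne_of_ne (s0_ne_s1 c a).symm (fun e => hac (s1_inj e))]
        rw [h3]
        push_cast
        ring
      rw [e3]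
      ring
  have h := key Finset.univ
  rw [Finset.card_univ, Fintype.card_fin] at h
  rw [← h, pfo_eq]
  congr 1
  funext a
  rw [if_pos (Finset.mem_univ a)]

theorem f10 : (1 : Fin 2) ≠ 0 := by decide

theorem f01 : (0 : Fin 2) ≠ 1 := by decide

/-- the block matrix `(0, F; 0, 0)` -/
def SB (F : Matrix (Fin m) (Fin m) E) : Matrix (Fin (2 * m)) (Fin (2 * m)) E := fun k l =>
  if (pairs m k).2 = 0 ∧ (pairs m l).2 = 1 then F (pairs m k).1 (pairs m l).1 else 0

theorem ps0 (a : Fin m) : pairs m (s0 a) = (a, 0) := by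
  rw [← pairs_s0, Equiv.apply_symm_apply]

theorem ps1 (a : Fin m) : pairs m (s1 a) = (a, 1) := by
  rw [← pairs_s1, Equiv.apply_symm_apply]

/-- the index of a pair of indices -/
def eJ (z : (Fin m → Fin m) × (Fin m → Fin m)) : Fin (2 * m) → Fin (2 * m) := fun k =>
  if (pairs m k).2 = 0 then s0 (z.1 (pairs m k).1) else s1 (z.2 (pairs m k).1)

theorem eJ0 (z : (Fin m → Fin m) × (Fin m → Fin m)) (a : Fin m) : eJ z (s0 a) = s0 (z.1 a) := by
  unfold eJ
  rw [ps0, if_pos rfl]

theorem eJ1 (z : (Fin m → Fin m) × (Fin m → Fin m)) (a : Fin m) : eJ z (s1 a) = s1 (z.2 a) := by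
  unfold eJ
  rw [ps1, if_neg f10]

theorem eJ_inj : Function.Injective (eJ (m := m)) := by
  rintro ⟨x, y⟩ ⟨x', y'⟩ h
  refine Prod.ext (funext fun a => ?_) (funext fun a => ?_)
  · have h1 := congrFun h (s0 a)
    rw [eJ0, eJ0] at h1
    exact s0_inj h1
  · have h1 := congrFun h (s1 a)
    rw [eJ1, eJ1] at h1
    exact s1_inj h1

/-- the sum decomposition of the slots -/
def sp (m : ℕ) : Fin m ⊕ Fin m ≃ Fin (2 * m) where
  toFun := Sum.elim s0 s1
  invFun k := if (pairs m k).2 = 0 then Sum.inl (pairs m k).1 else Sum.inr (pairs m k).1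
  left_inv := by
    rintro (a | a)
    · change (if (pairs m (s0 a)).2 = 0 then Sum.inl (pairs m (s0 a)).1 else Sum.inr (pairs m (s0 a)).1) = _
      rw [ps0, if_pos rfl]
    · change (if (pairs m (s1 a)).2 = 0 then Sum.inl (pairs m (s1 a)).1 else Sum.inr (pairs m (s1 a)).1) = _
      rw [ps1, if_neg f10]
  right_inv := by
    refine pairs_ind (fun a => ?_) (fun a => ?_)
    · change Sum.elim s0 s1 (if (pairs m (s0 a)).2 = 0 then Sum.inl (pairs m (s0 a)).1 else Sum.inr (pairs m (s0 a)).1) = _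
      rw [ps0, if_pos rfl]
      rfl
    · change Sum.elim s0 s1 (if (pairs m (s1 a)).2 = 0 then Sum.inl (pairs m (s1 a)).1 else Sum.inr (pairs m (s1 a)).1) = _
      rw [ps1, if_neg f10]
      rfl

theorem sp_inl (a : Fin m) : sp m (Sum.inl a) = s0 a := rfl

theorem sp_inr (a : Fin m) : sp m (Sum.inr a) = s1 a := rfl

theorem epsT_eJ (z : (Fin m → Fin m) × (Fin m → Fin m)) : epsT (2 * m) E (eJ z) = epsT m E z.1 * epsT m E z.2 := by
  unfold epsT
  rw [← Matrix.det_submatrix_equiv_self (sp m), ← Matrix.det_fromBlocks_zero₂₁ _ 0 _]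
  congr 1
  ext i j
  rcases i with a | a <;> rcases j with b | b
  · rw [Matrix.submatrix_apply, sp_inl, sp_inl, Matrix.of_apply, eJ0, Matrix.fromBlocks_apply₁₁, Matrix.of_apply]
    exact if_congr ⟨s0_inj, fun h => congrArg s0 h⟩ rfl rfl
  · rw [Matrix.submatrix_apply, sp_inl, sp_inr, Matrix.of_apply, eJ1, Matrix.fromBlocks_apply₁₂, if_neg (s0_ne_s1 _ _).symm]
    rfl
  · rw [Matrix.submatrix_apply, sp_inr, sp_inl, Matrix.of_apply, eJ0, Matrix.fromBlocks_apply₂₁, if_neg (s0_ne_s1 _ _)]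
    rfl
  · rw [Matrix.submatrix_apply, sp_inr, sp_inr, Matrix.of_apply, eJ1, Matrix.fromBlocks_apply₂₂, Matrix.of_apply]
    exact if_congr ⟨s1_inj, fun h => congrArg s1 h⟩ rfl rfl

theorem pfo_SB (F : Matrix (Fin m) (Fin m) E) : pfo (epsT (2 * m) E) (SB F) = (m.factorial : E) * F.det := by
  have e1 : pfo (epsT (2 * m) E) (SB F) = ∑ z : (Fin m → Fin m) × (Fin m → Fin m),
      epsT m E z.1 * epsT m E z.2 * ∏ a, F (z.1 a) (z.2 a) := by
    unfold pfo
    refine (Fintype.sum_of_injective eJ eJ_inj _ _ (fun I hI => ?_) fun z => ?_).symm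
    · by_contra h
      have h1 : ∀ a, SB F (I (s0 a)) (I (s1 a)) ≠ 0 := by
        intro a ha
        exact h (by rw [Finset.prod_eq_zero (Finset.mem_univ a) ha, mul_zero])
      have h2 : ∀ a, (pairs m (I (s0 a))).2 = 0 ∧ (pairs m (I (s1 a))).2 = 1 := by
        intro a
        by_contra h3
        refine h1 a ?_
        unfold SB
        rw [if_neg h3]
      refine hI ⟨(fun a => (pairs m (I (s0 a))).1, fun a => (pairs m (I (s1 a))).1), funext ?_⟩
      refine pairs_ind (fun a => ?_) (fun a => ?_)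
      · rw [eJ0]
        refine (pairs m).injective ?_
        rw [ps0]
        exact Prod.ext rfl (h2 a).1.symm
      · rw [eJ1]
        refine (pairs m).injective ?_
        rw [ps1]
        exact Prod.ext rfl (h2 a).2.symm
    · rw [epsT_eJ]
      congr 1
      refine Finset.prod_congr rfl fun a _ => ?_
      rw [eJ0, eJ1]
      unfold SB
      rw [ps0, ps1, if_pos ⟨rfl, rfl⟩]
  rw [e1, Fintype.sum_prod_type]
  have e2 : ∀ x : Fin m → Fin m, ∑ y : Fin m → Fin m, epsT m E x * epsT m E y * ∏ a, F (x a) (y a) =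
      F.det * (epsT m E x * epsT m E x) := by
    intro x
    have e3 := epsT_push F x
    unfold push at e3
    have e4 : ∑ y : Fin m → Fin m, epsT m E x * epsT m E y * ∏ a, F (x a) (y a) =
        epsT m E x * ∑ y : Fin m → Fin m, (∏ a, F (x a) (y a)) * epsT m E y := by
      rw [Finset.mul_sum]
      exact Finset.sum_congr rfl fun y _ => by ring
    rw [e4, e3]
    ring
  simp only [e2]
  rw [← Finset.mul_sum, epsT_nrm, mul_comm]

/-- the real form of a complex matrix, in the order `e₁, i e₁, e₂, i e₂, …` -/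
def rF (F : Matrix (Fin q) (Fin q) (CB E)) : Matrix (Fin (2 * q)) (Fin (2 * q)) E := fun k l =>
  if (pairs q k).2 = (pairs q l).2 then (F (pairs q k).1 (pairs q l).1).re
  else if (pairs q k).2 = 0 then -(F (pairs q k).1 (pairs q l).1).im else (F (pairs q k).1 (pairs q l).1).im

theorem rF00 (F : Matrix (Fin q) (Fin q) (CB E)) (a b : Fin q) : rF F (s0 a) (s0 b) = (F a b).re := by
  unfold rF
  rw [ps0, ps0, if_pos rfl]

theorem rF11 (F : Matrix (Fin q) (Fin q) (CB E)) (a b : Fin q) : rF F (s1 a) (s1 b) = (F a b).re := by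
  unfold rF
  rw [ps1, ps1, if_pos rfl]

theorem rF01 (F : Matrix (Fin q) (Fin q) (CB E)) (a b : Fin q) : rF F (s0 a) (s1 b) = -(F a b).im := by
  unfold rF
  rw [ps0, ps1, if_neg f01, if_pos rfl]

theorem rF10 (F : Matrix (Fin q) (Fin q) (CB E)) (a b : Fin q) : rF F (s1 a) (s0 b) = (F a b).im := by
  unfold rF
  rw [ps0, ps1, if_neg f10, if_neg f10]

/-- the change of basis -/
def cM : Matrix (Fin 2) (Fin 2) (CB E) := !![1, 1; CB.I, -CB.I]

/-- the change of basis -/
def CM (q : ℕ) (E : Type) [CommRing E] [Algebra ℝ E] : Matrix (Fin (2 * q)) (Fin (2 * q)) (CB E) := fun k l =>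
  if (pairs q k).1 = (pairs q l).1 then cM (pairs q k).2 (pairs q l).2 else 0

theorem det_CM (q : ℕ) : (CM q E).det = (-(CB.I + CB.I)) ^ q := by
  have h1 : CM q E = (Matrix.kroneckerMap (· * ·) (1 : Matrix (Fin q) (Fin q) (CB E)) cM).submatrix (pairs q) (pairs q) := by
    ext1 k l
    rw [Matrix.submatrix_apply, Matrix.kroneckerMap_apply, Matrix.one_apply, ite_mul, one_mul, zero_mul]
    rfl
  rw [h1, Matrix.det_submatrix_equiv_self, Matrix.det_kronecker, Matrix.det_one, one_pow, one_mul, Fintype.card_fin]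
  congr 1
  unfold cM
  rw [Matrix.det_fin_two_of]
  ring

theorem CM00 (a b : Fin q) : CM q E (s0 a) (s0 b) = if a = b then 1 else 0 := by
  unfold CM
  rw [ps0, ps0]
  rfl

theorem CM01 (a b : Fin q) : CM q E (s0 a) (s1 b) = if a = b then 1 else 0 := by
  unfold CM
  rw [ps0, ps1]
  rfl

theorem CM10 (a b : Fin q) : CM q E (s1 a) (s0 b) = if a = b then CB.I else 0 := by
  unfold CM
  rw [ps0, ps1]
  rfl

theorem CM11 (a b : Fin q) : CM q E (s1 a) (s1 b) = if a = b then -CB.I else 0 := by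
  unfold CM
  rw [ps1, ps1]
  rfl

/-- the real form as a complex matrix -/
def rFc (F : Matrix (Fin q) (Fin q) (CB E)) : Matrix (Fin (2 * q)) (Fin (2 * q)) (CB E) := (rF F).map CB.ofR

theorem rFc_CM (F : Matrix (Fin q) (Fin q) (CB E)) (k : Fin (2 * q)) (b : Fin q) :
    (rFc F * CM q E) k (s0 b) = rFc F k (s0 b) + rFc F k (s1 b) * CB.I ∧
    (rFc F * CM q E) k (s1 b) = rFc F k (s0 b) - rFc F k (s1 b) * CB.I := by
  constructor
  · rw [Matrix.mul_apply, sum_pairs]
    simp only [CM00, CM10, mul_ite, mul_one, mul_zero]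
    rw [Finset.sum_add_distrib, Finset.sum_ite_eq' Finset.univ b, Finset.sum_ite_eq' Finset.univ b,
      if_pos (Finset.mem_univ b), if_pos (Finset.mem_univ b)]
  · rw [Matrix.mul_apply, sum_pairs]
    simp only [CM01, CM11, mul_ite, mul_one, mul_zero]
    rw [Finset.sum_add_distrib, Finset.sum_ite_eq' Finset.univ b, Finset.sum_ite_eq' Finset.univ b,
      if_pos (Finset.mem_univ b), if_pos (Finset.mem_univ b), mul_neg, ← sub_eq_add_neg]

theorem re_im' (z : CB E) : CB.ofR z.re + CB.ofR z.im * CB.I = z := by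
  rw [← CB.I_comm, ← CB.eq_re_im]

theorem N00 (F : Matrix (Fin q) (Fin q) (CB E)) (a b : Fin q) : (rFc F * CM q E) (s0 a) (s0 b) = CB.conj (F a b) := by
  rw [(rFc_CM F _ b).1]
  unfold rFc
  rw [Matrix.map_apply, Matrix.map_apply, rF00, rF01]
  have h := re_im' (CB.conj (F a b))
  rwa [CB.conj_re, CB.conj_im] at h

theorem N10 (F : Matrix (Fin q) (Fin q) (CB E)) (a b : Fin q) : (rFc F * CM q E) (s1 a) (s0 b) = CB.I * CB.conj (F a b) := by
  rw [(rFc_CM F _ b).1]
  unfold rFc
  rw [Matrix.map_apply, Matrix.map_apply, rF10, rF11]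
  have h := re_im' (CB.conj (F a b))
  rw [CB.conj_re, CB.conj_im, map_neg] at h
  rw [← h]
  have h2 : (CB.I : CB E) * CB.I = -1 := CB.I_mul_I
  linear_combination (CB.ofR (F a b).im : CB E) * h2

theorem N01 (F : Matrix (Fin q) (Fin q) (CB E)) (a b : Fin q) : (rFc F * CM q E) (s0 a) (s1 b) = F a b := by
  rw [(rFc_CM F _ b).2]
  unfold rFc
  rw [Matrix.map_apply, Matrix.map_apply, rF00, rF01]
  have h := re_im' (F a b)
  rw [map_neg, neg_mul, sub_neg_eq_add]
  exact h

theorem N11 (F : Matrix (Fin q) (Fin q) (CB E)) (a b : Fin q) : (rFc F * CM q E) (s1 a) (s1 b) = -(CB.I * F a b) := by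
  rw [(rFc_CM F _ b).2]
  unfold rFc
  rw [Matrix.map_apply, Matrix.map_apply, rF10, rF11]
  have h := re_im' (F a b)
  rw [← h]
  have h2 : (CB.I : CB E) * CB.I = -1 := CB.I_mul_I
  simp only [CB.add_re, CB.add_im, CB.ofR_re, CB.ofR_im, CB.mul_re, CB.mul_im]
  have e1 : (CB.I : CB E).re = 0 := rfl
  have e2 : (CB.I : CB E).im = 1 := rfl
  rw [e1, e2]
  simp only [mul_zero, sub_zero, add_zero, mul_one, zero_add]
  linear_combination (CB.ofR (F a b).im : CB E) * h2

theorem CMT (N : Matrix (Fin (2 * q)) (Fin (2 * q)) (CB E)) (a : Fin q) (l : Fin (2 * q)) :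
    ((CM q E)ᵀ * N) (s0 a) l = N (s0 a) l + CB.I * N (s1 a) l ∧
    ((CM q E)ᵀ * N) (s1 a) l = N (s0 a) l - CB.I * N (s1 a) l := by
  constructor
  · rw [Matrix.mul_apply, sum_pairs]
    simp only [Matrix.transpose_apply, CM00, CM10, ite_mul, one_mul, zero_mul]
    rw [Finset.sum_add_distrib, Finset.sum_ite_eq' Finset.univ a, Finset.sum_ite_eq' Finset.univ a,
      if_pos (Finset.mem_univ a), if_pos (Finset.mem_univ a)]
  · rw [Matrix.mul_apply, sum_pairs]
    simp only [Matrix.transpose_apply, CM01, CM11, ite_mul, one_mul, zero_mul]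
    rw [Finset.sum_add_distrib, Finset.sum_ite_eq' Finset.univ a, Finset.sum_ite_eq' Finset.univ a,
      if_pos (Finset.mem_univ a), if_pos (Finset.mem_univ a), neg_mul, ← sub_eq_add_neg]

theorem SB00 {E : Type} [CommRing E] (F : Matrix (Fin m) (Fin m) E) (a b : Fin m) : SB F (s0 a) (s0 b) = 0 := by
  unfold SB
  rw [ps0, ps0, if_neg (fun h => f01 h.2)]

theorem SB01 {E : Type} [CommRing E] (F : Matrix (Fin m) (Fin m) E) (a b : Fin m) : SB F (s0 a) (s1 b) = F a b := by
  unfold SB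
  rw [ps0, ps1, if_pos ⟨rfl, rfl⟩]

theorem SB1 {E : Type} [CommRing E] (F : Matrix (Fin m) (Fin m) E) (a : Fin m) (l : Fin (2 * m)) : SB F (s1 a) l = 0 := by
  unfold SB
  rw [ps1, if_neg (fun h => f10 h.1)]

theorem CMT_rF {F : Matrix (Fin q) (Fin q) (CB E)} (h : (Fᵀ).map CB.conj = -F) :
    (CM q E)ᵀ * rFc F * CM q E = SB (F + F) - (SB (F + F))ᵀ := by
  have hc : ∀ a b, CB.conj (F a b) = -F b a := fun a b => congrFun (congrFun h b) a
  have h2 : (CB.I : CB E) * CB.I = -1 := CB.I_mul_I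
  rw [Matrix.mul_assoc]
  ext1 k l
  rw [Matrix.sub_apply, Matrix.transpose_apply]
  revert k l
  refine pairs_ind (fun a => pairs_ind (fun b => ?_) (fun b => ?_)) (fun a => pairs_ind (fun b => ?_) (fun b => ?_))
  · rw [(CMT _ a _).1, N00, N10, SB00, SB00, hc]
    linear_combination (-F b a) * h2
  · rw [(CMT _ a _).1, N01, N11, SB01, SB1, Matrix.add_apply]
    linear_combination (-F a b) * h2
  · rw [(CMT _ a _).2, N00, N10, SB01, SB1, hc, Matrix.add_apply]
    linear_combination (F b a) * h2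
  · rw [(CMT _ a _).2, N01, N11, SB1, SB1]
    linear_combination (F a b) * h2

theorem pfo_mapT {ι : Type} [Fintype ι] [DecidableEq ι] {E E' : Type} [CommRing E] [CommRing E'] (f : E →+* E')
    (o : (Fin (2 * m) → ι) → E) (M : Matrix ι ι E) : f (pfo o M) = pfo (fun I => f (o I)) (M.map f) := by
  unfold pfo
  rw [map_sum]
  exact Finset.sum_congr rfl fun I _ => by rw [map_mul, map_prod]; rfl

theorem two_cancel {E : Type} [CommRing E] [Algebra ℝ E] (n : ℕ) {x y : E} (h : 2 ^ n * x = 2 ^ n * y) : x = y := by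
  have h1 : IsUnit ((2 : E) ^ n) := by
    have h2 : ((2 : E) ^ n) = algebraMap ℝ E (2 ^ n) := by
      rw [map_pow, map_ofNat]
    rw [h2]
    exact (IsUnit.mk0 ((2 : ℝ) ^ n) (pow_ne_zero _ two_ne_zero)).map (algebraMap ℝ E)
  exact h1.mul_left_cancel h

/-- **the Pfaffian of the real form**, complex form -/
theorem pfo_rFc {F : Matrix (Fin q) (Fin q) (CB E)} (h : (Fᵀ).map CB.conj = -F) :
    CB.ofR (pfo (epsT (2 * q) E) (rF F)) = 2 ^ q * (q.factorial : CB E) * (CB.I ^ q * F.det) := by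
  have h1 : (CB.ofR (pfo (epsT (2 * q) E) (rF F)) : CB E) = pfo (epsT (2 * q) (CB E)) (rFc F) := by
    have h2 := pfo_mapT (m := q) (CB.ofR (B := E)).toRingHom (epsT (2 * q) E) (rF F)
    have h3 : (fun I => (CB.ofR (B := E)).toRingHom (epsT (2 * q) E I)) = epsT (2 * q) (CB E) :=
      funext fun I => epsT_map _ I
    rw [h3] at h2
    exact h2
  have h2 := pfo_congr (CM q E) (rFc F)
  rw [CMT_rF h, pfo_two epsT_comp, pfo_SB, det_CM, ← h1] at h2
  have h3 : (F + F).det = 2 ^ q * F.det := by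
    rw [← two_smul (CB E) F, Matrix.det_smul, Fintype.card_fin]
  rw [h3] at h2
  have h4 : CB.I ^ q * (-(CB.I + CB.I)) ^ q = (2 : CB E) ^ q := by
    rw [← mul_pow]
    congr 1
    have h5 : (CB.I : CB E) * CB.I = -1 := CB.I_mul_I
    linear_combination (-2) * h5
  refine two_cancel q ?_
  calc (2 : CB E) ^ q * CB.ofR (pfo (epsT (2 * q) E) (rF F))
      = CB.I ^ q * ((-(CB.I + CB.I)) ^ q * CB.ofR (pfo (epsT (2 * q) E) (rF F))) := by rw [← h4, mul_assoc]
    _ = CB.I ^ q * (2 ^ q * ((q.factorial : CB E) * (2 ^ q * F.det))) := by rw [← h2]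
    _ = _ := by ring

/-- **the Pfaffian of the real form** -/
theorem pfo_rF' {F : Matrix (Fin q) (Fin q) (CB E)} (h : (Fᵀ).map CB.conj = -F) :
    pfo (epsT (2 * q) E) (rF F) = (2 ^ q * (q.factorial : ℝ)) • (CB.I ^ q * F.det).re := by
  have h1 := congrArg CB.re (pfo_rFc h)
  rw [CB.ofR_re] at h1
  rw [h1, ← CB.smul_re, Algebra.smul_def, map_mul, map_pow, map_ofNat, map_natCast]

/-- **the Pfaffian of the real form** -/
theorem pfo_rF (q : ℕ) : ∃ ε : ℝ, (ε = 1 ∨ ε = -1) ∧ ∀ (E : Type) [CommRing E] [Algebra ℝ E]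
    (F : Matrix (Fin q) (Fin q) (CB E)), (Fᵀ).map CB.conj = -F →
    pfo (epsT (2 * q) E) (rF F) = (ε * (2 ^ q * (q.factorial : ℝ))) • (CB.I ^ q * F.det).re :=
  ⟨1, Or.inl rfl, fun E _ _ F h => by rw [one_mul, pfo_rF' h]⟩

/-- block diagonal matrices -/
def DB (X Y : Matrix (Fin q) (Fin q) (CB E)) : Matrix (Fin (2 * q)) (Fin (2 * q)) (CB E) :=
  (Matrix.fromBlocks X 0 0 Y).submatrix (sp q).symm (sp q).symm

theorem det_DB (X Y : Matrix (Fin q) (Fin q) (CB E)) : (DB X Y).det = X.det * Y.det := by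
  unfold DB
  rw [Matrix.det_submatrix_equiv_self, Matrix.det_fromBlocks_zero₂₁]

theorem DB0 (X Y : Matrix (Fin q) (Fin q) (CB E)) (a b : Fin q) :
    DB X Y (s0 a) (s0 b) = X a b ∧ DB X Y (s0 a) (s1 b) = 0 ∧ DB X Y (s1 a) (s0 b) = 0 ∧ DB X Y (s1 a) (s1 b) = Y a b := by
  unfold DB
  rw [← sp_inl, ← sp_inr, ← sp_inl, ← sp_inr]
  simp only [Matrix.submatrix_apply, Equiv.symm_apply_apply]
  exact ⟨rfl, rfl, rfl, rfl⟩

theorem rFc_CM' (F : Matrix (Fin q) (Fin q) (CB E)) : rFc F * CM q E = CM q E * DB (F.map CB.conj) F := by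
  ext1 k l
  rw [Matrix.mul_apply (M := CM q E), sum_pairs]
  revert k l
  refine pairs_ind (fun a => pairs_ind (fun b => ?_) (fun b => ?_)) (fun a => pairs_ind (fun b => ?_) (fun b => ?_))
  · simp only [(DB0 _ _ _ _).1, (DB0 _ _ _ _).2.2.1, mul_zero, add_zero, CM00, ite_mul, one_mul, zero_mul]
    rw [Finset.sum_ite_eq Finset.univ a, if_pos (Finset.mem_univ a), N00]
    rfl
  · simp only [(DB0 _ _ _ _).2.1, (DB0 _ _ _ _).2.2.2, mul_zero, zero_add, CM01, ite_mul, one_mul, zero_mul]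
    rw [Finset.sum_ite_eq Finset.univ a, if_pos (Finset.mem_univ a), N01]
  · simp only [(DB0 _ _ _ _).1, (DB0 _ _ _ _).2.2.1, mul_zero, add_zero, CM10, ite_mul, zero_mul]
    rw [Finset.sum_ite_eq Finset.univ a, if_pos (Finset.mem_univ a), N10]
    rfl
  · simp only [(DB0 _ _ _ _).2.1, (DB0 _ _ _ _).2.2.2, mul_zero, zero_add, CM11, ite_mul, zero_mul]
    rw [Finset.sum_ite_eq Finset.univ a, if_pos (Finset.mem_univ a), N11, neg_mul]

/-- the determinant of the real form -/
theorem det_rF (F : Matrix (Fin q) (Fin q) (CB E)) : (rF F).det = (F.det * CB.conj F.det).re := by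
  have h1 := congrArg Matrix.det (rFc_CM' F)
  rw [Matrix.det_mul, Matrix.det_mul, det_DB, det_CM] at h1
  have h2 : (rFc F).det = CB.ofR (rF F).det := by
    unfold rFc
    exact ((CB.ofR (B := E)).toRingHom.map_det (rF F)).symm
  have h3 : (F.map CB.conj).det = CB.conj F.det := ((CB.conj (B := E)).toRingHom.map_det F).symm
  have h4 : CB.I ^ q * (-(CB.I + CB.I)) ^ q = (2 : CB E) ^ q := by
    rw [← mul_pow]
    congr 1
    have h5 : (CB.I : CB E) * CB.I = -1 := CB.I_mul_I
    linear_combination (-2) * h5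
  have h5 : (CB.ofR (rF F).det : CB E) = F.det * CB.conj F.det := by
    refine two_cancel q ?_
    rw [← h4, ← h2]
    rw [h3] at h1
    linear_combination (CB.I ^ q : CB E) * h1
  rw [← h5, CB.ofR_re]

end Pool.Agent.Lib.MP_ccbbf6_gt.L5.IC
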