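import Pool.Agent.Lib.MP_ccbbf6_gt.L5.IC4r

/-!
# Level 5, X5, file 4s: the top Chern form of a hermitian bundle is the Euler form of its real form (helper61)

`P` hermitian idempotent over `CB A` (`A` = functions), `trace P = q`; `rM P` = real form, rank `2 q`; `oC q P` = its orientation tensor.
* `Pts φ` : there are enough points; `Pts_FO`, `Pts.of_inj`, `Pts_FB`;
* `Or_oC` : `Or (2 q) (rM P) (oC q P)` over `SF X`; `Or_oC_inj`, `Or_oCB`;
* `cf_eulG` : `Re (i^q c_q(P)) = - (2 π)^q eulG (rM P) (oC q P)` (as forms).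
-/

set_option autoImplicit false
set_option maxSynthPendingDepth 3
set_option linter.unusedSectionVars false

open Set Filter Topology Matrix
open scoped ContDiff

noncomputable section

namespace Pool.Agent.Lib.MP_ccbbf6_gt.L5.IC

open L4 L4.FR

variable {q : ℕ} {ι κ μ : Type} [Fintype ι] [DecidableEq ι] [Fintype κ] [DecidableEq κ] [Fintype μ] [DecidableEq μ]

theorem ad_map {E E' : Type} [CommRing E] [Algebra ℝ E] [CommRing E'] [Algebra ℝ E'] (f : E →ₐ[ℝ] E')
    (M : Matrix ι κ (CB E)) : ad (M.map (CB.alg f)) = (ad M).map (CB.alg f) := by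
  ext i j
  · rfl
  · exact (map_neg f _).symm

section gen

variable {A A' B B' : Type} [CommRing A] [Algebra ℝ A] [Ring B] [Algebra ℝ B] {G : GDA B} [CommRing A'] [Algebra ℝ A']
  [Ring B'] [Algebra ℝ B'] {G' : GDA B'}

/-- real and imaginary part of an even element -/
def kE (G : GDA B) : (GC G).Ee →ₐ[ℝ] CB G.Ee where
  toFun w := ⟨⟨(w : CB B).re, congrArg CB.re w.2⟩, ⟨(w : CB B).im, congrArg CB.im w.2⟩⟩
  map_one' := rfl
  map_mul' _ _ := rfl
  map_zero' := rfl
  map_add' _ _ := rfl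
  commutes' r := by
    refine CB.ext (Subtype.ext ?_) (Subtype.ext ?_)
    · change (algebraMap ℝ (CB B) r).re = _
      rw [Algebra.algebraMap_eq_smul_one, Algebra.algebraMap_eq_smul_one]
      rfl
    · change (algebraMap ℝ (CB B) r).im = _
      rw [Algebra.algebraMap_eq_smul_one, Algebra.algebraMap_eq_smul_one]
      rfl

theorem kE_val (w : (GC G).Ee) : CB.alg G.Ee.val (kE G w) = (w : CB B) := rfl

theorem kE_e (φ : Fun0 A G) (a : CB A) : kE G (φ.C.e a) = CB.alg φ.e a := rfl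

theorem Rv_rM (φ : Fun0 A G) (P : Matrix ι ι (CB A)) : Rv φ (rM P) = rM (Rv φ.C P) := by
  unfold Rv
  rw [rM_map, R_rM, rM_mul]
  rfl

theorem Re_rM (φ : Fun0 A G) (P : Matrix ι ι (CB A)) : Re φ (rM P) = rM ((Re φ.C P).map (kE G)) := by
  refine GDA.val_inj ?_
  have h1 : (Re φ (rM P)).map G.Ee.val = Rv φ (rM P) := rfl
  rw [h1, Rv_rM, rM_map]
  rfl

/-- a unitary frame at a point -/
theorem pt_frame {P : Matrix ι ι (CB A)} (hP : P * P = P) (hs : ad P = P) (ht : trace P = (q : CB A)) (x : A →ₐ[ℝ] ℝ) :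
    ∃ a : Matrix ι (Fin q) (CB ℝ), a * ad a = P.map (CB.alg x) ∧ ad a * a = 1 := by
  refine exists_frameR ?_ ?_ ?_
  · rw [← Matrix.map_mul, hP]
  · rw [ad_map, hs]
  · have h1 := congrArg (CB.alg x) ht
    rw [map_natCast] at h1
    rw [← h1]
    exact (AddMonoidHom.map_trace (CB.alg x).toAddMonoidHom P).symm

/-- values at a point -/
theorem v_ZG (φ : Fun0 A G) {E : Type} [CommRing E] [Algebra ℝ E] (v : G.Ee →ₐ[ℝ] E) (x : A →ₐ[ℝ] ℝ)
    (hv : ∀ f, v (φ.e f) = algebraMap ℝ E (x f)) {P : Matrix ι ι (CB A)} (hP : P * P = P) (hs : ad P = P)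
    (ht : trace P = (q : CB A)) : v (ZG φ (rM P) (oC q P)) = (2 ^ q * (q.factorial : ℝ)) •
      (CB.I ^ q * CB.alg v (kE G ((GC G).incZ (GDA.cf (φ.C.idem hP) q)))).re := by
  have hI := φ.C.idem hP
  obtain ⟨a0, h1, h2⟩ := pt_frame hP hs ht x
  obtain ⟨c, hc⟩ : ∃ c : ℝ →ₐ[ℝ] E, c = Algebra.ofId ℝ E := ⟨_, rfl⟩
  obtain ⟨a, ha⟩ : ∃ a, a = a0.map (CB.alg c) := ⟨_, rfl⟩
  obtain ⟨Pz, hPz⟩ : ∃ Pz, Pz = (P.map (CB.alg x)).map (CB.alg c) := ⟨_, rfl⟩
  have h1' : a * ad a = Pz := by rw [ha, ad_map, ← Matrix.map_mul, h1, hPz]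
  have h2' : ad a * a = 1 := by
    rw [ha, ad_map, ← Matrix.map_mul, h2]
    exact Matrix.map_one _ (map_zero _) (map_one _)
  obtain ⟨T, hT⟩ : ∃ T : (GC G).Ee →ₐ[ℝ] CB E, T = (CB.alg v).comp (kE G) := ⟨_, rfl⟩
  have hTe : ∀ f : CB A, T (φ.C.e f) = CB.alg c (CB.alg x f) := by
    intro f
    rw [hT, hc]
    exact CB.ext (hv f.re) (hv f.im)
  have hPe : hI.ev.lift.map T = Pz := by
    rw [hPz]
    exact Matrix.ext fun i j => hTe (P i j)
  obtain ⟨R, hR⟩ : ∃ R : Matrix ι ι (CB E), R = hI.evR.lift.map T := ⟨_, rfl⟩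
  have hcomm : Pz * R = R * Pz := by
    rw [hR, ← hPe, ← Matrix.map_mul, ← Matrix.map_mul]
    congr 1
    refine GDA.val_inj ?_
    rw [GDA.val_mul, GDA.val_mul, GDA.Ev.lift_map, GDA.Ev.lift_map, hI.comm]
  obtain ⟨N, hN⟩ : ∃ N : Matrix ι ι (CB E), N = (Re φ.C P).map T := ⟨_, rfl⟩
  have hNR : N = Pz * R := by
    have e1 : Re φ.C P = hI.ev.lift * hI.evR.lift := by
      refine GDA.val_inj ?_
      rw [GDA.val_mul, GDA.Ev.lift_map, GDA.Ev.lift_map]
      rfl
    rw [hN, e1, Matrix.map_mul, hPe, ← hR]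
  have hrN : (Re φ (rM P)).map v = rM N := by
    rw [Re_rM, rM_map, hN, hT]
    rfl
  have hNs : ad N = -N := by
    refine rM_inj ?_
    have e1 : rM (ad N) = (rM N)ᵀ := rM_star N
    have e2 : rM P * rM P = rM P := by rw [← rM_mul, hP]
    have e3 : (rM P)ᵀ = rM P := by
      rw [← rM_star]
      exact congrArg rM hs
    rw [e1, rM_neg, ← hrN]
    refine Matrix.ext fun i j => ?_
    change v (Re φ (rM P) j i) = -(v (Re φ (rM P) i j))
    rw [← map_neg]
    congr 1
    exact Subtype.ext (Rv_anti e2 e3 j i)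
  have e1 : v (ZG φ (rM P) (oC q P)) = pfo (ft (aF a)) (rM N) := by
    have e2 := pfo_mapT (m := q) (v : G.Ee →+* E) (fun I => φ.e (oC q P I)) (Re φ (rM P))
    have e3 : (Re φ (rM P)).map (v : G.Ee →+* E) = rM N := hrN
    have e4 : (fun I => (v : G.Ee →+* E) (φ.e (oC q P I))) = ft (aF a) := by
      rw [← oC_frame h1']
      funext I
      refine (hv _).trans ?_
      have e5 : (algebraMap ℝ E) (x (oC q P I)) = c (x (oC q P I)) := by
        rw [hc]
        rfl
      rw [e5, oC_map, oC_map, hPz]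
    rw [e3, e4] at e2
    exact e2
  have e2 : CB.alg v (kE G ((GC G).incZ (GDA.cf hI q))) = (ad a * N * a).det := by
    have e3 : CB.alg v (kE G ((GC G).incZ (GDA.cf hI q))) = T ((GC G).incZ (GDA.cf hI q)) := by
      rw [hT]
      rfl
    have e4 : ad a * N * a = ad a * R * a := by
      rw [hNR, ← h1']
      calc ad a * (a * ad a * R) * a = (ad a * a) * (ad a * R * a) := by simp only [Matrix.mul_assoc]
        _ = _ := by rw [h2', Matrix.one_mul]
    rw [e3, e4, ← elc_frame h1' h2' hcomm]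
    unfold GDA.cf
    rw [map_elc, map_elc]
    congr 1
    funext i
    rw [GDA.incZ_zps, hR, ← hPe]
    have e5 : ∀ M : Matrix ι ι (GC G).Ee, T (trace M) = trace (M.map T) := by
      intro M
      unfold trace
      rw [map_sum]
      rfl
    have e6 : ∀ (M : Matrix ι ι (GC G).Ee) (i : ℕ), (M ^ i).map T = M.map T ^ i := by
      intro M i
      exact map_pow T.mapMatrix M i
    rw [e5, Matrix.map_mul, e6]
  rw [e1, e2, pfo_frame hNs]

/-- there are enough points -/
def Pts (φ : Fun0 A G) : Prop := ∀ a b : G.Ee, (∀ (E : Type) [CommRing E] [Algebra ℝ E] (v : G.Ee →ₐ[ℝ] E)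
  (x : A →ₐ[ℝ] ℝ), (∀ f, v (φ.e f) = algebraMap ℝ E (x f)) → v a = v b) → a = b

theorem Pts.of_inj {φ : Fun0 A G} {φ' : Fun0 A' G'} (F : FHom φ φ') (hF : Function.Injective F.h.f) (h : Pts φ') :
    Pts φ := by
  intro a b hab
  have h1 : F.h.ee a = F.h.ee b := h _ _ fun E _ _ v x hv => hab E (v.comp F.h.ee) (x.comp F.g) fun f => by
    have h2 : F.h.ee (φ.e f) = φ'.e (F.g f) := Subtype.ext (F.com f)
    have h3 : v (F.h.ee (φ.e f)) = algebraMap ℝ E (x (F.g f)) := by rw [h2, hv]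
    exact h3
  exact Subtype.ext (hF (congrArg Subtype.val h1))

variable {φ : Fun0 A G}

/-- the real part of `i^q c_q` as an even form -/
theorem ZG_cf (hφ : Pts φ) {P : Matrix ι ι (CB A)} (hP : P * P = P) (hs : ad P = P) (ht : trace P = (q : CB A)) :
    ZG φ (rM P) (oC q P) = (2 ^ q * (q.factorial : ℝ)) •
      (CB.I ^ q * kE G ((GC G).incZ (GDA.cf (φ.C.idem hP) q))).re := by
  refine hφ _ _ fun E _ _ v x hv => ?_
  rw [v_ZG φ v x hv hP hs ht, map_smul]
  congr 1
  have h1 : CB.alg v (CB.I ^ q * kE G ((GC G).incZ (GDA.cf (φ.C.idem hP) q))) =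
      CB.I ^ q * CB.alg v (kE G ((GC G).incZ (GDA.cf (φ.C.idem hP) q))) := by
    rw [map_mul, map_pow, I_map]
  rw [← h1]
  rfl

/-- **the top Chern form is the Euler form of the real form** -/
theorem cf_eulG (hφ : Pts φ) {P : Matrix ι ι (CB A)} (hP : P * P = P) (hs : ad P = P) (ht : trace P = (q : CB A)) :
    (CB.I ^ q * ((GDA.cf (φ.C.idem hP) q : (GC G).Zc) : CB B)).re =
      (-(2 * Real.pi) ^ q) • eulG φ (rM P) (oC q P) := by
  have h1 := congrArg (fun w : G.Ee => (w : B)) (ZG_cf hφ hP hs ht)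
  have h2 : (((CB.I ^ q * kE G ((GC G).incZ (GDA.cf (φ.C.idem hP) q))).re : G.Ee) : B) =
      (CB.I ^ q * ((GDA.cf (φ.C.idem hP) q : (GC G).Zc) : CB B)).re := by
    have h3 : CB.alg G.Ee.val (CB.I ^ q * kE G ((GC G).incZ (GDA.cf (φ.C.idem hP) q))) =
        CB.I ^ q * ((GDA.cf (φ.C.idem hP) q : (GC G).Zc) : CB B) := by
      have h0 : CB.alg G.Ee.val (CB.I : CB G.Ee) = CB.I := CB.ext (map_zero _) (map_one _)
      rw [map_mul, map_pow, h0]
      rfl
    exact congrArg CB.re h3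
  have h4 : ((ZG φ (rM P) (oC q P) : G.Ee) : B) = (2 ^ q * (q.factorial : ℝ)) •
      (CB.I ^ q * ((GDA.cf (φ.C.idem hP) q : (GC G).Zc) : CB B)).re := by
    rw [← h2]
    exact h1
  unfold eulG
  rw [h4, smul_smul, smul_smul]
  have hp := Real.pi_ne_zero
  have hf : (q.factorial : ℝ) ≠ 0 := Nat.cast_ne_zero.2 (Nat.factorial_ne_zero q)
  have h5 : (-(2 * Real.pi) ^ q) * (-(1 / ((4 * Real.pi) ^ q * (q.factorial : ℝ)))) * (2 ^ q * (q.factorial : ℝ)) = 1 := by
    have h6 : ((4 * Real.pi) ^ q : ℝ) = 2 ^ q * (2 * Real.pi) ^ q := by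
      rw [← mul_pow]
      congr 1
      ring
    rw [h6]
    field_simp
  rw [h5, one_smul]

end gen

/-! ### spaces -/

/-- even exterior algebra -/
def Er (k : ℕ) : Subalgebra ℝ (FR.Ex k) where
  carrier := {w | ivo k w = w}
  mul_mem' := fun {a b} ha hb => by
    change ivo k (a * b) = a * b
    rw [map_mul, ha, hb]
  add_mem' := fun {a b} ha hb => by
    change ivo k (a + b) = a + b
    rw [map_add, ha, hb]
  algebraMap_mem' := fun r => AlgHom.commutes _ _

instance (k : ℕ) : CommRing (Er k) :=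
  { (inferInstance : Ring (Er k)) with
    mul_comm := fun a b => Subtype.ext (Ex_even_comm a.2 b) }

section space

variable {X : Space} {k : ℕ}

/-- values of real even forms -/
def vr (p : X.Plot k) (z : V k) : (GO X).Ee →ₐ[ℝ] Er k where
  toFun w := ⟨vf p z w, by
    change ivo k (vf p z w) = vf p z w
    rw [← vf_s]
    exact congrArg _ w.2⟩
  map_one' := Subtype.ext (map_one _)
  map_mul' _ _ := Subtype.ext (map_mul (vf p z) _ _)
  map_zero' := Subtype.ext (map_zero _)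
  map_add' _ _ := Subtype.ext (map_add (vf p z) _ _)
  commutes' _ := Subtype.ext (AlgHom.commutes _ _)

theorem vr_ext {a b : (GO X).Ee} (h : ∀ (k : ℕ) (p : X.Plot k) (z : V k), vr p z a = vr p z b) : a = b :=
  Subtype.ext (vf_ext fun k p z => congrArg Subtype.val (h k p z))

theorem vr_fn (p : X.Plot k) (z : V k) (f : SF X) : vr p z ((FO X).e f) = algebraMap ℝ (Er k) (vl (p.1 z) f) := by
  refine Subtype.ext ?_
  exact ev_fO _ _ _ _

theorem Pts_FO : Pts (FO X) := fun _ _ h => vr_ext fun k p z => h (Er k) (vr p z) (vl (p.1 z)) (vr_fn p z)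

theorem Pts_FB (c : Circ X) : Pts (FB c) := Pts_FO.of_inj (FHom.inc c) Subtype.val_injective

/-- **the orientation of the real form** -/
theorem Or_oC {P : Matrix ι ι (CB (SF X))} (hP : P * P = P) (hs : ad P = P) (ht : trace P = (q : CB (SF X))) :
    Or (2 * q) (rM P) (oC q P) := by
  refine Or.of_pt fun x => ?_
  obtain ⟨a, h1, h2⟩ := pt_frame hP hs ht (vl x)
  have e1 : (rM P).map (vl x) = aF a * (aF a)ᵀ := by rw [aF_mulT, h1, rM_map]
  have e2 : (fun I => vl x (oC q P I)) = ft (aF a) := by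
    rw [← oC_frame h1]
    exact funext fun I => oC_map _ _ _
  rw [e1, e2]
  exact Or_ft (aF_Tmul h2)

/-- transfer along injections -/
theorem Or_oC_inj {A : Type} [CommRing A] [Algebra ℝ A] (f : A →ₐ[ℝ] SF X) (hf : Function.Injective f)
    {P : Matrix ι ι (CB A)} (hP : P * P = P) (hs : ad P = P) (ht : trace P = (q : CB A)) :
    Or (2 * q) (rM P) (oC q P) := by
  refine Or.of_inj (f : A →+* SF X) hf ?_
  have h1 : (rM P).map (f : A →+* SF X) = rM (P.map (CB.alg f)) := rM_map f P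
  have h2 : (fun I => (f : A →+* SF X) (oC q P I)) = oC q (P.map (CB.alg f)) := funext fun I => oC_map f P I
  rw [h1, h2]
  refine Or_oC ?_ ?_ ?_
  · rw [← Matrix.map_mul, hP]
  · rw [ad_map, hs]
  · have h3 := congrArg (CB.alg f) ht
    rw [map_natCast] at h3
    rw [← h3]
    exact (AddMonoidHom.map_trace (CB.alg f).toAddMonoidHom P).symm

end space

end Pool.Agent.Lib.MP_ccbbf6_gt.L5.IC
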