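import Pool.Agent.Lib.MP_ccbbf6_gt.L5.IC2
import Pool.Agent.Lib.MP_ccbbf6_gt.L5.IC4s

/-!
# Level 5, X5, file 4b: the top Chern form of a complex bundle is the Euler form of its real form (helper77, helper61)

`P` hermitian idempotent over `CB (SF X)` of trace `q`. `rM P` = real form on `ι ⊕ ι`, rank `2 q`. Proofs in IC4a, IC4r, IC4s.
-/

set_option autoImplicit false
set_option maxSynthPendingDepth 3
set_option linter.unusedSectionVars false

open Set Filter Topology Matrix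
open scoped ContDiff

noncomputable section

namespace Pool.Agent.Lib.MP_ccbbf6_gt.L5.IC

open L4 L4.FR

variable {q : ℕ} {ι : Type} [Fintype ι] [DecidableEq ι] {X : Space}

theorem rM_idem {P : Matrix ι ι (CB (SF X))} (h : HI q P) : rM P * rM P = rM P := by
  rw [← rM_mul, h.idem]

theorem HI.or {P : Matrix ι ι (CB (SF X))} (h : HI q P) : Or (2 * q) (rM P) (oC q P) := Or_oC h.idem h.herm h.tr

theorem HI.eul {P : Matrix ι ι (CB (SF X))} (h : HI q P) :
    (CB.I ^ q * ((GDA.cf h.Idem q : (GC (GO X)).Zc) : CB (Om X))).re =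
      (-(2 * Real.pi) ^ q) • eulG (FO X) (rM P) (oC q P) := cf_eulG Pts_FO h.idem h.herm h.tr

/-- **the top Chern form is an Euler form** -/
theorem exists_eul {P : Matrix ι ι (CB (SF X))} (h : HI q P) :
    ∃ (o : (Fin (2 * q) → ι ⊕ ι) → SF X) (ε : ℝ), Or (2 * q) (rM P) o ∧ (ε = 1 ∨ ε = -1) ∧
      (CB.I ^ q * ((GDA.cf h.Idem q : (GC (GO X)).Zc) : CB (Om X))).re = (ε * (2 * Real.pi) ^ q) • eulG (FO X) (rM P) o :=
  ⟨oC q P, -1, h.or, Or.inr rfl, by rw [h.eul, neg_one_mul]⟩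

end Pool.Agent.Lib.MP_ccbbf6_gt.L5.IC
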