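import Pool.Agent.Lib.MP_ccbbf6_gt.L5.EG8
import Pool.Agent.Lib.MP_ccbbf6_gt.L5.IC4a

/-!
# Level 5, X5, file 4r: real forms, algebra (helper61)

* `rM M` : the real form of a complex matrix (indices `ι ⊕ ι`): `rM_mul`, `rM_star`, `rM_map`, `D_rM`, `R_rM`, `tr_rM`;
* `ad` : the adjoint; `aF a` : the real frame of a complex frame: `aF_conj`, `aF_push`, `aF_mulT`, `aF_Tmul`;
* `oC q P` : the orientation tensor of `rM P`, a polynomial in the entries of `P`: `oC_map`, `oC_frame` (`= ft (aF a)`);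
* `pfo_oC` : `pfo (oC q P) (rM F) = 2^q q! Re (i^q elc (tr (P F^k)) q)` for `F^* = -F`, `P F = F P`, if `P` has a unitary frame;
* `exists_frameC`, `exists_frameR` : hermitian idempotents over `ℂ` have unitary frames.
-/

set_option autoImplicit false
set_option maxSynthPendingDepth 3
set_option linter.unusedSectionVars false

open Set Filter Topology Matrix
open scoped ContDiff

noncomputable section

namespace Pool.Agent.Lib.MP_ccbbf6_gt.L5.IC

open L4 L4.FR

variable {q : ℕ} {ι κ μ : Type} [Fintype ι] [DecidableEq ι] [Fintype κ] [DecidableEq κ] [Fintype μ] [DecidableEq μ]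

theorem epsT_ep {n : ℕ} {E : Type} [CommRing E] : epsT n E = ep E n := rfl

/-! ### real forms of matrices -/

section rm

variable {A A' : Type} [Ring A] [Algebra ℝ A] [Ring A'] [Algebra ℝ A']

/-- real form -/
def rM (M : Matrix ι κ (CB A)) : Matrix (ι ⊕ ι) (κ ⊕ κ) A :=
  fromBlocks (M.map CB.re) (-(M.map CB.im)) (M.map CB.im) (M.map CB.re)

/-- real part, additive -/
def reA (A : Type) [Ring A] [Algebra ℝ A] : CB A →+ A := ⟨⟨CB.re, rfl⟩, fun _ _ => rfl⟩

/-- imaginary part, additive -/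
def imA (A : Type) [Ring A] [Algebra ℝ A] : CB A →+ A := ⟨⟨CB.im, rfl⟩, fun _ _ => rfl⟩

theorem mul_mre (M : Matrix ι κ (CB A)) (M' : Matrix κ μ (CB A)) :
    (M * M').map CB.re = M.map CB.re * M'.map CB.re - M.map CB.im * M'.map CB.im := by
  ext i j
  rw [Matrix.map_apply, Matrix.sub_apply, Matrix.mul_apply, Matrix.mul_apply, Matrix.mul_apply, ← Finset.sum_sub_distrib]
  exact map_sum (reA A) _ _

theorem mul_mim (M : Matrix ι κ (CB A)) (M' : Matrix κ μ (CB A)) :
    (M * M').map CB.im = M.map CB.re * M'.map CB.im + M.map CB.im * M'.map CB.re := by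
  ext i j
  rw [Matrix.map_apply, Matrix.add_apply, Matrix.mul_apply, Matrix.mul_apply, Matrix.mul_apply, ← Finset.sum_add_distrib]
  exact map_sum (imA A) _ _

theorem rM_mul (M : Matrix ι κ (CB A)) (M' : Matrix κ μ (CB A)) : rM (M * M') = rM M * rM M' := by
  unfold rM
  rw [fromBlocks_multiply, mul_mre, mul_mim]
  congr 1
  · rw [Matrix.neg_mul, sub_eq_add_neg]
  · rw [Matrix.mul_neg, Matrix.neg_mul, neg_add]
  · rw [add_comm]
  · rw [Matrix.mul_neg, add_comm, sub_eq_add_neg]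

theorem rM_star (M : Matrix ι κ (CB A)) : rM ((Mᵀ).map CB.conj) = (rM M)ᵀ := by
  unfold rM
  rw [fromBlocks_transpose]
  congr 1
  ext i j
  exact neg_neg _

theorem rM_neg (M : Matrix ι κ (CB A)) : rM (-M) = -rM M := by
  unfold rM
  rw [fromBlocks_neg]
  rfl

theorem rM_inj {M M' : Matrix ι κ (CB A)} (h : rM M = rM M') : M = M' := by
  ext i j
  · exact congrFun (congrFun h (Sum.inl i)) (Sum.inl j)
  · exact congrFun (congrFun h (Sum.inr i)) (Sum.inl j)

theorem rM_map (f : A →ₐ[ℝ] A') (M : Matrix ι κ (CB A)) : (rM M).map f = rM (M.map (CB.alg f)) := by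
  unfold rM
  rw [fromBlocks_map]
  congr 1
  ext i j
  exact map_neg f _

theorem rM_one : rM (1 : Matrix ι ι (CB A)) = 1 := by
  rw [← fromBlocks_one]
  unfold rM
  have h1 : (1 : Matrix ι ι (CB A)).map CB.re = 1 := by
    ext i j
    rw [Matrix.map_apply, Matrix.one_apply, Matrix.one_apply]
    split_ifs <;> rfl
  have h2 : (1 : Matrix ι ι (CB A)).map CB.im = 0 := by
    ext i j
    rw [Matrix.map_apply, Matrix.one_apply]
    split_ifs <;> rfl
  rw [h1, h2, neg_zero]

theorem D_rM (G : GDA A) (M : Matrix ι κ (CB A)) : G.D (rM M) = rM ((GC G).D M) := by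
  unfold rM GDA.D
  rw [fromBlocks_map]
  congr 1
  ext i j
  exact map_neg G.d _

theorem R_rM (G : GDA A) (M : Matrix ι ι (CB A)) : G.R (rM M) = rM ((GC G).R M) := by
  unfold GDA.R
  rw [D_rM, rM_mul]

theorem tr_rM (M : Matrix ι ι (CB A)) : trace (rM M) = (trace M).re + (trace M).re := by
  unfold trace
  rw [Fintype.sum_sum_type]
  congr 1 <;> exact (map_sum (reA A) _ _).symm

end rm

/-! ### frames -/

section frame

variable {E E' : Type} [CommRing E] [Algebra ℝ E] [CommRing E'] [Algebra ℝ E']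

theorem rF_rM (F : Matrix (Fin q) (Fin q) (CB E)) : rF F = (rM F).submatrix (sp q).symm (sp q).symm := by
  ext k l
  revert k l
  refine pairs_ind (fun a => pairs_ind (fun b => ?_) (fun b => ?_)) (fun a => pairs_ind (fun b => ?_) (fun b => ?_))
  · rw [rF00, Matrix.submatrix_apply, ← sp_inl, ← sp_inl, Equiv.symm_apply_apply, Equiv.symm_apply_apply]
    rfl
  · rw [rF01, Matrix.submatrix_apply, ← sp_inl, ← sp_inr, Equiv.symm_apply_apply, Equiv.symm_apply_apply]
    rfl
  · rw [rF10, Matrix.submatrix_apply, ← sp_inl, ← sp_inr, Equiv.symm_apply_apply, Equiv.symm_apply_apply]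
    rfl
  · rw [rF11, Matrix.submatrix_apply, ← sp_inr, ← sp_inr, Equiv.symm_apply_apply, Equiv.symm_apply_apply]
    rfl

/-- adjoint -/
def ad (M : Matrix ι κ (CB E)) : Matrix κ ι (CB E) := (Mᵀ).map CB.conj

theorem ad_mul (M : Matrix ι κ (CB E)) (M' : Matrix κ μ (CB E)) : ad (M * M') = ad M' * ad M := by
  unfold ad
  rw [Matrix.transpose_mul, Matrix.map_mul]

theorem ad_ad (M : Matrix ι κ (CB E)) : ad (ad M) = M := by
  ext1 i j
  exact CB.conj_conj _

/-- the real frame of a complex frame -/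
def aF (a : Matrix ι (Fin q) (CB E)) : Matrix (ι ⊕ ι) (Fin (2 * q)) E := (rM a).submatrix id (sp q).symm

theorem aF_T (a : Matrix ι (Fin q) (CB E)) : (aF a)ᵀ = (rM (ad a)).submatrix (sp q).symm id := by
  unfold aF ad
  rw [rM_star]
  rfl

theorem aF_conj (a : Matrix ι (Fin q) (CB E)) (N : Matrix ι ι (CB E)) :
    (aF a)ᵀ * rM N * aF a = rF (ad a * N * a) := by
  rw [rF_rM, aF_T, rM_mul, rM_mul]
  unfold aF
  rw [Matrix.submatrix_mul _ _ _ id _ Function.bijective_id, Matrix.submatrix_mul _ _ _ id _ Function.bijective_id]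
  rfl

theorem aF_push (a : Matrix ι (Fin q) (CB E)) (F : Matrix (Fin q) (Fin q) (CB E)) :
    aF a * rF F * (aF a)ᵀ = rM (a * F * ad a) := by
  rw [rF_rM, aF_T, rM_mul, rM_mul]
  unfold aF
  rw [Matrix.submatrix_mul_equiv, Matrix.submatrix_mul_equiv]
  rfl

theorem aF_mulT (a : Matrix ι (Fin q) (CB E)) : aF a * (aF a)ᵀ = rM (a * ad a) := by
  rw [aF_T, rM_mul]
  unfold aF
  rw [Matrix.submatrix_mul_equiv]
  rfl

theorem aF_Tmul {a : Matrix ι (Fin q) (CB E)} (h : ad a * a = 1) : (aF a)ᵀ * aF a = 1 := by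
  rw [aF_T]
  unfold aF
  rw [← Matrix.submatrix_mul _ _ _ id _ Function.bijective_id, ← rM_mul, h, rM_one]
  exact Matrix.submatrix_one_equiv _

theorem aF_map (f : E →ₐ[ℝ] E') (a : Matrix ι (Fin q) (CB E)) : (aF a).map f = aF (a.map (CB.alg f)) := by
  unfold aF
  rw [← rM_map]
  rfl

/-- **the Pfaffian of the real form** with respect to a unitary frame -/
theorem pfo_frame {a : Matrix ι (Fin q) (CB E)} {N : Matrix ι ι (CB E)} (hN : ad N = -N) :
    pfo (ft (aF a)) (rM N) = (2 ^ q * (q.factorial : ℝ)) • (CB.I ^ q * (ad a * N * a).det).re := by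
  rw [← push_ep, pfo_push, aF_conj, ← epsT_ep]
  refine pfo_rF' ?_
  have h1 : ad (ad a * N * a) = -(ad a * N * a) := by
    rw [ad_mul, ad_mul, ad_ad, hN, Matrix.neg_mul, Matrix.mul_neg, Matrix.mul_assoc]
  exact h1

end frame

/-! ### the orientation tensor of the real form -/

section orient

variable {E E' : Type} [CommRing E] [Algebra ℝ E] [CommRing E'] [Algebra ℝ E']

/-- the orientation tensor of the real form: the Pfaffians of the minors of the complex structure -/
def oC (q : ℕ) (P : Matrix ι ι (CB E)) (I : Fin (2 * q) → ι ⊕ ι) : E :=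
  ((-1) ^ q / (2 ^ q * (q.factorial : ℝ))) • pfo (ep E (2 * q)) (fun k l => rM ((CB.I : CB E) • P) (I k) (I l))

theorem I_map (f : E →ₐ[ℝ] E') : CB.alg f (CB.I : CB E) = CB.I := CB.ext (map_zero f) (map_one f)

theorem smul_map' (f : CB E →ₐ[ℝ] CB E') (c : CB E) (P : Matrix ι ι (CB E)) : (c • P).map f = f c • P.map f := by
  ext1 i j
  exact map_mul f _ _

/-- naturality -/
theorem oC_map (f : E →ₐ[ℝ] E') (P : Matrix ι ι (CB E)) (I : Fin (2 * q) → ι ⊕ ι) :
    f (oC q P I) = oC q (P.map (CB.alg f)) I := by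
  unfold oC
  rw [map_smul]
  congr 1
  have h1 := pfo_mapT (m := q) (f : E →+* E') (ep E (2 * q)) (fun k l => rM ((CB.I : CB E) • P) (I k) (I l))
  have h2 : (fun K => (f : E →+* E') (ep E (2 * q) K)) = ep E' (2 * q) := funext fun K => ep_map _ K
  rw [h2] at h1
  refine h1.trans ?_
  congr 1
  ext1 k l
  have h3 := congrFun (congrFun (rM_map f ((CB.I : CB E) • P)) (I k)) (I l)
  rw [smul_map', I_map] at h3
  exact h3

theorem I_pow_mul (q : ℕ) : ((CB.I : CB E) ^ q * CB.I ^ q) = (-1) ^ q := by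
  rw [← mul_pow, CB.I_mul_I]

/-- with a unitary frame -/
theorem oC_frame {P : Matrix ι ι (CB E)} {a : Matrix ι (Fin q) (CB E)} (h : a * ad a = P) :
    oC q P = ft (aF a) := by
  funext I
  have h1 : rM ((CB.I : CB E) • P) = aF a * rF ((CB.I : CB E) • (1 : Matrix (Fin q) (Fin q) (CB E))) * (aF a)ᵀ := by
    rw [aF_push, ← h]
    congr 1
    rw [Matrix.mul_smul, Matrix.mul_one, Matrix.smul_mul]
  obtain ⟨A, hA⟩ : ∃ A : Matrix (Fin (2 * q)) (Fin (2 * q)) E, A = Matrix.of fun j k => aF a (I k) j := ⟨_, rfl⟩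
  have h2 : (fun k l => rM ((CB.I : CB E) • P) (I k) (I l) : Matrix (Fin (2 * q)) (Fin (2 * q)) E) =
      Aᵀ * rF ((CB.I : CB E) • (1 : Matrix (Fin q) (Fin q) (CB E))) * A := by
    rw [h1, hA]
    rfl
  have h3 : (((CB.I : CB E) • (1 : Matrix (Fin q) (Fin q) (CB E)))ᵀ).map CB.conj =
      -((CB.I : CB E) • (1 : Matrix (Fin q) (Fin q) (CB E))) := by
    rw [Matrix.transpose_smul, Matrix.transpose_one, smul_map', CB.conj_I, neg_smul]
    congr 1
    ext1 i j
    rw [Matrix.smul_apply, Matrix.smul_apply, Matrix.map_apply, Matrix.one_apply]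
    split_ifs
    · rw [map_one]
    · rw [map_zero]
  unfold oC
  rw [h2, ← epsT_ep, pfo_congr, pfo_rF' h3, Matrix.det_smul, Matrix.det_one, Fintype.card_fin, mul_one, I_pow_mul]
  have h4 : (((-1) ^ q : CB E)).re = algebraMap ℝ E ((-1) ^ q) := by
    have h5 : ((-1) ^ q : CB E) = CB.ofR (algebraMap ℝ E ((-1) ^ q)) := by
      rw [map_pow, map_neg, map_one, map_pow, map_neg, map_one]
    rw [h5, CB.ofR_re]
  rw [h4, hA]
  have hf : (q.factorial : ℝ) ≠ 0 := Nat.cast_ne_zero.2 (Nat.factorial_ne_zero q)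
  have h6 : ((-1 : ℝ) ^ q / (2 ^ q * (q.factorial : ℝ))) * (2 ^ q * (q.factorial : ℝ)) * (-1) ^ q = 1 := by
    rw [div_mul_cancel₀ _ (mul_ne_zero (pow_ne_zero _ two_ne_zero) hf), ← mul_pow]
    norm_num
  rw [Algebra.algebraMap_eq_smul_one, smul_smul, mul_smul_comm, mul_one, smul_smul, ← mul_assoc, h6, one_smul]
  rfl

/-- the top Chern form by a unitary frame -/
theorem elc_frame {P F : Matrix ι ι (CB E)} {a : Matrix ι (Fin q) (CB E)} (h : a * ad a = P) (h' : ad a * a = 1)
    (hc : P * F = F * P) : elc (fun k => trace (P * F ^ k)) q = (ad a * F * a).det := by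
  have h1 : (fun k => trace (P * F ^ k)) = fun k => trace ((ad a * F * a) ^ k) :=
    funext fun k => trace_split hc h h' k
  have h2 := elc_det (ad a * F * a)
  rw [Fintype.card_fin] at h2
  rw [h1, h2]

/-- **the Pfaffian of a skew hermitian endomorphism** -/
theorem pfo_oC {P F : Matrix ι ι (CB E)} {a : Matrix ι (Fin q) (CB E)} (h : a * ad a = P) (h' : ad a * a = 1)
    (hF : ad F = -F) (hc : P * F = F * P) :
    pfo (oC q P) (rM F) = (2 ^ q * (q.factorial : ℝ)) • (CB.I ^ q * elc (fun k => trace (P * F ^ k)) q).re := by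
  rw [oC_frame h, pfo_frame hF, elc_frame h h' hc]

end orient

/-! ### a unitary frame at a point -/

/-- hermitian idempotents over `ℂ` have orthonormal frames -/
theorem exists_frameC {P : Matrix ι ι ℂ} (hP : P * P = P) (hs : Pᴴ = P) (ht : trace P = (q : ℂ)) :
    ∃ a : Matrix ι (Fin q) ℂ, a * aᴴ = P ∧ aᴴ * a = 1 := by
  have hA : P.IsHermitian := hs
  obtain ⟨U, hU⟩ : ∃ U : Matrix ι ι ℂ, U = (hA.eigenvectorUnitary : Matrix ι ι ℂ) := ⟨_, rfl⟩
  obtain ⟨D, hD⟩ : ∃ D : ι → ℂ, D = fun i => ((hA.eigenvalues i : ℝ) : ℂ) := ⟨_, rfl⟩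
  have hUU : Uᴴ * U = 1 := by
    rw [hU]
    exact Unitary.coe_star_mul_self _
  have hPU : P = U * diagonal D * Uᴴ := by
    have h1 := hA.spectral_theorem
    rw [Unitary.conjStarAlgAut_apply] at h1
    rw [hU, hD]
    exact h1
  have hDD : ∀ i, D i * D i = D i := by
    have h1 : Uᴴ * (P * P) * U = Uᴴ * P * U := by rw [hP]
    have h2 : Uᴴ * P * U = diagonal D := by
      rw [hPU]
      calc Uᴴ * (U * diagonal D * Uᴴ) * U = (Uᴴ * U) * diagonal D * (Uᴴ * U) := by simp only [Matrix.mul_assoc]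
        _ = _ := by rw [hUU, Matrix.one_mul, Matrix.mul_one]
    have h3 : Uᴴ * (P * P) * U = diagonal D * diagonal D := by
      rw [hPU]
      calc Uᴴ * (U * diagonal D * Uᴴ * (U * diagonal D * Uᴴ)) * U =
          (Uᴴ * U) * diagonal D * (Uᴴ * U) * diagonal D * (Uᴴ * U) := by simp only [Matrix.mul_assoc]
        _ = _ := by rw [hUU, Matrix.one_mul, Matrix.mul_one, Matrix.mul_one]
    rw [h2, h3, diagonal_mul_diagonal] at h1
    exact fun i => congrFun (diagonal_injective h1) i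
  have hD01 : ∀ i, D i = if D i = 1 then 1 else 0 := by
    intro i
    split_ifs with h
    · exact h
    · have h1 : D i * (D i - 1) = 0 := by rw [mul_sub, mul_one, hDD, sub_self]
      rcases mul_eq_zero.1 h1 with h2 | h2
      · exact h2
      · exact absurd (sub_eq_zero.1 h2) h
  have hcard : Fintype.card {i // D i = 1} = q := by
    have h1 : trace P = ∑ i, D i := by
      rw [hPU, Matrix.trace_mul_comm, ← Matrix.mul_assoc, hUU, Matrix.one_mul, trace_diagonal]
    have h2 : ∑ i, D i = ((Fintype.card {i // D i = 1} : ℕ) : ℂ) := by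
      rw [Fintype.card_subtype, Finset.sum_congr rfl fun i _ => hD01 i, Finset.sum_boole]
    rw [h1, h2] at ht
    exact_mod_cast ht
  obtain ⟨e⟩ : Nonempty (Fin q ≃ {i // D i = 1}) := ⟨(Fintype.equivFinOfCardEq hcard).symm⟩
  refine ⟨Matrix.of fun i k => U i (e k).1, ?_, ?_⟩
  · ext i j
    rw [hPU, Matrix.mul_apply, Matrix.mul_apply]
    simp only [Matrix.mul_diagonal, Matrix.conjTranspose_apply, Matrix.of_apply]
    rw [e.sum_comp fun k : {i // D i = 1} => U i k.1 * star (U j k.1)]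
    have h1 : ∀ k, U i k * D k * star (U j k) = if D k = 1 then U i k * star (U j k) else 0 := by
      intro k
      conv_lhs => rw [hD01 k]
      split_ifs
      · rw [mul_one]
      · rw [mul_zero, zero_mul]
    rw [Finset.sum_congr rfl fun k _ => h1 k, ← Finset.sum_filter]
    exact (Finset.sum_subtype (Finset.univ.filter fun k => D k = 1) (fun x => by simp) fun k => U i k * star (U j k)).symm
  · ext k l
    rw [Matrix.mul_apply]
    have h1 := congrFun (congrFun hUU (e k).1) (e l).1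
    rw [Matrix.mul_apply] at h1
    simp only [Matrix.conjTranspose_apply, Matrix.of_apply] at h1 ⊢
    rw [h1, Matrix.one_apply, Matrix.one_apply]
    exact if_congr ⟨fun h => e.injective (Subtype.ext h), fun h => by rw [h]⟩ rfl rfl

/-- the same over `CB ℝ` -/
theorem exists_frameR {P : Matrix ι ι (CB ℝ)} (hP : P * P = P) (hs : ad P = P) (ht : trace P = (q : CB ℝ)) :
    ∃ a : Matrix ι (Fin q) (CB ℝ), a * ad a = P ∧ ad a * a = 1 := by
  obtain ⟨e, he⟩ : ∃ e : CB ℝ →+* ℂ, ∀ z, e z = ⟨z.re, z.im⟩ := by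
    refine ⟨⟨⟨⟨fun z => ⟨z.re, z.im⟩, rfl⟩, fun a b => ?_⟩, rfl, fun a b => rfl⟩, fun _ => rfl⟩
    exact Complex.ext (by rw [Complex.mul_re]; rfl) (by rw [Complex.mul_im]; rfl)
  have hec : ∀ z, CB.ofC (e z) = z := fun z => by
    rw [he]
    rfl
  have hcc : ∀ z : ℂ, CB.ofC (B := ℝ) (star z) = CB.conj (CB.ofC z) := fun z => rfl
  obtain ⟨a, h1, h2⟩ := exists_frameC (q := q) (P := P.map e) (by rw [← Matrix.map_mul, hP]) (by
    ext1 i j
    have h3 := congrFun (congrFun hs i) j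
    rw [Matrix.conjTranspose_apply, Matrix.map_apply, Matrix.map_apply, ← h3, he, he]
    exact Complex.ext rfl rfl) (by
    have h3 := congrArg e ht
    rw [map_natCast] at h3
    rw [← h3]
    exact (AddMonoidHom.map_trace e.toAddMonoidHom P).symm)
  have h3 : ad (a.map (CB.ofC (B := ℝ))) = (aᴴ).map (CB.ofC (B := ℝ)) := by
    ext1 i j
    exact (hcc _).symm
  refine ⟨a.map CB.ofC, ?_, ?_⟩
  · rw [h3, ← Matrix.map_mul, h1]
    ext1 i j
    exact hec _
  · rw [h3, ← Matrix.map_mul, h2]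
    exact Matrix.map_one _ (map_zero _) (map_one _)

end Pool.Agent.Lib.MP_ccbbf6_gt.L5.IC
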