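import Pool.Agent.Lib.MP_ccbbf6_gt.L5.IM6

/-!
# Level 5, X5, file 6: `∫ p_2` over the `8`-cube is an integer (helper77)
-/

set_option autoImplicit false
set_option maxSynthPendingDepth 3
set_option linter.unusedSectionVars false

open Matrix Function Filter Topology Set MeasureTheory
open scoped ContDiff Real

noncomputable section

namespace Pool.Agent.Lib.MP_ccbbf6_gt.L5.IC

open Geo L4 L4.FR IB

/-- the second Pontryagin form -/
def p2 {B : Type*} [Ring B] [Algebra ℝ B] (G : GDA B) {ι : Type*} [Fintype ι] [DecidableEq ι] (P : Matrix ι ι B) : B :=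
  (1 / (2 * π) ^ 4) • ((1 / 8 : ℝ) • (G.ps P 2 * G.ps P 2) - (1 / 4 : ℝ) • G.ps P 4)

variable {ι : Type} [Fintype ι] [DecidableEq ι] {X : Space} {r : ℕ}

/-- `c_4` of a real bundle -/
theorem cf_four {A : Type*} [CommRing A] [Algebra ℝ A] {B : Type*} [Ring B] [Algebra ℝ B] {G : GDA B} {φ : Fun0 A G}
    {P : Matrix ι ι A} (hP : P * P = P) (hs : Pᵀ = P) :
    ((GDA.cf (φ.idem hP) 4 : G.Zc) : B) = ((2 * π) ^ 4) • p2 G (P.map φ.f) := by
  have hI : G.Idem (P.map φ.f) := φ.idem hP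
  have hodd : ∀ j, Odd j → GDA.zps (φ.idem hP) j = 0 := fun j hj => Subtype.ext
    (hI.ps_odd (by rw [← Matrix.transpose_map, hs]) hj)
  have h4 : GDA.cf (φ.idem hP) 4 = (1 / 8 : ℝ) • (GDA.zps (φ.idem hP) 2 * GDA.zps (φ.idem hP) 2) -
      (1 / 4 : ℝ) • GDA.zps (φ.idem hP) 4 := elc_four _ (hodd 1 odd_one) (hodd 3 (by decide))
  have h5 : ((GDA.cf (φ.idem hP) 4 : G.Zc) : B) = (1 / 8 : ℝ) • (G.ps (P.map φ.f) 2 * G.ps (P.map φ.f) 2) -
        (1 / 4 : ℝ) • G.ps (P.map φ.f) 4 := by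
    rw [h4]
    rfl
  rw [h5]
  unfold p2
  rw [smul_smul]
  have hpi : ((2 * π) ^ 4 : ℝ) ≠ 0 := by positivity
  rw [mul_one_div_cancel hpi, one_smul]

/-- **integrality of `p_2` over the cube, mixed faces** -/
theorem int_p2M {P : Matrix ι ι (Cs 8)} (hP : P * P = P) (hs : Pᵀ = P) (ht : trace P = (r : Cs 8)) (hr : 4 ≤ r)
    (hF : ∀ i, FC (entR P) i) : ∃ m : ℤ, cI 8 (p2 (GF 8) (P.map (FF 8).f)) = m := by
  obtain ⟨m, hm⟩ := int_cfR (k := 2) (r := r) (by norm_num) hr (P := P) hP hs ht hF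
  have h1 : ((GDA.cf ((FF 8).idem hP) 4 : (GF 8).Zc) : Fm 8) = ((2 * π) ^ 4) • p2 (GF 8) (P.map (FF 8).f) :=
    cf_four (φ := FF 8) hP hs
  have h2 : cI 8 (((2 * π) ^ 4) • p2 (GF 8) (P.map (FF 8).f)) = (2 * π) ^ 4 * m := by
    rw [← h1]
    exact hm
  rw [cI_smul] at h2
  have hpi : ((2 * π) ^ 4 : ℝ) ≠ 0 := by positivity
  exact ⟨m, mul_left_cancel₀ hpi h2⟩

/-- constant off the open cube -/
theorem FC_of_off {α : Type*} {N : ℕ} {F : α → Cs N} (hc : ∀ x : V N, Off x → ∀ a, (F a : V N → ℝ) x = (F a : V N → ℝ) 0)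
    (i : Fin N) : FC F i :=
  Or.inl fun x _ a => (hc _ ⟨i, Or.inr (update_self (f := x) i (1 : ℝ)).ge⟩ a).trans
    (hc _ ⟨i, Or.inl (update_self (f := x) i (0 : ℝ)).le⟩ a).symm

/-- **integrality of `p_2` over the cube** -/
theorem int_p2 {P : Matrix ι ι (Cs 8)} (hP : P * P = P) (hs : Pᵀ = P) (ht : trace P = (r : Cs 8)) (hr : 4 ≤ r)
    (hc : ∀ x : V 8, Off x → ∀ i j, (P i j : V 8 → ℝ) x = (P i j : V 8 → ℝ) 0) :
    ∃ m : ℤ, cI 8 (p2 (GF 8) (P.map (FF 8).f)) = m :=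
  int_p2M hP hs ht hr fun i => FC_of_off (F := entR P) (fun x hx a => hc x hx a.1 a.2) i

end Pool.Agent.Lib.MP_ccbbf6_gt.L5.IC
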