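import Pool.Agent.Lib.MP_ccbbf6_gt.L5.IB9
import Pool.Agent.Lib.MP_ccbbf6_gt.L5.IC6

/-!
# Level 5, X5, file 7: `p_2(V) = b (u_1 + u_2)` with `b` an integer, `κ = 7` (helper77)
-/

set_option autoImplicit false
set_option maxSynthPendingDepth 3
set_option linter.unusedSectionVars false
set_option linter.unusedVariables false

open Set Filter Topology Metric Real Module MeasureTheory
open scoped ContDiff RealInnerProductSpace

noncomputable section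

namespace Pool.Agent.Lib.MP_ccbbf6_gt.L5.IC

open Geo L4 L4.FR L4.ORI IB

theorem p2_const {B : Type*} [Ring B] [Algebra ℝ B] {G : GDA B} {ι κ : Type*} [Fintype ι] [DecidableEq ι] [Fintype κ]
    [DecidableEq κ] (P : Matrix ι ι B) {J : Matrix κ ι ℝ} (hJ : J.transpose * J = 1) :
    p2 G (cB B J * P * cB B J.transpose) = p2 G P := by
  unfold p2
  rw [ps_const P hJ, ps_const P hJ]

variable {n : ℕ} {M : Type} [MetricSpace M] [CompactSpace M] {𝒜 : SDist n M}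

/-- **integrality of `b`**, `κ = 7` -/
theorem exists_b7 (hn : 9 ≤ n) (hB : Bl M) (hk : 𝒜.HK 7) (p : M) {u : Om (spM 𝒜)} {g : (spVF 𝒜 7).pt → ℝ}
    (hu : UD 𝒜 hB 7 u g) {ι : Type} [Fintype ι] [DecidableEq ι] {Q : Matrix ι ι (SF (spF 𝒜))} {J : Matrix ι (Fin n) ℝ}
    (hJ : J.transpose * J = 1)
    (hQ : ∀ (x : (spP 𝒜 p).pt) (i j : ι), (Q i j).1 ((cF hB hk p).1 x) = (J * ent (prX 𝒜 p x.1) * J.transpose) i j)
    {b : ℝ} {ρ : Om (spF 𝒜)} (hρ : Deg 7 ρ)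
    (ha : p2 (GO (spF 𝒜)) (Q.map (FO (spF 𝒜)).f) = b • ((pF1 𝒜).pull u + (pF2 𝒜).pull u) + dO _ ρ) :
    ∃ j : ℤ, b = j := by
  obtain ⟨f, hf1, hf2⟩ := exists_xy (by omega) hB hk p
  obtain ⟨Φ0, hΦ1, hΦ2, hΦ3⟩ := exists_sweep (𝒜 := 𝒜) hB (κ := 7) (by norm_num) hu.closed hu.deg f
  rw [hu.gV_eq', hu.one] at hΦ3
  -- the plot of `M - p`
  have hne : ∀ z, Φ0.1 z ≠ p := fun z => sweep_ne hB hf1 hf2 (hΦ2 z)
  obtain ⟨Φ, hΦ⟩ : ∃ Φ : (spP 𝒜 p).Plot 8, ∀ z, (Φ.1 z).1 = Φ0.1 z := ⟨⟨fun z => ⟨Φ0.1 z, hne z⟩, Φ0.2⟩, fun _ => rfl⟩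
  have hΦc : ∀ z : V 8, (∃ i, z i ≤ 0 ∨ 1 ≤ z i) → Φ.1 z = ⟨(f.1.1 0).1 π, hf2⟩ := fun z hz =>
    Subtype.ext ((hΦ z).trans (hΦ1 z hz))
  have hin : (inU (spM 𝒜) {x | x ≠ p}).pl Φ = Φ0 := Plot_ext fun z => hΦ z
  -- the cut plot
  have hcut := cI_cut hB hk p Φ hΦc hu.deg (by norm_num) hu.closed
  rw [hin] at hcut
  obtain ⟨Ψ, hΨ⟩ : ∃ Ψ, Ψ = (cF hB hk p).pl Φ := ⟨_, rfl⟩
  rw [← hΨ] at hcut
  have hΨc : ∀ z : V 8, (∃ i, z i ≤ 0 ∨ 1 ≤ z i) → Ψ.1 z = (cF hB hk p).1 ⟨(f.1.1 0).1 π, hf2⟩ := fun z hz => by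
    rw [hΨ]
    show (cF hB hk p).1 (Φ.1 z) = _
    rw [hΦc z hz]
  -- the right side
  have hR : cI 8 (Om.on (b • ((pF1 𝒜).pull u + (pF2 𝒜).pull u) + dO _ ρ) Ψ) = b * cI 8 (Om.on u Φ0) := by
    rw [on_add, on_smul, on_add, cI_add, cI_smul, cI_add, on_pull, on_pull, hcut]
    have h1 : cI 8 (Om.on u ((pF1 𝒜).pl Ψ)) = 0 := by
      have h2 : Om.on u ((pF1 𝒜).pl Ψ) = 0 := ev_ext fun z => by
        rw [map_zero]
        refine ev_fac_zero hu.deg (m := 0) (by norm_num) _ (⟨fun _ => p, sm_const p⟩ : (spM 𝒜).Plot 0)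
          ⟨fun _ => 0, contDiff_const⟩ (Eventually.of_forall fun y => ?_)
        rw [hΨ]
        rfl
      rw [h2, cI_zero]
    have h3 : cI 8 (Om.on (dO _ ρ) Ψ) = 0 :=
      cI_exact_zero hρ (by norm_num) Ψ ⟨fun _ => (cF hB hk p).1 ⟨(f.1.1 0).1 π, hf2⟩, ⟨sm_const _, sm_const _⟩⟩ hΨc
    rw [h1, h3, zero_add, add_zero]
  -- the bundle over the cube
  obtain ⟨P, hP⟩ : ∃ P : Matrix (Fin n) (Fin n) (Cs 8), P = (PX hB hk p).map (FHom.on Φ).g := ⟨_, rfl⟩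
  have h00 : Off (0 : V 8) := ⟨0, Or.inl le_rfl⟩
  obtain ⟨o, ho⟩ := exists_orP (𝒜 := 𝒜) (by omega) hB (by norm_num) hk p
  have hOr : Or 8 P (fun I => (FHom.on Φ).g (oX hB hk ho I)) := by
    rw [hP]
    exact (Or_PX hB hk ho).map' ((FHom.on Φ).g : SF (spP 𝒜 p) →+* Cs 8)
  have hPP : P * P = P := hOr.idem
  have hPs : P.transpose = P := hOr.sym
  have hPt : Matrix.trace P = (8 : ℕ) := hOr.tr
  obtain ⟨m, hm⟩ := int_p2 hPP hPs hPt (by norm_num) (fun x hx i j => by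
    rw [hP]
    show (PX hB hk p i j).1 (Φ.1 x) = (PX hB hk p i j).1 (Φ.1 0)
    rw [hΦc x hx, hΦc 0 h00])
  have hL : cI 8 (p2 (GF 8) (P.map (FF 8).f)) = b * cI 8 (Om.on u Φ0) := by
    rw [← hR, ← ha]
    congr 1
    have h1 : Om.on (p2 (GO (spF 𝒜)) (Q.map (FO (spF 𝒜)).f)) Ψ = p2 (GF 8) ((Q.map (FHom.on Ψ).g).map (FF 8).f) := by
      have h4 : ∀ j, Om.on ((GO (spF 𝒜)).ps (Q.map (FO (spF 𝒜)).f) j) Ψ = (GF 8).ps ((Q.map (FHom.on Ψ).g).map (FF 8).f) j :=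
        fun j => by
          rw [← FHom.mf]
          exact (FHom.on Ψ).h.ps _ j
      unfold p2
      rw [on_smul, on_sub, on_smul, on_smul, on_mul, h4, h4]
    have h2 : (Q.map (FHom.on Ψ).g).map (FF 8).f = cB (Fm 8) J * P.map (FF 8).f * cB (Fm 8) J.transpose := by
      have h3 : Q.map (FHom.on Ψ).g = IB.cM 8 J * P * IB.cM 8 J.transpose := by
        refine Matrix.ext fun i j => Cs_ext fun z => ?_
        show (Q i j).1 (Ψ.1 z) = _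
        rw [hΨ]
        show (Q i j).1 ((cF hB hk p).1 (Φ.1 z)) = _
        rw [hQ]
        have h4 : ∀ (R : Matrix ι ι (Cs 8)), ((R i j : Cs 8) : V 8 → ℝ) z =
            (R.map ((Pi.evalRingHom (fun _ : V 8 => ℝ) z).comp (Cs 8).val.toRingHom)) i j := fun R => rfl
        rw [h4, Matrix.map_mul, Matrix.map_mul]
        have h5 : P.map ((Pi.evalRingHom (fun _ : V 8 => ℝ) z).comp (Cs 8).val.toRingHom) = ent (prX 𝒜 p (Φ.1 z).1) := by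
          rw [hP]
          rfl
        rw [h5]
        rfl
      rw [h3, Matrix.map_mul, Matrix.map_mul]
      have h6 : ∀ {a b : Type} [Fintype a] [Fintype b] (K : Matrix a b ℝ), (IB.cM 8 K).map (FF 8).f = cB (Fm 8) K := by
        intro a b _ _ K
        ext i j
        exact (fc 8).commutes (K i j)
      rw [h6, h6]
    rw [h1, h2, p2_const _ hJ]
  rw [hL] at hm
  rcases abs_eq (zero_le_one) |>.1 hΦ3 with h1 | h1
  · refine ⟨m, ?_⟩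
    rw [h1] at hm
    linarith
  · refine ⟨-m, ?_⟩
    rw [h1] at hm
    push_cast
    linarith

end Pool.Agent.Lib.MP_ccbbf6_gt.L5.IC
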