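import Pool.Agent.Lib.MP_ccbbf6_gt.L5.INTb

/-!
# Level 5, INTd: the top coefficient in the fibre directions (helper67)

PROOFS. Notation: A_i = ctr (vfm k (LinearMap.proj i)), i : Fin N. In the fold `(List.ofFn A).foldr (fun A y => A y) x` the LAST contraction
A_(N-1) is applied first, A_0 last.
(0) general facts on contractions (all by `CliffordAlgebra.left_induction` / L4/FRc, FRt): `ctr_ctr`, anticommutation
    `ctr φ (ctr ψ x) = - ctr ψ (ctr φ x)` (from `ctr (φ+ψ) (ctr (φ+ψ) x) = 0`; linearity in φ is `map_add` of `CliffordAlgebra.contractLeft`),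
    `ctr_map : ctr φ (map A x) = map A (ctr (φ ∘ A) x)`, `ctr φ ∘ kil = kil ∘ ctr (φ ∘ ini)` (`ctr_kil` in L4/FRd).
(1) tN_eq: induction on N. tN (N+1) x = tN N (kil (ctr lst x)); lst (k+N) = vfm k (proj (Fin.last N)); by the induction hypothesis and `ctr_kil`
    (vfm k (proj i) ∘ ini = vfm k (proj i.castSucc)) the kil can be moved to the left: map (hdL k N) (kil y) = map (hdL k (N+1)) y
    (`ExteriorAlgebra.map_comp_map`, kil = map (ini _), hdL k N ∘ ini = hdL k (N+1)). `List.ofFn_succ'` / `List.foldr_concat` style lemma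
    for the last element (or prove the statement first for a recursively defined fold).
(2) ctr_det: for fixed x the map (φ_i)_i ↦ (List.ofFn fun i => ctr (vfm k φ_i)).foldr (..) x is multilinear and alternating in φ (two equal entries:
    anticommute them next to each other, `ctr_ctr`), from the N-dimensional space Module.Dual ℝ (V N); composing the basis (proj i) with D multiplies
    it by det D: `AlternatingMap.map_basis...` / `LinearMap.det` : use `AlternatingMap.map_linearMap_det`-type lemma or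
    `Matrix.det` expansion as in L4/FRt `topE_map`. Recommended: build the AlternatingMap ψ : (V N →ₗ ℝ) [⋀^Fin N]→ₗ[ℝ] Ex (k+N) and use
    `Module.Basis`/`AlternatingMap.eq_smul_basis_det` (ψ = ψ(basis) • basis.det, applied after a linear functional of the target).
(3) tN_map: by (1), ctr_map and (2): vfm k (proj i) ∘ T = vfm k (proj i ∘ D) (evaluate on Fin.append a b), so the fold of map T x is
    map T (fold with D of x) = det D • map T y, y := fold of x. Then map (hdL) (map T y) = map (hdL ∘ T) y, and y is killed by all A_j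
    (anticommute, `ctr_ctr`), so map (hdL ∘ T) y = map hdL y: Lemma: if ctr φ_j y = 0 for all j (φ_j = vfm k (proj j)) then map S y = map S' y
    whenever S, S' : V (k+N) →ₗ W agree on the vectors Fin.append a 0. Proof of the Lemma: for one j with v_j = the j-th vertical unit vector,
    y = map (id - v_j ⊗ φ_j) y (general: map (1 - v⊗φ) y = y - ι v * ctr φ y when φ v = 1, by left induction); compose over all j to get
    y = map (projection to Fin.append a 0) y.
(4) topE_tN: both sides are linear in x and vanish on products ιMulti of length ≠ k+N (degrees: tN lowers the degree by N, `topE_ιMulti_ne`), and by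
    multilinearity it suffices to take the product of all basis vectors in the order e_0 ... e_(k+N-1): contraction with the last coordinate gives
    (-1)^(k+N-1) times the rest, the next one (-1)^(k+N-2), ..., (-1)^k: exponent sum_(j=0)^(N-1) (k+j) = k N + N(N-1)/2.
    Recommended proof: induction on N with the one step lemma topE k (kil (ctr lst x)) = (-1)^k * topE (k+1) x : both sides are linear functionals,
    `ExteriorAlgebra.lhom_ext` reduces to ιMulti of i vectors (0 for i ≠ k+1: `topE_ιMulti_ne`; the left side by an explicit formula for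
    ctr φ (ιMulti v) or because the left side is homogeneous), and for i = k+1 both sides are alternating maps of k+1 vectors of V (k+1):
    compare on the standard basis (`Module.Basis.ext_alternating` or `AlternatingMap.eq_smul_basis_det`).
(5) tN_mul: induction on N: inL k (N+1) a has last coordinate 0, so ctr lst (map (inL) a * x) = ivo (map inL a) * ctr lst x = map inL (ivo a) * ctr lst x
    (`ctr_mul`, ctr lst (map (inL) a) = 0 by `ctr_map` and lst ∘ inL = 0, induction), kil (map (inL k (N+1)) a) = map (inL k N) a.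
(6) tN_eq_zero: choose an invertible D on V N (or a basis of the dual) with proj 0 ∘ D = φ; by (2) det D • (fold of x) = fold with D of x =
    +- (other contractions) (ctr (vfm φ) x) = 0.
-/

set_option autoImplicit false
set_option maxSynthPendingDepth 3

open Set Filter Topology
open scoped ContDiff

noncomputable section

namespace Pool.Agent.Lib.MP_ccbbf6_gt.L5

open L4 L4.FR

variable {k N : ℕ}

/-- linear form `v ↦ φ (last N coordinates of v)` -/
def vfm (k : ℕ) (φ : V N →ₗ[ℝ] ℝ) : V (k + N) →ₗ[ℝ] ℝ :=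
  φ.comp (LinearMap.pi fun i : Fin N => (LinearMap.proj (Fin.natAdd k i) : V (k + N) →ₗ[ℝ] ℝ))

theorem vfm_append (φ : V N →ₗ[ℝ] ℝ) (a : V k) (b : V N) : vfm k φ (Fin.append a b) = φ b := by
  have h : (LinearMap.pi fun i : Fin N => (LinearMap.proj (Fin.natAdd k i) : V (k + N) →ₗ[ℝ] ℝ)) (Fin.append a b) = b :=
    funext fun i => Fin.append_right a b i
  show φ _ = φ b
  rw [h]

/-- first coordinates, linear -/
def hdL (k N : ℕ) : V (k + N) →ₗ[ℝ] V k := LinearMap.pi fun i => LinearMap.proj (Fin.castAdd N i)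

/-- embedding of the first coordinates -/
def inL (k N : ℕ) : V k →ₗ[ℝ] V (k + N) where
  toFun a := Fin.append a 0
  map_add' a b := by
    funext i
    refine Fin.addCases (fun i => ?_) (fun i => ?_) i
    · simp [Fin.append_left]
    · simp [Fin.append_right]
  map_smul' r a := by
    funext i
    refine Fin.addCases (fun i => ?_) (fun i => ?_) i
    · simp [Fin.append_left]
    · simp [Fin.append_right]

/-- the algebra map from the exterior algebra of the dual of the fibre, by contractions -/
private def INTd_act (k N : ℕ) : ExteriorAlgebra ℝ (V N →ₗ[ℝ] ℝ) →ₐ[ℝ] Module.End ℝ (Ex (k + N)) :=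
  ExteriorAlgebra.lift ℝ ⟨
    { toFun := fun φ => (ctr (vfm k φ) : Module.End ℝ (Ex (k + N)))
      map_add' := fun φ ψ => by
        have h : vfm k (φ + ψ) = vfm k φ + vfm k ψ := rfl
        rw [h]
        refine LinearMap.ext fun x => ?_
        show ctr (vfm k φ + vfm k ψ) x = ctr (vfm k φ) x + ctr (vfm k ψ) x
        unfold ctr
        rw [map_add]
        rfl
      map_smul' := fun r φ => by
        have h : vfm k (r • φ) = r • vfm k φ := rfl
        rw [h]
        refine LinearMap.ext fun x => ?_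
        show ctr (r • vfm k φ) x = r • ctr (vfm k φ) x
        unfold ctr
        rw [map_smul]
        rfl },
    fun φ => LinearMap.ext fun x => ctr_ctr (vfm k φ) x⟩

private theorem INTd_act_ι (φ : V N →ₗ[ℝ] ℝ) (x : Ex (k + N)) :
    INTd_act k N (ExteriorAlgebra.ι ℝ φ) x = ctr (vfm k φ) x := by
  unfold INTd_act
  rw [ExteriorAlgebra.lift_ι_apply]
  rfl

private theorem INTd_prod (l : List (V N →ₗ[ℝ] ℝ)) (x : Ex (k + N)) :
    INTd_act k N (l.map (ExteriorAlgebra.ι ℝ)).prod x =
      (l.map fun φ => ctr (vfm k φ)).foldr (fun A y => A y) x := by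
  induction l with
  | nil => simp
  | cons φ l ih =>
    rw [List.map_cons, List.prod_cons, map_mul, Module.End.mul_apply, ih, INTd_act_ι, List.map_cons,
      List.foldr_cons]

private theorem INTd_fold (f : Fin N → (V N →ₗ[ℝ] ℝ)) (x : Ex (k + N)) :
    (List.ofFn fun i : Fin N => ctr (vfm k (f i))).foldr (fun A y => A y) x =
      INTd_act k N (ExteriorAlgebra.ιMulti ℝ N f) x := by
  rw [ExteriorAlgebra.ιMulti_apply]
  have h1 : (List.ofFn fun i => ExteriorAlgebra.ι ℝ (f i)) = (List.ofFn f).map (ExteriorAlgebra.ι ℝ) := by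
    rw [List.map_ofFn]
    rfl
  have h2 : (List.ofFn fun i : Fin N => ctr (vfm k (f i))) = (List.ofFn f).map fun φ => ctr (vfm k φ) := by
    rw [List.map_ofFn]
    rfl
  rw [h1, h2, INTd_prod]

private theorem INTd_fold_kil (l : List (V k →ₗ[ℝ] ℝ)) (y : Ex (k + 1)) :
    (l.map ctr).foldr (fun A y => A y) (kil k y) =
      kil k ((l.map fun φ => ctr (φ.comp (ini k))).foldr (fun A y => A y) y) := by
  induction l with
  | nil => rfl
  | cons φ l ih => rw [List.map_cons, List.foldr_cons, ih, ctr_kil, List.map_cons, List.foldr_cons]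

/-- `tN` = contraction with all fibre coordinates, then restriction -/
theorem tN_eq (x : Ex (k + N)) : tN k N x = ExteriorAlgebra.map (hdL k N)
    ((List.ofFn fun i : Fin N => ctr (vfm k (LinearMap.proj i))).foldr (fun A y => A y) x) := by
  induction N with
  | zero =>
    have h : hdL k 0 = LinearMap.id := rfl
    rw [h, ExteriorAlgebra.map_id]
    rfl
  | succ N ih =>
    have h1 : tN k (N + 1) x = tN k N (kil (k + N) (ctr (lst (k + N)) x)) := rfl
    rw [h1, ih]
    have h2 : (List.ofFn fun i : Fin N => ctr (vfm k (LinearMap.proj i))) =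
        (List.ofFn fun i : Fin N => (vfm k (LinearMap.proj i) : V (k + N) →ₗ[ℝ] ℝ)).map ctr := by
      rw [List.map_ofFn]
      rfl
    rw [h2, INTd_fold_kil]
    have h3 : ∀ z : Ex (k + N + 1), ExteriorAlgebra.map (hdL k N) (kil (k + N) z) =
        ExteriorAlgebra.map (hdL k (N + 1)) z := by
      intro z
      have h4 : (hdL k N).comp (ini (k + N)) = hdL k (N + 1) := rfl
      unfold kil
      rw [← h4, ← AlgHom.comp_apply, ExteriorAlgebra.map_comp_map]
    rw [h3]
    congr 1
    rw [List.ofFn_succ', List.concat_eq_append, List.foldr_append, List.map_ofFn]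
    rfl

private theorem INTd_alt {W : Type*} [AddCommGroup W] [Module ℝ W] {E : Type*} [AddCommGroup E] [Module ℝ E]
    (b : Module.Basis (Fin N) ℝ E) (ψ : E [⋀^Fin N]→ₗ[ℝ] W) (v : Fin N → E) : ψ v = b.det v • ψ b := by
  have h : ψ = (LinearMap.toSpanSingleton ℝ W (ψ b)).compAlternatingMap b.det := by
    refine Module.Basis.ext_alternating b fun w hw => ?_
    obtain ⟨σ, hσ⟩ : ∃ σ : Equiv.Perm (Fin N), ∀ i, σ i = w i :=
      ⟨Equiv.ofBijective w (Finite.injective_iff_bijective.1 hw), fun i => rfl⟩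
    have h1 : (fun i => b (w i)) = (b ∘ σ) := by
      funext i
      show b (w i) = b (σ i)
      rw [hσ]
    rw [h1, LinearMap.compAlternatingMap_apply, AlternatingMap.map_perm, AlternatingMap.map_perm,
      Module.Basis.det_self, Units.smul_def, Units.smul_def, map_zsmul, LinearMap.toSpanSingleton_apply, one_smul]
  conv_lhs => rw [h]
  rfl

/-- contraction with linear combinations: alternating, so the determinant appears -/
theorem ctr_det (D : V N →ₗ[ℝ] V N) (x : Ex (k + N)) :
    (List.ofFn fun i : Fin N => ctr (vfm k ((LinearMap.proj i).comp D))).foldr (fun A y => A y) x =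
      LinearMap.det D • (List.ofFn fun i : Fin N => ctr (vfm k (LinearMap.proj i))).foldr (fun A y => A y) x := by
  rw [INTd_fold (fun i : Fin N => (LinearMap.proj i : V N →ₗ[ℝ] ℝ).comp D),
    INTd_fold (fun i : Fin N => (LinearMap.proj i : V N →ₗ[ℝ] ℝ))]
  have hb : ∀ i : Fin N, (Pi.basisFun ℝ (Fin N)).dualBasis i = (LinearMap.proj i : V N →ₗ[ℝ] ℝ) := by
    intro i
    refine (Pi.basisFun ℝ (Fin N)).ext fun j => ?_
    rw [Module.Basis.dualBasis_apply_self]
    simp [Pi.single_apply, eq_comm]
  have h1 := INTd_alt (Pi.basisFun ℝ (Fin N)).dualBasis (ExteriorAlgebra.ιMulti ℝ N (M := V N →ₗ[ℝ] ℝ))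
    (fun i : Fin N => (LinearMap.proj i : V N →ₗ[ℝ] ℝ).comp D)
  have h2 : ((Pi.basisFun ℝ (Fin N)).dualBasis : Fin N → (V N →ₗ[ℝ] ℝ)) = fun i => LinearMap.proj i := funext hb
  have h3 : (Pi.basisFun ℝ (Fin N)).dualBasis.det (fun i : Fin N => (LinearMap.proj i : V N →ₗ[ℝ] ℝ).comp D) =
      LinearMap.det D := by
    have h4 : (fun i : Fin N => (LinearMap.proj i : V N →ₗ[ℝ] ℝ).comp D) =
        (D.dualMap ∘ (Pi.basisFun ℝ (Fin N)).dualBasis) := by
      rw [h2]
      rfl
    rw [h4, Module.Basis.det_comp, Module.Basis.det_self, mul_one, LinearMap.det_dualMap]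
  rw [h3, h2] at h1
  rw [h1, map_smul]
  rfl

/-- the image of a product under a rank one change of the map -/
private theorem INTd_rank {m n : ℕ} (S : V m →ₗ[ℝ] V n) (w : V n) (φ : V m →ₗ[ℝ] ℝ) (y : Ex m) :
    ExteriorAlgebra.map (S + φ.smulRight w) y =
      ExteriorAlgebra.map S y + ExteriorAlgebra.ι ℝ w * ExteriorAlgebra.map S (ctr φ y) := by
  induction y using CliffordAlgebra.left_induction with
  | algebraMap r =>
    have h : ctr φ (algebraMap ℝ (Ex m) r) = 0 := ctr_algebraMap φ r
    have h2 : ∀ A : V m →ₗ[ℝ] V n, ExteriorAlgebra.map A (algebraMap ℝ (Ex m) r) = algebraMap ℝ (Ex n) r :=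
      fun A => AlgHom.commutes _ r
    show ExteriorAlgebra.map (S + φ.smulRight w) (algebraMap ℝ (Ex m) r) =
      ExteriorAlgebra.map S (algebraMap ℝ (Ex m) r) +
        ExteriorAlgebra.ι ℝ w * ExteriorAlgebra.map S (ctr φ (algebraMap ℝ (Ex m) r))
    rw [h, h2, h2, map_zero, mul_zero, add_zero]
  | add x y hx hy =>
    rw [map_add, map_add, hx, hy, map_add, map_add, mul_add]
    abel
  | ι_mul z u hz =>
    show ExteriorAlgebra.map (S + φ.smulRight w) (ExteriorAlgebra.ι ℝ u * z) =
      ExteriorAlgebra.map S (ExteriorAlgebra.ι ℝ u * z) +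
        ExteriorAlgebra.ι ℝ w * ExteriorAlgebra.map S (ctr φ (ExteriorAlgebra.ι ℝ u * z))
    have h1 : (S + φ.smulRight w) u = S u + φ u • w := rfl
    have h2 : ExteriorAlgebra.ι ℝ (S u) * ExteriorAlgebra.ι ℝ w = -(ExteriorAlgebra.ι ℝ w * ExteriorAlgebra.ι ℝ (S u)) :=
      eq_neg_of_add_eq_zero_left (ExteriorAlgebra.ι_add_mul_swap _ _)
    have h3 : ExteriorAlgebra.ι ℝ w * ExteriorAlgebra.ι ℝ w = 0 := ExteriorAlgebra.ι_sq_zero w
    have h4 : ExteriorAlgebra.ι ℝ (S u) * (ExteriorAlgebra.ι ℝ w * ExteriorAlgebra.map S (ctr φ z)) =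
        -(ExteriorAlgebra.ι ℝ w * (ExteriorAlgebra.ι ℝ (S u) * ExteriorAlgebra.map S (ctr φ z))) := by
      rw [← mul_assoc, h2, neg_mul, mul_assoc]
    have h5 : ExteriorAlgebra.ι ℝ w * (ExteriorAlgebra.ι ℝ w * ExteriorAlgebra.map S (ctr φ z)) = 0 := by
      rw [← mul_assoc, h3, zero_mul]
    rw [map_mul, ExteriorAlgebra.map_apply_ι, hz, h1, map_mul, ExteriorAlgebra.map_apply_ι, ctr_ι_mul, map_sub,
      map_smul, map_mul, ExteriorAlgebra.map_apply_ι, map_add, map_smul, mul_add, add_mul, add_mul, h4,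
      smul_mul_assoc, smul_mul_assoc, h5, smul_zero, mul_sub, mul_smul_comm]
    abel

/-- maps which differ by vertical covectors agree on elements killed by all vertical vectors -/
private theorem INTd_sum {m n : ℕ} (S : V m →ₗ[ℝ] V n) {ι : Type*} (s : Finset ι) (w : ι → V n)
    (φ : ι → (V m →ₗ[ℝ] ℝ)) (y : Ex m) (hy : ∀ i ∈ s, ctr (φ i) y = 0) :
    ExteriorAlgebra.map (S + ∑ i ∈ s, (φ i).smulRight (w i)) y = ExteriorAlgebra.map S y := by
  classical
  induction s using Finset.induction_on with
  | empty => rw [Finset.sum_empty, add_zero]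
  | insert i s hi ih =>
    rw [Finset.sum_insert hi, add_comm ((φ i).smulRight (w i)), ← add_assoc, INTd_rank, hy i (Finset.mem_insert_self i s),
      map_zero, mul_zero, add_zero]
    exact ih fun j hj => hy j (Finset.mem_insert_of_mem hj)

/-- block triangular maps -/
theorem tN_map {T : V (k + N) →ₗ[ℝ] V (k + N)} {C : V N →ₗ[ℝ] V k} {D : V N →ₗ[ℝ] V N}
    (hT : ∀ a b, T (Fin.append a b) = Fin.append (a + C b) (D b)) (x : Ex (k + N)) :
    tN k N (ExteriorAlgebra.map T x) = LinearMap.det D • tN k N x := by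
  have hap : ∀ w : V (k + N), ∃ (a : V k) (b : V N), w = Fin.append a b := fun w =>
    ⟨hdM k N w, tlM k N w, (append_hd_tl w).symm⟩
  have h1 : ∀ (φ : V N →ₗ[ℝ] ℝ), (vfm k φ).comp T = vfm k (φ.comp D) := by
    intro φ
    refine LinearMap.ext fun w => ?_
    obtain ⟨a, b, rfl⟩ := hap w
    show vfm k φ (T _) = _
    rw [hT, vfm_append, vfm_append]
    rfl
  have h2 : ∀ (l : List (V N →ₗ[ℝ] ℝ)), (l.map fun φ => ctr (vfm k φ)).foldr (fun A y => A y) (ExteriorAlgebra.map T x) =
      ExteriorAlgebra.map T ((l.map fun φ => ctr (vfm k (φ.comp D))).foldr (fun A y => A y) x) := by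
    intro l
    induction l with
    | nil => rfl
    | cons φ l ih => rw [List.map_cons, List.foldr_cons, ih, ctr_map, h1, List.map_cons, List.foldr_cons]
  have h3 := h2 (List.ofFn fun i : Fin N => (LinearMap.proj i : V N →ₗ[ℝ] ℝ))
  rw [List.map_ofFn, List.map_ofFn] at h3
  have h4 : (List.ofFn fun i : Fin N => ctr (vfm k (LinearMap.proj i))).foldr (fun A y => A y)
        (ExteriorAlgebra.map T x) =
      ExteriorAlgebra.map T ((List.ofFn fun i : Fin N => ctr (vfm k ((LinearMap.proj i).comp D))).foldr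
        (fun A y => A y) x) := h3
  rw [tN_eq, tN_eq, h4, ctr_det, map_smul, map_smul]
  congr 1
  obtain ⟨y, hy⟩ : ∃ y, y = (List.ofFn fun i : Fin N => ctr (vfm k (LinearMap.proj i))).foldr (fun A y => A y) x :=
    ⟨_, rfl⟩
  rw [← hy]
  have hy0 : ∀ i : Fin N, ctr (vfm k (LinearMap.proj i)) y = 0 := by
    intro i
    rw [hy, INTd_fold (fun i : Fin N => (LinearMap.proj i : V N →ₗ[ℝ] ℝ)), ← INTd_act_ι,
      ← Module.End.mul_apply, ← map_mul, ExteriorAlgebra.ιMulti_apply,
      ExteriorAlgebra.ι_mul_prod_list (fun i : Fin N => (LinearMap.proj i : V N →ₗ[ℝ] ℝ)) i, map_zero]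
    rfl
  have h5 : (hdL k N).comp T = hdL k N + ∑ i : Fin N, (vfm k (LinearMap.proj i : V N →ₗ[ℝ] ℝ)).smulRight
      (C (Pi.single i 1)) := by
    refine LinearMap.ext fun w => ?_
    obtain ⟨a, b, rfl⟩ := hap w
    have h6 : ∀ (a : V k) (b : V N), hdL k N (Fin.append a b) = a := fun a b => funext fun i => Fin.append_left a b i
    show hdL k N (T _) = hdL k N _ + (∑ i : Fin N, (vfm k (LinearMap.proj i : V N →ₗ[ℝ] ℝ)).smulRight
      (C (Pi.single i 1))) _
    rw [hT, h6, h6, LinearMap.sum_apply]
    have h7 : b = ∑ i, b i • (Pi.single i (1 : ℝ) : V N) := by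
      ext j
      simp [Finset.sum_apply, Pi.single_apply]
    have h8 : C b = ∑ i, b i • C (Pi.single i (1 : ℝ)) := by
      conv_lhs => rw [h7]
      rw [map_sum]
      exact Finset.sum_congr rfl fun i _ => map_smul _ _ _
    rw [h8]
    congr 1
    refine Finset.sum_congr rfl fun i _ => ?_
    rw [LinearMap.smulRight_apply, vfm_append]
    rfl
  have h6 : ExteriorAlgebra.map (hdL k N) (ExteriorAlgebra.map T y) = ExteriorAlgebra.map ((hdL k N).comp T) y := by
    rw [← ExteriorAlgebra.map_comp_map]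
    rfl
  rw [h6, h5]
  exact INTd_sum _ _ _ _ _ fun i _ => hy0 i

/-- a form which is killed by a vertical vector has top coefficient zero -/
theorem tN_eq_zero {φ : V N →ₗ[ℝ] ℝ} (hφ : φ ≠ 0) {x : Ex (k + N)} (hx : ctr (vfm k φ) x = 0) : tN k N x = 0 := by
  obtain ⟨v, hv⟩ : ∃ v, φ v = 1 := by
    obtain ⟨u, hu⟩ : ∃ u, φ u ≠ 0 := by
      by_contra hc
      push Not at hc
      exact hφ (LinearMap.ext hc)
    exact ⟨(φ u)⁻¹ • u, by rw [map_smul, smul_eq_mul, inv_mul_cancel₀ hu]⟩
  have hv0 : v ≠ 0 := by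
    rintro rfl
    rw [map_zero] at hv
    exact zero_ne_one hv
  have hD : (LinearMap.id - φ.smulRight v : V N →ₗ[ℝ] V N) v = 0 := by
    show v - φ v • v = 0
    rw [hv, one_smul, sub_self]
  have hdet : LinearMap.det (LinearMap.id - φ.smulRight v : V N →ₗ[ℝ] V N) = 0 := by
    rw [LinearMap.det_eq_zero_iff_ker_ne_bot]
    intro hk
    exact hv0 ((Submodule.mem_bot ℝ).1 (hk ▸ LinearMap.mem_ker.2 hD))
  have h1 := tN_map (k := k) (N := N) (T := LinearMap.id + (vfm k φ).smulRight (Fin.append (0 : V k) (-v)))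
    (C := 0) (D := LinearMap.id - φ.smulRight v) (fun a b => by
      show Fin.append a b + vfm k φ (Fin.append a b) • Fin.append (0 : V k) (-v) = _
      rw [vfm_append]
      funext i
      refine Fin.addCases (fun i => ?_) (fun i => ?_) i
      · simp [Fin.append_left]
      · simp [Fin.append_right, sub_eq_add_neg]) x
  rw [INTd_rank, hx, map_zero, mul_zero, add_zero, ExteriorAlgebra.map_id, hdet, zero_smul] at h1
  exact h1

private theorem INTd2_ctr_ιMulti {l n : ℕ} (φ : V l →ₗ[ℝ] ℝ) (v : Fin n → V l) (h : ∀ i, φ (v i) = 0) :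
    ctr φ (ExteriorAlgebra.ιMulti ℝ n v) = 0 := by
  induction n with
  | zero => rw [ExteriorAlgebra.ιMulti_zero_apply, ctr_one]
  | succ n ih =>
    rw [ExteriorAlgebra.ιMulti_succ_apply, ctr_ι_mul, h 0, zero_smul, ih (Matrix.vecTail v) (fun i => h i.succ),
      mul_zero, sub_zero]

private theorem INTd2_ivo_ιMulti {l n : ℕ} (v : Fin n → V l) :
    ivo l (ExteriorAlgebra.ιMulti ℝ n v) = (-1 : ℝ) ^ n • ExteriorAlgebra.ιMulti ℝ n v := by
  induction n with
  | zero => rw [ExteriorAlgebra.ιMulti_zero_apply, map_one, pow_zero, one_smul]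
  | succ n ih =>
    rw [ExteriorAlgebra.ιMulti_succ_apply, map_mul, ivo_ι, ih, mul_smul_comm, pow_succ, mul_neg_one, neg_smul,
      neg_mul, smul_neg]

private theorem INTd2_ιMulti_last {l n : ℕ} (v : Fin (n + 1) → V l) :
    ExteriorAlgebra.ιMulti ℝ (n + 1) v =
      ExteriorAlgebra.ιMulti ℝ n (fun i => v i.castSucc) * ExteriorAlgebra.ι ℝ (v (Fin.last n)) := by
  rw [ExteriorAlgebra.ιMulti_apply, ExteriorAlgebra.ιMulti_apply, List.ofFn_succ', List.concat_eq_append,
    List.prod_append, List.prod_singleton]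

private theorem INTd2_ctr_smul {l : ℕ} (φ : V l →ₗ[ℝ] ℝ) (c : ℝ) (y : Ex l) : ctr (c • φ) y = c • ctr φ y :=
  LinearMap.congr_fun ((CliffordAlgebra.contractLeft (Q := (0 : QuadraticForm ℝ (V l)))).map_smul c φ) y

private theorem INTd2_ctr_zero {l : ℕ} (y : Ex l) : ctr (0 : V l →ₗ[ℝ] ℝ) y = 0 :=
  LinearMap.congr_fun ((CliffordAlgebra.contractLeft (Q := (0 : QuadraticForm ℝ (V l)))).map_zero) y

/-- scaling -/
private theorem INTd2_map_two {l i : ℕ} (v : Fin i → V l) :
    ExteriorAlgebra.map ((2 : ℝ) • (LinearMap.id : V l →ₗ[ℝ] V l)) (ExteriorAlgebra.ιMulti ℝ i v) =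
      (2 : ℝ) ^ i • ExteriorAlgebra.ιMulti ℝ i v := by
  rw [ExteriorAlgebra.map_apply_ιMulti]
  have h2 : (((2 : ℝ) • (LinearMap.id : V l →ₗ[ℝ] V l)) ∘ v) = fun j => (2 : ℝ) • v j := rfl
  have h3 := (ExteriorAlgebra.ιMulti ℝ i (M := V l)).toMultilinearMap.map_smul_univ (fun _ => (2 : ℝ)) v
  rw [Finset.prod_const, Finset.card_univ, Fintype.card_fin] at h3
  rw [h2]
  exact h3

private theorem INTd2_det_two (l : ℕ) : LinearMap.det ((2 : ℝ) • (LinearMap.id : V l →ₗ[ℝ] V l)) = (2 : ℝ) ^ l := by
  rw [LinearMap.det_smul, Module.finrank_fin_fun, LinearMap.det_id, mul_one]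

private theorem INTd2_kil_map_two (k : ℕ) (y : Ex (k + 1)) :
    kil k (ExteriorAlgebra.map ((2 : ℝ) • (LinearMap.id : V (k + 1) →ₗ[ℝ] V (k + 1))) y) =
      ExteriorAlgebra.map ((2 : ℝ) • (LinearMap.id : V k →ₗ[ℝ] V k)) (kil k y) := by
  have h : (kil k).comp (ExteriorAlgebra.map ((2 : ℝ) • (LinearMap.id : V (k + 1) →ₗ[ℝ] V (k + 1)))) =
      (ExteriorAlgebra.map ((2 : ℝ) • (LinearMap.id : V k →ₗ[ℝ] V k))).comp (kil k) := by
    unfold kil
    rw [ExteriorAlgebra.map_comp_map, ExteriorAlgebra.map_comp_map, LinearMap.comp_smul, LinearMap.smul_comp,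
      LinearMap.comp_id, LinearMap.id_comp]
  exact AlgHom.congr_fun h y

/-- the one step lemma -/
private theorem INTd2_step (k : ℕ) (x : Ex (k + 1)) :
    topE k (kil k (ctr (lst k) x)) = (-1 : ℝ) ^ k * topE (k + 1) x := by
  have h : ((topE k).comp ((kil k).toLinearMap.comp (ctr (lst k)))) = (-1 : ℝ) ^ k • topE (k + 1) := by
    refine ExteriorAlgebra.lhom_ext fun i => ?_
    by_cases hi : i = k + 1
    · subst hi
      obtain ⟨e, he⟩ : ∃ e : Module.Basis (Fin (k + 1)) ℝ (V (k + 1)), e = Pi.basisFun ℝ (Fin (k + 1)) := ⟨_, rfl⟩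
      have hee : (e : Fin (k + 1) → V (k + 1)) = fun i => Pi.single i 1 := by
        funext i
        rw [he, Pi.basisFun_apply]
      rw [AlternatingMap.eq_smul_basis_det e (((topE k).comp ((kil k).toLinearMap.comp (ctr (lst k)))).compAlternatingMap
        (ExteriorAlgebra.ιMulti ℝ (k + 1))), AlternatingMap.eq_smul_basis_det e
        (((-1 : ℝ) ^ k • topE (k + 1)).compAlternatingMap (ExteriorAlgebra.ιMulti ℝ (k + 1)))]
      congr 1
      change topE k (kil k (ctr (lst k) (ExteriorAlgebra.ιMulti ℝ (k + 1) e))) =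
        (-1 : ℝ) ^ k * topE (k + 1) (ExteriorAlgebra.ιMulti ℝ (k + 1) e)
      have h1 : topE (k + 1) (ExteriorAlgebra.ιMulti ℝ (k + 1) e) = 1 := by
        rw [topE_ιMulti, hee]
        have : Matrix.of (fun i => (Pi.single i (1 : ℝ) : V (k + 1))) = (1 : Matrix (Fin (k + 1)) (Fin (k + 1)) ℝ) := by
          ext a b
          rw [Matrix.one_apply, Matrix.of_apply, Pi.single_apply]
          simp only [eq_comm]
        rw [this, Matrix.det_one]
      have h2 : ctr (lst k) (ExteriorAlgebra.ιMulti ℝ (k + 1) e) =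
          (-1 : ℝ) ^ k • ExteriorAlgebra.ιMulti ℝ k (fun i => (Pi.single i.castSucc (1 : ℝ) : V (k + 1))) := by
        rw [INTd2_ιMulti_last, hee, ctr_mul, INTd2_ctr_ιMulti _ _ (fun i => by
          rw [lst_apply]
          exact Pi.single_eq_of_ne (Fin.castSucc_lt_last i).ne' _), zero_mul, zero_add, INTd2_ivo_ιMulti]
        have h3 := ctr_ι_mul (lst k) (Pi.single (Fin.last k) (1 : ℝ)) 1
        rw [mul_one, ctr_one, mul_zero, sub_zero, lst_apply, Pi.single_eq_same, one_smul] at h3
        rw [h3, mul_one]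
      rw [h1, h2, map_smul, map_smul, mul_one, smul_eq_mul]
      have h4 : kil k (ExteriorAlgebra.ιMulti ℝ k (fun i => (Pi.single i.castSucc (1 : ℝ) : V (k + 1)))) =
          ExteriorAlgebra.ιMulti ℝ k (fun i => (Pi.single i (1 : ℝ) : V k)) := by
        unfold kil
        rw [ExteriorAlgebra.map_apply_ιMulti]
        congr 1
        funext i
        exact ini_single i
      rw [h4, topE_ιMulti]
      have : Matrix.of (fun i => (Pi.single i (1 : ℝ) : V k)) = (1 : Matrix (Fin k) (Fin k) ℝ) := by
        ext a b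
        rw [Matrix.one_apply, Matrix.of_apply, Pi.single_apply]
        simp only [eq_comm]
      rw [this, Matrix.det_one, mul_one]
    · ext v
      change topE k (kil k (ctr (lst k) (ExteriorAlgebra.ιMulti ℝ i v))) =
        (-1 : ℝ) ^ k * topE (k + 1) (ExteriorAlgebra.ιMulti ℝ i v)
      rw [topE_ιMulti_ne hi, mul_zero]
      have h1 := ctr_map (lst k) ((2 : ℝ) • (LinearMap.id : V (k + 1) →ₗ[ℝ] V (k + 1))) (ExteriorAlgebra.ιMulti ℝ i v)
      rw [INTd2_map_two, LinearMap.comp_smul, LinearMap.comp_id, INTd2_ctr_smul, map_smul, map_smul] at h1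
      have h2 := congrArg (fun y => topE k (kil k y)) h1
      simp only [map_smul] at h2
      rw [INTd2_kil_map_two, topE_map, INTd2_det_two, smul_eq_mul, smul_eq_mul] at h2
      have h3 : ((2 : ℝ) ^ i - 2 ^ (k + 1)) * topE k (kil k (ctr (lst k) (ExteriorAlgebra.ιMulti ℝ i v))) = 0 := by
        rw [pow_succ]
        linarith
      rcases mul_eq_zero.1 h3 with h4 | h4
      · exfalso
        have h5 : (2 : ℝ) ^ i = 2 ^ (k + 1) := by linarith
        exact hi (pow_right_injective₀ (by norm_num) (by norm_num) h5)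
      · exact h4
  exact LinearMap.congr_fun h x

/-- the whole top coefficient -/
theorem topE_tN (x : Ex (k + N)) :
    topE k (tN k N x) = (-1 : ℝ) ^ (k * N + N * (N - 1) / 2) * topE (k + N) x := by
  induction N with
  | zero =>
    change topE k x = (-1 : ℝ) ^ (k * 0 + 0 * (0 - 1) / 2) * topE k x
    rw [Nat.mul_zero, Nat.zero_mul, Nat.zero_div, Nat.add_zero, pow_zero, one_mul]
  | succ N ih =>
    change topE k (tN k N (kil (k + N) (ctr (lst (k + N)) x))) = _
    rw [ih, INTd2_step, ← mul_assoc, ← pow_add]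
    congr 2
    have h := Nat.triangle_succ N
    have h2 : k * (N + 1) = k * N + k := Nat.mul_succ k N
    omega

/-- products with forms of the base, from the left -/
theorem tN_mul (a : Ex k) (x : Ex (k + N)) :
    tN k N (ExteriorAlgebra.map (inL k N) a * x) = (ivo k)^[N] a * tN k N x := by
  induction N generalizing a with
  | zero =>
    have h : inL k 0 = LinearMap.id := by
      refine LinearMap.ext fun v => funext fun i => ?_
      exact Fin.append_left v 0 i
    change ExteriorAlgebra.map (inL k 0) a * x = a * x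
    rw [h, ExteriorAlgebra.map_id]
    rfl
  | succ N ih =>
    change tN k N (kil (k + N) (ctr (lst (k + N)) (ExteriorAlgebra.map (inL k (N + 1)) a * x))) =
      (ivo k)^[N + 1] a * tN k N (kil (k + N) (ctr (lst (k + N)) x))
    have h1 : (lst (k + N)).comp (inL k (N + 1)) = 0 := by
      refine LinearMap.ext fun v => ?_
      exact Fin.append_right v (0 : V (N + 1)) (Fin.last N)
    have h2 : ctr (lst (k + N)) (ExteriorAlgebra.map (inL k (N + 1)) a) = 0 := by
      have h := ctr_map (lst (k + N)) (inL k (N + 1)) a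
      rw [h1, INTd2_ctr_zero, map_zero] at h
      exact h
    have h3 : ∀ b : Ex k, ivo (k + (N + 1)) (ExteriorAlgebra.map (inL k (N + 1)) b) =
        ExteriorAlgebra.map (inL k (N + 1)) (ivo k b) := by
      intro b
      induction b using ExteriorAlgebra.induction with
      | algebraMap r => simp only [AlgHom.commutes]
      | ι v => rw [ivo_ι, map_neg, ExteriorAlgebra.map_apply_ι, ivo_ι]
      | mul a b hA hB => simp only [map_mul, hA, hB]
      | add a b hA hB => simp only [map_add, hA, hB]
    have h4 : ∀ b : Ex k, kil (k + N) (ExteriorAlgebra.map (inL k (N + 1)) b) = ExteriorAlgebra.map (inL k N) b := by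
      intro b
      have h : (kil (k + N)).comp (ExteriorAlgebra.map (inL k (N + 1))) = ExteriorAlgebra.map (inL k N) := by
        unfold kil
        refine (ExteriorAlgebra.map_comp_map _ _).trans ?_
        congr 1
        refine LinearMap.ext fun v => funext fun i => ?_
        change (Fin.append v (0 : V (N + 1)) : V (k + (N + 1))) i.castSucc = (Fin.append v (0 : V N) : V (k + N)) i
        refine Fin.addCases (fun i => ?_) (fun i => ?_) i
        · rw [Fin.append_left]
          exact Fin.append_left v (0 : V (N + 1)) i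
        · rw [Fin.append_right]
          exact Fin.append_right v (0 : V (N + 1)) i.castSucc
      exact AlgHom.congr_fun h b
    have h5 : ctr (lst (k + N)) (ExteriorAlgebra.map (inL k (N + 1)) a * x) =
        ExteriorAlgebra.map (inL k (N + 1)) (ivo k a) * ctr (lst (k + N)) x := by
      have h := ctr_mul (lst (k + N)) (ExteriorAlgebra.map (inL k (N + 1)) a) x
      rw [h2, zero_mul, zero_add] at h
      rw [h]
      congr 1
      exact h3 a
    rw [h5, Function.iterate_succ_apply, ← ih (ivo k a)]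
    congr 1
    rw [map_mul, h4]

end Pool.Agent.Lib.MP_ccbbf6_gt.L5
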