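import Pool.Agent.Lib.MP_ccbbf6_gt.L5.INTa
import Pool.Agent.Lib.MP_ccbbf6_gt.L5.INTg

/-!
# Level 5, INTh: sphere bundles and fibre integration (helper67)

PROOFS. (1) q_PI: `pull_desc` of INTa for `b.lift`; its hypothesis (two plots P, P' of F with `q.pl P = q.pl P'` give the same value of `SI .. (ptm.pull θ)`) is `SI_change` (s = 1, `b.change`).
(2) PI_add .. PI_mulr, Deg_PI, PI_low: `LLift.inj b.lift` (pull-back along q is injective), `q_PI`, `pull_add`.., and the corresponding fact of `SI (N+1) F`: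
   PI_d: `SI_d` with `(-1)^(N+1+1) = (-1)^N`, `pull_d`; PI_mul: `b.pi ∘ b.ptm = b.q ∘ pP` as maps (`pi_pt`), `pull_comp`, `SI_mul`, `(sO)^[N+2] = (sO)^[N]` (`s_s`); PI_mulr: `SI_mulr`; PI_s: `SI_s`, `pull_s`.
   Deg_PI: degree of a form can be tested after pull-back along q because plots lift locally (`LLift.same` / `LLift` definition; `Deg` is local: use the formula for `desc` on a plot, or: the components in the wrong degree are a form..
   simplest: for a plot p of B and z in R^k take the local lift P of p near z from `b.lift`, then `ev z (on (PI θ) p) = ev z (on (SI ..) P)`, and `Dg j x ↔ ∀ z, ev z x ∈ degree j`. If there is no such lemma, prove it (ev of `Dg`)).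
   PI_low: `LLift.inj`, `SI_low` (j < N gives j + 1 < N + 1).
(3) PI_nat: `LLift.inj b'.lift`; `b'.q.pull (h.pull (b.PI θ)) = φ.pull (b.q.pull (b.PI θ))` by h1; `q_PI`, `SI_nat φ`; `g.comp b'.ptm = b.ptm.comp (φ.xP (N+1))` by h2.
(4) PI_lin: `LLift.inj b.lift`, `q_PI`, `pull_comp`: `g.comp ptm = ptm.comp (frP (constant A))`; `SI_frP` with s = det A (|det A| = 1 from A^T A = 1: det A ^ 2 = 1). (5) PI_ant: (4) with A = -1 (`Matrix.det_neg`, `Matrix.neg_mulVec`).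
-/

set_option autoImplicit false
set_option maxSynthPendingDepth 3

open Set Filter Topology MeasureTheory
open scoped ContDiff

noncomputable section

namespace Pool.Agent.Lib.MP_ccbbf6_gt.L5

open L4 L4.FR

variable {k l N : ℕ} {S B : Space}

/-- the first unit vector -/
theorem e1_ne (N : ℕ) : (Pi.single 0 1 : V (N + 1)) ≠ 0 := fun h => one_ne_zero (α := ℝ) (by
  have := congrFun h 0
  simp at this)

/-- a frame with its first unit vector -/
def e1M (F : Space) (N : ℕ) : SMap F (F.xP (N + 1)) :=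
  ⟨fun f => ⟨(f, Pi.single 0 1), e1_ne N⟩, fun _ p => ⟨p.2, contDiff_const⟩⟩

theorem INTh_pow (N : ℕ) : (-1 : ℝ) ^ (N + 1 + 1) = (-1 : ℝ) ^ N := by
  rw [pow_succ, pow_succ]
  ring

theorem INTh_iter (X : Space) (N : ℕ) (a : Om X) : (sO X)^[N + 1 + 1] a = (sO X)^[N] a := by
  rw [Function.iterate_succ_apply, Function.iterate_succ_apply, s_s]

theorem INTh_pull_iter {X Y : Space} (f : SMap X Y) (a : Om Y) : ∀ N : ℕ,
    f.pull ((sO Y)^[N] a) = (sO X)^[N] (f.pull a) := by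
  intro N
  induction N with
  | zero => rfl
  | succ N ih => rw [Function.iterate_succ_apply', Function.iterate_succ_apply', ← ih, pull_s]

/-- the scaling of forms by `2 ^ degree` -/
def INTh_Sc (X : Space) (θ : Om X) : Om X :=
  mkO (fun k p => Sc k (Om.on θ p)) (fun k l p g => by rw [on_cmp, Sc_pb])

theorem INTh_Deg_of {F B : Space} {q : SMap F B} (hq : LLift q) {j : ℕ} {a : Om B} (h : Deg j (q.pull a)) :
    Deg j a := by
  have h1 : INTh_Sc B a = (2 : ℝ) ^ j • a := by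
    refine hq.inj (Om_ext fun k p => ?_)
    exact (h k p).1
  have h2 : sO B a = (-1 : ℝ) ^ j • a := by
    refine hq.inj (Om_ext fun k p => ?_)
    exact (h k p).2
  intro k p
  refine ⟨?_, ?_⟩
  · exact congrArg (fun x : Om B => Om.on x p) h1
  · exact congrArg (fun x : Om B => Om.on x p) h2

/-- an oriented sphere bundle `S → B` with fibres `S^N` (rank `N + 1`) -/
structure SBun (N : ℕ) (S B : Space) where
  /-- projection -/
  pi : SMap S B
  /-- oriented orthonormal frames -/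
  F : Space
  /-- base point of a frame -/
  q : SMap F B
  /-- the direction with coordinates `ξ` -/
  ptm : SMap (F.xP (N + 1)) S
  /-- the antipode -/
  ant : SMap S S
  pi_pt : ∀ z, pi.1 (ptm.1 z) = q.1 z.1.1
  pi_ant : ∀ s, pi.1 (ant.1 s) = pi.1 s
  ant_pt : ∀ (f : F.pt) (ξ : V (N + 1)) (hξ : ξ ≠ 0), ant.1 (ptm.1 ⟨(f, ξ), hξ⟩) = ptm.1 ⟨(f, -ξ), neg_ne_zero.2 hξ⟩
  hom : ∀ (f : F.pt) (ξ : V (N + 1)) (hξ : ξ ≠ 0) (r : ℝ) (hr : 0 < r),
    ptm.1 ⟨(f, r • ξ), smul_ne_zero hr.ne' hξ⟩ = ptm.1 ⟨(f, ξ), hξ⟩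
  inj : ∀ (f : F.pt) (ξ ξ' : V (N + 1)) (hξ : ξ ≠ 0) (hξ' : ξ' ≠ 0), ‖toE ξ‖ = 1 → ‖toE ξ'‖ = 1 →
    ptm.1 ⟨(f, ξ), hξ⟩ = ptm.1 ⟨(f, ξ'), hξ'⟩ → ξ = ξ'
  lift : LLift q
  lift1 : LLift (ptm.comp (e1M F N))
  change : ∀ (k : ℕ) (P P' : F.Plot k), q.pl P = q.pl P' → ∃ A : V k → Matrix (Fin (N + 1)) (Fin (N + 1)) ℝ,
    (∀ i j, ContDiff ℝ ∞ fun z => A z i j) ∧ (∀ z, (A z).det = 1) ∧ ∃ h1 : ∀ z, (A z).transpose * A z = 1,
      ∀ z (ξ : V (N + 1)) (hξ : ξ ≠ 0), ptm.1 ⟨(P'.1 z, ξ), hξ⟩ =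
        ptm.1 ⟨(P.1 z, (A z).mulVec ξ), mulVec_ne (h1 z) hξ⟩

namespace SBun

variable (b : SBun N S B)

/-- the first vector of a frame -/
def q1 : SMap b.F S := b.ptm.comp (e1M b.F N)

theorem INTh_pi (a : Om B) : b.ptm.pull (b.pi.pull a) = (pP b.F (N + 1)).pull (b.q.pull a) := by
  have e : b.pi.comp b.ptm = b.q.comp (pP b.F (N + 1)) := SMap_ext fun z => b.pi_pt z
  rw [← pull_comp, ← pull_comp, e]

/-- fibre integration -/
def PI (θ : Om S) : Om B := desc b.q (SI (N + 1) b.F (b.ptm.pull θ))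

theorem q_PI (θ : Om S) : b.q.pull (b.PI θ) = SI (N + 1) b.F (b.ptm.pull θ) := by
  unfold PI
  refine pull_desc b.lift fun k P P' hPP => ?_
  obtain ⟨A, hA, hdet, h1, h⟩ := b.change k P P' hPP
  have h2 := SI_change b.ptm hA h1 (s := 1) abs_one hdet h θ
  rw [h2, one_smul]

theorem PI_add (θ τ : Om S) : b.PI (θ + τ) = b.PI θ + b.PI τ := by
  refine b.lift.inj ?_
  rw [map_add, b.q_PI, b.q_PI, b.q_PI, map_add, map_add]

theorem PI_smul (r : ℝ) (θ : Om S) : b.PI (r • θ) = r • b.PI θ := by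
  refine b.lift.inj ?_
  rw [map_smul, b.q_PI, b.q_PI, map_smul, map_smul]

theorem PI_d (θ : Om S) : dO B (b.PI θ) = (-1 : ℝ) ^ N • b.PI (dO S θ) := by
  refine b.lift.inj ?_
  rw [map_smul, b.q_PI, ← pull_d, b.q_PI, SI_d, pull_d, INTh_pow]

theorem PI_mul (a : Om B) (θ : Om S) : b.PI (b.pi.pull a * θ) = (sO B)^[N] a * b.PI θ := by
  refine b.lift.inj ?_
  rw [map_mul, b.q_PI, b.q_PI, map_mul, INTh_pi, SI_mul, INTh_iter, INTh_pull_iter]

theorem PI_mulr (a : Om B) (θ : Om S) : b.PI (θ * b.pi.pull a) = b.PI θ * a := by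
  refine b.lift.inj ?_
  rw [map_mul, b.q_PI, b.q_PI, map_mul, INTh_pi, SI_mulr]

theorem PI_s (θ : Om S) : b.PI (sO S θ) = (-1 : ℝ) ^ N • sO B (b.PI θ) := by
  refine b.lift.inj ?_
  rw [map_smul, b.q_PI, ← pull_s, SI_s, INTh_pow, ← pull_s, b.q_PI]

theorem Deg_PI {j : ℕ} {θ : Om S} (h : Deg (j + N) θ) : Deg j (b.PI θ) := by
  refine INTh_Deg_of b.lift ?_
  rw [b.q_PI]
  exact Deg_SI fun k p => h k (b.ptm.pl p)

theorem PI_low {j : ℕ} {θ : Om S} (h : Deg j θ) (hj : j < N) : b.PI θ = 0 := by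
  refine b.lift.inj ?_
  rw [map_zero, b.q_PI]
  exact SI_low (j := j) (fun k p => h k (b.ptm.pl p)) (by omega)

end SBun

/-- bundle maps -/
theorem PI_nat {S' B' : Space} (b : SBun N S B) (b' : SBun N S' B') (g : SMap S' S) (h : SMap B' B) (φ : SMap b'.F b.F)
    (h1 : ∀ f, b.q.1 (φ.1 f) = h.1 (b'.q.1 f))
    (h2 : ∀ z, g.1 (b'.ptm.1 z) = b.ptm.1 ((φ.xP (N + 1)).1 z)) (θ : Om S) : b'.PI (g.pull θ) = h.pull (b.PI θ) := by
  refine b'.lift.inj ?_
  have e1 : g.comp b'.ptm = b.ptm.comp (φ.xP (N + 1)) := SMap_ext fun z => h2 z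
  have e2 : b.q.comp φ = h.comp b'.q := SMap_ext fun f => h1 f
  rw [b'.q_PI, ← pull_comp, e1, pull_comp, SI_nat, ← b.q_PI, ← pull_comp, ← pull_comp, e2]

theorem INTh_lin (b : SBun N S B) (g : SMap S S)
    {A : Matrix (Fin (N + 1)) (Fin (N + 1)) ℝ} (h1 : A.transpose * A = 1)
    (h : ∀ (f : b.F.pt) (ξ : V (N + 1)) (hξ : ξ ≠ 0), g.1 (b.ptm.1 ⟨(f, ξ), hξ⟩) =
      b.ptm.1 ⟨(f, A.mulVec ξ), mulVec_ne h1 hξ⟩) (θ : Om S) : b.PI (g.pull θ) = A.det • b.PI θ := by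
  have hA : SmM (X := b.F) (fun _ => A) := fun k p i j => contDiff_const
  have hd : |A.det| = 1 := by
    have h3 : A.det * A.det = 1 := by
      have h4 := congrArg Matrix.det h1
      rwa [Matrix.det_mul, Matrix.det_transpose, Matrix.det_one] at h4
    have h5 : |A.det| * |A.det| = 1 := by rw [← abs_mul, h3, abs_one]
    nlinarith [abs_nonneg A.det]
  refine b.lift.inj ?_
  have e1 : g.comp b.ptm = b.ptm.comp (frP hA fun _ => h1) := SMap_ext fun z => h z.1.1 z.1.2 z.2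
  rw [map_smul, b.q_PI, b.q_PI, ← pull_comp, e1, pull_comp, SI_frP hA (fun _ => h1) hd (fun _ => rfl)]

/-- the antipode -/
theorem PI_ant (b : SBun N S B) (θ : Om S) : b.PI (b.ant.pull θ) = (-1 : ℝ) ^ (N + 1) • b.PI θ := by
  have h1 : (-1 : Matrix (Fin (N + 1)) (Fin (N + 1)) ℝ).transpose * (-1) = 1 := by
    rw [Matrix.transpose_neg, Matrix.transpose_one, neg_mul_neg, one_mul]
  have h3 : ∀ ξ : V (N + 1), -ξ = (-1 : Matrix (Fin (N + 1)) (Fin (N + 1)) ℝ).mulVec ξ := fun ξ => by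
    rw [Matrix.neg_mulVec, Matrix.one_mulVec]
  have h2 := INTh_lin b b.ant h1 (fun f ξ hξ => by
    rw [b.ant_pt]
    exact congrArg b.ptm.1 (Subtype.ext (Prod.ext rfl (h3 ξ)))) θ
  rw [h2, Matrix.det_neg, Matrix.det_one, mul_one, Fintype.card_fin]

/-- linear maps of the fibres with constant matrix (antipode, reflections) -/
theorem PI_lin (b : SBun N S B) (g : SMap S S)
    {A : Matrix (Fin (N + 1)) (Fin (N + 1)) ℝ} (h1 : A.transpose * A = 1)
    (h : ∀ (f : b.F.pt) (ξ : V (N + 1)) (hξ : ξ ≠ 0), g.1 (b.ptm.1 ⟨(f, ξ), hξ⟩) =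
      b.ptm.1 ⟨(f, A.mulVec ξ), mulVec_ne h1 hξ⟩) (θ : Om S) : b.PI (g.pull θ) = A.det • b.PI θ := by
  exact INTh_lin b g h1 h θ

end Pool.Agent.Lib.MP_ccbbf6_gt.L5
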