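import Pool.Agent.Lib.MP_ccbbf6_gt.ML

/-!
Power series over the real numbers: Lagrange inversion, linear differential equations of order one,
nonnegative coefficients.
-/

namespace Pool.Agent.Lib.MP_ccbbf6_gt.L5

open PowerSeries

/-- The coefficient of `w ^ n` of `g ^ i * (u ^ (n + 1) * g')` is one for `i = n` and zero
otherwise. -/
theorem lag_mono {g ψ u : PowerSeries ℝ} (hg : g = X * ψ) (hu : u * ψ = 1) (n i : ℕ) :
    coeff n (g ^ i * (u ^ (n + 1) * derivative ℝ g)) = if i = n then 1 else 0 := by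
  have hd : derivative ℝ g = ψ + X * derivative ℝ ψ := by
    rw [hg, Derivation.leibniz, derivative_X]
    simp only [smul_eq_mul, mul_one]
    ring
  rcases lt_or_ge n i with h | h
  · rw [if_neg (by omega), hg, mul_pow, mul_assoc, coeff_X_pow_mul', if_neg (by omega)]
  · obtain ⟨k, rfl⟩ := Nat.exists_eq_add_of_le h
    have h1 : g ^ i * (u ^ (i + k + 1) * derivative ℝ g) =
        X ^ i * (u ^ k + X * (u ^ (k + 1) * derivative ℝ ψ)) := by
      rw [hd]
      have h2 : u ^ i * ψ ^ i = 1 := by rw [← mul_pow, hu, one_pow]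
      calc g ^ i * (u ^ (i + k + 1) * (ψ + X * derivative ℝ ψ))
          = X ^ i * ((u ^ i * ψ ^ i) * (u ^ k * (u * ψ) + X * (u ^ (k + 1) * derivative ℝ ψ))) := by
            rw [hg]
            ring
        _ = _ := by rw [h2, hu, one_mul, mul_one]
    have h3 : i + k = k + i := add_comm _ _
    rw [h1, h3, coeff_X_pow_mul, map_add]
    rcases k with _ | k
    · rw [if_pos (by omega), pow_zero]
      simp
    · rw [if_neg (by omega), coeff_succ_X_mul]
      have h4 : derivative ℝ u = - (u ^ 2 * derivative ℝ ψ) := by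
        have h5 := congrArg (derivative ℝ) hu
        rw [Derivation.leibniz, ← map_one C, derivative_C] at h5
        simp only [smul_eq_mul] at h5
        calc derivative ℝ u = (u * ψ) * derivative ℝ u := by rw [hu, one_mul]
          _ = u * (ψ * derivative ℝ u) := by ring
          _ = u * (- (u * derivative ℝ ψ)) := by
              congr 1
              linear_combination h5
          _ = _ := by ring
      have h6 : derivative ℝ (u ^ (k + 1)) = - ((k + 1 : ℕ) * (u ^ (k + 2) * derivative ℝ ψ)) := by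
        rw [derivative_pow, h4, Nat.add_sub_cancel]
        ring
      have h7 := congrArg (coeff k) h6
      rw [coeff_derivative, map_neg, ← nsmul_eq_mul, map_nsmul, nsmul_eq_mul] at h7
      have h8 : ((k : ℝ) + 1) ≠ 0 := by positivity
      have h9 : ((k : ℝ) + 1) * (coeff (k + 1) (u ^ (k + 1)) +
          coeff k (u ^ (k + 1 + 1) * derivative ℝ ψ)) = 0 := by
        push_cast at h7
        linear_combination h7
      exact (mul_eq_zero.1 h9).resolve_left h8

theorem const_subst {g : PowerSeries ℝ} (hg : constantCoeff g = 0) (F : PowerSeries ℝ) :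
    constantCoeff (F.subst g) = constantCoeff F := by
  rw [← coeff_zero_eq_constantCoeff_apply, coeff_subst' (HasSubst.of_constantCoeff_zero' hg),
    finsum_eq_single _ 0]
  · simp
  · intro d hd
    rw [coeff_zero_eq_constantCoeff_apply, map_pow, hg, zero_pow hd, smul_zero]

/-- Lagrange inversion. -/
theorem lagrange {g φ : PowerSeries ℝ} (hφ : constantCoeff φ = 1) (hg : g = X * φ.subst g)
    (F : PowerSeries ℝ) (n : ℕ) :
    coeff n (F.subst g * derivative ℝ g) = coeff n (F * φ ^ (n + 1)) := by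
  have hg0 : constantCoeff g = 0 := by
    rw [hg]
    simp
  have hs : HasSubst g := HasSubst.of_constantCoeff_zero' hg0
  obtain ⟨ψ, hψ⟩ : ∃ ψ, ψ = φ.subst g := ⟨_, rfl⟩
  have hψ0 : constantCoeff ψ = 1 := by rw [hψ, const_subst hg0, hφ]
  have hu : ψ⁻¹ * ψ = 1 := PowerSeries.inv_mul_cancel _ (by rw [hψ0]; exact one_ne_zero)
  rw [← hψ] at hg
  obtain ⟨A, hA⟩ : ∃ A, A = F * φ ^ (n + 1) := ⟨_, rfl⟩
  have h1 : A.subst g = F.subst g * ψ ^ (n + 1) := by
    rw [hA, subst_mul hs, subst_pow hs, hψ]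
  have h2 : F.subst g * derivative ℝ g = A.subst g * (ψ⁻¹ ^ (n + 1) * derivative ℝ g) := by
    rw [h1]
    calc F.subst g * derivative ℝ g = F.subst g * (ψ⁻¹ * ψ) ^ (n + 1) * derivative ℝ g := by
          rw [hu, one_pow, mul_one]
      _ = _ := by ring
  rw [h2, ← hA]
  have h3 : X ^ (n + 1) ∣ A - (trunc (n + 1) A : PowerSeries ℝ) := by
    rw [X_pow_dvd_iff]
    intro m hm
    rw [map_sub, Polynomial.coeff_coe, coeff_trunc, if_pos hm, sub_self]
  obtain ⟨B, hB⟩ := h3
  have h4 : A = (trunc (n + 1) A : PowerSeries ℝ) + X ^ (n + 1) * B := by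
    rw [← hB]
    ring
  have h5 : A.subst g = ∑ i ∈ Finset.range (n + 1), C (coeff i A) * g ^ i +
      g ^ (n + 1) * B.subst g := by
    conv_lhs => rw [h4]
    rw [subst_add hs, subst_mul hs, subst_pow hs, subst_X hs, subst_coe hs,
      Polynomial.aeval_eq_sum_range' (natDegree_trunc_lt A n)]
    congr 1
    refine Finset.sum_congr rfl fun i hi => ?_
    rw [coeff_trunc, if_pos (Finset.mem_range.1 hi), smul_eq_C_mul]
  have h6 : coeff n (g ^ (n + 1) * B.subst g * (ψ⁻¹ ^ (n + 1) * derivative ℝ g)) = 0 := by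
    rw [hg, mul_pow, mul_assoc, mul_assoc, coeff_X_pow_mul', if_neg (by omega)]
  rw [h5, add_mul, map_add, h6, add_zero, Finset.sum_mul, map_sum,
    Finset.sum_eq_single n]
  · rw [mul_assoc, coeff_C_mul, lag_mono hg hu, if_pos rfl, mul_one]
  · intro i _ hi
    rw [mul_assoc, coeff_C_mul, lag_mono hg hu, if_neg hi, mul_zero]
  · intro h
    exact absurd (Finset.mem_range.2 (Nat.lt_succ_self n)) h

/-- The equation `g = X * φ(g)` has a solution. -/
theorem lag_exists {φ : PowerSeries ℝ} (hφ : constantCoeff φ = 1) :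
    ∃ g : PowerSeries ℝ, constantCoeff g = 0 ∧ g = X * φ.subst g := by
  have h1 : φ⁻¹ * φ = 1 := PowerSeries.inv_mul_cancel _ (by rw [hφ]; exact one_ne_zero)
  have hc : coeff 1 (X * φ⁻¹) = 1 := by
    have h2 : coeff (0 + 1) (X * φ⁻¹) = coeff 0 φ⁻¹ := coeff_succ_X_mul _ _
    rw [zero_add] at h2
    rw [h2, coeff_zero_eq_constantCoeff_apply, constantCoeff_inv, hφ, inv_one]
  have hc' : IsUnit (coeff 1 (X * φ⁻¹)) := by rw [hc]; exact isUnit_one
  have h0 : constantCoeff (X * φ⁻¹) = 0 := by simp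
  have h3 := subst_substInvOfIsUnit_right (X * φ⁻¹) h0 hc'
  obtain ⟨g, hg⟩ : ∃ g, g = (X * φ⁻¹).substInvOfIsUnit hc' := ⟨_, rfl⟩
  have hg0 : constantCoeff g = 0 := by rw [hg]; simp
  have hs : HasSubst g := HasSubst.of_constantCoeff_zero' hg0
  rw [← hg, subst_mul hs, subst_X hs] at h3
  refine ⟨g, hg0, ?_⟩
  have h4 : (φ⁻¹).subst g * φ.subst g = 1 := by
    rw [← subst_mul hs, h1, ← map_one C, subst_C]
    rfl
  calc g = g * ((φ⁻¹).subst g * φ.subst g) := by rw [h4, mul_one]
    _ = (g * (φ⁻¹).subst g) * φ.subst g := by ring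
    _ = _ := by rw [h3]

end Pool.Agent.Lib.MP_ccbbf6_gt.L5
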