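import Pool.Agent.Lib.MP_ccbbf6_gt.L5.NHa

/-!
# NHb: the sections `kf` are smooth and define a rotation family (Level 5, block NEG)

PROOFS.
`smV_Dr`: `CC 𝒜 p x (Dr e x a) = fderiv (fun y => 𝒜.ψ p (e.r y)) (e.i x) a` for `x ∈ (𝒜.ψ p).source` (chain rule: `𝒜.ψ p (e.r y) = ch p x (𝒜.ψ x (e.r y))` near `y = e.i x`, `hasFDerivAt_ch`, `e.left`),
and the right side is a smooth function of `(y, a)` at `(e.i (x u), a u)` (`e.smooth_r`, `SmAt.chart`, `ContDiffAt.fderiv_right`), composed with the smooth `e.i (x v)` (`SmFA.comp_to (e.smooth_i _)`).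
`Dr_surj`: `e.r (e.i x) = x`, so `Dr e x ∘ D(e.i ∘ (ψ x)⁻¹)(0) = id`.
`smV_kf`: `smV_Hc` + `smV_Dr` + `Φ (e.EE (σ v)) (ξ v)` smooth (`e.smooth_EE`).
`rotF_kf`: smooth: `smGA_gw` with `w v := 𝒜.vel (σ v).1 0 + s v • kf e Φ (ξ v) (σ v)` (nonzero: orthogonality, norm of `vel` is `1`), velocities `SmGA.smV`. zero: `gw_self` (L4/OriI: import it or copy, `eq_of_vel'`).
foot: `gw_zero`. top: `top_of_mem` (`vel + s • k ∈ PV`). smul: `(s • kf (r • ξ) = (r * s) • kf ξ` by linearity. vel: `gw_vel`, `nrm`, `‖vel + s • k‖ = √(1 + s² ‖k‖²)`.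
-/

set_option autoImplicit false
set_option linter.unusedSectionVars false

open Set Filter Topology Metric Real Module
open scoped ContDiff RealInnerProductSpace

noncomputable section

namespace Pool.Agent.Lib.MP_ccbbf6_gt.L5.NEG

open Geo L4 L4.ORI

variable {n : ℕ} {M : Type*} [MetricSpace M] [CompactSpace M] {𝒜 : SDist n M} (e : Emb n 𝒜)

private theorem NHb_smAt (x : M) : SmAt 𝒜 e.r (e.i x) := e.smooth_r _ (e.mem x)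

private theorem NHb_contDiff {p x : M} (hx : x ∈ (𝒜.ψ p).source) :
    ContDiffAt ℝ ∞ (fun y => 𝒜.ψ p (e.r y)) (e.i x) := by
  refine SmAt.chart (NHb_smAt e x) ?_
  rw [e.left]
  exact hx

private theorem NHb_fd {p x : M} (hx : x ∈ (𝒜.ψ p).source) (a : EuclideanSpace ℝ (Fin e.q)) :
    fderiv ℝ (fun y => 𝒜.ψ p (e.r y)) (e.i x) a = CC 𝒜 p x (Dr e x a) := by
  have h1 : HasFDerivAt (fun y => 𝒜.ψ x (e.r y)) (Dr e x) (e.i x) :=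
    ((NHb_contDiff e (𝒜.mem x)).differentiableAt (by simp)).hasFDerivAt
  have h2 : HasFDerivAt (𝒜.ch p x) (CC 𝒜 p x) ((fun y => 𝒜.ψ x (e.r y)) (e.i x)) := by
    show HasFDerivAt (𝒜.ch p x) (CC 𝒜 p x) (𝒜.ψ x (e.r (e.i x)))
    rw [e.left, 𝒜.zero]
    exact hasFDerivAt_ch 𝒜 hx
  have h3 := h2.comp (e.i x) h1
  have h4 : HasFDerivAt (fun y => 𝒜.ψ p (e.r y)) ((CC 𝒜 p x).comp (Dr e x)) (e.i x) := by
    refine h3.congr_of_eventuallyEq ?_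
    have h5 : ∀ᶠ y in 𝓝 (e.i x), e.r y ∈ (𝒜.ψ x).source := by
      refine (NHb_smAt e x).1.eventually ((𝒜.ψ x).open_source.mem_nhds ?_)
      rw [e.left]
      exact 𝒜.mem x
    filter_upwards [h5] with y hy
    show 𝒜.ψ p (e.r y) = 𝒜.ψ p ((𝒜.ψ x).symm (𝒜.ψ x (e.r y)))
    rw [(𝒜.ψ x).left_inv hy]
  rw [h4.fderiv]
  rfl

private theorem NHb_wne {c : Gs M} {k : Eu n} (hk : k ∈ Kc 𝒜 c) (s : ℝ) :
    ‖𝒜.vel c.1 0 + s • k‖ = √(1 + s ^ 2 * ‖k‖ ^ 2) ∧ 𝒜.vel c.1 0 + s • k ≠ 0 := by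
  have h1 : ‖𝒜.vel c.1 0 + s • k‖ ^ 2 = 1 + s ^ 2 * ‖k‖ ^ 2 := by
    rw [norm_add_sq_real, real_inner_smul_right, (mem_Kc_iff.1 hk).2, vel_norm 𝒜 c, norm_smul, mul_pow,
      Real.norm_eq_abs, sq_abs]
    ring
  have h2 : ‖𝒜.vel c.1 0 + s • k‖ = √(1 + s ^ 2 * ‖k‖ ^ 2) := by
    rw [← h1, Real.sqrt_sq (norm_nonneg _)]
  refine ⟨h2, ?_⟩
  intro h3
  rw [h3, norm_zero] at h1
  have h4 : 0 ≤ s ^ 2 * ‖k‖ ^ 2 := by positivity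
  linarith

theorem smV_Dr {F : Type*} [NormedAddCommGroup F] [NormedSpace ℝ F] {x : F → M} {u : F} (hx : SmAt 𝒜 x u) {p : M}
    (hp : x u ∈ (𝒜.ψ p).source) {a : F → EuclideanSpace ℝ (Fin e.q)} (ha : ContDiffAt ℝ ∞ a u) :
    SmV 𝒜 p x (fun v => Dr e (x v) (a v)) u := by
  have h1 : ContDiffAt ℝ ∞ (fderiv ℝ (fun y => 𝒜.ψ p (e.r y))) (e.i (x u)) :=
    (NHb_contDiff e hp).fderiv_right (by simp)
  have h2 : ContDiffAt ℝ ∞ (fun v => e.i (x v)) u :=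
    SmFA.comp_to (𝒜 := 𝒜) (g := e.i) (r := x) (z := u) (e.smooth_i _) hx
  have h3 : ContDiffAt ℝ ∞ (fun v => fderiv ℝ (fun y => 𝒜.ψ p (e.r y)) (e.i (x v))) u :=
    ContDiffAt.comp (g := fderiv ℝ (fun y => 𝒜.ψ p (e.r y))) (f := fun v => e.i (x v)) u h1 h2
  unfold SmV
  refine (h3.clm_apply ha).congr_of_eventuallyEq ?_
  filter_upwards [hx.cont.eventually ((𝒜.ψ p).open_source.mem_nhds hp)] with v hv
  exact (NHb_fd e hv (a v)).symm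

theorem Dr_surj (x : M) : Function.Surjective (Dr e x) := by
  have h1 : HasFDerivAt (fun y => 𝒜.ψ x (e.r y)) (Dr e x) (e.i x) :=
    ((NHb_contDiff e (𝒜.mem x)).differentiableAt (by simp)).hasFDerivAt
  have h2 : HasFDerivAt (fun u => e.i ((𝒜.ψ x).symm u)) (fderiv ℝ (fun u => e.i ((𝒜.ψ x).symm u)) 0) 0 :=
    ((e.smooth_i x).differentiableAt (by simp)).hasFDerivAt
  have h1' : HasFDerivAt (fun y => 𝒜.ψ x (e.r y)) (Dr e x) ((fun u => e.i ((𝒜.ψ x).symm u)) 0) := by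
    show HasFDerivAt (fun y => 𝒜.ψ x (e.r y)) (Dr e x) (e.i ((𝒜.ψ x).symm 0))
    rw [symm_zero' 𝒜 x]
    exact h1
  have h3 := h1'.comp 0 h2
  have h4 : HasFDerivAt ((fun y => 𝒜.ψ x (e.r y)) ∘ fun u => e.i ((𝒜.ψ x).symm u))
      (ContinuousLinearMap.id ℝ (Eu n)) 0 := by
    refine (hasFDerivAt_id (0 : Eu n)).congr_of_eventuallyEq ?_
    filter_upwards [(𝒜.ψ x).open_target.mem_nhds (sm_zero_mem 𝒜 x)] with u hu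
    show 𝒜.ψ x (e.r (e.i ((𝒜.ψ x).symm u))) = u
    rw [e.left, (𝒜.ψ x).right_inv hu]
  intro w
  refine ⟨fderiv ℝ (fun u => e.i ((𝒜.ψ x).symm u)) 0 w, ?_⟩
  exact congrArg (fun L : Eu n →L[ℝ] Eu n => L w) (h3.unique h4)

theorem kf_mem {N : ℕ} (Φ : e.Q → (Eu N →L[ℝ] EuclideanSpace ℝ (Fin e.q))) (ξ : Eu N) (c : Gs M) : kf e Φ ξ c ∈ Kc 𝒜 c :=
  Hc_mem c _

theorem kf_smul {N : ℕ} (Φ : e.Q → (Eu N →L[ℝ] EuclideanSpace ℝ (Fin e.q))) (r : ℝ) (ξ : Eu N) (c : Gs M) :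
    kf e Φ (r • ξ) c = r • kf e Φ ξ c := by
  unfold kf
  rw [map_smul, map_smul, map_smul]

theorem smV_kf (hB : Bl M) {κ : ℕ} (hk : 𝒜.HK κ) {N : ℕ} {Φ : e.Q → (Eu N →L[ℝ] EuclideanSpace ℝ (Fin e.q))} (hΦ : ContDiff ℝ ∞ Φ)
    {F : Type*} [NormedAddCommGroup F] [NormedSpace ℝ F] {σ : F → Gs M} {ξ : F → Eu N} {u : F}
    (hσ : SmGAt 𝒜 σ u) (hξ : ContDiffAt ℝ ∞ ξ u) {p : M} (hp : (σ u).1 0 ∈ (𝒜.ψ p).source) :
    SmV 𝒜 p (fun v => (σ v).1 0) (fun v => kf e Φ (ξ v) (σ v)) u := by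
  have h1 : ContDiffAt ℝ ∞ (fun v => Φ (e.EE (σ v))) u :=
    ContDiffAt.comp (g := Φ) (f := fun v => e.EE (σ v)) u hΦ.contDiffAt (e.smooth_EE hσ)
  exact smV_Hc hB hk hσ hp (smV_Dr e (x := fun v => (σ v).1 0) hσ.1 hp (h1.clm_apply hξ))

theorem rotF_kf (hB : Bl M) {κ : ℕ} (hk : 𝒜.HK κ) {N : ℕ} {Φ : e.Q → (Eu N →L[ℝ] EuclideanSpace ℝ (Fin e.q))} (hΦ : ContDiff ℝ ∞ Φ) :
    RotF 𝒜 (fun ξ => rotw 𝒜 hB (kf e Φ ξ)) (kf e Φ) := by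
  refine ⟨?_, ?_, ?_, ?_, ?_, ?_, ?_⟩
  · intro F _ _ σ ξ s u hσ hξ hs
    have hp : (σ u).1 0 ∈ (𝒜.ψ ((σ u).1 0)).source := 𝒜.mem _
    have hσ' : SmGA 𝒜 σ u := hσ
    have h1 : SmV 𝒜 ((σ u).1 0) (fun v => (σ v).1 0) (fun v => 𝒜.vel (σ v).1 0) u := hσ'.smV hB hp
    have h2 : SmV 𝒜 ((σ u).1 0) (fun v => (σ v).1 0) (fun v => kf e Φ (ξ v) (σ v)) u :=
      smV_kf e hB hk hΦ hσ hξ hp
    exact smGA_gw hB hσ.1 hp (h1.add (h2.smul hs)) (NHb_wne (kf_mem e Φ (ξ u) (σ u)) (s u)).2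
  · intro ξ c
    show gw 𝒜 hB c (𝒜.vel c.1 0 + (0 : ℝ) • kf e Φ ξ c) = c
    rw [zero_smul, add_zero]
    exact eq_of_vel' 𝒜 (gw_zero 𝒜 hB c _) (by rw [gw_vel 𝒜 hB c (vel_ne 𝒜 c), nrm_of_norm (vel_norm 𝒜 c)])
  · intro ξ s c
    exact gw_zero 𝒜 hB c _
  · intro ξ s c
    exact top_of_mem 𝒜 hB c (NHb_wne (kf_mem e Φ ξ c) s).2 ((𝒜.PV _ _).add_mem (mem_PV_self 𝒜 hB _ _)
      ((𝒜.PV _ _).smul_mem _ (mem_Kc_iff.1 (kf_mem e Φ ξ c)).1))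
  · intro r ξ s c
    show gw 𝒜 hB c (𝒜.vel c.1 0 + s • kf e Φ (r • ξ) c) = gw 𝒜 hB c (𝒜.vel c.1 0 + (r * s) • kf e Φ ξ c)
    rw [kf_smul, smul_smul, mul_comm s r]
  · intro ξ s c
    obtain ⟨h1, h2⟩ := NHb_wne (kf_mem e Φ ξ c) s
    show √(1 + s ^ 2 * ‖kf e Φ ξ c‖ ^ 2) • 𝒜.vel (gw 𝒜 hB c (𝒜.vel c.1 0 + s • kf e Φ ξ c)).1 0 =
      𝒜.vel c.1 0 + s • kf e Φ ξ c
    rw [gw_vel 𝒜 hB c h2, ← h1]
    unfold nrm
    rw [smul_smul, mul_inv_cancel₀ (norm_ne_zero_iff.2 h2), one_smul]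
  · intro ξ c
    exact (mem_Kc_iff.1 (kf_mem e Φ ξ c)).2

end Pool.Agent.Lib.MP_ccbbf6_gt.L5.NEG
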