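import Pool.Agent.Lib.MP_ccbbf6_gt.L4.PO2
import Pool.Agent.Lib.MP_ccbbf6_gt.L4.PO4a
import Pool.Agent.Lib.MP_ccbbf6_gt.L4.SM4
import Pool.Agent.Lib.MP_ccbbf6_gt.L5.NHb

/-!
# NB1: one bump gives `κ` positive directions at one geodesic (Level 5, block NEG)

PROOF of `bump_pos`. Fix `c₀`. `b : Eu κ → ambient`: linear with `ξ ↦ Dr e (c₀.1 0) (b ξ)` an isomorphism (isometry) onto `Kc c₀` (`Dr_surj`, `finrank_Kc`). For `c` near `c₀`: `H c ξ := Hc c (Dr e (c.1 0) (b ξ))`, at `c₀` injective.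
(1) For `u : Gs M → Eu n` in `Kc` write `G u c (τ, r) := 𝒜.ψ (c.1 0) ((rotw hB u τ (shift r c)).1 (-r))`. Smooth in `(τ, r)` near `(0, 0)` and in `c` (`smGA_gw`). `G (τ, 0) = 0` and `∂_r G (τ, 0) = vel c 0 - vel (rotw u τ c) 0` [the foot of `shift r c` moves with velocity `vel c 0`:
 `(rotw u τ (shift r c)).1 (-r)` = two variable chain rule: `∂_r` of `(r', r) ↦ (rotw u τ (shift r' c)).1 (-r)` at `(0,0)`: the first partial is the velocity of the foot `c r'`, the second is `- vel (rotw u τ c) 0`], so `∂_r ∂_τ G (0, 0) = - u c` (derivative of `nrm (vel + τ u)` at `τ = 0`).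
 With `JW u c r = ∂_τ G (0, r)`: `JW u c 0 = 0`, `(d/dr) JW u c r = - u c` at `r = 0`.
(2) uniformly: for `u = kf e (fun _ => b) ξ` (no bump): `Φ (r, c, ξ) := -⟪kf ξ c, JW (kf · ξ) c r⟫` is smooth in `(r, c, ξ)`, `Φ (0, ..) = 0`, `∂_r Φ (0, c₀, ξ) = ‖kf ξ c₀‖² > 0` for `‖ξ‖ = 1`: so there are `η > 0` and a neighbourhood `U` of `c₀` with `Φ (r, c, ξ) > 0` for `0 < r < η`, `c ∈ U`, `ξ ≠ 0`
 (compact unit sphere; `lower_bound` of L4/PO4a with `Q := e.Q × Eu κ`).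
(3) the bump: `{t ∈ [-π, π] | shift t c₀ ∈ U'} ⊆ (-η/2, η/2)` for a small neighbourhood `U' ⊆ U` of `c₀` (compactness of `[-π, -η/2] ∪ [η/2, π]`, `shift t c₀ ≠ c₀`, `CircAct.free`). `h : e.Q → ℝ` = `ContDiffBump` at `e.EE c₀`, `h ≥ 0`, `h (e.EE c₀) = 1`, `h (e.EE c) = 0` for `c ∉ U'`
 (`e.EE` is a closed embedding: `e.RR_EE`).
(4) `kf e (fun y => h y • b) ξ c = h (e.EE c) • kf e (fun _ => b) ξ c` =: `h c • u c`, and `JW` is homogeneous: `rotw (h • u) τ (shift r c) = rotw u (h (shift r c) * τ) (shift r c)`, so `JW (h • u) c r = h (shift r c) • JW u c r`. Hence `LamW c = ∫ r in 0..π, h c * h (shift r c) * Φ (r, c, ξ)`. For `c = shift s c₀`, `s ∈ [-π, π]`: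
 nonzero integrand only for `|s| < η/2` and `s + r ∈ (-η/2, η/2) + 2πℤ`, `r ∈ [0, π]`, hence `r < η`: the integrand is `≥ 0`, and for `s` near `0`, `r` near `0` positive: `LamW (shift s c₀) ≥ 0`, `> 0` for `s = 0`, continuous in `s`: `QW c₀ = ∫ s in 0..2π = ∫ s in -π..π > 0`.
-/

set_option autoImplicit false
set_option linter.unusedSectionVars false

open Set Filter Topology Metric Real Module
open scoped ContDiff RealInnerProductSpace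

noncomputable section

namespace Pool.Agent.Lib.MP_ccbbf6_gt.L5.NEG

open Geo L4 L4.ORI

variable {n : ℕ} {M : Type*} [MetricSpace M] [CompactSpace M] {𝒜 : SDist n M} (e : Emb n 𝒜)

section NB1

variable {N : ℕ} {R : Eu N → ℝ → Gs M → Gs M} {k : Eu N → Gs M → Eu n}

/-- the derivative of the rotations -/
private def NB1_J (𝒜 : SDist n M) (R : Eu N → ℝ → Gs M → Gs M) (ξ : Eu N) (c : Gs M) (r : ℝ) : Eu n :=
  deriv (fun τ => 𝒜.ψ (c.1 0) ((R ξ τ (shift r c)).1 (-r))) 0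

private theorem NB1_foot0 (hR : RotF 𝒜 R k) (ξ : Eu N) (c : Gs M) (b : ℝ) :
    (R ξ 0 (shift b c)).1 (-b) = c.1 0 := by
  rw [hR.zero]
  change c.1 (-b + b) = c.1 0
  rw [neg_add_cancel]

private theorem NB1_sm (hB : Bl M) (hR : RotF 𝒜 R k) {F : Type} [NormedAddCommGroup F] [NormedSpace ℝ F]
    {σ : F → Gs M} {ξ : F → Eu N} {τ r r' : F → ℝ} {u : F} (hσ : SmGAt 𝒜 σ u) (hξ : ContDiffAt ℝ ∞ ξ u)
    (hτ : ContDiffAt ℝ ∞ τ u) (hr : ContDiffAt ℝ ∞ r u) (hr' : ContDiffAt ℝ ∞ r' u) :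
    SmAt 𝒜 (fun v => (R (ξ v) (τ v) (shift (r v) (σ v))).1 (-(r' v))) u :=
  (hR.smooth (hσ.shift hB hr) hξ hτ).ev hB (t := fun v => -(r' v)) hr'.neg

private theorem NB1_chart {α : ℝ → M} {p x : M} (hα : ContinuousAt α 0) (h0 : α 0 = x)
    (hx : x ∈ (𝒜.ψ p).source) {v : Eu n} (h : HasDerivAt (fun t => 𝒜.ψ x (α t)) v 0) :
    HasDerivAt (fun t => 𝒜.ψ p (α t)) (L4.ORI.CC 𝒜 p x v) 0 := by
  have h2 : HasFDerivAt (𝒜.ch p x) (L4.ORI.CC 𝒜 p x) (𝒜.ψ x (α 0)) := by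
    rw [h0, 𝒜.zero]
    exact hasFDerivAt_ch 𝒜 hx
  have h3 := h2.comp_hasDerivAt 0 h
  refine h3.congr_of_eventuallyEq ?_
  have h4 : (𝒜.ψ x).source ∈ 𝓝 (α 0) := by
    rw [h0]
    exact (𝒜.ψ x).open_source.mem_nhds (𝒜.mem x)
  filter_upwards [hα.eventually h4] with t ht
  show 𝒜.ψ p (α t) = 𝒜.ch p x (𝒜.ψ x (α t))
  unfold SDist.ch
  rw [(𝒜.ψ x).left_inv ht]

private theorem NB1_smc (hB : Bl M) (hR : RotF 𝒜 R k) (ξ : Eu N) (c : Gs M) (b : ℝ) (s : ℝ) :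
    SmAt 𝒜 (fun τ : ℝ => (R ξ τ (shift b c)).1 (-b)) s :=
  NB1_sm hB hR (σ := fun _ : ℝ => c) (ξ := fun _ : ℝ => ξ) (τ := fun τ : ℝ => τ) (r := fun _ : ℝ => b)
    (r' := fun _ : ℝ => b) (smGAt_const c s) contDiffAt_const contDiffAt_id contDiffAt_const contDiffAt_const

private theorem NB1_hasJ (hB : Bl M) (hR : RotF 𝒜 R k) (ξ : Eu N) (c : Gs M) (b : ℝ) :
    HasDerivAt (fun τ => 𝒜.ψ (c.1 0) ((R ξ τ (shift b c)).1 (-b))) (NB1_J 𝒜 R ξ c b) 0 := by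
  have h2 := (NB1_smc hB hR ξ c b 0).2
  simp only [NB1_foot0 hR ξ c b] at h2
  exact (h2.differentiableAt (by simp)).hasDerivAt

private theorem NB1_smV_J (hB : Bl M) (hR : RotF 𝒜 R k) {F : Type} [NormedAddCommGroup F] [NormedSpace ℝ F]
    {σ : F → Gs M} {ξ : F → Eu N} {r : F → ℝ} {u : F} (hσ : SmGAt 𝒜 σ u) (hξ : ContDiffAt ℝ ∞ ξ u)
    (hr : ContDiffAt ℝ ∞ r u) {p : M} (hp : (σ u).1 0 ∈ (𝒜.ψ p).source) :
    SmV 𝒜 p (fun v => (σ v).1 0) (fun v => NB1_J 𝒜 R (ξ v) (σ v) (r v)) u := by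
  have hr1 : ContDiffAt ℝ ∞ (fun z : F × ℝ => r z.1) (u, 0) :=
    ContDiffAt.comp (g := r) (f := fun z : F × ℝ => z.1) (u, 0) hr contDiffAt_fst
  have h1 : SmAt 𝒜 (fun z : F × ℝ => (R (ξ z.1) z.2 (shift (r z.1) (σ z.1))).1 (-(r z.1))) (u, 0) :=
    NB1_sm hB hR (σ := fun z : F × ℝ => σ z.1) (ξ := fun z : F × ℝ => ξ z.1) (τ := fun z : F × ℝ => z.2)
      (r := fun z : F × ℝ => r z.1) (r' := fun z => r z.1)
      (SmGAt.comp (σ := σ) (f := fun z : F × ℝ => z.1) (v := (u, 0)) hσ contDiffAt_fst)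
      (ContDiffAt.comp (g := ξ) (f := fun z : F × ℝ => z.1) (u, 0) hξ contDiffAt_fst) contDiffAt_snd hr1 hr1
  have h2 : ContDiffAt ℝ ∞ (fun z : F × ℝ => 𝒜.ψ p ((R (ξ z.1) z.2 (shift (r z.1) (σ z.1))).1 (-(r z.1)))) (u, 0) := by
    refine h1.chart ?_
    rw [NB1_foot0 hR]
    exact hp
  have h3 := PO.contDiffAt_deriv2'
    (g := fun z : F × ℝ => 𝒜.ψ p ((R (ξ z.1) z.2 (shift (r z.1) (σ z.1))).1 (-(r z.1)))) h2
  unfold SmV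
  refine h3.congr_of_eventuallyEq ?_
  filter_upwards [hσ.1.1.eventually ((𝒜.ψ p).open_source.mem_nhds hp)] with v hv
  exact (NB1_chart (NB1_smc hB hR (ξ v) (σ v) (r v) 0).1 (NB1_foot0 hR _ _ _) hv (NB1_hasJ hB hR _ _ _)).deriv.symm

private theorem NB1_J_zero (hR : RotF 𝒜 R k) (ξ : Eu N) (c : Gs M) : NB1_J 𝒜 R ξ c 0 = 0 := by
  have h : (fun τ => 𝒜.ψ (c.1 0) ((R ξ τ (shift 0 c)).1 (-0))) = fun _ => (0 : Eu n) := by
    funext τ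
    rw [neg_zero, hR.foot, shift_zero, 𝒜.zero]
  unfold NB1_J
  rw [h, deriv_const]

private theorem NB1_sm3 (hB : Bl M) (hR : RotF 𝒜 R k) (ξ : Eu N) (c : Gs M) (z : ℝ × ℝ × ℝ) :
    SmAt 𝒜 (fun z : ℝ × ℝ × ℝ => (R ξ z.2.2 (shift z.1 c)).1 (-z.2.1)) z :=
  NB1_sm hB hR (σ := fun _ : ℝ × ℝ × ℝ => c) (ξ := fun _ : ℝ × ℝ × ℝ => ξ) (τ := fun z : ℝ × ℝ × ℝ => z.2.2)
    (r := fun z : ℝ × ℝ × ℝ => z.1) (r' := fun z : ℝ × ℝ × ℝ => z.2.1) (smGAt_const c z) contDiffAt_const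
    (by fun_prop) (by fun_prop) (by fun_prop)

/-- the derivative in `b` at `b = 0` -/
private theorem NB1_db (hB : Bl M) (hR : RotF 𝒜 R k) (ξ : Eu N) (c : Gs M) (τ : ℝ) :
    fderiv ℝ (fun z : ℝ × ℝ => 𝒜.ψ (c.1 0) ((R ξ z.2 (shift z.1 c)).1 (-z.1))) (0, τ) (1, 0) =
      𝒜.vel c.1 0 - 𝒜.vel (R ξ τ c).1 0 := by
  have e0 : (R ξ τ (shift 0 c)).1 (-0) = c.1 0 := by rw [neg_zero, hR.foot, shift_zero]
  have h3 := (NB1_sm3 hB hR ξ c (0, 0, τ)).2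
  simp only [e0] at h3
  have h3' := (h3.differentiableAt (by simp)).hasFDerivAt
  obtain ⟨Y, hY⟩ : ∃ Y : ℝ × ℝ × ℝ → Eu n, Y = fun z : ℝ × ℝ × ℝ => 𝒜.ψ (c.1 0) ((R ξ z.2.2 (shift z.1 c)).1 (-z.2.1)) :=
    ⟨_, rfl⟩
  rw [← hY] at h3'
  have h4 : HasFDerivAt (fun z : ℝ × ℝ => ((z.1, z.1, z.2) : ℝ × ℝ × ℝ))
      ((ContinuousLinearMap.fst ℝ ℝ ℝ).prod ((ContinuousLinearMap.fst ℝ ℝ ℝ).prod (ContinuousLinearMap.snd ℝ ℝ ℝ))) (0, τ) :=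
    ContinuousLinearMap.hasFDerivAt ((ContinuousLinearMap.fst ℝ ℝ ℝ).prod
      ((ContinuousLinearMap.fst ℝ ℝ ℝ).prod (ContinuousLinearMap.snd ℝ ℝ ℝ)))
  have h5 : HasFDerivAt (fun z : ℝ × ℝ => Y (z.1, z.1, z.2)) _ (0, τ) :=
    HasFDerivAt.comp (g := Y) (f := fun z : ℝ × ℝ => ((z.1, z.1, z.2) : ℝ × ℝ × ℝ)) ((0 : ℝ), τ) h3' h4
  have h6 : (fun z : ℝ × ℝ => 𝒜.ψ (c.1 0) ((R ξ z.2 (shift z.1 c)).1 (-z.1))) = fun z : ℝ × ℝ => Y (z.1, z.1, z.2) := by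
    rw [hY]
  rw [h6, h5.fderiv]
  have h7 : ((fderiv ℝ Y (0, 0, τ)).comp ((ContinuousLinearMap.fst ℝ ℝ ℝ).prod
      ((ContinuousLinearMap.fst ℝ ℝ ℝ).prod (ContinuousLinearMap.snd ℝ ℝ ℝ)))) ((1, 0) : ℝ × ℝ) =
      fderiv ℝ Y (0, 0, τ) (1, 0, 0) + fderiv ℝ Y (0, 0, τ) (0, 1, 0) := by
    rw [← map_add]
    simp
  rw [h7]
  -- first variable
  have l1 : HasDerivAt (fun b : ℝ => ((b, 0, τ) : ℝ × ℝ × ℝ)) ((1, 0, 0) : ℝ × ℝ × ℝ) 0 :=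
    (hasDerivAt_id (0 : ℝ)).prodMk ((hasDerivAt_const (0 : ℝ) (0 : ℝ)).prodMk (hasDerivAt_const (0 : ℝ) τ))
  have l2 : HasDerivAt (fun b : ℝ => ((0, b, τ) : ℝ × ℝ × ℝ)) ((0, 1, 0) : ℝ × ℝ × ℝ) 0 :=
    (hasDerivAt_const (0 : ℝ) (0 : ℝ)).prodMk ((hasDerivAt_id (0 : ℝ)).prodMk (hasDerivAt_const (0 : ℝ) τ))
  have m1 : HasDerivAt (fun b : ℝ => Y (b, 0, τ)) (fderiv ℝ Y (0, 0, τ) (1, 0, 0)) 0 :=
    HasFDerivAt.comp_hasDerivAt (f := fun b : ℝ => ((b, 0, τ) : ℝ × ℝ × ℝ)) 0 h3' l1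
  have m2 : HasDerivAt (fun b : ℝ => Y (0, b, τ)) (fderiv ℝ Y (0, 0, τ) (0, 1, 0)) 0 :=
    HasFDerivAt.comp_hasDerivAt (f := fun b : ℝ => ((0, b, τ) : ℝ × ℝ × ℝ)) 0 h3' l2
  have n1 : (fun b : ℝ => Y (b, 0, τ)) = fun b : ℝ => 𝒜.ψ (c.1 0) (c.1 b) := by
    rw [hY]
    funext b
    simp only [neg_zero]
    rw [hR.foot]
    change 𝒜.ψ (c.1 0) (c.1 (0 + b)) = _
    rw [zero_add]
  have n2 : (fun b : ℝ => Y (0, b, τ)) = fun b : ℝ => 𝒜.ψ (c.1 0) ((R ξ τ c).1 (-b)) := by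
    rw [hY]
    funext b
    simp only [shift_zero]
  rw [n1] at m1
  rw [n2] at m2
  have p1 : HasDerivAt (fun b : ℝ => 𝒜.ψ (c.1 0) (c.1 b)) (𝒜.vel c.1 0) 0 := (IsGeo.exists_vel 𝒜 c.2 0).2
  have p2 : HasDerivAt (fun b : ℝ => 𝒜.ψ (c.1 0) ((R ξ τ c).1 b)) (𝒜.vel (R ξ τ c).1 0) (-0) := by
    have := (IsGeo.exists_vel 𝒜 (R ξ τ c).2 0).2
    unfold SDist.IsVel at this
    rw [hR.foot] at this
    rwa [neg_zero]
  have p3 : HasDerivAt (fun b : ℝ => 𝒜.ψ (c.1 0) ((R ξ τ c).1 (-b))) (-𝒜.vel (R ξ τ c).1 0) 0 := by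
    have := HasDerivAt.scomp (0 : ℝ) p2 (hasDerivAt_neg (0 : ℝ))
    rwa [neg_one_smul] at this
  rw [m1.unique p1, m2.unique p3]
  abel

private theorem NB1_vel (hR : RotF 𝒜 R k) (ξ : Eu N) (c : Gs M) :
    HasDerivAt (fun s => 𝒜.vel (R ξ s c).1 0) (k ξ c) 0 := by
  have h0 : ∀ s : ℝ, 0 < 1 + s ^ 2 * ‖k ξ c‖ ^ 2 := fun s => by positivity
  have h1 : ∀ s : ℝ, 𝒜.vel (R ξ s c).1 0 = (√(1 + s ^ 2 * ‖k ξ c‖ ^ 2))⁻¹ • (𝒜.vel c.1 0 + s • k ξ c) := by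
    intro s
    rw [← hR.vel ξ s c, smul_smul, inv_mul_cancel₀ (Real.sqrt_ne_zero'.2 (h0 s)), one_smul]
  have h2 : HasDerivAt (fun s : ℝ => 1 + s ^ 2 * ‖k ξ c‖ ^ 2) 0 0 := by
    have := (((hasDerivAt_id (0 : ℝ)).pow 2).mul_const (‖k ξ c‖ ^ 2)).const_add 1
    simpa using this
  have h3 : HasDerivAt (fun s : ℝ => √(1 + s ^ 2 * ‖k ξ c‖ ^ 2)) 0 0 := by
    have := h2.sqrt (h0 0).ne'
    simpa using this
  have h4 : HasDerivAt (fun s : ℝ => (√(1 + s ^ 2 * ‖k ξ c‖ ^ 2))⁻¹) 0 0 := by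
    have := h3.inv (Real.sqrt_ne_zero'.2 (h0 0))
    rw [neg_zero, zero_div] at this
    exact this
  have h5 : HasDerivAt (fun s : ℝ => 𝒜.vel c.1 0 + s • k ξ c) (k ξ c) 0 := by
    have := ((hasDerivAt_id (0 : ℝ)).smul_const (k ξ c)).const_add (𝒜.vel c.1 0)
    simpa using this
  have h6 := h4.smul h5
  refine (h6.congr_deriv ?_).congr_of_eventuallyEq (Eventually.of_forall h1)
  simp

private theorem NB1_g_deriv (hB : Bl M) (hR : RotF 𝒜 R k) (ξ : Eu N) (c : Gs M) :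
    HasDerivAt (fun b => ⟪k ξ c, NB1_J 𝒜 R ξ c b⟫) (-‖k ξ c‖ ^ 2) 0 := by
  have hs : ContDiffAt ℝ ∞ (fun z : ℝ × ℝ => 𝒜.ψ (c.1 0) ((R ξ z.2 (shift z.1 c)).1 (-z.1))) (0, 0) := by
    have h := SmAt.comp (g := fun z : ℝ × ℝ × ℝ => (R ξ z.2.2 (shift z.1 c)).1 (-z.2.1))
      (f := fun z : ℝ × ℝ => ((z.1, z.1, z.2) : ℝ × ℝ × ℝ)) (v := ((0 : ℝ), (0 : ℝ))) (NB1_sm3 hB hR ξ c _) (by fun_prop)
    have h1 := h.2
    simp only [NB1_foot0 hR ξ c 0] at h1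
    exact h1
  obtain ⟨Y, hY⟩ : ∃ Y : ℝ × ℝ → Eu n, Y = fun z : ℝ × ℝ => 𝒜.ψ (c.1 0) ((R ξ z.2 (shift z.1 c)).1 (-z.1)) := ⟨_, rfl⟩
  have hs' : ∀ b : ℝ, ContDiffAt ℝ ∞ (fun z : ℝ × ℝ => 𝒜.ψ (c.1 0) ((R ξ z.2 (shift z.1 c)).1 (-z.1))) (b, 0) := by
    intro b
    have h := SmAt.comp (g := fun z : ℝ × ℝ × ℝ => (R ξ z.2.2 (shift z.1 c)).1 (-z.2.1))
      (f := fun z : ℝ × ℝ => ((z.1, z.1, z.2) : ℝ × ℝ × ℝ)) (v := (b, (0 : ℝ))) (NB1_sm3 hB hR ξ c _) (by fun_prop)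
    have h1 := h.2
    simp only [NB1_foot0 hR ξ c b] at h1
    exact h1
  have h1 : ∀ b, NB1_J 𝒜 R ξ c b = fderiv ℝ Y (b, 0) (0, 1) := by
    intro b
    have h := (hs' b).differentiableAt (by simp)
    rw [← hY] at h
    have h1 : HasDerivAt (fun τ : ℝ => (b, τ)) ((0 : ℝ), (1 : ℝ)) 0 := (hasDerivAt_const 0 b).prodMk (hasDerivAt_id 0)
    have h2 := HasFDerivAt.comp_hasDerivAt (f := fun τ : ℝ => (b, τ)) 0 h.hasFDerivAt h1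
    refine ((NB1_hasJ hB hR ξ c b).unique ?_)
    rw [hY] at h2 ⊢
    exact h2
  have h2 : ∀ τ, fderiv ℝ Y (0, τ) (1, 0) = 𝒜.vel c.1 0 - 𝒜.vel (R ξ τ c).1 0 := by
    intro τ
    rw [hY]
    exact NB1_db hB hR ξ c τ
  rw [← hY] at hs
  have hs2 : ContDiffAt ℝ 2 Y (0, 0) := hs.of_le two_le_infty
  have hd : HasFDerivAt (fderiv ℝ Y) (fderiv ℝ (fderiv ℝ Y) (0, 0)) (0, 0) :=
    ((hs2.fderiv_right (m := 1) (by norm_num)).differentiableAt (by norm_num)).hasFDerivAt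
  have l1 : HasDerivAt (fun b : ℝ => ((b, 0) : ℝ × ℝ)) ((1, 0) : ℝ × ℝ) 0 :=
    (hasDerivAt_id (0 : ℝ)).prodMk (hasDerivAt_const (0 : ℝ) (0 : ℝ))
  have l2 : HasDerivAt (fun τ : ℝ => ((0, τ) : ℝ × ℝ)) ((0, 1) : ℝ × ℝ) 0 :=
    (hasDerivAt_const (0 : ℝ) (0 : ℝ)).prodMk (hasDerivAt_id (0 : ℝ))
  have k1 : HasDerivAt (fun b : ℝ => fderiv ℝ Y (b, 0)) (fderiv ℝ (fderiv ℝ Y) (0, 0) (1, 0)) 0 :=
    HasFDerivAt.comp_hasDerivAt (f := fun b : ℝ => ((b, 0) : ℝ × ℝ)) 0 hd l1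
  have k2 : HasDerivAt (fun τ : ℝ => fderiv ℝ Y (0, τ)) (fderiv ℝ (fderiv ℝ Y) (0, 0) (0, 1)) 0 :=
    HasFDerivAt.comp_hasDerivAt (f := fun τ : ℝ => ((0, τ) : ℝ × ℝ)) 0 hd l2
  have k1' := k1.clm_apply (hasDerivAt_const (0 : ℝ) ((0, 1) : ℝ × ℝ))
  have k2' := k2.clm_apply (hasDerivAt_const (0 : ℝ) ((1, 0) : ℝ × ℝ))
  rw [map_zero, add_zero] at k1' k2'
  have k3 : HasDerivAt (fun τ : ℝ => fderiv ℝ Y (0, τ) (1, 0)) (-k ξ c) 0 := by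
    have k4 : HasDerivAt (fun τ => 𝒜.vel c.1 0 - 𝒜.vel (R ξ τ c).1 0) (-k ξ c) 0 := (NB1_vel hR ξ c).const_sub _
    refine k4.congr_of_eventuallyEq (Eventually.of_forall fun τ => ?_)
    exact h2 τ
  have k5 := k2'.unique k3
  have hsym : fderiv ℝ (fderiv ℝ Y) (0, 0) (1, 0) (0, 1) = fderiv ℝ (fderiv ℝ Y) (0, 0) (0, 1) (1, 0) :=
    (hs2.isSymmSndFDerivAt (by simp)).eq (1, 0) (0, 1)
  rw [hsym, k5] at k1'
  have k6 := (hasDerivAt_const (0 : ℝ) (k ξ c)).inner ℝ k1'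
  simp only [inner_zero_left, add_zero, inner_neg_right, real_inner_self_eq_norm_sq] at k6
  have k7 : (fun b => ⟪k ξ c, NB1_J 𝒜 R ξ c b⟫) = fun b => ⟪k ξ c, fderiv ℝ Y (b, 0) (0, 1)⟫ := by
    funext b
    rw [h1]
  rw [k7]
  exact k6

end NB1

private theorem NB1_rotw (hB : Bl M) (f : Gs M → ℝ) (w : Gs M → Eu n) (τ : ℝ) (c : Gs M) :
    rotw 𝒜 hB (fun c => f c • w c) τ c = rotw 𝒜 hB w (f c * τ) c := by
  unfold rotw
  rw [smul_smul, mul_comm]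

private theorem NB1_JW (hB : Bl M) (f : Gs M → ℝ) (w : Gs M → Eu n) (c : Gs M) (r : ℝ) :
    JW 𝒜 hB (fun c => f c • w c) c r = f (shift r c) • JW 𝒜 hB w c r := by
  unfold JW
  have h := deriv_comp_mul_left (f (shift r c)) (fun τ => 𝒜.ψ (c.1 0) ((rotw 𝒜 hB w τ (shift r c)).1 (-r))) 0
  rw [mul_zero] at h
  rw [← h]
  refine congrArg (fun g : ℝ → Eu n => deriv g 0) (funext fun τ => ?_)
  rw [NB1_rotw]

/-- minus the pairing -/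
private def NB1_P (hB : Bl M) (w : Gs M → Eu n) (c : Gs M) (r : ℝ) : ℝ := -⟪w c, JW 𝒜 hB w c r⟫

private theorem NB1_P_smul (hB : Bl M) (f : Gs M → ℝ) (w : Gs M → Eu n) (c : Gs M) (r : ℝ) :
    NB1_P (𝒜 := 𝒜) hB (fun c => f c • w c) c r = f c * f (shift r c) * NB1_P (𝒜 := 𝒜) hB w c r := by
  unfold NB1_P
  rw [NB1_JW, real_inner_smul_left, real_inner_smul_right]
  ring

private theorem NB1_kf_smul {κ : ℕ} (b : Eu κ →L[ℝ] EuclideanSpace ℝ (Fin e.q)) (t : ℝ) (ξ : Eu κ) :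
    kf e (fun _ => b) (t • ξ) = fun c => (fun _ : Gs M => t) c • kf e (fun _ => b) ξ c := by
  funext c
  exact kf_smul e _ t ξ c

private theorem NB1_kf_bump {κ : ℕ} (h : e.Q → ℝ) (b : Eu κ →L[ℝ] EuclideanSpace ℝ (Fin e.q)) (ξ : Eu κ) :
    kf e (fun y => h y • b) ξ = fun c => (fun c : Gs M => h (e.EE c)) c • kf e (fun _ => b) ξ c := by
  funext c
  unfold kf
  simp only [FunLike.coe_smul, Pi.smul_apply, map_smul]

private theorem NB1_b (hB : Bl M) {κ : ℕ} (hk : 𝒜.HK κ) (c₀ : Gs M) :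
    ∃ b : Eu κ →L[ℝ] EuclideanSpace ℝ (Fin e.q), ∀ ξ, ξ ≠ 0 → kf e (fun _ => b) ξ c₀ ≠ 0 := by
  obtain ⟨g, hg⟩ := LinearMap.exists_rightInverse_of_surjective (Dr e (c₀.1 0)).toLinearMap
    (LinearMap.range_eq_top.2 (Dr_surj e (c₀.1 0)))
  let L : Eu κ ≃ₗ[ℝ] Kc 𝒜 c₀ := LinearEquiv.ofFinrankEq (Eu κ) (Kc 𝒜 c₀)
    (by rw [finrank_euclideanSpace_fin, finrank_Kc hB hk])
  refine ⟨LinearMap.toContinuousLinearMap (g ∘ₗ (Kc 𝒜 c₀).subtype ∘ₗ L.toLinearMap), fun ξ hξ h => hξ ?_⟩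
  have h1 : Dr e (c₀.1 0) (g (L ξ : Eu n)) = (L ξ : Eu n) := congrArg (fun T : Eu n →ₗ[ℝ] Eu n => T (L ξ : Eu n)) hg
  have h2 : kf e (fun _ => LinearMap.toContinuousLinearMap (g ∘ₗ (Kc 𝒜 c₀).subtype ∘ₗ L.toLinearMap)) ξ c₀ = (L ξ : Eu n) := by
    unfold kf
    change Hc 𝒜 c₀ (Dr e (c₀.1 0) (g (L ξ : Eu n))) = _
    rw [h1, Hc_of_mem (L ξ).2]
  rw [h2] at h
  exact L.map_eq_zero_iff.1 (Subtype.ext h)

/-- the pairing is smooth -/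
private theorem NB1_P_smooth (hB : Bl M) {κ : ℕ} (hk : 𝒜.HK κ) (b : Eu κ →L[ℝ] EuclideanSpace ℝ (Fin e.q))
    {F : Type} [NormedAddCommGroup F] [NormedSpace ℝ F] {σ : F → Gs M} {ξ : F → Eu κ} {r : F → ℝ} {u : F}
    (hσ : SmGAt 𝒜 σ u) (hξ : ContDiffAt ℝ ∞ ξ u) (hr : ContDiffAt ℝ ∞ r u) :
    ContDiffAt ℝ ∞ (fun v => NB1_P (𝒜 := 𝒜) hB (kf e (fun _ => b) (ξ v)) (σ v) (r v)) u := by
  have hR := rotF_kf e hB hk (Φ := fun _ => b) contDiff_const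
  have hp : (σ u).1 0 ∈ (𝒜.ψ ((σ u).1 0)).source := 𝒜.mem _
  have h1 := NB1_smV_J hB hR hσ hξ hr hp
  have h2 := smV_kf e hB hk (Φ := fun _ => b) contDiff_const hσ hξ hp
  exact (SmV.inner hσ.1 hp h2 h1).neg

private theorem NB1_unif [Nonempty (Gs M)] (hB : Bl M) {κ : ℕ} (hk : 𝒜.HK κ) (c₀ : Gs M)
    (b : Eu κ →L[ℝ] EuclideanSpace ℝ (Fin e.q)) (hb : ∀ ξ, ξ ≠ 0 → kf e (fun _ => b) ξ c₀ ≠ 0) :
    ∃ ε : ℝ, 0 < ε ∧ ∀ r, 0 < r → r < ε → ∀ c : Gs M, dist (e.EE c) (e.EE c₀) < ε → ∀ ξ : Eu κ, ξ ≠ 0 →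
      0 < NB1_P (𝒜 := 𝒜) hB (kf e (fun _ => b) ξ) c r := by
  have hR := rotF_kf e hB hk (Φ := fun _ => b) contDiff_const
  have h1 : ∀ ξ₀ ∈ sphere (0 : Eu κ) 1, ∀ᶠ z : (ℝ × e.Q) × Eu κ in 𝓝 (((0 : ℝ), e.EE c₀), ξ₀), 0 < z.1.1 →
      0 < NB1_P (𝒜 := 𝒜) hB (kf e (fun _ => b) z.2) (e.RR z.1.2) z.1.1 := by
    intro ξ₀ hξ₀
    have hξn : ξ₀ ≠ 0 := by
      rintro rfl
      simp at hξ₀
    have h2 : ContDiffAt ℝ ∞ (fun z : ℝ × (e.Q × Eu κ) =>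
        NB1_P (𝒜 := 𝒜) hB (kf e (fun _ => b) z.2.2) (e.RR z.2.1) z.1) (0, (e.EE c₀, ξ₀)) :=
      NB1_P_smooth e hB hk b (σ := fun z : ℝ × (e.Q × Eu κ) => e.RR z.2.1) (ξ := fun z => z.2.2) (r := fun z => z.1)
        (SmGAt.comp (σ := e.RR) (f := fun z : ℝ × (e.Q × Eu κ) => z.2.1) (v := (0, (e.EE c₀, ξ₀)))
          (e.smG_RR hB (e.EE_mem c₀)) (by fun_prop)) (by fun_prop) (by fun_prop)
    have h3 := PO.lower_bound (Q := e.Q × Eu κ) h2 (Eventually.of_forall fun y => by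
        show -⟪kf e (fun _ => b) y.2 (e.RR y.1), NB1_J 𝒜 (fun ξ => rotw 𝒜 hB (kf e (fun _ => b) ξ)) y.2 (e.RR y.1) 0⟫ = 0
        rw [NB1_J_zero hR, inner_zero_right, neg_zero])
      (D := ‖kf e (fun _ => b) ξ₀ c₀‖ ^ 2) (by
        have h4 := (NB1_g_deriv hB hR ξ₀ c₀).neg
        rw [neg_neg] at h4
        refine h4.congr_of_eventuallyEq (Eventually.of_forall fun θ => ?_)
        show NB1_P (𝒜 := 𝒜) hB (kf e (fun _ => b) ξ₀) (e.RR (e.EE c₀)) θ = _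
        rw [e.RR_EE hB]
        rfl) (by
        have := norm_pos_iff.2 (hb ξ₀ hξn)
        positivity)
    have h5 : Tendsto (fun z : (ℝ × e.Q) × Eu κ => ((z.1.1, (z.1.2, z.2)) : ℝ × (e.Q × Eu κ)))
        (𝓝 (((0 : ℝ), e.EE c₀), ξ₀)) (𝓝 ((0 : ℝ), (e.EE c₀, ξ₀))) :=
      Continuous.tendsto (f := fun z : (ℝ × e.Q) × Eu κ => ((z.1.1, (z.1.2, z.2)) : ℝ × (e.Q × Eu κ)))
        (by fun_prop) (((0 : ℝ), e.EE c₀), ξ₀)
    filter_upwards [h5.eventually h3] with z hz hz0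
    have h6 : 0 < ‖kf e (fun _ => b) ξ₀ c₀‖ ^ 2 := by
      have := norm_pos_iff.2 (hb ξ₀ hξn)
      positivity
    exact lt_of_lt_of_le (by positivity) (hz hz0.le)
  have h2 := (isCompact_sphere (0 : Eu κ) 1).eventually_forall_of_forall_eventually
    (P := fun (x : ℝ × e.Q) (ξ : Eu κ) => 0 < x.1 → 0 < NB1_P (𝒜 := 𝒜) hB (kf e (fun _ => b) ξ) (e.RR x.2) x.1) h1
  obtain ⟨ε, hε, hb2⟩ := Metric.eventually_nhds_iff.1 h2
  refine ⟨ε, hε, fun r hr0 hr c hc ξ hξ => ?_⟩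
  have hn : ‖ξ‖ ≠ 0 := norm_ne_zero_iff.2 hξ
  have h3 := @hb2 (r, e.EE c) (by
    rw [Prod.dist_eq, max_lt_iff]
    refine ⟨?_, hc⟩
    rw [Real.dist_eq, sub_zero, abs_of_pos hr0]
    exact hr) (‖ξ‖⁻¹ • ξ) (by
    rw [mem_sphere_zero_iff_norm, norm_smul, norm_inv, norm_norm, inv_mul_cancel₀ hn]) hr0
  simp only at h3
  rw [e.RR_EE hB] at h3
  have h4 : ξ = ‖ξ‖ • (‖ξ‖⁻¹ • ξ) := by rw [smul_smul, mul_inv_cancel₀ hn, one_smul]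
  rw [h4, NB1_kf_smul, NB1_P_smul]
  positivity

/-- the main computation -/
private theorem NB1_main (hB : Bl M) {κ : ℕ} (hk : 𝒜.HK κ) (c₀ : Gs M) (b : Eu κ →L[ℝ] EuclideanSpace ℝ (Fin e.q))
    {ε η δ : ℝ} (hε : 0 < ε) (hη : 0 < η) (hηε : η ≤ ε) (hηπ : η ≤ π) (hδε : δ ≤ ε) {χ : e.Q → ℝ} (hχ : Continuous χ)
    (hχ0 : ∀ y, 0 ≤ χ y) (hχ1 : χ (e.EE c₀) = 1) (hχs : ∀ y, χ y ≠ 0 → dist y (e.EE c₀) < δ)
    (hs : ∀ t, |t| ≤ π → dist (e.EE (shift t c₀)) (e.EE c₀) < δ → |t| < η / 2) (ξ : Eu κ)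
    (hP : ∀ r, 0 < r → r < ε → ∀ c : Gs M, dist (e.EE c) (e.EE c₀) < ε → 0 < NB1_P (𝒜 := 𝒜) hB (kf e (fun _ => b) ξ) c r) :
    0 < QW 𝒜 hB (kf e (fun y => χ y • b) ξ) c₀ := by
  have hR := rotF_kf e hB hk (Φ := fun _ => b) contDiff_const
  have hπ := Real.pi_pos
  -- the integrand
  obtain ⟨g, hg⟩ : ∃ g : ℝ → ℝ → ℝ, g = fun s r => χ (e.EE (shift s c₀)) * χ (e.EE (shift (r + s) c₀)) *
      NB1_P (𝒜 := 𝒜) hB (kf e (fun _ => b) ξ) (shift s c₀) r := ⟨_, rfl⟩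
  have hLam : ∀ s, LamW 𝒜 hB (kf e (fun y => χ y • b) ξ) (shift s c₀) = ∫ r in (0 : ℝ)..π, g s r := by
    intro s
    unfold LamW
    rw [← intervalIntegral.integral_neg]
    refine intervalIntegral.integral_congr fun r _ => ?_
    have h1 := NB1_P_smul (𝒜 := 𝒜) hB (fun c : Gs M => χ (e.EE c)) (kf e (fun _ => b) ξ) (shift s c₀) r
    have h2 : shift r (shift s c₀) = shift (r + s) c₀ := (shift_add r s c₀).symm
    rw [hg]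
    show -⟪kf e (fun y => χ y • b) ξ (shift s c₀), JW 𝒜 hB (kf e (fun y => χ y • b) ξ) (shift s c₀) r⟫ =
      χ (e.EE (shift s c₀)) * χ (e.EE (shift (r + s) c₀)) * NB1_P (𝒜 := 𝒜) hB (kf e (fun _ => b) ξ) (shift s c₀) r
    rw [NB1_kf_bump, ← h2, ← h1]
    rfl
  -- continuity
  have hshift : Continuous (fun t : ℝ => shift t c₀) :=
    gs_continuous_shift.comp (continuous_id.prodMk continuous_const)
  have hgc : Continuous g.uncurry := by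
    rw [hg]
    have c1 : Continuous (fun z : ℝ × ℝ => χ (e.EE (shift z.1 c₀))) :=
      hχ.comp (e.continuous_EE.comp (hshift.comp continuous_fst))
    have c2 : Continuous (fun z : ℝ × ℝ => χ (e.EE (shift (z.2 + z.1) c₀))) :=
      hχ.comp (e.continuous_EE.comp (hshift.comp (by fun_prop)))
    have c3 : Continuous (fun z : ℝ × ℝ => NB1_P (𝒜 := 𝒜) hB (kf e (fun _ => b) ξ) (shift z.1 c₀) z.2) := by
      rw [continuous_iff_continuousAt]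
      intro z
      exact (NB1_P_smooth e hB hk b (σ := fun z : ℝ × ℝ => shift z.1 c₀) (ξ := fun _ => ξ) (r := fun z => z.2)
        ((smGAt_const c₀ z).shift hB contDiffAt_fst) contDiffAt_const contDiffAt_snd).continuousAt
    exact (c1.mul c2).mul c3
  have hGc : Continuous (fun s => ∫ r in (0 : ℝ)..π, g s r) :=
    intervalIntegral.continuous_parametric_intervalIntegral_of_continuous' hgc 0 π
  have hper : Function.Periodic (fun s => ∫ r in (0 : ℝ)..π, g s r) (2 * π) := by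
    intro s
    simp only
    rw [← hLam, ← hLam, gs_shift_per 𝒜 hB]
  -- signs
  have hP0 : ∀ c : Gs M, NB1_P (𝒜 := 𝒜) hB (kf e (fun _ => b) ξ) c 0 = 0 := by
    intro c
    show -⟪kf e (fun _ => b) ξ c, NB1_J 𝒜 (fun ξ => rotw 𝒜 hB (kf e (fun _ => b) ξ)) ξ c 0⟫ = 0
    rw [NB1_J_zero hR, inner_zero_right, neg_zero]
  have hnn : ∀ s, |s| ≤ π → ∀ r ∈ Icc (0 : ℝ) π, 0 ≤ g s r := by
    intro s hs1 r hr
    rw [hg]
    simp only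
    by_cases h1 : χ (e.EE (shift s c₀)) = 0
    · rw [h1, zero_mul, zero_mul]
    by_cases h2 : χ (e.EE (shift (r + s) c₀)) = 0
    · rw [h2, mul_zero, zero_mul]
    have h3 := hχs _ h1
    have h4 := hχs _ h2
    have h5 := abs_lt.1 (hs s hs1 h3)
    have h6 : r < η := by
      by_cases h7 : r + s ≤ π
      · have h8 := abs_lt.1 (hs (r + s) (abs_le.2 ⟨by linarith [hr.1, (abs_le.1 hs1).1], h7⟩) h4)
        linarith
      · push Not at h7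
        have h9 : shift (r + s) c₀ = shift (r + s - 2 * π) c₀ := by
          have := gs_shift_per 𝒜 hB (r + s - 2 * π) c₀
          rw [sub_add_cancel] at this
          exact this
        rw [h9] at h4
        have h8 := abs_lt.1 (hs (r + s - 2 * π) (abs_le.2 ⟨by linarith, by linarith [hr.2, (abs_le.1 hs1).2]⟩) h4)
        linarith [hr.2]
    have h10 : 0 ≤ NB1_P (𝒜 := 𝒜) hB (kf e (fun _ => b) ξ) (shift s c₀) r := by
      rcases eq_or_lt_of_le hr.1 with h0 | h0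
      · rw [← h0, hP0]
      · exact (hP r h0 (lt_of_lt_of_le h6 hηε) _ (lt_of_lt_of_le h3 hδε)).le
    exact mul_nonneg (mul_nonneg (hχ0 _) (hχ0 _)) h10
  have hGnn : ∀ s, |s| ≤ π → 0 ≤ ∫ r in (0 : ℝ)..π, g s r := fun s hs1 =>
    intervalIntegral.integral_nonneg hπ.le (hnn s hs1)
  have hG0 : 0 < ∫ r in (0 : ℝ)..π, g 0 r := by
    refine intervalIntegral.integral_pos hπ ?_ ?_ ?_
    · exact (hgc.comp (f := fun r : ℝ => ((0 : ℝ), r)) (by fun_prop)).continuousOn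
    · exact fun r hr => hnn 0 (by rw [abs_zero]; exact hπ.le) r ⟨hr.1.le, hr.2⟩
    · have h1 : ∀ᶠ r in 𝓝 (0 : ℝ), 0 < χ (e.EE (shift (r + 0) c₀)) := by
        have hc : ContinuousAt (fun r : ℝ => χ (e.EE (shift (r + 0) c₀))) 0 :=
          (hχ.comp (e.continuous_EE.comp (hshift.comp (g := fun t : ℝ => shift t c₀) (f := fun r : ℝ => r + 0)
            (by fun_prop)))).continuousAt
        refine hc.eventually (lt_mem_nhds ?_)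
        show 0 < χ (e.EE (shift (0 + 0) c₀))
        rw [add_zero, shift_zero, hχ1]
        exact one_pos
      have h2 : ∀ᶠ r in 𝓝[>] (0 : ℝ), 0 < χ (e.EE (shift (r + 0) c₀)) := nhdsWithin_le_nhds h1
      have h3 : ∀ᶠ r in 𝓝[>] (0 : ℝ), r < η := nhdsWithin_le_nhds (gt_mem_nhds hη)
      obtain ⟨r, h4, h5, h6⟩ := (h2.and (h3.and self_mem_nhdsWithin)).exists
      have h6 : 0 < r := h6
      refine ⟨r, ⟨h6.le, by linarith⟩, ?_⟩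
      rw [hg]
      simp only
      rw [shift_zero, hχ1, one_mul]
      exact mul_pos h4 (hP r h6 (by linarith) c₀ (by rw [dist_self]; exact hε))
  have hfin : 0 < ∫ s in (-π)..π, ∫ r in (0 : ℝ)..π, g s r := by
    refine intervalIntegral.integral_pos (by linarith) hGc.continuousOn ?_ ⟨0, ⟨by linarith, hπ.le⟩, hG0⟩
    exact fun s hs1 => hGnn s (abs_le.2 ⟨hs1.1.le, hs1.2⟩)
  unfold QW
  have h1 : (∫ s in (0 : ℝ)..(2 * π), LamW 𝒜 hB (kf e (fun y => χ y • b) ξ) (shift s c₀)) =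
      ∫ s in (-π)..π, ∫ r in (0 : ℝ)..π, g s r := by
    have h2 := hper.intervalIntegral_add_eq (-π) 0
    rw [zero_add] at h2
    have h3 : -π + 2 * π = π := by ring
    rw [h3] at h2
    rw [h2]
    exact intervalIntegral.integral_congr fun s _ => hLam s
  rw [h1]
  exact hfin

private theorem NB1_sep (c₀ : Gs M) (hB : Bl M) [Nonempty (Gs M)] {η : ℝ} (hη : 0 < η) :
    ∃ δ : ℝ, 0 < δ ∧ ∀ t, |t| ≤ π → dist (e.EE (shift t c₀)) (e.EE c₀) < δ → |t| < η / 2 := by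
  have hshift : Continuous (fun t : ℝ => e.EE (shift t c₀)) :=
    e.continuous_EE.comp (gs_continuous_shift.comp (continuous_id.prodMk continuous_const))
  have hK : IsCompact {t : ℝ | |t| ≤ π ∧ η / 2 ≤ |t|} := by
    have h1 : {t : ℝ | |t| ≤ π ∧ η / 2 ≤ |t|} = Icc (-π) π ∩ {t | η / 2 ≤ |t|} := by
      ext t
      simp only [mem_ofPred_eq, mem_inter_iff, mem_Icc, abs_le]
    rw [h1]
    exact isCompact_Icc.inter_right (isClosed_le continuous_const continuous_abs)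
  have h2 : IsClosed ((fun t : ℝ => e.EE (shift t c₀)) '' {t : ℝ | |t| ≤ π ∧ η / 2 ≤ |t|}) :=
    (hK.image hshift).isClosed
  have h3 : e.EE c₀ ∉ (fun t : ℝ => e.EE (shift t c₀)) '' {t : ℝ | |t| ≤ π ∧ η / 2 ≤ |t|} := by
    rintro ⟨t, ⟨ht1, ht2⟩, ht3⟩
    have h4 : shift t c₀ = c₀ := by
      have h6 : e.RR (e.EE (shift t c₀)) = e.RR (e.EE c₀) := congrArg e.RR ht3
      rwa [e.RR_EE hB, e.RR_EE hB] at h6
    have h5 : c₀.1 t = c₀.1 0 := by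
      have h6 : (shift t c₀).1 0 = c₀.1 0 := by rw [h4]
      change c₀.1 (0 + t) = c₀.1 0 at h6
      rwa [zero_add] at h6
    have h7 := c₀.2 t 0 (by rw [sub_zero]; exact ht1)
    rw [h5, dist_self, sub_zero] at h7
    linarith
  obtain ⟨δ, hδ, hb⟩ := Metric.isOpen_iff.1 h2.isOpen_compl (e.EE c₀) h3
  refine ⟨δ, hδ, fun t ht h4 => ?_⟩
  by_contra h5
  push Not at h5
  exact hb (mem_ball.2 h4) ⟨t, ⟨ht, h5⟩, rfl⟩

theorem bump_pos [Nonempty (Gs M)] (hB : Bl M) {κ : ℕ} (hk : 𝒜.HK κ) (c₀ : Gs M) :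
    ∃ (h : e.Q → ℝ) (b : Eu κ →L[ℝ] EuclideanSpace ℝ (Fin e.q)), ContDiff ℝ ∞ h ∧
      ∀ ξ : Eu κ, ξ ≠ 0 → 0 < QW 𝒜 hB (kf e (fun y => h y • b) ξ) c₀ := by
  obtain ⟨b, hb⟩ := NB1_b e hB hk c₀
  obtain ⟨ε, hε, hP⟩ := NB1_unif e hB hk c₀ b hb
  have hη : 0 < min ε π := lt_min hε Real.pi_pos
  obtain ⟨δ₁, hδ₁, hs⟩ := NB1_sep e c₀ hB hη
  have hδ : 0 < min δ₁ ε := lt_min hδ₁ hε
  let χ : ContDiffBump (e.EE c₀) := ⟨min δ₁ ε / 4, min δ₁ ε / 2, by positivity, by linarith⟩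
  refine ⟨χ, b, χ.contDiff, fun ξ hξ => ?_⟩
  refine NB1_main e hB hk c₀ b hε hη (min_le_left _ _) (min_le_right _ _) (δ := min δ₁ ε) (min_le_right _ _)
    (χ := χ) χ.continuous (fun y => χ.nonneg) ?_ ?_ ?_ ξ ?_
  · exact χ.one_of_mem_closedBall (mem_closedBall_self (by positivity))
  · intro y hy
    by_contra h1
    push Not at h1
    exact hy (χ.zero_of_le_dist (by
      show min δ₁ ε / 2 ≤ dist y (e.EE c₀)
      linarith))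
  · exact fun t ht h1 => hs t ht (lt_of_lt_of_le h1 (min_le_left _ _))
  · exact fun r hr0 hr c hc => hP r hr0 hr c hc ξ hξ

end Pool.Agent.Lib.MP_ccbbf6_gt.L5.NEG
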