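import Pool.Agent.Lib.MP_ccbbf6_gt.L5.NB1
import Pool.Agent.Lib.MP_ccbbf6_gt.L5.NF3
import Pool.Agent.Lib.MP_ccbbf6_gt.L5.NS1

/-!
# NB2: a push-off family with `κ` positive directions at every geodesic (Level 5, block NEG)

PROOF of `exists_pos`. `pfam_kf`: `exists_pfam` for `rotF_kf` (`LamB c ξ ξ = LamW (kf e Φ ξ) c` is the definition of `JW`, `LamW`), integrate: `QB c ξ ξ = QW (kf e Φ ξ) c` (`QB_apply`).
For every `c₀` take `h, b` of `bump_pos`, `Φ₀ y := h y • b`, the family `C₀` (`N = κ`): `QB C₀ c₀ ξ ξ > 0` for `ξ ≠ 0`; by continuity of `QB C₀` (`SmF.continuous`) and compactness of the unit sphere there are `δ > 0` and an open `U ∋ c₀` with `δ ‖ξ‖² ≤ QB C₀ c ξ ξ` for `c ∈ U`.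
Finite subcover `c_1, .., c_m` of the compact space `Gs M`. `N := m * κ` with `Eu N ≃ (Fin m → Eu κ)`: use continuous linear `pr_j : Eu N → Eu κ`, `in_j : Eu κ → Eu N` with `pr_j ∘ in_j = id`, `pr_i ∘ in_j = 0` for `i ≠ j`, `‖in_j ξ‖ = ‖ξ‖` (coordinates `finProdFinEquiv`).
`Φ y := ∑ j, h_j y • (b_j ∘ pr_j)`; then `kf e Φ (in_j ξ) = kf e (h_j • b_j) ξ`, so `QB C c (in_j ξ) (in_j ξ) = QW (kf e (h_j • b_j) ξ) c = QB C_j c ξ ξ ≥ δ_j ‖ξ‖²` for `c ∈ U_j`: `W := range in_j`, `δ := min δ_j`.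
-/

set_option autoImplicit false
set_option linter.unusedSectionVars false

open Set Filter Topology Metric Real Module
open scoped ContDiff RealInnerProductSpace

noncomputable section

namespace Pool.Agent.Lib.MP_ccbbf6_gt.L5.NEG

open Geo L4 L4.ORI

variable {n : ℕ} {M : Type*} [MetricSpace M] [CompactSpace M] {𝒜 : SDist n M}

theorem pfam_kf [Nonempty (Gs M)] (hB : Bl M) (e : Emb n 𝒜) {κ : ℕ} (hk : 𝒜.HK κ) {N : ℕ}
    {Φ : e.Q → (Eu N →L[ℝ] EuclideanSpace ℝ (Fin e.q))} (hΦ : ContDiff ℝ ∞ Φ) :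
    ∃ C : Eu N → Gs M → M, PFam 𝒜 C ∧ ∀ c ξ, QB 𝒜 C c ξ ξ = QW 𝒜 hB (kf e Φ ξ) c := by
  obtain ⟨C, hC, hL⟩ := exists_pfam hB e (rotF_kf e hB hk hΦ)
  refine ⟨C, hC, fun c ξ => ?_⟩
  rw [hC.QB_apply hB e]
  unfold QW
  refine intervalIntegral.integral_congr fun t _ => ?_
  exact hL (shift t c) ξ

private theorem nb2_coercive {E : Type*} [NormedAddCommGroup E] [NormedSpace ℝ E] [ProperSpace E]
    (B : E →L[ℝ] E →L[ℝ] ℝ) (h : ∀ ξ, ξ ≠ 0 → 0 < B ξ ξ) :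
    ∃ m : ℝ, 0 < m ∧ ∀ ξ, m * ‖ξ‖ ^ 2 ≤ B ξ ξ := by
  have hcont : Continuous fun ξ : E => B ξ ξ :=
    (isBoundedBilinearMap_apply.continuous.comp (B.continuous.prodMk continuous_id) :)
  rcases (Metric.sphere (0 : E) 1).eq_empty_or_nonempty with he | hne
  · refine ⟨1, one_pos, fun ξ => ?_⟩
    have h0 : ξ = 0 := by
      by_contra hξ
      have hn : ‖ξ‖ ≠ 0 := norm_ne_zero_iff.2 hξ
      have : ‖ξ‖⁻¹ • ξ ∈ Metric.sphere (0 : E) 1 := by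
        rw [mem_sphere_zero_iff_norm, norm_smul, norm_inv, norm_norm, inv_mul_cancel₀ hn]
      rw [he] at this
      exact this
    rw [h0, norm_zero, map_zero]
    simp
  · obtain ⟨ξ₀, hξ₀, hmin⟩ := (isCompact_sphere (0 : E) 1).exists_isMinOn hne hcont.continuousOn
    have hξ₀n : ‖ξ₀‖ = 1 := mem_sphere_zero_iff_norm.1 hξ₀
    have hξ₀0 : ξ₀ ≠ 0 := by
      intro h0
      rw [h0, norm_zero] at hξ₀n
      exact zero_ne_one hξ₀n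
    refine ⟨B ξ₀ ξ₀, h ξ₀ hξ₀0, fun ξ => ?_⟩
    rcases eq_or_ne ξ 0 with h0 | hξ
    · rw [h0, norm_zero, map_zero]
      simp
    · have hn : ‖ξ‖ ≠ 0 := norm_ne_zero_iff.2 hξ
      have hs : ‖ξ‖⁻¹ • ξ ∈ Metric.sphere (0 : E) 1 := by
        rw [mem_sphere_zero_iff_norm, norm_smul, norm_inv, norm_norm, inv_mul_cancel₀ hn]
      have h1 : B ξ₀ ξ₀ ≤ B (‖ξ‖⁻¹ • ξ) (‖ξ‖⁻¹ • ξ) := hmin hs
      have h2 : B (‖ξ‖⁻¹ • ξ) (‖ξ‖⁻¹ • ξ) = ‖ξ‖⁻¹ * (‖ξ‖⁻¹ * B ξ ξ) := by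
        rw [map_smul, map_smul, smul_apply, smul_eq_mul, smul_eq_mul]
      rw [h2] at h1
      have h3 : 0 < ‖ξ‖ ^ 2 := by positivity
      calc B ξ₀ ξ₀ * ‖ξ‖ ^ 2 ≤ (‖ξ‖⁻¹ * (‖ξ‖⁻¹ * B ξ ξ)) * ‖ξ‖ ^ 2 := mul_le_mul_of_nonneg_right h1 h3.le
        _ = B ξ ξ := by field_simp

private theorem nb2_cont {X G : Type*} [TopologicalSpace X] [NormedAddCommGroup G] {B : X → G}
    (hB : Continuous B) (x₀ : X) (ε : ℝ) (hε : 0 < ε) : ∀ᶠ x in 𝓝 x₀, ‖B x - B x₀‖ < ε := by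
  have hc : Continuous fun x => ‖B x - B x₀‖ := (hB.sub continuous_const).norm
  refine (hc.tendsto x₀).eventually (Iio_mem_nhds ?_)
  rw [sub_self, norm_zero]
  exact hε

private theorem nb2_near {X E : Type*} [TopologicalSpace X] [NormedAddCommGroup E] [NormedSpace ℝ E] [ProperSpace E]
    {B : X → E →L[ℝ] E →L[ℝ] ℝ}
    (x₀ : X) (hB : ∀ ε : ℝ, 0 < ε → ∀ᶠ x in 𝓝 x₀, ‖B x - B x₀‖ < ε) (h : ∀ ξ, ξ ≠ 0 → 0 < B x₀ ξ ξ) :
    ∃ δ : ℝ, 0 < δ ∧ ∀ᶠ x in 𝓝 x₀, ∀ ξ, δ * ‖ξ‖ ^ 2 ≤ B x ξ ξ := by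
  obtain ⟨m, hm, hmB⟩ := nb2_coercive (B x₀) h
  refine ⟨m / 2, half_pos hm, ?_⟩
  refine (hB (m / 2) (half_pos hm)).mono fun x hx ξ => ?_
  have h2 : |(B x - B x₀) ξ ξ| ≤ ‖B x - B x₀‖ * ‖ξ‖ * ‖ξ‖ := by
    rw [← Real.norm_eq_abs]
    exact (B x - B x₀).le_opNorm₂ ξ ξ
  have h3 : (B x - B x₀) ξ ξ = B x ξ ξ - B x₀ ξ ξ := by
    rw [sub_apply, sub_apply]
  rw [h3] at h2
  have h4 : ‖B x - B x₀‖ * ‖ξ‖ * ‖ξ‖ ≤ m / 2 * ‖ξ‖ ^ 2 := by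
    rw [mul_assoc, ← pow_two]
    exact mul_le_mul_of_nonneg_right hx.le (by positivity)
  have h5 := hmB ξ
  have h6 := (abs_le.1 (le_trans h2 h4)).1
  linarith

private theorem nb2_min {X : Type*} (t : Finset X) (f : X → ℝ) (hf : ∀ x, 0 < f x) :
    ∃ δ : ℝ, 0 < δ ∧ ∀ x ∈ t, δ ≤ f x := by
  classical
  induction t using Finset.induction_on with
  | empty => exact ⟨1, one_pos, fun x hx => absurd hx (Finset.notMem_empty x)⟩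
  | insert a s _ ih =>
    obtain ⟨δ, hδ, h⟩ := ih
    refine ⟨min δ (f a), lt_min hδ (hf a), fun x hx => ?_⟩
    rcases Finset.mem_insert.1 hx with rfl | hx
    · exact min_le_right _ _
    · exact le_trans (min_le_left _ _) (h x hx)

private theorem nb2_split (ι : Type) [Fintype ι] [DecidableEq ι] (κ : ℕ) :
    ∃ (N : ℕ) (inj : ι → Eu κ →ₗ[ℝ] Eu N) (pr : ι → Eu N →L[ℝ] Eu κ),
      (∀ i ξ, pr i (inj i ξ) = ξ) ∧ (∀ i j ξ, i ≠ j → pr i (inj j ξ) = 0) ∧ ∀ i ξ, ‖inj i ξ‖ = ‖ξ‖ := by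
  let φ : ι × Fin κ ≃ Fin (Fintype.card (ι × Fin κ)) := Fintype.equivFin _
  let inj : ι → Eu κ →ₗ[ℝ] Eu (Fintype.card (ι × Fin κ)) := fun j =>
    { toFun := fun ξ => WithLp.toLp 2 fun k => if (φ.symm k).1 = j then ξ (φ.symm k).2 else 0
      map_add' := by
        intro ξ η
        ext k
        simp only [PiLp.add_apply]
        split_ifs <;> simp
      map_smul' := by
        intro c ξ
        ext k
        simp only [PiLp.smul_apply, RingHom.id_apply, smul_eq_mul]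
        split_ifs <;> simp }
  let pr : ι → Eu (Fintype.card (ι × Fin κ)) →ₗ[ℝ] Eu κ := fun j =>
    { toFun := fun x => WithLp.toLp 2 fun a => x (φ (j, a))
      map_add' := by
        intro ξ η
        ext k
        simp
      map_smul' := by
        intro c ξ
        ext k
        simp }
  refine ⟨_, inj, fun j => (pr j).toContinuousLinearMap, fun i ξ => ?_, fun i j ξ hij => ?_, fun i ξ => ?_⟩
  · ext a
    change (if (φ.symm (φ (i, a))).1 = i then ξ (φ.symm (φ (i, a))).2 else 0) = ξ a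
    rw [Equiv.symm_apply_apply, if_pos rfl]
  · ext a
    change (if (φ.symm (φ (i, a))).1 = j then ξ (φ.symm (φ (i, a))).2 else 0) = 0
    rw [Equiv.symm_apply_apply, if_neg hij]
  · rw [EuclideanSpace.norm_eq, EuclideanSpace.norm_eq]
    congr 1
    have e1 : ∑ k, ‖(inj i ξ) k‖ ^ 2 = ∑ p : ι × Fin κ, ‖(if p.1 = i then ξ p.2 else 0 : ℝ)‖ ^ 2 := by
      rw [← φ.sum_comp]
      refine Finset.sum_congr rfl fun p _ => ?_
      change ‖(if (φ.symm (φ p)).1 = i then ξ (φ.symm (φ p)).2 else 0 : ℝ)‖ ^ 2 = _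
      rw [Equiv.symm_apply_apply]
    rw [e1, Fintype.sum_prod_type, Finset.sum_eq_single i]
    · refine Finset.sum_congr rfl fun a _ => ?_
      rw [if_pos rfl]
    · intro j _ hj
      refine Finset.sum_eq_zero fun a _ => ?_
      rw [if_neg hj, norm_zero]
      norm_num
    · intro h
      exact absurd (Finset.mem_univ i) h

theorem exists_pos [Nonempty (Gs M)] (hB : Bl M) (e : Emb n 𝒜) {κ : ℕ} (hk : 𝒜.HK κ) :
    ∃ (N : ℕ) (C : Eu N → Gs M → M) (δ : ℝ), PFam 𝒜 C ∧ 0 < δ ∧ ∀ c, ∃ W : Submodule ℝ (Eu N), finrank ℝ W = κ ∧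
      ∀ ξ ∈ W, δ * ‖ξ‖ ^ 2 ≤ QB 𝒜 C c ξ ξ := by
  classical
  -- one geodesic
  have h1 : ∀ c₀ : Gs M, ∃ (h : e.Q → ℝ) (b : Eu κ →L[ℝ] EuclideanSpace ℝ (Fin e.q)) (δ : ℝ) (U : Set (Gs M)),
      ContDiff ℝ ∞ h ∧ 0 < δ ∧ U ∈ 𝓝 c₀ ∧ ∀ c ∈ U, ∀ ξ, δ * ‖ξ‖ ^ 2 ≤ QW 𝒜 hB (kf e (fun y => h y • b) ξ) c := by
    intro c₀
    obtain ⟨h, b, hh, hpos⟩ := bump_pos e hB hk c₀
    have hΦ : ContDiff ℝ ∞ (fun y : e.Q => h y • b) := hh.smul contDiff_const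
    obtain ⟨C, hC, hQ⟩ := pfam_kf hB e hk hΦ
    have hcont : Continuous (QB 𝒜 C) := SmF.continuous hB e (hC.QB_smooth hB e)
    have hcc : ∀ ε : ℝ, 0 < ε → ∀ᶠ x in 𝓝 c₀, ‖QB 𝒜 C x - QB 𝒜 C c₀‖ < ε :=
      nb2_cont (G := Eu κ →L[ℝ] Eu κ →L[ℝ] ℝ) (B := QB 𝒜 C) hcont c₀
    obtain ⟨δ, hδ, hev⟩ := nb2_near c₀ hcc (fun ξ hξ => by
      rw [hQ]
      exact hpos ξ hξ)
    refine ⟨h, b, δ, {c | ∀ ξ, δ * ‖ξ‖ ^ 2 ≤ QB 𝒜 C c ξ ξ}, hh, hδ, hev, fun c hc ξ => ?_⟩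
    rw [← hQ]
    exact hc ξ
  choose h b δ U hh hδ hU hpos using h1
  obtain ⟨t, ht⟩ := (CompactSpace.isCompact_univ (X := Gs M)).elim_nhds_subcover U (fun c _ => hU c)
  obtain ⟨δ₀, hδ₀, hδt⟩ := nb2_min t δ hδ
  obtain ⟨m, ⟨ψ⟩⟩ := Finite.exists_equiv_fin t
  obtain ⟨N, inj, pr, hpi, hpj, hni⟩ := nb2_split (Fin m) κ
  let g : Fin m → Gs M := fun i => (ψ.symm i : t)
  let Φ : e.Q → (Eu N →L[ℝ] EuclideanSpace ℝ (Fin e.q)) := fun y => ∑ i, h (g i) y • (b (g i)).comp (pr i)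
  have hΦ : ContDiff ℝ ∞ Φ := ContDiff.sum fun i _ => (hh (g i)).smul contDiff_const
  obtain ⟨C, hC, hQ⟩ := pfam_kf hB e hk hΦ
  have hΦi : ∀ (y : e.Q) (j : Fin m) (ξ : Eu κ), Φ y (inj j ξ) = (h (g j) y • b (g j)) ξ := by
    intro y j ξ
    change (∑ i, h (g i) y • (b (g i)).comp (pr i)) (inj j ξ) = _
    rw [sum_apply, Finset.sum_eq_single j]
    · rw [smul_apply, ContinuousLinearMap.comp_apply, hpi, smul_apply]
    · intro i _ hij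
      rw [smul_apply, ContinuousLinearMap.comp_apply, hpj i j ξ hij, map_zero, smul_zero]
    · intro hj
      exact absurd (Finset.mem_univ j) hj
  have hkf : ∀ (j : Fin m) (ξ : Eu κ), kf e Φ (inj j ξ) = kf e (fun y => h (g j) y • b (g j)) ξ := by
    intro j ξ
    funext c
    change Hc 𝒜 c (Dr e (c.1 0) (Φ (e.EE c) (inj j ξ))) = Hc 𝒜 c (Dr e (c.1 0) ((h (g j) (e.EE c) • b (g j)) ξ))
    rw [hΦi]
  refine ⟨N, C, δ₀, hC, hδ₀, fun c => ?_⟩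
  have hc : c ∈ ⋃ x ∈ t, U x := ht.2 (Set.mem_univ c)
  obtain ⟨x, hxt, hcx⟩ := Set.mem_iUnion₂.1 hc
  have hgx : g (ψ ⟨x, hxt⟩) = x := by
    change ((ψ.symm (ψ ⟨x, hxt⟩) : t) : Gs M) = x
    rw [Equiv.symm_apply_apply]
  refine ⟨LinearMap.range (inj (ψ ⟨x, hxt⟩)), ?_, ?_⟩
  · rw [LinearMap.finrank_range_of_inj, finrank_euclideanSpace_fin]
    intro ξ η hξη
    have := congrArg (pr (ψ ⟨x, hxt⟩)) hξη
    rwa [hpi, hpi] at this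
  · rintro _ ⟨ξ, rfl⟩
    rw [hQ, hkf, hni, hgx]
    exact le_trans (mul_le_mul_of_nonneg_right (hδt x hxt) (by positivity)) (hpos x c hcx ξ)

end Pool.Agent.Lib.MP_ccbbf6_gt.L5.NEG
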