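import Pool.Agent.Lib.MP_ccbbf6_gt.Geo.CZa
import Pool.Agent.Lib.MP_ccbbf6_gt.L4.SM1

namespace Pool.Agent.Lib.MP_ccbbf6_gt.L4.ORI
end Pool.Agent.Lib.MP_ccbbf6_gt.L4.ORI

/-!
# NC1: closed polygons with four vertices (Level 5, block NEG)

PROOFS.
`four_ge`: `dist (x 0) (x 2) = π` gives `L4g x ≥ 2π` (two triangle inequalities).
`four_diff`: in the charts centered at `p i := c.1 (i π/2)` the function `Lc z := ∑ i, 𝒜.f (p i) (p (i+1)) (z i, z (i+1))`, `z : Fin 4 → Eu n` (indices mod 4, `p 4 = p 0`), is smooth near `0` (`contDiffAt_f`, all distances are `π / 2`; for the pair `(3, 0)`: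
 `dist (c.1 (3π/2)) (c.1 0) = π/2` by periodicity, `IsGeo.closed`). `fderiv Lc 0 = 0`: each partial function `z i ↦ Lc (0,.., z i, ..0)` has a local minimum at `0`: `dist (p (i-1)) x + dist x (p (i+1)) ≥ dist (p (i-1)) (p (i+1)) = π` with equality at `x = p i`.
 Hence for a smooth curve `z θ` with `z 0 = 0`, `z' 0 = v`: `Lc (z θ) = Lc 0 + θ²/2 D² Lc 0 v v + o(θ²)`. PROOF of that: `g θ := Lc (z θ)` is smooth, `g' θ = fderiv Lc (z θ) (z' θ)`, and
 `g' θ = θ • D² v v + o(θ)` as `fderiv Lc` is differentiable at `0` with `fderiv Lc 0 = 0`; then the mean value inequality. For two curves with the same `v` subtract.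
-/

set_option autoImplicit false
set_option linter.unusedSectionVars false

open Set Filter Topology Metric Real Asymptotics
open scoped ContDiff RealInnerProductSpace

noncomputable section

namespace Pool.Agent.Lib.MP_ccbbf6_gt.L5.NEG

open Geo L4 L4.ORI

/-- the length of a closed polygon with four vertices -/
def L4g {M : Type*} [MetricSpace M] (x0 x1 x2 x3 : M) : ℝ := dist x0 x1 + dist x1 x2 + dist x2 x3 + dist x3 x0

theorem four_ge {M : Type*} [MetricSpace M] {x0 x1 x2 x3 : M} : 2 * dist x0 x2 ≤ L4g x0 x1 x2 x3 := by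
  have h1 := dist_triangle x0 x1 x2
  have h2 := dist_triangle x2 x3 x0
  have h3 := dist_comm x2 x0
  unfold L4g
  linarith

/-- a function with a small derivative -/
private theorem NC1_oo {D D' : ℝ → ℝ} (h0 : D 0 = 0) (h : ∀ᶠ θ in 𝓝 (0 : ℝ), HasDerivAt D (D' θ) θ)
    (h1 : HasDerivAt D' 0 0) (h2 : D' 0 = 0) : D =o[𝓝 0] fun θ : ℝ => θ ^ 2 := by
  rw [isLittleO_iff]
  intro ε hε
  have h3 : ∀ᶠ θ in 𝓝 (0 : ℝ), ‖D' θ‖ ≤ ε * ‖θ‖ := by
    have h4 := hasDerivAt_iff_isLittleO.1 h1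
    filter_upwards [h4.def hε] with θ hθ
    rw [h2, smul_zero, sub_zero, sub_zero, sub_zero] at hθ
    exact hθ
  obtain ⟨δ, hδ, hb⟩ := Metric.eventually_nhds_iff.1 (h.and h3)
  filter_upwards [Metric.ball_mem_nhds (0 : ℝ) hδ] with θ hθ
  have hs : Convex ℝ (Metric.closedBall (0 : ℝ) |θ|) := convex_closedBall _ _
  have hin : ∀ y ∈ Metric.closedBall (0 : ℝ) |θ|, dist y 0 < δ := by
    intro y hy
    refine lt_of_le_of_lt (Metric.mem_closedBall.1 hy) ?_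
    rw [Metric.mem_ball, dist_zero_right, Real.norm_eq_abs] at hθ
    exact hθ
  have h5 := hs.norm_image_sub_le_of_norm_hasDerivWithin_le (f := D) (f' := D') (C := ε * |θ|) (x := 0) (y := θ)
    (fun y hy => (hb (hin y hy)).1.hasDerivWithinAt) (fun y hy => by
      refine (hb (hin y hy)).2.trans (mul_le_mul_of_nonneg_left ?_ hε.le)
      rw [Metric.mem_closedBall, dist_zero_right] at hy
      exact hy) (by rw [Metric.mem_closedBall, dist_self]; exact abs_nonneg θ)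
    (by rw [Metric.mem_closedBall, dist_zero_right, Real.norm_eq_abs])
  rw [h0, sub_zero, sub_zero] at h5
  refine h5.trans (le_of_eq ?_)
  rw [Real.norm_eq_abs, norm_pow, Real.norm_eq_abs, pow_two]
  ring

/-- comparison to the second order at a critical point -/
private theorem NC1_two {E : Type*} [NormedAddCommGroup E] [NormedSpace ℝ E] {L : E → ℝ} {z w : ℝ → E} {v : E}
    (hL : ContDiffAt ℝ 2 L 0) (hL0 : fderiv ℝ L 0 = 0) (hz : ContDiffAt ℝ 2 z 0) (hw : ContDiffAt ℝ 2 w 0)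
    (hz0 : z 0 = 0) (hw0 : w 0 = 0) (hzv : HasDerivAt z v 0) (hwv : HasDerivAt w v 0) :
    (fun θ => L (z θ) - L (w θ)) =o[𝓝 0] fun θ : ℝ => θ ^ 2 := by
  have key : ∀ {z : ℝ → E}, ContDiffAt ℝ 2 z 0 → z 0 = 0 → HasDerivAt z v 0 →
      (∀ᶠ θ in 𝓝 (0 : ℝ), HasDerivAt (fun θ => L (z θ)) (fderiv ℝ L (z θ) (deriv z θ)) θ) ∧
      HasDerivAt (fun θ => fderiv ℝ L (z θ) (deriv z θ)) (fderiv ℝ (fderiv ℝ L) 0 v v) 0 := by
    intro z hz hz0 hzv
    constructor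
    · have h1 : ∀ᶠ y in 𝓝 (0 : E), DifferentiableAt ℝ L y := by
        filter_upwards [hL.eventually (by simp)] with y hy
        exact hy.differentiableAt (by simp)
      have h2 : ∀ᶠ θ in 𝓝 (0 : ℝ), DifferentiableAt ℝ z θ := by
        filter_upwards [hz.eventually (by simp)] with y hy
        exact hy.differentiableAt (by simp)
      have h3 : ∀ᶠ θ in 𝓝 (0 : ℝ), DifferentiableAt ℝ L (z θ) := by
        have hc := hz.continuousAt
        rw [ContinuousAt, hz0] at hc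
        exact hc.eventually h1
      filter_upwards [h2, h3] with θ h4 h5
      exact HasFDerivAt.comp_hasDerivAt (l := L) (f := z) θ h5.hasFDerivAt h4.hasDerivAt
    · have h1 : HasFDerivAt (fderiv ℝ L) (fderiv ℝ (fderiv ℝ L) 0) (z 0) := by
        rw [hz0]
        exact ((hL.fderiv_right (m := 1) (by norm_num)).differentiableAt (by simp)).hasFDerivAt
      have h2 : HasDerivAt (fun θ => fderiv ℝ L (z θ)) (fderiv ℝ (fderiv ℝ L) 0 v) 0 :=
        HasFDerivAt.comp_hasDerivAt (l := fderiv ℝ L) (f := z) 0 h1 hzv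
      have h3 : DifferentiableAt ℝ (deriv z) 0 := by
        have h4 : ContDiffAt ℝ 1 (fderiv ℝ z) 0 := hz.fderiv_right (m := 1) (by norm_num)
        have h5 : ContDiffAt ℝ 1 (fun θ => fderiv ℝ z θ 1) 0 := h4.clm_apply contDiffAt_const
        exact h5.differentiableAt (by simp)
      have h4 := h2.clm_apply h3.hasDerivAt
      rw [hz0, hL0, _root_.zero_apply, add_zero, hzv.deriv] at h4
      exact h4
  obtain ⟨a1, a2⟩ := key hz hz0 hzv
  obtain ⟨b1, b2⟩ := key hw hw0 hwv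
  refine NC1_oo (D' := fun θ => fderiv ℝ L (z θ) (deriv z θ) - fderiv ℝ L (w θ) (deriv w θ)) ?_ ?_ ?_ ?_
  · rw [hz0, hw0, sub_self]
  · filter_upwards [a1, b1] with θ h1 h2
    exact h1.sub h2
  · have h := a2.sub b2
    rw [sub_self] at h
    exact h
  · show fderiv ℝ L (z 0) (deriv z 0) - fderiv ℝ L (w 0) (deriv w 0) = 0
    rw [hz0, hw0, hL0, _root_.zero_apply, _root_.zero_apply, sub_zero]

variable {n : ℕ} {M : Type*} [MetricSpace M] [CompactSpace M] {𝒜 : SDist n M}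

/-- the length of the polygon through the points of a closed geodesic is critical -/
theorem four_diff (hB : Bl M) (c : Gs M) {x y : Fin 4 → ℝ → M} {v : Fin 4 → Eu n}
    (hx : ∀ i : Fin 4, SmAt 𝒜 (x i) 0) (hy : ∀ i : Fin 4, SmAt 𝒜 (y i) 0)
    (hx0 : ∀ i : Fin 4, x i 0 = c.1 ((i.val : ℝ) * (π / 2))) (hy0 : ∀ i : Fin 4, y i 0 = c.1 ((i.val : ℝ) * (π / 2)))
    (hxv : ∀ i : Fin 4, HasDerivAt (fun θ => 𝒜.ψ (c.1 ((i.val : ℝ) * (π / 2))) (x i θ)) (v i) 0)
    (hyv : ∀ i : Fin 4, HasDerivAt (fun θ => 𝒜.ψ (c.1 ((i.val : ℝ) * (π / 2))) (y i θ)) (v i) 0) :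
    (fun θ => L4g (x 0 θ) (x 1 θ) (x 2 θ) (x 3 θ) - L4g (y 0 θ) (y 1 θ) (y 2 θ) (y 3 θ)) =o[𝓝 0] fun θ : ℝ => θ ^ 2 := by
  have hπ := Real.pi_pos
  obtain ⟨p, hp⟩ : ∃ p : Fin 4 → M, p = fun i => c.1 ((i.val : ℝ) * (π / 2)) := ⟨_, rfl⟩
  have hpi : ∀ i : Fin 4, c.1 ((i.val : ℝ) * (π / 2)) = p i := fun i => by rw [hp]
  simp only [hpi] at hx0 hy0 hxv hyv
  -- distances
  have hd : ∀ s t : ℝ, |s - t| = π / 2 → dist (c.1 s) (c.1 t) = π / 2 := fun s t h => by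
    rw [c.2 s t (by rw [h]; linarith), h]
  have hd01 : dist (p 0) (p 1) = π / 2 := by
    rw [← hpi, ← hpi]
    refine hd _ _ ?_
    have e : (((0 : Fin 4).val : ℝ) * (π / 2) - ((1 : Fin 4).val : ℝ) * (π / 2)) = -(π / 2) := by
      norm_num
    rw [e, abs_neg, abs_of_pos (by positivity)]
  have hd12 : dist (p 1) (p 2) = π / 2 := by
    rw [← hpi, ← hpi]
    refine hd _ _ ?_
    have e : (((1 : Fin 4).val : ℝ) * (π / 2) - ((2 : Fin 4).val : ℝ) * (π / 2)) = -(π / 2) := by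
      norm_num
      ring
    rw [e, abs_neg, abs_of_pos (by positivity)]
  have hd23 : dist (p 2) (p 3) = π / 2 := by
    rw [← hpi, ← hpi]
    refine hd _ _ ?_
    have e : (((2 : Fin 4).val : ℝ) * (π / 2) - ((3 : Fin 4).val : ℝ) * (π / 2)) = -(π / 2) := by
      norm_num
      ring
    rw [e, abs_neg, abs_of_pos (by positivity)]
  have hd30 : dist (p 3) (p 0) = π / 2 := by
    rw [← hpi, ← hpi, ← IsGeo.closed 𝒜 hB c.2 (((0 : Fin 4).val : ℝ) * (π / 2))]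
    refine hd _ _ ?_
    have e : (((3 : Fin 4).val : ℝ) * (π / 2) - (((0 : Fin 4).val : ℝ) * (π / 2) + 2 * π)) = -(π / 2) := by
      norm_num
      ring
    rw [e, abs_neg, abs_of_pos (by positivity)]
  have hd02 : dist (p 0) (p 2) = π := by
    rw [← hpi, ← hpi]
    have e : (((0 : Fin 4).val : ℝ) * (π / 2) - ((2 : Fin 4).val : ℝ) * (π / 2)) = -π := by
      norm_num
      ring
    rw [c.2 _ _ (by rw [e, abs_neg, abs_of_pos hπ]), e, abs_neg, abs_of_pos hπ]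
  have hd13 : dist (p 1) (p 3) = π := by
    rw [← hpi, ← hpi]
    have e : (((1 : Fin 4).val : ℝ) * (π / 2) - ((3 : Fin 4).val : ℝ) * (π / 2)) = -π := by
      norm_num
      ring
    rw [c.2 _ _ (by rw [e, abs_neg, abs_of_pos hπ]), e, abs_neg, abs_of_pos hπ]
  -- the length function
  obtain ⟨Lc, hLc⟩ : ∃ Lc : (Fin 4 → Eu n) → ℝ, Lc = fun z => L4g ((𝒜.ψ (p 0)).symm (z 0)) ((𝒜.ψ (p 1)).symm (z 1))
    ((𝒜.ψ (p 2)).symm (z 2)) ((𝒜.ψ (p 3)).symm (z 3)) := ⟨_, rfl⟩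
  have hterm : ∀ i j : Fin 4, dist (p i) (p j) = π / 2 → ContDiffAt ℝ 2 (fun z : Fin 4 → Eu n =>
      dist ((𝒜.ψ (p i)).symm (z i)) ((𝒜.ψ (p j)).symm (z j))) 0 := by
    intro i j hij
    have h1 : ContDiffAt ℝ ∞ (𝒜.f (p i) (p j)) (0, 0) :=
      contDiffAt_f 𝒜 hB (by rw [hij]; positivity) (by rw [hij]; linarith)
    have h2 : ContDiffAt ℝ 2 (𝒜.f (p i) (p j)) (0, 0) := h1.of_le ENat.LEInfty.out
    have h3 : ContDiffAt ℝ 2 (fun z : Fin 4 → Eu n => (z i, z j)) 0 :=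
      ((contDiff_apply ℝ (Eu n) i).contDiffAt).prodMk ((contDiff_apply ℝ (Eu n) j).contDiffAt)
    exact ContDiffAt.comp (g := 𝒜.f (p i) (p j)) (f := fun z : Fin 4 → Eu n => (z i, z j)) 0 h2 h3
  have hLs : ContDiffAt ℝ 2 Lc 0 := by
    rw [hLc]
    exact ((((hterm 0 1 hd01).add (hterm 1 2 hd12)).add (hterm 2 3 hd23)).add (hterm 3 0 hd30))
  have hs0 : ∀ q : M, (𝒜.ψ q).symm 0 = q := fun q => sm_symm_zero 𝒜 q
  have hL0 : Lc 0 = 2 * π := by
    rw [hLc]
    simp only [Pi.zero_apply, hs0]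
    unfold L4g
    rw [hd01, hd12, hd23, hd30]
    ring
  have hmin : ∀ (i : Fin 4) (u : Eu n), Lc 0 ≤ Lc (Pi.single i u) := by
    intro i u
    rw [hL0, hLc]
    simp only
    by_cases hi : i = 0 ∨ i = 2
    · have e1 : (Pi.single i u : Fin 4 → Eu n) 1 = 0 := Pi.single_eq_of_ne (by rcases hi with rfl | rfl <;> decide) _
      have e3 : (Pi.single i u : Fin 4 → Eu n) 3 = 0 := Pi.single_eq_of_ne (by rcases hi with rfl | rfl <;> decide) _
      rw [e1, e3, hs0, hs0]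
      have h1 := dist_triangle (p 1) ((𝒜.ψ (p 2)).symm ((Pi.single i u : Fin 4 → Eu n) 2)) (p 3)
      have h2 := dist_triangle (p 1) ((𝒜.ψ (p 0)).symm ((Pi.single i u : Fin 4 → Eu n) 0)) (p 3)
      have h3 := dist_comm (p 1) ((𝒜.ψ (p 0)).symm ((Pi.single i u : Fin 4 → Eu n) 0))
      have h4 := dist_comm (p 3) ((𝒜.ψ (p 0)).symm ((Pi.single i u : Fin 4 → Eu n) 0))
      unfold L4g
      linarith
    · have e0 : (Pi.single i u : Fin 4 → Eu n) 0 = 0 := Pi.single_eq_of_ne (fun h => hi (Or.inl h.symm)) _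
      have e2 : (Pi.single i u : Fin 4 → Eu n) 2 = 0 := Pi.single_eq_of_ne (fun h => hi (Or.inr h.symm)) _
      rw [e0, e2, hs0, hs0]
      have h := four_ge (x0 := p 0) (x1 := (𝒜.ψ (p 1)).symm ((Pi.single i u : Fin 4 → Eu n) 1)) (x2 := p 2)
        (x3 := (𝒜.ψ (p 3)).symm ((Pi.single i u : Fin 4 → Eu n) 3))
      rw [hd02] at h
      exact h
  have hcrit : fderiv ℝ Lc 0 = 0 := by
    have hLd : DifferentiableAt ℝ Lc 0 := hLs.differentiableAt (by simp)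
    refine ContinuousLinearMap.coe_injective (LinearMap.pi_ext fun i u => ?_)
    have h1 : IsLocalMin (fun u : Eu n => Lc (Pi.single i u)) 0 := by
      refine Filter.Eventually.of_forall fun u => ?_
      have h0 : (Pi.single i (0 : Eu n) : Fin 4 → Eu n) = 0 := Pi.single_zero i
      show Lc (Pi.single i 0) ≤ Lc (Pi.single i u)
      rw [h0]
      exact hmin i u
    have h2 := h1.fderiv_eq_zero
    have h3 : HasFDerivAt (fun u : Eu n => Lc (Pi.single i u))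
        ((fderiv ℝ Lc 0).comp (ContinuousLinearMap.single ℝ (fun _ : Fin 4 => Eu n) i)) 0 := by
      have h4 : HasFDerivAt Lc (fderiv ℝ Lc 0) (ContinuousLinearMap.single ℝ (fun _ : Fin 4 => Eu n) i 0) := by
        rw [map_zero]
        exact hLd.hasFDerivAt
      exact h4.comp 0 (ContinuousLinearMap.single ℝ (fun _ : Fin 4 => Eu n) i).hasFDerivAt
    rw [h3.fderiv] at h2
    have h4 := congrArg (fun T : Eu n →L[ℝ] ℝ => T u) h2
    exact h4
  -- the curves in the charts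
  have hcurve : ∀ {x : Fin 4 → ℝ → M}, (∀ i : Fin 4, SmAt 𝒜 (x i) 0) → (∀ i : Fin 4, x i 0 = p i) →
      (∀ i : Fin 4, HasDerivAt (fun θ => 𝒜.ψ (p i) (x i θ)) (v i) 0) →
      ContDiffAt ℝ 2 (fun θ => fun i : Fin 4 => 𝒜.ψ (p i) (x i θ)) 0 ∧ (fun i : Fin 4 => 𝒜.ψ (p i) (x i 0)) = 0 ∧
      HasDerivAt (fun θ => fun i : Fin 4 => 𝒜.ψ (p i) (x i θ)) v 0 ∧
      (fun θ => L4g (x 0 θ) (x 1 θ) (x 2 θ) (x 3 θ)) =ᶠ[𝓝 0] fun θ => Lc fun i : Fin 4 => 𝒜.ψ (p i) (x i θ) := by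
    intro x hx hx0 hxv
    refine ⟨?_, ?_, ?_, ?_⟩
    · rw [contDiffAt_pi]
      intro i
      have h := (hx i).2
      rw [hx0 i] at h
      exact h.of_le ENat.LEInfty.out
    · funext i
      rw [hx0 i, 𝒜.zero]
      rfl
    · rw [hasDerivAt_pi]
      exact hxv
    · have h : ∀ᶠ θ in 𝓝 (0 : ℝ), ∀ i : Fin 4, x i θ ∈ (𝒜.ψ (p i)).source := by
        rw [Filter.eventually_all]
        intro i
        exact (hx i).1.eventually ((𝒜.ψ (p i)).open_source.mem_nhds (by rw [hx0 i]; exact 𝒜.mem _))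
      filter_upwards [h] with θ hθ
      rw [hLc]
      simp only
      rw [(𝒜.ψ (p 0)).left_inv (hθ 0), (𝒜.ψ (p 1)).left_inv (hθ 1), (𝒜.ψ (p 2)).left_inv (hθ 2),
        (𝒜.ψ (p 3)).left_inv (hθ 3)]
  obtain ⟨a1, a2, a3, a4⟩ := hcurve hx hx0 hxv
  obtain ⟨b1, b2, b3, b4⟩ := hcurve hy hy0 hyv
  refine (NC1_two hLs hcrit a1 b1 a2 b2 a3 b3).congr' ?_ (Filter.EventuallyEq.refl _ _)
  filter_upwards [a4, b4] with θ h1 h2
  rw [h1, h2]

end Pool.Agent.Lib.MP_ccbbf6_gt.L5.NEG
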