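import Pool.Agent.Lib.MP_ccbbf6_gt.L5.NG

/-!
# NL: the inverse of the evaluation on the negative bundle; the isomorphism `spD → spN` (Level 5, block NEG) (helper93)
-/

set_option autoImplicit false
set_option linter.unusedSectionVars false

open Set Filter Topology Metric Real Module
open scoped ContDiff RealInnerProductSpace

noncomputable section

namespace Pool.Agent.Lib.MP_ccbbf6_gt.L5.NEG

open Geo L4 L4.ORI L4.FR

variable {n : ℕ} {M : Type*} [MetricSpace M] [CompactSpace M] {𝒜 : SDist n M} {N κ : ℕ} {C : Eu N → Gs M → M}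
  {P : Gs M → Eu N →L[ℝ] Eu N}

/-- the evaluation on the negative bundle -/
def TN (𝒜 : SDist n M) (hB : Bl M) (C : Eu N → Gs M → M) (P : Gs M → Eu N →L[ℝ] Eu N) (c : Gs M) : Eu N →L[ℝ] Eu n :=
  LinearMap.toContinuousLinearMap ((evL (𝒜 := 𝒜) hB C c).comp (P c : Eu N →ₗ[ℝ] Eu N))

theorem TN_apply (hB : Bl M) (c : Gs M) (x : Eu N) : TN 𝒜 hB C P c x = evc 𝒜 hB C c (P c x) := rfl

theorem TN_mem (hB : Bl M) (c : Gs M) (x : Eu N) : TN 𝒜 hB C P c x ∈ Kc 𝒜 c := evc_mem (C := C) hB c (P c x)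

/-- the Gram operator, the identity on the complement of the negative bundle -/
def grN (𝒜 : SDist n M) (hB : Bl M) (C : Eu N → Gs M → M) (P : Gs M → Eu N →L[ℝ] Eu N) (c : Gs M) : Eu N →L[ℝ] Eu N :=
  (ContinuousLinearMap.adjoint (TN 𝒜 hB C P c)).comp (TN 𝒜 hB C P c) + (ContinuousLinearMap.id ℝ (Eu N) - P c)

theorem grN_inner (hB : Bl M) (c : Gs M) (x y : Eu N) :
    ⟪grN 𝒜 hB C P c x, y⟫ = ⟪TN 𝒜 hB C P c x, TN 𝒜 hB C P c y⟫ + ⟪x - P c x, y⟫ := by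
  show ⟪ContinuousLinearMap.adjoint (TN 𝒜 hB C P c) (TN 𝒜 hB C P c x) + (x - P c x), y⟫ = _
  rw [inner_add_left, ContinuousLinearMap.adjoint_inner_left]

theorem grN_inj (hB : Bl M) (hN : NegData 𝒜 κ hB C P) (c : Gs M) : Function.Injective (grN 𝒜 hB C P c) := by
  rw [injective_iff_map_eq_zero]
  intro x hx
  have h1 := grN_inner (C := C) (P := P) (𝒜 := 𝒜) hB c x x
  rw [hx, inner_zero_left] at h1
  have h2 : ⟪x - P c x, x⟫ = ⟪x - P c x, x - P c x⟫ := by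
    have h3 : ⟪x - P c x, P c x⟫ = 0 := by
      rw [← hN.symm, map_sub, hN.idem, sub_self, inner_zero_left]
    rw [inner_sub_right (x - P c x) x (P c x), h3, sub_zero]
  rw [h2, real_inner_self_eq_norm_sq, real_inner_self_eq_norm_sq] at h1
  have h4 : ‖TN 𝒜 hB C P c x‖ ^ 2 = 0 := by nlinarith [sq_nonneg ‖TN 𝒜 hB C P c x‖, sq_nonneg ‖x - P c x‖]
  have h5 : ‖x - P c x‖ ^ 2 = 0 := by nlinarith [sq_nonneg ‖TN 𝒜 hB C P c x‖, sq_nonneg ‖x - P c x‖]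
  have h6 : P c x = x := (sub_eq_zero.1 (norm_eq_zero.1 (pow_eq_zero_iff two_ne_zero |>.1 h5))).symm
  have h7 := norm_eq_zero.1 (pow_eq_zero_iff two_ne_zero |>.1 h4)
  rw [TN_apply, h6] at h7
  exact hN.ev c x h6 h7

theorem isUnit_grN (hB : Bl M) (hN : NegData 𝒜 κ hB C P) (c : Gs M) : IsUnit (grN 𝒜 hB C P c) := by
  have h1 := grN_inj hB hN c
  let e := (LinearEquiv.ofInjectiveEndo (grN 𝒜 hB C P c : Eu N →ₗ[ℝ] Eu N) h1).toContinuousLinearEquiv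
  have h2 : (e : Eu N →L[ℝ] Eu N) = grN 𝒜 hB C P c := by
    ext1 x
    rfl
  rw [← h2]
  exact ⟨ContinuousLinearEquiv.unitsEquiv ℝ (Eu N) |>.symm e, rfl⟩

/-- the inverse of the Gram operator -/
def ivN (𝒜 : SDist n M) (hB : Bl M) (C : Eu N → Gs M → M) (P : Gs M → Eu N →L[ℝ] Eu N) (c : Gs M) : Eu N →L[ℝ] Eu N :=
  Ring.inverse (grN 𝒜 hB C P c)

theorem ivN_grN (hB : Bl M) (hN : NegData 𝒜 κ hB C P) (c : Gs M) (x : Eu N) : ivN 𝒜 hB C P c (grN 𝒜 hB C P c x) = x := by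
  have h := Ring.inverse_mul_cancel _ (isUnit_grN hB hN c)
  exact congrFun (congrArg DFunLike.coe h) x

/-- the inverse of the evaluation -/
def xN (𝒜 : SDist n M) (hB : Bl M) (C : Eu N → Gs M → M) (P : Gs M → Eu N →L[ℝ] Eu N) (c : Gs M) (w : Eu n) : Eu N :=
  ivN 𝒜 hB C P c (ContinuousLinearMap.adjoint (TN 𝒜 hB C P c) w)

theorem xN_evc (hB : Bl M) (hN : NegData 𝒜 κ hB C P) {c : Gs M} {x : Eu N} (hx : P c x = x) :
    xN 𝒜 hB C P c (evc 𝒜 hB C c x) = x := by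
  have h1 : grN 𝒜 hB C P c x = ContinuousLinearMap.adjoint (TN 𝒜 hB C P c) (evc 𝒜 hB C c x) := by
    show ContinuousLinearMap.adjoint (TN 𝒜 hB C P c) (TN 𝒜 hB C P c x) + (x - P c x) = _
    rw [hx, sub_self, add_zero, TN_apply, hx]
  unfold xN
  rw [← h1, ivN_grN hB hN]

theorem exists_evc (hB : Bl M) (hk : 𝒜.HK κ) (hN : NegData 𝒜 κ hB C P) (c : Gs M) {w : Eu n} (hw : w ∈ Kc 𝒜 c) :
    ∃ x, P c x = x ∧ evc 𝒜 hB C c x = w := by
  obtain ⟨L, hL⟩ : ∃ L : LinearMap.range (P c : Eu N →ₗ[ℝ] Eu N) →ₗ[ℝ] Kc 𝒜 c,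
      ∀ x, ((L x : Kc 𝒜 c) : Eu n) = evc 𝒜 hB C c (x : Eu N) :=
    ⟨((evL (𝒜 := 𝒜) hB C c).codRestrict (Kc 𝒜 c) fun x => evc_mem hB c x).domRestrict _, fun x => rfl⟩
  have hP : ∀ x : LinearMap.range (P c : Eu N →ₗ[ℝ] Eu N), P c (x : Eu N) = x := by
    rintro ⟨_, y, rfl⟩
    exact hN.idem c y
  have hinj : Function.Injective L := by
    rw [injective_iff_map_eq_zero]
    intro x hx
    refine Subtype.ext (hN.ev c x (hP x) ?_)
    rw [← hL, hx]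
    rfl
  have hdim : finrank ℝ (LinearMap.range (P c : Eu N →ₗ[ℝ] Eu N)) = finrank ℝ (Kc 𝒜 c) := by
    rw [hN.rank c, finrank_Kc hB hk c]
  have hs := (LinearMap.injective_iff_surjective_of_finrank_eq_finrank hdim).1 hinj
  obtain ⟨x, hx⟩ := hs ⟨w, hw⟩
  exact ⟨x, hP x, by rw [← hL, hx]⟩

theorem xN_mem (hB : Bl M) (hk : 𝒜.HK κ) (hN : NegData 𝒜 κ hB C P) {c : Gs M} {w : Eu n} (hw : w ∈ Kc 𝒜 c) :
    P c (xN 𝒜 hB C P c w) = xN 𝒜 hB C P c w := by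
  obtain ⟨x, hx, rfl⟩ := exists_evc hB hk hN c hw
  rw [xN_evc hB hN hx, hx]

theorem evc_xN (hB : Bl M) (hk : 𝒜.HK κ) (hN : NegData 𝒜 κ hB C P) {c : Gs M} {w : Eu n} (hw : w ∈ Kc 𝒜 c) :
    evc 𝒜 hB C c (xN 𝒜 hB C P c w) = w := by
  obtain ⟨x, hx, rfl⟩ := exists_evc hB hk hN c hw
  rw [xN_evc hB hN hx]

theorem xN_ne (hB : Bl M) (hk : 𝒜.HK κ) (hN : NegData 𝒜 κ hB C P) {c : Gs M} {w : Eu n} (hw : w ∈ Kc 𝒜 c) (h0 : w ≠ 0) :
    xN 𝒜 hB C P c w ≠ 0 := by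
  intro h
  have h1 := evc_xN hB hk hN hw
  rw [h] at h1
  have h2 := map_zero (evL (𝒜 := 𝒜) hB C c)
  rw [evL_apply] at h2
  exact h0 (by rw [← h1, h2])

section smooth

variable {F : Type} [NormedAddCommGroup F] [NormedSpace ℝ F] {σ : F → Gs M} {u : F}

theorem TN_smV (hB : Bl M) (hk : 𝒜.HK κ) (hN : NegData 𝒜 κ hB C P) (hσ : SmGAt 𝒜 σ u) {x : F → Eu N} (hx : ContDiffAt ℝ ∞ x u)
    {p : M} (hp : (σ u).1 0 ∈ (𝒜.ψ p).source) :
    SmV 𝒜 p (fun v => (σ v).1 0) (fun v => TN 𝒜 hB C P (σ v) (x v)) u :=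
  evc_smooth hB hk hN.fam hσ ((hN.smooth hσ).clm_apply hx) hp

theorem grN_smooth (hB : Bl M) (hk : 𝒜.HK κ) (hN : NegData 𝒜 κ hB C P) (hσ : SmGAt 𝒜 σ u) :
    ContDiffAt ℝ ∞ (fun v => grN 𝒜 hB C P (σ v)) u := by
  refine contDiffAt_clm_apply_iff.2 fun y => ?_
  rw [contDiffAt_euclidean]
  intro i
  have h1 : ∀ v, (grN 𝒜 hB C P (σ v) y) i = ⟪TN 𝒜 hB C P (σ v) y, TN 𝒜 hB C P (σ v) (EuclideanSpace.single i (1 : ℝ))⟫ +
      (y - P (σ v) y) i := by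
    intro v
    have h2 := grN_inner (𝒜 := 𝒜) (C := C) (P := P) hB (σ v) y (EuclideanSpace.single i (1 : ℝ))
    rw [EuclideanSpace.inner_single_right, EuclideanSpace.inner_single_right] at h2
    simpa using h2
  simp only [h1]
  obtain ⟨p, hp⟩ : ∃ p, p = (σ u).1 0 := ⟨_, rfl⟩
  have hp' : (σ u).1 0 ∈ (𝒜.ψ p).source := by rw [hp]; exact 𝒜.mem _
  refine ContDiffAt.add ?_ ?_
  · exact SmV.inner (hσ.ev hB (t := fun _ => 0) contDiffAt_const) hp' (TN_smV hB hk hN hσ contDiffAt_const hp')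
      (TN_smV hB hk hN hσ contDiffAt_const hp')
  · have h3 : ContDiffAt ℝ ∞ (fun v => y - P (σ v) y) u := contDiffAt_const.sub ((hN.smooth hσ).clm_apply contDiffAt_const)
    exact (contDiffAt_euclidean.1 h3) i

theorem ivN_smooth (hB : Bl M) (hk : 𝒜.HK κ) (hN : NegData 𝒜 κ hB C P) (hσ : SmGAt 𝒜 σ u) :
    ContDiffAt ℝ ∞ (fun v => ivN 𝒜 hB C P (σ v)) u := by
  obtain ⟨a, ha⟩ := isUnit_grN hB hN (σ u)
  have h1 : ContDiffAt ℝ ∞ Ring.inverse (grN 𝒜 hB C P (σ u)) := by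
    rw [← ha]
    exact contDiffAt_ringInverse ℝ a
  exact ContDiffAt.comp (g := Ring.inverse) (f := fun v => grN 𝒜 hB C P (σ v)) u h1 (grN_smooth hB hk hN hσ)

theorem xN_smooth (hB : Bl M) (hk : 𝒜.HK κ) (hN : NegData 𝒜 κ hB C P) (hσ : SmGAt 𝒜 σ u) {p : M}
    (hp : (σ u).1 0 ∈ (𝒜.ψ p).source) {w : F → Eu n} (hw : SmV 𝒜 p (fun v => (σ v).1 0) w u) :
    ContDiffAt ℝ ∞ (fun v => xN 𝒜 hB C P (σ v) (w v)) u := by
  refine ContDiffAt.clm_apply (ivN_smooth hB hk hN hσ) ?_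
  rw [contDiffAt_euclidean]
  intro i
  have h1 : ∀ v, (ContinuousLinearMap.adjoint (TN 𝒜 hB C P (σ v)) (w v)) i =
      ⟪w v, TN 𝒜 hB C P (σ v) (EuclideanSpace.single i (1 : ℝ))⟫ := by
    intro v
    have h2 := ContinuousLinearMap.adjoint_inner_left (TN 𝒜 hB C P (σ v)) (EuclideanSpace.single i (1 : ℝ)) (w v)
    rw [EuclideanSpace.inner_single_right] at h2
    simpa using h2
  simp only [h1]
  exact SmV.inner (hσ.ev hB (t := fun _ => 0) contDiffAt_const) hp hw (TN_smV hB hk hN hσ contDiffAt_const hp)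

end smooth

end Pool.Agent.Lib.MP_ccbbf6_gt.L5.NEG
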