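import Pool.Agent.Lib.MP_ccbbf6_gt.L5.NK
import Pool.Agent.Lib.MP_ccbbf6_gt.L5.NL

/-!
# NM: the isomorphism of `spN` and `spD` over `spG` (Level 5, block NEG) (helper93)
-/

set_option autoImplicit false
set_option linter.unusedSectionVars false

open Set Filter Topology Metric Real Module
open scoped ContDiff RealInnerProductSpace

noncomputable section

namespace Pool.Agent.Lib.MP_ccbbf6_gt.L5.NEG

open Geo L4 L4.ORI L4.FR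

variable {n : ℕ} {M : Type} [MetricSpace M] [CompactSpace M] {𝒜 : SDist n M} {N κ : ℕ} {C : Eu N → Gs M → M}
  {P : Gs M → Eu N →L[ℝ] Eu N}

theorem spD_mem (hB : Bl M) (z : (spD 𝒜).pt) : 𝒜.vel z.1.2.1 0 ∈ Kc 𝒜 z.1.1 :=
  mem_Kc_iff.2 ⟨mem_PV_of_top 𝒜 hB z.2.1 z.2.2.1, z.2.2.2⟩

/-- the vector of the negative bundle which belongs to the orthogonal direction -/
def vN (hB : Bl M) (C : Eu N → Gs M → M) (P : Gs M → Eu N →L[ℝ] Eu N) (z : (spD 𝒜).pt) : Eu N :=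
  xN 𝒜 hB C P z.1.1 (𝒜.vel z.1.2.1 0)

theorem vN_ne (hB : Bl M) (hk : 𝒜.HK κ) (hN : NegData 𝒜 κ hB C P) (z : (spD 𝒜).pt) : vN hB C P z ≠ 0 :=
  xN_ne hB hk hN (spD_mem hB z) (vel_ne 𝒜 _)

theorem vN_smooth (hB : Bl M) (hk : 𝒜.HK κ) (hN : NegData 𝒜 κ hB C P) {k : ℕ} (p : (spD 𝒜).Plot k) :
    ContDiff ℝ ∞ (fun u => vN hB C P (p.1 u)) := by
  rw [contDiff_iff_contDiffAt]
  intro u
  obtain ⟨q, hq⟩ : ∃ q, q = (p.1 u).1.1.1 0 := ⟨_, rfl⟩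
  have hq' : (p.1 u).1.1.1 0 ∈ (𝒜.ψ q).source := by rw [hq]; exact 𝒜.mem _
  refine xN_smooth hB hk hN (σ := fun u => (p.1 u).1.1) (p.2.1.atP u) hq' ?_
  have hq2 : (p.1 u).1.2.1 0 ∈ (𝒜.ψ q).source := by
    rw [(p.1 u).2.1]
    exact hq'
  have h1 := SmGA.smV (σ := fun u => (p.1 u).1.2) hB (p.2.2.at u) hq2
  have h2 : (fun v => (p.1 v).1.2.1 0) = fun v => (p.1 v).1.1.1 0 := funext fun v => (p.1 v).2.1
  rwa [h2] at h1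

/-- `spD → spN` -/
def toN (hB : Bl M) (hk : 𝒜.HK κ) (hN : NegData 𝒜 κ hB C P) : SMap (spD 𝒜) (spN 𝒜 P) :=
  ⟨fun z => ⟨(z.1.1, ‖vN hB C P z‖⁻¹ • vN hB C P z), by
    refine ⟨?_, ?_⟩
    · show P z.1.1 (‖vN hB C P z‖⁻¹ • vN hB C P z) = ‖vN hB C P z‖⁻¹ • vN hB C P z
      rw [map_smul]
      exact congrArg _ (xN_mem hB hk hN (spD_mem hB z))
    · exact norm_nrm (vN_ne hB hk hN z)⟩, fun k p => by
    refine ⟨p.2.1, ?_⟩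
    have h := vN_smooth hB hk hN p
    exact ((h.norm ℝ fun u => vN_ne hB hk hN (p.1 u)).inv fun u => norm_ne_zero_iff.2 (vN_ne hB hk hN (p.1 u))).smul h⟩

theorem evc_smul' (hB : Bl M) (c : Gs M) (r : ℝ) (x : Eu N) : evc 𝒜 hB C c (r • x) = r • evc 𝒜 hB C c x := by
  have h := map_smul (evL (𝒜 := 𝒜) hB C c) r x
  rwa [evL_apply, evL_apply] at h

theorem toD_toN (hB : Bl M) (hk : 𝒜.HK κ) (hN : NegData 𝒜 κ hB C P) (z : (spD 𝒜).pt) :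
    (toD hB hk hN).1 ((toN hB hk hN).1 z) = z := by
  refine Subtype.ext (Prod.ext rfl ?_)
  show gw 𝒜 hB z.1.1 (evc 𝒜 hB C z.1.1 (‖vN hB C P z‖⁻¹ • vN hB C P z)) = z.1.2
  have h0 : (0 : ℝ) < ‖vN hB C P z‖⁻¹ := inv_pos.2 (norm_pos_iff.2 (vN_ne hB hk hN z))
  have h1 : evc 𝒜 hB C z.1.1 (‖vN hB C P z‖⁻¹ • vN hB C P z) = ‖vN hB C P z‖⁻¹ • 𝒜.vel z.1.2.1 0 := by
    rw [evc_smul']
    exact congrArg _ (evc_xN hB hk hN (spD_mem hB z))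
  rw [h1]
  refine eq_of_vel' 𝒜 (by rw [gw_zero, z.2.1]) ?_
  rw [gw_vel 𝒜 hB _ (smul_ne_zero h0.ne' (vel_ne 𝒜 _))]
  unfold nrm
  rw [norm_smul, Real.norm_of_nonneg h0.le, vel_norm, mul_one, smul_smul, inv_mul_cancel₀ h0.ne', one_smul]

theorem toN_toD (hB : Bl M) (hk : 𝒜.HK κ) (hN : NegData 𝒜 κ hB C P) (z : (spN 𝒜 P).pt) :
    (toN hB hk hN).1 ((toD hB hk hN).1 z) = z := by
  have h0 := evc_ne hB hN z
  have h1 : vN hB C P ((toD hB hk hN).1 z) = ‖evc 𝒜 hB C z.1.1 z.1.2‖⁻¹ • z.1.2 := by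
    show xN 𝒜 hB C P z.1.1 (𝒜.vel (gw 𝒜 hB z.1.1 (evc 𝒜 hB C z.1.1 z.1.2)).1 0) = _
    rw [gw_vel 𝒜 hB _ h0]
    unfold nrm
    rw [← evc_smul' hB z.1.1 _ z.1.2]
    refine xN_evc hB hN ?_
    rw [map_smul]
    exact congrArg _ z.2.1
  refine Subtype.ext (Prod.ext rfl ?_)
  show ‖vN hB C P ((toD hB hk hN).1 z)‖⁻¹ • vN hB C P ((toD hB hk hN).1 z) = z.1.2
  have h2 : (0 : ℝ) < ‖evc 𝒜 hB C z.1.1 z.1.2‖⁻¹ := inv_pos.2 (norm_pos_iff.2 h0)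
  rw [h1, norm_smul, Real.norm_of_nonneg h2.le, z.2.2, mul_one, smul_smul, inv_mul_cancel₀ h2.ne', one_smul]

end Pool.Agent.Lib.MP_ccbbf6_gt.L5.NEG
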