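import Pool.Agent.Lib.MP_ccbbf6_gt.L4.Deg
import Pool.Agent.Lib.MP_ccbbf6_gt.L4.Eps

/-!
# Level 5, block PER, part 1: the degree of a map of the cube to `ℝ^N` which is large on the boundary
-/

set_option autoImplicit false

open Set Filter Topology MeasureTheory Metric
open scoped ContDiff

noncomputable section

namespace Pool.Agent.Lib.MP_ccbbf6_gt.L5

open Geo L4 L4.FR

namespace DB

variable {N : ℕ}

/-- smooth map of the line, the identity on `[0, 1]`, with values in `[-δ, 1 + δ]` -/
def tau (δ t : ℝ) : ℝ :=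
  (1 - Real.smoothTransition ((t - 1) / δ) - Real.smoothTransition (-t / δ)) * t +
    Real.smoothTransition ((t - 1) / δ) * (1 + δ) + Real.smoothTransition (-t / δ) * (-δ)

theorem contDiff_tau (δ : ℝ) : ContDiff ℝ ∞ (tau δ) := by
  have h1 : ContDiff ℝ ∞ fun t : ℝ => Real.smoothTransition ((t - 1) / δ) :=
    Real.smoothTransition.contDiff.comp ((contDiff_id.sub contDiff_const).div_const δ)
  have h2 : ContDiff ℝ ∞ fun t : ℝ => Real.smoothTransition (-t / δ) :=
    Real.smoothTransition.contDiff.comp (contDiff_id.neg.div_const δ)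
  exact ((((contDiff_const.sub h1).sub h2).mul contDiff_id).add (h1.mul contDiff_const)).add (h2.mul contDiff_const)

theorem tau_id {δ t : ℝ} (hδ : 0 < δ) (h0 : 0 ≤ t) (h1 : t ≤ 1) : tau δ t = t := by
  unfold tau
  rw [Real.smoothTransition.zero_of_nonpos (div_nonpos_of_nonpos_of_nonneg (by linarith) hδ.le),
    Real.smoothTransition.zero_of_nonpos (div_nonpos_of_nonpos_of_nonneg (by linarith) hδ.le)]
  ring

theorem tau_ge {δ t : ℝ} (hδ : 0 < δ) (h1 : 1 ≤ t) : 1 ≤ tau δ t ∧ tau δ t ≤ 1 + δ := by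
  unfold tau
  rw [Real.smoothTransition.zero_of_nonpos (x := -t / δ) (div_nonpos_of_nonpos_of_nonneg (by linarith) hδ.le)]
  have h2 := Real.smoothTransition.nonneg ((t - 1) / δ)
  have h3 := Real.smoothTransition.le_one ((t - 1) / δ)
  by_cases h4 : t ≤ 1 + δ
  · constructor <;> nlinarith
  · rw [Real.smoothTransition.one_of_one_le (by rw [le_div_iff₀ hδ]; linarith [not_le.1 h4])]
    constructor <;> linarith

theorem tau_le {δ t : ℝ} (hδ : 0 < δ) (h1 : t ≤ 0) : -δ ≤ tau δ t ∧ tau δ t ≤ 0 := by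
  unfold tau
  rw [Real.smoothTransition.zero_of_nonpos (x := (t - 1) / δ) (div_nonpos_of_nonpos_of_nonneg (by linarith) hδ.le)]
  have h2 := Real.smoothTransition.nonneg (-t / δ)
  have h3 := Real.smoothTransition.le_one (-t / δ)
  by_cases h4 : -δ ≤ t
  · constructor <;> nlinarith
  · rw [Real.smoothTransition.one_of_one_le (by rw [le_div_iff₀ hδ]; linarith [not_le.1 h4])]
    constructor <;> linarith

theorem tau_bd {δ : ℝ} (hδ : 0 < δ) (t : ℝ) : -δ ≤ tau δ t ∧ tau δ t ≤ 1 + δ := by
  rcases le_total t 0 with h | h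
  · have := tau_le hδ h
    exact ⟨this.1, by linarith [this.2]⟩
  · rcases le_total 1 t with h' | h'
    · have := tau_ge hδ h'
      exact ⟨by linarith [this.1], this.2⟩
    · rw [tau_id hδ h h']
      constructor <;> linarith

/-- a function which vanishes on `[0, 1]` and grows -/
def phi (t : ℝ) : ℝ := Real.smoothTransition (t - 1) * t + Real.smoothTransition (-t) * (-t)

theorem contDiff_phi : ContDiff ℝ ∞ phi := by
  have h1 : ContDiff ℝ ∞ fun t : ℝ => Real.smoothTransition (t - 1) :=
    Real.smoothTransition.contDiff.comp (contDiff_id.sub contDiff_const)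
  have h2 : ContDiff ℝ ∞ fun t : ℝ => Real.smoothTransition (-t) :=
    Real.smoothTransition.contDiff.comp contDiff_id.neg
  exact (h1.mul contDiff_id).add (h2.mul contDiff_id.neg)

theorem phi_zero {t : ℝ} (h0 : 0 ≤ t) (h1 : t ≤ 1) : phi t = 0 := by
  unfold phi
  rw [Real.smoothTransition.zero_of_nonpos (by linarith), Real.smoothTransition.zero_of_nonpos (by linarith)]
  ring

theorem phi_nonneg (t : ℝ) : 0 ≤ phi t := by
  unfold phi
  have h2 := Real.smoothTransition.nonneg (t - 1)
  have h3 := Real.smoothTransition.nonneg (-t)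
  rcases le_total t 0 with h | h
  · rw [Real.smoothTransition.zero_of_nonpos (x := t - 1) (by linarith)]
    have := mul_nonneg h3 (neg_nonneg.2 h)
    linarith
  · rw [Real.smoothTransition.zero_of_nonpos (x := -t) (by linarith)]
    have := mul_nonneg h2 h
    linarith

theorem phi_ge (t : ℝ) : |t| - 2 ≤ phi t := by
  by_cases h1 : 2 ≤ t
  · unfold phi
    rw [Real.smoothTransition.one_of_one_le (by linarith), Real.smoothTransition.zero_of_nonpos (by linarith),
      abs_of_nonneg (by linarith)]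
    linarith
  · by_cases h2 : t ≤ -1
    · unfold phi
      rw [Real.smoothTransition.one_of_one_le (x := -t) (by linarith), Real.smoothTransition.zero_of_nonpos (by linarith),
        abs_of_nonpos (by linarith)]
      linarith
    · have h3 := phi_nonneg t
      have h4 : |t| ≤ 2 := abs_le.2 ⟨by linarith [not_le.1 h2], (not_le.1 h1).le⟩
      linarith

/-- the boundary of the cube -/
def bd (N : ℕ) : Set (V N) := {x | x ∈ Icc (0 : V N) 1 ∧ ∃ i, x i = 0 ∨ x i = 1}

theorem isCompact_bd : IsCompact (bd N) := by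
  have h1 : bd N = Icc (0 : V N) 1 ∩ ⋃ i, ({x | x i = 0} ∪ {x | x i = 1}) := by
    ext x
    simp [bd]
  rw [h1]
  refine isCompact_Icc.inter_right (isClosed_iUnion_of_finite fun i => ?_)
  exact (isClosed_eq (continuous_apply i) continuous_const).union (isClosed_eq (continuous_apply i) continuous_const)

/-- **the degree of a map of the cube which is large on the boundary** -/
theorem deg_ball (y : FR.Sm N N) (hy : ∀ x ∈ Icc (0 : V N) 1, (∃ i, x i = 0 ∨ x i = 1) → 2 < ‖toE (y x)‖) :
    ∃ k : ℤ, ∀ f : V N → ℝ, ContDiff ℝ ∞ f → HasCompactSupport f → (∀ w, 2 < ‖toE w‖ → f w = 0) →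
      ∫ x in Icc (0 : V N) 1, f (y x) * (fderiv ℝ (y : V N → V N) x).det = k * ∫ w, f w := by
  -- the collar
  have hopen : IsOpen {x : V N | 2 < ‖toE (y x)‖} :=
    isOpen_lt continuous_const (contDiff_toE.continuous.comp y.smooth.continuous).norm
  obtain ⟨δ, hδ, hδs⟩ := isCompact_bd.exists_cthickening_subset_open hopen (fun x (hx : x ∈ bd N) => hy x hx.1 hx.2)
  let κ : FR.Sm N N := ⟨fun z i => tau δ (z i), contDiff_pi.2 fun i => (contDiff_tau δ).comp (contDiff_apply ℝ ℝ i)⟩
  have hκid : ∀ z ∈ Icc (0 : V N) 1, κ z = z := fun z hz => funext fun i => tau_id hδ (hz.1 i) (hz.2 i)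
  have hκout : ∀ z ∉ Icc (0 : V N) 1, 2 < ‖toE (y (κ z))‖ := by
    intro z hz
    refine hδs ?_
    -- the nearest point of the cube
    obtain ⟨w, hw⟩ : ∃ w : V N, w = fun i => max 0 (min 1 (κ z i)) := ⟨_, rfl⟩
    have hwm : w ∈ bd N := by
      constructor
      · rw [hw]
        exact ⟨fun i => le_max_left _ _, fun i => max_le zero_le_one (min_le_left _ _)⟩
      · have h1 : ∃ i, z i < 0 ∨ 1 < z i := by
          by_contra hcon
          push Not at hcon
          exact hz ⟨fun i => (hcon i).1, fun i => (hcon i).2⟩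
        obtain ⟨i, hi⟩ := h1
        refine ⟨i, ?_⟩
        rcases hi with hi | hi
        · left
          rw [hw]
          change max 0 (min 1 (tau δ (z i))) = 0
          have := tau_le hδ hi.le
          rw [min_eq_right (by linarith [this.2]), max_eq_left this.2]
        · right
          rw [hw]
          change max 0 (min 1 (tau δ (z i))) = 1
          have := tau_ge hδ hi.le
          rw [min_eq_left this.1, max_eq_right zero_le_one]
    refine mem_cthickening_of_dist_le _ w δ _ hwm ?_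
    rw [dist_pi_le_iff hδ.le]
    intro i
    rw [hw, Real.dist_eq]
    change |tau δ (z i) - max 0 (min 1 (tau δ (z i)))| ≤ δ
    have h1 := tau_bd hδ (z i)
    rcases le_total (tau δ (z i)) 0 with h2 | h2
    · rw [min_eq_right (by linarith), max_eq_left h2, sub_zero, abs_of_nonpos h2]
      linarith [h1.1]
    · rcases le_total 1 (tau δ (z i)) with h3 | h3
      · rw [min_eq_left h3, max_eq_right zero_le_one, abs_of_nonneg (by linarith)]
        linarith [h1.2]
      · rw [min_eq_right h3, max_eq_right h2, sub_self, abs_zero]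
        exact hδ.le
  -- the proper extension
  obtain ⟨ρ, hρ⟩ : ∃ ρ : V N → ℝ, ρ = fun z => ∑ i, phi (z i) := ⟨_, rfl⟩
  have hρs : ContDiff ℝ ∞ ρ := by
    rw [hρ]
    exact ContDiff.sum fun i _ => contDiff_phi.comp (contDiff_apply ℝ ℝ i)
  have hρ0 : ∀ z ∈ Icc (0 : V N) 1, ρ z = 0 := by
    intro z hz
    rw [hρ]
    exact Finset.sum_eq_zero fun i _ => phi_zero (hz.1 i) (hz.2 i)
  have hρn : ∀ z, 0 ≤ ρ z := by
    intro z
    rw [hρ]
    exact Finset.sum_nonneg fun i _ => phi_nonneg _
  have hρg : ∀ z, ‖z‖ - 2 ≤ ρ z := by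
    intro z
    have h1 : ‖z‖ ≤ ρ z + 2 := by
      rw [pi_norm_le_iff_of_nonneg (by linarith [hρn z])]
      intro i
      rw [Real.norm_eq_abs]
      have h2 := phi_ge (z i)
      have h3 : phi (z i) ≤ ρ z := by
        rw [hρ]
        exact Finset.single_le_sum (f := fun i => phi (z i)) (fun j _ => phi_nonneg _) (Finset.mem_univ i)
      linarith
    linarith
  obtain ⟨H, hH⟩ : ∃ H : V N → V N, H = fun z => (1 + ρ z) • y (κ z) := ⟨_, rfl⟩
  have hHs : ContDiff ℝ ∞ H := by
    rw [hH]
    exact (contDiff_const.add hρs).smul (y.smooth.comp κ.smooth)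
  have hHin : ∀ z ∈ Icc (0 : V N) 1, H z = y z := by
    intro z hz
    rw [hH]
    change (1 + ρ z) • y (κ z) = y z
    rw [hρ0 z hz, hκid z hz, add_zero, one_smul]
  have hHout : ∀ z ∉ Icc (0 : V N) 1, 2 * (1 + ρ z) < ‖toE (H z)‖ := by
    intro z hz
    have h1 := hκout z hz
    have h2 : toE (H z) = (1 + ρ z) • toE (y (κ z)) := by
      rw [hH]
      rfl
    rw [h2, norm_smul, Real.norm_eq_abs, abs_of_nonneg (by linarith [hρn z])]
    nlinarith [hρn z]
  have hprop : Tendsto H (cocompact _) (cocompact _) := by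
    -- norms
    obtain ⟨C, hC⟩ : ∃ C : ℝ, ∀ w : V N, ‖toE w‖ ≤ C * ‖w‖ :=
      ⟨‖((PiLp.continuousLinearEquiv 2 ℝ (fun _ : Fin N => ℝ)).symm : V N →L[ℝ] EuclideanSpace ℝ (Fin N))‖, fun w =>
        ((PiLp.continuousLinearEquiv 2 ℝ (fun _ : Fin N => ℝ)).symm : V N →L[ℝ] EuclideanSpace ℝ (Fin N)).le_opNorm w⟩
    have hC' : ∀ w : V N, ‖toE w‖ ≤ (|C| + 1) * ‖w‖ := fun w =>
      (hC w).trans (mul_le_mul_of_nonneg_right ((le_abs_self C).trans (by linarith)) (norm_nonneg _))
    have hC1 : 0 < |C| + 1 := by positivity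
    rw [← Metric.cobounded_eq_cocompact, ← tendsto_norm_atTop_iff_cobounded, Filter.tendsto_atTop]
    intro R
    have h1 : ∀ᶠ z : V N in Bornology.cobounded (V N), max 2 ((|C| + 1) * R + 2) < ‖z‖ := by
      have h2 := (tendsto_norm_cobounded_atTop (E := V N)).eventually (eventually_gt_atTop (max 2 ((|C| + 1) * R + 2)))
      exact h2
    filter_upwards [h1] with z hz
    have h3 : z ∉ Icc (0 : V N) 1 := by
      intro h4
      have h5 : ‖z‖ ≤ 1 := by
        rw [pi_norm_le_iff_of_nonneg zero_le_one]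
        intro i
        rw [Real.norm_eq_abs, abs_of_nonneg (h4.1 i)]
        exact h4.2 i
      linarith [le_max_left 2 ((|C| + 1) * R + 2)]
    have h6 := hHout z h3
    have h7 := hC' (H z)
    have h8 := hρg z
    have h9 : (|C| + 1) * R < (|C| + 1) * ‖H z‖ := by linarith [le_max_right 2 ((|C| + 1) * R + 2), hρn z]
    exact (lt_of_mul_lt_mul_left h9 hC1.le).le
  obtain ⟨k, hk⟩ := L4.DEG.deg_int' H hHs hprop
  refine ⟨k, fun f hf hfc hf0 => ?_⟩
  rw [← hk f hf hfc]
  symm
  rw [← setIntegral_eq_integral_of_forall_compl_eq_zero (s := Icc (0 : V N) 1)]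
  · refine setIntegral_congr_fun measurableSet_Icc fun x hx => ?_
    change f (H x) * (fderiv ℝ H x).det = f (y x) * (fderiv ℝ (y : V N → V N) x).det
    by_cases hb : ∃ i, x i = 0 ∨ x i = 1
    · rw [hHin x hx, hf0 _ (hy x hx hb), zero_mul, zero_mul]
    · push Not at hb
      have h1 : Icc (0 : V N) 1 ∈ 𝓝 x := by
        have h2 : (⋂ i : Fin N, {z : V N | z i ∈ Ioo (0 : ℝ) 1}) ∈ 𝓝 x := by
          refine (isOpen_iInter_of_finite fun i => isOpen_Ioo.preimage (continuous_apply i)).mem_nhds ?_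
          rw [mem_iInter]
          exact fun i => ⟨lt_of_le_of_ne (hx.1 i) (Ne.symm (hb i).1), lt_of_le_of_ne (hx.2 i) (hb i).2⟩
        refine mem_of_superset h2 fun z hz => ?_
        rw [mem_iInter] at hz
        exact ⟨fun i => (hz i).1.le, fun i => (hz i).2.le⟩
      have h3 : H =ᶠ[𝓝 x] (y : V N → V N) := by
        filter_upwards [h1] with z hz
        exact hHin z hz
      rw [hHin x hx, h3.fderiv_eq]
  · intro x hx
    have h1 := hHout x hx
    rw [hf0 _ (by linarith [hρn x]), zero_mul]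

end DB

end Pool.Agent.Lib.MP_ccbbf6_gt.L5
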