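import Pool.Agent.Lib.MP_ccbbf6_gt.L5.EPS05
import Pool.Agent.Lib.MP_ccbbf6_gt.L5.EPS07
import Pool.Agent.Lib.MP_ccbbf6_gt.L5.PER01
import Pool.Agent.Lib.MP_ccbbf6_gt.L5.PER02

/-!
# Level 5, block PER, part 4: frames and coordinates of a generic section
-/

set_option autoImplicit false

open Set Filter Topology MeasureTheory Metric Module
open scoped ContDiff ENNReal

noncomputable section

namespace Pool.Agent.Lib.MP_ccbbf6_gt.L5.PE

open Geo L4 L4.FR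

variable {k l n r m : ℕ}

/-- complementary frames over the cube -/
theorem exists_frames {Q : V k → Eu n →L[ℝ] Eu n} (hQ : ContDiff ℝ ∞ Q) (hid : ∀ z, (Q z).comp (Q z) = Q z)
    (hrk : finrank ℝ (LinearMap.range (Q 0 : Eu n →ₗ[ℝ] Eu n)) ≤ r)
    {L : Eu r →L[ℝ] Eu n} (hL : (Q 0).comp L = L) (hinj : ∀ a, L a = 0 → a = 0) :
    ∃ (m : ℕ) (κ : FR.Sm k k) (B : V k → Eu r →L[ℝ] Eu n) (B' : V k → Eu m →L[ℝ] Eu n), r + m = n ∧
      (∀ z ∈ Icc (0 : V k) 1, ∀ᶠ w in 𝓝 z, κ w = w) ∧ ContDiff ℝ ∞ B ∧ ContDiff ℝ ∞ B' ∧ B 0 = L ∧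
      (∀ z, (Q (κ z)).comp (B z) = B z) ∧ (∀ z, (Q (κ z)).comp (B' z) = 0) ∧
      (∀ z a, B z a = 0 → a = 0) ∧ (∀ z a, B' z a = 0 → a = 0) := by
  have h00 : (0 : V k) ∈ Icc (0 : V k) 1 := ⟨le_rfl, zero_le_one⟩
  -- dimensions
  have hLi : Function.Injective (L : Eu r →ₗ[ℝ] Eu n) := by
    rw [← LinearMap.ker_eq_bot, eq_bot_iff]
    exact fun a ha => hinj a ha
  have hrk' : finrank ℝ (LinearMap.range (Q 0 : Eu n →ₗ[ℝ] Eu n)) = r := by
    refine le_antisymm hrk ?_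
    have h1 := LinearMap.finrank_range_of_inj hLi
    rw [finrank_euclideanSpace_fin] at h1
    rw [← h1]
    refine Submodule.finrank_mono ?_
    rintro _ ⟨a, rfl⟩
    exact ⟨L a, DFunLike.congr_fun hL a⟩
  have hker := LinearMap.finrank_range_add_finrank_ker (Q 0 : Eu n →ₗ[ℝ] Eu n)
  rw [hrk', finrank_euclideanSpace_fin] at hker
  obtain ⟨κ₁, B₁, hκ₁, hB₁, hB₁0, hQB₁, hB₁i⟩ := exists_frame hQ hid hL hinj
  -- the complement
  obtain ⟨m, hm⟩ : ∃ m, m = finrank ℝ (LinearMap.ker (Q 0 : Eu n →ₗ[ℝ] Eu n)) := ⟨_, rfl⟩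
  have e : Eu m ≃ₗ[ℝ] LinearMap.ker (Q 0 : Eu n →ₗ[ℝ] Eu n) :=
    LinearEquiv.ofFinrankEq _ _ (by rw [finrank_euclideanSpace_fin, hm])
  let L' : Eu m →L[ℝ] Eu n := LinearMap.toContinuousLinearMap ((Submodule.subtype _).comp e.toLinearMap)
  have hL'0 : ∀ a, Q 0 (L' a) = 0 := fun a => (e a).2
  have hL'i : ∀ a, L' a = 0 → a = 0 := fun a ha => by
    have h1 : e a = 0 := Subtype.ext ha
    exact e.map_eq_zero_iff.1 h1
  have hκ₁0 : κ₁ (0 : V k) = 0 := (hκ₁ 0 h00).self_of_nhds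
  obtain ⟨κ₂, B', hκ₂, hB', _, hQB', hB'i⟩ := exists_frame (Q := fun z => ContinuousLinearMap.id ℝ (Eu n) - Q (κ₁ z))
    (contDiff_const.sub (hQ.comp κ₁.smooth))
    (fun z => by
      ext v
      have h1 := DFunLike.congr_fun (hid (κ₁ z)) v
      change (v - Q (κ₁ z) v - Q (κ₁ z) (v - Q (κ₁ z) v)) _ = (v - Q (κ₁ z) v) _
      change Q (κ₁ z) (Q (κ₁ z) v) = Q (κ₁ z) v at h1
      rw [map_sub, h1, sub_self, sub_zero]) (L0 := L')
    (by
      ext a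
      change (L' a - Q (κ₁ 0) (L' a)) _ = L' a _
      rw [hκ₁0, hL'0, sub_zero]) hL'i
  have hκ₂0 : κ₂ (0 : V k) = 0 := (hκ₂ 0 h00).self_of_nhds
  refine ⟨m, κ₁.comp κ₂, fun z => B₁ (κ₂ z), B', by omega, fun z hz => ?_, hB₁.comp κ₂.smooth, hB', ?_, fun z => hQB₁ (κ₂ z),
    fun z => ?_, fun z => hB₁i (κ₂ z), hB'i⟩
  · have h1 := (hκ₂ z hz).self_of_nhds
    have h2 : Tendsto (κ₂ : V k → V k) (𝓝 z) (𝓝 z) := by
      have := κ₂.smooth.continuous.tendsto z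
      rwa [h1] at this
    filter_upwards [hκ₂ z hz, h2.eventually (hκ₁ z hz)] with w hw1 hw2
    change κ₁ (κ₂ w) = w
    rw [hw2, hw1]
  · change B₁ (κ₂ 0) = L
    rw [hκ₂0, hB₁0]
  · ext a
    have h1 := DFunLike.congr_fun (hQB' z) a
    change B' z a - Q (κ₁ (κ₂ z)) (B' z a) = B' z a at h1
    change Q (κ₁ (κ₂ z)) (B' z a) _ = (0 : Eu n) _
    have h2 : Q (κ₁ (κ₂ z)) (B' z a) = 0 := by
      have h3 := sub_eq_self.1 h1
      exact h3
    rw [h2]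

section frames

variable {κ : FR.Sm k k} {Q : V k → Eu n →L[ℝ] Eu n} {B : V k → Eu r →L[ℝ] Eu n} {B' : V k → Eu m →L[ℝ] Eu n}

/-- the frame as an isomorphism -/
theorem frame_equiv (hrm : r + m = n) {z : V k} (hid : (Q (κ z)).comp (Q (κ z)) = Q (κ z)) (h1 : (Q (κ z)).comp (B z) = B z)
    (h2 : (Q (κ z)).comp (B' z) = 0) (h3 : ∀ a, B z a = 0 → a = 0) (h4 : ∀ a, B' z a = 0 → a = 0) :
    ∃ e : (Eu r × Eu m) ≃L[ℝ] Eu n, (e : (Eu r × Eu m) →L[ℝ] Eu n) = (B z).coprod (B' z) := by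
  have hinj : Function.Injective ((B z).coprod (B' z) : (Eu r × Eu m) →ₗ[ℝ] Eu n) := by
    rw [← LinearMap.ker_eq_bot, eq_bot_iff]
    rintro ⟨a, b⟩ hab
    have hab' : B z a + B' z b = 0 := hab
    have h5 := congrArg (Q (κ z)) hab'
    have h6 : Q (κ z) (B z a) = B z a := DFunLike.congr_fun h1 a
    have h7 : Q (κ z) (B' z b) = 0 := DFunLike.congr_fun h2 b
    rw [map_add, h6, h7, add_zero, map_zero] at h5
    rw [h5, zero_add] at hab'
    rw [h3 a h5, h4 b hab']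
    exact Submodule.zero_mem _
  have hfr : finrank ℝ (Eu r × Eu m) = finrank ℝ (Eu n) := by
    rw [finrank_prod, finrank_euclideanSpace_fin, finrank_euclideanSpace_fin, finrank_euclideanSpace_fin, hrm]
  let e0 := LinearEquiv.ofInjectiveOfFinrankEq ((B z).coprod (B' z) : (Eu r × Eu m) →ₗ[ℝ] Eu n) hinj hfr
  exact ⟨e0.toContinuousLinearEquiv, ContinuousLinearMap.ext fun v => rfl⟩

/-- the coordinates of the section `Q v` -/
def cyy (B : V k → Eu r →L[ℝ] Eu n) (B' : V k → Eu m →L[ℝ] Eu n) (v : Eu n) (z : V k) : Eu r :=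
  (((B z).coprod (B' z)).inverse v).1

theorem contDiff_cyy (hB : ContDiff ℝ ∞ B) (hB' : ContDiff ℝ ∞ B')
    (he : ∀ z, ∃ e : (Eu r × Eu m) ≃L[ℝ] Eu n, (e : (Eu r × Eu m) →L[ℝ] Eu n) = (B z).coprod (B' z)) (v : Eu n) :
    ContDiff ℝ ∞ (cyy B B' v) := by
  rw [contDiff_iff_contDiffAt]
  intro z
  obtain ⟨e, hez⟩ := he z
  have h1 : ContDiff ℝ ∞ fun z => (B z).coprod (B' z) := by
    have h2 : (fun z => (B z).coprod (B' z)) = fun z => (B z).comp (ContinuousLinearMap.fst ℝ (Eu r) (Eu m)) +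
        (B' z).comp (ContinuousLinearMap.snd ℝ (Eu r) (Eu m)) := by
      funext z
      ext v
      · simp
      · simp
    rw [h2]
    exact (hB.clm_comp contDiff_const).add (hB'.clm_comp contDiff_const)
  have h3 : ContDiffAt ℝ ∞ (fun z => ((B z).coprod (B' z)).inverse) z := by
    have h4 := contDiffAt_map_inverse (n := ∞) e
    rw [hez] at h4
    exact h4.comp z h1.contDiffAt
  exact (h3.clm_apply contDiffAt_const).fst

theorem cyy_spec (he : ∀ z, ∃ e : (Eu r × Eu m) ≃L[ℝ] Eu n, (e : (Eu r × Eu m) →L[ℝ] Eu n) = (B z).coprod (B' z))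
    (v : Eu n) (z : V k) : ∃ b, v = B z (cyy B B' v z) + B' z b := by
  obtain ⟨e, hez⟩ := he z
  refine ⟨(((B z).coprod (B' z)).inverse v).2, ?_⟩
  have h1 : ((B z).coprod (B' z)) (((B z).coprod (B' z)).inverse v) = v := by
    rw [← hez, ContinuousLinearMap.inverse_equiv]
    exact e.apply_symm_apply v
  exact h1.symm

theorem B_cyy (he : ∀ z, ∃ e : (Eu r × Eu m) ≃L[ℝ] Eu n, (e : (Eu r × Eu m) →L[ℝ] Eu n) = (B z).coprod (B' z))
    (h1 : ∀ z, (Q (κ z)).comp (B z) = B z) (h2 : ∀ z, (Q (κ z)).comp (B' z) = 0) (v : Eu n) (z : V k) :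
    B z (cyy B B' v z) = Q (κ z) v := by
  obtain ⟨b, hb⟩ := cyy_spec he v z
  conv_rhs => rw [hb]
  have h6 : Q (κ z) (B z (cyy B B' v z)) = B z (cyy B B' v z) := DFunLike.congr_fun (h1 z) _
  have h7 : Q (κ z) (B' z b) = 0 := DFunLike.congr_fun (h2 z) b
  rw [map_add, h6, h7, add_zero]

theorem cyy_smul (he : ∀ z, ∃ e : (Eu r × Eu m) ≃L[ℝ] Eu n, (e : (Eu r × Eu m) →L[ℝ] Eu n) = (B z).coprod (B' z))
    (t : ℝ) (v : Eu n) (z : V k) : cyy B B' (t • v) z = t • cyy B B' v z := by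
  unfold cyy
  rw [map_smul]
  rfl

end frames

/-- a generic vector is not in the complement over the faces -/
theorem exists_generic {B' : V (k + 1) → Eu m →L[ℝ] Eu n} (hB' : ContDiff ℝ ∞ B') (hkm : k + m < n) :
    ∃ v : Eu n, ∀ x : V (k + 1), (∃ i, x i = 0 ∨ x i = 1) → ∀ b, B' x b ≠ v := by
  let S : Fin (k + 1) × Bool → Set (Eu n) := fun j =>
    range fun z : V k × Eu m => B' (emb j.1 (if j.2 then 1 else 0) z.1) z.2
  have h1 : dimH (⋃ j, S j) < finrank ℝ (Eu n) := by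
    rw [dimH_iUnion]
    have h2 : ∀ j, dimH (S j) ≤ (finrank ℝ (V k × Eu m) : ℝ≥0∞) := by
      intro j
      refine ContDiff.dimH_range_le ?_
      have h3 : ContDiff ℝ ∞ fun z : V k × Eu m => B' (emb j.1 (if j.2 then 1 else 0) z.1) z.2 :=
        (hB'.comp ((emb j.1 (if j.2 then 1 else 0)).smooth.comp contDiff_fst)).clm_apply contDiff_snd
      exact h3.of_le ENat.LEInfty.out
    refine lt_of_le_of_lt (iSup_le h2) ?_
    rw [finrank_prod, finrank_fin_fun, finrank_euclideanSpace_fin, finrank_euclideanSpace_fin]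
    exact_mod_cast hkm
  obtain ⟨v, hv⟩ := (dense_compl_of_dimH_lt_finrank h1).nonempty
  refine ⟨v, fun x hx b hb => hv ?_⟩
  obtain ⟨i, hi⟩ := hx
  have h2 : ∀ c : ℝ, x i = c → x = emb i c (fun j => x (i.succAbove j)) := by
    intro c hc
    funext j
    refine Fin.succAboveCases i ?_ (fun j => ?_) j
    · rw [emb_same, hc]
    · rw [emb_succAbove]
  rcases hi with hi | hi
  · rw [mem_iUnion]
    refine ⟨(i, false), ⟨(fun j => x (i.succAbove j), b), ?_⟩⟩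
    change B' (emb i (if false = true then 1 else 0) _) b = v
    rw [if_neg (by decide), ← h2 0 hi, hb]
  · rw [mem_iUnion]
    refine ⟨(i, true), ⟨(fun j => x (i.succAbove j), b), ?_⟩⟩
    change B' (emb i (if true = true then 1 else 0) _) b = v
    rw [if_pos rfl, ← h2 1 hi, hb]

/-- **coordinates of a generic section, large on the boundary** -/
theorem exists_section {Q : V (r + 1) → Eu n →L[ℝ] Eu n} (hQ : ContDiff ℝ ∞ Q) (hid : ∀ z, (Q z).comp (Q z) = Q z)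
    (hrk : finrank ℝ (LinearMap.range (Q 0 : Eu n →ₗ[ℝ] Eu n)) ≤ r + 1)
    {L : Eu (r + 1) →L[ℝ] Eu n} (hL : (Q 0).comp L = L) (hinj : ∀ a, L a = 0 → a = 0) :
    ∃ (κ : FR.Sm (r + 1) (r + 1)) (B : V (r + 1) → Eu (r + 1) →L[ℝ] Eu n) (y : FR.Sm (r + 1) (r + 1)) (v : Eu n),
      (∀ z ∈ Icc (0 : V (r + 1)) 1, ∀ᶠ w in 𝓝 z, κ w = w) ∧ ContDiff ℝ ∞ B ∧ B 0 = L ∧
      (∀ z, (Q (κ z)).comp (B z) = B z) ∧ (∀ z a, B z a = 0 → a = 0) ∧
      (∀ z, B z (toE (y z)) = Q (κ z) v) ∧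
      (∀ x ∈ Icc (0 : V (r + 1)) 1, (∃ i, x i = 0 ∨ x i = 1) → 2 < ‖toE (y x)‖) := by
  obtain ⟨m, κ, B, B', hrm, hκ, hB, hB', hB0, h1, h2, h3, h4⟩ := exists_frames hQ hid hrk hL hinj
  have he : ∀ z, ∃ e : (Eu (r + 1) × Eu m) ≃L[ℝ] Eu n,
      (e : (Eu (r + 1) × Eu m) →L[ℝ] Eu n) = (B z).coprod (B' z) := fun z =>
    frame_equiv hrm (hid (κ z)) (h1 z) (h2 z) (h3 z) (h4 z)
  obtain ⟨v, hv⟩ := exists_generic hB' (show r + m < n by omega)
  -- the section does not vanish on the boundary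
  have hne : ∀ x : V (r + 1), (∃ i, x i = 0 ∨ x i = 1) → cyy B B' v x ≠ 0 := by
    intro x hx h0
    obtain ⟨b, hb⟩ := cyy_spec he v x
    rw [h0, map_zero, zero_add] at hb
    exact hv x hx b hb.symm
  have hc := contDiff_cyy hB hB' he v
  obtain ⟨δ, hδ, hδ1⟩ : ∃ δ > 0, ∀ x ∈ DB.bd (r + 1), δ ≤ ‖cyy B B' v x‖ := by
    obtain ⟨x0, hx0, h0⟩ := (DB.isCompact_bd (N := r + 1)).exists_isMinOn (f := fun x => ‖cyy B B' v x‖)
      ⟨0, ⟨le_rfl, zero_le_one⟩, 0, Or.inl rfl⟩ hc.continuous.norm.continuousOn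
    exact ⟨‖cyy B B' v x0‖, norm_pos_iff.2 (hne x0 hx0.2), fun x hx => h0 hx⟩
  refine ⟨κ, B, ⟨fun z => toV (cyy B B' ((3 / δ) • v) z), contDiff_toV.comp (contDiff_cyy hB hB' he _)⟩, (3 / δ) • v, hκ, hB,
    hB0, h1, h3, fun z => ?_, fun x hx hx' => ?_⟩
  · change B z (toE (toV (cyy B B' ((3 / δ) • v) z))) = _
    rw [toE_toV]
    exact B_cyy he h1 h2 _ z
  · change 2 < ‖toE (toV (cyy B B' ((3 / δ) • v) x))‖
    rw [toE_toV, cyy_smul he, norm_smul, Real.norm_eq_abs, abs_of_pos (by positivity)]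
    have h5 := hδ1 x ⟨hx, hx'⟩
    have h6 : 3 / δ * δ ≤ 3 / δ * ‖cyy B B' v x‖ := mul_le_mul_of_nonneg_left h5 (by positivity)
    rw [div_mul_cancel₀ _ hδ.ne'] at h6
    linarith

end Pool.Agent.Lib.MP_ccbbf6_gt.L5.PE
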