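import Pool.Agent.Lib.MP_ccbbf6_gt.L5.Alg2
import Pool.Agent.Lib.MP_ccbbf6_gt.L5.PHI04

/-!
# Level 5, block PHI 5: the volume bound (helper56; algebra: helper28)

`PhiD.volume_le` : with a map `pr : X → G`, `∫_X f pr^*w = 2 ∫_G w`, `z_0 = F (·, 1/2) = ft ∘ pr`, `η = pr^* η0` and
`dσ = (ft^* u)^m` on `G`: if `|D|, |α| ≥ 1`, `|b| ≤ 2`, `(m + 1) |∫ x^m σ| ≤ 1` then
`|∫_G η0 (dη0)^(4m-1)| ≤ 2 C(4m-1, 2m-1) / (2m+1)`.
-/

set_option autoImplicit false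
set_option maxSynthPendingDepth 3

open Set Filter Topology

noncomputable section

namespace Pool.Agent.Lib.MP_ccbbf6_gt.L5

open L4 L4.FR

namespace PhiD

variable {X M : Space} {m : ℕ} (P : PhiD X M m)

lemma J0 : P.K.I ((P.AR ^ m * P.BR ^ m) • P.η) = 0 := by
  have h := P.I_τR (P.AR ^ m * P.BR ^ m)
  rw [map_mul, map_pow, map_pow, P.τR_A, P.τR_B, mul_comm (P.BR ^ m)] at h
  linarith

lemma J1 : P.K.I ((P.eR ^ 2 * (P.AR ^ (m - 1) * P.BR ^ m)) • P.η) =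
    -P.K.I ((P.eR ^ 2 * (P.AR ^ m * P.BR ^ (m - 1))) • P.η) := by
  have h := P.I_τR (P.eR ^ 2 * (P.AR ^ m * P.BR ^ (m - 1)))
  rw [map_mul, map_mul, map_pow, map_pow, map_pow, P.τR_A, P.τR_B, P.τR_e, mul_comm (P.BR ^ m)] at h
  exact h

/-- the data of the algebraic block -/
theorem phiData {D α : ℝ} (hD : P.Ex (P.θ - D • P.f)) (hα : P.Ex (P.f ^ 2 - α • P.e ^ 2 - P.b • (P.xm + P.xp)))
    {s : Om X} (hs : P.K.d s = P.AR ^ m • P.K.u) :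
    ∃ ξ, PhiData P.K m P.eR P.θR P.AR P.BR (D ^ 2 * α) (D ^ 2 * P.b) P.η P.β P.ζ ξ s := by
  have h1 : P.Ex (((P.θR ^ 2 - (D ^ 2 * α) • P.eR ^ 2 - (D ^ 2 * P.b) • (P.AR + P.BR) : Rb P.c)) : Om X) := by
    have h := θ_sq hD hα
    rw [add_comm P.xm] at h
    exact h
  obtain ⟨ξ, hξ1, hξ2⟩ := P.Ex_K h1
  refine ⟨ξ, ?_⟩
  exact
    { A0 := P.AR_pow
      B0 := P.BR_pow
      ιη := P.K_ιη
      dη := P.K_dη
      ιβ := P.K_ιβ
      dβ := P.K_dβ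
      dζ := by
        rw [P.K_dζ]
        congr 1
        unfold hm
        rw [← Finset.sum_range_reflect]
        refine Finset.sum_congr rfl fun j hj => ?_
        have hj' := Finset.mem_range.1 hj
        rw [mul_comm, show m + 1 - 1 - j = m - j by omega, show m - (m - j) = j by omega]
      ιζ := P.K_ιζ
      ιξ := hξ1
      dξ := hξ2
      ds := hs
      J0 := P.J0
      J1 := P.J1 }

/-- `∫ e^(4m-1) θ η = D ∫ e^(4m-1) f η` -/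
lemma I_θ {D : ℝ} (hD : P.Ex (P.θ - D • P.f)) (j : ℕ) :
    P.K.I ((P.eR ^ j * P.θR) • P.η) = D * P.I (P.f * (P.η * P.e ^ j)) := by
  have h1 : P.Ex (((P.eR ^ j * (P.θR - D • P.fR) : Rb P.c)) : Om X) := by
    have h := mul_Ex hD (Bas_pow P.c P.bas_e j) (by rw [map_pow, P.s_e]) (d_pow_zero P.de j)
    exact h
  have h2 := P.I_Ex h1
  rw [mul_sub, sub_smul, map_sub, sub_eq_zero] at h2
  rw [h2, mul_smul_comm, smul_assoc, map_smul, smul_eq_mul]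
  congr 1
  rw [Rb_smul, P.K_I]
  congr 1
  change P.e ^ j * P.f * P.η = P.f * (P.η * P.e ^ j)
  rw [even_comm' (by rw [map_pow, P.s_e]) P.f, mul_assoc, even_comm' (by rw [map_pow, P.s_e]) P.η]

/-- **the bound on the volume** -/
theorem volume_le {G : Space} (hm : 2 ≤ m) (pr : SMap X G) (T : Om G →ₗ[ℝ] ℝ)
    (hI : ∀ w, P.I (P.f * pr.pull w) = 2 * T w) {η0 : Om G} (hη : P.η = pr.pull η0) (ft : SMap G M)
    (h0 : ∀ x, P.F.1 (x, 1 / 2) = ft.1 (pr.1 x)) {σ : Om G} (hσ : dO G σ = ft.pull P.u ^ m)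
    (hD : ∀ D : ℝ, P.Ex (P.θ - D • P.f) → 1 ≤ |D|)
    (hα : ∀ α : ℝ, P.Ex (P.f ^ 2 - α • P.e ^ 2 - P.b • (P.xm + P.xp)) → 1 ≤ |α|) (hb : |P.b| ≤ 2)
    {ε : ℝ} (hε : ((m : ℝ) + 1) * |T (ft.pull P.u ^ m * σ)| ≤ ε ^ 2) (hε1 : |ε| ≤ 1) :
    |T (η0 * dO G η0 ^ (4 * m - 1))| ≤ 2 * ((4 * m - 1).choose (2 * m - 1) : ℝ) / (2 * m + 1) := by
  obtain ⟨D, hD1⟩ := P.exists_D
  obtain ⟨α, hα1⟩ := P.exists_α
  have hxh : P.xh = pr.pull (ft.pull P.u) := by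
    unfold xh wt
    have h : P.F.comp (jO X (1 / 2)) = ft.comp pr := SMap_ext h0
    rw [← pull_comp, h, pull_comp]
  obtain ⟨s, hs, hs2⟩ := P.exists_s (s0 := pr.pull σ) (by omega) (by rw [pull_d, hσ, map_pow, hxh])
  obtain ⟨ξ, hP⟩ := P.phiData hD1 hα1 hs
  have hV : P.K.I ((P.eR ^ (4 * m - 1) * P.θR) • P.η) = 2 * D * T (η0 * dO G η0 ^ (4 * m - 1)) := by
    have e1 : P.η * P.e ^ (4 * m - 1) = pr.pull (η0 * dO G η0 ^ (4 * m - 1)) := by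
      rw [map_mul, map_pow, ← pull_d, ← hη]
      rfl
    rw [P.I_θ hD1, e1, hI]
    ring
  have hU : P.K.I ((P.θR * P.AR ^ m) • s) = D * (2 * T (ft.pull P.u ^ m * σ)) := by
    rw [P.U_eq (by omega) hD1 hs, hs2, hxh, ← map_pow, ← map_mul, hI]
  refine hP.volume_le hm (hD D hD1) (hα α hα1) hb rfl rfl hV hU (ε := ε) ?_ hε1
  rw [abs_mul, abs_two]
  linarith

end PhiD

end Pool.Agent.Lib.MP_ccbbf6_gt.L5
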