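import Mathlib.Topology.MetricSpace.HausdorffDimension
import Pool.Agent.Lib.MP_ccbbf6_gt.L5.EPS07
import Pool.Agent.Lib.MP_ccbbf6_gt.L5.EU4
import Pool.Agent.Lib.MP_ccbbf6_gt.L5.PER01
import Pool.Agent.Lib.MP_ccbbf6_gt.L5.PER02

/-!
# Level 5, block PH (integrality of Euler numbers over cubes with mixed faces), part 1: frames and generic vectors

* `exists_orf` : positive orthonormal frames of an oriented bundle over the cube;
* `exists_vec` : a constant vector whose projection does not vanish on the boundary of the cube.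
(`exists_onf`, `exists_orf` are adapted from helper77's IB5.)
-/

set_option autoImplicit false
set_option maxSynthPendingDepth 3
set_option linter.unusedSectionVars false
set_option linter.unusedVariables false

open Matrix Function Filter Topology Set MeasureTheory
open scoped ContDiff Real

noncomputable section

namespace Pool.Agent.Lib.MP_ccbbf6_gt.L5.PH

open Geo L4 L4.FR

variable {ι : Type} [Fintype ι] [DecidableEq ι] {k r : ℕ}

private theorem PH_gs {F : Type*} [NormedAddCommGroup F] [InnerProductSpace ℝ F] {w : V k → Fin r → F}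
    (hw : ∀ j, ContDiff ℝ ∞ fun z => w z j) (hl : ∀ z, LinearIndependent ℝ (w z)) (i : Fin r) :
    ContDiff ℝ ∞ fun z => InnerProductSpace.gramSchmidt ℝ (w z) i := by
  induction i using WellFounded.induction (wellFounded_lt (α := Fin r)) with
  | _ n ih =>
    have h1 : ContDiff ℝ ∞ (fun v => ∑ i ∈ Finset.Iio n,
        -(inner ℝ (InnerProductSpace.gramSchmidt ℝ (w v) i) (w v n) /
          inner ℝ (InnerProductSpace.gramSchmidt ℝ (w v) i) (InnerProductSpace.gramSchmidt ℝ (w v) i)) •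
          InnerProductSpace.gramSchmidt ℝ (w v) i) := by
      refine ContDiff.sum fun i hi => ?_
      have h2 := ih i (Finset.mem_Iio.1 hi)
      refine ContDiff.smul ?_ h2
      refine ((h2.inner ℝ (hw n)).div (h2.inner ℝ h2) fun v => ?_).neg
      exact inner_self_ne_zero.2 (InnerProductSpace.gramSchmidt_ne_zero i (hl v))
    have h4 : (fun z => InnerProductSpace.gramSchmidt ℝ (w z) n) = fun v => w v n + ∑ i ∈ Finset.Iio n,
        -(inner ℝ (InnerProductSpace.gramSchmidt ℝ (w v) i) (w v n) /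
          inner ℝ (InnerProductSpace.gramSchmidt ℝ (w v) i) (InnerProductSpace.gramSchmidt ℝ (w v) i)) •
          InnerProductSpace.gramSchmidt ℝ (w v) i := by
      funext v
      have h3 := InnerProductSpace.gramSchmidt_def'' ℝ (w v) n
      have h5 := sub_eq_of_eq_add h3
      refine h5.symm.trans ?_
      rw [sub_eq_add_neg, ← Finset.sum_neg_distrib]
      refine congrArg (fun x => w v n + x) (Finset.sum_congr rfl fun i _ => ?_)
      rw [real_inner_self_eq_norm_sq, neg_smul]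
      rfl
    rw [h4]
    exact (hw n).add h1

private theorem PH_gsn {F : Type*} [NormedAddCommGroup F] [InnerProductSpace ℝ F] {w : V k → Fin r → F}
    (hw : ∀ j, ContDiff ℝ ∞ fun z => w z j) (hl : ∀ z, LinearIndependent ℝ (w z)) (i : Fin r) :
    ContDiff ℝ ∞ fun z => InnerProductSpace.gramSchmidtNormed ℝ (w z) i := by
  have h1 := PH_gs hw hl i
  have h2 : ∀ z, InnerProductSpace.gramSchmidt ℝ (w z) i ≠ 0 := fun z =>
    InnerProductSpace.gramSchmidt_ne_zero i (hl z)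
  have h3 : ContDiff ℝ ∞ fun z => ‖InnerProductSpace.gramSchmidt ℝ (w z) i‖⁻¹ :=
    (h1.norm ℝ h2).inv fun z => norm_ne_zero_iff.2 (h2 z)
  exact h3.smul h1

private theorem PH_mat {P : Matrix ι ι ℝ} {G : Matrix ι (Fin r) ℝ} (hs : Pᵀ = P) (hi : P * P = P)
    (ht : trace P = r) (h1 : Gᵀ * G = 1) (h2 : P * G = G) : G * Gᵀ = P := by
  have h3 : Gᵀ * P = Gᵀ := by
    have h4 := congrArg Matrix.transpose h2
    rwa [Matrix.transpose_mul, hs] at h4
  have h5 : (P - G * Gᵀ)ᵀ = P - G * Gᵀ := by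
    rw [Matrix.transpose_sub, hs, Matrix.transpose_mul, Matrix.transpose_transpose]
  have h6 : (P - G * Gᵀ) * (P - G * Gᵀ) = P - G * Gᵀ := by
    rw [Matrix.mul_sub, Matrix.sub_mul, Matrix.sub_mul, hi, Matrix.mul_assoc G Gᵀ P, h3,
      ← Matrix.mul_assoc P G Gᵀ, h2, Matrix.mul_assoc G Gᵀ (G * Gᵀ), ← Matrix.mul_assoc Gᵀ G Gᵀ, h1, Matrix.one_mul,
      sub_self, sub_zero]
  have h7 : trace (P - G * Gᵀ) = 0 := by
    rw [Matrix.trace_sub, ht, Matrix.trace_mul_comm, h1, Matrix.trace_one, Fintype.card_fin, sub_self]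
  have h8 : P - G * Gᵀ = 0 := by
    refine Matrix.trace_conjTranspose_mul_self_eq_zero_iff.1 ?_
    rw [Matrix.conjTranspose_eq_transpose_of_trivial, h5, h6, h7]
  exact (sub_eq_zero.1 h8).symm

/-- evaluation -/
def evR (z : V k) : Cs k →+* ℝ :=
  (Pi.evalRingHom (fun _ : V k => ℝ) z).comp (Cs k).val.toRingHom

theorem evR_apply (z : V k) (f : Cs k) : evR z f = (f : V k → ℝ) z := rfl

private theorem PH_finrank {M : Matrix ι ι ℝ} (hi : M * M = M) (ht : trace M = r) :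
    Module.finrank ℝ (LinearMap.range (Matrix.toEuclideanCLM (𝕜 := ℝ) M : EuclideanSpace ℝ ι →ₗ[ℝ] EuclideanSpace ℝ ι)) = r := by
  have h1 : IsIdempotentElem (Matrix.toEuclideanCLM (𝕜 := ℝ) M : EuclideanSpace ℝ ι →ₗ[ℝ] EuclideanSpace ℝ ι) := by
    refine LinearMap.ext fun v => ?_
    show Matrix.toEuclideanCLM (𝕜 := ℝ) M (Matrix.toEuclideanCLM (𝕜 := ℝ) M v) = Matrix.toEuclideanCLM (𝕜 := ℝ) M v
    have h2 : Matrix.toEuclideanCLM (𝕜 := ℝ) M * Matrix.toEuclideanCLM (𝕜 := ℝ) M = Matrix.toEuclideanCLM (𝕜 := ℝ) M := by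
      rw [← map_mul, hi]
    exact congrArg (fun L : EuclideanSpace ℝ ι →L[ℝ] EuclideanSpace ℝ ι => L v) h2
  have h3 := (LinearMap.IsIdempotentElem.isProj_range _ h1).trace
  have h4 : LinearMap.trace ℝ (EuclideanSpace ℝ ι) (Matrix.toEuclideanCLM (𝕜 := ℝ) M : EuclideanSpace ℝ ι →ₗ[ℝ] EuclideanSpace ℝ ι) =
      Matrix.trace M := by
    rw [LinearMap.trace_eq_matrix_trace ℝ (EuclideanSpace.basisFun ι ℝ).toBasis, Matrix.coe_toEuclideanCLM_eq_toEuclideanLin]
    refine congrArg Matrix.trace ?_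
    ext i j
    rw [LinearMap.toMatrix_apply]
    simp
  rw [h4, ht] at h3
  exact_mod_cast h3.symm

/-- orthonormal frames -/
theorem exists_onf {P : Matrix ι ι (Cs k)} (hs : Pᵀ = P) (hi : P * P = P) (ht : trace P = r) :
    ∃ (κ : FR.Sm k k) (β : Matrix ι (Fin r) (Cs k)), (∀ z ∈ Icc (0 : V k) 1, ∀ᶠ w in 𝓝 z, κ w = w) ∧ βᵀ * β = 1 ∧
      β * βᵀ = P.map κ.pull := by
  set M : V k → Matrix ι ι ℝ := fun z => P.map (evR z) with hM
  have hMs : ∀ z, (M z)ᵀ = M z := fun z => by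
    rw [hM]
    simp only
    rw [← Matrix.transpose_map, hs]
  have hMi : ∀ z, M z * M z = M z := fun z => by
    rw [hM]
    simp only
    rw [← Matrix.map_mul, hi]
  have hMt : ∀ z, trace (M z) = r := fun z => by
    have h1 := congrArg (evR z) ht
    rw [map_natCast] at h1
    rw [← h1]
    exact (map_sum (evR z) _ _).symm
  set Q : V k → EuclideanSpace ℝ ι →L[ℝ] EuclideanSpace ℝ ι := fun z => Matrix.toEuclideanCLM (𝕜 := ℝ) (M z) with hQ
  have hQs : ContDiff ℝ ∞ Q := by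
    have h1 : Q = fun z => ∑ i, ∑ j, (P i j : V k → ℝ) z • Matrix.toEuclideanCLM (𝕜 := ℝ) (Matrix.single i j (1 : ℝ)) := by
      funext z
      show Matrix.toEuclideanCLM (𝕜 := ℝ) (M z) = _
      rw [Matrix.matrix_eq_sum_single (M z), map_sum]
      refine Finset.sum_congr rfl fun i _ => ?_
      rw [map_sum]
      refine Finset.sum_congr rfl fun j _ => ?_
      rw [← map_smul, Matrix.smul_single, smul_eq_mul, mul_one]
      rfl
    rw [h1]
    exact ContDiff.sum fun i _ => ContDiff.sum fun j _ => (Cs_smooth (P i j)).smul contDiff_const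
  have hQi : ∀ z, (Q z).comp (Q z) = Q z := fun z => by
    show Matrix.toEuclideanCLM (𝕜 := ℝ) (M z) * Matrix.toEuclideanCLM (𝕜 := ℝ) (M z) = Matrix.toEuclideanCLM (𝕜 := ℝ) (M z)
    rw [← map_mul, hMi]
  obtain ⟨L0, hL0, hL0i⟩ : ∃ L0 : EuclideanSpace ℝ (Fin r) →L[ℝ] EuclideanSpace ℝ ι, (Q 0).comp L0 = L0 ∧
      ∀ a, L0 a = 0 → a = 0 := by
    have h1 := PH_finrank (hMi 0) (hMt 0)
    let W : Submodule ℝ (EuclideanSpace ℝ ι) := LinearMap.range (Q 0 : EuclideanSpace ℝ ι →ₗ[ℝ] EuclideanSpace ℝ ι)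
    have h2 : Module.finrank ℝ (EuclideanSpace ℝ (Fin r)) = Module.finrank ℝ W := by
      rw [finrank_euclideanSpace_fin]
      exact h1.symm
    let e : EuclideanSpace ℝ (Fin r) ≃L[ℝ] W := ContinuousLinearEquiv.ofFinrankEq h2
    refine ⟨W.subtypeL.comp (e : EuclideanSpace ℝ (Fin r) →L[ℝ] W), ?_, fun a ha => ?_⟩
    · refine ContinuousLinearMap.ext fun a => ?_
      obtain ⟨v, hv⟩ := (e a).2
      show Q 0 ((e a : W) : EuclideanSpace ℝ ι) = ((e a : W) : EuclideanSpace ℝ ι)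
      rw [← hv]
      exact congrArg (fun L : EuclideanSpace ℝ ι →L[ℝ] EuclideanSpace ℝ ι => L v) (hQi 0)
    · have h3 : e a = 0 := Subtype.ext ha
      exact e.map_eq_zero_iff.1 h3
  obtain ⟨κ, B, hκ, hB, hB00, hB1, hB2⟩ := exists_frame hQs hQi hL0 hL0i
  set b : V k → Fin r → EuclideanSpace ℝ ι := fun z j => B z (EuclideanSpace.single j 1) with hb
  have hbs : ∀ j, ContDiff ℝ ∞ fun z => b z j := fun j => hB.clm_apply contDiff_const
  have hbl : ∀ z, LinearIndependent ℝ (b z) := fun z => by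
    have h1 : LinearIndependent ℝ fun j : Fin r => (EuclideanSpace.single j 1 : EuclideanSpace ℝ (Fin r)) :=
      EuclideanSpace.orthonormal_single.linearIndependent
    exact h1.map' (B z : EuclideanSpace ℝ (Fin r) →ₗ[ℝ] EuclideanSpace ℝ ι) (LinearMap.ker_eq_bot'.2 (hB2 z))
  set g : V k → Fin r → EuclideanSpace ℝ ι := fun z => InnerProductSpace.gramSchmidtNormed ℝ (b z) with hg
  have hgs : ∀ j, ContDiff ℝ ∞ fun z => g z j := PH_gsn hbs hbl
  have hgo : ∀ z, Orthonormal ℝ (g z) := fun z => InnerProductSpace.gramSchmidtNormed_orthonormal (hbl z)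
  have hgQ : ∀ z j, Q (κ z) (g z j) = g z j := fun z j => by
    have h1 : g z j ∈ Submodule.span ℝ (Set.range (b z)) := by
      rw [← InnerProductSpace.span_gramSchmidt, ← InnerProductSpace.span_gramSchmidtNormed_range]
      exact Submodule.subset_span ⟨j, rfl⟩
    have h2 : Submodule.span ℝ (Set.range (b z)) ≤
        LinearMap.eqLocus (Q (κ z) : EuclideanSpace ℝ ι →ₗ[ℝ] EuclideanSpace ℝ ι) LinearMap.id := by
      rw [Submodule.span_le]
      rintro _ ⟨l, rfl⟩
      exact congrArg (fun L : EuclideanSpace ℝ (Fin r) →L[ℝ] EuclideanSpace ℝ ι => L (EuclideanSpace.single l 1)) (hB1 z)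
    exact h2 h1
  have hsm : ∀ i j, ContDiff ℝ ∞ fun z => (g z j) i := fun i j =>
    (EuclideanSpace.proj (𝕜 := ℝ) i : EuclideanSpace ℝ ι →L[ℝ] ℝ).contDiff.comp (hgs j)
  set β : Matrix ι (Fin r) (Cs k) := Matrix.of fun i j => mkC (fun z => (g z j) i) (hsm i j) with hβ
  have hext : ∀ {α α' : Type} (A C : Matrix α α' (Cs k)), (∀ z, A.map (evR z) = C.map (evR z)) → A = C := by
    intro α α' A C h
    refine Matrix.ext fun i j => Cs_ext fun z => ?_
    exact congrFun (congrFun (h z) i) j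
  have hGG : ∀ z, (β.map (evR z))ᵀ * β.map (evR z) = 1 := fun z => by
    ext i j
    have h1 := orthonormal_iff_ite.1 (hgo z) i j
    rw [Matrix.mul_apply, Matrix.one_apply, ← h1, PiLp.inner_apply]
    refine Finset.sum_congr rfl fun l _ => ?_
    show (g z i) l * (g z j) l = (g z j) l * (g z i) l
    exact mul_comm _ _
  have hPG : ∀ z, M (κ z) * β.map (evR z) = β.map (evR z) := fun z => by
    ext i j
    have h1 := congrArg (fun v : EuclideanSpace ℝ ι => v i) (hgQ z j)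
    rw [Matrix.mul_apply]
    exact h1
  refine ⟨κ, β, hκ, hext _ _ fun z => ?_, hext _ _ fun z => ?_⟩
  · rw [Matrix.map_mul, Matrix.transpose_map, hGG z, Matrix.map_one _ (map_zero _) (map_one _)]
  · rw [Matrix.map_mul, Matrix.transpose_map]
    exact PH_mat (hMs _) (hMi _) (hMt _) (hGG z) (hPG z)

/-- **positive orthonormal frames** -/
theorem exists_orf {P' : Matrix ι ι (Cs k)} {o' : (Fin (r + 1) → ι) → Cs k} (h' : Or (r + 1) P' o') :
    ∃ (κ : FR.Sm k k) (β : Matrix ι (Fin (r + 1)) (Cs k)), (∀ z ∈ Icc (0 : V k) 1, ∀ᶠ w in 𝓝 z, κ w = w) ∧ βᵀ * β = 1 ∧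
      β * βᵀ = P'.map κ.pull ∧ ∀ I, κ.pull (o' I) = det (Matrix.of fun j k => β (I k) j) := by
  obtain ⟨κ, β, hκ, hβ1, hβ2⟩ := exists_onf h'.sym h'.idem h'.tr
  obtain ⟨P, hP⟩ : ∃ P : Matrix ι ι (Cs k), P = P'.map κ.pull := ⟨_, rfl⟩
  obtain ⟨o, ho⟩ : ∃ o : (Fin (r + 1) → ι) → Cs k, o = fun I => κ.pull (o' I) := ⟨_, rfl⟩
  have h : Or (r + 1) P o := by
    rw [hP, ho]
    exact h'.map' (κ.pull : Cs k →+* Cs k)
  rw [← hP] at hβ2
  obtain ⟨D, hD⟩ : ∃ D : (Fin (r + 1) → ι) → Cs k, ∀ I, D I = det (Matrix.of fun j k => β (I k) j) :=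
    ⟨_, fun _ => rfl⟩
  have hoD : ∀ I J, o I * o J = D I * D J := by
    intro I J
    rw [h.rk, hD, hD]
    have e1 : (Matrix.of fun k l => P (I k) (J l)) =
        (Matrix.of fun j k => β (I k) j)ᵀ * (Matrix.of fun j k => β (J k) j) := by
      refine Matrix.ext fun k l => ?_
      rw [Matrix.mul_apply, Matrix.of_apply, ← hβ2, Matrix.mul_apply]
      exact Finset.sum_congr rfl fun j _ => rfl
    rw [e1, Matrix.det_mul, Matrix.det_transpose]
  obtain ⟨c, hcc⟩ : ∃ c : Cs k, c * (((r + 1).factorial : ℕ) : Cs k) = 1 := by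
    refine ⟨algebraMap ℝ (Cs k) (((r + 1).factorial : ℝ)⁻¹), ?_⟩
    rw [← map_natCast (algebraMap ℝ (Cs k)), ← map_mul, inv_mul_cancel₀, map_one]
    exact_mod_cast (r + 1).factorial_ne_zero
  obtain ⟨s, hs⟩ : ∃ s : Cs k, s = c * ∑ I, o I * D I := ⟨_, rfl⟩
  have hnrm := h.nrm
  have hs1 : ∀ J, s * D J = o J := by
    intro J
    have e1 : (∑ I, o I * D I) * D J = (∑ I, o I * o I) * o J := by
      rw [Finset.sum_mul, Finset.sum_mul]
      refine Finset.sum_congr rfl fun I _ => ?_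
      rw [mul_assoc, ← hoD, mul_assoc]
    rw [hs, mul_assoc, e1, hnrm, ← mul_assoc, hcc, one_mul]
  have hs2 : s * s = 1 := by
    have e1 : s * ∑ I, o I * D I = ∑ I, o I * o I := by
      rw [Finset.mul_sum]
      refine Finset.sum_congr rfl fun I _ => ?_
      rw [mul_left_comm, hs1]
    have e2 : s * s = c * (s * ∑ I, o I * D I) := by
      conv_lhs => rw [hs]
      rw [hs]
      ring
    rw [e2, e1, hnrm, hcc]
  have hs3 : ∀ x, (s : V k → ℝ) x = (s : V k → ℝ) 0 := by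
    have hcont : ContinuousOn (s : V k → ℝ) Set.univ := (Cs_smooth s).continuous.continuousOn
    have hsq : Set.EqOn ((s : V k → ℝ) ^ 2) 1 Set.univ := by
      intro x _
      have e1 := congrFun (congrArg (fun f : Cs k => (f : V k → ℝ)) hs2) x
      change (s : V k → ℝ) x ^ 2 = 1
      rw [sq]
      exact e1
    rcases isPreconnected_univ.eq_one_or_eq_neg_one_of_sq_eq hcont hsq with h1 | h1
    · intro x
      rw [h1 (Set.mem_univ x), h1 (Set.mem_univ 0)]
      rfl
    · intro x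
      rw [h1 (Set.mem_univ x), h1 (Set.mem_univ 0)]
      rfl
  obtain ⟨ε, hε⟩ : ∃ ε : Fin (r + 1) → Cs k, ε = fun j => if j = 0 then s else 1 := ⟨_, rfl⟩
  have hε1 : diagonal ε * diagonal ε = (1 : Matrix (Fin (r + 1)) (Fin (r + 1)) (Cs k)) := by
    rw [Matrix.diagonal_mul_diagonal, ← Matrix.diagonal_one]
    refine congrArg _ (funext fun j => ?_)
    rw [hε]
    by_cases hj : j = 0
    · simp only [hj, if_true]
      exact hs2
    · simp only [if_neg hj, mul_one]
  refine ⟨κ, β * diagonal ε, hκ, ?_, ?_, ?_⟩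
  · rw [Matrix.transpose_mul, Matrix.diagonal_transpose, Matrix.mul_assoc, ← Matrix.mul_assoc βᵀ, hβ1,
      Matrix.one_mul, hε1]
  · rw [Matrix.transpose_mul, Matrix.diagonal_transpose, Matrix.mul_assoc, ← Matrix.mul_assoc (diagonal ε), hε1,
      Matrix.one_mul, hβ2, hP]
  · intro I
    have e1 : (Matrix.of fun j k => (β * diagonal ε) (I k) j) = diagonal ε * Matrix.of fun j k => β (I k) j := by
      refine Matrix.ext fun j k => ?_
      rw [Matrix.diagonal_mul, Matrix.of_apply, Matrix.of_apply, Matrix.mul_diagonal, mul_comm]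
    have e2 : ∏ j, ε j = s := by
      rw [hε, Fin.prod_univ_succ]
      simp [Fin.succ_ne_zero]
    rw [e1, Matrix.det_mul, Matrix.det_diagonal, e2, ← hD, hs1, ho]

/-- **a constant vector whose projection does not vanish on the boundary of the cube** -/
theorem exists_vec_bd {N : ℕ} (hN : N + 1 ≤ r) {P : Matrix ι ι (Cs (N + 1))} (hs : Pᵀ = P) (hi : P * P = P)
    (ht : trace P = r) : ∃ b : ι → ℝ, ∀ x ∈ DB.bd (N + 1), (P.map (evR x)).mulVec b ≠ 0 := by
  obtain ⟨M, hM⟩ : ∃ M : V (N + 1) → Matrix ι ι ℝ, M = fun z => 1 - P.map (evR z) := ⟨_, rfl⟩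
  have hPx : ∀ z : V (N + 1), P.map (evR z) * P.map (evR z) = P.map (evR z) := fun z => by
    rw [← Matrix.map_mul, hi]
  have hMM : ∀ z, M z * M z = M z := fun z => by
    rw [hM]
    have h1 := hPx z
    simp only [sub_mul, mul_sub, one_mul, mul_one, h1]
    abel
  have htx : ∀ z : V (N + 1), trace (P.map (evR z)) = r := fun z => by
    have h1 := congrArg (evR z) ht
    rw [map_natCast] at h1
    rw [← h1]
    exact (map_sum (evR z) _ _).symm
  have hfP : ∀ z : V (N + 1), Module.finrank ℝ (LinearMap.range (Matrix.toEuclideanCLM (𝕜 := ℝ) (P.map (evR z)) :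
      EuclideanSpace ℝ ι →ₗ[ℝ] EuclideanSpace ℝ ι)) = r := fun z => PH_finrank (hPx z) (htx z)
  have hrc : r ≤ Fintype.card ι := by
    rw [← hfP 0]
    refine (Submodule.finrank_le _).trans ?_
    rw [finrank_euclideanSpace]
  have htM : ∀ z, trace (M z) = ((Fintype.card ι - r : ℕ) : ℝ) := fun z => by
    rw [hM]
    show trace (1 - P.map (evR z)) = _
    rw [Matrix.trace_sub, Matrix.trace_one, htx, Nat.cast_sub hrc]
  obtain ⟨Q, hQ⟩ : ∃ Q : V (N + 1) → EuclideanSpace ℝ ι →L[ℝ] EuclideanSpace ℝ ι,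
      Q = fun z => Matrix.toEuclideanCLM (𝕜 := ℝ) (M z) := ⟨_, rfl⟩
  have hfr : ∀ z, Module.finrank ℝ (LinearMap.range (Q z : EuclideanSpace ℝ ι →ₗ[ℝ] EuclideanSpace ℝ ι)) =
      Fintype.card ι - r := fun z => by
    rw [hQ]
    exact PH_finrank (hMM z) (htM z)
  have hQs : ContDiff ℝ ∞ Q := by
    have h1 : Q = fun z => ∑ i, ∑ j, ((1 : Matrix ι ι ℝ) i j - (P i j : V (N + 1) → ℝ) z) •
        Matrix.toEuclideanCLM (𝕜 := ℝ) (Matrix.single i j (1 : ℝ)) := by
      funext z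
      rw [hQ]
      show Matrix.toEuclideanCLM (𝕜 := ℝ) (M z) = _
      rw [Matrix.matrix_eq_sum_single (M z), map_sum]
      refine Finset.sum_congr rfl fun i _ => ?_
      rw [map_sum]
      refine Finset.sum_congr rfl fun j _ => ?_
      rw [← map_smul, Matrix.smul_single, smul_eq_mul, mul_one, hM]
      rfl
    rw [h1]
    exact ContDiff.sum fun i _ => ContDiff.sum fun j _ => (contDiff_const.sub (Cs_smooth (P i j))).smul contDiff_const
  have hQi : ∀ z, (Q z).comp (Q z) = Q z := fun z => by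
    rw [hQ]
    show Matrix.toEuclideanCLM (𝕜 := ℝ) (M z) * Matrix.toEuclideanCLM (𝕜 := ℝ) (M z) = Matrix.toEuclideanCLM (𝕜 := ℝ) (M z)
    rw [← map_mul, hMM]
  obtain ⟨κ, B, hκ, hB, -, hQB, hinj⟩ := exists_frame (Q := Q) hQs hQi
    (L0 := (LinearMap.range (Q 0 : EuclideanSpace ℝ ι →ₗ[ℝ] EuclideanSpace ℝ ι)).subtypeL) (by
      ext1 v
      obtain ⟨u, hu⟩ := v.2
      show (Q 0) v.1 = v.1
      rw [← hu]
      exact congrArg (fun L : EuclideanSpace ℝ ι →L[ℝ] EuclideanSpace ℝ ι => L u) (hQi 0)) (fun a ha => Subtype.ext ha)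
  -- the bad set
  let S : Fin (N + 1) × Fin 2 → Set (EuclideanSpace ℝ ι) := fun j => Set.range
    (fun y : V N × (LinearMap.range (Q 0 : EuclideanSpace ℝ ι →ₗ[ℝ] EuclideanSpace ℝ ι)) =>
      B (PE.emb j.1 ((j.2 : ℕ) : ℝ) y.1) y.2)
  have hS : ∀ j, dimH (S j) ≤ ((N + (Fintype.card ι - r) : ℕ) : ENNReal) := fun j => by
    have h1 : ContDiff ℝ 1 (fun y : V N × (LinearMap.range (Q 0 : EuclideanSpace ℝ ι →ₗ[ℝ] EuclideanSpace ℝ ι)) =>
        B (PE.emb j.1 ((j.2 : ℕ) : ℝ) y.1) y.2) :=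
      ((hB.comp ((PE.emb j.1 ((j.2 : ℕ) : ℝ)).smooth.comp contDiff_fst)).clm_apply contDiff_snd).of_le (by simp)
    refine (h1.dimH_range_le).trans ?_
    rw [Module.finrank_prod, hfr 0, Module.finrank_fintype_fun_eq_card, Fintype.card_fin]
  have hU : dimH (⋃ j, S j) < Module.finrank ℝ (EuclideanSpace ℝ ι) := by
    rw [dimH_iUnion]
    refine lt_of_le_of_lt (iSup_le hS) ?_
    rw [finrank_euclideanSpace]
    have : N + (Fintype.card ι - r) < Fintype.card ι := by omega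
    exact_mod_cast this
  obtain ⟨w, hw⟩ := (dense_compl_of_dimH_lt_finrank hU).nonempty
  refine ⟨w, fun x hx h0 => hw ?_⟩
  have hκx : κ x = x := (hκ x hx.1).self_of_nhds
  have h1 : Q x w = w := by
    rw [hQ]
    show Matrix.toEuclideanCLM (𝕜 := ℝ) (M x) w = w
    refine PiLp.ext fun i => ?_
    show ((M x).mulVec w) i = w i
    rw [hM]
    show ((1 - P.map (evR x)).mulVec w) i = w i
    rw [Matrix.sub_mulVec, Matrix.one_mulVec, h0, sub_zero]
  have h2 : LinearMap.range (B x).toLinearMap = LinearMap.range (Q x : EuclideanSpace ℝ ι →ₗ[ℝ] EuclideanSpace ℝ ι) := by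
    refine Submodule.eq_of_le_of_finrank_eq ?_ ?_
    · rintro v ⟨a, rfl⟩
      refine ⟨B x a, ?_⟩
      have h3 := congrArg (fun L : _ →L[ℝ] (EuclideanSpace ℝ ι) => L a) (hQB x)
      rw [hκx] at h3
      exact h3
    · rw [hfr x, LinearMap.finrank_range_of_inj, hfr 0]
      exact (injective_iff_map_eq_zero (B x)).2 (hinj x)
  have h3 : w ∈ LinearMap.range (B x).toLinearMap := by
    rw [h2]
    exact ⟨w, h1⟩
  obtain ⟨a, ha⟩ := h3
  obtain ⟨i, hxi⟩ := hx.2
  obtain ⟨e, he⟩ : ∃ e : Fin 2, x i = ((e : ℕ) : ℝ) := by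
    rcases hxi with h | h
    · exact ⟨0, by rw [h]; simp⟩
    · exact ⟨1, by rw [h]; simp⟩
  refine mem_iUnion.2 ⟨(i, e), ⟨(i.removeNth x, a), ?_⟩⟩
  have h4 : PE.emb i ((e : ℕ) : ℝ) (i.removeNth x) = x := by
    rw [PE.emb_apply, ← he]
    exact Fin.insertNth_self_removeNth i x
  show B (PE.emb i ((e : ℕ) : ℝ) (i.removeNth x)) a = w
  rw [h4]
  exact ha

end Pool.Agent.Lib.MP_ccbbf6_gt.L5.PH
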