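import Pool.Agent.Lib.MP_ccbbf6_gt.L4.Eps
import Pool.Agent.Lib.MP_ccbbf6_gt.L5.EG5
import Pool.Agent.Lib.MP_ccbbf6_gt.L5.Ext0
import Pool.Agent.Lib.MP_ccbbf6_gt.L5.OT3
import Pool.Agent.Lib.MP_ccbbf6_gt.L5.PER02

/-!
# Level 5, block PH, part 2: the angular form of a section with zeros, cut off at the zeros

`P` an oriented bundle of rank `2 (n + 1)` over `X`, `s` a section. `lamS P o s = χ(|s|) ψ(P, o, s / |s|)`, extended by zero.
`lamS_pull` (naturality), `Deg_lamS`, `cI_dd_face` (Stokes for cubes with mixed faces).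
-/

set_option autoImplicit false
set_option maxSynthPendingDepth 3
set_option linter.unusedSectionVars false
set_option linter.unusedVariables false

open Matrix Function Filter Topology Set MeasureTheory
open scoped ContDiff Real

noncomputable section

namespace Pool.Agent.Lib.MP_ccbbf6_gt.L5.PH

open Geo L4 L4.FR OT

variable {ι : Type} [Fintype ι] [DecidableEq ι] {X Y : Space} {n k r : ℕ}

/-! ### the norm -/

/-- the norm of a vector -/
def nI (v : ι → ℝ) : ℝ := ‖(WithLp.toLp 2 v : EuclideanSpace ℝ ι)‖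

theorem nI_sq (v : ι → ℝ) : nI v ^ 2 = ∑ i, v i * v i := by
  unfold nI
  rw [EuclideanSpace.norm_sq_eq]
  refine Finset.sum_congr rfl fun i _ => ?_
  rw [Real.norm_eq_abs, sq_abs, sq]

theorem nI_ne {v : ι → ℝ} (h : v ≠ 0) : nI v ≠ 0 := by
  unfold nI
  rw [norm_ne_zero_iff]
  intro h0
  exact h (congrArg (WithLp.ofLp) h0)

theorem nI_nonneg (v : ι → ℝ) : 0 ≤ nI v := norm_nonneg _

theorem nI_smul (c : ℝ) (v : ι → ℝ) : nI (c • v) = |c| * nI v := by
  unfold nI
  rw [WithLp.toLp_smul, norm_smul, Real.norm_eq_abs]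

theorem contDiff_lp : ContDiff ℝ ∞ fun v : ι → ℝ => (WithLp.toLp 2 v : EuclideanSpace ℝ ι) :=
  (PiLp.continuousLinearEquiv 2 ℝ (fun _ : ι => ℝ)).symm.contDiff

theorem continuous_nI : Continuous (nI : (ι → ℝ) → ℝ) := contDiff_lp.continuous.norm

theorem contDiff_nI {F : Type*} [NormedAddCommGroup F] [NormedSpace ℝ F] {g : F → ι → ℝ} (hg : ContDiff ℝ ∞ g)
    (h : ∀ x, g x ≠ 0) : ContDiff ℝ ∞ fun x => (nI (g x))⁻¹ := by
  have h1 : ContDiff ℝ ∞ fun x => nI (g x) := by
    unfold nI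
    refine (contDiff_lp.comp hg).norm ℝ fun x h0 => h x ?_
    exact congrArg (WithLp.ofLp) h0
  exact h1.inv fun x => nI_ne (h x)

theorem contDiff_chi_nI : ContDiff ℝ ∞ fun v : ι → ℝ => chi (nI v) := by
  rw [contDiff_iff_contDiffAt]
  intro x
  by_cases hx : (WithLp.toLp 2 x : EuclideanSpace ℝ ι) = 0
  · have hE : (fun v : ι → ℝ => chi (nI v)) =ᶠ[𝓝 x] fun _ => 0 := by
      have h1 : ∀ᶠ y in 𝓝 x, nI y < 1 := by
        refine continuous_nI.continuousAt.eventually (gt_mem_nhds ?_)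
        unfold nI
        rw [hx, norm_zero]
        exact one_pos
      filter_upwards [h1] with y hy
      exact chi_zero hy.le
    exact contDiffAt_const.congr_of_eventuallyEq hE
  · have h1 : ContDiffAt ℝ ∞ (nI : (ι → ℝ) → ℝ) x := by
      have h2 : ContDiffAt ℝ ∞ (fun v : EuclideanSpace ℝ ι => ‖v‖) (WithLp.toLp 2 x) := contDiffAt_norm ℝ hx
      exact h2.comp x contDiff_lp.contDiffAt
    exact contDiff_chi.contDiffAt.comp x h1

/-! ### sections -/

/-- the value of a section -/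
def vs (s : ι → SF X) (x : X.pt) : ι → ℝ := fun i => (s i).1 x

theorem vs_smooth (s : ι → SF X) (p : X.Plot k) : ContDiff ℝ ∞ fun z => vs s (p.1 z) :=
  contDiff_pi.2 fun i => (s i).2 k p

/-- the set where a section does not vanish -/
def US (s : ι → SF X) : Set X.pt := {x | vs s x ≠ 0}

theorem open_US (s : ι → SF X) : OpenU X (US s) := fun _ p => isOpen_ne.preimage (vs_smooth s p).continuous

/-- the normalised section -/
def hs (s : ι → SF X) : ι → SF (sub X (US s)) := fun i =>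
  ⟨fun x => (nI (vs s x.1))⁻¹ * (s i).1 x.1, fun _ p =>
    (contDiff_nI (vs_smooth s ((inU X (US s)).pl p)) fun z => (p.1 z).2).mul ((s i).2 _ ((inU X (US s)).pl p))⟩

/-- the cut-off function of a section -/
def chS (s : ι → SF X) : Om X := fO (fun x => chi (nI (vs s x))) fun _ p => contDiff_chi_nI.comp (vs_smooth s p)

theorem van_chS (s : ι → SF X) : Van X (US s) ((inU X (US s)).pull (chS s)) := by
  refine Van_fO (open_US s) _ fun k p x hx => ?_
  have h0 : vs s (p.1 x) = 0 := by_contra fun h => hx h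
  have h1 : nI (vs s (p.1 x)) < 1 := by
    rw [h0]
    unfold nI
    rw [WithLp.toLp_zero, norm_zero]
    exact one_pos
  have h2 : Continuous fun z => nI (vs s (p.1 z)) := continuous_nI.comp (vs_smooth s p).continuous
  filter_upwards [h2.continuousAt.eventually (gt_mem_nhds h1)] with y hy
  exact chi_zero hy.le

variable {P : Matrix ι ι (SF X)} {o : (Fin (2 * (n + 1)) → ι) → SF X} {s : ι → SF X}

/-- the angular form of a section, outside the zeros -/
def psS (P : Matrix ι ι (SF X)) (o : (Fin (2 * (n + 1)) → ι) → SF X) (s : ι → SF X) : Om (sub X (US s)) :=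
  psiG (FO (sub X (US s))) (P.map (pf (inU X (US s)))) (fun I => pf (inU X (US s)) (o I)) (hs s)

/-- **the cut-off angular form** -/
def lamS (P : Matrix ι ι (SF X)) (o : (Fin (2 * (n + 1)) → ι) → SF X) (s : ι → SF X) : Om X :=
  ext0 (open_US s) ((inU X (US s)).pull (chS s) * psS P o s) (Van_mul (van_chS s) _)

/-- naturality -/
theorem lamS_pull (f : SMap Y X) : f.pull (lamS P o s) = lamS (P.map (pf f)) (fun I => pf f (o I)) (fun i => pf f (s i)) := by
  unfold lamS
  rw [ext0_pull]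
  refine ext0_congr _ ?_ _ _
  rw [map_mul]
  congr 1
  exact (FHom.pull (resU f (US s))).psiG

/-! ### degrees -/

theorem Deg_Ee {m : ℕ} {f : Fin m → (GO X).Ee} (h : ∀ a, Deg 2 ((f a : (GO X).Ee) : Om X)) :
    Deg (2 * m) ((∏ a, f a : (GO X).Ee) : Om X) := by
  induction m with
  | zero =>
    rw [Finset.univ_eq_empty, Finset.prod_empty]
    exact Deg_one
  | succ m ih =>
    rw [Fin.prod_univ_succ]
    have h1 := Deg_mul (h 0) (ih fun a => h a.succ)
    have e : 2 * (m + 1) = 2 + 2 * m := by ring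
    rw [e]
    exact h1

theorem Deg_psiG (P : Matrix ι ι (SF X)) (o : (Fin (2 * (n + 1)) → ι) → SF X) (y : ι → SF X) :
    Deg (2 * n + 1) (psiG (FO X) P o y) := by
  unfold psiG psiR
  refine Deg_smul _ (Deg_fsum _ fun S _ => Deg_smul _ ?_)
  unfold PhiS
  refine Deg_St _ fun I => ?_
  unfold TX yD
  have h1 : Deg 1 ((FO X).f (y (I (s0 0))) * Dv (FO X) P y (I (s1 0))) := Deg_fmul _ (Deg_Dv _ _ _)
  have h2 : Deg (2 * n) ((∏ a, MS (FO X) P y S a (I (s0 a.succ)) (I (s1 a.succ)) : (GO X).Ee) : Om X) := by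
    refine Deg_Ee fun a => ?_
    unfold MS
    split_ifs
    · exact Deg_Rv _ _ _
    · exact Deg_mul (i := 1) (j := 1) (Deg_Dv _ _ _) (Deg_Dv _ _ _)
  have h3 := Deg_mul h1 h2
  rwa [add_comm] at h3

theorem Deg_eulG {m : ℕ} (P : Matrix ι ι (SF X)) (o : (Fin (2 * m) → ι) → SF X) : Deg (2 * m) (eulG (FO X) P o) := by
  unfold eulG
  refine Deg_smul _ ?_
  rw [ZG_St]
  refine Deg_St _ fun I => ?_
  unfold TR
  exact Deg_Ee fun a => Deg_Rv _ _ _

theorem Deg_lamS : Deg (2 * n + 1) (lamS P o s) := by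
  unfold lamS
  refine Deg_ext0 _ _ ?_
  have h1 : Deg 0 ((inU X (US s)).pull (chS s)) := Deg_pull _ fun k p => Dg_fc _
  have h2 := Deg_mul h1 (Deg_psiG (P.map (pf (inU X (US s)))) (fun I => pf (inU X (US s)) (o I)) (hs s))
  rw [zero_add] at h2
  exact h2

/-! ### Stokes for cubes with mixed faces -/

/-- boundary condition of a plot in the direction `i`: mixed faces (each of the two faces does not depend on one of the other
coordinates, or the faces agree), or all forms of degree `r` vanish on the two faces -/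
def FX (c : X.Plot (r + 1)) (i : Fin (r + 1)) : Prop :=
  FOK c.1 i ∨ ∀ ε : ℝ, (ε = 0 ∨ ε = 1) → ∀ th : Om X, Deg r th → ∀ x ∈ Icc (0 : V (r + 1)) 1, x i = ε →
    topE (r + 1) (ee i * ev x (Om.on th c)) = 0

theorem cI_dd_FX {c : X.Plot (r + 1)} (h : ∀ i, FX c i) {th : Om X} (hth : Deg r th) :
    cI (r + 1) (dd (r + 1) (Om.on th c)) = 0 := by
  rw [PE.cI_dd']
  refine Finset.sum_eq_zero fun i _ => ?_
  rcases h i with h | h
  · rw [PE.FE_on th c h, sub_self, mul_zero]
  · have h0 : ∀ ε : ℝ, (ε = 0 ∨ ε = 1) → cI r (pb (PE.emb i ε) (Om.on th c)) = 0 := by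
      intro ε hε
      refine (cI_congr (τ := 0) fun x hx => ?_).trans cI_zero
      have h2 := h ε hε th hth (PE.emb i ε x) (insertNth_mem_cube hε hx) (PE.emb_same _ _ _)
      have h3 := PE.top_emb i ε x (Om.on th c)
      rw [← PE.emb_apply, h2] at h3
      rw [map_zero (ev x), map_zero]
      rcases mul_eq_zero.1 h3.symm with h4 | h4
      · exact absurd h4 (pow_ne_zero _ (by norm_num))
      · exact h4
    rw [h0 1 (Or.inr rfl), h0 0 (Or.inl rfl), sub_self, mul_zero]

end Pool.Agent.Lib.MP_ccbbf6_gt.L5.PH
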