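import Pool.Agent.Lib.MP_ccbbf6_gt.L5.EGS
import Pool.Agent.Lib.MP_ccbbf6_gt.L5.PER01
import Pool.Agent.Lib.MP_ccbbf6_gt.L5.PER02

namespace Pool.Agent.Lib.MP_ccbbf6_gt.L5.OT
end Pool.Agent.Lib.MP_ccbbf6_gt.L5.OT

namespace OT
end OT

/-!
# Level 5, block PH, part 3: the integral of the cut-off standard form over a cube; comparison at the boundary
-/

set_option autoImplicit false
set_option maxSynthPendingDepth 3
set_option linter.unusedSectionVars false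
set_option linter.unusedVariables false

open Matrix Function Filter Topology Set MeasureTheory
open scoped ContDiff Real

noncomputable section

namespace Pool.Agent.Lib.MP_ccbbf6_gt.L5.PH

open Geo L4 L4.FR OT

variable {ι : Type} [Fintype ι] [DecidableEq ι] {X Y : Space} {n k r m : ℕ}

/-- **the integral of the cut-off standard form** -/
theorem cI_StdF {a : Fin (m + 1) → ι → ℝ} (ha : ∀ i j, ∑ x, a i x * a j x = if i = j then 1 else 0) (hm : 1 ≤ m)
    (G : (X.xV (m + 1)).Plot (m + 1)) (hG : ∀ x ∈ DB.bd (m + 1), 2 < ‖toE (G.1 x).2‖) :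
    ∃ k : ℤ, cI (m + 1) (Om.on (cutX (StdF X a)) G) = k * sphN (m + 1) := by
  let g : FR.Sm (m + 1) (m + 1) := ⟨fun z => (G.1 z).2, G.2.2⟩
  let f : SMap X (spV 0) := ⟨fun _ => (0 : V 0), fun k p => show ContDiff ℝ ∞ (fun _ : V k => (0 : V 0)) from contDiff_const⟩
  obtain ⟨k, hk⟩ := DB.deg_ball g fun x hx hi => hG x ⟨hx, hi⟩
  refine ⟨k, ?_⟩
  obtain ⟨w0, hw0⟩ : ∃ w0 : Fm (m + 1), w0 = Om.on (cutX (StdF (spV 0) a)) (plVX (m + 1)) := ⟨_, rfl⟩
  have h1 : Om.on (cutX (StdF X a)) G = pb g w0 := by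
    rw [← StdF_pull f a, cutX_nat, on_pull, hw0, ← on_cmp]
    congr 1
  have h0 : ∀ ξ : V (m + 1), (‖toE ξ‖ < 1 ∨ 2 < ‖toE ξ‖) → topE (m + 1) (ev ξ w0) = 0 := by
    intro ξ hξ
    rw [hw0, ev_cutX _ (plVX (m + 1)) ξ hξ, map_zero]
  have hval : ∀ ξ : V (m + 1), topE (m + 1) (ev ξ w0) = deriv chi ‖toE ξ‖ / ‖toE ξ‖ ^ m * m.factorial := by
    intro ξ
    by_cases hξ : ξ = 0
    · have e1 : ‖toE ξ‖ = 0 := by
        rw [hξ]
        show ‖(WithLp.toLp 2 (0 : V (m + 1)) : EuclideanSpace ℝ (Fin (m + 1)))‖ = 0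
        rw [WithLp.toLp_zero, norm_zero]
      rw [h0 ξ (Or.inl (by rw [e1]; exact one_pos)), e1, zero_pow (by omega), div_zero, zero_mul]
    · rw [hw0]
      exact topE_StdF ha hξ
  have hsm : ContDiff ℝ ∞ fun ξ : V (m + 1) => topE (m + 1) (ev ξ w0) := contDiff_coef (topE (m + 1)) w0
  have hcs : HasCompactSupport fun ξ : V (m + 1) => topE (m + 1) (ev ξ w0) := by
    refine HasCompactSupport.intro (K := {ξ : V (m + 1) | ‖toE ξ‖ ≤ 2}) ?_ fun ξ hξ => h0 ξ (Or.inr (not_le.1 hξ))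
    have e1 : {ξ : V (m + 1) | ‖toE ξ‖ ≤ 2} = (fun ξ : V (m + 1) => toE ξ) ⁻¹' Metric.closedBall 0 2 := by
      ext ξ
      rw [mem_preimage, mem_closedBall_zero_iff]
      rfl
    rw [e1]
    exact (PiLp.homeomorph 2 (fun _ : Fin (m + 1) => ℝ)).symm.isCompact_preimage.2 (isCompact_closedBall _ _)
  have h3 := hk _ hsm hcs fun w hw => h0 w (Or.inr hw)
  have h4 : ∫ w : V (m + 1), topE (m + 1) (ev w w0) = sphN (m + 1) := by
    simp only [hval]
    rw [integral_radial, sphN, Nat.factorial_succ]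
    push_cast
    ring
  rw [h4] at h3
  rw [h1, ← h3]
  unfold cI
  refine setIntegral_congr_fun measurableSet_Icc fun x _ => ?_
  show topE (m + 1) (ev x (pb g w0)) = topE (m + 1) (ev (g x) w0) * (fderiv ℝ (g : V (m + 1) → V (m + 1)) x).det
  rw [ev_pb, topE_map, tr_eq, det_trL, mul_comm]

/-- the normalisation -/
theorem cstG_sphN (n : ℕ) : cstG n * sphN (2 * (n + 1)) = 1 := by
  have h5 : ((2 * (n + 1)).factorial : ℝ) = 2 * (n + 1) * (2 * n + 1).factorial := by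
    have e : 2 * (n + 1) = 2 * n + 1 + 1 := by ring
    rw [e, Nat.factorial_succ]
    push_cast
    ring
  have h6 : ((n + 1).factorial : ℝ) = (n + 1) * n.factorial := by
    rw [Nat.factorial_succ]
    push_cast
    ring
  rw [sphN_even, cstG_eq, h5, h6]
  have hp := Real.pi_ne_zero
  have hf : (n.factorial : ℝ) ≠ 0 := Nat.cast_ne_zero.2 (Nat.factorial_ne_zero n)
  have hf2 : ((2 * n + 1).factorial : ℝ) ≠ 0 := Nat.cast_ne_zero.2 (Nat.factorial_ne_zero _)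
  have h7 : ((n : ℝ) + 1) ≠ 0 := by positivity
  field_simp

/-- forms which vanish at the boundary of the cube -/
theorem cI_dd_bd {θ : Fm (r + 1)} (h : ∀ x ∈ DB.bd (r + 1), ev x θ = 0) : cI (r + 1) (dd (r + 1) θ) = 0 := by
  rw [PE.cI_dd']
  refine Finset.sum_eq_zero fun i _ => ?_
  have h0 : ∀ ε : ℝ, (ε = 0 ∨ ε = 1) → cI r (pb (PE.emb i ε) θ) = 0 := by
    intro ε hε
    refine (cI_congr (τ := 0) fun x hx => ?_).trans cI_zero
    rw [PE.ev_emb, ← PE.emb_apply, h (PE.emb i ε x) ⟨insertNth_mem_cube hε hx, i, by rw [PE.emb_same]; exact hε⟩, map_zero,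
      map_zero (ev x)]
  rw [h0 1 (Or.inr rfl), h0 0 (Or.inl rfl), sub_self, mul_zero]

/-- `κ = id` near the cube -/
theorem cI_cmp {κ : FR.Sm k k} (hκ : ∀ z ∈ Icc (0 : V k) 1, ∀ᶠ w in 𝓝 z, κ w = w) (c : X.Plot k) (w : Om X) :
    cI k (Om.on w (c.cmp κ)) = cI k (Om.on w c) := by
  rw [on_cmp]
  exact cI_congr fun x hx => by rw [ev_pb_id (hκ x hx)]

theorem cI_dd_cmp {κ : FR.Sm k k} (hκ : ∀ z ∈ Icc (0 : V k) 1, ∀ᶠ w in 𝓝 z, κ w = w) (c : X.Plot k) (w : Om X) :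
    cI k (dd k (Om.on w (c.cmp κ))) = cI k (dd k (Om.on w c)) := by
  rw [on_cmp, pb_dd]
  exact cI_congr fun x hx => by rw [ev_pb_id (hκ x hx)]

end Pool.Agent.Lib.MP_ccbbf6_gt.L5.PH
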