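import Pool.Agent.Lib.MP_ccbbf6_gt.L4.FUB
import Pool.Agent.Lib.MP_ccbbf6_gt.L5.EGS
import Pool.Agent.Lib.MP_ccbbf6_gt.L5.PHT2

/-!
# Level 5, block PH, part 4: the angular form in a frame over the cube

`FD P o c β`: `β` is a positive orthonormal frame of `P` along the plot `c : X.Plot N`, `N = 2 (n + 1)`. On `V_N × (R^N - 0)` the
angular form `psY` of the bundle is `pr^* ka + cstG n • StdF + d eta`, `ka` a primitive of the Euler form along `c`.
-/

set_option autoImplicit false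
set_option maxSynthPendingDepth 3
set_option linter.unusedSectionVars false
set_option linter.unusedVariables false

open Matrix Function Filter Topology Set MeasureTheory
open scoped ContDiff Real

noncomputable section

namespace Pool.Agent.Lib.MP_ccbbf6_gt.L5.PH

open Geo L4 L4.FR OT

variable {ι : Type} [Fintype ι] [DecidableEq ι] {X Y : Space} {n k r m : ℕ}

theorem sf_sum {α : Type*} (t : Finset α) (f : α → SF X) (x : X.pt) : (∑ i ∈ t, f i : SF X).1 x = ∑ i ∈ t, (f i).1 x := by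
  classical
  induction t using Finset.induction_on with
  | empty => rfl
  | insert a t ha ih =>
    rw [Finset.sum_insert ha, Finset.sum_insert ha, ← ih]
    rfl

theorem sf_mul (f g : SF X) (x : X.pt) : (f * g : SF X).1 x = f.1 x * g.1 x := rfl

theorem sf_smul (c : ℝ) (f : SF X) (x : X.pt) : (c • f : SF X).1 x = c * f.1 x := rfl

theorem sf_ext {f g : SF X} (h : ∀ x, f.1 x = g.1 x) : f = g := Subtype.ext (funext h)

/-- functions of the cube as functions on `R^k` -/
def cS (k : ℕ) (f : Cs k) : SF (spV k) := ⟨fun x => (f : V k → ℝ) x, fun _ p => (Cs_smooth f).comp p.2⟩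

/-- scalar multiplication -/
def scV (k : ℕ) (t : ℝ) (v : V k) : V k := t • v

theorem scV_one (v : V k) : scV k 1 v = v := one_smul ℝ v

theorem scV_zero (v : V k) : scV k 0 v = 0 := zero_smul ℝ v

/-- the origin -/
def zV (k : ℕ) : V k := 0

/-- **closed forms on `R^k` are exact** -/
theorem exists_prim {j : ℕ} {e : Om (spV k)} (hd : dO _ e = 0) (he : Deg (j + 1) e) :
    ∃ ka : Om (spV k), dO _ ka = e ∧ Deg j ka := by
  let H : SMap (spV k).xR (spV k) := ⟨fun w => scV k w.2 w.1, fun _ p => p.2.2.smul p.2.1⟩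
  refine ⟨KO _ (H.pull e), ?_, Deg_K (Deg_pull _ he)⟩
  have h1 := d_K (H.pull e)
  rw [pull_d, hd, map_zero, map_zero, add_zero] at h1
  have h2 : (jO (spV k) 1).pull (H.pull e) = e := by
    have e1 : H.comp (jO (spV k) 1) = SMap.id _ := SMap_ext fun x => scV_one x
    rw [← pull_comp, e1, pull_id]
  have h3 : (jO (spV k) 0).pull (H.pull e) = 0 := by
    rw [← pull_comp]
    exact pull_const (H.comp (jO (spV k) 0)) (y := zV k) (fun x => scV_zero x) (Nat.succ_pos j) he
  rw [h1, h2, h3, sub_zero]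

section frame

/-- a positive orthonormal frame along a plot -/
structure FD (P : Matrix ι ι (SF X)) (o : (Fin (2 * (n + 1)) → ι) → SF X) (c : X.Plot (2 * (n + 1)))
    (β : Matrix ι (Fin (2 * (n + 1))) (Cs (2 * (n + 1)))) : Prop where
  or : Or (2 * (n + 1)) P o
  bb : ∀ z i j, ∑ l, (β l i : V (2 * (n + 1)) → ℝ) z * (β l j : V (2 * (n + 1)) → ℝ) z = if i = j then 1 else 0
  pp : ∀ z l m, (P l m).1 (c.1 z) = ∑ j, (β l j : V (2 * (n + 1)) → ℝ) z * (β m j : V (2 * (n + 1)) → ℝ) z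
  oo : ∀ z I, (o I).1 (c.1 z) = dtn (fun j l => (β l j : V (2 * (n + 1)) → ℝ) z) I

variable {P : Matrix ι ι (SF X)} {o : (Fin (2 * (n + 1)) → ι) → SF X} {c : X.Plot (2 * (n + 1))}
  {β : Matrix ι (Fin (2 * (n + 1))) (Cs (2 * (n + 1)))}

/-- `V_N × (R^N - 0)` -/
abbrev YP (n : ℕ) : Space := (spV (2 * (n + 1))).xP (2 * (n + 1))

/-- the map to `X` -/
def toX (c : X.Plot (2 * (n + 1))) : SMap (YP n) X := (plM c).comp (pP (spV (2 * (n + 1))) (2 * (n + 1)))

/-- the tautological unit section -/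
def yY (β : Matrix ι (Fin (2 * (n + 1))) (Cs (2 * (n + 1)))) : ι → SF (YP n) := fun i =>
  ∑ j, pf (pP (spV (2 * (n + 1))) (2 * (n + 1))) (cS _ (β i j)) * ySF (2 * (n + 1)) (spV (2 * (n + 1))) j

theorem yY_val (z : (YP n).pt) (i : ι) :
    (yY β i).1 z = ∑ j, (β i j : V (2 * (n + 1)) → ℝ) z.1.1 * hat z.1.2 j := by
  unfold yY
  rw [sf_sum]
  rfl

theorem FD.pb (h : FD P o c β) (z : V (2 * (n + 1))) (l : ι) (j : Fin (2 * (n + 1))) :
    ∑ m, (P l m).1 (c.1 z) * (β m j : V (2 * (n + 1)) → ℝ) z = (β l j : V (2 * (n + 1)) → ℝ) z := by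
  simp only [h.pp, Finset.sum_mul]
  rw [Finset.sum_comm]
  have e1 : ∀ i, ∑ m, (β l i : V (2 * (n + 1)) → ℝ) z * (β m i : V (2 * (n + 1)) → ℝ) z * (β m j : V (2 * (n + 1)) → ℝ) z =
      (β l i : V (2 * (n + 1)) → ℝ) z * (if i = j then 1 else 0) := by
    intro i
    rw [← h.bb z i j, Finset.mul_sum]
    exact Finset.sum_congr rfl fun m _ => by ring
  simp only [e1, mul_ite, mul_one, mul_zero]
  rw [Finset.sum_ite_eq' Finset.univ j, if_pos (Finset.mem_univ j)]

theorem FD.sec (h : FD P o c β) : Sec (P.map (pf (toX c))) (yY β) := by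
  constructor
  · funext l
    refine sf_ext fun z => ?_
    show (∑ m, (P.map (pf (toX c))) l m * yY β m : SF (YP n)).1 z = _
    rw [sf_sum]
    simp only [sf_mul, yY_val]
    have e1 : ∀ m, ((P.map (pf (toX c))) l m).1 z = (P l m).1 (c.1 z.1.1) := fun _ => rfl
    simp only [e1, Finset.mul_sum]
    rw [Finset.sum_comm]
    refine Finset.sum_congr rfl fun j _ => ?_
    rw [← h.pb z.1.1 l j, Finset.sum_mul]
    exact Finset.sum_congr rfl fun m _ => by ring
  · refine sf_ext fun z => ?_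
    rw [sf_sum]
    simp only [sf_mul, yY_val]
    have e1 : ∀ l, (∑ j, (β l j : V (2 * (n + 1)) → ℝ) z.1.1 * hat z.1.2 j) * (∑ j, (β l j : V (2 * (n + 1)) → ℝ) z.1.1 * hat z.1.2 j) =
        ∑ i, ∑ j, ((β l i : V (2 * (n + 1)) → ℝ) z.1.1 * (β l j : V (2 * (n + 1)) → ℝ) z.1.1) * (hat z.1.2 i * hat z.1.2 j) := by
      intro l
      rw [Finset.sum_mul_sum]
      exact Finset.sum_congr rfl fun i _ => Finset.sum_congr rfl fun j _ => by ring
    simp only [e1]
    rw [Finset.sum_comm]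
    have e2 : ∀ i, ∑ l, ∑ j, ((β l i : V (2 * (n + 1)) → ℝ) z.1.1 * (β l j : V (2 * (n + 1)) → ℝ) z.1.1) * (hat z.1.2 i * hat z.1.2 j) =
        hat z.1.2 i * hat z.1.2 i := by
      intro i
      rw [Finset.sum_comm]
      have e3 : ∀ j, ∑ l, ((β l i : V (2 * (n + 1)) → ℝ) z.1.1 * (β l j : V (2 * (n + 1)) → ℝ) z.1.1) * (hat z.1.2 i * hat z.1.2 j) =
          (if i = j then 1 else 0) * (hat z.1.2 i * hat z.1.2 j) := by
        intro j
        rw [← h.bb z.1.1 i j, Finset.sum_mul]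
      simp only [e3, ite_mul, one_mul, zero_mul]
      rw [Finset.sum_ite_eq Finset.univ i, if_pos (Finset.mem_univ i)]
    simp only [e2]
    exact sum_hat z.2

theorem FD.orY (h : FD P o c β) : Or (2 * (n + 1)) (P.map (pf (toX c))) (fun I => pf (toX c) (o I)) :=
  h.or.map' (pf (toX c) : SF X →+* SF (YP n))

/-- the angular form in the frame -/
def psY (P : Matrix ι ι (SF X)) (o : (Fin (2 * (n + 1)) → ι) → SF X) (c : X.Plot (2 * (n + 1)))
    (β : Matrix ι (Fin (2 * (n + 1))) (Cs (2 * (n + 1)))) : Om (YP n) :=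
  psiG (FO (YP n)) (P.map (pf (toX c))) (fun I => pf (toX c) (o I)) (yY β)

/-- the Euler form along the plot -/
def eV (P : Matrix ι ι (SF X)) (o : (Fin (2 * (n + 1)) → ι) → SF X) (c : X.Plot (2 * (n + 1))) :
    Om (spV (2 * (n + 1))) := (plM c).pull (eulG (FO X) P o)

theorem FD.d_psY (h : FD P o c β) : dO _ (psY P o c β) = (pP (spV (2 * (n + 1))) (2 * (n + 1))).pull (eV P o c) := by
  have h1 := d_psiG (φ := FO (YP n)) h.orY h.sec
  refine h1.trans ?_
  exact ((FHom.pull (toX c)).eulG (P := P) o).symm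

/-- the contraction -/
def HY (n : ℕ) : SMap (YP n).xR (YP n) :=
  ⟨fun w => ⟨(scV (2 * (n + 1)) w.2 w.1.1.1, w.1.1.2), w.1.2⟩, fun _ p => ⟨p.2.2.smul p.2.1.1, p.2.1.2⟩⟩

/-- the frame at the origin -/
def a0 (β : Matrix ι (Fin (2 * (n + 1))) (Cs (2 * (n + 1)))) : Fin (2 * (n + 1)) → ι → ℝ :=
  fun j l => (β l j : V (2 * (n + 1)) → ℝ) 0

/-- the angular form at the origin -/
theorem FD.psY0 (h : FD P o c β) : ((HY n).comp (jO (YP n) 0)).pull (psY P o c β) =
    cstG n • StdF (m := 2 * n + 1) (spV (2 * (n + 1))) (a0 β) := by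
  obtain ⟨f, hf⟩ : ∃ f : SMap (YP n) (YP n), f = (HY n).comp (jO (YP n) 0) := ⟨_, rfl⟩
  have hf0 : ∀ z : (YP n).pt, (f.1 z).1.1 = zV (2 * (n + 1)) := fun z => by
    rw [hf]
    exact scV_zero (k := 2 * (n + 1)) z.1.1
  have hf1 : ∀ z : (YP n).pt, (f.1 z).1.2 = z.1.2 := fun z => by
    rw [hf]
    rfl
  rw [← hf]
  have h1 := (FHom.pull f).psiG (P := P.map (pf (toX c))) (o := fun I => pf (toX c) (o I)) (y := yY β)
  have h2 : psiG (FO (YP n)) ((P.map (pf (toX c))).map (pf f)) (fun I => pf f (pf (toX c) (o I))) (fun i => pf f (yY β i)) =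
      psiG (FO ((spV (2 * (n + 1))).xP (2 * (n + 1)))) (PC (spV (2 * (n + 1))) (a0 β)) (fun I => algebraMap ℝ _ (1 * dtn (a0 β) I))
        (YSF (spV (2 * (n + 1))) (a0 β)) := by
    have e1 : (P.map (pf (toX c))).map (pf f) = PC (spV (2 * (n + 1))) (a0 β) := by
      refine Matrix.ext fun l m => sf_ext fun z => ?_
      show (P l m).1 (c.1 (f.1 z).1.1) = ∑ j, a0 β j l * a0 β j m
      rw [hf0, h.pp]
      rfl
    have e2 : (fun I => pf f (pf (toX c) (o I))) = fun I => algebraMap ℝ (SF (YP n)) (1 * dtn (a0 β) I) := by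
      funext I
      refine sf_ext fun z => ?_
      show (o I).1 (c.1 (f.1 z).1.1) = 1 * dtn (a0 β) I
      rw [hf0, h.oo, one_mul]
      rfl
    have e3 : (fun i => pf f (yY β i)) = YSF (spV (2 * (n + 1))) (a0 β) := by
      funext i
      refine sf_ext fun z => ?_
      show (yY β i).1 (f.1 z) = _
      rw [yY_val, hf0, hf1]
      unfold YSF
      rw [sf_sum]
      rfl
    rw [e1, e2, e3]
  have h3 : ∀ i j, ∑ x, a0 β i x * a0 β j x = if i = j then 1 else 0 := fun i j => h.bb 0 i j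
  refine h1.trans (h2.trans ?_)
  rw [psiG_PC h3 1, one_mul]

/-- **the angular form in the frame** -/
theorem FD.psY_eq (h : FD P o c β) : ∃ (ka : Om (spV (2 * (n + 1)))) (eta : Om (YP n)),
    dO _ ka = eV P o c ∧ Deg (2 * n + 1) ka ∧ psY P o c β = (pP (spV (2 * (n + 1))) (2 * (n + 1))).pull ka +
      (cstG n • StdF (m := 2 * n + 1) (spV (2 * (n + 1))) (a0 β) + dO _ eta) := by
  obtain ⟨ka, hka1, hka2⟩ := exists_prim (j := 2 * n + 1) (e := eV P o c)
    (by
      have h1 : dO X (eulG (FO X) P o) = 0 := d_eulG (φ := FO X) h.or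
      unfold eV
      rw [pull_d, h1, map_zero]) (Deg_pull _ (Deg_eulG P o))
  obtain ⟨th, hth⟩ : ∃ th : Om (YP n), th = psY P o c β - (pP (spV (2 * (n + 1))) (2 * (n + 1))).pull ka := ⟨_, rfl⟩
  have hd : dO _ th = 0 := by
    rw [hth, map_sub, h.d_psY, pull_d, hka1, sub_self]
  refine ⟨ka, KO _ ((HY n).pull th), hka1, hka2, ?_⟩
  have h1 := d_K ((HY n).pull th)
  rw [pull_d, hd, map_zero, map_zero, add_zero] at h1
  have h2 : (jO (YP n) 1).pull ((HY n).pull th) = th := by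
    have e1 : (HY n).comp (jO (YP n) 1) = SMap.id _ :=
      SMap_ext fun x => Subtype.ext (Prod.ext (scV_one (k := 2 * (n + 1)) x.1.1) rfl)
    rw [← pull_comp, e1, pull_id]
  have h3 : (jO (YP n) 0).pull ((HY n).pull th) = cstG n • StdF (m := 2 * n + 1) (spV (2 * (n + 1))) (a0 β) := by
    rw [← pull_comp, hth, map_sub, h.psY0]
    have e1 : ((HY n).comp (jO (YP n) 0)).pull ((pP (spV (2 * (n + 1))) (2 * (n + 1))).pull ka) = 0 := by
      rw [← pull_comp]
      exact pull_const ((pP (spV (2 * (n + 1))) (2 * (n + 1))).comp ((HY n).comp (jO (YP n) 0))) (y := zV (2 * (n + 1)))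
        (fun x => scV_zero (k := 2 * (n + 1)) x.1.1) (Nat.succ_pos _) hka2
    rw [e1, sub_zero]
  rw [h1, h2, h3, hth]
  abel

end frame

end Pool.Agent.Lib.MP_ccbbf6_gt.L5.PH
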