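import Pool.Agent.Lib.MP_ccbbf6_gt.L5.IB0
import Pool.Agent.Lib.MP_ccbbf6_gt.L5.PHT4

/-!
# Level 5, block PH, part 5: the Euler number of an oriented bundle over a cube with mixed faces is an integer

`int_sec` : if there is a section which does not vanish on the boundary of the cube; `int_eul` : without this assumption.
-/

set_option autoImplicit false
set_option maxSynthPendingDepth 3
set_option linter.unusedSectionVars false
set_option linter.unusedVariables false

open Matrix Function Filter Topology Set MeasureTheory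
open scoped ContDiff Real

noncomputable section

namespace Pool.Agent.Lib.MP_ccbbf6_gt.L5.PH

open Geo L4 L4.FR OT

variable {ι : Type} [Fintype ι] [DecidableEq ι] {X Y : Space} {n k r m : ℕ}

/-! ### the cut-off on `X × R^N` -/

theorem van_chX (X : Space) (N : ℕ) : Van (X.xV N) (neZ X N) ((inU (X.xV N) (neZ X N)).pull (chiX N X)) := by
  refine Van_fO (open_neZ X N) _ fun k p x hx => ?_
  have h0 : (p.1 x).2 = 0 := by_contra fun h => hx h
  have h1 : ‖toE (p.1 x).2‖ < 1 := by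
    rw [h0]
    show ‖(WithLp.toLp 2 (0 : V N) : EuclideanSpace ℝ (Fin N))‖ < 1
    rw [WithLp.toLp_zero, norm_zero]
    exact one_pos
  have h2 : Continuous fun y : V k => ‖toE (p.1 y).2‖ := (contDiff_toE.continuous.comp p.2.2.continuous).norm
  filter_upwards [h2.continuousAt.eventually (gt_mem_nhds h1)] with y hy
  exact chi_zero (le_of_lt hy)

/-- `χ(|ξ|) th`, extended by zero -/
def muX {N : ℕ} (th : Om (X.xP N)) : Om (X.xV N) :=
  ext0 (open_neZ X N) ((inU (X.xV N) (neZ X N)).pull (chiX N X) * th) (Van_mul (van_chX X N) th)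

theorem d_muX {N : ℕ} {th : Om (X.xP N)} (h : dO _ th = 0) : dO _ (muX th) = cutX th := by
  have h1 : dO _ (muX th) = ext0 (open_neZ X N) (dO _ ((inU (X.xV N) (neZ X N)).pull (chiX N X) * th))
      (Van_d (open_neZ X N) (Van_mul (van_chX X N) th)) := ext0_d (open_neZ X N) _
  rw [h1]
  unfold cutX
  refine ext0_congr _ ?_ _ _
  rw [d_mul, h, mul_zero, add_zero]
  rfl

section main

variable {P : Matrix ι ι (SF X)} {o : (Fin (2 * (n + 1)) → ι) → SF X} {c : X.Plot (2 * (n + 1))}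
  {β : Matrix ι (Fin (2 * (n + 1))) (Cs (2 * (n + 1)))} {s : ι → SF X}

/-- coordinates of a section in the frame -/
def gV (β : Matrix ι (Fin (2 * (n + 1))) (Cs (2 * (n + 1)))) (s : ι → SF X) (c : X.Plot (2 * (n + 1))) :
    FR.Sm (2 * (n + 1)) (2 * (n + 1)) :=
  ⟨fun z j => ∑ i, (β i j : V (2 * (n + 1)) → ℝ) z * (s i).1 (c.1 z), contDiff_pi.2 fun j =>
    ContDiff.sum fun i _ => (Cs_smooth (β i j)).mul ((s i).2 _ c)⟩

theorem gV_apply (z : V (2 * (n + 1))) (j : Fin (2 * (n + 1))) :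
    gV β s c z j = ∑ i, (β i j : V (2 * (n + 1)) → ℝ) z * (s i).1 (c.1 z) := rfl

theorem FD.gV_eq (h : FD P o c β) (hs : P.mulVec s = s) (z : V (2 * (n + 1))) (i : ι) :
    ∑ j, (β i j : V (2 * (n + 1)) → ℝ) z * gV β s c z j = (s i).1 (c.1 z) := by
  have h1 : (s i).1 (c.1 z) = ∑ l, (P i l).1 (c.1 z) * (s l).1 (c.1 z) := by
    have h2 := congrArg (fun f : SF X => f.1 (c.1 z)) (congrFun hs i)
    rw [← h2]
    show (∑ l, P i l * s l : SF X).1 (c.1 z) = _
    rw [sf_sum]
    rfl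
  rw [h1]
  simp only [gV_apply, Finset.mul_sum, h.pp, Finset.sum_mul]
  rw [Finset.sum_comm]
  exact Finset.sum_congr rfl fun l _ => Finset.sum_congr rfl fun j _ => by ring

theorem FD.norm_gV (h : FD P o c β) (hs : P.mulVec s = s) (z : V (2 * (n + 1))) :
    ‖toE (gV β s c z)‖ = nI (vs s (c.1 z)) := by
  have h1 : ‖toE (gV β s c z)‖ ^ 2 = nI (vs s (c.1 z)) ^ 2 := by
    rw [toE_sq, nI_sq]
    have e1 : ∀ j, gV β s c z j ^ 2 = ∑ i, (s i).1 (c.1 z) * ((β i j : V (2 * (n + 1)) → ℝ) z * gV β s c z j) := by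
      intro j
      rw [sq]
      conv_lhs => rw [gV_apply, Finset.sum_mul]
      exact Finset.sum_congr rfl fun i _ => by rw [← gV_apply]; ring
    simp only [e1]
    rw [Finset.sum_comm]
    refine Finset.sum_congr rfl fun i _ => ?_
    rw [← Finset.mul_sum, h.gV_eq hs]
    rfl
  exact (sq_eq_sq₀ (norm_nonneg _) (nI_nonneg _)).1 h1

/-- the section as a plot of `V_N × R^N` -/
def GP (β : Matrix ι (Fin (2 * (n + 1))) (Cs (2 * (n + 1)))) (s : ι → SF X) (c : X.Plot (2 * (n + 1))) :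
    ((spV (2 * (n + 1))).xV (2 * (n + 1))).Plot (2 * (n + 1)) :=
  ⟨fun z => (z, gV β s c z), show ContDiff ℝ ∞ (fun z : V (2 * (n + 1)) => z) from contDiff_id, (gV β s c).smooth⟩

/-- **comparison at the points where the section is large** -/
theorem FD.ev_mu (h : FD P o c β) (hs : P.mulVec s = s) {ka : Om (spV (2 * (n + 1)))} {th : Om (YP n)}
    (e : psY P o c β = (pP (spV (2 * (n + 1))) (2 * (n + 1))).pull ka + th) {x : V (2 * (n + 1))}
    (hx : 2 < nI (vs s (c.1 x))) :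
    ev x (Om.on (muX th) (GP β s c)) = ev x (Om.on (lamS P o s) c) - ev x (Om.on ka (idP (2 * (n + 1)))) := by
  have hg0 : gV β s c x ≠ 0 := fun h0 => by
    have h1 := h.norm_gV hs x
    rw [h0] at h1
    have h2 : ‖toE (0 : V (2 * (n + 1)))‖ = 0 := by
      show ‖(WithLp.toLp 2 (0 : V (2 * (n + 1))) : EuclideanSpace ℝ (Fin (2 * (n + 1))))‖ = 0
      rw [WithLp.toLp_zero, norm_zero]
    linarith
  have hopen : IsOpen {z : V (2 * (n + 1)) | gV β s c z ≠ 0} := isOpen_ne.preimage (gV β s c).smooth.continuous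
  obtain ⟨s0, hs1, hs2⟩ := exists_sq x (hopen.mem_nhds hg0)
  have hs3 : ∀ z, vs s (c.1 (s0 z)) ≠ 0 := fun z h0 => hs2 z (by
    have h1 := h.norm_gV hs (s0 z)
    have h2 : nI (vs s (c.1 (s0 z))) = 0 := by
      rw [h0]
      unfold nI
      rw [WithLp.toLp_zero, norm_zero]
    rw [h2, norm_eq_zero] at h1
    exact congrArg WithLp.ofLp h1)
  let R : (YP n).Plot (2 * (n + 1)) := ⟨fun z => ⟨(s0 z, gV β s c (s0 z)), hs2 z⟩, s0.smooth, (gV β s c).smooth.comp s0.smooth⟩
  let Q : (sub X (US s)).Plot (2 * (n + 1)) := ⟨fun z => ⟨c.1 (s0 z), hs3 z⟩, X.pre c.2 s0⟩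
  have hR : ∀ᶠ z in 𝓝 x, (R.1 z).1 = (GP β s c).1 z := by
    filter_upwards [hs1] with z hz
    show (s0 z, gV β s c (s0 z)) = (z, gV β s c z)
    rw [hz]
  have hQ : ∀ᶠ z in 𝓝 x, (Q.1 z).1 = c.1 z := by
    filter_upwards [hs1] with z hz
    show c.1 (s0 z) = c.1 z
    rw [hz]
  have hx1 : s0 x = x := hs1.self_of_nhds
  -- the angular forms agree
  have e1 : Om.on (psY P o c β) R = Om.on (psS P o s) Q := by
    have a1 := (FHom.on R).psiG (P := P.map (pf (toX c))) (o := fun I => pf (toX c) (o I)) (y := yY β)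
    have a2 := (FHom.on Q).psiG (P := P.map (pf (inU X (US s)))) (o := fun I => pf (inU X (US s)) (o I)) (y := PH.hs s)
    refine a1.trans (Eq.trans ?_ a2.symm)
    have e3 : (fun i => (FHom.on R).g (yY β i)) = fun i => (FHom.on Q).g (PH.hs s i) := by
      funext i
      refine Cs_ext fun z => ?_
      show (yY β i).1 (R.1 z) = (nI (vs s (c.1 (s0 z))))⁻¹ * (s i).1 (c.1 (s0 z))
      rw [yY_val, ← h.gV_eq hs (s0 z) i, Finset.mul_sum, ← h.norm_gV hs (s0 z)]
      refine Finset.sum_congr rfl fun j _ => ?_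
      show (β i j : V (2 * (n + 1)) → ℝ) (s0 z) * (‖toE (gV β s c (s0 z))‖⁻¹ * gV β s c (s0 z) j) = _
      ring
    rw [e3]
    rfl
  -- the left side
  have e2 : ev x (Om.on (muX th) (GP β s c)) = ev x (Om.on th R) := by
    unfold muX
    rw [ev_ext0, vAt_eq (vU_inj _ _) _ R hR, on_mul, map_mul (ev x), on_pull]
    have a1 : ev x (Om.on (chiX (2 * (n + 1)) (spV (2 * (n + 1)))) ((inU _ _).pl R)) = 1 := by
      unfold chiX
      rw [ev_fO]
      show algebraMap ℝ _ (chi ‖toE (gV β s c (s0 x))‖) = 1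
      rw [hx1, h.norm_gV hs, chi_one hx.le, map_one]
    rw [a1, one_mul]
  -- the right side
  have e3 : ev x (Om.on (lamS P o s) c) = ev x (Om.on (psS P o s) Q) := by
    unfold lamS
    rw [ev_ext0, vAt_eq (vU_inj _ _) _ Q hQ, on_mul, map_mul (ev x), on_pull]
    have a1 : ev x (Om.on (chS s) ((inU _ _).pl Q)) = 1 := by
      unfold chS
      rw [ev_fO]
      show algebraMap ℝ _ (chi (nI (vs s (c.1 (s0 x))))) = 1
      rw [hx1, chi_one hx.le, map_one]
    rw [a1, one_mul]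
  have e4 : ev x (Om.on ((pP (spV (2 * (n + 1))) (2 * (n + 1))).pull ka) R) = ev x (Om.on ka (idP (2 * (n + 1)))) := by
    rw [on_pull]
    have a1 : (pP (spV (2 * (n + 1))) (2 * (n + 1))).pl R = (idP (2 * (n + 1))).cmp s0 := rfl
    rw [a1, on_cmp, ev_pb_id hs1]
  have e5 : Om.on (psY P o c β) R = Om.on ((pP (spV (2 * (n + 1))) (2 * (n + 1))).pull ka) R + Om.on th R := by
    rw [e, on_add]
  rw [e2, e3, ← e1, e5, map_add, e4]
  abel

end main

end Pool.Agent.Lib.MP_ccbbf6_gt.L5.PH
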