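import Pool.Agent.Lib.MP_ccbbf6_gt.L5.PHT1
import Pool.Agent.Lib.MP_ccbbf6_gt.L5.PHT3
import Pool.Agent.Lib.MP_ccbbf6_gt.L5.PHT5

/-!
# Level 5, block PH, part 6: Euler numbers are integers, if there is a section without zeros on the boundary

`int_rel` : `∫ eulG - d (lamS P o s)` is an integer if `|s| > 2` on the boundary of the cube (no condition on the faces);
`int_sec` : `∫ eulG` is an integer if moreover `∫ d (lamS P o s) = 0`.
-/

set_option autoImplicit false
set_option maxSynthPendingDepth 3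
set_option linter.unusedSectionVars false
set_option linter.unusedVariables false

open Matrix Function Filter Topology Set MeasureTheory
open scoped ContDiff Real

noncomputable section

namespace Pool.Agent.Lib.MP_ccbbf6_gt.L5.PH

open Geo L4 L4.FR OT

variable {ι : Type} [Fintype ι] [DecidableEq ι] {X Y : Space} {n k r m : ℕ}

section main

variable {P : Matrix ι ι (SF X)} {o : (Fin (2 * (n + 1)) → ι) → SF X} {c : X.Plot (2 * (n + 1))}
  {β : Matrix ι (Fin (2 * (n + 1))) (Cs (2 * (n + 1)))} {s : ι → SF X}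

/-- **the relative Euler number in a frame** -/
theorem FD.int (h : FD P o c β) (hs : P.mulVec s = s) (hb : ∀ x ∈ DB.bd (2 * (n + 1)), 2 < nI (vs s (c.1 x))) :
    ∃ k : ℤ, cI (2 * (n + 1)) (Om.on (eulG (FO X) P o - dO X (lamS P o s)) c) = k := by
  obtain ⟨ka, eta, hka, hkad, hpsi⟩ := h.psY_eq
  obtain ⟨th, hth⟩ : ∃ th : Om (YP n), th = cstG n • StdF (m := 2 * n + 1) (spV (2 * (n + 1))) (a0 β) + dO _ eta := ⟨_, rfl⟩
  rw [← hth] at hpsi
  have hdth : dO _ th = 0 := by
    have h1 : th = psY P o c β - (pP (spV (2 * (n + 1))) (2 * (n + 1))).pull ka := by rw [hpsi]; abel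
    rw [h1, map_sub, h.d_psY, pull_d, hka, sub_self]
  have hG : ∀ x ∈ DB.bd (2 * (n + 1)), 2 < ‖toE ((GP β s c).1 x).2‖ := fun x hx => by
    have h1 := h.norm_gV hs x
    have h2 := hb x hx
    rw [← h1] at h2
    exact h2
  have ha : ∀ i j, ∑ x, a0 β i x * a0 β j x = if i = j then 1 else 0 := fun i j => h.bb 0 i j
  obtain ⟨k, hk⟩ := cI_StdF (m := 2 * n + 1) (X := spV (2 * (n + 1))) ha (by omega) (GP β s c) hG
  refine ⟨-k, ?_⟩
  -- Stokes
  have e1 : dd (2 * (n + 1)) (Om.on (muX th) (GP β s c)) =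
      cstG n • Om.on (cutX (StdF (m := 2 * n + 1) (spV (2 * (n + 1))) (a0 β))) (GP β s c) -
        dd (2 * (n + 1)) (Om.on (cutX eta) (GP β s c)) := by
    have a1 : cutX th = cstG n • cutX (StdF (m := 2 * n + 1) (spV (2 * (n + 1))) (a0 β)) - dO _ (cutX eta) := by
      rw [cutX_d, hth, cutX_add, cutX_smul, sub_neg_eq_add]
    rw [← on_d, d_muX hdth, a1, on_sub, on_smul, on_d]
  have e2 : cI (2 * (n + 1)) (dd (2 * (n + 1)) (Om.on (cutX eta) (GP β s c))) = 0 :=
    cI_dd_bd (r := 2 * n + 1) fun x hx => ev_cutX eta (GP β s c) x (Or.inr (hG x hx))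
  have e3 : cI (2 * (n + 1)) (dd (2 * (n + 1)) (Om.on (muX th) (GP β s c))) = k := by
    rw [e1, sub_eq_add_neg, cI_add, cI_neg, e2, neg_zero, add_zero, cI_smul]
    have a1 : cI (2 * (n + 1)) (Om.on (cutX (StdF (m := 2 * n + 1) (spV (2 * (n + 1))) (a0 β))) (GP β s c)) =
        k * sphN (2 * (n + 1)) := hk
    rw [a1, mul_left_comm, cstG_sphN, mul_one]
  have e4 : cI (2 * (n + 1)) (dd (2 * (n + 1)) (Om.on (muX th) (GP β s c) -
      (Om.on (lamS P o s) c - Om.on ka (idP (2 * (n + 1)))))) = 0 :=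
    cI_dd_bd (r := 2 * n + 1) fun x hx => by
      rw [map_sub, map_sub, h.ev_mu hs hpsi (hb x hx), sub_self]
  have e5 : cI (2 * (n + 1)) (dd (2 * (n + 1)) (Om.on ka (idP (2 * (n + 1))))) =
      cI (2 * (n + 1)) (Om.on (eulG (FO X) P o) c) := by
    rw [← on_d, hka]
    rfl
  rw [map_sub, map_sub, sub_eq_add_neg, cI_add, cI_neg, sub_eq_add_neg, cI_add, cI_neg, e3, e5] at e4
  rw [on_sub, on_d, sub_eq_add_neg, cI_add, cI_neg]
  push_cast
  linarith

end main

/-- **the relative Euler number is an integer**: a section without zeros on the boundary of the cube, no condition on the faces -/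
theorem int_rel {P : Matrix ι ι (SF X)} {o : (Fin (2 * (n + 1)) → ι) → SF X} (h : Or (2 * (n + 1)) P o) {s : ι → SF X}
    (hs : P.mulVec s = s) (c : X.Plot (2 * (n + 1))) (hb : ∀ x ∈ DB.bd (2 * (n + 1)), 2 < nI (vs s (c.1 x))) :
    ∃ k : ℤ, cI (2 * (n + 1)) (Om.on (eulG (FO X) P o - dO X (lamS P o s)) c) = k := by
  have h' : Or (2 * n + 1 + 1) (P.map (SFon c)) (fun I => SFon c (o I)) :=
    h.map' (SFon c : SF X →+* Cs (2 * (n + 1)))
  obtain ⟨κ, β, hκ, hβ1, hβ2, hβ3⟩ := exists_orf h'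
  have hfd : FD P o (c.cmp κ) β := by
    refine ⟨h, fun z i j => ?_, fun z l m => ?_, fun z I => ?_⟩
    · have h1 := congrArg (fun M : Matrix _ _ (Cs (2 * (n + 1))) => (M i j : V (2 * (n + 1)) → ℝ) z) hβ1
      simp only [Matrix.mul_apply, Matrix.transpose_apply, Matrix.one_apply] at h1
      rw [AddSubmonoidClass.coe_finsetSum, Finset.sum_apply] at h1
      refine Eq.trans h1 ?_
      split_ifs <;> rfl
    · have h1 := congrArg (fun M : Matrix _ _ (Cs (2 * (n + 1))) => (M l m : V (2 * (n + 1)) → ℝ) z) hβ2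
      simp only [Matrix.mul_apply, Matrix.transpose_apply] at h1
      rw [AddSubmonoidClass.coe_finsetSum, Finset.sum_apply] at h1
      exact h1.symm
    · have h1 := congrArg (fun f : Cs (2 * (n + 1)) => (f : V (2 * (n + 1)) → ℝ) z) (hβ3 I)
      have h2 : ((det (Matrix.of fun j k => β (I k) j) : Cs (2 * (n + 1))) : V (2 * (n + 1)) → ℝ) z =
          (det (Matrix.of fun j k => (β (I k) j : V (2 * (n + 1)) → ℝ) z)) := by
        have h3 := (evR z).map_det (Matrix.of fun j k => β (I k) j)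
        exact h3
      exact h1.trans h2
  have hb' : ∀ x ∈ DB.bd (2 * (n + 1)), 2 < nI (vs s ((c.cmp κ).1 x)) := fun x hx => by
    have h1 : (c.cmp κ).1 x = c.1 x := by
      show c.1 (κ x) = c.1 x
      rw [(hκ x hx.1).self_of_nhds]
    rw [h1]
    exact hb x hx
  obtain ⟨k, hk⟩ := hfd.int hs hb'
  exact ⟨k, by rw [← hk, cI_cmp hκ]⟩

/-- **the Euler number is an integer**, if there is a section without zeros on the boundary of the cube, and if
`∫ d (lamS P o s) = 0` -/
theorem int_sec {P : Matrix ι ι (SF X)} {o : (Fin (2 * (n + 1)) → ι) → SF X} (h : Or (2 * (n + 1)) P o) {s : ι → SF X}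
    (hs : P.mulVec s = s) (c : X.Plot (2 * (n + 1))) (hb : ∀ x ∈ DB.bd (2 * (n + 1)), 2 < nI (vs s (c.1 x)))
    (hl : cI (2 * (n + 1)) (dd (2 * (n + 1)) (Om.on (lamS P o s) c)) = 0) :
    ∃ k : ℤ, cI (2 * (n + 1)) (Om.on (eulG (FO X) P o) c) = k := by
  obtain ⟨k, hk⟩ := int_rel h hs c hb
  refine ⟨k, ?_⟩
  rw [← hk, on_sub, on_d, sub_eq_add_neg, cI_add, cI_neg, hl, neg_zero, add_zero]

end Pool.Agent.Lib.MP_ccbbf6_gt.L5.PH
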