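import Pool.Agent.Lib.MP_ccbbf6_gt.L5.EG4

namespace Pool.Agent.Lib.MP_ccbbf6_gt.Geo
end Pool.Agent.Lib.MP_ccbbf6_gt.Geo

namespace Pool.Agent.Lib.MP_ccbbf6_gt.L5.OT
end Pool.Agent.Lib.MP_ccbbf6_gt.L5.OT

namespace OT
end OT

/-!
# Level 5, block PH, part 7: faces on which the entries of the bundle have small rank
-/

set_option autoImplicit false
set_option maxSynthPendingDepth 3
set_option linter.unusedSectionVars false
set_option linter.unusedVariables false

open Matrix Function Filter Topology Set MeasureTheory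
open scoped ContDiff Real

noncomputable section

namespace Pool.Agent.Lib.MP_ccbbf6_gt.L5.PH

open Geo L4 L4.FR OT

/-! ### the angular form lies in the algebra generated by functions and differentials of the data -/

section mem

variable {ι : Type*} [Fintype ι] [DecidableEq ι] {A : Type*} [CommRing A] [Algebra ℝ A] {B : Type*} [Ring B] [Algebra ℝ B]
  {G : GDA B} {φ : Fun0 A G} {n : ℕ} {P : Matrix ι ι A} {o : (Fin (2 * (n + 1)) → ι) → A} {y : ι → A} {T : Subalgebra ℝ B}

theorem Dv_mem (hf : ∀ a, φ.f a ∈ T) (hy : ∀ l, G.d (φ.f (y l)) ∈ T) (l : ι) : Dv φ P y l ∈ T := by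
  unfold Dv pv dv uv
  exact Subalgebra.sum_mem _ fun m _ => T.mul_mem (hf _) (hy m)

theorem Rv_mem (hf : ∀ a, φ.f a ∈ T) (hP : ∀ l m, G.d (φ.f (P l m)) ∈ T) (l m : ι) : Rv φ P l m ∈ T := by
  unfold Rv
  rw [Matrix.mul_apply]
  refine Subalgebra.sum_mem _ fun i _ => T.mul_mem (hf _) ?_
  unfold GDA.R
  rw [Matrix.mul_apply]
  exact Subalgebra.sum_mem _ fun j _ => T.mul_mem (hP i j) (hP j m)

theorem Ee_mem {m : ℕ} {f : Fin m → G.Ee} (h : ∀ a, ((f a : G.Ee) : B) ∈ T) : ((∏ a, f a : G.Ee) : B) ∈ T := by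
  induction m with
  | zero =>
    rw [Finset.univ_eq_empty, Finset.prod_empty]
    exact T.one_mem
  | succ m ih =>
    rw [Fin.prod_univ_succ]
    exact T.mul_mem (h 0) (ih fun a => h a.succ)

theorem psiG_mem (hf : ∀ a, φ.f a ∈ T) (hP : ∀ l m, G.d (φ.f (P l m)) ∈ T) (hy : ∀ l, G.d (φ.f (y l)) ∈ T) :
    psiG φ P o y ∈ T := by
  unfold psiG psiR
  refine T.smul_mem (Subalgebra.sum_mem _ fun S _ => T.smul_mem ?_ _) _
  unfold PhiS St
  refine Subalgebra.sum_mem _ fun I _ => T.mul_mem (hf _) ?_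
  unfold TX yD
  refine T.mul_mem (T.mul_mem (hf _) (Dv_mem hf hy _)) (Ee_mem fun a => ?_)
  unfold MS
  split_ifs
  · exact Rv_mem hf hP _ _
  · exact T.mul_mem (Dv_mem hf hy _) (Dv_mem hf hy _)

end mem

/-! ### a vector which is killed by all differentials -/

variable {k : ℕ}

/-- the dual projection which kills `v` -/
def pvL (v : V k) : V k →ₗ[ℝ] V k where
  toFun a := a - ((∑ j, a j * v j) / (∑ j, v j * v j)) • v
  map_add' a b := by
    have h1 : ∑ j, (a + b) j * v j = ∑ j, a j * v j + ∑ j, b j * v j := by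
      rw [← Finset.sum_add_distrib]
      exact Finset.sum_congr rfl fun j _ => by rw [Pi.add_apply, add_mul]
    rw [h1, add_div, add_smul]
    abel
  map_smul' r a := by
    have h1 : ∑ j, (r • a) j * v j = r * ∑ j, a j * v j := by
      rw [Finset.mul_sum]
      exact Finset.sum_congr rfl fun j _ => by rw [Pi.smul_apply, smul_eq_mul, mul_assoc]
    rw [h1, mul_div_assoc, mul_smul, RingHom.id_apply, smul_sub]

theorem pvL_apply (v a : V k) : pvL v a = a - ((∑ j, a j * v j) / (∑ j, v j * v j)) • v := rfl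

theorem pvL_fix {v a : V k} (h : ∑ j, a j * v j = 0) : pvL v a = a := by
  rw [pvL_apply, h, zero_div, zero_smul, sub_zero]

theorem sum_sq_ne {v : V k} (h : v ≠ 0) : ∑ j, v j * v j ≠ 0 := by
  intro h0
  apply h
  funext j
  have h1 := (Finset.sum_eq_zero_iff_of_nonneg fun i _ => mul_self_nonneg (v i)).1 h0 j (Finset.mem_univ j)
  exact mul_self_eq_zero.1 h1

theorem pvL_self {v : V k} (h : v ≠ 0) : pvL v v = 0 := by
  rw [pvL_apply, div_self (sum_sq_ne h), one_smul, sub_self]

theorem det_pvL {v : V k} (h : v ≠ 0) : LinearMap.det (pvL v) = 0 := by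
  by_contra hd
  have h1 := LinearMap.ker_eq_bot.1 ((LinearMap.equivOfDetNeZero (pvL v) hd).ker)
  have h2 : pvL v v = pvL v 0 := by rw [pvL_self h, map_zero]
  exact h (h1 h2)

/-- the forms whose value at `x` is killed by `v` -/
def killT (x v : V k) : Subalgebra ℝ (Fm k) :=
  AlgHom.equalizer ((ExteriorAlgebra.map (pvL v)).comp (ev x)) (ev x)

theorem mem_killT {x v : V k} {w : Fm k} : w ∈ killT x v ↔ ExteriorAlgebra.map (pvL v) (ev x w) = ev x w := Iff.rfl

theorem fc_mem (x v : V k) (f : Cs k) : fc k f ∈ killT x v := by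
  rw [mem_killT, ev_fc, AlgHom.commutes]

theorem dd_mem {x v : V k} {f : Cs k} (h : fderiv ℝ (f : V k → ℝ) x v = 0) : dd k (fc k f) ∈ killT x v := by
  rw [mem_killT, ev_dd_fc, ExteriorAlgebra.map_apply_ι, pvL_fix]
  have h1 : ∑ j, (pd j f : V k → ℝ) x * v j = fderiv ℝ (f : V k → ℝ) x v := by
    have h2 : v = ∑ j, v j • (Pi.single j 1 : V k) := by
      funext a
      rw [Finset.sum_apply]
      simp [Pi.single_apply]
    conv_rhs => rw [h2, map_sum]
    refine Finset.sum_congr rfl fun j _ => ?_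
    rw [map_smul, smul_eq_mul, mul_comm, pd_apply]
  exact h1.trans h

theorem top_kill {x v : V k} {w : Fm k} {i : Fin k} (hv : v ≠ 0) (hi : v i = 0) (hw : w ∈ killT x v) :
    topE k (ee i * ev x w) = 0 := by
  have h1 : ExteriorAlgebra.map (pvL v) (ee i * ev x w) = ee i * ev x w := by
    rw [map_mul, mem_killT.1 hw]
    congr 1
    unfold ee
    rw [ExteriorAlgebra.map_apply_ι, pvL_fix]
    simp [Pi.single_apply, hi]
  rw [← h1, topE_map, det_pvL hv, zero_mul]

end Pool.Agent.Lib.MP_ccbbf6_gt.L5.PH
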