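import Pool.Agent.Lib.MP_ccbbf6_gt.L5.PHT6
import Pool.Agent.Lib.MP_ccbbf6_gt.L5.PHT7

/-!
# Level 5, block PH, part 8: Euler numbers over cubes with mixed faces are integers

* `int_eul` : `P`, `o` over any space `X`, `c : X.Plot (2 (n + 1))` with faces `FXR P c i` (mixed faces, or all forms of degree
  `2 n + 1` vanish, or the entries of `P ∘ c` have small rank);
* `int_eulC` : the same for `P`, `o` over `Cs (2 (n + 1))` (helper77's `FC`).
-/

set_option autoImplicit false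
set_option maxSynthPendingDepth 3
set_option linter.unusedSectionVars false
set_option linter.unusedVariables false

open Matrix Function Filter Topology Set MeasureTheory
open scoped ContDiff Real

noncomputable section

namespace Pool.Agent.Lib.MP_ccbbf6_gt.L5.PH

open Geo L4 L4.FR OT

variable {ι : Type} [Fintype ι] [DecidableEq ι] {X Y : Space} {n k r m : ℕ}

/-! ### faces of small rank -/

theorem top_lamS {P : Matrix ι ι (SF X)} {o : (Fin (2 * (n + 1)) → ι) → SF X} {s : ι → SF X} {c : X.Plot k} {x v : V k}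
    {i : Fin k} (hx : 2 < nI (vs s (c.1 x))) (hv : v ≠ 0) (hi : v i = 0)
    (hP : ∀ l m, fderiv ℝ (fun z => (P l m).1 (c.1 z)) x v = 0) (hs : ∀ l, fderiv ℝ (fun z => (s l).1 (c.1 z)) x v = 0) :
    topE k (ee i * ev x (Om.on (lamS P o s) c)) = 0 := by
  have hx0 : vs s (c.1 x) ≠ 0 := fun h0 => by
    rw [h0] at hx
    unfold nI at hx
    rw [WithLp.toLp_zero, norm_zero] at hx
    linarith
  have hopen : IsOpen {z : V k | vs s (c.1 z) ≠ 0} := isOpen_ne.preimage (vs_smooth s c).continuous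
  obtain ⟨s0, hs1, hs2⟩ := exists_sq x (hopen.mem_nhds hx0)
  have hx1 : s0 x = x := hs1.self_of_nhds
  let Q : (sub X (US s)).Plot k := ⟨fun z => ⟨c.1 (s0 z), hs2 z⟩, X.pre c.2 s0⟩
  have hQ : ∀ᶠ z in 𝓝 x, (Q.1 z).1 = c.1 z := by
    filter_upwards [hs1] with z hz
    show c.1 (s0 z) = c.1 z
    rw [hz]
  have e3 : ev x (Om.on (lamS P o s) c) = ev x (Om.on (psS P o s) Q) := by
    unfold lamS
    rw [ev_ext0, vAt_eq (vU_inj _ _) _ Q hQ, on_mul, map_mul (ev x), on_pull]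
    have a1 : ev x (Om.on (chS s) ((inU _ _).pl Q)) = 1 := by
      unfold chS
      rw [ev_fO]
      show algebraMap ℝ _ (chi (nI (vs s (c.1 (s0 x))))) = 1
      rw [hx1, chi_one hx.le, map_one]
    rw [a1, one_mul]
  rw [e3]
  refine top_kill hv hi ?_
  have a2 := (FHom.on Q).psiG (P := P.map (pf (inU X (US s)))) (o := fun I => pf (inU X (US s)) (o I)) (y := PH.hs s)
  have a3 : Om.on (psS P o s) Q = psiG (FF k) ((P.map (pf (inU X (US s)))).map (FHom.on Q).g)
      (fun I => (FHom.on Q).g (pf (inU X (US s)) (o I))) (fun l => (FHom.on Q).g (PH.hs s l)) := a2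
  rw [a3]
  refine psiG_mem (fun a => fc_mem x v a) (fun l m => dd_mem ?_) fun l => dd_mem ?_
  · have e1 : (fun z : V k => (P l m).1 (c.1 (s0 z))) =ᶠ[𝓝 x] fun z => (P l m).1 (c.1 z) := by
      filter_upwards [hs1] with z hz
      rw [hz]
    show fderiv ℝ (fun z : V k => (P l m).1 (c.1 (s0 z))) x v = 0
    rw [e1.fderiv_eq]
    exact hP l m
  · have e1 : (fun z : V k => (nI (vs s (c.1 (s0 z))))⁻¹ * (s l).1 (c.1 (s0 z))) =ᶠ[𝓝 x]
        fun z => (fun u : ι → ℝ => (nI u)⁻¹ * u l) (vs s (c.1 z)) := by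
      filter_upwards [hs1] with z hz
      rw [hz]
      rfl
    show fderiv ℝ (fun z : V k => (nI (vs s (c.1 (s0 z))))⁻¹ * (s l).1 (c.1 (s0 z))) x v = 0
    rw [e1.fderiv_eq]
    have hF : DifferentiableAt ℝ (fun u : ι → ℝ => (nI u)⁻¹ * u l) (vs s (c.1 x)) := by
      have h1 : ContDiffAt ℝ 1 (fun u : ι → ℝ => nI u) (vs s (c.1 x)) := by
        have h2 : ContDiffAt ℝ 1 (fun v : EuclideanSpace ℝ ι => ‖v‖) (WithLp.toLp 2 (vs s (c.1 x))) :=
          contDiffAt_norm ℝ fun h0 => hx0 (congrArg WithLp.ofLp h0)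
        exact h2.comp _ (contDiff_lp.of_le (by simp)).contDiffAt
      exact ((h1.inv (nI_ne hx0)).mul ((contDiff_apply ℝ ℝ l).contDiffAt)).differentiableAt (by simp)
    have hg : DifferentiableAt ℝ (fun z : V k => vs s (c.1 z)) x :=
      ((vs_smooth s c).differentiable (by simp)).differentiableAt
    have h3 := fderiv_comp (𝕜 := ℝ) (g := fun u : ι → ℝ => (nI u)⁻¹ * u l) (f := fun z : V k => vs s (c.1 z)) x hF hg
    have h4 : fderiv ℝ (fun z : V k => vs s (c.1 z)) x v = 0 := by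
      funext j
      have h5 : HasFDerivAt (fun z : V k => vs s (c.1 z) j) ((ContinuousLinearMap.proj j).comp
          (fderiv ℝ (fun z : V k => vs s (c.1 z)) x)) x :=
        (ContinuousLinearMap.proj (R := ℝ) (φ := fun _ : ι => ℝ) j).hasFDerivAt.comp x hg.hasFDerivAt
      have h6 := hs j
      have h7 : fderiv ℝ (fun z => (s j).1 (c.1 z)) x = (ContinuousLinearMap.proj j).comp
          (fderiv ℝ (fun z : V k => vs s (c.1 z)) x) := h5.fderiv
      rw [h7] at h6
      exact h6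
    have h8 : fderiv ℝ (fun z => (fun u : ι → ℝ => (nI u)⁻¹ * u l) (vs s (c.1 z))) x v =
        fderiv ℝ (fun u : ι → ℝ => (nI u)⁻¹ * u l) (vs s (c.1 x)) (fderiv ℝ (fun z : V k => vs s (c.1 z)) x v) :=
      congrArg (fun L : V k →L[ℝ] ℝ => L v) h3
    rw [h8, h4, map_zero]

/-! ### the projection of a constant vector -/

/-- the projection of a constant vector -/
def sb (P : Matrix ι ι (SF X)) (b : ι → ℝ) : ι → SF X := fun i => ∑ j, b j • P i j

theorem sb_val (P : Matrix ι ι (SF X)) (b : ι → ℝ) (x : X.pt) (i : ι) : (sb P b i).1 x = ∑ j, b j * (P i j).1 x := by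
  unfold sb
  rw [sf_sum]
  rfl

theorem sb_sec {P : Matrix ι ι (SF X)} (hP : P * P = P) (b : ι → ℝ) : P.mulVec (sb P b) = sb P b := by
  funext i
  show ∑ l, P i l * ∑ j, b j • P l j = ∑ j, b j • P i j
  simp only [Finset.mul_sum, mul_smul_comm]
  rw [Finset.sum_comm]
  refine Finset.sum_congr rfl fun j _ => ?_
  rw [← Finset.smul_sum]
  congr 1
  conv_rhs => rw [← hP]
  rw [Matrix.mul_apply]

theorem sb_smul (P : Matrix ι ι (SF X)) (b : ι → ℝ) (t : ℝ) (x : X.pt) : vs (sb P (t • b)) x = t • vs (sb P b) x := by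
  funext i
  show (sb P (t • b) i).1 x = t * (sb P b i).1 x
  rw [sb_val, sb_val, Finset.mul_sum]
  exact Finset.sum_congr rfl fun j _ => by rw [Pi.smul_apply, smul_eq_mul, mul_assoc]

/-- boundary condition: mixed faces, or all forms of degree `r` vanish on the faces, or the entries of `P` have small rank -/
def FXR (P : Matrix ι ι (SF X)) (c : X.Plot (r + 1)) (i : Fin (r + 1)) : Prop :=
  FX c i ∨ ∀ x ∈ Icc (0 : V (r + 1)) 1, (x i = 0 ∨ x i = 1) → ∃ v : V (r + 1), v ≠ 0 ∧ v i = 0 ∧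
    ∀ l m, fderiv ℝ (fun z => (P l m).1 (c.1 z)) x v = 0

theorem fderiv_sb {P : Matrix ι ι (SF X)} {c : X.Plot k} {x v : V k}
    (hP : ∀ l m, fderiv ℝ (fun z => (P l m).1 (c.1 z)) x v = 0) (b : ι → ℝ) (l : ι) :
    fderiv ℝ (fun z => (sb P b l).1 (c.1 z)) x v = 0 := by
  have h1 : (fun z => (sb P b l).1 (c.1 z)) = fun z => ∑ j, b j * (P l j).1 (c.1 z) := by
    funext z
    exact sb_val P b _ l
  have h2 : HasFDerivAt (fun z => ∑ j, b j * (P l j).1 (c.1 z)) (∑ j, b j • fderiv ℝ (fun z => (P l j).1 (c.1 z)) x) x := by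
    refine HasFDerivAt.fun_sum fun j _ => ?_
    have h3 : DifferentiableAt ℝ (fun z => (P l j).1 (c.1 z)) x :=
      (((P l j).2 _ c).differentiable (by simp)).differentiableAt
    exact h3.hasFDerivAt.const_mul (b j)
  rw [h1, h2.fderiv]
  show (∑ j, b j • fderiv ℝ (fun z => (P l j).1 (c.1 z)) x) v = 0
  rw [_root_.sum_apply]
  exact Finset.sum_eq_zero fun j _ => by rw [_root_.smul_apply, hP, smul_zero]

/-- **the Euler number of an oriented bundle over a cube with mixed faces is an integer** -/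
theorem int_eul {P : Matrix ι ι (SF X)} {o : (Fin (2 * (n + 1)) → ι) → SF X} (h : Or (2 * (n + 1)) P o)
    (c : X.Plot (2 * (n + 1))) (hc : ∀ i, FXR (r := 2 * n + 1) P c i) :
    ∃ k : ℤ, cI (2 * (n + 1)) (Om.on (eulG (FO X) P o) c) = k := by
  have h' : Or (2 * n + 1 + 1) (P.map (SFon c)) (fun I => SFon c (o I)) :=
    h.map' (SFon c : SF X →+* Cs (2 * (n + 1)))
  obtain ⟨b, hb⟩ := exists_vec_bd (N := 2 * n + 1) le_rfl h'.sym h'.idem h'.tr
  have hb1 : ∀ x ∈ DB.bd (2 * (n + 1)), vs (sb P b) (c.1 x) ≠ 0 := fun x hx h0 => hb x hx (by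
    have h1 : ((P.map (SFon c)).map (evR x)).mulVec b = vs (sb P b) (c.1 x) := by
      funext i
      show ∑ j, (P i j).1 (c.1 x) * b j = (sb P b i).1 (c.1 x)
      rw [sb_val]
      exact Finset.sum_congr rfl fun j _ => mul_comm _ _
    rw [h1, h0])
  obtain ⟨δ, hδ, hδ2⟩ : ∃ δ : ℝ, 0 < δ ∧ ∀ x ∈ DB.bd (2 * (n + 1)), δ ≤ nI (vs (sb P b) (c.1 x)) := by
    rcases (DB.bd (2 * (n + 1))).eq_empty_or_nonempty with he | he
    · exact ⟨1, one_pos, fun x hx => by rw [he] at hx; exact absurd hx (Set.notMem_empty x)⟩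
    · obtain ⟨x0, hx0, hmin⟩ := DB.isCompact_bd.exists_isMinOn he
        (continuous_nI.comp (vs_smooth (sb P b) c).continuous).continuousOn
      exact ⟨nI (vs (sb P b) (c.1 x0)), lt_of_le_of_ne (nI_nonneg _) (Ne.symm (nI_ne (hb1 x0 hx0))), fun x hx => hmin hx⟩
  have hb2 : ∀ x ∈ DB.bd (2 * (n + 1)), 2 < nI (vs (sb P ((3 / δ) • b)) (c.1 x)) := fun x hx => by
    rw [sb_smul, nI_smul, abs_of_pos (by positivity)]
    have h1 := mul_le_mul_of_nonneg_left (hδ2 x hx) (show 0 ≤ 3 / δ by positivity)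
    have h2 : 3 / δ * δ = 3 := div_mul_cancel₀ _ hδ.ne'
    linarith
  refine int_sec h (sb_sec h.idem _) c hb2 ?_
  have h3 := PE.cI_dd' (k := 2 * n + 1) (Om.on (lamS P o (sb P ((3 / δ) • b))) c)
  refine Eq.trans h3 (Finset.sum_eq_zero fun i _ => ?_)
  rcases hc i with (h4 | h4) | h4
  · have h5 := PE.FE_on (k := 2 * n + 1) (lamS P o (sb P ((3 / δ) • b))) c h4
    rw [h5, sub_self, mul_zero]
  · have h0 : ∀ ε : ℝ, (ε = 0 ∨ ε = 1) → cI (2 * n + 1) (pb (PE.emb i ε) (Om.on (lamS P o (sb P ((3 / δ) • b))) c)) = 0 := by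
      intro ε hε
      refine (cI_congr (τ := 0) fun x hx => ?_).trans cI_zero
      have h6 := h4 ε hε _ (Deg_lamS (P := P) (o := o) (s := sb P ((3 / δ) • b))) (PE.emb i ε x) (insertNth_mem_cube hε hx)
        (PE.emb_same _ _ _)
      have h7 := PE.top_emb i ε x (Om.on (lamS P o (sb P ((3 / δ) • b))) c)
      rw [← PE.emb_apply, h6] at h7
      rw [map_zero (ev x), map_zero]
      rcases mul_eq_zero.1 h7.symm with h8 | h8
      · exact absurd h8 (pow_ne_zero _ (by norm_num))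
      · exact h8
    rw [h0 1 (Or.inr rfl), h0 0 (Or.inl rfl), sub_self, mul_zero]
  · have h0 : ∀ ε : ℝ, (ε = 0 ∨ ε = 1) → cI (2 * n + 1) (pb (PE.emb i ε) (Om.on (lamS P o (sb P ((3 / δ) • b))) c)) = 0 := by
      intro ε hε
      refine (cI_congr (τ := 0) fun x hx => ?_).trans cI_zero
      have hmem : PE.emb i ε x ∈ Icc (0 : V (2 * n + 1 + 1)) 1 := insertNth_mem_cube hε hx
      have hsame : PE.emb i ε x i = ε := PE.emb_same _ _ _
      obtain ⟨v, hv, hvi, hvP⟩ := h4 (PE.emb i ε x) hmem (by rw [hsame]; exact hε)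
      have h6 : topE (2 * n + 1 + 1) (ee i * ev (PE.emb i ε x) (Om.on (lamS P o (sb P ((3 / δ) • b))) c)) = 0 :=
        top_lamS (k := 2 * (n + 1)) (hb2 _ ⟨hmem, i, by rw [hsame]; exact hε⟩) hv hvi hvP (fderiv_sb hvP _)
      have h7 := PE.top_emb i ε x (Om.on (lamS P o (sb P ((3 / δ) • b))) c)
      rw [← PE.emb_apply, h6] at h7
      rw [map_zero (ev x), map_zero]
      rcases mul_eq_zero.1 h7.symm with h8 | h8
      · exact absurd h8 (pow_ne_zero _ (by norm_num))
      · exact h8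
    rw [h0 1 (Or.inr rfl), h0 0 (Or.inl rfl), sub_self, mul_zero]

end Pool.Agent.Lib.MP_ccbbf6_gt.L5.PH
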