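import Pool.Agent.Lib.MP_ccbbf6_gt.L5.EGS
import Pool.Agent.Lib.MP_ccbbf6_gt.L5.PIS

/-!
# Level 5, PIG: fibre integrals of the Euler forms of the tautological complement, all odd ranks (helper67)

`OT.fGS` : the form `fG` on the sphere bundle of a bundle of rank `2 n + 1`; `OT.PI_fGS` : `PI = -2`.
-/

set_option autoImplicit false
set_option maxSynthPendingDepth 3
set_option linter.unusedSectionVars false

open Set Filter Topology Matrix
open scoped ContDiff

noncomputable section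

namespace Pool.Agent.Lib.MP_ccbbf6_gt.L5

open L4 L4.FR

section deg

variable {X : Space} {ι : Type*} [Fintype ι] [DecidableEq ι]

private theorem PIG_prodE {α : Type*} [DecidableEq α] (s : Finset α) (x : α → (GO X).Ee) (h : ∀ a ∈ s, Deg 2 ((x a : (GO X).Ee) : Om X)) :
    Deg (2 * s.card) ((∏ a ∈ s, x a : (GO X).Ee) : Om X) := by
  induction s using Finset.induction_on with
  | empty =>
    rw [Finset.prod_empty, Finset.card_empty, mul_zero]
    exact fun k p => Dg_one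
  | insert a s ha ih =>
    rw [Finset.prod_insert ha, Finset.card_insert_of_notMem ha]
    have h1 : Deg (2 + 2 * s.card) (((x a : (GO X).Ee) : Om X) * ((∏ a ∈ s, x a : (GO X).Ee) : Om X)) :=
      Deg_mul (h a (Finset.mem_insert_self a s)) (ih fun b hb => h b (Finset.mem_insert_of_mem hb))
    have h2 : 2 * (s.card + 1) = 2 + 2 * s.card := by ring
    rw [h2]
    exact h1

theorem OT.DegE {m : ℕ} (P : Matrix ι ι (SF X)) (o : (Fin (2 * m) → ι) → SF X) : Deg (2 * m) (eulG (FO X) P o) := by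
  unfold eulG
  refine Deg_smul _ ?_
  rw [ZG_St]
  refine Deg_St _ fun I => ?_
  have h1 := PIG_prodE (X := X) (Finset.univ : Finset (Fin m)) (fun a => Re (FO X) P (I (s0 a)) (I (s1 a)))
    fun a _ => Deg_Rv P _ _
  rw [Finset.card_univ, Fintype.card_fin] at h1
  exact h1

theorem OT.DegF {n : ℕ} (P : Matrix ι ι (SF X)) (o : (Fin (2 * n + 1) → ι) → SF X) (y : ι → SF X) :
    Deg (2 * n) (fG (FO X) P o y) := by
  unfold fG
  exact Deg_smul _ (OT.DegE _ _)

end deg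

variable {k r D N n : ℕ} {B X : Space}

namespace OT

/-- the frame of a point of the frame bundle -/
def ptA (b : OBun r (EuclideanSpace ℝ (Fin D)) B) (P : b.F.Plot 0) : Fin r → Fin D → ℝ :=
  fun j l => (P.1 0).1.2 j l

theorem ptA_on (b : OBun r (EuclideanSpace ℝ (Fin D)) B) (P : b.F.Plot 0) (i j : Fin r) :
    ∑ x, ptA b P i x * ptA b P j x = if i = j then 1 else 0 := by
  have h1 := orthonormal_iff_ite.1 (P.1 0).2.1.2 i j
  rw [← h1]
  simp [ptA, PiLp.inner_apply, mul_comm]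

theorem ptP (b : OBun r (EuclideanSpace ℝ (Fin D)) B) (hb : TBun b) (hr : 0 < r)
    (P : b.F.Plot 0) : (pS b hb hr).map (FHom.pull (b.ptm.comp ((plM P).xP r))).g =
      PC (spV 0) (ptA b P) := by
  ext i j z
  show pW (b.W (P.1 z.1.1).1.1) i j = ∑ k, ptA b P k i * ptA b P k j
  have hz : z.1.1 = (0 : V 0) := Subsingleton.elim (α := V 0) _ _
  rw [hz]
  exact pW_eq hr (b.rank _) (P.1 0).2.1 i j

theorem ptO (b : OBun r (EuclideanSpace ℝ (Fin D)) B) (hb : TBun b) (hr : 0 < r)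
    (P : b.F.Plot 0) : (fun I => (FHom.pull (b.ptm.comp ((plM P).xP r))).g (oS b hb hr I)) =
      fun I => algebraMap ℝ (SF ((spV 0).xP r)) (1 * dtn (ptA b P) I) := by
  funext I
  refine Subtype.ext (funext fun z => ?_)
  show oP b (P.1 z.1.1).1.1 I = 1 * dtn (ptA b P) I
  have hz : z.1.1 = (0 : V 0) := Subsingleton.elim (α := V 0) _ _
  rw [hz, oP_eq b hr (P.1 0).2.1 (P.1 0).2.2, one_mul]
  rfl

theorem ptY (b : OBun r (EuclideanSpace ℝ (Fin D)) B) (hb : TBun b)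
    (P : b.F.Plot 0) : (fun l => (FHom.pull (b.ptm.comp ((plM P).xP r))).g (yS b hb l)) =
      YSF (spV 0) (ptA b P) := by
  funext l
  refine Subtype.ext (funext fun z => ?_)
  show (‖toE z.1.2‖⁻¹ • ∑ i, z.1.2 i • (P.1 z.1.1).1.2 i) l = (YSF (spV 0) (ptA b P) l).1 z
  have e4 : (YSF (spV 0) (ptA b P) l).1 z = ∑ j, ptA b P j l * hat z.1.2 j := by
    have e5 : vl z (YSF (spV 0) (ptA b P) l) = ∑ j, ptA b P j l * hat z.1.2 j := by
      unfold YSF
      rw [map_sum]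
      exact Finset.sum_congr rfl fun j _ => by rw [map_smul]; rfl
    exact e5
  have hz : z.1.1 = (0 : V 0) := Subsingleton.elim (α := V 0) _ _
  rw [e4, hz, WithLp.ofLp_smul, Pi.smul_apply, smul_eq_mul, WithLp.ofLp_sum, Finset.sum_apply,
    Finset.mul_sum]
  refine Finset.sum_congr rfl fun j _ => ?_
  rw [WithLp.ofLp_smul, Pi.smul_apply, smul_eq_mul]
  show ‖toE z.1.2‖⁻¹ * (z.1.2 j * (P.1 0).1.2 j l) = (P.1 0).1.2 j l * (‖toE z.1.2‖⁻¹ * z.1.2 j)
  ring

theorem Deg_alg (X : Space) (c : ℝ) : Deg 0 (algebraMap ℝ (Om X) c) := by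
  rw [Algebra.algebraMap_eq_smul_one]
  refine Deg_smul _ ?_
  intro k p
  have h1 : Om.on (1 : Om X) p = 1 := rfl
  rw [h1]
  exact Dg_one

/-- fibre integral of a form of degree `N` whose integral over every fibre is `c` -/
theorem PI_const (b : OBun (N + 1) (EuclideanSpace ℝ (Fin D)) B) (hN : 1 ≤ N) {θ : Om b.S} (hθ : Deg N θ) {c : ℝ}
    (h : ∀ P : b.F.Plot 0, SI (N + 1) (spV 0) ((b.ptm.comp ((plM P).xP (N + 1))).pull θ) = algebraMap ℝ (Om (spV 0)) c) :
    (b.sb hN).PI θ = algebraMap ℝ (Om B) c := by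
  have key : SI (N + 1) b.F (b.ptm.pull θ) = algebraMap ℝ (Om b.F) c := by
    refine eq_of_pt (X := b.F) (Deg_SI (N := N) (j := 0) (Deg_pull b.ptm (Eq.subst (motive := fun j => Deg j θ) (Nat.zero_add N).symm hθ)))
      (Deg_alg b.F _) fun P => ?_
    rw [AlgHom.commutes, ← SI_nat, ← pull_comp]
    exact h P
  refine (b.sb hN).lift.inj ?_
  rw [(b.sb hN).q_PI, AlgHom.commutes]
  exact key

/-- the form `f` of the sphere bundle of a bundle of rank `2 n + 1` -/
def fGS (b : OBun (2 * n + 1) (EuclideanSpace ℝ (Fin D)) B) (hb : TBun b) : Om b.S :=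
  fG (FO b.S) (pS b hb (Nat.succ_pos _)) (oS b hb (Nat.succ_pos _)) (yS b hb)

theorem Deg_fGS (b : OBun (2 * n + 1) (EuclideanSpace ℝ (Fin D)) B) (hb : TBun b) : Deg (2 * n) (fGS b hb) := DegF _ _ _

theorem d_fGS (b : OBun (2 * n + 1) (EuclideanSpace ℝ (Fin D)) B) (hb : TBun b) : dO _ (fGS b hb) = 0 :=
  d_fG (φ := FO b.S) (orS b hb (Nat.succ_pos _)) (secS b hb (Nat.succ_pos _))

theorem SI_fGS_pt (b : OBun (2 * n + 1) (EuclideanSpace ℝ (Fin D)) B) (hb : TBun b) (P : b.F.Plot 0) :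
    SI (2 * n + 1) (spV 0) ((b.ptm.comp ((plM P).xP (2 * n + 1))).pull (fGS b hb)) = algebraMap ℝ (Om (spV 0)) (-2) := by
  have h2 := FHom.fG (FHom.pull (b.ptm.comp ((plM P).xP (2 * n + 1)))) (P := pS b hb (Nat.succ_pos _))
    (y := yS b hb) (o := oS b hb (Nat.succ_pos _))
  have ho : Or (2 * n + 1) ((pS b hb (Nat.succ_pos _)).map (FHom.pull (b.ptm.comp ((plM P).xP (2 * n + 1)))).g)
      (fun I => (FHom.pull (b.ptm.comp ((plM P).xP (2 * n + 1)))).g (oS b hb (Nat.succ_pos _) I)) :=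
    (orS b hb (Nat.succ_pos _)).map'
      ((FHom.pull (b.ptm.comp ((plM P).xP (2 * n + 1)))).g : SF b.S →+* SF ((spV 0).xP (2 * n + 1)))
  have hy : Sec ((pS b hb (Nat.succ_pos _)).map (FHom.pull (b.ptm.comp ((plM P).xP (2 * n + 1)))).g)
      (fun l => (FHom.pull (b.ptm.comp ((plM P).xP (2 * n + 1)))).g (yS b hb l)) :=
    (secS b hb (Nat.succ_pos _)).map (FHom.pull (b.ptm.comp ((plM P).xP (2 * n + 1)))).g
  rw [ptP, ptO] at ho
  rw [ptP, ptY] at hy
  rw [ptP, ptO, ptY] at h2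
  have h3 : (b.ptm.comp ((plM P).xP (2 * n + 1))).pull (fGS b hb) = fG (FO ((spV 0).xP (2 * n + 1)))
      (PC (spV 0) (ptA b P)) (fun I => algebraMap ℝ _ (1 * dtn (ptA b P) I))
      (YSF (spV 0) (ptA b P)) := h2
  rw [h3, SI_fG_PC (ptA_on b P) ho hy, mul_one]

/-- **the fibre integral of `fG`** -/
theorem PI_fGS (b : OBun (2 * n + 1) (EuclideanSpace ℝ (Fin D)) B) (hb : TBun b) (hN : 1 ≤ 2 * n) :
    (b.sb hN).PI (fGS b hb) = algebraMap ℝ (Om B) (-2) :=
  PI_const b hN (Deg_fGS b hb) fun P => SI_fGS_pt b hb P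

end OT

end Pool.Agent.Lib.MP_ccbbf6_gt.L5
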