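import Pool.Agent.Lib.MP_ccbbf6_gt.L5.WK4

/-!
# Level 5, block WK, file 5 (helper79): rotation of `a`, `b`, rank of `W`
-/

set_option autoImplicit false
set_option maxSynthPendingDepth 3
set_option linter.unusedSectionVars false

open Set Filter Topology Matrix
open scoped ContDiff RealInnerProductSpace

noncomputable section

namespace Pool.Agent.Lib.MP_ccbbf6_gt.L5.WK

open L4 L4.FR

variable {D : ℕ} {X : Space} {c : Circ X}

/-- the rank of an idempotent is its trace -/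
theorem rank_eq_trace {K : Type*} [Field K] {ι : Type*} [Fintype ι] [DecidableEq ι] {M : Matrix ι ι K}
    (h : M * M = M) : (M.rank : K) = M.trace := by
  have h1 : IsIdempotentElem (Matrix.toLin' M) := by
    show (Matrix.toLin' M).comp (Matrix.toLin' M) = Matrix.toLin' M
    rw [← Matrix.toLin'_mul, h]
  have h2 := (LinearMap.IsIdempotentElem.isProj_range _ h1).trace
  rw [Matrix.trace_toLin'_eq] at h2
  rw [h2]
  rfl

/-- rank of the matrix of an operator -/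
theorem rank_mt (T : Op D) : (mt T).rank = Module.finrank ℝ (LinearMap.range (T : EuclideanSpace ℝ (Fin D) →ₗ[ℝ] EuclideanSpace ℝ (Fin D))) := by
  have h : Matrix.toEuclideanCLM (n := Fin D) (𝕜 := ℝ) (mt T) = T :=
    (Matrix.toEuclideanCLM (n := Fin D) (𝕜 := ℝ)).apply_symm_apply T
  rw [Matrix.rank_eq_finrank_range_toLin (mt T) (EuclideanSpace.basisFun (Fin D) ℝ).toBasis
    (EuclideanSpace.basisFun (Fin D) ℝ).toBasis, ← Matrix.toEuclideanLin_eq_toLin_orthonormal,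
    ← Matrix.coe_toEuclideanCLM_eq_toEuclideanLin, h]

namespace WD

variable (H : WD X c D)

theorem vlC_a_re (x : X.pt) (i j : Fin D) : (vlC x (H.a i j)).re = (1 / 2 : ℝ) * mt (H.S x) i j := rfl

theorem vlC_a_im (x : X.pt) (i j : Fin D) : (vlC x (H.a i j)).im = -((1 / 2 : ℝ) * mt (H.S x * H.J x) i j) := by
  have h : (H.SFm * H.JF).map (vl x) = mt (H.S x * H.J x) := by
    rw [Matrix.map_mul, mt_mul]
    rfl
  have h2 := congrFun (congrFun h i) j
  show -((1 / 2 : ℝ) * vl x ((H.SFm * H.JF) i j)) = _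
  rw [← h2]
  rfl

theorem vlC_b_re (x : X.pt) (i j : Fin D) : (vlC x (H.b i j)).re = (1 / 2 : ℝ) * mt (H.T x) i j := rfl

theorem vlC_b_im (x : X.pt) (i j : Fin D) : (vlC x (H.b i j)).im = -((1 / 2 : ℝ) * mt (H.T x * H.J' x) i j) := by
  have h : (H.TF * H.J'F).map (vl x) = mt (H.T x * H.J' x) := by
    rw [Matrix.map_mul, mt_mul]
    rfl
  have h2 := congrFun (congrFun h i) j
  show -((1 / 2 : ℝ) * vl x ((H.TF * H.J'F) i j)) = _
  rw [← h2]
  rfl

/-- `a (c_s x) = e^(2 π i s) a x` -/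
theorem a_rot (x : X.pt) (s : ℝ) (i j : Fin D) : vlC (c.a.1 (x, s)) (H.a i j) =
    (⟨Real.cos (2 * Real.pi * s), Real.sin (2 * Real.pi * s)⟩ : ℂ) * vlC x (H.a i j) := by
  have e1 : H.S (c.a.1 (x, s)) = Real.cos (2 * Real.pi * s) • H.S x + Real.sin (2 * Real.pi * s) • (H.S x * H.J x) := by
    rw [H.rotS, mul_add, mul_smul_comm, mul_smul_comm, H.S_P]
  have e2 : H.S (c.a.1 (x, s)) * H.J (c.a.1 (x, s)) =
      Real.cos (2 * Real.pi * s) • (H.S x * H.J x) - Real.sin (2 * Real.pi * s) • H.S x := by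
    rw [e1, H.invJ, add_mul, smul_mul_assoc, smul_mul_assoc, mul_assoc (H.S x) (H.J x), H.J_J, mul_neg, H.S_P, smul_neg,
      sub_eq_add_neg]
  refine Complex.ext ?_ ?_
  · rw [Complex.mul_re, H.vlC_a_re, H.vlC_a_re, H.vlC_a_im, e1, mt_add, mt_smul, mt_smul]
    show 1 / 2 * (Real.cos (2 * Real.pi * s) * mt (H.S x) i j + Real.sin (2 * Real.pi * s) * mt (H.S x * H.J x) i j) = _
    ring
  · rw [Complex.mul_im, H.vlC_a_im, H.vlC_a_re, H.vlC_a_im, e2, mt_sub, mt_smul, mt_smul]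
    show -(1 / 2 * (Real.cos (2 * Real.pi * s) * mt (H.S x * H.J x) i j - Real.sin (2 * Real.pi * s) * mt (H.S x) i j)) = _
    ring

/-- `b (c_s x) = e^(-2 π i s) b x` -/
theorem b_rot (x : X.pt) (s : ℝ) (i j : Fin D) : vlC (c.a.1 (x, s)) (H.b i j) =
    (⟨Real.cos (2 * Real.pi * s), -Real.sin (2 * Real.pi * s)⟩ : ℂ) * vlC x (H.b i j) := by
  have e1 : H.T (c.a.1 (x, s)) = Real.cos (2 * Real.pi * s) • H.T x - Real.sin (2 * Real.pi * s) • (H.T x * H.J' x) := by
    rw [H.rotT, sub_mul, smul_mul_assoc, smul_mul_assoc, H.P_T, H.T_J']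
  have e2 : H.T (c.a.1 (x, s)) * H.J' (c.a.1 (x, s)) =
      Real.cos (2 * Real.pi * s) • (H.T x * H.J' x) + Real.sin (2 * Real.pi * s) • H.T x := by
    rw [e1, H.invJ', sub_mul, smul_mul_assoc, smul_mul_assoc, mul_assoc (H.T x) (H.J' x), H.J'_J', mul_neg, H.T_Q,
      smul_neg, sub_neg_eq_add]
  refine Complex.ext ?_ ?_
  · rw [Complex.mul_re, H.vlC_b_re, H.vlC_b_re, H.vlC_b_im, e1, mt_sub, mt_smul, mt_smul]
    show 1 / 2 * (Real.cos (2 * Real.pi * s) * mt (H.T x) i j - Real.sin (2 * Real.pi * s) * mt (H.T x * H.J' x) i j) = _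
    ring
  · rw [Complex.mul_im, H.vlC_b_im, H.vlC_b_re, H.vlC_b_im, e2, mt_add, mt_smul, mt_smul]
    show -(1 / 2 * (Real.cos (2 * Real.pi * s) * mt (H.T x * H.J' x) i j + Real.sin (2 * Real.pi * s) * mt (H.T x) i j)) = _
    ring

/-! #### ranks -/

/-- the rank of the `+i` part -/
theorem rank_Wp {P J : Matrix (Fin D) (Fin D) (SF X)} (hPP : P * P = P) (hPJ : P * J = J) (hJP : J * P = J)
    (hJJ : J * J = -P) (x : X.pt) : 2 * ((Wp P J).map (vlC x)).rank = (P.map (vl x)).rank := by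
  have h1 : (Wp P J).map (vlC x) * (Wp P J).map (vlC x) = (Wp P J).map (vlC x) := by
    rw [← Matrix.map_mul, Wp_mul hPP hPJ hJP hJJ]
  have h2 : P.map (vl x) * P.map (vl x) = P.map (vl x) := by
    rw [← Matrix.map_mul, hPP]
  have h3 := congrArg Complex.re (rank_eq_trace h1)
  have h4 := rank_eq_trace h2
  have h5 : (((Wp P J).map (vlC x)).trace).re = (1 / 2 : ℝ) * (P.map (vl x)).trace := by
    rw [Matrix.trace, Matrix.trace, Complex.re_sum, Finset.mul_sum]
    rfl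
  rw [h5, ← h4, Complex.natCast_re] at h3
  have h6 : (2 * ((Wp P J).map (vlC x)).rank : ℝ) = ((P.map (vl x)).rank : ℝ) := by
    rw [h3]; ring
  exact_mod_cast h6

/-- twice the rank of `W` -/
theorem rank_W (x : X.pt) : 2 * ((H.W.map (CB.alg (SB c).val)).map (vlC x)).rank =
    Module.finrank ℝ (LinearMap.range (H.P x : EuclideanSpace ℝ (Fin D) →ₗ[ℝ] EuclideanSpace ℝ (Fin D))) := by
  rw [← rank_mt]
  exact rank_Wp H.PF_PF H.PF_JF H.JF_PF H.JF_JF x

/-- twice the rank of `W'` -/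
theorem rank_W' (x : X.pt) : 2 * ((H.W'.map (CB.alg (SB c).val)).map (vlC x)).rank =
    Module.finrank ℝ (LinearMap.range (H.Q x : EuclideanSpace ℝ (Fin D) →ₗ[ℝ] EuclideanSpace ℝ (Fin D))) := by
  rw [← rank_mt]
  exact rank_Wp H.QF_QF H.QF_J'F H.J'F_QF H.J'F_J'F x

end WD

end Pool.Agent.Lib.MP_ccbbf6_gt.L5.WK
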