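import Pool.Agent.Lib.MP_ccbbf6_gt.L5.RHO5
import Pool.Agent.Lib.MP_ccbbf6_gt.L5.WK5

namespace Pool.Agent.Lib.MP_ccbbf6_gt.Geo
end Pool.Agent.Lib.MP_ccbbf6_gt.Geo

namespace Pool.Agent.Lib.MP_ccbbf6_gt.L4.ORI
end Pool.Agent.Lib.MP_ccbbf6_gt.L4.ORI

/-!
# Level 6, RG1: `T_q = V_q + W + conj W`, `T_p = V_p + L W + conj (L W)` in the basic cohomology, all `κ` (helper67)
-/

set_option autoImplicit false
set_option maxSynthPendingDepth 3
set_option maxHeartbeats 400000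
set_option linter.unusedSectionVars false

open Set Filter Topology Matrix
open scoped ContDiff

noncomputable section

namespace Pool.Agent.Lib.MP_ccbbf6_gt.L5.RG

open Geo L4 L4.FR L4.ORI WK

/-! ### abstract -/

theorem cj_sum {R : Type*} [CommRing R] [Algebra ℝ R] (f : R →ₐ[ℝ] R) (e : R) (he : f e = e) (K K' : ℕ → R)
    (h : ∀ i, K' i = (-1) ^ i * f (K i)) (j : ℕ) :
    (-1) ^ j * ∑ a ∈ Finset.range (j + 1), f ((j.choose a : ℝ) • ((-e) ^ a * K (j - a))) =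
      ∑ a ∈ Finset.range (j + 1), (j.choose a : ℝ) • (e ^ a * K' (j - a)) := by
  rw [Finset.mul_sum]
  refine Finset.sum_congr rfl fun a ha => ?_
  have ha' := Finset.mem_range.1 ha
  rw [h, map_smul, map_mul, map_pow, map_neg, he, mul_smul_comm]
  congr 1
  have h2 : (-1 : R) ^ j = (-1) ^ (j - a) * (-1) ^ a := by
    rw [← pow_add]
    congr 1
    omega
  have h3 : (-e) ^ a = (-1) ^ a * e ^ a := neg_pow _ _
  have h4 : (-1 : R) ^ a * (-1) ^ a = 1 := by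
    rw [← mul_pow, neg_one_mul, neg_neg, one_pow]
  rw [h2, h3]
  linear_combination ((-1) ^ (j - a) * e ^ a * f (K (j - a))) * h4

section alg

variable {R R' : Type*} [CommRing R] [Algebra ℝ R] [CommRing R'] [Algebra ℝ R']

theorem al_TV {X X' V P K K' : R} (h1 : X = X') (h2 : X' = V + P) (h3 : P = K + K') : K + K' = X - V := by
  rw [h1, h2, h3]
  ring

theorem al_TV' {X X' V P K K' Q Q' : R} (h1 : X = X') (h2 : X' = V + P) (h3 : P = K + K') (hQ : K = Q) (hQ' : K' = Q') :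
    Q + Q' = X - V := by
  rw [h1, h2, h3, hQ, hQ']
  ring

theorem al_tw {X x : R} {K : ℕ → R} {j : ℕ} (h : X = ∑ k ∈ Finset.range (j + 1), (j.choose k : R) * (x ^ k * K (j - k))) :
    X = ∑ a ∈ Finset.range (j + 1), (j.choose a : ℝ) • (x ^ a * K (j - a)) := by
  rw [h]
  refine Finset.sum_congr rfl fun a _ => ?_
  rw [Nat.cast_smul_eq_nsmul, nsmul_eq_mul]

theorem al_cj (f : R →ₐ[ℝ] R) {X Y e : R} {j : ℕ} (h0 : Y = (-1) ^ j * f X) (he : f e = e) (K K' : ℕ → R)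
    (hX : X = ∑ a ∈ Finset.range (j + 1), (j.choose a : ℝ) • ((-e) ^ a * K (j - a)))
    (h : ∀ i, K' i = (-1) ^ i * f (K i)) : Y = ∑ a ∈ Finset.range (j + 1), (j.choose a : ℝ) • (e ^ a * K' (j - a)) := by
  rw [h0, hX, map_sum]
  exact cj_sum f e he K K' h j

end alg

section gen

variable {D : ℕ} {A B B' : Type*} [CommRing A] [Algebra ℝ A] [Ring B] [Algebra ℝ B] [Ring B'] [Algebra ℝ B'] {G : GDA B}
  {G' : GDA B'} {φ : Fun0 A G}

theorem hT_caddG (C : Cyl G G') {W W' : Matrix (Fin D) (Fin D) (CB A)} (hW : W * W = W) (hW' : W' * W' = W')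
    (h1 : W * W' = 0) (h2 : W' * W = 0) {P : Matrix (Fin D) (Fin D) A} (hP : P * P = P) (e : W + W' = P.map CB.ofR)
    (j : ℕ) : hT (φ.C.idem (cidem hP)) j = hT (φ.C.idem hW) j + hT (φ.C.idem hW') j := by
  have e1 : (P.map CB.ofR).map φ.C.f = W.map φ.C.f + W'.map φ.C.f := by rw [← e, φ.C.add]
  have z : (0 : Matrix (Fin D) (Fin D) (CB A)).map φ.C.f = 0 := Matrix.ext fun i j => map_zero φ.C.f
  have h3 : W.map φ.C.f * W'.map φ.C.f = 0 := by rw [← φ.C.mul, h1, z]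
  have h4 : W'.map φ.C.f * W.map φ.C.f = 0 := by rw [← φ.C.mul, h2, z]
  have hS : (GC G).Idem (W.map φ.C.f + W'.map φ.C.f) := by
    rw [← e1]
    exact φ.C.idem (cidem hP)
  rw [hT_congr e1 _ hS j]
  exact hT_add C (φ.C.idem hW) (φ.C.idem hW') hS h3 h4 j

end gen

section abs

variable {X : Space} {c : Circ X} {D : ℕ} (H : WD X c D)

/-- `K = conj W` -/
def Kc (j : ℕ) : (GC (GB c)).HE := hT ((FB c).C.idem (cj_idem H.W_W)) j

/-- `K' = W` -/
def Kw (j : ℕ) : (GC (GB c)).HE := hT ((FB c).C.idem H.W_W) j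

theorem hT_PM (j : ℕ) : hT ((FB c).C.idem (cidem H.PM_PM)) j = Kc H j + Kw H j :=
  (hT_caddG (CylB c) H.W_W (cj_idem H.W_W) H.W_conj H.conj_W H.PM_PM H.W_add j).trans (add_comm _ _)

theorem hT_QM (j : ℕ) : hT ((FB c).C.idem (cidem H.QM_QM)) j =
    hT ((FB c).C.idem (cj_idem H.W'_W')) j + hT ((FB c).C.idem H.W'_W') j :=
  (hT_caddG (CylB c) H.W'_W' (cj_idem H.W'_W') H.W'_conj H.conj_W' H.QM_QM H.W'_add j).trans (add_comm _ _)

variable {ι : Type*} [Fintype ι] [DecidableEq ι] {y y' : ι → SF X} (h : RotF c y y')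

include h

theorem hT_W' (j : ℕ) : hT ((FB c).C.idem H.W'_W') j =
    ∑ a ∈ Finset.range (j + 1), (j.choose a : ℝ) • ((-rc (GB c) h.ec) ^ a * Kw H (j - a)) :=
  al_tw (K := Kw H) (h.twist H.W_W H.W'_W' H.a_b H.b_a H.a_rot H.b_rot j)

theorem hT_cW' (j : ℕ) : hT ((FB c).C.idem (cj_idem H.W'_W')) j =
    ∑ a ∈ Finset.range (j + 1), (j.choose a : ℝ) • (rc (GB c) h.ec ^ a * Kc H (j - a)) :=
  al_cj (GHom.conj (GB c)).he (hT_cj H.W'_W' j) (conj_rc (G := GB c) h.ec) (Kw H) (Kc H) (hT_W' H h j)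
    fun i => hT_cj H.W_W i

omit h in
/-- the bundle at `q` -/
theorem hT_TV {T V : Matrix (Fin D) (Fin D) (SB c)} (hT' : T * T = T) (hV : V * V = V) (e : T = V + H.PM)
    (h1 : V * H.PM = 0) (h2 : H.PM * V = 0) (j : ℕ) : Kc H j + Kw H j =
      hT ((FB c).C.idem (cidem hT')) j - hT ((FB c).C.idem (cidem hV)) j := by
  have h0 : (V + H.PM) * (V + H.PM) = V + H.PM := by
    rw [← e]
    exact hT'
  have h3 : hT ((FB c).C.idem (cidem hT')) j = hT ((FB c).C.idem (cidem h0)) j := hT_congr (by rw [e]) _ _ j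
  exact al_TV h3 (hT_radd (CylB c) hV H.PM_PM h0 h1 h2 j) (hT_PM H j)

/-- the bundle at `p` -/
theorem hT_TV' {T V : Matrix (Fin D) (Fin D) (SB c)} (hT' : T * T = T) (hV : V * V = V) (e : T = V + H.QM)
    (h1 : V * H.QM = 0) (h2 : H.QM * V = 0) (j : ℕ) :
    ∑ a ∈ Finset.range (j + 1), (j.choose a : ℝ) • (rc (GB c) h.ec ^ a * Kc H (j - a)) +
      ∑ a ∈ Finset.range (j + 1), (j.choose a : ℝ) • ((-rc (GB c) h.ec) ^ a * Kw H (j - a)) =
      hT ((FB c).C.idem (cidem hT')) j - hT ((FB c).C.idem (cidem hV)) j := by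
  have h0 : (V + H.QM) * (V + H.QM) = V + H.QM := by
    rw [← e]
    exact hT'
  have h3 : hT ((FB c).C.idem (cidem hT')) j = hT ((FB c).C.idem (cidem h0)) j := hT_congr (by rw [e]) _ _ j
  exact al_TV' h3 (hT_radd (CylB c) hV H.QM_QM h0 h1 h2 j) (hT_QM H j) (hT_cW' H h j) (hT_W' H h j)

omit h in
/-- the rank -/
theorem elc_Kc {r : ℕ} (hr : ∀ x, Module.finrank ℝ (LinearMap.range (H.P x : EuclideanSpace ℝ (Fin D) →ₗ[ℝ]
    EuclideanSpace ℝ (Fin D))) ≤ 2 * r + 1) {j : ℕ} (hj : r < j) : elc (Kc H) j = 0 := by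
  refine elc_cj H.W_W (elc_rank H.W_W (r := r) (fun x => ?_) hj)
  have h1 := H.rank_W x
  have h2 := hr x
  omega

end abs

end Pool.Agent.Lib.MP_ccbbf6_gt.L5.RG
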