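import Pool.Agent.Lib.MP_ccbbf6_gt.L5.EL2
import Pool.Agent.Lib.MP_ccbbf6_gt.L5.RHO0
import Pool.Agent.Lib.MP_ccbbf6_gt.L5.TP01

/-!
# Level 5, block RHO 6: power sums of `TM` from the Pontryagin polynomial (helper5)

`hR_ss` : if `p_j(T) = coeff j S u^j` and `S (1 + 2 b X) = (1 + b X + X^2)^(m+1)` up to degree `m`, then
`hR T i = 2 ss m b i u^i` for `1 ≤ i ≤ m`.
-/

set_option autoImplicit false
set_option maxSynthPendingDepth 3
set_option linter.unusedSectionVars false

open Matrix Function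

noncomputable section

namespace Pool.Agent.Lib.MP_ccbbf6_gt.L5

section ser

open Finset

variable {A : Type*} [CommRing A] [Algebra ℝ A]

theorem sum_oddR (f : ℕ → A) (h : ∀ k, f (2 * k) = 0) (n : ℕ) :
    ∑ k ∈ range (2 * n), f k = ∑ l ∈ range n, f (2 * l + 1) := by
  induction n with
  | zero => rfl
  | succ n ih =>
    rw [Finset.sum_range_succ, ← ih, show 2 * (n + 1) = 2 * n + 1 + 1 by ring, Finset.sum_range_succ,
      Finset.sum_range_succ, h, add_zero]

/-- an even sequence of power sums -/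
theorem elc_evenR {p : ℕ → A} (hp : ∀ j, Odd j → p j = 0) (i : ℕ) :
    elc p (2 * i) = elc (fun k => (1 / 2 : ℝ) • ((-1) ^ k * p (2 * k))) i := by
  induction i using Nat.strong_induction_on with
  | _ i ih =>
    rcases i with _ | i
    · rw [mul_zero, elc_zero, elc_zero]
    · rw [show 2 * (i + 1) = (2 * i + 1) + 1 by ring, elc_succ, elc_succ]
      have e1 : 2 * i + 1 + 1 = 2 * (i + 1) := by ring
      rw [e1, sum_oddR _ (fun k => by rw [hp (2 * k + 1) ⟨k, rfl⟩, mul_zero, mul_zero])]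
      have e2 : ∀ l ∈ range (i + 1), (-1 : A) ^ (2 * l + 1) * (elc p (2 * i + 1 - (2 * l + 1)) * p (2 * l + 1 + 1)) =
          (2 : ℝ) • ((-1) ^ l * (elc (fun k => (1 / 2 : ℝ) • ((-1) ^ k * p (2 * k))) (i - l) *
            ((1 / 2 : ℝ) • ((-1) ^ (l + 1) * p (2 * (l + 1)))))) := by
        intro l hl
        have hl' := Finset.mem_range.1 hl
        have e3 : 2 * i + 1 - (2 * l + 1) = 2 * (i - l) := by omega
        have e4 : 2 * l + 1 + 1 = 2 * (l + 1) := by ring
        rw [e3, e4, ih (i - l) (by omega), mul_smul_comm, mul_smul_comm, smul_smul]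
        have e5 : (2 : ℝ) * (1 / 2) = 1 := by norm_num
        have e6 : (-1 : A) ^ (2 * l + 1) = -1 := by rw [pow_succ, pow_mul, neg_one_sq, one_pow, one_mul]
        have e7 : (-1 : A) ^ l * (-1) ^ (l + 1) = -1 := by
          rw [← pow_add, show l + (l + 1) = 2 * l + 1 by ring, e6]
        rw [e5, one_smul, e6]
        calc -1 * (elc (fun k => (1 / 2 : ℝ) • ((-1) ^ k * p (2 * k))) (i - l) * p (2 * (l + 1))) =
            (-1 : A) ^ l * (-1) ^ (l + 1) * (elc (fun k => (1 / 2 : ℝ) • ((-1) ^ k * p (2 * k))) (i - l) * p (2 * (l + 1))) := by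
              rw [e7]
          _ = _ := by ring
      rw [Finset.sum_congr rfl e2, ← Finset.smul_sum, smul_smul]
      congr 1
      push_cast
      have : (i : ℝ) + 1 ≠ 0 := by positivity
      field_simp
      ring

/-- Newton's identities, backwards -/
theorem elc_backR {p q : ℕ → A} {N : ℕ} (h : ∀ i ≤ N, elc p i = elc q i) : ∀ i, i + 1 ≤ N → p (i + 1) = q (i + 1) := by
  intro i
  induction i using Nat.strong_induction_on with
  | _ n ih =>
    intro hn
    have h1 := h (n + 1) hn
    rw [elc_succ, elc_succ] at h1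
    have h2 := congrArg (fun z => ((n : ℝ) + 1) • z) h1
    simp only [smul_smul] at h2
    rw [mul_inv_cancel₀ (by positivity), one_smul, one_smul, Finset.sum_range_succ, Finset.sum_range_succ, Nat.sub_self,
      elc_zero, elc_zero, one_mul, one_mul] at h2
    have h3 : ∑ x ∈ range n, (-1 : A) ^ x * (elc p (n - x) * p (x + 1)) =
        ∑ x ∈ range n, (-1) ^ x * (elc q (n - x) * q (x + 1)) := by
      refine Finset.sum_congr rfl fun x hx => ?_
      have hx' := Finset.mem_range.1 hx
      rw [h (n - x) (by omega), ih x hx' (by omega)]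
    rw [h3] at h2
    have h4 := add_left_cancel h2
    have h5 := congrArg (fun z => (-1 : A) ^ n * z) h4
    simp only [← mul_assoc] at h5
    have h6 : (-1 : A) ^ n * (-1) ^ n = 1 := by rw [← mul_pow, neg_one_mul, neg_neg, one_pow]
    rwa [h6, one_mul, one_mul] at h5

theorem EL_rr (b : ℝ) : EL (rr b) = Aser b := by
  refine ode_unique (q := PS (rr b)) (EL_ode _) ?_ ?_
  · unfold Aser
    ext n
    have e2 : PowerSeries.coeff n ((1 + PowerSeries.C b * PowerSeries.X + PowerSeries.X ^ 2) * PS (rr b)) =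
        PowerSeries.coeff n (PS (rr b)) + b * PowerSeries.coeff n (PowerSeries.X * PS (rr b)) +
        PowerSeries.coeff n (PowerSeries.X ^ 2 * PS (rr b)) := by
      rw [add_mul, add_mul, one_mul, map_add, map_add, mul_assoc, PowerSeries.coeff_C_mul]
    rw [e2, PowerSeries.coeff_derivative, map_add, map_add, PowerSeries.coeff_C_mul, PowerSeries.coeff_X_pow,
      PowerSeries.coeff_X_pow_mul', PowerSeries.coeff_X, PowerSeries.coeff_one]
    have e3 : ∀ k, PowerSeries.coeff k (PS (rr b)) = (-1) ^ k * rr b (k + 1) := fun k => by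
      unfold PS
      rw [PowerSeries.coeff_mk]
    rcases n with _ | _ | n
    · rw [PowerSeries.coeff_zero_X_mul, e3]
      simp [rr]
    · rw [PowerSeries.coeff_succ_X_mul, e3, e3]
      simp [rr]
      ring
    · rw [PowerSeries.coeff_succ_X_mul, if_neg (by omega), if_neg (by omega), if_neg (by omega), if_pos (by omega),
        show n + 1 + 1 - 2 = n from by omega, e3, e3, e3]
      have e1 : rr b (n + 1 + 1 + 1) = b * rr b (n + 1 + 1) - rr b (n + 1) := by rw [rr]
      rw [e1]
      ring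
  · rw [EL_zero]
    unfold Aser
    simp

theorem EL_nmul (p : ℕ → ℝ) (n : ℕ) : EL (fun k => (n : ℝ) * p k) = EL p ^ n := by
  induction n with
  | zero =>
    rw [pow_zero]
    refine ode_unique (q := 0) ?_ ?_ ?_
    · rw [EL_ode]
      congr 1
      ext n
      unfold PS
      rw [PowerSeries.coeff_mk]
      simp
    · rw [mul_zero]
      exact Derivation.map_one_eq_zero _
    · rw [EL_zero, map_one]
  | succ n ih =>
    rw [pow_succ, ← ih, ← EL_add]
    congr 1
    funext k
    push_cast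
    ring

theorem EL_pow (a : ℝ) : EL (fun k => a ^ k) = 1 + PowerSeries.C a * PowerSeries.X := by
  ext n
  rw [map_add, PowerSeries.coeff_C_mul, PowerSeries.coeff_X, PowerSeries.coeff_one]
  unfold EL
  rw [PowerSeries.coeff_mk]
  rcases n with _ | _ | n
  · rw [elc_zero]
    simp
  · rw [elc_one]
    simp
  · rw [elc_single]
    simp

/-- the generating function of `ss m b` -/
theorem EL_ss (m : ℕ) (b : ℝ) :
    EL (ss m b) * (1 + 2 * PowerSeries.C b * PowerSeries.X) = Aser b ^ (m + 1) := by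
  have e1 : (1 + 2 * PowerSeries.C b * PowerSeries.X : PowerSeries ℝ) = EL (fun k => (2 * b) ^ k) := by
    rw [EL_pow, map_mul, map_ofNat]
  rw [e1, ← EL_add, ← EL_rr, ← EL_nmul]
  congr 1
  funext k
  unfold ss
  push_cast
  ring

/-- cancelling a unit up to degree `m` -/
theorem coeff_cancelR {f g h : PowerSeries ℝ} (h0 : PowerSeries.constantCoeff h = 1) {m : ℕ}
    (e : ∀ j ≤ m, PowerSeries.coeff j (f * h) = PowerSeries.coeff j (g * h)) :
    ∀ j ≤ m, PowerSeries.coeff j f = PowerSeries.coeff j g := by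
  have h1 : h * h⁻¹ = 1 := PowerSeries.mul_inv_cancel h (by rw [h0]; exact one_ne_zero)
  intro j hj
  have h2 : ∀ k : PowerSeries ℝ, PowerSeries.coeff j k = PowerSeries.coeff j (k * h * h⁻¹) := fun k => by
    rw [mul_assoc, h1, mul_one]
  rw [h2 f, h2 g, PowerSeries.coeff_mul, PowerSeries.coeff_mul]
  refine Finset.sum_congr rfl fun x hx => ?_
  have := Finset.HasAntidiagonal.mem_antidiagonal.1 hx
  rw [e x.1 (by omega)]

theorem elc_ss {m : ℕ} {b : ℝ} {S : PowerSeries ℝ}
    (hS : ∀ j ≤ m, PowerSeries.coeff j (S * (1 + 2 * PowerSeries.C b * PowerSeries.X)) =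
      PowerSeries.coeff j (Aser b ^ (m + 1))) : ∀ j ≤ m, PowerSeries.coeff j S = elc (ss m b) j := by
  intro j hj
  have h1 := coeff_cancelR (f := S) (g := EL (ss m b)) (h := 1 + 2 * PowerSeries.C b * PowerSeries.X) (m := m)
    (by simp) (fun i hi => by rw [hS i hi, EL_ss]) j hj
  rw [h1]
  unfold EL
  rw [PowerSeries.coeff_mk]

end ser

variable {ι : Type*} [Fintype ι] [DecidableEq ι]

variable {A : Type*} [CommRing A] [Algebra ℝ A] {B : Type*} [Ring B] [Algebra ℝ B] {G : GDA B} {φ : Fun0 A G}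

/-- the Pontryagin classes in terms of the power sums -/
theorem hP_eq_hR {P : Matrix ι ι A} (h : P * P = P) (hs : Pᵀ = P) (i : ℕ) :
    hP φ h i = elc (fun k => (1 / 2 : ℝ) • hR φ h k) i := by
  unfold hP GDA.hc
  rw [elc_evenR (fun j hj => odd_zero h hs hj)]
  have h1 := elc_homog (algebraMap ℝ G.HE ((1 / (2 * Real.pi)) ^ 2))
    (fun k => (1 / 2 : ℝ) • ((-1) ^ k * GDA.hps (φ.idem h) (2 * k))) i
  rw [← map_pow, ← Algebra.smul_def, ← pow_mul] at h1
  rw [← h1]
  congr 1
  funext k
  unfold hR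
  rw [← map_pow, ← Algebra.smul_def, ← pow_mul, smul_smul, smul_smul]
  have e1 : (-1 : G.HE) ^ k = algebraMap ℝ G.HE ((-1) ^ k) := by rw [map_pow, map_neg, map_one]
  rw [e1, ← Algebra.smul_def, smul_smul]
  congr 1
  ring

/-- **the power sums of `TM`** -/
theorem hR_ss {P : Matrix ι ι A} (h : P * P = P) (hs : Pᵀ = P) {u : G.HE} {m : ℕ} {b : ℝ} {S : PowerSeries ℝ}
    (hc : ∀ j ≤ m, hP φ h j = PowerSeries.coeff j S • u ^ j)
    (hS : ∀ j ≤ m, PowerSeries.coeff j (S * (1 + 2 * PowerSeries.C b * PowerSeries.X)) =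
      PowerSeries.coeff j (Aser b ^ (m + 1))) {i : ℕ} (hi : i ≠ 0) (him : i ≤ m) :
    hR φ h i = (2 * ss m b i) • u ^ i := by
  obtain ⟨i, rfl⟩ := Nat.exists_eq_succ_of_ne_zero hi
  have h1 := elc_backR (p := fun k => (1 / 2 : ℝ) • hR φ h k) (q := fun k => u ^ k * algebraMap ℝ G.HE (ss m b k)) (N := m)
    (fun j hj => by
      rw [← hP_eq_hR h hs, hc j hj, elc_ss hS j hj, elc_homog]
      have h2 := map_elc (Algebra.ofId ℝ G.HE) (ss m b) j
      change (elc (ss m b) j) • u ^ j = u ^ j * elc (fun k => (Algebra.ofId ℝ G.HE) (ss m b k)) j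
      rw [← h2, Algebra.smul_def, mul_comm]
      rfl) i (by omega)
  have h3 : hR φ h (i + 1) = (2 : ℝ) • ((1 / 2 : ℝ) • hR φ h (i + 1)) := by
    rw [smul_smul]
    norm_num
  rw [Nat.succ_eq_add_one, h3, h1, mul_comm (u ^ (i + 1)), ← Algebra.smul_def, smul_smul]

end Pool.Agent.Lib.MP_ccbbf6_gt.L5
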