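import Pool.Agent.Lib.MP_ccbbf6_gt.L5.RG0
import Pool.Agent.Lib.MP_ccbbf6_gt.L5.RHO6

/-!
# Level 6, RG2: power sums from the Pontryagin series, all `k` (helper67)

`exists_sg` : numbers `σ` with `elc (spr c σ) = ` the coefficients of `P(X^c)`; `hR_spr` : `hR T i = 2 σ (i / c) u^(i / c)`.
-/

set_option autoImplicit false
set_option maxSynthPendingDepth 3
set_option linter.unusedSectionVars false

open Matrix Function

noncomputable section

namespace Pool.Agent.Lib.MP_ccbbf6_gt.L5.FR6

open Finset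

/-- the power sums (shifted) of given elementary symmetric functions -/
def psF (E : ℕ → ℝ) (n : ℕ) : ℝ :=
  (-1) ^ n * (((n : ℝ) + 1) * E (n + 1) - ∑ k : Fin n, (-1) ^ (k : ℕ) * (E (n - k) * psF E k))
termination_by n
decreasing_by exact k.2

/-- power sums with given elementary symmetric functions -/
theorem exists_ps (E : ℕ → ℝ) (h0 : E 0 = 1) : ∃ p : ℕ → ℝ, ∀ n, elc p n = E n := by
  obtain ⟨p, hp⟩ : ∃ p : ℕ → ℝ, ∀ n, p (n + 1) = (-1) ^ n * (((n : ℝ) + 1) * E (n + 1) -
      ∑ k ∈ range n, (-1) ^ k * (E (n - k) * p (k + 1))) := by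
    refine ⟨fun n => psF E (n - 1), fun n => ?_⟩
    show psF E (n + 1 - 1) = _
    rw [Nat.add_sub_cancel, psF, Finset.sum_range]
    rfl
  refine ⟨p, fun n => ?_⟩
  induction n using Nat.strong_induction_on with
  | _ n ih =>
    rcases n with _ | n
    · rw [elc_zero, h0]
    · rw [elc_succ, Finset.sum_range_succ, Nat.sub_self, elc_zero, one_mul, hp, smul_eq_mul]
      have h1 : ∑ x ∈ range n, (-1) ^ x * (elc p (n - x) * p (x + 1)) = ∑ x ∈ range n, (-1) ^ x * (E (n - x) * p (x + 1)) :=
        Finset.sum_congr rfl fun x hx => by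
          have hx' := Finset.mem_range.1 hx
          rw [ih (n - x) (by omega)]
      rw [h1, ← mul_assoc, ← mul_pow]
      have h2 : ((-1 : ℝ) * -1) ^ n = 1 := by norm_num
      rw [h2, one_mul, add_sub_cancel, ← mul_assoc, inv_mul_cancel₀ (by positivity), one_mul]

/-- power sums of `P(X^c)` -/
theorem exists_sg {P : PowerSeries ℝ} (hP : PowerSeries.constantCoeff P = 1) (c : ℕ) :
    ∃ σ : ℕ → ℝ, ∀ n, elc (spr c σ) n = spr c (fun j => PowerSeries.coeff j P) n := by
  obtain ⟨p, hp⟩ := exists_ps (spr c fun j => PowerSeries.coeff j P) (by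
    unfold spr
    rw [if_pos (dvd_zero c), Nat.zero_div]
    exact (PowerSeries.coeff_zero_eq_constantCoeff_apply P).trans hP)
  have h1 : ∀ n, ¬ c ∣ n + 1 → p (n + 1) = 0 := by
    intro n
    induction n using Nat.strong_induction_on with
    | _ n ih =>
      intro hn
      have h2 := hp (n + 1)
      rw [spr_not _ hn, elc_succ, Finset.sum_range_succ, Nat.sub_self, elc_zero, one_mul] at h2
      have h3 : ∑ x ∈ range n, (-1) ^ x * (elc p (n - x) * p (x + 1)) = 0 := by
        refine Finset.sum_eq_zero fun x hx => ?_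
        have hx' := Finset.mem_range.1 hx
        by_cases h4 : c ∣ x + 1
        · have h5 : ¬ c ∣ n - x := fun h6 => hn (by
            have h7 := dvd_add h6 h4
            have h8 : n - x + (x + 1) = n + 1 := by omega
            rwa [h8] at h7)
          rw [hp, spr_not _ h5, zero_mul, mul_zero]
        · rw [ih x hx' h4, mul_zero, mul_zero]
      rw [h3, zero_add] at h2
      have h4 := (smul_eq_zero.1 h2).resolve_left (by positivity)
      exact (mul_eq_zero.1 h4).resolve_left (pow_ne_zero _ (by norm_num))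
  refine ⟨fun j => p (c * j), fun n => ?_⟩
  rw [← hp n]
  refine elc_congr (fun k => ?_) n
  unfold spr
  split_ifs with h2
  · show p (c * ((k + 1) / c)) = _
    rw [Nat.mul_div_cancel' h2]
  · exact (h1 k h2).symm

variable {ι : Type*} [Fintype ι] [DecidableEq ι]

variable {A : Type*} [CommRing A] [Algebra ℝ A] {B : Type*} [Ring B] [Algebra ℝ B] {G : GDA B} {φ : Fun0 A G}

/-- **the power sums from the Pontryagin classes** -/
theorem hR_spr {P : Matrix ι ι A} (h : P * P = P) (hs : Pᵀ = P) {u : G.HE} {c m : ℕ} (hc : 0 < c) {E σ : ℕ → ℝ}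
    (hE : ∀ i ≤ c * m, hP φ h i = spr c E i • u ^ (i / c)) (hσ : ∀ n ≤ c * m, elc (spr c σ) n = spr c E n)
    {i : ℕ} (hi : i ≠ 0) (him : i ≤ c * m) : hR φ h i = (2 * spr c σ i) • u ^ (i / c) := by
  obtain ⟨i, rfl⟩ := Nat.exists_eq_succ_of_ne_zero hi
  have h1 := elc_backR (p := fun k => (1 / 2 : ℝ) • hR φ h k) (q := fun k => spr c σ k • u ^ (k / c)) (N := c * m)
    (fun j hj => by
      rw [← hP_eq_hR h hs, hE j hj, elc_gr hc σ u (N := c * m) (fun k => spr c σ k • u ^ (k / c)) (fun j _ _ => rfl) j hj,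
        hσ j hj]) i (by omega)
  have h3 : hR φ h (i + 1) = (2 : ℝ) • ((1 / 2 : ℝ) • hR φ h (i + 1)) := by
    rw [smul_smul]
    norm_num
  rw [Nat.succ_eq_add_one, h3, h1, smul_smul]

end Pool.Agent.Lib.MP_ccbbf6_gt.L5.FR6
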