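import Pool.Agent.Lib.MP_ccbbf6_gt.L5.RG0
import Pool.Agent.Lib.MP_ccbbf6_gt.L5.RHO6
import Pool.Agent.Lib.MP_ccbbf6_gt.L5.TP02

/-!
# Level 6, RG4: the algebra between the bundles and `IIg`, all `k = 2 h` (helper67)

`pn` : normalised power sums; `alg_main` : `l elc (GP B D l) n = 0`; `alg_B`, `alg_L` : the sequences `B`, `D` of the geometry.
-/

set_option autoImplicit false
set_option maxSynthPendingDepth 3
set_option maxHeartbeats 400000
set_option linter.unusedSectionVars false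

open Matrix Function

noncomputable section

namespace Pool.Agent.Lib.MP_ccbbf6_gt.L5.FR6

open Finset L4

/-! ### normalised power sums -/

section pn

variable {ι : Type*} [Fintype ι] [DecidableEq ι] {A : Type*} [CommRing A] [Algebra ℝ A] {B : Type*} [Ring B] [Algebra ℝ B]
  {G : GDA B} {φ : Fun0 A G}

/-- normalised power sums -/
def pn (φ : Fun0 A G) {P : Matrix ι ι A} (hP : P * P = P) (j : ℕ) : G.HE := ((2 * Real.pi) ^ j)⁻¹ • GDA.hps (φ.idem hP) j

theorem elc_pn {P : Matrix ι ι A} (hP : P * P = P) (j : ℕ) :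
    elc (pn φ hP) j = ((2 * Real.pi) ^ j)⁻¹ • elc (GDA.hps (φ.idem hP)) j := by
  have h1 := elc_homog (algebraMap ℝ G.HE (2 * Real.pi)⁻¹) (GDA.hps (φ.idem hP)) j
  rw [← map_pow, ← Algebra.smul_def, inv_pow] at h1
  rw [← h1]
  congr 1
  funext k
  unfold pn
  rw [← map_pow, ← Algebra.smul_def, inv_pow]

theorem sg_even (i : ℕ) : sg (2 * i) = (-1) ^ i := by
  unfold sg
  rw [if_pos (even_two_mul i)]
  congr 1
  omega

theorem sg_odd {j : ℕ} (hj : Odd j) : sg j = 0 := if_neg (Nat.not_even_iff_odd.2 hj)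

theorem hT_pn {P : Matrix ι ι A} (h : P * P = P) (hs : Pᵀ = P) (j : ℕ) :
    hT (φ.C.idem (cidem h)) j = rc G (sg j • pn φ h j) := by
  rcases Nat.even_or_odd j with hj | hj
  · obtain ⟨i, hi⟩ := hj
    obtain rfl : j = 2 * i := by omega
    rw [hT_even h, sg_even]
    congr 1
    unfold hR pn
    rw [smul_smul, _root_.one_div, inv_pow]
  · rw [hT_odd h hs hj, sg_odd hj, zero_smul, map_zero]

theorem hP_pn {P : Matrix ι ι A} (h : P * P = P) (i : ℕ) : hP φ h i = elc (pn φ h) (2 * i) := by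
  rw [elc_pn]
  unfold hP GDA.hc
  rw [_root_.one_div, inv_pow]

end pn

/-! ### algebra -/

variable {A : Type*} [CommRing A] [Algebra ℝ A] {A' : Type*} [CommRing A'] [Algebra ℝ A']

/-- power sums from the elementary symmetric functions -/
theorem back_spr {p : ℕ → A} {u : A} {h N : ℕ} (hh : 0 < h) {E s : ℕ → ℝ}
    (hE : ∀ i ≤ N, elc p i = spr h E i • u ^ (i / h)) (hs : ∀ n, elc (spr h s) n = spr h E n) {i : ℕ} (hi : i ≠ 0)
    (hN : i ≤ N) : p i = spr h s i • u ^ (i / h) := by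
  obtain ⟨i, rfl⟩ := Nat.exists_eq_succ_of_ne_zero hi
  exact elc_backR (p := p) (q := fun k => spr h s k • u ^ (k / h)) (N := N)
    (fun j hj => by
      rw [hE j hj, elc_gr hh s u (N := N) (fun k => spr h s k • u ^ (k / h)) (fun j _ _ => rfl) j hj, hs j]) i hN

theorem back_eq {p q : ℕ → A} (h : ∀ i, elc p i = elc q i) {i : ℕ} (hi : i ≠ 0) : p i = q i := by
  obtain ⟨i, rfl⟩ := Nat.exists_eq_succ_of_ne_zero hi
  exact elc_backR (N := i + 1) (fun j _ => h j) i le_rfl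

/-- **`l c_n(P) = 0`** from the complex classes -/
theorem alg_main (f : A →ₐ[ℝ] A') (hf : Injective f) {l : A} {B D : ℕ → A} {K K' : ℕ → A'} {N : ℕ}
    (hK : ∀ j ≤ N, K j + K' j = f (B j))
    (hL : ∀ j ≤ N, j ≠ 0 → ∑ a ∈ range (j + 1), (j.choose a : ℝ) • (f l ^ a * K (j - a)) +
      ∑ a ∈ range (j + 1), (j.choose a : ℝ) • ((-f l) ^ a * K' (j - a)) = f (B j + l * D j)) {n : ℕ} (hn : n + 1 ≤ N)
    (h0 : elc K n = 0) : l * elc (GP B D l) n = 0 := by
  have h1 : ∀ i, i ≠ 0 → i ≤ N - 1 → f l * K i = f l * GP (fun j => f (B j)) (fun j => f (D j)) (f l) i :=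
    fun i _ hi => GP_spec (N := N) hK (fun j hj hj0 => by rw [hL j hj hj0, map_add, map_mul]) i (by omega)
  have h2 := mul_elcG h1 n (by omega)
  rw [h0, mul_zero] at h2
  apply hf
  rw [map_mul, map_elc, map_zero, h2]
  congr 2
  funext k
  exact map_GP f B D l k

theorem coeff_Asr_eq (b : ℝ) (u v : A) (n : ℕ) : PowerSeries.coeff n (Asr b u v) =
    (if n = 0 then 1 else 0) + b • (u + v) * (if n = 1 then 1 else 0) + (u - v) ^ 2 * (if n = 2 then 1 else 0) := by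
  unfold Asr
  rw [(PowerSeries.coeff n).map_add, (PowerSeries.coeff n).map_add, PowerSeries.coeff_C_mul, PowerSeries.coeff_C_mul,
    PowerSeries.coeff_one, PowerSeries.coeff_X, PowerSeries.coeff_X_pow]

theorem coeff_Asr (f : A →ₐ[ℝ] A') (b : ℝ) (u v : A) (n : ℕ) :
    f (PowerSeries.coeff n (Asr b u v)) = PowerSeries.coeff n (Asr b (f u) (f v)) := by
  rw [coeff_Asr_eq, coeff_Asr_eq]
  simp only [map_add, map_mul, map_smul, map_pow, map_sub]
  split_ifs <;> simp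

theorem coeff_Asr_self (b : ℝ) (u : A) (n : ℕ) : PowerSeries.coeff n (Asr b u u) =
    PowerSeries.coeff n (1 + 2 * PowerSeries.C b * PowerSeries.X : PowerSeries ℝ) • u ^ n := by
  unfold Asr
  have e : (2 * PowerSeries.C b * PowerSeries.X : PowerSeries ℝ) = PowerSeries.C (2 * b) * PowerSeries.X := by
    rw [map_mul, map_ofNat]
  rw [e, sub_self, zero_pow two_ne_zero, map_zero, zero_mul, add_zero]
  simp only [map_add, PowerSeries.coeff_C_mul, PowerSeries.coeff_one, PowerSeries.coeff_X]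
  rcases n with _ | _ | n
  · simp
  · simp only [one_ne_zero, if_false, if_true, zero_add, mul_one, pow_one]
    module
  · simp

theorem Asr_symm (b : ℝ) (u v : A) : Asr b u v = Asr b v u := by
  unfold Asr
  rw [add_comm u v, ← neg_sub v u, neg_sq]

/-- the sequence `B` modulo `u1 - u2` -/
theorem alg_B {u1 u2 : A} {h m : ℕ} (hh : 0 < h) {b : ℝ} {P : PowerSeries ℝ} {sT sV : ℕ → ℝ}
    (hT : ∀ n, elc (spr h sT) n = spr h (fun j => PowerSeries.coeff j P) n)
    (hV : ∀ n, elc (spr h sV) n = spr h (fun j => PowerSeries.coeff j (1 + 2 * PowerSeries.C b * PowerSeries.X)) n)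
    {pT pV : ℕ → A} (eT : ∀ i ≤ h * m, elc pT i = spr h (fun j => PowerSeries.coeff j P) i • u2 ^ (i / h))
    (eV : ∀ i, elc pV i = if h ∣ i then PowerSeries.coeff (i / h) (Asr b u1 u2) else 0) {j : ℕ} (hj : 1 ≤ j)
    (hjm : j ≤ h * m) : ∃ R, sg j • (pT j - pV j) =
      spr h (fun c => sg (h * c) * (sT c - sV c)) j • u1 ^ (j / h) + (u1 - u2) * R := by
  obtain ⟨π, hπ⟩ : ∃ π : A →ₐ[ℝ] A ⧸ Ideal.span {u1 - u2}, π = Ideal.Quotient.mkₐ ℝ _ := ⟨_, rfl⟩
  have hπ0 : ∀ x, π x = 0 → ∃ R, x = (u1 - u2) * R := fun x hx => by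
    rw [hπ] at hx
    obtain ⟨R, hR⟩ := Ideal.mem_span_singleton'.1 (Ideal.Quotient.eq_zero_iff_mem.1 hx)
    exact ⟨R, by rw [mul_comm]; exact hR.symm⟩
  have e12 : π u2 = π u1 := by
    have h1 : π (u1 - u2) = 0 := by
      rw [hπ]
      exact Ideal.Quotient.eq_zero_iff_mem.2 (Ideal.mem_span_singleton_self _)
    rw [map_sub, sub_eq_zero] at h1
    exact h1.symm
  have h1 : π (pT j) = spr h sT j • π u1 ^ (j / h) := by
    refine back_spr (p := fun k => π (pT k)) hh (N := h * m) (fun i hi => ?_) hT (by omega) hjm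
    rw [← map_elc, eT i hi, map_smul, map_pow, e12]
  have h2 : π (pV j) = spr h sV j • π u1 ^ (j / h) := by
    refine back_spr (p := fun k => π (pV k)) hh (N := h * m) (fun i hi => ?_) hV (by omega) hjm
    rw [← map_elc, eV i]
    unfold spr
    split_ifs with hd
    · rw [coeff_Asr, e12, coeff_Asr_self]
    · rw [map_zero, zero_smul]
  obtain ⟨R, hR⟩ := hπ0 (sg j • (pT j - pV j) - spr h (fun c => sg (h * c) * (sT c - sV c)) j • u1 ^ (j / h)) (by
    rw [map_sub, map_smul, map_sub, h1, h2, map_smul, map_pow, ← sub_smul, smul_smul, ← sub_smul]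
    have h3 : sg j * (spr h sT j - spr h sV j) - spr h (fun c => sg (h * c) * (sT c - sV c)) j = 0 := by
      unfold spr
      split_ifs with hd
      · show _ - sg (h * (j / h)) * (sT (j / h) - sV (j / h)) = 0
        rw [Nat.mul_div_cancel' hd, sub_self]
      · ring
    rw [h3, zero_smul])
  exact ⟨R, by rw [← hR]; abel⟩

/-- the sequence `D` -/
def Dsq (h : ℕ) (sT : ℕ → ℝ) (s : ℝ) (e u1 u2 : A) (j : ℕ) : A :=
  if h ∣ j then (sg j * sT (j / h) / s) • (e * ∑ i ∈ range (j / h), u1 ^ i * u2 ^ (j / h - 1 - i)) else 0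

theorem Dsq_mul {h : ℕ} (hh : 0 < h) (sT : ℕ → ℝ) (s : ℝ) (e u1 u2 : A) (c : ℕ) : Dsq h sT s e u1 u2 (h * c) =
    (sg (h * c) * sT c / s) • (e * ∑ i ∈ range c, u1 ^ i * u2 ^ (c - 1 - i)) := by
  unfold Dsq
  rw [if_pos (Dvd.intro c rfl), Nat.mul_div_cancel_left c hh]

theorem Dsq_not {h : ℕ} (sT : ℕ → ℝ) (s : ℝ) (e u1 u2 : A) {j : ℕ} (hj : ¬ h ∣ j) : Dsq h sT s e u1 u2 j = 0 := if_neg hj

theorem Dsq_e (h : ℕ) (sT : ℕ → ℝ) (s : ℝ) (e u1 u2 : A) (j : ℕ) : ∃ R, Dsq h sT s e u1 u2 j = e * R := by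
  unfold Dsq
  split_ifs
  · exact ⟨_, (mul_smul_comm _ _ _).symm⟩
  · exact ⟨0, by rw [mul_zero]⟩

/-- the difference of the two ends -/
theorem alg_L {u1 u2 l e : A} {h m : ℕ} (hh : 0 < h) {P : PowerSeries ℝ} {sT : ℕ → ℝ} {s : ℝ} (hs : s ≠ 0)
    (R1 : l * e = s • (u1 - u2)) (hT : ∀ n, elc (spr h sT) n = spr h (fun j => PowerSeries.coeff j P) n)
    {pT1 pT2 : ℕ → A} (e1 : ∀ i ≤ h * m, elc pT1 i = spr h (fun j => PowerSeries.coeff j P) i • u1 ^ (i / h))
    (e2 : ∀ i ≤ h * m, elc pT2 i = spr h (fun j => PowerSeries.coeff j P) i • u2 ^ (i / h)) {j : ℕ} (hj : j ≠ 0)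
    (hjm : j ≤ h * m) : sg j • pT1 j = sg j • pT2 j + l * Dsq h sT s e u1 u2 j := by
  rw [back_spr hh e1 hT hj hjm, back_spr hh e2 hT hj hjm]
  unfold spr Dsq
  split_ifs with hd
  · have h3 := Commute.geom_sum₂_mul (Commute.all u1 u2) (j / h)
    have h4 : l * (sg j * sT (j / h) / s) • (e * ∑ i ∈ range (j / h), u1 ^ i * u2 ^ (j / h - 1 - i)) =
        (sg j * sT (j / h) / s) • ((l * e) * ∑ i ∈ range (j / h), u1 ^ i * u2 ^ (j / h - 1 - i)) := by
      rw [mul_smul_comm, mul_assoc]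
    rw [h4, R1, smul_mul_assoc, smul_smul, mul_comm (u1 - u2), h3]
    have h5 : sg j * sT (j / h) / s * s = sg j * sT (j / h) := div_mul_cancel₀ _ hs
    rw [smul_smul (sg j * sT (j / h) / s) s, h5]
    module
  · rw [zero_smul, zero_smul, mul_zero, add_zero]

end Pool.Agent.Lib.MP_ccbbf6_gt.L5.FR6
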