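import Pool.Agent.Lib.MP_ccbbf6_gt.L5.RG1
import Pool.Agent.Lib.MP_ccbbf6_gt.L5.RG4

/-!
# Level 6, RG5: from the bundles to `l c_n(P) = 0`, all `k = 2 h` (helper67)

`KG H h m b P u1 u2` : the bundles `T`, `V` at the two points as matrices of invariant functions, helper79's `W`, `W'`;
`KG.hF` : `l elc (GP B D l) n = 0` for `h (m - 1) < n < h m`; `KG.II` : (IIg).
-/

set_option autoImplicit false
set_option maxSynthPendingDepth 3
set_option maxHeartbeats 400000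
set_option linter.unusedSectionVars false
set_option genInjectivity false
set_option genSizeOf false
set_option genSizeOfSpec false

open Set Filter Topology Matrix
open scoped ContDiff

noncomputable section

namespace Pool.Agent.Lib.MP_ccbbf6_gt.L5.RG

open Geo L4 L4.FR L4.ORI WK FR6

/-! ### abstract lemmas -/

section alg

variable {A B : Type*} [CommRing A] [Algebra ℝ A] [CommRing B] [Algebra ℝ B] (f : A →ₐ[ℝ] B)

theorem al_sub {X Y : B} {s : ℝ} {x y : A} (hX : X = f (s • x)) (hY : Y = f (s • y)) : X - Y = f (s • (x - y)) := by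
  rw [hX, hY, ← map_sub, ← smul_sub]

theorem al_L {X Y : B} {s : ℝ} {x x' y y' z : A} (hX : X = f (s • x)) (hY : Y = f (s • y)) (h : s • x = s • x' + z)
    (h' : y = y') : X - Y = f (s • (x' - y') + z) := by
  rw [hX, hY, ← map_sub, h, h', smul_sub]
  congr 1
  abel

theorem al_zero {X Y : B} {x : A} {h m : ℕ} (h1 : f x = X - Y) (h2 : X = ((2 * h * m : ℕ) : B)) (h3 : Y = ((2 * h : ℕ) : B)) :
    f x = f (algebraMap ℝ A (2 * h * ((m : ℝ) - 1))) := by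
  rw [h1, h2, h3, AlgHom.commutes]
  have h5 : ∀ n : ℕ, ((n : ℕ) : B) = algebraMap ℝ _ (n : ℝ) := fun n => (map_natCast _ n).symm
  rw [h5, h5, ← map_sub]
  congr 1
  push_cast
  ring

theorem hT_nat {A B : Type*} [CommRing A] [Algebra ℝ A] [Ring B] [Algebra ℝ B] {G : GDA B} (φ : Fun0 A G) {N k : ℕ}
    {P : Matrix (Fin N) (Fin N) A} (hP : P * P = P) (h : trace P = (k : A)) :
    hT (φ.C.idem (cidem hP)) 0 = (k : (GC G).HE) := by
  refine hT_trace _ ?_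
  have h3 : trace ((P.map (CB.ofR : A →ₐ[ℝ] CB A)).map φ.C.f) = φ.C.f (CB.ofR (trace P)) := by
    unfold trace
    rw [map_sum, map_sum]
    rfl
  rw [h3, h, map_natCast, map_natCast]

end alg

/-- the bundles of the `ρ` side: the matrices -/
structure KA (S : Type*) [CommRing S] {N : ℕ} (QM PM : Matrix (Fin N) (Fin N) S) (h m : ℕ) where
  /-- the tangent space at `p` -/
  TP : Matrix (Fin N) (Fin N) S
  /-- `V` at `p` -/
  VP : Matrix (Fin N) (Fin N) S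
  /-- the tangent space at `q` -/
  TQ : Matrix (Fin N) (Fin N) S
  /-- `V` at `q` -/
  VQ : Matrix (Fin N) (Fin N) S
  iTP : TP * TP = TP
  sTP : TPᵀ = TP
  iVP : VP * VP = VP
  sVP : VPᵀ = VP
  iTQ : TQ * TQ = TQ
  sTQ : TQᵀ = TQ
  iVQ : VQ * VQ = VQ
  sVQ : VQᵀ = VQ
  dP : TP = VP + QM
  dP1 : VP * QM = 0
  dP2 : QM * VP = 0
  dQ : TQ = VQ + PM
  dQ1 : VQ * PM = 0
  dQ2 : PM * VQ = 0
  tT : trace TQ = ((2 * h * m : ℕ) : S)
  tV : trace VQ = ((2 * h : ℕ) : S)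

/-- the classes -/
structure KC (R : Type*) [CommRing R] [Algebra ℝ R] (h m : ℕ) (b : ℝ) (P : PowerSeries ℝ) (u1 u2 : R)
    (pT pT' pV pV' : ℕ → R) : Prop where
  cTP : ∀ i ≤ h * m, elc pT i = spr h (fun j => PowerSeries.coeff j P) i • u1 ^ (i / h)
  cTQ : ∀ i ≤ h * m, elc pT' i = spr h (fun j => PowerSeries.coeff j P) i • u2 ^ (i / h)
  cV : ∀ i, elc pV' i = if h ∣ i then PowerSeries.coeff (i / h) (Asr b u1 u2) else 0
  cV' : ∀ i, elc pV i = elc pV' i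

/-- the bundles of the `ρ` side -/
structure KG {X : Space} {c : Circ X} {N : ℕ} (H : WD X c N) (h m : ℕ) (b : ℝ) (P : PowerSeries ℝ)
    (u1 u2 : (GB c).HE) extends KA (SB c) H.QM H.PM h m where
  rkW : ∀ x, Module.finrank ℝ (LinearMap.range (H.P x : EuclideanSpace ℝ (Fin N) →ₗ[ℝ] EuclideanSpace ℝ (Fin N))) +
    2 * h = 2 * h * m
  cl : KC (GB c).HE h m b P u1 u2 (pn (FB c) iTP) (pn (FB c) iTQ) (pn (FB c) iVP) (pn (FB c) iVQ)

namespace KG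

variable {X : Space} {c : Circ X} {N : ℕ} {H : WD X c N} {h m : ℕ} {b : ℝ} {P : PowerSeries ℝ} {u1 u2 : (GB c).HE}
  (K : KG H h m b P u1 u2)

/-- the classes of `T - V` at `q` -/
def Bs (j : ℕ) : (GB c).HE := FR6.sg j • (pn (FB c) K.iTQ j - pn (FB c) K.iVQ j)

theorem hTQ (j : ℕ) : hT ((FB c).C.idem (cidem K.iTQ)) j = rc (GB c) (FR6.sg j • pn (FB c) K.iTQ j) := hT_pn K.iTQ K.sTQ j
theorem hTP (j : ℕ) : hT ((FB c).C.idem (cidem K.iTP)) j = rc (GB c) (FR6.sg j • pn (FB c) K.iTP j) := hT_pn K.iTP K.sTP j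
theorem hVQ (j : ℕ) : hT ((FB c).C.idem (cidem K.iVQ)) j = rc (GB c) (FR6.sg j • pn (FB c) K.iVQ j) := hT_pn K.iVQ K.sVQ j
theorem hVP (j : ℕ) : hT ((FB c).C.idem (cidem K.iVP)) j = rc (GB c) (FR6.sg j • pn (FB c) K.iVP j) := hT_pn K.iVP K.sVP j

theorem hK (j : ℕ) : Kc H j + Kw H j = rc (GB c) (K.Bs j) :=
  (hT_TV H K.iTQ K.iVQ K.dQ K.dQ1 K.dQ2 j).trans (al_sub (rc (GB c)) (K.hTQ j) (K.hVQ j))

theorem hL {ι : Type*} [Fintype ι] [DecidableEq ι] {y y' : ι → SF X} (fr : RotF c y y') (hh : 0 < h) {sT : ℕ → ℝ}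
    (hT : ∀ n, elc (spr h sT) n = spr h (fun j => PowerSeries.coeff j P) n) {s : ℝ} (hs : s ≠ 0) {e : (GB c).HE}
    (R1 : fr.ec * e = s • (u1 - u2)) {j : ℕ} (hj : j ≠ 0) (hjm : j ≤ h * m) :
    ∑ a ∈ Finset.range (j + 1), (j.choose a : ℝ) • (rc (GB c) fr.ec ^ a * Kc H (j - a)) +
      ∑ a ∈ Finset.range (j + 1), (j.choose a : ℝ) • ((-rc (GB c) fr.ec) ^ a * Kw H (j - a)) =
      rc (GB c) (K.Bs j + fr.ec * Dsq h sT s e u1 u2 j) :=
  (hT_TV' H fr K.iTP K.iVP K.dP K.dP1 K.dP2 j).trans (al_L (rc (GB c)) (K.hTP j) (K.hVP j)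
    (alg_L hh hs R1 hT K.cl.cTP K.cl.cTQ hj hjm) (back_eq K.cl.cV' hj))

/-- **`l c_n(P) = 0`** -/
theorem hF {ι : Type*} [Fintype ι] [DecidableEq ι] {y y' : ι → SF X} (fr : RotF c y y') (hh : 0 < h) {sT : ℕ → ℝ}
    (hT : ∀ n, elc (spr h sT) n = spr h (fun j => PowerSeries.coeff j P) n) {s : ℝ} (hs : s ≠ 0) {e : (GB c).HE}
    (R1 : fr.ec * e = s • (u1 - u2)) {n : ℕ} (hn : h * (m - 1) < n) (hn' : n + 1 ≤ h * m) :
    fr.ec * elc (GP K.Bs (Dsq h sT s e u1 u2) fr.ec) n = 0 := by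
  have hm : 1 ≤ m := by
    rcases Nat.eq_zero_or_pos m with h1 | h1
    · rw [h1, mul_zero] at hn'
      omega
    · exact h1
  refine alg_main (rc (GB c)) rc_inj (K := Kc H) (K' := Kw H) (fun j _ => K.hK j)
    (fun j hj hj0 => K.hL fr hh hT hs R1 hj0 hj) hn' ?_
  refine elc_Kc H (r := h * (m - 1)) (fun x => ?_) hn
  have h1 := K.rkW x
  have h2 : 2 * h * m = 2 * (h * (m - 1)) + 2 * h := by
    obtain ⟨m', rfl⟩ : ∃ m', m = m' + 1 := ⟨m - 1, by omega⟩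
    rw [Nat.add_sub_cancel]
    ring
  omega

/-- the classes `B` modulo `u1 - u2` -/
theorem hB (hh : 0 < h) {sT sV : ℕ → ℝ} (hT : ∀ n, elc (spr h sT) n = spr h (fun j => PowerSeries.coeff j P) n)
    (hV : ∀ n, elc (spr h sV) n = spr h (fun j => PowerSeries.coeff j (1 + 2 * PowerSeries.C b * PowerSeries.X)) n)
    {j : ℕ} (hj : 1 ≤ j) (hjm : j ≤ h * m) :
    ∃ R, K.Bs j = spr h (fun c => FR6.sg (h * c) * (sT c - sV c)) j • u1 ^ (j / h) + (u1 - u2) * R :=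
  alg_B hh hT hV K.cl.cTQ K.cl.cV hj hjm

theorem Bs_zero : K.Bs 0 = algebraMap ℝ _ (2 * h * ((m : ℝ) - 1)) :=
  rc_inj (al_zero (rc (GB c)) ((K.hK 0).symm.trans (hT_TV H K.iTQ K.iVQ K.dQ K.dQ1 K.dQ2 0)) (hT_nat (FB c) K.iTQ K.tT)
    (hT_nat (FB c) K.iVQ K.tV))

include K in
/-- **(IIg)** -/
theorem II {ι : Type*} [Fintype ι] [DecidableEq ι] {y y' : ι → SF X} (fr : RotF c y y') (hh : 3 ≤ h) (hm1 : 1 ≤ m)
    {sT sV : ℕ → ℝ} (hT : ∀ n, elc (spr h sT) n = spr h (fun j => PowerSeries.coeff j P) n)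
    (hV : ∀ n, elc (spr h sV) n = spr h (fun j => PowerSeries.coeff j (1 + 2 * PowerSeries.C b * PowerSeries.X)) n)
    {s t ρ : ℝ} (hs : s ≠ 0) (ht : t ≠ 0) {e : (GB c).HE} (h0 : hm m u1 u2 = 0) (p1 : u1 ^ (m + 1) = 0)
    (R1 : fr.ec * e = s • (u1 - u2)) (R2 : e ^ 2 = t • fr.ec ^ (2 * h - 2) + ρ • ((u1 + u2) * fr.ec ^ (h - 2)))
    (X2 : e ^ 2 * (u1 ^ m * u2 ^ (m - 1)) ≠ 0) :
    ∑ c ∈ Finset.range m, (-1) ^ (h * (c + 1)) * (fun c => FR6.sg (h * c) * sT c) (c + 1) / (h * (c + 1) - 1) *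
      elc (spr h fun c => (fun c => FR6.sg (h * c) * (sT c - sV c)) c / 2) (h * (m - 1 - c)) = 0 := by
  have hh0 : 0 < h := by omega
  refine IIg (l := fr.ec) (e := e) (u1 := u1) (u2 := u2) hm1 hh hs ht h0 p1 R1 R2 X2 (B := K.Bs)
    (D := Dsq h sT s e u1 u2) (fun j hj hj' => K.hB hh0 hT hV hj hj') (fun c _ _ => Dsq_mul hh0 sT s e u1 u2 c)
    (fun j hj => Dsq_not sT s e u1 u2 hj) (K.hF fr hh0 hT hs R1 ?_ ?_)
  · obtain ⟨m', rfl⟩ : ∃ m', m = m' + 1 := ⟨m - 1, by omega⟩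
    rw [Nat.add_sub_cancel, mul_add, mul_one]
    omega
  · have : 1 ≤ h * m := Nat.mul_pos hh0 hm1
    omega

end KG

end Pool.Agent.Lib.MP_ccbbf6_gt.L5.RG
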