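import Pool.Agent.Lib.MP_ccbbf6_gt.L5.INTr
import Pool.Agent.Lib.MP_ccbbf6_gt.L5.PIS
import Pool.Agent.Lib.MP_ccbbf6_gt.L5.TE1

/-!
# Level 5, TE2: projection matrices of smooth families of subspaces of `ℝ^D` (helper93)

`SV r v W` : the family `W` of subspaces has rank `r` and local smooth orthonormal frames; `mW` its projection matrix over `SF B`.
-/

set_option autoImplicit false
set_option maxSynthPendingDepth 3
set_option linter.unusedSectionVars false

open Set Filter Topology Matrix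
open scoped ContDiff

noncomputable section

namespace Pool.Agent.Lib.MP_ccbbf6_gt.L5

open L4 L4.FR

variable {k r r' D : ℕ} {E E' : Type} [NormedAddCommGroup E] [InnerProductSpace ℝ E] [NormedAddCommGroup E']
  [InnerProductSpace ℝ E'] {B B' : Space}

/-- a smooth family of subspaces of rank `r` -/
structure SV (r : ℕ) (v : VFld E B) (W : B.pt → Submodule ℝ E) : Prop where
  rank : ∀ x, Module.finrank ℝ (W x) = r
  loc : ∀ {k : ℕ} (p : B.Plot k) (z : V k), ∃ a : V k → Fin r → E, ∀ᶠ y in 𝓝 z,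
    OFr (W (p.1 y)) (a y) ∧ ∀ i, v.sAt p (fun v => a v i) y

theorem OBun.sv (b : OBun r E B) : SV r b.toVFld b.W where
  rank := b.rank
  loc p z := by
    obtain ⟨a, ha⟩ := b.loc p z
    exact ⟨a, ha.mono fun y hy => ⟨hy.1, hy.2.2⟩⟩

theorem UBun.sv (b : UBun r E B) : SV r b.toVFld b.W := ⟨b.rank, b.loc⟩

theorem SV.pull {v : VFld E B} {W : B.pt → Submodule ℝ E} (h : SV r v W) (f : SMap B' B) :
    SV r (v.pull f) (fun x => W (f.1 x)) :=
  ⟨fun _ => h.rank _, fun p z => h.loc (f.pl p) z⟩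

theorem SV.congr {v : VFld E B} {W W' : B.pt → Submodule ℝ E} (h : SV r v W) (e : ∀ x, W' x = W x) : SV r v W' := by
  have h1 : W' = W := funext e
  rw [h1]
  exact h

theorem SV.emb {v : VFld E B} {W : B.pt → Submodule ℝ E} (h : SV r v W) {io : B.pt → E →ₗᵢ[ℝ] E'} (hi : IsoE v io) :
    SV r (triv E' B) (fun x => (W x).map (io x).toLinearMap) where
  rank x := (Submodule.equivMapOfInjective (io x).toLinearMap (io x).injective (W x)).finrank_eq.symm.trans (h.rank x)
  loc p z := by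
    obtain ⟨a, ha⟩ := h.loc p z
    refine ⟨fun v i => io (p.1 v) (a v i), ha.mono fun y hy => ⟨⟨fun i => ?_, ?_⟩, fun i => ?_⟩⟩
    · exact Submodule.mem_map_of_mem (hy.1.1 i)
    · exact hy.1.2.comp_linearIsometry (io (p.1 y))
    · exact (hi.sm p _ y).1 (hy.2 i)

namespace OT

/-! ### projection matrices at a point -/

theorem pW_mulVec (W : Submodule ℝ (EuclideanSpace ℝ (Fin D))) (y : EuclideanSpace ℝ (Fin D)) :
    (pW W).mulVec (fun i => y i) = fun i => W.starProjection y i := by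
  funext i
  have h2 : y = ∑ j, y j • EuclideanSpace.single j (1 : ℝ) := by
    ext k
    simp [Finset.sum_apply, Pi.single_apply]
  have h3 : W.starProjection y = ∑ j, y j • W.starProjection (EuclideanSpace.single j (1 : ℝ)) := by
    conv_lhs => rw [h2]
    rw [map_sum]
    exact Finset.sum_congr rfl fun j _ => map_smul _ _ _
  have h4 := congrArg (fun w : EuclideanSpace ℝ (Fin D) => w i) h3
  rw [Matrix.mulVec, dotProduct]
  refine Eq.trans ?_ h4.symm
  simp [pW, Finset.sum_apply, mul_comm]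

theorem pW_fix {W : Submodule ℝ (EuclideanSpace ℝ (Fin D))} {y : Fin D → ℝ} (h : (pW W).mulVec y = y) :
    WithLp.toLp 2 y ∈ W := by
  have h1 := pW_mulVec W (WithLp.toLp 2 y)
  have h2 : W.starProjection (WithLp.toLp 2 y) = WithLp.toLp 2 y := by
    ext i
    have h3 := congrFun h1 i
    exact h3.symm.trans (congrFun h i)
  exact Submodule.starProjection_eq_self_iff.1 h2

theorem pW_symm (W : Submodule ℝ (EuclideanSpace ℝ (Fin D))) : (pW W)ᵀ = pW W := by
  ext l m
  rw [Matrix.transpose_apply]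
  unfold pW
  rw [Matrix.of_apply, Matrix.of_apply]
  have h1 := Submodule.inner_starProjection_left_eq_right W (EuclideanSpace.single l (1 : ℝ)) (EuclideanSpace.single m 1)
  rw [EuclideanSpace.inner_single_right, EuclideanSpace.inner_single_left] at h1
  simpa using h1

theorem pW_mul_of_le {W W' : Submodule ℝ (EuclideanSpace ℝ (Fin D))} (h : W ≤ W') : pW W' * pW W = pW W := by
  ext l m
  have h1 := congrFun (pW_mulVec W' (W.starProjection (EuclideanSpace.single m 1))) l
  have h2 : W'.starProjection (W.starProjection (EuclideanSpace.single m (1 : ℝ))) =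
      W.starProjection (EuclideanSpace.single m 1) :=
    Submodule.starProjection_eq_self_iff.2 (h (Submodule.starProjection_apply_mem W _))
  rw [h2] at h1
  exact h1

theorem pW_mul_of_le' {W W' : Submodule ℝ (EuclideanSpace ℝ (Fin D))} (h : W ≤ W') : pW W * pW W' = pW W := by
  have h1 := congrArg Matrix.transpose (pW_mul_of_le h)
  rwa [Matrix.transpose_mul, pW_symm, pW_symm] at h1

theorem pW_idem (W : Submodule ℝ (EuclideanSpace ℝ (Fin D))) : pW W * pW W = pW W := pW_mul_of_le le_rfl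

theorem pW_top : pW (⊤ : Submodule ℝ (EuclideanSpace ℝ (Fin D))) = 1 := by
  ext l m
  unfold pW
  rw [Matrix.of_apply, Submodule.starProjection_eq_self_iff.2 Submodule.mem_top, Matrix.one_apply]
  simp

theorem pW_tr {W : Submodule ℝ (EuclideanSpace ℝ (Fin D))} (hr : 0 < r) (hW : Module.finrank ℝ W = r)
    {a : Fin r → EuclideanSpace ℝ (Fin D)} (ha : OFr W a) : trace (pW W) = r := by
  unfold trace
  simp only [Matrix.diag_apply, pW_eq hr hW ha]
  rw [Finset.sum_comm]
  have h1 : ∀ j, ∑ l, a j l * a j l = (1 : ℝ) := by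
    intro j
    have h2 := orthonormal_iff_ite.1 ha.2 j j
    rw [if_pos rfl, PiLp.inner_apply] at h2
    rw [← h2]
    rfl
  simp only [h1]
  simp

/-! ### matrices of frames -/

/-- the matrix which maps the frame `a` to the frame `b` -/
def fM (a b : Fin r → EuclideanSpace ℝ (Fin D)) : Matrix (Fin D) (Fin D) ℝ := Matrix.of fun l m => ∑ j, b j l * a j m

theorem fM_tr (a b : Fin r → EuclideanSpace ℝ (Fin D)) : (fM a b)ᵀ = fM b a := by
  ext l m
  rw [Matrix.transpose_apply]
  unfold fM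
  rw [Matrix.of_apply, Matrix.of_apply]
  exact Finset.sum_congr rfl fun j _ => mul_comm _ _

theorem fM_mul {a b c : Fin r → EuclideanSpace ℝ (Fin D)} (hb : Orthonormal ℝ b) : fM b c * fM a b = fM a c := by
  ext l m
  rw [Matrix.mul_apply]
  unfold fM
  simp only [Matrix.of_apply]
  have h1 : ∀ i j, ∑ x, b i x * b j x = if i = j then (1 : ℝ) else 0 := by
    intro i j
    have h2 := orthonormal_iff_ite.1 hb i j
    rw [← h2]
    simp [PiLp.inner_apply, mul_comm]
  calc ∑ x, (∑ j, c j l * b j x) * ∑ j, b j x * a j m = ∑ i, ∑ j, (c j l * a i m) * ∑ x, b j x * b i x := by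
        simp only [Finset.sum_mul, Finset.mul_sum]
        rw [Finset.sum_comm]
        refine Finset.sum_congr rfl fun i _ => ?_
        rw [Finset.sum_comm]
        refine Finset.sum_congr rfl fun j _ => Finset.sum_congr rfl fun x _ => ?_
        ring
    _ = ∑ j, c j l * a j m := by
        simp only [h1, mul_ite, mul_one, mul_zero, Finset.sum_ite_eq', Finset.mem_univ, if_true]

theorem fM_self {W : Submodule ℝ (EuclideanSpace ℝ (Fin D))} (hr : 0 < r) (hW : Module.finrank ℝ W = r)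
    {a : Fin r → EuclideanSpace ℝ (Fin D)} (ha : OFr W a) : fM a a = pW W := by
  ext l m
  rw [pW_eq hr hW ha]
  rfl

/-- the matrix does not change if both frames are changed by the same matrix -/
theorem fM_change {W : Submodule ℝ (EuclideanSpace ℝ (Fin D))} (hr : 0 < r) (hW : Module.finrank ℝ W = r)
    {a a' b b' : Fin r → EuclideanSpace ℝ (Fin D)} (ha : OFr W a) (ha' : OFr W a')
    (hb : ∀ i, b' i = ∑ j, (inner ℝ (a j) (a' i) : ℝ) • b j) : fM a' b' = fM a b := by
  ext l m
  unfold fM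
  simp only [Matrix.of_apply]
  have h1 : ∀ j, a j = ∑ i, (inner ℝ (a' i) (a j) : ℝ) • a' i := fun j => (frame_expand hr hW ha' (ha.1 j)).symm
  have h2 : ∀ j m, a j m = ∑ i, (inner ℝ (a' i) (a j) : ℝ) * a' i m := by
    intro j m
    have h3 := congrArg (fun v : EuclideanSpace ℝ (Fin D) => v m) (h1 j)
    simpa [Finset.sum_apply] using h3
  have h4 : ∀ i l, b' i l = ∑ j, (inner ℝ (a j) (a' i) : ℝ) * b j l := by
    intro i l
    have h3 := congrArg (fun v : EuclideanSpace ℝ (Fin D) => v l) (hb i)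
    simpa [Finset.sum_apply] using h3
  calc ∑ i, b' i l * a' i m = ∑ i, ∑ j, (inner ℝ (a j) (a' i) : ℝ) * b j l * a' i m := by
        refine Finset.sum_congr rfl fun i _ => ?_
        rw [h4, Finset.sum_mul]
    _ = ∑ j, ∑ i, (inner ℝ (a j) (a' i) : ℝ) * b j l * a' i m := Finset.sum_comm
    _ = ∑ j, b j l * a j m := by
        refine Finset.sum_congr rfl fun j _ => ?_
        rw [h2 j m, Finset.mul_sum]
        refine Finset.sum_congr rfl fun i _ => ?_
        rw [real_inner_comm (a j) (a' i)]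
        ring

theorem contDiffAt_fM {a b : V k → Fin r → EuclideanSpace ℝ (Fin D)} {z : V k}
    (ha : ∀ i, ContDiffAt ℝ ∞ (fun v => a v i) z) (hb : ∀ i, ContDiffAt ℝ ∞ (fun v => b v i) z) (l m : Fin D) :
    ContDiffAt ℝ ∞ (fun v => fM (a v) (b v) l m) z := by
  unfold fM
  simp only [Matrix.of_apply]
  exact ContDiffAt.sum fun j _ => ((contDiffAt_euclidean.1 (hb j)) l).mul ((contDiffAt_euclidean.1 (ha j)) m)

/-! ### the matrix of a smooth family -/

/-- **the projection matrix of a smooth family of subspaces** -/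
def mW {W : B.pt → Submodule ℝ (EuclideanSpace ℝ (Fin D))} (h : SV r (triv (EuclideanSpace ℝ (Fin D)) B) W) (hr : 0 < r) :
    Matrix (Fin D) (Fin D) (SF B) :=
  Matrix.of fun l m => ⟨fun x => pW (W x) l m, fun k p => by
    rw [contDiff_iff_contDiffAt]
    intro z
    obtain ⟨a, ha⟩ := h.loc p z
    have h1 : ContDiffAt ℝ ∞ (fun v => ∑ j, a v j l * a v j m) z := by
      refine ContDiffAt.sum fun j _ => ?_
      have h2 : ContDiffAt ℝ ∞ (fun v => a v j) z := ha.self_of_nhds.2 j
      exact ((contDiffAt_euclidean.1 h2) l).mul ((contDiffAt_euclidean.1 h2) m)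
    refine h1.congr_of_eventuallyEq ?_
    filter_upwards [ha] with y hy
    exact pW_eq hr (h.rank _) hy.1 l m⟩

section mw

variable {W : B.pt → Submodule ℝ (EuclideanSpace ℝ (Fin D))} (h : SV r (triv (EuclideanSpace ℝ (Fin D)) B) W) (hr : 0 < r)
  {W' : B.pt → Submodule ℝ (EuclideanSpace ℝ (Fin D))} (h' : SV r' (triv (EuclideanSpace ℝ (Fin D)) B) W') (hr' : 0 < r')

theorem mW_vl (x : B.pt) : (mW h hr).map (vl x) = pW (W x) := rfl

theorem mW_idem : mW h hr * mW h hr = mW h hr := SF_mat_ext fun x => by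
  rw [Matrix.map_mul, mW_vl, pW_idem]

theorem mW_symm : (mW h hr)ᵀ = mW h hr := SF_mat_ext fun x => by
  rw [Matrix.transpose_map, mW_vl, pW_symm]

include hr in
theorem tr_vl (x : B.pt) (hc : (fun _ : V 0 => x) ∈ B.Pl 0) : trace ((mW h hr).map (vl x)) = r := by
  obtain ⟨a, ha⟩ := h.loc ⟨_, hc⟩ 0
  rw [mW_vl]
  exact pW_tr hr (h.rank x) ha.self_of_nhds.1

theorem mW_mul_of_le (hle : ∀ x, W x ≤ W' x) : mW h' hr' * mW h hr = mW h hr := SF_mat_ext fun x => by
  rw [Matrix.map_mul, mW_vl, mW_vl, pW_mul_of_le (hle x)]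

theorem mW_mul_of_le' (hle : ∀ x, W x ≤ W' x) : mW h hr * mW h' hr' = mW h hr := SF_mat_ext fun x => by
  rw [Matrix.map_mul, mW_vl, mW_vl, pW_mul_of_le' (hle x)]

/-- naturality -/
theorem mW_nat {W₁ : B'.pt → Submodule ℝ (EuclideanSpace ℝ (Fin D))} (h₁ : SV r' (triv (EuclideanSpace ℝ (Fin D)) B') W₁)
    (f : SMap B' B) (e : ∀ x, W₁ x = W (f.1 x)) : (mW h hr).map (pf f) = mW h₁ hr' := SF_mat_ext fun x => by
  rw [mW_vl, e]
  rfl

end mw

theorem pm_mW (b : OBun r (EuclideanSpace ℝ (Fin D)) B) (hb : TBun b) (hr : 0 < r)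
    (h : SV r (triv (EuclideanSpace ℝ (Fin D)) B) b.W) : pm b hb hr = mW h hr := rfl

/-! ### matrices of families of frames -/

/-- a family of matrices described by pairs of local frames -/
def frM (Th : B.pt → Matrix (Fin D) (Fin D) ℝ)
    (h : ∀ {k : ℕ} (p : B.Plot k) (z : V k), ∃ a b : V k → Fin r → EuclideanSpace ℝ (Fin D),
      (∀ i, ContDiffAt ℝ ∞ (fun v => a v i) z) ∧ (∀ i, ContDiffAt ℝ ∞ (fun v => b v i) z) ∧
      ∀ᶠ y in 𝓝 z, Th (p.1 y) = fM (a y) (b y)) : Matrix (Fin D) (Fin D) (SF B) :=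
  Matrix.of fun l m => ⟨fun x => Th x l m, fun k p => by
    rw [contDiff_iff_contDiffAt]
    intro z
    obtain ⟨a, b, ha, hb, hab⟩ := h p z
    refine (contDiffAt_fM ha hb l m).congr_of_eventuallyEq ?_
    filter_upwards [hab] with y hy
    rw [hy]⟩

theorem frM_vl (Th : B.pt → Matrix (Fin D) (Fin D) ℝ)
    (h : ∀ {k : ℕ} (p : B.Plot k) (z : V k), ∃ a b : V k → Fin r → EuclideanSpace ℝ (Fin D),
      (∀ i, ContDiffAt ℝ ∞ (fun v => a v i) z) ∧ (∀ i, ContDiffAt ℝ ∞ (fun v => b v i) z) ∧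
      ∀ᶠ y in 𝓝 z, Th (p.1 y) = fM (a y) (b y)) (x : B.pt) : (frM Th h).map (vl x) = Th x := rfl

end OT

/-! ### the tangent bundle -/

namespace TE

open Geo L4.ORI

variable {n κ : ℕ} {M : Type} [MetricSpace M] [CompactSpace M] {𝒜 : SDist n M} (t : TEmb 𝒜)

theorem isoE : IsoE (vTM 𝒜) t.i :=
  ⟨fun p _ z => t.smooth (p.2 z) (𝒜.mem _)⟩

end TE

end Pool.Agent.Lib.MP_ccbbf6_gt.L5
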