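import Pool.Agent.Lib.MP_ccbbf6_gt.L5.G3S
import Pool.Agent.Lib.MP_ccbbf6_gt.L5.INTs
import Pool.Agent.Lib.MP_ccbbf6_gt.L5.TE2

/-!
# Level 5, TE3: the projection matrices of `TM` and `V` (helper93)
-/

set_option autoImplicit false
set_option maxSynthPendingDepth 3
set_option linter.unusedSectionVars false

open Set Filter Topology Matrix Real
open scoped ContDiff RealInnerProductSpace

noncomputable section

namespace Pool.Agent.Lib.MP_ccbbf6_gt.L5.TE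

open L4 L4.FR Geo L4.ORI

variable {n κ : ℕ} {M : Type} [MetricSpace M] [CompactSpace M] {𝒜 : SDist n M} (t : TEmb 𝒜)

/-- the embedding of `V` -/
theorem isoF : IsoE (vF 𝒜) (fun z : (spF 𝒜).pt => t.i z.1.1) :=
  ⟨fun p w z => (isoE t).sm ((pF1 𝒜).pl p) w z⟩

theorem svM (𝒜 : SDist n M) : SV n (vTM 𝒜) (fun _ => (⊤ : Submodule ℝ (Eu n))) := (uTM 𝒜).sv

theorem svV (hB : Bl M) (hk : 𝒜.HK κ) (hL : LocV 𝒜 κ) : SV (κ + 1) (vF 𝒜) (VF 𝒜) := (uV hB hk hL).sv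

/-- `T_x M` in `ℝ^D` -/
def WM (x : M) : Submodule ℝ (EuclideanSpace ℝ (Fin t.D)) := (⊤ : Submodule ℝ (Eu n)).map (t.i x).toLinearMap

/-- `V(p, q)` in `ℝ^D` -/
def WV (z : (spF 𝒜).pt) : Submodule ℝ (EuclideanSpace ℝ (Fin t.D)) := (VF 𝒜 z).map (t.i z.1.1).toLinearMap

theorem svWM : SV n (triv (EuclideanSpace ℝ (Fin t.D)) (spM 𝒜)) (WM t) := (svM 𝒜).emb (isoE t)

theorem svWV (hB : Bl M) (hk : 𝒜.HK κ) (hL : LocV 𝒜 κ) :
    SV (κ + 1) (triv (EuclideanSpace ℝ (Fin t.D)) (spF 𝒜)) (WV t) := (svV hB hk hL).emb (isoF t)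

theorem WV_le (z : (spF 𝒜).pt) : WV t z ≤ WM t z.1.1 := Submodule.map_mono le_top

/-- **the projection matrix of `TM`** -/
def PM (hn : 0 < n) : Matrix (Fin t.D) (Fin t.D) (SF (spM 𝒜)) := OT.mW (svWM t) hn

/-- **the projection matrix of `V`** -/
def PV (hB : Bl M) (hk : 𝒜.HK κ) (hL : LocV 𝒜 κ) : Matrix (Fin t.D) (Fin t.D) (SF (spF 𝒜)) :=
  OT.mW (svWV t hB hk hL) (Nat.succ_pos κ)

theorem PM_vl (hn : 0 < n) (x : M) : (PM t hn).map (vl (X := spM 𝒜) x) = OT.pW (WM t x) := rfl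

theorem PM_idem (hn : 0 < n) : PM t hn * PM t hn = PM t hn := OT.mW_idem _ _

theorem PM_symm (hn : 0 < n) : (PM t hn)ᵀ = PM t hn := OT.mW_symm _ _

theorem PM_tr (hn : 0 < n) (x : (spM 𝒜).pt) : trace ((PM t hn).map (vl x)) = n := OT.tr_vl _ hn x (cst_M 𝒜 x)

section V

variable (hB : Bl M) (hk : 𝒜.HK κ) (hL : LocV 𝒜 κ)

theorem PV_vl (z : (spF 𝒜).pt) : (PV t hB hk hL).map (vl z) = OT.pW (WV t z) := rfl

theorem PV_idem : PV t hB hk hL * PV t hB hk hL = PV t hB hk hL := OT.mW_idem _ _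

theorem PV_symm : (PV t hB hk hL)ᵀ = PV t hB hk hL := OT.mW_symm _ _

theorem PV_tr (x : (spF 𝒜).pt) : trace ((PV t hB hk hL).map (vl x)) = (κ + 1 : ℕ) :=
  OT.tr_vl _ (Nat.succ_pos κ) x (cst_F x)

theorem PM_PV (hn : 0 < n) : (PM t hn).map (pf (pF1 𝒜)) * PV t hB hk hL = PV t hB hk hL := SF_mat_ext fun x => by
  rw [Matrix.map_mul]
  exact OT.pW_mul_of_le (WV_le t x)

theorem PV_PM (hn : 0 < n) : PV t hB hk hL * (PM t hn).map (pf (pF1 𝒜)) = PV t hB hk hL := SF_mat_ext fun x => by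
  rw [Matrix.map_mul]
  exact OT.pW_mul_of_le' (WV_le t x)

include hB in
/-- the planes `V(p, q)`, `V(p, q')` are disjoint -/
theorem VF_disj {f f' : (spF 𝒜).pt} (h1 : f.1.1 = f'.1.1) (h2 : f.1.2 ≠ f'.1.2) {w : Eu n} (hw : w ∈ VF 𝒜 f)
    (hw' : w ∈ VF 𝒜 f') : w = 0 := by
  by_contra h0
  have e1 := (mem_VF hB f h0).1 hw
  have e2 := (mem_VF hB f' h0).1 hw'
  rw [← h1] at e2
  exact h2 (e1.symm.trans e2)

theorem PV_disj (f f' : (spF 𝒜).pt) (h1 : (pF1 𝒜).1 f = (pF1 𝒜).1 f') (h2 : (pF2 𝒜).1 f ≠ (pF2 𝒜).1 f')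
    (y : Fin t.D → ℝ) (hy : ((PV t hB hk hL).map (vl f)).mulVec y = y) (hy' : ((PV t hB hk hL).map (vl f')).mulVec y = y) :
    y = 0 := by
  obtain ⟨w, hw, hw2⟩ := Submodule.mem_map.1 (OT.pW_fix hy)
  obtain ⟨w', hw', hw2'⟩ := Submodule.mem_map.1 (OT.pW_fix hy')
  have h3 : f.1.1 = f'.1.1 := h1
  have e1 : t.i f.1.1 w = WithLp.toLp 2 y := hw2
  have e2 : t.i f.1.1 w' = WithLp.toLp 2 y := by
    rw [h3]
    exact hw2'
  have e3 : w' = w := (t.i f.1.1).injective (e2.trans e1.symm)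
  rw [e3] at hw'
  have e4 := VF_disj hB h3 h2 hw hw'
  rw [e4, map_zero] at e1
  have e5 := congrArg (fun v : EuclideanSpace ℝ (Fin t.D) => (v : Fin t.D → ℝ)) e1
  exact e5.symm

end V

/-- the swap of the two points -/
def sw (𝒜 : SDist n M) : SMap (spF 𝒜) (spF 𝒜) :=
  ⟨fun z => ⟨(z.1.2, z.1.1), by
    show dist z.1.2 z.1.1 = π
    rw [dist_comm]
    exact z.2⟩, fun _ p => ⟨p.2.2, p.2.1⟩⟩

theorem sw1 (z : (spF 𝒜).pt) : (pF1 𝒜).1 ((sw 𝒜).1 z) = (pF2 𝒜).1 z := rfl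

theorem sw2 (z : (spF 𝒜).pt) : (pF2 𝒜).1 ((sw 𝒜).1 z) = (pF1 𝒜).1 z := rfl

/-! ### the isometries `V(p, q) → V(q, p)` -/

/-- a geodesic with given end points -/
theorem exists_cz (hB : Bl M) (z : (spF 𝒜).pt) : ∃ c : Gs M, c.1 0 = z.1.1 ∧ c.1 π = z.1.2 := by
  have hd : dist z.1.1 z.1.2 = π := z.2
  have hne : z.1.1 ≠ z.1.2 := dist_pos.mp (by rw [hd]; exact Real.pi_pos)
  obtain ⟨g1, g2, g3⟩ := gd_spec 𝒜 hB hne
  rw [hd] at g3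
  exact ⟨⟨gd z.1.1 z.1.2, g1⟩, g2, g3⟩

/-- a geodesic with given end points -/
def cz (hB : Bl M) (z : (spF 𝒜).pt) : Gs M := (exists_cz hB z).choose

theorem cz0 (hB : Bl M) (z : (spF 𝒜).pt) : (cz hB z).1 0 = z.1.1 := (exists_cz hB z).choose_spec.1

theorem czp (hB : Bl M) (z : (spF 𝒜).pt) : (cz hB z).1 π = z.1.2 := (exists_cz hB z).choose_spec.2

theorem gF_cz (hB : Bl M) (z : (spF 𝒜).pt) : (gF hB).1 (cz hB z) = z :=
  Subtype.ext (Prod.ext (cz0 hB z) (czp hB z))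

theorem VF_cz (hB : Bl M) (z : (spF 𝒜).pt) : VF 𝒜 z = 𝒜.PV ((cz hB z).1 0) (𝒜.vel (cz hB z).1 0) := by
  rw [← VF_gF hB (cz hB z), gF_cz]

/-- the geodesic in the direction `w` -/
def gz (hB : Bl M) (z : (spF 𝒜).pt) (w : Eu n) : Gs M := gw 𝒜 hB (cz hB z) w

theorem gz0 (hB : Bl M) (z : (spF 𝒜).pt) (w : Eu n) : (gz hB z w).1 0 = z.1.1 := (gw_zero 𝒜 hB _ w).trans (cz0 hB z)

theorem gzp (hB : Bl M) (z : (spF 𝒜).pt) {w : Eu n} (hw : w ∈ VF 𝒜 z) (h0 : w ≠ 0) : (gz hB z w).1 π = z.1.2 := by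
  rw [VF_cz hB z] at hw
  exact (top_of_mem 𝒜 hB _ h0 hw).trans (czp hB z)

theorem gz_vel (hB : Bl M) (z : (spF 𝒜).pt) {w : Eu n} (h1 : ‖w‖ = 1) : 𝒜.vel (gz hB z w).1 0 = w := by
  unfold gz
  rw [gw_vel 𝒜 hB _ (kc_ne h1), nrm_of_norm h1]

/-- the isometry -/
def tb (hB : Bl M) (z : (spF 𝒜).pt) (w : Eu n) : Eu n := 𝒜.vel (shift π (gz hB z w)).1 0

theorem tb_norm (hB : Bl M) (z : (spF 𝒜).pt) (w : Eu n) : ‖tb hB z w‖ = 1 := vel_norm 𝒜 _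

theorem tb_mem (hB : Bl M) (z : (spF 𝒜).pt) {w : Eu n} (hw : w ∈ VF 𝒜 z) (h0 : w ≠ 0) :
    tb hB z w ∈ VF 𝒜 ((sw 𝒜).1 z) := by
  have h1 := vel_mem_VF (𝒜 := 𝒜) hB (shift π (gz hB z w))
  have h2 : (gF (𝒜 := 𝒜) hB).1 (shift π (gz hB z w)) = (sw 𝒜).1 z := by
    refine Subtype.ext (Prod.ext ?_ ?_)
    · show (shift π (gz hB z w)).1 0 = z.1.2
      rw [G3.shift_zero_pt, gzp hB z hw h0]
    · show (shift π (gz hB z w)).1 π = z.1.1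
      rw [G3.shift_pi_pi 𝒜 hB, gz0]
  rw [h2] at h1
  exact h1

end Pool.Agent.Lib.MP_ccbbf6_gt.L5.TE
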