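import Pool.Agent.Lib.MP_ccbbf6_gt.L5.COH4
import Pool.Agent.Lib.MP_ccbbf6_gt.L5.TE3
import Pool.Agent.Lib.MP_ccbbf6_gt.L5.TP12

/-!
# Level 5, block 3PT 17: the classes of `TM` vanish off the multiples of `n + 1` (helper56)
-/

set_option autoImplicit false
set_option maxSynthPendingDepth 3

open Matrix Filter Topology Set
open scoped ContDiff RealInnerProductSpace

noncomputable section

namespace Pool.Agent.Lib.MP_ccbbf6_gt.L5

open L4 L4.FR L4.ORI Geo

namespace CohD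

variable {N κ m : ℕ} {M G F : Space} (D : CohD N κ m M G F) {ι : Type*} [Fintype ι] [DecidableEq ι]

include D in
/-- classes of degree `2 j` on `M` vanish unless `d ∣ j` -/
theorem HD_M_zero {d j : ℕ} (hκ : κ + 1 = 2 * d) (hj : ¬ d ∣ j) {x : (GO M).HE} (hx : HD M j x) : x = 0 := by
  obtain ⟨w, h, h', hw, rfl⟩ := hx
  rw [GDA.cl_eq_zero]
  have h0 : j ≠ 0 := fun h => hj (h ▸ dvd_zero d)
  have h1 : 2 * j - 1 + 1 = 2 * j := by omega
  have h2 := D.H2' h' (i := 2 * j - 1) (by rwa [h1]) (by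
    rw [h1, hκ]
    intro h3
    exact hj (Nat.dvd_of_mul_dvd_mul_left (by norm_num) h3))
  obtain ⟨ξ, -, hξ⟩ := h2
  exact ⟨ξ, hξ⟩

include D in
theorem perM {d : ℕ} (hκ : κ + 1 = 2 * d) {PM : Matrix ι ι (SF M)} (iM : PM * PM = PM) : Per d (hpb iM) := by
  intro i hi
  exact D.HD_M_zero hκ hi (HD_elc (fun k => HD_hpb iM (k + 1)) i)

end CohD

/-- **the classes of `TM` vanish off the multiples of `n + 1`** -/
theorem GeoD.perM {N n m : ℕ} {M : Type} [MetricSpace M] [CompactSpace M] {𝒜 : SDist (N + 1) M} {hB : Bl M}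
    (D : GeoD 𝒜 hB (2 * n + 1) m) (t : TEmb 𝒜) : Per (n + 1) (hpb (TE.PM_idem t (Nat.succ_pos N))) :=
  D.coh.perM (by omega) _

end Pool.Agent.Lib.MP_ccbbf6_gt.L5
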