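import Pool.Agent.Lib.MP_ccbbf6_gt.L5.RG4
import Pool.Agent.Lib.MP_ccbbf6_gt.L5.TP17

namespace Pool.Agent.Lib.MP_ccbbf6_gt.L5.WK
end Pool.Agent.Lib.MP_ccbbf6_gt.L5.WK

/-!
# Level 6, RG6: the bundles of the `ρ` side for a Blaschke manifold, `κ = 2 n + 1` (helper67)
-/

set_option autoImplicit false
set_option maxSynthPendingDepth 3
set_option maxHeartbeats 400000
set_option linter.unusedSectionVars false

open Set Filter Topology Matrix
open scoped ContDiff

noncomputable section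

namespace Pool.Agent.Lib.MP_ccbbf6_gt.L5.RG

open Geo L4 L4.FR L4.ORI WK FR6

/-! ### abstract lemmas -/

section alg

variable {A B : Type*} [CommRing A] [Algebra ℝ A] [CommRing B] [Algebra ℝ B] (f : A →ₐ[ℝ] B)

theorem al_cV {X : A} {Y : B} {b : ℝ} {k1 k2 : A} {x y : B} {h i : ℕ} (hY : Y = f X)
    (hX : X = if h ∣ i then PowerSeries.coeff (i / h) (Asr b k1 k2) else 0) (h1 : f k1 = x) (h2 : f k2 = y) :
    Y = if h ∣ i then PowerSeries.coeff (i / h) (Asr b x y) else 0 := by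
  rw [hY, hX]
  split_ifs
  · rw [coeff_Asr, h1, h2]
  · exact map_zero _

theorem al_cT {X : A} {Y : B} {r : ℝ} {u : A} {v : B} {i : ℕ} (hY : Y = f X) (hX : X = r • u ^ i) (hu : f u = v) :
    Y = r • v ^ i := by
  rw [hY, hX, map_smul, map_pow, hu]

theorem al_ev {X : A} {Y : B} {s : ℝ} {x y : A} {x' y' : B} (hY : f X = Y) (h : X = s • (x - y)) (hx : f x = x')
    (hy : f y = y') : Y = s • (x' - y') := by
  rw [← hY, h, map_smul, map_sub, hx, hy]

theorem al_hm {A B : Type*} [CommRing A] [CommRing B] (f : A →+* B) (m : ℕ) (x y : A) : hm m (f x) (f y) = f (hm m x y) := by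
  unfold hm
  rw [map_sum]
  refine Finset.sum_congr rfl fun j _ => ?_
  rw [map_mul, map_pow, map_pow]

theorem al_pow {A B : Type*} [CommRing A] [CommRing B] (f : A →+* B) {m : ℕ} {x : A} (h : x ^ m = 0) : f x ^ m = 0 := by
  rw [← map_pow, h, map_zero]

theorem al_neg {s : ℝ} {x y e : A} (h : -e = s • (y - x)) : e = s • (x - y) := by
  rw [← neg_neg e, h, ← smul_neg, neg_sub]

end alg

/-! ### naturality -/

section nat

variable {ι : Type*} [Fintype ι] [DecidableEq ι] {A A' : Type*} [CommRing A] [Algebra ℝ A] [CommRing A'] [Algebra ℝ A']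
  {B B' : Type*} [Ring B] [Algebra ℝ B] [Ring B'] [Algebra ℝ B'] {G : GDA B} {G' : GDA B'} {φ : Fun0 A G} {φ' : Fun0 A' G'}

theorem map_idemF (F : FHom φ φ') {P : Matrix ι ι A} (h : P * P = P) : P.map F.g * P.map F.g = P.map F.g := by
  rw [← Matrix.map_mul, h]

theorem he_pn (F : FHom φ φ') {P : Matrix ι ι A} (h : P * P = P) (j : ℕ) :
    F.h.he (pn φ h j) = pn φ' (map_idemF F h) j := by
  unfold pn
  rw [map_smul, GHom.he_hps]
  congr 1
  exact hps_congr (F.mf P) _ _ j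

theorem pn_congr {P Q : Matrix ι ι A} (e : P = Q) (h : P * P = P) (h' : Q * Q = Q) (j : ℕ) : pn φ h j = pn φ h' j := by
  subst e
  rfl

theorem elc_pn_nat (F : FHom φ φ') {P : Matrix ι ι A} (h : P * P = P) {Q : Matrix ι ι A'} (hQ : Q * Q = Q)
    (e : Q = P.map F.g) (i : ℕ) : elc (pn φ' hQ) i = F.h.he (elc (pn φ h) i) := by
  subst e
  rw [map_elc]
  congr 1
  funext k
  exact (he_pn F h k).symm

end nat

/-! ### the classes of `TM` and `V` -/

section cls

variable {N n m : ℕ} {M : Type} [MetricSpace M] [CompactSpace M] {𝒜 : SDist (N + 1) M} {hB : Bl M}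
  (D : GeoD 𝒜 hB (2 * n + 1) m) (t : TEmb 𝒜)

theorem pn_M {P : PowerSeries ℝ} (c2 : PTd (n + 1) (TE.PM_idem t (Nat.succ_pos N)) = evS D.coh.ku P) (i : ℕ) :
    elc (pn (FO (spM 𝒜)) (TE.PM_idem t (Nat.succ_pos N))) i =
      spr (n + 1) (fun j => PowerSeries.coeff j P) i • D.coh.ku ^ (i / (n + 1)) := by
  rw [elc_pn]
  by_cases hi : (n + 1) ∣ i
  · obtain ⟨j, rfl⟩ := hi
    rw [spr_mul (Nat.succ_pos n), Nat.mul_div_cancel_left j (Nat.succ_pos n), ← coeff_evS, ← c2]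
    unfold PTd
    rw [coeff_PTs]
    rfl
  · rw [spr_not _ hi, zero_smul]
    have h1 : elc (GDA.hps ((FO (spM 𝒜)).idem (TE.PM_idem t (Nat.succ_pos N)))) i = 0 := D.perM t i hi
    rw [h1, smul_zero]

theorem pn_V {b : ℝ} (c3 : PTd (n + 1) (TE.PV_idem t hB D.hk D.hL) = Asr b D.coh.k1 D.coh.k2)
    (c4 : Per (n + 1) (hpb (TE.PV_idem t hB D.hk D.hL))) (i : ℕ) :
    elc (pn (FO (spF 𝒜)) (TE.PV_idem t hB D.hk D.hL)) i =
      if (n + 1) ∣ i then PowerSeries.coeff (i / (n + 1)) (Asr b D.coh.k1 D.coh.k2) else 0 := by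
  rw [elc_pn]
  split_ifs with hi
  · obtain ⟨j, rfl⟩ := hi
    rw [Nat.mul_div_cancel_left j (Nat.succ_pos n), ← c3]
    unfold PTd
    rw [coeff_PTs]
    rfl
  · have h1 : elc (GDA.hps ((FO (spF 𝒜)).idem (TE.PV_idem t hB D.hk D.hL))) i = 0 := c4 i hi
    rw [h1, smul_zero]

end cls

end Pool.Agent.Lib.MP_ccbbf6_gt.L5.RG
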