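import Pool.Agent.Lib.MP_ccbbf6_gt.L5.RHO2

/-!
# Level 5, block RHO 8: the change of sign `u ↦ -u`, `b ↦ -b` (helper5)

`RhoD.abs_b_lt : |b| < 6`.
-/

set_option autoImplicit false
set_option maxSynthPendingDepth 3
set_option linter.unusedSectionVars false

open Set Filter Topology

noncomputable section

namespace Pool.Agent.Lib.MP_ccbbf6_gt.L5

open L4 L4.FR Finset

theorem rr_neg (b : ℝ) (i : ℕ) : rr (-b) i = (-1) ^ i * rr b i := by
  induction i using Nat.strong_induction_on with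
  | _ n ih =>
    rcases n with _ | _ | n
    · simp [rr]
    · simp [rr]
    · rw [rr, rr, ih (n + 1) (by omega), ih n (by omega)]
      ring

theorem ss_neg (m : ℕ) (b : ℝ) (i : ℕ) : ss m (-b) i = (-1) ^ i * ss m b i := by
  unfold ss
  rw [rr_neg, show (2 * -b) ^ i = (-1) ^ i * (2 * b) ^ i by rw [← mul_pow]; ring]
  ring

section alg

variable {A : Type*} [CommRing A] [Algebra ℝ A]

theorem RB_neg (m : ℕ) (b : ℝ) (l l' u : A) (j : ℕ) : RB m (-b) l l' (-u) j = RB m b l l' u j := by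
  unfold RB
  split_ifs
  · rfl
  · rw [ss_neg]
    congr 1
    rw [show (-u) = (-1 : ℝ) • u by rw [neg_smul, one_smul], smul_pow, smul_smul]
    congr 1
    rw [show 2 * ((-1) ^ (j / 2) * ss m b (j / 2)) * (-1) ^ (j / 2) = 2 * ss m b (j / 2) * ((-1) ^ (j / 2) * (-1) ^ (j / 2)) by
      ring, ← mul_pow]
    norm_num
  · rfl

theorem hm_neg (m : ℕ) (u v : A) : L4.hm m (-u) (-v) = (-1) ^ m * L4.hm m u v := by
  unfold L4.hm
  rw [Finset.mul_sum]
  refine Finset.sum_congr rfl fun j hj => ?_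
  have hj' := Finset.mem_range.1 hj
  rw [neg_pow, neg_pow v]
  have h1 : (-1 : A) ^ m = (-1) ^ j * (-1) ^ (m - j) := by
    rw [← pow_add]
    congr 1
    omega
  rw [h1]
  ring

end alg

variable {X : Space} {m : ℕ}

namespace RhoD

variable (D : RhoD X m)

theorem cc_neg (w : (GB D.c).Zc) : (((-w : (GB D.c).Zc) : BasR D.c) : Om X) = -((w : BasR D.c) : Om X) := rfl

/-- the change of sign -/
def neg : RhoD X m where
  c := D.c
  I := D.I
  I_d := D.I_d
  I_i := D.I_i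
  η := D.η
  sη := D.sη
  iη := D.iη
  idη := D.idη
  x1 := -D.x1
  x2 := -D.x2
  px := by rw [neg_pow, D.px, mul_zero]
  ψ := -D.ψ
  sψ := by rw [map_neg, D.sψ]
  dψ := by
    rw [map_neg, D.dψ, D.cc_neg, D.cc_neg]
    abel
  ξ := ((-1 : ℝ) ^ m) • D.ξ
  sξ := by rw [map_smul, D.sξ, smul_neg]
  bξ := Bas_smul D.c _ D.bξ
  dξ := by
    rw [map_smul, D.dξ, hm_neg]
    have h1 : (-1 : (GB D.c).Zc) ^ m * L4.hm m D.x1 D.x2 = ((-1 : ℝ) ^ m) • L4.hm m D.x1 D.x2 := by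
      rw [Algebra.smul_def, map_pow, map_neg, map_one]
    rw [h1]
    rfl

theorem neg_q (w : (GB D.c).Zc) : D.neg.q w = D.q w := rfl

variable {D} {b ε : ℝ} {l' : (GB D.c).Zc} {K K' : ℕ → (GC (GB D.c)).HE}

theorem KD.neg (H : KD D b ε l' K K') : KD D.neg (-b) (-ε) l' K K' where
  hε := by rw [neg_mul_neg, H.hε]
  e1 := by
    have h1 := H.e1
    have h2 : D.neg.q D.neg.x1 = -D.q D.x1 := map_neg D.q D.x1
    have h3 : D.neg.q D.neg.x2 = -D.q D.x2 := map_neg D.q D.x2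
    rw [h2, h3]
    refine h1.trans ?_
    rw [neg_smul, ← smul_neg]
    congr 1
    abel
  e2 := by
    have h1 := H.e2
    have h2 : D.neg.q D.neg.x1 = -D.q D.x1 := map_neg D.q D.x1
    have h3 : D.neg.q D.neg.x2 = -D.q D.x2 := map_neg D.q D.x2
    rw [h2, h3]
    refine h1.trans ?_
    rw [neg_smul, ← smul_neg]
    congr 1
    abel
  hK j hj := by
    have h1 := H.hK j hj
    have h3 : rc (GB D.c) (D.neg.q D.neg.x2) = -rc (GB D.c) (D.q D.x2) :=
      (congrArg (rc (GB D.c)) (map_neg D.q D.x2)).trans (map_neg _ _)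
    refine h1.trans ?_
    change _ = RB m (-b) (rc (GB D.c) (D.q D.lz)) (rc (GB D.c) (D.q l')) (rc (GB D.c) (D.neg.q D.neg.x2)) j
    rw [h3, RB_neg]
  hL j hj h0 := by
    have h1 := H.hL j hj h0
    have h3 : rc (GB D.c) (D.neg.q D.neg.x1) = -rc (GB D.c) (D.q D.x1) :=
      (congrArg (rc (GB D.c)) (map_neg D.q D.x1)).trans (map_neg _ _)
    refine h1.trans ?_
    change _ = RB m (-b) (rc (GB D.c) (D.q D.lz)) (rc (GB D.c) (D.q l')) (rc (GB D.c) (D.neg.q D.neg.x1)) j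
    rw [h3, RB_neg]
  rk := H.rk

/-- **`|b| < 6`** -/
theorem abs_b_lt (H : KD D b ε l' K K') (hm : 2 ≤ m) {σ : Om X} (hσ : dO X σ = D.co (D.x1 ^ m))
    (hne : D.I (D.co l' * (D.co (D.x1 ^ m) * σ)) ≠ 0) : |b| < 6 := by
  refine abs_lt.2 ⟨?_, b_lt H hm hσ hne⟩
  have h1 : D.neg.x1 ^ m = ((-1 : ℝ) ^ m) • D.x1 ^ m := by
    change (-D.x1) ^ m = _
    rw [neg_pow, Algebra.smul_def, map_pow, map_neg, map_one]
  have h2 : D.neg.co (D.neg.x1 ^ m) = ((-1 : ℝ) ^ m) • D.co (D.x1 ^ m) := (congrArg D.co h1).trans (map_smul D.co _ _)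
  have h3 : -b < 6 := by
    refine b_lt H.neg hm (σ := ((-1 : ℝ) ^ m) • σ) ?_ ?_
    · rw [map_smul, hσ, h2]
    · rw [h2, smul_mul_smul_comm, ← mul_pow, neg_one_mul, neg_neg, one_pow, one_smul]
      exact hne
  linarith

end RhoD

end Pool.Agent.Lib.MP_ccbbf6_gt.L5
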