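import Pool.Agent.Lib.MP_ccbbf6_gt.L5.RHO7
import Pool.Agent.Lib.MP_ccbbf6_gt.L5.RHO8
import Pool.Agent.Lib.MP_ccbbf6_gt.L5.TP13
import Pool.Agent.Lib.MP_ccbbf6_gt.L5.WK8

/-!
# Level 5, block RHO 9: `|b| < 6`, abstract form (helper5)

`RhoD.abs_b_gen` : all inputs are statements on the spaces `X` (pairs of geodesics), `F` (pairs of points), `B` (points).
-/

set_option autoImplicit false
set_option maxSynthPendingDepth 3
set_option linter.unusedSectionVars false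

open Set Filter Topology Matrix
open scoped ContDiff

noncomputable section

namespace Pool.Agent.Lib.MP_ccbbf6_gt.L5

open L4 L4.FR WK

section nat

variable {ι : Type*} [Fintype ι] [DecidableEq ι]

variable {A A' : Type*} [CommRing A] [Algebra ℝ A] [CommRing A'] [Algebra ℝ A'] {B B' : Type*} [Ring B] [Algebra ℝ B]
  [Ring B'] [Algebra ℝ B'] {G : GDA B} {G' : GDA B'} {φ : Fun0 A G} {φ' : Fun0 A' G'}

/-- naturality of the Pontryagin classes -/
theorem he_hP (F : FHom φ φ') {P : Matrix ι ι A} (h : P * P = P) (h' : P.map F.g * P.map F.g = P.map F.g) (i : ℕ) :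
    F.h.he (hP φ h i) = hP φ' h' i := by
  unfold hP
  rw [map_smul, GHom.he_hc]
  congr 1
  unfold GDA.hc
  congr 1
  funext k
  have e1 : (P.map φ.f).map F.h.f = (P.map F.g).map φ'.f := by
    ext i j
    exact F.com _
  exact hps_congr e1 _ _ k

theorem he_hp1 (F : FHom φ φ') {P : Matrix ι ι A} (h : P * P = P) (h' : P.map F.g * P.map F.g = P.map F.g) :
    F.h.he (hp1 φ h) = hp1 φ' h' := by
  unfold hp1
  rw [map_smul, GHom.he_hps]
  congr 1
  have e1 : (P.map φ.f).map F.h.f = (P.map F.g).map φ'.f := by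
    ext i j
    exact F.com _
  exact hps_congr e1 _ _ 2

end nat

section gen

variable {X Y Z : Space} {c : Circ X} {N : ℕ}

section alg

variable {R R' : Type*} [CommRing R] [Algebra ℝ R] [CommRing R'] [Algebra ℝ R'] (g : R →ₐ[ℝ] R')

theorem al9_e {X : R'} {Z a b : R} {x1 x2 : R'} (h1 : X = g Z) (h2 : Z = b - a) (e1 : g a = x1) (e2 : g b = x2) :
    X = (1 : ℝ) • (x2 - x1) := by
  rw [h1, h2, map_sub, e1, e2, one_smul]

theorem al9_p {X : R'} {Z u v : R} {b : ℝ} {x1 x2 : R'} (h1 : X = g Z) (h2 : Z = b • (u + v)) (e1 : g u = x1)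
    (e2 : g v = x2) : X = b • (x1 + x2) := by
  rw [h1, h2, map_smul, map_add, e1, e2]

theorem al9_s {X : R'} {Z k : R} {r : ℝ} {j : ℕ} {x : R'} (h1 : X = g Z) (h2 : Z = r • k ^ j) (e : g k = x) :
    X = r • x ^ j := by
  rw [h1, h2, map_smul, map_pow, e]

theorem al9_r {X k x : R'} {r : ℝ} {j : ℕ} (h : X = r • k ^ j) (e : k = x) : X = r • x ^ j := by
  rw [h, e]

end alg

/-- the morphism to the basic forms -/
abbrev tB (f : SMap X Y) (hf : IMap c f) : FHom (FO Y) (FB c) := FHom.toB f hf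

theorem tB_comp (f : SMap X Y) (hf : IMap c f) (g : SMap Y Z) (hg : IMap c (g.comp f)) (k : (GO Z).HE) :
    (tB (c := c) (g.comp f) hg).h.he k = (tB (c := c) f hf).h.he ((GHom.pull g).he k) := by
  obtain ⟨w, a, b, rfl⟩ := GDA.cl_surj k
  rw [GHom.he_cl, GHom.he_cl, GHom.he_cl]
  refine GDA.cl_congr (Subtype.ext ?_) _ _
  exact pull_comp _ _ _

theorem pfB_idem (f : SMap X Y) (hf : IMap c f) {P : Matrix (Fin N) (Fin N) (SF Y)} (h : P * P = P) :
    P.map (pfB f hf) * P.map (pfB f hf) = P.map (pfB f hf) := by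
  rw [← Matrix.map_mul, h]

theorem hP_tB (f : SMap X Y) (hf : IMap c f) {P : Matrix (Fin N) (Fin N) (SF Y)} (h : P * P = P) {S : PowerSeries ℝ}
    {k : (GO Y).HE} (e : PTd 2 h = evS k S) (j : ℕ) :
    hP (FB c) (pfB_idem f hf h) j = PowerSeries.coeff j S • (tB (c := c) f hf).h.he k ^ j := by
  have h1 := congrArg (PowerSeries.coeff j) e
  have h2 := coeff_PT_hP 1 h j
  rw [mul_one, one_mul] at h2
  rw [h2, coeff_evS] at h1
  exact al9_s (tB (c := c) f hf).h.he (he_hP (tB (c := c) f hf) h (pfB_idem f hf h) j).symm h1 rfl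

theorem hR_tB (f : SMap X Y) (hf : IMap c f) {P : Matrix (Fin N) (Fin N) (SF Y)} (h : P * P = P) (hs : Pᵀ = P)
    {S : PowerSeries ℝ} {k : (GO Y).HE} (e : PTd 2 h = evS k S) {m : ℕ} {b : ℝ}
    (eS : ∀ j ≤ m, PowerSeries.coeff j (S * (1 + 2 * PowerSeries.C b * PowerSeries.X)) =
      PowerSeries.coeff j (Aser b ^ (m + 1))) {i : ℕ} (hi : i ≠ 0) (him : i ≤ m) :
    hR (FB c) (pfB_idem f hf h) i = (2 * ss m b i) • (tB (c := c) f hf).h.he k ^ i := by
  have h1 := hP_tB (c := c) f hf h e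
  have h2 : (P.map (pfB f hf))ᵀ = P.map (pfB f hf) := by rw [← Matrix.transpose_map, hs]
  exact hR_ss (φ := FB c) (pfB_idem f hf h) h2 (fun j _ => h1 j) eS hi him

theorem hE_tB (f : SMap X Y) (hf : IMap c f) {P : Matrix (Fin N) (Fin N) (SF Y)} {o : (Fin 4 → Fin N) → SF Y}
    (h : Or 4 P o) (h' : Or 4 (P.map (pfB f hf)) (fun I => pfB f hf (o I))) :
    hE (FB c) h' = (tB (c := c) f hf).h.he (hE (FO Y) h) := (he_hE (tB (c := c) f hf) h).symm

theorem hp1_tB (f : SMap X Y) (hf : IMap c f) {P : Matrix (Fin N) (Fin N) (SF Y)} (h : P * P = P) :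
    hp1 (FB c) (pfB_idem f hf h) = (tB (c := c) f hf).h.he (hp1 (FO Y) h) :=
  (he_hp1 (tB (c := c) f hf) h (pfB_idem f hf h)).symm

theorem tr_tB {m : ℕ} (f : SMap X Y) (hf : IMap c f) {P : Matrix (Fin N) (Fin N) (SF Y)}
    (h : ∀ x, trace (P.map (vl x)) = 4 * m) : trace (P.map (pfB f hf)) = ((4 * m : ℕ) : SB c) := by
  refine Subtype.ext (SF_ext fun z => ?_)
  have h2 : vl z ((trace (P.map (pfB f hf)) : SB c) : SF X) = ∑ i, vl z ((SB c).val (pfB f hf (P i i))) := by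
    have h3 : ((trace (P.map (pfB f hf)) : SB c) : SF X) = ∑ i, (SB c).val (pfB f hf (P i i)) :=
      map_sum (SB c).val _ _
    rw [h3, map_sum]
  refine h2.trans ((h (f.1 z)).trans ?_)
  have h3 : vl z (((4 * m : ℕ) : SB c) : SF X) = ((4 * m : ℕ) : ℝ) := by
    have h4 : (((4 * m : ℕ) : SB c) : SF X) = ((4 * m : ℕ) : SF X) := map_natCast (SB c).val _
    rw [h4, map_natCast]
  rw [h3]
  push_cast
  ring

end gen

/-- **`|b| < 6`, abstract form** -/
theorem RhoD.abs_b_gen {X F B : Space} {m N : ℕ} (D : RhoD X m) (H : WD X D.c N) (hm : 2 ≤ m)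
    (f : SMap X F) (hf : IMap D.c f) (sw : SMap F F) (p1 p2 : SMap F B)
    {PM : Matrix (Fin N) (Fin N) (SF B)} (iM : PM * PM = PM) (sM : PMᵀ = PM)
    {PV : Matrix (Fin N) (Fin N) (SF F)} {oV : (Fin 4 → Fin N) → SF F} (hV : Or 4 PV oV)
    {y y' : Fin N → SF X} (h : RotF D.c y y') (hη : D.η = ηF y y')
    (sy : Sec (PV.map (pf f)) y) (sy' : Sec (PV.map (pf f)) y')
    (dP : PM.map (pfB (p1.comp f) (inv_comp hf p1)) = PV.map (pfB f hf) + H.QM)
    (dP1 : PV.map (pfB f hf) * H.QM = 0) (dP2 : H.QM * PV.map (pfB f hf) = 0)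
    (dQ : PM.map (pfB (p2.comp f) (inv_comp hf p2)) = PV.map (pfB (sw.comp f) (inv_comp hf sw)) + H.PM)
    (dQ1 : PV.map (pfB (sw.comp f) (inv_comp hf sw)) * H.PM = 0)
    (dQ2 : H.PM * PV.map (pfB (sw.comp f) (inv_comp hf sw)) = 0)
    {th : Matrix (Fin N) (Fin N) (SF F)} (th1 : th * thᵀ = PV.map (pf sw)) (th2 : thᵀ * th = PV)
    (tM : ∀ x, trace (PM.map (vl x)) = 4 * m)
    (rk : ∀ x, Module.finrank ℝ (LinearMap.range (H.P x : EuclideanSpace ℝ (Fin N) →ₗ[ℝ] EuclideanSpace ℝ (Fin N))) +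
      4 = 4 * m)
    {u : Om B} (su : (GO B).s u = u) (du : (GO B).d u = 0) {ku : (GO B).HE} (eu : ku = GDA.cl (G := GO B) u su du)
    (c1 : D.co D.x1 = f.pull (p1.pull u)) (c2 : D.co D.x2 = f.pull (p2.pull u))
    (eE : hE (FO F) hV = (GHom.pull p2).he ku - (GHom.pull p1).he ku) {b : ℝ}
    (ep : hp1 (FO F) hV.idem = b • ((GHom.pull p1).he ku + (GHom.pull p2).he ku))
    {S : PowerSeries ℝ} (eM : PTd 2 iM = evS ku S)
    (eS : ∀ j ≤ m, PowerSeries.coeff j (S * (1 + 2 * PowerSeries.C b * PowerSeries.X)) =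
      PowerSeries.coeff j (Aser b ^ (m + 1)))
    (hne : ∀ l' : (GB D.c).Zc, ((l' : BasR D.c) : Om X) =
      eu2 (FO X) (redP (redP (PV.map (pf f)) y) y') (redo (redo (fun I => pf f (oV I)) y) y') →
      ∃ σ : Om X, dO X σ = D.co (D.x1 ^ m) ∧ D.I (D.co l' * (D.co (D.x1 ^ m) * σ)) ≠ 0) : |b| < 6 := by
  have e1 : (tB (c := D.c) f hf).h.he ((GHom.pull p1).he ku) = D.q D.x1 := by
    rw [eu, GHom.he_cl, GHom.he_cl]
    exact congrArg (Ideal.Quotient.mk (GB D.c).Ex) (Subtype.ext (Subtype.ext c1.symm))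
  have e2 : (tB (c := D.c) f hf).h.he ((GHom.pull p2).he ku) = D.q D.x2 := by
    rw [eu, GHom.he_cl, GHom.he_cl]
    exact congrArg (Ideal.Quotient.mk (GB D.c).Ex) (Subtype.ext (Subtype.ext c2.symm))
  have hVB : Or 4 (PV.map (pfB f hf)) (fun I => pfB f hf (oV I)) := hV.map' (pfB f hf : SF F →+* SB D.c)
  have k1 : (tB (c := D.c) (p1.comp f) (inv_comp hf p1)).h.he ku = D.q D.x1 := (tB_comp f hf _ _ _).trans e1
  have k2 : (tB (c := D.c) (p2.comp f) (inv_comp hf p2)).h.he ku = D.q D.x2 := (tB_comp f hf _ _ _).trans e2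
  have r1 : ∀ i, i ≠ 0 → i ≤ m → hR (FB D.c) (pfB_idem (p1.comp f) (inv_comp hf p1) iM) i =
      (2 * ss m b i) • D.q D.x1 ^ i := fun i hi him =>
    al9_r (hR_tB (c := D.c) (p1.comp f) (inv_comp hf p1) iM sM eM eS hi him) k1
  have r2 : ∀ i, i ≠ 0 → i ≤ m → hR (FB D.c) (pfB_idem (p2.comp f) (inv_comp hf p2) iM) i =
      (2 * ss m b i) • D.q D.x2 ^ i := fun i hi him =>
    al9_r (hR_tB (c := D.c) (p2.comp f) (inv_comp hf p2) iM sM eM eS hi him) k2
  obtain ⟨K, hK⟩ : ∃ K : KIn D H b 1 y y', K.VP = PV.map (pfB f hf) ∧ ∀ I, K.oV I = pfB f hf (oV I) := ⟨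
    { h := h
      hη := hη
      TP := PM.map (pfB (p1.comp f) (inv_comp hf p1))
      VP := PV.map (pfB f hf)
      TQ := PM.map (pfB (p2.comp f) (inv_comp hf p2))
      VQ := PV.map (pfB (sw.comp f) (inv_comp hf sw))
      oV := fun I => pfB f hf (oV I)
      hV := hVB
      sy := sy
      sy' := sy'
      iTP := pfB_idem _ _ iM
      sTP := by rw [← Matrix.transpose_map, sM]
      iTQ := pfB_idem _ _ iM
      sTQ := by rw [← Matrix.transpose_map, sM]
      iVQ := pfB_idem _ _ hV.idem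
      dP := dP.symm
      dP1 := dP1
      dP2 := dP2
      dQ := dQ.symm
      dQ1 := dQ1
      dQ2 := dQ2
      u := thᵀ.map (pfB f hf)
      v := th.map (pfB f hf)
      uv := by rw [← Matrix.map_mul, th2]
      vu := by
        rw [← Matrix.map_mul, th1]
        rfl
      tQ := tr_tB _ _ tM
      rkW := rk
      cl :=
        { s1 := one_mul 1
          eV := al9_e (tB (c := D.c) f hf).h.he (hE_tB f hf hV hVB) eE e1 e2
          pV := al9_p (tB (c := D.c) f hf).h.he (hp1_tB (c := D.c) f hf hV.idem) ep e1 e2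
          rP := r1
          rQ := r2 } }, rfl, fun _ => rfl⟩
  obtain ⟨σ, hσ, hn⟩ := hne K.lp (by
    have h1 := K.co_lp
    rw [hK.1] at h1
    have h2 : (fun I => (SB D.c).val (K.oV I)) = fun I => pf f (oV I) := funext fun I => by rw [hK.2]; rfl
    rw [h2] at h1
    exact h1)
  exact RhoD.abs_b_lt (K.kd (by omega)) hm hσ hn

end Pool.Agent.Lib.MP_ccbbf6_gt.L5
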