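import Pool.Agent.Lib.MP_ccbbf6_gt.L5.PIK
import Pool.Agent.Lib.MP_ccbbf6_gt.L5.RHO9

/-!
# Level 5, block RHO 10: `|b| < 6` for a Blaschke manifold with `κ = 3` (helper5)

`GeoD.abs_b_lt`.
-/

set_option autoImplicit false
set_option maxSynthPendingDepth 3
set_option linter.unusedSectionVars false

open Set Filter Topology Matrix Real Module
open scoped ContDiff RealInnerProductSpace

noncomputable section

namespace Pool.Agent.Lib.MP_ccbbf6_gt.L5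

open L4 L4.FR Geo L4.ORI

section three

variable {N K : ℕ} {M : Type} [MetricSpace M] [CompactSpace M] {𝒜 : SDist (N + 1) M} {hB : Bl M}

variable (D : GeoD 𝒜 hB 3 (K + 2)) (t : TEmb 𝒜)

/-! ### the sections -/

theorem gF_dp2 : (gF (𝒜 := 𝒜) hB).comp (dp2 𝒜) = (gF hB).comp (dp1 𝒜) := SMap_ext fun z =>
  Subtype.ext (Prod.ext z.2.1 z.2.2.1)

theorem sec_y (hk : 𝒜.HK 3) (hL : LocV 𝒜 3) :
    Sec ((TE.PV t hB hk hL).map (pf (WK.dF hB))) (yV t hB) :=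
  (TE.sec_yK t hB hk hL).map (pf (dp1 𝒜))

theorem sec_y' (hk : 𝒜.HK 3) (hL : LocV 𝒜 3) :
    Sec ((TE.PV t hB hk hL).map (pf (WK.dF hB))) (yV' t hB) := by
  have h1 := (TE.sec_yK t hB hk hL).map (pf (dp2 𝒜))
  have h2 : ((TE.PV t hB hk hL).map (pf (gF hB))).map (pf (dp2 𝒜)) = (TE.PV t hB hk hL).map (pf (WK.dF hB)) := by
    have h3 : ((TE.PV t hB hk hL).map (pf (gF hB))).map (pf (dp2 𝒜)) =
      (TE.PV t hB hk hL).map (pf ((gF (𝒜 := 𝒜) hB).comp (dp2 𝒜))) := rfl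
    rw [h3, gF_dp2]
    rfl
  rw [h2] at h1
  exact h1

variable [MeasurableSpace M] [BorelSpace M]

theorem rx_1 : (rhoD (q := 2) D (by norm_num) t).co (rhoD (q := 2) D (by norm_num) t).x1 =
    (WK.dF (𝒜 := 𝒜) hB).pull ((pF1 𝒜).pull D.coh.u) := by
  have h1 : (dp1 𝒜).pull D.coh.x = (WK.dF (𝒜 := 𝒜) hB).pull ((pF1 𝒜).pull D.coh.u) := by
    rw [D.coh.x_def, ← D.coh.g_p1, ← pull_comp]
    rfl
  exact h1

theorem rx_2 : (rhoD (q := 2) D (by norm_num) t).co (rhoD (q := 2) D (by norm_num) t).x2 =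
    (WK.dF (𝒜 := 𝒜) hB).pull ((pF2 𝒜).pull D.coh.u) := by
  have h1 : (dp1 𝒜).pull D.coh.y = (WK.dF (𝒜 := 𝒜) hB).pull ((pF2 𝒜).pull D.coh.u) := by
    rw [D.coh.y_def, ← D.coh.g_p2, ← pull_comp]
    rfl
  exact h1

/-- **`|b| < 6`** -/
theorem GeoD.abs_b_lt {p : M} {ψ : Om (spR (N + 1))} {Bf : Fm (N + 1)} (hcc : ConcD 𝒜 hB 3 (K + 2) p ψ Bf D.u)
    {b : ℝ} {P : PowerSeries ℝ} (eM : PTd 2 (TE.PM_idem t (Nat.succ_pos N)) = evS D.coh.ku P)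
    (ep : L5.hp1 (FO (spF 𝒜)) (TE.PV_idem t hB D.hk D.hL) = b • (D.coh.k1 + D.coh.k2))
    (eS : ∀ j ≤ K + 2, PowerSeries.coeff j (P * (1 + 2 * PowerSeries.C b * PowerSeries.X)) =
      PowerSeries.coeff j (Aser b ^ (K + 3))) : |b| < 6 := by
  have hdim := D.dim
  have hrk : ∀ x, finrank ℝ (LinearMap.range ((WK.wd t hB D.hk).P x :
      EuclideanSpace ℝ (Fin t.D) →ₗ[ℝ] EuclideanSpace ℝ (Fin t.D))) + 4 = 4 * (K + 2) := fun x => by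
    have h1 := WK.rk_P t hB D.hk x
    omega
  have htr : ∀ x : (spM 𝒜).pt, trace ((TE.PM t (Nat.succ_pos N)).map (vl x)) = 4 * ((K + 2 : ℕ) : ℝ) := fun x => by
    rw [TE.PM_tr, hdim]
    push_cast
    ring
  have hne : ∀ l' : (GB (circD (𝒜 := 𝒜) hB)).Zc, ((l' : BasR (circD (𝒜 := 𝒜) hB)) : Om (spD 𝒜)) =
      eu2 (FO (spD 𝒜)) (redP (redP ((TE.PV t hB D.hk D.hL).map (pf (WK.dF hB))) (yV t hB)) (yV' t hB))
        (redo (redo (fun I => pf (WK.dF hB) (D.oV (TE.isoE t) I)) (yV t hB)) (yV' t hB)) →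
      ∃ σ : Om (spD 𝒜), dO _ σ = (rhoD (q := 2) D (by norm_num) t).co ((rhoD (q := 2) D (by norm_num) t).x1 ^ (K + 2)) ∧
      (rhoD (q := 2) D (by norm_num) t).I ((rhoD (q := 2) D (by norm_num) t).co l' *
        ((rhoD (q := 2) D (by norm_num) t).co ((rhoD (q := 2) D (by norm_num) t).x1 ^ (K + 2)) * σ)) ≠ 0 :=
    fun l' hl => D.rho_ne3 t hcc hl
  exact RhoD.abs_b_gen (rhoD (q := 2) D (by norm_num) t) (WK.wd t hB D.hk) (Nat.le_add_left 2 K) (WK.dF hB) (WK.inv_dF hB)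
    (TE.sw 𝒜) (pF1 𝒜) (pF2 𝒜) (TE.PM_idem t (Nat.succ_pos N)) (TE.PM_symm t (Nat.succ_pos N)) (D.orPV (TE.isoE t))
    (rotF t hB) rfl (sec_y t D.hk D.hL) (sec_y' t D.hk D.hL) (WK.TPm_eq t hB D.hk D.hL (Nat.succ_pos N))
    (WK.Vp_QM t hB D.hk D.hL) (WK.QM_Vp t hB D.hk D.hL) (WK.TQm_eq t hB D.hk D.hL (Nat.succ_pos N))
    (WK.Vq_PM t hB D.hk D.hL) (WK.PM_Vq t hB D.hk D.hL) (TE.thM_mul t hB D.hk D.hL) (TE.thM_mul' t hB D.hk D.hL)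
    htr hrk D.coh.su D.coh.du (ku := D.coh.ku) rfl (rx_1 D t) (rx_2 D t) (D.hE3 (TE.isoE t)) ep eM eS hne

end three

end Pool.Agent.Lib.MP_ccbbf6_gt.L5
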