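import Pool.Agent.Lib.MP_ccbbf6_gt.L5.ASM2
import Pool.Agent.Lib.MP_ccbbf6_gt.L5.IA18
import Pool.Agent.Lib.MP_ccbbf6_gt.L5.RHO10

/-!
# Level 5, RHO 11: the model for `κ = 3` (helper5, after helper93's ASM2 and helper91's ASM3)
-/

set_option autoImplicit false
set_option maxSynthPendingDepth 3
set_option linter.unusedSectionVars false

open Set Filter Topology Matrix Real Module MeasureTheory
open scoped ContDiff RealInnerProductSpace

noncomputable section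

namespace Pool.Agent.Lib.MP_ccbbf6_gt.L5

open L4 L4.FR Geo L4.ORI NEG

section three

variable {N : ℕ} {M : Type} [MetricSpace M] [CompactSpace M] {𝒜 : SDist (N + 1) M}

variable [MeasurableSpace M] [BorelSpace M]

/-- **`κ = 3`, `n ≥ 5`: the model** -/
theorem model_three [Nonempty M] (hn : 5 ≤ N + 1) (hB : Bl M) (hk : 𝒜.HK 3) : Blaschke.IsModel (N + 1) 3 M := by
  obtain ⟨p⟩ : Nonempty M := inferInstance
  obtain ⟨o, ho, g, hh, hU⟩ := IB.exists_UDo (𝒜 := 𝒜) (by omega) hB hk p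
  obtain ⟨m, hm, hdim, hD⟩ := exists_GeoD (𝒜 := 𝒜) (hB := hB) hk (by decide) (by norm_num) hU p
  obtain ⟨K, rfl⟩ : ∃ K, m = K + 2 := ⟨m - 2, by omega⟩
  obtain ⟨D, hu, k, hk1⟩ := hD (by omega)
  obtain ⟨t⟩ := exists_TEmb 𝒜
  obtain ⟨e⟩ := exists_emb 𝒜
  have hG : Nonempty (Gs M) := ⟨gvg 𝒜 hB D.f0.1.1 (D.f0.1.2 0) (D.f0.2.2.1 0)⟩
  obtain ⟨R, C, P, hN⟩ := exists_neg hB e hk
  obtain ⟨f, hF⟩ := exists_fillP hB e hN
  have hb : KBun (bKo hB D.hk D.hL D.Deg_b D.orV D.hκ) := KBun_bKo hB D.hk D.hL D.Deg_b D.orV D.hκ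
  obtain ⟨b, Ps, c1, c2, c3, c4, c5⟩ := D.tpf t
  have hj := D.b_mod t ho hU hu c4
  have hU' : UD 𝒜 hB 3 D.u g := by
    rw [hu]
    exact hU
  have hNV := D.hNVa t hN c4
  have hc : ConcD 𝒜 hB 3 (K + 2) p (psP hB hk ho) (BBp (psP hB hk ho)) D.u := by
    rw [hu]
    exact concD_uM hB hdim (by omega) ⟨1, rfl⟩ (angD hB hk ho) hh
  have hb6 := D.abs_b_lt t hc c2 c4 c5
  have hb2 : |b| ≤ 2 := by
    obtain ⟨j, hj⟩ := hj
    rw [hj] at hb6 ⊢
    obtain ⟨h1, h2⟩ := abs_lt.1 hb6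
    have h3 : j < 1 := by
      have : (j : ℝ) < 1 := by linarith
      exact_mod_cast this
    have h4 : -2 < j := by
      have : (-2 : ℝ) < j := by linarith
      exact_mod_cast this
    have h5 : j = 0 ∨ j = -1 := by omega
    rcases h5 with rfl | rfl
    · norm_num
    · norm_num
  have he0 : D.coh.eps ≠ 0 := by
    intro h
    rw [h, mul_zero, abs_zero] at hk1
    exact zero_ne_one hk1
  have he : |D.coh.eps| ≤ 1 := by
    rw [abs_mul] at hk1
    have h2 : (1 : ℝ) ≤ |(k : ℝ)| := by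
      have h3 : k ≠ 0 := by
        rintro rfl
        simp at hk1
      have h4 : (1 : ℤ) ≤ |k| := Int.one_le_abs h3
      exact_mod_cast h4
    nlinarith [abs_nonneg D.coh.eps]
  have hs : ∃ j : ℤ, b = j := by
    obtain ⟨j, hj⟩ := hj
    exact ⟨4 * j + 2, by rw [hj]; push_cast; ring⟩
  have h1 := IA.volume_of_b D hN hF hN.fam hb (by omega) hU' hc he0 he hNV hs hb2
  refine isModel_three' (m := K + 2) hdim (by omega) 𝒜 hB hk ?_
  exact h1

end three

end Pool.Agent.Lib.MP_ccbbf6_gt.L5
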