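import Pool.Agent.Lib.MP_ccbbf6_gt.L5.EL1
import Pool.Agent.Lib.MP_ccbbf6_gt.L5.RHO1

/-!
# Level 5, block RHO 2: F7 on an abstract space (helper5)

`RhoD.main` : from the normalised power sums of `K^{1,0}` in the basic cohomology to `elc P (2 m - 1) = 0`.
-/

set_option autoImplicit false
set_option maxSynthPendingDepth 3
set_option linter.unusedSectionVars false

open Set Filter Topology

noncomputable section

namespace Pool.Agent.Lib.MP_ccbbf6_gt.L5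

open L4 L4.FR Finset

variable {X : Space} {m : ℕ}

namespace RhoD

variable (D : RhoD X m)

/-- the class of a basic closed even form -/
def q : (GB D.c).Zc →ₐ[ℝ] (GB D.c).HE := Ideal.Quotient.mkₐ ℝ (GB D.c).Ex

/-- the hypotheses on the normalised power sums `K`, `K'` of `K^{1,0}` and its conjugate; `l = [dη]` -/
structure KD (D : RhoD X m) (b ε : ℝ) (l' : (GB D.c).Zc) (K K' : ℕ → (GC (GB D.c)).HE) : Prop where
  hε : ε * ε = 1
  e1 : D.q D.lz * D.q l' = ε • (D.q D.x1 - D.q D.x2)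
  e2 : D.q D.lz ^ 2 + D.q l' ^ 2 = b • (D.q D.x1 + D.q D.x2)
  /-- `T(u2) = V + K + K'` -/
  hK : ∀ j ≤ 2 * m, K j + K' j = RB m b (rc (GB D.c) (D.q D.lz)) (rc (GB D.c) (D.q l')) (rc (GB D.c) (D.q D.x2)) j
  /-- `T(u1) = V + e^l K + e^-l K'` -/
  hL : ∀ j ≤ 2 * m, j ≠ 0 →
    ∑ a ∈ range (j + 1), (j.choose a : ℝ) • ((rc (GB D.c) (D.q D.lz)) ^ a * K (j - a)) +
      ∑ a ∈ range (j + 1), (j.choose a : ℝ) • ((-rc (GB D.c) (D.q D.lz)) ^ a * K' (j - a)) =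
      RB m b (rc (GB D.c) (D.q D.lz)) (rc (GB D.c) (D.q l')) (rc (GB D.c) (D.q D.x1)) j
  /-- the rank of `K` is `2 m - 2` -/
  rk : elc K (2 * m - 1) = 0

variable {D} {b ε : ℝ} {l' : (GB D.c).Zc} {K K' : ℕ → (GC (GB D.c)).HE}

/-- `l F = 0` in the basic cohomology -/
theorem lF (H : KD D b ε l' K K') (hm : 1 ≤ m) :
    D.q D.lz * elc (RP m b ε (D.q D.lz) (D.q l') (D.q D.x1) (D.q D.x2)) (2 * m - 1) = 0 := by
  have hK := H.hK
  have hL := H.hL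
  obtain ⟨f, hf⟩ : ∃ f, f = rc (GB D.c) := ⟨_, rfl⟩
  rw [← hf] at hK hL
  have h1 : f (D.q D.lz) * f (D.q l') = ε • (f (D.q D.x1) - f (D.q D.x2)) := by
    have h2 := congrArg f H.e1
    rw [map_mul, map_smul, map_sub] at h2
    exact h2
  have h3 := fun n (hn : n ≠ 0) (hn' : n ≤ 2 * m - 1) => RP_spec H.hε h1 hK hL n (by omega)
  have h4 := mul_elc h3 (2 * m - 1) le_rfl
  rw [H.rk, mul_zero] at h4
  have h5 : RP m b ε (f (D.q D.lz)) (f (D.q l')) (f (D.q D.x1)) (f (D.q D.x2)) =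
      fun n => f (RP m b ε (D.q D.lz) (D.q l') (D.q D.x1) (D.q D.x2) n) := by
    funext n
    rw [map_RP]
  rw [h5, ← map_elc, ← map_mul, hf] at h4
  rw [← map_zero (rc (GB D.c))] at h4
  exact (rc_inj h4).symm

/-- **F7 on an abstract space.** -/
theorem main (H : KD D b ε l' K K') (hm : 1 ≤ m) (hb : b ≠ 0) {σ : Om X} (hσ : dO X σ = D.co (D.x1 ^ m))
    (hne : D.I (D.co l' * (D.co (D.x1 ^ m) * σ)) ≠ 0) {q P : ℕ → ℝ} (hq0 : q 0 = 2) (hq1 : q 1 = 1 / 2)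
    (hq : ∀ i, q (i + 2) = q (i + 1) / 2 - q i / (4 * b ^ 2))
    (hP1 : ∀ i, P (2 * i + 1) = ((m : ℝ) + 1) * b * q (i + 1) - b)
    (hP2 : ∀ i, P (2 * i + 2) = ((m : ℝ) + 1) * q (i + 1) - 2) : elc P (2 * m - 1) = 0 := by
  obtain ⟨⟨F, hF⟩, hF'⟩ : ∃ F : {F : (GB D.c).Zc // D.q F =
      elc (RP m b ε (D.q D.lz) (D.q l') (D.q D.x1) (D.q D.x2)) (2 * m - 1)}, True := by
    obtain ⟨F, hF⟩ := Ideal.Quotient.mk_surjective
      (elc (RP m b ε (D.q D.lz) (D.q l') (D.q D.x1) (D.q D.x2)) (2 * m - 1))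
    exact ⟨⟨F, hF⟩, trivial⟩
  -- the basic primitive
  have h1 := lF H hm
  rw [← hF, ← map_mul] at h1
  obtain ⟨ζ, hζ⟩ : ∃ ζ : BasR D.c, (GB D.c).d ζ = ((D.lz * F : (GB D.c).Zc) : BasR D.c) :=
    Ideal.Quotient.eq_zero_iff_mem.1 h1
  have h2 := D.key (BasR_bas D.c ζ) (F := F) (congrArg Subtype.val hζ).symm
  -- in the cohomology of `X`
  obtain ⟨g, hg⟩ : ∃ g : (GB D.c).HE →ₐ[ℝ] (GO X).HE, g = (incB D.c).he := ⟨_, rfl⟩
  have gq : ∀ w : (GB D.c).Zc, g (D.q w) = Ideal.Quotient.mk (GO X).Ex (GHom.zc (incB D.c) w) := fun w => by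
    rw [hg]
    rfl
  have g0 : g (D.q D.lz) = 0 := by
    rw [gq, Ideal.Quotient.eq_zero_iff_mem]
    exact ⟨D.η, rfl⟩
  have g12 : g (D.q D.x2) = g (D.q D.x1) := by
    rw [gq, gq, Ideal.Quotient.eq]
    exact ⟨D.ψa, D.dψa⟩
  have gl : g (D.q l') ^ 2 = (2 * b) • g (D.q D.x1) := by
    have h3 := congrArg g H.e2
    rw [map_add, map_pow, map_pow, map_smul, map_add, g0, g12, ← two_smul ℝ, smul_smul, zero_pow two_ne_zero,
      zero_add] at h3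
    rw [h3, mul_comm]
  have h3 := congrArg g hF
  have h4 : (fun n => g (RP m b ε (D.q D.lz) (D.q l') (D.q D.x1) (D.q D.x2) n)) =
      RP m b ε 0 (g (D.q l')) (g (D.q D.x1)) (g (D.q D.x1)) := by
    funext n
    rw [map_RP, g0, g12]
  rw [map_elc, h4, elc_RP hb H.hε gl hq0 hq1 hq hP1 hP2] at h3
  have hm1 : 2 * m - 1 = 2 * (m - 1) + 1 := by omega
  have h5 : (ε • g (D.q l')) ^ (2 * m - 1) = (ε * (2 * b) ^ (m - 1)) • g (D.q (l' * D.x1 ^ (m - 1))) := by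
    rw [hm1, pow_succ, pow_mul, smul_pow, gl, pow_two ε, H.hε, one_smul, smul_pow, map_mul, map_mul, map_pow,
      map_pow, smul_mul_smul_comm]
    rw [mul_comm ε, mul_comm (g (D.q l'))]
  rw [h5, smul_smul, gq, gq] at h3
  have h6 : ∃ γ, dO X γ = D.co F - (elc P (2 * m - 1) * (ε * (2 * b) ^ (m - 1))) • D.co (l' * D.x1 ^ (m - 1)) := by
    have h7 : Ideal.Quotient.mk (GO X).Ex (GHom.zc (incB D.c) F) = Ideal.Quotient.mk (GO X).Ex
        ((elc P (2 * m - 1) * (ε * (2 * b) ^ (m - 1))) • GHom.zc (incB D.c) (l' * D.x1 ^ (m - 1))) := h3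
    rw [Ideal.Quotient.eq] at h7
    exact h7
  obtain ⟨γ, hγ⟩ := h6
  have h8 := D.I_ex γ
  rw [hγ, sub_mul, map_sub, smul_mul_assoc, map_smul, map_mul D.co l', D.I_prim (D.co_d l') (D.co_s l') hm hσ,
    smul_eq_mul] at h8
  have h9 : D.I (D.co F * (D.co D.x1 * D.σa)) = 0 := by
    rw [← mul_assoc, ← map_mul]
    exact h2
  rw [h9, zero_sub, neg_eq_zero] at h8
  have hm' : ((m : ℝ) + 1) ≠ 0 := by positivity
  have hε' : ε ≠ 0 := fun h => by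
    have := H.hε
    rw [h, zero_mul] at this
    exact zero_ne_one this
  have hb' : (2 * b) ^ (m - 1) ≠ 0 := pow_ne_zero _ (mul_ne_zero two_ne_zero hb)
  rcases mul_eq_zero.1 h8 with h | h
  · rcases mul_eq_zero.1 h with h | h
    · exact h
    · exact absurd h (mul_ne_zero hε' hb')
  · exact absurd h (mul_ne_zero hm' hne)

/-- `b < 6` -/
theorem b_lt (H : KD D b ε l' K K') (hm : 2 ≤ m) {σ : Om X} (hσ : dO X σ = D.co (D.x1 ^ m))
    (hne : D.I (D.co l' * (D.co (D.x1 ^ m) * σ)) ≠ 0) : b < 6 := by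
  by_contra h
  have hb : 6 ≤ b := not_lt.1 h
  obtain ⟨q, P, h0, h1, h2, h3, h4, h5⟩ := elc_Xi hb hm
  have hb0 : b ≠ 0 := fun h => by
    rw [h] at hb
    norm_num at hb
  exact absurd (main H (by omega) hb0 hσ hne h0 h1 h2 h3 h4) h5.ne'

end RhoD

end Pool.Agent.Lib.MP_ccbbf6_gt.L5
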