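import Pool.Agent.Lib.MP_ccbbf6_gt.L5.RHO2
import Pool.Agent.Lib.MP_ccbbf6_gt.L5.RHO5
import Pool.Agent.Lib.MP_ccbbf6_gt.L5.RHO6
import Pool.Agent.Lib.MP_ccbbf6_gt.L5.WK5

/-!
# Level 5, block RHO 7: the hypotheses of F7 from the bundles (helper5)

`KIn D H b s y y'` : the bundles `T`, `V`, `N` at the two points as matrices of invariant functions, the rotating frame
`y, y'` of `V`, helper79's `W`, `W'`;  `KIn.kd : RhoD.KD D b (-s) l' (hT (conj W)) (hT W)`,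
`KIn.co_lp : l' = f3` on the space.
-/

set_option autoImplicit false
set_option maxSynthPendingDepth 3
set_option linter.unusedSectionVars false
set_option genInjectivity false
set_option genSizeOf false
set_option genSizeOfSpec false

open Set Filter Topology Matrix
open scoped ContDiff

noncomputable section

namespace Pool.Agent.Lib.MP_ccbbf6_gt.L5

open L4 L4.FR

section gen

variable {ι κ : Type*} [Fintype ι] [DecidableEq ι] [Fintype κ] [DecidableEq κ]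

variable {A A' : Type*} [CommRing A] [Algebra ℝ A] [CommRing A'] [Algebra ℝ A'] {B B' : Type*} [Ring B] [Algebra ℝ B]
  [Ring B'] [Algebra ℝ B'] {G : GDA B} {G' : GDA B'} {φ : Fun0 A G} {φ' : Fun0 A' G'}

/-- isomorphic real bundles -/
theorem hT_riso (C : Cyl G G') {P : Matrix ι ι A} {Q : Matrix κ κ A} (hP : P * P = P) (hQ : Q * Q = Q)
    {u : Matrix ι κ A} {v : Matrix κ ι A} (h1 : u * v = P) (h2 : v * u = Q) (j : ℕ) :
    hT (φ.C.idem (cidem hQ)) j = hT (φ.C.idem (cidem hP)) j := by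
  refine hT_iso C (φ.C.idem (cidem hP)) (φ.C.idem (cidem hQ)) (a := (u.map CB.ofR).map φ.C.f)
    (b := (v.map CB.ofR).map φ.C.f) (φ.C.Ev _) (φ.C.Ev _) ?_ ?_ j
  · rw [← φ.C.mul, ← Matrix.map_mul, h1]
  · rw [← φ.C.mul, ← Matrix.map_mul, h2]

theorem hT_congrA {P Q : Matrix ι ι (CB A)} (e : P = Q) (h : P * P = P) (h' : Q * Q = Q) (j : ℕ) :
    hT (φ.C.idem h) j = hT (φ.C.idem h') j := by
  subst e
  rfl

theorem hT_rcongr {P Q : Matrix ι ι A} (e : P = Q) (h : P * P = P) (h' : Q * Q = Q) (j : ℕ) :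
    hT (φ.C.idem (cidem h)) j = hT (φ.C.idem (cidem h')) j := by
  subst e
  rfl

/-- the trace of a complexified bundle -/
theorem hT_rtrace {P : Matrix ι ι A} (hP : P * P = P) {r : ℕ} (ht : trace P = r) :
    hT (φ.C.idem (cidem hP)) 0 = r := by
  refine hT_trace _ ?_
  have h1 : trace ((P.map (CB.ofR : A →ₐ[ℝ] CB A)).map φ.C.f) = φ.C.f (CB.ofR (trace P)) := by
    unfold trace
    rw [map_sum, map_sum]
    rfl
  rw [h1, ht, map_natCast, map_natCast]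

theorem hT_caddR (C : Cyl G G') {W W' : Matrix ι ι (CB A)} (hW : W * W = W) (hW' : W' * W' = W')
    (h1 : W * W' = 0) (h2 : W' * W = 0) {P : Matrix ι ι A} (hP : P * P = P) (e : W + W' = P.map CB.ofR)
    (j : ℕ) : hT (φ.C.idem (cidem hP)) j = hT (φ.C.idem hW) j + hT (φ.C.idem hW') j := by
  have e1 : (P.map CB.ofR).map φ.C.f = W.map φ.C.f + W'.map φ.C.f := by rw [← e, φ.C.add]
  have z : (0 : Matrix ι ι (CB A)).map φ.C.f = 0 := Matrix.ext fun i j => map_zero φ.C.f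
  have h3 : W.map φ.C.f * W'.map φ.C.f = 0 := by rw [← φ.C.mul, h1, z]
  have h4 : W'.map φ.C.f * W.map φ.C.f = 0 := by rw [← φ.C.mul, h2, z]
  have hS : (GC G).Idem (W.map φ.C.f + W'.map φ.C.f) := by
    rw [← e1]
    exact φ.C.idem (cidem hP)
  rw [hT_congr e1 _ hS j]
  exact hT_add C (φ.C.idem hW) (φ.C.idem hW') hS h3 h4 j

end gen

section alg

variable {R R' : Type*} [CommRing R] [Algebra ℝ R] [CommRing R'] [Algebra ℝ R'] (f : R →ₐ[ℝ] R')

theorem al7_V {X Y : R'} {a a' l l' : R} {j : ℕ} (h2 : X = Y)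
    (h1 : Y = f a ^ j + (-f a) ^ j + (f a' ^ j + (-f a') ^ j)) (ha : a = -l) (ha' : a' = l') :
    X = 2 * (if Even j then f l ^ j + f l' ^ j else 0) := by
  rw [h2, h1, ha, ha', map_neg, neg_neg]
  split_ifs with hj
  · rw [hj.neg_pow, hj.neg_pow]
    ring
  · have hj' : Odd j := Nat.not_even_iff_odd.1 hj
    rw [hj'.neg_pow, hj'.neg_pow]
    ring

theorem al7_e1 {x l p E a b : R} {s : ℝ} (h1 : x = l) (h2 : E = l * p) (h3 : E = s • (b - a)) :
    x * p = (-s) • (a - b) := by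
  rw [h1, ← h2, h3, neg_smul, ← smul_neg, neg_sub]

theorem al7_e2 (hf : Function.Injective f) {x l p pp hP1 x1 x2 : R} {r : ℕ → R} {T : ℕ → R'} {b : ℝ}
    (hpV : pp = b • (x1 + x2)) (h1 : hP1 = pp) (h2 : hP1 = elc (fun k => (1 / 2 : ℝ) • r k) 1)
    (h3 : T (2 * 1) = f (r 1)) (h4 : ∀ j, T j = 2 * (if Even j then f l ^ j + f p ^ j else 0)) (hl : x = l) :
    x ^ 2 + p ^ 2 = b • (x1 + x2) := by
  rw [← hpV, ← h1, h2, elc_one, hl]
  apply hf
  rw [mul_one, h4, if_pos even_two] at h3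
  rw [map_smul, ← h3, map_add, map_pow, map_pow]
  obtain ⟨z, hz⟩ : ∃ z, z = f l ^ 2 + f p ^ 2 := ⟨_, rfl⟩
  rw [← hz]
  have h2 : (2 : R') * z = (2 : ℝ) • z := by
    rw [two_smul, two_mul]
  rw [h2, smul_smul]
  norm_num

theorem al7_T {T : ℕ → R'} {r : ℕ → R} {x : R} {m : ℕ} {b : ℝ} (he : ∀ i, T (2 * i) = f (r i))
    (ho : ∀ j, Odd j → T j = 0) (hr : ∀ i, i ≠ 0 → i ≤ m → r i = (2 * ss m b i) • x ^ i) {j : ℕ} (hj : j ≠ 0)
    (hj2 : j ≤ 2 * m) : T j = if Even j then (2 * ss m b (j / 2)) • f x ^ (j / 2) else 0 := by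
  split_ifs with h
  · obtain ⟨i, hi'⟩ := h
    obtain rfl : j = 2 * i := by omega
    rw [he, hr i (by omega) (by omega), map_smul, map_pow]
    have : 2 * i / 2 = i := by omega
    rw [this]
  · exact ho j (Nat.not_even_iff_odd.1 h)

theorem al7_rb {m : ℕ} {b : ℝ} {l l' u : R} {j : ℕ} (hj : j ≠ 0) :
    (if Even j then (2 * ss m b (j / 2)) • u ^ (j / 2) else 0) - 2 * (if Even j then l ^ j + l' ^ j else 0) =
      RB m b l l' u j := by
  unfold RB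
  rw [if_neg hj]
  split_ifs
  · rw [two_smul ℝ (l ^ j + l' ^ j), two_mul (l ^ j + l' ^ j)]
  · rw [mul_zero, sub_zero]

theorem al7_N {P w w' X X0 V V' : R} (hN : P = w + w') (h1 : X0 = V' + P) (h2 : X0 = X) (h3 : V' = V) :
    w' + w = X - V := by
  rw [← h2, h1, hN, h3]
  ring

theorem al7_tw {X x x' : R} {w : ℕ → R} {j : ℕ} (hx : x = x')
    (h : X = ∑ k ∈ Finset.range (j + 1), (j.choose k : R) * ((-x) ^ k * w (j - k))) :
    X = ∑ k ∈ Finset.range (j + 1), (j.choose k : ℝ) • ((-x') ^ k * w (j - k)) := by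
  rw [h, hx]
  refine Finset.sum_congr rfl fun k _ => ?_
  rw [Nat.cast_smul_eq_nsmul ℝ, nsmul_eq_mul]

/-- the algebra of `tw'` -/
theorem tw_alg {R : Type*} [CommRing R] [Algebra ℝ R] (f : R →ₐ[ℝ] R) {L : R} (hL : f L = L) {w w' : ℕ → R} (j : ℕ)
    (h : w' j = ∑ k ∈ Finset.range (j + 1), (j.choose k : ℝ) • ((-L) ^ k * w (j - k))) :
    (-1) ^ j * f (w' j) = ∑ k ∈ Finset.range (j + 1), (j.choose k : ℝ) • (L ^ k * ((-1) ^ (j - k) * f (w (j - k)))) := by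
  rw [h, map_sum, Finset.mul_sum]
  refine Finset.sum_congr rfl fun k hk => ?_
  have hk' := Finset.mem_range.1 hk
  rw [map_smul, map_mul, map_pow, map_neg, hL, mul_smul_comm]
  congr 1
  have h1 : (-1 : R) ^ j = (-1) ^ k * (-1) ^ (j - k) := by
    rw [← pow_add]
    congr 1
    omega
  have h2 : (-1 : R) ^ k * (-L) ^ k = L ^ k := by
    rw [← mul_pow, neg_one_mul, neg_neg]
  rw [h1, ← h2]
  ring

theorem al7_tw' (g : R →ₐ[ℝ] R) {L X : R} (hL : g L = L) {w w' c : ℕ → R} {j : ℕ} (h0 : X = (-1) ^ j * g (w' j))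
    (h : w' j = ∑ k ∈ Finset.range (j + 1), (j.choose k : ℝ) • ((-L) ^ k * w (j - k)))
    (hc : ∀ i, c i = (-1) ^ i * g (w i)) :
    X = ∑ k ∈ Finset.range (j + 1), (j.choose k : ℝ) • (L ^ k * c (j - k)) := by
  rw [h0, tw_alg g hL j h]
  exact Finset.sum_congr rfl fun k _ => by rw [hc]

theorem al7_hK {m : ℕ} {b : ℝ} {w w' T V : ℕ → R} {l l' u : R} (hN : ∀ j, w' j + w j = T j - V j)
    (hV : ∀ j, V j = 2 * (if Even j then l ^ j + l' ^ j else 0))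
    (hT : ∀ j, j ≠ 0 → j ≤ 2 * m → T j = if Even j then (2 * ss m b (j / 2)) • u ^ (j / 2) else 0)
    (h0 : T 0 = ((4 * m : ℕ) : R)) {j : ℕ} (hj : j ≤ 2 * m) : w' j + w j = RB m b l l' u j := by
  rw [hN, hV]
  rcases Nat.eq_zero_or_pos j with rfl | hj0
  · rw [h0, if_pos (Nat.even_iff.2 rfl)]
    unfold RB
    rw [if_pos rfl, pow_zero, pow_zero, map_sub, map_mul, map_ofNat, map_natCast]
    push_cast
    ring
  · rw [hT j (by omega) hj, al7_rb (by omega)]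

theorem al7_hL {m : ℕ} {b : ℝ} {w w' W W' T V : ℕ → R} {l l' u : R} {j : ℕ}
    (h1 : W' j = ∑ k ∈ Finset.range (j + 1), (j.choose k : ℝ) • (l ^ k * w' (j - k)))
    (h2 : W j = ∑ k ∈ Finset.range (j + 1), (j.choose k : ℝ) • ((-l) ^ k * w (j - k))) (hN : W' j + W j = T j - V j)
    (hV : V j = 2 * (if Even j then l ^ j + l' ^ j else 0))
    (hT : T j = if Even j then (2 * ss m b (j / 2)) • u ^ (j / 2) else 0) (hj0 : j ≠ 0) :
    ∑ k ∈ Finset.range (j + 1), (j.choose k : ℝ) • (l ^ k * w' (j - k)) +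
      ∑ k ∈ Finset.range (j + 1), (j.choose k : ℝ) • ((-l) ^ k * w (j - k)) = RB m b l l' u j := by
  rw [← h1, ← h2, hN, hV, hT, al7_rb hj0]

end alg

/-- the bundles of the `ρ` side: the matrices -/
structure KIa (S : Type*) [CommRing S] {N : ℕ} (QM PM : Matrix (Fin N) (Fin N) S) (r : ℕ) where
  /-- the tangent space at `p` -/
  TP : Matrix (Fin N) (Fin N) S
  /-- `V` at `p` -/
  VP : Matrix (Fin N) (Fin N) S
  /-- the tangent space at `q` -/
  TQ : Matrix (Fin N) (Fin N) S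
  /-- `V` at `q` -/
  VQ : Matrix (Fin N) (Fin N) S
  oV : (Fin 4 → Fin N) → S
  hV : Or 4 VP oV
  iTP : TP * TP = TP
  sTP : TPᵀ = TP
  iTQ : TQ * TQ = TQ
  sTQ : TQᵀ = TQ
  iVQ : VQ * VQ = VQ
  dP : VP + QM = TP
  dP1 : VP * QM = 0
  dP2 : QM * VP = 0
  dQ : VQ + PM = TQ
  dQ1 : VQ * PM = 0
  dQ2 : PM * VQ = 0
  u : Matrix (Fin N) (Fin N) S
  v : Matrix (Fin N) (Fin N) S
  uv : u * v = VP
  vu : v * u = VQ
  tQ : trace TQ = (r : S)

/-- the classes -/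
structure KIc (R : Type*) [CommRing R] [Algebra ℝ R] (m : ℕ) (b s : ℝ) (x1 x2 e p : R) (rp rq : ℕ → R) : Prop where
  s1 : s * s = 1
  eV : e = s • (x2 - x1)
  pV : p = b • (x1 + x2)
  rP : ∀ i, i ≠ 0 → i ≤ m → rp i = (2 * ss m b i) • x1 ^ i
  rQ : ∀ i, i ≠ 0 → i ≤ m → rq i = (2 * ss m b i) • x2 ^ i

/-- the bundles of the `ρ` side -/
structure KIn {X : Space} {m : ℕ} (D : RhoD X m) {N : ℕ} (H : WK.WD X D.c N) (b s : ℝ) (y y' : Fin N → SF X)
    extends KIa (SB D.c) H.QM H.PM (4 * m) where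
  h : RotF D.c y y'
  hη : D.η = ηF y y'
  sy : Sec (VP.map (SB D.c).val) y
  sy' : Sec (VP.map (SB D.c).val) y'
  rkW : ∀ x, Module.finrank ℝ (LinearMap.range (H.P x : EuclideanSpace ℝ (Fin N) →ₗ[ℝ] EuclideanSpace ℝ (Fin N))) +
    4 = 4 * m
  cl : KIc (GB D.c).HE m b s (D.q D.x1) (D.q D.x2) (hE (FB D.c) hV) (hp1 (FB D.c) hV.idem) (hR (FB D.c) iTP)
    (hR (FB D.c) iTQ)

namespace KIn

variable {X : Space} {m : ℕ} {D : RhoD X m} {N : ℕ} {H : WK.WD X D.c N} {b s : ℝ} {y y' : Fin N → SF X}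
  (K : KIn D H b s y y')

theorem lz : D.q D.lz = K.h.ec :=
  congrArg (Ideal.Quotient.mk (GB D.c).Ex) (Subtype.ext (Subtype.ext (congrArg (dO X) K.hη)))

/-- the complement of the frame -/
def P' : Matrix (Fin N) (Fin N) (SB D.c) := K.VP - K.h.E

/-- its orientation -/
def o' (I : Fin 2 → Fin N) : SB D.c := (1 / 2 : ℝ) • ∑ a, ∑ e, K.h.o ![a, e] * K.oV ![a, e, I 0, I 1]

theorem o'_val (I : Fin 2 → Fin N) :
    (SB D.c).val (K.o' I) = redo (redo (fun I => (SB D.c).val (K.oV I)) y) y' I := by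
  rw [redo2]
  unfold o'
  rw [map_smul, map_sum]
  simp only [map_sum, map_mul]
  have e1 : ∀ a e, (SB D.c).val (K.h.o ![a, e]) * (SB D.c).val (K.oV ![a, e, I 0, I 1]) =
      y a * (y' e * (SB D.c).val (K.oV ![a, e, I 0, I 1])) +
        y e * (y' a * (SB D.c).val (K.oV ![e, a, I 0, I 1])) := by
    intro a e
    have h1 := K.hV.alt (Equiv.swap 0 1) ![a, e, I 0, I 1]
    rw [Equiv.Perm.sign_swap (by decide)] at h1
    have h2 : (![a, e, I 0, I 1] ∘ Equiv.swap (0 : Fin 4) 1 : Fin 4 → Fin N) = ![e, a, I 0, I 1] := by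
      funext k
      revert k
      exact fin4 rfl rfl rfl rfl
    rw [h2] at h1
    rw [h1]
    simp only [Units.val_neg, Units.val_one, Int.cast_neg, Int.cast_one, neg_mul, one_mul, map_neg]
    change (y a * y' e - y' a * y e) * _ = _
    ring
  simp only [e1, Finset.sum_add_distrib]
  obtain ⟨S, hS⟩ : ∃ S, S = ∑ a, ∑ e, y a * (y' e * (SB D.c).val (K.oV ![a, e, I 0, I 1])) := ⟨_, rfl⟩
  have e2 : ∑ a, ∑ e, y e * (y' a * (SB D.c).val (K.oV ![e, a, I 0, I 1])) = S := by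
    rw [hS, Finset.sum_comm]
  rw [e2, ← hS, ← two_smul ℝ S, smul_smul]
  norm_num

theorem P'_val : K.P'.map (SB D.c).val = redP (redP (K.VP.map (SB D.c).val) y) y' := by
  rw [redP_redP]
  rfl

theorem or' : Or 2 K.P' K.o' := by
  refine Or.of_inj ((SB D.c).val : SB D.c →+* SF X) Subtype.val_injective ?_
  have h1 := (K.hV.map' ((SB D.c).val : SB D.c →+* SF X)).red2 K.sy K.sy' K.h.n3
  have e1 : (fun I => ((SB D.c).val : SB D.c →+* SF X) (K.o' I)) =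
      redo (redo (fun I => ((SB D.c).val : SB D.c →+* SF X) (K.oV I)) y) y' := funext fun I => K.o'_val I
  rw [e1]
  have e2 : K.P'.map ((SB D.c).val : SB D.c →+* SF X) =
      redP (redP (K.VP.map ((SB D.c).val : SB D.c →+* SF X)) y) y' := K.P'_val
  rw [e2]
  exact h1

/-- the Euler form of the complement -/
def lp : (GB D.c).Zc := ⟨eu2 (FB D.c) K.P' K.o', s_eu2 K.or'.idem, d_eu2 K.or'⟩

theorem q_lp : D.q K.lp = hE2 (FB D.c) K.or' := rfl

/-- the form `l'` on the space -/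
theorem co_lp : D.co K.lp = f3 (FO X) (redP (K.VP.map (SB D.c).val) y) (redo (fun I => (SB D.c).val (K.oV I)) y) y' := by
  have h1 : D.co K.lp = (FHom.inc D.c).h.f (eu2 (FB D.c) K.P' K.o') := rfl
  rw [h1, FHom.eu2]
  unfold f3
  have e1 : (fun I => (FHom.inc D.c).g (K.o' I)) =
      redo (redo (fun I => (SB D.c).val (K.oV I)) y) y' := funext fun I => K.o'_val I
  rw [e1]
  have e2 : K.P'.map (FHom.inc D.c).g = redP (redP (K.VP.map (SB D.c).val) y) y' := K.P'_val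
  rw [e2]

theorem SBm {M M' : Matrix (Fin N) (Fin N) (SB D.c)} (e : M.map (SB D.c).val = M'.map (SB D.c).val) : M = M' :=
  Matrix.ext fun i j => Subtype.ext (congrFun (congrFun e i) j)

theorem E_P' : K.h.E * K.P' = 0 := by
  refine SBm ?_
  rw [Matrix.map_mul, K.P'_val]
  exact fP_red (A := SF X) (K.hV.map' ((SB D.c).val : SB D.c →+* SF X)).sym K.sy K.sy' K.h.n3

theorem P'_E : K.P' * K.h.E = 0 := by
  refine SBm ?_
  rw [Matrix.map_mul, K.P'_val]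
  exact red_fP K.sy K.sy' K.h.n3

theorem add : K.h.E + K.P' = K.VP := add_sub_cancel _ _

theorem or4 : Or 4 (K.h.E + K.P') K.oV := by
  rw [K.add]
  exact K.hV

/-- `e(V) = [dη] e(L')` -/
theorem hE_V : hE (FB D.c) K.hV = K.h.ec * D.q K.lp := by
  have hw : ∑ I, K.oV I * (K.h.o ![I 0, I 1] * K.o' ![I 2, I 3]) = 4 := by
    refine hw_of_inj ((SB D.c).val : SB D.c →+* SF X) Subtype.val_injective ?_
    have h1 := hw_frame (K.hV.map' ((SB D.c).val : SB D.c →+* SF X)) K.sy K.sy' K.h.n3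
    rw [← h1]
    refine Finset.sum_congr rfl fun I _ => ?_
    congr 1
    have h2 : ((SB D.c).val : SB D.c →+* SF X) (K.o' ![I 2, I 3]) = redo (redo (fun I => (SB D.c).val (K.oV I)) y) y'
      ![I 2, I 3] := K.o'_val _
    rw [h2]
    rfl
  have h1 := hE_split (φ := FB D.c) (FCylB D.c) K.or4 K.h.or K.or' K.E_P' K.P'_E hw
  rw [K.h.hE2, ← K.q_lp, neg_mul, neg_neg] at h1
  rw [← h1]
  exact L5.hE_congr K.add.symm rfl _ _

/-- the classes of `V` -/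
theorem hT_V (j : ℕ) : hT ((FB D.c).C.idem (cidem K.hV.idem)) j =
    2 * (if Even j then rc (GB D.c) K.h.ec ^ j + rc (GB D.c) (D.q K.lp) ^ j else 0) :=
  al7_V (rc (GB D.c)) (hT_rcongr K.add.symm K.hV.idem K.or4.idem j)
    (hT_four (φ := FB D.c) (CylB D.c) K.h.or K.or' K.or4.idem K.E_P' K.P'_E j) K.h.hE2 K.q_lp.symm

theorem hT_V' (j : ℕ) : hT ((FB D.c).C.idem (cidem K.hV.idem)) j =
    2 * (if Even j then rc (GB D.c) (D.q D.lz) ^ j + rc (GB D.c) (D.q K.lp) ^ j else 0) := by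
  rw [K.lz]
  exact K.hT_V j

theorem e1 : D.q D.lz * D.q K.lp = (-s) • (D.q D.x1 - D.q D.x2) := al7_e1 K.lz K.hE_V K.cl.eV

theorem e2 : D.q D.lz ^ 2 + D.q K.lp ^ 2 = b • (D.q D.x1 + D.q D.x2) :=
  al7_e2 (rc (GB D.c)) rc_inj K.cl.pV (hP_one K.hV.idem K.hV.sym) (hP_eq_hR K.hV.idem K.hV.sym 1)
    (hT_even (φ := FB D.c) K.hV.idem 1) K.hT_V K.lz

/-- the classes of `T` -/
theorem hT_T {T : Matrix (Fin N) (Fin N) (SB D.c)} (hi : T * T = T) (hs : Tᵀ = T) {x : (GB D.c).HE}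
    (hr : ∀ i, i ≠ 0 → i ≤ m → hR (FB D.c) hi i = (2 * ss m b i) • x ^ i) {j : ℕ} (hj : j ≠ 0) (hj2 : j ≤ 2 * m) :
    hT ((FB D.c).C.idem (cidem hi)) j = if Even j then (2 * ss m b (j / 2)) • rc (GB D.c) x ^ (j / 2) else 0 :=
  al7_T (rc (GB D.c)) (hT_even hi) (fun _ => hT_odd hi hs) hr hj hj2

/-- the classes of `N` at `q` -/
theorem hN_Q (j : ℕ) : hT ((FB D.c).C.idem (cj_idem H.W_W)) j + hT ((FB D.c).C.idem H.W_W) j =
    hT ((FB D.c).C.idem (cidem K.iTQ)) j - hT ((FB D.c).C.idem (cidem K.hV.idem)) j := by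
  have h0 : (K.VQ + H.PM) * (K.VQ + H.PM) = K.VQ + H.PM := by rw [K.dQ, K.iTQ]
  exact al7_N (hT_caddR (CylB D.c) H.W_W (cj_idem H.W_W) H.W_conj H.conj_W H.PM_PM H.W_add j)
    (hT_radd (φ := FB D.c) (CylB D.c) K.iVQ H.PM_PM h0 K.dQ1 K.dQ2 j)
    (hT_rcongr K.dQ h0 K.iTQ j)
    (hT_riso (CylB D.c) K.hV.idem K.iVQ K.uv K.vu j)

/-- the classes of `N` at `p` -/
theorem hN_P (j : ℕ) : hT ((FB D.c).C.idem (cj_idem H.W'_W')) j + hT ((FB D.c).C.idem H.W'_W') j =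
    hT ((FB D.c).C.idem (cidem K.iTP)) j - hT ((FB D.c).C.idem (cidem K.hV.idem)) j := by
  have h0 : (K.VP + H.QM) * (K.VP + H.QM) = K.VP + H.QM := by rw [K.dP, K.iTP]
  exact al7_N (hT_caddR (CylB D.c) H.W'_W' (cj_idem H.W'_W') H.W'_conj H.conj_W' H.QM_QM H.W'_add j)
    (hT_radd (φ := FB D.c) (CylB D.c) K.hV.idem H.QM_QM h0 K.dP1 K.dP2 j)
    (hT_rcongr K.dP h0 K.iTP j) rfl

include K in
/-- the twisted isomorphism -/
theorem tw (j : ℕ) : hT ((FB D.c).C.idem H.W'_W') j = ∑ k ∈ Finset.range (j + 1), (j.choose k : ℝ) •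
      ((-rc (GB D.c) (D.q D.lz)) ^ k * hT ((FB D.c).C.idem H.W_W) (j - k)) :=
  al7_tw (w := fun i => hT ((FB D.c).C.idem H.W_W) i) (congrArg (rc (GB D.c)) K.lz.symm)
    (K.h.twist H.W_W H.W'_W' H.a_b H.b_a H.a_rot H.b_rot j)

include K in
/-- the conjugate twisted isomorphism -/
theorem tw' (j : ℕ) : hT ((FB D.c).C.idem (cj_idem H.W'_W')) j = ∑ k ∈ Finset.range (j + 1), (j.choose k : ℝ) •
      ((rc (GB D.c) (D.q D.lz)) ^ k * hT ((FB D.c).C.idem (cj_idem H.W_W)) (j - k)) :=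
  al7_tw' (GHom.conj (GB D.c)).he (conj_rc (D.q D.lz)) (w := fun j => hT ((FB D.c).C.idem H.W_W) j)
    (w' := fun j => hT ((FB D.c).C.idem H.W'_W') j) (c := fun j => hT ((FB D.c).C.idem (cj_idem H.W_W)) j)
    (hT_cj H.W'_W' j) (K.tw j) fun i => hT_cj H.W_W i

/-- **the hypotheses of F7** -/
theorem kd (hm : 1 ≤ m) : RhoD.KD D b (-s) K.lp (fun j => hT ((FB D.c).C.idem (cj_idem H.W_W)) j)
    (fun j => hT ((FB D.c).C.idem H.W_W) j) where
  hε := by rw [neg_mul_neg, K.cl.s1]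
  e1 := K.e1
  e2 := K.e2
  hK j hj := al7_hK (T := fun j => hT ((FB D.c).C.idem (cidem K.iTQ)) j)
    (V := fun j => hT ((FB D.c).C.idem (cidem K.hV.idem)) j) K.hN_Q K.hT_V'
    (fun j h0 hj => hT_T K.iTQ K.sTQ K.cl.rQ h0 hj) (hT_rtrace K.iTQ K.tQ) hj
  hL j hj h0 := al7_hL (W := fun j => hT ((FB D.c).C.idem H.W'_W') j) (W' := fun j => hT ((FB D.c).C.idem (cj_idem H.W'_W')) j)
    (T := fun j => hT ((FB D.c).C.idem (cidem K.iTP)) j) (V := fun j => hT ((FB D.c).C.idem (cidem K.hV.idem)) j)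
    (K.tw' j) (K.tw j) (K.hN_P j) (K.hT_V' j) (hT_T K.iTP K.sTP K.cl.rP h0 hj) h0
  rk := by
    refine elc_cj H.W_W (elc_rank H.W_W (r := 2 * m - 2) (fun x => ?_) (by omega))
    have h1 := H.rank_W x
    have h2 := K.rkW x
    omega

end KIn

end Pool.Agent.Lib.MP_ccbbf6_gt.L5
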