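import Pool.Agent.Lib.MP_ccbbf6_gt.ML

/-! # SPE1: smooth square root of positive definite operators (inverse function theorem).
`F` a finite-dimensional real inner product space. -/

noncomputable section
open scoped ContDiff Topology InnerProductSpace
open Filter Module

namespace Pool.Agent.Lib.MP_ccbbf6_gt.L5.SPE

set_option linter.unusedSectionVars false
set_option linter.deprecated false
variable {F : Type*} [NormedAddCommGroup F] [InnerProductSpace ℝ F] [FiniteDimensional ℝ F]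

/-- symmetric operators -/
def Sy (A : F →L[ℝ] F) : Prop := ∀ x y : F, ⟪A x, y⟫_ℝ = ⟪x, A y⟫_ℝ

/-- positive definite -/
def Pd (A : F →L[ℝ] F) : Prop := ∀ x : F, x ≠ 0 → 0 < ⟪A x, x⟫_ℝ

theorem Sy.isSymmetric {A : F →L[ℝ] F} (h : Sy A) : (A : F →ₗ[ℝ] F).IsSymmetric := h

/-- the Sylvester operator of a positive definite symmetric operator is injective -/
theorem sylv {S H : F →L[ℝ] F} (hs : Sy S) (hp : Pd S) (h : S * H + H * S = 0) : H = 0 := by
  have hsym := hs.isSymmetric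
  let b := hsym.eigenvectorBasis rfl
  have hb : ∀ i, H (b i) = 0 := by
    intro i
    have e1 : S (b i) = (hsym.eigenvalues rfl i : ℝ) • b i := hsym.apply_eigenvectorBasis rfl i
    have e2 := congrArg (fun T : F →L[ℝ] F => T (b i)) h
    simp only [ContinuousLinearMap.add_apply, ContinuousLinearMap.mul_apply,
      ContinuousLinearMap.zero_apply] at e2
    rw [e1, map_smul] at e2
    by_contra hne
    have h1 := hp (H (b i)) hne
    have h2 := hp (b i) (b.orthonormal.ne_zero i)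
    rw [e1, inner_smul_left] at h2
    have h3 : ⟪b i, b i⟫_ℝ = 1 := by
      rw [real_inner_self_eq_norm_sq, b.orthonormal.1 i]; norm_num
    rw [h3] at h2
    have h4 : S (H (b i)) = -((hsym.eigenvalues rfl i : ℝ) • H (b i)) := by
      exact eq_neg_of_add_eq_zero_left e2
    rw [h4, inner_neg_left, inner_smul_left] at h1
    have h5 : 0 ≤ ⟪H (b i), H (b i)⟫_ℝ := real_inner_self_nonneg
    simp only [conj_trivial] at h1 h2
    nlinarith
  have : (H : F →ₗ[ℝ] F) = 0 := by
    refine b.toBasis.ext ?_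
    intro i
    simpa using hb i
  ext x
  have := congrArg (fun T : F →ₗ[ℝ] F => T x) this
  simpa using this

/-- the square map and its derivative -/
theorem hasStrictFDerivAt_sq (S : F →L[ℝ] F) :
    HasStrictFDerivAt (fun T : F →L[ℝ] F => T * T)
      (ContinuousLinearMap.mul ℝ (F →L[ℝ] F) S
        + (ContinuousLinearMap.mul ℝ (F →L[ℝ] F)).flip S) S := by
  have h := (hasStrictFDerivAt_id (𝕜 := ℝ) S).mul' (hasStrictFDerivAt_id (𝕜 := ℝ) S)
  refine h.congr_fderiv ?_
  ext H x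
  simp

theorem contDiff_sq : ContDiff ℝ ∞ (fun T : F →L[ℝ] F => T * T) := contDiff_id.mul contDiff_id

/-- the derivative of the square map at a positive definite operator as an isomorphism -/
def sylvE {S : F →L[ℝ] F} (hs : Sy S) (hp : Pd S) : (F →L[ℝ] F) ≃L[ℝ] (F →L[ℝ] F) :=
  (LinearEquiv.ofInjectiveEndo
    ((ContinuousLinearMap.mul ℝ (F →L[ℝ] F) S
        + (ContinuousLinearMap.mul ℝ (F →L[ℝ] F)).flip S : (F →L[ℝ] F) →L[ℝ] (F →L[ℝ] F)) :
          (F →L[ℝ] F) →ₗ[ℝ] (F →L[ℝ] F))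
    (by
      rw [injective_iff_map_eq_zero]
      intro H hH
      exact sylv hs hp (by simpa using hH))).toContinuousLinearEquiv

theorem sylvE_coe {S : F →L[ℝ] F} (hs : Sy S) (hp : Pd S) :
    ((sylvE hs hp : (F →L[ℝ] F) ≃L[ℝ] (F →L[ℝ] F)) : (F →L[ℝ] F) →L[ℝ] (F →L[ℝ] F))
      = ContinuousLinearMap.mul ℝ (F →L[ℝ] F) S
        + (ContinuousLinearMap.mul ℝ (F →L[ℝ] F)).flip S := by
  ext H x
  simp [sylvE]

/-- smooth local inverse of the square map -/
theorem exists_sqrt {S : F →L[ℝ] F} (hs : Sy S) (hp : Pd S) :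
    ∃ g : (F →L[ℝ] F) → (F →L[ℝ] F), ContDiffAt ℝ ∞ g (S * S) ∧ g (S * S) = S
      ∧ (∀ᶠ M in 𝓝 (S * S), g M * g M = M) ∧ (∀ᶠ T in 𝓝 S, g (T * T) = T) := by
  have h1 : HasStrictFDerivAt (fun T : F →L[ℝ] F => T * T)
      ((sylvE hs hp : (F →L[ℝ] F) ≃L[ℝ] (F →L[ℝ] F)) : (F →L[ℝ] F) →L[ℝ] (F →L[ℝ] F)) S := by
    rw [sylvE_coe]; exact hasStrictFDerivAt_sq S
  have h2 : ContDiffAt ℝ ∞ (fun T : F →L[ℝ] F => T * T) S := contDiff_sq.contDiffAt
  refine ⟨h1.localInverse _ _ _, ?_, h1.localInverse_apply_image, h1.eventually_right_inverse,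
    h1.eventually_left_inverse⟩
  exact h2.to_localInverse h1.hasFDerivAt (by simp)

end Pool.Agent.Lib.MP_ccbbf6_gt.L5.SPE
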