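import Pool.Agent.Lib.MP_ccbbf6_gt.L5.SPE1

/-! # SPE2: the spectral projection `pp A` on the positive part of a symmetric operator:
existence, uniqueness, rank, and smooth dependence when there is a gap. -/

noncomputable section
open scoped ContDiff Topology InnerProductSpace
open Filter Module

namespace Pool.Agent.Lib.MP_ccbbf6_gt.L5.SPE

set_option linter.unusedSectionVars false
set_option linter.deprecated false
variable {F : Type*} [NormedAddCommGroup F] [InnerProductSpace ℝ F] [FiniteDimensional ℝ F]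

/-- `P` is the orthogonal projection on the positive spectral part of `A` -/
structure IsPP (A P : F →L[ℝ] F) : Prop where
  sym : Sy P
  idem : ∀ x, P (P x) = P x
  comm : ∀ x, A (P x) = P (A x)
  pos : ∀ x, P x = x → x ≠ 0 → 0 < ⟪A x, x⟫_ℝ
  nonpos : ∀ x, P x = 0 → ⟪A x, x⟫_ℝ ≤ 0

/-- orthogonality of range and kernel -/
theorem IsPP.orth {A P : F →L[ℝ] F} (h : IsPP A P) {y z : F} (hy : P y = y) (hz : P z = 0) :
    ⟪y, z⟫_ℝ = 0 := by
  rw [← hy, h.sym y z, hz, inner_zero_right]

theorem IsPP.sub_ker {A P : F →L[ℝ] F} (h : IsPP A P) (x : F) : P (x - P x) = 0 := by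
  rw [map_sub, h.idem, sub_self]

/-- on an eigenvector -/
theorem IsPP.eig {A P : F →L[ℝ] F} (h : IsPP A P) {x : F} {l : ℝ} (hx : A x = l • x) :
    P x = if 0 < l then x else 0 := by
  split_ifs with hl
  · by_contra hne
    have h0 : x - P x ≠ 0 := fun h0 => hne (sub_eq_zero.1 h0).symm
    have h1 := h.nonpos (x - P x) (h.sub_ker x)
    have h2 : A (x - P x) = l • (x - P x) := by
      rw [map_sub, h.comm, hx, map_smul, smul_sub]
    rw [h2, inner_smul_left, real_inner_self_eq_norm_sq] at h1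
    have h3 : 0 < ‖x - P x‖ := norm_pos_iff.2 h0
    simp only [conj_trivial] at h1
    nlinarith [mul_pos hl (mul_pos h3 h3)]
  · by_contra hne
    have h1 := h.pos (P x) (h.idem x) hne
    rw [h.comm, hx, map_smul, inner_smul_left, real_inner_self_eq_norm_sq] at h1
    simp only [conj_trivial] at h1
    have h3 : 0 < ‖P x‖ ^ 2 := by positivity
    push Not at hl
    nlinarith

/-- uniqueness -/
theorem IsPP.unique {A P P' : F →L[ℝ] F} (hA : Sy A) (h : IsPP A P) (h' : IsPP A P') :
    P = P' := by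
  have hsym := hA.isSymmetric
  let b := hsym.eigenvectorBasis rfl
  have hb : ∀ i, P (b i) = P' (b i) := by
    intro i
    have e1 : A (b i) = (hsym.eigenvalues rfl i : ℝ) • b i := hsym.apply_eigenvectorBasis rfl i
    rw [h.eig e1, h'.eig e1]
  have : (P : F →ₗ[ℝ] F) = (P' : F →ₗ[ℝ] F) := by
    refine b.toBasis.ext ?_
    intro i
    simpa using hb i
  ext x
  have := congrArg (fun T : F →ₗ[ℝ] F => T x) this
  simpa using this

/-- existence -/
theorem IsPP.exists {A : F →L[ℝ] F} (hA : Sy A) : ∃ P, IsPP A P := by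
  have hsym := hA.isSymmetric
  let b := hsym.eigenvectorBasis rfl
  let l : Fin (finrank ℝ F) → ℝ := hsym.eigenvalues rfl
  have e1 : ∀ i, A (b i) = l i • b i := fun i => hsym.apply_eigenvectorBasis rfl i
  let P0 : F →ₗ[ℝ] F := b.toBasis.constr ℝ (fun i => if 0 < l i then b i else 0)
  let P : F →L[ℝ] F := LinearMap.toContinuousLinearMap P0
  have hP : ∀ i, P (b i) = if 0 < l i then b i else 0 := by
    intro i
    have := b.toBasis.constr_basis ℝ (fun i => if 0 < l i then b i else 0) i
    simpa [P, P0] using this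
  have hPx : ∀ x i, ⟪b i, P x⟫_ℝ = if 0 < l i then ⟪b i, x⟫_ℝ else 0 := by
    intro x i
    conv_lhs => rw [← b.sum_repr x]
    rw [map_sum, inner_sum]
    rw [Finset.sum_eq_single i]
    · rw [map_smul, hP, inner_smul_right, b.repr_apply_apply]
      split_ifs
      · have : ⟪b i, b i⟫_ℝ = 1 := by
          rw [real_inner_self_eq_norm_sq, b.orthonormal.1 i]; norm_num
        rw [this, mul_one]
      · simp
    · intro j _ hj
      rw [map_smul, hP, inner_smul_right]
      split_ifs
      · rw [b.orthonormal.2 hj.symm, mul_zero]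
      · simp
    · intro h; exact absurd (Finset.mem_univ i) h
  have hAx : ∀ x i, ⟪b i, A x⟫_ℝ = l i * ⟪b i, x⟫_ℝ := by
    intro x i
    rw [← hA (b i) x, e1, inner_smul_left]; simp
  have hext : ∀ x y : F, (∀ i, ⟪b i, x⟫_ℝ = ⟪b i, y⟫_ℝ) → x = y := by
    intro x y h
    refine b.repr.injective ?_
    ext i
    rw [b.repr_apply_apply, b.repr_apply_apply, h i]
  have hin : ∀ x y : F, ⟪x, y⟫_ℝ = ∑ i, ⟪b i, x⟫_ℝ * ⟪b i, y⟫_ℝ := by
    intro x y
    rw [← b.sum_inner_mul_inner x y]
    refine Finset.sum_congr rfl fun i _ => ?_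
    rw [real_inner_comm (b i) x]
  refine ⟨P, ?_, ?_, ?_, ?_, ?_⟩
  · intro x y
    rw [hin, hin]
    refine Finset.sum_congr rfl fun i _ => ?_
    rw [hPx, hPx]; split_ifs <;> ring
  · intro x
    refine hext _ _ fun i => ?_
    rw [hPx, hPx]; split_ifs <;> rfl
  · intro x
    refine hext _ _ fun i => ?_
    rw [hAx, hPx, hPx, hAx]; split_ifs <;> simp
  · intro x hx hx0
    have h1 : ∀ i, ¬ 0 < l i → ⟪b i, x⟫_ℝ = 0 := by
      intro i hi
      have := hPx x i
      rw [hx, if_neg hi] at this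
      exact this
    have h2 : ⟪A x, x⟫_ℝ = ∑ i, l i * ⟪b i, x⟫_ℝ ^ 2 := by
      rw [hin]
      refine Finset.sum_congr rfl fun i _ => ?_
      rw [hAx]; ring
    rw [h2]
    have h3 : ∃ i, ⟪b i, x⟫_ℝ ≠ 0 := by
      by_contra hcon
      push Not at hcon
      exact hx0 (hext x 0 fun i => by rw [hcon i, inner_zero_right])
    obtain ⟨i, hi⟩ := h3
    refine Finset.sum_pos' ?_ ⟨i, Finset.mem_univ i, ?_⟩
    · intro j _
      by_cases hj : 0 < l j
      · positivity
      · rw [h1 j hj]; simp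
    · have : 0 < l i := by
        by_contra hc
        exact hi (h1 i hc)
      positivity
  · intro x hx
    have h1 : ∀ i, 0 < l i → ⟪b i, x⟫_ℝ = 0 := by
      intro i hi
      have := hPx x i
      rw [hx, if_pos hi, inner_zero_right] at this
      exact this.symm
    have h2 : ⟪A x, x⟫_ℝ = ∑ i, l i * ⟪b i, x⟫_ℝ ^ 2 := by
      rw [hin]
      refine Finset.sum_congr rfl fun i _ => ?_
      rw [hAx]; ring
    rw [h2]
    refine Finset.sum_nonpos fun i _ => ?_
    by_cases hi : 0 < l i
    · rw [h1 i hi]; simp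
    · push Not at hi
      exact mul_nonpos_of_nonpos_of_nonneg hi (sq_nonneg _)

/-- the spectral projection on the positive part (junk value `0` if `A` is not symmetric) -/
def pp (A : F →L[ℝ] F) : F →L[ℝ] F := by
  classical
  exact if h : ∃ P, IsPP A P then h.choose else 0

theorem isPP_pp {A : F →L[ℝ] F} (hA : Sy A) : IsPP A (pp A) := by
  have h := IsPP.exists hA
  have : pp A = h.choose := by
    unfold pp
    rw [dif_pos h]
  rw [this]
  exact h.choose_spec

theorem pp_eq {A P : F →L[ℝ] F} (hA : Sy A) (h : IsPP A P) : pp A = P :=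
  (isPP_pp hA).unique hA h

/-- the gap lemma: from the shifted operator to the operator -/
theorem IsPP.gap {A P : F →L[ℝ] F} {d : ℝ} (hd : 0 < d) {k : ℕ}
    (h : IsPP (A - (d / 2) • ContinuousLinearMap.id ℝ F) P)
    (h1 : ∃ V : Submodule ℝ F, k ≤ finrank ℝ V ∧ ∀ x ∈ V, d * ‖x‖ ^ 2 ≤ ⟪A x, x⟫_ℝ)
    (h2 : ∀ V : Submodule ℝ F, (∀ x ∈ V, x ≠ 0 → 0 < ⟪A x, x⟫_ℝ) → finrank ℝ V ≤ k) :
    IsPP A P ∧ finrank ℝ (LinearMap.range (P : F →ₗ[ℝ] F)) = k
      ∧ ∀ x, P x = 0 → ⟪(A - (d / 2) • ContinuousLinearMap.id ℝ F) x, x⟫_ℝ ≤ -(d / 2) * ‖x‖ ^ 2 := by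
  have hB : ∀ x, ⟪(A - (d / 2) • ContinuousLinearMap.id ℝ F) x, x⟫_ℝ
      = ⟪A x, x⟫_ℝ - d / 2 * ‖x‖ ^ 2 := by
    intro x
    simp [inner_sub_left, inner_smul_left]
  have hcomm : ∀ x, A (P x) = P (A x) := by
    intro x
    have := h.comm x
    simpa using this
  have hpos : ∀ x, P x = x → x ≠ 0 → 0 < ⟪A x, x⟫_ℝ := by
    intro x hx hx0
    have := h.pos x hx hx0
    rw [hB] at this
    have h3 : 0 < ‖x‖ ^ 2 := by have := norm_pos_iff.2 hx0; positivity
    nlinarith
  set R := LinearMap.range (P : F →ₗ[ℝ] F) with hR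
  have hRm : ∀ x, x ∈ R ↔ P x = x := by
    intro x
    constructor
    · rintro ⟨y, rfl⟩
      exact h.idem y
    · intro hx; exact ⟨x, hx⟩
  have hRk : finrank ℝ R ≤ k := h2 R fun x hx hx0 => hpos x ((hRm x).1 hx) hx0
  have hkR : k ≤ finrank ℝ R := by
    obtain ⟨V, hV, hVA⟩ := h1
    refine hV.trans ?_
    let f : V →ₗ[ℝ] R := ((P : F →ₗ[ℝ] F).rangeRestrict).comp V.subtype
    refine LinearMap.finrank_le_finrank_of_injective (f := f) ?_
    rw [injective_iff_map_eq_zero]
    intro x hx
    have hx1 : P (x : F) = 0 := by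
      have := congrArg Subtype.val hx
      simpa [f] using this
    have h3 := h.nonpos x hx1
    rw [hB] at h3
    have h4 := hVA x x.2
    have h5 : ‖(x : F)‖ ^ 2 ≤ 0 := by nlinarith
    have h6 : ‖(x : F)‖ = 0 := by
      have := sq_nonneg ‖(x : F)‖
      exact pow_eq_zero_iff (two_ne_zero) |>.1 (le_antisymm h5 this)
    exact Subtype.ext (norm_eq_zero.1 h6)
  have hrank : finrank ℝ R = k := le_antisymm hRk hkR
  have hnon : ∀ x, P x = 0 → ⟪A x, x⟫_ℝ ≤ 0 := by
    intro x hx
    by_contra hcon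
    push Not at hcon
    have hx0 : x ≠ 0 := by
      rintro rfl
      simp at hcon
    have hxR : x ∉ R := by
      intro hm
      rw [hRm, hx] at hm
      exact hx0 hm.symm
    have h3 := h2 (R ⊔ Submodule.span ℝ {x}) ?_
    · have h4 : finrank ℝ R < finrank ℝ (R ⊔ Submodule.span ℝ {x} : Submodule ℝ F) := by
        apply Submodule.finrank_lt_finrank_of_lt
        refine lt_of_le_of_ne le_sup_left ?_
        intro heq
        apply hxR
        rw [heq]
        exact Submodule.mem_sup_right (Submodule.mem_span_singleton_self x)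
      omega
    · intro w hw hw0
      obtain ⟨y, hy, z, hz, rfl⟩ := Submodule.mem_sup.1 hw
      obtain ⟨c, rfl⟩ := Submodule.mem_span_singleton.1 hz
      have hy1 := (hRm y).1 hy
      have e1 : ⟪A y, c • x⟫_ℝ = 0 := by
        refine h.orth ?_ ?_
        · rw [← hcomm, hy1]
        · rw [map_smul, hx, smul_zero]
      have e2 : ⟪A (c • x), y⟫_ℝ = 0 := by
        rw [real_inner_comm]
        refine h.orth hy1 ?_
        rw [← hcomm, map_smul, hx, smul_zero, map_zero]
      rw [map_add, inner_add_left, inner_add_right, inner_add_right, e1, e2, map_smul,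
        inner_smul_left, inner_smul_right]
      simp only [conj_trivial]
      by_cases hy0 : y = 0
      · subst hy0
        have hc : c ≠ 0 := by
          rintro rfl
          simp at hw0
        simp only [map_zero, inner_zero_left]
        have : 0 < c * (c * ⟪A x, x⟫_ℝ) := by
          have : 0 < c * c := mul_self_pos.2 hc
          nlinarith [mul_pos this hcon]
        linarith
      · have h5 := hpos y hy1 hy0
        have : 0 ≤ c * (c * ⟪A x, x⟫_ℝ) := by
          have : 0 ≤ c * c := mul_self_nonneg c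
          nlinarith [mul_nonneg this hcon.le]
        linarith
  refine ⟨⟨h.sym, h.idem, hcomm, hpos, hnon⟩, hrank, ?_⟩
  intro x hx
  rw [hB]
  have := hnon x hx
  linarith

end Pool.Agent.Lib.MP_ccbbf6_gt.L5.SPE
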