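import Pool.Agent.Lib.MP_ccbbf6_gt.L5.CWo
import Pool.Agent.Lib.MP_ccbbf6_gt.L5.Ext0
import Pool.Agent.Lib.MP_ccbbf6_gt.L5.HE
import Pool.Agent.Lib.MP_ccbbf6_gt.L5.TP02

/-!
# Level 5, block 3PT 3: the three point formula on plot spaces, abstract form (helper56)

`TPD Y N U K` : the data (`m = K + 2`): `q : Y → N`, `T` on `Y`, forms `ψ2, ψ3`, classes `u1, u2, u3` on `N`, `λ`;
`TPD.main` : with a Whitney decomposition on `U` whose rest has `p_j = 0` for `j ≥ 2 m - 3`, the Pontryagin series `P`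
satisfies `P (1 + 2 b X) = (1 + b X + X^2)^(m + 1)` up to degree `m`.
-/

set_option autoImplicit false
set_option maxSynthPendingDepth 3

open Set Filter Topology

noncomputable section

namespace Pool.Agent.Lib.MP_ccbbf6_gt.L5

open L4 L4.FR

variable {Y N : Space} {U : Set N.pt} {K : ℕ}

/-- the data of the three point formula, `m = K + 2` -/
structure TPD (Y N : Space) (U : Set N.pt) (K : ℕ) where
  /-- the projection to the triples of points -/
  q : SMap Y N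
  hU : OpenU N U
  /-- integration -/
  T : Om Y →ₗ[ℝ] ℝ
  T_d : ∀ x, T (dO Y x) = 0
  /-- first angular form -/
  ψ2 : Om Y
  /-- second angular form -/
  ψ3 : Om Y
  /-- first class -/
  u1 : Om N
  /-- second class -/
  u2 : Om N
  /-- third class -/
  u3 : Om N
  ψ2_o : sO Y ψ2 = -ψ2
  ψ3_o : sO Y ψ3 = -ψ3
  u1_e : sO N u1 = u1
  u2_e : sO N u2 = u2
  u3_e : sO N u3 = u3
  u1_d : dO N u1 = 0
  u2_d : dO N u2 = 0
  u3_d : dO N u3 = 0
  ψ2_d : dO Y ψ2 = q.pull (u2 - u1)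
  ψ3_d : dO Y ψ3 = q.pull (u3 - u1)
  u2_n : u2 ^ (K + 3) = 0
  u3_n : u3 ^ (K + 3) = 0
  T2 : ∀ σ, T (ψ2 * q.pull σ) = 0
  T3 : ∀ σ, T (ψ3 * q.pull σ) = 0
  /-- the value -/
  c : ℝ
  c_ne : c ≠ 0
  hL : ∀ i j l, i + j + l = 3 * K + 4 →
    T (ψ2 * ψ3 * q.pull (u1 ^ i * u2 ^ j * u3 ^ l)) = c * (Dm (K + 2) j * Dm (K + 2) l)
  /-- a primitive of `u2 - u3` near the diagonal -/
  lam : Om N
  lam_o : sO N lam = -lam
  lam_v : ∀ (k : ℕ) (p : N.Plot k) (x : V k), p.1 x ∉ U → ∀ᶠ y in 𝓝 x, ev y (Om.on (u2 - u3 - dO N lam) p) = 0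

namespace TPD

variable (D : TPD Y N U K)

/-- exact forms have integral zero -/
theorem T_exact (θ : Om N) : D.T (D.ψ2 * D.ψ3 * D.q.pull (dO N θ)) = 0 := by
  have h1 : dO Y (D.ψ2 * (D.ψ3 * D.q.pull θ)) = D.ψ3 * D.q.pull ((D.u2 - D.u1) * θ) -
      D.ψ2 * D.q.pull ((D.u3 - D.u1) * θ) + D.ψ2 * D.ψ3 * D.q.pull (dO N θ) := by
    rw [d_mul, d_mul, D.ψ2_d, D.ψ3_d, D.ψ2_o, D.ψ3_o, pull_d]
    have e : D.q.pull (D.u2 - D.u1) * (D.ψ3 * D.q.pull θ) = D.ψ3 * D.q.pull ((D.u2 - D.u1) * θ) := by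
      have e0 : sO Y (D.q.pull (D.u2 - D.u1)) = D.q.pull (D.u2 - D.u1) := by
        rw [pull_s, map_sub, D.u2_e, D.u1_e]
      rw [← mul_assoc, even_comm' e0 D.ψ3, mul_assoc, map_mul]
    rw [e, map_mul D.q.pull (D.u3 - D.u1)]
    noncomm_ring
  have h2 := D.T_d (D.ψ2 * (D.ψ3 * D.q.pull θ))
  rw [h1, map_add, map_sub, D.T2, D.T3, sub_zero, zero_add] at h2
  exact h2

/-- a closed even form with exact restriction -/
theorem T_res {w : Om N} (hd : dO N w = 0) {η : Om (sub N U)}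
    (hη : (inU N U).pull w = dO _ η) {x : Om N} (hx : dO N x = 0) :
    D.T (D.ψ2 * D.ψ3 * D.q.pull ((D.u2 - D.u3) * w * x)) = 0 := by
  have hτ : Van N U ((inU N U).pull (D.u2 - D.u3 - dO N D.lam)) := Van_res D.hU D.lam_v
  have hτd : dO N (D.u2 - D.u3 - dO N D.lam) = 0 := by
    rw [map_sub, map_sub, D.u2_d, D.u3_d, d_d, sub_zero, sub_zero]
  have hτe : sO N (D.u2 - D.u3 - dO N D.lam) = D.u2 - D.u3 - dO N D.lam := by
    rw [map_sub, map_sub, D.u2_e, D.u3_e, s_d, D.lam_o, map_neg, neg_neg]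
  have h1 : dO N (ext0 D.hU _ (Van_mul hτ η)) = (D.u2 - D.u3 - dO N D.lam) * w := by
    rw [ext0_d]
    refine ext0_unique D.hU _ ?_ fun k p x hx => ?_
    · rw [d_mul, pull_d, hτd, map_zero, zero_mul, zero_add, pull_s, hτe, map_mul, hη]
    · rw [on_mul, map_mul, (D.lam_v k p x hx).self_of_nhds, zero_mul]
  have h2 : dO N (D.lam * w) = dO N D.lam * w := by
    rw [d_mul, hd, mul_zero, add_zero]
  have h3 : (D.u2 - D.u3) * w * x = dO N ((ext0 D.hU _ (Van_mul hτ η) + D.lam * w) * x) := by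
    rw [d_mul, hx, mul_zero, add_zero, map_add, h1, h2, ← add_mul, sub_add_cancel]
  rw [h3, T_exact]

/-- the first class in the ring of closed even forms -/
def z1 : (GO N).Zc := ⟨D.u1, D.u1_e, D.u1_d⟩
/-- the second class -/
def z2 : (GO N).Zc := ⟨D.u2, D.u2_e, D.u2_d⟩
/-- the third class -/
def z3 : (GO N).Zc := ⟨D.u3, D.u3_e, D.u3_d⟩

/-- the functional on closed even forms -/
def Lz : (GO N).Zc →ₗ[ℝ] ℝ where
  toFun w := D.T (D.ψ2 * D.ψ3 * D.q.pull (w : Om N))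
  map_add' a b := by
    change D.T (D.ψ2 * D.ψ3 * D.q.pull ((a : Om N) + b)) = _
    rw [map_add, mul_add, map_add]
  map_smul' r a := by
    change D.T (D.ψ2 * D.ψ3 * D.q.pull (r • (a : Om N))) = _
    rw [map_smul, mul_smul_comm, map_smul]
    rfl

/-- restriction of closed forms to `U`, class -/
def resH (N : Space) (U : Set N.pt) : (GO N).Zc →ₐ[ℝ] (GO (sub N U)).HE :=
  (Ideal.Quotient.mkₐ ℝ (GO (sub N U)).Ex).comp (GHom.pull (inU N U)).zc

theorem resH_zero {w : (GO N).Zc} (h : resH N U w = 0) :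
    ∃ η : Om (sub N U), (inU N U).pull (w : Om N) = dO _ η := by
  have h1 : Ideal.Quotient.mk (GO (sub N U)).Ex ((GHom.pull (inU N U)).zc w) = 0 := h
  rw [Ideal.Quotient.eq_zero_iff_mem] at h1
  obtain ⟨η, hη⟩ := h1
  exact ⟨η, hη.symm⟩

/-- **The three point formula**, abstract form. -/
theorem main {b : ℝ} {P : PowerSeries ℝ} (hP : PowerSeries.constantCoeff P = 1)
    {Z : PowerSeries (GO (sub N U)).HE}
    (hW : evS (resH N U D.z1) P = Z * Asr b (resH N U D.z1) (resH N U D.z2) * Asr b (resH N U D.z1) (resH N U D.z3))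
    (hZ : ∀ j, 2 * K + 1 ≤ j → PowerSeries.coeff j Z = 0) (j : ℕ) (hj : j ≤ K + 2) :
    PowerSeries.coeff j (P * (1 + 2 * PowerSeries.C b * PowerSeries.X)) =
      PowerSeries.coeff j (Aser b ^ (K + 3)) := by
  have h2 : resH N U D.z2 ^ (K + 2 + 1) = 0 := by
    rw [← map_pow]
    have e : D.z2 ^ (K + 2 + 1) = 0 := Subtype.ext D.u2_n
    rw [e, map_zero]
  have h3 : resH N U D.z3 ^ (K + 2 + 1) = 0 := by
    rw [← map_pow]
    have e : D.z3 ^ (K + 2 + 1) = 0 := Subtype.ext D.u3_n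
    rw [e, map_zero]
  have hZ2 := zser_eq (b := b) (m := K + 2) (by omega) h2 h3 hW
  refine three_point hP (fun i hi hi' => tp_fun D.Lz D.c_ne (u1 := D.z1) (u2 := D.z2) (u3 := D.z3)
    (fun i j l h => D.hL i j l h) (fun j hj x => ?_) i hi hi') j hj
  have h4 : resH N U (PowerSeries.coeff j (zser b P (K + 2) D.z1 D.z2 D.z3)) = 0 := by
    rw [map_zser_coeff, ← hZ2, hZ j hj]
  obtain ⟨η, hη⟩ := resH_zero h4
  exact D.T_res (PowerSeries.coeff j (zser b P (K + 2) D.z1 D.z2 D.z3)).2.2 hη x.2.2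

end TPD

end Pool.Agent.Lib.MP_ccbbf6_gt.L5
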