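import Pool.Agent.Lib.MP_ccbbf6_gt.L5.TP03

/-!
# Level 5, block 3PT 4: the evaluation rule (helper56)

`TPG M G Y N K` : unit sphere bundle `foot : G → M`, `ex : G → M`, `Y = G ×_M G`, fibre integrals `J : Om G → Om M`,
`J2 : Om Y → Om G`; `TPG.hL`: the rule `T (ψ2 ψ3 u1^i u2^j u3^l) = c D_j D_l`; `TPG.toTPD`.
-/

set_option autoImplicit false
set_option maxSynthPendingDepth 3

open Set Filter Topology

noncomputable section

namespace Pool.Agent.Lib.MP_ccbbf6_gt.L5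

open L4 L4.FR

variable {M G F Y N : Space} {U : Set N.pt} {K : ℕ}

/-- the top value, from the comparison `h_m (u1, u2) = d ξ` -/
theorem J_top {foot : SMap G M} {ex : SMap G M} {pr : SMap G F} {e1 e2 : SMap F M} (h1 : ∀ x, e1.1 (pr.1 x) = foot.1 x)
    (h2 : ∀ x, e2.1 (pr.1 x) = ex.1 x) {J : Om G →ₗ[ℝ] Om M} (J_d : ∀ w, dO M (J w) = -J (dO G w))
    (J_mul : ∀ w t, J (w * foot.pull t) = J w * t) (J_pr : ∀ σ, J (pr.pull σ) = 0) {u : Om M}
    {ψ : Om G} (ψ_o : sO G ψ = -ψ) (ψ_d : dO G ψ = ex.pull u - foot.pull u)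
    (low : ∀ j, j ≤ K → J (ψ * ex.pull (u ^ j)) = 0) {ε : ℝ} (hε : J (ψ * ex.pull (u ^ (K + 1))) = ε • 1)
    {ξ : Om F} (hξ : ∑ i ∈ Finset.range (K + 3), e2.pull u ^ (K + 2 - i) * e1.pull u ^ i = dO F ξ) :
    J (ψ * ex.pull (u ^ (K + 2))) = -(ε • u) + dO M (J (ψ * pr.pull ξ)) := by
  have p1 : ∀ t, pr.pull (e1.pull t) = foot.pull t := fun t => by
    rw [← pull_comp, show e1.comp pr = foot from SMap_ext h1]
  have p2 : ∀ t, pr.pull (e2.pull t) = ex.pull t := fun t => by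
    rw [← pull_comp, show e2.comp pr = ex from SMap_ext h2]
  have a1 : J (ψ * pr.pull (dO F ξ)) = dO M (J (ψ * pr.pull ξ)) := by
    have h3 : dO G (ψ * pr.pull ξ) = pr.pull ((e2.pull u - e1.pull u) * ξ) - ψ * pr.pull (dO F ξ) := by
      rw [d_mul, ψ_d, ψ_o, pull_d, map_mul, map_sub, p1, p2]
      noncomm_ring
    rw [J_d, h3, map_sub, J_pr, zero_sub, neg_neg]
  have a2 : J (ψ * pr.pull (dO F ξ)) = ∑ i ∈ Finset.range (K + 3), J (ψ * ex.pull (u ^ (K + 2 - i))) * u ^ i := by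
    rw [← hξ, map_sum, Finset.mul_sum, map_sum]
    refine Finset.sum_congr rfl fun i _ => ?_
    rw [map_mul pr.pull, map_pow, map_pow, p1, p2, ← map_pow, ← map_pow, ← mul_assoc, J_mul]
  have a3 : ∑ i ∈ Finset.range (K + 3), J (ψ * ex.pull (u ^ (K + 2 - i))) * u ^ i =
      J (ψ * ex.pull (u ^ (K + 2))) + ε • u := by
    rw [Finset.sum_range_succ', Finset.sum_range_succ']
    rw [Finset.sum_eq_zero (fun i hi => by
      rw [low (K + 2 - (i + 1 + 1)) (by omega), zero_mul])]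
    rw [zero_add, show K + 2 - (0 + 1) = K + 1 by omega, hε, Nat.sub_zero, pow_zero, mul_one, zero_add, pow_one,
      smul_mul_assoc, one_mul, add_comm]
  rw [← a1, a2, a3]
  abel

/-- the geometric data, `m = K + 2` -/
structure TPG (M G Y N : Space) (K : ℕ) where
  /-- foot point -/
  foot : SMap G M
  /-- end point -/
  ex : SMap G M
  /-- first vector -/
  a : SMap Y G
  /-- second vector -/
  b : SMap Y G
  /-- to the triples -/
  q : SMap Y N
  /-- the first point -/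
  n1 : SMap N M
  /-- the second point -/
  n2 : SMap N M
  /-- the third point -/
  n3 : SMap N M
  qa : ∀ y, n1.1 (q.1 y) = foot.1 (a.1 y)
  qb : ∀ y, n1.1 (q.1 y) = foot.1 (b.1 y)
  q2 : ∀ y, n2.1 (q.1 y) = ex.1 (a.1 y)
  q3 : ∀ y, n3.1 (q.1 y) = ex.1 (b.1 y)
  /-- fibre integral -/
  J : Om G →ₗ[ℝ] Om M
  J_d : ∀ w, dO M (J w) = -J (dO G w)
  J_mul : ∀ w t, J (w * foot.pull t) = J w * t
  J_left : ∀ t w, J (foot.pull t * w) = sO M t * J w
  /-- integral over `M` -/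
  TM : Om M →ₗ[ℝ] ℝ
  TM_d : ∀ w, TM (dO M w) = 0
  /-- fibre integral over the first vector -/
  J2 : Om Y →ₗ[ℝ] Om G
  J2_d : ∀ w, dO G (J2 w) = -J2 (dO Y w)
  J2_mul : ∀ w t, J2 (w * b.pull t) = J2 w * t
  J2_a : ∀ w, J2 (a.pull w) = foot.pull (J w)
  kill2 : ∀ σ, J2 (q.pull σ) = 0
  kill1 : ∀ w σ, TM (J (J2 (a.pull w * q.pull σ))) = 0
  /-- the generator -/
  u : Om M
  u_e : sO M u = u
  u_d : dO M u = 0
  u_n : u ^ (K + 3) = 0
  /-- the angular form -/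
  ψ : Om G
  ψ_o : sO G ψ = -ψ
  ψ_d : dO G ψ = ex.pull u - foot.pull u
  low : ∀ j, j ≤ K → J (ψ * ex.pull (u ^ j)) = 0
  /-- the value of `∫ ψ u^(m-1)` -/
  ε : ℝ
  hε : J (ψ * ex.pull (u ^ (K + 1))) = ε • 1
  top : ∃ η, J (ψ * ex.pull (u ^ (K + 2))) = -(ε • u) + dO M η
  c_ne : ε ^ 2 * TM (u ^ (K + 2)) ≠ 0

namespace TPG

variable (D : TPG M G Y N K)

/-- the integral over `Y` -/
def T : Om Y →ₗ[ℝ] ℝ := D.TM.comp (D.J.comp D.J2)

theorem T_apply (w : Om Y) : D.T w = D.TM (D.J (D.J2 w)) := rfl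

theorem T_d (w : Om Y) : D.T (dO Y w) = 0 := by
  have h1 : D.J2 (dO Y w) = -dO G (D.J2 w) := by rw [D.J2_d, neg_neg]
  have h2 : D.J (dO G (D.J2 w)) = -dO M (D.J (D.J2 w)) := by rw [D.J_d, neg_neg]
  rw [T_apply, h1, map_neg, h2, neg_neg, D.TM_d]

theorem pull_qa (t : Om M) : D.q.pull (D.n1.pull t) = D.a.pull (D.foot.pull t) := by
  rw [← pull_comp, ← pull_comp, show D.n1.comp D.q = D.foot.comp D.a from SMap_ext D.qa]

theorem pull_qb (t : Om M) : D.q.pull (D.n1.pull t) = D.b.pull (D.foot.pull t) := by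
  rw [← pull_comp, ← pull_comp, show D.n1.comp D.q = D.foot.comp D.b from SMap_ext D.qb]

theorem pull_q2 (t : Om M) : D.q.pull (D.n2.pull t) = D.a.pull (D.ex.pull t) := by
  rw [← pull_comp, ← pull_comp, show D.n2.comp D.q = D.ex.comp D.a from SMap_ext D.q2]

theorem pull_q3 (t : Om M) : D.q.pull (D.n3.pull t) = D.b.pull (D.ex.pull t) := by
  rw [← pull_comp, ← pull_comp, show D.n3.comp D.q = D.ex.comp D.b from SMap_ext D.q3]

/-- `∫ ψ u^j` over the fibres -/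
def I (j : ℕ) : Om M := D.J (D.ψ * D.ex.pull (D.u ^ j))

theorem pow_e (j : ℕ) : sO M (D.u ^ j) = D.u ^ j := by rw [map_pow, D.u_e]

theorem pow_d (j : ℕ) : dO M (D.u ^ j) = 0 := by
  induction j with
  | zero => rw [pow_zero, d_one]
  | succ j ih => rw [pow_succ, d_mul, ih, D.u_d, zero_mul, mul_zero, add_zero]

/-- the rule -/
theorem T_rule (i j l : ℕ) :
    D.T (D.a.pull D.ψ * D.b.pull D.ψ * D.q.pull (D.n1.pull D.u ^ i * D.n2.pull D.u ^ j * D.n3.pull D.u ^ l)) =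
      D.TM (sO M (D.I j) * (D.I l * D.u ^ i)) := by
  have e1 : D.a.pull D.ψ * D.b.pull D.ψ * D.q.pull (D.n1.pull D.u ^ i * D.n2.pull D.u ^ j * D.n3.pull D.u ^ l) =
      D.a.pull (D.ψ * D.ex.pull (D.u ^ j)) * D.b.pull (D.ψ * D.ex.pull (D.u ^ l) * D.foot.pull (D.u ^ i)) := by
    simp only [map_mul, map_pow, pull_qb, pull_q2, pull_q3]
    simp only [← map_pow]
    have c1 : ∀ x, D.b.pull (D.foot.pull (D.u ^ i)) * x = x * D.b.pull (D.foot.pull (D.u ^ i)) := fun x =>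
      even_comm' (by rw [pull_s, pull_s, D.pow_e]) x
    have c2 : ∀ x, D.a.pull (D.ex.pull (D.u ^ j)) * x = x * D.a.pull (D.ex.pull (D.u ^ j)) := fun x =>
      even_comm' (by rw [pull_s, pull_s, D.pow_e]) x
    calc D.a.pull D.ψ * D.b.pull D.ψ *
          (D.b.pull (D.foot.pull (D.u ^ i)) * D.a.pull (D.ex.pull (D.u ^ j)) * D.b.pull (D.ex.pull (D.u ^ l)))
        = D.a.pull D.ψ * (D.b.pull D.ψ * D.a.pull (D.ex.pull (D.u ^ j))) *
          (D.b.pull (D.foot.pull (D.u ^ i)) * D.b.pull (D.ex.pull (D.u ^ l))) := by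
          rw [c1 (D.a.pull (D.ex.pull (D.u ^ j)))]
          simp only [mul_assoc]
      _ = D.a.pull D.ψ * (D.a.pull (D.ex.pull (D.u ^ j)) * D.b.pull D.ψ) *
          (D.b.pull (D.ex.pull (D.u ^ l)) * D.b.pull (D.foot.pull (D.u ^ i))) := by
          rw [← c2 (D.b.pull D.ψ), c1 (D.b.pull (D.ex.pull (D.u ^ l)))]
      _ = D.a.pull D.ψ * D.a.pull (D.ex.pull (D.u ^ j)) *
          (D.b.pull D.ψ * D.b.pull (D.ex.pull (D.u ^ l)) * D.b.pull (D.foot.pull (D.u ^ i))) := by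
          simp only [mul_assoc]
  rw [T_apply, e1, D.J2_mul, D.J2_a, D.J_left, D.J_mul]
  rfl

theorem I_low {j : ℕ} (h : j ≤ K) : D.I j = 0 := D.low j h

theorem I_high {j : ℕ} (h : K + 3 ≤ j) : D.I j = 0 := by
  unfold I
  obtain ⟨r, rfl⟩ := Nat.exists_eq_add_of_le h
  rw [pow_add, D.u_n, zero_mul, map_zero, mul_zero, map_zero]

theorem I_mid : D.I (K + 1) = D.ε • 1 := D.hε

/-- `s (I_j)` at `j = m - 1` -/
theorem sI_mid : sO M (D.I (K + 1)) = D.ε • 1 := by rw [I_mid, map_smul, map_one]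

theorem TM_exact {η w : Om M} (hw : dO M w = 0) : D.TM (dO M η * w) = 0 := by
  have h : dO M (η * w) = dO M η * w := by rw [d_mul, hw, mul_zero, add_zero]
  rw [← h, D.TM_d]

theorem I_d (j : ℕ) : dO M (D.I j) = 0 := by
  rcases Nat.lt_or_ge K j with h | h
  · rcases Nat.lt_or_ge j (K + 3) with h1 | h1
    · have h2 : j = K + 1 ∨ j = K + 2 := by omega
      rcases h2 with rfl | rfl
      · rw [I_mid, map_smul, d_one, smul_zero]
      · obtain ⟨η, hη⟩ := D.top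
        change dO M (D.J (D.ψ * D.ex.pull (D.u ^ (K + 2)))) = 0
        rw [hη, map_add, map_neg, map_smul, D.u_d, d_d, smul_zero, neg_zero, add_zero]
    · rw [I_high D h1, map_zero]
  · rw [I_low D h, map_zero]

theorem TM_top {w : Om M} (hw : dO M w = 0) : D.TM (sO M (D.I (K + 2)) * w) = -(D.ε * D.TM (D.u * w)) := by
  obtain ⟨η, hη⟩ := D.top
  have h : sO M (D.I (K + 2)) * w = -(D.ε • (D.u * w)) + dO M (-sO M η) * w := by
    change sO M (D.J (D.ψ * D.ex.pull (D.u ^ (K + 2)))) * w = _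
    rw [hη, map_add, map_neg, map_smul, D.u_e, s_d, map_neg, add_mul, neg_mul, smul_mul_assoc]
  rw [h, map_add, D.TM_exact hw, add_zero, map_neg, map_smul, smul_eq_mul]

theorem TM_top' {w : Om M} (hw : dO M w = 0) : D.TM (D.I (K + 2) * w) = -(D.ε * D.TM (D.u * w)) := by
  obtain ⟨η, hη⟩ := D.top
  have h : D.I (K + 2) * w = -(D.ε • (D.u * w)) + dO M η * w := by
    change D.J (D.ψ * D.ex.pull (D.u ^ (K + 2))) * w = _
    rw [hη, add_mul, neg_mul, smul_mul_assoc]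
  rw [h, map_add, D.TM_exact hw, add_zero, map_neg, map_smul, smul_eq_mul]

theorem Dm_low {j : ℕ} (h : j ≤ K) : Dm (K + 2) j = 0 := by
  unfold Dm
  rw [if_neg (by omega), if_neg (by omega), sub_zero]

theorem Dm_high {j : ℕ} (h : K + 3 ≤ j) : Dm (K + 2) j = 0 := by
  unfold Dm
  rw [if_neg (by omega), if_neg (by omega), sub_zero]

theorem Dm_mid : Dm (K + 2) (K + 1) = 1 := by
  unfold Dm
  rw [if_pos (by omega), if_neg (by omega), sub_zero]

theorem Dm_top : Dm (K + 2) (K + 2) = -1 := by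
  unfold Dm
  rw [if_neg (by omega), if_pos (by omega), zero_sub]

/-- **the evaluation rule** -/
theorem hL (i j l : ℕ) (h : i + j + l = 3 * K + 4) :
    D.T (D.a.pull D.ψ * D.b.pull D.ψ * D.q.pull (D.n1.pull D.u ^ i * D.n2.pull D.u ^ j * D.n3.pull D.u ^ l)) =
      D.ε ^ 2 * D.TM (D.u ^ (K + 2)) * (Dm (K + 2) j * Dm (K + 2) l) := by
  rw [T_rule]
  have hc : ∀ j, j ≤ K ∨ j = K + 1 ∨ j = K + 2 ∨ K + 3 ≤ j := fun j => by omega
  have hI : dO M (D.I l * D.u ^ i) = 0 := by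
    rw [d_mul, I_d, zero_mul, pow_d, mul_zero, add_zero]
  rcases hc j with hj | rfl | rfl | hj
  · rw [I_low D hj, Dm_low hj, map_zero, zero_mul, map_zero, zero_mul, mul_zero]
  · rw [sI_mid, smul_mul_assoc, one_mul, map_smul, Dm_mid, one_mul]
    rcases hc l with hl | rfl | rfl | hl
    · rw [I_low D hl, Dm_low hl, zero_mul, map_zero, smul_zero, mul_zero]
    · rw [I_mid, smul_mul_assoc, one_mul, map_smul, Dm_mid, show i = K + 2 by omega, smul_eq_mul, smul_eq_mul]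
      ring
    · rw [D.TM_top' (D.pow_d i), ← pow_succ', show i + 1 = K + 2 by omega, Dm_top, smul_eq_mul]
      ring
    · rw [I_high D hl, Dm_high hl, zero_mul, map_zero, smul_zero, mul_zero]
  · rw [D.TM_top hI, Dm_top]
    rcases hc l with hl | rfl | rfl | hl
    · rw [I_low D hl, Dm_low hl, zero_mul, mul_zero, map_zero, mul_zero, mul_zero, mul_zero, neg_zero]
    · rw [I_mid, smul_mul_assoc, one_mul, mul_smul_comm, map_smul, Dm_mid, ← pow_succ', show i + 1 = K + 2 by omega,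
        smul_eq_mul]
      ring
    · have e : D.u * (D.I (K + 2) * D.u ^ i) = D.I (K + 2) * D.u ^ (i + 1) := by
        rw [← mul_assoc, even_comm' D.u_e, mul_assoc, ← pow_succ']
      rw [e, D.TM_top' (D.pow_d (i + 1)), ← pow_succ', show i + 1 + 1 = K + 2 by omega, Dm_top]
      ring
    · rw [I_high D hl, Dm_high hl, zero_mul, mul_zero, map_zero, mul_zero, mul_zero, mul_zero, neg_zero]
  · rw [I_high D hj, Dm_high hj, map_zero, zero_mul, map_zero, zero_mul, mul_zero]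

/-- the data of the three point formula -/
def toTPD (hU : OpenU N U) (lam : Om N) (lam_o : sO N lam = -lam)
    (lam_v : ∀ (k : ℕ) (p : N.Plot k) (x : V k), p.1 x ∉ U → ∀ᶠ y in 𝓝 x,
      ev y (Om.on (D.n2.pull D.u - D.n3.pull D.u - dO N lam) p) = 0) : TPD Y N U K where
  q := D.q
  hU := hU
  T := D.T
  T_d := D.T_d
  ψ2 := D.a.pull D.ψ
  ψ3 := D.b.pull D.ψ
  u1 := D.n1.pull D.u
  u2 := D.n2.pull D.u
  u3 := D.n3.pull D.u
  ψ2_o := by rw [pull_s, D.ψ_o, map_neg]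
  ψ3_o := by rw [pull_s, D.ψ_o, map_neg]
  u1_e := by rw [pull_s, D.u_e]
  u2_e := by rw [pull_s, D.u_e]
  u3_e := by rw [pull_s, D.u_e]
  u1_d := by rw [pull_d, D.u_d, map_zero]
  u2_d := by rw [pull_d, D.u_d, map_zero]
  u3_d := by rw [pull_d, D.u_d, map_zero]
  ψ2_d := by rw [pull_d, D.ψ_d, map_sub, map_sub, pull_q2, pull_qa]
  ψ3_d := by rw [pull_d, D.ψ_d, map_sub, map_sub, pull_q3, pull_qb]
  u2_n := by rw [← map_pow, D.u_n, map_zero]
  u3_n := by rw [← map_pow, D.u_n, map_zero]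
  T2 σ := D.kill1 D.ψ σ
  T3 σ := by
    have e : D.b.pull D.ψ * D.q.pull σ = D.q.pull (sO N σ) * D.b.pull D.ψ := by
      rw [odd_comm' (by rw [pull_s, D.ψ_o, map_neg]), pull_s]
    rw [e, T_apply, D.J2_mul, D.kill2, zero_mul, map_zero, map_zero]
  c := D.ε ^ 2 * D.TM (D.u ^ (K + 2))
  c_ne := D.c_ne
  hL := D.hL
  lam := lam
  lam_o := lam_o
  lam_v := lam_v

end TPG

end Pool.Agent.Lib.MP_ccbbf6_gt.L5
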