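import Pool.Agent.Lib.MP_ccbbf6_gt.L5.INTo
import Pool.Agent.Lib.MP_ccbbf6_gt.L5.TP04

/-!
# Level 5, block 3PT 6: the data `TPG` from a sphere bundle (helper56)

`TPB` : the unit sphere bundle `b : SBun N G M` (`N` odd), `pr : G → F`, `e1, e2 : F → M`, `u`, `ψ` of degrees `q`,
`q - 1` (`q` even), `N + 1 = q (K + 2)`, `h_m(u1, u2) = dξ` on `F`. `TPB.toTPG` on
`Y = G ×_M G` (`fp b.pi b.pi`, points `(w, v)`), `N3 = F ×_M F` (`fp e1 e1`, points `((x1,x3), (x1,x2))`).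
-/

set_option autoImplicit false
set_option maxSynthPendingDepth 3

open Set Filter Topology

noncomputable section

namespace Pool.Agent.Lib.MP_ccbbf6_gt.L5

open L4 L4.FR

variable {M G F : Space} {N K : ℕ}

/-- the data on the unit sphere bundle, `m = K + 2` -/
structure TPB (M G F : Space) (N K : ℕ) where
  /-- the sphere bundle -/
  b : SBun N G M
  odd : Odd N
  /-- foot point and end point -/
  pr : SMap G F
  /-- first point -/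
  e1 : SMap F M
  /-- second point -/
  e2 : SMap F M
  h1 : ∀ x, e1.1 (pr.1 x) = b.pi.1 x
  hV : b.VFl pr
  /-- integral over `M` -/
  TM : Om M →ₗ[ℝ] ℝ
  TM_d : ∀ w, TM (dO M w) = 0
  /-- degree of the generator -/
  q : ℕ
  hq : 1 ≤ q
  hN : N + 1 = 2 * q * (K + 2)
  /-- the generator -/
  u : Om M
  u_q : Deg (2 * q) u
  u_d : dO M u = 0
  u_n : u ^ (K + 3) = 0
  /-- the angular form -/
  ψ : Om G
  ψ_q : Deg (2 * q - 1) ψ
  ψ_d : dO G ψ = pr.pull (e2.pull u) - b.pi.pull u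
  /-- the value of `∫ ψ u^(m-1)` -/
  ε : ℝ
  hε : b.PI (ψ * pr.pull (e2.pull (u ^ (K + 1)))) = ε • 1
  /-- the primitive of `h_m (u1, u2)` -/
  ξ : Om F
  hξ : ∑ i ∈ Finset.range (K + 3), e2.pull u ^ (K + 2 - i) * e1.pull u ^ i = dO F ξ
  c_ne : ε ^ 2 * TM (u ^ (K + 2)) ≠ 0

namespace TPB

variable (D : TPB M G F N K)

/-- `PI` as a linear map -/
def J (D : TPB M G F N K) : Om G →ₗ[ℝ] Om M where
  toFun := D.b.PI
  map_add' := D.b.PI_add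
  map_smul' := D.b.PI_smul

/-- the bundle over `G` -/
def b2 : SBun N (fp D.b.pi D.b.pi) G := D.b.pull D.b.pi

/-- the integral over the second vector as a linear map -/
def J2 : Om (fp D.b.pi D.b.pi) →ₗ[ℝ] Om G where
  toFun := D.b2.PI
  map_add' := D.b2.PI_add
  map_smul' := D.b2.PI_smul

include D in
theorem sgn : (-1 : ℝ) ^ N = -1 := D.odd.neg_one_pow

include D in
theorem iter (X : Space) (a : Om X) : (sO X)^[N] a = sO X a := by
  obtain ⟨j, hj⟩ := D.odd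
  rw [hj]
  clear hj
  induction j with
  | zero => rfl
  | succ j ih =>
    rw [show 2 * (j + 1) + 1 = (2 * j + 1) + 1 + 1 by ring, Function.iterate_succ_apply, Function.iterate_succ_apply,
      s_s, ih]

theorem u_e : sO M D.u = D.u := Deg_even D.u_q

theorem ψ_o : sO G D.ψ = -D.ψ := by
  have h := D.hq
  refine Deg_odd (j := D.q - 1) ?_
  rw [show 2 * (D.q - 1) + 1 = 2 * D.q - 1 by omega]
  exact D.ψ_q

theorem low (j : ℕ) (hj : j ≤ K) : D.b.PI (D.ψ * (D.e2.comp D.pr).pull (D.u ^ j)) = 0 := by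
  have h1 : Deg (2 * D.q - 1 + 2 * D.q * j) (D.ψ * (D.e2.comp D.pr).pull (D.u ^ j)) :=
    Deg_mul D.ψ_q (Deg_pull _ (Deg_pow D.u_q j))
  refine D.b.PI_low h1 ?_
  have h2 := D.hN
  have h3 := D.hq
  have h4 : 2 * D.q * j ≤ 2 * D.q * K := Nat.mul_le_mul_left _ hj
  have h5 : 2 * D.q * (K + 2) = 2 * D.q * K + 2 * D.q + 2 * D.q := by ring
  omega

/-- the triples -/
abbrev N3 : Space := fp D.e1 D.e1

/-- `(w, v) ↦ (pr w, pr v)` -/
def qq : SMap (fp D.b.pi D.b.pi) D.N3 :=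
  fpM (D.pr.comp (fp1 D.b.pi D.b.pi)) (D.pr.comp (fp2 D.b.pi D.b.pi)) fun z => by
    change D.e1.1 (D.pr.1 z.1.1) = D.e1.1 (D.pr.1 z.1.2)
    rw [D.h1, D.h1]
    exact z.2

theorem kill2 (σ : Om D.N3) : D.b2.PI (D.qq.pull σ) = 0 := by
  refine (D.b2).PI_kill (D.b.VFl_pull D.hV D.b.pi D.qq fun z z' h h' => ?_) σ
  exact Subtype.ext (Prod.ext (congrArg D.pr.1 h) h')

/-- the bundle over `F` -/
def b3 : SBun N (fp D.e1 D.b.pi) F := D.b.pull D.e1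

/-- `(w, v) ↦ (pr w, v)` -/
def r3 : SMap (fp D.b.pi D.b.pi) (fp D.e1 D.b.pi) :=
  fpM (D.pr.comp (fp1 D.b.pi D.b.pi)) (fp2 D.b.pi D.b.pi) fun z => by
    change D.e1.1 (D.pr.1 z.1.1) = D.b.pi.1 z.1.2
    rw [D.h1]
    exact z.2

/-- `(w, v) ↦ (pr w, v)` for frames -/
def r3F : SMap (fp D.b.pi D.b.q) (fp D.e1 D.b.q) :=
  fpM (D.pr.comp (fp1 D.b.pi D.b.q)) (fp2 D.b.pi D.b.q) fun z => by
    change D.e1.1 (D.pr.1 z.1.1) = D.b.q.1 z.1.2
    rw [D.h1]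
    exact z.2

theorem PI_r3 (θ : Om (fp D.e1 D.b.pi)) : D.b2.PI (D.r3.pull θ) = D.pr.pull (D.b3.PI θ) :=
  PI_nat D.b3 D.b2 D.r3 D.pr D.r3F (fun _ => rfl) (fun _ => rfl) θ

/-- `(f, v) ↦ (f, pr v)` -/
def q3 : SMap (fp D.e1 D.b.pi) D.N3 :=
  fpM (fp1 D.e1 D.b.pi) (D.pr.comp (fp2 D.e1 D.b.pi)) fun z => by
    change D.e1.1 z.1.1 = D.e1.1 (D.pr.1 z.1.2)
    rw [D.h1]
    exact z.2

theorem kill1 (w : Om G) (σ : Om D.N3) :
    D.b.PI (D.b2.PI ((fp2 D.b.pi D.b.pi).pull w * D.qq.pull σ)) = 0 := by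
  have e : (fp2 D.b.pi D.b.pi).pull w * D.qq.pull σ =
      D.r3.pull ((fp2 D.e1 D.b.pi).pull w * D.q3.pull σ) := by
    rw [map_mul]
    rfl
  rw [e, PI_r3, D.b.PI_kill D.hV]

/-- the data of the evaluation rule -/
def toTPG : TPG M G (fp D.b.pi D.b.pi) D.N3 K where
  foot := D.b.pi
  ex := D.e2.comp D.pr
  a := fp2 D.b.pi D.b.pi
  b := fp1 D.b.pi D.b.pi
  q := D.qq
  n1 := D.e1.comp (fp1 D.e1 D.e1)
  n2 := D.e2.comp (fp2 D.e1 D.e1)
  n3 := D.e2.comp (fp1 D.e1 D.e1)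
  qa y := by
    change D.e1.1 (D.pr.1 y.1.1) = D.b.pi.1 y.1.2
    rw [D.h1]
    exact y.2
  qb y := by
    change D.e1.1 (D.pr.1 y.1.1) = D.b.pi.1 y.1.1
    rw [D.h1]
  q2 y := rfl
  q3 y := rfl
  J := D.J
  J_d w := by
    change dO M (D.b.PI w) = -D.b.PI (dO G w)
    rw [D.b.PI_d, D.sgn, neg_one_smul]
  J_mul w t := D.b.PI_mulr t w
  J_left t w := by
    change D.b.PI (D.b.pi.pull t * w) = sO M t * D.b.PI w
    rw [D.b.PI_mul, D.iter]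
  TM := D.TM
  TM_d := D.TM_d
  J2 := D.J2
  J2_d w := by
    change dO G (D.b2.PI w) = -D.b2.PI (dO _ w)
    rw [D.b2.PI_d, D.sgn, neg_one_smul]
  J2_mul w t := D.b2.PI_mulr t w
  J2_a w := D.b.PI_pull D.b.pi w
  kill2 := D.kill2
  kill1 w σ := by
    change D.TM (D.b.PI (D.b2.PI _)) = 0
    rw [D.kill1, map_zero]
  u := D.u
  u_e := D.u_e
  u_d := D.u_d
  u_n := D.u_n
  ψ := D.ψ
  ψ_o := D.ψ_o
  ψ_d := D.ψ_d
  low := D.low
  ε := D.ε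
  hε := D.hε
  top := by
    refine ⟨_, J_top (foot := D.b.pi) (ex := D.e2.comp D.pr) (pr := D.pr) (e1 := D.e1) (e2 := D.e2) D.h1 (fun _ => rfl)
      (J := D.J) ?_ (fun w t => D.b.PI_mulr t w) (fun σ => D.b.PI_kill D.hV σ) D.ψ_o D.ψ_d D.low D.hε D.hξ⟩
    intro w
    change dO M (D.b.PI w) = -D.b.PI (dO G w)
    rw [D.b.PI_d, D.sgn, neg_one_smul]
  c_ne := D.c_ne

end TPB

end Pool.Agent.Lib.MP_ccbbf6_gt.L5
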