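import Pool.Agent.Lib.MP_ccbbf6_gt.L4.OriA

/-!
# Level 5, UOR02: a continuous line field over a sphere, in another space, has a continuous unit section (helper2)

Adapted from OriA of level 4.
-/

set_option autoImplicit false
set_option linter.unusedSectionVars false
set_option linter.unusedVariables false

open Set Filter Topology Metric Real Module
open scoped RealInnerProductSpace

noncomputable section

namespace Pool.Agent.Lib.MP_ccbbf6_gt.L5

open L4.ORI

section sphere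

variable {E : Type*} [NormedAddCommGroup E] [InnerProductSpace ℝ E]
  {H : Type*} [NormedAddCommGroup H] [InnerProductSpace ℝ H]

/-- transport of a line in `K` steps along the great circles through `v` -/
def trb (P : E → H →L[ℝ] H) (v : E) (e : H) (K : ℕ) : ℕ → E × ℝ → H
  | 0, _ => e
  | (j + 1), z => nrm (P (arc v z.1 (((j + 1 : ℕ) : ℝ) * z.2 / K)) (trb P v e K j z))

/-- projections on lines -/
def LineQ (P : E → H →L[ℝ] H) : Prop := ∀ v, ‖v‖ = 1 → ∃ e, ‖e‖ = 1 ∧ ∀ x, P v x = ⟪e, x⟫ • e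

theorem LineQ.idem {P : E → H →L[ℝ] H} (hP : LineQ P) {v : E} (hv : ‖v‖ = 1) (x : H) : P v (P v x) = P v x := by
  obtain ⟨e, he, h⟩ := hP v hv
  rw [h, h, real_inner_smul_right, real_inner_self_eq_norm_sq, he]
  norm_num

theorem LineQ.step {P : E → H →L[ℝ] H} (hP : LineQ P) {v w : E} {x : H} (hv : ‖v‖ = 1) (hx : ‖x‖ = 1) (hxw : P w x = x)
    (h : ‖P v - P w‖ < 1) : P v x ≠ 0 ∧ ‖nrm (P v x)‖ = 1 ∧ P v (nrm (P v x)) = nrm (P v x) := by
  have h1 : P v x ≠ 0 := by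
    intro h0
    have h2 := (P v - P w).le_opNorm x
    rw [sub_apply, h0, hxw, zero_sub, norm_neg, hx, mul_one] at h2
    linarith
  refine ⟨h1, norm_nrm h1, ?_⟩
  unfold nrm
  rw [map_smul, hP.idem hv]

theorem trb_spec {P : E → H →L[ℝ] H} (hP : LineQ P) (hc : ContinuousOn P (sphere 0 1)) {v : E} {e : H} (hv : ‖v‖ = 1)
    (he : ‖e‖ = 1) (hev : P v e = e) {K : ℕ} (hK : 0 < K)
    (hu : ∀ a b : E, ‖a‖ = 1 → ‖b‖ = 1 → ‖a - b‖ ≤ π / K → ‖P a - P b‖ < 1) (j : ℕ) :
    (∀ z ∈ Tdom v, ‖trb P v e K j z‖ = 1 ∧ P (arc v z.1 ((j : ℝ) * z.2 / K)) (trb P v e K j z) = trb P v e K j z) ∧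
      ContinuousOn (trb P v e K j) (Tdom v) := by
  have hK' : (0 : ℝ) < K := by exact_mod_cast hK
  induction j with
  | zero =>
    refine ⟨fun z _ => ⟨he, ?_⟩, continuousOn_const⟩
    simp only [Nat.cast_zero, zero_mul, zero_div, arc_zero]
    exact hev
  | succ j ih =>
    obtain ⟨ih1, ih2⟩ := ih
    have key : ∀ z ∈ Tdom v, P (arc v z.1 (((j + 1 : ℕ) : ℝ) * z.2 / K)) (trb P v e K j z) ≠ 0 ∧
        ‖trb P v e K (j + 1) z‖ = 1 ∧
        P (arc v z.1 (((j + 1 : ℕ) : ℝ) * z.2 / K)) (trb P v e K (j + 1) z) = trb P v e K (j + 1) z := by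
      rintro z hz
      obtain ⟨⟨hz1, hz2⟩, hz3, hz4⟩ := hz
      have h1 := ih1 z ⟨⟨hz1, hz2⟩, hz3, hz4⟩
      refine hP.step (norm_arc hv hz1 hz2 _) h1.1 h1.2 (hu _ _ (norm_arc hv hz1 hz2 _) (norm_arc hv hz1 hz2 _) ?_)
      refine (dist_arc hv hz1 hz2 _ _).trans ?_
      have e1 : ((j + 1 : ℕ) : ℝ) * z.2 / K - (j : ℝ) * z.2 / K = z.2 / K := by push_cast; ring
      rw [e1, abs_of_nonneg (by positivity)]
      gcongr
    refine ⟨fun z hz => ⟨(key z hz).2.1, (key z hz).2.2⟩, ?_⟩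
    have harc : ContinuousOn (fun z : E × ℝ => arc v z.1 (((j + 1 : ℕ) : ℝ) * z.2 / K)) (Tdom v) := by
      unfold arc
      fun_prop
    have h2 : ContinuousOn (fun z : E × ℝ => P (arc v z.1 (((j + 1 : ℕ) : ℝ) * z.2 / K))) (Tdom v) := by
      refine hc.comp harc fun z hz => ?_
      rw [mem_sphere_zero_iff_norm]
      exact norm_arc hv hz.1.1 hz.1.2 _
    have h3 : ContinuousOn (fun z : E × ℝ => P (arc v z.1 (((j + 1 : ℕ) : ℝ) * z.2 / K)) (trb P v e K j z)) (Tdom v) :=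
      h2.clm_apply ih2
    have h4 : ContinuousOn (fun z : E × ℝ => nrm (P (arc v z.1 (((j + 1 : ℕ) : ℝ) * z.2 / K)) (trb P v e K j z)))
        (Tdom v) := by
      unfold nrm
      exact (h3.norm.inv₀ fun z hz => norm_ne_zero_iff.mpr (key z hz).1).smul h3
    exact h4

/-- a continuous line field on the unit sphere of a space of dimension at least three has a continuous unit section -/
theorem exists_section_line [FiniteDimensional ℝ E] (h3 : 3 ≤ finrank ℝ E) {P : E → H →L[ℝ] H} (hP : LineQ P)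
    (hc : ContinuousOn P (sphere 0 1)) :
    ∃ e : E → H, ContinuousOn e (sphere 0 1) ∧ ∀ v, ‖v‖ = 1 → ‖e v‖ = 1 ∧ P v (e v) = e v := by
  have : Nontrivial E := Module.nontrivial_of_finrank_pos (R := ℝ) (by omega)
  obtain ⟨v, hv⟩ : ∃ v : E, ‖v‖ = 1 := exists_norm_eq E zero_le_one
  obtain ⟨e0, he0, hPe⟩ := hP v hv
  have hev : P v e0 = e0 := by
    rw [hPe, real_inner_self_eq_norm_sq, he0]; norm_num
  -- uniform continuity
  have huc := (isCompact_sphere (0 : E) 1).uniformContinuousOn_of_continuous hc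
  rw [Metric.uniformContinuousOn_iff] at huc
  obtain ⟨δ, hδ, hδ'⟩ := huc 1 one_pos
  obtain ⟨K, hK⟩ := exists_nat_gt (π / δ)
  have hK0 : 0 < K := by
    have : (0 : ℝ) < K := lt_of_le_of_lt (by positivity) hK
    exact_mod_cast this
  have hK0' : (0 : ℝ) < K := by exact_mod_cast hK0
  have hKδ : π / K < δ := by
    rw [div_lt_iff₀ hK0']
    rw [div_lt_iff₀ hδ] at hK
    linarith
  have hu : ∀ a b : E, ‖a‖ = 1 → ‖b‖ = 1 → ‖a - b‖ ≤ π / K → ‖P a - P b‖ < 1 := by
    intro a b ha hb hab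
    have := hδ' a (by rwa [mem_sphere_zero_iff_norm]) b (by rwa [mem_sphere_zero_iff_norm])
      (by rw [dist_eq_norm]; linarith)
    rwa [dist_eq_norm] at this
  obtain ⟨hF1, hF2⟩ := trb_spec hP hc hv he0 hev hK0 hu K
  obtain ⟨F, hF⟩ : ∃ F : E × ℝ → H, F = trb P v e0 K K := ⟨_, rfl⟩
  rw [← hF] at hF1 hF2
  have hKs : ∀ s : ℝ, (K : ℝ) * s / K = s := fun s => by field_simp
  have hF3 : ∀ z ∈ Tdom v, ‖F z‖ = 1 ∧ P (arc v z.1 z.2) (F z) = F z := by
    intro z hz
    have := hF1 z hz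
    rwa [hKs] at this
  -- the value at `s = 0`
  have h0 : ∀ u : E, F (u, 0) = e0 := by
    intro u
    have : ∀ j, trb P v e0 K j (u, 0) = e0 := by
      intro j
      induction j with
      | zero => rfl
      | succ j ih =>
        show nrm (P (arc v u (((j + 1 : ℕ) : ℝ) * 0 / K)) (trb P v e0 K j (u, 0))) = e0
        rw [ih, mul_zero, zero_div, arc_zero, hev, nrm_of_norm he0]
    rw [hF]
    exact this K
  -- the value at `s = π`
  have hpi : ∀ u u' : E, ‖u‖ = 1 → ⟪v, u⟫ = 0 → ‖u'‖ = 1 → ⟪v, u'⟫ = 0 → F (u, π) = F (u', π) := by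
    intro u u' hu1 hu2 hu3 hu4
    obtain ⟨e1, he1, hPe1⟩ := hP (-v) (by rw [norm_neg, hv])
    have hmem : ∀ w : E, ‖w‖ = 1 → ⟪v, w⟫ = 0 → (w, π) ∈ Tdom v := fun w h1 h2 =>
      ⟨⟨h1, h2⟩, pi_pos.le, le_refl _⟩
    have hval : ∀ w : E, ‖w‖ = 1 → ⟪v, w⟫ = 0 → F (w, π) = ⟪e1, F (w, π)⟫ • e1 := by
      intro w h1 h2
      have := (hF3 _ (hmem w h1 h2)).2
      simp only [arc_pi] at this
      rw [hPe1] at this
      exact this.symm
    have hval2 : ∀ w : E, ‖w‖ = 1 → ⟪v, w⟫ = 0 → ⟪e1, F (w, π)⟫ = 1 ∨ ⟪e1, F (w, π)⟫ = -1 := by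
      intro w h1 h2
      have h3 := (hF3 _ (hmem w h1 h2)).1
      rw [hval w h1 h2, norm_smul, he1, mul_one, Real.norm_eq_abs] at h3
      rcases abs_cases ⟪e1, F (w, π)⟫ with h | h
      · left; linarith
      · right; linarith
    have hcont : ContinuousOn (fun w : E => ⟪e1, F (w, π)⟫) {u : E | ‖u‖ = 1 ∧ ⟪v, u⟫ = 0} := by
      have h1 : ContinuousOn (fun w : E => F (w, π)) {u : E | ‖u‖ = 1 ∧ ⟪v, u⟫ = 0} :=
        hF2.comp (f := fun w : E => (w, π)) (by fun_prop) fun w hw => hmem w hw.1 hw.2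
      exact continuousOn_const.inner h1
    have heq : ⟪e1, F (u, π)⟫ = ⟪e1, F (u', π)⟫ := by
      by_contra hne
      have h1 := (isPreconnected_perp h3 hv).image _ hcont
      have hmem0 : (0 : ℝ) ∈ (fun w : E => ⟪e1, F (w, π)⟫) '' {u : E | ‖u‖ = 1 ∧ ⟪v, u⟫ = 0} := by
        have hord := h1.ordConnected
        have hA := hval2 u hu1 hu2
        have hB := hval2 u' hu3 hu4
        have hmA : ⟪e1, F (u, π)⟫ ∈ (fun w : E => ⟪e1, F (w, π)⟫) '' {u : E | ‖u‖ = 1 ∧ ⟪v, u⟫ = 0} :=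
          ⟨u, ⟨hu1, hu2⟩, rfl⟩
        have hmB : ⟪e1, F (u', π)⟫ ∈ (fun w : E => ⟪e1, F (w, π)⟫) '' {u : E | ‖u‖ = 1 ∧ ⟪v, u⟫ = 0} :=
          ⟨u', ⟨hu3, hu4⟩, rfl⟩
        rcases hA with hA | hA <;> rcases hB with hB | hB
        · exact absurd (hA.trans hB.symm) hne
        · rw [hA] at hmA; rw [hB] at hmB
          exact hord.out hmB hmA ⟨by norm_num, by norm_num⟩
        · rw [hA] at hmA; rw [hB] at hmB
          exact hord.out hmA hmB ⟨by norm_num, by norm_num⟩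
        · exact absurd (hA.trans hB.symm) hne
      obtain ⟨w, ⟨hw1, hw2⟩, hw3⟩ := hmem0
      rcases hval2 w hw1 hw2 with h | h
      · simp only [h] at hw3; norm_num at hw3
      · simp only [h] at hw3; norm_num at hw3
    rw [hval u hu1 hu2, hval u' hu3 hu4, heq]
  -- `F` is constant on the fibres
  have hfib : ∀ z ∈ Tdom v, ∀ z' ∈ Tdom v, arc v z.1 z.2 = arc v z'.1 z'.2 → F z = F z' := by
    rintro ⟨u, s⟩ ⟨⟨hu1, hu2⟩, hs⟩ ⟨u', s'⟩ ⟨⟨hu3, hu4⟩, hs'⟩ h
    simp only at hu1 hu2 hs hu3 hu4 hs' h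
    have hvv : ⟪v, v⟫ = 1 := by rw [real_inner_self_eq_norm_sq, hv]; norm_num
    have hcos : cos s = cos s' := by
      have h1 : ⟪v, arc v u s⟫ = ⟪v, arc v u' s'⟫ := by rw [h]
      simp only [arc, inner_add_right, real_inner_smul_right, hvv, hu2, hu4, mul_one, mul_zero, add_zero] at h1
      exact h1
    have hss : s = s' := injOn_cos hs hs' hcos
    subst hss
    have hsu : sin s • (u - u') = 0 := by
      have : cos s • v + sin s • u = cos s • v + sin s • u' := h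
      rw [smul_sub, sub_eq_zero]
      exact add_left_cancel this
    rcases smul_eq_zero.mp hsu with h1 | h1
    · rcases eq_or_lt_of_le hs.1 with h2 | h2
      · rw [← h2, h0, h0]
      · rcases eq_or_lt_of_le hs.2 with h4 | h4
        · rw [h4]; exact hpi u u' hu1 hu2 hu3 hu4
        · exact absurd h1 (sin_pos_of_pos_of_lt_pi h2 h4).ne'
    · rw [sub_eq_zero.mp h1]
  have hE : ∃ u : E, ‖u‖ = 1 ∧ ⟪v, u⟫ = 0 := by
    have h1 : 0 < finrank ℝ (ℝ ∙ v)ᗮ := by
      have hne : v ≠ 0 := by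
        intro h
        rw [h, norm_zero] at hv
        exact zero_ne_one hv
      have := (ℝ ∙ v).finrank_add_finrank_orthogonal
      rw [finrank_span_singleton hne] at this
      omega
    have : Nontrivial (ℝ ∙ v)ᗮ := Module.nontrivial_of_finrank_pos h1
    obtain ⟨x, hx⟩ : ∃ x : (ℝ ∙ v)ᗮ, ‖x‖ = 1 := exists_norm_eq _ zero_le_one
    exact ⟨x, hx, Submodule.mem_orthogonal_singleton_iff_inner_right.mp x.2⟩
  -- the section
  classical
  let e : E → H := fun w => if h : ∃ z ∈ Tdom v, arc v z.1 z.2 = w then F h.choose else 0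
  have hecomp : ∀ z ∈ Tdom v, e (arc v z.1 z.2) = F z := by
    intro z hz
    have hex : ∃ z' ∈ Tdom v, arc v z'.1 z'.2 = arc v z.1 z.2 := ⟨z, hz, rfl⟩
    have : e (arc v z.1 z.2) = F hex.choose := dif_pos hex
    rw [this]
    exact hfib _ hex.choose_spec.1 _ hz hex.choose_spec.2
  refine ⟨e, ?_, ?_⟩
  · -- continuity
    rw [continuousOn_iff_continuous_domRestrict]
    have hTc : IsCompact (Tdom v) := by
      have h1 : IsClosed {u : E | ⟪v, u⟫ = 0} := isClosed_eq (by fun_prop) continuous_const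
      have h2 : {u : E | ‖u‖ = 1 ∧ ⟪v, u⟫ = 0} = sphere 0 1 ∩ {u : E | ⟪v, u⟫ = 0} := by
        ext u; simp
      unfold Tdom
      rw [h2]
      exact ((isCompact_sphere 0 1).inter_right h1).prod isCompact_Icc
    have : CompactSpace (Tdom v) := isCompact_iff_compactSpace.mp hTc
    let f : Tdom v → sphere (0 : E) 1 := fun z =>
      ⟨arc v z.1.1 z.1.2, by rw [mem_sphere_zero_iff_norm]; exact norm_arc hv z.2.1.1 z.2.1.2 _⟩
    have hfc : Continuous f := by
      refine Continuous.subtype_mk ?_ _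
      unfold arc
      fun_prop
    have hfs : Function.Surjective f := by
      rintro ⟨w, hw⟩
      rw [mem_sphere_zero_iff_norm] at hw
      obtain ⟨z, hz, hzw⟩ := exists_polar hv hw hE
      exact ⟨⟨z, hz⟩, Subtype.ext hzw⟩
    have hq : IsQuotientMap f := hfc.isClosedMap.isQuotientMap hfc hfs
    rw [hq.continuous_iff]
    have : (sphere (0 : E) 1).domRestrict e ∘ f = (Tdom v).domRestrict F := by
      ext1 z
      exact hecomp z.1 z.2
    rw [this]
    exact continuousOn_iff_continuous_domRestrict.mp hF2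
  · intro w hw
    obtain ⟨z, hz, rfl⟩ := exists_polar hv hw hE
    rw [hecomp z hz]
    exact hF3 z hz

end sphere

end Pool.Agent.Lib.MP_ccbbf6_gt.L5
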