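import Pool.Agent.Lib.MP_ccbbf6_gt.L4.F4
import Pool.Agent.Lib.MP_ccbbf6_gt.L5.UOR06

/-!
# Level 5, UOR07: the form `χ(|x|) ψ` on `ℝ^n`, the logarithm on the punctured ball (helper2)
-/

set_option autoImplicit false
set_option linter.unusedSectionVars false
set_option linter.unusedVariables false

open Set Filter Topology Metric Real Module
open scoped ContDiff RealInnerProductSpace

noncomputable section

namespace Pool.Agent.Lib.MP_ccbbf6_gt.L5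

open Geo L4 L4.FR

variable {n : ℕ}

/-! ### the form `χ(|x|) ψ` on `ℝ^n` -/

theorem locPl_toE {x : V n} (hx : x ≠ 0) : LocPl (jR n) toE x := by
  obtain ⟨g, hg1, hg2⟩ := exists_sq x (isOpen_ne.mem_nhds hx)
  refine ⟨⟨fun w => ⟨toE (g w), fun h => hg2 w ?_⟩, contDiff_toE.comp g.smooth⟩, ?_⟩
  · have h1 : (toE (g w) : Fin n → ℝ) = 0 := by rw [h]; rfl
    exact h1
  · filter_upwards [hg1] with w hw
    show toE (g w) = toE w
    rw [hw]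

theorem vAt_chR {x : V n} (hx : x ≠ 0) : vAt (jR n) (chR n) toE x = algebraMap ℝ (Ex n) (chi ‖toE x‖) :=
  vAt_chO contDiff_chi hx

theorem vAt_chpsi (ψ : Om (spR n)) (x : V n) :
    vAt (jR n) (chR n * ψ) toE x = chi ‖toE x‖ • vAt (jR n) ψ toE x := by
  by_cases hx : x = 0
  · rw [hx, vAt_zero, vAt_zero, smul_zero]
  · rw [vAt_mul jR_inj, vAt_chR hx, Algebra.smul_def]

theorem ev_chi_near {x : V n} (h : ‖toE x‖ < 1) : ∀ᶠ y in 𝓝 x, chi ‖toE y‖ = 0 := by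
  filter_upwards [(contDiff_toE.continuous.norm.continuousAt (x := x)).eventually (gt_mem_nhds h)] with y hy
  exact chi_zero hy.le

theorem SmE_chpsi (ψ : Om (spR n)) : SmE fun x => vAt (jR n) (chR n * ψ) toE x := by
  refine SmE_of_loc fun x => ?_
  by_cases hx : x = 0
  · refine ⟨0, ?_⟩
    have h1 : ‖toE x‖ < 1 := by
      rw [hx, show toE (0 : V n) = 0 from rfl, norm_zero]
      exact one_pos
    filter_upwards [ev_chi_near h1] with y hy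
    rw [vAt_chpsi, hy, zero_smul, map_zero]
  · obtain ⟨P, hP⟩ := locPl_toE hx
    exact ⟨Om.on (chR n * ψ) P, vAt_eventuallyEq jR_inj _ P hP⟩

/-- the form `χ(|x|) ψ` on `ℝ^n` -/
def BBp (ψ : Om (spR n)) : Fm n := ofV fun x => vAt (jR n) (chR n * ψ) toE x

theorem ev_BBp (ψ : Om (spR n)) (x : V n) : ev x (BBp ψ) = vAt (jR n) (chR n * ψ) toE x := ev_ofV (SmE_chpsi ψ) x

theorem ev_dd_BBp (ψ : Om (spR n)) (x : V n) : ev x (dd n (BBp ψ)) = vAt (jR n) (dO _ (chR n * ψ)) toE x := by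
  by_cases hx : x = 0
  · have h1 : ‖toE x‖ < 1 := by
      rw [hx, show toE (0 : V n) = 0 from rfl, norm_zero]
      exact one_pos
    have h2 : ∀ᶠ y in 𝓝 x, ev y (BBp ψ) = ev y (0 : Fm n) := by
      filter_upwards [ev_chi_near h1] with y hy
      rw [ev_BBp, vAt_chpsi, hy, zero_smul, map_zero]
    rw [dd_local h2, map_zero, map_zero, hx, vAt_zero]
  · obtain ⟨P, hP⟩ := locPl_toE hx
    have h1 : ∀ᶠ y in 𝓝 x, ev y (BBp ψ) = ev y (Om.on (chR n * ψ) P) := by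
      filter_upwards [vAt_eventuallyEq jR_inj (chR n * ψ) P hP] with y hy
      rw [ev_BBp, hy]
    rw [dd_local h1, vAt_eq jR_inj (dO _ (chR n * ψ)) P hP, on_d]

/-! ### the logarithm -/

variable {M : Type} [MetricSpace M] [CompactSpace M] (𝒜 : SDist n M)

/-- the points of `M - p` at distance less than `π` -/
def UB (p : M) : Set (spP 𝒜 p).pt := {x | dist p x.1 < π}

theorem openU_UB (p : M) : OpenU (spP 𝒜 p) (UB 𝒜 p) :=
  OpenU_lt (fun k P => continuous_const.dist (Sm.continuous P.2)) fun k P => continuous_const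

/-- the punctured ball -/
abbrev spB (p : M) : Space := sub (spP 𝒜 p) (UB 𝒜 p)

/-- the logarithm -/
def lgf (p x : M) : Eu n := dist p x • SDist.dirOf 𝒜 p x

variable {𝒜}

theorem norm_lgf (hB : Bl M) {p x : M} (hx : x ≠ p) : ‖lgf 𝒜 p x‖ = dist p x := by
  unfold lgf
  rw [norm_smul, (dirOf_spec hB hx).1, mul_one, Real.norm_of_nonneg dist_nonneg]

theorem lgf_ne (hB : Bl M) {p x : M} (hx : x ≠ p) : lgf 𝒜 p x ≠ 0 := by
  rw [← norm_ne_zero_iff, norm_lgf hB hx]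
  exact (dist_pos.2 (Ne.symm hx)).ne'

theorem Ex_lgf (hB : Bl M) {p x : M} (hx : x ≠ p) : 𝒜.Ex p (lgf 𝒜 p x) = x := by
  unfold lgf
  rw [Ex_smul 𝒜 hB p (dirOf_spec hB hx).1, (dirOf_spec hB hx).2]

theorem lgf_Ex (hB : Bl M) {p : M} {ξ : Eu n} (h0 : ξ ≠ 0) (h1 : ‖ξ‖ < π) : lgf 𝒜 p (𝒜.Ex p ξ) = ξ := by
  have hn : 0 < ‖ξ‖ := norm_pos_iff.2 h0
  have hu := norm_normalize h0
  have hEx : 𝒜.Ex p ξ = 𝒜.gv p (‖ξ‖⁻¹ • ξ) ‖ξ‖ := rfl
  have hd : dist p (𝒜.Ex p ξ) = ‖ξ‖ := by rw [hEx, gv_dist 𝒜 hB p hu hn.le h1.le]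
  have hne : 𝒜.Ex p ξ ≠ p := by
    intro h
    rw [h, dist_self] at hd
    exact hn.ne hd
  obtain ⟨h2, h3⟩ := dirOf_spec (𝒜 := 𝒜) hB hne
  have h4 : SDist.dirOf 𝒜 p (𝒜.Ex p ξ) = ‖ξ‖⁻¹ • ξ := by
    refine gv_inj (𝒜 := 𝒜) (p := p) hB h2 hu hn h1 ?_
    rw [hd] at h3
    rw [h3, hEx]
  unfold lgf
  rw [h4, hd]
  exact smul_normv ξ

theorem cut_lgf (hB : Bl M) {p x : M} (hx : x ≠ p) : 𝒜.Ex p (rad π (lgf 𝒜 p x)) = cutp p x := by
  have h1 := dirOf_spec (𝒜 := 𝒜) hB hx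
  have h0 := dist_pos.2 (Ne.symm hx)
  have h2 : rad π (lgf 𝒜 p x) = rad π (SDist.dirOf 𝒜 p x) := by
    unfold lgf
    rw [rad_smul π h0]
  rw [h2, Ex_rad_of_norm hB h1.1]
  have h3 := cutp_gv 𝒜 hB p h1.1 h0 (hB.diam _ _)
  rw [h1.2] at h3
  exact h3.symm

theorem smooth_lgf (hB : Bl M) {p : M} {E : Type*} [NormedAddCommGroup E] [NormedSpace ℝ E] {g : E → M} {u : E}
    (hg : SmAt 𝒜 g u) (h0 : g u ≠ p) (h1 : dist p (g u) < π) : ContDiffAt ℝ ∞ (fun v => lgf 𝒜 p (g v)) u := by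
  obtain ⟨lg, hlg, hev⟩ := exists_log (𝒜 := 𝒜) hB h1
  have hz : 𝒜.ψ (g u) (g u) = 0 := 𝒜.zero _
  rw [← hz] at hlg hev
  have h2 := ContDiffAt.comp (g := lg) (f := fun v => 𝒜.ψ (g u) (g v)) u hlg hg.2
  refine h2.congr_of_eventuallyEq ?_
  have h3 : ContinuousAt (fun v => 𝒜.ψ (g u) (g v)) u := hg.2.continuousAt
  have h4 : ContinuousAt (fun v => dist p (g v)) u := continuousAt_const.dist hg.1
  filter_upwards [hg.1.eventually ((𝒜.ψ (g u)).open_source.mem_nhds (𝒜.mem _)), h3.eventually hev,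
    h4.eventually (gt_mem_nhds h1), h4.eventually (lt_mem_nhds (dist_pos.2 (Ne.symm h0)))] with v hv1 hv2 hv3 hv4
  have h5 : (𝒜.ψ (g u)).symm (𝒜.ψ (g u) (g v)) = g v := (𝒜.ψ (g u)).left_inv hv1
  rw [h5] at hv2
  have h6 : lg (𝒜.ψ (g u) (g v)) ≠ 0 := by
    rw [← norm_pos_iff, hv2.1]
    exact hv4
  show lgf 𝒜 p (g v) = lg (𝒜.ψ (g u) (g v))
  have h7 := lgf_Ex (𝒜 := 𝒜) (p := p) hB h6 (by rw [hv2.1]; exact hv3)
  rw [hv2.2] at h7
  exact h7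

/-- the logarithm as a smooth map -/
def lgB (hB : Bl M) (p : M) : SMap (spB 𝒜 p) (spR n) :=
  ⟨fun x => ⟨lgf 𝒜 p x.1.1, lgf_ne hB x.1.2⟩, fun k P => contDiff_iff_contDiffAt.2 fun z =>
    smooth_lgf hB (g := fun z => (P.1 z).1.1) (P.2 z) (P.1 z).1.2 (P.1 z).2⟩

end Pool.Agent.Lib.MP_ccbbf6_gt.L5
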