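import Pool.Agent.Lib.MP_ccbbf6_gt.ML

/-!
# Level 5, block WK, file 0 (helper79): the complex structure of a pencil

`X, Y` elements of a Banach algebra, `B s = cos s • X + sin s • Y` invertible between the corners of two
idempotents `P, Q` with inverse `C s`.  `Φ s = C s * B' s` satisfies
`(cos τ • P + sin τ • Φ s) * Φ (s + τ) = - sin τ • P + cos τ • Φ s`, hence `J = (1/π) ∫_0^π Φ` satisfies `J * J = -P`.
-/

set_option autoImplicit false

open Set Filter Topology Real MeasureTheory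
open scoped Interval

noncomputable section

namespace Pool.Agent.Lib.MP_ccbbf6_gt.L5.WK

variable {R : Type*} [NormedRing R] [NormedAlgebra ℝ R]

/-- the pencil -/
def Bp (X Y : R) (s : ℝ) : R := cos s • X + sin s • Y

/-- its derivative -/
def Bd (X Y : R) (s : ℝ) : R := -sin s • X + cos s • Y

theorem Bp_add (X Y : R) (s t : ℝ) : Bp X Y (s + t) = cos t • Bp X Y s + sin t • Bd X Y s := by
  simp only [Bp, Bd, cos_add, sin_add]
  module

theorem Bd_add (X Y : R) (s t : ℝ) : Bd X Y (s + t) = -sin t • Bp X Y s + cos t • Bd X Y s := by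
  simp only [Bp, Bd, cos_add, sin_add]
  module

theorem Bp_pi (X Y : R) (s : ℝ) : Bp X Y (s + π) = -Bp X Y s := by
  rw [Bp_add]; simp

theorem Bd_pi (X Y : R) (s : ℝ) : Bd X Y (s + π) = -Bd X Y s := by
  rw [Bd_add]; simp

theorem Bp_zero (X Y : R) : Bp X Y 0 = X := by simp [Bp]

theorem Bd_zero (X Y : R) : Bd X Y 0 = Y := by simp [Bd]

theorem Bp_half (X Y : R) : Bp X Y (π / 2) = Y := by simp [Bp]

theorem continuous_Bp (X Y : R) : Continuous (Bp X Y) := by
  unfold Bp; fun_prop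

theorem continuous_Bd (X Y : R) : Continuous (Bd X Y) := by
  unfold Bd; fun_prop

/-- rotated pencil -/
theorem Bp_rot (X Y : R) (s t : ℝ) : Bp (Bp X Y t) (Bd X Y t) s = Bp X Y (t + s) := by
  rw [Bp_add]; rfl

theorem Bd_rot (X Y : R) (s t : ℝ) : Bd (Bp X Y t) (Bd X Y t) s = Bd X Y (t + s) := by
  rw [Bd_add]; rfl

/-- a pencil with inverses -/
structure Pen (P Q X Y : R) (C : ℝ → R) : Prop where
  XP : X * P = X
  YP : Y * P = Y
  QX : Q * X = X
  QY : Q * Y = Y
  CB : ∀ s, C s * Bp X Y s = P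
  BC : ∀ s, Bp X Y s * C s = Q
  PC : ∀ s, P * C s = C s
  cont : Continuous C

variable {P Q X Y : R} {C : ℝ → R}

namespace Pen

theorem BP (h : Pen P Q X Y C) (s : ℝ) : Bp X Y s * P = Bp X Y s := by
  simp only [Bp, add_mul, smul_mul_assoc, h.XP, h.YP]

theorem dP (h : Pen P Q X Y C) (s : ℝ) : Bd X Y s * P = Bd X Y s := by
  simp only [Bd, add_mul, smul_mul_assoc, h.XP, h.YP]

theorem QB (h : Pen P Q X Y C) (s : ℝ) : Q * Bp X Y s = Bp X Y s := by
  simp only [Bp, mul_add, mul_smul_comm, h.QX, h.QY]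

theorem Qd (h : Pen P Q X Y C) (s : ℝ) : Q * Bd X Y s = Bd X Y s := by
  simp only [Bd, mul_add, mul_smul_comm, h.QX, h.QY]

theorem PP (h : Pen P Q X Y C) : P * P = P := by
  calc P * P = P * (C 0 * Bp X Y 0) := by rw [h.CB]
    _ = (P * C 0) * Bp X Y 0 := by rw [mul_assoc]
    _ = P := by rw [h.PC, h.CB]

theorem QQ (h : Pen P Q X Y C) : Q * Q = Q := by
  calc Q * Q = Q * (Bp X Y 0 * C 0) := by rw [h.BC]
    _ = (Q * Bp X Y 0) * C 0 := by rw [mul_assoc]
    _ = Q := by rw [h.QB, h.BC]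

theorem CQ (h : Pen P Q X Y C) (s : ℝ) : C s * Q = C s := by
  calc C s * Q = C s * (Bp X Y s * C s) := by rw [h.BC]
    _ = (C s * Bp X Y s) * C s := by rw [mul_assoc]
    _ = C s := by rw [h.CB, h.PC]

theorem C_pi (h : Pen P Q X Y C) (s : ℝ) : C (s + π) = -C s := by
  calc C (s + π) = C (s + π) * Q := (h.CQ _).symm
    _ = C (s + π) * (Bp X Y s * C s) := by rw [h.BC]
    _ = C (s + π) * ((-Bp X Y (s + π)) * C s) := by rw [Bp_pi, neg_neg]
    _ = -((C (s + π) * Bp X Y (s + π)) * C s) := by simp only [neg_mul, mul_neg, mul_assoc]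
    _ = -C s := by rw [h.CB, h.PC]

/-- uniqueness of the inverse -/
theorem C_unique (h : Pen P Q X Y C) {C' : ℝ → R} (h' : Pen P Q X Y C') (s : ℝ) : C s = C' s := by
  calc C s = C s * Q := (h.CQ _).symm
    _ = C s * (Bp X Y s * C' s) := by rw [h'.BC]
    _ = (C s * Bp X Y s) * C' s := by rw [mul_assoc]
    _ = C' s := by rw [h.CB, h'.PC]

/-- rotation of the pencil -/
theorem rot (h : Pen P Q X Y C) (t : ℝ) : Pen P Q (Bp X Y t) (Bd X Y t) (fun s => C (t + s)) where
  XP := h.BP t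
  YP := h.dP t
  QX := h.QB t
  QY := h.Qd t
  CB s := by rw [Bp_rot]; exact h.CB _
  BC s := by rw [Bp_rot]; exact h.BC _
  PC s := h.PC _
  cont := h.cont.comp (by fun_prop)

end Pen

/-- the Cayley transform -/
def Ph (X Y : R) (C : ℝ → R) (s : ℝ) : R := C s * Bd X Y s

/-- the transform on the other side -/
def Ph' (X Y : R) (C : ℝ → R) (s : ℝ) : R := Bd X Y s * C s

namespace Pen

theorem Ph_pi (h : Pen P Q X Y C) (s : ℝ) : Ph X Y C (s + π) = Ph X Y C s := by
  simp only [Ph, h.C_pi, Bd_pi, neg_mul, mul_neg, neg_neg]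

theorem Ph'_pi (h : Pen P Q X Y C) (s : ℝ) : Ph' X Y C (s + π) = Ph' X Y C s := by
  simp only [Ph', h.C_pi, Bd_pi, neg_mul, mul_neg, neg_neg]

theorem P_Ph (h : Pen P Q X Y C) (s : ℝ) : P * Ph X Y C s = Ph X Y C s := by
  rw [Ph, ← mul_assoc, h.PC]

theorem Ph_P (h : Pen P Q X Y C) (s : ℝ) : Ph X Y C s * P = Ph X Y C s := by
  rw [Ph, mul_assoc, h.dP]

theorem Q_Ph' (h : Pen P Q X Y C) (s : ℝ) : Q * Ph' X Y C s = Ph' X Y C s := by
  rw [Ph', ← mul_assoc, h.Qd]

theorem Ph'_Q (h : Pen P Q X Y C) (s : ℝ) : Ph' X Y C s * Q = Ph' X Y C s := by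
  rw [Ph', mul_assoc, h.CQ]

theorem B_Ph (h : Pen P Q X Y C) (s : ℝ) : Bp X Y s * Ph X Y C s = Bd X Y s := by
  rw [Ph, ← mul_assoc, h.BC, h.Qd]

theorem Ph'_B (h : Pen P Q X Y C) (s : ℝ) : Ph' X Y C s * Bp X Y s = Bd X Y s := by
  rw [Ph', mul_assoc, h.CB, h.dP]

theorem C_B (h : Pen P Q X Y C) (s t : ℝ) : C s * Bp X Y (s + t) = cos t • P + sin t • Ph X Y C s := by
  rw [Bp_add, mul_add, mul_smul_comm, mul_smul_comm, h.CB, Ph]

theorem C_d (h : Pen P Q X Y C) (s t : ℝ) : C s * Bd X Y (s + t) = -sin t • P + cos t • Ph X Y C s := by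
  rw [Bd_add, mul_add, mul_smul_comm, mul_smul_comm, h.CB, Ph]

/-- the Moebius identity -/
theorem moebius (h : Pen P Q X Y C) (s t : ℝ) :
    (cos t • P + sin t • Ph X Y C s) * Ph X Y C (s + t) = -sin t • P + cos t • Ph X Y C s := by
  rw [← h.C_B, ← h.C_d, mul_assoc, h.B_Ph]

theorem Ph_mul (h : Pen P Q X Y C) (s : ℝ) {t : ℝ} (ht : sin t ≠ 0) :
    Ph X Y C s * Ph X Y C (s + t) = -P + (cos t / sin t) • (Ph X Y C s - Ph X Y C (s + t)) := by
  have h1 := h.moebius s t
  rw [add_mul, smul_mul_assoc, smul_mul_assoc, h.P_Ph] at h1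
  have h2 : sin t • (Ph X Y C s * Ph X Y C (s + t)) =
      sin t • (-P + (cos t / sin t) • (Ph X Y C s - Ph X Y C (s + t))) := by
    have h3 : sin t • (Ph X Y C s * Ph X Y C (s + t)) =
        (-sin t • P + cos t • Ph X Y C s) - cos t • Ph X Y C (s + t) := by
      rw [← h1]; abel
    rw [h3, smul_add, smul_smul, mul_div_cancel₀ _ ht, smul_sub, smul_neg, neg_smul]
    abel
  exact smul_right_injective R ht h2

/-- intertwining -/
theorem Ph'_mul_B (h : Pen P Q X Y C) (s t : ℝ) : Ph' X Y C s * Bp X Y (s + t) = Bp X Y (s + t) * Ph X Y C s := by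
  rw [Bp_add, mul_add, mul_smul_comm, mul_smul_comm, h.Ph'_B, add_mul, smul_mul_assoc, smul_mul_assoc, h.B_Ph, Ph', Ph,
    mul_assoc]

theorem continuous_Ph (h : Pen P Q X Y C) : Continuous (Ph X Y C) := h.cont.mul (continuous_Bd X Y)

theorem continuous_Ph' (h : Pen P Q X Y C) : Continuous (Ph' X Y C) := (continuous_Bd X Y).mul h.cont

end Pen

/-- the complex structure -/
def Jm (X Y : R) (C : ℝ → R) : R := π⁻¹ • ∫ s in (0 : ℝ)..π, Ph X Y C s

/-- the complex structure on the other side -/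
def Jm' (X Y : R) (C : ℝ → R) : R := π⁻¹ • ∫ s in (0 : ℝ)..π, Ph' X Y C s

/-- Fubini for continuous functions on a square -/
theorem swap_int {E : Type*} [NormedAddCommGroup E] [NormedSpace ℝ E] {f : ℝ → ℝ → E}
    (hf : Continuous fun z : ℝ × ℝ => f z.1 z.2) {a b : ℝ} (hab : a ≤ b) :
    ∫ s in a..b, ∫ t in a..b, f s t = ∫ t in a..b, ∫ s in a..b, f s t := by
  simp only [intervalIntegral.integral_of_le hab]
  refine integral_integral_swap ?_
  have h1 : IntegrableOn (Function.uncurry f) (Icc a b ×ˢ Icc a b) (volume.prod volume) :=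
    (show Continuous (Function.uncurry f) from hf).continuousOn.integrableOn_compact (isCompact_Icc.prod isCompact_Icc)
  have h2 : IntegrableOn (Function.uncurry f) (Ioc a b ×ˢ Ioc a b) (volume.prod volume) :=
    h1.mono_set (Set.prod_mono Ioc_subset_Icc_self Ioc_subset_Icc_self)
  rw [IntegrableOn, ← Measure.prod_restrict] at h2
  exact h2

variable [CompleteSpace R]

omit [CompleteSpace R] in
theorem int_shift {f : ℝ → R} (hf : ∀ s, f (s + π) = f s) (a : ℝ) :
    ∫ s in (0 : ℝ)..π, f (a + s) = ∫ s in (0 : ℝ)..π, f s := by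
  have hp : Function.Periodic f π := hf
  rw [intervalIntegral.integral_comp_add_left (fun s => f s) a, add_zero]
  have := hp.intervalIntegral_add_eq a 0
  simpa using this

theorem mul_int {f : ℝ → R} (c : R) {a b : ℝ} (hf : Continuous f) :
    ∫ s in a..b, c * f s = c * ∫ s in a..b, f s := by
  have := ((ContinuousLinearMap.mul ℝ R) c).intervalIntegral_comp_comm (μ := volume) (hf.intervalIntegrable a b)
  simpa using this

theorem int_mul {f : ℝ → R} (c : R) {a b : ℝ} (hf : Continuous f) :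
    ∫ s in a..b, f s * c = (∫ s in a..b, f s) * c := by
  have := ((ContinuousLinearMap.mul ℝ R).flip c).intervalIntegral_comp_comm (μ := volume) (hf.intervalIntegrable a b)
  simpa using this

namespace Pen

variable (h : Pen P Q X Y C)
include h

theorem int_prod {t : ℝ} (ht : sin t ≠ 0) :
    ∫ s in (0 : ℝ)..π, Ph X Y C s * Ph X Y C (s + t) = -(π • P) := by
  have h1 : ∀ s, Ph X Y C s * Ph X Y C (s + t) = -P + (cos t / sin t) • (Ph X Y C s - Ph X Y C (s + t)) :=
    fun s => h.Ph_mul s ht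
  simp only [h1]
  have hc := h.continuous_Ph
  have hc2 : Continuous fun s => Ph X Y C (s + t) := hc.comp (by fun_prop)
  have hc3 : Continuous fun s => (cos t / sin t) • (Ph X Y C s - Ph X Y C (s + t)) := (hc.sub hc2).const_smul _
  rw [intervalIntegral.integral_add (by simp) (hc3.intervalIntegrable _ _),
    intervalIntegral.integral_const, intervalIntegral.integral_smul,
    intervalIntegral.integral_sub (hc.intervalIntegrable _ _) (hc2.intervalIntegrable _ _)]
  have h2 : ∫ s in (0 : ℝ)..π, Ph X Y C (s + t) = ∫ s in (0 : ℝ)..π, Ph X Y C s := by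
    have := int_shift (f := Ph X Y C) h.Ph_pi t
    simpa [add_comm] using this
  rw [h2, sub_self, smul_zero, add_zero, sub_zero, smul_neg]

theorem J_sq : Jm X Y C * Jm X Y C = -P := by
  have hc := h.continuous_Ph
  have h0 : (∫ s in (0 : ℝ)..π, Ph X Y C s) * (∫ s in (0 : ℝ)..π, Ph X Y C s) = -((π * π) • P) := by
    rw [← int_mul _ hc]
    have h1 : ∀ s, Ph X Y C s * (∫ t in (0 : ℝ)..π, Ph X Y C t) = ∫ t in (0 : ℝ)..π, Ph X Y C s * Ph X Y C (s + t) := by
      intro s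
      have hc4 : Continuous fun t => Ph X Y C (s + t) := hc.comp (by fun_prop)
      rw [mul_int _ hc4, int_shift h.Ph_pi]
    simp only [h1]
    rw [swap_int (f := fun s t => Ph X Y C s * Ph X Y C (s + t)) (by
      exact (hc.comp continuous_fst).mul (hc.comp (continuous_fst.add continuous_snd))) pi_pos.le]
    have h2 : ∀ᵐ t ∂volume, t ∈ Ι (0 : ℝ) π → ∫ s in (0 : ℝ)..π, Ph X Y C s * Ph X Y C (s + t) = -(π • P) := by
      have h3 : ∀ᵐ t : ℝ ∂volume, t ≠ π := by
        simp [ae_iff]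
      filter_upwards [h3] with t ht htm
      rw [uIoc_of_le pi_pos.le] at htm
      exact h.int_prod (sin_pos_of_pos_of_lt_pi htm.1 (lt_of_le_of_ne htm.2 ht)).ne'
    rw [intervalIntegral.integral_congr_ae h2, intervalIntegral.integral_const, sub_zero, smul_neg, smul_smul]
  rw [Jm, smul_mul_smul_comm, h0, smul_neg, smul_smul]
  have : π⁻¹ * π⁻¹ * (π * π) = 1 := by
    field_simp
  rw [this, one_smul]

theorem P_J : P * Jm X Y C = Jm X Y C := by
  rw [Jm, mul_smul_comm, ← mul_int _ h.continuous_Ph]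
  simp only [h.P_Ph]

theorem J_P : Jm X Y C * P = Jm X Y C := by
  rw [Jm, smul_mul_assoc, ← int_mul _ h.continuous_Ph]
  simp only [h.Ph_P]

theorem Q_J' : Q * Jm' X Y C = Jm' X Y C := by
  rw [Jm', mul_smul_comm, ← mul_int _ h.continuous_Ph']
  simp only [h.Q_Ph']

theorem J'_Q : Jm' X Y C * Q = Jm' X Y C := by
  rw [Jm', smul_mul_assoc, ← int_mul _ h.continuous_Ph']
  simp only [h.Ph'_Q]

theorem J'_B (t : ℝ) : Jm' X Y C * Bp X Y t = Bp X Y t * Jm X Y C := by
  rw [Jm', Jm, smul_mul_assoc, mul_smul_comm, ← int_mul _ h.continuous_Ph', ← mul_int _ h.continuous_Ph]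
  congr 1
  refine intervalIntegral.integral_congr fun s _ => ?_
  have := h.Ph'_mul_B s (t - s)
  simpa using this

theorem J'_X : Jm' X Y C * X = X * Jm X Y C := by
  have := h.J'_B 0
  rwa [Bp_zero] at this

theorem J'_Y : Jm' X Y C * Y = Y * Jm X Y C := by
  have := h.J'_B (π / 2)
  rwa [Bp_half] at this

theorem J'_eq (s : ℝ) : Jm' X Y C = Bp X Y s * Jm X Y C * C s := by
  rw [← h.J'_B, mul_assoc, h.BC, h.J'_Q]

theorem J'_sq : Jm' X Y C * Jm' X Y C = -Q := by
  calc Jm' X Y C * Jm' X Y C = Jm' X Y C * (Bp X Y 0 * Jm X Y C * C 0) := by rw [← h.J'_eq 0]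
    _ = (Jm' X Y C * Bp X Y 0) * Jm X Y C * C 0 := by simp only [mul_assoc]
    _ = Bp X Y 0 * (Jm X Y C * Jm X Y C) * C 0 := by rw [h.J'_B]; simp only [mul_assoc]
    _ = -Q := by rw [h.J_sq, mul_neg, neg_mul, h.BP, h.BC]

omit [CompleteSpace R] in
/-- invariance under the rotation -/
theorem J_rot (t : ℝ) : Jm (Bp X Y t) (Bd X Y t) (fun s => C (t + s)) = Jm X Y C := by
  rw [Jm, Jm]
  congr 1
  have h1 : ∀ s, Ph (Bp X Y t) (Bd X Y t) (fun s => C (t + s)) s = Ph X Y C (t + s) := by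
    intro s
    rw [Ph, Ph, Bd_rot]
  simp only [h1]
  exact int_shift h.Ph_pi t

omit [CompleteSpace R] in
theorem J'_rot (t : ℝ) : Jm' (Bp X Y t) (Bd X Y t) (fun s => C (t + s)) = Jm' X Y C := by
  rw [Jm', Jm']
  congr 1
  have h1 : ∀ s, Ph' (Bp X Y t) (Bd X Y t) (fun s => C (t + s)) s = Ph' X Y C (t + s) := by
    intro s
    rw [Ph', Ph', Bd_rot]
  simp only [h1]
  exact int_shift h.Ph'_pi t

end Pen

/-! ### the real operator `S = X - Y J`: on the `+i` part of `J` it is `X - i Y` -/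

/-- the twisting operator -/
def Sm (X Y : R) (C : ℝ → R) : R := X - Y * Jm X Y C

namespace Pen

variable (h : Pen P Q X Y C)
include h

theorem S_P : Sm X Y C * P = Sm X Y C := by
  rw [Sm, sub_mul, mul_assoc, h.J_P, h.XP]

theorem Q_S : Q * Sm X Y C = Sm X Y C := by
  rw [Sm, mul_sub, ← mul_assoc, h.QX, h.QY]

/-- `S` intertwines -/
theorem J'_S : Jm' X Y C * Sm X Y C = Sm X Y C * Jm X Y C := by
  rw [Sm, mul_sub, ← mul_assoc, h.J'_X, h.J'_Y, sub_mul]

theorem S_J : Sm X Y C * Jm X Y C = X * Jm X Y C + Y := by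
  rw [Sm, sub_mul, mul_assoc, h.J_sq, mul_neg, h.YP, sub_neg_eq_add]

/-- the rotated operator -/
theorem S_rot (t : ℝ) : Sm (Bp X Y t) (Bd X Y t) (fun s => C (t + s)) =
    Sm X Y C * (cos t • P + sin t • Jm X Y C) := by
  have h1 : Sm (Bp X Y t) (Bd X Y t) (fun s => C (t + s)) = Bp X Y t - Bd X Y t * Jm X Y C := by
    rw [Sm, h.J_rot]
  rw [h1, mul_add, mul_smul_comm, mul_smul_comm, h.S_P, h.S_J, Sm, Bp, Bd]
  simp only [add_mul, smul_mul_assoc, smul_sub, smul_add, neg_smul, neg_mul]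
  abel

end Pen

end Pool.Agent.Lib.MP_ccbbf6_gt.L5.WK
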