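import Pool.Agent.Lib.MP_ccbbf6_gt.L4.SM3
import Pool.Agent.Lib.MP_ccbbf6_gt.L5.WK1

/-!
# Level 5, block WK, file 2 (helper79): smooth families of pencils
-/

set_option autoImplicit false
set_option linter.unusedSectionVars false

open Set Filter Topology Real MeasureTheory
open scoped Interval ContDiff RealInnerProductSpace

noncomputable section

namespace Pool.Agent.Lib.MP_ccbbf6_gt.L5.WK

open ContinuousLinearMap (adjoint)

variable {E : Type} [NormedAddCommGroup E] [InnerProductSpace ℝ E] [FiniteDimensional ℝ E] [CompleteSpace E]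
  {F : Type} [NormedAddCommGroup F] [NormedSpace ℝ F]

/-- smooth families of data -/
structure Fam (P Q X Y : F → E →L[ℝ] E) : Prop where
  smP : ContDiff ℝ ∞ P
  smQ : ContDiff ℝ ∞ Q
  smX : ContDiff ℝ ∞ X
  smY : ContDiff ℝ ∞ Y
  dat : ∀ z, Dat (P z) (Q z) (X z) (Y z)

variable {P Q X Y : F → E →L[ℝ] E}

namespace Fam

variable (h : Fam P Q X Y)
include h

theorem contDiff_Bp : ContDiff ℝ ∞ fun z : F × ℝ => Bp (X z.1) (Y z.1) z.2 := by
  unfold Bp
  exact ((contDiff_cos.comp contDiff_snd).smul (h.smX.comp contDiff_fst)).add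
    ((contDiff_sin.comp contDiff_snd).smul (h.smY.comp contDiff_fst))

theorem contDiff_Bd : ContDiff ℝ ∞ fun z : F × ℝ => Bd (X z.1) (Y z.1) z.2 := by
  unfold Bd
  exact ((contDiff_sin.neg.comp contDiff_snd).smul (h.smX.comp contDiff_fst)).add
    ((contDiff_cos.comp contDiff_snd).smul (h.smY.comp contDiff_fst))

theorem contDiff_Ci : ContDiff ℝ ∞ fun z : F × ℝ => Ci (P z.1) (X z.1) (Y z.1) z.2 := by
  rw [contDiff_iff_contDiffAt]
  intro z
  exact contDiffAt_pinv (p := fun z : F × ℝ => P z.1) (b := fun z : F × ℝ => Bp (X z.1) (Y z.1) z.2)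
    (h.smP.comp contDiff_fst).contDiffAt h.contDiff_Bp.contDiffAt
    (isUnit_Gr (h.dat z.1).sP (h.dat z.1).PP ((h.dat z.1).inj z.2))

theorem contDiff_J : ContDiff ℝ ∞ fun z => Jm (X z) (Y z) (Ci (P z) (X z) (Y z)) := by
  unfold Jm Ph
  refine ContDiff.const_smul _ ?_
  exact L4.contDiff_param.{0, 0} (f := fun z : F × ℝ => Ci (P z.1) (X z.1) (Y z.1) z.2 * Bd (X z.1) (Y z.1) z.2)
    (h.contDiff_Ci.mul h.contDiff_Bd) 0 π

theorem contDiff_J' : ContDiff ℝ ∞ fun z => Jm' (X z) (Y z) (Ci (P z) (X z) (Y z)) := by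
  unfold Jm' Ph'
  refine ContDiff.const_smul _ ?_
  exact L4.contDiff_param.{0, 0} (f := fun z : F × ℝ => Bd (X z.1) (Y z.1) z.2 * Ci (P z.1) (X z.1) (Y z.1) z.2)
    (h.contDiff_Bd.mul h.contDiff_Ci) 0 π

theorem contDiff_S : ContDiff ℝ ∞ fun z => Sm (X z) (Y z) (Ci (P z) (X z) (Y z)) := by
  unfold Sm
  exact h.smX.sub (h.smY.mul h.contDiff_J)

theorem contDiff_T : ContDiff ℝ ∞ fun z => pinv (P z) (Sm (X z) (Y z) (Ci (P z) (X z) (Y z))) := by
  rw [contDiff_iff_contDiffAt]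
  intro z
  exact contDiffAt_pinv (p := P) (b := fun z => Sm (X z) (Y z) (Ci (P z) (X z) (Y z)))
    h.smP.contDiffAt h.contDiff_S.contDiffAt
    (isUnit_Gr (h.dat z).sP (h.dat z).PP (h.dat z).S_inj)

end Fam

end Pool.Agent.Lib.MP_ccbbf6_gt.L5.WK
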